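import Pool.Agent.H63.CLK.A_PW

/-! # The local relations -/

namespace Pool.Agent.H63.CLK

open Pool.Agent.H63.VC7 Pool.Agent.H63.VC10

/-- The factor of a minimum. -/
noncomputable def kap (N : ℕ) : ℂ := qz N ^ ((N : ℤ) * N) * brf (qz N) N

theorem kap_ne (N : ℕ) : kap N ≠ 0 :=
  mul_ne_zero (zpow_ne_zero _ (A_Em_qz_ne N)) (A_Em_brf_ne N le_rfl)

theorem A_Base_sign (N : ℕ) (u : ℕ) : qz N ^ ((u : ℤ) * ((N : ℤ) + 1)) = (-1) ^ u := by
  rw [mul_comm, zpow_mul, A_Em_qz_M, zpow_natCast]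

theorem A_Base_cupc (N s : ℕ) (h : s ≤ N) :
    cupc (qz N) N s = qz N ^ ((s : ℤ) * (2 * N - s)) := by
  unfold cupc
  rw [A_Em_brf_mul N s h, div_self (A_Em_brf_ne N le_rfl), mul_one, ← A_Base_sign N s,
    ← zpow_add₀ (A_Em_qz_ne N)]
  congr 1
  ring

theorem A_Base_ib_mul (N : ℕ) (a b : ℤ) (ha : 0 ≤ a) (hb : 0 ≤ b) (h : a + b = N) :
    ib N a * ib N b = (brf (qz N) N)⁻¹ := by
  obtain ⟨m, rfl⟩ : ∃ m : ℕ, a = m := ⟨a.toNat, by omega⟩
  obtain ⟨n, rfl⟩ : ∃ n : ℕ, b = n := ⟨b.toNat, by omega⟩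
  rw [ib_nat, ib_nat, ← A_Em_brf_mul N m (by omega), mul_inv, show N - m = n by omega]

/-- The alternating sum of the `q`-binomial coefficients vanishes. -/
theorem A_Base_van (N D : ℕ) (h1 : 1 ≤ D) (h2 : D ≤ N) :
    ∑ u ∈ Finset.range (D + 1), (-1) ^ u * qz N ^ (-((u : ℤ) * ((D : ℤ) - 1))) *
      (ib N u * ib N ((D : ℤ) - u)) = 0 := by
  have hq := A_Em_qz_ne N
  have hD : br (qz N) (D : ℤ) ≠ 0 := A_Em_br_ne N (by omega) (by omega)
  apply (mul_right_inj' hD).1
  rw [mul_zero, Finset.mul_sum]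
  set G : ℕ → ℂ := fun u => -((-1) ^ u * qz N ^ (-(((u : ℤ) - 1) * (D : ℤ))) *
      (ib N ((u : ℤ) - 1) * ib N ((D : ℤ) - u))) with hG
  have e : ∀ u ∈ Finset.range (D + 1), br (qz N) (D : ℤ) * ((-1) ^ u *
      qz N ^ (-((u : ℤ) * ((D : ℤ) - 1))) * (ib N u * ib N ((D : ℤ) - u))) = G (u + 1) - G u := by
    intro u hu
    have hu' := Finset.mem_range.1 hu
    have t : br (qz N) (D : ℤ) = qz N ^ ((D : ℤ) - u) * br (qz N) u +
        qz N ^ (-(u : ℤ)) * br (qz N) ((D : ℤ) - u) := by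
      unfold br
      rw [mul_sub, mul_sub, ← zpow_add₀ hq, ← zpow_add₀ hq, ← zpow_add₀ hq, ← zpow_add₀ hq]
      rw [show (D : ℤ) - u + u = D by ring, show -(u : ℤ) + -((D : ℤ) - u) = -(D : ℤ) by ring,
        show (D : ℤ) - u + -u = -(u : ℤ) + ((D : ℤ) - u) by ring]
      ring
    have i1 := ib_pred N (show ((u : ℤ)) ≤ N by omega)
    have i2 := ib_pred N (show ((D : ℤ) - u) ≤ N by omega)
    simp only [hG]
    push_cast
    rw [show (u : ℤ) + 1 - 1 = u by ring, show (D : ℤ) - (u + 1) = (D : ℤ) - u - 1 by ring, i1, i2, t,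
      show -((u : ℤ) * ((D : ℤ) - 1)) = -((u : ℤ) * D) + u by ring,
      show -(((u : ℤ) - 1) * (D : ℤ)) = -((u : ℤ) * D) + D by ring, pow_succ]
    simp only [zpow_add₀ hq, zpow_sub₀ hq, _root_.zpow_neg]
    have h3 : qz N ^ (u : ℤ) ≠ 0 := zpow_ne_zero _ hq
    field_simp
    ring
  rw [Finset.sum_congr rfl e, Finset.sum_range_sub]
  simp only [hG]
  push_cast
  rw [ib_neg N (show (D : ℤ) - (D + 1) < 0 by omega), ib_neg N (show (-1 : ℤ) < 0 by omega)]
  ring

theorem A_Base_cupS (N s t D : ℕ) (hs : s ≤ N) (ht : t ≤ N) (h : s + t = N + D) :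
    ∑ u ∈ Finset.range (D + 1), flz N u N ((D - u : ℕ) : ℤ) s t =
      if D = 0 then qz N ^ (-((t : ℤ) * t)) * (brf (qz N) N)⁻¹ else 0 := by
  have hq := A_Em_qz_ne N
  have e : ∀ u ∈ Finset.range (D + 1), flz N u N ((D - u : ℕ) : ℤ) s t =
      qz N ^ (-((t : ℤ) * (t - D))) * (brf (qz N) N)⁻¹ *
      ((-1) ^ u * qz N ^ (-((u : ℤ) * ((D : ℤ) - 1))) * (ib N u * ib N ((D : ℤ) - u))) := by
    intro u hu
    have hu' := Finset.mem_range.1 hu
    unfold flz
    rw [if_pos (by omega), show ((D - u : ℕ) : ℤ) = (D : ℤ) - u by omega,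
      ← A_Base_ib_mul N ((s : ℤ) - u) ((t : ℤ) - ((D : ℤ) - u)) (by omega) (by omega) (by omega)]
    have z : qz N ^ (-((u : ℤ) * u) - ((s : ℤ) - u) * u - ((t : ℤ) - ((D : ℤ) - u)) *
        ((t : ℤ) - ((D : ℤ) - u)) - ((D : ℤ) - u) * ((t : ℤ) - ((D : ℤ) - u))) =
        qz N ^ (-((t : ℤ) * (t - D))) * ((-1) ^ u * qz N ^ (-((u : ℤ) * ((D : ℤ) - 1)))) := by
      have hs' : (s : ℤ) = N + D - t := by omega
      have h1 : ((-1 : ℂ)) ^ u = qz N ^ (-((u : ℤ) * ((N : ℤ) + 1))) := by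
        rw [_root_.zpow_neg, A_Base_sign, ← inv_pow]
        norm_num
      rw [h1, ← zpow_add₀ hq, ← zpow_add₀ hq, hs']
      congr 1
      ring
    rw [z]
    ring
  rw [Finset.sum_congr rfl e, ← Finset.mul_sum]
  by_cases hD : D = 0
  · subst hD
    rw [if_pos rfl]
    simp [ib_zero]
  · rw [if_neg hD, A_Base_van N D (by omega) (by omega), mul_zero]

/-- The relation for a minimum in the left gap. -/
theorem A_Base_cup (N y : ℕ) (hy : y ≤ N) (Ts : List ℕ) (hTs : Ts ≠ []) (l : List ℕ) :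
    act (qz N) N (.cup 0) (Tht N y Ts) l =
      kap N * ∑ u ∈ Finset.range (y + 1), Tht N u (N :: (y - u) :: Ts) l := by
  have hT : 1 ≤ Ts.length := List.length_pos_iff.2 hTs
  rcases l with _ | ⟨s, _ | ⟨t, as⟩⟩
  · rw [Finset.sum_eq_zero fun u _ => Tht_len N _ _ _ (by simp)]
    simp [act]
  · rw [Finset.sum_eq_zero fun u _ => Tht_len N _ _ _ (by simp)]
    simp [act]
  · have hact : act (qz N) N (.cup 0) (Tht N y Ts) (s :: t :: as) =
        if s + t = N then cupc (qz N) N s * Tht N y Ts as else 0 := by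
      simp [act]
    rw [hact]
    by_cases hst : s ≤ N ∧ t ≤ N
    swap
    · rw [if_neg (by omega), Finset.sum_eq_zero fun u _ => Tht_big N _ _ _ _ _ _ _ hst, mul_zero]
    obtain ⟨hs, ht⟩ := hst
    have e1 : ∀ u ∈ Finset.range (y + 1), Tht N u (N :: (y - u) :: Ts) (s :: t :: as) =
        if N + u ≤ s + t ∧ s + t ≤ N + y then
          flz N u N ((s + t - N - u : ℕ) : ℤ) s t * Tht N (y - (s + t - N)) Ts as else 0 := by
      intro u hu
      have hu' := Finset.mem_range.1 hu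
      rw [Tht_expand N u N (y - u) le_rfl Ts s t as hs ht]
      split_ifs with h
      · rw [Finset.sum_eq_single (s + t - N - u)]
        · rw [Rt, if_neg hTs, if_pos ⟨by omega, by omega⟩, ib_nat,
            mul_inv_cancel_left₀ (A_Em_brf_ne N (by omega)),
            show y - u - (s + t - N - u) = y - (s + t - N) by omega]
        · intro β _ hβ
          unfold flz
          rw [if_neg (by omega), zero_mul]
        · intro hm
          exact absurd (Finset.mem_range.2 (by omega)) hm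
      · refine Finset.sum_eq_zero fun β hβ => ?_
        by_cases hs' : (s : ℤ) + t = u + N + β
        · rw [Rt, if_neg hTs, if_neg (by omega), mul_zero, mul_zero]
        · unfold flz
          rw [if_neg hs', zero_mul]
    rw [Finset.sum_congr rfl e1]
    by_cases h1 : s + t < N
    · rw [if_neg (by omega), Finset.sum_eq_zero fun u _ => if_neg (by omega), mul_zero]
    by_cases h2 : N + y < s + t
    · rw [if_neg (by omega), Finset.sum_eq_zero fun u _ => if_neg (by omega), mul_zero]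
    obtain ⟨D, hD⟩ : ∃ D, s + t = N + D := ⟨s + t - N, by omega⟩
    have e2 : ∑ u ∈ Finset.range (y + 1), (if N + u ≤ s + t ∧ s + t ≤ N + y then
          flz N u N ((s + t - N - u : ℕ) : ℤ) s t * Tht N (y - (s + t - N)) Ts as else 0) =
        (∑ u ∈ Finset.range (D + 1), flz N u N ((D - u : ℕ) : ℤ) s t) * Tht N (y - D) Ts as := by
      rw [Finset.sum_mul, ← Finset.sum_subset (Finset.range_mono (show D + 1 ≤ y + 1 by omega))]
      · refine Finset.sum_congr rfl fun u hu => ?_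
        have hu' := Finset.mem_range.1 hu
        rw [if_pos (by omega), show s + t - N = D by omega]
      · intro u _ hu
        rw [Finset.mem_range] at hu
        rw [if_neg (by omega)]
    rw [e2, A_Base_cupS N s t D hs ht hD]
    by_cases hD0 : D = 0
    · subst hD0
      rw [if_pos (by omega), if_pos rfl, Nat.sub_zero, A_Base_cupc N s hs, kap]
      have h3 : brf (qz N) N ≠ 0 := A_Em_brf_ne N le_rfl
      have h4 : qz N ^ ((s : ℤ) * (2 * N - s)) = qz N ^ ((N : ℤ) * N) * qz N ^ (-((t : ℤ) * t)) := by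
        rw [← zpow_add₀ (A_Em_qz_ne N), show (t : ℤ) = N - s by omega]
        congr 1
        ring
      rw [h4]
      field_simp
    · rw [if_neg (by omega), if_neg hD0, zero_mul, mul_zero]

theorem A_Base_van' (N D : ℕ) (h1 : 1 ≤ D) (h2 : D ≤ N) :
    ∑ u ∈ Finset.range (D + 1), (-1) ^ u * qz N ^ ((u : ℤ) * ((D : ℤ) - 1)) *
      (ib N u * ib N ((D : ℤ) - u)) = 0 := by
  have hq := A_Em_qz_ne N
  rw [← Finset.sum_range_reflect]
  have e : ∀ u ∈ Finset.range (D + 1), (-1) ^ (D + 1 - 1 - u) *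
      qz N ^ (((D + 1 - 1 - u : ℕ) : ℤ) * ((D : ℤ) - 1)) *
      (ib N ((D + 1 - 1 - u : ℕ) : ℤ) * ib N ((D : ℤ) - ((D + 1 - 1 - u : ℕ) : ℤ))) =
      ((-1) ^ D * qz N ^ ((D : ℤ) * ((D : ℤ) - 1))) *
      ((-1) ^ u * qz N ^ (-((u : ℤ) * ((D : ℤ) - 1))) * (ib N u * ib N ((D : ℤ) - u))) := by
    intro u hu
    have hu' := Finset.mem_range.1 hu
    rw [show D + 1 - 1 - u = D - u by omega, show ((D - u : ℕ) : ℤ) = (D : ℤ) - u by omega,
      show (D : ℤ) - ((D : ℤ) - u) = u by ring]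
    have h1 : ((-1 : ℂ)) ^ D = (-1) ^ (D - u) * (-1) ^ u := by
      rw [← pow_add]; congr 1; omega
    have h2 : ((-1 : ℂ)) ^ u * (-1) ^ u = 1 := by rw [← mul_pow]; norm_num
    have h3 : qz N ^ (((D : ℤ) - u) * ((D : ℤ) - 1)) =
        qz N ^ ((D : ℤ) * ((D : ℤ) - 1)) * qz N ^ (-((u : ℤ) * ((D : ℤ) - 1))) := by
      rw [← zpow_add₀ hq]; congr 1; ring
    rw [h1, h3]
    linear_combination (-((-1) ^ (D - u) * qz N ^ ((D : ℤ) * ((D : ℤ) - 1)) *
      qz N ^ (-((u : ℤ) * ((D : ℤ) - 1))) * (ib N u * ib N ((D : ℤ) - u)))) * h2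
  rw [Finset.sum_congr rfl e, ← Finset.mul_sum, A_Base_van N D h1 h2, mul_zero]

theorem A_Base_capS (N y b β : ℕ) (h : y + b + β = N) :
    ∑ s ∈ Finset.range (N + 1), (cupc (qz N) N (N - s))⁻¹ * flz N y b β s ((N - s : ℕ) : ℤ) =
      if b = 0 then (kap N)⁻¹ else 0 := by
  have hq := A_Em_qz_ne N
  have e1 : ∑ s ∈ Finset.range (N + 1), (cupc (qz N) N (N - s))⁻¹ *
      flz N y b β s ((N - s : ℕ) : ℤ) =
      ∑ x ∈ Finset.range (b + 1), (cupc (qz N) N (N - (y + x)))⁻¹ *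
        flz N y b β ((y + x : ℕ) : ℤ) ((N - (y + x) : ℕ) : ℤ) := by
    have e2 : ∑ x ∈ Finset.range (b + 1), (cupc (qz N) N (N - (y + x)))⁻¹ *
        flz N y b β ((y + x : ℕ) : ℤ) ((N - (y + x) : ℕ) : ℤ) =
        ∑ s ∈ (Finset.range (b + 1)).image (fun x => y + x), (cupc (qz N) N (N - s))⁻¹ *
          flz N y b β s ((N - s : ℕ) : ℤ) := by
      rw [Finset.sum_image]
      intro a _ c _ hac
      simpa using hac
    rw [e2]
    symm
    apply Finset.sum_subset
    · intro s hs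
      simp only [Finset.mem_image, Finset.mem_range] at hs ⊢
      obtain ⟨x, hx, rfl⟩ := hs
      omega
    · intro s hs hs'
      simp only [Finset.mem_image, Finset.mem_range, not_exists, not_and] at hs hs'
      by_cases h3 : y ≤ s
      · have h4 : ¬ (s - y < b + 1) := fun h5 => hs' (s - y) h5 (by omega)
        rw [flz_neg N (Or.inr (Or.inr (Or.inr (by omega)))), mul_zero]
      · rw [flz_neg N (Or.inr (Or.inr (Or.inl (by omega)))), mul_zero]
  rw [e1]
  have e : ∀ x ∈ Finset.range (b + 1), (cupc (qz N) N (N - (y + x)))⁻¹ *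
        flz N y b β ((y + x : ℕ) : ℤ) ((N - (y + x) : ℕ) : ℤ) =
      qz N ^ (-((N : ℤ) * N) - (b : ℤ) * b - β * b) * (ib N y * ib N β) *
      ((-1) ^ x * qz N ^ ((x : ℤ) * ((b : ℤ) - 1)) * (ib N x * ib N ((b : ℤ) - x))) := by
    intro x hx
    have hx' := Finset.mem_range.1 hx
    unfold flz
    rw [if_pos (by omega), A_Base_cupc N _ (by omega),
      show ((N - (y + x) : ℕ) : ℤ) = (N : ℤ) - (y + x) by omega, ← _root_.zpow_neg,
      show ((y + x : ℕ) : ℤ) - y = x by push_cast; ring,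
      show (N : ℤ) - (y + x) - β = (b : ℤ) - x by omega]
    have hN : (N : ℤ) = y + b + β := by omega
    have h1 : ((-1 : ℂ)) ^ x = qz N ^ ((x : ℤ) * ((N : ℤ) + 1)) := (A_Base_sign N x).symm
    have z : qz N ^ (-(((N : ℤ) - (y + x)) * (2 * N - ((N : ℤ) - (y + x))))) *
        qz N ^ (-((y : ℤ) * y) - (x : ℤ) * y - ((b : ℤ) - x) * ((b : ℤ) - x) - β * ((b : ℤ) - x)) =
        qz N ^ (-((N : ℤ) * N) - (b : ℤ) * b - β * b) *
        (qz N ^ ((x : ℤ) * ((N : ℤ) + 1)) * qz N ^ ((x : ℤ) * ((b : ℤ) - 1))) := by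
      rw [← zpow_add₀ hq, ← zpow_add₀ hq, ← zpow_add₀ hq]
      congr 1
      linear_combination (-(x : ℤ)) * hN
    rw [h1]
    linear_combination (ib N y * ib N x * (ib N ((b : ℤ) - x) * ib N β)) * z
  rw [Finset.sum_congr rfl e, ← Finset.mul_sum]
  by_cases hb : b = 0
  · subst hb
    rw [if_pos rfl, A_Base_ib_mul N y β (by omega) (by omega) (by omega), kap, mul_inv,
      ← _root_.zpow_neg]
    simp [ib_zero]
  · rw [if_neg hb, A_Base_van' N b (by omega) (by omega), mul_zero]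

/-- The relation for a maximum. -/
theorem A_Base_cap (N y b c : ℕ) (hy : y ≤ N) (hb : b ≤ N) (hc : c ≤ N) (Ts as : List ℕ) :
    act (qz N) N (.cap 0) (Tht N y (b :: c :: Ts)) as =
      (kap N)⁻¹ * (if b = 0 ∧ N ≤ y + c then
        (if Ts = [] then (if c = N ∧ y = N ∧ as = [] then 1 else 0)
          else Tht N (y + c - N) Ts as) else 0) := by
  have hact : act (qz N) N (.cap 0) (Tht N y (b :: c :: Ts)) as =
      ∑ s ∈ Finset.range (N + 1), (cupc (qz N) N (N - s))⁻¹ *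
        Tht N y (b :: c :: Ts) (s :: (N - s) :: as) := by
    simp [act]
  rw [hact]
  have e1 : ∀ s ∈ Finset.range (N + 1), (cupc (qz N) N (N - s))⁻¹ *
        Tht N y (b :: c :: Ts) (s :: (N - s) :: as) =
      ∑ β ∈ Finset.range (N + 1), (cupc (qz N) N (N - s))⁻¹ *
        flz N y b β s ((N - s : ℕ) : ℤ) * (brf (qz N) β * Rt N c Ts β as) := by
    intro s hs
    have hs' := Finset.mem_range.1 hs
    rw [Tht_expand N y b c hb Ts s (N - s) as (by omega) (by omega), Finset.mul_sum]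
    refine Finset.sum_congr rfl fun β _ => ?_
    ring
  rw [Finset.sum_congr rfl e1, Finset.sum_comm]
  simp only [← Finset.sum_mul]
  by_cases h1 : N < y + b
  · rw [Finset.sum_eq_zero, if_neg (by omega), mul_zero]
    intro β _
    rw [Finset.sum_eq_zero, zero_mul]
    intro s hs
    have hs' := Finset.mem_range.1 hs
    unfold flz
    rw [if_neg (by omega), mul_zero]
  rw [Finset.sum_eq_single (N - (y + b))]
  · rw [A_Base_capS N y b (N - (y + b)) (by omega)]
    by_cases hb0 : b = 0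
    · subst hb0
      rw [if_pos rfl]
      by_cases hTs : Ts = []
      · rw [Rt, if_pos hTs, if_pos hTs]
        by_cases h2 : c = N ∧ N - (y + 0) = 0 ∧ as = []
        · rw [if_pos h2, if_pos (by omega), if_pos ⟨h2.1, by omega, h2.2.2⟩, h2.2.1, brf_zero]
          ring
        · rw [if_neg h2]
          have h3 : ¬ (c = N ∧ y = N ∧ as = []) := fun h4 => h2 ⟨h4.1, by omega, h4.2.2⟩
          rw [if_neg h3]
          simp
      · rw [Rt, if_neg hTs, if_neg hTs]
        by_cases h2 : N ≤ y + c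
        · rw [if_pos (by omega), if_pos (by omega), ib_nat,
            mul_inv_cancel_left₀ (A_Em_brf_ne N (by omega)),
            show c - (N - (y + 0)) = y + c - N by omega]
        · rw [if_neg (by omega), if_neg (by omega)]
          ring
    · rw [if_neg hb0, if_neg (by omega)]
      ring
  · intro β _ hβ
    rw [Finset.sum_eq_zero, zero_mul]
    intro s hs
    have hs' := Finset.mem_range.1 hs
    unfold flz
    rw [if_neg (by omega), mul_zero]
  · intro hm
    exact absurd (Finset.mem_range.2 (by omega)) hm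

end Pool.Agent.H63.CLK
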