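import Pool.Agent.H63.CLK.Tmpl
import Pool.Agent.H63.VC10.CDrel

/-! # The operators `em` at the root of unity -/

namespace Pool.Agent.H63.CLK

open Pool.Agent.H63.VC7 Pool.Agent.H63.VC10 Matrix

/-! ### The root of unity -/

theorem A_Em_qz_ne (N : ℕ) : qz N ≠ 0 := Complex.exp_ne_zero _

theorem A_Em_qz_zpow (N : ℕ) (k : ℤ) :
    qz N ^ k = Complex.exp ((k : ℂ) * (Real.pi * Complex.I / ((N + 1 : ℕ) : ℂ))) := by
  unfold qz
  rw [← Complex.exp_int_mul]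

theorem A_Em_qz_M (N : ℕ) : qz N ^ ((N : ℤ) + 1) = -1 := by
  rw [A_Em_qz_zpow]
  have h : ((N + 1 : ℕ) : ℂ) ≠ 0 := by exact_mod_cast Nat.succ_ne_zero N
  have : (((N : ℤ) + 1 : ℤ) : ℂ) * (Real.pi * Complex.I / ((N + 1 : ℕ) : ℂ)) = Real.pi * Complex.I := by
    push_cast at h ⊢
    field_simp
  rw [this, Complex.exp_pi_mul_I]

/-- `{M - k} = {k}`. -/
theorem A_Em_refl (N : ℕ) (k : ℤ) : br (qz N) ((N : ℤ) + 1 - k) = br (qz N) k := by
  unfold br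
  have hq := A_Em_qz_ne N
  have h1 : qz N ^ ((N : ℤ) + 1 - k) = -qz N ^ (-k) := by
    rw [sub_eq_add_neg, zpow_add₀ hq, A_Em_qz_M]; ring
  have h2 : qz N ^ (-((N : ℤ) + 1 - k)) = -qz N ^ k := by
    rw [show -((N : ℤ) + 1 - k) = k + -((N : ℤ) + 1) by ring, zpow_add₀ hq, _root_.zpow_neg, A_Em_qz_M]
    norm_num
  rw [h1, h2]; ring

theorem A_Em_two_M (N : ℕ) (k : ℤ) : br (qz N) (2 * ((N : ℤ) + 1) - k) = -br (qz N) k := by
  rw [show 2 * ((N : ℤ) + 1) - k = (N : ℤ) + 1 - (k - ((N : ℤ) + 1)) by ring, A_Em_refl,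
    show k - ((N : ℤ) + 1) = -((N : ℤ) + 1 - k) by ring, br_neg, A_Em_refl]

theorem A_Em_br_M (N : ℕ) : br (qz N) ((N : ℤ) + 1) = 0 := by
  have := A_Em_refl N 0
  rwa [sub_zero, br_zero] at this

theorem A_Em_br_eq (N : ℕ) (k : ℤ) :
    br (qz N) k = 2 * Complex.I * Complex.sin ((k : ℂ) * (Real.pi / ((N + 1 : ℕ) : ℂ))) := by
  unfold br
  rw [A_Em_qz_zpow, A_Em_qz_zpow, Complex.sin]
  have h : Complex.I * Complex.I = -1 := Complex.I_mul_I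
  push_cast
  rw [show -((k : ℂ) * (Real.pi / (N + 1))) * Complex.I = -(k : ℂ) * (Real.pi * Complex.I / (N + 1)) by ring,
    show ((k : ℂ) * (Real.pi / (N + 1))) * Complex.I = (k : ℂ) * (Real.pi * Complex.I / (N + 1)) by ring]
  linear_combination (Complex.exp ((k : ℂ) * (Real.pi * Complex.I / (N + 1))) -
    Complex.exp (-(k : ℂ) * (Real.pi * Complex.I / (N + 1)))) * h

theorem A_Em_br_ne (N : ℕ) {k : ℤ} (h1 : 1 ≤ k) (h2 : k ≤ N) : br (qz N) k ≠ 0 := by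
  rw [A_Em_br_eq]
  have h3 : (0 : ℝ) < Real.sin ((k : ℝ) * (Real.pi / ((N + 1 : ℕ) : ℝ))) := by
    have hN : (0 : ℝ) < ((N + 1 : ℕ) : ℝ) := by positivity
    have hk : (1 : ℝ) ≤ (k : ℝ) := by exact_mod_cast h1
    have hk2 : (k : ℝ) < ((N + 1 : ℕ) : ℝ) := by
      have : (k : ℤ) < ((N + 1 : ℕ) : ℤ) := by push_cast; omega
      exact_mod_cast this
    apply Real.sin_pos_of_pos_of_lt_pi
    · positivity
    · rw [mul_div_assoc', div_lt_iff₀ hN, mul_comm]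
      exact mul_lt_mul_of_pos_left hk2 Real.pi_pos
  have h4 : Complex.sin ((k : ℂ) * (Real.pi / ((N + 1 : ℕ) : ℂ))) =
      ((Real.sin ((k : ℝ) * (Real.pi / ((N + 1 : ℕ) : ℝ))) : ℝ) : ℂ) := by
    rw [Complex.ofReal_sin]; push_cast; rfl
  rw [h4]
  refine mul_ne_zero (mul_ne_zero two_ne_zero Complex.I_ne_zero) ?_
  exact_mod_cast h3.ne'

theorem A_Em_brf_ne (N : ℕ) {k : ℕ} (h : k ≤ N) : brf (qz N) k ≠ 0 := by
  unfold brf
  rw [Finset.prod_ne_zero_iff]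
  intro i hi
  have := Finset.mem_range.1 hi
  exact A_Em_br_ne N (by omega) (by omega)

/-- `{a}! {N - a}! = {N}!`. -/
theorem A_Em_brf_mul (N a : ℕ) (h : a ≤ N) :
    brf (qz N) a * brf (qz N) (N - a) = brf (qz N) N := by
  induction a with
  | zero => simp [brf_zero]
  | succ a ih =>
    have ih := ih (by omega)
    rw [← ih, brf_succ]
    obtain ⟨b, rfl⟩ : ∃ b, N = a + 1 + b := ⟨N - (a + 1), by omega⟩
    rw [show a + 1 + b - (a + 1) = b by omega, show a + 1 + b - a = b + 1 by omega, brf_succ,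
      ← A_Em_refl (a + 1 + b) ((b : ℤ) + 1),
      show (((a + 1 + b : ℕ) : ℤ)) + 1 - ((b : ℤ) + 1) = (a : ℤ) + 1 by push_cast; ring]
    ring

/-! ### The recursion for `em` -/

/-- The relation between `CC` and `DD`, without the hypothesis that `q` is generic. -/
theorem A_Em_CD (q : ℂ) (n : ℕ) (hq : q ≠ 0) (h1 : br q ((n : ℤ) + 1) ≠ 0)
    (h2 : br q ((n : ℤ) + 2) ≠ 0) :
    CC q (n + 1) * DD q (n + 1) =
      (br q ((n : ℤ) + 1) ^ 2 / br q ((n : ℤ) + 2) ^ 2) • (DD q n * CC q n) -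
        (br q (2 * (n : ℤ) + 4) * br q 1 / br q ((n : ℤ) + 2) ^ 2) • 1 := by
  ext ⟨⟨a, ha⟩, ⟨b, hb⟩⟩ ⟨⟨c, hc⟩, ⟨d, hd⟩⟩
  simp only [Matrix.sub_apply, Matrix.smul_apply, smul_eq_mul]
  rw [CDrel_CD q hq (n + 1) a b c d ha hb hc hd, CDrel_DC q hq n a b c d ha hb hc hd]
  have e1 : ((n + 1 : ℕ) : ℤ) = (n : ℤ) + 1 := by push_cast; rfl
  rw [e1, show (n : ℤ) + 1 + 1 = (n : ℤ) + 2 by ring, show (a : ℤ) - b + (n + 1) + 1 = (a : ℤ) - b + n + 2 by ring,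
    show (a : ℤ) - b - (n + 1) - 1 = (a : ℤ) - b - n - 2 by ring]
  rw [Matrix.one_apply]
  by_cases h3 : a = c ∧ b = d
  · have h5 : ¬ (a = c + 1 ∧ b + 1 = d) := by omega
    have h6 : ¬ (a + 1 = c ∧ b = d + 1) := by omega
    have h7 : ((⟨a, ha⟩, ⟨b, hb⟩) : I2 (n + 1)) = (⟨c, hc⟩, ⟨d, hd⟩) := by
      obtain ⟨h3, h4⟩ := h3
      subst h3 h4
      rfl
    simp only [if_pos h3, if_neg h5, if_neg h6, if_pos h7]
    have z1 := br_id q hq ((n : ℤ) + 2 - a) ((b : ℤ) + 1)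
    have z2 := br_id q hq ((a : ℤ) + 1) ((n : ℤ) + 2 - b)
    have z3 := CDrel_diag q hq ((a : ℤ) - b) ((n : ℤ) + 2)
    rw [show (n : ℤ) + 2 - a - 1 = (n : ℤ) + 1 - a by ring, show (b : ℤ) + 1 - 1 = (b : ℤ) by ring,
      show (n : ℤ) + 2 - a + (b + 1) - 1 = (n : ℤ) + 2 - (a - b) by ring] at z1
    rw [show (n : ℤ) + 2 - b - 1 = (n : ℤ) + 1 - b by ring, show (a : ℤ) + 1 - 1 = (a : ℤ) by ring,
      show (a : ℤ) + 1 + (n + 2 - b) - 1 = (n : ℤ) + 2 + (a - b) by ring] at z2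
    rw [show (a : ℤ) - b + (n + 2) = (a : ℤ) - b + n + 2 by ring,
      show (a : ℤ) - b - (n + 2) = (a : ℤ) - b - n - 2 by ring,
      show 2 * ((n : ℤ) + 2) = 2 * (n : ℤ) + 4 by ring] at z3
    rw [← z3]
    field_simp
    linear_combination (-q ^ ((a : ℤ) - b + n + 2)) * z1 + (-q ^ ((a : ℤ) - b - n - 2)) * z2
  · have h7 : ¬ ((⟨a, ha⟩, ⟨b, hb⟩) : I2 (n + 1)) = (⟨c, hc⟩, ⟨d, hd⟩) := by
      intro h4
      apply h3
      simp only [Prod.mk.injEq, Fin.mk.injEq] at h4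
      exact h4
    simp only [if_neg h3, if_neg h7]
    field_simp
    ring

/-- `A_Em_Y n` is `{n} ^ 2` times the operator of a turn back. -/
noncomputable def A_Em_Y (q : ℂ) : (n : ℕ) → Matrix (I2 n) (I2 n) ℂ
  | 0 => 0
  | n + 1 => (br q ((n : ℤ) + 1) ^ 2) • (DD q n * CC q n)

theorem A_Em_em_zero (q : ℂ) (n : ℕ) : VC10.em q n 0 = 1 := by
  cases n <;> simp [VC10.em]

theorem A_Em_em_one (q : ℂ) (n : ℕ) : VC10.em q (n + 1) 1 = DD q n * CC q n := by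
  simp [VC10.em, A_Em_em_zero]

theorem A_Em_CDY (q : ℂ) (n : ℕ) (hq : q ≠ 0) (h1 : br q ((n : ℤ) + 1) ≠ 0)
    (h0 : n = 0 ∨ br q (n : ℤ) ≠ 0) :
    (br q ((n : ℤ) + 1) ^ 2) • (CC q n * DD q n) =
      A_Em_Y q n - (br q (2 * (n : ℤ) + 2) * br q 1) • 1 := by
  cases n with
  | zero =>
    ext ⟨⟨a, ha⟩, ⟨b, hb⟩⟩ ⟨⟨c, hc⟩, ⟨d, hd⟩⟩
    simp only [Matrix.smul_apply, Matrix.sub_apply]
    rw [CDrel_CD q hq 0 a b c d ha hb hc hd]
    obtain rfl : a = 0 := by omega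
    obtain rfl : b = 0 := by omega
    obtain rfl : c = 0 := by omega
    obtain rfl : d = 0 := by omega
    have h2 := CDrel_diag q hq 0 1
    rw [if_pos ⟨rfl, rfl⟩, if_neg (by omega), if_neg (by omega)]
    simp only [A_Em_Y, Matrix.one_apply_eq, Matrix.zero_apply, smul_eq_mul]
    norm_num at h1 h2 ⊢
    rw [← h2]
    field_simp
    ring
  | succ n =>
    have h0' : br q ((n : ℤ) + 1) ≠ 0 := by
      rcases h0 with h0 | h0
      · omega
      · push_cast at h0; exact h0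
    have h1' : br q ((n : ℤ) + 2) ≠ 0 := by
      push_cast at h1; rwa [show (n : ℤ) + 1 + 1 = (n : ℤ) + 2 by ring] at h1
    have h := A_Em_CD q n hq h0' h1'
    rw [h, A_Em_Y]
    push_cast
    rw [show (n : ℤ) + 1 + 1 = (n : ℤ) + 2 by ring,
      show 2 * ((n : ℤ) + 1) + 2 = 2 * (n : ℤ) + 4 by ring, smul_sub, smul_smul, smul_smul]
    congr 2
    · field_simp
    · field_simp

/-- The recursion: `{n - j} ^ 2 em n (j + 1) = ({n} ^ 2 em n 1 + {j} {2 n - j + 1}) em n j`. -/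
theorem A_Em_rec (q : ℂ) (n j : ℕ) (hj : j < n) (hq : q ≠ 0)
    (h : ∀ k : ℤ, 1 ≤ k → k ≤ n → br q k ≠ 0) :
    (br q ((n : ℤ) - j) ^ 2) • VC10.em q n (j + 1) =
      A_Em_Y q n * VC10.em q n j +
        (br q (j : ℤ) * br q (2 * (n : ℤ) - j + 1)) • VC10.em q n j := by
  induction j generalizing n with
  | zero =>
    obtain ⟨n, rfl⟩ : ∃ m, n = m + 1 := ⟨n - 1, by omega⟩
    rw [A_Em_em_zero, Matrix.mul_one, A_Em_Y, A_Em_em_one]
    simp [br_zero]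
  | succ j ih =>
    obtain ⟨n, rfl⟩ : ∃ m, n = m + 1 := ⟨n - 1, by omega⟩
    have ih' := ih n (by omega) (fun k h1 h2 => h k h1 (by push_cast; omega))
    have hCD := A_Em_CDY q n hq (h _ (by omega) (by push_cast; omega))
      (Or.inr (h _ (by omega) (by push_cast; omega)))
    have e1 : ∀ m k : ℕ, VC10.em q (m + 1) (k + 1) = DD q m * VC10.em q m k * CC q m := fun m k => rfl
    have e2 : DD q n * A_Em_Y q n = A_Em_Y q (n + 1) * DD q n +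
        (br q (2 * (n : ℤ) + 2) * br q 1) • DD q n := by
      have := congrArg (fun Z => DD q n * Z) hCD
      simp only [Matrix.mul_smul, Matrix.mul_sub, Matrix.mul_one] at this
      rw [A_Em_Y, Matrix.smul_mul, Matrix.mul_assoc, this]
      abel
    have e3 : br q (2 * (n : ℤ) + 2) * br q 1 + br q (j : ℤ) * br q (2 * (n : ℤ) - j + 1) =
        br q ((j : ℤ) + 1) * br q (2 * (n : ℤ) - j + 2) := by
      have := br_id q hq ((j : ℤ) + 1) (2 * (n : ℤ) - j + 2)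
      rw [show (j : ℤ) + 1 - 1 = j by ring, show 2 * (n : ℤ) - j + 2 - 1 = 2 * (n : ℤ) - j + 1 by ring,
        show (j : ℤ) + 1 + (2 * (n : ℤ) - j + 2) - 1 = 2 * (n : ℤ) + 2 by ring] at this
      linear_combination -this
    rw [e1 n (j + 1), e1 n j]
    have e4 : (br q (((n + 1 : ℕ) : ℤ) - ((j + 1 : ℕ) : ℤ)) ^ 2) • (DD q n * VC10.em q n (j + 1) * CC q n) =
        DD q n * ((br q ((n : ℤ) - j) ^ 2) • VC10.em q n (j + 1)) * CC q n := by
      rw [Matrix.mul_smul, Matrix.smul_mul]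
      congr 3
      push_cast
      ring
    rw [e4, ih', Matrix.mul_add, Matrix.add_mul, ← Matrix.mul_assoc (DD q n), e2, Matrix.add_mul,
      Matrix.add_mul, Matrix.smul_mul, Matrix.smul_mul, Matrix.mul_smul, Matrix.smul_mul, add_assoc,
      ← add_smul, e3]
    congr 1
    · simp only [Matrix.mul_assoc]
    · congr 2
      push_cast; ring_nf

/-- The recursion at the root of unity. -/
theorem A_Em_rec_root (N j : ℕ) (hj : j < N) :
    (br (qz N) ((j : ℤ) + 1) ^ 2) • VC10.em (qz N) N (j + 1) =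
      A_Em_Y (qz N) N * VC10.em (qz N) N j -
        (br (qz N) (j : ℤ) * br (qz N) ((j : ℤ) + 1)) • VC10.em (qz N) N j := by
  have h := A_Em_rec (qz N) N j hj (A_Em_qz_ne N) (fun k h1 h2 => A_Em_br_ne N h1 h2)
  rw [show (N : ℤ) - j = (N : ℤ) + 1 - ((j : ℤ) + 1) by ring, A_Em_refl,
    show 2 * (N : ℤ) - j + 1 = 2 * ((N : ℤ) + 1) - ((j : ℤ) + 1) by ring, A_Em_two_M] at h
  rw [h, mul_neg, neg_smul, sub_eq_add_neg]

/-- The entries of `A_Em_Y` at the root of unity. -/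
theorem A_Em_Y_apply (N a b c d : ℕ) (hN : 1 ≤ N) (ha : a < N + 1) (hb : b < N + 1) (hc : c < N + 1)
    (hd : d < N + 1) :
    A_Em_Y (qz N) N (⟨a, ha⟩, ⟨b, hb⟩) (⟨c, hc⟩, ⟨d, hd⟩) =
      (if a = c ∧ b = d then qz N ^ ((a : ℤ) - b) * (br (qz N) ((a : ℤ) + 1) * br (qz N) (b : ℤ) +
          br (qz N) (a : ℤ) * br (qz N) ((b : ℤ) + 1)) else 0) +
        (if a = c + 1 ∧ b + 1 = d then br (qz N) (a : ℤ) * br (qz N) ((b : ℤ) + 1) else 0) +
        (if a + 1 = c ∧ b = d + 1 then qz N ^ (2 * (a : ℤ) - 2 * b + 2) *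
          (br (qz N) ((a : ℤ) + 1) * br (qz N) (b : ℤ)) else 0) := by
  obtain ⟨n, rfl⟩ : ∃ m, N = m + 1 := ⟨N - 1, by omega⟩
  have hq := A_Em_qz_ne (n + 1)
  have hM := A_Em_qz_M (n + 1)
  have hb1 : br (qz (n + 1)) ((n : ℤ) + 1) ≠ 0 := A_Em_br_ne (n + 1) (by omega) (by push_cast; omega)
  rw [A_Em_Y, Matrix.smul_apply, CDrel_DC (qz (n + 1)) hq n a b c d ha hb hc hd, smul_eq_mul,
    mul_div_cancel₀ _ (pow_ne_zero 2 hb1)]
  have r : ∀ k : ℤ, br (qz (n + 1)) ((n : ℤ) + 2 - k) = br (qz (n + 1)) k := by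
    intro k
    have := A_Em_refl (n + 1) k
    push_cast at this
    rwa [show (n : ℤ) + 1 + 1 = (n : ℤ) + 2 by ring] at this
  have hM' : qz (n + 1) ^ ((n : ℤ) + 2) = -1 := by
    push_cast at hM; rwa [show (n : ℤ) + 1 + 1 = (n : ℤ) + 2 by ring] at hM
  have z1 : qz (n + 1) ^ ((a : ℤ) - b + n + 2) = -qz (n + 1) ^ ((a : ℤ) - b) := by
    rw [show (a : ℤ) - b + n + 2 = ((a : ℤ) - b) + (n + 2) by ring, zpow_add₀ hq, hM']; ring
  have z2 : qz (n + 1) ^ ((a : ℤ) - b - n - 2) = -qz (n + 1) ^ ((a : ℤ) - b) := by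
    rw [show (a : ℤ) - b - n - 2 = ((a : ℤ) - b) + -(n + 2) by ring, zpow_add₀ hq, _root_.zpow_neg,
      hM']; ring
  rw [z1, z2, show (n : ℤ) + 1 - a = (n : ℤ) + 2 - (a + 1) by ring, r, r,
    show (n : ℤ) + 1 - b = (n : ℤ) + 2 - (b + 1) by ring, r, r]
  congr 2
  split_ifs
  · ring
  · rfl

end Pool.Agent.H63.CLK
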