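import Pool.Agent.H63.CLK.A_GDef
import Pool.Agent.H63.VC10.Bra

/-! # The expansion of the twist regions in the turn backs -/

namespace Pool.Agent.H63.CLK

open Pool.Agent.H63.VC7 Pool.Agent.H63.VC10

/-! ### Linearity -/

theorem A_Fill_act_sum (q : ℂ) (N : ℕ) (x : Piece) (s : Finset ℕ) (K : ℕ → ℂ)
    (ψ : ℕ → List ℕ → ℂ) (l : List ℕ) :
    act q N x (fun l => ∑ t ∈ s, K t * ψ t l) l = ∑ t ∈ s, K t * act q N x (ψ t) l := by
  cases x with
  | cup i =>
    simp only [act]
    split
    · split_ifs
      · rw [Finset.mul_sum]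
        refine Finset.sum_congr rfl fun t _ => ?_
        ring
      · simp
    · simp
  | cap i =>
    simp only [act, Finset.mul_sum]
    rw [Finset.sum_comm]
    refine Finset.sum_congr rfl fun t _ => Finset.sum_congr rfl fun a _ => ?_
    ring
  | pos i =>
    simp only [act]
    split
    · simp only [Finset.mul_sum]
      symm
      rw [Finset.sum_comm]
      refine Finset.sum_congr rfl fun a _ => ?_
      rw [Finset.sum_comm]
      refine Finset.sum_congr rfl fun b _ => Finset.sum_congr rfl fun t _ => ?_
      ring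
    · simp
  | neg i =>
    simp only [act]
    split
    · simp only [Finset.mul_sum]
      symm
      rw [Finset.sum_comm]
      refine Finset.sum_congr rfl fun a _ => ?_
      rw [Finset.sum_comm]
      refine Finset.sum_congr rfl fun b _ => Finset.sum_congr rfl fun t _ => ?_
      ring
    · simp

theorem A_Fill_eval_sum (q : ℂ) (N : ℕ) (w : List Piece) (s : Finset ℕ) (K : ℕ → ℂ)
    (ψ : ℕ → List ℕ → ℂ) (l : List ℕ) :
    eval q N w (fun l => ∑ t ∈ s, K t * ψ t l) l = ∑ t ∈ s, K t * eval q N w (ψ t) l := by
  induction w generalizing ψ with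
  | nil => rfl
  | cons x w ih =>
    have e : act q N x (fun l => ∑ t ∈ s, K t * ψ t l) =
        fun l => ∑ t ∈ s, K t * act q N x (ψ t) l := by
      funext l
      exact A_Fill_act_sum q N x s K ψ l
    change eval q N w (act q N x (fun l => ∑ t ∈ s, K t * ψ t l)) l = _
    rw [e, ih]
    rfl

/-! ### Supports -/

/-- `ψ` is a vector of the `n`-th tensor power. -/
def A_Fill_Sup (N n : ℕ) (ψ : List ℕ → ℂ) : Prop :=
  ∀ l, ψ l ≠ 0 → l.length = n ∧ ∀ x ∈ l, x ≤ N

theorem A_Fill_cup {q : ℂ} {N n i : ℕ} {ψ : List ℕ → ℂ} (h : A_Fill_Sup N n ψ) :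
    A_Fill_Sup N (n + 2) (act q N (.cup i) ψ) := by
  intro l hl
  simp only [act] at hl
  split at hl
  · rename_i a b r hd
    split_ifs at hl with hab
    · have h1 := h _ (right_ne_zero_of_mul hl)
      have h2 : l = l.take i ++ a :: b :: r := by rw [← hd, List.take_append_drop]
      constructor
      · have h3 := h1.1
        rw [h2]
        simp only [List.length_append, List.length_cons] at h3 ⊢
        omega
      · intro x hx
        rw [h2] at hx
        simp only [List.mem_append, List.mem_cons] at hx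
        rcases hx with hx | hx | hx | hx
        · exact h1.2 x (by simp [hx])
        · omega
        · omega
        · exact h1.2 x (by simp [hx])
    · exact absurd rfl hl
  · exact absurd rfl hl

theorem A_Fill_cap {q : ℂ} {N n i : ℕ} {ψ : List ℕ → ℂ} (h : A_Fill_Sup N n ψ) :
    A_Fill_Sup N (n - 2) (act q N (.cap i) ψ) := by
  intro l hl
  simp only [act] at hl
  obtain ⟨a, _, ha⟩ := Finset.exists_ne_zero_of_sum_ne_zero hl
  have h1 := h _ (right_ne_zero_of_mul ha)
  have h2 : l = l.take i ++ l.drop i := (List.take_append_drop i l).symm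
  have h4 : l.length = (l.take i).length + (l.drop i).length := by
    rw [← List.length_append, List.take_append_drop]
  constructor
  · have h3 := h1.1
    simp only [List.length_append, List.length_cons] at h3
    omega
  · intro x hx
    rw [h2] at hx
    simp only [List.mem_append] at hx
    rcases hx with hx | hx
    · exact h1.2 x (by simp [hx])
    · exact h1.2 x (by simp [hx])

theorem A_Fill_two {N n i : ℕ} {ψ : List ℕ → ℂ} (h : A_Fill_Sup N n ψ) {l r : List ℕ}
    {a b c d : ℕ} (hd : l.drop i = c :: d :: r) (hc : c ≤ N) (hd' : d ≤ N)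
    (h0 : ψ (l.take i ++ a :: b :: r) ≠ 0) : l.length = n ∧ ∀ x ∈ l, x ≤ N := by
  have h1 := h _ h0
  have h2 : l = l.take i ++ c :: d :: r := by rw [← hd, List.take_append_drop]
  constructor
  · have h3 := h1.1
    rw [h2]
    simp only [List.length_append, List.length_cons] at h3 ⊢
    exact h3
  · intro x hx
    rw [h2] at hx
    simp only [List.mem_append, List.mem_cons] at hx
    rcases hx with hx | hx | hx | hx
    · exact h1.2 x (by simp [hx])
    · omega
    · omega
    · exact h1.2 x (by simp [hx])

theorem A_Fill_pos {q : ℂ} {N n i : ℕ} {ψ : List ℕ → ℂ} (h : A_Fill_Sup N n ψ) :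
    A_Fill_Sup N n (act q N (.pos i) ψ) := by
  intro l hl
  simp only [act] at hl
  split at hl
  · rename_i c d r hd
    obtain ⟨a, ha, hl⟩ := Finset.exists_ne_zero_of_sum_ne_zero hl
    obtain ⟨b, hb, hl⟩ := Finset.exists_ne_zero_of_sum_ne_zero hl
    have ha' := Finset.mem_range.1 ha
    have hR := left_ne_zero_of_mul hl
    have hc : a + b = c + d ∧ b ≤ c ∧ c ≤ N := by
      by_contra hc
      exact hR (by rw [Rc, if_neg hc])
    exact A_Fill_two h hd hc.2.2 (by omega) (right_ne_zero_of_mul hl)
  · exact absurd rfl hl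

theorem A_Fill_neg {q : ℂ} {N n i : ℕ} {ψ : List ℕ → ℂ} (h : A_Fill_Sup N n ψ) :
    A_Fill_Sup N n (act q N (.neg i) ψ) := by
  intro l hl
  simp only [act] at hl
  split at hl
  · rename_i c d r hd
    obtain ⟨a, ha, hl⟩ := Finset.exists_ne_zero_of_sum_ne_zero hl
    obtain ⟨b, hb, hl⟩ := Finset.exists_ne_zero_of_sum_ne_zero hl
    have hb' := Finset.mem_range.1 hb
    have hR := left_ne_zero_of_mul hl
    have hc : a + b = c + d ∧ c ≤ b ∧ d ≤ N := by
      by_contra hc
      exact hR (by rw [Ric, if_neg hc])
    exact A_Fill_two h hd (by omega) hc.2.2 (right_ne_zero_of_mul hl)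
  · exact absurd rfl hl

theorem A_Fill_rep {q : ℂ} {N n : ℕ} {P : Piece}
    (hP : ∀ ψ : List ℕ → ℂ, A_Fill_Sup N n ψ → A_Fill_Sup N n (act q N P ψ)) (k : ℕ)
    {ψ : List ℕ → ℂ} (h : A_Fill_Sup N n ψ) : A_Fill_Sup N n (eval q N (List.replicate k P) ψ) := by
  induction k generalizing ψ with
  | zero => exact h
  | succ k ih => exact ih (hP ψ h)

theorem A_Fill_twist {q : ℂ} {N n i : ℕ} (a : ℤ) {ψ : List ℕ → ℂ} (h : A_Fill_Sup N n ψ) :
    A_Fill_Sup N n (eval q N (twist a i) ψ) := by
  unfold twist
  split_ifs
  · exact A_Fill_rep (fun ψ h => A_Fill_pos h) _ h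
  · exact A_Fill_rep (fun ψ h => A_Fill_neg h) _ h

theorem A_Fill_actE {q : ℂ} {N n i t : ℕ} {ψ : List ℕ → ℂ} (h : A_Fill_Sup N n ψ) :
    A_Fill_Sup N n (actE q N t i ψ) := by
  intro l hl
  unfold actE at hl
  split at hl
  · rename_i c d r hd
    obtain ⟨a, ha, hl⟩ := Finset.exists_ne_zero_of_sum_ne_zero hl
    obtain ⟨b, hb, hl⟩ := Finset.exists_ne_zero_of_sum_ne_zero hl
    have hR := left_ne_zero_of_mul hl
    have hc : c < N + 1 ∧ d < N + 1 := by
      by_contra hc
      exact hR (by rw [dif_neg hc])
    exact A_Fill_two h hd (by omega) (by omega) (right_ne_zero_of_mul hl)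
  · exact absurd rfl hl

/-! ### One twist region -/

theorem A_Fill_Acts (q : ℂ) (N i : ℕ) (a : ℤ) :
    Acts q N (twist a i) i (if 0 ≤ a then RM q N ^ a.natAbs else RiM q N ^ a.natAbs) := by
  unfold twist
  by_cases ha : 0 < a
  · rw [if_pos ha, if_pos ha.le]
    exact Bra_replicate (Acts_pos q N i) a.natAbs
  · rw [if_neg ha]
    by_cases h0 : 0 ≤ a
    · have h1 : a = 0 := by omega
      subst h1
      rw [if_pos le_rfl, Int.natAbs_zero, List.replicate_zero, pow_zero]
      exact Acts_nil q N i
    · rw [if_neg h0]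
      exact Bra_replicate (Acts_neg q N i) a.natAbs

theorem A_Fill_one {q : ℂ} {N n i : ℕ} (hi : i + 2 ≤ n) {a : ℤ} {η : ℕ → ℂ}
    (h : (if 0 ≤ a then RM q N ^ a.natAbs else RiM q N ^ a.natAbs) =
      ∑ t ∈ Finset.range (N + 1), η t • em q N t) {ψ : List ℕ → ℂ} (hψ : A_Fill_Sup N n ψ)
    (l : List ℕ) :
    eval q N (twist a i) ψ l = ∑ t ∈ Finset.range (N + 1), η t * actE q N t i ψ l := by
  by_cases hl : l.length = n ∧ ∀ x ∈ l, x ≤ N
  swap
  · have h1 : eval q N (twist a i) ψ l = 0 := by
      by_contra h1
      exact hl (A_Fill_twist a hψ l h1)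
    rw [h1]
    symm
    refine Finset.sum_eq_zero fun t _ => ?_
    have h2 : actE q N t i ψ l = 0 := by
      by_contra h2
      exact hl (A_Fill_actE hψ l h2)
    rw [h2, mul_zero]
  obtain ⟨hl1, hl2⟩ := hl
  -- the two strands
  obtain ⟨c, d, r, hd⟩ : ∃ c d r, l.drop i = c :: d :: r := by
    rcases hd : l.drop i with _ | ⟨c, _ | ⟨d, r⟩⟩
    · have h5 : (l.drop i).length = l.length - i := List.length_drop
      rw [hd] at h5
      simp only [List.length_nil] at h5
      omega
    · have h5 : (l.drop i).length = l.length - i := List.length_drop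
      rw [hd] at h5
      simp only [List.length_cons, List.length_nil] at h5
      omega
    · exact ⟨c, d, r, rfl⟩
  have h2 : l = l.take i ++ c :: d :: r := by rw [← hd, List.take_append_drop]
  have hc : c ≤ N := hl2 c (by rw [h2]; simp)
  have hd' : d ≤ N := hl2 d (by rw [h2]; simp)
  have hp : (l.take i).length = i := by
    rw [List.length_take]
    omega
  have h3 := A_Fill_Acts q N i a ψ (l.take i) r (⟨c, by omega⟩, ⟨d, by omega⟩) hp
  simp only at h3
  rw [← h2, h] at h3
  rw [h3]
  have h4 : ∀ t, actE q N t i ψ l = ∑ y : I2 N, em q N t (⟨c, by omega⟩, ⟨d, by omega⟩) y *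
      ψ (l.take i ++ (y.1 : ℕ) :: (y.2 : ℕ) :: r) := by
    intro t
    unfold actE
    rw [hd]
    simp only
    have h5 : c < N + 1 ∧ d < N + 1 := by omega
    rw [Fintype.sum_prod_type]
    refine Finset.sum_congr rfl fun a _ => Finset.sum_congr rfl fun b _ => ?_
    rw [dif_pos h5]
  simp only [h4, Finset.mul_sum]
  rw [Finset.sum_comm]
  refine Finset.sum_congr rfl fun y _ => ?_
  rw [Matrix.sum_apply, Finset.sum_mul]
  refine Finset.sum_congr rfl fun t _ => ?_
  rw [Matrix.smul_apply, smul_eq_mul, mul_assoc]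

/-! ### Shift of the numbers of the twist regions -/

theorem A_Fill_fill_shift (a : ℕ → ℤ) (v : ℕ) (w : List TPiece) :
    fill a (v + 1) w = fill (fun u => a (u + 1)) v w := by
  induction w generalizing v with
  | nil => rfl
  | cons x w ih =>
    cases x with
    | cup i => simp only [fill, ih]
    | cap i => simp only [fill, ih]
    | tw i => simp only [fill, ih]

theorem A_Fill_evalT_shift (q : ℂ) (N : ℕ) (t : ℕ → ℕ) (v : ℕ) (w : List TPiece)
    (ψ : List ℕ → ℂ) :
    evalT q N t (v + 1) w ψ = evalT q N (fun u => t (u + 1)) v w ψ := by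
  induction w generalizing v ψ with
  | nil => rfl
  | cons x w ih =>
    cases x with
    | cup i => simp only [evalT, ih]
    | cap i => simp only [evalT, ih]
    | tw i => simp only [evalT, ih]

/-- The extension of the numbers of turn backs by `0`. -/
def extT {c : ℕ} (t : Fin c → ℕ) (u : ℕ) : ℕ := if h : u < c then t ⟨u, h⟩ else 0

theorem extT_val {c : ℕ} (t : Fin c → ℕ) (u : Fin c) : extT t u = t u := by
  rw [extT, dif_pos u.2]

theorem extT_cons_zero {c : ℕ} (x : ℕ) (t : Fin c → ℕ) :
    extT (Fin.cons x t : Fin (c + 1) → ℕ) 0 = x := by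
  rw [extT, dif_pos (by omega)]
  rfl

theorem extT_cons_succ {c : ℕ} (x : ℕ) (t : Fin c → ℕ) (u : ℕ) :
    extT (Fin.cons x t : Fin (c + 1) → ℕ) (u + 1) = extT t u := by
  unfold extT
  by_cases h : u < c
  · rw [dif_pos h, dif_pos (by omega)]
    rfl
  · rw [dif_neg h, dif_neg (by omega)]

theorem A_Fill_sum_succ {c : ℕ} (s : Finset ℕ) (F : (Fin (c + 1) → ℕ) → ℂ) :
    ∑ t ∈ Fintype.piFinset (fun _ : Fin (c + 1) => s), F t =
      ∑ x ∈ s, ∑ t ∈ Fintype.piFinset (fun _ : Fin c => s), F (Fin.cons x t) := by
  rw [← Finset.sum_product']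
  refine Finset.sum_nbij' (fun t => (t 0, Fin.tail t))
    (fun p => (Fin.cons p.1 p.2 : Fin (c + 1) → ℕ)) ?_ ?_ ?_ ?_ ?_
  · intro t ht
    rw [Fintype.mem_piFinset] at ht
    simp only [Finset.mem_product, Fintype.mem_piFinset]
    exact ⟨ht 0, fun u => ht u.succ⟩
  · intro p hp
    simp only [Finset.mem_product, Fintype.mem_piFinset] at hp
    rw [Fintype.mem_piFinset]
    intro u
    refine Fin.cases ?_ (fun u => ?_) u
    · simpa using hp.1
    · simpa using hp.2 u
  · intro t _
    exact Fin.cons_self_tail t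
  · intro p _
    simp
  · intro t _
    simp

/-! ### The expansion -/

/-- The places of the twist regions are possible for `n` strands. -/
def A_Fill_WF : ℕ → List TPiece → Prop
  | _, [] => True
  | n, .cup _ :: w => A_Fill_WF (n + 2) w
  | n, .cap _ :: w => A_Fill_WF (n - 2) w
  | n, .tw i :: w => i + 2 ≤ n ∧ A_Fill_WF n w

theorem fill_expand (q : ℂ) (N : ℕ) (eta : ℤ → ℕ → ℂ)
    (heta : ∀ a : ℤ, (if 0 ≤ a then RM q N ^ a.natAbs else RiM q N ^ a.natAbs) =
      ∑ t ∈ Finset.range (N + 1), eta a t • em q N t)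
    (w : List TPiece) (n : ℕ) (hw : A_Fill_WF n w) (a : ℕ → ℤ) (ψ : List ℕ → ℂ)
    (hψ : A_Fill_Sup N n ψ) (l : List ℕ) :
    eval q N (fill a 0 w) ψ l =
      ∑ t ∈ Fintype.piFinset (fun _ : Fin (numTw w) => Finset.range (N + 1)),
        (∏ v : Fin (numTw w), eta (a v) (t v)) * evalT q N (extT t) 0 w ψ l := by
  induction w generalizing n a ψ with
  | nil =>
    simp only [numTw, fill, evalT, eval]
    rw [Fintype.piFinset_of_isEmpty]
    simp
  | cons x w ih =>
    cases x with
    | cup i => exact ih (n + 2) hw a (act q N (.cup i) ψ) (A_Fill_cup hψ)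
    | cap i => exact ih (n - 2) hw a (act q N (.cap i) ψ) (A_Fill_cap hψ)
    | tw i =>
      obtain ⟨hi, hw⟩ := hw
      have e0 : fill a 0 (.tw i :: w) = twist (a 0) i ++ fill a (0 + 1) w := rfl
      rw [e0, eval_append, A_Fill_fill_shift]
      have e1 : eval q N (twist (a 0) i) ψ =
          fun l => ∑ t ∈ Finset.range (N + 1), eta (a 0) t * actE q N t i ψ l := by
        funext l
        exact A_Fill_one hi (heta (a 0)) hψ l
      rw [e1, A_Fill_eval_sum]
      change _ = ∑ t ∈ Fintype.piFinset (fun _ : Fin (numTw w + 1) => Finset.range (N + 1)),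
        (∏ v : Fin (numTw w + 1), eta (a v) (t v)) *
          evalT q N (extT t) (0 + 1) w (actE q N (extT t 0) i ψ) l
      rw [A_Fill_sum_succ]
      refine Finset.sum_congr rfl fun x _ => ?_
      rw [ih n hw (fun u => a (u + 1)) (actE q N x i ψ) (A_Fill_actE hψ), Finset.mul_sum]
      refine Finset.sum_congr rfl fun t _ => ?_
      rw [Fin.prod_univ_succ, A_Fill_evalT_shift, extT_cons_zero]
      simp only [Fin.cons_zero, Fin.cons_succ, Fin.val_zero, Fin.val_succ]
      have e2 : (fun u => extT (Fin.cons x t : Fin (numTw w + 1) → ℕ) (u + 1)) = extT t := by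
        funext u
        exact extT_cons_succ x t u
      rw [e2]
      ring

/-! ### Templates -/

theorem A_Fill_WF_sweep (w : List TPiece) (S S' : Sweep) (h : sweep w S = some S') (n : ℕ)
    (hn : S.gaps.length = n + 1) : A_Fill_WF n w := by
  induction w generalizing S n with
  | nil => trivial
  | cons x w ih =>
    rw [sweep] at h
    obtain ⟨S1, h1, h2⟩ := Option.bind_eq_some_iff.1 h
    cases x with
    | cup i =>
      refine ih S1 h2 (n + 2) ?_
      simp only [Sweep.step] at h1
      split at h1
      · rename_i a r hd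
        have h3 : S.gaps.length = (S.gaps.take i).length + (S.gaps.drop i).length := by
          rw [← List.length_append, List.take_append_drop]
        rw [hd] at h3
        simp only [Option.some.injEq] at h1
        rw [← h1]
        simp only [List.length_append, List.length_cons] at h3 ⊢
        omega
      · exact absurd h1 (by simp)
    | cap i =>
      refine ih S1 h2 (n - 2) ?_
      simp only [Sweep.step] at h1
      split at h1
      · rename_i a m b r hd
        have h3 : S.gaps.length = (S.gaps.take i).length + (S.gaps.drop i).length := by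
          rw [← List.length_append, List.take_append_drop]
        rw [hd] at h3
        split_ifs at h1
        simp only [Option.some.injEq] at h1
        rw [← h1]
        simp only [List.length_append, List.length_cons, List.length_map] at h3 ⊢
        omega
      · exact absurd h1 (by simp)
    | tw i =>
      simp only [Sweep.step] at h1
      split at h1
      · rename_i a b c r hd
        have h3 : S.gaps.length = (S.gaps.take i).length + (S.gaps.drop i).length := by
          rw [← List.length_append, List.take_append_drop]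
        have h4 : (S.gaps.drop i).length = S.gaps.length - i := List.length_drop
        rw [hd] at h3 h4
        simp only [Option.some.injEq] at h1
        refine ⟨?_, ih S1 h2 n ?_⟩
        · simp only [List.length_cons] at h4
          omega
        · rw [← h1]
          simp only [List.length_append, List.length_cons] at h3 ⊢
          omega
      · exact absurd h1 (by simp)

end Pool.Agent.H63.CLK
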