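import Pool.Agent.H63.CLK.A_GDef

/-!
# CLK part A, global theorem: the invariant of the sweep, number of faces (A2)

`Inv_step`: case distinction on the piece. `cup i`, `tw i`: the new label `S.nxt` is larger than all the others; the first and the last gap do
not change (for `cup 0` the first gap is `a :: nxt :: a ..`, for a cup in the last gap the last one is again `a`). `cap i`: `a ≠ b`, both in `faces`,
`max a b > 1`, `ident a b` maps the elements of `faces` into `faces.erase (max a b)` and fixes `0` and `1`; the first gap of `take i ++ a :: r` is the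
first gap of `S.gaps`; the last one: if `r = []` it is `a`, and `S.gaps` ends with `b = 1`; then `ident a b a = min a b`, and `a ≠ 0`: `a = 0` is
excluded by `max a b > 1`, so `min a 1 = 1`. (In the case `i = 0`: `a = 0`, so `b > 1`.)
`cap_ne`: if `take i` and `r` were both empty then `a = 0`, `b = 1`, excluded.
`card_step`: `faces.length = 2 + #cups + #tw - #caps`, `gaps.length = 2 + 2 #cups - 2 #caps`: in the form
`2 * faces.length = gaps.length + 2 + 2 * cor.length` (invariant of the sweep).
`template_card` (A2): for `gaps = [0,1]`: `faces.length = cor.length + 2`, and `F.card = faces.length - 2`.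
-/

namespace Pool.Agent.H63.CLK

open Pool.Agent.H63.VC7 Pool.Agent.H63.VC10

private theorem A_GInv_gaps {l r : List ℕ} {i : ℕ} (h : l.drop i = r) : l = l.take i ++ r := by
  rw [← h, List.take_append_drop]

theorem Inv_init : InvA Sweep.init where
  gaps := fun _ hx => hx
  cor := fun x hx => absurd hx (List.not_mem_nil)
  nodup := by simp [Sweep.init]
  zero := by simp [Sweep.init]
  one := by simp [Sweep.init]
  lt := by
    intro x hx
    simp only [Sweep.init, List.mem_cons, List.not_mem_nil, or_false] at hx ⊢
    omega
  hd := rfl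
  lst := rfl

/-- the three cases of a step -/
private theorem A_GInv_cup (S S' : Sweep) (i : ℕ) (hx : S.step (.cup i) = some S') :
    ∃ a r, S.gaps.drop i = a :: r ∧
      S' = ⟨S.gaps.take i ++ a :: S.nxt :: a :: r, S.nxt :: S.faces, S.nxt + 1, S.cor⟩ := by
  rcases h : S.gaps.drop i with _ | ⟨a, r⟩
  · simp [Sweep.step, h] at hx
  · simp only [Sweep.step, h, Option.some.injEq] at hx
    exact ⟨a, r, rfl, hx.symm⟩

private theorem A_GInv_tw (S S' : Sweep) (i : ℕ) (hx : S.step (.tw i) = some S') :
    ∃ a b c r, S.gaps.drop i = a :: b :: c :: r ∧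
      S' = ⟨S.gaps.take i ++ a :: S.nxt :: c :: r, S.nxt :: S.faces, S.nxt + 1,
        S.cor ++ [![S.nxt, c, b, a]]⟩ := by
  rcases h : S.gaps.drop i with _ | ⟨a, _ | ⟨b, _ | ⟨c, r⟩⟩⟩
  · simp [Sweep.step, h] at hx
  · simp [Sweep.step, h] at hx
  · simp [Sweep.step, h] at hx
  · simp only [Sweep.step, h, Option.some.injEq] at hx
    exact ⟨a, b, c, r, rfl, hx.symm⟩

private theorem A_GInv_cap (S S' : Sweep) (i : ℕ) (hx : S.step (.cap i) = some S') :
    ∃ a m b r, S.gaps.drop i = a :: m :: b :: r ∧ a ≠ b ∧ 1 < max a b ∧
      S' = ⟨(S.gaps.take i ++ a :: r).map (ident a b), S.faces.erase (max a b), S.nxt,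
          S.cor.map (fun x k => ident a b (x k))⟩ := by
  rcases h : S.gaps.drop i with _ | ⟨a, _ | ⟨b, _ | ⟨c, r⟩⟩⟩
  · simp [Sweep.step, h] at hx
  · simp [Sweep.step, h] at hx
  · simp [Sweep.step, h] at hx
  · simp only [Sweep.step, h] at hx
    by_cases hc : a = c ∨ max a c ≤ 1
    · rw [if_pos hc] at hx
      exact absurd hx (by simp)
    · rw [if_neg hc, Option.some.injEq] at hx
      rw [not_or, not_le] at hc
      exact ⟨a, b, c, r, rfl, hc.1, hc.2, hx.symm⟩

theorem Inv_step (S S' : Sweep) (x : TPiece) (h : InvA S) (hx : S.step x = some S') : InvA S' := by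
  rcases x with i | i | i
  · obtain ⟨a, r, hd, rfl⟩ := A_GInv_cup S S' i hx
    have hg := A_GInv_gaps hd
    have hsub : ∀ y ∈ S.gaps.take i ++ a :: r, y ∈ S.faces := by
      rw [← hg]
      exact h.gaps
    have hhd := h.hd
    have hlst := h.lst
    rw [hg] at hhd hlst
    refine ⟨?_, ?_, ?_, ?_, ?_, ?_, ?_, ?_⟩
    · intro y hy
      simp only [List.mem_append, List.mem_cons] at hy
      rcases hy with hy | hy | hy | hy | hy
      · exact List.mem_cons_of_mem _ (hsub y (by simp [hy]))
      · exact List.mem_cons_of_mem _ (hsub y (by simp [hy]))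
      · rw [hy]
        exact List.mem_cons_self
      · exact List.mem_cons_of_mem _ (hsub y (by simp [hy]))
      · exact List.mem_cons_of_mem _ (hsub y (by simp [hy]))
    · intro y hy j
      exact List.mem_cons_of_mem _ (h.cor y hy j)
    · exact List.nodup_cons.2 ⟨fun hm => lt_irrefl _ (h.lt _ hm), h.nodup⟩
    · exact List.mem_cons_of_mem _ h.zero
    · exact List.mem_cons_of_mem _ h.one
    · intro y hy
      show y < S.nxt + 1
      rcases List.mem_cons.1 hy with hy | hy
      · omega
      · have := h.lt y hy
        omega
    · show (S.gaps.take i ++ a :: S.nxt :: a :: r).head? = some 0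
      rw [List.head?_append] at hhd ⊢
      exact hhd
    · show (S.gaps.take i ++ a :: S.nxt :: a :: r).getLast? = some 1
      rw [List.getLast?_append] at hlst ⊢
      rw [List.getLast?_cons_cons, List.getLast?_cons_cons]
      exact hlst
  · obtain ⟨a, m, b, r, hd, hab, hm, rfl⟩ := A_GInv_cap S S' i hx
    have hg := A_GInv_gaps hd
    have hsub : ∀ y ∈ S.gaps.take i ++ a :: m :: b :: r, y ∈ S.faces := by
      rw [← hg]
      exact h.gaps
    have ha : a ∈ S.faces := hsub a (by simp)
    have hb : b ∈ S.faces := hsub b (by simp)
    have hhd := h.hd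
    have hlst := h.lst
    rw [hg] at hhd hlst
    have hid : ∀ y ∈ S.faces, ident a b y ∈ S.faces.erase (max a b) := by
      intro y hy
      unfold ident
      split_ifs with h1
      · have hmn : min a b ≠ max a b := by
          intro h2
          apply hab
          have h3 := min_le_left a b
          have h4 := min_le_right a b
          have h5 := le_max_left a b
          have h6 := le_max_right a b
          omega
        refine (List.mem_erase_of_ne hmn).2 ?_
        rcases le_total a b with h2 | h2
        · rw [min_eq_left h2]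
          exact ha
        · rw [min_eq_right h2]
          exact hb
      · exact (List.mem_erase_of_ne h1).2 hy
    refine ⟨?_, ?_, ?_, ?_, ?_, ?_, ?_, ?_⟩
    · intro y hy
      obtain ⟨z, hz, rfl⟩ := List.mem_map.1 hy
      apply hid
      apply hsub
      simp only [List.mem_append, List.mem_cons] at hz ⊢
      tauto
    · intro y hy j
      obtain ⟨z, hz, rfl⟩ := List.mem_map.1 hy
      exact hid _ (h.cor z hz j)
    · exact h.nodup.erase _
    · exact (List.mem_erase_of_ne (by omega)).2 h.zero
    · exact (List.mem_erase_of_ne (by omega)).2 h.one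
    · intro y hy
      exact h.lt y (List.mem_of_mem_erase hy)
    · show ((S.gaps.take i ++ a :: r).map (ident a b)).head? = some 0
      rw [List.head?_map]
      have h1 : (S.gaps.take i ++ a :: r).head? = some 0 := by
        rw [List.head?_append] at hhd ⊢
        exact hhd
      rw [h1, Option.map_some]
      unfold ident
      rw [if_neg (by omega)]
    · show ((S.gaps.take i ++ a :: r).map (ident a b)).getLast? = some 1
      rw [List.getLast?_map]
      rcases r with _ | ⟨e, r⟩
      · have h1 : (S.gaps.take i ++ [a]).getLast? = some a := by simp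
        have h2 : b = 1 := by
          simpa using hlst
        rw [h1, Option.map_some]
        unfold ident
        congr 1
        subst h2
        rcases le_total a 1 with h3 | h3
        · rw [max_eq_right h3] at hm
          omega
        · rw [max_eq_left h3, if_pos rfl, min_eq_right h3]
      · have h1 : (S.gaps.take i ++ a :: e :: r).getLast? = some 1 := by
          rw [List.getLast?_append] at hlst ⊢
          rw [List.getLast?_cons_cons, List.getLast?_cons_cons, List.getLast?_cons_cons] at hlst
          rw [List.getLast?_cons_cons]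
          exact hlst
        rw [h1, Option.map_some]
        unfold ident
        rw [if_neg (by omega)]
  · obtain ⟨a, b, c, r, hd, rfl⟩ := A_GInv_tw S S' i hx
    have hg := A_GInv_gaps hd
    have hsub : ∀ y ∈ S.gaps.take i ++ a :: b :: c :: r, y ∈ S.faces := by
      rw [← hg]
      exact h.gaps
    have ha : a ∈ S.faces := hsub a (by simp)
    have hb : b ∈ S.faces := hsub b (by simp)
    have hc : c ∈ S.faces := hsub c (by simp)
    have hhd := h.hd
    have hlst := h.lst
    rw [hg] at hhd hlst
    refine ⟨?_, ?_, ?_, ?_, ?_, ?_, ?_, ?_⟩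
    · intro y hy
      simp only [List.mem_append, List.mem_cons] at hy
      rcases hy with hy | hy | hy | hy | hy
      · exact List.mem_cons_of_mem _ (hsub y (by simp [hy]))
      · exact List.mem_cons_of_mem _ (hsub y (by simp [hy]))
      · rw [hy]
        exact List.mem_cons_self
      · exact List.mem_cons_of_mem _ (hsub y (by simp [hy]))
      · exact List.mem_cons_of_mem _ (hsub y (by simp [hy]))
    · intro y hy j
      rcases List.mem_append.1 hy with hy | hy
      · exact List.mem_cons_of_mem _ (h.cor y hy j)
      · rw [List.mem_singleton] at hy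
        subst hy
        fin_cases j
        · exact List.mem_cons_self
        · exact List.mem_cons_of_mem _ hc
        · exact List.mem_cons_of_mem _ hb
        · exact List.mem_cons_of_mem _ ha
    · exact List.nodup_cons.2 ⟨fun hm => lt_irrefl _ (h.lt _ hm), h.nodup⟩
    · exact List.mem_cons_of_mem _ h.zero
    · exact List.mem_cons_of_mem _ h.one
    · intro y hy
      show y < S.nxt + 1
      rcases List.mem_cons.1 hy with hy | hy
      · omega
      · have := h.lt y hy
        omega
    · show (S.gaps.take i ++ a :: S.nxt :: c :: r).head? = some 0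
      rw [List.head?_append] at hhd ⊢
      exact hhd
    · show (S.gaps.take i ++ a :: S.nxt :: c :: r).getLast? = some 1
      rw [List.getLast?_append] at hlst ⊢
      rw [List.getLast?_cons_cons, List.getLast?_cons_cons] at hlst ⊢
      exact hlst

theorem cor_length_step (S S' : Sweep) (x : TPiece) (hx : S.step x = some S') :
    S'.cor.length = S.cor.length + numTw [x] := by
  rcases x with i | i | i
  · obtain ⟨a, r, hd, rfl⟩ := A_GInv_cup S S' i hx
    simp [numTw]
  · obtain ⟨a, m, b, r, hd, hab, hm, rfl⟩ := A_GInv_cap S S' i hx
    simp [numTw]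
  · obtain ⟨a, b, c, r, hd, rfl⟩ := A_GInv_tw S S' i hx
    simp [numTw]

private theorem A_GInv_sweep (S S' : Sweep) (x : TPiece) (w : List TPiece)
    (hx : sweep (x :: w) S = some S') : ∃ S1, S.step x = some S1 ∧ sweep w S1 = some S' := by
  have h1 : (S.step x).bind (sweep w) = some S' := hx
  rcases h : S.step x with _ | S1
  · rw [h] at h1
    exact absurd h1 (by simp)
  · rw [h] at h1
    exact ⟨S1, rfl, h1⟩

theorem cor_length_sweep (S S' : Sweep) (w : List TPiece) (hx : sweep w S = some S') :
    S'.cor.length = S.cor.length + numTw w := by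
  induction w generalizing S with
  | nil =>
    have h1 : some S = some S' := hx
    rw [Option.some.injEq] at h1
    rw [h1]
    rfl
  | cons x w ih =>
    obtain ⟨S1, h1, h2⟩ := A_GInv_sweep S S' x w hx
    have h3 := cor_length_step S S1 x h1
    have h4 := ih S1 h2
    have h5 : numTw (x :: w) = numTw [x] + numTw w := by
      rcases x with i | i | i <;> simp [numTw]
      omega
    omega

theorem cap_ne (S S' : Sweep) (i : ℕ) (h : InvA S) (hx : S.step (.cap i) = some S') (a m b : ℕ)
    (r : List ℕ) (hd : S.gaps.drop i = a :: m :: b :: r) : S.gaps.take i ++ r ≠ [] := by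
  intro he
  obtain ⟨a', m', b', r', hd', hab, hm, -⟩ := A_GInv_cap S S' i hx
  rw [hd] at hd'
  simp only [List.cons.injEq] at hd'
  obtain ⟨rfl, rfl, rfl, rfl⟩ := hd'
  obtain ⟨h1, h2⟩ := List.append_eq_nil_iff.1 he
  have hg := A_GInv_gaps hd
  rw [h1, h2, List.nil_append] at hg
  have h3 := h.hd
  have h4 := h.lst
  rw [hg] at h3 h4
  simp at h3 h4
  omega

theorem card_step (S S' : Sweep) (x : TPiece) (h : InvA S) (hx : S.step x = some S')
    (hc : 2 * S.faces.length = S.gaps.length + 2 + 2 * S.cor.length) :
    2 * S'.faces.length = S'.gaps.length + 2 + 2 * S'.cor.length := by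
  rcases x with i | i | i
  · obtain ⟨a, r, hd, rfl⟩ := A_GInv_cup S S' i hx
    have hg := congrArg List.length (A_GInv_gaps hd)
    simp only [List.length_append, List.length_cons] at hg ⊢
    omega
  · obtain ⟨a, m, b, r, hd, hab, hm, rfl⟩ := A_GInv_cap S S' i hx
    have hg' := A_GInv_gaps hd
    have hg := congrArg List.length hg'
    have hmax : max a b ∈ S.faces := by
      have ha : a ∈ S.faces := h.gaps a (by rw [hg']; simp)
      have hb : b ∈ S.faces := h.gaps b (by rw [hg']; simp)
      rcases le_total a b with h2 | h2
      · rw [max_eq_right h2]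
        exact hb
      · rw [max_eq_left h2]
        exact ha
    have hl := List.length_erase_of_mem hmax
    have hp : 0 < S.faces.length := List.length_pos_of_mem hmax
    simp only [List.length_append, List.length_cons, List.length_map] at hg ⊢
    omega
  · obtain ⟨a, b, c, r, hd, rfl⟩ := A_GInv_tw S S' i hx
    have hg := congrArg List.length (A_GInv_gaps hd)
    simp only [List.length_append, List.length_cons, List.length_nil] at hg ⊢
    omega

theorem Inv_sweep (S S' : Sweep) (w : List TPiece) (h : InvA S) (hx : sweep w S = some S') :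
    InvA S' := by
  induction w generalizing S with
  | nil =>
    have h1 : some S = some S' := hx
    rw [Option.some.injEq] at h1
    rw [← h1]
    exact h
  | cons x w ih =>
    obtain ⟨S1, h1, h2⟩ := A_GInv_sweep S S' x w hx
    exact ih S1 (Inv_step S S1 x h h1) h2

private theorem A_GInv_card_sweep (S S' : Sweep) (w : List TPiece) (h : InvA S)
    (hx : sweep w S = some S')
    (hc : 2 * S.faces.length = S.gaps.length + 2 + 2 * S.cor.length) :
    2 * S'.faces.length = S'.gaps.length + 2 + 2 * S'.cor.length := by
  induction w generalizing S with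
  | nil =>
    have h1 : some S = some S' := hx
    rw [Option.some.injEq] at h1
    rw [← h1]
    exact hc
  | cons x w ih =>
    obtain ⟨S1, h1, h2⟩ := A_GInv_sweep S S' x w hx
    exact ih S1 (Inv_step S S1 x h h1) h2 (card_step S S1 x h h1 hc)

theorem template_card {w : List TPiece} {c : ℕ} {F : Finset ℕ} {cor : Fin c → Fin 4 → ℕ}
    (h : IsTemplate w c F cor) : F.card = c := by
  obtain ⟨S, hS, hg, hcor, hF⟩ := h
  have hI := Inv_sweep _ S w Inv_init hS
  have h1 := A_GInv_card_sweep _ S w Inv_init hS (by simp [Sweep.init])
  rw [hg, hcor, List.length_ofFn] at h1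
  have h2 : S.faces.toFinset.card = S.faces.length := List.toFinset_card_of_nodup hI.nodup
  have h0 : 0 ∈ S.faces.toFinset := List.mem_toFinset.2 hI.zero
  have h10 : 1 ∈ S.faces.toFinset.erase 0 :=
    Finset.mem_erase.2 ⟨one_ne_zero, List.mem_toFinset.2 hI.one⟩
  rw [hF, Finset.card_erase_of_mem h10, Finset.card_erase_of_mem h0, h2]
  simp only [List.length_cons, List.length_nil] at h1
  omega

end Pool.Agent.H63.CLK
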