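import Pool.Agent.H63.CLK.A_GSum
import Pool.Agent.H63.CLK.A_GInv

/-!
# CLK part A, global theorem: maxima

`S.gaps = p ++ a :: m :: b :: r`, `a ≠ b`, `S'.gaps = (p ++ a :: r).map (ident a b)`, `S'.faces = S.faces.erase (max a b)`. `T = P ++ A :: B :: C :: R`,
`T' = P ++ D :: R`. By `Psi_cap` (with `cap_ne`), `GV v (cap i :: w) T = if B = 0 ∧ N ≤ A + C then GV v w (P ++ (A + C - N) :: R) else 0`.
For fixed `P, D, R` the claim is `∑_{A, B, C ≤ N} [AdmG N S s T] [B = 0] [A + C = D + N] = [AdmG N S' s T']` (`1` or `0`).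
Let `α` = (sum of the entries of `P, R` at label `a`) + (corner sum at `a`), `β` the same for `b`. With `B = 0` (so the label `m` does not matter) the condition
of `AdmG` at `a` is `A + α = N`, at `b` it is `C + β = N` (`a ≠ b`), and the conditions at the other faces do not involve `A, C`. `AdmG N S' s T'` at the
face `min a b`: `D + α + β = N` (`gsum_ident`, `csumF_ident`, `ident a b a = min a b`), at the others the same as before. If both sides are possible then
`A = N - α`, `C = N - β`, `D = N - α - β` are in bijection; `D + α + β = N` gives `α, β ≤ N`; conversely `A + C = D + N` gives `D + α + β = N`. The bounds `≤ N` are clear.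
`f ∈ S.faces.erase (max a b)` iff `f ∈ S.faces` and `f ≠ max a b` (`Nodup`).
-/

namespace Pool.Agent.H63.CLK

open Pool.Agent.H63.VC7 Pool.Agent.H63.VC10

private theorem A_GCap_sumL3 (N m n : ℕ) (F : List ℕ → ℂ) :
    sumL N (m + (n + 3)) F = sumL N m (fun P => sumL N n (fun R =>
      ∑ A ∈ Finset.range (N + 1), ∑ B ∈ Finset.range (N + 1), ∑ C ∈ Finset.range (N + 1),
        F (P ++ A :: B :: C :: R))) := by
  rw [sumL_append]
  refine sumL_congr N m _ _ fun P _ _ => ?_
  rw [sumL_sum]
  change (∑ A ∈ Finset.range (N + 1), ∑ B ∈ Finset.range (N + 1), ∑ C ∈ Finset.range (N + 1),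
    sumL N n (fun R => F (P ++ A :: B :: C :: R))) = _
  refine Finset.sum_congr rfl fun A _ => ?_
  rw [sumL_sum]
  refine Finset.sum_congr rfl fun B _ => ?_
  rw [sumL_sum]

private theorem A_GCap_sumL1 (N m n : ℕ) (F : List ℕ → ℂ) :
    sumL N (m + (n + 1)) F = sumL N m (fun P => sumL N n (fun R =>
      ∑ D ∈ Finset.range (N + 1), F (P ++ D :: R))) := by
  rw [sumL_append]
  refine sumL_congr N m _ _ fun P _ _ => ?_
  rw [sumL_sum]
  rfl

private theorem A_GCap_step (S S' : Sweep) (i : ℕ) (hx : S.step (.cap i) = some S') :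
    ∃ (p : List ℕ) (a m b : ℕ) (r : List ℕ), S.gaps = p ++ a :: m :: b :: r ∧ p.length = i ∧
      p = S.gaps.take i ∧ S.gaps.drop i = a :: m :: b :: r ∧ a ≠ b ∧
      S' = ⟨(p ++ a :: r).map (ident a b), S.faces.erase (max a b), S.nxt,
          S.cor.map (fun x k => ident a b (x k))⟩ := by
  simp only [Sweep.step] at hx
  split at hx
  · rename_i a m b r hd
    split at hx
    · cases hx
    · rename_i hab
      refine ⟨S.gaps.take i, a, m, b, r, ?_, ?_, rfl, hd, fun e => hab (Or.inl e), ?_⟩
      · rw [← hd, List.take_append_drop]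
      · have h1 := congrArg List.length hd
        rw [List.length_drop] at h1
        simp only [List.length_cons] at h1
        rw [List.length_take]
        omega
      · exact (Option.some.inj hx).symm
  · cases hx

private theorem A_GCap_evalT_zero (q : ℂ) (N : ℕ) (t : ℕ → ℕ) (v : ℕ) (w : List TPiece)
    (l : List ℕ) : evalT q N t v w (fun _ => 0) l = 0 := by
  have h := evalT_sum q N t v w (∅ : Finset ℕ) (fun _ _ => 0) l
  simpa using h

private theorem A_GCap_GV (N : ℕ) (t : ℕ → ℕ) (v : ℕ) (w : List TPiece)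
    (P R : List ℕ) (A B C : ℕ) (hA : A ≤ N) (hB : B ≤ N) (hC : C ≤ N) (h : P ++ R ≠ []) :
    GV N t v (.cap P.length :: w) (P ++ A :: B :: C :: R) =
      if B = 0 ∧ N ≤ A + C then GV N t v w (P ++ (A + C - N) :: R) else 0 := by
  unfold GV
  simp only [evalT]
  rw [Psi_cap N P R A B C hA hB hC h]
  split_ifs with h
  · rfl
  · rw [A_GCap_evalT_zero]

private theorem A_GCap_comb (N α β : ℕ) (Q : Prop) (g : ℕ → ℂ) (L : ℕ → ℕ → ℕ → Prop)
    (M : ℕ → Prop) [∀ A B C, Decidable (L A B C)] [∀ D, Decidable (M D)]
    (hL : ∀ A C, A ≤ N → C ≤ N → (L A 0 C ↔ Q ∧ A + α = N ∧ C + β = N))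
    (hM : ∀ D, D ≤ N → (M D ↔ Q ∧ D + α + β = N)) :
    (∑ A ∈ Finset.range (N + 1), ∑ B ∈ Finset.range (N + 1), ∑ C ∈ Finset.range (N + 1),
      if L A B C then (if B = 0 ∧ N ≤ A + C then g (A + C - N) else 0) else 0) =
      ∑ D ∈ Finset.range (N + 1), if M D then g D else 0 := by
  have hm : ∀ x, x ∈ Finset.range (N + 1) ↔ x ≤ N := fun x => by
    rw [Finset.mem_range]
    omega
  by_cases h : Q ∧ α + β ≤ N
  · obtain ⟨hQ, hab⟩ := h
    rw [Finset.sum_eq_single (N - α), Finset.sum_eq_single 0, Finset.sum_eq_single (N - β),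
      Finset.sum_eq_single (N - α - β)]
    · have h1 : L (N - α) 0 (N - β) :=
        (hL _ _ (by omega) (by omega)).2 ⟨hQ, by omega, by omega⟩
      have h2 : M (N - α - β) := (hM _ (by omega)).2 ⟨hQ, by omega⟩
      rw [if_pos h1, if_pos h2, if_pos ⟨rfl, by omega⟩]
      congr 1
      omega
    · intro D hD hne
      rw [if_neg]
      intro h2
      have := ((hM D ((hm D).1 hD)).1 h2).2
      omega
    · intro hn
      exact absurd ((hm _).2 (by omega)) hn
    · intro C hC hne
      rw [if_neg]
      intro h2
      have := ((hL _ C (by omega) ((hm C).1 hC)).1 h2).2.2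
      omega
    · intro hn
      exact absurd ((hm _).2 (by omega)) hn
    · intro B hB hne
      refine Finset.sum_eq_zero fun C hC => ?_
      rw [if_neg (fun h2 : B = 0 ∧ _ => hne h2.1), ite_self]
    · intro hn
      exact absurd ((hm _).2 (by omega)) hn
    · intro A hA hne
      refine Finset.sum_eq_zero fun B hB => Finset.sum_eq_zero fun C hC => ?_
      by_cases hB0 : B = 0
      · subst hB0
        rw [if_neg]
        intro h2
        have := ((hL A C ((hm A).1 hA) ((hm C).1 hC)).1 h2).2.1
        omega
      · rw [if_neg (fun h2 : B = 0 ∧ _ => hB0 h2.1), ite_self]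
    · intro hn
      exact absurd ((hm _).2 (by omega)) hn
  · rw [Finset.sum_eq_zero, Finset.sum_eq_zero]
    · intro D hD
      rw [if_neg]
      intro h2
      have := (hM D ((hm D).1 hD)).1 h2
      exact h ⟨this.1, by omega⟩
    · intro A hA
      refine Finset.sum_eq_zero fun B hB => Finset.sum_eq_zero fun C hC => ?_
      by_cases hL' : L A B C
      · rw [if_pos hL', if_neg]
        rintro ⟨rfl, h3⟩
        have := (hL A C ((hm A).1 hA) ((hm C).1 hC)).1 hL'
        exact h ⟨this.1, by omega⟩
      · rw [if_neg hL']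

private theorem A_GCap_gsum3 (p P : List ℕ) (hp : p.length = P.length) (a b c A B C : ℕ)
    (r R : List ℕ) (f : ℕ) :
    gsum (p ++ a :: b :: c :: r) (P ++ A :: B :: C :: R) f =
      gsum p P f + ((if a = f then A else 0) + ((if b = f then B else 0) +
        ((if c = f then C else 0) + gsum r R f))) := by
  rw [gsum_append _ _ _ _ _ hp]
  rfl

private theorem A_GCap_gsum1 (p P : List ℕ) (hp : p.length = P.length) (a A : ℕ)
    (r R : List ℕ) (f : ℕ) :
    gsum (p ++ a :: r) (P ++ A :: R) f =
      gsum p P f + ((if a = f then A else 0) + gsum r R f) := by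
  rw [gsum_append _ _ _ _ _ hp]
  rfl

theorem step_cap (N : ℕ) (t : ℕ → ℕ) (w : List TPiece) (S S' : Sweep) (s : List (Fin 4 → ℕ)) (i : ℕ)
    (h : InvA S) (hs : s.length = S.cor.length) (hx : S.step (.cap i) = some S') :
    GLs N t (.cap i :: w) S s = GLs N t w S' s := by
  classical
  obtain ⟨p, a, m, b, r, hg, hpi, hp, hd, hab, hS'⟩ := A_GCap_step S S' i hx
  have hne := cap_ne S S' i h hx a m b r hd
  rw [← hp] at hne
  subst hS'
  have ha : a ∈ S.faces := h.gaps a (by rw [hg]; simp)
  have hb : b ∈ S.faces := h.gaps b (by rw [hg]; simp)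
  unfold GLs
  simp only
  have hl1 : S.gaps.length = p.length + (r.length + 3) := by
    rw [hg]
    simp only [List.length_append, List.length_cons]
  have hl2 : ((p ++ a :: r).map (ident a b)).length = p.length + (r.length + 1) := by
    simp only [List.length_map, List.length_append, List.length_cons]
  have hl3 : (S.cor.map (fun x k => ident a b (x k))).length = S.cor.length := by
    simp
  rw [hl1, hl2, hl3, A_GCap_sumL3, A_GCap_sumL1]
  refine sumL_congr N _ _ _ fun P hP hP' => ?_
  refine sumL_congr N _ _ _ fun R hR hR' => ?_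
  have hPR : P ++ R ≠ [] := by
    intro he
    apply hne
    rw [← List.length_eq_zero_iff, List.length_append] at he ⊢
    omega
  have hpP : p.length = P.length := hP.symm
  have e1 : (∑ A ∈ Finset.range (N + 1), ∑ B ∈ Finset.range (N + 1), ∑ C ∈ Finset.range (N + 1),
      if AdmG N S s (P ++ A :: B :: C :: R) then
        GV N t S.cor.length (.cap i :: w) (P ++ A :: B :: C :: R) else 0) =
      ∑ A ∈ Finset.range (N + 1), ∑ B ∈ Finset.range (N + 1), ∑ C ∈ Finset.range (N + 1),
      if AdmG N S s (P ++ A :: B :: C :: R) then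
        (if B = 0 ∧ N ≤ A + C then GV N t S.cor.length w (P ++ (A + C - N) :: R) else 0)
        else 0 := by
    refine Finset.sum_congr rfl fun A hA => Finset.sum_congr rfl fun B hB =>
      Finset.sum_congr rfl fun C hC => ?_
    rw [Finset.mem_range] at hA hB hC
    rw [← hpi, hpP, A_GCap_GV N t _ w P R A B C (by omega) (by omega) (by omega) hPR]
  rw [e1]
  set α : ℕ := gsum p P a + gsum r R a + csumF S.cor s a with hα
  set β : ℕ := gsum p P b + gsum r R b + csumF S.cor s b with hβ
  refine A_GCap_comb N α β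
    ((∀ x ∈ s, ∑ j, x j = N) ∧ ∀ f ∈ S.faces, f ≠ a → f ≠ b →
      gsum p P f + gsum r R f + csumF S.cor s f = N)
    (fun D => GV N t S.cor.length w (P ++ D :: R)) _ _ ?_ ?_
  · intro A C hA hC
    unfold AdmG
    simp only [hg, A_GCap_gsum3 p P hpP]
    constructor
    · rintro ⟨h1, h2, h3⟩
      refine ⟨⟨h2, fun f hf hfa hfb => ?_⟩, ?_, ?_⟩
      · have h4 := h3 f hf
        rw [if_neg (Ne.symm hfa), if_neg (Ne.symm hfb)] at h4
        split_ifs at h4 <;> omega
      · have h4 := h3 a ha
        rw [if_pos rfl, if_neg (Ne.symm hab)] at h4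
        split_ifs at h4 <;> omega
      · have h4 := h3 b hb
        rw [if_neg hab, if_pos (rfl : b = b)] at h4
        split_ifs at h4 <;> omega
    · rintro ⟨⟨h2, h3⟩, h4, h5⟩
      refine ⟨?_, h2, ?_⟩
      · intro y hy
        simp only [List.mem_append, List.mem_cons] at hy
        rcases hy with hy | hy | hy | hy | hy
        · exact hP' y hy
        · omega
        · omega
        · omega
        · exact hR' y hy
      · intro f hf
        by_cases hfa : f = a
        · subst hfa
          rw [if_pos rfl, if_neg (Ne.symm hab)]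
          split_ifs <;> omega
        · by_cases hfb : f = b
          · subst hfb
            rw [if_neg hab, if_pos (rfl : f = f)]
            split_ifs <;> omega
          · have h6 := h3 f hf hfa hfb
            rw [if_neg (Ne.symm hfa), if_neg (Ne.symm hfb)]
            split_ifs <;> omega
  · intro D hD
    have hmx : max a b ∈ S.faces := by
      rcases max_choice a b with e | e <;> rw [e] <;> assumption
    have hmn : min a b ∈ S.faces := by
      rcases min_choice a b with e | e <;> rw [e] <;> assumption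
    unfold AdmG
    simp only [h.nodup.mem_erase_iff]
    constructor
    · rintro ⟨h1, h2, h3⟩
      refine ⟨⟨h2, fun f hf hfa hfb => ?_⟩, ?_⟩
      · have hf1 : f ≠ max a b := by rcases max_choice a b with e | e <;> rw [e] <;> assumption
        have hf2 : f ≠ min a b := by rcases min_choice a b with e | e <;> rw [e] <;> assumption
        have h4 := h3 f ⟨hf1, hf⟩
        rw [gsum_ident _ _ _ _ _ hab hf1, csumF_ident _ _ _ _ _ hab hf1, if_neg hf2, if_neg hf2,
          A_GCap_gsum1 p P hpP, if_neg (Ne.symm hfa)] at h4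
        omega
      · have hf1 : min a b ≠ max a b := by omega
        have h4 := h3 (min a b) ⟨hf1, hmn⟩
        rw [gsum_ident _ _ _ _ _ hab hf1, csumF_ident _ _ _ _ _ hab hf1, if_pos rfl, if_pos rfl,
          A_GCap_gsum1 p P hpP, A_GCap_gsum1 p P hpP, if_pos rfl, if_neg hab] at h4
        omega
    · rintro ⟨⟨h2, h3⟩, h4⟩
      refine ⟨?_, h2, ?_⟩
      · intro y hy
        simp only [List.mem_append, List.mem_cons] at hy
        rcases hy with hy | hy | hy
        · exact hP' y hy
        · omega
        · exact hR' y hy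
      · rintro f ⟨hf1, hf⟩
        rw [gsum_ident _ _ _ _ _ hab hf1, csumF_ident _ _ _ _ _ hab hf1]
        by_cases hf2 : f = min a b
        · rw [if_pos hf2, if_pos hf2, A_GCap_gsum1 p P hpP, A_GCap_gsum1 p P hpP, if_pos rfl,
            if_neg hab]
          omega
        · have hfa : f ≠ a := by omega
          have hfb : f ≠ b := by omega
          have h6 := h3 f hf hfa hfb
          rw [if_neg hf2, if_neg hf2, A_GCap_gsum1 p P hpP, if_neg (Ne.symm hfa)]
          omega

end Pool.Agent.H63.CLK
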