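import Pool.Agent.H63.CLK.A_GSum
import Pool.Agent.H63.CLK.A_GInv

/-!
# CLK part A, global theorem: minima

`S.gaps = p ++ a :: r`, `p = take i`, `S'.gaps = p ++ a :: nxt :: a :: r`. Write `T = P ++ y :: R` with `|P| = |p|`, `|R| = |r|` (`sumL_append`; `sumL` of
length `1` by definition). By `Psi_cup` and `evalT_sum`, `GV v (cup i :: w) (P ++ y :: R) = ∑ u ≤ y, GV v w (P ++ u :: N :: (y - u) :: R)`. On the other side
`T' = P ++ u :: z :: u' :: R`, and `AdmG N S' s T'` iff `z = N` and `u + u' ≤ N` and `AdmG N S s (P ++ (u + u') :: R)`: for the face `nxt` (not a label of `S.gaps`,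
not a label of a corner: `InvA`) the condition is `z = N`; for the other faces `gsum` has `u + u'` at the label `a`; `u + u' ≤ N` follows from the
condition for the face `a` (`a ∈ S.faces`). So the right side is `∑_P ∑_R ∑_{u, u' ≤ N, u + u' ≤ N} [AdmG (u+u')] GV w (P ++ u :: N :: u' :: R)`, re-indexed by
`y = u + u'` (`Finset.sum_sigma'`/`Finset.sum_nbij'`).
-/

namespace Pool.Agent.H63.CLK

open Pool.Agent.H63.VC7 Pool.Agent.H63.VC10

open Classical in
private theorem A_GCup_reindex (N : ℕ) (A : ℕ → Prop) (g : ℕ → ℕ → ℂ) :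
    (∑ y ∈ Finset.range (N + 1), if A y then ∑ u ∈ Finset.range (y + 1), g u (y - u) else 0) =
      ∑ u ∈ Finset.range (N + 1), ∑ u' ∈ Finset.range (N + 1),
        if u + u' ≤ N ∧ A (u + u') then g u u' else 0 := by
  have h1 : (∑ y ∈ Finset.range (N + 1),
      if A y then ∑ u ∈ Finset.range (y + 1), g u (y - u) else 0) =
      ∑ y ∈ Finset.range (N + 1), ∑ u ∈ Finset.range (N + 1),
        if A y ∧ u ≤ y then g u (y - u) else 0 := by
    refine Finset.sum_congr rfl fun y hy => ?_
    rw [Finset.mem_range] at hy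
    by_cases hA : A y
    · rw [if_pos hA]
      have h2 : Finset.range (y + 1) = (Finset.range (N + 1)).filter (fun u => u ≤ y) := by
        ext u
        simp only [Finset.mem_range, Finset.mem_filter]
        omega
      rw [h2, Finset.sum_filter]
      refine Finset.sum_congr rfl fun u _ => ?_
      by_cases hu : u ≤ y
      · rw [if_pos hu, if_pos ⟨hA, hu⟩]
      · rw [if_neg hu, if_neg (fun h => hu h.2)]
    · rw [if_neg hA]
      symm
      refine Finset.sum_eq_zero fun u _ => ?_
      rw [if_neg (fun h => hA h.1)]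
  rw [h1, Finset.sum_comm]
  refine Finset.sum_congr rfl fun u _ => ?_
  rw [← Finset.sum_filter, ← Finset.sum_filter]
  refine Finset.sum_nbij' (fun y => y - u) (fun u' => u + u') ?_ ?_ ?_ ?_ ?_
  · intro y hy
    simp only [Finset.mem_filter, Finset.mem_range] at hy ⊢
    have h3 : u + (y - u) = y := by omega
    rw [h3]
    exact ⟨by omega, by omega, hy.2.1⟩
  · intro u' hu'
    simp only [Finset.mem_filter, Finset.mem_range] at hu' ⊢
    exact ⟨by omega, hu'.2.2, by omega⟩
  · intro y hy
    simp only [Finset.mem_filter, Finset.mem_range] at hy ⊢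
    omega
  · intro u' hu'
    simp only [Finset.mem_filter, Finset.mem_range] at hu' ⊢
    omega
  · intro y hy
    rfl

private theorem A_GCup_adm (N : ℕ) (S S' : Sweep) (s : List (Fin 4 → ℕ)) (p r : List ℕ) (a : ℕ)
    (h : InvA S) (hg : S.gaps = p ++ a :: r)
    (hS' : S' = ⟨p ++ a :: S.nxt :: a :: r, S.nxt :: S.faces, S.nxt + 1, S.cor⟩)
    (P R : List ℕ) (hP : p.length = P.length) (hPN : ∀ x ∈ P, x ≤ N) (hRN : ∀ x ∈ R, x ≤ N)
    (u z u' : ℕ) (hu : u ≤ N) (hz : z ≤ N) (hu' : u' ≤ N) :
    AdmG N S' s (P ++ u :: z :: u' :: R) ↔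
      z = N ∧ (u + u' ≤ N ∧ AdmG N S s (P ++ (u + u') :: R)) := by
  have hap : ∀ x ∈ p, x ∈ S.faces := fun x hx => h.gaps x (by rw [hg]; simp [hx])
  have har : ∀ x ∈ r, x ∈ S.faces := fun x hx => h.gaps x (by rw [hg]; simp [hx])
  have haa : a ∈ S.faces := h.gaps a (by rw [hg]; simp)
  have hnf : S.nxt ∉ S.faces := fun hm => absurd (h.lt _ hm) (lt_irrefl _)
  have hnp : gsum p P S.nxt = 0 := gsum_not_mem _ _ _ (fun hm => hnf (hap _ hm))
  have hnr : gsum r R S.nxt = 0 := gsum_not_mem _ _ _ (fun hm => hnf (har _ hm))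
  have hnc : csumF S.cor s S.nxt = 0 :=
    csumF_not_mem _ _ _ (fun x hx j he => hnf (he ▸ h.cor x hx j))
  have hna : a ≠ S.nxt := fun he => hnf (he ▸ haa)
  have e1 : ∀ f, gsum (p ++ a :: S.nxt :: a :: r) (P ++ u :: z :: u' :: R) f =
      gsum p P f + ((if a = f then u else 0) + ((if S.nxt = f then z else 0) +
        ((if a = f then u' else 0) + gsum r R f))) := by
    intro f
    rw [gsum_append _ _ _ _ _ hP]
    rfl
  have e2 : ∀ f, gsum (p ++ a :: r) (P ++ (u + u') :: R) f =
      gsum p P f + ((if a = f then u + u' else 0) + gsum r R f) := by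
    intro f
    rw [gsum_append _ _ _ _ _ hP]
    rfl
  have key : ∀ f ∈ S.faces, gsum (p ++ a :: S.nxt :: a :: r) (P ++ u :: z :: u' :: R) f =
      gsum (p ++ a :: r) (P ++ (u + u') :: R) f := by
    intro f hf
    have hfn : S.nxt ≠ f := fun he => hnf (he ▸ hf)
    rw [e1, e2, if_neg hfn]
    by_cases haf : a = f
    · simp only [if_pos haf]
      omega
    · simp only [if_neg haf]
      omega
  have hnx : gsum (p ++ a :: S.nxt :: a :: r) (P ++ u :: z :: u' :: R) S.nxt = z := by
    rw [e1, hnp, hnr, if_neg hna, if_neg hna, if_pos rfl]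
    omega
  rw [hS']
  unfold AdmG
  rw [hg]
  constructor
  · rintro ⟨_, h2, h3⟩
    have hz' : z = N := by
      have := h3 S.nxt (by simp)
      simp only [hnx, hnc] at this
      omega
    have h3' : ∀ f ∈ S.faces, gsum (p ++ a :: r) (P ++ (u + u') :: R) f + csumF S.cor s f = N := by
      intro f hf
      rw [← key f hf]
      exact h3 f (List.mem_cons_of_mem _ hf)
    have hle : u + u' ≤ N := by
      have := h3' a haa
      rw [e2, if_pos rfl] at this
      omega
    refine ⟨hz', hle, ?_, h2, h3'⟩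
    intro x hx
    rw [List.mem_append, List.mem_cons] at hx
    rcases hx with hx | rfl | hx
    · exact hPN x hx
    · exact hle
    · exact hRN x hx
  · rintro ⟨hz', hle, _, h2, h3⟩
    refine ⟨?_, h2, ?_⟩
    · intro x hx
      rw [List.mem_append, List.mem_cons, List.mem_cons, List.mem_cons] at hx
      rcases hx with hx | rfl | rfl | rfl | hx
      · exact hPN x hx
      · exact hu
      · exact hz
      · exact hu'
      · exact hRN x hx
    · intro f hf
      simp only [List.mem_cons] at hf
      rcases hf with rfl | hf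
      · simp only [hnx, hnc]
        omega
      · simp only [key f hf]
        exact h3 f hf

theorem step_cup (N : ℕ) (t : ℕ → ℕ) (w : List TPiece) (S S' : Sweep) (s : List (Fin 4 → ℕ)) (i : ℕ)
    (h : InvA S) (hs : s.length = S.cor.length) (hx : S.step (.cup i) = some S') :
    GLs N t (.cup i :: w) S s = GLs N t w S' s := by
  classical
  obtain ⟨a, r, hd, hS'⟩ : ∃ a r, S.gaps.drop i = a :: r ∧
      S' = ⟨S.gaps.take i ++ a :: S.nxt :: a :: r, S.nxt :: S.faces, S.nxt + 1, S.cor⟩ := by
    rcases hd : S.gaps.drop i with _ | ⟨a, r⟩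
    · simp only [Sweep.step, hd] at hx
      simp at hx
    · simp only [Sweep.step, hd, Option.some.injEq] at hx
      exact ⟨a, r, rfl, hx.symm⟩
  have hg : S.gaps = S.gaps.take i ++ a :: r := by
    rw [← hd, List.take_append_drop]
  have hil : i < S.gaps.length := by
    by_contra hc
    push Not at hc
    rw [List.drop_eq_nil_of_le hc] at hd
    simp at hd
  have hpl : (S.gaps.take i).length = i := by
    rw [List.length_take]
    omega
  generalize hp : S.gaps.take i = p at *
  have hcor : S'.cor = S.cor := by rw [hS']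
  have hgl : S.gaps.length = p.length + (r.length + 1) := by
    rw [hg]; simp
  have hgl' : S'.gaps.length = p.length + (r.length + 1 + 1 + 1) := by
    rw [hS']; simp
  have h2 : 2 ≤ S.gaps.length := by
    have h0 := h.hd
    have h1 := h.lst
    rcases hG : S.gaps with _ | ⟨x, _ | ⟨y, l⟩⟩
    · rw [hG] at h0; simp at h0
    · rw [hG] at h0 h1
      simp at h0 h1
      omega
    · simp
  unfold GLs
  rw [hgl, hgl', hcor, sumL_append, sumL_append]
  refine sumL_congr _ _ _ _ fun P hP hPN => ?_
  show (∑ y ∈ Finset.range (N + 1), sumL N r.length (fun R =>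
      if AdmG N S s (P ++ y :: R) then GV N t S.cor.length (.cup i :: w) (P ++ y :: R) else 0)) =
    ∑ u ∈ Finset.range (N + 1), ∑ z ∈ Finset.range (N + 1), ∑ u' ∈ Finset.range (N + 1),
      sumL N r.length (fun R => if AdmG N S' s (P ++ u :: z :: u' :: R) then
        GV N t S.cor.length w (P ++ u :: z :: u' :: R) else 0)
  rw [← sumL_sum]
  simp only [← sumL_sum]
  refine sumL_congr _ _ _ _ fun R hR hRN => ?_
  have hne : P ++ R ≠ [] := by
    intro he
    have := congrArg List.length he
    simp at this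
    rw [this.1] at hP
    rw [this.2] at hR
    simp at hP hR
    omega
  have hGV : ∀ y ∈ Finset.range (N + 1), GV N t S.cor.length (.cup i :: w) (P ++ y :: R) =
      ∑ u ∈ Finset.range (y + 1), GV N t S.cor.length w (P ++ u :: N :: (y - u) :: R) := by
    intro y hy
    rw [Finset.mem_range] at hy
    unfold GV
    show evalT (qz N) N t S.cor.length w (act (qz N) N (.cup i) (PsiA N (P ++ y :: R))) [0] = _
    have hi : i = P.length := by rw [hP, hpl]
    rw [hi, Psi_cup N P R y (by omega) hne, evalT_sum]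
  have hL : (∑ y ∈ Finset.range (N + 1), if AdmG N S s (P ++ y :: R) then
      GV N t S.cor.length (.cup i :: w) (P ++ y :: R) else 0) =
      ∑ y ∈ Finset.range (N + 1), if AdmG N S s (P ++ y :: R) then
        ∑ u ∈ Finset.range (y + 1), GV N t S.cor.length w (P ++ u :: N :: (y - u) :: R) else 0 :=
    Finset.sum_congr rfl fun y hy => by rw [hGV y hy]
  rw [hL, A_GCup_reindex N (fun y => AdmG N S s (P ++ y :: R))
    (fun u u' => GV N t S.cor.length w (P ++ u :: N :: u' :: R))]
  refine Finset.sum_congr rfl fun u hu => ?_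
  rw [Finset.mem_range] at hu
  rw [Finset.sum_comm]
  refine Finset.sum_congr rfl fun u' hu' => ?_
  rw [Finset.mem_range] at hu'
  have hadm : ∀ z ∈ Finset.range (N + 1), (AdmG N S' s (P ++ u :: z :: u' :: R) ↔
      z = N ∧ (u + u' ≤ N ∧ AdmG N S s (P ++ (u + u') :: R))) := by
    intro z hz
    rw [Finset.mem_range] at hz
    exact A_GCup_adm N S S' s p r a h hg hS' P R hP.symm hPN hRN u z u' (by omega) (by omega)
      (by omega)
  rw [Finset.sum_eq_single N]
  · have hN := hadm N (by simp)
    by_cases hc : u + u' ≤ N ∧ AdmG N S s (P ++ (u + u') :: R)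
    · rw [if_pos hc, if_pos (hN.mpr ⟨rfl, hc⟩)]
    · rw [if_neg hc, if_neg (fun h => hc (hN.mp h).2)]
  · intro z hz hzN
    rw [if_neg]
    intro hA
    exact hzN ((hadm z hz).mp hA).1
  · intro hN
    exact absurd (by simp) hN

end Pool.Agent.H63.CLK
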