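import Pool.Agent.H63.CLK.A_Psi

/-!
# CLK part A, global theorem: definitions

* `sumL N n F` = sum of `F T` over the lists `T` of length `n` with entries `≤ N`.
* `sumS N t v k F` = sum over the lists of `k` corner states (for the vertices `v, v+1, ..`) with vertex sums `N`, weighted by the
  product of the `q`-binomials.
* `gsum g T f`: sum of the entries of `T` at the gaps with label `f`; `csumF cor s f`: sum of the corner values at the face `f`.
* `AdmG N S s T`: admissible states of the sweep.
* `InvA S`: the labels of the gaps and of the corners are in `S.faces`, which has no repetitions, contains `0` and `1`, and whose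
  elements are `< S.nxt`; the first gap is `0`, the last one is `1`.
-/

namespace Pool.Agent.H63.CLK

open Pool.Agent.H63.VC7 Pool.Agent.H63.VC10

/-- sum over the lists of length `n` with entries at most `N` -/
noncomputable def sumL (N : ℕ) : ℕ → (List ℕ → ℂ) → ℂ
  | 0, F => F []
  | n + 1, F => ∑ a ∈ Finset.range (N + 1), sumL N n (fun T => F (a :: T))

/-- weighted sum over the lists of `k` corner states -/
noncomputable def sumS (N : ℕ) (t : ℕ → ℕ) : ℕ → ℕ → (List (Fin 4 → ℕ) → ℂ) → ℂ
  | _, 0, F => F []
  | v, k + 1, F => ∑ x ∈ Fintype.piFinset (fun j : Fin 4 => Finset.range (csz N (t v) j + 1)),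
      if ∑ j, x j = N then (∏ j, qbin (qz N) (csz N (t v) j) (x j)) *
        sumS N t (v + 1) k (fun l => F (x :: l)) else 0

/-- number of twist regions -/
def numTw : List TPiece → ℕ
  | [] => 0
  | .tw _ :: w => numTw w + 1
  | .cup _ :: w => numTw w
  | .cap _ :: w => numTw w

/-- sum of the entries of `T` at the gaps with the label `f` -/
def gsum : List ℕ → List ℕ → ℕ → ℕ
  | g :: gs, T :: Ts, f => (if g = f then T else 0) + gsum gs Ts f
  | _, _, _ => 0

/-- sum of the corner values at the face `f` -/
def csumF : List (Fin 4 → ℕ) → List (Fin 4 → ℕ) → ℕ → ℕ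
  | c :: cs, x :: xs, f => (∑ j, if c j = f then x j else 0) + csumF cs xs f
  | _, _, _ => 0

/-- admissible states of a sweep -/
def AdmG (N : ℕ) (S : Sweep) (s : List (Fin 4 → ℕ)) (T : List ℕ) : Prop :=
  (∀ x ∈ T, x ≤ N) ∧ (∀ x ∈ s, ∑ j, x j = N) ∧
    ∀ f ∈ S.faces, gsum S.gaps T f + csumF S.cor s f = N

/-- invariant of the sweep -/
structure InvA (S : Sweep) : Prop where
  gaps : ∀ x ∈ S.gaps, x ∈ S.faces
  cor : ∀ x ∈ S.cor, ∀ j, x j ∈ S.faces
  nodup : S.faces.Nodup
  zero : 0 ∈ S.faces
  one : 1 ∈ S.faces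
  lt : ∀ x ∈ S.faces, x < S.nxt
  hd : S.gaps.head? = some 0
  lst : S.gaps.getLast? = some 1

/-- the value of the rest of the word on `PsiA N T` -/
noncomputable def GV (N : ℕ) (t : ℕ → ℕ) (v : ℕ) (w : List TPiece) (T : List ℕ) : ℂ :=
  evalT (qz N) N t v w (PsiA N T) [0]

open Classical in
/-- the left side of the global identity -/
noncomputable def GLs (N : ℕ) (t : ℕ → ℕ) (w : List TPiece) (S : Sweep)
    (s : List (Fin 4 → ℕ)) : ℂ :=
  sumL N S.gaps.length (fun T => if AdmG N S s T then GV N t S.cor.length w T else 0)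

end Pool.Agent.H63.CLK
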