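import Pool.Agent.H63.CLK.A_GDef

/-!
# CLK part A, global theorem: sums over lists

All by induction on the length (`n`, `k`) from the recursive definitions; `gsum_append`, `csumF_append`, `gsum_not_mem`, `csumF_not_mem`
by induction on the first list. `gsum_ident`: induction on `g`: for each label `x` of the list: `ident a b x = f` iff
(`f = min a b` and (`x = a` or `x = b`)) or (`f ≠ min a b`, `x = f`), for `f ≠ max a b`, `a ≠ b`; `csumF_ident` the same with a sum over `Fin 4`
(`Finset.sum_add_distrib`).
`evalT_sum`: `evalT` is linear: the value on a finite sum of vectors is the sum of the values (induction on the word; `act` and `actE` are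
linear in `ψ`).
`evalT_zero`: value `0` on the zero vector.
-/

namespace Pool.Agent.H63.CLK

open Pool.Agent.H63.VC7 Pool.Agent.H63.VC10

theorem sumL_append (N m n : ℕ) (F : List ℕ → ℂ) :
    sumL N (m + n) F = sumL N m (fun p => sumL N n (fun r => F (p ++ r))) := by
  induction m generalizing F with
  | zero => simp [sumL]
  | succ m ih =>
    have h : m + 1 + n = (m + n) + 1 := by omega
    rw [h]
    simp only [sumL]
    refine Finset.sum_congr rfl fun a _ => ?_
    rw [ih]
    simp

theorem sumL_congr (N n : ℕ) (F G : List ℕ → ℂ)
    (h : ∀ T : List ℕ, T.length = n → (∀ x ∈ T, x ≤ N) → F T = G T) :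
    sumL N n F = sumL N n G := by
  induction n generalizing F G with
  | zero => exact h [] rfl (by simp)
  | succ n ih =>
    simp only [sumL]
    refine Finset.sum_congr rfl fun a ha => ?_
    have ha' : a ≤ N := by
      rw [Finset.mem_range] at ha
      omega
    refine ih _ _ fun T hT hT' => h (a :: T) (by simp [hT]) ?_
    intro x hx
    rcases List.mem_cons.1 hx with rfl | hx
    · exact ha'
    · exact hT' x hx

theorem sumL_sum {α : Type*} (N n : ℕ) (A : Finset α) (F : α → List ℕ → ℂ) :
    sumL N n (fun T => ∑ a ∈ A, F a T) = ∑ a ∈ A, sumL N n (F a) := by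
  induction n generalizing F with
  | zero => simp only [sumL]
  | succ n ih =>
    simp only [sumL]
    rw [Finset.sum_comm]
    refine Finset.sum_congr rfl fun a _ => ?_
    exact ih (fun b T => F b (a :: T))

theorem sumL_mul (N n : ℕ) (c : ℂ) (F : List ℕ → ℂ) :
    sumL N n (fun T => c * F T) = c * sumL N n F := by
  induction n generalizing F with
  | zero => simp only [sumL]
  | succ n ih =>
    simp only [sumL]
    rw [Finset.mul_sum]
    refine Finset.sum_congr rfl fun a _ => ?_
    exact ih (fun T => F (a :: T))

theorem sumL_zero (N n : ℕ) : sumL N n (fun _ => 0) = 0 := by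
  induction n with
  | zero => simp only [sumL]
  | succ n ih =>
    simp only [sumL]
    rw [ih]
    simp

theorem sumS_congr (N : ℕ) (t : ℕ → ℕ) (v k : ℕ) (F G : List (Fin 4 → ℕ) → ℂ)
    (h : ∀ s : List (Fin 4 → ℕ), s.length = k → (∀ x ∈ s, ∑ j, x j = N) → F s = G s) :
    sumS N t v k F = sumS N t v k G := by
  induction k generalizing v F G with
  | zero =>
    simp only [sumS]
    exact h [] rfl (by simp)
  | succ k ih =>
    simp only [sumS]
    refine Finset.sum_congr rfl fun x _ => ?_
    by_cases hx : ∑ j, x j = N
    · rw [if_pos hx, if_pos hx]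
      congr 1
      refine ih _ _ _ fun s hs hs' => h (x :: s) (by simp [hs]) ?_
      intro y hy
      rcases List.mem_cons.1 hy with rfl | hy
      · exact hx
      · exact hs' y hy
    · rw [if_neg hx, if_neg hx]

theorem gsum_append (g g' T T' : List ℕ) (f : ℕ) (h : g.length = T.length) :
    gsum (g ++ g') (T ++ T') f = gsum g T f + gsum g' T' f := by
  induction g generalizing T with
  | nil =>
    cases T with
    | nil => simp [gsum]
    | cons t T => simp at h
  | cons x g ih =>
    cases T with
    | nil => simp at h
    | cons t T =>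
      have h' : g.length = T.length := by simpa using h
      simp only [List.cons_append, gsum]
      rw [ih T h']
      omega

theorem csumF_append (c c' s s' : List (Fin 4 → ℕ)) (f : ℕ) (h : c.length = s.length) :
    csumF (c ++ c') (s ++ s') f = csumF c s f + csumF c' s' f := by
  induction c generalizing s with
  | nil =>
    cases s with
    | nil => simp [csumF]
    | cons t s => simp at h
  | cons x c ih =>
    cases s with
    | nil => simp at h
    | cons t s =>
      have h' : c.length = s.length := by simpa using h
      simp only [List.cons_append, csumF]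
      rw [ih s h']
      omega

theorem gsum_not_mem (g T : List ℕ) (f : ℕ) (h : f ∉ g) : gsum g T f = 0 := by
  induction g generalizing T with
  | nil => simp [gsum]
  | cons x g ih =>
    cases T with
    | nil => simp [gsum]
    | cons t T =>
      rw [List.mem_cons, not_or] at h
      simp only [gsum]
      rw [ih T h.2, if_neg (fun e => h.1 e.symm)]

theorem csumF_not_mem (c s : List (Fin 4 → ℕ)) (f : ℕ) (h : ∀ x ∈ c, ∀ j, x j ≠ f) :
    csumF c s f = 0 := by
  induction c generalizing s with
  | nil => simp [csumF]
  | cons x c ih =>
    cases s with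
    | nil => simp [csumF]
    | cons t s =>
      simp only [csumF]
      rw [ih s (fun y hy => h y (List.mem_cons_of_mem _ hy)), add_zero]
      refine Finset.sum_eq_zero fun j _ => ?_
      rw [if_neg (h x List.mem_cons_self j)]

private theorem A_GSum_id (x t a b f : ℕ) (hab : a ≠ b) (hf : f ≠ max a b) :
    (if ident a b x = f then t else 0) =
      if f = min a b then (if x = a then t else 0) + (if x = b then t else 0)
      else if x = f then t else 0 := by
  unfold ident
  split_ifs <;> omega

/-- identification of two different labels: class sums add -/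
theorem gsum_ident (g T : List ℕ) (a b f : ℕ) (hab : a ≠ b) (hf : f ≠ max a b) :
    gsum (g.map (ident a b)) T f =
      if f = min a b then gsum g T a + gsum g T b else gsum g T f := by
  induction g generalizing T with
  | nil => simp [gsum]
  | cons x g ih =>
    cases T with
    | nil => simp [gsum]
    | cons t T =>
      simp only [List.map_cons, gsum]
      rw [ih T, A_GSum_id x t a b f hab hf]
      by_cases h : f = min a b
      · simp only [if_pos h]
        omega
      · simp only [if_neg h]

theorem csumF_ident (c s : List (Fin 4 → ℕ)) (a b f : ℕ) (hab : a ≠ b) (hf : f ≠ max a b) :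
    csumF (c.map (fun x k => ident a b (x k))) s f =
      if f = min a b then csumF c s a + csumF c s b else csumF c s f := by
  induction c generalizing s with
  | nil => simp [csumF]
  | cons x c ih =>
    cases s with
    | nil => simp [csumF]
    | cons t s =>
      simp only [List.map_cons, csumF]
      rw [ih s]
      have e : (∑ j, if ident a b (x j) = f then t j else 0) =
          if f = min a b then (∑ j, if x j = a then t j else 0) + (∑ j, if x j = b then t j else 0)
          else ∑ j, if x j = f then t j else 0 := by
        rw [Finset.sum_congr rfl fun j _ => A_GSum_id (x j) (t j) a b f hab hf]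
        by_cases h : f = min a b
        · simp only [if_pos h]
          rw [Finset.sum_add_distrib]
        · simp only [if_neg h]
      rw [e]
      by_cases h : f = min a b
      · simp only [if_pos h]
        omega
      · simp only [if_neg h]

private theorem A_GSum_cup {α : Type*} (q : ℂ) (N i : ℕ) (A : Finset α) (ψ : α → List ℕ → ℂ) :
    act q N (.cup i) (fun l => ∑ a ∈ A, ψ a l) = fun l => ∑ a ∈ A, act q N (.cup i) (ψ a) l := by
  funext l
  simp only [act]
  rcases l.drop i with _ | ⟨c, _ | ⟨d, r⟩⟩
  · simp
  · simp
  · by_cases h : c + d = N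
    · simp only [if_pos h]
      rw [Finset.mul_sum]
    · simp only [if_neg h]
      simp

private theorem A_GSum_cap {α : Type*} (q : ℂ) (N i : ℕ) (A : Finset α) (ψ : α → List ℕ → ℂ) :
    act q N (.cap i) (fun l => ∑ a ∈ A, ψ a l) = fun l => ∑ a ∈ A, act q N (.cap i) (ψ a) l := by
  funext l
  simp only [act]
  rw [Finset.sum_comm]
  refine Finset.sum_congr rfl fun a _ => ?_
  rw [Finset.mul_sum]

private theorem A_GSum_tw {α : Type*} (q : ℂ) (N t i : ℕ) (A : Finset α) (ψ : α → List ℕ → ℂ) :
    actE q N t i (fun l => ∑ a ∈ A, ψ a l) = fun l => ∑ a ∈ A, actE q N t i (ψ a) l := by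
  funext l
  simp only [actE]
  rcases l.drop i with _ | ⟨c, _ | ⟨d, r⟩⟩
  · simp
  · simp
  · simp only [Finset.mul_sum]
    symm
    rw [Finset.sum_comm]
    refine Finset.sum_congr rfl fun a _ => ?_
    rw [Finset.sum_comm]

private theorem A_GSum_cup' (q : ℂ) (N i : ℕ) (c : ℂ) (ψ : List ℕ → ℂ) :
    act q N (.cup i) (fun l => c * ψ l) = fun l => c * act q N (.cup i) ψ l := by
  funext l
  simp only [act]
  rcases l.drop i with _ | ⟨x, _ | ⟨d, r⟩⟩
  · simp
  · simp
  · by_cases h : x + d = N
    · simp only [if_pos h]
      ring
    · simp only [if_neg h]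
      simp

private theorem A_GSum_cap' (q : ℂ) (N i : ℕ) (c : ℂ) (ψ : List ℕ → ℂ) :
    act q N (.cap i) (fun l => c * ψ l) = fun l => c * act q N (.cap i) ψ l := by
  funext l
  simp only [act]
  rw [Finset.mul_sum]
  refine Finset.sum_congr rfl fun a _ => ?_
  ring

private theorem A_GSum_tw' (q : ℂ) (N t i : ℕ) (c : ℂ) (ψ : List ℕ → ℂ) :
    actE q N t i (fun l => c * ψ l) = fun l => c * actE q N t i ψ l := by
  funext l
  simp only [actE]
  rcases l.drop i with _ | ⟨x, _ | ⟨d, r⟩⟩
  · simp
  · simp
  · simp only []
    rw [Finset.mul_sum]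
    refine Finset.sum_congr rfl fun a _ => ?_
    rw [Finset.mul_sum]
    refine Finset.sum_congr rfl fun b _ => ?_
    ring

theorem evalT_sum {α : Type*} (q : ℂ) (N : ℕ) (t : ℕ → ℕ) (v : ℕ) (w : List TPiece) (A : Finset α)
    (ψ : α → List ℕ → ℂ) (l : List ℕ) :
    evalT q N t v w (fun l => ∑ a ∈ A, ψ a l) l = ∑ a ∈ A, evalT q N t v w (ψ a) l := by
  induction w generalizing v ψ l with
  | nil => simp only [evalT]
  | cons x w ih =>
    cases x with
    | cup i =>
      simp only [evalT]
      rw [A_GSum_cup]
      exact ih _ _ _
    | cap i =>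
      simp only [evalT]
      rw [A_GSum_cap]
      exact ih _ _ _
    | tw i =>
      simp only [evalT]
      rw [A_GSum_tw]
      exact ih _ _ _

theorem evalT_smul (q : ℂ) (N : ℕ) (t : ℕ → ℕ) (v : ℕ) (w : List TPiece) (c : ℂ)
    (ψ : List ℕ → ℂ) (l : List ℕ) :
    evalT q N t v w (fun l => c * ψ l) l = c * evalT q N t v w ψ l := by
  induction w generalizing v ψ l with
  | nil => simp only [evalT]
  | cons x w ih =>
    cases x with
    | cup i =>
      simp only [evalT]
      rw [A_GSum_cup']
      exact ih _ _ _
    | cap i =>
      simp only [evalT]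
      rw [A_GSum_cap']
      exact ih _ _ _
    | tw i =>
      simp only [evalT]
      rw [A_GSum_tw']
      exact ih _ _ _

end Pool.Agent.H63.CLK
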