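import Pool.Agent.H63.CLK.A_GSum
import Pool.Agent.H63.CLK.A_GInv

/-!
# CLK part A, global theorem: twist regions

`S.gaps = p ++ a :: b :: c :: r`, `S'.gaps = p ++ a :: nxt :: c :: r`, `S'.cor = S.cor ++ [![nxt, c, b, a]]` (top, right, bottom, left). With
`T = P ++ A :: B :: C :: R`, by `Psi_ver`, `evalT_sum`, `evalT_smul`:
`GV v (tw i :: w) T = ∑_{sL, sR ≤ t} [sL ≤ A, sR ≤ C, B ≤ N-t, B+sL+sR ≤ N, t ≤ B+sL+sR] (qbinomials) GV (v+1) w (P ++ (A-sL) :: (B+sL+sR) :: (C-sR) :: R)`.
On the other side, for `x = (x 0, x 1, x 2, x 3) = (sT, sR, sB, sL)` with sum `N` and `T' = P ++ A' :: B' :: C' :: R`: `AdmG N S' (s ++ [x]) T'` iff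
`B' + x 0 = N` and `A' + x 3 ≤ N`, `C' + x 1 ≤ N` and `AdmG N S s (P ++ (A' + x 3) :: x 2 :: (C' + x 1) :: R)` (face `nxt`: `B' + x 0 = N`; the other faces: the corner
values `x 3, x 1, x 2` at the labels `a, c, b` are moved to the gaps; the bounds from the conditions for the faces `a`, `c`).
Bijection: `x 2 = B`, `x 3 = sL`, `x 1 = sR`, `x 0 = N - B - sL - sR`, `A = A' + sL`, `C = C' + sR`, `B' = B + sL + sR`.
`csz N t = ![N - t, t, N - t, t]`, `Fin.prod_univ_four`, `Fin.sum_univ_four`; a sum over `Fintype.piFinset` over `Fin 4` is a fourfold sum.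
-/

namespace Pool.Agent.H63.CLK

open Pool.Agent.H63.VC7 Pool.Agent.H63.VC10

private theorem A_GTw_sumL3 (N m n : ℕ) (F : List ℕ → ℂ) :
    sumL N (m + (n + 3)) F = sumL N m (fun P => sumL N n (fun R =>
      ∑ A ∈ Finset.range (N + 1), ∑ B ∈ Finset.range (N + 1), ∑ C ∈ Finset.range (N + 1),
        F (P ++ A :: B :: C :: R))) := by
  rw [sumL_append]
  refine sumL_congr N m _ _ fun P _ _ => ?_
  rw [sumL_sum]
  change (∑ A ∈ Finset.range (N + 1), ∑ B ∈ Finset.range (N + 1), ∑ C ∈ Finset.range (N + 1),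
    sumL N n (fun R => F (P ++ A :: B :: C :: R))) = _
  refine Finset.sum_congr rfl fun A _ => ?_
  rw [sumL_sum]
  refine Finset.sum_congr rfl fun B _ => ?_
  rw [sumL_sum]

private theorem A_GTw_step (S S' : Sweep) (i : ℕ) (hx : S.step (.tw i) = some S') :
    ∃ (p : List ℕ) (a b c : ℕ) (r : List ℕ), S.gaps = p ++ a :: b :: c :: r ∧ p.length = i ∧
      S' = ⟨p ++ a :: S.nxt :: c :: r, S.nxt :: S.faces, S.nxt + 1,
        S.cor ++ [![S.nxt, c, b, a]]⟩ := by
  simp only [Sweep.step] at hx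
  split at hx
  · rename_i a b c r hd
    refine ⟨S.gaps.take i, a, b, c, r, ?_, ?_, ?_⟩
    · rw [← hd, List.take_append_drop]
    · have h1 := congrArg List.length hd
      rw [List.length_drop] at h1
      simp only [List.length_cons] at h1
      rw [List.length_take]
      omega
    · exact (Option.some.inj hx).symm
  · cases hx

private theorem A_GTw_evalT_zero (q : ℂ) (N : ℕ) (t : ℕ → ℕ) (v : ℕ) (w : List TPiece)
    (l : List ℕ) : evalT q N t v w (fun _ => 0) l = 0 := by
  have h := evalT_sum q N t v w (∅ : Finset ℕ) (fun _ _ => 0) l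
  simpa using h

private theorem A_GTw_GV (N : ℕ) (t : ℕ → ℕ) (v : ℕ) (w : List TPiece) (ht : t v ≤ N)
    (P R : List ℕ) (A B C : ℕ) (hA : A ≤ N) (hB : B ≤ N) (hC : C ≤ N) :
    GV N t v (.tw P.length :: w) (P ++ A :: B :: C :: R) =
      ∑ sL ∈ Finset.range (t v + 1), ∑ sR ∈ Finset.range (t v + 1),
        if sL ≤ A ∧ sR ≤ C ∧ B ≤ N - t v ∧ B + sL + sR ≤ N ∧ t v ≤ B + sL + sR then
          qbin (qz N) (N - t v) B * qbin (qz N) (N - t v) (N - B - sL - sR) *
            qbin (qz N) (t v) sL * qbin (qz N) (t v) sR *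
            GV N t (v + 1) w (P ++ (A - sL) :: (B + sL + sR) :: (C - sR) :: R)
        else 0 := by
  unfold GV
  simp only [evalT]
  rw [Psi_ver N (t v) ht P R A B C hA hB hC, evalT_sum]
  refine Finset.sum_congr rfl fun sL _ => ?_
  rw [evalT_sum]
  refine Finset.sum_congr rfl fun sR _ => ?_
  split_ifs with h
  · rw [evalT_smul]
  · rw [A_GTw_evalT_zero]

private theorem A_GTw_gsum (p P : List ℕ) (hp : p.length = P.length) (a b c A B C : ℕ)
    (r R : List ℕ) (f : ℕ) :
    gsum (p ++ a :: b :: c :: r) (P ++ A :: B :: C :: R) f =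
      gsum p P f + ((if a = f then A else 0) + ((if b = f then B else 0) +
        ((if c = f then C else 0) + gsum r R f))) := by
  rw [gsum_append _ _ _ _ _ hp]
  rfl

private theorem A_GTw_csum (cor s : List (Fin 4 → ℕ)) (hs : cor.length = s.length)
    (n c b a : ℕ) (x : Fin 4 → ℕ) (f : ℕ) :
    csumF (cor ++ [![n, c, b, a]]) (s ++ [x]) f = csumF cor s f +
      ((if n = f then x 0 else 0) + (if c = f then x 1 else 0) + (if b = f then x 2 else 0) +
        (if a = f then x 3 else 0)) := by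
  rw [csumF_append _ _ _ _ _ hs]
  simp only [csumF, Fin.sum_univ_four, add_zero]
  rfl

private theorem A_GTw_adm (N : ℕ) (S : Sweep) (s : List (Fin 4 → ℕ)) (h : InvA S)
    (hs : s.length = S.cor.length) (p P : List ℕ) (hp : p.length = P.length)
    (a b c : ℕ) (r R : List ℕ) (hg : S.gaps = p ++ a :: b :: c :: r)
    (hP : ∀ y ∈ P, y ≤ N) (hR : ∀ y ∈ R, y ≤ N)
    (x : Fin 4 → ℕ) (A B C : ℕ) :
    (AdmG N ⟨p ++ a :: S.nxt :: c :: r, S.nxt :: S.faces, S.nxt + 1,
        S.cor ++ [![S.nxt, c, b, a]]⟩ (s ++ [x]) (P ++ A :: B :: C :: R)) ↔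
      (∑ j, x j = N ∧ B + x 0 = N ∧ A + x 3 ≤ N ∧ C + x 1 ≤ N ∧
        AdmG N S s (P ++ (A + x 3) :: x 2 :: (C + x 1) :: R)) := by
  have ha : a ∈ S.faces := h.gaps a (by rw [hg]; simp)
  have hb : b ∈ S.faces := h.gaps b (by rw [hg]; simp)
  have hc : c ∈ S.faces := h.gaps c (by rw [hg]; simp)
  have han : a ≠ S.nxt := (h.lt a ha).ne
  have hbn : b ≠ S.nxt := (h.lt b hb).ne
  have hcn : c ≠ S.nxt := (h.lt c hc).ne
  have hpn : S.nxt ∉ p := by
    intro hm
    have := h.lt S.nxt (h.gaps _ (by rw [hg]; simp [hm]))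
    omega
  have hrn : S.nxt ∉ r := by
    intro hm
    have := h.lt S.nxt (h.gaps _ (by rw [hg]; simp [hm]))
    omega
  have hcorn : ∀ y ∈ S.cor, ∀ j, y j ≠ S.nxt := by
    intro y hy j hj
    have := h.lt _ (h.cor y hy j)
    omega
  unfold AdmG
  simp only [hg]
  simp only [A_GTw_gsum p P hp, A_GTw_csum S.cor s hs.symm, List.mem_append, List.mem_cons,
    List.not_mem_nil, or_false, forall_eq_or_imp]
  constructor
  · rintro ⟨h1, h2, h3, h4⟩
    have hsum : ∑ j, x j = N := h2 x (Or.inr rfl)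
    have hB0 : B + x 0 = N := by
      simp only [gsum_not_mem p P _ hpn, gsum_not_mem r R _ hrn, csumF_not_mem S.cor s _ hcorn,
        if_neg han, if_neg hcn, if_neg hbn, if_true] at h3
      omega
    have h5 : ∀ f ∈ S.faces, gsum p P f + ((if a = f then A + x 3 else 0) +
        ((if b = f then x 2 else 0) + ((if c = f then C + x 1 else 0) + gsum r R f))) +
        csumF S.cor s f = N := by
      intro f hf
      have h6 := h4 f hf
      have h7 : S.nxt ≠ f := fun he => by have := h.lt f hf; omega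
      rw [if_neg h7, if_neg h7] at h6
      split_ifs at h6 ⊢ <;> omega
    have hA' : A + x 3 ≤ N := by
      have h6 := h5 a ha
      rw [if_pos rfl] at h6
      omega
    have hC' : C + x 1 ≤ N := by
      have h6 := h5 c hc
      rw [if_pos (rfl : c = c)] at h6
      omega
    have hB' : x 2 ≤ N := by
      have h6 := h5 b hb
      rw [if_pos (rfl : b = b)] at h6
      omega
    refine ⟨hsum, hB0, hA', hC', ?_, fun y hy => h2 y (Or.inl hy), h5⟩
    rintro y (hy | hy | hy | hy | hy)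
    · exact hP y hy
    · rw [hy]; exact hA'
    · rw [hy]; exact hB'
    · rw [hy]; exact hC'
    · exact hR y hy
  · rintro ⟨hsum, hB0, hA', hC', h1, h2, h5⟩
    refine ⟨?_, ?_, ?_, ?_⟩
    · rintro y (hy | hy | hy | hy | hy)
      · exact hP y hy
      · rw [hy]; omega
      · rw [hy]; omega
      · rw [hy]; omega
      · exact hR y hy
    · rintro y (hy | hy)
      · exact h2 y hy
      · rw [hy]; exact hsum
    · simp only [gsum_not_mem p P _ hpn, gsum_not_mem r R _ hrn, csumF_not_mem S.cor s _ hcorn,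
        if_neg han, if_neg hcn, if_neg hbn, if_true]
      omega
    · intro f hf
      have h6 := h5 f hf
      have h7 : S.nxt ≠ f := fun he => by have := h.lt f hf; omega
      rw [if_neg h7, if_neg h7]
      split_ifs at h6 ⊢ <;> omega

theorem step_tw (N : ℕ) (t : ℕ → ℕ) (w : List TPiece) (S S' : Sweep) (s : List (Fin 4 → ℕ)) (i : ℕ)
    (h : InvA S) (hs : s.length = S.cor.length) (ht : t S.cor.length ≤ N)
    (hx : S.step (.tw i) = some S') :
    GLs N t (.tw i :: w) S s =
      ∑ x ∈ Fintype.piFinset (fun j : Fin 4 => Finset.range (csz N (t S.cor.length) j + 1)),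
        if ∑ j, x j = N then (∏ j, qbin (qz N) (csz N (t S.cor.length) j) (x j)) *
          GLs N t w S' (s ++ [x]) else 0 := by
  classical
  obtain ⟨p, a, b, c, r, hg, hpi, hS'⟩ := A_GTw_step S S' i hx
  subst hS'
  set v := S.cor.length with hv
  set τ := t v with hτ
  unfold GLs
  simp only
  have hl1 : S.gaps.length = p.length + (r.length + 3) := by
    rw [hg]
    simp only [List.length_append, List.length_cons]
  have hl2 : (p ++ a :: S.nxt :: c :: r).length = p.length + (r.length + 3) := by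
    simp only [List.length_append, List.length_cons]
  have hl3 : (S.cor ++ [![S.nxt, c, b, a]]).length = v + 1 := by
    simp [hv]
  rw [hl1, hl2, hl3]
  -- right side
  have hR : ∀ x : Fin 4 → ℕ,
      (if ∑ j, x j = N then (∏ j, qbin (qz N) (csz N τ j) (x j)) *
        sumL N (p.length + (r.length + 3)) (fun T => if AdmG N ⟨p ++ a :: S.nxt :: c :: r,
          S.nxt :: S.faces, S.nxt + 1, S.cor ++ [![S.nxt, c, b, a]]⟩ (s ++ [x]) T then
            GV N t (v + 1) w T else 0) else 0)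
      = sumL N p.length (fun P => sumL N r.length (fun R =>
        ∑ A ∈ Finset.range (N + 1), ∑ B ∈ Finset.range (N + 1), ∑ C ∈ Finset.range (N + 1),
          if ∑ j, x j = N ∧ AdmG N ⟨p ++ a :: S.nxt :: c :: r,
          S.nxt :: S.faces, S.nxt + 1, S.cor ++ [![S.nxt, c, b, a]]⟩ (s ++ [x])
            (P ++ A :: B :: C :: R) then (∏ j, qbin (qz N) (csz N τ j) (x j)) *
            GV N t (v + 1) w (P ++ A :: B :: C :: R) else 0)) := by
    intro x
    by_cases hN : ∑ j, x j = N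
    · rw [if_pos hN, ← sumL_mul, A_GTw_sumL3]
      refine sumL_congr N _ _ _ fun P _ _ => sumL_congr N _ _ _ fun R _ _ => ?_
      refine Finset.sum_congr rfl fun A _ => Finset.sum_congr rfl fun B _ =>
        Finset.sum_congr rfl fun C _ => ?_
      rw [mul_ite, mul_zero]
      simp only [hN, true_and]
    · rw [if_neg hN]
      symm
      refine (sumL_congr N _ _ (fun _ => 0) fun P _ _ => ?_).trans (sumL_zero N _)
      refine (sumL_congr N _ _ (fun _ => 0) fun R _ _ => ?_).trans (sumL_zero N _)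
      simp only [hN, false_and, if_false, Finset.sum_const_zero]
  rw [Finset.sum_congr rfl fun x _ => hR x]
  rw [← sumL_sum, A_GTw_sumL3]
  refine sumL_congr N _ _ _ fun P hPl hPb => ?_
  rw [← sumL_sum]
  refine sumL_congr N _ _ _ fun R hRl hRb => ?_
  have hpP : p.length = P.length := hPl.symm
  -- left side as a sum over a product
  have hL : ∀ A ∈ Finset.range (N + 1), ∀ B ∈ Finset.range (N + 1), ∀ C ∈ Finset.range (N + 1),
      (if AdmG N S s (P ++ A :: B :: C :: R) then GV N t v (.tw i :: w) (P ++ A :: B :: C :: R)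
        else 0) = ∑ sL ∈ Finset.range (τ + 1), ∑ sR ∈ Finset.range (τ + 1),
          if AdmG N S s (P ++ A :: B :: C :: R) ∧ (sL ≤ A ∧ sR ≤ C ∧ B ≤ N - τ ∧
            B + sL + sR ≤ N ∧ τ ≤ B + sL + sR) then
          qbin (qz N) (N - τ) B * qbin (qz N) (N - τ) (N - B - sL - sR) *
            qbin (qz N) τ sL * qbin (qz N) τ sR *
            GV N t (v + 1) w (P ++ (A - sL) :: (B + sL + sR) :: (C - sR) :: R)
        else 0 := by
    intro A hA B hB C hC
    rw [Finset.mem_range] at hA hB hC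
    have hi : i = P.length := by rw [← hpi, hpP]
    rw [hi, A_GTw_GV N t v w ht P R A B C (by omega) (by omega) (by omega)]
    by_cases hAd : AdmG N S s (P ++ A :: B :: C :: R)
    · rw [if_pos hAd]
      simp only [hAd, true_and]
      rfl
    · rw [if_neg hAd]
      simp only [hAd, false_and, if_false, Finset.sum_const_zero]
  rw [Finset.sum_congr rfl fun A hA => Finset.sum_congr rfl fun B hB =>
    Finset.sum_congr rfl fun C hC => hL A hA B hB C hC]
  have hLL : (∑ A ∈ Finset.range (N + 1), ∑ B ∈ Finset.range (N + 1),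
      ∑ C ∈ Finset.range (N + 1), ∑ sL ∈ Finset.range (τ + 1), ∑ sR ∈ Finset.range (τ + 1),
          if AdmG N S s (P ++ A :: B :: C :: R) ∧ (sL ≤ A ∧ sR ≤ C ∧ B ≤ N - τ ∧
            B + sL + sR ≤ N ∧ τ ≤ B + sL + sR) then
          qbin (qz N) (N - τ) B * qbin (qz N) (N - τ) (N - B - sL - sR) *
            qbin (qz N) τ sL * qbin (qz N) τ sR *
            GV N t (v + 1) w (P ++ (A - sL) :: (B + sL + sR) :: (C - sR) :: R)
        else 0) =
      ∑ z ∈ Finset.range (N + 1) ×ˢ (Finset.range (N + 1) ×ˢ (Finset.range (N + 1) ×ˢ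
        (Finset.range (τ + 1) ×ˢ Finset.range (τ + 1)))),
        if AdmG N S s (P ++ z.1 :: z.2.1 :: z.2.2.1 :: R) ∧ (z.2.2.2.1 ≤ z.1 ∧
            z.2.2.2.2 ≤ z.2.2.1 ∧ z.2.1 ≤ N - τ ∧
            z.2.1 + z.2.2.2.1 + z.2.2.2.2 ≤ N ∧ τ ≤ z.2.1 + z.2.2.2.1 + z.2.2.2.2) then
          qbin (qz N) (N - τ) z.2.1 * qbin (qz N) (N - τ) (N - z.2.1 - z.2.2.2.1 - z.2.2.2.2) *
            qbin (qz N) τ z.2.2.2.1 * qbin (qz N) τ z.2.2.2.2 *
            GV N t (v + 1) w (P ++ (z.1 - z.2.2.2.1) :: (z.2.1 + z.2.2.2.1 + z.2.2.2.2) ::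
              (z.2.2.1 - z.2.2.2.2) :: R)
        else 0 := by
    simp only [Finset.sum_product]
  have hRR : (∑ x ∈ Fintype.piFinset (fun j : Fin 4 => Finset.range (csz N τ j + 1)),
        ∑ A ∈ Finset.range (N + 1), ∑ B ∈ Finset.range (N + 1), ∑ C ∈ Finset.range (N + 1),
          if ∑ j, x j = N ∧ AdmG N ⟨p ++ a :: S.nxt :: c :: r,
          S.nxt :: S.faces, S.nxt + 1, S.cor ++ [![S.nxt, c, b, a]]⟩ (s ++ [x])
            (P ++ A :: B :: C :: R) then (∏ j, qbin (qz N) (csz N τ j) (x j)) *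
            GV N t (v + 1) w (P ++ A :: B :: C :: R) else 0) =
      ∑ z ∈ (Fintype.piFinset (fun j : Fin 4 => Finset.range (csz N τ j + 1))) ×ˢ
        (Finset.range (N + 1) ×ˢ (Finset.range (N + 1) ×ˢ Finset.range (N + 1))),
          if ∑ j, z.1 j = N ∧ AdmG N ⟨p ++ a :: S.nxt :: c :: r,
          S.nxt :: S.faces, S.nxt + 1, S.cor ++ [![S.nxt, c, b, a]]⟩ (s ++ [z.1])
            (P ++ z.2.1 :: z.2.2.1 :: z.2.2.2 :: R) then
            (∏ j, qbin (qz N) (csz N τ j) (z.1 j)) *
            GV N t (v + 1) w (P ++ z.2.1 :: z.2.2.1 :: z.2.2.2 :: R) else 0 := by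
    simp only [Finset.sum_product]
  rw [hLL, hRR, ← Finset.sum_filter, ← Finset.sum_filter]
  have hcz0 : csz N τ 0 = N - τ := rfl
  have hcz1 : csz N τ 1 = τ := rfl
  have hcz2 : csz N τ 2 = N - τ := rfl
  have hcz3 : csz N τ 3 = τ := rfl
  refine Finset.sum_nbij'
    (fun z => (![N - z.2.1 - z.2.2.2.1 - z.2.2.2.2, z.2.2.2.2, z.2.1, z.2.2.2.1],
      (z.1 - z.2.2.2.1, (z.2.1 + z.2.2.2.1 + z.2.2.2.2, z.2.2.1 - z.2.2.2.2))))
    (fun z => (z.2.1 + z.1 3, (z.1 2, (z.2.2.2 + z.1 1, (z.1 3, z.1 1))))) ?_ ?_ ?_ ?_ ?_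
  · rintro ⟨A, B, C, sL, sR⟩ hz
    rw [Finset.mem_filter] at hz
    obtain ⟨hz1, hz2, hz3, hz4, hz5, hz6, hz7⟩ := hz
    simp only [Finset.mem_product, Finset.mem_range] at hz1 hz3 hz4 hz5 hz6 hz7
    obtain ⟨hA, hB, hC, hsL, hsR⟩ := hz1
    have hsum : ∑ j, (![N - B - sL - sR, sR, B, sL] : Fin 4 → ℕ) j = N := by
      rw [Fin.sum_univ_four]
      change N - B - sL - sR + sR + B + sL = N
      omega
    rw [Finset.mem_filter]
    refine ⟨?_, hsum, ?_⟩
    · rw [Finset.mem_product]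
      refine ⟨?_, ?_⟩
      · rw [Fintype.mem_piFinset]
        intro j
        rw [Finset.mem_range]
        fin_cases j
        · change N - B - sL - sR < N - τ + 1
          omega
        · change sR < τ + 1
          omega
        · change B < N - τ + 1
          omega
        · change sL < τ + 1
          omega
      · simp only [Finset.mem_product, Finset.mem_range]
        omega
    · refine (A_GTw_adm N S s h hs p P hpP a b c r R hg hPb hRb _ _ _ _).2
        ⟨hsum, ?_, ?_, ?_, ?_⟩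
      · change B + sL + sR + (N - B - sL - sR) = N
        omega
      · change A - sL + sL ≤ N
        omega
      · change C - sR + sR ≤ N
        omega
      · change AdmG N S s (P ++ (A - sL + sL) :: B :: (C - sR + sR) :: R)
        rw [Nat.sub_add_cancel hz3, Nat.sub_add_cancel hz4]
        exact hz2
  · rintro ⟨x, A, B, C⟩ hz
    rw [Finset.mem_filter] at hz
    obtain ⟨hz1, hz2, hz3⟩ := hz
    simp only [Finset.mem_product, Finset.mem_range, Fintype.mem_piFinset] at hz1 hz2 hz3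
    obtain ⟨hx1, hA, hB, hC⟩ := hz1
    obtain ⟨_, h2, h3, h4, h5⟩ :=
      (A_GTw_adm N S s h hs p P hpP a b c r R hg hPb hRb _ _ _ _).1 hz3
    have hx0' := hx1 0
    have hx1' := hx1 1
    have hx2' := hx1 2
    have hx3' := hx1 3
    rw [hcz0] at hx0'
    rw [hcz1] at hx1'
    rw [hcz2] at hx2'
    rw [hcz3] at hx3'
    rw [Fin.sum_univ_four] at hz2
    rw [Finset.mem_filter]
    simp only [Finset.mem_product, Finset.mem_range]
    refine ⟨by omega, h5, by omega, by omega, by omega, by omega, by omega⟩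
  · rintro ⟨A, B, C, sL, sR⟩ hz
    rw [Finset.mem_filter] at hz
    obtain ⟨hz1, hz2, hz3, hz4, hz5, hz6, hz7⟩ := hz
    simp only at hz3 hz4
    change (A - sL + sL, B, C - sR + sR, sL, sR) = (A, B, C, sL, sR)
    rw [Nat.sub_add_cancel hz3, Nat.sub_add_cancel hz4]
  · rintro ⟨x, A, B, C⟩ hz
    rw [Finset.mem_filter] at hz
    obtain ⟨hz1, hz2, hz3⟩ := hz
    simp only [Finset.mem_product, Finset.mem_range, Fintype.mem_piFinset] at hz1 hz2 hz3
    obtain ⟨_, h2, h3, h4, h5⟩ :=
      (A_GTw_adm N S s h hs p P hpP a b c r R hg hPb hRb _ _ _ _).1 hz3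
    rw [Fin.sum_univ_four] at hz2
    simp only [Prod.mk.injEq]
    refine ⟨?_, by omega, by omega, by omega⟩
    funext j
    fin_cases j
    · change N - x 2 - x 3 - x 1 = x 0
      omega
    · rfl
    · rfl
    · rfl
  · rintro ⟨A, B, C, sL, sR⟩ hz
    rw [Fin.prod_univ_four, hcz0, hcz1, hcz2, hcz3]
    simp only
    change _ = qbin (qz N) (N - τ) (N - B - sL - sR) * qbin (qz N) τ sR *
      qbin (qz N) (N - τ) B * qbin (qz N) τ sL * _
    ring

end Pool.Agent.H63.CLK
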