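import Pool.Agent.H63.CLK.A_GCup
import Pool.Agent.H63.CLK.A_GTw
import Pool.Agent.H63.CLK.A_GCap

/-!
# CLK part A: the colored clock theorem (A1)

`glob`: induction on `w`. `w = []`: `S' = S`, `sumL N 2`, `Psi_end`/`Psi_init`: only `T = [N, N]` contributes, with value `1`. Pieces: `step_cup`,
`step_cap`, `step_tw`, `Inv_step`, `cor_length_step`, and the definition of `sumS` (`numTw (tw i :: w) = numTw w + 1`, `List.append_assoc`; the new vertex
sum is `N`).
`clock`: `S = Sweep.init`, `s = []`, `v = 0`: in `GLs` only `T = [N, N]` is admissible (`gsum [0,1] T f = N` for `f = 0, 1`), `Psi_init`. At the end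
`S'.gaps = [0, 1]`, so `AdmG N S' s' [N, N]` iff the vertex sums are `N`, the corner sums at `0` and `1` are `0`, those at the other faces are `N`; together with
`InvA.cor` (every corner label is in `faces`) this is `IsState F cor N` of the function `Fin c → Fin 4 → ℕ` given by the list. `sumS_eq`: conversion of `sumS N t 0 c`
into a sum over `Fintype.piFinset` (induction on `c`, `Fin.consEquiv`/`Fintype.piFinset` over `Fin (k+1)`; general `v`). The dependence on `t`: `t v ≤ N` only for
`v < c`; `clockSum` has the argument `fun v : Fin c => t v`.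
-/

namespace Pool.Agent.H63.CLK

open Pool.Agent.H63.VC7 Pool.Agent.H63.VC10

private theorem A_Glob_base (N : ℕ) (t : ℕ → ℕ) (S : Sweep) (s : List (Fin 4 → ℕ))
    (hg : S.gaps = [0, 1]) :
    GLs N t [] S s = PsiA N [N, N] [0] * (open Classical in if AdmG N S s [N, N] then 1 else 0) := by
  classical
  unfold GLs
  rw [hg]
  simp only [List.length_cons, List.length_nil, zero_add, Nat.reduceAdd, sumL]
  rw [Finset.sum_eq_single N, Finset.sum_eq_single N]
  · by_cases h : AdmG N S s [N, N]
    · simp [h, GV, evalT]
    · simp [h]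
  · intro b _ hb
    have : PsiA N [N, b] [0] = 0 := Psi_end N N b (fun h => hb h.2)
    simp [GV, evalT, this]
  · intro h
    exact absurd (Finset.mem_range.2 (Nat.lt_succ_self N)) h
  · intro a _ ha
    refine Finset.sum_eq_zero fun b _ => ?_
    have : PsiA N [a, b] [0] = 0 := Psi_end N a b (fun h => ha h.1)
    simp [GV, evalT, this]
  · intro h
    exact absurd (Finset.mem_range.2 (Nat.lt_succ_self N)) h

open Classical in
theorem glob (N : ℕ) (t : ℕ → ℕ) (w : List TPiece) (S S' : Sweep) (s : List (Fin 4 → ℕ))
    (h : InvA S) (hs : s.length = S.cor.length) (hsum : ∀ x ∈ s, ∑ j, x j = N)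
    (hx : sweep w S = some S') (hg : S'.gaps = [0, 1]) (ht : ∀ v < S'.cor.length, t v ≤ N) :
    GLs N t w S s = sumS N t S.cor.length (numTw w)
      (fun s' => if AdmG N S' (s ++ s') [N, N] then 1 else 0) := by
  induction w generalizing S s with
  | nil =>
    have hS : S = S' := by simpa [sweep] using hx
    subst hS
    rw [A_Glob_base N t S s hg, Psi_init]
    simp [sumS, numTw]
  | cons x w ih =>
    obtain ⟨S1, h1, h2⟩ : ∃ S1, S.step x = some S1 ∧ sweep w S1 = some S' := by
      simpa [sweep, Option.bind_eq_some_iff] using hx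
    have hI := Inv_step S S1 x h h1
    have hc := cor_length_step S S1 x h1
    cases x with
    | cup i =>
      have hc' : S1.cor.length = S.cor.length := by simpa [numTw] using hc
      rw [step_cup N t w S S1 s i h hs h1, ih S1 s hI (by rw [hs, hc']) hsum h2, hc']
      rfl
    | cap i =>
      have hc' : S1.cor.length = S.cor.length := by simpa [numTw] using hc
      rw [step_cap N t w S S1 s i h hs h1, ih S1 s hI (by rw [hs, hc']) hsum h2, hc']
      rfl
    | tw i =>
      have hc' : S1.cor.length = S.cor.length + 1 := by simpa [numTw] using hc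
      have hl := cor_length_sweep S1 S' w h2
      rw [step_tw N t w S S1 s i h hs (ht _ (by omega)) h1]
      simp only [numTw, sumS]
      refine Finset.sum_congr rfl fun x _ => ?_
      split_ifs with hxs
      · congr 1
        rw [ih S1 (s ++ [x]) hI (by simp [hs, hc']) ?_ h2, hc']
        · simp only [List.append_assoc, List.singleton_append]
        · intro y hy
          rcases List.mem_append.1 hy with hy | hy
          · exact hsum y hy
          · rw [List.mem_singleton.1 hy]
            exact hxs
      · rfl

theorem sumS_eq (N : ℕ) (t : ℕ → ℕ) (v k : ℕ) (F : List (Fin 4 → ℕ) → ℂ) :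
    sumS N t v k F = ∑ x ∈ Fintype.piFinset (fun u : Fin k => Fintype.piFinset
      (fun j : Fin 4 => Finset.range (csz N (t (v + u)) j + 1))),
      if ∀ u, ∑ j, x u j = N then (∏ u : Fin k, ∏ j, qbin (qz N) (csz N (t (v + u)) j) (x u j)) *
        F (List.ofFn x) else 0 := by
  induction k generalizing v F with
  | zero =>
    simp [sumS]
  | succ k ih =>
    simp only [sumS]
    have e1 : ∑ x ∈ Fintype.piFinset (fun u : Fin (k + 1) => Fintype.piFinset
        (fun j : Fin 4 => Finset.range (csz N (t (v + u)) j + 1))),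
        (if ∀ u, ∑ j, x u j = N then
          (∏ u : Fin (k + 1), ∏ j, qbin (qz N) (csz N (t (v + u)) j) (x u j)) *
          F (List.ofFn x) else 0) =
        ∑ p ∈ (Fintype.piFinset (fun j : Fin 4 => Finset.range (csz N (t v) j + 1))) ×ˢ
          (Fintype.piFinset (fun u : Fin k => Fintype.piFinset
            (fun j : Fin 4 => Finset.range (csz N (t (v + 1 + u)) j + 1)))),
          (if ∑ j, p.1 j = N then (∏ j, qbin (qz N) (csz N (t v) j) (p.1 j)) *
            (if ∀ u, ∑ j, p.2 u j = N then
              (∏ u : Fin k, ∏ j, qbin (qz N) (csz N (t (v + 1 + u)) j) (p.2 u j)) *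
                F (p.1 :: List.ofFn p.2) else 0) else 0) := by
      refine Finset.sum_nbij' (fun x => (x 0, Fin.tail x))
        (fun p => (Fin.cons p.1 p.2 : Fin (k + 1) → Fin 4 → ℕ)) ?_ ?_ ?_ ?_ ?_
      · intro x hx
        rw [Fintype.mem_piFinset] at hx
        refine Finset.mem_product.2 ⟨?_, ?_⟩
        · simpa using hx 0
        · rw [Fintype.mem_piFinset]
          intro u
          have := hx u.succ
          simp only [Fin.val_succ] at this
          rw [show v + (↑u + 1) = v + 1 + ↑u by ring] at this
          exact this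
      · intro p hp
        obtain ⟨hp1, hp2⟩ := Finset.mem_product.1 hp
        rw [Fintype.mem_piFinset] at hp2
        rw [Fintype.mem_piFinset]
        intro u
        refine Fin.cases ?_ (fun u => ?_) u
        · simpa using hp1
        · have := hp2 u
          simp only [Fin.val_succ, Fin.cons_succ]
          rw [show v + (↑u + 1) = v + 1 + ↑u by ring]
          exact this
      · intro x _
        exact Fin.cons_self_tail x
      · intro p _
        simp
      · intro x _
        have hall : (∀ u, ∑ j, x u j = N) ↔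
            (∑ j, x 0 j = N ∧ ∀ u : Fin k, ∑ j, Fin.tail x u j = N) := by
          rw [Fin.forall_fin_succ]
          rfl
        have hprod : (∏ u : Fin (k + 1), ∏ j, qbin (qz N) (csz N (t (v + u)) j) (x u j)) =
            (∏ j, qbin (qz N) (csz N (t v) j) (x 0 j)) *
            ∏ u : Fin k, ∏ j, qbin (qz N) (csz N (t (v + 1 + u)) j) (Fin.tail x u j) := by
          rw [Fin.prod_univ_succ]
          congr 1
          refine Finset.prod_congr rfl fun u _ => ?_
          simp only [Fin.val_succ, Fin.tail]
          rw [show v + (↑u + 1) = v + 1 + ↑u by ring]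
        have hlist : List.ofFn x = x 0 :: List.ofFn (Fin.tail x) := by
          rw [List.ofFn_succ]
          rfl
        rw [hprod, hlist]
        by_cases h1 : ∑ j, x 0 j = N
        · by_cases h2 : ∀ u : Fin k, ∑ j, Fin.tail x u j = N
          · rw [if_pos (hall.2 ⟨h1, h2⟩), if_pos h1, if_pos h2]
            ring
          · rw [if_neg (fun h => h2 (hall.1 h).2), if_pos h1, if_neg h2, mul_zero]
        · rw [if_neg (fun h => h1 (hall.1 h).1), if_neg h1]
    rw [e1, Finset.sum_product]
    refine Finset.sum_congr rfl fun x _ => ?_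
    split_ifs with hxs
    · rw [ih, Finset.mul_sum]
    · simp

/-- the corner sum of lists given by functions -/
private theorem A_Glob_csumF (c : ℕ) (cor x : Fin c → Fin 4 → ℕ) (f : ℕ) :
    csumF (List.ofFn cor) (List.ofFn x) f = ∑ v, ∑ j, if cor v j = f then x v j else 0 := by
  induction c with
  | zero => simp [csumF]
  | succ c ih =>
    rw [List.ofFn_succ, List.ofFn_succ, csumF, ih]
    exact (Fin.sum_univ_succ (fun v => ∑ j, if cor v j = f then x v j else 0)).symm

private theorem A_Glob_state (N c : ℕ) (F : Finset ℕ) (cor : Fin c → Fin 4 → ℕ) (S : Sweep)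
    (hI : InvA S) (hg : S.gaps = [0, 1]) (hc : S.cor = List.ofFn cor)
    (hF : F = (S.faces.toFinset.erase 0).erase 1) (x : Fin c → Fin 4 → ℕ) :
    ((∀ u, ∑ j, x u j = N) ∧ AdmG N S (List.ofFn x) [N, N]) ↔ IsState F cor N x := by
  have hmem : ∀ f, f ∈ F ↔ f ≠ 1 ∧ f ≠ 0 ∧ f ∈ S.faces := by
    intro f
    rw [hF]
    simp
  have hcf : ∀ v j, cor v j ∈ S.faces := by
    intro v j
    refine hI.cor (cor v) ?_ j
    rw [hc, List.mem_ofFn']
    exact ⟨v, rfl⟩
  constructor
  · rintro ⟨h1, -, -, h3⟩
    refine ⟨h1, ?_, ?_⟩
    · intro f hf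
      obtain ⟨f1, f0, hf⟩ := (hmem f).1 hf
      have := h3 f hf
      rw [hg, hc, A_Glob_csumF] at this
      simpa [gsum, f1.symm, f0.symm] using this
    · intro v k hvk
      have hz : ∑ v', ∑ j, (if cor v' j = cor v k then x v' j else 0) = 0 := by
        have h4 := h3 (cor v k) (hcf v k)
        rw [hg, hc, A_Glob_csumF] at h4
        have h5 : cor v k = 1 ∨ cor v k = 0 := by
          by_contra hcon
          push Not at hcon
          exact hvk ((hmem _).2 ⟨hcon.1, hcon.2, hcf v k⟩)
        rcases h5 with h5 | h5
        · rw [h5] at h4 ⊢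
          simp only [gsum] at h4
          simpa using h4
        · rw [h5] at h4 ⊢
          simp only [gsum] at h4
          simpa using h4
      have h6 := (Finset.sum_eq_zero_iff.1 hz) v (Finset.mem_univ _)
      have h7 := (Finset.sum_eq_zero_iff.1 h6) k (Finset.mem_univ _)
      simpa using h7
  · rintro ⟨h1, h2, h3⟩
    refine ⟨h1, ?_, ?_, ?_⟩
    · intro y hy
      simp at hy
      omega
    · intro y hy
      rw [List.mem_ofFn'] at hy
      obtain ⟨u, rfl⟩ := hy
      exact h1 u
    · intro f hf
      rw [hg, hc, A_Glob_csumF]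
      by_cases f1 : f = 1
      · subst f1
        have : ∑ v, ∑ j, (if cor v j = 1 then x v j else 0) = 0 := by
          refine Finset.sum_eq_zero fun v _ => Finset.sum_eq_zero fun j _ => ?_
          split_ifs with hvj
          · exact h3 v j (fun h => ((hmem _).1 h).1 hvj)
          · rfl
        rw [this]
        simp [gsum]
      · by_cases f0 : f = 0
        · subst f0
          have : ∑ v, ∑ j, (if cor v j = 0 then x v j else 0) = 0 := by
            refine Finset.sum_eq_zero fun v _ => Finset.sum_eq_zero fun j _ => ?_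
            split_ifs with hvj
            · exact h3 v j (fun h => ((hmem _).1 h).2.1 hvj)
            · rfl
          rw [this]
          simp [gsum]
        · rw [h2 f ((hmem f).2 ⟨f1, f0, hf⟩)]
          simp [gsum, Ne.symm f1, Ne.symm f0]

/-- the start of the sweep -/
private theorem A_Glob_start (N : ℕ) (t : ℕ → ℕ) (w : List TPiece) :
    GLs N t w Sweep.init [] = GV N t 0 w [N, N] := by
  classical
  unfold GLs
  simp only [Sweep.init, List.length_cons, List.length_nil, zero_add, Nat.reduceAdd, sumL]
  have hA : ∀ a b : ℕ, AdmG N ⟨[0, 1], [0, 1], 2, []⟩ [] [a, b] ↔ a = N ∧ b = N := by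
    intro a b
    constructor
    · rintro ⟨-, -, h⟩
      have h0 := h 0 (by simp)
      have h1 := h 1 (by simp)
      simp [gsum, csumF] at h0 h1
      exact ⟨h0, h1⟩
    · rintro ⟨rfl, rfl⟩
      refine ⟨by simp, by simp, ?_⟩
      intro f hf
      simp at hf
      rcases hf with rfl | rfl <;> simp [gsum, csumF]
  rw [Finset.sum_eq_single N, Finset.sum_eq_single N]
  · rw [if_pos ((hA N N).2 ⟨rfl, rfl⟩)]
  · intro b _ hb
    rw [if_neg (fun h => hb ((hA N b).1 h).2)]
  · intro h
    exact absurd (Finset.mem_range.2 (Nat.lt_succ_self N)) h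
  · intro a _ ha
    refine Finset.sum_eq_zero fun b _ => ?_
    rw [if_neg (fun h => ha ((hA a b).1 h).1)]
  · intro h
    exact absurd (Finset.mem_range.2 (Nat.lt_succ_self N)) h

theorem clock (N : ℕ) (w : List TPiece) (c : ℕ) (F : Finset ℕ) (cor : Fin c → Fin 4 → ℕ)
    (h : IsTemplate w c F cor) (t : ℕ → ℕ) (ht : ∀ v < c, t v ≤ N) :
    evalT (qz N) N t 0 w (fun l => if l = [0] then 1 else 0) [0] =
      clockSum (qz N) F cor N (fun v => t v) := by
  classical
  obtain ⟨S, hx, hg, hc, hF⟩ := h
  have hI : InvA S := Inv_sweep _ _ w Inv_init hx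
  have hlen : S.cor.length = c := by rw [hc, List.length_ofFn]
  have hn : numTw w = c := by
    have := cor_length_sweep _ _ w hx
    rw [hlen] at this
    simpa [Sweep.init] using this.symm
  have e0 : evalT (qz N) N t 0 w (fun l => if l = [0] then 1 else 0) [0] = GV N t 0 w [N, N] := by
    unfold GV
    rw [Psi_init]
  rw [e0, ← A_Glob_start, glob N t w Sweep.init S [] Inv_init (by simp [Sweep.init]) (by simp) hx hg
    (by rw [hlen]; exact ht), hn]
  have e1 : (Sweep.init).cor.length = 0 := by simp [Sweep.init]
  rw [e1, sumS_eq]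
  unfold clockSum
  simp only [zero_add]
  refine Finset.sum_congr rfl fun x _ => ?_
  have hst := A_Glob_state N c F cor S hI hg hc hF x
  by_cases h1 : ∀ u, ∑ j, x u j = N
  · by_cases h2 : AdmG N S (List.ofFn x) [N, N]
    · rw [if_pos h1, if_pos (hst.1 ⟨h1, h2⟩)]
      simp [h2]
    · rw [if_pos h1, if_neg (fun h => h2 (hst.2 h).2)]
      simp [h2]
  · rw [if_neg h1, if_neg (fun h => h1 (hst.2 h).1)]

end Pool.Agent.H63.CLK
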