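import Pool.Agent.H63.CLK.A_Fill
import Pool.Agent.H63.CLK.A_Glob

/-! # The colored Jones polynomial of a filled template -/

namespace Pool.Agent.H63.CLK

open Pool.Agent.H63.VC7 Pool.Agent.H63.VC10

theorem A_Jones_clockSum (q : ℂ) {c : ℕ} (F : Finset ℕ) (cor : Fin c → Fin 4 → ℕ) (N : ℕ)
    (t : Fin c → ℕ) : clockSum q F cor N (fun v => extT t v) = clockSum q F cor N t := by
  congr 1
  funext v
  exact extT_val t v

/-- The value of the colored Jones polynomial of a filled template at the root of unity. -/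
theorem longJones_clock (N : ℕ) (w : List TPiece) (c : ℕ) (F : Finset ℕ)
    (cor : Fin c → Fin 4 → ℕ) (h : IsTemplate w c F cor) (eta : ℤ → ℕ → ℂ)
    (heta : ∀ a : ℤ, (if 0 ≤ a then RM (qz N) N ^ a.natAbs else RiM (qz N) N ^ a.natAbs) =
      ∑ t ∈ Finset.range (N + 1), eta a t • em (qz N) N t)
    (a : ℕ → ℤ) (e : ℤ) :
    longJones (fill a 0 w) e N (qz N) = qz N ^ ((N : ℤ) * (N + 2) * e) *
      ∑ t ∈ Fintype.piFinset (fun _ : Fin c => Finset.range (N + 1)),
        (∏ v : Fin c, eta (a v) (t v)) * clockSum (qz N) F cor N t := by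
  obtain ⟨S, hS, hg, hcor, hF⟩ := id h
  have hc : numTw w = c := by
    have h1 := cor_length_sweep Sweep.init S w hS
    rw [hcor, List.length_ofFn] at h1
    simp only [Sweep.init, List.length_nil] at h1
    omega
  subst hc
  have hw := A_Fill_WF_sweep w Sweep.init S hS 1 rfl
  have hψ : A_Fill_Sup N 1 (fun l => if l = [0] then (1 : ℂ) else 0) := by
    intro l hl
    have h1 : l = [0] := by
      by_contra h1
      exact hl (if_neg h1)
    subst h1
    exact ⟨rfl, by simp⟩
  rw [longJones, fill_expand (qz N) N eta heta w 1 hw a _ hψ]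
  congr 1
  refine Finset.sum_congr rfl fun t ht => ?_
  rw [Fintype.mem_piFinset] at ht
  rw [clock N w (numTw w) F cor h (extT t) ?_, A_Jones_clockSum]
  intro v hv
  have h2 := Finset.mem_range.1 (ht ⟨v, hv⟩)
  rw [extT, dif_pos hv]
  omega

end Pool.Agent.H63.CLK
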