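import Pool.Agent.H63.CLK.A_Em

/-! # The local vectors and the action of the turn backs on them -/

namespace Pool.Agent.H63.CLK

open Pool.Agent.H63.VC7 Pool.Agent.H63.VC10 Matrix

theorem A_Loc_poly (q : ℂ) (hq : q ≠ 0) (α β x y : ℤ) :
    q ^ (α + x - (β + y)) * (br q (α + x + 1) * br q (β + y) + br q (α + x) * br q (β + y + 1)) *
        (br q (x + 1) * br q (y + 1)) +
      br q (α + x) * br q (β + y + 1) * (q ^ (α - 2 * y - 1 - β) * (br q x * br q (x + 1))) +
      q ^ (2 * (α + x) - 2 * (β + y) + 2) * (br q (α + x + 1) * br q (β + y)) *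
        (q ^ (-α + 2 * y - 1 + β) * (br q y * br q (y + 1))) =
    br q (x + y + 1) * (br q (x + y) * (br q (x + 1) * br q (y + 1)) +
      br q (x + y + 1) * (q ^ (α + x) * (br q α * br q (y + 1))) +
      br q (x + y + 1) * (q ^ (-(β + y)) * (br q β * br q (x + 1))) +
      br q (x + y + 2) * (q ^ (α + x - (β + y)) * (br q α * br q β))) := by
  unfold br
  have hA : q ^ α ≠ 0 := zpow_ne_zero _ hq
  have hC : q ^ β ≠ 0 := zpow_ne_zero _ hq
  have hX : q ^ x ≠ 0 := zpow_ne_zero _ hq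
  have hY : q ^ y ≠ 0 := zpow_ne_zero _ hq
  simp only [neg_add_rev, sub_eq_add_neg, zpow_add₀ hq, _root_.zpow_neg, two_mul, zpow_ofNat]
  generalize q ^ α = A at *
  generalize q ^ β = C at *
  generalize q ^ x = X at *
  generalize q ^ y = Y at *
  field_simp
  ring

/-- The inverse of the factorial, for integers. -/
noncomputable def ib (N : ℕ) (n : ℤ) : ℂ := if 0 ≤ n then (brf (qz N) n.toNat)⁻¹ else 0

theorem ib_nat (N n : ℕ) : ib N (n : ℤ) = (brf (qz N) n)⁻¹ := by
  rw [ib, if_pos (by omega), Int.toNat_natCast]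

theorem ib_neg (N : ℕ) {n : ℤ} (h : n < 0) : ib N n = 0 := by
  rw [ib, if_neg (by omega)]

theorem ib_zero (N : ℕ) : ib N 0 = 1 := by
  have := ib_nat N 0
  rw [brf_zero, inv_one] at this
  exact_mod_cast this

/-- `1 / (n - 1)! = {n} / n!`. -/
theorem ib_pred (N : ℕ) {n : ℤ} (h : n ≤ N) : ib N (n - 1) = br (qz N) n * ib N n := by
  rcases lt_trichotomy n 0 with h0 | h0 | h0
  · rw [ib_neg N h0, ib_neg N (by omega), mul_zero]
  · subst h0
    rw [ib_neg N (by omega), br_zero, zero_mul]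
  · obtain ⟨m, rfl⟩ : ∃ m : ℕ, n = (m : ℤ) + 1 := ⟨(n - 1).toNat, by omega⟩
    rw [show (m : ℤ) + 1 - 1 = (m : ℤ) by ring, ib_nat,
      show (m : ℤ) + 1 = ((m + 1 : ℕ) : ℤ) by push_cast; ring, ib_nat, brf_succ]
    have h1 : br (qz N) ((m : ℤ) + 1) ≠ 0 := A_Em_br_ne N (by omega) h
    have h2 : brf (qz N) m ≠ 0 := A_Em_brf_ne N (by omega)
    push_cast
    field_simp

theorem ib_pred' (N : ℕ) {n : ℤ} (h : n + 1 ≤ N) : ib N n = br (qz N) (n + 1) * ib N (n + 1) := by
  have := ib_pred N h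
  rwa [show n + 1 - 1 = n by ring] at this

/-- The local vector: the coefficient of `e_a ⊗ e_b` in the product of the divided powers of the
left gap, the middle gap and the right gap. -/
noncomputable def flz (N : ℕ) (α B β a b : ℤ) : ℂ :=
  if a + b = α + B + β then
    qz N ^ (-(α * α) - (a - α) * α - (b - β) * (b - β) - β * (b - β)) *
      (ib N α * ib N (a - α) * (ib N (b - β) * ib N β)) else 0

theorem flz_neg (N : ℕ) {α B β a b : ℤ} (h : α < 0 ∨ β < 0 ∨ a < α ∨ b < β) :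
    flz N α B β a b = 0 := by
  unfold flz
  split_ifs
  · rcases h with h | h | h | h
    · rw [ib_neg N h]; ring
    · rw [ib_neg N h]; ring
    · rw [ib_neg N (show a - α < 0 by omega)]; ring
    · rw [ib_neg N (show b - β < 0 by omega)]; ring
  · rfl

/-- The action of one turn back. -/
theorem A_Loc_E1 (N : ℕ) (hN : 1 ≤ N) (α B β a b : ℤ) (ha : 0 ≤ a) (ha' : a ≤ N) (hb : 0 ≤ b) (hb' : b ≤ N)
    (hα : α ≤ N) (hβ : β ≤ N) (hB : B ≤ N) :
    qz N ^ (a - b) * (br (qz N) (a + 1) * br (qz N) b + br (qz N) a * br (qz N) (b + 1)) *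
        flz N α B β a b +
      br (qz N) a * br (qz N) (b + 1) * flz N α B β (a - 1) (b + 1) +
      qz N ^ (2 * a - 2 * b + 2) * (br (qz N) (a + 1) * br (qz N) b) *
        flz N α B β (a + 1) (b - 1) =
    br (qz N) (B + 1) * (br (qz N) B * flz N α B β a b +
      br (qz N) (B + 1) * flz N (α - 1) (B + 1) β a b +
      br (qz N) (B + 1) * flz N α (B + 1) (β - 1) a b +
      br (qz N) (B + 2) * flz N (α - 1) (B + 2) (β - 1) a b) := by
  by_cases hs : a + b = α + B + β
  swap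
  · unfold flz
    rw [if_neg hs, if_neg (by omega), if_neg (by omega), if_neg (by omega), if_neg (by omega),
      if_neg (by omega)]
    ring
  have hq := A_Em_qz_ne N
  -- coordinates
  obtain ⟨x, rfl⟩ : ∃ x, a = α + x := ⟨a - α, by ring⟩
  obtain ⟨y, rfl⟩ : ∃ y, b = β + y := ⟨b - β, by ring⟩
  obtain rfl : B = x + y := by omega
  unfold flz
  rw [if_pos (by ring), if_pos (by ring), if_pos (by ring), if_pos (by ring), if_pos (by ring),
    if_pos (by ring)]
  have e0 : α + x - α = x := by ring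
  have e0' : β + y - β = y := by ring
  have e1 : α + x - 1 - α = x - 1 := by ring
  have e2 : β + y + 1 - β = y + 1 := by ring
  have e3 : α + x + 1 - α = x + 1 := by ring
  have e4 : β + y - 1 - β = y - 1 := by ring
  have e5 : α + x - (α - 1) = x + 1 := by ring
  have e6 : β + y - (β - 1) = y + 1 := by ring
  rw [e0, e0', e1, e2, e3, e4, e5, e6]
  set F := qz N ^ (-(α * α) - x * α - y * y - β * y) with hF
  have z1 : qz N ^ (-(α * α) - (x - 1) * α - (y + 1) * (y + 1) - β * (y + 1)) =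
      F * qz N ^ (α - 2 * y - 1 - β) := by
    rw [hF, ← zpow_add₀ hq]; congr 1; ring
  have z2 : qz N ^ (-(α * α) - (x + 1) * α - (y - 1) * (y - 1) - β * (y - 1)) =
      F * qz N ^ (-α + 2 * y - 1 + β) := by
    rw [hF, ← zpow_add₀ hq]; congr 1; ring
  have z3 : qz N ^ (-((α - 1) * (α - 1)) - (x + 1) * (α - 1) - y * y - β * y) =
      F * qz N ^ (α + x) := by
    rw [hF, ← zpow_add₀ hq]; congr 1; ring
  have z4 : qz N ^ (-(α * α) - x * α - (y + 1) * (y + 1) - (β - 1) * (y + 1)) =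
      F * qz N ^ (-(β + y)) := by
    rw [hF, ← zpow_add₀ hq]; congr 1; ring
  have z5 : qz N ^ (-((α - 1) * (α - 1)) - (x + 1) * (α - 1) - (y + 1) * (y + 1) -
      (β - 1) * (y + 1)) = F * qz N ^ (α + x - (β + y)) := by
    rw [hF, ← zpow_add₀ hq]; congr 1; ring
  rw [z1, z2, z3, z4, z5, ib_pred N hα, ib_pred N hβ]
  by_cases hα0 : α < 0
  · rw [ib_neg N hα0]; ring
  by_cases hβ0 : β < 0
  · rw [ib_neg N hβ0]; ring
  have hxN : x ≤ N := by omega
  have hyN : y ≤ N := by omega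
  rw [ib_pred N hxN, ib_pred N hyN]
  rcases hxN.lt_or_eq with hx | hx
  · rcases hyN.lt_or_eq with hy | hy
    · rw [ib_pred' N (show x + 1 ≤ N by omega), ib_pred' N (show y + 1 ≤ N by omega)]
      have P := A_Loc_poly (qz N) hq α β x y
      linear_combination (F * (ib N α * ib N (x + 1) * (ib N (y + 1) * ib N β))) * P
    · -- y = N, β = 0
      obtain rfl : β = 0 := by omega
      subst hy
      have hM := A_Em_br_M N
      have hM1 : br (qz N) (0 + (N : ℤ) + 1) = 0 := by rw [zero_add]; exact hM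
      rcases (show x < -1 ∨ x = -1 ∨ x = 0 by omega) with h | rfl | rfl
      · rw [ib_neg N (show x < 0 by omega), ib_neg N (show x + 1 < 0 by omega)]; ring
      · rw [ib_neg N (show (-1 : ℤ) < 0 by omega), hM1, br_zero,
          show (-1 : ℤ) + 1 = 0 by ring, ib_zero, show (-1 : ℤ) + N + 1 = N by ring,
          show α + -1 + 1 = α by ring]
        have z : qz N ^ (2 * (α + -1) - 2 * (0 + (N : ℤ)) + 2) * qz N ^ (-α + 2 * (N : ℤ) - 1 + 0) =
            qz N ^ (α + -1) := by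
          rw [← zpow_add₀ hq]; congr 1; ring
        simp only [zero_add] at z ⊢
        linear_combination (br (qz N) α * br (qz N) (N : ℤ) * (F * (ib N α * (br (qz N) (N : ℤ) *
          ib N (N : ℤ))))) * z
      · have hN1 : (0 : ℤ) + 1 ≤ N := by omega
        have h1 := ib_pred' N hN1
        rw [ib_zero, zero_add] at h1
        have h2 := A_Em_refl N 1
        rw [show (N : ℤ) + 1 - 1 = N by ring] at h2
        have z : qz N ^ (2 * α - 2 * (N : ℤ) + 2) * qz N ^ (-α + 2 * (N : ℤ) - 1) =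
            -qz N ^ (α - (N : ℤ)) := by
          rw [← zpow_add₀ hq, show (2 * α - 2 * (N : ℤ) + 2 + (-α + 2 * (N : ℤ) - 1)) =
            (α - (N : ℤ)) + ((N : ℤ) + 1) by ring, zpow_add₀ hq, A_Em_qz_M]
          ring
        simp only [zero_add, add_zero, sub_zero, ib_zero, br_zero, hM, h2, zero_mul, mul_zero]
        linear_combination (br (qz N) (α + 1) * br (qz N) 1 * (F * (ib N α * ib N 1 * (br (qz N) 1 *
          ib N (N : ℤ))))) * z + (qz N ^ (α - (N : ℤ)) * br (qz N) (α + 1) *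
          br (qz N) 1 * F * ib N α * ib N (N : ℤ)) * h1
  · -- x = N, α = 0
    obtain rfl : α = 0 := by omega
    subst hx
    have hM := A_Em_br_M N
    have hM1 : br (qz N) (0 + (N : ℤ) + 1) = 0 := by rw [zero_add]; exact hM
    rcases (show y < -1 ∨ y = -1 ∨ y = 0 by omega) with h | rfl | rfl
    · rw [ib_neg N (show y < 0 by omega), ib_neg N (show y + 1 < 0 by omega)]; ring
    · rw [ib_neg N (show (-1 : ℤ) < 0 by omega), hM1, br_zero,
        show (-1 : ℤ) + 1 = 0 by ring, ib_zero, show (N : ℤ) + -1 + 1 = N by ring,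
        show β + -1 + 1 = β by ring]
      have z : qz N ^ ((0 : ℤ) - 2 * (-1) - 1 - β) = qz N ^ (-(β + -1)) := by
        congr 1; ring
      rw [z, zero_add]
      ring
    · have hN1 : (0 : ℤ) + 1 ≤ N := by omega
      have h1 := ib_pred' N hN1
      rw [ib_zero, zero_add] at h1
      have h2 := A_Em_refl N 1
      rw [show (N : ℤ) + 1 - 1 = N by ring] at h2
      have z : qz N ^ (-1 - β) = -qz N ^ ((N : ℤ) - β) := by
        rw [show (N : ℤ) - β = (-1 - β) + ((N : ℤ) + 1) by ring,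
          zpow_add₀ hq, A_Em_qz_M]
        ring
      simp only [zero_add, add_zero, sub_zero, ib_zero, br_zero, hM, h2, zero_mul, mul_zero, zero_sub, z]
      linear_combination (qz N ^ ((N : ℤ) - β) * br (qz N) (β + 1) *
        br (qz N) 1 * F * ib N (N : ℤ) * ib N β) * h1

/-! ### The coefficients -/

/-- The falling factorial `{S} {S - 1} ⋯ {S - j + 1}`. -/
noncomputable def ffz (N : ℕ) (S : ℤ) (j : ℕ) : ℂ := ∏ i ∈ Finset.range j, br (qz N) (S - i)

theorem ffz_succ (N : ℕ) (S : ℤ) (j : ℕ) :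
    ffz N S (j + 1) = ffz N S j * br (qz N) (S - j) := by
  unfold ffz; rw [Finset.prod_range_succ]

theorem ffz_shift (N : ℕ) (S : ℤ) (j : ℕ) :
    ffz N (S - 1) j * br (qz N) S = ffz N S j * br (qz N) (S - j) := by
  rw [← ffz_succ, ffz, ffz, Finset.prod_range_succ', Nat.cast_zero, sub_zero]
  congr 1
  refine Finset.prod_congr rfl fun i _ => ?_
  congr 1
  push_cast
  ring

/-- The `q`-binomial coefficient for integers. -/
noncomputable def qbz (N n : ℕ) (s : ℤ) : ℂ := brf (qz N) n * (ib N s * ib N (n - s))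

theorem qbz_out (N n : ℕ) {s : ℤ} (h : s < 0 ∨ n < s) : qbz N n s = 0 := by
  unfold qbz
  rcases h with h | h
  · rw [ib_neg N h]; ring
  · rw [ib_neg N (show (n : ℤ) - s < 0 by omega)]; ring

/-- The coefficient of the action of `j` turn backs. -/
noncomputable def Kc (N j : ℕ) (B sL sR : ℤ) : ℂ :=
  qbz N j sL * qbz N j sR * (qbz N (N - j) B * brf (qz N) (N - j) * ffz N (B + sL + sR) j)

theorem A_Loc_pascal (N j : ℕ) (hj : j + 1 ≤ N) (a S : ℤ) :
    qbz N j a * br (qz N) (S + (j + 1)) + qbz N j (a - 1) * br (qz N) S =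
      qbz N (j + 1) a * br (qz N) (S + (j + 1) - a) := by
  by_cases ha : (j : ℤ) + 1 < a
  · rw [qbz_out N j (Or.inr (by omega)), qbz_out N j (Or.inr (by omega)),
      qbz_out N (j + 1) (Or.inr (by push_cast; omega))]
    ring
  unfold qbz
  rw [brf_succ, ib_pred N (show a ≤ N by omega), show (j : ℤ) - (a - 1) = (j : ℤ) + 1 - a by ring,
    show ((j + 1 : ℕ) : ℤ) - a = (j : ℤ) + 1 - a by push_cast; ring]
  by_cases ha0 : a < 0
  · rw [ib_neg N ha0]; ring
  have h2 := ib_pred N (show (j : ℤ) + 1 - a ≤ N by omega)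
  rw [show (j : ℤ) + 1 - a - 1 = (j : ℤ) - a by ring] at h2
  rw [h2]
  have h3 := br_three_term (qz N) (A_Em_qz_ne N) ((j : ℤ) + 1) ((j : ℤ) + 1 - a) S
  rw [show (j : ℤ) + 1 - a + S = S + (j + 1) - a by ring, show (j : ℤ) + 1 + S = S + (j + 1) by ring,
    show (j : ℤ) + 1 - ((j : ℤ) + 1 - a) = a by ring] at h3
  linear_combination (-(brf (qz N) j * ib N a * ib N ((j : ℤ) + 1 - a))) * h3

/-- The recursion for the coefficients. -/
theorem Kc_succ (N j : ℕ) (hj : j + 1 ≤ N) (B sL sR : ℤ) (hB : 0 ≤ B) :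
    br (qz N) ((j : ℤ) + 1) ^ 2 * Kc N (j + 1) B sL sR =
      Kc N j B sL sR * (br (qz N) (B + sL + sR + 1) * br (qz N) (B + sL + sR) -
        br (qz N) (j : ℤ) * br (qz N) ((j : ℤ) + 1)) +
      Kc N j B (sL - 1) sR * (br (qz N) (B + sL + sR) * br (qz N) (B + sL + sR)) +
      Kc N j B sL (sR - 1) * (br (qz N) (B + sL + sR) * br (qz N) (B + sL + sR)) +
      Kc N j B (sL - 1) (sR - 1) * (br (qz N) (B + sL + sR - 1) * br (qz N) (B + sL + sR)) := by
  have hq := A_Em_qz_ne N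
  obtain ⟨k, hk⟩ : ∃ k, N - j = k + 1 := ⟨N - j - 1, by omega⟩
  have hk' : N - (j + 1) = k := by omega
  unfold Kc
  rw [hk, hk']
  set S : ℤ := B + sL + sR with hS
  rw [show B + (sL - 1) + sR = S - 1 by rw [hS]; ring, show B + sL + (sR - 1) = S - 1 by rw [hS]; ring,
    show B + (sL - 1) + (sR - 1) = S - 1 - 1 by rw [hS]; ring]
  -- relation (1)
  have h1 : br (qz N) ((j : ℤ) + 1) ^ 2 * (qbz N k B * brf (qz N) k) =
      br (qz N) ((j : ℤ) + 1 + B) * (qbz N (k + 1) B * brf (qz N) (k + 1)) := by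
    have e1 : br (qz N) ((k : ℤ) + 1) = br (qz N) ((j : ℤ) + 1) := by
      rw [← A_Em_refl N ((j : ℤ) + 1)]; congr 1; omega
    have e2 : br (qz N) ((k : ℤ) + 1 - B) = br (qz N) ((j : ℤ) + 1 + B) := by
      rw [← A_Em_refl N ((j : ℤ) + 1 + B)]; congr 1; omega
    have e3 := ib_pred N (show (k : ℤ) + 1 - B ≤ N by omega)
    rw [show (k : ℤ) + 1 - B - 1 = (k : ℤ) - B by ring, e2] at e3
    unfold qbz
    rw [brf_succ, e1, e3, show ((k + 1 : ℕ) : ℤ) - B = (k : ℤ) + 1 - B by push_cast; ring]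
    ring
  have f1 := ffz_shift N S j
  have f2 := ffz_shift N (S - 1) j
  rw [show (S - 1 - (j : ℤ)) = S - ((j : ℤ) + 1) by ring] at f2
  have t := br_three_term (qz N) hq S (S - j) ((j : ℤ) + 1)
  rw [show S - (j : ℤ) + (j + 1) = S + 1 by ring, show S - (S - (j : ℤ)) = j by ring] at t
  have p1 := A_Loc_pascal N j hj sL S
  have p2 := A_Loc_pascal N j hj sL (S - (j + 1))
  rw [show S - ((j : ℤ) + 1) + (j + 1) = S by ring] at p2
  have p3 := A_Loc_pascal N j hj sR (S - sL)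
  rw [show S - sL + ((j : ℤ) + 1) = S + (j + 1) - sL by ring,
    show S + ((j : ℤ) + 1) - sL - sR = (j : ℤ) + 1 + B by rw [hS]; ring] at p3
  rw [ffz_succ]
  generalize hP : qbz N (k + 1) B * brf (qz N) (k + 1) = P at *
  generalize ffz N S j = F0 at *
  generalize ffz N (S - 1) j = F1 at *
  generalize ffz N (S - 1 - 1) j = F2 at *
  generalize br (qz N) (S - ((j : ℤ) + 1)) = b1 at *
  generalize br (qz N) (S - (j : ℤ)) = b2 at *
  generalize br (qz N) (S + ((j : ℤ) + 1) - sL) = b3 at *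
  generalize br (qz N) ((j : ℤ) + 1 + B) = b4 at *
  generalize br (qz N) (S + ((j : ℤ) + 1)) = b5 at *
  generalize br (qz N) (S - sL) = b6 at *
  generalize br (qz N) (S + 1) = b7 at *
  generalize br (qz N) (S - 1) = b8 at *
  generalize br (qz N) S = b9 at *
  generalize br (qz N) ((j : ℤ) + 1) = b10 at *
  generalize br (qz N) (j : ℤ) = b11 at *
  generalize qbz N (j + 1) sL = Q1 at *
  generalize qbz N (j + 1) sR = Q2 at *
  generalize qbz N j sL = q1 at *
  generalize qbz N j sR = q2 at *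
  generalize qbz N j (sL - 1) = r1 at *
  generalize qbz N j (sR - 1) = r2 at *
  linear_combination (Q1 * Q2 * F0 * b2) * h1 - (P * F0 * b2 * q2) * p1 - (P * F0 * b2 * r2) * p2 -
    (P * F0 * b2 * Q1) * p3 - (q1 * q2 * P * F0) * t -
    ((r1 * q2 + q1 * r2) * P * b9 + r1 * r2 * P * b1) * f1 - (r1 * r2 * P * b9) * f2

/-- The action of `{N} ^ 2` times the turn back on a local vector. -/
theorem A_Loc_Y (N : ℕ) (hN : 1 ≤ N) (α B β : ℤ) (hα : α ≤ N) (hβ : β ≤ N) (hB : B ≤ N)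
    (x : I2 N) :
    ∑ y : I2 N, A_Em_Y (qz N) N x y * flz N α B β (y.1 : ℕ) (y.2 : ℕ) =
    br (qz N) (B + 1) * (br (qz N) B * flz N α B β (x.1 : ℕ) (x.2 : ℕ) +
      br (qz N) (B + 1) * flz N (α - 1) (B + 1) β (x.1 : ℕ) (x.2 : ℕ) +
      br (qz N) (B + 1) * flz N α (B + 1) (β - 1) (x.1 : ℕ) (x.2 : ℕ) +
      br (qz N) (B + 2) * flz N (α - 1) (B + 2) (β - 1) (x.1 : ℕ) (x.2 : ℕ)) := by
  obtain ⟨⟨a, ha⟩, ⟨b, hb⟩⟩ := x
  simp only
  rw [← A_Loc_E1 N hN α B β a b (by omega) (by omega) (by omega) (by omega) hα hβ hB]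
  have e : ∀ y : I2 N, A_Em_Y (qz N) N (⟨a, ha⟩, ⟨b, hb⟩) y * flz N α B β (y.1 : ℕ) (y.2 : ℕ) =
      (if a = (y.1 : ℕ) ∧ b = (y.2 : ℕ) then qz N ^ ((a : ℤ) - b) * (br (qz N) ((a : ℤ) + 1) *
        br (qz N) (b : ℤ) + br (qz N) (a : ℤ) * br (qz N) ((b : ℤ) + 1)) *
          flz N α B β (y.1 : ℕ) (y.2 : ℕ) else 0) +
      (if a = (y.1 : ℕ) + 1 ∧ b + 1 = (y.2 : ℕ) then br (qz N) (a : ℤ) * br (qz N) ((b : ℤ) + 1) *
          flz N α B β (y.1 : ℕ) (y.2 : ℕ) else 0) +
      (if a + 1 = (y.1 : ℕ) ∧ b = (y.2 : ℕ) + 1 then qz N ^ (2 * (a : ℤ) - 2 * b + 2) *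
          (br (qz N) ((a : ℤ) + 1) * br (qz N) (b : ℤ)) *
          flz N α B β (y.1 : ℕ) (y.2 : ℕ) else 0) := by
    rintro ⟨⟨c, hc⟩, ⟨d, hd⟩⟩
    rw [A_Em_Y_apply N a b c d hN ha hb hc hd]
    simp only [add_mul, ite_mul, zero_mul]
  simp only [e, Finset.sum_add_distrib]
  congr 1
  · congr 1
    · rw [CDrel_sum N a b, dif_pos ⟨ha, hb⟩]
    · rcases a with _ | a
      · rw [Finset.sum_eq_zero fun y _ => if_neg (by omega)]
        simp [br_zero]
      · have e' : ∀ y : I2 N, (a + 1 = (y.1 : ℕ) + 1 ∧ b + 1 = (y.2 : ℕ)) ↔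
            (a = (y.1 : ℕ) ∧ b + 1 = (y.2 : ℕ)) := fun y => by omega
        simp only [e']
        rw [CDrel_sum N a (b + 1)]
        by_cases hb1 : b + 1 < N + 1
        · rw [dif_pos ⟨by omega, hb1⟩]
          push_cast
          rw [show (a : ℤ) + 1 - 1 = a by ring]
        · rw [dif_neg (by omega)]
          obtain rfl : b = N := by omega
          rw [A_Em_br_M]
          ring
  · rcases b with _ | b
    · rw [Finset.sum_eq_zero fun y _ => if_neg (by omega)]
      simp [br_zero]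
    · have e' : ∀ y : I2 N, (a + 1 = (y.1 : ℕ) ∧ b + 1 = (y.2 : ℕ) + 1) ↔
          (a + 1 = (y.1 : ℕ) ∧ b = (y.2 : ℕ)) := fun y => by omega
      simp only [e']
      rw [CDrel_sum N (a + 1) b]
      by_cases ha1 : a + 1 < N + 1
      · rw [dif_pos ⟨ha1, by omega⟩]
        push_cast
        rw [show (b : ℤ) + 1 - 1 = b by ring]
      · rw [dif_neg (by omega)]
        obtain rfl : a = N := by omega
        rw [A_Em_br_M]
        ring

theorem A_Loc_shift1 (j : ℕ) (u v G : ℤ → ℂ) (hu : u ((j : ℤ) + 1) = 0) (hv : v (-1) = 0) :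
    ∑ s ∈ Finset.range (j + 1), (u s * G s + v s * G ((s : ℤ) + 1)) =
      ∑ s ∈ Finset.range (j + 2), (u s + v ((s : ℤ) - 1)) * G s := by
  simp only [add_mul, Finset.sum_add_distrib]
  congr 1
  · rw [Finset.sum_range_succ _ (j + 1)]
    push_cast
    rw [hu, zero_mul, add_zero]
  · rw [Finset.sum_range_succ' _ (j + 1)]
    push_cast
    norm_num [hv]

theorem A_Loc_shift2 (j : ℕ) (u00 u10 u01 u11 G : ℤ → ℤ → ℂ)
    (h00 : ∀ a, u00 a ((j : ℤ) + 1) = 0) (h00' : ∀ a, u00 ((j : ℤ) + 1) a = 0)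
    (h10 : ∀ a, u10 a ((j : ℤ) + 1) = 0) (h10' : ∀ a, u10 (-1) a = 0)
    (h01 : ∀ a, u01 a (-1) = 0) (h01' : ∀ a, u01 ((j : ℤ) + 1) a = 0)
    (h11 : ∀ a, u11 a (-1) = 0) (h11' : ∀ a, u11 (-1) a = 0) :
    ∑ a ∈ Finset.range (j + 1), ∑ b ∈ Finset.range (j + 1),
      (u00 a b * G a b + u10 a b * G ((a : ℤ) + 1) b + u01 a b * G a ((b : ℤ) + 1) +
        u11 a b * G ((a : ℤ) + 1) ((b : ℤ) + 1)) =
    ∑ a ∈ Finset.range (j + 2), ∑ b ∈ Finset.range (j + 2),
      (u00 a b + u10 ((a : ℤ) - 1) b + u01 a ((b : ℤ) - 1) + u11 ((a : ℤ) - 1) ((b : ℤ) - 1)) *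
        G a b := by
  have e1 : ∀ a : ℕ, ∑ b ∈ Finset.range (j + 1),
      (u00 a b * G a b + u10 a b * G ((a : ℤ) + 1) b + u01 a b * G a ((b : ℤ) + 1) +
        u11 a b * G ((a : ℤ) + 1) ((b : ℤ) + 1)) =
      ∑ b ∈ Finset.range (j + 2), ((u00 a b + u01 a ((b : ℤ) - 1)) * G a b +
        (u10 a b + u11 a ((b : ℤ) - 1)) * G ((a : ℤ) + 1) b) := by
    intro a
    rw [Finset.sum_add_distrib (s := Finset.range (j + 2)),
      ← A_Loc_shift1 j (u00 a) (u01 a) (G a) (h00 _) (h01 _),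
      ← A_Loc_shift1 j (u10 a) (u11 a) (G ((a : ℤ) + 1)) (h10 _) (h11 _), ← Finset.sum_add_distrib]
    refine Finset.sum_congr rfl fun b _ => ?_
    ring
  rw [Finset.sum_congr rfl fun a _ => e1 a, Finset.sum_comm,
    Finset.sum_comm (s := Finset.range (j + 2)) (t := Finset.range (j + 2))]
  refine Finset.sum_congr rfl fun b _ => ?_
  have := A_Loc_shift1 j (fun a => u00 a b + u01 a ((b : ℤ) - 1))
    (fun a => u10 a b + u11 a ((b : ℤ) - 1)) (fun a => G a b)
    (by simp only [h00', h01', add_zero]) (by simp only [h10', h11', add_zero])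
  rw [this]
  refine Finset.sum_congr rfl fun a _ => ?_
  ring

theorem Kc_big (N j : ℕ) (hj : j ≤ N) (B sL sR : ℤ) (hL : sL ≤ j) (hR : sR ≤ j)
    (h : N < B + sL + sR) : Kc N j B sL sR = 0 := by
  unfold Kc
  by_cases hB' : ((N - j : ℕ) : ℤ) < B
  · rw [qbz_out N (N - j) (Or.inr hB')]; ring
  · have : ffz N (B + sL + sR) j = 0 := by
      unfold ffz
      refine Finset.prod_eq_zero (i := (B + sL + sR - (N + 1)).toNat) ?_ ?_
      · rw [Finset.mem_range]; omega
      · rw [show B + sL + sR - (((B + sL + sR - ((N : ℤ) + 1)).toNat : ℕ) : ℤ) = (N : ℤ) + 1 by omega]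
        exact A_Em_br_M N
    rw [this]; ring

/-- The action of `j` turn backs on a local vector. -/
theorem A_Loc_em (N j : ℕ) (hj : j ≤ N) (α B β : ℤ) (hα : α ≤ N) (hβ : β ≤ N) (hB0 : 0 ≤ B)
    (hB : B ≤ N) (x : I2 N) :
    brf (qz N) N * ∑ y : I2 N, VC10.em (qz N) N j x y * flz N α B β (y.1 : ℕ) (y.2 : ℕ) =
      ∑ sL ∈ Finset.range (j + 1), ∑ sR ∈ Finset.range (j + 1), Kc N j B sL sR *
        flz N (α - sL) (B + sL + sR) (β - sR) (x.1 : ℕ) (x.2 : ℕ) := by
  induction j generalizing x with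
  | zero =>
    rw [A_Em_em_zero]
    simp only [Matrix.one_apply, ite_mul, one_mul, zero_mul, Finset.sum_ite_eq, Finset.mem_univ,
      if_true, zero_add, Finset.range_one, Finset.sum_singleton, Nat.cast_zero, sub_zero, add_zero]
    unfold Kc qbz ffz
    obtain ⟨b, rfl⟩ : ∃ b : ℕ, B = b := ⟨B.toNat, by omega⟩
    have e1 : (N : ℤ) - (b : ℤ) = ((N - b : ℕ) : ℤ) := by omega
    have h1 := A_Em_brf_mul N b (by omega)
    have h2 : brf (qz N) b ≠ 0 := A_Em_brf_ne N (by omega)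
    have h3 : brf (qz N) (N - b) ≠ 0 := A_Em_brf_ne N (by omega)
    simp only [Nat.sub_zero, Nat.cast_zero, sub_zero, ib_zero, brf_zero, Finset.range_zero,
      Finset.prod_empty, e1, ib_nat]
    rw [← h1]
    field_simp
  | succ j ih =>
    have hN : 1 ≤ N := by omega
    have hb : br (qz N) ((j : ℤ) + 1) ≠ 0 := A_Em_br_ne N (by omega) (by omega)
    apply mul_left_cancel₀ (pow_ne_zero 2 hb)
    have hrec := A_Em_rec_root N j (by omega)
    have e0 : ∀ y, br (qz N) ((j : ℤ) + 1) ^ 2 * VC10.em (qz N) N (j + 1) x y =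
        ∑ z, A_Em_Y (qz N) N x z * VC10.em (qz N) N j z y -
          br (qz N) (j : ℤ) * br (qz N) ((j : ℤ) + 1) * VC10.em (qz N) N j x y := by
      intro y
      have := congrFun (congrFun hrec x) y
      simpa only [Matrix.smul_apply, Matrix.sub_apply, Matrix.mul_apply, smul_eq_mul] using this
    have e1 : br (qz N) ((j : ℤ) + 1) ^ 2 * (brf (qz N) N * ∑ y : I2 N, VC10.em (qz N) N (j + 1) x y *
        flz N α B β (y.1 : ℕ) (y.2 : ℕ)) =
        (∑ z, A_Em_Y (qz N) N x z * (brf (qz N) N * ∑ y : I2 N, VC10.em (qz N) N j z y *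
          flz N α B β (y.1 : ℕ) (y.2 : ℕ))) -
        br (qz N) (j : ℤ) * br (qz N) ((j : ℤ) + 1) * (brf (qz N) N * ∑ y : I2 N,
          VC10.em (qz N) N j x y * flz N α B β (y.1 : ℕ) (y.2 : ℕ)) := by
      have : br (qz N) ((j : ℤ) + 1) ^ 2 * (brf (qz N) N * ∑ y : I2 N,
          VC10.em (qz N) N (j + 1) x y * flz N α B β (y.1 : ℕ) (y.2 : ℕ)) =
          brf (qz N) N * ∑ y : I2 N, (br (qz N) ((j : ℤ) + 1) ^ 2 * VC10.em (qz N) N (j + 1) x y) *
            flz N α B β (y.1 : ℕ) (y.2 : ℕ) := by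
        rw [mul_left_comm, Finset.mul_sum]
        simp only [mul_assoc]
      rw [this]
      simp only [e0, sub_mul, Finset.sum_sub_distrib, Finset.sum_mul, mul_sub, Finset.mul_sum]
      rw [Finset.sum_comm]
      congr 1
      · refine Finset.sum_congr rfl fun z _ => Finset.sum_congr rfl fun y _ => ?_
        ring
      · refine Finset.sum_congr rfl fun y _ => ?_
        ring
    rw [e1]
    have ih' := fun z => ih (by omega) z
    simp only [ih']
    -- the action of `Y` on the terms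
    have e2 : ∑ z : I2 N, A_Em_Y (qz N) N x z * ∑ sL ∈ Finset.range (j + 1),
        ∑ sR ∈ Finset.range (j + 1), Kc N j B sL sR *
          flz N (α - sL) (B + sL + sR) (β - sR) (z.1 : ℕ) (z.2 : ℕ) =
        ∑ sL ∈ Finset.range (j + 1), ∑ sR ∈ Finset.range (j + 1), Kc N j B sL sR *
          (br (qz N) (B + sL + sR + 1) * (br (qz N) (B + sL + sR) *
            flz N (α - sL) (B + sL + sR) (β - sR) (x.1 : ℕ) (x.2 : ℕ) +
          br (qz N) (B + sL + sR + 1) *
            flz N (α - sL - 1) (B + sL + sR + 1) (β - sR) (x.1 : ℕ) (x.2 : ℕ) +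
          br (qz N) (B + sL + sR + 1) *
            flz N (α - sL) (B + sL + sR + 1) (β - sR - 1) (x.1 : ℕ) (x.2 : ℕ) +
          br (qz N) (B + sL + sR + 2) *
            flz N (α - sL - 1) (B + sL + sR + 2) (β - sR - 1) (x.1 : ℕ) (x.2 : ℕ))) := by
      simp only [Finset.mul_sum]
      rw [Finset.sum_comm]
      refine Finset.sum_congr rfl fun sL hL => ?_
      rw [Finset.sum_comm]
      refine Finset.sum_congr rfl fun sR hR => ?_
      have hL' := Finset.mem_range.1 hL
      have hR' := Finset.mem_range.1 hR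
      by_cases hbig : (N : ℤ) < B + sL + sR
      · rw [Kc_big N j (by omega) B sL sR (by omega) (by omega) hbig]
        simp
      · rw [← A_Loc_Y N hN (α - sL) (B + sL + sR) (β - sR) (by omega) (by omega) (by omega) x,
          Finset.mul_sum]
        refine Finset.sum_congr rfl fun z _ => ?_
        ring
    rw [e2, Finset.mul_sum, ← Finset.sum_sub_distrib]
    simp only [Finset.mul_sum, ← Finset.sum_sub_distrib]
    have K1 : ∀ a b : ℤ, (b < 0 ∨ (j : ℤ) < b) → Kc N j B a b = 0 := by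
      intro a b h
      unfold Kc
      rw [qbz_out N j h]; ring
    have K2 : ∀ a b : ℤ, (a < 0 ∨ (j : ℤ) < a) → Kc N j B a b = 0 := by
      intro a b h
      unfold Kc
      rw [qbz_out N j h]; ring
    have key := A_Loc_shift2 j
      (fun a b => Kc N j B a b * (br (qz N) (B + a + b + 1) * br (qz N) (B + a + b) -
        br (qz N) (j : ℤ) * br (qz N) ((j : ℤ) + 1)))
      (fun a b => Kc N j B a b * (br (qz N) (B + a + b + 1) * br (qz N) (B + a + b + 1)))
      (fun a b => Kc N j B a b * (br (qz N) (B + a + b + 1) * br (qz N) (B + a + b + 1)))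
      (fun a b => Kc N j B a b * (br (qz N) (B + a + b + 1) * br (qz N) (B + a + b + 2)))
      (fun a b => flz N (α - a) (B + a + b) (β - b) (x.1 : ℕ) (x.2 : ℕ))
      (fun a => by simp only [K1 a ((j : ℤ) + 1) (Or.inr (by omega)), zero_mul])
      (fun a => by simp only [K2 ((j : ℤ) + 1) a (Or.inr (by omega)), zero_mul])
      (fun a => by simp only [K1 a ((j : ℤ) + 1) (Or.inr (by omega)), zero_mul])
      (fun a => by simp only [K2 (-1) a (Or.inl (by omega)), zero_mul])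
      (fun a => by simp only [K1 a (-1) (Or.inl (by omega)), zero_mul])
      (fun a => by simp only [K2 ((j : ℤ) + 1) a (Or.inr (by omega)), zero_mul])
      (fun a => by simp only [K1 a (-1) (Or.inl (by omega)), zero_mul])
      (fun a => by simp only [K2 (-1) a (Or.inl (by omega)), zero_mul])
    refine Eq.trans ?_ (key.trans ?_)
    · refine Finset.sum_congr rfl fun a _ => Finset.sum_congr rfl fun b _ => ?_
      rw [show α - ((a : ℤ) + 1) = α - a - 1 by ring, show B + ((a : ℤ) + 1) + b = B + a + b + 1 by ring,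
        show B + (a : ℤ) + ((b : ℤ) + 1) = B + a + b + 1 by ring,
        show β - ((b : ℤ) + 1) = β - b - 1 by ring]
      rw [show B + ((a : ℤ) + 1) + ((b : ℤ) + 1) = B + a + b + 2 by ring]
      ring
    · refine Finset.sum_congr rfl fun a _ => Finset.sum_congr rfl fun b _ => ?_
      have hK := Kc_succ N j hj B a b hB0
      rw [show B + ((a : ℤ) - 1) + b + 1 = B + a + b by ring,
        show B + (a : ℤ) + ((b : ℤ) - 1) + 1 = B + a + b by ring,
        show B + ((a : ℤ) - 1) + ((b : ℤ) - 1) + 1 = B + a + b - 1 by ring,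
        show B + ((a : ℤ) - 1) + ((b : ℤ) - 1) + 2 = B + a + b by ring]
      linear_combination (-flz N (α - a) (B + a + b) (β - b) (x.1 : ℕ) (x.2 : ℕ)) * hK

end Pool.Agent.H63.CLK
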