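import Pool.Agent.H63.CLK.A_Loc

/-! # The intertwiner: definitions and expansions -/

namespace Pool.Agent.H63.CLK

open Pool.Agent.H63.VC7 Pool.Agent.H63.VC10

/-- The vector of the gaps `T` on the right of the strands of `l`; `y` is the part of the gap on the
left of the first strand which goes to this strand. -/
noncomputable def PW (N : ℕ) : List ℕ → ℕ → List ℕ → ℂ
  | [], _, _ => 0
  | [T], y, l => if T = N ∧ l = [y] ∧ y ≤ N then 1 else 0
  | _ :: _ :: _, _, [] => 0
  | T :: T' :: Ts, y, a :: as => if y ≤ a ∧ a ≤ N ∧ a ≤ y + T ∧ T ≤ N then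
      qz N ^ (-(((a : ℤ) - y) * y)) * ib N ((a : ℤ) - y) *
        (qz N ^ (-(((y : ℤ) + T - a) * ((y : ℤ) + T - a))) * ib N ((y : ℤ) + T - a) *
          PW N (T' :: Ts) (y + T - a) as) else 0

/-- The same with the factor of the left gap. -/
noncomputable def Tht (N : ℕ) (y : ℕ) (Ts l : List ℕ) : ℂ :=
  qz N ^ (-((y : ℤ) * y)) * ib N y * PW N Ts y l

/-- The part of the vector on the right of a gap `c` of which the part `β` goes to the left. -/
noncomputable def Rt (N c : ℕ) (Ts : List ℕ) (β : ℕ) (as : List ℕ) : ℂ :=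
  if Ts = [] then (if c = N ∧ β = 0 ∧ as = [] then 1 else 0)
  else (if β ≤ c ∧ c ≤ N then ib N β * Tht N (c - β) Ts as else 0)

theorem PW_len (N : ℕ) (Ts : List ℕ) (y : ℕ) (l : List ℕ) (h : l.length ≠ Ts.length) :
    PW N Ts y l = 0 := by
  induction Ts generalizing y l with
  | nil => rw [PW]
  | cons T Ts ih =>
    cases Ts with
    | nil =>
      rw [PW, if_neg]
      rintro ⟨_, h2, _⟩
      rw [h2] at h
      exact h rfl
    | cons T' Ts =>
      cases l with
      | nil => rw [PW]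
      | cons a as =>
        rw [PW, ih _ as (fun h' => h (by simp only [List.length_cons] at h' ⊢; omega))]
        simp

theorem Tht_len (N : ℕ) (Ts : List ℕ) (y : ℕ) (l : List ℕ) (h : l.length ≠ Ts.length) :
    Tht N y Ts l = 0 := by
  unfold Tht
  rw [PW_len N Ts y l h, mul_zero]

theorem Tht_zero (N : ℕ) (Ts l : List ℕ) : Tht N 0 Ts l = PW N Ts 0 l := by
  unfold Tht
  rw [Nat.cast_zero, ib_zero]
  simp

/-- Unfolding of one strand, with the factor of the next gap. -/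
theorem PW_cons (N T : ℕ) (Ts : List ℕ) (hTs : Ts ≠ []) (y a : ℕ) (as : List ℕ) :
    PW N (T :: Ts) y (a :: as) = if y ≤ a ∧ a ≤ N ∧ a ≤ y + T ∧ T ≤ N then
      qz N ^ (-(((a : ℤ) - y) * y)) * ib N ((a : ℤ) - y) * Tht N (y + T - a) Ts as else 0 := by
  cases Ts with
  | nil => exact absurd rfl hTs
  | cons T' Ts =>
    rw [PW]
    split_ifs with h
    · unfold Tht
      rw [show (((y + T - a : ℕ) : ℤ)) = (y : ℤ) + T - a by omega]
    · rfl

theorem PW_Rt (N c : ℕ) (Ts : List ℕ) (z a : ℕ) (as : List ℕ) :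
    PW N (c :: Ts) z (a :: as) = if z ≤ a ∧ a ≤ N then
      qz N ^ (-(((a : ℤ) - z) * z)) * Rt N c Ts (a - z) as else 0 := by
  by_cases hTs : Ts = []
  · subst hTs
    rw [PW, Rt, if_pos rfl]
    by_cases h : z ≤ a ∧ a ≤ N
    · rw [if_pos h]
      by_cases h2 : c = N ∧ a - z = 0 ∧ as = []
      · obtain ⟨h3, h4, h5⟩ := h2
        have h6 : a = z := by omega
        subst h6 h5
        rw [if_pos ⟨h3, rfl, h.2⟩, if_pos ⟨h3, h4, rfl⟩]
        simp
      · rw [if_neg h2, if_neg, mul_zero]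
        rintro ⟨h3, h4, _⟩
        apply h2
        simp only [List.cons.injEq] at h4
        exact ⟨h3, by omega, h4.2⟩
    · rw [if_neg h, if_neg]
      rintro ⟨_, h4, h5⟩
      simp only [List.cons.injEq] at h4
      exact h ⟨by omega, by omega⟩
  · rw [PW_cons N c Ts hTs, Rt, if_neg hTs]
    by_cases h : z ≤ a ∧ a ≤ N
    · rw [if_pos h]
      by_cases h2 : a - z ≤ c ∧ c ≤ N
      · rw [if_pos h2, if_pos ⟨h.1, h.2, by omega, h2.2⟩, show z + c - a = c - (a - z) by omega,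
          show (((a - z : ℕ) : ℤ)) = (a : ℤ) - z by omega]
        ring
      · rw [if_neg h2, if_neg (by omega), mul_zero]
    · rw [if_neg h, if_neg (by omega)]

/-- The factor of the right gap. -/
theorem Rt_shift (N c s : ℕ) (hs : s ≤ c) (hc : c ≤ N) (Ts : List ℕ) (β : ℕ) (as : List ℕ) :
    brf (qz N) β * Rt N (c - s) Ts β as = brf (qz N) (β + s) * Rt N c Ts (β + s) as := by
  unfold Rt
  by_cases hTs : Ts = []
  · rw [if_pos hTs, if_pos hTs]
    by_cases h0 : s = 0
    · subst h0; simp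
    · rw [if_neg (by omega), if_neg (by omega), mul_zero, mul_zero]
  · rw [if_neg hTs, if_neg hTs]
    by_cases h : β ≤ c - s
    · rw [if_pos ⟨h, by omega⟩, if_pos ⟨by omega, hc⟩, show c - s - β = c - (β + s) by omega,
        ib_nat, ib_nat, mul_inv_cancel_left₀ (A_Em_brf_ne N (by omega)),
        mul_inv_cancel_left₀ (A_Em_brf_ne N (by omega))]
    · rw [if_neg (by omega), if_neg (by omega), mul_zero, mul_zero]

/-- The expansion of the vector in local vectors. -/
theorem Tht_expand (N y b c : ℕ) (hb : b ≤ N) (Ts : List ℕ) (a1 a2 : ℕ) (as : List ℕ)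
    (h1 : a1 ≤ N) (h2 : a2 ≤ N) :
    Tht N y (b :: c :: Ts) (a1 :: a2 :: as) = ∑ β ∈ Finset.range (N + 1),
      flz N y b β a1 a2 * (brf (qz N) β * Rt N c Ts β as) := by
  by_cases h : y ≤ a1 ∧ a1 ≤ y + b ∧ y + b ≤ a1 + a2
  · obtain ⟨h3, h4, h5⟩ := h
    rw [Finset.sum_eq_single (a1 + a2 - (y + b))]
    · unfold Tht
      rw [PW_cons N b (c :: Ts) (by simp), if_pos ⟨h3, h1, h4, hb⟩, Tht, PW_Rt,
        if_pos ⟨by omega, h2⟩, flz, if_pos (by omega), show a2 - (y + b - a1) = a1 + a2 - (y + b) by omega]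
      have e1 : ((a1 + a2 - (y + b) : ℕ) : ℤ) = (a1 : ℤ) + a2 - (y + b) := by omega
      have e2 : ((y + b - a1 : ℕ) : ℤ) = (y : ℤ) + b - a1 := by omega
      have e3 : ib N ((a1 : ℤ) + a2 - (y + b)) * brf (qz N) (a1 + a2 - (y + b)) = 1 := by
        rw [← e1, ib_nat, inv_mul_cancel₀ (A_Em_brf_ne N (by omega))]
      have hq := A_Em_qz_ne N
      rw [e1, e2, show (a2 : ℤ) - ((a1 : ℤ) + a2 - (y + b)) = (y : ℤ) + b - a1 by ring]
      have e4 : qz N ^ (-((y : ℤ) * y) - ((a1 : ℤ) - y) * y - ((y : ℤ) + b - a1) * ((y : ℤ) + b - a1) -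
          ((a1 : ℤ) + a2 - (y + b)) * ((y : ℤ) + b - a1)) =
          qz N ^ (-((y : ℤ) * y)) * qz N ^ (-(((a1 : ℤ) - y) * y)) *
          qz N ^ (-(((y : ℤ) + b - a1) * ((y : ℤ) + b - a1))) *
          qz N ^ (-(((a2 : ℤ) - ((y : ℤ) + b - a1)) * ((y : ℤ) + b - a1))) := by
        rw [← zpow_add₀ hq, ← zpow_add₀ hq, ← zpow_add₀ hq]
        congr 1; ring
      rw [e4]
      linear_combination (-(qz N ^ (-((y : ℤ) * y)) * qz N ^ (-(((a1 : ℤ) - y) * y)) *
          qz N ^ (-(((y : ℤ) + b - a1) * ((y : ℤ) + b - a1))) *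
          qz N ^ (-(((a2 : ℤ) - ((y : ℤ) + b - a1)) * ((y : ℤ) + b - a1))) * ib N y *
          ib N ((a1 : ℤ) - y) * ib N ((y : ℤ) + b - a1) * Rt N c Ts (a1 + a2 - (y + b)) as)) * e3
    · intro β _ hβ
      unfold flz
      rw [if_neg (by omega), zero_mul]
    · intro hm
      exact absurd (Finset.mem_range.2 (by omega)) hm
  · rw [Finset.sum_eq_zero]
    · unfold Tht
      rw [PW_cons N b (c :: Ts) (by simp)]
      split_ifs with h3
      · rw [Tht, PW_Rt, if_neg (by omega)]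
        ring
      · ring
    · intro β _
      by_cases hs : (a1 : ℤ) + a2 = y + b + β
      · unfold flz
        rw [if_pos hs]
        rcases (show a1 < y ∨ (a2 : ℤ) - β < 0 ∨ False by omega) with h3 | h3 | h3
        · rw [ib_neg N (show (a1 : ℤ) - y < 0 by omega)]; ring
        · rw [ib_neg N h3]; ring
        · exact h3.elim
      · unfold flz
        rw [if_neg hs, zero_mul]

theorem Tht_big (N y b c : ℕ) (Ts : List ℕ) (a1 a2 : ℕ) (as : List ℕ)
    (h : ¬ (a1 ≤ N ∧ a2 ≤ N)) : Tht N y (b :: c :: Ts) (a1 :: a2 :: as) = 0 := by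
  unfold Tht
  rw [PW_cons N b (c :: Ts) (by simp)]
  split_ifs with h3
  · rw [Tht, PW_Rt, if_neg (by omega)]
    ring
  · ring

end Pool.Agent.H63.CLK
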