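import Pool.Agent.H63.CLK.A_Ver

/-! # The intertwiner: the three local relations at every place -/

namespace Pool.Agent.H63.CLK

open Pool.Agent.H63.VC7 Pool.Agent.H63.VC10

/-! ### Linearity, and the first strand -/

theorem A_Psi_cup_mul (N i : ℕ) (K : ℂ) (ψ : List ℕ → ℂ) (l : List ℕ) :
    act (qz N) N (.cup i) (fun l => K * ψ l) l = K * act (qz N) N (.cup i) ψ l := by
  simp only [act]
  split
  · split_ifs
    · ring
    · ring
  · ring

theorem A_Psi_cap_mul (N i : ℕ) (K : ℂ) (ψ : List ℕ → ℂ) (l : List ℕ) :
    act (qz N) N (.cap i) (fun l => K * ψ l) l = K * act (qz N) N (.cap i) ψ l := by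
  simp only [act, Finset.mul_sum]
  refine Finset.sum_congr rfl fun a _ => ?_
  ring

theorem A_Psi_actE_mul (N t i : ℕ) (K : ℂ) (ψ : List ℕ → ℂ) (l : List ℕ) :
    actE (qz N) N t i (fun l => K * ψ l) l = K * actE (qz N) N t i ψ l := by
  unfold actE
  split
  · simp only [Finset.mul_sum]
    refine Finset.sum_congr rfl fun a _ => Finset.sum_congr rfl fun b _ => ?_
    ring
  · ring

theorem A_Psi_cup_cons (N i a : ℕ) (ψ : List ℕ → ℂ) (l : List ℕ) :
    act (qz N) N (.cup (i + 1)) ψ (a :: l) = act (qz N) N (.cup i) (fun l => ψ (a :: l)) l := by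
  simp [act]

theorem A_Psi_cap_cons (N i a : ℕ) (ψ : List ℕ → ℂ) (l : List ℕ) :
    act (qz N) N (.cap (i + 1)) ψ (a :: l) = act (qz N) N (.cap i) (fun l => ψ (a :: l)) l := by
  simp [act]

theorem A_Psi_actE_cons (N t i a : ℕ) (ψ : List ℕ → ℂ) (l : List ℕ) :
    actE (qz N) N t (i + 1) ψ (a :: l) = actE (qz N) N t i (fun l => ψ (a :: l)) l := by
  simp [actE]

theorem A_Psi_cup_nil (N i : ℕ) (ψ : List ℕ → ℂ) : act (qz N) N (.cup i) ψ [] = 0 := by
  simp [act]

theorem A_Psi_actE_nil (N t i : ℕ) (ψ : List ℕ → ℂ) : actE (qz N) N t i ψ [] = 0 := by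
  simp [actE]

/-- The coefficient of the first strand. -/
noncomputable def A_Psi_K (N T y a : ℕ) : ℂ :=
  if y ≤ a ∧ a ≤ N ∧ a ≤ y + T ∧ T ≤ N then
      qz N ^ (-(((a : ℤ) - y) * y)) * ib N ((a : ℤ) - y) *
        (qz N ^ (-(((y : ℤ) + T - a) * ((y : ℤ) + T - a))) * ib N ((y : ℤ) + T - a)) else 0

theorem A_Psi_PW_cons (N T : ℕ) (Ts : List ℕ) (hTs : Ts ≠ []) (y a : ℕ) (as : List ℕ) :
    PW N (T :: Ts) y (a :: as) = A_Psi_K N T y a * PW N Ts (y + T - a) as := by
  cases Ts with
  | nil => exact absurd rfl hTs
  | cons T' Ts =>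
    rw [PW, A_Psi_K]
    split_ifs with h
    · ring
    · ring

/-! ### The relations for `PW` -/

theorem A_Psi_PWcup (N : ℕ) (p r : List ℕ) (a : ℕ) (ha : a ≤ N) (y : ℕ) (l : List ℕ) :
    act (qz N) N (.cup (p.length + 1)) (PW N (p ++ a :: r) y) l =
      kap N * ∑ u ∈ Finset.range (a + 1), PW N (p ++ u :: N :: (a - u) :: r) y l := by
  induction p generalizing y l with
  | nil =>
    cases l with
    | nil =>
      rw [A_Psi_cup_nil, Finset.sum_eq_zero fun u _ => PW_len N _ _ _ (by simp), mul_zero]
    | cons a1 as =>
      rw [List.length_nil, A_Psi_cup_cons]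
      simp only [List.nil_append]
      by_cases hr : r = []
      · subst hr
        -- the gap on the right
        have e1 : (fun l => PW N [a] y (a1 :: l)) =
            fun l => (if a = N ∧ a1 = y ∧ y ≤ N then 1 else 0) * (if l = [] then 1 else 0) := by
          funext l
          rw [PW]
          simp only [List.cons.injEq]
          by_cases h1 : a = N ∧ a1 = y ∧ y ≤ N
          · by_cases h2 : l = []
            · rw [if_pos ⟨h1.1, ⟨h1.2.1, h2⟩, h1.2.2⟩, if_pos h1, if_pos h2, one_mul]
            · rw [if_neg (fun h3 => h2 h3.2.1.2), if_neg h2, mul_zero]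
          · rw [if_neg (fun h3 => h1 ⟨h3.1, h3.2.1.1, h3.2.2⟩), if_neg h1, zero_mul]
        rw [e1, A_Psi_cup_mul]
        rcases as with _ | ⟨s, _ | ⟨t, as⟩⟩
        · rw [Finset.sum_eq_zero fun u _ => PW_len N _ _ _ (by simp)]
          simp [act]
        · rw [Finset.sum_eq_zero fun u _ => PW_len N _ _ _ (by simp)]
          simp [act]
        · have hact : act (qz N) N (.cup 0) (fun l => if l = [] then (1 : ℂ) else 0) (s :: t :: as) =
              if s + t = N then cupc (qz N) N s * (if as = [] then 1 else 0) else 0 := by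
            simp [act]
          rw [hact]
          by_cases hst : s ≤ N ∧ t ≤ N
          swap
          · rw [if_neg (show ¬ s + t = N by omega), mul_zero,
              Finset.sum_eq_zero fun u _ => ?_, mul_zero]
            rw [PW_cons N u _ (by simp), Tht_big N _ _ _ _ _ _ _ hst, mul_zero, ite_self]
          obtain ⟨hs, ht⟩ := hst
          have e2 : ∀ u ∈ Finset.range (a + 1), PW N [u, N, a - u] y (a1 :: s :: t :: as) =
              if u = 0 ∧ a = N ∧ a1 = y ∧ y ≤ N ∧ as = [] ∧ s + t = N then
                flz N 0 N 0 s t else 0 := by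
            intro u hu
            have hu' := Finset.mem_range.1 hu
            rw [PW_cons N u _ (by simp)]
            by_cases h1 : y ≤ a1 ∧ a1 ≤ N ∧ a1 ≤ y + u ∧ u ≤ N
            swap
            · rw [if_neg h1, if_neg]
              rintro ⟨h2, h3, h4, h5, _⟩
              exact h1 (by omega)
            rw [if_pos h1, Tht_expand N _ N (a - u) le_rfl [] s t as hs ht,
              Finset.sum_eq_single 0]
            · rw [Rt, if_pos rfl, brf_zero]
              by_cases h2 : a - u = N ∧ 0 = 0 ∧ as = []
              · have h3 : u = 0 ∧ a = N ∧ a1 = y := by omega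
                obtain ⟨rfl, h4, rfl⟩ := h3
                rw [if_pos h2]
                by_cases h5 : s + t = N
                · rw [if_pos ⟨rfl, h4, rfl, h1.2.1, h2.2.2, h5⟩]
                  simp [ib_zero]
                · rw [if_neg (fun h6 => h5 h6.2.2.2.2.2)]
                  unfold flz
                  rw [if_neg (by omega)]
                  ring
              · rw [if_neg h2, if_neg]
                · ring
                · rintro ⟨h3, h4, _, _, h5, _⟩
                  exact h2 ⟨by omega, rfl, h5⟩
            · intro β _ hβ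
              rw [Rt, if_pos rfl, if_neg (fun h2 => hβ h2.2.1)]
              ring
            · intro hm
              exact absurd (Finset.mem_range.2 (by omega)) hm
          rw [Finset.sum_congr rfl e2]
          by_cases h1 : a = N ∧ a1 = y ∧ y ≤ N
          swap
          · rw [if_neg h1, zero_mul, Finset.sum_eq_zero, mul_zero]
            intro u _
            rw [if_neg]
            rintro ⟨_, h2, h3, h4, _⟩
            exact h1 ⟨h2, h3, h4⟩
          rw [if_pos h1, one_mul, Finset.sum_eq_single 0]
          · by_cases h2 : s + t = N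
            swap
            · rw [if_neg h2, if_neg (fun h3 => h2 h3.2.2.2.2.2), mul_zero]
            rw [if_pos h2]
            by_cases h3 : as = []
            swap
            · rw [if_neg h3, if_neg (fun h4 => h3 h4.2.2.2.2.1), mul_zero, mul_zero]
            rw [if_pos h3, if_pos ⟨rfl, h1.1, h1.2.1, h1.2.2, h3, h2⟩, mul_one,
              A_Base_cupc N s hs, kap]
            have h4 := A_Base_cupS N s t 0 hs ht (by omega)
            rw [if_pos rfl] at h4
            simp only [zero_add, Finset.sum_range_one, Nat.sub_zero, Nat.cast_zero] at h4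
            rw [h4]
            have h5 : brf (qz N) N ≠ 0 := A_Em_brf_ne N le_rfl
            have h6 : qz N ^ ((s : ℤ) * (2 * N - s)) =
                qz N ^ ((N : ℤ) * N) * qz N ^ (-((t : ℤ) * t)) := by
              rw [← zpow_add₀ (A_Em_qz_ne N), show (t : ℤ) = N - s by omega]
              congr 1
              ring
            rw [h6]
            field_simp
          · intro u _ hu
            rw [if_neg (fun h3 => hu h3.1)]
          · intro hm
            exact absurd (Finset.mem_range.2 (by omega)) hm
      · -- an inner gap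
        have e1 : (fun l => PW N (a :: r) y (a1 :: l)) =
            fun l => (if y ≤ a1 ∧ a1 ≤ N ∧ a1 ≤ y + a ∧ a ≤ N then
              qz N ^ (-(((a1 : ℤ) - y) * y)) * ib N ((a1 : ℤ) - y) else 0) *
                Tht N (y + a - a1) r l := by
          funext l
          rw [PW_cons N a r hr]
          split_ifs
          · rfl
          · ring
        rw [e1, A_Psi_cup_mul]
        by_cases h1 : y ≤ a1 ∧ a1 ≤ N ∧ a1 ≤ y + a ∧ a ≤ N
        swap
        · rw [if_neg h1, zero_mul, Finset.sum_eq_zero, mul_zero]
          intro u hu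
          have hu' := Finset.mem_range.1 hu
          rw [PW_cons N u _ (by simp), if_neg (by omega)]
        rw [if_pos h1, A_Base_cup N (y + a - a1) (by omega) r hr]
        have e2 : ∑ u ∈ Finset.range (a + 1), PW N (u :: N :: (a - u) :: r) y (a1 :: as) =
            ∑ u ∈ Finset.range (y + a - a1 + 1), qz N ^ (-(((a1 : ℤ) - y) * y)) *
              ib N ((a1 : ℤ) - y) * Tht N u (N :: (y + a - a1 - u) :: r) as := by
          have e3 : Finset.range (a + 1) = Finset.range (a1 - y + (y + a - a1 + 1)) := by
            congr 1; omega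
          rw [e3, Finset.sum_range_add, Finset.sum_eq_zero, zero_add]
          · refine Finset.sum_congr rfl fun u hu => ?_
            have hu' := Finset.mem_range.1 hu
            rw [PW_cons N _ _ (by simp), if_pos (by omega),
              show y + (a1 - y + u) - a1 = u by omega,
              show a - (a1 - y + u) = y + a - a1 - u by omega]
          · intro u hu
            have hu' := Finset.mem_range.1 hu
            rw [PW_cons N u _ (by simp), if_neg (by omega)]
        rw [e2, ← Finset.mul_sum]
        ring
  | cons T p ih =>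
    cases l with
    | nil =>
      rw [A_Psi_cup_nil, Finset.sum_eq_zero fun u _ => PW_len N _ _ _ (by simp), mul_zero]
    | cons a1 as =>
      rw [List.length_cons, A_Psi_cup_cons]
      simp only [List.cons_append]
      have e1 : (fun l => PW N (T :: (p ++ a :: r)) y (a1 :: l)) =
          fun l => A_Psi_K N T y a1 * PW N (p ++ a :: r) (y + T - a1) l := by
        funext l
        rw [A_Psi_PW_cons N T _ (by simp)]
      rw [e1, A_Psi_cup_mul, ih]
      have e2 : ∀ u ∈ Finset.range (a + 1),
          PW N (T :: (p ++ u :: N :: (a - u) :: r)) y (a1 :: as) =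
          A_Psi_K N T y a1 * PW N (p ++ u :: N :: (a - u) :: r) (y + T - a1) as := by
        intro u _
        rw [A_Psi_PW_cons N T _ (by simp)]
      rw [Finset.sum_congr rfl e2, ← Finset.mul_sum]
      ring

theorem A_Psi_PWcap (N : ℕ) (p r : List ℕ) (a b c : ℕ) (ha : a ≤ N) (hb : b ≤ N) (hc : c ≤ N)
    (y : ℕ) (l : List ℕ) :
    act (qz N) N (.cap (p.length + 1)) (PW N (p ++ a :: b :: c :: r) y) l =
      (kap N)⁻¹ * (if b = 0 ∧ N ≤ a + c then PW N (p ++ (a + c - N) :: r) y l else 0) := by
  induction p generalizing y l with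
  | nil =>
    cases l with
    | nil =>
      rw [PW_len N _ _ _ (by simp), ite_self, mul_zero]
      simp only [act]
      refine Finset.sum_eq_zero fun s _ => ?_
      rw [PW_len N _ _ _ (by simp), mul_zero]
    | cons a1 as =>
      rw [List.length_nil, A_Psi_cap_cons]
      simp only [List.nil_append]
      have e1 : (fun l => PW N (a :: b :: c :: r) y (a1 :: l)) =
          fun l => (if y ≤ a1 ∧ a1 ≤ N ∧ a1 ≤ y + a ∧ a ≤ N then
            qz N ^ (-(((a1 : ℤ) - y) * y)) * ib N ((a1 : ℤ) - y) else 0) *
              Tht N (y + a - a1) (b :: c :: r) l := by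
        funext l
        rw [PW_cons N a _ (by simp)]
        split_ifs
        · rfl
        · ring
      rw [e1, A_Psi_cap_mul]
      by_cases h1 : y ≤ a1 ∧ a1 ≤ N ∧ a1 ≤ y + a ∧ a ≤ N
      swap
      · rw [if_neg h1, zero_mul]
        symm
        apply mul_eq_zero_of_right
        split_ifs with h2
        · by_cases hr : r = []
          · subst hr
            rw [PW, if_neg]
            rintro ⟨h3, h4, h5⟩
            simp only [List.cons.injEq] at h4
            exact h1 (by omega)
          · rw [PW_cons N _ r hr, if_neg (by omega)]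
        · rfl
      rw [if_pos h1, A_Base_cap N (y + a - a1) b c (by omega) hb hc r as]
      by_cases hr : r = []
      · subst hr
        rw [if_pos rfl]
        by_cases h2 : b = 0 ∧ N ≤ a + c
        swap
        · rw [if_neg h2, if_neg (by omega)]
          ring
        rw [if_pos h2, PW]
        by_cases h3 : c = N ∧ y + a - a1 = N ∧ as = []
        · obtain ⟨h4, h5, h6⟩ := h3
          have h7 : a1 = y := by omega
          subst h7
          rw [if_pos (by omega), if_pos ⟨h4, h5, h6⟩, if_pos ⟨by omega, by rw [h6], h1.2.1⟩]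
          simp [ib_zero]
        · rw [if_neg h3, ite_self]
          rw [if_neg]
          · ring
          · rintro ⟨h4, h5, h6⟩
            simp only [List.cons.injEq] at h5
            exact h3 ⟨by omega, by omega, h5.2⟩
      · rw [if_neg hr]
        by_cases h2 : b = 0 ∧ N ≤ a + c
        swap
        · rw [if_neg h2, if_neg (by omega)]
          ring
        rw [if_pos h2, PW_cons N _ r hr]
        by_cases h3 : N ≤ y + a - a1 + c
        · rw [if_pos ⟨h2.1, h3⟩, if_pos (by omega),
            show y + a - a1 + c - N = y + (a + c - N) - a1 by omega]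
          ring
        · rw [if_neg (by omega), if_neg (by omega)]
          ring
  | cons T p ih =>
    cases l with
    | nil =>
      rw [PW_len N _ _ _ (by simp), ite_self, mul_zero]
      simp only [act]
      refine Finset.sum_eq_zero fun s _ => ?_
      rw [PW_len N _ _ _ (by simp; omega), mul_zero]
    | cons a1 as =>
      rw [List.length_cons, A_Psi_cap_cons]
      simp only [List.cons_append]
      have e1 : (fun l => PW N (T :: (p ++ a :: b :: c :: r)) y (a1 :: l)) =
          fun l => A_Psi_K N T y a1 * PW N (p ++ a :: b :: c :: r) (y + T - a1) l := by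
        funext l
        rw [A_Psi_PW_cons N T _ (by simp)]
      rw [e1, A_Psi_cap_mul, ih, A_Psi_PW_cons N T _ (by simp)]
      split_ifs
      · ring
      · ring

theorem A_Psi_PWver (N t : ℕ) (ht : t ≤ N) (p r : List ℕ) (a b c : ℕ) (ha : a ≤ N) (hb : b ≤ N)
    (hc : c ≤ N) (y : ℕ) (l : List ℕ) :
    actE (qz N) N t (p.length + 1) (PW N (p ++ a :: b :: c :: r) y) l =
      ∑ sL ∈ Finset.range (t + 1), ∑ sR ∈ Finset.range (t + 1),
        if sL ≤ a ∧ sR ≤ c ∧ b ≤ N - t ∧ b + sL + sR ≤ N ∧ t ≤ b + sL + sR then
          cK N t b sL sR * PW N (p ++ (a - sL) :: (b + sL + sR) :: (c - sR) :: r) y l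
        else 0 := by
  induction p generalizing y l with
  | nil =>
    cases l with
    | nil =>
      rw [A_Psi_actE_nil]
      symm
      refine Finset.sum_eq_zero fun sL _ => Finset.sum_eq_zero fun sR _ => ?_
      rw [PW_len N _ _ _ (by simp), mul_zero, ite_self]
    | cons a1 as =>
      rw [List.length_nil, A_Psi_actE_cons]
      simp only [List.nil_append]
      have e1 : (fun l => PW N (a :: b :: c :: r) y (a1 :: l)) =
          fun l => (if y ≤ a1 ∧ a1 ≤ N ∧ a1 ≤ y + a ∧ a ≤ N then
            qz N ^ (-(((a1 : ℤ) - y) * y)) * ib N ((a1 : ℤ) - y) else 0) *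
              Tht N (y + a - a1) (b :: c :: r) l := by
        funext l
        rw [PW_cons N a _ (by simp)]
        split_ifs
        · rfl
        · ring
      rw [e1, A_Psi_actE_mul]
      by_cases h1 : y ≤ a1 ∧ a1 ≤ N ∧ a1 ≤ y + a ∧ a ≤ N
      swap
      · rw [if_neg h1, zero_mul]
        symm
        refine Finset.sum_eq_zero fun sL _ => Finset.sum_eq_zero fun sR _ => ?_
        rw [PW_cons N _ _ (by simp)]
        split_ifs
        · omega
        · ring
        · rfl
      rw [if_pos h1, A_Base_ver N t (y + a - a1) b c ht (by omega) hb hc r as, Finset.mul_sum]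
      refine Finset.sum_congr rfl fun sL _ => ?_
      rw [Finset.mul_sum]
      refine Finset.sum_congr rfl fun sR _ => ?_
      rw [PW_cons N _ _ (by simp)]
      by_cases h2 : sL ≤ y + a - a1 ∧ sR ≤ c ∧ b ≤ N - t ∧ b + sL + sR ≤ N ∧ t ≤ b + sL + sR
      · rw [if_pos h2, if_pos (by omega), if_pos (by omega),
          show y + a - a1 - sL = y + (a - sL) - a1 by omega]
        ring
      · rw [if_neg h2, mul_zero]
        split_ifs
        · omega
        · ring
        · rfl
  | cons T p ih =>
    cases l with
    | nil =>
      rw [A_Psi_actE_nil]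
      symm
      refine Finset.sum_eq_zero fun sL _ => Finset.sum_eq_zero fun sR _ => ?_
      rw [PW_len N _ _ _ (by simp), mul_zero, ite_self]
    | cons a1 as =>
      rw [List.length_cons, A_Psi_actE_cons]
      simp only [List.cons_append]
      have e1 : (fun l => PW N (T :: (p ++ a :: b :: c :: r)) y (a1 :: l)) =
          fun l => A_Psi_K N T y a1 * PW N (p ++ a :: b :: c :: r) (y + T - a1) l := by
        funext l
        rw [A_Psi_PW_cons N T _ (by simp)]
      rw [e1, A_Psi_actE_mul, ih, Finset.mul_sum]
      refine Finset.sum_congr rfl fun sL _ => ?_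
      rw [Finset.mul_sum]
      refine Finset.sum_congr rfl fun sR _ => ?_
      rw [A_Psi_PW_cons N T _ (by simp)]
      split_ifs
      · ring
      · ring

/-! ### The intertwiner -/

/-- The intertwiner: the vector attached to the list `T` of the gaps. -/
noncomputable def PsiA (N : ℕ) : List ℕ → List ℕ → ℂ
  | [], _ => 0
  | T0 :: Ts, l => if T0 = N then kap N ^ ((Ts.length - 1) / 2) * PW N Ts 0 l else 0

theorem Psi_init (N : ℕ) : PsiA N [N, N] = fun l => if l = [0] then 1 else 0 := by
  funext l
  simp [PsiA, PW]

theorem Psi_end (N a b : ℕ) (h : ¬ (a = N ∧ b = N)) : PsiA N [a, b] [0] = 0 := by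
  rw [PsiA, PW]
  by_cases ha : a = N
  · rw [if_pos ha, if_neg (fun h2 => h ⟨ha, h2.1⟩), mul_zero]
  · rw [if_neg ha]

theorem Psi_cup (N : ℕ) (p r : List ℕ) (a : ℕ) (ha : a ≤ N) (h : p ++ r ≠ []) :
    act (qz N) N (.cup p.length) (PsiA N (p ++ a :: r)) =
      fun l => ∑ u ∈ Finset.range (a + 1), PsiA N (p ++ u :: N :: (a - u) :: r) l := by
  funext l
  cases p with
  | nil =>
    have hr : r ≠ [] := by simpa using h
    have hr1 : 1 ≤ r.length := List.length_pos_iff.2 hr
    simp only [List.nil_append, List.length_nil]
    by_cases ha' : a = N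
    swap
    · have e1 : PsiA N (a :: r) = fun l => 0 * (1 : ℂ) := by
        funext l
        rw [PsiA, if_neg ha']
        ring
      rw [e1, A_Psi_cup_mul N 0 0 (fun _ => 1), zero_mul, Finset.sum_eq_zero]
      intro u hu
      have hu' := Finset.mem_range.1 hu
      rw [PsiA, if_neg (by omega)]
    · subst ha'
      have e1 : PsiA a (a :: r) = fun l => kap a ^ ((r.length - 1) / 2) * Tht a 0 r l := by
        funext l
        rw [PsiA, if_pos rfl, Tht_zero]
      rw [e1, A_Psi_cup_mul, A_Base_cup a 0 (by omega) r hr, zero_add, Finset.sum_range_one,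
        Finset.sum_eq_single a]
      · rw [PsiA, if_pos rfl, Tht_zero]
        simp only [List.length_cons, Nat.sub_self]
        rw [show (r.length + 1 + 1 - 1) / 2 = (r.length - 1) / 2 + 1 by omega, pow_succ]
        ring
      · intro u _ hu
        rw [PsiA, if_neg hu]
      · intro hm
        exact absurd (Finset.mem_range.2 (by omega)) hm
  | cons T0 p =>
    simp only [List.cons_append, List.length_cons]
    by_cases hT : T0 = N
    swap
    · have e1 : PsiA N (T0 :: (p ++ a :: r)) = fun l => 0 * (1 : ℂ) := by
        funext l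
        rw [PsiA, if_neg hT]
        ring
      rw [e1, A_Psi_cup_mul N _ 0 (fun _ => 1), zero_mul, Finset.sum_eq_zero]
      intro u hu
      rw [PsiA, if_neg hT]
    · have e1 : PsiA N (T0 :: (p ++ a :: r)) =
          fun l => kap N ^ (((p ++ a :: r).length - 1) / 2) * PW N (p ++ a :: r) 0 l := by
        funext l
        rw [PsiA, if_pos hT]
      rw [e1, A_Psi_cup_mul, A_Psi_PWcup N p r a ha]
      have e2 : ∀ u ∈ Finset.range (a + 1), PsiA N (T0 :: (p ++ u :: N :: (a - u) :: r)) l =
          kap N ^ (((p ++ a :: r).length - 1) / 2) * kap N *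
            PW N (p ++ u :: N :: (a - u) :: r) 0 l := by
        intro u _
        rw [PsiA, if_pos hT, ← pow_succ]
        simp only [List.length_append, List.length_cons]
        rw [show (p.length + (r.length + 1 + 1 + 1) - 1) / 2 =
          (p.length + (r.length + 1) - 1) / 2 + 1 by omega]
      rw [Finset.sum_congr rfl e2, ← Finset.mul_sum]
      ring

theorem Psi_cap (N : ℕ) (p r : List ℕ) (a b c : ℕ) (ha : a ≤ N) (hb : b ≤ N) (hc : c ≤ N)
    (h : p ++ r ≠ []) :
    act (qz N) N (.cap p.length) (PsiA N (p ++ a :: b :: c :: r)) =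
      fun l => if b = 0 ∧ N ≤ a + c then PsiA N (p ++ (a + c - N) :: r) l else 0 := by
  funext l
  cases p with
  | nil =>
    have hr : r ≠ [] := by simpa using h
    have hr1 : 1 ≤ r.length := List.length_pos_iff.2 hr
    simp only [List.nil_append, List.length_nil]
    by_cases ha' : a = N
    swap
    · have e1 : PsiA N (a :: b :: c :: r) = fun l => 0 * (1 : ℂ) := by
        funext l
        rw [PsiA, if_neg ha']
        ring
      rw [e1, A_Psi_cap_mul N 0 0 (fun _ => 1), zero_mul]
      split_ifs
      · rw [PsiA, if_neg (by omega)]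
      · rfl
    · subst ha'
      have e1 : PsiA a (a :: b :: c :: r) =
          fun l => kap a ^ ((r.length + 1) / 2) * Tht a 0 (b :: c :: r) l := by
        funext l
        rw [PsiA, if_pos rfl, Tht_zero]
        simp only [List.length_cons]
        rfl
      rw [e1, A_Psi_cap_mul, A_Base_cap a 0 b c (by omega) hb hc, if_neg hr]
      by_cases h2 : b = 0 ∧ c = a
      · rw [if_pos (by omega), if_pos (by omega), PsiA, if_pos (by omega),
          show 0 + c - a = 0 by omega, Tht_zero,
          show (r.length + 1) / 2 = (r.length - 1) / 2 + 1 by omega, pow_succ]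
        have := kap_ne a
        field_simp
      · rw [if_neg (by omega)]
        split_ifs
        · rw [PsiA, if_neg (by omega)]
          ring
        · ring
  | cons T0 p =>
    simp only [List.cons_append, List.length_cons]
    by_cases hT : T0 = N
    swap
    · have e1 : PsiA N (T0 :: (p ++ a :: b :: c :: r)) = fun l => 0 * (1 : ℂ) := by
        funext l
        rw [PsiA, if_neg hT]
        ring
      rw [e1, A_Psi_cap_mul N _ 0 (fun _ => 1), zero_mul, PsiA, if_neg hT, ite_self]
    · have e1 : PsiA N (T0 :: (p ++ a :: b :: c :: r)) =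
          fun l => kap N ^ ((p.length + r.length + 2) / 2) * PW N (p ++ a :: b :: c :: r) 0 l := by
        funext l
        rw [PsiA, if_pos hT]
        simp only [List.length_append, List.length_cons]
        rw [show p.length + (r.length + 1 + 1 + 1) - 1 = p.length + r.length + 2 by omega]
      rw [e1, A_Psi_cap_mul, A_Psi_PWcap N p r a b c ha hb hc, PsiA, if_pos hT]
      simp only [List.length_append, List.length_cons]
      rw [show (p.length + r.length + 2) / 2 = (p.length + (r.length + 1) - 1) / 2 + 1 by omega,
        pow_succ]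
      have := kap_ne N
      split_ifs
      · field_simp
      · ring

theorem Psi_ver (N t : ℕ) (ht : t ≤ N) (p r : List ℕ) (a b c : ℕ) (ha : a ≤ N) (hb : b ≤ N)
    (hc : c ≤ N) :
    actE (qz N) N t p.length (PsiA N (p ++ a :: b :: c :: r)) =
      fun l => ∑ sL ∈ Finset.range (t + 1), ∑ sR ∈ Finset.range (t + 1),
        if sL ≤ a ∧ sR ≤ c ∧ b ≤ N - t ∧ b + sL + sR ≤ N ∧ t ≤ b + sL + sR then
          qbin (qz N) (N - t) b * qbin (qz N) (N - t) (N - b - sL - sR) * qbin (qz N) t sL *
            qbin (qz N) t sR * PsiA N (p ++ (a - sL) :: (b + sL + sR) :: (c - sR) :: r) l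
        else 0 := by
  funext l
  cases p with
  | nil =>
    simp only [List.nil_append, List.length_nil]
    by_cases ha' : a = N
    swap
    · have e1 : PsiA N (a :: b :: c :: r) = fun l => 0 * (1 : ℂ) := by
        funext l
        rw [PsiA, if_neg ha']
        ring
      rw [e1, A_Psi_actE_mul N _ 0 0 (fun _ => 1), zero_mul]
      symm
      refine Finset.sum_eq_zero fun sL _ => Finset.sum_eq_zero fun sR _ => ?_
      rw [show PsiA N ((a - sL) :: (b + sL + sR) :: (c - sR) :: r) l = 0 by
        rw [PsiA, if_neg (by omega)], mul_zero, ite_self]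
    · subst ha'
      have e1 : PsiA a (a :: b :: c :: r) =
          fun l => kap a ^ ((r.length + 1) / 2) * Tht a 0 (b :: c :: r) l := by
        funext l
        rw [PsiA, if_pos rfl, Tht_zero]
        simp only [List.length_cons]
        rfl
      rw [e1, A_Psi_actE_mul, A_Base_ver a t 0 b c ht (by omega) hb hc, Finset.mul_sum]
      refine Finset.sum_congr rfl fun sL _ => ?_
      rw [Finset.mul_sum]
      refine Finset.sum_congr rfl fun sR _ => ?_
      rw [PsiA]
      by_cases h0 : sL = 0
      · subst h0
        rw [if_pos (Nat.sub_zero a)]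
        by_cases h2 : 0 ≤ 0 ∧ sR ≤ c ∧ b ≤ a - t ∧ b + 0 + sR ≤ a ∧ t ≤ b + 0 + sR
        · rw [if_pos h2, if_pos (by omega), Nat.sub_zero, Tht_zero, cK]
          simp only [List.length_cons]
          rw [show (r.length + 1 + 1 - 1) / 2 = (r.length + 1) / 2 by omega]
          ring
        · rw [if_neg h2, if_neg (by omega), mul_zero]
      · rw [if_neg (fun h4 => h0 (by omega)), mul_zero]
        split_ifs
        · omega
        · ring
        · rfl
  | cons T0 p =>
    simp only [List.cons_append, List.length_cons]
    by_cases hT : T0 = N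
    swap
    · have e1 : PsiA N (T0 :: (p ++ a :: b :: c :: r)) = fun l => 0 * (1 : ℂ) := by
        funext l
        rw [PsiA, if_neg hT]
        ring
      rw [e1, A_Psi_actE_mul N _ _ 0 (fun _ => 1), zero_mul]
      symm
      refine Finset.sum_eq_zero fun sL _ => Finset.sum_eq_zero fun sR _ => ?_
      rw [PsiA, if_neg hT, mul_zero, ite_self]
    · have e1 : PsiA N (T0 :: (p ++ a :: b :: c :: r)) =
          fun l => kap N ^ ((p.length + r.length + 2) / 2) * PW N (p ++ a :: b :: c :: r) 0 l := by
        funext l
        rw [PsiA, if_pos hT]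
        simp only [List.length_append, List.length_cons]
        rw [show p.length + (r.length + 1 + 1 + 1) - 1 = p.length + r.length + 2 by omega]
      rw [e1, A_Psi_actE_mul, A_Psi_PWver N t ht p r a b c ha hb hc, Finset.mul_sum]
      refine Finset.sum_congr rfl fun sL _ => ?_
      rw [Finset.mul_sum]
      refine Finset.sum_congr rfl fun sR _ => ?_
      rw [PsiA, if_pos hT, cK]
      simp only [List.length_append, List.length_cons]
      rw [show p.length + (r.length + 1 + 1 + 1) - 1 = p.length + r.length + 2 by omega]
      split_ifs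
      · ring
      · ring

end Pool.Agent.H63.CLK
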