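import Pool.Agent.H63.CLK.A_GInv
import Pool.Agent.H63.VC.Base

/-! # Small facts about templates and about the coefficients -/

namespace Pool.Agent.H63.CLK

open Pool.Agent.H63.VC7 Pool.Agent.H63.VC10

/-! ### The coefficients -/

theorem A_Small_br (N k : ℕ) :
    br (qz N) ((k : ℤ)) = Complex.I * ((VC.sg (N + 1) k : ℝ) : ℂ) := by
  rw [A_Em_br_eq, VC.sg]
  push_cast
  rw [show (k : ℂ) * (Real.pi / (N + 1)) = Real.pi * k / (N + 1) by ring]
  ring

theorem A_Small_brf (N n : ℕ) :
    brf (qz N) n = Complex.I ^ n * ((VC.S (N + 1) n : ℝ) : ℂ) := by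
  induction n with
  | zero => simp [brf_zero, VC.S]
  | succ n ih =>
    have h1 : VC.S (N + 1) (n + 1) = VC.S (N + 1) n * VC.sg (N + 1) (n + 1) := by
      unfold VC.S
      rw [Finset.prod_Ico_succ_top (by omega)]
    rw [brf_succ, ih, h1, show ((n : ℤ) + 1) = ((n + 1 : ℕ) : ℤ) by push_cast; rfl, A_Small_br]
    push_cast
    ring

/-- The coefficients are real and positive at the root of unity. -/
theorem qbin_real (N n s : ℕ) (hs : s ≤ n) :
    qbin (qz N) n s =
      ((VC.S (N + 1) n / (VC.S (N + 1) s * VC.S (N + 1) (n - s)) : ℝ) : ℂ) := by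
  unfold qbin
  rw [A_Small_brf, A_Small_brf, A_Small_brf]
  have h1 : (Complex.I : ℂ) ^ n = Complex.I ^ s * Complex.I ^ (n - s) := by
    rw [← pow_add]
    congr 1
    omega
  have h2 : (Complex.I : ℂ) ^ s ≠ 0 := pow_ne_zero _ Complex.I_ne_zero
  have h3 : (Complex.I : ℂ) ^ (n - s) ≠ 0 := pow_ne_zero _ Complex.I_ne_zero
  rw [h1]
  push_cast
  rw [show Complex.I ^ s * ((VC.S (N + 1) s : ℝ) : ℂ) *
      (Complex.I ^ (n - s) * ((VC.S (N + 1) (n - s) : ℝ) : ℂ)) =
      (Complex.I ^ s * Complex.I ^ (n - s)) *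
        (((VC.S (N + 1) s : ℝ) : ℂ) * ((VC.S (N + 1) (n - s) : ℝ) : ℂ)) by ring,
    mul_div_mul_left _ _ (mul_ne_zero h2 h3)]

theorem qbin_pos (N n s : ℕ) (hs : s ≤ n) (hn : n ≤ N) :
    0 < VC.S (N + 1) n / (VC.S (N + 1) s * VC.S (N + 1) (n - s)) :=
  div_pos (VC.S_pos (by omega)) (mul_pos (VC.S_pos (by omega)) (VC.S_pos (by omega)))

/-! ### Every bounded face has a corner -/

/-- The face `x` has a corner at one of the twist regions. -/
def A_Small_Cn (S : Sweep) (x : ℕ) : Prop := ∃ y ∈ S.cor, ∃ k, y k = x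

/-- The strands: the other end of a strand is at the same level, or at a twist region, or it is the
lower end of the tangle. -/
structure A_Small_Inv (S : Sweep) : Prop where
  strand : ∀ i x y, S.gaps[i]? = some x → S.gaps[i + 1]? = some y →
    (∃ j, j ≠ i ∧ S.gaps[j]? = some y ∧ S.gaps[j + 1]? = some x) ∨
      (A_Small_Cn S x ∧ A_Small_Cn S y) ∨ (x = 0 ∧ y = 1)
  face : ∀ x ∈ S.faces, x ∈ S.gaps ∨ A_Small_Cn S x

theorem A_Small_gaps {l r : List ℕ} {i : ℕ} (h : l.drop i = r) : l = l.take i ++ r := by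
  rw [← h, List.take_append_drop]

theorem A_Small_get_lt {P r r' : List ℕ} {i k : ℕ} (hP : P.length = i) (hk : k < i) :
    (P ++ r)[k]? = (P ++ r')[k]? := by
  rw [List.getElem?_append_left (by omega), List.getElem?_append_left (by omega)]

theorem A_Small_get_ge {P r : List ℕ} {i k : ℕ} (hP : P.length = i) (hk : i ≤ k) :
    (P ++ r)[k]? = r[k - i]? := by
  rw [List.getElem?_append_right (by omega), hP]

theorem A_Small_len {l r : List ℕ} {i a : ℕ} (h : l.drop i = a :: r) : (l.take i).length = i := by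
  have h4 : (l.drop i).length = l.length - i := List.length_drop
  rw [h] at h4
  simp only [List.length_cons] at h4
  rw [List.length_take]
  omega

theorem A_Small_init : A_Small_Inv Sweep.init where
  strand := by
    intro i x y hx hy
    rcases i with _ | i
    · simp only [Sweep.init, List.getElem?_cons_zero, Option.some.injEq] at hx
      simp only [Sweep.init, zero_add, List.getElem?_cons_succ, List.getElem?_cons_zero,
        Option.some.injEq] at hy
      exact Or.inr (Or.inr ⟨hx.symm, hy.symm⟩)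
    · simp [Sweep.init] at hy
  face := fun x hx => Or.inl hx

theorem A_Small_tw {S S' : Sweep} {i : ℕ} (h : A_Small_Inv S) (hx : S.step (.tw i) = some S') :
    A_Small_Inv S' := by
  obtain ⟨a, b, c, r, hd, rfl⟩ : ∃ a b c r, S.gaps.drop i = a :: b :: c :: r ∧
      S' = ⟨S.gaps.take i ++ a :: S.nxt :: c :: r, S.nxt :: S.faces, S.nxt + 1,
        S.cor ++ [![S.nxt, c, b, a]]⟩ := by
    rcases h : S.gaps.drop i with _ | ⟨a, _ | ⟨b, _ | ⟨c, r⟩⟩⟩
    · simp [Sweep.step, h] at hx
    · simp [Sweep.step, h] at hx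
    · simp [Sweep.step, h] at hx
    · simp only [Sweep.step, h, Option.some.injEq] at hx
      exact ⟨a, b, c, r, rfl, hx.symm⟩
  have hg := A_Small_gaps hd
  have hl := A_Small_len hd
  set P := S.gaps.take i with hP
  set S' : Sweep := ⟨P ++ a :: S.nxt :: c :: r, S.nxt :: S.faces, S.nxt + 1,
        S.cor ++ [![S.nxt, c, b, a]]⟩ with hS'
  have gi : S.gaps[i]? = some a := by rw [hg, A_Small_get_ge hl le_rfl]; simp
  have gi1 : S.gaps[i + 1]? = some b := by rw [hg, A_Small_get_ge hl (by omega)]; simp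
  have gi2 : S.gaps[i + 2]? = some c := by rw [hg, A_Small_get_ge hl (by omega)]; simp
  have gi' : S'.gaps[i + 1]? = some S.nxt := by
    change (P ++ a :: S.nxt :: c :: r)[i + 1]? = _
    rw [A_Small_get_ge hl (by omega)]; simp
  have gk : ∀ k, k ≠ i + 1 → S'.gaps[k]? = S.gaps[k]? := by
    intro k hk
    change (P ++ a :: S.nxt :: c :: r)[k]? = _
    rw [hg]
    rcases lt_trichotomy k i with h1 | h1 | h1
    · exact A_Small_get_lt hl h1
    · rw [A_Small_get_ge hl (by omega), A_Small_get_ge hl (by omega), h1]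
      simp
    · rw [A_Small_get_ge hl (by omega), A_Small_get_ge hl (by omega)]
      obtain ⟨m, rfl⟩ : ∃ m, k = i + (m + 2) := ⟨k - i - 2, by omega⟩
      rw [Nat.add_sub_cancel_left]
      simp
  have cm : ∀ x, A_Small_Cn S x → A_Small_Cn S' x := by
    rintro x ⟨y, hy, k, hk⟩
    exact ⟨y, List.mem_append_left _ hy, k, hk⟩
  have cv : (![S.nxt, c, b, a] : Fin 4 → ℕ) ∈ S'.cor := List.mem_append_right _ (by simp)
  have cn : A_Small_Cn S' S.nxt := ⟨_, cv, 0, rfl⟩
  have cc : A_Small_Cn S' c := ⟨_, cv, 1, rfl⟩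
  have cb : A_Small_Cn S' b := ⟨_, cv, 2, rfl⟩
  have ca : A_Small_Cn S' a := ⟨_, cv, 3, rfl⟩
  constructor
  · intro k x y hx hy
    by_cases h1 : k = i
    · subst h1
      rw [gk _ (by omega), gi] at hx
      rw [gi'] at hy
      obtain rfl := Option.some.inj hx
      obtain rfl := Option.some.inj hy
      exact Or.inr (Or.inl ⟨ca, cn⟩)
    by_cases h2 : k = i + 1
    · subst h2
      rw [gi'] at hx
      rw [gk _ (by omega), gi2] at hy
      obtain rfl := Option.some.inj hx
      obtain rfl := Option.some.inj hy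
      exact Or.inr (Or.inl ⟨cn, cc⟩)
    rw [gk _ h2] at hx
    rw [gk _ (by omega)] at hy
    rcases h.strand k x y hx hy with ⟨j, hj, h3, h4⟩ | ⟨h3, h4⟩ | h3
    · by_cases h5 : j = i
      · subst h5
        rw [gi] at h3
        rw [gi1] at h4
        obtain rfl := Option.some.inj h3
        obtain rfl := Option.some.inj h4
        exact Or.inr (Or.inl ⟨cb, ca⟩)
      by_cases h6 : j = i + 1
      · subst h6
        rw [gi1] at h3
        rw [gi2] at h4
        obtain rfl := Option.some.inj h3
        obtain rfl := Option.some.inj h4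
        exact Or.inr (Or.inl ⟨cc, cb⟩)
      · exact Or.inl ⟨j, hj, by rw [gk _ h6, h3], by rw [gk _ (by omega), h4]⟩
    · exact Or.inr (Or.inl ⟨cm _ h3, cm _ h4⟩)
    · exact Or.inr (Or.inr h3)
  · intro x hx
    rcases List.mem_cons.1 hx with hx | hx
    · exact Or.inr (hx ▸ cn)
    rcases h.face x hx with h1 | h1
    · rw [hg] at h1
      simp only [List.mem_append, List.mem_cons] at h1
      rcases h1 with h1 | h1 | h1 | h1 | h1
      · exact Or.inl (List.mem_append_left _ h1)
      · exact Or.inr (h1 ▸ ca)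
      · exact Or.inr (h1 ▸ cb)
      · exact Or.inr (h1 ▸ cc)
      · exact Or.inl (List.mem_append_right _ (by simp [h1]))
    · exact Or.inr (cm _ h1)

theorem A_Small_cup {S S' : Sweep} {i : ℕ} (h : A_Small_Inv S) (hx : S.step (.cup i) = some S') :
    A_Small_Inv S' := by
  obtain ⟨a, r, hd, rfl⟩ : ∃ a r, S.gaps.drop i = a :: r ∧
      S' = ⟨S.gaps.take i ++ a :: S.nxt :: a :: r, S.nxt :: S.faces, S.nxt + 1, S.cor⟩ := by
    rcases h : S.gaps.drop i with _ | ⟨a, r⟩
    · simp [Sweep.step, h] at hx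
    · simp only [Sweep.step, h, Option.some.injEq] at hx
      exact ⟨a, r, rfl, hx.symm⟩
  have hg := A_Small_gaps hd
  have hl := A_Small_len hd
  set P := S.gaps.take i with hP
  set S' : Sweep := ⟨P ++ a :: S.nxt :: a :: r, S.nxt :: S.faces, S.nxt + 1, S.cor⟩ with hS'
  have gi : S.gaps[i]? = some a := by rw [hg, A_Small_get_ge hl le_rfl]; simp
  have gi' : S'.gaps[i + 1]? = some S.nxt := by
    change (P ++ a :: S.nxt :: a :: r)[i + 1]? = _
    rw [A_Small_get_ge hl (by omega)]; simp
  have g1 : ∀ k, k ≤ i → S'.gaps[k]? = S.gaps[k]? := by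
    intro k hk
    change (P ++ a :: S.nxt :: a :: r)[k]? = _
    rw [hg]
    rcases lt_or_eq_of_le hk with h1 | h1
    · exact A_Small_get_lt hl h1
    · rw [A_Small_get_ge hl (by omega), A_Small_get_ge hl (by omega), h1]
      simp
  have g2 : ∀ k, i ≤ k → S'.gaps[k + 2]? = S.gaps[k]? := by
    intro k hk
    change (P ++ a :: S.nxt :: a :: r)[k + 2]? = _
    rw [hg, A_Small_get_ge hl (by omega), A_Small_get_ge hl (by omega)]
    obtain ⟨m, rfl⟩ : ∃ m, k = i + m := ⟨k - i, by omega⟩
    rw [show i + m + 2 - i = m + 2 by omega, show i + m - i = m by omega]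
    simp
  have old : ∀ k x y, S.gaps[k]? = some x → S.gaps[k + 1]? = some y → ∀ k',
      (k' = k ∧ k < i ∨ k' = k + 2 ∧ i ≤ k) →
      (∃ j, j ≠ k' ∧ S'.gaps[j]? = some y ∧ S'.gaps[j + 1]? = some x) ∨
      (A_Small_Cn S' x ∧ A_Small_Cn S' y) ∨ (x = 0 ∧ y = 1) := by
    intro k x y hx hy k' hk'
    rcases h.strand k x y hx hy with ⟨j, hj, h3, h4⟩ | h3 | h3
    · left
      by_cases h5 : j < i
      · exact ⟨j, by omega, by rw [g1 _ (by omega), h3], by rw [g1 _ (by omega), h4]⟩
      · exact ⟨j + 2, by omega, by rw [g2 _ (by omega), h3],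
          by rw [show j + 2 + 1 = (j + 1) + 2 by omega, g2 _ (by omega), h4]⟩
    · exact Or.inr (Or.inl h3)
    · exact Or.inr (Or.inr h3)
  constructor
  · intro k x y hx hy
    by_cases h1 : k = i
    · subst h1
      rw [g1 _ le_rfl, gi] at hx
      rw [gi'] at hy
      obtain rfl := Option.some.inj hx
      obtain rfl := Option.some.inj hy
      exact Or.inl ⟨k + 1, by omega, gi', by rw [g2 _ le_rfl, gi]⟩
    by_cases h2 : k = i + 1
    · subst h2
      rw [gi'] at hx
      rw [show i + 1 + 1 = i + 2 by omega, g2 _ le_rfl, gi] at hy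
      obtain rfl := Option.some.inj hx
      obtain rfl := Option.some.inj hy
      exact Or.inl ⟨i, by omega, by rw [g1 _ le_rfl, gi], gi'⟩
    by_cases h3 : k < i
    · rw [g1 _ (by omega)] at hx hy
      exact old k x y hx hy k (by omega)
    · obtain ⟨m, rfl⟩ : ∃ m, k = m + 2 := ⟨k - 2, by omega⟩
      rw [g2 _ (by omega)] at hx
      rw [show m + 2 + 1 = (m + 1) + 2 by omega, g2 _ (by omega)] at hy
      exact old m x y hx hy (m + 2) (by omega)
  · intro x hx
    rcases List.mem_cons.1 hx with hx | hx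
    · left
      change x ∈ P ++ a :: S.nxt :: a :: r
      simp [hx]
    rcases h.face x hx with h1 | h1
    · left
      rw [hg] at h1
      change x ∈ P ++ a :: S.nxt :: a :: r
      simp only [List.mem_append, List.mem_cons] at h1 ⊢
      tauto
    · exact Or.inr h1

theorem A_Small_cap {S S' : Sweep} {i : ℕ} (hI : InvA S) (h : A_Small_Inv S)
    (hx : S.step (.cap i) = some S') : A_Small_Inv S' := by
  have hI' := Inv_step S S' _ hI hx
  obtain ⟨a, m, b, r, hd, hab, hmx, rfl⟩ : ∃ a m b r, S.gaps.drop i = a :: m :: b :: r ∧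
      a ≠ b ∧ 1 < max a b ∧
      S' = ⟨(S.gaps.take i ++ a :: r).map (ident a b), S.faces.erase (max a b), S.nxt,
          S.cor.map (fun x k => ident a b (x k))⟩ := by
    rcases h : S.gaps.drop i with _ | ⟨a, _ | ⟨b, _ | ⟨c, r⟩⟩⟩
    · simp [Sweep.step, h] at hx
    · simp [Sweep.step, h] at hx
    · simp [Sweep.step, h] at hx
    · simp only [Sweep.step, h] at hx
      by_cases hc : a = c ∨ max a c ≤ 1
      · rw [if_pos hc] at hx
        exact absurd hx (by simp)
      · rw [if_neg hc, Option.some.injEq] at hx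
        rw [not_or, not_le] at hc
        exact ⟨a, b, c, r, rfl, hc.1, hc.2, hx.symm⟩
  have hg := A_Small_gaps hd
  have hl := A_Small_len hd
  set P := S.gaps.take i with hP
  set S' : Sweep := ⟨(P ++ a :: r).map (ident a b), S.faces.erase (max a b), S.nxt,
          S.cor.map (fun x k => ident a b (x k))⟩ with hS'
  -- the identification
  have fa : ident a b a = ident a b b := by
    unfold ident
    split_ifs <;> omega
  have f0 : ident a b 0 = 0 := by
    unfold ident
    rw [if_neg (by omega)]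
  have f1 : ident a b 1 = 1 := by
    unfold ident
    rw [if_neg (by omega)]
  have fx : ∀ x, x ≠ max a b → ident a b x = x := by
    intro x hx
    unfold ident
    rw [if_neg hx]
  have cm : ∀ x, A_Small_Cn S x → A_Small_Cn S' (ident a b x) := by
    rintro x ⟨y, hy, k, hk⟩
    exact ⟨fun k => ident a b (y k), List.mem_map.2 ⟨y, hy, rfl⟩, k, by simp only [hk]⟩
  -- the gaps
  have gi : S.gaps[i]? = some a := by rw [hg, A_Small_get_ge hl le_rfl]; simp
  have gi1 : S.gaps[i + 1]? = some m := by rw [hg, A_Small_get_ge hl (by omega)]; simp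
  have gi2 : S.gaps[i + 2]? = some b := by rw [hg, A_Small_get_ge hl (by omega)]; simp
  have g0 : S'.gaps = (P ++ a :: r).map (ident a b) := rfl
  have g1 : ∀ k, k ≤ i → S'.gaps[k]? = (S.gaps[k]?).map (ident a b) := by
    intro k hk
    rw [g0, List.getElem?_map, hg]
    congr 1
    rcases lt_or_eq_of_le hk with h1 | h1
    · exact A_Small_get_lt hl h1
    · rw [A_Small_get_ge hl (by omega), A_Small_get_ge hl (by omega), h1]
      simp
  have g2 : ∀ k, i ≤ k → S'.gaps[k]? = (S.gaps[k + 2]?).map (ident a b) := by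
    intro k hk
    rcases eq_or_lt_of_le hk with h1 | h1
    · rw [← h1, g1 i le_rfl, gi, gi2, Option.map_some, Option.map_some, fa]
    rw [g0, List.getElem?_map, hg, A_Small_get_ge hl (by omega), A_Small_get_ge hl (by omega)]
    congr 1
    obtain ⟨n, rfl⟩ : ∃ n, k = i + (n + 1) := ⟨k - i - 1, by omega⟩
    rw [show i + (n + 1) + 2 - i = n + 3 by omega, show i + (n + 1) - i = n + 1 by omega]
    simp
  -- the strands which stay
  have keep : ∀ j x y, j ≠ i → j ≠ i + 1 → S.gaps[j]? = some x → S.gaps[j + 1]? = some y →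
      ∃ k, (k = j ∧ j < i ∨ j = k + 2 ∧ i ≤ k) ∧ S'.gaps[k]? = some (ident a b x) ∧
        S'.gaps[k + 1]? = some (ident a b y) := by
    intro j x y h1 h2 hx hy
    by_cases h3 : j < i
    · refine ⟨j, Or.inl ⟨rfl, h3⟩, ?_, ?_⟩
      · rw [g1 _ (by omega), hx, Option.map_some]
      · rw [g1 _ (by omega), hy, Option.map_some]
    · obtain ⟨k, rfl⟩ : ∃ k, j = k + 2 := ⟨j - 2, by omega⟩
      refine ⟨k, Or.inr ⟨rfl, by omega⟩, ?_, ?_⟩
      · rw [g2 _ (by omega), hx, Option.map_some]
      · rw [g2 _ (by omega), show k + 1 + 2 = k + 2 + 1 by omega, hy, Option.map_some]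
  have old : ∀ κ x y, S.gaps[κ]? = some x → S.gaps[κ + 1]? = some y → ∀ k,
      (k = κ ∧ κ < i ∨ κ = k + 2 ∧ i ≤ k) →
      (∃ j, j ≠ k ∧ S'.gaps[j]? = some (ident a b y) ∧ S'.gaps[j + 1]? = some (ident a b x)) ∨
      (A_Small_Cn S' (ident a b x) ∧ A_Small_Cn S' (ident a b y)) ∨
        (ident a b x = 0 ∧ ident a b y = 1) := by
    intro κ x y hx hy k hk
    rcases h.strand κ x y hx hy with ⟨j, hj, h3, h4⟩ | ⟨h3, h4⟩ | ⟨h3, h4⟩
    · by_cases h5 : j = i
      · subst h5
        rw [gi] at h3
        rw [gi1] at h4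
        obtain rfl := Option.some.inj h3
        obtain rfl := Option.some.inj h4
        rcases h.strand (j + 1) m b gi1 gi2 with ⟨j', hj', h6, h7⟩ | ⟨h6, h7⟩ | ⟨h6, h7⟩
        · have n1 : j' ≠ j := by
            intro e
            rw [e, gi] at h6
            exact hab (Option.some.inj h6)
          have n2 : j' ≠ κ := by
            intro e
            rw [e, hx] at h6
            rw [e, hy] at h7
            exact hab ((Option.some.inj h7).trans (Option.some.inj h6))
          obtain ⟨k', hk', h8, h9⟩ := keep j' _ _ n1 hj' h6 h7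
          exact Or.inl ⟨k', by omega, by rw [h8, fa], h9⟩
        · exact Or.inr (Or.inl ⟨cm _ h6, by rw [fa]; exact cm _ h7⟩)
        · exact Or.inr (Or.inr ⟨by rw [h6, f0], by rw [fa]; exact (congrArg (ident a b) h7).trans f1⟩)
      by_cases h5' : j = i + 1
      · subst h5'
        rw [gi1] at h3
        rw [show i + 1 + 1 = i + 2 by omega, gi2] at h4
        obtain rfl := Option.some.inj h3
        obtain rfl := Option.some.inj h4
        rcases h.strand i a m gi gi1 with ⟨j', hj', h6, h7⟩ | ⟨h6, h7⟩ | ⟨h6, h7⟩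
        · have n1 : j' ≠ i + 1 := by
            intro e
            rw [e, show i + 1 + 1 = i + 2 by omega, gi2] at h7
            exact hab (Option.some.inj h7).symm
          have n2 : j' ≠ κ := by
            intro e
            rw [e, hx] at h6
            rw [e, hy] at h7
            exact hab ((Option.some.inj h7).symm.trans (Option.some.inj h6).symm)
          obtain ⟨k', hk', h8, h9⟩ := keep j' _ _ hj' n1 h6 h7
          exact Or.inl ⟨k', by omega, h8, by rw [h9, fa]⟩
        · exact Or.inr (Or.inl ⟨by rw [← fa]; exact cm _ h6, cm _ h7⟩)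
        · exact Or.inr (Or.inr ⟨by rw [← fa]; exact (congrArg (ident a b) h6).trans f0,
            by rw [h7, f1]⟩)
      · obtain ⟨k', hk', h8, h9⟩ := keep j _ _ h5 h5' h3 h4
        exact Or.inl ⟨k', by omega, h8, h9⟩
    · exact Or.inr (Or.inl ⟨cm _ h3, cm _ h4⟩)
    · exact Or.inr (Or.inr ⟨by rw [h3, f0], by rw [h4, f1]⟩)
  constructor
  · intro k x y hx hy
    by_cases h1 : k < i
    · rw [g1 _ (by omega), Option.map_eq_some_iff] at hx hy
      obtain ⟨x', hx1, rfl⟩ := hx
      obtain ⟨y', hy1, rfl⟩ := hy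
      exact old k x' y' hx1 hy1 k (by omega)
    · rw [g2 _ (by omega), Option.map_eq_some_iff] at hx hy
      obtain ⟨x', hx1, rfl⟩ := hx
      obtain ⟨y', hy1, rfl⟩ := hy
      exact old (k + 2) x' y' hx1 hy1 k (by omega)
  · intro x hx
    have hx' : x ∈ S.faces.erase (max a b) := hx
    rw [hI.nodup.mem_erase_iff] at hx'
    obtain ⟨hx1, hx2⟩ := hx'
    have hxf := fx x hx1
    rcases h.face x hx2 with h1 | h1
    · rw [hg] at h1
      simp only [List.mem_append, List.mem_cons] at h1
      have mem : ∀ z, z ∈ P ++ a :: r → ident a b z ∈ S'.gaps := fun z hz =>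
        List.mem_map.2 ⟨z, hz, rfl⟩
      rcases h1 with h1 | h1 | h1 | h1 | h1
      · left
        rw [← hxf]
        exact mem x (by simp [h1])
      · left
        rw [← hxf]
        exact mem x (by simp [h1])
      · subst h1
        rcases h.strand i a x gi gi1 with ⟨j', hj', h6, h7⟩ | ⟨h6, h7⟩ | ⟨h6, h7⟩
        · have n1 : j' ≠ i + 1 := by
            intro e
            rw [e, show i + 1 + 1 = i + 2 by omega, gi2] at h7
            exact hab (Option.some.inj h7).symm
          obtain ⟨k', _, h8, _⟩ := keep j' _ _ hj' n1 h6 h7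
          left
          rw [hxf] at h8
          exact List.mem_of_getElem? h8
        · right
          rw [← hxf]
          exact cm _ h7
        · left
          rw [h7]
          exact List.mem_of_getLast? hI'.lst
      · left
        rw [← hxf, h1, ← fa]
        exact mem a (by simp)
      · left
        rw [← hxf]
        exact mem x (by simp [h1])
    · right
      rw [← hxf]
      exact cm _ h1

theorem A_Small_sweep {S S' : Sweep} {w : List TPiece} (hI : InvA S) (h : A_Small_Inv S)
    (hx : sweep w S = some S') : A_Small_Inv S' := by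
  induction w generalizing S with
  | nil =>
    rw [sweep, Option.some.injEq] at hx
    rwa [← hx]
  | cons x w ih =>
    rw [sweep] at hx
    obtain ⟨S1, h1, h2⟩ := Option.bind_eq_some_iff.1 hx
    refine ih (Inv_step S S1 x hI h1) ?_ h2
    cases x with
    | cup i => exact A_Small_cup h h1
    | cap i => exact A_Small_cap hI h h1
    | tw i => exact A_Small_tw h h1

/-- Every bounded face of a template has a corner. -/
theorem face_corner {w : List TPiece} {c : ℕ} {F : Finset ℕ} {cor : Fin c → Fin 4 → ℕ}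
    (h : IsTemplate w c F cor) {f : ℕ} (hf : f ∈ F) : ∃ v k, cor v k = f := by
  obtain ⟨S, hS, hg, hcor, hF⟩ := h
  rw [hF] at hf
  simp only [Finset.mem_erase, List.mem_toFinset] at hf
  have h1 := (A_Small_sweep Inv_init A_Small_init hS).face f hf.2.2
  rcases h1 with h1 | ⟨y, hy, k, hk⟩
  · rw [hg] at h1
    simp only [List.mem_cons, List.not_mem_nil, or_false] at h1
    rcases h1 with h1 | h1
    · exact absurd h1 hf.2.1
    · exact absurd h1 hf.1
  · rw [hcor, List.mem_ofFn] at hy
    obtain ⟨v, rfl⟩ := hy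
    exact ⟨v, k, hk⟩

end Pool.Agent.H63.CLK
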