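import Pool.Agent.H63.CLK.A_Base

/-! # The local relation for the turn backs -/

namespace Pool.Agent.H63.CLK

open Pool.Agent.H63.VC7 Pool.Agent.H63.VC10

/-- The weight of a vertex. -/
noncomputable def cK (N t b sL sR : ℕ) : ℂ :=
  qbin (qz N) (N - t) b * qbin (qz N) (N - t) (N - b - sL - sR) * qbin (qz N) t sL *
    qbin (qz N) t sR

theorem A_Ver_qbz (N n s : ℕ) (h : s ≤ n) : qbz N n s = qbin (qz N) n s := by
  unfold qbz qbin
  rw [show (n : ℤ) - s = ((n - s : ℕ) : ℤ) by omega, ib_nat, ib_nat, div_eq_mul_inv, mul_inv]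

theorem A_Ver_ffz (N S t : ℕ) (h : t ≤ S) :
    ffz N S t * brf (qz N) (S - t) = brf (qz N) S := by
  induction t with
  | zero => simp [ffz]
  | succ t ih =>
    rw [ffz_succ, ← ih (by omega), show S - t = (S - (t + 1)) + 1 by omega, brf_succ,
      show ((S - (t + 1) : ℕ) : ℤ) + 1 = (S : ℤ) - t by omega]
    ring

theorem A_Ver_ffz_zero (N S t : ℕ) (h : S < t) : ffz N S t = 0 := by
  unfold ffz
  refine Finset.prod_eq_zero (Finset.mem_range.2 h) ?_
  rw [sub_self, br_zero]

theorem A_Ver_cK (N t b sL sR : ℕ) (ht : t ≤ N) (hL : sL ≤ t) (hR : sR ≤ t) :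
    (brf (qz N) N)⁻¹ * Kc N t b sL sR =
      if b ≤ N - t ∧ b + sL + sR ≤ N ∧ t ≤ b + sL + sR then cK N t b sL sR else 0 := by
  by_cases h1 : b ≤ N - t
  swap
  · rw [if_neg (by omega), Kc, qbz_out N (N - t) (Or.inr (by omega))]
    ring
  by_cases h2 : b + sL + sR ≤ N
  swap
  · rw [if_neg (by omega), Kc_big N t ht b sL sR (by omega) (by omega) (by omega), mul_zero]
  have e0 : (b : ℤ) + sL + sR = ((b + sL + sR : ℕ) : ℤ) := by push_cast; ring
  by_cases h3 : t ≤ b + sL + sR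
  swap
  · rw [if_neg (by omega), Kc, e0, A_Ver_ffz_zero N _ t (by omega)]
    ring
  rw [if_pos ⟨h1, h2, h3⟩]
  unfold Kc cK
  rw [e0, A_Ver_qbz N t sL hL, A_Ver_qbz N t sR hR, A_Ver_qbz N (N - t) b h1]
  have f := A_Ver_ffz N (b + sL + sR) t h3
  have m := A_Em_brf_mul N (b + sL + sR) h2
  have n1 : brf (qz N) (b + sL + sR - t) ≠ 0 := A_Em_brf_ne N (by omega)
  have n2 : brf (qz N) (N - (b + sL + sR)) ≠ 0 := A_Em_brf_ne N (by omega)
  have n3 : brf (qz N) N ≠ 0 := A_Em_brf_ne N le_rfl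
  have e2 : qbin (qz N) (N - t) (N - b - sL - sR) =
      brf (qz N) (N - t) / (brf (qz N) (N - (b + sL + sR)) * brf (qz N) (b + sL + sR - t)) := by
    unfold qbin
    rw [show N - b - sL - sR = N - (b + sL + sR) by omega,
      show N - t - (N - (b + sL + sR)) = b + sL + sR - t by omega]
  rw [e2]
  have e3 : (brf (qz N) N)⁻¹ * ffz N ((b + sL + sR : ℕ) : ℤ) t =
      1 / (brf (qz N) (N - (b + sL + sR)) * brf (qz N) (b + sL + sR - t)) := by
    rw [eq_div_iff (mul_ne_zero n2 n1)]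
    have : (brf (qz N) N)⁻¹ * ffz N ((b + sL + sR : ℕ) : ℤ) t *
        (brf (qz N) (N - (b + sL + sR)) * brf (qz N) (b + sL + sR - t)) =
        (brf (qz N) N)⁻¹ * ((ffz N ((b + sL + sR : ℕ) : ℤ) t * brf (qz N) (b + sL + sR - t)) *
          brf (qz N) (N - (b + sL + sR))) := by ring
    rw [this, f, m, inv_mul_cancel₀ n3]
  linear_combination (qbin (qz N) t sL * qbin (qz N) t sR * (qbin (qz N) (N - t) b *
    brf (qz N) (N - t))) * e3

/-- The relation for the turn backs. -/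
theorem A_Base_ver (N t y b c : ℕ) (ht : t ≤ N) (hy : y ≤ N) (hb : b ≤ N) (hc : c ≤ N)
    (Ts l : List ℕ) :
    actE (qz N) N t 0 (Tht N y (b :: c :: Ts)) l =
      ∑ sL ∈ Finset.range (t + 1), ∑ sR ∈ Finset.range (t + 1),
        if sL ≤ y ∧ sR ≤ c ∧ b ≤ N - t ∧ b + sL + sR ≤ N ∧ t ≤ b + sL + sR then
          cK N t b sL sR * Tht N (y - sL) ((b + sL + sR) :: (c - sR) :: Ts) l else 0 := by
  rcases l with _ | ⟨s, _ | ⟨u, as⟩⟩
  · rw [Finset.sum_eq_zero fun sL _ => Finset.sum_eq_zero fun sR _ => by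
      rw [Tht_len N _ _ _ (by simp), mul_zero, ite_self]]
    simp [actE]
  · rw [Finset.sum_eq_zero fun sL _ => Finset.sum_eq_zero fun sR _ => by
      rw [Tht_len N _ _ _ (by simp), mul_zero, ite_self]]
    simp [actE]
  · have hact : actE (qz N) N t 0 (Tht N y (b :: c :: Ts)) (s :: u :: as) =
        ∑ a : Fin (N + 1), ∑ b' : Fin (N + 1),
          (if h : s < N + 1 ∧ u < N + 1 then
            VC10.em (qz N) N t (⟨s, h.1⟩, ⟨u, h.2⟩) (a, b') else 0) *
          Tht N y (b :: c :: Ts) ((a : ℕ) :: (b' : ℕ) :: as) := by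
      simp [actE]
    rw [hact]
    by_cases hsu : s ≤ N ∧ u ≤ N
    swap
    · have h1 : ¬ (s < N + 1 ∧ u < N + 1) := by omega
      simp only [dif_neg h1, zero_mul, Finset.sum_const_zero]
      symm
      refine Finset.sum_eq_zero fun sL _ => Finset.sum_eq_zero fun sR _ => ?_
      rw [Tht_big N _ _ _ _ _ _ _ hsu, mul_zero, ite_self]
    obtain ⟨hs, hu⟩ := hsu
    have h1 : s < N + 1 ∧ u < N + 1 := by omega
    simp only [dif_pos h1]
    -- left side
    have e1 : ∑ a : Fin (N + 1), ∑ b' : Fin (N + 1),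
        VC10.em (qz N) N t (⟨s, h1.1⟩, ⟨u, h1.2⟩) (a, b') *
          Tht N y (b :: c :: Ts) ((a : ℕ) :: (b' : ℕ) :: as) =
        ∑ β ∈ Finset.range (N + 1), (brf (qz N) β * Rt N c Ts β as) *
          ((brf (qz N) N)⁻¹ * ∑ sL ∈ Finset.range (t + 1), ∑ sR ∈ Finset.range (t + 1),
            Kc N t b sL sR * flz N ((y : ℤ) - sL) (b + sL + sR) ((β : ℤ) - sR) s u) := by
      have e2 : ∀ β ∈ Finset.range (N + 1), (brf (qz N) β * Rt N c Ts β as) *
          ((brf (qz N) N)⁻¹ * ∑ sL ∈ Finset.range (t + 1), ∑ sR ∈ Finset.range (t + 1),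
            Kc N t b sL sR * flz N ((y : ℤ) - sL) (b + sL + sR) ((β : ℤ) - sR) s u) =
          ∑ x : I2 N, (brf (qz N) β * Rt N c Ts β as) *
            (VC10.em (qz N) N t (⟨s, h1.1⟩, ⟨u, h1.2⟩) x * flz N y b β (x.1 : ℕ) (x.2 : ℕ)) := by
        intro β hβ
        have hβ' := Finset.mem_range.1 hβ
        have h2 := A_Loc_em N t ht y b β (by omega) (by omega) (by omega) (by omega)
          (⟨s, h1.1⟩, ⟨u, h1.2⟩)
        simp only at h2
        rw [← h2, inv_mul_cancel_left₀ (A_Em_brf_ne N le_rfl), Finset.mul_sum]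
      rw [Finset.sum_congr rfl e2,
        Finset.sum_comm (s := Finset.range (N + 1)) (t := (Finset.univ : Finset (I2 N))),
        Fintype.sum_prod_type]
      refine Finset.sum_congr rfl fun a _ => Finset.sum_congr rfl fun b' _ => ?_
      rw [Tht_expand N y b c hb Ts a b' as (by omega) (by omega), Finset.mul_sum]
      refine Finset.sum_congr rfl fun β _ => ?_
      simp only
      ring
    rw [e1]
    simp only [Finset.mul_sum]
    rw [Finset.sum_comm]
    refine Finset.sum_congr rfl fun sL hL => ?_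
    rw [Finset.sum_comm]
    refine Finset.sum_congr rfl fun sR hR => ?_
    have hL' := Finset.mem_range.1 hL
    have hR' := Finset.mem_range.1 hR
    have e3 : ∀ β ∈ Finset.range (N + 1), brf (qz N) β * Rt N c Ts β as * ((brf (qz N) N)⁻¹ *
        (Kc N t b sL sR * flz N ((y : ℤ) - sL) (b + sL + sR) ((β : ℤ) - sR) s u)) =
        ((brf (qz N) N)⁻¹ * Kc N t b sL sR) * (flz N ((y : ℤ) - sL) (b + sL + sR) ((β : ℤ) - sR) s u *
          (brf (qz N) β * Rt N c Ts β as)) := fun β _ => by ring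
    rw [Finset.sum_congr rfl e3, ← Finset.mul_sum, A_Ver_cK N t b sL sR ht (by omega) (by omega)]
    by_cases h2 : b ≤ N - t ∧ b + sL + sR ≤ N ∧ t ≤ b + sL + sR
    swap
    · rw [if_neg h2, if_neg (fun h3 => h2 h3.2.2), zero_mul]
    rw [if_pos h2]
    by_cases h3 : sL ≤ y
    swap
    · rw [if_neg (fun h4 => h3 h4.1), Finset.sum_eq_zero, mul_zero]
      intro β _
      rw [flz_neg N (Or.inl (by omega)), zero_mul]
    by_cases h4 : sR ≤ c
    swap
    · rw [if_neg (fun h5 => h4 h5.2.1), Finset.sum_eq_zero, mul_zero]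
      intro β _
      by_cases h5 : β < sR
      · rw [flz_neg N (Or.inr (Or.inl (by omega))), zero_mul]
      · rw [Rt]
        by_cases hTs : Ts = []
        · rw [if_pos hTs, if_neg (by omega)]; ring
        · rw [if_neg hTs, if_neg (by omega)]; ring
    rw [if_pos ⟨h3, h4, h2⟩]
    congr 1
    rw [Tht_expand N (y - sL) (b + sL + sR) (c - sR) h2.2.1 Ts s u as hs hu]
    -- shift of the summation
    have e4 : ∑ β ∈ Finset.range (N + 1), flz N ((y : ℤ) - sL) (b + sL + sR) ((β : ℤ) - sR) s u *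
        (brf (qz N) β * Rt N c Ts β as) =
        ∑ β ∈ Finset.range (N + 1 - sR), flz N ((y : ℤ) - sL) (b + sL + sR) (β : ℤ) s u *
          (brf (qz N) (β + sR) * Rt N c Ts (β + sR) as) := by
      have e5 : Finset.range (N + 1) = Finset.range (sR + (N + 1 - sR)) := by
        congr 1; omega
      rw [e5, Finset.sum_range_add, Finset.sum_eq_zero, zero_add]
      · refine Finset.sum_congr rfl fun β _ => ?_
        rw [show ((sR + β : ℕ) : ℤ) - sR = β by push_cast; ring, add_comm sR β]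
      · intro β hβ
        have hβ' := Finset.mem_range.1 hβ
        rw [flz_neg N (Or.inr (Or.inl (by omega))), zero_mul]
    rw [e4]
    have e6 : ∀ β : ℕ, flz N ((y - sL : ℕ) : ℤ) ((b + sL + sR : ℕ) : ℤ) (β : ℤ) s u *
        (brf (qz N) β * Rt N (c - sR) Ts β as) =
        flz N ((y : ℤ) - sL) (b + sL + sR) (β : ℤ) s u *
          (brf (qz N) (β + sR) * Rt N c Ts (β + sR) as) := by
      intro β
      rw [Rt_shift N c sR h4 hc Ts β as, show ((y - sL : ℕ) : ℤ) = (y : ℤ) - sL by omega]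
      push_cast
      rfl
    rw [Finset.sum_congr rfl fun β _ => e6 β]
    apply Finset.sum_subset (Finset.range_mono (by omega))
    intro β hβ hβ'
    rw [Finset.mem_range] at hβ hβ'
    have : Rt N c Ts (β + sR) as = 0 := by
      rw [Rt]
      by_cases hTs : Ts = []
      · rw [if_pos hTs, if_neg (by omega)]
      · rw [if_neg hTs, if_neg (by omega)]
    rw [this]
    ring

end Pool.Agent.H63.CLK
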