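import Pool.Agent.H63.CLK.B_Sl
import Pool.Agent.H63.VC7.DGb

/-! # The uniform bound of the factor of a twist region -/

namespace Pool.Agent.H63.CLK

open Pool.Agent.H63.VC hiding ext
open Pool.Agent.H63.VC3 Pool.Agent.H63.VC4 Pool.Agent.H63.VC6 Pool.Agent.H63.VC7 Complex

/-- Bounds of the slot factors at all summation points. -/
theorem B_Bound_slot : ∃ C : ℝ, 0 < C ∧ ∃ D : ℕ, ∀ M k X : ℕ, 2 ≤ M → k < M → X < M →
    ∀ E : ℝ, (∀ X' : ℕ, (X' = X ∨ X' = M - 1 - X) → 2 * X' + 1 ≤ M → X' ≤ k →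
      VC3.gg ((k : ℝ) / M) ((X' : ℝ) / M) ≤ E) →
    S M k ^ 2 * ‖qc M k ((vl 2 M X : ℝ) : ℂ)‖ ≤ C * (M : ℝ) ^ D * Real.exp (M * E) ∧
    S M k ^ 2 * ‖deriv (qc M k) ((vl 2 M X : ℝ) : ℂ)‖ ≤ C * (M : ℝ) ^ D * Real.exp (M * E) := by
  obtain ⟨C, hC, D, h⟩ := SlotX_core
  refine ⟨C, hC, D, fun M k X hM hk hX E hE => ?_⟩
  rcases Nat.lt_or_ge M (2 * X + 1) with hX' | hX'
  · have e := qc_reflect M k (M - 1 - X) (by omega)
    have e2 : M - 1 - (M - 1 - X) = X := by omega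
    rw [e2] at e
    rw [e.1, e.2, norm_neg]
    exact h M k (M - 1 - X) hM hk (by omega) E fun h' => hE _ (Or.inr rfl) (by omega) h'
  · exact h M k X hM hk hX' E fun h' => hE _ (Or.inl rfl) hX' h'

theorem B_Bound_gg (M k X : ℕ) (hM : 2 ≤ M) (hk : k < M) (hX : 2 * X + 1 ≤ M) (hXk : X ≤ k) :
    VC3.gg ((k : ℝ) / M) ((X : ℝ) / M) ≤ sl ((k : ℝ) / M) := by
  have hM0 : (0 : ℝ) < M := by exact_mod_cast (by omega : 0 < M)
  have l0 : (0 : ℝ) ≤ (X : ℝ) / M := by positivity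
  have l1 : (X : ℝ) / M ≤ (k : ℝ) / M := by
    have : (X : ℝ) ≤ k := by exact_mod_cast hXk
    gcongr
  have l2 : (k : ℝ) / M ≤ 1 := by
    rw [div_le_one hM0]
    exact_mod_cast hk.le
  have l3 : (X : ℝ) / M ≤ 1 / 2 := by
    rw [div_le_iff₀ hM0]
    have : (2 : ℝ) * X + 1 ≤ M := by exact_mod_cast hX
    linarith
  exact gg_le_sl _ _ l0 l1 l3 l2

/-- The derivative of the summand. -/
theorem B_Bound_deriv (r : ℝ) (M k X : ℕ) (hM : 2 ≤ M) (hX : X < M) (B : ℝ)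
    (h1 : S M k ^ 2 * ‖qc M k ((vl 2 M X : ℝ) : ℂ)‖ ≤ B)
    (h2 : S M k ^ 2 * ‖deriv (qc M k) ((vl 2 M X : ℝ) : ℂ)‖ ≤ B) :
    S M k ^ 2 * ‖deriv (NT (m := 1) r M Finset.univ (fun _ => k)) ((vl 2 M X : ℝ) : ℂ)‖ ≤
      (4 * Real.pi * |r| * M + 4 * Real.pi + 2) * B := by
  have h := DGb_deriv (m := 1) r M Finset.univ (fun _ => k) X hM hX (fun _ => B)
    (fun _ _ => h1) (fun _ _ => h2)
  simpa using h

theorem B_Bound_cG (a : ℤ) (M : ℕ) : ‖cG a M‖ = 1 := by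
  unfold cG
  rw [Complex.norm_exp]
  have e : (a * (Real.pi * I / 2 - Real.pi * I * M / 4 - Real.pi * I / (4 * M)) : ℂ) =
      ((a * (Real.pi / 2 - Real.pi * M / 4 - Real.pi / (4 * M)) : ℝ) : ℂ) * I := by
    push_cast
    ring
  rw [e, Complex.re_ofReal_mul, Complex.I_re, mul_zero, Real.exp_zero]

/-- The norm of the factor. -/
theorem B_Bound_eta (a : ℤ) (N t : ℕ) : ‖eta a N t‖ =
    S (N + 1) t ^ 2 * ‖DG1 ((a : ℝ) / 2) (N + 1) t‖ / (4 * Real.pi * ((N + 1 : ℕ) : ℝ)) := by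
  unfold eta
  rw [norm_div, norm_mul, norm_mul, norm_mul, B_Bound_cG, norm_pow, norm_neg, norm_one, one_pow,
    one_mul, one_mul, norm_mul, norm_mul, Complex.norm_natCast, Complex.norm_ofNat, norm_real,
    Real.norm_eq_abs, abs_of_pos Real.pi_pos]
  congr 2
  rw [← ofReal_pow, norm_real, Real.norm_eq_abs, abs_of_nonneg (sq_nonneg _)]

/-- The sum over a set of channels. -/
theorem B_Bound_sum : ∃ C : ℝ, 0 < C ∧ ∃ D : ℕ, ∀ (r : ℝ) (M k : ℕ) (s : Finset ℕ) (E : ℝ),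
    2 ≤ M → k < M → s ⊆ Finset.range M →
    (∀ X ∈ s, ∀ X' : ℕ, (X' = X ∨ X' = M - 1 - X) → 2 * X' + 1 ≤ M → X' ≤ k →
      VC3.gg ((k : ℝ) / M) ((X' : ℝ) / M) ≤ E) →
    S M k ^ 2 * ‖∑ X ∈ s, deriv (NT (m := 1) r M Finset.univ (fun _ => k))
      ((vl 2 M X : ℝ) : ℂ)‖ ≤ (4 * Real.pi * |r| + 4 * Real.pi + 2) * C * (M : ℝ) ^ D *
      Real.exp (M * E) := by
  obtain ⟨C, hC, D, h⟩ := B_Bound_slot
  have hpi := Real.pi_pos
  refine ⟨C, hC, D + 2, fun r M k s E hM hk hs hE => ?_⟩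
  have hM0 : (0 : ℝ) < M := by exact_mod_cast (by omega : 0 < M)
  have hM1 : (1 : ℝ) ≤ M := by exact_mod_cast (by omega : 1 ≤ M)
  have hd : ∀ X ∈ s, S M k ^ 2 *
      ‖deriv (NT (m := 1) r M Finset.univ (fun _ => k)) ((vl 2 M X : ℝ) : ℂ)‖ ≤
      (4 * Real.pi * |r| * M + 4 * Real.pi + 2) * (C * (M : ℝ) ^ D * Real.exp (M * E)) := by
    intro X hX
    have hXM := Finset.mem_range.1 (hs hX)
    have h1 := h M k X hM hk hXM E (hE X hX)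
    exact B_Bound_deriv r M k X hM hXM _ h1.1 h1.2
  have hcard : (s.card : ℝ) ≤ M := by
    have := Finset.card_le_card hs
    rw [Finset.card_range] at this
    exact_mod_cast this
  calc S M k ^ 2 * ‖∑ X ∈ s, deriv (NT (m := 1) r M Finset.univ (fun _ => k))
        ((vl 2 M X : ℝ) : ℂ)‖
      ≤ S M k ^ 2 * ∑ X ∈ s, ‖deriv (NT (m := 1) r M Finset.univ (fun _ => k))
        ((vl 2 M X : ℝ) : ℂ)‖ := mul_le_mul_of_nonneg_left (norm_sum_le _ _) (sq_nonneg _)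
    _ = ∑ X ∈ s, S M k ^ 2 * ‖deriv (NT (m := 1) r M Finset.univ (fun _ => k))
        ((vl 2 M X : ℝ) : ℂ)‖ := by rw [Finset.mul_sum]
    _ ≤ ∑ _X ∈ s, (4 * Real.pi * |r| * M + 4 * Real.pi + 2) *
        (C * (M : ℝ) ^ D * Real.exp (M * E)) := Finset.sum_le_sum hd
    _ = s.card * ((4 * Real.pi * |r| * M + 4 * Real.pi + 2) *
        (C * (M : ℝ) ^ D * Real.exp (M * E))) := by rw [Finset.sum_const, nsmul_eq_mul]
    _ ≤ M * (((4 * Real.pi * |r| + 4 * Real.pi + 2) * M) *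
        (C * (M : ℝ) ^ D * Real.exp (M * E))) := by
        have h1 : 4 * Real.pi * |r| * M + 4 * Real.pi + 2 ≤
            (4 * Real.pi * |r| + 4 * Real.pi + 2) * M := by nlinarith
        have h2 : 0 ≤ C * (M : ℝ) ^ D * Real.exp (M * E) := by positivity
        apply mul_le_mul hcard (mul_le_mul_of_nonneg_right h1 h2) (by positivity) hM0.le
    _ = _ := by ring

theorem B_Bound_DG : ∃ C : ℝ, 0 < C ∧ ∃ D : ℕ, ∀ (r : ℝ) (M k : ℕ), 2 ≤ M → k < M →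
    S M k ^ 2 * ‖DG1 r M k‖ ≤ (4 * Real.pi * |r| + 4 * Real.pi + 2) * C * (M : ℝ) ^ D *
      Real.exp (M * sl ((k : ℝ) / M)) := by
  obtain ⟨C, hC, D, h⟩ := B_Bound_sum
  refine ⟨C, hC, D, fun r M k hM hk => ?_⟩
  unfold DG1 DG
  refine h r M k (Finset.range M) _ hM hk (Finset.Subset.refl _) fun X _ X' _ h1 h2 => ?_
  exact B_Bound_gg M k X' hM hk h1 h2

/-- The uniform bound of the factor of a twist region. -/
theorem eta_bound : ∃ D : ℕ, ∀ a : ℤ, ∃ C : ℝ, 0 < C ∧ ∀ N t : ℕ, t ≤ N →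
    ‖eta a N t‖ ≤ C * ((N + 1 : ℕ) : ℝ) ^ D *
      Real.exp (((N + 1 : ℕ) : ℝ) * sl ((t : ℝ) / ((N + 1 : ℕ) : ℝ))) := by
  obtain ⟨C, hC, D, h⟩ := B_Bound_DG
  have hpi := Real.pi_pos
  refine ⟨D, fun a => ⟨(4 * Real.pi * |(a : ℝ) / 2| + 4 * Real.pi + 2) * C + ‖eta a 0 0‖,
    by positivity, fun N t ht => ?_⟩⟩
  have hE0 : 0 ≤ ‖eta a 0 0‖ := norm_nonneg _
  rcases Nat.eq_zero_or_pos N with hN | hN
  · subst hN
    have ht0 : t = 0 := by omega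
    subst ht0
    have e : sl (((0 : ℕ) : ℝ) / ((0 + 1 : ℕ) : ℝ)) = 0 := by
      unfold sl
      rw [if_pos (by norm_num)]
    rw [e, mul_zero, Real.exp_zero, mul_one]
    push_cast
    rw [one_pow, mul_one]
    have : 0 ≤ (4 * Real.pi * |(a : ℝ) / 2| + 4 * Real.pi + 2) * C := by positivity
    linarith
  · rw [B_Bound_eta]
    have h1 := h ((a : ℝ) / 2) (N + 1) t (by omega) (by omega)
    have hM1 : (1 : ℝ) ≤ ((N + 1 : ℕ) : ℝ) := by exact_mod_cast (by omega : 1 ≤ N + 1)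
    have h2 : (1 : ℝ) ≤ 4 * Real.pi * ((N + 1 : ℕ) : ℝ) := by
      have := Real.pi_gt_three
      nlinarith
    calc S (N + 1) t ^ 2 * ‖DG1 ((a : ℝ) / 2) (N + 1) t‖ / (4 * Real.pi * ((N + 1 : ℕ) : ℝ))
        ≤ S (N + 1) t ^ 2 * ‖DG1 ((a : ℝ) / 2) (N + 1) t‖ :=
          div_le_self (by positivity) h2
      _ ≤ _ := h1
      _ ≤ _ := by
          gcongr
          linarith

end Pool.Agent.H63.CLK
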