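import Pool.Agent.H63.CLK.B_SE

/-!
# CLK part B5: the corners

The corner factor `S_n / (S_s S_(n-s))` with `n = M ν + b1`, `s = M σ + b2`. Everything follows from `B_SE`.
The potential of a corner is `cpo ν σ = ff ν - ff σ - ff (ν - σ)`.
-/

set_option autoImplicit false

namespace Pool.Agent.H63.CLK

open Pool.Agent.H63.VC Pool.Agent.H63.VC3 Complex Filter Topology

/-- The analytic interpolation of the corner factor. -/
noncomputable def CX (M : ℕ) (b1 b2 ν σ : ℂ) : ℂ :=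
  SE M b1 ν * (SE M b2 σ)⁻¹ * (SE M (b1 - b2) (ν - σ))⁻¹

/-- The potential of a corner. -/
noncomputable def cpo (ν σ : ℂ) : ℂ := ff ν - ff σ - ff (ν - σ)

theorem CX_nat (M n s : ℕ) (hn : n < M) (hs : s ≤ n) (b1 b2 ν σ : ℂ) (h1 : M * ν + b1 = n)
    (h2 : M * σ + b2 = s) : CX M b1 b2 ν σ = ((S M n / (S M s * S M (n - s)) : ℝ) : ℂ) := by
  have h3 : (M : ℂ) * (ν - σ) + (b1 - b2) = ((n - s : ℕ) : ℂ) := by
    rw [Nat.cast_sub hs, ← h1, ← h2]; ring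
  rw [CX, SE_nat M n hn b1 ν h1, SE_nat M s (by omega) b2 σ h2,
    SE_nat M (n - s) (by omega) (b1 - b2) (ν - σ) h3]
  push_cast
  rw [div_eq_mul_inv, mul_inv, mul_assoc]

/-- `CX` is analytic in both variables. -/
theorem CX_differentiableAt (c B : ℝ) (hc : 0 < c) : ∃ M0 : ℕ, ∀ M : ℕ, M0 ≤ M →
    ∀ b1 b2 ν σ : ℂ, ‖b1‖ ≤ B → ‖b2‖ ≤ B → ‖b1 - b2‖ ≤ B → c ≤ ν.re → ν.re ≤ 1 - c → c ≤ σ.re →
    c ≤ (ν - σ).re →
    DifferentiableAt ℂ (fun z : ℂ × ℂ => CX M b1 b2 z.1 z.2) (ν, σ) := by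
  obtain ⟨M0, h⟩ := SE_strip c B hc
  refine ⟨max M0 1, fun M hM b1 b2 ν σ hb1 hb2 hb3 hν0 hν1 hσ0 hνσ => ?_⟩
  have hM0 : M0 ≤ M := le_trans (le_max_left _ _) hM
  have hM1 : 0 < M := lt_of_lt_of_le Nat.one_pos (le_trans (le_max_right _ _) hM)
  have hre : (ν - σ).re = ν.re - σ.re := Complex.sub_re ν σ
  obtain ⟨a1, a2⟩ := h M hM0 b1 ν hb1 hν0 hν1
  obtain ⟨a3, a4⟩ := h M hM0 b2 σ hb2 hσ0 (by rw [hre] at hνσ; linarith)
  obtain ⟨a5, a6⟩ := h M hM0 (b1 - b2) (ν - σ) hb3 hνσ (by rw [hre] at hνσ ⊢; linarith)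
  have d1 := SE_differentiableAt M hM1 b1 ν a1 a2
  have d2 := SE_differentiableAt M hM1 b2 σ a3 a4
  have d3 := SE_differentiableAt M hM1 (b1 - b2) (ν - σ) a5 a6
  have e1 : DifferentiableAt ℂ (fun z : ℂ × ℂ => SE M b1 z.1) (ν, σ) :=
    DifferentiableAt.comp (𝕜 := ℂ) (g := SE M b1) (f := fun z : ℂ × ℂ => z.1) (ν, σ) d1
      differentiableAt_fst
  have e2 : DifferentiableAt ℂ (fun z : ℂ × ℂ => SE M b2 z.2) (ν, σ) :=
    DifferentiableAt.comp (𝕜 := ℂ) (g := SE M b2) (f := fun z : ℂ × ℂ => z.2) (ν, σ) d2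
      differentiableAt_snd
  have e3 : DifferentiableAt ℂ (fun z : ℂ × ℂ => SE M (b1 - b2) (z.1 - z.2)) (ν, σ) :=
    DifferentiableAt.comp (𝕜 := ℂ) (g := SE M (b1 - b2)) (f := fun z : ℂ × ℂ => z.1 - z.2) (ν, σ) d3
      (differentiableAt_fst.sub differentiableAt_snd)
  exact (e1.mul (e2.inv (SE_ne M b2 σ))).mul (e3.inv (SE_ne M (b1 - b2) (ν - σ)))

theorem CX_bound (c B : ℝ) (hc : 0 < c) : ∃ C : ℝ, 0 < C ∧ ∃ M0 : ℕ, ∀ M : ℕ, M0 ≤ M →
    ∀ b1 b2 ν σ : ℂ, ‖b1‖ ≤ B → ‖b2‖ ≤ B → ‖b1 - b2‖ ≤ B → c ≤ ν.re → ν.re ≤ 1 - c → c ≤ σ.re →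
    c ≤ (ν - σ).re → |ν.im| ≤ B → |σ.im| ≤ B → |(ν - σ).im| ≤ B →
    ‖CX M b1 b2 ν σ‖ ≤ C / Real.sqrt M * Real.exp (M * (cpo ν σ).re) := by
  obtain ⟨C, hC, M0, h⟩ := SE_bound c B hc
  refine ⟨C * C * C, by positivity, max M0 1, fun M hM b1 b2 ν σ hb1 hb2 hb3 hν0 hν1 hσ0 hνσ
    hi1 hi2 hi3 => ?_⟩
  have hM0 : M0 ≤ M := le_trans (le_max_left _ _) hM
  have hM1 : 0 < M := lt_of_lt_of_le Nat.one_pos (le_trans (le_max_right _ _) hM)
  have hre : (ν - σ).re = ν.re - σ.re := Complex.sub_re ν σ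
  have a1 := (h M hM0 b1 ν hb1 hν0 hν1 hi1).1
  have a2 := (h M hM0 b2 σ hb2 hσ0 (by rw [hre] at hνσ; linarith) hi2).2
  have a3 := (h M hM0 (b1 - b2) (ν - σ) hb3 hνσ (by rw [hre] at hνσ ⊢; linarith) hi3).2
  have hM' : (0 : ℝ) < M := by exact_mod_cast hM1
  have hs : 0 < Real.sqrt M := Real.sqrt_pos.2 hM'
  have hcp : (M : ℝ) * (cpo ν σ).re = M * (ff ν).re + -(M * (ff σ).re) +
      -(M * (ff (ν - σ)).re) := by
    rw [cpo, Complex.sub_re, Complex.sub_re]; ring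
  have hL : C * C * C / Real.sqrt M * Real.exp (M * (cpo ν σ).re) =
      (C * Real.sqrt M * Real.exp (M * (ff ν).re)) *
        (C / Real.sqrt M * Real.exp (-(M * (ff σ).re))) *
        (C / Real.sqrt M * Real.exp (-(M * (ff (ν - σ)).re))) := by
    rw [hcp, Real.exp_add, Real.exp_add]
    field_simp
  rw [hL, CX, norm_mul, norm_mul]
  exact mul_le_mul (mul_le_mul a1 a2 (norm_nonneg _) (by positivity)) a3 (norm_nonneg _)
    (by positivity)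

theorem CX_lim (b1 b2 ν σ : ℂ) (h0 : 0 < σ.re) (h1 : 0 < (ν - σ).re) (h2 : ν.re < 1)
    (b1M b2M νM σM : ℕ → ℂ) (hb1 : Tendsto b1M atTop (𝓝 b1)) (hb2 : Tendsto b2M atTop (𝓝 b2))
    (hν : Tendsto νM atTop (𝓝 ν)) (hσ : Tendsto σM atTop (𝓝 σ)) :
    Tendsto (fun M : ℕ => (Real.sqrt M : ℂ) * CX M (b1M M) (b2M M) (νM M) (σM M) *
      exp (-(M * cpo (νM M) (σM M)))) atTop
      (𝓝 (exp ((b1 + 1 / 2) * hh ν - (b2 + 1 / 2) * hh σ - (b1 - b2 + 1 / 2) * hh (ν - σ)))) := by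
  have hre : (ν - σ).re = ν.re - σ.re := Complex.sub_re ν σ
  have l1 := SE_lim b1 ν (by rw [hre] at h1; linarith) h2 b1M νM hb1 hν
  have l2 := SE_lim b2 σ h0 (by rw [hre] at h1; linarith) b2M σM hb2 hσ
  have l3 := SE_lim (b1 - b2) (ν - σ) h1 (by rw [hre]; linarith) (fun M => b1M M - b2M M)
    (fun M => νM M - σM M) (hb1.sub hb2) (hν.sub hσ)
  have l4 := (l1.mul (l2.inv₀ (Complex.exp_ne_zero _))).mul (l3.inv₀ (Complex.exp_ne_zero _))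
  have hlim : exp ((b1 + 1 / 2) * hh ν) * (exp ((b2 + 1 / 2) * hh σ))⁻¹ *
      (exp ((b1 - b2 + 1 / 2) * hh (ν - σ)))⁻¹ =
      exp ((b1 + 1 / 2) * hh ν - (b2 + 1 / 2) * hh σ - (b1 - b2 + 1 / 2) * hh (ν - σ)) := by
    rw [← Complex.exp_neg, ← Complex.exp_neg, ← Complex.exp_add, ← Complex.exp_add]
    congr 1
  rw [hlim] at l4
  refine l4.congr' ?_
  filter_upwards [eventually_gt_atTop 0] with M hM
  have hM' : (0 : ℝ) < M := by exact_mod_cast hM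
  have hs : (Real.sqrt M : ℂ) ≠ 0 := by
    exact_mod_cast (Real.sqrt_pos.2 hM').ne'
  have n2 := SE_ne M (b2M M) (σM M)
  have n3 := SE_ne M (b1M M - b2M M) (νM M - σM M)
  have hcp : exp (-(M * cpo (νM M) (σM M))) = exp (-(M * ff (νM M))) *
      (exp (-(M * ff (σM M))))⁻¹ * (exp (-(M * ff (νM M - σM M))))⁻¹ := by
    rw [← Complex.exp_neg, ← Complex.exp_neg, ← Complex.exp_add, ← Complex.exp_add, cpo]
    congr 1
    ring
  rw [hcp, CX]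
  have n4 := Complex.exp_ne_zero (-(M * ff (σM M)))
  have n5 := Complex.exp_ne_zero (-(M * ff (νM M - σM M)))
  field_simp

/-- The real bound, for all arguments. -/
theorem corner_growth : ∃ C : ℝ, 0 < C ∧ ∃ D : ℕ, ∀ M n s : ℕ, n < M → s ≤ n →
    S M n / (S M s * S M (n - s)) ≤
      C * (M : ℝ) ^ D * Real.exp (M * (Fr (n / M) - Fr (s / M) - Fr ((n - s : ℕ) / M))) := by
  obtain ⟨C, hC, D, h⟩ := S_growth
  refine ⟨C * C * C, by positivity, D + D + D, fun M n s hn hs => ?_⟩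
  have a1 := (h M n hn).1
  have a2 := (h M s (by omega)).2
  have a3 := (h M (n - s) (by omega)).2
  have p1 : 0 < S M n := S_pos hn
  have p2 : 0 < S M s := S_pos (by omega)
  have p3 : 0 < S M (n - s) := S_pos (by omega)
  have hM' : (0 : ℝ) < M := by exact_mod_cast (by omega : 0 < M)
  have hcp : (M : ℝ) * (Fr (n / M) - Fr (s / M) - Fr ((n - s : ℕ) / M)) = M * Fr (n / M) +
      -(M * Fr (s / M)) + -(M * Fr ((n - s : ℕ) / M)) := by ring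
  have hL : C * C * C * (M : ℝ) ^ (D + D + D) *
      Real.exp (M * (Fr (n / M) - Fr (s / M) - Fr ((n - s : ℕ) / M))) =
      (C * (M : ℝ) ^ D * Real.exp (M * Fr (n / M))) *
        (C * (M : ℝ) ^ D * Real.exp (-(M * Fr (s / M)))) *
        (C * (M : ℝ) ^ D * Real.exp (-(M * Fr ((n - s : ℕ) / M)))) := by
    rw [hcp, Real.exp_add, Real.exp_add, pow_add, pow_add]
    ring
  have hq : S M n / (S M s * S M (n - s)) = S M n * (S M s)⁻¹ * (S M (n - s))⁻¹ := by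
    rw [div_eq_mul_inv, mul_inv, mul_assoc]
  rw [hL, hq]
  exact mul_le_mul (mul_le_mul a1 a2 (by positivity) (by positivity)) a3 (by positivity)
    (by positivity)

end Pool.Agent.H63.CLK
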