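import Pool.Agent.H63.VC.Asym
import Pool.Agent.H63.VC.EndB
import Pool.Agent.H63.VC.Riem
import Pool.Agent.H63.VC.SlowL
import Pool.Agent.H63.VC.SlowU
import Pool.Agent.H63.VC.Small
import Pool.Agent.H63.VC3.CritB
import Pool.Agent.H63.VC3.Upper
import Pool.Agent.H63.VC4.KBN
import Pool.Agent.H63.VC4.UpperN
import Pool.Agent.H63.VC6.LocU
import Pool.Agent.H63.VC6.SlotU
import Pool.Agent.H63.VC7.Defs
import Pool.Agent.H63.VC7.Link

/-!
# The factor of a twist region: definitions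

`eta a N t` is the coefficient of the diagram with `t` turn backs in the twist region with `a` half
twists at the root of unity.
-/

namespace Pool.Agent.H63.CLK

open Pool.Agent.H63.VC hiding ext
open Pool.Agent.H63.VC3 Pool.Agent.H63.VC4 Pool.Agent.H63.VC6 Pool.Agent.H63.VC7 Complex

/-- The sum over the channels. -/
noncomputable def DG1 (r : ℝ) (M t : ℕ) : ℂ := DG (m := 1) r M Finset.univ (fun _ => t)

/-- The coefficient of `t` turn backs in a region with `a` half twists. -/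
noncomputable def eta (a : ℤ) (N t : ℕ) : ℂ :=
  (-1) ^ N * cG a (N + 1) * (S (N + 1) t) ^ 2 * DG1 ((a : ℝ) / 2) (N + 1) t /
    (4 * Real.pi * ((N + 1 : ℕ) : ℂ))

/-- The growth rate of the factors `eta a N t`, `τ = t / (N + 1)`. -/
noncomputable def sl (τ : ℝ) : ℝ := if τ ≤ 1 / 2 then 0 else 2 * Fr τ - 2 * Fr (τ - 1 / 2)

/-- The flat contour integral approximating `eta a N t`. -/
noncomputable def etaF (a : ℤ) (N t : ℕ) (ρ Y : ℝ) : ℂ :=
  -I * (-1) ^ N * cG a (N + 1) * ((N + 1 : ℕ) : ℂ) * (S (N + 1) t) ^ 2 *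
    FG (m := 1) ((a : ℝ) / 2) (N + 1) Finset.univ (fun _ => ((yk 2 (N + 1) t : ℝ) : ℂ)) ρ Y

end Pool.Agent.H63.CLK
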