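import Pool.Agent.H63.CLK.B_Window

/-! # The factor of a twist region is a flat contour integral up to a small error -/

namespace Pool.Agent.H63.CLK

open Pool.Agent.H63.VC hiding ext
open Pool.Agent.H63.VC3 Pool.Agent.H63.VC4 Pool.Agent.H63.VC6 Pool.Agent.H63.VC7 Complex

/-- The comparison for one pair `M`, `t`. -/
theorem B_Eta_one (e : ℝ) (he : 0 < e) (he' : e ≤ 1 / 16) : ∃ C : ℝ, 0 < C ∧ ∃ D : ℕ,
    ∀ (r : ℝ) (M t : ℕ) (Y ρ c : ℝ), 2 ≤ M → 2 / ρ ≤ M → 0 < ρ → ρ ≤ e →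
    2 * e ≤ (t : ℝ) / M - 1 / 2 → (t : ℝ) / M - 1 / 2 + 1 / M + 2 * e ≤ 1 / 2 →
    0 < Y → Y ≤ 1 → 1 ≤ 2 * Real.pi * M * Y →
    (∀ s : ℝ, 0 ≤ s → s ≤ Y →
      Real.pi * (Real.cos (Real.pi * e) / Real.sin (Real.pi * e)) * s ^ 2 +
        4 * Real.pi * |r| * ρ * s + c ≤
      Real.pi * (Real.cos (Real.pi * yk 2 M t) / Real.sin (Real.pi * yk 2 M t)) * (ρ / 2) ^ 2) →
    S M t ^ 2 * ‖DG1 r M t + 4 * Real.pi * I * M ^ 2 *
      FG (m := 1) r M Finset.univ (fun _ => ((yk 2 M t : ℝ) : ℂ)) ρ Y‖ ≤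
      (4 * Real.pi * |r| + 4 * Real.pi + 2) * C * (M : ℝ) ^ D *
        Real.exp (M * (sl ((t : ℝ) / M) - c)) := by
  obtain ⟨C1, hC1, D1, hsum⟩ := B_Bound_sum
  obtain ⟨C2, hC2, D2, hker⟩ := B_Win_kernel e he
  have hpi := Real.pi_pos
  refine ⟨C1 + 40 * C2, by positivity, D1 + D2 + 2,
    fun r M t Y ρ c hM hMρ hρ hρe ht1 ht2 hY hY1 hMY hc => ?_⟩
  have hM0 : (0 : ℝ) < M := by exact_mod_cast (by omega : 0 < M)
  have hM1 : (1 : ℝ) ≤ M := by exact_mod_cast (by omega : 1 ≤ M)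
  have hinv : (0 : ℝ) < 1 / M := by positivity
  have hyk : yk 2 M t = (t : ℝ) / M - 1 / 2 + 1 / M := by
    unfold yk bt
    push_cast
    ring
  have hτ : 1 / 2 < (t : ℝ) / M := by linarith
  have hτ1 : (t : ℝ) / M < 1 := by linarith
  have htM : t < M := by
    rw [div_lt_one hM0] at hτ1
    exact_mod_cast hτ1
  have hyk0 : 0 < yk 2 M t := by linarith
  have hyk1 : yk 2 M t < 1 / 2 := by linarith
  have hcot := B_Win_cot_pos (yk 2 M t) hyk0 hyk1
  have hcote := B_Win_cot_pos e he (by linarith)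
  obtain ⟨l1, l2, hl, hl', hl2, hr1, hr2⟩ := B_Flat_window ρ hρ (by linarith) M hMρ
  have hr0 : 0 ≤ rho 2 M l2 := by linarith
  have hinv2 : 0 < 1 / (2 * (M : ℝ)) := by positivity
  set E : ℝ := sl ((t : ℝ) / M) - c with hE
  -- the terms outside of the window
  have hc0 : c ≤ Real.pi * (Real.cos (Real.pi * yk 2 M t) / Real.sin (Real.pi * yk 2 M t)) *
      (ρ / 2) ^ 2 := by
    have := hc 0 le_rfl hY.le
    linarith
  have hout := hsum r M t (Finset.range M \ Finset.Icc l1 l2) E hM htM Finset.sdiff_subset (by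
    intro X hX X' hX' h2X hXt
    rw [Finset.mem_sdiff, Finset.mem_range, Finset.mem_Icc] at hX
    have hX'l : X' < l1 := by omega
    have hl1 : ((l1 : ℕ) : ℝ) = M - 1 - l2 := by
      have : l1 + l2 + 1 = M := by omega
      have h3 : ((l1 + l2 + 1 : ℕ) : ℝ) = M := by rw [this]
      push_cast at h3
      linarith
    have hXr : (X' : ℝ) ≤ M - 1 - l2 := by
      rw [← hl1]
      exact_mod_cast hX'l.le
    have hrho : rho 2 M l2 = ((l2 : ℝ) + 1) / M - 1 / 2 := by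
      unfold rho bt
      push_cast
      ring
    have hx : (X' : ℝ) / M ≤ 1 / 2 - ρ / 2 := by
      have h4 : (X' : ℝ) / M ≤ (M - 1 - l2) / M := by gcongr
      have h5 : ((M : ℝ) - 1 - l2) / M = 1 / 2 - rho 2 M l2 := by
        rw [hrho]
        field_simp
        ring
      linarith
    have hg := gg_le_sl_gap ((t : ℝ) / M) ((X' : ℝ) / M) (ρ / 2) (by positivity) hx (by linarith)
      hτ hτ1 (by linarith) (by linarith)
    have hcc := B_Win_cot ((t : ℝ) / M - 1 / 2) (yk 2 M t) (by linarith) (by linarith) hyk1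
    have hcc2 := mul_le_mul_of_nonneg_left hcc (by positivity : 0 ≤ Real.pi * (ρ / 2) ^ 2)
    rw [hE]
    nlinarith)
  -- the sides
  set B : ℝ := C2 * (M : ℝ) ^ D2 * Real.exp (M * E) with hB
  have hside := B_Window_sides r M t l1 l2 Y ρ (S M t ^ 2) B (by omega) htM hl hY hY1 hMY
    (by linarith) (by linarith) hr0 hr1 (sq_nonneg _) (by
      intro σ s h1 h2 h3 h4
      have hk := hker r M t σ s hM htM hτ (by linarith) (by linarith)
        (by rw [abs_of_nonneg h3]; linarith)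
      refine hk.trans ?_
      rw [hB]
      apply mul_le_mul_of_nonneg_left _ (by positivity)
      apply Real.exp_le_exp.2
      apply mul_le_mul_of_nonneg_left _ hM0.le
      have h5 := hc s h3 h4
      have h6 : (ρ / 2) ^ 2 ≤ σ ^ 2 := by
        rw [← sq_abs σ]
        have : ρ / 2 ≤ |σ| := by linarith
        gcongr
      have h7 := mul_le_mul_of_nonneg_left h6 (mul_nonneg hpi.le hcot.le)
      have h8 : -(4 * Real.pi * r * σ * s) ≤ 4 * Real.pi * |r| * ρ * s := by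
        have h9 : -(r * σ) ≤ |r| * ρ := by
          calc -(r * σ) ≤ |r * σ| := neg_le_abs _
            _ = |r| * |σ| := abs_mul _ _
            _ ≤ |r| * ρ := mul_le_mul_of_nonneg_left h2 (abs_nonneg _)
        nlinarith [mul_nonneg (by positivity : (0 : ℝ) ≤ 4 * Real.pi) h3]
      rw [hE]
      linarith)
  have hwin := B_Flat_sum r M t l1 l2 Y hM htM hl hl' hY (by linarith) hr0
  set P := PG (m := 1) r M Finset.univ (fun _ => ((yk 2 M t : ℝ) : ℂ)) (rho 2 M l2) Y with hP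
  set F := FG (m := 1) r M Finset.univ (fun _ => ((yk 2 M t : ℝ) : ℂ)) ρ Y with hF
  set R := ∑ X ∈ Finset.range M \ Finset.Icc l1 l2,
    deriv (NT (m := 1) r M Finset.univ (fun _ => t)) ((vl 2 M X : ℝ) : ℂ) with hR
  have hsplit : DG1 r M t + 4 * Real.pi * I * M ^ 2 * F = R - 4 * Real.pi * I * M ^ 2 * (P - F) := by
    unfold DG1 DG
    have hsub : Finset.Icc l1 l2 ⊆ Finset.range M := by
      intro X hX
      rw [Finset.mem_Icc] at hX
      rw [Finset.mem_range]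
      omega
    rw [← Finset.sum_sdiff hsub, hwin]
    ring
  rw [hsplit]
  have hnorm : ‖R - 4 * Real.pi * I * M ^ 2 * (P - F)‖ ≤
      ‖R‖ + 4 * Real.pi * (M : ℝ) ^ 2 * ‖P - F‖ := by
    refine (norm_sub_le _ _).trans ?_
    rw [norm_mul, norm_mul, norm_mul, norm_mul, Complex.norm_ofNat, Complex.norm_I, norm_real,
      Real.norm_eq_abs, abs_of_pos hpi, norm_pow, Complex.norm_natCast, mul_one]
  have hpowD1 : (M : ℝ) ^ D1 ≤ (M : ℝ) ^ (D1 + D2 + 2) := pow_le_pow_right₀ hM1 (by omega)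
  have hpowD2 : (M : ℝ) ^ (D2 + 2) ≤ (M : ℝ) ^ (D1 + D2 + 2) := pow_le_pow_right₀ hM1 (by omega)
  set A : ℝ := 4 * Real.pi * |r| + 4 * Real.pi + 2 with hA
  have hA1 : 4 * Real.pi ≤ A := by
    have : 0 ≤ 4 * Real.pi * |r| := by positivity
    linarith
  have hA0 : 0 ≤ A := by linarith [hpi]
  calc S M t ^ 2 * ‖R - 4 * Real.pi * I * M ^ 2 * (P - F)‖
      ≤ S M t ^ 2 * (‖R‖ + 4 * Real.pi * (M : ℝ) ^ 2 * ‖P - F‖) :=
        mul_le_mul_of_nonneg_left hnorm (sq_nonneg _)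
    _ = S M t ^ 2 * ‖R‖ + 4 * Real.pi * (M : ℝ) ^ 2 * (S M t ^ 2 * ‖P - F‖) := by ring
    _ ≤ A * C1 * (M : ℝ) ^ D1 * Real.exp (M * E) + A * (M : ℝ) ^ 2 * (10 * B) := by
        have h1 : 4 * Real.pi * (M : ℝ) ^ 2 * (S M t ^ 2 * ‖P - F‖) ≤
            A * (M : ℝ) ^ 2 * (10 * B) := by
          apply mul_le_mul _ hside (by positivity) (by positivity)
          gcongr
        exact add_le_add hout h1
    _ = A * C1 * (M : ℝ) ^ D1 * Real.exp (M * E) +
        A * (10 * C2) * (M : ℝ) ^ (D2 + 2) * Real.exp (M * E) := by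
        rw [hB, pow_add]; ring
    _ ≤ A * C1 * (M : ℝ) ^ (D1 + D2 + 2) * Real.exp (M * E) +
        A * (40 * C2) * (M : ℝ) ^ (D1 + D2 + 2) * Real.exp (M * E) := by
        gcongr
        norm_num
    _ = _ := by ring

/-- The factor of a twist region near `τ0` is a flat contour integral up to a small error. -/
theorem eta_window (τ0 : ℝ) (h0 : 1 / 2 < τ0) (h1 : τ0 < 1) : ∃ ρ0 : ℝ, 0 < ρ0 ∧
    ∃ δ0 : ℝ, 0 < δ0 ∧ ∀ ρ : ℝ, 0 < ρ → ρ ≤ ρ0 → ∀ K : ℝ, 0 < K → ∃ c : ℝ, 0 < c ∧ ∃ R : ℝ,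
    ∀ a : ℤ, R ≤ |(a : ℝ)| → ∀ Y : ℝ, 0 < Y → Y ≤ K / (a : ℝ) ^ 2 →
    ∃ C : ℝ, 0 < C ∧ ∃ D M0 : ℕ, ∀ N t : ℕ, M0 ≤ N →
    |(t : ℝ) / ((N + 1 : ℕ) : ℝ) - τ0| ≤ δ0 →
    ‖eta a N t - etaF a N t ρ Y‖ ≤ C * ((N + 1 : ℕ) : ℝ) ^ D *
      Real.exp (((N + 1 : ℕ) : ℝ) * (sl ((t : ℝ) / ((N + 1 : ℕ) : ℝ)) - c)) := by
  have hpi := Real.pi_pos
  set e : ℝ := min (τ0 - 1 / 2) (1 - τ0) / 8 with he
  have he0 : 0 < e := by
    rw [he]
    have : 0 < min (τ0 - 1 / 2) (1 - τ0) := lt_min (by linarith) (by linarith)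
    linarith
  have hm1 : 8 * e ≤ τ0 - 1 / 2 := by
    rw [he]
    have := min_le_left (τ0 - 1 / 2) (1 - τ0)
    linarith
  have hm2 : 8 * e ≤ 1 - τ0 := by
    rw [he]
    have := min_le_right (τ0 - 1 / 2) (1 - τ0)
    linarith
  have he16 : e ≤ 1 / 16 := by linarith
  obtain ⟨C, hC, D, hone⟩ := B_Eta_one e he0 he16
  refine ⟨e, he0, e, he0, fun ρ hρ hρe K hK => ?_⟩
  set u : ℝ := τ0 - 1 / 2 + 2 * e with hu
  have hu0 : 0 < u := by linarith
  have hu1 : u < 1 / 2 := by linarith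
  have hcu := B_Win_cot_pos u hu0 hu1
  have hce := B_Win_cot_pos e he0 (by linarith)
  set ce := Real.cos (Real.pi * e) / Real.sin (Real.pi * e) with hced
  set cu := Real.cos (Real.pi * u) / Real.sin (Real.pi * u) with hcud
  set c1 : ℝ := Real.pi * cu * (ρ / 2) ^ 2 with hc1
  have hc1p : 0 < c1 := by positivity
  set R : ℝ := 1 + K + 2 * (Real.pi * ce * K ^ 2 + 2 * Real.pi * ρ * K) / c1 with hR
  have hQ0 : 0 ≤ 2 * (Real.pi * ce * K ^ 2 + 2 * Real.pi * ρ * K) / c1 := by positivity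
  have hR1 : 1 + K ≤ R := by linarith
  refine ⟨c1 / 2, by positivity, R, fun a ha Y hY hYK => ?_⟩
  have ha1 : 1 ≤ |(a : ℝ)| := by linarith
  have ha0 : 0 < |(a : ℝ)| := by linarith
  have haa : (a : ℝ) ^ 2 = |(a : ℝ)| * |(a : ℝ)| := by rw [← sq_abs, sq]
  have haK : K ≤ |(a : ℝ)| := by linarith
  have hYa : Y * |(a : ℝ)| * |(a : ℝ)| ≤ K := by
    rw [haa, le_div_iff₀ (by positivity)] at hYK
    linarith
  have hYa1 : Y * |(a : ℝ)| * |(a : ℝ)| ≤ K := hYa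
  have hYa2 : Y * |(a : ℝ)| ≤ K / |(a : ℝ)| := by
    rw [le_div_iff₀ ha0]
    exact hYa
  have hY1 : Y ≤ 1 := by
    by_contra hcon
    push Not at hcon
    have h2 : |(a : ℝ)| < Y * |(a : ℝ)| := by nlinarith
    have h3 : |(a : ℝ)| ≤ |(a : ℝ)| * |(a : ℝ)| := by nlinarith
    nlinarith
  refine ⟨(4 * Real.pi * |(a : ℝ) / 2| + 4 * Real.pi + 2) * C, by positivity, D,
    ⌈2 / ρ⌉₊ + ⌈1 / e⌉₊ + ⌈1 / Y⌉₊ + 2, fun N t hN ht => ?_⟩
  set M : ℕ := N + 1 with hMdef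
  have hM2 : 2 ≤ M := by omega
  have hM0 : (0 : ℝ) < (M : ℝ) := by exact_mod_cast (by omega : 0 < M)
  have hMρ : 2 / ρ ≤ (M : ℝ) := by
    refine (Nat.le_ceil _).trans ?_
    exact_mod_cast (by omega : ⌈2 / ρ⌉₊ ≤ M)
  have hMe : 1 / (M : ℝ) ≤ e := by
    have h2 : 1 / e ≤ (M : ℝ) := by
      refine (Nat.le_ceil _).trans ?_
      exact_mod_cast (by omega : ⌈1 / e⌉₊ ≤ M)
    rw [div_le_iff₀ he0] at h2
    rw [div_le_iff₀ hM0]
    linarith
  have hMY : 1 ≤ 2 * Real.pi * M * Y := by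
    have h2 : 1 / Y ≤ (M : ℝ) := by
      refine (Nat.le_ceil _).trans ?_
      exact_mod_cast (by omega : ⌈1 / Y⌉₊ ≤ M)
    rw [div_le_iff₀ hY] at h2
    have h3 : 1 ≤ 2 * Real.pi := by
      have := Real.pi_gt_three
      linarith
    nlinarith
  obtain ⟨t1, t2⟩ := abs_le.1 ht
  have hyk : yk 2 M t = (t : ℝ) / M - 1 / 2 + 1 / M := by
    unfold yk bt
    push_cast
    ring
  have hinv : (0 : ℝ) < 1 / M := by positivity
  have hyku : yk 2 M t ≤ u := by rw [hyk, hu]; linarith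
  have hyk0 : 0 < yk 2 M t := by rw [hyk]; linarith
  have hcot := B_Win_cot (yk 2 M t) u hyk0 hyku hu1
  have key := hone ((a : ℝ) / 2) M t Y ρ (c1 / 2) hM2 hMρ hρ hρe (by linarith) (by linarith)
    hY hY1 hMY (by
      intro s hs0 hs1
      have h2 : c1 ≤ Real.pi * (Real.cos (Real.pi * yk 2 M t) / Real.sin (Real.pi * yk 2 M t)) *
          (ρ / 2) ^ 2 := by
        rw [hc1]
        gcongr
      refine le_trans ?_ h2
      have h3 : Real.pi * ce * s ^ 2 ≤ Real.pi * ce * K ^ 2 / |(a : ℝ)| := by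
        rw [le_div_iff₀ ha0, mul_assoc]
        apply mul_le_mul_of_nonneg_left _ (by positivity)
        have h4 : s ≤ Y := hs1
        have h5 : s * |(a : ℝ)| ≤ K := by
          have : s * |(a : ℝ)| ≤ Y * |(a : ℝ)| := by gcongr
          have h6 : Y * |(a : ℝ)| ≤ Y * |(a : ℝ)| * |(a : ℝ)| :=
            le_mul_of_one_le_right (by positivity) ha1
          linarith
        have h7 : s ≤ K := by
          have : s ≤ s * |(a : ℝ)| := le_mul_of_one_le_right hs0 ha1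
          linarith
        calc s ^ 2 * |(a : ℝ)| = s * (s * |(a : ℝ)|) := by ring
          _ ≤ K * K := mul_le_mul h7 h5 (by positivity) hK.le
          _ = K ^ 2 := by ring
      have h4 : 4 * Real.pi * |(a : ℝ) / 2| * ρ * s ≤ 2 * Real.pi * ρ * K / |(a : ℝ)| := by
        rw [abs_div, abs_two]
        have h5 : |(a : ℝ)| * s ≤ K / |(a : ℝ)| := by
          refine le_trans ?_ hYa2
          rw [mul_comm]
          gcongr
        have h6 := mul_le_mul_of_nonneg_left h5 (by positivity : 0 ≤ 2 * Real.pi * ρ)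
        have e1 : 2 * Real.pi * ρ * (K / |(a : ℝ)|) = 2 * Real.pi * ρ * K / |(a : ℝ)| := by ring
        rw [e1] at h6
        linarith
      have h5 : Real.pi * ce * K ^ 2 / |(a : ℝ)| + 2 * Real.pi * ρ * K / |(a : ℝ)| ≤ c1 / 2 := by
        rw [← add_div, div_le_iff₀ ha0]
        have h6 : 2 * (Real.pi * ce * K ^ 2 + 2 * Real.pi * ρ * K) / c1 ≤ |(a : ℝ)| := by linarith
        rw [div_le_iff₀ hc1p] at h6
        linarith
      linarith)
  have hdiff : eta a N t - etaF a N t ρ Y = (-1) ^ N * cG a M * (S M t) ^ 2 *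
      (DG1 ((a : ℝ) / 2) M t + 4 * Real.pi * I * M ^ 2 *
      FG (m := 1) ((a : ℝ) / 2) M Finset.univ (fun _ => ((yk 2 M t : ℝ) : ℂ)) ρ Y) /
      (4 * Real.pi * (M : ℂ)) := by
    unfold eta etaF
    rw [← hMdef]
    have hMc : (M : ℂ) ≠ 0 := by exact_mod_cast hM0.ne'
    have hpc : (Real.pi : ℂ) ≠ 0 := by exact_mod_cast hpi.ne'
    field_simp
    ring
  rw [hdiff, norm_div, norm_mul, norm_mul, norm_mul, B_Bound_cG, norm_pow, norm_neg, norm_one,
    one_pow, one_mul, one_mul, norm_mul, norm_mul, Complex.norm_natCast, Complex.norm_ofNat,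
    norm_real, Real.norm_eq_abs, abs_of_pos hpi, ← ofReal_pow, norm_real, Real.norm_eq_abs,
    abs_of_nonneg (sq_nonneg _)]
  refine (div_le_self (by positivity) ?_).trans key
  have h2 : (1 : ℝ) ≤ M := by exact_mod_cast (by omega : 1 ≤ M)
  have := Real.pi_gt_three
  nlinarith

end Pool.Agent.H63.CLK
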