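import Pool.Agent.H63.CLK.B_Win

/-! # The window: the factor of a twist region as a flat contour integral -/

namespace Pool.Agent.H63.CLK

open Pool.Agent.H63.VC hiding ext
open Pool.Agent.H63.VC3 Pool.Agent.H63.VC4 Pool.Agent.H63.VC6 Pool.Agent.H63.VC7 Complex

/-- The symmetric window of the channels. -/
theorem B_Flat_window (ρ : ℝ) (hρ : 0 < ρ) (hρ1 : ρ ≤ 1 / 4) (M : ℕ) (hM : 2 / ρ ≤ M) :
    ∃ l1 l2 : ℕ, l1 + l2 + 2 = M + 1 ∧ l1 ≤ l2 ∧ l2 < M ∧ rho 2 M l2 ≤ ρ ∧
      ρ / 2 ≤ rho 2 M l2 := by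
  have hM8 : (8 : ℝ) ≤ M := by
    refine le_trans ?_ hM
    rw [le_div_iff₀ hρ]
    linarith
  have hM0 : (0 : ℝ) < M := by linarith
  have hρM : 2 ≤ M * ρ := by
    rw [div_le_iff₀ hρ] at hM
    exact hM
  set f : ℕ := ⌊(M : ℝ) * (ρ + 1 / 2)⌋₊ with hf
  have hf1 : (f : ℝ) ≤ M * (ρ + 1 / 2) := Nat.floor_le (by positivity)
  have hf2 : (M : ℝ) * (ρ + 1 / 2) < f + 1 := Nat.lt_floor_add_one _
  have hf3 : (1 : ℝ) < f := by nlinarith
  have hf3' : 1 < f := by exact_mod_cast hf3
  have hf4 : (f : ℝ) < M := by nlinarith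
  have hf4' : f < M := by exact_mod_cast hf4
  have hf5 : (M : ℝ) < 2 * f := by nlinarith
  have hf5' : M < 2 * f := by exact_mod_cast hf5
  have hr : rho 2 M (f - 1) = (f : ℝ) / M - 1 / 2 := by
    unfold rho bt
    rw [Nat.cast_sub (by omega)]
    push_cast
    ring
  refine ⟨M - f, f - 1, by omega, by omega, by omega, ?_, ?_⟩
  · rw [hr]
    have : (f : ℝ) / M ≤ ρ + 1 / 2 := by
      rw [div_le_iff₀ hM0]
      linarith
    linarith
  · rw [hr]
    have : ρ / 2 + 1 / 2 ≤ (f : ℝ) / M := by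
      rw [le_div_iff₀ hM0]
      nlinarith
    linarith

/-- The sum over the window. -/
theorem B_Flat_sum (r : ℝ) (M t l1 l2 : ℕ) (Y : ℝ) (hM : 2 ≤ M) (ht : t < M)
    (hl : l1 + l2 + 2 = M + 1) (hl' : l1 ≤ l2) (hY : 0 < Y)
    (hr : rho 2 M l2 < yk 2 M t + 1 / (2 * M)) (hr0 : 0 ≤ rho 2 M l2) :
    ∑ l ∈ Finset.Icc l1 l2, deriv (NT (m := 1) r M Finset.univ (fun _ => t))
      ((vl 2 M l : ℝ) : ℂ) = -(4 * Real.pi * I) * M ^ 2 *
        PG (m := 1) r M Finset.univ (fun _ => ((yk 2 M t : ℝ) : ℂ)) (rho 2 M l2) Y := by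
  have hNK : ∀ z : ℂ, |z.re| ≤ rho 2 M l2 →
      NT (m := 1) r M Finset.univ (fun _ => t) z =
        KG (m := 1) r M Finset.univ (fun _ => ((yk 2 M t : ℝ) : ℂ)) z := by
    intro z hz
    exact NT_eq_KG r M Finset.univ (fun _ => t) z (fun _ _ => ht) fun _ _ => by linarith
  rw [sum_l (NT (m := 1) r M Finset.univ (fun _ => t)) 2 M l1 l2 Y (by omega) hl (by norm_num) hl'
    hY (rho 2 M l2) rfl
    (fun z _ _ => (DGb_NT_hasDeriv r M Finset.univ (fun _ => t) z).differentiableAt)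
    (DGb_NT_odd r M Finset.univ (fun _ => t))]
  congr 1
  unfold PG VC3.Path
  congr 1
  · congr 1
    · refine intervalIntegral.integral_congr fun t _ => ?_
      simp only
      rw [hNK]
      simp only [add_re, neg_re, ofReal_re, mul_re, I_re, mul_zero, ofReal_im, I_im, mul_one,
        sub_self, add_zero, abs_neg]
      exact (abs_of_nonneg hr0).le
    · refine intervalIntegral.integral_congr fun t ht => ?_
      simp only
      rw [hNK]
      simp only [add_re, ofReal_re, mul_re, I_re, mul_zero, ofReal_im, I_im, mul_one,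
        sub_self, add_zero]
      rw [Set.uIcc_of_le (by linarith)] at ht
      exact abs_le.2 ht
  · refine intervalIntegral.integral_congr fun t _ => ?_
    simp only
    rw [hNK]
    simp only [add_re, ofReal_re, mul_re, I_re, mul_zero, ofReal_im, I_im, mul_one,
      sub_self, add_zero]
    exact (abs_of_nonneg hr0).le

/-- The integrand is continuous. -/
theorem B_Flat_cont (r : ℝ) (M t : ℕ) (Y ρ : ℝ) (hM : 1 ≤ M) (ht : t < M) (hY : 0 < Y)
    (hρ : ρ < yk 2 M t + 1 / (2 * M)) :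
    ContinuousOn (fun x : ℝ => KG (m := 1) r M Finset.univ (fun _ => ((yk 2 M t : ℝ) : ℂ))
      (x + Y * I) * om 2 M (x + Y * I)) (Set.Icc (-ρ) ρ) := by
  have hM0 : (0 : ℝ) < M := by exact_mod_cast hM
  have h1 : ContinuousOn (fun x : ℝ => NT (m := 1) r M Finset.univ (fun _ => t)
      (x + Y * I) * om 2 M (x + Y * I)) (Set.Icc (-ρ) ρ) := by
    intro x _
    apply ContinuousAt.continuousWithinAt
    apply ContinuousAt.mul
    · exact ContinuousAt.comp (f := fun x : ℝ => (x + Y * I : ℂ))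
        (NT_differentiable r M Finset.univ (fun _ => t)).continuous.continuousAt (by fun_prop)
    · refine ContinuousAt.comp (f := fun x : ℝ => (x + Y * I : ℂ))
        (om_continuousAt 2 M _ ?_) (by fun_prop)
      intro h
      have h2 := norm_ww 2 M (x + Y * I)
      rw [h, norm_one] at h2
      have h3 : Real.exp (-(2 * Real.pi * M * (x + Y * I : ℂ).im)) < 1 := by
        rw [Real.exp_lt_one_iff]
        have h4 : (x + Y * I : ℂ).im = Y := by simp
        rw [h4]
        have := Real.pi_pos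
        have : 0 < 2 * Real.pi * M * Y := by positivity
        linarith
      linarith
  refine h1.congr fun x hx => ?_
  simp only
  rw [NT_eq_KG r M Finset.univ (fun _ => t) _ (fun _ _ => ht) fun _ _ => ?_]
  have : (x + Y * I : ℂ).re = x := by simp
  rw [this]
  exact (abs_le.2 hx).trans_lt hρ

end Pool.Agent.H63.CLK
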