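import Pool.Agent.H63.VC10.Alg

/-!
# Templates: plane graphs with a twist region at every vertex

A template is a diagram in general position, read from bottom to top, of a tangle with one lower and
one upper end, composed of minima, maxima and twist regions. The gaps between the strands at a level,
from left to right, belong to the faces of the plane graph whose vertices are the twist regions.
-/

namespace Pool.Agent.H63.CLK

open Pool.Agent.H63.VC7 Pool.Agent.H63.VC10

/-- The pieces of a template: a minimum, a maximum, a twist region of two vertical strands; `i` is the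
number of strands to the left. -/
inductive TPiece
  | cup (i : ℕ)
  | cap (i : ℕ)
  | tw (i : ℕ)

/-- The diagram obtained from a template by putting `a v` half twists into the twist region `v`, the
twist regions being numbered `0, 1, 2, …` from bottom to top (here beginning with `v`). -/
def fill (a : ℕ → ℤ) : ℕ → List TPiece → List Piece
  | _, [] => []
  | v, .cup i :: w => .cup i :: fill a v w
  | v, .cap i :: w => .cap i :: fill a v w
  | v, .tw i :: w => twist (a v) i ++ fill a (v + 1) w

/-- The value at `q` of the colored Jones polynomial of the closure of a tangle `w` with one lower and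
one upper end: the operator of the tangle is this multiple of the identity of `V` (its coefficient at
`e_0` is computed), and the factor `q ^ (N (N + 2) e)` takes care of the framing, see
`Pool.Agent.H63.VC10.coloredJones`. -/
noncomputable def longJones (w : List Piece) (e : ℤ) (N : ℕ) (q : ℂ) : ℂ :=
  q ^ ((N : ℤ) * (N + 2) * e) * eval q N w (fun l => if l = [0] then 1 else 0) [0]

/-- The state of the sweep of a template: the faces of the gaps from left to right, the list of all
faces found so far, the number of the next face, and the faces at the four corners of the twist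
regions found so far, in the order top, right, bottom, left. -/
structure Sweep where
  gaps : List ℕ
  faces : List ℕ
  nxt : ℕ
  cor : List (Fin 4 → ℕ)

/-- The first state: one strand; the face `0` is on the left, the face `1` is on the right. -/
def Sweep.init : Sweep := ⟨[0, 1], [0, 1], 2, []⟩

/-- Identification of two faces. -/
def ident (a b x : ℕ) : ℕ := if x = max a b then min a b else x

/-- A piece of the template: above a minimum and above a twist region a new gap begins, which gets a
new number; at a maximum the two gaps on both sides are joined, and their faces are identified (they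
must be different, otherwise the template would not be connected). -/
def Sweep.step (S : Sweep) : TPiece → Option Sweep
  | .cup i => match S.gaps.drop i with
    | a :: r => some ⟨S.gaps.take i ++ a :: S.nxt :: a :: r, S.nxt :: S.faces, S.nxt + 1, S.cor⟩
    | _ => none
  | .cap i => match S.gaps.drop i with
    | a :: _ :: b :: r =>
        if a = b ∨ max a b ≤ 1 then none
        else some ⟨(S.gaps.take i ++ a :: r).map (ident a b), S.faces.erase (max a b), S.nxt,
          S.cor.map (fun x k => ident a b (x k))⟩
    | _ => none
  | .tw i => match S.gaps.drop i with
    | a :: b :: c :: r => some ⟨S.gaps.take i ++ a :: S.nxt :: c :: r, S.nxt :: S.faces, S.nxt + 1,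
        S.cor ++ [![S.nxt, c, b, a]]⟩
    | _ => none

/-- The sweep of a template. -/
def sweep : List TPiece → Sweep → Option Sweep
  | [], S => some S
  | x :: w, S => (S.step x).bind (sweep w)

/-- `w` is a connected template with the `c` twist regions `0, …, c - 1`, the bounded faces `F`, and
the faces `cor v 0, cor v 1, cor v 2, cor v 3` at the top, right, bottom and left of the twist region
`v`. The faces `0` and `1` are the two faces at the end strands. -/
def IsTemplate (w : List TPiece) (c : ℕ) (F : Finset ℕ) (cor : Fin c → Fin 4 → ℕ) : Prop :=
  ∃ S : Sweep, sweep w Sweep.init = some S ∧ S.gaps = [0, 1] ∧ S.cor = List.ofFn cor ∧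
    F = (S.faces.toFinset.erase 0).erase 1

/-- The operator of `N - t` parallel strands and `t` maxima and minima at the strands `i`, `i + 1`. -/
noncomputable def actE (q : ℂ) (N t i : ℕ) (ψ : List ℕ → ℂ) (l : List ℕ) : ℂ :=
  match l.drop i with
  | c :: d :: r => ∑ a : Fin (N + 1), ∑ b : Fin (N + 1),
      (if h : c < N + 1 ∧ d < N + 1 then em q N t (⟨c, h.1⟩, ⟨d, h.2⟩) (a, b) else 0) *
        ψ (l.take i ++ (a : ℕ) :: (b : ℕ) :: r)
  | _ => 0

/-- The operator of a template with `t v` turn backs at the twist region `v`. -/
noncomputable def evalT (q : ℂ) (N : ℕ) (t : ℕ → ℕ) :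
    ℕ → List TPiece → (List ℕ → ℂ) → List ℕ → ℂ
  | _, [], ψ => ψ
  | v, .cup i :: w, ψ => evalT q N t v w (act q N (.cup i) ψ)
  | v, .cap i :: w, ψ => evalT q N t v w (act q N (.cap i) ψ)
  | v, .tw i :: w, ψ => evalT q N t (v + 1) w (actE q N (t v) i ψ)

/-- The symmetric `q`-binomial coefficient. -/
noncomputable def qbin (q : ℂ) (n s : ℕ) : ℂ := brf q n / (brf q s * brf q (n - s))

/-- The size of a corner: `N - t` at the top and at the bottom, `t` on the right and on the left. -/
def csz (N t : ℕ) : Fin 4 → ℕ := ![N - t, t, N - t, t]

/-- The admissible states of the corners: the sum is `N` at every twist region and at every bounded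
face, and the other corners have the value `0`. -/
def IsState {c : ℕ} (F : Finset ℕ) (cor : Fin c → Fin 4 → ℕ) (N : ℕ) (s : Fin c → Fin 4 → ℕ) :
    Prop :=
  (∀ v, ∑ k, s v k = N) ∧ (∀ f ∈ F, ∑ v, ∑ k, (if cor v k = f then s v k else 0) = N) ∧
    ∀ v k, cor v k ∉ F → s v k = 0

open Classical in
/-- The state sum: a sum of products of `q`-binomial coefficients. -/
noncomputable def clockSum {c : ℕ} (q : ℂ) (F : Finset ℕ) (cor : Fin c → Fin 4 → ℕ) (N : ℕ)
    (t : Fin c → ℕ) : ℂ :=
  ∑ s ∈ Fintype.piFinset (fun v : Fin c => Fintype.piFinset
      (fun k : Fin 4 => Finset.range (csz N (t v) k + 1))),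
    if IsState F cor N s then ∏ v, ∏ k, qbin q (csz N (t v) k) (s v k) else 0

/-- The root of unity. -/
noncomputable def qz (N : ℕ) : ℂ := Complex.exp (Real.pi * Complex.I / ((N + 1 : ℕ) : ℂ))

end Pool.Agent.H63.CLK
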