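import Pool.Agent.H63.CLK.B_Defs
import Pool.Agent.H63.CLK.Tmpl
import Pool.Agent.H63.VC.Cross
import Pool.Agent.H63.VC10.Fin10
import Pool.Agent.H63.VC6.Final6

/-!
# CLK part B1: a twist region at the root of unity

`a` half twists are equal to the combination `∑ eta a N t • em N t`. For generic `q` the coefficients are `nt q N (tw ^ a)`, and their limits are
computed from the sums `NF`.
-/

set_option autoImplicit false

namespace Pool.Agent.H63.CLK

open Pool.Agent.H63.VC hiding ext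
open Pool.Agent.H63.VC3 hiding om
open Pool.Agent.H63.VC4 Pool.Agent.H63.VC6 Pool.Agent.H63.VC7
  Pool.Agent.H63.VC10 Complex Filter Topology

/-! ### Generic `q` -/

/-- The functions `f = tw ^ a`. -/
theorem B_Mat_gen (q : ℂ) (N : ℕ) (h : Gen q N) (a : ℤ) :
    (if 0 ≤ a then RM q N ^ a.natAbs else RiM q N ^ a.natAbs) =
      ∑ t ∈ Finset.range (N + 1), nt q N (fun k => tw q k ^ a) t • em q N t := by
  rw [← Oh_nt]
  split_ifs with h0
  · rw [RM_eq q N h, Oh_pow q N h]
    congr 1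
    funext k
    rw [← zpow_natCast]
    congr 1
    omega
  · rw [RiM_eq q N h, Oh_pow q N h]
    congr 1
    funext k
    rw [inv_pow, ← zpow_natCast, ← _root_.zpow_neg]
    congr 1
    omega

/-- The kernel. -/
noncomputable def B_Mat_K (q : ℂ) (N j t : ℕ) : ℂ :=
  if t + j ≤ N then (-1) ^ j * (brf q (N - j) * brf q (N + t + 1) * brf q j * brf q t /
    (brf q N * brf q (N - t - j) * brf q (t + j + 1))) else 0

theorem B_Mat_om (q : ℂ) (t k : ℕ) : Pool.Agent.H63.VC10.om q t k = pw q t k := rfl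

theorem B_Mat_NF (q : ℂ) (N : ℕ) (h : Gen q N) (a : ℤ) (t : ℕ) :
    NF (m := 1) a N q Finset.univ (fun _ => t) =
      ∑ j ∈ Finset.range (N + 1), nt q N (fun k => tw q k ^ a) j * B_Mat_K q N j t := by
  have hb1 : br q 1 ≠ 0 := h.ne (by omega) (by omega)
  have hbN : br q ((N : ℤ) + 1) ≠ 0 := h.ne (by omega) (by omega)
  have h1 : ∀ j ∈ Finset.range (N + 1), B_Mat_K q N j t = (br q 1 / br q ((N : ℤ) + 1)) *
      ∑ l ∈ Finset.range (N + 1), br q (2 * (l : ℤ) + 1) / br q 1 * pw q t l * EE q N j l := by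
    intro j hj
    have := H_sum q N j t h (by have := Finset.mem_range.1 hj; omega)
    simp only [B_Mat_om] at this
    rw [this]
    unfold B_Mat_K
    split_ifs
    · field_simp
    · rw [mul_zero]
  rw [Finset.sum_congr rfl fun j hj => by rw [h1 j hj]]
  unfold NF
  simp only [Finset.mul_sum]
  rw [Finset.sum_comm]
  refine Finset.sum_congr rfl fun X hX => ?_
  have h2 := f_nt q N h (fun k => tw q k ^ a) X (by have := Finset.mem_range.1 hX; omega)
  rw [h2, Finset.sum_mul, Finset.sum_mul]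
  refine Finset.sum_congr rfl fun j _ => ?_
  simp only [Finset.univ_unique, Finset.prod_singleton]
  field_simp

/-! ### The root of unity -/

theorem B_Mat_qz_ne (N : ℕ) : qz N ≠ 0 := Complex.exp_ne_zero _

theorem B_Mat_br1 (N i : ℕ) : br (qz N) ((i : ℤ) + 1) = I * (sg (N + 1) (i + 1) : ℝ) :=
  RootLim_br1 N i

theorem B_Mat_brf (N k : ℕ) : brf (qz N) k = I ^ k * ((S (N + 1) k : ℝ) : ℂ) := by
  induction k with
  | zero => simp [brf, S]
  | succ k ih =>
    rw [brf_succ, ih, B_Mat_br1, S_succ, pow_succ]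
    push_cast
    ring

theorem B_Mat_brf_ne (N k : ℕ) (hk : k ≤ N) : brf (qz N) k ≠ 0 := by
  rw [B_Mat_brf]
  refine mul_ne_zero (pow_ne_zero _ Complex.I_ne_zero) ?_
  exact_mod_cast (S_pos (M := N + 1) (k := k) (by omega)).ne'

theorem B_Mat_br_cont (N : ℕ) (a : ℤ) : ContinuousAt (fun q => br q a) (qz N) :=
  RootLim_br_cont _ (B_Mat_qz_ne N) a

theorem B_Mat_brf_cont (N k : ℕ) : ContinuousAt (fun q => brf q k) (qz N) := by
  unfold brf
  exact tendsto_finsetProd _ fun i _ => B_Mat_br_cont N _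

theorem B_Mat_zpow_cont (N : ℕ) (a : ℤ) : ContinuousAt (fun q : ℂ => q ^ a) (qz N) :=
  continuousAt_zpow₀ _ a (Or.inl (B_Mat_qz_ne N))

/-- `brf (N + t + 1) = brf N * br (N + 1) * ∏ br (N + 2 + i)`. -/
theorem B_Mat_split (q : ℂ) (N t : ℕ) : brf q (N + t + 1) =
    brf q (N + 1) * ∏ i ∈ Finset.range t, br q ((N : ℤ) + i + 2) := by
  induction t with
  | zero => simp
  | succ t ih =>
    rw [Finset.prod_range_succ, ← mul_assoc, ← ih, show N + (t + 1) + 1 = (N + t + 1) + 1 by ring,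
      brf_succ, show ((N + t + 1 : ℕ) : ℤ) + 1 = (N : ℤ) + t + 2 by push_cast; ring]

theorem B_Mat_prod (N t : ℕ) : ∏ i ∈ Finset.range t, br (qz N) ((N : ℤ) + i + 2) =
    (-1) ^ t * brf (qz N) t := by
  unfold brf
  have h : ∀ i ∈ Finset.range t, br (qz N) ((N : ℤ) + i + 2) = (-1) * br (qz N) ((i : ℤ) + 1) := by
    intro i _
    rw [B_Mat_br1]
    unfold qz
    rw [RootLim_br2]
    ring
  rw [Finset.prod_congr rfl h, Finset.prod_mul_distrib, Finset.prod_const, Finset.card_range]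

theorem B_Mat_brf_zero (N : ℕ) : brf (qz N) (N + 1) = 0 := by
  rw [brf_succ, B_Mat_br1, sg]
  have hN : ((N : ℝ) + 1) ≠ 0 := by positivity
  have : Real.sin (Real.pi * ((N + 1 : ℕ) : ℝ) / ((N + 1 : ℕ) : ℝ)) = 0 := by
    rw [mul_div_assoc, div_self (by push_cast; exact hN), mul_one, Real.sin_pi]
  rw [this]
  simp

theorem B_Mat_K_zero (N j t : ℕ) (h : t + j < N) :
    Tendsto (fun q => B_Mat_K q N j t) (𝓝[≠] qz N) (𝓝 0) := by
  have h1 : (fun q => B_Mat_K q N j t) = fun q =>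
      (-1) ^ j * (brf q (N - j) * brf q (N + t + 1) * brf q j * brf q t /
        (brf q N * brf q (N - t - j) * brf q (t + j + 1))) := by
    funext q
    unfold B_Mat_K
    rw [if_pos (by omega)]
  have h2 : Tendsto (fun q => B_Mat_K q N j t) (𝓝 (qz N)) (𝓝 ((-1) ^ j *
      (brf (qz N) (N - j) * brf (qz N) (N + t + 1) * brf (qz N) j * brf (qz N) t /
        (brf (qz N) N * brf (qz N) (N - t - j) * brf (qz N) (t + j + 1))))) := by
    rw [h1]
    refine tendsto_const_nhds.mul (Tendsto.div ?_ ?_ ?_)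
    · exact (((B_Mat_brf_cont N _).mul (B_Mat_brf_cont N _)).mul (B_Mat_brf_cont N _)).mul
        (B_Mat_brf_cont N _)
    · exact ((B_Mat_brf_cont N _).mul (B_Mat_brf_cont N _)).mul (B_Mat_brf_cont N _)
    · exact mul_ne_zero (mul_ne_zero (B_Mat_brf_ne N _ le_rfl) (B_Mat_brf_ne N _ (by omega)))
        (B_Mat_brf_ne N _ (by omega))
  rw [B_Mat_split, B_Mat_brf_zero] at h2
  simp only [zero_mul, mul_zero, zero_div] at h2
  exact h2.mono_left nhdsWithin_le_nhds

theorem B_Mat_K_lim (N j t : ℕ) (h : t + j = N) :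
    Tendsto (fun q => B_Mat_K q N j t) (𝓝[≠] qz N)
      (𝓝 ((-1) ^ N * ((-1) ^ t * ((S (N + 1) t : ℝ) : ℂ) ^ 2))) := by
  subst h
  have h1 : ∀ᶠ q in 𝓝[≠] qz (t + j), B_Mat_K q (t + j) j t =
      (-1) ^ j * (brf q t * (∏ i ∈ Finset.range t, br q (((t + j : ℕ) : ℤ) + i + 2)) *
        brf q j * brf q t / brf q (t + j)) := by
    filter_upwards [Fin10_gen_ev (qz (t + j)) (t + j)] with q hq
    unfold B_Mat_K
    have g1 : brf q (t + j + 1) ≠ 0 := hq.brf_ne (by omega)
    have g2 : brf q (t + j) ≠ 0 := hq.brf_ne (by omega)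
    rw [if_pos le_rfl, B_Mat_split, show t + j - t - j = 0 by omega, show t + j - j = t by omega,
      brf_zero]
    field_simp
  have h2 : Tendsto (fun q => (-1) ^ j * (brf q t *
      (∏ i ∈ Finset.range t, br q (((t + j : ℕ) : ℤ) + i + 2)) *
        brf q j * brf q t / brf q (t + j))) (𝓝 (qz (t + j))) (𝓝 ((-1) ^ j *
      (brf (qz (t + j)) t * (∏ i ∈ Finset.range t, br (qz (t + j)) (((t + j : ℕ) : ℤ) + i + 2)) *
        brf (qz (t + j)) j * brf (qz (t + j)) t / brf (qz (t + j)) (t + j)))) := by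
    refine tendsto_const_nhds.mul (Tendsto.div ?_ (B_Mat_brf_cont _ _)
      (B_Mat_brf_ne _ _ le_rfl))
    refine (((B_Mat_brf_cont _ _).mul ?_).mul (B_Mat_brf_cont _ _)).mul (B_Mat_brf_cont _ _)
    exact tendsto_finsetProd _ fun i _ => B_Mat_br_cont _ _
  have h3 : (-1 : ℂ) ^ j *
      (brf (qz (t + j)) t * (∏ i ∈ Finset.range t, br (qz (t + j)) (((t + j : ℕ) : ℤ) + i + 2)) *
        brf (qz (t + j)) j * brf (qz (t + j)) t / brf (qz (t + j)) (t + j)) =
      (-1) ^ (t + j) * ((-1) ^ t * ((S (t + j + 1) t : ℝ) : ℂ) ^ 2) := by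
    have e1 := S_mul (M := t + j + 1) (k := t) (by omega)
    have e2 := S_mul (M := t + j + 1) (k := t + j) (by omega)
    rw [show t + j + 1 - 1 - t = j by omega] at e1
    rw [show t + j + 1 - 1 - (t + j) = 0 by omega, S_zero, mul_one] at e2
    have e3 : ((S (t + j + 1) t : ℝ) : ℂ) * ((S (t + j + 1) j : ℝ) : ℂ) =
        ((S (t + j + 1) (t + j) : ℝ) : ℂ) := by
      rw [e2, ← e1]; push_cast; ring
    have e4 : ((S (t + j + 1) (t + j) : ℝ) : ℂ) ≠ 0 := by
      exact_mod_cast (S_pos (M := t + j + 1) (k := t + j) (by omega)).ne'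
    have e5 : (I : ℂ) ^ (2 * t) = (-1) ^ t := by rw [pow_mul, I_sq]
    have e6 : (I : ℂ) ^ (t + j) ≠ 0 := pow_ne_zero _ Complex.I_ne_zero
    rw [B_Mat_prod, B_Mat_brf, B_Mat_brf, B_Mat_brf, mul_comm (I ^ (t + j)), ← e3] 
    rw [← e3] at e4
    have e7 := left_ne_zero_of_mul e4
    have e8 := right_ne_zero_of_mul e4
    rw [show (-1 : ℂ) ^ j * (I ^ t * ((S (t + j + 1) t : ℝ) : ℂ) *
        ((-1) ^ t * (I ^ t * ((S (t + j + 1) t : ℝ) : ℂ))) * (I ^ j * ((S (t + j + 1) j : ℝ) : ℂ)) *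
        (I ^ t * ((S (t + j + 1) t : ℝ) : ℂ)) /
        (((S (t + j + 1) t : ℝ) : ℂ) * ((S (t + j + 1) j : ℝ) : ℂ) * I ^ (t + j))) =
        (-1) ^ (t + j) * (I ^ (2 * t) * ((S (t + j + 1) t : ℝ) : ℂ) ^ 2) *
          (((((S (t + j + 1) t : ℝ) : ℂ) * ((S (t + j + 1) j : ℝ) : ℂ)) * I ^ (t + j)) /
          (((S (t + j + 1) t : ℝ) : ℂ) * ((S (t + j + 1) j : ℝ) : ℂ) * I ^ (t + j))) by ring,
      div_self (mul_ne_zero e4 e6), mul_one, e5]
  rw [h3] at h2
  exact (h2.mono_left nhdsWithin_le_nhds).congr' (h1.mono fun q hq => hq.symm)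

theorem B_Mat_nt_lim (a : ℤ) (N j : ℕ) (hj : j ≤ N) :
    Tendsto (fun q => nt q N (fun k => tw q k ^ a) j) (𝓝[≠] qz N) (𝓝 (eta a N j)) := by
  induction j using Nat.strong_induction_on with
  | _ j ih =>
    have hNF := node_lim (m := 1) a N Finset.univ (fun _ => N - j) (fun _ _ => Nat.sub_le _ _)
    change Tendsto _ (𝓝[≠] qz N) _ at hNF
    have hS : ((S (N + 1) (N - j) : ℝ) : ℂ) ≠ 0 := by
      exact_mod_cast (S_pos (M := N + 1) (k := N - j) (by omega)).ne'
    have hK0 : (-1 : ℂ) ^ N * ((-1) ^ (N - j) * ((S (N + 1) (N - j) : ℝ) : ℂ) ^ 2) ≠ 0 :=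
      mul_ne_zero (pow_ne_zero _ (by norm_num)) (mul_ne_zero (pow_ne_zero _ (by norm_num))
        (pow_ne_zero _ hS))
    have hK := B_Mat_K_lim N j (N - j) (by omega)
    have hs : Tendsto (fun q => ∑ i ∈ Finset.range j, nt q N (fun k => tw q k ^ a) i *
        B_Mat_K q N i (N - j)) (𝓝[≠] qz N) (𝓝 0) := by
      have : (0 : ℂ) = ∑ i ∈ Finset.range j, eta a N i * 0 := by simp
      rw [this]
      refine tendsto_finsetSum _ fun i hi => ?_
      have hi' := Finset.mem_range.1 hi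
      exact (ih i hi' (by omega)).mul (B_Mat_K_zero N i (N - j) (by omega))
    have hq := (hNF.sub hs).div hK hK0
    rw [sub_zero] at hq
    have hval : cG a (N + 1) / (4 * Real.pi) *
        (∏ _j ∈ (Finset.univ : Finset (Fin 1)), (-1) ^ (N - j) * ((N + 1 : ℕ) : ℂ)) *
        DG ((a : ℝ) / 2) (N + 1) (Finset.univ : Finset (Fin 1)) (fun _ => N - (N - j)) /
        ((-1 : ℂ) ^ N * ((-1) ^ (N - j) * ((S (N + 1) (N - j) : ℝ) : ℂ) ^ 2)) = eta a N j := by
      have e1 : N - (N - j) = j := by omega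
      have e2 := S_mul (M := N + 1) (k := j) (by omega)
      rw [show N + 1 - 1 - j = N - j by omega] at e2
      have e3 : ((S (N + 1) j : ℝ) : ℂ) * ((S (N + 1) (N - j) : ℝ) : ℂ) = ((N + 1 : ℕ) : ℂ) := by
        exact_mod_cast e2
      have e4 : (-1 : ℂ) ^ N * (-1) ^ N = 1 := by rw [← mul_pow]; norm_num
      have e5 : (-1 : ℂ) ^ N ≠ 0 := pow_ne_zero _ (by norm_num)
      have e6 : (-1 : ℂ) ^ (N - j) ≠ 0 := pow_ne_zero _ (by norm_num)
      have e7 : ((N + 1 : ℕ) : ℂ) ≠ 0 := by exact_mod_cast Nat.succ_ne_zero N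
      have hpi : (Real.pi : ℂ) ≠ 0 := by exact_mod_cast Real.pi_ne_zero
      rw [e1]
      unfold eta DG1
      rw [Finset.prod_const, Finset.card_univ, Fintype.card_fin, pow_one]
      rw [← e3] at e7 ⊢
      have e8 := left_ne_zero_of_mul e7
      rw [div_eq_div_iff (mul_ne_zero e5 (mul_ne_zero e6 (pow_ne_zero _ hS)))
        (mul_ne_zero (mul_ne_zero (by norm_num) hpi) e7)]
      field_simp
      linear_combination (cG a (N + 1) *
        DG ((a : ℝ) / 2) (N + 1) (Finset.univ : Finset (Fin 1)) (fun _ => j)) * (-e4)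
    rw [hval] at hq
    refine hq.congr' ?_
    have hKn : ∀ᶠ q in 𝓝[≠] qz N, B_Mat_K q N j (N - j) ≠ 0 := hK.eventually_ne hK0
    filter_upwards [Fin10_gen_ev (qz N) N, hKn] with q hg hKq
    have h1 := B_Mat_NF q N hg a (N - j)
    have h2 : ∑ i ∈ Finset.range (N + 1), nt q N (fun k => tw q k ^ a) i * B_Mat_K q N i (N - j) =
        ∑ i ∈ Finset.range (j + 1), nt q N (fun k => tw q k ^ a) i * B_Mat_K q N i (N - j) := by
      symm
      refine Finset.sum_subset (Finset.range_mono (by omega)) fun i _ hi => ?_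
      have hi2 : ¬ i < j + 1 := fun h => hi (Finset.mem_range.2 h)
      unfold B_Mat_K
      rw [if_neg (by omega), mul_zero]
    rw [h2, Finset.sum_range_succ] at h1
    simp only [Pi.div_apply]
    rw [h1, add_sub_cancel_left, mul_div_cancel_right₀ _ hKq]

/-! ### Continuity of the matrices -/

/-- Entrywise continuity. -/
def B_Mat_C (N : ℕ) {α β : Type*} (F : ℂ → Matrix α β ℂ) : Prop :=
  ∀ x y, ContinuousAt (fun q => F q x y) (qz N)

theorem B_Mat_C_mul (N : ℕ) {α β γ : Type*} [Fintype β] (F : ℂ → Matrix α β ℂ)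
    (G : ℂ → Matrix β γ ℂ) (hF : B_Mat_C N F) (hG : B_Mat_C N G) :
    B_Mat_C N (fun q => F q * G q) := by
  intro x y
  simp only [Matrix.mul_apply]
  exact tendsto_finsetSum _ fun z _ => (hF x z).mul (hG z y)

theorem B_Mat_C_one (N : ℕ) {α : Type*} [DecidableEq α] :
    B_Mat_C N (fun _ => (1 : Matrix α α ℂ)) := fun _ _ => continuousAt_const

theorem B_Mat_C_pow (N : ℕ) {α : Type*} [Fintype α] [DecidableEq α] (F : ℂ → Matrix α α ℂ)
    (hF : B_Mat_C N F) (k : ℕ) : B_Mat_C N (fun q => F q ^ k) := by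
  induction k with
  | zero => simp only [pow_zero]; exact B_Mat_C_one N
  | succ k ih =>
    simp only [pow_succ]
    exact B_Mat_C_mul N _ _ ih hF

theorem B_Mat_DD (N n : ℕ) : B_Mat_C N (fun q => DD q n) := by
  intro x y
  unfold DD
  refine ContinuousAt.add ?_ ?_
  · split_ifs
    · exact B_Mat_zpow_cont N _
    · exact continuousAt_const
  · split_ifs
    · exact (continuousAt_inv₀ (B_Mat_qz_ne N)).neg
    · exact continuousAt_const

theorem B_Mat_br_ne (N n : ℕ) (hn : n < N) : br (qz N) ((n : ℤ) + 1) ≠ 0 := by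
  intro h
  have h1 := B_Mat_brf_ne N (n + 1) hn
  rw [brf_succ, h, mul_zero] at h1
  exact h1 rfl

theorem B_Mat_CC (N n : ℕ) (hn : n < N) : B_Mat_C N (fun q => CC q n) := by
  intro x y
  have hd : ContinuousAt (fun q => br q ((n : ℤ) + 1) ^ 2) (qz N) := (B_Mat_br_cont N _).pow 2
  have hd0 : br (qz N) ((n : ℤ) + 1) ^ 2 ≠ 0 := pow_ne_zero _ (B_Mat_br_ne N n hn)
  unfold CC
  refine ContinuousAt.add ?_ ?_
  · split_ifs
    · exact continuousAt_id.neg.mul (((B_Mat_br_cont N _).mul (B_Mat_br_cont N _)).div hd hd0)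
    · exact continuousAt_const
  · split_ifs
    · exact (B_Mat_zpow_cont N _).mul (((B_Mat_br_cont N _).mul (B_Mat_br_cont N _)).div hd hd0)
    · exact continuousAt_const

theorem B_Mat_em (N n j : ℕ) (hn : n ≤ N) : B_Mat_C N (fun q => em q n j) := by
  induction n generalizing j with
  | zero =>
    cases j with
    | zero => exact B_Mat_C_one N
    | succ j => exact fun _ _ => continuousAt_const
  | succ n ih =>
    cases j with
    | zero => exact B_Mat_C_one N
    | succ j =>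
      exact B_Mat_C_mul N _ _ (B_Mat_C_mul N _ _ (B_Mat_DD N n) (ih j (by omega)))
        (B_Mat_CC N n (by omega))

theorem B_Mat_RM (N : ℕ) : B_Mat_C N (fun q => RM q N) := by
  intro x y
  have h1 := x.1.2
  have h2 := x.2.2
  have h3 := y.1.2
  have h4 := y.2.2
  simp only [RM, Rc]
  split_ifs with h
  · refine (continuousAt_const.mul (B_Mat_zpow_cont N _)).mul (ContinuousAt.div ?_ ?_ ?_)
    · exact (B_Mat_brf_cont N _).mul (B_Mat_brf_cont N _)
    · exact ((B_Mat_brf_cont N _).mul (B_Mat_brf_cont N _)).mul (B_Mat_brf_cont N _)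
    · exact mul_ne_zero (mul_ne_zero (B_Mat_brf_ne N _ (by omega)) (B_Mat_brf_ne N _ (by omega)))
        (B_Mat_brf_ne N _ (by omega))
  · exact continuousAt_const

theorem B_Mat_RiM (N : ℕ) : B_Mat_C N (fun q => RiM q N) := by
  intro x y
  have h1 := x.1.2
  have h2 := x.2.2
  have h3 := y.1.2
  have h4 := y.2.2
  simp only [RiM, Ric]
  split_ifs with h
  · refine (continuousAt_const.mul (B_Mat_zpow_cont N _)).mul (ContinuousAt.div ?_ ?_ ?_)
    · exact (B_Mat_brf_cont N _).mul (B_Mat_brf_cont N _)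
    · exact ((B_Mat_brf_cont N _).mul (B_Mat_brf_cont N _)).mul (B_Mat_brf_cont N _)
    · exact mul_ne_zero (mul_ne_zero (B_Mat_brf_ne N _ (by omega)) (B_Mat_brf_ne N _ (by omega)))
        (B_Mat_brf_ne N _ (by omega))
  · exact continuousAt_const

/-- A twist region with `a` half twists at the root of unity. -/
theorem eta_mat (a : ℤ) (N : ℕ) :
    (if 0 ≤ a then RM (qz N) N ^ a.natAbs else RiM (qz N) N ^ a.natAbs) =
      ∑ t ∈ Finset.range (N + 1), eta a N t • em (qz N) N t := by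
  ext x y
  have hL : Tendsto (fun q => (if 0 ≤ a then RM q N ^ a.natAbs else RiM q N ^ a.natAbs) x y)
      (𝓝[≠] qz N) (𝓝 ((if 0 ≤ a then RM (qz N) N ^ a.natAbs else RiM (qz N) N ^ a.natAbs) x y)) := by
    split_ifs
    · exact (B_Mat_C_pow N _ (B_Mat_RM N) _ x y).tendsto.mono_left nhdsWithin_le_nhds
    · exact (B_Mat_C_pow N _ (B_Mat_RiM N) _ x y).tendsto.mono_left nhdsWithin_le_nhds
  have hR : Tendsto (fun q => (∑ t ∈ Finset.range (N + 1),
      nt q N (fun k => tw q k ^ a) t • em q N t) x y) (𝓝[≠] qz N)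
      (𝓝 ((∑ t ∈ Finset.range (N + 1), eta a N t • em (qz N) N t) x y)) := by
    simp only [Matrix.sum_apply, Matrix.smul_apply, smul_eq_mul]
    refine tendsto_finsetSum _ fun t ht => ?_
    have ht' := Finset.mem_range.1 ht
    exact (B_Mat_nt_lim a N t (by omega)).mul
      ((B_Mat_em N N t le_rfl x y).tendsto.mono_left nhdsWithin_le_nhds)
  refine tendsto_nhds_unique hL (hR.congr' ?_)
  filter_upwards [Fin10_gen_ev (qz N) N] with q hq
  rw [B_Mat_gen q N hq a]

end Pool.Agent.H63.CLK
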