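import Pool.Agent.H63.VC.Asym
import Pool.Agent.H63.VC.EndB
import Pool.Agent.H63.VC.Riem
import Pool.Agent.H63.VC.SlowL
import Pool.Agent.H63.VC.SlowU
import Pool.Agent.H63.VC.Small
import Pool.Agent.H63.VC3.LogS
import Pool.Agent.H63.VC3.StepDefs
import Pool.Agent.H63.VC4.KBN

/-!
# CLK part B5: the analytic interpolation of `S M k` with bounded shifts

`SE M b z = exp (LL M (M z + b))` is equal to `S M k` when `M z + b = k`. With `z' = z + (b + 1/2)/M` the argument is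
`M z' - 1/2`, so `LL_asym` (VC3/LLasym) gives `LL M (M z + b) = log M / 2 + M ff z' + O(1/M)`, and by `ff_hasDerivAt`, `hh_hasDerivAt`
(Taylor's formula, uniformly on compact subsets of `0 < Re z < 1`) `M ff z' = M ff z + (b + 1/2) hh z + O(1/M)`.
-/

set_option autoImplicit false

namespace Pool.Agent.H63.CLK

open Pool.Agent.H63.VC Pool.Agent.H63.VC3 Complex Filter Topology

/-- The interpolation of `S M k`, `k = M z + b`. -/
noncomputable def SE (M : ℕ) (b z : ℂ) : ℂ := exp (LL M (M * z + b))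

theorem SE_ne (M : ℕ) (b z : ℂ) : SE M b z ≠ 0 := Complex.exp_ne_zero _

theorem SE_nat (M k : ℕ) (hk : k < M) (b z : ℂ) (h : M * z + b = k) : SE M b z = S M k := by
  rw [SE, h, LL_nat M k hk]

/-- `SE` is analytic for `-1 < Re (M z + b) < M`. -/
theorem SE_differentiableAt (M : ℕ) (hM : 0 < M) (b z : ℂ) (h0 : -1 < (M * z + b).re)
    (h1 : (M * z + b).re < M) : DifferentiableAt ℂ (SE M b) z := by
  have h2 : DifferentiableAt ℂ (fun z : ℂ => (M : ℂ) * z + b) z := by fun_prop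
  have h3 : DifferentiableAt ℂ (LL M ∘ fun z : ℂ => (M : ℂ) * z + b) z :=
    DifferentiableAt.comp z (LL_differentiableAt M hM (M * z + b) h0 h1) h2
  exact h3.cexp

private theorem B_SE_mul_re (M : ℕ) (z : ℂ) : ((M : ℂ) * z).re = M * z.re := by
  have : (M : ℂ) = ((M : ℝ) : ℂ) := by push_cast; rfl
  rw [this, Complex.re_ofReal_mul]

/-- The conditions hold in compact subsets of the strip for large `M`. -/
theorem SE_strip (c B : ℝ) (hc : 0 < c) : ∃ M0 : ℕ, ∀ M : ℕ, M0 ≤ M → ∀ b z : ℂ, ‖b‖ ≤ B →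
    c ≤ z.re → z.re ≤ 1 - c → -1 < (M * z + b).re ∧ (M * z + b).re < M := by
  obtain ⟨M0, hM0⟩ := exists_nat_gt (B / c)
  refine ⟨M0, fun M hM b z hb h1 h2 => ?_⟩
  have hMr : (M0 : ℝ) ≤ M := by exact_mod_cast hM
  have h3 : B < M * c := by
    rw [div_lt_iff₀ hc] at hM0
    nlinarith
  have h4 := abs_le.1 ((Complex.abs_re_le_norm b).trans hb)
  have hM0' : (0 : ℝ) ≤ M := Nat.cast_nonneg M
  rw [Complex.add_re, B_SE_mul_re]
  have h5 : (M : ℝ) * c ≤ M * z.re := mul_le_mul_of_nonneg_left h1 hM0'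
  have h6 : (M : ℝ) * z.re ≤ M * (1 - c) := mul_le_mul_of_nonneg_left h2 hM0'
  have h7 : 0 ≤ B := (norm_nonneg b).trans hb
  constructor <;> linarith [h4.1, h4.2]

/-! ### Compact subsets of the strip -/

private def B_SE_box (c B : ℝ) : Set ℂ := Set.Icc c (1 - c) ×ℂ Set.Icc (-B) B

private theorem B_SE_mem (c B : ℝ) (z : ℂ) :
    z ∈ B_SE_box c B ↔ (c ≤ z.re ∧ z.re ≤ 1 - c) ∧ |z.im| ≤ B := by
  unfold B_SE_box
  rw [Complex.mem_reProdIm, abs_le]
  exact Iff.rfl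

private theorem B_SE_compact (c B : ℝ) : IsCompact (B_SE_box c B) :=
  isCompact_Icc.reProdIm isCompact_Icc

private theorem B_SE_convex (c B : ℝ) : Convex ℝ (B_SE_box c B) := by
  intro u hu w hw a b ha hb hab
  unfold B_SE_box at *
  rw [Complex.mem_reProdIm] at hu hw ⊢
  have e1 : (a • u + b • w).re = a • u.re + b • w.re := by simp
  have e2 : (a • u + b • w).im = a • u.im + b • w.im := by simp
  rw [e1, e2]
  exact ⟨convex_Icc _ _ hu.1 hw.1 ha hb hab, convex_Icc _ _ hu.2 hw.2 ha hb hab⟩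

private theorem B_SE_bdd (f : ℂ → ℂ) (c B : ℝ) (hf : ContinuousOn f (B_SE_box c B)) :
    ∃ K : ℝ, 0 < K ∧ ∀ z : ℂ, c ≤ z.re → z.re ≤ 1 - c → |z.im| ≤ B → ‖f z‖ ≤ K := by
  obtain ⟨K, hK⟩ := (B_SE_compact c B).exists_bound_of_continuousOn hf
  refine ⟨max K 1, by positivity, fun z h1 h2 h3 => (hK z ?_).trans (le_max_left _ _)⟩
  rw [B_SE_mem]
  exact ⟨⟨h1, h2⟩, h3⟩

private theorem B_SE_hh_bound (c B : ℝ) (hc : 0 < c) : ∃ K : ℝ, 0 < K ∧ ∀ z : ℂ, c ≤ z.re →
    z.re ≤ 1 - c → |z.im| ≤ B → ‖hh z‖ ≤ K := by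
  refine B_SE_bdd hh c B fun z hz => ?_
  rw [B_SE_mem] at hz
  exact (hh_hasDerivAt z (by linarith [hz.1.1]) (by linarith [hz.1.2])).continuousAt.continuousWithinAt

private theorem B_SE_cot_bound (c B : ℝ) (hc : 0 < c) : ∃ K : ℝ, 0 < K ∧ ∀ z : ℂ, c ≤ z.re →
    z.re ≤ 1 - c → |z.im| ≤ B → ‖(Real.pi : ℂ) * Complex.cot (Real.pi * z)‖ ≤ K := by
  refine B_SE_bdd (fun z => (Real.pi : ℂ) * Complex.cot (Real.pi * z)) c B fun z hz => ?_
  rw [B_SE_mem] at hz
  have h4 : Complex.sin (Real.pi * z) ≠ 0 := by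
    intro h
    have := Complex.slitPlane_ne_zero (Clausen_slit z (by linarith [hz.1.1])
      (by linarith [hz.1.2]))
    rw [h] at this
    simp at this
  have h5 : ContinuousAt (fun z : ℂ => Complex.cos (Real.pi * z) / Complex.sin (Real.pi * z)) z :=
    ContinuousAt.div (by fun_prop) (by fun_prop) h4
  have h6 : ContinuousAt (fun z : ℂ => (Real.pi : ℂ) * Complex.cot (Real.pi * z)) z :=
    continuousAt_const.mul h5
  exact h6.continuousWithinAt

private theorem B_SE_hh_lip (c B : ℝ) (hc : 0 < c) : ∃ K : ℝ, 0 < K ∧ ∀ z w : ℂ,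
    z ∈ B_SE_box c B → w ∈ B_SE_box c B → ‖hh w - hh z‖ ≤ K * ‖w - z‖ := by
  obtain ⟨K, hK0, hK⟩ := B_SE_cot_bound c B hc
  refine ⟨K, hK0, fun z w hz hw => ?_⟩
  refine (B_SE_convex c B).norm_image_sub_le_of_norm_hasDerivWithin_le (f := hh)
    (f' := fun z => (Real.pi : ℂ) * Complex.cot (Real.pi * z)) (C := K)
    (fun u hu => ?_) (fun u hu => ?_) hz hw
  · rw [B_SE_mem] at hu
    exact (hh_hasDerivAt u (by linarith [hu.1.1]) (by linarith [hu.1.2])).hasDerivWithinAt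
  · rw [B_SE_mem] at hu
    exact hK u hu.1.1 hu.1.2 hu.2

private theorem B_SE_taylor (c B : ℝ) (hc : 0 < c) : ∃ K : ℝ, 0 < K ∧ ∀ z w : ℂ,
    z ∈ B_SE_box c B → w ∈ B_SE_box c B → ‖ff w - ff z - (w - z) * hh z‖ ≤ K * ‖w - z‖ ^ 2 := by
  obtain ⟨K, hK0, hK⟩ := B_SE_hh_lip c B hc
  refine ⟨K, hK0, fun z w hz hw => ?_⟩
  have hseg : segment ℝ z w ⊆ B_SE_box c B := (B_SE_convex c B).segment_subset hz hw
  have hF : ∀ u ∈ segment ℝ z w, HasDerivWithinAt (fun u => ff u - (u - z) * hh z) (hh u - hh z)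
      (segment ℝ z w) u := by
    intro u hu
    have hu' := hseg hu
    rw [B_SE_mem] at hu'
    have h1 := ff_hasDerivAt u (by linarith [hu'.1.1]) (by linarith [hu'.1.2])
    have h2 : HasDerivAt (fun u : ℂ => (u - z) * hh z) (1 * hh z) u :=
      ((hasDerivAt_id u).sub_const z).mul_const _
    rw [one_mul] at h2
    exact (h1.sub h2).hasDerivWithinAt
  have hb : ∀ u ∈ segment ℝ z w, ‖hh u - hh z‖ ≤ K * ‖w - z‖ := by
    intro u hu
    refine (hK z u hz (hseg hu)).trans (mul_le_mul_of_nonneg_left ?_ hK0.le)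
    obtain ⟨a, b, ha, hb, hab, rfl⟩ := hu
    have e : a • z + b • w - z = (b : ℂ) * (w - z) := by
      have ha' : (a : ℂ) = 1 - b := by
        rw [← Complex.ofReal_one, ← Complex.ofReal_sub]
        congr 1
        linarith
      simp only [Complex.real_smul]
      rw [ha']
      ring
    rw [e, norm_mul, Complex.norm_real, Real.norm_eq_abs, abs_of_nonneg hb]
    exact mul_le_of_le_one_left (norm_nonneg _) (by linarith)
  have h := (convex_segment z w).norm_image_sub_le_of_norm_hasDerivWithin_le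
    (f := fun u => ff u - (u - z) * hh z) (f' := fun u => hh u - hh z) hF hb
    (left_mem_segment ℝ z w) (right_mem_segment ℝ z w)
  have e2 : ff w - ff z - (w - z) * hh z =
      (ff w - (w - z) * hh z) - (ff z - (z - z) * hh z) := by ring
  rw [e2]
  refine h.trans (le_of_eq ?_)
  ring

/-- Comparison with `ff`, uniform on compact sets. -/
theorem SE_asym (c B : ℝ) (hc : 0 < c) : ∃ C : ℝ, 0 < C ∧ ∃ M0 : ℕ, ∀ M : ℕ, M0 ≤ M → ∀ b z : ℂ,
    ‖b‖ ≤ B → c ≤ z.re → z.re ≤ 1 - c → |z.im| ≤ B →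
    ‖LL M (M * z + b) - Real.log M / 2 - M * ff z - (b + 1 / 2) * hh z‖ ≤ C / M := by
  obtain ⟨C₀, hC₀, hL⟩ := LL_asym (c / 2) (B + 1) (by linarith)
  obtain ⟨K, hK0, hK⟩ := B_SE_taylor (c / 2) (B + 1) (by linarith)
  obtain ⟨M0, hM0⟩ := exists_nat_gt ((B + 1 / 2) / min (c / 2) 1)
  have hmin : 0 < min (c / 2) 1 := lt_min (by linarith) one_pos
  refine ⟨C₀ + K * (B + 1 / 2) ^ 2, by positivity, max M0 1, ?_⟩
  intro M hM b z hb h1 h2 h3
  have hM1 : 1 ≤ M := (le_max_right _ _).trans hM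
  have hMp : (0 : ℝ) < M := by exact_mod_cast hM1
  have hMr : (M0 : ℝ) ≤ M := by exact_mod_cast (le_max_left _ _).trans hM
  have hMC : (M : ℂ) ≠ 0 := by exact_mod_cast hMp.ne'
  have hB0 : 0 ≤ B := (norm_nonneg b).trans hb
  have hb2 : ‖b + 1 / 2‖ ≤ B + 1 / 2 := by
    refine (norm_add_le _ _).trans (add_le_add hb (le_of_eq ?_))
    simp
  set δ : ℂ := (b + 1 / 2) / M with hδ
  have hδn : ‖δ‖ = ‖b + 1 / 2‖ / M := by rw [hδ, norm_div, Complex.norm_natCast]
  have hδ1 : ‖δ‖ ≤ min (c / 2) 1 := by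
    rw [hδn, div_le_iff₀ hMp]
    rw [div_lt_iff₀ hmin] at hM0
    have : (M0 : ℝ) * min (c / 2) 1 ≤ M * min (c / 2) 1 := mul_le_mul_of_nonneg_right hMr hmin.le
    linarith
  have hδre := abs_le.1 ((Complex.abs_re_le_norm δ).trans (hδ1.trans (min_le_left _ _)))
  have hδim := abs_le.1 ((Complex.abs_im_le_norm δ).trans (hδ1.trans (min_le_right _ _)))
  have h3' := abs_le.1 h3
  have harg : (M : ℂ) * z + b = M * (z + δ) - 1 / 2 := by
    rw [hδ]
    field_simp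
    ring
  have hre1 : c / 2 ≤ (z + δ).re := by rw [Complex.add_re]; linarith [hδre.1]
  have hre2 : (z + δ).re ≤ 1 - c / 2 := by rw [Complex.add_re]; linarith [hδre.2]
  have him : |(z + δ).im| ≤ B + 1 := by
    rw [Complex.add_im, abs_le]
    constructor <;> linarith [hδim.1, hδim.2, h3'.1, h3'.2]
  have hA := hL M hM1 (z + δ) hre1 hre2 him
  have hT := hK z (z + δ) ((B_SE_mem _ _ _).2 ⟨⟨by linarith, by linarith⟩, by linarith⟩)
    ((B_SE_mem _ _ _).2 ⟨⟨hre1, hre2⟩, him⟩)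
  rw [add_sub_cancel_left] at hT
  have hT2 : ‖(M : ℂ) * (ff (z + δ) - ff z - δ * hh z)‖ ≤ K * (B + 1 / 2) ^ 2 / M := by
    rw [norm_mul, Complex.norm_natCast]
    calc (M : ℝ) * ‖ff (z + δ) - ff z - δ * hh z‖ ≤ M * (K * ‖δ‖ ^ 2) :=
          mul_le_mul_of_nonneg_left hT hMp.le
      _ = K * ‖b + 1 / 2‖ ^ 2 / M := by
          rw [hδn]
          field_simp
      _ ≤ K * (B + 1 / 2) ^ 2 / M := by
          refine div_le_div_of_nonneg_right (mul_le_mul_of_nonneg_left ?_ hK0.le) hMp.le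
          exact pow_le_pow_left₀ (norm_nonneg _) hb2 2
  have e : LL M (M * z + b) - Real.log M / 2 - M * ff z - (b + 1 / 2) * hh z =
      (LL M (M * (z + δ) - 1 / 2) - Real.log M / 2 - M * ff (z + δ)) +
        (M : ℂ) * (ff (z + δ) - ff z - δ * hh z) := by
    have e1 : (b + 1 / 2) * hh z = (M : ℂ) * (δ * hh z) := by
      rw [hδ]
      field_simp
    rw [harg, e1]
    ring
  rw [e]
  refine (norm_add_le _ _).trans ((add_le_add hA hT2).trans (le_of_eq ?_))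
  ring

private theorem B_SE_log_re (M : ℕ) : ((Real.log M : ℂ) / 2).re = Real.log M / 2 := by
  have : ((Real.log M : ℂ) / 2) = ((Real.log M / 2 : ℝ) : ℂ) := by push_cast; ring
  rw [this, Complex.ofReal_re]

private theorem B_SE_sqrt (M : ℕ) (hM : 0 < M) : Real.exp (Real.log M / 2) = Real.sqrt M := by
  have hM0 : (0 : ℝ) < M := by exact_mod_cast hM
  rw [Real.sqrt_eq_rpow, Real.rpow_def_of_pos hM0]
  congr 1
  ring

/-- Bounds of `SE` and of its inverse. -/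
theorem SE_bound (c B : ℝ) (hc : 0 < c) : ∃ C : ℝ, 0 < C ∧ ∃ M0 : ℕ, ∀ M : ℕ, M0 ≤ M → ∀ b z : ℂ,
    ‖b‖ ≤ B → c ≤ z.re → z.re ≤ 1 - c → |z.im| ≤ B →
    ‖SE M b z‖ ≤ C * Real.sqrt M * Real.exp (M * (ff z).re) ∧
    ‖(SE M b z)⁻¹‖ ≤ C / Real.sqrt M * Real.exp (-(M * (ff z).re)) := by
  obtain ⟨C₀, hC₀, M0, hL⟩ := SE_asym c B hc
  obtain ⟨K, hK0, hK⟩ := B_SE_hh_bound c B hc
  refine ⟨Real.exp (C₀ + (B + 1 / 2) * K), Real.exp_pos _, max M0 1, ?_⟩
  intro M hM b z hb h1 h2 h3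
  have hM1 : 1 ≤ M := (le_max_right _ _).trans hM
  have hMp : (0 : ℝ) < M := by exact_mod_cast hM1
  have hM1' : (1 : ℝ) ≤ M := by exact_mod_cast hM1
  have hA := hL M ((le_max_left _ _).trans hM) b z hb h1 h2 h3
  have hCM : C₀ / M ≤ C₀ := div_le_self hC₀.le hM1'
  have hA' := abs_le.1 ((Complex.abs_re_le_norm _).trans (hA.trans hCM))
  rw [Complex.sub_re, Complex.sub_re, Complex.sub_re, B_SE_log_re, B_SE_mul_re] at hA'
  have hb2 : ‖b + 1 / 2‖ ≤ B + 1 / 2 := by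
    refine (norm_add_le _ _).trans (add_le_add hb (le_of_eq ?_))
    simp
  have hH : ‖(b + 1 / 2) * hh z‖ ≤ (B + 1 / 2) * K := by
    rw [norm_mul]
    exact mul_le_mul hb2 (hK z h1 h2 h3) (norm_nonneg _) ((norm_nonneg _).trans hb2)
  have hH' := abs_le.1 ((Complex.abs_re_le_norm _).trans hH)
  unfold SE
  rw [norm_inv, Complex.norm_exp, ← B_SE_sqrt M hM1, ← Real.exp_neg, ← Real.exp_add,
    ← Real.exp_add, ← Real.exp_sub, ← Real.exp_add]
  constructor
  · refine Real.exp_le_exp.2 ?_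
    linarith [hA'.2, hH'.2]
  · refine Real.exp_le_exp.2 ?_
    linarith [hA'.1, hH'.1]

/-- The limit of `SE`. -/
theorem SE_lim (b z : ℂ) (h0 : 0 < z.re) (h1 : z.re < 1) (bM zM : ℕ → ℂ)
    (hb : Tendsto bM atTop (𝓝 b)) (hz : Tendsto zM atTop (𝓝 z)) :
    Tendsto (fun M : ℕ => SE M (bM M) (zM M) * exp (-(M * ff (zM M))) / (Real.sqrt M : ℂ)) atTop
      (𝓝 (exp ((b + 1 / 2) * hh z))) := by
  set c : ℝ := min z.re (1 - z.re) / 2 with hc
  have hc0 : 0 < c := by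
    rw [hc]; exact half_pos (lt_min h0 (by linarith))
  have hc1 : c < z.re := by
    have : min z.re (1 - z.re) ≤ z.re := min_le_left _ _
    rw [hc] at hc0 ⊢; linarith
  have hc2 : c < 1 - z.re := by
    have : min z.re (1 - z.re) ≤ 1 - z.re := min_le_right _ _
    rw [hc] at hc0 ⊢; linarith
  set B : ℝ := max (|z.im| + 1) (‖b‖ + 1) with hB
  obtain ⟨C, hC, M0, hL⟩ := SE_asym c B hc0
  have hre : Tendsto (fun M => (zM M).re) atTop (𝓝 z.re) :=
    (Complex.continuous_re.tendsto _).comp hz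
  have him : Tendsto (fun M => |(zM M).im|) atTop (𝓝 |z.im|) :=
    ((continuous_abs.comp Complex.continuous_im).tendsto _).comp hz
  have hbn : Tendsto (fun M => ‖bM M‖) atTop (𝓝 ‖b‖) := hb.norm
  have ev1 : ∀ᶠ M in atTop, c ≤ (zM M).re := (hre.eventually (lt_mem_nhds hc1)).mono fun _ h => h.le
  have ev2 : ∀ᶠ M in atTop, (zM M).re ≤ 1 - c :=
    (hre.eventually (gt_mem_nhds (show z.re < 1 - c by linarith))).mono fun _ h => h.le
  have ev3 : ∀ᶠ M in atTop, |(zM M).im| ≤ B :=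
    (him.eventually (gt_mem_nhds (show |z.im| < |z.im| + 1 by linarith))).mono fun _ h =>
      h.le.trans (le_max_left _ _)
  have ev4 : ∀ᶠ M in atTop, ‖bM M‖ ≤ B :=
    (hbn.eventually (gt_mem_nhds (show ‖b‖ < ‖b‖ + 1 by linarith))).mono fun _ h =>
      h.le.trans (le_max_right _ _)
  have hlim : Tendsto (fun M : ℕ => C / (M : ℝ)) atTop (𝓝 0) :=
    tendsto_const_div_atTop_nhds_zero_nat C
  have hE : Tendsto (fun M : ℕ => LL M (M * zM M + bM M) - Real.log M / 2 - M * ff (zM M) -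
      (bM M + 1 / 2) * hh (zM M)) atTop (𝓝 0) := by
    refine squeeze_zero_norm' ?_ hlim
    filter_upwards [ev1, ev2, ev3, ev4, eventually_ge_atTop M0] with M h1 h2 h3 h4 h5
    exact hL M h5 (bM M) (zM M) h4 h1 h2 h3
  have hH : Tendsto (fun M : ℕ => (bM M + 1 / 2) * hh (zM M)) atTop (𝓝 ((b + 1 / 2) * hh z)) :=
    (hb.add_const _).mul ((hh_hasDerivAt z h0 h1).continuousAt.tendsto.comp hz)
  have hS := (Complex.continuous_exp.tendsto _).comp (hE.add hH)
  rw [zero_add] at hS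
  refine hS.congr' ?_
  filter_upwards [eventually_ge_atTop 1] with M hM
  have hsq : (Real.sqrt M : ℂ) = exp (Real.log M / 2) := by
    rw [← B_SE_sqrt M hM, Complex.ofReal_exp]
    congr 1
    push_cast
    ring
  rw [hsq]
  unfold SE
  rw [← Complex.exp_add, ← Complex.exp_sub]
  simp only [Function.comp_apply]
  congr 1
  ring

/-- The real bounds, for all arguments. -/
theorem S_growth : ∃ C : ℝ, 0 < C ∧ ∃ D : ℕ, ∀ M k : ℕ, k < M →
    S M k ≤ C * (M : ℝ) ^ D * Real.exp (M * Fr (k / M)) ∧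
    (S M k)⁻¹ ≤ C * (M : ℝ) ^ D * Real.exp (-(M * Fr (k / M))) := by
  obtain ⟨C, hC, hS⟩ := log_S_bound
  refine ⟨1, one_pos, ⌈C⌉₊, fun M k hk => ?_⟩
  rw [one_mul]
  rcases Nat.lt_or_ge M 2 with hM | hM
  · have hM1 : M = 1 := by omega
    have hk0 : k = 0 := by omega
    subst hM1
    subst hk0
    have h1 : S 1 0 = 1 := by
      unfold S
      simp
    rw [h1]
    simp [Fr_zero]
  · have hMp : (0 : ℝ) < M := by exact_mod_cast (by omega : 0 < M)
    have hM1 : (1 : ℝ) ≤ M := by exact_mod_cast (by omega : 1 ≤ M)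
    have hlog : 0 ≤ Real.log M := Real.log_nonneg hM1
    have hpos := S_pos hk
    have h1 := abs_le.1 (hS M k hM hk)
    have h2 : C * Real.log M ≤ ⌈C⌉₊ * Real.log M :=
      mul_le_mul_of_nonneg_right (Nat.le_ceil C) hlog
    have h3 : (M : ℝ) ^ ⌈C⌉₊ = Real.exp (⌈C⌉₊ * Real.log M) := by
      rw [mul_comm, Real.exp_mul, Real.exp_log hMp, Real.rpow_natCast]
    rw [h3, ← Real.exp_add, ← Real.exp_add]
    constructor
    · rw [← Real.exp_log hpos]
      refine Real.exp_le_exp.2 ?_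
      linarith [h1.2]
    · rw [← Real.exp_log (inv_pos.2 hpos), Real.log_inv]
      refine Real.exp_le_exp.2 ?_
      linarith [h1.1]

end Pool.Agent.H63.CLK
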