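import Pool.Agent.H63.CLK.B_Defs
import Pool.Agent.H63.VC3.GBound
import Pool.Agent.H63.VC3.Tube

/-! # The growth rate of the terms for arbitrary `τ = t / M` -/

namespace Pool.Agent.H63.CLK

open Pool.Agent.H63.VC hiding ext
open Pool.Agent.H63.VC3 Pool.Agent.H63.VC4 Pool.Agent.H63.VC6 Pool.Agent.H63.VC7 Real

/-- The sum of the values at symmetric points increases on the first piece. -/
theorem B_Sl_mono1 (y a b : ℝ) (h1 : y ≤ 1 / 2) (ha : 0 ≤ a) (hab : a ≤ b)
    (hb : b ≤ y) : Fr (y - a) + Fr (y + a) ≤ Fr (y - b) + Fr (y + b) := by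
  have hπ := Real.pi_pos
  refine GBound_mono (f := fun w => Fr (y - w) + Fr (y + w))
    (f' := fun w => -Real.log (2 * Real.sin (π * (y - w))) +
      Real.log (2 * Real.sin (π * (y + w)))) hab ?_ ?_ ?_
  · apply Continuous.continuousOn
    have := Fr_continuous
    fun_prop
  · intro w hw
    have d1 : HasDerivAt (fun w => Fr (y - w)) (-Real.log (2 * Real.sin (π * (y - w)))) w :=
      HasDerivAt.comp_const_sub y w
        (Fr_hasDerivAt (y - w) (by linarith [hw.2]) (by linarith [hw.1]))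
    have d2 : HasDerivAt (fun w => Fr (y + w)) (Real.log (2 * Real.sin (π * (y + w)))) w :=
      HasDerivAt.comp_const_add y w
        (Fr_hasDerivAt (y + w) (by linarith [hw.1]) (by linarith [hw.2]))
    exact d1.add d2
  · intro w hw
    have hs : 0 < Real.sin (π * (y - w)) := by
      apply Real.sin_pos_of_pos_of_lt_pi
      · exact mul_pos hπ (by linarith [hw.2])
      · nlinarith [hw.1]
    have hle : Real.sin (π * (y - w)) ≤ Real.sin (π * (y + w)) := by
      have e1 : π * (y - w) = π * y - π * w := by ring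
      have e2 : π * (y + w) = π * y + π * w := by ring
      rw [e1, e2, Real.sin_sub, Real.sin_add]
      have c1 : 0 ≤ Real.cos (π * y) := Real.cos_nonneg_of_mem_Icc ⟨by nlinarith [hw.1, hw.2], by nlinarith⟩
      have c2 : 0 ≤ Real.sin (π * w) := Real.sin_nonneg_of_nonneg_of_le_pi
        (mul_nonneg hπ.le (by linarith [hw.1])) (by nlinarith [hw.2])
      nlinarith [mul_nonneg c1 c2]
    have := Real.log_le_log (by linarith : 0 < 2 * Real.sin (π * (y - w)))
      (by linarith : 2 * Real.sin (π * (y - w)) ≤ 2 * Real.sin (π * (y + w)))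
    linarith

/-- The sum of the values at symmetric points increases on the second piece. -/
theorem B_Sl_mono2 (y a b : ℝ) (h0 : 0 ≤ y) (ha : y ≤ a) (hab : a ≤ b)
    (hb : b ≤ 1 / 2) : Fr (y - a) + Fr (y + a) ≤ Fr (y - b) + Fr (y + b) := by
  have hπ := Real.pi_pos
  have e : ∀ w, Fr (y - w) = -Fr (w - y) := fun w => by rw [← Fr_neg, neg_sub]
  rw [e a, e b]
  have key := GBound_mono (f := fun w => -Fr (w - y) + Fr (w + y))
    (f' := fun w => -Real.log (2 * Real.sin (π * (w - y))) +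
      Real.log (2 * Real.sin (π * (w + y)))) hab ?_ ?_ ?_
  · rw [add_comm y a, add_comm y b]
    exact key
  · apply Continuous.continuousOn
    have := Fr_continuous
    fun_prop
  · intro w hw
    have d1 : HasDerivAt (fun w => Fr (w - y)) (Real.log (2 * Real.sin (π * (w - y)))) w :=
      HasDerivAt.comp_sub_const w y
        (Fr_hasDerivAt (w - y) (by linarith [hw.1]) (by linarith [hw.2]))
    have d2 : HasDerivAt (fun w => Fr (w + y)) (Real.log (2 * Real.sin (π * (w + y)))) w :=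
      HasDerivAt.comp_add_const w y
        (Fr_hasDerivAt (w + y) (by linarith [hw.1]) (by linarith [hw.2, hw.1]))
    exact d1.neg.add d2
  · intro w hw
    have hs : 0 < Real.sin (π * (w - y)) := by
      apply Real.sin_pos_of_pos_of_lt_pi
      · exact mul_pos hπ (by linarith [hw.1])
      · nlinarith [hw.2]
    have hle : Real.sin (π * (w - y)) ≤ Real.sin (π * (w + y)) := by
      have e1 : π * (w - y) = π * w - π * y := by ring
      have e2 : π * (w + y) = π * w + π * y := by ring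
      rw [e1, e2, Real.sin_sub, Real.sin_add]
      have c1 : 0 ≤ Real.cos (π * w) := Real.cos_nonneg_of_mem_Icc
        ⟨by nlinarith [hw.1, hw.2], by nlinarith [hw.2]⟩
      have c2 : 0 ≤ Real.sin (π * y) := Real.sin_nonneg_of_nonneg_of_le_pi
        (mul_nonneg hπ.le h0) (by nlinarith [hw.1, hw.2])
      nlinarith [mul_nonneg c1 c2]
    have := Real.log_le_log (by linarith : 0 < 2 * Real.sin (π * (w - y)))
      (by linarith : 2 * Real.sin (π * (w - y)) ≤ 2 * Real.sin (π * (w + y)))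
    linarith

/-- The sum of the values at symmetric points increases on `[0, 1/2]`. -/
theorem B_Sl_mono (y a b : ℝ) (h0 : 0 ≤ y) (h1 : y ≤ 1 / 2) (ha : 0 ≤ a) (hab : a ≤ b)
    (hb : b ≤ 1 / 2) : Fr (y - a) + Fr (y + a) ≤ Fr (y - b) + Fr (y + b) := by
  rcases le_total b y with h | h
  · exact B_Sl_mono1 y a b h1 ha hab h
  · rcases le_total a y with h' | h'
    · exact (B_Sl_mono1 y a y h1 ha h' le_rfl).trans (B_Sl_mono2 y y b h0 le_rfl h hb)
    · exact B_Sl_mono2 y a b h0 h' hab hb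

theorem B_Sl_gg_eq (τ x : ℝ) :
    VC3.gg τ x = 2 * Fr τ - (Fr ((τ - 1 / 2) - (1 / 2 - x)) + Fr ((τ - 1 / 2) + (1 / 2 - x))) := by
  unfold VC3.gg
  have e1 : (τ - 1 / 2) - (1 / 2 - x) + 1 = τ + x := by ring
  have e2 : (τ - 1 / 2) + (1 / 2 - x) = τ - x := by ring
  rw [← e1, Fr_add_one, e2]
  ring

/-- The growth rate of every term is at most `sl τ`. -/
theorem gg_le_sl (τ x : ℝ) (h0 : 0 ≤ x) (h1 : x ≤ τ) (h2 : x ≤ 1 / 2) (h3 : τ ≤ 1) :
    VC3.gg τ x ≤ sl τ := by
  unfold sl
  split_ifs with h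
  · have := B_Sl_mono1 τ 0 x h le_rfl h0 h1
    rw [sub_zero, add_zero] at this
    unfold VC3.gg
    linarith
  · push Not at h
    rw [B_Sl_gg_eq]
    have := B_Sl_mono (τ - 1 / 2) 0 (1 / 2 - x) (by linarith) (by linarith) le_rfl (by linarith)
      (by linarith)
    rw [sub_zero, add_zero] at this
    linarith

/-- The terms far from the middle are smaller. -/
theorem gg_le_sl_gap (τ x ρ : ℝ) (h0 : 0 ≤ x) (h2 : x ≤ 1 / 2 - ρ) (hρ : 0 ≤ ρ)
    (h3 : 1 / 2 < τ) (h4 : τ < 1) (h5 : ρ ≤ τ - 1 / 2) (h6 : τ + ρ ≤ 1) :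
    VC3.gg τ x ≤ sl τ -
      π * (Real.cos (π * (τ - 1 / 2)) / Real.sin (π * (τ - 1 / 2))) * ρ ^ 2 := by
  unfold sl
  rw [if_neg (by linarith), B_Sl_gg_eq]
  have h := B_Sl_mono (τ - 1 / 2) ρ (1 / 2 - x) (by linarith) (by linarith) hρ (by linarith)
    (by linarith)
  have h' := Fr_sym_ge (τ - 1 / 2) ρ (by linarith) (by linarith) (by rw [abs_of_nonneg hρ]; exact h5)
    (by rw [abs_of_nonneg hρ]; linarith)
  linarith

/-- The exponent of the kernel near the real axis. -/
theorem B_Sl_slot (x σ t c : ℝ) (hc : 0 < c) (h1 : c ≤ x - |σ|) (h2 : x + |σ| ≤ 1 / 2 - c) :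
    2 * Fr (x + 1 / 2) + (po (some (x : ℂ)) (σ + t * Complex.I)).re ≤
      sl (x + 1 / 2) - π * (Real.cos (π * x) / Real.sin (π * x)) * σ ^ 2 +
        π * (Real.cos (π * c) / Real.sin (π * c)) * t ^ 2 := by
  have hπ := Real.pi_pos
  have hσ := abs_nonneg σ
  obtain ⟨hs1, hs2⟩ := abs_le.mp (le_refl |σ|)
  have e0 : (po (some (x : ℂ)) (σ + t * Complex.I)).re =
      -(ff (((x - σ : ℝ) : ℂ) + ((0 - t : ℝ) : ℂ) * Complex.I)).re -
      (ff (((x + σ : ℝ) : ℂ) + ((0 + t : ℝ) : ℂ) * Complex.I)).re := by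
    have e1 : (x : ℂ) - (σ + t * Complex.I) =
        ((x - σ : ℝ) : ℂ) + ((0 - t : ℝ) : ℂ) * Complex.I := by
      push_cast; ring
    have e2 : (x : ℂ) + (σ + t * Complex.I) =
        ((x + σ : ℝ) : ℂ) + ((0 + t : ℝ) : ℂ) * Complex.I := by
      push_cast; ring
    show (-ff ((x : ℂ) - (σ + t * Complex.I)) - ff ((x : ℂ) + (σ + t * Complex.I))).re = _
    rw [e1, e2]
    simp only [Complex.sub_re, Complex.neg_re]
  rw [e0]
  have f1 := (ff_vert_left (x - σ) (0 - t) (by linarith) (by linarith)).1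
  have f2 := (ff_vert_left (x + σ) (0 + t) (by linarith) (by linarith)).1
  have cot_le : ∀ u : ℝ, c ≤ u → u < 1 / 2 →
      Real.cos (π * u) / Real.sin (π * u) ≤ Real.cos (π * c) / Real.sin (π * c) := by
    intro u hu hu'
    have s1 : 0 < Real.sin (π * c) :=
      Real.sin_pos_of_pos_of_lt_pi (by positivity) (by nlinarith)
    have s2 : 0 < Real.sin (π * u) :=
      Real.sin_pos_of_pos_of_lt_pi (mul_pos hπ (by linarith)) (by nlinarith)
    rw [div_le_div_iff₀ s2 s1]
    have h7 : 0 ≤ Real.sin (π * u - π * c) :=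
      Real.sin_nonneg_of_nonneg_of_le_pi (by nlinarith) (by nlinarith)
    rw [Real.sin_sub] at h7
    linarith
  have c1 := cot_le (x - σ) (by linarith) (by linarith)
  have c2 := cot_le (x + σ) (by linarith) (by linarith)
  have s := Fr_sym_ge x σ (by linarith) (by linarith) (by linarith) (by linarith)
  have hsl : sl (x + 1 / 2) = 2 * Fr (x + 1 / 2) - 2 * Fr x := by
    unfold sl
    rw [if_neg (by linarith)]
    ring_nf
  rw [hsl]
  set d1 := Real.cos (π * (x - σ)) / Real.sin (π * (x - σ))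
  set d2 := Real.cos (π * (x + σ)) / Real.sin (π * (x + σ))
  set d := Real.cos (π * c) / Real.sin (π * c)
  have g1 : π / 2 * d1 * (0 - t) ^ 2 ≤ π / 2 * d * t ^ 2 := by
    rw [zero_sub, neg_sq]
    have : π / 2 * d1 ≤ π / 2 * d := by nlinarith
    exact mul_le_mul_of_nonneg_right this (sq_nonneg t)
  have g2 : π / 2 * d2 * (0 + t) ^ 2 ≤ π / 2 * d * t ^ 2 := by
    rw [zero_add]
    have : π / 2 * d2 ≤ π / 2 * d := by nlinarith
    exact mul_le_mul_of_nonneg_right this (sq_nonneg t)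
  linarith

end Pool.Agent.H63.CLK
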