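import Pool.Agent.H63.CLK.B_SE
import Pool.Agent.H63.VC3.CritB
import Pool.Agent.H63.VC3.Upper
import Pool.Agent.H63.VC4.UpperN
import Pool.Agent.H63.VC6.LocU
import Pool.Agent.H63.VC6.SlotU
import Pool.Agent.H63.VC7.GNb
import Pool.Agent.H63.VC7.Link

/-!
# CLK part B4: the integrand of a twist region

At `y = yk 2 M t`, that is `M (y + 1/2) - 1 = t`, the first factor of `VX` is `(S M t)^2`. The powers of `M` of the two factors cancel:
`SE M (-1) (y + 1/2) ^ 2 ~ M`, `Qo 2 M (some y) v ~ 1 / M`. `om_flat` (VC3/Om), `KBN_om`, `KBN_Qo_lim`.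
-/

set_option autoImplicit false

namespace Pool.Agent.H63.CLK

open Pool.Agent.H63.VC hiding ext
open Pool.Agent.H63.VC3 Pool.Agent.H63.VC4 Pool.Agent.H63.VC7 Complex Filter Topology

/-- The integrand of a twist region. -/
noncomputable def VX (r : ℝ) (M : ℕ) (y v : ℂ) : ℂ :=
  SE M (-1) (y + 1 / 2) ^ 2 * (KG (m := 1) r M Finset.univ (fun _ => y) v * om 2 M v)

/-- The potential of a twist region. -/
noncomputable def Pot (r : ℝ) (y v : ℂ) : ℂ :=
  2 * Real.pi * I * (r * v ^ 2 + v) + 2 * ff (y + 1 / 2) - ff (y - v) - ff (y + v)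

/-- The domain: `0 < Re (y ± v)`, `Re y < 1/2`, `0 < Im v`. -/
def DomV (y v : ℂ) : Prop := 0 < (y - v).re ∧ 0 < (y + v).re ∧ y.re < 1 / 2 ∧ 0 < v.im

private theorem B_VX_eq (r : ℝ) (M : ℕ) (y v : ℂ) : VX r M y v =
    SE M (-1) (y + 1 / 2) ^ 2 * ((exp (2 * Real.pi * I * r * M * v ^ 2) *
      (2 * sin (2 * Real.pi * v)) * ((SE M (-(1 / 2)) (y - v))⁻¹ *
        (SE M (-(1 / 2)) (y + v))⁻¹)) * om 2 M v) := by
  unfold VX KG
  have h1 : ∏ j ∈ (Finset.univ : Finset (Fin 1)), Qo 2 M (some ((fun _ => y) j)) v =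
      (SE M (-(1 / 2)) (y - v))⁻¹ * (SE M (-(1 / 2)) (y + v))⁻¹ := by
    rw [Finset.univ_unique, Finset.prod_singleton]
    simp only [Qo, SE]
    rw [← Complex.exp_neg, ← Complex.exp_neg, ← Complex.exp_add]
    congr 1
  rw [h1]

private theorem B_VX_ww (M : ℕ) (hM : 1 ≤ M) (v : ℂ) (hv : 0 < v.im) : ww 2 M v ≠ 1 := by
  intro h
  have h1 := norm_ww 2 M v
  rw [h, norm_one] at h1
  have hM0 : (0 : ℝ) < M := by exact_mod_cast hM
  have h2 : Real.exp (-(2 * Real.pi * M * v.im)) < 1 := by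
    rw [Real.exp_lt_one_iff]
    have := Real.pi_pos
    have : 0 < 2 * Real.pi * M * v.im := by positivity
    linarith
  linarith

private theorem B_VX_ww_diff (M : ℕ) : Differentiable ℂ (ww 2 M) := by
  unfold ww
  fun_prop

private theorem B_VX_om_diff (M : ℕ) (hM : 1 ≤ M) (v : ℂ) (hv : 0 < v.im) :
    DifferentiableAt ℂ (om 2 M) v := by
  unfold om
  have h1 := (B_VX_ww_diff M) v
  have h2 := B_VX_ww M hM v hv
  refine DifferentiableAt.div h1 ((differentiableAt_const 1).sub h1 |>.pow 2) ?_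
  exact pow_ne_zero 2 (sub_ne_zero.2 h2.symm)

private theorem B_VX_d1 (M : ℕ) (hM : 1 ≤ M) (y v : ℂ) (h : DomV y v) :
    DifferentiableAt ℂ (SE M (-1)) (y + 1 / 2) := by
  obtain ⟨h1, h2, h3, h4⟩ := h
  have hM1 : (1 : ℝ) ≤ M := by exact_mod_cast hM
  rw [sub_re] at h1
  rw [add_re] at h2
  have e : ((M : ℂ) * (y + 1 / 2) + (-1)).re = M * (y.re + 1 / 2) - 1 := by
    simp [Complex.mul_re]
    ring
  refine SE_differentiableAt M (by omega) (-1) _ ?_ ?_
  · rw [e]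
    nlinarith
  · rw [e]
    nlinarith

private theorem B_VX_d2 (M : ℕ) (hM : 1 ≤ M) (z : ℂ) (h0 : 0 < z.re) (h1 : z.re < 1) :
    DifferentiableAt ℂ (SE M (-(1 / 2))) z := by
  have hM1 : (1 : ℝ) ≤ M := by exact_mod_cast hM
  have e : ((M : ℂ) * z + (-(1 / 2))).re = M * z.re - 1 / 2 := by
    simp [Complex.mul_re]
    ring
  refine SE_differentiableAt M (by omega) (-(1 / 2)) _ ?_ ?_
  · rw [e]
    nlinarith
  · rw [e]
    nlinarith

private theorem B_VX_re (y v : ℂ) (h : DomV y v) :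
    0 < (y - v).re ∧ (y - v).re < 1 ∧ 0 < (y + v).re ∧ (y + v).re < 1 := by
  obtain ⟨h1, h2, h3, h4⟩ := h
  refine ⟨h1, ?_, h2, ?_⟩
  · rw [sub_re] at h1 ⊢
    rw [add_re] at h2
    linarith
  · rw [sub_re] at h1
    rw [add_re] at h2 ⊢
    linarith

theorem VX_nat (r : ℝ) (M t : ℕ) (ht : t < M) (v : ℂ) :
    VX r M ((yk 2 M t : ℝ) : ℂ) v = ((S M t : ℝ) : ℂ) ^ 2 *
      (KG (m := 1) r M Finset.univ (fun _ => ((yk 2 M t : ℝ) : ℂ)) v * om 2 M v) := by
  unfold VX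
  have hM : (M : ℂ) ≠ 0 := by
    have : M ≠ 0 := by omega
    exact_mod_cast this
  have h : (M : ℂ) * (((yk 2 M t : ℝ) : ℂ) + 1 / 2) + (-1) = t := by
    unfold yk bt
    push_cast
    field_simp
    ring
  rw [SE_nat M t ht (-1) _ h]

theorem VX_continuousAt (r : ℝ) (M : ℕ) (hM : 1 ≤ M) (y v : ℂ) (h : DomV y v) :
    ContinuousAt (fun z : ℂ × ℂ => VX r M z.1 z.2) (y, v) := by
  simp only [B_VX_eq]
  obtain ⟨a1, a2, a3, a4⟩ := B_VX_re y v h
  have c1 := (B_VX_d1 M hM y v h).continuousAt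
  have c2 := (B_VX_d2 M hM (y - v) a1 a2).continuousAt
  have c3 := (B_VX_d2 M hM (y + v) a3 a4).continuousAt
  have c4 := (B_VX_om_diff M hM v h.2.2.2).continuousAt
  have d1 : ContinuousAt (fun z : ℂ × ℂ => SE M (-1) (z.1 + 1 / 2)) (y, v) :=
    ContinuousAt.comp (f := fun z : ℂ × ℂ => z.1 + 1 / 2) (g := SE M (-1)) (x := (y, v)) c1
      (by fun_prop)
  have d2 : ContinuousAt (fun z : ℂ × ℂ => SE M (-(1 / 2)) (z.1 - z.2)) (y, v) :=
    ContinuousAt.comp (f := fun z : ℂ × ℂ => z.1 - z.2) (g := SE M (-(1 / 2))) (x := (y, v)) c2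
      (by fun_prop)
  have d3 : ContinuousAt (fun z : ℂ × ℂ => SE M (-(1 / 2)) (z.1 + z.2)) (y, v) :=
    ContinuousAt.comp (f := fun z : ℂ × ℂ => z.1 + z.2) (g := SE M (-(1 / 2))) (x := (y, v)) c3
      (by fun_prop)
  have d4 : ContinuousAt (fun z : ℂ × ℂ => om 2 M z.2) (y, v) :=
    ContinuousAt.comp (f := fun z : ℂ × ℂ => z.2) (g := om 2 M) (x := (y, v)) c4
      (by fun_prop)
  have d5 : ContinuousAt (fun z : ℂ × ℂ => exp (2 * Real.pi * I * r * M * z.2 ^ 2) *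
      (2 * sin (2 * Real.pi * z.2))) (y, v) := by fun_prop
  exact (d1.pow 2).mul ((d5.mul ((d2.inv₀ (SE_ne _ _ _)).mul (d3.inv₀ (SE_ne _ _ _)))).mul d4)

theorem VX_differentiableAt (r : ℝ) (M : ℕ) (hM : 1 ≤ M) (y v : ℂ) (h : DomV y v) :
    DifferentiableAt ℂ (fun z : ℂ × ℂ => VX r M z.1 z.2) (y, v) := by
  simp only [B_VX_eq]
  obtain ⟨a1, a2, a3, a4⟩ := B_VX_re y v h
  have c1 := B_VX_d1 M hM y v h
  have c2 := B_VX_d2 M hM (y - v) a1 a2
  have c3 := B_VX_d2 M hM (y + v) a3 a4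
  have c4 := B_VX_om_diff M hM v h.2.2.2
  have d1 : DifferentiableAt ℂ (fun z : ℂ × ℂ => SE M (-1) (z.1 + 1 / 2)) (y, v) :=
    DifferentiableAt.comp (f := fun z : ℂ × ℂ => z.1 + 1 / 2) (g := SE M (-1)) (y, v) c1
      (by fun_prop)
  have d2 : DifferentiableAt ℂ (fun z : ℂ × ℂ => SE M (-(1 / 2)) (z.1 - z.2)) (y, v) :=
    DifferentiableAt.comp (f := fun z : ℂ × ℂ => z.1 - z.2) (g := SE M (-(1 / 2))) (y, v) c2
      (by fun_prop)
  have d3 : DifferentiableAt ℂ (fun z : ℂ × ℂ => SE M (-(1 / 2)) (z.1 + z.2)) (y, v) :=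
    DifferentiableAt.comp (f := fun z : ℂ × ℂ => z.1 + z.2) (g := SE M (-(1 / 2))) (y, v) c3
      (by fun_prop)
  have d4 : DifferentiableAt ℂ (fun z : ℂ × ℂ => om 2 M z.2) (y, v) :=
    DifferentiableAt.comp (f := fun z : ℂ × ℂ => z.2) (g := om 2 M) (y, v) c4
      (by fun_prop)
  have d5 : DifferentiableAt ℂ (fun z : ℂ × ℂ => exp (2 * Real.pi * I * r * M * z.2 ^ 2) *
      (2 * sin (2 * Real.pi * z.2))) (y, v) := by fun_prop
  exact (d1.pow 2).mul ((d5.mul ((d2.inv (SE_ne _ _ _)).mul (d3.inv (SE_ne _ _ _)))).mul d4)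

theorem VX_differentiable_y (r : ℝ) (M : ℕ) (hM : 1 ≤ M) (y v : ℂ) (h : DomV y v) :
    DifferentiableAt ℂ (fun y => VX r M y v) y := by
  simp only [B_VX_eq]
  obtain ⟨a1, a2, a3, a4⟩ := B_VX_re y v h
  have c1 := B_VX_d1 M hM y v h
  have c2 := B_VX_d2 M hM (y - v) a1 a2
  have c3 := B_VX_d2 M hM (y + v) a3 a4
  have d1 : DifferentiableAt ℂ (fun z : ℂ => SE M (-1) (z + 1 / 2)) y :=
    DifferentiableAt.comp (f := fun z : ℂ => z + 1 / 2) (g := SE M (-1)) y c1 (by fun_prop)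
  have d2 : DifferentiableAt ℂ (fun z : ℂ => SE M (-(1 / 2)) (z - v)) y :=
    DifferentiableAt.comp (f := fun z : ℂ => z - v) (g := SE M (-(1 / 2))) y c2 (by fun_prop)
  have d3 : DifferentiableAt ℂ (fun z : ℂ => SE M (-(1 / 2)) (z + v)) y :=
    DifferentiableAt.comp (f := fun z : ℂ => z + v) (g := SE M (-(1 / 2))) y c3 (by fun_prop)
  exact (d1.pow 2).mul (((differentiableAt_const _).mul
    ((d2.inv (SE_ne _ _ _)).mul (d3.inv (SE_ne _ _ _)))).mul (differentiableAt_const _))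

theorem VX_differentiable_v (r : ℝ) (M : ℕ) (hM : 1 ≤ M) (y v : ℂ) (h : DomV y v) :
    DifferentiableAt ℂ (fun v => VX r M y v) v := by
  simp only [B_VX_eq]
  obtain ⟨a1, a2, a3, a4⟩ := B_VX_re y v h
  have c2 := B_VX_d2 M hM (y - v) a1 a2
  have c3 := B_VX_d2 M hM (y + v) a3 a4
  have c4 := B_VX_om_diff M hM v h.2.2.2
  have d2 : DifferentiableAt ℂ (fun z : ℂ => SE M (-(1 / 2)) (y - z)) v :=
    DifferentiableAt.comp (f := fun z : ℂ => y - z) (g := SE M (-(1 / 2))) v c2 (by fun_prop)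
  have d3 : DifferentiableAt ℂ (fun z : ℂ => SE M (-(1 / 2)) (y + z)) v :=
    DifferentiableAt.comp (f := fun z : ℂ => y + z) (g := SE M (-(1 / 2))) v c3 (by fun_prop)
  have d5 : DifferentiableAt ℂ (fun z : ℂ => exp (2 * Real.pi * I * r * M * z ^ 2) *
      (2 * sin (2 * Real.pi * z))) v := by fun_prop
  exact (differentiableAt_const _).mul ((d5.mul
    ((d2.inv (SE_ne _ _ _)).mul (d3.inv (SE_ne _ _ _)))).mul c4)

private theorem B_VX_sin (z : ℂ) : ‖sin z‖ ≤ Real.exp |z.im| := by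
  have h1 : sin z = (exp (-z * I) - exp (z * I)) * I / 2 := rfl
  rw [h1, norm_div, norm_mul, Complex.norm_I, mul_one]
  have h2 : ‖exp (-z * I)‖ ≤ Real.exp |z.im| := by
    rw [Complex.norm_exp]
    apply Real.exp_le_exp.2
    have : (-z * I).re = z.im := by simp
    rw [this]
    exact le_abs_self _
  have h3 : ‖exp (z * I)‖ ≤ Real.exp |z.im| := by
    rw [Complex.norm_exp]
    apply Real.exp_le_exp.2
    have : (z * I).re = -z.im := by simp
    rw [this]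
    exact neg_le_abs _
  have h4 := norm_sub_le (exp (-z * I)) (exp (z * I))
  have h5 : ‖(2 : ℂ)‖ = 2 := by norm_num
  rw [h5, div_le_iff₀ (by norm_num)]
  linarith

/-- The bound, uniform in `r`. -/
theorem VX_bound (c B Y1 : ℝ) (hc : 0 < c) (hY1 : 0 < Y1) : ∃ C : ℝ, 0 < C ∧ ∃ M0 : ℕ,
    ∀ (r : ℝ) (M : ℕ), M0 ≤ M → ∀ y v : ℂ, c ≤ (y - v).re → c ≤ (y + v).re → y.re ≤ 1 / 2 - c →
    |y.im| ≤ B → |v.im| ≤ B → Y1 ≤ v.im →
    ‖VX r M y v‖ ≤ C * Real.exp (M * (Pot r y v).re) := by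
  obtain ⟨C, hC, M1, hS⟩ := SE_bound c (2 * |B| + 1) hc
  obtain ⟨M2, hM2⟩ := exists_nat_ge (1 / (2 * Real.pi * Y1))
  refine ⟨C ^ 2 * (2 * Real.exp (2 * Real.pi * |B|)) * C * C * 4, by positivity,
    M1 + M2 + 1, ?_⟩
  intro r M hM y v h1 h2 h3 h4 h5 h6
  have hB : B ≤ |B| := le_abs_self B
  have hM1 : (1 : ℝ) ≤ M := by exact_mod_cast (by omega : 1 ≤ M)
  have hM0 : (0 : ℝ) < M := by linarith
  rw [sub_re] at h1
  rw [add_re] at h2
  have e1 : (y + 1 / 2).re = y.re + 1 / 2 := by simp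
  have e2 : (y + 1 / 2).im = y.im := by simp
  obtain ⟨b1, -⟩ := hS M (by omega) (-1) (y + 1 / 2) (by
    rw [norm_neg, norm_one]
    have := abs_nonneg B
    linarith) (by rw [e1]; linarith) (by rw [e1]; linarith) (by rw [e2]; linarith [abs_nonneg B])
  have hhalf : ‖(-(1 / 2) : ℂ)‖ ≤ 2 * |B| + 1 := by
    rw [norm_neg]
    have h7 : ‖(1 / 2 : ℂ)‖ = 1 / 2 := by norm_num
    rw [h7]
    have := abs_nonneg B
    linarith
  obtain ⟨-, b2⟩ := hS M (by omega) (-(1 / 2)) (y - v) hhalf (by rw [sub_re]; linarith)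
    (by rw [sub_re]; linarith) (by
      rw [sub_im]
      have := abs_sub y.im v.im
      linarith)
  obtain ⟨-, b3⟩ := hS M (by omega) (-(1 / 2)) (y + v) hhalf (by rw [add_re]; linarith)
    (by rw [add_re]; linarith) (by
      rw [add_im]
      have := abs_add_le y.im v.im
      linarith)
  have b4 : ‖exp (2 * Real.pi * I * r * M * v ^ 2)‖ =
      Real.exp (M * (2 * Real.pi * I * (r * v ^ 2)).re) := by
    rw [Complex.norm_exp]
    congr 1
    have : (2 * Real.pi * I * r * M * v ^ 2 : ℂ) = ((M : ℝ) : ℂ) * (2 * Real.pi * I * (r * v ^ 2)) := by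
      push_cast
      ring
    rw [this, Complex.re_ofReal_mul]
  have b5 : ‖2 * sin (2 * Real.pi * v)‖ ≤ 2 * Real.exp (2 * Real.pi * |B|) := by
    rw [norm_mul]
    have h7 : ‖(2 : ℂ)‖ = 2 := by norm_num
    rw [h7]
    refine mul_le_mul_of_nonneg_left ((B_VX_sin _).trans (Real.exp_le_exp.2 ?_)) (by norm_num)
    have h8 : (2 * Real.pi * v : ℂ).im = 2 * Real.pi * v.im := by
      have : (2 * Real.pi * v : ℂ) = ((2 * Real.pi : ℝ) : ℂ) * v := by push_cast; ring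
      rw [this, Complex.im_ofReal_mul]
    rw [h8, abs_mul, abs_of_nonneg (by positivity : (0 : ℝ) ≤ 2 * Real.pi)]
    exact mul_le_mul_of_nonneg_left (h5.trans hB) (by positivity)
  have b6 : ‖om 2 M v‖ ≤ 4 * Real.exp (M * (2 * Real.pi * I * v).re) := by
    have h7 : 1 ≤ 2 * Real.pi * M * v.im := by
      have h8 : (M2 : ℝ) ≤ M := by exact_mod_cast (by omega : M2 ≤ M)
      have h9 : 1 / (2 * Real.pi * Y1) ≤ M := hM2.trans h8
      rw [div_le_iff₀ (by positivity)] at h9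
      calc (1 : ℝ) ≤ M * (2 * Real.pi * Y1) := h9
        _ = 2 * Real.pi * M * Y1 := by ring
        _ ≤ 2 * Real.pi * M * v.im := mul_le_mul_of_nonneg_left h6 (by positivity)
    refine (om_flat 2 M v h7).trans (le_of_eq ?_)
    congr 2
    have : (2 * Real.pi * I * v : ℂ).re = -(2 * Real.pi * v.im) := by
      have h8 : (2 * Real.pi * I * v : ℂ) = ((2 * Real.pi : ℝ) : ℂ) * (I * v) := by push_cast; ring
      rw [h8, Complex.re_ofReal_mul]
      simp
    rw [this]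
    ring
  have hsq : Real.sqrt M * Real.sqrt M = M := Real.mul_self_sqrt hM0.le
  have hsp : 0 < Real.sqrt M := Real.sqrt_pos.2 hM0
  rw [B_VX_eq]
  rw [norm_mul, norm_pow, norm_mul, norm_mul, norm_mul (exp (2 * Real.pi * I * r * M * v ^ 2)),
    norm_mul (SE M (-(1 / 2)) (y - v))⁻¹, b4]
  have hE : Real.exp (M * (Pot r y v).re) =
      Real.exp (M * (ff (y + 1 / 2)).re) ^ 2 * Real.exp (M * (2 * Real.pi * I * (r * v ^ 2)).re) *
        Real.exp (-(M * (ff (y - v)).re)) * Real.exp (-(M * (ff (y + v)).re)) *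
        Real.exp (M * (2 * Real.pi * I * v).re) := by
    rw [sq, ← Real.exp_add, ← Real.exp_add, ← Real.exp_add, ← Real.exp_add, ← Real.exp_add]
    congr 1
    unfold Pot
    have : (2 * Real.pi * I * (r * v ^ 2 + v) + 2 * ff (y + 1 / 2) - ff (y - v) - ff (y + v)).re =
        (2 * Real.pi * I * (r * v ^ 2)).re + (2 * Real.pi * I * v).re + 2 * (ff (y + 1 / 2)).re -
          (ff (y - v)).re - (ff (y + v)).re := by
      rw [mul_add]
      simp only [add_re, sub_re]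
      have h8 : (2 * ff (y + 1 / 2)).re = 2 * (ff (y + 1 / 2)).re := by
        have h9 : (2 * ff (y + 1 / 2) : ℂ) = ((2 : ℝ) : ℂ) * ff (y + 1 / 2) := by push_cast; ring
        rw [h9, Complex.re_ofReal_mul]
      rw [h8]
    rw [this]
    ring
  set E1 := Real.exp (M * (ff (y + 1 / 2)).re) with hE1
  set E2 := Real.exp (M * (2 * Real.pi * I * (r * v ^ 2)).re) with hE2
  set E3 := Real.exp (-(M * (ff (y - v)).re)) with hE3
  set E4 := Real.exp (-(M * (ff (y + v)).re)) with hE4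
  set E5 := Real.exp (M * (2 * Real.pi * I * v).re) with hE5
  have p1 : 0 < E1 := Real.exp_pos _
  have p2 : 0 < E2 := Real.exp_pos _
  have p3 : 0 < E3 := Real.exp_pos _
  have p4 : 0 < E4 := Real.exp_pos _
  have p5 : 0 < E5 := Real.exp_pos _
  calc ‖SE M (-1) (y + 1 / 2)‖ ^ 2 * (E2 * ‖2 * sin (2 * Real.pi * v)‖ *
        (‖(SE M (-(1 / 2)) (y - v))⁻¹‖ * ‖(SE M (-(1 / 2)) (y + v))⁻¹‖) * ‖om 2 M v‖) ≤
      (C * Real.sqrt M * E1) ^ 2 * (E2 * (2 * Real.exp (2 * Real.pi * |B|)) *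
        ((C / Real.sqrt M * E3) * (C / Real.sqrt M * E4)) * (4 * E5)) := by
        gcongr
    _ = C ^ 2 * (2 * Real.exp (2 * Real.pi * |B|)) * C * C * 4 * (E1 ^ 2 * E2 * E3 * E4 * E5) := by
        field_simp
        try ring
    _ = C ^ 2 * (2 * Real.exp (2 * Real.pi * |B|)) * C * C * 4 *
        Real.exp (M * (Pot r y v).re) := by rw [hE]

/-- The limit. -/
theorem VX_lim (r : ℝ) (y v : ℂ) (h : DomV y v) (yM vM : ℕ → ℂ)
    (hy : Tendsto yM atTop (𝓝 y)) (hv : Tendsto vM atTop (𝓝 v)) :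
    Tendsto (fun M : ℕ => (-1) ^ (M + 1) * VX r M (yM M) (vM M) * exp (-(M * Pot r (yM M) (vM M))))
      atTop (𝓝 (2 * sin (2 * Real.pi * v) * exp (-hh (y + 1 / 2)))) := by
  obtain ⟨a1, a2, a3, a4⟩ := B_VX_re y v h
  have e1 : (y + 1 / 2).re = y.re + 1 / 2 := by simp
  have h0y : 0 < y.re := by
    obtain ⟨h1, h2, h3, h4⟩ := h
    rw [sub_re] at h1
    rw [add_re] at h2
    linarith
  have l1 := SE_lim (-1) (y + 1 / 2) (by rw [e1]; linarith) (by rw [e1]; linarith [h.2.2.1])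
    (fun _ => -1) (fun M => yM M + 1 / 2) tendsto_const_nhds (hy.add_const _)
  have l2 := SE_lim (-(1 / 2)) (y - v) a1 a2 (fun _ => -(1 / 2)) (fun M => yM M - vM M)
    tendsto_const_nhds (hy.sub hv)
  have l3 := SE_lim (-(1 / 2)) (y + v) a3 a4 (fun _ => -(1 / 2)) (fun M => yM M + vM M)
    tendsto_const_nhds (hy.add hv)
  have z2 : exp ((-(1 / 2) + 1 / 2) * hh (y - v)) = 1 := by
    rw [neg_add_cancel, zero_mul, Complex.exp_zero]
  have z3 : exp ((-(1 / 2) + 1 / 2) * hh (y + v)) = 1 := by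
    rw [neg_add_cancel, zero_mul, Complex.exp_zero]
  rw [z2] at l2
  rw [z3] at l3
  have l2' := l2.inv₀ one_ne_zero
  have l3' := l3.inv₀ one_ne_zero
  have l4 : Tendsto (fun M : ℕ => 2 * sin (2 * Real.pi * vM M)) atTop
      (𝓝 (2 * sin (2 * Real.pi * v))) := by
    have hc : Continuous fun z : ℂ => 2 * sin (2 * Real.pi * z) := by fun_prop
    exact (hc.tendsto v).comp hv
  have hww : Tendsto (fun M : ℕ => ww 2 M (vM M)) atTop (𝓝 0) := by
    rw [tendsto_zero_iff_norm_tendsto_zero]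
    simp_rw [norm_ww]
    have him : Tendsto (fun M => (vM M).im) atTop (𝓝 v.im) := (Complex.continuous_im.tendsto v).comp hv
    have h1 : Tendsto (fun M : ℕ => 2 * Real.pi * M * (vM M).im) atTop atTop := by
      have h2 : Tendsto (fun M : ℕ => 2 * Real.pi * (M : ℝ)) atTop atTop :=
        tendsto_natCast_atTop_atTop.const_mul_atTop (by positivity)
      exact h2.atTop_mul_pos h.2.2.2 him
    exact Real.tendsto_exp_atBot.comp (Filter.tendsto_neg_atTop_atBot.comp h1)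
  have l5 : Tendsto (fun M : ℕ => 1 / (1 - ww 2 M (vM M)) ^ 2) atTop (𝓝 1) := by
    have h1 : Tendsto (fun M : ℕ => 1 / (1 - ww 2 M (vM M)) ^ 2) atTop (𝓝 (1 / (1 - 0) ^ 2)) :=
      tendsto_const_nhds.div ((tendsto_const_nhds.sub hww).pow 2) (by norm_num)
    simpa using h1
  have hfin := ((l1.pow 2).mul (l4.mul (l2'.mul l3'))).mul l5
  have elim : exp ((-1 + 1 / 2) * hh (y + 1 / 2)) ^ 2 *
      (2 * sin (2 * Real.pi * v) * ((1 : ℂ)⁻¹ * (1 : ℂ)⁻¹)) * 1 =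
      2 * sin (2 * Real.pi * v) * exp (-hh (y + 1 / 2)) := by
    rw [← Complex.exp_nat_mul, inv_one, mul_one, mul_one, mul_one, mul_comm]
    congr 2
    push_cast
    ring
  rw [elim] at hfin
  refine hfin.congr' ?_
  filter_upwards [eventually_ge_atTop 1] with M hM
  have hM0 : (0 : ℝ) < M := by exact_mod_cast hM
  have hsq : (Real.sqrt M : ℂ) * (Real.sqrt M : ℂ) = M := by
    rw [← Complex.ofReal_mul, Real.mul_self_sqrt hM0.le]
    simp
  have hs0 : (Real.sqrt M : ℂ) ≠ 0 := by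
    have := (Real.sqrt_pos.2 hM0).ne'
    exact_mod_cast this
  rw [B_VX_eq]
  have hom := KBN_om 2 M (vM M)
  have hsgn : ((-1 : ℂ)) ^ (M + 1) * (-1) ^ (M + 2 + 1) = 1 := by
    rw [← pow_add]
    have : M + 1 + (M + 2 + 1) = 2 * (M + 2) := by ring
    rw [this, pow_mul]
    norm_num
  have hE : exp (-(M * Pot r (yM M) (vM M))) =
      exp (-(M * ff (yM M + 1 / 2))) ^ 2 * (exp (2 * Real.pi * I * r * M * (vM M) ^ 2))⁻¹ *
        (exp (-(M * ff (yM M - vM M))))⁻¹ * (exp (-(M * ff (yM M + vM M))))⁻¹ *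
        exp (-M * (2 * Real.pi * I * vM M)) := by
    rw [← Complex.exp_nat_mul, ← Complex.exp_neg, ← Complex.exp_neg, ← Complex.exp_neg,
      ← Complex.exp_add, ← Complex.exp_add, ← Complex.exp_add, ← Complex.exp_add]
    congr 1
    unfold Pot
    push_cast
    ring
  have n1 := SE_ne M (-(1 / 2)) (yM M - vM M)
  have n2 := SE_ne M (-(1 / 2)) (yM M + vM M)
  have x1 := Complex.exp_ne_zero (-(M * ff (yM M - vM M)))
  have x2 := Complex.exp_ne_zero (-(M * ff (yM M + vM M)))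
  have x3 := Complex.exp_ne_zero (2 * Real.pi * I * r * M * (vM M) ^ 2)
  rw [hE]
  have step : (-1 : ℂ) ^ (M + 1) * (SE M (-1) (yM M + 1 / 2) ^ 2 *
        (exp (2 * Real.pi * I * r * M * vM M ^ 2) * (2 * sin (2 * Real.pi * vM M)) *
          ((SE M (-(1 / 2)) (yM M - vM M))⁻¹ * (SE M (-(1 / 2)) (yM M + vM M))⁻¹) *
          om 2 M (vM M))) *
      (exp (-(M * ff (yM M + 1 / 2))) ^ 2 * (exp (2 * Real.pi * I * r * M * vM M ^ 2))⁻¹ *
        (exp (-(M * ff (yM M - vM M))))⁻¹ * (exp (-(M * ff (yM M + vM M))))⁻¹ *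
        exp (-M * (2 * Real.pi * I * vM M))) =
      ((-1 : ℂ) ^ (M + 1) * (om 2 M (vM M) * exp (-M * (2 * Real.pi * I * vM M)))) *
      (SE M (-1) (yM M + 1 / 2) ^ 2 * exp (-(M * ff (yM M + 1 / 2))) ^ 2 *
        (2 * sin (2 * Real.pi * vM M)) * ((SE M (-(1 / 2)) (yM M - vM M))⁻¹ *
          (SE M (-(1 / 2)) (yM M + vM M))⁻¹) *
        (exp (-(M * ff (yM M - vM M))))⁻¹ * (exp (-(M * ff (yM M + vM M))))⁻¹) *
      (exp (2 * Real.pi * I * r * M * vM M ^ 2) *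
        (exp (2 * Real.pi * I * r * M * vM M ^ 2))⁻¹) := by
    ring
  rw [step, mul_inv_cancel₀ x3, hom, ← mul_assoc ((-1 : ℂ) ^ (M + 1)), hsgn, one_mul, mul_one]
  field_simp

end Pool.Agent.H63.CLK
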