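import Pool.Agent.H63.CLK.B_Bound
import Pool.Agent.H63.VC3.LLasym
import Pool.Agent.H63.VC3.KB
import Pool.Agent.H63.VC3.Om

/-! # The window: the factor of a twist region as a flat contour integral -/

namespace Pool.Agent.H63.CLK

open Pool.Agent.H63.VC hiding ext
open Pool.Agent.H63.VC3 Pool.Agent.H63.VC4 Pool.Agent.H63.VC6 Pool.Agent.H63.VC7 Complex

/-- Bound of the slot function on compact sets. -/
theorem B_Win_Qo (c B : ℝ) (hc : 0 < c) : ∃ C : ℝ, 0 < C ∧ ∀ M : ℕ, 1 ≤ M → ∀ y v : ℂ,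
    c ≤ (y - v).re → (y - v).re ≤ 1 - c → c ≤ (y + v).re → (y + v).re ≤ 1 - c →
    |(y - v).im| ≤ B → |(y + v).im| ≤ B →
    ‖Qo 2 M (some y) v‖ ≤ C / M * Real.exp (M * (po (some y) v).re) := by
  obtain ⟨C₀, hC₀, hL⟩ := LL_asym c B hc
  refine ⟨Real.exp (2 * C₀), by positivity, ?_⟩
  intro M hM y v h1 h2 h3 h4 h5 h6
  have hM0 : (0 : ℝ) < M := by exact_mod_cast hM
  have hM1 : (1 : ℝ) ≤ M := by exact_mod_cast hM
  have hA := hL M hM (y - v) h1 h2 h5
  have hB := hL M hM (y + v) h3 h4 h6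
  have hCM : C₀ / M ≤ C₀ := div_le_self hC₀.le hM1
  have hA' := (abs_le.1 ((Complex.abs_re_le_norm _).trans (hA.trans hCM))).1
  have hB' := (abs_le.1 ((Complex.abs_re_le_norm _).trans (hB.trans hCM))).1
  have e1 : ((Real.log M : ℂ) / 2).re = Real.log M / 2 := by
    have : ((Real.log M : ℂ) / 2) = ((Real.log M / 2 : ℝ) : ℂ) := by push_cast; ring
    rw [this, Complex.ofReal_re]
  have e2 : ∀ z : ℂ, ((M : ℂ) * z).re = M * z.re := by
    intro z
    have : (M : ℂ) = ((M : ℝ) : ℂ) := by push_cast; rfl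
    rw [this, Complex.re_ofReal_mul]
  rw [Complex.sub_re, Complex.sub_re, e1, e2] at hA' hB'
  simp only [Qo, po]
  rw [Complex.norm_exp]
  have h8 : Real.exp (2 * C₀) / M * Real.exp (M * (-ff (y - v) - ff (y + v)).re) =
      Real.exp (2 * C₀ - Real.log M + M * (-ff (y - v) - ff (y + v)).re) := by
    rw [Real.exp_add, Real.exp_sub, Real.exp_log hM0]
  rw [h8]
  refine Real.exp_le_exp.2 ?_
  rw [Complex.sub_re, Complex.neg_re, Complex.sub_re, Complex.neg_re]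
  linarith

/-- The growth rate changes little under a shift. -/
theorem B_Win_shift : ∃ C : ℝ, 0 < C ∧ ∀ M t : ℕ, 2 ≤ M → 1 / 2 < (t : ℝ) / M →
    M * (2 * Fr ((t : ℝ) / M)) ≤ M * (2 * Fr (((t : ℝ) + 1) / M)) + C * Real.log M ∧
    M * sl (((t : ℝ) + 1) / M) ≤ M * sl ((t : ℝ) / M) + C * Real.log M := by
  obtain ⟨C, hC, h⟩ := Fr_shift 1
  refine ⟨4 * C, by positivity, fun M t hM ht => ?_⟩
  have hM0 : (0 : ℝ) < M := by exact_mod_cast (by omega : 0 < M)
  have h1 := abs_le.1 (h M hM ((t : ℝ) / M) 1 le_rfl)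
  have h2 := abs_le.1 (h M hM ((t : ℝ) / M - 1 / 2) 1 le_rfl)
  have e1 : (t : ℝ) / M + ((1 : ℕ) : ℝ) / M = ((t : ℝ) + 1) / M := by
    push_cast
    ring
  have e2 : (t : ℝ) / M - 1 / 2 + ((1 : ℕ) : ℝ) / M = ((t : ℝ) + 1) / M - 1 / 2 := by
    push_cast
    ring
  rw [e1] at h1
  rw [e2] at h2
  have h3 : (t : ℝ) / M ≤ ((t : ℝ) + 1) / M := by gcongr; linarith
  unfold sl
  rw [if_neg (by linarith), if_neg (by linarith)]
  have hl : 0 ≤ Real.log M := Real.log_nonneg (by exact_mod_cast (by omega : 1 ≤ M))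
  constructor <;> nlinarith [h1.1, h1.2, h2.1, h2.2]

/-- The cotangent decreases. -/
theorem B_Win_cot (c u : ℝ) (hc : 0 < c) (hu : c ≤ u) (hu' : u < 1 / 2) :
    Real.cos (Real.pi * u) / Real.sin (Real.pi * u) ≤
      Real.cos (Real.pi * c) / Real.sin (Real.pi * c) := by
  have hπ := Real.pi_pos
  have s1 : 0 < Real.sin (Real.pi * c) :=
    Real.sin_pos_of_pos_of_lt_pi (by positivity) (by nlinarith)
  have s2 : 0 < Real.sin (Real.pi * u) :=
    Real.sin_pos_of_pos_of_lt_pi (mul_pos hπ (by linarith)) (by nlinarith)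
  rw [div_le_div_iff₀ s2 s1]
  have h7 : 0 ≤ Real.sin (Real.pi * u - Real.pi * c) :=
    Real.sin_nonneg_of_nonneg_of_le_pi (by nlinarith) (by nlinarith)
  rw [Real.sin_sub] at h7
  linarith

theorem B_Win_cot_pos (c : ℝ) (hc : 0 < c) (hc' : c < 1 / 2) :
    0 < Real.cos (Real.pi * c) / Real.sin (Real.pi * c) := by
  have hπ := Real.pi_pos
  apply div_pos
  · exact Real.cos_pos_of_mem_Ioo ⟨by nlinarith, by nlinarith⟩
  · exact Real.sin_pos_of_pos_of_lt_pi (by positivity) (by nlinarith)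

theorem B_Win_phase (r : ℝ) (M : ℕ) (σ s : ℝ) :
    ‖exp (2 * Real.pi * I * r * M * ((σ : ℂ) + s * I) ^ 2)‖ =
      Real.exp (M * (-4 * Real.pi * r * σ * s)) := by
  rw [Complex.norm_exp]
  congr 1
  have h9 : (2 * Real.pi * I * r * M * ((σ : ℂ) + s * I) ^ 2 : ℂ) =
      ((M * (-4 * Real.pi * r * σ * s) : ℝ) : ℂ) +
        ((M * (2 * Real.pi * r * (σ ^ 2 - s ^ 2)) : ℝ) : ℂ) * I := by
    push_cast
    linear_combination (4 * (Real.pi : ℂ) * r * M * σ * s +
      2 * Real.pi * r * M * s ^ 2 * I) * I_sq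
  rw [h9, Complex.add_re, Complex.ofReal_re, Complex.re_ofReal_mul, Complex.I_re, mul_zero,
    add_zero]

/-- Logarithms are powers. -/
theorem B_Win_pow (K : ℝ) (M : ℕ) (hM : 1 ≤ M) : Real.exp (K * Real.log M) ≤ (M : ℝ) ^ ⌈K⌉₊ := by
  have hM0 : (0 : ℝ) < M := by exact_mod_cast hM
  have hM1 : (1 : ℝ) ≤ M := by exact_mod_cast hM
  rw [← Real.rpow_natCast, Real.rpow_def_of_pos hM0, mul_comm (Real.log M)]
  apply Real.exp_le_exp.2
  exact mul_le_mul_of_nonneg_right (Nat.le_ceil K) (Real.log_nonneg hM1)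

/-- The bound of the kernel near the real axis. -/
theorem B_Win_kernel (e : ℝ) (he : 0 < e) : ∃ C : ℝ, 0 < C ∧ ∃ D : ℕ, ∀ (r : ℝ) (M t : ℕ)
    (σ s : ℝ), 2 ≤ M → t < M → 1 / 2 < (t : ℝ) / M → e ≤ yk 2 M t - |σ| →
    yk 2 M t + |σ| ≤ 1 / 2 - e → |s| ≤ 1 →
    S M t ^ 2 * ‖KG (m := 1) r M Finset.univ (fun _ => ((yk 2 M t : ℝ) : ℂ)) (σ + s * I)‖ ≤
      C * (M : ℝ) ^ D * Real.exp (M * (sl ((t : ℝ) / M) -
        Real.pi * (Real.cos (Real.pi * yk 2 M t) / Real.sin (Real.pi * yk 2 M t)) * σ ^ 2 +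
        Real.pi * (Real.cos (Real.pi * e) / Real.sin (Real.pi * e)) * s ^ 2 -
        4 * Real.pi * r * σ * s)) := by
  obtain ⟨C1, hC1, hQ⟩ := B_Win_Qo e 1 he
  obtain ⟨C2, hC2, hS⟩ := log_S_bound
  obtain ⟨C3, hC3, hF⟩ := B_Win_shift
  have hπ := Real.pi_pos
  refine ⟨2 * Real.exp (2 * Real.pi) * C1, by positivity, ⌈2 * C2 + 2 * C3⌉₊,
    fun r M t σ s hM ht ht2 h1 h2 h3 => ?_⟩
  have hM0 : (0 : ℝ) < M := by exact_mod_cast (by omega : 0 < M)
  have hM1 : (1 : ℝ) ≤ M := by exact_mod_cast (by omega : 1 ≤ M)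
  set y : ℝ := yk 2 M t with hy
  obtain ⟨hs1, hs2⟩ := abs_le.mp (le_refl |σ|)
  have hq := hQ M (by omega) (y : ℂ) (σ + s * I) (by simp; linarith) (by simp; linarith)
    (by simp; linarith) (by simp; linarith) (by simpa using h3) (by simpa using h3)
  have hslot := B_Sl_slot y σ s e he h1 h2
  have hyt : y + 1 / 2 = ((t : ℝ) + 1) / M := by
    rw [hy, yk, bt]
    push_cast
    ring
  have hSt : S M t ^ 2 = Real.exp (2 * Real.log (S M t)) := by
    rw [two_mul, Real.exp_add, Real.exp_log (S_pos ht)]; ring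
  have hlog := (abs_le.1 (hS M t hM ht)).2
  have hsin : ‖2 * Complex.sin (2 * Real.pi * ((σ : ℂ) + s * I))‖ ≤ 2 * Real.exp (2 * Real.pi) := by
    rw [norm_mul, Complex.norm_ofNat]
    refine mul_le_mul_of_nonneg_left ((KB_norm_sin_le _).trans (Real.exp_le_exp.2 ?_))
      (by norm_num)
    have h7 : (2 * (Real.pi : ℂ) * ((σ : ℂ) + s * I)).im = 2 * Real.pi * s := by
      have : (2 * (Real.pi : ℂ)) = ((2 * Real.pi : ℝ) : ℂ) := by push_cast; ring
      rw [this, Complex.im_ofReal_mul]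
      simp
    rw [h7, abs_mul, abs_of_pos (by positivity : 0 < 2 * Real.pi)]
    nlinarith
  have hKG : ‖KG (m := 1) r M Finset.univ (fun _ => (y : ℂ)) (σ + s * I)‖ ≤
      Real.exp (M * (-4 * Real.pi * r * σ * s)) * (2 * Real.exp (2 * Real.pi)) *
        (C1 * Real.exp (M * (po (some (y : ℂ)) (σ + s * I)).re)) := by
    unfold KG
    rw [norm_mul, norm_mul, B_Win_phase]
    simp only [Finset.univ_unique, Finset.prod_const, Finset.card_singleton, pow_one]
    have h4 : C1 / M ≤ C1 := div_le_self hC1.le hM1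
    gcongr
    exact hq.trans (by gcongr)
  obtain ⟨f1, f2⟩ := hF M t hM ht2
  rw [← hyt] at f1 f2
  have hpow := B_Win_pow (2 * C2 + 2 * C3) M (by omega)
  have hl : 0 ≤ Real.log M := Real.log_nonneg hM1
  calc S M t ^ 2 * ‖KG (m := 1) r M Finset.univ (fun _ => (y : ℂ)) (σ + s * I)‖
      ≤ Real.exp (2 * Real.log (S M t)) *
        (Real.exp (M * (-4 * Real.pi * r * σ * s)) * (2 * Real.exp (2 * Real.pi)) *
        (C1 * Real.exp (M * (po (some (y : ℂ)) (σ + s * I)).re))) := by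
        rw [hSt]
        exact mul_le_mul_of_nonneg_left hKG (Real.exp_pos _).le
    _ = 2 * Real.exp (2 * Real.pi) * C1 * Real.exp (2 * Real.log (S M t) +
        M * (-4 * Real.pi * r * σ * s) + M * (po (some (y : ℂ)) (σ + s * I)).re) := by
        rw [Real.exp_add, Real.exp_add]; ring
    _ ≤ 2 * Real.exp (2 * Real.pi) * C1 * Real.exp ((2 * C2 + 2 * C3) * Real.log M +
        M * (sl ((t : ℝ) / M) -
        Real.pi * (Real.cos (Real.pi * y) / Real.sin (Real.pi * y)) * σ ^ 2 +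
        Real.pi * (Real.cos (Real.pi * e) / Real.sin (Real.pi * e)) * s ^ 2 -
        4 * Real.pi * r * σ * s)) := by
        refine mul_le_mul_of_nonneg_left (Real.exp_le_exp.2 ?_) (by positivity)
        have := mul_le_mul_of_nonneg_left hslot hM0.le
        nlinarith
    _ ≤ _ := by
        rw [Real.exp_add, ← mul_assoc]
        refine mul_le_mul_of_nonneg_right ?_ (Real.exp_pos _).le
        exact mul_le_mul_of_nonneg_left hpow (by positivity)

end Pool.Agent.H63.CLK
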