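import Pool.Agent.H63.CLK.B_Flat

/-! # The window: the main estimate -/

namespace Pool.Agent.H63.CLK

open Pool.Agent.H63.VC hiding ext
open Pool.Agent.H63.VC3 Pool.Agent.H63.VC4 Pool.Agent.H63.VC6 Pool.Agent.H63.VC7 Complex

/-- The vertical sides and the end pieces. -/
theorem B_Window_sides (r : ℝ) (M t l1 l2 : ℕ) (Y ρ W B : ℝ) (hM : 1 ≤ M) (ht : t < M)
    (hl : l1 + l2 + 2 = M + 1) (hY : 0 < Y) (hY1 : Y ≤ 1) (hMY : 1 ≤ 2 * Real.pi * M * Y)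
    (hρ : ρ < yk 2 M t + 1 / (2 * M)) (hρ1 : ρ ≤ 1)
    (hr0 : 0 ≤ rho 2 M l2) (hr1 : rho 2 M l2 ≤ ρ) (hW : 0 ≤ W)
    (hB : ∀ σ s : ℝ, rho 2 M l2 ≤ |σ| → |σ| ≤ ρ → 0 ≤ s → s ≤ Y →
      W * ‖KG (m := 1) r M Finset.univ (fun _ => ((yk 2 M t : ℝ) : ℂ)) (σ + s * I)‖ ≤ B) :
    W * ‖PG (m := 1) r M Finset.univ (fun _ => ((yk 2 M t : ℝ) : ℂ)) (rho 2 M l2) Y -
      FG (m := 1) r M Finset.univ (fun _ => ((yk 2 M t : ℝ) : ℂ)) ρ Y‖ ≤ 10 * B := by
  have hM0 : (0 : ℝ) < M := by exact_mod_cast hM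
  have hpi := Real.pi_pos
  set ρM := rho 2 M l2 with hρM
  set F : ℂ → ℂ := fun v => KG (m := 1) r M Finset.univ (fun _ => ((yk 2 M t : ℝ) : ℂ)) v *
    om 2 M v with hF
  have hB0 : 0 ≤ B := by
    refine le_trans ?_ (hB ρ 0 (hr1.trans (le_abs_self _)) ?_ le_rfl hY.le)
    · exact mul_nonneg hW (norm_nonneg _)
    · rw [abs_of_nonneg (hr0.trans hr1)]
  -- the vertical sides
  have side : ∀ σ : ℝ, (σ = ρM ∨ σ = -ρM) → ∀ s : ℝ, 0 ≤ s → s ≤ Y →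
      W * ‖F (σ + s * I) * I‖ ≤ B := by
    intro σ hσ s hs0 hs1
    have hom : ‖om 2 M ((σ : ℂ) + s * I)‖ ≤ 1 := by
      obtain ⟨o1, o2, -, -⟩ := om_side 2 M l1 l2 hM hl s ρM rfl
      have h1 : Real.exp (-(2 * Real.pi * M * s)) ≤ 1 := by
        rw [Real.exp_le_one_iff]
        have : 0 ≤ 2 * Real.pi * M * s := by positivity
        linarith
      rcases hσ with h | h
      · rw [h]; exact o1.trans h1
      · rw [h, Complex.ofReal_neg]; exact o2.trans h1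
    have hσabs : |σ| = ρM := by
      rcases hσ with h | h
      · rw [h, abs_of_nonneg hr0]
      · rw [h, abs_neg, abs_of_nonneg hr0]
    rw [norm_mul, Complex.norm_I, mul_one, hF]
    simp only
    rw [norm_mul, ← mul_assoc]
    have h2 := hB σ s hσabs.ge (by rw [hσabs]; exact hr1) hs0 hs1
    calc _ ≤ W * ‖KG (m := 1) r M Finset.univ (fun _ => ((yk 2 M t : ℝ) : ℂ)) (σ + s * I)‖ * 1 :=
          mul_le_mul_of_nonneg_left hom (mul_nonneg hW (norm_nonneg _))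
      _ ≤ B := by rw [mul_one]; exact h2
  have scale : ∀ (g : ℝ → ℂ) (a b : ℝ), (∀ x ∈ Set.uIoc a b, W * ‖g x‖ ≤ 4 * B) →
      W * ‖∫ x in a..b, g x‖ ≤ 4 * B * |b - a| := by
    intro g a b h
    have e : W * ‖∫ x in a..b, g x‖ = ‖∫ x in a..b, (W : ℂ) * g x‖ := by
      rw [intervalIntegral.integral_const_mul, norm_mul, norm_real, Real.norm_eq_abs,
        abs_of_nonneg hW]
    rw [e]
    apply intervalIntegral.norm_integral_le_of_norm_le_const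
    intro x hx
    rw [norm_mul, norm_real, Real.norm_eq_abs, abs_of_nonneg hW]
    exact h x hx
  have i1 : W * ‖∫ s in (0 : ℝ)..Y, F (-(ρM : ℂ) + s * I) * I‖ ≤ 1 * B := by
    have e : W * ‖∫ x in (0 : ℝ)..Y, F (-(ρM : ℂ) + x * I) * I‖ =
        ‖∫ x in (0 : ℝ)..Y, (W : ℂ) * (F (-(ρM : ℂ) + x * I) * I)‖ := by
      rw [intervalIntegral.integral_const_mul, norm_mul, norm_real, Real.norm_eq_abs,
        abs_of_nonneg hW]
    rw [e]
    have := intervalIntegral.norm_integral_le_of_norm_le_const (a := (0 : ℝ)) (b := Y) (C := B)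
      (f := fun x : ℝ => (W : ℂ) * (F (-(ρM : ℂ) + x * I) * I)) (by
        intro x hx
        rw [Set.uIoc_of_le hY.le] at hx
        rw [norm_mul, norm_real, Real.norm_eq_abs, abs_of_nonneg hW]
        have := side (-ρM) (Or.inr rfl) x hx.1.le hx.2
        rwa [Complex.ofReal_neg] at this)
    refine this.trans ?_
    rw [sub_zero, abs_of_pos hY]
    nlinarith
  have i2 : W * ‖∫ s in (0 : ℝ)..Y, F ((ρM : ℂ) + s * I) * I‖ ≤ 1 * B := by
    have e : W * ‖∫ x in (0 : ℝ)..Y, F ((ρM : ℂ) + x * I) * I‖ =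
        ‖∫ x in (0 : ℝ)..Y, (W : ℂ) * (F ((ρM : ℂ) + x * I) * I)‖ := by
      rw [intervalIntegral.integral_const_mul, norm_mul, norm_real, Real.norm_eq_abs,
        abs_of_nonneg hW]
    rw [e]
    have := intervalIntegral.norm_integral_le_of_norm_le_const (a := (0 : ℝ)) (b := Y) (C := B)
      (f := fun x : ℝ => (W : ℂ) * (F ((ρM : ℂ) + x * I) * I)) (by
        intro x hx
        rw [Set.uIoc_of_le hY.le] at hx
        rw [norm_mul, norm_real, Real.norm_eq_abs, abs_of_nonneg hW]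
        exact side ρM (Or.inl rfl) x hx.1.le hx.2)
    refine this.trans ?_
    rw [sub_zero, abs_of_pos hY]
    nlinarith
  -- the end pieces
  have flat : ∀ x : ℝ, ρM ≤ |x| → |x| ≤ ρ → W * ‖F (x + Y * I)‖ ≤ 4 * B := by
    intro x h1 h2
    have him : ((x : ℂ) + Y * I).im = Y := by simp
    have hom : ‖om 2 M ((x : ℂ) + Y * I)‖ ≤ 4 := by
      refine (om_flat 2 M _ (by rw [him]; exact hMY)).trans ?_
      rw [him]
      have h1 : Real.exp (-(2 * Real.pi * M * Y)) ≤ 1 := by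
        rw [Real.exp_le_one_iff]
        have : 0 ≤ 2 * Real.pi * M * Y := by positivity
        linarith
      linarith
    rw [hF]
    simp only
    rw [norm_mul, ← mul_assoc]
    have h3 := hB x Y h1 h2 hY.le le_rfl
    calc _ ≤ W * ‖KG (m := 1) r M Finset.univ (fun _ => ((yk 2 M t : ℝ) : ℂ)) (x + Y * I)‖ * 4 :=
          mul_le_mul_of_nonneg_left hom (mul_nonneg hW (norm_nonneg _))
      _ ≤ 4 * B := by linarith
  have i3 : W * ‖∫ x in (-ρ)..(-ρM), F (x + Y * I)‖ ≤ 4 * B * |(-ρM) - (-ρ)| := by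
    apply scale
    intro x hx
    rw [Set.uIoc_of_le (by linarith)] at hx
    refine flat x ?_ ?_
    · rw [abs_of_nonpos (by linarith [hx.2])]
      linarith [hx.2]
    · rw [abs_of_nonpos (by linarith [hx.2])]
      linarith [hx.1]
  have i4 : W * ‖∫ x in ρM..ρ, F (x + Y * I)‖ ≤ 4 * B * |ρ - ρM| := by
    apply scale
    intro x hx
    rw [Set.uIoc_of_le hr1] at hx
    refine flat x ?_ ?_
    · rw [abs_of_nonneg (by linarith [hx.1])]
      exact hx.1.le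
    · rw [abs_of_nonneg (by linarith [hx.1])]
      exact hx.2
  have hcont := B_Flat_cont r M t Y ρ hM ht hY hρ
  have hii : ∀ a b : ℝ, a ∈ Set.Icc (-ρ) ρ → b ∈ Set.Icc (-ρ) ρ →
      IntervalIntegrable (fun x : ℝ => F (x + Y * I)) MeasureTheory.volume a b := by
    intro a b ha hb
    apply ContinuousOn.intervalIntegrable
    refine hcont.mono ?_
    exact (Set.uIcc_subset_Icc ha hb)
  have m1 : -ρ ∈ Set.Icc (-ρ) ρ := ⟨le_rfl, by linarith⟩
  have m2 : -ρM ∈ Set.Icc (-ρ) ρ := ⟨by linarith, by linarith⟩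
  have m3 : ρM ∈ Set.Icc (-ρ) ρ := ⟨by linarith, hr1⟩
  have m4 : ρ ∈ Set.Icc (-ρ) ρ := ⟨by linarith, le_rfl⟩
  have hsplit : ∫ x in (-ρ)..ρ, F (x + Y * I) = (∫ x in (-ρ)..(-ρM), F (x + Y * I)) +
      (∫ x in (-ρM)..ρM, F (x + Y * I)) + ∫ x in ρM..ρ, F (x + Y * I) := by
    rw [intervalIntegral.integral_add_adjacent_intervals (hii _ _ m1 m2) (hii _ _ m2 m3),
      intervalIntegral.integral_add_adjacent_intervals (hii _ _ m1 m3) (hii _ _ m3 m4)]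
  have hdiff : PG (m := 1) r M Finset.univ (fun _ => ((yk 2 M t : ℝ) : ℂ)) ρM Y -
      FG (m := 1) r M Finset.univ (fun _ => ((yk 2 M t : ℝ) : ℂ)) ρ Y =
      (∫ s in (0 : ℝ)..Y, F (-(ρM : ℂ) + s * I) * I) -
      (∫ s in (0 : ℝ)..Y, F ((ρM : ℂ) + s * I) * I) -
      (∫ x in (-ρ)..(-ρM), F (x + Y * I)) - ∫ x in ρM..ρ, F (x + Y * I) := by
    have e1 : FG (m := 1) r M Finset.univ (fun _ => ((yk 2 M t : ℝ) : ℂ)) ρ Y =
        ∫ x in (-ρ)..ρ, F (x + Y * I) := rfl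
    have e2 : PG (m := 1) r M Finset.univ (fun _ => ((yk 2 M t : ℝ) : ℂ)) ρM Y =
        (∫ s in (0 : ℝ)..Y, F (-(ρM : ℂ) + s * I) * I) + (∫ x in (-ρM)..ρM, F (x + Y * I)) -
        ∫ s in (0 : ℝ)..Y, F ((ρM : ℂ) + s * I) * I := rfl
    rw [e1, e2, hsplit]
    ring
  rw [hdiff]
  have a3 : |(-ρM) - (-ρ)| ≤ 1 := by
    rw [abs_of_nonneg (by linarith)]
    linarith
  have a4 : |ρ - ρM| ≤ 1 := by
    rw [abs_of_nonneg (by linarith)]
    linarith
  have b3 : 4 * B * |(-ρM) - (-ρ)| ≤ 4 * B := mul_le_of_le_one_right (by linarith) a3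
  have b4 : 4 * B * |ρ - ρM| ≤ 4 * B := mul_le_of_le_one_right (by linarith) a4
  have tri : ‖(∫ s in (0 : ℝ)..Y, F (-(ρM : ℂ) + s * I) * I) -
      (∫ s in (0 : ℝ)..Y, F ((ρM : ℂ) + s * I) * I) -
      (∫ x in (-ρ)..(-ρM), F (x + Y * I)) - ∫ x in ρM..ρ, F (x + Y * I)‖ ≤
      ‖∫ s in (0 : ℝ)..Y, F (-(ρM : ℂ) + s * I) * I‖ +
      ‖∫ s in (0 : ℝ)..Y, F ((ρM : ℂ) + s * I) * I‖ +
      ‖∫ x in (-ρ)..(-ρM), F (x + Y * I)‖ + ‖∫ x in ρM..ρ, F (x + Y * I)‖ := by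
    refine (norm_sub_le _ _).trans ?_
    gcongr
    refine (norm_sub_le _ _).trans ?_
    gcongr
    exact norm_sub_le _ _
  calc _ ≤ W * (‖∫ s in (0 : ℝ)..Y, F (-(ρM : ℂ) + s * I) * I‖ +
      ‖∫ s in (0 : ℝ)..Y, F ((ρM : ℂ) + s * I) * I‖ +
      ‖∫ x in (-ρ)..(-ρM), F (x + Y * I)‖ + ‖∫ x in ρM..ρ, F (x + Y * I)‖) :=
        mul_le_mul_of_nonneg_left tri hW
    _ ≤ 10 * B := by
      rw [mul_add, mul_add, mul_add]
      linarith

end Pool.Agent.H63.CLK
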