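import Pool.Agent.H63.CLK.C_Defs

/-!
# The integrand satisfies the hypotheses of the abstract theorem

`VX_*` (B_VX), `CX_*` (B_CX); the argument `y` of `VX` is shifted by `(1 - τ*) / M`: this changes
`M * Pot` by a bounded amount, with a limit (`shift_ff`: `M (ff (z + s / M) - ff z) → s hh z`, uniformly on
compact sets; mean value inequality with `ff_hasDerivAt`). The differentiability of `VX` in both
variables together follows from separate differentiability and continuity (Osgood), e.g. as in VC4/VC7,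
or from the definition: `VX` is a product of `SE`, exponentials, `sin`, `om`, `exp (LL ..)`.
-/

set_option autoImplicit false

namespace Pool.Agent.H63.CLK

open Pool.Agent.H63.VC hiding ext
open Pool.Agent.H63.VC3 Pool.Agent.H63.VC4 Pool.Agent.H63.VC7 Complex Filter Topology
open scoped BigOperators

variable {c d : ℕ} {F : Finset ℕ} {cor : Fin c → Fin 4 → ℕ} {x : Vr c → ℝ}
  {b : Fin d → Vr c → ℤ}

private theorem C_Amp_hh_cont (z : ℂ) (h0 : 0 < z.re) (h1 : z.re < 1) : ContinuousAt hh z :=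
  (hh_hasDerivAt z h0 h1).continuousAt

private theorem C_Amp_strict (z : ℂ) (h0 : 0 < z.re) (h1 : z.re < 1) :
    HasStrictDerivAt ff (hh z) z := by
  apply hasStrictDerivAt_of_hasDerivAt_of_continuousAt (f' := hh)
  · have h2 : ∀ᶠ y : ℂ in 𝓝 z, 0 < y.re := (isOpen_lt continuous_const continuous_re).mem_nhds h0
    have h3 : ∀ᶠ y : ℂ in 𝓝 z, y.re < 1 := (isOpen_lt continuous_re continuous_const).mem_nhds h1
    filter_upwards [h2, h3] with y hy0 hy1
    exact ff_hasDerivAt y hy0 hy1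
  · exact C_Amp_hh_cont z h0 h1

theorem shift_ff (s z : ℂ) (h0 : 0 < z.re) (h1 : z.re < 1) (zM : ℕ → ℂ)
    (hz : Tendsto zM atTop (𝓝 z)) :
    Tendsto (fun M : ℕ => (M : ℂ) * (ff (zM M + s / M) - ff (zM M))) atTop (𝓝 (s * hh z)) := by
  have hs : Tendsto (fun M : ℕ => s / (M : ℂ)) atTop (𝓝 0) := by
    have h2 : Tendsto (fun M : ℕ => ((M : ℝ) : ℂ)⁻¹) atTop (𝓝 0) := by
      have := (continuous_ofReal.tendsto 0).comp (tendsto_inv_atTop_nhds_zero_nat (𝕜 := ℝ))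
      simpa [Function.comp_def] using this
    have h3 := h2.const_mul s
    simpa [div_eq_mul_inv] using h3
  have hp : Tendsto (fun M : ℕ => (zM M + s / M, zM M)) atTop (𝓝 (z, z)) := by
    have := (hz.add hs)
    rw [add_zero] at this
    exact this.prodMk_nhds hz
  have h2 := (C_Amp_strict z h0 h1).hasStrictFDerivAt.isLittleO.comp_tendsto hp
  have h3 : (fun M : ℕ => (M : ℂ) * (ff (zM M + s / M) - ff (zM M) - s / M * hh z)) =o[atTop]
      (fun M : ℕ => (M : ℂ) * (s / M)) := by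
    apply (Asymptotics.isBigO_refl (fun M : ℕ => (M : ℂ)) atTop).mul_isLittleO
    have e1 : (fun M : ℕ => ff (zM M + s / M) - ff (zM M) - s / M * hh z) =
      (fun p : ℂ × ℂ => ff p.1 - ff p.2 -
        (ContinuousLinearMap.toSpanSingleton ℂ (hh z)) (p.1 - p.2)) ∘
        fun M : ℕ => (zM M + s / M, zM M) := by
      funext M
      simp
    have e2 : (fun M : ℕ => s / (M : ℂ)) = (fun p : ℂ × ℂ => p.1 - p.2) ∘
        fun M : ℕ => (zM M + s / M, zM M) := by
      funext M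
      simp
    rw [e1, e2]
    exact h2
  have h4 : ∀ᶠ M : ℕ in atTop, (M : ℂ) ≠ 0 := by
    filter_upwards [eventually_gt_atTop 0] with M hM
    exact_mod_cast hM.ne'
  have h5 : (fun M : ℕ => (M : ℂ) * (s / M)) =O[atTop] (fun _ => (1 : ℂ)) := by
    have h6 : (fun M : ℕ => (M : ℂ) * (s / M)) =ᶠ[atTop] (fun _ => s) := by
      filter_upwards [h4] with M hM
      field_simp
    exact h6.trans_isBigO (Asymptotics.isBigO_const_const s one_ne_zero _)
  have h6 := (Asymptotics.isLittleO_one_iff ℂ).1 (h3.trans_isBigO h5)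
  have h7 := h6.add_const (s * hh z)
  rw [zero_add] at h7
  refine h7.congr' ?_
  filter_upwards [h4] with M hM
  field_simp
  ring

theorem shift_ff_bound (e B : ℝ) (he : 0 < e) : ∃ C : ℝ, 0 < C ∧ ∃ M0 : ℕ, ∀ M : ℕ, M0 ≤ M →
    ∀ s z : ℂ, ‖s‖ ≤ B → e ≤ z.re → z.re ≤ 1 - e → |z.im| ≤ B →
    M * ‖ff (z + s / M) - ff z‖ ≤ C := by
  let K : Set ℂ := Set.Icc (e / 2) (1 - e / 2) ×ℂ Set.Icc (-(|B| + 1)) (|B| + 1)
  have hKc : IsCompact K := isCompact_Icc.reProdIm isCompact_Icc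
  have hKv : Convex ℝ K :=
    ((convex_Icc (e / 2) (1 - e / 2)).linear_preimage Complex.reLm).inter
      ((convex_Icc (-(|B| + 1)) (|B| + 1)).linear_preimage Complex.imLm)
  have hcont : ContinuousOn hh K := by
    intro z hz
    rw [Complex.mem_reProdIm] at hz
    exact (C_Amp_hh_cont z (by linarith [hz.1.1]) (by linarith [hz.1.2])).continuousWithinAt
  obtain ⟨C1, hC1⟩ := hKc.exists_bound_of_continuousOn hcont
  obtain ⟨M1, hM1⟩ := exists_nat_ge (2 * |B| / e)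
  obtain ⟨M2, hM2⟩ := exists_nat_ge (|B|)
  refine ⟨|C1| * |B| + 1, by positivity, M1 + M2 + 1, fun M hM s z hs hz0 hz1 hz2 => ?_⟩
  have hMp : (0 : ℝ) < M := by exact_mod_cast (by omega : 0 < M)
  have hMM1 : (M1 : ℝ) ≤ M := by exact_mod_cast (by omega : M1 ≤ M)
  have hMM2 : (M2 : ℝ) ≤ M := by exact_mod_cast (by omega : M2 ≤ M)
  have hB : 0 ≤ |B| := abs_nonneg B
  have hsB : ‖s‖ ≤ |B| := hs.trans (le_abs_self B)
  have hs1 : ‖s / (M : ℂ)‖ ≤ |B| / M := by
    rw [norm_div, Complex.norm_natCast]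
    gcongr
  have hs2 : |B| / M ≤ e / 2 := by
    rw [div_le_iff₀ hMp]
    have : 2 * |B| / e ≤ M := hM1.trans hMM1
    rw [div_le_iff₀ he] at this
    linarith
  have hs3 : |B| / M ≤ 1 := by
    rw [div_le_one hMp]
    exact hM2.trans hMM2
  have hre := Complex.abs_re_le_norm (s / (M : ℂ))
  have him := Complex.abs_im_le_norm (s / (M : ℂ))
  have hre' := abs_le.1 (hre.trans (hs1.trans hs2))
  have him' := abs_le.1 (him.trans (hs1.trans hs3))
  have hzi := abs_le.1 (hz2.trans (le_abs_self B))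
  have hz : z ∈ K := by
    rw [Complex.mem_reProdIm]
    refine ⟨⟨by linarith, by linarith⟩, ⟨by linarith, by linarith⟩⟩
  have hzs : z + s / M ∈ K := by
    rw [Complex.mem_reProdIm, Complex.add_re, Complex.add_im]
    refine ⟨⟨by linarith [hre'.1], by linarith [hre'.2]⟩, ⟨by linarith [him'.1], by linarith [him'.2]⟩⟩
  have h2 := hKv.norm_image_sub_le_of_norm_hasDerivWithin_le (f := ff) (f' := hh) (C := |C1|)
    (fun w hw => by
      rw [Complex.mem_reProdIm] at hw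
      exact (ff_hasDerivAt w (by linarith [hw.1.1]) (by linarith [hw.1.2])).hasDerivWithinAt)
    (fun w hw => (hC1 w hw).trans (le_abs_self _)) hz hzs
  rw [add_sub_cancel_left] at h2
  calc (M : ℝ) * ‖ff (z + s / M) - ff z‖ ≤ M * (|C1| * (|B| / M)) := by
        apply mul_le_mul_of_nonneg_left _ hMp.le
        exact h2.trans (mul_le_mul_of_nonneg_left hs1 (abs_nonneg _))
    _ = |C1| * |B| := by field_simp
    _ ≤ _ := by linarith

/-! ### The factor of a twist region is differentiable in both variables together -/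

private theorem C_Amp_VX_eq (r : ℝ) (M : ℕ) (y v : ℂ) : VX r M y v =
    SE M (-1) (y + 1 / 2) ^ 2 * ((exp (2 * Real.pi * I * r * M * v ^ 2) *
      (2 * sin (2 * Real.pi * v)) * ((SE M (-(1 / 2)) (y - v))⁻¹ *
        (SE M (-(1 / 2)) (y + v))⁻¹)) * om 2 M v) := by
  unfold VX KG
  have h1 : ∏ j ∈ (Finset.univ : Finset (Fin 1)), Qo 2 M (some ((fun _ => y) j)) v =
      (SE M (-(1 / 2)) (y - v))⁻¹ * (SE M (-(1 / 2)) (y + v))⁻¹ := by
    rw [Finset.univ_unique, Finset.prod_singleton]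
    simp only [Qo, SE]
    rw [← Complex.exp_neg, ← Complex.exp_neg, ← Complex.exp_add]
    congr 1
  rw [h1]

private theorem C_Amp_ww (M : ℕ) (hM : 1 ≤ M) (v : ℂ) (hv : 0 < v.im) : ww 2 M v ≠ 1 := by
  intro h
  have h1 := norm_ww 2 M v
  rw [h, norm_one] at h1
  have hM0 : (0 : ℝ) < M := by exact_mod_cast hM
  have h2 : Real.exp (-(2 * Real.pi * M * v.im)) < 1 := by
    rw [Real.exp_lt_one_iff]
    have := Real.pi_pos
    have : 0 < 2 * Real.pi * M * v.im := by positivity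
    linarith
  linarith

private theorem C_Amp_ww_diff (M : ℕ) : Differentiable ℂ (ww 2 M) := by
  unfold ww
  fun_prop

private theorem C_Amp_om_diff (M : ℕ) (hM : 1 ≤ M) (v : ℂ) (hv : 0 < v.im) :
    DifferentiableAt ℂ (om 2 M) v := by
  unfold om
  have h1 := (C_Amp_ww_diff M) v
  have h2 := C_Amp_ww M hM v hv
  refine DifferentiableAt.div h1 ((differentiableAt_const 1).sub h1 |>.pow 2) ?_
  exact pow_ne_zero 2 (sub_ne_zero.2 h2.symm)

private theorem C_Amp_d1 (M : ℕ) (hM : 1 ≤ M) (y v : ℂ) (h : DomV y v) :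
    DifferentiableAt ℂ (SE M (-1)) (y + 1 / 2) := by
  obtain ⟨h1, h2, h3, h4⟩ := h
  have hM1 : (1 : ℝ) ≤ M := by exact_mod_cast hM
  rw [sub_re] at h1
  rw [add_re] at h2
  have e : ((M : ℂ) * (y + 1 / 2) + (-1)).re = M * (y.re + 1 / 2) - 1 := by
    simp [Complex.mul_re]
    ring
  refine SE_differentiableAt M (by omega) (-1) _ ?_ ?_
  · rw [e]
    nlinarith
  · rw [e]
    nlinarith

private theorem C_Amp_d2 (M : ℕ) (hM : 1 ≤ M) (z : ℂ) (h0 : 0 < z.re) (h1 : z.re < 1) :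
    DifferentiableAt ℂ (SE M (-(1 / 2))) z := by
  have hM1 : (1 : ℝ) ≤ M := by exact_mod_cast hM
  have e : ((M : ℂ) * z + (-(1 / 2))).re = M * z.re - 1 / 2 := by
    simp [Complex.mul_re]
    ring
  refine SE_differentiableAt M (by omega) (-(1 / 2)) _ ?_ ?_
  · rw [e]
    nlinarith
  · rw [e]
    nlinarith

private theorem C_Amp_re (y v : ℂ) (h : DomV y v) :
    0 < (y - v).re ∧ (y - v).re < 1 ∧ 0 < (y + v).re ∧ (y + v).re < 1 := by
  obtain ⟨h1, h2, h3, h4⟩ := h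
  refine ⟨h1, ?_, h2, ?_⟩
  · rw [sub_re] at h1 ⊢
    rw [add_re] at h2
    linarith
  · rw [sub_re] at h1
    rw [add_re] at h2 ⊢
    linarith

private theorem C_Amp_VX_diff (r : ℝ) (M : ℕ) (hM : 1 ≤ M) (y v : ℂ) (h : DomV y v) :
    DifferentiableAt ℂ (fun z : ℂ × ℂ => VX r M z.1 z.2) (y, v) := by
  simp only [C_Amp_VX_eq]
  obtain ⟨a1, a2, a3, a4⟩ := C_Amp_re y v h
  have c1 := C_Amp_d1 M hM y v h
  have c2 := C_Amp_d2 M hM (y - v) a1 a2
  have c3 := C_Amp_d2 M hM (y + v) a3 a4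
  have c4 := C_Amp_om_diff M hM v h.2.2.2
  have d1 : DifferentiableAt ℂ (fun z : ℂ × ℂ => SE M (-1) (z.1 + 1 / 2)) (y, v) :=
    DifferentiableAt.comp (f := fun z : ℂ × ℂ => z.1 + 1 / 2) (g := SE M (-1)) (y, v) c1
      (by fun_prop)
  have d2 : DifferentiableAt ℂ (fun z : ℂ × ℂ => SE M (-(1 / 2)) (z.1 - z.2)) (y, v) :=
    DifferentiableAt.comp (f := fun z : ℂ × ℂ => z.1 - z.2) (g := SE M (-(1 / 2))) (y, v) c2
      (by fun_prop)
  have d3 : DifferentiableAt ℂ (fun z : ℂ × ℂ => SE M (-(1 / 2)) (z.1 + z.2)) (y, v) :=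
    DifferentiableAt.comp (f := fun z : ℂ × ℂ => z.1 + z.2) (g := SE M (-(1 / 2))) (y, v) c3
      (by fun_prop)
  have d4 : DifferentiableAt ℂ (fun z : ℂ × ℂ => om 2 M z.2) (y, v) :=
    DifferentiableAt.comp (f := fun z : ℂ × ℂ => z.2) (g := om 2 M) (y, v) c4
      (by fun_prop)
  have d5 : DifferentiableAt ℂ (fun z : ℂ × ℂ => exp (2 * Real.pi * I * r * M * z.2 ^ 2) *
      (2 * sin (2 * Real.pi * z.2))) (y, v) := by fun_prop
  exact (d1.pow 2).mul ((d5.mul ((d2.inv (SE_ne _ _ _)).mul (d3.inv (SE_ne _ _ _)))).mul d4)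

/-! ### Margins -/

private theorem C_Amp_minpos {ι : Type*} [Finite ι] (f : ι → ℝ) (hf : ∀ i, 0 < f i) :
    ∃ e : ℝ, 0 < e ∧ ∀ i, e ≤ f i := by
  rcases isEmpty_or_nonempty ι with h | h
  · exact ⟨1, one_pos, fun i => (h.false i).elim⟩
  · obtain ⟨i, hi⟩ := Finite.exists_min f
    exact ⟨f i, hf i, hi⟩

private structure C_AmpMg {c : ℕ} (F : Finset ℕ) (cor : Fin c → Fin 4 → ℕ) (x : Vr c → ℝ)
    (e : ℝ) : Prop where
  pos : 0 < e
  le : e ≤ 1 / 16
  t0 : ∀ v, 1 / 2 + 4 * e ≤ x (Sum.inl v)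
  t1 : ∀ v, x (Sum.inl v) ≤ 1 - 4 * e
  s0 : ∀ p ∈ Nd F cor, 4 * e ≤ x (Sum.inr p)
  s1 : ∀ p ∈ Nd F cor, 4 * e ≤ cz 1 (x (Sum.inl p.1)) p.2 - x (Sum.inr p)

private theorem C_Amp_margin (h : IsInt F cor x) : ∃ e : ℝ, C_AmpMg F cor x e := by
  obtain ⟨e1, p1, h1⟩ := C_Amp_minpos (fun v => x (Sum.inl v) - 1 / 2)
    (fun v => by linarith [h.half v])
  obtain ⟨e2, p2, h2⟩ := C_Amp_minpos (fun v => 1 - x (Sum.inl v))
    (fun v => by linarith [h.lt1 v])
  have hN : ∀ p : {p : Fin c × Fin 4 // p ∈ Nd F cor}, cor p.1.1 p.1.2 ∈ F ∧ ¬ IsEnd F cor p.1.1 := by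
    intro p
    have := p.2
    simp only [Nd, Finset.mem_filter, Finset.mem_univ, true_and] at this
    exact this
  obtain ⟨e3, p3, h3⟩ := C_Amp_minpos (fun p : {p : Fin c × Fin 4 // p ∈ Nd F cor} =>
    x (Sum.inr p.1)) (fun p => h.pos p.1.1 p.1.2 (hN p).1 (hN p).2)
  obtain ⟨e4, p4, h4⟩ := C_Amp_minpos (fun p : {p : Fin c × Fin 4 // p ∈ Nd F cor} =>
    cz 1 (x (Sum.inl p.1.1)) p.1.2 - x (Sum.inr p.1))
    (fun p => by linarith [h.lt p.1.1 p.1.2 (hN p).1 (hN p).2])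
  refine ⟨min (1 / 16) (min (min e1 e2) (min e3 e4) / 4), ?_, min_le_left _ _, ?_, ?_, ?_, ?_⟩
  · have : 0 < min (min e1 e2) (min e3 e4) := lt_min (lt_min p1 p2) (lt_min p3 p4)
    exact lt_min (by norm_num) (by linarith)
  · intro v
    have a1 := h1 v
    have a2 : min (1 / 16) (min (min e1 e2) (min e3 e4) / 4) ≤ min (min e1 e2) (min e3 e4) / 4 :=
      min_le_right _ _
    have a3 : min (min e1 e2) (min e3 e4) ≤ e1 := (min_le_left _ _).trans (min_le_left _ _)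
    linarith
  · intro v
    have a1 := h2 v
    have a2 : min (1 / 16) (min (min e1 e2) (min e3 e4) / 4) ≤ min (min e1 e2) (min e3 e4) / 4 :=
      min_le_right _ _
    have a3 : min (min e1 e2) (min e3 e4) ≤ e2 := (min_le_left _ _).trans (min_le_right _ _)
    linarith
  · intro p hp
    have a1 := h3 ⟨p, hp⟩
    have a2 : min (1 / 16) (min (min e1 e2) (min e3 e4) / 4) ≤ min (min e1 e2) (min e3 e4) / 4 :=
      min_le_right _ _
    have a3 : min (min e1 e2) (min e3 e4) ≤ e3 := (min_le_right _ _).trans (min_le_left _ _)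
    simp only at a1
    linarith
  · intro p hp
    have a1 := h4 ⟨p, hp⟩
    have a2 : min (1 / 16) (min (min e1 e2) (min e3 e4) / 4) ≤ min (min e1 e2) (min e3 e4) / 4 :=
      min_le_right _ _
    have a3 : min (min e1 e2) (min e3 e4) ≤ e4 := (min_le_right _ _).trans (min_le_right _ _)
    simp only at a1
    linarith

private theorem C_Amp_cz_re (τ : ℂ) (k : Fin 4) : (cz 1 τ k).re = cz 1 τ.re k := by
  fin_cases k <;> simp [cz]

private theorem C_Amp_cz_im (τ : ℂ) (k : Fin 4) : |(cz 1 τ k).im| = |τ.im| := by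
  fin_cases k <;> simp [cz]

private theorem C_Amp_cz_abs (s t : ℝ) (k : Fin 4) : |cz 1 s k - cz 1 t k| = |s - t| := by
  fin_cases k <;> simp [cz, abs_sub_comm]

private theorem C_Amp_cz_bd (e t : ℝ) (h0 : 1 / 2 + 4 * e ≤ t) (h1 : t ≤ 1 - 4 * e) (k : Fin 4) :
    4 * e ≤ cz 1 t k ∧ cz 1 t k ≤ 1 - 4 * e := by
  fin_cases k <;> simp [cz] <;> constructor <;> linarith

/-! ### Points -/

private structure C_AmpPt {c d : ℕ} (b : Fin d → Vr c → ℤ) (x : Vr c → ℝ) (e Y1 : ℝ)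
    (z : Ix d c → ℂ) : Prop where
  s1 : ∀ j, |(par b x (fun l => z (Sum.inl l)) j).re - x j| ≤ e
  s2 : ∀ j, |(par b x (fun l => z (Sum.inl l)) j).im| ≤ e
  v1 : ∀ j, |(z (Sum.inr j)).re| ≤ e
  v2 : ∀ j, |(z (Sum.inr j)).im| ≤ e
  v3 : ∀ j, Y1 ≤ (z (Sum.inr j)).im

private theorem C_Amp_par (D : ℝ) (w : Fin d → ℂ) (hw : ∀ i, |(w i).re| ≤ D ∧ |(w i).im| ≤ D)
    (j : Vr c) :
    |(par b x w j).re - x j| ≤ (∑ i, ∑ l, |(b i l : ℝ)|) * D ∧
      |(par b x w j).im| ≤ (∑ i, ∑ l, |(b i l : ℝ)|) * D := by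
  have hle : ∀ i, |(b i j : ℝ)| ≤ ∑ l, |(b i l : ℝ)| := fun i =>
    Finset.single_le_sum (f := fun l => |(b i l : ℝ)|) (fun l _ => abs_nonneg _)
      (Finset.mem_univ j)
  have e1 : (par b x w j).re - x j = ∑ i, (b i j : ℝ) * (w i).re := by
    unfold par
    simp [Complex.re_sum]
  have e2 : (par b x w j).im = ∑ i, (b i j : ℝ) * (w i).im := by
    unfold par
    simp [Complex.im_sum]
  rw [e1, e2, Finset.sum_mul]
  constructor
  · refine (Finset.abs_sum_le_sum_abs _ _).trans (Finset.sum_le_sum fun i _ => ?_)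
    rw [abs_mul]
    exact mul_le_mul (hle i) (hw i).1 (abs_nonneg _) ((abs_nonneg _).trans (hle i))
  · refine (Finset.abs_sum_le_sum_abs _ _).trans (Finset.sum_le_sum fun i _ => ?_)
    rw [abs_mul]
    exact mul_le_mul (hle i) (hw i).2 (abs_nonneg _) ((abs_nonneg _).trans (hle i))

private theorem C_Amp_pt (e Y1 δ : ℝ) (he : 0 < e)
    (h2 : δ ≤ e / (2 * ((∑ i, ∑ l, |(b i l : ℝ)|) + 1)))
    (Y : Fin c → ℝ) (hY0 : ∀ j, 0 < Y j) (hY : ∀ j, Y j ≤ δ) (hY1 : ∀ j, Y1 ≤ Y j)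
    (z : Ix d c → ℂ) (hz : DomE δ Y z) : C_AmpPt b x e Y1 z := by
  set Bt : ℝ := ∑ i, ∑ l, |(b i l : ℝ)| with hBt
  have hB0 : 0 ≤ Bt := Finset.sum_nonneg fun i _ => Finset.sum_nonneg fun l _ => abs_nonneg _
  rw [le_div_iff₀ (by positivity)] at h2
  have hd : 2 * δ ≤ e := by
    by_cases h : 0 ≤ δ
    · nlinarith
    · linarith
  have h3 : Bt * (2 * δ) ≤ e := by
    by_cases h : 0 ≤ δ
    · nlinarith
    · have : Bt * (2 * δ) ≤ 0 := mul_nonpos_of_nonneg_of_nonpos hB0 (by linarith)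
      linarith
  have hp := fun j => C_Amp_par (b := b) (x := x) (2 * δ) (fun l => z (Sum.inl l)) hz.1 j
  refine ⟨fun j => (hp j).1.trans h3, fun j => (hp j).2.trans h3, fun j => ?_, fun j => ?_,
    fun j => ?_⟩
  · exact (hz.2 j).1.trans hd
  · rw [(hz.2 j).2, abs_of_pos (hY0 j)]
    have := hY j
    have := hY0 j
    linarith
  · rw [(hz.2 j).2]
    exact hY1 j

/-- The estimates at a twist region. -/
private theorem C_Amp_vert {e Y1 : ℝ} (hm : C_AmpMg F cor x e) {z : Ix d c → ℂ}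
    (hz : C_AmpPt b x e Y1 z) (s : ℝ) (hs0 : 0 ≤ s) (hs : s ≤ e) (i : Fin c) :
    e ≤ ((par b x (fun l => z (Sum.inl l)) (Sum.inl i) - 1 / 2 + s) - z (Sum.inr i)).re ∧
    e ≤ ((par b x (fun l => z (Sum.inl l)) (Sum.inl i) - 1 / 2 + s) + z (Sum.inr i)).re ∧
    (par b x (fun l => z (Sum.inl l)) (Sum.inl i) - 1 / 2 + s).re ≤ 1 / 2 - e ∧
    |(par b x (fun l => z (Sum.inl l)) (Sum.inl i) - 1 / 2 + s).im| ≤ 1 ∧
    |(z (Sum.inr i)).im| ≤ 1 := by
  have a1 := abs_le.1 (hz.s1 (Sum.inl i))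
  have a2 := hz.s2 (Sum.inl i)
  have a3 := abs_le.1 (hz.v1 i)
  have a4 := hz.v2 i
  have a5 := hm.pos
  have a6 := hm.le
  have a7 := hm.t0 i
  have a8 := hm.t1 i
  set P := par b x (fun l => z (Sum.inl l)) (Sum.inl i) with hP
  have e1 : (P - 1 / 2 + s).re = P.re - 1 / 2 + s := by simp
  have e2 : (P - 1 / 2 + s).im = P.im := by simp
  rw [sub_re (P - 1 / 2 + s), add_re (P - 1 / 2 + s), e1, e2]
  refine ⟨by linarith, by linarith, by linarith, by linarith, by linarith⟩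

/-- The estimates at a corner. -/
private theorem C_Amp_corner {e Y1 : ℝ} (hm : C_AmpMg F cor x e) {z : Ix d c → ℂ}
    (hz : C_AmpPt b x e Y1 z) (p : Fin c × Fin 4) (hp : p ∈ Nd F cor) :
    e ≤ (cz 1 (par b x (fun l => z (Sum.inl l)) (Sum.inl p.1)) p.2).re ∧
    (cz 1 (par b x (fun l => z (Sum.inl l)) (Sum.inl p.1)) p.2).re ≤ 1 - e ∧
    e ≤ (par b x (fun l => z (Sum.inl l)) (Sum.inr p)).re ∧
    e ≤ (cz 1 (par b x (fun l => z (Sum.inl l)) (Sum.inl p.1)) p.2 -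
      par b x (fun l => z (Sum.inl l)) (Sum.inr p)).re ∧
    |(cz 1 (par b x (fun l => z (Sum.inl l)) (Sum.inl p.1)) p.2).im| ≤ 1 ∧
    |(par b x (fun l => z (Sum.inl l)) (Sum.inr p)).im| ≤ 1 ∧
    |(cz 1 (par b x (fun l => z (Sum.inl l)) (Sum.inl p.1)) p.2 -
      par b x (fun l => z (Sum.inl l)) (Sum.inr p)).im| ≤ 1 := by
  have a1 := hz.s1 (Sum.inl p.1)
  have a2 := hz.s2 (Sum.inl p.1)
  have b1 := abs_le.1 (hz.s1 (Sum.inr p))
  have b2 := hz.s2 (Sum.inr p)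
  have a5 := hm.pos
  have a6 := hm.le
  obtain ⟨a7, a8⟩ := C_Amp_cz_bd e _ (hm.t0 p.1) (hm.t1 p.1) p.2
  have a9 := hm.s0 p hp
  have a10 := hm.s1 p hp
  set P := par b x (fun l => z (Sum.inl l)) (Sum.inl p.1) with hP
  set Q := par b x (fun l => z (Sum.inl l)) (Sum.inr p) with hQ
  have c1 := C_Amp_cz_abs P.re (x (Sum.inl p.1)) p.2
  have c2 := C_Amp_cz_im P p.2
  rw [← c1] at a1
  rw [← c2] at a2
  have a1' := abs_le.1 a1
  have a2' := abs_le.1 a2
  have b2' := abs_le.1 b2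
  rw [sub_re, sub_im, C_Amp_cz_re]
  refine ⟨by linarith, by linarith, by linarith, by linarith, by linarith, by linarith, ?_⟩
  rw [abs_le]
  constructor <;> linarith

/-! ### The potential -/

private theorem C_Amp_pot (a : Fin c → ℤ) (z : Ix d c → ℂ) :
    PhiT F cor b x z + Qr (fun j => (a j : ℝ) / 2) z =
      ∑ i, Pot ((a i : ℝ) / 2) (par b x (fun l => z (Sum.inl l)) (Sum.inl i) - 1 / 2)
        (z (Sum.inr i)) +
      ∑ p ∈ Nd F cor, cpo (cz 1 (par b x (fun l => z (Sum.inl l)) (Sum.inl p.1)) p.2)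
        (par b x (fun l => z (Sum.inl l)) (Sum.inr p)) := by
  unfold PhiT PotX Qr Pot
  rw [add_right_comm, ← Finset.sum_add_distrib]
  congr 1
  refine Finset.sum_congr rfl fun i _ => ?_
  rw [sub_add_cancel]
  ring

private theorem C_Amp_Pot_sub (r : ℝ) (M : ℕ) (s y v : ℂ) :
    (M : ℂ) * (Pot r (y + s / M) v - Pot r y v) =
      2 * ((M : ℂ) * (ff (y + 1 / 2 + s / M) - ff (y + 1 / 2))) -
        (M : ℂ) * (ff (y - v + s / M) - ff (y - v)) -
        (M : ℂ) * (ff (y + v + s / M) - ff (y + v)) := by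
  unfold Pot
  rw [show y + s / M + 1 / 2 = y + 1 / 2 + s / M by ring,
    show y + s / M - v = y - v + s / M by ring, show y + s / M + v = y + v + s / M by ring]
  ring

private theorem C_Amp_rpow (M n : ℕ) (hM : 0 < M) :
    (M : ℝ) ^ (-(n : ℝ) / 2) = (1 / Real.sqrt M) ^ n := by
  have h0 : (0 : ℝ) < M := by exact_mod_cast hM
  have h1 : (1 / Real.sqrt M) = (M : ℝ) ^ (-(1 / 2) : ℝ) := by
    rw [Real.rpow_neg h0.le, Real.sqrt_eq_rpow, one_div]
  rw [h1, ← Real.rpow_natCast, ← Real.rpow_mul h0.le]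
  congr 1
  ring

/-- The bound of the factor of a twist region, with the potential at the unshifted point. -/
private theorem C_Amp_VXb (e Y1 : ℝ) (he : 0 < e) (he1 : e ≤ 1 / 16) (hY1 : 0 < Y1) :
    ∃ C : ℝ, 0 < C ∧ ∃ M0 : ℕ,
    ∀ (r : ℝ) (M : ℕ), M0 ≤ M → ∀ (s : ℝ) (y v : ℂ), 0 ≤ s → s ≤ 1 →
    2 * e ≤ (y - v).re → 2 * e ≤ (y + v).re → y.re ≤ 1 / 2 - 2 * e →
    |y.im| ≤ 1 → |v.im| ≤ 1 → Y1 ≤ v.im →
    ‖VX r M (y + s / M) v‖ ≤ C * Real.exp (M * (Pot r y v).re) := by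
  obtain ⟨C1, hC1, M1, h1⟩ := VX_bound e 1 Y1 he hY1
  obtain ⟨C3, hC3, M3, h3⟩ := shift_ff_bound e 2 he
  obtain ⟨M2, hM2⟩ := exists_nat_ge (1 / e)
  refine ⟨C1 * Real.exp (4 * C3), by positivity, M1 + M2 + M3 + 1,
    fun r M hM s y v hs0 hs1 hy1 hy2 hy3 hy4 hv1 hv2 => ?_⟩
  have hM0 : (0 : ℝ) < M := by exact_mod_cast (by omega : 0 < M)
  have hMM2 : (M2 : ℝ) ≤ M := by exact_mod_cast (by omega : M2 ≤ M)
  have hMe : s / M ≤ e := by
    rw [div_le_iff₀ hM0]
    have h4 : 1 / e ≤ M := hM2.trans hMM2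
    rw [div_le_iff₀ he] at h4
    linarith
  have hsM : 0 ≤ s / M := div_nonneg hs0 hM0.le
  have ecast : (s : ℂ) / (M : ℂ) = ((s / M : ℝ) : ℂ) := by push_cast; rfl
  have hre : ((s : ℂ) / (M : ℂ)).re = s / M := by rw [ecast, ofReal_re]
  have him : ((s : ℂ) / (M : ℂ)).im = 0 := by rw [ecast, ofReal_im]
  rw [sub_re] at hy1
  rw [add_re] at hy2
  have hV := h1 r M (by omega) (y + s / M) v (by rw [sub_re, add_re, hre]; linarith)
    (by rw [add_re, add_re, hre]; linarith) (by rw [add_re, hre]; linarith)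
    (by rw [add_im, him, add_zero]; exact hy4) hv1 hv2
  refine hV.trans ?_
  rw [mul_assoc, ← Real.exp_add]
  apply mul_le_mul_of_nonneg_left _ hC1.le
  apply Real.exp_le_exp.2
  have hy4' := abs_le.1 hy4
  have hv1' := abs_le.1 hv1
  have hns : ‖(s : ℂ)‖ ≤ 2 := by
    rw [norm_real, Real.norm_eq_abs, abs_of_nonneg hs0]
    linarith
  have half : (1 / 2 : ℂ).re = 1 / 2 := by norm_num
  have half' : (1 / 2 : ℂ).im = 0 := by norm_num
  have k1 := h3 M (by omega) (s : ℂ) (y + 1 / 2) hns (by rw [add_re, half]; linarith)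
    (by rw [add_re, half]; linarith) (by rw [add_im, half', add_zero]; linarith)
  have k2 := h3 M (by omega) (s : ℂ) (y - v) hns (by rw [sub_re]; linarith)
    (by rw [sub_re]; linarith) (by rw [sub_im, abs_le]; constructor <;> linarith)
  have k3 := h3 M (by omega) (s : ℂ) (y + v) hns (by rw [add_re]; linarith)
    (by rw [add_re]; linarith) (by rw [add_im, abs_le]; constructor <;> linarith)
  have k4 : ‖(M : ℂ) * (Pot r (y + s / M) v - Pot r y v)‖ ≤ 4 * C3 := by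
    rw [C_Amp_Pot_sub]
    refine (norm_sub_le _ _).trans ?_
    have l1 := norm_sub_le (2 * ((M : ℂ) * (ff (y + 1 / 2 + s / M) - ff (y + 1 / 2))))
      ((M : ℂ) * (ff (y - v + s / M) - ff (y - v)))
    rw [norm_mul 2, norm_mul, norm_mul, Complex.norm_natCast, Complex.norm_ofNat] at l1
    rw [norm_mul (M : ℂ) (ff (y + v + s / M) - ff (y + v)), Complex.norm_natCast]
    linarith
  have k5 : (M : ℝ) * (Pot r (y + s / M) v).re - M * (Pot r y v).re ≤ 4 * C3 := by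
    refine le_trans ?_ k4
    have l2 := Complex.re_le_norm ((M : ℂ) * (Pot r (y + s / M) v - Pot r y v))
    have l3 : ((M : ℂ) * (Pot r (y + s / M) v - Pot r y v)).re =
        M * (Pot r (y + s / M) v).re - M * (Pot r y v).re := by
      rw [← Complex.ofReal_natCast, Complex.re_ofReal_mul, sub_re]
      ring
    rw [l3] at l2
    exact l2
  linarith

/-- The limit of the factor of a twist region, with the potential at the unshifted point. -/
private theorem C_Amp_VXl (r s : ℝ) (y v : ℂ) (h : DomV y v) (yM vM : ℕ → ℂ)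
    (hy : Tendsto yM atTop (𝓝 y)) (hv : Tendsto vM atTop (𝓝 v)) :
    Tendsto (fun M : ℕ => (-1) ^ (M + 1) * VX r M (yM M + s / M) (vM M) *
      exp (-(M * Pot r (yM M) (vM M)))) atTop
      (𝓝 (2 * sin (2 * Real.pi * v) * exp (-hh (y + 1 / 2)) *
        exp (2 * (s * hh (y + 1 / 2)) - s * hh (y - v) - s * hh (y + v)))) := by
  obtain ⟨a1, a2, a3, a4⟩ := C_Amp_re y v h
  have hs : Tendsto (fun M : ℕ => (s : ℂ) / (M : ℂ)) atTop (𝓝 0) := by
    have h2 : Tendsto (fun M : ℕ => ((M : ℝ) : ℂ)⁻¹) atTop (𝓝 0) := by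
      have := (continuous_ofReal.tendsto 0).comp (tendsto_inv_atTop_nhds_zero_nat (𝕜 := ℝ))
      simpa [Function.comp_def] using this
    have h3 := h2.const_mul (s : ℂ)
    simpa [div_eq_mul_inv] using h3
  have hys : Tendsto (fun M : ℕ => yM M + s / M) atTop (𝓝 y) := by
    have := hy.add hs
    rwa [add_zero] at this
  have half : (1 / 2 : ℂ).re = 1 / 2 := by norm_num
  have h1 := VX_lim r y v h _ vM hys hv
  have k1 := shift_ff s (y + 1 / 2) (by
      rw [add_re, half]; rw [sub_re] at a1; rw [add_re] at a3; linarith)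
    (by rw [add_re, half]; linarith [h.2.2.1]) (fun M => yM M + 1 / 2) (hy.add_const _)
  have k2 := shift_ff s (y - v) a1 a2 (fun M => yM M - vM M) (hy.sub hv)
  have k3 := shift_ff s (y + v) a3 a4 (fun M => yM M + vM M) (hy.add hv)
  have k4 := (((k1.const_mul 2).sub k2).sub k3)
  have k5 := h1.mul ((continuous_exp.tendsto _).comp k4)
  refine k5.congr fun M => ?_
  simp only [Function.comp_apply]
  rw [← C_Amp_Pot_sub r M s (yM M) (vM M), mul_assoc, mul_assoc, ← Complex.exp_add, mul_assoc]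
  congr 3
  ring

private theorem C_Amp_sin (v : ℂ) (h : 0 < v.im) : sin (2 * Real.pi * v) ≠ 0 := by
  intro h1
  rw [Complex.sin_eq_zero_iff] at h1
  obtain ⟨k, hk⟩ := h1
  have h2 := congrArg Complex.im hk
  have h3 : (2 * (Real.pi : ℂ) * v).im = 2 * Real.pi * v.im := by
    simp [Complex.mul_im]
  have h4 : ((k : ℂ) * Real.pi).im = 0 := by simp [Complex.mul_im]
  rw [h3, h4] at h2
  have := Real.pi_pos
  have : 0 < 2 * Real.pi * v.im := by positivity
  linarith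

private theorem C_Amp_par_diff (j : Vr c) (z : Ix d c → ℂ) :
    DifferentiableAt ℂ (fun z : Ix d c → ℂ => par b x (fun l => z (Sum.inl l)) j) z := by
  unfold par
  fun_prop

private theorem C_Amp_prod_diff {ι E : Type*} [NormedAddCommGroup E] [NormedSpace ℂ E]
    (s : Finset ι) (f : ι → E → ℂ) (z : E) (h : ∀ i ∈ s, DifferentiableAt ℂ (f i) z) :
    DifferentiableAt ℂ (fun z => ∏ i ∈ s, f i z) z := by
  classical
  induction s using Finset.induction_on with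
  | empty => simp
  | insert i s hi ih =>
    simp only [Finset.prod_insert hi]
    exact (h i (Finset.mem_insert_self i s)).mul
      (ih fun j hj => h j (Finset.mem_insert_of_mem hj))

private theorem C_Amp_cz_diff (f : (Ix d c → ℂ) → ℂ) (k : Fin 4) (z : Ix d c → ℂ)
    (hf : DifferentiableAt ℂ f z) : DifferentiableAt ℂ (fun z => cz 1 (f z) k) z := by
  fin_cases k <;> simp [cz] <;> fun_prop

private theorem C_Amp_dv (r : ℝ) (M : ℕ) (hM : 1 ≤ M) (s : ℂ) (i : Fin c) (z : Ix d c → ℂ)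
    (hD : DomV (par b x (fun l => z (Sum.inl l)) (Sum.inl i) - 1 / 2 + s) (z (Sum.inr i))) :
    DifferentiableAt ℂ (fun z : Ix d c → ℂ =>
      VX r M (par b x (fun l => z (Sum.inl l)) (Sum.inl i) - 1 / 2 + s) (z (Sum.inr i))) z := by
  have hd := C_Amp_VX_diff r M hM _ _ hD
  have hg : DifferentiableAt ℂ (fun z : Ix d c → ℂ =>
      ((par b x (fun l => z (Sum.inl l)) (Sum.inl i) - 1 / 2 + s, z (Sum.inr i)) : ℂ × ℂ)) z :=
    (((C_Amp_par_diff (Sum.inl i) z).sub_const _).add_const _).prodMk (by fun_prop)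
  exact DifferentiableAt.comp (g := fun w : ℂ × ℂ => VX r M w.1 w.2)
    (f := fun z : Ix d c → ℂ =>
      ((par b x (fun l => z (Sum.inl l)) (Sum.inl i) - 1 / 2 + s, z (Sum.inr i)) : ℂ × ℂ)) z hd hg

private theorem C_Amp_dc (M : ℕ) (b1 b2 : ℂ) (q : Fin c × Fin 4) (z : Ix d c → ℂ)
    (hd : DifferentiableAt ℂ (fun w : ℂ × ℂ => CX M b1 b2 w.1 w.2)
      (cz 1 (par b x (fun l => z (Sum.inl l)) (Sum.inl q.1)) q.2,
        par b x (fun l => z (Sum.inl l)) (Sum.inr q))) :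
    DifferentiableAt ℂ (fun z : Ix d c → ℂ =>
      CX M b1 b2 (cz 1 (par b x (fun l => z (Sum.inl l)) (Sum.inl q.1)) q.2)
        (par b x (fun l => z (Sum.inl l)) (Sum.inr q))) z := by
  have hg : DifferentiableAt ℂ (fun z : Ix d c → ℂ =>
      ((cz 1 (par b x (fun l => z (Sum.inl l)) (Sum.inl q.1)) q.2,
        par b x (fun l => z (Sum.inl l)) (Sum.inr q)) : ℂ × ℂ)) z :=
    (C_Amp_cz_diff _ _ _ (C_Amp_par_diff _ z)).prodMk (C_Amp_par_diff _ z)
  exact DifferentiableAt.comp (g := fun w : ℂ × ℂ => CX M b1 b2 w.1 w.2)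
    (f := fun z : Ix d c → ℂ =>
      ((cz 1 (par b x (fun l => z (Sum.inl l)) (Sum.inl q.1)) q.2,
        par b x (fun l => z (Sum.inl l)) (Sum.inr q)) : ℂ × ℂ)) z hd hg

private theorem C_Amp_par_lim (j : Vr c) (zM : ℕ → Ix d c → ℂ) (p : Ix d c → ℂ)
    (hz : Tendsto zM atTop (𝓝 p)) :
    Tendsto (fun M => par b x (fun l => zM M (Sum.inl l)) j) atTop
      (𝓝 (par b x (fun l => p (Sum.inl l)) j)) :=
  (C_Amp_par_diff (b := b) (x := x) j p).continuousAt.tendsto.comp hz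

private theorem C_Amp_cz_lim (f : ℕ → ℂ) (k : Fin 4) (a : ℂ) (hf : Tendsto f atTop (𝓝 a)) :
    Tendsto (fun M => cz 1 (f M) k) atTop (𝓝 (cz 1 a k)) := by
  have h1 : Continuous (fun w : ℂ => cz 1 w k) := by
    fin_cases k <;> simp [cz] <;> fun_prop
  exact (h1.tendsto a).comp hf

private theorem C_Amp_alg (u V EV sM X EX rM : ℂ) (e1 : rM * sM = 1) (e2 : u * u = 1) :
    (u * V * EV * (sM * X * EX)) * (rM * u) = V * X * (EV * EX) := by
  linear_combination (V * X * EV * EX * rM * sM) * e2 + (V * X * EV * EX) * e1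

/-! ### The theorem -/

theorem amp_ok (h : IsInt F cor x) : ∃ δ0 : ℝ, 0 < δ0 ∧ ∀ δ : ℝ, 0 < δ → δ ≤ δ0 →
    ∀ (a : Fin c → ℤ) (p : Ix d c → ℂ), (∀ i, ‖p i‖ ≤ δ) → (∀ j, 0 < (p (Sum.inr j)).im) →
    ∃ A : ℂ, IsAmp (PhiT F cor b x) (fun j => (a j : ℝ) / 2) δ p (GX F cor b x a)
      (-((Nd F cor).card : ℝ) / 2) (fun M => ((-1) ^ (M + 1)) ^ c) A := by
  obtain ⟨e, hm⟩ := C_Amp_margin h
  have he := hm.pos
  have he1 := hm.le
  refine ⟨e / (2 * ((∑ i, ∑ l, |(b i l : ℝ)|) + 1)), ?_, fun δ hδ hδ0 a p hp hpi => ?_⟩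
  · have : 0 ≤ ∑ i, ∑ l, |(b i l : ℝ)| :=
      Finset.sum_nonneg fun i _ => Finset.sum_nonneg fun l _ => abs_nonneg _
    positivity
  obtain ⟨Y1, hY1, hY1'⟩ := C_Amp_minpos (fun j => (p (Sum.inr j)).im) hpi
  have hYd : ∀ j, (p (Sum.inr j)).im ≤ δ := fun j =>
    (le_abs_self _).trans ((Complex.abs_im_le_norm _).trans (hp _))
  have hpt : ∀ z, DomE δ (fun j => (p (Sum.inr j)).im) z → C_AmpPt b x e Y1 z := fun z hz =>
    C_Amp_pt e Y1 δ he hδ0 (fun j => (p (Sum.inr j)).im) hpi hYd hY1' z hz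
  have hx1 : ∀ i, 0 ≤ 1 - x (Sum.inl i) ∧ 1 - x (Sum.inl i) ≤ 1 := by
    intro i
    have := hm.t0 i
    have := hm.t1 i
    constructor <;> linarith
  -- the unshifted point of a twist region
  have hv0 : ∀ z, C_AmpPt b x e Y1 z → ∀ i,
      2 * e ≤ (par b x (fun l => z (Sum.inl l)) (Sum.inl i) - 1 / 2 - z (Sum.inr i)).re ∧
      2 * e ≤ (par b x (fun l => z (Sum.inl l)) (Sum.inl i) - 1 / 2 + z (Sum.inr i)).re ∧
      (par b x (fun l => z (Sum.inl l)) (Sum.inl i) - 1 / 2).re ≤ 1 / 2 - 2 * e ∧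
      |(par b x (fun l => z (Sum.inl l)) (Sum.inl i) - 1 / 2).im| ≤ 1 ∧
      |(z (Sum.inr i)).im| ≤ 1 := by
    intro z hz i
    have a1 := abs_le.1 (hz.s1 (Sum.inl i))
    have a2 := hz.s2 (Sum.inl i)
    have a3 := abs_le.1 (hz.v1 i)
    have a4 := hz.v2 i
    have a7 := hm.t0 i
    have a8 := hm.t1 i
    set P := par b x (fun l => z (Sum.inl l)) (Sum.inl i) with hP
    have e1 : (P - 1 / 2).re = P.re - 1 / 2 := by simp
    have e2 : (P - 1 / 2).im = P.im := by simp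
    rw [sub_re (P - 1 / 2), add_re (P - 1 / 2), e1, e2]
    refine ⟨by linarith, by linarith, by linarith, by linarith, by linarith⟩
  -- constants
  obtain ⟨C1, hC1, M1, hVX⟩ := C_Amp_VXb e Y1 he he1 hY1
  set Bc : ℝ := ∑ q ∈ Nd F cor, (‖(-((cz 1 (x (Sum.inl q.1)) q.2 : ℝ) : ℂ))‖ +
    ‖(-((x (Sum.inr q) : ℝ) : ℂ))‖) + 1 with hBc
  have hBc0 : ∀ q ∈ Nd F cor, ‖(-((cz 1 (x (Sum.inl q.1)) q.2 : ℝ) : ℂ))‖ +
      ‖(-((x (Sum.inr q) : ℝ) : ℂ))‖ ≤ Bc := by
    intro q hq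
    have h1 := Finset.single_le_sum (f := fun q : Fin c × Fin 4 =>
      ‖(-((cz 1 (x (Sum.inl q.1)) q.2 : ℝ) : ℂ))‖ + ‖(-((x (Sum.inr q) : ℝ) : ℂ))‖)
      (fun q _ => by positivity) hq
    linarith
  have hBc1 : 1 ≤ Bc := by
    have : 0 ≤ ∑ q ∈ Nd F cor, (‖(-((cz 1 (x (Sum.inl q.1)) q.2 : ℝ) : ℂ))‖ +
      ‖(-((x (Sum.inr q) : ℝ) : ℂ))‖) := Finset.sum_nonneg fun q _ => by positivity
    linarith
  obtain ⟨C2, hC2, M2, hCX⟩ := CX_bound e Bc he
  obtain ⟨M3, hCd⟩ := CX_differentiableAt e Bc he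
  obtain ⟨M4, hM4⟩ := exists_nat_ge (1 / e)
  have hpp : DomE δ (fun j => (p (Sum.inr j)).im) p := by
    refine ⟨fun i => ⟨?_, ?_⟩, fun j => ⟨?_, rfl⟩⟩
    · have := (Complex.abs_re_le_norm _).trans (hp (Sum.inl i))
      linarith
    · have := (Complex.abs_im_le_norm _).trans (hp (Sum.inl i))
      linarith
    · have := (Complex.abs_re_le_norm _).trans (hp (Sum.inr j))
      linarith
  have hptp := hpt p hpp
  have hDomV : ∀ i, DomV (par b x (fun l => p (Sum.inl l)) (Sum.inl i) - 1 / 2)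
      (p (Sum.inr i)) := by
    intro i
    obtain ⟨a1, a2, a3, a4, a5⟩ := hv0 p hptp i
    exact ⟨by linarith, by linarith, by linarith, hpi i⟩
  refine ⟨(∏ i, (2 * sin (2 * Real.pi * p (Sum.inr i)) *
      exp (-hh (par b x (fun l => p (Sum.inl l)) (Sum.inl i) - 1 / 2 + 1 / 2)) *
      exp (2 * (((1 - x (Sum.inl i) : ℝ) : ℂ) *
        hh (par b x (fun l => p (Sum.inl l)) (Sum.inl i) - 1 / 2 + 1 / 2)) -
        ((1 - x (Sum.inl i) : ℝ) : ℂ) *
          hh (par b x (fun l => p (Sum.inl l)) (Sum.inl i) - 1 / 2 - p (Sum.inr i)) -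
        ((1 - x (Sum.inl i) : ℝ) : ℂ) *
          hh (par b x (fun l => p (Sum.inl l)) (Sum.inl i) - 1 / 2 + p (Sum.inr i))))) *
    ∏ q ∈ Nd F cor, exp ((-((cz 1 (x (Sum.inl q.1)) q.2 : ℝ) : ℂ) + 1 / 2) *
        hh (cz 1 (par b x (fun l => p (Sum.inl l)) (Sum.inl q.1)) q.2) -
      (-((x (Sum.inr q) : ℝ) : ℂ) + 1 / 2) * hh (par b x (fun l => p (Sum.inl l)) (Sum.inr q)) -
      (-((cz 1 (x (Sum.inl q.1)) q.2 : ℝ) : ℂ) - (-((x (Sum.inr q) : ℝ) : ℂ)) + 1 / 2) *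
        hh (cz 1 (par b x (fun l => p (Sum.inl l)) (Sum.inl q.1)) q.2 -
          par b x (fun l => p (Sum.inl l)) (Sum.inr q))), ?_⟩
  refine ⟨?_, ?_, ?_, ?_, ?_⟩
  · -- differentiability
    filter_upwards [eventually_ge_atTop (M3 + M4 + 1)] with M hM z hz
    have hM0 : (0 : ℝ) < M := by exact_mod_cast (by omega : 0 < M)
    have hMM4 : (M4 : ℝ) ≤ M := by exact_mod_cast (by omega : M4 ≤ M)
    have hzp := hpt z hz
    unfold GX
    apply DifferentiableAt.mul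
    · apply C_Amp_prod_diff
      intro i _
      obtain ⟨hx0, hx2⟩ := hx1 i
      have hs1 : (1 - x (Sum.inl i)) / M ≤ e := by
        rw [div_le_iff₀ hM0]
        have h4 : 1 / e ≤ M := hM4.trans hMM4
        rw [div_le_iff₀ he] at h4
        linarith
      have hs0 : 0 ≤ (1 - x (Sum.inl i)) / M := div_nonneg hx0 hM0.le
      obtain ⟨b1, b2, b3, b4, b5⟩ := C_Amp_vert hm hzp ((1 - x (Sum.inl i)) / M) hs0 hs1 i
      have ecast : (((1 - x (Sum.inl i)) / M : ℝ) : ℂ) = (1 - x (Sum.inl i)) / M := by push_cast; rfl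
      rw [ecast] at b1 b2 b3 b4
      have hD : DomV (par b x (fun l => z (Sum.inl l)) (Sum.inl i) - 1 / 2 +
          (1 - x (Sum.inl i)) / M) (z (Sum.inr i)) :=
        ⟨by linarith, by linarith, by linarith, by rw [(hz.2 i).2]; exact hpi i⟩
      exact C_Amp_dv ((a i : ℝ) / 2) M (by omega) _ i z hD
    · apply C_Amp_prod_diff
      intro q hq
      obtain ⟨b1, b2, b3, b4, b5, b6, b7⟩ := C_Amp_corner hm hzp q hq
      have hb := hBc0 q hq
      have n1 := norm_nonneg (-((cz 1 (x (Sum.inl q.1)) q.2 : ℝ) : ℂ))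
      have n2 := norm_nonneg (-((x (Sum.inr q) : ℝ) : ℂ))
      have n3 := norm_sub_le (-((cz 1 (x (Sum.inl q.1)) q.2 : ℝ) : ℂ)) (-((x (Sum.inr q) : ℝ) : ℂ))
      exact C_Amp_dc M _ _ q z (hCd M (by omega) (-((cz 1 (x (Sum.inl q.1)) q.2 : ℝ) : ℂ))
        (-((x (Sum.inr q) : ℝ) : ℂ)) _ _ (by linarith) (by linarith) (by linarith) b1 b2 b3 b4)
  · -- the bound
    refine ⟨C1 ^ c * C2 ^ (Nd F cor).card, ?_⟩
    filter_upwards [eventually_ge_atTop (M1 + M2 + 1)] with M hM z hz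
    have hM0 : (0 : ℝ) < M := by exact_mod_cast (by omega : 0 < M)
    have hzp := hpt z hz
    rw [C_Amp_pot, C_Amp_rpow M _ (by omega)]
    unfold GX
    rw [norm_mul, _root_.norm_prod, _root_.norm_prod]
    have g1 : ∏ i, ‖VX ((a i : ℝ) / 2) M (par b x (fun l => z (Sum.inl l)) (Sum.inl i) - 1 / 2 +
        (1 - x (Sum.inl i)) / M) (z (Sum.inr i))‖ ≤ ∏ i, (C1 * Real.exp (M * (Pot ((a i : ℝ) / 2)
          (par b x (fun l => z (Sum.inl l)) (Sum.inl i) - 1 / 2) (z (Sum.inr i))).re)) := by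
      refine Finset.prod_le_prod (fun _ _ => norm_nonneg _) fun i _ => ?_
      obtain ⟨b1, b2, b3, b4, b5⟩ := hv0 z hzp i
      have := hVX ((a i : ℝ) / 2) M (by omega) (1 - x (Sum.inl i)) _ _ (hx1 i).1 (hx1 i).2
        b1 b2 b3 b4 b5 (hzp.v3 i)
      rw [show (((1 - x (Sum.inl i) : ℝ) : ℂ)) = 1 - (x (Sum.inl i) : ℂ) by push_cast; rfl] at this
      exact this
    have g2 : ∏ q ∈ Nd F cor, ‖CX M (-((cz 1 (x (Sum.inl q.1)) q.2 : ℝ) : ℂ))
        (-((x (Sum.inr q) : ℝ) : ℂ)) (cz 1 (par b x (fun l => z (Sum.inl l)) (Sum.inl q.1)) q.2)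
        (par b x (fun l => z (Sum.inl l)) (Sum.inr q))‖ ≤
        ∏ q ∈ Nd F cor, (C2 / Real.sqrt M * Real.exp (M * (cpo
          (cz 1 (par b x (fun l => z (Sum.inl l)) (Sum.inl q.1)) q.2)
          (par b x (fun l => z (Sum.inl l)) (Sum.inr q))).re)) := by
      refine Finset.prod_le_prod (fun _ _ => norm_nonneg _) fun q hq => ?_
      obtain ⟨b1, b2, b3, b4, b5, b6, b7⟩ := C_Amp_corner hm hzp q hq
      have hb := hBc0 q hq
      have n1 := norm_nonneg (-((cz 1 (x (Sum.inl q.1)) q.2 : ℝ) : ℂ))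
      have n2 := norm_nonneg (-((x (Sum.inr q) : ℝ) : ℂ))
      have n3 := norm_sub_le (-((cz 1 (x (Sum.inl q.1)) q.2 : ℝ) : ℂ)) (-((x (Sum.inr q) : ℝ) : ℂ))
      exact hCX M (by omega) _ _ _ _ (by linarith) (by linarith) (by linarith) b1 b2 b3 b4
        (b5.trans hBc1) (b6.trans hBc1) (b7.trans hBc1)
    have g3 := mul_le_mul g1 g2 (Finset.prod_nonneg fun _ _ => norm_nonneg _)
      (Finset.prod_nonneg fun _ _ => by positivity)
    refine g3.trans (le_of_eq ?_)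
    rw [Finset.prod_mul_distrib, Finset.prod_mul_distrib, Finset.prod_const, Finset.prod_const,
      ← Real.exp_sum, ← Real.exp_sum, Finset.card_univ, Fintype.card_fin, add_re, Complex.re_sum,
      Complex.re_sum, mul_add, Finset.mul_sum, Finset.mul_sum, Real.exp_add, div_eq_mul_inv C2,
      mul_pow, one_div]
    ring
  · -- the unit
    intro M
    simp
  · -- the limit
    intro ξ
    set zM : ℕ → Ix d c → ℂ := fun M => p + cpx ((1 / Real.sqrt M) • ξ) with hzM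
    have hz : Tendsto zM atTop (𝓝 p) := by
      rw [tendsto_pi_nhds]
      intro i
      have h1 : Tendsto (fun M : ℕ => ((1 / Real.sqrt M * ξ i : ℝ) : ℂ)) atTop (𝓝 0) := by
        have h2 : Tendsto (fun M : ℕ => 1 / Real.sqrt M * ξ i) atTop (𝓝 (0 * ξ i)) := by
          apply Tendsto.mul_const
          have h3 : Tendsto (fun M : ℕ => Real.sqrt M) atTop atTop :=
            Real.tendsto_sqrt_atTop.comp tendsto_natCast_atTop_atTop
          simp only [one_div]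
          exact h3.inv_tendsto_atTop
        rw [zero_mul] at h2
        have := (continuous_ofReal.tendsto 0).comp h2
        simpa only [ofReal_zero, Function.comp_def] using this
      have h2 := h1.const_add (p i)
      rw [add_zero] at h2
      exact h2
    have L1 := tendsto_finsetProd (Finset.univ : Finset (Fin c)) (fun i _ =>
      C_Amp_VXl ((a i : ℝ) / 2) (1 - x (Sum.inl i)) _ _ (hDomV i)
        (fun M => par b x (fun l => zM M (Sum.inl l)) (Sum.inl i) - 1 / 2)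
        (fun M => zM M (Sum.inr i)) ((C_Amp_par_lim (Sum.inl i) zM p hz).sub_const _)
        ((tendsto_pi_nhds.1 hz) (Sum.inr i)))
    have L2 := tendsto_finsetProd (Nd F cor) (fun q hq =>
      CX_lim (-((cz 1 (x (Sum.inl q.1)) q.2 : ℝ) : ℂ)) (-((x (Sum.inr q) : ℝ) : ℂ))
        (cz 1 (par b x (fun l => p (Sum.inl l)) (Sum.inl q.1)) q.2)
        (par b x (fun l => p (Sum.inl l)) (Sum.inr q))
        (by linarith [(C_Amp_corner hm hptp q hq).2.2.1])
        (by linarith [(C_Amp_corner hm hptp q hq).2.2.2.1])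
        (by linarith [(C_Amp_corner hm hptp q hq).2.1])
        (fun _ => -((cz 1 (x (Sum.inl q.1)) q.2 : ℝ) : ℂ)) (fun _ => -((x (Sum.inr q) : ℝ) : ℂ))
        (fun M => cz 1 (par b x (fun l => zM M (Sum.inl l)) (Sum.inl q.1)) q.2)
        (fun M => par b x (fun l => zM M (Sum.inl l)) (Sum.inr q))
        tendsto_const_nhds tendsto_const_nhds
        (C_Amp_cz_lim _ _ _ (C_Amp_par_lim (Sum.inl q.1) zM p hz))
        (C_Amp_par_lim (Sum.inr q) zM p hz))
    refine (L1.mul L2).congr' ?_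
    filter_upwards [eventually_gt_atTop 0] with M hM
    have hM0 : (0 : ℝ) < M := by exact_mod_cast hM
    have hsq : (Real.sqrt M : ℂ) ≠ 0 := by
      have := (Real.sqrt_pos.2 hM0).ne'
      exact_mod_cast this
    rw [C_Amp_pot, C_Amp_rpow M _ hM]
    unfold GX
    simp only [Finset.prod_mul_distrib, Finset.prod_const, Finset.card_univ, Fintype.card_fin,
      ← Complex.exp_sum, Finset.sum_neg_distrib, ← Finset.mul_sum]
    rw [mul_add, neg_add, Complex.exp_add, eq_div_iff]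
    · have e1 : (((1 / Real.sqrt M) ^ (Nd F cor).card : ℝ) : ℂ) * (Real.sqrt M : ℂ) ^ (Nd F cor).card = 1 := by
        push_cast
        rw [← mul_pow, one_div, inv_mul_cancel₀ hsq, one_pow]
      have e2 : (((-1 : ℂ) ^ (M + 1)) ^ c) * (((-1 : ℂ) ^ (M + 1)) ^ c) = 1 := by
        rw [← mul_pow, ← mul_pow]
        simp
      have e3 : ∀ i, (((1 - x (Sum.inl i) : ℝ) : ℂ)) / (M : ℂ) = (1 - (x (Sum.inl i) : ℂ)) / M := by
        intro i
        push_cast
        rfl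
      simp only [e3]
      exact C_Amp_alg _ _ _ _ _ _ _ e1 e2
    · apply mul_ne_zero
      · have := (pow_pos (one_div_pos.2 (Real.sqrt_pos.2 hM0)) (Nd F cor).card).ne'
        exact_mod_cast this
      · apply pow_ne_zero
        apply pow_ne_zero
        norm_num
  · -- the limit is not zero
    apply mul_ne_zero
    · apply Finset.prod_ne_zero_iff.2
      intro i _
      exact mul_ne_zero (mul_ne_zero (mul_ne_zero two_ne_zero (C_Amp_sin _ (hpi i)))
        (exp_ne_zero _)) (exp_ne_zero _)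
    · exact Finset.prod_ne_zero_iff.2 fun q _ => exp_ne_zero _

end Pool.Agent.H63.CLK
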