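import Pool.Agent.H63.CLK.C_Poly
import Pool.Agent.H63.CLK.B_Eta
import Pool.Agent.H63.VC7.RootLim

/-!
# Bounds of the terms of the state sum

`eta_bound` (B_Eta), `corner_growth` (B_CX), `Uf_mod` (C_Fr): `Xp` differs from `(t / M, s / M)` by at
most `1 / M`, and `csz / M` differs from `cz 1 (τ)` by at most `1 / M`; `exp (C (1 + log M))` is at most
a constant times a power of `M`.
-/

set_option autoImplicit false

namespace Pool.Agent.H63.CLK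

open Pool.Agent.H63.VC hiding ext
open Pool.Agent.H63.VC3 Pool.Agent.H63.VC4 Pool.Agent.H63.VC7 Complex Filter Topology
open scoped BigOperators

variable {c : ℕ} {F : Finset ℕ} {cor : Fin c → Fin 4 → ℕ} {x : Vr c → ℝ}

private theorem C_Naive_brf (N k : ℕ) :
    Pool.Agent.H63.VC10.brf (qz N) k = I ^ k * ((S (N + 1) k : ℝ) : ℂ) := by
  induction k with
  | zero => simp [Pool.Agent.H63.VC10.brf, S]
  | succ k ih =>
    have h1 : Pool.Agent.H63.VC10.brf (qz N) (k + 1) =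
        Pool.Agent.H63.VC10.brf (qz N) k * br (qz N) ((k : ℤ) + 1) := by
      simp [Pool.Agent.H63.VC10.brf, Finset.prod_range_succ]
    have h2 : br (qz N) ((k : ℤ) + 1) = I * (sg (N + 1) (k + 1) : ℝ) := RootLim_br1 N k
    rw [h1, ih, h2, S_succ, pow_succ]
    push_cast
    ring

/-- The corner factor at the root of unity. -/
theorem qbin_qz (N n s : ℕ) (hn : n ≤ N) (hs : s ≤ n) :
    qbin (qz N) n s = ((S (N + 1) n / (S (N + 1) s * S (N + 1) (n - s)) : ℝ) : ℂ) := by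
  unfold qbin
  rw [C_Naive_brf, C_Naive_brf, C_Naive_brf]
  have h1 : (I : ℂ) ^ n = I ^ s * I ^ (n - s) := by
    rw [← pow_add]
    congr 1
    omega
  have h2 : (I : ℂ) ^ s * I ^ (n - s) ≠ 0 :=
    mul_ne_zero (pow_ne_zero _ Complex.I_ne_zero) (pow_ne_zero _ Complex.I_ne_zero)
  have h3 : ((S (N + 1) s : ℝ) : ℂ) ≠ 0 := by
    exact_mod_cast (S_pos (M := N + 1) (k := s) (by omega)).ne'
  have h4 : ((S (N + 1) (n - s) : ℝ) : ℂ) ≠ 0 := by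
    exact_mod_cast (S_pos (M := N + 1) (k := n - s) (by omega)).ne'
  rw [h1]
  push_cast
  rw [div_eq_div_iff (by
    exact mul_ne_zero (mul_ne_zero (pow_ne_zero _ Complex.I_ne_zero) h3)
      (mul_ne_zero (pow_ne_zero _ Complex.I_ne_zero) h4)) (mul_ne_zero h3 h4)]
  ring

private theorem C_Naive_csz (N t : ℕ) (k : Fin 4) (ht : t ≤ N) :
    (csz N t k : ℝ) = cz (N : ℝ) (t : ℝ) k := by
  fin_cases k <;> simp [csz, cz, Nat.cast_sub ht]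

private theorem C_Naive_csz_le (N t : ℕ) (k : Fin 4) (ht : t ≤ N) : csz N t k ≤ N := by
  fin_cases k <;> simp [csz, ht]

/-- `cz 1 ((t + τ) / M) = (cz N t + cz 1 τ) / M`. -/
private theorem C_Naive_cz (N : ℕ) (t τ : ℝ) (k : Fin 4) :
    cz 1 ((t + τ) / ((N + 1 : ℕ) : ℝ)) k = (cz (N : ℝ) t k + cz 1 τ k) / ((N + 1 : ℕ) : ℝ) := by
  have hM : ((N : ℝ) + 1) ≠ 0 := by positivity
  fin_cases k
  · simp only [cz, Fin.zero_eta, Matrix.cons_val_zero]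
    push_cast
    field_simp
    ring
  · simp [cz]
  · simp only [cz, Fin.reduceFinMk, Matrix.cons_val]
    push_cast
    field_simp
    ring
  · simp [cz]

private theorem C_Naive_exp (M : ℕ) (hM : 1 ≤ M) (K : ℝ) :
    Real.exp (K * (1 + Real.log M)) ≤ Real.exp K * (M : ℝ) ^ ⌈K⌉₊ := by
  have h0 : (0 : ℝ) < M := by exact_mod_cast hM
  have h1 : 0 ≤ Real.log M := Real.log_nonneg (by exact_mod_cast hM)
  rw [mul_add, mul_one, Real.exp_add]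
  refine mul_le_mul_of_nonneg_left ?_ (Real.exp_pos _).le
  have h2 : (M : ℝ) ^ ⌈K⌉₊ = Real.exp ((⌈K⌉₊ : ℝ) * Real.log M) := by
    rw [Real.exp_nat_mul, Real.exp_log h0]
  rw [h2]
  exact Real.exp_le_exp.2 (mul_le_mul_of_nonneg_right (Nat.le_ceil K) h1)

/-- The comparison of the growth rates. -/
theorem Uf_state (h : IsInt F cor x) : ∃ C : ℝ, 0 < C ∧ ∃ D : ℕ, ∀ (N : ℕ) (t : Fin c → ℕ)
    (s : Fin c → Fin 4 → ℕ), (∀ v, t v ≤ N) → (∀ v k, s v k ≤ csz N (t v) k) →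
    Real.exp (((N + 1 : ℕ) : ℝ) * ∑ v, (sl ((t v : ℝ) / ((N + 1 : ℕ) : ℝ)) +
      ∑ k, (Fr ((csz N (t v) k : ℝ) / ((N + 1 : ℕ) : ℝ)) - Fr ((s v k : ℝ) / ((N + 1 : ℕ) : ℝ)) -
        Fr (((csz N (t v) k - s v k : ℕ) : ℝ) / ((N + 1 : ℕ) : ℝ))))) ≤
      C * ((N + 1 : ℕ) : ℝ) ^ D * Real.exp (((N + 1 : ℕ) : ℝ) * Uf (Xp x N t s)) := by
  obtain ⟨C1, hC1, h1⟩ := Fr_mod
  obtain ⟨C2, hC2, h2⟩ := sl_mod
  have hK : 0 < (c : ℝ) * (C2 + 12 * C1) + 1 := by positivity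
  refine ⟨Real.exp ((c : ℝ) * (C2 + 12 * C1) + 1), Real.exp_pos _,
    ⌈(c : ℝ) * (C2 + 12 * C1) + 1⌉₊, fun N t s ht hs => ?_⟩
  have hM1 : 1 ≤ N + 1 := by omega
  have hM0 : (0 : ℝ) < ((N + 1 : ℕ) : ℝ) := by positivity
  have hlog : 0 ≤ Real.log ((N + 1 : ℕ) : ℝ) := Real.log_nonneg (by exact_mod_cast hM1)
  refine le_trans ?_ (mul_le_mul_of_nonneg_right (C_Naive_exp (N + 1) hM1 _)
    (Real.exp_pos _).le)
  rw [← Real.exp_add]
  refine Real.exp_le_exp.2 ?_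
  -- bounds of the coordinates of `x`
  have hc1 : ∀ v k, 0 ≤ x (Sum.inr (v, k)) := h.ang.nn
  have hc2 : ∀ v k, x (Sum.inr (v, k)) ≤ cz 1 (x (Sum.inl v)) k := h.ang.le
  have hc3 : ∀ v k, cz 1 (x (Sum.inl v)) k ≤ 1 ∧ 0 ≤ cz 1 (x (Sum.inl v)) k := by
    intro v k
    have a1 := h.half v
    have a2 := h.lt1 v
    fin_cases k <;> simp [cz] <;> constructor <;> linarith
  have key1 : ∀ u w : ℝ, |u - w| ≤ 1 → ((N + 1 : ℕ) : ℝ) *
      |Fr (u / ((N + 1 : ℕ) : ℝ)) - Fr (w / ((N + 1 : ℕ) : ℝ))| ≤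
        C1 * (1 + Real.log ((N + 1 : ℕ) : ℝ)) := by
    intro u w huw
    refine h1 (N + 1) _ _ hM1 ?_
    rw [← sub_div, abs_div, abs_of_pos hM0]
    exact div_le_div_of_nonneg_right (by linarith) hM0.le
  have key2 : ∀ u w : ℝ, |u - w| ≤ 1 → ((N + 1 : ℕ) : ℝ) *
      |sl (u / ((N + 1 : ℕ) : ℝ)) - sl (w / ((N + 1 : ℕ) : ℝ))| ≤
        C2 * (1 + Real.log ((N + 1 : ℕ) : ℝ)) := by
    intro u w huw
    refine h2 (N + 1) _ _ hM1 ?_
    rw [← sub_div, abs_div, abs_of_pos hM0]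
    exact div_le_div_of_nonneg_right (by linarith) hM0.le
  have hU : Uf (Xp x N t s) = ∑ v, (sl (((t v : ℝ) + x (Sum.inl v)) / ((N + 1 : ℕ) : ℝ)) +
      ∑ k, (Fr (((csz N (t v) k : ℝ) + cz 1 (x (Sum.inl v)) k) / ((N + 1 : ℕ) : ℝ)) -
        Fr (((s v k : ℝ) + x (Sum.inr (v, k))) / ((N + 1 : ℕ) : ℝ)) -
        Fr ((((csz N (t v) k - s v k : ℕ) : ℝ) +
          (cz 1 (x (Sum.inl v)) k - x (Sum.inr (v, k)))) / ((N + 1 : ℕ) : ℝ)))) := by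
    unfold Uf
    refine Finset.sum_congr rfl fun v _ => ?_
    simp only [Xp, Sum.elim_inl, Sum.elim_inr]
    congr 1
    refine Finset.sum_congr rfl fun k _ => ?_
    rw [C_Naive_cz, ← C_Naive_csz N (t v) k (ht v), Nat.cast_sub (hs v k), ← sub_div]
    congr 3
    ring
  have hfin : ((N + 1 : ℕ) : ℝ) * (∑ v, (sl ((t v : ℝ) / ((N + 1 : ℕ) : ℝ)) +
      ∑ k, (Fr ((csz N (t v) k : ℝ) / ((N + 1 : ℕ) : ℝ)) - Fr ((s v k : ℝ) / ((N + 1 : ℕ) : ℝ)) -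
        Fr (((csz N (t v) k - s v k : ℕ) : ℝ) / ((N + 1 : ℕ) : ℝ)))) - Uf (Xp x N t s)) ≤
      (c : ℝ) * (C2 + 12 * C1) * (1 + Real.log ((N + 1 : ℕ) : ℝ)) := by
    rw [hU, ← Finset.sum_sub_distrib, Finset.mul_sum]
    have : ∀ v ∈ (Finset.univ : Finset (Fin c)), ((N + 1 : ℕ) : ℝ) *
        (sl ((t v : ℝ) / ((N + 1 : ℕ) : ℝ)) +
      ∑ k, (Fr ((csz N (t v) k : ℝ) / ((N + 1 : ℕ) : ℝ)) - Fr ((s v k : ℝ) / ((N + 1 : ℕ) : ℝ)) -
        Fr (((csz N (t v) k - s v k : ℕ) : ℝ) / ((N + 1 : ℕ) : ℝ))) -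
        (sl (((t v : ℝ) + x (Sum.inl v)) / ((N + 1 : ℕ) : ℝ)) +
      ∑ k, (Fr (((csz N (t v) k : ℝ) + cz 1 (x (Sum.inl v)) k) / ((N + 1 : ℕ) : ℝ)) -
        Fr (((s v k : ℝ) + x (Sum.inr (v, k))) / ((N + 1 : ℕ) : ℝ)) -
        Fr ((((csz N (t v) k - s v k : ℕ) : ℝ) +
          (cz 1 (x (Sum.inl v)) k - x (Sum.inr (v, k)))) / ((N + 1 : ℕ) : ℝ))))) ≤
        (C2 + 12 * C1) * (1 + Real.log ((N + 1 : ℕ) : ℝ)) := by
      intro v _
      have e1 := key2 (t v) ((t v : ℝ) + x (Sum.inl v)) (by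
        rw [show (t v : ℝ) - ((t v : ℝ) + x (Sum.inl v)) = -x (Sum.inl v) by ring, abs_neg,
          abs_of_pos (by linarith [h.half v])]
        exact (h.lt1 v).le)
      have e2 : ∀ k : Fin 4, ((N + 1 : ℕ) : ℝ) *
          (Fr ((csz N (t v) k : ℝ) / ((N + 1 : ℕ) : ℝ)) - Fr ((s v k : ℝ) / ((N + 1 : ℕ) : ℝ)) -
          Fr (((csz N (t v) k - s v k : ℕ) : ℝ) / ((N + 1 : ℕ) : ℝ)) -
          (Fr (((csz N (t v) k : ℝ) + cz 1 (x (Sum.inl v)) k) / ((N + 1 : ℕ) : ℝ)) -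
          Fr (((s v k : ℝ) + x (Sum.inr (v, k))) / ((N + 1 : ℕ) : ℝ)) -
          Fr ((((csz N (t v) k - s v k : ℕ) : ℝ) +
          (cz 1 (x (Sum.inl v)) k - x (Sum.inr (v, k)))) / ((N + 1 : ℕ) : ℝ)))) ≤
          3 * C1 * (1 + Real.log ((N + 1 : ℕ) : ℝ)) := by
        intro k
        have b1 := hc1 v k
        have b2 := hc2 v k
        have b3 := hc3 v k
        have d1 := key1 (csz N (t v) k : ℝ) ((csz N (t v) k : ℝ) + cz 1 (x (Sum.inl v)) k) (by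
          rw [sub_add_cancel_left, abs_neg, abs_of_nonneg b3.2]; exact b3.1)
        have d2 := key1 (s v k : ℝ) ((s v k : ℝ) + x (Sum.inr (v, k))) (by
          rw [sub_add_cancel_left, abs_neg, abs_of_nonneg b1]; linarith [b3.1])
        have d3 := key1 ((csz N (t v) k - s v k : ℕ) : ℝ) (((csz N (t v) k - s v k : ℕ) : ℝ) +
          (cz 1 (x (Sum.inl v)) k - x (Sum.inr (v, k)))) (by
          rw [sub_add_cancel_left, abs_neg, abs_of_nonneg (by linarith)]; linarith [b3.1])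
        have f1 := mul_le_mul_of_nonneg_left (le_abs_self
          (Fr ((csz N (t v) k : ℝ) / ((N + 1 : ℕ) : ℝ)) -
          Fr (((csz N (t v) k : ℝ) + cz 1 (x (Sum.inl v)) k) / ((N + 1 : ℕ) : ℝ)))) hM0.le
        have f2 := mul_le_mul_of_nonneg_left (neg_le_abs
          (Fr ((s v k : ℝ) / ((N + 1 : ℕ) : ℝ)) -
          Fr (((s v k : ℝ) + x (Sum.inr (v, k))) / ((N + 1 : ℕ) : ℝ)))) hM0.le
        have f3 := mul_le_mul_of_nonneg_left (neg_le_abs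
          (Fr (((csz N (t v) k - s v k : ℕ) : ℝ) / ((N + 1 : ℕ) : ℝ)) -
          Fr ((((csz N (t v) k - s v k : ℕ) : ℝ) +
          (cz 1 (x (Sum.inl v)) k - x (Sum.inr (v, k)))) / ((N + 1 : ℕ) : ℝ)))) hM0.le
        nlinarith [d1, d2, d3, f1, f2, f3]
      have f0 := mul_le_mul_of_nonneg_left (le_abs_self
          (sl ((t v : ℝ) / ((N + 1 : ℕ) : ℝ)) -
          sl (((t v : ℝ) + x (Sum.inl v)) / ((N + 1 : ℕ) : ℝ)))) hM0.le
      have e3 := Finset.sum_le_sum fun k (_ : k ∈ (Finset.univ : Finset (Fin 4))) => e2 k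
      rw [← Finset.mul_sum, Finset.sum_sub_distrib, Finset.sum_const, Finset.card_univ,
        Fintype.card_fin, nsmul_eq_mul] at e3
      push_cast at e3 e1 f0 ⊢
      nlinarith [e1, e3, f0]
    refine (Finset.sum_le_sum this).trans (le_of_eq ?_)
    rw [Finset.sum_const, Finset.card_univ, Fintype.card_fin, nsmul_eq_mul]
    ring
  have h5 : (c : ℝ) * (C2 + 12 * C1) * (1 + Real.log ((N + 1 : ℕ) : ℝ)) ≤
      ((c : ℝ) * (C2 + 12 * C1) + 1) * (1 + Real.log ((N + 1 : ℕ) : ℝ)) :=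
    mul_le_mul_of_nonneg_right (by linarith) (by linarith)
  rw [mul_sub] at hfin
  linarith

/-- The bound of the corner factors. -/
theorem corP_bound (c : ℕ) : ∃ C : ℝ, 0 < C ∧ ∃ D : ℕ, ∀ (N : ℕ) (t : Fin c → ℕ)
    (s : Fin c → Fin 4 → ℕ), (∀ v, t v ≤ N) → (∀ v k, s v k ≤ csz N (t v) k) →
    ‖corP N t s‖ ≤ C * ((N + 1 : ℕ) : ℝ) ^ D * Real.exp (((N + 1 : ℕ) : ℝ) * ∑ v,
      ∑ k, (Fr ((csz N (t v) k : ℝ) / ((N + 1 : ℕ) : ℝ)) - Fr ((s v k : ℝ) / ((N + 1 : ℕ) : ℝ)) -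
        Fr (((csz N (t v) k - s v k : ℕ) : ℝ) / ((N + 1 : ℕ) : ℝ)))) := by
  obtain ⟨C, hC, D, hD⟩ := corner_growth
  refine ⟨C ^ (c * 4), pow_pos hC _, D * (c * 4), fun N t s ht hs => ?_⟩
  unfold corP
  rw [_root_.norm_prod]
  have h1 : ∀ v ∈ (Finset.univ : Finset (Fin c)),
      ‖∏ k, qbin (qz N) (csz N (t v) k) (s v k)‖ ≤
        ∏ k : Fin 4, (C * ((N + 1 : ℕ) : ℝ) ^ D * Real.exp (((N + 1 : ℕ) : ℝ) *
          (Fr ((csz N (t v) k : ℝ) / ((N + 1 : ℕ) : ℝ)) - Fr ((s v k : ℝ) / ((N + 1 : ℕ) : ℝ)) -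
          Fr (((csz N (t v) k - s v k : ℕ) : ℝ) / ((N + 1 : ℕ) : ℝ))))) := by
    intro v _
    rw [_root_.norm_prod]
    refine Finset.prod_le_prod (fun k _ => norm_nonneg _) fun k _ => ?_
    have h2 := C_Naive_csz_le N (t v) k (ht v)
    rw [qbin_qz N _ _ h2 (hs v k), Complex.norm_real, Real.norm_of_nonneg]
    · exact hD (N + 1) _ _ (by omega) (hs v k)
    · exact div_nonneg (S_pos (by omega)).le
        (mul_nonneg (S_pos (by have := hs v k; omega)).le (S_pos (by omega)).le)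
  refine (Finset.prod_le_prod (fun v _ => norm_nonneg _) h1).trans (le_of_eq ?_)
  simp only [Finset.prod_mul_distrib, Finset.prod_const, Finset.card_univ, Fintype.card_fin,
    ← Real.exp_sum, ← Finset.mul_sum]
  rw [← pow_mul, ← pow_mul, ← pow_mul]
  congr 2
  · ring
  · ring

/-- The bound of the terms. -/
theorem term_bound (h : IsInt F cor x) (a : Fin c → ℤ) : ∃ C : ℝ, 0 < C ∧ ∃ D : ℕ,
    ∀ (N : ℕ) (t : Fin c → ℕ) (s : Fin c → Fin 4 → ℕ), (∀ v, t v ≤ N) →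
    (∀ v k, s v k ≤ csz N (t v) k) →
    ‖(∏ v, eta (a v) N (t v)) * corP N t s‖ ≤
      C * ((N + 1 : ℕ) : ℝ) ^ D * Real.exp (((N + 1 : ℕ) : ℝ) * Uf (Xp x N t s)) := by
  obtain ⟨D1, h1⟩ := eta_bound
  choose C1 hC1 h1 using h1
  obtain ⟨C2, hC2, D2, h2⟩ := corP_bound c
  obtain ⟨C3, hC3, D3, h3⟩ := Uf_state h
  refine ⟨(∏ v, C1 (a v)) * C2 * C3, by
    have : 0 < ∏ v, C1 (a v) := Finset.prod_pos fun v _ => hC1 _
    positivity, D1 * c + D2 + D3, fun N t s ht hs => ?_⟩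
  have hM0 : (0 : ℝ) < ((N + 1 : ℕ) : ℝ) := by positivity
  rw [norm_mul, _root_.norm_prod]
  have e1 : ∏ v, ‖eta (a v) N (t v)‖ ≤ (∏ v, C1 (a v)) * ((N + 1 : ℕ) : ℝ) ^ (D1 * c) *
      Real.exp (((N + 1 : ℕ) : ℝ) * ∑ v, sl ((t v : ℝ) / ((N + 1 : ℕ) : ℝ))) := by
    refine (Finset.prod_le_prod (fun v _ => norm_nonneg _) fun v _ =>
      h1 (a v) N (t v) (ht v)).trans (le_of_eq ?_)
    simp only [Finset.prod_mul_distrib, Finset.prod_const, Finset.card_univ, Fintype.card_fin,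
      ← Real.exp_sum, ← Finset.mul_sum]
    rw [← pow_mul]
  have e2 := h2 N t s ht hs
  have e3 := h3 N t s ht hs
  have hP : 0 < ∏ v, C1 (a v) := Finset.prod_pos fun v _ => hC1 _
  calc (∏ v, ‖eta (a v) N (t v)‖) * ‖corP N t s‖
      ≤ ((∏ v, C1 (a v)) * ((N + 1 : ℕ) : ℝ) ^ (D1 * c) *
        Real.exp (((N + 1 : ℕ) : ℝ) * ∑ v, sl ((t v : ℝ) / ((N + 1 : ℕ) : ℝ)))) *
        (C2 * ((N + 1 : ℕ) : ℝ) ^ D2 * Real.exp (((N + 1 : ℕ) : ℝ) * ∑ v,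
      ∑ k, (Fr ((csz N (t v) k : ℝ) / ((N + 1 : ℕ) : ℝ)) - Fr ((s v k : ℝ) / ((N + 1 : ℕ) : ℝ)) -
        Fr (((csz N (t v) k - s v k : ℕ) : ℝ) / ((N + 1 : ℕ) : ℝ))))) :=
        mul_le_mul e1 e2 (norm_nonneg _) (by positivity)
    _ = (∏ v, C1 (a v)) * C2 * (((N + 1 : ℕ) : ℝ) ^ (D1 * c) * ((N + 1 : ℕ) : ℝ) ^ D2) *
        Real.exp (((N + 1 : ℕ) : ℝ) * ∑ v, (sl ((t v : ℝ) / ((N + 1 : ℕ) : ℝ)) +
      ∑ k, (Fr ((csz N (t v) k : ℝ) / ((N + 1 : ℕ) : ℝ)) - Fr ((s v k : ℝ) / ((N + 1 : ℕ) : ℝ)) -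
        Fr (((csz N (t v) k - s v k : ℕ) : ℝ) / ((N + 1 : ℕ) : ℝ))))) := by
        rw [Finset.sum_add_distrib, mul_add, Real.exp_add]
        ring
    _ ≤ (∏ v, C1 (a v)) * C2 * (((N + 1 : ℕ) : ℝ) ^ (D1 * c) * ((N + 1 : ℕ) : ℝ) ^ D2) *
        (C3 * ((N + 1 : ℕ) : ℝ) ^ D3 * Real.exp (((N + 1 : ℕ) : ℝ) * Uf (Xp x N t s))) :=
        mul_le_mul_of_nonneg_left e3 (by positivity)
    _ = _ := by
        rw [pow_add, pow_add]
        ring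

end Pool.Agent.H63.CLK
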