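import Pool.Agent.H63.CLK.C_Lat
import Pool.Agent.H63.CLK.C_Naive

/-!
# Replacing the factors of the twist regions by the flat contour integrals

For every vertex `eta_window` with `τ0 = x (inl v)`, `ρ = δ`; `|etaF| ≤ |eta| + |eta - etaF|`; telescoping
of the products (e.g. `Finset.prod_add`/induction: `|∏ f - ∏ g| ≤ ∑ ...`); the number of lattice points
in the box is at most `C M ^ d`; `Uf_le`.
-/

set_option autoImplicit false

namespace Pool.Agent.H63.CLK

open Pool.Agent.H63.VC hiding ext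
open Pool.Agent.H63.VC3 Pool.Agent.H63.VC4 Pool.Agent.H63.VC7 Complex Filter Topology
open scoped BigOperators

variable {c d : ℕ} {F : Finset ℕ} {cor : Fin c → Fin 4 → ℕ} {x : Vr c → ℝ}
  {b : Fin d → Vr c → ℤ} {x0 : Vr c → ℤ} {o : Fin d → ℝ}

private theorem C_Err_min {c : ℕ} (f : Fin c → ℝ) (hf : ∀ v, 0 < f v) :
    ∃ m : ℝ, 0 < m ∧ ∀ v, m ≤ f v := by
  rcases isEmpty_or_nonempty (Fin c) with he | he
  · exact ⟨1, one_pos, fun v => isEmptyElim v⟩
  · obtain ⟨v0, h0⟩ := Finite.exists_min f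
    exact ⟨f v0, hf v0, h0⟩

private theorem C_Err_max {c : ℕ} (f : Fin c → ℝ) : ∃ m : ℝ, 0 < m ∧ ∀ v, f v ≤ m := by
  rcases isEmpty_or_nonempty (Fin c) with he | he
  · exact ⟨1, one_pos, fun v => isEmptyElim v⟩
  · obtain ⟨v0, h0⟩ := Finite.exists_max f
    exact ⟨max (f v0) 1, lt_max_of_lt_right one_pos, fun v => (h0 v).trans (le_max_left _ _)⟩

/-- Products of factors which are close. -/
private theorem C_Err_prod {ι : Type*} (s : Finset ι) (f g : ι → ℂ) (B : ι → ℝ) (q : ℝ)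
    (hq : 0 ≤ q) (hf : ∀ i ∈ s, ‖f i‖ ≤ B i) (hg : ∀ i ∈ s, ‖g i‖ ≤ B i)
    (hd : ∀ i ∈ s, ‖f i - g i‖ ≤ q * B i) :
    ‖∏ i ∈ s, f i - ∏ i ∈ s, g i‖ ≤ s.card * q * ∏ i ∈ s, B i := by
  classical
  induction s using Finset.induction_on with
  | empty => simp
  | insert a s ha ih =>
    have hf' : ∀ i ∈ s, ‖f i‖ ≤ B i := fun i hi => hf i (Finset.mem_insert_of_mem hi)
    have hg' : ∀ i ∈ s, ‖g i‖ ≤ B i := fun i hi => hg i (Finset.mem_insert_of_mem hi)
    have hd' : ∀ i ∈ s, ‖f i - g i‖ ≤ q * B i := fun i hi => hd i (Finset.mem_insert_of_mem hi)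
    have hB : ∀ i ∈ s, 0 ≤ B i := fun i hi => (norm_nonneg _).trans (hf' i hi)
    have hBa : 0 ≤ B a := (norm_nonneg _).trans (hf a (Finset.mem_insert_self a s))
    have hP : 0 ≤ ∏ i ∈ s, B i := Finset.prod_nonneg hB
    have hgP : ‖∏ i ∈ s, g i‖ ≤ ∏ i ∈ s, B i := by
      rw [_root_.norm_prod]
      exact Finset.prod_le_prod (fun i _ => norm_nonneg _) hg'
    rw [Finset.prod_insert ha, Finset.prod_insert ha, Finset.prod_insert ha,
      Finset.card_insert_of_notMem ha]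
    have e : f a * ∏ i ∈ s, f i - g a * ∏ i ∈ s, g i =
        f a * (∏ i ∈ s, f i - ∏ i ∈ s, g i) + (f a - g a) * ∏ i ∈ s, g i := by ring
    rw [e]
    refine (norm_add_le _ _).trans ?_
    rw [norm_mul, norm_mul]
    have h1 : ‖f a‖ * ‖∏ i ∈ s, f i - ∏ i ∈ s, g i‖ ≤ B a * (s.card * q * ∏ i ∈ s, B i) :=
      mul_le_mul (hf a (Finset.mem_insert_self a s)) (ih hf' hg' hd') (norm_nonneg _) hBa
    have h2 : ‖f a - g a‖ * ‖∏ i ∈ s, g i‖ ≤ (q * B a) * ∏ i ∈ s, B i :=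
      mul_le_mul (hd a (Finset.mem_insert_self a s)) hgP (norm_nonneg _) (mul_nonneg hq hBa)
    push_cast
    linarith

/-- The number of lattice points in a box. -/
private theorem C_Err_card {d : ℕ} (M : ℕ) (o : Fin d → ℝ) (δ : ℝ) (hδ : 0 ≤ δ) :
    ((latBox M o δ).card : ℝ) ≤ (2 * δ * M + 1) ^ d := by
  unfold latBox
  rw [Fintype.card_piFinset]
  push_cast
  have h : ∀ i : Fin d, ((Finset.Icc ⌈M * (o i - δ)⌉ ⌊M * (o i + δ)⌋).card : ℝ) ≤
      2 * δ * M + 1 := by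
    intro i
    rw [Int.card_Icc]
    have h1 := Int.floor_le ((M : ℝ) * (o i + δ))
    have h2 := Int.le_ceil ((M : ℝ) * (o i - δ))
    have h3 : (((⌊(M : ℝ) * (o i + δ)⌋ + 1 - ⌈(M : ℝ) * (o i - δ)⌉).toNat : ℕ) : ℝ) =
        ((max (⌊(M : ℝ) * (o i + δ)⌋ + 1 - ⌈(M : ℝ) * (o i - δ)⌉) 0 : ℤ) : ℝ) := by
      rw [← Int.ofNat_toNat]
      push_cast
      rfl
    rw [h3]
    push_cast
    apply max_le
    · linarith
    · positivity
  refine (Finset.prod_le_prod (fun i _ => Nat.cast_nonneg _) (fun i _ => h i)).trans ?_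
  rw [Finset.prod_const, Finset.card_univ, Fintype.card_fin]

theorem err (h : IsMaxN F cor x) (hb : IsBas F cor b x0)
    (ho : ∀ j, x j = x0 j + ∑ i, o i * (b i j : ℝ)) : ∃ δ0 : ℝ, 0 < δ0 ∧ ∀ δ : ℝ, 0 < δ → δ ≤ δ0 →
    ∀ K : ℝ, 0 < K → ∃ c1 : ℝ, 0 < c1 ∧ ∃ R : ℝ, 0 < R ∧ ∀ a : Fin c → ℤ,
    (∀ v, R ≤ |(a v : ℝ)|) → ∀ Y : Fin c → ℝ, (∀ v, 0 < Y v ∧ Y v ≤ K / (a v : ℝ) ^ 2) →
    ∃ C : ℝ, 0 < C ∧ ∃ D N0 : ℕ, ∀ N : ℕ, N0 ≤ N →
      ‖∑ m ∈ latBox (N + 1) (oM o N) δ,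
          (∏ v, eta (a v) N (tm b x0 N m v)) * corP N (tm b x0 N m) (sm b x0 N m) -
        ∑ m ∈ latBox (N + 1) (oM o N) δ,
          (∏ v, etaF (a v) N (tm b x0 N m v) δ (Y v)) * corP N (tm b x0 N m) (sm b x0 N m)‖ ≤
        C * ((N + 1 : ℕ) : ℝ) ^ D * Real.exp (((N + 1 : ℕ) : ℝ) * (Uf x - c1)) := by
  choose ρ0 hρ0 δ1 hδ1 hwin using fun v : Fin c =>
    eta_window (x (Sum.inl v)) (h.int.half v) (h.int.lt1 v)
  obtain ⟨ρm, hρm0, hρm⟩ := C_Err_min ρ0 hρ0
  obtain ⟨ε, hε0, hεm⟩ := C_Err_min (fun v : Fin c => min (δ1 v) (x (Sum.inl v) - 1 / 2))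
    (fun v => lt_min (hδ1 v) (sub_pos.2 (h.int.half v)))
  have hε : ∀ v, ε ≤ δ1 v := fun v => (hεm v).trans (min_le_left _ _)
  have hε' : ∀ v, ε ≤ x (Sum.inl v) - 1 / 2 := fun v => (hεm v).trans (min_le_right _ _)
  obtain ⟨δb, hδb0, Nb, hbox⟩ := box_facts h.int hb ho ε hε0
  obtain ⟨De, heta⟩ := eta_bound
  obtain ⟨C2, hC2, D2, hcor⟩ := corP_bound c
  obtain ⟨C3, hC3, D3, hUs⟩ := Uf_state (c := c) h.int
  refine ⟨min ρm δb, lt_min hρm0 hδb0, fun δ hδ0 hδ K hK => ?_⟩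
  have hδρ : ∀ v, δ ≤ ρ0 v := fun v => (hδ.trans (min_le_left _ _)).trans (hρm v)
  have hδb' : δ ≤ δb := hδ.trans (min_le_right _ _)
  choose cw hcw Rw hRw using fun v : Fin c => hwin v δ hδ0 (hδρ v) K hK
  obtain ⟨c1, hc1, hc1m⟩ := C_Err_min cw hcw
  obtain ⟨R, hR0, hR⟩ := C_Err_max Rw
  refine ⟨c1, hc1, R, hR0, fun a ha Y hY => ?_⟩
  choose Cw hCw Dw Mw hW using fun v : Fin c =>
    hRw v (a v) ((hR v).trans (ha v)) (Y v) (hY v).1 (hY v).2
  choose Ce hCe heta' using fun v : Fin c => heta (a v)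
  obtain ⟨C1, hC1, hC1m⟩ := C_Err_max (fun v => Cw v + Ce v)
  set D1 : ℕ := De + Finset.univ.sup Dw with hD1
  set N0 : ℕ := Nb + Finset.univ.sup Mw with hN0
  refine ⟨(2 * δ + 1) ^ d * (c + 1) * C1 ^ c * C2 * C3, by positivity, d + D1 * c + D2 + D3, N0,
    fun N hN => ?_⟩
  set M : ℝ := ((N + 1 : ℕ) : ℝ) with hM
  have hM1 : 1 ≤ M := by
    rw [hM]
    exact_mod_cast Nat.succ_le_succ (Nat.zero_le N)
  have hM0 : 0 < M := by linarith
  set q : ℝ := Real.exp (-(M * c1)) with hq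
  have hq0 : 0 < q := Real.exp_pos _
  have hterm : ∀ m ∈ latBox (N + 1) (oM o N) δ,
      ‖(∏ v, eta (a v) N (tm b x0 N m v)) * corP N (tm b x0 N m) (sm b x0 N m) -
        (∏ v, etaF (a v) N (tm b x0 N m v) δ (Y v)) * corP N (tm b x0 N m) (sm b x0 N m)‖ ≤
      (c + 1) * C1 ^ c * C2 * C3 * M ^ (D1 * c + D2 + D3) *
        Real.exp (M * (Uf x - c1)) := by
    intro m hm
    obtain ⟨f1, f2, f3, f4, f5, f6, f7⟩ := hbox δ N hδb' (by omega) m hm
    set t := tm b x0 N m with ht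
    set s := sm b x0 N m with hs
    have htN : ∀ v, t v ≤ N := fun v => (f3 v).2
    have hclose : ∀ v, |(t v : ℝ) / M - x (Sum.inl v)| ≤ δ1 v := by
      intro v
      have h1 := f1 (Sum.inl v)
      have h2 : ((Xm b x0 N m (Sum.inl v) : ℤ) : ℝ) = (t v : ℝ) := by
        rw [← (f3 v).1]
        push_cast
        rfl
      rw [h2] at h1
      exact h1.trans (hε v)
    set B : Fin c → ℝ := fun v => C1 * M ^ D1 * Real.exp (M * sl ((t v : ℝ) / M)) with hB
    have hpow1 : ∀ v, Dw v ≤ D1 := fun v => by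
      have : Dw v ≤ Finset.univ.sup Dw := Finset.le_sup (f := Dw) (Finset.mem_univ v)
      omega
    have hpow2 : De ≤ D1 := by omega
    have hdiff0 : ∀ v, ‖eta (a v) N (t v) - etaF (a v) N (t v) δ (Y v)‖ ≤
        q * (Cw v * M ^ D1 * Real.exp (M * sl ((t v : ℝ) / M))) := by
      intro v
      have h1 := hW v N (t v) (by
        have : Mw v ≤ Finset.univ.sup Mw := Finset.le_sup (f := Mw) (Finset.mem_univ v)
        omega) (hclose v)
      refine h1.trans ?_
      have h2 : Real.exp (M * (sl ((t v : ℝ) / M) - cw v)) ≤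
          q * Real.exp (M * sl ((t v : ℝ) / M)) := by
        rw [hq, ← Real.exp_add]
        apply Real.exp_le_exp.2
        have := mul_le_mul_of_nonneg_left (hc1m v) hM0.le
        linarith
      calc Cw v * M ^ Dw v * Real.exp (M * (sl ((t v : ℝ) / M) - cw v))
          ≤ Cw v * M ^ D1 * (q * Real.exp (M * sl ((t v : ℝ) / M))) := by
            have h3 := (hCw v).le
            gcongr
            exact hpow1 v
        _ = _ := by ring
    have hq1 : q ≤ 1 := by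
      rw [hq, Real.exp_le_one_iff]
      have : 0 ≤ M * c1 := by positivity
      linarith
    have hE : ∀ v, 0 ≤ M ^ D1 * Real.exp (M * sl ((t v : ℝ) / M)) := fun v => by positivity
    have hf : ∀ v ∈ Finset.univ, ‖eta (a v) N (t v)‖ ≤ B v := by
      intro v _
      have h1 := heta' v N (t v) (htN v)
      refine h1.trans ?_
      have h2 : Ce v ≤ C1 := by
        have := hC1m v
        have h3 := (hCw v).le
        linarith
      have h4 := (hCe v).le
      show _ ≤ C1 * M ^ D1 * Real.exp (M * sl ((t v : ℝ) / M))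
      gcongr
    have hd : ∀ v ∈ Finset.univ, ‖eta (a v) N (t v) - etaF (a v) N (t v) δ (Y v)‖ ≤
        q * B v := by
      intro v _
      refine (hdiff0 v).trans ?_
      show _ ≤ q * (C1 * M ^ D1 * Real.exp (M * sl ((t v : ℝ) / M)))
      have h2 : Cw v ≤ C1 := by
        have := hC1m v
        have h3 := (hCe v).le
        linarith
      gcongr
    have hg : ∀ v ∈ Finset.univ, ‖etaF (a v) N (t v) δ (Y v)‖ ≤ B v := by
      intro v _
      have e : etaF (a v) N (t v) δ (Y v) = eta (a v) N (t v) -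
          (eta (a v) N (t v) - etaF (a v) N (t v) δ (Y v)) := by ring
      rw [e]
      refine (norm_sub_le _ _).trans ?_
      have h1 := heta' v N (t v) (htN v)
      have h2 := hdiff0 v
      have h3 : q * (Cw v * M ^ D1 * Real.exp (M * sl ((t v : ℝ) / M))) ≤
          Cw v * (M ^ D1 * Real.exp (M * sl ((t v : ℝ) / M))) := by
        have h4 := (hCw v).le
        have h5 : 0 ≤ Cw v * (M ^ D1 * Real.exp (M * sl ((t v : ℝ) / M))) :=
          mul_nonneg h4 (hE v)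
        calc _ = q * (Cw v * (M ^ D1 * Real.exp (M * sl ((t v : ℝ) / M)))) := by ring
          _ ≤ 1 * (Cw v * (M ^ D1 * Real.exp (M * sl ((t v : ℝ) / M)))) :=
            mul_le_mul_of_nonneg_right hq1 h5
          _ = _ := one_mul _
      have h6 : Ce v * M ^ De * Real.exp (M * sl ((t v : ℝ) / M)) ≤
          Ce v * (M ^ D1 * Real.exp (M * sl ((t v : ℝ) / M))) := by
        rw [mul_assoc]
        have h4 := (hCe v).le
        gcongr
      have h7 : (Cw v + Ce v) * (M ^ D1 * Real.exp (M * sl ((t v : ℝ) / M))) ≤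
          C1 * (M ^ D1 * Real.exp (M * sl ((t v : ℝ) / M))) :=
        mul_le_mul_of_nonneg_right (hC1m v) (hE v)
      show _ ≤ C1 * M ^ D1 * Real.exp (M * sl ((t v : ℝ) / M))
      linarith
    have hprod := C_Err_prod Finset.univ (fun v => eta (a v) N (t v))
      (fun v => etaF (a v) N (t v) δ (Y v)) B q hq0.le hf hg hd
    rw [Finset.card_univ, Fintype.card_fin] at hprod
    have hPB : ∏ v, B v = C1 ^ c * M ^ (D1 * c) * Real.exp (M * ∑ v, sl ((t v : ℝ) / M)) := by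
      rw [hB, Finset.prod_mul_distrib, Finset.prod_const, Finset.card_univ, Fintype.card_fin,
        mul_pow, ← pow_mul, Finset.mul_sum, Real.exp_sum]
    have hc2 := hcor N t s htN f5
    have hc3 := hUs N t s htN f5
    have hang := Xp_ang h.int N t s htN f4 f5
    have hhalf : ∀ v, 1 / 2 ≤ Xp x N t s (Sum.inl v) := by
      intro v
      have h1 := (abs_le.1 (f2 (Sum.inl v))).1
      have h2 : ((Xm b x0 N m (Sum.inl v) : ℤ) : ℝ) = (t v : ℝ) := by
        rw [← (f3 v).1]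
        push_cast
        rfl
      rw [h2] at h1
      have h3 := hε' v
      simp only [Xp, Sum.elim_inl]
      linarith
    have hUle := Uf_le h _ hang hhalf
    rw [← sub_mul, norm_mul]
    refine (mul_le_mul hprod hc2 (norm_nonneg _) (by
      rw [hPB]
      positivity)).trans ?_
    rw [hPB]
    set A1 : ℝ := ∑ v, sl ((t v : ℝ) / M) with hA1
    set A2 : ℝ := ∑ v, ∑ k, (Fr ((csz N (t v) k : ℝ) / M) - Fr ((s v k : ℝ) / M) -
        Fr (((csz N (t v) k - s v k : ℕ) : ℝ) / M)) with hA2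
    have hsum : ∑ v, (sl ((t v : ℝ) / M) +
      ∑ k, (Fr ((csz N (t v) k : ℝ) / M) - Fr ((s v k : ℝ) / M) -
        Fr (((csz N (t v) k - s v k : ℕ) : ℝ) / M))) = A1 + A2 := by
      rw [Finset.sum_add_distrib]
    rw [hsum] at hc3
    have hexp : Real.exp (M * A1) * Real.exp (M * A2) ≤ C3 * M ^ D3 * Real.exp (M * Uf x) := by
      rw [← Real.exp_add, ← mul_add]
      refine hc3.trans ?_
      have : Real.exp (M * Uf (Xp x N t s)) ≤ Real.exp (M * Uf x) :=
        Real.exp_le_exp.2 (mul_le_mul_of_nonneg_left hUle hM0.le)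
      gcongr
    have hqx : q * Real.exp (M * Uf x) = Real.exp (M * (Uf x - c1)) := by
      rw [hq, ← Real.exp_add]
      congr 1
      ring
    calc (c : ℝ) * q * (C1 ^ c * M ^ (D1 * c) * Real.exp (M * A1)) *
        (C2 * M ^ D2 * Real.exp (M * A2))
        = (c : ℝ) * C1 ^ c * C2 * M ^ (D1 * c) * M ^ D2 * q *
          (Real.exp (M * A1) * Real.exp (M * A2)) := by ring
      _ ≤ ((c : ℝ) + 1) * C1 ^ c * C2 * M ^ (D1 * c) * M ^ D2 * q *
          (C3 * M ^ D3 * Real.exp (M * Uf x)) := by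
        gcongr
        linarith
      _ = ((c : ℝ) + 1) * C1 ^ c * C2 * C3 * M ^ (D1 * c + D2 + D3) *
          (q * Real.exp (M * Uf x)) := by
        rw [pow_add, pow_add]
        ring
      _ = _ := by rw [hqx]
  rw [← Finset.sum_sub_distrib]
  refine (norm_sum_le _ _).trans ?_
  refine (Finset.sum_le_sum hterm).trans ?_
  rw [Finset.sum_const, nsmul_eq_mul]
  have hcard := C_Err_card (N + 1) (oM o N) δ hδ0.le
  rw [← hM] at hcard
  have hcard2 : ((latBox (N + 1) (oM o N) δ).card : ℝ) ≤ (2 * δ + 1) ^ d * M ^ d := by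
    refine hcard.trans ?_
    rw [← mul_pow]
    apply pow_le_pow_left₀ (by positivity)
    nlinarith
  calc ((latBox (N + 1) (oM o N) δ).card : ℝ) * ((c + 1) * C1 ^ c * C2 * C3 *
      M ^ (D1 * c + D2 + D3) * Real.exp (M * (Uf x - c1)))
      ≤ ((2 * δ + 1) ^ d * M ^ d) * ((c + 1) * C1 ^ c * C2 * C3 *
        M ^ (D1 * c + D2 + D3) * Real.exp (M * (Uf x - c1))) :=
        mul_le_mul_of_nonneg_right hcard2 (by positivity)
    _ = (2 * δ + 1) ^ d * (c + 1) * C1 ^ c * C2 * C3 * M ^ (d + D1 * c + D2 + D3) *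
        Real.exp (M * (Uf x - c1)) := by
      rw [show d + D1 * c + D2 + D3 = d + (D1 * c + D2 + D3) by ring, pow_add M d]
      ring

end Pool.Agent.H63.CLK
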