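import Pool.Agent.H63.CLK.C_Defs

/-!
# Strict maxima on the part `τ ≥ 1/2` of the polytope
-/

set_option autoImplicit false

namespace Pool.Agent.H63.CLK

open Pool.Agent.H63.VC hiding ext
open Pool.Agent.H63.VC3 Pool.Agent.H63.VC4 Pool.Agent.H63.VC7 Complex Filter Topology
open scoped BigOperators

/-- `x` is a strict maximum of the volume function on the part `τ ≥ 1/2` of the polytope, and lies in
the interior. -/
structure IsMaxN {c : ℕ} (F : Finset ℕ) (cor : Fin c → Fin 4 → ℕ) (x : Vr c → ℝ) : Prop where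
  int : IsInt F cor x
  max : ∀ y : Vr c → ℝ, IsAng F cor y → (∀ v, 1 / 2 ≤ y (Sum.inl v)) → y ≠ x → volF y < volF x

theorem IsMaxA.toN {c : ℕ} {F : Finset ℕ} {cor : Fin c → Fin 4 → ℕ} {x : Vr c → ℝ}
    (h : IsMaxA F cor x) : IsMaxN F cor x := ⟨h.int, fun y hy _ hne => h.max y hy hne⟩

/-- The far part of the state sum (some `t v < N / 2`) is exponentially small. -/
def FarOK {c : ℕ} (F : Finset ℕ) (cor : Fin c → Fin 4 → ℕ) (x : Vr c → ℝ) : Prop :=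
  ∃ c0 : ℝ, 0 < c0 ∧ ∀ a : Fin c → ℤ, ∃ C : ℝ, 0 < C ∧ ∃ D N0 : ℕ, ∀ N : ℕ, N0 ≤ N →
    ‖stSum F cor N (fun t s => if ∀ v, N ≤ 2 * t v then 0 else
      (∏ v, eta (a v) N (t v)) * corP N t s)‖ ≤
      C * ((N + 1 : ℕ) : ℝ) ^ D * Real.exp (((N + 1 : ℕ) : ℝ) * (Uf x - c0))

end Pool.Agent.H63.CLK
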