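import Pool.Agent.H63.CLK.C_Fr
import Pool.Agent.H63.CLK.C_MaxN

/-!
# The polytope

At an end vertex with the outer corners `k`, `k + 1` the other two corners have sizes with the sum
`n` and states with the sum `n`, therefore the states are equal to the sizes.
`Xp_ang`: all inequalities hold because of `σ* ≤ cz 1 τ*` and `0 ≤ τ* ≤ 1`.
-/

set_option autoImplicit false

namespace Pool.Agent.H63.CLK

open Pool.Agent.H63.VC hiding ext
open Pool.Agent.H63.VC3 Pool.Agent.H63.VC4 Pool.Agent.H63.VC7 Complex Filter Topology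
open scoped BigOperators

variable {c : ℕ} {F : Finset ℕ} {cor : Fin c → Fin 4 → ℕ} {x : Vr c → ℝ}

private theorem C_Poly_end {R : Type*} [CommRing R] [LinearOrder R] [IsStrictOrderedRing R]
    (n t : R) (s : Fin 4 → R) (k j : Fin 4) (hsum : ∑ i, s i = n) (h1 : s k = 0)
    (h2 : s (k + 1) = 0) (hle : ∀ i, s i ≤ cz n t i) (hj : j ≠ k) (hj2 : j ≠ k + 1) :
    s j = cz n t j := by
  rw [Fin.sum_univ_four] at hsum
  have l0 : s 0 ≤ n - t := hle 0
  have l1 : s 1 ≤ t := hle 1
  have l2 : s 2 ≤ n - t := hle 2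
  have l3 : s 3 ≤ t := hle 3
  have key : ∀ k j : Fin 4, s k = 0 → s (k + 1) = 0 → j ≠ k → j ≠ k + 1 → s j = cz n t j := by
    intro k j
    fin_cases k
    · intro h1 h2 hj hj2
      replace h1 : s 0 = 0 := h1
      replace h2 : s 1 = 0 := h2
      fin_cases j
      · exact absurd rfl hj
      · exact absurd rfl hj2
      · change s 2 = n - t
        linarith
      · change s 3 = t
        linarith
    · intro h1 h2 hj hj2
      replace h1 : s 1 = 0 := h1
      replace h2 : s 2 = 0 := h2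
      fin_cases j
      · change s 0 = n - t
        linarith
      · exact absurd rfl hj
      · exact absurd rfl hj2
      · change s 3 = t
        linarith
    · intro h1 h2 hj hj2
      replace h1 : s 2 = 0 := h1
      replace h2 : s 3 = 0 := h2
      fin_cases j
      · change s 0 = n - t
        linarith
      · change s 1 = t
        linarith
      · exact absurd rfl hj
      · exact absurd rfl hj2
    · intro h1 h2 hj hj2
      replace h1 : s 3 = 0 := h1
      replace h2 : s 0 = 0 := h2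
      fin_cases j
      · exact absurd rfl hj2
      · change s 1 = t
        linarith
      · change s 2 = n - t
        linarith
      · exact absurd rfl hj
  exact key k j h1 h2 hj hj2

private theorem C_Poly_fin4 (P : Fin 4 → Prop) (h0 : P 0) (h1 : P 1) (h2 : P 2) (h3 : P 3) :
    ∀ k, P k := by
  intro k
  fin_cases k
  · exact h0
  · exact h1
  · exact h2
  · exact h3

/-- The states are equal to the sizes at the end vertices. -/
private theorem C_Poly_endv {R : Type*} [CommRing R] [LinearOrder R] [IsStrictOrderedRing R]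
    (n : R) (X : Vr c → R) (vert : ∀ v, ∑ k, X (Sum.inr (v, k)) = n)
    (out : ∀ v k, cor v k ∉ F → X (Sum.inr (v, k)) = 0)
    (le : ∀ v k, X (Sum.inr (v, k)) ≤ cz n (X (Sum.inl v)) k) :
    ∀ v k, IsEnd F cor v → cor v k ∈ F → X (Sum.inr (v, k)) = cz n (X (Sum.inl v)) k := by
  rintro v j ⟨k, hk1, hk2⟩ hj
  refine C_Poly_end n (X (Sum.inl v)) (fun i => X (Sum.inr (v, i))) k j (vert v) (out v k hk1)
    (out v (k + 1) hk2) (le v) ?_ ?_
  · rintro rfl; exact hk1 hj
  · rintro rfl; exact hk2 hj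

theorem ang_lin (h : IsAng F cor x) : IsLin F cor 1 x := by
  exact ⟨h.vert, h.face, h.out, C_Poly_endv 1 x h.vert h.out h.le⟩

theorem ang_compact : IsCompact {x : Vr c → ℝ | IsAng F cor x} := by
  refine IsCompact.of_isClosed_subset
    (isCompact_univ_pi (fun _ : Vr c => isCompact_Icc (a := (0 : ℝ)) (b := 1))) ?_ ?_
  · have hset : {x : Vr c → ℝ | IsAng F cor x} =
        {x | ∀ v, ∑ k, x (Sum.inr (v, k)) = 1} ∩
        ({x | ∀ f ∈ F, ∑ v, ∑ k, (if cor v k = f then x (Sum.inr (v, k)) else 0) = 1} ∩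
        ({x | ∀ v k, cor v k ∉ F → x (Sum.inr (v, k)) = 0} ∩
        ({x | ∀ v k, 0 ≤ x (Sum.inr (v, k))} ∩
        {x | ∀ v k, x (Sum.inr (v, k)) ≤ cz 1 (x (Sum.inl v)) k}))) := by
      ext x
      refine ⟨fun (h : IsAng F cor x) => ⟨h.vert, h.face, fun v k hk => h.out v k hk, h.nn, h.le⟩,
        fun h => (⟨h.1, h.2.1, h.2.2.1, h.2.2.2.1, h.2.2.2.2⟩ : IsAng F cor x)⟩
    rw [hset]
    refine IsClosed.inter ?_ (IsClosed.inter ?_ (IsClosed.inter ?_ (IsClosed.inter ?_ ?_)))
    · simp only [Set.ofPred_forall]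
      exact isClosed_iInter fun v => isClosed_eq
        (continuous_finsetSum _ fun k _ => continuous_apply _) continuous_const
    · simp only [Set.ofPred_forall]
      refine isClosed_iInter fun f => isClosed_iInter fun _ => isClosed_eq
        (continuous_finsetSum _ fun v _ => continuous_finsetSum _ fun k _ => ?_) continuous_const
      split_ifs
      · exact continuous_apply _
      · exact continuous_const
    · simp only [Set.ofPred_forall]
      exact isClosed_iInter fun v => isClosed_iInter fun k => isClosed_iInter fun _ =>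
        isClosed_eq (continuous_apply _) continuous_const
    · simp only [Set.ofPred_forall]
      exact isClosed_iInter fun v => isClosed_iInter fun k =>
        isClosed_le continuous_const (continuous_apply _)
    · simp only [Set.ofPred_forall]
      refine isClosed_iInter fun v => isClosed_iInter fun k =>
        isClosed_le (continuous_apply _) ?_
      have h1 : Continuous fun x : Vr c → ℝ => 1 - x (Sum.inl v) :=
        continuous_const.sub (continuous_apply _)
      have h2 : Continuous fun x : Vr c → ℝ => x (Sum.inl v) := continuous_apply _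
      exact C_Poly_fin4 (fun k => Continuous fun x : Vr c → ℝ => cz 1 (x (Sum.inl v)) k)
        h1 h2 h1 h2 k
  · intro x hx
    have hx' : IsAng F cor x := hx
    have hτ : ∀ v, 0 ≤ x (Sum.inl v) ∧ x (Sum.inl v) ≤ 1 := by
      intro v
      have a0 := hx'.nn v 0
      have b0 : x (Sum.inr (v, 0)) ≤ 1 - x (Sum.inl v) := hx'.le v 0
      have a1 := hx'.nn v 1
      have b1 : x (Sum.inr (v, 1)) ≤ x (Sum.inl v) := hx'.le v 1
      constructor <;> linarith
    rw [Set.mem_univ_pi]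
    rintro (v | ⟨v, k⟩)
    · exact ⟨(hτ v).1, (hτ v).2⟩
    · refine ⟨hx'.nn v k, (hx'.le v k).trans ?_⟩
      have h1 : 1 - x (Sum.inl v) ≤ 1 := by linarith [(hτ v).1]
      exact C_Poly_fin4 (fun k => cz 1 (x (Sum.inl v)) k ≤ 1) h1 (hτ v).2 h1 (hτ v).2 k

theorem Xp_ang (h : IsInt F cor x) (N : ℕ) (t : Fin c → ℕ) (s : Fin c → Fin 4 → ℕ)
    (ht : ∀ v, t v ≤ N) (hs : IsState F cor N s) (hle : ∀ v k, s v k ≤ csz N (t v) k) :
    IsAng F cor (Xp x N t s) := by
  have hM : (0 : ℝ) < ((N + 1 : ℕ) : ℝ) := by positivity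
  have hM' : ((N + 1 : ℕ) : ℝ) = (N : ℝ) + 1 := by push_cast; ring
  refine ⟨fun v => ?_, fun f hf => ?_, fun v k hk => ?_, fun v k => ?_, fun v k => ?_⟩
  · simp only [Xp, Sum.elim_inr]
    rw [← Finset.sum_div, Finset.sum_add_distrib, h.ang.vert v, ← Nat.cast_sum, hs.1 v, hM',
      div_self (by rw [← hM']; exact hM.ne')]
  · simp only [Xp, Sum.elim_inr]
    have h1 : ∀ v k, (if cor v k = f then ((s v k : ℝ) + x (Sum.inr (v, k))) / ((N + 1 : ℕ) : ℝ)
        else 0) = (((if cor v k = f then s v k else 0 : ℕ) : ℝ) +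
          (if cor v k = f then x (Sum.inr (v, k)) else 0)) / ((N + 1 : ℕ) : ℝ) := by
      intro v k
      split_ifs <;> simp
    simp only [h1]
    simp only [← Finset.sum_div, Finset.sum_add_distrib]
    rw [h.ang.face f hf]
    have h2 := hs.2.1 f hf
    have h3 : (∑ v, ∑ k, ((if cor v k = f then s v k else 0 : ℕ) : ℝ)) = N := by
      rw [← h2]; push_cast; rfl
    rw [h3, hM', div_self (by rw [← hM']; exact hM.ne')]
  · simp only [Xp, Sum.elim_inr]
    rw [hs.2.2 v k hk, h.ang.out v k hk]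
    simp
  · simp only [Xp, Sum.elim_inr]
    exact div_nonneg (add_nonneg (Nat.cast_nonneg _) (h.ang.nn v k)) hM.le
  · simp only [Xp, Sum.elim_inr, Sum.elim_inl]
    have hNt : ((N - t v : ℕ) : ℝ) = (N : ℝ) - t v := Nat.cast_sub (ht v)
    have key : ∀ k, (s v k : ℝ) + x (Sum.inr (v, k)) ≤
        cz ((N : ℝ) + 1) ((t v : ℝ) + x (Sum.inl v)) k := by
      have e : ∀ k, (s v k : ℝ) ≤ (csz N (t v) k : ℕ) := fun k => by exact_mod_cast hle v k
      have e' := h.ang.le v
      refine C_Poly_fin4 _ ?_ ?_ ?_ ?_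
      · have l1 : (s v 0 : ℝ) ≤ ((N - t v : ℕ) : ℝ) := e 0
        have l2 : x (Sum.inr (v, 0)) ≤ 1 - x (Sum.inl v) := e' 0
        change _ ≤ ((N : ℝ) + 1) - ((t v : ℝ) + x (Sum.inl v))
        rw [hNt] at l1
        linarith
      · have l1 : (s v 1 : ℝ) ≤ ((t v : ℕ) : ℝ) := e 1
        have l2 : x (Sum.inr (v, 1)) ≤ x (Sum.inl v) := e' 1
        change _ ≤ ((t v : ℝ) + x (Sum.inl v))
        linarith
      · have l1 : (s v 2 : ℝ) ≤ ((N - t v : ℕ) : ℝ) := e 2
        have l2 : x (Sum.inr (v, 2)) ≤ 1 - x (Sum.inl v) := e' 2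
        change _ ≤ ((N : ℝ) + 1) - ((t v : ℝ) + x (Sum.inl v))
        rw [hNt] at l1
        linarith
      · have l1 : (s v 3 : ℝ) ≤ ((t v : ℕ) : ℝ) := e 3
        have l2 : x (Sum.inr (v, 3)) ≤ x (Sum.inl v) := e' 3
        change _ ≤ ((t v : ℝ) + x (Sum.inl v))
        linarith
    have hcz : cz 1 (((t v : ℝ) + x (Sum.inl v)) / ((N + 1 : ℕ) : ℝ)) k =
        cz ((N : ℝ) + 1) ((t v : ℝ) + x (Sum.inl v)) k / ((N + 1 : ℕ) : ℝ) := by
      have e0 : (1 : ℝ) - ((t v : ℝ) + x (Sum.inl v)) / ((N + 1 : ℕ) : ℝ) =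
          (((N : ℝ) + 1) - ((t v : ℝ) + x (Sum.inl v))) / ((N + 1 : ℕ) : ℝ) := by
        rw [sub_div, ← hM', div_self hM.ne']
      exact C_Poly_fin4 (fun k => cz 1 (((t v : ℝ) + x (Sum.inl v)) / ((N + 1 : ℕ) : ℝ)) k =
        cz ((N : ℝ) + 1) ((t v : ℝ) + x (Sum.inl v)) k / ((N + 1 : ℕ) : ℝ)) e0 rfl e0 rfl k
    rw [hcz]
    exact div_le_div_of_nonneg_right (key k) hM.le

theorem state_lin (N : ℕ) (t : Fin c → ℕ) (s : Fin c → Fin 4 → ℕ)
    (ht : ∀ v, t v ≤ N) (hs : IsState F cor N s) (hle : ∀ v k, s v k ≤ csz N (t v) k) :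
    IsLin F cor (N : ℤ) (Sum.elim (fun v => (t v : ℤ)) (fun p => (s p.1 p.2 : ℤ))) := by
  have hcast : ∀ v k, ((csz N (t v) k : ℕ) : ℤ) = cz (N : ℤ) (t v : ℤ) k := by
    intro v
    have h0 : ((N - t v : ℕ) : ℤ) = (N : ℤ) - t v := Nat.cast_sub (ht v)
    exact C_Poly_fin4 _ h0 rfl h0 rfl
  have vert : ∀ v, ∑ k, (Sum.elim (fun v => (t v : ℤ)) (fun p => (s p.1 p.2 : ℤ)) :
      Vr c → ℤ) (Sum.inr (v, k)) = (N : ℤ) := by
    intro v
    simp only [Sum.elim_inr]
    rw [← hs.1 v]; push_cast; rfl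
  have out : ∀ v k, cor v k ∉ F → (Sum.elim (fun v => (t v : ℤ)) (fun p => (s p.1 p.2 : ℤ)) :
      Vr c → ℤ) (Sum.inr (v, k)) = 0 := by
    intro v k hk
    simp only [Sum.elim_inr]
    rw [hs.2.2 v k hk]; rfl
  refine ⟨vert, fun f hf => ?_, out, C_Poly_endv (N : ℤ) _ vert out ?_⟩
  · simp only [Sum.elim_inr]
    rw [← hs.2.1 f hf]; push_cast; rfl
  · intro v k
    simp only [Sum.elim_inr, Sum.elim_inl]
    rw [← hcast v k]
    exact_mod_cast hle v k

/-- Integral solutions satisfying the inequalities at the nondegenerate corners are states. -/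
theorem lin_state (N : ℕ) (X : Vr c → ℤ) (h : IsLin F cor (N : ℤ) X)
    (ht : ∀ v, 0 ≤ X (Sum.inl v) ∧ X (Sum.inl v) ≤ N)
    (hs : ∀ p ∈ Nd F cor, 0 ≤ X (Sum.inr p) ∧ X (Sum.inr p) ≤ cz (N : ℤ) (X (Sum.inl p.1)) p.2) :
    IsState F cor N (fun v k => (X (Sum.inr (v, k))).toNat) ∧
      (∀ v k, (X (Sum.inr (v, k))).toNat ≤ csz N (X (Sum.inl v)).toNat k) ∧
      ∀ v k, (((X (Sum.inr (v, k))).toNat : ℕ) : ℤ) = X (Sum.inr (v, k)) := by
  have hczn : ∀ v k, 0 ≤ cz (N : ℤ) (X (Sum.inl v)) k := by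
    intro v
    have h0 : (0 : ℤ) ≤ (N : ℤ) - X (Sum.inl v) := by linarith [(ht v).2]
    exact C_Poly_fin4 _ h0 (ht v).1 h0 (ht v).1
  have hb : ∀ v k, 0 ≤ X (Sum.inr (v, k)) ∧ X (Sum.inr (v, k)) ≤ cz (N : ℤ) (X (Sum.inl v)) k := by
    intro v k
    by_cases hF : cor v k ∈ F
    · by_cases hE : IsEnd F cor v
      · rw [h.endv v k hE hF]
        exact ⟨hczn v k, le_rfl⟩
      · exact hs (v, k) (by simp [Nd, hF, hE])
    · rw [h.out v k hF]
      exact ⟨le_rfl, hczn v k⟩
  have hnat : ∀ v k, (((X (Sum.inr (v, k))).toNat : ℕ) : ℤ) = X (Sum.inr (v, k)) := fun v k =>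
    Int.toNat_of_nonneg (hb v k).1
  have hcast : ∀ v k, ((csz N (X (Sum.inl v)).toNat k : ℕ) : ℤ) = cz (N : ℤ) (X (Sum.inl v)) k := by
    intro v
    have e : (((X (Sum.inl v)).toNat : ℕ) : ℤ) = X (Sum.inl v) := Int.toNat_of_nonneg (ht v).1
    have h0 : ((N - (X (Sum.inl v)).toNat : ℕ) : ℤ) = (N : ℤ) - X (Sum.inl v) := by
      have := (ht v).2
      omega
    exact C_Poly_fin4 _ h0 e h0 e
  refine ⟨⟨fun v => ?_, fun f hf => ?_, fun v k hk => ?_⟩, fun v k => ?_, hnat⟩
  · have h1 := h.vert v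
    have h2 : ((∑ k, (X (Sum.inr (v, k))).toNat : ℕ) : ℤ) = (N : ℤ) := by
      rw [← h1, Nat.cast_sum]
      exact Finset.sum_congr rfl fun k _ => hnat v k
    exact_mod_cast h2
  · have h1 := h.face f hf
    have h2 : ((∑ v, ∑ k, (if cor v k = f then (X (Sum.inr (v, k))).toNat else 0) : ℕ) : ℤ) =
        (N : ℤ) := by
      rw [← h1, Nat.cast_sum]
      refine Finset.sum_congr rfl fun v _ => ?_
      rw [Nat.cast_sum]
      refine Finset.sum_congr rfl fun k _ => ?_
      split_ifs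
      · exact hnat v k
      · rfl
    exact_mod_cast h2
  · change (X (Sum.inr (v, k))).toNat = 0
    rw [h.out v k hk]; rfl
  · have h1 := (hb v k).2
    rw [← hnat v k, ← hcast v k] at h1
    exact_mod_cast h1

/-- The growth rate is strictly smaller away from the maximum. -/
theorem gap (h : IsMaxN F cor x) {d : ℕ} (b : Fin d → Vr c → ℤ) (x0 : Vr c → ℤ)
    (hb : IsBas F cor b x0) (δ : ℝ) (hδ : 0 < δ) : ∃ c0 : ℝ, 0 < c0 ∧ ∀ w : Fin d → ℝ,
    IsAng F cor (fun j => x j + ∑ i, w i * (b i j : ℝ)) →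
    (∀ v, 1 / 2 ≤ x (Sum.inl v) + ∑ i, w i * (b i (Sum.inl v) : ℝ)) → (∃ i, δ ≤ |w i|) →
    Uf (fun j => x j + ∑ i, w i * (b i j : ℝ)) ≤ Uf x - c0 := by
  let L : (Fin d → ℝ) →ₗ[ℝ] (Vr c → ℝ) :=
    { toFun := fun w j => ∑ i, w i * (b i j : ℝ)
      map_add' := by
        intro w w'
        funext j
        simp only [Pi.add_apply, add_mul, Finset.sum_add_distrib]
      map_smul' := by
        intro r w
        funext j
        simp only [Pi.smul_apply, smul_eq_mul, RingHom.id_apply, Finset.mul_sum, mul_assoc] }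
  have hLinj : Function.Injective L := by
    rw [← LinearMap.ker_eq_bot, LinearMap.ker_eq_bot']
    intro w hw
    exact hb.inj w fun j => congrFun hw j
  have hLemb : Topology.IsClosedEmbedding L := LinearMap.isClosedEmbedding_of_injective
    (LinearMap.ker_eq_bot.2 hLinj)
  have hc1 : IsCompact {y : Vr c → ℝ | IsAng F cor (x + y)} := by
    have h1 := (Homeomorph.addLeft x).isClosedEmbedding.isCompact_preimage
      (ang_compact (F := F) (cor := cor))
    exact h1
  have hc2 : IsCompact (L ⁻¹' {y : Vr c → ℝ | IsAng F cor (x + y)}) :=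
    hLemb.isCompact_preimage hc1
  have hcl : IsClosed {w : Fin d → ℝ | (∀ v, 1 / 2 ≤ x (Sum.inl v) + L w (Sum.inl v)) ∧
      ∃ i, δ ≤ |w i|} := by
    have e : {w : Fin d → ℝ | (∀ v, 1 / 2 ≤ x (Sum.inl v) + L w (Sum.inl v)) ∧
        ∃ i, δ ≤ |w i|} = {w : Fin d → ℝ | ∀ v, 1 / 2 ≤ x (Sum.inl v) + L w (Sum.inl v)} ∩
        {w : Fin d → ℝ | ∃ i, δ ≤ |w i|} := rfl
    rw [e]
    refine IsClosed.inter ?_ ?_
    · simp only [Set.ofPred_forall]
      exact isClosed_iInter fun v => isClosed_le continuous_const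
        (continuous_const.add ((continuous_apply _).comp hLemb.continuous))
    · simp only [Set.ofPred_exists]
      exact isClosed_iUnion_of_finite fun i =>
        isClosed_le continuous_const (continuous_apply i).abs
  have hK := hc2.inter_right hcl
  have hcont : Continuous fun w : Fin d → ℝ => Uf (x + L w) :=
    Uf_continuous.comp (continuous_const.add hLemb.continuous)
  have hlt : ∀ y : Vr c → ℝ, IsAng F cor y → (∀ v, 1 / 2 ≤ y (Sum.inl v)) → y ≠ x →
      Uf y < Uf x := by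
    intro y hy hh hne
    have h1 := h.max y hy hh hne
    rw [volF_eq, volF_eq] at h1
    exact lt_of_mul_lt_mul_left h1 (by positivity)
  rcases Set.eq_empty_or_nonempty (L ⁻¹' {y : Vr c → ℝ | IsAng F cor (x + y)} ∩
      {w : Fin d → ℝ | (∀ v, 1 / 2 ≤ x (Sum.inl v) + L w (Sum.inl v)) ∧
        ∃ i, δ ≤ |w i|}) with hemp | hne
  · refine ⟨1, one_pos, fun w hw hh hi => ?_⟩
    have : w ∈ (L ⁻¹' {y : Vr c → ℝ | IsAng F cor (x + y)} ∩
      {w : Fin d → ℝ | (∀ v, 1 / 2 ≤ x (Sum.inl v) + L w (Sum.inl v)) ∧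
        ∃ i, δ ≤ |w i|}) := ⟨hw, hh, hi⟩
    rw [hemp] at this
    exact absurd this (Set.notMem_empty w)
  · obtain ⟨w0, hw0, hmax⟩ := hK.exists_isMaxOn hne hcont.continuousOn
    have hw0' : IsAng F cor (x + L w0) := hw0.1
    have hne0 : x + L w0 ≠ x := by
      intro h0
      have h1 : L w0 = 0 := by
        have := congrArg (fun y => y - x) h0
        simpa using this
      have h2 : w0 = 0 := hLinj (h1.trans (map_zero L).symm)
      obtain ⟨i, hi⟩ := hw0.2.2
      rw [h2, Pi.zero_apply, abs_zero] at hi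
      linarith
    refine ⟨Uf x - Uf (x + L w0), sub_pos.2 (hlt _ hw0' hw0.2.1 hne0), fun w hw hh hi => ?_⟩
    have h3 : Uf (x + L w) ≤ Uf (x + L w0) := hmax (show w ∈ _ from ⟨hw, hh, hi⟩)
    have h4 : (fun j => x j + ∑ i, w i * (b i j : ℝ)) = x + L w := rfl
    rw [h4]
    linarith

theorem Uf_le (h : IsMaxN F cor x) (y : Vr c → ℝ) (hy : IsAng F cor y)
    (hh : ∀ v, 1 / 2 ≤ y (Sum.inl v)) : Uf y ≤ Uf x := by
  by_cases hne : y = x
  · rw [hne]
  · have h1 := h.max y hy hh hne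
    rw [volF_eq, volF_eq] at h1
    exact (lt_of_mul_lt_mul_left h1 (by positivity)).le

end Pool.Agent.H63.CLK
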