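import Pool.Agent.H63.CLK.C_Hess
import Pool.Agent.H63.CLK.C_Poly
import Pool.Agent.H63.VC3.Clausen

/-!
# The potential satisfies the hypotheses of the abstract theorem

`ff_hasDerivAt`, `hh_hasDerivAt` (VC3); `ff` is real on `(0, 1)` and equal to `Fr` there; evenness in `z j`
is clear; at real points with `v = 0` the potential is `Uf` (the degenerate corners contribute `0`,
`∑ k, Fr (cz 1 τ k) = 0`), which has a maximum at `x` on the polytope, and a neighbourhood of `x` in the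
affine space belongs to the polytope, so the derivative is `0`; the second derivative on a line is
`-2π ∑ cot (π (τ v - 1/2)) v'^2` plus `π` times the form of `quad_neg`.
-/

set_option autoImplicit false

namespace Pool.Agent.H63.CLK

open Pool.Agent.H63.VC hiding ext
open Pool.Agent.H63.VC3 Pool.Agent.H63.VC4 Pool.Agent.H63.VC7 Complex Filter Topology
open scoped BigOperators

variable {c d : ℕ} {F : Finset ℕ} {cor : Fin c → Fin 4 → ℕ} {x : Vr c → ℝ}
  {b : Fin d → Vr c → ℤ} {x0 : Vr c → ℤ}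

/-! ## 2-jets -/

private def C_Pot_Jet (g : ℂ → ℂ) (q : ℂ) : Prop :=
  ∃ g' : ℂ → ℂ, (∀ᶠ s in 𝓝 (0 : ℂ), HasDerivAt g (g' s) s) ∧ HasDerivAt g' q 0

private theorem C_Pot_Jet.iter {g : ℂ → ℂ} {q : ℂ} (h : C_Pot_Jet g q) :
    iteratedDeriv 2 g 0 = q := by
  obtain ⟨g', h1, h2⟩ := h
  rw [iteratedDeriv_succ, iteratedDeriv_one]
  have h3 : deriv g =ᶠ[𝓝 0] g' := by
    filter_upwards [h1] with s hs
    exact hs.deriv
  rw [h3.deriv_eq, h2.deriv]

private theorem C_Pot_Jet.congr {g f : ℂ → ℂ} {q r : ℂ} (h : C_Pot_Jet g q) (hf : f = g)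
    (hr : r = q) : C_Pot_Jet f r := by
  subst hf hr
  exact h

private theorem C_Pot_Jet.add {g f : ℂ → ℂ} {q r : ℂ} (h : C_Pot_Jet g q) (h' : C_Pot_Jet f r) :
    C_Pot_Jet (fun s => g s + f s) (q + r) := by
  obtain ⟨g', h1, h2⟩ := h
  obtain ⟨f', h3, h4⟩ := h'
  refine ⟨fun s => g' s + f' s, ?_, h2.add h4⟩
  filter_upwards [h1, h3] with s hs hs'
  exact hs.add hs'

private theorem C_Pot_Jet.sub {g f : ℂ → ℂ} {q r : ℂ} (h : C_Pot_Jet g q) (h' : C_Pot_Jet f r) :
    C_Pot_Jet (fun s => g s - f s) (q - r) := by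
  obtain ⟨g', h1, h2⟩ := h
  obtain ⟨f', h3, h4⟩ := h'
  refine ⟨fun s => g' s - f' s, ?_, h2.sub h4⟩
  filter_upwards [h1, h3] with s hs hs'
  exact hs.sub hs'

private theorem C_Pot_Jet.const_mul {g : ℂ → ℂ} {q : ℂ} (k : ℂ) (h : C_Pot_Jet g q) :
    C_Pot_Jet (fun s => k * g s) (k * q) := by
  obtain ⟨g', h1, h2⟩ := h
  refine ⟨fun s => k * g' s, ?_, h2.const_mul k⟩
  filter_upwards [h1] with s hs
  exact hs.const_mul k

private theorem C_Pot_Jet.sum {ι : Type*} (S : Finset ι) {g : ι → ℂ → ℂ} {q : ι → ℂ}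
    (h : ∀ i ∈ S, C_Pot_Jet (g i) (q i)) :
    C_Pot_Jet (fun s => ∑ i ∈ S, g i s) (∑ i ∈ S, q i) := by
  classical
  induction S using Finset.induction_on with
  | empty =>
    refine ⟨fun _ => 0, Eventually.of_forall fun s => ?_, ?_⟩
    · simpa using hasDerivAt_const s (0 : ℂ)
    · simpa using hasDerivAt_const (0 : ℂ) (0 : ℂ)
  | insert i S hi ih =>
    refine ((h i (Finset.mem_insert_self i S)).add
      (ih fun j hj => h j (Finset.mem_insert_of_mem hj))).congr ?_ ?_
    · funext s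
      rw [Finset.sum_insert hi]
    · rw [Finset.sum_insert hi]

private theorem C_Pot_term (a l : ℝ) (h0 : 0 < a) (h1 : a < 1) :
    C_Pot_Jet (fun s => ff ((a : ℂ) + s * l)) ((Real.pi * (ct a * l ^ 2) : ℝ) : ℂ) := by
  refine ⟨fun s => hh ((a : ℂ) + s * l) * l, ?_, ?_⟩
  · have hc : Continuous fun s : ℂ => ((a : ℂ) + s * l).re := by fun_prop
    have h2 : ∀ᶠ s in 𝓝 (0 : ℂ), 0 < ((a : ℂ) + s * l).re :=
      hc.continuousAt.eventually (lt_mem_nhds (by simpa using h0))
    have h3 : ∀ᶠ s in 𝓝 (0 : ℂ), ((a : ℂ) + s * l).re < 1 :=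
      hc.continuousAt.eventually (gt_mem_nhds (by simpa using h1))
    filter_upwards [h2, h3] with s hs hs'
    have h4 : HasDerivAt (fun s : ℂ => (a : ℂ) + s * l) (l : ℂ) s := by
      simpa using ((hasDerivAt_id s).mul_const (l : ℂ)).const_add (a : ℂ)
    exact (ff_hasDerivAt _ hs hs').comp s h4
  · have h4 : HasDerivAt (fun s : ℂ => (a : ℂ) + s * l) (l : ℂ) 0 := by
      simpa using ((hasDerivAt_id (0 : ℂ)).mul_const (l : ℂ)).const_add (a : ℂ)
    have h5 := hh_hasDerivAt ((a : ℂ) + 0 * l) (by simpa using h0) (by simpa using h1)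
    have h6 := (h5.comp (0 : ℂ) h4).mul_const (l : ℂ)
    refine h6.congr_deriv ?_
    rw [zero_mul, add_zero, Complex.cot_eq_cos_div_sin]
    unfold ct
    push_cast
    ring

/-! ## the arguments are in the strip -/

private theorem C_Pot_cz_cast (y : ℝ) (k : Fin 4) : cz 1 (y : ℂ) k = ((cz 1 y k : ℝ) : ℂ) := by
  fin_cases k <;> simp [cz]

private theorem C_Pot_cz_line (a t : ℝ) (s : ℂ) (k : Fin 4) :
    cz 1 ((a : ℂ) + s * t) k = ((cz 1 a k : ℝ) : ℂ) + s * ((dz t k : ℝ) : ℂ) := by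
  fin_cases k <;> simp [cz, dz] <;> ring

private theorem C_Pot_cz_cont {α : Type*} [TopologicalSpace α] {f : α → ℂ} (hf : Continuous f)
    (k : Fin 4) : Continuous fun z => cz 1 (f z) k := by
  fin_cases k <;> simp only [cz] <;> simp <;> fun_prop

private def C_Pot_In (F : Finset ℕ) (cor : Fin c → Fin 4 → ℕ) (X : Vr c → ℂ) (v : Fin c → ℂ) :
    Prop :=
  (∀ i, (0 < (X (Sum.inl i)).re ∧ (X (Sum.inl i)).re < 1) ∧
    (0 < (X (Sum.inl i) - 1 / 2 - v i).re ∧ (X (Sum.inl i) - 1 / 2 - v i).re < 1) ∧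
    (0 < (X (Sum.inl i) - 1 / 2 + v i).re ∧ (X (Sum.inl i) - 1 / 2 + v i).re < 1)) ∧
  ∀ p ∈ Nd F cor, (0 < (cz 1 (X (Sum.inl p.1)) p.2).re ∧ (cz 1 (X (Sum.inl p.1)) p.2).re < 1) ∧
    (0 < (X (Sum.inr p)).re ∧ (X (Sum.inr p)).re < 1) ∧
    (0 < (cz 1 (X (Sum.inl p.1)) p.2 - X (Sum.inr p)).re ∧
      (cz 1 (X (Sum.inl p.1)) p.2 - X (Sum.inr p)).re < 1)

private theorem C_Pot_ev {α : Type*} [TopologicalSpace α] (a : α) {f : α → ℂ} (hf : Continuous f)
    (h0 : 0 < (f a).re) (h1 : (f a).re < 1) : ∀ᶠ z in 𝓝 a, 0 < (f z).re ∧ (f z).re < 1 := by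
  have hc : Continuous fun z => (f z).re := by fun_prop
  exact (hc.continuousAt.eventually (lt_mem_nhds h0)).and
    (hc.continuousAt.eventually (gt_mem_nhds h1))

private theorem C_Pot_cz_int (h : IsInt F cor x) (v : Fin c) (k : Fin 4) :
    0 < cz 1 (x (Sum.inl v)) k ∧ cz 1 (x (Sum.inl v)) k < 1 := by
  have h1 := h.half v
  have h2 := h.lt1 v
  fin_cases k <;> simp [cz] <;> constructor <;> linarith

private theorem C_Pot_mem_Nd {p : Fin c × Fin 4} (hp : p ∈ Nd F cor) :
    cor p.1 p.2 ∈ F ∧ ¬ IsEnd F cor p.1 := by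
  classical
  unfold Nd at hp
  simpa using hp

private theorem C_Pot_par_cont (b : Fin d → Vr c → ℤ) (x : Vr c → ℝ) (j : Vr c) :
    Continuous fun z : Ix d c → ℂ => par b x (fun i => z (Sum.inl i)) j := by
  unfold par
  fun_prop

private theorem C_Pot_par_zero (b : Fin d → Vr c → ℤ) (x : Vr c → ℝ) (j : Vr c) :
    par b x (fun i => (0 : Ix d c → ℂ) (Sum.inl i)) j = (x j : ℂ) := by
  unfold par
  simp

private theorem C_Pot_par_zero' (b : Fin d → Vr c → ℤ) (x : Vr c → ℝ) (j : Vr c) :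
    par b x (fun _ => 0) j = (x j : ℂ) := by
  unfold par
  simp

private theorem C_Pot_strip (b : Fin d → Vr c → ℤ) (h : IsInt F cor x) :
    ∀ᶠ z in 𝓝 (0 : Ix d c → ℂ),
      C_Pot_In F cor (par b x (fun i => z (Sum.inl i))) (fun j => z (Sum.inr j)) := by
  refine Filter.Eventually.and ?_ ?_
  · rw [Filter.eventually_all]
    intro v
    have h1 := h.half v
    have h2 := h.lt1 v
    have hc := C_Pot_par_cont b x (Sum.inl v)
    have e := C_Pot_par_zero (d := d) b x (Sum.inl v)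
    have e' := C_Pot_par_zero' (d := d) b x (Sum.inl v)
    refine Filter.Eventually.and ?_ (Filter.Eventually.and ?_ ?_)
    · refine C_Pot_ev (0 : Ix d c → ℂ) (f := fun z => par b x (fun i => z (Sum.inl i)) (Sum.inl v))
        hc ?_ ?_
      · simp only [e, Complex.ofReal_re]
        linarith
      · simp only [e, Complex.ofReal_re]
        linarith
    · refine C_Pot_ev (0 : Ix d c → ℂ)
        (f := fun z => par b x (fun i => z (Sum.inl i)) (Sum.inl v) - 1 / 2 - z (Sum.inr v))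
        (by fun_prop) ?_ ?_
      · simp only [Pi.zero_apply, e', sub_zero, Complex.sub_re, Complex.ofReal_re]
        norm_num
        linarith
      · simp only [Pi.zero_apply, e', sub_zero, Complex.sub_re, Complex.ofReal_re]
        norm_num
        linarith
    · refine C_Pot_ev (0 : Ix d c → ℂ)
        (f := fun z => par b x (fun i => z (Sum.inl i)) (Sum.inl v) - 1 / 2 + z (Sum.inr v))
        (by fun_prop) ?_ ?_
      · simp only [Pi.zero_apply, e', add_zero, Complex.sub_re, Complex.ofReal_re]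
        norm_num
        linarith
      · simp only [Pi.zero_apply, e', add_zero, Complex.sub_re, Complex.ofReal_re]
        norm_num
        linarith
  · rw [Filter.eventually_all_finset]
    rintro ⟨v, k⟩ hp
    obtain ⟨hF, hE⟩ := C_Pot_mem_Nd hp
    have h1 := h.pos v k hF hE
    have h2 := h.lt v k hF hE
    have h3 := C_Pot_cz_int h v k
    have hc := C_Pot_cz_cont (C_Pot_par_cont (d := d) b x (Sum.inl v)) k
    have hc' := C_Pot_par_cont b x (Sum.inr (v, k))
    have e := C_Pot_par_zero (d := d) b x (Sum.inl v)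
    have e' := C_Pot_par_zero (d := d) b x (Sum.inr (v, k))
    refine Filter.Eventually.and ?_ (Filter.Eventually.and ?_ ?_)
    · refine C_Pot_ev (0 : Ix d c → ℂ)
        (f := fun z => cz 1 (par b x (fun i => z (Sum.inl i)) (Sum.inl v)) k) hc ?_ ?_
      · simp only [e, C_Pot_cz_cast, Complex.ofReal_re]
        exact h3.1
      · simp only [e, C_Pot_cz_cast, Complex.ofReal_re]
        exact h3.2
    · refine C_Pot_ev (0 : Ix d c → ℂ)
        (f := fun z => par b x (fun i => z (Sum.inl i)) (Sum.inr (v, k))) hc' ?_ ?_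
      · simp only [e', Complex.ofReal_re]
        exact h1
      · simp only [e', Complex.ofReal_re]
        linarith
    · refine C_Pot_ev (0 : Ix d c → ℂ)
        (f := fun z => cz 1 (par b x (fun i => z (Sum.inl i)) (Sum.inl v)) k -
          par b x (fun i => z (Sum.inl i)) (Sum.inr (v, k))) (hc.sub hc') ?_ ?_
      · simp only [e, e', C_Pot_cz_cast, Complex.sub_re, Complex.ofReal_re]
        linarith
      · simp only [e, e', C_Pot_cz_cast, Complex.sub_re, Complex.ofReal_re]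
        linarith

/-! ## linear equations -/

private theorem C_Pot_cz_add (n m a t : ℝ) (k : Fin 4) :
    cz (n + m) (a + t) k = cz n a k + cz m t k := by
  fin_cases k <;> simp [cz] <;> ring

private theorem C_Pot_lin_sum (hb : IsBas F cor b x0) (w : Fin d → ℝ) :
    IsLin F cor (0 : ℝ) (fun j => ∑ i, w i * (b i j : ℝ)) := by
  constructor
  · intro v
    rw [Finset.sum_comm]
    refine Finset.sum_eq_zero fun i _ => ?_
    rw [← Finset.mul_sum]
    have := (hb.linb i).vert v
    have h2 : (∑ k, (b i (Sum.inr (v, k)) : ℝ)) = 0 := by exact_mod_cast this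
    rw [h2, mul_zero]
  · intro f hf
    have h1 : ∀ v k, (if cor v k = f then ∑ i, w i * (b i (Sum.inr (v, k)) : ℝ) else 0) =
        ∑ i, w i * (if cor v k = f then (b i (Sum.inr (v, k)) : ℝ) else 0) := by
      intro v k
      split_ifs
      · rfl
      · simp
    simp only [h1]
    have h2 : ∀ v, ∑ k, ∑ i, w i * (if cor v k = f then (b i (Sum.inr (v, k)) : ℝ) else 0) =
        ∑ i, w i * ∑ k, (if cor v k = f then (b i (Sum.inr (v, k)) : ℝ) else 0) := by
      intro v
      rw [Finset.sum_comm]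
      simp only [Finset.mul_sum]
    simp only [h2]
    rw [Finset.sum_comm]
    refine Finset.sum_eq_zero fun i _ => ?_
    rw [← Finset.mul_sum]
    have := (hb.linb i).face f hf
    have h3 : (∑ v, ∑ k, (if cor v k = f then (b i (Sum.inr (v, k)) : ℝ) else 0)) = 0 := by
      exact_mod_cast this
    rw [h3, mul_zero]
  · intro v k hk
    refine Finset.sum_eq_zero fun i _ => ?_
    rw [(hb.linb i).out v k hk]
    simp
  · intro v k hE hk
    have h1 : ∀ i, (b i (Sum.inr (v, k)) : ℝ) = cz 0 (b i (Sum.inl v) : ℝ) k := by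
      intro i
      rw [(hb.linb i).endv v k hE hk]
      fin_cases k <;> simp [cz]
    simp only [h1]
    fin_cases k <;> simp [cz, Finset.sum_neg_distrib]

private theorem C_Pot_lin (h : IsInt F cor x) (hb : IsBas F cor b x0) (w : Fin d → ℝ) :
    IsLin F cor (1 : ℝ) (fun j => x j + ∑ i, w i * (b i j : ℝ)) := by
  have h1 := ang_lin h.ang
  have h2 := C_Pot_lin_sum hb w
  constructor
  · intro v
    rw [Finset.sum_add_distrib, h1.vert, h2.vert, add_zero]
  · intro f hf
    have h3 : ∀ v k, (if cor v k = f then x (Sum.inr (v, k)) +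
        ∑ i, w i * (b i (Sum.inr (v, k)) : ℝ) else 0) =
        (if cor v k = f then x (Sum.inr (v, k)) else 0) +
        (if cor v k = f then ∑ i, w i * (b i (Sum.inr (v, k)) : ℝ) else 0) := by
      intro v k
      split_ifs
      · rfl
      · simp
    simp only [h3, Finset.sum_add_distrib]
    rw [h1.face f hf, h2.face f hf, add_zero]
  · intro v k hk
    have h3 : ∑ i, w i * (b i (Sum.inr (v, k)) : ℝ) = 0 := h2.out v k hk
    rw [h1.out v k hk, h3, add_zero]
  · intro v k hE hk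
    have h3 : ∑ i, w i * (b i (Sum.inr (v, k)) : ℝ) =
        cz 0 (∑ i, w i * (b i (Sum.inl v) : ℝ)) k := h2.endv v k hE hk
    rw [h1.endv v k hE hk, h3, ← C_Pot_cz_add, add_zero]

/-! ## real points -/

private theorem C_Pot_par_real (b : Fin d → Vr c → ℤ) (x : Vr c → ℝ) (w : Fin d → ℝ) (j : Vr c) :
    par b x (fun i => (w i : ℂ)) j = ((x j + ∑ i, w i * (b i j : ℝ) : ℝ) : ℂ) := by
  unfold par
  push_cast
  congr 1
  refine Finset.sum_congr rfl fun i _ => ?_
  ring

/-- A point with the linear equations and all real parts in the strip. -/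
private theorem C_Pot_point (y : Vr c → ℝ) (hl : IsLin F cor (1 : ℝ) y)
    (hin : C_Pot_In F cor (fun j => (y j : ℂ)) 0) :
    PotX F cor (fun j => (y j : ℂ)) 0 = ((Uf y : ℝ) : ℂ) ∧ IsAng F cor y := by
  classical
  obtain ⟨h1, h2⟩ := hin
  have hτ : ∀ v, 1 / 2 < y (Sum.inl v) ∧ y (Sum.inl v) < 1 := by
    intro v
    obtain ⟨⟨_, h4⟩, ⟨h5, _⟩, -⟩ := h1 v
    simp only [Pi.zero_apply, sub_zero, Complex.sub_re, Complex.ofReal_re] at h4 h5
    norm_num at h5
    constructor <;> linarith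
  have hcz : ∀ v k, 0 < cz 1 (y (Sum.inl v)) k ∧ cz 1 (y (Sum.inl v)) k < 1 := by
    intro v k
    have := hτ v
    fin_cases k <;> simp [cz] <;> constructor <;> linarith
  have hN : ∀ v k, cor v k ∈ F → ¬ IsEnd F cor v →
      0 < y (Sum.inr (v, k)) ∧ y (Sum.inr (v, k)) < cz 1 (y (Sum.inl v)) k := by
    intro v k hF hE
    have hp : (v, k) ∈ Nd F cor := by
      unfold Nd
      simp [hF, hE]
    obtain ⟨-, ⟨h5, _⟩, ⟨h6, _⟩⟩ := h2 (v, k) hp
    simp only [C_Pot_cz_cast, Complex.sub_re, Complex.ofReal_re] at h5 h6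
    constructor <;> linarith
  constructor
  · have hz : ∀ p : Fin c × Fin 4, p ∉ Nd F cor →
        Fr (cz 1 (y (Sum.inl p.1)) p.2) - Fr (y (Sum.inr p)) -
          Fr (cz 1 (y (Sum.inl p.1)) p.2 - y (Sum.inr p)) = 0 := by
      rintro ⟨v, k⟩ hp
      by_cases hF : cor v k ∈ F
      · by_cases hE : IsEnd F cor v
        · have h3 := hl.endv v k hE hF
          simp only [h3, sub_self, Fr_zero]
        · exact absurd (by unfold Nd; simp [hF, hE]) hp
      · have h3 := hl.out v k hF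
        simp only [h3, sub_zero, Fr_zero, sub_self]
    have hU : Uf y = ∑ v, sl (y (Sum.inl v)) + ∑ p ∈ Nd F cor,
        (Fr (cz 1 (y (Sum.inl p.1)) p.2) - Fr (y (Sum.inr p)) -
          Fr (cz 1 (y (Sum.inl p.1)) p.2 - y (Sum.inr p))) := by
      unfold Uf
      rw [Finset.sum_add_distrib]
      congr 1
      rw [Finset.sum_subset (Finset.subset_univ (Nd F cor)) fun p _ hp => hz p hp,
        Fintype.sum_prod_type]
    rw [hU]
    unfold PotX
    push_cast
    congr 1
    · refine Finset.sum_congr rfl fun v _ => ?_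
      obtain ⟨h3, h4⟩ := hτ v
      have e : (y (Sum.inl v) : ℂ) - 1 / 2 = ((y (Sum.inl v) - 1 / 2 : ℝ) : ℂ) := by push_cast; ring
      rw [Pi.zero_apply, sub_zero, add_zero, e, ff_real _ (by linarith) (by linarith),
        ff_real _ (by linarith) (by linarith)]
      unfold sl
      rw [if_neg (by linarith)]
      push_cast
      ring
    · refine Finset.sum_congr rfl fun p hp => ?_
      obtain ⟨hF, hE⟩ := C_Pot_mem_Nd hp
      obtain ⟨h3, h4⟩ := hN p.1 p.2 hF hE
      obtain ⟨h5, h6⟩ := hcz p.1 p.2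
      change 0 < y (Sum.inr p) at h3
      change y (Sum.inr p) < _ at h4
      unfold cpo
      have e : ((cz 1 (y (Sum.inl p.1)) p.2 : ℝ) : ℂ) - (y (Sum.inr p) : ℂ) =
          ((cz 1 (y (Sum.inl p.1)) p.2 - y (Sum.inr p) : ℝ) : ℂ) := by push_cast; ring
      rw [C_Pot_cz_cast, e, ff_real _ h5 h6, ff_real _ h3 (by linarith),
        ff_real _ (by linarith) (by linarith)]
  · refine ⟨hl.vert, hl.face, hl.out, ?_, ?_⟩
    · intro v k
      by_cases hF : cor v k ∈ F
      · by_cases hE : IsEnd F cor v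
        · rw [hl.endv v k hE hF]
          exact (hcz v k).1.le
        · exact (hN v k hF hE).1.le
      · rw [hl.out v k hF]
    · intro v k
      by_cases hF : cor v k ∈ F
      · by_cases hE : IsEnd F cor v
        · rw [hl.endv v k hE hF]
        · exact (hN v k hF hE).2.le
      · rw [hl.out v k hF]
        exact (hcz v k).1.le

/-- The potential at real points is the growth rate. -/
theorem phi_real (h : IsInt F cor x) (hb : IsBas F cor b x0) : ∃ ε : ℝ, 0 < ε ∧
    ∀ w : Fin d → ℝ, (∀ i, |w i| ≤ ε) →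
      PhiT F cor b x (Sum.elim (fun i => (w i : ℂ)) 0) =
        ((Uf (fun j => x j + ∑ i, w i * (b i j : ℝ)) : ℝ) : ℂ) ∧
      IsAng F cor (fun j => x j + ∑ i, w i * (b i j : ℝ)) := by
  obtain ⟨ε, hε, hball⟩ := Metric.eventually_nhds_iff_ball.mp (C_Pot_strip b h)
  refine ⟨ε / 2, by positivity, fun w hw => ?_⟩
  have hz : (Sum.elim (fun i => (w i : ℂ)) 0 : Ix d c → ℂ) ∈ Metric.ball 0 ε := by
    rw [mem_ball_zero_iff]
    refine lt_of_le_of_lt ((pi_norm_le_iff_of_nonneg (by positivity : (0 : ℝ) ≤ ε / 2)).mpr ?_)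
      (half_lt_self hε)
    rintro (i | j)
    · simpa using hw i
    · simp only [Sum.elim_inr, Pi.zero_apply, norm_zero]
      positivity
  have h1 := hball _ hz
  have e : par b x (fun i => (Sum.elim (fun i => (w i : ℂ)) 0 : Ix d c → ℂ) (Sum.inl i)) =
      fun j => ((x j + ∑ i, w i * (b i j : ℝ) : ℝ) : ℂ) := by
    funext j
    exact C_Pot_par_real b x w j
  have e' : (fun j => (Sum.elim (fun i => (w i : ℂ)) 0 : Ix d c → ℂ) (Sum.inr j)) = 0 := by
    funext j
    simp
  rw [e, e'] at h1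
  unfold PhiT
  rw [e, e']
  exact C_Pot_point _ (C_Pot_lin h hb w) h1

theorem phi_zero (h : IsInt F cor x) (hb : IsBas F cor b x0) :
    PhiT F cor b x 0 = ((Uf x : ℝ) : ℂ) := by
  obtain ⟨ε, hε, h1⟩ := phi_real h hb
  have h2 := (h1 0 (by intro i; simpa using hε.le)).1
  have e : (Sum.elim (fun i => (((0 : Fin d → ℝ) i : ℝ) : ℂ)) 0 : Ix d c → ℂ) = 0 := by
    funext j
    rcases j with j | j <;> simp
  rw [e] at h2
  rw [h2]
  simp

/-! ## evenness, lines -/

private theorem C_Pot_even (z : Ix d c → ℂ) (j : Fin c) :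
    PhiT F cor b x (Function.update z (Sum.inr j) (-z (Sum.inr j))) = PhiT F cor b x z := by
  have e : (fun i : Fin d => Function.update z (Sum.inr j) (-z (Sum.inr j)) (Sum.inl i)) =
      fun i => z (Sum.inl i) := by
    funext i
    rw [Function.update_of_ne (by simp)]
  unfold PhiT
  rw [e]
  unfold PotX
  congr 1
  refine Finset.sum_congr rfl fun i _ => ?_
  by_cases hij : i = j
  · subst hij
    beta_reduce
    rw [Function.update_self]
    rw [sub_neg_eq_add, ← sub_eq_add_neg]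
    ring
  · beta_reduce
    rw [Function.update_of_ne (by simpa using hij)]

private theorem C_Pot_line (y : Ix d c → ℝ) (s : ℂ) :
    PhiT F cor b x (s • cpx y) =
      ∑ v, (2 * ff ((x (Sum.inl v) : ℂ) + s * ((∑ i, y (Sum.inl i) * (b i (Sum.inl v) : ℝ) : ℝ) : ℂ))
        - ff (((x (Sum.inl v) - 1 / 2 : ℝ) : ℂ) +
            s * ((∑ i, y (Sum.inl i) * (b i (Sum.inl v) : ℝ) - y (Sum.inr v) : ℝ) : ℂ))
        - ff (((x (Sum.inl v) - 1 / 2 : ℝ) : ℂ) +
            s * ((∑ i, y (Sum.inl i) * (b i (Sum.inl v) : ℝ) + y (Sum.inr v) : ℝ) : ℂ))) +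
      ∑ p ∈ Nd F cor, (
        ff (((cz 1 (x (Sum.inl p.1)) p.2 : ℝ) : ℂ) +
          s * ((dz (∑ i, y (Sum.inl i) * (b i (Sum.inl p.1) : ℝ)) p.2 : ℝ) : ℂ))
        - ff ((x (Sum.inr p) : ℂ) + s * ((∑ i, y (Sum.inl i) * (b i (Sum.inr p) : ℝ) : ℝ) : ℂ))
        - ff (((cz 1 (x (Sum.inl p.1)) p.2 - x (Sum.inr p) : ℝ) : ℂ) +
          s * ((dz (∑ i, y (Sum.inl i) * (b i (Sum.inl p.1) : ℝ)) p.2 -
            ∑ i, y (Sum.inl i) * (b i (Sum.inr p) : ℝ) : ℝ) : ℂ))) := by
  have e : par b x (fun i => (s • cpx y) (Sum.inl i)) =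
      fun j => (x j : ℂ) + s * ((∑ i, y (Sum.inl i) * (b i j : ℝ) : ℝ) : ℂ) := by
    funext j
    unfold par
    congr 1
    rw [Complex.ofReal_sum, Finset.mul_sum]
    refine Finset.sum_congr rfl fun i _ => ?_
    simp only [Pi.smul_apply, cpx, smul_eq_mul]
    push_cast
    ring
  unfold PhiT
  rw [e]
  unfold PotX
  congr 1
  · refine Finset.sum_congr rfl fun v _ => ?_
    have e1 : (x (Sum.inl v) : ℂ) + s * ((∑ i, y (Sum.inl i) * (b i (Sum.inl v) : ℝ) : ℝ) : ℂ) -
        1 / 2 - (s • cpx y) (Sum.inr v) = ((x (Sum.inl v) - 1 / 2 : ℝ) : ℂ) +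
            s * ((∑ i, y (Sum.inl i) * (b i (Sum.inl v) : ℝ) - y (Sum.inr v) : ℝ) : ℂ) := by
      simp only [Pi.smul_apply, cpx, smul_eq_mul]
      push_cast
      ring
    have e2 : (x (Sum.inl v) : ℂ) + s * ((∑ i, y (Sum.inl i) * (b i (Sum.inl v) : ℝ) : ℝ) : ℂ) -
        1 / 2 + (s • cpx y) (Sum.inr v) = ((x (Sum.inl v) - 1 / 2 : ℝ) : ℂ) +
            s * ((∑ i, y (Sum.inl i) * (b i (Sum.inl v) : ℝ) + y (Sum.inr v) : ℝ) : ℂ) := by
      simp only [Pi.smul_apply, cpx, smul_eq_mul]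
      push_cast
      ring
    rw [e1, e2]
  · refine Finset.sum_congr rfl fun p _ => ?_
    unfold cpo
    rw [C_Pot_cz_line]
    congr 2
    rw [Complex.ofReal_sub, Complex.ofReal_sub]
    ring

private theorem C_Pot_second (h : IsInt F cor x) (y : Ix d c → ℝ) :
    iteratedDeriv 2 (fun s : ℂ => PhiT F cor b x (s • cpx y)) 0 =
      ((Real.pi * (((∑ v, 2 * (ct (x (Sum.inl v)) - ct (x (Sum.inl v) - 1 / 2)) *
          (∑ i, y (Sum.inl i) * (b i (Sum.inl v) : ℝ)) ^ 2) +
        ∑ p ∈ Nd F cor, (ct (cz 1 (x (Sum.inl p.1)) p.2) *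
            (dz (∑ i, y (Sum.inl i) * (b i (Sum.inl p.1) : ℝ)) p.2) ^ 2 -
          ct (x (Sum.inr p)) * (∑ i, y (Sum.inl i) * (b i (Sum.inr p) : ℝ)) ^ 2 -
          ct (cz 1 (x (Sum.inl p.1)) p.2 - x (Sum.inr p)) *
            (dz (∑ i, y (Sum.inl i) * (b i (Sum.inl p.1) : ℝ)) p.2 -
              ∑ i, y (Sum.inl i) * (b i (Sum.inr p) : ℝ)) ^ 2)) -
        2 * ∑ v, ct (x (Sum.inl v) - 1 / 2) * y (Sum.inr v) ^ 2) : ℝ) : ℂ) := by
  apply C_Pot_Jet.iter
  have hJ1 : ∀ v ∈ (Finset.univ : Finset (Fin c)), C_Pot_Jet (fun s : ℂ =>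
      2 * ff ((x (Sum.inl v) : ℂ) + s * ((∑ i, y (Sum.inl i) * (b i (Sum.inl v) : ℝ) : ℝ) : ℂ))
        - ff (((x (Sum.inl v) - 1 / 2 : ℝ) : ℂ) +
            s * ((∑ i, y (Sum.inl i) * (b i (Sum.inl v) : ℝ) - y (Sum.inr v) : ℝ) : ℂ))
        - ff (((x (Sum.inl v) - 1 / 2 : ℝ) : ℂ) +
            s * ((∑ i, y (Sum.inl i) * (b i (Sum.inl v) : ℝ) + y (Sum.inr v) : ℝ) : ℂ)))
      (2 * ((Real.pi * (ct (x (Sum.inl v)) *
          (∑ i, y (Sum.inl i) * (b i (Sum.inl v) : ℝ)) ^ 2) : ℝ) : ℂ) -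
        ((Real.pi * (ct (x (Sum.inl v) - 1 / 2) *
          (∑ i, y (Sum.inl i) * (b i (Sum.inl v) : ℝ) - y (Sum.inr v)) ^ 2) : ℝ) : ℂ) -
        ((Real.pi * (ct (x (Sum.inl v) - 1 / 2) *
          (∑ i, y (Sum.inl i) * (b i (Sum.inl v) : ℝ) + y (Sum.inr v)) ^ 2) : ℝ) : ℂ)) := by
    intro v _
    have h1 := h.half v
    have h2 := h.lt1 v
    exact ((C_Pot_Jet.const_mul 2 (C_Pot_term _ _ (by linarith) (by linarith))).sub
      (C_Pot_term _ _ (by linarith) (by linarith))).sub
      (C_Pot_term _ _ (by linarith) (by linarith))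
  have hJ2 : ∀ p ∈ Nd F cor, C_Pot_Jet (fun s : ℂ =>
        ff (((cz 1 (x (Sum.inl p.1)) p.2 : ℝ) : ℂ) +
          s * ((dz (∑ i, y (Sum.inl i) * (b i (Sum.inl p.1) : ℝ)) p.2 : ℝ) : ℂ))
        - ff ((x (Sum.inr p) : ℂ) + s * ((∑ i, y (Sum.inl i) * (b i (Sum.inr p) : ℝ) : ℝ) : ℂ))
        - ff (((cz 1 (x (Sum.inl p.1)) p.2 - x (Sum.inr p) : ℝ) : ℂ) +
          s * ((dz (∑ i, y (Sum.inl i) * (b i (Sum.inl p.1) : ℝ)) p.2 -
            ∑ i, y (Sum.inl i) * (b i (Sum.inr p) : ℝ) : ℝ) : ℂ)))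
      (((Real.pi * (ct (cz 1 (x (Sum.inl p.1)) p.2) *
            (dz (∑ i, y (Sum.inl i) * (b i (Sum.inl p.1) : ℝ)) p.2) ^ 2) : ℝ) : ℂ) -
          ((Real.pi * (ct (x (Sum.inr p)) *
            (∑ i, y (Sum.inl i) * (b i (Sum.inr p) : ℝ)) ^ 2) : ℝ) : ℂ) -
          ((Real.pi * (ct (cz 1 (x (Sum.inl p.1)) p.2 - x (Sum.inr p)) *
            (dz (∑ i, y (Sum.inl i) * (b i (Sum.inl p.1) : ℝ)) p.2 -
              ∑ i, y (Sum.inl i) * (b i (Sum.inr p) : ℝ)) ^ 2) : ℝ) : ℂ)) := by
    intro p hp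
    obtain ⟨hF, hE⟩ := C_Pot_mem_Nd hp
    have h1 := h.pos p.1 p.2 hF hE
    have h2 := h.lt p.1 p.2 hF hE
    have h3 := C_Pot_cz_int h p.1 p.2
    change 0 < x (Sum.inr p) at h1
    change x (Sum.inr p) < _ at h2
    exact ((C_Pot_term _ _ h3.1 h3.2).sub (C_Pot_term _ _ h1 (by linarith))).sub
      (C_Pot_term _ _ (by linarith) (by linarith))
  refine ((C_Pot_Jet.sum _ hJ1).add (C_Pot_Jet.sum _ hJ2)).congr ?_ ?_
  · funext s
    exact C_Pot_line y s
  · simp only [← Complex.ofReal_sub, ← Complex.ofReal_sum, ← Complex.ofReal_ofNat,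
      ← Complex.ofReal_mul, ← Complex.ofReal_add]
    congr 1
    rw [mul_sub, mul_add, Finset.mul_sum, Finset.mul_sum, ← mul_assoc, Finset.mul_sum,
      add_sub_right_comm, ← Finset.sum_sub_distrib]
    congr 1
    · refine Finset.sum_congr rfl fun v _ => ?_
      ring
    · refine Finset.sum_congr rfl fun p _ => ?_
      ring

private theorem C_Pot_ct_pos (t : ℝ) (h0 : 0 < t) (h1 : t < 1 / 2) : 0 < ct t := by
  unfold ct
  apply div_pos
  · apply Real.cos_pos_of_mem_Ioo
    constructor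
    · nlinarith [Real.pi_pos]
    · nlinarith [Real.pi_pos]
  · apply Real.sin_pos_of_pos_of_lt_pi
    · positivity
    · nlinarith [Real.pi_pos]

private theorem C_Pot_hess (h : IsInt F cor x) (hb : IsBas F cor b x0) (y : Ix d c → ℝ)
    (hy : y ≠ 0) :
    (iteratedDeriv 2 (fun s : ℂ => PhiT F cor b x (s • cpx y)) 0).re < 0 := by
  rw [C_Pot_second h y, Complex.ofReal_re]
  apply mul_neg_of_pos_of_neg Real.pi_pos
  have hv : ∀ v, 0 < ct (x (Sum.inl v) - 1 / 2) := by
    intro v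
    have h1 := h.half v
    have h2 := h.lt1 v
    exact C_Pot_ct_pos _ (by linarith) (by linarith)
  have hnn : 0 ≤ ∑ v, ct (x (Sum.inl v) - 1 / 2) * y (Sum.inr v) ^ 2 :=
    Finset.sum_nonneg fun v _ => mul_nonneg (hv v).le (sq_nonneg _)
  by_cases hY : (fun j : Vr c => ∑ i, y (Sum.inl i) * (b i j : ℝ)) = 0
  · have hY' : ∀ j : Vr c, ∑ i, y (Sum.inl i) * (b i j : ℝ) = 0 := fun j => congrFun hY j
    have hw := hb.inj (fun i => y (Sum.inl i)) hY'
    simp only [hY']
    have hdz : ∀ k : Fin 4, dz 0 k = 0 := by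
      intro k
      fin_cases k <;> simp [dz]
    simp only [hdz]
    norm_num
    have hex : ∃ v, y (Sum.inr v) ≠ 0 := by
      by_contra hcon
      push Not at hcon
      apply hy
      funext j
      rcases j with i | v
      · exact congrFun hw i
      · exact hcon v
    obtain ⟨v, hne⟩ := hex
    refine Finset.sum_pos' (fun v _ => mul_nonneg ?_ (sq_nonneg _)) ⟨v, Finset.mem_univ v, ?_⟩
    · have := (hv v).le
      norm_num at this
      exact this
    · have := hv v
      norm_num at this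
      exact mul_pos this (by positivity)
  · have h1 := quad_neg h (fun j : Vr c => ∑ i, y (Sum.inl i) * (b i j : ℝ))
      (C_Pot_lin_sum hb _) hY
    linarith

/-! ## analyticity and criticality -/

private theorem C_Pot_ff_an (w : ℂ) (h : 0 < w.re ∧ w.re < 1) : AnalyticAt ℂ ff w := by
  have ho : IsOpen {w : ℂ | 0 < w.re ∧ w.re < 1} :=
    (isOpen_lt continuous_const Complex.continuous_re).inter
      (isOpen_lt Complex.continuous_re continuous_const)
  have hd : DifferentiableOn ℂ ff {w : ℂ | 0 < w.re ∧ w.re < 1} := fun z hz =>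
    (ff_hasDerivAt z hz.1 hz.2).differentiableAt.differentiableWithinAt
  exact hd.analyticAt (ho.mem_nhds h)

private theorem C_Pot_comp {f : (Ix d c → ℂ) → ℂ} (z : Ix d c → ℂ) (hf : AnalyticAt ℂ f z)
    (h : 0 < (f z).re ∧ (f z).re < 1) : AnalyticAt ℂ (fun z => ff (f z)) z :=
  (C_Pot_ff_an _ h).comp hf

private theorem C_Pot_coord_an (z : Ix d c → ℂ) (j : Ix d c) :
    AnalyticAt ℂ (fun z : Ix d c → ℂ => z j) z :=
  (ContinuousLinearMap.proj (R := ℂ) (φ := fun _ : Ix d c => ℂ) j).analyticAt z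

private theorem C_Pot_par_an (b : Fin d → Vr c → ℤ) (x : Vr c → ℝ) (j : Vr c) (z : Ix d c → ℂ) :
    AnalyticAt ℂ (fun z : Ix d c → ℂ => par b x (fun i => z (Sum.inl i)) j) z := by
  unfold par
  refine analyticAt_const.add ?_
  exact Finset.analyticAt_fun_sum _ fun i _ => analyticAt_const.mul (C_Pot_coord_an z (Sum.inl i))

private theorem C_Pot_cz_an {f : (Ix d c → ℂ) → ℂ} (z : Ix d c → ℂ) (hf : AnalyticAt ℂ f z)
    (k : Fin 4) : AnalyticAt ℂ (fun z => cz 1 (f z) k) z := by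
  fin_cases k
  · exact analyticAt_const.sub hf
  · exact hf
  · exact analyticAt_const.sub hf
  · exact hf

private theorem C_Pot_an (z : Ix d c → ℂ)
    (h : C_Pot_In F cor (par b x (fun i => z (Sum.inl i))) (fun j => z (Sum.inr j))) :
    AnalyticAt ℂ (PhiT F cor b x) z := by
  obtain ⟨h1, h2⟩ := h
  unfold PhiT PotX
  refine AnalyticAt.add ?_ ?_
  · refine Finset.analyticAt_fun_sum _ fun v _ => ?_
    obtain ⟨h3, h4, h5⟩ := h1 v
    have ha := C_Pot_par_an b x (Sum.inl v) z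
    refine ((analyticAt_const.mul (C_Pot_comp z ha h3)).sub
      (C_Pot_comp z ((ha.sub analyticAt_const).sub (C_Pot_coord_an z (Sum.inr v))) h4)).sub
      (C_Pot_comp z ((ha.sub analyticAt_const).add (C_Pot_coord_an z (Sum.inr v))) h5)
  · refine Finset.analyticAt_fun_sum _ fun p hp => ?_
    obtain ⟨h3, h4, h5⟩ := h2 p hp
    have ha := C_Pot_cz_an z (C_Pot_par_an b x (Sum.inl p.1) z) p.2
    have hb := C_Pot_par_an b x (Sum.inr p) z
    unfold cpo
    exact ((C_Pot_comp z ha h3).sub (C_Pot_comp z hb h4)).sub (C_Pot_comp z (ha.sub hb) h5)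

private theorem C_Pot_im (y : Vr c → ℝ) (v : Fin c → ℝ)
    (h : C_Pot_In F cor (fun j => (y j : ℂ)) (fun j => (v j : ℂ))) :
    (PotX F cor (fun j => (y j : ℂ)) (fun j => (v j : ℂ))).im = 0 := by
  obtain ⟨h1, h2⟩ := h
  have key : ∀ w : ℝ, 0 < ((w : ℂ)).re → ((w : ℂ)).re < 1 → (ff (w : ℂ)).im = 0 := by
    intro w h3 h4
    rw [ff_real w (by simpa using h3) (by simpa using h4), Complex.ofReal_im]
  unfold PotX
  rw [Complex.add_im, Complex.im_sum, Complex.im_sum]
  have z1 : ∀ i, (2 * ff (y (Sum.inl i) : ℂ) - ff ((y (Sum.inl i) : ℂ) - 1 / 2 - (v i : ℂ)) -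
      ff ((y (Sum.inl i) : ℂ) - 1 / 2 + (v i : ℂ))).im = 0 := by
    intro i
    obtain ⟨h3, h4, h5⟩ := h1 i
    have e1 : (y (Sum.inl i) : ℂ) - 1 / 2 - (v i : ℂ) = ((y (Sum.inl i) - 1 / 2 - v i : ℝ) : ℂ) := by
      push_cast; ring
    have e2 : (y (Sum.inl i) : ℂ) - 1 / 2 + (v i : ℂ) = ((y (Sum.inl i) - 1 / 2 + v i : ℝ) : ℂ) := by
      push_cast; ring
    rw [e1] at h4
    rw [e2] at h5
    rw [e1, e2, Complex.sub_im, Complex.sub_im, key _ h4.1 h4.2, key _ h5.1 h5.2, Complex.mul_im,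
      key _ h3.1 h3.2]
    simp
  have z2 : ∀ p ∈ Nd F cor, (cpo (cz 1 (y (Sum.inl p.1) : ℂ) p.2) (y (Sum.inr p) : ℂ)).im = 0 := by
    intro p hp
    obtain ⟨h3, h4, h5⟩ := h2 p hp
    rw [C_Pot_cz_cast] at h3 h5
    rw [← Complex.ofReal_sub] at h5
    unfold cpo
    rw [C_Pot_cz_cast, ← Complex.ofReal_sub, Complex.sub_im, Complex.sub_im, key _ h3.1 h3.2,
      key _ h4.1 h4.2, key _ h5.1 h5.2]
    simp
  rw [Finset.sum_eq_zero fun i _ => z1 i, Finset.sum_eq_zero z2, add_zero]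

private theorem C_Pot_crit (h : IsMaxN F cor x) (hb : IsBas F cor b x0)
    (hd : DifferentiableAt ℂ (PhiT F cor b x) 0) : fderiv ℂ (PhiT F cor b x) 0 = 0 := by
  have hline : ∀ e : Ix d c → ℂ, HasDerivAt (fun s : ℂ => PhiT F cor b x (s • e))
      (fderiv ℂ (PhiT F cor b x) 0 e) 0 := by
    intro e
    have h1 : HasDerivAt (fun s : ℂ => s • e) e 0 := by
      simpa using (hasDerivAt_id (0 : ℂ)).smul_const e
    have h2 : HasFDerivAt (PhiT F cor b x) (fderiv ℂ (PhiT F cor b x) 0) ((0 : ℂ) • e) := by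
      rw [zero_smul]
      exact hd.hasFDerivAt
    exact h2.comp_hasDerivAt (0 : ℂ) h1
  have hbasis : ∀ j : Ix d c, fderiv ℂ (PhiT F cor b x) 0 (Pi.single j 1) = 0 := by
    rintro (i | j)
    · have h1 := (hline (Pi.single (Sum.inl i) 1)).comp_ofReal
      obtain ⟨ε, hε, hr⟩ := phi_real h.int hb
      have hval : ∀ s : ℝ, |s| ≤ ε → PhiT F cor b x ((s : ℂ) • Pi.single (Sum.inl i) 1) =
          ((Uf (fun j => x j + ∑ l, (Pi.single i s : Fin d → ℝ) l * (b l j : ℝ)) : ℝ) : ℂ) ∧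
          IsAng F cor (fun j => x j + ∑ l, (Pi.single i s : Fin d → ℝ) l * (b l j : ℝ)) := by
        intro s hs
        have h2 := hr (Pi.single i s) (by
          intro l
          by_cases hl : l = i
          · subst hl
            rw [Pi.single_eq_same]
            exact hs
          · rw [Pi.single_eq_of_ne hl, abs_zero]
            exact hε.le)
        have e : (Sum.elim (fun l => ((Pi.single i s : Fin d → ℝ) l : ℂ)) 0 : Ix d c → ℂ) =
            (s : ℂ) • Pi.single (Sum.inl i) 1 := by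
          funext j
          rcases j with l | j
          · by_cases hl : l = i
            · subst hl
              simp
            · simp [Pi.single_apply, hl]
          · simp [Pi.single_apply]
        rw [e] at h2
        exact h2
      have hre : HasDerivAt (fun s : ℝ => (PhiT F cor b x ((s : ℂ) • Pi.single (Sum.inl i) 1)).re)
          (fderiv ℂ (PhiT F cor b x) 0 (Pi.single (Sum.inl i) 1)).re 0 := by
        have := (Complex.reCLM.hasFDerivAt.comp_hasDerivAt (0 : ℝ) h1)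
        simpa [Function.comp_def] using this
      have him : HasDerivAt (fun s : ℝ => (PhiT F cor b x ((s : ℂ) • Pi.single (Sum.inl i) 1)).im)
          (fderiv ℂ (PhiT F cor b x) 0 (Pi.single (Sum.inl i) 1)).im 0 := by
        have := (Complex.imCLM.hasFDerivAt.comp_hasDerivAt (0 : ℝ) h1)
        simpa [Function.comp_def] using this
      have hnear : ∀ᶠ s in 𝓝 (0 : ℝ), |s| ≤ ε := by
        have : ∀ᶠ s in 𝓝 (0 : ℝ), s ∈ Metric.ball (0 : ℝ) ε := Metric.ball_mem_nhds 0 hε
        filter_upwards [this] with s hs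
        rw [mem_ball_zero_iff, Real.norm_eq_abs] at hs
        exact hs.le
      have hz0 : PhiT F cor b x (((0 : ℝ) : ℂ) • Pi.single (Sum.inl i) 1) = ((Uf x : ℝ) : ℂ) := by
        rw [Complex.ofReal_zero, zero_smul]
        exact phi_zero h.int hb
      apply Complex.ext
      · rw [Complex.zero_re]
        refine IsLocalMax.hasDerivAt_eq_zero ?_ hre
        have hhalf : ∀ᶠ s in 𝓝 (0 : ℝ), ∀ v : Fin c, 1 / 2 ≤ x (Sum.inl v) +
            ∑ l, (Pi.single i s : Fin d → ℝ) l * (b l (Sum.inl v) : ℝ) := by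
          rw [Filter.eventually_all]
          intro v
          have e : ∀ s : ℝ, x (Sum.inl v) +
              ∑ l, (Pi.single i s : Fin d → ℝ) l * (b l (Sum.inl v) : ℝ) =
              x (Sum.inl v) + s * (b i (Sum.inl v) : ℝ) := by
            intro s
            rw [Finset.sum_eq_single i]
            · rw [Pi.single_eq_same]
            · intro l _ hl
              rw [Pi.single_eq_of_ne hl, zero_mul]
            · intro hi
              exact absurd (Finset.mem_univ i) hi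
          have hc : Continuous fun s : ℝ => x (Sum.inl v) + s * (b i (Sum.inl v) : ℝ) := by
            fun_prop
          have h6 : ∀ᶠ s in 𝓝 (0 : ℝ), 1 / 2 < x (Sum.inl v) + s * (b i (Sum.inl v) : ℝ) := by
            refine hc.continuousAt.eventually_const_lt ?_
            show 1 / 2 < x (Sum.inl v) + 0 * (b i (Sum.inl v) : ℝ)
            rw [zero_mul, add_zero]
            exact h.int.half v
          filter_upwards [h6] with s hs
          rw [e]
          exact hs.le
        filter_upwards [hnear, hhalf] with s hs hh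
        obtain ⟨h3, h4⟩ := hval s hs
        rw [h3, hz0, Complex.ofReal_re, Complex.ofReal_re]
        exact Uf_le h _ h4 hh
      · rw [Complex.zero_im]
        have h5 : HasDerivAt (fun _ : ℝ => (0 : ℝ)) 0 0 := hasDerivAt_const _ _
        refine him.unique (h5.congr_of_eventuallyEq ?_)
        filter_upwards [hnear] with s hs
        rw [(hval s hs).1, Complex.ofReal_im]
    · have h1 := hline (Pi.single (Sum.inr j) 1)
      have h2 : HasDerivAt (fun s : ℂ => PhiT F cor b x ((-s) • Pi.single (Sum.inr j) 1))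
          (-(fderiv ℂ (PhiT F cor b x) 0 (Pi.single (Sum.inr j) 1))) 0 := by
        have h3 : HasDerivAt (fun s : ℂ => -s) (-1) 0 := hasDerivAt_neg 0
        have h4 : HasDerivAt (fun s : ℂ => PhiT F cor b x (s • Pi.single (Sum.inr j) 1))
          (fderiv ℂ (PhiT F cor b x) 0 (Pi.single (Sum.inr j) 1)) (-(0 : ℂ)) := by
          rw [neg_zero]
          exact h1
        have h5 := h4.comp (0 : ℂ) h3
        simpa [Function.comp_def] using h5
      have h3 : (fun s : ℂ => PhiT F cor b x ((-s) • Pi.single (Sum.inr j) 1)) =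
          fun s : ℂ => PhiT F cor b x (s • Pi.single (Sum.inr j) 1) := by
        funext s
        rw [← C_Pot_even (F := F) (cor := cor) (b := b) (x := x)
          (s • Pi.single (Sum.inr j) 1 : Ix d c → ℂ) j]
        congr 1
        funext l
        by_cases hl : l = Sum.inr j
        · subst hl
          simp
        · rw [Function.update_of_ne hl]
          simp [hl]
      rw [h3] at h2
      have h4 := h1.unique h2
      exact self_eq_neg.mp h4
  ext z
  have h1 := LinearMap.pi_apply_eq_sum_univ (fderiv ℂ (PhiT F cor b x) 0).toLinearMap z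
  have h2 : ∀ j : Ix d c, (fderiv ℂ (PhiT F cor b x) 0).toLinearMap
      (fun l => if j = l then (1 : ℂ) else 0) = 0 := by
    intro j
    have e : (fun l => if j = l then (1 : ℂ) else 0) = (Pi.single j 1 : Ix d c → ℂ) := by
      funext l
      rw [Pi.single_apply]
      by_cases hl : j = l
      · rw [if_pos hl, if_pos hl.symm]
      · rw [if_neg hl, if_neg (Ne.symm hl)]
    rw [e]
    exact hbasis j
  simp only [h2, smul_zero, Finset.sum_const_zero] at h1
  exact h1

theorem phi_ok (h : IsMaxN F cor x) (hb : IsBas F cor b x0) :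
    ∃ ε : ℝ, PotOK (PhiT F cor b x) ε := by
  obtain ⟨ε, hε, hball⟩ := Metric.eventually_nhds_iff_ball.mp (C_Pot_strip b h.int)
  have hsub : ∀ z : Ix d c → ℂ, z ∈ Metric.closedBall (0 : Ix d c → ℂ) (ε / 2) →
      z ∈ Metric.ball (0 : Ix d c → ℂ) ε := fun z hz =>
    Metric.closedBall_subset_ball (half_lt_self hε) hz
  have han : AnalyticOnNhd ℂ (PhiT F cor b x) (Metric.closedBall 0 (ε / 2)) := fun z hz =>
    C_Pot_an z (hball z (hsub z hz))
  refine ⟨ε / 2, by positivity, han, ?_, ?_, ?_, ?_⟩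
  · intro y hy
    have hz : cpx y ∈ Metric.ball (0 : Ix d c → ℂ) ε := by
      apply hsub
      rw [mem_closedBall_zero_iff, pi_norm_le_iff_of_nonneg (by positivity)]
      intro i
      simp only [cpx, Complex.norm_real, Real.norm_eq_abs]
      exact hy i
    have h1 := hball _ hz
    have e : par b x (fun i => cpx y (Sum.inl i)) =
        fun j => ((x j + ∑ i, y (Sum.inl i) * (b i j : ℝ) : ℝ) : ℂ) := by
      funext j
      exact C_Pot_par_real b x (fun i => y (Sum.inl i)) j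
    rw [e] at h1
    unfold PhiT
    rw [e]
    exact C_Pot_im _ (fun j => y (Sum.inr j)) h1
  · refine C_Pot_crit h hb (han 0 ?_).differentiableAt
    rw [mem_closedBall_zero_iff, norm_zero]
    positivity
  · exact fun y hy => C_Pot_hess h.int hb y hy
  · exact fun z _ j => C_Pot_even z j

end Pool.Agent.H63.CLK
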