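import Pool.Agent.H63.CLK.C_Lat
import Pool.Agent.H63.CLK.C_Naive

/-!
# The sum over the states and the sum over the lattice points of a box

Every state is `Xm` of a unique `m` (`state_lin`, `Xm_surj`, `Xm_inj`); for `m` in the box it is a state
(`box_facts`), for the other states `gap` gives the bound (`Xp_ang`). The number of all pairs `(t, s)`
is at most `(N + 1) ^ (5 c)`.
-/

set_option autoImplicit false

namespace Pool.Agent.H63.CLK

open Pool.Agent.H63.VC hiding ext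
open Pool.Agent.H63.VC3 Pool.Agent.H63.VC4 Pool.Agent.H63.VC7 Complex Filter Topology
open scoped BigOperators

variable {c d : ℕ} {F : Finset ℕ} {cor : Fin c → Fin 4 → ℕ} {x : Vr c → ℝ}
  {b : Fin d → Vr c → ℤ} {x0 : Vr c → ℤ} {o : Fin d → ℝ}

open Classical in
/-- The set of all states. -/
private noncomputable def C_Split_T {c : ℕ} (F : Finset ℕ) (cor : Fin c → Fin 4 → ℕ) (N : ℕ) :
    Finset (Σ _ : Fin c → ℕ, Fin c → Fin 4 → ℕ) :=
  ((Fintype.piFinset (fun _ : Fin c => Finset.range (N + 1))).sigma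
    (fun t => Fintype.piFinset (fun v : Fin c => Fintype.piFinset
      (fun k : Fin 4 => Finset.range (csz N (t v) k + 1))))).filter (fun p => IsState F cor N p.2)

private theorem C_Split_mem {N : ℕ} {p : Σ _ : Fin c → ℕ, Fin c → Fin 4 → ℕ} :
    p ∈ C_Split_T F cor N ↔
      (∀ v, p.1 v ≤ N) ∧ (∀ v k, p.2 v k ≤ csz N (p.1 v) k) ∧ IsState F cor N p.2 := by
  simp only [C_Split_T, Finset.mem_filter, Finset.mem_sigma, Fintype.mem_piFinset,
    Finset.mem_range, Nat.lt_succ_iff, and_assoc]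

private theorem C_Split_sum (N : ℕ) (g : (Fin c → ℕ) → (Fin c → Fin 4 → ℕ) → ℂ) :
    stSum F cor N g = ∑ p ∈ C_Split_T F cor N, g p.1 p.2 := by
  unfold stSum C_Split_T
  rw [Finset.sum_filter, Finset.sum_sigma']

private theorem C_Split_csz_le (N t : ℕ) (k : Fin 4) (ht : t ≤ N) : csz N t k ≤ N := by
  fin_cases k <;> simp [csz, ht]

private theorem C_Split_card (N : ℕ) : (C_Split_T F cor N).card ≤ (N + 1) ^ (5 * c) := by
  classical
  unfold C_Split_T
  refine (Finset.card_filter_le _ _).trans ?_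
  rw [Finset.card_sigma]
  have h1 : ∀ t ∈ Fintype.piFinset (fun _ : Fin c => Finset.range (N + 1)),
      (Fintype.piFinset (fun v : Fin c => Fintype.piFinset
        (fun k : Fin 4 => Finset.range (csz N (t v) k + 1)))).card ≤ (N + 1) ^ (4 * c) := by
    intro t ht
    rw [Fintype.mem_piFinset] at ht
    rw [Fintype.card_piFinset, mul_comm 4 c]
    have h2 : ∀ v ∈ (Finset.univ : Finset (Fin c)), (Fintype.piFinset
        (fun k : Fin 4 => Finset.range (csz N (t v) k + 1))).card ≤ (N + 1) ^ 4 := by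
      intro v _
      rw [Fintype.card_piFinset]
      have h3 : ∀ k ∈ (Finset.univ : Finset (Fin 4)),
          (Finset.range (csz N (t v) k + 1)).card ≤ N + 1 := by
        intro k _
        rw [Finset.card_range]
        have := C_Split_csz_le N (t v) k (by have := Finset.mem_range.1 (ht v); omega)
        omega
      refine (Finset.prod_le_prod' h3).trans (le_of_eq ?_)
      rw [Finset.prod_const, Finset.card_univ, Fintype.card_fin]
    refine (Finset.prod_le_prod' h2).trans (le_of_eq ?_)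
    rw [Finset.prod_const, Finset.card_univ, Fintype.card_fin, ← pow_mul, mul_comm 4 c]
  refine (Finset.sum_le_sum h1).trans (le_of_eq ?_)
  rw [Finset.sum_const, Fintype.card_piFinset, Finset.prod_const, Finset.card_range,
    Finset.card_univ, Fintype.card_fin, smul_eq_mul, ← pow_add]
  congr 1
  ring

theorem split (h : IsMaxN F cor x) (hb : IsBas F cor b x0)
    (ho : ∀ j, x j = x0 j + ∑ i, o i * (b i j : ℝ)) : ∃ δ0 : ℝ, 0 < δ0 ∧ ∀ δ : ℝ, 0 < δ → δ ≤ δ0 →
    ∃ c0 : ℝ, 0 < c0 ∧ ∀ (f : ℕ → (Fin c → ℕ) → (Fin c → Fin 4 → ℕ) → ℂ) (C : ℝ) (D : ℕ), 0 < C →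
    (∀ N t s, (∃ v, 2 * t v < N) → f N t s = 0) →
    (∀ N t s, (∀ v, t v ≤ N) → (∀ v k, s v k ≤ csz N (t v) k) →
      ‖f N t s‖ ≤ C * ((N + 1 : ℕ) : ℝ) ^ D * Real.exp (((N + 1 : ℕ) : ℝ) * Uf (Xp x N t s))) →
    ∃ C' : ℝ, 0 < C' ∧ ∃ D' N0 : ℕ, ∀ N : ℕ, N0 ≤ N →
      ‖stSum F cor N (f N) -
          ∑ m ∈ latBox (N + 1) (oM o N) δ, f N (tm b x0 N m) (sm b x0 N m)‖ ≤
        C' * ((N + 1 : ℕ) : ℝ) ^ D' * Real.exp (((N + 1 : ℕ) : ℝ) * (Uf x - c0)) := by
  obtain ⟨δ0, hδ0, N0, hbox⟩ := box_facts h.int hb ho 1 one_pos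
  refine ⟨δ0, hδ0, fun δ hδ hδ' => ?_⟩
  obtain ⟨c0, hc0, hgap⟩ := gap h b x0 hb δ hδ
  refine ⟨c0, hc0, fun f C D hC hf0 hf => ⟨C, hC, D + 5 * c, N0, fun N hN => ?_⟩⟩
  have hM0 : (0 : ℝ) < ((N + 1 : ℕ) : ℝ) := by positivity
  have hbN := fun m hm => hbox δ N hδ' hN m hm
  classical
  set P : (Fin d → ℤ) → (Σ _ : Fin c → ℕ, Fin c → Fin 4 → ℕ) :=
    fun m => ⟨tm b x0 N m, sm b x0 N m⟩ with hP
  have hinj : Set.InjOn P (latBox (N + 1) (oM o N) δ : Finset (Fin d → ℤ)) := by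
    intro m hm m' hm' hmm
    have hm1 := hbN m hm
    have hm2 := hbN m' hm'
    have e1 : tm b x0 N m = tm b x0 N m' := congrArg Sigma.fst hmm
    have e2 : sm b x0 N m = sm b x0 N m' :=
      congrArg (fun p : (Σ _ : Fin c → ℕ, Fin c → Fin 4 → ℕ) => p.2) hmm
    apply Xm_inj hb N m m'
    funext j
    rcases j with v | ⟨v, k⟩
    · rw [← (hm1.2.2.1 v).1, ← (hm2.2.2.1 v).1, e1]
    · rw [← hm1.2.2.2.2.2.1 v k, ← hm2.2.2.2.2.2.1 v k, e2]
  have himg : (latBox (N + 1) (oM o N) δ).image P ⊆ C_Split_T F cor N := by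
    intro p hp
    obtain ⟨m, hm, rfl⟩ := Finset.mem_image.1 hp
    have hm1 := hbN m hm
    exact C_Split_mem.2 ⟨fun v => (hm1.2.2.1 v).2, hm1.2.2.2.2.1, hm1.2.2.2.1⟩
  have hsum : ∑ m ∈ latBox (N + 1) (oM o N) δ, f N (tm b x0 N m) (sm b x0 N m) =
      ∑ p ∈ (latBox (N + 1) (oM o N) δ).image P, f N p.1 p.2 := by
    rw [Finset.sum_image hinj]
  rw [C_Split_sum, hsum, ← Finset.sum_sdiff himg, add_sub_cancel_right]
  have hterm : ∀ p ∈ C_Split_T F cor N \ (latBox (N + 1) (oM o N) δ).image P,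
      ‖f N p.1 p.2‖ ≤ C * ((N + 1 : ℕ) : ℝ) ^ D * Real.exp (((N + 1 : ℕ) : ℝ) * (Uf x - c0)) := by
    rintro ⟨t, s⟩ hp
    obtain ⟨hpT, hpI⟩ := Finset.mem_sdiff.1 hp
    obtain ⟨ht, hs, hst⟩ := C_Split_mem.1 hpT
    simp only at ht hs hst
    have hlin := state_lin (F := F) (cor := cor) N t s ht hst hs
    obtain ⟨m, hm⟩ := Xm_surj hb N _ hlin
    have hm1 : ∀ v, Xm b x0 N m (Sum.inl v) = (t v : ℤ) := fun v => by rw [← hm]; rfl
    have hm2 : ∀ v k, Xm b x0 N m (Sum.inr (v, k)) = (s v k : ℤ) := fun v k => by rw [← hm]; rfl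
    have hmbox : m ∉ latBox (N + 1) (oM o N) δ := by
      intro hmb
      apply hpI
      refine Finset.mem_image.2 ⟨m, hmb, ?_⟩
      have e1 : tm b x0 N m = t := by
        funext v
        simp only [tm, hm1, Int.toNat_natCast]
      have e2 : sm b x0 N m = s := by
        funext v k
        simp only [sm, hm2, Int.toNat_natCast]
      rw [hP]
      simp only [e1, e2]
    have hX : Xp x N t s =
        fun j => x j + ∑ i, ((m i : ℝ) / ((N + 1 : ℕ) : ℝ) - oM o N i) * (b i j : ℝ) := by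
      funext j
      rw [← Xm_eq ho N m j]
      rcases j with v | ⟨v, k⟩
      · rw [hm1]
        simp [Xp]
      · rw [hm2]
        simp [Xp]
    by_cases hhalf : ∃ v, 2 * t v < N
    · rw [hf0 N t s hhalf, norm_zero]
      positivity
    push Not at hhalf
    have hang := Xp_ang h.int N t s ht hst hs
    have hh : ∀ v, 1 / 2 ≤ Xp x N t s (Sum.inl v) := by
      intro v
      have h1 := h.int.half v
      have h2 : (N : ℝ) ≤ 2 * t v := by exact_mod_cast hhalf v
      simp only [Xp, Sum.elim_inl]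
      rw [le_div_iff₀ hM0]
      push_cast
      linarith
    rw [hX] at hang hh
    have hex : ∃ i, δ ≤ |(m i : ℝ) / ((N + 1 : ℕ) : ℝ) - oM o N i| := by
      by_contra hcon
      push Not at hcon
      apply hmbox
      unfold latBox
      rw [Fintype.mem_piFinset]
      intro i
      have h3 := abs_lt.1 (hcon i)
      rw [Finset.mem_Icc]
      constructor
      · rw [Int.ceil_le]
        have h4 : oM o N i - δ ≤ (m i : ℝ) / ((N + 1 : ℕ) : ℝ) := by linarith [h3.1]
        rw [le_div_iff₀ hM0] at h4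
        linarith
      · rw [Int.le_floor]
        have h4 : (m i : ℝ) / ((N + 1 : ℕ) : ℝ) ≤ oM o N i + δ := by linarith [h3.2]
        rw [div_le_iff₀ hM0] at h4
        linarith
    have hU := hgap (fun i => (m i : ℝ) / ((N + 1 : ℕ) : ℝ) - oM o N i) hang hh hex
    refine (hf N t s ht hs).trans ?_
    rw [hX]
    refine mul_le_mul_of_nonneg_left (Real.exp_le_exp.2 ?_) (by positivity)
    exact mul_le_mul_of_nonneg_left hU hM0.le
  refine (norm_sum_le _ _).trans ((Finset.sum_le_sum hterm).trans ?_)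
  rw [Finset.sum_const, nsmul_eq_mul]
  have hcard : (((C_Split_T F cor N \ (latBox (N + 1) (oM o N) δ).image P).card : ℕ) : ℝ) ≤
      ((N + 1 : ℕ) : ℝ) ^ (5 * c) := by
    have := (Finset.card_le_card (Finset.sdiff_subset :
      C_Split_T F cor N \ (latBox (N + 1) (oM o N) δ).image P ⊆ _)).trans
      (C_Split_card (F := F) (cor := cor) N)
    exact_mod_cast this
  calc _ ≤ ((N + 1 : ℕ) : ℝ) ^ (5 * c) *
        (C * ((N + 1 : ℕ) : ℝ) ^ D * Real.exp (((N + 1 : ℕ) : ℝ) * (Uf x - c0))) :=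
        mul_le_mul_of_nonneg_right hcard (by positivity)
    _ = _ := by
        rw [pow_add]
        ring

end Pool.Agent.H63.CLK
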