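import Pool.Agent.H63.CLK.C_Lat
import Pool.Agent.H63.CLK.C_Naive

/-!
# The lattice sum of integrals

At a lattice point `par .. (inl v) = (t v + x (inl v)) / M`, so the first argument of `VX` is
`(t v + 1) / M - 1 / 2 = yk 2 M (t v)` (`VX_nat`); the arguments of `CX` satisfy `M ν + b1 = csz N t k`,
`M σ + b2 = s` (`CX_nat`, `qbin_qz`); `qbin q n 0 = qbin q n n = 1` at the degenerate corners (use
`end_corners` of C_Birk: at an end vertex `s = 0` or `s = csz`). The product of the integrals over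
`Ioc (-δ) δ` is the integral over `Bc c δ` (`MeasureTheory.integral_fintype_prod_eq_prod`,
`Measure.restrict_pi_pi`; intervalIntegral to set integral: `intervalIntegral.integral_of_le`).
-/

set_option autoImplicit false

namespace Pool.Agent.H63.CLK

open Pool.Agent.H63.VC hiding ext
open Pool.Agent.H63.VC3 Pool.Agent.H63.VC4 Pool.Agent.H63.VC7 Complex Filter Topology
open scoped BigOperators

variable {c d : ℕ} {F : Finset ℕ} {cor : Fin c → Fin 4 → ℕ} {x : Vr c → ℝ}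
  {b : Fin d → Vr c → ℤ} {x0 : Vr c → ℤ} {o : Fin d → ℝ}

open Classical in
private theorem C_Sum_mem_Nd (p : Fin c × Fin 4) :
    p ∈ Nd F cor ↔ cor p.1 p.2 ∈ F ∧ ¬ IsEnd F cor p.1 := by
  unfold Nd
  rw [Finset.mem_filter]
  exact ⟨fun hq => hq.2, fun hq => ⟨Finset.mem_univ _, hq⟩⟩

/-- The product of one dimensional integrals. -/
private theorem C_Sum_prod (c : ℕ) (δ : ℝ) (hδ : 0 < δ) (f : Fin c → ℝ → ℂ) (C : ℂ) :
    ∫ a in Bc c δ, (∏ v, f v (a v)) * C = (∏ v, ∫ u in (-δ)..δ, f v u) * C := by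
  rw [MeasureTheory.integral_mul_const]
  congr 1
  unfold Bc
  rw [MeasureTheory.volume_pi, MeasureTheory.Measure.restrict_pi_pi,
    MeasureTheory.integral_fintype_prod_eq_prod]
  refine Finset.prod_congr rfl fun v _ => ?_
  rw [intervalIntegral.integral_of_le (by linarith)]

/-- The size of a corner at a natural number, over the integers. -/
private theorem C_Sum_csz (N t : ℕ) (ht : t ≤ N) (k : Fin 4) :
    ((csz N t k : ℕ) : ℤ) = cz (N : ℤ) (t : ℤ) k := by
  fin_cases k <;> simp [csz, cz, Nat.cast_sub ht]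

private theorem C_Sum_csz_le (N t : ℕ) (ht : t ≤ N) (k : Fin 4) : csz N t k ≤ N := by
  fin_cases k <;> simp [csz, ht]

/-- The first argument of the corner factor. -/
private theorem C_Sum_nu (N t : ℕ) (ht : t ≤ N) (k : Fin 4) (y : ℝ) :
    ((N + 1 : ℕ) : ℂ) * cz 1 (((((t : ℝ) + y) / ((N + 1 : ℕ) : ℝ) : ℝ) : ℂ)) k +
      -((cz 1 y k : ℝ) : ℂ) = (csz N t k : ℕ) := by
  have hM : ((N + 1 : ℕ) : ℂ) ≠ 0 := by exact_mod_cast Nat.succ_ne_zero N
  fin_cases k
  · simp only [cz, csz, Fin.zero_eta, Fin.isValue, Matrix.cons_val_zero]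
    rw [Nat.cast_sub ht]
    push_cast at hM ⊢
    field_simp
    ring
  · simp only [cz, csz, Fin.mk_one, Fin.isValue, Matrix.cons_val_one]
    push_cast at hM ⊢
    field_simp
    ring
  · simp only [cz, csz, Fin.reduceFinMk, Matrix.cons_val]
    rw [Nat.cast_sub ht]
    push_cast at hM ⊢
    field_simp
    ring
  · simp only [cz, csz, Fin.reduceFinMk, Matrix.cons_val]
    push_cast at hM ⊢
    field_simp
    ring

private theorem C_Sum_S_zero (M : ℕ) : S M 0 = 1 := by simp [S]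

private theorem C_Sum_qbin_zero (N n : ℕ) (hn : n ≤ N) : qbin (qz N) n 0 = 1 := by
  have hS : 0 < S (N + 1) n := S_pos (by omega)
  rw [qbin_qz N n 0 hn (Nat.zero_le _), Nat.sub_zero, C_Sum_S_zero, one_mul, div_self hS.ne',
    ofReal_one]

private theorem C_Sum_qbin_self (N n : ℕ) (hn : n ≤ N) : qbin (qz N) n n = 1 := by
  have hS : 0 < S (N + 1) n := S_pos (by omega)
  rw [qbin_qz N n n hn le_rfl, Nat.sub_self, C_Sum_S_zero, mul_one, div_self hS.ne',
    ofReal_one]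

theorem sum_eq (h : IsInt F cor x) (hb : IsBas F cor b x0)
    (ho : ∀ j, x j = x0 j + ∑ i, o i * (b i j : ℝ)) : ∃ δ0 : ℝ, 0 < δ0 ∧ ∀ δ : ℝ, 0 < δ → δ ≤ δ0 →
    ∃ N0 : ℕ, ∀ N : ℕ, N0 ≤ N → ∀ (a : Fin c → ℤ) (Y : Fin c → ℝ), (∀ v, 0 < Y v) →
      ∑ m ∈ latBox (N + 1) (oM o N) δ,
          (∏ v, etaF (a v) N (tm b x0 N m v) δ (Y v)) * corP N (tm b x0 N m) (sm b x0 N m) =
        (∏ v, (-I * (-1) ^ N * cG (a v) (N + 1) * ((N + 1 : ℕ) : ℂ))) *
          latSum (N + 1) (oM o N) δ Y (GX F cor b x a (N + 1)) := by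
  obtain ⟨δ0, hδ0, N0, hbox⟩ := box_facts h hb ho 1 one_pos
  refine ⟨δ0, hδ0, fun δ hδ hδδ => ⟨N0, fun N hN a Y hY => ?_⟩⟩
  unfold latSum
  rw [Finset.mul_sum]
  refine Finset.sum_congr rfl fun m hm => ?_
  obtain ⟨-, -, htm, hst, hle, hsm, -⟩ := hbox δ N hδδ hN m hm
  set t := tm b x0 N m with ht
  set s := sm b x0 N m with hs
  have hlin := Xm_lin hb N m
  -- the arguments
  have hpar : ∀ j : Vr c, par b x (fun l => pt Y (fun i => (((m i : ℝ) / ((N + 1 : ℕ) : ℝ) -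
      oM o N i : ℝ) : ℂ)) (0 : Fin c → ℝ) (Sum.inl l)) j =
      ((((Xm b x0 N m j : ℝ) + x j) / ((N + 1 : ℕ) : ℝ) : ℝ) : ℂ) := by
    intro j
    exact Xm_par ho N m j
  have hparl : ∀ v, ((((Xm b x0 N m (Sum.inl v) : ℝ) + x (Sum.inl v)) / ((N + 1 : ℕ) : ℝ) : ℝ) : ℂ) =
      ((((t v : ℝ) + x (Sum.inl v)) / ((N + 1 : ℕ) : ℝ) : ℝ) : ℂ) := by
    intro v
    rw [← (htm v).1]
    simp
  have hparr : ∀ v k, ((((Xm b x0 N m (Sum.inr (v, k)) : ℝ) + x (Sum.inr (v, k))) /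
      ((N + 1 : ℕ) : ℝ) : ℝ) : ℂ) =
      ((((s v k : ℝ) + x (Sum.inr (v, k))) / ((N + 1 : ℕ) : ℝ) : ℝ) : ℂ) := by
    intro v k
    rw [← hsm v k]
    simp
  have hM : ((N + 1 : ℕ) : ℂ) ≠ 0 := by exact_mod_cast Nat.succ_ne_zero N
  -- the integrand
  have hGX : ∀ u : Fin c → ℝ, GX F cor b x a (N + 1)
      (pt Y (fun i => (((m i : ℝ) / ((N + 1 : ℕ) : ℝ) - oM o N i : ℝ) : ℂ)) u) =
      (∏ v, ((S (N + 1) (t v) : ℝ) : ℂ) ^ 2 * (KG (m := 1) ((a v : ℝ) / 2) (N + 1) Finset.univ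
        (fun _ => ((yk 2 (N + 1) (t v) : ℝ) : ℂ)) (u v + Y v * I) *
          om 2 (N + 1) (u v + Y v * I))) * corP N t s := by
    intro u
    unfold GX
    have hpar' : ∀ j : Vr c, par b x (fun l => pt Y (fun i => (((m i : ℝ) / ((N + 1 : ℕ) : ℝ) -
        oM o N i : ℝ) : ℂ)) u (Sum.inl l)) j =
        ((((Xm b x0 N m j : ℝ) + x j) / ((N + 1 : ℕ) : ℝ) : ℝ) : ℂ) := by
      intro j
      exact Xm_par ho N m j
    congr 1
    · refine Finset.prod_congr rfl fun v _ => ?_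
      rw [hpar', hparl, ← VX_nat _ _ _ (by have := (htm v).2; omega)]
      have e1 : ((((t v : ℝ) + x (Sum.inl v)) / ((N + 1 : ℕ) : ℝ) : ℝ) : ℂ) - 1 / 2 +
          (1 - x (Sum.inl v)) / ((N + 1 : ℕ) : ℂ) = ((yk 2 (N + 1) (t v) : ℝ) : ℂ) := by
        unfold yk bt
        push_cast at hM ⊢
        field_simp
        ring
      have e2 : pt Y (fun i => (((m i : ℝ) / ((N + 1 : ℕ) : ℝ) - oM o N i : ℝ) : ℂ)) u
          (Sum.inr v) = u v + Y v * I := rfl
      rw [e1, e2]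
    · unfold corP
      rw [← Finset.prod_product' Finset.univ Finset.univ
        (fun v k => qbin (qz N) (csz N (t v) k) (s v k)), Finset.univ_product_univ]
      have hsub : Nd F cor ⊆ Finset.univ := Finset.subset_univ _
      rw [← Finset.prod_subset hsub]
      · refine Finset.prod_congr rfl fun p _ => ?_
        rw [hpar', hpar', hparl, show (Sum.inr p : Vr c) = Sum.inr (p.1, p.2) from rfl, hparr]
        have h1 := hle p.1 p.2
        have h2 := C_Sum_csz_le N (t p.1) (htm p.1).2 p.2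
        rw [CX_nat (N + 1) (csz N (t p.1) p.2) (s p.1 p.2) (by omega) h1 _ _ _ _
          (C_Sum_nu N (t p.1) (htm p.1).2 p.2 (x (Sum.inl p.1))) (by
            push_cast at hM ⊢
            field_simp
            ring), qbin_qz N _ _ h2 h1]
      · intro p _ hp
        have h2 := C_Sum_csz_le N (t p.1) (htm p.1).2 p.2
        by_cases hF : cor p.1 p.2 ∈ F
        · have hend : IsEnd F cor p.1 := by
            by_contra hcon
            exact hp ((C_Sum_mem_Nd p).2 ⟨hF, hcon⟩)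
          have h3 := hlin.endv p.1 p.2 hend hF
          rw [← (htm p.1).1, ← hsm p.1 p.2, ← C_Sum_csz N (t p.1) (htm p.1).2] at h3
          have h4 : s p.1 p.2 = csz N (t p.1) p.2 := by exact_mod_cast h3
          rw [h4]
          exact C_Sum_qbin_self N _ h2
        · rw [hst.2.2 p.1 p.2 hF]
          exact C_Sum_qbin_zero N _ h2
  have hint : ∫ u in Bc c δ, GX F cor b x a (N + 1)
      (pt Y (fun i => (((m i : ℝ) / ((N + 1 : ℕ) : ℝ) - oM o N i : ℝ) : ℂ)) u) =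
      (∏ v, ∫ u in (-δ)..δ, ((S (N + 1) (t v) : ℝ) : ℂ) ^ 2 *
        (KG (m := 1) ((a v : ℝ) / 2) (N + 1) Finset.univ
        (fun _ => ((yk 2 (N + 1) (t v) : ℝ) : ℂ)) (u + Y v * I) *
          om 2 (N + 1) (u + Y v * I))) * corP N t s := by
    rw [← C_Sum_prod c δ hδ (fun v u => ((S (N + 1) (t v) : ℝ) : ℂ) ^ 2 *
        (KG (m := 1) ((a v : ℝ) / 2) (N + 1) Finset.univ
        (fun _ => ((yk 2 (N + 1) (t v) : ℝ) : ℂ)) (u + Y v * I) *
          om 2 (N + 1) (u + Y v * I))) (corP N t s)]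
    refine MeasureTheory.integral_congr_ae (Filter.Eventually.of_forall fun u => ?_)
    exact hGX u
  rw [hint, ← mul_assoc, ← Finset.prod_mul_distrib]
  congr 1
  refine Finset.prod_congr rfl fun v _ => ?_
  unfold etaF FG
  rw [intervalIntegral.integral_const_mul]
  ring

end Pool.Agent.H63.CLK
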