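import Pool.Agent.H63.CLK.E_Lat1

/-! # Lattice sums of integrals -/

namespace Pool.Agent.H63.CLK

open Complex Filter Topology
open scoped BigOperators

variable {d c : ℕ} {Φ : (Ix d c → ℂ) → ℂ} {ε : ℝ}

/-- The box of all variables. -/
def Ball (d c : ℕ) (δ : ℝ) : Set (Ix d c → ℝ) := Set.pi Set.univ (fun _ => Set.Ioc (-δ) δ)

/-- The main integral over the box shifted by the imaginary part of the critical point. -/
noncomputable def mainInt (δ : ℝ) (p : Ix d c → ℂ) (G : (Ix d c → ℂ) → ℂ) : ℂ :=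
  ∫ x in Ball d c δ, G (fun i => x i + (p i).im * I)

private lemma E_Lat2_Bc {δ : ℝ} {a : Fin c → ℝ} (ha : a ∈ Bc c δ) (j : Fin c) : |a j| ≤ δ := by
  have h1 : a j ∈ Set.Ioc (-δ) δ := ha j (Set.mem_univ j)
  exact abs_le.2 ⟨h1.1.le, h1.2⟩

private lemma E_Lat2_dom {δ η : ℝ} (hδ : 0 < δ) (hη : η ≤ 2 * δ) (Y : Fin c → ℝ) (w : Fin d → ℂ)
    (hw : ∀ i, |(w i).re| ≤ 2 * δ ∧ |(w i).im| ≤ η) (a : Fin c → ℝ) (ha : ∀ j, |a j| ≤ δ) :
    DomE δ Y (pt Y w a) := by
  refine ⟨fun i => ⟨(hw i).1, (hw i).2.trans hη⟩, fun j => ⟨?_, ?_⟩⟩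
  · show |((a j : ℂ) + Y j * I).re| ≤ 2 * δ
    simp only [add_re, ofReal_re, mul_re, I_re, mul_zero, ofReal_im, I_im, mul_one, sub_self,
      add_zero]
    linarith [ha j]
  · show ((a j : ℂ) + Y j * I).im = Y j
    simp

private lemma E_Lat2_pt_re (Y : Fin c → ℝ) (w : Fin d → ℂ) (a : Fin c → ℝ) (j : Fin c) :
    (pt Y w a (Sum.inr j)).re = a j := by
  show ((a j : ℂ) + Y j * I).re = a j
  simp

private lemma E_Lat2_pt_im (Y : Fin c → ℝ) (w : Fin d → ℂ) (a : Fin c → ℝ) (j : Fin c) :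
    (pt Y w a (Sum.inr j)).im = Y j := by
  show ((a j : ℂ) + Y j * I).im = Y j
  simp

private lemma E_Lat2_pt_diff (Y : Fin c → ℝ) (a : Fin c → ℝ) (w : Fin d → ℂ) :
    DifferentiableAt ℂ (fun w : Fin d → ℂ => pt Y w a) w := by
  rw [differentiableAt_pi]
  rintro (i | j)
  · exact differentiableAt_apply i w
  · exact differentiableAt_const _

private lemma E_Lat2_pt_cont (Y : Fin c → ℝ) (w : Fin d → ℂ) :
    Continuous (fun a : Fin c → ℝ => (pt Y w a : Ix d c → ℂ)) := by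
  refine continuous_pi ?_
  rintro (i | j)
  · exact continuous_const
  · show Continuous fun a : Fin c → ℝ => ((a j : ℝ) : ℂ) + Y j * I
    fun_prop

private lemma E_Lat2_vol {δ : ℝ} (hδ : 0 < δ) (hδ8 : δ ≤ 1 / 8) (c : ℕ) :
    (MeasureTheory.volume : MeasureTheory.Measure (Fin c → ℝ)).real (Bc c δ) ≤ 1 ∧
      (MeasureTheory.volume : MeasureTheory.Measure (Fin c → ℝ)) (Bc c δ) < ⊤ := by
  have h1 : (MeasureTheory.volume : MeasureTheory.Measure (Fin c → ℝ)) (Bc c δ) =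
      ∏ _j : Fin c, ENNReal.ofReal (δ - -δ) := by
    unfold Bc
    rw [Real.volume_pi_Ioc]
  have h2 : (MeasureTheory.volume : MeasureTheory.Measure (Fin c → ℝ)) (Bc c δ) ≤ 1 := by
    rw [h1]
    refine Finset.prod_le_one' fun j _ => ?_
    rw [ENNReal.ofReal_le_one]
    linarith
  refine ⟨?_, lt_of_le_of_lt h2 ENNReal.one_lt_top⟩
  unfold MeasureTheory.Measure.real
  exact ENNReal.toReal_le_of_le_ofReal zero_le_one (by rwa [ENNReal.ofReal_one])

/-- Fubini for the main integral. -/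
private lemma E_Lat2_fubini {δ : ℝ} (p : Ix d c → ℂ) (g : (Ix d c → ℂ) → ℂ)
    (hc : ContinuousOn (fun x : Ix d c → ℝ => g (fun i => x i + (p i).im * I))
      (Set.pi Set.univ (fun _ => Set.Icc (-δ) δ))) :
    MeasureTheory.IntegrableOn (fun a : Fin c → ℝ => ∫ x in Bc d δ,
      g (pt (fun j => (p (Sum.inr j)).im)
        (fun i => (x i : ℂ) + ((p (Sum.inl i)).im : ℂ) * I) a)) (Bc c δ) ∧
    mainInt δ p g = ∫ a in Bc c δ, ∫ x in Bc d δ,
      g (pt (fun j => (p (Sum.inr j)).im)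
        (fun i => (x i : ℂ) + ((p (Sum.inl i)).im : ℂ) * I) a) := by
  set H : (Ix d c → ℝ) → ℂ := fun x => g (fun i => x i + (p i).im * I) with hH
  have hcomp : IsCompact (Set.pi Set.univ (fun _ : Ix d c => Set.Icc (-δ) δ)) :=
    isCompact_univ_pi fun _ => isCompact_Icc
  have hint : MeasureTheory.IntegrableOn H (Ball d c δ) := by
    refine (hc.integrableOn_compact hcomp).mono_set ?_
    exact Set.pi_mono fun i _ => Set.Ioc_subset_Icc_self
  set E := (MeasurableEquiv.sumPiEquivProdPi (fun _ : Ix d c => ℝ)).symm with hE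
  have hEm : MeasureTheory.MeasurePreserving E :=
    MeasureTheory.volume_measurePreserving_sumPiEquivProdPi_symm (fun _ : Ix d c => ℝ)
  have hEe : MeasurableEmbedding E := MeasurableEquiv.measurableEmbedding _
  have hpre : E ⁻¹' (Ball d c δ) = Bc d δ ×ˢ Bc c δ := by
    ext ⟨y, a⟩
    rw [Set.mem_preimage, Set.mem_prod]
    constructor
    · intro hx
      exact ⟨fun i _ => hx (Sum.inl i) (Set.mem_univ _), fun j _ => hx (Sum.inr j) (Set.mem_univ _)⟩
    · rintro ⟨h1, h2⟩ (i | j) _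
      · exact h1 i (Set.mem_univ _)
      · exact h2 j (Set.mem_univ _)
  have hHE : ∀ z : (Fin d → ℝ) × (Fin c → ℝ), H (E z) =
      g (pt (fun j => (p (Sum.inr j)).im)
        (fun i => (z.1 i : ℂ) + ((p (Sum.inl i)).im : ℂ) * I) z.2) := by
    rintro ⟨y, a⟩
    rw [hH]
    show g _ = g _
    congr 1
    funext i
    rcases i with i | j
    · rfl
    · rfl
  have h1 : mainInt δ p g = ∫ z in Bc d δ ×ˢ Bc c δ, H (E z) := by
    rw [← hpre, hEm.setIntegral_preimage_emb hEe]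
    rfl
  have hint2 : MeasureTheory.IntegrableOn (fun z => H (E z)) (Bc d δ ×ˢ Bc c δ) := by
    rw [← hpre]
    exact (hEm.integrableOn_comp_preimage hEe).2 hint
  have hrest : (MeasureTheory.volume : MeasureTheory.Measure ((Fin d → ℝ) × (Fin c → ℝ))).restrict
      (Bc d δ ×ˢ Bc c δ) =
      ((MeasureTheory.volume : MeasureTheory.Measure (Fin d → ℝ)).restrict (Bc d δ)).prod
        ((MeasureTheory.volume : MeasureTheory.Measure (Fin c → ℝ)).restrict (Bc c δ)) := by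
    rw [MeasureTheory.Measure.prod_restrict]
    rfl
  unfold MeasureTheory.IntegrableOn at hint2
  rw [hrest] at hint2 h1
  simp only [hHE] at hint2 h1
  refine ⟨hint2.integral_prod_right, ?_⟩
  rw [h1]
  exact MeasureTheory.integral_prod_symm _ hint2

theorem lat_int (h : PotOK Φ ε) : ∃ δ0 : ℝ, 0 < δ0 ∧ ∀ δ : ℝ, 0 < δ → δ ≤ δ0 →
    ∃ c' : ℝ, 0 < c' ∧ ∀ K : ℝ, 0 < K → ∃ δ1 : ℝ, 0 < δ1 ∧ ∃ R : ℝ, 0 < R ∧
    ∀ r : Fin c → ℝ, (∀ j, R ≤ |r j|) → ∀ p : Ix d c → ℂ, IsCritE Φ r K δ1 p →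
    ∀ (G : ℕ → (Ix d c → ℂ) → ℂ) (e : ℝ) (u : ℕ → ℂ) (A : ℂ), IsAmp Φ r δ p G e u A →
    ∃ C : ℝ, ∀ᶠ M : ℕ in atTop, ∀ o : Fin d → ℝ,
      ‖latSum M o δ (fun j => (p (Sum.inr j)).im) (G M) - (M : ℂ) ^ d * mainInt δ p (G M)‖ ≤
        C * (M : ℝ) ^ (e + d) * Real.exp (M * ((Φ 0).re - c')) := by
  obtain ⟨δ0, hδ0, hpot⟩ := pot_bound h
  obtain ⟨C1, hC1, hlat⟩ := lat_sum d
  refine ⟨min δ0 (1 / 8), lt_min hδ0 (by norm_num), ?_⟩
  intro δ hδ hδle
  have hδ1 : δ ≤ δ0 := hδle.trans (min_le_left _ _)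
  have hδ8 : δ ≤ 1 / 8 := hδle.trans (min_le_right _ _)
  obtain ⟨η, hη, hηδ, hη1, c', hc', hc'η, hK⟩ := hpot δ hδ hδ1
  obtain ⟨M0, hM0⟩ := hlat δ η hδ hη hη1 hδ8
  refine ⟨c', hc', fun K hKpos => ?_⟩
  obtain ⟨R, hR, hb⟩ := hK K hKpos
  refine ⟨η, hη, R, hR, ?_⟩
  intro r hr p hp G e u A hA
  obtain ⟨C0, hC0⟩ := hA.bound
  refine ⟨C1 * |C0|, ?_⟩
  filter_upwards [hA.diff, hC0, eventually_ge_atTop M0, eventually_ge_atTop 1]
    with M hdiff hbd hM hM1
  intro o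
  set Y : Fin c → ℝ := fun j => (p (Sum.inr j)).im with hY
  have hMpos : (0 : ℝ) < M := by exact_mod_cast hM1
  have hYb : ∀ j, 0 < Y j ∧ Y j ≤ K / (r j) ^ 2 := fun j => ⟨hp.impos j, hp.imle j⟩
  have hY0 : ∀ i : Fin d, |(p (Sum.inl i)).im| ≤ η := fun i =>
    (Complex.abs_im_le_norm _).trans (hp.small _)
  have hη2 : η ≤ 2 * δ := by linarith
  set B : ℝ := |C0| * (M : ℝ) ^ e * Real.exp (M * ((Φ 0).re - c')) with hB
  have hB0 : 0 ≤ B := by positivity
  -- the bound of the integrand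
  have hbd' : ∀ z, DomE δ Y z → ∀ s : ℝ, (Φ z + Qr r z).re ≤ s →
      ‖G M z‖ ≤ |C0| * (M : ℝ) ^ e * Real.exp (M * s) := by
    intro z hz s hs
    refine (hbd z hz).trans ?_
    have h1 : Real.exp (M * (Φ z + Qr r z).re) ≤ Real.exp (M * s) :=
      Real.exp_le_exp.2 (mul_le_mul_of_nonneg_left hs hMpos.le)
    have h2 : C0 * (M : ℝ) ^ e ≤ |C0| * (M : ℝ) ^ e :=
      mul_le_mul_of_nonneg_right (le_abs_self C0) (by positivity)
    exact mul_le_mul h2 h1 (Real.exp_pos _).le (by positivity)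
  -- fixed integration variables
  have key : ∀ a ∈ Bc c δ, ‖∑ n ∈ latBox M o δ,
      G M (pt Y (fun i => (((n i : ℝ) / M - o i : ℝ) : ℂ)) a) -
      (M : ℂ) ^ d * ∫ x in Bc d δ, G M (pt Y (fun i => (x i : ℂ) +
        ((p (Sum.inl i)).im : ℂ) * I) a)‖ ≤ C1 * (M : ℝ) ^ d * B := by
    intro a ha
    have hdom := fun w hw => E_Lat2_dom (d := d) hδ hη2 Y w hw a (E_Lat2_Bc ha)
    have hre : ∀ w : Fin d → ℂ, ∀ j, |(pt Y w a (Sum.inr j)).re| ≤ 2 * δ ∧
        (pt Y w a (Sum.inr j)).im = Y j := by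
      intro w j
      rw [E_Lat2_pt_re, E_Lat2_pt_im]
      exact ⟨(E_Lat2_Bc ha j).trans (by linarith), rfl⟩
    refine hM0 M hM o (fun i => (p (Sum.inl i)).im) hY0 (fun w => G M (pt Y w a)) B hB0 ?_ ?_ ?_
    · intro w hw
      exact (hdiff _ (hdom w hw)).comp w (E_Lat2_pt_diff Y a w)
    · intro w hw hex
      exact hbd' _ (hdom w hw) _ ((hb r hr Y hYb (pt Y w a) hw (hre w)).2 hex)
    · intro w hw _
      have h1 := hbd' _ (hdom w hw) _ (hb r hr Y hYb (pt Y w a) hw (hre w)).1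
      refine h1.trans ?_
      rw [hB, mul_assoc (|C0| * (M : ℝ) ^ e), ← Real.exp_add]
      refine mul_le_mul_of_nonneg_left (Real.exp_le_exp.2 ?_) (by positivity)
      have h2 : (M : ℝ) * c' ≤ M * (Real.pi * η) := mul_le_mul_of_nonneg_left hc'η hMpos.le
      linarith
  -- continuity
  have hcont : ContinuousOn (G M) {z | DomE δ Y z} := fun z hz =>
    (hdiff z hz).continuousAt.continuousWithinAt
  have hcH : ContinuousOn (fun x : Ix d c → ℝ => G M (fun i => x i + (p i).im * I))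
      (Set.pi Set.univ (fun _ => Set.Icc (-δ) δ)) := by
    refine hcont.comp (Continuous.continuousOn (by fun_prop)) ?_
    intro x hx
    have hx' : ∀ i, |x i| ≤ δ := fun i => abs_le.2 (hx i (Set.mem_univ i))
    refine ⟨fun i => ⟨?_, ?_⟩, fun j => ⟨?_, ?_⟩⟩
    · simp only [add_re, ofReal_re, mul_re, I_re, mul_zero, ofReal_im, I_im, mul_one, sub_self,
        add_zero]
      linarith [hx' (Sum.inl i)]
    · simp only [add_im, ofReal_im, mul_im, ofReal_re, I_im, mul_one, I_re, mul_zero, add_zero,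
        zero_add]
      linarith [hY0 i]
    · simp only [add_re, ofReal_re, mul_re, I_re, mul_zero, ofReal_im, I_im, mul_one, sub_self,
        add_zero]
      linarith [hx' (Sum.inr j)]
    · simp [hY]
  obtain ⟨hJint, hmain⟩ := E_Lat2_fubini p (G M) hcH
  have hgint : ∀ n ∈ latBox M o δ, MeasureTheory.IntegrableOn
      (fun a : Fin c → ℝ => G M (pt Y (fun i => (((n i : ℝ) / M - o i : ℝ) : ℂ)) a))
      (Bc c δ) := by
    intro n hn
    have hcomp : IsCompact (Set.pi Set.univ (fun _ : Fin c => Set.Icc (-δ) δ)) :=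
      isCompact_univ_pi fun _ => isCompact_Icc
    have hc2 : ContinuousOn
        (fun a : Fin c → ℝ => G M (pt Y (fun i => (((n i : ℝ) / M - o i : ℝ) : ℂ)) a))
        (Set.pi Set.univ (fun _ : Fin c => Set.Icc (-δ) δ)) := by
      refine hcont.comp (E_Lat2_pt_cont Y _).continuousOn ?_
      intro a ha
      refine E_Lat2_dom hδ hη2 Y _ (fun i => ?_) a fun j => abs_le.2 (ha j (Set.mem_univ j))
      rw [ofReal_re, ofReal_im]
      refine ⟨?_, by rw [abs_zero]; exact hη.le⟩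
      unfold latBox at hn
      rw [Fintype.mem_piFinset] at hn
      have hni := Finset.mem_Icc.1 (hn i)
      have h1 : (M : ℝ) * (o i - δ) ≤ n i := Int.ceil_le.1 hni.1
      have h2 : (n i : ℝ) ≤ M * (o i + δ) := Int.le_floor.1 hni.2
      have h3 : o i - δ ≤ (n i : ℝ) / M := by
        rw [le_div_iff₀ hMpos]
        linarith
      have h4 : (n i : ℝ) / M ≤ o i + δ := by
        rw [div_le_iff₀ hMpos]
        linarith
      rw [abs_le]
      constructor <;> linarith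
    refine (hc2.integrableOn_compact hcomp).mono_set ?_
    exact Set.pi_mono fun i _ => Set.Ioc_subset_Icc_self
  unfold latSum
  rw [hmain, ← MeasureTheory.integral_const_mul, ← MeasureTheory.integral_finsetSum _ hgint,
    ← MeasureTheory.integral_sub (MeasureTheory.integrable_finsetSum _ hgint)
      (hJint.const_mul _)]
  obtain ⟨hv1, hv2⟩ := E_Lat2_vol hδ hδ8 c
  refine (MeasureTheory.norm_setIntegral_le_of_norm_le_const hv2 key).trans ?_
  have h5 : (M : ℝ) ^ (e + d) = (M : ℝ) ^ e * (M : ℝ) ^ d := by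
    rw [Real.rpow_add hMpos, Real.rpow_natCast]
  calc C1 * (M : ℝ) ^ d * B *
        (MeasureTheory.volume : MeasureTheory.Measure (Fin c → ℝ)).real (Bc c δ)
      ≤ C1 * (M : ℝ) ^ d * B * 1 := mul_le_mul_of_nonneg_left hv1 (by positivity)
    _ = C1 * |C0| * (M : ℝ) ^ (e + d) * Real.exp (M * ((Φ 0).re - c')) := by
        rw [h5, hB]
        ring

end Pool.Agent.H63.CLK
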