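import Pool.Agent.H63.CLK.E_Re
import Pool.Agent.H63.CLK.E_Lat2

/-! # The main integral -/

namespace Pool.Agent.H63.CLK

open Complex Filter Topology
open scoped BigOperators

variable {d c : ℕ} {Φ : (Ix d c → ℂ) → ℂ} {ε : ℝ}

private theorem E_Lap_fderiv (L : (Ix d c → ℂ) →L[ℂ] ℂ) (x : Ix d c → ℝ) :
    L (cpx x) = ∑ i, (x i : ℂ) * L (Pi.single i 1) := by
  have h1 : cpx x = ∑ i, (x i : ℂ) • (Pi.single i (1 : ℂ) : Ix d c → ℂ) := by
    funext k
    rw [Finset.sum_apply]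
    simp only [Pi.smul_apply, smul_eq_mul]
    rw [Finset.sum_eq_single k]
    · simp [cpx]
    · intro b _ hb
      rw [Pi.single_eq_of_ne hb.symm, mul_zero]
    · intro h
      exact absurd (Finset.mem_univ _) h
  rw [h1, map_sum]
  refine Finset.sum_congr rfl fun i _ => ?_
  rw [map_smul, smul_eq_mul]

private theorem E_Lap_alg {r : Fin c → ℝ} {K δ1 : ℝ} {p : Ix d c → ℂ}
    (hp : IsCritE Φ r K δ1 p) (x : Ix d c → ℝ) :
    fderiv ℂ Φ p (cpx x) + (Qr r (p + cpx x) - Qr r p) =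
      ∑ j, 2 * Real.pi * I * r j * (x (Sum.inr j) : ℂ) ^ 2 := by
  rw [E_Lap_fderiv, Fintype.sum_sum_type]
  have h1 : ∑ i : Fin d, ((x (Sum.inl i) : ℝ) : ℂ) * fderiv ℂ Φ p (Pi.single (Sum.inl i) 1) = 0 := by
    refine Finset.sum_eq_zero fun i _ => ?_
    rw [hp.ew i, mul_zero]
  rw [h1, zero_add]
  unfold Qr
  rw [← Finset.sum_sub_distrib, ← Finset.sum_add_distrib]
  refine Finset.sum_congr rfl fun j _ => ?_
  have h2 := hp.ev j
  have h3 : fderiv ℂ Φ p (Pi.single (Sum.inr j) 1) =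
      -(2 * Real.pi * I * (2 * r j * p (Sum.inr j) + 1)) := by
    linear_combination h2
  rw [h3]
  simp only [Pi.add_apply, cpx]
  ring

/-- The shifted real points. -/
private noncomputable def E_Lap_Z (p : Ix d c → ℂ) (x : Ix d c → ℝ) : Ix d c → ℂ :=
  fun i => x i + (p i).im * I

private theorem E_Lap_Z_eq (p : Ix d c → ℂ) (x : Ix d c → ℝ) :
    E_Lap_Z p x = p + cpx (fun i => x i - (p i).re) := by
  funext i
  simp only [E_Lap_Z, Pi.add_apply, cpx]
  push_cast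
  linear_combination re_add_im (p i)

private theorem E_Lap_Z_add (p : Ix d c → ℂ) (x : Ix d c → ℝ) :
    E_Lap_Z p ((fun i => (p i).re) + x) = p + cpx x := by
  rw [E_Lap_Z_eq]
  congr 1
  congr 1
  funext i
  simp

private theorem E_Lap_Z_re (p : Ix d c → ℂ) (x : Ix d c → ℝ) (i : Ix d c) :
    (E_Lap_Z p x i).re = x i := by
  simp [E_Lap_Z]

private theorem E_Lap_Z_im (p : Ix d c → ℂ) (x : Ix d c → ℝ) (i : Ix d c) :
    (E_Lap_Z p x i).im = (p i).im := by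
  simp [E_Lap_Z]

private theorem E_Lap_Z_base (p : Ix d c → ℂ) :
    E_Lap_Z p (fun i => (p i).re) = p := by
  funext i
  simp [E_Lap_Z, re_add_im]

private theorem E_Lap_mem {δ : ℝ} {x : Ix d c → ℝ} :
    x ∈ Ball d c δ ↔ ∀ i, -δ < x i ∧ x i ≤ δ := by
  unfold Ball
  rw [Set.mem_univ_pi]
  rfl

private theorem E_Lap_meas (δ : ℝ) : MeasurableSet (Ball d c δ) := by
  unfold Ball
  exact MeasurableSet.univ_pi fun i => measurableSet_Ioc

private theorem E_Lap_cont (p : Ix d c → ℂ) : Continuous (E_Lap_Z p) := by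
  unfold E_Lap_Z
  fun_prop

private theorem E_Lap_sqrt : Tendsto (fun M : ℕ => 1 / Real.sqrt M) atTop (𝓝 0) := by
  have h1 : Tendsto (fun M : ℕ => Real.sqrt (M : ℝ)) atTop atTop :=
    Real.tendsto_sqrt_atTop.comp tendsto_natCast_atTop_atTop
  refine h1.inv_tendsto_atTop.congr fun M => ?_
  simp only [Pi.inv_apply, one_div]

theorem lap_main (h : PotOK Φ ε) : ∃ δ0 : ℝ, 0 < δ0 ∧ ∀ δ : ℝ, 0 < δ → δ ≤ δ0 →
    ∀ K : ℝ, 0 < K → ∃ δ1 : ℝ, 0 < δ1 ∧ ∃ R : ℝ, 0 < R ∧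
    ∀ r : Fin c → ℝ, (∀ j, R ≤ |r j|) → ∀ p : Ix d c → ℂ, IsCritE Φ r K δ1 p →
    ∀ (G : ℕ → (Ix d c → ℂ) → ℂ) (e : ℝ) (u : ℕ → ℂ) (A : ℂ), IsAmp Φ r δ p G e u A →
    ∃ κ : ℂ, κ ≠ 0 ∧ Tendsto (fun M : ℕ => mainInt δ p (G M) /
      (((M : ℝ) ^ (e - ((d : ℝ) + c) / 2) : ℝ) * u M * exp (M * (Φ p + Qr r p)))) atTop (𝓝 κ) := by
  classical
  obtain ⟨k, hk, ε1, hε1, hε1ε, hslice⟩ := re_slice h
  obtain ⟨k', hk', ε2, hε2, hε2ε, hhess⟩ := hess_unif h
  refine ⟨ε1 / 2, by positivity, fun δ hδ hδ0 K _ => ⟨min (δ / 2) (min ε1 ε2), by positivity, 1,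
    one_pos, fun r _ p hp G e u A hG => ?_⟩⟩
  set δ1 : ℝ := min (δ / 2) (min ε1 ε2) with hδ1
  have hd1 : δ1 ≤ δ / 2 := min_le_left _ _
  have hd2 : δ1 ≤ ε1 := (min_le_right _ _).trans (min_le_left _ _)
  have hd3 : δ1 ≤ ε2 := (min_le_right _ _).trans (min_le_right _ _)
  have hδ1pos : 0 < δ1 := by positivity
  have hpn : ‖p‖ ≤ δ1 := (pi_norm_le_iff_of_nonneg hδ1pos.le).2 hp.small
  have hpim : ∀ i, |(p i).im| ≤ δ1 := fun i => (abs_im_le_norm _).trans (hp.small i)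
  have hpre : ∀ i, |(p i).re| ≤ δ1 := fun i => (abs_re_le_norm _).trans (hp.small i)
  -- the domain
  have hdom : ∀ x ∈ Ball d c δ, DomE δ (fun j => (p (Sum.inr j)).im) (E_Lap_Z p x) := by
    intro x hx
    have hx' := E_Lap_mem.1 hx
    refine ⟨fun i => ⟨?_, ?_⟩, fun j => ⟨?_, ?_⟩⟩
    · rw [E_Lap_Z_re, abs_le]
      have := hx' (Sum.inl i)
      constructor <;> linarith
    · rw [E_Lap_Z_im]
      exact (hpim _).trans (by linarith)
    · rw [E_Lap_Z_re, abs_le]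
      have := hx' (Sum.inr j)
      constructor <;> linarith
    · rw [E_Lap_Z_im]
  have hnorm : ∀ x ∈ Ball d c δ, ‖E_Lap_Z p x‖ ≤ ε1 := by
    intro x hx
    have hx' := E_Lap_mem.1 hx
    refine (pi_norm_le_iff_of_nonneg hε1.le).2 fun i => ?_
    refine (norm_le_abs_re_add_abs_im _).trans ?_
    rw [E_Lap_Z_re, E_Lap_Z_im]
    have h1 : |x i| ≤ δ := by
      rw [abs_le]
      have := hx' i
      constructor <;> linarith
    have h2 := hpim i
    linarith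
  -- the phase
  obtain ⟨φ, hφ⟩ : ∃ φ : (Ix d c → ℝ) → ℂ, ∀ x, φ x = Φ (E_Lap_Z p x) + Qr r (E_Lap_Z p x) :=
    ⟨_, fun _ => rfl⟩
  obtain ⟨p0, hp0⟩ : ∃ p0 : Ix d c → ℝ, p0 = fun i => (p i).re := ⟨_, rfl⟩
  have hφp : φ p0 = Φ p + Qr r p := by
    rw [hφ, hp0, E_Lap_Z_base]
  have hφadd : ∀ y : Ix d c → ℝ, φ (p0 + y) = Φ (p + cpx y) + Qr r (p + cpx y) := by
    intro y
    rw [hφ, hp0, E_Lap_Z_add]
  -- the amplitude
  obtain ⟨B, hB⟩ : ∃ B : ℕ → (Ix d c → ℝ) → ℂ, B = fun M =>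
      (Ball d c δ).indicator fun x =>
        G M (E_Lap_Z p x) * exp (-(M * φ x)) / (((M : ℝ) ^ e : ℝ) * u M) := ⟨_, rfl⟩
  have hBexp : ∀ M, (fun x => B M x * exp (M * (φ x - φ p0))) =
      (Ball d c δ).indicator (fun x =>
        exp (-(M * φ p0)) / (((M : ℝ) ^ e : ℝ) * u M) * G M (E_Lap_Z p x)) := by
    intro M
    funext x
    rw [hB]
    simp only
    by_cases hx : x ∈ Ball d c δ
    · rw [Set.indicator_of_mem hx, Set.indicator_of_mem hx]
      have e1 : exp (-(M * φ p0)) = exp (-(M * φ x)) * exp (M * (φ x - φ p0)) := by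
        rw [← exp_add]
        congr 1
        ring
      rw [e1]
      ring
    · rw [Set.indicator_of_notMem hx, Set.indicator_of_notMem hx, zero_mul]
  obtain ⟨C, hC⟩ := hG.bound
  -- the quadratic form
  obtain ⟨q, hq⟩ : ∃ q : Ix d c → Ix d c → ℂ, ∀ a b, q a b = -(1 / 2) * hs Φ p a b -
      (if a = b then Sum.elim (fun _ : Fin d => (0 : ℂ)) (fun j => 2 * Real.pi * I * r j) a else 0) :=
    ⟨_, fun _ _ => rfl⟩
  have hpε : ‖p‖ < ε := hpn.trans_lt (hd2.trans_lt hε1ε)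
  have hqs : ∀ a b, q a b = q b a := by
    intro a b
    rw [hq, hq, hs_symm h p hpε a b]
    by_cases hab : a = b
    · subst hab
      rfl
    · rw [if_neg hab, if_neg (Ne.symm hab)]
  have hqsum : ∀ ξ : Ix d c → ℝ, ∑ a, ∑ b, q a b * ξ a * ξ b =
      -(1 / 2 * ∑ a, ∑ b, hs Φ p a b * ξ a * ξ b) -
        ∑ j, 2 * Real.pi * I * r j * (ξ (Sum.inr j) : ℂ) ^ 2 := by
    intro ξ
    have h1 : ∀ a, ∑ b, q a b * ξ a * ξ b = -(1 / 2) * ∑ b, hs Φ p a b * ξ a * ξ b -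
        Sum.elim (fun _ : Fin d => (0 : ℂ)) (fun j => 2 * Real.pi * I * r j) a * (ξ a : ℂ) ^ 2 := by
      intro a
      have h2 : ∀ b, q a b * ξ a * ξ b = -(1 / 2) * (hs Φ p a b * ξ a * ξ b) -
          (if a = b then Sum.elim (fun _ : Fin d => (0 : ℂ)) (fun j => 2 * Real.pi * I * r j) a *
            (ξ a : ℂ) ^ 2 else 0) := by
        intro b
        rw [hq]
        by_cases hab : a = b
        · subst hab
          rw [if_pos rfl, if_pos rfl]
          ring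
        · rw [if_neg hab, if_neg hab]
          ring
      simp only [h2]
      rw [Finset.sum_sub_distrib, ← Finset.mul_sum, Finset.sum_ite_eq, if_pos (Finset.mem_univ _)]
    simp only [h1]
    rw [Finset.sum_sub_distrib, ← Finset.mul_sum, Fintype.sum_sum_type (f := fun a =>
      Sum.elim (fun _ : Fin d => (0 : ℂ)) (fun j => 2 * Real.pi * I * r j) a * (ξ a : ℂ) ^ 2)]
    simp only [Sum.elim_inl, Sum.elim_inr, zero_mul, Finset.sum_const_zero, zero_add]
    ring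
  have hosc : ∀ y : Ix d c → ℝ,
      (∑ j, 2 * Real.pi * I * r j * (y (Sum.inr j) : ℂ) ^ 2).re = 0 := by
    intro y
    rw [re_sum]
    refine Finset.sum_eq_zero fun j _ => ?_
    have : 2 * Real.pi * I * r j * (y (Sum.inr j) : ℂ) ^ 2 =
        ((2 * Real.pi * r j * y (Sum.inr j) ^ 2 : ℝ) : ℂ) * I := by
      push_cast
      ring
    rw [this, re_ofReal_mul, I_re, mul_zero]
  have hqre : ∀ ξ : Ix d c → ℝ, k' * ∑ a, ξ a ^ 2 ≤ (∑ a, ∑ b, q a b * ξ a * ξ b).re := by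
    intro ξ
    rw [hqsum, sub_re, hosc, neg_re, sub_zero]
    have h1 := hhess p (hpn.trans hd3) ξ
    have h2 : (1 / 2 * ∑ a, ∑ b, hs Φ p a b * ξ a * ξ b).re =
        1 / 2 * (∑ a, ∑ b, hs Φ p a b * ξ a * ξ b).re := by
      have : (1 / 2 : ℂ) = ((1 / 2 : ℝ) : ℂ) := by push_cast; rfl
      rw [this, re_ofReal_mul]
    rw [h2]
    linarith
  have hcard : ((Fintype.card (Ix d c) : ℝ) / 2) = (((d : ℝ) + c) / 2 : ℝ) := by
    rw [Fintype.card_sum, Fintype.card_fin, Fintype.card_fin]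
    push_cast
    ring
  have hlap := Pool.Agent.H63.VC4.laplaceN φ p0 B |C| k hk
    (fun ξ => ∑ a, ∑ b, q a b * ξ a * ξ b) A ?_ ?_ ?_ ?_ ?_
  · refine ⟨A * ∫ ξ : Ix d c → ℝ, exp (-∑ a, ∑ b, q a b * ξ a * ξ b),
      mul_ne_zero hG.ne (Pool.Agent.H63.VC4.gaussN_ne q hqs k' hk' hqre), ?_⟩
    rw [hcard] at hlap
    refine hlap.congr' ?_
    filter_upwards [eventually_gt_atTop 0] with M hM
    have hM0 : (0 : ℝ) < M := by exact_mod_cast hM
    rw [hBexp M, MeasureTheory.integral_indicator (E_Lap_meas _),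
      MeasureTheory.integral_const_mul]
    have e1 : (M : ℝ) ^ (e - ((d : ℝ) + c) / 2) = (M : ℝ) ^ e / (M : ℝ) ^ (((d : ℝ) + c) / 2) :=
      Real.rpow_sub hM0 _ _
    have e2 : (M : ℝ) ^ (((d : ℝ) + c) / 2) ≠ 0 := (Real.rpow_pos_of_pos hM0 _).ne'
    have e3 : (M : ℝ) ^ e ≠ 0 := (Real.rpow_pos_of_pos hM0 _).ne'
    have e2' : (((M : ℝ) ^ (((d : ℝ) + c) / 2) : ℝ) : ℂ) ≠ 0 := by exact_mod_cast e2
    have e3' : (((M : ℝ) ^ e : ℝ) : ℂ) ≠ 0 := by exact_mod_cast e3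
    have e4 : u M ≠ 0 := by
      intro h0
      have := hG.unit M
      rw [h0, norm_zero] at this
      exact zero_ne_one this
    have e5 : mainInt δ p (G M) = ∫ x in Ball d c δ, G M (E_Lap_Z p x) := rfl
    rw [e5, e1, ← hφp, exp_neg, ofReal_div]
    have e6 := exp_ne_zero (M * φ p0)
    field_simp
  · filter_upwards [hG.diff] with M hM
    rw [hBexp M, aestronglyMeasurable_indicator_iff (E_Lap_meas _)]
    refine ContinuousOn.aestronglyMeasurable ?_ (E_Lap_meas _)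
    refine continuousOn_const.mul fun x hx => ContinuousAt.continuousWithinAt ?_
    exact ContinuousAt.comp (g := G M) (hM _ (hdom x hx)).continuousAt (E_Lap_cont p).continuousAt
  · filter_upwards [hC, eventually_gt_atTop 0] with M hM hM1
    have hM0 : (0 : ℝ) < M := by exact_mod_cast hM1
    intro x
    rw [hB]
    simp only
    by_cases hx : x ∈ Ball d c δ
    · rw [Set.indicator_of_mem hx, norm_div, norm_mul, norm_mul, norm_exp, hG.unit M, mul_one]
      have e1 := hM _ (hdom x hx)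
      rw [← hφ] at e1
      have e2 : (-((M : ℂ) * φ x)).re = -(M * (φ x).re) := by
        rw [neg_re, ← ofReal_natCast, re_ofReal_mul]
      have e3 : 0 < Real.exp (M * (φ x).re) := Real.exp_pos _
      have e4 : 0 < (M : ℝ) ^ e := Real.rpow_pos_of_pos hM0 _
      have e5 : ‖(((M : ℝ) ^ e : ℝ) : ℂ)‖ = (M : ℝ) ^ e := by
        rw [norm_real, Real.norm_of_nonneg e4.le]
      rw [e2, e5, Real.exp_neg, div_le_iff₀ e4, ← div_eq_mul_inv, div_le_iff₀ e3]
      refine e1.trans ?_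
      refine mul_le_mul_of_nonneg_right ?_ e3.le
      exact mul_le_mul_of_nonneg_right (le_abs_self C) e4.le
    · rw [Set.indicator_of_notMem hx, norm_zero]
      exact abs_nonneg _
  · refine Filter.Eventually.of_forall fun M x hx => ?_
    have hx' : x ∈ Ball d c δ := by
      by_contra h0
      rw [hB] at hx
      exact hx (Set.indicator_of_notMem h0 _)
    have e1 := hslice p (E_Lap_Z p x) (hpn.trans hd2) (hnorm x hx') (fun i => E_Lap_Z_im p x i)
    have e2 := E_Lap_alg hp (fun i => x i - (p i).re)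
    rw [← E_Lap_Z_eq] at e2
    have e3 : E_Lap_Z p x - p = cpx (fun i => x i - (p i).re) := by
      rw [E_Lap_Z_eq]
      exact add_sub_cancel_left _ _
    have e4 := hosc (fun i => x i - (p i).re)
    rw [← e2] at e4
    rw [e3] at e1
    have e5 : φ x - φ p0 = (Φ (E_Lap_Z p x) - Φ p - fderiv ℂ Φ p (cpx (fun i => x i - (p i).re))) +
        (fderiv ℂ Φ p (cpx (fun i => x i - (p i).re)) + (Qr r (E_Lap_Z p x) - Qr r p)) := by
      rw [hφp, hφ]
      ring
    rw [e5, add_re, e4, add_zero]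
    refine e1.trans (le_of_eq ?_)
    congr 1
    refine Finset.sum_congr rfl fun i _ => ?_
    rw [E_Lap_Z_re, hp0]
  · intro ξ
    have L5 := hG.lim ξ
    refine L5.congr' ?_
    have hzt : Tendsto (fun M : ℕ => p0 + (1 / Real.sqrt M) • ξ) atTop (𝓝 p0) := by
      have := (E_Lap_sqrt.smul_const ξ).const_add p0
      simpa using this
    have ev1 : ∀ᶠ M : ℕ in atTop, ∀ i, (p0 + (1 / Real.sqrt M) • ξ) i ∈ Set.Ioo (-δ) δ := by
      rw [eventually_all]
      intro i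
      have h1 := abs_le.1 (hpre i)
      have h2 : p0 i = (p i).re := by rw [hp0]
      exact ((tendsto_pi_nhds.1 hzt) i).eventually
        (Ioo_mem_nhds (by linarith) (by linarith))
    filter_upwards [ev1] with M hM
    have hmem : p0 + (1 / Real.sqrt M) • ξ ∈ Ball d c δ := by
      rw [E_Lap_mem]
      exact fun i => ⟨(hM i).1, (hM i).2.le⟩
    rw [hB]
    simp only
    rw [Set.indicator_of_mem hmem, hφadd]
    rw [hp0, E_Lap_Z_add]
  · intro ξ
    have L1 := taylor_two h p hpε ξ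
    have L2 := L1.add_const (∑ j, 2 * Real.pi * I * r j * (ξ (Sum.inr j) : ℂ) ^ 2)
    have e0 : -∑ a, ∑ b, q a b * (ξ a : ℂ) * (ξ b : ℂ) =
        1 / 2 * (∑ a, ∑ b, hs Φ p a b * ξ a * ξ b) +
          ∑ j, 2 * Real.pi * I * r j * (ξ (Sum.inr j) : ℂ) ^ 2 := by
      rw [hqsum]
      ring
    simp only [e0]
    refine L2.congr' ?_
    filter_upwards [eventually_gt_atTop 0] with M hM
    have hM0 : (0 : ℝ) < M := by exact_mod_cast hM
    have hss : Real.sqrt M ^ 2 = M := Real.sq_sqrt hM0.le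
    have hsp : 0 < Real.sqrt M := Real.sqrt_pos.2 hM0
    have hss' : ((Real.sqrt M : ℝ) : ℂ) ^ 2 = (M : ℂ) := by
      rw [← ofReal_pow, hss, ofReal_natCast]
    have hsp' : ((Real.sqrt M : ℝ) : ℂ) ≠ 0 := by exact_mod_cast hsp.ne'
    have e1 := E_Lap_alg hp ((1 / Real.sqrt M) • ξ)
    have e2 : ∑ j, 2 * Real.pi * I * r j * (ξ (Sum.inr j) : ℂ) ^ 2 =
        (M : ℂ) * ∑ j, 2 * Real.pi * I * r j *
          ((((1 / Real.sqrt M) • ξ) (Sum.inr j) : ℝ) : ℂ) ^ 2 := by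
      rw [Finset.mul_sum]
      refine Finset.sum_congr rfl fun j _ => ?_
      rw [Pi.smul_apply, smul_eq_mul, ofReal_mul, ofReal_div, ofReal_one, mul_pow, div_pow, one_pow,
        hss']
      have : (M : ℂ) ≠ 0 := by exact_mod_cast hM0.ne'
      field_simp
    rw [e2, ← e1, hφadd, hφp]
    ring

end Pool.Agent.H63.CLK
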