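import Pool.Agent.H63.CLK.E_Crit
import Pool.Agent.H63.CLK.E_Lap

/-! # The asymptotics of the lattice sum -/

namespace Pool.Agent.H63.CLK

open Complex Filter Topology
open scoped BigOperators

variable {d c : ℕ} {Φ : (Ix d c → ℂ) → ℂ} {ε : ℝ}

private theorem E_Main_mono {r : Fin c → ℝ} {K δ δ' : ℝ} {p : Ix d c → ℂ}
    (h : IsCritE Φ r K δ p) (hδ : δ ≤ δ') : IsCritE Φ r K δ' p :=
  ⟨fun i => (h.small i).trans hδ, h.ew, h.ev, h.impos, h.imle⟩

/-- For all sufficiently small boxes and all sufficiently large `r` there is a critical point, and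
the lattice sums of all integrands over the box have the asymptotics given by it. -/
theorem lat_laplace (h : PotOK Φ ε) : ∃ δ0 : ℝ, 0 < δ0 ∧ ∃ K : ℝ, 0 < K ∧ ∀ δ : ℝ, 0 < δ → δ ≤ δ0 →
    ∀ ε2 : ℝ, 0 < ε2 → ∃ R : ℝ, 0 < R ∧ ∀ r : Fin c → ℝ, (∀ j, R ≤ |r j|) →
    ∃ p : Ix d c → ℂ, IsCritE Φ r K ε2 p ∧ |(Φ p + Qr r p).re - (Φ 0).re| ≤ ε2 ∧
    ∀ (G : ℕ → (Ix d c → ℂ) → ℂ) (e : ℝ) (u : ℕ → ℂ) (A : ℂ), IsAmp Φ r δ p G e u A →
    ∃ κ : ℂ, κ ≠ 0 ∧ ∀ o : ℕ → Fin d → ℝ, Tendsto (fun M : ℕ =>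
      latSum M (o M) δ (fun j => (p (Sum.inr j)).im) (G M) /
        (((M : ℝ) ^ (e + ((d : ℝ) - c) / 2) : ℝ) * u M * exp (M * (Φ p + Qr r p)))) atTop
        (𝓝 κ) := by
  obtain ⟨δa, hδa, hlat⟩ := lat_int h
  obtain ⟨δb, hδb, hlap⟩ := lap_main h
  obtain ⟨K, hK, hcrit⟩ := crit_exists h
  refine ⟨min δa δb, lt_min hδa hδb, K, hK, fun δ hδ hδle ε2 hε2 => ?_⟩
  obtain ⟨c', hc', hlat1⟩ := hlat δ hδ (hδle.trans (min_le_left _ _))
  obtain ⟨δ1a, hδ1a, Ra, hRa, hlat2⟩ := hlat1 K hK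
  obtain ⟨δ1b, hδ1b, Rb, hRb, hlap2⟩ := hlap δ hδ (hδle.trans (min_le_right _ _)) K hK
  set δ1 : ℝ := min (min δ1a δ1b) (min ε2 (c' / 2)) with hδ1
  have hδ1pos : 0 < δ1 := lt_min (lt_min hδ1a hδ1b) (lt_min hε2 (by linarith))
  have h1a : δ1 ≤ δ1a := (min_le_left _ _).trans (min_le_left _ _)
  have h1b : δ1 ≤ δ1b := (min_le_left _ _).trans (min_le_right _ _)
  have h1e : δ1 ≤ ε2 := (min_le_right _ _).trans (min_le_left _ _)
  have h1c : δ1 ≤ c' / 2 := (min_le_right _ _).trans (min_le_right _ _)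
  obtain ⟨Rc, hRc, hcrit1⟩ := hcrit δ1 hδ1pos
  refine ⟨max (max Ra Rb) Rc, lt_max_of_lt_right hRc, fun r hr => ?_⟩
  have hra : ∀ j, Ra ≤ |r j| := fun j =>
    ((le_max_left _ _).trans (le_max_left _ _)).trans (hr j)
  have hrb : ∀ j, Rb ≤ |r j| := fun j =>
    ((le_max_right _ _).trans (le_max_left _ _)).trans (hr j)
  have hrc : ∀ j, Rc ≤ |r j| := fun j => (le_max_right _ _).trans (hr j)
  obtain ⟨p, hp, hval⟩ := hcrit1 r hrc
  refine ⟨p, E_Main_mono hp h1e, hval.trans h1e, fun G e u A hG => ?_⟩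
  obtain ⟨κ, hκ, hmain⟩ := hlap2 r hrb p (E_Main_mono hp h1b) G e u A hG
  obtain ⟨C, hC⟩ := hlat2 r hra p (E_Main_mono hp h1a) G e u A hG
  refine ⟨κ, hκ, fun o => ?_⟩
  -- the value of the potential at the critical point
  set V : ℂ := Φ p + Qr r p with hV
  have hVre : (Φ 0).re - c' / 2 ≤ V.re := by
    have := (abs_le.1 hval).1
    linarith
  -- the difference tends to zero
  have hz : Tendsto (fun M : ℕ => |C| * ((M : ℝ) ^ (((d : ℝ) + c) / 2) *
      Real.exp (-(c' / 2) * M))) atTop (𝓝 0) := by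
    have h1 := (tendsto_rpow_mul_exp_neg_mul_atTop_nhds_zero (((d : ℝ) + c) / 2) (c' / 2)
      (by linarith)).comp (tendsto_natCast_atTop_atTop (R := ℝ))
    have h2 := h1.const_mul |C|
    rw [mul_zero] at h2
    exact h2
  have hdiff : Tendsto (fun M : ℕ =>
      latSum M (o M) δ (fun j => (p (Sum.inr j)).im) (G M) /
        (((M : ℝ) ^ (e + ((d : ℝ) - c) / 2) : ℝ) * u M * exp (M * V)) -
      mainInt δ p (G M) /
        (((M : ℝ) ^ (e - ((d : ℝ) + c) / 2) : ℝ) * u M * exp (M * V))) atTop (𝓝 0) := by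
    refine squeeze_zero_norm' ?_ hz
    filter_upwards [hC, eventually_ge_atTop 1] with M hM hM1
    have hMpos : (0 : ℝ) < M := by exact_mod_cast hM1
    have hMc : (M : ℂ) ≠ 0 := by exact_mod_cast hMpos.ne'
    have hu : u M ≠ 0 := by
      intro h0
      have := hG.unit M
      rw [h0, norm_zero] at this
      exact zero_ne_one this
    have hx : exp (M * V) ≠ 0 := exp_ne_zero _
    have hpow : ((M : ℝ) ^ (e + ((d : ℝ) - c) / 2) : ℝ) =
        (M : ℝ) ^ (e - ((d : ℝ) + c) / 2) * (M : ℝ) ^ d := by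
      rw [← Real.rpow_natCast, ← Real.rpow_add hMpos]
      congr 1
      ring
    have hp1 : (0 : ℝ) < (M : ℝ) ^ (e - ((d : ℝ) + c) / 2) := Real.rpow_pos_of_pos hMpos _
    have hp2 : (0 : ℝ) < (M : ℝ) ^ (e + ((d : ℝ) - c) / 2) := Real.rpow_pos_of_pos hMpos _
    have hp1c : (((M : ℝ) ^ (e - ((d : ℝ) + c) / 2) : ℝ) : ℂ) ≠ 0 := by
      exact_mod_cast hp1.ne'
    have e1 : mainInt δ p (G M) /
        (((M : ℝ) ^ (e - ((d : ℝ) + c) / 2) : ℝ) * u M * exp (M * V)) =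
        ((M : ℂ) ^ d * mainInt δ p (G M)) /
        (((M : ℝ) ^ (e + ((d : ℝ) - c) / 2) : ℝ) * u M * exp (M * V)) := by
      rw [hpow]
      push_cast
      have hMd : (M : ℂ) ^ d ≠ 0 := pow_ne_zero _ hMc
      field_simp
    rw [e1, ← sub_div, norm_div]
    have hD : ‖(((M : ℝ) ^ (e + ((d : ℝ) - c) / 2) : ℝ) : ℂ) * u M * exp (M * V)‖ =
        (M : ℝ) ^ (e + ((d : ℝ) - c) / 2) * Real.exp (M * V.re) := by
      rw [norm_mul, norm_mul, hG.unit M, mul_one, Complex.norm_real, Real.norm_eq_abs,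
        abs_of_pos hp2, Complex.norm_exp]
      congr 2
      rw [← Complex.ofReal_natCast, Complex.re_ofReal_mul]
    rw [hD, div_le_iff₀ (mul_pos hp2 (Real.exp_pos _))]
    refine (hM (o M)).trans ?_
    have e2 : (M : ℝ) ^ (e + d) =
        (M : ℝ) ^ (((d : ℝ) + c) / 2) * (M : ℝ) ^ (e + ((d : ℝ) - c) / 2) := by
      rw [← Real.rpow_add hMpos]
      congr 1
      ring
    have e3 : Real.exp (M * ((Φ 0).re - c')) ≤
        Real.exp (-(c' / 2) * M) * Real.exp (M * V.re) := by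
      rw [← Real.exp_add]
      apply Real.exp_le_exp.2
      nlinarith
    have hq : (0 : ℝ) ≤ (M : ℝ) ^ (((d : ℝ) + c) / 2) := Real.rpow_nonneg hMpos.le _
    calc C * (M : ℝ) ^ (e + d) * Real.exp (M * ((Φ 0).re - c'))
        ≤ |C| * (M : ℝ) ^ (e + d) * Real.exp (M * ((Φ 0).re - c')) := by
          gcongr
          exact le_abs_self C
      _ ≤ |C| * (M : ℝ) ^ (e + d) * (Real.exp (-(c' / 2) * M) * Real.exp (M * V.re)) := by
          gcongr
      _ = _ := by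
          rw [e2]
          ring
  have hsum := hdiff.add hmain
  rw [zero_add] at hsum
  refine hsum.congr fun M => ?_
  rw [sub_add_cancel]

end Pool.Agent.H63.CLK
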