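import Pool.Agent.H63.CLK.C_Bas
import Pool.Agent.H63.CLK.C_Split
import Pool.Agent.H63.CLK.C_Err
import Pool.Agent.H63.CLK.C_Sum
import Pool.Agent.H63.CLK.C_Pot
import Pool.Agent.H63.CLK.C_Amp
import Pool.Agent.H63.CLK.E_Main

/-!
# The asymptotics of the state sum

Order of the choices: `δ` small for everything; `c0` from `split`; `K` from `lat_laplace` (`K` there is
for `r = a / 2`, so `Y ≤ 4 K / a ^ 2`), `c1` from `err`; `ε2 < min c0 c1`; then `R`. The constants: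
`(-1) ^ N` per vertex cancels against `u (N + 1)`; `cG a M = exp (M * (-π i a / 4)) * exp (π i a / 2) *
exp (-π i a / (4 M))`.
-/

set_option autoImplicit false

namespace Pool.Agent.H63.CLK

open Pool.Agent.H63.VC hiding ext
open Pool.Agent.H63.VC3 Pool.Agent.H63.VC4 Pool.Agent.H63.VC7 Complex Filter Topology
open scoped BigOperators

variable {c d : ℕ} {F : Finset ℕ} {cor : Fin c → Fin 4 → ℕ} {x : Vr c → ℝ}
  {b : Fin d → Vr c → ℤ} {x0 : Vr c → ℤ} {o : Fin d → ℝ}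

/-- The critical value. -/
noncomputable def cval {c d : ℕ} (F : Finset ℕ) (cor : Fin c → Fin 4 → ℕ) (b : Fin d → Vr c → ℤ)
    (x : Vr c → ℝ) (a : Fin c → ℤ) (p : Ix d c → ℂ) : ℂ :=
  PhiT F cor b x p + Qr (fun j => (a j : ℝ) / 2) p

/-- The error terms are small. -/
private theorem C_Asm_small (E : ℕ → ℂ) (C : ℝ) (D N0 : ℕ) (g U c0 : ℝ) (w : ℂ)
    (hw : U - c0 / 2 ≤ w.re) (hc0 : 0 < c0)
    (hE : ∀ N : ℕ, N0 ≤ N → ‖E N‖ ≤ C * ((N + 1 : ℕ) : ℝ) ^ D *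
      Real.exp (((N + 1 : ℕ) : ℝ) * (U - c0))) :
    Tendsto (fun N : ℕ => E N / ((((N + 1 : ℕ) : ℝ) ^ g : ℝ) * exp (((N + 1 : ℕ) : ℂ) * w)))
      atTop (𝓝 0) := by
  have h1 := tendsto_rpow_mul_exp_neg_mul_atTop_nhds_zero ((D : ℝ) - g) (c0 / 2) (by linarith)
  have h2 : Tendsto (fun N : ℕ => ((N + 1 : ℕ) : ℝ)) atTop atTop :=
    tendsto_natCast_atTop_atTop.comp (tendsto_add_atTop_nat 1)
  have h3 := (h1.comp h2).const_mul |C|
  rw [mul_zero] at h3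
  refine squeeze_zero_norm' ?_ h3
  filter_upwards [eventually_ge_atTop N0] with N hN
  have hM : (0 : ℝ) < ((N + 1 : ℕ) : ℝ) := by positivity
  have hden : ‖((((N + 1 : ℕ) : ℝ) ^ g : ℝ) : ℂ) * exp (((N + 1 : ℕ) : ℂ) * w)‖ =
      ((N + 1 : ℕ) : ℝ) ^ g * Real.exp (((N + 1 : ℕ) : ℝ) * w.re) := by
    rw [norm_mul, Complex.norm_real, Real.norm_of_nonneg (Real.rpow_nonneg hM.le _),
      Complex.norm_exp]
    congr 2
    rw [← Complex.ofReal_natCast, Complex.re_ofReal_mul]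
  rw [norm_div, hden]
  have hg : (0 : ℝ) < ((N + 1 : ℕ) : ℝ) ^ g := Real.rpow_pos_of_pos hM _
  rw [div_le_iff₀ (mul_pos hg (Real.exp_pos _))]
  refine (hE N hN).trans ?_
  simp only [Function.comp_apply]
  have e1 : Real.exp (((N + 1 : ℕ) : ℝ) * (U - c0)) ≤
      Real.exp (-(c0 / 2) * ((N + 1 : ℕ) : ℝ)) * Real.exp (((N + 1 : ℕ) : ℝ) * w.re) := by
    rw [← Real.exp_add]
    apply Real.exp_le_exp.2
    have := mul_le_mul_of_nonneg_left hw hM.le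
    nlinarith
  have e2 : ((N + 1 : ℕ) : ℝ) ^ D =
      ((N + 1 : ℕ) : ℝ) ^ ((D : ℝ) - g) * ((N + 1 : ℕ) : ℝ) ^ g := by
    rw [← Real.rpow_add hM, sub_add_cancel, Real.rpow_natCast]
  have e3 : (0 : ℝ) ≤ ((N + 1 : ℕ) : ℝ) ^ D := by positivity
  calc C * ((N + 1 : ℕ) : ℝ) ^ D * Real.exp (((N + 1 : ℕ) : ℝ) * (U - c0))
      ≤ |C| * ((N + 1 : ℕ) : ℝ) ^ D * Real.exp (((N + 1 : ℕ) : ℝ) * (U - c0)) := by
        gcongr
        exact le_abs_self C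
    _ ≤ |C| * ((N + 1 : ℕ) : ℝ) ^ D * (Real.exp (-(c0 / 2) * ((N + 1 : ℕ) : ℝ)) *
        Real.exp (((N + 1 : ℕ) : ℝ) * w.re)) := by
        gcongr
    _ = _ := by
        rw [e2]
        ring

/-- The product of the constants. -/
private theorem C_Asm_const (a : Fin c → ℤ) (N : ℕ) :
    (∏ v, (-I * (-1) ^ N * cG (a v) (N + 1) * ((N + 1 : ℕ) : ℂ))) =
      ((-I) ^ c * exp (∑ v, (a v : ℂ) * (Real.pi * I / 2))) * (((-1) ^ N) ^ c : ℂ) *
        ((N + 1 : ℕ) : ℂ) ^ c *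
        exp (-(((N + 1 : ℕ) : ℂ) * ∑ v, Real.pi * I * a v / 4)) *
        exp (-((∑ v, Real.pi * I * a v / 4) / ((N + 1 : ℕ) : ℂ))) := by
  have h1 : ∏ v, cG (a v) (N + 1) = exp (∑ v, (a v : ℂ) * (Real.pi * I / 2)) *
      exp (-(((N + 1 : ℕ) : ℂ) * ∑ v, Real.pi * I * a v / 4)) *
        exp (-((∑ v, Real.pi * I * a v / 4) / ((N + 1 : ℕ) : ℂ))) := by
    rw [← exp_add, ← exp_add, Finset.mul_sum, Finset.sum_div, ← Finset.sum_neg_distrib,
      ← Finset.sum_neg_distrib, ← Finset.sum_add_distrib, ← Finset.sum_add_distrib,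
      Complex.exp_sum]
    apply Finset.prod_congr rfl
    intro v _
    unfold cG
    congr 1
    have : ((N + 1 : ℕ) : ℂ) ≠ 0 := by exact_mod_cast Nat.succ_ne_zero N
    field_simp
    ring
  simp only [Finset.prod_mul_distrib, Finset.prod_const, Finset.card_univ, Fintype.card_fin]
  rw [h1]
  ring

/-- The near part of a function on the states. -/
noncomputable def nearF {c : ℕ} (f : ℕ → (Fin c → ℕ) → (Fin c → Fin 4 → ℕ) → ℂ) (N : ℕ)
    (t : Fin c → ℕ) (s : Fin c → Fin 4 → ℕ) : ℂ :=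
  if ∀ v, N ≤ 2 * t v then f N t s else 0

private theorem C_Asm_near_zero (f : ℕ → (Fin c → ℕ) → (Fin c → Fin 4 → ℕ) → ℂ) (N : ℕ)
    (t : Fin c → ℕ) (s : Fin c → Fin 4 → ℕ) (h : ∃ v, 2 * t v < N) : nearF f N t s = 0 := by
  obtain ⟨v, hv⟩ := h
  unfold nearF
  rw [if_neg]
  intro h1
  have := h1 v
  omega

private theorem C_Asm_near_norm (f : ℕ → (Fin c → ℕ) → (Fin c → Fin 4 → ℕ) → ℂ) (N : ℕ)
    (t : Fin c → ℕ) (s : Fin c → Fin 4 → ℕ) : ‖nearF f N t s‖ ≤ ‖f N t s‖ := by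
  unfold nearF
  split_ifs
  · exact le_rfl
  · rw [norm_zero]
    exact norm_nonneg _

/-- The near part and the far part. -/
private theorem C_Asm_near_far (f : ℕ → (Fin c → ℕ) → (Fin c → Fin 4 → ℕ) → ℂ) (N : ℕ) :
    stSum F cor N (f N) = stSum F cor N (nearF f N) +
      stSum F cor N (fun t s => if ∀ v, N ≤ 2 * t v then 0 else f N t s) := by
  unfold stSum
  rw [← Finset.sum_add_distrib]
  refine Finset.sum_congr rfl fun t _ => ?_
  rw [← Finset.sum_add_distrib]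
  refine Finset.sum_congr rfl fun s _ => ?_
  unfold nearF
  by_cases h1 : IsState F cor N s
  · by_cases h2 : ∀ v, N ≤ 2 * t v
    · simp only [if_pos h1, if_pos h2, add_zero]
    · simp only [if_pos h1, if_neg h2, zero_add]
  · simp only [if_neg h1, add_zero]

/-- In a small box all states are near. -/
private theorem C_Asm_box_near (h : IsInt F cor x) (hb : IsBas F cor b x0)
    (ho : ∀ j, x j = x0 j + ∑ i, o i * (b i j : ℝ)) :
    ∃ δ0 : ℝ, 0 < δ0 ∧ ∃ N0 : ℕ, ∀ (δ : ℝ) (N : ℕ), δ ≤ δ0 → N0 ≤ N → ∀ m : Fin d → ℤ,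
      m ∈ latBox (N + 1) (oM o N) δ → ∀ v, N ≤ 2 * tm b x0 N m v := by
  obtain ⟨ε, hε, hεx⟩ : ∃ ε : ℝ, 0 < ε ∧ ∀ v, ε ≤ x (Sum.inl v) - 1 / 2 := by
    rcases isEmpty_or_nonempty (Fin c) with he | he
    · exact ⟨1, one_pos, fun v => isEmptyElim v⟩
    · obtain ⟨v0, h0⟩ := Finite.exists_min (fun v : Fin c => x (Sum.inl v) - 1 / 2)
      exact ⟨x (Sum.inl v0) - 1 / 2, by linarith [h.half v0], h0⟩
  obtain ⟨δ0, hδ0, N0, hbox⟩ := box_facts h hb ho ε hε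
  refine ⟨δ0, hδ0, N0, fun δ N hδ hN m hm v => ?_⟩
  obtain ⟨f1, -, f3, -⟩ := hbox δ N hδ hN m hm
  have hM : (0 : ℝ) < ((N + 1 : ℕ) : ℝ) := by positivity
  have h1 := (abs_le.1 (f1 (Sum.inl v))).1
  have h2 : ((Xm b x0 N m (Sum.inl v) : ℤ) : ℝ) = (tm b x0 N m v : ℝ) := by
    rw [← (f3 v).1]
    push_cast
    rfl
  rw [h2] at h1
  have h3 : (1 : ℝ) / 2 ≤ (tm b x0 N m v : ℝ) / ((N + 1 : ℕ) : ℝ) := by linarith [hεx v]
  rw [le_div_iff₀ hM] at h3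
  have h4 : ((N : ℝ)) ≤ 2 * (tm b x0 N m v : ℝ) := by
    push_cast at h3
    linarith
  exact_mod_cast h4

theorem state_asym (h : IsMaxN F cor x) (hfar : FarOK F cor x) (hb : IsBas F cor b x0)
    (ho : ∀ j, x j = x0 j + ∑ i, o i * (b i j : ℝ)) : ∃ K : ℝ, 0 < K ∧ ∀ ε2 : ℝ, 0 < ε2 →
    ∃ R : ℝ, 0 < R ∧ ∀ a : Fin c → ℤ, (∀ v, R ≤ |(a v : ℝ)|) → ∃ p : Ix d c → ℂ,
      IsCritE (PhiT F cor b x) (fun j => (a j : ℝ) / 2) K ε2 p ∧ ∃ κ : ℂ, κ ≠ 0 ∧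
      Tendsto (fun N : ℕ => stSum F cor N (fun t s => (∏ v, eta (a v) N (t v)) * corP N t s) /
        ((((N + 1 : ℕ) : ℝ) ^ (((c : ℝ) + d - (Nd F cor).card) / 2) : ℝ) *
          exp (((N + 1 : ℕ) : ℂ) * (cval F cor b x a p - ∑ v, Real.pi * I * a v / 4)))) atTop
        (𝓝 κ) := by
  obtain ⟨ε, hΦ⟩ := phi_ok h hb
  obtain ⟨δL, hδL, K, hK, hL⟩ := lat_laplace hΦ
  obtain ⟨δ1, hδ1, hS⟩ := split h hb ho
  obtain ⟨δ2, hδ2, hE⟩ := err h hb ho
  obtain ⟨δ3, hδ3, hQ⟩ := sum_eq h.int hb ho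
  obtain ⟨δ4, hδ4, hA⟩ := amp_ok (b := b) h.int
  obtain ⟨δ5, hδ5, N5, hnear⟩ := C_Asm_box_near h.int hb ho
  obtain ⟨δ, hδ, dL, d1, d2, d3, d4, d5⟩ : ∃ δ : ℝ, 0 < δ ∧ δ ≤ δL ∧ δ ≤ δ1 ∧ δ ≤ δ2 ∧ δ ≤ δ3 ∧
      δ ≤ δ4 ∧ δ ≤ δ5 :=
    ⟨min δL (min δ1 (min δ2 (min δ3 (min δ4 δ5)))), by positivity, min_le_left _ _,
      (min_le_right _ _).trans (min_le_left _ _),
      ((min_le_right _ _).trans (min_le_right _ _)).trans (min_le_left _ _),
      (((min_le_right _ _).trans (min_le_right _ _)).trans (min_le_right _ _)).trans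
        (min_le_left _ _),
      ((((min_le_right _ _).trans (min_le_right _ _)).trans (min_le_right _ _)).trans
        (min_le_right _ _)).trans (min_le_left _ _),
      ((((min_le_right _ _).trans (min_le_right _ _)).trans (min_le_right _ _)).trans
        (min_le_right _ _)).trans (min_le_right _ _)⟩
  obtain ⟨c0, hc0, hS⟩ := hS δ hδ d1
  obtain ⟨c2, hc2, hF⟩ := hfar
  obtain ⟨c1, hc1, R1, hR1, hE⟩ := hE δ hδ d2 (4 * K) (by linarith)
  refine ⟨K, hK, fun ε2 hε2 => ?_⟩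
  obtain ⟨ε', hε', e1, e2, e3, e4, e5⟩ : ∃ ε' : ℝ, 0 < ε' ∧ ε' ≤ ε2 ∧ ε' ≤ δ ∧ ε' ≤ c0 / 2 ∧
      ε' ≤ c1 / 2 ∧ ε' ≤ c2 / 2 :=
    ⟨min ε2 (min δ (min (c0 / 2) (min (c1 / 2) (c2 / 2)))), by positivity, min_le_left _ _,
      (min_le_right _ _).trans (min_le_left _ _),
      ((min_le_right _ _).trans (min_le_right _ _)).trans (min_le_left _ _),
      (((min_le_right _ _).trans (min_le_right _ _)).trans (min_le_right _ _)).trans
        (min_le_left _ _),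
      (((min_le_right _ _).trans (min_le_right _ _)).trans (min_le_right _ _)).trans
        (min_le_right _ _)⟩
  obtain ⟨R2, hR2, hL⟩ := hL δ hδ dL ε' hε'
  refine ⟨max R1 (2 * R2), by positivity, fun a ha => ?_⟩
  have ha1 : ∀ v, R1 ≤ |(a v : ℝ)| := fun v => (le_max_left _ _).trans (ha v)
  have ha2 : ∀ v, R2 ≤ |(a v : ℝ) / 2| := by
    intro v
    have := (le_max_right R1 (2 * R2)).trans (ha v)
    rw [abs_div, abs_of_pos (by norm_num : (0 : ℝ) < 2)]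
    linarith
  obtain ⟨p, hp, hval, hG⟩ := hL (fun j => (a j : ℝ) / 2) ha2
  refine ⟨p, ⟨fun i => (hp.small i).trans e1, hp.ew, hp.ev, hp.impos, hp.imle⟩, ?_⟩
  obtain ⟨A, hamp⟩ := hA δ hδ d4 a p (fun i => (hp.small i).trans e2) hp.impos
  obtain ⟨κ0, hκ0, hlim⟩ := hG _ _ _ _ hamp
  have hlim := hlim (fun M => oM o (M - 1))
  -- the constants
  set Y : Fin c → ℝ := fun j => (p (Sum.inr j)).im with hY
  have hYp : ∀ v, 0 < Y v := hp.impos
  have hYle : ∀ v, Y v ≤ 4 * K / (a v : ℝ) ^ 2 := by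
    intro v
    refine (hp.imle v).trans (le_of_eq ?_)
    rw [div_pow]
    have : (a v : ℝ) ≠ 0 := by
      intro h0
      have := ha1 v
      rw [h0, abs_zero] at this
      linarith
    field_simp
    ring
  set Sa : ℂ := ∑ v, Real.pi * I * a v / 4 with hSa
  set W : ℂ := cval F cor b x a p - Sa with hW
  have hSre : Sa.re = 0 := by
    rw [hSa, Complex.re_sum]
    apply Finset.sum_eq_zero
    intro v _
    have : (Real.pi * I * a v / 4 : ℂ) = ((Real.pi * a v / 4 : ℝ) : ℂ) * I := by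
      push_cast; ring
    rw [this]
    simp
  have hWre : Uf x - ε' ≤ W.re := by
    rw [hW, Complex.sub_re, hSre, sub_zero]
    have h0 : (PhiT F cor b x 0).re = Uf x := by
      rw [phi_zero h.int hb, Complex.ofReal_re]
    rw [h0] at hval
    have := (abs_le.1 hval).1
    unfold cval
    linarith
  obtain ⟨Ct, hCt, Dt, hterm⟩ := term_bound h.int a
  set f : ℕ → (Fin c → ℕ) → (Fin c → Fin 4 → ℕ) → ℂ :=
    fun N t s => (∏ v, eta (a v) N (t v)) * corP N t s with hf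
  obtain ⟨C1, hC1, D1, N1, hS⟩ := hS (nearF f) Ct Dt hCt
    (fun N t s hv => C_Asm_near_zero f N t s hv)
    (fun N t s ht hs => (C_Asm_near_norm f N t s).trans (hterm N t s ht hs))
  obtain ⟨C3, hC3, D3, N4, hF⟩ := hF a
  obtain ⟨C2, hC2, D2, N2, hE⟩ := hE a ha1 Y (fun v => ⟨hYp v, hYle v⟩)
  obtain ⟨N3, hQ⟩ := hQ δ hδ d3
  set g : ℝ := ((c : ℝ) + d - (Nd F cor).card) / 2 with hg
  have t1 := C_Asm_small _ C1 D1 N1 g (Uf x) c0 W (by linarith) hc0 hS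
  have t2 := C_Asm_small _ C2 D2 N2 g (Uf x) c1 W (by linarith) hc1 hE
  have t6 := C_Asm_small _ C3 D3 N4 g (Uf x) c2 W (by linarith) hc2 hF
  have hκ : (-I) ^ c * exp (∑ v, (a v : ℂ) * (Real.pi * I / 2)) ≠ 0 :=
    mul_ne_zero (pow_ne_zero _ (neg_ne_zero.2 I_ne_zero)) (exp_ne_zero _)
  refine ⟨((-I) ^ c * exp (∑ v, (a v : ℂ) * (Real.pi * I / 2))) * (1 * κ0),
    mul_ne_zero hκ (by rwa [one_mul]), ?_⟩
  have t3 : Tendsto (fun N : ℕ => exp (-(Sa / ((N + 1 : ℕ) : ℂ)))) atTop (𝓝 1) := by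
    have h1 : Tendsto (fun N : ℕ => -(Sa / ((N + 1 : ℕ) : ℂ))) atTop (𝓝 0) := by
      have h2 : Tendsto (fun N : ℕ => ((N + 1 : ℕ) : ℂ)⁻¹) atTop (𝓝 0) :=
        (tendsto_inv_atTop_nhds_zero_nat (𝕜 := ℂ)).comp (tendsto_add_atTop_nat 1)
      have h3 := (h2.const_mul Sa).neg
      rw [mul_zero, neg_zero] at h3
      exact h3
    have h4 := (Complex.continuous_exp.tendsto 0).comp h1
    rw [Complex.exp_zero] at h4
    exact h4
  have t4 := (t3.mul (hlim.comp (tendsto_add_atTop_nat 1))).const_mul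
    ((-I) ^ c * exp (∑ v, (a v : ℂ) * (Real.pi * I / 2)))
  have t5 := ((t1.add t2).add t6).add t4
  rw [add_zero, add_zero, zero_add] at t5
  refine t5.congr' ?_
  filter_upwards [eventually_ge_atTop N3, eventually_ge_atTop N5] with N hN hN5
  have hq := hQ N hN a Y hYp
  have hbs : ∑ m ∈ latBox (N + 1) (oM o N) δ, nearF f N (tm b x0 N m) (sm b x0 N m) =
      ∑ m ∈ latBox (N + 1) (oM o N) δ,
        (∏ v, eta (a v) N (tm b x0 N m v)) * corP N (tm b x0 N m) (sm b x0 N m) := by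
    refine Finset.sum_congr rfl fun m hm => ?_
    unfold nearF
    rw [if_pos (hnear δ N d5 hN5 m hm)]
  have hnf : stSum F cor N (fun t s => (∏ v, eta (a v) N (t v)) * corP N t s) =
      stSum F cor N (nearF f N) + stSum F cor N (fun t s => if ∀ v, N ≤ 2 * t v then 0 else
        (∏ v, eta (a v) N (t v)) * corP N t s) := C_Asm_near_far f N
  have hM : (0 : ℝ) < ((N + 1 : ℕ) : ℝ) := by positivity
  have hMc : ((N + 1 : ℕ) : ℂ) ≠ 0 := by exact_mod_cast Nat.succ_ne_zero N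
  simp only [Function.comp_apply, Nat.add_sub_cancel]
  -- the third part
  have hthird : (-I) ^ c * exp (∑ v, (a v : ℂ) * (Real.pi * I / 2)) *
      (exp (-(Sa / ((N + 1 : ℕ) : ℂ))) *
        (latSum (N + 1) (oM o N) δ Y (GX F cor b x a (N + 1)) /
          ((((N + 1 : ℕ) : ℝ) ^ (-((Nd F cor).card : ℝ) / 2 + ((d : ℝ) - c) / 2) : ℝ) *
            ((-1) ^ (N + 1 + 1)) ^ c *
            exp (((N + 1 : ℕ) : ℂ) * (PhiT F cor b x p + Qr (fun j => (a j : ℝ) / 2) p))))) =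
      ((∏ v, (-I * (-1) ^ N * cG (a v) (N + 1) * ((N + 1 : ℕ) : ℂ))) *
          latSum (N + 1) (oM o N) δ Y (GX F cor b x a (N + 1))) /
        ((((N + 1 : ℕ) : ℝ) ^ g : ℝ) * exp (((N + 1 : ℕ) : ℂ) * W)) := by
    rw [C_Asm_const a N, ← hSa]
    have hpow : ((((N + 1 : ℕ) : ℝ) ^ g : ℝ) : ℂ) = ((N + 1 : ℕ) : ℂ) ^ c *
        ((((N + 1 : ℕ) : ℝ) ^ (-((Nd F cor).card : ℝ) / 2 + ((d : ℝ) - c) / 2) : ℝ) : ℂ) := by
      have : ((N + 1 : ℕ) : ℝ) ^ g = ((N + 1 : ℕ) : ℝ) ^ c *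
          ((N + 1 : ℕ) : ℝ) ^ (-((Nd F cor).card : ℝ) / 2 + ((d : ℝ) - c) / 2) := by
        rw [← Real.rpow_natCast, ← Real.rpow_add hM]
        congr 1
        rw [hg]
        ring
      rw [this]
      push_cast
      ring
    have hexp : exp (((N + 1 : ℕ) : ℂ) * W) =
        exp (((N + 1 : ℕ) : ℂ) * (PhiT F cor b x p + Qr (fun j => (a j : ℝ) / 2) p)) *
          exp (-(((N + 1 : ℕ) : ℂ) * Sa)) := by
      rw [← exp_add, hW]
      congr 1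
      unfold cval
      ring
    have hsign : ((-1 : ℂ) ^ (N + 1 + 1)) ^ c = ((-1 : ℂ) ^ N) ^ c := by
      rw [pow_add, pow_add]
      norm_num
    have hs1 : ((-1 : ℂ) ^ N) ^ c * ((-1 : ℂ) ^ N) ^ c = 1 := by
      rw [← mul_pow, ← pow_add, ← two_mul, pow_mul]
      norm_num
    have hr : ((((N + 1 : ℕ) : ℝ) ^ (-((Nd F cor).card : ℝ) / 2 + ((d : ℝ) - c) / 2) : ℝ) : ℂ) ≠
        0 := by
      exact_mod_cast (Real.rpow_pos_of_pos hM _).ne'
    have hsne : ((-1 : ℂ) ^ N) ^ c ≠ 0 := by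
      intro h0
      rw [h0, mul_zero] at hs1
      exact zero_ne_one hs1
    rw [hpow, hexp, hsign]
    have x1 := exp_ne_zero (((N + 1 : ℕ) : ℂ) * (PhiT F cor b x p + Qr (fun j => (a j : ℝ) / 2) p))
    have x2 := exp_ne_zero (-(((N + 1 : ℕ) : ℂ) * Sa))
    have x3 : ((N + 1 : ℕ) : ℂ) ^ c ≠ 0 := pow_ne_zero _ hMc
    generalize exp (((N + 1 : ℕ) : ℂ) * (PhiT F cor b x p + Qr (fun j => (a j : ℝ) / 2) p)) = X1 at *
    generalize exp (-(((N + 1 : ℕ) : ℂ) * Sa)) = X2 at *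
    generalize exp (-(Sa / ((N + 1 : ℕ) : ℂ))) = X3 at *
    generalize ((((N + 1 : ℕ) : ℝ) ^ (-((Nd F cor).card : ℝ) / 2 + ((d : ℝ) - c) / 2) : ℝ) : ℂ) =
      X4 at *
    generalize ((N + 1 : ℕ) : ℂ) ^ c = X5 at *
    generalize latSum (N + 1) (oM o N) δ Y (GX F cor b x a (N + 1)) = X6 at *
    generalize (-I) ^ c * exp (∑ v, (a v : ℂ) * (Real.pi * I / 2)) = X7 at *
    generalize ((-1 : ℂ) ^ N) ^ c = X8 at *
    field_simp
    linear_combination (X3 * X6) * (-hs1)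
  rw [hthird, ← hq, ← add_div, ← add_div, ← add_div, hbs, hnf]
  congr 1
  ring

end Pool.Agent.H63.CLK
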