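import Pool.Agent.H63.CLK.C_Birk
import Pool.Agent.H63.CLK.C_Poly

/-!
# The lattice of the integral solutions

`b` is a basis of the kernel of an integral matrix `A` (a submodule of a free `ℤ`-module:
`Submodule.nonempty_basis_of_pid`). Independence over `ℝ`: for a real relation `∑ w i • b i = 0` apply
`ℚ`-linear functionals `ℝ → ℚ` (coordinates with respect to a `ℚ`-basis of `ℝ`, e.g.
`Module.Basis.ofVectorSpace ℚ ℝ`) to the coefficients and clear denominators. The same functionals
applied to the coordinates of a real solution give rational solutions, which are rational combinations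
of the `b i` (clear denominators); a real solution is the finite sum of basis elements of `ℝ` over `ℚ`
times these rational solutions. It is convenient to prove the general statement `int_kernel` first.
-/

set_option autoImplicit false

namespace Pool.Agent.H63.CLK

open Pool.Agent.H63.VC hiding ext
open Pool.Agent.H63.VC3 Pool.Agent.H63.VC4 Pool.Agent.H63.VC7 Complex Filter Topology
open scoped BigOperators

variable {c : ℕ} {F : Finset ℕ} {cor : Fin c → Fin 4 → ℕ} {x : Vr c → ℝ}

private theorem bas_den {ι : Type} [Fintype ι] (y : ι → ℚ) :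
    ∃ D : ℤ, D ≠ 0 ∧ ∃ z : ι → ℤ, ∀ j, (z j : ℚ) = D * y j := by
  classical
  obtain ⟨b, hb⟩ := IsLocalization.exist_integer_multiples_of_finite (nonZeroDivisors ℤ) y
  refine ⟨b, nonZeroDivisors.ne_zero b.2, ?_⟩
  choose z hz using hb
  refine ⟨z, fun j => ?_⟩
  have := hz j
  simp only [algebraMap_int_eq, eq_intCast, Algebra.smul_def] at this
  exact this

/-- Basis of the integral kernel of an integral matrix. -/
theorem int_kernel {ι κ : Type} [Fintype ι] [Fintype κ] (A : Matrix κ ι ℤ) :
    ∃ d : ℕ, ∃ b : Fin d → ι → ℤ, (∀ i, A.mulVec (b i) = 0) ∧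
      (∀ x : ι → ℤ, A.mulVec x = 0 → ∃ m : Fin d → ℤ, x = fun j => ∑ i, m i * b i j) ∧
      (∀ x : ι → ℝ, (A.map (Int.cast : ℤ → ℝ)).mulVec x = 0 →
        ∃ w : Fin d → ℝ, x = fun j => ∑ i, w i * (b i j : ℝ)) ∧
      ∀ w : Fin d → ℝ, (∀ j, ∑ i, w i * (b i j : ℝ) = 0) → w = 0 := by
  classical
  obtain ⟨d, ⟨B⟩⟩ := Submodule.nonempty_basis_of_pid (Pi.basisFun ℤ ι)
    (LinearMap.ker (Matrix.mulVecLin A))
  have hspan : ∀ x : ι → ℤ, A.mulVec x = 0 →
      ∃ m : Fin d → ℤ, x = fun j => ∑ i, m i * (B i : ι → ℤ) j := by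
    intro x hx
    have hx' : x ∈ LinearMap.ker (Matrix.mulVecLin A) := by
      rw [LinearMap.mem_ker, Matrix.mulVecLin_apply]; exact hx
    refine ⟨fun i => B.repr ⟨x, hx'⟩ i, ?_⟩
    have h := B.sum_repr ⟨x, hx'⟩
    have h2 := congrArg (fun y : LinearMap.ker (Matrix.mulVecLin A) => (y : ι → ℤ)) h
    simp only [Submodule.coe_sum, Submodule.coe_smul] at h2
    funext j
    have h3 := congrFun h2 j
    simp only [Finset.sum_apply, Pi.smul_apply, smul_eq_mul] at h3
    exact h3.symm
  have hind : ∀ m : Fin d → ℤ, (∀ j, ∑ i, m i * (B i : ι → ℤ) j = 0) → m = 0 := by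
    intro m hm
    have h := B.linearIndependent
    rw [Fintype.linearIndependent_iff] at h
    funext i
    refine h m ?_ i
    apply Subtype.ext
    simp only [Submodule.coe_sum, Submodule.coe_smul, Submodule.coe_zero]
    funext j
    simp only [Finset.sum_apply, Pi.smul_apply, smul_eq_mul, Pi.zero_apply]
    exact hm j
  -- rational versions
  have hspanQ : ∀ y : ι → ℚ, (∀ k, ∑ j, (A k j : ℚ) * y j = 0) →
      ∃ u : Fin d → ℚ, ∀ j, y j = ∑ i, u i * ((B i : ι → ℤ) j : ℚ) := by
    intro y hy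
    obtain ⟨D, hD, z, hz⟩ := bas_den y
    have hD' : (D : ℚ) ≠ 0 := by exact_mod_cast hD
    have hAz : A.mulVec z = 0 := by
      funext k
      have : ((A.mulVec z k : ℤ) : ℚ) = 0 := by
        simp only [Matrix.mulVec, dotProduct, Int.cast_sum, Int.cast_mul]
        calc ∑ j, (A k j : ℚ) * (z j : ℚ) = ∑ j, (D : ℚ) * ((A k j : ℚ) * y j) := by
              refine Finset.sum_congr rfl fun j _ => ?_
              rw [hz j]; ring
          _ = 0 := by rw [← Finset.mul_sum, hy k, mul_zero]
      exact_mod_cast this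
    obtain ⟨m, hm⟩ := hspan z hAz
    refine ⟨fun i => (m i : ℚ) / D, fun j => ?_⟩
    have h1 : (z j : ℚ) = ∑ i, (m i : ℚ) * ((B i : ι → ℤ) j : ℚ) := by
      rw [hm]; push_cast; rfl
    have h2 : y j = (z j : ℚ) / D := by rw [hz j]; field_simp
    rw [h2, h1, Finset.sum_div]
    refine Finset.sum_congr rfl fun i _ => ?_
    ring
  have hindQ : ∀ u : Fin d → ℚ, (∀ j, ∑ i, u i * ((B i : ι → ℤ) j : ℚ) = 0) → u = 0 := by
    intro u hu
    obtain ⟨D, hD, z, hz⟩ := bas_den u
    have hD' : (D : ℚ) ≠ 0 := by exact_mod_cast hD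
    have hz0 : z = 0 := by
      refine hind z fun j => ?_
      have : ((∑ i, z i * (B i : ι → ℤ) j : ℤ) : ℚ) = 0 := by
        push_cast
        calc ∑ i, (z i : ℚ) * ((B i : ι → ℤ) j : ℚ)
            = ∑ i, (D : ℚ) * (u i * ((B i : ι → ℤ) j : ℚ)) := by
              refine Finset.sum_congr rfl fun i _ => ?_
              rw [hz i]; ring
          _ = 0 := by rw [← Finset.mul_sum, hu j, mul_zero]
      exact_mod_cast this
    funext i
    have := hz i
    rw [hz0] at this
    simp only [Pi.zero_apply, Int.cast_zero] at this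
    have h3 := mul_eq_zero.1 this.symm
    exact h3.resolve_left hD'
  -- the rational functionals
  let T := Module.Basis.ofVectorSpace ℚ ℝ
  have hφint : ∀ (φ : ℝ →ₗ[ℚ] ℚ) (a : ℤ) (r : ℝ), φ ((a : ℝ) * r) = (a : ℚ) * φ r := by
    intro φ a r
    have : (a : ℝ) * r = (a : ℚ) • r := by
      rw [Rat.smul_def]; push_cast; rfl
    rw [this, map_smul, smul_eq_mul]
  refine ⟨d, fun i => (B i : ι → ℤ), fun i => ?_, hspan, ?_, ?_⟩
  · have := (B i).2
    rw [LinearMap.mem_ker, Matrix.mulVecLin_apply] at this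
    exact this
  · intro x hx
    have hx' : ∀ k, ∑ j, (A k j : ℝ) * x j = 0 := by
      intro k
      have := congrFun hx k
      simpa [Matrix.mulVec, dotProduct, Matrix.map_apply] using this
    have hsol : ∀ t, ∃ u : Fin d → ℚ, ∀ j, T.coord t (x j) =
        ∑ i, u i * ((B i : ι → ℤ) j : ℚ) := by
      intro t
      refine hspanQ (fun j => T.coord t (x j)) fun k => ?_
      have := congrArg (T.coord t) (hx' k)
      rw [map_sum, map_zero] at this
      rw [← this]
      refine Finset.sum_congr rfl fun j _ => ?_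
      rw [hφint]
    choose u hu using hsol
    let S : Finset _ := Finset.univ.biUnion (fun j => (T.repr (x j)).support)
    refine ⟨fun i => ∑ t ∈ S, (u t i : ℝ) * T t, ?_⟩
    funext j
    have h1 : x j = ∑ t ∈ S, ((T.coord t (x j) : ℚ) : ℝ) * T t := by
      conv_lhs => rw [← T.linearCombination_repr (x j)]
      rw [Finsupp.linearCombination_apply, Finsupp.sum_of_support_subset (s := S)]
      · refine Finset.sum_congr rfl fun t _ => ?_
        rw [Rat.smul_def]; rfl
      · intro t ht
        exact Finset.mem_biUnion.2 ⟨j, Finset.mem_univ _, ht⟩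
      · intro t _; simp
    rw [h1]
    calc ∑ t ∈ S, ((T.coord t (x j) : ℚ) : ℝ) * T t
        = ∑ t ∈ S, ∑ i, ((u t i : ℝ) * T t) * ((B i : ι → ℤ) j : ℝ) := by
          refine Finset.sum_congr rfl fun t _ => ?_
          rw [hu t j]
          push_cast
          rw [Finset.sum_mul]
          refine Finset.sum_congr rfl fun i _ => ?_
          ring
      _ = _ := by
          rw [Finset.sum_comm]
          refine Finset.sum_congr rfl fun i _ => ?_
          rw [Finset.sum_mul]
  · intro w hw
    have h0 : ∀ t, (fun i => T.coord t (w i)) = 0 := by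
      intro t
      refine hindQ _ fun j => ?_
      have := congrArg (T.coord t) (hw j)
      rw [map_sum, map_zero] at this
      rw [← this]
      refine Finset.sum_congr rfl fun i _ => ?_
      rw [mul_comm (w i), hφint, mul_comm]
    funext i
    apply T.repr.injective
    ext t
    have := congrFun (h0 t) i
    simpa [Module.Basis.coord_apply] using this

/-- The sign of the coordinate `τ v` in the size of the corner `k`. -/
private def bas_sg : Fin 4 → ℤ := ![-1, 1, -1, 1]

private theorem bas_cz {R : Type*} [CommRing R] (t : R) (k : Fin 4) :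
    cz 0 t k = ((bas_sg k : ℤ) : R) * t := by
  fin_cases k <;> simp [cz, bas_sg]

open Classical in
/-- The matrix of the linear equations. -/
private noncomputable def bas_A {c : ℕ} (F : Finset ℕ) (cor : Fin c → Fin 4 → ℕ) :
    Matrix (Fin c ⊕ ({f // f ∈ F} ⊕ ((Fin c × Fin 4) ⊕ (Fin c × Fin 4)))) (Vr c) ℤ
  | Sum.inl _, Sum.inl _ => 0
  | Sum.inl v, Sum.inr p => if p.1 = v then 1 else 0
  | Sum.inr (Sum.inl _), Sum.inl _ => 0
  | Sum.inr (Sum.inl f), Sum.inr p => if cor p.1 p.2 = f.1 then 1 else 0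
  | Sum.inr (Sum.inr (Sum.inl _)), Sum.inl _ => 0
  | Sum.inr (Sum.inr (Sum.inl q)), Sum.inr p => if p = q ∧ cor q.1 q.2 ∉ F then 1 else 0
  | Sum.inr (Sum.inr (Sum.inr q)), Sum.inl v =>
      if v = q.1 ∧ (IsEnd F cor q.1 ∧ cor q.1 q.2 ∈ F) then - bas_sg q.2 else 0
  | Sum.inr (Sum.inr (Sum.inr q)), Sum.inr p =>
      if p = q ∧ (IsEnd F cor q.1 ∧ cor q.1 q.2 ∈ F) then 1 else 0

section rows

variable {R : Type*} [CommRing R] {c : ℕ} (F : Finset ℕ) (cor : Fin c → Fin 4 → ℕ) (x : Vr c → R)

private theorem bas_rv (v : Fin c) :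
    ∑ j, ((bas_A F cor (Sum.inl v) j : ℤ) : R) * x j = ∑ k, x (Sum.inr (v, k)) := by
  rw [Fintype.sum_sum_type, Fintype.sum_prod_type]
  simp only [bas_A, Int.cast_zero, zero_mul, Finset.sum_const_zero, zero_add]
  rw [Finset.sum_eq_single v]
  · simp
  · intro w _ hw; simp [hw]
  · simp

private theorem bas_rf (f : {f // f ∈ F}) :
    ∑ j, ((bas_A F cor (Sum.inr (Sum.inl f)) j : ℤ) : R) * x j =
      ∑ v, ∑ k, (if cor v k = f.1 then x (Sum.inr (v, k)) else 0) := by
  rw [Fintype.sum_sum_type, Fintype.sum_prod_type]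
  simp only [bas_A, Int.cast_zero, zero_mul, Finset.sum_const_zero, zero_add, Int.cast_ite,
    Int.cast_one, ite_mul, one_mul]

private theorem bas_ro (q : Fin c × Fin 4) (hq : cor q.1 q.2 ∉ F) :
    ∑ j, ((bas_A F cor (Sum.inr (Sum.inr (Sum.inl q))) j : ℤ) : R) * x j = x (Sum.inr q) := by
  classical
  rw [Fintype.sum_sum_type, Finset.sum_eq_single (s := (Finset.univ : Finset (Fin c × Fin 4))) q]
  · simp [bas_A, hq]
  · intro w _ hw; simp [bas_A, hw]
  · simp

private theorem bas_ro' (q : Fin c × Fin 4) (hq : cor q.1 q.2 ∈ F) :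
    ∑ j, ((bas_A F cor (Sum.inr (Sum.inr (Sum.inl q))) j : ℤ) : R) * x j = 0 := by
  refine Finset.sum_eq_zero fun j _ => ?_
  rcases j with j | j <;> simp [bas_A, hq]

private theorem bas_re (q : Fin c × Fin 4) (hq : IsEnd F cor q.1 ∧ cor q.1 q.2 ∈ F) :
    ∑ j, ((bas_A F cor (Sum.inr (Sum.inr (Sum.inr q))) j : ℤ) : R) * x j =
      x (Sum.inr q) - ((bas_sg q.2 : ℤ) : R) * x (Sum.inl q.1) := by
  classical
  rw [Fintype.sum_sum_type, Finset.sum_eq_single (s := (Finset.univ : Finset (Fin c × Fin 4))) q,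
    Finset.sum_eq_single (s := (Finset.univ : Finset (Fin c))) q.1]
  · simp [bas_A, hq]; ring
  · intro w _ hw; simp [bas_A, hw]
  · simp
  · intro w _ hw; simp [bas_A, hw]
  · simp

private theorem bas_re' (q : Fin c × Fin 4) (hq : ¬ (IsEnd F cor q.1 ∧ cor q.1 q.2 ∈ F)) :
    ∑ j, ((bas_A F cor (Sum.inr (Sum.inr (Sum.inr q))) j : ℤ) : R) * x j = 0 := by
  refine Finset.sum_eq_zero fun j _ => ?_
  rcases j with j | j <;> simp only [bas_A, hq, and_false, if_false, Int.cast_zero, zero_mul]

private theorem bas_iff :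
    IsLin F cor 0 x ↔ ∀ k, ∑ j, ((bas_A F cor k j : ℤ) : R) * x j = 0 := by
  classical
  constructor
  · intro h k
    rcases k with v | f | q | q
    · rw [bas_rv]; exact h.vert v
    · rw [bas_rf]; exact h.face f.1 f.2
    · by_cases hq : cor q.1 q.2 ∈ F
      · exact bas_ro' F cor x q hq
      · rw [bas_ro F cor x q hq]; exact h.out q.1 q.2 hq
    · by_cases hq : IsEnd F cor q.1 ∧ cor q.1 q.2 ∈ F
      · rw [bas_re F cor x q hq]
        have := h.endv q.1 q.2 hq.1 hq.2
        rw [bas_cz] at this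
        rw [← this]; simp
      · exact bas_re' F cor x q hq
  · intro h
    refine ⟨fun v => ?_, fun f hf => ?_, fun v k hk => ?_, fun v k hv hk => ?_⟩
    · rw [← bas_rv F cor x]; exact h _
    · exact (bas_rf F cor x ⟨f, hf⟩).symm.trans (h _)
    · exact (bas_ro F cor x (v, k) hk).symm.trans (h _)
    · rw [bas_cz]
      exact sub_eq_zero.1 ((bas_re F cor x (v, k) ⟨hv, hk⟩).symm.trans (h _))

end rows

private theorem bas_sub {R : Type*} [CommRing R] {c : ℕ} {F : Finset ℕ}
    {cor : Fin c → Fin 4 → ℕ} {n : R} {x y : Vr c → R}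
    (hx : IsLin F cor n x) (hy : IsLin F cor n y) : IsLin F cor 0 (fun j => x j - y j) := by
  refine ⟨fun v => ?_, fun f hf => ?_, fun v k hk => ?_, fun v k hv hk => ?_⟩
  · rw [Finset.sum_sub_distrib, hx.vert v, hy.vert v, sub_self]
  · have h1 := hx.face f hf
    have h2 := hy.face f hf
    calc ∑ v, ∑ k, (if cor v k = f then x (Sum.inr (v, k)) - y (Sum.inr (v, k)) else 0)
        = ∑ v, ∑ k, ((if cor v k = f then x (Sum.inr (v, k)) else 0) -
            (if cor v k = f then y (Sum.inr (v, k)) else 0)) := by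
          refine Finset.sum_congr rfl fun v _ => Finset.sum_congr rfl fun k _ => ?_
          split_ifs <;> simp
      _ = 0 := by
          simp only [Finset.sum_sub_distrib]
          rw [h1, h2, sub_self]
  · simp only [hx.out v k hk, hy.out v k hk, sub_self]
  · simp only [hx.endv v k hv hk, hy.endv v k hv hk]
    fin_cases k <;> simp [cz]

private theorem bas_cast {c : ℕ} {F : Finset ℕ} {cor : Fin c → Fin 4 → ℕ} {n : ℤ} {x : Vr c → ℤ}
    (hx : IsLin F cor n x) : IsLin F cor (n : ℝ) (fun j => (x j : ℝ)) := by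
  refine ⟨fun v => ?_, fun f hf => ?_, fun v k hk => ?_, fun v k hv hk => ?_⟩
  · have := congrArg (Int.cast : ℤ → ℝ) (hx.vert v)
    push_cast at this
    exact this
  · have := congrArg (Int.cast : ℤ → ℝ) (hx.face f hf)
    push_cast at this
    exact this
  · have := congrArg (Int.cast : ℤ → ℝ) (hx.out v k hk)
    push_cast at this
    exact this
  · have := congrArg (Int.cast : ℤ → ℝ) (hx.endv v k hv hk)
    rw [this]
    fin_cases k <;> simp [cz]

theorem exists_bas (hF : F.card = c) (h : IsInt F cor x) :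
    ∃ (d : ℕ) (b : Fin d → Vr c → ℤ) (x0 : Vr c → ℤ) (o : Fin d → ℝ), IsBas F cor b x0 ∧
      ∀ j, x j = x0 j + ∑ i, o i * (b i j : ℝ) := by
  obtain ⟨x0, hx0⟩ := exists_x0 hF h
  obtain ⟨d, b, hb, hs, hR, hi⟩ := int_kernel (bas_A F cor)
  have hbas : IsBas F cor b x0 := by
    refine ⟨hx0, fun i => ?_, fun y hy => ?_, fun y hy => ?_, hi⟩
    · rw [bas_iff]
      intro k
      have := congrFun (hb i) k
      simpa [Matrix.mulVec, dotProduct] using this
    · refine hs y ?_
      funext k
      have := (bas_iff F cor y).1 hy k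
      simpa [Matrix.mulVec, dotProduct] using this
    · refine hR y ?_
      funext k
      have := (bas_iff F cor y).1 hy k
      simpa only [Matrix.mulVec, dotProduct, Matrix.map_apply, Pi.zero_apply] using this
  have hd : IsLin F cor 0 (fun j => x j - (x0 j : ℝ)) := by
    have h1 := ang_lin h.ang
    have h2 := bas_cast hx0
    rw [Int.cast_one] at h2
    exact bas_sub h1 h2
  obtain ⟨o, ho⟩ := hbas.spanR _ hd
  refine ⟨d, b, x0, o, hbas, fun j => ?_⟩
  have := congrFun ho j
  rw [← this]; ring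

end Pool.Agent.H63.CLK
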