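import Pool.Agent.H63.CLK.C_Defs

/-!
# An integral solution

The masses `∑ k, (if cor v k = f then σ v k else 0)` form a doubly stochastic matrix (`F.card = c`;
`doublyStochastic_eq_convexHull_permMatrix` or `exists_eq_sum_perm_of_mem_doublyStochastic`);
a permutation of positive weight gives a corner `k v` with `cor v (k v) ∈ F` at every vertex, and
every bounded face occurs exactly once. At an end vertex `x0 (inl v)` is determined by `endv`:
the outer corners are `k`, `k + 1`, the corners `k + 2`, `k + 3` are bounded (their angles are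
`cz 1 τ > 0`), one of the size `τ` and one of the size `1 - τ`.
-/

set_option autoImplicit false

namespace Pool.Agent.H63.CLK

open Pool.Agent.H63.VC hiding ext
open Pool.Agent.H63.VC3 Pool.Agent.H63.VC4 Pool.Agent.H63.VC7 Complex Filter Topology
open scoped BigOperators

variable {c : ℕ} {F : Finset ℕ} {cor : Fin c → Fin 4 → ℕ} {x : Vr c → ℝ}

/-- The bounded corners of an end vertex. -/
theorem end_corners (h : IsInt F cor x) (v : Fin c) (hv : IsEnd F cor v) :
    ∃ k : Fin 4, cor v k ∉ F ∧ cor v (k + 1) ∉ F ∧ cor v (k + 2) ∈ F ∧ cor v (k + 3) ∈ F := by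
  obtain ⟨k, h1, h2⟩ := hv
  have o1 := h.ang.out v k h1
  have o2 := h.ang.out v (k + 1) h2
  have hs := h.ang.vert v
  have hl := h.ang.le v
  have hh := h.half v
  have h1' := h.lt1 v
  refine ⟨k, h1, h2, ?_, ?_⟩
  · by_contra h3
    have o3 := h.ang.out v (k + 2) h3
    have l0 := hl (k + 3)
    clear h1 h2 h3
    rw [Fin.sum_univ_four] at hs
    fin_cases k <;> simp [cz] at o1 o2 o3 l0 hs <;> linarith
  · by_contra h3
    have o3 := h.ang.out v (k + 3) h3
    have l0 := hl (k + 2)
    clear h1 h2 h3
    rw [Fin.sum_univ_four] at hs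
    fin_cases k <;> simp [cz] at o1 o2 o3 l0 hs <;> linarith

open Classical in
/-- The corners of a perfect matching. -/
private theorem C_Birk_match (hF : F.card = c) (h : IsInt F cor x) :
    ∃ κ : Fin c → Fin 4, (∀ v, cor v (κ v) ∈ F) ∧ ∀ f ∈ F, ∃! v, cor v (κ v) = f := by
  have e : Fin c ≃ F := (finCongr hF.symm).trans F.equivFin.symm
  set A : Matrix (Fin c) (Fin c) ℝ := fun v j =>
    ∑ k, (if cor v k = (e j : ℕ) then x (Sum.inr (v, k)) else 0) with hA
  have hmem : A ∈ doublyStochastic ℝ (Fin c) := by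
    rw [mem_doublyStochastic_iff_sum]
    refine ⟨?_, ?_, ?_⟩
    · intro i j
      refine Finset.sum_nonneg fun k _ => ?_
      split_ifs
      · exact h.ang.nn i k
      · exact le_refl 0
    · intro v
      rw [← h.ang.vert v]
      simp only [hA]
      rw [Finset.sum_comm]
      refine Finset.sum_congr rfl fun k _ => ?_
      by_cases hk : cor v k ∈ F
      · rw [Finset.sum_eq_single (e.symm ⟨cor v k, hk⟩)]
        · simp
        · intro j _ hj
          rw [if_neg]
          intro h'
          apply hj
          rw [Equiv.eq_symm_apply]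
          exact Subtype.ext h'.symm
        · intro h'
          exact absurd (Finset.mem_univ _) h'
      · rw [h.ang.out v k hk]
        simp
    · intro j
      exact h.ang.face _ (e j).2
  obtain ⟨w, hw0, hw1, hw⟩ := exists_eq_sum_perm_of_mem_doublyStochastic hmem
  obtain ⟨σ, -, hσ⟩ : ∃ σ ∈ (Finset.univ : Finset (Equiv.Perm (Fin c))), 0 < w σ := by
    apply Finset.exists_lt_of_sum_lt (f := fun _ => (0 : ℝ))
    rw [hw1]
    simp
  have hpos : ∀ v, 0 < A v (σ v) := by
    intro v
    rw [← hw, Matrix.sum_apply]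
    refine Finset.sum_pos' (fun τ _ => ?_) ⟨σ, Finset.mem_univ _, ?_⟩
    · rw [Matrix.smul_apply, Equiv.Perm.permMatrix, PEquiv.toMatrix_apply]
      split_ifs
      · simpa using hw0 τ
      · simp
    · rw [Matrix.smul_apply, Equiv.Perm.permMatrix, PEquiv.toMatrix_apply]
      simpa using hσ
  have hk : ∀ v, ∃ k, cor v k = (e (σ v) : ℕ) := by
    intro v
    by_contra hc
    push Not at hc
    have := hpos v
    simp [hA, hc] at this
  choose κ hκ using hk
  refine ⟨κ, fun v => ?_, fun f hf => ⟨σ.symm (e.symm ⟨f, hf⟩), ?_, ?_⟩⟩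
  · rw [hκ v]
    exact (e (σ v)).2
  · simp [hκ]
  · intro v hv
    simp only [hκ] at hv
    rw [Equiv.eq_symm_apply, Equiv.eq_symm_apply]
    exact Subtype.ext hv

private theorem C_Birk_adj (k k' : Fin 4) (hk' : k' = k + 2 ∨ k' = k + 3) (m : Fin 4)
    (hm : m = k + 2 ∨ m = k + 3) :
    (if m = k' then (1 : ℤ) else 0) = cz 1 (if k' = 1 ∨ k' = 3 then (1 : ℤ) else 0) m := by
  revert k k' m
  decide

theorem exists_x0 (hF : F.card = c) (h : IsInt F cor x) : ∃ x0 : Vr c → ℤ, IsLin F cor 1 x0 := by
  obtain ⟨κ, hκ, hu⟩ := C_Birk_match hF h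
  refine ⟨Sum.elim (fun v => if κ v = 1 ∨ κ v = 3 then 1 else 0)
    (fun p => if p.2 = κ p.1 then 1 else 0), ?_, ?_, ?_, ?_⟩
  · intro v
    simp
  · intro f hf
    obtain ⟨v, hv, hv'⟩ := hu f hf
    have key : ∀ u, ∑ k, (if cor u k = f then (Sum.elim (fun v => if κ v = 1 ∨ κ v = 3 then 1 else 0)
        (fun p => if p.2 = κ p.1 then 1 else 0) : Vr c → ℤ) (Sum.inr (u, k)) else 0)
        = if u = v then 1 else 0 := by
      intro u
      rw [Finset.sum_eq_single (κ u)]
      · by_cases hu' : cor u (κ u) = f
        · have := hv' u hu'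
          simp [this, hv]
        · have : u ≠ v := by
            rintro rfl
            exact hu' hv
          simp [hu', this]
      · intro k _ hk
        simp [hk]
      · intro h'
        exact absurd (Finset.mem_univ _) h'
    rw [Finset.sum_congr rfl fun u _ => key u]
    simp
  · intro v k hk
    have : k ≠ κ v := by
      rintro rfl
      exact hk (hκ v)
    simp [this]
  · intro v k hv hk
    obtain ⟨k0, h0, h1, h2, h3⟩ := end_corners h v hv
    have hm : ∀ m : Fin 4, cor v m ∈ F → m = k0 + 2 ∨ m = k0 + 3 := by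
      intro m hm
      have a0 : m ≠ k0 := by
        rintro rfl
        exact h0 hm
      have a1 : m ≠ k0 + 1 := by
        rintro rfl
        exact h1 hm
      revert a0 a1
      clear h0 h1 h2 h3 hm
      revert m k0
      decide
    have := C_Birk_adj k0 (κ v) (hm _ (hκ v)) k (hm k hk)
    simpa using this

end Pool.Agent.H63.CLK
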