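import Pool.Agent.H63.CLK.D_Crit

/-!
# Functions on the strands and functions on the faces, mod 2

Induction over both sweeps (`Sweep.step`, `Strands.step`) at the same time. Invariant `Inv S R` for the states `S : Sweep`, `R : Strands`:
* `S.gaps.length = R.str.length + 1`, `S.cor.length = R.leg.length`;
* all labels in `S.gaps`, `S.cor` are `< S.nxt`, all labels in `R.str`, `R.leg` are `< R.nxt`, `2 ≤ S.nxt`, `1 ≤ R.nxt`;
* all labels in `S.gaps` and in `S.cor` are in `S.faces`, and `0, 1 ∈ S.faces`;
* for every `z : ℕ → ZMod 2` with `∑ k, z (x k) = 0` for all `x ∈ R.leg` there is `χ : ℕ → ZMod 2` with `χ 0 = 0`, `χ 1 = z 0`,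
  `χ (gaps (j + 1)) = χ (gaps j) + z (str j)` for all `j < R.str.length`, and `χ (x k) = χ (x (k - 1)) + z (y k)` for all corresponding
  `x ∈ S.cor`, `y ∈ R.leg` (`List.Forall₂`) and `k : Fin 4` (the leg `k` lies between the corners `k - 1` and `k`).
Steps. `cup i`: the new strand `R.nxt` (twice) and the new gap `S.nxt`: `χ' = update χ S.nxt (χ a + z R.nxt)`. `tw i`: the new gap `S.nxt` between the new
strands `R.nxt`, `R.nxt + 1`, `χ' = update χ S.nxt (χ a + z R.nxt)`; the gap to the right is consistent since `z` is even at the new twist region.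
`cap i`: the strands `a', b'` are identified, the gaps `a`, `b` on both sides of them are identified. Apply the invariant to `z ∘ ident a' b'`; then
`χ b = χ a + z (ident a' b' a') + z (ident a' b' b') = χ a`, so `χ (ident a b x) = χ x` for all `x` and the same `χ` works; `ident a b 0 = 0`,
`ident a b 1 = 1` and `ident a' b' 0 = 0` (since `max a b ≥ 2`). Membership in `S.faces.erase (max a b)`: `List.mem_erase_of_ne`.
At the end `R.str = [z0]`, `S.gaps = [0, 1]`; the final labels of the legs are `ident 0 z0 ∘ x`: apply the invariant to `z ∘ ident 0 z0`.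
A convenient form of the level condition: a recursive predicate on lists
`Lev χ z : List ℕ → List ℕ → Prop`, `Lev [a] [] = True`, `Lev (a :: b :: g) (s :: t) = (χ b = χ a + z s ∧ Lev (b :: g) t)`, otherwise `False`,
with `Lev (A ++ a :: B) (s ++ t) ↔ Lev (A ++ [a]) s ∧ Lev (a :: B) t` if `A.length = s.length`.
-/

set_option autoImplicit false

namespace Pool.Agent.H63.CLK

variable {c : ℕ}

/-- The level condition: the function `χ` on the gaps changes by `z` at the strands. -/
private def C_Chi_Lev (χ z : ℕ → ZMod 2) : List ℕ → List ℕ → Prop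
  | [_], [] => True
  | a :: b :: g, s :: t => χ b = χ a + z s ∧ C_Chi_Lev χ z (b :: g) t
  | _, _ => False

private theorem C_Chi_Lev_cons (χ z : ℕ → ZMod 2) (a b s : ℕ) (g t : List ℕ) :
    C_Chi_Lev χ z (a :: b :: g) (s :: t) ↔ χ b = χ a + z s ∧ C_Chi_Lev χ z (b :: g) t := Iff.rfl

private theorem C_Chi_split (χ z : ℕ → ZMod 2) (a : ℕ) (B t : List ℕ) :
    ∀ (A s : List ℕ), A.length = s.length → (C_Chi_Lev χ z (A ++ a :: B) (s ++ t) ↔
      C_Chi_Lev χ z (A ++ [a]) s ∧ C_Chi_Lev χ z (a :: B) t)
  | [], [], _ => by
      show C_Chi_Lev χ z (a :: B) t ↔ True ∧ C_Chi_Lev χ z (a :: B) t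
      rw [true_and]
  | [x], [y], _ => by
      show (χ a = χ x + z y ∧ C_Chi_Lev χ z (a :: B) t) ↔
        (χ a = χ x + z y ∧ True) ∧ C_Chi_Lev χ z (a :: B) t
      rw [and_true]
  | x :: x' :: A, y :: s, h => by
      have ih := C_Chi_split χ z a B t (x' :: A) s (by simpa using h)
      simp only [List.cons_append] at ih ⊢
      rw [C_Chi_Lev_cons, C_Chi_Lev_cons, ih, and_assoc]
  | [], _ :: _, h => by simp at h
  | _ :: _, [], h => by simp at h
  | [x], y :: y' :: s, h => by simp at h

private theorem C_Chi_congr {χ χ' z : ℕ → ZMod 2} : ∀ (g s : List ℕ), (∀ x ∈ g, χ' x = χ x) →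
    C_Chi_Lev χ z g s → C_Chi_Lev χ' z g s
  | [_], [], _, _ => trivial
  | a :: b :: g, s :: t, h, hl =>
      ⟨by rw [h b (by simp), h a (by simp)]; exact hl.1,
        C_Chi_congr (b :: g) t (fun x hx => h x (List.mem_cons_of_mem _ hx)) hl.2⟩
  | [], _, _, hl => hl.elim
  | [_], _ :: _, _, hl => hl.elim
  | _ :: _ :: _, [], _, hl => hl.elim

private theorem C_Chi_map {χ z : ℕ → ZMod 2} (f h : ℕ → ℕ) : ∀ (g s : List ℕ),
    C_Chi_Lev (χ ∘ f) (z ∘ h) g s → C_Chi_Lev χ z (g.map f) (s.map h)
  | [_], [], _ => trivial
  | a :: b :: g, s :: t, hl => ⟨hl.1, C_Chi_map f h (b :: g) t hl.2⟩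
  | [], _, hl => hl.elim
  | [_], _ :: _, hl => hl.elim
  | _ :: _ :: _, [], hl => hl.elim

private theorem C_Chi_head {χ z : ℕ → ZMod 2} {a b : ℕ} (hab : χ a = χ b) : ∀ (r t : List ℕ),
    C_Chi_Lev χ z (b :: r) t → C_Chi_Lev χ z (a :: r) t
  | [], [], _ => trivial
  | c :: r, s :: t, hl => ⟨by rw [hab]; exact hl.1, hl.2⟩
  | [], _ :: _, hl => hl.elim
  | _ :: _, [], hl => hl.elim

/-- The corner condition. -/
private def C_Chi_Cor (χ z : ℕ → ZMod 2) (x y : Fin 4 → ℕ) : Prop :=
  ∀ k, χ (x k) = χ (x (k - 1)) + z (y k)

private structure C_Chi_Inv (S : Sweep) (R : Strands) : Prop where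
  len : S.gaps.length = R.str.length + 1
  gl : ∀ x ∈ S.gaps, x < S.nxt
  cl : ∀ x ∈ S.cor, ∀ k, x k < S.nxt
  n2 : 2 ≤ S.nxt
  ext : ∀ z : ℕ → ZMod 2, (∀ x ∈ R.leg, ∑ k, z (x k) = 0) →
    ∃ χ : ℕ → ZMod 2, χ 0 = 0 ∧ χ 1 = z 0 ∧ C_Chi_Lev χ z S.gaps R.str ∧
      List.Forall₂ (C_Chi_Cor χ z) S.cor R.leg

private theorem C_Chi_ident_zero (a b : ℕ) : ident a b 0 = 0 := by
  unfold ident
  split
  · rename_i h
    have : max a b = 0 := h.symm
    omega
  · rfl

private theorem C_Chi_ident_lt {a b x n : ℕ} (ha : a < n) (hx : x < n) : ident a b x < n := by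
  unfold ident
  split
  · exact lt_of_le_of_lt (min_le_left a b) ha
  · exact hx

private theorem C_Chi_ident_chi {χ : ℕ → ZMod 2} {a b : ℕ} (h : χ a = χ b) (x : ℕ) :
    χ (ident a b x) = χ x := by
  unfold ident
  split
  · rename_i hx
    subst hx
    rcases le_total a b with h1 | h1
    · rw [min_eq_left h1, max_eq_right h1, h]
    · rw [min_eq_right h1, max_eq_left h1, h]
  · rfl

private theorem C_Chi_ident_two (a b : ℕ) : ident a b a = ident a b b := by
  unfold ident
  rcases lt_trichotomy a b with h | h | h
  · rw [max_eq_right h.le, min_eq_left h.le, if_neg h.ne, if_pos rfl]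
  · subst h; rfl
  · rw [max_eq_left h.le, min_eq_right h.le, if_pos rfl, if_neg h.ne]

private theorem C_Chi_two (x : ZMod 2) : x + x = 0 := CharTwo.add_self_eq_zero x

private theorem C_Chi_upd {χ : ℕ → ZMod 2} {n : ℕ} {v : ZMod 2} {x : ℕ} (h : x < n) :
    Function.update χ n v x = χ x := Function.update_of_ne h.ne _ _

private theorem C_Chi_cor_upd {χ z : ℕ → ZMod 2} {n : ℕ} {v : ZMod 2} {l l' : List (Fin 4 → ℕ)}
    (hl : ∀ x ∈ l, ∀ k, x k < n) (h : List.Forall₂ (C_Chi_Cor χ z) l l') :
    List.Forall₂ (C_Chi_Cor (Function.update χ n v) z) l l' := by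
  refine List.Forall₂.imp ?_ ((List.forall₂_and_left l l').2 ⟨hl, h⟩)
  intro x y hxy k
  rw [C_Chi_upd (hxy.1 k), C_Chi_upd (hxy.1 (k - 1))]
  exact hxy.2 k

private theorem C_Chi_step_cup {S S' : Sweep} {R R' : Strands} (i : ℕ) (h : C_Chi_Inv S R)
    (hS : S.step (.cup i) = some S') (hR : R.step (.cup i) = some R') : C_Chi_Inv S' R' := by
  simp only [Sweep.step] at hS
  split at hS
  case h_2 => exact absurd hS (by simp)
  case h_1 a r hd =>
    simp only [Strands.step, Option.some.injEq] at hS hR
    subst hS hR
    have hg : S.gaps = S.gaps.take i ++ a :: r := by rw [← hd, List.take_append_drop]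
    have hi : i < S.gaps.length := by
      by_contra hcon
      rw [List.drop_eq_nil_of_le (not_lt.mp hcon)] at hd
      exact absurd hd (by simp)
    have hl := h.len
    have hAl : (S.gaps.take i).length = i := by rw [List.length_take]; omega
    have hsl : (R.str.take i).length = i := by rw [List.length_take]; omega
    have hlen : r.length + i = R.str.length := by
      have := congrArg List.length hg
      rw [List.length_append, hAl, List.length_cons] at this
      omega
    have hmA : ∀ x ∈ S.gaps.take i, x < S.nxt := fun x hx => h.gl x (List.mem_of_mem_take hx)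
    have hma : a < S.nxt := h.gl a (by rw [hg]; simp)
    have hmr : ∀ x ∈ r, x < S.nxt := fun x hx => h.gl x (by rw [hg]; simp [hx])
    have hn2 := h.n2
    refine ⟨?_, ?_, ?_, ?_, ?_⟩
    · simp only [List.length_append, List.length_cons, hAl, hsl, List.length_drop]
      omega
    · intro x hx
      show x < S.nxt + 1
      simp only [List.mem_append, List.mem_cons] at hx
      rcases hx with hx | rfl | rfl | rfl | hx
      · have := hmA x hx; omega
      · omega
      · omega
      · omega
      · have := hmr x hx; omega
    · intro x hx k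
      have := h.cl x hx k
      show x k < S.nxt + 1
      omega
    · show 2 ≤ S.nxt + 1
      omega
    · intro z hz
      obtain ⟨χ, h0, h1, h2, h3⟩ := h.ext z hz
      rw [hg, ← List.take_append_drop i R.str,
        C_Chi_split χ z a r _ _ _ (by rw [hAl, hsl])] at h2
      refine ⟨Function.update χ S.nxt (χ a + z R.nxt), ?_, ?_, ?_, ?_⟩
      · rw [C_Chi_upd (by omega), h0]
      · rw [C_Chi_upd (by omega), h1]
      · show C_Chi_Lev _ z (S.gaps.take i ++ a :: S.nxt :: a :: r)
          (R.str.take i ++ R.nxt :: R.nxt :: R.str.drop i)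
        rw [C_Chi_split _ z a _ _ _ _ (by rw [hAl, hsl])]
        refine ⟨C_Chi_congr _ _ ?_ h2.1, ?_, ?_, C_Chi_congr _ _ ?_ h2.2⟩
        · intro x hx
          simp only [List.mem_append, List.mem_singleton] at hx
          rcases hx with hx | rfl
          · exact C_Chi_upd (hmA x hx)
          · exact C_Chi_upd hma
        · rw [Function.update_self, C_Chi_upd hma]
        · rw [Function.update_self, C_Chi_upd hma, add_assoc, C_Chi_two, add_zero]
        · intro x hx
          simp only [List.mem_cons] at hx
          rcases hx with rfl | hx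
          · exact C_Chi_upd hma
          · exact C_Chi_upd (hmr x hx)
      · exact C_Chi_cor_upd h.cl h3

private theorem C_Chi_step_tw {S S' : Sweep} {R R' : Strands} (i : ℕ) (h : C_Chi_Inv S R)
    (hS : S.step (.tw i) = some S') (hR : R.step (.tw i) = some R') : C_Chi_Inv S' R' := by
  simp only [Sweep.step] at hS
  split at hS
  case h_2 => exact absurd hS (by simp)
  case h_1 a b c r hd =>
    simp only [Strands.step] at hR
    split at hR
    case h_2 => exact absurd hR (by simp)
    case h_1 a' b' t hd' =>
      simp only [Option.some.injEq] at hS hR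
      subst hS hR
      have hg : S.gaps = S.gaps.take i ++ a :: b :: c :: r := by rw [← hd, List.take_append_drop]
      have hs : R.str = R.str.take i ++ a' :: b' :: t := by rw [← hd', List.take_append_drop]
      have hi : i < S.gaps.length := by
        by_contra hcon
        rw [List.drop_eq_nil_of_le (not_lt.mp hcon)] at hd
        exact absurd hd (by simp)
      have hl := h.len
      have hAl : (S.gaps.take i).length = i := by rw [List.length_take]; omega
      have hsl : (R.str.take i).length = i := by rw [List.length_take]; omega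
      have hlen : r.length = t.length := by
        have h1 := congrArg List.length hg
        have h2 := congrArg List.length hs
        rw [List.length_append, hAl] at h1
        rw [List.length_append, hsl] at h2
        simp only [List.length_cons] at h1 h2
        omega
      have hmA : ∀ x ∈ S.gaps.take i, x < S.nxt := fun x hx => h.gl x (List.mem_of_mem_take hx)
      have hma : a < S.nxt := h.gl a (by rw [hg]; simp)
      have hmb : b < S.nxt := h.gl b (by rw [hg]; simp)
      have hmc : c < S.nxt := h.gl c (by rw [hg]; simp)
      have hmr : ∀ x ∈ r, x < S.nxt := fun x hx => h.gl x (by rw [hg]; simp [hx])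
      have hn2 := h.n2
      refine ⟨?_, ?_, ?_, ?_, ?_⟩
      · simp only [List.length_append, List.length_cons, hAl, hsl]
        omega
      · intro x hx
        show x < S.nxt + 1
        simp only [List.mem_append, List.mem_cons] at hx
        rcases hx with hx | rfl | rfl | rfl | hx
        · have := hmA x hx; omega
        · omega
        · omega
        · omega
        · have := hmr x hx; omega
      · intro x hx k
        show x k < S.nxt + 1
        simp only [List.mem_append, List.mem_singleton] at hx
        rcases hx with hx | rfl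
        · have := h.cl x hx k
          omega
        · fin_cases k
          · show S.nxt < S.nxt + 1
            omega
          · show c < S.nxt + 1
            omega
          · show b < S.nxt + 1
            omega
          · show a < S.nxt + 1
            omega
      · show 2 ≤ S.nxt + 1
        omega
      · intro z hz
        obtain ⟨χ, h0, h1, h2, h3⟩ := h.ext z (fun x hx => hz x (List.mem_append_left _ hx))
        have hz' : z R.nxt + z (R.nxt + 1) + z b' + z a' = 0 := by
          have := hz ![R.nxt, R.nxt + 1, b', a'] (by simp)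
          rw [Fin.sum_univ_four] at this
          exact this
        rw [hg, hs, C_Chi_split χ z a _ _ _ _ (by rw [hAl, hsl]), C_Chi_Lev_cons,
          C_Chi_Lev_cons] at h2
        obtain ⟨h2, hb, hc, h4⟩ := h2
        have hca : χ c = χ a + z R.nxt + z (R.nxt + 1) := by
          rw [hc, hb]
          have e : z a' + z b' = z R.nxt + z (R.nxt + 1) := by
            have e1 := C_Chi_two (z a')
            have e2 := C_Chi_two (z b')
            linear_combination e1 + e2 - hz'
          rw [add_assoc, e, add_assoc]
        refine ⟨Function.update χ S.nxt (χ a + z R.nxt), ?_, ?_, ?_, ?_⟩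
        · rw [C_Chi_upd (by omega), h0]
        · rw [C_Chi_upd (by omega), h1]
        · show C_Chi_Lev _ z (S.gaps.take i ++ a :: S.nxt :: c :: r)
            (R.str.take i ++ R.nxt :: (R.nxt + 1) :: t)
          rw [C_Chi_split _ z a _ _ _ _ (by rw [hAl, hsl])]
          refine ⟨C_Chi_congr _ _ ?_ h2, ?_, ?_, C_Chi_congr _ _ ?_ h4⟩
          · intro x hx
            simp only [List.mem_append, List.mem_singleton] at hx
            rcases hx with hx | rfl
            · exact C_Chi_upd (hmA x hx)
            · exact C_Chi_upd hma
          · rw [Function.update_self, C_Chi_upd hma]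
          · rw [Function.update_self, C_Chi_upd hmc, hca]
          · intro x hx
            simp only [List.mem_cons] at hx
            rcases hx with rfl | hx
            · exact C_Chi_upd hmc
            · exact C_Chi_upd (hmr x hx)
        · refine List.rel_append (C_Chi_cor_upd h.cl h3) (List.Forall₂.cons ?_ List.Forall₂.nil)
          intro k
          fin_cases k
          · show Function.update χ S.nxt (χ a + z R.nxt) S.nxt =
              Function.update χ S.nxt (χ a + z R.nxt) a + z R.nxt
            rw [Function.update_self, C_Chi_upd hma]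
          · show Function.update χ S.nxt (χ a + z R.nxt) c =
              Function.update χ S.nxt (χ a + z R.nxt) S.nxt + z (R.nxt + 1)
            rw [Function.update_self, C_Chi_upd hmc, hca]
          · show Function.update χ S.nxt (χ a + z R.nxt) b =
              Function.update χ S.nxt (χ a + z R.nxt) c + z b'
            rw [C_Chi_upd hmb, C_Chi_upd hmc, hc, add_assoc, C_Chi_two, add_zero]
          · show Function.update χ S.nxt (χ a + z R.nxt) a =
              Function.update χ S.nxt (χ a + z R.nxt) b + z a'
            rw [C_Chi_upd hma, C_Chi_upd hmb, hb, add_assoc, C_Chi_two, add_zero]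

private theorem C_Chi_step_cap {S S' : Sweep} {R R' : Strands} (i : ℕ) (h : C_Chi_Inv S R)
    (hS : S.step (.cap i) = some S') (hR : R.step (.cap i) = some R') : C_Chi_Inv S' R' := by
  simp only [Sweep.step] at hS
  split at hS
  case h_2 => exact absurd hS (by simp)
  case h_1 a g b r hd =>
    split_ifs at hS with hab
    simp only [Strands.step] at hR
    split at hR
    case h_2 => exact absurd hR (by simp)
    case h_1 a' b' t hd' =>
      simp only [Option.some.injEq] at hS hR
      subst hS hR
      have hg : S.gaps = S.gaps.take i ++ a :: g :: b :: r := by rw [← hd, List.take_append_drop]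
      have hs : R.str = R.str.take i ++ a' :: b' :: t := by rw [← hd', List.take_append_drop]
      have hi : i < S.gaps.length := by
        by_contra hcon
        rw [List.drop_eq_nil_of_le (not_lt.mp hcon)] at hd
        exact absurd hd (by simp)
      have hl := h.len
      have hAl : (S.gaps.take i).length = i := by rw [List.length_take]; omega
      have hsl : (R.str.take i).length = i := by rw [List.length_take]; omega
      have hlen : r.length = t.length := by
        have h1 := congrArg List.length hg
        have h2 := congrArg List.length hs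
        rw [List.length_append, hAl] at h1
        rw [List.length_append, hsl] at h2
        simp only [List.length_cons] at h1 h2
        omega
      have hma : a < S.nxt := h.gl a (by rw [hg]; simp)
      have hn2 := h.n2
      refine ⟨?_, ?_, ?_, hn2, ?_⟩
      · simp only [List.length_map, List.length_append, List.length_cons, hAl, hsl]
        omega
      · intro x hx
        show x < S.nxt
        obtain ⟨y, hy, rfl⟩ := List.mem_map.1 hx
        refine C_Chi_ident_lt hma (h.gl y ?_)
        rw [hg]
        simp only [List.mem_append, List.mem_cons] at hy ⊢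
        tauto
      · intro x hx k
        obtain ⟨y, hy, rfl⟩ := List.mem_map.1 hx
        exact C_Chi_ident_lt hma (h.cl y hy k)
      · intro z hz
        obtain ⟨χ, h0, h1, h2, h3⟩ := h.ext (fun x => z (ident a' b' x)) (fun x hx =>
          hz (fun k => ident a' b' (x k)) (List.mem_map.2 ⟨x, hx, rfl⟩))
        rw [hg, hs, C_Chi_split χ _ a _ _ _ _ (by rw [hAl, hsl]), C_Chi_Lev_cons,
          C_Chi_Lev_cons] at h2
        obtain ⟨h2, hb, hc, h4⟩ := h2
        have hχ : χ a = χ b := by
          rw [hc, hb, C_Chi_ident_two a' b', add_assoc, C_Chi_two, add_zero]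
        have hcomp : χ ∘ ident a b = χ := funext fun x => C_Chi_ident_chi hχ x
        refine ⟨χ, h0, ?_, ?_, ?_⟩
        · rw [h1, C_Chi_ident_zero]
        · refine C_Chi_map _ _ _ _ ?_
          rw [hcomp, C_Chi_split χ _ a _ _ _ _ (by rw [hAl, hsl])]
          exact ⟨h2, C_Chi_head hχ _ _ h4⟩
        · show List.Forall₂ (C_Chi_Cor χ z) (S.cor.map (fun x k => ident a b (x k)))
            (R.leg.map (fun x k => ident a' b' (x k)))
          rw [List.forall₂_map_left_iff, List.forall₂_map_right_iff]
          refine List.Forall₂.imp ?_ h3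
          intro x y hxy k
          rw [C_Chi_ident_chi hχ, C_Chi_ident_chi hχ]
          exact hxy k

private theorem C_Chi_run : ∀ (w : List TPiece) {S S' : Sweep} {R R' : Strands},
    C_Chi_Inv S R → sweep w S = some S' → strands w R = some R' → C_Chi_Inv S' R'
  | [], S, S', R, R', h, hS, hR => by
      simp only [sweep, strands, Option.some.injEq] at hS hR
      subst hS hR
      exact h
  | x :: w, S, S', R, R', h, hS, hR => by
      simp only [sweep, strands, Option.bind_eq_some_iff] at hS hR
      obtain ⟨S1, h1, h2⟩ := hS
      obtain ⟨R1, h3, h4⟩ := hR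
      refine C_Chi_run w ?_ h2 h4
      cases x with
      | cup i => exact C_Chi_step_cup i h h1 h3
      | cap i => exact C_Chi_step_cap i h h1 h3
      | tw i => exact C_Chi_step_tw i h h1 h3

private theorem C_Chi_init : C_Chi_Inv Sweep.init Strands.init := by
  refine ⟨rfl, ?_, ?_, le_rfl, ?_⟩
  · intro x hx
    show x < 2
    simp only [Sweep.init, List.mem_cons, List.not_mem_nil, or_false] at hx
    omega
  · intro x hx
    simp [Sweep.init] at hx
  · intro z _
    refine ⟨fun x => if x = 0 then 0 else z 0, rfl, rfl, ?_, List.Forall₂.nil⟩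
    show _ ∧ True
    refine ⟨?_, trivial⟩
    show z 0 = 0 + z 0
    rw [zero_add]

/-- Every mod-2 function on the strands which is even at all twist regions comes from a function on the faces. -/
theorem exists_chi {w : List TPiece} {T : TData c} (hT : T.Of w) (z : ℕ → ZMod 2)
    (hz : ∀ v, ∑ k, z (T.leg v k) = 0) :
    ∃ χ : ℕ → ZMod 2, χ 0 = 0 ∧ χ 1 = z 0 ∧
      ∀ v k, χ (T.cor v k) = χ (T.cor v (k - 1)) + z (T.leg v k) := by
  obtain ⟨S, hS, hgaps, hcor, _⟩ := hT.tmpl
  obtain ⟨R, z0, hR, hstr, hleg⟩ := hT.legs
  have hI := C_Chi_run w C_Chi_init hS hR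
  obtain ⟨χ, h0, h1, _, h3⟩ := hI.ext (fun x => z (ident 0 z0 x)) (by
    intro x hx
    have hm : (fun k => ident 0 z0 (x k)) ∈ List.ofFn T.leg := by
      rw [hleg]
      exact List.mem_map.2 ⟨x, hx, rfl⟩
    obtain ⟨v, hv⟩ := List.mem_ofFn.1 hm
    have := hz v
    rw [hv] at this
    exact this)
  refine ⟨χ, h0, ?_, ?_⟩
  · rw [h1, C_Chi_ident_zero]
  · have h4 : List.Forall₂ (C_Chi_Cor χ z) (List.ofFn T.cor) (List.ofFn T.leg) := by
      rw [← hcor, hleg, List.forall₂_map_right_iff]
      exact h3
    intro v k
    have h5 := (List.forall₂_iff_get.1 h4).2 v (by simp) (by simp)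
    simp only [List.get_eq_getElem, List.getElem_ofFn] at h5
    exact h5 k

private theorem C_Chi_ident_mem {a b x : ℕ} {F : List ℕ} (hab : a ≠ b) (ha : a ∈ F) (hb : b ∈ F)
    (hx : x ∈ F) : ident a b x ∈ F.erase (max a b) := by
  unfold ident
  split
  · have h1 : min a b ≠ max a b := by
      intro h
      apply hab
      omega
    rw [List.mem_erase_of_ne h1]
    rcases le_total a b with h | h
    · rw [min_eq_left h]; exact ha
    · rw [min_eq_right h]; exact hb
  · rename_i h
    rw [List.mem_erase_of_ne h]
    exact hx

private theorem C_Chi_mem_run : ∀ (w : List TPiece) {S S' : Sweep},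
    ((∀ x ∈ S.gaps, x ∈ S.faces) ∧ ∀ x ∈ S.cor, ∀ k, x k ∈ S.faces) →
    sweep w S = some S' → ((∀ x ∈ S'.gaps, x ∈ S'.faces) ∧ ∀ x ∈ S'.cor, ∀ k, x k ∈ S'.faces)
  | [], S, S', h, hS => by
      simp only [sweep, Option.some.injEq] at hS
      subst hS
      exact h
  | x :: w, S, S', h, hS => by
      simp only [sweep, Option.bind_eq_some_iff] at hS
      obtain ⟨S1, h1, h2⟩ := hS
      refine C_Chi_mem_run w ?_ h2
      obtain ⟨hg, hc⟩ := h
      cases x with
      | cup i =>
        simp only [Sweep.step] at h1
        split at h1
        case h_2 => exact absurd h1 (by simp)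
        case h_1 a r hd =>
          simp only [Option.some.injEq] at h1
          subst h1
          have hgs : S.gaps = S.gaps.take i ++ a :: r := by rw [← hd, List.take_append_drop]
          refine ⟨fun y hy => ?_, fun y hy k => List.mem_cons_of_mem _ (hc y hy k)⟩
          have hy' : y = S.nxt ∨ y ∈ S.gaps := by
            rw [hgs]
            simp only [List.mem_append, List.mem_cons] at hy ⊢
            tauto
          rcases hy' with rfl | hy'
          · exact List.mem_cons_self
          · exact List.mem_cons_of_mem _ (hg y hy')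
      | tw i =>
        simp only [Sweep.step] at h1
        split at h1
        case h_2 => exact absurd h1 (by simp)
        case h_1 a b c r hd =>
          simp only [Option.some.injEq] at h1
          subst h1
          have hgs : S.gaps = S.gaps.take i ++ a :: b :: c :: r := by
            rw [← hd, List.take_append_drop]
          have hma : a ∈ S.faces := hg a (by rw [hgs]; simp)
          have hmb : b ∈ S.faces := hg b (by rw [hgs]; simp)
          have hmc : c ∈ S.faces := hg c (by rw [hgs]; simp)
          refine ⟨fun y hy => ?_, fun y hy k => ?_⟩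
          · have hy' : y = S.nxt ∨ y ∈ S.gaps := by
              rw [hgs]
              simp only [List.mem_append, List.mem_cons] at hy ⊢
              tauto
            rcases hy' with rfl | hy'
            · exact List.mem_cons_self
            · exact List.mem_cons_of_mem _ (hg y hy')
          · simp only [List.mem_append, List.mem_singleton] at hy
            rcases hy with hy | rfl
            · exact List.mem_cons_of_mem _ (hc y hy k)
            · fin_cases k
              · exact List.mem_cons_self
              · exact List.mem_cons_of_mem _ hmc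
              · exact List.mem_cons_of_mem _ hmb
              · exact List.mem_cons_of_mem _ hma
      | cap i =>
        simp only [Sweep.step] at h1
        split at h1
        case h_2 => exact absurd h1 (by simp)
        case h_1 a g b r hd =>
          split_ifs at h1 with hab
          simp only [Option.some.injEq] at h1
          subst h1
          have hgs : S.gaps = S.gaps.take i ++ a :: g :: b :: r := by
            rw [← hd, List.take_append_drop]
          have hma : a ∈ S.faces := hg a (by rw [hgs]; simp)
          have hmb : b ∈ S.faces := hg b (by rw [hgs]; simp)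
          have hne : a ≠ b := fun h => hab (Or.inl h)
          refine ⟨fun y hy => ?_, fun y hy k => ?_⟩
          · obtain ⟨x, hx, rfl⟩ := List.mem_map.1 hy
            refine C_Chi_ident_mem hne hma hmb (hg x ?_)
            rw [hgs]
            simp only [List.mem_append, List.mem_cons] at hx ⊢
            tauto
          · obtain ⟨x, hx, rfl⟩ := List.mem_map.1 hy
            exact C_Chi_ident_mem hne hma hmb (hc x hx k)

theorem cor_mem {w : List TPiece} {T : TData c} (hT : T.Of w) (v : Fin c) (k : Fin 4) :
    T.cor v k ∈ T.F ∨ T.cor v k = 0 ∨ T.cor v k = 1 := by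
  obtain ⟨S, hS, _, hcor, hF⟩ := hT.tmpl
  have h1 := C_Chi_mem_run w (S := Sweep.init) (S' := S) (by
    refine ⟨fun x hx => hx, fun x hx => ?_⟩
    simp [Sweep.init] at hx) hS
  have h2 : T.cor v ∈ S.cor := by
    rw [hcor]
    exact List.mem_ofFn.2 ⟨v, rfl⟩
  have h3 := h1.2 _ h2 k
  by_cases e0 : T.cor v k = 0
  · exact Or.inr (Or.inl e0)
  by_cases e1 : T.cor v k = 1
  · exact Or.inr (Or.inr e1)
  left
  rw [hF]
  simp only [Finset.mem_erase, List.mem_toFinset]
  exact ⟨e1, e0, h3⟩

theorem not_mem_F {w : List TPiece} {T : TData c} (hT : T.Of w) : 0 ∉ T.F ∧ 1 ∉ T.F := by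
  obtain ⟨S, _, _, _, h⟩ := hT.tmpl
  rw [h]
  simp

end Pool.Agent.H63.CLK
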