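import Pool.Agent.H63.CLK.C_Chi

/-!
# The plane graph of a template is connected

Let `L` be the finite set of all `T.leg v k` and `0`, and `∂ : (L → ZMod 2) →ₗ (Fin c → ZMod 2)`, `∂ z v = ∑ k, z (leg v k)`.
* `finrank (ker ∂) ≤ c + 1`. For every `ℓ ∈ L` which occurs choose a leg `p ℓ` with this label. Let `D : (T.F → ZMod 2) × ZMod 2 →ₗ (L → ZMod 2)`,
  `D (χ, e) ℓ = χ~ (cor (p ℓ)) - χ~ (cor (p ℓ).1 ((p ℓ).2 - 1))`, where `χ~ g = χ g` for `g ∈ T.F`, `χ~ 1 = e`, `χ~ g = 0` otherwise, and `D (χ, e) 0 = e` if no leg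
  has the label `0`. By `exists_chi` and `cor_mem` `ker ∂ ≤ range D`, so `finrank (ker ∂) ≤ finrank domain = card F + 1 = c + 1`.
* every label of a leg occurs exactly twice (`hG.ex`, `hG.un`), so `2 c ≤ card L`, and `2 c + 1 ≤ card L` if no leg has the label `0`.
* `conn`: suppose `P v`, `¬ P v'`. For `z` the sum of `∂ z` over `P` is `∑ z (leg p)` over the legs `p` at `P`, which is `0` (`Finset.sum_involution` with the mate), the same for
  `¬ P`. So `range ∂ ≤ ker θ`, `θ y = (∑_P y, ∑_{¬P} y)`, `θ` surjective onto `ZMod 2 × ZMod 2`: `finrank (range ∂) ≤ c - 2`, and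
  `card L ≤ (c - 2) + (c + 1) < 2 c`, a contradiction.
* `exists_zero`: if no leg has the label `0`, then `2 c + 1 ≤ card L ≤ (c - 1) + (c + 1)`, since `range ∂ ≤ ker (∑)`, a contradiction.
* `conn'`: let `p0`, `q0` be the two legs with the label `0`. If `P p0.1` and not `P q0.1`, then the set of the legs at `P` has `4 * card` elements, and without `p0`
  it is closed under the mates, so it has an even number of elements (`Finset.sum_involution` for the constant function `1 : ZMod 2`): contradiction. So `P` is closed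
  under all mates, and `conn` applies.
-/

set_option autoImplicit false

namespace Pool.Agent.H63.CLK

variable {c : ℕ}

theorem Mate.symm {leg : Fin c → Fin 4 → ℕ} {p q : Fin c × Fin 4} (h : Mate leg p q) :
    Mate leg q p := ⟨h.1.symm, h.2.symm⟩

/-- The sum over a set of legs which is closed under the mates. -/
private theorem C_Conn_sum {T : TData c} (hG : T.Good) (A : Finset (Fin c × Fin 4))
    (z : ℕ → ZMod 2) (hA : ∀ p q, Mate T.leg p q → p ∈ A → q ∈ A) :
    ∑ p ∈ A, z (T.leg p.1 p.2) = 0 := by
  choose mt hmt using hG.ex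
  have hinv : ∀ p, mt (mt p) = p := fun p => hG.un (mt p) (mt (mt p)) p (hmt _) (hmt p).symm
  refine Finset.sum_involution (fun p _ => mt p) ?_ ?_ ?_ ?_
  · intro p _
    rw [← (hmt p).2]
    exact CharTwo.add_self_eq_zero _
  · intro p _ _
    exact (hmt p).1.symm
  · intro p hp
    exact hA p _ (hmt p) hp
  · intro p _
    exact hinv p

/-- The sum of the boundary over a closed set of twist regions. -/
private theorem C_Conn_sumP {T : TData c} (hG : T.Good) (P : Fin c → Prop) [DecidablePred P]
    (z : ℕ → ZMod 2) (hP : ∀ p q, Mate T.leg p q → P p.1 → P q.1) :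
    ∑ v ∈ Finset.univ.filter P, ∑ k, z (T.leg v k) = 0 := by
  have h1 := C_Conn_sum hG ((Finset.univ.filter P) ×ˢ (Finset.univ : Finset (Fin 4))) z (by
    intro p q hpq hp
    rw [Finset.mem_product, Finset.mem_filter] at hp ⊢
    exact ⟨⟨Finset.mem_univ _, hP p q hpq hp.1.2⟩, Finset.mem_univ _⟩)
  rw [Finset.sum_product] at h1
  exact h1

/-- The dimension count. -/
private theorem C_Conn_count {w : List TPiece} {T : TData c} (hT : T.Of w) (hF : T.F.card = c)
    (S : Finset (Fin c)) (L : Finset ℕ)
    (hL' : ∀ l ∈ L, l = 0 ∨ ∃ v k, T.leg v k = l)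
    (hdet : ∀ z : ℕ → ZMod 2, (∀ v ∉ S, ∑ k, z (T.leg v k) = 0) →
      ∀ v, ∑ k, z (T.leg v k) = 0) : L.card + S.card ≤ 2 * c + 1 := by
  classical
  have hex : ∀ z : ℕ → ZMod 2, ∃ χ : ℕ → ZMod 2, (∀ v, ∑ k, z (T.leg v k) = 0) →
      (χ 0 = 0 ∧ χ 1 = z 0 ∧ ∀ v k, χ (T.cor v k) = χ (T.cor v (k - 1)) + z (T.leg v k)) := by
    intro z
    by_cases hz : ∀ v, ∑ k, z (T.leg v k) = 0
    · obtain ⟨χ, h⟩ := exists_chi hT z hz
      exact ⟨χ, fun _ => h⟩
    · exact ⟨0, fun h => absurd h hz⟩
  choose χ hχ using hex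
  -- extension of functions on `L`
  let ext : (↥L → ZMod 2) → ℕ → ZMod 2 := fun z n => if h : n ∈ L then z ⟨n, h⟩ else 0
  have hext : ∀ (z : ↥L → ZMod 2) (l : ↥L), ext z l = z l := by
    intro z l
    simp only [ext, l.2, dif_pos]
  have hsub : ∀ (z t : ↥L → ZMod 2) (n : ℕ), ext (z - t) n = ext z n - ext t n := by
    intro z t n
    simp only [ext]
    split_ifs
    · rfl
    · simp
  let B : (↥L → ZMod 2) → (↥(Sᶜ : Finset (Fin c)) → ZMod 2) :=
    fun z v => ∑ k, ext z (T.leg v k)
  have hBsub : ∀ z t : ↥L → ZMod 2, B z = B t → ∀ v, ∑ k, ext (z - t) (T.leg v k) = 0 := by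
    intro z t hzt
    apply hdet
    intro v hv
    have h1 := congrFun hzt ⟨v, Finset.mem_compl.mpr hv⟩
    simp only [B] at h1
    simp only [hsub, Finset.sum_sub_distrib, h1, sub_self]
  let s : (↥(Sᶜ : Finset (Fin c)) → ZMod 2) → (↥L → ZMod 2) := Function.invFun B
  have hs : ∀ z, B (s (B z)) = B z := fun z => Function.invFun_eq ⟨z, rfl⟩
  let Ψ : (↥L → ZMod 2) → (↥(Sᶜ : Finset (Fin c)) → ZMod 2) × ((↥T.F → ZMod 2) × ZMod 2) :=
    fun z => (B z, (fun f => χ (ext (z - s (B z))) f, ext (z - s (B z)) 0))
  have hinj : Function.Injective Ψ := by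
    intro z z' h
    have h1 : B z = B z' := congrArg Prod.fst h
    have h2 := congrArg (fun x => x.2.1) h
    have h3 : ext (z - s (B z)) 0 = ext (z' - s (B z')) 0 := congrArg (fun x => x.2.2) h
    simp only [Ψ] at h2
    set u := z - s (B z) with hu
    set u' := z' - s (B z') with hu'
    have hk := hχ (ext u) (hBsub z _ (hs z).symm)
    have hk' := hχ (ext u') (hBsub z' _ (hs z').symm)
    obtain ⟨a0, a1, a2⟩ := hk
    obtain ⟨b0, b1, b2⟩ := hk'
    have hcor : ∀ v k, χ (ext u) (T.cor v k) = χ (ext u') (T.cor v k) := by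
      intro v k
      rcases cor_mem hT v k with h4 | h4 | h4
      · exact congrFun h2 ⟨_, h4⟩
      · rw [h4, a0, b0]
      · rw [h4, a1, b1, h3]
    have hleg : ∀ v k, ext u (T.leg v k) = ext u' (T.leg v k) := by
      intro v k
      have h5 := a2 v k
      have h6 := b2 v k
      rw [hcor, hcor] at h5
      rw [h5] at h6
      exact add_left_cancel h6
    have huu : u = u' := by
      funext l
      rw [← hext u l, ← hext u' l]
      rcases hL' l l.2 with h4 | ⟨v, k, h4⟩
      · rw [h4]
        exact h3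
      · rw [← h4]
        exact hleg v k
    rw [hu, hu', h1] at huu
    exact sub_left_injective huu
  have hcard := Fintype.card_le_of_injective Ψ hinj
  rw [Fintype.card_prod, Fintype.card_prod, Fintype.card_fun, Fintype.card_fun, Fintype.card_fun,
    ZMod.card, Fintype.card_coe, Fintype.card_coe, Fintype.card_coe, Finset.card_compl,
    Fintype.card_fin, hF] at hcard
  have hS : S.card ≤ c := by
    have := Finset.card_le_univ S
    rwa [Fintype.card_fin] at this
  have e : 2 ^ (c - S.card) * (2 ^ c * 2) = 2 ^ (c - S.card + (c + 1)) := by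
    rw [pow_add, pow_succ 2 c]
  rw [e] at hcard
  have := (Nat.pow_le_pow_iff_right (by norm_num : 1 < 2)).mp hcard
  omega

/-- The labels of the legs. -/
private def C_Conn_L (T : TData c) : Finset ℕ :=
  (Finset.univ : Finset (Fin c × Fin 4)).image (fun p => T.leg p.1 p.2)

private theorem C_Conn_label {T : TData c} (hG : T.Good) : 2 * c ≤ (C_Conn_L T).card := by
  classical
  have h1 := Finset.card_le_mul_card_image (f := fun p : Fin c × Fin 4 => T.leg p.1 p.2)
    (Finset.univ : Finset (Fin c × Fin 4)) 2 (by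
      intro l hl
      rw [Finset.mem_image] at hl
      obtain ⟨p, -, hp⟩ := hl
      obtain ⟨q, hq⟩ := hG.ex p
      refine le_trans (Finset.card_le_card ?_) (Finset.card_le_two (a := p) (b := q))
      intro r hr
      rw [Finset.mem_filter] at hr
      rw [Finset.mem_insert, Finset.mem_singleton]
      by_cases hrp : r = p
      · exact Or.inl hrp
      · exact Or.inr (hG.un p r q ⟨Ne.symm hrp, hp.trans hr.2.symm⟩ hq))
  rw [Finset.card_univ, Fintype.card_prod, Fintype.card_fin, Fintype.card_fin] at h1
  unfold C_Conn_L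
  omega

/-- The graph is connected. -/
theorem conn {w : List TPiece} {T : TData c} (hT : T.Of w) (hG : T.Good) (hF : T.F.card = c)
    (P : Fin c → Prop) (hP : ∀ p q, Mate T.leg p q → P p.1 → P q.1) (v v' : Fin c) (h : P v) :
    P v' := by
  classical
  by_contra hv'
  have hne : v ≠ v' := by
    rintro rfl
    exact hv' h
  have hP' : ∀ p q, Mate T.leg p q → ¬ P p.1 → ¬ P q.1 := fun p q hpq hp hq =>
    hp (hP q p hpq.symm hq)
  have h1 := C_Conn_count hT hF {v, v'} (insert 0 (C_Conn_L T))
    (by
      intro l hl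
      rw [Finset.mem_insert] at hl
      rcases hl with hl | hl
      · exact Or.inl hl
      · unfold C_Conn_L at hl
        rw [Finset.mem_image] at hl
        obtain ⟨p, -, hp⟩ := hl
        exact Or.inr ⟨p.1, p.2, hp⟩)
    (by
      intro z hz
      have hv1 : ∑ k, z (T.leg v k) = 0 := by
        have h2 := C_Conn_sumP hG P z hP
        rw [Finset.sum_eq_single v] at h2
        · exact h2
        · intro u hu huv
          rw [Finset.mem_filter] at hu
          apply hz
          rw [Finset.mem_insert, Finset.mem_singleton]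
          rintro (h3 | h3)
          · exact huv h3
          · exact hv' (h3 ▸ hu.2)
        · intro h3
          exact absurd (Finset.mem_filter.mpr ⟨Finset.mem_univ _, h⟩) h3
      have hv2 : ∑ k, z (T.leg v' k) = 0 := by
        have h2 := C_Conn_sumP hG (fun u => ¬ P u) z hP'
        rw [Finset.sum_eq_single v'] at h2
        · exact h2
        · intro u hu huv
          rw [Finset.mem_filter] at hu
          apply hz
          rw [Finset.mem_insert, Finset.mem_singleton]
          rintro (h3 | h3)
          · exact hu.2 (h3 ▸ h)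
          · exact huv h3
        · intro h3
          exact absurd (show v' ∈ Finset.univ.filter (fun u => ¬ P u) by
            rw [Finset.mem_filter]
            exact ⟨Finset.mem_univ _, hv'⟩) h3
      intro u
      by_cases hu : u ∈ ({v, v'} : Finset (Fin c))
      · rw [Finset.mem_insert, Finset.mem_singleton] at hu
        rcases hu with rfl | rfl
        · exact hv1
        · exact hv2
      · exact hz u hu)
  have h2 := C_Conn_label hG
  have h3 : (C_Conn_L T).card ≤ (insert 0 (C_Conn_L T)).card :=
    Finset.card_le_card (Finset.subset_insert _ _)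
  rw [Finset.card_pair hne] at h1
  omega

/-- The strand `0` has two ends at twist regions. -/
theorem exists_zero {w : List TPiece} {T : TData c} (hT : T.Of w) (hG : T.Good)
    (hF : T.F.card = c) (hc : 0 < c) :
    ∃ p q : Fin c × Fin 4, Mate T.leg p q ∧ T.leg p.1 p.2 = 0 := by
  classical
  by_contra hcon
  push Not at hcon
  have hno : 0 ∉ C_Conn_L T := by
    intro h0
    unfold C_Conn_L at h0
    rw [Finset.mem_image] at h0
    obtain ⟨p, -, hp⟩ := h0
    obtain ⟨q, hq⟩ := hG.ex p
    exact hcon p q hq hp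
  have h1 := C_Conn_count hT hF {(⟨0, hc⟩ : Fin c)} (insert 0 (C_Conn_L T))
    (by
      intro l hl
      rw [Finset.mem_insert] at hl
      rcases hl with hl | hl
      · exact Or.inl hl
      · unfold C_Conn_L at hl
        rw [Finset.mem_image] at hl
        obtain ⟨p, -, hp⟩ := hl
        exact Or.inr ⟨p.1, p.2, hp⟩)
    (by
      intro z hz
      have hv1 : ∑ k, z (T.leg ⟨0, hc⟩ k) = 0 := by
        have h2 := C_Conn_sumP hG (fun _ => True) z (fun _ _ _ h => h)
        rw [Finset.sum_eq_single (⟨0, hc⟩ : Fin c)] at h2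
        · exact h2
        · intro u _ huv
          apply hz
          rw [Finset.mem_singleton]
          exact huv
        · intro h3
          exact absurd (Finset.mem_filter.mpr ⟨Finset.mem_univ _, trivial⟩) h3
      intro u
      by_cases hu : u = ⟨0, hc⟩
      · rw [hu]
        exact hv1
      · exact hz u (by rwa [Finset.mem_singleton]))
  have h2 := C_Conn_label hG
  rw [Finset.card_insert_of_notMem hno, Finset.card_singleton] at h1
  omega

/-- The graph is connected without the strand `0`. -/
theorem conn' {w : List TPiece} {T : TData c} (hT : T.Of w) (hG : T.Good) (hF : T.F.card = c)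
    (P : Fin c → Prop)
    (hP : ∀ p q, Mate T.leg p q → T.leg p.1 p.2 ≠ 0 → P p.1 → P q.1) (v v' : Fin c) (h : P v) :
    P v' := by
  classical
  refine conn hT hG hF P ?_ v v' h
  intro p q hpq hp
  by_cases h0 : T.leg p.1 p.2 = 0
  swap
  · exact hP p q hpq h0 hp
  by_contra hq
  -- the legs at `P` without `p`
  have h1 := C_Conn_sum hG (((Finset.univ.filter P) ×ˢ (Finset.univ : Finset (Fin 4))).erase p)
    (fun _ => 1) (by
      intro x y hxy hx
      rw [Finset.mem_erase, Finset.mem_product, Finset.mem_filter] at hx ⊢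
      obtain ⟨hxp, ⟨-, hPx⟩, -⟩ := hx
      have hx0 : T.leg x.1 x.2 ≠ 0 := by
        intro hx0
        have h2 : x = q := hG.un p x q ⟨Ne.symm hxp, h0.trans hx0.symm⟩ hpq
        exact hq (h2 ▸ hPx)
      refine ⟨?_, ⟨Finset.mem_univ _, hP x y hxy hx0 hPx⟩, Finset.mem_univ _⟩
      rintro rfl
      exact hx0 (hxy.2.trans h0))
  have hmem : p ∈ (Finset.univ.filter P) ×ˢ (Finset.univ : Finset (Fin 4)) := by
    rw [Finset.mem_product, Finset.mem_filter]
    exact ⟨⟨Finset.mem_univ _, hp⟩, Finset.mem_univ _⟩
  have h2 := Finset.add_sum_erase _ (fun _ : Fin c × Fin 4 => (1 : ZMod 2)) hmem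
  rw [h1, add_zero, Finset.sum_product] at h2
  have h3 : ∑ _k : Fin 4, (1 : ZMod 2) = 0 := by decide
  simp only [h3, Finset.sum_const_zero] at h2
  exact one_ne_zero h2

end Pool.Agent.H63.CLK
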