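import Pool.Agent.H63.CLK.C_Defs

/-!
# Quadratic forms of cotangents

For positive `α k` with the sum `π` the form `∑ cot (α k) * x k ^ 2` is nonnegative on `∑ x k = 0`, and
positive definite there if there are at least three indices: at most one `cot` is negative; if `α 0 > π/2`
then `cot (α 0) = - cot (∑ others)`, Cauchy: `(∑ x k)² ≤ (∑ cot x k²) (∑ tan)`, and `tan` is superadditive
on `[0, π/2)`.
-/

set_option autoImplicit false

namespace Pool.Agent.H63.CLK

open Pool.Agent.H63.VC hiding ext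
open Pool.Agent.H63.VC3 Pool.Agent.H63.VC4 Pool.Agent.H63.VC7 Complex Filter Topology
open scoped BigOperators

private theorem C_Cot_tan_add_lt (a b : ℝ) (ha : 0 < a) (hb : 0 < b) (hab : a + b < Real.pi / 2) :
    Real.tan a + Real.tan b < Real.tan (a + b) := by
  have hpi := Real.pi_pos
  have ca : 0 < Real.cos a := Real.cos_pos_of_mem_Ioo ⟨by linarith, by linarith⟩
  have cb : 0 < Real.cos b := Real.cos_pos_of_mem_Ioo ⟨by linarith, by linarith⟩
  have cab : 0 < Real.cos (a + b) := Real.cos_pos_of_mem_Ioo ⟨by linarith, by linarith⟩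
  have sa : 0 < Real.sin a := Real.sin_pos_of_pos_of_lt_pi ha (by linarith)
  have sb : 0 < Real.sin b := Real.sin_pos_of_pos_of_lt_pi hb (by linarith)
  have sab : 0 < Real.sin (a + b) := Real.sin_pos_of_pos_of_lt_pi (by linarith) (by linarith)
  have e1 : Real.tan (a + b) - Real.tan a = Real.sin b / (Real.cos (a + b) * Real.cos a) := by
    rw [Real.tan_eq_sin_div_cos, Real.tan_eq_sin_div_cos, div_sub_div _ _ cab.ne' ca.ne']
    congr 1
    have := Real.sin_sub (a + b) a
    rw [add_sub_cancel_left] at this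
    rw [this]
  have e2 : Real.cos (a + b) * Real.cos a < Real.cos b := by
    have := Real.cos_sub (a + b) a
    rw [add_sub_cancel_left] at this
    rw [this]
    have := mul_pos sab sa
    linarith
  have e3 : Real.tan b < Real.sin b / (Real.cos (a + b) * Real.cos a) := by
    rw [Real.tan_eq_sin_div_cos]
    exact div_lt_div_of_pos_left sb (mul_pos cab ca) e2
  linarith

private theorem C_Cot_tan_sum_le {ι : Type*} (s : Finset ι) (α : ι → ℝ) (h0 : ∀ k ∈ s, 0 < α k)
    (h1 : ∑ k ∈ s, α k < 1 / 2) :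
    ∑ k ∈ s, Real.tan (Real.pi * α k) ≤ Real.tan (Real.pi * ∑ k ∈ s, α k) := by
  classical
  induction s using Finset.induction_on with
  | empty => simp
  | insert a s ha ih =>
    rw [Finset.sum_insert ha] at h1 ⊢
    rw [Finset.sum_insert ha]
    have hpi := Real.pi_pos
    have hs0 : ∀ k ∈ s, 0 < α k := fun k hk => h0 k (Finset.mem_insert_of_mem hk)
    have ha0 : 0 < α a := h0 a (Finset.mem_insert_self a s)
    rcases s.eq_empty_or_nonempty with he | hne
    · subst he; simp
    · have hsum : 0 < ∑ k ∈ s, α k := Finset.sum_pos hs0 hne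
      have i := ih hs0 (by linarith)
      have j := C_Cot_tan_add_lt (Real.pi * α a) (Real.pi * ∑ k ∈ s, α k) (by positivity)
        (by positivity) (by nlinarith)
      rw [mul_add]
      linarith

private theorem C_Cot_tan_sum_lt {ι : Type*} (s : Finset ι) (α : ι → ℝ) (h0 : ∀ k ∈ s, 0 < α k)
    (h1 : ∑ k ∈ s, α k < 1 / 2) (h2 : 2 ≤ s.card) :
    ∑ k ∈ s, Real.tan (Real.pi * α k) < Real.tan (Real.pi * ∑ k ∈ s, α k) := by
  classical
  have hpi := Real.pi_pos
  obtain ⟨a, ha⟩ := Finset.card_pos.mp (by omega : 0 < s.card)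
  have hc : (s.erase a).card = s.card - 1 := Finset.card_erase_of_mem ha
  have hne : (s.erase a).Nonempty := Finset.card_pos.mp (by omega)
  have h0' : ∀ k ∈ s.erase a, 0 < α k := fun k hk => h0 k (Finset.mem_of_mem_erase hk)
  have e1 : ∑ k ∈ s, α k = α a + ∑ k ∈ s.erase a, α k := (Finset.add_sum_erase s α ha).symm
  have e2 : ∑ k ∈ s, Real.tan (Real.pi * α k) =
      Real.tan (Real.pi * α a) + ∑ k ∈ s.erase a, Real.tan (Real.pi * α k) :=
    (Finset.add_sum_erase s (fun k => Real.tan (Real.pi * α k)) ha).symm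
  have ha0 := h0 a ha
  have hsum : 0 < ∑ k ∈ s.erase a, α k := Finset.sum_pos h0' hne
  have i := C_Cot_tan_sum_le (s.erase a) α h0' (by linarith)
  have j := C_Cot_tan_add_lt (Real.pi * α a) (Real.pi * ∑ k ∈ s.erase a, α k) (by positivity)
    (by positivity) (by nlinarith)
  rw [e1, e2, mul_add]
  linarith

/-- The main case: one angle larger than a right angle. -/
private theorem C_Cot_big {ι : Type*} [DecidableEq ι] (s : Finset ι) (α x : ι → ℝ)
    (h0 : ∀ k ∈ s, 0 < α k) (h1 : ∑ k ∈ s, α k = 1) (hx : ∑ k ∈ s, x k = 0) (a : ι) (ha : a ∈ s)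
    (hbig : 1 / 2 < α a) (h2 : 2 ≤ s.card) :
    0 ≤ ∑ k ∈ s, Real.cos (Real.pi * α k) / Real.sin (Real.pi * α k) * x k ^ 2 ∧
      (3 ≤ s.card → (∃ k ∈ s, x k ≠ 0) →
        0 < ∑ k ∈ s, Real.cos (Real.pi * α k) / Real.sin (Real.pi * α k) * x k ^ 2) := by
  have hpi := Real.pi_pos
  have hc : (s.erase a).card = s.card - 1 := Finset.card_erase_of_mem ha
  have hne : (s.erase a).Nonempty := Finset.card_pos.mp (by omega)
  have h0' : ∀ k ∈ s.erase a, 0 < α k := fun k hk => h0 k (Finset.mem_of_mem_erase hk)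
  have e1 : α a + ∑ k ∈ s.erase a, α k = 1 := by rw [Finset.add_sum_erase s α ha, h1]
  have ex : x a + ∑ k ∈ s.erase a, x k = 0 := by rw [Finset.add_sum_erase s x ha, hx]
  set β := ∑ k ∈ s.erase a, α k with hβ
  have hβ0 : 0 < β := Finset.sum_pos h0' hne
  have hβ1 : β < 1 / 2 := by linarith
  have hle : ∀ k ∈ s.erase a, α k < 1 / 2 := by
    intro k hk
    have : α k ≤ β := Finset.single_le_sum (f := α) (fun i hi => (h0' i hi).le) hk
    linarith
  have tpos : ∀ k ∈ s.erase a, 0 < Real.tan (Real.pi * α k) := by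
    intro k hk
    have := h0' k hk
    have := hle k hk
    exact Real.tan_pos_of_pos_of_lt_pi_div_two (by positivity) (by nlinarith)
  have tβ : 0 < Real.tan (Real.pi * β) :=
    Real.tan_pos_of_pos_of_lt_pi_div_two (by positivity) (by nlinarith)
  have ea : Real.cos (Real.pi * α a) / Real.sin (Real.pi * α a) = - (1 / Real.tan (Real.pi * β)) := by
    have : Real.pi * α a = Real.pi - Real.pi * β := by
      rw [← mul_one_sub]; congr 1; linarith
    rw [this, Real.cos_pi_sub, Real.sin_pi_sub, Real.tan_eq_sin_div_cos, one_div_div, neg_div]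
  have eo : ∀ k ∈ s.erase a, Real.cos (Real.pi * α k) / Real.sin (Real.pi * α k) * x k ^ 2 =
      x k ^ 2 / Real.tan (Real.pi * α k) := by
    intro k hk
    rw [Real.tan_eq_sin_div_cos, div_div_eq_mul_div, mul_comm, mul_div_assoc]
  have etot : ∑ k ∈ s, Real.cos (Real.pi * α k) / Real.sin (Real.pi * α k) * x k ^ 2 =
      - (x a ^ 2 / Real.tan (Real.pi * β)) + ∑ k ∈ s.erase a, x k ^ 2 / Real.tan (Real.pi * α k) := by
    rw [← Finset.add_sum_erase s _ ha, ea, Finset.sum_congr rfl eo]
    ring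
  have hxa : x a ^ 2 = (∑ k ∈ s.erase a, x k) ^ 2 := by
    have : x a = - ∑ k ∈ s.erase a, x k := by linarith
    rw [this]; ring
  have cs : (∑ k ∈ s.erase a, x k) ^ 2 / ∑ k ∈ s.erase a, Real.tan (Real.pi * α k) ≤
      ∑ k ∈ s.erase a, x k ^ 2 / Real.tan (Real.pi * α k) :=
    Finset.sq_sum_div_le_sum_sq_div (s.erase a) x tpos
  have tsum : 0 < ∑ k ∈ s.erase a, Real.tan (Real.pi * α k) := Finset.sum_pos tpos hne
  have tle := C_Cot_tan_sum_le (s.erase a) α h0' hβ1
  rw [etot]
  refine ⟨?_, ?_⟩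
  · have : x a ^ 2 / Real.tan (Real.pi * β) ≤
        x a ^ 2 / ∑ k ∈ s.erase a, Real.tan (Real.pi * α k) :=
      div_le_div_of_nonneg_left (sq_nonneg _) tsum tle
    rw [hxa] at this ⊢
    linarith
  · intro h3 hxne
    by_cases hz : x a = 0
    · obtain ⟨k, hk, hkx⟩ := hxne
      have hka : k ≠ a := fun h => hkx (h ▸ hz)
      have hk' : k ∈ s.erase a := Finset.mem_erase.mpr ⟨hka, hk⟩
      have : 0 < ∑ k ∈ s.erase a, x k ^ 2 / Real.tan (Real.pi * α k) :=
        Finset.sum_pos' (fun i hi => div_nonneg (sq_nonneg _) (tpos i hi).le)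
          ⟨k, hk', div_pos (by positivity) (tpos k hk')⟩
      rw [hz]
      simpa using this
    · have tlt := C_Cot_tan_sum_lt (s.erase a) α h0' hβ1 (by omega)
      have hp : 0 < x a ^ 2 := by positivity
      have : x a ^ 2 / Real.tan (Real.pi * β) <
          x a ^ 2 / ∑ k ∈ s.erase a, Real.tan (Real.pi * α k) :=
        div_lt_div_of_pos_left hp tsum tlt
      rw [hxa] at this ⊢
      linarith

private theorem C_Cot_both {ι : Type*} (s : Finset ι) (α x : ι → ℝ) (h0 : ∀ k ∈ s, 0 < α k)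
    (h1 : ∑ k ∈ s, α k = 1) (hx : ∑ k ∈ s, x k = 0) :
    0 ≤ ∑ k ∈ s, Real.cos (Real.pi * α k) / Real.sin (Real.pi * α k) * x k ^ 2 ∧
      (3 ≤ s.card → (∃ k ∈ s, x k ≠ 0) →
        0 < ∑ k ∈ s, Real.cos (Real.pi * α k) / Real.sin (Real.pi * α k) * x k ^ 2) := by
  classical
  have hpi := Real.pi_pos
  rcases Nat.lt_or_ge s.card 2 with hc | hc
  · rcases Nat.lt_or_ge s.card 1 with hc0 | hc1
    · have : s = ∅ := Finset.card_eq_zero.mp (by omega)
      subst this
      simp at h1
    · obtain ⟨a, rfl⟩ := Finset.card_eq_one.mp (by omega : s.card = 1)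
      rw [Finset.sum_singleton] at h1 hx
      refine ⟨by simp [hx], fun h => by simp at h⟩
  · by_cases hb : ∃ a ∈ s, 1 / 2 < α a
    · obtain ⟨a, ha, hab⟩ := hb
      exact C_Cot_big s α x h0 h1 hx a ha hab hc
    · push_neg at hb
      have spos : ∀ k ∈ s, 0 < Real.sin (Real.pi * α k) := by
        intro k hk
        have := h0 k hk
        have := hb k hk
        exact Real.sin_pos_of_pos_of_lt_pi (by positivity) (by nlinarith)
      have cnn : ∀ k ∈ s, 0 ≤ Real.cos (Real.pi * α k) := by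
        intro k hk
        have := h0 k hk
        have := hb k hk
        exact Real.cos_nonneg_of_mem_Icc ⟨by nlinarith, by nlinarith⟩
      have tnn : ∀ k ∈ s, 0 ≤ Real.cos (Real.pi * α k) / Real.sin (Real.pi * α k) * x k ^ 2 :=
        fun k hk => mul_nonneg (div_nonneg (cnn k hk) (spos k hk).le) (sq_nonneg _)
      refine ⟨Finset.sum_nonneg tnn, fun h3 hxne => ?_⟩
      -- some index with `x k ≠ 0` and `α k < 1/2`
      have key : ∃ k ∈ s, x k ≠ 0 ∧ α k < 1 / 2 := by
        by_contra hcon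
        push_neg at hcon
        obtain ⟨k, hk, hkx⟩ := hxne
        have hk2 : α k = 1 / 2 := le_antisymm (hb k hk) (hcon k hk hkx)
        -- every other index has `x = 0`
        have hoth : ∀ j ∈ s, j ≠ k → x j = 0 := by
          intro j hj hjk
          by_contra hjx
          have hj2 : α j = 1 / 2 := le_antisymm (hb j hj) (hcon j hj hjx)
          -- three indices
          have hcard : 0 < ((s.erase k).erase j).card := by
            rw [Finset.card_erase_of_mem (Finset.mem_erase.mpr ⟨hjk, hj⟩),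
              Finset.card_erase_of_mem hk]
            omega
          obtain ⟨l, hl⟩ := Finset.card_pos.mp hcard
          have hls : l ∈ s := Finset.mem_of_mem_erase (Finset.mem_of_mem_erase hl)
          have e1 : α k + ∑ i ∈ s.erase k, α i = 1 := by rw [Finset.add_sum_erase s α hk, h1]
          have e2 : α j + ∑ i ∈ (s.erase k).erase j, α i = ∑ i ∈ s.erase k, α i :=
            Finset.add_sum_erase _ α (Finset.mem_erase.mpr ⟨hjk, hj⟩)
          have e3 : 0 < ∑ i ∈ (s.erase k).erase j, α i :=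
            Finset.sum_pos (fun i hi => h0 i (Finset.mem_of_mem_erase (Finset.mem_of_mem_erase hi)))
              ⟨l, hl⟩
          linarith
        have : ∑ i ∈ s, x i = x k := Finset.sum_eq_single_of_mem k hk (fun j hj hjk => hoth j hj hjk)
        exact hkx (by rw [← this, hx])
      obtain ⟨k, hk, hkx, hka⟩ := key
      have h0k := h0 k hk
      refine Finset.sum_pos' tnn ⟨k, hk, mul_pos (div_pos ?_ (spos k hk)) (by positivity)⟩
      exact Real.cos_pos_of_mem_Ioo ⟨by nlinarith, by nlinarith⟩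

/-- Nonnegativity. -/
theorem cot_nonneg {ι : Type*} (s : Finset ι) (α x : ι → ℝ) (h0 : ∀ k ∈ s, 0 < α k)
    (h1 : ∑ k ∈ s, α k = 1) (hx : ∑ k ∈ s, x k = 0) :
    0 ≤ ∑ k ∈ s, Real.cos (Real.pi * α k) / Real.sin (Real.pi * α k) * x k ^ 2 :=
  (C_Cot_both s α x h0 h1 hx).1

/-- Positivity for at least three angles. -/
theorem cot_pos {ι : Type*} (s : Finset ι) (α x : ι → ℝ) (h0 : ∀ k ∈ s, 0 < α k)
    (h1 : ∑ k ∈ s, α k = 1) (hx : ∑ k ∈ s, x k = 0) (h3 : 3 ≤ s.card) (hne : ∃ k ∈ s, x k ≠ 0) :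
    0 < ∑ k ∈ s, Real.cos (Real.pi * α k) / Real.sin (Real.pi * α k) * x k ^ 2 :=
  (C_Cot_both s α x h0 h1 hx).2 h3 hne

end Pool.Agent.H63.CLK
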