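import Pool.Agent.H63.CLK.D_Tri

/-! # Part D: critical points and the solution of the gluing equations (definitions) -/

namespace Pool.Agent.H63.CLK

open Pool.Agent.H63.VC hiding ext
open Pool.Agent.H63.VC3 Pool.Agent.H63.VC7.Hyp Complex

variable {c : ℕ}

/-- The sizes of the corners of a twist region (top, right, bottom, left). -/
def csr {K : Type*} [Ring K] (τ : K) : Fin 4 → K := ![1 - τ, τ, 1 - τ, τ]

/-- Combinatorial facts: every strand has exactly two ends, and the strand `0` is at outer faces. -/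
structure TData.Good (T : TData c) : Prop where
  ex : ∀ p, ∃ q, Mate T.leg p q
  un : ∀ p q r, Mate T.leg p q → Mate T.leg p r → q = r
  zero : ∀ v k, T.leg v k = 0 → T.cor v k ∉ T.F ∧ T.cor v (k - 1) ∉ T.F

/-- Real points of the interior of the polytope. -/
structure Adm (T : TData c) (τ : Fin c → ℝ) (σ : Fin c → Fin 4 → ℝ) : Prop where
  tau : ∀ v, 1 / 2 < τ v ∧ τ v < 1
  out : ∀ v k, T.cor v k ∉ T.F → σ v k = 0
  pos : ∀ v k, T.cor v k ∈ T.F → T.isEnd v = false → 0 < σ v k ∧ σ v k < csr (τ v) k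
  fin : ∀ v k, T.cor v k ∈ T.F → T.isEnd v = true → σ v k = csr (τ v) k
  sumv : ∀ v, ∑ k, σ v k = 1
  sumf : ∀ f ∈ T.F, ∑ v, ∑ k, (if T.cor v k = f then σ v k else 0) = 1

/-- The critical equations. -/
structure CritT (T : TData c) (a : Fin c → ℤ) (τ z : Fin c → ℂ) (σ : Fin c → Fin 4 → ℂ)
    (A : ℕ → ℂ) (B : Fin c → ℂ) : Prop where
  out : ∀ v k, T.cor v k ∉ T.F → σ v k = 0
  fin : ∀ v k, T.cor v k ∈ T.F → T.isEnd v = true → σ v k = csr (τ v) k
  sumv : ∀ v, ∑ k, σ v k = 1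
  sumf : ∀ f ∈ T.F, ∑ v, ∑ k, (if T.cor v k = f then σ v k else 0) = 1
  sig : ∀ v k, T.cor v k ∈ T.F → T.isEnd v = false →
    hh (csr (τ v) k - σ v k) - hh (σ v k) + A (T.cor v k) + B v = 0
  tau : ∀ v, T.isEnd v = false →
    hh (csr (τ v) 1 - σ v 1) + hh (csr (τ v) 3 - σ v 3) - hh (csr (τ v) 0 - σ v 0) -
      hh (csr (τ v) 2 - σ v 2) + hh (τ v - 1 / 2 - z v) + hh (τ v - 1 / 2 + z v) -
      2 * hh (τ v) = 0
  tau0 : ∀ v, T.isEnd v = true →
    hh (τ v - 1 / 2 - z v) + hh (τ v - 1 / 2 + z v) - 2 * hh (τ v) +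
      ∑ k, (if T.cor v k ∈ T.F then (if k = 0 ∨ k = 2 then A (T.cor v k) else -A (T.cor v k))
        else 0) = 0
  zz : ∀ v, 2 * Real.pi * I * (a v * z v + 1) + hh (τ v - 1 / 2 - z v) -
    hh (τ v - 1 / 2 + z v) = 0

/-- The part of the potential of a corner. -/
noncomputable def cpt (T : TData c) (τ : Fin c → ℂ) (σ : Fin c → Fin 4 → ℂ) (v : Fin c)
    (k : Fin 4) : ℂ :=
  if T.isEnd v = false then
    (if T.cor v k ∈ T.F then ff (σ v k) + ff (csr (τ v) k - σ v k) else ff (csr (τ v) k))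
  else 0

/-- The potential. -/
noncomputable def Psi (T : TData c) (a : Fin c → ℤ) (τ z : Fin c → ℂ) (σ : Fin c → Fin 4 → ℂ) :
    ℂ :=
  (∑ v, (2 * Real.pi * I * (a v / 2 * z v ^ 2 + z v) + 2 * ff (τ v) - ff (τ v - 1 / 2 - z v) -
    ff (τ v - 1 / 2 + z v))) - ∑ v, ∑ k, cpt T τ σ v k

/-! ### The solution -/

/-- First arcs of the tetrahedra at a twist region. -/
noncomputable def oa (_κ z : ℂ) (t : Fin 4 → ℂ) : Fin 4 → ℂ := ![1 / 2 - z, t 2 + t 3, t 0 + t 1, 1 / 2 + z]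

/-- Second arcs. -/
def ob (κ _z : ℂ) (t : Fin 4 → ℂ) : Fin 4 → ℂ := ![κ, t 1, t 3, κ]

/-- Third arcs. -/
noncomputable def oc (κ z : ℂ) (t : Fin 4 → ℂ) : Fin 4 → ℂ := ![1 / 2 - κ + z, t 0, t 2, 1 / 2 - κ - z]

/-- Logarithmic parameters at a twist region, positive orientation. -/
noncomputable def octP (e : Bool) (κ z : ℂ) (t : Fin 4 → ℂ) (k : Fin 4) : Fin 3 → ℂ :=
  if e = true ∧ (k = 1 ∨ k = 2) then 0 else tri (oa κ z t k) (ob κ z t k) (oc κ z t k)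

/-- Logarithmic parameters at a twist region, negative orientation. -/
noncomputable def octM (e : Bool) (κ z : ℂ) (t : Fin 4 → ℂ) (k : Fin 4) : Fin 3 → ℂ :=
  if e = true ∧ (k = 1 ∨ k = 2) then 0 else swp (tri (oa κ z t k) (oc κ z t k) (ob κ z t k))

/-- Partial sums. -/
noncomputable def psm (σ : ℕ → ℂ) (j : ℕ) : ℂ := ∑ i ∈ Finset.range j, σ i

/-- Logarithmic parameters at a face, in `P`. -/
noncomputable def fanP (σ : ℕ → ℂ) (j : ℕ) : Fin 3 → ℂ := tri (σ j) (1 - psm σ (j + 1)) (psm σ j)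

/-- Logarithmic parameters at a face, in `P'`. -/
noncomputable def fanM (σ : ℕ → ℂ) (j : ℕ) : Fin 3 → ℂ :=
  swp (tri (σ j) (psm σ j) (1 - psm σ (j + 1)))

/-- `z` or `-z`. -/
def TData.zf (T : TData c) (z : Fin c → ℂ) (v : Fin c) : ℂ :=
  if T.one v = 0 ∨ T.one v = 1 then z v else -z v

/-- The arcs `θ`, beginning with the corner between `a_1` and `a_2`. -/
def TData.tt (T : TData c) (τ : Fin c → ℂ) (σ : Fin c → Fin 4 → ℂ) (v : Fin c) (j : Fin 4) : ℂ :=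
  csr (τ v) (cna (T.one v) j) - σ v (cna (T.one v) j)

/-- The arcs `σ` around a face. -/
def TData.sf (T : TData c) (σ : Fin c → Fin 4 → ℂ) (f j : ℕ) : ℂ := σ (T.bd f j).1 (T.bd f j).2

/-- The solution: logarithmic parameters. -/
noncomputable def TData.par (T : TData c) (τ z : Fin c → ℂ) (σ : Fin c → Fin 4 → ℂ) : Par c where
  x v := if T.one v = 1 ∨ T.one v = 3
    then octP (T.isEnd v) (1 - τ v) (T.zf z v) (T.tt τ σ v)
    else octM (T.isEnd v) (1 - τ v) (T.zf z v) (T.tt τ σ v)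
  x' v := if T.one v = 1 ∨ T.one v = 3
    then octM (T.isEnd v) (1 - τ v) (T.zf z v) (T.tt τ σ v)
    else octP (T.isEnd v) (1 - τ v) (T.zf z v) (T.tt τ σ v)
  z f j := fanP (T.sf σ f) j
  z' f j := fanM (T.sf σ f) j
  s v k := 2 * Real.pi * I * σ v k
  U v := 2 * Real.pi * I * T.zf z v

/-- The solution: shape parameters at the twist regions, in `P` (`o` true) or `P'` (`o` false). -/
noncomputable def TData.sX (T : TData c) (τ z : Fin c → ℂ) (σ : Fin c → Fin 4 → ℂ) (o : Bool)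
    (v : Fin c) (k : Fin 4) : ℂ :=
  if decide (T.one v = 1 ∨ T.one v = 3) = o then
    tsh (oa (1 - τ v) (T.zf z v) (T.tt τ σ v) k) (ob (1 - τ v) (T.zf z v) (T.tt τ σ v) k)
      (oc (1 - τ v) (T.zf z v) (T.tt τ σ v) k)
  else tsh (oa (1 - τ v) (T.zf z v) (T.tt τ σ v) k) (oc (1 - τ v) (T.zf z v) (T.tt τ σ v) k)
      (ob (1 - τ v) (T.zf z v) (T.tt τ σ v) k)

/-- The solution: shape parameters at the faces, in `P`. -/
noncomputable def TData.sZ (T : TData c) (σ : Fin c → Fin 4 → ℂ) (f j : ℕ) : ℂ :=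
  tsh (T.sf σ f j) (1 - psm (T.sf σ f) (j + 1)) (psm (T.sf σ f) j)

/-- The solution: shape parameters at the faces, in `P'`. -/
noncomputable def TData.sZ' (T : TData c) (σ : Fin c → Fin 4 → ℂ) (f j : ℕ) : ℂ :=
  tsh (T.sf σ f j) (psm (T.sf σ f) j) (1 - psm (T.sf σ f) (j + 1))

/-- The region where the solution is positively oriented. -/
structure Reg (T : TData c) (τ z : Fin c → ℂ) (σ : Fin c → Fin 4 → ℂ) : Prop where
  oct : ∀ v k, T.has v k →
    TOk (oa (1 - τ v) (T.zf z v) (T.tt τ σ v) k) (ob (1 - τ v) (T.zf z v) (T.tt τ σ v) k)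
      (oc (1 - τ v) (T.zf z v) (T.tt τ σ v) k) ∧
    TOk (oa (1 - τ v) (T.zf z v) (T.tt τ σ v) k) (oc (1 - τ v) (T.zf z v) (T.tt τ σ v) k)
      (ob (1 - τ v) (T.zf z v) (T.tt τ σ v) k)
  fan : ∀ f ∈ T.F, ∀ j, 0 < j → j + 1 < T.deg f →
    TOk (T.sf σ f j) (1 - psm (T.sf σ f) (j + 1)) (psm (T.sf σ f) j) ∧
    TOk (T.sf σ f j) (psm (T.sf σ f) j) (1 - psm (T.sf σ f) (j + 1))
  sig : ∀ v k, T.cor v k ∈ T.F → 0 < (σ v k).re ∧ (σ v k).re < 1
  the : ∀ v k, T.isEnd v = false →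
    0 < (csr (τ v) k - σ v k).re ∧ (csr (τ v) k - σ v k).re < 1
  tau : ∀ v, 1 / 2 < (τ v).re ∧ (τ v).re < 1
  zp : ∀ v, 0 < (τ v - 1 / 2 + z v).re ∧ (τ v - 1 / 2 + z v).re < 1
  zm : ∀ v, 0 < (τ v - 1 / 2 - z v).re ∧ (τ v - 1 / 2 - z v).re < 1

/-- At a leg which is not the strand `0`, one of the two adjacent corners is bounded; at a twist region
at the strand `0` exactly the two corners away from this strand are bounded. -/
structure TData.Nice (T : TData c) : Prop where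
  inn : ∀ v k, T.isEnd v = false → T.cor v k ∈ T.F ∨ T.cor v (k - 1) ∈ T.F
  end0 : ∀ v, T.isEnd v = true → T.cor v (T.one v) ∉ T.F ∧ T.cor v (T.one v - 1) ∉ T.F ∧
    T.cor v (T.one v + 1) ∈ T.F ∧ T.cor v (T.one v + 2) ∈ T.F
  deg : ∀ f ∈ T.F, 2 ≤ T.deg f

end Pool.Agent.H63.CLK
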