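import Pool.Agent.H63.CLK.C_Mult
import Pool.Agent.H63.CLK.C_Asm
import Pool.Agent.H63.CLK.D_Crit

/-!
# The critical point in terms of the angles

The derivative of `PhiT` in the direction of `w i` is `∑ j, b i j * g j`, where `g` is the gradient of
`PotX` with respect to `X`: `g (inl v) = 2 hh τ - hh (τ - 1/2 - z) - hh (τ - 1/2 + z) +
∑ (bounded k, if v is not an end) ε k * (hh (ν k) - hh (ν k - σ k))`, `ε = ![-1, 1, -1, 1]`,
`g (inr p) = hh (ν - σ) - hh σ` for `p ∈ Nd` and `0` otherwise. With `multipliers` this gives `CritT`;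
note `hh (1 - τ) = hh τ` (hh_one_sub, D_Tri), so `∑ k, ε k * hh (ν k) = 0`, and `σ = 0` at the outer corners.
`psi_eq`: `ff (1 - τ) = -ff τ`, so the sum of `ff (ν k)` over the four corners is `0`.
-/

set_option autoImplicit false

namespace Pool.Agent.H63.CLK

open Pool.Agent.H63.VC hiding ext
open Pool.Agent.H63.VC3 Pool.Agent.H63.VC4 Pool.Agent.H63.VC7 Complex Filter Topology
open scoped BigOperators

variable {c d : ℕ} {F : Finset ℕ} {cor : Fin c → Fin 4 → ℕ} {x : Vr c → ℝ}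
  {b : Fin d → Vr c → ℤ} {x0 : Vr c → ℤ}


/-! ## the arguments are in the strip -/

private theorem C_Crit_cz_cast (y : ℝ) (k : Fin 4) : cz 1 (y : ℂ) k = ((cz 1 y k : ℝ) : ℂ) := by
  fin_cases k <;> simp [cz]

private theorem C_Crit_cz_cont {α : Type*} [TopologicalSpace α] {f : α → ℂ} (hf : Continuous f)
    (k : Fin 4) : Continuous fun z => cz 1 (f z) k := by
  fin_cases k <;> simp only [cz] <;> simp <;> fun_prop

private def C_Crit_In (F : Finset ℕ) (cor : Fin c → Fin 4 → ℕ) (X : Vr c → ℂ) (v : Fin c → ℂ) :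
    Prop :=
  (∀ i, (0 < (X (Sum.inl i)).re ∧ (X (Sum.inl i)).re < 1) ∧
    (0 < (X (Sum.inl i) - 1 / 2 - v i).re ∧ (X (Sum.inl i) - 1 / 2 - v i).re < 1) ∧
    (0 < (X (Sum.inl i) - 1 / 2 + v i).re ∧ (X (Sum.inl i) - 1 / 2 + v i).re < 1)) ∧
  ∀ p ∈ Nd F cor, (0 < (cz 1 (X (Sum.inl p.1)) p.2).re ∧ (cz 1 (X (Sum.inl p.1)) p.2).re < 1) ∧
    (0 < (X (Sum.inr p)).re ∧ (X (Sum.inr p)).re < 1) ∧
    (0 < (cz 1 (X (Sum.inl p.1)) p.2 - X (Sum.inr p)).re ∧
      (cz 1 (X (Sum.inl p.1)) p.2 - X (Sum.inr p)).re < 1)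

private theorem C_Crit_ev {α : Type*} [TopologicalSpace α] (a : α) {f : α → ℂ} (hf : Continuous f)
    (h0 : 0 < (f a).re) (h1 : (f a).re < 1) : ∀ᶠ z in 𝓝 a, 0 < (f z).re ∧ (f z).re < 1 := by
  have hc : Continuous fun z => (f z).re := by fun_prop
  exact (hc.continuousAt.eventually (lt_mem_nhds h0)).and
    (hc.continuousAt.eventually (gt_mem_nhds h1))

private theorem C_Crit_cz_int (h : IsInt F cor x) (v : Fin c) (k : Fin 4) :
    0 < cz 1 (x (Sum.inl v)) k ∧ cz 1 (x (Sum.inl v)) k < 1 := by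
  have h1 := h.half v
  have h2 := h.lt1 v
  fin_cases k <;> simp [cz] <;> constructor <;> linarith

private theorem C_Crit_mem_Nd {p : Fin c × Fin 4} (hp : p ∈ Nd F cor) :
    cor p.1 p.2 ∈ F ∧ ¬ IsEnd F cor p.1 := by
  classical
  unfold Nd at hp
  simpa using hp

private theorem C_Crit_par_cont (b : Fin d → Vr c → ℤ) (x : Vr c → ℝ) (j : Vr c) :
    Continuous fun z : Ix d c → ℂ => par b x (fun i => z (Sum.inl i)) j := by
  unfold par
  fun_prop

private theorem C_Crit_par_zero (b : Fin d → Vr c → ℤ) (x : Vr c → ℝ) (j : Vr c) :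
    par b x (fun i => (0 : Ix d c → ℂ) (Sum.inl i)) j = (x j : ℂ) := by
  unfold par
  simp

private theorem C_Crit_par_zero' (b : Fin d → Vr c → ℤ) (x : Vr c → ℝ) (j : Vr c) :
    par b x (fun _ => 0) j = (x j : ℂ) := by
  unfold par
  simp

private theorem C_Crit_strip (b : Fin d → Vr c → ℤ) (h : IsInt F cor x) :
    ∀ᶠ z in 𝓝 (0 : Ix d c → ℂ),
      C_Crit_In F cor (par b x (fun i => z (Sum.inl i))) (fun j => z (Sum.inr j)) := by
  refine Filter.Eventually.and ?_ ?_
  · rw [Filter.eventually_all]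
    intro v
    have h1 := h.half v
    have h2 := h.lt1 v
    have hc := C_Crit_par_cont b x (Sum.inl v)
    have e := C_Crit_par_zero (d := d) b x (Sum.inl v)
    have e' := C_Crit_par_zero' (d := d) b x (Sum.inl v)
    refine Filter.Eventually.and ?_ (Filter.Eventually.and ?_ ?_)
    · refine C_Crit_ev (0 : Ix d c → ℂ) (f := fun z => par b x (fun i => z (Sum.inl i)) (Sum.inl v))
        hc ?_ ?_
      · simp only [e, Complex.ofReal_re]
        linarith
      · simp only [e, Complex.ofReal_re]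
        linarith
    · refine C_Crit_ev (0 : Ix d c → ℂ)
        (f := fun z => par b x (fun i => z (Sum.inl i)) (Sum.inl v) - 1 / 2 - z (Sum.inr v))
        (by fun_prop) ?_ ?_
      · simp only [Pi.zero_apply, e', sub_zero, Complex.sub_re, Complex.ofReal_re]
        norm_num
        linarith
      · simp only [Pi.zero_apply, e', sub_zero, Complex.sub_re, Complex.ofReal_re]
        norm_num
        linarith
    · refine C_Crit_ev (0 : Ix d c → ℂ)
        (f := fun z => par b x (fun i => z (Sum.inl i)) (Sum.inl v) - 1 / 2 + z (Sum.inr v))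
        (by fun_prop) ?_ ?_
      · simp only [Pi.zero_apply, e', add_zero, Complex.sub_re, Complex.ofReal_re]
        norm_num
        linarith
      · simp only [Pi.zero_apply, e', add_zero, Complex.sub_re, Complex.ofReal_re]
        norm_num
        linarith
  · rw [Filter.eventually_all_finset]
    rintro ⟨v, k⟩ hp
    obtain ⟨hF, hE⟩ := C_Crit_mem_Nd hp
    have h1 := h.pos v k hF hE
    have h2 := h.lt v k hF hE
    have h3 := C_Crit_cz_int h v k
    have hc := C_Crit_cz_cont (C_Crit_par_cont (d := d) b x (Sum.inl v)) k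
    have hc' := C_Crit_par_cont b x (Sum.inr (v, k))
    have e := C_Crit_par_zero (d := d) b x (Sum.inl v)
    have e' := C_Crit_par_zero (d := d) b x (Sum.inr (v, k))
    refine Filter.Eventually.and ?_ (Filter.Eventually.and ?_ ?_)
    · refine C_Crit_ev (0 : Ix d c → ℂ)
        (f := fun z => cz 1 (par b x (fun i => z (Sum.inl i)) (Sum.inl v)) k) hc ?_ ?_
      · simp only [e, C_Crit_cz_cast, Complex.ofReal_re]
        exact h3.1
      · simp only [e, C_Crit_cz_cast, Complex.ofReal_re]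
        exact h3.2
    · refine C_Crit_ev (0 : Ix d c → ℂ)
        (f := fun z => par b x (fun i => z (Sum.inl i)) (Sum.inr (v, k))) hc' ?_ ?_
      · simp only [e', Complex.ofReal_re]
        exact h1
      · simp only [e', Complex.ofReal_re]
        linarith
    · refine C_Crit_ev (0 : Ix d c → ℂ)
        (f := fun z => cz 1 (par b x (fun i => z (Sum.inl i)) (Sum.inl v)) k -
          par b x (fun i => z (Sum.inl i)) (Sum.inr (v, k))) (hc.sub hc') ?_ ?_
      · simp only [e, e', C_Crit_cz_cast, Complex.sub_re, Complex.ofReal_re]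
        linarith
      · simp only [e, e', C_Crit_cz_cast, Complex.sub_re, Complex.ofReal_re]
        linarith


/-! ## the derivative of the potential -/

/-- The signs of the corners. -/
private def C_Crit_e : Fin 4 → ℂ := ![-1, 1, -1, 1]

private theorem C_Crit_ff {A : (Ix d c → ℂ) → ℂ} {L : (Ix d c → ℂ) →L[ℂ] ℂ} {p : Ix d c → ℂ}
    (hA : HasFDerivAt A L p) (h0 : 0 < (A p).re) (h1 : (A p).re < 1) :
    HasFDerivAt (fun z => ff (A z)) (hh (A p) • L) p :=
  (ff_hasDerivAt (A p) h0 h1).comp_hasFDerivAt p hA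

/-- The derivative of `par`. -/
private noncomputable def C_Crit_L (d c : ℕ) (b : Fin d → Vr c → ℤ) (j : Vr c) :
    (Ix d c → ℂ) →L[ℂ] ℂ :=
  ∑ i, (b i j : ℂ) • ContinuousLinearMap.proj (R := ℂ) (φ := fun _ : Ix d c => ℂ) (Sum.inl i)

private theorem C_Crit_L_apply (b : Fin d → Vr c → ℤ) (j : Vr c) (z : Ix d c → ℂ) :
    C_Crit_L d c b j z = ∑ i, (b i j : ℂ) * z (Sum.inl i) := by
  simp [C_Crit_L]

private theorem C_Crit_par (b : Fin d → Vr c → ℤ) (x : Vr c → ℝ) (j : Vr c) (p : Ix d c → ℂ) :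
    HasFDerivAt (fun z : Ix d c → ℂ => par b x (fun i => z (Sum.inl i)) j)
      (C_Crit_L d c b j) p := by
  have e : (fun z : Ix d c → ℂ => par b x (fun i => z (Sum.inl i)) j) =
      fun z => (x j : ℂ) + C_Crit_L d c b j z := by
    funext z
    rw [C_Crit_L_apply]
    rfl
  rw [e]
  exact ((C_Crit_L d c b j).hasFDerivAt).const_add _

private theorem C_Crit_cz (b : Fin d → Vr c → ℤ) (x : Vr c → ℝ) (v : Fin c) (k : Fin 4)
    (p : Ix d c → ℂ) :
    HasFDerivAt (fun z : Ix d c → ℂ => cz 1 (par b x (fun i => z (Sum.inl i)) (Sum.inl v)) k)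
      (C_Crit_e k • C_Crit_L d c b (Sum.inl v)) p := by
  have h1 := C_Crit_par b x (Sum.inl v) p
  have hm : HasFDerivAt (fun z : Ix d c → ℂ => 1 - par b x (fun i => z (Sum.inl i)) (Sum.inl v))
      ((-1 : ℂ) • C_Crit_L d c b (Sum.inl v)) p := by
    have h2 := h1.const_sub 1
    have e : (-1 : ℂ) • C_Crit_L d c b (Sum.inl v) = -C_Crit_L d c b (Sum.inl v) := by
      refine ContinuousLinearMap.ext fun z => ?_
      change (-1 : ℂ) * _ = -_
      rw [neg_one_mul]
    rw [e]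
    exact h2
  have hp : HasFDerivAt (fun z : Ix d c → ℂ => par b x (fun i => z (Sum.inl i)) (Sum.inl v))
      ((1 : ℂ) • C_Crit_L d c b (Sum.inl v)) p := by
    rw [one_smul]
    exact h1
  match k with
  | 0 => exact hm
  | 1 => exact hp
  | 2 => exact hm
  | 3 => exact hp

private noncomputable def C_Crit_D (F : Finset ℕ) (cor : Fin c → Fin 4 → ℕ)
    (b : Fin d → Vr c → ℤ) (X : Vr c → ℂ) (v : Fin c → ℂ) : (Ix d c → ℂ) →L[ℂ] ℂ :=
  (∑ i, ((2 : ℂ) • (hh (X (Sum.inl i)) • C_Crit_L d c b (Sum.inl i)) -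
    hh (X (Sum.inl i) - 1 / 2 - v i) • (C_Crit_L d c b (Sum.inl i) -
      ContinuousLinearMap.proj (R := ℂ) (φ := fun _ : Ix d c => ℂ) (Sum.inr i)) -
    hh (X (Sum.inl i) - 1 / 2 + v i) • (C_Crit_L d c b (Sum.inl i) +
      ContinuousLinearMap.proj (R := ℂ) (φ := fun _ : Ix d c => ℂ) (Sum.inr i)))) +
  ∑ p ∈ Nd F cor, (hh (cz 1 (X (Sum.inl p.1)) p.2) • (C_Crit_e p.2 • C_Crit_L d c b (Sum.inl p.1)) -
    hh (X (Sum.inr p)) • C_Crit_L d c b (Sum.inr p) -
    hh (cz 1 (X (Sum.inl p.1)) p.2 - X (Sum.inr p)) •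
      (C_Crit_e p.2 • C_Crit_L d c b (Sum.inl p.1) - C_Crit_L d c b (Sum.inr p)))

private theorem C_Crit_deriv (b : Fin d → Vr c → ℤ) (x : Vr c → ℝ) (p : Ix d c → ℂ)
    (hp : C_Crit_In F cor (par b x (fun i => p (Sum.inl i))) (fun j => p (Sum.inr j))) :
    HasFDerivAt (PhiT F cor b x)
      (C_Crit_D F cor b (par b x (fun i => p (Sum.inl i))) (fun j => p (Sum.inr j))) p := by
  obtain ⟨h1, h2⟩ := hp
  have hpr : ∀ i : Fin c, HasFDerivAt (fun z : Ix d c → ℂ => z (Sum.inr i))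
      (ContinuousLinearMap.proj (R := ℂ) (φ := fun _ : Ix d c => ℂ) (Sum.inr i)) p := fun i =>
    (ContinuousLinearMap.proj (R := ℂ) (φ := fun _ : Ix d c => ℂ) (Sum.inr i)).hasFDerivAt
  have e : PhiT F cor b x = fun z : Ix d c → ℂ =>
      (∑ i, (2 * ff (par b x (fun l => z (Sum.inl l)) (Sum.inl i)) -
        ff (par b x (fun l => z (Sum.inl l)) (Sum.inl i) - 1 / 2 - z (Sum.inr i)) -
        ff (par b x (fun l => z (Sum.inl l)) (Sum.inl i) - 1 / 2 + z (Sum.inr i)))) +
      ∑ q ∈ Nd F cor, (ff (cz 1 (par b x (fun l => z (Sum.inl l)) (Sum.inl q.1)) q.2) -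
        ff (par b x (fun l => z (Sum.inl l)) (Sum.inr q)) -
        ff (cz 1 (par b x (fun l => z (Sum.inl l)) (Sum.inl q.1)) q.2 -
          par b x (fun l => z (Sum.inl l)) (Sum.inr q))) := rfl
  rw [e]
  unfold C_Crit_D
  refine HasFDerivAt.add (HasFDerivAt.fun_sum fun i _ => ?_) (HasFDerivAt.fun_sum fun q hq => ?_)
  · obtain ⟨a1, a2, a3⟩ := h1 i
    have b1 := C_Crit_par b x (Sum.inl i) p
    have c1 := (C_Crit_ff b1 a1.1 a1.2).const_mul (2 : ℂ)
    have b2 : HasFDerivAt (fun z : Ix d c → ℂ =>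
        par b x (fun l => z (Sum.inl l)) (Sum.inl i) - 1 / 2 - z (Sum.inr i)) _ p :=
      (b1.sub_const (1 / 2)).sub (hpr i)
    have b3 : HasFDerivAt (fun z : Ix d c → ℂ =>
        par b x (fun l => z (Sum.inl l)) (Sum.inl i) - 1 / 2 + z (Sum.inr i)) _ p :=
      (b1.sub_const (1 / 2)).add (hpr i)
    exact (c1.sub (C_Crit_ff b2 a2.1 a2.2)).sub (C_Crit_ff b3 a3.1 a3.2)
  · obtain ⟨a1, a2, a3⟩ := h2 q hq
    have b1 := C_Crit_cz b x q.1 q.2 p
    have b2 := C_Crit_par b x (Sum.inr q) p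
    have b3 : HasFDerivAt (fun z : Ix d c → ℂ =>
        cz 1 (par b x (fun l => z (Sum.inl l)) (Sum.inl q.1)) q.2 -
          par b x (fun l => z (Sum.inl l)) (Sum.inr q)) _ p := b1.sub b2
    exact ((C_Crit_ff b1 a1.1 a1.2).sub (C_Crit_ff b2 a2.1 a2.2)).sub (C_Crit_ff b3 a3.1 a3.2)

/-- The gradient of `PotX` with respect to `X`. -/
private noncomputable def C_Crit_g (F : Finset ℕ) (cor : Fin c → Fin 4 → ℕ) (X : Vr c → ℂ)
    (v : Fin c → ℂ) : Vr c → ℂ := by
  classical
  exact Sum.elim (fun i => 2 * hh (X (Sum.inl i)) - hh (X (Sum.inl i) - 1 / 2 - v i) -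
      hh (X (Sum.inl i) - 1 / 2 + v i) +
      ∑ k, (if (i, k) ∈ Nd F cor then C_Crit_e k * (hh (cz 1 (X (Sum.inl i)) k) -
        hh (cz 1 (X (Sum.inl i)) k - X (Sum.inr (i, k)))) else 0))
    (fun q => if q ∈ Nd F cor then
      hh (cz 1 (X (Sum.inl q.1)) q.2 - X (Sum.inr q)) - hh (X (Sum.inr q)) else 0)

private theorem C_Crit_D_inl (b : Fin d → Vr c → ℤ) (X : Vr c → ℂ) (v : Fin c → ℂ) (i : Fin d) :
    C_Crit_D F cor b X v (Pi.single (Sum.inl i) 1) = ∑ j, (b i j : ℂ) * C_Crit_g F cor X v j := by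
  classical
  have hL : ∀ j, C_Crit_L d c b j (Pi.single (Sum.inl i) 1) = (b i j : ℂ) := by
    intro j
    rw [C_Crit_L_apply, Finset.sum_eq_single i]
    · rw [Pi.single_eq_same, mul_one]
    · intro l _ hl
      rw [Pi.single_eq_of_ne (by simpa using hl), mul_zero]
    · intro h
      exact absurd (Finset.mem_univ _) h
  have hP : ∀ j : Fin c, (ContinuousLinearMap.proj (R := ℂ) (φ := fun _ : Ix d c => ℂ)
      (Sum.inr j)) (Pi.single (Sum.inl i) (1 : ℂ)) = 0 := by
    intro j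
    change (Pi.single (Sum.inl i) (1 : ℂ) : Ix d c → ℂ) (Sum.inr j) = 0
    rw [Pi.single_eq_of_ne (by simp)]
  unfold C_Crit_D
  rw [add_apply, sum_apply,
    sum_apply, Fintype.sum_sum_type]
  simp only [ContinuousLinearMap.sub_apply, ContinuousLinearMap.add_apply,
    ContinuousLinearMap.smul_apply, hL, hP, smul_eq_mul, sub_zero, add_zero]
  unfold C_Crit_g
  simp only [Sum.elim_inl, Sum.elim_inr, mul_add, Finset.sum_add_distrib]
  have e1 : ∑ q ∈ Nd F cor, (hh (cz 1 (X (Sum.inl q.1)) q.2) * (C_Crit_e q.2 *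
        (b i (Sum.inl q.1) : ℂ)) - hh (X (Sum.inr q)) * (b i (Sum.inr q) : ℂ) -
        hh (cz 1 (X (Sum.inl q.1)) q.2 - X (Sum.inr q)) *
          (C_Crit_e q.2 * (b i (Sum.inl q.1) : ℂ) - (b i (Sum.inr q) : ℂ))) =
      ∑ q : Fin c × Fin 4, (if q ∈ Nd F cor then (b i (Sum.inl q.1) : ℂ) * (C_Crit_e q.2 *
        (hh (cz 1 (X (Sum.inl q.1)) q.2) - hh (cz 1 (X (Sum.inl q.1)) q.2 - X (Sum.inr q)))) +
        (b i (Sum.inr q) : ℂ) * (hh (cz 1 (X (Sum.inl q.1)) q.2 - X (Sum.inr q)) -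
          hh (X (Sum.inr q))) else 0) := by
    rw [← Finset.sum_filter]
    have : (Finset.univ.filter fun q : Fin c × Fin 4 => q ∈ Nd F cor) = Nd F cor := by
      ext q
      simp
    rw [this]
    refine Finset.sum_congr rfl fun q _ => ?_
    ring
  rw [e1]
  have e2 : ∀ q : Fin c × Fin 4, (if q ∈ Nd F cor then (b i (Sum.inl q.1) : ℂ) * (C_Crit_e q.2 *
        (hh (cz 1 (X (Sum.inl q.1)) q.2) - hh (cz 1 (X (Sum.inl q.1)) q.2 - X (Sum.inr q)))) +
        (b i (Sum.inr q) : ℂ) * (hh (cz 1 (X (Sum.inl q.1)) q.2 - X (Sum.inr q)) -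
          hh (X (Sum.inr q))) else 0) =
      (b i (Sum.inl q.1) : ℂ) * (if q ∈ Nd F cor then C_Crit_e q.2 *
        (hh (cz 1 (X (Sum.inl q.1)) q.2) -
          hh (cz 1 (X (Sum.inl q.1)) q.2 - X (Sum.inr q))) else 0) +
      (b i (Sum.inr q) : ℂ) * (if q ∈ Nd F cor then
        hh (cz 1 (X (Sum.inl q.1)) q.2 - X (Sum.inr q)) - hh (X (Sum.inr q)) else 0) := by
    intro q
    by_cases hq : q ∈ Nd F cor
    · rw [if_pos hq, if_pos hq, if_pos hq]
    · rw [if_neg hq, if_neg hq, if_neg hq, mul_zero, mul_zero, add_zero]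
  rw [Finset.sum_congr rfl fun q _ => e2 q, Finset.sum_add_distrib]
  have e3 : ∑ q : Fin c × Fin 4, (b i (Sum.inl q.1) : ℂ) * (if q ∈ Nd F cor then C_Crit_e q.2 *
        (hh (cz 1 (X (Sum.inl q.1)) q.2) -
          hh (cz 1 (X (Sum.inl q.1)) q.2 - X (Sum.inr q))) else 0) =
      ∑ v : Fin c, (b i (Sum.inl v) : ℂ) * ∑ k, (if (v, k) ∈ Nd F cor then C_Crit_e k *
        (hh (cz 1 (X (Sum.inl v)) k) - hh (cz 1 (X (Sum.inl v)) k - X (Sum.inr (v, k))))
          else 0) := by
    rw [Fintype.sum_prod_type]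
    refine Finset.sum_congr rfl fun v _ => ?_
    rw [Finset.mul_sum]
  rw [e3, ← add_assoc]
  congr 1
  congr 1
  refine Finset.sum_congr rfl fun v _ => ?_
  ring

private theorem C_Crit_D_inr (b : Fin d → Vr c → ℤ) (X : Vr c → ℂ) (v : Fin c → ℂ) (j : Fin c) :
    C_Crit_D F cor b X v (Pi.single (Sum.inr j) 1) =
      hh (X (Sum.inl j) - 1 / 2 - v j) - hh (X (Sum.inl j) - 1 / 2 + v j) := by
  classical
  have hL : ∀ l, C_Crit_L d c b l (Pi.single (Sum.inr j) 1) = 0 := by
    intro l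
    rw [C_Crit_L_apply]
    refine Finset.sum_eq_zero fun i _ => ?_
    rw [Pi.single_eq_of_ne (by simp), mul_zero]
  have hP : ∀ i : Fin c, (ContinuousLinearMap.proj (R := ℂ) (φ := fun _ : Ix d c => ℂ)
      (Sum.inr i)) (Pi.single (Sum.inr j) (1 : ℂ)) = if i = j then 1 else 0 := by
    intro i
    change (Pi.single (Sum.inr j) (1 : ℂ) : Ix d c → ℂ) (Sum.inr i) = _
    by_cases hij : i = j
    · subst hij
      rw [Pi.single_eq_same, if_pos rfl]
    · rw [Pi.single_eq_of_ne (by simpa using hij), if_neg hij]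
  unfold C_Crit_D
  rw [add_apply, sum_apply,
    sum_apply]
  simp only [ContinuousLinearMap.sub_apply, ContinuousLinearMap.add_apply,
    ContinuousLinearMap.smul_apply, hL, hP, smul_eq_mul, sub_zero, mul_zero,
    Finset.sum_const_zero, add_zero, zero_sub, zero_add]
  rw [Finset.sum_eq_single j]
  · rw [if_pos rfl]
    ring
  · intro i _ hi
    rw [if_neg hi]
    ring
  · intro h
    exact absurd (Finset.mem_univ _) h

/-- The linear equations of `par`. -/
private theorem C_Crit_lin (h : IsInt F cor x) (hb : IsBas F cor b x0) (w : Fin d → ℂ) :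
    IsLin F cor (1 : ℂ) (par b x w) := by
  have h1 := ang_lin h.ang
  constructor
  · intro v
    unfold par
    rw [Finset.sum_add_distrib, Finset.sum_comm]
    have e1 : ∑ k, (x (Sum.inr (v, k)) : ℂ) = 1 := by
      rw [← Complex.ofReal_sum, h1.vert, Complex.ofReal_one]
    have e2 : ∀ i, ∑ k, (b i (Sum.inr (v, k)) : ℂ) * w i = 0 := by
      intro i
      rw [← Finset.sum_mul]
      have := (hb.linb i).vert v
      have e : (∑ k, (b i (Sum.inr (v, k)) : ℂ)) = 0 := by exact_mod_cast this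
      rw [e, zero_mul]
    rw [e1, Finset.sum_eq_zero fun i _ => e2 i, add_zero]
  · intro f hf
    unfold par
    have e0 : ∀ v k, (if cor v k = f then ((x (Sum.inr (v, k)) : ℝ) : ℂ) +
        ∑ i, (b i (Sum.inr (v, k)) : ℂ) * w i else 0) =
        ((if cor v k = f then x (Sum.inr (v, k)) else 0 : ℝ) : ℂ) +
        ∑ i, ((if cor v k = f then b i (Sum.inr (v, k)) else 0 : ℤ) : ℂ) * w i := by
      intro v k
      by_cases hc : cor v k = f
      · simp only [if_pos hc]
      · simp only [if_neg hc]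
        simp
    simp only [e0, Finset.sum_add_distrib]
    have e1 : ∑ v, ∑ k, ((if cor v k = f then x (Sum.inr (v, k)) else 0 : ℝ) : ℂ) = 1 := by
      have := h1.face f hf
      exact_mod_cast this
    have e2 : ∑ v, ∑ k, ∑ i, ((if cor v k = f then b i (Sum.inr (v, k)) else 0 : ℤ) : ℂ) * w i =
        0 := by
      have e3 : ∀ v : Fin c, ∑ k, ∑ i,
          ((if cor v k = f then b i (Sum.inr (v, k)) else 0 : ℤ) : ℂ) * w i =
          ∑ i, ∑ k, ((if cor v k = f then b i (Sum.inr (v, k)) else 0 : ℤ) : ℂ) * w i :=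
        fun v => Finset.sum_comm
      simp only [e3]
      rw [Finset.sum_comm]
      refine Finset.sum_eq_zero fun i _ => ?_
      simp only [← Finset.sum_mul]
      have := (hb.linb i).face f hf
      have e : (∑ v, ∑ k, ((if cor v k = f then b i (Sum.inr (v, k)) else 0 : ℤ) : ℂ)) = 0 := by
        exact_mod_cast this
      rw [e, zero_mul]
    rw [e1, e2, add_zero]
  · intro v k hk
    unfold par
    rw [h1.out v k hk]
    rw [Finset.sum_eq_zero]
    · simp
    · intro i _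
      rw [(hb.linb i).out v k hk]
      simp
  · intro v k hv hk
    unfold par
    rw [h1.endv v k hv hk]
    have e1 : ∀ i, (b i (Sum.inr (v, k)) : ℂ) = C_Crit_e k * (b i (Sum.inl v) : ℂ) := by
      intro i
      rw [(hb.linb i).endv v k hv hk]
      match k with
      | 0 => simp [cz, C_Crit_e]
      | 1 => simp [cz, C_Crit_e]
      | 2 => simp [cz, C_Crit_e]
      | 3 => simp [cz, C_Crit_e]
    simp only [e1, mul_assoc, ← Finset.mul_sum]
    generalize ∑ i, (b i (Sum.inl v) : ℂ) * w i = y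
    match k with
    | 0 => simp [cz, C_Crit_e]; ring
    | 1 => simp [cz, C_Crit_e]
    | 2 => simp [cz, C_Crit_e]; ring
    | 3 => simp [cz, C_Crit_e]

private theorem C_Crit_mem_Nd' (q : Fin c × Fin 4) :
    q ∈ Nd F cor ↔ cor q.1 q.2 ∈ F ∧ ¬ IsEnd F cor q.1 := by
  classical
  unfold Nd
  simp

/-- The critical equations. -/
theorem critT_of (h : IsInt F cor x) (hb : IsBas F cor b x0) : ∃ ε3 : ℝ, 0 < ε3 ∧ ∀ T : TData c,
    T.F = F → T.cor = cor → (∀ v, T.isEnd v = true ↔ IsEnd F cor v) →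
    ∀ (a : Fin c → ℤ) (K δ : ℝ) (p : Ix d c → ℂ), δ ≤ ε3 →
    IsCritE (PhiT F cor b x) (fun j => (a j : ℝ) / 2) K δ p →
    ∃ (A : ℕ → ℂ) (B : Fin c → ℂ), CritT T a (fun v => par b x (fun i => p (Sum.inl i)) (Sum.inl v))
      (fun v => p (Sum.inr v)) (fun v k => par b x (fun i => p (Sum.inl i)) (Sum.inr (v, k))) A B := by
  classical
  obtain ⟨ε, hε, hball⟩ := Metric.eventually_nhds_iff_ball.mp (C_Crit_strip b h)
  refine ⟨ε / 2, by positivity, ?_⟩
  intro T hF hcor hend a K δ p hδ hp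
  subst hF
  subst hcor
  have hpn : p ∈ Metric.ball (0 : Ix d c → ℂ) ε := by
    rw [mem_ball_zero_iff]
    refine lt_of_le_of_lt ((pi_norm_le_iff_of_nonneg (by positivity : (0 : ℝ) ≤ ε / 2)).mpr ?_)
      (half_lt_self hε)
    exact fun i => (hp.small i).trans hδ
  have hin := hball p hpn
  have hD := C_Crit_deriv b x p hin
  have hlin := C_Crit_lin h hb (fun i => p (Sum.inl i))
  set X : Vr c → ℂ := par b x (fun i => p (Sum.inl i)) with hX
  have hfd : fderiv ℂ (PhiT T.F T.cor b x) p = C_Crit_D T.F T.cor b X (fun j => p (Sum.inr j)) :=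
    hD.fderiv
  have hg : ∀ i, ∑ j, (b i j : ℂ) * C_Crit_g T.F T.cor X (fun j => p (Sum.inr j)) j = 0 := by
    intro i
    rw [← C_Crit_D_inl, ← hfd]
    exact hp.ew i
  have hz : ∀ j, hh (X (Sum.inl j) - 1 / 2 - p (Sum.inr j)) -
      hh (X (Sum.inl j) - 1 / 2 + p (Sum.inr j)) +
      2 * Real.pi * I * (2 * ((a j : ℝ) / 2 : ℝ) * p (Sum.inr j) + 1) = 0 := by
    intro j
    have h1 := hp.ev j
    rw [hfd, C_Crit_D_inr] at h1
    exact h1
  obtain ⟨A, B, hA, hB, hE⟩ := multipliers h hb (C_Crit_g T.F T.cor X (fun j => p (Sum.inr j)))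
    (by
      intro q hq
      unfold C_Crit_g
      simp only [Sum.elim_inr]
      rw [if_neg hq]) hg
  have hcsr : ∀ (y : ℂ) (k : Fin 4), csr y k = cz 1 y k := fun y k => rfl
  have hne : ∀ v, T.isEnd v = false → ¬ IsEnd T.F T.cor v := by
    intro v hv h1
    rw [(hend v).2 h1] at hv
    exact absurd hv (by decide)
  refine ⟨A, B, ?_, ?_, ?_, ?_, ?_, ?_, ?_, ?_⟩
  · intro v k hk
    exact hlin.out v k hk
  · intro v k hk hv
    rw [hcsr]
    exact hlin.endv v k ((hend v).1 hv) hk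
  · intro v
    exact hlin.vert v
  · intro f hf
    exact hlin.face f hf
  · intro v k hk hv
    have hq : (v, k) ∈ Nd T.F T.cor := (C_Crit_mem_Nd' (v, k)).2 ⟨hk, hne v hv⟩
    have h1 := hA (v, k) hq
    unfold C_Crit_g at h1
    simp only [Sum.elim_inr] at h1
    rw [if_pos hq] at h1
    rw [hcsr]
    exact h1
  · intro v hv
    have h1 := hB v (hne v hv)
    unfold C_Crit_g at h1
    simp only [Sum.elim_inl] at h1
    have h2 : ∀ k, (if (v, k) ∈ Nd T.F T.cor then C_Crit_e k * (hh (cz 1 (X (Sum.inl v)) k) -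
        hh (cz 1 (X (Sum.inl v)) k - X (Sum.inr (v, k)))) else 0) =
        C_Crit_e k * (hh (cz 1 (X (Sum.inl v)) k) -
        hh (cz 1 (X (Sum.inl v)) k - X (Sum.inr (v, k)))) := by
      intro k
      by_cases hk : T.cor v k ∈ T.F
      · rw [if_pos ((C_Crit_mem_Nd' (v, k)).2 ⟨hk, hne v hv⟩)]
      · rw [if_neg (fun h3 => hk ((C_Crit_mem_Nd' (v, k)).1 h3).1), hlin.out v k hk, sub_zero,
          sub_self, mul_zero]
    simp only [h2] at h1
    rw [Fin.sum_univ_four] at h1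
    have e0 : ∀ y : ℂ, hh (cz 1 y 0) = hh y := fun y => hh_one_sub y
    have e1 : ∀ y : ℂ, hh (cz 1 y 1) = hh y := fun y => rfl
    have e2 : ∀ y : ℂ, hh (cz 1 y 2) = hh y := fun y => hh_one_sub y
    have e3 : ∀ y : ℂ, hh (cz 1 y 3) = hh y := fun y => rfl
    rw [e0, e1, e2, e3] at h1
    have c0 : C_Crit_e 0 = -1 := rfl
    have c1 : C_Crit_e 1 = 1 := rfl
    have c2 : C_Crit_e 2 = -1 := rfl
    have c3 : C_Crit_e 3 = 1 := rfl
    rw [c0, c1, c2, c3] at h1
    simp only [hcsr]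
    linear_combination -h1
  · intro v hv
    have hv' := (hend v).1 hv
    have h1 := hE v hv'
    unfold C_Crit_g at h1
    simp only [Sum.elim_inl] at h1
    have h2 : ∀ k, (if (v, k) ∈ Nd T.F T.cor then C_Crit_e k * (hh (cz 1 (X (Sum.inl v)) k) -
        hh (cz 1 (X (Sum.inl v)) k - X (Sum.inr (v, k)))) else 0) = 0 := by
      intro k
      rw [if_neg (fun h3 => ((C_Crit_mem_Nd' (v, k)).1 h3).2 hv')]
    simp only [h2, Finset.sum_const_zero, add_zero] at h1
    have h3 : ∀ k : Fin 4, (if T.cor v k ∈ T.F then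
        (if k = 0 ∨ k = 2 then A (T.cor v k) else -A (T.cor v k)) else 0) =
        -(if T.cor v k ∈ T.F then (![-1, 1, -1, 1] k : ℂ) * A (T.cor v k) else 0) := by
      intro k
      by_cases hk : T.cor v k ∈ T.F
      · rw [if_pos hk, if_pos hk]
        match k with
        | 0 => simp
        | 1 => simp
        | 2 => simp
        | 3 => simp
      · rw [if_neg hk, if_neg hk, neg_zero]
    simp only [h3, Finset.sum_neg_distrib]
    linear_combination -h1
  · intro v
    have h1 := hz v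
    push_cast at h1
    linear_combination h1

/-- The value of the potential. -/
theorem psi_eq (h : IsInt F cor x) : ∃ ε3 : ℝ, 0 < ε3 ∧ ∀ T : TData c,
    T.F = F → T.cor = cor → (∀ v, T.isEnd v = true ↔ IsEnd F cor v) →
    ∀ (a : Fin c → ℤ) (p : Ix d c → ℂ), (∀ i, ‖p i‖ ≤ ε3) →
    Psi T a (fun v => par b x (fun i => p (Sum.inl i)) (Sum.inl v))
      (fun v => p (Sum.inr v)) (fun v k => par b x (fun i => p (Sum.inl i)) (Sum.inr (v, k))) =
      cval F cor b x a p := by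
  classical
  refine ⟨1, one_pos, ?_⟩
  intro T hF hcor hend a p _
  subst hF
  subst hcor
  unfold Psi cval PhiT PotX Qr
  generalize hX : par b x (fun i => p (Sum.inl i)) = X
  have hcsr : ∀ (y : ℂ) (k : Fin 4), csr y k = cz 1 y k := fun y k => rfl
  have hNd : ∑ q ∈ Nd T.F T.cor, cpo (cz 1 (X (Sum.inl q.1)) q.2) (X (Sum.inr q)) =
      -∑ v, ∑ k, cpt T (fun v => X (Sum.inl v)) (fun v k => X (Sum.inr (v, k))) v k := by
    have e1 : ∑ q ∈ Nd T.F T.cor, cpo (cz 1 (X (Sum.inl q.1)) q.2) (X (Sum.inr q)) =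
        ∑ v, ∑ k, (if (v, k) ∈ Nd T.F T.cor then cpo (cz 1 (X (Sum.inl v)) k)
          (X (Sum.inr (v, k))) else 0) := by
      rw [← Fintype.sum_prod_type (f := fun q : Fin c × Fin 4 => if q ∈ Nd T.F T.cor then
        cpo (cz 1 (X (Sum.inl q.1)) q.2) (X (Sum.inr q)) else 0), ← Finset.sum_filter]
      congr 1
      ext q
      simp
    rw [e1, ← Finset.sum_neg_distrib]
    refine Finset.sum_congr rfl fun v _ => ?_
    rcases Bool.eq_false_or_eq_true (T.isEnd v) with hv | hv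
    · have hv' := (hend v).1 hv
      have e2 : ∀ k, (if (v, k) ∈ Nd T.F T.cor then cpo (cz 1 (X (Sum.inl v)) k)
          (X (Sum.inr (v, k))) else 0) = 0 := by
        intro k
        rw [if_neg (fun h3 => ((C_Crit_mem_Nd' (v, k)).1 h3).2 hv')]
      have e3 : ∀ k, cpt T (fun v => X (Sum.inl v)) (fun v k => X (Sum.inr (v, k))) v k = 0 := by
        intro k
        unfold cpt
        rw [if_neg (by rw [hv]; decide)]
      simp only [e2, e3, Finset.sum_const_zero, neg_zero]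
    · have hv' : ¬ IsEnd T.F T.cor v := by
        intro h1
        rw [(hend v).2 h1] at hv
        exact absurd hv (by decide)
      have e2 : ∀ k, (if (v, k) ∈ Nd T.F T.cor then cpo (cz 1 (X (Sum.inl v)) k)
          (X (Sum.inr (v, k))) else 0) = ff (cz 1 (X (Sum.inl v)) k) -
          cpt T (fun v => X (Sum.inl v)) (fun v k => X (Sum.inr (v, k))) v k := by
        intro k
        unfold cpt
        rw [if_pos hv, hcsr]
        by_cases hk : T.cor v k ∈ T.F
        · rw [if_pos ((C_Crit_mem_Nd' (v, k)).2 ⟨hk, hv'⟩), if_pos hk]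
          unfold cpo
          ring
        · rw [if_neg (fun h3 => hk ((C_Crit_mem_Nd' (v, k)).1 h3).1), if_neg hk, sub_self]
      simp only [e2, Finset.sum_sub_distrib]
      have e4 : ∑ k, ff (cz 1 (X (Sum.inl v)) k) = 0 := by
        rw [Fin.sum_univ_four]
        change ff (1 - X (Sum.inl v)) + ff (X (Sum.inl v)) + ff (1 - X (Sum.inl v)) +
          ff (X (Sum.inl v)) = 0
        rw [ff_reflect]
        ring
      rw [e4, zero_sub]
  rw [hNd]
  have e5 : (∑ v, (2 * Real.pi * I * (a v / 2 * p (Sum.inr v) ^ 2 + p (Sum.inr v)) +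
      2 * ff (X (Sum.inl v)) - ff (X (Sum.inl v) - 1 / 2 - p (Sum.inr v)) -
      ff (X (Sum.inl v) - 1 / 2 + p (Sum.inr v)))) =
      (∑ i, (2 * ff (X (Sum.inl i)) - ff (X (Sum.inl i) - 1 / 2 - p (Sum.inr i)) -
        ff (X (Sum.inl i) - 1 / 2 + p (Sum.inr i)))) +
      ∑ j, 2 * Real.pi * I * ((((a j : ℝ) / 2 : ℝ) : ℂ) * p (Sum.inr j) ^ 2 + p (Sum.inr j)) := by
    rw [← Finset.sum_add_distrib]
    refine Finset.sum_congr rfl fun v _ => ?_
    push_cast
    ring
  rw [e5]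
  ring

end Pool.Agent.H63.CLK
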