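import Pool.Agent.H63.VC.Asym
import Pool.Agent.H63.VC.EndB
import Pool.Agent.H63.VC.Riem
import Pool.Agent.H63.VC.SlowL
import Pool.Agent.H63.VC.SlowU
import Pool.Agent.H63.VC.Small
import Pool.Agent.H63.VC4.GaussN
import Pool.Agent.H63.VC4.KBN
import Pool.Agent.H63.VC4.LaplaceN
import Pool.Agent.H63.VC6.Multi

/-!
# Lattice sums and integrals with a large parameter

`Φ` is a potential function of `d` summation variables and `c` integration variables, real and with a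
nondegenerate maximum at `0` on the reals, and even in the integration variables; `Qr` is the
oscillating part, where all `|r j|` are large.
-/

namespace Pool.Agent.H63.CLK

open Complex Filter Topology
open scoped BigOperators

/-- The variables. -/
abbrev Ix (d c : ℕ) : Type := Fin d ⊕ Fin c

/-- Real points as complex points. -/
noncomputable def cpx {ι : Type*} (x : ι → ℝ) : ι → ℂ := fun i => (x i : ℂ)

/-- The oscillating part of the potential. -/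
noncomputable def Qr {d c : ℕ} (r : Fin c → ℝ) (z : Ix d c → ℂ) : ℂ :=
  ∑ j, 2 * Real.pi * I * (r j * z (Sum.inr j) ^ 2 + z (Sum.inr j))

/-- The properties of a potential. -/
structure PotOK {d c : ℕ} (Φ : (Ix d c → ℂ) → ℂ) (ε : ℝ) : Prop where
  pos : 0 < ε
  an : AnalyticOnNhd ℂ Φ (Metric.closedBall 0 ε)
  real : ∀ x : Ix d c → ℝ, (∀ i, |x i| ≤ ε) → (Φ (cpx x)).im = 0
  crit : fderiv ℂ Φ 0 = 0
  hess : ∀ x : Ix d c → ℝ, x ≠ 0 → (iteratedDeriv 2 (fun s : ℂ => Φ (s • cpx x)) 0).re < 0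
  even : ∀ z ∈ Metric.closedBall (0 : Ix d c → ℂ) ε, ∀ j : Fin c,
    Φ (Function.update z (Sum.inr j) (-z (Sum.inr j))) = Φ z

/-- The domain of the integrands: the integration variables have the imaginary parts `Y j`. -/
def DomE {d c : ℕ} (δ : ℝ) (Y : Fin c → ℝ) (z : Ix d c → ℂ) : Prop :=
  (∀ i, |(z (Sum.inl i)).re| ≤ 2 * δ ∧ |(z (Sum.inl i)).im| ≤ 2 * δ) ∧
    ∀ j, |(z (Sum.inr j)).re| ≤ 2 * δ ∧ (z (Sum.inr j)).im = Y j

/-- A critical point of `Φ + Qr r`. -/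
structure IsCritE {d c : ℕ} (Φ : (Ix d c → ℂ) → ℂ) (r : Fin c → ℝ) (K δ : ℝ) (p : Ix d c → ℂ) :
    Prop where
  small : ∀ i, ‖p i‖ ≤ δ
  ew : ∀ i : Fin d, fderiv ℂ Φ p (Pi.single (Sum.inl i) 1) = 0
  ev : ∀ j : Fin c, fderiv ℂ Φ p (Pi.single (Sum.inr j) 1) +
    2 * Real.pi * I * (2 * r j * p (Sum.inr j) + 1) = 0
  impos : ∀ j : Fin c, 0 < (p (Sum.inr j)).im
  imle : ∀ j : Fin c, (p (Sum.inr j)).im ≤ K / (r j) ^ 2

/-- The integrands: analytic, bounded by the exponential of the potential, and with a limit. -/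
structure IsAmp {d c : ℕ} (Φ : (Ix d c → ℂ) → ℂ) (r : Fin c → ℝ) (δ : ℝ) (p : Ix d c → ℂ)
    (G : ℕ → (Ix d c → ℂ) → ℂ) (e : ℝ) (u : ℕ → ℂ) (A : ℂ) : Prop where
  diff : ∀ᶠ M : ℕ in atTop, ∀ z, DomE δ (fun j => (p (Sum.inr j)).im) z →
    DifferentiableAt ℂ (G M) z
  bound : ∃ C : ℝ, ∀ᶠ M : ℕ in atTop, ∀ z, DomE δ (fun j => (p (Sum.inr j)).im) z →
    ‖G M z‖ ≤ C * (M : ℝ) ^ e * Real.exp (M * (Φ z + Qr r z).re)
  unit : ∀ M, ‖u M‖ = 1
  lim : ∀ ξ : Ix d c → ℝ, Tendsto (fun M : ℕ =>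
    G M (p + cpx ((1 / Real.sqrt M) • ξ)) *
      exp (-(M * (Φ (p + cpx ((1 / Real.sqrt M) • ξ)) + Qr r (p + cpx ((1 / Real.sqrt M) • ξ))))) /
        (((M : ℝ) ^ e : ℝ) * u M)) atTop (𝓝 A)
  ne : A ≠ 0

/-- The point with the summation variables `w` and the integration variables `a + i Y`. -/
noncomputable def pt {d c : ℕ} (Y : Fin c → ℝ) (w : Fin d → ℂ) (a : Fin c → ℝ) : Ix d c → ℂ :=
  Sum.elim w (fun j => a j + Y j * I)

/-- The box of the integration variables. -/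
def Bc (c : ℕ) (δ : ℝ) : Set (Fin c → ℝ) := Set.pi Set.univ (fun _ => Set.Ioc (-δ) δ)

/-- The lattice points in a box: `n i / M - o i`, with `|n i / M - o i| ≤ δ`. -/
noncomputable def latBox {d : ℕ} (M : ℕ) (o : Fin d → ℝ) (δ : ℝ) : Finset (Fin d → ℤ) :=
  Fintype.piFinset (fun i => Finset.Icc ⌈M * (o i - δ)⌉ ⌊M * (o i + δ)⌋)

/-- The lattice sum of integrals. -/
noncomputable def latSum {d c : ℕ} (M : ℕ) (o : Fin d → ℝ) (δ : ℝ) (Y : Fin c → ℝ)
    (G : (Ix d c → ℂ) → ℂ) : ℂ :=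
  ∑ n ∈ latBox M o δ, ∫ a in Bc c δ, G (pt Y (fun i => (((n i : ℝ) / M - o i : ℝ) : ℂ)) a)

end Pool.Agent.H63.CLK
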