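import Pool.Agent.H63.CLK.Tmpl
import Pool.Agent.H63.CLK.B_Defs
import Pool.Agent.H63.CLK.B_CX
import Pool.Agent.H63.CLK.B_VX
import Pool.Agent.H63.CLK.E_Defs

/-!
# The volume function and the potential of a template

The variables are `x (inl v) = τ v` (the number of turn backs at the twist region `v`, divided by `M`)
and `x (inr (v, k)) = σ v k` (the states of the corners, divided by `M`).
-/

set_option autoImplicit false

namespace Pool.Agent.H63.CLK

open Pool.Agent.H63.VC hiding ext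
open Pool.Agent.H63.VC3 Pool.Agent.H63.VC4 Pool.Agent.H63.VC7 Complex Filter Topology
open scoped BigOperators

/-- The index set of the variables `τ v` and `σ v k`. -/
abbrev Vr (c : ℕ) : Type := Fin c ⊕ (Fin c × Fin 4)

/-- The sizes of the corners: `n - x` at the top and at the bottom, `x` on the right and on the left. -/
def cz {R : Type*} [Sub R] (n x : R) : Fin 4 → R := ![n - x, x, n - x, x]

/-- Two consecutive corners of the twist region belong to the two outer faces (for a prime template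
these are the two twist regions at the edge where the diagram is cut open). -/
def IsEnd {c : ℕ} (F : Finset ℕ) (cor : Fin c → Fin 4 → ℕ) (v : Fin c) : Prop :=
  ∃ k : Fin 4, cor v k ∉ F ∧ cor v (k + 1) ∉ F

/-- The linear equations, over a ring. -/
structure IsLin {R : Type*} [CommRing R] {c : ℕ} (F : Finset ℕ) (cor : Fin c → Fin 4 → ℕ) (n : R)
    (x : Vr c → R) : Prop where
  vert : ∀ v, ∑ k, x (Sum.inr (v, k)) = n
  face : ∀ f ∈ F, ∑ v, ∑ k, (if cor v k = f then x (Sum.inr (v, k)) else 0) = n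
  out : ∀ v k, cor v k ∉ F → x (Sum.inr (v, k)) = 0
  endv : ∀ v k, IsEnd F cor v → cor v k ∈ F → x (Sum.inr (v, k)) = cz n (x (Sum.inl v)) k

/-- The polytope of the angles. -/
structure IsAng {c : ℕ} (F : Finset ℕ) (cor : Fin c → Fin 4 → ℕ) (x : Vr c → ℝ) : Prop where
  vert : ∀ v, ∑ k, x (Sum.inr (v, k)) = 1
  face : ∀ f ∈ F, ∑ v, ∑ k, (if cor v k = f then x (Sum.inr (v, k)) else 0) = 1
  out : ∀ v k, cor v k ∉ F → x (Sum.inr (v, k)) = 0
  nn : ∀ v k, 0 ≤ x (Sum.inr (v, k))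
  le : ∀ v k, x (Sum.inr (v, k)) ≤ cz 1 (x (Sum.inl v)) k

open Classical in
/-- The nondegenerate corners. -/
noncomputable def Nd {c : ℕ} (F : Finset ℕ) (cor : Fin c → Fin 4 → ℕ) : Finset (Fin c × Fin 4) :=
  Finset.univ.filter (fun p => cor p.1 p.2 ∈ F ∧ ¬ IsEnd F cor p.1)

/-- The interior of the polytope, with `1/2 < τ v < 1`. -/
structure IsInt {c : ℕ} (F : Finset ℕ) (cor : Fin c → Fin 4 → ℕ) (x : Vr c → ℝ) : Prop where
  ang : IsAng F cor x
  half : ∀ v, 1 / 2 < x (Sum.inl v)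
  lt1 : ∀ v, x (Sum.inl v) < 1
  pos : ∀ v k, cor v k ∈ F → ¬ IsEnd F cor v → 0 < x (Sum.inr (v, k))
  lt : ∀ v k, cor v k ∈ F → ¬ IsEnd F cor v → x (Sum.inr (v, k)) < cz 1 (x (Sum.inl v)) k

/-- The growth rate of the terms of the state sum. -/
noncomputable def Uf {c : ℕ} (x : Vr c → ℝ) : ℝ :=
  ∑ v, (sl (x (Sum.inl v)) + ∑ k, (Fr (cz 1 (x (Sum.inl v)) k) - Fr (x (Sum.inr (v, k))) -
    Fr (cz 1 (x (Sum.inl v)) k - x (Sum.inr (v, k)))))

/-- The volume function. -/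
noncomputable def volF {c : ℕ} (x : Vr c → ℝ) : ℝ :=
  ∑ v, ((if 1 / 2 ≤ x (Sum.inl v) then
      4 * (lob (Real.pi * x (Sum.inl v) - Real.pi / 2) - lob (Real.pi * x (Sum.inl v))) else 0) +
    ∑ k, 2 * (lob (Real.pi * x (Sum.inr (v, k))) +
      lob (Real.pi * (cz 1 (x (Sum.inl v)) k - x (Sum.inr (v, k))))))

/-- `x` is a strict maximum of the volume function in the interior of the polytope. -/
structure IsMaxA {c : ℕ} (F : Finset ℕ) (cor : Fin c → Fin 4 → ℕ) (x : Vr c → ℝ) : Prop where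
  int : IsInt F cor x
  max : ∀ y : Vr c → ℝ, IsAng F cor y → y ≠ x → volF y < volF x

/-- The part of the potential without the oscillating terms; `z j` is the variable of the channels of
the twist region `j`. -/
noncomputable def PotX {c : ℕ} (F : Finset ℕ) (cor : Fin c → Fin 4 → ℕ) (X : Vr c → ℂ)
    (v : Fin c → ℂ) : ℂ :=
  ∑ i, (2 * ff (X (Sum.inl i)) - ff (X (Sum.inl i) - 1 / 2 - v i) -
      ff (X (Sum.inl i) - 1 / 2 + v i)) +
    ∑ p ∈ Nd F cor, cpo (cz 1 (X (Sum.inl p.1)) p.2) (X (Sum.inr p))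

/-- The parametrization of the solutions of the linear equations. -/
noncomputable def par {c d : ℕ} (b : Fin d → Vr c → ℤ) (x : Vr c → ℝ) (w : Fin d → ℂ)
    (j : Vr c) : ℂ := (x j : ℂ) + ∑ i, (b i j : ℂ) * w i

/-- The potential in the coordinates `w`, `v`. -/
noncomputable def PhiT {c d : ℕ} (F : Finset ℕ) (cor : Fin c → Fin 4 → ℕ) (b : Fin d → Vr c → ℤ)
    (x : Vr c → ℝ) (z : Ix d c → ℂ) : ℂ :=
  PotX F cor (par b x (fun i => z (Sum.inl i))) (fun j => z (Sum.inr j))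

/-- The integrand in the coordinates `w`, `v`. -/
noncomputable def GX {c d : ℕ} (F : Finset ℕ) (cor : Fin c → Fin 4 → ℕ) (b : Fin d → Vr c → ℤ)
    (x : Vr c → ℝ) (a : Fin c → ℤ) (M : ℕ) (z : Ix d c → ℂ) : ℂ :=
  (∏ i, VX ((a i : ℝ) / 2) M
      (par b x (fun l => z (Sum.inl l)) (Sum.inl i) - 1 / 2 + (1 - x (Sum.inl i)) / M)
      (z (Sum.inr i))) *
    ∏ p ∈ Nd F cor, CX M (-((cz 1 (x (Sum.inl p.1)) p.2 : ℝ) : ℂ)) (-((x (Sum.inr p) : ℝ) : ℂ))
      (cz 1 (par b x (fun l => z (Sum.inl l)) (Sum.inl p.1)) p.2)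
      (par b x (fun l => z (Sum.inl l)) (Sum.inr p))

/-- The integral solutions: `x0` is a solution with the right hand side `1`, `b` is a basis of the
solutions of the homogeneous equations, over the integers and over the reals. -/
structure IsBas {c d : ℕ} (F : Finset ℕ) (cor : Fin c → Fin 4 → ℕ) (b : Fin d → Vr c → ℤ)
    (x0 : Vr c → ℤ) : Prop where
  lin0 : IsLin F cor 1 x0
  linb : ∀ i, IsLin F cor 0 (b i)
  span : ∀ x : Vr c → ℤ, IsLin F cor 0 x → ∃ m : Fin d → ℤ, x = fun j => ∑ i, m i * b i j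
  spanR : ∀ x : Vr c → ℝ, IsLin F cor 0 x → ∃ w : Fin d → ℝ, x = fun j => ∑ i, w i * b i j
  inj : ∀ w : Fin d → ℝ, (∀ j, ∑ i, w i * (b i j : ℝ) = 0) → w = 0

/-- The point of the polytope given by a state. -/
noncomputable def Xp {c : ℕ} (x : Vr c → ℝ) (N : ℕ) (t : Fin c → ℕ) (s : Fin c → Fin 4 → ℕ) :
    Vr c → ℝ :=
  Sum.elim (fun v => ((t v : ℝ) + x (Sum.inl v)) / ((N + 1 : ℕ) : ℝ))
    (fun p => ((s p.1 p.2 : ℝ) + x (Sum.inr p)) / ((N + 1 : ℕ) : ℝ))

/-- The integral point with the coordinates `m`. -/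
def Xm {c d : ℕ} (b : Fin d → Vr c → ℤ) (x0 : Vr c → ℤ) (N : ℕ) (m : Fin d → ℤ) (j : Vr c) : ℤ :=
  N * x0 j + ∑ i, m i * b i j

/-- The numbers of turn backs of the integral point with the coordinates `m`. -/
def tm {c d : ℕ} (b : Fin d → Vr c → ℤ) (x0 : Vr c → ℤ) (N : ℕ) (m : Fin d → ℤ) (v : Fin c) : ℕ :=
  (Xm b x0 N m (Sum.inl v)).toNat

/-- The states of the corners of the integral point with the coordinates `m`. -/
def sm {c d : ℕ} (b : Fin d → Vr c → ℤ) (x0 : Vr c → ℤ) (N : ℕ) (m : Fin d → ℤ) (v : Fin c)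
    (k : Fin 4) : ℕ :=
  (Xm b x0 N m (Sum.inr (v, k))).toNat

/-- The offsets of the lattice. -/
noncomputable def oM {d : ℕ} (o : Fin d → ℝ) (N : ℕ) (i : Fin d) : ℝ :=
  o i * (1 - 1 / ((N + 1 : ℕ) : ℝ))

/-- The product of the corner factors. -/
noncomputable def corP {c : ℕ} (N : ℕ) (t : Fin c → ℕ) (s : Fin c → Fin 4 → ℕ) : ℂ :=
  ∏ v, ∏ k, qbin (qz N) (csz N (t v) k) (s v k)

open Classical in
/-- The sum over all states. -/
noncomputable def stSum {c : ℕ} (F : Finset ℕ) (cor : Fin c → Fin 4 → ℕ) (N : ℕ)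
    (f : (Fin c → ℕ) → (Fin c → Fin 4 → ℕ) → ℂ) : ℂ :=
  ∑ t ∈ Fintype.piFinset (fun _ : Fin c => Finset.range (N + 1)),
    ∑ s ∈ Fintype.piFinset (fun v : Fin c => Fintype.piFinset
      (fun k : Fin 4 => Finset.range (csz N (t v) k + 1))), if IsState F cor N s then f t s else 0

end Pool.Agent.H63.CLK
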