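import Pool.Agent.H63.CLK.C_Defs

/-!
# The volume function and the growth rate: continuity

`Fr x = -lob (π x) / π`; `lob` is continuous, odd and `π`-periodic (VC/Lob..., VC3); the modulus of
continuity: `|Fr x - Fr y| ≤ C |x - y| (1 + log (1 / |x - y|))`, since `Fr` is an integral of
`log |2 sin (π u)|` (which is bounded below by `log` of the distance to the integers, up to a constant).
`sl x = 2 Fr (max x (1/2)) - 2 Fr (max x (1/2) - 1/2)`.
-/

set_option autoImplicit false

namespace Pool.Agent.H63.CLK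

open Pool.Agent.H63.VC hiding ext
open Pool.Agent.H63.VC3 Pool.Agent.H63.VC4 Pool.Agent.H63.VC7 Complex Filter Topology
open scoped BigOperators

section C_FrAux

open Real

private lemma C_Fr_log2 : 1 / 2 ≤ Real.log 2 := by
  have := Real.log_two_gt_d9
  linarith

private lemma C_Fr_logM {M : ℕ} (hM : 2 ≤ M) : Real.log 2 ≤ Real.log M :=
  Real.log_le_log (by norm_num) (by exact_mod_cast hM)

private lemma C_Fr_sin_pos {x : ℝ} (h0 : 0 < x) (h1 : x < 1) : 0 < Real.sin (π * x) :=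
  Real.sin_pos_of_pos_of_lt_pi (by positivity) (by
    calc π * x < π * 1 := mul_lt_mul_of_pos_left h1 Real.pi_pos
      _ = π := mul_one π)

private lemma C_Fr_refl (x : ℝ) : Fr (1 - x) = -Fr x := by
  rw [← Fr_neg, ← Fr_add_one (-x)]
  congr 1
  ring

private lemma C_Fr_low (x : ℝ) (h0 : 0 ≤ x) (h1 : x ≤ 1 / 2) :
    x * Real.log 4 + x * Real.log x - x ≤ Fr x := by
  have hd : ∀ y : ℝ, 0 < y → y < 1 →
      HasDerivAt (fun y : ℝ => Fr y - (y * Real.log 4 + y * Real.log y - y))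
        (Real.log (2 * Real.sin (π * y)) - (Real.log 4 + Real.log y)) y := by
    intro y hy0 hy1
    have h2 : HasDerivAt (fun y : ℝ => y * Real.log 4 + y * Real.log y - y)
        (Real.log 4 + Real.log y) y := by
      have h3 := (((hasDerivAt_id y).mul_const (Real.log 4)).add
        (Real.hasDerivAt_mul_log hy0.ne')).sub (hasDerivAt_id y)
      refine (h3.congr_deriv (by ring)).congr_of_eventuallyEq ?_
      filter_upwards with z
      rfl
    exact (Fr_hasDerivAt y hy0 hy1).sub h2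
  have hm : MonotoneOn (fun y : ℝ => Fr y - (y * Real.log 4 + y * Real.log y - y))
      (Set.Icc 0 (1 / 2)) := by
    apply monotoneOn_of_deriv_nonneg (convex_Icc _ _)
    · apply Continuous.continuousOn
      exact Fr_continuous.sub (((continuous_id.mul continuous_const).add
        Real.continuous_mul_log).sub continuous_id)
    · intro y hy
      rw [interior_Icc] at hy
      exact (hd y hy.1 (by linarith [hy.2])).differentiableAt.differentiableWithinAt
    · intro y hy
      rw [interior_Icc] at hy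
      rw [(hd y hy.1 (by linarith [hy.2])).deriv, ← Real.log_mul (by norm_num) hy.1.ne']
      have h3 := Real.mul_le_sin (x := π * y) (by have := Real.pi_pos; nlinarith [hy.1])
        (by have := Real.pi_pos; nlinarith [hy.2])
      have h4 : 2 / π * (π * y) = 2 * y := by
        have := Real.pi_ne_zero
        field_simp
      rw [h4] at h3
      have h5 : Real.log (4 * y) ≤ Real.log (2 * Real.sin (π * y)) :=
        Real.log_le_log (by linarith [hy.1]) (by linarith)
      linarith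
  have h2 := hm (a := 0) ⟨le_rfl, by norm_num⟩ (b := x) ⟨h0, h1⟩ h0
  simp only [zero_mul, Fr_zero] at h2
  linarith

private lemma C_Fr_small {M : ℕ} (hM : 2 ≤ M) {l : ℝ} (h0 : 0 ≤ l) (h1 : l ≤ 1 / M) :
    -(3 * Real.log M) / M ≤ Fr l := by
  have hM0 : (0 : ℝ) < M := by exact_mod_cast (by omega : 0 < M)
  have hM2 : (2 : ℝ) ≤ M := by exact_mod_cast hM
  have hL := C_Fr_logM hM
  have hL2 := C_Fr_log2
  rcases h0.eq_or_lt with h | h
  · rw [← h, Fr_zero]
    exact div_nonpos_of_nonpos_of_nonneg (by linarith) hM0.le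
  have hl12 : l ≤ 1 / 2 := h1.trans (one_div_le_one_div_of_le (by norm_num) hM2)
  have h2 := C_Fr_low l h0 hl12
  have h4 : 1 ≤ Real.log 4 := by
    have : Real.log 4 = 2 * Real.log 2 := by
      rw [show (4 : ℝ) = 2 ^ 2 by norm_num, Real.log_pow]
      norm_num
    linarith
  have h5 : 1 - (l * M)⁻¹ ≤ Real.log (l * M) := Real.one_sub_inv_le_log_of_pos (by positivity)
  have h6 : Real.log (l * M) = Real.log l + Real.log M := Real.log_mul h.ne' hM0.ne'
  have h7 : l - 1 / M ≤ l * (Real.log l + Real.log M) := by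
    rw [h6] at h5
    have := mul_le_mul_of_nonneg_left h5 h0
    refine le_trans (le_of_eq ?_) this
    field_simp
  have h8 : l * Real.log M ≤ 1 / M * Real.log M :=
    mul_le_mul_of_nonneg_right h1 (by linarith)
  have h9 : l ≤ l * Real.log 4 := by nlinarith
  have h10 : 1 / (M : ℝ) ≤ 1 / M * (2 * Real.log M) := by
    apply le_mul_of_one_le_right (by positivity)
    linarith
  have h11 : -(3 * Real.log M) / M = -(1 / M * (2 * Real.log M)) - 1 / M * Real.log M := by
    ring
  rw [h11]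
  linarith

private lemma C_Fr_conv {a b : ℝ} (h0 : 0 ≤ a) (hab : a ≤ b) (hb : b ≤ 1 / 2) :
    Fr (b - a) ≤ Fr b - Fr a := by
  have hd : ∀ s : ℝ, 0 < s → s < a →
      HasDerivAt (fun s : ℝ => Fr (s + (b - a)) - Fr s)
        (Real.log (2 * Real.sin (π * (s + (b - a)))) - Real.log (2 * Real.sin (π * s))) s := by
    intro s hs0 hs1
    have h2 := Fr_hasDerivAt (s + (b - a)) (by linarith) (by linarith)
    have h3 : HasDerivAt (fun s : ℝ => Fr (s + (b - a)))
        (Real.log (2 * Real.sin (π * (s + (b - a))))) s := by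
      have h4 : HasDerivAt (fun s : ℝ => s + (b - a)) 1 s := (hasDerivAt_id s).add_const _
      have := h2.comp s h4
      rwa [mul_one] at this
    exact h3.sub (Fr_hasDerivAt s hs0 (by linarith))
  have hm : MonotoneOn (fun s : ℝ => Fr (s + (b - a)) - Fr s) (Set.Icc 0 a) := by
    apply monotoneOn_of_deriv_nonneg (convex_Icc _ _)
    · apply Continuous.continuousOn
      exact (Fr_continuous.comp (continuous_id.add continuous_const)).sub Fr_continuous
    · intro s hs
      rw [interior_Icc] at hs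
      exact (hd s hs.1 hs.2).differentiableAt.differentiableWithinAt
    · intro s hs
      rw [interior_Icc] at hs
      rw [(hd s hs.1 hs.2).deriv]
      have hp := Real.pi_pos
      have h3 : Real.sin (π * s) ≤ Real.sin (π * (s + (b - a))) := by
        apply Real.sin_le_sin_of_le_of_le_pi_div_two
        · nlinarith [hs.1]
        · nlinarith [hs.2]
        · nlinarith [hs.2]
      have h4 := C_Fr_sin_pos hs.1 (by linarith [hs.2] : s < 1)
      have := Real.log_le_log (by positivity) (mul_le_mul_of_nonneg_left h3 two_pos.le)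
      linarith
  have h2 := hm (a := 0) ⟨le_rfl, h0⟩ (b := a) ⟨h0, le_rfl⟩ h0
  simp only [zero_add, Fr_zero, sub_zero] at h2
  have e : a + (b - a) = b := by ring
  rw [e] at h2
  exact h2

private lemma C_Fr_piece {M : ℕ} (hM : 2 ≤ M) {a b : ℝ} (h0 : 0 ≤ a) (hab : a ≤ b)
    (hb : b ≤ 1 / 2) (hl : b - a ≤ 1 / M) :
    -(3 * Real.log M) / M ≤ Fr b - Fr a ∧ Fr b - Fr a ≤ Real.log M / M := by
  have hM0 : (0 : ℝ) < M := by exact_mod_cast (by omega : 0 < M)
  refine ⟨(C_Fr_small hM (by linarith) hl).trans (C_Fr_conv h0 hab hb), ?_⟩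
  have h2 := Convex.image_sub_le_mul_sub_of_deriv_le (D := Set.Icc a b)
    (convex_Icc _ _) (f := Fr) Fr_continuous.continuousOn
    (fun x hx => by
      rw [interior_Icc] at hx
      exact (Fr_hasDerivAt x (by linarith [hx.1])
        (by linarith [hx.2])).differentiableAt.differentiableWithinAt)
    (C := Real.log M)
    (fun x hx => by
      rw [interior_Icc] at hx
      rw [(Fr_hasDerivAt x (by linarith [hx.1]) (by linarith [hx.2])).deriv]
      have h3 := C_Fr_sin_pos (x := x) (by linarith [hx.1]) (by linarith [hx.2])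
      have h4 := Real.sin_le_one (π * x)
      have hM2 : (2 : ℝ) ≤ M := by exact_mod_cast hM
      apply Real.log_le_log (by positivity)
      linarith)
    a ⟨le_rfl, hab⟩ b ⟨hab, le_rfl⟩ hab
  have h3 : Real.log M * (b - a) ≤ Real.log M * (1 / M) :=
    mul_le_mul_of_nonneg_left hl (by linarith [C_Fr_logM hM, C_Fr_log2])
  have h4 : Real.log M * (1 / M) = Real.log M / M := by ring
  linarith

private lemma C_Fr_piece' {M : ℕ} (hM : 2 ≤ M) {a b : ℝ} (h0 : 1 / 2 ≤ a) (hab : a ≤ b)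
    (hb : b ≤ 1) (hl : b - a ≤ 1 / M) :
    -(3 * Real.log M) / M ≤ Fr b - Fr a ∧ Fr b - Fr a ≤ Real.log M / M := by
  have h := C_Fr_piece hM (a := 1 - b) (b := 1 - a) (by linarith) (by linarith) (by linarith)
    (by linarith)
  rw [C_Fr_refl, C_Fr_refl] at h
  constructor
  · linarith [h.1]
  · linarith [h.2]

private lemma C_Fr_step {M : ℕ} (hM : 2 ≤ M) (x δ : ℝ) (hδ0 : 0 ≤ δ) (hδ : δ ≤ 1 / M) :
    |M * Fr (x + δ) - M * Fr x| ≤ 6 * Real.log M := by
  have hM0 : (0 : ℝ) < M := by exact_mod_cast (by omega : 0 < M)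
  have hM2 : (2 : ℝ) ≤ M := by exact_mod_cast hM
  have hL := C_Fr_logM hM
  have hL2 := C_Fr_log2
  have hh : 1 / (M : ℝ) ≤ 1 / 2 := one_div_le_one_div_of_le (by norm_num) hM2
  have hh0 : 0 < 1 / (M : ℝ) := by positivity
  have hper : Function.Periodic (fun x : ℝ => M * Fr (x + δ) - M * Fr x) 1 := by
    intro x
    have e : x + 1 + δ = x + δ + 1 := by ring
    simp only
    rw [e, Fr_add_one, Fr_add_one]
  obtain ⟨y, hy, hxy⟩ := hper.exists_mem_Ico₀ one_pos x
  rw [show M * Fr (x + δ) - M * Fr x = M * Fr (y + δ) - M * Fr y from hxy]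
  have key : ∀ d : ℝ, -(3 * Real.log M) / M ≤ d ∧ d ≤ Real.log M / M →
      -(3 * Real.log M) ≤ M * d ∧ M * d ≤ Real.log M := by
    rintro d ⟨h1, h2⟩
    rw [div_le_iff₀ hM0] at h1
    rw [le_div_iff₀ hM0] at h2
    constructor <;> linarith
  rw [← mul_sub, abs_le]
  rcases le_or_gt (1 / 2) y with h | h
  · rcases le_or_gt (y + δ) 1 with h' | h'
    · have h1 := key _ (C_Fr_piece' hM h (by linarith) h' (by linarith))
      constructor <;> linarith [h1.1, h1.2]
    · have h1 := key _ (C_Fr_piece' hM h hy.2.le le_rfl (by linarith))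
      have h2 := key _ (C_Fr_piece hM (a := 0) (b := y + δ - 1) le_rfl (by linarith)
        (by linarith [hy.2]) (by linarith [hy.2]))
      have e1 : Fr (y + δ - 1) = Fr (y + δ) := by
        rw [← Fr_add_one (y + δ - 1)]
        congr 1
        ring
      have e2 : Fr 1 = 0 := by
        have := Fr_add_one 0
        rw [zero_add, Fr_zero] at this
        exact this
      rw [e1, Fr_zero, sub_zero] at h2
      rw [e2, zero_sub] at h1
      constructor <;> nlinarith [h1.1, h1.2, h2.1, h2.2]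
  · rcases le_or_gt (y + δ) (1 / 2) with h' | h'
    · have h1 := key _ (C_Fr_piece hM hy.1 (by linarith) h' (by linarith))
      constructor <;> linarith [h1.1, h1.2]
    · have h1 := key _ (C_Fr_piece hM hy.1 h.le le_rfl (by linarith))
      have h2 := key _ (C_Fr_piece' hM (a := 1 / 2) (b := y + δ) le_rfl h'.le
        (by linarith) (by linarith))
      rw [Fr_half] at h1 h2
      constructor <;> nlinarith [h1.1, h1.2, h2.1, h2.2]

private lemma C_Fr_two (y : ℝ) (k : Fin 4) : cz 1 y k = 1 - y ∨ cz 1 y k = y := by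
  fin_cases k <;> simp [cz]

private lemma C_Fr_czdiff (y z : ℝ) (k : Fin 4) : |cz 1 y k - cz 1 z k| = |y - z| := by
  fin_cases k
  · simp [cz, abs_sub_comm]
  · simp [cz]
  · simp [cz, abs_sub_comm]
  · simp [cz]

private lemma C_Fr_czcont (k : Fin 4) : Continuous (fun y : ℝ => cz 1 y k) := by
  have h1 : Continuous fun y : ℝ => 1 - y := by fun_prop
  have h2 : Continuous fun y : ℝ => y := by fun_prop
  fin_cases k
  · exact h1
  · exact h2
  · exact h1
  · exact h2

private lemma C_Fr_lob (u : ℝ) : 2 * Real.pi * Fr u = -2 * lob (Real.pi * u) := by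
  unfold Fr
  have := Real.pi_ne_zero
  field_simp

end C_FrAux

variable {c : ℕ}

theorem volF_eq (x : Vr c → ℝ) : volF x = 2 * Real.pi * Uf x := by
  unfold volF Uf
  rw [Finset.mul_sum]
  refine Finset.sum_congr rfl fun v _ => ?_
  rw [mul_add, Finset.mul_sum]
  have h1 : (∑ k, 2 * (lob (Real.pi * x (Sum.inr (v, k))) +
      lob (Real.pi * (cz 1 (x (Sum.inl v)) k - x (Sum.inr (v, k)))))) =
      ∑ k, 2 * Real.pi * (Fr (cz 1 (x (Sum.inl v)) k) - Fr (x (Sum.inr (v, k))) -
        Fr (cz 1 (x (Sum.inl v)) k - x (Sum.inr (v, k)))) := by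
    have h2 : ∀ k, 2 * Real.pi * (Fr (cz 1 (x (Sum.inl v)) k) - Fr (x (Sum.inr (v, k))) -
        Fr (cz 1 (x (Sum.inl v)) k - x (Sum.inr (v, k)))) =
        2 * Real.pi * Fr (cz 1 (x (Sum.inl v)) k) + 2 * (lob (Real.pi * x (Sum.inr (v, k))) +
      lob (Real.pi * (cz 1 (x (Sum.inl v)) k - x (Sum.inr (v, k))))) := by
      intro k
      rw [mul_sub, mul_sub, C_Fr_lob (x (Sum.inr (v, k))),
        C_Fr_lob (cz 1 (x (Sum.inl v)) k - x (Sum.inr (v, k)))]
      ring
    simp_rw [h2]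
    rw [Finset.sum_add_distrib]
    have h3 : ∑ k, 2 * Real.pi * Fr (cz 1 (x (Sum.inl v)) k) = 0 := by
      rw [Fin.sum_univ_four]
      simp only [cz, Matrix.cons_val]
      rw [C_Fr_refl]
      ring
    rw [h3, zero_add]
  rw [h1]
  congr 1
  unfold sl
  rcases lt_trichotomy (x (Sum.inl v)) (1 / 2) with h | h | h
  · rw [if_neg (not_le.2 h), if_pos h.le, mul_zero]
  · rw [h, if_pos le_rfl, if_pos le_rfl]
    have h4 : lob (Real.pi * (1 / 2) - Real.pi / 2) = 0 := by
      have : Real.pi * (1 / 2) - Real.pi / 2 = 0 := by ring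
      rw [this, volA_lob_zero]
    have h5 : lob (Real.pi * (1 / 2)) = 0 := by
      have h6 := C_Fr_lob (1 / 2)
      rw [Fr_half] at h6
      linarith
    rw [h4, h5]
    ring
  · rw [if_pos h.le, if_neg (not_le.2 h)]
    have h6 := C_Fr_lob (x (Sum.inl v))
    have h7 := C_Fr_lob (x (Sum.inl v) - 1 / 2)
    have h8 : Real.pi * (x (Sum.inl v) - 1 / 2) = Real.pi * x (Sum.inl v) - Real.pi / 2 := by ring
    rw [h8] at h7
    linarith

theorem sl_eq_max (x : ℝ) : sl x = 2 * Fr (max x (1 / 2)) - 2 * Fr (max x (1 / 2) - 1 / 2) := by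
  unfold sl
  split_ifs with h
  · rw [max_eq_right h, Fr_half, sub_self, Fr_zero]
    ring
  · rw [max_eq_left (not_le.1 h).le]

theorem sl_continuous : Continuous sl := by
  have h : sl = fun x => 2 * Fr (max x (1 / 2)) - 2 * Fr (max x (1 / 2) - 1 / 2) :=
    funext sl_eq_max
  rw [h]
  have h1 : Continuous fun x : ℝ => max x (1 / 2) := continuous_id.max continuous_const
  exact (continuous_const.mul (Fr_continuous.comp h1)).sub
    (continuous_const.mul (Fr_continuous.comp (h1.sub continuous_const)))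

theorem Uf_continuous : Continuous (Uf : (Vr c → ℝ) → ℝ) := by
  unfold Uf
  refine continuous_finset_sum _ fun v _ => ?_
  refine (sl_continuous.comp (continuous_apply _)).add ?_
  refine continuous_finset_sum _ fun k _ => ?_
  have h1 : Continuous fun x : Vr c → ℝ => cz 1 (x (Sum.inl v)) k :=
    (C_Fr_czcont k).comp (continuous_apply _)
  have h2 : Continuous fun x : Vr c → ℝ => x (Sum.inr (v, k)) := continuous_apply _
  exact ((Fr_continuous.comp h1).sub (Fr_continuous.comp h2)).sub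
    (Fr_continuous.comp (h1.sub h2))

private lemma C_Fr_mod' {M : ℕ} (hM : 2 ≤ M) (x y : ℝ) (hxy : x ≤ y) (h : y - x ≤ 2 / M) :
    M * |Fr x - Fr y| ≤ 12 * Real.log M := by
  have h0 : 0 ≤ (y - x) / 2 := by linarith
  have h1 : (y - x) / 2 ≤ 1 / M := by
    have : (2 : ℝ) / M = 2 * (1 / M) := by ring
    linarith
  have h2 := C_Fr_step hM x ((y - x) / 2) h0 h1
  have h3 := C_Fr_step hM (x + (y - x) / 2) ((y - x) / 2) h0 h1
  have e : x + (y - x) / 2 + (y - x) / 2 = y := by ring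
  rw [e] at h3
  have hM0 : (0 : ℝ) ≤ M := Nat.cast_nonneg M
  have h4 : (M : ℝ) * |Fr x - Fr y| = |M * Fr y - M * Fr x| := by
    rw [← mul_sub, abs_mul, abs_of_nonneg hM0, abs_sub_comm]
  rw [h4]
  have h5 : M * Fr y - M * Fr x = (M * Fr y - M * Fr (x + (y - x) / 2)) +
      (M * Fr (x + (y - x) / 2) - M * Fr x) := by ring
  rw [h5]
  refine (abs_add_le _ _).trans ?_
  linarith

theorem Fr_mod : ∃ C : ℝ, 0 < C ∧ ∀ (M : ℕ) (x y : ℝ), 1 ≤ M → |x - y| ≤ 2 / M →
    M * |Fr x - Fr y| ≤ C * (1 + Real.log M) := by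
  have h56 : 0 ≤ Fr (5 / 6) := by
    have h1 := Fr_le 0
    rwa [Fr_zero] at h1
  refine ⟨12 + 2 * Fr (5 / 6), by linarith, fun M x y hM h => ?_⟩
  rcases Nat.lt_or_ge M 2 with h1 | h1
  · have hM1 : M = 1 := by omega
    subst hM1
    simp only [Nat.cast_one, one_mul, Real.log_one, add_zero, mul_one]
    have h2 := Fr_le x
    have h3 := Fr_ge x
    have h4 := Fr_le y
    have h5 := Fr_ge y
    rw [abs_le]
    constructor <;> linarith
  · have hL : 0 ≤ Real.log M := by
      have := C_Fr_logM h1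
      have := C_Fr_log2
      linarith
    have h2 : M * |Fr x - Fr y| ≤ 12 * Real.log M := by
      rcases le_total x y with h3 | h3
      · refine C_Fr_mod' h1 x y h3 ?_
        rw [abs_sub_comm, abs_of_nonneg (by linarith)] at h
        exact h
      · rw [abs_sub_comm]
        refine C_Fr_mod' h1 y x h3 ?_
        rw [abs_of_nonneg (by linarith)] at h
        exact h
    nlinarith

theorem sl_mod : ∃ C : ℝ, 0 < C ∧ ∀ (M : ℕ) (x y : ℝ), 1 ≤ M → |x - y| ≤ 2 / M →
    M * |sl x - sl y| ≤ C * (1 + Real.log M) := by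
  obtain ⟨C, hC, h⟩ := Fr_mod
  refine ⟨4 * C, by linarith, fun M x y hM hxy => ?_⟩
  have h0 : |max x (1 / 2) - max y (1 / 2)| ≤ 2 / M :=
    (abs_max_sub_max_le_abs x y (1 / 2)).trans hxy
  have h1 := h M _ _ hM h0
  have h2 := h M (max x (1 / 2) - 1 / 2) (max y (1 / 2) - 1 / 2) hM (by
    rw [sub_sub_sub_cancel_right]
    exact h0)
  rw [sl_eq_max, sl_eq_max]
  have hM0 : (0 : ℝ) ≤ M := Nat.cast_nonneg M
  have h3 : |2 * Fr (max x (1 / 2)) - 2 * Fr (max x (1 / 2) - 1 / 2) -
      (2 * Fr (max y (1 / 2)) - 2 * Fr (max y (1 / 2) - 1 / 2))| ≤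
      2 * |Fr (max x (1 / 2)) - Fr (max y (1 / 2))| +
      2 * |Fr (max x (1 / 2) - 1 / 2) - Fr (max y (1 / 2) - 1 / 2)| := by
    have e : 2 * Fr (max x (1 / 2)) - 2 * Fr (max x (1 / 2) - 1 / 2) -
      (2 * Fr (max y (1 / 2)) - 2 * Fr (max y (1 / 2) - 1 / 2)) =
      2 * (Fr (max x (1 / 2)) - Fr (max y (1 / 2))) -
      2 * (Fr (max x (1 / 2) - 1 / 2) - Fr (max y (1 / 2) - 1 / 2)) := by ring
    rw [e]
    refine (abs_sub _ _).trans ?_
    rw [abs_mul, abs_mul, abs_two]
  have h4 := mul_le_mul_of_nonneg_left h3 hM0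
  linarith

theorem Uf_mod (c : ℕ) : ∃ C : ℝ, 0 < C ∧ ∀ (M : ℕ) (x y : Vr c → ℝ), 1 ≤ M →
    (∀ j, |x j - y j| ≤ 1 / M) → M * |Uf x - Uf y| ≤ C * (1 + Real.log M) := by
  obtain ⟨C₁, hC₁, hF⟩ := Fr_mod
  obtain ⟨C₂, hC₂, hS⟩ := sl_mod
  refine ⟨c * (C₂ + 12 * C₁) + 1, by positivity, fun M x y hM hxy => ?_⟩
  have hM0 : (0 : ℝ) < M := by exact_mod_cast hM
  have hM1 : (1 : ℝ) ≤ M := by exact_mod_cast hM
  have hL : 0 ≤ Real.log M := Real.log_nonneg hM1
  have h12 : (1 : ℝ) / M ≤ 2 / M := by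
    apply div_le_div_of_nonneg_right _ hM0.le
    norm_num
  have hd : ∀ v, M * |(sl (x (Sum.inl v)) + ∑ k, (Fr (cz 1 (x (Sum.inl v)) k) -
      Fr (x (Sum.inr (v, k))) - Fr (cz 1 (x (Sum.inl v)) k - x (Sum.inr (v, k))))) -
      (sl (y (Sum.inl v)) + ∑ k, (Fr (cz 1 (y (Sum.inl v)) k) -
      Fr (y (Sum.inr (v, k))) - Fr (cz 1 (y (Sum.inl v)) k - y (Sum.inr (v, k)))))| ≤
      (C₂ + 12 * C₁) * (1 + Real.log M) := by
    intro v
    have h1 := hS M (x (Sum.inl v)) (y (Sum.inl v)) hM ((hxy _).trans h12)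
    have h2 : ∀ k, M * |(Fr (cz 1 (x (Sum.inl v)) k) -
      Fr (x (Sum.inr (v, k))) - Fr (cz 1 (x (Sum.inl v)) k - x (Sum.inr (v, k)))) -
      (Fr (cz 1 (y (Sum.inl v)) k) -
      Fr (y (Sum.inr (v, k))) - Fr (cz 1 (y (Sum.inl v)) k - y (Sum.inr (v, k))))| ≤
      3 * C₁ * (1 + Real.log M) := by
      intro k
      have e1 : |cz 1 (x (Sum.inl v)) k - cz 1 (y (Sum.inl v)) k| ≤ 1 / M := by
        rw [C_Fr_czdiff]
        exact hxy _
      have e2 := hxy (Sum.inr (v, k))
      have g1 := hF M _ _ hM (e1.trans h12)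
      have g2 := hF M _ _ hM (e2.trans h12)
      have g3 := hF M (cz 1 (x (Sum.inl v)) k - x (Sum.inr (v, k)))
        (cz 1 (y (Sum.inl v)) k - y (Sum.inr (v, k))) hM (by
          have e3 : (cz 1 (x (Sum.inl v)) k - x (Sum.inr (v, k))) -
            (cz 1 (y (Sum.inl v)) k - y (Sum.inr (v, k))) =
            (cz 1 (x (Sum.inl v)) k - cz 1 (y (Sum.inl v)) k) -
              (x (Sum.inr (v, k)) - y (Sum.inr (v, k))) := by ring
          rw [e3]
          refine (abs_sub _ _).trans ?_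
          have : (2 : ℝ) / M = 1 / M + 1 / M := by ring
          linarith)
      have h3 : |(Fr (cz 1 (x (Sum.inl v)) k) -
        Fr (x (Sum.inr (v, k))) - Fr (cz 1 (x (Sum.inl v)) k - x (Sum.inr (v, k)))) -
        (Fr (cz 1 (y (Sum.inl v)) k) -
        Fr (y (Sum.inr (v, k))) - Fr (cz 1 (y (Sum.inl v)) k - y (Sum.inr (v, k))))| ≤
        |Fr (cz 1 (x (Sum.inl v)) k) - Fr (cz 1 (y (Sum.inl v)) k)| +
        |Fr (x (Sum.inr (v, k))) - Fr (y (Sum.inr (v, k)))| +
        |Fr (cz 1 (x (Sum.inl v)) k - x (Sum.inr (v, k))) -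
          Fr (cz 1 (y (Sum.inl v)) k - y (Sum.inr (v, k)))| := by
        have e4 : (Fr (cz 1 (x (Sum.inl v)) k) -
          Fr (x (Sum.inr (v, k))) - Fr (cz 1 (x (Sum.inl v)) k - x (Sum.inr (v, k)))) -
          (Fr (cz 1 (y (Sum.inl v)) k) -
          Fr (y (Sum.inr (v, k))) - Fr (cz 1 (y (Sum.inl v)) k - y (Sum.inr (v, k)))) =
          ((Fr (cz 1 (x (Sum.inl v)) k) - Fr (cz 1 (y (Sum.inl v)) k)) -
          (Fr (x (Sum.inr (v, k))) - Fr (y (Sum.inr (v, k))))) -
          (Fr (cz 1 (x (Sum.inl v)) k - x (Sum.inr (v, k))) -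
            Fr (cz 1 (y (Sum.inl v)) k - y (Sum.inr (v, k)))) := by ring
        rw [e4]
        refine (abs_sub _ _).trans ?_
        gcongr
        exact abs_sub _ _
      have h4 := mul_le_mul_of_nonneg_left h3 hM0.le
      linarith
    have h3 : |(sl (x (Sum.inl v)) + ∑ k, (Fr (cz 1 (x (Sum.inl v)) k) -
      Fr (x (Sum.inr (v, k))) - Fr (cz 1 (x (Sum.inl v)) k - x (Sum.inr (v, k))))) -
      (sl (y (Sum.inl v)) + ∑ k, (Fr (cz 1 (y (Sum.inl v)) k) -
      Fr (y (Sum.inr (v, k))) - Fr (cz 1 (y (Sum.inl v)) k - y (Sum.inr (v, k)))))| ≤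
      |sl (x (Sum.inl v)) - sl (y (Sum.inl v))| +
      ∑ k, |(Fr (cz 1 (x (Sum.inl v)) k) -
      Fr (x (Sum.inr (v, k))) - Fr (cz 1 (x (Sum.inl v)) k - x (Sum.inr (v, k)))) -
      (Fr (cz 1 (y (Sum.inl v)) k) -
      Fr (y (Sum.inr (v, k))) - Fr (cz 1 (y (Sum.inl v)) k - y (Sum.inr (v, k))))| := by
      rw [add_sub_add_comm, ← Finset.sum_sub_distrib]
      refine (abs_add_le _ _).trans ?_
      gcongr
      exact Finset.abs_sum_le_sum_abs _ _
    have h4 := mul_le_mul_of_nonneg_left h3 hM0.le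
    rw [mul_add, Finset.mul_sum] at h4
    have h5 := Finset.sum_le_sum (s := (Finset.univ : Finset (Fin 4))) fun k _ => h2 k
    rw [Finset.sum_const, Finset.card_univ, Fintype.card_fin, nsmul_eq_mul] at h5
    push_cast at h5
    linarith
  unfold Uf
  rw [← Finset.sum_sub_distrib]
  have h6 := mul_le_mul_of_nonneg_left (Finset.abs_sum_le_sum_abs (fun v =>
    (sl (x (Sum.inl v)) + ∑ k, (Fr (cz 1 (x (Sum.inl v)) k) -
      Fr (x (Sum.inr (v, k))) - Fr (cz 1 (x (Sum.inl v)) k - x (Sum.inr (v, k))))) -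
      (sl (y (Sum.inl v)) + ∑ k, (Fr (cz 1 (y (Sum.inl v)) k) -
      Fr (y (Sum.inr (v, k))) - Fr (cz 1 (y (Sum.inl v)) k - y (Sum.inr (v, k))))))
    (Finset.univ : Finset (Fin c))) hM0.le
  rw [Finset.mul_sum] at h6
  have h7 := Finset.sum_le_sum (s := (Finset.univ : Finset (Fin c))) fun v _ => hd v
  rw [Finset.sum_const, Finset.card_univ, Fintype.card_fin, nsmul_eq_mul] at h7
  linarith

end Pool.Agent.H63.CLK
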