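import Pool.Agent.H63.CLK.C_Cot
import Pool.Agent.H63.CLK.C_Birk

/-!
# The quadratic form at the maximum

At a vertex which is not an end: `∑ k, cot (π cz 1 τ k) = 0`, the slot term is
`cot (π τ) - cot (π (τ - 1/2)) = cot (π τ) + tan (π τ) = 2 / sin (2 π τ) < 0`, the form of the `σ`
(indices with `σ > 0`, sum `1`) is nonnegative, the form of the four `θ = ν - σ > 0` (sum
`2 - 1 = 1`) is positive unless all `θ'` vanish. At an end vertex only the slot term. If everything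
vanishes then all `τ' = 0`, `θ' = 0`, so `X' = 0`.
-/

set_option autoImplicit false

namespace Pool.Agent.H63.CLK

open Pool.Agent.H63.VC hiding ext
open Pool.Agent.H63.VC3 Pool.Agent.H63.VC4 Pool.Agent.H63.VC7 Complex Filter Topology
open scoped BigOperators

variable {c : ℕ} {F : Finset ℕ} {cor : Fin c → Fin 4 → ℕ} {x : Vr c → ℝ}

/-- The cotangent. -/
noncomputable def ct (x : ℝ) : ℝ := Real.cos (Real.pi * x) / Real.sin (Real.pi * x)

/-- The derivative of the sizes of the corners. -/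
def dz (x : ℝ) : Fin 4 → ℝ := ![-x, x, -x, x]

/-- The term of a corner. -/
private noncomputable def C_Hess_tm (τ Y : ℝ) (σ s : Fin 4 → ℝ) (k : Fin 4) : ℝ :=
  ct (cz 1 τ k) * (dz Y k) ^ 2 - ct (σ k) * s k ^ 2 - ct (cz 1 τ k - σ k) * (dz Y k - s k) ^ 2

private theorem C_Hess_slot (τ : ℝ) (h1 : 1 / 2 < τ) (h2 : τ < 1) : ct τ - ct (τ - 1 / 2) < 0 := by
  have hpi := Real.pi_pos
  have hs : 0 < Real.sin (Real.pi * τ) :=
    Real.sin_pos_of_pos_of_lt_pi (by positivity) (by nlinarith)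
  have hc : Real.cos (Real.pi * τ) < 0 :=
    Real.cos_neg_of_pi_div_two_lt_of_lt (by nlinarith) (by nlinarith)
  have hs' : 0 < Real.sin (Real.pi * (τ - 1 / 2)) :=
    Real.sin_pos_of_pos_of_lt_pi (by nlinarith) (by nlinarith)
  have hc' : 0 < Real.cos (Real.pi * (τ - 1 / 2)) :=
    Real.cos_pos_of_mem_Ioo ⟨by nlinarith, by nlinarith⟩
  have e1 : ct τ < 0 := div_neg_of_neg_of_pos hc hs
  have e2 : 0 < ct (τ - 1 / 2) := div_pos hc' hs'
  linarith

private theorem C_Hess_ct_one_sub (τ : ℝ) : ct (1 - τ) = -ct τ := by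
  unfold ct
  have e : Real.pi * (1 - τ) = Real.pi - Real.pi * τ := by ring
  rw [e, Real.cos_pi_sub, Real.sin_pi_sub, neg_div]

private theorem C_Hess_cz_sum (τ : ℝ) : ∑ k : Fin 4, cz 1 τ k = 2 := by
  simp [cz, Fin.sum_univ_four]
  ring

private theorem C_Hess_dz_sum (Y : ℝ) : ∑ k : Fin 4, dz Y k = 0 := by
  simp [dz, Fin.sum_univ_four]

private theorem C_Hess_ct_sum (τ Y : ℝ) : ∑ k : Fin 4, ct (cz 1 τ k) * (dz Y k) ^ 2 = 0 := by
  simp [dz, cz, Fin.sum_univ_four, C_Hess_ct_one_sub]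

private theorem C_Hess_cz_pos (τ : ℝ) (h1 : 1 / 2 < τ) (h2 : τ < 1) (k : Fin 4) :
    0 < cz 1 τ k := by
  fin_cases k <;> simp [cz] <;> linarith

private theorem C_Hess_vertex (τ Y : ℝ) (σ s : Fin 4 → ℝ) (P : Fin 4 → Prop) [DecidablePred P]
    (h1 : 1 / 2 < τ) (h2 : τ < 1) (hσ : ∑ k, σ k = 1) (hs : ∑ k, s k = 0)
    (ho : ∀ k, ¬ P k → σ k = 0 ∧ s k = 0) (hp : ∀ k, P k → 0 < σ k)
    (hl : ∀ k, P k → σ k < cz 1 τ k) :
    ∑ k, (if P k then C_Hess_tm τ Y σ s k else 0) ≤ 0 ∧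
      (∑ k, (if P k then C_Hess_tm τ Y σ s k else 0) = 0 → ∀ k, s k = dz Y k) := by
  have e0 : ∀ k, (if P k then C_Hess_tm τ Y σ s k else 0) = C_Hess_tm τ Y σ s k := by
    intro k
    by_cases hk : P k
    · rw [if_pos hk]
    · rw [if_neg hk]
      obtain ⟨a1, a2⟩ := ho k hk
      unfold C_Hess_tm
      rw [a1, a2]
      simp
  have e1 : ∑ k, (if P k then C_Hess_tm τ Y σ s k else 0)
      = -(∑ k ∈ Finset.univ.filter P, ct (σ k) * s k ^ 2)
        - ∑ k, ct (cz 1 τ k - σ k) * (dz Y k - s k) ^ 2 := by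
    rw [Finset.sum_congr rfl (fun k _ => e0 k)]
    unfold C_Hess_tm
    rw [Finset.sum_sub_distrib, Finset.sum_sub_distrib, C_Hess_ct_sum, zero_sub]
    congr 2
    rw [Finset.sum_filter]
    refine Finset.sum_congr rfl fun k _ => ?_
    by_cases hk : P k
    · rw [if_pos hk]
    · rw [if_neg hk, (ho k hk).2]
      simp
  have hs1 : ∑ k ∈ Finset.univ.filter P, σ k = 1 := by
    rw [← hσ, Finset.sum_filter]
    refine Finset.sum_congr rfl fun k _ => ?_
    by_cases hk : P k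
    · rw [if_pos hk]
    · rw [if_neg hk, (ho k hk).1]
  have hs2 : ∑ k ∈ Finset.univ.filter P, s k = 0 := by
    rw [← hs, Finset.sum_filter]
    refine Finset.sum_congr rfl fun k _ => ?_
    by_cases hk : P k
    · rw [if_pos hk]
    · rw [if_neg hk, (ho k hk).2]
  have n1 : 0 ≤ ∑ k ∈ Finset.univ.filter P, ct (σ k) * s k ^ 2 :=
    cot_nonneg _ σ s (fun k hk => hp k (Finset.mem_filter.1 hk).2) hs1 hs2
  have hθ0 : ∀ k ∈ (Finset.univ : Finset (Fin 4)), 0 < cz 1 τ k - σ k := by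
    intro k _
    by_cases hk : P k
    · linarith [hl k hk]
    · rw [(ho k hk).1, sub_zero]
      exact C_Hess_cz_pos τ h1 h2 k
  have hθ1 : ∑ k, (cz 1 τ k - σ k) = 1 := by
    rw [Finset.sum_sub_distrib, hσ, C_Hess_cz_sum]
    norm_num
  have hθ2 : ∑ k, (dz Y k - s k) = 0 := by
    rw [Finset.sum_sub_distrib, hs, C_Hess_dz_sum]
    norm_num
  have n2 : 0 ≤ ∑ k, ct (cz 1 τ k - σ k) * (dz Y k - s k) ^ 2 :=
    cot_nonneg Finset.univ (fun k => cz 1 τ k - σ k) (fun k => dz Y k - s k) hθ0 hθ1 hθ2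
  refine ⟨by rw [e1]; linarith, ?_⟩
  intro hz k
  by_contra hk
  have n3 : 0 < ∑ k, ct (cz 1 τ k - σ k) * (dz Y k - s k) ^ 2 :=
    cot_pos Finset.univ (fun k => cz 1 τ k - σ k) (fun k => dz Y k - s k) hθ0 hθ1 hθ2
      (by simp) ⟨k, Finset.mem_univ k, fun h => hk (by linarith)⟩
  rw [e1] at hz
  linarith

theorem quad_neg (h : IsInt F cor x) (y : Vr c → ℝ) (hy : IsLin F cor 0 y) (hne : y ≠ 0) :
    (∑ v, 2 * (ct (x (Sum.inl v)) - ct (x (Sum.inl v) - 1 / 2)) * y (Sum.inl v) ^ 2) +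
      ∑ p ∈ Nd F cor, (ct (cz 1 (x (Sum.inl p.1)) p.2) * (dz (y (Sum.inl p.1)) p.2) ^ 2 -
        ct (x (Sum.inr p)) * y (Sum.inr p) ^ 2 -
        ct (cz 1 (x (Sum.inl p.1)) p.2 - x (Sum.inr p)) *
          (dz (y (Sum.inl p.1)) p.2 - y (Sum.inr p)) ^ 2) < 0 := by
  classical
  set A : Fin c → ℝ := fun v =>
    2 * (ct (x (Sum.inl v)) - ct (x (Sum.inl v) - 1 / 2)) * y (Sum.inl v) ^ 2 with hA
  set B : Fin c → ℝ := fun v => ∑ k, (if cor v k ∈ F ∧ ¬ IsEnd F cor v then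
    C_Hess_tm (x (Sum.inl v)) (y (Sum.inl v)) (fun k => x (Sum.inr (v, k)))
      (fun k => y (Sum.inr (v, k))) k else 0) with hB
  have e1 : ∑ p ∈ Nd F cor, (ct (cz 1 (x (Sum.inl p.1)) p.2) * (dz (y (Sum.inl p.1)) p.2) ^ 2 -
        ct (x (Sum.inr p)) * y (Sum.inr p) ^ 2 -
        ct (cz 1 (x (Sum.inl p.1)) p.2 - x (Sum.inr p)) *
          (dz (y (Sum.inl p.1)) p.2 - y (Sum.inr p)) ^ 2) = ∑ v, B v := by
    unfold Nd
    rw [Finset.sum_filter, Fintype.sum_prod_type]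
    refine Finset.sum_congr rfl fun v _ => ?_
    rw [hB]
    refine Finset.sum_congr rfl fun k _ => ?_
    by_cases hc : cor v k ∈ F ∧ ¬ IsEnd F cor v
    · rw [if_pos hc, if_pos hc]
      rfl
    · rw [if_neg hc, if_neg hc]
  rw [e1]
  change (∑ v, A v) + ∑ v, B v < 0
  rw [← Finset.sum_add_distrib]
  have hA0 : ∀ v, A v ≤ 0 := by
    intro v
    have := C_Hess_slot (x (Sum.inl v)) (h.half v) (h.lt1 v)
    have h2 := sq_nonneg (y (Sum.inl v))
    rw [hA]
    dsimp only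
    nlinarith
  have hA1 : ∀ v, A v = 0 → y (Sum.inl v) = 0 := by
    intro v hv
    have h1 := C_Hess_slot (x (Sum.inl v)) (h.half v) (h.lt1 v)
    rw [hA] at hv
    dsimp only at hv
    rcases mul_eq_zero.1 hv with h3 | h3
    · exfalso
      linarith
    · exact pow_eq_zero_iff (two_ne_zero) |>.1 h3
  have hB0 : ∀ v, IsEnd F cor v → B v = 0 := by
    intro v hv
    rw [hB]
    refine Finset.sum_eq_zero fun k _ => ?_
    rw [if_neg (fun hc => hc.2 hv)]
  have hB1 : ∀ v, ¬ IsEnd F cor v → B v ≤ 0 ∧ (B v = 0 → ∀ k, y (Sum.inr (v, k)) =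
      dz (y (Sum.inl v)) k) := by
    intro v hv
    refine C_Hess_vertex (x (Sum.inl v)) (y (Sum.inl v)) (fun k => x (Sum.inr (v, k)))
      (fun k => y (Sum.inr (v, k))) (fun k => cor v k ∈ F ∧ ¬ IsEnd F cor v) (h.half v) (h.lt1 v)
      (h.ang.vert v) (hy.vert v) ?_ ?_ ?_
    · intro k hk
      have hk' : cor v k ∉ F := fun hc => hk ⟨hc, hv⟩
      exact ⟨h.ang.out v k hk', hy.out v k hk'⟩
    · intro k hk
      exact h.pos v k hk.1 hk.2
    · intro k hk
      exact h.lt v k hk.1 hk.2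
  have hT0 : ∀ v, A v + B v ≤ 0 := by
    intro v
    by_cases hv : IsEnd F cor v
    · rw [hB0 v hv, add_zero]
      exact hA0 v
    · linarith [hA0 v, (hB1 v hv).1]
  by_contra hcon
  have hge : 0 ≤ ∑ v, (A v + B v) := not_lt.1 hcon
  have hle : ∑ v, (A v + B v) ≤ 0 := Finset.sum_nonpos fun v _ => hT0 v
  have hz : ∑ v, (A v + B v) = 0 := le_antisymm hle hge
  have hall : ∀ v, A v + B v = 0 := by
    intro v
    exact (Finset.sum_eq_zero_iff_of_nonpos (fun v _ => hT0 v)).1 hz v (Finset.mem_univ v)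
  apply hne
  have hY : ∀ v, y (Sum.inl v) = 0 := by
    intro v
    apply hA1
    by_cases hv : IsEnd F cor v
    · have := hall v
      rw [hB0 v hv, add_zero] at this
      exact this
    · have h1 := hall v
      have h2 := (hB1 v hv).1
      have h3 := hA0 v
      linarith
  funext j
  rcases j with v | ⟨v, k⟩
  · exact hY v
  · change y (Sum.inr (v, k)) = 0
    by_cases hv : IsEnd F cor v
    · by_cases hk : cor v k ∈ F
      · rw [hy.endv v k hv hk, hY v]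
        fin_cases k <;> simp [cz]
      · exact hy.out v k hk
    · have h1 := hall v
      have h2 := (hB1 v hv).1
      have h3 := hA0 v
      have h4 : B v = 0 := by linarith
      rw [(hB1 v hv).2 h4 k, hY v]
      fin_cases k <;> simp [dz]

end Pool.Agent.H63.CLK
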