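import Pool.Agent.H63.CLK.C_Asm
import Pool.Agent.H63.CLK.A_Jones
import Pool.Agent.H63.CLK.A_GInv
import Pool.Agent.H63.CLK.B_Mat

/-!
# The asymptotics of the colored Jones polynomial of a twisted template
-/

set_option autoImplicit false

namespace Pool.Agent.H63.CLK

open Pool.Agent.H63.VC hiding ext
open Pool.Agent.H63.VC3 Pool.Agent.H63.VC4 Pool.Agent.H63.VC7 Complex Filter Topology
open scoped BigOperators

variable {c d : ℕ} {F : Finset ℕ} {cor : Fin c → Fin 4 → ℕ} {x : Vr c → ℝ}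

/-- Part A. -/
theorem A_main {w : List TPiece} (h : IsTemplate w c F cor) (a : ℕ → ℤ) (e : ℤ) (N : ℕ) :
    F.card = c ∧ longJones (fill a 0 w) e N (qz N) = (qz N) ^ ((N : ℤ) * (N + 2) * e) *
      ∑ t ∈ Fintype.piFinset (fun _ : Fin c => Finset.range (N + 1)),
        (∏ v : Fin c, eta (a v) N (t v)) * clockSum (qz N) F cor N t :=
  ⟨template_card h,
    longJones_clock N w c F cor h (fun a t => eta a N t) (fun a => eta_mat a N) a e⟩

/-- The state sum. -/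
theorem jones_stSum {w : List TPiece} (h : IsTemplate w c F cor) (a : ℕ → ℤ) (e : ℤ) (N : ℕ) :
    longJones (fill a 0 w) e N (qz N) = (qz N) ^ ((N : ℤ) * (N + 2) * e) *
      stSum F cor N (fun t s => (∏ v : Fin c, eta (a v) N (t v)) * corP N t s) := by
  classical
  rw [(A_main h a e N).2, stSum]
  congr 1
  refine Finset.sum_congr rfl fun t _ => ?_
  rw [clockSum, Finset.mul_sum]
  refine Finset.sum_congr rfl fun s _ => ?_
  by_cases hs : IsState F cor N s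
  · simp [hs, corP]
  · simp [hs]

theorem qz_pow (e : ℤ) (N : ℕ) : (qz N) ^ ((N : ℤ) * (N + 2) * e) =
    exp (((N + 1 : ℕ) : ℂ) * (Real.pi * I * e)) * exp (-(Real.pi * I * e) / ((N + 1 : ℕ) : ℂ)) := by
  have hM : ((N + 1 : ℕ) : ℂ) ≠ 0 := by exact_mod_cast Nat.succ_ne_zero N
  rw [qz, ← Complex.exp_int_mul, ← Complex.exp_add]
  congr 1
  push_cast at hM ⊢
  field_simp
  ring

theorem jones_asym {w : List TPiece} (hT : IsTemplate w c F cor) (h : IsMaxN F cor x)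
    (hfar : FarOK F cor x) :
    ∃ (d : ℕ) (b : Fin d → Vr c → ℤ) (x0 : Vr c → ℤ), IsBas F cor b x0 ∧ ∃ K : ℝ, 0 < K ∧
    ∀ ε2 : ℝ, 0 < ε2 → ∃ R : ℝ, 0 < R ∧ ∀ a : ℕ → ℤ, (∀ v < c, R ≤ |(a v : ℝ)|) →
    ∃ p : Ix d c → ℂ, IsCritE (PhiT F cor b x) (fun j => ((a j : ℤ) : ℝ) / 2) K ε2 p ∧
    ∀ e : ℤ, ∃ κ : ℂ, κ ≠ 0 ∧
      Tendsto (fun N : ℕ => longJones (fill a 0 w) e N (qz N) /
        ((((N + 1 : ℕ) : ℝ) ^ (((c : ℝ) + d - (Nd F cor).card) / 2) : ℝ) *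
          exp (((N + 1 : ℕ) : ℂ) * (cval F cor b x (fun j => a j) p - ∑ v : Fin c,
            Real.pi * I * a v / 4 + Real.pi * I * e)))) atTop (𝓝 κ) := by
  obtain ⟨d, b, x0, o, hb, ho⟩ := exists_bas (template_card hT) h.int
  refine ⟨d, b, x0, hb, ?_⟩
  obtain ⟨K, hK, hR⟩ := state_asym h hfar hb ho
  refine ⟨K, hK, fun ε2 hε2 => ?_⟩
  obtain ⟨R, hR0, hRa⟩ := hR ε2 hε2
  refine ⟨R, hR0, fun a ha => ?_⟩
  obtain ⟨p, hp, κ, hκ, hlim⟩ := hRa (fun v => a v) (fun v => ha v v.2)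
  refine ⟨p, hp, fun e => ⟨κ, hκ, ?_⟩⟩
  have h1 : Tendsto (fun N : ℕ => exp (-(Real.pi * I * e) / ((N + 1 : ℕ) : ℂ))) atTop (𝓝 1) := by
    have h2 : Tendsto (fun N : ℕ => (-(Real.pi * I * e) / ((N + 1 : ℕ) : ℂ))) atTop (𝓝 0) := by
      have h3 := (tendsto_const_div_atTop_nhds_zero_nat (-(Real.pi * I * e) : ℂ))
      exact h3.comp (tendsto_add_atTop_nat 1)
    have h4 := (Complex.continuous_exp.tendsto 0).comp h2
    rw [Complex.exp_zero] at h4
    exact h4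
  have h5 := hlim.mul h1
  rw [mul_one] at h5
  refine h5.congr fun N => ?_
  rw [jones_stSum hT a e N, qz_pow]
  rw [show (((N + 1 : ℕ) : ℂ) * (cval F cor b x (fun j => a j) p - ∑ v : Fin c,
            Real.pi * I * a v / 4 + Real.pi * I * e)) =
      ((N + 1 : ℕ) : ℂ) * (cval F cor b x (fun v : Fin c => a v) p -
        ∑ v : Fin c, Real.pi * I * a v / 4) + ((N + 1 : ℕ) : ℂ) * (Real.pi * I * e) by ring,
    Complex.exp_add]
  have hne1 := Complex.exp_ne_zero (((N + 1 : ℕ) : ℂ) * (Real.pi * I * e))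
  have hne2 := Complex.exp_ne_zero (((N + 1 : ℕ) : ℂ) * (cval F cor b x (fun v : Fin c => a v) p -
        ∑ v : Fin c, Real.pi * I * a v / 4))
  have hne3 : ((((N + 1 : ℕ) : ℝ) ^ (((c : ℝ) + d - (Nd F cor).card) / 2) : ℝ) : ℂ) ≠ 0 := by
    norm_cast
    have : (0 : ℝ) < ((N + 1 : ℕ) : ℝ) := by exact_mod_cast Nat.succ_pos N
    exact (Real.rpow_pos_of_pos this _).ne'
  field_simp

end Pool.Agent.H63.CLK
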