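import Pool.Agent.H63.CLK.C_Poly

/-!
# The lattice points in a small box

`(Xm j + x j) / M = x j + ∑ i, w i * b i j`, `w i = m i / M - oM o N i`.
-/

set_option autoImplicit false

namespace Pool.Agent.H63.CLK

open Pool.Agent.H63.VC hiding ext
open Pool.Agent.H63.VC3 Pool.Agent.H63.VC4 Pool.Agent.H63.VC7 Complex Filter Topology
open scoped BigOperators

variable {c d : ℕ} {F : Finset ℕ} {cor : Fin c → Fin 4 → ℕ} {x : Vr c → ℝ}
  {b : Fin d → Vr c → ℤ} {x0 : Vr c → ℤ} {o : Fin d → ℝ}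

theorem Xm_eq (ho : ∀ j, x j = x0 j + ∑ i, o i * (b i j : ℝ)) (N : ℕ) (m : Fin d → ℤ) (j : Vr c) :
    ((Xm b x0 N m j : ℝ) + x j) / ((N + 1 : ℕ) : ℝ) =
      x j + ∑ i, ((m i : ℝ) / ((N + 1 : ℕ) : ℝ) - oM o N i) * (b i j : ℝ) := by
  have hM : ((N + 1 : ℕ) : ℝ) ≠ 0 := by positivity
  have h1 : ∑ i, ((m i : ℝ) / ((N + 1 : ℕ) : ℝ) - oM o N i) * (b i j : ℝ) =
      (∑ i, (m i : ℝ) * (b i j : ℝ)) / ((N + 1 : ℕ) : ℝ) -
        (1 - 1 / ((N + 1 : ℕ) : ℝ)) * ∑ i, o i * (b i j : ℝ) := by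
    rw [Finset.sum_div, Finset.mul_sum, ← Finset.sum_sub_distrib]
    refine Finset.sum_congr rfl fun i _ => ?_
    unfold oM
    ring
  have h2 : ∑ i, o i * (b i j : ℝ) = x j - x0 j := by
    rw [ho j]; ring
  have h3 : (Xm b x0 N m j : ℝ) = N * (x0 j : ℝ) + ∑ i, (m i : ℝ) * (b i j : ℝ) := by
    unfold Xm
    push_cast
    rfl
  rw [h1, h2, h3]
  have h4 : (N : ℝ) = ((N + 1 : ℕ) : ℝ) - 1 := by push_cast; ring
  rw [h4]
  field_simp
  ring

theorem Xm_par (ho : ∀ j, x j = x0 j + ∑ i, o i * (b i j : ℝ)) (N : ℕ) (m : Fin d → ℤ) (j : Vr c) :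
    par b x (fun i => (((m i : ℝ) / ((N + 1 : ℕ) : ℝ) - oM o N i : ℝ) : ℂ)) j =
      ((((Xm b x0 N m j : ℝ) + x j) / ((N + 1 : ℕ) : ℝ) : ℝ) : ℂ) := by
  rw [Xm_eq ho N m j]
  unfold par
  rw [Complex.ofReal_add, Complex.ofReal_sum]
  congr 1
  refine Finset.sum_congr rfl fun i _ => ?_
  rw [Complex.ofReal_mul, mul_comm]
  simp

private theorem C_Lat_add {n n' : ℤ} {y y' : Vr c → ℤ} (h : IsLin F cor n y)
    (h' : IsLin F cor n' y') : IsLin F cor (n + n') (fun j => y j + y' j) := by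
  refine ⟨fun v => ?_, fun f hf => ?_, fun v k hk => ?_, fun v k hv hk => ?_⟩
  · rw [Finset.sum_add_distrib, h.vert v, h'.vert v]
  · rw [← h.face f hf, ← h'.face f hf, ← Finset.sum_add_distrib]
    refine Finset.sum_congr rfl fun v _ => ?_
    rw [← Finset.sum_add_distrib]
    refine Finset.sum_congr rfl fun k _ => ?_
    split_ifs <;> simp
  · rw [h.out v k hk, h'.out v k hk, add_zero]
  · rw [h.endv v k hv hk, h'.endv v k hv hk]
    fin_cases k <;> simp [cz] <;> ring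

private theorem C_Lat_smul {n : ℤ} {y : Vr c → ℤ} (h : IsLin F cor n y) (a : ℤ) :
    IsLin F cor (a * n) (fun j => a * y j) := by
  refine ⟨fun v => ?_, fun f hf => ?_, fun v k hk => ?_, fun v k hv hk => ?_⟩
  · rw [← Finset.mul_sum, h.vert v]
  · rw [← h.face f hf, Finset.mul_sum]
    refine Finset.sum_congr rfl fun v _ => ?_
    rw [Finset.mul_sum]
    refine Finset.sum_congr rfl fun k _ => ?_
    split_ifs <;> simp
  · rw [h.out v k hk, mul_zero]
  · rw [h.endv v k hv hk]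
    fin_cases k <;> simp [cz] <;> ring

private theorem C_Lat_zero : IsLin F cor (0 : ℤ) (fun _ => (0 : ℤ)) := by
  refine ⟨fun v => by simp, fun f hf => by simp, fun v k hk => rfl, fun v k hv hk => ?_⟩
  fin_cases k <;> simp [cz]

private theorem C_Lat_sum (hb : ∀ i, IsLin F cor (0 : ℤ) (b i)) (m : Fin d → ℤ)
    (s : Finset (Fin d)) : IsLin F cor (0 : ℤ) (fun j => ∑ i ∈ s, m i * b i j) := by
  classical
  induction s using Finset.induction_on with
  | empty => simpa using (C_Lat_zero (F := F) (cor := cor))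
  | insert i s hi ih =>
    have := C_Lat_add (C_Lat_smul (hb i) (m i)) ih
    simp only [mul_zero, add_zero] at this
    simpa [Finset.sum_insert hi] using this

theorem Xm_lin (hb : IsBas F cor b x0) (N : ℕ) (m : Fin d → ℤ) :
    IsLin F cor (N : ℤ) (Xm b x0 N m) := by
  have := C_Lat_add (C_Lat_smul hb.lin0 (N : ℤ)) (C_Lat_sum hb.linb m Finset.univ)
  simp only [mul_one, add_zero] at this
  exact this

theorem Xm_inj (hb : IsBas F cor b x0) (N : ℕ) (m m' : Fin d → ℤ)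
    (h : Xm b x0 N m = Xm b x0 N m') : m = m' := by
  have h1 := hb.inj (fun i => ((m i : ℝ) - m' i)) (fun j => by
    have := congrFun h j
    unfold Xm at this
    have h2 : ∑ i, m i * b i j = ∑ i, m' i * b i j := by linarith
    have h3 : (∑ i, (m i : ℝ) * (b i j : ℝ)) = ∑ i, (m' i : ℝ) * (b i j : ℝ) := by
      exact_mod_cast h2
    simp only [sub_mul, Finset.sum_sub_distrib]
    rw [h3, sub_self])
  funext i
  have := congrFun h1 i
  simp only [Pi.zero_apply, sub_eq_zero] at this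
  exact_mod_cast this

theorem Xm_surj (hb : IsBas F cor b x0) (N : ℕ) (X : Vr c → ℤ) (hX : IsLin F cor (N : ℤ) X) :
    ∃ m : Fin d → ℤ, X = Xm b x0 N m := by
  have h1 := C_Lat_add hX (C_Lat_smul hb.lin0 (-(N : ℤ)))
  have h2 : (N : ℤ) + -(N : ℤ) * 1 = 0 := by ring
  rw [h2] at h1
  obtain ⟨m, hm⟩ := hb.span _ h1
  refine ⟨m, ?_⟩
  funext j
  have := congrFun hm j
  unfold Xm
  linarith

/-- The lattice points in a small box are close to `x`, and they are states. -/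
theorem box_facts (h : IsInt F cor x) (hb : IsBas F cor b x0)
    (ho : ∀ j, x j = x0 j + ∑ i, o i * (b i j : ℝ)) (ε : ℝ) (hε : 0 < ε) :
    ∃ δ0 : ℝ, 0 < δ0 ∧ ∃ N0 : ℕ, ∀ (δ : ℝ) (N : ℕ), δ ≤ δ0 → N0 ≤ N → ∀ m : Fin d → ℤ,
      m ∈ latBox (N + 1) (oM o N) δ →
      (∀ j, |(Xm b x0 N m j : ℝ) / ((N + 1 : ℕ) : ℝ) - x j| ≤ ε) ∧
      (∀ j, |((Xm b x0 N m j : ℝ) + x j) / ((N + 1 : ℕ) : ℝ) - x j| ≤ ε) ∧
      (∀ v, ((tm b x0 N m v : ℕ) : ℤ) = Xm b x0 N m (Sum.inl v) ∧ tm b x0 N m v ≤ N) ∧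
      IsState F cor N (sm b x0 N m) ∧
      (∀ v k, sm b x0 N m v k ≤ csz N (tm b x0 N m v) k) ∧
      (∀ v k, ((sm b x0 N m v k : ℕ) : ℤ) = Xm b x0 N m (Sum.inr (v, k))) ∧
      Xp x N (tm b x0 N m) (sm b x0 N m) =
        fun j => x j + ∑ i, ((m i : ℝ) / ((N + 1 : ℕ) : ℝ) - oM o N i) * (b i j : ℝ) := by
  classical
  -- the margins
  obtain ⟨η, hη, hηε, hη1, hη2⟩ : ∃ η : ℝ, 0 < η ∧ η ≤ ε ∧
      (∀ v, η ≤ x (Sum.inl v) ∧ η ≤ 1 - x (Sum.inl v)) ∧
      (∀ p ∈ Nd F cor, η ≤ x (Sum.inr p) ∧ η ≤ cz 1 (x (Sum.inl p.1)) p.2 - x (Sum.inr p)) := by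
    let S : Finset ℝ := insert ε (((Finset.univ : Finset (Fin c)).image (fun v => x (Sum.inl v))) ∪
      ((Finset.univ : Finset (Fin c)).image (fun v => 1 - x (Sum.inl v))) ∪
      ((Nd F cor).image (fun p => x (Sum.inr p))) ∪
      ((Nd F cor).image (fun p => cz 1 (x (Sum.inl p.1)) p.2 - x (Sum.inr p))))
    have hS : S.Nonempty := ⟨ε, by simp [S]⟩
    refine ⟨S.min' hS, ?_, ?_, fun v => ⟨?_, ?_⟩, fun p hp => ⟨?_, ?_⟩⟩
    · rw [Finset.lt_min'_iff]
      intro y hy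
      simp only [S, Finset.mem_insert, Finset.mem_union, Finset.mem_image, Finset.mem_univ,
        true_and] at hy
      rcases hy with rfl | ((⟨v, rfl⟩ | ⟨v, rfl⟩) | ⟨p, hp, rfl⟩) | ⟨p, hp, rfl⟩
      · exact hε
      · linarith [h.half v]
      · linarith [h.lt1 v]
      · simp only [Nd, Finset.mem_filter] at hp
        exact h.pos p.1 p.2 hp.2.1 hp.2.2
      · simp only [Nd, Finset.mem_filter] at hp
        linarith [h.lt p.1 p.2 hp.2.1 hp.2.2]
    · exact Finset.min'_le _ _ (by simp [S])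
    · refine Finset.min'_le _ _ ?_
      simp only [S, Finset.mem_insert, Finset.mem_union, Finset.mem_image, Finset.mem_univ,
        true_and]
      exact Or.inr (Or.inl (Or.inl (Or.inl ⟨v, rfl⟩)))
    · refine Finset.min'_le _ _ ?_
      simp only [S, Finset.mem_insert, Finset.mem_union, Finset.mem_image, Finset.mem_univ,
        true_and]
      exact Or.inr (Or.inl (Or.inl (Or.inr ⟨v, rfl⟩)))
    · refine Finset.min'_le _ _ ?_
      simp only [S, Finset.mem_insert, Finset.mem_union, Finset.mem_image, Finset.mem_univ,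
        true_and]
      exact Or.inr (Or.inl (Or.inr ⟨p, hp, rfl⟩))
    · refine Finset.min'_le _ _ ?_
      simp only [S, Finset.mem_insert, Finset.mem_union, Finset.mem_image, Finset.mem_univ,
        true_and]
      exact Or.inr (Or.inr ⟨p, hp, rfl⟩)
  -- the sizes
  let B : ℝ := ∑ j, ∑ i, |(b i j : ℝ)| + 1
  have hB0 : 0 ≤ ∑ j : Vr c, ∑ i, |(b i j : ℝ)| :=
    Finset.sum_nonneg fun j _ => Finset.sum_nonneg fun i _ => abs_nonneg _
  have hB : 0 < B := by simp only [B]; linarith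
  have hBj : ∀ j, ∑ i, |(b i j : ℝ)| ≤ B := fun j => by
    have := Finset.single_le_sum (f := fun j => ∑ i, |(b i j : ℝ)|)
      (fun j _ => Finset.sum_nonneg fun i _ => abs_nonneg _) (Finset.mem_univ j)
    simp only [B]; linarith
  let X : ℝ := ∑ j, |x j|
  have hX0 : 0 ≤ X := Finset.sum_nonneg fun j _ => abs_nonneg _
  have hXj : ∀ j, |x j| ≤ X := fun j =>
    Finset.single_le_sum (f := fun j => |x j|) (fun j _ => abs_nonneg _) (Finset.mem_univ j)
  obtain ⟨N0, hN0⟩ := exists_nat_gt (8 * X / η)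
  refine ⟨η / (8 * B), by positivity, N0, fun δ N hδ hN m hm => ?_⟩
  have hM : (0 : ℝ) < ((N + 1 : ℕ) : ℝ) := by positivity
  -- the coordinates
  have hw : ∀ i, |(m i : ℝ) / ((N + 1 : ℕ) : ℝ) - oM o N i| ≤ η / (8 * B) := by
    intro i
    unfold latBox at hm
    rw [Fintype.mem_piFinset] at hm
    have h1 := Finset.mem_Icc.1 (hm i)
    have h2 := Int.ceil_le.1 h1.1
    have h3 := Int.le_floor.1 h1.2
    rw [abs_le]
    have e1 : (m i : ℝ) / ((N + 1 : ℕ) : ℝ) ≤ oM o N i + δ := by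
      rw [div_le_iff₀ hM]; linarith
    have e2 : oM o N i - δ ≤ (m i : ℝ) / ((N + 1 : ℕ) : ℝ) := by
      rw [le_div_iff₀ hM]; linarith
    constructor <;> linarith
  have hd : ∀ j, |((Xm b x0 N m j : ℝ) + x j) / ((N + 1 : ℕ) : ℝ) - x j| ≤ η / 8 := by
    intro j
    rw [Xm_eq ho N m j]
    have : x j + ∑ i, ((m i : ℝ) / ((N + 1 : ℕ) : ℝ) - oM o N i) * (b i j : ℝ) - x j =
      ∑ i, ((m i : ℝ) / ((N + 1 : ℕ) : ℝ) - oM o N i) * (b i j : ℝ) := by ring
    rw [this]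
    calc |∑ i, ((m i : ℝ) / ((N + 1 : ℕ) : ℝ) - oM o N i) * (b i j : ℝ)|
        ≤ ∑ i, |((m i : ℝ) / ((N + 1 : ℕ) : ℝ) - oM o N i) * (b i j : ℝ)| :=
          Finset.abs_sum_le_sum_abs _ _
      _ ≤ ∑ i, η / (8 * B) * |(b i j : ℝ)| := by
          refine Finset.sum_le_sum fun i _ => ?_
          rw [abs_mul]
          exact mul_le_mul_of_nonneg_right (hw i) (abs_nonneg _)
      _ = η / (8 * B) * ∑ i, |(b i j : ℝ)| := by rw [Finset.mul_sum]
      _ ≤ η / (8 * B) * B := mul_le_mul_of_nonneg_left (hBj j) (by positivity)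
      _ = η / 8 := by field_simp
  have hs : ∀ j, |(Xm b x0 N m j : ℝ) / ((N + 1 : ℕ) : ℝ) - x j| ≤ η / 4 := by
    intro j
    have e1 : (Xm b x0 N m j : ℝ) / ((N + 1 : ℕ) : ℝ) - x j =
      (((Xm b x0 N m j : ℝ) + x j) / ((N + 1 : ℕ) : ℝ) - x j) - x j / ((N + 1 : ℕ) : ℝ) := by ring
    rw [e1]
    have e2 : |x j / ((N + 1 : ℕ) : ℝ)| ≤ η / 8 := by
      rw [abs_div, abs_of_pos hM, div_le_iff₀ hM]
      have : 8 * X / η < ((N + 1 : ℕ) : ℝ) := by
        refine lt_of_lt_of_le hN0 ?_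
        exact_mod_cast (by omega : N0 ≤ N + 1)
      rw [div_lt_iff₀ hη] at this
      have := hXj j
      linarith
    calc |(((Xm b x0 N m j : ℝ) + x j) / ((N + 1 : ℕ) : ℝ) - x j) - x j / ((N + 1 : ℕ) : ℝ)|
        ≤ |((Xm b x0 N m j : ℝ) + x j) / ((N + 1 : ℕ) : ℝ) - x j| + |x j / ((N + 1 : ℕ) : ℝ)| :=
          abs_sub _ _
      _ ≤ η / 8 + η / 8 := add_le_add (hd j) e2
      _ = η / 4 := by ring
  have hs1 : ∀ j, ((N + 1 : ℕ) : ℝ) * (x j - η / 4) ≤ (Xm b x0 N m j : ℝ) := fun j => by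
    have := (abs_le.1 (hs j)).1
    have : x j - η / 4 ≤ (Xm b x0 N m j : ℝ) / ((N + 1 : ℕ) : ℝ) := by linarith
    rw [le_div_iff₀ hM] at this
    linarith
  have hs2 : ∀ j, (Xm b x0 N m j : ℝ) ≤ ((N + 1 : ℕ) : ℝ) * (x j + η / 4) := fun j => by
    have := (abs_le.1 (hs j)).2
    have : (Xm b x0 N m j : ℝ) / ((N + 1 : ℕ) : ℝ) ≤ x j + η / 4 := by linarith
    rw [div_le_iff₀ hM] at this
    linarith
  have hMη : 0 < ((N + 1 : ℕ) : ℝ) * η := by positivity
  have hcast : (((N + 1 : ℕ) : ℝ)) = (N : ℝ) + 1 := by push_cast; ring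
  have hτ : ∀ v, 0 ≤ Xm b x0 N m (Sum.inl v) ∧ Xm b x0 N m (Sum.inl v) ≤ N := by
    intro v
    constructor
    · have h1 := hs1 (Sum.inl v)
      have h2 : 0 ≤ ((N + 1 : ℕ) : ℝ) * (x (Sum.inl v) - η / 4) :=
        mul_nonneg hM.le (by linarith [(hη1 v).1])
      exact_mod_cast h2.trans h1
    · have h1 := hs2 (Sum.inl v)
      have h2 : ((N + 1 : ℕ) : ℝ) * (x (Sum.inl v) + η / 4) < ((N + 1 : ℕ) : ℝ) * 1 :=
        mul_lt_mul_of_pos_left (by linarith [(hη1 v).2]) hM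
      have h3 : (Xm b x0 N m (Sum.inl v) : ℝ) < (N : ℝ) + 1 := by linarith
      have h4 : Xm b x0 N m (Sum.inl v) < (N : ℤ) + 1 := by exact_mod_cast h3
      omega
  have hσ : ∀ p ∈ Nd F cor, 0 ≤ Xm b x0 N m (Sum.inr p) ∧
      Xm b x0 N m (Sum.inr p) ≤ cz (N : ℤ) (Xm b x0 N m (Sum.inl p.1)) p.2 := by
    intro p hp
    obtain ⟨a1, a2⟩ := hη2 p hp
    constructor
    · have h1 := hs1 (Sum.inr p)
      have h2 : 0 ≤ ((N + 1 : ℕ) : ℝ) * (x (Sum.inr p) - η / 4) :=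
        mul_nonneg hM.le (by linarith)
      exact_mod_cast h2.trans h1
    · obtain ⟨v, k⟩ := p
      simp only at a1 a2 ⊢
      have b1 := hs2 (Sum.inr (v, k))
      have b2 := hs2 (Sum.inl v)
      have b3 := hs1 (Sum.inl v)
      have case1 : η ≤ 1 - x (Sum.inl v) - x (Sum.inr (v, k)) →
          Xm b x0 N m (Sum.inr (v, k)) ≤ N - Xm b x0 N m (Sum.inl v) := by
        intro a2
        have h1 : (Xm b x0 N m (Sum.inr (v, k)) : ℝ) + Xm b x0 N m (Sum.inl v) <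
            (N : ℝ) + 1 := by
          have : ((N + 1 : ℕ) : ℝ) * (x (Sum.inr (v, k)) + η / 4) +
              ((N + 1 : ℕ) : ℝ) * (x (Sum.inl v) + η / 4) < ((N + 1 : ℕ) : ℝ) * 1 := by
            rw [← mul_add]
            exact mul_lt_mul_of_pos_left (by linarith) hM
          linarith
        have h2 : Xm b x0 N m (Sum.inr (v, k)) + Xm b x0 N m (Sum.inl v) < (N : ℤ) + 1 := by
          exact_mod_cast h1
        omega
      have case2 : η ≤ x (Sum.inl v) - x (Sum.inr (v, k)) →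
          Xm b x0 N m (Sum.inr (v, k)) ≤ Xm b x0 N m (Sum.inl v) := by
        intro a2
        have h1 : (Xm b x0 N m (Sum.inr (v, k)) : ℝ) ≤ Xm b x0 N m (Sum.inl v) := by
          have : ((N + 1 : ℕ) : ℝ) * (x (Sum.inr (v, k)) + η / 4) ≤
              ((N + 1 : ℕ) : ℝ) * (x (Sum.inl v) - η / 4) :=
            mul_le_mul_of_nonneg_left (by linarith) hM.le
          linarith
        exact_mod_cast h1
      fin_cases k
      · exact case1 a2
      · exact case2 a2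
      · exact case1 a2
      · exact case2 a2
  obtain ⟨hst, hle, hcst⟩ := lin_state N (Xm b x0 N m) (Xm_lin hb N m) hτ hσ
  have htm : ∀ v, ((tm b x0 N m v : ℕ) : ℤ) = Xm b x0 N m (Sum.inl v) := fun v => by
    unfold tm
    exact Int.toNat_of_nonneg (hτ v).1
  refine ⟨fun j => (hs j).trans (by linarith), fun j => (hd j).trans (by linarith),
    fun v => ⟨htm v, ?_⟩, hst, hle, hcst, ?_⟩
  · have := htm v
    have := (hτ v).2
    omega
  · funext j
    rw [← Xm_eq ho N m j]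
    rcases j with v | ⟨v, k⟩
    · unfold Xp
      simp only [Sum.elim_inl]
      have : ((tm b x0 N m v : ℕ) : ℝ) = (Xm b x0 N m (Sum.inl v) : ℝ) := by
        exact_mod_cast htm v
      rw [this]
    · unfold Xp
      simp only [Sum.elim_inr]
      have : ((sm b x0 N m v k : ℕ) : ℝ) = (Xm b x0 N m (Sum.inr (v, k)) : ℝ) := by
        exact_mod_cast hcst v k
      rw [this]

end Pool.Agent.H63.CLK
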