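import Pool.Agent.H63.CLK.C_Hess
import Pool.Agent.H63.CLK.C_Bas

/-!
# Lagrange multipliers

`spanC`: real and imaginary parts, `IsBas.spanR`. `multipliers`: free coordinates `τ' v` (all `v`) and
`σ' p`, `p ∈ Nd`; the other coordinates of a solution of the homogeneous equations are `0` (outer
corners) or `dz (τ' v) k` (bounded corners of end vertices). Let `L` be the linear map from the free
coordinates to the vertex sums at the vertices which are not ends and the face sums (at an end vertex
the vertex sum vanishes automatically: `end_corners`, its two bounded corners have the indices `k + 2`,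
`k + 3`, of different parity). The functional `g` vanishes on the kernel of `L` (by `spanC`), so it is in
the range of the dual map: `LinearMap.range_dualMap_eq_dualAnnihilator_ker`.
-/

set_option autoImplicit false

namespace Pool.Agent.H63.CLK

open Pool.Agent.H63.VC hiding ext
open Pool.Agent.H63.VC3 Pool.Agent.H63.VC4 Pool.Agent.H63.VC7 Complex Filter Topology
open scoped BigOperators

variable {c d : ℕ} {F : Finset ℕ} {cor : Fin c → Fin 4 → ℕ} {x : Vr c → ℝ}
  {b : Fin d → Vr c → ℤ} {x0 : Vr c → ℤ}

private theorem C_Mult_cz_re (z : ℂ) (k : Fin 4) : (cz (0 : ℂ) z k).re = cz (0 : ℝ) z.re k := by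
  fin_cases k <;> simp [cz]

private theorem C_Mult_cz_im (z : ℂ) (k : Fin 4) : (cz (0 : ℂ) z k).im = cz (0 : ℝ) z.im k := by
  fin_cases k <;> simp [cz]

theorem spanC (hb : IsBas F cor b x0) (y : Vr c → ℂ) (hy : IsLin F cor 0 y) :
    ∃ w : Fin d → ℂ, y = fun j => ∑ i, w i * (b i j : ℂ) := by
  have hr : IsLin F cor (0 : ℝ) (fun j => (y j).re) := by
    refine ⟨?_, ?_, ?_, ?_⟩
    · intro v
      have h := congrArg Complex.re (hy.vert v)
      simpa using h
    · intro f hf
      have h := congrArg Complex.re (hy.face f hf)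
      simp only [Complex.re_sum, Complex.zero_re] at h
      refine Eq.trans ?_ h
      refine Finset.sum_congr rfl fun v _ => Finset.sum_congr rfl fun k _ => ?_
      split_ifs <;> rfl
    · intro v k hk
      simp only [hy.out v k hk, Complex.zero_re]
    · intro v k h1 h2
      rw [hy.endv v k h1 h2, C_Mult_cz_re]
  have hi : IsLin F cor (0 : ℝ) (fun j => (y j).im) := by
    refine ⟨?_, ?_, ?_, ?_⟩
    · intro v
      have h := congrArg Complex.im (hy.vert v)
      simpa using h
    · intro f hf
      have h := congrArg Complex.im (hy.face f hf)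
      simp only [Complex.im_sum, Complex.zero_im] at h
      refine Eq.trans ?_ h
      refine Finset.sum_congr rfl fun v _ => Finset.sum_congr rfl fun k _ => ?_
      split_ifs <;> rfl
    · intro v k hk
      simp only [hy.out v k hk, Complex.zero_im]
    · intro v k h1 h2
      rw [hy.endv v k h1 h2, C_Mult_cz_im]
  obtain ⟨w1, hw1⟩ := hb.spanR _ hr
  obtain ⟨w2, hw2⟩ := hb.spanR _ hi
  refine ⟨fun i => (w1 i : ℂ) + (w2 i : ℂ) * I, ?_⟩
  funext j
  have e1 := congrFun hw1 j
  have e2 := congrFun hw2 j
  apply Complex.ext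
  · rw [e1]
    simp [Complex.re_sum]
  · rw [e2]
    simp [Complex.im_sum]

/-- The signs of the corners. -/
private def C_Mult_sg : Fin 4 → ℂ := ![-1, 1, -1, 1]

private theorem C_Mult_sg_cz (z : ℂ) (k : Fin 4) : cz (0 : ℂ) z k = C_Mult_sg k * z := by
  fin_cases k <;> simp [cz, C_Mult_sg]

private theorem C_Mult_sg_add (k : Fin 4) : C_Mult_sg (k + 2) + C_Mult_sg (k + 3) = 0 := by
  fin_cases k
  · change (-1 : ℂ) + 1 = 0
    ring
  · change (1 : ℂ) + -1 = 0
    ring
  · change (-1 : ℂ) + 1 = 0
    ring
  · change (1 : ℂ) + -1 = 0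
    ring

private theorem C_Mult_sum4 (f : Fin 4 → ℂ) (k : Fin 4) :
    ∑ i, f i = f k + f (k + 1) + (f (k + 2) + f (k + 3)) := by
  rw [Fin.sum_univ_four]
  fin_cases k
  · change _ = f 0 + f 1 + (f 2 + f 3)
    ring
  · change _ = f 1 + f 2 + (f 3 + f 0)
    ring
  · change _ = f 2 + f 3 + (f 0 + f 1)
    ring
  · change _ = f 3 + f 0 + (f 1 + f 2)
    ring

open Classical in
/-- The solution of the outer and end equations with the given free coordinates. -/
private noncomputable def C_Mult_E (F : Finset ℕ) (cor : Fin c → Fin 4 → ℕ) :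
    (Vr c → ℂ) →ₗ[ℂ] (Vr c → ℂ) :=
  LinearMap.pi (fun j => match j with
    | Sum.inl v => LinearMap.proj (Sum.inl v)
    | Sum.inr p => if p ∈ Nd F cor then LinearMap.proj (Sum.inr p)
        else if cor p.1 p.2 ∈ F then C_Mult_sg p.2 • LinearMap.proj (Sum.inl p.1) else 0)

private theorem C_Mult_E_inl (u : Vr c → ℂ) (v : Fin c) :
    C_Mult_E F cor u (Sum.inl v) = u (Sum.inl v) := rfl

private theorem C_Mult_E_nd (u : Vr c → ℂ) {p : Fin c × Fin 4} (hp : p ∈ Nd F cor) :
    C_Mult_E F cor u (Sum.inr p) = u (Sum.inr p) := by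
  simp [C_Mult_E, hp]

private theorem C_Mult_E_end (u : Vr c → ℂ) {p : Fin c × Fin 4} (hp : p ∉ Nd F cor)
    (hF : cor p.1 p.2 ∈ F) :
    C_Mult_E F cor u (Sum.inr p) = C_Mult_sg p.2 * u (Sum.inl p.1) := by
  simp [C_Mult_E, hp, hF]

private theorem C_Mult_E_out (u : Vr c → ℂ) {p : Fin c × Fin 4} (hF : cor p.1 p.2 ∉ F) :
    C_Mult_E F cor u (Sum.inr p) = 0 := by
  have hp : p ∉ Nd F cor := by simp [Nd, hF]
  simp [C_Mult_E, hp, hF]

theorem multipliers (h : IsInt F cor x) (hb : IsBas F cor b x0) (g : Vr c → ℂ)
    (h0 : ∀ p, p ∉ Nd F cor → g (Sum.inr p) = 0) (hg : ∀ i, ∑ j, (b i j : ℂ) * g j = 0) :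
    ∃ (A : ℕ → ℂ) (B : Fin c → ℂ),
      (∀ p ∈ Nd F cor, g (Sum.inr p) + A (cor p.1 p.2) + B p.1 = 0) ∧
      (∀ v, ¬ IsEnd F cor v → g (Sum.inl v) = 0) ∧
      ∀ v, IsEnd F cor v → g (Sum.inl v) +
        ∑ k, (if cor v k ∈ F then (![-1, 1, -1, 1] k : ℂ) * A (cor v k) else 0) = 0 := by
  classical
  let E := C_Mult_E F cor
  let G : (Vr c → ℂ) →ₗ[ℂ] ℂ := (∑ j, g j • LinearMap.proj j) ∘ₗ E
  let L : (Vr c → ℂ) →ₗ[ℂ] ((Fin c ⊕ {f // f ∈ F}) → ℂ) :=
    (LinearMap.pi (fun κ => match κ with
      | Sum.inl v => if IsEnd F cor v then 0 else ∑ k, LinearMap.proj (Sum.inr (v, k))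
      | Sum.inr f => ∑ v, ∑ k, if cor v k = f.1 then LinearMap.proj (Sum.inr (v, k)) else 0)) ∘ₗ E
  have hG : ∀ u, G u = ∑ j, g j * E u j := by
    intro u
    simp [G]
  have hL1 : ∀ u v, L u (Sum.inl v) = if IsEnd F cor v then 0 else ∑ k, E u (Sum.inr (v, k)) := by
    intro u v
    simp only [L, LinearMap.comp_apply, LinearMap.pi_apply]
    split_ifs <;> simp
  have hL2 : ∀ u (f : {f // f ∈ F}), L u (Sum.inr f) =
      ∑ v, ∑ k, if cor v k = f.1 then E u (Sum.inr (v, k)) else 0 := by
    intro u f
    simp only [L, LinearMap.comp_apply, LinearMap.pi_apply, LinearMap.sum_apply]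
    refine Finset.sum_congr rfl fun v _ => Finset.sum_congr rfl fun k _ => ?_
    split_ifs <;> rfl
  have hker : G ∈ (LinearMap.ker L).dualAnnihilator := by
    rw [Submodule.mem_dualAnnihilator]
    intro u hu
    rw [LinearMap.mem_ker] at hu
    have hlin : IsLin F cor (0 : ℂ) (E u) := by
      refine ⟨?_, ?_, ?_, ?_⟩
      · intro v
        by_cases hv : IsEnd F cor v
        · obtain ⟨k, k0, k1, k2, k3⟩ := end_corners h v hv
          have hnd : ∀ i, (v, i) ∉ Nd F cor := by
            intro i hi
            simp only [Nd, Finset.mem_filter] at hi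
            exact hi.2.2 hv
          rw [C_Mult_sum4 _ k]
          have e0 := C_Mult_E_out (F := F) (cor := cor) u (p := (v, k)) k0
          have e1 := C_Mult_E_out (F := F) (cor := cor) u (p := (v, k + 1)) k1
          have e2 := C_Mult_E_end (F := F) (cor := cor) u (hnd (k + 2)) k2
          have e3 := C_Mult_E_end (F := F) (cor := cor) u (hnd (k + 3)) k3
          simp only [E, e0, e1, e2, e3]
          rw [← add_mul, C_Mult_sg_add]
          ring
        · have e := congrFun hu (Sum.inl v)
          rw [hL1] at e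
          simpa [hv] using e
      · intro f hf
        have e := congrFun hu (Sum.inr ⟨f, hf⟩)
        rw [hL2] at e
        exact e
      · intro v k hk
        exact C_Mult_E_out u hk
      · intro v k hv hk
        have hnd : (v, k) ∉ Nd F cor := by
          intro hi
          simp only [Nd, Finset.mem_filter] at hi
          exact hi.2.2 hv
        rw [C_Mult_sg_cz]
        exact C_Mult_E_end u hnd hk
    obtain ⟨w, hw⟩ := spanC hb _ hlin
    rw [hG, hw]
    have e : ∀ j, g j * ∑ i, w i * (b i j : ℂ) = ∑ i, w i * ((b i j : ℂ) * g j) := by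
      intro j
      rw [Finset.mul_sum]
      refine Finset.sum_congr rfl fun i _ => ?_
      ring
    simp only [e]
    rw [Finset.sum_comm]
    apply Finset.sum_eq_zero
    intro i _
    rw [← Finset.mul_sum, hg i, mul_zero]
  rw [← LinearMap.range_dualMap_eq_dualAnnihilator_ker] at hker
  obtain ⟨ψ, hψ⟩ := hker
  have hGL : ∀ u, G u = ψ (L u) := by
    intro u
    rw [← hψ]
    rfl
  set A' : ℕ → ℂ := fun f => if hf : f ∈ F then ψ (fun κ => if Sum.inr ⟨f, hf⟩ = κ then 1 else 0)
    else 0 with hA'
  set B' : Fin c → ℂ := fun v => if IsEnd F cor v then 0 else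
    ψ (fun κ => if Sum.inl v = κ then 1 else 0) with hB'
  have hid : ∀ u, ∑ j, g j * E u j = ∑ v, ∑ k, (A' (cor v k) + B' v) * E u (Sum.inr (v, k)) := by
    intro u
    rw [← hG, hGL, LinearMap.pi_apply_eq_sum_univ ψ, Fintype.sum_sum_type]
    have s1 : ∑ v, L u (Sum.inl v) • ψ (fun κ => if Sum.inl v = κ then 1 else 0) =
        ∑ v, ∑ k, B' v * E u (Sum.inr (v, k)) := by
      refine Finset.sum_congr rfl fun v _ => ?_
      rw [hL1, ← Finset.mul_sum, smul_eq_mul]
      simp only [hB']
      split_ifs
      · simp
      · ring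
    have s2 : ∑ f : {f // f ∈ F}, L u (Sum.inr f) • ψ (fun κ => if Sum.inr f = κ then 1 else 0) =
        ∑ v, ∑ k, A' (cor v k) * E u (Sum.inr (v, k)) := by
      simp only [hL2, smul_eq_mul, Finset.sum_mul]
      rw [Finset.sum_comm]
      refine Finset.sum_congr rfl fun v _ => ?_
      rw [Finset.sum_comm]
      refine Finset.sum_congr rfl fun k _ => ?_
      by_cases hk : cor v k ∈ F
      · rw [Finset.sum_eq_single ⟨cor v k, hk⟩]
        · simp only [if_true, hA', hk, dif_pos]
          ring
        · intro f _ hf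
          have : ¬ cor v k = f.1 := by
            intro h
            apply hf
            exact Subtype.ext h.symm
          simp [this]
        · intro h
          exact absurd (Finset.mem_univ _) h
      · have e1 := C_Mult_E_out (F := F) (cor := cor) u (p := (v, k)) hk
        rw [Finset.sum_eq_zero, show E u (Sum.inr (v, k)) = 0 from e1, mul_zero]
        intro f _
        have : ¬ cor v k = f.1 := by
          intro h
          apply hk
          rw [h]
          exact f.2
        simp [this]
    rw [s1, s2, ← Finset.sum_add_distrib]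
    refine Finset.sum_congr rfl fun v _ => ?_
    rw [← Finset.sum_add_distrib]
    refine Finset.sum_congr rfl fun k _ => ?_
    ring
  refine ⟨fun f => -A' f, fun v => -B' v, ?_, ?_, ?_⟩
  · intro p hp
    have hEu : ∀ j, E (fun i => if i = Sum.inr p then 1 else 0) j =
        if j = Sum.inr p then 1 else 0 := by
      rintro (v | q)
      · change C_Mult_E F cor _ (Sum.inl v) = _
        rw [C_Mult_E_inl]
      · change C_Mult_E F cor _ (Sum.inr q) = _
        by_cases hq : q ∈ Nd F cor
        · rw [C_Mult_E_nd _ hq]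
        · have hqp : ¬ q = p := by
            rintro rfl
            exact hq hp
          by_cases hF : cor q.1 q.2 ∈ F
          · rw [C_Mult_E_end _ hq hF]
            simp [hqp]
          · rw [C_Mult_E_out _ hF]
            simp [hqp]
    have e := hid (fun i => if i = Sum.inr p then 1 else 0)
    simp only [hEu, mul_ite, mul_one, mul_zero, Sum.inr.injEq] at e
    rw [Finset.sum_ite_eq' Finset.univ (Sum.inr p)] at e
    simp only [Finset.mem_univ, if_true] at e
    rw [e, ← Fintype.sum_prod_type' (f := fun v k => if (v, k) = p then A' (cor v k) + B' v else 0)]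
    simp only [Prod.mk.eta, Finset.sum_ite_eq', Finset.mem_univ, if_true]
    ring
  · intro v hv
    have hEu : ∀ j, E (fun i => if i = Sum.inl v then 1 else 0) j =
        if j = Sum.inl v then 1 else 0 := by
      rintro (v' | q)
      · change C_Mult_E F cor _ (Sum.inl v') = _
        rw [C_Mult_E_inl]
      · change C_Mult_E F cor _ (Sum.inr q) = _
        by_cases hq : q ∈ Nd F cor
        · rw [C_Mult_E_nd _ hq]
        · by_cases hF : cor q.1 q.2 ∈ F
          · have hqv : ¬ q.1 = v := by
              rintro h1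
              apply hq
              simp only [Nd, Finset.mem_filter, Finset.mem_univ, true_and]
              exact ⟨hF, by rw [h1]; exact hv⟩
            rw [C_Mult_E_end _ hq hF]
            simp [hqv]
          · rw [C_Mult_E_out _ hF]
            simp
    have e := hid (fun i => if i = Sum.inl v then 1 else 0)
    simp only [hEu, mul_ite, mul_one, mul_zero, reduceCtorEq, if_false,
      Finset.sum_const_zero] at e
    rw [Finset.sum_ite_eq' Finset.univ (Sum.inl v)] at e
    simpa using e
  · intro v hv
    have hnd : ∀ i, (v, i) ∉ Nd F cor := by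
      intro i hi
      simp only [Nd, Finset.mem_filter] at hi
      exact hi.2.2 hv
    have hEu : ∀ v' k, E (fun i => if i = Sum.inl v then 1 else 0) (Sum.inr (v', k)) =
        if v' = v then (if cor v k ∈ F then C_Mult_sg k else 0) else 0 := by
      intro v' k
      change C_Mult_E F cor _ (Sum.inr (v', k)) = _
      by_cases hv' : v' = v
      · subst hv'
        by_cases hF : cor v' k ∈ F
        · rw [C_Mult_E_end _ (hnd k) hF]
          simp [hF]
        · rw [C_Mult_E_out _ hF]
          simp [hF]
      · by_cases hq : (v', k) ∈ Nd F cor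
        · rw [C_Mult_E_nd _ hq]
          simp [hv']
        · by_cases hF : cor v' k ∈ F
          · rw [C_Mult_E_end _ hq hF]
            simp [hv']
          · rw [C_Mult_E_out _ hF]
            simp [hv']
    have e := hid (fun i => if i = Sum.inl v then 1 else 0)
    rw [Fintype.sum_sum_type] at e
    have s1 : ∑ v', g (Sum.inl v') * E (fun i => if i = Sum.inl v then 1 else 0) (Sum.inl v') =
        g (Sum.inl v) := by
      have : ∀ v', E (fun i => if i = Sum.inl v then 1 else 0) (Sum.inl v') =
          if v' = v then 1 else 0 := by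
        intro v'
        change C_Mult_E F cor _ (Sum.inl v') = _
        rw [C_Mult_E_inl]
        simp
      simp [this]
    have s2 : ∑ q, g (Sum.inr q) * E (fun i => if i = Sum.inl v then 1 else 0) (Sum.inr q) =
        0 := by
      apply Finset.sum_eq_zero
      rintro ⟨v', k⟩ _
      rw [hEu]
      by_cases hv' : v' = v
      · subst hv'
        rw [h0 _ (hnd k), zero_mul]
      · simp [hv']
    rw [s1, s2, add_zero] at e
    rw [e]
    have s3 : ∀ v' k, (A' (cor v' k) + B' v') *
        E (fun i => if i = Sum.inl v then 1 else 0) (Sum.inr (v', k)) =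
        if v' = v then (if cor v k ∈ F then A' (cor v k) * C_Mult_sg k else 0) else 0 := by
      intro v' k
      rw [hEu]
      by_cases hv' : v' = v
      · subst hv'
        simp only [if_true]
        have : B' v' = 0 := by simp [hB', hv]
        rw [this]
        split_ifs <;> ring
      · simp [hv']
    simp only [s3]
    rw [Finset.sum_comm]
    simp only [Finset.sum_ite_eq', Finset.mem_univ, if_true]
    rw [← Finset.sum_add_distrib]
    apply Finset.sum_eq_zero
    intro k _
    split_ifs
    · change _ + C_Mult_sg k * _ = 0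
      ring
    · ring

end Pool.Agent.H63.CLK
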