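import Pool.Agent.H63.CLK.D_Crit

/-!
# CLK part D, D_Nice: consequences of an interior point

* `inn`: if both corners `k`, `k - 1` of a twist region `v` which is not an end are outer, then `σ = 0` there, and the other two corners `k + 1`, `k + 2`
  have `σ < csr` (or `σ = 0 < csr`), so the sum is `< csr (k+1) + csr (k+2) = 1`: contradiction to `sumv`.
* `end0`: `T.isEnd v = true` means `T.leg v (T.one v) = 0`, so `hG.zero` gives the first two statements. By `fin`, `out` and `sumv`
  `1 = σ v (one+1) + σ v (one+2)`, each is `csr` or `0`, `csr (one+1) + csr (one+2) = 1` and both are in `(0,1)`: so both corners are bounded.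
* `deg`: by `hT.bdy f` (`IsBd.mem`) the corners of `f` are `bd f j`, `j < deg f`; `deg f = 0`: the sum `sumf` is `0`; `deg f = 1`: the sum is
  one `σ v k ≤ csr < 1`.
-/

namespace Pool.Agent.H63.CLK

variable {c : ℕ}

private theorem D_Nice_csr_lt {t : ℝ} (ht : 1 / 2 < t ∧ t < 1) (k : Fin 4) :
    0 < csr t k ∧ csr t k < 1 := by
  obtain ⟨h1, h2⟩ := ht
  fin_cases k
  · change 0 < 1 - t ∧ 1 - t < 1
    constructor <;> linarith
  · change 0 < t ∧ t < 1
    constructor <;> linarith
  · change 0 < 1 - t ∧ 1 - t < 1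
    constructor <;> linarith
  · change 0 < t ∧ t < 1
    constructor <;> linarith

private theorem D_Nice_csr_add (t : ℝ) (k : Fin 4) : csr t (k + 1) + csr t (k + 2) = 1 := by
  fin_cases k
  · change t + (1 - t) = 1
    ring
  · change (1 - t) + t = 1
    ring
  · change t + (1 - t) = 1
    ring
  · change (1 - t) + t = 1
    ring

private theorem D_Nice_sum (g : Fin 4 → ℝ) (k : Fin 4) :
    ∑ j, g j = g k + g (k - 1) + (g (k + 1) + g (k + 2)) := by
  rw [Fin.sum_univ_four]
  fin_cases k
  · change g 0 + g 1 + g 2 + g 3 = g 0 + g 3 + (g 1 + g 2)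
    ring
  · change g 0 + g 1 + g 2 + g 3 = g 1 + g 0 + (g 2 + g 3)
    ring
  · change g 0 + g 1 + g 2 + g 3 = g 2 + g 1 + (g 3 + g 0)
    ring
  · change g 0 + g 1 + g 2 + g 3 = g 3 + g 2 + (g 0 + g 1)
    ring

private theorem D_Nice_lt_one {T : TData c} {τ : Fin c → ℝ} {σ : Fin c → Fin 4 → ℝ}
    (h : Adm T τ σ) (v : Fin c) (k : Fin 4) : σ v k < 1 := by
  have h0 := D_Nice_csr_lt (h.tau v) k
  by_cases h1 : T.cor v k ∈ T.F
  · cases h2 : T.isEnd v with
    | false => exact lt_trans (h.pos v k h1 h2).2 h0.2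
    | true =>
      rw [h.fin v k h1 h2]
      exact h0.2
  · rw [h.out v k h1]
    exact one_pos

theorem nice_of_adm {w : List TPiece} {T : TData c} (hT : T.Of w) (hG : T.Good)
    {τ : Fin c → ℝ} {σ : Fin c → Fin 4 → ℝ} (h : Adm T τ σ) : T.Nice := by
  refine ⟨?_, ?_, ?_⟩
  · intro v k hv
    by_contra hcon
    rw [not_or] at hcon
    obtain ⟨h1, h2⟩ := hcon
    have h3 := h.sumv v
    rw [D_Nice_sum _ k, h.out v k h1, h.out v (k - 1) h2] at h3
    have key : ∀ j, σ v j < csr (τ v) j := by
      intro j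
      by_cases h4 : T.cor v j ∈ T.F
      · exact (h.pos v j h4 hv).2
      · rw [h.out v j h4]
        exact (D_Nice_csr_lt (h.tau v) j).1
    have h5 := key (k + 1)
    have h6 := key (k + 2)
    have h7 := D_Nice_csr_add (τ v) k
    linarith
  · intro v hv
    have hz : T.leg v (T.one v) = 0 := by
      have hv' := hv
      unfold TData.isEnd at hv'
      exact of_decide_eq_true hv'
    obtain ⟨h1, h2⟩ := hG.zero v (T.one v) hz
    have h3 := h.sumv v
    rw [D_Nice_sum _ (T.one v), h.out v _ h1, h.out v _ h2] at h3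
    have h5 := D_Nice_lt_one h v (T.one v + 1)
    have h6 := D_Nice_lt_one h v (T.one v + 2)
    refine ⟨h1, h2, ?_, ?_⟩
    · by_contra h7
      rw [h.out v _ h7] at h3
      linarith
    · by_contra h7
      rw [h.out v _ h7] at h3
      linarith
  · intro f hf
    by_contra hcon
    have hs := h.sumf f hf
    have hB := hT.bdy f hf
    have h1 : ∑ p : Fin c × Fin 4, (if T.cor p.1 p.2 = f then σ p.1 p.2 else 0) = 1 := by
      rw [Fintype.sum_prod_type]
      exact hs
    have h2 : ∑ p : Fin c × Fin 4, (if T.cor p.1 p.2 = f then σ p.1 p.2 else 0) < 1 := by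
      have h3 : ∑ p : Fin c × Fin 4, (if T.cor p.1 p.2 = f then σ p.1 p.2 else 0) =
          (if T.cor (T.bd f 0).1 (T.bd f 0).2 = f then σ (T.bd f 0).1 (T.bd f 0).2 else 0) := by
        apply Finset.sum_eq_single (T.bd f 0)
        · intro p _ hp
          rw [if_neg]
          intro h4
          obtain ⟨j, hj, hj2⟩ := (hB.mem p).1 h4
          have h5 : j = 0 := by omega
          rw [h5] at hj2
          exact hp hj2.symm
        · intro h4
          exact absurd (Finset.mem_univ _) h4
      rw [h3]
      split_ifs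
      · exact D_Nice_lt_one h _ _
      · exact one_pos
    linarith

end Pool.Agent.H63.CLK
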