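import Pool.Agent.H63.CLK.C_Conn
import Pool.Agent.H63.CLK.C_Poly
import Pool.Agent.H63.CLK.D_Nice

/-!
# The number of variables of the state sum

For a template whose only twist regions at two adjacent outer corners are the two ends of the strand `0`: `d + c = card Nd + 3`.
The solutions of the homogeneous equations are the kernel of a matrix with `c + card F = 2 c` rows and `c + card Nd` columns; the kernel of the
transposed matrix is computed by the connectivity of the graph.
-/

set_option autoImplicit false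

namespace Pool.Agent.H63.CLK

open Pool.Agent.H63.VC7.Hyp

variable {c d : ℕ} {b : Fin d → Vr c → ℤ} {x0 : Vr c → ℤ} {x : Vr c → ℝ}

private theorem C_Rank_isEnd {w : List TPiece} {T : TData c} (hT : T.Of w) {v : Fin c} {k : Fin 4}
    (h : T.leg v k = 0) : T.isEnd v = true := by
  have h1 := hT.one v k h
  unfold TData.isEnd
  rw [h1, decide_eq_true_iff]
  exact h

private theorem C_Rank_leg {T : TData c} {v : Fin c} (h : T.isEnd v = true) :
    T.leg v (T.one v) = 0 := by
  unfold TData.isEnd at h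
  exact decide_eq_true_iff.1 h

private theorem C_Rank_isEnd_IsEnd {T : TData c} (hG : T.Good) {v : Fin c}
    (h : T.isEnd v = true) : IsEnd T.F T.cor v := by
  obtain ⟨h1, h2⟩ := hG.zero v (T.one v) (C_Rank_leg h)
  exact ⟨T.one v - 1, h2, by rwa [sub_add_cancel]⟩

/-- The two twist regions at the strand `0`. -/
private theorem C_Rank_two {w : List TPiece} {T : TData c} (hT : T.Of w) (hG : T.Good)
    (hF : T.F.card = c) (hc : 0 < c) : ∃ v1 v2 : Fin c, v1 ≠ v2 ∧ T.isEnd v1 = true ∧
      T.isEnd v2 = true ∧ ∀ v, T.isEnd v = true → v = v1 ∨ v = v2 := by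
  obtain ⟨p, q, hpq, hp⟩ := exists_zero hT hG hF hc
  have hq : T.leg q.1 q.2 = 0 := by rw [← hpq.2]; exact hp
  refine ⟨p.1, q.1, ?_, C_Rank_isEnd hT hp, C_Rank_isEnd hT hq, ?_⟩
  · intro h
    apply hpq.1
    refine Prod.ext h ?_
    rw [← hT.one p.1 p.2 hp, ← hT.one q.1 q.2 hq, h]
  · intro v hv
    have h1 := C_Rank_leg hv
    by_cases h2 : p = (v, T.one v)
    · left
      rw [h2]
    · right
      have h3 : Mate T.leg p (v, T.one v) := ⟨h2, by rw [hp, h1]⟩
      rw [hG.un p q _ hpq h3]

/-- The end vertices. -/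
theorem end_iff {w : List TPiece} {T : TData c} (hT : T.Of w) (hG : T.Good) (hF : T.F.card = c)
    (hpr : ∃ v1 v2 : Fin c, ∀ v, IsEnd T.F T.cor v → v = v1 ∨ v = v2) (v : Fin c) :
    IsEnd T.F T.cor v ↔ T.isEnd v = true := by
  obtain ⟨v1, v2, h12⟩ := hpr
  have hc : 0 < c := lt_of_le_of_lt (Nat.zero_le _) v1.2
  obtain ⟨u1, u2, hne, hu1, hu2, -⟩ := C_Rank_two hT hG hF hc
  refine ⟨fun h => ?_, C_Rank_isEnd_IsEnd hG⟩
  have a1 := h12 u1 (C_Rank_isEnd_IsEnd hG hu1)
  have a2 := h12 u2 (C_Rank_isEnd_IsEnd hG hu2)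
  have a3 := h12 v h
  have a4 : v = u1 ∨ v = u2 := by
    rcases a1 with rfl | rfl <;> rcases a2 with rfl | rfl <;> rcases a3 with rfl | rfl <;>
      first | exact Or.inl rfl | exact Or.inr rfl | exact absurd rfl hne
  rcases a4 with rfl | rfl
  · exact hu1
  · exact hu2

theorem adm_of_int {T : TData c} (hend : ∀ v, IsEnd T.F T.cor v ↔ T.isEnd v = true)
    (h : IsInt T.F T.cor x) :
    Adm T (fun v => x (Sum.inl v)) (fun v k => x (Sum.inr (v, k))) where
  tau v := ⟨h.half v, h.lt1 v⟩
  out v k hk := h.ang.out v k hk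
  pos v k hk hv := by
    have h1 : ¬ IsEnd T.F T.cor v := fun h2 => by
      rw [(hend v).1 h2] at hv
      exact absurd hv (by decide)
    exact ⟨h.pos v k hk h1, h.lt v k hk h1⟩
  fin v k hk hv := (ang_lin h.ang).endv v k ((hend v).2 hv) hk
  sumv v := h.ang.vert v
  sumf f hf := h.ang.face f hf

/-! ### Faces at the two sides of a strand -/

private theorem C_Rank_face1 {w : List TPiece} {T : TData c} (hT : T.Of w) (hG : T.Good)
    {p q : Fin c × Fin 4} (h : Mate T.leg p q) (hp : T.cor p.1 (p.2 - 1) ∈ T.F) :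
    T.cor q.1 q.2 = T.cor p.1 (p.2 - 1) := by
  have hb := hT.bdy _ hp
  obtain ⟨j, _, hj⟩ := (hb.mem (p.1, p.2 - 1)).1 rfl
  have h1 := hb.mate j
  rw [hj] at h1
  have h2 : Mate T.leg p (T.bd (T.cor p.1 (p.2 - 1)) (j + 1)) := by
    have e : ((p.1, p.2 - 1).1, (p.1, p.2 - 1).2 + 1) = p := by
      refine Prod.ext rfl ?_
      exact sub_add_cancel _ _
    rwa [e] at h1
  have h3 := hG.un p _ _ h2 h
  -- the corner `bd (j + 1)` belongs to the face
  have h4 : ∃ i < T.deg (T.cor p.1 (p.2 - 1)), T.bd (T.cor p.1 (p.2 - 1)) i = q := by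
    have hd : 0 < T.deg (T.cor p.1 (p.2 - 1)) := by omega
    refine ⟨(j + 1) % T.deg (T.cor p.1 (p.2 - 1)), Nat.mod_lt _ hd, ?_⟩
    rw [← h3]
    have hper : ∀ n i, T.bd (T.cor p.1 (p.2 - 1)) (i + n * T.deg (T.cor p.1 (p.2 - 1))) =
        T.bd (T.cor p.1 (p.2 - 1)) i := by
      intro n
      induction n with
      | zero => intro i; simp
      | succ n ih =>
        intro i
        rw [Nat.succ_mul, ← add_assoc, hb.per, ih]
    have := hper ((j + 1) / T.deg (T.cor p.1 (p.2 - 1)))
      ((j + 1) % T.deg (T.cor p.1 (p.2 - 1)))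
    rw [← this]
    congr 1
    have h5 := Nat.mod_add_div (j + 1) (T.deg (T.cor p.1 (p.2 - 1)))
    rw [mul_comm] at h5
    exact h5.symm ▸ rfl
  exact (hb.mem q).2 h4

private theorem C_Rank_fin (o k : Fin 4) (h : k ≠ o) : k = o + 1 ∨ k = o + 2 ∨ k = o + 3 := by
  revert o k
  decide

private theorem C_Rank_fin' (o : Fin 4) : o + 3 - 1 = o + 2 := by
  revert o
  decide

/-- Every strand except the strand `0` is at a bounded face. -/
private theorem C_Rank_face {w : List TPiece} {T : TData c} (hT : T.Of w) (hG : T.Good)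
    (hN : T.Nice) {p q : Fin c × Fin 4} (h : Mate T.leg p q) (h0 : T.leg p.1 p.2 ≠ 0) :
    ∃ k k' : Fin 4, T.cor p.1 k ∈ T.F ∧ T.cor q.1 k' = T.cor p.1 k := by
  have h1 : T.cor p.1 p.2 ∈ T.F ∨ T.cor p.1 (p.2 - 1) ∈ T.F := by
    by_cases he : T.isEnd p.1 = true
    · obtain ⟨e1, e2, e3, e4⟩ := hN.end0 p.1 he
      have h2 : p.2 ≠ T.one p.1 := by
        intro h3
        apply h0
        rw [h3]
        exact C_Rank_leg he
      generalize T.one p.1 = o at *
      generalize p.2 = k at *
      rcases C_Rank_fin o k h2 with rfl | rfl | rfl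
      · exact Or.inl e3
      · exact Or.inl e4
      · right
        rwa [C_Rank_fin' o]
    · exact hN.inn p.1 p.2 (by simpa using he)
  rcases h1 with h1 | h1
  · -- use the mates in the other order
    have hq : T.cor q.1 (q.2 - 1) ∈ T.F ∨ T.cor q.1 (q.2 - 1) ∉ T.F := em _
    have hb := hT.bdy _ h1
    obtain ⟨j, hj1, hj⟩ := (hb.mem p).1 rfl
    have hd : 0 < T.deg (T.cor p.1 p.2) := by omega
    -- the predecessor
    have h2 := hb.mate (j + T.deg (T.cor p.1 p.2) - 1)
    have h3 : T.bd (T.cor p.1 p.2) (j + T.deg (T.cor p.1 p.2) - 1 + 1) = p := by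
      rw [show j + T.deg (T.cor p.1 p.2) - 1 + 1 = j + T.deg (T.cor p.1 p.2) by omega, hb.per, hj]
    rw [h3] at h2
    have h4 := hG.un p _ _ h h2.symm
    have h5 : T.cor (T.bd (T.cor p.1 p.2) (j + T.deg (T.cor p.1 p.2) - 1)).1
        (T.bd (T.cor p.1 p.2) (j + T.deg (T.cor p.1 p.2) - 1)).2 = T.cor p.1 p.2 := by
      rw [hb.mem]
      by_cases hj0 : j = 0
      · subst hj0
        exact ⟨T.deg (T.cor p.1 p.2) - 1, by omega, by rw [zero_add]⟩
      · refine ⟨j - 1, by omega, ?_⟩
        rw [← hb.per (j - 1)]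
        congr 1
        omega
    refine ⟨p.2, q.2 - 1, h1, ?_⟩
    rw [h4]
    simp only
    rw [add_sub_cancel_right]
    exact h5
  · exact ⟨p.2 - 1, q.2, h1, C_Rank_face1 hT hG h h1⟩

/-! ### The matrix -/

open Classical in
/-- The matrix of the homogeneous equations. -/
private noncomputable def C_Rank_A (F : Finset ℕ) (cor : Fin c → Fin 4 → ℕ) :
    Matrix (Fin c ⊕ F) (Fin c ⊕ Nd F cor) ℝ := fun r s =>
  match r, s with
  | Sum.inl _, Sum.inl _ => 0
  | Sum.inl v, Sum.inr p => if p.1.1 = v then 1 else 0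
  | Sum.inr f, Sum.inl v => if IsEnd F cor v then
      ∑ k, (if cor v k = f then cz (0 : ℝ) 1 k else 0) else 0
  | Sum.inr f, Sum.inr p => if cor p.1.1 p.1.2 = f then 1 else 0

private theorem C_Rank_mul_inl (F : Finset ℕ) (cor : Fin c → Fin 4 → ℕ)
    (y : Fin c ⊕ Nd F cor → ℝ) (v : Fin c) :
    (C_Rank_A F cor).mulVec y (Sum.inl v) =
      ∑ p : Nd F cor, if p.1.1 = v then y (Sum.inr p) else 0 := by
  classical
  unfold Matrix.mulVec
  rw [dotProduct, Fintype.sum_sum_type]
  simp [C_Rank_A]

private theorem C_Rank_mul_inr (F : Finset ℕ) (cor : Fin c → Fin 4 → ℕ)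
    (y : Fin c ⊕ Nd F cor → ℝ) (f : F) :
    (C_Rank_A F cor).mulVec y (Sum.inr f) =
      (∑ v, (open Classical in if IsEnd F cor v then
        ∑ k, (if cor v k = f then cz (0 : ℝ) 1 k else 0) else 0) * y (Sum.inl v)) +
      ∑ p : Nd F cor, if cor p.1.1 p.1.2 = f then y (Sum.inr p) else 0 := by
  classical
  unfold Matrix.mulVec
  rw [dotProduct, Fintype.sum_sum_type]
  simp [C_Rank_A]

private theorem C_Rank_tmul_inl (F : Finset ℕ) (cor : Fin c → Fin 4 → ℕ)
    (y : Fin c ⊕ F → ℝ) (v : Fin c) :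
    ((C_Rank_A F cor).transpose).mulVec y (Sum.inl v) =
      ∑ f : F, (open Classical in if IsEnd F cor v then
        ∑ k, (if cor v k = f then cz (0 : ℝ) 1 k else 0) else 0) * y (Sum.inr f) := by
  classical
  unfold Matrix.mulVec
  rw [dotProduct, Fintype.sum_sum_type]
  simp [C_Rank_A, Matrix.transpose_apply]

private theorem C_Rank_tmul_inr (F : Finset ℕ) (cor : Fin c → Fin 4 → ℕ)
    (y : Fin c ⊕ F → ℝ) (p : Nd F cor) :
    ((C_Rank_A F cor).transpose).mulVec y (Sum.inr p) =
      y (Sum.inl p.1.1) + ∑ f : F, (if cor p.1.1 p.1.2 = f then y (Sum.inr f) else 0) := by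
  classical
  unfold Matrix.mulVec
  rw [dotProduct, Fintype.sum_sum_type]
  simp [C_Rank_A, Matrix.transpose_apply]

private theorem C_Rank_cz (t : ℝ) (k : Fin 4) : cz (0 : ℝ) t k = cz (0 : ℝ) 1 k * t := by
  fin_cases k <;> simp [cz]

private theorem C_Rank_endsum (g : Fin 4 → Prop) [DecidablePred g] (o : Fin 4) (h1 : ¬ g o)
    (h2 : ¬ g (o - 1)) (h3 : g (o + 1)) (h4 : g (o + 2)) (t : ℝ) :
    ∑ k, (if g k then cz (0 : ℝ) t k else 0) = 0 := by
  have f1 : (2 : Fin 4) + 1 = 3 := by decide
  have f2 : (3 : Fin 4) + 1 = 0 := by decide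
  have f3 : (2 : Fin 4) + 2 = 0 := by decide
  have f4 : (3 : Fin 4) + 2 = 1 := by decide
  have f5 : (0 : Fin 4) - 1 = 3 := by decide
  have f6 : (2 : Fin 4) - 1 = 1 := by decide
  have f7 : (3 : Fin 4) - 1 = 2 := by decide
  have f8 : (1 : Fin 4) + 1 = 2 := by decide
  have f9 : (1 : Fin 4) + 2 = 3 := by decide
  rw [Fin.sum_univ_four]
  fin_cases o
  · simp only [Fin.zero_eta, zero_add, f5] at h1 h2 h3 h4
    rw [if_neg h1, if_pos h3, if_pos h4, if_neg h2]
    simp [cz]
  · simp only [Fin.mk_one, f8, f9, sub_self] at h1 h2 h3 h4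
    rw [if_neg h2, if_neg h1, if_pos h3, if_pos h4]
    simp [cz]
  · simp only [Fin.reduceFinMk, f1, f3, f6] at h1 h2 h3 h4
    rw [if_pos h4, if_neg h2, if_neg h1, if_pos h3]
    simp [cz]
  · simp only [Fin.reduceFinMk, f2, f4, f7] at h1 h2 h3 h4
    rw [if_pos h3, if_pos h4, if_neg h2, if_neg h1]
    simp [cz]

/-- The part of the solution at the nondegenerate corners. -/
private noncomputable def C_Rank_z (F : Finset ℕ) (cor : Fin c → Fin 4 → ℕ)
    (y : Fin c ⊕ Nd F cor → ℝ) (p : Fin c × Fin 4) : ℝ :=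
  open Classical in if h : p ∈ Nd F cor then y (Sum.inr ⟨p, h⟩) else 0

/-- The solution given by its values at the nondegenerate corners and twist regions. -/
private noncomputable def C_Rank_ext (F : Finset ℕ) (cor : Fin c → Fin 4 → ℕ)
    (y : Fin c ⊕ Nd F cor → ℝ) : Vr c → ℝ :=
  Sum.elim (fun v => y (Sum.inl v)) (fun p => C_Rank_z F cor y p +
    open Classical in if IsEnd F cor p.1 ∧ cor p.1 p.2 ∈ F then cz 0 (y (Sum.inl p.1)) p.2 else 0)

private theorem C_Rank_mem {F : Finset ℕ} {cor : Fin c → Fin 4 → ℕ} {p : Fin c × Fin 4} :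
    p ∈ Nd F cor ↔ cor p.1 p.2 ∈ F ∧ ¬ IsEnd F cor p.1 := by
  classical
  unfold Nd
  rw [Finset.mem_filter]
  simp

private theorem C_Rank_sum (F : Finset ℕ) (cor : Fin c → Fin 4 → ℕ)
    (y : Fin c ⊕ Nd F cor → ℝ) (G : Fin c × Fin 4 → Prop) [DecidablePred G] :
    ∑ p : Nd F cor, (if G p.1 then y (Sum.inr p) else 0) =
      ∑ p : Fin c × Fin 4, (if G p then C_Rank_z F cor y p else 0) := by
  classical
  have h1 : ∑ p : Fin c × Fin 4, (if G p then C_Rank_z F cor y p else 0) =
      ∑ p ∈ Nd F cor, (if G p then C_Rank_z F cor y p else 0) := by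
    symm
    refine Finset.sum_subset (Finset.subset_univ _) fun p _ hp => ?_
    unfold C_Rank_z
    rw [dif_neg hp, ite_self]
  rw [h1]
  refine Eq.trans ?_
    (Finset.sum_coe_sort (Nd F cor) (fun p => if G p then C_Rank_z F cor y p else 0))
  refine Finset.sum_congr rfl fun p _ => ?_
  unfold C_Rank_z
  rw [dif_pos p.2]

private theorem C_Rank_ext_vert {T : TData c} (hN : T.Nice)
    (hend : ∀ v, IsEnd T.F T.cor v ↔ T.isEnd v = true) (y : Fin c ⊕ Nd T.F T.cor → ℝ) (v : Fin c) :
    ∑ k, C_Rank_ext T.F T.cor y (Sum.inr (v, k)) =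
      (C_Rank_A T.F T.cor).mulVec y (Sum.inl v) := by
  classical
  rw [C_Rank_mul_inl, C_Rank_sum T.F T.cor y (fun p => p.1 = v), Fintype.sum_prod_type,
    Finset.sum_eq_single v (fun u _ hu => by simp [hu]) (fun h => absurd (Finset.mem_univ _) h)]
  simp only [C_Rank_ext, Sum.elim_inr, if_true]
  rw [Finset.sum_add_distrib, add_eq_left]
  by_cases he : IsEnd T.F T.cor v
  · simp only [he, true_and]
    obtain ⟨e1, e2, e3, e4⟩ := hN.end0 v ((hend v).1 he)
    exact C_Rank_endsum (fun k => T.cor v k ∈ T.F) _ e1 e2 e3 e4 _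
  · simp [he]

private theorem C_Rank_ext_face (F : Finset ℕ) (cor : Fin c → Fin 4 → ℕ)
    (y : Fin c ⊕ Nd F cor → ℝ) (f : F) :
    ∑ v, ∑ k, (if cor v k = f then C_Rank_ext F cor y (Sum.inr (v, k)) else 0) =
      (C_Rank_A F cor).mulVec y (Sum.inr f) := by
  classical
  rw [C_Rank_mul_inr, C_Rank_sum F cor y (fun p => cor p.1 p.2 = f), Fintype.sum_prod_type,
    ← Finset.sum_add_distrib]
  refine Finset.sum_congr rfl fun v _ => ?_
  by_cases he : IsEnd F cor v
  · rw [if_pos he, Finset.sum_mul, ← Finset.sum_add_distrib]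
    refine Finset.sum_congr rfl fun k _ => ?_
    by_cases hk : cor v k = f
    · have hkF : cor v k ∈ F := by rw [hk]; exact f.2
      simp only [hk, if_true, C_Rank_ext, Sum.elim_inr, he, true_and]
      rw [if_pos f.2, C_Rank_cz]
      ring
    · simp [hk]
  · rw [if_neg he, zero_mul, zero_add]
    refine Finset.sum_congr rfl fun k _ => ?_
    by_cases hk : cor v k = f
    · simp only [hk, if_true, C_Rank_ext, Sum.elim_inr, he, false_and, if_false, add_zero]
    · simp [hk]

private theorem C_Rank_ext_lin {T : TData c} (hN : T.Nice)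
    (hend : ∀ v, IsEnd T.F T.cor v ↔ T.isEnd v = true) (y : Fin c ⊕ Nd T.F T.cor → ℝ)
    (hy : (C_Rank_A T.F T.cor).mulVec y = 0) :
    IsLin T.F T.cor (0 : ℝ) (C_Rank_ext T.F T.cor y) where
  vert v := by rw [C_Rank_ext_vert hN hend, hy]; rfl
  face f hf := by
    have := C_Rank_ext_face T.F T.cor y ⟨f, hf⟩
    rw [hy] at this
    exact this
  out v k hk := by
    have h1 : (v, k) ∉ Nd T.F T.cor := fun h => hk (C_Rank_mem.1 h).1
    simp only [C_Rank_ext, Sum.elim_inr, C_Rank_z, dif_neg h1]
    rw [if_neg (fun h => hk h.2), add_zero]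
  endv v k he hk := by
    have h1 : (v, k) ∉ Nd T.F T.cor := fun h => (C_Rank_mem.1 h).2 he
    simp only [C_Rank_ext, Sum.elim_inr, Sum.elim_inl, C_Rank_z, dif_neg h1]
    rw [if_pos ⟨he, hk⟩, zero_add]

/-- The restriction of a solution. -/
private def C_Rank_res (F : Finset ℕ) (cor : Fin c → Fin 4 → ℕ) (x : Vr c → ℝ) :
    Fin c ⊕ Nd F cor → ℝ :=
  Sum.elim (fun v => x (Sum.inl v)) (fun p => x (Sum.inr p.1))

private theorem C_Rank_ext_res {F : Finset ℕ} {cor : Fin c → Fin 4 → ℕ} {x : Vr c → ℝ}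
    (h : IsLin F cor (0 : ℝ) x) : C_Rank_ext F cor (C_Rank_res F cor x) = x := by
  classical
  funext j
  rcases j with v | ⟨v, k⟩
  · rfl
  · simp only [C_Rank_ext, Sum.elim_inr, C_Rank_z, C_Rank_res, Sum.elim_inl]
    by_cases hk : cor v k ∈ F
    · by_cases he : IsEnd F cor v
      · rw [dif_neg (fun h' => (C_Rank_mem.1 h').2 he), if_pos ⟨he, hk⟩, zero_add]
        exact (h.endv v k he hk).symm
      · rw [dif_pos (C_Rank_mem.2 ⟨hk, he⟩), if_neg (fun h' => he h'.1), add_zero]
    · rw [dif_neg (fun h' => hk (C_Rank_mem.1 h').1), if_neg (fun h' => hk h'.2), add_zero]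
      exact (h.out v k hk).symm

private theorem C_Rank_res_ker {T : TData c} (hN : T.Nice)
    (hend : ∀ v, IsEnd T.F T.cor v ↔ T.isEnd v = true) {x : Vr c → ℝ}
    (h : IsLin T.F T.cor (0 : ℝ) x) :
    (C_Rank_A T.F T.cor).mulVec (C_Rank_res T.F T.cor x) = 0 := by
  funext r
  rcases r with v | f
  · rw [← C_Rank_ext_vert hN hend, C_Rank_ext_res h]
    exact h.vert v
  · rw [← C_Rank_ext_face, C_Rank_ext_res h]
    exact h.face f f.2

/-- Real combinations of the basis. -/
private theorem C_Rank_lin {F : Finset ℕ} {cor : Fin c → Fin 4 → ℕ} (hb : IsBas F cor b x0)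
    (w : Fin d → ℝ) : IsLin F cor (0 : ℝ) (fun j => ∑ i, w i * (b i j : ℝ)) where
  vert v := by
    rw [Finset.sum_comm]
    refine Finset.sum_eq_zero fun i _ => ?_
    rw [← Finset.mul_sum]
    have h1 := (hb.linb i).vert v
    have h2 : ∑ k, (b i (Sum.inr (v, k)) : ℝ) = 0 := by exact_mod_cast h1
    rw [h2, mul_zero]
  face f hf := by
    have h1 : ∀ v k, (if cor v k = f then ∑ i, w i * (b i (Sum.inr (v, k)) : ℝ) else 0) =
        ∑ i, w i * (if cor v k = f then (b i (Sum.inr (v, k)) : ℝ) else 0) := by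
      intro v k
      split_ifs <;> simp
    simp only [h1]
    have h2 : ∀ v, ∑ k, ∑ i, w i * (if cor v k = f then (b i (Sum.inr (v, k)) : ℝ) else 0) =
        ∑ i, w i * ∑ k, (if cor v k = f then (b i (Sum.inr (v, k)) : ℝ) else 0) := by
      intro v
      rw [Finset.sum_comm]
      exact Finset.sum_congr rfl fun i _ => by rw [Finset.mul_sum]
    simp only [h2]
    rw [Finset.sum_comm]
    refine Finset.sum_eq_zero fun i _ => ?_
    rw [← Finset.mul_sum]
    have h3 := (hb.linb i).face f hf
    have h4 : ∑ v, ∑ k, (if cor v k = f then (b i (Sum.inr (v, k)) : ℝ) else 0) = 0 := by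
      have h5 := congrArg (fun t : ℤ => (t : ℝ)) h3
      push_cast at h5
      exact h5
    rw [h4, mul_zero]
  out v k hk := by
    refine Finset.sum_eq_zero fun i _ => ?_
    rw [(hb.linb i).out v k hk]
    simp
  endv v k he hk := by
    rw [C_Rank_cz, Finset.mul_sum]
    refine Finset.sum_congr rfl fun i _ => ?_
    rw [(hb.linb i).endv v k he hk]
    have h1 : ((cz (0 : ℤ) (b i (Sum.inl v)) k : ℤ) : ℝ) = cz (0 : ℝ) (b i (Sum.inl v) : ℝ) k := by
      fin_cases k <;> simp [cz]
    rw [h1, C_Rank_cz]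
    ring

/-- The kernel of the matrix. -/
private theorem C_Rank_ker {T : TData c} (hN : T.Nice)
    (hend : ∀ v, IsEnd T.F T.cor v ↔ T.isEnd v = true) (hb : IsBas T.F T.cor b x0) :
    Module.finrank ℝ (LinearMap.ker (C_Rank_A T.F T.cor).mulVecLin) = d := by
  classical
  let K : (Fin d → ℝ) →ₗ[ℝ] (Fin c ⊕ Nd T.F T.cor → ℝ) :=
    { toFun := fun w => C_Rank_res T.F T.cor (fun j => ∑ i, w i * (b i j : ℝ))
      map_add' := by
        intro w w'
        funext r
        rcases r with v | p <;>
          simp [C_Rank_res, add_mul, Finset.sum_add_distrib]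
      map_smul' := by
        intro t w
        funext r
        rcases r with v | p <;>
          simp [C_Rank_res, Finset.mul_sum, mul_assoc] }
  have hinj : Function.Injective K := by
    rw [← LinearMap.ker_eq_bot, LinearMap.ker_eq_bot']
    intro w hw
    apply hb.inj w
    have h1 := C_Rank_ext_res (C_Rank_lin hb w)
    have h2 : C_Rank_res T.F T.cor (fun j => ∑ i, w i * (b i j : ℝ)) = 0 := hw
    intro j
    have h3 := congrFun h1 j
    rw [h2] at h3
    rw [← h3]
    rcases j with v | ⟨v, k⟩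
    · rfl
    · simp only [C_Rank_ext, Sum.elim_inr, C_Rank_z, Pi.zero_apply, C_Rank_cz 0, mul_zero, ite_self,
        dite_eq_ite, add_zero]
  have hrange : LinearMap.range K = LinearMap.ker (C_Rank_A T.F T.cor).mulVecLin := by
    ext y
    rw [LinearMap.mem_range, LinearMap.mem_ker, Matrix.mulVecLin_apply]
    constructor
    · rintro ⟨w, rfl⟩
      exact C_Rank_res_ker hN hend (C_Rank_lin hb w)
    · intro hy
      obtain ⟨w, hw⟩ := hb.spanR _ (C_Rank_ext_lin hN hend y hy)
      refine ⟨w, ?_⟩
      show C_Rank_res T.F T.cor (fun j => ∑ i, w i * (b i j : ℝ)) = y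
      rw [← hw]
      funext r
      rcases r with v | p
      · rfl
      · simp only [C_Rank_res, Sum.elim_inr, C_Rank_ext, C_Rank_z]
        rw [dif_pos p.2, if_neg (fun h => (C_Rank_mem.1 p.2).2 h.1), add_zero]
  rw [← hrange, LinearMap.finrank_range_of_inj hinj]
  simp

/-- The kernel of the transposed matrix. -/
private theorem C_Rank_tker {w : List TPiece} {T : TData c} (hT : T.Of w) (hG : T.Good)
    (hN : T.Nice) (hF : T.F.card = c) (hc : 0 < c)
    (hend : ∀ v, IsEnd T.F T.cor v ↔ T.isEnd v = true)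
    (hne : ∀ f ∈ T.F, ∃ v k, T.cor v k = f) :
    Module.finrank ℝ (LinearMap.ker (C_Rank_A T.F T.cor).transpose.mulVecLin) = 3 := by
  classical
  obtain ⟨v1, v2, h12, hv1, hv2, huniq⟩ := C_Rank_two hT hG hF hc
  obtain ⟨f0, hf0⟩ : T.F.Nonempty := by
    rw [← Finset.card_pos, hF]
    exact hc
  let Θ : (Fin 3 → ℝ) →ₗ[ℝ] (Fin c ⊕ T.F → ℝ) :=
    { toFun := fun a => Sum.elim (fun v => if v = v1 then a 1 else if v = v2 then a 2 else -a 0)
        (fun _ => a 0)
      map_add' := by
        intro a a'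
        funext r
        rcases r with v | p
        · simp only [Sum.elim_inl, Pi.add_apply]
          split_ifs <;> ring
        · simp
      map_smul' := by
        intro t a
        funext r
        rcases r with v | p
        · simp only [Sum.elim_inl, Pi.smul_apply, smul_eq_mul, RingHom.id_apply]
          split_ifs <;> ring
        · simp }
  have hinj : Function.Injective Θ := by
    rw [← LinearMap.ker_eq_bot, LinearMap.ker_eq_bot']
    intro a ha
    have h0 : a 0 = 0 := congrFun ha (Sum.inr ⟨f0, hf0⟩)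
    have h1 : a 1 = 0 := by
      have := congrFun ha (Sum.inl v1)
      simpa [Θ] using this
    have h2 : a 2 = 0 := by
      have := congrFun ha (Sum.inl v2)
      simpa [Θ, h12.symm] using this
    funext i
    fin_cases i
    · exact h0
    · exact h1
    · exact h2
  -- the sum over the faces at an end vertex
  have hsum : ∀ (v : Fin c) (y : T.F → ℝ), T.isEnd v = true →
      ∑ f : T.F, (∑ k, (if T.cor v k = f then cz (0 : ℝ) 1 k else 0)) * y f =
        ∑ k, (if h : T.cor v k ∈ T.F then cz (0 : ℝ) 1 k * y ⟨_, h⟩ else 0) := by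
    intro v y _
    simp only [Finset.sum_mul]
    rw [Finset.sum_comm]
    refine Finset.sum_congr rfl fun k _ => ?_
    by_cases hk : T.cor v k ∈ T.F
    · rw [dif_pos hk, Finset.sum_eq_single ⟨_, hk⟩]
      · simp
      · intro f _ hf
        rw [if_neg (fun h => hf (Subtype.ext h.symm)), zero_mul]
      · intro h
        exact absurd (Finset.mem_univ _) h
    · rw [dif_neg hk]
      refine Finset.sum_eq_zero fun f _ => ?_
      rw [if_neg (fun h => hk (by rw [h]; exact f.2)), zero_mul]
  have hrange : LinearMap.range Θ =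
      LinearMap.ker (C_Rank_A T.F T.cor).transpose.mulVecLin := by
    ext y
    rw [LinearMap.mem_range, LinearMap.mem_ker, Matrix.mulVecLin_apply]
    constructor
    · rintro ⟨a, rfl⟩
      funext r
      rcases r with v | p
      · rw [C_Rank_tmul_inl]
        by_cases he : IsEnd T.F T.cor v
        · simp only [if_pos he]
          rw [hsum v _ ((hend v).1 he)]
          obtain ⟨e1, e2, e3, e4⟩ := hN.end0 v ((hend v).1 he)
          have h1 := C_Rank_endsum (fun k => T.cor v k ∈ T.F) _ e1 e2 e3 e4 (a 0)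
          refine Eq.trans (Finset.sum_congr rfl fun k _ => ?_) h1
          by_cases hk : T.cor v k ∈ T.F
          · rw [dif_pos hk, if_pos hk, C_Rank_cz (a 0)]
            rfl
          · rw [dif_neg hk, if_neg hk]
        · simp [if_neg he]
      · rw [C_Rank_tmul_inr]
        obtain ⟨m1, m2⟩ := C_Rank_mem.1 p.2
        have h3 : p.1.1 ≠ v1 := fun h => m2 (by rw [h]; exact (hend v1).2 hv1)
        have h4 : p.1.1 ≠ v2 := fun h => m2 (by rw [h]; exact (hend v2).2 hv2)
        rw [Finset.sum_eq_single ⟨_, m1⟩]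
        · simp [Θ, h3, h4]
        · intro f _ hf
          rw [if_neg (fun h => hf (Subtype.ext h.symm))]
        · intro h
          exact absurd (Finset.mem_univ _) h
    · intro hy
      -- the value at a corner of a nondegenerate twist region
      have hnd : ∀ v k (hk : T.cor v k ∈ T.F), T.isEnd v = false →
          y (Sum.inr ⟨_, hk⟩) = -y (Sum.inl v) := by
        intro v k hk hv
        have h1 : ¬ IsEnd T.F T.cor v := fun h => by
          rw [(hend v).1 h] at hv
          exact absurd hv (by decide)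
        have h2 := congrFun hy (Sum.inr ⟨(v, k), C_Rank_mem.2 ⟨hk, h1⟩⟩)
        rw [C_Rank_tmul_inr, Finset.sum_eq_single ⟨_, hk⟩] at h2
        · simp only [if_true, Pi.zero_apply] at h2
          linarith
        · intro f _ hf
          rw [if_neg (fun h => hf (Subtype.ext h.symm))]
        · intro h
          exact absurd (Finset.mem_univ _) h
      have hev : ∀ v k k' (hk : T.cor v k ∈ T.F) (hk' : T.cor v k' ∈ T.F),
          y (Sum.inr ⟨_, hk⟩) = y (Sum.inr ⟨_, hk'⟩) := by
        intro v k k' hk hk'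
        by_cases he : T.isEnd v = true
        · have h2 := congrFun hy (Sum.inl v)
          rw [C_Rank_tmul_inl] at h2
          simp only [if_pos ((hend v).2 he)] at h2
          rw [hsum v _ he] at h2
          obtain ⟨e1, e2, e3, e4⟩ := hN.end0 v he
          -- the two bounded corners
          have e5 : ∀ j, T.cor v j ∈ T.F → j = T.one v + 1 ∨ j = T.one v + 2 := by
            intro j hj
            have hj1 : j ≠ T.one v := fun h => e1 (by rwa [h] at hj)
            rcases C_Rank_fin (T.one v) j hj1 with h | h | h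
            · exact Or.inl h
            · exact Or.inr h
            · exfalso
              apply e2
              rw [h] at hj
              have : T.one v + 3 = T.one v - 1 := by
                generalize T.one v = o
                revert o
                decide
              rwa [← this]
          have e6 : y (Sum.inr ⟨_, e3⟩) = y (Sum.inr ⟨_, e4⟩) := by
            have h3 : ∑ k, (if h : T.cor v k ∈ T.F then cz (0 : ℝ) 1 k * y (Sum.inr ⟨_, h⟩) else 0) =
                cz (0 : ℝ) 1 (T.one v + 1) * y (Sum.inr ⟨_, e3⟩) +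
                  cz (0 : ℝ) 1 (T.one v + 2) * y (Sum.inr ⟨_, e4⟩) := by
              have hne12 : T.one v + 1 ≠ T.one v + 2 := by
                generalize T.one v = o
                revert o
                decide
              rw [← Finset.sum_subset (Finset.subset_univ {T.one v + 1, T.one v + 2})
                (fun j _ hj => dif_neg (fun h => hj (by
                  rcases e5 j h with h' | h' <;> simp [h'])))]
              rw [Finset.sum_pair hne12, dif_pos e3, dif_pos e4]
            rw [h3, Pi.zero_apply] at h2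
            have h4 : ∀ o : Fin 4, (cz (0 : ℝ) 1 (o + 1) = 1 ∧ cz (0 : ℝ) 1 (o + 2) = -1) ∨
                (cz (0 : ℝ) 1 (o + 1) = -1 ∧ cz (0 : ℝ) 1 (o + 2) = 1) := by
              intro o
              fin_cases o
              · left; constructor <;> simp [cz]
              · right; constructor
                · show cz (0 : ℝ) 1 2 = -1
                  simp [cz]
                · show cz (0 : ℝ) 1 3 = 1
                  simp [cz]
              · left; constructor
                · show cz (0 : ℝ) 1 3 = 1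
                  simp [cz]
                · show cz (0 : ℝ) 1 0 = -1
                  simp [cz]
              · right; constructor
                · show cz (0 : ℝ) 1 0 = -1
                  simp [cz]
                · show cz (0 : ℝ) 1 1 = 1
                  simp [cz]
            rcases h4 (T.one v) with ⟨h5, h6⟩ | ⟨h5, h6⟩ <;> rw [h5, h6] at h2 <;> linarith
          have e7 : ∀ j (hj : T.cor v j ∈ T.F), y (Sum.inr ⟨_, hj⟩) = y (Sum.inr ⟨_, e3⟩) := by
            intro j hj
            rcases e5 j hj with h | h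
            · subst h; rfl
            · subst h; exact e6.symm
          rw [e7 k hk, e7 k' hk']
        · have he' : T.isEnd v = false := by simpa using he
          rw [hnd v k hk he', hnd v k' hk' he']
      -- all values are equal
      obtain ⟨u0, k0, hu0⟩ := hne f0 hf0
      have hall : ∀ v, ∃ k, ∃ hk : T.cor v k ∈ T.F,
          y (Sum.inr ⟨_, hk⟩) = y (Sum.inr ⟨f0, hf0⟩) := by
        intro v
        refine conn' hT hG hF (fun v => ∃ k, ∃ hk : T.cor v k ∈ T.F,
          y (Sum.inr ⟨_, hk⟩) = y (Sum.inr ⟨f0, hf0⟩)) ?_ u0 v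
          ⟨k0, by rw [hu0]; exact hf0, by congr 2; exact Subtype.ext hu0⟩
        rintro p q hpq h0 ⟨k, hk, hyk⟩
        obtain ⟨j, j', hj, hj'⟩ := C_Rank_face hT hG hN hpq h0
        refine ⟨j', by rw [hj']; exact hj, ?_⟩
        rw [← hyk, hev p.1 k j hk hj]
        congr 2
        exact Subtype.ext hj'
      have hF0 : ∀ f : T.F, y (Sum.inr f) = y (Sum.inr ⟨f0, hf0⟩) := by
        rintro ⟨f, hf⟩
        obtain ⟨v, k, hvk⟩ := hne f hf
        obtain ⟨j, hj, hyj⟩ := hall v
        have hk : T.cor v k ∈ T.F := by rw [hvk]; exact hf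
        rw [← hyj, hev v j k hj hk]
        congr 2
        exact Subtype.ext hvk.symm
      refine ⟨![y (Sum.inr ⟨f0, hf0⟩), y (Sum.inl v1), y (Sum.inl v2)], ?_⟩
      funext r
      rcases r with v | f
      · show (if v = v1 then y (Sum.inl v1) else if v = v2 then y (Sum.inl v2) else
          -y (Sum.inr ⟨f0, hf0⟩)) = y (Sum.inl v)
        split_ifs with g1 g2
        · rw [g1]
        · rw [g2]
        · have hv : T.isEnd v = false := by
            by_contra hcon
            have : T.isEnd v = true := by simpa using hcon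
            rcases huniq v this with h | h
            · exact g1 h
            · exact g2 h
          obtain ⟨j, hj, hyj⟩ := hall v
          rw [← hyj, hnd v j hj hv, neg_neg]
      · exact (hF0 f).symm
  rw [← hrange, LinearMap.finrank_range_of_inj hinj]
  simp

theorem rank_eq {w : List TPiece} {T : TData c} (hT : T.Of w) (hG : T.Good) (hN : T.Nice)
    (hF : T.F.card = c) (hc : 0 < c) (hend : ∀ v, IsEnd T.F T.cor v ↔ T.isEnd v = true)
    (hne : ∀ f ∈ T.F, ∃ v k, T.cor v k = f) (hb : IsBas T.F T.cor b x0) :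
    d + c = (Nd T.F T.cor).card + 3 := by
  have h1 := LinearMap.finrank_range_add_finrank_ker (C_Rank_A T.F T.cor).mulVecLin
  have h2 := LinearMap.finrank_range_add_finrank_ker (C_Rank_A T.F T.cor).transpose.mulVecLin
  rw [C_Rank_ker hN hend hb] at h1
  rw [C_Rank_tker hT hG hN hF hc hend hne] at h2
  have h3 : Module.finrank ℝ (LinearMap.range (C_Rank_A T.F T.cor).transpose.mulVecLin) =
      Module.finrank ℝ (LinearMap.range (C_Rank_A T.F T.cor).mulVecLin) :=
    Matrix.rank_transpose (C_Rank_A T.F T.cor)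
  rw [h3] at h2
  simp only [Module.finrank_fintype_fun_eq_card, Fintype.card_sum, Fintype.card_fin,
    Fintype.card_coe, hF] at h1 h2
  omega

/-- The exponent of `M` in the asymptotics. -/
theorem power_eq {w : List TPiece} {T : TData c} (hT : T.Of w) (hG : T.Good)
    (hF : T.F.card = c) (hpr : ∃ v1 v2 : Fin c, ∀ v, IsEnd T.F T.cor v → v = v1 ∨ v = v2)
    (h : IsInt T.F T.cor x) (hb : IsBas T.F T.cor b x0) :
    ((c : ℝ) + d - (Nd T.F T.cor).card) / 2 = 3 / 2 := by
  have hend := end_iff hT hG hF hpr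
  have hN := nice_of_adm hT hG (adm_of_int hend h)
  have hc : 0 < c := by
    obtain ⟨v1, _⟩ := hpr
    exact lt_of_le_of_lt (Nat.zero_le _) v1.2
  have hne : ∀ f ∈ T.F, ∃ v k, T.cor v k = f := by
    intro f hf
    by_contra hcon
    push Not at hcon
    have h1 := h.ang.face f hf
    rw [Finset.sum_eq_zero fun v _ => Finset.sum_eq_zero fun k _ => if_neg (hcon v k)] at h1
    exact absurd h1 (by norm_num)
  have h1 := rank_eq hT hG hN hF hc hend hne hb
  have h2 : (d : ℝ) + c = (Nd T.F T.cor).card + 3 := by exact_mod_cast h1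
  linarith

end Pool.Agent.H63.CLK
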