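import Pool.Agent.H63.CLK.D_Hyp

/-! # CLK part D0, D_Bd: boundaries of the faces during the sweep (definitions)

At every level the elements are the corners of the twist regions found so far and the gaps (lids).
Every face has a cyclic list of elements, counterclockwise around the boundary of its part below the
level. Every element has a first strand (`lin`) and a last strand (`lout`), and the last strand of an
element is the first strand of the next one. -/

namespace Pool.Agent.H63.CLK

/-- Corners and lids. -/
inductive Elt
  | cor (v : ℕ) (k : Fin 4)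
  | lid (i : ℕ)
  deriving DecidableEq

/-- A path of elements beginning with the strand `a` and ending with the strand `b`. -/
def Path (li lo : Elt → ℕ) : ℕ → List Elt → ℕ → Prop
  | a, [], b => a = b
  | a, x :: l, b => li x = a ∧ Path li lo (lo x) l b

/-- The first strand of an element. -/
def lin (R : Strands) : Elt → ℕ
  | .cor v k => (R.leg.getD v (fun _ => 0)) k
  | .lid i => (R.str ++ [0]).getD i 0

/-- The last strand of an element. -/
def lout (R : Strands) : Elt → ℕ
  | .cor v k => (R.leg.getD v (fun _ => 0)) (k + 1)
  | .lid i => (0 :: R.str).getD i 0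

/-- The face of an element. -/
def fac (S : Sweep) : Elt → ℕ
  | .cor v k => (S.cor.getD v (fun _ => 0)) k
  | .lid i => S.gaps.getD i 0

/-- The elements which exist. -/
def Val (S : Sweep) : Elt → Prop
  | .cor v _ => v < S.cor.length
  | .lid i => i < S.gaps.length

/-- The strands at all ends: legs, open ends at the level, and the lower end of the template. -/
def labs (R : Strands) : List ℕ :=
  R.leg.flatMap (fun x => [x 0, x 1, x 2, x 3]) ++ R.str ++ [0]

/-- The invariant of the sweep. -/
structure Inv (S : Sweep) (R : Strands) (bd : ℕ → List Elt) (χ : ℕ → ℕ) : Prop where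
  len : S.gaps.length = R.str.length + 1
  lenc : S.cor.length = R.leg.length
  mem : ∀ f x, x ∈ bd f ↔ Val S x ∧ fac S x = f
  nd : ∀ f, (bd f).Nodup
  path : ∀ f, ∃ a, Path (lin R) (lout R) a (bd f) a
  flt : ∀ x, Val S x → fac S x < S.nxt
  slt : ∀ l ∈ labs R, l < R.nxt
  cnt : ∀ l ∈ labs R, (labs R).count l = 2
  colg : ∀ i < S.gaps.length, χ (S.gaps.getD i 0) = i % 2
  colc : ∀ v < S.cor.length, ∀ k : Fin 4,
    χ ((S.cor.getD v (fun _ => 0)) k) ≠ χ ((S.cor.getD v (fun _ => 0)) (k + 1))
  nxt : 2 ≤ S.nxt

/-- Substitution in the lists: `g` replaces elements by lists, `h` is the inverse. -/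
structure Subst (l : List Elt) (g : Elt → List Elt) (h : Elt → Elt) (li lo li' lo' : Elt → ℕ)
    (ρ : ℕ → ℕ) : Prop where
  inv : ∀ x ∈ l, ∀ y ∈ g x, h y = x
  nd : ∀ x ∈ l, (g x).Nodup
  path : ∀ x ∈ l, Path li' lo' (ρ (li x)) (g x) (ρ (lo x))

end Pool.Agent.H63.CLK
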