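import Pool.Agent.H63.CLK.D_Bd

/-! # CLK part D0, D_BdA: paths, and the initial state

All by induction on lists. -/

namespace Pool.Agent.H63.CLK

theorem path_append {li lo : Elt → ℕ} {a b d : ℕ} {l m : List Elt} (h1 : Path li lo a l b)
    (h2 : Path li lo b m d) : Path li lo a (l ++ m) d := by
  induction l generalizing a with
  | nil =>
    have h3 : a = b := h1
    subst h3
    exact h2
  | cons x l ih => exact ⟨h1.1, ih h1.2⟩

theorem path_split {li lo : Elt → ℕ} {a d : ℕ} {l m : List Elt} (h : Path li lo a (l ++ m) d) :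
    ∃ b, Path li lo a l b ∧ Path li lo b m d := by
  induction l generalizing a with
  | nil => exact ⟨a, rfl, h⟩
  | cons x l ih =>
    obtain ⟨b, h1, h2⟩ := ih h.2
    exact ⟨b, ⟨h.1, h1⟩, h2⟩

/-- Rotation: if `x` is in the cyclic list `l`, then `l` is a permutation of `x :: m` for a path `m`. -/
theorem path_rot {li lo : Elt → ℕ} {a : ℕ} {l : List Elt} {x : Elt} (h : Path li lo a l a)
    (hx : x ∈ l) : ∃ m, l.Perm (x :: m) ∧ Path li lo (lo x) m (li x) := by
  obtain ⟨s, t, rfl⟩ := List.append_of_mem hx
  obtain ⟨b, h1, h2⟩ := path_split h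
  have hb : li x = b := h2.1
  subst hb
  exact ⟨t ++ s, List.perm_append_comm, path_append h2.2 h1⟩

private theorem D_BdA_subst {g : Elt → List Elt} {li lo li' lo' : Elt → ℕ} {ρ : ℕ → ℕ}
    {l : List Elt} {a b : ℕ} (H : ∀ x ∈ l, Path li' lo' (ρ (li x)) (g x) (ρ (lo x)))
    (hp : Path li lo a l b) : Path li' lo' (ρ a) (l.flatMap g) (ρ b) := by
  induction l generalizing a with
  | nil =>
    have h3 : a = b := hp
    subst h3
    exact rfl
  | cons x l ih =>
    rw [List.flatMap_cons]
    have h1 := H x List.mem_cons_self
    rw [hp.1] at h1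
    exact path_append h1 (ih (fun y hy => H y (List.mem_cons_of_mem _ hy)) hp.2)

theorem path_subst {l : List Elt} {g : Elt → List Elt} {h : Elt → Elt} {li lo li' lo' : Elt → ℕ}
    {ρ : ℕ → ℕ} (H : Subst l g h li lo li' lo' ρ) {a b : ℕ} (hp : Path li lo a l b) :
    Path li' lo' (ρ a) (l.flatMap g) (ρ b) :=
  D_BdA_subst H.path hp

theorem nodup_subst {l : List Elt} {g : Elt → List Elt} {h : Elt → Elt} {li lo li' lo' : Elt → ℕ}
    {ρ : ℕ → ℕ} (H : Subst l g h li lo li' lo' ρ) (hl : l.Nodup) : (l.flatMap g).Nodup := by
  rw [List.nodup_flatMap]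
  refine ⟨H.nd, ?_⟩
  refine List.Pairwise.imp_of_mem ?_ hl
  intro x y hx hy hxy z hz1 hz2
  exact hxy ((H.inv x hx z hz1).symm.trans (H.inv y hy z hz2))

theorem mem_subst {l : List Elt} {g : Elt → List Elt} {h : Elt → Elt} {li lo li' lo' : Elt → ℕ}
    {ρ : ℕ → ℕ} (H : Subst l g h li lo li' lo' ρ) (y : Elt) :
    y ∈ l.flatMap g ↔ h y ∈ l ∧ y ∈ g (h y) := by
  rw [List.mem_flatMap]
  constructor
  · rintro ⟨x, hx, hy⟩
    rw [H.inv x hx y hy]
    exact ⟨hx, hy⟩
  · rintro ⟨h1, h2⟩
    exact ⟨h y, h1, h2⟩

private theorem D_BdA_last {li lo : Elt → ℕ} {a b : ℕ} {l : List Elt} (h : Path li lo a l b)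
    (hl : l ≠ []) : ∃ y ∈ l, lo y = b := by
  induction l generalizing a with
  | nil => exact absurd rfl hl
  | cons x l ih =>
    rcases eq_or_ne l [] with h1 | h1
    · subst h1
      exact ⟨x, List.mem_cons_self, h.2⟩
    · obtain ⟨y, hy, h2⟩ := ih h.2 h1
      exact ⟨y, List.mem_cons_of_mem _ hy, h2⟩

/-- In a cyclic list every element has a next one and a previous one. -/
theorem path_next {li lo : Elt → ℕ} {a : ℕ} {l : List Elt} {x : Elt} (h : Path li lo a l a)
    (hx : x ∈ l) : ∃ y ∈ l, li y = lo x := by
  obtain ⟨m, hm, h1⟩ := path_rot h hx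
  cases m with
  | nil => exact ⟨x, hx, h1.symm⟩
  | cons y m =>
    exact ⟨y, hm.mem_iff.2 (List.mem_cons_of_mem _ List.mem_cons_self), h1.1⟩

theorem path_prev {li lo : Elt → ℕ} {a : ℕ} {l : List Elt} {x : Elt} (h : Path li lo a l a)
    (hx : x ∈ l) : ∃ y ∈ l, lo y = li x := by
  obtain ⟨m, hm, h1⟩ := path_rot h hx
  rcases eq_or_ne m [] with h2 | h2
  · subst h2
    exact ⟨x, hx, h1⟩
  · obtain ⟨y, hy, h3⟩ := D_BdA_last h1 h2
    exact ⟨y, hm.mem_iff.2 (List.mem_cons_of_mem _ hy), h3⟩

private theorem D_BdA_get {li lo : Elt → ℕ} {a b : ℕ} {l : List Elt} (h : Path li lo a l b)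
    (i : ℕ) (x y : Elt) (hx : l[i]? = some x) (hy : l[i + 1]? = some y) : lo x = li y := by
  induction l generalizing a i with
  | nil => simp at hx
  | cons z l ih =>
    cases i with
    | zero =>
      have hz : z = x := by simpa using hx
      subst hz
      cases l with
      | nil => simp at hy
      | cons w l =>
        have hw : w = y := by simpa using hy
        subst hw
        exact h.2.1.symm
    | succ i =>
      rw [List.getElem?_cons_succ] at hx hy
      exact ih h.2 i hx hy

private theorem D_BdA_head {li lo : Elt → ℕ} {a b : ℕ} {l : List Elt} (h : Path li lo a l b)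
    (y : Elt) (hy : l[0]? = some y) : li y = a := by
  cases l with
  | nil => simp at hy
  | cons w l =>
    have hw : w = y := by simpa using hy
    subst hw
    exact h.1

private theorem D_BdA_end {li lo : Elt → ℕ} {a b : ℕ} {l : List Elt} (h : Path li lo a l b)
    (i : ℕ) (hi : i + 1 = l.length) (x : Elt) (hx : l[i]? = some x) : lo x = b := by
  induction l generalizing a i with
  | nil => simp at hi
  | cons z l ih =>
    cases i with
    | zero =>
      have hz : z = x := by simpa using hx
      subst hz
      have hl : l = [] := by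
        rw [List.length_cons] at hi
        exact List.length_eq_zero_iff.1 (by omega)
      subst hl
      exact h.2
    | succ i =>
      rw [List.getElem?_cons_succ] at hx
      exact ih h.2 i (by rw [List.length_cons] at hi; omega) hx

/-- Consecutive elements of a cyclic list. -/
theorem path_get {li lo : Elt → ℕ} {a : ℕ} {l : List Elt} (h : Path li lo a l a) (j : ℕ)
    (x y : Elt) (hx : l[j % l.length]? = some x) (hy : l[(j + 1) % l.length]? = some y) :
    lo x = li y := by
  have hn : 0 < l.length := by
    rcases Nat.eq_zero_or_pos l.length with h0 | h0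
    · have hl := List.length_eq_zero_iff.1 h0
      subst hl
      simp at hx
    · exact h0
  have hlt := Nat.mod_lt j hn
  rcases Nat.lt_or_ge (j % l.length + 1) l.length with h1 | h1
  · have h2 : (j + 1) % l.length = j % l.length + 1 := by
      rw [Nat.add_mod, Nat.mod_eq_of_lt (show 1 < l.length by omega), Nat.mod_eq_of_lt h1]
    rw [h2] at hy
    exact D_BdA_get h _ x y hx hy
  · have h3 : j % l.length + 1 = l.length := by omega
    have h2 : (j + 1) % l.length = 0 := by
      have h4 : j + 1 = l.length * (j / l.length) + l.length := by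
        have := Nat.div_add_mod j l.length
        omega
      rw [h4, Nat.add_mod_right, Nat.mul_mod_right]
    rw [h2] at hy
    rw [D_BdA_end h _ h3 x hx, D_BdA_head h y hy]

/-- The invariant holds at the beginning. -/
theorem inv_init : ∃ bd χ, Inv Sweep.init Strands.init bd χ := by
  refine ⟨fun f => if f = 0 then [Elt.lid 0] else if f = 1 then [Elt.lid 1] else [], fun f => f,
    ?_⟩
  constructor
  · rfl
  · rfl
  · intro f x
    cases x with
    | cor v k =>
      simp only [Val, Sweep.init, List.length_nil, Nat.not_lt_zero, false_and, iff_false]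
      split_ifs <;> simp
    | lid i =>
      simp only [Val, Sweep.init, fac, List.length_cons, List.length_nil]
      rcases Nat.lt_or_ge i 2 with hi | hi
      · have h2 : i = 0 ∨ i = 1 := by omega
        rcases h2 with rfl | rfl
        · simp only [List.getD_cons_zero]
          split_ifs with h1 h3
          · simp [h1]
          · subst h3; simp
          · simp; omega
        · simp only [List.getD_cons_succ, List.getD_cons_zero]
          split_ifs with h1 h3
          · subst h1; simp
          · subst h3; simp
          · simp; omega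
      · have h3 : ¬ i < 0 + 1 + 1 := by omega
        simp only [h3, false_and, iff_false]
        split_ifs
        · simp; omega
        · simp; omega
        · simp
  · intro f
    beta_reduce
    split_ifs <;> simp
  · intro f
    refine ⟨0, ?_⟩
    beta_reduce
    split_ifs
    · exact ⟨rfl, rfl⟩
    · exact ⟨rfl, rfl⟩
    · exact rfl
  · intro x hx
    cases x with
    | cor v k => exact absurd hx (Nat.not_lt_zero v)
    | lid i =>
      have hi : i < 2 := hx
      have h2 : i = 0 ∨ i = 1 := by omega
      rcases h2 with rfl | rfl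
      · change 0 < 2
        omega
      · change 1 < 2
        omega
  · intro l hl
    change l ∈ [0, 0] at hl
    change l < 1
    simp at hl
    omega
  · intro l hl
    change l ∈ [0, 0] at hl
    change [0, 0].count l = 2
    have h0 : l = 0 := by simpa using hl
    subst h0
    rfl
  · intro i hi
    have hi2 : i < 2 := hi
    have h2 : i = 0 ∨ i = 1 := by omega
    rcases h2 with rfl | rfl <;> rfl
  · intro v hv
    exact absurd hv (Nat.not_lt_zero v)
  · exact le_refl 2

end Pool.Agent.H63.CLK
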