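import Pool.Agent.H63.CLK.D_BdA

/-! # CLK part D0, D_BdC: connectedness

`conn_cup`: the old open ends are still there. `conn_tw`: if `A` contains one of the four new legs
`![n, n + 1, β, α]`, then it contains all of them (`A` is closed), in particular the open end `n`.
Otherwise use the old statement; the open end found is not `α` or `β`, so it is still there.
`conn_cap`: let `α, β` be the strands `i`, `i + 1` and `ρ = ident α β`, `A` a set as in the statement for
`R'`, and suppose that it contains neither `0` nor an open end. The set `A₀ = ρ⁻¹ A` satisfies the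
assumptions for `R`, so it contains an open end `y` (`0` is impossible since `ρ 0 = 0`), and `y = α` or
`y = β`, because the other open ends have images in `R'.str`. So `α, β ∈ A₀` (`ρ α = ρ β`). Write the
cyclic list `bd b` of the face `b` of the gap `i + 2` as `lid (i + 2) :: m` (`path_rot`), `m` is a path
from `lout (lid (i + 2)) = β` to `lin (lid (i + 2))`. Lemma: if `Path (lin R) (lout R) s m t` and `s ∈ A₀`,
then `t ∈ A₀` or `m` contains a lid `y` with `lin R y ∈ A₀` (induction on `m`: at a corner the first and
the last strand are legs of the same vertex). Here `t = lin (lid (i + 2))` is another open end or `0`, so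
`t ∉ A₀`; and a lid with `lin ∈ A₀` is `lid i` or `lid (i + 1)` (its first strand is the open end with its
number; the strands `α`, `β` may have their other end also among the open ends, but then this open end
would be in `A₀` and survive or be `i`, `i + 1`). The face of `lid i` is `a ≠ b`, the face of
`lid (i + 1)` has the other color than `b`: contradiction.
`conn_end`: if `z = 0`, then by `cnt` no leg is `0` (the two ends of the strand `0` are the lower end and
the open end), and `A = {x | x ≠ 0}` gives a contradiction. -/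

namespace Pool.Agent.H63.CLK

/-- Every vertex is connected with an open end or with the lower end. -/
def Conn (R : Strands) : Prop := ∀ A : Set ℕ, (∀ x ∈ R.leg, ∀ k l : Fin 4, x k ∈ A → x l ∈ A) →
  (∃ x ∈ R.leg, x 0 ∈ A) → (∃ y ∈ R.str, y ∈ A) ∨ 0 ∈ A

variable {S S' : Sweep} {R R' : Strands} {bd : ℕ → List Elt} {χ : ℕ → ℕ}

theorem conn_init : Conn Strands.init := by
  rintro A - ⟨x, hx, -⟩
  simp [Strands.init] at hx

theorem conn_cup (i : ℕ) (hR : R.step (.cup i) = some R') (hc : Conn R) : Conn R' := by
  simp only [Strands.step, Option.some.injEq] at hR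
  subst hR
  intro A h1 h2
  rcases hc A h1 h2 with ⟨y, hy, hyA⟩ | h0
  · refine Or.inl ⟨y, ?_, hyA⟩
    rw [← List.take_append_drop i R.str] at hy
    simp only [List.mem_append, List.mem_cons] at hy ⊢
    tauto
  · exact Or.inr h0

theorem conn_tw (i : ℕ) (hR : R.step (.tw i) = some R') (hc : Conn R) : Conn R' := by
  simp only [Strands.step] at hR
  split at hR
  · rename_i a b r hd
    simp only [Option.some.injEq] at hR
    subst hR
    intro A h1 h2
    have hnew : (![R.nxt, R.nxt + 1, b, a] : Fin 4 → ℕ) ∈
        R.leg ++ [![R.nxt, R.nxt + 1, b, a]] := by simp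
    by_cases hex : ∃ k : Fin 4, (![R.nxt, R.nxt + 1, b, a] : Fin 4 → ℕ) k ∈ A
    · obtain ⟨k, hk⟩ := hex
      have h3 := h1 _ hnew k 0 hk
      refine Or.inl ⟨R.nxt, by simp, h3⟩
    · push Not at hex
      have ha : a ∉ A := hex 3
      have hb : b ∉ A := hex 2
      have h3 : ∃ x ∈ R.leg, x 0 ∈ A := by
        obtain ⟨x, hx, hxA⟩ := h2
        rcases List.mem_append.1 hx with hx | hx
        · exact ⟨x, hx, hxA⟩
        · rw [List.mem_singleton] at hx
          subst hx
          exact absurd hxA (hex 0)
      rcases hc A (fun x hx => h1 x (List.mem_append_left _ hx)) h3 with ⟨y, hy, hyA⟩ | h0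
      · refine Or.inl ⟨y, ?_, hyA⟩
        rw [← List.take_append_drop i R.str, hd] at hy
        simp only [List.mem_append, List.mem_cons] at hy ⊢
        rcases hy with hy | rfl | rfl | hy
        · exact Or.inl hy
        · exact absurd hyA ha
        · exact absurd hyA hb
        · exact Or.inr (Or.inr (Or.inr hy))
      · exact Or.inr h0
  · simp at hR

theorem D_BdC_ident_zero (a b : ℕ) : ident a b 0 = 0 := by
  unfold ident
  split_ifs with h
  · omega
  · rfl

theorem D_BdC_ident_eq (a b : ℕ) : ident a b a = ident a b b := by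
  unfold ident
  split_ifs with h1 h2 h2 <;> omega

/-- Along a path which begins in `A` either the end is in `A`, or there is a lid which begins
in `A`. -/
theorem D_BdC_path {A : Set ℕ} (hA : ∀ x ∈ R.leg, ∀ k l : Fin 4, x k ∈ A → x l ∈ A)
    (m : List Elt) (hm : ∀ v k, Elt.cor v k ∈ m → v < R.leg.length) :
    ∀ s t : ℕ, Path (lin R) (lout R) s m t → s ∈ A →
      t ∈ A ∨ ∃ j, Elt.lid j ∈ m ∧ lin R (.lid j) ∈ A := by
  induction m with
  | nil =>
    intro s t h hs
    have h1 : s = t := h
    exact Or.inl (h1 ▸ hs)
  | cons x m ih =>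
    rintro s t ⟨h1, h2⟩ hs
    rw [← h1] at hs
    rcases x with ⟨v, k⟩ | j
    · have hv := hm v k List.mem_cons_self
      have h3 : lout R (.cor v k) ∈ A := by
        simp only [lin, lout] at hs ⊢
        rw [List.getD_eq_getElem _ _ hv] at hs ⊢
        exact hA _ (List.getElem_mem hv) _ _ hs
      rcases ih (fun v k h => hm v k (List.mem_cons_of_mem _ h)) _ t h2 h3 with h4 | ⟨j, h4, h5⟩
      · exact Or.inl h4
      · exact Or.inr ⟨j, List.mem_cons_of_mem _ h4, h5⟩
    · exact Or.inr ⟨j, List.mem_cons_self, hs⟩

theorem D_BdC_getD {α : Type*} {l r : List α} {i j : ℕ} (d : α) (h : l.drop i = r) :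
    l.getD (i + j) d = r.getD j d := by
  rw [List.getD_eq_getElem?_getD, List.getD_eq_getElem?_getD, ← h, List.getElem?_drop]

theorem conn_cap (h : Inv S R bd χ) (i : ℕ) (hS : S.step (.cap i) = some S')
    (hR : R.step (.cap i) = some R') (hc : Conn R) : Conn R' := by
  simp only [Strands.step] at hR
  split at hR
  case h_2 => simp at hR
  rename_i α β r hd
  simp only [Option.some.injEq] at hR
  subst hR
  simp only [Sweep.step] at hS
  split at hS
  case h_2 => simp at hS
  rename_i a g b rest hgd
  split at hS
  case isTrue => simp at hS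
  rename_i hab
  clear hS
  push Not at hab
  intro A h1 h2
  by_contra hcon
  push Not at hcon
  obtain ⟨hopen, h0⟩ := hcon
  -- the preimage
  let A₀ : Set ℕ := {x | ident α β x ∈ A}
  have hA₀ : ∀ x ∈ R.leg, ∀ k l : Fin 4, x k ∈ A₀ → x l ∈ A₀ := by
    intro x hx k l hk
    exact h1 (fun k => ident α β (x k)) (List.mem_map.2 ⟨x, hx, rfl⟩) k l hk
  have h0' : (0 : ℕ) ∉ A₀ := by
    change ident α β 0 ∉ A
    rw [D_BdC_ident_zero]
    exact h0
  have hmap : ∀ y ∈ R.str.take i ++ r, y ∉ A₀ := by
    intro y hy hyA
    exact hopen _ (List.mem_map.2 ⟨y, hy, rfl⟩) hyA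
  have hstr : R.str = R.str.take i ++ α :: β :: r := by
    rw [← hd, List.take_append_drop]
  have hi : i < R.str.length := by
    by_contra hlt
    rw [List.drop_eq_nil_of_le (by omega)] at hd
    simp at hd
  have hab₀ : α ∈ A₀ ∧ β ∈ A₀ := by
    have h3 : ∃ x ∈ R.leg, x 0 ∈ A₀ := by
      obtain ⟨x, hx, hxA⟩ := h2
      obtain ⟨y, hy, rfl⟩ := List.mem_map.1 hx
      exact ⟨y, hy, hxA⟩
    have h4 : α ∈ A₀ ∨ β ∈ A₀ := by
      rcases hc A₀ hA₀ h3 with ⟨y, hy, hyA⟩ | h5
      · rw [hstr] at hy
        simp only [List.mem_append, List.mem_cons] at hy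
        rcases hy with hy | rfl | rfl | hy
        · exact absurd hyA (hmap y (List.mem_append_left _ hy))
        · exact Or.inl hyA
        · exact Or.inr hyA
        · exact absurd hyA (hmap y (List.mem_append_right _ hy))
      · exact absurd h5 h0'
    have h5 : ident α β α = ident α β β := D_BdC_ident_eq α β
    rcases h4 with h4 | h4
    · refine ⟨h4, ?_⟩
      change ident α β β ∈ A
      rw [← h5]
      exact h4
    · refine ⟨?_, h4⟩
      change ident α β α ∈ A
      rw [h5]
      exact h4
  -- the open ends in `A₀`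
  have hG : ∀ j, (R.str ++ [0]).getD j 0 ∈ A₀ → j = i ∨ j = i + 1 := by
    intro j hj
    by_contra hne
    push Not at hne
    rcases Nat.lt_or_ge j R.str.length with hlt | hge
    · have h3 : (R.str ++ [0]).getD j 0 = R.str[j] := by
        rw [List.getD_eq_getElem _ _ (by rw [List.length_append]; omega),
          List.getElem_append_left hlt]
      rw [h3] at hj
      refine hmap _ ?_ hj
      rcases Nat.lt_or_ge j i with hji | hji
      · refine List.mem_append_left _ ?_
        have h4 : j < (R.str.take i).length := by rw [List.length_take]; omega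
        have h5 : (R.str.take i)[j] = R.str[j] := List.getElem_take
        rw [← h5]
        exact List.getElem_mem h4
      · refine List.mem_append_right _ ?_
        obtain ⟨q, rfl⟩ : ∃ q, j = i + (q + 2) := ⟨j - i - 2, by omega⟩
        have h4 : R.str[i + (q + 2)]? = (α :: β :: r)[q + 2]? := by
          rw [← hd, List.getElem?_drop]
        rw [List.getElem?_eq_getElem hlt] at h4
        have h5 : (α :: β :: r)[q + 2]? = r[q]? := by simp
        rw [h5] at h4
        exact List.mem_of_getElem? h4.symm
    · have h3 : (R.str ++ [0]).getD j 0 = 0 := by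
        rcases Nat.eq_or_lt_of_le hge with h4 | h4
        · rw [List.getD_eq_getElem _ _ (by rw [List.length_append, List.length_singleton]; omega),
            List.getElem_append_right (by omega)]
          simp
        · rw [List.getD_eq_default _ _ (by rw [List.length_append, List.length_singleton]; omega)]
      rw [h3] at hj
      exact h0' hj
  have hga : S.gaps.getD i 0 = a := by
    have := D_BdC_getD (j := 0) 0 hgd
    simpa using this
  have hgb : S.gaps.getD (i + 2) 0 = b := by
    have := D_BdC_getD (j := 2) 0 hgd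
    simpa using this
  have hgl : i + 2 < S.gaps.length := by
    have h3 := congrArg List.length hgd
    rw [List.length_drop] at h3
    simp only [List.length_cons] at h3
    omega
  -- the boundary of the face `b`
  have hmem : Elt.lid (i + 2) ∈ bd b := (h.mem b _).2 ⟨hgl, hgb⟩
  obtain ⟨e, he⟩ := h.path b
  obtain ⟨m, hperm, hpath⟩ := path_rot he hmem
  have hsub : ∀ x ∈ m, x ∈ bd b := fun x hx => hperm.symm.subset (List.mem_cons_of_mem _ hx)
  have hlo : lout R (.lid (i + 2)) = β := by
    have h3 := D_BdC_getD (j := 1) 0 hd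
    simp only [lout]
    change R.str.getD (i + 1) 0 = β
    rw [h3]
    rfl
  rw [hlo] at hpath
  have hkey := D_BdC_path hA₀ m (fun v k hv => by
    have h3 := ((h.mem b _).1 (hsub _ hv)).1
    simp only [Val] at h3
    rw [← h.lenc]
    exact h3) _ _ hpath hab₀.2
  rcases hkey with h3 | ⟨j, hj, hjA⟩
  · rcases hG (i + 2) h3 with h4 | h4 <;> omega
  · obtain ⟨-, h4⟩ := (h.mem b _).1 (hsub _ hj)
    simp only [fac] at h4
    rcases hG j hjA with rfl | rfl
    · exact hab.1 (hga.symm.trans h4)
    · have h5 := h.colg (i + 1) (by omega)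
      have h6 := h.colg (i + 2) (by omega)
      rw [h4] at h5
      rw [hgb] at h6
      omega

theorem conn_end (h : Inv S R bd χ) {z : ℕ} (hz : R.str = [z]) (hc : Conn R) (hl : R.leg ≠ []) :
    z ≠ 0 := by
  rintro rfl
  have h1 : (labs R).count 0 = 2 := h.cnt 0 (by simp [labs])
  have h2 : ∀ x ∈ R.leg, ∀ k : Fin 4, x k ≠ 0 := by
    intro x hx k hk
    have h3 : (0 : ℕ) ∈ R.leg.flatMap (fun x => [x 0, x 1, x 2, x 3]) := by
      rw [List.mem_flatMap]
      refine ⟨x, hx, ?_⟩
      rw [← hk]
      fin_cases k <;> simp
    have h4 : 0 < (R.leg.flatMap (fun x => [x 0, x 1, x 2, x 3])).count 0 :=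
      List.count_pos_iff.2 h3
    rw [labs, hz, List.count_append, List.count_append, List.count_singleton_self] at h1
    omega
  obtain ⟨x, hx⟩ := List.exists_mem_of_ne_nil _ hl
  rcases hc {y | y ≠ 0} (fun x hx k l _ => h2 x hx l) ⟨x, hx, h2 x hx 0⟩ with ⟨y, hy, hyA⟩ | h0
  · rw [hz, List.mem_singleton] at hy
    exact hyA hy
  · exact h0 rfl

end Pool.Agent.H63.CLK
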