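import Pool.Agent.H63.CLK.D_BdA

/-! # CLK part D0, D_BdCap: the invariant at a maximum

Let `a, e, b` be the faces of the gaps `i, i + 1, i + 2` and `α, β` the strands `i`, `i + 1`; it is given
that `a ≠ b` and `2 ≤ max a b`.
1. `α ≠ β`. Otherwise `lid (i + 2)` has `lout = (0 :: str)[i + 2] = β = α`; its next element `y` (`path_next`
in the list `bd b`) has `lin y = α`. The strand `α` has exactly two ends (`cnt`), which are the open ends
`i` and `i + 1`, so `y = lid i` or `y = lid (i + 1)` (the map from elements to ends given by the first
strand is injective: `cor v k` has the end `leg v k`, `lid j` the open end `j` or, if `j` is the last one,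
the lower end of the template). But `fac y = b`, so `a = b` or `e = b`; the latter contradicts the colors.
2. `ρ = ident α β`, new strands `(take i ++ drop (i + 2)).map ρ`, new gaps `(take i ++ a :: r).map σ`,
`σ = ident a b`, where `r` are the gaps behind `i + 2`.
`g (cor v k) = [cor v k]`, `g (lid j) = [lid j]` for `j < i`, `g (lid j) = [lid (j - 2)]` for `j > i + 2`, and
`g (lid i) = g (lid (i + 1)) = g (lid (i + 2)) = []`; `h (cor v k) = cor v k`, `h (lid j) = lid j` for `j < i`,
`h (lid j) = lid (j + 2)` for `j > i`, `h (lid i) = lid i` (irrelevant).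
For a list without `lid i`, `lid (i + 2)` this is a `Subst` with `ρ`: the path `[]` for `lid (i + 1)` goes
from `ρ β` to `ρ α`, which are equal; for `j > i + 2`: `lin' (lid (j - 2)) = ρ (lin (lid j))` and so on.
3. By `path_rot` `bd a` is a permutation of `lid i :: A` and `bd b` is a permutation of `lid (i + 2) :: B`.
`bd' (max a b) = []`, `bd' (min a b) = lid i :: (A ++ B).flatMap g`, and `bd' f = (bd f).flatMap g` for
the other `f`. `A` is a path from `lout (lid i)` to `α`, `B` is a path from `β` to `lin (lid (i + 2))`;
`lin' (lid i) = ρ (lin (lid (i + 2)))`, `lout' (lid i) = ρ (lout (lid i))`.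
4. `mem`: no element has the new face `max a b` (since `σ x ≠ max a b` for all `x`); `fac' y = σ (fac (h y))`
for `y ≠ lid i`, `fac' (lid i) = min a b`.
5. `cnt`: `labs R` has one end `α` and one end `β` less, then `ρ` identifies `α` and `β`: count `1 + 1`.
6. Colors: `a` and `b` have the same color `i % 2`, `χ' = χ`. -/

namespace Pool.Agent.H63.CLK

/-! ### Identification -/

private theorem D_BdCap_ident_zero (a b : ℕ) : ident a b 0 = 0 := by
  unfold ident
  split_ifs with h
  · omega
  · rfl

private theorem D_BdCap_ident_le (a b x : ℕ) : ident a b x ≤ x := by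
  unfold ident
  split_ifs with h
  · omega
  · exact le_rfl

private theorem D_BdCap_ident_left (a b : ℕ) : ident a b a = min a b := by
  unfold ident
  split_ifs with h
  · rfl
  · omega

private theorem D_BdCap_ident_right (a b : ℕ) : ident a b b = min a b := by
  unfold ident
  split_ifs with h
  · rfl
  · omega

private theorem D_BdCap_ident_ne_max {a b : ℕ} (hab : a ≠ b) (x : ℕ) : ident a b x ≠ max a b := by
  unfold ident
  split_ifs with h
  · omega
  · exact h

private theorem D_BdCap_ident_eq_min {a b : ℕ} (x : ℕ) :
    ident a b x = min a b ↔ x = a ∨ x = b := by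
  unfold ident
  split_ifs with h
  · constructor
    · intro _; omega
    · intro _; rfl
  · constructor
    · intro h'; omega
    · intro h'; omega

private theorem D_BdCap_ident_eq_of_ne {a b f : ℕ} (h1 : f ≠ min a b) (h2 : f ≠ max a b) (x : ℕ) :
    ident a b x = f ↔ x = f := by
  unfold ident
  split_ifs with h
  · constructor
    · intro h'; omega
    · intro h'; omega
  · exact Iff.rfl

private theorem D_BdCap_chi {a b : ℕ} {χ : ℕ → ℕ} (h : χ a = χ b) (x : ℕ) :
    χ (ident a b x) = χ x := by
  unfold ident
  split_ifs with hx
  · rcases le_total a b with hab | hab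
    · rw [min_eq_left hab, hx, max_eq_right hab, h]
    · rw [min_eq_right hab, hx, max_eq_left hab, h]
  · rfl

/-! ### Entries of lists -/

private theorem D_BdCap_getD_map {ρ : ℕ → ℕ} (h0 : ρ 0 = 0) (l : List ℕ) (n : ℕ) :
    (l.map ρ).getD n 0 = ρ (l.getD n 0) := by
  have := List.getD_map (l := l) (n := n) (d := 0) ρ
  rw [h0] at this
  exact this

private theorem D_BdCap_getD_lt (P X Y : List ℕ) {j : ℕ} (h : j < P.length) :
    (P ++ X).getD j 0 = (P ++ Y).getD j 0 := by
  rw [List.getD_append _ _ _ _ h, List.getD_append _ _ _ _ h]

private theorem D_BdCap_getD_ge (P s : List ℕ) (u v : ℕ) {j : ℕ} (h : P.length ≤ j) :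
    (P ++ u :: v :: s).getD (j + 2) 0 = (P ++ s).getD j 0 := by
  rw [List.getD_append_right _ _ _ _ h, List.getD_append_right _ _ _ _ (by omega)]
  have : j + 2 - P.length = (j - P.length) + 1 + 1 := by omega
  rw [this, List.getD_cons_succ, List.getD_cons_succ]

private theorem D_BdCap_getD_fun {ρ : ℕ → ℕ} (h0 : ρ 0 = 0) (l : List (Fin 4 → ℕ)) (v : ℕ)
    (k : Fin 4) :
    ((l.map (fun x k => ρ (x k))).getD v (fun _ => 0)) k = ρ ((l.getD v (fun _ => 0)) k) := by
  by_cases hv : v < l.length
  · rw [List.getD_eq_getElem _ _ (by simpa using hv), List.getD_eq_getElem _ _ hv]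
    simp
  · push Not at hv
    rw [List.getD_eq_default _ _ (by simpa using hv), List.getD_eq_default _ _ hv, h0]

/-! ### The substitution -/

private def D_BdCap_g (i : ℕ) : Elt → List Elt
  | .cor v k => [.cor v k]
  | .lid j => if j < i then [.lid j] else if j ≤ i + 2 then [] else [.lid (j - 2)]

private def D_BdCap_h (i : ℕ) : Elt → Elt
  | .cor v k => .cor v k
  | .lid j => if j < i then .lid j else .lid (j + 2)

private theorem D_BdCap_h_ne (i : ℕ) (y : Elt) : D_BdCap_h i y ≠ .lid i := by
  cases y with
  | cor v k => simp [D_BdCap_h]
  | lid j =>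
    simp only [D_BdCap_h]
    split_ifs with hj
    · intro h
      injection h with h
      omega
    · intro h
      injection h with h
      omega

private theorem D_BdCap_h_ne2 (i : ℕ) (y : Elt) (hy : y ≠ .lid i) :
    D_BdCap_h i y ≠ .lid (i + 2) := by
  cases y with
  | cor v k => simp [D_BdCap_h]
  | lid j =>
    simp only [D_BdCap_h]
    split_ifs with hj
    · intro h
      injection h with h
      omega
    · intro h
      injection h with h
      apply hy
      have : j = i := by omega
      rw [this]

private theorem D_BdCap_mem_g (i : ℕ) (y : Elt) :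
    y ∈ D_BdCap_g i (D_BdCap_h i y) ↔ y ≠ .lid i := by
  cases y with
  | cor v k => simp [D_BdCap_h, D_BdCap_g]
  | lid j =>
    by_cases hj : j < i
    · have hne : (Elt.lid j) ≠ .lid i := by
        intro h
        injection h with h
        omega
      simp only [D_BdCap_h, if_pos hj, D_BdCap_g, List.mem_singleton, true_iff]
      exact hne
    · simp only [D_BdCap_h, if_neg hj, D_BdCap_g]
      rw [if_neg (by omega : ¬ j + 2 < i)]
      by_cases hji : j = i
      · subst hji
        simp
      · rw [if_neg (by omega : ¬ j + 2 ≤ i + 2)]
        simp only [Nat.add_sub_cancel, List.mem_singleton, true_iff]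
        intro h
        injection h with h
        omega

private theorem D_BdCap_subst {R : Strands} {i α β : ℕ} {P s : List ℕ} (hP : P.length = i)
    (hstr : R.str = P ++ α :: β :: s) (l : List Elt) (h1 : Elt.lid i ∉ l)
    (h2 : Elt.lid (i + 2) ∉ l) :
    Subst l (D_BdCap_g i) (D_BdCap_h i) (lin R) (lout R)
      (lin ⟨(P ++ s).map (ident α β), R.nxt, R.leg.map (fun x k => ident α β (x k))⟩)
      (lout ⟨(P ++ s).map (ident α β), R.nxt, R.leg.map (fun x k => ident α β (x k))⟩)
      (ident α β) := by
  have h0 := D_BdCap_ident_zero α β
  have hli : ∀ j, lin ⟨(P ++ s).map (ident α β), R.nxt, R.leg.map (fun x k => ident α β (x k))⟩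
      (.lid j) = ident α β ((P ++ (s ++ [0])).getD j 0) := by
    intro j
    simp only [lin]
    rw [← D_BdCap_getD_map h0, ← List.append_assoc, List.map_append (l₂ := [0]), List.map_singleton,
      h0]
  have hlo : ∀ j, lout ⟨(P ++ s).map (ident α β), R.nxt, R.leg.map (fun x k => ident α β (x k))⟩
      (.lid j) = ident α β (((0 :: P) ++ s).getD j 0) := by
    intro j
    simp only [lout]
    rw [← D_BdCap_getD_map h0, List.cons_append, List.map_cons, h0]
  have hli0 : ∀ j, lin R (.lid j) = (P ++ α :: β :: (s ++ [0])).getD j 0 := by
    intro j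
    simp only [lin, hstr, List.append_assoc, List.cons_append]
  have hlo0 : ∀ j, lout R (.lid j) = ((0 :: P) ++ α :: β :: s).getD j 0 := by
    intro j
    simp only [lout, hstr, List.cons_append]
  constructor
  · intro x hx y hy
    cases x with
    | cor v k =>
      simp only [D_BdCap_g, List.mem_singleton] at hy
      subst hy
      rfl
    | lid j =>
      simp only [D_BdCap_g] at hy
      split_ifs at hy with h3 h4
      · rw [List.mem_singleton] at hy
        subst hy
        simp only [D_BdCap_h, if_pos h3]
      · simp at hy
      · rw [List.mem_singleton] at hy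
        subst hy
        simp only [D_BdCap_h]
        rw [if_neg (by omega)]
        congr 1
        omega
  · intro x _
    cases x with
    | cor v k => simp [D_BdCap_g]
    | lid j =>
      simp only [D_BdCap_g]
      split_ifs <;> simp
  · intro x hx
    cases x with
    | cor v k =>
      refine ⟨?_, ?_⟩
      · simp only [lin]
        exact D_BdCap_getD_fun h0 _ _ _
      · change lout _ _ = _
        simp only [lout]
        exact D_BdCap_getD_fun h0 _ _ _
    | lid j =>
      simp only [D_BdCap_g]
      split_ifs with h3 h4
      · refine ⟨?_, ?_⟩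
        · rw [hli, hli0, D_BdCap_getD_lt P _ (α :: β :: (s ++ [0])) (by omega)]
        · change lout _ _ = _
          rw [hlo, hlo0, D_BdCap_getD_lt (0 :: P) _ (α :: β :: s) (by simp; omega)]
      · have hj : j = i + 1 := by
          by_contra hne
          rcases (by omega : j = i ∨ j = i + 2) with h5 | h5
          · subst h5
            exact h1 hx
          · subst h5
            exact h2 hx
        subst hj
        change ident α β (lin R _) = ident α β (lout R _)
        rw [hli0, hlo0]
        have e1 : (P ++ α :: β :: (s ++ [0])).getD (i + 1) 0 = β := by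
          rw [List.getD_append_right _ _ _ _ (by omega), hP]
          simp
        have e2 : ((0 :: P) ++ α :: β :: s).getD (i + 1) 0 = α := by
          rw [List.getD_append_right _ _ _ _ (by simp; omega)]
          simp [hP]
        rw [e1, e2, D_BdCap_ident_left, D_BdCap_ident_right]
      · have hj : j = (j - 2) + 2 := by omega
        refine ⟨?_, ?_⟩
        · rw [hli, hli0]
          conv_rhs => rw [hj]
          rw [D_BdCap_getD_ge P _ α β (by omega)]
        · change lout _ _ = _
          rw [hlo, hlo0]
          conv_rhs => rw [hj]
          rw [D_BdCap_getD_ge (0 :: P) _ α β (by simp; omega)]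

private theorem D_BdCap_decomp {l : List ℕ} {i : ℕ} (h : i + 2 ≤ l.length) :
    ∃ (P : List ℕ) (α β : ℕ) (s : List ℕ), P.length = i ∧ l = P ++ α :: β :: s ∧
      l.drop i = α :: β :: s ∧ l.take i = P := by
  refine ⟨l.take i, l[i], l[i + 1], l.drop (i + 2), by simp; omega, ?_, ?_, rfl⟩
  · conv_lhs => rw [← List.take_append_drop i l]
    rw [List.drop_eq_getElem_cons (by omega : i < l.length),
      List.drop_eq_getElem_cons (by omega : i + 1 < l.length)]
  · rw [List.drop_eq_getElem_cons (by omega : i < l.length),
      List.drop_eq_getElem_cons (by omega : i + 1 < l.length)]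

/-! ### Counting -/

private theorem D_BdCap_count_other {α β l : ℕ} (h1 : l ≠ α) (h2 : l ≠ β) (M : List ℕ) :
    (M.map (ident α β)).count l = M.count l := by
  induction M with
  | nil => rfl
  | cons x M ih =>
    rw [List.map_cons, List.count_cons, List.count_cons, ih]
    congr 1
    have : (ident α β x == l) = (x == l) := by
      rw [Bool.eq_iff_iff, beq_iff_eq, beq_iff_eq]
      exact D_BdCap_ident_eq_of_ne (by omega) (by omega) x
    rw [this]

private theorem D_BdCap_count_max {α β : ℕ} (h : α ≠ β) (M : List ℕ) :
    (M.map (ident α β)).count (max α β) = 0 := by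
  rw [List.count_eq_zero]
  intro hm
  rw [List.mem_map] at hm
  obtain ⟨x, _, hx⟩ := hm
  exact D_BdCap_ident_ne_max h x hx

private theorem D_BdCap_count_min {α β : ℕ} (h : α ≠ β) (M : List ℕ) :
    (M.map (ident α β)).count (min α β) = M.count α + M.count β := by
  induction M with
  | nil => rfl
  | cons x M ih =>
    rw [List.map_cons, List.count_cons, List.count_cons, List.count_cons, ih]
    by_cases hx : x = α
    · subst hx
      have e1 : (ident x β x == min x β) = true := by
        rw [beq_iff_eq]
        exact D_BdCap_ident_left x β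
      have e2 : (x == β) = false := by
        rw [beq_eq_false_iff_ne]
        exact h
      rw [e1, e2]
      simp
      omega
    · by_cases hx2 : x = β
      · subst hx2
        have e1 : (ident α x x == min α x) = true := by
          rw [beq_iff_eq]
          exact D_BdCap_ident_right α x
        have e2 : (x == α) = false := by
          rw [beq_eq_false_iff_ne]
          exact hx
        rw [e1, e2]
        simp
        omega
      · have e1 : (ident α β x == min α β) = false := by
          rw [beq_eq_false_iff_ne]
          intro h3
          rcases (D_BdCap_ident_eq_min x).mp h3 with h4 | h4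
          · exact hx h4
          · exact hx2 h4
        have e2 : (x == α) = false := by
          rw [beq_eq_false_iff_ne]
          exact hx
        have e3 : (x == β) = false := by
          rw [beq_eq_false_iff_ne]
          exact hx2
        rw [e1, e2, e3]
        simp

private theorem D_BdCap_ident_self (α x : ℕ) : ident α α x = x := by
  unfold ident
  split_ifs with h
  · omega
  · rfl

/-- the ends after the maximum -/
private theorem D_BdCap_count {α β : ℕ} {N M : List ℕ} (hN : N.Perm (α :: β :: M))
    (hc : ∀ l ∈ N, N.count l = 2) : ∀ l ∈ M.map (ident α β), (M.map (ident α β)).count l = 2 := by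
  have hc' : ∀ l ∈ α :: β :: M, (α :: β :: M).count l = 2 := by
    intro l hl
    rw [← hN.count_eq]
    exact hc l (hN.mem_iff.mpr hl)
  intro l hl
  by_cases hab : α = β
  · subst hab
    have e : M.map (ident α α) = M := by
      conv_rhs => rw [← List.map_id M]
      apply List.map_congr_left
      intro x _
      exact D_BdCap_ident_self α x
    rw [e] at hl ⊢
    have h1 := hc' l (List.mem_cons_of_mem _ (List.mem_cons_of_mem _ hl))
    by_cases hla : l = α
    · subst hla
      rw [List.count_cons_self, List.count_cons_self] at h1
      have : 0 < M.count l := List.count_pos_iff.mpr hl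
      omega
    · rw [List.count_cons_of_ne (Ne.symm hla), List.count_cons_of_ne (Ne.symm hla)] at h1
      exact h1
  · by_cases h1 : l = max α β
    · subst h1
      rw [List.mem_map] at hl
      obtain ⟨x, _, hx⟩ := hl
      exact absurd hx (D_BdCap_ident_ne_max hab x)
    · by_cases h2 : l = min α β
      · subst h2
        rw [D_BdCap_count_min hab]
        have h3 := hc' α (by simp)
        have h4 := hc' β (by simp)
        rw [List.count_cons_self, List.count_cons_of_ne (Ne.symm hab)] at h3
        rw [List.count_cons_of_ne hab, List.count_cons_self] at h4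
        omega
      · have h3 : l ≠ α := by omega
        have h4 : l ≠ β := by omega
        rw [D_BdCap_count_other h3 h4]
        have hlM : l ∈ M := by
          rw [List.mem_map] at hl
          obtain ⟨x, hx, hx2⟩ := hl
          rw [D_BdCap_ident_eq_of_ne h2 h1] at hx2
          rw [← hx2]
          exact hx
        have h5 := hc' l (List.mem_cons_of_mem _ (List.mem_cons_of_mem _ hlM))
        rw [List.count_cons_of_ne (Ne.symm h3), List.count_cons_of_ne (Ne.symm h4)] at h5
        exact h5

/-! ### The faces -/

private theorem D_BdCap_fac_lid {S : Sweep} {G r : List ℕ} {i a e b : ℕ} (hG : G.length = i)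
    (hg : S.gaps = G ++ a :: e :: b :: r) (F : List ℕ) (n : ℕ) (y : Elt) (hy : y ≠ .lid i) :
    fac ⟨(G ++ a :: r).map (ident a b), F, n, S.cor.map (fun x k => ident a b (x k))⟩ y =
      ident a b (fac S (D_BdCap_h i y)) := by
  have h0 := D_BdCap_ident_zero a b
  cases y with
  | cor v k =>
    simp only [fac, D_BdCap_h]
    exact D_BdCap_getD_fun h0 _ _ _
  | lid j =>
    have hji : j ≠ i := fun h => hy (by rw [h])
    simp only [fac, D_BdCap_h]
    rw [D_BdCap_getD_map h0]
    split_ifs with hj
    · change _ = ident a b (S.gaps.getD j 0)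
      rw [hg, D_BdCap_getD_lt G _ (a :: e :: b :: r) (by omega)]
    · change _ = ident a b (S.gaps.getD (j + 2) 0)
      have e1 : G ++ a :: r = (G ++ [a]) ++ r := by simp
      have e2 : G ++ a :: e :: b :: r = (G ++ [a]) ++ e :: b :: r := by simp
      rw [hg, e1, e2, D_BdCap_getD_ge (G ++ [a]) _ e b (by simp; omega)]

private theorem D_BdCap_val {S : Sweep} {G r : List ℕ} {i a e b : ℕ} (hG : G.length = i)
    (hg : S.gaps = G ++ a :: e :: b :: r) (F : List ℕ) (n : ℕ) (y : Elt) (hy : y ≠ .lid i) :
    Val ⟨(G ++ a :: r).map (ident a b), F, n, S.cor.map (fun x k => ident a b (x k))⟩ y ↔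
      Val S (D_BdCap_h i y) := by
  cases y with
  | cor v k => simp [Val, D_BdCap_h]
  | lid j =>
    have hji : j ≠ i := fun h => hy (by rw [h])
    simp only [Val, D_BdCap_h]
    have hl : S.gaps.length = i + 3 + r.length := by
      rw [hg, List.length_append, hG]
      simp
      omega
    have hl' : ((G ++ a :: r).map (ident a b)).length = i + 1 + r.length := by
      rw [List.length_map, List.length_append, hG]
      simp
      omega
    rw [hl']
    split_ifs with hj
    · change _ ↔ j < S.gaps.length
      omega
    · change _ ↔ j + 2 < S.gaps.length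
      omega

theorem inv_cap {S S' : Sweep} {R : Strands} {bd : ℕ → List Elt} {χ : ℕ → ℕ} (h : Inv S R bd χ)
    (i : ℕ) (hS : S.step (.cap i) = some S') :
    ∃ R' bd' χ', R.step (.cap i) = some R' ∧ Inv S' R' bd' χ' := by
  classical
  -- the gaps
  obtain ⟨a, e, b, r, hdrop, hab, hmax, rfl⟩ : ∃ a e b r, S.gaps.drop i = a :: e :: b :: r ∧
      a ≠ b ∧ 2 ≤ max a b ∧
      S' = ⟨(S.gaps.take i ++ a :: r).map (ident a b), S.faces.erase (max a b), S.nxt,
          S.cor.map (fun x k => ident a b (x k))⟩ := by
    unfold Sweep.step at hS
    simp only at hS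
    split at hS
    · rename_i a e b r heq
      split_ifs at hS with hc
      push Not at hc
      refine ⟨a, e, b, r, heq, hc.1, by omega, ?_⟩
      injection hS with hS
      exact hS.symm
    · simp at hS
  have hdl := congrArg List.length hdrop
  rw [List.length_drop] at hdl
  simp only [List.length_cons] at hdl
  have hgl : S.gaps.length = i + 3 + r.length := by omega
  obtain ⟨G, hG, hg⟩ : ∃ G : List ℕ, G = S.gaps.take i ∧ S.gaps = G ++ a :: e :: b :: r :=
    ⟨_, rfl, by rw [← hdrop, List.take_append_drop]⟩
  have hGl : G.length = i := by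
    rw [hG, List.length_take]
    omega
  rw [← hG]
  -- the strands
  have hlen := h.len
  obtain ⟨P, α, β, s, hP, hstr, hsd, hst⟩ := D_BdCap_decomp (l := R.str) (i := i) (by omega)
  have hsl : s.length = r.length := by
    have := congrArg List.length hstr
    rw [List.length_append, hP] at this
    simp only [List.length_cons] at this
    omega
  -- the two faces
  have hga : S.gaps.getD i 0 = a := by
    rw [hg, List.getD_append_right _ _ _ _ (by omega), hGl]
    simp
  have hge : S.gaps.getD (i + 1) 0 = e := by
    rw [hg, List.getD_append_right _ _ _ _ (by omega), hGl]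
    simp
  have hgb : S.gaps.getD (i + 2) 0 = b := by
    rw [hg, List.getD_append_right _ _ _ _ (by omega), hGl]
    simp
  have hχ : χ a = χ b := by
    have h1 := h.colg i (by omega)
    have h2 := h.colg (i + 2) (by omega)
    rw [hga] at h1
    rw [hgb] at h2
    rw [h1, h2]
    omega
  have hma : Elt.lid i ∈ bd a := (h.mem a _).mpr ⟨(by omega : i < S.gaps.length), hga⟩
  have hmb : Elt.lid (i + 2) ∈ bd b := (h.mem b _).mpr ⟨(by omega : i + 2 < S.gaps.length), hgb⟩
  obtain ⟨pa, hpa⟩ := h.path a
  obtain ⟨pb, hpb⟩ := h.path b
  obtain ⟨A, hA, hpA⟩ := path_rot hpa hma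
  obtain ⟨B, hB, hpB⟩ := path_rot hpb hmb
  have hndA := (hA.nodup_iff.mp (h.nd a))
  have hndB := (hB.nodup_iff.mp (h.nd b))
  rw [List.nodup_cons] at hndA hndB
  have hAm : ∀ y, y ∈ A ↔ (Val S y ∧ fac S y = a) ∧ y ≠ .lid i := by
    intro y
    rw [← h.mem a y, hA.mem_iff, List.mem_cons]
    constructor
    · intro hy
      refine ⟨Or.inr hy, ?_⟩
      rintro rfl
      exact hndA.1 hy
    · rintro ⟨h1 | h1, h2⟩
      · exact absurd h1 h2
      · exact h1
  have hBm : ∀ y, y ∈ B ↔ (Val S y ∧ fac S y = b) ∧ y ≠ .lid (i + 2) := by
    intro y
    rw [← h.mem b y, hB.mem_iff, List.mem_cons]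
    constructor
    · intro hy
      refine ⟨Or.inr hy, ?_⟩
      rintro rfl
      exact hndB.1 hy
    · rintro ⟨h1 | h1, h2⟩
      · exact absurd h1 h2
      · exact h1
  have hABi : Elt.lid i ∉ A ++ B := by
    rw [List.mem_append, hAm, hBm]
    rintro (h1 | h1)
    · exact h1.2 rfl
    · have h2 : S.gaps.getD i 0 = b := h1.1.2
      rw [hga] at h2
      exact hab h2
  have hABi2 : Elt.lid (i + 2) ∉ A ++ B := by
    rw [List.mem_append, hAm, hBm]
    rintro (h1 | h1)
    · have h2 : S.gaps.getD (i + 2) 0 = a := h1.1.2
      rw [hgb] at h2
      exact hab h2.symm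
    · exact h1.2 rfl
  have hSAB := D_BdCap_subst hP hstr (A ++ B) hABi hABi2
  have hSf : ∀ f, f ≠ max a b → f ≠ min a b → Subst (bd f) (D_BdCap_g i) (D_BdCap_h i) (lin R)
      (lout R) (lin ⟨(P ++ s).map (ident α β), R.nxt, R.leg.map (fun x k => ident α β (x k))⟩)
      (lout ⟨(P ++ s).map (ident α β), R.nxt, R.leg.map (fun x k => ident α β (x k))⟩)
      (ident α β) := by
    intro f h1 h2
    refine D_BdCap_subst hP hstr (bd f) ?_ ?_
    · rw [h.mem]
      rintro ⟨_, h3⟩
      change S.gaps.getD i 0 = f at h3
      rw [hga] at h3
      omega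
    · rw [h.mem]
      rintro ⟨_, h3⟩
      change S.gaps.getD (i + 2) 0 = f at h3
      rw [hgb] at h3
      omega
  have hlii : lin R (.lid i) = α := by
    simp only [lin, hstr, List.append_assoc]
    rw [List.getD_append_right _ _ _ _ (by omega), hP]
    simp
  have hloi2 : lout R (.lid (i + 2)) = β := by
    simp only [lout, hstr]
    rw [List.getD_cons_succ, List.getD_append_right _ _ _ _ (by omega), hP]
    simp
  have h0 := D_BdCap_ident_zero α β
  refine ⟨⟨(P ++ s).map (ident α β), R.nxt, R.leg.map (fun x k => ident α β (x k))⟩,
    fun f => if f = max a b then [] else if f = min a b then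
      Elt.lid i :: (A ++ B).flatMap (D_BdCap_g i) else (bd f).flatMap (D_BdCap_g i), χ, ?_, ?_⟩
  · unfold Strands.step
    simp only [hsd, hst]
  have hfi : fac ⟨(G ++ a :: r).map (ident a b), S.faces.erase (max a b), S.nxt,
      S.cor.map (fun x k => ident a b (x k))⟩ (.lid i) = min a b := by
    simp only [fac]
    rw [D_BdCap_getD_map (D_BdCap_ident_zero a b), List.getD_append_right _ _ _ _ (by omega), hGl]
    simp only [Nat.sub_self, List.getD_cons_zero]
    exact D_BdCap_ident_left a b
  have hfac := fun y hy => D_BdCap_fac_lid hGl hg (S.faces.erase (max a b)) S.nxt y hy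
  have hval := fun y hy => D_BdCap_val hGl hg (S.faces.erase (max a b)) S.nxt y hy
  constructor
  case len =>
    rw [List.length_map, List.length_map, List.length_append, List.length_append, hP, hGl,
      List.length_cons, hsl]
    omega
  case lenc =>
    rw [List.length_map, List.length_map]
    exact h.lenc
  case mem =>
    intro f y
    by_cases hf1 : f = max a b
    · simp only [if_pos hf1]
      constructor
      · intro hy
        simp at hy
      · rintro ⟨_, h2⟩
        exfalso
        by_cases hy : y = .lid i
        · rw [hy, hfi] at h2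
          omega
        · rw [hfac y hy, hf1] at h2
          exact D_BdCap_ident_ne_max hab _ h2
    · by_cases hf2 : f = min a b
      · simp only [if_neg hf1, if_pos hf2]
        rw [List.mem_cons, mem_subst hSAB, D_BdCap_mem_g, List.mem_append, hAm, hBm]
        by_cases hy : y = .lid i
        · rw [hy, hfi]
          constructor
          · intro _
            refine ⟨?_, hf2.symm⟩
            change i < ((G ++ a :: r).map (ident a b)).length
            rw [List.length_map, List.length_append, hGl, List.length_cons]
            omega
          · intro _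
            exact Or.inl rfl
        · rw [hfac y hy, hval y hy, hf2, D_BdCap_ident_eq_min]
          constructor
          · rintro (h1 | ⟨h1 | h1, _⟩)
            · exact absurd h1 hy
            · exact ⟨h1.1.1, Or.inl h1.1.2⟩
            · exact ⟨h1.1.1, Or.inr h1.1.2⟩
          · rintro ⟨h1, h2 | h2⟩
            · exact Or.inr ⟨Or.inl ⟨⟨h1, h2⟩, D_BdCap_h_ne i y⟩, hy⟩
            · exact Or.inr ⟨Or.inr ⟨⟨h1, h2⟩, D_BdCap_h_ne2 i y hy⟩, hy⟩
      · simp only [if_neg hf1, if_neg hf2]
        rw [mem_subst (hSf f hf1 hf2), D_BdCap_mem_g, h.mem]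
        by_cases hy : y = .lid i
        · rw [hy, hfi]
          constructor
          · rintro ⟨_, h1⟩
            exact absurd rfl h1
          · rintro ⟨_, h1⟩
            exact absurd h1.symm hf2
        · rw [hfac y hy, hval y hy, D_BdCap_ident_eq_of_ne hf2 hf1]
          constructor
          · rintro ⟨h1, _⟩
            exact h1
          · intro h1
            exact ⟨h1, hy⟩
  case nd =>
    intro f
    by_cases hf1 : f = max a b
    · simp only [if_pos hf1]
      exact List.nodup_nil
    · by_cases hf2 : f = min a b
      · simp only [if_neg hf1, if_pos hf2]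
        rw [List.nodup_cons]
        refine ⟨?_, nodup_subst hSAB ?_⟩
        · rw [mem_subst hSAB, D_BdCap_mem_g]
          rintro ⟨_, h1⟩
          exact h1 rfl
        · rw [List.nodup_append]
          refine ⟨hndA.2, hndB.2, ?_⟩
          intro x hx y hy hxy
          rw [hAm] at hx
          rw [hBm] at hy
          apply hab
          rw [← hx.1.2, ← hy.1.2, hxy]
      · simp only [if_neg hf1, if_neg hf2]
        exact nodup_subst (hSf f hf1 hf2) (h.nd f)
  case path =>
    intro f
    by_cases hf1 : f = max a b
    · simp only [if_pos hf1]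
      exact ⟨0, rfl⟩
    · by_cases hf2 : f = min a b
      · simp only [if_neg hf1, if_pos hf2]
        refine ⟨ident α β (lin R (.lid (i + 2))), ?_, ?_⟩
        · simp only [lin]
          rw [hstr]
          have e1 : (P ++ s).map (ident α β) ++ [0] = (P ++ (s ++ [0])).map (ident α β) := by
            rw [← List.append_assoc, List.map_append (l₂ := [0]), List.map_singleton, h0]
          have e2 : P ++ α :: β :: s ++ [0] = P ++ α :: β :: (s ++ [0]) := by simp
          rw [e1, e2, D_BdCap_getD_map h0, D_BdCap_getD_ge P _ α β (by omega)]
        · have e3 : lout ⟨(P ++ s).map (ident α β), R.nxt,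
              R.leg.map (fun x k => ident α β (x k))⟩ (.lid i) =
              ident α β (lout R (.lid i)) := by
            simp only [lout]
            rw [hstr]
            have e1 : 0 :: (P ++ s).map (ident α β) = ((0 :: P) ++ s).map (ident α β) := by
              rw [List.cons_append, List.map_cons, h0]
            have e2 : 0 :: (P ++ α :: β :: s) = (0 :: P) ++ α :: β :: s := by simp
            rw [e1, e2, D_BdCap_getD_map h0,
              D_BdCap_getD_lt (0 :: P) _ (α :: β :: s) (by simp; omega)]
          rw [e3, List.flatMap_append]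
          have hSA : Subst A (D_BdCap_g i) (D_BdCap_h i) (lin R) (lout R)
              (lin ⟨(P ++ s).map (ident α β), R.nxt, R.leg.map (fun x k => ident α β (x k))⟩)
              (lout ⟨(P ++ s).map (ident α β), R.nxt, R.leg.map (fun x k => ident α β (x k))⟩)
              (ident α β) :=
            D_BdCap_subst hP hstr A (fun hh => hABi (List.mem_append_left _ hh))
              (fun hh => hABi2 (List.mem_append_left _ hh))
          have hSB : Subst B (D_BdCap_g i) (D_BdCap_h i) (lin R) (lout R)
              (lin ⟨(P ++ s).map (ident α β), R.nxt, R.leg.map (fun x k => ident α β (x k))⟩)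
              (lout ⟨(P ++ s).map (ident α β), R.nxt, R.leg.map (fun x k => ident α β (x k))⟩)
              (ident α β) :=
            D_BdCap_subst hP hstr B (fun hh => hABi (List.mem_append_right _ hh))
              (fun hh => hABi2 (List.mem_append_right _ hh))
          have hPA := path_subst hSA hpA
          have hPB := path_subst hSB hpB
          rw [hlii, D_BdCap_ident_left] at hPA
          rw [hloi2, D_BdCap_ident_right] at hPB
          exact path_append hPA hPB
      · simp only [if_neg hf1, if_neg hf2]
        obtain ⟨a0, ha0⟩ := h.path f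
        exact ⟨_, path_subst (hSf f hf1 hf2) ha0⟩
  case flt =>
    intro y hy
    by_cases hyi : y = .lid i
    · rw [hyi, hfi]
      have h1 := h.flt (.lid i) (by omega : i < S.gaps.length)
      change S.gaps.getD i 0 < S.nxt at h1
      rw [hga] at h1
      change min a b < S.nxt
      omega
    · rw [hfac y hyi]
      rw [hval y hyi] at hy
      exact lt_of_le_of_lt (D_BdCap_ident_le _ _ _) (h.flt _ hy)
  case slt =>
    intro l hl
    have h1 : l ∈ ((R.leg.flatMap (fun x : Fin 4 → ℕ => [x 0, x 1, x 2, x 3])) ++ P ++ s ++ [0]).map
        (ident α β) := by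
      have e1 : labs ⟨(P ++ s).map (ident α β), R.nxt, R.leg.map (fun x k => ident α β (x k))⟩ =
          ((R.leg.flatMap (fun x : Fin 4 → ℕ => [x 0, x 1, x 2, x 3])) ++ P ++ s ++ [0]).map
            (ident α β) := by
        simp only [labs, List.map_append, List.flatMap_map, List.map_flatMap, List.map_cons,
          List.map_nil, h0, List.append_assoc]
      rwa [e1] at hl
    rw [List.mem_map] at h1
    obtain ⟨x, hx, rfl⟩ := h1
    have h2 : x ∈ labs R := by
      simp only [labs, hstr, List.mem_append, List.mem_cons] at hx ⊢
      tauto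
    exact lt_of_le_of_lt (D_BdCap_ident_le _ _ _) (h.slt x h2)
  case cnt =>
    have e1 : labs ⟨(P ++ s).map (ident α β), R.nxt, R.leg.map (fun x k => ident α β (x k))⟩ =
        ((R.leg.flatMap (fun x : Fin 4 → ℕ => [x 0, x 1, x 2, x 3])) ++ P ++ s ++ [0]).map
          (ident α β) := by
      simp only [labs, List.map_append, List.flatMap_map, List.map_flatMap, List.map_cons,
        List.map_nil, h0, List.append_assoc]
    rw [e1]
    refine D_BdCap_count (N := labs R) ?_ h.cnt
    simp only [labs, hstr]
    rw [List.perm_iff_count]
    intro x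
    simp only [List.count_append, List.count_cons]
    omega
  case colg =>
    intro j hj
    change χ (((G ++ a :: r).map (ident a b)).getD j 0) = j % 2
    change j < ((G ++ a :: r).map (ident a b)).length at hj
    rw [List.length_map, List.length_append, hGl, List.length_cons] at hj
    by_cases hji : j = i
    · have h1 := h.colg i (by omega)
      rw [hga] at h1
      have h2 : ((G ++ a :: r).map (ident a b)).getD i 0 = min a b := hfi
      rw [hji, h2]
      rcases min_choice a b with h3 | h3
      · rw [h3, h1]
      · rw [h3, ← hχ, h1]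
    · have h1 : ((G ++ a :: r).map (ident a b)).getD j 0 = ident a b (fac S (D_BdCap_h i (.lid j))) :=
        hfac (.lid j) (fun hh => hji (by injection hh))
      rw [h1, D_BdCap_chi hχ]
      simp only [D_BdCap_h]
      split_ifs with hj2
      · exact h.colg j (by omega)
      · have h2 := h.colg (j + 2) (by omega)
        change χ (S.gaps.getD (j + 2) 0) = _
        rw [h2]
        omega
  case colc =>
    intro v hv k
    change v < (S.cor.map (fun x k => ident a b (x k))).length at hv
    rw [List.length_map] at hv
    change χ (((S.cor.map (fun x k => ident a b (x k))).getD v (fun _ => 0)) k) ≠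
      χ (((S.cor.map (fun x k => ident a b (x k))).getD v (fun _ => 0)) (k + 1))
    rw [D_BdCap_getD_fun (D_BdCap_ident_zero a b), D_BdCap_getD_fun (D_BdCap_ident_zero a b),
      D_BdCap_chi hχ, D_BdCap_chi hχ]
    exact h.colc v hv k
  case nxt => exact h.nxt

end Pool.Agent.H63.CLK
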