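import Pool.Agent.H63.CLK.D_BdA

/-! # CLK part D0, D_BdCup: the invariant at a minimum

Let `f = a` be the face of the gap `i`, `n = R.nxt`, `N = S.nxt`. New strands: `R.str.take i ++ n :: n ::
R.str.drop i`; new gaps: `S.gaps.take i ++ a :: N :: a :: r`, i.e. the gap `j` is the old gap `j` for
`j <= i`, the gap `i + 1` has the new face `N`, the gap `j + 2` is the old gap `j` for `j >= i`.
`g (lid j) = [lid j]` for `j < i`, `g (lid i) = [lid (i + 2), lid i]`, `g (lid j) = [lid (j + 2)]` for
`j > i`, `g (cor v k) = [cor v k]`; `h (lid j) = lid j` for `j <= i`, `h (lid (i + 2)) = lid i`,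
`h (lid j) = lid (j - 2)` for `j > i + 2`, `h (lid (i + 1)) = lid 0` (irrelevant), `rho = id`.
`bd' N = [lid (i + 1)]`, `bd' f = (bd f).flatMap g` for `f ≠ N` (`bd N = []` because all faces are `< N`).
`chi' = Function.update chi N ((i + 1) % 2)`.
Check of the paths: first strands `lin'`: `lid j`, `j < i`: unchanged; `lid i`: `n`; `lid (i + 1)`: `n`;
`lid (j + 2)`, `j >= i`: `lin (lid j)`. Last strands: `lid j`, `j <= i`: unchanged; `lid (i + 1)`: `n`;
`lid (i + 2)`: `n`; `lid (j + 2)`, `j > i`: `lout (lid j)`. So `[lid (i + 2), lid i]` is a path from
`lin (lid i)` to `lout (lid i)`, and `[lid (i + 1)]` is a path from `n` to `n`.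
Counts: the new strand `n` (larger than all old ones) occurs exactly twice. -/

namespace Pool.Agent.H63.CLK

/-- Entries after the insertion of two elements. -/
private theorem D_BdCup_getD {α : Type*} (l : List α) (i : ℕ) (hi : i ≤ l.length) (x y d : α)
    (j : ℕ) :
    (l.take i ++ x :: y :: l.drop i).getD j d =
      if j < i then l.getD j d else if j = i then x else if j = i + 1 then y
        else l.getD (j - 2) d := by
  have hl : (l.take i).length = i := by simp [hi]
  simp only [List.getD_eq_getElem?_getD]
  split_ifs with h1 h2 h3
  · rw [List.getElem?_append_left (by omega), List.getElem?_take_of_lt h1]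
  · subst h2
    rw [List.getElem?_append_right (by omega), hl, Nat.sub_self]
    rfl
  · subst h3
    rw [List.getElem?_append_right (by omega), hl, Nat.add_sub_cancel_left]
    rfl
  · rw [List.getElem?_append_right (by omega), hl]
    obtain ⟨m, rfl⟩ : ∃ m, j = i + (m + 2) := ⟨j - i - 2, by omega⟩
    rw [Nat.add_sub_cancel_left, show i + (m + 2) - 2 = i + m by omega]
    simp [List.getElem?_drop]

/-- The lists which replace the elements. -/
private def D_BdCup_g (i : ℕ) : Elt → List Elt
  | .cor v k => [.cor v k]
  | .lid j => if j < i then [.lid j] else if j = i then [.lid (i + 2), .lid i] else [.lid (j + 2)]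

/-- The inverse. -/
private def D_BdCup_h (i : ℕ) : Elt → Elt
  | .cor v k => .cor v k
  | .lid j => if j ≤ i then .lid j else .lid (j - 2)

theorem inv_cup {S S' : Sweep} {R : Strands} {bd : ℕ → List Elt} {χ : ℕ → ℕ} (h : Inv S R bd χ)
    (i : ℕ) (hS : S.step (.cup i) = some S') :
    ∃ R' bd' χ', R.step (.cup i) = some R' ∧ Inv S' R' bd' χ' := by
  obtain ⟨a, r, hdrop⟩ : ∃ a r, S.gaps.drop i = a :: r := by
    cases hd : S.gaps.drop i with
    | nil => simp [Sweep.step, hd] at hS
    | cons a r => exact ⟨a, r, rfl⟩
  have hS' : S' = ⟨S.gaps.take i ++ a :: S.nxt :: S.gaps.drop i, S.nxt :: S.faces, S.nxt + 1,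
      S.cor⟩ := by
    simp only [Sweep.step, hdrop, Option.some.injEq] at hS
    rw [hdrop]
    exact hS.symm
  have hi : i < S.gaps.length := by
    by_contra hcon
    rw [List.drop_eq_nil_of_le (by omega)] at hdrop
    exact absurd hdrop (by simp)
  have ha : S.gaps.getD i 0 = a := by
    rw [List.getD_eq_getElem?_getD]
    have h1 : (S.gaps.drop i)[0]? = some a := by rw [hdrop]; rfl
    rw [List.getElem?_drop, Nat.add_zero] at h1
    rw [h1]
    rfl
  have hlen := h.len
  have hiL : i ≤ R.str.length := by omega
  set n := R.nxt with hn
  set N := S.nxt with hN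
  let R' : Strands := ⟨R.str.take i ++ n :: n :: R.str.drop i, n + 1, R.leg⟩
  -- entries
  have eG : ∀ j, S'.gaps.getD j 0 = if j ≤ i then S.gaps.getD j 0 else if j = i + 1 then N
      else S.gaps.getD (j - 2) 0 := by
    intro j
    rw [hS']
    simp only
    rw [D_BdCup_getD S.gaps i hi.le a N 0 j]
    by_cases h1 : j < i
    · simp [h1, h1.le]
    · by_cases h2 : j = i
      · subst h2
        simp only [lt_self_iff_false, if_false, if_true, le_refl]
        exact ha.symm
      · have h3 : ¬ j ≤ i := by omega
        simp only [h1, h2, h3, if_false]
  have lG : S'.gaps.length = S.gaps.length + 2 := by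
    rw [hS']
    simp only [List.length_append, List.length_take, List.length_cons, List.length_drop]
    omega
  have lL : R'.str.length = R.str.length + 2 := by
    simp only [R', List.length_append, List.length_take, List.length_cons, List.length_drop]
    omega
  have eI : ∀ j, lin R' (.lid j) = if j < i then lin R (.lid j) else if j ≤ i + 1 then n
      else lin R (.lid (j - 2)) := by
    intro j
    have e1 : R'.str ++ [0] = (R.str ++ [0]).take i ++ n :: n :: (R.str ++ [0]).drop i := by
      simp only [R']
      rw [List.take_append_of_le_length hiL, List.drop_append_of_le_length hiL]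
      simp
    simp only [lin]
    rw [e1, D_BdCup_getD (R.str ++ [0]) i (by simp; omega) n n 0 j]
    by_cases h1 : j < i
    · simp [h1]
    · by_cases h2 : j = i
      · subst h2
        simp
      · by_cases h3 : j = i + 1
        · subst h3
          simp
        · have h4 : ¬ j ≤ i + 1 := by omega
          simp only [h1, h2, h3, h4, if_false]
  have eO : ∀ j, lout R' (.lid j) = if j ≤ i then lout R (.lid j) else if j ≤ i + 2 then n
      else lout R (.lid (j - 2)) := by
    intro j
    have e1 : 0 :: R'.str = (0 :: R.str).take (i + 1) ++ n :: n :: (0 :: R.str).drop (i + 1) := by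
      simp [R']
    simp only [lout]
    rw [e1, D_BdCup_getD (0 :: R.str) (i + 1) (by simp; omega) n n 0 j]
    by_cases h1 : j < i + 1
    · have h1' : j ≤ i := by omega
      simp only [h1, h1', if_true]
    · have h1' : ¬ j ≤ i := by omega
      by_cases h2 : j = i + 1
      · subst h2
        simp
      · by_cases h3 : j = i + 1 + 1
        · subst h3
          simp
        · have h4 : ¬ j ≤ i + 2 := by omega
          simp only [h1, h1', h2, h3, h4, if_false]
  have cS : S'.cor = S.cor := by rw [hS']
  have nS : S'.nxt = N + 1 := by rw [hS']
  have vC : ∀ v k, Val S' (.cor v k) ↔ Val S (.cor v k) := by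
    intro v k
    simp only [Val, cS]
  have fC : ∀ v k, fac S' (.cor v k) = fac S (.cor v k) := by
    intro v k
    simp only [fac, cS]
  have fL : ∀ j, fac S' (.lid j) = if j ≤ i then fac S (.lid j) else if j = i + 1 then N
      else fac S (.lid (j - 2)) := eG
  have vL : ∀ j, Val S' (.lid j) ↔ j < S.gaps.length + 2 := by
    intro j
    simp only [Val, lG]
  have flt : ∀ j, j < S.gaps.length → fac S (.lid j) < N := fun j hj => h.flt (.lid j) hj
  -- the substitution
  have hsub : ∀ f, Subst (bd f) (D_BdCup_g i) (D_BdCup_h i) (lin R) (lout R) (lin R') (lout R')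
      id := by
    intro f
    refine ⟨?_, ?_, ?_⟩
    · rintro (⟨v, k⟩ | j) _ y hy
      · simp only [D_BdCup_g, List.mem_singleton] at hy
        subst hy
        rfl
      · simp only [D_BdCup_g] at hy
        split_ifs at hy with h1 h2
        · rw [List.mem_singleton] at hy
          subst hy
          simp only [D_BdCup_h, h1.le, if_true]
        · subst h2
          simp only [List.mem_cons, List.not_mem_nil, or_false] at hy
          rcases hy with rfl | rfl
          · have h3 : ¬ j + 2 ≤ j := by omega
            simp only [D_BdCup_h, h3, if_false, Nat.add_sub_cancel]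
          · simp only [D_BdCup_h, le_refl, if_true]
        · rw [List.mem_singleton] at hy
          subst hy
          have h3 : ¬ j + 2 ≤ i := by omega
          simp only [D_BdCup_h, h3, if_false, Nat.add_sub_cancel]
    · rintro (⟨v, k⟩ | j) _
      · simp [D_BdCup_g]
      · simp only [D_BdCup_g]
        split_ifs with h1 h2
        · simp
        · simp
        · simp
    · rintro (⟨v, k⟩ | j) _
      · exact ⟨rfl, rfl⟩
      · simp only [D_BdCup_g, id]
        split_ifs with h1 h2
        · refine ⟨?_, ?_⟩
          · rw [eI]
            simp only [h1, if_true]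
          · change lout R' (.lid j) = _
            rw [eO]
            simp only [h1.le, if_true]
        · subst h2
          refine ⟨?_, ?_, ?_⟩
          · rw [eI]
            have h3 : ¬ j + 2 < j := by omega
            have h4 : ¬ j + 2 ≤ j + 1 := by omega
            simp only [h3, h4, if_false, Nat.add_sub_cancel]
          · rw [eI, eO]
            have h3 : ¬ j + 2 ≤ j := by omega
            simp [h3]
          · change lout R' (.lid j) = _
            rw [eO]
            simp only [le_refl, if_true]
        · refine ⟨?_, ?_⟩
          · rw [eI]
            have h3 : ¬ j + 2 < i := by omega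
            have h4 : ¬ j + 2 ≤ i + 1 := by omega
            simp only [h3, h4, if_false, Nat.add_sub_cancel]
          · change lout R' (.lid (j + 2)) = _
            rw [eO]
            have h3 : ¬ j + 2 ≤ i := by omega
            have h4 : ¬ j + 2 ≤ i + 2 := by omega
            simp only [h3, h4, if_false, Nat.add_sub_cancel]
  -- the strands
  have hlab : ∀ l, (labs R').count l = (labs R).count l + if l = n then 2 else 0 := by
    intro l
    have h1 : R.str.count l = (R.str.take i).count l + (R.str.drop i).count l := by
      rw [← List.count_append, List.take_append_drop]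
    simp only [labs, List.count_append, R', List.count_cons, h1, beq_iff_eq]
    by_cases hln : l = n
    · subst hln
      simp only [if_true]
      ring
    · have hln' : ¬ n = l := fun h => hln h.symm
      simp only [hln, hln', if_false]
      ring
  have hmem : ∀ l, l ∈ labs R' ↔ l ∈ labs R ∨ l = n := by
    intro l
    rw [← List.count_pos_iff, hlab, ← List.count_pos_iff]
    split_ifs with hln
    · simp [hln]
    · simp [hln]
  have hnR : (labs R).count n = 0 := by
    rw [List.count_eq_zero]
    intro hcon
    exact lt_irrefl _ (h.slt n hcon)
  refine ⟨R', fun f => if f = N then [.lid (i + 1)] else (bd f).flatMap (D_BdCup_g i),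
    Function.update χ N ((i + 1) % 2), rfl, ?_⟩
  refine ⟨?_, ?_, ?_, ?_, ?_, ?_, ?_, ?_, ?_, ?_, ?_⟩
  · rw [lG, lL, hlen]
  · rw [cS]
    exact h.lenc
  · intro f y
    by_cases hf : f = N
    · subst hf
      simp only [if_true, List.mem_singleton]
      rcases y with ⟨v, k⟩ | j
      · rw [vC, fC]
        constructor
        · intro h1
          cases h1
        · rintro ⟨h1, h2⟩
          exact absurd h2 (h.flt _ h1).ne
      · rw [vL, fL]
        simp only [Elt.lid.injEq]
        constructor
        · rintro rfl
          refine ⟨by omega, ?_⟩
          simp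
        · rintro ⟨h1, h2⟩
          split_ifs at h2 with h3 h4
          · exact absurd h2 (flt j (by omega)).ne
          · exact h4
          · exact absurd h2 (flt (j - 2) (by omega)).ne
    · simp only [hf, if_false]
      rw [mem_subst (hsub f), h.mem]
      rcases y with ⟨v, k⟩ | j
      · rw [vC, fC]
        simp [D_BdCup_h, D_BdCup_g]
      · rw [vL, fL]
        by_cases h1 : j ≤ i
        · simp only [D_BdCup_h, h1, if_true]
          have h2 : Elt.lid j ∈ D_BdCup_g i (.lid j) := by
            simp only [D_BdCup_g]
            split_ifs with h3 h4
            · simp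
            · subst h4
              simp
            · omega
          have h3 : Val S (.lid j) := by
            simp only [Val]
            omega
          have h4 : j < S.gaps.length + 2 := by omega
          simp only [h2, h3, h4, true_and, and_true]
        · by_cases h2 : j = i + 1
          · subst h2
            have h3 : ¬ Elt.lid (i + 1) ∈ D_BdCup_g i (D_BdCup_h i (.lid (i + 1))) := by
              simp only [D_BdCup_h, h1, if_false, D_BdCup_g]
              split_ifs with h3 h4
              · simp only [List.mem_singleton, Elt.lid.injEq]
                omega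
              · simp
              · omega
            have h4 : ¬ N = f := fun h => hf h.symm
            simp only [h3, h1, if_false, if_true, h4, and_false]
          · simp only [D_BdCup_h, h1, if_false, h2]
            have h3 : Elt.lid j ∈ D_BdCup_g i (.lid (j - 2)) := by
              simp only [D_BdCup_g]
              split_ifs with h3 h4
              · omega
              · have : j = i + 2 := by omega
                subst this
                simp
              · have : j - 2 + 2 = j := by omega
                simp [this]
            have h4 : Val S (.lid (j - 2)) ↔ j < S.gaps.length + 2 := by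
              simp only [Val]
              omega
            simp only [h3, h4, and_true]
  · intro f
    by_cases hf : f = N
    · simp [hf]
    · simp only [hf, if_false]
      exact nodup_subst (hsub f) (h.nd f)
  · intro f
    by_cases hf : f = N
    · simp only [hf, if_true]
      refine ⟨n, ?_, ?_⟩
      · rw [eI]
        simp
      · change lout R' (.lid (i + 1)) = n
        rw [eO]
        simp
    · simp only [hf, if_false]
      obtain ⟨b, hb⟩ := h.path f
      exact ⟨b, path_subst (hsub f) hb⟩
  · rintro (⟨v, k⟩ | j) hy
    · rw [vC] at hy
      rw [fC, nS]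
      exact lt_of_lt_of_le (h.flt _ hy) (Nat.le_succ _)
    · rw [vL] at hy
      rw [fL, nS]
      split_ifs with h1 h2
      · exact lt_of_lt_of_le (flt j (by omega)) (Nat.le_succ _)
      · exact Nat.lt_succ_self _
      · exact lt_of_lt_of_le (flt (j - 2) (by omega)) (Nat.le_succ _)
  · intro l hl
    rcases (hmem l).mp hl with h1 | rfl
    · exact lt_of_lt_of_le (h.slt l h1) (Nat.le_succ _)
    · exact Nat.lt_succ_self _
  · intro l hl
    rw [hlab]
    rcases (hmem l).mp hl with h1 | rfl
    · have h2 : l ≠ n := (h.slt l h1).ne
      simp only [h2, if_false, Nat.add_zero]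
      exact h.cnt l h1
    · rw [hnR]
      simp
  · intro j hj
    rw [lG] at hj
    have hne : ∀ m, m < S.gaps.length → Function.update χ N ((i + 1) % 2) (S.gaps.getD m 0) =
        m % 2 := by
      intro m hm
      rw [Function.update_of_ne (show S.gaps.getD m 0 ≠ N from (flt m hm).ne)]
      exact h.colg m hm
    rw [eG]
    split_ifs with h1 h2
    · exact hne j (by omega)
    · rw [Function.update_self, h2]
    · rw [hne (j - 2) (by omega)]
      omega
  · intro v hv k
    rw [cS] at hv ⊢
    have h1 : ∀ k : Fin 4, (S.cor.getD v (fun _ => 0)) k < N := fun k => h.flt (.cor v k) hv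
    rw [Function.update_of_ne (h1 k).ne, Function.update_of_ne (h1 (k + 1)).ne]
    exact h.colc v hv k
  · rw [nS]
    have := h.nxt
    omega

end Pool.Agent.H63.CLK
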