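import Pool.Agent.H63.CLK.D_BdA

/-! # CLK part D0, D_BdM: every strand has two legs

`R.str = [z]`, so `labs R = L ++ [z] ++ [0]`, where `L` is the list of the strands at the legs. The strand
`l` occurs exactly twice in `labs R` (`cnt`). If `z = 0`, then `0` does not occur in `L` and every other
strand occurs twice in `L` or not at all. If `z ≠ 0`, then `z` and `0` occur exactly once in `L`, and the
others twice or not at all. In both cases every number occurs twice or not at all in `L.map (ident 0 z)`
(`ident 0 z x = 0` for `x = z`, otherwise `x`). Then translate counts into legs: `L` is the list of the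
`R.leg[v] k`, in the order of the pairs `(v, k)` (position `4 v + k`). -/

namespace Pool.Agent.H63.CLK

private theorem D_BdM_ident (z y : ℕ) : ident 0 z y = if y = z then 0 else y := by
  simp [ident]

private theorem D_BdM_labs {R : Strands} {z : ℕ} (hz : R.str = [z]) (x : ℕ) :
    (labs R).count x = (R.leg.flatMap (fun x => [x 0, x 1, x 2, x 3])).count x +
      (if z = x then 1 else 0) + (if 0 = x then 1 else 0) := by
  unfold labs
  rw [hz, List.count_append, List.count_append]
  simp [List.count_cons]

private theorem D_BdM_mem {R : Strands} {z : ℕ} (hz : R.str = [z]) (x : ℕ) :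
    x ∈ labs R ↔ x ∈ R.leg.flatMap (fun x => [x 0, x 1, x 2, x 3]) ∨ x = z ∨ x = 0 := by
  unfold labs
  rw [hz, List.mem_append, List.mem_append, List.mem_singleton, List.mem_singleton, or_assoc]

/-- Counting after the identification. -/
private theorem D_BdM_map (L : List ℕ) (z x : ℕ) (hz : z ≠ 0) :
    (L.map (ident 0 z)).count x =
      if x = 0 then L.count 0 + L.count z else if x = z then 0 else L.count x := by
  induction L with
  | nil => simp
  | cons y L ih =>
    rw [List.map_cons, List.count_cons, ih, D_BdM_ident, List.count_cons, List.count_cons,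
      List.count_cons]
    by_cases h0 : x = 0
    · subst h0
      by_cases h1 : y = z
      · subst h1
        simp [hz]
        omega
      · by_cases h2 : y = 0
        · subst h2
          simp [hz.symm]
          omega
        · simp [h1, h2]
    · by_cases h1 : x = z
      · subst h1
        by_cases h2 : y = x
        · subst h2
          simp [hz, Ne.symm hz]
        · simp [h0, h2]
      · by_cases h2 : y = z
        · subst h2
          simp [h0, h1, Ne.symm h0, Ne.symm h1]
        · simp [h0, h1, h2]

theorem inv_count {S : Sweep} {R : Strands} {bd : ℕ → List Elt} {χ : ℕ → ℕ} (h : Inv S R bd χ)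
    {z : ℕ} (hz : R.str = [z]) (x : ℕ)
    (hx : x ∈ (R.leg.flatMap (fun x => [x 0, x 1, x 2, x 3])).map (ident 0 z)) :
    ((R.leg.flatMap (fun x => [x 0, x 1, x 2, x 3])).map (ident 0 z)).count x = 2 := by
  have hc := h.cnt
  have hl := D_BdM_labs hz
  have hm := D_BdM_mem hz
  generalize R.leg.flatMap (fun x => [x 0, x 1, x 2, x 3]) = L at hx hl hm ⊢
  by_cases hz0 : z = 0
  · subst hz0
    have hid : L.map (ident 0 0) = L := by
      conv_rhs => rw [← List.map_id L]
      refine List.map_congr_left fun y _ => ?_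
      rw [D_BdM_ident]
      by_cases hy : y = 0 <;> simp [hy]
    rw [hid] at hx ⊢
    have h1 := hc x ((hm x).2 (Or.inl hx))
    rw [hl] at h1
    have h2 : 0 < L.count x := List.count_pos_iff.2 hx
    by_cases h0 : 0 = x
    · rw [if_pos h0] at h1
      omega
    · rw [if_neg h0] at h1
      omega
  · have e0 := hc 0 ((hm 0).2 (Or.inr (Or.inr rfl)))
    have ez := hc z ((hm z).2 (Or.inr (Or.inl rfl)))
    rw [hl, if_neg hz0, if_pos rfl] at e0
    rw [hl, if_pos rfl, if_neg (Ne.symm hz0)] at ez
    have hpos : 0 < (L.map (ident 0 z)).count x := List.count_pos_iff.2 hx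
    rw [D_BdM_map L z x hz0] at hpos ⊢
    by_cases h0 : x = 0
    · rw [if_pos h0]
      omega
    · rw [if_neg h0] at hpos ⊢
      by_cases h1 : x = z
      · rw [if_pos h1] at hpos
        omega
      · rw [if_neg h1] at hpos ⊢
        have h2 : x ∈ L := List.count_pos_iff.1 hpos
        have h3 := hc x ((hm x).2 (Or.inl h2))
        rw [hl, if_neg (Ne.symm h1), if_neg (Ne.symm h0)] at h3
        omega

/-- The number of legs with a given strand. -/
private theorem D_BdM_card {c : ℕ} (leg : Fin c → Fin 4 → ℕ) (x : ℕ) :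
    (Finset.univ.filter fun q : Fin c × Fin 4 => leg q.1 q.2 = x).card =
      ((List.ofFn leg).flatMap (fun x => [x 0, x 1, x 2, x 3])).count x := by
  rw [List.count_flatMap, List.map_ofFn, List.sum_ofFn, Finset.card_filter,
    Fintype.sum_prod_type]
  refine Finset.sum_congr rfl fun v _ => ?_
  rw [Fin.sum_univ_four]
  simp [List.count_cons]
  omega

theorem inv_mate {c : ℕ} {S : Sweep} {R : Strands} {bd : ℕ → List Elt} {χ : ℕ → ℕ}
    (h : Inv S R bd χ) {z : ℕ} (hz : R.str = [z]) {leg : Fin c → Fin 4 → ℕ}
    (hl : List.ofFn leg = R.leg.map (fun x k => ident 0 z (x k))) (p : Fin c × Fin 4) :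
    ∃ q, Mate leg p q ∧ ∀ r, Mate leg p r → r = q := by
  classical
  have hM : (List.ofFn leg).flatMap (fun x => [x 0, x 1, x 2, x 3]) =
      (R.leg.flatMap (fun x => [x 0, x 1, x 2, x 3])).map (ident 0 z) := by
    rw [hl, List.flatMap_map, List.map_flatMap]
    rfl
  have hp : leg p.1 p.2 ∈ (List.ofFn leg).flatMap (fun x => [x 0, x 1, x 2, x 3]) := by
    rw [List.mem_flatMap]
    refine ⟨leg p.1, (List.mem_ofFn' _ _).2 ⟨p.1, rfl⟩, ?_⟩
    obtain ⟨v, k⟩ := p
    fin_cases k <;> simp
  have hc : (Finset.univ.filter fun q : Fin c × Fin 4 => leg q.1 q.2 = leg p.1 p.2).card = 2 := by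
    rw [D_BdM_card, hM]
    rw [hM] at hp
    exact inv_count h hz _ hp
  obtain ⟨a, b, hab, hs⟩ := Finset.card_eq_two.1 hc
  have hmem : ∀ q, (leg q.1 q.2 = leg p.1 p.2) ↔ q = a ∨ q = b := by
    intro q
    have : q ∈ (Finset.univ.filter fun q : Fin c × Fin 4 => leg q.1 q.2 = leg p.1 p.2) ↔
        q ∈ ({a, b} : Finset (Fin c × Fin 4)) := by rw [hs]
    rw [Finset.mem_filter, Finset.mem_insert, Finset.mem_singleton] at this
    rw [← this]
    exact ⟨fun h => ⟨Finset.mem_univ _, h⟩, fun h => h.2⟩
  rcases (hmem p).1 rfl with rfl | rfl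
  · refine ⟨b, ⟨hab, ((hmem b).2 (Or.inr rfl)).symm⟩, fun r hr => ?_⟩
    rcases (hmem r).1 hr.2.symm with h1 | h1
    · exact absurd h1.symm hr.1
    · exact h1
  · refine ⟨a, ⟨hab.symm, ((hmem a).2 (Or.inl rfl)).symm⟩, fun r hr => ?_⟩
    rcases (hmem r).1 hr.2.symm with h1 | h1
    · exact h1
    · exact absurd h1.symm hr.1

end Pool.Agent.H63.CLK
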