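import Pool.Agent.H63.CLK.D_BdA

/-! # CLK part D0, D_BdO: the strand `0` and the boundaries of the bounded faces

`inv_outer`: let `x = R.leg[v] k`, `x = 0` or `x = z`. Consider the corners `(v, k)` (first strand `x`) and
`(v, k - 1)` (last strand `x`). By `path_prev` there is an element `y` with the same face as `(v, k)` and
`lout y = x`, by `path_next` an element `y'` with the same face as `(v, k - 1)` and `lin y' = x`.
The ends with the strand `x` (`labs R`, count `2`) are the leg `(v, k)` and one other. If `x = 0` the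
other one is the lower end of the template, if `x = z ≠ 0` it is the open end `0`, if `x = z = 0` there
would be three ends. `y` is the element whose last end is one of these two: the element with the last
end `leg v k` is the corner `(v, k - 1)`, which has not the same face as `(v, k)` (`colc`); so `y` is
`lid 0` (`x = 0`, the face `0`) or `lid 1` (`x = z`, the face `1`). Similarly for `y'`.

`inv_bd`: the list `bd f` contains only corners, since the lids have the faces `0` and `1`. Let `d` be its
length and `b j` the pair of the element number `j % d`. `mate`: `path_get` gives the equality of the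
strands, and `leg (b j).1 ((b j).2 + 1)` is not the same leg as `b (j + 1)`: otherwise the corners
`(v, k)` and `(v, k + 1)` would have the same face, in contradiction to `colc`. -/

namespace Pool.Agent.H63.CLK

variable {c : ℕ} {S : Sweep} {R : Strands} {bd : ℕ → List Elt} {χ : ℕ → ℕ}

theorem D_BdO_cor {cor : Fin c → Fin 4 → ℕ} (hc : S.cor = List.ofFn cor) (v : Fin c) (k : Fin 4) :
    (S.cor.getD v (fun _ => 0)) k = cor v k := by
  have h1 : (v : ℕ) < (List.ofFn cor).length := by rw [List.length_ofFn]; exact v.2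
  rw [hc, List.getD_eq_getElem _ _ h1, List.getElem_ofFn]

theorem D_BdO_len {z : ℕ} {leg : Fin c → Fin 4 → ℕ}
    (hl : List.ofFn leg = R.leg.map (fun x k => ident 0 z (x k))) : R.leg.length = c := by
  have := congrArg List.length hl
  rw [List.length_ofFn, List.length_map] at this
  exact this.symm

theorem D_BdO_leg {z : ℕ} {leg : Fin c → Fin 4 → ℕ}
    (hl : List.ofFn leg = R.leg.map (fun x k => ident 0 z (x k))) (v : Fin c) (k : Fin 4) :
    leg v k = ident 0 z ((R.leg.getD v (fun _ => 0)) k) := by
  have h0 : (v : ℕ) < R.leg.length := by rw [D_BdO_len hl]; exact v.2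
  have h1 : (v : ℕ) < (List.ofFn leg).length := by rw [List.length_ofFn]; exact v.2
  have h2 : (v : ℕ) < (R.leg.map (fun x k => ident 0 z (x k))).length := by
    rw [List.length_map]; exact h0
  have h3 : (List.ofFn leg)[(v : ℕ)] = (R.leg.map (fun x k => ident 0 z (x k)))[(v : ℕ)] := by
    simp only [hl]
  rw [List.getElem_ofFn, List.getElem_map] at h3
  rw [List.getD_eq_getElem _ _ h0]
  exact congrFun h3 k

/-- The list of the strands at the legs. -/
def D_BdO_fl (L : List (Fin 4 → ℕ)) : List ℕ := L.flatMap (fun x => [x 0, x 1, x 2, x 3])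

theorem D_BdO_mem4 (y : Fin 4 → ℕ) (k : Fin 4) : y k ∈ [y 0, y 1, y 2, y 3] := by
  fin_cases k <;> simp

theorem D_BdO_one (L : List (Fin 4 → ℕ)) (i : ℕ) (hi : i < L.length) (k : Fin 4) :
    (L.getD i (fun _ => 0)) k ∈ D_BdO_fl L := by
  rw [List.getD_eq_getElem _ _ hi]
  exact List.mem_flatMap.2 ⟨L[i], List.getElem_mem hi, D_BdO_mem4 _ k⟩

theorem D_BdO_two4 (y : Fin 4 → ℕ) (k l : Fin 4) (hkl : k ≠ l) (x : ℕ) (hk : y k = x)
    (hl : y l = x) : 2 ≤ [y 0, y 1, y 2, y 3].count x := by
  have h : ∀ (k l : Fin 4), k < l → y k = x → y l = x → 2 ≤ [y 0, y 1, y 2, y 3].count x := by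
    intro k l hkl hk hl
    have hsub : [y k, y l].Sublist [y 0, y 1, y 2, y 3] := by
      fin_cases k <;> fin_cases l <;> first | (exfalso; revert hkl; decide) | simp
    have h2 := List.Sublist.count_le x hsub
    rw [hk, hl] at h2
    simpa using h2
  rcases lt_or_gt_of_ne hkl with h1 | h1
  · exact h k l h1 hk hl
  · exact h l k h1 hl hk

/-- Two different legs with the same strand. -/
theorem D_BdO_two (x : ℕ) : ∀ (L : List (Fin 4 → ℕ)) (i j : ℕ), i < L.length → j < L.length →
    ∀ k l : Fin 4, (i ≠ j ∨ k ≠ l) → (L.getD i (fun _ => 0)) k = x →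
    (L.getD j (fun _ => 0)) l = x → 2 ≤ (D_BdO_fl L).count x := by
  intro L
  induction L with
  | nil => intro i j hi; simp at hi
  | cons y L ih =>
    intro i j hi hj k l hne hk hl
    have e : D_BdO_fl (y :: L) = [y 0, y 1, y 2, y 3] ++ D_BdO_fl L := rfl
    rw [e, List.count_append]
    have pos4 : ∀ k : Fin 4, y k = x → 1 ≤ [y 0, y 1, y 2, y 3].count x := by
      intro k hk
      have : x ∈ [y 0, y 1, y 2, y 3] := hk ▸ D_BdO_mem4 y k
      exact List.count_pos_iff.2 this
    have posL : ∀ (i : ℕ) (k : Fin 4), i < L.length → (L.getD i (fun _ => 0)) k = x →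
        1 ≤ (D_BdO_fl L).count x := by
      intro i k hi hk
      have : x ∈ D_BdO_fl L := hk ▸ D_BdO_one L i hi k
      exact List.count_pos_iff.2 this
    rcases i with _ | i
    · rcases j with _ | j
      · have hkl : k ≠ l := by
          rcases hne with h | h
          · exact absurd rfl h
          · exact h
        have := D_BdO_two4 y k l hkl x hk hl
        omega
      · have h1 := pos4 k hk
        have h2 := posL j l (by simpa using hj) hl
        omega
    · rcases j with _ | j
      · have h1 := pos4 l hl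
        have h2 := posL i k (by simpa using hi) hk
        omega
      · have := ih i j (by simpa using hi) (by simpa using hj) k l
          (by
            rcases hne with h | h
            · exact Or.inl (fun h' => h (by rw [h']))
            · exact Or.inr h) hk hl
        omega

/-- A strand `0` or `z` has only one leg. -/
theorem D_BdO_uniq (h : Inv S R bd χ) {z : ℕ} (hz : R.str = [z]) (x : ℕ) (hx : x = 0 ∨ x = z)
    (i j : ℕ) (hi : i < R.leg.length) (hj : j < R.leg.length) (k l : Fin 4)
    (hk : (R.leg.getD i (fun _ => 0)) k = x) (hl : (R.leg.getD j (fun _ => 0)) l = x) :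
    i = j ∧ k = l := by
  by_contra hne
  have hne' : i ≠ j ∨ k ≠ l := by
    by_cases h1 : i = j
    · exact Or.inr fun h2 => hne ⟨h1, h2⟩
    · exact Or.inl h1
  have h2 := D_BdO_two x R.leg i j hi hj k l hne' hk hl
  have hlab : labs R = D_BdO_fl R.leg ++ [z] ++ [0] := by
    unfold labs
    rw [hz]
    rfl
  have hm : x ∈ labs R := by
    rw [hlab]
    rcases hx with h1 | h1 <;> simp [h1]
  have h3 := h.cnt x hm
  rw [hlab, List.count_append, List.count_append] at h3
  rcases hx with h1 | h1
  · have : List.count x [0] = 1 := by rw [h1]; simp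
    omega
  · have : List.count x [z] = 1 := by rw [h1]; simp
    omega

theorem inv_outer (h : Inv S R bd χ) {z : ℕ} (hz : R.str = [z]) (hg : S.gaps = [0, 1])
    {leg cor : Fin c → Fin 4 → ℕ} (hl : List.ofFn leg = R.leg.map (fun x k => ident 0 z (x k)))
    (hc : S.cor = List.ofFn cor) (v : Fin c) (k : Fin 4) (h0 : leg v k = 0) :
    cor v k ≤ 1 ∧ cor v (k - 1) ≤ 1 := by
  have hlen := D_BdO_len hl
  have hclen : S.cor.length = c := by rw [h.lenc, hlen]
  have hv : (v : ℕ) < R.leg.length := by rw [hlen]; exact v.2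
  have hv' : (v : ℕ) < S.cor.length := by rw [hclen]; exact v.2
  have hx : (R.leg.getD v (fun _ => 0)) k = 0 ∨ (R.leg.getD v (fun _ => 0)) k = z := by
    have h1 := D_BdO_leg hl v k
    rw [h0] at h1
    unfold ident at h1
    split_ifs at h1 with h2
    · right
      rw [h2]
      simp
    · exact Or.inl h1.symm
  have hcol : ∀ j : Fin 4, χ (cor v j) ≠ χ (cor v (j + 1)) := by
    intro j
    have := h.colc v hv' j
    rwa [D_BdO_cor hc, D_BdO_cor hc] at this
  have hk1 : k - 1 + 1 = k := sub_add_cancel k 1
  have hlid : ∀ i f, Elt.lid i ∈ bd f → f ≤ 1 := by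
    intro i f hi
    have h1 := (h.mem f (.lid i)).1 hi
    have h2 : i < 2 := by
      have := h1.1
      unfold Val at this
      rw [hg] at this
      simpa using this
    have h3 := h1.2
    unfold fac at h3
    rw [hg] at h3
    rcases i with _ | _ | i
    · simp at h3; omega
    · simp at h3; omega
    · omega
  constructor
  · -- the corner `(v, k)`
    have hX : Elt.cor v k ∈ bd (cor v k) := (h.mem _ _).2 ⟨hv', D_BdO_cor hc v k⟩
    obtain ⟨a, ha⟩ := h.path (cor v k)
    obtain ⟨y, hy, hy2⟩ := path_prev ha hX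
    rcases y with ⟨v', k'⟩ | i
    · exfalso
      have h1 := (h.mem _ _).1 hy
      have hv1 : v' < R.leg.length := by
        rw [← h.lenc]; exact h1.1
      have h2 : (R.leg.getD v' (fun _ => 0)) (k' + 1) = (R.leg.getD v (fun _ => 0)) k := hy2
      have h3 := D_BdO_uniq h hz _ hx v' v hv1 hv (k' + 1) k h2 rfl
      have h4 : k' = k - 1 := by rw [← h3.2]; exact (add_sub_cancel_right k' 1).symm
      have h5 : (S.cor.getD v' (fun _ => 0)) k' = cor v k := h1.2
      rw [h3.1, h4, D_BdO_cor hc] at h5
      have h6 := hcol (k - 1)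
      rw [hk1, h5] at h6
      exact h6 rfl
    · exact hlid i _ hy
  · have hX : Elt.cor v (k - 1) ∈ bd (cor v (k - 1)) := (h.mem _ _).2 ⟨hv', D_BdO_cor hc v (k - 1)⟩
    obtain ⟨a, ha⟩ := h.path (cor v (k - 1))
    obtain ⟨y, hy, hy2⟩ := path_next ha hX
    rcases y with ⟨v', k'⟩ | i
    · exfalso
      have h1 := (h.mem _ _).1 hy
      have hv1 : v' < R.leg.length := by
        rw [← h.lenc]; exact h1.1
      have h2 : (R.leg.getD v' (fun _ => 0)) k' = (R.leg.getD v (fun _ => 0)) (k - 1 + 1) := hy2
      rw [hk1] at h2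
      have h3 := D_BdO_uniq h hz _ hx v' v hv1 hv k' k h2 rfl
      have h5 : (S.cor.getD v' (fun _ => 0)) k' = cor v (k - 1) := h1.2
      rw [h3.1, h3.2, D_BdO_cor hc] at h5
      have h6 := hcol (k - 1)
      rw [hk1, h5] at h6
      exact h6 rfl
    · exact hlid i _ hy

/-- The pair of an element; `p` for lids. -/
def D_BdO_pr (p : Fin c × Fin 4) : Elt → Fin c × Fin 4
  | .cor v k => if hv : v < c then (⟨v, hv⟩, k) else p
  | .lid _ => p

theorem inv_bd (h : Inv S R bd χ) {z : ℕ} (hz : R.str = [z]) (hg : S.gaps = [0, 1])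
    {leg cor : Fin c → Fin 4 → ℕ} (hl : List.ofFn leg = R.leg.map (fun x k => ident 0 z (x k)))
    (hc : S.cor = List.ofFn cor) (f : ℕ) (hf : 2 ≤ f) (p : Fin c × Fin 4) (hp : cor p.1 p.2 = f) :
    ∃ b : ℕ → Fin c × Fin 4, IsBd cor leg f (bd f).length b := by
  have hlen := D_BdO_len hl
  have hclen : S.cor.length = c := by rw [h.lenc, hlen]
  have hcol : ∀ (v : Fin c) (j : Fin 4), χ (cor v j) ≠ χ (cor v (j + 1)) := by
    intro v j
    have hv' : (v : ℕ) < S.cor.length := by rw [hclen]; exact v.2
    have := h.colc v hv' j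
    rwa [D_BdO_cor hc, D_BdO_cor hc] at this
  have hmem : ∀ q : Fin c × Fin 4, Elt.cor q.1 q.2 ∈ bd f ↔ cor q.1 q.2 = f := by
    intro q
    rw [h.mem]
    constructor
    · rintro ⟨_, h2⟩
      rw [← h2]
      exact (D_BdO_cor hc q.1 q.2).symm
    · intro h2
      refine ⟨?_, ?_⟩
      · change (q.1 : ℕ) < S.cor.length
        rw [hclen]
        exact q.1.2
      · rw [← h2]
        exact D_BdO_cor hc q.1 q.2
  have hel : ∀ x ∈ bd f, Elt.cor (D_BdO_pr p x).1 (D_BdO_pr p x).2 = x := by
    intro x hx
    have h1 := (h.mem f x).1 hx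
    rcases x with ⟨v, k⟩ | i
    · have hv : v < c := by
        rw [← hclen]; exact h1.1
      simp only [D_BdO_pr, hv, dite_true]
    · exfalso
      have h2 : i < 2 := by
        have := h1.1
        unfold Val at this
        rw [hg] at this
        simpa using this
      have h3 := h1.2
      unfold fac at h3
      rw [hg] at h3
      rcases i with _ | _ | i
      · simp at h3; omega
      · simp at h3; omega
      · omega
  have hpl : Elt.cor p.1 p.2 ∈ bd f := (hmem p).2 hp
  have hd : 0 < (bd f).length := List.length_pos_of_mem hpl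
  -- the elements
  have hlt : ∀ j, j % (bd f).length < (bd f).length := fun j => Nat.mod_lt _ hd
  let b : ℕ → Fin c × Fin 4 := fun j => D_BdO_pr p ((bd f)[j % (bd f).length]'(hlt j))
  have hb : ∀ j, Elt.cor (b j).1 (b j).2 = (bd f)[j % (bd f).length]'(hlt j) := fun j =>
    hel _ (List.getElem_mem (hlt j))
  have hbf : ∀ j, cor (b j).1 (b j).2 = f := by
    intro j
    rw [← hmem, hb]
    exact List.getElem_mem (hlt j)
  refine ⟨b, ?_, ?_, ?_, ?_⟩
  · intro j
    simp only [b, Nat.add_mod_right]
  · intro i hi j hj hij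
    have h1 : (bd f)[i % (bd f).length]'(hlt i) = (bd f)[j % (bd f).length]'(hlt j) := by
      rw [← hb, ← hb, hij]
    have h2 := (List.Nodup.getElem_inj_iff (h.nd f)).1 h1
    rwa [Nat.mod_eq_of_lt hi, Nat.mod_eq_of_lt hj] at h2
  · intro q
    constructor
    · intro hq
      obtain ⟨j, hj, hj2⟩ := List.getElem_of_mem ((hmem q).2 hq)
      refine ⟨j, hj, ?_⟩
      have h1 := hb j
      have h3 : (bd f)[j % (bd f).length]'(hlt j) = (bd f)[j]'hj := by
        congr 1
        exact Nat.mod_eq_of_lt hj
      rw [h3, hj2] at h1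
      injection h1 with h4 h5
      exact Prod.ext (Fin.ext h4) h5
    · rintro ⟨j, _, rfl⟩
      exact hbf j
  · intro j
    obtain ⟨a, ha⟩ := h.path f
    have h1 := path_get ha j _ _ (List.getElem?_eq_getElem (hlt j))
      (List.getElem?_eq_getElem (hlt (j + 1)))
    rw [← hb j, ← hb (j + 1)] at h1
    refine ⟨?_, ?_⟩
    · intro h2
      have h3 := hcol (b j).1 (b j).2
      have h4 := hbf (j + 1)
      rw [← h2] at h4
      simp only at h4
      rw [h4, hbf j] at h3
      exact h3 rfl
    · simp only
      rw [D_BdO_leg hl, D_BdO_leg hl]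
      exact congrArg (ident 0 z) h1

end Pool.Agent.H63.CLK
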