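import Pool.Agent.H63.CLK.D_BdA

/-! # CLK part D0, D_BdTw: the invariant at a twist region

Let `n = R.nxt`, `N = S.nxt`, `v = S.cor.length`, `α, β` the strands `i`, `i + 1`. New strands:
`R.str.take i ++ n :: (n + 1) :: r`, new legs `![n, n + 1, β, α]`; the gaps are unchanged except that the
gap `i + 1` gets the new face `N`; new corners `![N, c, b, a]`, where `a, b, c` are the faces of the gaps
`i, i + 1, i + 2`.
`g (lid i) = [cor v 3, lid i]`, `g (lid (i + 1)) = [cor v 2]`, `g (lid (i + 2)) = [lid (i + 2), cor v 1]`,
`g x = [x]` otherwise; `h (cor v 3) = lid i`, `h (cor v 2) = lid (i + 1)`, `h (cor v 1) = lid (i + 2)`,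
`h x = x` otherwise (all elements of the lists are `Val S`, so `cor v k` does not occur), `rho = id`.
`bd' N = [lid (i + 1), cor v 0]`, `bd' f = (bd f).flatMap g` for `f ≠ N`.
`chi' = Function.update chi N ((i + 1) % 2)`.
Paths: `lin'`: `lid i`: `n`; `lid (i + 1)`: `n + 1`; other lids unchanged. `lout'`: `lid (i + 1)`: `n`;
`lid (i + 2)`: `n + 1`; other lids unchanged. `cor v 0`: from `n` to `n + 1`; `cor v 1`: from `n + 1` to
`β`; `cor v 2`: from `β` to `α`; `cor v 3`: from `α` to `n`. Old `lin (lid i) = α = lout (lid (i + 1))`,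
`lin (lid (i + 1)) = β = lout (lid (i + 2))`.
Counts: `α`, `β` are moved from the open ends to the legs; `n` and `n + 1` are new and occur twice.
Colors: the faces at the corners of `v` are those of the gaps `i + 1, i + 2, i + 1, i`. -/

namespace Pool.Agent.H63.CLK

private theorem D_BdTw_getD (p r : List ℕ) (x y d j : ℕ) :
    (p ++ y :: r).getD j d = if j = p.length then y else (p ++ x :: r).getD j d := by
  rcases lt_trichotomy j p.length with h | h | h
  · rw [if_neg (by omega), List.getD_append _ _ _ _ h, List.getD_append _ _ _ _ h]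
  · subst h
    simp
  · obtain ⟨k, rfl⟩ : ∃ k, j = p.length + (k + 1) := ⟨j - p.length - 1, by omega⟩
    rw [if_neg (by omega), List.getD_append_right _ _ _ _ (by omega),
      List.getD_append_right _ _ _ _ (by omega), Nat.add_sub_cancel_left]
    simp

private theorem D_BdTw_get0 (p r : List ℕ) (y d : ℕ) : (p ++ y :: r).getD p.length d = y := by
  simp

private theorem D_BdTw_leg (L : List (Fin 4 → ℕ)) (x : Fin 4 → ℕ) (w : ℕ) (hw : w < L.length) :
    (L ++ [x]).getD w (fun _ => 0) = L.getD w (fun _ => 0) :=
  List.getD_append _ _ _ _ hw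

private theorem D_BdTw_leg' (L : List (Fin 4 → ℕ)) (x : Fin 4 → ℕ) :
    (L ++ [x]).getD L.length (fun _ => 0) = x := by
  simp

private def D_BdTw_g (i v : ℕ) : Elt → List Elt
  | .cor w k => [.cor w k]
  | .lid j => if j = i then [.cor v 3, .lid i] else if j = i + 1 then [.cor v 2]
      else if j = i + 2 then [.lid (i + 2), .cor v 1] else [.lid j]

private def D_BdTw_h (i v : ℕ) : Elt → Elt
  | .cor w k => if w = v then (if k = 3 then .lid i else if k = 2 then .lid (i + 1)
      else if k = 1 then .lid (i + 2) else .cor v 0) else .cor w k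
  | .lid j => .lid j

theorem inv_tw {S S' : Sweep} {R : Strands} {bd : ℕ → List Elt} {χ : ℕ → ℕ} (h : Inv S R bd χ)
    (i : ℕ) (hS : S.step (.tw i) = some S') :
    ∃ R' bd' χ', R.step (.tw i) = some R' ∧ Inv S' R' bd' χ' := by
  obtain ⟨a, b, c, r, hd, hS'⟩ : ∃ a b c r, S.gaps.drop i = a :: b :: c :: r ∧
      S' = ⟨S.gaps.take i ++ a :: S.nxt :: c :: r, S.nxt :: S.faces, S.nxt + 1,
        S.cor ++ [![S.nxt, c, b, a]]⟩ := by
    rcases hd : S.gaps.drop i with _ | ⟨a, _ | ⟨b, _ | ⟨c, r⟩⟩⟩
    · simp only [Sweep.step, hd] at hS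
      simp at hS
    · simp only [Sweep.step, hd] at hS
      simp at hS
    · simp only [Sweep.step, hd] at hS
      simp at hS
    · simp only [Sweep.step, hd, Option.some.injEq] at hS
      exact ⟨a, b, c, r, rfl, hS.symm⟩
  have hg : S.gaps = S.gaps.take i ++ a :: b :: c :: r := by
    rw [← hd, List.take_append_drop]
  have hgl : (S.gaps.drop i).length = r.length + 3 := by rw [hd]; simp
  rw [List.length_drop] at hgl
  have hpl : (S.gaps.take i).length = i := by
    rw [List.length_take]
    omega
  generalize hp : S.gaps.take i = p at hg hS' hpl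
  clear hp hd
  -- strands
  have hlen := h.len
  obtain ⟨α, β, r', hd'⟩ : ∃ α β r', R.str.drop i = α :: β :: r' := by
    have hl : (R.str.drop i).length = r.length + 2 := by
      rw [List.length_drop]
      omega
    rcases hd : R.str.drop i with _ | ⟨α, _ | ⟨β, r'⟩⟩
    · rw [hd] at hl; simp at hl
    · rw [hd] at hl; simp at hl
    · exact ⟨α, β, r', rfl⟩
  have hstep : R.step (.tw i) = some ⟨R.str.take i ++ R.nxt :: (R.nxt + 1) :: r', R.nxt + 2,
      R.leg ++ [![R.nxt, R.nxt + 1, β, α]]⟩ := by
    simp only [Strands.step, hd']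
  have hs : R.str = R.str.take i ++ α :: β :: r' := by
    rw [← hd', List.take_append_drop]
  have hql : (R.str.take i).length = i := by
    rw [List.length_take]
    omega
  generalize hq : R.str.take i = q at hs hstep hql
  clear hq hd'
  set N := S.nxt with hN
  set n := R.nxt with hn
  set v := S.cor.length with hv
  have hvR : R.leg.length = v := by rw [hv, h.lenc]
  set R' : Strands := ⟨q ++ n :: (n + 1) :: r', n + 2, R.leg ++ [![n, n + 1, β, α]]⟩ with hR'
  have hN2 := h.nxt
  -- lengths
  have hGl : S.gaps.length = i + 3 + r.length := by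
    rw [hg]; simp [hpl]; omega
  have hGl' : S'.gaps.length = S.gaps.length := by
    rw [hS', hg]; simp
  have hSl' : R'.str.length = R.str.length := by
    rw [hR', hs]; simp
  -- gaps
  have eg : ∀ j, S'.gaps.getD j 0 = if j = i + 1 then N else S.gaps.getD j 0 := by
    intro j
    have e1 : S'.gaps = (p ++ [a]) ++ N :: (c :: r) := by rw [hS']; simp
    have e2 : S.gaps = (p ++ [a]) ++ b :: (c :: r) := by rw [hg]; simp
    rw [e1, D_BdTw_getD (p ++ [a]) (c :: r) b N 0 j, ← e2]
    simp [hpl]
  have ga : S.gaps.getD i 0 = a := by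
    rw [hg, ← hpl]; exact D_BdTw_get0 _ _ _ _
  have gb : S.gaps.getD (i + 1) 0 = b := by
    have e2 : S.gaps = (p ++ [a]) ++ b :: (c :: r) := by rw [hg]; simp
    have := D_BdTw_get0 (p ++ [a]) (c :: r) b 0
    rw [← e2] at this
    simpa [hpl] using this
  have gc : S.gaps.getD (i + 2) 0 = c := by
    have e2 : S.gaps = (p ++ [a, b]) ++ c :: r := by rw [hg]; simp
    have := D_BdTw_get0 (p ++ [a, b]) r c 0
    rw [← e2] at this
    simpa [hpl] using this
  -- corners
  have ec : ∀ w < v, S'.cor.getD w (fun _ => 0) = S.cor.getD w (fun _ => 0) := by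
    intro w hw
    rw [hS']
    exact D_BdTw_leg _ _ _ hw
  have ecv : S'.cor.getD v (fun _ => 0) = ![N, c, b, a] := by
    rw [hS']
    exact D_BdTw_leg' _ _
  have hcl' : S'.cor.length = v + 1 := by
    rw [hS']; simp [hv]
  -- legs
  have el : ∀ w < v, R'.leg.getD w (fun _ => 0) = R.leg.getD w (fun _ => 0) := by
    intro w hw
    rw [hR']
    exact D_BdTw_leg _ _ _ (by omega)
  have elv : R'.leg.getD v (fun _ => 0) = ![n, n + 1, β, α] := by
    rw [hR', ← hvR]
    exact D_BdTw_leg' _ _
  -- lin, lout of lids
  have ei : ∀ j, lin R' (.lid j) = if j = i then n else if j = i + 1 then n + 1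
      else lin R (.lid j) := by
    intro j
    show (R'.str ++ [0]).getD j 0 = if j = i then n else if j = i + 1 then n + 1
      else (R.str ++ [0]).getD j 0
    have e1 : R'.str ++ [0] = (q ++ [n]) ++ (n + 1) :: (r' ++ [0]) := by rw [hR']; simp
    have e2 : (q ++ [n]) ++ β :: (r' ++ [0]) = q ++ n :: (β :: (r' ++ [0])) := by simp
    have e3 : R.str ++ [0] = q ++ α :: (β :: (r' ++ [0])) := by rw [hs]; simp
    rw [e1, D_BdTw_getD (q ++ [n]) (r' ++ [0]) β (n + 1) 0 j, e2,
      D_BdTw_getD q (β :: (r' ++ [0])) α n 0 j, ← e3]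
    have e4 : (q ++ [n]).length = i + 1 := by simp [hql]
    rw [e4, hql]
    by_cases h1 : j = i
    · rw [if_pos h1, if_neg (by omega), if_pos h1]
    · rw [if_neg h1, if_neg h1]
  have eo : ∀ j, lout R' (.lid j) = if j = i + 1 then n else if j = i + 2 then n + 1
      else lout R (.lid j) := by
    intro j
    show (0 :: R'.str).getD j 0 = if j = i + 1 then n else if j = i + 2 then n + 1
      else (0 :: R.str).getD j 0
    have e1 : 0 :: R'.str = (0 :: q ++ [n]) ++ (n + 1) :: r' := by rw [hR']; simp
    have e2 : (0 :: q ++ [n]) ++ β :: r' = (0 :: q) ++ n :: (β :: r') := by simp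
    have e3 : 0 :: R.str = (0 :: q) ++ α :: (β :: r') := by
      conv_lhs => rw [hs]
      simp
    rw [e1, D_BdTw_getD (0 :: q ++ [n]) r' β (n + 1) 0 j, e2,
      D_BdTw_getD (0 :: q) (β :: r') α n 0 j, ← e3]
    have e4 : (0 :: q ++ [n]).length = i + 2 := by simp [hql]
    have e5 : (0 :: q).length = i + 1 := by simp [hql]
    rw [e4, e5]
    by_cases h1 : j = i + 1
    · rw [if_pos h1, if_neg (by omega), if_pos h1]
    · rw [if_neg h1, if_neg h1]
  have oi : lin R (.lid i) = α := by
    show (R.str ++ [0]).getD i 0 = α
    have e3 : R.str ++ [0] = q ++ α :: (β :: (r' ++ [0])) := by rw [hs]; simp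
    rw [e3, ← hql]
    exact D_BdTw_get0 _ _ _ _
  have oi1 : lin R (.lid (i + 1)) = β := by
    show (R.str ++ [0]).getD (i + 1) 0 = β
    have e3 : R.str ++ [0] = (q ++ [α]) ++ β :: (r' ++ [0]) := by rw [hs]; simp
    have := D_BdTw_get0 (q ++ [α]) (r' ++ [0]) β 0
    rw [← e3] at this
    simpa [hql] using this
  have oo1 : lout R (.lid (i + 1)) = α := by
    show (0 :: R.str).getD (i + 1) 0 = α
    have e3 : 0 :: R.str = (0 :: q) ++ α :: (β :: r') := by
      conv_lhs => rw [hs]
      simp
    have := D_BdTw_get0 (0 :: q) (β :: r') α 0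
    rw [← e3] at this
    simpa [hql] using this
  have oo2 : lout R (.lid (i + 2)) = β := by
    show (0 :: R.str).getD (i + 2) 0 = β
    have e3 : 0 :: R.str = (0 :: q ++ [α]) ++ β :: r' := by
      conv_lhs => rw [hs]
      simp
    have := D_BdTw_get0 (0 :: q ++ [α]) r' β 0
    rw [← e3] at this
    simpa [hql] using this
  have lic : ∀ w k, w < v → lin R' (.cor w k) = lin R (.cor w k) := by
    intro w k hw
    show (R'.leg.getD w (fun _ => 0)) k = (R.leg.getD w (fun _ => 0)) k
    rw [el w hw]
  have loc : ∀ w k, w < v → lout R' (.cor w k) = lout R (.cor w k) := by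
    intro w k hw
    show (R'.leg.getD w (fun _ => 0)) (k + 1) = (R.leg.getD w (fun _ => 0)) (k + 1)
    rw [el w hw]
  have liv : ∀ k, lin R' (.cor v k) = (![n, n + 1, β, α] : Fin 4 → ℕ) k := by
    intro k
    show (R'.leg.getD v (fun _ => 0)) k = _
    rw [elv]
  have lov : ∀ k, lout R' (.cor v k) = (![n, n + 1, β, α] : Fin 4 → ℕ) (k + 1) := by
    intro k
    show (R'.leg.getD v (fun _ => 0)) (k + 1) = _
    rw [elv]
  -- faces
  have fl : ∀ j, fac S' (.lid j) = if j = i + 1 then N else fac S (.lid j) := eg
  have fc : ∀ w k, w < v → fac S' (.cor w k) = fac S (.cor w k) := by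
    intro w k hw
    show (S'.cor.getD w (fun _ => 0)) k = (S.cor.getD w (fun _ => 0)) k
    rw [ec w hw]
  have fv : ∀ k, fac S' (.cor v k) = (![N, c, b, a] : Fin 4 → ℕ) k := by
    intro k
    show (S'.cor.getD v (fun _ => 0)) k = _
    rw [ecv]
  have va : Val S (.lid i) := by show i < S.gaps.length; omega
  have vb : Val S (.lid (i + 1)) := by show i + 1 < S.gaps.length; omega
  have vc : Val S (.lid (i + 2)) := by show i + 2 < S.gaps.length; omega
  have faa : fac S (.lid i) = a := ga
  have fab : fac S (.lid (i + 1)) = b := gb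
  have fac' : fac S (.lid (i + 2)) = c := gc
  have haN : a < N := faa ▸ h.flt _ va
  have hbN : b < N := fab ▸ h.flt _ vb
  have hcN : c < N := fac' ▸ h.flt _ vc
  have vl' : ∀ j, Val S' (.lid j) ↔ Val S (.lid j) := by
    intro j
    show j < S'.gaps.length ↔ j < S.gaps.length
    rw [hGl']
  have vc' : ∀ w k, Val S' (.cor w k) ↔ w < v + 1 := by
    intro w k
    show w < S'.cor.length ↔ _
    rw [hcl']
  -- substitution
  have hsub : ∀ f, Subst (bd f) (D_BdTw_g i v) (D_BdTw_h i v) (lin R) (lout R) (lin R') (lout R')
      id := by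
    intro f
    refine ⟨?_, ?_, ?_⟩
    · rintro (⟨w, k⟩ | j) hx y hy
      · have hw : w < v := ((h.mem f _).mp hx).1
        simp only [D_BdTw_g, List.mem_singleton] at hy
        subst hy
        simp only [D_BdTw_h]
        rw [if_neg (by omega)]
      · simp only [D_BdTw_g] at hy
        split_ifs at hy with h1 h2 h3
        · subst h1
          simp only [List.mem_cons, List.not_mem_nil, or_false] at hy
          rcases hy with rfl | rfl
          · simp [D_BdTw_h]
          · simp [D_BdTw_h]
        · subst h2
          simp only [List.mem_cons, List.not_mem_nil, or_false] at hy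
          subst hy
          simp [D_BdTw_h]
        · subst h3
          simp only [List.mem_cons, List.not_mem_nil, or_false] at hy
          rcases hy with rfl | rfl
          · simp [D_BdTw_h]
          · simp [D_BdTw_h]
        · simp only [List.mem_cons, List.not_mem_nil, or_false] at hy
          subst hy
          simp [D_BdTw_h]
    · rintro (⟨w, k⟩ | j) hx
      · simp [D_BdTw_g]
      · simp only [D_BdTw_g]
        split_ifs <;> simp
    · rintro (⟨w, k⟩ | j) hx
      · have hw : w < v := ((h.mem f _).mp hx).1
        simp only [D_BdTw_g]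
        exact ⟨lic w k hw, loc w k hw⟩
      · simp only [D_BdTw_g, id]
        split_ifs with h1 h2 h3
        · subst h1
          refine ⟨?_, ?_, ?_⟩
          · rw [liv, oi]; rfl
          · rw [lov, ei, if_pos rfl]; rfl
          · show lout R' (.lid j) = lout R (.lid j)
            rw [eo, if_neg (by omega), if_neg (by omega)]
        · subst h2
          refine ⟨?_, ?_⟩
          · rw [liv, oi1]; rfl
          · show lout R' (.cor v 2) = lout R (.lid (i + 1))
            rw [lov, oo1]; rfl
        · subst h3
          refine ⟨?_, ?_, ?_⟩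
          · rw [ei, if_neg (by omega), if_neg (by omega)]
          · rw [liv, eo, if_neg (by omega), if_pos rfl]; rfl
          · show lout R' (.cor v 1) = lout R (.lid (i + 2))
            rw [lov, oo2]; rfl
        · refine ⟨?_, ?_⟩
          · rw [ei, if_neg h1, if_neg h2]
          · show lout R' (.lid j) = lout R (.lid j)
            rw [eo, if_neg h2, if_neg h3]
  -- counts
  have hlabs : ∀ l, (labs R').count l = (labs R).count l + [n, n + 1, n, n + 1].count l := by
    intro l
    have e1 : labs R' = R.leg.flatMap (fun x => [x 0, x 1, x 2, x 3]) ++ [n, n + 1, β, α] ++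
        (q ++ n :: (n + 1) :: r') ++ [0] := by
      unfold labs
      rw [hR']
      simp
    have e2 : labs R = R.leg.flatMap (fun x => [x 0, x 1, x 2, x 3]) ++ (q ++ α :: β :: r') ++
        [0] := by
      unfold labs
      rw [← hs]
    rw [e1, e2]
    simp only [List.count_append, List.count_cons, List.count_nil]
    omega
  have hnl : ∀ l, (labs R).count l = 0 ∨ (labs R).count l = 2 ∧ l < n := by
    intro l
    by_cases hl : l ∈ labs R
    · exact Or.inr ⟨h.cnt l hl, h.slt l hl⟩
    · exact Or.inl (List.count_eq_zero.mpr hl)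
  have hc4 : ∀ l, [n, n + 1, n, n + 1].count l = if l = n ∨ l = n + 1 then 2 else 0 := by
    intro l
    simp only [List.count_cons, List.count_nil, beq_iff_eq]
    split_ifs <;> omega
  refine ⟨R', fun f => if f = N then [.lid (i + 1), .cor v 0] else (bd f).flatMap (D_BdTw_g i v),
    Function.update χ N ((i + 1) % 2), hstep, ?_⟩
  refine ⟨?_, ?_, ?_, ?_, ?_, ?_, ?_, ?_, ?_, ?_, ?_⟩
  · rw [hGl', hSl', hlen]
  · rw [hcl', hR']
    simp [hvR]
  · intro f x
    by_cases hf : f = N
    · subst hf
      simp only [if_true]
      constructor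
      · intro hx
        simp only [List.mem_cons, List.not_mem_nil, or_false] at hx
        rcases hx with rfl | rfl
        · exact ⟨(vl' _).mpr vb, by rw [fl, if_pos rfl]⟩
        · exact ⟨(vc' _ _).mpr (by omega), by rw [fv]; rfl⟩
      · rintro ⟨hx, hfx⟩
        rcases x with ⟨w, k⟩ | j
        · rw [vc'] at hx
          by_cases hw : w = v
          · subst hw
            rw [fv] at hfx
            have hk : k = 0 := by
              fin_cases k
              · rfl
              · exact absurd hfx (by simpa using hcN.ne)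
              · exact absurd hfx (by simpa using hbN.ne)
              · exact absurd hfx (by simpa using haN.ne)
            subst hk
            simp
          · have hw' : w < v := by omega
            rw [fc w k hw'] at hfx
            have : fac S (.cor w k) < N := h.flt _ hw'
            omega
        · by_cases hj : j = i + 1
          · subst hj
            simp
          · rw [fl, if_neg hj] at hfx
            have : fac S (.lid j) < N := h.flt _ ((vl' j).mp hx)
            omega
    · simp only [if_neg hf]
      rw [mem_subst (hsub f), h.mem]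
      rcases x with ⟨w, k⟩ | j
      · by_cases hw : w = v
        · subst hw
          have h1 : Val S' (.cor v k) := (vc' _ _).mpr (by omega)
          rw [fv]
          fin_cases k
          · simp only [D_BdTw_h]
            constructor
            · rintro ⟨⟨h2, _⟩, _⟩
              exfalso
              have : v < v := h2
              omega
            · rintro ⟨_, h2⟩
              exact absurd h2.symm hf
          · have h3 : D_BdTw_h i v (.cor v 1) = .lid (i + 2) := by simp [D_BdTw_h]
            have h4 : (Elt.cor v 1) ∈ D_BdTw_g i v (.lid (i + 2)) := by simp [D_BdTw_g]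
            show (Val S (D_BdTw_h i v (.cor v 1)) ∧ fac S (D_BdTw_h i v (.cor v 1)) = f) ∧
              (Elt.cor v 1) ∈ D_BdTw_g i v (D_BdTw_h i v (.cor v 1)) ↔
                Val S' (.cor v 1) ∧ c = f
            rw [h3, fac']
            exact ⟨fun h5 => ⟨h1, h5.1.2⟩, fun h5 => ⟨⟨vc, h5.2⟩, h4⟩⟩
          · have h3 : D_BdTw_h i v (.cor v 2) = .lid (i + 1) := by simp [D_BdTw_h]
            have h4 : (Elt.cor v 2) ∈ D_BdTw_g i v (.lid (i + 1)) := by simp [D_BdTw_g]
            show (Val S (D_BdTw_h i v (.cor v 2)) ∧ fac S (D_BdTw_h i v (.cor v 2)) = f) ∧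
              (Elt.cor v 2) ∈ D_BdTw_g i v (D_BdTw_h i v (.cor v 2)) ↔
                Val S' (.cor v 2) ∧ b = f
            rw [h3, fab]
            exact ⟨fun h5 => ⟨h1, h5.1.2⟩, fun h5 => ⟨⟨vb, h5.2⟩, h4⟩⟩
          · have h3 : D_BdTw_h i v (.cor v 3) = .lid i := by simp [D_BdTw_h]
            have h4 : (Elt.cor v 3) ∈ D_BdTw_g i v (.lid i) := by simp [D_BdTw_g]
            show (Val S (D_BdTw_h i v (.cor v 3)) ∧ fac S (D_BdTw_h i v (.cor v 3)) = f) ∧
              (Elt.cor v 3) ∈ D_BdTw_g i v (D_BdTw_h i v (.cor v 3)) ↔
                Val S' (.cor v 3) ∧ a = f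
            rw [h3, faa]
            exact ⟨fun h5 => ⟨h1, h5.1.2⟩, fun h5 => ⟨⟨va, h5.2⟩, h4⟩⟩
        · have h3 : D_BdTw_h i v (.cor w k) = .cor w k := by simp [D_BdTw_h, hw]
          have h4 : (Elt.cor w k) ∈ D_BdTw_g i v (.cor w k) := by simp [D_BdTw_g]
          rw [h3, vc']
          constructor
          · rintro ⟨⟨h5, h6⟩, _⟩
            have h5' : w < v := h5
            exact ⟨by omega, by rw [fc w k h5']; exact h6⟩
          · rintro ⟨h5, h6⟩
            have h5' : w < v := by omega
            exact ⟨⟨h5', by rw [← fc w k h5']; exact h6⟩, h4⟩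
      · have h3 : D_BdTw_h i v (.lid j) = .lid j := rfl
        rw [h3, vl', fl]
        by_cases hj : j = i + 1
        · subst hj
          rw [if_pos rfl]
          constructor
          · rintro ⟨_, h5⟩
            exfalso
            simp [D_BdTw_g] at h5
          · rintro ⟨_, h5⟩
            exact absurd h5.symm hf
        · rw [if_neg hj]
          have h4 : (Elt.lid j) ∈ D_BdTw_g i v (.lid j) := by
            simp only [D_BdTw_g]
            split_ifs with h1 h2
            · subst h1; simp
            · subst h2; simp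
            · simp
          exact ⟨fun h5 => h5.1, fun h5 => ⟨h5, h4⟩⟩
  · intro f
    by_cases hf : f = N
    · simp [hf]
    · simp only [if_neg hf]
      exact nodup_subst (hsub f) (h.nd f)
  · intro f
    by_cases hf : f = N
    · simp only [if_pos hf]
      refine ⟨n + 1, ?_, ?_, ?_⟩
      · rw [ei, if_neg (by omega), if_pos rfl]
      · rw [liv, eo, if_pos rfl]; rfl
      · show lout R' (.cor v 0) = n + 1
        rw [lov]; rfl
    · simp only [if_neg hf]
      obtain ⟨x, hx⟩ := h.path f
      exact ⟨x, path_subst (hsub f) hx⟩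
  · have hn' : S'.nxt = N + 1 := by rw [hS']
    rw [hn']
    rintro (⟨w, k⟩ | j) hx
    · rw [vc'] at hx
      by_cases hw : w = v
      · subst hw
        rw [fv]
        fin_cases k
        · show N < N + 1
          omega
        · show c < N + 1
          omega
        · show b < N + 1
          omega
        · show a < N + 1
          omega
      · have hw' : w < v := by omega
        rw [fc w k hw']
        have : fac S (.cor w k) < N := h.flt _ hw'
        omega
    · rw [fl]
      split_ifs with hj
      · omega
      · have : fac S (.lid j) < N := h.flt _ ((vl' j).mp hx)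
        omega
  · intro l hl
    have h1 : 0 < (labs R').count l := List.count_pos_iff.mpr hl
    rw [hlabs, hc4] at h1
    show l < n + 2
    rcases hnl l with h2 | h2
    · split_ifs at h1 with h3
      · omega
      · omega
    · omega
  · intro l hl
    have h1 : 0 < (labs R').count l := List.count_pos_iff.mpr hl
    rw [hlabs, hc4] at h1 ⊢
    rcases hnl l with h2 | h2
    · split_ifs at h1 ⊢ with h3
      · omega
      · omega
    · rw [if_neg (by omega)]
      omega
  · intro j hj
    rw [hGl'] at hj
    rw [eg]
    split_ifs with h1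
    · rw [Function.update_self, h1]
    · have h2 : S.gaps.getD j 0 < N := h.flt (.lid j) hj
      rw [Function.update_of_ne h2.ne]
      exact h.colg j hj
  · intro w hw k
    rw [hcl'] at hw
    have ca : Function.update χ N ((i + 1) % 2) a = i % 2 := by
      rw [Function.update_of_ne haN.ne, ← ga]
      exact h.colg i (by omega)
    have cb : Function.update χ N ((i + 1) % 2) b = (i + 1) % 2 := by
      rw [Function.update_of_ne hbN.ne, ← gb]
      exact h.colg (i + 1) (by omega)
    have cc : Function.update χ N ((i + 1) % 2) c = (i + 2) % 2 := by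
      rw [Function.update_of_ne hcN.ne, ← gc]
      exact h.colg (i + 2) (by omega)
    have cN : Function.update χ N ((i + 1) % 2) N = (i + 1) % 2 := Function.update_self _ _ _
    by_cases hwv : w = v
    · subst hwv
      rw [ecv]
      fin_cases k
      · show Function.update χ N ((i + 1) % 2) N ≠ Function.update χ N ((i + 1) % 2) c
        rw [cN, cc]
        omega
      · show Function.update χ N ((i + 1) % 2) c ≠ Function.update χ N ((i + 1) % 2) b
        rw [cc, cb]
        omega
      · show Function.update χ N ((i + 1) % 2) b ≠ Function.update χ N ((i + 1) % 2) a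
        rw [cb, ca]
        omega
      · show Function.update χ N ((i + 1) % 2) a ≠ Function.update χ N ((i + 1) % 2) N
        rw [ca, cN]
        omega
    · have hw' : w < v := by omega
      rw [ec w hw']
      have h1 : fac S (.cor w k) < N := h.flt _ hw'
      have h2 : fac S (.cor w (k + 1)) < N := h.flt _ hw'
      rw [Function.update_of_ne (show (S.cor.getD w (fun _ => 0)) k ≠ N from h1.ne),
        Function.update_of_ne (show (S.cor.getD w (fun _ => 0)) (k + 1) ≠ N from h2.ne)]
      exact h.colc w hw' k
  · have hn' : S'.nxt = N + 1 := by rw [hS']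
    rw [hn']
    omega

end Pool.Agent.H63.CLK
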