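import Pool.Agent.H63.CLK.D_BdCup
import Pool.Agent.H63.CLK.D_BdTw
import Pool.Agent.H63.CLK.D_BdCap
import Pool.Agent.H63.CLK.D_BdC
import Pool.Agent.H63.CLK.D_BdM
import Pool.Agent.H63.CLK.D_BdO
import Pool.Agent.H63.CLK.D_Crit
import Pool.Agent.H63.CLK.C_Defs

/-! # CLK part D0: the combinatorial data of a template -/

namespace Pool.Agent.H63.CLK

theorem inv_sweep : ∀ (w : List TPiece) (S₀ S : Sweep) (R₀ : Strands) (bd₀ : ℕ → List Elt)
    (χ₀ : ℕ → ℕ), Inv S₀ R₀ bd₀ χ₀ → Conn R₀ → sweep w S₀ = some S →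
    ∃ R bd χ, strands w R₀ = some R ∧ Inv S R bd χ ∧ Conn R := by
  intro w
  induction w with
  | nil =>
    intro S₀ S R₀ bd₀ χ₀ h hc hs
    simp only [sweep, Option.some.injEq] at hs
    subst hs
    exact ⟨R₀, bd₀, χ₀, rfl, h, hc⟩
  | cons x w ih =>
    intro S₀ S R₀ bd₀ χ₀ h hc hs
    simp only [sweep, Option.bind_eq_some_iff] at hs
    obtain ⟨S₁, h1, h2⟩ := hs
    have h3 : ∃ R' bd' χ', R₀.step x = some R' ∧ Inv S₁ R' bd' χ' ∧ Conn R' := by
      cases x with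
      | cup i =>
        obtain ⟨R', bd', χ', ha, hb⟩ := inv_cup h i h1
        exact ⟨R', bd', χ', ha, hb, conn_cup i ha hc⟩
      | cap i =>
        obtain ⟨R', bd', χ', ha, hb⟩ := inv_cap h i h1
        exact ⟨R', bd', χ', ha, hb, conn_cap h i h1 ha hc⟩
      | tw i =>
        obtain ⟨R', bd', χ', ha, hb⟩ := inv_tw h i h1
        exact ⟨R', bd', χ', ha, hb, conn_tw i ha hc⟩
    obtain ⟨R', bd', χ', h4, h5, h6⟩ := h3
    obtain ⟨R, bd, χ, h7, h8⟩ := ih S₁ S R' bd' χ' h5 h6 h2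
    exact ⟨R, bd, χ, by simp [strands, h4, h7], h8⟩

/-- The strand `0` has an end at a twist region. -/
theorem exists_leg_zero {c : ℕ} {S : Sweep} {R : Strands} {bd : ℕ → List Elt} {χ : ℕ → ℕ}
    (h : Inv S R bd χ) {z : ℕ} (hz : R.str = [z]) (hz0 : z ≠ 0) {leg : Fin c → Fin 4 → ℕ}
    (hl : List.ofFn leg = R.leg.map (fun x k => ident 0 z (x k))) : ∃ v k, leg v k = 0 := by
  have h2 : (labs R).count 0 = 2 := h.cnt 0 (by simp [labs])
  have h3 : 0 ∈ R.leg.flatMap (fun x => [x 0, x 1, x 2, x 3]) := by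
    by_contra hn
    rw [labs, List.count_append, List.count_append, List.count_eq_zero.mpr hn, hz] at h2
    simp [hz0] at h2
  rw [List.mem_flatMap] at h3
  obtain ⟨x, hx, hx0⟩ := h3
  have h4 : ∃ k : Fin 4, x k = 0 := by
    simp only [List.mem_cons, List.not_mem_nil, or_false] at hx0
    rcases hx0 with h | h | h | h
    · exact ⟨0, h.symm⟩
    · exact ⟨1, h.symm⟩
    · exact ⟨2, h.symm⟩
    · exact ⟨3, h.symm⟩
  obtain ⟨k, hk⟩ := h4
  have h5 : (fun k => ident 0 z (x k)) ∈ List.ofFn leg := by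
    rw [hl]
    exact List.mem_map.mpr ⟨x, hx, rfl⟩
  rw [List.mem_ofFn] at h5
  obtain ⟨v, hv⟩ := h5
  refine ⟨v, k, ?_⟩
  have := congrFun hv k
  rw [this]
  simp only [hk, ident]
  split_ifs with hh
  · simp
  · rfl

/-- A twist region has at most one end of the strand `0`. -/
theorem ends_of_adj {c : ℕ} {F : Finset ℕ} {cor : Fin c → Fin 4 → ℕ} {x : Vr c → ℝ}
    (hx : IsInt F cor x) (v : Fin c) (k l : Fin 4) (hk : cor v k ∉ F) (hk' : cor v (k - 1) ∉ F)
    (hl : cor v l ∉ F) (hl' : cor v (l - 1) ∉ F) : k = l := by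
  have h1 := hx.ang.vert v
  rw [Fin.sum_univ_four] at h1
  have h2 := hx.half v
  have h3 := hx.lt1 v
  have e0 := hx.ang.le v 0
  have e1 := hx.ang.le v 1
  have e2 := hx.ang.le v 2
  have e3 := hx.ang.le v 3
  have n0 := hx.ang.nn v 0
  have n1 := hx.ang.nn v 1
  have n2 := hx.ang.nn v 2
  have n3 := hx.ang.nn v 3
  simp only [cz, Matrix.cons_val_zero, Matrix.cons_val_one, Matrix.cons_val] at e0 e1 e2 e3
  have ok := hx.ang.out v k hk
  have ok' := hx.ang.out v (k - 1) hk'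
  have ol := hx.ang.out v l hl
  have ol' := hx.ang.out v (l - 1) hl'
  have s1 : (0 : Fin 4) - 1 = 3 := rfl
  have s2 : (1 : Fin 4) - 1 = 0 := rfl
  have s3 : (2 : Fin 4) - 1 = 1 := rfl
  have s4 : (3 : Fin 4) - 1 = 2 := rfl
  have hk4 : k = 0 ∨ k = 1 ∨ k = 2 ∨ k = 3 := by fin_cases k <;> simp
  have hl4 : l = 0 ∨ l = 1 ∨ l = 2 ∨ l = 3 := by fin_cases l <;> simp
  rcases hk4 with rfl | rfl | rfl | rfl <;> rcases hl4 with rfl | rfl | rfl | rfl <;>
    first
    | rfl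
    | (exfalso; simp only [s1, s2, s3, s4] at ok ok' ol ol'; linarith)

theorem isEnd_of {c : ℕ} {F : Finset ℕ} {cor : Fin c → Fin 4 → ℕ} {v : Fin c} {k : Fin 4}
    (hk : cor v k ∉ F) (hk' : cor v (k - 1) ∉ F) : IsEnd F cor v :=
  ⟨k - 1, hk', by simpa using hk⟩

/-- At an end the corners of the bounded faces are filled. -/
theorem fin_of_end {c : ℕ} {F : Finset ℕ} {cor : Fin c → Fin 4 → ℕ} {x : Vr c → ℝ}
    (hx : IsInt F cor x) (v : Fin c) (h : IsEnd F cor v) (k : Fin 4) (hk : cor v k ∈ F) :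
    x (Sum.inr (v, k)) = csr (x (Sum.inl v)) k := by
  obtain ⟨l, hl, hl'⟩ := h
  have h1 := hx.ang.vert v
  rw [Fin.sum_univ_four] at h1
  have h2 := hx.half v
  have h3 := hx.lt1 v
  have e0 := hx.ang.le v 0
  have e1 := hx.ang.le v 1
  have e2 := hx.ang.le v 2
  have e3 := hx.ang.le v 3
  simp only [cz, Matrix.cons_val_zero, Matrix.cons_val_one, Matrix.cons_val] at e0 e1 e2 e3
  have ol := hx.ang.out v l hl
  have ol' := hx.ang.out v (l + 1) hl'
  have s1 : (0 : Fin 4) + 1 = 1 := rfl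
  have s2 : (1 : Fin 4) + 1 = 2 := rfl
  have s3 : (2 : Fin 4) + 1 = 3 := rfl
  have s4 : (3 : Fin 4) + 1 = 0 := rfl
  have hk4 : k = 0 ∨ k = 1 ∨ k = 2 ∨ k = 3 := by fin_cases k <;> simp
  have hl4 : l = 0 ∨ l = 1 ∨ l = 2 ∨ l = 3 := by fin_cases l <;> simp
  rcases hk4 with rfl | rfl | rfl | rfl <;> rcases hl4 with rfl | rfl | rfl | rfl <;>
    simp only [s1, s2, s3, s4] at ol ol' hl hl' <;>
    first
    | exact absurd hk hl
    | exact absurd hk hl'
    | (simp only [csr, Matrix.cons_val_zero, Matrix.cons_val_one, Matrix.cons_val]; linarith)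

theorem exists_tdata {w : List TPiece} {c : ℕ} {F : Finset ℕ} {cor : Fin c → Fin 4 → ℕ}
    (h : IsTemplate w c F cor) {x : Vr c → ℝ} (hx : IsInt F cor x)
    (hpr : ∃ v₁ v₂ : Fin c, ∀ v, IsEnd F cor v → v = v₁ ∨ v = v₂) :
    ∃ T : TData c, T.F = F ∧ T.cor = cor ∧ T.Of w ∧ T.Good ∧
      (∀ v, T.isEnd v = true ↔ IsEnd F cor v) ∧
      Adm T (fun v => x (Sum.inl v)) (fun v k => x (Sum.inr (v, k))) := by
  obtain ⟨S, hs, hg, hc, hF⟩ := h
  obtain ⟨bd₀, χ₀, h0⟩ := inv_init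
  obtain ⟨R, bd, χ, hR, hI, hC⟩ := inv_sweep w _ _ _ _ _ h0 conn_init hs
  have hlen : R.str.length = 1 := by
    have := hI.len
    rw [hg] at this
    simpa using this.symm
  obtain ⟨z, hz⟩ := List.length_eq_one_iff.mp hlen
  have hcl : R.leg.length = c := by
    rw [← hI.lenc, hc, List.length_ofFn]
  obtain ⟨leg, hl⟩ : ∃ leg : Fin c → Fin 4 → ℕ,
      List.ofFn leg = R.leg.map (fun x k => ident 0 z (x k)) := by
    refine ⟨fun v => (R.leg.map (fun x k => ident 0 z (x k))).get (v.cast (by simp [hcl])), ?_⟩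
    apply List.ext_get
    · simp [hcl]
    · intro n h1 h2
      simp
  have hc0 : 0 < c := by
    obtain ⟨v₁, -⟩ := hpr
    exact v₁.pos
  have hL : IsLegs w c leg := ⟨R, z, hR, hz, hl⟩
  have hF2 : ∀ f ∈ F, 2 ≤ f := by
    intro f hf
    rw [hF] at hf
    simp only [Finset.mem_erase] at hf
    omega
  have hne : ∀ f ∈ F, ∃ v k, cor v k = f := by
    intro f hf
    by_contra hcon
    push Not at hcon
    have := hx.ang.face f hf
    simp [hcon] at this
  have hbd : ∀ f, ∃ b : ℕ → Fin c × Fin 4, f ∈ F → IsBd cor leg f (bd f).length b := by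
    intro f
    by_cases hf : f ∈ F
    · obtain ⟨v, k, hv⟩ := hne f hf
      obtain ⟨b, hb⟩ := inv_bd hI hz hg hl hc f (hF2 f hf) (v, k) hv
      exact ⟨b, fun _ => hb⟩
    · exact ⟨fun _ => (⟨0, hc0⟩, 0), fun h => absurd h hf⟩
  choose b hb using hbd
  have hz0 : z ≠ 0 := by
    refine conn_end hI hz hC ?_
    intro h
    rw [h] at hcl
    simp at hcl
    omega
  have hout : ∀ v k, leg v k = 0 → cor v k ∉ F ∧ cor v (k - 1) ∉ F := by
    intro v k hv
    obtain ⟨h1, h2⟩ := inv_outer hI hz hg hl hc v k hv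
    exact ⟨fun h => by have := hF2 _ h; omega, fun h => by have := hF2 _ h; omega⟩
  have hone : ∀ v, ∃ k₀ : Fin 4, ∀ k, leg v k = 0 → k₀ = k := by
    intro v
    by_cases h : ∃ k, leg v k = 0
    · obtain ⟨k, hk⟩ := h
      refine ⟨k, fun l hl => ?_⟩
      exact ends_of_adj hx v k l (hout v k hk).1 (hout v k hk).2 (hout v l hl).1 (hout v l hl).2
    · push Not at h
      exact ⟨0, fun k hk => absurd hk (h k)⟩
  choose one hone using hone
  let T : TData c := ⟨F, cor, leg, fun f => (bd f).length, b, one⟩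
  have hE : ∀ v, T.isEnd v = true ↔ ∃ k, leg v k = 0 := by
    intro v
    simp only [TData.isEnd, decide_eq_true_eq]
    constructor
    · intro h
      exact ⟨_, h⟩
    · rintro ⟨k, hk⟩
      change leg v (one v) = 0
      rw [hone v k hk]
      exact hk
  have hE' : ∀ v, T.isEnd v = true ↔ IsEnd F cor v := by
    intro v
    rw [hE]
    constructor
    · rintro ⟨k, hk⟩
      exact isEnd_of (hout v k hk).1 (hout v k hk).2
    · intro hv
      obtain ⟨v₁, k₁, h1⟩ := exists_leg_zero hI hz hz0 hl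
      obtain ⟨⟨v₂, k₂⟩, h2, -⟩ := inv_mate hI hz hl (v₁, k₁)
      have h2' : leg v₂ k₂ = 0 := by
        rw [← h1]
        exact h2.2.symm
      have h12 : v₁ ≠ v₂ := by
        rintro rfl
        apply h2.1
        have := hone v₁ k₁ h1
        have := hone v₁ k₂ h2'
        simp_all
      obtain ⟨a₁, a₂, ha⟩ := hpr
      have e1 := ha v₁ (isEnd_of (hout v₁ k₁ h1).1 (hout v₁ k₁ h1).2)
      have e2 := ha v₂ (isEnd_of (hout v₂ k₂ h2').1 (hout v₂ k₂ h2').2)
      have e3 := ha v hv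
      have : v = v₁ ∨ v = v₂ := by
        rcases e1 with rfl | rfl <;> rcases e2 with rfl | rfl <;> rcases e3 with rfl | rfl <;>
          simp_all
      rcases this with rfl | rfl
      · exact ⟨k₁, h1⟩
      · exact ⟨k₂, h2'⟩
  refine ⟨T, rfl, rfl, ⟨⟨S, hs, hg, hc, hF⟩, hL, fun f hf => hb f hf, fun v k hk => hone v k hk⟩,
    ⟨?_, ?_, ?_⟩, hE', ⟨?_, ?_, ?_, ?_, ?_, ?_⟩⟩
  · intro p
    obtain ⟨q, hq, -⟩ := inv_mate hI hz hl p
    exact ⟨q, hq⟩
  · intro p q r hq hr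
    obtain ⟨s, -, hs'⟩ := inv_mate hI hz hl p
    rw [hs' q hq, hs' r hr]
  · exact hout
  · exact fun v => ⟨hx.half v, hx.lt1 v⟩
  · exact hx.ang.out
  · intro v k hk hv
    have hv' : ¬ IsEnd F cor v := by
      intro h
      rw [← hE'] at h
      simp [h] at hv
    exact ⟨hx.pos v k hk hv', hx.lt v k hk hv'⟩
  · intro v k hk hv
    exact fin_of_end hx v ((hE' v).mp hv) k hk
  · exact hx.ang.vert
  · exact hx.ang.face

end Pool.Agent.H63.CLK
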