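import Pool.Agent.H63.CLK.D_Hyp

/-!
# Complex volumes of the links of a template

The definitions of `Pool.Agent.H63.CLK.D_Hyp` are continued. `Z` is the complex volume if it is the
sum of the values of Neumann's Rogers dilogarithm for a flattening of the triangulation which
satisfies the equations of the edges, the equations of the cusps (meridians and longitudes of the
link components, and the curves along which the cusps `C_v` are filled), and an order of the vertices
of every tetrahedron which is compatible with the face pairings.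
-/

namespace Pool.Agent.H63.CLK

open Pool.Agent.H63.VC Pool.Agent.H63.VC7.Hyp Complex

variable {c : ℕ}

/-! ### The longitudes of the link components -/

/-- The sum of the flattened parameters along a path around the strand `p` at the twist region `v`,
from the side in `S⁺` or `S⁻` to the side in the triangle spanned by the strand `0` and the legs `k`
and `k + 1`, where `p` is one of these two legs. The path goes around the edge between the two legs
and, if the corner `k` is at the left or right, around the edge `C_v p`. -/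
noncomputable def TData.ent (T : TData c) (x : Fin c → Fin 4 → Fin 3 → ℂ) (v : Fin c) (k p : Fin 4) :
    ℂ :=
  (∑ j, if cna (T.one v) j = k then chd (x v) j else 0) +
    if k = 1 ∨ k = 3 then ∑ j, (if lga (T.one v) j = p then spk (x v) j else 0) else 0

/-- The sum of the parameters at the edge from the strand `0` to the leg `q`, of the tetrahedra at the
face of the corner `q`. -/
noncomputable def TData.pls (T : TData c) (z : ℕ → ℕ → Fin 3 → ℂ) (q : Fin c × Fin 4) : ℂ :=
  if T.cor q.1 q.2 ∈ T.F then
    ∑ j ∈ Finset.range (T.deg (T.cor q.1 q.2)), (if T.bd (T.cor q.1 q.2) j = q then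
      pol (T.deg (T.cor q.1 q.2)) (z (T.cor q.1 q.2)) j else 0)
  else 0

/-- Let `p`, `q` be the two ends of a strand, such that the corner `q` and the corner before `p` belong
to the same face. The logarithmic holonomy of the path around this strand in `P` from the side at `p`
to the side at `q` next to this face, if it is bounded. -/
noncomputable def TData.hol (T : TData c) (x : Fin c → Fin 4 → Fin 3 → ℂ)
    (z : ℕ → ℕ → Fin 3 → ℂ) (p q : Fin c × Fin 4) : ℂ :=
  T.ent x p.1 (p.2 - 1) p.2 + T.ent x q.1 q.2 q.2 - T.pls z q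

/-- The same for the two ends `p`, `q` of the strand `0`: the sum of the parameters in `P` at all edges
from the strand `0` to the strands around the face of the corner `q`, and to `C_v` for an end at a
twist region `v` where this face is at the left or right. -/
noncomputable def TData.hol0 (T : TData c) (x : Fin c → Fin 4 → Fin 3 → ℂ)
    (z : ℕ → ℕ → Fin 3 → ℂ) (p q : Fin c × Fin 4) : ℂ :=
  (if p.2 = 0 ∨ p.2 = 2 then spk (x p.1) 0 else 0) +
    (if q.2 = 1 ∨ q.2 = 3 then spk (x q.1) 0 else 0) +
    ∑ v, ∑ k, if T.leg v k = 0 then 0 else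
      (if T.cor v k = T.cor q.1 q.2 then T.up x z (v, k) else 0) +
        (if T.cor v (k - 1) = T.cor q.1 q.2 then T.up x z (v, k) else 0)

/-- The logarithmic holonomies of all closed curves along the link components vanish: there are
numbers `g s v k` for the legs `k` of `v` in `P` (`s` true) and `P'` (`s` false), which are equal for
two sides in `S⁺` and `S⁻` glued together, such that the logarithmic holonomy along every strand is the
difference of the numbers at its ends. -/
structure Lon (T : TData c) (a : Fin c → ℤ) (Q : Par c) (g : Bool → Fin c → Fin 4 → ℂ) : Prop where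
  pass : ∀ s v k, g s v k = if Even (a v) then g s v (3 - k) else g (!s) v (k + 2)
  lon : ∀ p q, Mate T.leg p q → T.cor q.1 q.2 ∈ T.F →
    T.hol Q.x Q.z p q = g true q.1 q.2 - g true p.1 p.2 ∧
    -T.hol Q.x' Q.z' p q = g false q.1 q.2 - g false p.1 p.2
  lon0 : ∀ p q, Mate T.leg p q → T.leg p.1 p.2 = 0 →
    T.hol0 Q.x Q.z p q = g true q.1 q.2 - g true p.1 p.2 ∧
    -T.hol0 Q.x' Q.z' p q = g false q.1 q.2 - g false p.1 p.2

/-! ### Orders of the vertices -/

/-- The second vertex. -/
def src (d : Fin 3 → Bool) : Fin 3 := if d 2 && !d 1 then 0 else if d 0 && !d 2 then 1 else 2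

/-- The last vertex. -/
def snk (d : Fin 3 → Bool) : Fin 3 := if !d 2 && d 1 then 0 else if !d 0 && d 2 then 1 else 2

/-- The value of a flattened tetrahedron with the shape parameter `z` at the pair `0`, the parameters
`F` and the orientation `o`. Let `m` be the smallest vertex and `A_i` the vertex such that the edge
`m A_i` belongs to the pair `i` of opposite edges; `d i` is true if the edge `A_{i+1} A_{i+2}`, which
belongs to the same pair, is directed from `A_{i+1}` to `A_{i+2}`. -/
noncomputable def ordR (o : Bool) (z : ℂ) (F : Fin 3 → ℂ) (d : Fin 3 → Bool) : ℂ :=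
  if o then tetR z F (src d) (snk d) else tetR z (swp F) (-src d) (-snk d)

/-- Directions of edges: `x v k` is true if the edge between the legs `k` and `k + 1` of `v` is
directed from `k` to `k + 1`, `y v` is true if the edge `a_1 a_3` is directed from `a_1` to `a_3`, and
`w f j` is true if the edge `e_0 e_j` is directed from `e_0` to `e_j`. The strand `0` is smaller than
the other strands, and `C_v` is smaller than the legs of `v`. -/
structure Dir (c : ℕ) where
  x : Fin c → Fin 4 → Bool
  y : Fin c → Bool
  w : ℕ → ℕ → Bool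

/-- Is the edge between `a_{j+1}` and `a_{j+2}` directed from `a_{j+1}` to `a_{j+2}`? -/
def TData.chb (T : TData c) (D : Dir c) (v : Fin c) (j : Fin 4) : Bool :=
  if T.one v = 1 ∨ T.one v = 3 then D.x v (cna (T.one v) j) else !D.x v (cna (T.one v) j)

/-- The directions in the tetrahedra at `v`. -/
def TData.dirv (T : TData c) (D : Dir c) (v : Fin c) : Fin 4 → Fin 3 → Bool :=
  ![![!D.y v, T.chb D v 0, T.chb D v 1], ![D.y v, !T.chb D v 1, !T.chb D v 0],
    ![!D.y v, !T.chb D v 3, !T.chb D v 2], ![D.y v, T.chb D v 2, T.chb D v 3]]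

/-- The directions in the tetrahedra at the face `f`. -/
def TData.dirf (T : TData c) (D : Dir c) (f j : ℕ) : Fin 3 → Bool :=
  ![D.x (T.bd f j).1 (T.bd f j).2, !D.w f (j + 1), D.w f j]

/-- The directions come from an order of the vertices of every tetrahedron and are compatible with the
face pairings. -/
structure TData.IsDir (T : TData c) (a : Fin c → ℤ) (D : Dir c) : Prop where
  par : ∀ v, D.x v 2 = D.x v 0 ↔ Odd (a v)
  fst : ∀ v, T.isEnd v = true → D.y v = true ∧ T.chb D v 0 = true ∧ T.chb D v 3 = false
  acv : ∀ v k, ∃ i, T.dirv D v k i ≠ T.dirv D v k (i + 1)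
  two : ∀ f ∈ T.F, T.deg f = 2 →
    D.x (T.bd f 0).1 (T.bd f 0).2 ≠ D.x (T.bd f 1).1 (T.bd f 1).2
  w0 : ∀ f ∈ T.F, D.w f 1 = D.x (T.bd f 0).1 (T.bd f 0).2
  w1 : ∀ f ∈ T.F, D.w f (T.deg f - 1) = !D.x (T.bd f (T.deg f - 1)).1 (T.bd f (T.deg f - 1)).2
  acf : ∀ f ∈ T.F, ∀ j, 0 < j → j + 1 < T.deg f → ∃ i, T.dirf D f j i ≠ T.dirf D f j (i + 1)

/-! ### The complex volume -/

/-- The parameters `Q` are flattenings of the tetrahedra with the shape parameters `X`, `X'`, `Y`,
`Y'`. -/
structure TData.IsFlats (T : TData c) (X X' : Fin c → Fin 4 → ℂ) (Y Y' : ℕ → ℕ → ℂ) (Q : Par c) :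
    Prop where
  x : ∀ v k, T.has v k → IsFlat (X v k) (if T.one v = 1 ∨ T.one v = 3 then Q.x v k else swp (Q.x v k))
  x' : ∀ v k, T.has v k →
    IsFlat (X' v k) (if T.one v = 1 ∨ T.one v = 3 then swp (Q.x' v k) else Q.x' v k)
  no : ∀ v k, ¬ T.has v k → Q.x v k = 0 ∧ Q.x' v k = 0
  z : ∀ f ∈ T.F, ∀ j, 0 < j → j + 1 < T.deg f → IsFlat (Y f j) (Q.z f j) ∧
    IsFlat (Y' f j) (swp (Q.z' f j))

open Classical in
/-- The sum of the values of the tetrahedra. -/
noncomputable def TData.cvol (T : TData c) (X X' : Fin c → Fin 4 → ℂ) (Y Y' : ℕ → ℕ → ℂ) (Q : Par c)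
    (D : Dir c) : ℂ :=
  (∑ v, ∑ k, if T.has v k then
    ordR (decide (T.one v = 1 ∨ T.one v = 3)) (X v k) (Q.x v k) (T.dirv D v k) +
      ordR (!decide (T.one v = 1 ∨ T.one v = 3)) (X' v k) (Q.x' v k) (T.dirv D v k) else 0) +
    ∑ f ∈ T.F, ∑ j ∈ Finset.Ico 1 (T.deg f - 1),
      (ordR true (Y f j) (Q.z f j) (T.dirf D f j) + ordR false (Y' f j) (Q.z' f j) (T.dirf D f j))

/-- `Z` is the complex volume `i (Vol + i CS)`, well-defined modulo `π²`, of the complement of the link
obtained from the template `w` by putting `a v` half twists into the twist region `v` (theorem of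
Neumann): the sum of the values of the Rogers dilogarithm for a flattening satisfying the equations of
the edges and of the cusps, and an order of the vertices compatible with the face pairings. -/
def IsComplexVolume (w : List TPiece) (a : ℕ → ℤ) (Z : ℂ) : Prop :=
  ∃ (c : ℕ) (T : TData c) (X X' : Fin c → Fin 4 → ℂ) (Y Y' : ℕ → ℕ → ℂ) (Q : Par c)
    (g : Bool → Fin c → Fin 4 → ℂ) (D : Dir c), T.Of w ∧ T.IsGeom (fun v => a v) X X' Y Y' ∧
    T.IsFlats X X' Y Y' Q ∧ Glue 0 T (fun v => a v) Q ∧ Lon T (fun v => a v) Q g ∧
    T.IsDir (fun v => a v) D ∧ Z = T.cvol X X' Y Y' Q D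

end Pool.Agent.H63.CLK
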