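import Pool.Agent.H63.CLK.D_Ctr
import Pool.Agent.H63.CLK.D_HypC

set_option autoImplicit false

/-!
# CLK part D, D_FlD: definition of the flattening of the solution

Every arc `x` has an integral (or half integral) part `K_x` and a number `H_x ≡ K_x` mod 1; the
flattened parameters of the tetrahedron over the arcs `(a, b, c)` are `fl ![a,b,c] K H (±1)`.
The integral parts are given by a perfect matching `X` (`D_Match`): `σ v k` has the integral part
`xs X v k`, `1 - τ v` has the integral part `xk X v`, and `zf v` has `-m/2`; the numbers `H` are given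
by `N : strands → Bool` (`NOk`).
-/

namespace Pool.Agent.H63.CLK

open Pool.Agent.H63.VC hiding ext
open Pool.Agent.H63.VC3 Complex

variable {c : ℕ}

/-- The values on the strands: the strand `0` has the value `false`; the values agree along the link
at even twist regions and change at odd twist regions. -/
structure NOk (T : TData c) (a : Fin c → ℤ) (N : ℕ → Bool) : Prop where
  zero : N 0 = false
  even : ∀ v, Even (a v) → N (T.leg v 0) = N (T.leg v 3) ∧ N (T.leg v 1) = N (T.leg v 2)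
  odd : ∀ v, Odd (a v) → N (T.leg v 0) = !N (T.leg v 2) ∧ N (T.leg v 1) = !N (T.leg v 3)

/-- `1` or `0`. -/
def bt (b : Bool) : ℂ := if b = true then 1 else 0

/-- `0` or `1/2`. -/
noncomputable def nh (b b' : Bool) : ℂ := if b = b' then 0 else 1 / 2

/-- `-1` if both are true. -/
def xib (b b' : Bool) : ℂ := if b = true ∧ b' = true then -1 else 0

/-- The integral part of `σ v k`. -/
def xs (X : Fin c → Fin 4) (v : Fin c) (k : Fin 4) : ℂ := if k = X v then 1 else 0

/-- The integral part of `1 - τ v`. -/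
def xk (X : Fin c → Fin 4) (v : Fin c) : ℂ := if X v = 0 ∨ X v = 2 then 1 else 0

/-- Twice the half integral part of `-zf v`; `b j` is the value at the leg `a_{j+1}`. -/
noncomputable def mB (a : ℤ) (b : Fin 4 → Bool) : ℂ := if Odd a ∨ b 1 = b 2 then 1 else 0

/-- `H` of the arc `1/2 - κ + zf`. -/
noncomputable def gpB (t : ℂ) (a : ℤ) (b : Fin 4 → Bool) : ℂ :=
  nh (b 1) (b 2) - nh (b 0) (b 1) + (2 * t + a * mB a b) / 2

/-- `H` of the arc `1/2 - κ - zf`. -/
noncomputable def gmB (t : ℂ) (a : ℤ) (b : Fin 4 → Bool) : ℂ :=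
  nh (b 1) (b 2) - nh (b 0) (b 1) - (2 * t + a * mB a b) / 2

/-- `H` of the arc between the legs `a_{j+1}` and `a_{j+2}`. -/
def xiB (b : Fin 4 → Bool) (j : Fin 4) : ℂ := xib (b j) (b (j + 1))

/-- The numbers `H` of the three arcs of the tetrahedron `k`. -/
noncomputable def HvB (t : ℂ) (a : ℤ) (b : Fin 4 → Bool) (k : Fin 4) : Fin 3 → ℂ :=
  ![(![(1 - mB a b) / 2, xib (b 0) (b 2), xib (b 0) (b 2), (1 - mB a b) / 2] : Fin 4 → ℂ) k,
    (![0, xiB b 1, xiB b 3, 0] : Fin 4 → ℂ) k,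
    (![gpB t a b, xiB b 0, xiB b 2, gmB t a b] : Fin 4 → ℂ) k]

/-- The value at the leg `a_{j+1}`. -/
def TData.Nj (T : TData c) (N : ℕ → Bool) (v : Fin c) (j : Fin 4) : Bool :=
  N (T.leg v (lga (T.one v) j))

/-- `H` of the arcs `σ v k` and `csr (τ v) k - σ v k`. -/
def TData.xi (T : TData c) (N : ℕ → Bool) (v : Fin c) (k : Fin 4) : ℂ :=
  xib (N (T.leg v k)) (N (T.leg v (k + 1)))

/-- The orientation of the tetrahedra at `v` in `P`. -/
def TData.eps (T : TData c) (v : Fin c) : ℂ := if T.one v = 1 ∨ T.one v = 3 then 1 else -1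

/-- The sign with `zf v = -tv v * z v`. -/
def TData.tv (T : TData c) (v : Fin c) : ℂ := if T.one v = 0 ∨ T.one v = 1 then -1 else 1

/-- The number `m` at `v`. -/
noncomputable def TData.mv (T : TData c) (a : Fin c → ℤ) (N : ℕ → Bool) (v : Fin c) : ℂ :=
  mB (a v) (T.Nj N v)

/-- The arcs of the tetrahedron `k` at `v`. -/
noncomputable def TData.arv (T : TData c) (τ z : Fin c → ℂ) (σ : Fin c → Fin 4 → ℂ) (v : Fin c)
    (k : Fin 4) : Fin 3 → ℂ :=
  ![oa (1 - τ v) (T.zf z v) (T.tt τ σ v) k, ob (1 - τ v) (T.zf z v) (T.tt τ σ v) k,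
    oc (1 - τ v) (T.zf z v) (T.tt τ σ v) k]

/-- Their integral parts. -/
noncomputable def TData.Kv (T : TData c) (a : Fin c → ℤ) (N : ℕ → Bool) (X : Fin c → Fin 4)
    (v : Fin c) (k : Fin 4) : Fin 3 → ℂ :=
  ![oa (xk X v) (-(T.mv a N v / 2)) (T.tt (fun u => 1 - xk X u) (xs X) v) k,
    ob (xk X v) (-(T.mv a N v / 2)) (T.tt (fun u => 1 - xk X u) (xs X) v) k,
    oc (xk X v) (-(T.mv a N v / 2)) (T.tt (fun u => 1 - xk X u) (xs X) v) k]

/-- Their numbers `H`. -/
noncomputable def TData.Hv (T : TData c) (a : Fin c → ℤ) (N : ℕ → Bool) (v : Fin c) (k : Fin 4) :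
    Fin 3 → ℂ := HvB (T.tv v) (a v) (T.Nj N v) k

/-- The flattened parameters at `v`, with the sign `s`. -/
noncomputable def TData.flv (T : TData c) (a : Fin c → ℤ) (N : ℕ → Bool) (X : Fin c → Fin 4)
    (τ z : Fin c → ℂ) (σ : Fin c → Fin 4 → ℂ) (s : ℂ) (v : Fin c) (k : Fin 4) : Fin 3 → ℂ :=
  if T.isEnd v = true ∧ (k = 1 ∨ k = 2) then 0
  else fl (T.arv τ z σ v k) (T.Kv a N X v k) (T.Hv a N v k) s

/-- The arcs of the tetrahedron `j` at the face `f`. -/
noncomputable def TData.arf (T : TData c) (σ : Fin c → Fin 4 → ℂ) (f j : ℕ) : Fin 3 → ℂ :=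
  ![T.sf σ f j, 1 - psm (T.sf σ f) (j + 1), psm (T.sf σ f) j]

/-- The numbers `H` at the face `f`. -/
def TData.Hf (T : TData c) (N : ℕ → Bool) (f j : ℕ) : Fin 3 → ℂ :=
  ![T.sf (T.xi N) f j, if j + 2 = T.deg f then T.sf (T.xi N) f (j + 1) else 0,
    if j = 1 then T.sf (T.xi N) f 0 else 0]

/-- The flattened parameters at `f`, with the sign `s`. -/
noncomputable def TData.flf (T : TData c) (N : ℕ → Bool) (X : Fin c → Fin 4)
    (σ : Fin c → Fin 4 → ℂ) (s : ℂ) (f j : ℕ) : Fin 3 → ℂ :=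
  fl (T.arf σ f j) (T.arf (xs X) f j) (T.Hf N f j) s

/-- The flattened parameters. -/
noncomputable def TData.fpar (T : TData c) (a : Fin c → ℤ) (N : ℕ → Bool) (X : Fin c → Fin 4)
    (τ z : Fin c → ℂ) (σ : Fin c → Fin 4 → ℂ) : Par c where
  x v k := T.flv a N X τ z σ (T.eps v) v k
  x' v k := T.flv a N X τ z σ (-T.eps v) v k
  z := T.flf N X σ 1
  z' := T.flf N X σ (-1)
  s v k := 2 * Real.pi * I * (σ v k - xs X v k)
  U v := 2 * Real.pi * I * (T.zf z v + T.mv a N v / 2)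

/-- The index `j` of the leg `k = a_{j+1}`. -/
def lgi (i k : Fin 4) : Fin 4 := if i = 1 ∨ i = 3 then k - i else i - k

/-- The integers in the potentials. -/
noncomputable def laB (a : ℤ) (b : Fin 4 → Bool) (j : Fin 4) : ℂ :=
  if Even a then nh (b 1) (b 2) else if j = 0 ∨ j = 2 then 2 * nh (b 1) (b 2) else 0

/-- The potentials for the longitudes. -/
noncomputable def TData.gpot (T : TData c) (a : Fin c → ℤ) (N : ℕ → Bool) (z : Fin c → ℂ)
    (s : Bool) (v : Fin c) (k : Fin 4) : ℂ :=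
  (if s = true then 1 else -1) * T.eps v * (if lgi (T.one v) k = 0 ∨ lgi (T.one v) k = 1 then 1 else -1) *
    (Real.pi * I * (T.zf z v + T.mv a N v / 2)) + hh (1 / 2 + T.zf z v) +
    Real.pi * I * laB (a v) (T.Nj N v) (lgi (T.one v) k)

/-- The exact logarithm of `(exp (A f) + exp (A f')) / exp (A f)` for the two faces `f`, `f'` at the
leg `k` of `v`, where `f` is the face of the corner `l = k` or `l = k - 1`. -/
noncomputable def TData.Cr (T : TData c) (τ z : Fin c → ℂ) (σ : Fin c → Fin 4 → ℂ) (v : Fin c)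
    (k l : Fin 4) : ℂ :=
  if T.isEnd v = true then
    (if k = T.one v + 2 then 2 * hh (1 / 2 + z v) - (if l = 1 ∨ l = 3 then
      hh (τ v - 1 / 2 - z v) + hh (τ v - 1 / 2 + z v) else 2 * hh (1 - τ v)) else 0)
  else hh (1 - τ v) + hh (csr (τ v) (k - 1) - σ v (k - 1) + (csr (τ v) k - σ v k)) -
    hh (csr (τ v) (k - 1) - σ v (k - 1)) - hh (csr (τ v) k - σ v k) +
    (hh (csr (τ v) l - σ v l) - hh (σ v l))

/-- The imaginary parts of the logarithms are small. -/
structure SReg (T : TData c) (η : ℝ) (τ z : Fin c → ℂ) (σ : Fin c → Fin 4 → ℂ) : Prop where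
  kap : ∀ v, |(hh (1 - τ v)).im| < η
  alp : ∀ v, |(hh (1 / 2 + z v)).im| < η
  zp : ∀ v, |(hh (τ v - 1 / 2 + z v)).im| < η
  zm : ∀ v, |(hh (τ v - 1 / 2 - z v)).im| < η
  sig : ∀ v k, T.cor v k ∈ T.F → |(hh (σ v k)).im| < η
  the : ∀ v k, T.isEnd v = false → |(hh (csr (τ v) k - σ v k)).im| < η
  two : ∀ v k, T.isEnd v = false →
    0 < (csr (τ v) (k - 1) - σ v (k - 1) + (csr (τ v) k - σ v k)).re ∧
    (csr (τ v) (k - 1) - σ v (k - 1) + (csr (τ v) k - σ v k)).re < 1 ∧
    |(hh (csr (τ v) (k - 1) - σ v (k - 1) + (csr (τ v) k - σ v k))).im| < η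
  half : ∀ v, 0 < (1 / 2 + z v).re ∧ (1 / 2 + z v).re < 1

end Pool.Agent.H63.CLK
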