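import Pool.Agent.H63.CLK.D_Crit

/-!
# CLK part D, D_Oct: the tetrahedra at a twist region

Everything follows by unfolding `octP`, `octM`, `tri`, `swp`, `spk`, `chd`, `dia`, `ver`, `oa`, `ob`, `oc` and from
`hh (1/2 - z) = hh (1/2 + z)`, `hh (t 2 + t 3) = hh (t 0 + t 1)` (`hh_one_sub`, as `t 0 + t 1 + t 2 + t 3 = 1`).
`oct_vol`: `tri_vol` for the tetrahedra, and `D (exp (2 π i (1 - x))) = - D (exp (2 π i x))` (`SWpath_inv`) for `x = 1/2 + z` and `x = t 0 + t 1`.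
(The four sums for `e = true` do not need `ht`.)
-/

namespace Pool.Agent.H63.CLK

open Pool.Agent.H63.VC hiding ext
open Pool.Agent.H63.VC3 Pool.Agent.H63.VC7.Hyp Complex

variable (κ z : ℂ) (t : Fin 4 → ℂ)

private theorem D_Oct_P0 (e : Bool) : octP e κ z t 0 =
    ![Real.pi * I * (1 / 2 - z) + hh κ - hh (1 / 2 - κ + z),
      Real.pi * I * κ + hh (1 / 2 - κ + z) - hh (1 / 2 - z),
      Real.pi * I * (1 / 2 - κ + z) + hh (1 / 2 - z) - hh κ] := by
  simp [octP, oa, ob, oc, tri]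

private theorem D_Oct_P3 (e : Bool) : octP e κ z t 3 =
    ![Real.pi * I * (1 / 2 + z) + hh κ - hh (1 / 2 - κ - z),
      Real.pi * I * κ + hh (1 / 2 - κ - z) - hh (1 / 2 + z),
      Real.pi * I * (1 / 2 - κ - z) + hh (1 / 2 + z) - hh κ] := by
  simp [octP, oa, ob, oc, tri]

private theorem D_Oct_M0 (e : Bool) : octM e κ z t 0 =
    ![Real.pi * I * (1 / 2 - z) + hh (1 / 2 - κ + z) - hh κ,
      Real.pi * I * κ + hh (1 / 2 - z) - hh (1 / 2 - κ + z),
      Real.pi * I * (1 / 2 - κ + z) + hh κ - hh (1 / 2 - z)] := by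
  simp [octM, oa, ob, oc, tri, swp]

private theorem D_Oct_M3 (e : Bool) : octM e κ z t 3 =
    ![Real.pi * I * (1 / 2 + z) + hh (1 / 2 - κ - z) - hh κ,
      Real.pi * I * κ + hh (1 / 2 + z) - hh (1 / 2 - κ - z),
      Real.pi * I * (1 / 2 - κ - z) + hh κ - hh (1 / 2 + z)] := by
  simp [octM, oa, ob, oc, tri, swp]

private theorem D_Oct_P1 : octP false κ z t 1 =
    ![Real.pi * I * (t 2 + t 3) + hh (t 1) - hh (t 0),
      Real.pi * I * t 1 + hh (t 0) - hh (t 2 + t 3),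
      Real.pi * I * t 0 + hh (t 2 + t 3) - hh (t 1)] := by
  simp [octP, oa, ob, oc, tri]

private theorem D_Oct_P2 : octP false κ z t 2 =
    ![Real.pi * I * (t 0 + t 1) + hh (t 3) - hh (t 2),
      Real.pi * I * t 3 + hh (t 2) - hh (t 0 + t 1),
      Real.pi * I * t 2 + hh (t 0 + t 1) - hh (t 3)] := by
  simp [octP, oa, ob, oc, tri]

private theorem D_Oct_M1 : octM false κ z t 1 =
    ![Real.pi * I * (t 2 + t 3) + hh (t 0) - hh (t 1),
      Real.pi * I * t 1 + hh (t 2 + t 3) - hh (t 0),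
      Real.pi * I * t 0 + hh (t 1) - hh (t 2 + t 3)] := by
  simp [octM, oa, ob, oc, tri, swp]

private theorem D_Oct_M2 : octM false κ z t 2 =
    ![Real.pi * I * (t 0 + t 1) + hh (t 2) - hh (t 3),
      Real.pi * I * t 3 + hh (t 0 + t 1) - hh (t 2),
      Real.pi * I * t 2 + hh (t 3) - hh (t 0 + t 1)] := by
  simp [octM, oa, ob, oc, tri, swp]

private theorem D_Oct_z1 : octP true κ z t 1 = 0 ∧ octP true κ z t 2 = 0 ∧
    octM true κ z t 1 = 0 ∧ octM true κ z t 2 = 0 := by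
  simp [octP, octM]

private theorem D_Oct_hz : hh (1 / 2 - z) = hh (1 / 2 + z) := by
  rw [← hh_one_sub (1 / 2 + z)]; congr 1; ring

private theorem D_Oct_ht (ht : t 0 + t 1 + t 2 + t 3 = 1) : hh (t 2 + t 3) = hh (t 0 + t 1) := by
  rw [← hh_one_sub (t 0 + t 1)]; congr 1; linear_combination ht

theorem oct_spk (e : Bool) :
    spk (octP e κ z t) 0 + spk (octM e κ z t) 0 = Real.pi * I + 2 * Real.pi * I * z ∧
    spk (octP e κ z t) 3 + spk (octM e κ z t) 3 = Real.pi * I + 2 * Real.pi * I * z ∧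
    spk (octP e κ z t) 1 + spk (octM e κ z t) 1 = Real.pi * I - 2 * Real.pi * I * z ∧
    spk (octP e κ z t) 2 + spk (octM e κ z t) 2 = Real.pi * I - 2 * Real.pi * I * z := by
  have hz := D_Oct_hz z
  simp only [spk, D_Oct_P0, D_Oct_P3, D_Oct_M0, D_Oct_M3, Matrix.cons_val_zero,
    Matrix.cons_val_one, Matrix.cons_val, hz]
  refine ⟨?_, ?_, ?_, ?_⟩ <;> ring

/-- The sums for the edges `a_1 a_2`, …; for `e = true` without the part of `t`. -/
theorem oct_chd (e : Bool) :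
    chd (octP e κ z t) 0 + chd (octM e κ z t) 0 =
      2 * Real.pi * I * (κ + if e then 0 else t 0) ∧
    chd (octP e κ z t) 1 + chd (octM e κ z t) 1 =
      2 * Real.pi * I * (1 / 2 - κ + z + if e then 0 else t 1) ∧
    chd (octP e κ z t) 2 + chd (octM e κ z t) 2 =
      2 * Real.pi * I * (κ + if e then 0 else t 2) ∧
    chd (octP e κ z t) 3 + chd (octM e κ z t) 3 =
      2 * Real.pi * I * (1 / 2 - κ - z + if e then 0 else t 3) := by
  have hz := D_Oct_hz z
  obtain ⟨e1, e2, e3, e4⟩ := D_Oct_z1 κ z t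
  cases e
  · simp only [chd, D_Oct_P0, D_Oct_P3, D_Oct_M0, D_Oct_M3, D_Oct_P1, D_Oct_P2, D_Oct_M1,
      D_Oct_M2, Matrix.cons_val_zero, Matrix.cons_val_one, Matrix.cons_val, hz, Bool.false_eq_true,
      if_false]
    refine ⟨?_, ?_, ?_, ?_⟩ <;> ring
  · simp only [chd, D_Oct_P0, D_Oct_P3, D_Oct_M0, D_Oct_M3, e1, e2, e3, e4, Pi.zero_apply,
      Matrix.cons_val_zero, Matrix.cons_val_one, Matrix.cons_val, hz, if_true]
    refine ⟨?_, ?_, ?_, ?_⟩ <;> ring

theorem oct_dia_true : dia (octP true κ z t) =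
      Real.pi * I + (2 * hh κ - hh (1 / 2 - κ + z) - hh (1 / 2 - κ - z)) ∧
    dia (octM true κ z t) =
      Real.pi * I - (2 * hh κ - hh (1 / 2 - κ + z) - hh (1 / 2 - κ - z)) := by
  have hz := D_Oct_hz z
  obtain ⟨e1, e2, e3, e4⟩ := D_Oct_z1 κ z t
  simp only [dia, D_Oct_P0, D_Oct_P3, D_Oct_M0, D_Oct_M3, e1, e2, e3, e4, Pi.zero_apply,
      Matrix.cons_val_zero, Matrix.cons_val_one, Matrix.cons_val]
  refine ⟨?_, ?_⟩ <;> ring

theorem oct_dia_false (ht : t 0 + t 1 + t 2 + t 3 = 1) : dia (octP false κ z t) =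
      2 * (Real.pi * I) + (2 * hh κ - hh (1 / 2 - κ + z) - hh (1 / 2 - κ - z) +
        (hh (t 1) + hh (t 3) - hh (t 0) - hh (t 2))) ∧
    dia (octM false κ z t) =
      2 * (Real.pi * I) - (2 * hh κ - hh (1 / 2 - κ + z) - hh (1 / 2 - κ - z) +
        (hh (t 1) + hh (t 3) - hh (t 0) - hh (t 2))) := by
  simp only [dia, D_Oct_P0, D_Oct_P3, D_Oct_M0, D_Oct_M3, D_Oct_P1, D_Oct_P2, D_Oct_M1,
      D_Oct_M2, Matrix.cons_val_zero, Matrix.cons_val_one, Matrix.cons_val]
  refine ⟨?_, ?_⟩ <;> linear_combination (Real.pi * I) * ht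

/-- The edges from the strand `0` to `a_1, …, a_4`. -/
theorem oct_ver (ht : t 0 + t 1 + t 2 + t 3 = 1) (j : Fin 4) :
    ver false (octP false κ z t) j =
      Real.pi * I * (1 - t (j - 1) - t j) + hh (t j) - hh (t (j - 1)) ∧
    ver false (octM false κ z t) j =
      Real.pi * I * (1 - t (j - 1) - t j) - hh (t j) + hh (t (j - 1)) := by
  have h2 := D_Oct_ht t ht
  fin_cases j
  · change ver false (octP false κ z t) 0 = Real.pi * I * (1 - t 3 - t 0) + hh (t 0) - hh (t 3) ∧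
      ver false (octM false κ z t) 0 = Real.pi * I * (1 - t 3 - t 0) - hh (t 0) + hh (t 3)
    simp only [ver, D_Oct_P1, D_Oct_P2, D_Oct_M1, D_Oct_M2, Matrix.cons_val_zero,
      Matrix.cons_val_one, Matrix.cons_val, h2, Bool.false_eq_true, if_false]
    refine ⟨?_, ?_⟩ <;> linear_combination (Real.pi * I) * ht
  · change ver false (octP false κ z t) 1 = Real.pi * I * (1 - t 0 - t 1) + hh (t 1) - hh (t 0) ∧
      ver false (octM false κ z t) 1 = Real.pi * I * (1 - t 0 - t 1) - hh (t 1) + hh (t 0)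
    simp only [ver, D_Oct_P1, D_Oct_P2, D_Oct_M1, D_Oct_M2, Matrix.cons_val_zero,
      Matrix.cons_val_one, Matrix.cons_val, h2, Bool.false_eq_true, if_false]
    refine ⟨?_, ?_⟩ <;> linear_combination (Real.pi * I) * ht
  · change ver false (octP false κ z t) 2 = Real.pi * I * (1 - t 1 - t 2) + hh (t 2) - hh (t 1) ∧
      ver false (octM false κ z t) 2 = Real.pi * I * (1 - t 1 - t 2) - hh (t 2) + hh (t 1)
    simp only [ver, D_Oct_P1, D_Oct_P2, D_Oct_M1, D_Oct_M2, Matrix.cons_val_zero,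
      Matrix.cons_val_one, Matrix.cons_val, h2, Bool.false_eq_true, if_false]
    refine ⟨?_, ?_⟩ <;> linear_combination (Real.pi * I) * ht
  · change ver false (octP false κ z t) 3 = Real.pi * I * (1 - t 2 - t 3) + hh (t 3) - hh (t 2) ∧
      ver false (octM false κ z t) 3 = Real.pi * I * (1 - t 2 - t 3) - hh (t 3) + hh (t 2)
    simp only [ver, D_Oct_P1, D_Oct_P2, D_Oct_M1, D_Oct_M2, Matrix.cons_val_zero,
      Matrix.cons_val_one, Matrix.cons_val, h2, Bool.false_eq_true, if_false]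
    refine ⟨?_, ?_⟩ <;> linear_combination (Real.pi * I) * ht

theorem oct_lon (e : Bool) : octP e κ z t 0 2 - octP e κ z t 3 2 = 2 * Real.pi * I * z ∧
    octM e κ z t 0 2 - octM e κ z t 3 2 = 2 * Real.pi * I * z := by
  have hz := D_Oct_hz z
  simp only [D_Oct_P0, D_Oct_P3, D_Oct_M0, D_Oct_M3, Matrix.cons_val, hz]
  refine ⟨?_, ?_⟩ <;> ring

theorem oct_mer (e : Bool) :
    octP e κ z t 3 1 - octP e κ z t 0 1 = hh (1 / 2 - κ - z) - hh (1 / 2 - κ + z) ∧
    octM e κ z t 3 1 - octM e κ z t 0 1 = -(hh (1 / 2 - κ - z) - hh (1 / 2 - κ + z)) := by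
  have hz := D_Oct_hz z
  simp only [D_Oct_P0, D_Oct_P3, D_Oct_M0, D_Oct_M3, Matrix.cons_val_one, Matrix.cons_val_zero,
    Matrix.cons_val, hz]
  refine ⟨?_, ?_⟩ <;> ring

private theorem D_Oct_half : (1 / 2 : ℂ).re = 1 / 2 := by
  simp

private theorem D_Oct_inv (x : ℂ) : blochWigner (exp (2 * Real.pi * I * (1 - x))) =
    -blochWigner (exp (2 * Real.pi * I * x)) := by
  have h1 : exp (2 * Real.pi * I * (1 - x)) = (exp (2 * Real.pi * I * x))⁻¹ := by
    rw [← exp_neg, show 2 * Real.pi * I * (1 - x) = -(2 * Real.pi * I * x) + 2 * Real.pi * I by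
      ring, Complex.exp_add, Complex.exp_two_pi_mul_I, mul_one]
  rw [h1, SWpath_inv]

/-- The volume of the tetrahedra `0`, `3` and their mirror images. -/
theorem oct_vol0 (h1 : 0 < κ.re) (h2 : 0 < (1 / 2 - κ + z).re) (h3 : 0 < (1 / 2 - κ - z).re)
    (h4 : |z.re| < 1 / 2) :
    blochWigner (tsh (oa κ z t 0) (ob κ z t 0) (oc κ z t 0)) +
      blochWigner (tsh (oa κ z t 0) (oc κ z t 0) (ob κ z t 0)) +
      (blochWigner (tsh (oa κ z t 3) (ob κ z t 3) (oc κ z t 3)) +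
      blochWigner (tsh (oa κ z t 3) (oc κ z t 3) (ob κ z t 3))) =
    2 * blochWigner (exp (2 * Real.pi * I * κ)) +
      blochWigner (exp (2 * Real.pi * I * (1 / 2 - κ + z))) +
      blochWigner (exp (2 * Real.pi * I * (1 / 2 - κ - z))) := by
  have hz := abs_lt.1 h4
  have v0 := tri_vol (1 / 2 - z) κ (1 / 2 - κ + z) (by ring)
    (by simp only [Complex.sub_re, D_Oct_half]; linarith) h1 h2
  have v3 := tri_vol (1 / 2 + z) κ (1 / 2 - κ - z) (by ring)
    (by simp only [Complex.add_re, D_Oct_half]; linarith) h1 h3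
  have e0 := D_Oct_inv (1 / 2 + z)
  rw [show (1 : ℂ) - (1 / 2 + z) = 1 / 2 - z by ring] at e0
  rw [e0] at v0
  simp only [oa, ob, oc, Matrix.cons_val_zero, Matrix.cons_val]
  rw [v0, v3]
  ring

/-- The volume of the tetrahedra `1`, `2` and their mirror images. -/
theorem oct_vol1 (ht : t 0 + t 1 + t 2 + t 3 = 1) (hp : ∀ j, 0 < (t j).re) :
    blochWigner (tsh (oa κ z t 1) (ob κ z t 1) (oc κ z t 1)) +
      blochWigner (tsh (oa κ z t 1) (oc κ z t 1) (ob κ z t 1)) +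
      (blochWigner (tsh (oa κ z t 2) (ob κ z t 2) (oc κ z t 2)) +
      blochWigner (tsh (oa κ z t 2) (oc κ z t 2) (ob κ z t 2))) =
    ∑ j, blochWigner (exp (2 * Real.pi * I * t j)) := by
  have v1 := tri_vol (t 2 + t 3) (t 1) (t 0) (by linear_combination ht)
    (by rw [Complex.add_re]; exact add_pos (hp 2) (hp 3)) (hp 1) (hp 0)
  have v2 := tri_vol (t 0 + t 1) (t 3) (t 2) (by linear_combination ht)
    (by rw [Complex.add_re]; exact add_pos (hp 0) (hp 1)) (hp 3) (hp 2)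
  have e0 := D_Oct_inv (t 0 + t 1)
  rw [show (1 : ℂ) - (t 0 + t 1) = t 2 + t 3 by linear_combination -ht] at e0
  rw [e0] at v1
  simp only [oa, ob, oc, Matrix.cons_val_one, Matrix.cons_val]
  rw [v1, v2, Fin.sum_univ_four]
  ring

end Pool.Agent.H63.CLK
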