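import Pool.Agent.H63.CLK.D_Crit

/-!
# CLK part D, D_Pos: the solution is positively oriented near a real point

All conditions in `Reg` except the sums `a + b + c = 1` in `TOk` are strict inequalities between continuous functions of `(τ, z, σ)` (finitely many
conditions: `v`, `k`, `f ∈ T.F`, `j < T.deg f`), so it suffices to check them at the real point `(τ0, 0, σ0)`; use
`Filter.eventually_all`, `Metric.eventually_nhds_iff` etc. on the space `(Fin c → ℂ) × (Fin c → ℂ) × (Fin c → Fin 4 → ℂ)` (sup metric).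
For real `a, b, c ∈ (0,1)`: `hh` is real (`hh_real`) and continuous (`hh_hasDerivAt`), so `(tri a b c k).im = π a, π b, π c > 0`.
At the real point (`κ0 = 1 - τ0 ∈ (0, 1/2)`): the arcs `oa = 1/2, t2 + t3, t0 + t1, 1/2`, `ob = κ0, t1, t3, κ0`, `oc = 1/2 - κ0, t0, t2, 1/2 - κ0` are in
`(0,1)`, because for a twist region which is not an end `t j = csr - σ0 > 0` (`Adm.pos`, `Adm.out`, `csr > 0`) and `∑ t j = 2 - 1 = 1` (`cna (one v)` is a
bijection of `Fin 4`; `∑ csr = 2`). At a face: the numbers `T.sf σ0 f j` are positive (for ends: `csr > 0`) and `psm (deg f) = 1` by `hb.sumf`: the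
map `j ↦ bd f j` is a bijection from `range (deg f)` onto the corners of `f` (`IsBd.inj`, `IsBd.mem`).
The sums `a + b + c = 1`: for the tetrahedra `0`, `3` always, for `1`, `2` from `hv` (`∑ t j = 2 - ∑ σ`), for faces `σ_j + (1 - s_(j+1)) + s_j = 1` always.
-/

namespace Pool.Agent.H63.CLK

open Pool.Agent.H63.VC hiding ext
open Pool.Agent.H63.VC3 Pool.Agent.H63.VC7.Hyp Complex Filter Topology

variable {c : ℕ}

/-- The sum over the corners of a face. -/
theorem sf_sum {K : Type*} [AddCommMonoid K] {cor leg : Fin c → Fin 4 → ℕ} {f d : ℕ}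
    {b : ℕ → Fin c × Fin 4} (h : IsBd cor leg f d b) (σ : Fin c → Fin 4 → K) :
    ∑ j ∈ Finset.range d, σ (b j).1 (b j).2 = ∑ v, ∑ k, (if cor v k = f then σ v k else 0) := by
  classical
  have e1 : ∑ v, ∑ k, (if cor v k = f then σ v k else 0) =
      ∑ p : Fin c × Fin 4, (if cor p.1 p.2 = f then σ p.1 p.2 else 0) :=
    (Fintype.sum_prod_type (fun p : Fin c × Fin 4 => if cor p.1 p.2 = f then σ p.1 p.2 else 0)).symm
  rw [e1, ← Finset.sum_filter]
  have e2 : (Finset.univ.filter fun p : Fin c × Fin 4 => cor p.1 p.2 = f) =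
      (Finset.range d).image b := by
    ext p
    simp only [Finset.mem_filter, Finset.mem_univ, true_and, Finset.mem_image, Finset.mem_range]
    exact h.mem p
  rw [e2, Finset.sum_image]
  intro i hi j hj hij
  exact h.inj i (Finset.mem_range.1 hi) j (Finset.mem_range.1 hj) hij

/-- The strict part of `TOk`. -/
private def D_Pos_S (a b c : ℂ) : Prop :=
  0 < a.re ∧ 0 < b.re ∧ 0 < c.re ∧ ∀ k, 0 < (tri a b c k).im

private theorem D_Pos_TOk {a b c : ℂ} (h : D_Pos_S a b c) (hs : a + b + c = 1) : TOk a b c :=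
  ⟨hs, h.1, h.2.1, h.2.2.1, h.2.2.2⟩

private theorem D_Pos_hh {x : ℝ} (h0 : 0 < x) (h1 : x < 1) : (hh (x : ℂ)).im = 0 := by
  rw [hh_real x h0 h1, Complex.ofReal_im]

private theorem D_Pos_hhc {E : Type*} [TopologicalSpace E] {p0 : E} {a : E → ℂ}
    (ha : ContinuousAt a p0) {x : ℝ} (hx : a p0 = x) (h0 : 0 < x) (h1 : x < 1) :
    ContinuousAt (fun p => hh (a p)) p0 := by
  have h := (hh_hasDerivAt (a p0) (by rw [hx, Complex.ofReal_re]; exact h0)
    (by rw [hx, Complex.ofReal_re]; exact h1)).continuousAt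
  exact ContinuousAt.comp (f := a) (g := hh) h ha

private theorem D_Pos_ev {E : Type*} [TopologicalSpace E] {p0 : E} {a : E → ℂ}
    (ha : ContinuousAt a p0) {x : ℝ} (hx : a p0 = x) (h0 : 0 < x) : ∀ᶠ p in 𝓝 p0, 0 < (a p).re := by
  have h := ContinuousAt.eventually_lt (f := fun _ : E => (0 : ℝ)) (g := fun p => (a p).re)
    continuousAt_const (Complex.continuous_re.continuousAt.comp ha)
    (by simp only [hx, Complex.ofReal_re]; exact h0)
  exact h

private theorem D_Pos_ev1 {E : Type*} [TopologicalSpace E] {p0 : E} {a : E → ℂ}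
    (ha : ContinuousAt a p0) {x : ℝ} (hx : a p0 = x) {y : ℝ} (h1 : x < y) :
    ∀ᶠ p in 𝓝 p0, (a p).re < y := by
  have h := ContinuousAt.eventually_lt (g := fun _ : E => y) (f := fun p => (a p).re)
    (Complex.continuous_re.continuousAt.comp ha) continuousAt_const
    (by simp only [hx, Complex.ofReal_re]; exact h1)
  exact h

private theorem D_Pos_im {E : Type*} [TopologicalSpace E] {p0 : E} {a b c : E → ℂ}
    (ha : ContinuousAt a p0) (hb : ContinuousAt b p0) (hc : ContinuousAt c p0) {x y w : ℝ}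
    (hx : a p0 = x) (hy : b p0 = y) (hw : c p0 = w) (x0 : 0 < x) (y0 : 0 < y)
    (y1 : y < 1) (w0 : 0 < w) (w1 : w < 1) :
    ∀ᶠ p in 𝓝 p0, 0 < (Real.pi * I * a p + hh (b p) - hh (c p)).im := by
  have h := ContinuousAt.eventually_lt (f := fun _ : E => (0 : ℝ))
    (g := fun p => (Real.pi * I * a p + hh (b p) - hh (c p)).im)
    continuousAt_const (Complex.continuous_im.continuousAt.comp
      (((continuousAt_const.mul ha).add (D_Pos_hhc hb hy y0 y1)).sub (D_Pos_hhc hc hw w0 w1))) ?_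
  · exact h
  · simp only [hx, hy, hw]
    rw [Complex.sub_im, Complex.add_im, D_Pos_hh y0 y1, D_Pos_hh w0 w1]
    simp only [Complex.mul_im, Complex.mul_re, Complex.ofReal_re, Complex.ofReal_im, Complex.I_re,
      Complex.I_im]
    have := mul_pos Real.pi_pos x0
    nlinarith

private theorem D_Pos_evS {E : Type*} [TopologicalSpace E] {p0 : E} {a b c : E → ℂ}
    (ha : ContinuousAt a p0) (hb : ContinuousAt b p0) (hc : ContinuousAt c p0) {x y w : ℝ}
    (hx : a p0 = x) (hy : b p0 = y) (hw : c p0 = w) (x0 : 0 < x) (x1 : x < 1) (y0 : 0 < y)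
    (y1 : y < 1) (w0 : 0 < w) (w1 : w < 1) :
    ∀ᶠ p in 𝓝 p0, D_Pos_S (a p) (b p) (c p) := by
  filter_upwards [D_Pos_ev ha hx x0, D_Pos_ev hb hy y0, D_Pos_ev hc hw w0,
    D_Pos_im ha hb hc hx hy hw x0 y0 y1 w0 w1, D_Pos_im hb hc ha hy hw hx y0 w0 w1 x0 x1,
    D_Pos_im hc ha hb hw hx hy w0 x0 x1 y0 y1] with p h1 h2 h3 h4 h5 h6
  refine ⟨h1, h2, h3, fun k => ?_⟩
  fin_cases k
  · exact h4
  · exact h5
  · exact h6

/-- The space of parameters. -/
private abbrev D_Pos_E (c : ℕ) : Type := (Fin c → ℂ) × (Fin c → ℂ) × (Fin c → Fin 4 → ℂ)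

private theorem D_Pos_csr (v : Fin c) (k : Fin 4) :
    Continuous fun p : D_Pos_E c => csr (p.1 v) k := by
  fin_cases k
  · change Continuous fun p : D_Pos_E c => 1 - p.1 v
    fun_prop
  · change Continuous fun p : D_Pos_E c => p.1 v
    fun_prop
  · change Continuous fun p : D_Pos_E c => 1 - p.1 v
    fun_prop
  · change Continuous fun p : D_Pos_E c => p.1 v
    fun_prop

private theorem D_Pos_csr_real (x : ℝ) (k : Fin 4) : csr (x : ℂ) k = ((csr x k : ℝ) : ℂ) := by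
  fin_cases k
  · change (1 : ℂ) - x = ((1 - x : ℝ) : ℂ)
    push_cast
    ring
  · rfl
  · change (1 : ℂ) - x = ((1 - x : ℝ) : ℂ)
    push_cast
    ring
  · rfl

private theorem D_Pos_csr_pos {x : ℝ} (h0 : 0 < x) (h1 : x < 1) (k : Fin 4) :
    0 < csr x k ∧ csr x k < 1 := by
  fin_cases k
  · change 0 < 1 - x ∧ 1 - x < 1
    constructor <;> linarith
  · exact ⟨h0, h1⟩
  · change 0 < 1 - x ∧ 1 - x < 1
    constructor <;> linarith
  · exact ⟨h0, h1⟩

private theorem D_Pos_csr_sum {K : Type*} [CommRing K] (x : K) : ∑ k, csr x k = 2 := by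
  rw [Fin.sum_univ_four]
  change 1 - x + x + (1 - x) + x = 2
  ring

private theorem D_Pos_cna (i : Fin 4) : Function.Bijective (cna i) := by
  revert i
  decide

private theorem D_Pos_tt_sum (T : TData c) (τ : Fin c → ℂ) (σ : Fin c → Fin 4 → ℂ) (v : Fin c)
    (h : ∑ k, σ v k = 1) : ∑ j, T.tt τ σ v j = 1 := by
  have h1 : ∑ j, T.tt τ σ v j = ∑ k, (csr (τ v) k - σ v k) :=
    (D_Pos_cna (T.one v)).sum_comp (fun k => csr (τ v) k - σ v k)
  rw [h1, Finset.sum_sub_distrib, h, D_Pos_csr_sum]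
  ring

private theorem D_Pos_tt_cont (T : TData c) (v : Fin c) (j : Fin 4) :
    Continuous fun p : D_Pos_E c => T.tt p.1 p.2.2 v j := by
  unfold TData.tt
  exact (D_Pos_csr v _).sub (by fun_prop)

private theorem D_Pos_zf_cont (T : TData c) (v : Fin c) :
    Continuous fun p : D_Pos_E c => T.zf p.2.1 v := by
  unfold TData.zf
  split_ifs <;> fun_prop


private theorem D_Pos_evSS {E : Type*} [TopologicalSpace E] {p0 : E} {a b c : E → ℂ}
    (ha : ContinuousAt a p0) (hb : ContinuousAt b p0) (hc : ContinuousAt c p0) {x y w : ℝ}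
    (hx : a p0 = x) (hy : b p0 = y) (hw : c p0 = w) (x0 : 0 < x) (x1 : x < 1) (y0 : 0 < y)
    (y1 : y < 1) (w0 : 0 < w) (w1 : w < 1) :
    ∀ᶠ p in 𝓝 p0, D_Pos_S (a p) (b p) (c p) ∧ D_Pos_S (a p) (c p) (b p) :=
  (D_Pos_evS ha hb hc hx hy hw x0 x1 y0 y1 w0 w1).and
    (D_Pos_evS ha hc hb hx hw hy x0 x1 w0 w1 y0 y1)

private theorem D_Pos_evl {E : Type*} [TopologicalSpace E] {p0 : E} {a : E → ℂ}
    (ha : ContinuousAt a p0) {x : ℝ} (hx : a p0 = x) {y : ℝ} (h1 : y < x) :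
    ∀ᶠ p in 𝓝 p0, y < (a p).re := by
  have h := ContinuousAt.eventually_lt (f := fun _ : E => y) (g := fun p => (a p).re)
    continuousAt_const (Complex.continuous_re.continuousAt.comp ha)
    (by simp only [hx, Complex.ofReal_re]; exact h1)
  exact h

/-- The real point. -/
private noncomputable def D_Pos_p0 (τ0 : Fin c → ℝ) (σ0 : Fin c → Fin 4 → ℝ) : D_Pos_E c :=
  (fun v => (τ0 v : ℂ), 0, fun v k => (σ0 v k : ℂ))

private theorem D_Pos_zf0 (T : TData c) (v : Fin c) : T.zf 0 v = 0 := by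
  unfold TData.zf
  simp

/-- The octahedra. -/
private theorem D_Pos_oct (T : TData c) {τ0 : Fin c → ℝ} {σ0 : Fin c → Fin 4 → ℝ}
    (h : Adm T τ0 σ0) (v : Fin c) (k : Fin 4) (hk : T.has v k) :
    ∀ᶠ p in 𝓝 (D_Pos_p0 τ0 σ0),
      D_Pos_S (oa (1 - p.1 v) (T.zf p.2.1 v) (T.tt p.1 p.2.2 v) k)
        (ob (1 - p.1 v) (T.zf p.2.1 v) (T.tt p.1 p.2.2 v) k)
        (oc (1 - p.1 v) (T.zf p.2.1 v) (T.tt p.1 p.2.2 v) k) ∧
      D_Pos_S (oa (1 - p.1 v) (T.zf p.2.1 v) (T.tt p.1 p.2.2 v) k)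
        (oc (1 - p.1 v) (T.zf p.2.1 v) (T.tt p.1 p.2.2 v) k)
        (ob (1 - p.1 v) (T.zf p.2.1 v) (T.tt p.1 p.2.2 v) k) := by
  obtain ⟨t1, t2⟩ := h.tau v
  have cz := D_Pos_zf_cont T v
  have ct := D_Pos_tt_cont T v
  have cτ : Continuous fun p : D_Pos_E c => p.1 v := by fun_prop
  have hz0 : T.zf (D_Pos_p0 τ0 σ0).2.1 v = 0 := D_Pos_zf0 T v
  have hτ0 : (D_Pos_p0 τ0 σ0).1 v = ((τ0 v : ℝ) : ℂ) := rfl
  -- the arcs at the real point
  set t : Fin 4 → ℝ := fun j => csr (τ0 v) (cna (T.one v) j) - σ0 v (cna (T.one v) j) with htdef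
  have htt : ∀ j, T.tt (D_Pos_p0 τ0 σ0).1 (D_Pos_p0 τ0 σ0).2.2 v j = ((t j : ℝ) : ℂ) := by
    intro j
    unfold TData.tt
    rw [hτ0, D_Pos_csr_real, htdef]
    push_cast
    rfl
  have h03 : ∀ (s : ℂ), s = 1 ∨ s = -1 → ∀ᶠ p in 𝓝 (D_Pos_p0 τ0 σ0),
      D_Pos_S (1 / 2 + s * T.zf p.2.1 v) (1 - p.1 v) (1 / 2 - (1 - p.1 v) - s * T.zf p.2.1 v) ∧
      D_Pos_S (1 / 2 + s * T.zf p.2.1 v) (1 / 2 - (1 - p.1 v) - s * T.zf p.2.1 v) (1 - p.1 v) := by
    intro s _
    refine D_Pos_evSS (x := 1 / 2) (y := 1 - τ0 v) (w := τ0 v - 1 / 2)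
      (Continuous.continuousAt (by fun_prop)) (Continuous.continuousAt (by fun_prop))
      (Continuous.continuousAt (by fun_prop)) ?_ ?_ ?_ (by norm_num) (by norm_num) (by linarith)
      (by linarith) (by linarith) (by linarith)
    · rw [hz0]
      push_cast
      ring
    · rw [hτ0]
      push_cast
      ring
    · rw [hz0, hτ0]
      push_cast
      ring
  have hk' : k = 0 ∨ k = 3 ∨ ((k = 1 ∨ k = 2) ∧ T.isEnd v = false) := by
    rcases hk with hk | hk | hk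
    · exact Or.inl hk
    · exact Or.inr (Or.inl hk)
    · fin_cases k
      · exact Or.inl rfl
      · exact Or.inr (Or.inr ⟨Or.inl rfl, hk⟩)
      · exact Or.inr (Or.inr ⟨Or.inr rfl, hk⟩)
      · exact Or.inr (Or.inl rfl)
  rcases hk' with rfl | rfl | ⟨hk', he⟩
  · filter_upwards [h03 (-1) (Or.inr rfl)] with p hp
    have e1 : oa (1 - p.1 v) (T.zf p.2.1 v) (T.tt p.1 p.2.2 v) 0 = 1 / 2 + (-1) * T.zf p.2.1 v := by
      change 1 / 2 - T.zf p.2.1 v = _
      ring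
    have e2 : ob (1 - p.1 v) (T.zf p.2.1 v) (T.tt p.1 p.2.2 v) 0 = 1 - p.1 v := rfl
    have e3 : oc (1 - p.1 v) (T.zf p.2.1 v) (T.tt p.1 p.2.2 v) 0 =
        1 / 2 - (1 - p.1 v) - (-1) * T.zf p.2.1 v := by
      change 1 / 2 - (1 - p.1 v) + T.zf p.2.1 v = _
      ring
    rw [e1, e2, e3]
    exact hp
  · filter_upwards [h03 1 (Or.inl rfl)] with p hp
    have e1 : oa (1 - p.1 v) (T.zf p.2.1 v) (T.tt p.1 p.2.2 v) 3 = 1 / 2 + 1 * T.zf p.2.1 v := by
      change 1 / 2 + T.zf p.2.1 v = _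
      ring
    have e2 : ob (1 - p.1 v) (T.zf p.2.1 v) (T.tt p.1 p.2.2 v) 3 = 1 - p.1 v := rfl
    have e3 : oc (1 - p.1 v) (T.zf p.2.1 v) (T.tt p.1 p.2.2 v) 3 =
        1 / 2 - (1 - p.1 v) - 1 * T.zf p.2.1 v := by
      change 1 / 2 - (1 - p.1 v) - T.zf p.2.1 v = _
      ring
    rw [e1, e2, e3]
    exact hp
  · have hpos : ∀ j, 0 < t j := by
      intro j
      by_cases hF : T.cor v (cna (T.one v) j) ∈ T.F
      · exact sub_pos.2 (h.pos v _ hF he).2
      · rw [htdef]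
        simp only
        rw [h.out v _ hF, sub_zero]
        exact (D_Pos_csr_pos (by linarith) t2 _).1
    have hsum : t 0 + t 1 + t 2 + t 3 = 1 := by
      have h1 : ∑ j, t j = ∑ k, (csr (τ0 v) k - σ0 v k) :=
        (D_Pos_cna (T.one v)).sum_comp (fun k => csr (τ0 v) k - σ0 v k)
      have h2 : ∑ k, (csr (τ0 v) k - σ0 v k) = 1 := by
        rw [Finset.sum_sub_distrib, h.sumv, D_Pos_csr_sum]
        norm_num
      rw [h2, Fin.sum_univ_four] at h1
      exact h1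
    have p0 := hpos 0
    have p1 := hpos 1
    have p2 := hpos 2
    have p3 := hpos 3
    rcases hk' with rfl | rfl
    · have key := D_Pos_evSS (p0 := D_Pos_p0 τ0 σ0)
        (a := fun p => T.tt p.1 p.2.2 v 2 + T.tt p.1 p.2.2 v 3)
        (b := fun p => T.tt p.1 p.2.2 v 1) (c := fun p => T.tt p.1 p.2.2 v 0)
        (x := t 2 + t 3) (y := t 1) (w := t 0)
        ((ct 2).add (ct 3)).continuousAt (ct 1).continuousAt (ct 0).continuousAt
        (by rw [htt, htt]; push_cast; rfl) (htt 1) (htt 0)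
        (by linarith) (by linarith) p1 (by linarith) p0 (by linarith)
      exact key
    · have key := D_Pos_evSS (p0 := D_Pos_p0 τ0 σ0)
        (a := fun p => T.tt p.1 p.2.2 v 0 + T.tt p.1 p.2.2 v 1)
        (b := fun p => T.tt p.1 p.2.2 v 3) (c := fun p => T.tt p.1 p.2.2 v 2)
        (x := t 0 + t 1) (y := t 3) (w := t 2)
        ((ct 0).add (ct 1)).continuousAt (ct 3).continuousAt (ct 2).continuousAt
        (by rw [htt, htt]; push_cast; rfl) (htt 3) (htt 2)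
        (by linarith) (by linarith) p3 (by linarith) p2 (by linarith)
      exact key

private theorem D_Pos_oct_sum (T : TData c) (τ z : Fin c → ℂ) (σ : Fin c → Fin 4 → ℂ) (v : Fin c)
    (h : ∑ k, σ v k = 1) (k : Fin 4) :
    oa (1 - τ v) (T.zf z v) (T.tt τ σ v) k + ob (1 - τ v) (T.zf z v) (T.tt τ σ v) k +
      oc (1 - τ v) (T.zf z v) (T.tt τ σ v) k = 1 := by
  have hs := D_Pos_tt_sum T τ σ v h
  rw [Fin.sum_univ_four] at hs
  fin_cases k
  · change 1 / 2 - T.zf z v + (1 - τ v) + (1 / 2 - (1 - τ v) + T.zf z v) = 1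
    ring
  · change T.tt τ σ v 2 + T.tt τ σ v 3 + T.tt τ σ v 1 + T.tt τ σ v 0 = 1
    rw [← hs]
    ring
  · change T.tt τ σ v 0 + T.tt τ σ v 1 + T.tt τ σ v 3 + T.tt τ σ v 2 = 1
    rw [← hs]
    ring
  · change 1 / 2 + T.zf z v + (1 - τ v) + (1 / 2 - (1 - τ v) - T.zf z v) = 1
    ring

/-- The real numbers at a corner. -/
private theorem D_Pos_corner (T : TData c) {τ0 : Fin c → ℝ} {σ0 : Fin c → Fin 4 → ℝ}
    (h : Adm T τ0 σ0) (v : Fin c) (k : Fin 4) (hF : T.cor v k ∈ T.F) :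
    0 < σ0 v k ∧ σ0 v k < 1 := by
  obtain ⟨t1, t2⟩ := h.tau v
  obtain ⟨c1, c2⟩ := D_Pos_csr_pos (by linarith : 0 < τ0 v) t2 k
  cases he : T.isEnd v
  · obtain ⟨h1, h2⟩ := h.pos v k hF he
    exact ⟨h1, by linarith⟩
  · rw [h.fin v k hF he]
    exact ⟨c1, c2⟩

/-- The faces. -/
private theorem D_Pos_fan {w : List TPiece} {T : TData c} (hT : T.Of w) {τ0 : Fin c → ℝ}
    {σ0 : Fin c → Fin 4 → ℝ} (h : Adm T τ0 σ0) (f : ℕ) (hf : f ∈ T.F) (j : ℕ) (j0 : 0 < j)
    (j1 : j + 1 < T.deg f) :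
    ∀ᶠ p in 𝓝 (D_Pos_p0 τ0 σ0),
      D_Pos_S (T.sf p.2.2 f j) (1 - psm (T.sf p.2.2 f) (j + 1)) (psm (T.sf p.2.2 f) j) ∧
      D_Pos_S (T.sf p.2.2 f j) (psm (T.sf p.2.2 f) j) (1 - psm (T.sf p.2.2 f) (j + 1)) := by
  set s : ℕ → ℝ := fun i => σ0 (T.bd f i).1 (T.bd f i).2 with hs
  have hb := hT.bdy f hf
  have hpos : ∀ i < T.deg f, 0 < s i := by
    intro i hi
    have h1 : T.cor (T.bd f i).1 (T.bd f i).2 = f := (hb.mem (T.bd f i)).2 ⟨i, hi, rfl⟩
    exact (D_Pos_corner T h _ _ (by rw [h1]; exact hf)).1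
  have hsum : ∑ i ∈ Finset.range (T.deg f), s i = 1 := by
    rw [← h.sumf f hf]
    exact sf_sum hb σ0
  have ccont : ∀ i, Continuous fun p : D_Pos_E c => T.sf p.2.2 f i := by
    intro i
    unfold TData.sf
    fun_prop
  have pcont : ∀ i, Continuous fun p : D_Pos_E c => psm (T.sf p.2.2 f) i := by
    intro i
    unfold psm
    exact continuous_finsetSum _ fun i _ => ccont i
  have hsf : ∀ i, T.sf (D_Pos_p0 τ0 σ0).2.2 f i = ((s i : ℝ) : ℂ) := fun i => rfl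
  have hps : ∀ i, psm (T.sf (D_Pos_p0 τ0 σ0).2.2 f) i =
      ((∑ l ∈ Finset.range i, s l : ℝ) : ℂ) := by
    intro i
    unfold psm
    rw [Complex.ofReal_sum]
    exact Finset.sum_congr rfl fun l _ => hsf l
  have q0 : 0 < ∑ l ∈ Finset.range j, s l :=
    Finset.sum_pos (fun i hi => hpos i (by have := Finset.mem_range.1 hi; omega))
      ⟨0, Finset.mem_range.2 j0⟩
  have q1 : ∑ l ∈ Finset.range (j + 1), s l < 1 := by
    rw [← hsum]
    refine Finset.sum_lt_sum_of_subset (i := j + 1) ?_ (Finset.mem_range.2 j1) ?_ (hpos _ j1) ?_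
    · intro i hi
      rw [Finset.mem_range] at hi ⊢
      omega
    · simp
    · intro i hi _
      exact (hpos i (Finset.mem_range.1 hi)).le
  have q2 : ∑ l ∈ Finset.range (j + 1), s l = ∑ l ∈ Finset.range j, s l + s j :=
    Finset.sum_range_succ s j
  have q3 := hpos j (by omega)
  refine D_Pos_evSS (x := s j) (y := 1 - ∑ l ∈ Finset.range (j + 1), s l)
    (w := ∑ l ∈ Finset.range j, s l) (ccont j).continuousAt
    (continuous_const.sub (pcont (j + 1))).continuousAt (pcont j).continuousAt (hsf j) ?_ (hps j)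
    q3 (by linarith) (by linarith) (by linarith) q0 (by linarith)
  rw [hps]
  push_cast
  rfl

theorem reg_near {w : List TPiece} {T : TData c} (hT : T.Of w) (hN : T.Nice)
    {τ0 : Fin c → ℝ} {σ0 : Fin c → Fin 4 → ℝ} (h : Adm T τ0 σ0) :
    ∃ ε : ℝ, 0 < ε ∧ ∀ (τ z : Fin c → ℂ) (σ : Fin c → Fin 4 → ℂ),
      (∀ v k, T.cor v k ∉ T.F → σ v k = 0) → (∀ v, ∑ k, σ v k = 1) →
      (∀ v, ‖τ v - τ0 v‖ < ε ∧ ‖z v‖ < ε) → (∀ v k, ‖σ v k - σ0 v k‖ < ε) → Reg T τ z σ := by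
  have E1 : ∀ᶠ p in 𝓝 (D_Pos_p0 τ0 σ0), ∀ v : Fin c, ∀ k : Fin 4, T.has v k →
      D_Pos_S (oa (1 - p.1 v) (T.zf p.2.1 v) (T.tt p.1 p.2.2 v) k)
        (ob (1 - p.1 v) (T.zf p.2.1 v) (T.tt p.1 p.2.2 v) k)
        (oc (1 - p.1 v) (T.zf p.2.1 v) (T.tt p.1 p.2.2 v) k) ∧
      D_Pos_S (oa (1 - p.1 v) (T.zf p.2.1 v) (T.tt p.1 p.2.2 v) k)
        (oc (1 - p.1 v) (T.zf p.2.1 v) (T.tt p.1 p.2.2 v) k)
        (ob (1 - p.1 v) (T.zf p.2.1 v) (T.tt p.1 p.2.2 v) k) := by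
    refine Filter.eventually_all.2 fun v => Filter.eventually_all.2 fun k => ?_
    by_cases hk : T.has v k
    · filter_upwards [D_Pos_oct T h v k hk] with p hp _
      exact hp
    · exact Filter.Eventually.of_forall fun p hk' => absurd hk' hk
  have E2 : ∀ᶠ p in 𝓝 (D_Pos_p0 τ0 σ0), ∀ f ∈ T.F, ∀ j ∈ Finset.range (T.deg f), 0 < j →
      j + 1 < T.deg f →
      D_Pos_S (T.sf p.2.2 f j) (1 - psm (T.sf p.2.2 f) (j + 1)) (psm (T.sf p.2.2 f) j) ∧
      D_Pos_S (T.sf p.2.2 f j) (psm (T.sf p.2.2 f) j) (1 - psm (T.sf p.2.2 f) (j + 1)) := by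
    refine (Filter.eventually_all_finset _).2 fun f hf => (Filter.eventually_all_finset _).2
      fun j _ => ?_
    by_cases hj : 0 < j ∧ j + 1 < T.deg f
    · filter_upwards [D_Pos_fan hT h f hf j hj.1 hj.2] with p hp _ _
      exact hp
    · exact Filter.Eventually.of_forall fun p h1 h2 => absurd ⟨h1, h2⟩ hj
  have cσ : ∀ v k, Continuous fun p : D_Pos_E c => p.2.2 v k := by
    intro v k
    fun_prop
  have cτ : ∀ v, Continuous fun p : D_Pos_E c => p.1 v := by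
    intro v
    fun_prop
  have E3 : ∀ᶠ p in 𝓝 (D_Pos_p0 τ0 σ0), ∀ v : Fin c, ∀ k : Fin 4, T.cor v k ∈ T.F →
      0 < (p.2.2 v k).re ∧ (p.2.2 v k).re < 1 := by
    refine Filter.eventually_all.2 fun v => Filter.eventually_all.2 fun k => ?_
    by_cases hk : T.cor v k ∈ T.F
    · obtain ⟨h1, h2⟩ := D_Pos_corner T h v k hk
      filter_upwards [D_Pos_evl (p0 := D_Pos_p0 τ0 σ0) (cσ v k).continuousAt
        (x := σ0 v k) rfl h1, D_Pos_ev1 (p0 := D_Pos_p0 τ0 σ0) (cσ v k).continuousAt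
        (x := σ0 v k) rfl h2] with p h3 h4 _
      exact ⟨h3, h4⟩
    · exact Filter.Eventually.of_forall fun p hk' => absurd hk' hk
  have E4 : ∀ᶠ p in 𝓝 (D_Pos_p0 τ0 σ0), ∀ v : Fin c, ∀ k : Fin 4, T.isEnd v = false →
      0 < (csr (p.1 v) k - p.2.2 v k).re ∧ (csr (p.1 v) k - p.2.2 v k).re < 1 := by
    refine Filter.eventually_all.2 fun v => Filter.eventually_all.2 fun k => ?_
    cases he : T.isEnd v
    · obtain ⟨t1, t2⟩ := h.tau v
      obtain ⟨c1, c2⟩ := D_Pos_csr_pos (by linarith : 0 < τ0 v) t2 k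
      have h1 : 0 < csr (τ0 v) k - σ0 v k ∧ csr (τ0 v) k - σ0 v k < 1 := by
        by_cases hF : T.cor v k ∈ T.F
        · obtain ⟨h1, h2⟩ := h.pos v k hF he
          constructor <;> linarith
        · rw [h.out v k hF]
          constructor <;> linarith
      have hv : csr ((D_Pos_p0 τ0 σ0).1 v) k - (D_Pos_p0 τ0 σ0).2.2 v k =
          ((csr (τ0 v) k - σ0 v k : ℝ) : ℂ) := by
        have h2 : csr ((D_Pos_p0 τ0 σ0).1 v) k = ((csr (τ0 v) k : ℝ) : ℂ) := D_Pos_csr_real _ _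
        rw [h2]
        push_cast
        rfl
      filter_upwards [D_Pos_evl (p0 := D_Pos_p0 τ0 σ0) ((D_Pos_csr v k).sub (cσ v k)).continuousAt
        hv h1.1, D_Pos_ev1 (p0 := D_Pos_p0 τ0 σ0) ((D_Pos_csr v k).sub (cσ v k)).continuousAt
        hv h1.2] with p h3 h4 _
      exact ⟨h3, h4⟩
    · exact Filter.Eventually.of_forall fun p hk' => absurd hk' (by decide)
  have E5 : ∀ᶠ p in 𝓝 (D_Pos_p0 τ0 σ0), ∀ v : Fin c, 1 / 2 < (p.1 v).re ∧ (p.1 v).re < 1 := by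
    refine Filter.eventually_all.2 fun v => ?_
    obtain ⟨t1, t2⟩ := h.tau v
    exact (D_Pos_evl (p0 := D_Pos_p0 τ0 σ0) (cτ v).continuousAt (x := τ0 v) rfl t1).and
      (D_Pos_ev1 (p0 := D_Pos_p0 τ0 σ0) (cτ v).continuousAt (x := τ0 v) rfl t2)
  have E6 : ∀ᶠ p in 𝓝 (D_Pos_p0 τ0 σ0), ∀ v : Fin c,
      (0 < (p.1 v - 1 / 2 + p.2.1 v).re ∧ (p.1 v - 1 / 2 + p.2.1 v).re < 1) ∧
      (0 < (p.1 v - 1 / 2 - p.2.1 v).re ∧ (p.1 v - 1 / 2 - p.2.1 v).re < 1) := by
    refine Filter.eventually_all.2 fun v => ?_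
    obtain ⟨t1, t2⟩ := h.tau v
    have c1 : Continuous fun p : D_Pos_E c => p.1 v - 1 / 2 + p.2.1 v := by fun_prop
    have c2 : Continuous fun p : D_Pos_E c => p.1 v - 1 / 2 - p.2.1 v := by fun_prop
    have v1 : (D_Pos_p0 τ0 σ0).1 v - 1 / 2 + (D_Pos_p0 τ0 σ0).2.1 v =
        ((τ0 v - 1 / 2 : ℝ) : ℂ) := by
      change (τ0 v : ℂ) - 1 / 2 + 0 = _
      push_cast
      ring
    have v2 : (D_Pos_p0 τ0 σ0).1 v - 1 / 2 - (D_Pos_p0 τ0 σ0).2.1 v =
        ((τ0 v - 1 / 2 : ℝ) : ℂ) := by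
      change (τ0 v : ℂ) - 1 / 2 - 0 = _
      push_cast
      ring
    exact ((D_Pos_evl c1.continuousAt v1 (by linarith)).and
      (D_Pos_ev1 c1.continuousAt v1 (by linarith))).and
      ((D_Pos_evl c2.continuousAt v2 (by linarith)).and
      (D_Pos_ev1 c2.continuousAt v2 (by linarith)))
  obtain ⟨ε, hε, hall⟩ := Metric.eventually_nhds_iff.1
    (E1.and (E2.and (E3.and (E4.and (E5.and E6)))))
  refine ⟨ε, hε, fun τ z σ h1 h2 h3 h4 => ?_⟩
  have hd : dist ((τ, z, σ) : D_Pos_E c) (D_Pos_p0 τ0 σ0) < ε := by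
    rw [Prod.dist_eq, Prod.dist_eq]
    refine max_lt ?_ (max_lt ?_ ?_)
    · exact (dist_pi_lt_iff hε).2 fun v => by
        rw [dist_eq_norm]
        exact (h3 v).1
    · exact (dist_pi_lt_iff hε).2 fun v => by
        rw [dist_eq_norm]
        change ‖z v - 0‖ < ε
        rw [sub_zero]
        exact (h3 v).2
    · exact (dist_pi_lt_iff hε).2 fun v => (dist_pi_lt_iff hε).2 fun k => by
        rw [dist_eq_norm]
        exact h4 v k
  obtain ⟨F1, F2, F3, F4, F5, F6⟩ := hall hd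
  have fsum : ∀ (f j : ℕ), T.sf σ f j + (1 - psm (T.sf σ f) (j + 1)) + psm (T.sf σ f) j = 1 := by
    intro f j
    unfold psm
    rw [Finset.sum_range_succ]
    ring
  exact
    { oct := fun v k hk => ⟨D_Pos_TOk (F1 v k hk).1 (D_Pos_oct_sum T τ z σ v (h2 v) k),
        D_Pos_TOk (F1 v k hk).2 ((add_right_comm _ _ _).trans
          (D_Pos_oct_sum T τ z σ v (h2 v) k))⟩
      fan := fun f hf j j0 j1 => ⟨D_Pos_TOk (F2 f hf j (Finset.mem_range.2 (by omega)) j0 j1).1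
          (fsum f j),
        D_Pos_TOk (F2 f hf j (Finset.mem_range.2 (by omega)) j0 j1).2
          ((add_right_comm _ _ _).trans (fsum f j))⟩
      sig := F3
      the := F4
      tau := F5
      zp := fun v => (F6 v).1
      zm := fun v => (F6 v).2 }

end Pool.Agent.H63.CLK
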