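import Pool.Agent.H63.CLK.D_Fan
import Pool.Agent.H63.CLK.D_Oct
import Pool.Agent.H63.CLK.D_Pos

/-!
# CLK part D, D_Ver: the parts of the sums at the edges from the strand `0`

* `verV`: cases `one v = 0,1,2,3` and `k = 0,1,2,3`; exactly one `j` has `lga (one v) j = k`. If `one v` is odd, then `lga (one v) j = one v + j`,
  `cna (one v) j = one v + j`, so with `lga (one v) j = k`: `t j = θ v k`, `t (j-1) = θ v (k-1)` and `oct_ver` gives the formula for `x = octP`, and the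
  opposite signs of `hh` for `x' = octM`. If it is even, `lga (one v) j = one v - j`, `cna (one v) j = one v - j - 1`: `t j = θ v (k-1)`, `t (j-1) = θ v k`, and
  `x = octM`, `x' = octP`: same formulas.
* `verE2`: `oct_dia_true`; `verE1`, `verE3`: `ver true x 1 = chd x 0`, `ver true x 3 = chd x 3`, `oct_chd` with `e = true`.
* `adj`: let `f = T.cor p.1 p.2 ∈ T.F`; `p = T.bd f j` with `j < d` (`IsBd.mem`); let `r = T.bd f (j + (d-1))`; by `IsBd.mate` (and `per`) `(r.1, r.2+1)` is a mate of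
  `T.bd f (j+d) = p`, so `q = (r.1, r.2+1)` (`hG.un`), `r = (q.1, q.2-1)` and `cor r = f`. Conversely if `g = T.cor q.1 (q.2-1) ∈ T.F`, then
  `(q.1, q.2-1) = T.bd g j`, and `(q.1, q.2)` is a mate of `T.bd g (j+1)`, so `p = T.bd g (j+1)` and `cor p = g ∈ T.F`.
* `upF`: in the sum over `j < d` exactly the `j` with `T.bd f j = p` contributes; `fan_polP`, `fan_polM` with `σ := T.sf σ f`, and
  `T.sf σ f ((j + (d-1)) % d) = σ r` with `r` as above.
-/

namespace Pool.Agent.H63.CLK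

open Pool.Agent.H63.VC hiding ext
open Pool.Agent.H63.VC3 Pool.Agent.H63.VC7.Hyp Complex

variable {c : ℕ} {w : List TPiece} {T : TData c} {a : Fin c → ℤ} {τ z : Fin c → ℂ}
  {σ : Fin c → Fin 4 → ℂ} {A : ℕ → ℂ} {B : Fin c → ℂ}

private theorem D_Ver_lga (i k j : Fin 4) :
    (lga i j = k) = (j = if i = 1 ∨ i = 3 then k - i else i - k) := by
  unfold lga
  revert i k j
  decide

private theorem D_Ver_cna1 (i k : Fin 4) :
    cna i (if i = 1 ∨ i = 3 then k - i else i - k) = if i = 1 ∨ i = 3 then k else k - 1 := by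
  unfold cna
  revert i k
  decide

private theorem D_Ver_cna2 (i k : Fin 4) :
    cna i ((if i = 1 ∨ i = 3 then k - i else i - k) - 1) = if i = 1 ∨ i = 3 then k - 1 else k := by
  unfold cna
  revert i k
  decide

private theorem D_Ver_inj (i a b : Fin 4) : cna i a = cna i b → a = b := by
  unfold cna
  revert i a b
  decide

private theorem D_Ver_sum (i : Fin 4) (θ : Fin 4 → ℂ) :
    θ (cna i 0) + θ (cna i 1) + θ (cna i 2) + θ (cna i 3) = ∑ k, θ k := by
  have h : Function.Bijective (cna i) :=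
    Finite.injective_iff_bijective.mp (fun a b => D_Ver_inj i a b)
  rw [← h.sum_comp θ, Fin.sum_univ_four]

private theorem D_Ver_V (i : Fin 4) (κ ζ : ℂ) (θ : Fin 4 → ℂ) (h : ∑ k, θ k = 1) (k : Fin 4) :
    (∑ j, if lga i j = k then ver false (if i = 1 ∨ i = 3 then
      octP false κ ζ (fun j => θ (cna i j)) else octM false κ ζ (fun j => θ (cna i j))) j else 0) =
      Real.pi * I * (1 - θ (k - 1) - θ k) + (hh (θ k) - hh (θ (k - 1))) ∧
    (∑ j, if lga i j = k then ver false (if i = 1 ∨ i = 3 then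
      octM false κ ζ (fun j => θ (cna i j)) else octP false κ ζ (fun j => θ (cna i j))) j else 0) =
      Real.pi * I * (1 - θ (k - 1) - θ k) - (hh (θ k) - hh (θ (k - 1))) := by
  have ht : θ (cna i 0) + θ (cna i 1) + θ (cna i 2) + θ (cna i 3) = 1 := by
    rw [D_Ver_sum, h]
  have h1 := oct_ver κ ζ (fun j => θ (cna i j)) ht (if i = 1 ∨ i = 3 then k - i else i - k)
  simp only [D_Ver_cna1, D_Ver_cna2] at h1
  simp only [D_Ver_lga, Finset.sum_ite_eq', Finset.mem_univ, if_true]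
  by_cases hi : i = 1 ∨ i = 3
  · simp only [hi, if_true] at h1 ⊢
    rw [h1.1, h1.2]
    constructor <;> ring
  · simp only [hi, if_false] at h1 ⊢
    rw [h1.1, h1.2]
    constructor <;> ring

theorem verV (hs : ∀ v, ∑ k, σ v k = 1) (v : Fin c) (k : Fin 4) (hv : T.isEnd v = false) :
    (∑ j, if lga (T.one v) j = k then ver (T.isEnd v) ((T.par τ z σ).x v) j else 0) =
      Real.pi * I * (1 - (csr (τ v) (k - 1) - σ v (k - 1)) - (csr (τ v) k - σ v k)) +
        (hh (csr (τ v) k - σ v k) - hh (csr (τ v) (k - 1) - σ v (k - 1))) ∧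
    (∑ j, if lga (T.one v) j = k then ver (T.isEnd v) ((T.par τ z σ).x' v) j else 0) =
      Real.pi * I * (1 - (csr (τ v) (k - 1) - σ v (k - 1)) - (csr (τ v) k - σ v k)) -
        (hh (csr (τ v) k - σ v k) - hh (csr (τ v) (k - 1) - σ v (k - 1))) := by
  have h : ∑ k, (csr (τ v) k - σ v k) = 1 := by
    rw [Finset.sum_sub_distrib, hs v, Fin.sum_univ_four]
    simp only [csr, Matrix.cons_val]
    ring
  have h1 := D_Ver_V (T.one v) (1 - τ v) (T.zf z v) (fun k => csr (τ v) k - σ v k) h k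
  simp only [TData.par, hv]
  exact h1

private theorem D_Ver_two (i : Fin 4) : (if i = 1 ∨ i = 3 then (i + 2) - i else i - (i + 2)) = 2 := by
  revert i
  decide

private theorem D_Ver_lga1 (i m j : Fin 4) : (lga i j = lga i m) = (j = m) := by
  unfold lga
  revert i m j
  decide

private theorem D_Ver_ver2 (x : Fin 4 → Fin 3 → ℂ) : ver true x 2 = dia x := by
  simp [ver]

private theorem D_Ver_ver1 (x : Fin 4 → Fin 3 → ℂ) : ver true x 1 = chd x 0 := by
  simp [ver]

private theorem D_Ver_ver3 (x : Fin 4 → Fin 3 → ℂ) : ver true x 3 = chd x 3 := by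
  simp [ver]

private theorem D_Ver_zf (τ z : ℂ) (p : Prop) [Decidable p] :
    2 * hh (1 - τ) - hh (1 / 2 - (1 - τ) + (if p then z else -z)) -
      hh (1 / 2 - (1 - τ) - (if p then z else -z)) =
    2 * hh τ - hh (τ - 1 / 2 + z) - hh (τ - 1 / 2 - z) := by
  rw [hh_one_sub]
  by_cases hp : p
  · simp only [hp, if_true]
    rw [show (1 : ℂ) / 2 - (1 - τ) + z = τ - 1 / 2 + z by ring,
      show (1 : ℂ) / 2 - (1 - τ) - z = τ - 1 / 2 - z by ring]
  · simp only [hp, if_false]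
    rw [show (1 : ℂ) / 2 - (1 - τ) + -z = τ - 1 / 2 - z by ring,
      show (1 : ℂ) / 2 - (1 - τ) - -z = τ - 1 / 2 + z by ring]
    ring

theorem verE2 (v : Fin c) (hv : T.isEnd v = true) :
    (∑ j, if lga (T.one v) j = T.one v + 2 then ver (T.isEnd v) ((T.par τ z σ).x v) j else 0) =
      Real.pi * I + (if T.one v = 1 ∨ T.one v = 3 then 1 else -1) *
        (2 * hh (τ v) - hh (τ v - 1 / 2 + z v) - hh (τ v - 1 / 2 - z v)) ∧
    (∑ j, if lga (T.one v) j = T.one v + 2 then ver (T.isEnd v) ((T.par τ z σ).x' v) j else 0) =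
      Real.pi * I - (if T.one v = 1 ∨ T.one v = 3 then 1 else -1) *
        (2 * hh (τ v) - hh (τ v - 1 / 2 + z v) - hh (τ v - 1 / 2 - z v)) := by
  have h1 := oct_dia_true (1 - τ v) (T.zf z v) (T.tt τ σ v)
  have h2 := D_Ver_zf (τ v) (z v) (T.one v = 0 ∨ T.one v = 1)
  change _ - hh (1 / 2 - (1 - τ v) + T.zf z v) - hh (1 / 2 - (1 - τ v) - T.zf z v) = _ at h2
  rw [h2] at h1
  simp only [D_Ver_lga, D_Ver_two, Finset.sum_ite_eq', Finset.mem_univ, if_true]
  simp only [TData.par, hv, D_Ver_ver2]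
  by_cases hi : T.one v = 1 ∨ T.one v = 3
  · simp only [hi, if_true]
    rw [h1.1, h1.2]
    constructor <;> ring
  · simp only [hi, if_false]
    rw [h1.1, h1.2]
    constructor <;> ring

theorem verE1 (v : Fin c) (hv : T.isEnd v = true) :
    (∑ j, if lga (T.one v) j = lga (T.one v) 1 then
      ver (T.isEnd v) ((T.par τ z σ).x v) j else 0) +
    (∑ j, if lga (T.one v) j = lga (T.one v) 1 then
      ver (T.isEnd v) ((T.par τ z σ).x' v) j else 0) = 2 * Real.pi * I * (1 - τ v) := by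
  have h1 := (oct_chd (1 - τ v) (T.zf z v) (T.tt τ σ v) true).1
  simp only [D_Ver_lga1, Finset.sum_ite_eq', Finset.mem_univ, if_true]
  simp only [TData.par, hv, D_Ver_ver1]
  simp only [if_true, add_zero] at h1
  by_cases hi : T.one v = 1 ∨ T.one v = 3
  · simp only [hi, if_true]
    exact h1
  · simp only [hi, if_false]
    rw [add_comm]
    exact h1

theorem verE3 (v : Fin c) (hv : T.isEnd v = true) :
    (∑ j, if lga (T.one v) j = lga (T.one v) 3 then
      ver (T.isEnd v) ((T.par τ z σ).x v) j else 0) +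
    (∑ j, if lga (T.one v) j = lga (T.one v) 3 then
      ver (T.isEnd v) ((T.par τ z σ).x' v) j else 0) +
    (Real.pi * I + (T.par τ z σ).U v) = 2 * Real.pi * I * τ v := by
  have h1 := (oct_chd (1 - τ v) (T.zf z v) (T.tt τ σ v) true).2.2.2
  simp only [D_Ver_lga1, Finset.sum_ite_eq', Finset.mem_univ, if_true]
  simp only [TData.par, hv, D_Ver_ver3]
  simp only [if_true, add_zero] at h1
  by_cases hi : T.one v = 1 ∨ T.one v = 3
  · simp only [hi, if_true]
    rw [h1]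
    ring
  · simp only [hi, if_false]
    rw [add_comm (chd (octM true (1 - τ v) (T.zf z v) (T.tt τ σ v)) 3), h1]
    ring

private theorem D_Ver_msymm {leg : Fin c → Fin 4 → ℕ} {p q : Fin c × Fin 4} (h : Mate leg p q) :
    Mate leg q p := ⟨h.1.symm, h.2.symm⟩

private theorem D_Ver_mod {cor leg : Fin c → Fin 4 → ℕ} {f d : ℕ} {b : ℕ → Fin c × Fin 4}
    (h : IsBd cor leg f d b) (n : ℕ) : b (n % d) = b n :=
  Function.Periodic.map_mod_nat (show Function.Periodic b d from h.per) n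

private theorem D_Ver_cor {cor leg : Fin c → Fin 4 → ℕ} {f d : ℕ} {b : ℕ → Fin c × Fin 4}
    (h : IsBd cor leg f d b) (hd : 0 < d) (n : ℕ) : cor (b n).1 (b n).2 = f :=
  (h.mem (b n)).2 ⟨n % d, Nat.mod_lt _ hd, D_Ver_mod h n⟩

/-- The corner before `p` at its face. -/
private theorem D_Ver_prev (hT : T.Of w) (hG : T.Good) {p q : Fin c × Fin 4}
    (h : Mate T.leg p q) (hp : T.cor p.1 p.2 ∈ T.F) :
    ∃ j < T.deg (T.cor p.1 p.2), T.bd (T.cor p.1 p.2) j = p ∧
      T.bd (T.cor p.1 p.2) (j + (T.deg (T.cor p.1 p.2) - 1)) = (q.1, q.2 - 1) := by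
  have B := hT.bdy _ hp
  obtain ⟨j, hj, hjp⟩ := (B.mem p).1 rfl
  refine ⟨j, hj, hjp, ?_⟩
  have h1 := B.mate (j + (T.deg (T.cor p.1 p.2) - 1))
  rw [show j + (T.deg (T.cor p.1 p.2) - 1) + 1 = j + T.deg (T.cor p.1 p.2) by omega, B.per,
    hjp] at h1
  have h2 := hG.un p q _ h (D_Ver_msymm h1)
  rw [h2]
  ext1
  · rfl
  · simp

theorem adj (hT : T.Of w) (hG : T.Good) {p q : Fin c × Fin 4} (h : Mate T.leg p q) :
    (T.cor p.1 p.2 ∈ T.F → T.cor q.1 (q.2 - 1) = T.cor p.1 p.2) ∧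
    (T.cor q.1 (q.2 - 1) ∈ T.F → T.cor q.1 (q.2 - 1) = T.cor p.1 p.2) := by
  constructor
  · intro hp
    obtain ⟨j, hj, -, h1⟩ := D_Ver_prev hT hG h hp
    have h2 := D_Ver_cor (hT.bdy _ hp) (by omega) (j + (T.deg (T.cor p.1 p.2) - 1))
    rw [h1] at h2
    exact h2
  · intro hq
    have B := hT.bdy _ hq
    obtain ⟨j, hj, hjq⟩ := (B.mem (q.1, q.2 - 1)).1 rfl
    have h1 := B.mate j
    rw [hjq, show ((q.1, q.2 - 1) : Fin c × Fin 4).2 + 1 = q.2 by simp] at h1
    have h2 := hG.un q p _ (D_Ver_msymm h) h1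
    have h3 := D_Ver_cor B (by omega) (j + 1)
    rw [← h2] at h3
    exact h3.symm

theorem upF (hT : T.Of w) (hG : T.Good) (hN : T.Nice)
    (hf : ∀ f ∈ T.F, ∑ v, ∑ k, (if T.cor v k = f then σ v k else 0) = 1)
    {p q : Fin c × Fin 4} (h : Mate T.leg p q) (hp : T.cor p.1 p.2 ∈ T.F) :
    (∑ j ∈ Finset.range (T.deg (T.cor p.1 p.2)), if T.bd (T.cor p.1 p.2) j = p then
      pol (T.deg (T.cor p.1 p.2)) ((T.par τ z σ).z (T.cor p.1 p.2)) j else 0) =
      Real.pi * I * (1 - σ q.1 (q.2 - 1) - σ p.1 p.2) + (hh (σ q.1 (q.2 - 1)) - hh (σ p.1 p.2)) ∧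
    (∑ j ∈ Finset.range (T.deg (T.cor p.1 p.2)), if T.bd (T.cor p.1 p.2) j = p then
      pol (T.deg (T.cor p.1 p.2)) ((T.par τ z σ).z' (T.cor p.1 p.2)) j else 0) =
      Real.pi * I * (1 - σ q.1 (q.2 - 1) - σ p.1 p.2) - (hh (σ q.1 (q.2 - 1)) - hh (σ p.1 p.2)) := by
  obtain ⟨j, hj, hjp, hr⟩ := D_Ver_prev hT hG h hp
  have B := hT.bdy _ hp
  have h1 : psm (T.sf σ (T.cor p.1 p.2)) (T.deg (T.cor p.1 p.2)) = 1 := by
    rw [← hf _ hp, ← sf_sum B σ]
    rfl
  have e1 : T.sf σ (T.cor p.1 p.2) j = σ p.1 p.2 := by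
    unfold TData.sf
    rw [hjp]
  have e2 : T.sf σ (T.cor p.1 p.2) ((j + (T.deg (T.cor p.1 p.2) - 1)) %
      T.deg (T.cor p.1 p.2)) = σ q.1 (q.2 - 1) := by
    unfold TData.sf
    rw [D_Ver_mod B, hr]
  have key : ∀ g : ℕ → ℂ, (∑ i ∈ Finset.range (T.deg (T.cor p.1 p.2)),
      if T.bd (T.cor p.1 p.2) i = p then g i else 0) = g j := by
    intro g
    rw [Finset.sum_eq_single_of_mem j (Finset.mem_range.mpr hj), if_pos hjp]
    intro i hi hij
    rw [if_neg]
    intro hip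
    exact hij (B.inj i (Finset.mem_range.mp hi) j hj (hip.trans hjp.symm))
  rw [key, key]
  have hP := fan_polP _ _ (hN.deg _ hp) h1 j hj
  have hM := fan_polM _ _ (hN.deg _ hp) h1 j hj
  rw [e1, e2] at hP hM
  constructor
  · refine Eq.trans ?_ (hP.trans ?_)
    · rfl
    · ring
  · refine Eq.trans ?_ (hM.trans ?_)
    · rfl
    · ring

end Pool.Agent.H63.CLK
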