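import Pool.Agent.H63.CLK.C_Conn
import Pool.Agent.H63.CLK.D_Nice
import Pool.Agent.H63.CLK.D_Ver
import Pool.Agent.H63.CLK.D_FlD

set_option autoImplicit false

/-!
# CLK part D, D_Cha: the imaginary parts of the multipliers `A f` are almost equal

Let `β v = (A (cor v (X v))).im`. (1) For every `v` and bounded corners `k`, `l`: `|(A (cor v k)).im - (A (cor v l)).im| ≤ 4 η`: if `v` is not an end, `A (cor v k) + B v = hh σ - hh θ` (`CritT.sig`) has an
imaginary part `< 2 η`; if `v` is an end, `k, l ∈ {one + 1, one + 2}` (`hN.end0`) and `CritT.tau0` gives `± (A - A') = 2 hh τ - hh - hh` (`hh τ = hh (1 - τ)`, `hh_one_sub`), at most `4 η`.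
(2) If `p`, `q` are mates and `leg p ≠ 0`, they have a common bounded face (`hN.inn`/`hN.end0` and `adj`), so `|β p.1 - β q.1| ≤ 8 η`.
(3) `|β v - β v'| ≤ 8 c η`: let `G` be the simple graph on `Fin c` with `u ~ u'` iff `u ≠ u'` and there are mates `p`, `q` at them with `leg p ≠ 0`; it is connected by `conn'` (C_Conn) applied to
`P u := G.Reachable v u`; a path has length `< c` (`SimpleGraph.Walk.IsPath.length_lt`), sum up. (4) Every `f ∈ F` is `cor v (X v)` for some `v` (`hX.sur`).
-/

namespace Pool.Agent.H63.CLK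

open Pool.Agent.H63.VC hiding ext
open Pool.Agent.H63.VC3 Complex

variable {c : ℕ}

private theorem D_Cha_abs {x y η : ℝ} (hx : |x| < η) (hy : |y| < η) : |x - y| ≤ 2 * η := by
  have h1 := abs_lt.1 hx
  have h2 := abs_lt.1 hy
  rw [abs_le]
  constructor <;> linarith [h1.1, h1.2, h2.1, h2.2]

/-- The two bounded corners of an end: the sum in the critical equation. -/
private theorem D_Cha_sum (F : Fin 4 → Prop) [DecidablePred F] (g : Fin 4 → ℂ) (i : Fin 4)
    (h1 : ¬ F i) (h2 : ¬ F (i - 1)) (h3 : F (i + 1)) (h4 : F (i + 2)) :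
    (∑ k, (if F k then (if k = 0 ∨ k = 2 then g k else -g k) else 0) = g (i + 1) - g (i + 2)) ∨
    (∑ k, (if F k then (if k = 0 ∨ k = 2 then g k else -g k) else 0) = g (i + 2) - g (i + 1)) := by
  rw [Fin.sum_univ_four]
  fin_cases i
  · change ¬ F 0 at h1
    change ¬ F 3 at h2
    change F 1 at h3
    change F 2 at h4
    right
    change _ = g 2 - g 1
    rw [if_neg h1, if_pos h3, if_pos h4, if_neg h2]
    simp
    ring
  · change ¬ F 1 at h1
    change ¬ F 0 at h2
    change F 2 at h3
    change F 3 at h4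
    left
    change _ = g 2 - g 3
    rw [if_neg h1, if_pos h3, if_pos h4, if_neg h2]
    simp
    ring
  · change ¬ F 2 at h1
    change ¬ F 1 at h2
    change F 3 at h3
    change F 0 at h4
    right
    change _ = g 0 - g 3
    rw [if_neg h1, if_pos h3, if_pos h4, if_neg h2]
    simp
    ring
  · change ¬ F 3 at h1
    change ¬ F 2 at h2
    change F 0 at h3
    change F 1 at h4
    left
    change _ = g 0 - g 1
    rw [if_neg h1, if_pos h3, if_pos h4, if_neg h2]
    simp
    ring

private theorem D_Cha_fin4 (i k : Fin 4) : k = i ∨ k = i - 1 ∨ k = i + 1 ∨ k = i + 2 := by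
  revert i k
  decide

/-- Two bounded corners of the same twist region. -/
private theorem D_Cha_loc {T : TData c} (hN : T.Nice) {a : Fin c → ℤ} {τ z : Fin c → ℂ}
    {σ : Fin c → Fin 4 → ℂ} {A : ℕ → ℂ} {B : Fin c → ℂ} (hc : CritT T a τ z σ A B) {η : ℝ}
    (hs : SReg T η τ z σ) (v : Fin c) (k l : Fin 4) (hk : T.cor v k ∈ T.F)
    (hl : T.cor v l ∈ T.F) : |(A (T.cor v k)).im - (A (T.cor v l)).im| ≤ 4 * η := by
  have hη : 0 ≤ η := le_trans (abs_nonneg _) (hs.kap v).le
  cases hv : T.isEnd v with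
  | false =>
    have e1 : (A (T.cor v k)).im + (B v).im =
        (hh (σ v k)).im - (hh (csr (τ v) k - σ v k)).im := by
      have h := congrArg Complex.im (hc.sig v k hk hv)
      simp only [add_im, sub_im, zero_im] at h
      linarith
    have e2 : (A (T.cor v l)).im + (B v).im =
        (hh (σ v l)).im - (hh (csr (τ v) l - σ v l)).im := by
      have h := congrArg Complex.im (hc.sig v l hl hv)
      simp only [add_im, sub_im, zero_im] at h
      linarith
    have b1 := abs_le.1 (D_Cha_abs (hs.sig v k hk) (hs.the v k hv))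
    have b2 := abs_le.1 (D_Cha_abs (hs.sig v l hl) (hs.the v l hv))
    rw [← e1] at b1
    rw [← e2] at b2
    rw [abs_le]
    constructor <;> linarith [b1.1, b1.2, b2.1, b2.2]
  | true =>
    obtain ⟨n1, n2, n3, n4⟩ := hN.end0 v hv
    have key : |(A (T.cor v (T.one v + 1))).im - (A (T.cor v (T.one v + 2))).im| ≤ 4 * η := by
      have h0 := hc.tau0 v hv
      have hm := abs_lt.1 (hs.zm v)
      have hp := abs_lt.1 (hs.zp v)
      have hk1 := hs.kap v
      rw [hh_one_sub] at hk1
      have hk2 := abs_lt.1 hk1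
      have e3 : τ v - 1 / 2 + z v = τ v - 1 / 2 + z v := rfl
      rcases D_Cha_sum (fun k => T.cor v k ∈ T.F) (fun k => A (T.cor v k)) (T.one v) n1 n2 n3 n4
        with h | h
      · have h1 : hh (τ v - 1 / 2 - z v) + hh (τ v - 1 / 2 + z v) - 2 * hh (τ v) +
            (A (T.cor v (T.one v + 1)) - A (T.cor v (T.one v + 2))) = 0 := by
          rw [← h0]
          congr 1
          rw [← h]
        have h2 := congrArg Complex.im h1
        simp only [add_im, sub_im, zero_im, mul_im, re_ofNat, im_ofNat, zero_mul, add_zero] at h2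
        rw [abs_le]
        constructor <;> linarith [hm.1, hm.2, hp.1, hp.2, hk2.1, hk2.2]
      · have h1 : hh (τ v - 1 / 2 - z v) + hh (τ v - 1 / 2 + z v) - 2 * hh (τ v) +
            (A (T.cor v (T.one v + 2)) - A (T.cor v (T.one v + 1))) = 0 := by
          rw [← h0]
          congr 1
          rw [← h]
        have h2 := congrArg Complex.im h1
        simp only [add_im, sub_im, zero_im, mul_im, re_ofNat, im_ofNat, zero_mul, add_zero] at h2
        rw [abs_le]
        constructor <;> linarith [hm.1, hm.2, hp.1, hp.2, hk2.1, hk2.2]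
    have hkk : k = T.one v + 1 ∨ k = T.one v + 2 := by
      rcases D_Cha_fin4 (T.one v) k with h | h | h | h
      · exact absurd (h ▸ hk) n1
      · exact absurd (h ▸ hk) n2
      · exact Or.inl h
      · exact Or.inr h
    have hll : l = T.one v + 1 ∨ l = T.one v + 2 := by
      rcases D_Cha_fin4 (T.one v) l with h | h | h | h
      · exact absurd (h ▸ hl) n1
      · exact absurd (h ▸ hl) n2
      · exact Or.inl h
      · exact Or.inr h
    have h4 : (0 : ℝ) ≤ 4 * η := by linarith
    rcases hkk with rfl | rfl <;> rcases hll with rfl | rfl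
    · simpa using h4
    · exact key
    · rw [abs_sub_comm]
      exact key
    · simpa using h4

/-- A leg which is not the strand `0` is at a bounded face. -/
private theorem D_Cha_bdd {T : TData c} (hN : T.Nice) (p : Fin c × Fin 4)
    (h0 : T.leg p.1 p.2 ≠ 0) : T.cor p.1 p.2 ∈ T.F ∨ T.cor p.1 (p.2 - 1) ∈ T.F := by
  obtain ⟨v, k⟩ := p
  change T.leg v k ≠ 0 at h0
  change T.cor v k ∈ T.F ∨ T.cor v (k - 1) ∈ T.F
  cases hv : T.isEnd v with
  | false => exact hN.inn v k hv
  | true =>
    obtain ⟨n1, n2, n3, n4⟩ := hN.end0 v hv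
    have hz : T.leg v (T.one v) = 0 := by
      have hv' := hv
      unfold TData.isEnd at hv'
      exact of_decide_eq_true hv'
    have hk : k ≠ T.one v := fun h => h0 (h ▸ hz)
    have aux : ∀ i k : Fin 4, k ≠ i → k = i + 1 ∨ k = i + 2 ∨ k - 1 = i + 2 := by decide
    rcases aux _ _ hk with h | h | h
    · exact Or.inl (h ▸ n3)
    · exact Or.inl (h ▸ n4)
    · exact Or.inr (h ▸ n4)

theorem chain_small {w : List TPiece} {T : TData c} (hT : T.Of w) (hG : T.Good) (hN : T.Nice)
    (hF : T.F.card = c) {a : Fin c → ℤ} {τ z : Fin c → ℂ} {σ : Fin c → Fin 4 → ℂ} {A : ℕ → ℂ}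
    {B : Fin c → ℂ} (hc : CritT T a τ z σ A B) {X : Fin c → Fin 4} (hX : T.Match X) {η : ℝ}
    (hs : SReg T η τ z σ) (f f' : ℕ) (hf : f ∈ T.F) (hf' : f' ∈ T.F) :
    |(A f - A f').im| ≤ 8 * c * η := by
  classical
  obtain ⟨v, rfl⟩ := hX.sur f hf
  obtain ⟨v', rfl⟩ := hX.sur f' hf'
  have hη : 0 ≤ η := le_trans (abs_nonneg _) (hs.kap v).le
  -- one step
  have step : ∀ p q, Mate T.leg p q → T.leg p.1 p.2 ≠ 0 →
      |(A (T.cor p.1 (X p.1))).im - (A (T.cor q.1 (X q.1))).im| ≤ 8 * η := by
    intro p q hpq h0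
    rcases D_Cha_bdd hN p h0 with h | h
    · have e := (adj hT hG hpq).1 h
      have b1 := abs_le.1 (D_Cha_loc hN hc hs p.1 (X p.1) p.2 (hX.mem p.1) h)
      have b2 := abs_le.1 (D_Cha_loc hN hc hs q.1 (q.2 - 1) (X q.1) (by rw [e]; exact h)
        (hX.mem q.1))
      rw [e] at b2
      rw [abs_le]
      constructor <;> linarith [b1.1, b1.2, b2.1, b2.2]
    · have e := (adj hT hG hpq.symm).2 h
      have b1 := abs_le.1 (D_Cha_loc hN hc hs p.1 (X p.1) (p.2 - 1) (hX.mem p.1) h)
      have b2 := abs_le.1 (D_Cha_loc hN hc hs q.1 q.2 (X q.1) (by rw [← e]; exact h)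
        (hX.mem q.1))
      rw [← e] at b2
      rw [abs_le]
      constructor <;> linarith [b1.1, b1.2, b2.1, b2.2]
  let G : SimpleGraph (Fin c) :=
    { Adj := fun u u' => u ≠ u' ∧ ∃ p q, Mate T.leg p q ∧ T.leg p.1 p.2 ≠ 0 ∧ p.1 = u ∧ q.1 = u'
      symm := ⟨by
        rintro u u' ⟨h1, p, q, h2, h3, h4, h5⟩
        exact ⟨h1.symm, q, p, h2.symm, fun h => h3 (h2.2.trans h), h5, h4⟩⟩
      loopless := ⟨fun u h => h.1 rfl⟩ }
  have hreach : G.Reachable v v' := by
    refine conn' hT hG hF (fun u => G.Reachable v u) ?_ v v' (SimpleGraph.Reachable.refl v)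
    intro p q hpq h0 hp
    by_cases h : p.1 = q.1
    · rw [← h]
      exact hp
    · have hadj : G.Adj p.1 q.1 := ⟨h, p, q, hpq, h0, rfl, rfl⟩
      exact hp.trans hadj.reachable
  have hwalk : ∀ (u u' : Fin c) (W : G.Walk u u'),
      |(A (T.cor u (X u))).im - (A (T.cor u' (X u'))).im| ≤ 8 * η * W.length := by
    intro u u' W
    induction W with
    | nil => simp
    | @cons x y t h W ih =>
      obtain ⟨-, p, q, h2, h3, rfl, rfl⟩ := h
      have b1 := abs_le.1 (step p q h2 h3)
      have b2 := abs_le.1 ih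
      rw [SimpleGraph.Walk.length_cons]
      push_cast
      rw [abs_le]
      constructor <;> linarith [b1.1, b1.2, b2.1, b2.2]
  obtain ⟨W, hW⟩ := hreach.exists_isPath
  have hlen : W.length < c := by
    have h := hW.length_lt
    simpa using h
  have h1 := hwalk v v' W
  rw [sub_im]
  refine h1.trans ?_
  have h2 : (W.length : ℝ) ≤ c := by exact_mod_cast hlen.le
  have h3 : 8 * η * W.length ≤ 8 * η * c := mul_le_mul_of_nonneg_left h2 (by linarith)
  linarith

end Pool.Agent.H63.CLK
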