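import Pool.Agent.H63.CLK.C_Conn
import Pool.Agent.H63.CLK.D_Nice
import Pool.Agent.H63.CLK.D_Ver

set_option autoImplicit false

/-!
# CLK part D, D_Chk: the checkerboard colouring

`exists_sgn` from `exists_chi` (C_Chi) with `z = 1`. `adj_all`: for the leg `≠ 0` one of the two sides is bounded (`hN.inn`, `hN.end0`); there `adj`; on the other side both corners are bounded
(`adj`), or both are outer, labels `0` or `1` (`cor_mem`), with the same sign. For the strand `0`: the sum of the signs of `cor v k` over all legs is `0`, all other pairs of mates cancel.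
-/

namespace Pool.Agent.H63.CLK

variable {c : ℕ} {w : List TPiece} {T : TData c}

theorem exists_sgn (hT : T.Of w) : ∃ S : ℕ → ℤ, S 0 = 1 ∧ S 1 = -1 ∧ (∀ f, S f = 1 ∨ S f = -1) ∧
    ∀ v k, S (T.cor v k) = -S (T.cor v (k - 1)) := by
  obtain ⟨χ, h0, h1, h2⟩ := exists_chi hT (fun _ => 1) (fun v => by
    rw [Fin.sum_univ_four]
    decide)
  refine ⟨fun f => if χ f = 0 then 1 else -1, ?_, ?_, ?_, ?_⟩
  · simp only [h0, if_true]
  · simp only [h1]
    decide
  · intro f
    by_cases h : χ f = 0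
    · left
      simp only [h, if_true]
    · right
      simp only [h, if_false]
  · intro v k
    simp only [h2 v k]
    generalize χ (T.cor v (k - 1)) = x
    revert x
    decide

/-- One of the two corners at a leg which is not the strand `0` is bounded. -/
theorem D_Chk_bd (hN : T.Nice) (p : Fin c × Fin 4) (h : T.leg p.1 p.2 ≠ 0) :
    T.cor p.1 p.2 ∈ T.F ∨ T.cor p.1 (p.2 - 1) ∈ T.F := by
  obtain ⟨v, k⟩ := p
  simp only at h ⊢
  rcases Bool.eq_false_or_eq_true (T.isEnd v) with hv | hv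
  · obtain ⟨-, -, b3, b4⟩ := hN.end0 v hv
    have c1 : k ≠ T.one v := by
      rintro rfl
      exact h (of_decide_eq_true hv)
    generalize T.one v = i at b3 b4 c1
    have c2 : k = i + 1 ∨ k = i + 2 ∨ k - 1 = i + 2 := by
      revert c1
      clear b3 b4 h
      revert k i
      decide
    rcases c2 with c2 | c2 | c2
    · left
      rw [c2]
      exact b3
    · left
      rw [c2]
      exact b4
    · right
      rw [c2]
      exact b4
  · exact hN.inn v k hv

/-- `adj_all` for the strands different from `0`. -/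
private theorem D_Chk_ne (hT : T.Of w) (hG : T.Good) (hN : T.Nice) {p q : Fin c × Fin 4}
    (h : Mate T.leg p q) (h0 : T.leg p.1 p.2 ≠ 0) : T.cor q.1 (q.2 - 1) = T.cor p.1 p.2 := by
  by_cases hp : T.cor p.1 p.2 ∈ T.F
  · exact (adj hT hG h).1 hp
  have hp1 : T.cor p.1 (p.2 - 1) ∈ T.F := (D_Chk_bd hN p h0).resolve_left hp
  by_cases hq : T.cor q.1 (q.2 - 1) ∈ T.F
  · exact (adj hT hG h).2 hq
  have e1 : T.cor p.1 (p.2 - 1) = T.cor q.1 q.2 := (adj hT hG h.symm).2 hp1
  obtain ⟨S, s0, s1, -, s3⟩ := exists_sgn hT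
  have t1 := s3 p.1 p.2
  have t2 := s3 q.1 q.2
  rw [e1, t2, neg_neg] at t1
  rcases cor_mem hT p.1 p.2 with u | u | u
  · exact absurd u hp
  · rcases cor_mem hT q.1 (q.2 - 1) with u' | u' | u'
    · exact absurd u' hq
    · rw [u, u']
    · rw [u, u', s0, s1] at t1
      omega
  · rcases cor_mem hT q.1 (q.2 - 1) with u' | u' | u'
    · exact absurd u' hq
    · rw [u, u', s0, s1] at t1
      omega
    · rw [u, u']

/-- The signs at the two ends of a strand. -/
private theorem D_Chk_sgn (hT : T.Of w) (hG : T.Good) (hN : T.Nice) {S : ℕ → ℤ}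
    (s3 : ∀ v k, S (T.cor v k) = -S (T.cor v (k - 1))) {p q : Fin c × Fin 4}
    (h : Mate T.leg p q) : S (T.cor p.1 p.2) + S (T.cor q.1 q.2) = 0 := by
  classical
  have key : ∀ p q : Fin c × Fin 4, Mate T.leg p q → T.leg p.1 p.2 ≠ 0 →
      S (T.cor p.1 p.2) + S (T.cor q.1 q.2) = 0 := by
    intro p q h h0
    rw [s3 q.1 q.2, D_Chk_ne hT hG hN h h0]
    ring
  by_cases h0 : T.leg p.1 p.2 = 0
  swap
  · exact key p q h h0
  choose mt hmt using hG.ex
  have hinv : ∀ p, mt (mt p) = p := fun p => hG.un (mt p) (mt (mt p)) p (hmt _) (hmt p).symm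
  have hpq : q = mt p := hG.un p q (mt p) h (hmt p)
  have hz : ∑ r : Fin c × Fin 4, S (T.cor r.1 r.2) = 0 := by
    rw [Fintype.sum_prod_type]
    apply Finset.sum_eq_zero
    intro v _
    change ∑ k, S (T.cor v k) = 0
    rw [Fin.sum_univ_four]
    have a1 := s3 v 1
    have a3 := s3 v 3
    change S (T.cor v 1) = -S (T.cor v 0) at a1
    change S (T.cor v 3) = -S (T.cor v 2) at a3
    rw [a1, a3]
    ring
  have hsplit := Finset.sum_filter_add_sum_filter_not Finset.univ
    (fun r : Fin c × Fin 4 => T.leg r.1 r.2 ≠ 0) (fun r => S (T.cor r.1 r.2))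
  rw [hz] at hsplit
  have h1 : ∑ r ∈ Finset.univ.filter (fun r : Fin c × Fin 4 => T.leg r.1 r.2 ≠ 0),
      S (T.cor r.1 r.2) = 0 := by
    refine Finset.sum_involution (fun r _ => mt r) ?_ ?_ ?_ ?_
    · intro r hr
      exact key r (mt r) (hmt r) (Finset.mem_filter.1 hr).2
    · intro r _ _
      exact (hmt r).1.symm
    · intro r hr
      rw [Finset.mem_filter] at hr ⊢
      exact ⟨Finset.mem_univ _, by rw [← (hmt r).2]; exact hr.2⟩
    · intro r _
      exact hinv r
  rw [h1, zero_add] at hsplit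
  have h2 : Finset.univ.filter (fun r : Fin c × Fin 4 => ¬ T.leg r.1 r.2 ≠ 0) = {p, q} := by
    ext r
    rw [Finset.mem_filter, Finset.mem_insert, Finset.mem_singleton, not_not]
    constructor
    · rintro ⟨-, hr⟩
      by_cases hrp : r = p
      · exact Or.inl hrp
      · right
        exact hG.un p r q ⟨Ne.symm hrp, h0.trans hr.symm⟩ h
    · rintro (rfl | rfl)
      · exact ⟨Finset.mem_univ _, h0⟩
      · exact ⟨Finset.mem_univ _, by rw [← h.2]; exact h0⟩
  rw [h2, Finset.sum_pair h.1] at hsplit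
  exact hsplit

theorem adj_all (hT : T.Of w) (hG : T.Good) (hN : T.Nice) {p q : Fin c × Fin 4}
    (h : Mate T.leg p q) : T.cor q.1 (q.2 - 1) = T.cor p.1 p.2 := by
  by_cases h0 : T.leg p.1 p.2 = 0
  swap
  · exact D_Chk_ne hT hG hN h h0
  obtain ⟨S, s0, s1, -, s3⟩ := exists_sgn hT
  have t1 := D_Chk_sgn hT hG hN s3 h
  rw [s3 q.1 q.2] at t1
  have hp : T.cor p.1 p.2 ∉ T.F := (hG.zero p.1 p.2 h0).1
  have hq : T.cor q.1 (q.2 - 1) ∉ T.F := (hG.zero q.1 q.2 (by rw [← h.2]; exact h0)).2
  rcases cor_mem hT p.1 p.2 with u | u | u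
  · exact absurd u hp
  · rcases cor_mem hT q.1 (q.2 - 1) with u' | u' | u'
    · exact absurd u' hq
    · rw [u, u']
    · rw [u, u', s0, s1] at t1
      omega
  · rcases cor_mem hT q.1 (q.2 - 1) with u' | u' | u'
    · exact absurd u' hq
    · rw [u, u', s0, s1] at t1
      omega
    · rw [u, u']

end Pool.Agent.H63.CLK
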