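import Pool.Agent.H63.CLK.D_Ord
import Pool.Agent.H63.VC3.CritB
import Pool.Agent.H63.VC3.Upper
import Pool.Agent.H63.VC4.KBN
import Pool.Agent.H63.VC4.UpperN
import Pool.Agent.H63.VC6.LocU
import Pool.Agent.H63.VC6.SlotU
import Pool.Agent.H63.VC7.Defs
import Pool.Agent.H63.VC7.RhoPair
import Pool.Agent.H63.VC7.TetRC

set_option autoImplicit false

/-! # CLK part D, D_Rog: the values of a pair of tetrahedra over an inscribed triangle -/

namespace Pool.Agent.H63.CLK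

open Pool.Agent.H63.VC hiding ext
open Pool.Agent.H63.VC3 Pool.Agent.H63.VC4 Pool.Agent.H63.VC5 Pool.Agent.H63.VC6
open Pool.Agent.H63.VC7 Complex

/-- Contraction to the real part. -/
noncomputable def ctr (t : ℝ) (z : ℂ) : ℂ := z.re + t * (z.im * I)

theorem ctr_re (t : ℝ) (z : ℂ) : (ctr t z).re = z.re := by
  simp [ctr]

theorem ctr_one (z : ℂ) : ctr 1 z = z := by
  apply Complex.ext <;> simp [ctr]

theorem ctr_zero (z : ℂ) : ctr 0 z = z.re := by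
  simp [ctr]

/-- The value of the sum of the two dilogarithms. -/
noncomputable def rhs (a b c : ℂ) : ℂ :=
  -(2 * Real.pi * I * (ff a + ff b + ff c)) - (Real.pi : ℂ) ^ 2 * a / 2 +
    Real.pi * I * (a * hh a + b * hh b + c * hh c) - Real.pi * I / 2 * (hh b + hh c)

/-- The difference is constant along a path. -/
theorem D_Rog_path (A B : ℝ → ℂ) (a' b' : ℂ) (hA : ∀ t ∈ Set.Icc (0 : ℝ) 1, HasDerivAt A a' t)
    (hB : ∀ t ∈ Set.Icc (0 : ℝ) 1, HasDerivAt B b' t)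
    (h : ∀ t ∈ Set.Icc (0 : ℝ) 1, TOk (A t) (B t) (1 - A t - B t) ∧
      TOk (A t) (1 - A t - B t) (B t)) :
    rh0 (tsh (A 1) (B 1) (1 - A 1 - B 1)) + rh0 (tsh (A 1) (1 - A 1 - B 1) (B 1)) -
        rhs (A 1) (B 1) (1 - A 1 - B 1) =
      rh0 (tsh (A 0) (B 0) (1 - A 0 - B 0)) + rh0 (tsh (A 0) (1 - A 0 - B 0) (B 0)) -
        rhs (A 0) (B 0) (1 - A 0 - B 0) := by
  let C : ℝ → ℂ := fun t => 1 - A t - B t
  let L1 : ℝ → ℂ := fun t => Real.pi * I * A t + hh (B t) - hh (C t)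
  let M1 : ℝ → ℂ := fun t => Real.pi * I * B t + hh (C t) - hh (A t)
  let L2 : ℝ → ℂ := fun t => Real.pi * I * A t + hh (C t) - hh (B t)
  let M2 : ℝ → ℂ := fun t => Real.pi * I * C t + hh (B t) - hh (A t)
  let F : ℝ → ℂ := fun t => (dilog (exp (L1 t)) - L1 t * M1 t / 2) +
    (dilog (exp (L2 t)) - L2 t * M2 t / 2) - rhs (A t) (B t) (C t)
  have hlog : ∀ t ∈ Set.Icc (0 : ℝ) 1, (0 < (tsh (A t) (B t) (C t)).im ∧
      l0 (tsh (A t) (B t) (C t)) = L1 t ∧ l1 (tsh (A t) (B t) (C t)) = M1 t) ∧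
      (0 < (tsh (A t) (C t) (B t)).im ∧
      l0 (tsh (A t) (C t) (B t)) = L2 t ∧ l1 (tsh (A t) (C t) (B t)) = M2 t) := by
    intro t ht
    obtain ⟨p1, p2⟩ := tri_lgs (h t ht).1
    obtain ⟨q1, q2⟩ := tri_lgs (h t ht).2
    exact ⟨⟨p1, congrFun p2 0, congrFun p2 1⟩, ⟨q1, congrFun q2 0, congrFun q2 1⟩⟩
  have hF : ∀ t ∈ Set.Icc (0 : ℝ) 1, HasDerivAt F 0 t := by
    intro t ht
    obtain ⟨⟨x1, x2, x3⟩, ⟨y1, y2, y3⟩⟩ := hlog t ht
    have hok := (h t ht).1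
    have ra := hok.ra
    have rb := hok.rb
    have rc := hok.rc
    have ra1 : (A t).re < 1 := D_Tri_re hok.sum rb rc
    have rb1 : (B t).re < 1 := D_Tri_re (by rw [← hok.sum]; ring) rc ra
    have rc1 : (1 - A t - B t).re < 1 := D_Tri_re (by rw [← hok.sum]; ring) ra rb
    have hC : HasDerivAt C (0 - a' - b') t :=
      ((hasDerivAt_const t (1 : ℂ)).sub (hA t ht)).sub (hB t ht)
    have dHa := (hh_hasDerivAt (A t) ra ra1).comp_of_eq t (hA t ht) rfl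
    have dHb := (hh_hasDerivAt (B t) rb rb1).comp_of_eq t (hB t ht) rfl
    have dHc := (hh_hasDerivAt (C t) rc rc1).comp_of_eq t hC rfl
    have dFa := (ff_hasDerivAt (A t) ra ra1).comp_of_eq t (hA t ht) rfl
    have dFb := (ff_hasDerivAt (B t) rb rb1).comp_of_eq t (hB t ht) rfl
    have dFc := (ff_hasDerivAt (C t) rc rc1).comp_of_eq t hC rfl
    set ha' := Real.pi * Complex.cot (Real.pi * A t) * a'
    set hb' := Real.pi * Complex.cot (Real.pi * B t) * b'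
    set hc' := Real.pi * Complex.cot (Real.pi * C t) * (0 - a' - b')
    have dL1 : HasDerivAt L1 (Real.pi * I * a' + hb' - hc') t :=
      (((hA t ht).const_mul (Real.pi * I : ℂ)).add dHb).sub dHc
    have dM1 : HasDerivAt M1 (Real.pi * I * b' + hc' - ha') t :=
      (((hB t ht).const_mul (Real.pi * I : ℂ)).add dHc).sub dHa
    have dL2 : HasDerivAt L2 (Real.pi * I * a' + hc' - hb') t :=
      (((hA t ht).const_mul (Real.pi * I : ℂ)).add dHc).sub dHb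
    have dM2 : HasDerivAt M2 (Real.pi * I * (0 - a' - b') + hb' - ha') t :=
      ((hC.const_mul (Real.pi * I : ℂ)).add dHb).sub dHa
    have g1 := RhoPair_deriv dL1 x1 x2 x3
    have g2 := RhoPair_deriv dL2 y1 y2 y3
    have dR := ((((((dFa.add dFb).add dFc).const_mul (2 * Real.pi * I : ℂ)).neg).sub
      (((hA t ht).const_mul ((Real.pi : ℂ) ^ 2)).div_const 2)).add
      (((((hA t ht).mul dHa).add ((hB t ht).mul dHb)).add (hC.mul dHc)).const_mul
        (Real.pi * I : ℂ))).sub ((dHb.add dHc).const_mul (Real.pi * I / 2 : ℂ))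
    have dF := ((g1.sub ((dL1.mul dM1).div_const 2)).add
      (g2.sub ((dL2.mul dM2).div_const 2))).sub dR
    refine dF.congr_deriv ?_
    have hI : I ^ 2 = -1 := Complex.I_sq
    have hC' : C t = 1 - A t - B t := rfl
    simp only [L1, L2, M1, M2, Function.comp_apply]
    rw [hC']
    linear_combination ((Real.pi : ℂ) ^ 2 * a' / 2) * hI
  have hc : ContinuousOn F (Set.Icc 0 1) := fun t ht => (hF t ht).continuousAt.continuousWithinAt
  have hconst := constant_of_has_deriv_right_zero hc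
    (fun t ht => (hF t ⟨ht.1, ht.2.le⟩).hasDerivWithinAt) 1 ⟨zero_le_one, le_rfl⟩
  have e : ∀ t ∈ Set.Icc (0 : ℝ) 1, F t = rh0 (tsh (A t) (B t) (1 - A t - B t)) +
      rh0 (tsh (A t) (1 - A t - B t) (B t)) - rhs (A t) (B t) (1 - A t - B t) +
        (Real.pi : ℂ) ^ 2 / 3 := by
    intro t ht
    obtain ⟨⟨x1, x2, x3⟩, ⟨y1, y2, y3⟩⟩ := hlog t ht
    have e1 := RhoPair_rh0 x1 x2 x3
    have e2 := RhoPair_rh0 y1 y2 y3
    change F t = rh0 (tsh (A t) (B t) (C t)) + rh0 (tsh (A t) (C t) (B t)) -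
      rhs (A t) (B t) (C t) + (Real.pi : ℂ) ^ 2 / 3
    rw [e1, e2]
    simp only [F]
    ring
  rw [e 1 ⟨zero_le_one, le_rfl⟩, e 0 ⟨le_rfl, zero_le_one⟩] at hconst
  linear_combination hconst

/-- Real arcs. -/
theorem D_Rog_real {x y w : ℝ} (h : x + y + w = 1) (hx : 0 < x) (hy : 0 < y) (hw : 0 < w) :
    TOk (x : ℂ) (y : ℂ) (w : ℂ) := by
  have im0 : ∀ u : ℝ, 0 < u → u < 1 → (hh (u : ℂ)).im = 0 := by
    intro u h0 h1
    rw [hh_real u h0 h1, Complex.ofReal_im]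
  have ix := im0 x hx (by linarith)
  have iy := im0 y hy (by linarith)
  have iw := im0 w hw (by linarith)
  have hpi := Real.pi_pos
  refine ⟨by exact_mod_cast h, by simpa using hx, by simpa using hy, by simpa using hw, ?_⟩
  intro k
  fin_cases k
  · change 0 < (Real.pi * I * (x : ℂ) + hh y - hh w).im
    rw [Complex.sub_im, Complex.add_im, iy, iw]
    simpa using mul_pos hpi hx
  · change 0 < (Real.pi * I * (y : ℂ) + hh w - hh x).im
    rw [Complex.sub_im, Complex.add_im, iw, ix]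
    simpa using mul_pos hpi hy
  · change 0 < (Real.pi * I * (w : ℂ) + hh x - hh y).im
    rw [Complex.sub_im, Complex.add_im, ix, iy]
    simpa using mul_pos hpi hw

theorem D_Rog_base : rh0 (tsh (1 / 2) (1 / 4) (1 - 1 / 2 - 1 / 4)) +
    rh0 (tsh (1 / 2) (1 - 1 / 2 - 1 / 4) (1 / 4)) = rhs (1 / 2) (1 / 4) (1 - 1 / 2 - 1 / 4) := by
  have hok : TOk (1 / 2) (1 / 4) (1 / 4) := by
    have h := D_Rog_real (x := 1 / 2) (y := 1 / 4) (w := 1 / 4) (by norm_num) (by norm_num)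
      (by norm_num) (by norm_num)
    push_cast at h
    exact h
  obtain ⟨p1, p2⟩ := tri_lgs hok
  have e : (1 - 1 / 2 - 1 / 4 : ℂ) = 1 / 4 := by norm_num
  rw [e, RhoPair_rh0 p1 (congrFun p2 0) (congrFun p2 1)]
  have t0 : tri (1 / 2) (1 / 4) (1 / 4) 0 = Real.pi * I / 2 := by
    change Real.pi * I * (1 / 2) + hh (1 / 4) - hh (1 / 4) = _
    ring
  have t1 : tri (1 / 2) (1 / 4) (1 / 4) 1 = Real.pi * I / 4 - (Real.log 2 / 2 : ℝ) := by
    change Real.pi * I * (1 / 4) + hh (1 / 4) - hh (1 / 2) = _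
    rw [RhoPair_hh_quarter, RhoPair_hh_half]
    push_cast
    ring
  rw [t0, t1, RhoPair_dilog_I]
  unfold rhs
  have f0 : ff (1 / 2) = 0 := by
    have := RhoPair_ff_half
    rwa [zero_add] at this
  rw [f0, RhoPair_hh_quarter, RhoPair_hh_half]
  push_cast
  have hI : I ^ 2 = -1 := Complex.I_sq
  linear_combination (-(Real.pi : ℂ) ^ 2 / 8) * hI

/-- The sum of the Rogers dilogarithms of the two tetrahedra over an inscribed triangle. -/
theorem rho_tri {a b c : ℂ} (h : ∀ t ∈ Set.Icc (0 : ℝ) 1,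
    TOk (ctr t a) (ctr t b) (ctr t c) ∧ TOk (ctr t a) (ctr t c) (ctr t b)) :
    rh0 (tsh a b c) + rh0 (tsh a c b) = rhs a b c := by
  have hsum : a + b + c = 1 := by
    have := (h 1 ⟨zero_le_one, le_rfl⟩).1.sum
    simpa only [ctr_one] using this
  have hc : c = 1 - a - b := by linear_combination hsum
  have hre : a.re + b.re + c.re = 1 := by
    have := congrArg Complex.re hsum
    simpa using this
  have him : a.im + b.im + c.im = 0 := by
    have := congrArg Complex.im hsum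
    simpa using this
  have hcc : ∀ t : ℝ, 1 - ctr t a - ctr t b = ctr t c := by
    intro t
    rw [hc]
    unfold ctr
    simp only [Complex.sub_re, Complex.sub_im, Complex.one_re, Complex.one_im]
    push_cast
    ring
  have ra : 0 < a.re := by have := (h 0 ⟨le_rfl, zero_le_one⟩).1.ra; rwa [ctr_re] at this
  have rb : 0 < b.re := by have := (h 0 ⟨le_rfl, zero_le_one⟩).1.rb; rwa [ctr_re] at this
  have rc : 0 < c.re := by have := (h 0 ⟨le_rfl, zero_le_one⟩).1.rc; rwa [ctr_re] at this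
  -- contraction to the real part
  have hd : ∀ z : ℂ, ∀ t, HasDerivAt (fun t : ℝ => ctr t z) (z.im * I) t := by
    intro z t
    have h1 : HasDerivAt (fun t : ℝ => ctr t z) (((1 : ℝ) : ℂ) * (z.im * I)) t :=
      (((hasDerivAt_id t).ofReal_comp).mul_const (z.im * I)).const_add (z.re : ℂ)
    rwa [ofReal_one, one_mul] at h1
  have p1 := D_Rog_path (fun t => ctr t a) (fun t => ctr t b) _ _ (fun t _ => hd a t)
    (fun t _ => hd b t) (fun t ht => by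
      change TOk (ctr t a) (ctr t b) (1 - ctr t a - ctr t b) ∧
        TOk (ctr t a) (1 - ctr t a - ctr t b) (ctr t b)
      rw [hcc]; exact h t ht)
  -- the segment of real arcs
  have hd2 : ∀ x y : ℝ, ∀ t, HasDerivAt (fun t : ℝ => (x : ℂ) + t * ((y : ℂ) - x)) ((y : ℂ) - x) t := by
    intro x y t
    have h1 : HasDerivAt (fun t : ℝ => (x : ℂ) + t * ((y : ℂ) - x)) (((1 : ℝ) : ℂ) * ((y : ℂ) - x)) t :=
      (((hasDerivAt_id t).ofReal_comp).mul_const ((y : ℂ) - x)).const_add (x : ℂ)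
    rwa [ofReal_one, one_mul] at h1
  have p2 := D_Rog_path (fun t => ((1 / 2 : ℝ) : ℂ) + t * ((a.re : ℂ) - ((1 / 2 : ℝ) : ℂ)))
    (fun t => ((1 / 4 : ℝ) : ℂ) + t * ((b.re : ℂ) - ((1 / 4 : ℝ) : ℂ))) _ _
    (fun t _ => hd2 _ _ t) (fun t _ => hd2 _ _ t) (fun t ht => by
      have h1 : 0 < 1 / 2 + t * (a.re - 1 / 2) := by nlinarith [ht.1, ht.2]
      have h2 : 0 < 1 / 4 + t * (b.re - 1 / 4) := by nlinarith [ht.1, ht.2]
      have h3 : 0 < 1 - (1 / 2 + t * (a.re - 1 / 2)) - (1 / 4 + t * (b.re - 1 / 4)) := by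
        nlinarith [ht.1, ht.2]
      have k1 := D_Rog_real (x := 1 / 2 + t * (a.re - 1 / 2)) (y := 1 / 4 + t * (b.re - 1 / 4))
        (w := 1 - (1 / 2 + t * (a.re - 1 / 2)) - (1 / 4 + t * (b.re - 1 / 4))) (by ring) h1 h2 h3
      have k2 := D_Rog_real (x := 1 / 2 + t * (a.re - 1 / 2))
        (y := 1 - (1 / 2 + t * (a.re - 1 / 2)) - (1 / 4 + t * (b.re - 1 / 4)))
        (w := 1 / 4 + t * (b.re - 1 / 4)) (by ring) h1 h3 h2
      push_cast at k1 k2 ⊢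
      exact ⟨k1, k2⟩)
  simp only [ctr_one, ctr_zero] at p1
  simp only [ofReal_one, ofReal_zero, one_mul, zero_mul, add_zero] at p2
  have e1 : ((1 / 2 : ℝ) : ℂ) + ((a.re : ℂ) - ((1 / 2 : ℝ) : ℂ)) = a.re := by ring
  have e2 : ((1 / 4 : ℝ) : ℂ) + ((b.re : ℂ) - ((1 / 4 : ℝ) : ℂ)) = b.re := by ring
  rw [e1, e2] at p2
  have hb := D_Rog_base
  have e3 : ((1 / 2 : ℝ) : ℂ) = 1 / 2 := by push_cast; ring
  have e4 : ((1 / 4 : ℝ) : ℂ) = 1 / 4 := by push_cast; ring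
  rw [e3, e4, hb, sub_self] at p2
  rw [← hc, p2] at p1
  linear_combination p1

/-! ### The values for all orders -/

theorem D_Rog_rot (z : ℂ) (hz : 0 < z.im) (n : Fin 3 → ℤ) (F : Fin 3 → ℂ)
    (hF : ∀ c, F c = Hyp.lgs z c + n c * (Real.pi * I)) :
    ∀ c, (![F 1, F 2, F 0] : Fin 3 → ℂ) c =
      Hyp.lgs (1 / (1 - z)) c + (![n 1, n 2, n 0] : Fin 3 → ℤ) c * (Real.pi * I) := by
  obtain ⟨h0, h1⟩ := TetRC_ne z hz
  have e1 : Hyp.lgs (1 / (1 - z)) 1 = Hyp.lgs z 2 := by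
    rw [lgs_1, lgs_2]
    unfold l1 l2
    rw [TetRC_sub' z hz, one_div_one_div]
  have e2 : Hyp.lgs (1 / (1 - z)) 2 = Hyp.lgs z 0 := by
    rw [lgs_2, lgs_0]
    unfold l2 l0
    rw [one_div_one_div, sub_sub_cancel]
  intro c
  fin_cases c
  · change F 1 = Hyp.lgs (1 / (1 - z)) 0 + (n 1 : ℤ) * (Real.pi * I)
    rw [hF 1]
    rfl
  · change F 2 = Hyp.lgs (1 / (1 - z)) 1 + (n 2 : ℤ) * (Real.pi * I)
    rw [hF 2, e1]
  · change F 0 = Hyp.lgs (1 / (1 - z)) 2 + (n 0 : ℤ) * (Real.pi * I)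
    rw [hF 0, e2]

theorem D_Rog_rh1 (z : ℂ) (hz : 0 < z.im) (n : Fin 3 → ℤ) (hn : n 0 + n 1 + n 2 = -1)
    (F : Fin 3 → ℂ) (hF : ∀ c, F c = Hyp.lgs z c + n c * (Real.pi * I)) :
    rh1 (1 / (1 - z)) ![n 1, n 2, n 0] =
      rh1 z n + (Real.pi : ℂ) ^ 2 / 6 + n 1 * (Real.pi : ℂ) ^ 2 / 2 := by
  rw [← TetRC_A z hz n hn F hF]
  have hF' := D_Rog_rot z hz n F hF
  have k0 := hF' 0
  have k1 := hF' 1
  change F 1 = _ at k0
  change F 2 = _ at k1
  rw [k0, k1]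
  unfold Hyp.RR rh1 rh0
  have e : Complex.log (1 - 1 / (1 - z)) = -Hyp.lgs (1 / (1 - z)) 1 := by
    rw [lgs_1, TetRC_l1 _ (TetRC_z'im z hz), neg_neg]
  have e0 : Complex.log (1 / (1 - z)) = Hyp.lgs (1 / (1 - z)) 0 := rfl
  rw [e, e0]
  ring

/-- The corrections for the orders. -/
noncomputable def dv (n : Fin 3 → ℤ) (s k : Fin 3) : ℂ :=
  (![![0, 0, n 0 * (Real.pi : ℂ) ^ 2 / 2],
    ![(Real.pi : ℂ) ^ 2 / 6, 0, (Real.pi : ℂ) ^ 2 / 6 + n 1 * (Real.pi : ℂ) ^ 2 / 2],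
    ![(Real.pi : ℂ) ^ 2 / 3 - (1 + n 0) * (Real.pi : ℂ) ^ 2 / 2,
      (Real.pi : ℂ) ^ 2 / 3 + n 1 * (Real.pi : ℂ) ^ 2 / 2, 0]] : Fin 3 → Fin 3 → ℂ) s k

theorem D_Rog_cases (z : ℂ) (hz : 0 < z.im) (n : Fin 3 → ℤ) (hn : n 0 + n 1 + n 2 = -1)
    (F : Fin 3 → ℂ) (hF : ∀ c, F c = Hyp.lgs z c + n c * (Real.pi * I)) (s k : Fin 3)
    (hsk : s ≠ k) : Cg (Hyp.tetR z F s k) (rh1 z n + dv n s k) := by
  obtain ⟨c1, c2, c3, c4⟩ := tetR_cases z hz n hn F hF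
  have hn2 : (n 2 : ℂ) = -1 - n 0 - n 1 := by
    have : n 2 = -1 - n 0 - n 1 := by linarith
    rw [this]; push_cast; ring
  have hrot := D_Rog_rh1 z hz n hn F hF
  have hF' := D_Rog_rot z hz n F hF
  have hn' : (![n 1, n 2, n 0] : Fin 3 → ℤ) 0 + (![n 1, n 2, n 0] : Fin 3 → ℤ) 1 +
      (![n 1, n 2, n 0] : Fin 3 → ℤ) 2 = -1 := by
    change n 1 + n 2 + n 0 = -1
    linarith
  obtain ⟨-, d2, d3, -⟩ := tetR_cases (1 / (1 - z)) (TetRC_z'im z hz) _ hn' _ hF'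
  fin_cases s <;> fin_cases k
  · exact absurd rfl hsk
  · change Cg (Hyp.tetR z F 0 1) (rh1 z n + 0)
    rw [add_zero]
    exact c1
  · exact c3
  · -- `(1, 0)`
    change Cg (Hyp.tetR z F 1 0) (rh1 z n + (Real.pi : ℂ) ^ 2 / 6)
    have e : Hyp.tetR z F 1 0 = Hyp.tetR (1 / (1 - z)) ![F 1, F 2, F 0] 0 2 := rfl
    rw [e]
    refine d3.trans ⟨n 1, ?_⟩
    rw [hrot]
    change _ + ((n 1 : ℤ) : ℂ) * (Real.pi : ℂ) ^ 2 / 2 = _
    ring
  · exact absurd rfl hsk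
  · change Cg (Hyp.tetR z F 1 2)
      (rh1 z n + ((Real.pi : ℂ) ^ 2 / 6 + n 1 * (Real.pi : ℂ) ^ 2 / 2))
    rw [← add_assoc]
    exact c2
  · -- `(2, 0)`
    change Cg (Hyp.tetR z F 2 0)
      (rh1 z n + ((Real.pi : ℂ) ^ 2 / 3 - (1 + n 0) * (Real.pi : ℂ) ^ 2 / 2))
    have e : Hyp.tetR z F 2 0 = Hyp.tetR (1 / (1 - z)) ![F 1, F 2, F 0] 1 2 := by
      change Hyp.RR (1 - 1 / z) (F 2) (F 0) = Hyp.RR (1 / (1 - 1 / (1 - z))) (F 2) (F 0)
      rw [TetRC_sub' z hz, one_div_one_div]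
    rw [e]
    refine d2.trans (Cg.of_eq ?_)
    rw [hrot]
    change _ + ((n 2 : ℤ) : ℂ) * (Real.pi : ℂ) ^ 2 / 2 = _
    rw [hn2]
    ring
  · change Cg (Hyp.tetR z F 2 1)
      (rh1 z n + ((Real.pi : ℂ) ^ 2 / 3 + n 1 * (Real.pi : ℂ) ^ 2 / 2))
    rw [← add_assoc]
    exact c4
  · exact absurd rfl hsk

/-- The flattening over the arcs `ar`, with the integral parts `K` of the arcs and `H` of their
`hh`. -/
noncomputable def fl (ar K H : Fin 3 → ℂ) (s : ℂ) (i : Fin 3) : ℂ :=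
  Real.pi * I * (ar i - K i) + s * ((hh (ar (i + 1)) + Real.pi * I * H (i + 1)) -
    (hh (ar (i + 2)) + Real.pi * I * H (i + 2)))

/-- The integers exist. -/
def Itg (K H : Fin 3 → ℂ) : Prop :=
  K 0 + K 1 + K 2 = 1 ∧ (∀ i, ∃ n : ℤ, -K i + H (i + 1) - H (i + 2) = n) ∧
    ∀ i, ∃ n : ℤ, -K i - H (i + 1) + H (i + 2) = n

theorem D_Rog_swp (F : Fin 3 → ℂ) : swp (swp F) = F := by
  funext i
  fin_cases i <;> rfl

/-- `tri` with exchanged arcs. -/
theorem D_Rog_tri (a b c : ℂ) : swp (tri a c b) = ![Real.pi * I * a + hh c - hh b,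
    Real.pi * I * b + hh a - hh c, Real.pi * I * c + hh b - hh a] := by
  funext i
  fin_cases i <;> rfl

theorem fl_pair {a b c : ℂ} (h : ∀ t ∈ Set.Icc (0 : ℝ) 1,
    TOk (ctr t a) (ctr t b) (ctr t c) ∧ TOk (ctr t a) (ctr t c) (ctr t b)) {K H : Fin 3 → ℂ}
    (hI : Itg K H) :
    Hyp.IsFlat (tsh a b c) (fl ![a, b, c] K H 1) ∧
    Hyp.IsFlat (tsh a c b) (swp (fl ![a, b, c] K H (-1))) ∧
    ∀ s k : Fin 3, s ≠ k → Cg (Hyp.tetR (tsh a b c) (fl ![a, b, c] K H 1) s k +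
      Hyp.tetR (tsh a c b) (swp (fl ![a, b, c] K H (-1))) (-s) (-k))
      (-(2 * Real.pi * I * (ff a + ff b + ff c)) + Real.pi * I * ((a - K 0) * hh a +
        (b - K 1) * hh b + (c - K 2) * hh c) + (Real.pi : ℂ) ^ 2 * (H 0 * a + H 1 * b + H 2 * c) -
        (Real.pi : ℂ) ^ 2 * H (-s - k)) := by
  have h1 : TOk a b c ∧ TOk a c b := by
    have := h 1 ⟨zero_le_one, le_rfl⟩
    simpa only [ctr_one] using this
  obtain ⟨p1, p2⟩ := tri_lgs h1.1
  obtain ⟨q1, q2⟩ := tri_lgs h1.2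
  obtain ⟨hK, hn, hm⟩ := hI
  choose n hn using hn
  choose m hm using hm
  have hc : c = 1 - a - b := by linear_combination h1.1.sum
  have n0 : -K 0 + H 1 - H 2 = (n 0 : ℂ) := hn 0
  have n1 : -K 1 + H 2 - H 0 = (n 1 : ℂ) := hn 1
  have n2 : -K 2 + H 0 - H 1 = (n 2 : ℂ) := hn 2
  have m0 : -K 0 - H 1 + H 2 = (m 0 : ℂ) := hm 0
  have m1 : -K 1 - H 2 + H 0 = (m 1 : ℂ) := hm 1
  have m2 : -K 2 - H 0 + H 1 = (m 2 : ℂ) := hm 2
  have sn : n 0 + n 1 + n 2 = -1 := by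
    have : (n 0 : ℂ) + n 1 + n 2 = -1 := by
      rw [← n0, ← n1, ← n2]
      linear_combination -hK
    exact_mod_cast this
  have sm : m 0 + m 2 + m 1 = -1 := by
    have : (m 0 : ℂ) + m 2 + m 1 = -1 := by
      rw [← m0, ← m1, ← m2]
      linear_combination -hK
    exact_mod_cast this
  have hF : ∀ i, fl ![a, b, c] K H 1 i = Hyp.lgs (tsh a b c) i + n i * (Real.pi * I) := by
    rw [p2]
    intro i
    fin_cases i
    · change Real.pi * I * (a - K 0) + 1 * ((hh b + Real.pi * I * H 1) -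
        (hh c + Real.pi * I * H 2)) = (Real.pi * I * a + hh b - hh c) + (n 0 : ℂ) * (Real.pi * I)
      rw [← n0]; ring
    · change Real.pi * I * (b - K 1) + 1 * ((hh c + Real.pi * I * H 2) -
        (hh a + Real.pi * I * H 0)) = (Real.pi * I * b + hh c - hh a) + (n 1 : ℂ) * (Real.pi * I)
      rw [← n1]; ring
    · change Real.pi * I * (c - K 2) + 1 * ((hh a + Real.pi * I * H 0) -
        (hh b + Real.pi * I * H 1)) = (Real.pi * I * c + hh a - hh b) + (n 2 : ℂ) * (Real.pi * I)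
      rw [← n2]; ring
  have hG : ∀ i, swp (fl ![a, b, c] K H (-1)) i = Hyp.lgs (tsh a c b) i +
      (![m 0, m 2, m 1] : Fin 3 → ℤ) i * (Real.pi * I) := by
    rw [q2]
    intro i
    fin_cases i
    · change Real.pi * I * (a - K 0) + (-1) * ((hh b + Real.pi * I * H 1) -
        (hh c + Real.pi * I * H 2)) = (Real.pi * I * a + hh c - hh b) + (m 0 : ℂ) * (Real.pi * I)
      rw [← m0]; ring
    · change Real.pi * I * (c - K 2) + (-1) * ((hh a + Real.pi * I * H 0) -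
        (hh b + Real.pi * I * H 1)) = (Real.pi * I * c + hh b - hh a) + (m 2 : ℂ) * (Real.pi * I)
      rw [← m2]; ring
    · change Real.pi * I * (b - K 1) + (-1) * ((hh c + Real.pi * I * H 2) -
        (hh a + Real.pi * I * H 0)) = (Real.pi * I * b + hh a - hh c) + (m 1 : ℂ) * (Real.pi * I)
      rw [← m1]; ring
  refine ⟨⟨fun i => ⟨n i, hF i⟩, ?_⟩, ⟨fun i => ⟨(![m 0, m 2, m 1] : Fin 3 → ℤ) i, hG i⟩, ?_⟩, ?_⟩
  · change Real.pi * I * (a - K 0) + 1 * ((hh b + Real.pi * I * H 1) -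
        (hh c + Real.pi * I * H 2)) + (Real.pi * I * (b - K 1) + 1 * ((hh c + Real.pi * I * H 2) -
        (hh a + Real.pi * I * H 0))) + (Real.pi * I * (c - K 2) + 1 * ((hh a + Real.pi * I * H 0) -
        (hh b + Real.pi * I * H 1))) = 0
    rw [hc]
    linear_combination (-(Real.pi * I)) * hK
  · change Real.pi * I * (a - K 0) + (-1) * ((hh b + Real.pi * I * H 1) -
        (hh c + Real.pi * I * H 2)) + (Real.pi * I * (c - K 2) + (-1) * ((hh a + Real.pi * I * H 0) -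
        (hh b + Real.pi * I * H 1))) + (Real.pi * I * (b - K 1) + (-1) * ((hh c + Real.pi * I * H 2) -
        (hh a + Real.pi * I * H 0))) = 0
    rw [hc]
    linear_combination (-(Real.pi * I)) * hK
  · intro s k hsk
    have x := D_Rog_cases (tsh a b c) p1 n sn _ hF s k hsk
    have y := D_Rog_cases (tsh a c b) q1 _ sm _ hG (-s) (-k) (fun e => hsk (neg_inj.1 e))
    refine (x.add y).trans ?_
    have rho := rho_tri h
    have e1 : rh1 (tsh a b c) n = rh0 (tsh a b c) + Real.pi * I / 2 *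
        (n 1 * (Real.pi * I * a + hh b - hh c) - n 0 * (Real.pi * I * b + hh c - hh a)) := by
      unfold rh1
      rw [p2]
      rfl
    have e2 : rh1 (tsh a c b) ![m 0, m 2, m 1] = rh0 (tsh a c b) + Real.pi * I / 2 *
        (m 2 * (Real.pi * I * a + hh c - hh b) - m 0 * (Real.pi * I * c + hh b - hh a)) := by
      unfold rh1
      rw [q2]
      rfl
    -- the values without order
    have base : rh1 (tsh a b c) n + rh1 (tsh a c b) ![m 0, m 2, m 1] =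
        -(2 * Real.pi * I * (ff a + ff b + ff c)) + Real.pi * I * ((a - K 0) * hh a +
        (b - K 1) * hh b + (c - K 2) * hh c) + (Real.pi : ℂ) ^ 2 * (H 0 * a + H 1 * b + H 2 * c) -
        (Real.pi : ℂ) ^ 2 / 2 * (K 0 + H 1 + H 2) := by
      have hI2 : I ^ 2 = -1 := Complex.I_sq
      have hK2 : K 2 = 1 - K 0 - K 1 := by linear_combination hK
      rw [e1, e2]
      unfold rhs at rho
      rw [← n0, ← n1, ← m0, ← m2, hK2, hc]
      rw [hc] at rho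
      linear_combination rho + ((Real.pi : ℂ) ^ 2 / 2 * ((-K 1 + H 2 - H 0) * a -
        (-K 0 + H 1 - H 2) * b + (-(1 - K 0 - K 1) - H 0 + H 1) * a -
        (-K 0 - H 1 + H 2) * (1 - a - b))) * hI2
    have d01 : ∀ n : Fin 3 → ℤ, dv n 0 1 = 0 := fun n => rfl
    have d02 : ∀ n : Fin 3 → ℤ, dv n 0 2 = n 0 * (Real.pi : ℂ) ^ 2 / 2 := fun n => rfl
    have d10 : ∀ n : Fin 3 → ℤ, dv n 1 0 = (Real.pi : ℂ) ^ 2 / 6 := fun n => rfl
    have d12 : ∀ n : Fin 3 → ℤ, dv n 1 2 = (Real.pi : ℂ) ^ 2 / 6 + n 1 * (Real.pi : ℂ) ^ 2 / 2 :=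
      fun n => rfl
    have d20 : ∀ n : Fin 3 → ℤ, dv n 2 0 = (Real.pi : ℂ) ^ 2 / 3 - (1 + n 0) * (Real.pi : ℂ) ^ 2 / 2 :=
      fun n => rfl
    have d21 : ∀ n : Fin 3 → ℤ, dv n 2 1 = (Real.pi : ℂ) ^ 2 / 3 + n 1 * (Real.pi : ℂ) ^ 2 / 2 :=
      fun n => rfl
    have v0 : ((![m 0, m 2, m 1] : Fin 3 → ℤ) 0 : ℂ) = m 0 := rfl
    have v1 : ((![m 0, m 2, m 1] : Fin 3 → ℤ) 1 : ℂ) = m 2 := rfl
    fin_cases s <;> fin_cases k
    · exact absurd rfl hsk
    · change Cg (_ + dv n 0 1 + (_ + dv _ 0 2)) (_ - (Real.pi : ℂ) ^ 2 * H 2)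
      refine ⟨m 0, ?_⟩
      rw [d01, d02, v0]
      linear_combination base + (Real.pi : ℂ) ^ 2 / 2 * m0
    · change Cg (_ + dv n 0 2 + (_ + dv _ 0 1)) (_ - (Real.pi : ℂ) ^ 2 * H 1)
      refine ⟨n 0, ?_⟩
      rw [d01, d02]
      linear_combination base + (Real.pi : ℂ) ^ 2 / 2 * n0
    · change Cg (_ + dv n 1 0 + (_ + dv _ 2 0)) (_ - (Real.pi : ℂ) ^ 2 * H 2)
      refine ⟨0, ?_⟩
      rw [d10, d20, v0]
      push_cast
      linear_combination base + (Real.pi : ℂ) ^ 2 / 2 * m0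
    · exact absurd rfl hsk
    · change Cg (_ + dv n 1 2 + (_ + dv _ 2 1)) (_ - (Real.pi : ℂ) ^ 2 * H 0)
      refine ⟨0, ?_⟩
      rw [d12, d21, v1]
      push_cast
      linear_combination base - (Real.pi : ℂ) ^ 2 / 2 * n1 - (Real.pi : ℂ) ^ 2 / 2 * m2 -
        (Real.pi : ℂ) ^ 2 / 2 * hK
    · change Cg (_ + dv n 2 0 + (_ + dv _ 1 0)) (_ - (Real.pi : ℂ) ^ 2 * H 1)
      refine ⟨0, ?_⟩
      rw [d10, d20]
      push_cast
      linear_combination base + (Real.pi : ℂ) ^ 2 / 2 * n0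
    · change Cg (_ + dv n 2 1 + (_ + dv _ 1 2)) (_ - (Real.pi : ℂ) ^ 2 * H 0)
      refine ⟨0, ?_⟩
      rw [d12, d21, v1]
      push_cast
      linear_combination base - (Real.pi : ℂ) ^ 2 / 2 * n1 - (Real.pi : ℂ) ^ 2 / 2 * m2 -
        (Real.pi : ℂ) ^ 2 / 2 * hK
    · exact absurd rfl hsk

theorem D_Rog_src : ∀ p q r : Bool, (∃ i : Fin 3, (![p, q, r] : Fin 3 → Bool) i ≠
    (![p, q, r] : Fin 3 → Bool) (i + 1)) → src ![p, q, r] ≠ snk ![p, q, r] := by decide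

/-- The value of a pair of tetrahedra. -/
theorem ord_pair {a b c : ℂ} (h : ∀ t ∈ Set.Icc (0 : ℝ) 1,
    TOk (ctr t a) (ctr t b) (ctr t c) ∧ TOk (ctr t a) (ctr t c) (ctr t b)) {K H : Fin 3 → ℂ}
    (hI : Itg K H) (d : Fin 3 → Bool) (hd : ∃ i, d i ≠ d (i + 1)) :
    Cg (ordR true (tsh a b c) (fl ![a, b, c] K H 1) d +
      ordR false (tsh a c b) (fl ![a, b, c] K H (-1)) d)
      (-(2 * Real.pi * I * (ff a + ff b + ff c)) + Real.pi * I * ((a - K 0) * hh a +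
        (b - K 1) * hh b + (c - K 2) * hh c) + (Real.pi : ℂ) ^ 2 * (H 0 * a + H 1 * b + H 2 * c) -
        (Real.pi : ℂ) ^ 2 * H (-src d - snk d)) := by
  have e : d = ![d 0, d 1, d 2] := by
    funext i
    fin_cases i <;> rfl
  have hsk : src d ≠ snk d := by
    rw [e] at hd ⊢
    exact D_Rog_src _ _ _ hd
  exact (fl_pair h hI).2.2 _ _ hsk

end Pool.Agent.H63.CLK
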