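import Pool.Agent.H63.CLK.D_Pos
import Pool.Agent.H63.CLK.D_Rog

set_option autoImplicit false

/-! # CLK part D, D_Ctr: contraction of the solution to its real part -/

namespace Pool.Agent.H63.CLK

open Pool.Agent.H63.VC hiding ext
open Pool.Agent.H63.VC3 Complex

variable {c : ℕ}

theorem ctr_add (t : ℝ) (z w : ℂ) : ctr t (z + w) = ctr t z + ctr t w := by
  unfold ctr
  simp only [Complex.add_re, Complex.add_im]
  push_cast
  ring

theorem ctr_neg (t : ℝ) (z : ℂ) : ctr t (-z) = -ctr t z := by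
  unfold ctr
  simp only [Complex.neg_re, Complex.neg_im]
  push_cast
  ring

theorem ctr_sub (t : ℝ) (z w : ℂ) : ctr t (z - w) = ctr t z - ctr t w := by
  rw [sub_eq_add_neg, ctr_add, ctr_neg, ← sub_eq_add_neg]

theorem ctr_ofReal (t x : ℝ) : ctr t (x : ℂ) = x := by
  simp [ctr]

theorem ctr_1 (t : ℝ) : ctr t 1 = 1 := by
  simp [ctr]

theorem ctr_0 (t : ℝ) : ctr t 0 = 0 := by
  simp [ctr]

theorem ctr_half (t : ℝ) : ctr t (1 / 2) = 1 / 2 := by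
  have := ctr_ofReal t (1 / 2)
  push_cast at this
  exact this

theorem ctr_sum {ι : Type*} (t : ℝ) (s : Finset ι) (g : ι → ℂ) :
    ctr t (∑ i ∈ s, g i) = ∑ i ∈ s, ctr t (g i) := by
  classical
  induction s using Finset.induction_on with
  | empty => simp [ctr_0]
  | insert a s ha ih => rw [Finset.sum_insert ha, Finset.sum_insert ha, ctr_add, ih]

theorem ctr_norm {t : ℝ} (ht : t ∈ Set.Icc (0 : ℝ) 1) (z : ℂ) (x : ℝ) :
    ‖ctr t z - x‖ ≤ ‖z - x‖ := by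
  have h1 : ctr t z - x = ((z.re - x : ℝ) : ℂ) + ((t * z.im : ℝ) : ℂ) * I := by
    unfold ctr
    push_cast
    ring
  have h2 : z - x = ((z.re - x : ℝ) : ℂ) + ((z.im : ℝ) : ℂ) * I := by
    conv_lhs => rw [← Complex.re_add_im z]
    push_cast
    ring
  rw [h1, h2, Complex.norm_add_mul_I, Complex.norm_add_mul_I]
  apply Real.sqrt_le_sqrt
  have h3 : (t * z.im) ^ 2 ≤ z.im ^ 2 := by
    rw [mul_pow]
    have h4 : t ^ 2 ≤ 1 := by nlinarith [ht.1, ht.2]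
    nlinarith [sq_nonneg z.im]
  linarith

/-- All contractions of the solution are positively oriented. -/
def CReg (T : TData c) (τ z : Fin c → ℂ) (σ : Fin c → Fin 4 → ℂ) : Prop :=
  ∀ t ∈ Set.Icc (0 : ℝ) 1,
    Reg T (fun v => ctr t (τ v)) (fun v => ctr t (z v)) (fun v k => ctr t (σ v k))

theorem creg_near {w : List TPiece} {T : TData c} (hT : T.Of w) (hN : T.Nice)
    {τ0 : Fin c → ℝ} {σ0 : Fin c → Fin 4 → ℝ} (h : Adm T τ0 σ0) :
    ∃ ε : ℝ, 0 < ε ∧ ∀ (τ z : Fin c → ℂ) (σ : Fin c → Fin 4 → ℂ),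
      (∀ v k, T.cor v k ∉ T.F → σ v k = 0) → (∀ v, ∑ k, σ v k = 1) →
      (∀ v, ‖τ v - τ0 v‖ < ε ∧ ‖z v‖ < ε) → (∀ v k, ‖σ v k - σ0 v k‖ < ε) → CReg T τ z σ := by
  obtain ⟨ε, hε, hr⟩ := reg_near hT hN h
  refine ⟨ε, hε, fun τ z σ h1 h2 h3 h4 t ht => hr _ _ _ ?_ ?_ ?_ ?_⟩
  · intro v k hv
    change ctr t (σ v k) = 0
    rw [h1 v k hv, ctr_0]
  · intro v
    rw [← ctr_sum, h2, ctr_1]
  · intro v
    refine ⟨(ctr_norm ht _ _).trans_lt (h3 v).1, ?_⟩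
    have := ctr_norm ht (z v) 0
    simp only [ofReal_zero, sub_zero] at this
    exact this.trans_lt (h3 v).2
  · intro v k
    exact (ctr_norm ht _ _).trans_lt (h4 v k)

theorem CReg.reg {T : TData c} {τ z : Fin c → ℂ} {σ : Fin c → Fin 4 → ℂ} (h : CReg T τ z σ) :
    Reg T τ z σ := by
  have := h 1 ⟨zero_le_one, le_rfl⟩
  simpa only [ctr_one] using this

theorem ctr_csr (t : ℝ) (τ : ℂ) (k : Fin 4) : csr (ctr t τ) k = ctr t (csr τ k) := by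
  fin_cases k
  · change 1 - ctr t τ = ctr t (1 - τ)
    rw [ctr_sub, ctr_1]
  · rfl
  · change 1 - ctr t τ = ctr t (1 - τ)
    rw [ctr_sub, ctr_1]
  · rfl

theorem ctr_tt (T : TData c) (t : ℝ) (τ : Fin c → ℂ) (σ : Fin c → Fin 4 → ℂ) (v : Fin c)
    (j : Fin 4) : T.tt (fun v => ctr t (τ v)) (fun v k => ctr t (σ v k)) v j =
      ctr t (T.tt τ σ v j) := by
  unfold TData.tt
  rw [ctr_sub, ctr_csr]

theorem ctr_zf (T : TData c) (t : ℝ) (z : Fin c → ℂ) (v : Fin c) :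
    T.zf (fun v => ctr t (z v)) v = ctr t (T.zf z v) := by
  unfold TData.zf
  split_ifs
  · rfl
  · rw [ctr_neg]

theorem ctr_oa (t : ℝ) (κ κ' z : ℂ) (s : Fin 4 → ℂ) (k : Fin 4) :
    oa κ' (ctr t z) (fun j => ctr t (s j)) k = ctr t (oa κ z s k) := by
  fin_cases k
  · change 1 / 2 - ctr t z = ctr t (1 / 2 - z)
    rw [ctr_sub, ctr_half]
  · change ctr t (s 2) + ctr t (s 3) = ctr t (s 2 + s 3)
    rw [ctr_add]
  · change ctr t (s 0) + ctr t (s 1) = ctr t (s 0 + s 1)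
    rw [ctr_add]
  · change 1 / 2 + ctr t z = ctr t (1 / 2 + z)
    rw [ctr_add, ctr_half]

theorem ctr_ob (t : ℝ) (κ z z' : ℂ) (s : Fin 4 → ℂ) (k : Fin 4) :
    ob (ctr t κ) z' (fun j => ctr t (s j)) k = ctr t (ob κ z s k) := by
  fin_cases k <;> rfl

theorem ctr_oc (t : ℝ) (κ z : ℂ) (s : Fin 4 → ℂ) (k : Fin 4) :
    oc (ctr t κ) (ctr t z) (fun j => ctr t (s j)) k = ctr t (oc κ z s k) := by
  fin_cases k
  · change 1 / 2 - ctr t κ + ctr t z = ctr t (1 / 2 - κ + z)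
    rw [ctr_add, ctr_sub, ctr_half]
  · rfl
  · rfl
  · change 1 / 2 - ctr t κ - ctr t z = ctr t (1 / 2 - κ - z)
    rw [ctr_sub, ctr_sub, ctr_half]

theorem ctr_psm (t : ℝ) (s : ℕ → ℂ) (j : ℕ) :
    psm (fun i => ctr t (s i)) j = ctr t (psm s j) := by
  unfold psm
  rw [ctr_sum]

theorem CReg.oct {T : TData c} {τ z : Fin c → ℂ} {σ : Fin c → Fin 4 → ℂ} (h : CReg T τ z σ)
    (v : Fin c) (k : Fin 4) (hv : T.has v k) : ∀ t ∈ Set.Icc (0 : ℝ) 1,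
    TOk (ctr t (oa (1 - τ v) (T.zf z v) (T.tt τ σ v) k))
      (ctr t (ob (1 - τ v) (T.zf z v) (T.tt τ σ v) k))
      (ctr t (oc (1 - τ v) (T.zf z v) (T.tt τ σ v) k)) ∧
    TOk (ctr t (oa (1 - τ v) (T.zf z v) (T.tt τ σ v) k))
      (ctr t (oc (1 - τ v) (T.zf z v) (T.tt τ σ v) k))
      (ctr t (ob (1 - τ v) (T.zf z v) (T.tt τ σ v) k)) := by
  intro t ht
  have h1 := (h t ht).oct v k hv
  have e : T.tt (fun v => ctr t (τ v)) (fun v k => ctr t (σ v k)) v =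
      fun j => ctr t (T.tt τ σ v j) := funext fun j => ctr_tt T t τ σ v j
  have e2 : 1 - ctr t (τ v) = ctr t (1 - τ v) := by rw [ctr_sub, ctr_1]
  rw [ctr_zf, e] at h1
  simp only [e2] at h1
  rw [ctr_oa t (1 - τ v), ctr_ob t _ (T.zf z v), ctr_oc] at h1
  exact h1

theorem CReg.fan {T : TData c} {τ z : Fin c → ℂ} {σ : Fin c → Fin 4 → ℂ} (h : CReg T τ z σ)
    (f : ℕ) (hf : f ∈ T.F) (j : ℕ) (h0 : 0 < j) (hj : j + 1 < T.deg f) :
    ∀ t ∈ Set.Icc (0 : ℝ) 1,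
    TOk (ctr t (T.sf σ f j)) (ctr t (1 - psm (T.sf σ f) (j + 1))) (ctr t (psm (T.sf σ f) j)) ∧
    TOk (ctr t (T.sf σ f j)) (ctr t (psm (T.sf σ f) j)) (ctr t (1 - psm (T.sf σ f) (j + 1))) := by
  intro t ht
  have h1 := (h t ht).fan f hf j h0 hj
  have e : T.sf (fun v k => ctr t (σ v k)) f = fun j => ctr t (T.sf σ f j) := rfl
  rw [e, ctr_psm, ctr_psm] at h1
  have e2 : ∀ w, 1 - ctr t w = ctr t (1 - w) := fun w => by rw [ctr_sub, ctr_1]
  rw [e2] at h1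
  exact h1

end Pool.Agent.H63.CLK
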