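import Pool.Agent.H63.CLK.D_Crit

/-!
# CLK part D, D_Fan: the fan of a face

`s j = psm σ j = σ_0 + ... + σ_(j-1)`, `s d = 1`, all `0 < re σ_j`; so `0 < re (s j) < 1` for `0 < j < d`. Use `hh_one_sub` (`hh (1 - x) = hh x`),
`psm_succ : s (j+1) = s j + σ j`, `s 1 = σ 0`, `1 - s (d-1) = σ (d-1)`.
`fanP σ j = tri (σ j) (1 - s (j+1)) (s j) = ![π i σ_j + hh(s_(j+1)) - hh(s_j), π i (1 - s_(j+1)) + hh(s_j) - hh(σ_j), π i s_j + hh(σ_j) - hh(s_(j+1))]`,
`fanM σ j = swp (tri (σ j) (s j) (1 - s (j+1)))`: the same with the opposite signs of `hh`.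
* `fan_bas`, `fan_diag`: the `hh` cancel between `fanP` and `fanM`.
* `fan_polP`: `j = 0`: the sum over `1 ≤ i < d - 1` telescopes: `π i (s (d-1) - s 1) + hh(s (d-1)) - hh(s 1)`; the other cases directly.
* `fan_vol`: `tri_vol` and telescoping with `D (exp (2 π i (1 - x))) = - D (exp (2 π i x))` (`SWpath_inv`).
The case `d = 2` is included (`fan_polP`, `fan_vol`: no tetrahedra, `σ_0 + σ_1 = 1`).
-/

namespace Pool.Agent.H63.CLK

open Pool.Agent.H63.VC hiding ext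
open Pool.Agent.H63.VC3 Pool.Agent.H63.VC7.Hyp Complex

private theorem D_Fan_succ (σ : ℕ → ℂ) (j : ℕ) : psm σ (j + 1) = psm σ j + σ j := by
  unfold psm
  rw [Finset.sum_range_succ]

private theorem D_Fan_zero (σ : ℕ → ℂ) : psm σ 0 = 0 := by
  unfold psm
  rw [Finset.sum_range_zero]

private theorem D_Fan_one (σ : ℕ → ℂ) : psm σ 1 = σ 0 := by
  rw [D_Fan_succ, D_Fan_zero, zero_add]

private theorem D_Fan_P0 (σ : ℕ → ℂ) (j : ℕ) :
    fanP σ j 0 = Real.pi * I * σ j + hh (psm σ (j + 1)) - hh (psm σ j) := by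
  have h : fanP σ j 0 = Real.pi * I * σ j + hh (1 - psm σ (j + 1)) - hh (psm σ j) := rfl
  rw [h, hh_one_sub]

private theorem D_Fan_P1 (σ : ℕ → ℂ) (j : ℕ) :
    fanP σ j 1 = Real.pi * I * (1 - psm σ (j + 1)) + hh (psm σ j) - hh (σ j) := rfl

private theorem D_Fan_P2 (σ : ℕ → ℂ) (j : ℕ) :
    fanP σ j 2 = Real.pi * I * psm σ j + hh (σ j) - hh (psm σ (j + 1)) := by
  have h : fanP σ j 2 = Real.pi * I * psm σ j + hh (σ j) - hh (1 - psm σ (j + 1)) := rfl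
  rw [h, hh_one_sub]

private theorem D_Fan_M0 (σ : ℕ → ℂ) (j : ℕ) :
    fanM σ j 0 = Real.pi * I * σ j + hh (psm σ j) - hh (psm σ (j + 1)) := by
  have h : fanM σ j 0 = Real.pi * I * σ j + hh (psm σ j) - hh (1 - psm σ (j + 1)) := rfl
  rw [h, hh_one_sub]

private theorem D_Fan_M1 (σ : ℕ → ℂ) (j : ℕ) :
    fanM σ j 1 = Real.pi * I * (1 - psm σ (j + 1)) + hh (σ j) - hh (psm σ j) := rfl

private theorem D_Fan_M2 (σ : ℕ → ℂ) (j : ℕ) :
    fanM σ j 2 = Real.pi * I * psm σ j + hh (psm σ (j + 1)) - hh (σ j) := by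
  have h : fanM σ j 2 = Real.pi * I * psm σ j + hh (1 - psm σ (j + 1)) - hh (σ j) := rfl
  rw [h, hh_one_sub]

private theorem D_Fan_last (d : ℕ) (σ : ℕ → ℂ) (hd : 1 ≤ d) (h1 : psm σ d = 1) :
    psm σ (d - 1) = 1 - σ (d - 1) := by
  have h2 := D_Fan_succ σ (d - 1)
  rw [Nat.sub_add_cancel hd, h1] at h2
  linear_combination -h2

private theorem D_Fan_hlast (d : ℕ) (σ : ℕ → ℂ) (hd : 1 ≤ d) (h1 : psm σ d = 1) :
    hh (psm σ (d - 1)) = hh (σ (d - 1)) := by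
  rw [D_Fan_last d σ hd h1, hh_one_sub]

private theorem D_Fan_telP (σ : ℕ → ℂ) (m : ℕ) :
    ∑ i ∈ Finset.Ico 1 (m + 1), fanP σ i 0 =
      Real.pi * I * (psm σ (m + 1) - psm σ 1) + hh (psm σ (m + 1)) - hh (psm σ 1) := by
  induction m with
  | zero => simp
  | succ m ih =>
    rw [Finset.sum_Ico_succ_top (by omega), ih, D_Fan_P0, D_Fan_succ σ (m + 1)]
    ring

private theorem D_Fan_telM (σ : ℕ → ℂ) (m : ℕ) :
    ∑ i ∈ Finset.Ico 1 (m + 1), fanM σ i 0 =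
      Real.pi * I * (psm σ (m + 1) - psm σ 1) - hh (psm σ (m + 1)) + hh (psm σ 1) := by
  induction m with
  | zero => simp
  | succ m ih =>
    rw [Finset.sum_Ico_succ_top (by omega), ih, D_Fan_M0, D_Fan_succ σ (m + 1)]
    ring

private theorem D_Fan_mod0 (d : ℕ) (hd : 2 ≤ d) : (0 + (d - 1)) % d = d - 1 := by
  rw [zero_add]
  exact Nat.mod_eq_of_lt (by omega)

private theorem D_Fan_mod (d j : ℕ) (hj0 : 1 ≤ j) (hj : j < d) : (j + (d - 1)) % d = j - 1 := by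
  have h : j + (d - 1) = (j - 1) + d := by omega
  rw [h, Nat.add_mod_right]
  exact Nat.mod_eq_of_lt (by omega)

private theorem D_Fan_inv (x : ℂ) :
    blochWigner (exp (2 * Real.pi * I * (1 - x))) = - blochWigner (exp (2 * Real.pi * I * x)) := by
  have h : exp (2 * Real.pi * I * (1 - x)) = (exp (2 * Real.pi * I * x))⁻¹ := by
    rw [← exp_neg, show 2 * (Real.pi : ℂ) * I * (1 - x) =
      -(2 * Real.pi * I * x) + 2 * Real.pi * I by ring, exp_add, Complex.exp_two_pi_mul_I, mul_one]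
  rw [h, SWpath_inv]

private theorem D_Fan_pos (d : ℕ) (σ : ℕ → ℂ) (hp : ∀ j < d, 0 < (σ j).re) (m : ℕ) (hm : 1 ≤ m)
    (hmd : m ≤ d) : 0 < (psm σ m).re := by
  unfold psm
  rw [Complex.re_sum]
  apply Finset.sum_pos
  · intro i hi
    exact hp i (by rw [Finset.mem_range] at hi; omega)
  · exact ⟨0, Finset.mem_range.2 (by omega)⟩

private theorem D_Fan_lt (d : ℕ) (σ : ℕ → ℂ) (h1 : psm σ d = 1) (hp : ∀ j < d, 0 < (σ j).re)
    (m : ℕ) (hmd : m < d) : 0 < (1 - psm σ m).re := by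
  have h2 : 1 - psm σ m = ∑ i ∈ Finset.Ico m d, σ i := by
    rw [← h1]
    unfold psm
    rw [Finset.sum_Ico_eq_sub _ hmd.le]
  rw [h2, Complex.re_sum]
  apply Finset.sum_pos
  · intro i hi
    exact hp i (Finset.mem_Ico.1 hi).2
  · exact ⟨m, Finset.mem_Ico.2 ⟨le_rfl, hmd⟩⟩

private theorem D_Fan_volm (d : ℕ) (σ : ℕ → ℂ) (h1 : psm σ d = 1) (hp : ∀ j < d, 0 < (σ j).re)
    (m : ℕ) (hmd : m + 1 < d) :
    ∑ j ∈ Finset.Ico 1 (m + 1), (blochWigner (tsh (σ j) (1 - psm σ (j + 1)) (psm σ j)) +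
      blochWigner (tsh (σ j) (psm σ j) (1 - psm σ (j + 1)))) =
    ∑ j ∈ Finset.range (m + 1), blochWigner (exp (2 * Real.pi * I * σ j)) -
      blochWigner (exp (2 * Real.pi * I * psm σ (m + 1))) := by
  induction m with
  | zero => simp [D_Fan_one]
  | succ m ih =>
    rw [Finset.sum_Ico_succ_top (by omega), ih (by omega), Finset.sum_range_succ _ (m + 1)]
    have h2 := tri_vol (σ (m + 1)) (1 - psm σ (m + 1 + 1)) (psm σ (m + 1))
      (by rw [D_Fan_succ σ (m + 1)]; ring) (hp _ (by omega))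
      (D_Fan_lt d σ h1 hp _ (by omega)) (D_Fan_pos d σ hp _ (by omega) (by omega))
    rw [h2, D_Fan_inv]
    ring

theorem fan_bas (d : ℕ) (σ : ℕ → ℂ) (hd : 3 ≤ d) (h1 : psm σ d = 1) (j : ℕ) (hj : j < d) :
    bas d (fanP σ) j + bas d (fanM σ) j = 2 * Real.pi * I * σ j := by
  unfold bas
  split_ifs with h2 h3
  · subst h2
    rw [D_Fan_P2, D_Fan_M2, D_Fan_one]
    ring
  · have h4 : j = d - 1 := by omega
    subst h4
    rw [D_Fan_P1, D_Fan_M1, show d - 2 + 1 = d - 1 by omega, D_Fan_last d σ (by omega) h1]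
    ring
  · rw [D_Fan_P0, D_Fan_M0]
    ring

theorem fan_diag (σ : ℕ → ℂ) (j : ℕ) (hj : 2 ≤ j) :
    fanP σ (j - 1) 1 + fanP σ j 2 + fanM σ (j - 1) 1 + fanM σ j 2 = 2 * (Real.pi * I) := by
  rw [D_Fan_P1, D_Fan_P2, D_Fan_M1, D_Fan_M2, Nat.sub_add_cancel (by omega : 1 ≤ j)]
  ring

theorem fan_polP (d : ℕ) (σ : ℕ → ℂ) (hd : 2 ≤ d) (h1 : psm σ d = 1) (j : ℕ) (hj : j < d) :
    pol d (fanP σ) j = Real.pi * I * (1 - σ ((j + (d - 1)) % d) - σ j) +
      hh (σ ((j + (d - 1)) % d)) - hh (σ j) := by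
  have hl := D_Fan_last d σ (by omega) h1
  have hhl := D_Fan_hlast d σ (by omega) h1
  unfold pol
  rcases Nat.eq_zero_or_pos j with h0 | h0
  · subst h0
    rw [if_pos rfl, D_Fan_mod0 d hd]
    obtain ⟨m, rfl⟩ : ∃ m, d = m + 2 := ⟨d - 2, by omega⟩
    rw [show m + 2 - 1 = m + 1 by omega] at hl hhl ⊢
    rw [D_Fan_telP, hhl, hl, D_Fan_one]
  · rw [if_neg (by omega), D_Fan_mod d j h0 hj]
    obtain ⟨i, rfl⟩ : ∃ i, j = i + 1 := ⟨j - 1, by omega⟩
    rw [Nat.add_sub_cancel]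
    by_cases h2 : 2 ≤ i + 1
    · by_cases h3 : i + 1 + 2 ≤ d
      · rw [if_pos h2, if_pos h3, D_Fan_P2, D_Fan_P1, D_Fan_succ σ (i + 1), D_Fan_succ σ i]
        ring
      · have h4 : d = i + 2 := by omega
        subst h4
        rw [show i + 2 - 1 = i + 1 by omega] at hl hhl
        rw [if_pos h2, if_neg h3, D_Fan_P2, hhl]
        rw [D_Fan_succ σ i] at hl
        linear_combination (Real.pi * I) * hl
    · have h4 : i = 0 := by omega
      subst h4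
      rw [zero_add] at *
      rw [if_neg (by omega)]
      by_cases h3 : 1 + 2 ≤ d
      · rw [if_pos h3, D_Fan_P1, D_Fan_succ σ 1, D_Fan_one]
        ring
      · have h5 : d = 2 := by omega
        subst h5
        rw [if_neg h3]
        rw [show 2 - 1 = 1 by norm_num, D_Fan_one] at hl hhl
        rw [hhl, hl]
        ring

theorem fan_polM (d : ℕ) (σ : ℕ → ℂ) (hd : 2 ≤ d) (h1 : psm σ d = 1) (j : ℕ) (hj : j < d) :
    pol d (fanM σ) j = Real.pi * I * (1 - σ ((j + (d - 1)) % d) - σ j) -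
      hh (σ ((j + (d - 1)) % d)) + hh (σ j) := by
  have hl := D_Fan_last d σ (by omega) h1
  have hhl := D_Fan_hlast d σ (by omega) h1
  unfold pol
  rcases Nat.eq_zero_or_pos j with h0 | h0
  · subst h0
    rw [if_pos rfl, D_Fan_mod0 d hd]
    obtain ⟨m, rfl⟩ : ∃ m, d = m + 2 := ⟨d - 2, by omega⟩
    rw [show m + 2 - 1 = m + 1 by omega] at hl hhl ⊢
    rw [D_Fan_telM, hhl, hl, D_Fan_one]
  · rw [if_neg (by omega), D_Fan_mod d j h0 hj]
    obtain ⟨i, rfl⟩ : ∃ i, j = i + 1 := ⟨j - 1, by omega⟩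
    rw [Nat.add_sub_cancel]
    by_cases h2 : 2 ≤ i + 1
    · by_cases h3 : i + 1 + 2 ≤ d
      · rw [if_pos h2, if_pos h3, D_Fan_M2, D_Fan_M1, D_Fan_succ σ (i + 1), D_Fan_succ σ i]
        ring
      · have h4 : d = i + 2 := by omega
        subst h4
        rw [show i + 2 - 1 = i + 1 by omega] at hl hhl
        rw [if_pos h2, if_neg h3, D_Fan_M2, hhl]
        rw [D_Fan_succ σ i] at hl
        linear_combination (Real.pi * I) * hl
    · have h4 : i = 0 := by omega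
      subst h4
      rw [zero_add] at *
      rw [if_neg (by omega)]
      by_cases h3 : 1 + 2 ≤ d
      · rw [if_pos h3, D_Fan_M1, D_Fan_succ σ 1, D_Fan_one]
        ring
      · have h5 : d = 2 := by omega
        subst h5
        rw [if_neg h3]
        rw [show 2 - 1 = 1 by norm_num, D_Fan_one] at hl hhl
        rw [hhl, hl]
        ring

theorem fan_vol (d : ℕ) (σ : ℕ → ℂ) (hd : 2 ≤ d) (h1 : psm σ d = 1) (hp : ∀ j < d, 0 < (σ j).re) :
    ∑ j ∈ Finset.Ico 1 (d - 1), (blochWigner (tsh (σ j) (1 - psm σ (j + 1)) (psm σ j)) +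
      blochWigner (tsh (σ j) (psm σ j) (1 - psm σ (j + 1)))) =
    ∑ j ∈ Finset.range d, blochWigner (exp (2 * Real.pi * I * σ j)) := by
  obtain ⟨m, rfl⟩ : ∃ m, d = m + 2 := ⟨d - 2, by omega⟩
  have hl := D_Fan_last (m + 2) σ (by omega) h1
  rw [show m + 2 - 1 = m + 1 by omega] at hl ⊢
  rw [D_Fan_volm (m + 2) σ h1 hp m (by omega), Finset.sum_range_succ _ (m + 1), hl, D_Fan_inv]
  ring

end Pool.Agent.H63.CLK
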