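import Pool.Agent.H63.CLK.D_FlD
import Pool.Agent.H63.CLK.D_Ver

set_option autoImplicit false

/-!
# CLK part D, D_FlC: the logarithmic identities for the longitudes

`hh_exp`: `exp (hh x) = 2 sin (π x)` for `0 < re x < 1`. `S x = sin (π x)`, `θ_k = csr (τ v) k - σ v k`, `κ = 1 - τ v`.
* `log_eq`: if `exp u = exp w` and `|im u - im w| < 2 π` then `u = w`.
* `cr_exp`: `exp (Cr v k l) = 1 + [l' bounded] exp (A (cor v l') - A (cor v l))` for `l = k`, `l' = k - 1` or `l = k - 1`, `l' = k`, and `l` bounded. `v` not an end: left side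
  `S κ S(θ_{k-1} + θ_k) / (S θ_{l'} S σ_l)`; if `l'` is bounded `exp (A' - A) = S σ_{l'} S θ_l / (S θ_{l'} S σ_l)` (`CritT.sig`), and
  `S θ_{k} S σ_{k-1} + S θ_{k-1} S σ_k = S κ S(θ_{k-1} + θ_k)`, since `σ_{k-1} = s - θ_{k-1}`, `σ_k = 1 - s - θ_k`, `s = csr (τ v) (k-1)`, `S s = S κ`; if `l'` is outer then `σ_{l'} = 0`, `S θ_{l'} = S κ`… (the same
  identity with `S σ_{l'} = 0`). `v` an end: `l, l' ∈ {one + 1, one + 2}` for `k = one + 2` (both bounded), otherwise `l'` is outer and `Cr = 0`. For `k = one + 2`: `CritT.tau0` gives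
  `hh (τ-1/2-z) + hh (τ-1/2+z) - 2 hh τ = A o - A e`, `e` the even (`0, 2`), `o` the odd one of the corners `l, l'`, and `S(τ-1/2-z) S(τ-1/2+z) = cos(π z)^2 - (S κ)^2`, `exp (hh (1/2+z)) = 2 cos (π z)`:
  `cos^2 / S κ^2 = 1 + exp (A o - A e)` (`l = e`), `cos^2 / (cos^2 - S κ^2) = 1 + exp (A e - A o)` (`l = o`).
* `cr_eq`: mates `p`, `q`, `cor q` bounded: by `adj` `cor p.1 (p.2 - 1) = cor q.1 q.2`, and `cor p.1 p.2 ∈ F ↔ cor q.1 (q.2 - 1) ∈ F`, then equal. `cr_exp`, `log_eq` (at most 6 terms `hh` on each side, `η ≤ 1/10`).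
* `ptol`: `v` not an end: `cos(π z)^2 S θ_1 S θ_3 = (S κ)^2 S(θ_0 + θ_1) S(θ_1 + θ_2)`: `CritT.tau` gives `S θ_1 S θ_3 S(τ-1/2-z) S(τ-1/2+z) = S θ_0 S θ_2 (S κ)^2`, and `∑ θ = 1` gives
  `S(θ_0 + θ_1) S(θ_1 + θ_2) = S θ_0 S θ_2 + S θ_1 S θ_3`. Then `log_eq`.
* `end_log`: for an end `v`, `e`, `o` the bounded even and odd corner: `exp (2 hh (1/2 + z) - A o) = 4 (S κ)^2 (exp (-A e) + exp (-A o))`.
-/

namespace Pool.Agent.H63.CLK

open Pool.Agent.H63.VC hiding ext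
open Pool.Agent.H63.VC3 Complex

variable {c : ℕ} {w : List TPiece} {T : TData c} {a : Fin c → ℤ} {τ z : Fin c → ℂ}
  {σ : Fin c → Fin 4 → ℂ} {A : ℕ → ℂ} {B : Fin c → ℂ}

/-! ### Trigonometry -/

private noncomputable def D_FlC_S (x : ℂ) : ℂ := sin (Real.pi * x)

private theorem D_FlC_exp {x : ℂ} (h0 : 0 < x.re) (h1 : x.re < 1) :
    exp (hh x) = 2 * D_FlC_S x := hh_exp x h0 h1

private theorem D_FlC_ne {x : ℂ} (h0 : 0 < x.re) (h1 : x.re < 1) : D_FlC_S x ≠ 0 := by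
  intro h
  have := D_FlC_exp h0 h1
  rw [h, mul_zero] at this
  exact exp_ne_zero _ this

private theorem D_FlC_one_sub (x : ℂ) : D_FlC_S (1 - x) = D_FlC_S x := by
  unfold D_FlC_S
  rw [show (Real.pi : ℂ) * (1 - x) = Real.pi - Real.pi * x by ring, Complex.sin_pi_sub]

private theorem D_FlC_zero : D_FlC_S 0 = 0 := by
  unfold D_FlC_S
  rw [mul_zero, Complex.sin_zero]

private theorem D_FlC_half (z : ℂ) : D_FlC_S (1 / 2 + z) = cos (Real.pi * z) := by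
  unfold D_FlC_S
  rw [show (Real.pi : ℂ) * (1 / 2 + z) = Real.pi / 2 + Real.pi * z by ring, Complex.sin_add,
    Complex.sin_pi_div_two, Complex.cos_pi_div_two]
  ring

private theorem D_FlC_SP (t z : ℂ) :
    D_FlC_S (t - 1 / 2 - z) * D_FlC_S (t - 1 / 2 + z) =
      cos (Real.pi * z) ^ 2 - D_FlC_S t ^ 2 := by
  unfold D_FlC_S
  rw [show (Real.pi : ℂ) * (t - 1 / 2 - z) = (Real.pi * t - Real.pi * z) - Real.pi / 2 by ring,
    show (Real.pi : ℂ) * (t - 1 / 2 + z) = (Real.pi * t + Real.pi * z) - Real.pi / 2 by ring,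
    Complex.sin_sub_pi_div_two, Complex.sin_sub_pi_div_two, Complex.cos_sub, Complex.cos_add]
  have h1 := Complex.cos_sq_add_sin_sq (Real.pi * t)
  have h2 := Complex.cos_sq_add_sin_sq (Real.pi * z)
  linear_combination cos (Real.pi * z) ^ 2 * h1 - sin (Real.pi * t) ^ 2 * h2

/-- the identity for the corners `k - 1` (`θ'`, `s - θ'`) and `k` (`θ`, `1 - s - θ`) -/
private theorem D_FlC_id (s θ θ' : ℂ) :
    D_FlC_S θ * D_FlC_S (s - θ') + D_FlC_S θ' * D_FlC_S (1 - s - θ) =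
      D_FlC_S s * D_FlC_S (θ' + θ) := by
  rw [show 1 - s - θ = 1 - (s + θ) by ring, D_FlC_one_sub]
  unfold D_FlC_S
  rw [show (Real.pi : ℂ) * (s - θ') = Real.pi * s - Real.pi * θ' by ring,
    show (Real.pi : ℂ) * (s + θ) = Real.pi * s + Real.pi * θ by ring,
    show (Real.pi : ℂ) * (θ' + θ) = Real.pi * θ' + Real.pi * θ by ring,
    Complex.sin_sub, Complex.sin_add, Complex.sin_add]
  ring

private theorem D_FlC_pto (a b c : ℂ) :
    D_FlC_S (a + b) * D_FlC_S (b + c) =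
      D_FlC_S a * D_FlC_S c + D_FlC_S b * D_FlC_S (a + b + c) := by
  unfold D_FlC_S
  rw [show (Real.pi : ℂ) * (a + b + c) = Real.pi * a + Real.pi * b + Real.pi * c by ring,
    show (Real.pi : ℂ) * (a + b) = Real.pi * a + Real.pi * b by ring,
    show (Real.pi : ℂ) * (b + c) = Real.pi * b + Real.pi * c by ring]
  simp only [Complex.sin_add, Complex.cos_add]
  have h1 := Complex.cos_sq_add_sin_sq (Real.pi * b)
  linear_combination (sin (Real.pi * a) * sin (Real.pi * c)) * h1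

private theorem D_FlC_log_eq {u w : ℂ} (h : exp u = exp w) (hi : |u.im - w.im| < 2 * Real.pi) :
    u = w := by
  obtain ⟨n, hn⟩ := Complex.exp_eq_exp_iff_exists_int.mp h
  have h1 := congrArg Complex.im hn
  have h2 : ((n : ℂ) * (2 * Real.pi * I)).im = n * (2 * Real.pi) := by
    simp
  rw [Complex.add_im, h2] at h1
  have h3 : u.im - w.im = n * (2 * Real.pi) := by linarith
  rw [h3, abs_mul, abs_of_pos (by positivity : (0 : ℝ) < 2 * Real.pi)] at hi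
  have h4 : |(n : ℝ)| < 1 := by
    have hp : (0 : ℝ) < 2 * Real.pi := by positivity
    nlinarith
  have h5 : n = 0 := by
    rw [← Int.cast_abs] at h4
    have : |n| < 1 := by exact_mod_cast h4
    exact Int.abs_lt_one_iff.mp this
  rw [hn, h5]
  simp

private theorem D_FlC_csr (t : ℂ) (k : Fin 4) : csr t k = 1 - csr t (k - 1) := by
  match k with
  | 0 => show 1 - t = 1 - t; rfl
  | 1 => show t = 1 - (1 - t); ring
  | 2 => show 1 - t = 1 - t; rfl
  | 3 => show t = 1 - (1 - t); ring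

private theorem D_FlC_csrS (t : ℂ) (k : Fin 4) : D_FlC_S (csr t k) = D_FlC_S (1 - t) := by
  match k with
  | 0 => rfl
  | 1 => exact (D_FlC_one_sub t).symm
  | 2 => rfl
  | 3 => exact (D_FlC_one_sub t).symm

/-! ### The ends -/

private theorem D_FlC_four (i k : Fin 4) : k = i ∨ k = i - 1 ∨ k = i + 1 ∨ k = i + 2 := by
  revert i k
  decide

private theorem D_FlC_tau0 (hN : T.Nice) (hc : CritT T a τ z σ A B) (v : Fin c)
    (hv : T.isEnd v = true) (e o : Fin 4)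
    (h : (T.one v = 0 ∨ T.one v = 2) ∧ o = T.one v + 1 ∧ e = T.one v + 2 ∨
      (T.one v = 1 ∨ T.one v = 3) ∧ e = T.one v + 1 ∧ o = T.one v + 2) :
    hh (τ v - 1 / 2 - z v) + hh (τ v - 1 / 2 + z v) - 2 * hh (τ v) +
      (A (T.cor v e) - A (T.cor v o)) = 0 := by
  have h0 := hc.tau0 v hv
  obtain ⟨n0, n3, n1, n2⟩ := hN.end0 v hv
  rw [Fin.sum_univ_four] at h0
  rcases h with ⟨hi, rfl, rfl⟩ | ⟨hi, rfl, rfl⟩
  · rcases hi with hi | hi
    · rw [hi] at n0 n3 n1 n2 ⊢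
      change T.cor v 3 ∉ T.F at n3
      change T.cor v 1 ∈ T.F at n1
      change T.cor v 2 ∈ T.F at n2
      show _ + (A (T.cor v 2) - A (T.cor v 1)) = 0
      rw [if_neg n0, if_pos n1, if_pos n2, if_neg n3, if_neg (by decide), if_pos (by decide)] at h0
      rw [← h0]
      ring
    · rw [hi] at n0 n3 n1 n2 ⊢
      change T.cor v 1 ∉ T.F at n3
      change T.cor v 3 ∈ T.F at n1
      change T.cor v 0 ∈ T.F at n2
      show _ + (A (T.cor v 0) - A (T.cor v 3)) = 0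
      rw [if_pos n2, if_neg n3, if_neg n0, if_pos n1, if_pos (by decide), if_neg (by decide)] at h0
      rw [← h0]
      ring
  · rcases hi with hi | hi
    · rw [hi] at n0 n3 n1 n2 ⊢
      change T.cor v 0 ∉ T.F at n3
      change T.cor v 2 ∈ T.F at n1
      change T.cor v 3 ∈ T.F at n2
      show _ + (A (T.cor v 2) - A (T.cor v 3)) = 0
      rw [if_neg n3, if_neg n0, if_pos n1, if_pos n2, if_pos (by decide), if_neg (by decide)] at h0
      rw [← h0]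
      ring
    · rw [hi] at n0 n3 n1 n2 ⊢
      change T.cor v 2 ∉ T.F at n3
      change T.cor v 0 ∈ T.F at n1
      change T.cor v 1 ∈ T.F at n2
      show _ + (A (T.cor v 0) - A (T.cor v 1)) = 0
      rw [if_pos n1, if_pos n2, if_neg n3, if_neg n0, if_pos (by decide), if_neg (by decide)] at h0
      rw [← h0]
      ring

private theorem D_FlC_half_exp {η : ℝ} (hs : SReg T η τ z σ) (v : Fin c) :
    exp (2 * hh (1 / 2 + z v)) = 4 * cos (Real.pi * z v) ^ 2 := by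
  have h := hs.half v
  rw [two_mul, exp_add, D_FlC_exp h.1 h.2, D_FlC_half]
  ring

private theorem D_FlC_P_exp (hR : Reg T τ z σ) (v : Fin c) :
    exp (hh (τ v - 1 / 2 - z v) + hh (τ v - 1 / 2 + z v)) =
      4 * (cos (Real.pi * z v) ^ 2 - D_FlC_S (τ v) ^ 2) := by
  rw [exp_add, D_FlC_exp (hR.zm v).1 (hR.zm v).2, D_FlC_exp (hR.zp v).1 (hR.zp v).2,
    ← D_FlC_SP]
  ring

private theorem D_FlC_tau_re (hR : Reg T τ z σ) (v : Fin c) :
    0 < (τ v).re ∧ (τ v).re < 1 ∧ 0 < (1 - τ v).re ∧ (1 - τ v).re < 1 := by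
  have h := hR.tau v
  rw [Complex.sub_re, Complex.one_re]
  exact ⟨by linarith, h.2, by linarith, by linarith⟩

private theorem D_FlC_T_exp (hR : Reg T τ z σ) (v : Fin c) :
    exp (2 * hh (τ v)) = 4 * D_FlC_S (τ v) ^ 2 := by
  obtain ⟨h1, h2, -, -⟩ := D_FlC_tau_re hR v
  rw [two_mul, exp_add, D_FlC_exp h1 h2]
  ring

private theorem D_FlC_end2 (hN : T.Nice) (hc : CritT T a τ z σ A B) (hR : Reg T τ z σ)
    (v : Fin c) (hv : T.isEnd v = true) (e o : Fin 4)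
    (h : (T.one v = 0 ∨ T.one v = 2) ∧ o = T.one v + 1 ∧ e = T.one v + 2 ∨
      (T.one v = 1 ∨ T.one v = 3) ∧ e = T.one v + 1 ∧ o = T.one v + 2) :
    exp (A (T.cor v o) - A (T.cor v e)) * D_FlC_S (τ v) ^ 2 =
      cos (Real.pi * z v) ^ 2 - D_FlC_S (τ v) ^ 2 := by
  have h0 := D_FlC_tau0 hN hc v hv e o h
  have h1 : A (T.cor v o) - A (T.cor v e) =
      (hh (τ v - 1 / 2 - z v) + hh (τ v - 1 / 2 + z v)) - 2 * hh (τ v) := by
    linear_combination -h0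
  obtain ⟨t1, t2, -, -⟩ := D_FlC_tau_re hR v
  have hS := D_FlC_ne t1 t2
  rw [h1, exp_sub, D_FlC_P_exp hR, D_FlC_T_exp hR]
  field_simp

/-! ### The exponential of `Cr` -/

private theorem D_FlC_cr_in (hc : CritT T a τ z σ A B) (hR : Reg T τ z σ)
    {η : ℝ} (hs : SReg T η τ z σ) (v : Fin c) (hv : T.isEnd v = false) (k l l' : Fin 4)
    (hl : l = k ∧ l' = k - 1 ∨ l = k - 1 ∧ l' = k) (hF : T.cor v l ∈ T.F) :
    exp (T.Cr τ z σ v k l) =
      1 + (if T.cor v l' ∈ T.F then exp (A (T.cor v l') - A (T.cor v l)) else 0) := by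
  obtain ⟨-, -, t3, t4⟩ := D_FlC_tau_re hR v
  have htwo := hs.two v k hv
  have hk1 := hR.the v (k - 1) hv
  have hk := hR.the v k hv
  have hl0 := hR.the v l hv
  have hl1 := hR.the v l' hv
  have hσ := hR.sig v l hF
  have nl := D_FlC_ne hl0.1 hl0.2
  have nl' := D_FlC_ne hl1.1 hl1.2
  have np := D_FlC_ne hσ.1 hσ.2
  have hid : D_FlC_S (csr (τ v) l - σ v l) * D_FlC_S (σ v l') +
      D_FlC_S (csr (τ v) l' - σ v l') * D_FlC_S (σ v l) =
      D_FlC_S (1 - τ v) *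
        D_FlC_S (csr (τ v) (k - 1) - σ v (k - 1) + (csr (τ v) k - σ v k)) := by
    have h1 := D_FlC_id (csr (τ v) (k - 1)) (csr (τ v) k - σ v k)
      (csr (τ v) (k - 1) - σ v (k - 1))
    rw [← D_FlC_csr, D_FlC_csrS, sub_sub_cancel, sub_sub_cancel] at h1
    rcases hl with ⟨rfl, rfl⟩ | ⟨rfl, rfl⟩
    · exact h1
    · rw [← h1]; ring
  have hprod : D_FlC_S (csr (τ v) (k - 1) - σ v (k - 1)) * D_FlC_S (csr (τ v) k - σ v k) =
      D_FlC_S (csr (τ v) l - σ v l) * D_FlC_S (csr (τ v) l' - σ v l') := by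
    rcases hl with ⟨rfl, rfl⟩ | ⟨rfl, rfl⟩
    · ring
    · ring
  have nk1 := D_FlC_ne hk1.1 hk1.2
  have nk := D_FlC_ne hk.1 hk.2
  have hL : exp (T.Cr τ z σ v k l) = D_FlC_S (1 - τ v) *
      D_FlC_S (csr (τ v) (k - 1) - σ v (k - 1) + (csr (τ v) k - σ v k)) /
        (D_FlC_S (csr (τ v) l' - σ v l') * D_FlC_S (σ v l)) := by
    unfold TData.Cr
    rw [if_neg (by rw [hv]; decide), exp_add, exp_sub, exp_sub, exp_add, exp_sub,
      D_FlC_exp t3 t4, D_FlC_exp htwo.1 htwo.2.1, D_FlC_exp hk1.1 hk1.2, D_FlC_exp hk.1 hk.2,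
      D_FlC_exp hl0.1 hl0.2, D_FlC_exp hσ.1 hσ.2, div_div, div_mul_div_comm]
    rw [div_eq_div_iff (mul_ne_zero (mul_ne_zero (mul_ne_zero two_ne_zero nk1)
      (mul_ne_zero two_ne_zero nk)) (mul_ne_zero two_ne_zero np)) (mul_ne_zero nl' np)]
    linear_combination (-8 * D_FlC_S (1 - τ v) *
      D_FlC_S (csr (τ v) (k - 1) - σ v (k - 1) + (csr (τ v) k - σ v k)) * D_FlC_S (σ v l)) * hprod
  rw [hL, ← hid]
  by_cases hF' : T.cor v l' ∈ T.F
  · rw [if_pos hF']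
    have hσ' := hR.sig v l' hF'
    have e1 := hc.sig v l hF hv
    have e2 := hc.sig v l' hF' hv
    have e3 : A (T.cor v l') - A (T.cor v l) =
        (hh (σ v l') - hh (csr (τ v) l' - σ v l')) - (hh (σ v l) - hh (csr (τ v) l - σ v l)) := by
      linear_combination e2 - e1
    rw [e3, exp_sub, exp_sub, exp_sub, D_FlC_exp hσ'.1 hσ'.2, D_FlC_exp hl1.1 hl1.2,
      D_FlC_exp hσ.1 hσ.2, D_FlC_exp hl0.1 hl0.2]
    field_simp
    ring
  · rw [if_neg hF', hc.out v l' hF', D_FlC_zero, mul_zero, zero_add, add_zero]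
    rw [hc.out v l' hF'] at nl'
    exact div_self (mul_ne_zero nl' np)

private theorem D_FlC_cr_end (hN : T.Nice) (hc : CritT T a τ z σ A B) (hR : Reg T τ z σ)
    {η : ℝ} (hs : SReg T η τ z σ) (v : Fin c) (hv : T.isEnd v = true) (k l l' : Fin 4)
    (hl : l = k ∧ l' = k - 1 ∨ l = k - 1 ∧ l' = k) (hF : T.cor v l ∈ T.F) :
    exp (T.Cr τ z σ v k l) =
      1 + (if T.cor v l' ∈ T.F then exp (A (T.cor v l') - A (T.cor v l)) else 0) := by
  obtain ⟨n0, n3, n1, n2⟩ := hN.end0 v hv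
  obtain ⟨t1, t2, t3, t4⟩ := D_FlC_tau_re hR v
  have hS := D_FlC_ne t1 t2
  unfold TData.Cr
  rw [if_pos hv]
  by_cases hk : k = T.one v + 2
  · rw [if_pos hk]
    have hpar : ∀ e o : Fin 4, ((T.one v = 0 ∨ T.one v = 2) ∧ o = T.one v + 1 ∧ e = T.one v + 2 ∨
        (T.one v = 1 ∨ T.one v = 3) ∧ e = T.one v + 1 ∧ o = T.one v + 2) →
        ((l = e ∧ l' = o ∧ ¬ (l = 1 ∨ l = 3)) ∨ (l = o ∧ l' = e ∧ (l = 1 ∨ l = 3))) →
        exp (2 * hh (1 / 2 + z v) - (if l = 1 ∨ l = 3 then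
          hh (τ v - 1 / 2 - z v) + hh (τ v - 1 / 2 + z v) else 2 * hh (1 - τ v))) =
        1 + (if T.cor v l' ∈ T.F then exp (A (T.cor v l') - A (T.cor v l)) else 0) := by
      intro e o h hlo
      have h2 := D_FlC_end2 hN hc hR v hv e o h
      have hb : T.cor v e ∈ T.F ∧ T.cor v o ∈ T.F := by
        rcases h with ⟨-, rfl, rfl⟩ | ⟨-, rfl, rfl⟩
        · exact ⟨n2, n1⟩
        · exact ⟨n1, n2⟩
      rcases hlo with ⟨rfl, rfl, hlp⟩ | ⟨rfl, rfl, hlp⟩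
      · rw [if_neg hlp, if_pos hb.2, exp_sub, D_FlC_half_exp hs, hh_one_sub, D_FlC_T_exp hR]
        have h3 : cos (Real.pi * z v) ^ 2 = D_FlC_S (τ v) ^ 2 *
            (1 + exp (A (T.cor v l') - A (T.cor v l))) := by
          linear_combination -h2
        rw [h3]
        field_simp
      · rw [if_pos hlp, if_pos hb.1, exp_sub, D_FlC_half_exp hs, D_FlC_P_exp hR, ← h2]
        have hE := exp_ne_zero (A (T.cor v l) - A (T.cor v l'))
        have h3 : cos (Real.pi * z v) ^ 2 = D_FlC_S (τ v) ^ 2 *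
            (1 + exp (A (T.cor v l) - A (T.cor v l'))) := by
          linear_combination -h2
        have h4 : exp (A (T.cor v l') - A (T.cor v l)) =
            (exp (A (T.cor v l) - A (T.cor v l')))⁻¹ := by
          rw [← exp_neg, neg_sub]
        rw [h3, h4]
        field_simp
        ring
    have hd1 : ∀ i : Fin 4, (i = 0 ∨ i = 2) ∧ i + 1 = i + 1 ∧ i + 2 = i + 2 ∨
        (i = 1 ∨ i = 3) ∧ i + 1 = i + 1 ∧ i + 2 = i + 2 := by
      decide
    have hd2 : ∀ i : Fin 4, (i = 0 ∨ i = 2) → (¬ (i + 2 = 1 ∨ i + 2 = 3)) ∧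
        (i + 1 = 1 ∨ i + 1 = 3) := by
      decide
    have hd3 : ∀ i : Fin 4, (i = 1 ∨ i = 3) → (¬ (i + 1 = 1 ∨ i + 1 = 3)) ∧
        (i + 2 = 1 ∨ i + 2 = 3) := by
      decide
    have hd4 : ∀ i : Fin 4, i + 2 - 1 = i + 1 := by
      decide
    have hl2 : (l = T.one v + 2 ∧ l' = T.one v + 1) ∨ (l = T.one v + 1 ∧ l' = T.one v + 2) := by
      rcases hl with ⟨h1, h3⟩ | ⟨h1, h3⟩
      · left; rw [h1, h3, hk, hd4]; exact ⟨rfl, rfl⟩
      · right; rw [h1, h3, hk, hd4]; exact ⟨rfl, rfl⟩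
    rcases hd1 (T.one v) with ⟨hi, -, -⟩ | ⟨hi, -, -⟩
    · have hp := hd2 _ hi
      refine hpar (T.one v + 2) (T.one v + 1) (Or.inl ⟨hi, rfl, rfl⟩) ?_
      rcases hl2 with ⟨h1, h3⟩ | ⟨h1, h3⟩
      · left; exact ⟨h1, h3, by rw [h1]; exact hp.1⟩
      · right; exact ⟨h1, h3, by rw [h1]; exact hp.2⟩
    · have hp := hd3 _ hi
      refine hpar (T.one v + 1) (T.one v + 2) (Or.inr ⟨hi, rfl, rfl⟩) ?_
      rcases hl2 with ⟨h1, h3⟩ | ⟨h1, h3⟩
      · right; exact ⟨h1, h3, by rw [h1]; exact hp.2⟩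
      · left; exact ⟨h1, h3, by rw [h1]; exact hp.1⟩
  · rw [if_neg hk, exp_zero, if_neg, add_zero]
    have hl1 : l = T.one v + 1 ∨ l = T.one v + 2 := by
      rcases D_FlC_four (T.one v) l with h | h | h | h
      · exact absurd (h ▸ hF) n0
      · exact absurd (h ▸ hF) n3
      · exact Or.inl h
      · exact Or.inr h
    have hdec : ∀ i : Fin 4, ∀ k l l' : Fin 4, k ≠ i + 2 →
        (l = k ∧ l' = k - 1 ∨ l = k - 1 ∧ l' = k) → (l = i + 1 ∨ l = i + 2) →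
        l' = i ∨ l' = i - 1 := by
      decide
    rcases hdec (T.one v) k l l' hk hl hl1 with h | h
    · rw [h]; exact n0
    · rw [h]; exact n3

private theorem D_FlC_cr (hN : T.Nice) (hc : CritT T a τ z σ A B) (hR : Reg T τ z σ)
    {η : ℝ} (hs : SReg T η τ z σ) (v : Fin c) (k l l' : Fin 4)
    (hl : l = k ∧ l' = k - 1 ∨ l = k - 1 ∧ l' = k) (hF : T.cor v l ∈ T.F) :
    exp (T.Cr τ z σ v k l) =
      1 + (if T.cor v l' ∈ T.F then exp (A (T.cor v l') - A (T.cor v l)) else 0) := by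
  by_cases hv : T.isEnd v = true
  · exact D_FlC_cr_end hN hc hR hs v hv k l l' hl hF
  · exact D_FlC_cr_in hc hR hs v (by simpa using hv) k l l' hl hF

private theorem D_FlC_cr_im {η : ℝ} (hs : SReg T η τ z σ) (v : Fin c) (k l : Fin 4)
    (hF : T.cor v l ∈ T.F) : |(T.Cr τ z σ v k l).im| ≤ 6 * η := by
  have h1 := abs_lt.mp (hs.kap v)
  have h2 := abs_lt.mp (hs.alp v)
  have h3 := abs_lt.mp (hs.zp v)
  have h4 := abs_lt.mp (hs.zm v)
  have h5 := abs_lt.mp (hs.sig v l hF)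
  unfold TData.Cr
  by_cases hv : T.isEnd v = true
  · rw [if_pos hv]
    split_ifs
    · simp only [Complex.sub_im, Complex.add_im, two_mul]
      rw [abs_le]
      constructor <;> linarith [h1.1, h1.2]
    · simp only [Complex.sub_im, Complex.add_im, two_mul]
      rw [abs_le]
      constructor <;> linarith [h1.1, h1.2]
    · rw [Complex.zero_im, abs_zero]
      linarith [h1.1, h1.2]
  · rw [if_neg hv]
    have hv' : T.isEnd v = false := by simpa using hv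
    have h6 := abs_lt.mp (hs.the v (k - 1) hv')
    have h7 := abs_lt.mp (hs.the v k hv')
    have h8 := abs_lt.mp (hs.the v l hv')
    have h9 := abs_lt.mp (hs.two v k hv').2.2
    simp only [Complex.sub_im, Complex.add_im] at h6 h7 h8 h9 ⊢
    rw [abs_le]
    constructor <;> linarith [h1.1, h1.2]

theorem cr_eq (hT : T.Of w) (hG : T.Good) (hN : T.Nice) (hc : CritT T a τ z σ A B)
    (hR : Reg T τ z σ) {η : ℝ} (hη : η ≤ 1 / 10) (hs : SReg T η τ z σ) {p q : Fin c × Fin 4}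
    (h : Mate T.leg p q) (hq : T.cor q.1 q.2 ∈ T.F) :
    T.Cr τ z σ p.1 p.2 (p.2 - 1) = T.Cr τ z σ q.1 q.2 q.2 := by
  have hF : T.cor p.1 (p.2 - 1) = T.cor q.1 q.2 := (adj hT hG ⟨h.1.symm, h.2.symm⟩).1 hq
  have hF' : T.cor p.1 (p.2 - 1) ∈ T.F := by rw [hF]; exact hq
  have h1 := D_FlC_cr hN hc hR hs p.1 p.2 (p.2 - 1) p.2 (Or.inr ⟨rfl, rfl⟩) hF'
  have h2 := D_FlC_cr hN hc hR hs q.1 q.2 q.2 (q.2 - 1) (Or.inl ⟨rfl, rfl⟩) hq
  have h3 := D_FlC_cr_im hs p.1 p.2 (p.2 - 1) hF'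
  have h4 := D_FlC_cr_im hs q.1 q.2 q.2 hq
  have had := adj hT hG h
  apply D_FlC_log_eq
  · rw [h1, h2, hF]
    by_cases hb : T.cor p.1 p.2 ∈ T.F
    · have e := had.1 hb
      rw [if_pos hb, e, if_pos hb]
    · have hb' : T.cor q.1 (q.2 - 1) ∉ T.F := by
        intro hb'
        apply hb
        rw [← had.2 hb']
        exact hb'
      rw [if_neg hb, if_neg hb']
  · have hp := Real.pi_gt_three
    rw [abs_le] at h3 h4
    rw [abs_lt]
    constructor <;> linarith [h3.1, h3.2, h4.1, h4.2]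

theorem ptol (hc : CritT T a τ z σ A B) (hR : Reg T τ z σ) {η : ℝ} (hη : η ≤ 1 / 10)
    (hs : SReg T η τ z σ) (v : Fin c) (hv : T.isEnd v = false) :
    2 * hh (1 / 2 + z v) + hh (csr (τ v) 1 - σ v 1) + hh (csr (τ v) 3 - σ v 3) =
      2 * hh (1 - τ v) + hh (csr (τ v) 0 - σ v 0 + (csr (τ v) 1 - σ v 1)) +
        hh (csr (τ v) 1 - σ v 1 + (csr (τ v) 2 - σ v 2)) := by
  have hθ := fun k => hR.the v k hv
  have w1 := hs.two v 1 hv
  have w2 := hs.two v 2 hv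
  change 0 < (csr (τ v) 0 - σ v 0 + (csr (τ v) 1 - σ v 1)).re ∧
    (csr (τ v) 0 - σ v 0 + (csr (τ v) 1 - σ v 1)).re < 1 ∧
    |(hh (csr (τ v) 0 - σ v 0 + (csr (τ v) 1 - σ v 1))).im| < η at w1
  change 0 < (csr (τ v) 1 - σ v 1 + (csr (τ v) 2 - σ v 2)).re ∧
    (csr (τ v) 1 - σ v 1 + (csr (τ v) 2 - σ v 2)).re < 1 ∧
    |(hh (csr (τ v) 1 - σ v 1 + (csr (τ v) 2 - σ v 2))).im| < η at w2
  obtain ⟨t1, t2, t3, t4⟩ := D_FlC_tau_re hR v
  apply D_FlC_log_eq
  · have e0 := hc.tau v hv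
    have e1 : hh (csr (τ v) 1 - σ v 1) + hh (csr (τ v) 3 - σ v 3) +
        (hh (τ v - 1 / 2 - z v) + hh (τ v - 1 / 2 + z v)) =
        hh (csr (τ v) 0 - σ v 0) + hh (csr (τ v) 2 - σ v 2) + 2 * hh (τ v) := by
      linear_combination e0
    have e2 := congrArg exp e1
    rw [exp_add, exp_add, D_FlC_P_exp hR, exp_add, exp_add, D_FlC_T_exp hR,
      D_FlC_exp (hθ 0).1 (hθ 0).2, D_FlC_exp (hθ 1).1 (hθ 1).2, D_FlC_exp (hθ 2).1 (hθ 2).2,
      D_FlC_exp (hθ 3).1 (hθ 3).2] at e2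
    have e3 : csr (τ v) 3 - σ v 3 = 1 - ((csr (τ v) 0 - σ v 0) + (csr (τ v) 1 - σ v 1) +
        (csr (τ v) 2 - σ v 2)) := by
      have h1 := hc.sumv v
      rw [Fin.sum_univ_four] at h1
      have c0 : csr (τ v) 0 = 1 - τ v := rfl
      have c1 : csr (τ v) 1 = τ v := rfl
      have c2 : csr (τ v) 2 = 1 - τ v := rfl
      have c3 : csr (τ v) 3 = τ v := rfl
      rw [c0, c1, c2, c3]
      linear_combination -h1
    have e4 := D_FlC_pto (csr (τ v) 0 - σ v 0) (csr (τ v) 1 - σ v 1) (csr (τ v) 2 - σ v 2)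
    have e5 : D_FlC_S (csr (τ v) 3 - σ v 3) = D_FlC_S ((csr (τ v) 0 - σ v 0) +
        (csr (τ v) 1 - σ v 1) + (csr (τ v) 2 - σ v 2)) := by
      rw [e3, D_FlC_one_sub]
    rw [← e5] at e4
    rw [exp_add, exp_add, D_FlC_half_exp hs, exp_add, exp_add, hh_one_sub, D_FlC_T_exp hR,
      D_FlC_exp (hθ 1).1 (hθ 1).2, D_FlC_exp (hθ 3).1 (hθ 3).2, D_FlC_exp w1.1 w1.2.1,
      D_FlC_exp w2.1 w2.2.1]
    linear_combination e2 - 16 * D_FlC_S (τ v) ^ 2 * e4
  · have hp := Real.pi_gt_three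
    have h1 := abs_lt.mp (hs.kap v)
    have h2 := abs_lt.mp (hs.alp v)
    have h3 := abs_lt.mp (hs.the v 1 hv)
    have h4 := abs_lt.mp (hs.the v 3 hv)
    have h5 := abs_lt.mp w1.2.2
    have h6 := abs_lt.mp w2.2.2
    simp only [Complex.add_im, two_mul]
    rw [abs_lt]
    constructor <;> linarith [h1.1, h1.2, h2.1, h2.2, h3.1, h3.2, h4.1, h4.2, h5.1, h5.2, h6.1,
      h6.2]

theorem end_log (hN : T.Nice) (hc : CritT T a τ z σ A B) (hR : Reg T τ z σ) {η : ℝ}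
    (hs : SReg T η τ z σ) (v : Fin c) (hv : T.isEnd v = true) (o : Fin 4)
    (ho : (T.one v = 0 ∨ T.one v = 2) ∧ o = T.one v + 1 ∨
      (T.one v = 1 ∨ T.one v = 3) ∧ o = T.one v + 2) :
    exp (2 * hh (1 / 2 + z v) - A (T.cor v o)) = 4 * (sin (Real.pi * τ v) ^ 2 *
      (exp (-A (T.cor v (T.one v + 1))) + exp (-A (T.cor v (T.one v + 2))))) := by
  have key : ∀ e : Fin 4, ((T.one v = 0 ∨ T.one v = 2) ∧ o = T.one v + 1 ∧ e = T.one v + 2 ∨
      (T.one v = 1 ∨ T.one v = 3) ∧ e = T.one v + 1 ∧ o = T.one v + 2) →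
      exp (2 * hh (1 / 2 + z v) - A (T.cor v o)) = 4 * (sin (Real.pi * τ v) ^ 2 *
        (exp (-A (T.cor v e)) + exp (-A (T.cor v o)))) := by
    intro e h
    have h2 := D_FlC_end2 hN hc hR v hv e o h
    have h3 : exp (-A (T.cor v e)) =
        exp (A (T.cor v o) - A (T.cor v e)) * exp (-A (T.cor v o)) := by
      rw [← exp_add]
      congr 1
      ring
    rw [sub_eq_add_neg, exp_add, D_FlC_half_exp hs, h3]
    change _ = 4 * (D_FlC_S (τ v) ^ 2 * _)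
    linear_combination (-4 * exp (-A (T.cor v o))) * h2
  rcases ho with ⟨h1, rfl⟩ | ⟨h1, rfl⟩
  · rw [key (T.one v + 2) (Or.inl ⟨h1, rfl, rfl⟩), add_comm (exp (-A (T.cor v (T.one v + 2))))]
  · exact key (T.one v + 1) (Or.inr ⟨h1, rfl, rfl⟩)

end Pool.Agent.H63.CLK
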