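import Pool.Agent.H63.CLK.D_FlG
import Pool.Agent.H63.CLK.D_FlC

set_option autoImplicit false

/-!
# CLK part D, D_FlE: the ends of the strands and the longitude equations

Notation of D_FlG. With the sign `s` (`x v k = fl … s`): `chd 0 = π i (κ° + t°0) + s (H_+ - H_α + H_δ - H_{t1})`, `chd 1 = π i (-κ° + z° + t°1) + s (H_α - H_κ + H_{t0} - H_δ)`,
`chd 2 = π i (κ° + t°2) + s (H_- - H_α + H_δ - H_{t3})`, `chd 3 = π i (-κ° - z° + t°3) + s (H_α - H_κ + H_{t2} - H_δ)`, `spk = (π i z° + s (H_- - H_κ), -π i z° + s (H_κ - H_+), -π i z° + s (H_+ - H_κ),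
π i z° + s (H_κ - H_-))` (`H_κ = hh (1-τ)`, `H_α = hh (1/2 ± zf) + π i (1-m)/2`, `H_δ = hh (t0 + t1) + π i xib (b 0) (b 2)`, `hh (t2 + t3) = hh (t0 + t1)`). At an end (`x 1 = x 2 = 0`):
`chd 1 = π i (-κ° + z°) + s (H_α - H_κ)`, `chd 2 + spk 2 = π i (κ° - z°) + s (H_+ + H_- - H_α - H_κ)`, `chd 2 + spk 3 = π i (κ° + z°) + s (H_κ - H_α)`.
`ent_exit`, `ent_entry`: cases over `one v` and `k`; `s = eps v` for `x`, `-eps v` for `x'`. Leg `a_2`: `Cr = H_κ + H_δ - …` directly; legs `a_1`, `a_3`: use `ptol` (`θ_1`, `θ_3` are `t0`, `t2` in some order, `θ_{k-1} + θ_k` at `a_1`, `a_3` are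
`t1 + t2`, `t3 + t0`, complementary, `hh_one_sub`) and `CritT.tau`; at ends `CritT.fin` and `Cr` by definition. The integers: identities in the four bits `b j = T.Nj N v j` with `nj_even`, `nj_odd` (at ends
`b 0 = false`), e.g. leg `a_2`: `laB 1 = (1 - m)/2 - xib (b 0) (b 2) + xiB 0 + xiB 1 + bt (b 1)`. These identities were checked numerically.
`lon_fpar`: `hol = ent_exit p + ent_entry q - fpls q = gpot q - gpot p + Cr p - Cr q`, `cr_eq`, and `N (leg p) = N (leg q)`; for `x'` the same with the signs as stated.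
`pass_fpar`: cases over `one v` and `k`; even: `a_1 ↔ a_2`, `a_3 ↔ a_4`, same signs, `laB` constant; odd: `a_1 ↔ a_3`, `a_2 ↔ a_4`, opposite signs.
-/

namespace Pool.Agent.H63.CLK

open Pool.Agent.H63.VC hiding ext
open Pool.Agent.H63.VC3 Pool.Agent.H63.VC7.Hyp Complex

variable {c : ℕ} {w : List TPiece} {T : TData c} {a : Fin c → ℤ} {N : ℕ → Bool}
  {X : Fin c → Fin 4} {τ z : Fin c → ℂ} {σ : Fin c → Fin 4 → ℂ} {A : ℕ → ℂ} {B : Fin c → ℂ}

private theorem D_FlE_h (z : ℂ) : hh (1 / 2 - z) = hh (1 / 2 + z) := by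
  rw [← hh_one_sub]
  congr 1
  ring

/-- The identities in the bits at a twist region. -/
private theorem D_FlE_bits (tv : ℂ) (a : ℤ) (b : Fin 4 → Bool)
    (he : Even a → b 0 = b 1 ∧ b 2 = b 3) (ho : Odd a → b 0 = !b 2 ∧ b 1 = !b 3) :
    ((1 - mB a b) / 2 + xiB b 2 - xib (b 0) (b 2) = xiB b 3 + bt (b 0) - laB a b 0 ∧
      -((1 - mB a b) / 2) + xib (b 0) (b 2) - xiB b 1 = xiB b 0 + bt (b 1) - laB a b 1 ∧
      (1 - mB a b) / 2 + xiB b 0 - xib (b 0) (b 2) = xiB b 1 + bt (b 2) - laB a b 2 ∧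
      -((1 - mB a b) / 2) + xib (b 0) (b 2) - xiB b 3 = xiB b 2 + bt (b 3) - laB a b 3) ∧
    (gpB tv a b + gmB tv a b - (1 - mB a b) / 2 + xib (b 0) (b 2) - xiB b 1 =
        laB a b 0 - xiB b 0 - bt (b 0) ∧
      (1 - mB a b) / 2 + xiB b 0 - xib (b 0) (b 2) = laB a b 1 - xiB b 1 - bt (b 1) ∧
      gpB tv a b + gmB tv a b - (1 - mB a b) / 2 + xib (b 0) (b 2) - xiB b 3 =
        laB a b 2 - xiB b 2 - bt (b 2) ∧
      (1 - mB a b) / 2 + xiB b 2 - xib (b 0) (b 2) = laB a b 3 - xiB b 3 - bt (b 3)) := by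
  have e1 : (1 : Fin 4) + 1 = 2 := rfl
  have e2 : (2 : Fin 4) + 1 = 3 := rfl
  have e3 : (3 : Fin 4) + 1 = 0 := rfl
  have e0 : (0 : Fin 4) + 1 = 1 := rfl
  have hg : gpB tv a b + gmB tv a b = 2 * (nh (b 1) (b 2) - nh (b 0) (b 1)) := by
    unfold gpB gmB
    ring
  rw [hg]
  rcases Int.even_or_odd a with h | h
  · obtain ⟨h1, h2⟩ := he h
    have hno : ¬ Odd a := Int.not_odd_iff_even.2 h
    simp only [mB, laB, xiB, e0, e1, e2, e3, h, if_true, hno, false_or, ← h1, ← h2]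
    generalize b 0 = x
    generalize b 2 = y
    cases x <;> cases y <;> simp [xib, bt, nh] <;> norm_num
  · obtain ⟨h1, h2⟩ := ho h
    have hne : ¬ Even a := Int.not_even_iff_odd.2 h
    have h3 : b 2 = !b 0 := by rw [h1, Bool.not_not]
    have h4 : b 3 = !b 1 := by rw [h2, Bool.not_not]
    simp only [mB, laB, xiB, e0, e1, e2, e3, h, hne, if_false, true_or, if_true, h3, h4]
    generalize b 0 = x
    generalize b 1 = y
    cases x <;> cases y <;> simp [xib, bt, nh]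

/-- The parameters at a twist region. -/
private noncomputable def D_FlE_x (κ ζ κ' ζ' : ℂ) (t t' : Fin 4 → ℂ) (tv : ℂ) (a : ℤ)
    (b : Fin 4 → Bool) (s : ℂ) (e : Bool) (k : Fin 4) : Fin 3 → ℂ :=
  if e = true ∧ (k = 1 ∨ k = 2) then 0 else
  fl ![oa κ ζ t k, ob κ ζ t k, oc κ ζ t k] ![oa κ' ζ' t' k, ob κ' ζ' t' k, oc κ' ζ' t' k]
    (HvB tv a b k) s

section core

variable (κ ζ κ' ζ' : ℂ) (t t' : Fin 4 → ℂ) (tv : ℂ) (a : ℤ) (b : Fin 4 → Bool) (s : ℂ)

private theorem D_FlE_spk (e : Bool) :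
    spk (D_FlE_x κ ζ κ' ζ' t t' tv a b s e) 0 = Real.pi * I * (ζ - ζ') +
      s * ((hh (1 / 2 - κ - ζ) + Real.pi * I * gmB tv a b) - hh κ) ∧
    spk (D_FlE_x κ ζ κ' ζ' t t' tv a b s e) 1 = -(Real.pi * I * (ζ - ζ')) +
      s * (hh κ - (hh (1 / 2 - κ + ζ) + Real.pi * I * gpB tv a b)) ∧
    spk (D_FlE_x κ ζ κ' ζ' t t' tv a b s e) 2 = -(Real.pi * I * (ζ - ζ')) +
      s * ((hh (1 / 2 - κ + ζ) + Real.pi * I * gpB tv a b) - hh κ) ∧
    spk (D_FlE_x κ ζ κ' ζ' t t' tv a b s e) 3 = Real.pi * I * (ζ - ζ') +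
      s * (hh κ - (hh (1 / 2 - κ - ζ) + Real.pi * I * gmB tv a b)) := by
  have h := D_FlE_h ζ
  rw [one_div] at h
  refine ⟨?_, ?_, ?_, ?_⟩ <;>
  · simp [spk, D_FlE_x, fl, oa, ob, oc, HvB, h]
    try ring

private theorem D_FlE_chd : 
    chd (D_FlE_x κ ζ κ' ζ' t t' tv a b s false) 0 =
      Real.pi * I * ((κ - κ') + (t 0 - t' 0)) +
      s * ((hh (1 / 2 - κ + ζ) + Real.pi * I * gpB tv a b) -
        (hh (1 / 2 + ζ) + Real.pi * I * ((1 - mB a b) / 2)) +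
        (hh (t 2 + t 3) + Real.pi * I * xib (b 0) (b 2)) - (hh (t 1) + Real.pi * I * xiB b 1)) ∧
    chd (D_FlE_x κ ζ κ' ζ' t t' tv a b s false) 1 =
      Real.pi * I * (-(κ - κ') + (ζ - ζ') + (t 1 - t' 1)) +
      s * ((hh (1 / 2 + ζ) + Real.pi * I * ((1 - mB a b) / 2)) - hh κ +
        (hh (t 0) + Real.pi * I * xiB b 0) - (hh (t 2 + t 3) + Real.pi * I * xib (b 0) (b 2))) ∧
    chd (D_FlE_x κ ζ κ' ζ' t t' tv a b s false) 2 =
      Real.pi * I * ((κ - κ') + (t 2 - t' 2)) +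
      s * ((hh (1 / 2 - κ - ζ) + Real.pi * I * gmB tv a b) -
        (hh (1 / 2 + ζ) + Real.pi * I * ((1 - mB a b) / 2)) +
        (hh (t 0 + t 1) + Real.pi * I * xib (b 0) (b 2)) - (hh (t 3) + Real.pi * I * xiB b 3)) ∧
    chd (D_FlE_x κ ζ κ' ζ' t t' tv a b s false) 3 =
      Real.pi * I * (-(κ - κ') - (ζ - ζ') + (t 3 - t' 3)) +
      s * ((hh (1 / 2 + ζ) + Real.pi * I * ((1 - mB a b) / 2)) - hh κ +
        (hh (t 2) + Real.pi * I * xiB b 2) - (hh (t 0 + t 1) + Real.pi * I * xib (b 0) (b 2))) := by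
  have h := D_FlE_h ζ
  rw [one_div] at h
  refine ⟨?_, ?_, ?_, ?_⟩ <;>
  · simp [chd, D_FlE_x, fl, oa, ob, oc, HvB, h]
    try ring

private theorem D_FlE_chdE : 
    chd (D_FlE_x κ ζ κ' ζ' t t' tv a b s true) 1 =
      Real.pi * I * (-(κ - κ') + (ζ - ζ')) +
      s * ((hh (1 / 2 + ζ) + Real.pi * I * ((1 - mB a b) / 2)) - hh κ) ∧
    chd (D_FlE_x κ ζ κ' ζ' t t' tv a b s true) 2 =
      Real.pi * I * (κ - κ') +
      s * ((hh (1 / 2 - κ - ζ) + Real.pi * I * gmB tv a b) -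
        (hh (1 / 2 + ζ) + Real.pi * I * ((1 - mB a b) / 2))) := by
  have h := D_FlE_h ζ
  rw [one_div] at h
  refine ⟨?_, ?_⟩ <;>
  · simp [chd, D_FlE_x, fl, oa, ob, oc, HvB, h]
    try ring

end core

section core2

variable (κ ζ κ' ζ' : ℂ) (t t' : Fin 4 → ℂ) (tv : ℂ) (a : ℤ) (b : Fin 4 → Bool) (s : ℂ)
  (S : Fin 4 → ℂ)

private theorem D_FlE_C (he : Even a → b 0 = b 1 ∧ b 2 = b 3)
    (ho : Odd a → b 0 = !b 2 ∧ b 1 = !b 3) (ht : t 0 + t 1 + t 2 + t 3 = 1)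
    (hP : 2 * hh (1 / 2 + ζ) + hh (t 0) + hh (t 2) = 2 * hh κ + hh (t 0 + t 1) + hh (t 3 + t 0))
    (hT : hh (t 0) + hh (t 2) - hh (t 1) - hh (t 3) + hh (1 / 2 - κ + ζ) + hh (1 / 2 - κ - ζ) -
      2 * hh κ = 0)
    (hS : ∀ j, t j - t' j = (if j = 0 ∨ j = 2 then -(κ - κ') else κ - κ') - S j) (j : Fin 4) :
    chd (D_FlE_x κ ζ κ' ζ' t t' tv a b s false) (j - 1) +
      (if j = 1 ∨ j = 3 then spk (D_FlE_x κ ζ κ' ζ' t t' tv a b s false) j else 0) =
      Real.pi * I * (-S (j - 1) - (if j = 0 ∨ j = 1 then 1 else -1) * (ζ - ζ')) +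
      s * (hh κ + hh (t (j - 1) + t j) - hh (t j) - hh (1 / 2 + ζ) +
        Real.pi * I * (xiB b (j - 1) + bt (b j) - laB a b j)) := by
  obtain ⟨⟨o0, o1, o2, o3⟩, -⟩ := D_FlE_bits tv a b he ho
  obtain ⟨c0, c1, c2, c3⟩ := D_FlE_chd κ ζ κ' ζ' t t' tv a b s
  obtain ⟨s0, s1, s2, s3⟩ := D_FlE_spk κ ζ κ' ζ' t t' tv a b s false
  have h23 : hh (t 2 + t 3) = hh (t 0 + t 1) := by
    rw [← hh_one_sub]
    congr 1
    linear_combination -ht
  have h12 : hh (t 1 + t 2) = hh (t 3 + t 0) := by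
    rw [← hh_one_sub]
    congr 1
    linear_combination -ht
  have g0 := hS 0
  have g1 := hS 1
  have g2 := hS 2
  have g3 := hS 3
  rw [if_pos (by decide)] at g0 g2
  rw [if_neg (by decide)] at g1 g3
  have e0 : (0 : Fin 4) - 1 = 3 := rfl
  have e1 : (1 : Fin 4) - 1 = 0 := rfl
  have e2 : (2 : Fin 4) - 1 = 1 := rfl
  have e3 : (3 : Fin 4) - 1 = 2 := rfl
  have hj : j = 0 ∨ j = 1 ∨ j = 2 ∨ j = 3 := by fin_cases j <;> simp
  rcases hj with rfl | rfl | rfl | rfl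
  · rw [e0, c3, if_neg (by decide), if_pos (by decide)]
    linear_combination s * hP + s * (Real.pi * I) * o0 + Real.pi * I * g3
  · rw [e1, c0, s1, if_pos (by decide), if_pos (by decide)]
    linear_combination s * h23 + s * (Real.pi * I) * o1 + Real.pi * I * g0
  · rw [e2, c1, if_neg (by decide), if_neg (by decide)]
    linear_combination s * (hP - h23 - h12) + s * (Real.pi * I) * o2 + Real.pi * I * g1
  · rw [e3, c2, s3, if_pos (by decide), if_neg (by decide)]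
    linear_combination -s * h23 + s * (Real.pi * I) * o3 + Real.pi * I * g2

private theorem D_FlE_D (he : Even a → b 0 = b 1 ∧ b 2 = b 3)
    (ho : Odd a → b 0 = !b 2 ∧ b 1 = !b 3) (ht : t 0 + t 1 + t 2 + t 3 = 1)
    (hP : 2 * hh (1 / 2 + ζ) + hh (t 0) + hh (t 2) = 2 * hh κ + hh (t 0 + t 1) + hh (t 3 + t 0))
    (hT : hh (t 0) + hh (t 2) - hh (t 1) - hh (t 3) + hh (1 / 2 - κ + ζ) + hh (1 / 2 - κ - ζ) -
      2 * hh κ = 0)
    (hS : ∀ j, t j - t' j = (if j = 0 ∨ j = 2 then -(κ - κ') else κ - κ') - S j) (j : Fin 4) :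
    chd (D_FlE_x κ ζ κ' ζ' t t' tv a b s false) j +
      (if j = 0 ∨ j = 2 then spk (D_FlE_x κ ζ κ' ζ' t t' tv a b s false) j else 0) =
      Real.pi * I * (-S j + (if j = 0 ∨ j = 1 then 1 else -1) * (ζ - ζ')) -
      s * (hh κ + hh (t (j - 1) + t j) - hh (t (j - 1)) - hh (1 / 2 + ζ) +
        Real.pi * I * (xiB b j + bt (b j) - laB a b j)) := by
  obtain ⟨-, o0, o1, o2, o3⟩ := D_FlE_bits tv a b he ho
  obtain ⟨c0, c1, c2, c3⟩ := D_FlE_chd κ ζ κ' ζ' t t' tv a b s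
  obtain ⟨s0, s1, s2, s3⟩ := D_FlE_spk κ ζ κ' ζ' t t' tv a b s false
  have h23 : hh (t 2 + t 3) = hh (t 0 + t 1) := by
    rw [← hh_one_sub]
    congr 1
    linear_combination -ht
  have h12 : hh (t 1 + t 2) = hh (t 3 + t 0) := by
    rw [← hh_one_sub]
    congr 1
    linear_combination -ht
  have g0 := hS 0
  have g1 := hS 1
  have g2 := hS 2
  have g3 := hS 3
  rw [if_pos (by decide)] at g0 g2
  rw [if_neg (by decide)] at g1 g3
  have e0 : (0 : Fin 4) - 1 = 3 := rfl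
  have e1 : (1 : Fin 4) - 1 = 0 := rfl
  have e2 : (2 : Fin 4) - 1 = 1 := rfl
  have e3 : (3 : Fin 4) - 1 = 2 := rfl
  have hj : j = 0 ∨ j = 1 ∨ j = 2 ∨ j = 3 := by fin_cases j <;> simp
  rcases hj with rfl | rfl | rfl | rfl
  · rw [e0, c0, s0, if_pos (by decide), if_pos (by decide)]
    linear_combination s * (hT - hP + h23) + s * (Real.pi * I) * o0 + Real.pi * I * g0
  · rw [e1, c1, if_neg (by decide), if_pos (by decide)]
    linear_combination -s * h23 + s * (Real.pi * I) * o1 + Real.pi * I * g1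
  · rw [e2, c2, s2, if_pos (by decide), if_neg (by decide)]
    linear_combination s * (hT - hP + h12) + s * (Real.pi * I) * o2 + Real.pi * I * g2
  · rw [e3, c3, if_neg (by decide), if_neg (by decide)]
    linear_combination s * h23 + s * (Real.pi * I) * o3 + Real.pi * I * g3

private theorem D_FlE_xib_false (x : Bool) : xib false x = 0 ∧ xib x false = 0 := by
  cases x <;> simp [xib]

private theorem D_FlE_CE (he : Even a → b 0 = b 1 ∧ b 2 = b 3)
    (ho : Odd a → b 0 = !b 2 ∧ b 1 = !b 3) (hb : b 0 = false) (hS1 : S 1 = κ - κ')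
    (hS2 : S 2 = -(κ - κ')) :
    (chd (D_FlE_x κ ζ κ' ζ' t t' tv a b s true) 1 =
      Real.pi * I * (-S 1 + (ζ - ζ')) +
      s * ((2 * hh (1 / 2 + ζ) - hh κ) - hh (1 / 2 + ζ) +
        Real.pi * I * (xiB b 1 + bt (b 2) - laB a b 2)) ∧
    chd (D_FlE_x κ ζ κ' ζ' t t' tv a b s true) 2 + spk (D_FlE_x κ ζ κ' ζ' t t' tv a b s true) 3 =
      Real.pi * I * (-S 2 + (ζ - ζ')) +
      s * (hh κ - hh (1 / 2 + ζ) + Real.pi * I * (xiB b 2 + bt (b 3) - laB a b 3))) ∧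
    (chd (D_FlE_x κ ζ κ' ζ' t t' tv a b s true) 1 =
      Real.pi * I * (-S 1 + (ζ - ζ')) -
      s * (hh κ - hh (1 / 2 + ζ) + Real.pi * I * (xiB b 1 + bt (b 1) - laB a b 1)) ∧
    chd (D_FlE_x κ ζ κ' ζ' t t' tv a b s true) 2 + spk (D_FlE_x κ ζ κ' ζ' t t' tv a b s true) 2 =
      Real.pi * I * (-S 2 - (ζ - ζ')) -
      s * ((2 * hh (1 / 2 + ζ) + hh κ - hh (1 / 2 - κ + ζ) - hh (1 / 2 - κ - ζ)) -
        hh (1 / 2 + ζ) + Real.pi * I * (xiB b 2 + bt (b 2) - laB a b 2))) := by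
  obtain ⟨⟨o0, o1, o2, o3⟩, e0, e1, e2, e3⟩ := D_FlE_bits tv a b he ho
  obtain ⟨c1, c2⟩ := D_FlE_chdE κ ζ κ' ζ' t t' tv a b s
  obtain ⟨s0, s1, s2, s3⟩ := D_FlE_spk κ ζ κ' ζ' t t' tv a b s true
  have x0 : xiB b 0 = 0 := by
    unfold xiB
    rw [hb]
    exact (D_FlE_xib_false _).1
  have x3 : xiB b 3 = 0 := by
    have : xiB b 3 = xib (b 3) (b 0) := rfl
    rw [this, hb]
    exact (D_FlE_xib_false _).2
  have x02 : xib (b 0) (b 2) = 0 := by
    rw [hb]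
    exact (D_FlE_xib_false _).1
  rw [x0, x02] at o2
  rw [x3, x02] at o3
  rw [x0, x02] at e1
  rw [x3, x02] at e2
  rw [c1, c2, s2, s3, hS1, hS2]
  refine ⟨⟨?_, ?_⟩, ?_, ?_⟩
  · linear_combination s * (Real.pi * I) * o2
  · linear_combination s * (Real.pi * I) * o3
  · linear_combination s * (Real.pi * I) * e1
  · linear_combination s * (Real.pi * I) * e2

end core2

private theorem D_FlE_cna1 (i k j : Fin 4) :
    (cna i j = k - 1) = (j = if i = 1 ∨ i = 3 then lgi i k - 1 else lgi i k) := by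
  unfold cna lgi
  revert i k j
  decide

private theorem D_FlE_cna2 (i k j : Fin 4) :
    (cna i j = k) = (j = if i = 1 ∨ i = 3 then lgi i k else lgi i k - 1) := by
  unfold cna lgi
  revert i k j
  decide

private theorem D_FlE_lga (i k j : Fin 4) : (lga i j = k) = (j = lgi i k) := by
  unfold lga lgi
  revert i k j
  decide

private theorem D_FlE_par1 (i k : Fin 4) : (k - 1 = 1 ∨ k - 1 = 3) =
    if i = 1 ∨ i = 3 then (lgi i k = 1 ∨ lgi i k = 3) else (lgi i k = 0 ∨ lgi i k = 2) := by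
  unfold lgi
  revert i k
  decide

private theorem D_FlE_par2 (i k : Fin 4) : (k = 1 ∨ k = 3) =
    if i = 1 ∨ i = 3 then (lgi i k = 0 ∨ lgi i k = 2) else (lgi i k = 1 ∨ lgi i k = 3) := by
  unfold lgi
  revert i k
  decide

private theorem D_FlE_c1 (i k : Fin 4) :
    cna i (lgi i k) = if i = 1 ∨ i = 3 then k else k - 1 := by
  unfold cna lgi
  revert i k
  decide

private theorem D_FlE_c2 (i k : Fin 4) :
    cna i (lgi i k - 1) = if i = 1 ∨ i = 3 then k - 1 else k := by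
  unfold cna lgi
  revert i k
  decide

private theorem D_FlE_l0 (i k : Fin 4) : lga i (lgi i k) = k := by
  unfold lga lgi
  revert i k
  decide

private theorem D_FlE_l1 (i k : Fin 4) :
    lga i (lgi i k + 1) = if i = 1 ∨ i = 3 then k + 1 else k - 1 := by
  unfold lga lgi
  revert i k
  decide

private theorem D_FlE_l2 (i k : Fin 4) :
    lga i (lgi i k - 1) = if i = 1 ∨ i = 3 then k - 1 else k + 1 := by
  unfold lga lgi
  revert i k
  decide

private theorem D_FlE_l3 (k : Fin 4) : k - 1 + 1 = k := by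
  revert k
  decide

private theorem D_FlE_xibs (x y : Bool) : xib x y = xib y x := by
  cases x <;> cases y <;> simp [xib]

private theorem D_FlE_xi1 (v : Fin c) (k : Fin 4) : xiB (T.Nj N v) (lgi (T.one v) k) =
    if T.one v = 1 ∨ T.one v = 3 then T.xi N v k else T.xi N v (k - 1) := by
  unfold xiB TData.Nj TData.xi
  rw [D_FlE_l0, D_FlE_l1, D_FlE_l3]
  split_ifs
  · rfl
  · exact D_FlE_xibs _ _

private theorem D_FlE_xi2 (v : Fin c) (k : Fin 4) : xiB (T.Nj N v) (lgi (T.one v) k - 1) =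
    if T.one v = 1 ∨ T.one v = 3 then T.xi N v (k - 1) else T.xi N v k := by
  unfold xiB TData.Nj TData.xi
  rw [D_FlE_l3, D_FlE_l0, D_FlE_l2, D_FlE_l3]
  split_ifs
  · rfl
  · exact D_FlE_xibs _ _

private theorem D_FlE_Nj (v : Fin c) (k : Fin 4) :
    T.Nj N v (lgi (T.one v) k) = N (T.leg v k) := by
  unfold TData.Nj
  rw [D_FlE_l0]

private theorem D_FlE_csr (x : ℂ) (i j : Fin 4) :
    csr x (cna i j) = if j = 0 ∨ j = 2 then x else 1 - x := by
  revert i j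
  intro i j
  fin_cases i <;> fin_cases j <;> rfl

private theorem D_FlE_sumc (s : Fin 4 → ℂ) (i : Fin 4) :
    s (cna i 0) + s (cna i 1) + s (cna i 2) + s (cna i 3) = ∑ k, s k := by
  rw [Fin.sum_univ_four]
  fin_cases i
  · change s 3 + s 2 + s 1 + s 0 = _
    ring
  · change s 1 + s 2 + s 3 + s 0 = _
    ring
  · change s 1 + s 0 + s 3 + s 2 = _
    ring
  · change s 3 + s 0 + s 1 + s 2 = _
    ring

private theorem D_FlE_zf (v : Fin c) : hh (1 / 2 + T.zf z v) = hh (1 / 2 + z v) := by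
  unfold TData.zf
  split_ifs
  · rfl
  · rw [← sub_eq_add_neg, D_FlE_h]

private theorem D_FlE_zpm (v : Fin c) :
    hh (1 / 2 - (1 - τ v) + T.zf z v) + hh (1 / 2 - (1 - τ v) - T.zf z v) =
      hh (τ v - 1 / 2 - z v) + hh (τ v - 1 / 2 + z v) := by
  unfold TData.zf
  split_ifs
  · rw [show (1 : ℂ) / 2 - (1 - τ v) + z v = τ v - 1 / 2 + z v by ring,
      show (1 : ℂ) / 2 - (1 - τ v) - z v = τ v - 1 / 2 - z v by ring, add_comm]
  · rw [show (1 : ℂ) / 2 - (1 - τ v) + -z v = τ v - 1 / 2 - z v by ring,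
      show (1 : ℂ) / 2 - (1 - τ v) - -z v = τ v - 1 / 2 + z v by ring]

private theorem D_FlE_tsum (hs : ∀ v, ∑ k, σ v k = 1) (v : Fin c) :
    T.tt τ σ v 0 + T.tt τ σ v 1 + T.tt τ σ v 2 + T.tt τ σ v 3 = 1 := by
  have h1 := D_FlE_sumc (σ v) (T.one v)
  rw [hs v] at h1
  unfold TData.tt
  rw [D_FlE_csr, D_FlE_csr, D_FlE_csr, D_FlE_csr, if_pos (by decide), if_neg (by decide),
    if_pos (by decide), if_neg (by decide)]
  linear_combination -h1

private theorem D_FlE_hT (hc : CritT T a τ z σ A B) (v : Fin c) (hv : T.isEnd v = false) :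
    hh (T.tt τ σ v 0) + hh (T.tt τ σ v 2) - hh (T.tt τ σ v 1) - hh (T.tt τ σ v 3) +
      hh (1 / 2 - (1 - τ v) + T.zf z v) + hh (1 / 2 - (1 - τ v) - T.zf z v) -
      2 * hh (1 - τ v) = 0 := by
  have h1 := hc.tau v hv
  have h2 := D_FlE_zpm (T := T) (τ := τ) (z := z) v
  rw [hh_one_sub]
  have hi : T.one v = 0 ∨ T.one v = 1 ∨ T.one v = 2 ∨ T.one v = 3 := by
    generalize T.one v = i
    fin_cases i <;> simp
  unfold TData.tt
  rcases hi with hi | hi | hi | hi <;> rw [hi]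
  · change hh (csr (τ v) 3 - σ v 3) + hh (csr (τ v) 1 - σ v 1) - hh (csr (τ v) 2 - σ v 2) -
      hh (csr (τ v) 0 - σ v 0) + _ + _ - _ = 0
    linear_combination h1 + h2
  · change hh (csr (τ v) 1 - σ v 1) + hh (csr (τ v) 3 - σ v 3) - hh (csr (τ v) 2 - σ v 2) -
      hh (csr (τ v) 0 - σ v 0) + _ + _ - _ = 0
    linear_combination h1 + h2
  · change hh (csr (τ v) 1 - σ v 1) + hh (csr (τ v) 3 - σ v 3) - hh (csr (τ v) 0 - σ v 0) -
      hh (csr (τ v) 2 - σ v 2) + _ + _ - _ = 0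
    linear_combination h1 + h2
  · change hh (csr (τ v) 3 - σ v 3) + hh (csr (τ v) 1 - σ v 1) - hh (csr (τ v) 0 - σ v 0) -
      hh (csr (τ v) 2 - σ v 2) + _ + _ - _ = 0
    linear_combination h1 + h2

private theorem D_FlE_hP (hc : CritT T a τ z σ A B) (hR : Reg T τ z σ) {η : ℝ}
    (hη : η ≤ 1 / 10) (hs : SReg T η τ z σ) (v : Fin c) (hv : T.isEnd v = false) :
    2 * hh (1 / 2 + T.zf z v) + hh (T.tt τ σ v 0) + hh (T.tt τ σ v 2) =
      2 * hh (1 - τ v) + hh (T.tt τ σ v 0 + T.tt τ σ v 1) +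
        hh (T.tt τ σ v 3 + T.tt τ σ v 0) := by
  have h1 := ptol hc hR hη hs v hv
  have h2 := hc.sumv v
  rw [Fin.sum_univ_four] at h2
  rw [D_FlE_zf]
  have s3 : csr (τ v) 3 = τ v := rfl
  have s2 : csr (τ v) 2 = 1 - τ v := rfl
  have s1 : csr (τ v) 1 = τ v := rfl
  have s0 : csr (τ v) 0 = 1 - τ v := rfl
  have k1 : hh (csr (τ v) 2 - σ v 2 + (csr (τ v) 3 - σ v 3)) =
      hh (csr (τ v) 0 - σ v 0 + (csr (τ v) 1 - σ v 1)) := by
    rw [← hh_one_sub, s0, s1, s2, s3]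
    congr 1
    linear_combination h2
  have k2 : hh (csr (τ v) 3 - σ v 3 + (csr (τ v) 0 - σ v 0)) =
      hh (csr (τ v) 1 - σ v 1 + (csr (τ v) 2 - σ v 2)) := by
    rw [← hh_one_sub, s0, s1, s2, s3]
    congr 1
    linear_combination h2
  have hi : T.one v = 0 ∨ T.one v = 1 ∨ T.one v = 2 ∨ T.one v = 3 := by
    generalize T.one v = i
    fin_cases i <;> simp
  unfold TData.tt
  rcases hi with hi | hi | hi | hi <;> rw [hi]
  · change _ + hh (csr (τ v) 3 - σ v 3) + hh (csr (τ v) 1 - σ v 1) =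
      _ + hh (csr (τ v) 3 - σ v 3 + (csr (τ v) 2 - σ v 2)) +
        hh (csr (τ v) 0 - σ v 0 + (csr (τ v) 3 - σ v 3))
    rw [add_comm (csr (τ v) 3 - σ v 3), add_comm (csr (τ v) 0 - σ v 0) (csr (τ v) 3 - σ v 3),
      k1, k2]
    linear_combination h1
  · change _ + hh (csr (τ v) 1 - σ v 1) + hh (csr (τ v) 3 - σ v 3) =
      _ + hh (csr (τ v) 1 - σ v 1 + (csr (τ v) 2 - σ v 2)) +
        hh (csr (τ v) 0 - σ v 0 + (csr (τ v) 1 - σ v 1))
    linear_combination h1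
  · change _ + hh (csr (τ v) 1 - σ v 1) + hh (csr (τ v) 3 - σ v 3) =
      _ + hh (csr (τ v) 1 - σ v 1 + (csr (τ v) 0 - σ v 0)) +
        hh (csr (τ v) 2 - σ v 2 + (csr (τ v) 1 - σ v 1))
    rw [add_comm (csr (τ v) 1 - σ v 1), add_comm (csr (τ v) 2 - σ v 2) (csr (τ v) 1 - σ v 1)]
    linear_combination h1
  · change _ + hh (csr (τ v) 3 - σ v 3) + hh (csr (τ v) 1 - σ v 1) =
      _ + hh (csr (τ v) 3 - σ v 3 + (csr (τ v) 0 - σ v 0)) +
        hh (csr (τ v) 2 - σ v 2 + (csr (τ v) 3 - σ v 3))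
    rw [k1, k2]
    linear_combination h1

private theorem D_FlE_hS (v : Fin c) (j : Fin 4) :
    T.tt τ σ v j - T.tt (fun u => 1 - xk X u) (xs X) v j =
      (if j = 0 ∨ j = 2 then -((1 - τ v) - xk X v) else (1 - τ v) - xk X v) -
        (σ v (cna (T.one v) j) - xs X v (cna (T.one v) j)) := by
  unfold TData.tt
  rw [D_FlE_csr, D_FlE_csr]
  split_ifs <;> ring

private theorem D_FlE_flv (s : ℂ) (v : Fin c) : T.flv a N X τ z σ s v =
    D_FlE_x (1 - τ v) (T.zf z v) (xk X v) (-(T.mv a N v / 2)) (T.tt τ σ v)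
      (T.tt (fun u => 1 - xk X u) (xs X) v) (T.tv v) (a v) (T.Nj N v) s (T.isEnd v) := rfl

private theorem D_FlE_exit (hc : CritT T a τ z σ A B) (hR : Reg T τ z σ) {η : ℝ}
    (hη : η ≤ 1 / 10) (hs : SReg T η τ z σ) (hn : NOk T a N) (s : ℂ) (v : Fin c) (k : Fin 4)
    (hv : T.isEnd v = false) :
    T.ent (T.flv a N X τ z σ s) v (k - 1) k =
      Real.pi * I * (-(σ v (k - 1) - xs X v (k - 1)) - T.eps v *
        (if lgi (T.one v) k = 0 ∨ lgi (T.one v) k = 1 then 1 else -1) *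
          (T.zf z v + T.mv a N v / 2)) +
      s * T.eps v * (hh (σ v (k - 1)) + T.Cr τ z σ v k (k - 1) - hh (1 / 2 + T.zf z v) +
        Real.pi * I * (T.xi N v (k - 1) + bt (N (T.leg v k)) -
          laB (a v) (T.Nj N v) (lgi (T.one v) k))) := by
  have hP := D_FlE_hP hc hR hη hs v hv
  have hT := D_FlE_hT hc v hv
  have ht := D_FlE_tsum (T := T) (τ := τ) hc.sumv v
  have hS := D_FlE_hS (T := T) (X := X) (τ := τ) (σ := σ) v
  have he : Even (a v) → T.Nj N v 0 = T.Nj N v 1 ∧ T.Nj N v 2 = T.Nj N v 3 := nj_even hn v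
  have ho : Odd (a v) → (T.Nj N v 0 = !T.Nj N v 2) ∧ (T.Nj N v 1 = !T.Nj N v 3) := nj_odd hn v
  unfold TData.ent
  rw [D_FlE_flv, hv]
  simp only [D_FlE_cna1, D_FlE_lga, Finset.sum_ite_eq', Finset.mem_univ, if_true,
    D_FlE_par1 (T.one v) k]
  have hCr : T.Cr τ z σ v k (k - 1) = hh (1 - τ v) + hh (csr (τ v) (k - 1) - σ v (k - 1) +
      (csr (τ v) k - σ v k)) - hh (csr (τ v) (k - 1) - σ v (k - 1)) - hh (csr (τ v) k - σ v k) +
      (hh (csr (τ v) (k - 1) - σ v (k - 1)) - hh (σ v (k - 1))) := by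
    unfold TData.Cr
    rw [hv]
    simp
  rw [hCr]
  by_cases hi : T.one v = 1 ∨ T.one v = 3
  · have key := D_FlE_C (1 - τ v) (T.zf z v) (xk X v) (-(T.mv a N v / 2)) (T.tt τ σ v)
      (T.tt (fun u => 1 - xk X u) (xs X) v) (T.tv v) (a v) (T.Nj N v) s
      (fun j => σ v (cna (T.one v) j) - xs X v (cna (T.one v) j)) he ho ht hP hT hS
      (lgi (T.one v) k)
    simp only [D_FlE_c2, hi, if_true, D_FlE_xi2, D_FlE_Nj] at key ⊢
    rw [key]
    unfold TData.eps TData.tt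
    simp only [D_FlE_c1, D_FlE_c2, hi, if_true]
    ring
  · have key := D_FlE_D (1 - τ v) (T.zf z v) (xk X v) (-(T.mv a N v / 2)) (T.tt τ σ v)
      (T.tt (fun u => 1 - xk X u) (xs X) v) (T.tv v) (a v) (T.Nj N v) s
      (fun j => σ v (cna (T.one v) j) - xs X v (cna (T.one v) j)) he ho ht hP hT hS
      (lgi (T.one v) k)
    simp only [D_FlE_c1, hi, if_false, D_FlE_xi1, D_FlE_Nj] at key ⊢
    rw [key]
    unfold TData.eps TData.tt
    simp only [D_FlE_c1, D_FlE_c2, hi, if_false]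
    rw [add_comm (csr (τ v) k - σ v k)]
    ring

private theorem D_FlE_entry (hc : CritT T a τ z σ A B) (hR : Reg T τ z σ) {η : ℝ}
    (hη : η ≤ 1 / 10) (hs : SReg T η τ z σ) (hn : NOk T a N) (s : ℂ) (v : Fin c) (k : Fin 4)
    (hv : T.isEnd v = false) :
    T.ent (T.flv a N X τ z σ s) v k k =
      Real.pi * I * (-(σ v k - xs X v k) + T.eps v *
        (if lgi (T.one v) k = 0 ∨ lgi (T.one v) k = 1 then 1 else -1) *
          (T.zf z v + T.mv a N v / 2)) -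
      s * T.eps v * (hh (σ v k) + T.Cr τ z σ v k k - hh (1 / 2 + T.zf z v) +
        Real.pi * I * (T.xi N v k + bt (N (T.leg v k)) -
          laB (a v) (T.Nj N v) (lgi (T.one v) k))) := by
  have hP := D_FlE_hP hc hR hη hs v hv
  have hT := D_FlE_hT hc v hv
  have ht := D_FlE_tsum (T := T) (τ := τ) hc.sumv v
  have hS := D_FlE_hS (T := T) (X := X) (τ := τ) (σ := σ) v
  have he : Even (a v) → T.Nj N v 0 = T.Nj N v 1 ∧ T.Nj N v 2 = T.Nj N v 3 := nj_even hn v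
  have ho : Odd (a v) → (T.Nj N v 0 = !T.Nj N v 2) ∧ (T.Nj N v 1 = !T.Nj N v 3) := nj_odd hn v
  unfold TData.ent
  rw [D_FlE_flv, hv]
  simp only [D_FlE_cna2, D_FlE_lga, Finset.sum_ite_eq', Finset.mem_univ, if_true,
    D_FlE_par2 (T.one v) k]
  have hCr : T.Cr τ z σ v k k = hh (1 - τ v) + hh (csr (τ v) (k - 1) - σ v (k - 1) +
      (csr (τ v) k - σ v k)) - hh (csr (τ v) (k - 1) - σ v (k - 1)) - hh (csr (τ v) k - σ v k) +
      (hh (csr (τ v) k - σ v k) - hh (σ v k)) := by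
    unfold TData.Cr
    rw [hv]
    simp
  rw [hCr]
  by_cases hi : T.one v = 1 ∨ T.one v = 3
  · have key := D_FlE_D (1 - τ v) (T.zf z v) (xk X v) (-(T.mv a N v / 2)) (T.tt τ σ v)
      (T.tt (fun u => 1 - xk X u) (xs X) v) (T.tv v) (a v) (T.Nj N v) s
      (fun j => σ v (cna (T.one v) j) - xs X v (cna (T.one v) j)) he ho ht hP hT hS
      (lgi (T.one v) k)
    simp only [D_FlE_c1, hi, if_true, D_FlE_xi1, D_FlE_Nj] at key ⊢
    rw [key]
    unfold TData.eps TData.tt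
    simp only [D_FlE_c1, D_FlE_c2, hi, if_true]
    ring
  · have key := D_FlE_C (1 - τ v) (T.zf z v) (xk X v) (-(T.mv a N v / 2)) (T.tt τ σ v)
      (T.tt (fun u => 1 - xk X u) (xs X) v) (T.tv v) (a v) (T.Nj N v) s
      (fun j => σ v (cna (T.one v) j) - xs X v (cna (T.one v) j)) he ho ht hP hT hS
      (lgi (T.one v) k)
    simp only [D_FlE_c2, hi, if_false, D_FlE_xi2, D_FlE_Nj] at key ⊢
    rw [key]
    unfold TData.eps TData.tt
    simp only [D_FlE_c1, D_FlE_c2, hi, if_false]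
    rw [add_comm (csr (τ v) k - σ v k)]
    ring

/-- The data at an end. -/
private theorem D_FlE_end (hN : T.Nice) (hX : T.Match X) (hc : CritT T a τ z σ A B) (v : Fin c)
    (hv : T.isEnd v = true) :
    xk X v = 0 ∧ σ v (cna (T.one v) 1) = 1 - τ v ∧ xs X v (cna (T.one v) 1) = 0 ∧
      σ v (cna (T.one v) 2) = τ v ∧ xs X v (cna (T.one v) 2) = 1 := by
  obtain ⟨h0, h3, h1, h2⟩ := hN.end0 v hv
  have hXv := hX.side v hv
  have hXm := hX.mem v
  have hc1 : T.cor v (cna (T.one v) 1) ∈ T.F := by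
    have h : cna (T.one v) 1 = T.one v + 1 ∨ cna (T.one v) 1 = T.one v + 2 := by
      generalize T.one v = i
      unfold cna
      revert i
      decide
    rcases h with h | h <;> rw [h] <;> assumption
  have hc2 : T.cor v (cna (T.one v) 2) ∈ T.F := by
    have h : cna (T.one v) 2 = T.one v + 1 ∨ cna (T.one v) 2 = T.one v + 2 := by
      generalize T.one v = i
      unfold cna
      revert i
      decide
    rcases h with h | h <;> rw [h] <;> assumption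
  have e1 := hc.fin v _ hc1 hv
  have e2 := hc.fin v _ hc2 hv
  rw [D_FlE_csr, if_neg (by decide)] at e1
  rw [D_FlE_csr, if_pos (by decide)] at e2
  have hXeq : X v = cna (T.one v) 2 := by
    have hne0 : X v ≠ T.one v := fun h => h0 (h ▸ hXm)
    have hne3 : X v ≠ T.one v - 1 := fun h => h3 (h ▸ hXm)
    revert hXv hne0 hne3
    generalize X v = x
    generalize T.one v = i
    unfold cna
    revert x i
    decide
  refine ⟨?_, e1, ?_, e2, ?_⟩
  · unfold xk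
    rw [if_neg]
    intro h
    revert hXv h
    generalize X v = x
    revert x
    decide
  · unfold xs
    rw [if_neg]
    rw [hXeq]
    generalize T.one v = i
    unfold cna
    revert i
    decide
  · unfold xs
    rw [if_pos hXeq.symm]

private theorem D_FlE_b0 (hn : NOk T a N) (v : Fin c) (hv : T.isEnd v = true) :
    T.Nj N v 0 = false := by
  have h : T.leg v (T.one v) = 0 := by
    unfold TData.isEnd at hv
    exact of_decide_eq_true hv
  have h2 : lga (T.one v) 0 = T.one v := by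
    generalize T.one v = i
    unfold lga
    revert i
    decide
  unfold TData.Nj
  rw [h2, h, hn.zero]

private theorem D_FlE_casesX (i k : Fin 4) (h1 : k - 1 ≠ i) (h2 : k - 1 ≠ i - 1) :
    ((i = 1 ∨ i = 3) ∧ ((lgi i k = 2 ∧ lgi i k - 1 = 1 ∧ cna i 1 = k - 1 ∧ k = i + 2 ∧
        ¬ (k - 1 = 1 ∨ k - 1 = 3)) ∨
      (lgi i k = 3 ∧ lgi i k - 1 = 2 ∧ cna i 2 = k - 1 ∧ k ≠ i + 2 ∧
        (k - 1 = 1 ∨ k - 1 = 3)))) ∨
    (¬ (i = 1 ∨ i = 3) ∧ ((lgi i k = 1 ∧ lgi i k = 1 ∧ cna i 1 = k - 1 ∧ k ≠ i + 2 ∧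
        ¬ (k - 1 = 1 ∨ k - 1 = 3)) ∨
      (lgi i k = 2 ∧ lgi i k = 2 ∧ cna i 2 = k - 1 ∧ k = i + 2 ∧ (k - 1 = 1 ∨ k - 1 = 3)))) := by
  unfold lgi cna
  revert i k
  decide

private theorem D_FlE_casesE (i k : Fin 4) (h1 : k ≠ i) (h2 : k ≠ i - 1) :
    ((i = 1 ∨ i = 3) ∧ ((lgi i k = 1 ∧ cna i 1 = k ∧ k ≠ i + 2 ∧ ¬ (k = 1 ∨ k = 3)) ∨
      (lgi i k = 2 ∧ cna i 2 = k ∧ k = i + 2 ∧ (k = 1 ∨ k = 3)))) ∨
    (¬ (i = 1 ∨ i = 3) ∧ ((lgi i k = 2 ∧ cna i 1 = k ∧ k = i + 2 ∧ ¬ (k = 1 ∨ k = 3)) ∨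
      (lgi i k = 3 ∧ cna i 2 = k ∧ k ≠ i + 2 ∧ (k = 1 ∨ k = 3)))) := by
  unfold lgi cna
  revert i k
  decide

private theorem D_FlE_m1 : (2 : Fin 4) - 1 = 1 ∧ (3 : Fin 4) - 1 = 2 := ⟨rfl, rfl⟩

private theorem D_FlE_exitE (hN : T.Nice) (hX : T.Match X) (hc : CritT T a τ z σ A B)
    (hn : NOk T a N) (s : ℂ) (v : Fin c) (k : Fin 4)
    (hv : T.isEnd v = true) (hk : T.cor v (k - 1) ∈ T.F) :
    T.ent (T.flv a N X τ z σ s) v (k - 1) k =
      Real.pi * I * (-(σ v (k - 1) - xs X v (k - 1)) - T.eps v *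
        (if lgi (T.one v) k = 0 ∨ lgi (T.one v) k = 1 then 1 else -1) *
          (T.zf z v + T.mv a N v / 2)) +
      s * T.eps v * (hh (σ v (k - 1)) + T.Cr τ z σ v k (k - 1) - hh (1 / 2 + T.zf z v) +
        Real.pi * I * (T.xi N v (k - 1) + bt (N (T.leg v k)) -
          laB (a v) (T.Nj N v) (lgi (T.one v) k))) := by
  obtain ⟨hx, hs1, hx1, hs2, hx2⟩ := D_FlE_end hN hX hc v hv
  obtain ⟨h0, h3, -, -⟩ := hN.end0 v hv
  have he : Even (a v) → T.Nj N v 0 = T.Nj N v 1 ∧ T.Nj N v 2 = T.Nj N v 3 := nj_even hn v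
  have ho : Odd (a v) → (T.Nj N v 0 = !T.Nj N v 2) ∧ (T.Nj N v 1 = !T.Nj N v 3) := nj_odd hn v
  have hb := D_FlE_b0 hn v hv
  have hzz := D_FlE_zf (T := T) (z := z) v
  have hpm := D_FlE_zpm (T := T) (τ := τ) (z := z) v
  obtain ⟨⟨k1, k2⟩, k3, k4⟩ := D_FlE_CE (1 - τ v) (T.zf z v) (xk X v) (-(T.mv a N v / 2))
    (T.tt τ σ v) (T.tt (fun u => 1 - xk X u) (xs X) v) (T.tv v) (a v) (T.Nj N v) s
    (fun j => σ v (cna (T.one v) j) - xs X v (cna (T.one v) j)) he ho hb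
    (by
      show σ v (cna (T.one v) 1) - xs X v (cna (T.one v) 1) = _
      rw [hx, hs1, hx1])
    (by
      show σ v (cna (T.one v) 2) - xs X v (cna (T.one v) 2) = _
      rw [hx, hs2, hx2]
      ring)
  have hne1 : k - 1 ≠ T.one v := fun h => h0 (h ▸ hk)
  have hne2 : k - 1 ≠ T.one v - 1 := fun h => h3 (h ▸ hk)
  have x1 := D_FlE_xi1 (T := T) (N := N) v k
  have x2 := D_FlE_xi2 (T := T) (N := N) v k
  have nj := D_FlE_Nj (T := T) (N := N) v k
  have hκ : hh (1 - τ v) = hh (τ v) := hh_one_sub _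
  unfold TData.ent
  rw [D_FlE_flv, hv]
  simp only [D_FlE_cna1, D_FlE_lga, Finset.sum_ite_eq', Finset.mem_univ, if_true]
  unfold TData.Cr TData.eps
  rw [if_pos hv]
  rcases D_FlE_casesX (T.one v) k hne1 hne2 with ⟨hi, ⟨c1, c2, c3, c4, c5⟩ | ⟨c1, c2, c3, c4, c5⟩⟩ |
    ⟨hi, ⟨c1, c2, c3, c4, c5⟩ | ⟨c1, c2, c3, c4, c5⟩⟩
  · rw [if_pos hi, c2] at x2
    rw [c1] at nj
    rw [c3] at k1 hs1 hx1
    simp only [hi, if_true, c1, D_FlE_m1.1, c5, if_false, eq_true c4, add_zero]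
    rw [k1, hs1, ← x2, ← nj, hzz, if_neg (by decide)]
    ring
  · rw [if_pos hi, c2] at x2
    rw [c1] at nj
    rw [c3] at k2 hs2 hx2
    simp only [hi, if_true, c1, D_FlE_m1.2, c5, if_false, eq_false c4, add_zero]
    rw [k2, hs2, ← x2, ← nj, hzz, hκ, if_neg (by decide)]
    ring
  · rw [if_neg hi, c1] at x1
    rw [c1] at nj
    rw [c3] at k3 hs1 hx1
    simp only [hi, if_true, c1, c5, if_false, eq_false c4, add_zero]
    rw [k3, hs1, ← x1, ← nj, hzz, if_pos (by decide)]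
    ring
  · rw [if_neg hi, c1] at x1
    rw [c1] at nj
    rw [c3] at k4 hs2 hx2
    simp only [hi, if_true, c1, c5, if_false, eq_true c4]
    rw [k4, hs2, ← x1, ← nj, hzz, hκ, if_neg (by decide), ← hpm]
    ring

private theorem D_FlE_entryE (hN : T.Nice) (hX : T.Match X) (hc : CritT T a τ z σ A B)
    (hn : NOk T a N) (s : ℂ) (v : Fin c) (k : Fin 4)
    (hv : T.isEnd v = true) (hk : T.cor v k ∈ T.F) :
    T.ent (T.flv a N X τ z σ s) v k k =
      Real.pi * I * (-(σ v k - xs X v k) + T.eps v *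
        (if lgi (T.one v) k = 0 ∨ lgi (T.one v) k = 1 then 1 else -1) *
          (T.zf z v + T.mv a N v / 2)) -
      s * T.eps v * (hh (σ v k) + T.Cr τ z σ v k k - hh (1 / 2 + T.zf z v) +
        Real.pi * I * (T.xi N v k + bt (N (T.leg v k)) -
          laB (a v) (T.Nj N v) (lgi (T.one v) k))) := by
  obtain ⟨hx, hs1, hx1, hs2, hx2⟩ := D_FlE_end hN hX hc v hv
  obtain ⟨h0, h3, -, -⟩ := hN.end0 v hv
  have he : Even (a v) → T.Nj N v 0 = T.Nj N v 1 ∧ T.Nj N v 2 = T.Nj N v 3 := nj_even hn v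
  have ho : Odd (a v) → (T.Nj N v 0 = !T.Nj N v 2) ∧ (T.Nj N v 1 = !T.Nj N v 3) := nj_odd hn v
  have hb := D_FlE_b0 hn v hv
  have hzz := D_FlE_zf (T := T) (z := z) v
  have hpm := D_FlE_zpm (T := T) (τ := τ) (z := z) v
  obtain ⟨⟨k1, k2⟩, k3, k4⟩ := D_FlE_CE (1 - τ v) (T.zf z v) (xk X v) (-(T.mv a N v / 2))
    (T.tt τ σ v) (T.tt (fun u => 1 - xk X u) (xs X) v) (T.tv v) (a v) (T.Nj N v) s
    (fun j => σ v (cna (T.one v) j) - xs X v (cna (T.one v) j)) he ho hb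
    (by
      show σ v (cna (T.one v) 1) - xs X v (cna (T.one v) 1) = _
      rw [hx, hs1, hx1])
    (by
      show σ v (cna (T.one v) 2) - xs X v (cna (T.one v) 2) = _
      rw [hx, hs2, hx2]
      ring)
  have hne1 : k ≠ T.one v := fun h => h0 (h ▸ hk)
  have hne2 : k ≠ T.one v - 1 := fun h => h3 (h ▸ hk)
  have x1 := D_FlE_xi1 (T := T) (N := N) v k
  have x2 := D_FlE_xi2 (T := T) (N := N) v k
  have nj := D_FlE_Nj (T := T) (N := N) v k
  have hκ : hh (1 - τ v) = hh (τ v) := hh_one_sub _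
  unfold TData.ent
  rw [D_FlE_flv, hv]
  simp only [D_FlE_cna2, D_FlE_lga, Finset.sum_ite_eq', Finset.mem_univ, if_true]
  unfold TData.Cr TData.eps
  rw [if_pos hv]
  rcases D_FlE_casesE (T.one v) k hne1 hne2 with ⟨hi, ⟨c1, c3, c4, c5⟩ | ⟨c1, c3, c4, c5⟩⟩ |
    ⟨hi, ⟨c1, c3, c4, c5⟩ | ⟨c1, c3, c4, c5⟩⟩
  · rw [if_pos hi, c1] at x1
    rw [c1] at nj
    rw [c3] at k3 hs1 hx1
    simp only [hi, if_true, c1, c5, if_false, eq_false c4, add_zero]
    rw [k3, hs1, ← x1, ← nj, hzz, if_pos (by decide)]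
    ring
  · rw [if_pos hi, c1] at x1
    rw [c1] at nj
    rw [c3] at k4 hs2 hx2
    simp only [hi, if_true, c1, c5, eq_true c4]
    rw [k4, hs2, ← x1, ← nj, hzz, hκ, if_neg (by decide), ← hpm]
    ring
  · rw [if_neg hi, c1, D_FlE_m1.1] at x2
    rw [c1] at nj
    rw [c3] at k1 hs1 hx1
    simp only [hi, if_true, c1, D_FlE_m1.1, c5, if_false, eq_true c4, add_zero]
    rw [k1, hs1, ← x2, ← nj, hzz, if_neg (by decide)]
    ring
  · rw [if_neg hi, c1, D_FlE_m1.2] at x2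
    rw [c1] at nj
    rw [c3] at k2 hs2 hx2
    simp only [hi, if_true, c1, D_FlE_m1.2, c5, if_false, eq_false c4, add_zero]
    rw [k2, hs2, ← x2, ← nj, hzz, hκ, if_neg (by decide)]
    ring

/-- The end of the path around a strand with the bounded corner `k - 1` before the leg `k`. -/
theorem ent_exit (hT : T.Of w) (hG : T.Good) (hN : T.Nice) (hX : T.Match X)
    (hc : CritT T a τ z σ A B) (hR : Reg T τ z σ) {η : ℝ} (hη : η ≤ 1 / 10)
    (hs : SReg T η τ z σ) (hn : NOk T a N) (v : Fin c) (k : Fin 4) (hk : T.cor v (k - 1) ∈ T.F) :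
    T.ent (T.fpar a N X τ z σ).x v (k - 1) k =
      -(Real.pi * I * (σ v (k - 1) - xs X v (k - 1))) - T.gpot a N z true v k +
      (hh (σ v (k - 1)) + Real.pi * I * T.xi N v (k - 1)) + T.Cr τ z σ v k (k - 1) +
      Real.pi * I * bt (N (T.leg v k)) ∧
    -T.ent (T.fpar a N X τ z σ).x' v (k - 1) k =
      Real.pi * I * (σ v (k - 1) - xs X v (k - 1)) - T.gpot a N z false v k +
      (hh (σ v (k - 1)) + Real.pi * I * T.xi N v (k - 1)) + T.Cr τ z σ v k (k - 1) +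
      Real.pi * I * bt (N (T.leg v k)) := by
  have e2 : T.eps v * T.eps v = 1 := by
    unfold TData.eps
    split_ifs <;> norm_num
  have key : ∀ s : ℂ, T.ent (T.flv a N X τ z σ s) v (k - 1) k =
      Real.pi * I * (-(σ v (k - 1) - xs X v (k - 1)) - T.eps v *
        (if lgi (T.one v) k = 0 ∨ lgi (T.one v) k = 1 then 1 else -1) *
          (T.zf z v + T.mv a N v / 2)) +
      s * T.eps v * (hh (σ v (k - 1)) + T.Cr τ z σ v k (k - 1) - hh (1 / 2 + T.zf z v) +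
        Real.pi * I * (T.xi N v (k - 1) + bt (N (T.leg v k)) -
          laB (a v) (T.Nj N v) (lgi (T.one v) k))) := by
    intro s
    cases hv : T.isEnd v with
    | false => exact D_FlE_exit hc hR hη hs hn s v k hv
    | true => exact D_FlE_exitE hN hX hc hn s v k hv hk
  constructor
  · change T.ent (T.flv a N X τ z σ (T.eps v)) v (k - 1) k = _
    rw [key]
    unfold TData.gpot
    rw [if_pos rfl]
    linear_combination (hh (σ v (k - 1)) + T.Cr τ z σ v k (k - 1) - hh (1 / 2 + T.zf z v) +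
        Real.pi * I * (T.xi N v (k - 1) + bt (N (T.leg v k)) -
          laB (a v) (T.Nj N v) (lgi (T.one v) k))) * e2
  · change -T.ent (T.flv a N X τ z σ (-T.eps v)) v (k - 1) k = _
    rw [key]
    unfold TData.gpot
    rw [if_neg Bool.false_ne_true]
    linear_combination (hh (σ v (k - 1)) + T.Cr τ z σ v k (k - 1) - hh (1 / 2 + T.zf z v) +
        Real.pi * I * (T.xi N v (k - 1) + bt (N (T.leg v k)) -
          laB (a v) (T.Nj N v) (lgi (T.one v) k))) * e2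

/-- The end of the path around a strand with the bounded corner `k`. -/
theorem ent_entry (hT : T.Of w) (hG : T.Good) (hN : T.Nice) (hX : T.Match X)
    (hc : CritT T a τ z σ A B) (hR : Reg T τ z σ) {η : ℝ} (hη : η ≤ 1 / 10)
    (hs : SReg T η τ z σ) (hn : NOk T a N) (v : Fin c) (k : Fin 4) (hk : T.cor v k ∈ T.F) :
    T.ent (T.fpar a N X τ z σ).x v k k =
      -(Real.pi * I * (σ v k - xs X v k)) + T.gpot a N z true v k -
      (hh (σ v k) + Real.pi * I * T.xi N v k) - T.Cr τ z σ v k k -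
      Real.pi * I * bt (N (T.leg v k)) ∧
    -T.ent (T.fpar a N X τ z σ).x' v k k =
      Real.pi * I * (σ v k - xs X v k) + T.gpot a N z false v k -
      (hh (σ v k) + Real.pi * I * T.xi N v k) - T.Cr τ z σ v k k -
      Real.pi * I * bt (N (T.leg v k)) := by
  have e2 : T.eps v * T.eps v = 1 := by
    unfold TData.eps
    split_ifs <;> norm_num
  have key : ∀ s : ℂ, T.ent (T.flv a N X τ z σ s) v k k =
      Real.pi * I * (-(σ v k - xs X v k) + T.eps v *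
        (if lgi (T.one v) k = 0 ∨ lgi (T.one v) k = 1 then 1 else -1) *
          (T.zf z v + T.mv a N v / 2)) -
      s * T.eps v * (hh (σ v k) + T.Cr τ z σ v k k - hh (1 / 2 + T.zf z v) +
        Real.pi * I * (T.xi N v k + bt (N (T.leg v k)) -
          laB (a v) (T.Nj N v) (lgi (T.one v) k))) := by
    intro s
    cases hv : T.isEnd v with
    | false => exact D_FlE_entry hc hR hη hs hn s v k hv
    | true => exact D_FlE_entryE hN hX hc hn s v k hv hk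
  constructor
  · change T.ent (T.flv a N X τ z σ (T.eps v)) v k k = _
    rw [key]
    unfold TData.gpot
    rw [if_pos rfl]
    linear_combination -(hh (σ v k) + T.Cr τ z σ v k k - hh (1 / 2 + T.zf z v) +
        Real.pi * I * (T.xi N v k + bt (N (T.leg v k)) -
          laB (a v) (T.Nj N v) (lgi (T.one v) k))) * e2
  · change -T.ent (T.flv a N X τ z σ (-T.eps v)) v k k = _
    rw [key]
    unfold TData.gpot
    rw [if_neg Bool.false_ne_true]
    linear_combination -(hh (σ v k) + T.Cr τ z σ v k k - hh (1 / 2 + T.zf z v) +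
        Real.pi * I * (T.xi N v k + bt (N (T.leg v k)) -
          laB (a v) (T.Nj N v) (lgi (T.one v) k))) * e2

theorem lon_fpar (hT : T.Of w) (hG : T.Good) (hN : T.Nice) (hX : T.Match X)
    (hc : CritT T a τ z σ A B) (hR : Reg T τ z σ) {η : ℝ} (hη : η ≤ 1 / 10)
    (hs : SReg T η τ z σ) (hn : NOk T a N) (p q : Fin c × Fin 4) (h : Mate T.leg p q)
    (hq : T.cor q.1 q.2 ∈ T.F) :
    T.hol (T.fpar a N X τ z σ).x (T.fpar a N X τ z σ).z p q =
      T.gpot a N z true q.1 q.2 - T.gpot a N z true p.1 p.2 ∧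
    -T.hol (T.fpar a N X τ z σ).x' (T.fpar a N X τ z σ).z' p q =
      T.gpot a N z false q.1 q.2 - T.gpot a N z false p.1 p.2 := by
  have hpq := adj hT hG (p := q) (q := p) ⟨h.1.symm, h.2.symm⟩
  have hp : T.cor p.1 (p.2 - 1) ∈ T.F := by
    rw [hpq.1 hq]
    exact hq
  have h1 := ent_exit hT hG hN hX hc hR hη hs hn p.1 p.2 hp
  have h2 := ent_entry hT hG hN hX hc hR hη hs hn q.1 q.2 hq
  have h3 := fpls (a := a) (N := N) (τ := τ) (z := z) hT hG hN hX hc.sumf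
    (p := q) (q := p) ⟨h.1.symm, h.2.symm⟩ hq
  have h4 := cr_eq hT hG hN hc hR hη hs h hq
  have h5 : N (T.leg p.1 p.2) = N (T.leg q.1 q.2) := congrArg N h.2
  unfold TData.hol
  rw [h5] at h1
  constructor
  · rw [h1.1, h2.1, h3.1]
    linear_combination h4
  · rw [h3.2]
    linear_combination h1.2 + h2.2 + h4

theorem pass_fpar (hn : NOk T a N) (s : Bool) (v : Fin c) (k : Fin 4) :
    T.gpot a N z s v k =
      if Even (a v) then T.gpot a N z s v (3 - k) else T.gpot a N z (!s) v (k + 2) := by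
  have e1 : ∀ i k : Fin 4, (lgi i (3 - k) = 0 ∨ lgi i (3 - k) = 1) =
      (lgi i k = 0 ∨ lgi i k = 1) := by
    unfold lgi
    decide
  have e2 : ∀ i k : Fin 4, (lgi i (k + 2) = 0 ∨ lgi i (k + 2) = 1) =
      ¬ (lgi i k = 0 ∨ lgi i k = 1) := by
    unfold lgi
    decide
  have e3 : ∀ i k : Fin 4, (lgi i (k + 2) = 0 ∨ lgi i (k + 2) = 2) =
      (lgi i k = 0 ∨ lgi i k = 2) := by
    unfold lgi
    decide
  by_cases h : Even (a v)
  · rw [if_pos h]
    unfold TData.gpot laB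
    simp only [e1, h, if_true]
  · rw [if_neg h]
    unfold TData.gpot laB
    simp only [e2, e3, h, if_false]
    cases s <;> by_cases h2 : (lgi (T.one v) k = 0 ∨ lgi (T.one v) k = 1) <;> simp [h2]

end Pool.Agent.H63.CLK
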