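import Pool.Agent.H63.CLK.D_Fan
import Pool.Agent.H63.CLK.D_Oct
import Pool.Agent.H63.CLK.D_Pos

/-!
# CLK part D, D_GlueV: the equations at the twist regions and at the faces

Let `κ = 1 - τ v`, `z' = T.zf z v`, `t = T.tt τ σ v`, `t j = csr (τ v) (cna (one v) j) - σ v (cna (one v) j)`. Split into the cases `one v = 0,1,2,3`
(then `cna`, `lga` are explicit permutations).
* For `T.isEnd v = false`: `∑ t j = 1` (`∑ csr = 2`, `sumv`). `gv_spk`: `oct_spk`. `gv_chd`: `oct_chd`: the corner `cna (one v) 1` and `cna (one v) 3` are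
  even, so `csr = 1 - τ = κ` and `t 1 + σ = κ`: the sum is `2 π i (1/2 - κ + z' + κ) = π i + U`; the corners `cna (one v) 0`, `2` are odd: `t + σ = τ = 1 - κ`:
  `2 π i (κ + 1 - κ)`. For `T.isEnd v = true` the corners `cna (one v) 1` and `cna (one v) 2` are `one v + 1`, `one v + 2` in some order, so they are
  bounded (`hN.end0`) and `σ = csr` (`CritT.fin`): same result.
* `gv_dia`: `oct_dia_false` and `CritT.tau`: `1/2 - κ ± z' = τ - 1/2 ± z'` (`z' = ± z`), `hh κ = hh τ` (`hh_one_sub`), the corners of `t 1`, `t 3` are `0`, `2`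
  and those of `t 0`, `t 2` are `1`, `3` in some order.
* `gv_lon`, `gv_fill`: `oct_lon`, `oct_mer`, `CritT.zz`.
* faces: `gf_bas`: `fan_bas`; `gf_sum`: `sf_sum` and `sumf`; `gf_diag`: `fan_diag`.
-/

namespace Pool.Agent.H63.CLK

open Pool.Agent.H63.VC hiding ext
open Pool.Agent.H63.VC3 Pool.Agent.H63.VC7.Hyp Complex

variable {c : ℕ} {w : List TPiece} {T : TData c} {a : Fin c → ℤ} {τ z : Fin c → ℂ}
  {σ : Fin c → Fin 4 → ℂ} {A : ℕ → ℂ} {B : Fin c → ℂ}

private theorem D_GlueV_par (v : Fin c) (g : (Fin 4 → Fin 3 → ℂ) → ℂ) :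
    g ((T.par τ z σ).x v) + g ((T.par τ z σ).x' v) =
      g (octP (T.isEnd v) (1 - τ v) (T.zf z v) (T.tt τ σ v)) +
        g (octM (T.isEnd v) (1 - τ v) (T.zf z v) (T.tt τ σ v)) := by
  simp only [TData.par]
  split_ifs
  · rfl
  · exact add_comm _ _

private theorem D_GlueV_csr (x : ℂ) (i : Fin 4) :
    csr x (cna i 0) = x ∧ csr x (cna i 1) = 1 - x ∧ csr x (cna i 2) = x ∧
      csr x (cna i 3) = 1 - x := by
  fin_cases i <;> exact ⟨rfl, rfl, rfl, rfl⟩

private theorem D_GlueV_sum (s : Fin 4 → ℂ) (i : Fin 4) :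
    s (cna i 0) + s (cna i 1) + s (cna i 2) + s (cna i 3) = ∑ k, s k := by
  rw [Fin.sum_univ_four]
  fin_cases i
  · change s 3 + s 2 + s 1 + s 0 = _
    ring
  · change s 1 + s 2 + s 3 + s 0 = _
    ring
  · change s 1 + s 0 + s 3 + s 2 = _
    ring
  · change s 3 + s 0 + s 1 + s 2 = _
    ring

private theorem D_GlueV_alt (s : Fin 4 → ℂ) (i : Fin 4) :
    s (cna i 1) + s (cna i 3) - s (cna i 0) - s (cna i 2) = s 0 + s 2 - s 1 - s 3 := by
  fin_cases i
  · change s 2 + s 0 - s 3 - s 1 = _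
    ring
  · change s 2 + s 0 - s 1 - s 3 = _
    ring
  · change s 0 + s 2 - s 1 - s 3 = _
    ring
  · change s 0 + s 2 - s 3 - s 1 = _
    ring

private theorem D_GlueV_cor (i : Fin 4) :
    (cna i 1 = i + 1 ∧ cna i 2 = i + 2) ∨ (cna i 1 = i + 2 ∧ cna i 2 = i + 1) := by
  fin_cases i
  · right; exact ⟨rfl, rfl⟩
  · left; exact ⟨rfl, rfl⟩
  · right; exact ⟨rfl, rfl⟩
  · left; exact ⟨rfl, rfl⟩

theorem gv_spk (v : Fin c) :
    spk ((T.par τ z σ).x v) 0 + spk ((T.par τ z σ).x' v) 0 =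
      Real.pi * I + (T.par τ z σ).U v ∧
    spk ((T.par τ z σ).x v) 3 + spk ((T.par τ z σ).x' v) 3 =
      Real.pi * I + (T.par τ z σ).U v ∧
    spk ((T.par τ z σ).x v) 1 + spk ((T.par τ z σ).x' v) 1 =
      Real.pi * I - (T.par τ z σ).U v ∧
    spk ((T.par τ z σ).x v) 2 + spk ((T.par τ z σ).x' v) 2 =
      Real.pi * I - (T.par τ z σ).U v := by
  have h := oct_spk (1 - τ v) (T.zf z v) (T.tt τ σ v) (T.isEnd v)
  have e := fun j => D_GlueV_par (T := T) (τ := τ) (z := z) (σ := σ) v (fun x => spk x j)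
  exact ⟨(e 0).trans h.1, (e 3).trans h.2.1, (e 1).trans h.2.2.1, (e 2).trans h.2.2.2⟩

theorem gv_chd (hN : T.Nice) (hc : CritT T a τ z σ A B) (v : Fin c) :
    chd ((T.par τ z σ).x v) 1 + chd ((T.par τ z σ).x' v) 1 +
        (T.par τ z σ).s v (cna (T.one v) 1) = Real.pi * I + (T.par τ z σ).U v ∧
    chd ((T.par τ z σ).x v) 2 + chd ((T.par τ z σ).x' v) 2 +
        (T.par τ z σ).s v (cna (T.one v) 2) = 2 * (Real.pi * I) := by
  have h := oct_chd (1 - τ v) (T.zf z v) (T.tt τ σ v) (T.isEnd v)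
  have e := fun j => D_GlueV_par (T := T) (τ := τ) (z := z) (σ := σ) v (fun x => chd x j)
  have e1 := (e 1).trans h.2.1
  have e2 := (e 2).trans h.2.2.1
  rw [e1, e2]
  have c1 := (D_GlueV_csr (τ v) (T.one v)).2.1
  have c2 := (D_GlueV_csr (τ v) (T.one v)).2.2.1
  have hs : ∀ k, (T.par τ z σ).s v k = 2 * Real.pi * I * σ v k := fun k => rfl
  have hU : (T.par τ z σ).U v = 2 * Real.pi * I * T.zf z v := rfl
  rw [hs, hs, hU]
  cases hv : T.isEnd v with
  | false =>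
    have t1 : T.tt τ σ v 1 = csr (τ v) (cna (T.one v) 1) - σ v (cna (T.one v) 1) := rfl
    have t2 : T.tt τ σ v 2 = csr (τ v) (cna (T.one v) 2) - σ v (cna (T.one v) 2) := rfl
    rw [t1, t2, c1, c2]
    simp only [Bool.false_eq_true, if_false]
    constructor <;> ring
  | true =>
    obtain ⟨-, -, f1, f2⟩ := hN.end0 v hv
    have hσ : σ v (cna (T.one v) 1) = csr (τ v) (cna (T.one v) 1) ∧
        σ v (cna (T.one v) 2) = csr (τ v) (cna (T.one v) 2) := by
      rcases D_GlueV_cor (T.one v) with ⟨k1, k2⟩ | ⟨k1, k2⟩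
      · rw [k1, k2]
        exact ⟨hc.fin v _ f1 hv, hc.fin v _ f2 hv⟩
      · rw [k1, k2]
        exact ⟨hc.fin v _ f2 hv, hc.fin v _ f1 hv⟩
    rw [hσ.1, hσ.2, c1, c2]
    simp only [if_true]
    constructor <;> ring

theorem gv_chd0 (v : Fin c) (hv : T.isEnd v = false) :
    chd ((T.par τ z σ).x v) 3 + chd ((T.par τ z σ).x' v) 3 +
        (T.par τ z σ).s v (cna (T.one v) 3) = Real.pi * I - (T.par τ z σ).U v ∧
    chd ((T.par τ z σ).x v) 0 + chd ((T.par τ z σ).x' v) 0 +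
        (T.par τ z σ).s v (cna (T.one v) 0) = 2 * (Real.pi * I) := by
  have h := oct_chd (1 - τ v) (T.zf z v) (T.tt τ σ v) (T.isEnd v)
  have e := fun j => D_GlueV_par (T := T) (τ := τ) (z := z) (σ := σ) v (fun x => chd x j)
  have e3 := (e 3).trans h.2.2.2
  have e0 := (e 0).trans h.1
  rw [e3, e0]
  have c3 := (D_GlueV_csr (τ v) (T.one v)).2.2.2
  have c0 := (D_GlueV_csr (τ v) (T.one v)).1
  have hs : ∀ k, (T.par τ z σ).s v k = 2 * Real.pi * I * σ v k := fun k => rfl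
  have hU : (T.par τ z σ).U v = 2 * Real.pi * I * T.zf z v := rfl
  have t3 : T.tt τ σ v 3 = csr (τ v) (cna (T.one v) 3) - σ v (cna (T.one v) 3) := rfl
  have t0 : T.tt τ σ v 0 = csr (τ v) (cna (T.one v) 0) - σ v (cna (T.one v) 0) := rfl
  rw [hs, hs, hU, hv, t3, t0, c3, c0]
  simp only [Bool.false_eq_true, if_false]
  constructor <;> ring

theorem gv_dia (hc : CritT T a τ z σ A B) (v : Fin c) (hv : T.isEnd v = false) :
    dia ((T.par τ z σ).x v) = 2 * (Real.pi * I) ∧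
      dia ((T.par τ z σ).x' v) = 2 * (Real.pi * I) := by
  have ht : T.tt τ σ v 0 + T.tt τ σ v 1 + T.tt τ σ v 2 + T.tt τ σ v 3 = 1 := by
    have h1 := D_GlueV_sum (σ v) (T.one v)
    rw [hc.sumv v] at h1
    obtain ⟨c0, c1, c2, c3⟩ := D_GlueV_csr (τ v) (T.one v)
    simp only [TData.tt]
    rw [c0, c1, c2, c3]
    linear_combination -h1
  have h := oct_dia_false (1 - τ v) (T.zf z v) (T.tt τ σ v) ht
  have hz : hh (1 / 2 - (1 - τ v) + T.zf z v) + hh (1 / 2 - (1 - τ v) - T.zf z v) =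
      hh (τ v - 1 / 2 - z v) + hh (τ v - 1 / 2 + z v) := by
    simp only [TData.zf]
    split_ifs
    · rw [show 1 / 2 - (1 - τ v) + z v = τ v - 1 / 2 + z v by ring,
        show 1 / 2 - (1 - τ v) - z v = τ v - 1 / 2 - z v by ring]
      ring
    · rw [show 1 / 2 - (1 - τ v) + -z v = τ v - 1 / 2 - z v by ring,
        show 1 / 2 - (1 - τ v) - -z v = τ v - 1 / 2 + z v by ring]
  have hk : hh (1 - τ v) = hh (τ v) := hh_one_sub _
  have halt := D_GlueV_alt (fun k => hh (csr (τ v) k - σ v k)) (T.one v)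
  have htau := hc.tau v hv
  have h0 : 2 * hh (1 - τ v) - hh (1 / 2 - (1 - τ v) + T.zf z v) -
      hh (1 / 2 - (1 - τ v) - T.zf z v) + (hh (T.tt τ σ v 1) + hh (T.tt τ σ v 3) -
        hh (T.tt τ σ v 0) - hh (T.tt τ σ v 2)) = 0 := by
    simp only [TData.tt] at halt ⊢
    linear_combination 2 * hk - hz + halt - htau
  rw [h0] at h
  simp only [TData.par, hv]
  split_ifs
  · exact ⟨by rw [h.1]; ring, by rw [h.2]; ring⟩
  · exact ⟨by rw [h.2]; ring, by rw [h.1]; ring⟩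

theorem gv_lon (v : Fin c) :
    (T.par τ z σ).x v 0 2 - (T.par τ z σ).x v 3 2 = (T.par τ z σ).U v ∧
      (T.par τ z σ).x' v 0 2 - (T.par τ z σ).x' v 3 2 = (T.par τ z σ).U v := by
  have h := oct_lon (1 - τ v) (T.zf z v) (T.tt τ σ v) (T.isEnd v)
  simp only [TData.par]
  split_ifs
  · exact ⟨h.1, h.2⟩
  · exact ⟨h.2, h.1⟩

theorem gv_fill (hc : CritT T a τ z σ A B) (v : Fin c) :
    (if T.one v = 1 ∨ T.one v = 3 then 1 else -1) *
        ((T.par τ z σ).x v 3 1 - (T.par τ z σ).x v 0 1) + a v * (T.par τ z σ).U v =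
      (if T.one v = 0 ∨ T.one v = 1 then -2 else 2) * (Real.pi * I) := by
  have h := oct_mer (1 - τ v) (T.zf z v) (T.tt τ σ v) (T.isEnd v)
  have hx : (if T.one v = 1 ∨ T.one v = 3 then 1 else -1) *
      ((T.par τ z σ).x v 3 1 - (T.par τ z σ).x v 0 1) =
        hh (1 / 2 - (1 - τ v) - T.zf z v) - hh (1 / 2 - (1 - τ v) + T.zf z v) := by
    simp only [TData.par]
    split_ifs
    · rw [h.1]
      ring
    · rw [h.2]
      ring
  rw [hx]
  have hU : (T.par τ z σ).U v = 2 * Real.pi * I * T.zf z v := rfl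
  rw [hU]
  have hzz := hc.zz v
  simp only [TData.zf]
  split_ifs
  · rw [show 1 / 2 - (1 - τ v) + z v = τ v - 1 / 2 + z v by ring,
      show 1 / 2 - (1 - τ v) - z v = τ v - 1 / 2 - z v by ring]
    linear_combination hzz
  · rw [show 1 / 2 - (1 - τ v) + -z v = τ v - 1 / 2 - z v by ring,
      show 1 / 2 - (1 - τ v) - -z v = τ v - 1 / 2 + z v by ring]
    linear_combination -hzz

theorem gf_psm (hT : T.Of w) (hc : CritT T a τ z σ A B) (f : ℕ) (hf : f ∈ T.F) :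
    psm (T.sf σ f) (T.deg f) = 1 := by
  have h := sf_sum (hT.bdy f hf) σ
  rw [hc.sumf f hf] at h
  exact h

theorem gf_bas (hT : T.Of w) (hc : CritT T a τ z σ A B) (f : ℕ) (hf : f ∈ T.F)
    (hd : 3 ≤ T.deg f) (j : ℕ) (hj : j < T.deg f) :
    (T.par τ z σ).s (T.bd f j).1 (T.bd f j).2 =
      bas (T.deg f) ((T.par τ z σ).z f) j + bas (T.deg f) ((T.par τ z σ).z' f) j := by
  exact (fan_bas (T.deg f) (T.sf σ f) hd (gf_psm hT hc f hf) j hj).symm

theorem gf_sum (hT : T.Of w) (hc : CritT T a τ z σ A B) (f : ℕ) (hf : f ∈ T.F) :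
    ∑ j ∈ Finset.range (T.deg f), (T.par τ z σ).s (T.bd f j).1 (T.bd f j).2 =
      2 * (Real.pi * I) := by
  have h := gf_psm hT hc f hf
  have h1 : ∑ j ∈ Finset.range (T.deg f), (T.par τ z σ).s (T.bd f j).1 (T.bd f j).2 =
      2 * Real.pi * I * psm (T.sf σ f) (T.deg f) := by
    rw [psm, Finset.mul_sum]
    rfl
  rw [h1, h]
  ring

theorem gf_diag (f j : ℕ) (hj : 2 ≤ j) :
    (T.par τ z σ).z f (j - 1) 1 + (T.par τ z σ).z f j 2 + (T.par τ z σ).z' f (j - 1) 1 +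
      (T.par τ z σ).z' f j 2 = 2 * (Real.pi * I) := by
  exact fan_diag (T.sf σ f) j hj

end Pool.Agent.H63.CLK
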