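import Pool.Agent.H63.CLK.D_Crit

/-!
# CLK part D, D_SolLog: logarithms of the shape parameters of the solution; dependence of `Glue` on the parameters

* `sol_lg`, `sol_pos`: unfold `TData.lg`, `TData.sX`, `TData.par`, `octP`, `octM`; use `tri_lgs` with `Reg.oct`. If `T.one v` is odd, then
  `T.lg true X = lgs (tsh oa ob oc) = tri oa ob oc`, `T.lg false X' = swp (lgs (tsh oa oc ob))`; if it is even, the roles are exchanged.
  `T.has v k` is false iff `T.isEnd v = true` and `k = 1` or `k = 2`.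
* `glue_congr`: `bas`, `pol`, `diag` use only the tetrahedra `0 < j < d - 1`; the equations `bas` only for `3 ≤ deg f`.
-/

namespace Pool.Agent.H63.CLK

open Pool.Agent.H63.VC hiding ext
open Pool.Agent.H63.VC3 Pool.Agent.H63.VC7.Hyp Complex

variable {c : ℕ}

private theorem D_SolLog_aux {T : TData c} {τ z : Fin c → ℂ} {σ : Fin c → Fin 4 → ℂ}
    (hR : Reg T τ z σ) (o : Bool) (v : Fin c) (k : Fin 4) :
    T.lg o (T.sX τ z σ o) v k = if decide (T.one v = 1 ∨ T.one v = 3) = o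
      then octP (T.isEnd v) (1 - τ v) (T.zf z v) (T.tt τ σ v) k
      else octM (T.isEnd v) (1 - τ v) (T.zf z v) (T.tt τ σ v) k := by
  unfold TData.lg
  by_cases hk : T.has v k
  · rw [if_pos hk]
    have hne : ¬ (T.isEnd v = true ∧ (k = 1 ∨ k = 2)) := by
      rintro ⟨h1, h2⟩
      rcases hk with h3 | h3 | h3
      · rw [h3] at h2
        exact absurd h2 (by decide)
      · rw [h3] at h2
        exact absurd h2 (by decide)
      · rw [h1] at h3
        exact absurd h3 (by decide)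
    obtain ⟨t1, t2⟩ := hR.oct v k hk
    by_cases ho : decide (T.one v = 1 ∨ T.one v = 3) = o
    · rw [if_pos ho, if_pos ho]
      unfold TData.sX octP
      rw [if_pos ho, if_neg hne]
      exact (tri_lgs t1).2
    · rw [if_neg ho, if_neg ho]
      unfold TData.sX octM
      rw [if_neg ho, if_neg hne, (tri_lgs t2).2]
  · rw [if_neg hk]
    have hpos : T.isEnd v = true ∧ (k = 1 ∨ k = 2) := by
      unfold TData.has at hk
      rw [not_or, not_or] at hk
      obtain ⟨h1, h2, h3⟩ := hk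
      refine ⟨by simpa using h3, ?_⟩
      fin_cases k
      · exact absurd rfl h1
      · exact Or.inl rfl
      · exact Or.inr rfl
      · exact absurd rfl h2
    unfold octP octM
    rw [if_pos hpos, if_pos hpos, ite_self]

theorem sol_lg {T : TData c} {τ z : Fin c → ℂ} {σ : Fin c → Fin 4 → ℂ} (hR : Reg T τ z σ) :
    T.lg true (T.sX τ z σ true) = (T.par τ z σ).x ∧
      T.lg false (T.sX τ z σ false) = (T.par τ z σ).x' := by
  constructor
  · funext v k
    rw [D_SolLog_aux hR]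
    change _ = (if T.one v = 1 ∨ T.one v = 3
      then octP (T.isEnd v) (1 - τ v) (T.zf z v) (T.tt τ σ v)
      else octM (T.isEnd v) (1 - τ v) (T.zf z v) (T.tt τ σ v)) k
    by_cases hP : T.one v = 1 ∨ T.one v = 3
    · rw [if_pos hP, if_pos (decide_eq_true hP)]
    · rw [if_neg hP, if_neg (by rw [decide_eq_false hP]; decide)]
  · funext v k
    rw [D_SolLog_aux hR]
    change _ = (if T.one v = 1 ∨ T.one v = 3
      then octM (T.isEnd v) (1 - τ v) (T.zf z v) (T.tt τ σ v)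
      else octP (T.isEnd v) (1 - τ v) (T.zf z v) (T.tt τ σ v)) k
    by_cases hP : T.one v = 1 ∨ T.one v = 3
    · rw [if_pos hP, if_neg (by rw [decide_eq_true hP]; decide)]
    · rw [if_neg hP, if_pos (decide_eq_false hP)]

theorem sol_pos {T : TData c} {τ z : Fin c → ℂ} {σ : Fin c → Fin 4 → ℂ} (hR : Reg T τ z σ) :
    (∀ v k, T.has v k → 0 < (T.sX τ z σ true v k).im ∧ 0 < (T.sX τ z σ false v k).im) ∧
    (∀ f ∈ T.F, ∀ j, 0 < j → j + 1 < T.deg f → 0 < (T.sZ σ f j).im ∧ 0 < (T.sZ' σ f j).im ∧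
      lgs (T.sZ σ f j) = fanP (T.sf σ f) j ∧ swp (lgs (T.sZ' σ f j)) = fanM (T.sf σ f) j) := by
  refine ⟨?_, ?_⟩
  · intro v k hk
    obtain ⟨t1, t2⟩ := hR.oct v k hk
    have key : ∀ o, 0 < (T.sX τ z σ o v k).im := by
      intro o
      unfold TData.sX
      split_ifs
      · exact (tri_lgs t1).1
      · exact (tri_lgs t2).1
    exact ⟨key true, key false⟩
  · intro f hf j h0 h1
    obtain ⟨t1, t2⟩ := hR.fan f hf j h0 h1
    have e1 := tri_lgs t1
    have e2 := tri_lgs t2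
    refine ⟨e1.1, e2.1, e1.2, ?_⟩
    unfold TData.sZ' fanM
    rw [e2.2]

theorem bas_congr (d : ℕ) (hd : 3 ≤ d) (x y : ℕ → Fin 3 → ℂ)
    (h : ∀ j, 0 < j → j + 1 < d → x j = y j) (j : ℕ) (hj : j < d) : bas d x j = bas d y j := by
  unfold bas
  by_cases h0 : j = 0
  · rw [if_pos h0, if_pos h0, h 1 (by omega) (by omega)]
  · rw [if_neg h0, if_neg h0]
    by_cases h1 : j + 1 = d
    · rw [if_pos h1, if_pos h1, h (d - 2) (by omega) (by omega)]
    · rw [if_neg h1, if_neg h1, h j (by omega) (by omega)]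

theorem pol_congr (d : ℕ) (x y : ℕ → Fin 3 → ℂ)
    (h : ∀ j, 0 < j → j + 1 < d → x j = y j) (j : ℕ) (hj : j < d) : pol d x j = pol d y j := by
  unfold pol
  by_cases h0 : j = 0
  · rw [if_pos h0, if_pos h0]
    apply Finset.sum_congr rfl
    intro i hi
    rw [Finset.mem_Ico] at hi
    rw [h i (by omega) (by omega)]
  · rw [if_neg h0, if_neg h0]
    congr 1
    · by_cases h2 : 2 ≤ j
      · rw [if_pos h2, if_pos h2, h (j - 1) (by omega) (by omega)]
      · rw [if_neg h2, if_neg h2]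
    · by_cases h2 : j + 2 ≤ d
      · rw [if_pos h2, if_pos h2, h j (by omega) (by omega)]
      · rw [if_neg h2, if_neg h2]

private theorem D_SolLog_up (T : TData c) (x : Fin c → Fin 4 → Fin 3 → ℂ)
    (z y : ℕ → ℕ → Fin 3 → ℂ)
    (h : ∀ f ∈ T.F, ∀ j, 0 < j → j + 1 < T.deg f → z f j = y f j) (p : Fin c × Fin 4) :
    T.up x z p = T.up x y p := by
  unfold TData.up
  congr 1
  by_cases hF : T.cor p.1 p.2 ∈ T.F
  · rw [if_pos hF, if_pos hF]
    apply Finset.sum_congr rfl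
    intro j hj
    rw [Finset.mem_range] at hj
    rw [pol_congr _ _ _ (h _ hF) j hj]
  · rw [if_neg hF, if_neg hF]

theorem glue_congr {κ : ℂ} {T : TData c} {a : Fin c → ℤ} {Q : Par c} (h : Glue κ T a Q)
    (z z' : ℕ → ℕ → Fin 3 → ℂ)
    (hz : ∀ f ∈ T.F, ∀ j, 0 < j → j + 1 < T.deg f → z f j = Q.z f j ∧ z' f j = Q.z' f j) :
    Glue κ T a ⟨Q.x, Q.x', z, z', Q.s, Q.U⟩ := by
  have u1 : ∀ p, T.up Q.x z p = T.up Q.x Q.z p :=
    D_SolLog_up T Q.x z Q.z (fun f hf j h0 h1 => (hz f hf j h0 h1).1)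
  have u2 : ∀ p, T.up Q.x' z' p = T.up Q.x' Q.z' p :=
    D_SolLog_up T Q.x' z' Q.z' (fun f hf j h0 h1 => (hz f hf j h0 h1).2)
  refine ⟨h.spk, h.chd, h.chd0, h.dia, h.lon, h.lon', h.fill, h.out, ?_, h.sum, ?_, ?_, ?_⟩
  · intro f hf hd j hj
    have e1 := bas_congr (T.deg f) hd (z f) (Q.z f) (fun i h0 h1 => (hz f hf i h0 h1).1) j hj
    have e2 := bas_congr (T.deg f) hd (z' f) (Q.z' f) (fun i h0 h1 => (hz f hf i h0 h1).2) j hj
    change Q.s (T.bd f j).1 (T.bd f j).2 = CLK.bas (T.deg f) (z f) j + CLK.bas (T.deg f) (z' f) j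
    rw [e1, e2]
    exact h.bas f hf hd j hj
  · intro f hf j h2 hd
    have e1 := hz f hf (j - 1) (by omega) (by omega)
    have e2 := hz f hf j (by omega) (by omega)
    change z f (j - 1) 1 + z f j 2 + z' f (j - 1) 1 + z' f j 2 = 2 * κ
    rw [e1.1, e1.2, e2.1, e2.2]
    exact h.diag f hf j h2 hd
  · intro p q hm hl hp hq
    change T.up Q.x z p + T.up Q.x z q = 2 * κ ∧ T.up Q.x' z' p + T.up Q.x' z' q = 2 * κ
    rw [u1, u1, u2, u2]
    exact h.up p q hm hl hp hq
  · intro p q hm hl hpq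
    change T.up Q.x z p + T.up Q.x z q + T.up Q.x' z' p + T.up Q.x' z' q +
      (if T.isEnd p.1 ∧ lga (T.one p.1) 3 = p.2 then κ + Q.U p.1 else 0) +
      (if T.isEnd q.1 ∧ lga (T.one q.1) 3 = q.2 then κ + Q.U q.1 else 0) = 2 * κ
    rw [u1, u1, u2, u2]
    exact h.up0 p q hm hl hpq

end Pool.Agent.H63.CLK
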