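import Pool.Agent.H63.CLK.D_Ver

/-!
# CLK part D, D_Up: the equations of the edges from the strand `0`

Notation: `θ v k = csr (τ v) k - σ v k`, `p = (v, k)`, `q = (v', k')` mates, `leg p ≠ 0` (so also `leg q ≠ 0`). `T.up` is the sum of a part of the twist
region (`verV`, `verE1-3`) and a part of the face of `p` (`upF`, or `0` if `cor p` is outer). `csr (k-1) + csr k = 1`.
`S(v,k) := hh (θ v k) - hh (σ v k)` for bounded corners is `-(A (cor v k) + B v)` by `CritT.sig` (`v` not an end).
(up) both `cor p`, `cor q ∈ T.F`. By `adj` also `cor (v', k'-1) = cor p`, `cor (v, k-1) = cor q` (apply `adj` to `q, p` too).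
 * `v`, `v'` not ends: sum of the coefficients of `π i`: `4 - (θ + σ at the four corners (v,k),(v,k-1),(v',k'),(v',k'-1)) = 4 - 2 = 2`; sum of the `hh`:
   `S(v,k) - S(v,k-1) + S(v',k') - S(v',k'-1) = -A p + A q - A q + A p = 0` (the `B` cancel).
 * `v` an end: then `k = one v + 2`: because `leg v k ≠ 0` we have `k ≠ one v`, and for `k = one v + 1` the corner `k - 1 = one v`, for `k = one v - 1` the corner
   `k = one v - 1` would be outer (`hN.end0`), but `cor (v,k)` and `cor (v,k-1) = cor q` are bounded. Use `verE2`; `CritT.fin`: `σ v k = csr k`, `σ v (k-1) = csr (k-1)`, so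
   `hh (σ v (k-1)) = hh (σ v k)` (`hh_one_sub`), and `CritT.tau0` (in the sum over the corners exactly `one v + 1 = k - 1` and `one v + 2 = k` contribute) gives
   `± (2 hh τ - hh - hh) = A (cor v (k-1)) - A (cor v k) = A q - A p` with the sign `+` if `one v` (and so `k`) is odd. If `v'` is not an end, the other `hh`
   give `S(v',k') - S(v',k'-1) = -A q + A p`. If `v'` is an end too, it contributes `A (cor v' (k'-1)) - A (cor v' k') = A p - A q`. Coefficients of `π i`:
   `1 + (1 - σ(v',k'-1) - σ(v,k)) + (1 - σ(v,k-1) - σ(v',k')) + (1 - θ(v',k'-1) - θ(v',k'))` resp. `1 + 1 + 1 + 1 - 2`.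
(up0) not both bounded; only the coefficients of `π i` matter, `P` and `P'` are added (`hh` cancels). By `adj`, `cor p ∈ T.F ↔ cor (v',k'-1) ∈ T.F`, and
   `cor q ∈ T.F ↔ cor (v,k-1) ∈ T.F`; outer corners have `σ = 0`. Exactly one of `cor p`, `cor q` is bounded: by `hN.inn` if `v` is not an end; if `v` is an end then
   `k ≠ one v`, and `k = one v + 2` is impossible (both bounded), so `k = one v ± 1`, where one of the corners `k`, `k - 1` is bounded and the other is outer.
   Contribution of `p` (twist region part, with the term `κ + U` if `k = lga one 3`), in units of `2 π i`: `v` not an end: `1 - θ v (k-1) - θ v k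
   = σ v (k-1) + σ v k` = `σ` of the bounded one of the two corners; `v` an end, `k = lga one 1`: `1 - τ v`, which is `csr` = `σ` of the bounded one of the corners `k`, `k-1`
   (which is even), and for `k = lga one 3`: `τ v`, again the `σ` of the bounded one (which is odd). Same for `q`. Faces: `1 - (sum of the two σ at the
   bounded side)`. Total: `1`.
-/

namespace Pool.Agent.H63.CLK

open Pool.Agent.H63.VC hiding ext
open Pool.Agent.H63.VC3 Pool.Agent.H63.VC7.Hyp Complex

variable {c : ℕ} {w : List TPiece} {T : TData c} {a : Fin c → ℤ} {τ z : Fin c → ℂ}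
  {σ : Fin c → Fin 4 → ℂ} {A : ℕ → ℂ} {B : Fin c → ℂ}

private theorem D_Up_csr (t : ℂ) (k : Fin 4) : csr t (k - 1) + csr t k = 1 := by
  match k with
  | 0 => show t + (1 - t) = 1; ring
  | 1 => show 1 - t + t = 1; ring
  | 2 => show t + (1 - t) = 1; ring
  | 3 => show 1 - t + t = 1; ring

private theorem D_Up_fin (k i : Fin 4) (h : k ≠ i) : k = i + 1 ∨ k = i + 2 ∨ k - 1 = i + 2 := by
  revert h
  revert k i
  decide

private theorem D_Up_symm {p q : Fin c × Fin 4} (h : Mate T.leg p q) : Mate T.leg q p :=
  ⟨h.1.symm, h.2.symm⟩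

/-- At an end, the leg between two bounded corners is opposite to the strand `0`. -/
private theorem D_Up_opp (hN : T.Nice) {v : Fin c} {k : Fin 4} (hv : T.isEnd v = true)
    (h1 : T.cor v k ∈ T.F) (h2 : T.cor v (k - 1) ∈ T.F) : k = T.one v + 2 := by
  obtain ⟨a1, a2, -, -⟩ := hN.end0 v hv
  generalize T.one v = i at a1 a2 ⊢
  have b1 : k ≠ i := by
    rintro rfl
    exact a1 h1
  have b2 : k - 1 ≠ i := by
    intro h
    rw [h] at h2
    exact a1 h2
  have b3 : k ≠ i - 1 := by
    rintro rfl
    exact a2 h1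
  clear h1 h2 a1 a2
  revert b1 b2 b3
  revert k i
  decide

/-- The part of the twist region at a leg between two bounded corners. -/
private theorem D_Up_loc (hN : T.Nice) (hc : CritT T a τ z σ A B) (v : Fin c) (k : Fin 4)
    (h1 : T.cor v k ∈ T.F) (h2 : T.cor v (k - 1) ∈ T.F) :
    (∑ j, if lga (T.one v) j = k then ver (T.isEnd v) ((T.par τ z σ).x v) j else 0) =
      Real.pi * I * (σ v (k - 1) + σ v k) +
        (hh (σ v k) - hh (σ v (k - 1)) - A (T.cor v k) + A (T.cor v (k - 1))) ∧
    (∑ j, if lga (T.one v) j = k then ver (T.isEnd v) ((T.par τ z σ).x' v) j else 0) =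
      Real.pi * I * (σ v (k - 1) + σ v k) -
        (hh (σ v k) - hh (σ v (k - 1)) - A (T.cor v k) + A (T.cor v (k - 1))) := by
  have e0 := D_Up_csr (τ v) k
  rcases Bool.eq_false_or_eq_true (T.isEnd v) with hv | hv
  · have hk := D_Up_opp hN hv h1 h2
    obtain ⟨a1, a2⟩ := verE2 (τ := τ) (z := z) (σ := σ) v hv
    obtain ⟨b1, b2, b3, b4⟩ := hN.end0 v hv
    rw [← hk] at a1 a2 b4
    have e1 : σ v k = csr (τ v) k := hc.fin v k h1 hv
    have e2 : σ v (k - 1) = csr (τ v) (k - 1) := hc.fin v (k - 1) h2 hv
    have e3 : σ v (k - 1) + σ v k = 1 := by rw [e1, e2, e0]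
    have e4 : hh (σ v (k - 1)) = hh (σ v k) := by
      have : σ v (k - 1) = 1 - σ v k := by rw [← e3]; ring
      rw [this, hh_one_sub]
    have e5 : (if T.one v = 1 ∨ T.one v = 3 then (1 : ℂ) else -1) *
        (2 * hh (τ v) - hh (τ v - 1 / 2 + z v) - hh (τ v - 1 / 2 - z v)) =
        -A (T.cor v k) + A (T.cor v (k - 1)) := by
      have e6 := hc.tau0 v hv
      rw [Fin.sum_univ_four] at e6
      generalize hi : T.one v = i at b1 b2 b3 b4 hk ⊢
      have h1' := h1
      have h2' := h2
      match i with
      | 0 =>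
        subst hk
        change T.cor v 0 ∉ T.F at b1
        change T.cor v 3 ∉ T.F at b2
        change T.cor v 2 ∈ T.F at h1'
        change T.cor v 1 ∈ T.F at h2'
        rw [if_neg b1, if_pos h2', if_pos h1', if_neg b2] at e6
        rw [if_neg (by decide), if_pos (by decide)] at e6
        rw [if_neg (by decide)]
        change _ = -A (T.cor v 2) + A (T.cor v 1)
        linear_combination e6
      | 1 =>
        subst hk
        change T.cor v 1 ∉ T.F at b1
        change T.cor v 0 ∉ T.F at b2
        change T.cor v 3 ∈ T.F at h1'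
        change T.cor v 2 ∈ T.F at h2'
        rw [if_neg b2, if_neg b1, if_pos h2', if_pos h1'] at e6
        rw [if_pos (by decide), if_neg (by decide)] at e6
        rw [if_pos (by decide)]
        change _ = -A (T.cor v 3) + A (T.cor v 2)
        linear_combination -e6
      | 2 =>
        subst hk
        change T.cor v 2 ∉ T.F at b1
        change T.cor v 1 ∉ T.F at b2
        change T.cor v 0 ∈ T.F at h1'
        change T.cor v 3 ∈ T.F at h2'
        rw [if_pos h1', if_neg b2, if_neg b1, if_pos h2'] at e6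
        rw [if_pos (by decide), if_neg (by decide)] at e6
        rw [if_neg (by decide)]
        change _ = -A (T.cor v 0) + A (T.cor v 3)
        linear_combination e6
      | 3 =>
        subst hk
        change T.cor v 3 ∉ T.F at b1
        change T.cor v 2 ∉ T.F at b2
        change T.cor v 1 ∈ T.F at h1'
        change T.cor v 0 ∈ T.F at h2'
        rw [if_pos h2', if_pos h1', if_neg b2, if_neg b1] at e6
        rw [if_pos (by decide), if_neg (by decide)] at e6
        rw [if_pos (by decide)]
        change _ = -A (T.cor v 1) + A (T.cor v 0)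
        linear_combination -e6
    rw [a1, a2, e5, e3, e4]
    constructor <;> ring
  · obtain ⟨a1, a2⟩ := verV (τ := τ) (z := z) hc.sumv v k hv
    have e1 := hc.sig v k h1 hv
    have e2 := hc.sig v (k - 1) h2 hv
    rw [a1, a2]
    constructor
    · linear_combination e1 - e2 - Real.pi * I * e0
    · linear_combination -e1 + e2 - Real.pi * I * e0

/-- The part of the twist region in `P` and `P'`. -/
private theorem D_Up_loc0 (hN : T.Nice) (hc : CritT T a τ z σ A B) (v : Fin c) (k : Fin 4)
    (h0 : T.leg v k ≠ 0) :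
    (∑ j, if lga (T.one v) j = k then ver (T.isEnd v) ((T.par τ z σ).x v) j else 0) +
    (∑ j, if lga (T.one v) j = k then ver (T.isEnd v) ((T.par τ z σ).x' v) j else 0) +
    (if T.isEnd v ∧ lga (T.one v) 3 = k then Real.pi * I + (T.par τ z σ).U v else 0) =
      2 * (Real.pi * I) * (σ v (k - 1) + σ v k) := by
  rcases Bool.eq_false_or_eq_true (T.isEnd v) with hv | hv
  · obtain ⟨b1, b2, b3, b4⟩ := hN.end0 v hv
    have c1 : k ≠ T.one v := by
      rintro rfl
      exact h0 (of_decide_eq_true hv)
    by_cases h1 : k = T.one v + 2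
    · have h2 : T.cor v k ∈ T.F := by rw [h1]; exact b4
      have h3 : T.cor v (k - 1) ∈ T.F := by
        have : k - 1 = T.one v + 1 := by
          rw [h1]
          generalize T.one v = i
          revert i
          decide
        rw [this]
        exact b3
      obtain ⟨a1, a2⟩ := D_Up_loc hN hc v k h2 h3
      have h4 : ¬ (T.isEnd v ∧ lga (T.one v) 3 = k) := by
        rintro ⟨-, h5⟩
        rw [h1] at h5
        generalize T.one v = i at h5
        revert h5
        revert i
        decide
      rw [a1, a2, if_neg h4]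
      ring
    · have f1 := verE1 (τ := τ) (z := z) (σ := σ) v hv
      have f3 := verE3 (τ := τ) (z := z) (σ := σ) v hv
      have g1 : k = lga (T.one v) 1 ∨ k = lga (T.one v) 3 := by
        clear b1 b2 b3 b4 h0 f1 f3
        generalize T.one v = i at c1 h1 ⊢
        revert c1 h1
        revert k i
        decide
      have hout := hc.out v
      have hfin := fun k hk => hc.fin v k hk hv
      rcases g1 with g1 | g1
      · have h4 : ¬ (T.isEnd v ∧ lga (T.one v) 3 = k) := by
          rintro ⟨-, h5⟩
          rw [g1] at h5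
          generalize T.one v = i at h5
          revert h5
          revert i
          decide
        rw [if_neg h4, g1, f1]
        have h6 : σ v (lga (T.one v) 1 - 1) + σ v (lga (T.one v) 1) = 1 - τ v := by
          generalize hi : T.one v = i at b1 b2 b3 b4 ⊢
          match i with
          | 0 =>
            change σ v 2 + σ v 3 = 1 - τ v
            rw [hout 3 b2, hfin 2 b4, add_zero]
            rfl
          | 1 =>
            change σ v 1 + σ v 2 = 1 - τ v
            rw [hout 1 b1, hfin 2 b3, zero_add]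
            rfl
          | 2 =>
            change σ v 0 + σ v 1 = 1 - τ v
            rw [hout 1 b2, hfin 0 b4, add_zero]
            rfl
          | 3 =>
            change σ v 3 + σ v 0 = 1 - τ v
            rw [hout 3 b1, hfin 0 b3, zero_add]
            rfl
        rw [h6]
        ring
      · rw [if_pos ⟨hv, g1.symm⟩, g1, f3]
        have h6 : σ v (lga (T.one v) 3 - 1) + σ v (lga (T.one v) 3) = τ v := by
          generalize hi : T.one v = i at b1 b2 b3 b4 ⊢
          match i with
          | 0 =>
            change σ v 0 + σ v 1 = τ v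
            rw [hout 0 b1, hfin 1 b3, zero_add]
            rfl
          | 1 =>
            change σ v 3 + σ v 0 = τ v
            rw [hout 0 b2, hfin 3 b4, add_zero]
            rfl
          | 2 =>
            change σ v 2 + σ v 3 = τ v
            rw [hout 2 b1, hfin 3 b3, zero_add]
            rfl
          | 3 =>
            change σ v 1 + σ v 2 = τ v
            rw [hout 2 b2, hfin 1 b4, add_zero]
            rfl
        rw [h6]
        ring
  · obtain ⟨a1, a2⟩ := verV (τ := τ) (z := z) hc.sumv v k hv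
    have h4 : ¬ (T.isEnd v ∧ lga (T.one v) 3 = k) := by
      rintro ⟨h5, -⟩
      rw [hv] at h5
      exact absurd h5 (by decide)
    rw [a1, a2, if_neg h4]
    linear_combination (-(2 * (Real.pi * I))) * D_Up_csr (τ v) k

theorem gu_up (hT : T.Of w) (hG : T.Good) (hN : T.Nice) (hc : CritT T a τ z σ A B)
    (p q : Fin c × Fin 4) (h : Mate T.leg p q) (h0 : T.leg p.1 p.2 ≠ 0)
    (hp : T.cor p.1 p.2 ∈ T.F) (hq : T.cor q.1 q.2 ∈ T.F) :
    T.up (T.par τ z σ).x (T.par τ z σ).z p + T.up (T.par τ z σ).x (T.par τ z σ).z q =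
      2 * (Real.pi * I) ∧
    T.up (T.par τ z σ).x' (T.par τ z σ).z' p + T.up (T.par τ z σ).x' (T.par τ z σ).z' q =
      2 * (Real.pi * I) := by
  have hs := D_Up_symm h
  have f1 := (adj hT hG h).1 hp
  have f2 := (adj hT hG hs).1 hq
  obtain ⟨u1, u2⟩ := upF (τ := τ) (z := z) (σ := σ) hT hG hN hc.sumf h hp
  obtain ⟨u3, u4⟩ := upF (τ := τ) (z := z) (σ := σ) hT hG hN hc.sumf hs hq
  obtain ⟨v1, v2⟩ := D_Up_loc hN hc p.1 p.2 hp (by rw [f2]; exact hq)
  obtain ⟨v3, v4⟩ := D_Up_loc hN hc q.1 q.2 hq (by rw [f1]; exact hp)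
  rw [f2] at v1 v2
  rw [f1] at v3 v4
  unfold TData.up
  rw [if_pos hp, if_pos hq, if_pos hp, if_pos hq, u1, u2, u3, u4, v1, v2, v3, v4]
  constructor <;> ring

theorem gu_up0 (hT : T.Of w) (hG : T.Good) (hN : T.Nice) (hc : CritT T a τ z σ A B)
    (p q : Fin c × Fin 4) (h : Mate T.leg p q) (h0 : T.leg p.1 p.2 ≠ 0)
    (hpq : ¬ (T.cor p.1 p.2 ∈ T.F ∧ T.cor q.1 q.2 ∈ T.F)) :
    T.up (T.par τ z σ).x (T.par τ z σ).z p + T.up (T.par τ z σ).x (T.par τ z σ).z q +
      T.up (T.par τ z σ).x' (T.par τ z σ).z' p + T.up (T.par τ z σ).x' (T.par τ z σ).z' q +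
      (if T.isEnd p.1 ∧ lga (T.one p.1) 3 = p.2 then
        Real.pi * I + (T.par τ z σ).U p.1 else 0) +
      (if T.isEnd q.1 ∧ lga (T.one q.1) 3 = q.2 then
        Real.pi * I + (T.par τ z σ).U q.1 else 0) = 2 * (Real.pi * I) := by
  have hs := D_Up_symm h
  have h0' : T.leg q.1 q.2 ≠ 0 := by rw [← h.2]; exact h0
  have v1 := D_Up_loc0 hN hc p.1 p.2 h0
  have v2 := D_Up_loc0 hN hc q.1 q.2 h0'
  unfold TData.up
  by_cases hp : T.cor p.1 p.2 ∈ T.F
  · have hq : T.cor q.1 q.2 ∉ T.F := fun hq => hpq ⟨hp, hq⟩
    obtain ⟨u1, u2⟩ := upF (τ := τ) (z := z) (σ := σ) hT hG hN hc.sumf h hp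
    have f2 : T.cor p.1 (p.2 - 1) ∉ T.F := fun hf => hq ((adj hT hG hs).2 hf ▸ hf)
    have g1 := hc.out _ _ hq
    have g2 := hc.out _ _ f2
    rw [g1] at v2
    rw [g2] at v1
    rw [if_pos hp, if_neg hq, if_pos hp, if_neg hq, u1, u2]
    linear_combination v1 + v2
  · by_cases hq : T.cor q.1 q.2 ∈ T.F
    · obtain ⟨u1, u2⟩ := upF (τ := τ) (z := z) (σ := σ) hT hG hN hc.sumf hs hq
      have f2 : T.cor q.1 (q.2 - 1) ∉ T.F := fun hf => hp ((adj hT hG h).2 hf ▸ hf)
      have g1 := hc.out _ _ hp
      have g2 := hc.out _ _ f2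
      rw [g1] at v1
      rw [g2] at v2
      rw [if_neg hp, if_pos hq, if_neg hp, if_pos hq, u1, u2]
      linear_combination v1 + v2
    · exfalso
      have f1 : T.cor p.1 (p.2 - 1) ∉ T.F := fun hf => hq ((adj hT hG hs).2 hf ▸ hf)
      obtain ⟨v, k⟩ := p
      simp only at h0 hp f1
      rcases Bool.eq_false_or_eq_true (T.isEnd v) with hv | hv
      · obtain ⟨-, -, b3, b4⟩ := hN.end0 v hv
        have c1 : k ≠ T.one v := by
          rintro rfl
          exact h0 (of_decide_eq_true hv)
        have c2 := D_Up_fin k (T.one v) c1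
        rcases c2 with c2 | c2 | c2
        · rw [c2] at hp
          exact hp b3
        · rw [c2] at hp
          exact hp b4
        · rw [c2] at f1
          exact f1 b4
      · rcases hN.inn v k hv with h5 | h5
        · exact hp h5
        · exact f1 h5

end Pool.Agent.H63.CLK
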