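import Pool.Agent.H63.CLK.D_FlI
import Pool.Agent.H63.CLK.D_Up
import Pool.Agent.H63.CLK.D_SolLog
import Pool.Agent.H63.CLK.D_GlueV

set_option autoImplicit false

/-!
# CLK part D, D_FlG: the flattening satisfies the gluing equations with `κ = 0`

Notation: `x° = x - K_x` for every arc, `H_x = hh x + π i H`. `fl` has the entries `π i x°_i + s (H_{i+1} - H_{i+2})`. At `v` the arcs are `-z°, z°` (`z° = zf + m/2`), `κ° = 1 - τ - xk`,
`t°_j = tt - tt (1-xk) xs`, `t°_2 + t°_3`, `t°_0 + t°_1`, `-κ° ± z°`, `∑ t° = 0` (`hc.sumv`), `t°_j + σ°(cna j) = csr° (cna j) = ± κ°` (`+` for `j = 1, 3`, `-` for `j = 0, 2`).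
`fpar.x + fpar.x'` is always `2 π i x°`. So everything is as in D_GlueV, D_SolLog, D_Ver, D_Up, D_Fan with `1` replaced by `0`:
* spk: `2 π i (z°, -z°, -z°, z°)`; chd + s: `t°_1 + σ° = κ°` etc. (ends: `x 1 = x 2 = 0`, `σ°(cna 1) = κ°`, `σ°(cna 2) = -κ°` by `hc.fin`); lon: `2 π i z°`.
* dia: `π i ∑ t° + s (2 H_κ + H_{t1} + H_{t3} - H_{+} - H_{-} - H_{t0} - H_{t2}) = 0` by `hc.tau` and `xiB 1 + xiB 3 - xiB 0 - xiB 2 = gp + gm` (`nj_even`, `nj_odd`, cases).
* fill: `eps * (x 3 1 - x 0 1) = H_{-} - H_{+} = -2 π i a z°` by `hc.zz` and `gp - gm = 2 tv + a m`, `zf = - tv z`.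
* out: `xs = 0` at outer corners (`hX.mem`). bas, diag: `2 π i` times the arcs `σ°_j`, `-psm° (j+1)`, `psm° j`, `psm° deg = 0` (`sf_sum` for `σ` and `xs`, `hX`: the face sums of `xs` are `1`). sum: `0`.
* up: twist region part `π i (-θ°_{k-1} - θ°_k) ± (H_{θ k} - H_{θ (k-1)})` (`v` not an end), face part `π i (-σ°(q.1, q.2-1) - σ°(p)) ± (H_σ(q.1,q.2-1) - H_σ(p))` (`fpls` below), `H_θ - H_σ = hh θ - hh σ = -(A + B)`.
  end, leg `a_3`: `± eps (2 H_κ - H_{+} - H_{-})`, `hc.tau0`, and `H_σ(k) - H_σ(k-1) = π i (xi k - xi (k-1))` (`hh_one_sub`), `xiB 1 - xiB 2 = gp + gm` since `b 0 = false`. up0: linear.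
Please prove the local formulas as public lemmas (they are used in D_FlE, D_FlZ): `fpls` and `fver` below; in D_Ver / D_Up the analogous statements are `upF`, `verV`, `D_Up_loc`, `D_Up_loc0`.
-/

namespace Pool.Agent.H63.CLK

open Pool.Agent.H63.VC hiding ext
open Pool.Agent.H63.VC3 Pool.Agent.H63.VC7.Hyp Complex

variable {c : ℕ} {w : List TPiece} {T : TData c} {a : Fin c → ℤ} {N : ℕ → Bool}
  {X : Fin c → Fin 4} {τ z : Fin c → ℂ} {σ : Fin c → Fin 4 → ℂ} {A : ℕ → ℂ} {B : Fin c → ℂ}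

/-- Flattened parameters at a twist region. -/
noncomputable def D_FlG_oct (e : Bool) (s κ z : ℂ) (t : Fin 4 → ℂ) (hα hδ hκ hp hm : ℂ)
    (g : Fin 4 → ℂ) (k : Fin 4) : Fin 3 → ℂ :=
  if e = true ∧ (k = 1 ∨ k = 2) then 0 else
  (![![Real.pi * I * (-z) + s * (hκ - hp), Real.pi * I * κ + s * (hp - hα),
      Real.pi * I * (-κ + z) + s * (hα - hκ)],
    ![Real.pi * I * (t 2 + t 3) + s * (g 1 - g 0), Real.pi * I * t 1 + s * (g 0 - hδ),
      Real.pi * I * t 0 + s * (hδ - g 1)],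
    ![Real.pi * I * (t 0 + t 1) + s * (g 3 - g 2), Real.pi * I * t 3 + s * (g 2 - hδ),
      Real.pi * I * t 2 + s * (hδ - g 3)],
    ![Real.pi * I * z + s * (hκ - hm), Real.pi * I * κ + s * (hm - hα),
      Real.pi * I * (-κ - z) + s * (hα - hκ)]] : Fin 4 → Fin 3 → ℂ) k

private theorem D_FlG_hz (z : ℂ) : hh (1 / 2 - z) = hh (1 / 2 + z) := by
  rw [← hh_one_sub (1 / 2 + z)]; congr 1; ring

private theorem D_FlG_ht (t : Fin 4 → ℂ) (ht : t 0 + t 1 + t 2 + t 3 = 1) :
    hh (t 2 + t 3) = hh (t 0 + t 1) := by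
  rw [← hh_one_sub (t 0 + t 1)]; congr 1; linear_combination ht

private theorem D_FlG_csr (x : ℂ) (i : Fin 4) :
    csr x (cna i 0) = x ∧ csr x (cna i 1) = 1 - x ∧ csr x (cna i 2) = x ∧
      csr x (cna i 3) = 1 - x := by
  fin_cases i <;> exact ⟨rfl, rfl, rfl, rfl⟩

private theorem D_FlG_sum (s : Fin 4 → ℂ) (i : Fin 4) :
    s (cna i 0) + s (cna i 1) + s (cna i 2) + s (cna i 3) = ∑ k, s k := by
  rw [Fin.sum_univ_four]
  fin_cases i
  · change s 3 + s 2 + s 1 + s 0 = _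
    ring
  · change s 1 + s 2 + s 3 + s 0 = _
    ring
  · change s 1 + s 0 + s 3 + s 2 = _
    ring
  · change s 3 + s 0 + s 1 + s 2 = _
    ring

private theorem D_FlG_tt (τ : Fin c → ℂ) (σ : Fin c → Fin 4 → ℂ) (v : Fin c)
    (hs : ∑ k, σ v k = 1) :
    T.tt τ σ v 0 + T.tt τ σ v 1 + T.tt τ σ v 2 + T.tt τ σ v 3 = 1 := by
  have h1 := D_FlG_sum (σ v) (T.one v)
  rw [hs] at h1
  obtain ⟨c0, c1, c2, c3⟩ := D_FlG_csr (τ v) (T.one v)
  simp only [TData.tt]
  rw [c0, c1, c2, c3]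
  linear_combination -h1

theorem D_FlG_xs (X : Fin c → Fin 4) (v : Fin c) : ∑ k, xs X v k = 1 := by
  simp [xs]

/-- The parameters at a twist region. -/
theorem D_FlG_flv (hs : ∀ v, ∑ k, σ v k = 1) (s : ℂ) (v : Fin c) :
    T.flv a N X τ z σ s v = D_FlG_oct (T.isEnd v) s (1 - τ v - xk X v)
      (T.zf z v + T.mv a N v / 2)
      (fun j => T.tt τ σ v j - T.tt (fun u => 1 - xk X u) (xs X) v j)
      (hh (1 / 2 + T.zf z v) + Real.pi * I * ((1 - T.mv a N v) / 2))
      (hh (T.tt τ σ v 0 + T.tt τ σ v 1) + Real.pi * I * xib (T.Nj N v 0) (T.Nj N v 2))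
      (hh (1 - τ v))
      (hh (1 / 2 - (1 - τ v) + T.zf z v) + Real.pi * I * gpB (T.tv v) (a v) (T.Nj N v))
      (hh (1 / 2 - (1 - τ v) - T.zf z v) + Real.pi * I * gmB (T.tv v) (a v) (T.Nj N v))
      (fun j => hh (T.tt τ σ v j) + Real.pi * I * xiB (T.Nj N v) j) := by
  have h1 : hh (2⁻¹ - T.zf z v) = hh (2⁻¹ + T.zf z v) := by
    simpa using D_FlG_hz (T.zf z v)
  have h2 := D_FlG_ht (T.tt τ σ v) (D_FlG_tt τ σ v (hs v))
  funext k i
  unfold TData.flv D_FlG_oct
  by_cases he : T.isEnd v = true ∧ (k = 1 ∨ k = 2)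
  · rw [if_pos he, if_pos he]
  · rw [if_neg he, if_neg he]
    fin_cases k <;> fin_cases i <;>
    simp [fl, TData.arv, TData.Kv, TData.Hv, HvB, oa, ob, oc, h1, h2, TData.mv] <;> ring


private theorem D_FlG_xib (b b' : Bool) : xib b b' = xib b' b := by
  unfold xib
  cases b <;> cases b' <;> simp

private theorem D_FlG_xiB (v : Fin c) (j : Fin 4) :
    xiB (T.Nj N v) j = T.xi N v (cna (T.one v) j) := by
  have key : ∀ i j : Fin 4, (lga i j = cna i j ∧ lga i (j + 1) = cna i j + 1) ∨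
      (lga i j = cna i j + 1 ∧ lga i (j + 1) = cna i j) := by
    intro i j
    unfold lga cna
    revert i j
    decide
  unfold xiB TData.Nj TData.xi
  rcases key (T.one v) j with ⟨h1, h2⟩ | ⟨h1, h2⟩
  · rw [h1, h2]
  · rw [h1, h2, D_FlG_xib]

private theorem D_FlG_lga (i k j : Fin 4) :
    (lga i j = k) = (j = if i = 1 ∨ i = 3 then k - i else i - k) := by
  unfold lga
  revert i k j
  decide

private theorem D_FlG_cna1 (i k : Fin 4) :
    cna i (if i = 1 ∨ i = 3 then k - i else i - k) = if i = 1 ∨ i = 3 then k else k - 1 := by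
  unfold cna
  revert i k
  decide

private theorem D_FlG_cna2 (i k : Fin 4) :
    cna i ((if i = 1 ∨ i = 3 then k - i else i - k) - 1) = if i = 1 ∨ i = 3 then k - 1 else k := by
  unfold cna
  revert i k
  decide

private theorem D_FlG_over (s κ z : ℂ) (t : Fin 4 → ℂ) (hα hδ hκ hp hm : ℂ) (g : Fin 4 → ℂ)
    (ht : t 0 + t 1 + t 2 + t 3 = 0) (j : Fin 4) :
    ver false (D_FlG_oct false s κ z t hα hδ hκ hp hm g) j =
      -(Real.pi * I * (t (j - 1) + t j)) + s * (g j - g (j - 1)) := by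
  fin_cases j
  · change ver false (D_FlG_oct false s κ z t hα hδ hκ hp hm g) 0 =
      -(Real.pi * I * (t 3 + t 0)) + s * (g 0 - g 3)
    simp only [ver, D_FlG_oct, Matrix.cons_val_zero, Matrix.cons_val_one, Matrix.cons_val,
      Bool.false_eq_true, if_false, false_and]
    linear_combination (Real.pi * I) * ht
  · change ver false (D_FlG_oct false s κ z t hα hδ hκ hp hm g) 1 =
      -(Real.pi * I * (t 0 + t 1)) + s * (g 1 - g 0)
    simp only [ver, D_FlG_oct, Matrix.cons_val_zero, Matrix.cons_val_one, Matrix.cons_val,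
      Bool.false_eq_true, if_false, false_and]
    linear_combination (Real.pi * I) * ht
  · change ver false (D_FlG_oct false s κ z t hα hδ hκ hp hm g) 2 =
      -(Real.pi * I * (t 1 + t 2)) + s * (g 2 - g 1)
    simp only [ver, D_FlG_oct, Matrix.cons_val_zero, Matrix.cons_val_one, Matrix.cons_val,
      Bool.false_eq_true, if_false, false_and]
    linear_combination (Real.pi * I) * ht
  · change ver false (D_FlG_oct false s κ z t hα hδ hκ hp hm g) 3 =
      -(Real.pi * I * (t 2 + t 3)) + s * (g 3 - g 2)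
    simp only [ver, D_FlG_oct, Matrix.cons_val_zero, Matrix.cons_val_one, Matrix.cons_val,
      Bool.false_eq_true, if_false, false_and]
    linear_combination (Real.pi * I) * ht

private theorem D_FlG_tk (X : Fin c → Fin 4) (v : Fin c) :
    T.tt (fun u => 1 - xk X u) (xs X) v 0 + T.tt (fun u => 1 - xk X u) (xs X) v 1 +
      T.tt (fun u => 1 - xk X u) (xs X) v 2 + T.tt (fun u => 1 - xk X u) (xs X) v 3 = 1 :=
  D_FlG_tt (T := T) (fun u => 1 - xk X u) (xs X) v (D_FlG_xs X v)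

private theorem D_FlG_t0 (hs : ∀ v, ∑ k, σ v k = 1) (v : Fin c) :
    (T.tt τ σ v 0 - T.tt (fun u => 1 - xk X u) (xs X) v 0) +
    (T.tt τ σ v 1 - T.tt (fun u => 1 - xk X u) (xs X) v 1) +
    (T.tt τ σ v 2 - T.tt (fun u => 1 - xk X u) (xs X) v 2) +
    (T.tt τ σ v 3 - T.tt (fun u => 1 - xk X u) (xs X) v 3) = 0 := by
  linear_combination D_FlG_tt (T := T) τ σ v (hs v) - D_FlG_tk (T := T) X v

private theorem D_FlG_V (i : Fin 4) (s κ z : ℂ) (θ : Fin 4 → ℂ) (hα hδ hκ hp hm : ℂ)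
    (G : Fin 4 → ℂ) (k : Fin 4)
    (ht : θ (cna i 0) + θ (cna i 1) + θ (cna i 2) + θ (cna i 3) = 0) :
    (∑ j, if lga i j = k then ver false (D_FlG_oct false ((if i = 1 ∨ i = 3 then 1 else -1) * s)
      κ z (fun j => θ (cna i j)) hα hδ hκ hp hm (fun j => G (cna i j))) j else 0) =
      -(Real.pi * I * (θ (k - 1) + θ k)) + s * (G k - G (k - 1)) := by
  have h1 := D_FlG_over ((if i = 1 ∨ i = 3 then 1 else -1) * s)
    κ z (fun j => θ (cna i j)) hα hδ hκ hp hm (fun j => G (cna i j)) ht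
    (if i = 1 ∨ i = 3 then k - i else i - k)
  simp only [D_FlG_cna1, D_FlG_cna2] at h1
  simp only [D_FlG_lga, Finset.sum_ite_eq', Finset.mem_univ, if_true]
  rw [h1]
  by_cases hi : i = 1 ∨ i = 3
  · simp only [hi, if_true]
    ring
  · simp only [hi, if_false]
    ring

/-- The twist region part of the sum at the edge from the strand `0` to the leg `k` of `v`. -/
theorem fver (hs : ∀ v, ∑ k, σ v k = 1) (v : Fin c) (k : Fin 4) (hv : T.isEnd v = false) :
    (∑ j, if lga (T.one v) j = k then ver (T.isEnd v) ((T.fpar a N X τ z σ).x v) j else 0) =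
      -(Real.pi * I * (csr (τ v) (k - 1) - σ v (k - 1) - (csr (1 - xk X v) (k - 1) - xs X v (k - 1)) +
        (csr (τ v) k - σ v k - (csr (1 - xk X v) k - xs X v k)))) +
      ((hh (csr (τ v) k - σ v k) + Real.pi * I * T.xi N v k) -
        (hh (csr (τ v) (k - 1) - σ v (k - 1)) + Real.pi * I * T.xi N v (k - 1))) ∧
    (∑ j, if lga (T.one v) j = k then ver (T.isEnd v) ((T.fpar a N X τ z σ).x' v) j else 0) =
      -(Real.pi * I * (csr (τ v) (k - 1) - σ v (k - 1) - (csr (1 - xk X v) (k - 1) - xs X v (k - 1)) +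
        (csr (τ v) k - σ v k - (csr (1 - xk X v) k - xs X v k)))) -
      ((hh (csr (τ v) k - σ v k) + Real.pi * I * T.xi N v k) -
        (hh (csr (τ v) (k - 1) - σ v (k - 1)) + Real.pi * I * T.xi N v (k - 1))) := by
  have ht := D_FlG_t0 (T := T) (τ := τ) (X := X) hs v
  have hx : (T.fpar a N X τ z σ).x v = T.flv a N X τ z σ (T.eps v) v := rfl
  have hx' : (T.fpar a N X τ z σ).x' v = T.flv a N X τ z σ (-T.eps v) v := rfl
  have key := fun s => D_FlG_V (T.one v) s (1 - τ v - xk X v) (T.zf z v + T.mv a N v / 2)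
    (fun k => csr (τ v) k - σ v k - (csr (1 - xk X v) k - xs X v k))
    (hh (1 / 2 + T.zf z v) + Real.pi * I * ((1 - T.mv a N v) / 2))
    (hh (T.tt τ σ v 0 + T.tt τ σ v 1) + Real.pi * I * xib (T.Nj N v 0) (T.Nj N v 2))
    (hh (1 - τ v))
    (hh (1 / 2 - (1 - τ v) + T.zf z v) + Real.pi * I * gpB (T.tv v) (a v) (T.Nj N v))
    (hh (1 / 2 - (1 - τ v) - T.zf z v) + Real.pi * I * gmB (T.tv v) (a v) (T.Nj N v))
    (fun k => hh (csr (τ v) k - σ v k) + Real.pi * I * T.xi N v k) k ht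
  have e1 : T.eps v = (if T.one v = 1 ∨ T.one v = 3 then 1 else -1) * 1 := by
    rw [mul_one]; rfl
  have e2 : -T.eps v = (if T.one v = 1 ∨ T.one v = 3 then 1 else -1) * (-1) := by
    rw [e1]; ring
  rw [hx, hx', D_FlG_flv hs, D_FlG_flv hs, hv, e2]
  nth_rewrite 1 [e1]
  simp only [D_FlG_xiB]
  constructor
  · refine (key 1).trans ?_
    ring
  · refine (key (-1)).trans ?_
    ring


private theorem D_FlG_succ (σ : ℕ → ℂ) (j : ℕ) : psm σ (j + 1) = psm σ j + σ j := by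
  unfold psm
  rw [Finset.sum_range_succ]

private theorem D_FlG_zero (σ : ℕ → ℂ) : psm σ 0 = 0 := by
  unfold psm
  rw [Finset.sum_range_zero]

/-- A fan with the arcs `o`, their partial sums `p`, and the numbers `H`, `P`. -/
private structure D_FlG_Fan (d : ℕ) (s : ℂ) (o p H P : ℕ → ℂ) (x : ℕ → Fin 3 → ℂ) : Prop where
  zero : p 0 = 0
  succ : ∀ j, p (j + 1) = p j + o j
  last : p d = 0
  first : P 1 = H 0
  final : P (d - 1) = H (d - 1)
  x0 : ∀ j, 1 ≤ j → j + 2 ≤ d → x j 0 = Real.pi * I * o j + s * (P (j + 1) - P j)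
  x1 : ∀ j, 1 ≤ j → j + 2 ≤ d → x j 1 = -(Real.pi * I * p (j + 1)) + s * (P j - H j)
  x2 : ∀ j, 1 ≤ j → j + 2 ≤ d → x j 2 = Real.pi * I * p j + s * (H j - P (j + 1))

private theorem D_FlG_tel {d : ℕ} {s : ℂ} {o p H P : ℕ → ℂ} {x : ℕ → Fin 3 → ℂ}
    (h : D_FlG_Fan d s o p H P x) (m : ℕ) (hm : m + 2 ≤ d) :
    ∑ i ∈ Finset.Ico 1 (m + 1), x i 0 =
      Real.pi * I * (p (m + 1) - p 1) + s * (P (m + 1) - P 1) := by
  induction m with
  | zero => simp
  | succ m ih =>
    rw [Finset.sum_Ico_succ_top (by omega), ih (by omega), h.x0 (m + 1) (by omega) (by omega),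
      h.succ (m + 1)]
    ring

private theorem D_FlG_pol {d : ℕ} {s : ℂ} {o p H P : ℕ → ℂ} {x : ℕ → Fin 3 → ℂ}
    (h : D_FlG_Fan d s o p H P x) (hd : 2 ≤ d) (j : ℕ) (hj : j < d) :
    pol d x j = Real.pi * I * (-o ((j + (d - 1)) % d) - o j) +
      s * (H ((j + (d - 1)) % d) - H j) := by
  have hl : p (d - 1) = -o (d - 1) := by
    have h2 := h.succ (d - 1)
    rw [Nat.sub_add_cancel (by omega), h.last] at h2
    linear_combination -h2
  have hp1 : p 1 = o 0 := by
    have h2 := h.succ 0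
    rw [h.zero, zero_add, zero_add] at h2
    exact h2
  unfold pol
  rcases Nat.eq_zero_or_pos j with h0 | h0
  · subst h0
    have e1 : (0 + (d - 1)) % d = d - 1 := by
      rw [zero_add]
      exact Nat.mod_eq_of_lt (by omega)
    have h3 := D_FlG_tel h (d - 2) (by omega)
    rw [show d - 2 + 1 = d - 1 by omega] at h3
    rw [if_pos rfl, e1, h3, h.first, h.final, hl, hp1]
  · have e1 : (j + (d - 1)) % d = j - 1 := by
      have : j + (d - 1) = (j - 1) + d := by omega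
      rw [this, Nat.add_mod_right]
      exact Nat.mod_eq_of_lt (by omega)
    rw [if_neg (by omega), e1]
    obtain ⟨i, rfl⟩ : ∃ i, j = i + 1 := ⟨j - 1, by omega⟩
    rw [Nat.add_sub_cancel]
    have e2 : (if 2 ≤ i + 1 then x i 2 else 0) = Real.pi * I * p i + s * (H i - P (i + 1)) := by
      by_cases h2 : 2 ≤ i + 1
      · rw [if_pos h2, h.x2 i (by omega) (by omega)]
      · have h4 : i = 0 := by omega
        subst h4
        rw [if_neg h2, h.zero, zero_add, h.first]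
        ring
    have e3 : (if i + 1 + 2 ≤ d then x (i + 1) 1 else 0) =
        -(Real.pi * I * p (i + 1 + 1)) + s * (P (i + 1) - H (i + 1)) := by
      by_cases h2 : i + 1 + 2 ≤ d
      · rw [if_pos h2, h.x1 (i + 1) (by omega) (by omega)]
      · have h4 : d = i + 2 := by omega
        subst h4
        have h5 := h.final
        have h6 := h.last
        rw [show i + 2 - 1 = i + 1 by omega] at h5
        rw [if_neg h2, h6, h5]
        ring
    rw [e2, e3, h.succ (i + 1), h.succ i]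
    ring

private theorem D_FlG_bas {d : ℕ} {o p H P : ℕ → ℂ} {x x' : ℕ → Fin 3 → ℂ}
    (h : D_FlG_Fan d 1 o p H P x) (h' : D_FlG_Fan d (-1) o p H P x') (hd : 3 ≤ d) (j : ℕ)
    (hj : j < d) : bas d x j + bas d x' j = 2 * Real.pi * I * o j := by
  have hl : p (d - 1) = -o (d - 1) := by
    have h2 := h.succ (d - 1)
    rw [Nat.sub_add_cancel (by omega), h.last] at h2
    linear_combination -h2
  have hp1 : p 1 = o 0 := by
    have h2 := h.succ 0
    rw [h.zero, zero_add, zero_add] at h2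
    exact h2
  unfold bas
  split_ifs with h2 h3
  · subst h2
    rw [h.x2 1 le_rfl (by omega), h'.x2 1 le_rfl (by omega), hp1]
    ring
  · have h4 : j = d - 1 := by omega
    subst h4
    rw [h.x1 (d - 2) (by omega) (by omega), h'.x1 (d - 2) (by omega) (by omega),
      show d - 2 + 1 = d - 1 by omega, hl]
    ring
  · rw [h.x0 j (by omega) (by omega), h'.x0 j (by omega) (by omega)]
    ring

private theorem D_FlG_diag {d : ℕ} {o p H P : ℕ → ℂ} {x x' : ℕ → Fin 3 → ℂ}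
    (h : D_FlG_Fan d 1 o p H P x) (h' : D_FlG_Fan d (-1) o p H P x') (j : ℕ)
    (hj : 2 ≤ j) (hjd : j + 2 ≤ d) : x (j - 1) 1 + x j 2 + x' (j - 1) 1 + x' j 2 = 0 := by
  rw [h.x1 (j - 1) (by omega) (by omega), h'.x1 (j - 1) (by omega) (by omega),
    h.x2 j (by omega) (by omega), h'.x2 j (by omega) (by omega),
    Nat.sub_add_cancel (by omega : 1 ≤ j)]
  ring

private theorem D_FlG_msymm {leg : Fin c → Fin 4 → ℕ} {p q : Fin c × Fin 4} (h : Mate leg p q) :
    Mate leg q p := ⟨h.1.symm, h.2.symm⟩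

private theorem D_FlG_mod {cor leg : Fin c → Fin 4 → ℕ} {f d : ℕ} {b : ℕ → Fin c × Fin 4}
    (h : IsBd cor leg f d b) (n : ℕ) : b (n % d) = b n :=
  Function.Periodic.map_mod_nat (show Function.Periodic b d from h.per) n

/-- The corner before `p` at its face. -/
private theorem D_FlG_prev (hT : T.Of w) (hG : T.Good) {p q : Fin c × Fin 4}
    (h : Mate T.leg p q) (hp : T.cor p.1 p.2 ∈ T.F) :
    ∃ j < T.deg (T.cor p.1 p.2), T.bd (T.cor p.1 p.2) j = p ∧
      T.bd (T.cor p.1 p.2) (j + (T.deg (T.cor p.1 p.2) - 1)) = (q.1, q.2 - 1) := by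
  have B := hT.bdy _ hp
  obtain ⟨j, hj, hjp⟩ := (B.mem p).1 rfl
  refine ⟨j, hj, hjp, ?_⟩
  have h1 := B.mate (j + (T.deg (T.cor p.1 p.2) - 1))
  rw [show j + (T.deg (T.cor p.1 p.2) - 1) + 1 = j + T.deg (T.cor p.1 p.2) by omega, B.per,
    hjp] at h1
  have h2 := hG.un p q _ h (D_FlG_msymm h1)
  rw [h2]
  ext1
  · rfl
  · simp

/-- The integral parts at a face have the sum `1`. -/
private theorem D_FlG_xf (hT : T.Of w) (hX : T.Match X) (f : ℕ) (hf : f ∈ T.F) :
    psm (T.sf (xs X) f) (T.deg f) = 1 := by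
  have h := sf_sum (hT.bdy f hf) (xs X)
  have h1 : psm (T.sf (xs X) f) (T.deg f) =
      ∑ j ∈ Finset.range (T.deg f), xs X (T.bd f j).1 (T.bd f j).2 := rfl
  rw [h1, h]
  have h2 : ∀ v, (∑ k, if T.cor v k = f then xs X v k else 0) =
      if T.cor v (X v) = f then 1 else 0 := by
    intro v
    rw [Finset.sum_eq_single (X v)]
    · simp [xs]
    · intro k _ hk
      simp [xs, hk]
    · intro h
      exact absurd (Finset.mem_univ _) h
  simp only [h2]
  obtain ⟨v, hv⟩ := hX.sur f hf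
  rw [Finset.sum_eq_single v]
  · rw [if_pos hv]
  · intro u _ hu
    rw [if_neg]
    intro h3
    exact hu (hX.inj u v (h3.trans hv.symm))
  · intro h
    exact absurd (Finset.mem_univ _) h

/-- The numbers at the diagonals. -/
private noncomputable def D_FlG_P (d : ℕ) (o H : ℕ → ℂ) (j : ℕ) : ℂ :=
  if j = 1 then H 0 else if j + 1 = d then H (d - 1) else hh (psm o j)

private theorem D_FlG_fan (hT : T.Of w) (hN : T.Nice) (hX : T.Match X)
    (hf : ∀ f ∈ T.F, ∑ v, ∑ k, (if T.cor v k = f then σ v k else 0) = 1)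
    (f : ℕ) (hF : f ∈ T.F) (s : ℂ) :
    D_FlG_Fan (T.deg f) s (fun j => T.sf σ f j - T.sf (xs X) f j)
      (fun j => psm (T.sf σ f) j - psm (T.sf (xs X) f) j)
      (fun j => hh (T.sf σ f j) + Real.pi * I * T.sf (T.xi N) f j)
      (D_FlG_P (T.deg f) (T.sf σ f) (fun j => hh (T.sf σ f j) + Real.pi * I * T.sf (T.xi N) f j))
      (T.flf N X σ s f) := by
  have hd := hN.deg f hF
  have h1 : psm (T.sf σ f) (T.deg f) = 1 := by
    have h := sf_sum (hT.bdy f hF) σ
    rw [hf f hF] at h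
    exact h
  have h2 := D_FlG_xf hT hX f hF
  have hone : psm (T.sf σ f) 1 = T.sf σ f 0 := by
    rw [D_FlG_succ, D_FlG_zero, zero_add]
  have hlast : hh (psm (T.sf σ f) (T.deg f - 1)) = hh (T.sf σ f (T.deg f - 1)) := by
    have h3 := D_FlG_succ (T.sf σ f) (T.deg f - 1)
    rw [Nat.sub_add_cancel (by omega), h1] at h3
    have h4 : psm (T.sf σ f) (T.deg f - 1) = 1 - T.sf σ f (T.deg f - 1) := by
      linear_combination -h3
    rw [h4, hh_one_sub]
  have hP1 : ∀ j, 1 ≤ j → j + 2 ≤ T.deg f →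
      D_FlG_P (T.deg f) (T.sf σ f) (fun j => hh (T.sf σ f j) + Real.pi * I * T.sf (T.xi N) f j) j =
        hh (psm (T.sf σ f) j) + Real.pi * I * (if j = 1 then T.sf (T.xi N) f 0 else 0) := by
    intro j hj hjd
    unfold D_FlG_P
    by_cases h3 : j = 1
    · subst h3
      rw [if_pos rfl, if_pos rfl, hone]
    · rw [if_neg h3, if_neg h3, if_neg (by omega)]
      ring
  have hP2 : ∀ j, 1 ≤ j → j + 2 ≤ T.deg f →
      D_FlG_P (T.deg f) (T.sf σ f) (fun j => hh (T.sf σ f j) + Real.pi * I * T.sf (T.xi N) f j)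
        (j + 1) = hh (1 - psm (T.sf σ f) (j + 1)) +
          Real.pi * I * (if j + 2 = T.deg f then T.sf (T.xi N) f (j + 1) else 0) := by
    intro j hj hjd
    unfold D_FlG_P
    rw [if_neg (by omega), hh_one_sub]
    by_cases h3 : j + 2 = T.deg f
    · rw [if_pos (by omega), if_pos h3]
      have h4 : T.deg f - 1 = j + 1 := by omega
      rw [h4] at hlast ⊢
      rw [hlast]
    · rw [if_neg (by omega), if_neg h3]
      ring
  constructor
  · simp only [D_FlG_zero, sub_zero]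
  · intro j
    simp only [D_FlG_succ]
    ring
  · simp only [h1, h2, sub_self]
  · simp only [D_FlG_P, if_true]
  · by_cases h3 : T.deg f = 2
    · have B := hT.bdy f hF
      have m0 := B.mate 0
      have m1 := B.mate 1
      have h5 := B.per 0
      rw [h3] at h5
      rw [show 0 + 2 = 1 + 1 by norm_num] at h5
      rw [h5] at m1
      rw [zero_add] at m0
      have h6 : T.sf (T.xi N) f 0 = T.sf (T.xi N) f 1 := by
        unfold TData.sf TData.xi
        have m0' := m0.2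
        have m1' := m1.2
        simp only at m0' m1'
        rw [m0', m1', D_FlG_xib]
      have h7 : hh (T.sf σ f 0) = hh (T.sf σ f 1) := by
        rw [h3, hone] at hlast
        exact hlast
      rw [h3]
      unfold D_FlG_P
      rw [if_pos (by norm_num)]
      show hh (T.sf σ f 0) + Real.pi * I * T.sf (T.xi N) f 0 =
        hh (T.sf σ f 1) + Real.pi * I * T.sf (T.xi N) f 1
      rw [h6, h7]
    · unfold D_FlG_P
      rw [if_neg (by omega), if_pos (by omega)]
  · intro j hj hjd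
    rw [hP1 j hj hjd, hP2 j hj hjd]
    unfold TData.flf fl TData.arf TData.Hf
    simp
  · intro j hj hjd
    rw [hP1 j hj hjd]
    unfold TData.flf fl TData.arf TData.Hf
    simp
    ring
  · intro j hj hjd
    rw [hP2 j hj hjd]
    unfold TData.flf fl TData.arf TData.Hf
    simp

/-- The face part of the sum at the edge from the strand `0` to the leg `p`. -/
theorem fpls (hT : T.Of w) (hG : T.Good) (hN : T.Nice) (hX : T.Match X)
    (hf : ∀ f ∈ T.F, ∑ v, ∑ k, (if T.cor v k = f then σ v k else 0) = 1)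
    {p q : Fin c × Fin 4} (h : Mate T.leg p q) (hp : T.cor p.1 p.2 ∈ T.F) :
    T.pls (T.fpar a N X τ z σ).z p =
      Real.pi * I * (-(σ q.1 (q.2 - 1) - xs X q.1 (q.2 - 1)) - (σ p.1 p.2 - xs X p.1 p.2)) +
      ((hh (σ q.1 (q.2 - 1)) + Real.pi * I * T.xi N q.1 (q.2 - 1)) -
        (hh (σ p.1 p.2) + Real.pi * I * T.xi N p.1 p.2)) ∧
    T.pls (T.fpar a N X τ z σ).z' p =
      Real.pi * I * (-(σ q.1 (q.2 - 1) - xs X q.1 (q.2 - 1)) - (σ p.1 p.2 - xs X p.1 p.2)) -
      ((hh (σ q.1 (q.2 - 1)) + Real.pi * I * T.xi N q.1 (q.2 - 1)) -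
        (hh (σ p.1 p.2) + Real.pi * I * T.xi N p.1 p.2)) := by
  obtain ⟨j, hj, hjp, hr⟩ := D_FlG_prev hT hG h hp
  have B := hT.bdy _ hp
  have e1 : ∀ ρ : Fin c → Fin 4 → ℂ, T.sf ρ (T.cor p.1 p.2) j = ρ p.1 p.2 := by
    intro ρ
    unfold TData.sf
    rw [hjp]
  have e2 : ∀ ρ : Fin c → Fin 4 → ℂ, T.sf ρ (T.cor p.1 p.2) ((j + (T.deg (T.cor p.1 p.2) - 1)) %
      T.deg (T.cor p.1 p.2)) = ρ q.1 (q.2 - 1) := by
    intro ρ
    unfold TData.sf
    rw [D_FlG_mod B, hr]
  have key : ∀ g : ℕ → ℂ, (∑ i ∈ Finset.range (T.deg (T.cor p.1 p.2)),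
      if T.bd (T.cor p.1 p.2) i = p then g i else 0) = g j := by
    intro g
    rw [Finset.sum_eq_single_of_mem j (Finset.mem_range.mpr hj), if_pos hjp]
    intro i hi hij
    rw [if_neg]
    intro hip
    exact hij (B.inj i (Finset.mem_range.mp hi) j hj (hip.trans hjp.symm))
  have hP := D_FlG_pol (D_FlG_fan (N := N) hT hN hX hf _ hp 1) (hN.deg _ hp) j hj
  have hM := D_FlG_pol (D_FlG_fan (N := N) hT hN hX hf _ hp (-1)) (hN.deg _ hp) j hj
  simp only [e1, e2] at hP hM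
  unfold TData.pls
  rw [if_pos hp, if_pos hp, key, key]
  constructor
  · refine Eq.trans ?_ (hP.trans ?_)
    · rfl
    · ring
  · refine Eq.trans ?_ (hM.trans ?_)
    · rfl
    · ring


/-! ### The sums at a twist region -/

private theorem D_FlG_ospk (e : Bool) (κ z : ℂ) (t : Fin 4 → ℂ) (hα hδ hκ hp hm : ℂ)
    (g : Fin 4 → ℂ) (s : ℂ) :
    spk (D_FlG_oct e s κ z t hα hδ hκ hp hm g) 0 +
      spk (D_FlG_oct e (-s) κ z t hα hδ hκ hp hm g) 0 = 2 * Real.pi * I * z ∧
    spk (D_FlG_oct e s κ z t hα hδ hκ hp hm g) 3 +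
      spk (D_FlG_oct e (-s) κ z t hα hδ hκ hp hm g) 3 = 2 * Real.pi * I * z ∧
    spk (D_FlG_oct e s κ z t hα hδ hκ hp hm g) 1 +
      spk (D_FlG_oct e (-s) κ z t hα hδ hκ hp hm g) 1 = -(2 * Real.pi * I * z) ∧
    spk (D_FlG_oct e s κ z t hα hδ hκ hp hm g) 2 +
      spk (D_FlG_oct e (-s) κ z t hα hδ hκ hp hm g) 2 = -(2 * Real.pi * I * z) := by
  refine ⟨?_, ?_, ?_, ?_⟩ <;> simp [spk, D_FlG_oct] <;> ring

private theorem D_FlG_ochd (e : Bool) (κ z : ℂ) (t : Fin 4 → ℂ) (hα hδ hκ hp hm : ℂ)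
    (g : Fin 4 → ℂ) (s : ℂ) :
    chd (D_FlG_oct e s κ z t hα hδ hκ hp hm g) 0 +
      chd (D_FlG_oct e (-s) κ z t hα hδ hκ hp hm g) 0 =
        2 * Real.pi * I * (κ + if e = true then 0 else t 0) ∧
    chd (D_FlG_oct e s κ z t hα hδ hκ hp hm g) 1 +
      chd (D_FlG_oct e (-s) κ z t hα hδ hκ hp hm g) 1 =
        2 * Real.pi * I * (-κ + z + if e = true then 0 else t 1) ∧
    chd (D_FlG_oct e s κ z t hα hδ hκ hp hm g) 2 +
      chd (D_FlG_oct e (-s) κ z t hα hδ hκ hp hm g) 2 =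
        2 * Real.pi * I * (κ + if e = true then 0 else t 2) ∧
    chd (D_FlG_oct e s κ z t hα hδ hκ hp hm g) 3 +
      chd (D_FlG_oct e (-s) κ z t hα hδ hκ hp hm g) 3 =
        2 * Real.pi * I * (-κ - z + if e = true then 0 else t 3) := by
  cases e
  · refine ⟨?_, ?_, ?_, ?_⟩ <;> simp [chd, D_FlG_oct] <;> ring
  · refine ⟨?_, ?_, ?_, ?_⟩ <;> simp [chd, D_FlG_oct] <;> ring

private theorem D_FlG_odia (κ z : ℂ) (t : Fin 4 → ℂ) (hα hδ hκ hp hm : ℂ) (g : Fin 4 → ℂ) (s : ℂ) :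
    dia (D_FlG_oct false s κ z t hα hδ hκ hp hm g) = Real.pi * I * (t 0 + t 1 + t 2 + t 3) +
      s * (2 * hκ - hp - hm + (g 1 + g 3 - g 0 - g 2)) ∧
    dia (D_FlG_oct true s κ z t hα hδ hκ hp hm g) = s * (2 * hκ - hp - hm) := by
  refine ⟨?_, ?_⟩ <;> simp [dia, D_FlG_oct] <;> ring

private theorem D_FlG_olon (e : Bool) (κ z : ℂ) (t : Fin 4 → ℂ) (hα hδ hκ hp hm : ℂ)
    (g : Fin 4 → ℂ) (s : ℂ) :
    D_FlG_oct e s κ z t hα hδ hκ hp hm g 0 2 - D_FlG_oct e s κ z t hα hδ hκ hp hm g 3 2 =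
      2 * Real.pi * I * z ∧
    D_FlG_oct e s κ z t hα hδ hκ hp hm g 3 1 - D_FlG_oct e s κ z t hα hδ hκ hp hm g 0 1 =
      s * (hm - hp) := by
  refine ⟨?_, ?_⟩ <;> simp [D_FlG_oct] <;> ring

private theorem D_FlG_alt (s : Fin 4 → ℂ) (i : Fin 4) :
    s (cna i 1) + s (cna i 3) - s (cna i 0) - s (cna i 2) = s 0 + s 2 - s 1 - s 3 := by
  fin_cases i
  · change s 2 + s 0 - s 3 - s 1 = _
    ring
  · change s 2 + s 0 - s 1 - s 3 = _
    ring
  · change s 0 + s 2 - s 1 - s 3 = _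
    ring
  · change s 0 + s 2 - s 3 - s 1 = _
    ring

/-- The identity between the integers in the equation of the edge `a_1 a_3`. -/
private theorem D_FlG_bit (hn : NOk T a N) (v : Fin c) :
    xiB (T.Nj N v) 1 + xiB (T.Nj N v) 3 - xiB (T.Nj N v) 0 - xiB (T.Nj N v) 2 =
      gpB (T.tv v) (a v) (T.Nj N v) + gmB (T.tv v) (a v) (T.Nj N v) := by
  have e : gpB (T.tv v) (a v) (T.Nj N v) + gmB (T.tv v) (a v) (T.Nj N v) =
      2 * (nh (T.Nj N v 1) (T.Nj N v 2) - nh (T.Nj N v 0) (T.Nj N v 1)) := by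
    unfold gpB gmB
    ring
  rw [e]
  unfold xiB
  change xib (T.Nj N v 1) (T.Nj N v 2) + xib (T.Nj N v 3) (T.Nj N v 0) -
    xib (T.Nj N v 0) (T.Nj N v 1) - xib (T.Nj N v 2) (T.Nj N v 3) = _
  rcases Int.even_or_odd (a v) with h | h
  · obtain ⟨h1, h2⟩ := nj_even hn v h
    rw [h1, ← h2]
    cases T.Nj N v 1 <;> cases T.Nj N v 2 <;> norm_num [xib, nh]
  · obtain ⟨h1, h2⟩ := nj_odd hn v h
    rw [h1, h2]
    cases T.Nj N v 2 <;> cases T.Nj N v 3 <;> norm_num [xib, nh]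

private theorem D_FlG_zpm (v : Fin c) :
    hh (1 / 2 - (1 - τ v) + T.zf z v) + hh (1 / 2 - (1 - τ v) - T.zf z v) =
      hh (τ v - 1 / 2 - z v) + hh (τ v - 1 / 2 + z v) := by
  simp only [TData.zf]
  split_ifs
  · rw [show 1 / 2 - (1 - τ v) + z v = τ v - 1 / 2 + z v by ring,
      show 1 / 2 - (1 - τ v) - z v = τ v - 1 / 2 - z v by ring]
    ring
  · rw [show 1 / 2 - (1 - τ v) + -z v = τ v - 1 / 2 - z v by ring,
      show 1 / 2 - (1 - τ v) - -z v = τ v - 1 / 2 + z v by ring]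

private theorem D_FlG_cor (i : Fin 4) :
    (cna i 1 = i + 1 ∧ cna i 2 = i + 2) ∨ (cna i 1 = i + 2 ∧ cna i 2 = i + 1) := by
  fin_cases i
  · right; exact ⟨rfl, rfl⟩
  · left; exact ⟨rfl, rfl⟩
  · right; exact ⟨rfl, rfl⟩
  · left; exact ⟨rfl, rfl⟩

/-- The matching at an end. -/
private theorem D_FlG_X (hN : T.Nice) (hX : T.Match X) (v : Fin c) (hv : T.isEnd v = true) :
    xk X v = 0 ∧ X v = cna (T.one v) 2 := by
  obtain ⟨b1, b2, b3, b4⟩ := hN.end0 v hv
  have h1 := hX.side v hv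
  have h2 := hX.mem v
  have c1 : X v ≠ T.one v := by
    intro h
    rw [h] at h2
    exact b1 h2
  have c2 : X v ≠ T.one v - 1 := by
    intro h
    rw [h] at h2
    exact b2 h2
  constructor
  · unfold xk
    rw [if_neg]
    rintro (h | h) <;> rcases h1 with h1 | h1 <;> rw [h1] at h <;> revert h <;> decide
  · clear b1 b2 b3 b4 h2
    generalize T.one v = i at c1 c2 ⊢
    generalize X v = x at c1 c2 h1 ⊢
    unfold cna
    revert c1 c2 h1
    revert i x
    decide

/-- `σ v k` and its integral part at the bounded corners of an end. -/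
private theorem D_FlG_end (hN : T.Nice) (hX : T.Match X) (hc : CritT T a τ z σ A B) (v : Fin c)
    (hv : T.isEnd v = true) :
    σ v (cna (T.one v) 1) = 1 - τ v ∧ xs X v (cna (T.one v) 1) = 0 ∧
      σ v (cna (T.one v) 2) = τ v ∧ xs X v (cna (T.one v) 2) = 1 := by
  obtain ⟨-, -, f1, f2⟩ := hN.end0 v hv
  obtain ⟨-, hx⟩ := D_FlG_X hN hX v hv
  have c1 := (D_FlG_csr (τ v) (T.one v)).2.1
  have c2 := (D_FlG_csr (τ v) (T.one v)).2.2.1
  have hσ : σ v (cna (T.one v) 1) = csr (τ v) (cna (T.one v) 1) ∧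
      σ v (cna (T.one v) 2) = csr (τ v) (cna (T.one v) 2) := by
    rcases D_FlG_cor (T.one v) with ⟨k1, k2⟩ | ⟨k1, k2⟩
    · rw [k1, k2]
      exact ⟨hc.fin v _ f1 hv, hc.fin v _ f2 hv⟩
    · rw [k1, k2]
      exact ⟨hc.fin v _ f2 hv, hc.fin v _ f1 hv⟩
  refine ⟨hσ.1.trans c1, ?_, hσ.2.trans c2, ?_⟩
  · unfold xs
    rw [if_neg]
    rw [hx]
    generalize T.one v = i
    unfold cna
    revert i
    decide
  · unfold xs
    rw [if_pos hx.symm]

private theorem D_FlG_out (hX : T.Match X) (hc : CritT T a τ z σ A B) (v : Fin c) (k : Fin 4)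
    (h : T.cor v k ∉ T.F) : σ v k - xs X v k = 0 := by
  rw [hc.out v k h]
  unfold xs
  rw [if_neg]
  · ring
  · intro h1
    rw [h1] at h
    exact h (hX.mem v)

/-- `fpar` at a twist region. -/
private theorem D_FlG_x (hc : CritT T a τ z σ A B) (v : Fin c) :
    (T.fpar a N X τ z σ).x v = D_FlG_oct (T.isEnd v) (T.eps v) (1 - τ v - xk X v)
      (T.zf z v + T.mv a N v / 2)
      (fun j => T.tt τ σ v j - T.tt (fun u => 1 - xk X u) (xs X) v j)
      (hh (1 / 2 + T.zf z v) + Real.pi * I * ((1 - T.mv a N v) / 2))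
      (hh (T.tt τ σ v 0 + T.tt τ σ v 1) + Real.pi * I * xib (T.Nj N v 0) (T.Nj N v 2))
      (hh (1 - τ v))
      (hh (1 / 2 - (1 - τ v) + T.zf z v) + Real.pi * I * gpB (T.tv v) (a v) (T.Nj N v))
      (hh (1 / 2 - (1 - τ v) - T.zf z v) + Real.pi * I * gmB (T.tv v) (a v) (T.Nj N v))
      (fun j => hh (T.tt τ σ v j) + Real.pi * I * xiB (T.Nj N v) j) ∧
    (T.fpar a N X τ z σ).x' v = D_FlG_oct (T.isEnd v) (-T.eps v) (1 - τ v - xk X v)
      (T.zf z v + T.mv a N v / 2)
      (fun j => T.tt τ σ v j - T.tt (fun u => 1 - xk X u) (xs X) v j)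
      (hh (1 / 2 + T.zf z v) + Real.pi * I * ((1 - T.mv a N v) / 2))
      (hh (T.tt τ σ v 0 + T.tt τ σ v 1) + Real.pi * I * xib (T.Nj N v 0) (T.Nj N v 2))
      (hh (1 - τ v))
      (hh (1 / 2 - (1 - τ v) + T.zf z v) + Real.pi * I * gpB (T.tv v) (a v) (T.Nj N v))
      (hh (1 / 2 - (1 - τ v) - T.zf z v) + Real.pi * I * gmB (T.tv v) (a v) (T.Nj N v))
      (fun j => hh (T.tt τ σ v j) + Real.pi * I * xiB (T.Nj N v) j) :=
  ⟨D_FlG_flv hc.sumv _ v, D_FlG_flv hc.sumv _ v⟩

private theorem D_FlG_tj (v : Fin c) (j : Fin 4) :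
    T.tt τ σ v j - T.tt (fun u => 1 - xk X u) (xs X) v j + (σ v (cna (T.one v) j) -
      xs X v (cna (T.one v) j)) = csr (τ v) (cna (T.one v) j) - csr (1 - xk X v) (cna (T.one v) j) := by
  simp only [TData.tt]
  ring


private theorem D_FlG_gspk (hc : CritT T a τ z σ A B) (v : Fin c) :
    spk ((T.fpar a N X τ z σ).x v) 0 + spk ((T.fpar a N X τ z σ).x' v) 0 =
      0 + (T.fpar a N X τ z σ).U v ∧
    spk ((T.fpar a N X τ z σ).x v) 3 + spk ((T.fpar a N X τ z σ).x' v) 3 =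
      0 + (T.fpar a N X τ z σ).U v ∧
    spk ((T.fpar a N X τ z σ).x v) 1 + spk ((T.fpar a N X τ z σ).x' v) 1 =
      0 - (T.fpar a N X τ z σ).U v ∧
    spk ((T.fpar a N X τ z σ).x v) 2 + spk ((T.fpar a N X τ z σ).x' v) 2 =
      0 - (T.fpar a N X τ z σ).U v := by
  obtain ⟨h1, h2⟩ := D_FlG_x (N := N) (X := X) hc v
  have hU : (T.fpar a N X τ z σ).U v = 2 * Real.pi * I * (T.zf z v + T.mv a N v / 2) := rfl
  rw [h1, h2, hU, zero_add, zero_sub]
  exact D_FlG_ospk _ _ _ _ _ _ _ _ _ _ _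

private theorem D_FlG_gchd (hN : T.Nice) (hX : T.Match X) (hc : CritT T a τ z σ A B)
    (v : Fin c) :
    chd ((T.fpar a N X τ z σ).x v) 1 + chd ((T.fpar a N X τ z σ).x' v) 1 +
        (T.fpar a N X τ z σ).s v (cna (T.one v) 1) = 0 + (T.fpar a N X τ z σ).U v ∧
    chd ((T.fpar a N X τ z σ).x v) 2 + chd ((T.fpar a N X τ z σ).x' v) 2 +
        (T.fpar a N X τ z σ).s v (cna (T.one v) 2) = 2 * 0 := by
  obtain ⟨h1, h2⟩ := D_FlG_x (N := N) (X := X) hc v
  have hU : (T.fpar a N X τ z σ).U v = 2 * Real.pi * I * (T.zf z v + T.mv a N v / 2) := rfl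
  have hS : ∀ k, (T.fpar a N X τ z σ).s v k = 2 * Real.pi * I * (σ v k - xs X v k) := fun k => rfl
  have h3 := D_FlG_ochd (T.isEnd v) (1 - τ v - xk X v)
      (T.zf z v + T.mv a N v / 2)
      (fun j => T.tt τ σ v j - T.tt (fun u => 1 - xk X u) (xs X) v j)
      (hh (1 / 2 + T.zf z v) + Real.pi * I * ((1 - T.mv a N v) / 2))
      (hh (T.tt τ σ v 0 + T.tt τ σ v 1) + Real.pi * I * xib (T.Nj N v 0) (T.Nj N v 2))
      (hh (1 - τ v))
      (hh (1 / 2 - (1 - τ v) + T.zf z v) + Real.pi * I * gpB (T.tv v) (a v) (T.Nj N v))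
      (hh (1 / 2 - (1 - τ v) - T.zf z v) + Real.pi * I * gmB (T.tv v) (a v) (T.Nj N v))
      (fun j => hh (T.tt τ σ v j) + Real.pi * I * xiB (T.Nj N v) j) (T.eps v)
  rw [h1, h2, hU, hS, hS, h3.2.1, h3.2.2.1]
  cases hv : T.isEnd v with
  | false =>
    have t1 := D_FlG_tj (T := T) (τ := τ) (σ := σ) (X := X) v 1
    have t2 := D_FlG_tj (T := T) (τ := τ) (σ := σ) (X := X) v 2
    rw [(D_FlG_csr (τ v) (T.one v)).2.1, (D_FlG_csr (1 - xk X v) (T.one v)).2.1] at t1
    rw [(D_FlG_csr (τ v) (T.one v)).2.2.1, (D_FlG_csr (1 - xk X v) (T.one v)).2.2.1] at t2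
    simp only [Bool.false_eq_true, if_false]
    constructor
    · linear_combination (2 * Real.pi * I) * t1
    · linear_combination (2 * Real.pi * I) * t2
  | true =>
    obtain ⟨e1, e2, e3, e4⟩ := D_FlG_end hN hX hc v hv
    obtain ⟨e5, -⟩ := D_FlG_X hN hX v hv
    rw [e1, e2, e3, e4, e5]
    simp only [if_true]
    constructor <;> ring

private theorem D_FlG_gchd0 (hc : CritT T a τ z σ A B) (v : Fin c) (hv : T.isEnd v = false) :
    chd ((T.fpar a N X τ z σ).x v) 3 + chd ((T.fpar a N X τ z σ).x' v) 3 +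
        (T.fpar a N X τ z σ).s v (cna (T.one v) 3) = 0 - (T.fpar a N X τ z σ).U v ∧
    chd ((T.fpar a N X τ z σ).x v) 0 + chd ((T.fpar a N X τ z σ).x' v) 0 +
        (T.fpar a N X τ z σ).s v (cna (T.one v) 0) = 2 * 0 := by
  obtain ⟨h1, h2⟩ := D_FlG_x (N := N) (X := X) hc v
  have hU : (T.fpar a N X τ z σ).U v = 2 * Real.pi * I * (T.zf z v + T.mv a N v / 2) := rfl
  have hS : ∀ k, (T.fpar a N X τ z σ).s v k = 2 * Real.pi * I * (σ v k - xs X v k) := fun k => rfl
  have h3 := D_FlG_ochd (T.isEnd v) (1 - τ v - xk X v)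
      (T.zf z v + T.mv a N v / 2)
      (fun j => T.tt τ σ v j - T.tt (fun u => 1 - xk X u) (xs X) v j)
      (hh (1 / 2 + T.zf z v) + Real.pi * I * ((1 - T.mv a N v) / 2))
      (hh (T.tt τ σ v 0 + T.tt τ σ v 1) + Real.pi * I * xib (T.Nj N v 0) (T.Nj N v 2))
      (hh (1 - τ v))
      (hh (1 / 2 - (1 - τ v) + T.zf z v) + Real.pi * I * gpB (T.tv v) (a v) (T.Nj N v))
      (hh (1 / 2 - (1 - τ v) - T.zf z v) + Real.pi * I * gmB (T.tv v) (a v) (T.Nj N v))
      (fun j => hh (T.tt τ σ v j) + Real.pi * I * xiB (T.Nj N v) j) (T.eps v)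
  rw [h1, h2, hU, hS, hS, h3.1, h3.2.2.2, hv]
  have t3 := D_FlG_tj (T := T) (τ := τ) (σ := σ) (X := X) v 3
  have t0 := D_FlG_tj (T := T) (τ := τ) (σ := σ) (X := X) v 0
  rw [(D_FlG_csr (τ v) (T.one v)).2.2.2, (D_FlG_csr (1 - xk X v) (T.one v)).2.2.2] at t3
  rw [(D_FlG_csr (τ v) (T.one v)).1, (D_FlG_csr (1 - xk X v) (T.one v)).1] at t0
  simp only [Bool.false_eq_true, if_false]
  constructor
  · linear_combination (2 * Real.pi * I) * t3
  · linear_combination (2 * Real.pi * I) * t0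

private theorem D_FlG_gdia (hc : CritT T a τ z σ A B) (hn : NOk T a N) (v : Fin c)
    (hv : T.isEnd v = false) :
    dia ((T.fpar a N X τ z σ).x v) = 2 * 0 ∧ dia ((T.fpar a N X τ z σ).x' v) = 2 * 0 := by
  obtain ⟨h1, h2⟩ := D_FlG_x (N := N) (X := X) hc v
  have hz := D_FlG_zpm (T := T) (τ := τ) (z := z) v
  have hk : hh (1 - τ v) = hh (τ v) := hh_one_sub _
  have halt := D_FlG_alt (fun k => hh (csr (τ v) k - σ v k)) (T.one v)
  have htau := hc.tau v hv
  have hbit := D_FlG_bit hn v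
  have ht := D_FlG_t0 (T := T) (τ := τ) (X := X) hc.sumv v
  have h0 : 2 * hh (1 - τ v) -
      (hh (1 / 2 - (1 - τ v) + T.zf z v) + Real.pi * I * gpB (T.tv v) (a v) (T.Nj N v)) -
      (hh (1 / 2 - (1 - τ v) - T.zf z v) + Real.pi * I * gmB (T.tv v) (a v) (T.Nj N v)) +
      ((hh (T.tt τ σ v 1) + Real.pi * I * xiB (T.Nj N v) 1) +
        (hh (T.tt τ σ v 3) + Real.pi * I * xiB (T.Nj N v) 3) -
        (hh (T.tt τ σ v 0) + Real.pi * I * xiB (T.Nj N v) 0) -
        (hh (T.tt τ σ v 2) + Real.pi * I * xiB (T.Nj N v) 2)) = 0 := by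
    simp only [TData.tt] at halt ⊢
    linear_combination 2 * hk - hz + halt - htau + (Real.pi * I) * hbit
  have key := fun s => (D_FlG_odia (1 - τ v - xk X v)
      (T.zf z v + T.mv a N v / 2)
      (fun j => T.tt τ σ v j - T.tt (fun u => 1 - xk X u) (xs X) v j)
      (hh (1 / 2 + T.zf z v) + Real.pi * I * ((1 - T.mv a N v) / 2))
      (hh (T.tt τ σ v 0 + T.tt τ σ v 1) + Real.pi * I * xib (T.Nj N v 0) (T.Nj N v 2))
      (hh (1 - τ v))
      (hh (1 / 2 - (1 - τ v) + T.zf z v) + Real.pi * I * gpB (T.tv v) (a v) (T.Nj N v))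
      (hh (1 / 2 - (1 - τ v) - T.zf z v) + Real.pi * I * gmB (T.tv v) (a v) (T.Nj N v))
      (fun j => hh (T.tt τ σ v j) + Real.pi * I * xiB (T.Nj N v) j) s).1
  simp only [ht, h0, mul_zero, add_zero] at key
  rw [h1, h2, hv, mul_zero]
  exact ⟨key _, key _⟩

private theorem D_FlG_glon (hc : CritT T a τ z σ A B) (v : Fin c) :
    (T.fpar a N X τ z σ).x v 0 2 - (T.fpar a N X τ z σ).x v 3 2 = (T.fpar a N X τ z σ).U v ∧
      (T.fpar a N X τ z σ).x' v 0 2 - (T.fpar a N X τ z σ).x' v 3 2 =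
        (T.fpar a N X τ z σ).U v := by
  obtain ⟨h1, h2⟩ := D_FlG_x (N := N) (X := X) hc v
  have hU : (T.fpar a N X τ z σ).U v = 2 * Real.pi * I * (T.zf z v + T.mv a N v / 2) := rfl
  rw [h1, h2, hU]
  exact ⟨(D_FlG_olon _ _ _ _ _ _ _ _ _ _ _).1, (D_FlG_olon _ _ _ _ _ _ _ _ _ _ _).1⟩

private theorem D_FlG_eps (T : TData c) (v : Fin c) : T.eps v * T.eps v = 1 := by
  unfold TData.eps
  split_ifs <;> ring

private theorem D_FlG_gfill (hc : CritT T a τ z σ A B) (v : Fin c) :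
    (if T.one v = 1 ∨ T.one v = 3 then 1 else -1) *
        ((T.fpar a N X τ z σ).x v 3 1 - (T.fpar a N X τ z σ).x v 0 1) +
          a v * (T.fpar a N X τ z σ).U v =
      (if T.one v = 0 ∨ T.one v = 1 then -2 else 2) * 0 := by
  obtain ⟨h1, -⟩ := D_FlG_x (N := N) (X := X) hc v
  have hU : (T.fpar a N X τ z σ).U v = 2 * Real.pi * I * (T.zf z v + T.mv a N v / 2) := rfl
  have he : (if T.one v = 1 ∨ T.one v = 3 then (1 : ℂ) else -1) = T.eps v := rfl
  have hg : gmB (T.tv v) (a v) (T.Nj N v) - gpB (T.tv v) (a v) (T.Nj N v) =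
      -(2 * T.tv v + a v * T.mv a N v) := by
    unfold gmB gpB TData.mv
    ring
  rw [h1, hU, he, (D_FlG_olon _ _ _ _ _ _ _ _ _ _ _).2, mul_zero]
  have hzz := hc.zz v
  have h3 : 2 * Real.pi * I * (a v * T.zf z v - T.tv v) +
      (hh (1 / 2 - (1 - τ v) - T.zf z v) - hh (1 / 2 - (1 - τ v) + T.zf z v)) = 0 := by
    simp only [TData.zf, TData.tv]
    split_ifs
    · rw [show 1 / 2 - (1 - τ v) + z v = τ v - 1 / 2 + z v by ring,
        show 1 / 2 - (1 - τ v) - z v = τ v - 1 / 2 - z v by ring]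
      linear_combination hzz
    · rw [show 1 / 2 - (1 - τ v) + -z v = τ v - 1 / 2 - z v by ring,
        show 1 / 2 - (1 - τ v) - -z v = τ v - 1 / 2 + z v by ring]
      linear_combination -hzz
  linear_combination h3 + (Real.pi * I) * hg + (hh (1 / 2 - (1 - τ v) - T.zf z v) +
    Real.pi * I * gmB (T.tv v) (a v) (T.Nj N v) - (hh (1 / 2 - (1 - τ v) + T.zf z v) +
    Real.pi * I * gpB (T.tv v) (a v) (T.Nj N v))) * D_FlG_eps T v

/-! ### The edges from the strand `0` -/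

private theorem D_FlG_csr1 (t : ℂ) (k : Fin 4) : csr t (k - 1) + csr t k = 1 := by
  match k with
  | 0 => show t + (1 - t) = 1; ring
  | 1 => show 1 - t + t = 1; ring
  | 2 => show t + (1 - t) = 1; ring
  | 3 => show 1 - t + t = 1; ring

private theorem D_FlG_fin (k i : Fin 4) (h : k ≠ i) : k = i + 1 ∨ k = i + 2 ∨ k - 1 = i + 2 := by
  revert h
  revert k i
  decide

/-- At an end, the leg between two bounded corners is opposite to the strand `0`. -/
private theorem D_FlG_opp (hN : T.Nice) {v : Fin c} {k : Fin 4} (hv : T.isEnd v = true)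
    (h1 : T.cor v k ∈ T.F) (h2 : T.cor v (k - 1) ∈ T.F) : k = T.one v + 2 := by
  obtain ⟨a1, a2, -, -⟩ := hN.end0 v hv
  generalize T.one v = i at a1 a2 ⊢
  have b1 : k ≠ i := by
    rintro rfl
    exact a1 h1
  have b2 : k - 1 ≠ i := by
    intro h
    rw [h] at h2
    exact a1 h2
  have b3 : k ≠ i - 1 := by
    rintro rfl
    exact a2 h1
  clear h1 h2 a1 a2
  revert b1 b2 b3
  revert k i
  decide

private theorem D_FlG_tau0 (hN : T.Nice) (hc : CritT T a τ z σ A B) (v : Fin c) (k : Fin 4)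
    (hv : T.isEnd v = true) (h1 : T.cor v k ∈ T.F) (h2 : T.cor v (k - 1) ∈ T.F) :
    T.eps v * (2 * hh (τ v) - hh (τ v - 1 / 2 + z v) - hh (τ v - 1 / 2 - z v)) =
        -A (T.cor v k) + A (T.cor v (k - 1)) := by
  have hk := D_FlG_opp hN hv h1 h2
  obtain ⟨b1, b2, b3, b4⟩ := hN.end0 v hv
  have e6 := hc.tau0 v hv
  rw [Fin.sum_univ_four] at e6
  unfold TData.eps
  generalize hi : T.one v = i at b1 b2 b3 b4 hk ⊢
  have h1' := h1
  have h2' := h2
  match i with
  | 0 =>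
    subst hk
    change T.cor v 0 ∉ T.F at b1
    change T.cor v 3 ∉ T.F at b2
    change T.cor v 2 ∈ T.F at h1'
    change T.cor v 1 ∈ T.F at h2'
    rw [if_neg b1, if_pos h2', if_pos h1', if_neg b2] at e6
    rw [if_neg (by decide), if_pos (by decide)] at e6
    rw [if_neg (by decide)]
    change _ = -A (T.cor v 2) + A (T.cor v 1)
    linear_combination e6
  | 1 =>
    subst hk
    change T.cor v 1 ∉ T.F at b1
    change T.cor v 0 ∉ T.F at b2
    change T.cor v 3 ∈ T.F at h1'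
    change T.cor v 2 ∈ T.F at h2'
    rw [if_neg b2, if_neg b1, if_pos h2', if_pos h1'] at e6
    rw [if_pos (by decide), if_neg (by decide)] at e6
    rw [if_pos (by decide)]
    change _ = -A (T.cor v 3) + A (T.cor v 2)
    linear_combination -e6
  | 2 =>
    subst hk
    change T.cor v 2 ∉ T.F at b1
    change T.cor v 1 ∉ T.F at b2
    change T.cor v 0 ∈ T.F at h1'
    change T.cor v 3 ∈ T.F at h2'
    rw [if_pos h1', if_neg b2, if_neg b1, if_pos h2'] at e6
    rw [if_pos (by decide), if_neg (by decide)] at e6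
    rw [if_neg (by decide)]
    change _ = -A (T.cor v 0) + A (T.cor v 3)
    linear_combination e6
  | 3 =>
    subst hk
    change T.cor v 3 ∉ T.F at b1
    change T.cor v 2 ∉ T.F at b2
    change T.cor v 1 ∈ T.F at h1'
    change T.cor v 0 ∈ T.F at h2'
    rw [if_pos h2', if_pos h1', if_neg b2, if_neg b1] at e6
    rw [if_pos (by decide), if_neg (by decide)] at e6
    rw [if_pos (by decide)]
    change _ = -A (T.cor v 1) + A (T.cor v 0)
    linear_combination -e6

private theorem D_FlG_two (i : Fin 4) :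
    (if i = 1 ∨ i = 3 then (i + 2) - i else i - (i + 2)) = 2 := by
  revert i
  decide

private theorem D_FlG_lga1 (i m j : Fin 4) : (lga i j = lga i m) = (j = m) := by
  unfold lga
  revert i m j
  decide

private theorem D_FlG_ver2 (x : Fin 4 → Fin 3 → ℂ) : ver true x 2 = dia x := by
  simp [ver]

private theorem D_FlG_ver1 (x : Fin 4 → Fin 3 → ℂ) : ver true x 1 = chd x 0 := by
  simp [ver]

private theorem D_FlG_ver3 (x : Fin 4 → Fin 3 → ℂ) : ver true x 3 = chd x 3 := by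
  simp [ver]

/-- The identity between the integers at an end. -/
private theorem D_FlG_bit0 (hn : NOk T a N) (v : Fin c) (hv : T.isEnd v = true) :
    T.eps v * (gpB (T.tv v) (a v) (T.Nj N v) + gmB (T.tv v) (a v) (T.Nj N v)) =
      T.xi N v (T.one v + 1) - T.xi N v (T.one v + 2) := by
  have h0 : T.Nj N v 0 = false := by
    have h1 : T.leg v (T.one v) = 0 := of_decide_eq_true hv
    have h2 : lga (T.one v) 0 = T.one v := by
      generalize T.one v = i
      unfold lga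
      revert i
      decide
    unfold TData.Nj
    rw [h2, h1, hn.zero]
  have h3 : xiB (T.Nj N v) 0 = 0 := by
    change xib (T.Nj N v 0) (T.Nj N v 1) = 0
    rw [h0]
    simp [xib]
  have h4 : xiB (T.Nj N v) 3 = 0 := by
    change xib (T.Nj N v 3) (T.Nj N v 0) = 0
    rw [h0]
    simp [xib]
  rw [← D_FlG_bit hn v, h3, h4, D_FlG_xiB, D_FlG_xiB]
  unfold TData.eps
  by_cases hi : T.one v = 1 ∨ T.one v = 3
  · rw [if_pos hi]
    have e1 : cna (T.one v) 1 = T.one v + 1 ∧ cna (T.one v) 2 = T.one v + 2 := by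
      generalize T.one v = i at hi ⊢
      unfold cna
      revert hi
      revert i
      decide
    rw [e1.1, e1.2]
    ring
  · rw [if_neg hi]
    have e1 : cna (T.one v) 1 = T.one v + 2 ∧ cna (T.one v) 2 = T.one v + 1 := by
      generalize T.one v = i at hi ⊢
      unfold cna
      revert hi
      revert i
      decide
    rw [e1.1, e1.2]
    ring

/-- The part of the twist region at a leg between two bounded corners. -/
theorem D_FlG_loc (hN : T.Nice) (hX : T.Match X) (hc : CritT T a τ z σ A B) (hn : NOk T a N)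
    (v : Fin c) (k : Fin 4) (h1 : T.cor v k ∈ T.F) (h2 : T.cor v (k - 1) ∈ T.F) :
    (∑ j, if lga (T.one v) j = k then ver (T.isEnd v) ((T.fpar a N X τ z σ).x v) j else 0) =
      Real.pi * I * (σ v (k - 1) - xs X v (k - 1) + (σ v k - xs X v k)) +
        ((hh (σ v k) + Real.pi * I * T.xi N v k) -
          (hh (σ v (k - 1)) + Real.pi * I * T.xi N v (k - 1)) -
          A (T.cor v k) + A (T.cor v (k - 1))) ∧
    (∑ j, if lga (T.one v) j = k then ver (T.isEnd v) ((T.fpar a N X τ z σ).x' v) j else 0) =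
      Real.pi * I * (σ v (k - 1) - xs X v (k - 1) + (σ v k - xs X v k)) -
        ((hh (σ v k) + Real.pi * I * T.xi N v k) -
          (hh (σ v (k - 1)) + Real.pi * I * T.xi N v (k - 1)) -
          A (T.cor v k) + A (T.cor v (k - 1))) := by
  have e0 := D_FlG_csr1 (τ v) k
  have e0' := D_FlG_csr1 (1 - xk X v) k
  rcases Bool.eq_false_or_eq_true (T.isEnd v) with hv | hv
  · have hk := D_FlG_opp hN hv h1 h2
    have hk1 : k - 1 = T.one v + 1 := by
      rw [hk]
      generalize T.one v = i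
      revert i
      decide
    obtain ⟨g1, g2⟩ := D_FlG_x (N := N) (X := X) hc v
    have e1 : σ v k = csr (τ v) k := hc.fin v k h1 hv
    have e2 : σ v (k - 1) = csr (τ v) (k - 1) := hc.fin v (k - 1) h2 hv
    have e3 : σ v (k - 1) + σ v k = 1 := by rw [e1, e2, e0]
    have e4 : hh (σ v (k - 1)) = hh (σ v k) := by
      have : σ v (k - 1) = 1 - σ v k := by rw [← e3]; ring
      rw [this, hh_one_sub]
    have e5 := D_FlG_tau0 hN hc v k hv h1 h2
    have e6 := D_FlG_bit0 hn v hv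
    rw [← hk1, ← hk] at e6
    have e7 : xs X v (k - 1) + xs X v k = 1 := by
      obtain ⟨-, hx⟩ := D_FlG_X hN hX v hv
      rw [hk1, hk]
      unfold xs
      rw [hx]
      rcases D_FlG_cor (T.one v) with ⟨-, k2⟩ | ⟨-, k2⟩
      · rw [k2, if_neg, if_pos rfl]
        · ring
        · generalize T.one v = i
          revert i
          decide
      · rw [k2, if_pos rfl, if_neg]
        · ring
        · generalize T.one v = i
          revert i
          decide
    have hz := D_FlG_zpm (T := T) (τ := τ) (z := z) v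
    have hkk : hh (1 - τ v) = hh (τ v) := hh_one_sub _
    have key := fun s => (D_FlG_odia (1 - τ v - xk X v)
      (T.zf z v + T.mv a N v / 2)
      (fun j => T.tt τ σ v j - T.tt (fun u => 1 - xk X u) (xs X) v j)
      (hh (1 / 2 + T.zf z v) + Real.pi * I * ((1 - T.mv a N v) / 2))
      (hh (T.tt τ σ v 0 + T.tt τ σ v 1) + Real.pi * I * xib (T.Nj N v 0) (T.Nj N v 2))
      (hh (1 - τ v))
      (hh (1 / 2 - (1 - τ v) + T.zf z v) + Real.pi * I * gpB (T.tv v) (a v) (T.Nj N v))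
      (hh (1 / 2 - (1 - τ v) - T.zf z v) + Real.pi * I * gmB (T.tv v) (a v) (T.Nj N v))
      (fun j => hh (T.tt τ σ v j) + Real.pi * I * xiB (T.Nj N v) j) s).2
    have l1 : ∀ x : Fin 4 → Fin 3 → ℂ,
        (∑ j, if lga (T.one v) j = k then ver (T.isEnd v) x j else 0) = dia x := by
      intro x
      rw [hk]
      simp only [D_FlG_lga, D_FlG_two, Finset.sum_ite_eq', Finset.mem_univ, if_true, hv,
        D_FlG_ver2]
    rw [l1, l1, g1, g2, hv, key, key, e4]
    constructor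
    · linear_combination 2 * T.eps v * hkk - T.eps v * hz + e5 - (Real.pi * I) * e6 -
        (Real.pi * I) * e3 + (Real.pi * I) * e7
    · linear_combination -(2 * T.eps v * hkk - T.eps v * hz + e5 - (Real.pi * I) * e6) -
        (Real.pi * I) * e3 + (Real.pi * I) * e7
  · obtain ⟨a1, a2⟩ := fver (a := a) (N := N) (X := X) (τ := τ) (z := z) hc.sumv v k hv
    have e1 := hc.sig v k h1 hv
    have e2 := hc.sig v (k - 1) h2 hv
    rw [a1, a2]
    constructor
    · linear_combination e1 - e2 - Real.pi * I * e0 + Real.pi * I * e0'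
    · linear_combination -e1 + e2 - Real.pi * I * e0 + Real.pi * I * e0'

/-- The part of the twist region in `P` and `P'`. -/
theorem D_FlG_loc0 (hN : T.Nice) (hX : T.Match X) (hc : CritT T a τ z σ A B) (hn : NOk T a N)
    (v : Fin c) (k : Fin 4) (h0 : T.leg v k ≠ 0) :
    (∑ j, if lga (T.one v) j = k then ver (T.isEnd v) ((T.fpar a N X τ z σ).x v) j else 0) +
    (∑ j, if lga (T.one v) j = k then ver (T.isEnd v) ((T.fpar a N X τ z σ).x' v) j else 0) +
    (if T.isEnd v ∧ lga (T.one v) 3 = k then 0 + (T.fpar a N X τ z σ).U v else 0) =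
      2 * (Real.pi * I) * (σ v (k - 1) - xs X v (k - 1) + (σ v k - xs X v k)) := by
  rcases Bool.eq_false_or_eq_true (T.isEnd v) with hv | hv
  · obtain ⟨b1, b2, b3, b4⟩ := hN.end0 v hv
    have c1 : k ≠ T.one v := by
      rintro rfl
      exact h0 (of_decide_eq_true hv)
    by_cases h1 : k = T.one v + 2
    · have h2 : T.cor v k ∈ T.F := by rw [h1]; exact b4
      have h3 : T.cor v (k - 1) ∈ T.F := by
        have : k - 1 = T.one v + 1 := by
          rw [h1]
          generalize T.one v = i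
          revert i
          decide
        rw [this]
        exact b3
      obtain ⟨a1, a2⟩ := D_FlG_loc hN hX hc hn v k h2 h3
      have h4 : ¬ (T.isEnd v ∧ lga (T.one v) 3 = k) := by
        rintro ⟨-, h5⟩
        rw [h1] at h5
        generalize T.one v = i at h5
        revert h5
        revert i
        decide
      rw [a1, a2, if_neg h4]
      ring
    · obtain ⟨g1, g2⟩ := D_FlG_x (N := N) (X := X) hc v
      obtain ⟨x1, x2, x3, x4⟩ := D_FlG_end hN hX hc v hv
      obtain ⟨x5, -⟩ := D_FlG_X hN hX v hv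
      have h3 := D_FlG_ochd true (1 - τ v - xk X v)
        (T.zf z v + T.mv a N v / 2)
        (fun j => T.tt τ σ v j - T.tt (fun u => 1 - xk X u) (xs X) v j)
        (hh (1 / 2 + T.zf z v) + Real.pi * I * ((1 - T.mv a N v) / 2))
        (hh (T.tt τ σ v 0 + T.tt τ σ v 1) + Real.pi * I * xib (T.Nj N v 0) (T.Nj N v 2))
        (hh (1 - τ v))
        (hh (1 / 2 - (1 - τ v) + T.zf z v) + Real.pi * I * gpB (T.tv v) (a v) (T.Nj N v))
        (hh (1 / 2 - (1 - τ v) - T.zf z v) + Real.pi * I * gmB (T.tv v) (a v) (T.Nj N v))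
        (fun j => hh (T.tt τ σ v j) + Real.pi * I * xiB (T.Nj N v) j) (T.eps v)
      simp only [if_true, add_zero] at h3
      have o1 := D_FlG_out hX hc v (T.one v) b1
      have o2 := D_FlG_out hX hc v (T.one v - 1) b2
      have hU : (T.fpar a N X τ z σ).U v =
        2 * Real.pi * I * (T.zf z v + T.mv a N v / 2) := rfl
      have gg : k = lga (T.one v) 1 ∨ k = lga (T.one v) 3 := by
        clear b1 b2 b3 b4 h0 o1 o2 x1 x2 x3 x4 h3 hU g1 g2
        generalize T.one v = i at c1 h1 ⊢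
        revert c1 h1
        revert k i
        decide
      rcases gg with gg | gg
      · have h4 : ¬ (T.isEnd v ∧ lga (T.one v) 3 = k) := by
          rintro ⟨-, h5⟩
          rw [gg] at h5
          generalize T.one v = i at h5
          revert h5
          revert i
          decide
        rw [if_neg h4, gg]
        simp only [D_FlG_lga1, Finset.sum_ite_eq', Finset.mem_univ, if_true, hv,
          D_FlG_ver1]
        rw [g1, g2, hv, h3.1, x5]
        -- one of the corners is outer, the other one is `cna 1`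
        have h6 : σ v (lga (T.one v) 1 - 1) - xs X v (lga (T.one v) 1 - 1) +
            (σ v (lga (T.one v) 1) - xs X v (lga (T.one v) 1)) = 1 - τ v := by
          have h7 : (lga (T.one v) 1 - 1 = T.one v ∧ lga (T.one v) 1 = cna (T.one v) 1) ∨
              (lga (T.one v) 1 - 1 = cna (T.one v) 1 ∧ lga (T.one v) 1 = T.one v - 1) := by
            generalize T.one v = i
            unfold lga cna
            revert i
            decide
          rcases h7 with ⟨h8, h9⟩ | ⟨h8, h9⟩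
          · rw [h8, h9, o1, x1, x2]
            ring
          · rw [h8, h9, o2, x1, x2]
            ring
        rw [h6]
        ring
      · rw [if_pos ⟨hv, gg.symm⟩, gg]
        simp only [D_FlG_lga1, Finset.sum_ite_eq', Finset.mem_univ, if_true, hv,
          D_FlG_ver3]
        rw [g1, g2, hv, h3.2.2.2, x5, hU]
        have h6 : σ v (lga (T.one v) 3 - 1) - xs X v (lga (T.one v) 3 - 1) +
            (σ v (lga (T.one v) 3) - xs X v (lga (T.one v) 3)) = τ v - 1 := by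
          have h7 : (lga (T.one v) 3 - 1 = T.one v ∧ lga (T.one v) 3 = cna (T.one v) 2) ∨
              (lga (T.one v) 3 - 1 = cna (T.one v) 2 ∧ lga (T.one v) 3 = T.one v - 1) := by
            generalize T.one v = i
            unfold lga cna
            revert i
            decide
          rcases h7 with ⟨h8, h9⟩ | ⟨h8, h9⟩
          · rw [h8, h9, o1, x3, x4]
            ring
          · rw [h8, h9, o2, x3, x4]
            ring
        rw [h6]
        ring
  · obtain ⟨a1, a2⟩ := fver (a := a) (N := N) (X := X) (τ := τ) (z := z) hc.sumv v k hv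
    have h4 : ¬ (T.isEnd v ∧ lga (T.one v) 3 = k) := by
      rintro ⟨h5, -⟩
      rw [hv] at h5
      exact absurd h5 (by decide)
    rw [a1, a2, if_neg h4]
    linear_combination (-(2 * (Real.pi * I))) * D_FlG_csr1 (τ v) k +
      (2 * (Real.pi * I)) * D_FlG_csr1 (1 - xk X v) k


private theorem D_FlG_adj (hT : T.Of w) (hG : T.Good) {p q : Fin c × Fin 4}
    (h : Mate T.leg p q) :
    (T.cor p.1 p.2 ∈ T.F → T.cor q.1 (q.2 - 1) = T.cor p.1 p.2) ∧
    (T.cor q.1 (q.2 - 1) ∈ T.F → T.cor q.1 (q.2 - 1) = T.cor p.1 p.2) := adj hT hG h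

private theorem D_FlG_gup (hT : T.Of w) (hG : T.Good) (hN : T.Nice) (hX : T.Match X)
    (hc : CritT T a τ z σ A B) (hn : NOk T a N)
    (p q : Fin c × Fin 4) (h : Mate T.leg p q)
    (hp : T.cor p.1 p.2 ∈ T.F) (hq : T.cor q.1 q.2 ∈ T.F) :
    T.up (T.fpar a N X τ z σ).x (T.fpar a N X τ z σ).z p +
        T.up (T.fpar a N X τ z σ).x (T.fpar a N X τ z σ).z q = 2 * 0 ∧
    T.up (T.fpar a N X τ z σ).x' (T.fpar a N X τ z σ).z' p +
        T.up (T.fpar a N X τ z σ).x' (T.fpar a N X τ z σ).z' q = 2 * 0 := by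
  have hs := D_FlG_msymm h
  have f1 := (D_FlG_adj hT hG h).1 hp
  have f2 := (D_FlG_adj hT hG hs).1 hq
  obtain ⟨u1, u2⟩ := fpls (a := a) (N := N) (τ := τ) (z := z) hT hG hN hX hc.sumf h hp
  obtain ⟨u3, u4⟩ := fpls (a := a) (N := N) (τ := τ) (z := z) hT hG hN hX hc.sumf hs hq
  obtain ⟨v1, v2⟩ := D_FlG_loc hN hX hc hn p.1 p.2 hp (by rw [f2]; exact hq)
  obtain ⟨v3, v4⟩ := D_FlG_loc hN hX hc hn q.1 q.2 hq (by rw [f1]; exact hp)
  rw [f2] at v1 v2
  rw [f1] at v3 v4
  have hup : ∀ x z r, T.up x z r =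
      (∑ j, if lga (T.one r.1) j = r.2 then ver (T.isEnd r.1) (x r.1) j else 0) + T.pls z r :=
    fun x z r => rfl
  rw [hup, hup, hup, hup, u1, u2, u3, u4, v1, v2, v3, v4]
  constructor <;> ring

private theorem D_FlG_gup0 (hT : T.Of w) (hG : T.Good) (hN : T.Nice) (hX : T.Match X)
    (hc : CritT T a τ z σ A B) (hn : NOk T a N)
    (p q : Fin c × Fin 4) (h : Mate T.leg p q) (h0 : T.leg p.1 p.2 ≠ 0)
    (hpq : ¬ (T.cor p.1 p.2 ∈ T.F ∧ T.cor q.1 q.2 ∈ T.F)) :
    T.up (T.fpar a N X τ z σ).x (T.fpar a N X τ z σ).z p +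
      T.up (T.fpar a N X τ z σ).x (T.fpar a N X τ z σ).z q +
      T.up (T.fpar a N X τ z σ).x' (T.fpar a N X τ z σ).z' p +
      T.up (T.fpar a N X τ z σ).x' (T.fpar a N X τ z σ).z' q +
      (if T.isEnd p.1 ∧ lga (T.one p.1) 3 = p.2 then
        0 + (T.fpar a N X τ z σ).U p.1 else 0) +
      (if T.isEnd q.1 ∧ lga (T.one q.1) 3 = q.2 then
        0 + (T.fpar a N X τ z σ).U q.1 else 0) = 2 * 0 := by
  have hs := D_FlG_msymm h
  have h0' : T.leg q.1 q.2 ≠ 0 := by rw [← h.2]; exact h0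
  have v1 := D_FlG_loc0 hN hX hc hn p.1 p.2 h0
  have v2 := D_FlG_loc0 hN hX hc hn q.1 q.2 h0'
  have hup : ∀ x z r, T.up x z r =
      (∑ j, if lga (T.one r.1) j = r.2 then ver (T.isEnd r.1) (x r.1) j else 0) + T.pls z r :=
    fun x z r => rfl
  have hout : ∀ z r, T.cor r.1 r.2 ∉ T.F → T.pls z r = 0 := by
    intro z r hr
    unfold TData.pls
    rw [if_neg hr]
  rw [hup, hup, hup, hup]
  by_cases hp : T.cor p.1 p.2 ∈ T.F
  · have hq : T.cor q.1 q.2 ∉ T.F := fun hq => hpq ⟨hp, hq⟩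
    obtain ⟨u1, u2⟩ := fpls (a := a) (N := N) (τ := τ) (z := z) hT hG hN hX hc.sumf h hp
    have f2 : T.cor p.1 (p.2 - 1) ∉ T.F := fun hf => hq ((D_FlG_adj hT hG hs).2 hf ▸ hf)
    have g1 := D_FlG_out hX hc _ _ hq
    have g2 := D_FlG_out hX hc _ _ f2
    rw [u1, u2, hout _ _ hq, hout _ _ hq]
    linear_combination v1 + v2 + (2 * (Real.pi * I)) * g1 + (2 * (Real.pi * I)) * g2
  · by_cases hq : T.cor q.1 q.2 ∈ T.F
    · obtain ⟨u1, u2⟩ := fpls (a := a) (N := N) (τ := τ) (z := z) hT hG hN hX hc.sumf hs hq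
      have f2 : T.cor q.1 (q.2 - 1) ∉ T.F := fun hf => hp ((D_FlG_adj hT hG h).2 hf ▸ hf)
      have g1 := D_FlG_out hX hc _ _ hp
      have g2 := D_FlG_out hX hc _ _ f2
      rw [u1, u2, hout _ _ hp, hout _ _ hp]
      linear_combination v1 + v2 + (2 * (Real.pi * I)) * g1 + (2 * (Real.pi * I)) * g2
    · exfalso
      have f1 : T.cor p.1 (p.2 - 1) ∉ T.F := fun hf => hq ((D_FlG_adj hT hG hs).2 hf ▸ hf)
      obtain ⟨v, k⟩ := p
      simp only at h0 hp f1
      rcases Bool.eq_false_or_eq_true (T.isEnd v) with hv | hv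
      · obtain ⟨-, -, b3, b4⟩ := hN.end0 v hv
        have c1 : k ≠ T.one v := by
          rintro rfl
          exact h0 (of_decide_eq_true hv)
        have c2 := D_FlG_fin k (T.one v) c1
        rcases c2 with c2 | c2 | c2
        · rw [c2] at hp
          exact hp b3
        · rw [c2] at hp
          exact hp b4
        · rw [c2] at f1
          exact f1 b4
      · rcases hN.inn v k hv with h5 | h5
        · exact hp h5
        · exact f1 h5

theorem glue_fpar (hT : T.Of w) (hG : T.Good) (hN : T.Nice) (hX : T.Match X)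
    (hc : CritT T a τ z σ A B) (hn : NOk T a N) : Glue 0 T a (T.fpar a N X τ z σ) := by
  have hS : ∀ v k, (T.fpar a N X τ z σ).s v k = 2 * Real.pi * I * (σ v k - xs X v k) :=
    fun v k => rfl
  constructor
  · exact fun v => D_FlG_gspk hc v
  · exact fun v => D_FlG_gchd hN hX hc v
  · exact fun v hv => D_FlG_gchd0 hc v hv
  · exact fun v hv => D_FlG_gdia hc hn v hv
  · exact fun v => (D_FlG_glon hc v).1
  · exact fun v => (D_FlG_glon hc v).2
  · exact fun v => D_FlG_gfill hc v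
  · intro v k hk
    rw [hS, D_FlG_out hX hc v k hk, mul_zero]
  · intro f hf hd j hj
    exact (D_FlG_bas (D_FlG_fan (N := N) hT hN hX hc.sumf f hf 1)
      (D_FlG_fan (N := N) hT hN hX hc.sumf f hf (-1)) hd j hj).symm
  · intro f hf
    have h1 := sf_sum (hT.bdy f hf) σ
    rw [hc.sumf f hf] at h1
    have h2 := D_FlG_xf hT hX f hf
    have h3 : psm (T.sf (xs X) f) (T.deg f) =
      ∑ j ∈ Finset.range (T.deg f), xs X (T.bd f j).1 (T.bd f j).2 := rfl
    rw [h3] at h2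
    have h4 : ∑ j ∈ Finset.range (T.deg f), (T.fpar a N X τ z σ).s (T.bd f j).1 (T.bd f j).2 =
        2 * Real.pi * I * (∑ j ∈ Finset.range (T.deg f), σ (T.bd f j).1 (T.bd f j).2 -
          ∑ j ∈ Finset.range (T.deg f), xs X (T.bd f j).1 (T.bd f j).2) := by
      rw [← Finset.sum_sub_distrib, Finset.mul_sum]
      rfl
    rw [h4, h1, h2]
    ring
  · intro f hf j hj hjd
    rw [mul_zero]
    exact D_FlG_diag (D_FlG_fan (N := N) hT hN hX hc.sumf f hf 1)
      (D_FlG_fan (N := N) hT hN hX hc.sumf f hf (-1)) j hj hjd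
  · exact fun p q h _ hp hq => D_FlG_gup hT hG hN hX hc hn p q h hp hq
  · exact fun p q h h0 hpq => D_FlG_gup0 hT hG hN hX hc hn p q h h0 hpq

end Pool.Agent.H63.CLK
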