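import Pool.Agent.H63.CLK.D_FlD

set_option autoImplicit false

/-!
# CLK part D, D_FlI: integrality of the flattening

* `nj_even`, `nj_odd`: cases `T.one v = 0, 1, 2, 3`: `a_1 a_2` and `a_3 a_4` are the pairs of legs at the left and right (legs `0, 3` and `1, 2`), `a_1 a_3` and `a_2 a_4` are the opposite pairs
  (`0, 2` and `1, 3`); `NOk`.
* `itg_v`: `k = 0, 3`: `K = ((1 ± m)/2, xk, (1 ∓ m)/2 - xk)`, `H = ((1 - m)/2, 0, gp or gm)`, `m = mB`, `2 * gp` integral, `gp ≡ gm ≡ (1 + m)/2` mod `1`: by `nj_even`, `nj_odd` (even: `b 0 = b 1`, `b 2 = b 3`,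
  `m = 1` iff `b 1 = b 2`, `gp = nh (b 1) (b 2) + t + a m / 2`; odd: `m = 1`, `b 2 = !b 0`, `gp = nh (b 1) (!b 0) - nh (b 0) (b 1) + t + a / 2`), `t = ± 1`. `k = 1, 2`: all numbers are integral,
  the sum of the four `tt (1 - xk) xs` is `1`.
* `itg_f`: all numbers are integral.
* `isFlats`: `fl_pair` (D_Rog) with `CReg.oct`, `CReg.fan`; `T.sX … true = tsh oa ob oc` if `one v` is odd, `tsh oa oc ob` otherwise; `¬ has v k` means `isEnd v = true` and `k = 1 ∨ k = 2`.
-/

namespace Pool.Agent.H63.CLK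

open Pool.Agent.H63.VC hiding ext
open Pool.Agent.H63.VC3 Pool.Agent.H63.VC7.Hyp Complex

variable {c : ℕ} {T : TData c} {a : Fin c → ℤ} {N : ℕ → Bool} {X : Fin c → Fin 4}

theorem nj_even (hn : NOk T a N) (v : Fin c) (h : Even (a v)) :
    T.Nj N v 0 = T.Nj N v 1 ∧ T.Nj N v 2 = T.Nj N v 3 := by
  obtain ⟨h1, h2⟩ := hn.even v h
  unfold TData.Nj
  generalize T.one v = i
  match i with
  | 0 => exact ⟨h1, h2.symm⟩
  | 1 => exact ⟨h2, h1.symm⟩
  | 2 => exact ⟨h2.symm, h1⟩
  | 3 => exact ⟨h1.symm, h2⟩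

theorem nj_odd (hn : NOk T a N) (v : Fin c) (h : Odd (a v)) :
    T.Nj N v 0 = !T.Nj N v 2 ∧ T.Nj N v 1 = !T.Nj N v 3 := by
  obtain ⟨h1, h2⟩ := hn.odd v h
  have h1' : N (T.leg v 2) = !N (T.leg v 0) := by rw [h1, Bool.not_not]
  have h2' : N (T.leg v 3) = !N (T.leg v 1) := by rw [h2, Bool.not_not]
  unfold TData.Nj
  generalize T.one v = i
  match i with
  | 0 => exact ⟨h1, h2'⟩
  | 1 => exact ⟨h2, h1'⟩
  | 2 => exact ⟨h1', h2⟩
  | 3 => exact ⟨h2', h1⟩

/-- Integers. -/
def Zi (x : ℂ) : Prop := ∃ n : ℤ, x = n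

theorem Zi.add {x y : ℂ} (h : Zi x) (h' : Zi y) : Zi (x + y) := by
  obtain ⟨n, rfl⟩ := h
  obtain ⟨m, rfl⟩ := h'
  exact ⟨n + m, by push_cast; rfl⟩

theorem Zi.neg {x : ℂ} (h : Zi x) : Zi (-x) := by
  obtain ⟨n, rfl⟩ := h
  exact ⟨-n, by push_cast; rfl⟩

theorem Zi.sub {x y : ℂ} (h : Zi x) (h' : Zi y) : Zi (x - y) := by
  rw [sub_eq_add_neg]
  exact h.add h'.neg

theorem Zi_zero : Zi 0 := ⟨0, by simp⟩

theorem Zi_one : Zi 1 := ⟨1, by simp⟩

theorem Zi.mul {x y : ℂ} (h : Zi x) (h' : Zi y) : Zi (x * y) := by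
  obtain ⟨n, rfl⟩ := h
  obtain ⟨m, rfl⟩ := h'
  exact ⟨n * m, by push_cast; rfl⟩

theorem Zi_int (n : ℤ) : Zi n := ⟨n, rfl⟩

theorem Zi_ite (p : Prop) [Decidable p] {x y : ℂ} (h : Zi x) (h' : Zi y) :
    Zi (if p then x else y) := by
  split_ifs
  · exact h
  · exact h'

theorem Zi_xib (b b' : Bool) : Zi (xib b b') := Zi_ite _ Zi_one.neg Zi_zero

theorem Zi_xi (v : Fin c) (k : Fin 4) : Zi (T.xi N v k) := Zi_xib _ _

theorem Zi_xs (v : Fin c) (k : Fin 4) : Zi (xs X v k) := Zi_ite _ Zi_one Zi_zero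

theorem Zi_xk (v : Fin c) : Zi (xk X v) := Zi_ite _ Zi_one Zi_zero

theorem Zi_csr {x : ℂ} (h : Zi x) (k : Fin 4) : Zi (csr x k) := by
  match k with
  | 0 => exact Zi_one.sub h
  | 1 => exact h
  | 2 => exact Zi_one.sub h
  | 3 => exact h

theorem Zi_tt (v : Fin c) (j : Fin 4) : Zi (T.tt (fun u => 1 - xk X u) (xs X) v j) :=
  (Zi_csr (Zi_one.sub (Zi_xk v)) _).sub (Zi_xs v _)

theorem Zi_tv (v : Fin c) : Zi (T.tv v) := Zi_ite _ Zi_one.neg Zi_one

theorem mB_cases (a : ℤ) (b : Fin 4 → Bool) : mB a b = 0 ∨ mB a b = 1 := by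
  unfold mB
  split_ifs
  · exact Or.inr rfl
  · exact Or.inl rfl

theorem Zi_mB (a : ℤ) (b : Fin 4 → Bool) : Zi (mB a b) := Zi_ite _ Zi_one Zi_zero

/-- `2 nh (b 1) (b 2) - 2 nh (b 0) (b 1)` and half of it. -/
theorem nh_half (b b' : Bool) : nh b b' = 0 ∧ b = b' ∨ nh b b' = 1 / 2 ∧ b = !b' := by
  unfold nh
  cases b <;> cases b' <;> simp

/-- The numbers `gp`, `gm` mod `1`. -/
theorem gB_int {t : ℂ} (ht : Zi t) (a : ℤ) (b : Fin 4 → Bool)
    (hE : Even a → b 0 = b 1 ∧ b 2 = b 3) (hO : Odd a → b 0 = !b 2 ∧ b 1 = !b 3) :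
    Zi (gpB t a b - (1 + mB a b) / 2) ∧ Zi (gmB t a b - (1 + mB a b) / 2) := by
  obtain ⟨t', rfl⟩ := ht
  unfold gpB gmB
  rcases Int.even_or_odd a with ha | ha
  · obtain ⟨h0, -⟩ := hE ha
    obtain ⟨r, rfl⟩ := ha
    have hno : ¬ Odd (r + r) := by
      rw [Int.not_odd_iff_even]
      exact ⟨r, rfl⟩
    have e0 : nh (b 0) (b 1) = 0 := by
      unfold nh
      rw [if_pos h0]
    rw [e0]
    rcases nh_half (b 1) (b 2) with ⟨h1, h2⟩ | ⟨h1, h2⟩
    · have em : mB (r + r) b = 1 := by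
        unfold mB
        rw [if_pos (Or.inr h2)]
      rw [h1, em]
      constructor
      · exact ⟨t' + r - 1, by push_cast; ring⟩
      · exact ⟨-t' - r - 1, by push_cast; ring⟩
    · have em : mB (r + r) b = 0 := by
        unfold mB
        rw [if_neg]
        rintro (h3 | h3)
        · exact hno h3
        · rw [h2] at h3
          revert h3
          cases b 2 <;> decide
      rw [h1, em]
      constructor
      · exact ⟨t', by push_cast; ring⟩
      · exact ⟨-t', by push_cast; ring⟩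
  · obtain ⟨h0, -⟩ := hO ha
    have em : mB a b = 1 := by
      unfold mB
      rw [if_pos (Or.inl ha)]
    obtain ⟨r, rfl⟩ := ha
    rw [em]
    have e1 : nh (b 1) (b 2) - nh (b 0) (b 1) = 1 / 2 ∨ nh (b 1) (b 2) - nh (b 0) (b 1) = -1 / 2 := by
      rw [h0]
      unfold nh
      cases b 1 <;> cases b 2 <;> norm_num
    rcases e1 with e1 | e1
    · rw [e1]
      constructor
      · exact ⟨t' + r, by push_cast; ring⟩
      · exact ⟨-t' - r - 1, by push_cast; ring⟩
    · rw [e1]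
      constructor
      · exact ⟨t' + r - 1, by push_cast; ring⟩
      · exact ⟨-t' - r - 2, by push_cast; ring⟩

/-- The sum of the integral parts. -/
theorem tt_one (v : Fin c) : T.tt (fun u => 1 - xk X u) (xs X) v 0 +
    T.tt (fun u => 1 - xk X u) (xs X) v 1 + T.tt (fun u => 1 - xk X u) (xs X) v 2 +
    T.tt (fun u => 1 - xk X u) (xs X) v 3 = 1 := by
  have h1 : xs X v 0 + xs X v 1 + xs X v 2 + xs X v 3 = 1 := by
    unfold xs
    generalize X v = k
    fin_cases k <;> simp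
  have h2 : csr (1 - xk X v) 0 + csr (1 - xk X v) 1 + csr (1 - xk X v) 2 + csr (1 - xk X v) 3 =
      2 := by
    simp only [csr, Matrix.cons_val]
    ring
  unfold TData.tt
  generalize T.one v = i
  match i with
  | 0 =>
    change csr (1 - xk X v) 3 - xs X v 3 + (csr (1 - xk X v) 2 - xs X v 2) +
      (csr (1 - xk X v) 1 - xs X v 1) + (csr (1 - xk X v) 0 - xs X v 0) = 1
    linear_combination h2 - h1
  | 1 =>
    change csr (1 - xk X v) 1 - xs X v 1 + (csr (1 - xk X v) 2 - xs X v 2) +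
      (csr (1 - xk X v) 3 - xs X v 3) + (csr (1 - xk X v) 0 - xs X v 0) = 1
    linear_combination h2 - h1
  | 2 =>
    change csr (1 - xk X v) 1 - xs X v 1 + (csr (1 - xk X v) 0 - xs X v 0) +
      (csr (1 - xk X v) 3 - xs X v 3) + (csr (1 - xk X v) 2 - xs X v 2) = 1
    linear_combination h2 - h1
  | 3 =>
    change csr (1 - xk X v) 3 - xs X v 3 + (csr (1 - xk X v) 0 - xs X v 0) +
      (csr (1 - xk X v) 1 - xs X v 1) + (csr (1 - xk X v) 2 - xs X v 2) = 1
    linear_combination h2 - h1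

/-- All numbers are integers. -/
theorem itg_of {K H : Fin 3 → ℂ} (h : K 0 + K 1 + K 2 = 1) (hK : ∀ i, Zi (K i))
    (hH : ∀ i, Zi (H i)) : Itg K H :=
  ⟨h, fun i => ((hK i).neg.add (hH _)).sub (hH _), fun i => ((hK i).neg.sub (hH _)).add (hH _)⟩

/-- The general case. -/
theorem itg_half {m k g e : ℂ} (hm : m = 0 ∨ m = 1) (he : e = m ∨ e = -m) (hk : Zi k)
    (hg : Zi (g - (1 + m) / 2)) :
    Itg ![(1 + e) / 2, k, (1 - e) / 2 - k] ![(1 - m) / 2, 0, g] := by
  obtain ⟨k', rfl⟩ := hk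
  obtain ⟨g', hg'⟩ := hg
  have hgg : g = g' + (1 + m) / 2 := by linear_combination hg'
  subst hgg
  refine ⟨?_, ?_, ?_⟩
  · change (1 + e) / 2 + (k' : ℂ) + ((1 - e) / 2 - (k' : ℂ)) = 1
    ring
  · intro i
    match i with
    | 0 =>
      change ∃ n : ℤ, -((1 + e) / 2) + 0 - (g' + (1 + m) / 2) = (n : ℂ)
      rcases hm with rfl | rfl
      · rcases he with rfl | rfl
        · exact ⟨-g' - 1, by push_cast; ring⟩
        · exact ⟨-g' - 1, by push_cast; ring⟩
      · rcases he with rfl | rfl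
        · exact ⟨-g' - 2, by push_cast; ring⟩
        · exact ⟨-g' - 1, by push_cast; ring⟩
    | 1 =>
      change ∃ n : ℤ, -(k' : ℂ) + (g' + (1 + m) / 2) - (1 - m) / 2 = (n : ℂ)
      rcases hm with rfl | rfl
      · exact ⟨-k' + g', by push_cast; ring⟩
      · exact ⟨-k' + g' + 1, by push_cast; ring⟩
    | 2 =>
      change ∃ n : ℤ, -((1 - e) / 2 - (k' : ℂ)) + (1 - m) / 2 - 0 = (n : ℂ)
      rcases hm with rfl | rfl
      · rcases he with rfl | rfl
        · exact ⟨k', by push_cast; ring⟩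
        · exact ⟨k', by push_cast; ring⟩
      · rcases he with rfl | rfl
        · exact ⟨k', by push_cast; ring⟩
        · exact ⟨k' - 1, by push_cast; ring⟩
  · intro i
    match i with
    | 0 =>
      change ∃ n : ℤ, -((1 + e) / 2) - 0 + (g' + (1 + m) / 2) = (n : ℂ)
      rcases hm with rfl | rfl
      · rcases he with rfl | rfl
        · exact ⟨g', by push_cast; ring⟩
        · exact ⟨g', by push_cast; ring⟩
      · rcases he with rfl | rfl
        · exact ⟨g', by push_cast; ring⟩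
        · exact ⟨g' + 1, by push_cast; ring⟩
    | 1 =>
      change ∃ n : ℤ, -(k' : ℂ) - (g' + (1 + m) / 2) + (1 - m) / 2 = (n : ℂ)
      rcases hm with rfl | rfl
      · exact ⟨-k' - g', by push_cast; ring⟩
      · exact ⟨-k' - g' - 1, by push_cast; ring⟩
    | 2 =>
      change ∃ n : ℤ, -((1 - e) / 2 - (k' : ℂ)) - (1 - m) / 2 + 0 = (n : ℂ)
      rcases hm with rfl | rfl
      · rcases he with rfl | rfl
        · exact ⟨k' - 1, by push_cast; ring⟩
        · exact ⟨k' - 1, by push_cast; ring⟩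
      · rcases he with rfl | rfl
        · exact ⟨k', by push_cast; ring⟩
        · exact ⟨k' - 1, by push_cast; ring⟩

theorem itg_v (hn : NOk T a N) (v : Fin c) (k : Fin 4) : Itg (T.Kv a N X v k) (T.Hv a N v k) := by
  have hg := gB_int (Zi_tv (T := T) v) (a v) (T.Nj N v) (nj_even hn v) (nj_odd hn v)
  have hm := mB_cases (a v) (T.Nj N v)
  have ht := tt_one (T := T) (X := X) v
  have hz := fun j => Zi_tt (T := T) (X := X) v j
  match k with
  | 0 =>
    have h := itg_half hm (Or.inl rfl) (Zi_xk (X := X) v) hg.1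
    have e : T.Kv a N X v 0 = ![(1 + mB (a v) (T.Nj N v)) / 2, xk X v,
        (1 - mB (a v) (T.Nj N v)) / 2 - xk X v] := by
      funext i
      match i with
      | 0 =>
        change 1 / 2 - -(T.mv a N v / 2) = (1 + T.mv a N v) / 2
        ring
      | 1 => rfl
      | 2 =>
        change 1 / 2 - xk X v + -(T.mv a N v / 2) = (1 - T.mv a N v) / 2 - xk X v
        ring
    rw [e]
    exact h
  | 1 =>
    refine itg_of ?_ ?_ ?_
    · change T.tt (fun u => 1 - xk X u) (xs X) v 2 + T.tt (fun u => 1 - xk X u) (xs X) v 3 +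
        T.tt (fun u => 1 - xk X u) (xs X) v 1 + T.tt (fun u => 1 - xk X u) (xs X) v 0 = 1
      linear_combination ht
    · intro i
      match i with
      | 0 => exact (hz 2).add (hz 3)
      | 1 => exact hz 1
      | 2 => exact hz 0
    · intro i
      match i with
      | 0 => exact Zi_xib _ _
      | 1 => exact Zi_xib _ _
      | 2 => exact Zi_xib _ _
  | 2 =>
    refine itg_of ?_ ?_ ?_
    · change T.tt (fun u => 1 - xk X u) (xs X) v 0 + T.tt (fun u => 1 - xk X u) (xs X) v 1 +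
        T.tt (fun u => 1 - xk X u) (xs X) v 3 + T.tt (fun u => 1 - xk X u) (xs X) v 2 = 1
      linear_combination ht
    · intro i
      match i with
      | 0 => exact (hz 0).add (hz 1)
      | 1 => exact hz 3
      | 2 => exact hz 2
    · intro i
      match i with
      | 0 => exact Zi_xib _ _
      | 1 => exact Zi_xib _ _
      | 2 => exact Zi_xib _ _
  | 3 =>
    have h := itg_half hm (Or.inr rfl) (Zi_xk (X := X) v) hg.2
    have e : T.Kv a N X v 3 = ![(1 + -mB (a v) (T.Nj N v)) / 2, xk X v,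
        (1 - -mB (a v) (T.Nj N v)) / 2 - xk X v] := by
      funext i
      match i with
      | 0 =>
        change 1 / 2 + -(T.mv a N v / 2) = (1 + -T.mv a N v) / 2
        ring
      | 1 => rfl
      | 2 =>
        change 1 / 2 - xk X v - -(T.mv a N v / 2) = (1 - -T.mv a N v) / 2 - xk X v
        ring
    rw [e]
    exact h

theorem Zi_psm {s : ℕ → ℂ} (h : ∀ j, Zi (s j)) (j : ℕ) : Zi (psm s j) := by
  unfold psm
  induction j with
  | zero => simpa using Zi_zero
  | succ n ih =>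
    rw [Finset.sum_range_succ]
    exact ih.add (h n)

theorem itg_f (f j : ℕ) : Itg (T.arf (xs X) f j) (T.Hf N f j) := by
  have h1 : ∀ j, Zi (T.sf (xs X) f j) := fun j => Zi_xs _ _
  have h2 : ∀ j, Zi (T.sf (T.xi N) f j) := fun j => Zi_xi _ _
  refine itg_of ?_ ?_ ?_
  · change T.sf (xs X) f j + (1 - psm (T.sf (xs X) f) (j + 1)) + psm (T.sf (xs X) f) j = 1
    unfold psm
    rw [Finset.sum_range_succ]
    ring
  · intro i
    match i with
    | 0 => exact h1 j
    | 1 => exact Zi_one.sub (Zi_psm h1 _)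
    | 2 => exact Zi_psm h1 _
  · intro i
    match i with
    | 0 => exact h2 j
    | 1 => exact Zi_ite _ (h2 _) Zi_zero
    | 2 => exact Zi_ite _ (h2 _) Zi_zero

theorem isFlats (hn : NOk T a N) {τ z : Fin c → ℂ} {σ : Fin c → Fin 4 → ℂ}
    (hR : CReg T τ z σ) : T.IsFlats (T.sX τ z σ true) (T.sX τ z σ false) (T.sZ σ) (T.sZ' σ)
      (T.fpar a N X τ z σ) := by
  have hne : ∀ v k, T.has v k → ¬ (T.isEnd v = true ∧ (k = 1 ∨ k = 2)) := by
    rintro v k hk ⟨h1, h2⟩
    rcases hk with h3 | h3 | h3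
    · rw [h3] at h2
      exact absurd h2 (by decide)
    · rw [h3] at h2
      exact absurd h2 (by decide)
    · rw [h1] at h3
      exact absurd h3 (by decide)
  have key : ∀ v k, T.has v k → _ := fun v k hk => fl_pair (hR.oct v k hk) (itg_v (X := X) hn v k)
  refine ⟨?_, ?_, ?_, ?_⟩
  · intro v k hk
    obtain ⟨k1, k2, -⟩ := key v k hk
    change IsFlat (T.sX τ z σ true v k) (if T.one v = 1 ∨ T.one v = 3 then
      T.flv a N X τ z σ (T.eps v) v k else swp (T.flv a N X τ z σ (T.eps v) v k))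
    unfold TData.sX TData.flv TData.eps
    rw [if_neg (hne v k hk)]
    by_cases h : T.one v = 1 ∨ T.one v = 3
    · rw [if_pos h, if_pos (decide_eq_true h), if_pos h]
      exact k1
    · rw [if_neg h, if_neg (by rw [decide_eq_false h]; decide), if_neg h]
      exact k2
  · intro v k hk
    obtain ⟨k1, k2, -⟩ := key v k hk
    change IsFlat (T.sX τ z σ false v k) (if T.one v = 1 ∨ T.one v = 3 then
      swp (T.flv a N X τ z σ (-T.eps v) v k) else T.flv a N X τ z σ (-T.eps v) v k)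
    unfold TData.sX TData.flv TData.eps
    rw [if_neg (hne v k hk)]
    by_cases h : T.one v = 1 ∨ T.one v = 3
    · rw [if_pos h, if_neg (by rw [decide_eq_true h]; decide), if_pos h]
      exact k2
    · rw [if_neg h, if_pos (decide_eq_false h), if_neg h, neg_neg]
      exact k1
  · intro v k hk
    have hpos : T.isEnd v = true ∧ (k = 1 ∨ k = 2) := by
      unfold TData.has at hk
      rw [not_or, not_or] at hk
      obtain ⟨h1, h2, h3⟩ := hk
      refine ⟨by simpa using h3, ?_⟩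
      fin_cases k
      · exact absurd rfl h1
      · exact Or.inl rfl
      · exact Or.inr rfl
      · exact absurd rfl h2
    constructor
    · change T.flv a N X τ z σ (T.eps v) v k = 0
      unfold TData.flv
      rw [if_pos hpos]
    · change T.flv a N X τ z σ (-T.eps v) v k = 0
      unfold TData.flv
      rw [if_pos hpos]
  · intro f hf j h0 h1
    obtain ⟨k1, k2, -⟩ := fl_pair (hR.fan f hf j h0 h1) (itg_f (T := T) (N := N) (X := X) f j)
    exact ⟨k1, k2⟩

end Pool.Agent.H63.CLK
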