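import Pool.Agent.H63.CLK.C_Conn
import Pool.Agent.H63.CLK.D_Nice
import Pool.Agent.H63.CLK.D_Ver

set_option autoImplicit false

/-!
# CLK part D, D_Out: the boundary of the outer faces is connected

Let `L0 = L p.1 p.2`. Call a strand (label `x`) bad if it is a leg `(v,k)` with an outer corner `k` or `k - 1` and `L v k ≠ L0`. Outerness (`cor v k ∉ F ∨ cor v (k-1) ∉ F`) is invariant under the
mate by `adj` (D_Ver; both directions), so badness of the label can be read off at each of its two ends. `0` is not bad. Let `z : ℕ → ZMod 2` be the indicator of the bad labels.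
* `∑ k, z (leg v k) = 0`: a bad leg is `≠ 0`, so exactly one of its two corners is outer (`hN.inn`; at ends `hN.end0`), and the two legs of an outer corner have the same `L`
  (`h2`), so they are both bad or both not bad or one of them is the strand `0` and then (`L = L0`) none is bad. [For a fixed `v` this is a finite check over the 4 legs: the predicates
  `out k`, `bad k` on `Fin 4` satisfy: `bad k → (out k ↔ ¬ out (k-1))`, `bad k ∧ out k → bad (k+1)`, `bad (k+1) ∧ out k → bad k`, `bad k → out k ∨ out (k-1)`; so the number of bad legs is even: `decide` after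
  `generalize`.]
* `exists_chi`: `χ` with `χ 0 = 0`, `χ 1 = z 0 = 0` and `χ (cor v k) = χ (cor v (k-1)) + z (leg v k)`; by `cor_mem` `χ = 0` at all outer corners.
* Suppose there is a bad leg `(v,k)`; then one of the corners `k`, `k-1` has `χ = 1`. Let `P u := ∃ k, χ (cor u k) = 1`. Claim: if `P u` then every leg `(u,k)` has
  `χ (cor u k) = 1 ∨ χ (cor u (k-1)) = 1`. [Finite check at `u`: if `χ (cor k) = χ (cor (k-1)) = 0`, go from the corner `k` clockwise to the first corner with `χ = 1`; at the leg `j`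
  before it `z = 1`, `χ (cor (j-1)) = 0`; the leg `j` is bad, one of its corners is outer, it must be `j-1` (since `χ (cor j) = 1`), so the leg `j-1` is bad too and `χ (cor (j-2)) = 1`:
  so corners with `χ = 0` are never adjacent once a corner has `χ = 1`; again a decidable statement about `out`, `bad`, `χ` on `Fin 4`.]
  Hence `P` is closed under all mates (a face with `χ = 1` is bounded, `adj`), by `conn` (C_Conn) `P p.1`, and by the claim for the leg `p` one of the two corners at the leg `p` has `χ = 1`; but both are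
  outer (`hG.zero`). Contradiction.
-/

namespace Pool.Agent.H63.CLK

variable {c : ℕ}

/-- The indicator of a Boolean, mod 2. -/
private def D_Out_ind (b : Bool) : ZMod 2 := if b = true then 1 else 0

private theorem D_Out_par8 : ∀ o0 o1 o2 o3 b0 b1 b2 b3 : Bool,
    ((!b0 || xor o0 o3) && (!b1 || xor o1 o0) && (!b2 || xor o2 o1) && (!b3 || xor o3 o2) &&
    (!o0 || b0 == b1) && (!o1 || b1 == b2) && (!o2 || b2 == b3) && (!o3 || b3 == b0)) = true →
    D_Out_ind b0 + D_Out_ind b1 + D_Out_ind b2 + D_Out_ind b3 = 0 := by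
  unfold D_Out_ind
  decide

private theorem D_Out_imp (a b : Bool) : (a = true → b = true) ↔ (!a || b) = true := by
  revert a b
  decide

private theorem D_Out_imp2 (a b c : Bool) : (a = true → b = c) ↔ (!a || b == c) = true := by
  revert a b c
  decide

private theorem D_Out_imp3 (a b : Bool) : (a = true → b = false) ↔ (!a || !b) = true := by
  revert a b
  decide

/-- The number of bad legs is even. -/
private theorem D_Out_par (o b : Fin 4 → Bool)
    (h1 : ∀ k, b k = true → xor (o k) (o (k - 1)) = true)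
    (h3 : ∀ k, o k = true → b k = b (k + 1)) : ∑ k, D_Out_ind (b k) = 0 := by
  rw [Fin.sum_univ_four]
  apply D_Out_par8 (o 0) (o 1) (o 2) (o 3) (b 0) (b 1) (b 2) (b 3)
  rw [Bool.and_eq_true, Bool.and_eq_true, Bool.and_eq_true, Bool.and_eq_true, Bool.and_eq_true,
    Bool.and_eq_true, Bool.and_eq_true]
  exact ⟨⟨⟨⟨⟨⟨⟨(D_Out_imp _ _).1 (h1 0), (D_Out_imp _ _).1 (h1 1)⟩, (D_Out_imp _ _).1 (h1 2)⟩,
    (D_Out_imp _ _).1 (h1 3)⟩, (D_Out_imp2 _ _ _).1 (h3 0)⟩, (D_Out_imp2 _ _ _).1 (h3 1)⟩,
    (D_Out_imp2 _ _ _).1 (h3 2)⟩, (D_Out_imp2 _ _ _).1 (h3 3)⟩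

private theorem D_Out_nb8 : ∀ o0 o1 o2 o3 b0 b1 b2 b3 x0 : Bool,
    ((!b0 || xor o0 o3) && (!b1 || xor o1 o0) && (!b2 || xor o2 o1) && (!b3 || xor o3 o2) &&
    (!o0 || b0 == b1) && (!o1 || b1 == b2) && (!o2 || b2 == b3) && (!o3 || b3 == b0) &&
    (!o0 || !x0) && (!o1 || !(xor x0 b1)) && (!o2 || !(xor (xor x0 b1) b2)) &&
    (!o3 || !(xor (xor (xor x0 b1) b2) b3)) &&
    (xor (xor (xor (xor x0 b1) b2) b3) b0 == x0) &&
    (x0 || xor x0 b1 || xor (xor x0 b1) b2 || xor (xor (xor x0 b1) b2) b3)) = true →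
    ((x0 || xor (xor (xor x0 b1) b2) b3) && (xor x0 b1 || x0) &&
    (xor (xor x0 b1) b2 || xor x0 b1) &&
    (xor (xor (xor x0 b1) b2) b3 || xor (xor x0 b1) b2)) = true := by
  decide

/-- Two adjacent corners with the value zero: then all values are zero. -/
private theorem D_Out_nb (o b x : Fin 4 → Bool)
    (h1 : ∀ k, b k = true → xor (o k) (o (k - 1)) = true)
    (h3 : ∀ k, o k = true → b k = b (k + 1))
    (h4 : ∀ k, o k = true → x k = false)
    (h5 : ∀ k, x k = xor (x (k - 1)) (b k)) (h6 : ∃ k, x k = true) (k : Fin 4) :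
    x k = true ∨ x (k - 1) = true := by
  have e1 : x 1 = xor (x 0) (b 1) := h5 1
  have e2 : x 2 = xor (xor (x 0) (b 1)) (b 2) := by rw [← e1]; exact h5 2
  have e3 : x 3 = xor (xor (xor (x 0) (b 1)) (b 2)) (b 3) := by rw [← e2]; exact h5 3
  have h6' : (x 0 || x 1 || x 2 || x 3) = true := by
    obtain ⟨k, hk⟩ := h6
    fin_cases k
    · have : x 0 = true := hk
      simp [this]
    · have : x 1 = true := hk
      simp [this]
    · have : x 2 = true := hk
      simp [this]
    · have : x 3 = true := hk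
      simp [this]
  have key := D_Out_nb8 (o 0) (o 1) (o 2) (o 3) (b 0) (b 1) (b 2) (b 3) (x 0) (by
    rw [← e3, ← e2, ← e1]
    iterate 13 rw [Bool.and_eq_true]
    refine ⟨⟨⟨⟨⟨⟨⟨⟨⟨⟨⟨⟨⟨(D_Out_imp _ _).1 (h1 0), (D_Out_imp _ _).1 (h1 1)⟩,
      (D_Out_imp _ _).1 (h1 2)⟩, (D_Out_imp _ _).1 (h1 3)⟩, (D_Out_imp2 _ _ _).1 (h3 0)⟩,
      (D_Out_imp2 _ _ _).1 (h3 1)⟩, (D_Out_imp2 _ _ _).1 (h3 2)⟩, (D_Out_imp2 _ _ _).1 (h3 3)⟩,
      (D_Out_imp3 _ _).1 (h4 0)⟩, (D_Out_imp3 _ _).1 (h4 1)⟩, (D_Out_imp3 _ _).1 (h4 2)⟩,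
      (D_Out_imp3 _ _).1 (h4 3)⟩, ?_⟩, h6'⟩
    rw [beq_iff_eq]
    exact (h5 0).symm)
  rw [← e3, ← e2, ← e1] at key
  simp only [Bool.and_eq_true, Bool.or_eq_true] at key
  obtain ⟨⟨⟨k0, k1⟩, k2⟩, k3⟩ := key
  fin_cases k
  · exact k0
  · exact k1
  · exact k2
  · exact k3

private theorem D_Out_four : ∀ i k : Fin 4, k ≠ i → k ≠ i + 1 → k ≠ i + 2 → k ≠ i + 3 →
    False := by
  decide

private theorem D_Out_add (x y : ZMod 2) (b : Bool) (h : x = y + D_Out_ind b) :
    decide (x = 1) = xor (decide (y = 1)) b := by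
  revert x y b
  unfold D_Out_ind
  decide

theorem out_const {w : List TPiece} {T : TData c} (hT : T.Of w) (hG : T.Good) (hN : T.Nice)
    (hF : T.F.card = c) {M : Type*} (L : Fin c → Fin 4 → M)
    (h1 : ∀ p q, Mate T.leg p q → L p.1 p.2 = L q.1 q.2)
    (h2 : ∀ v k, T.cor v k ∉ T.F → L v (k + 1) = L v k) (p : Fin c × Fin 4)
    (hp : T.leg p.1 p.2 = 0) (v : Fin c) (k : Fin 4) (hk : T.cor v k ∉ T.F) :
    L v k = L p.1 p.2 := by
  classical
  by_contra hne
  -- bad legs
  let o : Fin c → Fin 4 → Bool := fun v k => decide (T.cor v k ∉ T.F)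
  have ho : ∀ v k, o v k = true ↔ T.cor v k ∉ T.F := fun v k => by
    simp only [o, decide_eq_true_eq]
  let bad : Fin c → Fin 4 → Prop := fun v k =>
    (T.cor v k ∉ T.F ∨ T.cor v (k - 1) ∉ T.F) ∧ L v k ≠ L p.1 p.2
  let b : Fin c → Fin 4 → Bool := fun v k => decide (bad v k)
  have hb : ∀ v k, b v k = true ↔ bad v k := fun v k => by simp only [b, decide_eq_true_eq]
  have hmate : ∀ q r, Mate T.leg q r → bad q.1 q.2 → bad r.1 r.2 := by
    rintro q r hqr ⟨ha, hb⟩
    have a1 := adj hT hG hqr
    have a2 := adj hT hG hqr.symm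
    refine ⟨?_, by rw [← h1 q r hqr]; exact hb⟩
    rcases ha with ha | ha
    · right
      intro hcon
      exact ha (a1.2 hcon ▸ hcon)
    · left
      intro hcon
      apply ha
      rw [a2.1 hcon]
      exact hcon
  have hzero : ∀ v k, T.leg v k = 0 → ¬ bad v k := by
    intro v k hvk hbad
    apply hbad.2
    by_cases hpe : p = (v, k)
    · rw [hpe]
    · exact (h1 p (v, k) ⟨hpe, by rw [hp, hvk]⟩).symm
  let z : ℕ → ZMod 2 := fun n => D_Out_ind (decide (∃ v k, T.leg v k = n ∧ bad v k))
  have hz : ∀ v k, z (T.leg v k) = D_Out_ind (b v k) := by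
    intro v k
    simp only [z, b]
    congr 1
    rw [decide_eq_decide]
    constructor
    · rintro ⟨v', k', he, hb'⟩
      by_cases hpe : ((v', k') : Fin c × Fin 4) = (v, k)
      · have e1 : v' = v := congrArg Prod.fst hpe
        have e2 : k' = k := congrArg Prod.snd hpe
        rw [← e1, ← e2]
        exact hb'
      · exact hmate (v', k') (v, k) ⟨hpe, he⟩ hb'
    · intro hbad
      exact ⟨v, k, rfl, hbad⟩
  have hz0 : z 0 = 0 := by
    have : ¬ ∃ v k, T.leg v k = 0 ∧ bad v k := by
      rintro ⟨v, k, he, hb'⟩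
      exact hzero v k he hb'
    simp only [z, this, decide_false, D_Out_ind]
    simp
  -- finite facts at a vertex
  have g1 : ∀ v k, b v k = true → xor (o v k) (o v (k - 1)) = true := by
    intro v k hbk
    rw [hb] at hbk
    have hn0 : T.leg v k ≠ 0 := fun h => hzero v k h hbk
    have hnot : ¬ (T.cor v k ∉ T.F ∧ T.cor v (k - 1) ∉ T.F) := by
      rintro ⟨c1, c2⟩
      cases hE : T.isEnd v with
      | false =>
        rcases hN.inn v k hE with h | h
        · exact c1 h
        · exact c2 h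
      | true =>
        obtain ⟨-, -, e3, e4⟩ := hN.end0 v hE
        have hone : T.leg v (T.one v) = 0 := by
          have hv' := hE
          unfold TData.isEnd at hv'
          exact of_decide_eq_true hv'
        have hk1 : k ≠ T.one v := by
          intro h
          rw [h] at hn0
          exact hn0 hone
        have hk2 : k ≠ T.one v + 1 := by
          intro h
          rw [h] at c1
          exact c1 e3
        have hk3 : k ≠ T.one v + 2 := by
          intro h
          rw [h] at c1
          exact c1 e4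
        have hk4 : k ≠ T.one v + 3 := by
          intro h
          rw [h] at c2
          have : T.one v + 3 - 1 = T.one v + 2 := by
            generalize T.one v = i
            revert i
            decide
          rw [this] at c2
          exact c2 e4
        exact D_Out_four (T.one v) k hk1 hk2 hk3 hk4
    have hor := hbk.1
    have s1 : o v k = true ↔ T.cor v k ∉ T.F := ho v k
    have s2 : o v (k - 1) = true ↔ T.cor v (k - 1) ∉ T.F := ho v (k - 1)
    rw [← s1, ← s2] at hnot hor
    revert hnot hor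
    generalize o v k = x
    generalize o v (k - 1) = y
    revert x y
    decide
  have g3 : ∀ v k, o v k = true → b v k = b v (k + 1) := by
    intro v k hok
    rw [ho] at hok
    have hL := h2 v k hok
    have hk1 : k + 1 - 1 = k := add_sub_cancel_right k 1
    simp only [b]
    rw [decide_eq_decide]
    simp only [bad]
    rw [hk1, hL]
    constructor
    · rintro ⟨-, h⟩
      exact ⟨Or.inr hok, h⟩
    · rintro ⟨-, h⟩
      exact ⟨Or.inl hok, h⟩
  obtain ⟨χ, c0, c1, c2⟩ := exists_chi hT z (by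
    intro v
    simp only [hz]
    exact D_Out_par (o v) (b v) (g1 v) (g3 v))
  rw [hz0] at c1
  have g4 : ∀ v k, T.cor v k ∉ T.F → χ (T.cor v k) = 0 := by
    intro v k h
    rcases cor_mem hT v k with h' | h' | h'
    · exact absurd h' h
    · rw [h', c0]
    · rw [h', c1]
  have g5 : ∀ u, (∃ k, χ (T.cor u k) = 1) → ∀ k, χ (T.cor u k) = 1 ∨ χ (T.cor u (k - 1)) = 1 := by
    intro u hu k
    have := D_Out_nb (o u) (b u) (fun k => decide (χ (T.cor u k) = 1)) (g1 u) (g3 u) (by
      intro k hok
      rw [ho] at hok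
      simp [g4 u k hok]) (by
      intro k
      exact D_Out_add _ _ _ (by rw [c2 u k, hz])) (by
      obtain ⟨k, hk⟩ := hu
      exact ⟨k, by simp [hk]⟩) k
    simpa only [decide_eq_true_eq] using this
  have hbad : bad v k := ⟨Or.inl hk, hne⟩
  have hv : ∃ k, χ (T.cor v k) = 1 := by
    have e := c2 v k
    rw [hz, (hb v k).2 hbad] at e
    by_cases h : χ (T.cor v (k - 1)) = 1
    · exact ⟨_, h⟩
    · refine ⟨k, ?_⟩
      have h0 : χ (T.cor v (k - 1)) = 0 := by
        revert h
        generalize χ (T.cor v (k - 1)) = x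
        revert x
        decide
      rw [e, h0]
      simp [D_Out_ind]
  have hP := conn hT hG hF (fun u => ∃ k, χ (T.cor u k) = 1) (by
    intro q r hqr hq
    have a1 := adj hT hG hqr
    have a2 := adj hT hG hqr.symm
    rcases g5 q.1 hq q.2 with h | h
    · have hmem : T.cor q.1 q.2 ∈ T.F := by
        by_contra hcon
        rw [g4 _ _ hcon] at h
        exact zero_ne_one h
      exact ⟨r.2 - 1, by rw [a1.1 hmem]; exact h⟩
    · have hmem : T.cor q.1 (q.2 - 1) ∈ T.F := by
        by_contra hcon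
        rw [g4 _ _ hcon] at h
        exact zero_ne_one h
      exact ⟨r.2, by rw [← a2.2 hmem]; exact h⟩) v p.1 hv
  obtain ⟨z1, z2⟩ := hG.zero p.1 p.2 hp
  rcases g5 p.1 hP p.2 with h | h
  · rw [g4 _ _ z1] at h
    exact zero_ne_one h
  · rw [g4 _ _ z2] at h
    exact zero_ne_one h

end Pool.Agent.H63.CLK
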