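import Pool.Agent.H63.CLK.D_Str
import Pool.Agent.H63.CLK.D_Chk
import Pool.Agent.H63.CLK.D_Out
import Pool.Agent.H63.CLK.D_FlD

set_option autoImplicit false

/-!
# CLK part D, D_Tra: the translations of the meridian of the strand `0`

Notation: `e x = exp (π i x)`, `sc v k = σ v k - xs X v k`, `κc v = (1 - τ v) - xk X v`, `cc v k = (-1)^k κc v = csr (τ v) k - csr (1 - xk X v) k`. `sc` vanishes at outer corners (`hX.mem`),
has vertex sums and face sums `0` (`xs` has vertex sums `1` and face sums `1` by `hX.inj`, `hX.sur`). `exists_str` (for `s = 2 sc`): `L` with `L (v,k+1) - L (v,k) = 2 sc v k`, equal at mates;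
subtract a constant: `L p = 0` (the strand `0`), so by `out_const` `L (v,k) = L (v,k+1) = 0` at all outer corners `(v,k)`. `exists_chi` (C_Chi, `z = 1`): a sign `S : ℕ → ℂ` (`±1`) with
`S (cor v k) = -S (cor v (k-1))`.
For `δ = ±1` and a bounded corner let `V δ v k = S (cor v k) * exp (-A (cor v k)) * (e (δ L (v,k+1)) - e (δ L (v,k)))`.
(1) For `f ∈ F`: `∑_{cor v k = f} (e (δ L (v,k+1)) - e (δ L (v,k))) = 0`: the map `(v,k) ↦ mate (v,k+1)` is a permutation of the corners of `f` (`adj`; or `IsBd.mate` and a sum over `j < deg f`).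
(2) For `v` not an end and `k` bounded: `V δ v k = δ s_v exp (B v) (e (δ (L (v,k) + cc v k)) - e (δ (L (v,k+1) + cc v (k+1))))`, where `s_v` does not depend on `k` and `δ`. Proof:
  `e (δ L') - e (δ L) = e (δ (L + L')/2) * 2 i δ sin (π sc)`, `L' = L (v,k+1)`, and `L + cc k - (L' + cc (k+1)) = 2 (cc k - sc k)`, so the right bracket is
  `e (δ (L + L')/2) * 2 i δ sin (π (cc k - sc k))`; `CritT.sig` gives `exp (-A) sin (π σ) = exp B sin (π θ)` (`hh_exp`), `sin (π σ) = ± sin (π sc)` (sign `-1` iff `k = X v`) and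
  `sin (π θ) = ± sin (π (cc - sc))` with the sign `(-1)^{csr (1 - xk) k - xs k}`; the product of the signs with `S (cor v k)` is independent of `k` since `csr (1 - xk) k` is `xk` for even and `1 - xk` for
  odd `k` and `S (cor v k) = (-1)^k S (cor v 0)`. (Take `s_v = S (cor v 0) * (1 - 2 xk)`; the factor `δ` appears since both brackets have one factor `δ`: `V δ v k = s_v exp (B v) * bracket δ`, no extra `δ`.)
  The sum of the brackets over all `k` is `0` (cyclic telescoping). At an outer corner `L (v,k) = L (v,k+1) = 0`, the bracket is `e (δ cc k) - e (-δ cc k)`, odd in `δ`.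
  So `∑_{k bounded} (V 1 v k + V (-1) v k) = 0` for `v` not an end.
(3) For an end `v` with `leg v i = 0`, `i = one v`: `L i = L (i+1) = 0 = L (i+3)` and `L (i+2) = 2 sc v (i+1)`, `sc v (i+1) = cc v (i+1)` (`hc.fin`, side corner `= X v`), the sum over the two bounded corners
  `i+1`, `i+2` of `V 1 + V (-1)` is `S (cor v (i+1)) * 2 (cos (2 π κc) - 1) * (exp (-A (cor v (i+1))) + exp (-A (cor v (i+2))))`, `= -S * 4 sin(π τ)^2 (…)`.
(4) Sum of (1) over `f ∈ F` (with the factors `S f exp (-A f)`, `δ = 1` and `-1`) `= ∑_v ∑_{k bounded} (V 1 + V (-1)) = 0`, by (2) only the two ends `p.1`, `q.1` contribute (an end is `p.1` or `q.1` by `hG.un`,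
  and `p.1 ≠ q.1` by `hT.one`), and `S (cor p.1 (p.2+1)) = -S (cor q.1 (q.2+1))`: outer corners have labels `0`, `1` (`cor_mem`), `S 0 = -S 1`; use `exists_chi` : `χ 0 = 0`, `χ 1 = 1`; if
  `cor p.1 p.2 = cor q.1 q.2` then the sum of the signs over all legs would not vanish … simplest: `D_Pot` part (b) as a lemma, or: `∑_{v,k} (-1)^{χ (cor v k)} = 0` over all corners, the mate pairs cancel.
-/

namespace Pool.Agent.H63.CLK

open Pool.Agent.H63.VC hiding ext
open Pool.Agent.H63.VC3 Complex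

variable {c : ℕ}

private theorem D_Tra_i3 (i : Fin 4) : i + 3 = i - 1 := by
  revert i
  decide

private theorem D_Tra_i4 (i : Fin 4) : i + 3 + 1 = i := by
  revert i
  decide

private theorem D_Tra_sinr (t : ℂ) (k : Fin 4) :
    sin (Real.pi * csr t k) ^ 2 = sin (Real.pi * t) ^ 2 := by
  have h : sin (Real.pi * (1 - t)) = sin (Real.pi * t) := by
    rw [mul_sub, mul_one, Complex.sin_pi_sub]
  fin_cases k
  · change sin (Real.pi * (1 - t)) ^ 2 = _
    rw [h]
  · rfl
  · change sin (Real.pi * (1 - t)) ^ 2 = _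
    rw [h]
  · rfl

private theorem D_Tra_bit (x e : ℂ) (he : e = 0 ∨ e = 1) :
    sin (Real.pi * (x + e)) = (1 - 2 * e) * sin (Real.pi * x) := by
  rcases he with rfl | rfl
  · simp
  · rw [mul_add, mul_one, Complex.sin_add_pi]
    ring

private theorem D_Tra_bit2 (x e : ℂ) (he : e = 0 ∨ e = 1) :
    sin (Real.pi * (x - e)) = (1 - 2 * e) * sin (Real.pi * x) := by
  rcases he with rfl | rfl
  · simp
  · rw [mul_sub, mul_one, Complex.sin_sub_pi]
    ring

private theorem D_Tra_xs (X : Fin c → Fin 4) (v : Fin c) (k : Fin 4) :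
    xs X v k = 0 ∨ xs X v k = 1 := by
  unfold xs
  split_ifs <;> simp

private theorem D_Tra_xk (X : Fin c → Fin 4) (v : Fin c) : xk X v = 0 ∨ xk X v = 1 := by
  unfold xk
  split_ifs <;> simp

private theorem D_Tra_csr (e : ℂ) (he : e = 0 ∨ e = 1) (k : Fin 4) :
    csr (1 - e) k = 0 ∨ csr (1 - e) k = 1 := by
  have h0 : ∀ k, csr (1 - e) k = e ∨ csr (1 - e) k = 1 - e := by
    intro k
    fin_cases k
    · left; change 1 - (1 - e) = e; ring
    · right; rfl
    · left; change 1 - (1 - e) = e; ring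
    · right; rfl
  rcases he with rfl | rfl <;> rcases h0 k with h | h <;> rw [h] <;> simp

private theorem D_Tra_csr_succ (t : ℂ) (k : Fin 4) : csr t (k + 1) = 1 - csr t k := by
  fin_cases k
  · change t = 1 - (1 - t); ring
  · rfl
  · change t = 1 - (1 - t); ring
  · rfl

private theorem D_Tra_c1 (L x : ℂ) : cos (Real.pi * (L + 2 * x)) - cos (Real.pi * L) =
    -2 * sin (Real.pi * (L + x)) * sin (Real.pi * x) := by
  rw [Complex.cos_sub_cos]
  have e1 : (Real.pi * (L + 2 * x) + Real.pi * L) / 2 = (Real.pi * (L + x) : ℂ) := by ring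
  have e2 : (Real.pi * (L + 2 * x) - Real.pi * L) / 2 = (Real.pi * x : ℂ) := by ring
  rw [e1, e2]

private theorem D_Tra_c2 (L x y : ℂ) :
    cos (Real.pi * (L + y)) - cos (Real.pi * (L + 2 * x - y)) =
    -2 * sin (Real.pi * (L + x)) * sin (Real.pi * (y - x)) := by
  rw [Complex.cos_sub_cos]
  have e1 : (Real.pi * (L + y) + Real.pi * (L + 2 * x - y)) / 2 = (Real.pi * (L + x) : ℂ) := by
    ring
  have e2 : (Real.pi * (L + y) - Real.pi * (L + 2 * x - y)) / 2 = (Real.pi * (y - x) : ℂ) := by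
    ring
  rw [e1, e2]

private theorem D_Tra_sumF (g : Fin 4 → ℂ) : ∑ k : Fin 4, (g k - g (k + 1)) = 0 := by
  have h : ∑ k : Fin 4, g (k + 1) = ∑ k, g k := Equiv.sum_comp (Equiv.addRight (1 : Fin 4)) g
  rw [Finset.sum_sub_distrib, h, sub_self]

/-- The critical equation at a corner. -/
private theorem D_Tra_corner {T : TData c} {a : Fin c → ℤ} {τ z : Fin c → ℂ}
    {σ : Fin c → Fin 4 → ℂ} {A : ℕ → ℂ} {B : Fin c → ℂ} (hc : CritT T a τ z σ A B)
    (hR : Reg T τ z σ) (X : Fin c → Fin 4) (v : Fin c) (k : Fin 4) (hk : T.cor v k ∈ T.F)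
    (hv : T.isEnd v = false) :
    exp (-A (T.cor v k)) * sin (Real.pi * (σ v k - xs X v k)) =
      exp (B v) * ((1 - 2 * csr (1 - xk X v) k) *
        sin (Real.pi * (csr (τ v) k - csr (1 - xk X v) k - (σ v k - xs X v k)))) := by
  have h1 := hc.sig v k hk hv
  have h2 := hh_exp _ (hR.sig v k hk).1 (hR.sig v k hk).2
  have h3 := hh_exp _ (hR.the v k hv).1 (hR.the v k hv).2
  have h4 : exp (-A (T.cor v k)) * exp (hh (σ v k)) =
      exp (B v) * exp (hh (csr (τ v) k - σ v k)) := by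
    rw [← Complex.exp_add, ← Complex.exp_add]
    congr 1
    linear_combination -h1
  rw [h2, h3] at h4
  have h5 : sin (Real.pi * σ v k) =
      (1 - 2 * xs X v k) * sin (Real.pi * (σ v k - xs X v k)) := by
    rw [← D_Tra_bit _ _ (D_Tra_xs X v k)]
    congr 1
    ring
  have h6 : sin (Real.pi * (csr (τ v) k - σ v k)) =
      (1 - 2 * xs X v k) * ((1 - 2 * csr (1 - xk X v) k) *
        sin (Real.pi * (csr (τ v) k - csr (1 - xk X v) k - (σ v k - xs X v k)))) := by
    rw [← D_Tra_bit _ _ (D_Tra_csr _ (D_Tra_xk X v) k), ← D_Tra_bit2 _ _ (D_Tra_xs X v k)]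
    congr 1
    ring
  rw [h5, h6] at h4
  rcases D_Tra_xs X v k with h7 | h7
  · rw [h7] at h4 ⊢
    linear_combination h4 / 2
  · rw [h7] at h4 ⊢
    linear_combination -h4 / 2

theorem trans_id {w : List TPiece} {T : TData c} (hT : T.Of w) (hG : T.Good) (hN : T.Nice)
    (hF : T.F.card = c) {a : Fin c → ℤ} {τ z : Fin c → ℂ} {σ : Fin c → Fin 4 → ℂ} {A : ℕ → ℂ}
    {B : Fin c → ℂ} (hc : CritT T a τ z σ A B) (hR : Reg T τ z σ) {X : Fin c → Fin 4}
    (hX : T.Match X) (p q : Fin c × Fin 4) (hpq : Mate T.leg p q) (h0 : T.leg p.1 p.2 = 0) :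
    sin (Real.pi * τ p.1) ^ 2 * (exp (-A (T.cor p.1 (p.2 + 1))) + exp (-A (T.cor p.1 (p.2 + 2)))) =
      sin (Real.pi * τ q.1) ^ 2 *
        (exp (-A (T.cor q.1 (q.2 + 1))) + exp (-A (T.cor q.1 (q.2 + 2)))) := by
  classical
  obtain ⟨S, -, -, hS1, hS2⟩ := exists_sgn hT
  -- the numbers `sc`
  obtain ⟨sc, hsc⟩ : ∃ sc : Fin c → Fin 4 → ℂ, sc = fun v k => σ v k - xs X v k := ⟨_, rfl⟩
  have hsc0 : ∀ v k, T.cor v k ∉ T.F → sc v k = 0 := by
    intro v k hk
    have h1 : xs X v k = 0 := by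
      unfold xs
      rw [if_neg]
      rintro rfl
      exact hk (hX.mem v)
    rw [hsc]
    change σ v k - xs X v k = 0
    rw [hc.out v k hk, h1, sub_zero]
  have hsc1 : ∀ v, ∑ k, sc v k = 0 := by
    intro v
    rw [hsc]
    change ∑ k, (σ v k - xs X v k) = 0
    rw [Finset.sum_sub_distrib, hc.sumv v]
    unfold xs
    rw [Finset.sum_ite_eq']
    simp
  have hsc2 : ∀ f ∈ T.F, ∑ v, ∑ k, (if T.cor v k = f then sc v k else 0) = 0 := by
    intro f hf
    have h1 : ∀ v k, (if T.cor v k = f then sc v k else 0) =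
        (if T.cor v k = f then σ v k else 0) - (if T.cor v k = f then xs X v k else 0) := by
      intro v k
      rw [hsc]
      split_ifs <;> simp
    simp only [h1, Finset.sum_sub_distrib]
    rw [hc.sumf f hf]
    obtain ⟨u, hu⟩ := hX.sur f hf
    have h2 : ∀ v, ∑ k, (if T.cor v k = f then xs X v k else 0) = if v = u then 1 else 0 := by
      intro v
      rw [Finset.sum_eq_single (X v)]
      · unfold xs
        rw [if_pos rfl]
        by_cases hvu : v = u
        · subst hvu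
          rw [if_pos hu, if_pos rfl]
        · rw [if_neg hvu, if_neg]
          intro h3
          exact hvu (hX.inj v u (h3.trans hu.symm))
      · intro k _ hk
        unfold xs
        rw [if_neg hk, ite_self]
      · simp
    simp only [h2]
    simp
  obtain ⟨L0, hL1, hL2⟩ := exists_str hT hG hN (fun v k => 2 * sc v k)
    (fun v k hk => by rw [hsc0 v k hk, mul_zero])
    (fun v => by rw [← Finset.mul_sum, hsc1 v, mul_zero])
    (fun f hf => by
      have h1 : ∀ v k, (if T.cor v k = f then 2 * sc v k else 0) =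
          2 * (if T.cor v k = f then sc v k else 0) := by
        intro v k
        split_ifs <;> simp
      simp only [h1, ← Finset.mul_sum]
      rw [hsc2 f hf, mul_zero])
  obtain ⟨L, hL⟩ : ∃ L : Fin c → Fin 4 → ℂ, L = fun v k => L0 v k - L0 p.1 p.2 := ⟨_, rfl⟩
  have hLm : ∀ p q, Mate T.leg p q → L p.1 p.2 = L q.1 q.2 := by
    intro p' q' h
    rw [hL]
    change L0 p'.1 p'.2 - _ = L0 q'.1 q'.2 - _
    rw [hL1 p' q' h]
  have hLs : ∀ v k, L v (k + 1) = L v k + 2 * sc v k := by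
    intro v k
    rw [hL]
    change L0 v (k + 1) - _ = L0 v k - _ + _
    rw [← hL2 v k]
    ring
  have hLo : ∀ v k, T.cor v k ∉ T.F → L v k = 0 := by
    intro v k hk
    rw [out_const hT hG hN hF L hLm (fun v k hk => by rw [hLs, hsc0 v k hk]; ring) p h0 v k hk, hL]
    change L0 p.1 p.2 - L0 p.1 p.2 = 0
    rw [sub_self]
  -- the mates
  choose m hm using hG.ex
  have hmm : ∀ x, m (m x) = x := fun x => hG.un _ _ _ (hm (m x)) (hm x).symm
  have hminj : Function.Injective m := fun x y h => by rw [← hmm x, h, hmm]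
  have hφ : Function.Bijective (fun x : Fin c × Fin 4 => m (x.1, x.2 + 1)) := by
    rw [← Finite.injective_iff_bijective]
    intro x y h
    have h1 := Prod.ext_iff.1 (hminj h)
    refine Prod.ext h1.1 ?_
    exact add_right_cancel h1.2
  obtain ⟨G, hGd⟩ : ∃ G : ℕ → ℂ, G = fun f => if f ∈ T.F then (S f : ℂ) * exp (-A f) else 0 :=
    ⟨_, rfl⟩
  have hG0 : ∀ f, f ∉ T.F → G f = 0 := fun f hf => by rw [hGd]; exact if_neg hf
  have hG1 : ∀ f, f ∈ T.F → G f = (S f : ℂ) * exp (-A f) := fun f hf => by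
    rw [hGd]; exact if_pos hf
  obtain ⟨D, hD⟩ : ∃ D : Fin c → ℂ, D = fun v => ∑ k, G (T.cor v k) *
    (cos (Real.pi * L v (k + 1)) - cos (Real.pi * L v k)) := ⟨_, rfl⟩
  have hDv : ∀ v, D v = ∑ k, G (T.cor v k) *
    (cos (Real.pi * L v (k + 1)) - cos (Real.pi * L v k)) := fun v => by rw [hD]
  have hsum : ∑ v, D v = 0 := by
    simp only [hDv, mul_sub, Finset.sum_sub_distrib]
    rw [← Fintype.sum_prod_type' (f := fun v k => G (T.cor v k) * cos (Real.pi * L v (k + 1))),
      ← Fintype.sum_prod_type' (f := fun v k => G (T.cor v k) * cos (Real.pi * L v k)),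
      ← hφ.sum_comp (fun x => G (T.cor x.1 x.2) * cos (Real.pi * L x.1 x.2)), sub_eq_zero]
    refine Finset.sum_congr rfl fun x _ => ?_
    have h1 : Mate T.leg (m (x.1, x.2 + 1)) (x.1, x.2 + 1) := (hm _).symm
    have h2 := adj_all hT hG hN h1
    have h3 := hLm _ _ h1
    dsimp only at h2 h3 ⊢
    rw [add_sub_cancel_right] at h2
    rw [← h2, h3]
  have hSs : ∀ v k, S (T.cor v (k + 1)) = -S (T.cor v k) := by
    intro v k
    rw [hS2 v (k + 1), add_sub_cancel_right]
  have hne : ∀ v, T.isEnd v = false → D v = 0 := by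
    intro v hv
    -- the sign
    obtain ⟨s, hs⟩ : ∃ s : ℂ, ∀ k, (S (T.cor v k) : ℂ) * (1 - 2 * csr (1 - xk X v) k) = s := by
      have h1 : ∀ k, (S (T.cor v (k + 1)) : ℂ) * (1 - 2 * csr (1 - xk X v) (k + 1)) =
          (S (T.cor v k) : ℂ) * (1 - 2 * csr (1 - xk X v) k) := by
        intro k
        rw [hSs, D_Tra_csr_succ]
        push_cast
        ring
      refine ⟨(S (T.cor v 0) : ℂ) * (1 - 2 * csr (1 - xk X v) 0), fun k => ?_⟩
      have e1 := h1 0
      have e2 := h1 1
      have e3 := h1 2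
      fin_cases k
      · rfl
      · exact e1
      · exact e2.trans e1
      · exact e3.trans (e2.trans e1)
    obtain ⟨cc, hcc⟩ : ∃ cc : Fin 4 → ℂ, cc = fun k => csr (τ v) k - csr (1 - xk X v) k := ⟨_, rfl⟩
    have hcs : ∀ k, cc (k + 1) = -cc k := by
      intro k
      rw [hcc]
      change csr (τ v) (k + 1) - csr (1 - xk X v) (k + 1) = -(csr (τ v) k - csr (1 - xk X v) k)
      rw [D_Tra_csr_succ, D_Tra_csr_succ]
      ring
    have hk : ∀ k, G (T.cor v k) * (cos (Real.pi * L v (k + 1)) - cos (Real.pi * L v k)) =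
        s * exp (B v) * (cos (Real.pi * (L v k + cc k)) -
          cos (Real.pi * (L v (k + 1) + cc (k + 1)))) := by
      intro k
      have h1 : L v (k + 1) + cc (k + 1) = L v k + 2 * sc v k - cc k := by
        rw [hLs, hcs]
        ring
      rw [h1]
      by_cases hkF : T.cor v k ∈ T.F
      · rw [D_Tra_c2, hLs, D_Tra_c1, hG1 _ hkF]
        have h2 := D_Tra_corner hc hR X v k hkF hv
        have h3 : csr (τ v) k - csr (1 - xk X v) k - (σ v k - xs X v k) = cc k - sc v k := by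
          rw [hcc, hsc]
        have h4 : σ v k - xs X v k = sc v k := by rw [hsc]
        rw [h3, h4] at h2
        rw [← hs k]
        linear_combination (-2 * sin (Real.pi * (L v k + sc v k)) * (S (T.cor v k) : ℂ)) * h2
      · rw [hG0 _ hkF, hLo v k hkF, hsc0 v k hkF]
        have h5 : (0 : ℂ) + 2 * 0 - cc k = -(0 + cc k) := by ring
        rw [h5, mul_neg, Complex.cos_neg]
        ring
    rw [hDv, Finset.sum_congr rfl fun k _ => hk k, ← Finset.mul_sum,
      D_Tra_sumF (fun k => cos (Real.pi * (L v k + cc k))), mul_zero]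
  have hend : ∀ v i, T.leg v i = 0 → D v = -2 * sin (Real.pi * τ v) ^ 2 *
      (S (T.cor v (i + 1)) : ℂ) *
      (exp (-A (T.cor v (i + 1))) + exp (-A (T.cor v (i + 2)))) := by
    intro v i hi
    have hone := hT.one v i hi
    have hv : T.isEnd v = true := by
      unfold TData.isEnd
      rw [hone]
      exact decide_eq_true hi
    obtain ⟨n1, n2, n3, n4⟩ := hN.end0 v hv
    rw [hone] at n1 n2 n3 n4
    have e3 : i + 3 = i - 1 := D_Tra_i3 i
    have l0 : L v i = 0 := hLo v i n1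
    have l1 : L v (i + 1) = 0 := by rw [hLs, hsc0 v i n1, l0]; ring
    have l3 : L v (i + 3) = 0 := by rw [e3]; exact hLo v _ n2
    have l2 : L v (i + 2) = 2 * sc v (i + 1) := by
      have h1 := hLs v (i + 1)
      rw [l1, zero_add, add_assoc] at h1
      exact h1
    have l4 : L v (i + 3 + 1) = 0 := by
      have h1 : i + 3 + 1 = i := D_Tra_i4 i
      rw [h1, l0]
    have hs2 : sin (Real.pi * sc v (i + 1)) ^ 2 = sin (Real.pi * τ v) ^ 2 := by
      have h1 : σ v (i + 1) = csr (τ v) (i + 1) := hc.fin v (i + 1) n3 hv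
      rw [hsc]
      change sin (Real.pi * (σ v (i + 1) - xs X v (i + 1))) ^ 2 = _
      rw [D_Tra_bit2 _ _ (D_Tra_xs X v (i + 1)), h1, mul_pow, D_Tra_sinr]
      rcases D_Tra_xs X v (i + 1) with h2 | h2 <;> rw [h2] <;> norm_num
    have hco : cos (Real.pi * L v (i + 2)) = 1 - 2 * sin (Real.pi * τ v) ^ 2 := by
      rw [l2, ← hs2]
      have h1 : (Real.pi * (2 * sc v (i + 1)) : ℂ) = 2 * (Real.pi * sc v (i + 1)) := by ring
      rw [h1, Complex.cos_two_mul, Complex.cos_sq']
      ring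
    have hsh : ∀ g : Fin 4 → ℂ, ∑ k, g k = g i + g (i + 1) + g (i + 2) + g (i + 3) := by
      intro g
      rw [← Equiv.sum_comp (Equiv.addLeft i) g, Fin.sum_univ_four]
      simp
    have hS12 : (S (T.cor v (i + 2)) : ℂ) = -(S (T.cor v (i + 1)) : ℂ) := by
      have h1 := hSs v (i + 1)
      rw [add_assoc] at h1
      have h2 : (1 : Fin 4) + 1 = 2 := rfl
      rw [h2] at h1
      rw [h1]
      push_cast
      rfl
    have e12 : i + 1 + 1 = i + 2 := by
      rw [add_assoc]
      rfl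
    have e23 : i + 2 + 1 = i + 3 := by
      rw [add_assoc]
      rfl
    rw [hDv, hsh, hG0 _ n1, e3, hG0 _ n2, hG1 _ n3, hG1 _ n4, e12, e23, hco, l1, l3, mul_zero,
      Complex.cos_zero, hS12]
    ring
  -- the two ends
  have hpq0 : T.leg q.1 q.2 = 0 := by rw [← hpq.2]; exact h0
  have hne' : p.1 ≠ q.1 := by
    intro h
    have h1 := hT.one p.1 p.2 h0
    have h2 := hT.one q.1 q.2 hpq0
    exact hpq.1 (Prod.ext h (by rw [← h1, ← h2, h]))
  have hother : ∀ v, v ≠ p.1 → v ≠ q.1 → D v = 0 := by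
    intro v hvp hvq
    refine hne v ?_
    by_contra hv
    rw [Bool.not_eq_false] at hv
    have h1 : T.leg v (T.one v) = 0 := by
      unfold TData.isEnd at hv
      exact of_decide_eq_true hv
    have h2 : Mate T.leg p (v, T.one v) := by
      refine ⟨fun h => hvp (Prod.ext_iff.1 h).1.symm, ?_⟩
      change T.leg p.1 p.2 = T.leg v (T.one v)
      rw [h0, h1]
    exact hvq (Prod.ext_iff.1 (hG.un _ _ _ h2 hpq)).1
  have hfin : D p.1 + D q.1 = 0 := by
    rw [← hsum]
    symm
    exact Fintype.sum_eq_add p.1 q.1 hne' fun x hx => hother x hx.1 hx.2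
  rw [hend p.1 p.2 h0, hend q.1 q.2 hpq0] at hfin
  have hSpq : S (T.cor q.1 (q.2 + 1)) = -S (T.cor p.1 (p.2 + 1)) := by
    have h1 := adj_all hT hG hN hpq
    rw [hSs p.1 p.2, hSs q.1 q.2, ← h1, hS2 q.1 q.2]
  rw [hSpq] at hfin
  have hSne : (S (T.cor p.1 (p.2 + 1)) : ℂ) ≠ 0 := by
    rcases hS1 (T.cor p.1 (p.2 + 1)) with h | h <;> rw [h] <;> norm_num
  push_cast at hfin
  have h9 : (-2 * (S (T.cor p.1 (p.2 + 1)) : ℂ)) *
      (sin (Real.pi * τ p.1) ^ 2 *
        (exp (-A (T.cor p.1 (p.2 + 1))) + exp (-A (T.cor p.1 (p.2 + 2)))) -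
      sin (Real.pi * τ q.1) ^ 2 *
        (exp (-A (T.cor q.1 (q.2 + 1))) + exp (-A (T.cor q.1 (q.2 + 2))))) = 0 := by
    linear_combination hfin
  rcases mul_eq_zero.1 h9 with h | h
  · exact absurd h (mul_ne_zero (by norm_num) hSne)
  · exact sub_eq_zero.1 h

end Pool.Agent.H63.CLK
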