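import Pool.Agent.H63.CLK.D_FlE
import Pool.Agent.H63.CLK.D_Tra
import Pool.Agent.H63.CLK.D_Cha
import Pool.Agent.H63.CLK.D_Chk

set_option autoImplicit false

/-!
# CLK part D, D_FlZ: the longitude equation of the strand `0`

Notation of D_FlG, D_FlE (`x° = x - K_x`, `H_x`). Let `f0 = cor q.1 q.2 = cor p.1 (p.2 - 1)` (`adj_all`, D_Chk), `∉ F` (`hG.zero`). `E = {r | leg r ≠ 0, cor r.1 r.2 = f0}`,
`E' = {r | leg r ≠ 0, cor r.1 (r.2 - 1) = f0}`; the mate maps `E'` bijectively to `E` (`adj_all`). For `r ∈ E`: `up r = loc r` (the corner is outer); for `r ∈ E'`: the corner `r.2` is bounded (`hN.inn`,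
`hN.end0`), `up r = loc r + pls r`, `fpls` with the mate `r'` of `r` (`r' ∈ E`).
For `x`: `XO r = loc r - π i σ°(r) - H_σ(r) + A (cor r)` for `r ∈ E'`, `NO r = loc r - π i σ°(r.1, r.2-1) + H_σ(r.1, r.2-1) - A (cor r.1 (r.2-1))` for `r ∈ E`. Then
`hol0 = spk terms + ∑_{E'} XO + ∑_E NO` (the `A` cancel by the bijection).
* `v` not an end, `cor v k = f0`: `(v,k+1) ∈ E'`, `(v,k) ∈ E`, `XO (v,k+1) = -B v - H_θ(k)`, `NO (v,k) = B v + H_θ(k)` (`fver`, `CritT.sig` for the corners `k+1`, `k-1`, `csr° (k) + csr° (k+1) = 0`). Sum `0`.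
* `q.1`, `q.2 = one` (corner `q.2` is `f0`, `q.2 - 1` is not): only `XO (q.1, q.2+1)`; with the `spk` term (if `q.2` is odd) it is `gpot true q + (A o - 2 hh (1/2 + z))`, `o` the bounded odd corner of `q.1`:
  `one` odd: leg `a_2`, `loc = chd 0 = π i κ° + (H_+ - H_α)`, `σ°(k2+1) = κ°`, `spk 0 = π i z° + H_- - H_κ`, `hc.tau0`; `one` even: leg `a_4`, `loc = chd 3 = -π i (κ° + z°) - (H_α - H_κ)`, `σ°(k2+1) = -κ°`.
* `p.1`: only `NO (p.1, p.2 - 1)`; with the `spk` term (if `p.2` is even) it is `-gpot true p - (A o - 2 hh (1/2 + z))`.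
* for `-hol0` of `x'`: the same with `gpot false` (all `H` change their signs in `x'`, the arcs do not).
* `A o - 2 hh (1/2 + z)` agrees at `p.1` and `q.1`: `trans_id`, `end_log`: the exponentials agree; imaginary parts: `chain_small`, `|im| < 2 π`.
The integers: for `b j = T.Nj N v j`, `b 0 = false` (`hn.zero`), `nj_even`, `nj_odd`: `gp + gm - xiB 1 - (1-m)/2 - laB 0 = 0`, `(1-m)/2 + xiB 2 + laB 0 = 0`. All formulas were checked numerically.
-/

namespace Pool.Agent.H63.CLK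

open Pool.Agent.H63.VC hiding ext
open Pool.Agent.H63.VC3 Pool.Agent.H63.VC7.Hyp Complex

variable {c : ℕ} {w : List TPiece} {T : TData c} {a : Fin c → ℤ} {N : ℕ → Bool}
  {X : Fin c → Fin 4} {τ z : Fin c → ℂ} {σ : Fin c → Fin 4 → ℂ} {A : ℕ → ℂ} {B : Fin c → ℂ}

/-! ### Logarithms and bits -/

private theorem D_FlZ_exp {u w : ℂ} (h : exp u = exp w) (him : |(u - w).im| < 2 * Real.pi) :
    u = w := by
  obtain ⟨n, hn⟩ := Complex.exp_eq_exp_iff_exists_int.1 h
  have h1 : (u - w).im = n * (2 * Real.pi) := by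
    rw [hn]
    simp
  have hpi := Real.pi_pos
  have h2 : n = 0 := by
    by_contra hne
    have h3 : (1 : ℝ) ≤ |(n : ℝ)| := by
      have := Int.one_le_abs hne
      exact_mod_cast this
    rw [h1, abs_mul, abs_of_pos (by positivity : 0 < 2 * Real.pi)] at him
    nlinarith
  rw [hn, h2]
  simp

private theorem D_FlZ_csr (t : ℂ) (k : Fin 4) : csr t (k - 1) + csr t k = 1 := by
  match k with
  | 0 => show t + (1 - t) = 1; ring
  | 1 => show 1 - t + t = 1; ring
  | 2 => show t + (1 - t) = 1; ring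
  | 3 => show 1 - t + t = 1; ring

private theorem D_FlZ_csr' (t : ℂ) (k : Fin 4) : csr t k + csr t (k + 1) = 1 := by
  match k with
  | 0 => show 1 - t + t = 1; ring
  | 1 => show t + (1 - t) = 1; ring
  | 2 => show 1 - t + t = 1; ring
  | 3 => show t + (1 - t) = 1; ring

private theorem D_FlZ_xib (x y : Bool) : xib x y = xib y x := by
  cases x <;> cases y <;> simp [xib]

private theorem D_FlZ_I1 (t : ℂ) (m : ℤ) (b : Fin 4 → Bool) (h0 : b 0 = false)
    (he : Even m → b 0 = b 1 ∧ b 2 = b 3) (ho : Odd m → b 0 = !b 2 ∧ b 1 = !b 3) :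
    gpB t m b + gmB t m b - xib (b 1) (b 2) - (1 - mB m b) / 2 - laB m b 0 = 0 := by
  rcases Int.even_or_odd m with hm | hm
  · obtain ⟨h1, h2⟩ := he hm
    have hm' : ¬ Odd m := Int.not_odd_iff_even.2 hm
    have h1' : b 1 = false := by rw [← h1, h0]
    cases h3 : b 2
    · simp only [gpB, gmB, nh, xib, mB, laB, h0, h1', h3, hm, hm', if_true]
      norm_num
    · simp only [gpB, gmB, nh, xib, mB, laB, h0, h1', h3, hm, hm', if_true]
      norm_num
  · obtain ⟨h1, h2⟩ := ho hm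
    have hm' : ¬ Even m := Int.not_even_iff_odd.2 hm
    have h3 : b 2 = true := by
      rw [h0] at h1
      cases h4 : b 2
      · rw [h4] at h1
        exact absurd h1 (by decide)
      · rfl
    cases h4 : b 1
    · simp only [gpB, gmB, nh, xib, mB, laB, h0, h3, h4, hm, hm']
      norm_num
    · simp only [gpB, gmB, nh, xib, mB, laB, h0, h3, h4, hm, hm']
      norm_num

private theorem D_FlZ_I2 (m : ℤ) (b : Fin 4 → Bool) (h0 : b 0 = false)
    (he : Even m → b 0 = b 1 ∧ b 2 = b 3) (ho : Odd m → b 0 = !b 2 ∧ b 1 = !b 3) :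
    (1 - mB m b) / 2 + xib (b 2) (b 3) + laB m b 0 = 0 := by
  rcases Int.even_or_odd m with hm | hm
  · obtain ⟨h1, h2⟩ := he hm
    have hm' : ¬ Odd m := Int.not_odd_iff_even.2 hm
    have h1' : b 1 = false := by rw [← h1, h0]
    cases h3 : b 2
    · rw [h3] at h2
      simp only [nh, xib, mB, laB, h1', h3, ← h2, hm, hm', if_true]
      norm_num
    · rw [h3] at h2
      simp only [nh, xib, mB, laB, h1', h3, ← h2, hm, hm', if_true]
      norm_num
  · obtain ⟨h1, h2⟩ := ho hm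
    have hm' : ¬ Even m := Int.not_even_iff_odd.2 hm
    have h3 : b 2 = true := by
      rw [h0] at h1
      cases h4 : b 2
      · rw [h4] at h1
        exact absurd h1 (by decide)
      · rfl
    cases h4 : b 3
    · rw [h4] at h2
      simp only [nh, xib, mB, laB, h2, h3, hm, hm']
      norm_num
    · rw [h4] at h2
      simp only [nh, xib, mB, laB, h2, h3, hm, hm']
      norm_num

private theorem D_FlZ_half (v : Fin c) : hh (1 / 2 + T.zf z v) = hh (1 / 2 + z v) := by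
  unfold TData.zf
  split_ifs
  · rfl
  · rw [show (1 : ℂ) / 2 + -z v = 1 - (1 / 2 + z v) by ring, hh_one_sub]

private theorem D_FlZ_half' (v : Fin c) : hh (1 / 2 - T.zf z v) = hh (1 / 2 + T.zf z v) := by
  rw [show (1 : ℂ) / 2 - T.zf z v = 1 - (1 / 2 + T.zf z v) by ring, hh_one_sub]

private theorem D_FlZ_pm (v : Fin c) :
    hh (1 / 2 - (1 - τ v) + T.zf z v) + hh (1 / 2 - (1 - τ v) - T.zf z v) =
      hh (τ v - 1 / 2 - z v) + hh (τ v - 1 / 2 + z v) := by
  unfold TData.zf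
  split_ifs
  · rw [show (1 : ℂ) / 2 - (1 - τ v) + z v = τ v - 1 / 2 + z v by ring,
      show (1 : ℂ) / 2 - (1 - τ v) - z v = τ v - 1 / 2 - z v by ring, add_comm]
  · rw [show (1 : ℂ) / 2 - (1 - τ v) + -z v = τ v - 1 / 2 - z v by ring,
      show (1 : ℂ) / 2 - (1 - τ v) - -z v = τ v - 1 / 2 + z v by ring]

/-! ### Combinatorics of the outer face -/

private theorem D_FlZ_fin (i : Fin 4) : i + 1 ≠ i ∧ i + 2 ≠ i ∧ i + 3 ≠ i ∧ i + 1 - 1 = i ∧
    i + 2 - 1 = i + 1 ∧ i + 3 - 1 = i + 2 ∧ i + 3 = i - 1 := by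
  revert i
  decide

private theorem D_FlZ_fin2 (k i : Fin 4) : k ≠ i → k = i + 1 ∨ k = i + 2 ∨ k - 1 = i + 2 := by
  revert k i
  decide

private theorem D_FlZ_one (hT : T.Of w) {v : Fin c} {k : Fin 4} (h : T.leg v k = 0) :
    T.isEnd v = true ∧ T.one v = k := by
  have h1 := hT.one v k h
  refine ⟨?_, h1⟩
  unfold TData.isEnd
  rw [h1]
  exact decide_eq_true h

private theorem D_FlZ_end {v : Fin c} (h : T.isEnd v = true) : T.leg v (T.one v) = 0 :=
  of_decide_eq_true h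

private theorem D_FlZ_in (hN : T.Nice) (v : Fin c) (k : Fin 4)
    (h0 : T.leg v k ≠ 0) (ho : T.cor v (k - 1) ∉ T.F) : T.cor v k ∈ T.F := by
  rcases Bool.eq_false_or_eq_true (T.isEnd v) with hv | hv
  · obtain ⟨-, -, b3, b4⟩ := hN.end0 v hv
    have c1 : k ≠ T.one v := by
      rintro rfl
      exact h0 (D_FlZ_end hv)
    have c2 := D_FlZ_fin2 k (T.one v) c1
    rcases c2 with c2 | c2 | c2
    · rw [c2]; exact b3
    · rw [c2]; exact b4
    · rw [c2] at ho
      exact absurd b4 ho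
  · rcases hN.inn v k hv with h5 | h5
    · exact h5
    · exact absurd h5 ho

private theorem D_FlZ_ne (hT : T.Of w) (v : Fin c) (k : Fin 4) : T.cor v (k - 1) ≠ T.cor v k := by
  obtain ⟨S, -, -, h3, h4⟩ := exists_sgn hT
  intro h
  have h5 := h4 v k
  rw [h] at h5
  rcases h3 (T.cor v k) with h6 | h6 <;> rw [h6] at h5 <;> exact absurd h5 (by decide)

/-- Rearrangement of the face parts. -/
private theorem D_FlZ_sum (hT : T.Of w) (hG : T.Good) (hN : T.Nice) (f0 : ℕ) (hf0 : f0 ∉ T.F)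
    (loc α β : Fin c → Fin 4 → ℂ) (pls : Fin c × Fin 4 → ℂ)
    (hpo : ∀ r : Fin c × Fin 4, T.cor r.1 r.2 ∉ T.F → pls r = 0)
    (hpi : ∀ r r' : Fin c × Fin 4, Mate T.leg r r' → T.cor r.1 r.2 ∈ T.F →
      pls r = α r.1 r.2 + β r'.1 (r'.2 - 1)) :
    (∑ v, ∑ k, if T.leg v k = 0 then 0 else
      (if T.cor v k = f0 then loc v k + pls (v, k) else 0) +
        (if T.cor v (k - 1) = f0 then loc v k + pls (v, k) else 0)) =
    ∑ v, ∑ k, if T.leg v k = 0 then 0 else
      (if T.cor v k = f0 then loc v k + β v (k - 1) else 0) +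
        (if T.cor v (k - 1) = f0 then loc v k + α v k else 0) := by
  classical
  choose m hm using hG.ex
  have hmm : Function.Involutive m := by
    intro r
    exact (hG.un (m r) r (m (m r)) (Mate.symm (hm r)) (hm (m r))).symm
  let M : Equiv.Perm (Fin c × Fin 4) := hmm.toPerm m
  have e1 : (∑ v, ∑ k, if T.leg v k = 0 then 0 else
      (if T.cor v k = f0 then loc v k + pls (v, k) else 0) +
        (if T.cor v (k - 1) = f0 then loc v k + pls (v, k) else 0)) =
      ∑ r : Fin c × Fin 4, ((if T.leg r.1 r.2 = 0 then 0 else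
        (if T.cor r.1 r.2 = f0 then loc r.1 r.2 else 0) +
        (if T.cor r.1 (r.2 - 1) = f0 then loc r.1 r.2 + α r.1 r.2 else 0)) +
        if T.leg r.1 r.2 = 0 then 0 else
          if T.cor r.1 (r.2 - 1) = f0 then β (m r).1 ((m r).2 - 1) else 0) := by
    rw [Fintype.sum_prod_type]
    refine Finset.sum_congr rfl fun v _ => Finset.sum_congr rfl fun k _ => ?_
    by_cases h0 : T.leg v k = 0
    · simp only [if_pos h0, add_zero]
    · simp only [if_neg h0]
      have a1 : (if T.cor v k = f0 then loc v k + pls (v, k) else 0) =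
          if T.cor v k = f0 then loc v k else 0 := by
        by_cases h1 : T.cor v k = f0
        · rw [if_pos h1, if_pos h1, hpo (v, k) (by rw [show T.cor (v, k).1 (v, k).2 = f0 from h1]; exact hf0),
            add_zero]
        · rw [if_neg h1, if_neg h1]
      have a2 : (if T.cor v (k - 1) = f0 then loc v k + pls (v, k) else 0) =
          (if T.cor v (k - 1) = f0 then loc v k + α v k else 0) +
            if T.cor v (k - 1) = f0 then β (m (v, k)).1 ((m (v, k)).2 - 1) else 0 := by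
        by_cases h1 : T.cor v (k - 1) = f0
        · have h2 : T.cor v k ∈ T.F := D_FlZ_in hN v k h0 (by rw [h1]; exact hf0)
          rw [if_pos h1, if_pos h1, if_pos h1, hpi (v, k) (m (v, k)) (hm (v, k)) h2]
          ring
        · rw [if_neg h1, if_neg h1, if_neg h1, add_zero]
      rw [a1, a2]
      ring
  have e2 : (∑ v, ∑ k, if T.leg v k = 0 then 0 else
      (if T.cor v k = f0 then loc v k + β v (k - 1) else 0) +
        (if T.cor v (k - 1) = f0 then loc v k + α v k else 0)) =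
      ∑ r : Fin c × Fin 4, ((if T.leg r.1 r.2 = 0 then 0 else
        (if T.cor r.1 r.2 = f0 then loc r.1 r.2 else 0) +
        (if T.cor r.1 (r.2 - 1) = f0 then loc r.1 r.2 + α r.1 r.2 else 0)) +
        if T.leg r.1 r.2 = 0 then 0 else
          if T.cor r.1 r.2 = f0 then β r.1 (r.2 - 1) else 0) := by
    rw [Fintype.sum_prod_type]
    refine Finset.sum_congr rfl fun v _ => Finset.sum_congr rfl fun k _ => ?_
    by_cases h0 : T.leg v k = 0
    · simp only [if_pos h0, add_zero]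
    · simp only [if_neg h0]
      by_cases h1 : T.cor v k = f0
      · simp only [if_pos h1]
        ring
      · simp only [if_neg h1]
        ring
  rw [e1, e2, Finset.sum_add_distrib, Finset.sum_add_distrib]
  congr 1
  rw [← Equiv.sum_comp M]
  refine Finset.sum_congr rfl fun r _ => ?_
  have b1 : M r = m r := rfl
  have b2 : m (m r) = r := hmm r
  have b3 : T.leg (m r).1 (m r).2 = T.leg r.1 r.2 := (hm r).2.symm
  have b4 : T.cor (m r).1 ((m r).2 - 1) = T.cor r.1 r.2 := adj_all hT hG hN (hm r)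
  rw [b1, b2, b3, b4]

private theorem D_FlZ_shift (i : Fin 4) (g : Fin 4 → ℂ) :
    ∑ k, g k = g i + g (i + 1) + g (i + 2) + g (i + 3) := by
  rw [← Equiv.sum_comp (Equiv.addLeft i), Fin.sum_univ_four]
  simp

/-- The local sum at a twist region which is not an end. -/
private theorem D_FlZ_mid (hT : T.Of w) (f0 : ℕ) (hf0 : f0 ∉ T.F)
    (loc α β : Fin c → Fin 4 → ℂ) (v : Fin c) (hv : T.isEnd v = false)
    (h : ∀ k, T.cor v k ∉ T.F → loc v k + β v (k - 1) + (loc v (k + 1) + α v (k + 1)) = 0) :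
    (∑ k, if T.leg v k = 0 then 0 else
      (if T.cor v k = f0 then loc v k + β v (k - 1) else 0) +
        (if T.cor v (k - 1) = f0 then loc v k + α v k else 0)) = 0 := by
  have h0 : ∀ k, T.leg v k ≠ 0 := by
    intro k hk
    rw [(D_FlZ_one hT hk).1] at hv
    exact absurd hv (by decide)
  simp only [h0, if_false]
  rw [Finset.sum_add_distrib]
  have e1 : (∑ k, if T.cor v (k - 1) = f0 then loc v k + α v k else 0) =
      ∑ k, if T.cor v k = f0 then loc v (k + 1) + α v (k + 1) else 0 := by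
    rw [← Equiv.sum_comp (Equiv.addRight (1 : Fin 4))]
    refine Finset.sum_congr rfl fun k _ => ?_
    simp
  rw [e1, ← Finset.sum_add_distrib]
  apply Finset.sum_eq_zero
  intro k _
  by_cases h1 : T.cor v k = f0
  · rw [if_pos h1, if_pos h1]
    exact h k (by rw [h1]; exact hf0)
  · rw [if_neg h1, if_neg h1, add_zero]

/-- The local sum at the end `q.1`. -/
private theorem D_FlZ_q (hT : T.Of w) (hN : T.Nice)
    (loc α β : Fin c → Fin 4 → ℂ) (v : Fin c) (i : Fin 4) (hv : T.leg v i = 0) :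
    (∑ k, if T.leg v k = 0 then 0 else
      (if T.cor v k = T.cor v i then loc v k + β v (k - 1) else 0) +
        (if T.cor v (k - 1) = T.cor v i then loc v k + α v k else 0)) =
      loc v (i + 1) + α v (i + 1) := by
  obtain ⟨he, hi⟩ := D_FlZ_one hT hv
  obtain ⟨b1, b2, b3, b4⟩ := hN.end0 v he
  rw [hi] at b1 b2 b3 b4
  have hne : ∀ k, k ≠ i → T.leg v k ≠ 0 := by
    intro k hk h0
    exact hk ((D_FlZ_one hT h0).2.symm.trans hi)
  obtain ⟨n1, n2, n3, s1, s2, s3, s4⟩ := D_FlZ_fin i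
  have c1 : T.cor v (i + 1) ≠ T.cor v i := fun h => b1 (h ▸ b3)
  have c2 : T.cor v (i + 2) ≠ T.cor v i := fun h => b1 (h ▸ b4)
  have c3 : T.cor v (i + 3) ≠ T.cor v i := by
    rw [s4]
    exact D_FlZ_ne hT v i
  rw [D_FlZ_shift i, if_pos hv, if_neg (hne _ n1), if_neg (hne _ n2), if_neg (hne _ n3), s1, s2, s3]
  simp only [if_neg c1, if_neg c2, if_neg c3, if_true]
  ring

/-- The local sum at the end `p.1`. -/
private theorem D_FlZ_p (hT : T.Of w) (hN : T.Nice)
    (loc α β : Fin c → Fin 4 → ℂ) (v : Fin c) (i : Fin 4) (hv : T.leg v i = 0) :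
    (∑ k, if T.leg v k = 0 then 0 else
      (if T.cor v k = T.cor v (i - 1) then loc v k + β v (k - 1) else 0) +
        (if T.cor v (k - 1) = T.cor v (i - 1) then loc v k + α v k else 0)) =
      loc v (i + 3) + β v (i + 2) := by
  obtain ⟨he, hi⟩ := D_FlZ_one hT hv
  obtain ⟨b1, b2, b3, b4⟩ := hN.end0 v he
  rw [hi] at b1 b2 b3 b4
  have hne : ∀ k, k ≠ i → T.leg v k ≠ 0 := by
    intro k hk h0
    exact hk ((D_FlZ_one hT h0).2.symm.trans hi)
  obtain ⟨n1, n2, n3, s1, s2, s3, s4'⟩ := D_FlZ_fin i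
  have s4 := s4'.symm
  have c0 : T.cor v i ≠ T.cor v (i + 3) := by
    rw [← s4]
    exact (D_FlZ_ne hT v i).symm
  rw [s4] at b2 ⊢
  have c1 : T.cor v (i + 1) ≠ T.cor v (i + 3) := fun h => b2 (h ▸ b3)
  have c2 : T.cor v (i + 2) ≠ T.cor v (i + 3) := fun h => b2 (h ▸ b4)
  rw [D_FlZ_shift i, if_pos hv, if_neg (hne _ n1), if_neg (hne _ n2), if_neg (hne _ n3), s1, s2, s3]
  simp only [if_neg c0, if_neg c1, if_neg c2, if_true]
  ring

/-! ### The values at the ends -/

private noncomputable def D_FlZ_Hp (T : TData c) (a : Fin c → ℤ) (N : ℕ → Bool) (τ z : Fin c → ℂ)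
    (v : Fin c) : ℂ :=
  hh (1 / 2 - (1 - τ v) + T.zf z v) + Real.pi * I * gpB (T.tv v) (a v) (T.Nj N v)

private noncomputable def D_FlZ_Hm (T : TData c) (a : Fin c → ℤ) (N : ℕ → Bool) (τ z : Fin c → ℂ)
    (v : Fin c) : ℂ :=
  hh (1 / 2 - (1 - τ v) - T.zf z v) + Real.pi * I * gmB (T.tv v) (a v) (T.Nj N v)

private noncomputable def D_FlZ_Ha (T : TData c) (a : Fin c → ℤ) (N : ℕ → Bool) (z : Fin c → ℂ)
    (v : Fin c) : ℂ :=
  hh (1 / 2 + T.zf z v) + Real.pi * I * ((1 - T.mv a N v) / 2)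

private noncomputable def D_FlZ_z (T : TData c) (a : Fin c → ℤ) (N : ℕ → Bool) (z : Fin c → ℂ)
    (v : Fin c) : ℂ := T.zf z v + T.mv a N v / 2

private theorem D_FlZ_0 (s : ℂ) (v : Fin c) (i : Fin 3) :
    T.flv a N X τ z σ s v 0 i = fl ![1 / 2 - T.zf z v, 1 - τ v, 1 / 2 - (1 - τ v) + T.zf z v]
      ![1 / 2 - -(T.mv a N v / 2), xk X v, 1 / 2 - xk X v + -(T.mv a N v / 2)]
      ![(1 - T.mv a N v) / 2, 0, gpB (T.tv v) (a v) (T.Nj N v)] s i := by
  unfold TData.flv
  rw [if_neg (fun h => absurd h.2 (by decide))]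
  rfl

private theorem D_FlZ_3 (s : ℂ) (v : Fin c) (i : Fin 3) :
    T.flv a N X τ z σ s v 3 i = fl ![1 / 2 + T.zf z v, 1 - τ v, 1 / 2 - (1 - τ v) - T.zf z v]
      ![1 / 2 + -(T.mv a N v / 2), xk X v, 1 / 2 - xk X v - -(T.mv a N v / 2)]
      ![(1 - T.mv a N v) / 2, 0, gmB (T.tv v) (a v) (T.Nj N v)] s i := by
  unfold TData.flv
  rw [if_neg (fun h => absurd h.2 (by decide))]
  rfl

private theorem D_FlZ_12 (s : ℂ) (v : Fin c) (hv : T.isEnd v = true) :
    T.flv a N X τ z σ s v 1 = 0 ∧ T.flv a N X τ z σ s v 2 = 0 := by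
  unfold TData.flv
  constructor
  · rw [if_pos ⟨hv, Or.inl rfl⟩]
  · rw [if_pos ⟨hv, Or.inr rfl⟩]

private theorem D_FlZ_chd0 (s : ℂ) (v : Fin c) (hv : T.isEnd v = true) :
    chd (T.flv a N X τ z σ s v) 0 = Real.pi * I * (1 - τ v - xk X v) +
      s * (D_FlZ_Hp T a N τ z v - D_FlZ_Ha T a N z v) := by
  have e : chd (T.flv a N X τ z σ s v) 0 =
    T.flv a N X τ z σ s v 0 1 + T.flv a N X τ z σ s v 1 2 := rfl
  rw [e, (D_FlZ_12 s v hv).1, D_FlZ_0]
  change Real.pi * I * (1 - τ v - xk X v) + s * ((hh (1 / 2 - (1 - τ v) + T.zf z v) +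
    Real.pi * I * gpB (T.tv v) (a v) (T.Nj N v)) - (hh (1 / 2 - T.zf z v) +
    Real.pi * I * ((1 - T.mv a N v) / 2))) + (0 : Fin 3 → ℂ) 2 = _
  rw [D_FlZ_half']
  unfold D_FlZ_Hp D_FlZ_Ha
  simp only [Pi.zero_apply, add_zero]

private theorem D_FlZ_chd3 (s : ℂ) (v : Fin c) (hv : T.isEnd v = true) :
    chd (T.flv a N X τ z σ s v) 3 =
      -(Real.pi * I * (1 - τ v - xk X v + D_FlZ_z T a N z v)) +
      s * (D_FlZ_Ha T a N z v - hh (1 - τ v)) := by
  have e : chd (T.flv a N X τ z σ s v) 3 =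
    T.flv a N X τ z σ s v 3 2 + T.flv a N X τ z σ s v 2 1 := rfl
  rw [e, (D_FlZ_12 s v hv).2, D_FlZ_3]
  change Real.pi * I * (1 / 2 - (1 - τ v) - T.zf z v -
    (1 / 2 - xk X v - -(T.mv a N v / 2))) + s * ((hh (1 / 2 + T.zf z v) +
    Real.pi * I * ((1 - T.mv a N v) / 2)) - (hh (1 - τ v) + Real.pi * I * 0)) +
    (0 : Fin 3 → ℂ) 1 = _
  unfold D_FlZ_z D_FlZ_Ha
  simp only [Pi.zero_apply, add_zero]
  ring

private theorem D_FlZ_spk0 (s : ℂ) (v : Fin c) :
    spk (T.flv a N X τ z σ s v) 0 = Real.pi * I * D_FlZ_z T a N z v +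
      s * (D_FlZ_Hm T a N τ z v - hh (1 - τ v)) := by
  have e : spk (T.flv a N X τ z σ s v) 0 =
    T.flv a N X τ z σ s v 0 2 + T.flv a N X τ z σ s v 3 1 := rfl
  rw [e, D_FlZ_3, D_FlZ_0]
  change Real.pi * I * (1 / 2 - (1 - τ v) + T.zf z v -
    (1 / 2 - xk X v + -(T.mv a N v / 2))) + s * ((hh (1 / 2 - T.zf z v) +
    Real.pi * I * ((1 - T.mv a N v) / 2)) - (hh (1 - τ v) + Real.pi * I * 0)) +
    (Real.pi * I * (1 - τ v - xk X v) + s * ((hh (1 / 2 - (1 - τ v) - T.zf z v) +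
    Real.pi * I * gmB (T.tv v) (a v) (T.Nj N v)) - (hh (1 / 2 + T.zf z v) +
    Real.pi * I * ((1 - T.mv a N v) / 2)))) = _
  rw [D_FlZ_half']
  unfold D_FlZ_z D_FlZ_Hm
  ring

private theorem D_FlZ_lga1 (i m j : Fin 4) : (lga i j = lga i m) = (j = m) := by
  unfold lga
  revert i m j
  decide

/-- The part of a twist region. -/
private def D_FlZ_loc (T : TData c) (x : Fin c → Fin 4 → Fin 3 → ℂ) (v : Fin c) (k : Fin 4) : ℂ :=
  ∑ j, if lga (T.one v) j = k then ver (T.isEnd v) (x v) j else 0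

private theorem D_FlZ_loc1 (x : Fin c → Fin 4 → Fin 3 → ℂ) (v : Fin c) (hv : T.isEnd v = true) :
    D_FlZ_loc T x v (lga (T.one v) 1) = chd (x v) 0 := by
  unfold D_FlZ_loc
  simp only [D_FlZ_lga1, Finset.sum_ite_eq', Finset.mem_univ, if_true, hv]
  rfl

private theorem D_FlZ_loc3 (x : Fin c → Fin 4 → Fin 3 → ℂ) (v : Fin c) (hv : T.isEnd v = true) :
    D_FlZ_loc T x v (lga (T.one v) 3) = chd (x v) 3 := by
  unfold D_FlZ_loc
  simp only [D_FlZ_lga1, Finset.sum_ite_eq', Finset.mem_univ, if_true, hv]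
  rfl

private theorem D_FlZ_up (x : Fin c → Fin 4 → Fin 3 → ℂ) (y : ℕ → ℕ → Fin 3 → ℂ)
    (p : Fin c × Fin 4) : T.up x y p = D_FlZ_loc T x p.1 p.2 + T.pls y p := rfl

/-- The facts at an end. -/
private theorem D_FlZ_facts (hN : T.Nice) (hX : T.Match X) (hc : CritT T a τ z σ A B)
    (v : Fin c) (hv : T.isEnd v = true) :
    ((T.one v = 1 ∨ T.one v = 3) ∧ T.eps v = 1 ∧ σ v (T.one v + 1) = 1 - τ v ∧
      σ v (T.one v + 2) = τ v ∧ xs X v (T.one v + 1) = 0 ∧ xs X v (T.one v + 2) = 1 ∧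
      xk X v = 0 ∧ T.xi N v (T.one v + 1) = xib (T.Nj N v 1) (T.Nj N v 2) ∧
      T.xi N v (T.one v + 2) = xib (T.Nj N v 2) (T.Nj N v 3) ∧
      hh (τ v - 1 / 2 - z v) + hh (τ v - 1 / 2 + z v) - 2 * hh (τ v) +
        A (T.cor v (T.one v + 1)) - A (T.cor v (T.one v + 2)) = 0 ∧
      lga (T.one v) 1 = T.one v + 1 ∧ lga (T.one v) 3 = T.one v + 3) ∨
    ((T.one v = 0 ∨ T.one v = 2) ∧ T.eps v = -1 ∧ σ v (T.one v + 1) = τ v ∧
      σ v (T.one v + 2) = 1 - τ v ∧ xs X v (T.one v + 1) = 1 ∧ xs X v (T.one v + 2) = 0 ∧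
      xk X v = 0 ∧ T.xi N v (T.one v + 1) = xib (T.Nj N v 2) (T.Nj N v 3) ∧
      T.xi N v (T.one v + 2) = xib (T.Nj N v 1) (T.Nj N v 2) ∧
      hh (τ v - 1 / 2 - z v) + hh (τ v - 1 / 2 + z v) - 2 * hh (τ v) -
        A (T.cor v (T.one v + 1)) + A (T.cor v (T.one v + 2)) = 0 ∧
      lga (T.one v) 1 = T.one v + 3 ∧ lga (T.one v) 3 = T.one v + 1) := by
  obtain ⟨b1, b2, b3, b4⟩ := hN.end0 v hv
  have h1 := hc.fin v _ b3 hv
  have h2 := hc.fin v _ b4 hv
  have h3 := hc.tau0 v hv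
  rw [Fin.sum_univ_four] at h3
  have h4 := hX.side v hv
  have h5 := hX.mem v
  have h6 : xk X v = 0 := by
    unfold xk
    rw [if_neg]
    rcases h4 with h4 | h4 <;> rw [h4] <;> decide
  have h7 : ∀ j, T.Nj N v j = N (T.leg v (lga (T.one v) j)) := fun j => rfl
  have h8 : ∀ k, T.xi N v k = xib (N (T.leg v k)) (N (T.leg v (k + 1))) := fun k => rfl
  have h9 : T.eps v = if T.one v = 1 ∨ T.one v = 3 then 1 else -1 := rfl
  rw [h9, h6]
  simp only [h7, h8]
  have h10 : ∀ k, xs X v k = if k = X v then 1 else 0 := fun k => rfl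
  simp only [h10]
  generalize hi : T.one v = i at b1 b2 b3 b4 h1 h2 ⊢
  match i with
  | 0 =>
    right
    change T.cor v 0 ∉ T.F at b1
    change T.cor v 3 ∉ T.F at b2
    change T.cor v 1 ∈ T.F at b3
    change T.cor v 2 ∈ T.F at b4
    have hx : X v = 1 := by
      rcases h4 with h4 | h4
      · exact h4
      · rw [h4] at h5
        exact absurd h5 b2
    rw [if_neg b1, if_pos b3, if_pos b4, if_neg b2, if_neg (by decide), if_pos (by decide)] at h3
    rw [hx]
    refine ⟨Or.inl rfl, if_neg (by decide), h1, h2, if_pos rfl, if_neg (by decide), trivial,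
      D_FlZ_xib _ _, D_FlZ_xib _ _, ?_, rfl, rfl⟩
    change _ - A (T.cor v 1) + A (T.cor v 2) = 0
    linear_combination h3
  | 1 =>
    left
    change T.cor v 1 ∉ T.F at b1
    change T.cor v 0 ∉ T.F at b2
    change T.cor v 2 ∈ T.F at b3
    change T.cor v 3 ∈ T.F at b4
    have hx : X v = 3 := by
      rcases h4 with h4 | h4
      · rw [h4] at h5
        exact absurd h5 b1
      · exact h4
    rw [if_neg b2, if_neg b1, if_pos b3, if_pos b4, if_pos (by decide), if_neg (by decide)] at h3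
    rw [hx]
    refine ⟨Or.inl rfl, if_pos (by decide), h1, h2, if_neg (by decide), if_pos rfl, trivial,
      rfl, rfl, ?_, rfl, rfl⟩
    change _ + A (T.cor v 2) - A (T.cor v 3) = 0
    linear_combination h3
  | 2 =>
    right
    change T.cor v 2 ∉ T.F at b1
    change T.cor v 1 ∉ T.F at b2
    change T.cor v 3 ∈ T.F at b3
    change T.cor v 0 ∈ T.F at b4
    have hx : X v = 3 := by
      rcases h4 with h4 | h4
      · rw [h4] at h5
        exact absurd h5 b2
      · exact h4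
    rw [if_pos b4, if_neg b2, if_neg b1, if_pos b3, if_pos (by decide), if_neg (by decide)] at h3
    rw [hx]
    refine ⟨Or.inr rfl, if_neg (by decide), h1, h2, if_pos rfl, if_neg (by decide), trivial,
      D_FlZ_xib _ _, D_FlZ_xib _ _, ?_, rfl, rfl⟩
    change _ - A (T.cor v 3) + A (T.cor v 0) = 0
    linear_combination h3
  | 3 =>
    left
    change T.cor v 3 ∉ T.F at b1
    change T.cor v 2 ∉ T.F at b2
    change T.cor v 0 ∈ T.F at b3
    change T.cor v 1 ∈ T.F at b4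
    have hx : X v = 1 := by
      rcases h4 with h4 | h4
      · exact h4
      · rw [h4] at h5
        exact absurd h5 b1
    rw [if_pos b3, if_pos b4, if_neg b2, if_neg b1, if_pos (by decide), if_neg (by decide)] at h3
    rw [hx]
    refine ⟨Or.inr rfl, if_pos (by decide), h1, h2, if_neg (by decide), if_pos rfl, trivial,
      rfl, rfl, ?_, rfl, rfl⟩
    change _ + A (T.cor v 0) - A (T.cor v 1) = 0
    linear_combination h3

private noncomputable def D_FlZ_al (T : TData c) (N : ℕ → Bool) (X : Fin c → Fin 4)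
    (σ : Fin c → Fin 4 → ℂ) (A : ℕ → ℂ) (e : ℂ) (v : Fin c) (k : Fin 4) : ℂ :=
  -(e * (Real.pi * I * (σ v k - xs X v k))) - (hh (σ v k) + Real.pi * I * T.xi N v k) +
    A (T.cor v k)

private noncomputable def D_FlZ_be (T : TData c) (N : ℕ → Bool) (X : Fin c → Fin 4)
    (σ : Fin c → Fin 4 → ℂ) (A : ℕ → ℂ) (e : ℂ) (v : Fin c) (k : Fin 4) : ℂ :=
  -(e * (Real.pi * I * (σ v k - xs X v k))) + (hh (σ v k) + Real.pi * I * T.xi N v k) -
    A (T.cor v k)

/-- The number which agrees at both ends of the strand `0`. -/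
private noncomputable def D_FlZ_W (T : TData c) (z : Fin c → ℂ) (A : ℕ → ℂ) (v : Fin c) : ℂ :=
  2 * hh (1 / 2 + z v) -
    A (T.cor v (if T.one v = 0 ∨ T.one v = 2 then T.one v + 1 else T.one v + 2))

private theorem D_FlZ_Weq (hT : T.Of w) (hG : T.Good) (hN : T.Nice) (hF : T.F.card = c)
    (hX : T.Match X) (hc : CritT T a τ z σ A B) (hR : Reg T τ z σ) {η : ℝ} (hη : η ≤ 1 / 10)
    (hη' : 8 * c * η ≤ 1) (hs : SReg T η τ z σ) (p q : Fin c × Fin 4)
    (h : Mate T.leg p q) (h0 : T.leg p.1 p.2 = 0) :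
    D_FlZ_W T z A p.1 = D_FlZ_W T z A q.1 := by
  obtain ⟨hpe, hp1⟩ := D_FlZ_one hT h0
  obtain ⟨hqe, hq1⟩ := D_FlZ_one hT (h.2.symm.trans h0)
  have key : ∀ v, T.isEnd v = true → T.cor v (if T.one v = 0 ∨ T.one v = 2 then T.one v + 1
      else T.one v + 2) ∈ T.F ∧ exp (D_FlZ_W T z A v) = 4 * (sin (Real.pi * τ v) ^ 2 *
      (exp (-A (T.cor v (T.one v + 1))) + exp (-A (T.cor v (T.one v + 2))))) := by
    intro v hv
    obtain ⟨-, -, b3, b4⟩ := hN.end0 v hv
    unfold D_FlZ_W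
    by_cases hi : T.one v = 0 ∨ T.one v = 2
    · rw [if_pos hi]
      exact ⟨b3, end_log hN hc hR hs v hv _ (Or.inl ⟨hi, rfl⟩)⟩
    · rw [if_neg hi]
      have hi' : T.one v = 1 ∨ T.one v = 3 := by
        clear b3 b4 hpe hp1 hqe hq1
        generalize T.one v = i at hi ⊢
        revert hi
        revert i
        decide
      exact ⟨b4, end_log hN hc hR hs v hv _ (Or.inr ⟨hi', rfl⟩)⟩
  obtain ⟨kp1, kp2⟩ := key p.1 hpe
  obtain ⟨kq1, kq2⟩ := key q.1 hqe
  apply D_FlZ_exp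
  · rw [kp2, kq2, hp1, hq1, trans_id hT hG hN hF hc hR hX p q h h0]
  · have c1 := chain_small hT hG hN hF hc hX hs _ _ kp1 kq1
    have c2 := hs.alp p.1
    have c3 := hs.alp q.1
    unfold D_FlZ_W
    generalize A (T.cor p.1 (if T.one p.1 = 0 ∨ T.one p.1 = 2 then T.one p.1 + 1
      else T.one p.1 + 2)) = a1 at c1 ⊢
    generalize A (T.cor q.1 (if T.one q.1 = 0 ∨ T.one q.1 = 2 then T.one q.1 + 1
      else T.one q.1 + 2)) = a2 at c1 ⊢
    generalize hh (1 / 2 + z p.1) = x1 at c2 ⊢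
    generalize hh (1 / 2 + z q.1) = x2 at c3 ⊢
    have e1 : (2 * x1 - a1 - (2 * x2 - a2)).im = 2 * x1.im - 2 * x2.im - (a1 - a2).im := by
      simp only [Complex.sub_im, Complex.mul_im, Complex.re_ofNat, Complex.im_ofNat, zero_mul,
        add_zero]
      ring
    rw [e1]
    rw [abs_lt] at c2 c3 ⊢
    rw [abs_le] at c1
    have hpi := Real.pi_gt_three
    constructor <;> linarith [c1.1, c1.2, c2.1, c2.2, c3.1, c3.2]

private theorem D_FlZ_main (hT : T.Of w) (hG : T.Good) (hN : T.Nice) (hF : T.F.card = c)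
    (hX : T.Match X) (hc : CritT T a τ z σ A B) (hR : Reg T τ z σ) {η : ℝ} (hη : η ≤ 1 / 10)
    (hη' : 8 * c * η ≤ 1) (hs : SReg T η τ z σ) (hn : NOk T a N) (p q : Fin c × Fin 4)
    (h : Mate T.leg p q) (h0 : T.leg p.1 p.2 = 0) (s : Bool) (e : ℂ)
    (he : e = if s = true then 1 else -1)
    (loc : Fin c → Fin 4 → ℂ) (pls : Fin c × Fin 4 → ℂ) (Sp Sq : ℂ)
    (hloc : ∀ v k, T.isEnd v = false → loc v k = -(e * (Real.pi * I *
      (csr (τ v) (k - 1) - σ v (k - 1) - (csr (1 - xk X v) (k - 1) - xs X v (k - 1)) +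
        (csr (τ v) k - σ v k - (csr (1 - xk X v) k - xs X v k))))) +
      ((hh (csr (τ v) k - σ v k) + Real.pi * I * T.xi N v k) -
        (hh (csr (τ v) (k - 1) - σ v (k - 1)) + Real.pi * I * T.xi N v (k - 1))))
    (h1 : ∀ v, T.isEnd v = true → loc v (lga (T.one v) 1) =
      e * (Real.pi * I * (1 - τ v - xk X v)) +
        T.eps v * (D_FlZ_Hp T a N τ z v - D_FlZ_Ha T a N z v))
    (h3 : ∀ v, T.isEnd v = true → loc v (lga (T.one v) 3) =
      -(e * (Real.pi * I * (1 - τ v - xk X v + D_FlZ_z T a N z v))) +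
        T.eps v * (D_FlZ_Ha T a N z v - hh (1 - τ v)))
    (hSp : Sp = if p.2 = 0 ∨ p.2 = 2 then e * (Real.pi * I * D_FlZ_z T a N z p.1) +
      T.eps p.1 * (D_FlZ_Hm T a N τ z p.1 - hh (1 - τ p.1)) else 0)
    (hSq : Sq = if q.2 = 1 ∨ q.2 = 3 then e * (Real.pi * I * D_FlZ_z T a N z q.1) +
      T.eps q.1 * (D_FlZ_Hm T a N τ z q.1 - hh (1 - τ q.1)) else 0)
    (hpo : ∀ r : Fin c × Fin 4, T.cor r.1 r.2 ∉ T.F → pls r = 0)
    (hpi : ∀ r r' : Fin c × Fin 4, Mate T.leg r r' → T.cor r.1 r.2 ∈ T.F →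
      pls r = e * (Real.pi * I * (-(σ r'.1 (r'.2 - 1) - xs X r'.1 (r'.2 - 1)) -
        (σ r.1 r.2 - xs X r.1 r.2))) +
      ((hh (σ r'.1 (r'.2 - 1)) + Real.pi * I * T.xi N r'.1 (r'.2 - 1)) -
        (hh (σ r.1 r.2) + Real.pi * I * T.xi N r.1 r.2))) :
    Sp + Sq + (∑ v, ∑ k, if T.leg v k = 0 then 0 else
      (if T.cor v k = T.cor q.1 q.2 then loc v k + pls (v, k) else 0) +
        (if T.cor v (k - 1) = T.cor q.1 q.2 then loc v k + pls (v, k) else 0)) =
      T.gpot a N z s q.1 q.2 - T.gpot a N z s p.1 p.2 := by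
  obtain ⟨hpe, hp1⟩ := D_FlZ_one hT h0
  obtain ⟨hqe, hq1⟩ := D_FlZ_one hT (h.2.symm.trans h0)
  have hq0 : T.leg q.1 q.2 = 0 := h.2.symm.trans h0
  have hpq : p.1 ≠ q.1 := by
    intro hh
    apply h.1
    refine Prod.ext hh ?_
    rw [← hp1, ← hq1, hh]
  have hf0 : T.cor q.1 q.2 ∉ T.F := (hG.zero q.1 q.2 hq0).1
  have hpf : T.cor p.1 (p.2 - 1) = T.cor q.1 q.2 := adj_all hT hG hN (Mate.symm h)
  have W := D_FlZ_Weq hT hG hN hF hX hc hR hη hη' hs p q h h0
  rw [D_FlZ_sum hT hG hN (T.cor q.1 q.2) hf0 loc (D_FlZ_al T N X σ A e) (D_FlZ_be T N X σ A e)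
    pls hpo (fun r r' hr hrF => by
      rw [hpi r r' hr hrF]
      have := (adj hT hG hr).1 hrF
      unfold D_FlZ_al D_FlZ_be
      rw [this]
      ring)]
  -- only the two ends contribute
  have hsum : (∑ v, ∑ k, if T.leg v k = 0 then 0 else
      (if T.cor v k = T.cor q.1 q.2 then loc v k + D_FlZ_be T N X σ A e v (k - 1) else 0) +
        (if T.cor v (k - 1) = T.cor q.1 q.2 then loc v k + D_FlZ_al T N X σ A e v k else 0)) =
      (loc p.1 (p.2 + 3) + D_FlZ_be T N X σ A e p.1 (p.2 + 2)) +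
        (loc q.1 (q.2 + 1) + D_FlZ_al T N X σ A e q.1 (q.2 + 1)) := by
    rw [← D_FlZ_q hT hN loc (D_FlZ_al T N X σ A e) (D_FlZ_be T N X σ A e) q.1 q.2 hq0,
      ← D_FlZ_p hT hN loc (D_FlZ_al T N X σ A e) (D_FlZ_be T N X σ A e) p.1 p.2 h0, hpf]
    rw [← Finset.sum_pair hpq (f := fun v => ∑ k, if T.leg v k = 0 then 0 else
      (if T.cor v k = T.cor q.1 q.2 then loc v k + D_FlZ_be T N X σ A e v (k - 1) else 0) +
        (if T.cor v (k - 1) = T.cor q.1 q.2 then loc v k + D_FlZ_al T N X σ A e v k else 0))]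
    symm
    apply Finset.sum_subset (Finset.subset_univ _)
    intro v _ hv
    rw [Finset.mem_insert, Finset.mem_singleton, not_or] at hv
    have hve : T.isEnd v = false := by
      rcases Bool.eq_false_or_eq_true (T.isEnd v) with h5 | h5
      · exfalso
        have h6 := D_FlZ_end h5
        by_cases h7 : p = (v, T.one v)
        · exact hv.1 (by rw [h7])
        · have h8 : Mate T.leg p (v, T.one v) := ⟨h7, h0.trans h6.symm⟩
          have h9 := hG.un p q _ h h8
          exact hv.2 (by rw [h9])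
      · exact h5
    apply D_FlZ_mid hT _ hf0 _ _ _ v hve
    intro k hk
    have i1 : T.cor v (k - 1) ∈ T.F := (hN.inn v k hve).resolve_left hk
    have i2 : T.cor v (k + 1) ∈ T.F := by
      have := hN.inn v (k + 1) hve
      rw [add_sub_cancel_right] at this
      exact this.resolve_right hk
    have s1 := hc.sig v (k - 1) i1 hve
    have s2 := hc.sig v (k + 1) i2 hve
    have s3 := hc.out v k hk
    have s4 : xs X v k = 0 := by
      unfold xs
      rw [if_neg]
      intro hkx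
      rw [hkx] at hk
      exact hk (hX.mem v)
    have c1 := D_FlZ_csr (τ v) k
    have c2 := D_FlZ_csr' (τ v) k
    have c3 := D_FlZ_csr (1 - xk X v) k
    have c4 := D_FlZ_csr' (1 - xk X v) k
    rw [hloc v k hve, hloc v (k + 1) hve, add_sub_cancel_right]
    unfold D_FlZ_al D_FlZ_be
    rw [s3, s4]
    linear_combination s2 - s1 + (-(e * (Real.pi * I))) * (c1 + c2 - c3 - c4)
  rw [hsum, hSp, hSq]
  have hbp : T.Nj N p.1 0 = false := by
    have : T.Nj N p.1 0 = N (T.leg p.1 (lga (T.one p.1) 0)) := rfl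
    rw [this]
    have h5 : lga (T.one p.1) 0 = T.one p.1 := by
      unfold lga
      split_ifs <;> simp
    rw [h5, D_FlZ_end hpe, hn.zero]
  have hbq : T.Nj N q.1 0 = false := by
    have : T.Nj N q.1 0 = N (T.leg q.1 (lga (T.one q.1) 0)) := rfl
    rw [this]
    have h5 : lga (T.one q.1) 0 = T.one q.1 := by
      unfold lga
      split_ifs <;> simp
    rw [h5, D_FlZ_end hqe, hn.zero]
  have I1p := D_FlZ_I1 (T.tv p.1) (a p.1) (T.Nj N p.1) hbp (nj_even hn p.1) (nj_odd hn p.1)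
  have I2p := D_FlZ_I2 (a p.1) (T.Nj N p.1) hbp (nj_even hn p.1) (nj_odd hn p.1)
  have I1q := D_FlZ_I1 (T.tv q.1) (a q.1) (T.Nj N q.1) hbq (nj_even hn q.1) (nj_odd hn q.1)
  have I2q := D_FlZ_I2 (a q.1) (T.Nj N q.1) hbq (nj_even hn q.1) (nj_odd hn q.1)
  have hlg : ∀ i : Fin 4, lgi i i = 0 := by
    intro i
    unfold lgi
    split_ifs <;> simp
  have gq : T.gpot a N z s q.1 q.2 = e * T.eps q.1 * (Real.pi * I * D_FlZ_z T a N z q.1) +
      hh (1 / 2 + z q.1) + Real.pi * I * laB (a q.1) (T.Nj N q.1) 0 := by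
    unfold TData.gpot D_FlZ_z
    rw [hq1, hlg, if_pos (Or.inl rfl), D_FlZ_half, he]
    ring
  have gp : T.gpot a N z s p.1 p.2 = e * T.eps p.1 * (Real.pi * I * D_FlZ_z T a N z p.1) +
      hh (1 / 2 + z p.1) + Real.pi * I * laB (a p.1) (T.Nj N p.1) 0 := by
    unfold TData.gpot D_FlZ_z
    rw [hp1, hlg, if_pos (Or.inl rfl), D_FlZ_half, he]
    ring
  have pmp := D_FlZ_pm (T := T) (τ := τ) (z := z) p.1
  have pmq := D_FlZ_pm (T := T) (τ := τ) (z := z) q.1
  -- the end `q`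
  have Dq : (if q.2 = 1 ∨ q.2 = 3 then e * (Real.pi * I * D_FlZ_z T a N z q.1) +
      T.eps q.1 * (D_FlZ_Hm T a N τ z q.1 - hh (1 - τ q.1)) else 0) +
      (loc q.1 (q.2 + 1) + D_FlZ_al T N X σ A e q.1 (q.2 + 1)) =
      T.gpot a N z s q.1 q.2 - D_FlZ_W T z A q.1 := by
    rcases D_FlZ_facts hN hX hc q.1 hqe with
      ⟨x0, x1, x2, x3, x4, x5, x6, x7, x8, x9, x10, x11⟩ |
      ⟨x0, x1, x2, x3, x4, x5, x6, x7, x8, x9, x10, x11⟩
    · have y1 := h1 q.1 hqe
      have hno : ¬ (T.one q.1 = 0 ∨ T.one q.1 = 2) := by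
        rcases x0 with x0 | x0 <;> rw [x0] <;> decide
      rw [x10] at y1
      unfold D_FlZ_W
      rw [if_neg hno, gq]
      rw [← hq1, if_pos x0, y1]
      unfold D_FlZ_al
      rw [x2, x4, x6, x1, x7]
      have hk := hh_one_sub (τ q.1)
      have hm : T.mv a N q.1 = mB (a q.1) (T.Nj N q.1) := rfl
      unfold D_FlZ_Hp D_FlZ_Hm D_FlZ_Ha
      rw [D_FlZ_half, hm, hk]
      linear_combination pmq + x9 + Real.pi * I * I1q
    · have y1 := h3 q.1 hqe
      have hno : ¬ (T.one q.1 = 1 ∨ T.one q.1 = 3) := by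
        rcases x0 with x0 | x0 <;> rw [x0] <;> decide
      rw [x11] at y1
      unfold D_FlZ_W
      rw [if_pos x0, gq]
      rw [← hq1, if_neg hno, y1]
      unfold D_FlZ_al
      rw [x2, x4, x6, x1, x7]
      have hk := hh_one_sub (τ q.1)
      have hm : T.mv a N q.1 = mB (a q.1) (T.Nj N q.1) := rfl
      unfold D_FlZ_Ha
      rw [D_FlZ_half, hm, hk]
      linear_combination (-(Real.pi * I)) * I2q
  have Dp : (if p.2 = 0 ∨ p.2 = 2 then e * (Real.pi * I * D_FlZ_z T a N z p.1) +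
      T.eps p.1 * (D_FlZ_Hm T a N τ z p.1 - hh (1 - τ p.1)) else 0) +
      (loc p.1 (p.2 + 3) + D_FlZ_be T N X σ A e p.1 (p.2 + 2)) =
      -T.gpot a N z s p.1 p.2 + D_FlZ_W T z A p.1 := by
    rcases D_FlZ_facts hN hX hc p.1 hpe with
      ⟨x0, x1, x2, x3, x4, x5, x6, x7, x8, x9, x10, x11⟩ |
      ⟨x0, x1, x2, x3, x4, x5, x6, x7, x8, x9, x10, x11⟩
    · have y1 := h3 p.1 hpe
      have hno : ¬ (T.one p.1 = 0 ∨ T.one p.1 = 2) := by
        rcases x0 with x0 | x0 <;> rw [x0] <;> decide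
      rw [x11] at y1
      unfold D_FlZ_W
      rw [if_neg hno, gp]
      rw [← hp1, if_neg hno, y1]
      unfold D_FlZ_be
      rw [x3, x5, x6, x1, x8]
      have hk := hh_one_sub (τ p.1)
      have hm : T.mv a N p.1 = mB (a p.1) (T.Nj N p.1) := rfl
      unfold D_FlZ_Ha
      rw [D_FlZ_half, hm, hk]
      linear_combination (Real.pi * I) * I2p
    · have y1 := h1 p.1 hpe
      have hno : ¬ (T.one p.1 = 1 ∨ T.one p.1 = 3) := by
        rcases x0 with x0 | x0 <;> rw [x0] <;> decide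
      rw [x10] at y1
      unfold D_FlZ_W
      rw [if_pos x0, gp]
      rw [← hp1, if_pos x0, y1]
      unfold D_FlZ_be
      rw [x3, x5, x6, x1, x8]
      have hk := hh_one_sub (τ p.1)
      have hm : T.mv a N p.1 = mB (a p.1) (T.Nj N p.1) := rfl
      unfold D_FlZ_Hp D_FlZ_Hm D_FlZ_Ha
      rw [D_FlZ_half, hm, hk]
      linear_combination -pmp - x9 - (Real.pi * I) * I1p
  linear_combination Dq + Dp + W

theorem lon0_fpar (hT : T.Of w) (hG : T.Good) (hN : T.Nice) (hF : T.F.card = c)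
    (hX : T.Match X) (hc : CritT T a τ z σ A B) (hR : Reg T τ z σ) {η : ℝ} (hη : η ≤ 1 / 10)
    (hη' : 8 * c * η ≤ 1) (hs : SReg T η τ z σ) (hn : NOk T a N) (p q : Fin c × Fin 4)
    (h : Mate T.leg p q) (h0 : T.leg p.1 p.2 = 0) :
    T.hol0 (T.fpar a N X τ z σ).x (T.fpar a N X τ z σ).z p q =
      T.gpot a N z true q.1 q.2 - T.gpot a N z true p.1 p.2 ∧
    -T.hol0 (T.fpar a N X τ z σ).x' (T.fpar a N X τ z σ).z' p q =
      T.gpot a N z false q.1 q.2 - T.gpot a N z false p.1 p.2 := by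
  constructor
  · have key := D_FlZ_main hT hG hN hF hX hc hR hη hη' hs hn p q h h0 true 1 (by simp)
      (D_FlZ_loc T (T.fpar a N X τ z σ).x) (T.pls (T.fpar a N X τ z σ).z)
      (if p.2 = 0 ∨ p.2 = 2 then spk ((T.fpar a N X τ z σ).x p.1) 0 else 0)
      (if q.2 = 1 ∨ q.2 = 3 then spk ((T.fpar a N X τ z σ).x q.1) 0 else 0)
      (fun v k hv => by
        have := (fver (T := T) (a := a) (N := N) (X := X) (τ := τ) (z := z) hc.sumv v k hv).1
        unfold D_FlZ_loc
        rw [this]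
        ring)
      (fun v hv => by
        rw [D_FlZ_loc1 _ v hv]
        have := D_FlZ_chd0 (a := a) (N := N) (X := X) (τ := τ) (z := z) (σ := σ) (T.eps v) v hv
        exact this.trans (by ring))
      (fun v hv => by
        rw [D_FlZ_loc3 _ v hv]
        have := D_FlZ_chd3 (a := a) (N := N) (X := X) (τ := τ) (z := z) (σ := σ) (T.eps v) v hv
        exact this.trans (by ring))
      (by
        have := D_FlZ_spk0 (T := T) (a := a) (N := N) (X := X) (τ := τ) (z := z) (σ := σ)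
          (T.eps p.1) p.1
        refine if_congr Iff.rfl (this.trans (by ring)) rfl)
      (by
        have := D_FlZ_spk0 (T := T) (a := a) (N := N) (X := X) (τ := τ) (z := z) (σ := σ)
          (T.eps q.1) q.1
        refine if_congr Iff.rfl (this.trans (by ring)) rfl)
      (fun r hr => by
        unfold TData.pls
        rw [if_neg hr])
      (fun r r' hr hrF => by
        rw [(fpls (a := a) (N := N) (τ := τ) (z := z) hT hG hN hX hc.sumf hr hrF).1]
        ring)
    exact key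
  · have key := D_FlZ_main hT hG hN hF hX hc hR hη hη' hs hn p q h h0 false (-1) (by simp)
      (fun v k => -D_FlZ_loc T (T.fpar a N X τ z σ).x' v k)
      (fun r => -T.pls (T.fpar a N X τ z σ).z' r)
      (if p.2 = 0 ∨ p.2 = 2 then -spk ((T.fpar a N X τ z σ).x' p.1) 0 else 0)
      (if q.2 = 1 ∨ q.2 = 3 then -spk ((T.fpar a N X τ z σ).x' q.1) 0 else 0)
      (fun v k hv => by
        have := (fver (T := T) (a := a) (N := N) (X := X) (τ := τ) (z := z) hc.sumv v k hv).2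
        unfold D_FlZ_loc
        rw [this]
        ring)
      (fun v hv => by
        rw [D_FlZ_loc1 _ v hv]
        have := D_FlZ_chd0 (a := a) (N := N) (X := X) (τ := τ) (z := z) (σ := σ) (-T.eps v) v hv
        exact (congrArg Neg.neg this).trans (by ring))
      (fun v hv => by
        rw [D_FlZ_loc3 _ v hv]
        have := D_FlZ_chd3 (a := a) (N := N) (X := X) (τ := τ) (z := z) (σ := σ) (-T.eps v) v hv
        exact (congrArg Neg.neg this).trans (by ring))
      (by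
        have := D_FlZ_spk0 (T := T) (a := a) (N := N) (X := X) (τ := τ) (z := z) (σ := σ)
          (-T.eps p.1) p.1
        refine if_congr Iff.rfl ((congrArg Neg.neg this).trans (by ring)) rfl)
      (by
        have := D_FlZ_spk0 (T := T) (a := a) (N := N) (X := X) (τ := τ) (z := z) (σ := σ)
          (-T.eps q.1) q.1
        refine if_congr Iff.rfl ((congrArg Neg.neg this).trans (by ring)) rfl)
      (fun r hr => by
        unfold TData.pls
        rw [if_neg hr, neg_zero])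
      (fun r r' hr hrF => by
        rw [(fpls (a := a) (N := N) (τ := τ) (z := z) hT hG hN hX hc.sumf hr hrF).2]
        ring)
    rw [← key]
    unfold TData.hol0
    rw [neg_add, neg_add, ← Finset.sum_neg_distrib]
    congr 1
    · congr 1
      · split_ifs
        · rfl
        · exact neg_zero
      · split_ifs
        · rfl
        · exact neg_zero
    · refine Finset.sum_congr rfl fun v _ => ?_
      rw [← Finset.sum_neg_distrib]
      refine Finset.sum_congr rfl fun k _ => ?_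
      rw [D_FlZ_up]
      by_cases k0 : T.leg v k = 0
      · rw [if_pos k0, if_pos k0, neg_zero]
      · rw [if_neg k0, if_neg k0]
        by_cases k1 : T.cor v k = T.cor q.1 q.2
        · by_cases k2 : T.cor v (k - 1) = T.cor q.1 q.2
          · rw [if_pos k1, if_pos k2, if_pos k1, if_pos k2]
            ring
          · rw [if_pos k1, if_neg k2, if_pos k1, if_neg k2]
            ring
        · by_cases k2 : T.cor v (k - 1) = T.cor q.1 q.2
          · rw [if_neg k1, if_pos k2, if_neg k1, if_pos k2]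
            ring
          · rw [if_neg k1, if_neg k2, if_neg k1, if_neg k2]
            ring

end Pool.Agent.H63.CLK
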