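import Pool.Agent.H63.CLK.Tmpl
import Pool.Agent.H63.VC7.Hyp

/-!
# Hyperbolic structures and volumes of the links of a template

The template is a plane graph with a twist region at every vertex, cut open at one edge. Its edges are
called strands; the strand `0` is the one which is cut. Let `C_v` be a circle around the two vertical
strands of the twist region `v`. The complement of the link and all `C_v` (with `a v` replaced by a
number of the same parity) is the union of the parts `P`, `P'` in front of and behind the plane: `P` is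
an ideal polyhedron with one ideal vertex for every strand and one, also called `C_v`, for every twist
region. Its faces are the faces of the graph, where `P` is glued to `P'` by the identity, and the
triangles `S⁺ = (C_v, upper left, upper right)` and `S⁻ = (C_v, lower left, lower right)` formed by
`C_v` and the legs of `v`; `S⁺` is glued to `S⁻` by a vertical translation if `a v` is even, and by a
rotation, which exchanges `P` and `P'` and left and right, if `a v` is odd.

`P` is divided by the quadrilaterals spanned by the four legs of every twist region into a polyhedron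
`P₀`, whose faces are the quadrilaterals and the polygons spanned by the strands around the faces of
the graph, and the pyramids over the quadrilaterals with apex `C_v`. The polygons are divided by the
diagonals from one vertex, the quadrilaterals by one diagonal, the polyhedron `P₀` by the cone with
apex `0`, and `P'` in the same way. At the twist region `v` this gives four tetrahedra in `P` and in
`P'` around a diagonal `a_1 a_3` of the quadrilateral `a_1 a_2 a_3 a_4`, numbered as in
`Pool.Agent.H63.VC7.Hyp`: `0 = (a_1 a_3 a_2 C_v)`, `1 = (a_1 a_3 0 a_2)`, `2 = (a_1 a_3 a_4 0)`,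
`3 = (a_1 a_3 C_v a_4)`. The vertices are named such that `C_v a_4 a_1` and `C_v a_2 a_3` are `S⁺` and
`S⁻`, or `S⁻` and `S⁺`. If the strand `0` is a leg of `v`, then it is `a_1`, and the tetrahedra `1`,
`2` do not exist. A bounded face with `d ≥ 3` corners gives the tetrahedra `(0 e_0 e_j e_{j+1})`,
`0 < j < d - 1`, in `P` and `P'`, where `e_0, e_1, …` are the strands around the face,
counterclockwise.
-/

namespace Pool.Agent.H63.CLK

open Pool.Agent.H63.VC Pool.Agent.H63.VC7.Hyp Complex

/-! ### The strands of a template -/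

/-- The state of the sweep for the strands: their numbers from left to right, the next number, and the
strands at the legs of the twist regions found so far: upper left, upper right, lower right, lower
left. -/
structure Strands where
  str : List ℕ
  nxt : ℕ
  leg : List (Fin 4 → ℕ)

/-- The first state. -/
def Strands.init : Strands := ⟨[0], 1, []⟩

/-- A piece of the template. -/
def Strands.step (S : Strands) : TPiece → Option Strands
  | .cup i => some ⟨S.str.take i ++ S.nxt :: S.nxt :: S.str.drop i, S.nxt + 1, S.leg⟩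
  | .cap i => match S.str.drop i with
    | a :: b :: r => some ⟨(S.str.take i ++ r).map (ident a b), S.nxt,
        S.leg.map (fun x k => ident a b (x k))⟩
    | _ => none
  | .tw i => match S.str.drop i with
    | a :: b :: r => some ⟨S.str.take i ++ S.nxt :: (S.nxt + 1) :: r, S.nxt + 2,
        S.leg ++ [![S.nxt, S.nxt + 1, b, a]]⟩
    | _ => none

/-- The sweep for the strands. -/
def strands : List TPiece → Strands → Option Strands
  | [], S => some S
  | x :: w, S => (S.step x).bind (strands w)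

/-- `leg v 0, leg v 1, leg v 2, leg v 3` are the strands at the upper left, upper right, lower right
and lower left legs of the twist region `v`; the two end strands are the strand `0`. The corner
`cor v k` lies between the legs `k` and `k + 1`. -/
def IsLegs (w : List TPiece) (c : ℕ) (leg : Fin c → Fin 4 → ℕ) : Prop :=
  ∃ (S : Strands) (z : ℕ), strands w Strands.init = some S ∧ S.str = [z] ∧
    List.ofFn leg = S.leg.map (fun x k => ident 0 z (x k))

variable {c : ℕ}

/-- The legs `p` and `q` are the two ends of a strand. -/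
def Mate (leg : Fin c → Fin 4 → ℕ) (p q : Fin c × Fin 4) : Prop :=
  p ≠ q ∧ leg p.1 p.2 = leg q.1 q.2

/-- The corners of the face `f` are `b 0, …, b (d - 1)`, counterclockwise; `b` has the period `d`. The
strand `e_j` is the leg `b j`. -/
structure IsBd (cor leg : Fin c → Fin 4 → ℕ) (f d : ℕ) (b : ℕ → Fin c × Fin 4) : Prop where
  per : ∀ j, b (j + d) = b j
  inj : ∀ i < d, ∀ j < d, b i = b j → i = j
  mem : ∀ p : Fin c × Fin 4, cor p.1 p.2 = f ↔ ∃ j < d, b j = p
  mate : ∀ j, Mate leg ((b j).1, (b j).2 + 1) (b (j + 1))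

/-! ### Sums of logarithmic parameters -/

/-- Exchange of the last two parameters, for tetrahedra of the opposite orientation. -/
def swp (F : Fin 3 → ℂ) : Fin 3 → ℂ := ![F 0, F 2, F 1]

/-- The leg `a_{j+1}` of a twist region, if `a_1` is the leg `i`. -/
def lga (i j : Fin 4) : Fin 4 := if i = 1 ∨ i = 3 then i + j else i - j

/-- The corner between `a_{j+1}` and `a_{j+2}`. -/
def cna (i j : Fin 4) : Fin 4 := if i = 1 ∨ i = 3 then i + j else i - j - 1

/-- The edges `C_v a_1, …, C_v a_4`. -/
def spk (x : Fin 4 → Fin 3 → ℂ) : Fin 4 → ℂ := ![x 0 2 + x 3 1, x 0 0, x 0 1 + x 3 2, x 3 0]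

/-- The edges `a_1 a_2`, `a_2 a_3`, `a_3 a_4`, `a_4 a_1`. -/
def chd (x : Fin 4 → Fin 3 → ℂ) : Fin 4 → ℂ :=
  ![x 0 1 + x 1 2, x 0 2 + x 1 1, x 3 1 + x 2 2, x 3 2 + x 2 1]

/-- The edge `a_1 a_3`. -/
def dia (x : Fin 4 → Fin 3 → ℂ) : ℂ := x 0 0 + x 1 0 + x 2 0 + x 3 0

/-- The edges from the strand `0` to `a_1, …, a_4`, if it is `a_1` (`e` true), and otherwise. -/
def ver (e : Bool) (x : Fin 4 → Fin 3 → ℂ) : Fin 4 → ℂ :=
  if e then ![0, chd x 0, dia x, chd x 3] else ![x 1 1 + x 2 2, x 1 0, x 1 2 + x 2 1, x 2 0]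

/-- The edge `e_j e_{j+1}` of a polygon with `d ≥ 3` vertices. -/
def bas (d : ℕ) (x : ℕ → Fin 3 → ℂ) (j : ℕ) : ℂ :=
  if j = 0 then x 1 2 else if j + 1 = d then x (d - 2) 1 else x j 0

/-- The edge from the strand `0` to `e_j`. -/
def pol (d : ℕ) (x : ℕ → Fin 3 → ℂ) (j : ℕ) : ℂ :=
  if j = 0 then ∑ i ∈ Finset.Ico 1 (d - 1), x i 0
  else (if 2 ≤ j then x (j - 1) 2 else 0) + (if j + 2 ≤ d then x j 1 else 0)

/-- Combinatorial data of a template: the bounded faces, the corners and legs of the twist regions, the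
boundaries of the bounded faces, and the leg `a_1` of every twist region. -/
structure TData (c : ℕ) where
  F : Finset ℕ
  cor : Fin c → Fin 4 → ℕ
  leg : Fin c → Fin 4 → ℕ
  deg : ℕ → ℕ
  bd : ℕ → ℕ → Fin c × Fin 4
  one : Fin c → Fin 4

/-- Is the strand `0` a leg of `v`? -/
def TData.isEnd (T : TData c) (v : Fin c) : Bool := decide (T.leg v (T.one v) = 0)

/-- The data belong to the template `w`. -/
structure TData.Of (T : TData c) (w : List TPiece) : Prop where
  tmpl : IsTemplate w c T.F T.cor
  legs : IsLegs w c T.leg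
  bdy : ∀ f ∈ T.F, IsBd T.cor T.leg f (T.deg f) (T.bd f)
  one : ∀ v k, T.leg v k = 0 → T.one v = k

/-- Logarithmic parameters of all tetrahedra: `x v`, `x' v` at the twist region `v` in `P` and `P'`,
`z f`, `z' f` at the face `f` in `P` and `P'`, and the following sums: `s v k` at the corner `k` of `v`
for the edge between the legs `k`, `k + 1` and the tetrahedra of the face, `U v` for one half of the
longitude of `C_v`. -/
structure Par (c : ℕ) where
  x : Fin c → Fin 4 → Fin 3 → ℂ
  x' : Fin c → Fin 4 → Fin 3 → ℂ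
  z : ℕ → ℕ → Fin 3 → ℂ
  z' : ℕ → ℕ → Fin 3 → ℂ
  s : Fin c → Fin 4 → ℂ
  U : Fin c → ℂ

/-- The sum of the parameters in `P` (for `x`, `z`) or in `P'` (for `x'`, `z'`) at the edge from the
strand `0` to the leg `k` of `v`, of the tetrahedra at `v` and at the face of the corner `k`. -/
noncomputable def TData.up (T : TData c) (x : Fin c → Fin 4 → Fin 3 → ℂ)
    (z : ℕ → ℕ → Fin 3 → ℂ) (p : Fin c × Fin 4) : ℂ :=
  (∑ j, if lga (T.one p.1) j = p.2 then ver (T.isEnd p.1) (x p.1) j else 0) +
    if T.cor p.1 p.2 ∈ T.F then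
      ∑ j ∈ Finset.range (T.deg (T.cor p.1 p.2)), (if T.bd (T.cor p.1 p.2) j = p then
        pol (T.deg (T.cor p.1 p.2)) (z (T.cor p.1 p.2)) j else 0)
    else 0

/-- The gluing equations; `κ = π i` for the logarithms of the shape parameters, and `κ = 0` for
flattenings. The sums of the parameters at the edges of `S⁺` and `S⁻` are `κ ± U`; since `S⁺` is glued
to `S⁻`, the sums around these edges are `2 κ`. The equations of the edges `C_v a_j` imply that the
meridians of the strands have the logarithmic holonomy `0`. The equations `lon`, `lon'` say that the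
half of the longitude of `C_v` in `P` and in `P'` has the logarithmic holonomy `U`, and `fill` is the
equation of the Dehn filling of `C_v` which gives `a v` half twists, along a curve going once along
the meridian and `a v / 2` times along the longitude. -/
structure Glue (κ : ℂ) (T : TData c) (a : Fin c → ℤ) (Q : Par c) : Prop where
  spk : ∀ v, CLK.spk (Q.x v) 0 + CLK.spk (Q.x' v) 0 = κ + Q.U v ∧
    CLK.spk (Q.x v) 3 + CLK.spk (Q.x' v) 3 = κ + Q.U v ∧
    CLK.spk (Q.x v) 1 + CLK.spk (Q.x' v) 1 = κ - Q.U v ∧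
    CLK.spk (Q.x v) 2 + CLK.spk (Q.x' v) 2 = κ - Q.U v
  chd : ∀ v, chd (Q.x v) 1 + chd (Q.x' v) 1 + Q.s v (cna (T.one v) 1) = κ + Q.U v ∧
    chd (Q.x v) 2 + chd (Q.x' v) 2 + Q.s v (cna (T.one v) 2) = 2 * κ
  chd0 : ∀ v, T.isEnd v = false →
    CLK.chd (Q.x v) 3 + CLK.chd (Q.x' v) 3 + Q.s v (cna (T.one v) 3) = κ - Q.U v ∧
    CLK.chd (Q.x v) 0 + CLK.chd (Q.x' v) 0 + Q.s v (cna (T.one v) 0) = 2 * κ
  dia : ∀ v, T.isEnd v = false → dia (Q.x v) = 2 * κ ∧ CLK.dia (Q.x' v) = 2 * κ
  lon : ∀ v, Q.x v 0 2 - Q.x v 3 2 = Q.U v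
  lon' : ∀ v, Q.x' v 0 2 - Q.x' v 3 2 = Q.U v
  fill : ∀ v, (if T.one v = 1 ∨ T.one v = 3 then 1 else -1) * (Q.x v 3 1 - Q.x v 0 1) +
    a v * Q.U v = (if T.one v = 0 ∨ T.one v = 1 then -2 else 2) * κ
  out : ∀ v k, T.cor v k ∉ T.F → Q.s v k = 0
  bas : ∀ f ∈ T.F, 3 ≤ T.deg f → ∀ j < T.deg f,
    Q.s (T.bd f j).1 (T.bd f j).2 = bas (T.deg f) (Q.z f) j + CLK.bas (T.deg f) (Q.z' f) j
  sum : ∀ f ∈ T.F, ∑ j ∈ Finset.range (T.deg f), Q.s (T.bd f j).1 (T.bd f j).2 = 2 * κ
  diag : ∀ f ∈ T.F, ∀ j, 2 ≤ j → j + 2 ≤ T.deg f →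
    Q.z f (j - 1) 1 + Q.z f j 2 + Q.z' f (j - 1) 1 + Q.z' f j 2 = 2 * κ
  up : ∀ p q, Mate T.leg p q → T.leg p.1 p.2 ≠ 0 → T.cor p.1 p.2 ∈ T.F → T.cor q.1 q.2 ∈ T.F →
    T.up Q.x Q.z p + T.up Q.x Q.z q = 2 * κ ∧ T.up Q.x' Q.z' p + T.up Q.x' Q.z' q = 2 * κ
  up0 : ∀ p q, Mate T.leg p q → T.leg p.1 p.2 ≠ 0 → ¬ (T.cor p.1 p.2 ∈ T.F ∧ T.cor q.1 q.2 ∈ T.F) →
    T.up Q.x Q.z p + T.up Q.x Q.z q + T.up Q.x' Q.z' p + T.up Q.x' Q.z' q +
      (if T.isEnd p.1 ∧ lga (T.one p.1) 3 = p.2 then κ + Q.U p.1 else 0) +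
      (if T.isEnd q.1 ∧ lga (T.one q.1) 3 = q.2 then κ + Q.U q.1 else 0) = 2 * κ

/-- The tetrahedron `k` exists at `v`. -/
def TData.has (T : TData c) (v : Fin c) (k : Fin 4) : Prop := k = 0 ∨ k = 3 ∨ T.isEnd v = false

open Classical in
/-- The logarithms of the shape parameters `X` at a twist region; `o` is the orientation. -/
noncomputable def TData.lg (T : TData c) (o : Bool) (X : Fin c → Fin 4 → ℂ) (v : Fin c) (k : Fin 4) :
    Fin 3 → ℂ :=
  if T.has v k then (if decide (T.one v = 1 ∨ T.one v = 3) = o then lgs (X v k) else swp (lgs (X v k)))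
  else 0

/-- The shape parameters `X`, `Z` in `P` and `X'`, `Z'` in `P'` describe the hyperbolic structure of
the complement of the link with `a v` half twists in the twist region `v`: positively oriented ideal
tetrahedra satisfying Thurston's gluing, completeness and Dehn filling equations. -/
def TData.IsGeom (T : TData c) (a : Fin c → ℤ) (X X' : Fin c → Fin 4 → ℂ) (Z Z' : ℕ → ℕ → ℂ) : Prop :=
  (∀ v k, T.has v k → 0 < (X v k).im ∧ 0 < (X' v k).im) ∧
  (∀ f ∈ T.F, ∀ j, 0 < j → j + 1 < T.deg f → 0 < (Z f j).im ∧ 0 < (Z' f j).im) ∧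
  ∃ s U, Glue (Real.pi * I) T a ⟨T.lg true X, T.lg false X', fun f j => lgs (Z f j),
    fun f j => swp (lgs (Z' f j)), s, U⟩

open Classical in
/-- The sum of the volumes of the tetrahedra. -/
noncomputable def TData.vol (T : TData c) (X X' : Fin c → Fin 4 → ℂ) (Z Z' : ℕ → ℕ → ℂ) : ℝ :=
  (∑ v, ∑ k, if T.has v k then blochWigner (X v k) + blochWigner (X' v k) else 0) +
    ∑ f ∈ T.F, ∑ j ∈ Finset.Ico 1 (T.deg f - 1), (blochWigner (Z f j) + blochWigner (Z' f j))

/-- `V` is the hyperbolic volume of the complement of the link obtained from the template `w` by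
putting `a v` half twists into the twist region `v`. -/
def IsVolume (w : List TPiece) (a : ℕ → ℤ) (V : ℝ) : Prop :=
  ∃ (c : ℕ) (T : TData c) (X X' : Fin c → Fin 4 → ℂ) (Z Z' : ℕ → ℕ → ℂ), T.Of w ∧
    T.IsGeom (fun v => a v) X X' Z Z' ∧ V = T.vol X X' Z Z'

end Pool.Agent.H63.CLK
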