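import Pool.Agent.H63.CLK.D_VolT

/-!
# CLK part D, D_PsiRe: the critical value

See the header of `D_VolT` (`psi_re`).
-/

namespace Pool.Agent.H63.CLK

open Pool.Agent.H63.VC hiding ext
open Pool.Agent.H63.VC3 Pool.Agent.H63.VC7.Hyp Complex

variable {c : ℕ} {w : List TPiece} {T : TData c} {a : Fin c → ℤ} {τ z : Fin c → ℂ}
  {σ : Fin c → Fin 4 → ℂ} {A : ℕ → ℂ} {B : Fin c → ℂ}

private theorem D_PsiRe_ff (x : ℂ) (h0 : 0 < x.re) (h1 : x.re < 1) :
    2 * Real.pi * (ff x).re = -DD x - 2 * Real.pi * x.im * (hh x).im := by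
  unfold DD
  exact ff_re_bw x h0 h1

/-- The imaginary parts of the sizes of the corners. -/
private theorem D_PsiRe_csr (x : ℂ) (k : Fin 4) :
    (csr x k).im = if k = 0 ∨ k = 2 then -x.im else x.im := by
  fin_cases k <;> simp [csr]

/-- The contribution of a corner. -/
private theorem D_PsiRe_cpt (hR : Reg T τ z σ) (hc : CritT T a τ z σ A B) (v : Fin c) (k : Fin 4)
    (hv : T.isEnd v = false) :
    2 * Real.pi * (cpt T τ σ v k).re =
      -(DD (csr (τ v) k - σ v k) + if T.cor v k ∈ T.F then DD (σ v k) else 0) -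
      2 * Real.pi * ((csr (τ v) k).im * (hh (csr (τ v) k - σ v k)).im + (σ v k).im * (B v).im +
        if T.cor v k ∈ T.F then (σ v k).im * (A (T.cor v k)).im else 0) := by
  have ht := D_PsiRe_ff (csr (τ v) k - σ v k) (hR.the v k hv).1 (hR.the v k hv).2
  unfold cpt
  rw [if_pos hv]
  by_cases hk : T.cor v k ∈ T.F
  · rw [if_pos hk, if_pos hk, if_pos hk, Complex.add_re, mul_add, ht,
      D_PsiRe_ff (σ v k) (hR.sig v k hk).1 (hR.sig v k hk).2]
    have hs := congrArg Complex.im (hc.sig v k hk hv)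
    simp only [Complex.add_im, Complex.sub_im, Complex.zero_im] at hs ⊢
    linear_combination (2 * Real.pi * (σ v k).im) * hs
  · have h0 := hc.out v k hk
    rw [if_neg hk, if_neg hk, if_neg hk, h0, sub_zero]
    rw [h0, sub_zero] at ht
    rw [ht]
    simp only [Complex.zero_im]
    ring

/-- The two bounded corners of a twist region at the strand `0` cancel. -/
private theorem D_PsiRe_end (hN : T.Nice) (hc : CritT T a τ z σ A B) (v : Fin c)
    (hv : T.isEnd v = true) : ∑ k, (if T.cor v k ∈ T.F then DD (σ v k) else 0) = 0 := by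
  obtain ⟨h1, h2, h3, h4⟩ := hN.end0 v hv
  have hcs : ∀ k, T.cor v k ∈ T.F → σ v k = csr (τ v) k := fun k hk => hc.fin v k hk hv
  have hD := DD_one_sub (τ v)
  generalize T.one v = o at h1 h2 h3 h4
  rw [Fin.sum_univ_four]
  fin_cases o
  · have h1 : T.cor v 0 ∉ T.F := h1
    have h2 : T.cor v 3 ∉ T.F := h2
    have h3 : T.cor v 1 ∈ T.F := h3
    have h4 : T.cor v 2 ∈ T.F := h4
    rw [if_neg h1, if_neg h2, if_pos h3, if_pos h4, hcs _ h3, hcs _ h4]
    simp [csr, hD]
  · have h1 : T.cor v 1 ∉ T.F := h1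
    have h2 : T.cor v 0 ∉ T.F := h2
    have h3 : T.cor v 2 ∈ T.F := h3
    have h4 : T.cor v 3 ∈ T.F := h4
    rw [if_neg h1, if_neg h2, if_pos h3, if_pos h4, hcs _ h3, hcs _ h4]
    simp [csr, hD]
  · have h1 : T.cor v 2 ∉ T.F := h1
    have h2 : T.cor v 1 ∉ T.F := h2
    have h3 : T.cor v 3 ∈ T.F := h3
    have h4 : T.cor v 0 ∈ T.F := h4
    rw [if_neg h1, if_neg h2, if_pos h3, if_pos h4, hcs _ h3, hcs _ h4]
    simp [csr, hD]
  · have h1 : T.cor v 3 ∉ T.F := h1
    have h2 : T.cor v 2 ∉ T.F := h2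
    have h3 : T.cor v 0 ∈ T.F := h3
    have h4 : T.cor v 1 ∈ T.F := h4
    rw [if_neg h1, if_neg h2, if_pos h3, if_pos h4, hcs _ h3, hcs _ h4]
    simp [csr, hD]

/-- One twist region. -/
private theorem D_PsiRe_vtx (hN : T.Nice) (hR : Reg T τ z σ) (hc : CritT T a τ z σ A B)
    (v : Fin c) :
    2 * Real.pi * (2 * Real.pi * I * (a v / 2 * z v ^ 2 + z v) + 2 * ff (τ v) -
      ff (τ v - 1 / 2 - z v) - ff (τ v - 1 / 2 + z v)).re -
      2 * Real.pi * (∑ k, (cpt T τ σ v k).re) =
    (-2 * DD (τ v) + DD (τ v - 1 / 2 + z v) + DD (τ v - 1 / 2 - z v)) +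
      (∑ k, if T.isEnd v = false then DD (csr (τ v) k - σ v k) else 0) +
      (∑ k, if T.cor v k ∈ T.F then DD (σ v k) else 0) +
      2 * Real.pi * ∑ k, (if T.cor v k ∈ T.F then (σ v k).im * (A (T.cor v k)).im else 0) := by
  have f1 := D_PsiRe_ff (τ v) (by linarith [(hR.tau v).1]) (hR.tau v).2
  have f2 := D_PsiRe_ff (τ v - 1 / 2 - z v) (hR.zm v).1 (hR.zm v).2
  have f3 := D_PsiRe_ff (τ v - 1 / 2 + z v) (hR.zp v).1 (hR.zp v).2
  have hz := congrArg Complex.im (hc.zz v)
  have g1 : (2 * Real.pi * I * (a v * z v + 1) : ℂ).im = 2 * Real.pi * (a v * (z v).re + 1) := by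
    simp [Complex.mul_im, Complex.mul_re]
  have g2 : (2 * Real.pi * I * (a v / 2 * z v ^ 2 + z v) : ℂ).re =
      -(2 * Real.pi * (a v * (z v).re * (z v).im + (z v).im)) := by
    have : (a v : ℂ) / 2 = ((a v / 2 : ℝ) : ℂ) := by push_cast; ring
    rw [this, sq]
    simp [Complex.mul_im, Complex.mul_re]
    ring
  have i1 : (τ v - 1 / 2 - z v : ℂ).im = (τ v).im - (z v).im := by simp
  have i2 : (τ v - 1 / 2 + z v : ℂ).im = (τ v).im + (z v).im := by simp
  rw [i1] at f2
  rw [i2] at f3
  rw [Complex.sub_im, Complex.add_im, g1, Complex.zero_im] at hz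
  have hre : (2 * Real.pi * I * (a v / 2 * z v ^ 2 + z v) + 2 * ff (τ v) -
      ff (τ v - 1 / 2 - z v) - ff (τ v - 1 / 2 + z v) : ℂ).re =
      -(2 * Real.pi * (a v * (z v).re * (z v).im + (z v).im)) + 2 * (ff (τ v)).re -
      (ff (τ v - 1 / 2 - z v)).re - (ff (τ v - 1 / 2 + z v)).re := by
    rw [Complex.sub_re, Complex.sub_re, Complex.add_re, g2]
    congr 3
    simp [Complex.mul_re]
  rw [hre]
  rcases Bool.eq_false_or_eq_true (T.isEnd v) with hv | hv
  · -- an end
    have hcp : ∑ k, (cpt T τ σ v k).re = 0 := by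
      apply Finset.sum_eq_zero
      intro k _
      unfold cpt
      rw [if_neg (by rw [hv]; decide), Complex.zero_re]
    have hth : (∑ k : Fin 4, if T.isEnd v = false then DD (csr (τ v) k - σ v k) else 0) = 0 := by
      apply Finset.sum_eq_zero
      intro k _
      rw [if_neg (by rw [hv]; decide)]
    rw [hcp, hth, D_PsiRe_end hN hc v hv]
    have ht := congrArg Complex.im (hc.tau0 v hv)
    have hA : (∑ k, (if T.cor v k ∈ T.F then (σ v k).im * (A (T.cor v k)).im else 0)) =
        -(τ v).im * (∑ k, (if T.cor v k ∈ T.F then (if k = 0 ∨ k = 2 then A (T.cor v k)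
          else -A (T.cor v k)) else 0)).im := by
      rw [Complex.im_sum, Finset.mul_sum]
      apply Finset.sum_congr rfl
      intro k _
      by_cases hk : T.cor v k ∈ T.F
      · rw [if_pos hk, if_pos hk, hc.fin v k hk hv, D_PsiRe_csr]
        by_cases h2 : k = 0 ∨ k = 2
        · rw [if_pos h2, if_pos h2]
        · rw [if_neg h2, if_neg h2, Complex.neg_im]; ring
      · rw [if_neg hk, if_neg hk, Complex.zero_im, mul_zero]
    rw [hA]
    generalize (∑ k, (if T.cor v k ∈ T.F then (if k = 0 ∨ k = 2 then A (T.cor v k)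
          else -A (T.cor v k)) else 0)) = S at ht ⊢
    have e2 : (2 * hh (τ v) : ℂ).im = 2 * (hh (τ v)).im := by simp [Complex.mul_im]
    simp only [Complex.add_im, Complex.sub_im, e2, Complex.zero_im] at ht
    linear_combination 2 * f1 - f2 - f3 - 2 * Real.pi * (z v).im * hz +
      2 * Real.pi * (τ v).im * ht
  · -- not an end
    have hcp : 2 * Real.pi * (∑ k, (cpt T τ σ v k).re) =
        -((∑ k, DD (csr (τ v) k - σ v k)) + ∑ k, if T.cor v k ∈ T.F then DD (σ v k) else 0) -
        2 * Real.pi * ((∑ k, (csr (τ v) k).im * (hh (csr (τ v) k - σ v k)).im) +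
          (∑ k, (σ v k).im) * (B v).im +
          ∑ k, if T.cor v k ∈ T.F then (σ v k).im * (A (T.cor v k)).im else 0) := by
      rw [Finset.mul_sum, Finset.sum_congr rfl (fun k _ => D_PsiRe_cpt hR hc v k hv),
        Finset.sum_sub_distrib, Finset.sum_neg_distrib, Finset.sum_add_distrib,
        ← Finset.mul_sum, Finset.sum_add_distrib, Finset.sum_add_distrib, ← Finset.sum_mul]
    have hs0 : ∑ k, (σ v k).im = 0 := by
      have := congrArg Complex.im (hc.sumv v)
      rwa [Complex.im_sum, Complex.one_im] at this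
    have hth : (∑ k : Fin 4, if T.isEnd v = false then DD (csr (τ v) k - σ v k) else 0) =
        ∑ k, DD (csr (τ v) k - σ v k) := by
      apply Finset.sum_congr rfl
      intro k _
      rw [if_pos hv]
    rw [hcp, hs0, hth]
    have ht := congrArg Complex.im (hc.tau v hv)
    have e2 : (2 * hh (τ v) : ℂ).im = 2 * (hh (τ v)).im := by simp [Complex.mul_im]
    simp only [Complex.add_im, Complex.sub_im, e2, Complex.zero_im] at ht
    have hsum : (∑ k, (csr (τ v) k).im * (hh (csr (τ v) k - σ v k)).im) =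
        (τ v).im * ((hh (csr (τ v) 1 - σ v 1)).im + (hh (csr (τ v) 3 - σ v 3)).im -
          (hh (csr (τ v) 0 - σ v 0)).im - (hh (csr (τ v) 2 - σ v 2)).im) := by
      rw [Fin.sum_univ_four, D_PsiRe_csr, D_PsiRe_csr, D_PsiRe_csr, D_PsiRe_csr,
        if_pos (by decide), if_neg (by decide), if_pos (by decide), if_neg (by decide)]
      ring
    rw [hsum]
    linear_combination 2 * f1 - f2 - f3 - 2 * Real.pi * (z v).im * hz +
      2 * Real.pi * (τ v).im * ht

/-- The remaining terms cancel at every bounded face. -/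
private theorem D_PsiRe_faces (hc : CritT T a τ z σ A B) :
    ∑ v, ∑ k, (if T.cor v k ∈ T.F then (σ v k).im * (A (T.cor v k)).im else 0) = 0 := by
  have h : ∀ v k, (if T.cor v k ∈ T.F then (σ v k).im * (A (T.cor v k)).im else 0) =
      ∑ f ∈ T.F, (A f).im * (if T.cor v k = f then σ v k else 0).im := by
    intro v k
    have : ∀ f, (A f).im * (if T.cor v k = f then σ v k else 0).im =
        if T.cor v k = f then (σ v k).im * (A f).im else 0 := by
      intro f
      split_ifs
      · ring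
      · simp
    rw [Finset.sum_congr rfl (fun f _ => this f), Finset.sum_ite_eq]
  simp_rw [h]
  rw [Finset.sum_congr rfl (fun v _ => Finset.sum_comm), Finset.sum_comm]
  apply Finset.sum_eq_zero
  intro f hf
  simp_rw [← Finset.mul_sum]
  have := congrArg Complex.im (hc.sumf f hf)
  simp only [Complex.im_sum, Complex.one_im] at this
  rw [this, mul_zero]

theorem psi_re (hN : T.Nice) (hR : Reg T τ z σ) (hc : CritT T a τ z σ A B) :
    2 * Real.pi * (Psi T a τ z σ).re = volS T τ z σ := by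
  have h1 : 2 * Real.pi * (Psi T a τ z σ).re =
      ∑ v, (2 * Real.pi * (2 * Real.pi * I * (a v / 2 * z v ^ 2 + z v) + 2 * ff (τ v) -
      ff (τ v - 1 / 2 - z v) - ff (τ v - 1 / 2 + z v)).re -
      2 * Real.pi * (∑ k, (cpt T τ σ v k).re)) := by
    unfold Psi
    rw [Complex.sub_re, Complex.re_sum, Complex.re_sum, mul_sub, Finset.mul_sum, Finset.mul_sum,
      ← Finset.sum_sub_distrib]
    apply Finset.sum_congr rfl
    intro v _
    rw [Complex.re_sum]
  rw [h1, Finset.sum_congr rfl (fun v _ => D_PsiRe_vtx hN hR hc v), Finset.sum_add_distrib,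
    Finset.sum_add_distrib, Finset.sum_add_distrib, ← Finset.mul_sum, D_PsiRe_faces hc]
  unfold volS
  ring

end Pool.Agent.H63.CLK
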