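import Pool.Agent.H63.CLK.D_Nice
import Pool.Agent.H63.CLK.D_SolLog
import Pool.Agent.H63.CLK.D_GlueV
import Pool.Agent.H63.CLK.D_Up
import Pool.Agent.H63.CLK.D_PsiRe

/-! # CLK part D, D_Main: the hyperbolic structure of a critical point -/

namespace Pool.Agent.H63.CLK

open Pool.Agent.H63.VC hiding ext
open Pool.Agent.H63.VC3 Pool.Agent.H63.VC7.Hyp Complex

variable {c : ℕ}

theorem glue_par {w : List TPiece} {T : TData c} (hT : T.Of w) (hG : T.Good) (hN : T.Nice)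
    {a : Fin c → ℤ} {τ z : Fin c → ℂ} {σ : Fin c → Fin 4 → ℂ} {A : ℕ → ℂ} {B : Fin c → ℂ}
    (hc : CritT T a τ z σ A B) : Glue (Real.pi * I) T a (T.par τ z σ) where
  spk v := gv_spk v
  chd v := gv_chd hN hc v
  chd0 v hv := gv_chd0 v hv
  dia v hv := gv_dia hc v hv
  lon v := (gv_lon v).1
  lon' v := (gv_lon v).2
  fill v := gv_fill hc v
  out v k hk := by
    change 2 * Real.pi * I * σ v k = 0
    rw [hc.out v k hk, mul_zero]
  bas f hf hd j hj := gf_bas hT hc f hf hd j hj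
  sum f hf := gf_sum hT hc f hf
  diag f _ j hj _ := gf_diag f j hj
  up p q h h0 hp hq := gu_up hT hG hN hc p q h h0 hp hq
  up0 p q h h0 hpq := gu_up0 hT hG hN hc p q h h0 hpq

theorem isVolume_of_crit {w : List TPiece} {T : TData c} (hT : T.Of w) (hG : T.Good)
    {τ0 : Fin c → ℝ} {σ0 : Fin c → Fin 4 → ℝ} (h : Adm T τ0 σ0) :
    ∃ ε : ℝ, 0 < ε ∧ ∀ (a : ℕ → ℤ) (τ z : Fin c → ℂ) (σ : Fin c → Fin 4 → ℂ) (A : ℕ → ℂ)
      (B : Fin c → ℂ), CritT T (fun v => a v) τ z σ A B →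
      (∀ v, ‖τ v - τ0 v‖ < ε ∧ ‖z v‖ < ε) → (∀ v k, ‖σ v k - σ0 v k‖ < ε) →
      IsVolume w a (2 * Real.pi * (Psi T (fun v => a v) τ z σ).re) := by
  have hN := nice_of_adm hT hG h
  obtain ⟨ε, hε, hreg⟩ := reg_near hT hN h
  refine ⟨ε, hε, fun a τ z σ A B hc h1 h2 => ?_⟩
  have hR := hreg τ z σ hc.out hc.sumv h1 h2
  obtain ⟨p1, p2⟩ := sol_pos hR
  obtain ⟨l1, l2⟩ := sol_lg hR
  refine ⟨c, T, T.sX τ z σ true, T.sX τ z σ false, T.sZ σ, T.sZ' σ, hT, ⟨p1,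
    fun f hf j h0 h1 => ⟨(p2 f hf j h0 h1).1, (p2 f hf j h0 h1).2.1⟩,
    (T.par τ z σ).s, (T.par τ z σ).U, ?_⟩, ?_⟩
  · rw [l1, l2]
    exact glue_congr (glue_par hT hG hN hc) _ _
      fun f hf j h0 h1 => ⟨(p2 f hf j h0 h1).2.2.1, (p2 f hf j h0 h1).2.2.2⟩
  · rw [psi_re hN hR hc, vol_sum hT hN hR hc]

end Pool.Agent.H63.CLK
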