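import Pool.Agent.H63.CLK.D_FlD
import Pool.Agent.H63.CLK.D_Chk

set_option autoImplicit false

/-!
# CLK part D, D_NEx: the link orientation against the checkerboard orientation
-/

namespace Pool.Agent.H63.CLK

variable {c : ℕ}

/-- Two involutions without fixed points: there is a 2-coloring changed by both. -/
theorem D_NEx_inv {X : Type*} (m π : Equiv.Perm X) (hm : ∀ x, m (m x) = x)
    (hπ : ∀ x, π (π x) = x) (fm : ∀ x, m x ≠ x) (fπ : ∀ x, π x ≠ x) (code : X → ℕ)
    (hcode : Function.Injective code) :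
    ∃ o : X → Bool, (∀ x, o (m x) = !o x) ∧ ∀ x, o (π x) = !o x := by
  classical
  set r : Equiv.Perm X := π * m with hr
  have hmi : m⁻¹ = m := by
    ext x
    rw [Equiv.Perm.inv_eq_iff_eq, hm]
  have hπi : π⁻¹ = π := by
    ext x
    rw [Equiv.Perm.inv_eq_iff_eq, hπ]
  have hri : r⁻¹ = m * π := by rw [hr, mul_inv_rev, hmi, hπi]
  have hconj : m * r * m⁻¹ = r⁻¹ := by
    rw [hri, hr, mul_assoc, mul_assoc, mul_inv_cancel, mul_one]
  have key : ∀ (i : ℤ) (x : X), m ((r ^ i) x) = (r ^ (-i)) (m x) := by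
    intro i x
    have h1 : m * r ^ i * m⁻¹ = r ^ (-i) := by
      rw [← conj_zpow, hconj, inv_zpow, zpow_neg]
    have h2 : m * r ^ i = r ^ (-i) * m := by rw [← h1, inv_mul_cancel_right]
    exact congrArg (fun e : Equiv.Perm X => e x) h2
  have hrx : ∀ x, r x = π (m x) := fun x => rfl
  have hns : ∀ x, ¬ r.SameCycle x (m x) := by
    rintro x ⟨i, hi⟩
    obtain ⟨k, hk | hk⟩ := Int.even_or_odd' i
    · have h1 : (r ^ (-k)) ((r ^ i) x) = (r ^ (-k)) (m x) := by rw [hi]
      rw [← Equiv.Perm.mul_apply, ← zpow_add, ← key] at h1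
      have h2 : -k + i = k := by rw [hk]; ring
      rw [h2] at h1
      exact fm _ h1.symm
    · have h1 : (r ^ (-(k + 1))) ((r ^ i) x) = (r ^ (-(k + 1))) (m x) := by rw [hi]
      rw [← Equiv.Perm.mul_apply, ← zpow_add, ← key] at h1
      have h2 : -(k + 1) + i = k := by rw [hk]; ring
      have h3 : (r ^ (k + 1)) x = r ((r ^ k) x) := by
        rw [add_comm, zpow_add, zpow_one, Equiv.Perm.mul_apply]
      rw [h2, h3, hrx] at h1
      have h4 := congrArg m h1
      rw [hm] at h4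
      exact fπ _ h4.symm
  let rep : X → X := fun x => Quotient.out (Quotient.mk (Equiv.Perm.SameCycle.setoid r) x)
  have hrep : ∀ x y, r.SameCycle x y → rep x = rep y := by
    intro x y h
    exact congrArg Quotient.out (Quotient.sound h)
  have hrep' : ∀ x y, rep x = rep y → r.SameCycle x y := by
    intro x y h
    have h1 := Quotient.out_inj.1 h
    exact Quotient.exact h1
  have hne : ∀ x, code (rep x) ≠ code (rep (m x)) := fun x h => hns x (hrep' _ _ (hcode h))
  have hflip : ∀ u v : ℕ, u ≠ v → decide (v < u) = !decide (u < v) := by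
    intro u v huv
    rcases Nat.lt_or_gt_of_ne huv with h | h
    · rw [decide_eq_true h, decide_eq_false (by omega)]
      rfl
    · rw [decide_eq_true (show v < u from h), decide_eq_false (by omega)]
      rfl
  refine ⟨fun x => decide (code (rep x) < code (rep (m x))), fun x => ?_, fun x => ?_⟩
  · change decide (code (rep (m x)) < code (rep (m (m x)))) = !decide (code (rep x) < code (rep (m x)))
    rw [hm]
    exact hflip _ _ (hne x)
  · change decide (code (rep (π x)) < code (rep (m (π x)))) = !decide (code (rep x) < code (rep (m x)))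
    have h1 : rep (π x) = rep (m x) := by
      refine (hrep _ _ ⟨1, ?_⟩).symm
      rw [zpow_one, hrx, hm]
    have h2 : rep (m (π x)) = rep x := by
      refine (hrep _ _ ⟨-1, ?_⟩).symm
      rw [zpow_neg, zpow_one, hri]
      rfl
    rw [h1, h2]
    exact hflip _ _ (hne x)

theorem D_NEx_k : ∀ k : Fin 4, 3 - (3 - k) = k ∧ k + 2 + 2 = k ∧ 3 - k ≠ k ∧ k + 2 ≠ k := by decide

theorem exists_N {w : List TPiece} {T : TData c} (hT : T.Of w) (hG : T.Good) (hN : T.Nice)
    (a : Fin c → ℤ) : ∃ N : ℕ → Bool, NOk T a N := by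
  classical
  obtain ⟨S, -, -, s2, s3⟩ := exists_sgn hT
  choose mt hmt using hG.ex
  have hinv : ∀ p, mt (mt p) = p := fun p => hG.un (mt p) (mt (mt p)) p (hmt _) (hmt p).symm
  let m : Equiv.Perm (Fin c × Fin 4) := ⟨mt, mt, hinv, hinv⟩
  let ps : Fin c × Fin 4 → Fin c × Fin 4 := fun p =>
    (p.1, if Even (a p.1) then 3 - p.2 else p.2 + 2)
  have hps : ∀ p, ps (ps p) = p := by
    rintro ⟨v, k⟩
    simp only [ps]
    split_ifs
    · exact Prod.ext rfl (D_NEx_k k).1
    · exact Prod.ext rfl (D_NEx_k k).2.1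
  have fps : ∀ p, ps p ≠ p := by
    rintro ⟨v, k⟩ h
    have h2 := congrArg Prod.snd h
    simp only [ps] at h2
    revert h2
    split_ifs
    · exact (D_NEx_k k).2.2.1
    · exact (D_NEx_k k).2.2.2
  let π : Equiv.Perm (Fin c × Fin 4) := ⟨ps, ps, hps, hps⟩
  obtain ⟨o, ho1, ho2⟩ := D_NEx_inv m π hinv hps (fun p => (hmt p).1.symm) fps
    (fun p => Encodable.encode p) Encodable.encode_injective
  -- the values
  let b : Fin c × Fin 4 → Bool := fun p => decide (S (T.cor p.1 p.2) = 1)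
  have hb : ∀ f g : ℕ, S f = -S g → decide (S f = 1) = !decide (S g = 1) := by
    intro f g h
    rcases s2 g with hg | hg
    · have : S f = -1 := by rw [h, hg]
      rw [this, hg]
      decide
    · have : S f = 1 := by rw [h, hg]; rfl
      rw [this, hg]
      decide
  have hbm : ∀ p q, Mate T.leg p q → b q = !b p := by
    intro p q h
    refine hb _ _ ?_
    rw [s3 q.1 q.2, adj_all hT hG hN h]
  have hbk : ∀ v k, b (v, k) = !b (v, k - 1) := fun v k => hb _ _ (s3 v k)
  let N0 : ℕ → Bool := fun s => if h : ∃ p : Fin c × Fin 4, T.leg p.1 p.2 = s then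
    (o h.choose ^^ b h.choose) else false
  have hN0 : ∀ p : Fin c × Fin 4, N0 (T.leg p.1 p.2) = (o p ^^ b p) := by
    intro p
    have hex : ∃ q : Fin c × Fin 4, T.leg q.1 q.2 = T.leg p.1 p.2 := ⟨p, rfl⟩
    have h1 : N0 (T.leg p.1 p.2) = (o hex.choose ^^ b hex.choose) := dif_pos hex
    rw [h1]
    have h2 := hex.choose_spec
    generalize hex.choose = q at h2
    by_cases hqp : q = p
    · rw [hqp]
    · have h3 : Mate T.leg p q := ⟨Ne.symm hqp, h2.symm⟩
      have h4 : q = mt p := hG.un p q (mt p) h3 (hmt p)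
      rw [hbm p q h3, h4]
      have h5 : o (mt p) = !o p := ho1 p
      rw [h5]
      cases o p <;> cases b p <;> rfl
  have hpass : ∀ v k, o (v, if Even (a v) then 3 - k else k + 2) = !o (v, k) :=
    fun v k => ho2 (v, k)
  have hb0 : ∀ v, b (v, 0) = !b (v, 3) := fun v => hbk v 0
  have hb1 : ∀ v, b (v, 1) = !b (v, 0) := fun v => hbk v 1
  have hb2 : ∀ v, b (v, 2) = !b (v, 1) := fun v => hbk v 2
  have hb3 : ∀ v, b (v, 3) = !b (v, 2) := fun v => hbk v 3
  refine ⟨fun s => N0 s ^^ N0 0, ?_, fun v hv => ?_, fun v hv => ?_⟩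
  · change (N0 0 ^^ N0 0) = false
    cases N0 0 <;> rfl
  · have p0 := hpass v 0
    have p1 := hpass v 1
    rw [if_pos hv] at p0 p1
    change o (v, 3) = _ at p0
    change o (v, 2) = _ at p1
    have k0 : N0 (T.leg v 0) = (o (v, 0) ^^ b (v, 0)) := hN0 (v, 0)
    have k1 : N0 (T.leg v 1) = (o (v, 1) ^^ b (v, 1)) := hN0 (v, 1)
    have k2 : N0 (T.leg v 2) = (o (v, 2) ^^ b (v, 2)) := hN0 (v, 2)
    have k3 : N0 (T.leg v 3) = (o (v, 3) ^^ b (v, 3)) := hN0 (v, 3)
    constructor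
    · change (N0 (T.leg v 0) ^^ N0 0) = (N0 (T.leg v 3) ^^ N0 0)
      rw [k0, k3, p0, hb0 v]
      cases o (v, 0) <;> cases b (v, 3) <;> cases N0 0 <;> rfl
    · change (N0 (T.leg v 1) ^^ N0 0) = (N0 (T.leg v 2) ^^ N0 0)
      rw [k1, k2, p1, hb2 v]
      cases o (v, 1) <;> cases b (v, 1) <;> cases N0 0 <;> rfl
  · have hv' : ¬ Even (a v) := Int.not_even_iff_odd.2 hv
    have p0 := hpass v 0
    have p1 := hpass v 1
    rw [if_neg hv'] at p0 p1
    change o (v, 2) = _ at p0
    change o (v, 3) = _ at p1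
    have k0 : N0 (T.leg v 0) = (o (v, 0) ^^ b (v, 0)) := hN0 (v, 0)
    have k1 : N0 (T.leg v 1) = (o (v, 1) ^^ b (v, 1)) := hN0 (v, 1)
    have k2 : N0 (T.leg v 2) = (o (v, 2) ^^ b (v, 2)) := hN0 (v, 2)
    have k3 : N0 (T.leg v 3) = (o (v, 3) ^^ b (v, 3)) := hN0 (v, 3)
    constructor
    · change (N0 (T.leg v 0) ^^ N0 0) = !(N0 (T.leg v 2) ^^ N0 0)
      rw [k0, k2, p0, hb2 v, hb1 v]
      cases o (v, 0) <;> cases b (v, 0) <;> cases N0 0 <;> rfl
    · change (N0 (T.leg v 1) ^^ N0 0) = !(N0 (T.leg v 3) ^^ N0 0)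
      rw [k1, k3, p1, hb3 v, hb2 v]
      cases o (v, 1) <;> cases b (v, 1) <;> cases N0 0 <;> rfl

end Pool.Agent.H63.CLK
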