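import Pool.Agent.H63.CLK.D_FlD

set_option autoImplicit false

/-!
# CLK part D, D_SReg: near real points the imaginary parts of the logarithms are small

Same method as `reg_near` (D_Pos): every condition is open in `p = (τ, z, σ)` and holds at the real point `D_Pos_p0 τ0 σ0`, where `hh x = log (2 sin (π x))` is real (`hh_real`) for real `0 < x < 1`, and `hh` is
continuous there (`hh_hasDerivAt`). Real arcs in `(0,1)`: `1 - τ0`, `1/2`, `τ0 - 1/2`, `σ0` (bounded corners; at ends `σ0 = csr τ0`), `θ0 = csr τ0 k - σ0 v k` (not an end; if the corner is outer `σ0 = 0`), and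
`θ0 (k-1) + θ0 k` (all four `θ0` are positive with sum `1`).
-/

namespace Pool.Agent.H63.CLK

open Pool.Agent.H63.VC hiding ext
open Pool.Agent.H63.VC3 Complex Filter Topology

variable {c : ℕ}

/-- The space of parameters. -/
private abbrev D_SReg_E (c : ℕ) : Type := (Fin c → ℂ) × (Fin c → ℂ) × (Fin c → Fin 4 → ℂ)

/-- The real point. -/
private def D_SReg_p0 (τ0 : Fin c → ℝ) (σ0 : Fin c → Fin 4 → ℝ) : D_SReg_E c :=
  (fun v => (τ0 v : ℂ), fun _ => 0, fun v k => (σ0 v k : ℂ))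

private theorem D_SReg_ev {E : Type*} [TopologicalSpace E] {p0 : E} {a : E → ℂ}
    (ha : ContinuousAt a p0) {x : ℝ} (hx : a p0 = x) (h0 : 0 < x) (h1 : x < 1) {η : ℝ}
    (hη : 0 < η) :
    ∀ᶠ p in 𝓝 p0, 0 < (a p).re ∧ (a p).re < 1 ∧ |(hh (a p)).im| < η := by
  have e1 : ∀ᶠ p in 𝓝 p0, 0 < (a p).re :=
    ContinuousAt.eventually_lt (f := fun _ : E => (0 : ℝ)) (g := fun p => (a p).re)
      continuousAt_const (Complex.continuous_re.continuousAt.comp ha)
      (by simp only [hx, Complex.ofReal_re]; exact h0)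
  have e2 : ∀ᶠ p in 𝓝 p0, (a p).re < 1 :=
    ContinuousAt.eventually_lt (g := fun _ : E => (1 : ℝ)) (f := fun p => (a p).re)
      (Complex.continuous_re.continuousAt.comp ha) continuousAt_const
      (by simp only [hx, Complex.ofReal_re]; exact h1)
  have hc : ContinuousAt (fun p => hh (a p)) p0 := by
    have h := (hh_hasDerivAt (a p0) (by rw [hx, Complex.ofReal_re]; exact h0)
      (by rw [hx, Complex.ofReal_re]; exact h1)).continuousAt
    exact ContinuousAt.comp (f := a) (g := hh) h ha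
  have e3 : ∀ᶠ p in 𝓝 p0, |(hh (a p)).im| < η :=
    ContinuousAt.eventually_lt (g := fun _ : E => η) (f := fun p => |(hh (a p)).im|)
      (Complex.continuous_im.continuousAt.comp hc).abs continuousAt_const
      (by simp only [hx, hh_real x h0 h1, Complex.ofReal_im, abs_zero]; exact hη)
  filter_upwards [e1, e2, e3] with p h1 h2 h3
  exact ⟨h1, h2, h3⟩

private theorem D_SReg_csr (v : Fin c) (k : Fin 4) :
    Continuous fun p : D_SReg_E c => csr (p.1 v) k := by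
  fin_cases k
  · change Continuous fun p : D_SReg_E c => 1 - p.1 v
    fun_prop
  · change Continuous fun p : D_SReg_E c => p.1 v
    fun_prop
  · change Continuous fun p : D_SReg_E c => 1 - p.1 v
    fun_prop
  · change Continuous fun p : D_SReg_E c => p.1 v
    fun_prop

private theorem D_SReg_csr_real (x : ℝ) (k : Fin 4) : csr (x : ℂ) k = ((csr x k : ℝ) : ℂ) := by
  fin_cases k
  · change (1 : ℂ) - x = ((1 - x : ℝ) : ℂ)
    push_cast
    ring
  · rfl
  · change (1 : ℂ) - x = ((1 - x : ℝ) : ℂ)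
    push_cast
    ring
  · rfl

private theorem D_SReg_csr_pos {x : ℝ} (h0 : 0 < x) (h1 : x < 1) (k : Fin 4) :
    0 < csr x k ∧ csr x k < 1 := by
  fin_cases k
  · change 0 < 1 - x ∧ 1 - x < 1
    constructor <;> linarith
  · exact ⟨h0, h1⟩
  · change 0 < 1 - x ∧ 1 - x < 1
    constructor <;> linarith
  · exact ⟨h0, h1⟩

private theorem D_SReg_csr_sum (x : ℝ) : ∑ k, csr x k = 2 := by
  rw [Fin.sum_univ_four]
  change 1 - x + x + (1 - x) + x = 2
  ring

/-- The real numbers at a corner. -/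
private theorem D_SReg_corner (T : TData c) {τ0 : Fin c → ℝ} {σ0 : Fin c → Fin 4 → ℝ}
    (h : Adm T τ0 σ0) (v : Fin c) (k : Fin 4) (hF : T.cor v k ∈ T.F) :
    0 < σ0 v k ∧ σ0 v k < 1 := by
  obtain ⟨t1, t2⟩ := h.tau v
  obtain ⟨c1, c2⟩ := D_SReg_csr_pos (by linarith : 0 < τ0 v) t2 k
  cases he : T.isEnd v
  · obtain ⟨h1, h2⟩ := h.pos v k hF he
    exact ⟨h1, by linarith⟩
  · rw [h.fin v k hF he]
    exact ⟨c1, c2⟩

/-- The real arcs `θ`. -/
private theorem D_SReg_the (T : TData c) {τ0 : Fin c → ℝ} {σ0 : Fin c → Fin 4 → ℝ}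
    (h : Adm T τ0 σ0) (v : Fin c) (he : T.isEnd v = false) (k : Fin 4) :
    0 < csr (τ0 v) k - σ0 v k := by
  obtain ⟨t1, t2⟩ := h.tau v
  obtain ⟨c1, c2⟩ := D_SReg_csr_pos (by linarith : 0 < τ0 v) t2 k
  by_cases hF : T.cor v k ∈ T.F
  · obtain ⟨h1, h2⟩ := h.pos v k hF he
    linarith
  · rw [h.out v k hF]
    linarith

private theorem D_SReg_the_sum (T : TData c) {τ0 : Fin c → ℝ} {σ0 : Fin c → Fin 4 → ℝ}
    (h : Adm T τ0 σ0) (v : Fin c) : ∑ k, (csr (τ0 v) k - σ0 v k) = 1 := by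
  rw [Finset.sum_sub_distrib, h.sumv, D_SReg_csr_sum]
  norm_num

private theorem D_SReg_two (t : Fin 4 → ℝ) (h : ∀ k, 0 < t k) (hs : ∑ k, t k = 1) (k : Fin 4) :
    t k < 1 ∧ 0 < t (k - 1) + t k ∧ t (k - 1) + t k < 1 := by
  rw [Fin.sum_univ_four] at hs
  have h0 := h 0
  have h1 := h 1
  have h2 := h 2
  have h3 := h 3
  fin_cases k
  · change t 0 < 1 ∧ 0 < t 3 + t 0 ∧ t 3 + t 0 < 1
    refine ⟨?_, ?_, ?_⟩ <;> linarith
  · change t 1 < 1 ∧ 0 < t 0 + t 1 ∧ t 0 + t 1 < 1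
    refine ⟨?_, ?_, ?_⟩ <;> linarith
  · change t 2 < 1 ∧ 0 < t 1 + t 2 ∧ t 1 + t 2 < 1
    refine ⟨?_, ?_, ?_⟩ <;> linarith
  · change t 3 < 1 ∧ 0 < t 2 + t 3 ∧ t 2 + t 3 < 1
    refine ⟨?_, ?_, ?_⟩ <;> linarith

theorem sreg_near {w : List TPiece} {T : TData c} (hT : T.Of w) (hN : T.Nice)
    {τ0 : Fin c → ℝ} {σ0 : Fin c → Fin 4 → ℝ} (h : Adm T τ0 σ0) {η : ℝ} (hη : 0 < η) :
    ∃ ε : ℝ, 0 < ε ∧ ∀ (τ z : Fin c → ℂ) (σ : Fin c → Fin 4 → ℂ),
      (∀ v k, T.cor v k ∉ T.F → σ v k = 0) → (∀ v, ∑ k, σ v k = 1) →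
      (∀ v, ‖τ v - τ0 v‖ < ε ∧ ‖z v‖ < ε) → (∀ v k, ‖σ v k - σ0 v k‖ < ε) → SReg T η τ z σ := by
  have cσ : ∀ v k, Continuous fun p : D_SReg_E c => p.2.2 v k := by
    intro v k
    fun_prop
  have cτ : ∀ v, Continuous fun p : D_SReg_E c => p.1 v := by
    intro v
    fun_prop
  have cz : ∀ v, Continuous fun p : D_SReg_E c => p.2.1 v := by
    intro v
    fun_prop
  -- conditions at `v`
  have E1 : ∀ᶠ p in 𝓝 (D_SReg_p0 τ0 σ0), ∀ v : Fin c,
      |(hh (1 - p.1 v)).im| < η ∧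
      (0 < (1 / 2 + p.2.1 v).re ∧ (1 / 2 + p.2.1 v).re < 1 ∧ |(hh (1 / 2 + p.2.1 v)).im| < η) ∧
      |(hh (p.1 v - 1 / 2 + p.2.1 v)).im| < η ∧ |(hh (p.1 v - 1 / 2 - p.2.1 v)).im| < η := by
    refine Filter.eventually_all.2 fun v => ?_
    obtain ⟨t1, t2⟩ := h.tau v
    have f1 := D_SReg_ev (p0 := D_SReg_p0 τ0 σ0) (a := fun p => 1 - p.1 v) (x := 1 - τ0 v)
      (continuous_const.sub (cτ v)).continuousAt
      (by change (1 : ℂ) - (τ0 v : ℂ) = _; push_cast; ring) (by linarith) (by linarith) hη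
    have f2 := D_SReg_ev (p0 := D_SReg_p0 τ0 σ0) (a := fun p => 1 / 2 + p.2.1 v) (x := 1 / 2)
      (continuous_const.add (cz v)).continuousAt
      (by change (1 / 2 : ℂ) + 0 = _; push_cast; ring) (by norm_num) (by norm_num) hη
    have f3 := D_SReg_ev (p0 := D_SReg_p0 τ0 σ0) (a := fun p => p.1 v - 1 / 2 + p.2.1 v)
      (x := τ0 v - 1 / 2) (((cτ v).sub continuous_const).add (cz v)).continuousAt
      (by change (τ0 v : ℂ) - 1 / 2 + 0 = _; push_cast; ring) (by linarith) (by linarith) hη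
    have f4 := D_SReg_ev (p0 := D_SReg_p0 τ0 σ0) (a := fun p => p.1 v - 1 / 2 - p.2.1 v)
      (x := τ0 v - 1 / 2) (((cτ v).sub continuous_const).sub (cz v)).continuousAt
      (by change (τ0 v : ℂ) - 1 / 2 - 0 = _; push_cast; ring) (by linarith) (by linarith) hη
    filter_upwards [f1, f2, f3, f4] with p g1 g2 g3 g4
    exact ⟨g1.2.2, g2, g3.2.2, g4.2.2⟩
  have E2 : ∀ᶠ p in 𝓝 (D_SReg_p0 τ0 σ0), ∀ v : Fin c, ∀ k : Fin 4, T.cor v k ∈ T.F →
      |(hh (p.2.2 v k)).im| < η := by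
    refine Filter.eventually_all.2 fun v => Filter.eventually_all.2 fun k => ?_
    by_cases hk : T.cor v k ∈ T.F
    · obtain ⟨h1, h2⟩ := D_SReg_corner T h v k hk
      filter_upwards [D_SReg_ev (p0 := D_SReg_p0 τ0 σ0) (cσ v k).continuousAt (x := σ0 v k) rfl
        h1 h2 hη] with p h3 _
      exact h3.2.2
    · exact Filter.Eventually.of_forall fun p hk' => absurd hk' hk
  have E3 : ∀ᶠ p in 𝓝 (D_SReg_p0 τ0 σ0), ∀ v : Fin c, ∀ k : Fin 4, T.isEnd v = false →
      |(hh (csr (p.1 v) k - p.2.2 v k)).im| < η ∧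
      (0 < (csr (p.1 v) (k - 1) - p.2.2 v (k - 1) + (csr (p.1 v) k - p.2.2 v k)).re ∧
      (csr (p.1 v) (k - 1) - p.2.2 v (k - 1) + (csr (p.1 v) k - p.2.2 v k)).re < 1 ∧
      |(hh (csr (p.1 v) (k - 1) - p.2.2 v (k - 1) + (csr (p.1 v) k - p.2.2 v k))).im| < η) := by
    refine Filter.eventually_all.2 fun v => Filter.eventually_all.2 fun k => ?_
    cases he : T.isEnd v
    · have ht := D_SReg_the T h v he
      have h2 := D_SReg_two (fun k => csr (τ0 v) k - σ0 v k) ht (D_SReg_the_sum T h v) k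
      have hv : ∀ l, csr ((D_SReg_p0 τ0 σ0).1 v) l - (D_SReg_p0 τ0 σ0).2.2 v l =
          ((csr (τ0 v) l - σ0 v l : ℝ) : ℂ) := by
        intro l
        have h2 : csr ((D_SReg_p0 τ0 σ0).1 v) l = ((csr (τ0 v) l : ℝ) : ℂ) := D_SReg_csr_real _ _
        rw [h2]
        push_cast
        rfl
      have cc : ∀ l, Continuous fun p : D_SReg_E c => csr (p.1 v) l - p.2.2 v l := fun l =>
        (D_SReg_csr v l).sub (cσ v l)
      have f1 := D_SReg_ev (p0 := D_SReg_p0 τ0 σ0) (cc k).continuousAt (hv k) (ht k) h2.1 hη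
      have f2 := D_SReg_ev (p0 := D_SReg_p0 τ0 σ0)
        (a := fun p => csr (p.1 v) (k - 1) - p.2.2 v (k - 1) + (csr (p.1 v) k - p.2.2 v k))
        (x := (csr (τ0 v) (k - 1) - σ0 v (k - 1)) + (csr (τ0 v) k - σ0 v k))
        ((cc (k - 1)).add (cc k)).continuousAt
        (by simp only [hv]; push_cast; ring) h2.2.1 h2.2.2 hη
      filter_upwards [f1, f2] with p g1 g2 _
      exact ⟨g1.2.2, g2⟩
    · exact Filter.Eventually.of_forall fun p hk' => absurd hk' (by decide)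
  obtain ⟨ε, hε, hall⟩ := Metric.eventually_nhds_iff.1 (E1.and (E2.and E3))
  refine ⟨ε, hε, fun τ z σ _ _ h3 h4 => ?_⟩
  have hd : dist ((τ, z, σ) : D_SReg_E c) (D_SReg_p0 τ0 σ0) < ε := by
    rw [Prod.dist_eq, Prod.dist_eq]
    refine max_lt ?_ (max_lt ?_ ?_)
    · exact (dist_pi_lt_iff hε).2 fun v => by
        rw [dist_eq_norm]
        exact (h3 v).1
    · exact (dist_pi_lt_iff hε).2 fun v => by
        rw [dist_eq_norm]
        change ‖z v - 0‖ < ε
        rw [sub_zero]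
        exact (h3 v).2
    · exact (dist_pi_lt_iff hε).2 fun v => (dist_pi_lt_iff hε).2 fun k => by
        rw [dist_eq_norm]
        exact h4 v k
  obtain ⟨F1, F2, F3⟩ := hall hd
  exact
    { kap := fun v => (F1 v).1
      alp := fun v => (F1 v).2.1.2.2
      zp := fun v => (F1 v).2.2.1
      zm := fun v => (F1 v).2.2.2
      sig := F2
      the := fun v k he => (F3 v k he).1
      two := fun v k he => (F3 v k he).2
      half := fun v => ⟨(F1 v).2.1.1, (F1 v).2.1.2.1⟩ }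

end Pool.Agent.H63.CLK
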