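import Pool.Agent.H63.CLK.D_RgT
import Pool.Agent.H63.CLK.D_FlZ
import Pool.Agent.H63.CLK.D_SReg
import Pool.Agent.H63.CLK.D_NEx
import Pool.Agent.H63.CLK.D_Main

set_option autoImplicit false

/-! # CLK part D, D_MainC: the complex volume -/

namespace Pool.Agent.H63.CLK

open Pool.Agent.H63.VC hiding ext
open Pool.Agent.H63.VC3 Pool.Agent.H63.VC5 Pool.Agent.H63.VC7 Complex

variable {c : ℕ}

theorem isComplexVolume_of_crit {w : List TPiece} {T : TData c} (hT : T.Of w) (hG : T.Good)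
    {τ0 : Fin c → ℝ} {σ0 : Fin c → Fin 4 → ℝ} (h : Adm T τ0 σ0) :
    ∃ ε : ℝ, 0 < ε ∧ ∀ (a : ℕ → ℤ) (τ z : Fin c → ℂ) (σ : Fin c → Fin 4 → ℂ) (A : ℕ → ℂ)
      (B : Fin c → ℂ), CritT T (fun v => a v) τ z σ A B →
      (∀ v, ‖τ v - τ0 v‖ < ε ∧ ‖z v‖ < ε) → (∀ v k, ‖σ v k - σ0 v k‖ < ε) →
      ∃ Z : ℂ, IsComplexVolume w a Z ∧ Cg Z (2 * Real.pi * I * Psi T (fun v => a v) τ z σ +
        (Real.pi : ℂ) ^ 2 / 2 * ∑ v : Fin c, ((a v : ℤ) : ℂ)) := by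
  have hN := nice_of_adm hT hG h
  have hF := D_Match_card h
  obtain ⟨X, hX⟩ := exists_match hG hN h
  obtain ⟨ε1, hε1, hreg⟩ := creg_near hT hN h
  obtain ⟨ε2, hε2, hsm⟩ := sreg_near hT hN h (η := 1 / (10 * (c + 1))) (by positivity)
  refine ⟨min ε1 ε2, lt_min hε1 hε2, fun a τ z σ A B hc h1 h2 => ?_⟩
  have hR := hreg τ z σ hc.out hc.sumv
    (fun v => ⟨(h1 v).1.trans_le (min_le_left _ _), (h1 v).2.trans_le (min_le_left _ _)⟩)
    (fun v k => (h2 v k).trans_le (min_le_left _ _))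
  have hS := hsm τ z σ hc.out hc.sumv
    (fun v => ⟨(h1 v).1.trans_le (min_le_right _ _), (h1 v).2.trans_le (min_le_right _ _)⟩)
    (fun v k => (h2 v k).trans_le (min_le_right _ _))
  obtain ⟨N, hn⟩ := exists_N hT hG hN (fun v : Fin c => a v)
  obtain ⟨D, hD⟩ := exists_dir hT hG h (fun v : Fin c => a v)
  obtain ⟨p1, p2⟩ := sol_pos hR.reg
  obtain ⟨l1, l2⟩ := sol_lg hR.reg
  have hη : (1 : ℝ) / (10 * (c + 1)) ≤ 1 / 10 := by
    apply one_div_le_one_div_of_le (by norm_num)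
    have : (0 : ℝ) ≤ c := Nat.cast_nonneg c
    linarith
  have hη' : 8 * (c : ℝ) * (1 / (10 * (c + 1))) ≤ 1 := by
    have : (0 : ℝ) ≤ c := Nat.cast_nonneg c
    rw [mul_one_div, div_le_one (by positivity)]
    linarith
  refine ⟨_, ⟨c, T, T.sX τ z σ true, T.sX τ z σ false, T.sZ σ, T.sZ' σ,
    T.fpar (fun v => a v) N X τ z σ, T.gpot (fun v => a v) N z, D, hT, ⟨p1,
    fun f hf j h0 h1 => ⟨(p2 f hf j h0 h1).1, (p2 f hf j h0 h1).2.1⟩,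
    (T.par τ z σ).s, (T.par τ z σ).U, ?_⟩, isFlats hn hR, glue_fpar hT hG hN hX hc hn,
    ⟨fun s v k => pass_fpar hn s v k,
      fun p q hpq hq => lon_fpar hT hG hN hX hc hR.reg hη hS hn p q hpq hq,
      fun p q hpq h0 => lon0_fpar hT hG hN hF hX hc hR.reg hη hη' hS hn p q hpq h0⟩, hD, rfl⟩,
    rog_total hT hG hN hX hc hR hn hD⟩
  rw [l1, l2]
  exact glue_congr (glue_par hT hG hN hc) _ _
    fun f hf j h0 h1 => ⟨(p2 f hf j h0 h1).2.2.1, (p2 f hf j h0 h1).2.2.2⟩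

end Pool.Agent.H63.CLK
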