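import Pool.Agent.H63.CLK.D_Nice

set_option autoImplicit false

/-! # CLK part D, D_Match: a perfect matching between twist regions and bounded faces -/

namespace Pool.Agent.H63.CLK

variable {c : ℕ}

/-- `X v` is the corner of the twist region `v` in a perfect matching between the twist regions and
the bounded faces. -/
structure TData.Match (T : TData c) (X : Fin c → Fin 4) : Prop where
  mem : ∀ v, T.cor v (X v) ∈ T.F
  inj : ∀ u v, T.cor u (X u) = T.cor v (X v) → u = v
  sur : ∀ f ∈ T.F, ∃ v, T.cor v (X v) = f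
  side : ∀ v, T.isEnd v = true → X v = 1 ∨ X v = 3

theorem D_Match_csr {t : ℝ} (ht : 1 / 2 < t ∧ t < 1) (k : Fin 4) :
    0 < csr t k ∧ csr t k < 1 := by
  obtain ⟨h1, h2⟩ := ht
  fin_cases k
  · change 0 < 1 - t ∧ 1 - t < 1
    constructor <;> linarith
  · change 0 < t ∧ t < 1
    constructor <;> linarith
  · change 0 < 1 - t ∧ 1 - t < 1
    constructor <;> linarith
  · change 0 < t ∧ t < 1
    constructor <;> linarith

theorem D_Match_nonneg {T : TData c} {τ : Fin c → ℝ} {σ : Fin c → Fin 4 → ℝ}
    (h : Adm T τ σ) (v : Fin c) (k : Fin 4) : 0 ≤ σ v k := by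
  by_cases h1 : T.cor v k ∈ T.F
  · cases h2 : T.isEnd v with
    | false => exact (h.pos v k h1 h2).1.le
    | true =>
      rw [h.fin v k h1 h2]
      exact (D_Match_csr (h.tau v) k).1.le
  · rw [h.out v k h1]

theorem D_Match_lt {T : TData c} {τ : Fin c → ℝ} {σ : Fin c → Fin 4 → ℝ}
    (h : Adm T τ σ) (v : Fin c) (k : Fin 4) : σ v k < 1 := by
  have h0 := D_Match_csr (h.tau v) k
  by_cases h1 : T.cor v k ∈ T.F
  · cases h2 : T.isEnd v with
    | false => exact lt_trans (h.pos v k h1 h2).2 h0.2
    | true =>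
      rw [h.fin v k h1 h2]
      exact h0.2
  · rw [h.out v k h1]
    exact one_pos

/-- The weight of the corners at the top and at the bottom. -/
theorem D_Match_tb {T : TData c} {τ : Fin c → ℝ} {σ : Fin c → Fin 4 → ℝ}
    (h : Adm T τ σ) (v : Fin c) (hv : T.isEnd v = false) : σ v 0 + σ v 2 < 1 := by
  have key : ∀ j, σ v j < csr (τ v) j := by
    intro j
    by_cases h4 : T.cor v j ∈ T.F
    · exact (h.pos v j h4 hv).2
    · rw [h.out v j h4]
      exact (D_Match_csr (h.tau v) j).1
  have h0 := key 0
  have h2 := key 2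
  have e0 : csr (τ v) 0 = 1 - τ v := rfl
  have e2 : csr (τ v) 2 = 1 - τ v := rfl
  have := (h.tau v).1
  rw [e0] at h0
  rw [e2] at h2
  linarith

/-- At an end the corners at the sides have weight more than one half. -/
theorem D_Match_end {T : TData c} (hN : T.Nice) {τ : Fin c → ℝ} {σ : Fin c → Fin 4 → ℝ}
    (h : Adm T τ σ) (v : Fin c) (hv : T.isEnd v = true) : 1 / 2 < σ v 1 + σ v 3 := by
  obtain ⟨n1, n2, n3, n4⟩ := hN.end0 v hv
  have f3 := h.fin v _ n3 hv
  have f4 := h.fin v _ n4 hv
  have o1 := h.out v _ n1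
  have o2 := h.out v _ n2
  have ht := (h.tau v).1
  generalize T.one v = i at *
  fin_cases i
  · have e3 : σ v 1 = τ v := f3
    have o2' : σ v 3 = 0 := o2
    rw [e3, o2']; linarith
  · have e4 : σ v 3 = τ v := f4
    have o1' : σ v 1 = 0 := o1
    rw [e4, o1']; linarith
  · have e3 : σ v 3 = τ v := f3
    have o2' : σ v 1 = 0 := o2
    rw [e3, o2']; linarith
  · have e4 : σ v 1 = τ v := f4
    have o1' : σ v 3 = 0 := o1
    rw [e4, o1']; linarith

theorem D_Match_sumB {T : TData c} {τ : Fin c → ℝ} {σ : Fin c → Fin 4 → ℝ} (h : Adm T τ σ)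
    (B : Finset ℕ) (hB : B ⊆ T.F) :
    ∑ v, ∑ k, (if T.cor v k ∈ B then σ v k else 0) = (B.card : ℝ) := by
  have h1 : ∀ v k, (if T.cor v k ∈ B then σ v k else 0) =
      ∑ f ∈ B, (if T.cor v k = f then σ v k else 0) := by
    intro v k
    rw [Finset.sum_ite_eq]
  simp only [h1]
  have h2' : ∑ v, ∑ k, ∑ f ∈ B, (if T.cor v k = f then σ v k else 0) =
      ∑ f ∈ B, ∑ v, ∑ k, (if T.cor v k = f then σ v k else 0) := by
    calc _ = ∑ v, ∑ f ∈ B, ∑ k, (if T.cor v k = f then σ v k else 0) := by
          refine Finset.sum_congr rfl fun v _ => ?_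
          rw [Finset.sum_comm]
      _ = _ := by rw [Finset.sum_comm]
  rw [h2', Finset.sum_congr rfl fun f hf => h.sumf f (hB hf)]
  simp

/-- The number of bounded faces is the number of twist regions. -/
theorem D_Match_card {T : TData c} {τ : Fin c → ℝ} {σ : Fin c → Fin 4 → ℝ} (h : Adm T τ σ) :
    T.F.card = c := by
  have h1 := D_Match_sumB h T.F (Finset.Subset.refl _)
  have h2 : ∀ v, ∑ k, (if T.cor v k ∈ T.F then σ v k else 0) = 1 := by
    intro v
    rw [← h.sumv v]
    refine Finset.sum_congr rfl fun k _ => ?_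
    split_ifs with h3
    · rfl
    · exact (h.out v k h3).symm
  simp only [h2] at h1
  simp only [Finset.sum_const, Finset.card_univ, Fintype.card_fin, nsmul_eq_mul, mul_one] at h1
  exact_mod_cast h1.symm

/-- At most two twist regions are ends. -/
theorem D_Match_two {T : TData c} (hG : T.Good) :
    (Finset.univ.filter fun v => T.isEnd v = true).card ≤ 2 := by
  by_contra hcon
  rw [not_le, Finset.two_lt_card] at hcon
  obtain ⟨u, hu, v, hv, w, hw, huv, huw, hvw⟩ := hcon
  have key : ∀ x, x ∈ (Finset.univ.filter fun v => T.isEnd v = true) → T.leg x (T.one x) = 0 := by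
    intro x hx
    rw [Finset.mem_filter] at hx
    have h2 := hx.2
    unfold TData.isEnd at h2
    exact of_decide_eq_true h2
  have mate : ∀ x y, x ≠ y → T.leg x (T.one x) = 0 → T.leg y (T.one y) = 0 →
      Mate T.leg (x, T.one x) (y, T.one y) := by
    intro x y hxy hx hy
    refine ⟨fun h => hxy (Prod.ext_iff.1 h).1, ?_⟩
    change T.leg x (T.one x) = T.leg y (T.one y)
    rw [hx, hy]
  have h1 := hG.un _ _ _ (mate u v huv (key u hu) (key v hv)) (mate u w huw (key u hu) (key w hw))
  exact hvw (Prod.ext_iff.1 h1).1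

theorem exists_match {T : TData c} (hG : T.Good) (hN : T.Nice) {τ : Fin c → ℝ}
    {σ : Fin c → Fin 4 → ℝ} (h : Adm T τ σ) : ∃ X, T.Match X := by
  classical
  -- the allowed corners
  let al : Fin c → Fin 4 → Prop := fun v k => T.cor v k ∈ T.F ∧ (T.isEnd v = true → k = 1 ∨ k = 3)
  let N : Fin c → Finset ℕ := fun v => (Finset.univ.filter (al v)).image (T.cor v)
  have hall : ∀ S : Finset (Fin c), S.card ≤ (S.biUnion N).card := by
    intro S
    set B := S.biUnion N with hB
    have hBF : B ⊆ T.F := by
      intro f hf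
      rw [hB, Finset.mem_biUnion] at hf
      obtain ⟨v, -, hv⟩ := hf
      rw [Finset.mem_image] at hv
      obtain ⟨k, hk, rfl⟩ := hv
      exact (Finset.mem_filter.1 hk).2.1
    have h1 := D_Match_sumB h B hBF
    have h2 : ∑ v ∈ S, ∑ k, (if al v k then σ v k else 0) ≤ (B.card : ℝ) := by
      rw [← h1]
      calc ∑ v ∈ S, ∑ k, (if al v k then σ v k else 0)
          ≤ ∑ v ∈ S, ∑ k, (if T.cor v k ∈ B then σ v k else 0) := by
            refine Finset.sum_le_sum fun v hv => Finset.sum_le_sum fun k _ => ?_
            by_cases h3 : al v k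
            · have h4 : T.cor v k ∈ B := by
                rw [hB, Finset.mem_biUnion]
                exact ⟨v, hv, Finset.mem_image.2 ⟨k, Finset.mem_filter.2 ⟨Finset.mem_univ _, h3⟩,
                  rfl⟩⟩
              rw [if_pos h3, if_pos h4]
            · rw [if_neg h3]
              split_ifs
              · exact D_Match_nonneg h v k
              · exact le_refl _
        _ ≤ ∑ v, ∑ k, (if T.cor v k ∈ B then σ v k else 0) := by
            refine Finset.sum_le_sum_of_subset_of_nonneg (Finset.subset_univ _) fun v _ _ => ?_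
            refine Finset.sum_nonneg fun k _ => ?_
            split_ifs
            · exact D_Match_nonneg h v k
            · exact le_refl _
    have h3 : ∀ v, T.isEnd v = false → ∑ k, (if al v k then σ v k else 0) = 1 := by
      intro v hv
      rw [← h.sumv v]
      refine Finset.sum_congr rfl fun k _ => ?_
      by_cases h4 : T.cor v k ∈ T.F
      · rw [if_pos ⟨h4, fun h5 => absurd h5 (by rw [hv]; decide)⟩]
      · rw [if_neg fun h5 => h4 h5.1, h.out v k h4]
    have h4 : ∀ v, T.isEnd v = true → 1 / 2 < ∑ k, (if al v k then σ v k else 0) := by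
      intro v hv
      refine lt_of_lt_of_le (D_Match_end hN h v hv) ?_
      have h5 : ∀ k, (k = 1 ∨ k = 3) → σ v k = (if al v k then σ v k else 0) := by
        intro k hk
        by_cases h6 : T.cor v k ∈ T.F
        · rw [if_pos ⟨h6, fun _ => hk⟩]
        · rw [if_neg fun h7 => h6 h7.1, h.out v k h6]
      have h6 : ∀ k, 0 ≤ (if al v k then σ v k else 0) := by
        intro k
        split_ifs
        · exact D_Match_nonneg h v k
        · exact le_refl _
      rw [Fin.sum_univ_four, ← h5 1 (Or.inl rfl), ← h5 3 (Or.inr rfl)]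
      linarith [h6 0, h6 2]
    -- the ends in `S`
    set E := S.filter fun v => T.isEnd v = true with hE
    have hE2 : E.card ≤ 2 := by
      refine le_trans (Finset.card_le_card ?_) (D_Match_two hG)
      intro v hv
      rw [hE, Finset.mem_filter] at hv
      exact Finset.mem_filter.2 ⟨Finset.mem_univ _, hv.2⟩
    have h5 : (S.card : ℝ) - 1 < ∑ v ∈ S, ∑ k, (if al v k then σ v k else 0) := by
      have h6 : ∑ v ∈ S, (1 - ∑ k, (if al v k then σ v k else 0)) =
          ∑ v ∈ E, (1 - ∑ k, (if al v k then σ v k else 0)) := by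
        rw [hE, Finset.sum_filter]
        refine Finset.sum_congr rfl fun v _ => ?_
        split_ifs with h7
        · rfl
        · rw [h3 v (by simpa using h7), sub_self]
      have h7 : ∑ v ∈ E, (1 - ∑ k, (if al v k then σ v k else 0)) < 1 := by
        rcases E.eq_empty_or_nonempty with h8 | h8
        · rw [h8, Finset.sum_empty]
          exact one_pos
        · have h9 : ∑ v ∈ E, (1 - ∑ k, (if al v k then σ v k else 0)) < ∑ v ∈ E, (1 / 2 : ℝ) := by
            refine Finset.sum_lt_sum_of_nonempty h8 fun v hv => ?_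
            have := h4 v (Finset.mem_filter.1 hv).2
            linarith
          have h10 : ∑ v ∈ E, (1 / 2 : ℝ) ≤ 1 := by
            rw [Finset.sum_const, nsmul_eq_mul]
            have : (E.card : ℝ) ≤ 2 := by exact_mod_cast hE2
            linarith
          linarith
      rw [← h6, Finset.sum_sub_distrib] at h7
      simp only [Finset.sum_const, nsmul_eq_mul, mul_one] at h7
      linarith
    have h6 : (S.card : ℝ) - 1 < B.card := lt_of_lt_of_le h5 h2
    have h7 : (S.card : ℝ) < B.card + 1 := by linarith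
    have h8 : S.card < B.card + 1 := by exact_mod_cast h7
    omega
  obtain ⟨g, hg, hgN⟩ := (Finset.all_card_le_biUnion_card_iff_exists_injective N).1 hall
  have h1 : ∀ v, ∃ k, al v k ∧ T.cor v k = g v := by
    intro v
    obtain ⟨k, hk, hk2⟩ := Finset.mem_image.1 (hgN v)
    exact ⟨k, (Finset.mem_filter.1 hk).2, hk2⟩
  choose X hX hX2 using h1
  refine ⟨X, fun v => (hX v).1, fun u v huv => ?_, fun f hf => ?_, fun v hv => (hX v).2 hv⟩
  · rw [hX2, hX2] at huv
    exact hg huv
  · have h2 : (Finset.univ.image g) = T.F := by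
      refine Finset.eq_of_subset_of_card_le ?_ ?_
      · intro f hf
        obtain ⟨v, -, rfl⟩ := Finset.mem_image.1 hf
        rw [← hX2 v]
        exact (hX v).1
      · rw [Finset.card_image_of_injective _ hg, Finset.card_univ, Fintype.card_fin,
          D_Match_card h]
    rw [← h2] at hf
    obtain ⟨v, -, hv⟩ := Finset.mem_image.1 hf
    exact ⟨v, by rw [hX2]; exact hv⟩

end Pool.Agent.H63.CLK
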