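import Pool.Agent.H63.CLK.D_Match
import Pool.Agent.H63.CLK.D_HypC

set_option autoImplicit false

/-!
# CLK part D, D_Ord: orders of the vertices

The strand `0` is smaller than the other strands, and `C_v` is smaller than the legs of `v`. In every
tetrahedron let `m` be the smallest vertex and `A_i` the vertex such that the edge `m A_i` belongs to
the pair `i` of opposite edges; `d i` is true if the edge `A_{i+1} A_{i+2}`, which belongs to the same
pair, is directed from `A_{i+1}` to `A_{i+2}`.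
-/

namespace Pool.Agent.H63.CLK

open Pool.Agent.H63.VC7.Hyp

variable {c : ℕ}

/-! ### The directions of the edges between the legs -/

/-- The corners where the directions are changed together with the direction at the corner `k`. -/
def mvd (k : Fin 4) : Finset (Fin 4) := if k = 1 ∨ k = 3 then {k} else {0, 2}

theorem mem_mvd (k : Fin 4) : k ∈ mvd k := by revert k; decide

/-- The invariants. -/
structure TData.Inv (T : TData c) (X : Fin c → Fin 4) (a : Fin c → ℤ) (x : Fin c → Fin 4 → Bool) :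
    Prop where
  par : ∀ v, x v 2 = x v 0 ↔ Odd (a v)
  one : ∀ v, T.isEnd v = true → x v (T.one v) = true ∧ x v (T.one v - 1) = false
  side : ∀ v, T.isEnd v = false → (X v = 1 ∨ X v = 3) → x v (X v + 2) ≠ x v 0
  top : ∀ v, T.isEnd v = false → ¬ (X v = 1 ∨ X v = 3) → x v 1 ≠ x v 3

/-- Initial directions. -/
def inx (o e : Bool) (i k j : Fin 4) : Bool :=
  if e = true then (if j = i then true else if j = i - 1 then false else
    if j = 0 ∨ j = 2 then (if o = true then decide (i = 0 ∨ i = 2) else !decide (i = 0 ∨ i = 2))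
    else true)
  else (if j = 0 then true else if j = 1 then false else if j = 2 then o else !decide (k = 1))

theorem D_Ord_key : ∀ (o e : Bool) (i k : Fin 4), ((inx o e i k 2 = inx o e i k 0) ↔ o = true) ∧
    (e = true → inx o e i k i = true ∧ inx o e i k (i - 1) = false) ∧
    (e = false → (k = 1 ∨ k = 3) → inx o e i k (k + 2) ≠ inx o e i k 0) ∧
    (e = false → ¬ (k = 1 ∨ k = 3) → inx o e i k 1 ≠ inx o e i k 3) := by decide

theorem D_Ord_init {T : TData c} (X : Fin c → Fin 4) (a : Fin c → ℤ) : ∃ x, T.Inv X a x := by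
  classical
  have h : ∀ v, ∃ u : Fin 4 → Bool, (u 2 = u 0 ↔ Odd (a v)) ∧
      (T.isEnd v = true → u (T.one v) = true ∧ u (T.one v - 1) = false) ∧
      (T.isEnd v = false → (X v = 1 ∨ X v = 3) → u (X v + 2) ≠ u 0) ∧
      (T.isEnd v = false → ¬ (X v = 1 ∨ X v = 3) → u 1 ≠ u 3) := by
    intro v
    obtain ⟨h1, h2⟩ := D_Ord_key (decide (Odd (a v))) (T.isEnd v) (T.one v) (X v)
    exact ⟨_, by rw [h1, decide_eq_true_iff], h2⟩
  choose x hx using h
  exact ⟨x, fun v => (hx v).1, fun v => (hx v).2.1, fun v => (hx v).2.2.1, fun v => (hx v).2.2.2⟩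

/-- The change of the directions at `v`. -/
def flp (X : Fin c → Fin 4) (v : Fin c) (x : Fin c → Fin 4 → Bool) (u : Fin c) (k : Fin 4) : Bool :=
  if u = v ∧ k ∈ mvd (X v) then !x u k else x u k

theorem D_Ord_flp {T : TData c} (hN : T.Nice) {X : Fin c → Fin 4} (hX : T.Match X)
    {a : Fin c → ℤ} {x : Fin c → Fin 4 → Bool} (h : T.Inv X a x) (v : Fin c) :
    T.Inv X a (flp X v x) := by
  have hne : ∀ u, u ≠ v → flp X v x u = x u := by
    intro u hu
    funext k
    unfold flp
    rw [if_neg fun h => hu h.1]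
  have heq : ∀ k, flp X v x v k = if k ∈ mvd (X v) then !x v k else x v k := by
    intro k
    unfold flp
    simp
  refine ⟨fun u => ?_, fun u hu => ?_, fun u hu hs => ?_, fun u hu hs => ?_⟩
  · by_cases huv : u = v
    · subst huv
      rw [heq, heq, ← h.par u]
      generalize x u = y
      generalize X u = k
      revert k
      generalize y 0 = y0
      generalize y 2 = y2
      revert y0 y2
      decide
    · rw [hne u huv]
      exact h.par u
  · by_cases huv : u = v
    · subst huv
      have h1 := h.one u hu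
      obtain ⟨n1, n2, -, -⟩ := hN.end0 u hu
      have h2 : X u ≠ T.one u := fun h3 => n1 (by rw [← h3]; exact hX.mem u)
      have h3 : X u ≠ T.one u - 1 := fun h3 => n2 (by rw [← h3]; exact hX.mem u)
      have hs := hX.side u hu
      have h4 : mvd (X u) = {X u} := by unfold mvd; rw [if_pos hs]
      rw [heq, heq, h4, if_neg (by rw [Finset.mem_singleton]; exact fun h => h2 h.symm),
        if_neg (by rw [Finset.mem_singleton]; exact fun h => h3 h.symm)]
      exact h1
    · rw [hne u huv]
      exact h.one u hu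
  · by_cases huv : u = v
    · subst huv
      have h1 := h.side u hu hs
      have h4 : mvd (X u) = {X u} := by unfold mvd; rw [if_pos hs]
      have h5 : X u + 2 ≠ X u := by generalize X u = k; revert k; decide
      have h6 : (0 : Fin 4) ≠ X u := by rcases hs with hs | hs <;> rw [hs] <;> decide
      rw [heq, heq, h4, if_neg (by rw [Finset.mem_singleton]; exact h5),
        if_neg (by rw [Finset.mem_singleton]; exact h6)]
      exact h1
    · rw [hne u huv]
      exact h.side u hu hs
  · by_cases huv : u = v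
    · subst huv
      have h1 := h.top u hu hs
      have h4 : mvd (X u) = {0, 2} := by unfold mvd; rw [if_neg hs]
      rw [heq, heq, h4, if_neg (by decide), if_neg (by decide)]
      exact h1
    · rw [hne u huv]
      exact h.top u hu hs

/-- The corner `k` of `v` is changed together with a corner of the matching at a face in `R`. -/
def mov (T : TData c) (X : Fin c → Fin 4) (R : Finset ℕ) (v : Fin c) (k : Fin 4) : Prop :=
  T.cor v (X v) ∈ R ∧ k ∈ mvd (X v)

theorem D_Ord_free {T : TData c} {X : Fin c → Fin 4} (hX : T.Match X)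
    {τ : Fin c → ℝ} {σ : Fin c → Fin 4 → ℝ} (h : Adm T τ σ) (R : Finset ℕ) (hR : R ⊆ T.F)
    (hne : R.Nonempty) : ∃ v k, T.cor v k ∈ R ∧ ¬ mov T X R v k := by
  classical
  by_contra hcon
  push Not at hcon
  have h1 := D_Match_sumB h R hR
  -- the weight of the changed corners
  have hw : ∀ v, ∑ k, (if k ∈ mvd (X v) then σ v k else 0) < 1 := by
    intro v
    by_cases hs : X v = 1 ∨ X v = 3
    · have h4 : mvd (X v) = {X v} := by unfold mvd; rw [if_pos hs]
      rw [h4]
      simp only [Finset.mem_singleton]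
      rw [Finset.sum_ite_eq' Finset.univ (X v) (σ v), if_pos (Finset.mem_univ _)]
      exact D_Match_lt h v _
    · have h4 : mvd (X v) = {0, 2} := by unfold mvd; rw [if_neg hs]
      have h5 : T.isEnd v = false := by
        cases h6 : T.isEnd v with
        | false => rfl
        | true => exact absurd (hX.side v h6) hs
      rw [h4, Fin.sum_univ_four, if_pos (by decide), if_neg (by decide), if_pos (by decide),
        if_neg (by decide)]
      have := D_Match_tb h v h5
      linarith
  have h2 : ∑ v, ∑ k, (if T.cor v k ∈ R then σ v k else 0) ≤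
      ∑ v, (if T.cor v (X v) ∈ R then ∑ k, (if k ∈ mvd (X v) then σ v k else 0) else 0) := by
    refine Finset.sum_le_sum fun v _ => ?_
    split_ifs with h3
    · refine Finset.sum_le_sum fun k _ => ?_
      by_cases h4 : T.cor v k ∈ R
      · rw [if_pos h4, if_pos (hcon v k h4).2]
      · rw [if_neg h4]
        split_ifs
        · exact D_Match_nonneg h v k
        · exact le_refl _
    · refine (Finset.sum_eq_zero fun k _ => ?_).le
      rw [if_neg fun h4 => h3 (hcon v k h4).1]
  have h3 : ∑ v, (if T.cor v (X v) ∈ R then ∑ k, (if k ∈ mvd (X v) then σ v k else 0) else 0) <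
      ∑ v, (if T.cor v (X v) ∈ R then (1 : ℝ) else 0) := by
    obtain ⟨f, hf⟩ := hne
    obtain ⟨v, hv⟩ := hX.sur f (hR hf)
    refine Finset.sum_lt_sum (fun u _ => ?_) ⟨v, Finset.mem_univ _, ?_⟩
    · split_ifs
      · exact (hw u).le
      · exact le_refl _
    · rw [hv, if_pos hf, if_pos hf]
      exact hw v
  have h4 : ∑ v, (if T.cor v (X v) ∈ R then (1 : ℝ) else 0) = R.card := by
    rw [← Finset.sum_filter, Finset.sum_const, nsmul_eq_mul, mul_one]
    congr 1
    refine Finset.card_bij (fun v _ => T.cor v (X v)) (fun v hv => (Finset.mem_filter.1 hv).2)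
      (fun u _ v _ huv => hX.inj u v huv) (fun f hf => ?_)
    obtain ⟨v, hv⟩ := hX.sur f (hR hf)
    exact ⟨v, Finset.mem_filter.2 ⟨Finset.mem_univ _, by rw [hv]; exact hf⟩, hv⟩
  linarith

theorem D_Ord_main {T : TData c} (hN : T.Nice) {X : Fin c → Fin 4} (hX : T.Match X)
    {τ : Fin c → ℝ} {σ : Fin c → Fin 4 → ℝ} (h : Adm T τ σ) (a : Fin c → ℤ) :
    ∀ (n : ℕ) (R : Finset ℕ), R.card = n → R ⊆ T.F → ∀ x, T.Inv X a x →
      ∃ x', T.Inv X a x' ∧ (∀ v k, ¬ mov T X R v k → x' v k = x v k) ∧
        ∀ f ∈ R, ∃ p q : Fin c × Fin 4, T.cor p.1 p.2 = f ∧ T.cor q.1 q.2 = f ∧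
          x' p.1 p.2 ≠ x' q.1 q.2 := by
  intro n
  induction n with
  | zero =>
    intro R hn _ x hx
    rw [Finset.card_eq_zero] at hn
    subst hn
    exact ⟨x, hx, fun _ _ _ => rfl, fun f hf => absurd hf (Finset.notMem_empty f)⟩
  | succ n ih =>
    intro R hn hR x hx
    have hne : R.Nonempty := by
      rw [← Finset.card_pos, hn]
      exact Nat.succ_pos n
    obtain ⟨u, l, hu, hmov⟩ := D_Ord_free hX h R hR hne
    obtain ⟨v, hv⟩ := hX.sur _ (hR hu)
    -- `v` is the twist region of the face of the corner `l` of `u`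
    have h1 : ∃ x1, T.Inv X a x1 ∧ (∀ v k, ¬ mov T X R v k → x1 v k = x v k) ∧
        x1 v (X v) ≠ x1 u l := by
      by_cases h2 : x v (X v) = x u l
      · refine ⟨flp X v x, D_Ord_flp hN hX hx v, fun w k hw => ?_, ?_⟩
        · unfold flp
          rw [if_neg]
          rintro ⟨rfl, h3⟩
          exact hw ⟨by rw [hv]; exact hu, h3⟩
        · have h3 : flp X v x v (X v) = !x v (X v) := by
            unfold flp
            rw [if_pos ⟨rfl, mem_mvd _⟩]
          have h4 : flp X v x u l = x u l := by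
            unfold flp
            rw [if_neg]
            rintro ⟨rfl, h5⟩
            exact hmov ⟨by rw [hv]; exact hu, h5⟩
          rw [h3, h4, h2]
          cases x u l <;> decide
      · exact ⟨x, hx, fun _ _ _ => rfl, h2⟩
    obtain ⟨x1, hx1, hx1', hne1⟩ := h1
    have hcard : (R.erase (T.cor u l)).card = n := by
      rw [Finset.card_erase_of_mem hu, hn]
      rfl
    obtain ⟨x2, hx2, hx2', hx2f⟩ := ih (R.erase (T.cor u l)) hcard
      (fun f hf => hR (Finset.mem_of_mem_erase hf)) x1 hx1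
    have hsub : ∀ w k, ¬ mov T X R w k → ¬ mov T X (R.erase (T.cor u l)) w k :=
      fun w k h3 h4 => h3 ⟨Finset.mem_of_mem_erase h4.1, h4.2⟩
    refine ⟨x2, hx2, fun w k hw => ?_, fun f hf => ?_⟩
    · rw [hx2' w k (hsub w k hw), hx1' w k hw]
    · by_cases h3 : f = T.cor u l
      · subst h3
        refine ⟨(v, X v), (u, l), hv, rfl, ?_⟩
        have h4 : x2 v (X v) = x1 v (X v) := by
          refine hx2' v (X v) fun h5 => ?_
          rw [mov, hv] at h5
          exact Finset.notMem_erase _ _ h5.1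
        have h5 : x2 u l = x1 u l := hx2' u l (hsub u l hmov)
        change x2 v (X v) ≠ x2 u l
        rw [h4, h5]
        exact hne1
      · exact hx2f f (Finset.mem_erase.2 ⟨h3, hf⟩)

/-! ### The directions of the diagonals -/

theorem D_Ord_diag : ∀ c0 c1 c2 c3 : Bool, ¬ (c0 = c1 ∧ c1 = c2 ∧ c2 = c3) →
    ∃ y : Bool, ∀ k : Fin 4, ∃ i : Fin 3,
      (![![!y, c0, c1], ![y, !c1, !c0], ![!y, !c3, !c2], ![y, c2, c3]] : Fin 4 → Fin 3 → Bool) k i ≠
      (![![!y, c0, c1], ![y, !c1, !c0], ![!y, !c3, !c2], ![y, c2, c3]] : Fin 4 → Fin 3 → Bool) k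
        (i + 1) := by decide

theorem D_Ord_diag0 : ∀ c1 c2 : Bool, ∀ k : Fin 4, ∃ i : Fin 3,
      (![![!true, true, c1], ![true, !c1, !true], ![!true, !false, !c2], ![true, c2, false]] :
        Fin 4 → Fin 3 → Bool) k i ≠
      (![![!true, true, c1], ![true, !c1, !true], ![!true, !false, !c2], ![true, c2, false]] :
        Fin 4 → Fin 3 → Bool) k (i + 1) := by decide

theorem D_Ord_chb : ∀ (i : Fin 4) (u : Fin 4 → Bool),
    ((if i = 1 ∨ i = 3 then u (cna i 0) else !u (cna i 0)) =
      (if i = 1 ∨ i = 3 then u (cna i 1) else !u (cna i 1)) ∧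
    (if i = 1 ∨ i = 3 then u (cna i 1) else !u (cna i 1)) =
      (if i = 1 ∨ i = 3 then u (cna i 2) else !u (cna i 2)) ∧
    (if i = 1 ∨ i = 3 then u (cna i 2) else !u (cna i 2)) =
      (if i = 1 ∨ i = 3 then u (cna i 3) else !u (cna i 3))) →
    ∀ k l, u k = u l := by decide

theorem D_Ord_chb0 : ∀ (i : Fin 4) (u : Fin 4 → Bool), u i = true → u (i - 1) = false →
    (if i = 1 ∨ i = 3 then u (cna i 0) else !u (cna i 0)) = true ∧
    (if i = 1 ∨ i = 3 then u (cna i 3) else !u (cna i 3)) = false := by decide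

/-- The directions in a polygon. -/
theorem D_Ord_fan (e : ℕ → Bool) (d : ℕ) (h : ∃ i < d, ∃ j < d, e i ≠ e j) :
    ∃ w : ℕ → Bool, w 1 = e 0 ∧ w (d - 1) = !e (d - 1) ∧
      ∀ j, 0 < j → j + 1 < d → ¬ (e j = w j ∧ w (j + 1) = !w j) := by
  classical
  refine ⟨fun j => if ∀ i, 0 < i → i < j → e i = e 0 then e 0 else !e (d - 1), ?_, ?_, ?_⟩
  · change (if _ then _ else _) = _
    rw [if_pos]
    intro i h1 h2
    omega
  · change (if _ then _ else _) = _
    split_ifs with h1
    · -- then `e (d - 1) ≠ e 0`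
      obtain ⟨i, hi, j, hj, hij⟩ := h
      have h2 : ∀ k, k < d → k ≠ d - 1 → e k = e 0 := by
        intro k hk hk2
        rcases Nat.eq_zero_or_pos k with h3 | h3
        · rw [h3]
        · exact h1 k h3 (by omega)
      have h3 : e (d - 1) ≠ e 0 := by
        intro h4
        have h5 : ∀ k, k < d → e k = e 0 := by
          intro k hk
          by_cases h6 : k = d - 1
          · rw [h6, h4]
          · exact h2 k hk h6
        exact hij (by rw [h5 i hi, h5 j hj])
      revert h3
      generalize e (d - 1) = p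
      generalize e 0 = q
      revert p q
      decide
    · rfl
  · intro j hj hjd
    rintro ⟨h1, h2⟩
    change e j = (if _ then _ else _) at h1
    change (if _ then _ else _) = !(if _ then _ else _) at h2
    by_cases h3 : ∀ i, 0 < i → i < j → e i = e 0
    · rw [if_pos h3] at h1 h2
      have h4 : ∀ i, 0 < i → i < j + 1 → e i = e 0 := by
        intro i hi hij
        by_cases h5 : i = j
        · rw [h5, h1]
        · exact h3 i hi (by omega)
      rw [if_pos h4] at h2
      revert h2
      cases e 0 <;> decide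
    · have h4 : ¬ ∀ i, 0 < i → i < j + 1 → e i = e 0 := by
        intro h5
        exact h3 fun i hi hij => h5 i hi (by omega)
      rw [if_neg h3, if_neg h4] at h2
      revert h2
      cases e (d - 1) <;> decide

theorem D_Ord_neq : ∀ p q r : Bool, ¬ (p = r ∧ q = !r) →
    ∃ i : Fin 3, (![p, !q, r] : Fin 3 → Bool) i ≠ (![p, !q, r] : Fin 3 → Bool) (i + 1) := by decide

/-- The vertices can be ordered. -/
theorem exists_dir {w : List TPiece} {T : TData c} (hT : T.Of w) (hG : T.Good) {τ : Fin c → ℝ}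
    {σ : Fin c → Fin 4 → ℝ} (h : Adm T τ σ) (a : Fin c → ℤ) : ∃ D, T.IsDir a D := by
  classical
  have hN := nice_of_adm hT hG h
  obtain ⟨X, hX⟩ := exists_match hG hN h
  obtain ⟨x0, hx0⟩ := D_Ord_init (T := T) X a
  obtain ⟨x, hx, -, hf⟩ := D_Ord_main hN hX h a _ T.F rfl (Finset.Subset.refl _) x0 hx0
  -- the diagonals of the quadrilaterals
  have hy : ∀ v, ∃ y : Bool, (T.isEnd v = true → y = true) ∧ ∀ k i0, i0 = T.one v → ∃ i : Fin 3,
      (![![!y, (if i0 = 1 ∨ i0 = 3 then x v (cna i0 0) else !x v (cna i0 0)),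
          (if i0 = 1 ∨ i0 = 3 then x v (cna i0 1) else !x v (cna i0 1))],
        ![y, !(if i0 = 1 ∨ i0 = 3 then x v (cna i0 1) else !x v (cna i0 1)),
          !(if i0 = 1 ∨ i0 = 3 then x v (cna i0 0) else !x v (cna i0 0))],
        ![!y, !(if i0 = 1 ∨ i0 = 3 then x v (cna i0 3) else !x v (cna i0 3)),
          !(if i0 = 1 ∨ i0 = 3 then x v (cna i0 2) else !x v (cna i0 2))],
        ![y, (if i0 = 1 ∨ i0 = 3 then x v (cna i0 2) else !x v (cna i0 2)),
          (if i0 = 1 ∨ i0 = 3 then x v (cna i0 3) else !x v (cna i0 3))]] :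
            Fin 4 → Fin 3 → Bool) k i ≠
      (![![!y, (if i0 = 1 ∨ i0 = 3 then x v (cna i0 0) else !x v (cna i0 0)),
          (if i0 = 1 ∨ i0 = 3 then x v (cna i0 1) else !x v (cna i0 1))],
        ![y, !(if i0 = 1 ∨ i0 = 3 then x v (cna i0 1) else !x v (cna i0 1)),
          !(if i0 = 1 ∨ i0 = 3 then x v (cna i0 0) else !x v (cna i0 0))],
        ![!y, !(if i0 = 1 ∨ i0 = 3 then x v (cna i0 3) else !x v (cna i0 3)),
          !(if i0 = 1 ∨ i0 = 3 then x v (cna i0 2) else !x v (cna i0 2))],
        ![y, (if i0 = 1 ∨ i0 = 3 then x v (cna i0 2) else !x v (cna i0 2)),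
          (if i0 = 1 ∨ i0 = 3 then x v (cna i0 3) else !x v (cna i0 3))]] :
            Fin 4 → Fin 3 → Bool) k (i + 1) := by
    intro v
    cases hv : T.isEnd v with
    | true =>
      refine ⟨true, fun _ => rfl, ?_⟩
      rintro k i0 rfl
      obtain ⟨h1, h2⟩ := hx.one v hv
      obtain ⟨h3, h4⟩ := D_Ord_chb0 (T.one v) (x v) h1 h2
      rw [h3, h4]
      exact D_Ord_diag0 _ _ k
    | false =>
      have h1 : ¬ ∀ k l, x v k = x v l := by
        intro h2
        by_cases h3 : X v = 1 ∨ X v = 3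
        · exact hx.side v hv h3 (h2 _ _)
        · exact hx.top v hv h3 (h2 _ _)
      obtain ⟨y, hy⟩ := D_Ord_diag _ _ _ _ fun h2 => h1 (D_Ord_chb (T.one v) (x v) h2)
      refine ⟨y, fun h2 => absurd h2 (by decide), ?_⟩
      rintro k i0 rfl
      exact hy k
  choose y hy1 hy2 using hy
  -- the faces
  have hw : ∀ f, ∃ w : ℕ → Bool, f ∈ T.F →
      (w 1 = x (T.bd f 0).1 (T.bd f 0).2 ∧
      w (T.deg f - 1) = !x (T.bd f (T.deg f - 1)).1 (T.bd f (T.deg f - 1)).2 ∧
      ∀ j, 0 < j → j + 1 < T.deg f →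
        ¬ (x (T.bd f j).1 (T.bd f j).2 = w j ∧ w (j + 1) = !w j)) := by
    intro f
    by_cases hfF : f ∈ T.F
    · obtain ⟨p, q, hp, hq, hpq⟩ := hf f hfF
      obtain ⟨i, hi, hi2⟩ := ((hT.bdy f hfF).mem p).1 hp
      obtain ⟨j, hj, hj2⟩ := ((hT.bdy f hfF).mem q).1 hq
      obtain ⟨w, hw⟩ := D_Ord_fan (fun j => x (T.bd f j).1 (T.bd f j).2) (T.deg f)
        ⟨i, hi, j, hj, by rw [hi2, hj2]; exact hpq⟩
      exact ⟨w, fun _ => hw⟩
    · exact ⟨fun _ => true, fun h1 => absurd h1 hfF⟩
  choose w hw using hw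
  refine ⟨⟨x, y, w⟩, hx.par, fun v hv => ?_, fun v k => hy2 v k _ rfl, fun f hfF h2 => ?_,
    fun f hfF => (hw f hfF).1, fun f hfF => (hw f hfF).2.1, fun f hfF j h1 h2 => ?_⟩
  · obtain ⟨h1, h2⟩ := hx.one v hv
    exact ⟨hy1 v hv, D_Ord_chb0 (T.one v) (x v) h1 h2⟩
  · obtain ⟨p, q, hp, hq, hpq⟩ := hf f hfF
    obtain ⟨i, hi, hi2⟩ := ((hT.bdy f hfF).mem p).1 hp
    obtain ⟨j, hj, hj2⟩ := ((hT.bdy f hfF).mem q).1 hq
    rw [h2] at hi hj
    change x (T.bd f 0).1 (T.bd f 0).2 ≠ x (T.bd f 1).1 (T.bd f 1).2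
    have h3 : i ≠ j := by
      rintro rfl
      rw [hi2] at hj2
      rw [hj2] at hpq
      exact hpq rfl
    rcases Nat.lt_or_gt_of_ne h3 with h4 | h4
    · obtain rfl : i = 0 := by omega
      obtain rfl : j = 1 := by omega
      rw [hi2, hj2]
      exact hpq
    · obtain rfl : i = 1 := by omega
      obtain rfl : j = 0 := by omega
      rw [hi2, hj2]
      exact fun h5 => hpq h5.symm
  · exact D_Ord_neq _ _ _ ((hw f hfF).2.2 j h1 h2)

end Pool.Agent.H63.CLK
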