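import Pool.Agent.H63.CLK.C_Conn
import Pool.Agent.H63.CLK.D_Nice
import Pool.Agent.H63.CLK.D_Ver

set_option autoImplicit false

/-!
# CLK part D, D_Pot: functions on the legs and functions on the faces

Generalisation of `exists_chi` (C_Chi) from `ZMod 2` to `ℂ`, with signs.

(a) `exists e : Fin c → ℤ` with values `±1` such that for all `z : ℕ → ℂ` with `∑ k, (-1)^k z (leg v k) = 0` (all `v`) there is `χ : ℕ → ℂ` with
`χ (cor v k) = χ (cor v (k-1)) + e v * (-1)^k * z (leg v k)`. Same induction over both sweeps as in C_Chi; the level condition is now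
`χ (gaps (j+1)) = χ (gaps j) + (-1)^j * z (str j)`: recursive predicate with a sign `Lev ε χ z (a :: b :: g) (s :: t) = (χ b = χ a + ε z s ∧ Lev (-ε) χ z (b :: g) t)`;
`e = (-1)^i` for a twist region at the positions `i, i + 1` (leg `0` (UL) at the position `i`, leg `1` (UR) at `i + 1`, leg `2` (LR) at `i + 1`, leg `3` (LL) at `i`):
`χ (cor 0) = χ (cor 3) + (-1)^i z (leg 0)`, `χ (cor 1) = χ (cor 0) - (-1)^i z (leg 1)`, `χ (cor 2) = χ (cor 1) + (-1)^i z (leg 2)`, `χ (cor 3) = χ (cor 2) - (-1)^i z (leg 3)`.
`cup i`: new gap with the value `χ a + (-1)^i z (new strand)`; `cap i`: the strands at `i`, `i + 1` and the gaps `i`, `i + 2` are identified.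
The invariant must contain the signs: a list `E` of signs parallel to `S.cor`, `R.leg` (or `∃ E`, `Forall₂`/`zip`), independent of `z`.

(b) `e v * (-1)^k = -(e v' * (-1)^k')` for mates `(v,k)`, `(v',k')`. First, `ZMod 2`: `exists_chi` for `z = 1` gives `χ₂` with `χ₂ 0 = 0`, `χ₂ 1 = 1`,
`χ₂ (cor v k) = χ₂ (cor v (k-1)) + 1`. If `leg ≠ 0` then one of `cor v k`, `cor v (k-1)` is bounded (`hN.inn`, `hN.end0`) and `adj` (D_Ver) gives
`cor v k = cor v' (k'-1)` or `cor v (k-1) = cor v' k'`; by `χ₂` and `cor_mem` (outer corners are `0` or `1`) both equations hold (the other two corners have the same value of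
`χ₂` and both are bounded, where `adj` applies, or both outer). Then with `χ` of (a) for `z = 1`: `e v (-1)^k = χ (cor v k) - χ (cor v (k-1)) = -(e v' (-1)^k')`. For the
strand `0` (exactly one pair of mates, if any): the sum of `e v (-1)^k` over all legs is `0`, all other pairs cancel (`Finset.sum_involution` with the mate, on the legs `≠ 0`).

(c) Given `ω`, put `z x := e v (-1)^k ω v k` for any leg with `leg v k = x` (well defined by (b) and `h1`; `0` if there is no such leg); `∑ k (-1)^k z (leg v k) = e v ∑ k ω v k = 0`.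
-/

namespace Pool.Agent.H63.CLK

variable {c : ℕ}

/-- the sign of the leg `k` -/
private def D_Pot_sg : Fin 4 → ℂ := ![1, -1, 1, -1]

private theorem D_Pot_sg_mul (k : Fin 4) : D_Pot_sg k * D_Pot_sg k = 1 := by
  fin_cases k <;> norm_num [D_Pot_sg]

private theorem D_Pot_sg_sum : ∑ k, D_Pot_sg k = 0 := by
  rw [Fin.sum_univ_four]
  change (1 : ℂ) + -1 + 1 + -1 = 0
  ring

/-- The level condition with signs. -/
private def D_Pot_Lev (χ z : ℕ → ℂ) : ℂ → List ℕ → List ℕ → Prop
  | _, [_], [] => True
  | ε, a :: b :: g, s :: t => χ b = χ a + ε * z s ∧ D_Pot_Lev χ z (-ε) (b :: g) t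
  | _, _, _ => False

private theorem D_Pot_Lev_cons (χ z : ℕ → ℂ) (ε : ℂ) (a b s : ℕ) (g t : List ℕ) :
    D_Pot_Lev χ z ε (a :: b :: g) (s :: t) ↔
      χ b = χ a + ε * z s ∧ D_Pot_Lev χ z (-ε) (b :: g) t := Iff.rfl

private theorem D_Pot_split (χ z : ℕ → ℂ) (a : ℕ) (B t : List ℕ) :
    ∀ (ε : ℂ) (A s : List ℕ), A.length = s.length →
      (D_Pot_Lev χ z ε (A ++ a :: B) (s ++ t) ↔
        D_Pot_Lev χ z ε (A ++ [a]) s ∧ D_Pot_Lev χ z ((-1) ^ A.length * ε) (a :: B) t)
  | ε, [], [], _ => by
      show D_Pot_Lev χ z ε (a :: B) t ↔ True ∧ D_Pot_Lev χ z ((-1) ^ 0 * ε) (a :: B) t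
      rw [true_and, pow_zero, one_mul]
  | ε, [x], [y], _ => by
      show (χ a = χ x + ε * z y ∧ D_Pot_Lev χ z (-ε) (a :: B) t) ↔
        (χ a = χ x + ε * z y ∧ True) ∧ D_Pot_Lev χ z ((-1) ^ 1 * ε) (a :: B) t
      rw [and_true, pow_one, neg_one_mul]
  | ε, x :: x' :: A, y :: s, h => by
      have ih := D_Pot_split χ z a B t (-ε) (x' :: A) s (by simpa using h)
      have e1 : (-1 : ℂ) ^ (x' :: A).length * -ε = (-1) ^ (x :: x' :: A).length * ε := by
        simp only [List.length_cons]
        ring
      rw [e1] at ih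
      simp only [List.cons_append] at ih ⊢
      rw [D_Pot_Lev_cons, D_Pot_Lev_cons, ih, and_assoc]
  | _, [], _ :: _, h => by simp at h
  | _, _ :: _, [], h => by simp at h
  | _, [x], y :: y' :: s, h => by simp at h

private theorem D_Pot_congr {χ χ' z : ℕ → ℂ} : ∀ (ε : ℂ) (g s : List ℕ),
    (∀ x ∈ g, χ' x = χ x) → D_Pot_Lev χ z ε g s → D_Pot_Lev χ' z ε g s
  | _, [_], [], _, _ => trivial
  | ε, a :: b :: g, s :: t, h, hl =>
      ⟨by rw [h b (by simp), h a (by simp)]; exact hl.1,
        D_Pot_congr (-ε) (b :: g) t (fun x hx => h x (List.mem_cons_of_mem _ hx)) hl.2⟩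
  | _, [], _, _, hl => hl.elim
  | _, [_], _ :: _, _, hl => hl.elim
  | _, _ :: _ :: _, [], _, hl => hl.elim

private theorem D_Pot_map {χ z : ℕ → ℂ} (f h : ℕ → ℕ) : ∀ (ε : ℂ) (g s : List ℕ),
    D_Pot_Lev (χ ∘ f) (z ∘ h) ε g s → D_Pot_Lev χ z ε (g.map f) (s.map h)
  | _, [_], [], _ => trivial
  | ε, a :: b :: g, s :: t, hl => ⟨hl.1, D_Pot_map f h (-ε) (b :: g) t hl.2⟩
  | _, [], _, hl => hl.elim
  | _, [_], _ :: _, hl => hl.elim
  | _, _ :: _ :: _, [], hl => hl.elim

private theorem D_Pot_head {χ z : ℕ → ℂ} {a b : ℕ} (hab : χ a = χ b) : ∀ (ε : ℂ) (r t : List ℕ),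
    D_Pot_Lev χ z ε (b :: r) t → D_Pot_Lev χ z ε (a :: r) t
  | _, [], [], _ => trivial
  | _, c :: r, s :: t, hl => ⟨by rw [hab]; exact hl.1, hl.2⟩
  | _, [], _ :: _, hl => hl.elim
  | _, _ :: _, [], hl => hl.elim

/-- The corner condition. -/
private def D_Pot_Cor (χ z : ℕ → ℂ) (x : Fin 4 → ℕ) (y : (Fin 4 → ℕ) × ℂ) : Prop :=
  ∀ k, χ (x k) = χ (x (k - 1)) + y.2 * D_Pot_sg k * z (y.1 k)

private structure D_Pot_Inv (S : Sweep) (R : Strands) (E : List ℂ) : Prop where
  len : S.gaps.length = R.str.length + 1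
  el : R.leg.length = E.length
  es : ∀ e ∈ E, e * e = 1
  gl : ∀ x ∈ S.gaps, x < S.nxt
  cl : ∀ x ∈ S.cor, ∀ k, x k < S.nxt
  ext : ∀ z : ℕ → ℂ, (∀ x ∈ R.leg, ∑ k, D_Pot_sg k * z (x k) = 0) →
    ∃ χ : ℕ → ℂ, D_Pot_Lev χ z 1 S.gaps R.str ∧
      List.Forall₂ (D_Pot_Cor χ z) S.cor (R.leg.zip E)

private theorem D_Pot_ident_lt {a b x n : ℕ} (ha : a < n) (hx : x < n) : ident a b x < n := by
  unfold ident
  split
  · exact lt_of_le_of_lt (min_le_left a b) ha
  · exact hx

private theorem D_Pot_ident_chi {χ : ℕ → ℂ} {a b : ℕ} (h : χ a = χ b) (x : ℕ) :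
    χ (ident a b x) = χ x := by
  unfold ident
  split
  · rename_i hx
    subst hx
    rcases le_total a b with h1 | h1
    · rw [min_eq_left h1, max_eq_right h1, h]
    · rw [min_eq_right h1, max_eq_left h1, h]
  · rfl

private theorem D_Pot_ident_two (a b : ℕ) : ident a b a = ident a b b := by
  unfold ident
  rcases lt_trichotomy a b with h | h | h
  · rw [max_eq_right h.le, min_eq_left h.le, if_neg h.ne, if_pos rfl]
  · subst h; rfl
  · rw [max_eq_left h.le, min_eq_right h.le, if_pos rfl, if_neg h.ne]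

private theorem D_Pot_upd {χ : ℕ → ℂ} {n : ℕ} {v : ℂ} {x : ℕ} (h : x < n) :
    Function.update χ n v x = χ x := Function.update_of_ne h.ne _ _

private theorem D_Pot_cor_upd {χ z : ℕ → ℂ} {n : ℕ} {v : ℂ} {l : List (Fin 4 → ℕ)}
    {l' : List ((Fin 4 → ℕ) × ℂ)}
    (hl : ∀ x ∈ l, ∀ k, x k < n) (h : List.Forall₂ (D_Pot_Cor χ z) l l') :
    List.Forall₂ (D_Pot_Cor (Function.update χ n v) z) l l' := by
  refine List.Forall₂.imp ?_ ((List.forall₂_and_left l l').2 ⟨hl, h⟩)
  intro x y hxy k
  rw [D_Pot_upd (hxy.1 k), D_Pot_upd (hxy.1 (k - 1))]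
  exact hxy.2 k

private theorem D_Pot_step_cup {S S' : Sweep} {R R' : Strands} {E : List ℂ} (i : ℕ)
    (h : D_Pot_Inv S R E) (hS : S.step (.cup i) = some S') (hR : R.step (.cup i) = some R') :
    D_Pot_Inv S' R' E := by
  simp only [Sweep.step] at hS
  split at hS
  case h_2 => exact absurd hS (by simp)
  case h_1 a r hd =>
    simp only [Strands.step, Option.some.injEq] at hS hR
    subst hS hR
    have hg : S.gaps = S.gaps.take i ++ a :: r := by rw [← hd, List.take_append_drop]
    have hi : i < S.gaps.length := by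
      by_contra hcon
      rw [List.drop_eq_nil_of_le (not_lt.mp hcon)] at hd
      exact absurd hd (by simp)
    have hl := h.len
    have hAl : (S.gaps.take i).length = i := by rw [List.length_take]; omega
    have hsl : (R.str.take i).length = i := by rw [List.length_take]; omega
    have hlen : r.length + i = R.str.length := by
      have := congrArg List.length hg
      rw [List.length_append, hAl, List.length_cons] at this
      omega
    have hmA : ∀ x ∈ S.gaps.take i, x < S.nxt := fun x hx => h.gl x (List.mem_of_mem_take hx)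
    have hma : a < S.nxt := h.gl a (by rw [hg]; simp)
    have hmr : ∀ x ∈ r, x < S.nxt := fun x hx => h.gl x (by rw [hg]; simp [hx])
    refine ⟨?_, h.el, h.es, ?_, ?_, ?_⟩
    · simp only [List.length_append, List.length_cons, hAl, hsl, List.length_drop]
      omega
    · intro x hx
      show x < S.nxt + 1
      simp only [List.mem_append, List.mem_cons] at hx
      rcases hx with hx | rfl | rfl | rfl | hx
      · have := hmA x hx; omega
      · omega
      · omega
      · omega
      · have := hmr x hx; omega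
    · intro x hx k
      have := h.cl x hx k
      show x k < S.nxt + 1
      omega
    · intro z hz
      obtain ⟨χ, h2, h3⟩ := h.ext z hz
      rw [hg, ← List.take_append_drop i R.str,
        D_Pot_split χ z a r _ _ _ _ (by rw [hAl, hsl])] at h2
      refine ⟨Function.update χ S.nxt
        (χ a + (-1) ^ (S.gaps.take i).length * 1 * z R.nxt), ?_, ?_⟩
      · show D_Pot_Lev _ z 1 (S.gaps.take i ++ a :: S.nxt :: a :: r)
          (R.str.take i ++ R.nxt :: R.nxt :: R.str.drop i)
        rw [D_Pot_split _ z a _ _ _ _ _ (by rw [hAl, hsl])]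
        refine ⟨D_Pot_congr _ _ _ ?_ h2.1, ?_, ?_, D_Pot_congr (χ := χ) _ _ _ ?_ ?_⟩
        · intro x hx
          simp only [List.mem_append, List.mem_singleton] at hx
          rcases hx with hx | rfl
          · exact D_Pot_upd (hmA x hx)
          · exact D_Pot_upd hma
        · rw [Function.update_self, D_Pot_upd hma]
        · rw [Function.update_self, D_Pot_upd hma]
          ring
        · intro x hx
          simp only [List.mem_cons] at hx
          rcases hx with rfl | hx
          · exact D_Pot_upd hma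
          · exact D_Pot_upd (hmr x hx)
        · rw [neg_neg]
          exact h2.2
      · exact D_Pot_cor_upd h.cl h3

private theorem D_Pot_step_tw {S S' : Sweep} {R R' : Strands} {E : List ℂ} (i : ℕ)
    (h : D_Pot_Inv S R E) (hS : S.step (.tw i) = some S') (hR : R.step (.tw i) = some R') :
    D_Pot_Inv S' R' (E ++ [(-1) ^ i]) := by
  simp only [Sweep.step] at hS
  split at hS
  case h_2 => exact absurd hS (by simp)
  case h_1 a b c r hd =>
    simp only [Strands.step] at hR
    split at hR
    case h_2 => exact absurd hR (by simp)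
    case h_1 a' b' t hd' =>
      simp only [Option.some.injEq] at hS hR
      subst hS hR
      have hg : S.gaps = S.gaps.take i ++ a :: b :: c :: r := by rw [← hd, List.take_append_drop]
      have hs : R.str = R.str.take i ++ a' :: b' :: t := by rw [← hd', List.take_append_drop]
      have hi : i < S.gaps.length := by
        by_contra hcon
        rw [List.drop_eq_nil_of_le (not_lt.mp hcon)] at hd
        exact absurd hd (by simp)
      have hl := h.len
      have hAl : (S.gaps.take i).length = i := by rw [List.length_take]; omega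
      have hsl : (R.str.take i).length = i := by rw [List.length_take]; omega
      have hlen : r.length = t.length := by
        have h1 := congrArg List.length hg
        have h2 := congrArg List.length hs
        rw [List.length_append, hAl] at h1
        rw [List.length_append, hsl] at h2
        simp only [List.length_cons] at h1 h2
        omega
      have hmA : ∀ x ∈ S.gaps.take i, x < S.nxt := fun x hx => h.gl x (List.mem_of_mem_take hx)
      have hma : a < S.nxt := h.gl a (by rw [hg]; simp)
      have hmb : b < S.nxt := h.gl b (by rw [hg]; simp)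
      have hmc : c < S.nxt := h.gl c (by rw [hg]; simp)
      have hmr : ∀ x ∈ r, x < S.nxt := fun x hx => h.gl x (by rw [hg]; simp [hx])
      refine ⟨?_, ?_, ?_, ?_, ?_, ?_⟩
      · simp only [List.length_append, List.length_cons, hAl, hsl]
        omega
      · simp only [List.length_append, List.length_cons, List.length_nil, h.el]
      · intro e he
        rw [List.mem_append, List.mem_singleton] at he
        rcases he with he | rfl
        · exact h.es e he
        · rw [← mul_pow]
          norm_num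
      · intro x hx
        show x < S.nxt + 1
        simp only [List.mem_append, List.mem_cons] at hx
        rcases hx with hx | rfl | rfl | rfl | hx
        · have := hmA x hx; omega
        · omega
        · omega
        · omega
        · have := hmr x hx; omega
      · intro x hx k
        show x k < S.nxt + 1
        simp only [List.mem_append, List.mem_singleton] at hx
        rcases hx with hx | rfl
        · have := h.cl x hx k
          omega
        · fin_cases k
          · show S.nxt < S.nxt + 1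
            omega
          · show c < S.nxt + 1
            omega
          · show b < S.nxt + 1
            omega
          · show a < S.nxt + 1
            omega
      · intro z hz
        obtain ⟨χ, h2, h3⟩ := h.ext z (fun x hx => hz x (List.mem_append_left _ hx))
        have hz' : z R.nxt - z (R.nxt + 1) + z b' - z a' = 0 := by
          have := hz ![R.nxt, R.nxt + 1, b', a'] (by simp)
          rw [Fin.sum_univ_four] at this
          change 1 * z R.nxt + -1 * z (R.nxt + 1) + 1 * z b' + -1 * z a' = 0 at this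
          linear_combination this
        rw [hg, hs, D_Pot_split χ z a _ _ _ _ _ (by rw [hAl, hsl]), D_Pot_Lev_cons,
          D_Pot_Lev_cons, neg_neg] at h2
        obtain ⟨h2, hb, hc, h4⟩ := h2
        rw [hAl, mul_one] at hb hc h4
        have hca : χ c = χ a + (-1) ^ i * z R.nxt + -(-1) ^ i * z (R.nxt + 1) := by
          rw [hc, hb]
          linear_combination (-(-1) ^ i) * hz'
        refine ⟨Function.update χ S.nxt (χ a + (-1) ^ i * z R.nxt), ?_, ?_⟩
        · show D_Pot_Lev _ z 1 (S.gaps.take i ++ a :: S.nxt :: c :: r)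
            (R.str.take i ++ R.nxt :: (R.nxt + 1) :: t)
          rw [D_Pot_split _ z a _ _ _ _ _ (by rw [hAl, hsl]), hAl, mul_one]
          refine ⟨D_Pot_congr _ _ _ ?_ h2, ?_, ?_, D_Pot_congr (χ := χ) _ _ _ ?_ ?_⟩
          · intro x hx
            simp only [List.mem_append, List.mem_singleton] at hx
            rcases hx with hx | rfl
            · exact D_Pot_upd (hmA x hx)
            · exact D_Pot_upd hma
          · rw [Function.update_self, D_Pot_upd hma]
          · rw [Function.update_self, D_Pot_upd hmc, hca]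
          · intro x hx
            simp only [List.mem_cons] at hx
            rcases hx with rfl | hx
            · exact D_Pot_upd hmc
            · exact D_Pot_upd (hmr x hx)
          · rw [neg_neg]
            exact h4
        · show List.Forall₂ _ (S.cor ++ [![S.nxt, c, b, a]])
            ((R.leg ++ [![R.nxt, R.nxt + 1, b', a']]).zip (E ++ [(-1) ^ i]))
          rw [List.zip_append h.el]
          refine List.rel_append (D_Pot_cor_upd h.cl h3) (List.Forall₂.cons ?_ List.Forall₂.nil)
          intro k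
          fin_cases k
          · show Function.update χ S.nxt (χ a + (-1) ^ i * z R.nxt) S.nxt =
              Function.update χ S.nxt (χ a + (-1) ^ i * z R.nxt) a + (-1) ^ i * 1 * z R.nxt
            rw [Function.update_self, D_Pot_upd hma, mul_one]
          · show Function.update χ S.nxt (χ a + (-1) ^ i * z R.nxt) c =
              Function.update χ S.nxt (χ a + (-1) ^ i * z R.nxt) S.nxt +
                (-1) ^ i * -1 * z (R.nxt + 1)
            rw [Function.update_self, D_Pot_upd hmc, hca]
            ring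
          · show Function.update χ S.nxt (χ a + (-1) ^ i * z R.nxt) b =
              Function.update χ S.nxt (χ a + (-1) ^ i * z R.nxt) c + (-1) ^ i * 1 * z b'
            rw [D_Pot_upd hmb, D_Pot_upd hmc, hc]
            ring
          · show Function.update χ S.nxt (χ a + (-1) ^ i * z R.nxt) a =
              Function.update χ S.nxt (χ a + (-1) ^ i * z R.nxt) b + (-1) ^ i * -1 * z a'
            rw [D_Pot_upd hma, D_Pot_upd hmb, hb]
            ring

private theorem D_Pot_step_cap {S S' : Sweep} {R R' : Strands} {E : List ℂ} (i : ℕ)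
    (h : D_Pot_Inv S R E) (hS : S.step (.cap i) = some S') (hR : R.step (.cap i) = some R') :
    D_Pot_Inv S' R' E := by
  simp only [Sweep.step] at hS
  split at hS
  case h_2 => exact absurd hS (by simp)
  case h_1 a g b r hd =>
    split_ifs at hS with hab
    simp only [Strands.step] at hR
    split at hR
    case h_2 => exact absurd hR (by simp)
    case h_1 a' b' t hd' =>
      simp only [Option.some.injEq] at hS hR
      subst hS hR
      have hg : S.gaps = S.gaps.take i ++ a :: g :: b :: r := by rw [← hd, List.take_append_drop]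
      have hs : R.str = R.str.take i ++ a' :: b' :: t := by rw [← hd', List.take_append_drop]
      have hi : i < S.gaps.length := by
        by_contra hcon
        rw [List.drop_eq_nil_of_le (not_lt.mp hcon)] at hd
        exact absurd hd (by simp)
      have hl := h.len
      have hAl : (S.gaps.take i).length = i := by rw [List.length_take]; omega
      have hsl : (R.str.take i).length = i := by rw [List.length_take]; omega
      have hlen : r.length = t.length := by
        have h1 := congrArg List.length hg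
        have h2 := congrArg List.length hs
        rw [List.length_append, hAl] at h1
        rw [List.length_append, hsl] at h2
        simp only [List.length_cons] at h1 h2
        omega
      have hma : a < S.nxt := h.gl a (by rw [hg]; simp)
      refine ⟨?_, ?_, h.es, ?_, ?_, ?_⟩
      · simp only [List.length_map, List.length_append, List.length_cons, hAl, hsl]
        omega
      · rw [List.length_map]
        exact h.el
      · intro x hx
        show x < S.nxt
        obtain ⟨y, hy, rfl⟩ := List.mem_map.1 hx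
        refine D_Pot_ident_lt hma (h.gl y ?_)
        rw [hg]
        simp only [List.mem_append, List.mem_cons] at hy ⊢
        tauto
      · intro x hx k
        obtain ⟨y, hy, rfl⟩ := List.mem_map.1 hx
        exact D_Pot_ident_lt hma (h.cl y hy k)
      · intro z hz
        obtain ⟨χ, h2, h3⟩ := h.ext (fun x => z (ident a' b' x)) (fun x hx =>
          hz (fun k => ident a' b' (x k)) (List.mem_map.2 ⟨x, hx, rfl⟩))
        rw [hg, hs, D_Pot_split χ _ a _ _ _ _ _ (by rw [hAl, hsl]), D_Pot_Lev_cons,
          D_Pot_Lev_cons, neg_neg] at h2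
        obtain ⟨h2, hb, hc, h4⟩ := h2
        have hχ : χ a = χ b := by
          rw [hc, hb, D_Pot_ident_two a' b']
          ring
        have hcomp : χ ∘ ident a b = χ := funext fun x => D_Pot_ident_chi hχ x
        refine ⟨χ, ?_, ?_⟩
        · refine D_Pot_map _ _ _ _ _ ?_
          rw [hcomp, D_Pot_split χ _ a _ _ _ _ _ (by rw [hAl, hsl])]
          exact ⟨h2, D_Pot_head hχ _ _ _ h4⟩
        · show List.Forall₂ (D_Pot_Cor χ z) (S.cor.map (fun x k => ident a b (x k)))
            ((R.leg.map (fun x k => ident a' b' (x k))).zip E)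
          rw [List.zip_map_left, List.forall₂_map_left_iff, List.forall₂_map_right_iff]
          refine List.Forall₂.imp ?_ h3
          intro x y hxy k
          rw [D_Pot_ident_chi hχ, D_Pot_ident_chi hχ]
          exact hxy k

private theorem D_Pot_run : ∀ (w : List TPiece) {S S' : Sweep} {R R' : Strands} {E : List ℂ},
    D_Pot_Inv S R E → sweep w S = some S' → strands w R = some R' → ∃ E', D_Pot_Inv S' R' E'
  | [], S, S', R, R', E, h, hS, hR => by
      simp only [sweep, strands, Option.some.injEq] at hS hR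
      subst hS hR
      exact ⟨E, h⟩
  | x :: w, S, S', R, R', E, h, hS, hR => by
      simp only [sweep, strands, Option.bind_eq_some_iff] at hS hR
      obtain ⟨S1, h1, h2⟩ := hS
      obtain ⟨R1, h3, h4⟩ := hR
      cases x with
      | cup i => exact D_Pot_run w (D_Pot_step_cup i h h1 h3) h2 h4
      | cap i => exact D_Pot_run w (D_Pot_step_cap i h h1 h3) h2 h4
      | tw i => exact D_Pot_run w (D_Pot_step_tw i h h1 h3) h2 h4

private theorem D_Pot_init : D_Pot_Inv Sweep.init Strands.init [] := by
  refine ⟨rfl, rfl, ?_, ?_, ?_, ?_⟩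
  · intro e he
    simp at he
  · intro x hx
    show x < 2
    simp only [Sweep.init, List.mem_cons, List.not_mem_nil, or_false] at hx
    omega
  · intro x hx
    simp [Sweep.init] at hx
  · intro z _
    refine ⟨fun x => if x = 0 then 0 else z 0, ?_, List.Forall₂.nil⟩
    show _ ∧ True
    refine ⟨?_, trivial⟩
    show z 0 = 0 + 1 * z 0
    rw [zero_add, one_mul]

/-- (a) -/
private theorem D_Pot_a {w : List TPiece} {T : TData c} (hT : T.Of w) :
    ∃ e : Fin c → ℂ, (∀ v, e v * e v = 1) ∧ ∀ z : ℕ → ℂ,
      (∀ v, ∑ k, D_Pot_sg k * z (T.leg v k) = 0) →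
      ∃ χ : ℕ → ℂ, ∀ v k, χ (T.cor v k) = χ (T.cor v (k - 1)) +
        e v * D_Pot_sg k * z (T.leg v k) := by
  obtain ⟨S, hS, hgaps, hcor, _⟩ := hT.tmpl
  obtain ⟨R, z0, hR, hstr, hleg⟩ := hT.legs
  obtain ⟨E, hI⟩ := D_Pot_run w D_Pot_init hS hR
  have hlen : R.leg.length = c := by
    have := congrArg List.length hleg
    rw [List.length_ofFn, List.length_map] at this
    exact this.symm
  have hE : E.length = c := by rw [← hI.el, hlen]
  have hlv : ∀ v : Fin c, T.leg v = fun k => ident 0 z0 ((R.leg[v.1]'(by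
      rw [hlen]; exact v.2)) k) := by
    intro v
    have h1 : (List.ofFn T.leg)[v.1]'(by simp) = T.leg v := by simp
    rw [← h1]
    simp only [hleg, List.getElem_map]
  refine ⟨fun v => E[v.1]'(by rw [hE]; exact v.2), fun v => hI.es _ (List.getElem_mem _), ?_⟩
  intro z hz
  obtain ⟨χ, _, h3⟩ := hI.ext (fun x => z (ident 0 z0 x)) (by
    intro x hx
    have hm : (fun k => ident 0 z0 (x k)) ∈ List.ofFn T.leg := by
      rw [hleg]
      exact List.mem_map.2 ⟨x, hx, rfl⟩
    obtain ⟨v, hv⟩ := List.mem_ofFn.1 hm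
    have := hz v
    rw [hv] at this
    exact this)
  refine ⟨χ, ?_⟩
  intro v k
  rw [hcor] at h3
  have h5 := (List.forall₂_iff_get.1 h3).2 v.1 (by simp) (by
    rw [List.length_zip, hI.el, min_self, hE]
    exact v.2)
  simp only [List.get_eq_getElem, List.getElem_ofFn, List.getElem_zip] at h5
  have h6 := h5 k
  rw [hlv v]
  exact h6

/-- one of the two corners at a leg `≠ 0` is bounded -/
private theorem D_Pot_bdd {T : TData c} (hN : T.Nice) (v : Fin c) (k : Fin 4)
    (h0 : T.leg v k ≠ 0) : T.cor v k ∈ T.F ∨ T.cor v (k - 1) ∈ T.F := by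
  cases hv : T.isEnd v with
  | false => exact hN.inn v k hv
  | true =>
    obtain ⟨-, -, h1, h2⟩ := hN.end0 v hv
    have h3 : T.leg v (T.one v) = 0 := by
      unfold TData.isEnd at hv
      exact of_decide_eq_true hv
    have h4 : k ≠ T.one v := by
      rintro rfl
      exact h0 h3
    have h6 : ∀ i k : Fin 4, k ≠ i → (k = i + 1 ∨ k = i + 2 ∨ k - 1 = i + 2) := by decide
    have h5 := h6 (T.one v) k h4
    rcases h5 with rfl | rfl | h5
    · exact Or.inl h1
    · exact Or.inl h2
    · right
      rw [h5]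
      exact h2

/-- the faces at the two ends of a strand `≠ 0` -/
private theorem D_Pot_face {w : List TPiece} {T : TData c} (hT : T.Of w) (hG : T.Good)
    (hN : T.Nice) {p q : Fin c × Fin 4} (h : Mate T.leg p q) (h0 : T.leg p.1 p.2 ≠ 0) :
    T.cor q.1 (q.2 - 1) = T.cor p.1 p.2 ∧ T.cor p.1 (p.2 - 1) = T.cor q.1 q.2 := by
  obtain ⟨χ, c0, c1, h2⟩ := exists_chi hT (fun _ => 1) (fun v => by decide)
  have h3 : ∀ x y : ℕ, (x = 0 ∨ x = 1) → (y = 0 ∨ y = 1) → χ x = χ y → x = y := by
    rintro x y (rfl | rfl) (rfl | rfl) hxy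
    · rfl
    · rw [c0, c1] at hxy
      exact absurd hxy (by decide)
    · rw [c0, c1] at hxy
      exact absurd hxy (by decide)
    · rfl
  have h4 : ∀ v k, T.cor v k ∉ T.F → T.cor v k = 0 ∨ T.cor v k = 1 := fun v k hk =>
    (cor_mem hT v k).resolve_left hk
  have hpp := h2 p.1 p.2
  have hqq := h2 q.1 q.2
  -- from one equation to the other
  have key : ∀ x y x' y' : Fin c × Fin 4, T.cor x.1 x.2 = T.cor y.1 y.2 →
      χ (T.cor x'.1 x'.2) = χ (T.cor x.1 x.2) + 1 → χ (T.cor y'.1 y'.2) = χ (T.cor y.1 y.2) + 1 →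
      (T.cor x'.1 x'.2 ∈ T.F → T.cor x'.1 x'.2 = T.cor y'.1 y'.2) →
      (T.cor y'.1 y'.2 ∈ T.F → T.cor x'.1 x'.2 = T.cor y'.1 y'.2) →
      T.cor x'.1 x'.2 = T.cor y'.1 y'.2 := by
    intro x y x' y' hxy hx hy hx1 hy1
    by_cases hx2 : T.cor x'.1 x'.2 ∈ T.F
    · exact hx1 hx2
    by_cases hy2 : T.cor y'.1 y'.2 ∈ T.F
    · exact hy1 hy2
    exact h3 _ _ (h4 _ _ hx2) (h4 _ _ hy2) (by rw [hx, hy, hxy])
  have two : ∀ s : ZMod 2, s + 1 + 1 = s := by decide
  have a1 := adj hT hG h
  have a2 := adj hT hG h.symm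
  rcases D_Pot_bdd hN p.1 p.2 h0 with hb | hb
  · have e1 := a1.1 hb
    refine ⟨e1, ?_⟩
    refine key (q.1, q.2 - 1) p (p.1, p.2 - 1) q e1 ?_ ?_ ?_ ?_
    · show χ (T.cor p.1 (p.2 - 1)) = χ (T.cor q.1 (q.2 - 1)) + 1
      rw [e1, hpp, two]
    · show χ (T.cor q.1 q.2) = χ (T.cor p.1 p.2) + 1
      rw [← e1, hqq]
    · exact a2.2
    · exact a2.1
  · have e1 := a2.2 hb
    refine ⟨?_, e1⟩
    refine key (p.1, p.2 - 1) q (q.1, q.2 - 1) p e1 ?_ ?_ ?_ ?_
    · show χ (T.cor q.1 (q.2 - 1)) = χ (T.cor p.1 (p.2 - 1)) + 1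
      rw [e1, hqq, two]
    · show χ (T.cor p.1 p.2) = χ (T.cor q.1 q.2) + 1
      rw [← e1, hpp]
    · exact a1.2
    · exact a1.1

/-- (b) -/
private theorem D_Pot_b {w : List TPiece} {T : TData c} (hT : T.Of w) (hG : T.Good)
    (hN : T.Nice) (e : Fin c → ℂ) (χ : ℕ → ℂ)
    (hχ : ∀ v k, χ (T.cor v k) = χ (T.cor v (k - 1)) + e v * D_Pot_sg k)
    (p q : Fin c × Fin 4) (h : Mate T.leg p q) :
    e p.1 * D_Pot_sg p.2 + e q.1 * D_Pot_sg q.2 = 0 := by
  classical
  have main : ∀ p q : Fin c × Fin 4, Mate T.leg p q → T.leg p.1 p.2 ≠ 0 →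
      e p.1 * D_Pot_sg p.2 + e q.1 * D_Pot_sg q.2 = 0 := by
    intro p q h h0
    obtain ⟨e1, e2⟩ := D_Pot_face hT hG hN h h0
    have h1 := hχ p.1 p.2
    have h2 := hχ q.1 q.2
    rw [e1] at h2
    rw [e2] at h1
    linear_combination -h1 - h2
  by_cases h0 : T.leg p.1 p.2 = 0
  swap
  · exact main p q h h0
  choose mt hmt using hG.ex
  have hinv : ∀ p, mt (mt p) = p := fun p => hG.un (mt p) (mt (mt p)) p (hmt _) (hmt p).symm
  have hmp : mt p = q := hG.un p _ _ (hmt p) h
  have hmq : mt q = p := by rw [← hmp, hinv]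
  have h1 : ∑ x ∈ ((Finset.univ : Finset (Fin c × Fin 4)).erase p).erase q,
      e x.1 * D_Pot_sg x.2 = 0 := by
    refine Finset.sum_involution (fun x _ => mt x) ?_ ?_ ?_ ?_
    · intro x hx
      rw [Finset.mem_erase, Finset.mem_erase] at hx
      refine main x (mt x) (hmt x) ?_
      intro hx0
      exact hx.1 (hG.un p x q ⟨Ne.symm hx.2.1, h0.trans hx0.symm⟩ h)
    · intro x _ _
      exact (hmt x).1.symm
    · intro x hx
      rw [Finset.mem_erase, Finset.mem_erase] at hx ⊢
      refine ⟨?_, ?_, Finset.mem_univ _⟩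
      · intro hxq
        exact hx.2.1 (by rw [← hinv x, hxq, hmq])
      · intro hxp
        exact hx.1 (by rw [← hinv x, hxp, hmp])
    · intro x _
      exact hinv x
  have h2 : ∑ x : Fin c × Fin 4, e x.1 * D_Pot_sg x.2 = 0 := by
    rw [Fintype.sum_prod_type]
    simp only [← Finset.mul_sum, D_Pot_sg_sum, mul_zero, Finset.sum_const_zero]
  have h3 := Finset.add_sum_erase Finset.univ (fun x : Fin c × Fin 4 => e x.1 * D_Pot_sg x.2)
    (Finset.mem_univ p)
  have h4 := Finset.add_sum_erase (Finset.univ.erase p)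
    (fun x : Fin c × Fin 4 => e x.1 * D_Pot_sg x.2)
    (Finset.mem_erase.mpr ⟨h.1.symm, Finset.mem_univ q⟩)
  rw [h1] at h4
  rw [h2, ← h4] at h3
  linear_combination h3

theorem exists_pot {w : List TPiece} {T : TData c} (hT : T.Of w) (hG : T.Good) (hN : T.Nice)
    (ω : Fin c → Fin 4 → ℂ) (h1 : ∀ p q, Mate T.leg p q → ω p.1 p.2 + ω q.1 q.2 = 0)
    (h2 : ∀ v, ∑ k, ω v k = 0) :
    ∃ χ : ℕ → ℂ, ∀ v k, χ (T.cor v k) = χ (T.cor v (k - 1)) + ω v k := by
  classical
  obtain ⟨e, he, ha⟩ := D_Pot_a hT
  obtain ⟨χ₁, hχ₁⟩ := ha (fun _ => 1) (fun v => by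
    simp only [mul_one]
    exact D_Pot_sg_sum)
  have hb := D_Pot_b hT hG hN e χ₁ (fun v k => by rw [hχ₁ v k, mul_one])
  -- the function on the strands
  let z : ℕ → ℂ := fun x => if h : ∃ p : Fin c × Fin 4, T.leg p.1 p.2 = x then
    e h.choose.1 * D_Pot_sg h.choose.2 * ω h.choose.1 h.choose.2 else 0
  have hz : ∀ v k, z (T.leg v k) = e v * D_Pot_sg k * ω v k := by
    intro v k
    have h : ∃ p : Fin c × Fin 4, T.leg p.1 p.2 = T.leg v k := ⟨(v, k), rfl⟩
    have hzz : z (T.leg v k) = e h.choose.1 * D_Pot_sg h.choose.2 * ω h.choose.1 h.choose.2 :=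
      dif_pos h
    have hsp := h.choose_spec
    rw [hzz]
    generalize h.choose = p at hsp ⊢
    by_cases hp : p = (v, k)
    · rw [hp]
    · have hm : Mate T.leg p (v, k) := ⟨hp, hsp⟩
      have h3 := hb p (v, k) hm
      have h4 := h1 p (v, k) hm
      have h5 : e p.1 * D_Pot_sg p.2 = -(e v * D_Pot_sg k) := eq_neg_of_add_eq_zero_left h3
      have h6 : ω p.1 p.2 = -ω v k := eq_neg_of_add_eq_zero_left h4
      rw [h5, h6]
      ring
  obtain ⟨χ, hχ⟩ := ha z (fun v => by
    have h3 : ∀ k, D_Pot_sg k * z (T.leg v k) = e v * ω v k := by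
      intro k
      rw [hz]
      linear_combination e v * ω v k * D_Pot_sg_mul k
    simp only [h3]
    rw [← Finset.mul_sum, h2, mul_zero])
  refine ⟨χ, fun v k => ?_⟩
  rw [hχ v k, hz]
  have h3 := he v
  have h4 := D_Pot_sg_mul k
  linear_combination ω v k * (D_Pot_sg k * D_Pot_sg k) * h3 + ω v k * h4

end Pool.Agent.H63.CLK
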