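import Pool.Agent.H63.CLK.D_FlI
import Pool.Agent.H63.CLK.D_Ver

set_option autoImplicit false

/-!
# CLK part D, D_RgF: the values of the tetrahedra of a face, mod `π²`

Let `F(x) = -2 π i ff x + π i (x - K) hh x + π² H x` for an arc with `K`, `H`. `ord_pair` (D_Rog) with `itg_f`, `CReg.fan`, `hD.acf`: the pair `j` has the value `F(σ_j) + F(1 - psm (j+1)) + F(psm j) - π² H_mid`, all `H`
are integers, so the last term vanishes mod `π²`. Complementary arcs `x`, `1 - x` with `K`, `1 - K`, the same `H = 0`: `F(x) + F(1-x) = π² H = 0` (`ff (1 - x) = -ff x`, `hh_one_sub`).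
`psm 1 = σ_0` with `H = xi` and `1 - psm (d-1) = σ_{d-1}` with `H = xi` (`psm d = 1` for `σ` and for `xs`). So the sum over `j ∈ Ico 1 (d-1)` is `∑_{j<d} F(σ_j)` for `d ≥ 3`; for `d = 2` the sum is empty,
`σ_0 + σ_1 = 1`, the two corners have the same `xi` (their legs are the same strands by `mate`) and `F(σ_0) + F(σ_1) = π² xi ≡ 0`. Finally `∑_{j<d} g (bd f j) = ∑_v ∑_k [cor v k = f] g (v,k)` (`sf_sum`, `IsBd`).
Induction over `d` for the telescoping: `∑_{j ∈ Ico 1 (d-1)} (G (1 - psm (j+1)) + G (psm j))`.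
-/

namespace Pool.Agent.H63.CLK

open Pool.Agent.H63.VC hiding ext
open Pool.Agent.H63.VC3 Pool.Agent.H63.VC5 Pool.Agent.H63.VC7 Complex

variable {c : ℕ} {w : List TPiece} {T : TData c} {a : Fin c → ℤ} {N : ℕ → Bool}
  {X : Fin c → Fin 4} {τ z : Fin c → ℂ} {σ : Fin c → Fin 4 → ℂ} {A : ℕ → ℂ} {B : Fin c → ℂ}

/-- The part of an arc of a corner. -/
noncomputable def fcor (T : TData c) (N : ℕ → Bool) (X : Fin c → Fin 4) (σ : Fin c → Fin 4 → ℂ)
    (v : Fin c) (k : Fin 4) : ℂ :=
  -(2 * Real.pi * I * ff (σ v k)) + Real.pi * I * ((σ v k - xs X v k) * hh (σ v k)) +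
    (Real.pi : ℂ) ^ 2 * (T.xi N v k * σ v k)

/-- The part of an arc. -/
private noncomputable def D_RgF_F (x K H : ℂ) : ℂ :=
  -(2 * Real.pi * I * ff x) + Real.pi * I * ((x - K) * hh x) + (Real.pi : ℂ) ^ 2 * (H * x)

private theorem D_RgF_comp (x K : ℂ) : D_RgF_F x K 0 + D_RgF_F (1 - x) (1 - K) 0 = 0 := by
  unfold D_RgF_F
  rw [ff_reflect, hh_one_sub]
  ring

private theorem D_RgF_tel (a b : ℕ → ℂ) (m : ℕ) (hm : 2 ≤ m)
    (h : ∀ j, 2 ≤ j → j < m → a j + b j = 0) :
    ∑ j ∈ Finset.Ico 1 m, (b (j + 1) + a j) = b m + a 1 := by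
  induction m, hm using Nat.le_induction with
  | base => simp
  | succ m hm ih =>
    rw [Finset.sum_Ico_succ_top (by omega), ih (fun j h2 hj => h j h2 (by omega))]
    linear_combination h m hm (by omega)

private theorem D_RgF_xs (hX : T.Match X) (f : ℕ) (hfF : f ∈ T.F) :
    ∑ v, ∑ k, (if T.cor v k = f then xs X v k else 0) = 1 := by
  obtain ⟨v0, hv0⟩ := hX.sur f hfF
  rw [Finset.sum_eq_single v0]
  · rw [Finset.sum_eq_single (X v0)]
    · rw [if_pos hv0]
      unfold xs
      rw [if_pos rfl]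
    · intro k _ hk
      unfold xs
      rw [if_neg hk, ite_self]
    · intro h; exact absurd (Finset.mem_univ _) h
  · intro v _ hv
    refine Finset.sum_eq_zero fun k _ => ?_
    by_cases h1 : T.cor v k = f
    · rw [if_pos h1]
      unfold xs
      rw [if_neg]
      rintro rfl
      exact hv (hX.inj v v0 (h1.trans hv0.symm))
    · rw [if_neg h1]
  · intro h; exact absurd (Finset.mem_univ _) h

private theorem D_RgF_Hf (f j : ℕ) (i : Fin 3) : Zi (T.Hf N f j i) := by
  match i with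
  | 0 => exact Zi_xi _ _
  | 1 => exact Zi_ite _ (Zi_xi _ _) Zi_zero
  | 2 => exact Zi_ite _ (Zi_xi _ _) Zi_zero

theorem rog_face (hT : T.Of w) (hG : T.Good) (hN : T.Nice) (hX : T.Match X)
    (hf : ∀ f ∈ T.F, ∑ v, ∑ k, (if T.cor v k = f then σ v k else 0) = 1)
    (hR : CReg T τ z σ) {D : Dir c} (hD : T.IsDir a D) (f : ℕ) (hfF : f ∈ T.F) :
    Cg (∑ j ∈ Finset.Ico 1 (T.deg f - 1),
      (ordR true (T.sZ σ f j) ((T.fpar a N X τ z σ).z f j) (T.dirf D f j) +
        ordR false (T.sZ' σ f j) ((T.fpar a N X τ z σ).z' f j) (T.dirf D f j)))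
      (∑ v, ∑ k, if T.cor v k = f then fcor T N X σ v k else 0) := by
  have hb := hT.bdy f hfF
  set s := T.sf σ f with hs
  set K := T.sf (xs X) f with hK
  set h := T.sf (T.xi N) f with hh'
  have hP : psm s (T.deg f) = 1 := by
    have h1 := sf_sum hb σ
    rw [hf f hfF] at h1
    exact h1
  have hQ : psm K (T.deg f) = 1 := by
    have h1 := sf_sum hb (xs X)
    rw [D_RgF_xs hX f hfF] at h1
    exact h1
  have hR2 : (∑ v, ∑ k, if T.cor v k = f then fcor T N X σ v k else 0) =
      ∑ j ∈ Finset.range (T.deg f), D_RgF_F (s j) (K j) (h j) := (sf_sum hb (fcor T N X σ)).symm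
  rw [hR2]
  have hsucc : ∀ (u : ℕ → ℂ) (j : ℕ), psm u (j + 1) = psm u j + u j := fun u j =>
    Finset.sum_range_succ u j
  rcases Nat.lt_or_ge 2 (T.deg f) with hd | hd
  · -- at least three corners
    let A : ℕ → ℂ := fun j => D_RgF_F (psm s j) (psm K j) (if j = 1 then h 0 else 0)
    let B : ℕ → ℂ := fun j => D_RgF_F (1 - psm s j) (1 - psm K j)
      (if j + 1 = T.deg f then h j else 0)
    have hpair : ∀ j ∈ Finset.Ico 1 (T.deg f - 1),
        Cg (ordR true (T.sZ σ f j) ((T.fpar a N X τ z σ).z f j) (T.dirf D f j) +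
          ordR false (T.sZ' σ f j) ((T.fpar a N X τ z σ).z' f j) (T.dirf D f j))
          (D_RgF_F (s j) (K j) (h j) + (B (j + 1) + A j)) := by
      intro j hj
      rw [Finset.mem_Ico] at hj
      have h0 : 0 < j := by omega
      have h1 : j + 1 < T.deg f := by omega
      have h2 := ord_pair (hR.fan f hfF j h0 h1) (itg_f (T := T) (N := N) (X := X) f j)
        (T.dirf D f j) (hD.acf f hfF j h0 h1)
      refine Cg.trans h2 ?_
      obtain ⟨n, hn⟩ := D_RgF_Hf (T := T) (N := N) f j (-src (T.dirf D f j) - snk (T.dirf D f j))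
      refine ⟨-n, ?_⟩
      rw [hn]
      have e0 : T.Hf N f j 0 = h j := rfl
      have e1 : T.Hf N f j 1 = if j + 1 + 1 = T.deg f then h (j + 1) else 0 := rfl
      have e2 : T.Hf N f j 2 = if j = 1 then h 0 else 0 := rfl
      have k0 : T.arf (xs X) f j 0 = K j := rfl
      have k1 : T.arf (xs X) f j 1 = 1 - psm K (j + 1) := rfl
      have k2 : T.arf (xs X) f j 2 = psm K j := rfl
      rw [e0, e1, e2, k0, k1, k2]
      simp only [A, B, D_RgF_F]
      push_cast
      ring
    refine (Cg.sum _ hpair).trans (Cg.of_eq ?_)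
    rw [Finset.sum_add_distrib, D_RgF_tel A B (T.deg f - 1) (by omega)]
    · have hA1 : A 1 = D_RgF_F (s 0) (K 0) (h 0) := by
        simp only [A, if_true]
        rw [hsucc s 0, hsucc K 0]
        simp [psm]
      have hB1 : B (T.deg f - 1) = D_RgF_F (s (T.deg f - 1)) (K (T.deg f - 1)) (h (T.deg f - 1)) := by
        have e : T.deg f - 1 + 1 = T.deg f := by omega
        have h3 := hsucc s (T.deg f - 1)
        have h4 := hsucc K (T.deg f - 1)
        rw [e, hP] at h3
        rw [e, hQ] at h4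
        simp only [B]
        rw [if_pos e]
        congr 1
        · rw [h3]; ring
        · rw [h4]; ring
      rw [hA1, hB1]
      obtain ⟨m, hm⟩ : ∃ m, T.deg f = m + 2 := ⟨T.deg f - 2, by omega⟩
      rw [hm]
      have e1 : m + 2 - 1 = m + 1 := by omega
      have e2 : ∑ j ∈ Finset.range (m + 1), D_RgF_F (s j) (K j) (h j) =
          D_RgF_F (s 0) (K 0) (h 0) + ∑ j ∈ Finset.Ico 1 (m + 1), D_RgF_F (s j) (K j) (h j) := by
        rw [Finset.range_eq_Ico, Finset.sum_eq_sum_Ico_succ_bot (by omega)]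
      rw [e1, Finset.sum_range_succ, e2]
      ring
    · intro j hj2 hjm
      have h1 : j ≠ 1 := by omega
      have h2 : j + 1 ≠ T.deg f := by omega
      simp only [A, B, if_neg h1, if_neg h2]
      exact D_RgF_comp _ _
  · have hd2 : T.deg f = 2 := le_antisymm hd (hN.deg f hfF)
    rw [hd2] at hP hQ ⊢
    have e1 : s 1 = 1 - s 0 := by
      have h3 : psm s 2 = s 0 + s 1 := by simp [psm, Finset.sum_range_succ]
      rw [h3] at hP
      linear_combination hP
    have e2 : K 1 = 1 - K 0 := by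
      have h3 : psm K 2 = K 0 + K 1 := by simp [psm, Finset.sum_range_succ]
      rw [h3] at hQ
      linear_combination hQ
    have e3 : h 1 = h 0 := by
      have m0 := (hb.mate 0).2
      have m1 := (hb.mate 1).2
      have hper : T.bd f (1 + 1) = T.bd f 0 := by
        have := hb.per 0
        rw [hd2] at this
        exact this
      rw [hper] at m1
      change xib (N (T.leg (T.bd f 1).1 (T.bd f 1).2)) (N (T.leg (T.bd f 1).1 ((T.bd f 1).2 + 1))) =
        xib (N (T.leg (T.bd f 0).1 (T.bd f 0).2)) (N (T.leg (T.bd f 0).1 ((T.bd f 0).2 + 1)))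
      have m0' : T.leg (T.bd f 0).1 ((T.bd f 0).2 + 1) = T.leg (T.bd f 1).1 (T.bd f 1).2 := m0
      have m1' : T.leg (T.bd f 1).1 ((T.bd f 1).2 + 1) = T.leg (T.bd f 0).1 (T.bd f 0).2 := m1
      rw [m0', m1']
      unfold xib
      simp only [and_comm]
    obtain ⟨n, hn⟩ : Zi (h 0) := Zi_xi _ _
    have e4 : Finset.Ico 1 (2 - 1) = ∅ := by simp
    rw [e4, Finset.sum_empty, Finset.sum_range_succ, Finset.sum_range_one, e1, e2, e3]
    refine ⟨-n, ?_⟩
    unfold D_RgF_F
    rw [ff_reflect, hh_one_sub, hn]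
    push_cast
    ring

end Pool.Agent.H63.CLK
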