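import Pool.Agent.H63.CLK.D_RgV

set_option autoImplicit false

/-!
# CLK part D, D_RgT: the sum of all values is `2 π i Psi + (π²/2) ∑ a`, mod `π²`

Sum of `rog_vert` over `v` and of `rog_face` over `f ∈ F` (every bounded corner occurs once): `∑_v fvert v + ∑_v ∑_{k bounded} fcor v k`. Notation `x° = x - K_x`, `κ = 1 - τ`, `hhp = hh (τ-1/2+zf)`, `hhm = hh (τ-1/2-zf)`.
(1) `ff` terms: `v` not an end `2 π i (2 ff τ - ff - ff - ∑_k cpt v k)` (outer corners `θ = csr`); end: `fcor` of the two bounded corners has `ff (τ) + ff (1 - τ) = 0`. Total `2 π i Psi + 4 π² ∑ (a z² / 2 + z)`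
  (`2 π i · 2 π i = -4 π²`; `Psi` contains `2 π i (a/2 z² + z)`).
(2) `hh` terms: `v` not an end: `θ° hhθ + σ° hhσ = csr° hhθ + σ° (A + B)` (bounded, `CritT.sig`; outer `σ° = 0`), `∑_k csr°_k hhθ_k = κ° (hhθ_0 - hhθ_1 + hhθ_2 - hhθ_3) = κ° (hhp + hhm - 2 hh τ)` (`CritT.tau`);
  end: `csr° hh`: the two corners give `(κ° + τ°) hh τ = 0`, and `CritT.tau0`: `2 hh τ - hhp - hhm = A e - A o`. `∑_{v,k} σ° A (cor v k) = 0` over all bounded corners (face sums of `σ°` vanish), `∑_k σ°_k B v = 0`.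
  Remaining: `π i ∑_v z° (hhp - hhm)`, `z° = zf + m/2`, by `CritT.zz` `hhp - hhm = -tv · 2 π i (a z + 1)`, `zf = -tv z`: `-2 π² (z - tv m/2) (a z + 1)`.
(3) `π²` terms: `v` not an end: `(1-m)/2 + ∑_k xi_k csr_k + (gp + gm) (τ - 1/2) + (gp - gm) zf`, `∑ xi csr = (xi_0 + xi_2) (1 - τ) + (xi_1 + xi_3) τ`, and (even corners) - (odd corners) `= gp + gm = 2 (nh (b1) (b2) - nh (b0) (b1))`
  (`nj_even`, `nj_odd`, cases; the even corners are the chords `1`, `3`), so it is `(1-m)/2 - (gp + gm)/2 + (gp - gm) zf` mod integers; end: `xi_e (1 - τ) + xi_o τ`, `xi_e - xi_o = gp + gm` (`b 0 = false`), the same result.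
  `gp - gm = 2 tv + a m`, `zf = -tv z`.
(4) Total: `2 π i Psi + π² ∑ [2 a z² + 4 z - 2 (z - tv m/2)(a z + 1) - 2 z - tv a m z + (1-m)/2 - (gp + gm)/2] = 2 π i Psi + π² ∑ [tv m + (1-m)/2 - (gp+gm)/2]`; `tv m` is an integer;
  `(1-m)/2 - (gp+gm)/2 = (1-m)/2 - nh (b1) (b2) + nh (b0) (b1)`: `0` for even `a` (`b 0 = b 1`, `m = 1` iff `b 1 = b 2`), `≡ 1/2` for odd `a` (`m = 1`, `nh (b0) (b1) + nh (b1) (b2) = 1/2`): `≡ a/2` mod integers.
-/

namespace Pool.Agent.H63.CLK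

open Pool.Agent.H63.VC hiding ext
open Pool.Agent.H63.VC3 Pool.Agent.H63.VC5 Pool.Agent.H63.VC7 Complex

variable {c : ℕ} {w : List TPiece} {T : TData c} {a : Fin c → ℤ} {N : ℕ → Bool}
  {X : Fin c → Fin 4} {τ z : Fin c → ℂ} {σ : Fin c → Fin 4 → ℂ} {A : ℕ → ℂ} {B : Fin c → ℂ}

private theorem D_RgT_xibint (b b' : Bool) : ∃ k : ℤ, xib b b' = k := by
  unfold xib
  split_ifs
  · exact ⟨-1, by push_cast; ring⟩
  · exact ⟨0, by push_cast; ring⟩

private theorem D_RgT_xib0 (b : Bool) : xib false b = 0 := by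
  unfold xib
  simp

private theorem D_RgT_xib1 (b : Bool) : xib b false = 0 := by
  unfold xib
  simp

private theorem D_RgT_lga (i : Fin 4) : (lga i 0 = 0 ∧ lga i 1 = 3 ∧ lga i 2 = 2) ∨
    (lga i 0 = 1 ∧ lga i 1 = 2 ∧ lga i 2 = 3) ∨ (lga i 0 = 2 ∧ lga i 1 = 1 ∧ lga i 2 = 0) ∨
    (lga i 0 = 3 ∧ lga i 1 = 0 ∧ lga i 2 = 1) := by
  revert i
  decide

private theorem D_RgT_xi (i : Fin 4) (n : Fin 4 → Bool)
    (h : (n 0 = n 3 ∧ n 1 = n 2) ∨ (n 0 = !n 2 ∧ n 1 = !n 3)) :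
    xib (n 0) (n 1) + xib (n 2) (n 3) - xib (n 1) (n 2) - xib (n 3) (n 0) =
      2 * (nh (n (lga i 1)) (n (lga i 2)) - nh (n (lga i 0)) (n (lga i 1))) := by
  rcases D_RgT_lga i with ⟨e0, e1, e2⟩ | ⟨e0, e1, e2⟩ | ⟨e0, e1, e2⟩ | ⟨e0, e1, e2⟩ <;>
    rw [e0, e1, e2] <;> rcases h with ⟨h1, h2⟩ | ⟨h1, h2⟩ <;> rw [h1, h2] <;>
    rcases n 2 <;> rcases n 3 <;> norm_num [xib, nh]

private theorem D_RgT_int (a : ℤ) (b : Fin 4 → Bool) (he : Even a → b 0 = b 1)
    (ho : Odd a → b 0 = !b 2) :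
    ∃ k : ℤ, (1 - mB a b) / 2 - (nh (b 1) (b 2) - nh (b 0) (b 1)) - (a : ℂ) / 2 = k := by
  rcases Int.even_or_odd a with h | h
  · have h0 := he h
    have hn : ¬ Odd a := Int.not_odd_iff_even.2 h
    obtain ⟨r, hr⟩ := h
    refine ⟨-r, ?_⟩
    rw [h0, hr]
    rw [hr] at hn
    unfold mB nh
    by_cases h12 : b 1 = b 2
    · rw [if_pos (Or.inr h12), if_pos h12, if_pos rfl]
      push_cast
      ring
    · rw [if_neg (by rintro (h | h); exacts [hn h, h12 h]), if_neg h12, if_pos rfl]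
      push_cast
      ring
  · have h0 := ho h
    obtain ⟨r, hr⟩ := h
    unfold mB nh
    rw [if_pos (Or.inl ⟨r, hr⟩), h0, hr]
    by_cases h12 : b 1 = b 2
    · rw [if_pos h12, if_neg (by rw [h12]; cases b 2 <;> simp)]
      refine ⟨-r, ?_⟩
      push_cast
      ring
    · rw [if_neg h12, if_pos (by revert h12; cases b 1 <;> cases b 2 <;> simp)]
      refine ⟨-r - 1, ?_⟩
      push_cast
      ring

private theorem D_RgT_tv (v : Fin c) : (T.tv v = -1 ∧ T.zf z v = z v) ∨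
    (T.tv v = 1 ∧ T.zf z v = -z v) := by
  unfold TData.tv TData.zf
  split_ifs
  · exact Or.inl ⟨rfl, rfl⟩
  · exact Or.inr ⟨rfl, rfl⟩

private theorem D_RgT_xs (v : Fin c) : ∑ k, xs X v k = 1 := by
  unfold xs
  simp

private theorem D_RgT_xs0 (hX : T.Match X) {v : Fin c} {k : Fin 4} (h : T.cor v k ∉ T.F) :
    xs X v k = 0 := by
  unfold xs
  rw [if_neg]
  rintro rfl
  exact h (hX.mem v)

private theorem D_RgT_cor (hX : T.Match X) (hc : CritT T a τ z σ A B) (v : Fin c) (k : Fin 4)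
    (hv : T.isEnd v = false) :
    fthe T N X τ σ v k + (if T.cor v k ∈ T.F then fcor T N X σ v k else 0) =
      -(2 * Real.pi * I) * cpt T τ σ v k +
      Real.pi * I * ((csr (τ v) k - csr (1 - xk X v) k) * hh (csr (τ v) k - σ v k)) +
      Real.pi * I * (if T.cor v k ∈ T.F then (σ v k - xs X v k) * A (T.cor v k) else 0) +
      Real.pi * I * ((σ v k - xs X v k) * B v) +
      (Real.pi : ℂ) ^ 2 * (T.xi N v k * csr (τ v) k) := by
  by_cases h : T.cor v k ∈ T.F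
  · rw [if_pos h, if_pos h]
    unfold fthe fcor cpt
    rw [if_pos hv, if_pos h]
    have hs := hc.sig v k h hv
    linear_combination (-(Real.pi * I) * (σ v k - xs X v k)) * hs
  · rw [if_neg h, if_neg h]
    unfold fthe cpt
    rw [if_pos hv, if_neg h, hc.out v k h, D_RgT_xs0 hX h, sub_zero, sub_zero]
    ring

private theorem D_RgT_both1 (hX : T.Match X) (hc : CritT T a τ z σ A B) (v : Fin c)
    (hv : T.isEnd v = false) :
    (∑ k, fthe T N X τ σ v k) + (∑ k, if T.cor v k ∈ T.F then fcor T N X σ v k else 0) =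
      -(2 * Real.pi * I) * (∑ k, cpt T τ σ v k) +
      Real.pi * I * (∑ k, if T.cor v k ∈ T.F then (σ v k - xs X v k) * A (T.cor v k) else 0) +
      (Real.pi : ℂ) ^ 2 * (∑ k, T.xi N v k * csr (τ v) k) +
      Real.pi * I * ((1 - τ v - xk X v) * (hh (τ v - 1 / 2 + z v) + hh (τ v - 1 / 2 - z v) -
        2 * hh (τ v))) := by
  rw [← Finset.sum_add_distrib, Finset.sum_congr rfl fun k _ => D_RgT_cor hX hc v k hv]
  rw [Finset.sum_add_distrib, Finset.sum_add_distrib, Finset.sum_add_distrib,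
    Finset.sum_add_distrib, ← Finset.mul_sum, ← Finset.mul_sum, ← Finset.mul_sum,
    ← Finset.mul_sum, ← Finset.mul_sum, ← Finset.sum_mul, Finset.sum_sub_distrib, hc.sumv v,
    D_RgT_xs v, Fin.sum_univ_four (fun k => (csr (τ v) k - csr (1 - xk X v) k) *
      hh (csr (τ v) k - σ v k))]
  have ht := hc.tau v hv
  have e0 : csr (τ v) 0 = 1 - τ v := rfl
  have e1 : csr (τ v) 1 = τ v := rfl
  have e2 : csr (τ v) 2 = 1 - τ v := rfl
  have e3 : csr (τ v) 3 = τ v := rfl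
  have f0 : csr (1 - xk X v) 0 = 1 - (1 - xk X v) := rfl
  have f1 : csr (1 - xk X v) 1 = 1 - xk X v := rfl
  have f2 : csr (1 - xk X v) 2 = 1 - (1 - xk X v) := rfl
  have f3 : csr (1 - xk X v) 3 = 1 - xk X v := rfl
  rw [e0, e1, e2, e3] at ht ⊢
  rw [f0, f1, f2, f3]
  linear_combination (-(Real.pi * I) * (1 - τ v - xk X v)) * ht

private theorem D_RgT_two (v : Fin c) {e o e' o' : Fin 4}
    (hc : CritT T a τ z σ A B) (hv : T.isEnd v = true)
    (hsum : ∀ g : Fin 4 → ℂ, ∑ k, g k = g e + g o + g e' + g o')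
    (he : e = 0 ∨ e = 2) (ho : o = 1 ∨ o = 3) (hXo : X v = o)
    (me : T.cor v e ∈ T.F) (mo : T.cor v o ∈ T.F) (me' : T.cor v e' ∉ T.F)
    (mo' : T.cor v o' ∉ T.F) (xe' : T.xi N v e' = 0) (xo' : T.xi N v o' = 0) :
    (∑ k, if T.cor v k ∈ T.F then fcor T N X σ v k else 0) =
      -(2 * Real.pi * I) * (∑ k, cpt T τ σ v k) +
      Real.pi * I * (∑ k, if T.cor v k ∈ T.F then (σ v k - xs X v k) * A (T.cor v k) else 0) +
      (Real.pi : ℂ) ^ 2 * (∑ k, T.xi N v k * csr (τ v) k) +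
      Real.pi * I * ((1 - τ v - xk X v) * (hh (τ v - 1 / 2 + z v) + hh (τ v - 1 / 2 - z v) -
        2 * hh (τ v))) := by
  have ht := hc.tau0 v hv
  have hce : csr (τ v) e = 1 - τ v := by
    rcases he with rfl | rfl <;> rfl
  have hco : csr (τ v) o = τ v := by
    rcases ho with rfl | rfl <;> rfl
  have heo : e ≠ o := by
    rcases he with rfl | rfl <;> rcases ho with rfl | rfl <;> decide
  have hne : ¬ (o = 0 ∨ o = 2) := by
    rcases ho with rfl | rfl <;> decide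
  have hse : σ v e = 1 - τ v := by rw [hc.fin v e me hv, hce]
  have hso : σ v o = τ v := by rw [hc.fin v o mo hv, hco]
  have hxe : xs X v e = 0 := by
    unfold xs
    rw [hXo, if_neg heo]
  have hxo : xs X v o = 1 := by
    unfold xs
    rw [hXo, if_pos rfl]
  have hxk : xk X v = 0 := by
    unfold xk
    rw [hXo, if_neg hne]
  have hcpt : ∀ k, cpt T τ σ v k = 0 := by
    intro k
    unfold cpt
    rw [if_neg (by rw [hv]; decide)]
  have hff := ff_reflect (τ v)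
  have hhh := hh_one_sub (τ v)
  rw [hsum] at ht ⊢
  rw [hsum (fun k => if T.cor v k ∈ T.F then (σ v k - xs X v k) * A (T.cor v k) else 0),
    hsum (fun k => T.xi N v k * csr (τ v) k), Finset.sum_eq_zero fun k _ => hcpt k]
  simp only [if_pos me, if_pos mo, if_neg me', if_neg mo', if_pos he, if_neg hne, xe', xo', hxk,
    hxe, hxo, hse, hso, hce, hco] at ht ⊢
  unfold fcor
  rw [hxe, hxo, hse, hso, hff, hhh]
  linear_combination (-(Real.pi * I) * (1 - τ v)) * ht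

private theorem D_RgT_sub (i : Fin 4) : (i = 0 ∧ i - 1 = 3 ∧ i + 1 = 1 ∧ i + 2 = 2) ∨
    (i = 1 ∧ i - 1 = 0 ∧ i + 1 = 2 ∧ i + 2 = 3) ∨ (i = 2 ∧ i - 1 = 1 ∧ i + 1 = 3 ∧ i + 2 = 0) ∨
    (i = 3 ∧ i - 1 = 2 ∧ i + 1 = 0 ∧ i + 2 = 1) := by
  revert i
  decide

private theorem D_RgT_both2 (hN : T.Nice) (hX : T.Match X) (hc : CritT T a τ z σ A B)
    (hn : NOk T a N) (v : Fin c) (hv : T.isEnd v = true) :
    (∑ k, if T.cor v k ∈ T.F then fcor T N X σ v k else 0) =
      -(2 * Real.pi * I) * (∑ k, cpt T τ σ v k) +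
      Real.pi * I * (∑ k, if T.cor v k ∈ T.F then (σ v k - xs X v k) * A (T.cor v k) else 0) +
      (Real.pi : ℂ) ^ 2 * (∑ k, T.xi N v k * csr (τ v) k) +
      Real.pi * I * ((1 - τ v - xk X v) * (hh (τ v - 1 / 2 + z v) + hh (τ v - 1 / 2 - z v) -
        2 * hh (τ v))) := by
  obtain ⟨n1, n2, n3, n4⟩ := hN.end0 v hv
  have hXm := hX.mem v
  have hl : T.leg v (T.one v) = 0 := by
    unfold TData.isEnd at hv
    exact of_decide_eq_true hv
  have x1 : T.xi N v (T.one v) = 0 := by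
    unfold TData.xi
    rw [hl, hn.zero]
    exact D_RgT_xib0 _
  have x2 : T.xi N v (T.one v - 1) = 0 := by
    unfold TData.xi
    rw [sub_add_cancel, hl, hn.zero]
    exact D_RgT_xib1 _
  rcases D_RgT_sub (T.one v) with ⟨h0, h1, h2, h3⟩ | ⟨h0, h1, h2, h3⟩ | ⟨h0, h1, h2, h3⟩ |
      ⟨h0, h1, h2, h3⟩ <;> rw [h1] at n2 x2 <;> rw [h2] at n3 <;> rw [h3] at n4 <;>
      rw [h0] at n1 x1
  · have hXv : X v = 1 := by
      rcases hX.side v hv with h | h
      · exact h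
      · rw [h] at hXm
        exact absurd hXm n2
    exact D_RgT_two v (e := 2) (o := 1) (e' := 0) (o' := 3) hc hv
      (fun g => by rw [Fin.sum_univ_four]; ring) (Or.inr rfl) (Or.inl rfl) hXv n4 n3 n1 n2 x1 x2
  · have hXv : X v = 3 := by
      rcases hX.side v hv with h | h
      · rw [h] at hXm
        exact absurd hXm n1
      · exact h
    exact D_RgT_two v (e := 2) (o := 3) (e' := 0) (o' := 1) hc hv
      (fun g => by rw [Fin.sum_univ_four]; ring) (Or.inr rfl) (Or.inr rfl) hXv n3 n4 n2 n1 x2 x1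
  · have hXv : X v = 3 := by
      rcases hX.side v hv with h | h
      · rw [h] at hXm
        exact absurd hXm n2
      · exact h
    exact D_RgT_two v (e := 0) (o := 3) (e' := 2) (o' := 1) hc hv
      (fun g => by rw [Fin.sum_univ_four]; ring) (Or.inl rfl) (Or.inr rfl) hXv n4 n3 n1 n2 x1 x2
  · have hXv : X v = 1 := by
      rcases hX.side v hv with h | h
      · exact h
      · rw [h] at hXm
        exact absurd hXm n1
    exact D_RgT_two v (e := 0) (o := 1) (e' := 2) (o' := 3) hc hv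
      (fun g => Fin.sum_univ_four g) (Or.inl rfl) (Or.inl rfl) hXv n3 n4 n2 n1 x2 x1

private theorem D_RgT_both (hN : T.Nice) (hX : T.Match X) (hc : CritT T a τ z σ A B)
    (hn : NOk T a N) (v : Fin c) :
    (if T.isEnd v = false then ∑ k, fthe T N X τ σ v k else 0) +
      (∑ k, if T.cor v k ∈ T.F then fcor T N X σ v k else 0) =
      -(2 * Real.pi * I) * (∑ k, cpt T τ σ v k) +
      Real.pi * I * (∑ k, if T.cor v k ∈ T.F then (σ v k - xs X v k) * A (T.cor v k) else 0) +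
      (Real.pi : ℂ) ^ 2 * (∑ k, T.xi N v k * csr (τ v) k) +
      Real.pi * I * ((1 - τ v - xk X v) * (hh (τ v - 1 / 2 + z v) + hh (τ v - 1 / 2 - z v) -
        2 * hh (τ v))) := by
  cases hv : T.isEnd v with
  | false =>
    rw [if_pos rfl]
    exact D_RgT_both1 hX hc v hv
  | true =>
    rw [if_neg (by decide), zero_add]
    exact D_RgT_both2 hN hX hc hn v hv

/-- The part with `A` of one twist region. -/
noncomputable def D_RgT_S (T : TData c) (X : Fin c → Fin 4) (σ : Fin c → Fin 4 → ℂ) (A : ℕ → ℂ)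
    (v : Fin c) : ℂ :=
  ∑ k, if T.cor v k ∈ T.F then (σ v k - xs X v k) * A (T.cor v k) else 0

private theorem D_RgT_A (hX : T.Match X) (hc : CritT T a τ z σ A B) :
    ∑ v, D_RgT_S T X σ A v = 0 := by
  have h1 : ∀ v k, (if T.cor v k ∈ T.F then (σ v k - xs X v k) * A (T.cor v k) else 0) =
      ∑ f ∈ T.F, A f * ((if T.cor v k = f then σ v k else 0) -
        (if T.cor v k = f then xs X v k else 0)) := by
    intro v k
    rw [← Finset.sum_ite_eq T.F (T.cor v k) (fun f => (σ v k - xs X v k) * A f)]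
    refine Finset.sum_congr rfl fun f _ => ?_
    split_ifs <;> ring
  have h2 : ∀ f ∈ T.F, ∑ v, ∑ k, (if T.cor v k = f then xs X v k else 0) = 1 := by
    intro f hf
    obtain ⟨u, hu⟩ := hX.sur f hf
    have h3 : ∀ v, ∑ k, (if T.cor v k = f then xs X v k else 0) = if v = u then 1 else 0 := by
      intro v
      rw [Finset.sum_eq_single (X v)]
      · unfold xs
        rw [if_pos rfl]
        by_cases h : v = u
        · rw [h, if_pos hu, if_pos rfl]
        · rw [if_neg h, if_neg]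
          intro h4
          exact h (hX.inj v u (h4.trans hu.symm))
      · intro k _ hk
        unfold xs
        rw [if_neg hk]
        split_ifs <;> rfl
      · intro h
        exact absurd (Finset.mem_univ _) h
    rw [Finset.sum_congr rfl fun v _ => h3 v, Finset.sum_ite_eq' Finset.univ u,
      if_pos (Finset.mem_univ _)]
  unfold D_RgT_S
  simp only [h1]
  have h4 : ∑ v, ∑ k, ∑ f ∈ T.F, A f * ((if T.cor v k = f then σ v k else 0) -
        (if T.cor v k = f then xs X v k else 0)) =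
      ∑ f ∈ T.F, ∑ v, ∑ k, A f * ((if T.cor v k = f then σ v k else 0) -
        (if T.cor v k = f then xs X v k else 0)) := by
    rw [Finset.sum_comm]
    rw [← Finset.sum_comm]
    rw [Finset.sum_congr rfl fun v _ => Finset.sum_comm]
    rw [Finset.sum_comm]
  rw [h4]
  refine Finset.sum_eq_zero fun f hf => ?_
  simp only [← Finset.mul_sum, Finset.sum_sub_distrib]
  rw [hc.sumf f hf, h2 f hf, sub_self, mul_zero]

private theorem D_RgT_v (hN : T.Nice) (hX : T.Match X) (hc : CritT T a τ z σ A B)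
    (hn : NOk T a N) (v : Fin c) :
    Cg (fvert T a N X τ z σ v + ∑ k, if T.cor v k ∈ T.F then fcor T N X σ v k else 0)
      (Real.pi * I * D_RgT_S T X σ A v + (2 * Real.pi * I * ((2 * Real.pi * I * (a v / 2 * z v ^ 2 +
        z v) + 2 * ff (τ v) - ff (τ v - 1 / 2 - z v) - ff (τ v - 1 / 2 + z v)) -
          ∑ k, cpt T τ σ v k) + (Real.pi : ℂ) ^ 2 / 2 * a v)) := by
  -- integers
  have hev : Even (a v) → T.Nj N v 0 = T.Nj N v 1 := fun h => (nj_even hn v h).1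
  have hod : Odd (a v) → T.Nj N v 0 = !T.Nj N v 2 := fun h => (nj_odd hn v h).1
  obtain ⟨k1, hk1⟩ := D_RgT_int (a v) (T.Nj N v) hev hod
  obtain ⟨x0, hx0⟩ : ∃ k : ℤ, T.xi N v 0 = k := D_RgT_xibint _ _
  obtain ⟨x2, hx2⟩ : ∃ k : ℤ, T.xi N v 2 = k := D_RgT_xibint _ _
  obtain ⟨tm, htm⟩ : ∃ k : ℤ, T.tv v * T.mv a N v = k := by
    rcases D_RgT_tv (T := T) (z := z) v with ⟨h1, _⟩ | ⟨h1, _⟩ <;> rw [h1] <;>
      unfold TData.mv mB <;> split_ifs
    · exact ⟨-1, by push_cast; ring⟩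
    · exact ⟨0, by push_cast; ring⟩
    · exact ⟨1, by push_cast; ring⟩
    · exact ⟨0, by push_cast; ring⟩
  -- relations
  have hxi : T.xi N v 0 + T.xi N v 2 - T.xi N v 1 - T.xi N v 3 =
      2 * (nh (T.Nj N v 1) (T.Nj N v 2) - nh (T.Nj N v 0) (T.Nj N v 1)) := by
    refine D_RgT_xi (T.one v) (fun j => N (T.leg v j)) ?_
    rcases Int.even_or_odd (a v) with h | h
    · exact Or.inl (hn.even v h)
    · exact Or.inr (hn.odd v h)
  have hX4 : ∑ k, T.xi N v k * csr (τ v) k = (T.xi N v 0 + T.xi N v 2) * (1 - τ v) +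
      (T.xi N v 1 + T.xi N v 3) * τ v := by
    rw [Fin.sum_univ_four]
    have e0 : csr (τ v) 0 = 1 - τ v := rfl
    have e1 : csr (τ v) 1 = τ v := rfl
    have e2 : csr (τ v) 2 = 1 - τ v := rfl
    have e3 : csr (τ v) 3 = τ v := rfl
    rw [e0, e1, e2, e3]
    ring
  have hb := D_RgT_both hN hX hc hn v
  have hzz := hc.zz v
  have hI : I ^ 2 = -1 := I_sq
  refine ⟨k1 + tm + x0 + x2, ?_⟩
  push_cast
  rw [← hk1, ← hx0, ← hx2, ← htm]
  unfold fvert
  rw [add_assoc, hb, hX4]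
  change _ = (Real.pi * I * (∑ k, if T.cor v k ∈ T.F then (σ v k - xs X v k) * A (T.cor v k)
    else 0) + _) + _
  obtain ⟨m, hm⟩ : ∃ m, T.mv a N v = m := ⟨_, rfl⟩
  have hmB : mB (a v) (T.Nj N v) = m := hm
  unfold gpB gmB
  rw [hmB, hm]
  rcases D_RgT_tv (T := T) (z := z) v with ⟨h1, h2⟩ | ⟨h1, h2⟩
  · rw [h1, h2]
    linear_combination (-(Real.pi * I) * (z v + m / 2)) * hzz +
      (2 * (Real.pi : ℂ) ^ 2 * (z v + m / 2) * (a v * z v + 1) -
        4 * (Real.pi : ℂ) ^ 2 * (a v / 2 * z v ^ 2 + z v)) * hI +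
      (-(Real.pi : ℂ) ^ 2 * τ v) * hxi
  · rw [h1, h2, show τ v - 1 / 2 + -z v = τ v - 1 / 2 - z v by ring,
      show τ v - 1 / 2 - -z v = τ v - 1 / 2 + z v by ring]
    linear_combination (Real.pi * I * (-z v + m / 2)) * hzz +
      (-2 * (Real.pi : ℂ) ^ 2 * (-z v + m / 2) * (a v * z v + 1) -
        4 * (Real.pi : ℂ) ^ 2 * (a v / 2 * z v ^ 2 + z v)) * hI +
      (-(Real.pi : ℂ) ^ 2 * τ v) * hxi

/-- The algebraic part. -/
theorem rog_alg (hG : T.Good) (hN : T.Nice) (hX : T.Match X) (hc : CritT T a τ z σ A B)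
    (hn : NOk T a N) :
    Cg ((∑ v, fvert T a N X τ z σ v) + ∑ v, ∑ k, if T.cor v k ∈ T.F then fcor T N X σ v k else 0)
      (2 * Real.pi * I * Psi T a τ z σ + (Real.pi : ℂ) ^ 2 / 2 * ∑ v, (a v : ℂ)) := by
  have h1 := Cg.sum Finset.univ fun v _ => D_RgT_v hN hX hc hn v
  rw [Finset.sum_add_distrib] at h1
  refine h1.trans (Cg.of_eq ?_)
  rw [Finset.sum_add_distrib, ← Finset.mul_sum, D_RgT_A hX hc, mul_zero, zero_add,
    Finset.sum_add_distrib, ← Finset.mul_sum, ← Finset.mul_sum]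
  unfold Psi
  rw [Finset.sum_sub_distrib]

theorem rog_total (hT : T.Of w) (hG : T.Good) (hN : T.Nice) (hX : T.Match X)
    (hc : CritT T a τ z σ A B) (hR : CReg T τ z σ) (hn : NOk T a N) {D : Dir c}
    (hD : T.IsDir a D) :
    Cg (T.cvol (T.sX τ z σ true) (T.sX τ z σ false) (T.sZ σ) (T.sZ' σ) (T.fpar a N X τ z σ) D)
      (2 * Real.pi * I * Psi T a τ z σ + (Real.pi : ℂ) ^ 2 / 2 * ∑ v, (a v : ℂ)) := by
  refine Cg.trans ?_ (rog_alg hG hN hX hc hn)
  unfold TData.cvol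
  refine Cg.add (Cg.sum _ fun v _ => ?_) ?_
  · have h := rog_vert (X := X) hc.sumv hR hn hD v
    convert h using 3
  · have h2 : (∑ v, ∑ k, if T.cor v k ∈ T.F then fcor T N X σ v k else 0) =
        ∑ f ∈ T.F, ∑ v, ∑ k, if T.cor v k = f then fcor T N X σ v k else 0 := by
      have h3 : ∀ v k, (if T.cor v k ∈ T.F then fcor T N X σ v k else 0) =
          ∑ f ∈ T.F, if T.cor v k = f then fcor T N X σ v k else 0 := by
        intro v k
        rw [Finset.sum_ite_eq]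
      simp only [h3]
      rw [Finset.sum_congr rfl fun v _ => Finset.sum_comm, Finset.sum_comm]
    rw [h2]
    exact Cg.sum _ fun f hf => rog_face hT hG hN hX hc.sumf hR hD f hf

end Pool.Agent.H63.CLK
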