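import Pool.Agent.H63.CLK.D_FlI
import Pool.Agent.H63.CLK.D_RgF

set_option autoImplicit false

/-!
# CLK part D, D_RgV: the values of the tetrahedra of a twist region, mod `π²`

`F(x) = -2 π i ff x + π i (x - K) hh x + π² H x` as in D_RgF. `ord_pair` with `itg_v`, `CReg.oct`, `hD.acv`. For `one v` even `sX true = tsh a c b`, `sX false = tsh a b c`, so the two summands are exchanged.
Sum of the `F` (`v` not an end): `F(1/2 - zf) + F(1/2 + zf) = π² (1 - m)/2` and `F(t2 + t3) + F(t0 + t1) = π² xib (b 0) (b 2) ≡ 0` (complementary arcs, `ff (1 - x) = -ff x`, `∑ t = 1`); `κ` twice; the four `t_j`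
(`j ↦ cna (one v) j` is a bijection onto the corners, `xiB b j = xi (cna j)` since `xib` is symmetric); `1/2 - κ ± zf = τ - 1/2 ± zf`. `ff (1 - τ) = -ff τ`, `hh (1 - τ) = hh τ`.
The terms `-π² H_mid`: tetrahedra `1`, `2`: integers. Tetrahedra `0`, `3`: `H = ((1-m)/2, 0, gp or gm)`; integers if `m = 1`. If `m = 0` (`a` even, `b 1 ≠ b 2`): `1/2`, `0`, half integers: the sum of the two is an
integer since `H_mid` of `0` is at the index `1` iff `H_mid` of `3` is: index `1` is the middle for `d = (!y, c0, c1)` resp. `(y, c2, c3)` (`T.dirv`), and `hD.par` gives `c1 = !c3` (the corners `cna 1`, `cna 3` are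
`0`, `2` in some order and `a` is even); `src d, snk d ≠ 1` depends on the bits … : `-src d - snk d = 1` iff `{src, snk} = {0, 2}`; for acyclic `d` (`hD.acv`) this is `d 0 = d 2`: so `!y = c1` resp. `y = c3`, equivalent.
-/

namespace Pool.Agent.H63.CLK

open Pool.Agent.H63.VC hiding ext
open Pool.Agent.H63.VC3 Pool.Agent.H63.VC5 Pool.Agent.H63.VC7 Complex

variable {c : ℕ} {w : List TPiece} {T : TData c} {a : Fin c → ℤ} {N : ℕ → Bool}
  {X : Fin c → Fin 4} {τ z : Fin c → ℂ} {σ : Fin c → Fin 4 → ℂ} {A : ℕ → ℂ} {B : Fin c → ℂ}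

/-- The part of the arc `θ` of a corner. -/
noncomputable def fthe (T : TData c) (N : ℕ → Bool) (X : Fin c → Fin 4) (τ : Fin c → ℂ)
    (σ : Fin c → Fin 4 → ℂ) (v : Fin c) (k : Fin 4) : ℂ :=
  -(2 * Real.pi * I * ff (csr (τ v) k - σ v k)) +
    Real.pi * I * ((csr (τ v) k - σ v k - (csr (1 - xk X v) k - xs X v k)) *
      hh (csr (τ v) k - σ v k)) + (Real.pi : ℂ) ^ 2 * (T.xi N v k * (csr (τ v) k - σ v k))

/-- The value at a twist region. -/
noncomputable def fvert (T : TData c) (a : Fin c → ℤ) (N : ℕ → Bool) (X : Fin c → Fin 4)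
    (τ z : Fin c → ℂ) (σ : Fin c → Fin 4 → ℂ) (v : Fin c) : ℂ :=
  2 * Real.pi * I * (2 * ff (τ v) - ff (τ v - 1 / 2 + z v) - ff (τ v - 1 / 2 - z v)) +
    Real.pi * I * (2 * (1 - τ v - xk X v) * hh (τ v) +
      (-(1 - τ v - xk X v) + (T.zf z v + T.mv a N v / 2)) * hh (τ v - 1 / 2 + T.zf z v) +
      (-(1 - τ v - xk X v) - (T.zf z v + T.mv a N v / 2)) * hh (τ v - 1 / 2 - T.zf z v)) +
    (Real.pi : ℂ) ^ 2 * ((1 - T.mv a N v) / 2 +
      gpB (T.tv v) (a v) (T.Nj N v) * (τ v - 1 / 2 + T.zf z v) +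
      gmB (T.tv v) (a v) (T.Nj N v) * (τ v - 1 / 2 - T.zf z v)) +
    if T.isEnd v = false then ∑ k, fthe T N X τ σ v k else 0

/-! ### Helper lemmas -/

/-- The value of a pair of tetrahedra without the last term. -/
noncomputable def D_RgV_val (ar K H : Fin 3 → ℂ) : ℂ :=
  -(2 * Real.pi * I * (ff (ar 0) + ff (ar 1) + ff (ar 2))) + Real.pi * I * ((ar 0 - K 0) *
    hh (ar 0) + (ar 1 - K 1) * hh (ar 1) + (ar 2 - K 2) * hh (ar 2)) +
    (Real.pi : ℂ) ^ 2 * (H 0 * ar 0 + H 1 * ar 1 + H 2 * ar 2)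

/-- The middle index. -/
def D_RgV_mid (d : Fin 3 → Bool) : Fin 3 := -src d - snk d

theorem D_RgV_pair (hR : CReg T τ z σ) (hn : NOk T a N) {D : Dir c}
    (hD : T.IsDir a D) (v : Fin c) (k : Fin 4) (hk : T.has v k) :
    Cg (ordR (decide (T.one v = 1 ∨ T.one v = 3)) (T.sX τ z σ true v k)
        ((T.fpar a N X τ z σ).x v k) (T.dirv D v k) +
      ordR (!decide (T.one v = 1 ∨ T.one v = 3)) (T.sX τ z σ false v k)
        ((T.fpar a N X τ z σ).x' v k) (T.dirv D v k))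
      (D_RgV_val (T.arv τ z σ v k) (T.Kv a N X v k) (T.Hv a N v k) -
        (Real.pi : ℂ) ^ 2 * T.Hv a N v k (D_RgV_mid (T.dirv D v k))) := by
  have key := ord_pair (hR.oct v k hk) (itg_v (X := X) hn v k) (T.dirv D v k) (hD.acv v k)
  have hne : ¬ (T.isEnd v = true ∧ (k = 1 ∨ k = 2)) := by
    rintro ⟨h1, h2⟩
    rcases hk with h3 | h3 | h3
    · subst h3; simp at h2
    · subst h3; simp at h2
    · rw [h3] at h1; exact absurd h1 (by decide)
  have hf : ∀ s : ℂ, T.flv a N X τ z σ s v k =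
      fl (T.arv τ z σ v k) (T.Kv a N X v k) (T.Hv a N v k) s := by
    intro s
    unfold TData.flv
    rw [if_neg hne]
  by_cases ho : T.one v = 1 ∨ T.one v = 3
  · have e1 : decide (T.one v = 1 ∨ T.one v = 3) = true := by simpa using ho
    have e2 : T.sX τ z σ true v k = tsh (oa (1 - τ v) (T.zf z v) (T.tt τ σ v) k)
      (ob (1 - τ v) (T.zf z v) (T.tt τ σ v) k) (oc (1 - τ v) (T.zf z v) (T.tt τ σ v) k) := by
      unfold TData.sX
      rw [if_pos e1]
    have e3 : T.sX τ z σ false v k = tsh (oa (1 - τ v) (T.zf z v) (T.tt τ σ v) k)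
      (oc (1 - τ v) (T.zf z v) (T.tt τ σ v) k) (ob (1 - τ v) (T.zf z v) (T.tt τ σ v) k) := by
      unfold TData.sX
      rw [if_neg (by rw [e1]; decide)]
    have e4 : (T.fpar a N X τ z σ).x v k =
        fl (T.arv τ z σ v k) (T.Kv a N X v k) (T.Hv a N v k) 1 := by
      change T.flv a N X τ z σ (T.eps v) v k = _
      rw [hf]
      unfold TData.eps
      rw [if_pos ho]
    have e5 : (T.fpar a N X τ z σ).x' v k =
        fl (T.arv τ z σ v k) (T.Kv a N X v k) (T.Hv a N v k) (-1) := by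
      change T.flv a N X τ z σ (-T.eps v) v k = _
      rw [hf]
      unfold TData.eps
      rw [if_pos ho]
    rw [e1, e2, e3, e4, e5]
    exact key
  · have e1 : decide (T.one v = 1 ∨ T.one v = 3) = false := by simpa using ho
    have e2 : T.sX τ z σ true v k = tsh (oa (1 - τ v) (T.zf z v) (T.tt τ σ v) k)
      (oc (1 - τ v) (T.zf z v) (T.tt τ σ v) k) (ob (1 - τ v) (T.zf z v) (T.tt τ σ v) k) := by
      unfold TData.sX
      rw [if_neg (by rw [e1]; decide)]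
    have e3 : T.sX τ z σ false v k = tsh (oa (1 - τ v) (T.zf z v) (T.tt τ σ v) k)
      (ob (1 - τ v) (T.zf z v) (T.tt τ σ v) k) (oc (1 - τ v) (T.zf z v) (T.tt τ σ v) k) := by
      unfold TData.sX
      rw [if_pos e1]
    have e4 : (T.fpar a N X τ z σ).x v k =
        fl (T.arv τ z σ v k) (T.Kv a N X v k) (T.Hv a N v k) (-1) := by
      change T.flv a N X τ z σ (T.eps v) v k = _
      rw [hf]
      unfold TData.eps
      rw [if_neg ho]
    have e5 : (T.fpar a N X τ z σ).x' v k =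
        fl (T.arv τ z σ v k) (T.Kv a N X v k) (T.Hv a N v k) 1 := by
      change T.flv a N X τ z σ (-T.eps v) v k = _
      rw [hf]
      unfold TData.eps
      rw [if_neg ho, neg_neg]
    rw [e1, e2, e3, e4, e5, add_comm]
    exact key

theorem D_RgV_xib (p q : Bool) : ∃ n : ℤ, xib p q = n := by
  unfold xib
  split_ifs
  · exact ⟨-1, by simp⟩
  · exact ⟨0, by simp⟩

theorem D_RgV_H1 (t : ℂ) (a : ℤ) (b : Fin 4 → Bool) (i : Fin 3) :
    ∃ n : ℤ, HvB t a b 1 i = n := by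
  fin_cases i
  · exact D_RgV_xib _ _
  · exact D_RgV_xib _ _
  · exact D_RgV_xib _ _

theorem D_RgV_H2 (t : ℂ) (a : ℤ) (b : Fin 4 → Bool) (i : Fin 3) :
    ∃ n : ℤ, HvB t a b 2 i = n := by
  fin_cases i
  · exact D_RgV_xib _ _
  · exact D_RgV_xib _ _
  · exact D_RgV_xib _ _

/-- The directions of the tetrahedra `0` and `3`. -/
theorem D_RgV_dir : ∀ y c0 c1 c2 : Bool,
    (∃ i : Fin 3, (![!y, c0, c1] : Fin 3 → Bool) i ≠ (![!y, c0, c1] : Fin 3 → Bool) (i + 1)) →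
    (∃ i : Fin 3, (![y, c2, !c1] : Fin 3 → Bool) i ≠ (![y, c2, !c1] : Fin 3 → Bool) (i + 1)) →
    (D_RgV_mid ![!y, c0, c1] = 1 ↔ D_RgV_mid ![y, c2, !c1] = 1) := by
  decide

theorem D_RgV_chb {D : Dir c} (hD : T.IsDir a D) (v : Fin c) (he : Even (a v)) :
    T.chb D v 3 = !T.chb D v 1 := by
  have hp : D.x v 2 ≠ D.x v 0 := by
    intro h
    exact (Int.not_odd_iff_even.2 he) ((hD.par v).1 h)
  have hq : D.x v 2 = !D.x v 0 := by
    cases h1 : D.x v 2 <;> cases h2 : D.x v 0 <;> simp_all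
  have hfour : ∀ i : Fin 4, i = 0 ∨ i = 1 ∨ i = 2 ∨ i = 3 := by decide
  unfold TData.chb
  rcases hfour (T.one v) with h | h | h | h
  · rw [h]
    have e1 : cna 0 3 = 0 := by decide
    have e2 : cna 0 1 = 2 := by decide
    rw [e1, e2, hq]
    simp
  · rw [h]
    have e1 : cna 1 3 = 0 := by decide
    have e2 : cna 1 1 = 2 := by decide
    rw [e1, e2, hq]
    simp
  · rw [h]
    have e1 : cna 2 3 = 2 := by decide
    have e2 : cna 2 1 = 0 := by decide
    rw [e1, e2, hq]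
    simp
  · rw [h]
    have e1 : cna 3 3 = 2 := by decide
    have e2 : cna 3 1 = 0 := by decide
    rw [e1, e2, hq]
    simp

theorem D_RgV_tv (T : TData c) (v : Fin c) : ∃ n : ℤ, T.tv v = n := by
  unfold TData.tv
  split_ifs
  · exact ⟨-1, by simp⟩
  · exact ⟨1, by simp⟩

/-- The middle terms of the tetrahedra `0` and `3`. -/
theorem D_RgV_mid03 (hn : NOk T a N) {D : Dir c} (hD : T.IsDir a D) (v : Fin c) :
    ∃ n : ℤ, T.Hv a N v 0 (D_RgV_mid (T.dirv D v 0)) +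
      T.Hv a N v 3 (D_RgV_mid (T.dirv D v 3)) = n := by
  obtain ⟨t, ht⟩ := D_RgV_tv T v
  have h0 : ∀ i, T.Hv a N v 0 i = (![(1 - mB (a v) (T.Nj N v)) / 2, 0,
    gpB (T.tv v) (a v) (T.Nj N v)] : Fin 3 → ℂ) i := fun i => rfl
  have h3 : ∀ i, T.Hv a N v 3 i = (![(1 - mB (a v) (T.Nj N v)) / 2, 0,
    gmB (T.tv v) (a v) (T.Nj N v)] : Fin 3 → ℂ) i := fun i => rfl
  rw [h0, h3]
  by_cases hm : Odd (a v) ∨ T.Nj N v 1 = T.Nj N v 2
  · -- `m = 1`
    have m1 : mB (a v) (T.Nj N v) = 1 := by unfold mB; rw [if_pos hm]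
    have g1 : (∃ n : ℤ, gpB (T.tv v) (a v) (T.Nj N v) = n) ∧
        (∃ n : ℤ, gmB (T.tv v) (a v) (T.Nj N v) = n) := by
      unfold gpB gmB
      rw [m1, ht]
      rcases Int.even_or_odd (a v) with he | ho
      · have hb : T.Nj N v 1 = T.Nj N v 2 := hm.resolve_left (Int.not_odd_iff_even.2 he)
        have hb0 := (nj_even hn v he).1
        obtain ⟨r, hr⟩ := he
        have e1 : nh (T.Nj N v 1) (T.Nj N v 2) = 0 := by unfold nh; rw [if_pos hb]
        have e2 : nh (T.Nj N v 0) (T.Nj N v 1) = 0 := by unfold nh; rw [if_pos hb0]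
        rw [e1, e2, hr]
        refine ⟨⟨t + r, ?_⟩, ⟨-(t + r), ?_⟩⟩ <;> · push_cast; ring
      · have hb0 := (nj_odd hn v ho).1
        obtain ⟨r, hr⟩ := ho
        have e1 : (nh (T.Nj N v 1) (T.Nj N v 2) = 0 ∧ nh (T.Nj N v 0) (T.Nj N v 1) = 1 / 2) ∨
            (nh (T.Nj N v 1) (T.Nj N v 2) = 1 / 2 ∧ nh (T.Nj N v 0) (T.Nj N v 1) = 0) := by
          rw [hb0]
          cases T.Nj N v 1 <;> cases T.Nj N v 2 <;> simp [nh]
        rw [hr]
        rcases e1 with ⟨e1, e2⟩ | ⟨e1, e2⟩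
        · rw [e1, e2]
          refine ⟨⟨t + r, ?_⟩, ⟨-(t + r) - 1, ?_⟩⟩ <;> · push_cast; ring
        · rw [e1, e2]
          refine ⟨⟨t + r + 1, ?_⟩, ⟨-(t + r), ?_⟩⟩ <;> · push_cast; ring
    obtain ⟨⟨p, hp⟩, ⟨q, hq⟩⟩ := g1
    rw [m1, hp, hq]
    have k1 : ∀ i : Fin 3, ∃ n : ℤ, (![(1 - 1) / 2, 0, (p : ℂ)] : Fin 3 → ℂ) i = n := by
      intro i
      fin_cases i
      · exact ⟨0, by simp⟩
      · exact ⟨0, by simp⟩
      · exact ⟨p, rfl⟩
    have k2 : ∀ i : Fin 3, ∃ n : ℤ, (![(1 - 1) / 2, 0, (q : ℂ)] : Fin 3 → ℂ) i = n := by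
      intro i
      fin_cases i
      · exact ⟨0, by simp⟩
      · exact ⟨0, by simp⟩
      · exact ⟨q, rfl⟩
    obtain ⟨x, hx⟩ := k1 (D_RgV_mid (T.dirv D v 0))
    obtain ⟨y, hy⟩ := k2 (D_RgV_mid (T.dirv D v 3))
    exact ⟨x + y, by rw [hx, hy]; push_cast; rfl⟩
  · -- `m = 0`
    have m0 : mB (a v) (T.Nj N v) = 0 := by unfold mB; rw [if_neg hm]
    push Not at hm
    obtain ⟨ho, hb⟩ := hm
    have he : Even (a v) := Int.not_odd_iff_even.1 ho
    have hb0 := (nj_even hn v he).1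
    have e1 : nh (T.Nj N v 1) (T.Nj N v 2) = 1 / 2 := by unfold nh; rw [if_neg hb]
    have e2 : nh (T.Nj N v 0) (T.Nj N v 1) = 0 := by unfold nh; rw [if_pos hb0]
    have gp : gpB (T.tv v) (a v) (T.Nj N v) = 1 / 2 + t := by
      unfold gpB
      rw [e1, e2, m0, ht]
      ring
    have gm : gmB (T.tv v) (a v) (T.Nj N v) = 1 / 2 - t := by
      unfold gmB
      rw [e1, e2, m0, ht]
      ring
    rw [m0, gp, gm]
    have hiff : D_RgV_mid (T.dirv D v 0) = 1 ↔ D_RgV_mid (T.dirv D v 3) = 1 := by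
      have hc := D_RgV_chb hD v he
      have a0 := hD.acv v 0
      have a3 := hD.acv v 3
      have d0 : T.dirv D v 0 = ![!D.y v, T.chb D v 0, T.chb D v 1] := rfl
      have d3 : T.dirv D v 3 = ![D.y v, T.chb D v 2, T.chb D v 3] := rfl
      rw [d0] at a0 ⊢
      rw [d3, hc] at a3 ⊢
      exact D_RgV_dir _ _ _ _ a0 a3
    have k1 : ∀ i : Fin 3, i ≠ 1 → ∃ n : ℤ,
        (![(1 - 0) / 2, 0, 1 / 2 + (t : ℂ)] : Fin 3 → ℂ) i = n + 1 / 2 := by
      intro i hi
      fin_cases i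
      · exact ⟨0, by simp⟩
      · exact absurd rfl hi
      · refine ⟨t, ?_⟩
        change 1 / 2 + (t : ℂ) = t + 1 / 2
        ring
    have k2 : ∀ i : Fin 3, i ≠ 1 → ∃ n : ℤ,
        (![(1 - 0) / 2, 0, 1 / 2 - (t : ℂ)] : Fin 3 → ℂ) i = n + 1 / 2 := by
      intro i hi
      fin_cases i
      · exact ⟨0, by simp⟩
      · exact absurd rfl hi
      · refine ⟨-t, ?_⟩
        change 1 / 2 - (t : ℂ) = ((-t : ℤ) : ℂ) + 1 / 2
        push_cast
        ring
    by_cases h1 : D_RgV_mid (T.dirv D v 0) = 1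
    · rw [h1, hiff.1 h1]
      exact ⟨0, by simp⟩
    · obtain ⟨x, hx⟩ := k1 _ h1
      obtain ⟨y, hy⟩ := k2 _ (fun h => h1 (hiff.2 h))
      refine ⟨x + y + 1, ?_⟩
      rw [hx, hy]
      push_cast
      ring

/-- The tetrahedra `0` and `3`. -/
theorem D_RgV_v03 (v : Fin c) : D_RgV_val (T.arv τ z σ v 0) (T.Kv a N X v 0) (T.Hv a N v 0) +
    D_RgV_val (T.arv τ z σ v 3) (T.Kv a N X v 3) (T.Hv a N v 3) =
    2 * Real.pi * I * (2 * ff (τ v) - ff (τ v - 1 / 2 + z v) - ff (τ v - 1 / 2 - z v)) +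
    Real.pi * I * (2 * (1 - τ v - xk X v) * hh (τ v) +
      (-(1 - τ v - xk X v) + (T.zf z v + T.mv a N v / 2)) * hh (τ v - 1 / 2 + T.zf z v) +
      (-(1 - τ v - xk X v) - (T.zf z v + T.mv a N v / 2)) * hh (τ v - 1 / 2 - T.zf z v)) +
    (Real.pi : ℂ) ^ 2 * ((1 - T.mv a N v) / 2 +
      gpB (T.tv v) (a v) (T.Nj N v) * (τ v - 1 / 2 + T.zf z v) +
      gmB (T.tv v) (a v) (T.Nj N v) * (τ v - 1 / 2 - T.zf z v)) := by
  have hz : ff (τ v - 1 / 2 + z v) + ff (τ v - 1 / 2 - z v) =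
      ff (τ v - 1 / 2 + T.zf z v) + ff (τ v - 1 / 2 - T.zf z v) := by
    unfold TData.zf
    split_ifs
    · rfl
    · rw [sub_neg_eq_add, ← sub_eq_add_neg, add_comm]
  unfold D_RgV_val
  change -(2 * Real.pi * I * (ff (1 / 2 - T.zf z v) + ff (1 - τ v) +
      ff (1 / 2 - (1 - τ v) + T.zf z v))) +
    Real.pi * I * ((1 / 2 - T.zf z v - (1 / 2 - -(T.mv a N v / 2))) * hh (1 / 2 - T.zf z v) +
      (1 - τ v - xk X v) * hh (1 - τ v) +
      (1 / 2 - (1 - τ v) + T.zf z v - (1 / 2 - xk X v + -(T.mv a N v / 2))) *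
        hh (1 / 2 - (1 - τ v) + T.zf z v)) +
    (Real.pi : ℂ) ^ 2 * ((1 - T.mv a N v) / 2 * (1 / 2 - T.zf z v) + 0 * (1 - τ v) +
      gpB (T.tv v) (a v) (T.Nj N v) * (1 / 2 - (1 - τ v) + T.zf z v)) +
    (-(2 * Real.pi * I * (ff (1 / 2 + T.zf z v) + ff (1 - τ v) +
      ff (1 / 2 - (1 - τ v) - T.zf z v))) +
    Real.pi * I * ((1 / 2 + T.zf z v - (1 / 2 + -(T.mv a N v / 2))) * hh (1 / 2 + T.zf z v) +
      (1 - τ v - xk X v) * hh (1 - τ v) +
      (1 / 2 - (1 - τ v) - T.zf z v - (1 / 2 - xk X v - -(T.mv a N v / 2))) *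
        hh (1 / 2 - (1 - τ v) - T.zf z v)) +
    (Real.pi : ℂ) ^ 2 * ((1 - T.mv a N v) / 2 * (1 / 2 + T.zf z v) + 0 * (1 - τ v) +
      gmB (T.tv v) (a v) (T.Nj N v) * (1 / 2 - (1 - τ v) - T.zf z v))) = _
  have e1 : (1 / 2 - T.zf z v) = 1 - (1 / 2 + T.zf z v) := by ring
  have e2 : 1 / 2 - (1 - τ v) + T.zf z v = τ v - 1 / 2 + T.zf z v := by ring
  have e3 : 1 / 2 - (1 - τ v) - T.zf z v = τ v - 1 / 2 - T.zf z v := by ring
  rw [e2, e3, e1, ff_reflect, ff_reflect, hh_one_sub, hh_one_sub]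
  linear_combination (2 * Real.pi * I) * hz

/-- Sums over the corners. -/
theorem D_RgV_sum (i : Fin 4) (f : Fin 4 → ℂ) :
    f (cna i 0) + f (cna i 1) + f (cna i 2) + f (cna i 3) = ∑ k, f k := by
  rw [Fin.sum_univ_four]
  have hfour : ∀ i : Fin 4, i = 0 ∨ i = 1 ∨ i = 2 ∨ i = 3 := by decide
  rcases hfour i with h | h | h | h
  · subst h
    have e0 : cna 0 0 = 3 := by decide
    have e1 : cna 0 1 = 2 := by decide
    have e2 : cna 0 2 = 1 := by decide
    have e3 : cna 0 3 = 0 := by decide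
    rw [e0, e1, e2, e3]
    ring
  · subst h
    have e0 : cna 1 0 = 1 := by decide
    have e1 : cna 1 1 = 2 := by decide
    have e2 : cna 1 2 = 3 := by decide
    have e3 : cna 1 3 = 0 := by decide
    rw [e0, e1, e2, e3]
    ring
  · subst h
    have e0 : cna 2 0 = 1 := by decide
    have e1 : cna 2 1 = 0 := by decide
    have e2 : cna 2 2 = 3 := by decide
    have e3 : cna 2 3 = 2 := by decide
    rw [e0, e1, e2, e3]
    ring
  · subst h
    have e0 : cna 3 0 = 3 := by decide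
    have e1 : cna 3 1 = 0 := by decide
    have e2 : cna 3 2 = 1 := by decide
    have e3 : cna 3 3 = 2 := by decide
    rw [e0, e1, e2, e3]
    ring


theorem D_RgV_csr (τ : ℂ) : ∑ k, csr τ k = 2 := by
  rw [Fin.sum_univ_four]
  change 1 - τ + τ + (1 - τ) + τ = 2
  ring

theorem D_RgV_xs (X : Fin c → Fin 4) (v : Fin c) : ∑ k, xs X v k = 1 := by
  unfold xs
  simp

/-- The number `H` of a corner. -/
theorem D_RgV_xi (N : ℕ → Bool) (v : Fin c) (j : Fin 4) :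
    xiB (T.Nj N v) j = T.xi N v (cna (T.one v) j) := by
  have hsym : ∀ p q : Bool, xib p q = xib q p := by
    intro p q
    cases p <;> cases q <;> simp [xib]
  unfold xiB TData.xi TData.Nj
  by_cases ho : T.one v = 1 ∨ T.one v = 3
  · have e1 : lga (T.one v) j = cna (T.one v) j := by
      unfold lga cna
      rw [if_pos ho, if_pos ho]
    have e2 : lga (T.one v) (j + 1) = cna (T.one v) j + 1 := by
      unfold lga cna
      rw [if_pos ho, if_pos ho, add_assoc]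
    rw [e1, e2]
  · have e1 : lga (T.one v) j = cna (T.one v) j + 1 := by
      unfold lga cna
      rw [if_neg ho, if_neg ho]
      exact (by decide : ∀ i j : Fin 4, i - j = i - j - 1 + 1) _ _
    have e2 : lga (T.one v) (j + 1) = cna (T.one v) j := by
      unfold lga cna
      rw [if_neg ho, if_neg ho]
      exact (by decide : ∀ i j : Fin 4, i - (j + 1) = i - j - 1) _ _
    rw [e1, e2, hsym]

/-- The tetrahedra `1` and `2`. -/
theorem D_RgV_v12 (v : Fin c) (hs : ∑ k, σ v k = 1) :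
    D_RgV_val (T.arv τ z σ v 1) (T.Kv a N X v 1) (T.Hv a N v 1) +
    D_RgV_val (T.arv τ z σ v 2) (T.Kv a N X v 2) (T.Hv a N v 2) =
    ∑ k, fthe T N X τ σ v k + (Real.pi : ℂ) ^ 2 * xib (T.Nj N v 0) (T.Nj N v 2) := by
  have s1 : T.tt τ σ v 0 + T.tt τ σ v 1 + T.tt τ σ v 2 + T.tt τ σ v 3 = 1 := by
    have h1 := D_RgV_sum (T.one v) (fun k => csr (τ v) k - σ v k)
    rw [Finset.sum_sub_distrib, D_RgV_csr, hs] at h1
    have h2 : T.tt τ σ v 0 + T.tt τ σ v 1 + T.tt τ σ v 2 + T.tt τ σ v 3 = 2 - 1 := h1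
    rw [h2]; norm_num
  have s2 : T.tt (fun u => 1 - xk X u) (xs X) v 0 + T.tt (fun u => 1 - xk X u) (xs X) v 1 +
      T.tt (fun u => 1 - xk X u) (xs X) v 2 + T.tt (fun u => 1 - xk X u) (xs X) v 3 = 1 := by
    have h1 := D_RgV_sum (T.one v) (fun k => csr (1 - xk X v) k - xs X v k)
    rw [Finset.sum_sub_distrib, D_RgV_csr, D_RgV_xs] at h1
    have h2 : T.tt (fun u => 1 - xk X u) (xs X) v 0 + T.tt (fun u => 1 - xk X u) (xs X) v 1 +
      T.tt (fun u => 1 - xk X u) (xs X) v 2 + T.tt (fun u => 1 - xk X u) (xs X) v 3 = 2 - 1 := h1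
    rw [h2]; norm_num
  have hf : ∀ j, fthe T N X τ σ v (cna (T.one v) j) =
      -(2 * Real.pi * I * ff (T.tt τ σ v j)) + Real.pi * I * ((T.tt τ σ v j -
        T.tt (fun u => 1 - xk X u) (xs X) v j) * hh (T.tt τ σ v j)) +
        (Real.pi : ℂ) ^ 2 * (xiB (T.Nj N v) j * T.tt τ σ v j) := by
    intro j
    rw [D_RgV_xi]
    rfl
  rw [← D_RgV_sum (T.one v) (fthe T N X τ σ v), hf, hf, hf, hf]
  unfold D_RgV_val
  set t0 := T.tt τ σ v 0 with ht0
  set t1 := T.tt τ σ v 1 with ht1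
  set t2 := T.tt τ σ v 2 with ht2
  set t3 := T.tt τ σ v 3 with ht3
  set u0 := T.tt (fun u => 1 - xk X u) (xs X) v 0 with hu0
  set u1 := T.tt (fun u => 1 - xk X u) (xs X) v 1 with hu1
  set u2 := T.tt (fun u => 1 - xk X u) (xs X) v 2 with hu2
  set u3 := T.tt (fun u => 1 - xk X u) (xs X) v 3 with hu3
  change -(2 * Real.pi * I * (ff (t2 + t3) + ff t1 + ff t0)) + Real.pi * I *
      ((t2 + t3 - (u2 + u3)) * hh (t2 + t3) + (t1 - u1) * hh t1 + (t0 - u0) * hh t0) +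
    (Real.pi : ℂ) ^ 2 * (xib (T.Nj N v 0) (T.Nj N v 2) * (t2 + t3) + xiB (T.Nj N v) 1 * t1 +
      xiB (T.Nj N v) 0 * t0) +
    (-(2 * Real.pi * I * (ff (t0 + t1) + ff t3 + ff t2)) + Real.pi * I *
      ((t0 + t1 - (u0 + u1)) * hh (t0 + t1) + (t3 - u3) * hh t3 + (t2 - u2) * hh t2) +
    (Real.pi : ℂ) ^ 2 * (xib (T.Nj N v 0) (T.Nj N v 2) * (t0 + t1) + xiB (T.Nj N v) 3 * t3 +
      xiB (T.Nj N v) 2 * t2)) = _
  have e1 : t2 + t3 = 1 - (t0 + t1) := by linear_combination s1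
  have e2 : u2 + u3 = 1 - (u0 + u1) := by linear_combination s2
  rw [e2, e1, ff_reflect, hh_one_sub]
  ring

open Classical in
theorem rog_vert (hs : ∀ v, ∑ k, σ v k = 1) (hR : CReg T τ z σ) (hn : NOk T a N) {D : Dir c}
    (hD : T.IsDir a D) (v : Fin c) :
    Cg (∑ k, if T.has v k then
      ordR (decide (T.one v = 1 ∨ T.one v = 3)) (T.sX τ z σ true v k)
        ((T.fpar a N X τ z σ).x v k) (T.dirv D v k) +
      ordR (!decide (T.one v = 1 ∨ T.one v = 3)) (T.sX τ z σ false v k)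
        ((T.fpar a N X τ z σ).x' v k) (T.dirv D v k) else 0)
      (fvert T a N X τ z σ v) := by
  have h0 : T.has v 0 := Or.inl rfl
  have h3 : T.has v 3 := Or.inr (Or.inl rfl)
  have p0 := D_RgV_pair (X := X) hR hn hD v 0 h0
  have p3 := D_RgV_pair (X := X) hR hn hD v 3 h3
  obtain ⟨m, hm⟩ := D_RgV_mid03 hn hD v
  have v03 := D_RgV_v03 (T := T) (a := a) (N := N) (X := X) (τ := τ) (z := z) (σ := σ) v
  have c03 := (p0.add p3).trans (z := D_RgV_val (T.arv τ z σ v 0) (T.Kv a N X v 0)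
    (T.Hv a N v 0) + D_RgV_val (T.arv τ z σ v 3) (T.Kv a N X v 3) (T.Hv a N v 3)) (by
      refine ⟨-m, ?_⟩
      push_cast
      linear_combination (-(Real.pi : ℂ) ^ 2) * hm)
  rw [v03] at c03
  rw [Fin.sum_univ_four, if_pos h0, if_pos h3]
  cases he : T.isEnd v with
  | true =>
    have n1 : ¬ T.has v 1 := by
      rintro (h | h | h)
      · exact absurd h (by decide)
      · exact absurd h (by decide)
      · rw [he] at h; exact absurd h (by decide)
    have n2 : ¬ T.has v 2 := by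
      rintro (h | h | h)
      · exact absurd h (by decide)
      · exact absurd h (by decide)
      · rw [he] at h; exact absurd h (by decide)
    rw [if_neg n1, if_neg n2, add_zero, add_zero]
    unfold fvert
    rw [if_neg (by rw [he]; decide), add_zero]
    exact c03
  | false =>
    have h1 : T.has v 1 := Or.inr (Or.inr he)
    have h2 : T.has v 2 := Or.inr (Or.inr he)
    have p1 := D_RgV_pair (X := X) hR hn hD v 1 h1
    have p2 := D_RgV_pair (X := X) hR hn hD v 2 h2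
    obtain ⟨n1, hn1⟩ := D_RgV_H1 (T.tv v) (a v) (T.Nj N v) (D_RgV_mid (T.dirv D v 1))
    obtain ⟨n2, hn2⟩ := D_RgV_H2 (T.tv v) (a v) (T.Nj N v) (D_RgV_mid (T.dirv D v 2))
    obtain ⟨n3, hn3⟩ := D_RgV_xib (T.Nj N v 0) (T.Nj N v 2)
    have v12 := D_RgV_v12 (T := T) (a := a) (N := N) (X := X) (τ := τ) (z := z) (σ := σ) v (hs v)
    have e1 : T.Hv a N v 1 (D_RgV_mid (T.dirv D v 1)) = n1 := hn1
    have e2 : T.Hv a N v 2 (D_RgV_mid (T.dirv D v 2)) = n2 := hn2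
    have c12 := (p1.add p2).trans (z := ∑ k, fthe T N X τ σ v k) (by
      refine ⟨n3 - n1 - n2, ?_⟩
      rw [e1, e2]
      rw [hn3] at v12
      push_cast
      linear_combination v12)
    rw [if_pos h1, if_pos h2]
    unfold fvert
    rw [if_pos he]
    refine Cg.trans (Cg.of_eq ?_) (c03.add c12)
    ring

end Pool.Agent.H63.CLK
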