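import Pool.Agent.H63.CLK.D_Pot

set_option autoImplicit false

/-!
# CLK part D, D_Str: functions on the corners and functions on the strands

`exists_str` by duality from `exists_pot`. Let `E = Fin c × Fin 4 → ℂ`, `m` the mate (a fixed point free involution, `hG.ex`, `hG.un`), and
`Φ : E →ₗ E`, `Φ M (v,k) = M (v,k+1) + M (m (v,k+1)) - M (v,k) - M (m (v,k))`. Claim: `s ∈ range Φ`; then `L = M + M ∘ m`.
By duality (`Submodule.exists_le_ker_of_...` / `Subspace.forall_mem_dualAnnihilator_apply_eq_zero_iff`) it suffices: every linear functional `φ` with `φ ∘ Φ = 0` vanishes at `s`.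
Write `φ x = ∑ p, t p * x p`. Testing with `M = Pi.single p 1`: `ω p + ω (m p) = 0` for `ω (v,k) = t (v,k-1) - t (v,k)` (up to sign), and `∑ k, ω (v,k) = 0`.
`exists_pot` gives `χ` with `χ (cor v k) - χ (cor v (k-1)) = t (v,k) - t (v,k-1)` (use `-ω`), so `t (v,k) = χ (cor v k) + B v`, and
`∑ t s = ∑ v, B v ∑ k, s v k + ∑_{v,k} χ (cor v k) s v k = 0 + ∑_{f ∈ F} χ f ∑_{cor v k = f} s v k = 0` (outer corners have `s = 0`).
-/

namespace Pool.Agent.H63.CLK

variable {c : ℕ}

private theorem D_Str_dual {ι : Type} [Fintype ι] [DecidableEq ι] (Φ : (ι → ℂ) →ₗ[ℂ] (ι → ℂ))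
    (s : ι → ℂ) (h : ∀ t : ι → ℂ, (∀ q, ∑ p, t p * Φ (Pi.single q 1) p = 0) →
      ∑ p, t p * s p = 0) : ∃ M, Φ M = s := by
  by_contra hn
  have hs : s ∉ LinearMap.range Φ := fun ⟨M, hM⟩ => hn ⟨M, hM⟩
  obtain ⟨φ, h1, h2⟩ := Submodule.exists_le_ker_of_notMem hs
  have h3 : ∀ x : ι → ℂ, φ x = ∑ p, φ (fun j => if p = j then 1 else 0) * x p := by
    intro x
    rw [LinearMap.pi_apply_eq_sum_univ φ x]
    exact Finset.sum_congr rfl fun p _ => by rw [smul_eq_mul, mul_comm]
  apply h1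
  rw [h3]
  apply h
  intro q
  rw [← h3]
  exact h2 ⟨_, rfl⟩

private theorem D_Str_pick {ι : Type} [Fintype ι] [DecidableEq ι] (g g' : ι → ι)
    (h1 : ∀ p, g' (g p) = p) (h2 : ∀ p, g (g' p) = p) (t : ι → ℂ) (q : ι) :
    ∑ p, t p * (Pi.single q (1 : ℂ) : ι → ℂ) (g p) = t (g' q) := by
  rw [Finset.sum_eq_single (g' q)]
  · rw [h2, Pi.single_eq_same, mul_one]
  · intro p _ hp
    have h3 : g p ≠ q := fun h => hp (by rw [← h, h1])
    rw [Pi.single_eq_of_ne h3, mul_zero]
  · intro h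
    exact absurd (Finset.mem_univ _) h

private theorem D_Str_four (t : Fin 4 → ℂ) : ∑ k, (t k - t (k - 1)) = 0 := by
  rw [Fin.sum_univ_four]
  change (t 0 - t 3) + (t 1 - t 0) + (t 2 - t 1) + (t 3 - t 2) = 0
  ring

private theorem D_Str_const (t x : Fin 4 → ℂ) (h : ∀ k, x k = x (k - 1) + (t k - t (k - 1))) (k : Fin 4) :
    t k = x k + (t 0 - x 0) := by
  have h1 : x 1 = x 0 + (t 1 - t 0) := h 1
  have h2 : x 2 = x 1 + (t 2 - t 1) := h 2
  have h3 : x 3 = x 2 + (t 3 - t 2) := h 3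
  fin_cases k
  · change t 0 = x 0 + (t 0 - x 0)
    ring
  · change t 1 = x 1 + (t 0 - x 0)
    linear_combination -h1
  · change t 2 = x 2 + (t 0 - x 0)
    linear_combination -h1 - h2
  · change t 3 = x 3 + (t 0 - x 0)
    linear_combination -h1 - h2 - h3

private theorem D_Str_face (F : Finset ℕ) (cor : Fin c → Fin 4 → ℕ) (s : Fin c → Fin 4 → ℂ)
    (χ : ℕ → ℂ) (h0 : ∀ v k, cor v k ∉ F → s v k = 0)
    (h2 : ∀ f ∈ F, ∑ v, ∑ k, (if cor v k = f then s v k else 0) = 0) :
    ∑ v, ∑ k, χ (cor v k) * s v k = 0 := by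
  have h3 : ∀ v k, χ (cor v k) * s v k = ∑ f ∈ F, χ f * (if cor v k = f then s v k else 0) := by
    intro v k
    by_cases h : cor v k ∈ F
    · rw [Finset.sum_eq_single (cor v k)]
      · rw [if_pos rfl]
      · intro f _ hf
        rw [if_neg (fun h => hf h.symm), mul_zero]
      · intro h'
        exact absurd h h'
    · rw [h0 v k h, mul_zero]
      symm
      apply Finset.sum_eq_zero
      intro f _
      rw [ite_self, mul_zero]
  calc ∑ v, ∑ k, χ (cor v k) * s v k
      = ∑ v, ∑ k, ∑ f ∈ F, χ f * (if cor v k = f then s v k else 0) :=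
        Finset.sum_congr rfl fun v _ => Finset.sum_congr rfl fun k _ => h3 v k
    _ = ∑ f ∈ F, χ f * ∑ v, ∑ k, (if cor v k = f then s v k else 0) := by
        simp only [Finset.mul_sum]
        rw [Finset.sum_congr rfl fun v _ => Finset.sum_comm]
        exact Finset.sum_comm
    _ = 0 := Finset.sum_eq_zero fun f hf => by rw [h2 f hf, mul_zero]

theorem exists_str {w : List TPiece} {T : TData c} (hT : T.Of w) (hG : T.Good) (hN : T.Nice)
    (s : Fin c → Fin 4 → ℂ) (h0 : ∀ v k, T.cor v k ∉ T.F → s v k = 0) (h1 : ∀ v, ∑ k, s v k = 0)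
    (h2 : ∀ f ∈ T.F, ∑ v, ∑ k, (if T.cor v k = f then s v k else 0) = 0) :
    ∃ L : Fin c → Fin 4 → ℂ, (∀ p q, Mate T.leg p q → L p.1 p.2 = L q.1 q.2) ∧
      ∀ v k, L v (k + 1) - L v k = s v k := by
  have hsym : ∀ p q, Mate T.leg p q → Mate T.leg q p := fun p q h => ⟨h.1.symm, h.2.symm⟩
  choose m hm using hG.ex
  have hmm : ∀ p, m (m p) = p := fun p => hG.un (m p) _ _ (hm (m p)) (hsym _ _ (hm p))
  obtain ⟨Φ, hΦ⟩ : ∃ Φ : (Fin c × Fin 4 → ℂ) →ₗ[ℂ] (Fin c × Fin 4 → ℂ),
      ∀ M p, Φ M p = M (p.1, p.2 + 1) + M (m (p.1, p.2 + 1)) - M p - M (m p) := by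
    refine ⟨{ toFun := fun M p => M (p.1, p.2 + 1) + M (m (p.1, p.2 + 1)) - M p - M (m p),
              map_add' := ?_, map_smul' := ?_ }, fun _ _ => rfl⟩
    · intro M M'
      funext p
      simp only [Pi.add_apply]
      ring
    · intro a M
      funext p
      simp only [Pi.smul_apply, smul_eq_mul, RingHom.id_apply]
      ring
  have key : ∃ M, Φ M = fun p => s p.1 p.2 := by
    apply D_Str_dual
    intro t ht
    have h3 : ∀ q, t (q.1, q.2 - 1) + t ((m q).1, (m q).2 - 1) - t q - t (m q) = 0 := by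
      intro q
      have h4 := ht q
      have e1 : ∑ p, t p * (Pi.single q (1 : ℂ) : Fin c × Fin 4 → ℂ) (p.1, p.2 + 1) =
          t (q.1, q.2 - 1) :=
        D_Str_pick (fun p => (p.1, p.2 + 1)) (fun p => (p.1, p.2 - 1))
          (fun p => by simp) (fun p => by simp) t q
      have e2 : ∑ p, t p * (Pi.single q (1 : ℂ) : Fin c × Fin 4 → ℂ) (m (p.1, p.2 + 1)) =
          t ((m q).1, (m q).2 - 1) :=
        D_Str_pick (fun p => m (p.1, p.2 + 1)) (fun p => ((m p).1, (m p).2 - 1))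
          (fun p => by simp [hmm]) (fun p => by simp [hmm]) t q
      have e3 : ∑ p, t p * (Pi.single q (1 : ℂ) : Fin c × Fin 4 → ℂ) p = t q :=
        D_Str_pick (fun p => p) (fun p => p) (fun _ => rfl) (fun _ => rfl) t q
      have e4 : ∑ p, t p * (Pi.single q (1 : ℂ) : Fin c × Fin 4 → ℂ) (m p) = t (m q) :=
        D_Str_pick m m hmm hmm t q
      simp only [hΦ, mul_add, mul_sub, Finset.sum_add_distrib, Finset.sum_sub_distrib] at h4
      rw [e1, e2, e3, e4] at h4
      exact h4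
    obtain ⟨χ, hχ⟩ := exists_pot hT hG hN (fun v k => t (v, k) - t (v, k - 1)) (by
      intro p q hpq
      have h5 : q = m p := hG.un p _ _ hpq (hm p)
      rw [h5]
      change (t (p.1, p.2) - t (p.1, p.2 - 1)) +
        (t ((m p).1, (m p).2) - t ((m p).1, (m p).2 - 1)) = 0
      linear_combination -(h3 p)) (fun v => D_Str_four fun k => t (v, k))
    have h6 : ∀ v k, t (v, k) = χ (T.cor v k) + (t (v, 0) - χ (T.cor v 0)) := fun v k =>
      D_Str_const (fun k => t (v, k)) (fun k => χ (T.cor v k)) (fun k => hχ v k) k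
    rw [Fintype.sum_prod_type]
    have h7 : ∀ v, ∑ k, t (v, k) * s v k = ∑ k, χ (T.cor v k) * s v k := by
      intro v
      have h8 : ∀ k, t (v, k) * s v k = χ (T.cor v k) * s v k +
          (t (v, 0) - χ (T.cor v 0)) * s v k := by
        intro k
        rw [← add_mul, ← h6]
      rw [Finset.sum_congr rfl fun k _ => h8 k, Finset.sum_add_distrib, ← Finset.mul_sum, h1,
        mul_zero, add_zero]
    change ∑ v, ∑ k, t (v, k) * s v k = 0
    rw [Finset.sum_congr rfl fun v _ => h7 v]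
    exact D_Str_face T.F T.cor s χ h0 h2
  obtain ⟨M, hM⟩ := key
  refine ⟨fun v k => M (v, k) + M (m (v, k)), ?_, ?_⟩
  · intro p q hpq
    have h5 : q = m p := hG.un p _ _ hpq (hm p)
    rw [h5]
    change M p + M (m p) = M (m p) + M (m (m p))
    rw [hmm, add_comm]
  · intro v k
    have h6 := congrFun hM (v, k)
    rw [hΦ] at h6
    change M (v, k + 1) + M (m (v, k + 1)) - M (v, k) - M (m (v, k)) = s v k at h6
    linear_combination h6

end Pool.Agent.H63.CLK
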