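import Pool.Agent.H63.CLK.D_Hyp
import Pool.Agent.H63.VC.Asym
import Pool.Agent.H63.VC.EndB
import Pool.Agent.H63.VC.Riem
import Pool.Agent.H63.VC.SlowL
import Pool.Agent.H63.VC.SlowU
import Pool.Agent.H63.VC.Small
import Pool.Agent.H63.VC3.BWff

/-! # Ideal tetrahedra over inscribed triangles -/

namespace Pool.Agent.H63.CLK

open Pool.Agent.H63.VC hiding ext
open Pool.Agent.H63.VC3 Pool.Agent.H63.VC7.Hyp Complex

/-- The logarithmic parameters of the tetrahedron over the inscribed triangle with the arcs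
`a`, `b`, `c` (in units of `2 π`). -/
noncomputable def tri (a b c : ℂ) : Fin 3 → ℂ :=
  ![Real.pi * I * a + hh b - hh c, Real.pi * I * b + hh c - hh a, Real.pi * I * c + hh a - hh b]

/-- Its shape parameter. -/
noncomputable def tsh (a b c : ℂ) : ℂ := exp (Real.pi * I * a + hh b - hh c)

/-- The tetrahedron is positively oriented. -/
structure TOk (a b c : ℂ) : Prop where
  sum : a + b + c = 1
  ra : 0 < a.re
  rb : 0 < b.re
  rc : 0 < c.re
  im : ∀ k, 0 < (tri a b c k).im

theorem hh_one_sub (z : ℂ) : hh (1 - z) = hh z := by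
  unfold hh
  rw [show (Real.pi : ℂ) * (1 - z) = Real.pi - Real.pi * z by ring, Complex.sin_pi_sub]

theorem D_Tri_re {a b c : ℂ} (h : a + b + c = 1) (hb : 0 < b.re) (hc : 0 < c.re) : a.re < 1 := by
  have h1 := congrArg Complex.re h
  simp only [Complex.add_re, Complex.one_re] at h1
  linarith

theorem D_Tri_cyc {a b c : ℂ} (h : TOk a b c) : TOk b c a := by
  refine ⟨by rw [← h.sum]; ring, h.rb, h.rc, h.ra, fun k => ?_⟩
  have h0 := h.im 0
  have h1 := h.im 1
  have h2 := h.im 2
  simp only [tri] at h0 h1 h2 ⊢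
  fin_cases k
  · exact h1
  · exact h2
  · exact h0

/-- The basic identity. -/
theorem D_Tri_one_sub (a b c : ℂ) (h : a + b + c = 1) (ra : 0 < a.re) (rb : 0 < b.re)
    (rc : 0 < c.re) : 1 - tsh a b c = exp (-(Real.pi * I * b) + hh a - hh c) := by
  have ha1 : a.re < 1 := D_Tri_re h rb rc
  have hb1 : b.re < 1 := D_Tri_re (a := b) (b := c) (c := a) (by rw [← h]; ring) rc ra
  have hc1 : c.re < 1 := D_Tri_re (a := c) (b := a) (c := b) (by rw [← h]; ring) ra rb
  have ea := hh_exp a ra ha1
  have eb := hh_exp b rb hb1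
  have ec := hh_exp c rc hc1
  have hcne : exp (hh c) ≠ 0 := exp_ne_zero _
  rw [tsh, exp_sub, exp_add, exp_sub, exp_add, ea, eb, ec]
  rw [ec] at hcne
  rw [eq_div_iff hcne, sub_mul, one_mul, div_mul_cancel₀ _ hcne]
  have e1 : (Real.pi : ℂ) * c = Real.pi - (Real.pi * a + Real.pi * b) := by
    have : c = 1 - (a + b) := by rw [← h]; ring
    rw [this]; ring
  rw [e1, Complex.sin_pi_sub, Complex.sin_add]
  have e2 : exp (Real.pi * I * a) = cos (Real.pi * a) + sin (Real.pi * a) * I := by
    rw [← Complex.exp_mul_I]; congr 1; ring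
  have e3 : exp (-(Real.pi * I * b)) = cos (Real.pi * b) - sin (Real.pi * b) * I := by
    have := Complex.exp_mul_I (-(Real.pi * b))
    rw [Complex.cos_neg, Complex.sin_neg] at this
    rw [show -(Real.pi * I * b) = -(Real.pi * b) * I by ring, this]
    ring
  rw [e2, e3]
  ring

/-- The logarithms of the shape parameters. -/
theorem tri_lgs {a b c : ℂ} (h : TOk a b c) :
    0 < (tsh a b c).im ∧ lgs (tsh a b c) = tri a b c := by
  have h0 := h.im 0
  have h1 := h.im 1
  have h2 := h.im 2
  have hs : tri a b c 0 + tri a b c 1 + tri a b c 2 = Real.pi * I := by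
    simp only [tri, Matrix.cons_val_zero, Matrix.cons_val_one, Matrix.cons_val]
    linear_combination (Real.pi * I) * h.sum
  have hs' := congrArg Complex.im hs
  have hpi : ((Real.pi : ℂ) * I).im = Real.pi := by simp
  rw [hpi, Complex.add_im, Complex.add_im] at hs'
  have hlog : ∀ w : ℂ, 0 < w.im → w.im < Real.pi → Complex.log (exp w) = w := fun w hw0 hw1 =>
    Complex.log_exp (by linarith [Real.pi_pos]) hw1.le
  have e0 : tsh a b c = exp (tri a b c 0) := rfl
  have him : 0 < (tsh a b c).im := by
    rw [e0, Complex.exp_im]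
    exact mul_pos (Real.exp_pos _) (Real.sin_pos_of_pos_of_lt_pi h0 (by linarith))
  have e1 : 1 / (1 - tsh a b c) = exp (tri a b c 1) := by
    rw [D_Tri_one_sub a b c h.sum h.ra h.rb h.rc, one_div, ← exp_neg]
    congr 1
    change _ = Real.pi * I * b + hh c - hh a
    ring
  have e1' : tsh b c a = exp (tri a b c 1) := rfl
  have e2 : 1 - 1 / tsh a b c = exp (tri a b c 2) := by
    have h3 := D_Tri_one_sub b c a (by rw [← h.sum]; ring) h.rb h.rc h.ra
    have h4 : 1 / (1 - tsh b c a) = exp (tri a b c 2) := by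
      rw [h3, one_div, ← exp_neg]
      congr 1
      change _ = Real.pi * I * c + hh a - hh b
      ring
    rw [← h4, e1', ← e1]
    have hz : tsh a b c ≠ 0 := by rw [e0]; exact exp_ne_zero _
    have hz1 : 1 - tsh a b c ≠ 0 := by
      rw [D_Tri_one_sub a b c h.sum h.ra h.rb h.rc]; exact exp_ne_zero _
    have : 1 - 1 / (1 - tsh a b c) = -tsh a b c / (1 - tsh a b c) := by
      field_simp
      ring
    rw [this]
    field_simp
    ring
  refine ⟨him, ?_⟩
  funext k
  fin_cases k
  · change Complex.log (tsh a b c) = _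
    rw [e0]
    exact hlog _ h0 (by linarith)
  · change Complex.log (1 / (1 - tsh a b c)) = _
    rw [e1]
    exact hlog _ h1 (by linarith)
  · change Complex.log (1 - 1 / tsh a b c) = _
    rw [e2]
    exact hlog _ h2 (by linarith)

/-- The volume of a tetrahedron and its mirror image. -/
theorem tri_vol (a b c : ℂ) (h : a + b + c = 1) (ra : 0 < a.re) (rb : 0 < b.re) (rc : 0 < c.re) :
    blochWigner (tsh a b c) + blochWigner (tsh a c b) =
      blochWigner (exp (2 * Real.pi * I * a)) + blochWigner (exp (2 * Real.pi * I * b)) +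
        blochWigner (exp (2 * Real.pi * I * c)) := by
  have ha1 : a.re < 1 := D_Tri_re h rb rc
  have hb1 : b.re < 1 := D_Tri_re (a := b) (b := c) (c := a) (by rw [← h]; ring) rc ra
  have hc1 : c.re < 1 := D_Tri_re (a := c) (b := a) (c := b) (by rw [← h]; ring) ra rb
  -- the product
  have hprod : tsh a b c * tsh a c b = exp (2 * Real.pi * I * a) := by
    rw [tsh, tsh, ← exp_add]; congr 1; ring
  -- `1 - exp (2 π i x)`
  have hone : ∀ x : ℂ, 0 < x.re → x.re < 1 →
      1 - exp (2 * Real.pi * I * x) = exp (Real.pi * I * x + hh x - Real.pi * I / 2) := by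
    intro x h0 h1
    have ex := hh_exp x h0 h1
    rw [exp_sub, exp_add, ex]
    have e2 : exp (Real.pi * I * x) = cos (Real.pi * x) + sin (Real.pi * x) * I := by
      rw [← Complex.exp_mul_I]; congr 1; ring
    have e3 : exp (2 * Real.pi * I * x) = exp (Real.pi * I * x) ^ 2 := by
      rw [← exp_nat_mul]; congr 1; push_cast; ring
    have e4 : exp (Real.pi * I / 2) = I := by
      rw [show (Real.pi : ℂ) * I / 2 = Real.pi / 2 * I by ring]
      exact Complex.exp_pi_div_two_mul_I
    rw [e3, e4, e2, eq_div_iff Complex.I_ne_zero]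
    have hcs := Complex.cos_sq_add_sin_sq (Real.pi * x)
    have hI := Complex.I_mul_I
    have hI2 : I ^ 2 = -1 := Complex.I_sq
    ring_nf
    rw [show I ^ 3 = -I by rw [pow_succ, hI2]; ring, hI2]
    linear_combination (-I) * hcs
  have hne : ∀ x : ℂ, 0 < x.re → x.re < 1 → exp (2 * Real.pi * I * x) ≠ 1 := by
    intro x h0 h1 h2
    have := hone x h0 h1
    rw [h2, sub_self] at this
    exact exp_ne_zero _ this.symm
  have five := five_term (tsh a b c) (tsh a c b) (by rw [hprod]; exact hne a ra ha1)
  rw [hprod] at five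
  have key : ∀ b c : ℂ, a + b + c = 1 → 0 < b.re → 0 < c.re → c.re < 1 →
      blochWigner ((1 - tsh a b c) / (1 - exp (2 * Real.pi * I * a))) =
        -blochWigner (exp (2 * Real.pi * I * c)) := by
    intro b c h rb rc hc1
    have e1 : (1 - tsh a b c) / (1 - exp (2 * Real.pi * I * a)) =
        (1 - (exp (2 * Real.pi * I * c))⁻¹)⁻¹ := by
      have hc' := hone c rc hc1
      have e5 : 1 - (exp (2 * Real.pi * I * c))⁻¹ =
          exp (-(Real.pi * I * c) + hh c + Real.pi * I / 2) := by
        have hE : exp (2 * Real.pi * I * c) ≠ 0 := exp_ne_zero _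
        have : 1 - (exp (2 * Real.pi * I * c))⁻¹ =
            -(1 - exp (2 * Real.pi * I * c)) * (exp (2 * Real.pi * I * c))⁻¹ := by
          field_simp
          ring
        rw [this, hc', ← exp_neg, neg_mul, ← exp_add]
        have hneg : ∀ w : ℂ, -exp w = exp (w + Real.pi * I) := by
          intro w
          rw [exp_add, Complex.exp_pi_mul_I]; ring
        rw [hneg]
        congr 1
        ring
      rw [D_Tri_one_sub a b c h ra rb rc, hone a ra ha1, e5, ← exp_sub, ← exp_neg]
      rw [Complex.exp_eq_exp_iff_exists_int]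
      refine ⟨0, ?_⟩
      have : b = 1 - a - c := by rw [← h]; ring
      rw [this]
      push_cast
      ring
    rw [e1, SWpath_inv, SWpath_one_sub, SWpath_inv, neg_neg]
  have k1 := key b c h rb rc hc1
  have k2 := key c b (by rw [← h]; ring) rc rb hb1
  rw [k1, k2, SWpath_one_sub] at five
  linarith

end Pool.Agent.H63.CLK
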