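import Pool.Agent.H63.CLK.D_Fan
import Pool.Agent.H63.CLK.D_Oct
import Pool.Agent.H63.CLK.D_Pos

/-!
# CLK part D, D_VolT: the volume of the solution

`DD x := blochWigner (exp (2 π i x))`, `DD (1 - x) = - DD x` (`SWpath_inv`).
* `vol_sum`: twist regions: `oct_vol0`, and for `T.isEnd v = false` also `oct_vol1`; `1/2 - κ ± z' = τ - 1/2 ± z'`, `DD κ = DD (1 - τ) = - DD τ`,
  `∑ j, DD (t j) = ∑ k, DD (csr k - σ v k)` (`cna (one v)` is a bijection). Whether `one v` is odd or even only exchanges `P` and `P'`.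
  Faces: `fan_vol` and `sf_sum` (for `fun v k => DD (σ v k)`), then `∑ f ∈ T.F, ∑ v, ∑ k, if cor v k = f ... = ∑ v, ∑ k, if cor v k ∈ T.F ...`.
* `psi_re`: `ff_re_bw`: `2 π re (ff x) = - DD x - 2 π im x im (hh x)` for `0 < re x < 1`. So `2 π re Psi` = the right side of `vol_sum` (for an end vertex
  `DD (σ v k)` for its two bounded corners, `σ = csr`, cancel: `DD (1-τ) + DD τ = 0`) plus `2 π` times
  `∑_v [ re (2 π i ((a/2) z² + z)) / ... ]`; the correction terms are, with `y = τ - 1/2`: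
  `C = ∑_v [ re (i (a z² + 2 z)) · π ·  ... ]`. Precisely, dividing by `2 π`: the sum of
   (1) `re (2 π i (a z²/2 + z)) = - 2 π im (a z²/2 + z) = - 2 π (a re z im z + im z)`,
   (2) `- 2 im τ im (hh τ) + im (y - z) im (hh (y - z)) + im (y + z) im (hh (y + z))`
       `= im τ (- 2 im hh τ + im hh (y-z) + im hh (y+z)) + im z (im hh (y+z) - im hh (y-z))`,
   (3) for `v` not an end and `k` bounded: `im σ im (hh σ) + im θ im (hh θ)`, `θ = csr - σ`: `= im σ (im hh σ - im hh θ) + im csr im hh θ`; `k` outer: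
       `im csr im (hh csr)`, i.e. the same with `σ = 0`, `θ = csr`.
  The imaginary part of `CritT.zz`: `2 π (a re z + 1) + im hh (y-z) - im hh (y+z) = 0`: times `im z`, it cancels (1) and the last part of (2).
  `im csr k = - im τ` for `k` even, `+ im τ` for `k` odd: by `CritT.tau` the terms with `im τ` cancel for `v` not an end. What remains for these `v`:
  `∑_k im σ (im hh σ - im hh θ) = ∑_k im σ (im A (cor v k) + im B v)` over the bounded corners `= ∑_k im σ im A` (`∑_k σ v k = 1` is real, `σ = 0` at outer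
  corners). For an end: `im τ (-2 im hh τ + im hh(y-z) + im hh(y+z)) = - im τ ∑_(bounded k) ± im A = ∑_(bounded k) im (csr k) im A (cor v k) = ∑ im σ im A` by `CritT.tau0`, `fin`.
  In total `∑_v ∑_(bounded k) im σ v k im A (cor v k) = ∑_(f ∈ F) im A f · im (∑ σ at f) = 0`.
-/

namespace Pool.Agent.H63.CLK

open Pool.Agent.H63.VC hiding ext
open Pool.Agent.H63.VC3 Pool.Agent.H63.VC7.Hyp Complex

variable {c : ℕ} {w : List TPiece} {T : TData c} {a : Fin c → ℤ} {τ z : Fin c → ℂ}
  {σ : Fin c → Fin 4 → ℂ} {A : ℕ → ℂ} {B : Fin c → ℂ}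

/-- `D (exp (2 π i x))`. -/
noncomputable def DD (x : ℂ) : ℝ := blochWigner (exp (2 * Real.pi * I * x))

/-- The volume of the solution as a sum of values of `DD`. -/
noncomputable def volS (T : TData c) (τ z : Fin c → ℂ) (σ : Fin c → Fin 4 → ℂ) : ℝ :=
  (∑ v, (-2 * DD (τ v) + DD (τ v - 1 / 2 + z v) + DD (τ v - 1 / 2 - z v))) +
    (∑ v, ∑ k, if T.isEnd v = false then DD (csr (τ v) k - σ v k) else 0) +
    ∑ v, ∑ k, if T.cor v k ∈ T.F then DD (σ v k) else 0

theorem DD_one_sub (x : ℂ) : DD (1 - x) = -DD x := by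
  unfold DD
  rw [← SWpath_inv, ← exp_neg]
  congr 1
  rw [Complex.exp_eq_exp_iff_exists_int]
  refine ⟨1, ?_⟩
  push_cast
  ring

/-- The sum over the corners in the order of `cna`. -/
theorem D_VolT_cna (i : Fin 4) (g : Fin 4 → ℝ) : ∑ j, g (cna i j) = ∑ k, g k := by
  fin_cases i
  · have h0 : cna 0 0 = 3 := by decide
    have h1 : cna 0 1 = 2 := by decide
    have h2 : cna 0 2 = 1 := by decide
    have h3 : cna 0 3 = 0 := by decide
    simp only [Fin.sum_univ_four, Fin.zero_eta, h0, h1, h2, h3]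
    ring
  · have h0 : cna 1 0 = 1 := by decide
    have h1 : cna 1 1 = 2 := by decide
    have h2 : cna 1 2 = 3 := by decide
    have h3 : cna 1 3 = 0 := by decide
    simp only [Fin.sum_univ_four, Fin.mk_one, h0, h1, h2, h3]
    ring
  · have h0 : cna 2 0 = 1 := by decide
    have h1 : cna 2 1 = 0 := by decide
    have h2 : cna 2 2 = 3 := by decide
    have h3 : cna 2 3 = 2 := by decide
    simp only [Fin.sum_univ_four, Fin.reduceFinMk, h0, h1, h2, h3]
    ring
  · have h0 : cna 3 0 = 3 := by decide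
    have h1 : cna 3 1 = 0 := by decide
    have h2 : cna 3 2 = 1 := by decide
    have h3 : cna 3 3 = 2 := by decide
    simp only [Fin.sum_univ_four, Fin.reduceFinMk, h0, h1, h2, h3]
    ring

/-- The same for complex numbers. -/
theorem D_VolT_cnaC (i : Fin 4) (g : Fin 4 → ℂ) : ∑ j, g (cna i j) = ∑ k, g k := by
  apply Complex.ext
  · rw [Complex.re_sum, Complex.re_sum]
    exact D_VolT_cna i fun k => (g k).re
  · rw [Complex.im_sum, Complex.im_sum]
    exact D_VolT_cna i fun k => (g k).im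

/-- The two tetrahedra `k` at `v`. -/
theorem D_VolT_pair (v : Fin c) (k : Fin 4) :
    blochWigner (T.sX τ z σ true v k) + blochWigner (T.sX τ z σ false v k) =
      blochWigner (tsh (oa (1 - τ v) (T.zf z v) (T.tt τ σ v) k)
        (ob (1 - τ v) (T.zf z v) (T.tt τ σ v) k) (oc (1 - τ v) (T.zf z v) (T.tt τ σ v) k)) +
      blochWigner (tsh (oa (1 - τ v) (T.zf z v) (T.tt τ σ v) k)
        (oc (1 - τ v) (T.zf z v) (T.tt τ σ v) k) (ob (1 - τ v) (T.zf z v) (T.tt τ σ v) k)) := by
  unfold TData.sX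
  by_cases h : T.one v = 1 ∨ T.one v = 3
  · simp only [h, decide_true, if_true, Bool.true_eq_false, if_false]
  · simp only [h, decide_false, if_true, Bool.false_eq_true, if_false]
    rw [add_comm]

/-- The tetrahedra `0` and `3`. -/
theorem D_VolT_03 (hR : Reg T τ z σ) (v : Fin c) :
    (blochWigner (T.sX τ z σ true v 0) + blochWigner (T.sX τ z σ false v 0)) +
      (blochWigner (T.sX τ z σ true v 3) + blochWigner (T.sX τ z σ false v 3)) =
    -2 * DD (τ v) + DD (τ v - 1 / 2 + z v) + DD (τ v - 1 / 2 - z v) := by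
  have h1 : 0 < (1 - τ v).re := by
    have := (hR.tau v).2
    simp only [Complex.sub_re, Complex.one_re]
    linarith
  have hp := hR.zp v
  have hm := hR.zm v
  have ht := hR.tau v
  have e12 : ((1 : ℂ) / 2).re = 1 / 2 := by
    rw [show (1 : ℂ) / 2 = ((1 / 2 : ℝ) : ℂ) by push_cast; ring, Complex.ofReal_re]
  rw [D_VolT_pair, D_VolT_pair]
  have hz : T.zf z v = z v ∨ T.zf z v = -z v := by
    unfold TData.zf
    split_ifs
    · exact Or.inl rfl
    · exact Or.inr rfl
  have e : ∀ x : ℂ, 1 / 2 - (1 - τ v) + x = τ v - 1 / 2 + x := fun x => by ring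
  have e' : ∀ x : ℂ, 1 / 2 - (1 - τ v) - x = τ v - 1 / 2 - x := fun x => by ring
  simp only [Complex.add_re, Complex.sub_re, e12] at hp hm
  have h2 : 0 < (1 / 2 - (1 - τ v) + T.zf z v).re := by
    rw [e]
    rcases hz with h | h <;> rw [h] <;> simp only [Complex.add_re, Complex.sub_re, Complex.neg_re, e12] <;>
      linarith [hp.1, hm.1]
  have h3 : 0 < (1 / 2 - (1 - τ v) - T.zf z v).re := by
    rw [e']
    rcases hz with h | h <;> rw [h] <;> simp only [Complex.sub_re, Complex.neg_re, e12] <;>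
      linarith [hp.1, hm.1]
  have h4 : |(T.zf z v).re| < 1 / 2 := by
    rw [abs_lt]
    rcases hz with h | h <;> rw [h] <;> (try simp only [Complex.neg_re]) <;> constructor <;>
      linarith [hp.1, hm.1, ht.2]
  rw [oct_vol0 _ _ _ h1 h2 h3 h4, e, e']
  have e1 : blochWigner (exp (2 * Real.pi * I * (1 - τ v))) = -DD (τ v) := DD_one_sub (τ v)
  rw [e1]
  rcases hz with h | h
  · rw [h]
    unfold DD
    ring
  · rw [h, show τ v - 1 / 2 + -z v = τ v - 1 / 2 - z v by ring,
      show τ v - 1 / 2 - -z v = τ v - 1 / 2 + z v by ring]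
    unfold DD
    ring

/-- The sum of the arcs `θ`. -/
theorem D_VolT_tt (hc : CritT T a τ z σ A B) (v : Fin c) :
    T.tt τ σ v 0 + T.tt τ σ v 1 + T.tt τ σ v 2 + T.tt τ σ v 3 = 1 := by
  have h : ∑ j, T.tt τ σ v j = ∑ k, (csr (τ v) k - σ v k) :=
    D_VolT_cnaC (T.one v) fun k => csr (τ v) k - σ v k
  rw [Finset.sum_sub_distrib, hc.sumv v, Fin.sum_univ_four, Fin.sum_univ_four] at h
  rw [h]
  simp only [csr, Matrix.cons_val_zero, Matrix.cons_val_one, Matrix.cons_val]
  ring

/-- The tetrahedra `1` and `2`. -/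
theorem D_VolT_12 (hR : Reg T τ z σ) (hc : CritT T a τ z σ A B) (v : Fin c)
    (hv : T.isEnd v = false) :
    (blochWigner (T.sX τ z σ true v 1) + blochWigner (T.sX τ z σ false v 1)) +
      (blochWigner (T.sX τ z σ true v 2) + blochWigner (T.sX τ z σ false v 2)) =
    ∑ k, DD (csr (τ v) k - σ v k) := by
  rw [D_VolT_pair, D_VolT_pair]
  have hp : ∀ j, 0 < (T.tt τ σ v j).re := fun j => (hR.the v _ hv).1
  rw [oct_vol1 _ _ _ (D_VolT_tt hc v) hp]
  exact D_VolT_cna (T.one v) fun k => DD (csr (τ v) k - σ v k)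

/-- The tetrahedra of a face. -/
theorem D_VolT_face (hT : T.Of w) (hN : T.Nice) (hR : Reg T τ z σ) (hc : CritT T a τ z σ A B)
    (f : ℕ) (hf : f ∈ T.F) :
    ∑ j ∈ Finset.Ico 1 (T.deg f - 1), (blochWigner (T.sZ σ f j) + blochWigner (T.sZ' σ f j)) =
      ∑ v, ∑ k, if T.cor v k = f then DD (σ v k) else 0 := by
  have hb := hT.bdy f hf
  have h1 : psm (T.sf σ f) (T.deg f) = 1 := by
    rw [← hc.sumf f hf, ← sf_sum hb σ]
    rfl
  have hp : ∀ j < T.deg f, 0 < (T.sf σ f j).re := by
    intro j hj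
    have h2 : T.cor (T.bd f j).1 (T.bd f j).2 = f := (hb.mem (T.bd f j)).2 ⟨j, hj, rfl⟩
    exact (hR.sig _ _ (by rw [h2]; exact hf)).1
  have h2 := fan_vol (T.deg f) (T.sf σ f) (hN.deg f hf) h1 hp
  unfold TData.sZ TData.sZ'
  rw [h2, ← sf_sum hb fun v k => DD (σ v k)]
  rfl

theorem vol_sum (hT : T.Of w) (hN : T.Nice) (hR : Reg T τ z σ) (hc : CritT T a τ z σ A B) :
    T.vol (T.sX τ z σ true) (T.sX τ z σ false) (T.sZ σ) (T.sZ' σ) = volS T τ z σ := by
  unfold TData.vol volS
  congr 1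
  · rw [← Finset.sum_add_distrib]
    refine Finset.sum_congr rfl fun v _ => ?_
    rw [← D_VolT_03 hR v, Fin.sum_univ_four]
    cases hv : T.isEnd v
    · have hh0 : T.has v 0 := Or.inl rfl
      have hh1 : T.has v 1 := Or.inr (Or.inr hv)
      have hh2 : T.has v 2 := Or.inr (Or.inr hv)
      have hh3 : T.has v 3 := Or.inr (Or.inl rfl)
      simp only [hh0, hh1, hh2, hh3, if_true]
      rw [← D_VolT_12 hR hc v hv]
      ring
    · have hh0 : T.has v 0 := Or.inl rfl
      have hh1 : ¬ T.has v 1 := by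
        unfold TData.has
        rw [hv]
        decide
      have hh2 : ¬ T.has v 2 := by
        unfold TData.has
        rw [hv]
        decide
      have hh3 : T.has v 3 := Or.inr (Or.inl rfl)
      simp only [hh0, hh1, hh2, hh3, if_true, if_false, Bool.true_eq_false, Finset.sum_const_zero]
      ring
  · rw [Finset.sum_congr rfl fun f hf => D_VolT_face hT hN hR hc f hf, Finset.sum_comm]
    refine Finset.sum_congr rfl fun v _ => ?_
    rw [Finset.sum_comm]
    refine Finset.sum_congr rfl fun k _ => ?_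
    rw [Finset.sum_ite_eq]

end Pool.Agent.H63.CLK
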