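import Pool.Agent.H63.CLK.E_Re

/-! # Bounds of the real part of the potential on the paths -/

namespace Pool.Agent.H63.CLK

open Complex Filter Topology
open scoped BigOperators

variable {d c : ℕ} {Φ : (Ix d c → ℂ) → ℂ} {ε : ℝ}

/-- the real part of a term of the oscillating part -/
private theorem E_Bd_term (r : ℝ) (w : ℂ) :
    (2 * Real.pi * I * (r * w ^ 2 + w)).re = -(2 * Real.pi) * (2 * r * w.re * w.im + w.im) := by
  simp [sq]
  ring

/-- the real part of the oscillating part -/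
private theorem E_Bd_Qr (r : Fin c → ℝ) (z : Ix d c → ℂ) :
    (Qr r z).re = ∑ j, -(2 * Real.pi) * (2 * r j * (z (Sum.inr j)).re * (z (Sum.inr j)).im +
      (z (Sum.inr j)).im) := by
  unfold Qr
  rw [Complex.re_sum]
  exact Finset.sum_congr rfl fun j _ => E_Bd_term (r j) _

/-- the terms of the integration variables are small -/
private theorem E_Bd_small {C K δ R s : ℝ} (hC : 0 < C) (hK : 0 < K) (hδ : 0 < δ) (hR1 : 1 ≤ R)
    (hR : (C * K ^ 2 + 8 * Real.pi * δ * K) ≤ s * R) {r Y a : ℝ} (hr : R ≤ |r|)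
    (hY : 0 < Y ∧ Y ≤ K / r ^ 2) (ha : |a| ≤ 2 * δ) :
    C * Y ^ 2 + -(2 * Real.pi) * (2 * r * a * Y + Y) ≤ s := by
  have hR0 : 0 < R := by linarith
  have hr0 : 0 < |r| := by linarith
  have hrr : r ^ 2 = |r| ^ 2 := (sq_abs r).symm
  have hY1 : Y * |r| ^ 2 ≤ K := by
    have := hY.2
    rw [hrr, le_div_iff₀ (by positivity)] at this
    exact this
  have hYr : Y * |r| ≤ K / R := by
    rw [le_div_iff₀ hR0]
    nlinarith [mul_pos hY.1 hr0]
  have hYK : Y ≤ K / R := by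
    have : Y ≤ Y * |r| := by nlinarith [hY.1]
    linarith
  have hY2 : Y ^ 2 ≤ K ^ 2 / R := by
    have h1 : Y ^ 2 ≤ (K / R) ^ 2 := pow_le_pow_left₀ hY.1.le hYK 2
    have h2 : (K / R) ^ 2 ≤ K ^ 2 / R := by
      rw [div_pow]
      apply div_le_div_of_nonneg_left (by positivity) hR0
      nlinarith
    linarith
  have hraY : -(2 * r * a * Y) ≤ 4 * δ * (K / R) := by
    have h1 : -(2 * r * a * Y) ≤ |2 * r * a * Y| := neg_le_abs _
    have h2 : |2 * r * a * Y| = 2 * |a| * (Y * |r|) := by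
      rw [abs_mul, abs_mul, abs_mul, abs_of_pos hY.1, abs_of_pos (by norm_num : (0 : ℝ) < 2)]
      ring
    have h3 : 2 * |a| * (Y * |r|) ≤ 2 * (2 * δ) * (K / R) := by
      apply mul_le_mul _ hYr (mul_nonneg hY.1.le (abs_nonneg _)) (by positivity)
      linarith
    linarith
  have hpi := Real.pi_pos
  have h5 : C * Y ^ 2 + -(2 * Real.pi) * (2 * r * a * Y + Y) ≤
      C * (K ^ 2 / R) + 2 * Real.pi * (4 * δ * (K / R)) := by
    have h6 : C * Y ^ 2 ≤ C * (K ^ 2 / R) := mul_le_mul_of_nonneg_left hY2 hC.le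
    have h7 : -(2 * Real.pi) * (2 * r * a * Y + Y) ≤ 2 * Real.pi * (4 * δ * (K / R)) := by
      have h8 : 2 * Real.pi * (-(2 * r * a * Y)) ≤ 2 * Real.pi * (4 * δ * (K / R)) :=
        mul_le_mul_of_nonneg_left hraY (by positivity)
      have h9 : 0 < 2 * Real.pi * Y := by
        have := hY.1
        positivity
      linarith
    linarith
  have h10 : C * (K ^ 2 / R) + 2 * Real.pi * (4 * δ * (K / R)) =
      (C * K ^ 2 + 8 * Real.pi * δ * K) / R := by
    field_simp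
    ring
  have h11 : (C * K ^ 2 + 8 * Real.pi * δ * K) / R ≤ s := by
    rw [div_le_iff₀ hR0]
    exact hR
  linarith

theorem pot_bound (h : PotOK Φ ε) : ∃ δ0 : ℝ, 0 < δ0 ∧ ∀ δ : ℝ, 0 < δ → δ ≤ δ0 →
    ∃ η : ℝ, 0 < η ∧ η ≤ δ ∧ η ≤ 1 ∧ ∃ c' : ℝ, 0 < c' ∧ c' ≤ Real.pi * η ∧ ∀ K : ℝ, 0 < K →
    ∃ R : ℝ, 0 < R ∧ ∀ r : Fin c → ℝ, (∀ j, R ≤ |r j|) → ∀ Y : Fin c → ℝ,
    (∀ j, 0 < Y j ∧ Y j ≤ K / (r j) ^ 2) → ∀ z : Ix d c → ℂ,
    (∀ i, |(z (Sum.inl i)).re| ≤ 2 * δ ∧ |(z (Sum.inl i)).im| ≤ η) →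
    (∀ j, |(z (Sum.inr j)).re| ≤ 2 * δ ∧ (z (Sum.inr j)).im = Y j) →
      (Φ z + Qr r z).re ≤ (Φ 0).re + Real.pi * η ∧
      ((∃ i, δ / 2 ≤ |(z (Sum.inl i)).re|) → (Φ z + Qr r z).re ≤ (Φ 0).re - c') := by
  obtain ⟨k, hk, C, hC, ε1, hε1, -, hre⟩ := re_bound h
  have hpi := Real.pi_pos
  refine ⟨ε1 / 4, by positivity, fun δ hδ hδ0 => ?_⟩
  obtain ⟨η, hη, hηδ, hη1, hη2, hη3⟩ : ∃ η : ℝ, 0 < η ∧ η ≤ δ ∧ η ≤ 1 ∧
      C * (d + 1) * η ≤ Real.pi / 2 ∧ C * (d + 1) * η ≤ k * δ ^ 2 / 16 := by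
    refine ⟨min (min δ 1) (min (Real.pi / 2 / (C * (d + 1))) (k * δ ^ 2 / 16 / (C * (d + 1)))),
      ?_, ?_, ?_, ?_, ?_⟩
    · have h1 : 0 < Real.pi / 2 / (C * (d + 1)) := by positivity
      have h2 : 0 < k * δ ^ 2 / 16 / (C * (d + 1)) := by positivity
      exact lt_min (lt_min hδ one_pos) (lt_min h1 h2)
    · exact (min_le_left _ _).trans (min_le_left _ _)
    · exact (min_le_left _ _).trans (min_le_right _ _)
    · have h1 := (min_le_right (min δ 1) (min (Real.pi / 2 / (C * (d + 1)))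
        (k * δ ^ 2 / 16 / (C * (d + 1))))).trans (min_le_left _ _)
      rw [le_div_iff₀ (by positivity)] at h1
      linarith
    · have h1 := (min_le_right (min δ 1) (min (Real.pi / 2 / (C * (d + 1)))
        (k * δ ^ 2 / 16 / (C * (d + 1))))).trans (min_le_right _ _)
      rw [le_div_iff₀ (by positivity)] at h1
      linarith
  set s : ℝ := min (Real.pi * η / 2) (k * δ ^ 2 / 16) with hs
  have hs0 : 0 < s := lt_min (by positivity) (by positivity)
  refine ⟨η, hη, hηδ, hη1, min (Real.pi * η) (k * δ ^ 2 / 16), lt_min (by positivity) (by positivity),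
    min_le_left _ _, fun K hK => ?_⟩
  set R : ℝ := max (max 1 (K / δ)) ((C * K ^ 2 + 8 * Real.pi * δ * K) / (s / (c + 1))) with hR
  have hR1 : 1 ≤ R := (le_max_left _ _).trans (le_max_left _ _)
  have hR2 : K / δ ≤ R := (le_max_right _ _).trans (le_max_left _ _)
  have hR3 : (C * K ^ 2 + 8 * Real.pi * δ * K) ≤ s / (c + 1) * R := by
    have h1 : (C * K ^ 2 + 8 * Real.pi * δ * K) / (s / (c + 1)) ≤ R := le_max_right _ _
    rw [div_le_iff₀ (by positivity)] at h1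
    linarith
  refine ⟨R, by linarith, fun r hr Y hY z hz1 hz2 => ?_⟩
  have hnorm : ‖z‖ ≤ ε1 := by
    rw [pi_norm_le_iff_of_nonneg hε1.le]
    intro i
    rcases i with i | j
    · have h1 := Complex.norm_le_abs_re_add_abs_im (z (Sum.inl i))
      have h2 := hz1 i
      linarith [h2.1, h2.2]
    · have h1 := Complex.norm_le_abs_re_add_abs_im (z (Sum.inr j))
      have h2 := hz2 j
      have h3 : Y j ≤ δ := by
        have h4 := (hY j).2
        have h5 := hr j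
        have h6 : 0 < |r j| := by linarith
        rw [← sq_abs, le_div_iff₀ (by positivity)] at h4
        rw [div_le_iff₀ hδ] at hR2
        have h7 : K ≤ |r j| * δ := hR2.trans (mul_le_mul_of_nonneg_right h5 hδ.le)
        have h8 : Y j * |r j| ^ 2 ≤ δ * |r j| ^ 2 := by
          have h9 : |r j| * δ ≤ |r j| ^ 2 * δ := by
            apply mul_le_mul_of_nonneg_right _ hδ.le
            nlinarith
          linarith
        exact le_of_mul_le_mul_right h8 (by positivity)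
      have h4 : |(z (Sum.inr j)).im| = Y j := by
        rw [h2.2, abs_of_pos (hY j).1]
      linarith [h2.1]
  have hmain := hre z hnorm
  rw [Fintype.sum_sum_type, Fintype.sum_sum_type] at hmain
  have him1 : ∑ i : Fin d, (z (Sum.inl i)).im ^ 2 ≤ d * η ^ 2 := by
    calc ∑ i : Fin d, (z (Sum.inl i)).im ^ 2 ≤ ∑ _i : Fin d, η ^ 2 := by
          apply Finset.sum_le_sum
          intro i _
          rw [← sq_abs]
          exact pow_le_pow_left₀ (abs_nonneg _) (hz1 i).2 2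
      _ = d * η ^ 2 := by simp
  have hlast : C * ∑ j : Fin c, (z (Sum.inr j)).im ^ 2 + (Qr r z).re ≤ s := by
    rw [E_Bd_Qr, Finset.mul_sum, ← Finset.sum_add_distrib]
    calc ∑ j : Fin c, (C * (z (Sum.inr j)).im ^ 2 +
          -(2 * Real.pi) * (2 * r j * (z (Sum.inr j)).re * (z (Sum.inr j)).im +
            (z (Sum.inr j)).im)) ≤ ∑ _j : Fin c, s / (c + 1) := by
          apply Finset.sum_le_sum
          intro j _
          rw [(hz2 j).2]
          exact E_Bd_small hC hK hδ hR1 hR3 (hr j) (hY j) (hz2 j).1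
      _ = c * (s / (c + 1)) := by simp
      _ ≤ s := by
          rw [mul_div_assoc', div_le_iff₀ (by positivity)]
          nlinarith
  have hη4 : C * (d * η ^ 2) ≤ Real.pi * η / 2 := by
    have h1 : C * (d * η ^ 2) ≤ C * (d + 1) * η * η := by
      have : 0 ≤ C * η ^ 2 := by positivity
      nlinarith
    have h2 : C * (d + 1) * η * η ≤ Real.pi / 2 * η := mul_le_mul_of_nonneg_right hη2 hη.le
    linarith
  have hη5 : C * (d * η ^ 2) ≤ k * δ ^ 2 / 16 := by
    have h1 : C * (d * η ^ 2) ≤ C * (d + 1) * η * η := by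
      have : 0 ≤ C * η ^ 2 := by positivity
      nlinarith
    have h2 : C * (d + 1) * η * η ≤ C * (d + 1) * η * 1 :=
      mul_le_mul_of_nonneg_left hη1 (by positivity)
    linarith
  have him2 : C * ∑ i : Fin d, (z (Sum.inl i)).im ^ 2 ≤ C * (d * η ^ 2) :=
    mul_le_mul_of_nonneg_left him1 hC.le
  have hre1 : 0 ≤ ∑ i : Fin d, (z (Sum.inl i)).re ^ 2 :=
    Finset.sum_nonneg fun i _ => sq_nonneg _
  have hre2 : 0 ≤ ∑ j : Fin c, (z (Sum.inr j)).re ^ 2 :=
    Finset.sum_nonneg fun i _ => sq_nonneg _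
  have hs1 : s ≤ Real.pi * η / 2 := min_le_left _ _
  have hs2 : s ≤ k * δ ^ 2 / 16 := min_le_right _ _
  have hkre : k * (∑ i : Fin d, (z (Sum.inl i)).re ^ 2) ≤
      k * (∑ i : Fin d, (z (Sum.inl i)).re ^ 2 + ∑ j : Fin c, (z (Sum.inr j)).re ^ 2) :=
    mul_le_mul_of_nonneg_left (by linarith) hk.le
  rw [mul_add C] at hmain
  rw [Complex.add_re]
  constructor
  · have hk0 : 0 ≤ k * (∑ i : Fin d, (z (Sum.inl i)).re ^ 2) := by positivity
    linarith
  · rintro ⟨i, hi⟩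
    have h1 : (δ / 2) ^ 2 ≤ ∑ i : Fin d, (z (Sum.inl i)).re ^ 2 := by
      have h2 : (δ / 2) ^ 2 ≤ (z (Sum.inl i)).re ^ 2 := by
        rw [← sq_abs (z (Sum.inl i)).re]
        exact pow_le_pow_left₀ (by positivity) hi 2
      exact h2.trans (Finset.single_le_sum (f := fun i : Fin d => (z (Sum.inl i)).re ^ 2)
        (fun i _ => sq_nonneg _) (Finset.mem_univ i))
    have h3 : k * (δ / 2) ^ 2 ≤ k * ∑ i : Fin d, (z (Sum.inl i)).re ^ 2 :=
      mul_le_mul_of_nonneg_left h1 hk.le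
    have h4 : min (Real.pi * η) (k * δ ^ 2 / 16) ≤ k * δ ^ 2 / 16 := min_le_right _ _
    have h5 : k * (δ / 2) ^ 2 = 4 * (k * δ ^ 2 / 16) := by ring
    have h6 : 0 ≤ k * δ ^ 2 / 16 := by positivity
    linarith

end Pool.Agent.H63.CLK
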