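import Pool.Agent.H63.CLK.E_Tay

/-! # The critical point for large twists -/

namespace Pool.Agent.H63.CLK

open Complex Filter Topology
open scoped BigOperators

variable {d c : ℕ} {Φ : (Ix d c → ℂ) → ℂ} {ε : ℝ}

private theorem Crit_an (h : PotOK Φ ε) (p : Ix d c → ℂ) (hp : ‖p‖ < ε) : AnalyticAt ℂ Φ p :=
  h.an p (by rw [mem_closedBall_zero_iff]; exact hp.le)

/-- the norm of the updated point -/
private theorem Crit_upd (z : Ix d c → ℂ) (j : Fin c) (w : ℂ) (R : ℝ) (hz : ‖z‖ ≤ R) (hw : ‖w‖ ≤ R) :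
    ‖Function.update z (Sum.inr j) w‖ ≤ R := by
  rw [pi_norm_le_iff_of_nonneg ((norm_nonneg _).trans hz)]
  intro i
  by_cases hi : i = Sum.inr j
  · subst hi
    simpa using hw
  · rw [Function.update_of_ne hi]
    exact (norm_le_pi_norm z i).trans hz

/-- the first derivative along a coordinate -/
private theorem Crit_d1 (h : PotOK Φ ε) (z : Ix d c → ℂ) (j : Fin c) (w : ℂ)
    (hw : ‖Function.update z (Sum.inr j) w‖ < ε) :
    HasDerivAt (fun w => Φ (Function.update z (Sum.inr j) w))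
      (fderiv ℂ Φ (Function.update z (Sum.inr j) w) (Pi.single (Sum.inr j) 1)) w :=
  ((Crit_an h _ hw).differentiableAt.hasFDerivAt).comp_hasDerivAt w
    (hasDerivAt_update z (Sum.inr j) w)

/-- the second derivative along a coordinate -/
private theorem Crit_d2 (h : PotOK Φ ε) (z : Ix d c → ℂ) (j : Fin c) (w : ℂ)
    (hw : ‖Function.update z (Sum.inr j) w‖ < ε) :
    HasDerivAt (fun w => fderiv ℂ Φ (Function.update z (Sum.inr j) w) (Pi.single (Sum.inr j) 1))
      (hs Φ (Function.update z (Sum.inr j) w) (Sum.inr j) (Sum.inr j)) w := by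
  have h1 : DifferentiableAt ℂ (fun z => fderiv ℂ Φ z (Pi.single (Sum.inr j) 1))
      (Function.update z (Sum.inr j) w) := by
    have h2 : DifferentiableAt ℂ (fderiv ℂ Φ) (Function.update z (Sum.inr j) w) :=
      (Crit_an h _ hw).fderiv.differentiableAt
    exact h2.clm_apply (differentiableAt_const _)
  exact h1.hasFDerivAt.comp_hasDerivAt w (hasDerivAt_update z (Sum.inr j) w)

/-- evenness: the derivative vanishes at `0` -/
private theorem Crit_zero (h : PotOK Φ ε) (z : Ix d c → ℂ) (hz : ‖z‖ < ε) (j : Fin c) :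
    fderiv ℂ Φ (Function.update z (Sum.inr j) 0) (Pi.single (Sum.inr j) 1) = 0 := by
  have hpos := h.pos
  have h0 : ‖Function.update z (Sum.inr j) (0 : ℂ)‖ < ε := by
    refine lt_of_le_of_lt (Crit_upd z j 0 ‖z‖ le_rfl (by simp)) hz
  have h1 := Crit_d1 h z j 0 h0
  have h2 : HasDerivAt (fun w : ℂ => Φ (Function.update z (Sum.inr j) (-w)))
      (-(fderiv ℂ Φ (Function.update z (Sum.inr j) 0) (Pi.single (Sum.inr j) 1))) 0 := by
    have h3 : HasDerivAt (fun w : ℂ => -w) (-1) 0 := (hasDerivAt_id (0 : ℂ)).neg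
    have h1' : HasDerivAt (fun w => Φ (Function.update z (Sum.inr j) w))
        (fderiv ℂ Φ (Function.update z (Sum.inr j) 0) (Pi.single (Sum.inr j) 1)) (-(0 : ℂ)) := by
      simpa using h1
    have := h1'.comp (0 : ℂ) h3
    simpa [Function.comp_def] using this
  have h4 : (fun w : ℂ => Φ (Function.update z (Sum.inr j) (-w))) =ᶠ[𝓝 0]
      fun w => Φ (Function.update z (Sum.inr j) w) := by
    have : ∀ᶠ w : ℂ in 𝓝 0, ‖w‖ < ε := by
      have := Metric.ball_mem_nhds (0 : ℂ) hpos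
      filter_upwards [this] with w hw
      simpa using hw
    filter_upwards [this] with w hw
    have h5 := h.even (Function.update z (Sum.inr j) w)
      (by rw [mem_closedBall_zero_iff]; exact Crit_upd z j w ε hz.le hw.le) j
    simpa using h5
  have h6 := (h1.congr_of_eventuallyEq h4).unique h2
  have h7 : (2 : ℂ) * fderiv ℂ Φ (Function.update z (Sum.inr j) 0) (Pi.single (Sum.inr j) 1) = 0 := by
    linear_combination h6
  simpa using h7

/-- The partial derivative in the direction of an integration variable `v` is `v` times a function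
which is close to the negative number `∂²Φ(0)`. -/
theorem odd_factor (h : PotOK Φ ε) : ∃ k : ℝ, 0 < k ∧ ∃ C : ℝ, 0 < C ∧ ∃ ε1 : ℝ, 0 < ε1 ∧ ε1 < ε ∧
    ∀ z : Ix d c → ℂ, ‖z‖ ≤ ε1 → ∀ j : Fin c, ∃ g : ℂ,
      fderiv ℂ Φ z (Pi.single (Sum.inr j) 1) = z (Sum.inr j) * g ∧ g.re ≤ -k ∧ ‖g‖ ≤ C := by
  obtain ⟨k, hk, ε1, hε1, hε1ε, H⟩ := hess_unif h
  have Hj : ∀ p : Ix d c → ℂ, ‖p‖ ≤ ε1 → ∀ j : Fin c,
      (hs Φ p (Sum.inr j) (Sum.inr j)).re ≤ -k := by
    intro p hp j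
    have h1 := H p hp (Pi.single (Sum.inr j) 1)
    have e1 : ∑ a, ∑ b, hs Φ p a b * ((Pi.single (Sum.inr j) (1 : ℝ) : Ix d c → ℝ) a : ℂ) *
        ((Pi.single (Sum.inr j) (1 : ℝ) : Ix d c → ℝ) b : ℂ) = hs Φ p (Sum.inr j) (Sum.inr j) := by
      rw [Finset.sum_eq_single (Sum.inr j)]
      · rw [Finset.sum_eq_single (Sum.inr j)]
        · simp
        · intro b _ hb
          rw [Pi.single_eq_of_ne hb]; simp
        · simp
      · intro a _ ha
        refine Finset.sum_eq_zero fun b _ => ?_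
        rw [Pi.single_eq_of_ne ha]; simp
      · simp
    have e2 : ∑ i, (Pi.single (Sum.inr j) (1 : ℝ) : Ix d c → ℝ) i ^ 2 = 1 := by
      rw [Finset.sum_eq_single (Sum.inr j)]
      · simp
      · intro b _ hb
        rw [Pi.single_eq_of_ne hb]; simp
      · simp
    rw [e1, e2] at h1
    linarith
  obtain ⟨C, hC⟩ := (isCompact_closedBall (0 : Ix d c → ℂ) ε1).exists_bound_of_continuousOn
    (f := fun p => fun j : Fin c => hs Φ p (Sum.inr j) (Sum.inr j)) (by
      refine continuousOn_pi.2 fun j => (hs_continuous h _ _).mono ?_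
      exact Metric.closedBall_subset_ball hε1ε)
  have HC : ∀ p : Ix d c → ℂ, ‖p‖ ≤ ε1 → ∀ j : Fin c,
      ‖hs Φ p (Sum.inr j) (Sum.inr j)‖ ≤ |C| + 1 := by
    intro p hp j
    have h1 := hC p (by rw [mem_closedBall_zero_iff]; exact hp)
    have h2 := norm_le_pi_norm (fun j : Fin c => hs Φ p (Sum.inr j) (Sum.inr j)) j
    have h3 := le_abs_self C
    have h4 := h2.trans h1
    linarith
  refine ⟨k, hk, |C| + 1, by positivity, ε1, hε1, hε1ε, fun z hz j => ?_⟩
  by_cases hzj : z (Sum.inr j) = 0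
  · refine ⟨hs Φ z (Sum.inr j) (Sum.inr j), ?_, Hj z hz j, HC z hz j⟩
    have h1 := Crit_zero h z (lt_of_le_of_lt hz hε1ε) j
    have h2 : Function.update z (Sum.inr j) 0 = z := by
      rw [← hzj]; exact Function.update_eq_self _ _
    rw [h2] at h1
    rw [h1, hzj, zero_mul]
  · set D : ℂ → ℂ := fun w =>
      fderiv ℂ Φ (Function.update z (Sum.inr j) w) (Pi.single (Sum.inr j) 1) with hD
    set v := z (Sum.inr j) with hv
    have hvn : ‖v‖ ≤ ε1 := (norm_le_pi_norm z _).trans hz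
    have hnorm : ∀ s : ℝ, s ∈ Set.Icc (0 : ℝ) 1 →
        ‖Function.update z (Sum.inr j) ((s : ℂ) * v)‖ ≤ ε1 := by
      intro s hs
      refine Crit_upd z j _ ε1 hz ?_
      rw [norm_mul, Complex.norm_real, Real.norm_eq_abs, abs_of_nonneg hs.1]
      calc s * ‖v‖ ≤ 1 * ‖v‖ := mul_le_mul_of_nonneg_right hs.2 (norm_nonneg _)
        _ ≤ ε1 := by rw [one_mul]; exact hvn
    have hder : ∀ s : ℝ, s ∈ Set.Icc (0 : ℝ) 1 → HasDerivAt (fun s : ℝ => D ((s : ℂ) * v) / v)
        (hs Φ (Function.update z (Sum.inr j) ((s : ℂ) * v)) (Sum.inr j) (Sum.inr j)) s := by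
      intro s hs1
      have h1 := Crit_d2 h z j ((s : ℂ) * v) (lt_of_le_of_lt (hnorm s hs1) hε1ε)
      have h2 : HasDerivAt (fun s : ℝ => (s : ℂ) * v) v s := by
        have := (Complex.ofRealCLM.hasDerivAt (x := s)).mul_const v
        simpa using this
      have h3 := (h1.comp s h2).div_const v
      have h4 : hs Φ (Function.update z (Sum.inr j) ((s : ℂ) * v)) (Sum.inr j) (Sum.inr j) * v / v
          = hs Φ (Function.update z (Sum.inr j) ((s : ℂ) * v)) (Sum.inr j) (Sum.inr j) := by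
        field_simp
      rw [h4] at h3
      exact h3
    have hD0 : D ((0 : ℝ) * v) / v = 0 := by
      have h1 := Crit_zero h z (lt_of_le_of_lt hz hε1ε) j
      simp only [hD, Complex.ofReal_zero, zero_mul]
      rw [h1, zero_div]
    have hD1 : D ((1 : ℝ) * v) = fderiv ℂ Φ z (Pi.single (Sum.inr j) 1) := by
      simp only [hD, Complex.ofReal_one, one_mul]
      rw [hv, Function.update_eq_self]
    refine ⟨D ((1 : ℝ) * v) / v, ?_, ?_, ?_⟩
    · rw [hD1]; field_simp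
    · have hre : ∀ s : ℝ, s ∈ Set.Icc (0 : ℝ) 1 → HasDerivAt (fun s : ℝ => (D ((s : ℂ) * v) / v).re)
          (hs Φ (Function.update z (Sum.inr j) ((s : ℂ) * v)) (Sum.inr j) (Sum.inr j)).re s := by
        intro s hs
        exact (Complex.reCLM.hasFDerivAt.comp_hasDerivAt s (hder s hs))
      obtain ⟨t, ht, ht2⟩ := exists_hasDerivAt_eq_slope
        (fun s : ℝ => (D ((s : ℂ) * v) / v).re)
        (fun s : ℝ => (hs Φ (Function.update z (Sum.inr j) ((s : ℂ) * v)) (Sum.inr j) (Sum.inr j)).re)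
        (zero_lt_one) (fun s hs => (hre s hs).continuousAt.continuousWithinAt)
        (fun s hs => hre s ⟨hs.1.le, hs.2.le⟩)
      have h5 := Hj _ (hnorm t ⟨ht.1.le, ht.2.le⟩) j
      rw [ht2] at h5
      have h6 : (D ((0 : ℝ) * v) / v).re = 0 := by rw [hD0]; simp
      simp only [h6, sub_zero, div_one] at h5
      exact h5
    · have h7 := norm_image_sub_le_of_norm_deriv_le_segment_01'
        (f := fun s : ℝ => D ((s : ℂ) * v) / v)
        (f' := fun s : ℝ => hs Φ (Function.update z (Sum.inr j) ((s : ℂ) * v)) (Sum.inr j) (Sum.inr j))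
        (C := |C| + 1) (fun s hs => (hder s hs).hasDerivWithinAt)
        (fun s hs => HC _ (hnorm s ⟨hs.1, hs.2.le⟩) j)
      simp only [hD0, sub_zero] at h7
      exact h7

/-- the equations of the critical point, `e = 1/r` -/
private noncomputable def Crit_F (Φ : (Ix d c → ℂ) → ℂ) (q : (Ix d c → ℂ) × (Fin c → ℂ)) :
    Ix d c → ℂ := fun i => match i with
  | Sum.inl i => fderiv ℂ Φ q.1 (Pi.single (Sum.inl i) 1)
  | Sum.inr j => q.1 (Sum.inr j) + q.2 j / 2 +
      q.2 j / (4 * Real.pi * I) * fderiv ℂ Φ q.1 (Pi.single (Sum.inr j) 1)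

private theorem Crit_F_an (h : PotOK Φ ε) :
    ContDiffAt ℂ 1 (Crit_F Φ) (0 : (Ix d c → ℂ) × (Fin c → ℂ)) := by
  have hpos := h.pos
  have h1 : ∀ v : Ix d c → ℂ, ContDiffAt ℂ 1
      (fun q : (Ix d c → ℂ) × (Fin c → ℂ) => fderiv ℂ Φ q.1 v) 0 := by
    intro v
    have h2 : ContDiffAt ℂ 1 (fderiv ℂ Φ) ((0 : (Ix d c → ℂ) × (Fin c → ℂ)).1) := by
      have := (Crit_an h (0 : Ix d c → ℂ) (by rw [norm_zero]; exact hpos)).fderiv
      exact this.contDiffAt
    have h3 : ContDiffAt ℂ 1 (fun q : (Ix d c → ℂ) × (Fin c → ℂ) => fderiv ℂ Φ q.1) 0 :=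
      h2.comp (0 : (Ix d c → ℂ) × (Fin c → ℂ)) contDiffAt_fst
    exact h3.clm_apply contDiffAt_const
  have hq2 : ∀ j : Fin c, ContDiffAt ℂ 1
      (fun q : (Ix d c → ℂ) × (Fin c → ℂ) => q.2 j) 0 := by
    intro j
    exact (contDiff_apply ℂ ℂ j).contDiffAt.comp (0 : (Ix d c → ℂ) × (Fin c → ℂ)) contDiffAt_snd
  have hq1 : ∀ i : Ix d c, ContDiffAt ℂ 1
      (fun q : (Ix d c → ℂ) × (Fin c → ℂ) => q.1 i) 0 := by
    intro i
    exact (contDiff_apply ℂ ℂ i).contDiffAt.comp (0 : (Ix d c → ℂ) × (Fin c → ℂ)) contDiffAt_fst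
  rw [contDiffAt_pi]
  intro i
  rcases i with i | j
  · exact h1 _
  · exact ((hq1 _).add ((hq2 j).div_const 2)).add (((hq2 j).div_const _).mul (h1 _))

/-- the map `(p, e) ↦ (F, e)` has an injective derivative at the origin -/
private theorem Crit_inj (h : PotOK Φ ε) (L : (Ix d c → ℂ) × (Fin c → ℂ) →L[ℂ] (Ix d c → ℂ))
    (hL : HasFDerivAt (Crit_F Φ) L 0) (u : Ix d c → ℂ) (hu : L (u, 0) = 0) : u = 0 := by
  have hpos := h.pos
  have h0 : ‖(0 : Ix d c → ℂ)‖ < ε := by rw [norm_zero]; exact hpos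
  -- restriction to the line `s ↦ (s u, 0)`
  have hline : HasDerivAt (fun s : ℂ => Crit_F Φ (s • u, (0 : Fin c → ℂ))) (L (u, 0)) 0 := by
    have h1 : HasDerivAt (fun s : ℂ => (s • u, (0 : Fin c → ℂ))) (u, (0 : Fin c → ℂ)) 0 := by
      have h2 : HasDerivAt (fun s : ℂ => s • u) u 0 := by
        simpa using (hasDerivAt_id (0 : ℂ)).smul_const u
      exact h2.prodMk (hasDerivAt_const _ _)
    have h3 : HasFDerivAt (Crit_F Φ) L ((fun s : ℂ => (s • u, (0 : Fin c → ℂ))) 0) := by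
      have e : (fun s : ℂ => (s • u, (0 : Fin c → ℂ))) 0 = 0 := by
        simp only [zero_smul]; rfl
      rw [e]
      exact hL
    exact h3.comp_hasDerivAt (0 : ℂ) h1
  rw [hu] at hline
  have hcomp := hasDerivAt_pi.1 hline
  -- the integration components
  have hur : ∀ j : Fin c, u (Sum.inr j) = 0 := by
    intro j
    have h1 := hcomp (Sum.inr j)
    have h2 : HasDerivAt (fun s : ℂ => s * u (Sum.inr j)) (u (Sum.inr j)) 0 := by
      simpa using (hasDerivAt_id (0 : ℂ)).mul_const (u (Sum.inr j))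
    have h3 : (fun s : ℂ => Crit_F Φ (s • u, (0 : Fin c → ℂ)) (Sum.inr j)) =
        fun s : ℂ => s * u (Sum.inr j) := by
      funext s
      simp [Crit_F]
    rw [h3] at h1
    exact h2.unique h1
  -- the summation components
  have hsum : ∀ i : Fin d, ∑ b, hs Φ 0 (Sum.inl i) b * u b = 0 := by
    intro i
    have h1 := hcomp (Sum.inl i)
    have h3 : (fun s : ℂ => Crit_F Φ (s • u, (0 : Fin c → ℂ)) (Sum.inl i)) =
        fun s : ℂ => fderiv ℂ Φ (s • u) (Pi.single (Sum.inl i) 1) := by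
      funext s
      simp [Crit_F]
    rw [h3] at h1
    have h4 : DifferentiableAt ℂ (fun z => fderiv ℂ Φ z (Pi.single (Sum.inl i) 1))
        ((fun s : ℂ => s • u) 0) := by
      have h5 : DifferentiableAt ℂ (fderiv ℂ Φ) ((fun s : ℂ => s • u) 0) := by
        have : (fun s : ℂ => s • u) 0 = 0 := by simp
        rw [this]
        exact (Crit_an h _ h0).fderiv.differentiableAt
      exact h5.clm_apply (differentiableAt_const _)
    have h6 : HasDerivAt (fun s : ℂ => s • u) u 0 := by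
      simpa using (hasDerivAt_id (0 : ℂ)).smul_const u
    have h7 := h4.hasFDerivAt.comp_hasDerivAt (0 : ℂ) h6
    have h8 := h7.unique h1
    have h9 : fderiv ℂ (fun z => fderiv ℂ Φ z (Pi.single (Sum.inl i) 1)) 0 u
        = ∑ b, hs Φ 0 (Sum.inl i) b * u b := by
      have e1 : u = ∑ b, u b • (Pi.single b (1 : ℂ) : Ix d c → ℂ) := by
        ext i; simp [Finset.sum_apply, Pi.single_apply]
      conv_lhs => rw [e1]
      rw [map_sum]
      refine Finset.sum_congr rfl fun b _ => ?_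
      rw [map_smul, smul_eq_mul, mul_comm]
      rfl
    simp only [zero_smul] at h8
    rw [h9] at h8
    exact h8
  -- the Hermitian form
  obtain ⟨k, hk, ε1, hε1, hε1ε, H⟩ := hess_unif h
  have hz1 : ‖(0 : Ix d c → ℂ)‖ ≤ ε1 := by rw [norm_zero]; exact hε1.le
  have H1 := H 0 hz1 (fun i => (u i).re)
  have H2 := H 0 hz1 (fun i => (u i).im)
  have hS : ∑ a, ∑ b, hs Φ 0 a b * (starRingEnd ℂ) (u a) * u b = 0 := by
    refine Finset.sum_eq_zero fun a _ => ?_
    rcases a with i | j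
    · have : ∑ b, hs Φ 0 (Sum.inl i) b * (starRingEnd ℂ) (u (Sum.inl i)) * u b =
          (starRingEnd ℂ) (u (Sum.inl i)) * ∑ b, hs Φ 0 (Sum.inl i) b * u b := by
        rw [Finset.mul_sum]
        exact Finset.sum_congr rfl fun b _ => by ring
      rw [this, hsum i, mul_zero]
    · simp [hur j]
  have hexp : ∑ a, ∑ b, hs Φ 0 a b * (starRingEnd ℂ) (u a) * u b =
      (∑ a, ∑ b, hs Φ 0 a b * ((u a).re : ℂ) * ((u b).re : ℂ)) +
        (∑ a, ∑ b, hs Φ 0 a b * ((u a).im : ℂ) * ((u b).im : ℂ)) := by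
    have hu' : ∀ a, u a = ((u a).re : ℂ) + ((u a).im : ℂ) * I := fun a => (Complex.re_add_im _).symm
    have hc' : ∀ a, (starRingEnd ℂ) (u a) = ((u a).re : ℂ) - ((u a).im : ℂ) * I := by
      intro a
      apply Complex.ext
      · simp
      · simp
    have e1 : ∀ a b, hs Φ 0 a b * (starRingEnd ℂ) (u a) * u b =
        hs Φ 0 a b * ((u a).re : ℂ) * ((u b).re : ℂ) + hs Φ 0 a b * ((u a).im : ℂ) * ((u b).im : ℂ)
        + (hs Φ 0 a b * ((u a).re : ℂ) * ((u b).im : ℂ) * I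
          - hs Φ 0 a b * ((u a).im : ℂ) * ((u b).re : ℂ) * I) := by
      intro a b
      rw [hc' a]
      conv_lhs => rw [hu' b]
      linear_combination (-(hs Φ 0 a b * ((u a).im : ℂ) * ((u b).im : ℂ))) * I_sq
    have e2 : ∑ a, ∑ b, (hs Φ 0 a b * ((u a).re : ℂ) * ((u b).im : ℂ) * I
          - hs Φ 0 a b * ((u a).im : ℂ) * ((u b).re : ℂ) * I) = 0 := by
      simp only [Finset.sum_sub_distrib]
      rw [sub_eq_zero]
      conv_rhs => rw [Finset.sum_comm]
      refine Finset.sum_congr rfl fun a _ => Finset.sum_congr rfl fun b _ => ?_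
      rw [hs_symm h 0 h0 b a]
      ring
    calc ∑ a, ∑ b, hs Φ 0 a b * (starRingEnd ℂ) (u a) * u b
        = ∑ a, ∑ b, (hs Φ 0 a b * ((u a).re : ℂ) * ((u b).re : ℂ)
            + hs Φ 0 a b * ((u a).im : ℂ) * ((u b).im : ℂ)
            + (hs Φ 0 a b * ((u a).re : ℂ) * ((u b).im : ℂ) * I
          - hs Φ 0 a b * ((u a).im : ℂ) * ((u b).re : ℂ) * I)) :=
          Finset.sum_congr rfl fun a _ => Finset.sum_congr rfl fun b _ => e1 a b
      _ = _ := by
          simp only [Finset.sum_add_distrib]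
          rw [e2, add_zero]
  rw [hexp] at hS
  have hre := congrArg Complex.re hS
  rw [Complex.add_re, Complex.zero_re] at hre
  have hsq : ∑ i, (u i).re ^ 2 + ∑ i, (u i).im ^ 2 ≤ 0 := by
    have h1 : 0 ≤ ∑ i, (u i).re ^ 2 := Finset.sum_nonneg fun _ _ => sq_nonneg _
    have h2 : 0 ≤ ∑ i, (u i).im ^ 2 := Finset.sum_nonneg fun _ _ => sq_nonneg _
    by_contra hc
    push Not at hc
    have h3 : 0 < (2 * k) * (∑ i, (u i).re ^ 2 + ∑ i, (u i).im ^ 2) := by positivity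
    nlinarith [H1, H2, hre, h3]
  have hzero : ∀ i, (u i).re ^ 2 = 0 ∧ (u i).im ^ 2 = 0 := by
    have h1 : 0 ≤ ∑ i, (u i).re ^ 2 := Finset.sum_nonneg fun _ _ => sq_nonneg _
    have h2 : 0 ≤ ∑ i, (u i).im ^ 2 := Finset.sum_nonneg fun _ _ => sq_nonneg _
    have h3 : ∑ i, (u i).re ^ 2 = 0 := by linarith
    have h4 : ∑ i, (u i).im ^ 2 = 0 := by linarith
    intro i
    exact ⟨(Finset.sum_eq_zero_iff_of_nonneg (fun _ _ => sq_nonneg _)).1 h3 i (Finset.mem_univ _),
      (Finset.sum_eq_zero_iff_of_nonneg (fun _ _ => sq_nonneg _)).1 h4 i (Finset.mem_univ _)⟩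
  funext i
  obtain ⟨h1, h2⟩ := hzero i
  apply Complex.ext
  · simpa using h1
  · simpa using h2

/-- solutions of the equations near the origin -/
private theorem Crit_sol (h : PotOK Φ ε) (ρ : ℝ) (hρ : 0 < ρ) : ∃ τ : ℝ, 0 < τ ∧
    ∀ e : Fin c → ℂ, ‖e‖ < τ → ∃ p : Ix d c → ℂ, ‖p‖ < ρ ∧ Crit_F Φ (p, e) = 0 := by
  have hcd := Crit_F_an h
  have hst : HasStrictFDerivAt (Crit_F Φ) (fderiv ℂ (Crit_F Φ) 0) 0 :=
    hcd.hasStrictFDerivAt (by norm_num)
  set L := fderiv ℂ (Crit_F Φ) (0 : (Ix d c → ℂ) × (Fin c → ℂ)) with hL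
  have hG : HasStrictFDerivAt (fun q : (Ix d c → ℂ) × (Fin c → ℂ) => (Crit_F Φ q, q.2))
      (L.prod (ContinuousLinearMap.snd ℂ (Ix d c → ℂ) (Fin c → ℂ))) 0 :=
    hst.prodMk hasStrictFDerivAt_snd
  have hinj : Function.Injective
      (L.prod (ContinuousLinearMap.snd ℂ (Ix d c → ℂ) (Fin c → ℂ)) :
        (Ix d c → ℂ) × (Fin c → ℂ) →ₗ[ℂ] (Ix d c → ℂ) × (Fin c → ℂ)) := by
    rw [← LinearMap.ker_eq_bot, LinearMap.ker_eq_bot']
    intro q hq
    have h1 : L q = 0 ∧ q.2 = 0 := by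
      have := Prod.ext_iff.1 hq
      simpa using this
    obtain ⟨h2, h3⟩ := h1
    have h4 : q = (q.1, 0) := by rw [← h3]
    have h5 := Crit_inj h L hst.hasFDerivAt q.1 (by rw [← h4]; exact h2)
    rw [h4, h5]
    rfl
  have hsurj := LinearMap.injective_iff_surjective.1 hinj
  have hmap := hG.map_nhds_eq_of_surj (LinearMap.range_eq_top.2 hsurj)
  have hF0 : Crit_F Φ (0 : (Ix d c → ℂ) × (Fin c → ℂ)) = 0 := by
    funext i
    rcases i with i | j
    · simp [Crit_F, h.crit]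
    · simp [Crit_F]
  have hG0 : (Crit_F Φ (0 : (Ix d c → ℂ) × (Fin c → ℂ)),
      (0 : (Ix d c → ℂ) × (Fin c → ℂ)).2) = 0 := by
    rw [hF0]
    rfl
  rw [hG0] at hmap
  have hU : (fun q : (Ix d c → ℂ) × (Fin c → ℂ) => (Crit_F Φ q, q.2)) '' Metric.ball 0 ρ ∈
      𝓝 (0 : (Ix d c → ℂ) × (Fin c → ℂ)) := by
    rw [← hmap]
    exact Filter.image_mem_map (Metric.ball_mem_nhds _ hρ)
  obtain ⟨τ, hτ, hball⟩ := Metric.mem_nhds_iff.1 hU
  refine ⟨τ, hτ, fun e he => ?_⟩
  have hmem : ((0 : Ix d c → ℂ), e) ∈ Metric.ball (0 : (Ix d c → ℂ) × (Fin c → ℂ)) τ := by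
    rw [mem_ball_zero_iff, Prod.norm_def]
    simpa using he
  obtain ⟨q, hq, hq2⟩ := hball hmem
  have h1 : Crit_F Φ q = 0 ∧ q.2 = e := by
    have := Prod.ext_iff.1 hq2
    simpa using this
  refine ⟨q.1, ?_, ?_⟩
  · rw [mem_ball_zero_iff] at hq
    exact lt_of_le_of_lt (norm_fst_le q) hq
  · rw [← h1.2]
    exact h1.1

/-- `v (4 π I r + g) = -2 π I` -/
private theorem Crit_v (r k C : ℝ) (v g : ℂ) (hk : 0 < k) (hC : 0 < C) (hg : g.re ≤ -k)
    (hgC : ‖g‖ ≤ C) (hr : C ≤ |r|) (hr1 : 0 < |r|)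
    (hv : v * g + 2 * Real.pi * I * (2 * r * v + 1) = 0) :
    0 < v.im ∧ v.im ≤ C / r ^ 2 ∧ ‖v‖ ≤ 1 / |r| := by
  have hpi := Real.pi_gt_three
  set w : ℂ := 4 * Real.pi * I * r + g with hw
  have hvw : v * w = -(2 * Real.pi * I) := by
    rw [hw]; linear_combination hv
  have hwre : w.re = g.re := by simp [hw]
  have hw0 : w ≠ 0 := by
    intro h0
    rw [h0] at hwre
    simp at hwre
    linarith
  have hwn : 2 * Real.pi * |r| ≤ ‖w‖ := by
    have h1 : ‖(4 * Real.pi * I * r : ℂ)‖ = 4 * Real.pi * |r| := by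
      simp [abs_of_pos Real.pi_pos]
    have h2 : ‖(4 * Real.pi * I * r : ℂ)‖ - ‖g‖ ≤ ‖w‖ := by
      have := norm_sub_norm_le (4 * Real.pi * I * r : ℂ) (-g)
      rw [norm_neg, sub_neg_eq_add] at this
      exact this
    rw [h1] at h2
    nlinarith
  have hwpos : 0 < ‖w‖ := norm_pos_iff.2 hw0
  have hveq : v = -(2 * Real.pi * I) / w := by
    rw [eq_div_iff hw0]; exact hvw
  have hns : Complex.normSq w = ‖w‖ ^ 2 := Complex.normSq_eq_norm_sq w
  have him : v.im = 2 * Real.pi * (-g.re) / ‖w‖ ^ 2 := by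
    rw [hveq, Complex.div_im, hns]
    simp [hwre]
  have hvn : ‖v‖ = 2 * Real.pi / ‖w‖ := by
    rw [hveq, norm_div, norm_neg]
    simp [abs_of_pos Real.pi_pos]
  have hr2 : 0 < r ^ 2 := by rw [← sq_abs]; positivity
  have hgre : -g.re ≤ C := by
    have := Complex.abs_re_le_norm g
    have h2 := neg_abs_le g.re
    linarith
  refine ⟨?_, ?_, ?_⟩
  · rw [him]
    have : 0 < -g.re := by linarith
    positivity
  · rw [him, div_le_div_iff₀ (by positivity) hr2]
    have h1 : (2 * Real.pi * |r|) ^ 2 ≤ ‖w‖ ^ 2 := by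
      exact pow_le_pow_left₀ (by positivity) hwn 2
    have h2 : (2 * Real.pi * |r|) ^ 2 = 4 * Real.pi ^ 2 * r ^ 2 := by
      rw [mul_pow, sq_abs]; ring
    rw [h2] at h1
    calc 2 * Real.pi * (-g.re) * r ^ 2 ≤ 2 * Real.pi * C * r ^ 2 := by gcongr
      _ ≤ C * (4 * Real.pi ^ 2 * r ^ 2) := by nlinarith [mul_pos hC hr2, mul_pos (mul_pos hC hr2) Real.pi_pos]
      _ ≤ C * ‖w‖ ^ 2 := by gcongr
  · rw [hvn, div_le_div_iff₀ hwpos hr1]
    linarith

theorem crit_exists (h : PotOK Φ ε) : ∃ K : ℝ, 0 < K ∧ ∀ δ : ℝ, 0 < δ → ∃ R : ℝ, 0 < R ∧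
    ∀ r : Fin c → ℝ, (∀ j, R ≤ |r j|) → ∃ p : Ix d c → ℂ, IsCritE Φ r K δ p ∧
      |(Φ p + Qr r p).re - (Φ 0).re| ≤ δ := by
  have hpos := h.pos
  obtain ⟨k, hk, C, hC, ε1, hε1, hε1ε, H⟩ := odd_factor h
  refine ⟨C, hC, fun δ hδ => ?_⟩
  -- continuity
  have hcont : ContinuousAt Φ 0 := (Crit_an h 0 (by rw [norm_zero]; exact hpos)).continuousAt
  obtain ⟨δ1, hδ1, hcont1⟩ := Metric.continuousAt_iff.1 hcont (δ / 2) (by positivity)
  obtain ⟨τ, hτ, hsol⟩ := Crit_sol h (min (min δ ε1) δ1) (lt_min (lt_min hδ hε1) hδ1)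
  refine ⟨C + 1 + 2 / τ + 8 * Real.pi * c / δ, by positivity, fun r hr => ?_⟩
  have hr1 : ∀ j, C + 1 ≤ |r j| := by
    intro j
    have h1 := hr j
    have h2 : 0 ≤ 2 / τ := by positivity
    have h3 : 0 ≤ 8 * Real.pi * c / δ := by positivity
    linarith
  have hr2 : ∀ j, 2 / τ ≤ |r j| := by
    intro j
    have h1 := hr j
    have h3 : 0 ≤ 8 * Real.pi * c / δ := by positivity
    linarith
  have hr3 : ∀ j, 8 * Real.pi * c / δ ≤ |r j| := by
    intro j
    have h1 := hr j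
    have h2 : 0 ≤ 2 / τ := by positivity
    linarith
  have hr0 : ∀ j, 0 < |r j| := fun j => by linarith [hr1 j]
  have hrne : ∀ j, (r j : ℂ) ≠ 0 := fun j => by
    exact_mod_cast abs_pos.1 (hr0 j)
  obtain ⟨p, hp, hF⟩ := hsol (fun j => 1 / (r j : ℂ)) (by
    rw [pi_norm_lt_iff hτ]
    intro j
    rw [norm_div, norm_one, Complex.norm_real, Real.norm_eq_abs, div_lt_iff₀ (hr0 j)]
    have h1 := hr2 j
    rw [div_le_iff₀ hτ] at h1
    nlinarith)
  have hpδ : ‖p‖ < δ := lt_of_lt_of_le hp ((min_le_left _ _).trans (min_le_left _ _))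
  have hpε : ‖p‖ < ε1 := lt_of_lt_of_le hp ((min_le_left _ _).trans (min_le_right _ _))
  have hpδ1 : ‖p‖ < δ1 := lt_of_lt_of_le hp (min_le_right _ _)
  have hew : ∀ i : Fin d, fderiv ℂ Φ p (Pi.single (Sum.inl i) 1) = 0 := by
    intro i
    exact congrFun hF (Sum.inl i)
  have hev : ∀ j : Fin c, fderiv ℂ Φ p (Pi.single (Sum.inr j) 1) +
      2 * Real.pi * I * (2 * r j * p (Sum.inr j) + 1) = 0 := by
    intro j
    have h1 := congrFun hF (Sum.inr j)
    simp only [Crit_F, Pi.zero_apply] at h1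
    have hpi : (Real.pi : ℂ) ≠ 0 := by exact_mod_cast Real.pi_ne_zero
    have hI : (I : ℂ) ≠ 0 := I_ne_zero
    have hrj := hrne j
    have h2 : (4 * Real.pi * I * r j : ℂ) * (p (Sum.inr j) + 1 / (r j : ℂ) / 2 +
        1 / (r j : ℂ) / (4 * Real.pi * I) * fderiv ℂ Φ p (Pi.single (Sum.inr j) 1)) =
        fderiv ℂ Φ p (Pi.single (Sum.inr j) 1) +
          2 * Real.pi * I * (2 * r j * p (Sum.inr j) + 1) := by
      field_simp
      ring
    rw [← h2, h1, mul_zero]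
  have hvv : ∀ j : Fin c, 0 < (p (Sum.inr j)).im ∧ (p (Sum.inr j)).im ≤ C / (r j) ^ 2 ∧
      ‖p (Sum.inr j)‖ ≤ 1 / |r j| := by
    intro j
    obtain ⟨g, hg1, hg2, hg3⟩ := H p hpε.le j
    have h1 := hev j
    rw [hg1] at h1
    exact Crit_v (r j) k C _ g hk hC hg2 hg3 (by linarith [hr1 j]) (hr0 j) h1
  refine ⟨p, ⟨fun i => ((norm_le_pi_norm p i).trans hpδ.le), hew, hev, fun j => (hvv j).1,
    fun j => (hvv j).2.1⟩, ?_⟩
  have h1 : |(Φ p).re - (Φ 0).re| ≤ δ / 2 := by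
    have h2 := hcont1 (x := p) (by rw [dist_zero_right]; exact hpδ1)
    rw [dist_eq_norm] at h2
    have h3 := Complex.abs_re_le_norm (Φ p - Φ 0)
    rw [Complex.sub_re] at h3
    linarith
  have h2 : ‖Qr r p‖ ≤ δ / 2 := by
    unfold Qr
    have h3 : ∀ j ∈ (Finset.univ : Finset (Fin c)),
        ‖(2 * Real.pi * I * (r j * p (Sum.inr j) ^ 2 + p (Sum.inr j)) : ℂ)‖
          ≤ 4 * Real.pi / |r j| := by
      intro j _
      have h4 := (hvv j).2.2
      rw [norm_mul]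
      have h5 : ‖(2 * Real.pi * I : ℂ)‖ = 2 * Real.pi := by
        simp [abs_of_pos Real.pi_pos]
      have h6 : ‖(r j * p (Sum.inr j) ^ 2 + p (Sum.inr j) : ℂ)‖ ≤ 2 / |r j| := by
        refine (norm_add_le _ _).trans ?_
        rw [norm_mul, norm_pow, Complex.norm_real, Real.norm_eq_abs]
        have h7 : |r j| * ‖p (Sum.inr j)‖ ^ 2 ≤ 1 / |r j| := by
          have h8 : ‖p (Sum.inr j)‖ ^ 2 ≤ (1 / |r j|) ^ 2 :=
            pow_le_pow_left₀ (norm_nonneg _) h4 2
          calc |r j| * ‖p (Sum.inr j)‖ ^ 2 ≤ |r j| * (1 / |r j|) ^ 2 := by gcongr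
            _ = 1 / |r j| := by
              have := hr0 j
              field_simp
        calc |r j| * ‖p (Sum.inr j)‖ ^ 2 + ‖p (Sum.inr j)‖ ≤ 1 / |r j| + 1 / |r j| :=
              add_le_add h7 h4
          _ = 2 / |r j| := by ring
      rw [h5]
      calc 2 * Real.pi * ‖(r j * p (Sum.inr j) ^ 2 + p (Sum.inr j) : ℂ)‖
          ≤ 2 * Real.pi * (2 / |r j|) := by gcongr
        _ = 4 * Real.pi / |r j| := by ring
    refine (norm_sum_le_of_le _ h3).trans ?_
    have h9 : ∀ j ∈ (Finset.univ : Finset (Fin c)), 4 * Real.pi / |r j| ≤ δ / 2 / c := by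
      intro j _
      have hc : (0 : ℝ) < c := by
        have : 0 < c := Nat.pos_of_ne_zero (by rintro rfl; exact j.elim0)
        exact_mod_cast this
      have h10 := hr3 j
      rw [div_le_iff₀ hδ] at h10
      rw [div_div, div_le_div_iff₀ (hr0 j) (by positivity)]
      linarith
    refine (Finset.sum_le_sum h9).trans ?_
    rw [Finset.sum_const, Finset.card_univ, Fintype.card_fin, nsmul_eq_mul]
    rcases Nat.eq_zero_or_pos c with hc | hc
    · subst hc
      simp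
      positivity
    · have : (0 : ℝ) < c := by exact_mod_cast hc
      have e : (c : ℝ) * (δ / 2 / c) = δ / 2 := by field_simp
      rw [e]
  have h3 := Complex.abs_re_le_norm (Qr r p)
  rw [Complex.add_re]
  have e : (Φ p).re + (Qr r p).re - (Φ 0).re = ((Φ p).re - (Φ 0).re) + (Qr r p).re := by ring
  rw [e]
  refine (abs_add_le _ _).trans ?_
  linarith

end Pool.Agent.H63.CLK
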