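import Pool.Agent.H63.CLK.E_Bd

/-! # Lattice sums as integrals, for fixed integration variables -/

namespace Pool.Agent.H63.CLK

open Complex Filter Topology
open scoped BigOperators

variable {d c : ℕ}

/-- the closed domain -/
private def E_Lat1_K (d : ℕ) (a b η : ℝ) : Set (Fin d → ℂ) :=
  {z | ∀ i, a ≤ (z i).re ∧ (z i).re ≤ b ∧ |(z i).im| ≤ η}

private lemma E_Lat1_K_compact (d : ℕ) (a b η : ℝ) : IsCompact (E_Lat1_K d a b η) := by
  have h : E_Lat1_K d a b η = Set.pi Set.univ (fun _ : Fin d => Set.Icc a b ×ℂ Set.Icc (-η) η) := by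
    ext z
    simp only [E_Lat1_K, Set.mem_setOf_eq, Set.mem_pi, Set.mem_univ, true_implies, mem_reProdIm,
      Set.mem_Icc, abs_le, and_assoc]
  rw [h]
  exact isCompact_univ_pi fun _ => isCompact_Icc.reProdIm isCompact_Icc

/-- A lattice sum of an analytic function is close to the integral over the shifted box: general
statement. The function is bounded by `B` where some variable is near the boundary of the box, and by
`B * exp (2 π η M)` where some imaginary part is `± η`. -/
theorem lat_sum (d : ℕ) : ∃ C : ℝ, 0 < C ∧ ∀ δ η : ℝ, 0 < δ → 0 < η → η ≤ 1 → δ ≤ 1 / 8 →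
    ∃ M0 : ℕ, ∀ M : ℕ, M0 ≤ M → ∀ (o Y0 : Fin d → ℝ), (∀ i, |Y0 i| ≤ η) →
    ∀ (F : (Fin d → ℂ) → ℂ) (B : ℝ), 0 ≤ B →
    (∀ w : Fin d → ℂ, (∀ i, |(w i).re| ≤ 2 * δ ∧ |(w i).im| ≤ η) → DifferentiableAt ℂ F w) →
    (∀ w : Fin d → ℂ, (∀ i, |(w i).re| ≤ 2 * δ ∧ |(w i).im| ≤ η) →
      (∃ i, δ / 2 ≤ |(w i).re|) → ‖F w‖ ≤ B) →
    (∀ w : Fin d → ℂ, (∀ i, |(w i).re| ≤ 2 * δ ∧ |(w i).im| ≤ η) →
      (∃ i, |(w i).im| = η) → ‖F w‖ ≤ B * Real.exp (2 * Real.pi * η * M)) →
    ‖∑ n ∈ latBox M o δ, F (fun i => (((n i : ℝ) / M - o i : ℝ) : ℂ)) -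
      (M : ℂ) ^ d * ∫ x in Bc d δ, F (fun i => x i + Y0 i * I)‖ ≤ C * (M : ℝ) ^ d * B := by
  refine ⟨18 ^ d + 2, by positivity, fun δ η hδ hη hη1 hδ8 => ?_⟩
  refine ⟨⌈5 / δ + 1 / η⌉₊ + 2, fun M hM o Y0 hY0 F B hB hF1 hF2 hF3 => ?_⟩
  have hMr : 5 / δ + 1 / η + 2 ≤ M := by
    have h1 := Nat.le_ceil (5 / δ + 1 / η)
    have h2 : ((⌈5 / δ + 1 / η⌉₊ + 2 : ℕ) : ℝ) ≤ M := by exact_mod_cast hM
    push_cast at h2
    linarith
  have h5δ : 0 < 5 / δ := by positivity
  have h1η : 0 < 1 / η := by positivity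
  have hM2 : (2 : ℝ) ≤ M := by linarith
  have hMpos : (0 : ℝ) < M := by linarith
  have hMnat : 0 < M := by exact_mod_cast hMpos
  have hMδ : 5 ≤ δ * M := by
    have h1 : 5 / δ ≤ M := by linarith
    rw [div_le_iff₀ hδ] at h1
    linarith
  have hMη : 1 ≤ η * M := by
    have h1 : 1 / η ≤ M := by linarith
    rw [div_le_iff₀ hη] at h1
    linarith
  have hpi : 1 ≤ 2 * Real.pi * η * M := by
    have h1 := Real.pi_gt_three
    nlinarith
  have hinv : 1 / (M : ℝ) ≤ δ / 5 := by
    rw [div_le_div_iff₀ hMpos (by norm_num)]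
    linarith
  have hinv0 : 0 < 1 / (M : ℝ) := by positivity
  -- the range
  set K1 : ℝ := M * (1 / 2 - δ) with hK1
  set K2 : ℝ := M * (1 / 2 + δ) with hK2
  have hK10 : 0 ≤ K1 := by
    rw [hK1]
    exact mul_nonneg hMpos.le (by linarith)
  obtain ⟨k1, hk1a, hk1b⟩ : ∃ k1 : ℕ, K1 + 1 ≤ k1 ∧ (k1 : ℝ) ≤ K1 + 2 := by
    refine ⟨⌈K1⌉₊ + 1, ?_, ?_⟩
    · have := Nat.le_ceil K1
      push_cast
      linarith
    · have := (Nat.ceil_lt_add_one hK10).le
      push_cast
      linarith
  obtain ⟨k2, hk2a, hk2b⟩ : ∃ k2 : ℕ, K2 - 3 ≤ k2 ∧ (k2 : ℝ) ≤ K2 - 2 := by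
    have h1 : 2 ≤ ⌊K2⌋₊ := by
      apply Nat.le_floor
      push_cast
      rw [hK2]
      nlinarith
    refine ⟨⌊K2⌋₊ - 2, ?_, ?_⟩
    · have := (Nat.lt_floor_add_one K2).le
      rw [Nat.cast_sub h1]
      push_cast
      linarith
    · have := Nat.floor_le (show 0 ≤ K2 by rw [hK2]; positivity)
      rw [Nat.cast_sub h1]
      push_cast
      linarith
  have hK12 : K2 - K1 = 2 * (δ * M) := by rw [hK1, hK2]; ring
  have hk12 : k1 ≤ k2 := by
    have : (k1 : ℝ) ≤ k2 := by linarith
    exact_mod_cast this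
  have hbt : VC3.bt 2 = 1 / 2 := by unfold VC3.bt; norm_num
  set y1 : ℝ := (k1 + VC3.bt 2) / M - 1 / 2 with hy1
  set y2 : ℝ := (k2 + 1 + VC3.bt 2) / M - 1 / 2 with hy2
  have hK1M : K1 / M = 1 / 2 - δ := by rw [hK1]; field_simp
  have hK2M : K2 / M = 1 / 2 + δ := by rw [hK2]; field_simp
  have hy1a : -δ + 3 / 2 * (1 / M) ≤ y1 := by
    rw [hy1, hbt]
    have : (K1 + 3 / 2) / M ≤ ((k1 : ℝ) + 1 / 2) / M :=
      div_le_div_of_nonneg_right (by linarith) hMpos.le
    rw [add_div, hK1M] at this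
    have e : (3 / 2 : ℝ) / M = 3 / 2 * (1 / M) := by ring
    linarith
  have hy1b : y1 ≤ -δ + 5 / 2 * (1 / M) := by
    rw [hy1, hbt]
    have : ((k1 : ℝ) + 1 / 2) / M ≤ (K1 + 5 / 2) / M :=
      div_le_div_of_nonneg_right (by linarith) hMpos.le
    rw [add_div K1, hK1M] at this
    have e : (5 / 2 : ℝ) / M = 5 / 2 * (1 / M) := by ring
    linarith
  have hy2a : δ - 3 / 2 * (1 / M) ≤ y2 := by
    rw [hy2, hbt]
    have : (K2 - 3 / 2) / M ≤ ((k2 : ℝ) + 1 + 1 / 2) / M :=
      div_le_div_of_nonneg_right (by linarith) hMpos.le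
    rw [sub_div, hK2M] at this
    have e : (3 / 2 : ℝ) / M = 3 / 2 * (1 / M) := by ring
    linarith
  have hy2b : y2 ≤ δ - 1 / 2 * (1 / M) := by
    rw [hy2, hbt]
    have : ((k2 : ℝ) + 1 + 1 / 2) / M ≤ (K2 - 1 / 2) / M :=
      div_le_div_of_nonneg_right (by linarith) hMpos.le
    rw [sub_div, hK2M] at this
    have e : (1 / 2 : ℝ) / M = 1 / 2 * (1 / M) := by ring
    linarith
  -- the shifts
  set s : Fin d → ℤ := fun i => ⌊M * o i - M / 2 + 1⌋ with hs
  have hs1 : ∀ i, (s i : ℝ) ≤ M * o i - M / 2 + 1 := fun i => Int.floor_le _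
  have hs2 : ∀ i, M * o i - M / 2 < (s i : ℝ) := fun i => by
    have := Int.lt_floor_add_one (M * o i - M / 2 + 1 : ℝ)
    simp only [hs]
    linarith
  set er : Fin d → ℝ := fun i => 1 / M - 1 / 2 + o i - s i / M with her
  have her0 : ∀ i, 0 ≤ er i := by
    intro i
    have h1 : (s i : ℝ) / M ≤ (M * o i - M / 2 + 1) / M :=
      div_le_div_of_nonneg_right (hs1 i) hMpos.le
    have h2 : (M * o i - M / 2 + 1) / M = o i - 1 / 2 + 1 / M := by field_simp
    simp only [her]
    linarith
  have her1 : ∀ i, er i ≤ 1 / M := by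
    intro i
    have h1 : (M * o i - M / 2) / M ≤ (s i : ℝ) / M :=
      div_le_div_of_nonneg_right (hs2 i).le hMpos.le
    have h2 : (M * o i - M / 2) / M = o i - 1 / 2 := by field_simp
    simp only [her]
    linarith
  -- the shifted function
  set F' : (Fin d → ℂ) → ℂ := fun z => F (fun i => z i - er i) with hF'
  have hdom : ∀ z : Fin d → ℂ, (∀ i, y1 ≤ (z i).re ∧ (z i).re ≤ y2 ∧ |(z i).im| ≤ η) →
      ∀ i, |((fun i => z i - er i : Fin d → ℂ) i).re| ≤ 2 * δ ∧
        |((fun i => z i - er i : Fin d → ℂ) i).im| ≤ η := by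
    intro z hz i
    obtain ⟨h1, h2, h3⟩ := hz i
    have h4 := her0 i
    have h5 := her1 i
    simp only [Complex.sub_re, Complex.sub_im, Complex.ofReal_re, Complex.ofReal_im, sub_zero]
    refine ⟨?_, h3⟩
    rw [abs_le]
    constructor <;> linarith
  have hdiff : ∀ z : Fin d → ℂ, (∀ i, y1 ≤ (z i).re ∧ (z i).re ≤ y2 ∧ |(z i).im| ≤ η) →
      DifferentiableAt ℂ F' z := by
    intro z hz
    have h1 := hF1 _ (hdom z hz)
    have h2 : DifferentiableAt ℂ (fun z : Fin d → ℂ => (fun i => z i - er i : Fin d → ℂ)) z := by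
      rw [differentiableAt_pi]
      intro i
      exact (differentiableAt_apply i z).sub_const _
    exact DifferentiableAt.comp z h1 h2
  have hFF : ∀ z : Fin d → ℂ, (∀ i, y1 ≤ (z i).re ∧ (z i).re ≤ y2 ∧ |(z i).im| ≤ η) →
      ContinuousAt F' z ∧ ∀ j, DifferentiableAt ℂ (fun w => F' (Function.update z j w)) (z j) := by
    intro z hz
    refine ⟨(hdiff z hz).continuousAt, fun j => ?_⟩
    have h1 : DifferentiableAt ℂ F' (Function.update z j (z j)) := by
      rw [Function.update_eq_self]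
      exact hdiff z hz
    have h2 : DifferentiableAt ℂ (fun w => Function.update z j w) (z j) :=
      (hasFDerivAt_update z (z j)).differentiableAt
    exact DifferentiableAt.comp (g := F') (z j) h1 h2
  -- a bound on the whole domain
  obtain ⟨A, hA0, hA⟩ : ∃ A : ℝ, 0 ≤ A ∧ ∀ z ∈ E_Lat1_K d y1 y2 η, ‖F' z‖ ≤ A := by
    have hc : ContinuousOn F' (E_Lat1_K d y1 y2 η) := fun z hz =>
      (hdiff z hz).continuousAt.continuousWithinAt
    obtain ⟨A, hA⟩ := (E_Lat1_K_compact d y1 y2 η).exists_bound_of_continuousOn hc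
    exact ⟨max A 0, le_max_right _ _, fun z hz => (hA z hz).trans (le_max_left _ _)⟩
  have hdmp1 : ∀ σ : Fin 3, 1 ≤ VC6.dmp η M σ := by
    intro σ
    unfold VC6.dmp
    split_ifs
    · exact Real.one_le_exp (by positivity)
    · exact le_rfl
  have hprodS : ∀ (σ : Fin d → Fin 3) (S : Finset (Fin d)), 1 ≤ ∏ j ∈ S, VC6.dmp η M (σ j) := by
    intro σ S
    calc (1 : ℝ) = ∏ _j ∈ S, (1 : ℝ) := Finset.prod_const_one.symm
      _ ≤ _ := Finset.prod_le_prod (fun _ _ => zero_le_one) fun j _ => hdmp1 (σ j)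
  have hprod1 : ∀ σ : Fin d → Fin 3, 1 ≤ ∏ j, VC6.dmp η M (σ j) := fun σ => hprodS σ _
  have hAA : ∀ (σ : Fin d → Fin 3) (z : Fin d → ℂ), (∀ j, VC6.Stt y1 y2 η (Y0 j) (σ j) (z j)) →
      ‖F' z‖ ≤ A * ∏ j, VC6.dmp η M (σ j) := by
    intro σ z hz
    have h1 := hA z (fun i => ⟨(hz i).1, (hz i).2.1, (hz i).2.2.1⟩)
    calc ‖F' z‖ ≤ A := h1
      _ = A * 1 := (mul_one _).symm
      _ ≤ _ := mul_le_mul_of_nonneg_left (hprod1 σ) hA0
  have hBB : ∀ (σ : Fin d → Fin 3) (z : Fin d → ℂ), (∃ j, σ j ≠ 0) →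
      (∀ j, VC6.Stt y1 y2 η (Y0 j) (σ j) (z j)) → ‖F' z‖ ≤ B * ∏ j, VC6.dmp η M (σ j) := by
    intro σ z hσ hz
    have hz' : ∀ i, y1 ≤ (z i).re ∧ (z i).re ≤ y2 ∧ |(z i).im| ≤ η := fun i =>
      ⟨(hz i).1, (hz i).2.1, (hz i).2.2.1⟩
    by_cases h2 : ∃ j, σ j = 2
    · obtain ⟨j, hj⟩ := h2
      have h3 := (hz j).2.2.2.2.2 hj
      have h4 : ‖F' z‖ ≤ B * Real.exp (2 * Real.pi * η * M) := by
        refine hF3 _ (hdom z hz') ⟨j, ?_⟩
        simp only [Complex.sub_im, Complex.ofReal_im, sub_zero]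
        exact h3
      refine h4.trans (mul_le_mul_of_nonneg_left ?_ hB)
      have h5 : VC6.dmp η M (σ j) = Real.exp (2 * Real.pi * η * M) := by
        unfold VC6.dmp
        rw [if_pos hj]
      rw [← h5]
      rw [← Finset.mul_prod_erase Finset.univ (fun j => VC6.dmp η M (σ j)) (Finset.mem_univ j)]
      exact le_mul_of_one_le_right (zero_le_one.trans (hdmp1 _)) (hprodS σ _)
    · push Not at h2
      obtain ⟨j, hj⟩ := hσ
      have hj1 : σ j = 1 := by
        have h3 := h2 j
        revert hj h3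
        generalize σ j = t
        revert t
        decide
      have h3 := (hz j).2.2.2.2.1 hj1
      have h4 : ‖F' z‖ ≤ B := by
        refine hF2 _ (hdom z hz') ⟨j, ?_⟩
        simp only [Complex.sub_re, Complex.ofReal_re]
        have h5 := her0 j
        have h6 := her1 j
        rcases h3 with h3 | h3
        · rw [h3]
          refine le_trans ?_ (neg_le_abs _)
          linarith
        · rw [h3]
          refine le_trans ?_ (le_abs_self _)
          linarith
      calc ‖F' z‖ ≤ B := h4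
        _ = B * 1 := (mul_one _).symm
        _ ≤ _ := mul_le_mul_of_nonneg_left (hprod1 σ) hB
  have hkey := (VC6.prodpath F' 2 M k1 k2 η Y0 hMnat hk12 hη hη1 hY0 hpi y1 y2 hy1 hy2
    (by linarith) A B hA0 hB hFF hAA hBB).2
  -- the sum
  set P' : Finset (Fin d → ℤ) :=
    Fintype.piFinset (fun i => Finset.Icc ((k1 : ℤ) + s i) ((k2 : ℤ) + s i)) with hP'
  have hsub : P' ⊆ latBox M o δ := by
    refine Fintype.piFinset_subset _ _ fun i => ?_
    refine Finset.Icc_subset_Icc ?_ ?_
    · rw [Int.ceil_le]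
      push_cast
      have := hs2 i
      nlinarith
    · rw [Int.le_floor]
      push_cast
      have := hs1 i
      nlinarith
  have hsum1 : ∑ n ∈ P', F (fun i => (((n i : ℝ) / M - o i : ℝ) : ℂ)) =
      ∑ t ∈ Fintype.piFinset (fun _ : Fin d => Finset.Icc k1 k2),
        F' (fun j => (VC3.yk 2 M (t j) : ℂ)) := by
    symm
    refine Finset.sum_nbij (fun t i => (t i : ℤ) + s i) ?_ ?_ ?_ ?_
    · intro t ht
      rw [Fintype.mem_piFinset] at ht
      rw [hP', Fintype.mem_piFinset]
      intro i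
      have := Finset.mem_Icc.1 (ht i)
      rw [Finset.mem_Icc]
      omega
    · intro t _ t' _ h
      funext i
      have := congrFun h i
      simp only [add_left_inj] at this
      exact_mod_cast this
    · intro n hn
      rw [Finset.mem_coe, hP', Fintype.mem_piFinset] at hn
      refine ⟨fun i => (n i - s i).toNat, ?_, ?_⟩
      · rw [Finset.mem_coe, Fintype.mem_piFinset]
        intro i
        have := Finset.mem_Icc.1 (hn i)
        rw [Finset.mem_Icc]
        omega
      · funext i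
        have := Finset.mem_Icc.1 (hn i)
        simp only
        omega
    · intro t _
      simp only [hF']
      congr 1
      funext i
      rw [← Complex.ofReal_sub]
      congr 1
      unfold VC3.yk
      rw [hbt]
      simp only [her]
      push_cast
      field_simp
      ring
  have hsum2 : ‖∑ n ∈ latBox M o δ \ P', F (fun i => (((n i : ℝ) / M - o i : ℝ) : ℂ))‖ ≤
      (M : ℝ) ^ d * B := by
    have hterm : ∀ n ∈ latBox M o δ \ P', ‖F (fun i => (((n i : ℝ) / M - o i : ℝ) : ℂ))‖ ≤ B := by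
      intro n hn
      rw [Finset.mem_sdiff] at hn
      obtain ⟨hn1, hn2⟩ := hn
      unfold latBox at hn1
      rw [Fintype.mem_piFinset] at hn1
      have hb : ∀ i, -δ ≤ (n i : ℝ) / M - o i ∧ (n i : ℝ) / M - o i ≤ δ := by
        intro i
        have h1 := Finset.mem_Icc.1 (hn1 i)
        have h2 := Int.ceil_le.1 h1.1
        have h3 := Int.le_floor.1 h1.2
        constructor
        · have : M * (o i - δ) / M ≤ (n i : ℝ) / M := div_le_div_of_nonneg_right h2 hMpos.le
          rw [mul_div_cancel_left₀ _ hMpos.ne'] at this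
          linarith
        · have : (n i : ℝ) / M ≤ M * (o i + δ) / M := div_le_div_of_nonneg_right h3 hMpos.le
          rw [mul_div_cancel_left₀ _ hMpos.ne'] at this
          linarith
      refine hF2 _ ?_ ?_
      · intro i
        simp only [Complex.ofReal_re, Complex.ofReal_im, abs_zero]
        refine ⟨?_, hη.le⟩
        rw [abs_le]
        have := hb i
        constructor <;> linarith
      · rw [hP', Fintype.mem_piFinset] at hn2
        push Not at hn2
        obtain ⟨i, hi⟩ := hn2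
        refine ⟨i, ?_⟩
        simp only [Complex.ofReal_re]
        rw [Finset.mem_Icc, not_and_or, not_le, not_le] at hi
        rcases hi with hi | hi
        · have h1 : (n i : ℝ) + 1 ≤ k1 + s i := by exact_mod_cast hi
          have h2 := hs1 i
          have h3 : (n i : ℝ) ≤ M * (o i - δ) + 2 := by
            have : K1 = M * (1 / 2 - δ) := hK1
            linarith
          have h4 : (n i : ℝ) / M ≤ (M * (o i - δ) + 2) / M :=
            div_le_div_of_nonneg_right h3 hMpos.le
          have h5 : (M * (o i - δ) + 2) / M = o i - δ + 2 * (1 / M) := by field_simp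
          refine le_trans ?_ (neg_le_abs _)
          linarith
        · have h1 : (k2 : ℝ) + s i + 1 ≤ n i := by exact_mod_cast hi
          have h2 := (hs2 i).le
          have h3 : M * (o i + δ) - 2 ≤ (n i : ℝ) := by
            have : K2 = M * (1 / 2 + δ) := hK2
            linarith
          have h4 : (M * (o i + δ) - 2) / M ≤ (n i : ℝ) / M :=
            div_le_div_of_nonneg_right h3 hMpos.le
          have h5 : (M * (o i + δ) - 2) / M = o i + δ - 2 * (1 / M) := by field_simp
          refine le_trans ?_ (le_abs_self _)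
          linarith
    have hcard : ((latBox M o δ \ P').card : ℝ) ≤ (M : ℝ) ^ d := by
      have h1 : (latBox M o δ \ P').card ≤ (latBox M o δ).card :=
        Finset.card_le_card Finset.sdiff_subset
      have h2 : (latBox M o δ).card ≤ M ^ d := by
        unfold latBox
        rw [Fintype.card_piFinset]
        calc ∏ i : Fin d, (Finset.Icc ⌈(M : ℝ) * (o i - δ)⌉ ⌊(M : ℝ) * (o i + δ)⌋).card
            ≤ ∏ _i : Fin d, M := by
              refine Finset.prod_le_prod' fun i _ => ?_
              rw [Int.card_Icc, Int.toNat_le]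
              have h3 := Int.floor_le ((M : ℝ) * (o i + δ))
              have h4 := Int.le_ceil ((M : ℝ) * (o i - δ))
              have h5 : ((⌊(M : ℝ) * (o i + δ)⌋ + 1 - ⌈(M : ℝ) * (o i - δ)⌉ : ℤ) : ℝ) ≤ (M : ℝ) := by
                push_cast
                nlinarith
              exact_mod_cast h5
          _ = M ^ d := by simp
      exact_mod_cast h1.trans h2
    refine (norm_sum_le _ _).trans ((Finset.sum_le_sum hterm).trans ?_)
    rw [Finset.sum_const, nsmul_eq_mul]
    exact mul_le_mul_of_nonneg_right hcard hB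
  -- the integral
  set f : (Fin d → ℝ) → ℂ := fun x => F (fun i => x i + Y0 i * I) with hf
  set S : Set (Fin d → ℝ) :=
    Set.pi Set.univ (fun i : Fin d => Set.Ioc (y1 - er i) (y2 - er i)) with hS
  have hint1 : ∫ x in Set.pi Set.univ (fun _ : Fin d => Set.Ioc y1 y2),
      F' (fun j => x j + Y0 j * I) = ∫ x in S, f x := by
    have h1 := (MeasureTheory.measurePreserving_sub_right
      (MeasureTheory.volume : MeasureTheory.Measure (Fin d → ℝ)) er).setIntegral_preimage_emb
      (measurableEmbedding_subRight er) f S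
    rw [← h1]
    have h2 : (fun x : Fin d → ℝ => x - er) ⁻¹' S =
        Set.pi Set.univ (fun _ : Fin d => Set.Ioc y1 y2) := by
      ext x
      simp only [hS, Set.mem_preimage, Set.mem_pi, Set.mem_univ, true_implies, Set.mem_Ioc,
        Pi.sub_apply, sub_lt_sub_iff_right, sub_le_sub_iff_right]
    rw [h2]
    refine MeasureTheory.setIntegral_congr_fun
      (MeasurableSet.univ_pi fun _ => measurableSet_Ioc) fun x _ => ?_
    simp only [hF', hf]
    congr 1
    funext i
    simp only [Pi.sub_apply]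
    push_cast
    ring
  have hSB : S ⊆ Bc d δ := by
    intro x hx
    simp only [hS, Set.mem_pi, Set.mem_univ, true_implies, Set.mem_Ioc] at hx
    simp only [Bc, Set.mem_pi, Set.mem_univ, true_implies, Set.mem_Ioc]
    intro i
    have h1 := hx i
    have h2 := her0 i
    have h3 := her1 i
    constructor <;> linarith
  have hSm : MeasurableSet S := MeasurableSet.univ_pi fun _ => measurableSet_Ioc
  have hfc : ContinuousOn f (Set.pi Set.univ (fun _ : Fin d => Set.Icc (-δ) δ)) := by
    intro x hx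
    simp only [Set.mem_pi, Set.mem_univ, true_implies, Set.mem_Icc] at hx
    have h1 : ContinuousAt F (fun i => (x i : ℂ) + Y0 i * I) := by
      refine (hF1 _ fun i => ?_).continuousAt
      simp only [Complex.add_re, Complex.ofReal_re, Complex.mul_re, Complex.I_re, mul_zero,
        Complex.ofReal_im, Complex.I_im, mul_one, sub_zero, add_zero, Complex.add_im,
        Complex.mul_im, zero_add]
      refine ⟨?_, hY0 i⟩
      rw [abs_le]
      have := hx i
      constructor <;> linarith
    have h2 : Continuous (fun x : Fin d → ℝ => (fun i => (x i : ℂ) + Y0 i * I : Fin d → ℂ)) := by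
      fun_prop
    exact (ContinuousAt.comp (f := fun x : Fin d → ℝ => (fun i => (x i : ℂ) + Y0 i * I : Fin d → ℂ))
      (x := x) h1 h2.continuousAt).continuousWithinAt
  have hBsub : Bc d δ ⊆ Set.pi Set.univ (fun _ : Fin d => Set.Icc (-δ) δ) := by
    unfold Bc
    exact Set.pi_mono fun _ _ => Set.Ioc_subset_Icc_self
  have hfi : MeasureTheory.IntegrableOn f (Bc d δ) :=
    (hfc.integrableOn_compact (isCompact_univ_pi fun _ => isCompact_Icc)).mono_set hBsub
  have hvol : MeasureTheory.volume.real (Bc d δ) ≤ 1 := by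
    unfold Bc
    have h0 : (fun _ : Fin d => -δ) ≤ fun _ : Fin d => δ := fun _ => by linarith
    rw [MeasureTheory.Measure.real, Real.volume_pi_Ioc_toReal h0]
    refine Finset.prod_le_one (fun _ _ => by linarith) fun _ _ => ?_
    linarith
  have hvolfin : MeasureTheory.volume (Bc d δ) < ⊤ := by
    unfold Bc
    rw [Real.volume_pi_Ioc]
    exact ENNReal.prod_lt_top fun _ _ => ENNReal.ofReal_lt_top
  have hint2 : ‖(∫ x in S, f x) - ∫ x in Bc d δ, f x‖ ≤ B := by
    have h1 : ∫ x in Bc d δ \ S, f x = (∫ x in Bc d δ, f x) - ∫ x in S, f x :=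
      MeasureTheory.setIntegral_sdiff hSm hfi hSB
    rw [norm_sub_rev, ← h1]
    have h2 : MeasureTheory.volume (Bc d δ \ S) < ⊤ :=
      (MeasureTheory.measure_mono Set.sdiff_subset).trans_lt hvolfin
    have h3 : ∀ x ∈ Bc d δ \ S, ‖f x‖ ≤ B := by
      intro x hx
      obtain ⟨hx1, hx2⟩ := hx
      have hx1' : ∀ i, -δ < x i ∧ x i ≤ δ := by
        intro i
        simp only [Bc, Set.mem_pi, Set.mem_univ, true_implies, Set.mem_Ioc] at hx1
        exact hx1 i
      refine hF2 _ ?_ ?_
      · intro i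
        simp only [Complex.add_re, Complex.ofReal_re, Complex.mul_re, Complex.I_re, mul_zero,
          Complex.ofReal_im, Complex.I_im, mul_one, sub_zero, add_zero, Complex.add_im,
          Complex.mul_im, zero_add]
        refine ⟨?_, hY0 i⟩
        rw [abs_le]
        have := hx1' i
        constructor <;> linarith
      · simp only [hS, Set.mem_pi, Set.mem_univ, true_implies, Set.mem_Ioc] at hx2
        push Not at hx2
        obtain ⟨i, hi⟩ := hx2
        refine ⟨i, ?_⟩
        simp only [Complex.add_re, Complex.ofReal_re, Complex.mul_re, Complex.I_re, mul_zero,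
          Complex.ofReal_im, Complex.I_im, mul_one, sub_zero, add_zero]
        have h4 := her0 i
        have h5 := her1 i
        rcases le_or_gt (x i) (y1 - er i) with h6 | h6
        · refine le_trans ?_ (neg_le_abs _)
          linarith
        · have h7 := hi h6
          refine le_trans ?_ (le_abs_self _)
          linarith
    refine (MeasureTheory.norm_setIntegral_le_of_norm_le_const h2 h3).trans ?_
    have h4 : MeasureTheory.volume.real (Bc d δ \ S) ≤ 1 :=
      (MeasureTheory.measureReal_mono Set.sdiff_subset hvolfin.ne).trans hvol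
    calc B * MeasureTheory.volume.real (Bc d δ \ S) ≤ B * 1 := mul_le_mul_of_nonneg_left h4 hB
      _ = B := mul_one _
  -- conclusion
  rw [← Finset.sum_sdiff hsub, hsum1]
  rw [hint1] at hkey
  have e : ∑ n ∈ latBox M o δ \ P', F (fun i => (((n i : ℝ) / M - o i : ℝ) : ℂ)) +
      ∑ t ∈ Fintype.piFinset (fun _ : Fin d => Finset.Icc k1 k2),
        F' (fun j => (VC3.yk 2 M (t j) : ℂ)) - (M : ℂ) ^ d * ∫ x in Bc d δ, f x =
      ∑ n ∈ latBox M o δ \ P', F (fun i => (((n i : ℝ) / M - o i : ℝ) : ℂ)) +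
      (∑ t ∈ Fintype.piFinset (fun _ : Fin d => Finset.Icc k1 k2),
        F' (fun j => (VC3.yk 2 M (t j) : ℂ)) - (M : ℂ) ^ d * ∫ x in S, f x) +
      (M : ℂ) ^ d * ((∫ x in S, f x) - ∫ x in Bc d δ, f x) := by ring
  rw [e]
  have hlast : ‖(M : ℂ) ^ d * ((∫ x in S, f x) - ∫ x in Bc d δ, f x)‖ ≤ (M : ℝ) ^ d * B := by
    rw [norm_mul, norm_pow, Complex.norm_natCast]
    exact mul_le_mul_of_nonneg_left hint2 (by positivity)
  refine (norm_add₃_le).trans ?_
  calc _ ≤ (M : ℝ) ^ d * B + (18 * (M : ℝ)) ^ d * B + (M : ℝ) ^ d * B :=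
        add_le_add (add_le_add hsum2 hkey) hlast
    _ = (18 ^ d + 2) * (M : ℝ) ^ d * B := by
        rw [mul_pow]
        ring

end Pool.Agent.H63.CLK
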