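import Pool.Agent.H63.CLK.E_Tay

/-! # The real part of the potential -/

namespace Pool.Agent.H63.CLK

open Complex Filter Topology
open scoped BigOperators

variable {d c : ℕ} {Φ : (Ix d c → ℂ) → ℂ} {ε : ℝ}

private theorem E_Re_norm_re (z : Ix d c → ℂ) (ε1 : ℝ) (h0 : 0 ≤ ε1) (hz : ‖z‖ ≤ ε1) (i : Ix d c) :
    ‖z i‖ ≤ ε1 := le_trans (norm_le_pi_norm z i) hz

/-- A one-dimensional Taylor inequality. -/
private theorem E_Re_taylor (f f' f'' : ℝ → ℝ) (B : ℝ)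
    (h1 : ∀ t ∈ Set.Icc (0 : ℝ) 1, HasDerivAt f (f' t) t)
    (h2 : ∀ t ∈ Set.Icc (0 : ℝ) 1, HasDerivAt f' (f'' t) t)
    (h3 : ∀ t ∈ Set.Icc (0 : ℝ) 1, f'' t ≤ B) : f 1 ≤ f 0 + f' 0 + B / 2 := by
  have hc0 : (0 : ℝ) ∈ Set.Icc (0 : ℝ) 1 := ⟨le_refl _, zero_le_one⟩
  have hc1 : (1 : ℝ) ∈ Set.Icc (0 : ℝ) 1 := ⟨zero_le_one, le_refl _⟩
  have hsub : ∀ t, t ∈ interior (Set.Icc (0 : ℝ) 1) → t ∈ Set.Icc (0 : ℝ) 1 :=
    fun t ht => interior_subset ht
  have hg : ∀ t ∈ Set.Icc (0 : ℝ) 1, HasDerivAt (fun t => f' t - B * t) (f'' t - B * 1) t := by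
    intro t ht
    exact (h2 t ht).sub ((hasDerivAt_id t).const_mul B)
  have hanti : AntitoneOn (fun t => f' t - B * t) (Set.Icc (0 : ℝ) 1) := by
    apply antitoneOn_of_deriv_nonpos (convex_Icc 0 1)
    · intro t ht
      exact (hg t ht).continuousAt.continuousWithinAt
    · intro t ht
      exact (hg t (hsub t ht)).differentiableAt.differentiableWithinAt
    · intro t ht
      rw [(hg t (hsub t ht)).deriv]
      have := h3 t (hsub t ht)
      linarith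
  have hF : ∀ t ∈ Set.Icc (0 : ℝ) 1, HasDerivAt (fun t => f t - B / 2 * (t * t) - f' 0 * t)
      (f' t - B / 2 * (1 * t + t * 1) - f' 0 * 1) t := by
    intro t ht
    exact ((h1 t ht).sub (((hasDerivAt_id t).mul (hasDerivAt_id t)).const_mul (B / 2))).sub
      ((hasDerivAt_id t).const_mul (f' 0))
  have hanti2 : AntitoneOn (fun t => f t - B / 2 * (t * t) - f' 0 * t) (Set.Icc (0 : ℝ) 1) := by
    apply antitoneOn_of_deriv_nonpos (convex_Icc 0 1)
    · intro t ht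
      exact (hF t ht).continuousAt.continuousWithinAt
    · intro t ht
      exact (hF t (hsub t ht)).differentiableAt.differentiableWithinAt
    · intro t ht
      rw [(hF t (hsub t ht)).deriv]
      have h4 := hanti hc0 (hsub t ht) (hsub t ht).1
      simp only [mul_zero, sub_zero] at h4
      linarith
  have h5 := hanti2 hc0 hc1 zero_le_one
  simp only [mul_zero, sub_zero, mul_one] at h5
  linarith

private theorem E_Re_line (p x : Ix d c → ℂ) (t : ℝ) :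
    HasDerivAt (fun s : ℝ => p + (s : ℂ) • x) x t := by
  have h1 : HasDerivAt (fun s : ℝ => (s : ℂ)) 1 t := Complex.ofRealCLM.hasDerivAt
  have h2 := (h1.smul_const x).const_add p
  simpa using h2

private theorem E_Re_d1 (h : PotOK Φ ε) (p x : Ix d c → ℂ) (t : ℝ) (ht : ‖p + (t : ℂ) • x‖ ≤ ε) :
    HasDerivAt (fun s : ℝ => Φ (p + (s : ℂ) • x)) (fderiv ℂ Φ (p + (t : ℂ) • x) x) t := by
  have han : AnalyticAt ℂ Φ (p + (t : ℂ) • x) := h.an _ (by simpa [Metric.mem_closedBall] using ht)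
  have h1 : HasFDerivAt Φ (fderiv ℂ Φ (p + (t : ℂ) • x)) (p + (t : ℂ) • x) :=
    han.differentiableAt.hasFDerivAt
  have h2 := (h1.restrictScalars ℝ).comp_hasDerivAt t (E_Re_line p x t)
  exact h2

private theorem E_Re_sum_single (x : Ix d c → ℂ) :
    x = ∑ b, x b • (Pi.single b (1 : ℂ) : Ix d c → ℂ) := by
  funext i
  simp [Finset.sum_apply, Pi.single_apply]

private theorem E_Re_apply (L : (Ix d c → ℂ) →L[ℂ] ℂ) (x : Ix d c → ℂ) :
    L x = ∑ a, x a * L (Pi.single a 1) := by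
  conv_lhs => rw [E_Re_sum_single x]
  rw [map_sum]
  apply Finset.sum_congr rfl
  intro a _
  rw [map_smul, smul_eq_mul]

private theorem E_Re_d2 (h : PotOK Φ ε) (p x : Ix d c → ℂ) (t : ℝ) (ht : ‖p + (t : ℂ) • x‖ ≤ ε) :
    HasDerivAt (fun s : ℝ => fderiv ℂ Φ (p + (s : ℂ) • x) x)
      (∑ a, ∑ b, hs Φ (p + (t : ℂ) • x) a b * x a * x b) t := by
  have han : AnalyticAt ℂ (fderiv ℂ Φ) (p + (t : ℂ) • x) :=
    (h.an _ (by simpa [Metric.mem_closedBall] using ht)).fderiv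
  have h0 : ∀ s : ℝ, fderiv ℂ Φ (p + (s : ℂ) • x) x =
      ∑ a, x a * fderiv ℂ Φ (p + (s : ℂ) • x) (Pi.single a 1) := fun s => E_Re_apply _ _
  have h1 : ∀ a : Ix d c, HasDerivAt (fun s : ℝ => fderiv ℂ Φ (p + (s : ℂ) • x) (Pi.single a 1))
      (∑ b, x b * hs Φ (p + (t : ℂ) • x) a b) t := by
    intro a
    have h2 : DifferentiableAt ℂ (fun z => fderiv ℂ Φ z (Pi.single a 1)) (p + (t : ℂ) • x) :=
      han.differentiableAt.clm_apply (differentiableAt_const _)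
    have h3 := (h2.hasFDerivAt.restrictScalars ℝ).comp_hasDerivAt t (E_Re_line p x t)
    have h4 : (fderiv ℂ (fun z => fderiv ℂ Φ z (Pi.single a 1)) (p + (t : ℂ) • x)) x =
        ∑ b, x b * hs Φ (p + (t : ℂ) • x) a b := E_Re_apply _ _
    have h5 : HasDerivAt (fun s : ℝ => fderiv ℂ Φ (p + (s : ℂ) • x) (Pi.single a 1))
        ((fderiv ℂ (fun z => fderiv ℂ Φ z (Pi.single a 1)) (p + (t : ℂ) • x)) x) t := h3
    rw [h4] at h5
    exact h5
  have h6 : HasDerivAt (fun s : ℝ => ∑ a, x a * fderiv ℂ Φ (p + (s : ℂ) • x) (Pi.single a 1))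
      (∑ a, x a * ∑ b, x b * hs Φ (p + (t : ℂ) • x) a b) t := by
    apply HasDerivAt.fun_sum
    intro a _
    exact (h1 a).const_mul (x a)
  have h7 : (∑ a, x a * ∑ b, x b * hs Φ (p + (t : ℂ) • x) a b) =
      ∑ a, ∑ b, hs Φ (p + (t : ℂ) • x) a b * x a * x b := by
    apply Finset.sum_congr rfl
    intro a _
    rw [Finset.mul_sum]
    apply Finset.sum_congr rfl
    intro b _
    ring
  rw [h7] at h6
  exact h6.congr_of_eventuallyEq (Filter.Eventually.of_forall (fun s => h0 s))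

private theorem E_Re_re (f : ℝ → ℂ) (f' : ℂ) (t : ℝ) (hf : HasDerivAt f f' t) :
    HasDerivAt (fun s => (f s).re) f'.re t := by
  have h := (Complex.reCLM.hasFDerivAt (x := f t)).comp_hasDerivAt t hf
  exact h

private theorem E_Re_im (f : ℝ → ℂ) (f' : ℂ) (t : ℝ) (hf : HasDerivAt f f' t) :
    HasDerivAt (fun s => (f s).im) f'.im t := by
  have h := (Complex.imCLM.hasFDerivAt (x := f t)).comp_hasDerivAt t hf
  exact h

/-- The Taylor inequality along a segment. -/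
private theorem E_Re_seg (h : PotOK Φ ε) (p x : Ix d c → ℂ) (B : ℝ)
    (hn : ∀ t ∈ Set.Icc (0 : ℝ) 1, ‖p + (t : ℂ) • x‖ ≤ ε)
    (hB : ∀ t ∈ Set.Icc (0 : ℝ) 1, (∑ a, ∑ b, hs Φ (p + (t : ℂ) • x) a b * x a * x b).re ≤ B) :
    (Φ (p + x)).re ≤ (Φ p).re + (fderiv ℂ Φ p x).re + B / 2 := by
  have h1 := E_Re_taylor (fun t : ℝ => (Φ (p + (t : ℂ) • x)).re)
    (fun t : ℝ => (fderiv ℂ Φ (p + (t : ℂ) • x) x).re)
    (fun t : ℝ => (∑ a, ∑ b, hs Φ (p + (t : ℂ) • x) a b * x a * x b).re) B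
    (fun t ht => E_Re_re _ _ t (E_Re_d1 h p x t (hn t ht)))
    (fun t ht => E_Re_re _ _ t (E_Re_d2 h p x t (hn t ht))) hB
  simpa using h1

private theorem E_Re_real_deriv (h : PotOK Φ ε) (x y : Ix d c → ℝ) (ε1 : ℝ) (h1 : ε1 < ε)
    (hx : ∀ i, |x i| ≤ ε1) : (fderiv ℂ Φ (cpx x) (cpx y)).im = 0 := by
  have hxn : ‖cpx x‖ ≤ ε := by
    rw [pi_norm_le_iff_of_nonneg h.pos.le]
    intro i
    have := hx i
    rw [cpx, Complex.norm_real, Real.norm_eq_abs]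
    linarith
  have hd := E_Re_im _ _ 0 (E_Re_d1 h (cpx x) (cpx y) 0 (by simpa using hxn))
  have hd' : HasDerivAt (fun s : ℝ => (Φ (cpx x + (s : ℂ) • cpx y)).im)
      (fderiv ℂ Φ (cpx x) (cpx y)).im 0 := by simpa using hd
  have hev : (fun s : ℝ => (Φ (cpx x + (s : ℂ) • cpx y)).im) =ᶠ[𝓝 (0 : ℝ)] fun _ => (0 : ℝ) := by
    have hi : ∀ i, ∀ᶠ s : ℝ in 𝓝 0, |x i + s * y i| ≤ ε := by
      intro i
      have hcont : ContinuousAt (fun s : ℝ => |x i + s * y i|) 0 := by fun_prop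
      have hlt : |x i + 0 * y i| < ε := by
        have := hx i
        rw [zero_mul, add_zero]
        linarith
      have := hcont.eventually (gt_mem_nhds hlt)
      filter_upwards [this] with s hs
      exact hs.le
    have hall : ∀ᶠ s : ℝ in 𝓝 0, ∀ i, |x i + s * y i| ≤ ε := Filter.eventually_all.mpr hi
    filter_upwards [hall] with s hs
    have he : cpx x + (s : ℂ) • cpx y = cpx (fun i => x i + s * y i) := by
      funext i
      simp [cpx]
    rw [he]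
    exact h.real _ hs
  have h0 : HasDerivAt (fun s : ℝ => (Φ (cpx x + (s : ℂ) • cpx y)).im) 0 0 :=
    (hasDerivAt_const (0 : ℝ) (0 : ℝ)).congr_of_eventuallyEq hev
  exact hd'.unique h0

private theorem E_Re_hs_bound (h : PotOK Φ ε) (ε1 : ℝ) (h1 : ε1 < ε) :
    ∃ H : ℝ, 0 ≤ H ∧ ∀ p : Ix d c → ℂ, ‖p‖ ≤ ε1 → ∀ a b, ‖hs Φ p a b‖ ≤ H := by
  have hK : IsCompact (Metric.closedBall (0 : Ix d c → ℂ) ε1) := isCompact_closedBall _ _
  have hab : ∀ ab : Ix d c × Ix d c, ∃ C : ℝ, ∀ p ∈ Metric.closedBall (0 : Ix d c → ℂ) ε1,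
      ‖hs Φ p ab.1 ab.2‖ ≤ C := by
    intro ab
    apply hK.exists_bound_of_continuousOn
    exact (hs_continuous h ab.1 ab.2).mono (Metric.closedBall_subset_ball h1)
  choose C hC using hab
  refine ⟨∑ ab, |C ab|, Finset.sum_nonneg (fun _ _ => abs_nonneg _), ?_⟩
  intro p hp a b
  have h2 := hC (a, b) p (by simpa [Metric.mem_closedBall] using hp)
  have h3 : |C (a, b)| ≤ ∑ ab, |C ab| :=
    Finset.single_le_sum (f := fun ab => |C ab|) (fun _ _ => abs_nonneg _) (Finset.mem_univ (a, b))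
  have h4 : C (a, b) ≤ |C (a, b)| := le_abs_self _
  exact le_trans h2 (le_trans h4 h3)

private theorem E_Re_quad (H : ℝ) (hH : 0 ≤ H) (q : Ix d c → Ix d c → ℂ)
    (hq : ∀ a b, ‖q a b‖ ≤ H) (y : Ix d c → ℂ) (w : Ix d c → ℝ) (hy : ∀ i, ‖y i‖ ≤ |w i|) :
    (∑ a, ∑ b, q a b * y a * y b).re ≤
      ((Fintype.card (Ix d c) : ℝ) ^ 2 * H) * ∑ i, w i ^ 2 := by
  have hS : ∀ a b : Ix d c, |w a| * |w b| ≤ ∑ i, w i ^ 2 := by
    intro a b
    have ha : w a ^ 2 ≤ ∑ i, w i ^ 2 :=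
      Finset.single_le_sum (f := fun i => w i ^ 2) (fun _ _ => sq_nonneg _) (Finset.mem_univ a)
    have hb : w b ^ 2 ≤ ∑ i, w i ^ 2 :=
      Finset.single_le_sum (f := fun i => w i ^ 2) (fun _ _ => sq_nonneg _) (Finset.mem_univ b)
    have h2 := two_mul_le_add_sq |w a| |w b|
    rw [sq_abs, sq_abs] at h2
    linarith
  have hterm : ∀ a b : Ix d c, ‖q a b * y a * y b‖ ≤ H * ∑ i, w i ^ 2 := by
    intro a b
    rw [norm_mul, norm_mul, mul_assoc]
    have h3 : ‖y a‖ * ‖y b‖ ≤ |w a| * |w b| :=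
      mul_le_mul (hy a) (hy b) (norm_nonneg _) (abs_nonneg _)
    exact mul_le_mul (hq a b) (le_trans h3 (hS a b)) (by positivity) hH
  have h4 : ‖∑ a, ∑ b, q a b * y a * y b‖ ≤
      ∑ _a : Ix d c, ∑ _b : Ix d c, H * ∑ i, w i ^ 2 := by
    refine le_trans (norm_sum_le _ _) (Finset.sum_le_sum (fun a _ => ?_))
    exact le_trans (norm_sum_le _ _) (Finset.sum_le_sum (fun b _ => hterm a b))
  refine le_trans (Complex.re_le_norm _) (le_trans h4 (le_of_eq ?_))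
  rw [Finset.sum_const, Finset.sum_const, Finset.card_univ, nsmul_eq_mul, nsmul_eq_mul]
  ring

theorem re_bound (h : PotOK Φ ε) : ∃ k : ℝ, 0 < k ∧ ∃ C : ℝ, 0 < C ∧ ∃ ε1 : ℝ, 0 < ε1 ∧ ε1 < ε ∧
    ∀ z : Ix d c → ℂ, ‖z‖ ≤ ε1 →
      (Φ z).re ≤ (Φ 0).re - k * ∑ i, (z i).re ^ 2 + C * ∑ i, (z i).im ^ 2 := by
  obtain ⟨k, hk, ε1, hε1, hlt, hh⟩ := hess_unif h
  obtain ⟨H, hH, hHb⟩ := E_Re_hs_bound h ε1 hlt
  refine ⟨k, hk, (Fintype.card (Ix d c) : ℝ) ^ 2 * H / 2 + 1, by positivity, ε1, hε1, hlt, ?_⟩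
  intro z hz
  obtain ⟨x, hx⟩ : ∃ x : Ix d c → ℝ, x = fun i => (z i).re := ⟨_, rfl⟩
  obtain ⟨y, hy⟩ : ∃ y : Ix d c → ℝ, y = fun i => (z i).im := ⟨_, rfl⟩
  have hzi : ∀ i, ‖z i‖ ≤ ε1 := fun i => E_Re_norm_re z ε1 hε1.le hz i
  have hxi : ∀ i, |x i| ≤ ε1 := by
    intro i
    rw [hx]
    exact le_trans (Complex.abs_re_le_norm _) (hzi i)
  -- the segment from the real point
  have hn1 : ∀ t ∈ Set.Icc (0 : ℝ) 1, ‖cpx x + (t : ℂ) • (I • cpx y)‖ ≤ ε1 := by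
    intro t ht
    rw [pi_norm_le_iff_of_nonneg hε1.le]
    intro i
    have h1 : (cpx x + (t : ℂ) • (I • cpx y)) i = (⟨(z i).re, t * (z i).im⟩ : ℂ) := by
      rw [hx, hy]
      apply Complex.ext <;> simp [cpx]
    rw [h1]
    refine le_trans ?_ (hzi i)
    rw [Complex.norm_def, Complex.norm_def]
    apply Real.sqrt_le_sqrt
    rw [Complex.normSq_apply, Complex.normSq_apply]
    have h2 : (t * (z i).im) * (t * (z i).im) ≤ (z i).im * (z i).im := by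
      have h3 : t * t ≤ 1 := by
        have := mul_le_mul ht.2 ht.2 ht.1 zero_le_one
        simpa using this
      have h4 : 0 ≤ (z i).im * (z i).im := mul_self_nonneg _
      have h5 := mul_le_mul_of_nonneg_right h3 h4
      calc (t * (z i).im) * (t * (z i).im) = t * t * ((z i).im * (z i).im) := by ring
        _ ≤ 1 * ((z i).im * (z i).im) := h5
        _ = _ := one_mul _
    simp only
    linarith
  have hseg1 := E_Re_seg h (cpx x) (I • cpx y)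
    (((Fintype.card (Ix d c) : ℝ) ^ 2 * H) * ∑ i, y i ^ 2)
    (fun t ht => le_trans (hn1 t ht) hlt.le)
    (fun t ht => E_Re_quad H hH (fun a b => hs Φ (cpx x + (t : ℂ) • (I • cpx y)) a b)
      (fun a b => hHb _ (hn1 t ht) a b) (I • cpx y) y (fun i => by simp [cpx]))
  have hder : (fderiv ℂ Φ (cpx x) (I • cpx y)).re = 0 := by
    rw [map_smul, smul_eq_mul, Complex.I_mul_re, E_Re_real_deriv h x y ε1 hlt hxi, neg_zero]
  have hzeq : cpx x + I • cpx y = z := by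
    funext i
    rw [hx, hy]
    apply Complex.ext <;> simp [cpx]
  rw [hder, hzeq] at hseg1
  -- the segment from the origin
  have hn2 : ∀ t ∈ Set.Icc (0 : ℝ) 1, ‖(0 : Ix d c → ℂ) + (t : ℂ) • cpx x‖ ≤ ε1 := by
    intro t ht
    rw [pi_norm_le_iff_of_nonneg hε1.le]
    intro i
    have h1 : ((0 : Ix d c → ℂ) + (t : ℂ) • cpx x) i = ((t * x i : ℝ) : ℂ) := by
      simp [cpx]
    rw [h1, Complex.norm_real, Real.norm_eq_abs, abs_mul, abs_of_nonneg ht.1]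
    have := mul_le_mul ht.2 (hxi i) (abs_nonneg _) zero_le_one
    simpa using this
  have hseg2 := E_Re_seg h 0 (cpx x) (-(2 * k) * ∑ i, x i ^ 2)
    (fun t ht => le_trans (hn2 t ht) hlt.le)
    (fun t ht => hh _ (hn2 t ht) x)
  rw [h.crit, zero_add] at hseg2
  simp only [ContinuousLinearMap.zero_apply, Complex.zero_re, add_zero] at hseg2
  have hy0 : 0 ≤ ∑ i, y i ^ 2 := Finset.sum_nonneg (fun _ _ => sq_nonneg _)
  have hxs : ∑ i, (z i).re ^ 2 = ∑ i, x i ^ 2 := by rw [hx]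
  have hys : ∑ i, (z i).im ^ 2 = ∑ i, y i ^ 2 := by rw [hy]
  rw [hxs, hys]
  linarith

theorem re_slice (h : PotOK Φ ε) : ∃ k : ℝ, 0 < k ∧ ∃ ε1 : ℝ, 0 < ε1 ∧ ε1 < ε ∧
    ∀ p z : Ix d c → ℂ, ‖p‖ ≤ ε1 → ‖z‖ ≤ ε1 → (∀ i, (z i).im = (p i).im) →
      (Φ z - Φ p - fderiv ℂ Φ p (z - p)).re ≤ -k * ∑ i, ((z i).re - (p i).re) ^ 2 := by
  obtain ⟨k, hk, ε1, hε1, hlt, hh⟩ := hess_unif h
  refine ⟨k, hk, ε1, hε1, hlt, ?_⟩
  intro p z hp hz him
  obtain ⟨x, hx⟩ : ∃ x : Ix d c → ℝ, x = fun i => (z i).re - (p i).re := ⟨_, rfl⟩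
  have hzp : z - p = cpx x := by
    funext i
    rw [hx]
    apply Complex.ext
    · simp [cpx]
    · simp [cpx, him i]
  have hn : ∀ t ∈ Set.Icc (0 : ℝ) 1, ‖p + (t : ℂ) • cpx x‖ ≤ ε1 := by
    intro t ht
    have hconv : Convex ℝ (Metric.closedBall (0 : Ix d c → ℂ) ε1) := convex_closedBall _ _
    have hpm : p ∈ Metric.closedBall (0 : Ix d c → ℂ) ε1 := by simpa using hp
    have hzm : z ∈ Metric.closedBall (0 : Ix d c → ℂ) ε1 := by simpa using hz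
    have h1 := hconv.add_smul_sub_mem hpm hzm ht
    have h2 : p + t • (z - p) = p + (t : ℂ) • cpx x := by
      rw [hzp]
      rfl
    rw [h2] at h1
    simpa using h1
  have hseg := E_Re_seg h p (cpx x) (-(2 * k) * ∑ i, x i ^ 2)
    (fun t ht => le_trans (hn t ht) hlt.le)
    (fun t ht => hh _ (hn t ht) x)
  have hz' : p + cpx x = z := by rw [← hzp]; abel
  rw [hz'] at hseg
  rw [hzp, Complex.sub_re, Complex.sub_re]
  have hxs : ∑ i, ((z i).re - (p i).re) ^ 2 = ∑ i, x i ^ 2 := by rw [hx]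
  rw [hxs]
  linarith

end Pool.Agent.H63.CLK
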