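import Pool.Agent.H63.CLK.E_Defs

/-! # The second derivative of the potential near the maximum -/

namespace Pool.Agent.H63.CLK

open Complex Filter Topology
open scoped BigOperators

variable {d c : ℕ} {Φ : (Ix d c → ℂ) → ℂ} {ε : ℝ}

/-- The second partial derivatives. -/
noncomputable def hs (Φ : (Ix d c → ℂ) → ℂ) (p : Ix d c → ℂ) (a b : Ix d c) : ℂ :=
  fderiv ℂ (fun z => fderiv ℂ Φ z (Pi.single a 1)) p (Pi.single b 1)

private theorem Tay_an (h : PotOK Φ ε) (p : Ix d c → ℂ) (hp : ‖p‖ < ε) : AnalyticAt ℂ Φ p :=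
  h.an p (by rw [mem_closedBall_zero_iff]; exact hp.le)

private theorem Tay_eq (h : PotOK Φ ε) (p : Ix d c → ℂ) (hp : ‖p‖ < ε) (v w : Ix d c → ℂ) :
    fderiv ℂ (fun z => fderiv ℂ Φ z v) p w = fderiv ℂ (fderiv ℂ Φ) p w v := by
  have h1 : DifferentiableAt ℂ (fderiv ℂ Φ) p := (Tay_an h p hp).fderiv.differentiableAt
  have h2 := h1.hasFDerivAt.clm_apply (hasFDerivAt_const v p)
  rw [h2.fderiv]
  simp

private theorem Tay_hs (h : PotOK Φ ε) (p : Ix d c → ℂ) (hp : ‖p‖ < ε) (a b : Ix d c) :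
    hs Φ p a b = fderiv ℂ (fderiv ℂ Φ) p (Pi.single b 1) (Pi.single a 1) :=
  Tay_eq h p hp _ _

private theorem Tay_ball (p : Ix d c → ℂ) (hp : ‖p‖ < ε) (x : Ix d c → ℂ) :
    ∀ᶠ s : ℂ in 𝓝 0, ‖p + s • x‖ < ε := by
  have h1 : Continuous (fun s : ℂ => ‖p + s • x‖) := by fun_prop
  have h2 : ‖p + (0 : ℂ) • x‖ < ε := by simpa using hp
  exact h1.continuousAt.eventually_lt continuousAt_const h2

private theorem Tay_deriv (h : PotOK Φ ε) (p : Ix d c → ℂ) (x : Ix d c → ℂ) (s : ℂ)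
    (hs : ‖p + s • x‖ < ε) : HasDerivAt (fun s : ℂ => Φ (p + s • x))
      (fderiv ℂ Φ (p + s • x) x) s := by
  have h1 : HasFDerivAt Φ (fderiv ℂ Φ (p + s • x)) (p + s • x) :=
    (Tay_an h _ hs).differentiableAt.hasFDerivAt
  have h2 : HasDerivAt (fun s : ℂ => p + s • x) x s := by
    have h3 := ((hasDerivAt_id s).smul_const x).const_add p
    simpa using h3
  exact h1.comp_hasDerivAt s h2

private theorem Tay_line (h : PotOK Φ ε) (p : Ix d c → ℂ) (hp : ‖p‖ < ε) (x : Ix d c → ℂ) :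
    iteratedDeriv 2 (fun s : ℂ => Φ (p + s • x)) 0 = fderiv ℂ (fderiv ℂ Φ) p x x := by
  rw [iteratedDeriv_succ, iteratedDeriv_one]
  have h1 : deriv (fun s : ℂ => Φ (p + s • x)) =ᶠ[𝓝 0] fun s => fderiv ℂ Φ (p + s • x) x := by
    filter_upwards [Tay_ball p hp x] with s hs
    exact (Tay_deriv h p x s hs).deriv
  rw [h1.deriv_eq]
  have h2 : HasFDerivAt (fun z => fderiv ℂ Φ z x) (fderiv ℂ (fun z => fderiv ℂ Φ z x) p)
      (p + (0 : ℂ) • x) := by
    have h3 : DifferentiableAt ℂ (fun z => fderiv ℂ Φ z x) p := by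
      have h4 : DifferentiableAt ℂ (fderiv ℂ Φ) p := (Tay_an h p hp).fderiv.differentiableAt
      exact h4.clm_apply (differentiableAt_const x)
    rw [zero_smul, add_zero]
    exact h3.hasFDerivAt
  have h5 : HasDerivAt (fun s : ℂ => p + s • x) x 0 := by
    have h3 := ((hasDerivAt_id (0 : ℂ)).smul_const x).const_add p
    simpa using h3
  have h6 := h2.comp_hasDerivAt (0 : ℂ) h5
  have h7 : deriv (fun s : ℂ => fderiv ℂ Φ (p + s • x) x) 0 =
      fderiv ℂ (fun z => fderiv ℂ Φ z x) p x := h6.deriv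
  rw [h7, Tay_eq h p hp]

private theorem Tay_sum (x : Ix d c → ℂ) : x = ∑ a, x a • (Pi.single a 1 : Ix d c → ℂ) := by
  ext i
  simp [Finset.sum_apply, Pi.single_apply]

theorem hs_symm (h : PotOK Φ ε) (p : Ix d c → ℂ) (hp : ‖p‖ < ε) (a b : Ix d c) :
    hs Φ p a b = hs Φ p b a := by
  rw [Tay_hs h p hp, Tay_hs h p hp]
  have h1 : IsSymmSndFDerivAt ℂ Φ p :=
    ((Tay_an h p hp).contDiffAt (n := 2)).isSymmSndFDerivAt (by simp)
  exact h1.eq _ _

theorem deriv2_line (h : PotOK Φ ε) (p : Ix d c → ℂ) (hp : ‖p‖ < ε) (x : Ix d c → ℂ) :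
    iteratedDeriv 2 (fun s : ℂ => Φ (p + s • x)) 0 = ∑ a, ∑ b, hs Φ p a b * x a * x b := by
  rw [Tay_line h p hp]
  set B := fderiv ℂ (fderiv ℂ Φ) p with hB
  have e1 : B x x = ∑ a, x a * B x (Pi.single a 1) := by
    have := congrArg (B x) (Tay_sum x)
    rw [this, map_sum]
    refine Finset.sum_congr rfl fun a _ => ?_
    rw [map_smul, smul_eq_mul]
  have e2 : ∀ a : Ix d c, B x (Pi.single a 1) =
      ∑ b, x b * B (Pi.single b 1) (Pi.single a 1) := by
    intro a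
    have := congrArg (B.flip (Pi.single a 1)) (Tay_sum x)
    rw [map_sum] at this
    rw [ContinuousLinearMap.flip_apply] at this
    rw [this]
    refine Finset.sum_congr rfl fun b _ => ?_
    rw [map_smul, smul_eq_mul, ContinuousLinearMap.flip_apply]
  rw [e1]
  refine Finset.sum_congr rfl fun a _ => ?_
  rw [e2, Finset.mul_sum]
  refine Finset.sum_congr rfl fun b _ => ?_
  rw [Tay_hs h p hp]
  ring

theorem hs_continuous (h : PotOK Φ ε) (a b : Ix d c) :
    ContinuousOn (fun p => hs Φ p a b) (Metric.ball 0 ε) := by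
  have h1 : ContinuousOn (fun p => fderiv ℂ (fderiv ℂ Φ) p (Pi.single b 1) (Pi.single a 1))
      (Metric.ball 0 ε) := by
    have h2 : ContinuousOn (fderiv ℂ (fderiv ℂ Φ)) (Metric.ball 0 ε) := by
      intro p hp
      rw [mem_ball_zero_iff] at hp
      exact ((Tay_an h p hp).fderiv.fderiv.continuousAt).continuousWithinAt
    exact (h2.clm_apply continuousOn_const).clm_apply continuousOn_const
  refine h1.congr fun p hp => ?_
  rw [mem_ball_zero_iff] at hp
  exact Tay_hs h p hp a b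

private theorem Tay_quad (H : Ix d c → Ix d c → ℂ)
    (hneg : ∀ x : Ix d c → ℝ, x ≠ 0 → (∑ a, ∑ b, H a b * x a * x b).re < 0) :
    ∃ k : ℝ, 0 < k ∧ ∀ x : Ix d c → ℝ,
      (∑ a, ∑ b, H a b * x a * x b).re ≤ -k * ∑ i, x i ^ 2 := by
  let q : (Ix d c → ℝ) → ℝ := fun x => (∑ a, ∑ b, H a b * x a * x b).re
  have hq : Continuous q := by
    have : Continuous (fun x : Ix d c → ℝ => ∑ a, ∑ b, H a b * (x a : ℂ) * (x b : ℂ)) := by
      refine continuous_finsetSum _ fun a _ => continuous_finsetSum _ fun b _ => ?_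
      exact (continuous_const.mul (Complex.continuous_ofReal.comp (continuous_apply a))).mul
        (Complex.continuous_ofReal.comp (continuous_apply b))
    exact Complex.continuous_re.comp this
  have hscale : ∀ (t : ℝ) (x : Ix d c → ℝ), q (t • x) = t ^ 2 * q x := by
    intro t x
    have h1 : (∑ a, ∑ b, H a b * ((t • x) a : ℝ) * ((t • x) b : ℝ)) =
        ((t ^ 2 : ℝ) : ℂ) * ∑ a, ∑ b, H a b * x a * x b := by
      rw [Finset.mul_sum]
      refine Finset.sum_congr rfl fun a _ => ?_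
      rw [Finset.mul_sum]
      refine Finset.sum_congr rfl fun b _ => ?_
      rw [Pi.smul_apply, Pi.smul_apply, smul_eq_mul, smul_eq_mul]
      push_cast
      ring
    show (∑ a, ∑ b, H a b * ((t • x) a : ℝ) * ((t • x) b : ℝ)).re = _
    rw [h1, Complex.re_ofReal_mul]
  let K : Set (Ix d c → ℝ) := {x | ∑ i, x i ^ 2 = 1}
  have hKc : IsClosed K := isClosed_eq (by fun_prop) continuous_const
  have hKb : K ⊆ Metric.closedBall 0 1 := by
    intro x hx
    rw [mem_closedBall_zero_iff, pi_norm_le_iff_of_nonneg zero_le_one]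
    intro i
    have h1 : x i ^ 2 ≤ ∑ i, x i ^ 2 :=
      Finset.single_le_sum (f := fun i => x i ^ 2) (fun j _ => sq_nonneg _) (Finset.mem_univ i)
    have hx' : ∑ i, x i ^ 2 = 1 := hx
    rw [Real.norm_eq_abs]
    exact (sq_le_one_iff_abs_le_one (x i)).1 (by linarith)
  have hK : IsCompact K := (isCompact_closedBall 0 1).of_isClosed_subset hKc hKb
  obtain ⟨k, hk, hkK⟩ : ∃ k : ℝ, 0 < k ∧ ∀ x ∈ K, q x ≤ -k := by
    rcases K.eq_empty_or_nonempty with h0 | h0
    · exact ⟨1, one_pos, fun x hx => by rw [h0] at hx; exact absurd hx (Set.notMem_empty x)⟩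
    · obtain ⟨x0, hx0, hmax⟩ := hK.exists_isMaxOn h0 hq.continuousOn
      have h1 : x0 ≠ 0 := by
        rintro rfl
        have h2 : ∑ i : Ix d c, ((0 : Ix d c → ℝ) i) ^ 2 = 1 := hx0
        simp at h2
      refine ⟨-q x0, by linarith [hneg x0 h1], fun x hx => ?_⟩
      rw [neg_neg]
      exact hmax hx
  refine ⟨k, hk, fun x => ?_⟩
  show q x ≤ _
  set S := ∑ i, x i ^ 2 with hS
  have hS0 : 0 ≤ S := Finset.sum_nonneg fun i _ => sq_nonneg _
  rcases hS0.lt_or_eq with h1 | h1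
  · have hr : 0 < Real.sqrt S := Real.sqrt_pos.2 h1
    have hr2 : Real.sqrt S ^ 2 = S := Real.sq_sqrt hS0
    have h2 : ((Real.sqrt S)⁻¹ • x) ∈ K := by
      show ∑ i, (((Real.sqrt S)⁻¹ • x) i) ^ 2 = 1
      have h3 : ∀ i, (((Real.sqrt S)⁻¹ • x) i) ^ 2 = S⁻¹ * x i ^ 2 := by
        intro i
        rw [Pi.smul_apply, smul_eq_mul, mul_pow, inv_pow, hr2]
      simp_rw [h3]
      rw [← Finset.mul_sum, ← hS, inv_mul_cancel₀ h1.ne']
    have h3 := hkK _ h2
    rw [hscale, inv_pow, hr2, inv_mul_le_iff₀ h1] at h3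
    linarith
  · have h2 : x = 0 := by
      ext i
      have h3 : x i ^ 2 ≤ S :=
        Finset.single_le_sum (f := fun i => x i ^ 2) (fun j _ => sq_nonneg _) (Finset.mem_univ i)
      have h4 : x i ^ 2 = 0 := le_antisymm (by rw [h1]; exact h3) (sq_nonneg _)
      exact pow_eq_zero_iff (two_ne_zero) |>.1 h4
    rw [← h1, mul_zero, h2]
    have h5 := hscale 0 (0 : Ix d c → ℝ)
    rw [smul_zero] at h5
    rw [h5]
    simp

private theorem Tay_err (H : Ix d c → Ix d c → ℂ) (δ : ℝ) (hδ : 0 ≤ δ)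
    (hH : ∀ a b, ‖H a b‖ ≤ δ) (x : Ix d c → ℝ) :
    (∑ a, ∑ b, H a b * x a * x b).re ≤ δ * (Fintype.card (Ix d c) * ∑ i, x i ^ 2) := by
  have h1 : (∑ a, ∑ b, H a b * x a * x b).re ≤ ‖∑ a, ∑ b, H a b * x a * x b‖ :=
    Complex.re_le_norm _
  refine h1.trans ?_
  have h2 : ‖∑ a, ∑ b, H a b * (x a : ℂ) * (x b : ℂ)‖ ≤ ∑ a, ∑ b, δ * |x a| * |x b| := by
    refine (norm_sum_le _ _).trans (Finset.sum_le_sum fun a _ => ?_)
    refine (norm_sum_le _ _).trans (Finset.sum_le_sum fun b _ => ?_)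
    rw [norm_mul, norm_mul, Complex.norm_real, Complex.norm_real, Real.norm_eq_abs,
      Real.norm_eq_abs]
    exact mul_le_mul_of_nonneg_right (mul_le_mul_of_nonneg_right (hH a b) (abs_nonneg _))
      (abs_nonneg _)
  refine h2.trans ?_
  have h3 : ∑ a, ∑ b, δ * |x a| * |x b| = δ * (∑ a, |x a|) ^ 2 := by
    rw [sq, Finset.sum_mul_sum, Finset.mul_sum]
    refine Finset.sum_congr rfl fun a _ => ?_
    rw [Finset.mul_sum]
    refine Finset.sum_congr rfl fun b _ => ?_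
    ring
  rw [h3]
  apply mul_le_mul_of_nonneg_left _ hδ
  have h4 := sq_sum_le_card_mul_sum_sq (s := (Finset.univ : Finset (Ix d c))) (f := fun i => |x i|)
  simp only [sq_abs, Finset.card_univ] at h4
  exact h4

/-- The real part of the Hessian is negative definite near `0`. -/
theorem hess_unif (h : PotOK Φ ε) : ∃ k : ℝ, 0 < k ∧ ∃ ε1 : ℝ, 0 < ε1 ∧ ε1 < ε ∧
    ∀ p : Ix d c → ℂ, ‖p‖ ≤ ε1 → ∀ x : Ix d c → ℝ,
      (∑ a, ∑ b, hs Φ p a b * x a * x b).re ≤ -(2 * k) * ∑ i, x i ^ 2 := by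
  have hpos := h.pos
  have h0 : ‖(0 : Ix d c → ℂ)‖ < ε := by rw [norm_zero]; exact hpos
  obtain ⟨k, hk, hq⟩ := Tay_quad (fun a b => hs Φ 0 a b) (by
    intro x hx
    have h1 := deriv2_line h 0 h0 (cpx x)
    have h2 := h.hess x hx
    simp only [zero_add] at h1
    rw [h1] at h2
    exact h2)
  -- the Hessian varies little
  set n : ℝ := ((Fintype.card (Ix d c) : ℕ) : ℝ) with hn
  have hn0 : 0 ≤ n := Nat.cast_nonneg _
  have hδ : 0 < k / 2 / (n + 1) := by positivity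
  have hev : ∀ᶠ p : Ix d c → ℂ in 𝓝 0, ∀ a b, ‖hs Φ p a b - hs Φ 0 a b‖ ≤ k / 2 / (n + 1) := by
    rw [Filter.eventually_all]
    intro a
    rw [Filter.eventually_all]
    intro b
    have h1 : ContinuousAt (fun p => hs Φ p a b) 0 :=
      (hs_continuous h a b).continuousAt (Metric.ball_mem_nhds 0 hpos)
    have h2 := (h1.sub (continuousAt_const (y := hs Φ 0 a b))).norm
    have h3 : ‖hs Φ 0 a b - hs Φ 0 a b‖ < k / 2 / (n + 1) := by
      rw [sub_self, norm_zero]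
      exact hδ
    have h4 := h2.eventually_lt continuousAt_const h3
    exact h4.mono fun p hp => hp.le
  obtain ⟨ρ, hρ, hball⟩ := Metric.eventually_nhds_iff_ball.1 hev
  refine ⟨k / 4, by positivity, min (ρ / 2) (ε / 2), by positivity,
    lt_of_le_of_lt (min_le_right _ _) (by linarith), ?_⟩
  intro p hp x
  have hpρ : p ∈ Metric.ball (0 : Ix d c → ℂ) ρ := by
    rw [mem_ball_zero_iff]
    exact lt_of_le_of_lt (hp.trans (min_le_left _ _)) (by linarith)
  have h1 := Tay_err (fun a b => hs Φ p a b - hs Φ 0 a b) _ hδ.le (hball p hpρ) x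
  have h2 := hq x
  have h3 : ∑ a, ∑ b, hs Φ p a b * x a * x b = (∑ a, ∑ b, hs Φ 0 a b * x a * x b) +
      ∑ a, ∑ b, (hs Φ p a b - hs Φ 0 a b) * x a * x b := by
    rw [← Finset.sum_add_distrib]
    refine Finset.sum_congr rfl fun a _ => ?_
    rw [← Finset.sum_add_distrib]
    refine Finset.sum_congr rfl fun b _ => ?_
    ring
  rw [h3, Complex.add_re]
  set S := ∑ i, x i ^ 2 with hS
  have hS0 : 0 ≤ S := Finset.sum_nonneg fun i _ => sq_nonneg _
  have h4 : k / 2 / (n + 1) * (n * S) ≤ k / 2 * S := by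
    rw [div_mul_eq_mul_div, div_le_iff₀ (by positivity)]
    have h5 : 0 ≤ k / 2 * S := by positivity
    nlinarith
  have h6 : -(2 * (k / 4)) * S = -k * S + k / 2 * S := by ring
  rw [h6]
  exact add_le_add h2 (h1.trans h4)

private theorem Tay_one (g : ℂ → ℂ) (h : AnalyticAt ℂ g 0) :
    Tendsto (fun s : ℂ => (g s - g 0 - s * deriv g 0) / s ^ 2) (𝓝[≠] 0)
      (𝓝 (iteratedDeriv 2 g 0 / 2)) := by
  have hg2 : iteratedDeriv 2 g 0 = deriv (deriv g) 0 := by
    rw [iteratedDeriv_succ, iteratedDeriv_one]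
  rw [hg2]
  set D := deriv (deriv g) 0 with hD
  have hd : HasDerivAt (deriv g) D 0 := h.deriv.differentiableAt.hasDerivAt
  rw [Metric.tendsto_nhds]
  intro η hη
  have h1 := (hasDerivAt_iff_isLittleO.1 hd).bound (half_pos hη)
  have h2 : ∀ᶠ s in 𝓝 (0 : ℂ), DifferentiableAt ℂ g s :=
    h.eventually_analyticAt.mono fun s hs => hs.differentiableAt
  obtain ⟨ρ, hρ, hball⟩ := Metric.eventually_nhds_iff_ball.1 (h1.and h2)
  have h3 : ∀ᶠ s in 𝓝[≠] (0 : ℂ), s ∈ Metric.ball (0 : ℂ) ρ ∧ s ≠ 0 := by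
    refine Filter.Eventually.and ?_ ?_
    · exact eventually_nhdsWithin_of_eventually_nhds (Metric.ball_mem_nhds 0 hρ)
    · exact eventually_mem_nhdsWithin.mono fun s hs => hs
  filter_upwards [h3] with s hs
  obtain ⟨hs1, hs0⟩ := hs
  have hsn : 0 < ‖s‖ := norm_pos_iff.2 hs0
  rw [mem_ball_zero_iff] at hs1
  let r : ℂ → ℂ := fun t => g t - g 0 - t * deriv g 0 - t ^ 2 / 2 * D
  have hr : ∀ t ∈ Metric.closedBall (0 : ℂ) ‖s‖, HasDerivWithinAt r
      (deriv g t - deriv g 0 - t * D) (Metric.closedBall (0 : ℂ) ‖s‖) t := by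
    intro t ht
    rw [mem_closedBall_zero_iff] at ht
    have h4 := (hball t (by rw [mem_ball_zero_iff]; linarith)).2
    have h5 : HasDerivAt r (deriv g t - deriv g 0 - t * D) t := by
      have e1 := h4.hasDerivAt.sub_const (g 0)
      have e2 := (hasDerivAt_id t).mul_const (deriv g 0)
      have e3 := ((hasDerivAt_pow 2 t).div_const 2).mul_const D
      have e4 := (e1.sub e2).sub e3
      refine e4.congr_deriv ?_
      simp
    exact h5.hasDerivWithinAt
  have hb : ∀ t ∈ Metric.closedBall (0 : ℂ) ‖s‖, ‖deriv g t - deriv g 0 - t * D‖ ≤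
      η / 2 * ‖s‖ := by
    intro t ht
    rw [mem_closedBall_zero_iff] at ht
    have h4 := (hball t (by rw [mem_ball_zero_iff]; linarith)).1
    simp only [sub_zero, smul_eq_mul] at h4
    exact h4.trans (mul_le_mul_of_nonneg_left ht (by positivity))
  have h6 := Convex.norm_image_sub_le_of_norm_hasDerivWithin_le hr hb
    (convex_closedBall 0 ‖s‖) (x := 0) (y := s) (by simp) (by simp)
  have h7 : r 0 = 0 := by simp [r]
  rw [h7, sub_zero, sub_zero] at h6
  have h8 : (g s - g 0 - s * deriv g 0) / s ^ 2 - D / 2 = r s / s ^ 2 := by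
    show _ = (g s - g 0 - s * deriv g 0 - s ^ 2 / 2 * D) / s ^ 2
    field_simp
  rw [dist_eq_norm, h8, norm_div, norm_pow, div_lt_iff₀ (by positivity)]
  have h9 : η / 2 * ‖s‖ * ‖s‖ < η * ‖s‖ ^ 2 := by nlinarith [pow_pos hsn 2]
  exact lt_of_le_of_lt h6 h9

/-- The Taylor formula of order two, with an estimate of the rest. -/
theorem taylor_two (h : PotOK Φ ε) (p : Ix d c → ℂ) (hp : ‖p‖ < ε) (ξ : Ix d c → ℝ) :
    Tendsto (fun M : ℕ => (M : ℂ) * (Φ (p + cpx ((1 / Real.sqrt M) • ξ)) - Φ p -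
      fderiv ℂ Φ p (cpx ((1 / Real.sqrt M) • ξ)))) atTop
      (𝓝 (1 / 2 * ∑ a, ∑ b, hs Φ p a b * ξ a * ξ b)) := by
  have h1 := deriv2_line h p hp (cpx ξ)
  have hp0 : ‖p + (0 : ℂ) • cpx ξ‖ < ε := by rw [zero_smul, add_zero]; exact hp
  have hg : AnalyticAt ℂ (fun s : ℂ => Φ (p + s • cpx ξ)) 0 := by
    have h2 : AnalyticAt ℂ Φ p := Tay_an h _ hp
    have h3 : AnalyticAt ℂ (fun s : ℂ => p + s • cpx ξ) 0 := by
      have h4 : AnalyticAt ℂ (fun s : ℂ => s • cpx ξ) 0 := analyticAt_id.smul analyticAt_const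
      exact analyticAt_const.add h4
    exact AnalyticAt.comp_of_eq h2 h3 (by rw [zero_smul, add_zero])
  have h2 := Tay_one _ hg
  have hd0 : deriv (fun s : ℂ => Φ (p + s • cpx ξ)) 0 = fderiv ℂ Φ p (cpx ξ) := by
    have h3 := (Tay_deriv h p (cpx ξ) 0 hp0).deriv
    rw [h3, zero_smul, add_zero]
  rw [h1, hd0, zero_smul, add_zero] at h2
  have h4 : Tendsto (fun M : ℕ => (((1 / Real.sqrt M : ℝ)) : ℂ)) atTop (𝓝[≠] 0) := by
    rw [tendsto_nhdsWithin_iff]
    constructor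
    · have h5 : Tendsto (fun M : ℕ => (1 / Real.sqrt M : ℝ)) atTop (𝓝 0) := by
        have h6 : Tendsto (fun M : ℕ => Real.sqrt M) atTop atTop :=
          Real.tendsto_sqrt_atTop.comp tendsto_natCast_atTop_atTop
        simp only [one_div]
        exact tendsto_inv_atTop_zero.comp h6
      have h7 := (Complex.continuous_ofReal.tendsto 0).comp h5
      rw [Complex.ofReal_zero] at h7
      exact h7
    · filter_upwards [eventually_ge_atTop 1] with M hM
      have hM0 : (0 : ℝ) < M := by exact_mod_cast hM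
      rw [Set.mem_compl_iff, Set.mem_singleton_iff, Complex.ofReal_eq_zero]
      positivity
  have h5 := h2.comp h4
  have h6 : (∑ a, ∑ b, hs Φ p a b * cpx ξ a * cpx ξ b) / 2 =
      1 / 2 * ∑ a, ∑ b, hs Φ p a b * ξ a * ξ b := by
    unfold cpx
    ring
  rw [h6] at h5
  refine h5.congr' ?_
  filter_upwards [eventually_ge_atTop 1] with M hM
  have hM0 : (0 : ℝ) < M := by exact_mod_cast hM
  have hMc : (M : ℂ) ≠ 0 := by exact_mod_cast (by omega : M ≠ 0)
  have h7 : cpx ((1 / Real.sqrt M) • ξ) = ((1 / Real.sqrt M : ℝ) : ℂ) • cpx ξ := by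
    ext i
    unfold cpx
    rw [Pi.smul_apply, Pi.smul_apply, smul_eq_mul, smul_eq_mul]
    push_cast
    ring
  have h8 : (((1 / Real.sqrt M : ℝ)) : ℂ) ^ 2 = 1 / (M : ℂ) := by
    rw [← Complex.ofReal_pow, div_pow, one_pow, Real.sq_sqrt hM0.le]
    push_cast
    rfl
  rw [h7, map_smul, smul_eq_mul]
  show (_ / (((1 / Real.sqrt M : ℝ)) : ℂ) ^ 2) = _
  rw [h8, div_div_eq_mul_div, div_one, mul_comm]

end Pool.Agent.H63.CLK
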