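import Pool.Agent.H63.CLK.C_Lat
import Pool.Agent.H63.CLK.C_Naive

/-!
# The far part is small if the maximum is strict on the whole polytope

A far state has `t v < N / 2` for some `v`, hence `Xp x N t s (inl v) = (t v + x (inl v)) / (N + 1) ≤ 1 / 2`
(since `x (inl v) < 1`). The set of all `y` of the polytope with `y (inl v) ≤ 1 / 2` for some `v` is
compact and does not contain `x`, so `Uf ≤ Uf x - c0` there. The number of all pairs `(t, s)` is at most
`(N + 1) ^ (5 c)`; `term_bound`.
-/

set_option autoImplicit false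

namespace Pool.Agent.H63.CLK

open Pool.Agent.H63.VC hiding ext
open Pool.Agent.H63.VC3 Pool.Agent.H63.VC4 Pool.Agent.H63.VC7 Complex Filter Topology
open scoped BigOperators

variable {c : ℕ} {F : Finset ℕ} {cor : Fin c → Fin 4 → ℕ} {x : Vr c → ℝ}

/-- The growth rate is strictly smaller on the far part of the polytope. -/
theorem F_FarA_gap (h : IsMaxA F cor x) : ∃ c0 : ℝ, 0 < c0 ∧ ∀ y : Vr c → ℝ, IsAng F cor y →
    (∃ v, y (Sum.inl v) ≤ 1 / 2) → Uf y ≤ Uf x - c0 := by
  have hcl : IsClosed {y : Vr c → ℝ | ∃ v, y (Sum.inl v) ≤ 1 / 2} := by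
    simp only [Set.ofPred_exists]
    exact isClosed_iUnion_of_finite fun v => isClosed_le (continuous_apply _) continuous_const
  have hK : IsCompact ({y : Vr c → ℝ | IsAng F cor y} ∩
      {y : Vr c → ℝ | ∃ v, y (Sum.inl v) ≤ 1 / 2}) := ang_compact.inter_right hcl
  rcases Set.eq_empty_or_nonempty ({y : Vr c → ℝ | IsAng F cor y} ∩
      {y : Vr c → ℝ | ∃ v, y (Sum.inl v) ≤ 1 / 2}) with hemp | hne
  · refine ⟨1, one_pos, fun y hy hv => ?_⟩
    have : y ∈ ({y : Vr c → ℝ | IsAng F cor y} ∩
      {y : Vr c → ℝ | ∃ v, y (Sum.inl v) ≤ 1 / 2}) := ⟨hy, hv⟩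
    rw [hemp] at this
    exact absurd this (Set.notMem_empty y)
  · obtain ⟨y0, hy0, hmax⟩ := hK.exists_isMaxOn hne Uf_continuous.continuousOn
    have hy0' : IsAng F cor y0 := hy0.1
    have hne0 : y0 ≠ x := by
      rintro rfl
      obtain ⟨v, hv⟩ := hy0.2
      have := h.int.half v
      linarith
    have h1 := h.max y0 hy0' hne0
    rw [volF_eq, volF_eq] at h1
    have h2 : Uf y0 < Uf x := lt_of_mul_lt_mul_left h1 (by positivity)
    refine ⟨Uf x - Uf y0, sub_pos.2 h2, fun y hy hv => ?_⟩
    have h3 : Uf y ≤ Uf y0 := hmax (show y ∈ _ from ⟨hy, hv⟩)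
    linarith

private theorem F_FarA_csz_le (N t : ℕ) (k : Fin 4) (ht : t ≤ N) : csz N t k ≤ N := by
  fin_cases k <;> simp [csz, ht]

/-- The norm of a sum over the states. -/
theorem F_FarA_norm (N : ℕ) (f : (Fin c → ℕ) → (Fin c → Fin 4 → ℕ) → ℂ) (B : ℝ) (hB : 0 ≤ B)
    (hf : ∀ t s, (∀ v, t v ≤ N) → (∀ v k, s v k ≤ csz N (t v) k) → IsState F cor N s →
      ‖f t s‖ ≤ B) : ‖stSum F cor N f‖ ≤ ((N + 1 : ℕ) : ℝ) ^ (5 * c) * B := by
  classical
  unfold stSum
  have h1 : ∀ t ∈ Fintype.piFinset (fun _ : Fin c => Finset.range (N + 1)),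
      ‖∑ s ∈ Fintype.piFinset (fun v : Fin c => Fintype.piFinset
        (fun k : Fin 4 => Finset.range (csz N (t v) k + 1))),
        (if IsState F cor N s then f t s else 0)‖ ≤ ((N + 1 : ℕ) : ℝ) ^ (4 * c) * B := by
    intro t ht
    rw [Fintype.mem_piFinset] at ht
    have ht' : ∀ v, t v ≤ N := fun v => by
      have := Finset.mem_range.1 (ht v)
      omega
    have h2 : ∀ s ∈ Fintype.piFinset (fun v : Fin c => Fintype.piFinset
        (fun k : Fin 4 => Finset.range (csz N (t v) k + 1))),
        ‖(if IsState F cor N s then f t s else 0)‖ ≤ B := by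
      intro s hs
      by_cases hst : IsState F cor N s
      · rw [if_pos hst]
        refine hf t s ht' (fun v k => ?_) hst
        rw [Fintype.mem_piFinset] at hs
        have h3 := hs v
        rw [Fintype.mem_piFinset] at h3
        have := Finset.mem_range.1 (h3 k)
        omega
      · rw [if_neg hst, norm_zero]
        exact hB
    refine (norm_sum_le_of_le _ h2).trans ?_
    rw [Finset.sum_const, nsmul_eq_mul]
    refine mul_le_mul_of_nonneg_right ?_ hB
    have h4 : (Fintype.piFinset (fun v : Fin c => Fintype.piFinset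
        (fun k : Fin 4 => Finset.range (csz N (t v) k + 1)))).card ≤ (N + 1) ^ (4 * c) := by
      rw [Fintype.card_piFinset, mul_comm 4 c]
      have h5 : ∀ v ∈ (Finset.univ : Finset (Fin c)), (Fintype.piFinset
          (fun k : Fin 4 => Finset.range (csz N (t v) k + 1))).card ≤ (N + 1) ^ 4 := by
        intro v _
        rw [Fintype.card_piFinset]
        have h3 : ∀ k ∈ (Finset.univ : Finset (Fin 4)),
            (Finset.range (csz N (t v) k + 1)).card ≤ N + 1 := by
          intro k _
          rw [Finset.card_range]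
          have := F_FarA_csz_le N (t v) k (ht' v)
          omega
        refine (Finset.prod_le_prod' h3).trans (le_of_eq ?_)
        rw [Finset.prod_const, Finset.card_univ, Fintype.card_fin]
      refine (Finset.prod_le_prod' h5).trans (le_of_eq ?_)
      rw [Finset.prod_const, Finset.card_univ, Fintype.card_fin, ← pow_mul, mul_comm 4 c]
    exact_mod_cast h4
  refine (norm_sum_le_of_le _ h1).trans ?_
  rw [Finset.sum_const, Fintype.card_piFinset, Finset.prod_const, Finset.card_range,
    Finset.card_univ, Fintype.card_fin, nsmul_eq_mul, ← mul_assoc]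
  refine mul_le_mul_of_nonneg_right (le_of_eq ?_) hB
  push_cast
  rw [← pow_add]
  congr 1
  ring

theorem farOK_of_maxA (h : IsMaxA F cor x) : FarOK F cor x := by
  obtain ⟨c0, hc0, hgap⟩ := F_FarA_gap h
  refine ⟨c0, hc0, fun a => ?_⟩
  obtain ⟨C, hC, D, hterm⟩ := term_bound h.int a
  refine ⟨C, hC, 5 * c + D, 0, fun N _ => ?_⟩
  have hM : (0 : ℝ) < ((N + 1 : ℕ) : ℝ) := by positivity
  have hB : 0 ≤ C * ((N + 1 : ℕ) : ℝ) ^ D * Real.exp (((N + 1 : ℕ) : ℝ) * (Uf x - c0)) := by
    positivity
  refine (F_FarA_norm N _ _ hB ?_).trans (le_of_eq ?_)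
  · intro t s ht hs hst
    by_cases hn : ∀ v, N ≤ 2 * t v
    · simp only [if_pos hn, norm_zero]
      exact hB
    · simp only [if_neg hn]
      refine (hterm N t s ht hs).trans ?_
      refine mul_le_mul_of_nonneg_left (Real.exp_le_exp.2 ?_) (by positivity)
      refine mul_le_mul_of_nonneg_left ?_ hM.le
      refine hgap _ (Xp_ang h.int N t s ht hst hs) ?_
      push Not at hn
      obtain ⟨v, hv⟩ := hn
      refine ⟨v, ?_⟩
      simp only [Xp, Sum.elim_inl]
      rw [div_le_iff₀ hM]
      have h1 := h.int.lt1 v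
      have h2 : 2 * (t v : ℝ) + 1 ≤ (N : ℝ) := by exact_mod_cast hv
      push_cast
      linarith
  · rw [pow_add]
    ring

end Pool.Agent.H63.CLK
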