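import Pool.Agent.H63.CLK.H_Def

set_option autoImplicit false

/-!
# CLK part H, H_Int: interior points of the polytope

(1) `ext_ang`: for numbers `σ v k ≥ 0` with sums `1` at all vertices and bounded faces, `0` outside,
put `τ v = (max (σ v 1) (σ v 3) + 1 - max (σ v 0) (σ v 2)) / 2`. Since `σ a + σ b ≤ 1`, `σ v k ≤ size`.
(2) `exists_intS`: let `σ` be the average of the states of `IsPrimeT.state` over all corners `(v, k)`
with `cor v k ∈ F` (there is one: `ends` gives a vertex, `opp`). Then `σ v k > 0` for all `cor v k ∈ F`.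
If `v` is not an end, then at most one corner of `v` is not in `F` (two adjacent ones: end; two opposite
ones: `opp`), so for `a ∈ {1, 3}`, `b ∈ {0, 2}` one of the other two corners has `σ > 0`, and
`σ a + σ b < 1`: all inequalities are strict. If `v` is an end, then by `opp` exactly two adjacent
corners are in `F`, both have `0 < σ`, their sum is `1`, `τ` is one of them, so `0 < τ < 1`.
(3) `exists_end`: if `v` is an end and `cor v k ∈ F` then the state with `s v k = 1`, extended by (1),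
has `τ v ∈ {0, 1}`: `τ v = 1` if `k` is `1` or `3` and `τ v = 0` if `k` is `0` or `2`.
-/

namespace Pool.Agent.H63.CLK

variable {c : ℕ} {F : Finset ℕ} {cor : Fin c → Fin 4 → ℕ}

theorem ext_ang {σ : Fin c → Fin 4 → ℝ} (h0 : ∀ v k, 0 ≤ σ v k) (hv : ∀ v, ∑ k, σ v k = 1)
    (hf : ∀ f ∈ F, ∑ v, ∑ k, (if cor v k = f then σ v k else 0) = 1)
    (ho : ∀ v k, cor v k ∉ F → σ v k = 0) :
    IsAng F cor (Sum.elim (fun v => (max (σ v 1) (σ v 3) + 1 - max (σ v 0) (σ v 2)) / 2)
      (fun p => σ p.1 p.2)) := by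
  refine ⟨fun v => ?_, fun f hfF => ?_, fun v k hk => ?_, fun v k => ?_, fun v k => ?_⟩
  · simpa using hv v
  · simpa using hf f hfF
  · simpa using ho v k hk
  · simpa using h0 v k
  · have hs := hv v
    rw [Fin.sum_univ_four] at hs
    have a0 := h0 v 0
    have a1 := h0 v 1
    have a2 := h0 v 2
    have a3 := h0 v 3
    simp only [Sum.elim_inl, Sum.elim_inr]
    rcases max_cases (σ v 1) (σ v 3) with ⟨e1, _⟩ | ⟨e1, _⟩ <;>
      rcases max_cases (σ v 0) (σ v 2) with ⟨e2, _⟩ | ⟨e2, _⟩ <;>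
      rw [e1, e2] <;> fin_cases k <;> simp [cz] <;> linarith

/-- Strict inequalities at a vertex, from positivity of the sums of adjacent corners. -/
private theorem H_Int_lt {σ : Fin 4 → ℝ} (h0 : ∀ k, 0 ≤ σ k) (hv : ∑ k, σ k = 1)
    (ha : ∀ k : Fin 4, 0 < σ k ∨ 0 < σ (k + 1)) (k : Fin 4) :
    σ k < cz 1 ((max (σ 1) (σ 3) + 1 - max (σ 0) (σ 2)) / 2) k := by
  rw [Fin.sum_univ_four] at hv
  have a0 := h0 0
  have a1 := h0 1
  have a2 := h0 2
  have a3 := h0 3
  have b0 : 0 < σ 0 + σ 1 := by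
    rcases ha 0 with h | h
    · linarith
    · have : σ ((0 : Fin 4) + 1) = σ 1 := rfl
      linarith
  have b1 : 0 < σ 1 + σ 2 := by
    rcases ha 1 with h | h
    · linarith
    · have : σ ((1 : Fin 4) + 1) = σ 2 := rfl
      linarith
  have b2 : 0 < σ 2 + σ 3 := by
    rcases ha 2 with h | h
    · linarith
    · have : σ ((2 : Fin 4) + 1) = σ 3 := rfl
      linarith
  have b3 : 0 < σ 3 + σ 0 := by
    rcases ha 3 with h | h
    · linarith
    · have : σ ((3 : Fin 4) + 1) = σ 0 := rfl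
      linarith
  rcases max_cases (σ 1) (σ 3) with ⟨e1, _⟩ | ⟨e1, _⟩ <;>
    rcases max_cases (σ 0) (σ 2) with ⟨e2, _⟩ | ⟨e2, _⟩ <;>
    rw [e1, e2] <;> fin_cases k <;> simp [cz] <;> linarith

theorem exists_intS (h : IsPrimeT F cor) : ∃ z : Vr c → ℝ, IntS F cor z := by
  classical
  obtain ⟨v₁, v₂, _⟩ := h.ends
  choose! s hs using h.state
  set P : Finset (Fin c × Fin 4) := Finset.univ.filter (fun p => cor p.1 p.2 ∈ F) with hP
  have hPne : P.Nonempty := by
    rcases h.opp v₁ 0 with hh | hh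
    · exact ⟨(v₁, 0), by simp [hP, hh]⟩
    · exact ⟨(v₁, 0 + 2), by simpa [hP] using hh⟩
  have hn : (0 : ℝ) < (P.card : ℝ) := by exact_mod_cast hPne.card_pos
  have hst : ∀ p ∈ P, IsState F cor 1 (s p.1 p.2) ∧ s p.1 p.2 p.1 p.2 ≠ 0 := by
    intro p hp
    exact hs p.1 p.2 (by simpa [hP] using hp)
  set σ : Fin c → Fin 4 → ℝ := fun v k => (∑ p ∈ P, (s p.1 p.2 v k : ℝ)) / P.card with hσ
  have h0 : ∀ v k, 0 ≤ σ v k := fun v k =>
    div_nonneg (Finset.sum_nonneg (fun p _ => Nat.cast_nonneg _)) hn.le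
  have hv : ∀ v, ∑ k, σ v k = 1 := by
    intro v
    have e : ∑ k, σ v k = (∑ p ∈ P, ∑ k, (s p.1 p.2 v k : ℝ)) / P.card := by
      simp only [hσ]
      rw [← Finset.sum_div, Finset.sum_comm]
    have e2 : ∑ p ∈ P, ∑ k, (s p.1 p.2 v k : ℝ) = P.card := by
      rw [Finset.sum_congr rfl (fun p hp => ?_), Finset.sum_const, nsmul_eq_mul, mul_one]
      have := (hst p hp).1.1 v
      exact_mod_cast this
    rw [e, e2, div_self hn.ne']
  have hf : ∀ f ∈ F, ∑ v, ∑ k, (if cor v k = f then σ v k else 0) = 1 := by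
    intro f hfF
    have e : ∑ v, ∑ k, (if cor v k = f then σ v k else 0) =
        (∑ p ∈ P, ∑ v, ∑ k, (if cor v k = f then (s p.1 p.2 v k : ℝ) else 0)) / P.card := by
      have e0 : ∀ v k, (if cor v k = f then σ v k else 0) =
          ∑ p ∈ P, (if cor v k = f then (s p.1 p.2 v k : ℝ) else 0) / P.card := by
        intro v k
        by_cases hc : cor v k = f
        · simp only [hc, if_true, hσ]
          rw [Finset.sum_div]
        · simp [hc]
      simp only [e0]
      rw [Finset.sum_congr rfl (fun v _ => Finset.sum_comm), Finset.sum_comm, Finset.sum_div]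
      refine Finset.sum_congr rfl (fun p _ => ?_)
      rw [Finset.sum_div]
      refine Finset.sum_congr rfl (fun v _ => ?_)
      rw [Finset.sum_div]
    have e2 : ∑ p ∈ P, ∑ v, ∑ k, (if cor v k = f then (s p.1 p.2 v k : ℝ) else 0) = P.card := by
      rw [Finset.sum_congr rfl (fun p hp => ?_), Finset.sum_const, nsmul_eq_mul, mul_one]
      have := (hst p hp).1.2.1 f hfF
      exact_mod_cast this
    rw [e, e2, div_self hn.ne']
  have ho : ∀ v k, cor v k ∉ F → σ v k = 0 := by
    intro v k hk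
    have : ∑ p ∈ P, (s p.1 p.2 v k : ℝ) = 0 :=
      Finset.sum_eq_zero (fun p hp => by
        have := (hst p hp).1.2.2 v k hk
        exact_mod_cast this)
    simp only [hσ, this, zero_div]
  have hpos : ∀ v k, cor v k ∈ F → 0 < σ v k := by
    intro v k hk
    have hm : (v, k) ∈ P := by simp [hP, hk]
    have h1 : (1 : ℝ) ≤ (s v k v k : ℝ) := by
      have := (hst (v, k) hm).2
      exact_mod_cast Nat.one_le_iff_ne_zero.2 this
    have h2 : (s v k v k : ℝ) ≤ ∑ p ∈ P, (s p.1 p.2 v k : ℝ) :=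
      Finset.single_le_sum (f := fun p : Fin c × Fin 4 => (s p.1 p.2 v k : ℝ))
        (fun p _ => Nat.cast_nonneg _) hm
    exact div_pos (by linarith) hn
  have hang := ext_ang h0 hv hf ho
  refine ⟨_, hang, fun v => ?_, fun v => ?_, fun v k hk _ => ?_, fun v k hk hne => ?_⟩
  · have hs4 := hv v
    rw [Fin.sum_univ_four] at hs4
    have a0 := h0 v 0
    have a1 := h0 v 1
    have a2 := h0 v 2
    have a3 := h0 v 3
    have hor : 0 < σ v 1 + σ v 3 := by
      rcases h.opp v 1 with hh | hh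
      · have := hpos v 1 hh
        linarith
      · have := hpos v (1 + 2) hh
        have e : σ v (1 + 2) = σ v 3 := rfl
        linarith
    simp only [Sum.elim_inl]
    rcases max_cases (σ v 1) (σ v 3) with ⟨e1, _⟩ | ⟨e1, _⟩ <;>
      rcases max_cases (σ v 0) (σ v 2) with ⟨e2, _⟩ | ⟨e2, _⟩ <;>
      rw [e1, e2] <;> linarith
  · have hs4 := hv v
    rw [Fin.sum_univ_four] at hs4
    have a0 := h0 v 0
    have a1 := h0 v 1
    have a2 := h0 v 2
    have a3 := h0 v 3
    have hor : 0 < σ v 0 + σ v 2 := by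
      rcases h.opp v 0 with hh | hh
      · have := hpos v 0 hh
        linarith
      · have := hpos v (0 + 2) hh
        have e : σ v (0 + 2) = σ v 2 := rfl
        linarith
    simp only [Sum.elim_inl]
    rcases max_cases (σ v 1) (σ v 3) with ⟨e1, _⟩ | ⟨e1, _⟩ <;>
      rcases max_cases (σ v 0) (σ v 2) with ⟨e2, _⟩ | ⟨e2, _⟩ <;>
      rw [e1, e2] <;> linarith
  · simpa using hpos v k hk
  · have ha : ∀ j : Fin 4, 0 < σ v j ∨ 0 < σ v (j + 1) := by
      intro j
      by_cases hj : cor v j ∈ F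
      · exact Or.inl (hpos v j hj)
      · by_cases hj' : cor v (j + 1) ∈ F
        · exact Or.inr (hpos v (j + 1) hj')
        · exact absurd ⟨j, hj, hj'⟩ hne
    simpa using H_Int_lt (σ := σ v) (h0 v) (hv v) ha k

/-- At an end there is an angle vector with `τ v ≠ 1 / 2`. -/
theorem exists_end (h : IsPrimeT F cor) {v : Fin c} (hv : IsEnd F cor v) :
    ∃ z : Vr c → ℝ, IsAng F cor z ∧ z (Sum.inl v) ≠ 1 / 2 := by
  have key : ∀ k : Fin 4, (k = 0 ∨ k = 2) → cor v k ∈ F →
      ∃ z : Vr c → ℝ, IsAng F cor z ∧ z (Sum.inl v) ≠ 1 / 2 := by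
    intro k hk hF
    obtain ⟨s, ⟨s1, s2, s3⟩, hne⟩ := h.state v k hF
    refine ⟨_, ext_ang (F := F) (cor := cor) (σ := fun v k => (s v k : ℝ))
      (fun v k => Nat.cast_nonneg _) (fun v => by exact_mod_cast s1 v)
      (fun f hf => by exact_mod_cast s2 f hf) (fun v k hk => by exact_mod_cast s3 v k hk), ?_⟩
    have h1 := s1 v
    rw [Fin.sum_univ_four] at h1
    simp only [Sum.elim_inl]
    rcases hk with rfl | rfl
    · have e0 : s v 0 = 1 := by omega
      have e1 : s v 1 = 0 := by omega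
      have e2 : s v 2 = 0 := by omega
      have e3 : s v 3 = 0 := by omega
      rw [e0, e1, e2, e3]
      norm_num
    · have e0 : s v 0 = 0 := by omega
      have e1 : s v 1 = 0 := by omega
      have e2 : s v 2 = 1 := by omega
      have e3 : s v 3 = 0 := by omega
      rw [e0, e1, e2, e3]
      norm_num
  rcases h.opp v 0 with hh | hh
  · exact key 0 (Or.inl rfl) hh
  · exact key (0 + 2) (Or.inr rfl) hh

end Pool.Agent.H63.CLK
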