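import Pool.Agent.H63.CLK.H_Def

set_option autoImplicit false

/-!
# CLK part H, H_Le: `volF ≤ volSy`, and the existence of a maximum of `volSy`

(1) `lob x ≥ 0` for `0 ≤ x ≤ π / 2`, `> 0` for `0 < x < π / 2`, `lob (π - x) = - lob x`; on `IsAng`
`0 ≤ τ v ≤ 1` (from `nn` and `le` at the corners `0` and `1`). For `τ ≥ 1/2`, `|τ - 1/2| = τ - 1/2` and
`lob (π (1/2 - (τ - 1/2))) = lob (π - π τ) = - lob (π τ)`, so the terms of `volF` and `volSy` agree; for
`τ < 1/2` the first term of `volF` is `0`.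
(2) `IsAng` is a closed and bounded subset of `Vr c → ℝ` (all coordinates in `[0, 1]`), `volSy` is
continuous.
-/

namespace Pool.Agent.H63.CLK

open Pool.Agent.H63.VC hiding ext
open Real

private theorem H_Le_half : lob (π / 2) = 0 := by
  have h1 := volA_lob_add_pi (-(π / 2))
  rw [volA_lob_neg] at h1
  have h2 : -(π / 2) + π = π / 2 := by ring
  rw [h2] at h1
  linarith

private theorem H_Le_inc : StrictMonoOn lob (Set.Icc 0 (π / 6)) := by
  apply strictMonoOn_of_deriv_pos (convex_Icc _ _) volA_lob_continuous.continuousOn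
  intro x hx
  rw [interior_Icc] at hx
  have hp := Real.pi_pos
  have hs : 0 < Real.sin x := Real.sin_pos_of_pos_of_lt_pi hx.1 (by linarith [hx.2])
  rw [(volA_lob_hasDerivAt x hs.ne').deriv]
  have h1 : Real.sin x < 1 / 2 := by
    rw [← Real.sin_pi_div_six]
    exact Real.sin_lt_sin_of_lt_of_le_pi_div_two (by linarith [hx.1]) (by linarith) hx.2
  rw [abs_of_pos (by positivity)]
  have h2 : Real.log (2 * Real.sin x) < 0 := Real.log_neg (by positivity) (by linarith)
  linarith

private theorem H_Le_dec : StrictAntiOn lob (Set.Icc (π / 6) (π / 2)) := by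
  apply strictAntiOn_of_deriv_neg (convex_Icc _ _) volA_lob_continuous.continuousOn
  intro x hx
  rw [interior_Icc] at hx
  have hp := Real.pi_pos
  have hs : 0 < Real.sin x := Real.sin_pos_of_pos_of_lt_pi (by linarith [hx.1]) (by linarith [hx.2])
  rw [(volA_lob_hasDerivAt x hs.ne').deriv]
  have h1 : 1 / 2 < Real.sin x := by
    rw [← Real.sin_pi_div_six]
    exact Real.sin_lt_sin_of_lt_of_le_pi_div_two (by linarith) (by linarith [hx.2]) hx.1
  rw [abs_of_pos (by positivity)]
  have h2 : 0 < Real.log (2 * Real.sin x) := Real.log_pos (by linarith)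
  linarith

private theorem H_Le_pos {x : ℝ} (h0 : 0 < x) (h1 : x < π / 2) : 0 < lob x := by
  have hp := Real.pi_pos
  rcases le_total x (π / 6) with h | h
  · have := H_Le_inc ⟨le_rfl, by linarith⟩ ⟨h0.le, h⟩ h0
    rwa [volA_lob_zero] at this
  · have := H_Le_dec ⟨h, h1.le⟩ ⟨by linarith, le_rfl⟩ h1
    rwa [H_Le_half] at this

private theorem H_Le_nn {x : ℝ} (h0 : 0 ≤ x) (h1 : x ≤ π / 2) : 0 ≤ lob x := by
  rcases h0.eq_or_lt with h | h
  · rw [← h, volA_lob_zero]
  rcases h1.eq_or_lt with h' | h'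
  · rw [h', H_Le_half]
  exact (H_Le_pos h h').le

variable {c : ℕ} {F : Finset ℕ} {cor : Fin c → Fin 4 → ℕ}

theorem ang_tau {x : Vr c → ℝ} (h : IsAng F cor x) (v : Fin c) :
    0 ≤ x (Sum.inl v) ∧ x (Sum.inl v) ≤ 1 := by
  have a1 := h.nn v 0
  have a2 : x (Sum.inr (v, 0)) ≤ 1 - x (Sum.inl v) := h.le v 0
  have a3 := h.nn v 1
  have a4 : x (Sum.inr (v, 1)) ≤ x (Sum.inl v) := h.le v 1
  constructor <;> linarith

/-- the first term of `volSy` -/
private theorem H_Le_term {t : ℝ} (h0 : 0 ≤ t) (h1 : t ≤ 1) :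
    (if 1 / 2 ≤ t then 4 * (lob (π * t - π / 2) - lob (π * t)) else 0) ≤
      4 * (lob (π * |t - 1 / 2|) + lob (π * (1 / 2 - |t - 1 / 2|))) := by
  have hp := Real.pi_pos
  by_cases h : 1 / 2 ≤ t
  · rw [if_pos h, abs_of_nonneg (by linarith)]
    have e1 : π * (t - 1 / 2) = π * t - π / 2 := by ring
    have e2 : π * (1 / 2 - (t - 1 / 2)) = -(π * t) + π := by ring
    rw [e1, e2, volA_lob_add_pi, volA_lob_neg]
    linarith
  · rw [if_neg h]
    push Not at h
    rw [abs_of_neg (by linarith)]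
    have a1 : 0 ≤ lob (π * (-(t - 1 / 2))) := H_Le_nn (by nlinarith) (by nlinarith)
    have a2 : 0 ≤ lob (π * (1 / 2 - -(t - 1 / 2))) := H_Le_nn (by nlinarith) (by nlinarith)
    linarith

private theorem H_Le_term_eq {t : ℝ} (h : 1 / 2 ≤ t) :
    (if 1 / 2 ≤ t then 4 * (lob (π * t - π / 2) - lob (π * t)) else 0) =
      4 * (lob (π * |t - 1 / 2|) + lob (π * (1 / 2 - |t - 1 / 2|))) := by
  rw [if_pos h, abs_of_nonneg (by linarith)]
  have e1 : π * (t - 1 / 2) = π * t - π / 2 := by ring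
  have e2 : π * (1 / 2 - (t - 1 / 2)) = -(π * t) + π := by ring
  rw [e1, e2, volA_lob_add_pi, volA_lob_neg]
  ring

private theorem H_Le_term_lt {t : ℝ} (h0 : 0 < t) (h : t < 1 / 2) :
    (if 1 / 2 ≤ t then 4 * (lob (π * t - π / 2) - lob (π * t)) else 0) <
      4 * (lob (π * |t - 1 / 2|) + lob (π * (1 / 2 - |t - 1 / 2|))) := by
  have hp := Real.pi_pos
  rw [if_neg (not_le.2 h), abs_of_neg (by linarith)]
  have a1 : 0 ≤ lob (π * (-(t - 1 / 2))) := H_Le_nn (by nlinarith) (by nlinarith)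
  have a2 : 0 < lob (π * (1 / 2 - -(t - 1 / 2))) := H_Le_pos (by nlinarith) (by nlinarith)
  linarith

theorem volF_le {x : Vr c → ℝ} (h : IsAng F cor x) : volF x ≤ volSy x := by
  unfold volF volSy
  refine Finset.sum_le_sum fun v _ => ?_
  obtain ⟨h0, h1⟩ := ang_tau h v
  have := H_Le_term h0 h1
  linarith

theorem volF_eq_volS {x : Vr c → ℝ} (h : IsAng F cor x) (h2 : ∀ v, 1 / 2 ≤ x (Sum.inl v)) :
    volF x = volSy x := by
  unfold volF volSy
  refine Finset.sum_congr rfl fun v _ => ?_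
  rw [H_Le_term_eq (h2 v)]

theorem volF_lt {x : Vr c → ℝ} (h : IsAng F cor x) {v : Fin c} (h0 : 0 < x (Sum.inl v))
    (h2 : x (Sum.inl v) < 1 / 2) : volF x < volSy x := by
  unfold volF volSy
  refine Finset.sum_lt_sum (fun v _ => ?_) ⟨v, Finset.mem_univ v, ?_⟩
  · obtain ⟨h0, h1⟩ := ang_tau h v
    have := H_Le_term h0 h1
    linarith
  · have := H_Le_term_lt h0 h2
    linarith

private theorem H_Le_cz (v : Fin c) (k : Fin 4) :
    Continuous fun x : Vr c → ℝ => cz 1 (x (Sum.inl v)) k := by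
  fin_cases k
  · change Continuous fun x : Vr c → ℝ => 1 - x (Sum.inl v)
    fun_prop
  · change Continuous fun x : Vr c → ℝ => x (Sum.inl v)
    fun_prop
  · change Continuous fun x : Vr c → ℝ => 1 - x (Sum.inl v)
    fun_prop
  · change Continuous fun x : Vr c → ℝ => x (Sum.inl v)
    fun_prop

private theorem H_Le_cont : Continuous (volSy : (Vr c → ℝ) → ℝ) := by
  unfold volSy
  refine continuous_finsetSum _ fun v _ => ?_
  have c1 : Continuous fun x : Vr c → ℝ => |x (Sum.inl v) - 1 / 2| := by fun_prop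
  refine Continuous.add (continuous_const.mul (Continuous.add ?_ ?_))
    (continuous_finsetSum _ fun k _ => continuous_const.mul (Continuous.add ?_ ?_))
  · exact volA_lob_continuous.comp (continuous_const.mul c1)
  · exact volA_lob_continuous.comp (continuous_const.mul (continuous_const.sub c1))
  · exact volA_lob_continuous.comp (by fun_prop)
  · exact volA_lob_continuous.comp (continuous_const.mul ((H_Le_cz v k).sub (by fun_prop)))

private theorem H_Le_closed (F : Finset ℕ) (cor : Fin c → Fin 4 → ℕ) :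
    IsClosed {x : Vr c → ℝ | IsAng F cor x} := by
  have e : {x : Vr c → ℝ | IsAng F cor x} =
      (⋂ v : Fin c, {x : Vr c → ℝ | ∑ k, x (Sum.inr (v, k)) = 1}) ∩
      ((⋂ f : ℕ, ⋂ _ : f ∈ F, {x : Vr c → ℝ |
        ∑ v, ∑ k, (if cor v k = f then x (Sum.inr (v, k)) else 0) = 1}) ∩
      ((⋂ v : Fin c, ⋂ k : Fin 4, ⋂ _ : cor v k ∉ F, {x : Vr c → ℝ | x (Sum.inr (v, k)) = 0}) ∩
      ((⋂ v : Fin c, ⋂ k : Fin 4, {x : Vr c → ℝ | 0 ≤ x (Sum.inr (v, k))}) ∩
      (⋂ v : Fin c, ⋂ k : Fin 4, {x : Vr c → ℝ | x (Sum.inr (v, k)) ≤ cz 1 (x (Sum.inl v)) k})))) := by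
    ext x
    simp only [Set.mem_setOf_eq, Set.mem_inter_iff, Set.mem_iInter]
    constructor
    · rintro ⟨h1, h2, h3, h4, h5⟩
      exact ⟨h1, h2, h3, h4, h5⟩
    · rintro ⟨h1, h2, h3, h4, h5⟩
      exact ⟨h1, h2, h3, h4, h5⟩
  rw [e]
  refine IsClosed.inter (isClosed_iInter fun v => ?_) (IsClosed.inter
    (isClosed_iInter fun f => isClosed_iInter fun _ => ?_) (IsClosed.inter
    (isClosed_iInter fun v => isClosed_iInter fun k => isClosed_iInter fun _ => ?_)
    (IsClosed.inter (isClosed_iInter fun v => isClosed_iInter fun k => ?_)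
    (isClosed_iInter fun v => isClosed_iInter fun k => ?_))))
  · exact isClosed_eq (by fun_prop) continuous_const
  · refine isClosed_eq ?_ continuous_const
    refine continuous_finsetSum _ fun v _ => continuous_finsetSum _ fun k _ => ?_
    by_cases h : cor v k = f
    · simp only [if_pos h]
      fun_prop
    · simp only [if_neg h]
      fun_prop
  · exact isClosed_eq (by fun_prop) continuous_const
  · exact isClosed_le continuous_const (by fun_prop)
  · exact isClosed_le (by fun_prop) (H_Le_cz v k)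

theorem exists_max_volS {z : Vr c → ℝ} (hz : IsAng F cor z) :
    ∃ y : Vr c → ℝ, IsAng F cor y ∧ ∀ x, IsAng F cor x → volSy x ≤ volSy y := by
  have hsub : {x : Vr c → ℝ | IsAng F cor x} ⊆ Set.Icc (0 : Vr c → ℝ) 1 := by
    intro x hx
    have hx' : IsAng F cor x := hx
    constructor
    · rintro (v | ⟨v, k⟩)
      · exact (ang_tau hx' v).1
      · exact hx'.nn v k
    · rintro (v | ⟨v, k⟩)
      · exact (ang_tau hx' v).2
      · have h1 := hx'.le v k
        obtain ⟨t0, t1⟩ := ang_tau hx' v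
        have h2 : cz 1 (x (Sum.inl v)) k ≤ 1 := by
          fin_cases k
          · change 1 - x (Sum.inl v) ≤ 1
            linarith
          · exact t1
          · change 1 - x (Sum.inl v) ≤ 1
            linarith
          · exact t1
        exact h1.trans h2
  have hcomp : IsCompact {x : Vr c → ℝ | IsAng F cor x} :=
    isCompact_Icc.of_isClosed_subset (H_Le_closed F cor) hsub
  obtain ⟨y, hy, hmax⟩ := hcomp.exists_isMaxOn ⟨z, hz⟩ H_Le_cont.continuousOn
  exact ⟨y, hy, fun x hx => hmax hx⟩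

end Pool.Agent.H63.CLK
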