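import Pool.Agent.H63.CLK.H_Seg
import Pool.Agent.H63.CLK.H_Int
import Pool.Agent.H63.CLK.H_Le

set_option autoImplicit false

/-!
# CLK part H, H_Bdy: a maximum of `volSy` is an interior point

Let `y` be a maximum, `z` an angle vector, `d = z - y`; `y + t d` is an angle vector for
`0 ≤ t ≤ 1`. For small `t` `volSy (y + t d) = ∑ w i * lob (π (a i + t b i))` with the terms, for
every `v` (`τ = y (inl v)`, `δ = d (inl v)`):
* `4 lob (π |τ + t δ - 1/2|)`: `a = |τ - 1/2|`, `b = ± δ` (sign of `τ - 1/2`), `b = |δ|` if `τ = 1/2`;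
* `4 lob (π (1/2 - |τ + t δ - 1/2|))`: `a = 1/2 - |τ - 1/2|`, `b` the negative of this;
* `2 lob (π σ_k)`: `a = σ_k`, `b = d_k`;  `2 lob (π (size_k - σ_k))`: `a = size_k - σ_k`,
  `b = ∓ δ - d_k`.
Let `S v` be the sum of `w b` over the terms of `v` with `a ∈ {0, 1}`.
CLAIM: `S v ≥ 0` for all `v`; if `z` is in `IntS` then `S v > 0` unless `0 < τ < 1` and the strict
inequalities of `IntS` hold at `v`; and if `τ = 1/2`, `δ ≠ 0` then `S v > 0`.
* `0 < τ < 1`: all `a < 1` except possibly none (`σ ≤ size < 1`), so only `a = 0` contributes, and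
  `b ≥ 0` there since `a + b ≥ 0` (the point `z` is an angle vector), `b > 0` if the quantity is
  positive for `z`.
* `τ = 1` (`β = -δ = 1 - z (inl v) ≥ 0`, `> 0` if `z` is in `IntS`): `σ_0 = σ_2 = 0`, sizes `0`:
  the corners `0`, `2` give `2 d_k + 2 (β - d_k) = 2 β` each; the second term gives `4 β`;
  `σ_1 + σ_3 = 1`: if both are `> 0` their terms have `0 < a < 1`: total `8 β`; if `σ_1 = 1`, `σ_3 = 0`:
  corner `1` gives `2 d_1 + 2 (-β - d_1) = -2 β`, corner `3`: `2 d_3 + 2 (-β - d_3) = -2 β`, total `4 β`;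
  same for `σ_3 = 1`.
* `τ = 0`: the same with the corners `1`, `3` and `0`, `2` exchanged.
(The last computation does not use whether the corners are in `F`: for `a ∈ {0, 1}` every term is
counted; for outer corners `d_k = 0`.)
Then `seg_up` (with `ε` so small that the first two terms are linear) contradicts the maximality.
(1) With `z` from `exists_intS`: `y` is in `IntS`. (2) Let `τ v = 1/2`. If `v` is not an end, change
`y (inl v)` alone a little (`pos`, `lt` give room; outer corners have `σ = 0 < size`): `z` is an angle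
vector with `z (inl v) ≠ 1/2`. If `v` is an end, take `exists_end`. Now all `S w ≥ 0` and `S v > 0`.
-/

namespace Pool.Agent.H63.CLK

variable {c : ℕ} {F : Finset ℕ} {cor : Fin c → Fin 4 → ℕ}

/-- The slope of `|τ + t δ - 1/2|` at `t = 0`, from the right. -/
private noncomputable def hb_sl (τ δ : ℝ) : ℝ :=
  if 1 / 2 < τ then δ else if τ < 1 / 2 then -δ else |δ|

open Filter Topology in
private theorem hb_sl_spec (τ δ : ℝ) :
    ∀ᶠ t : ℝ in 𝓝[>] 0, |τ + t * δ - 1 / 2| = |τ - 1 / 2| + t * hb_sl τ δ := by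
  have hlim : Tendsto (fun t : ℝ => τ + t * δ - 1 / 2) (𝓝[>] 0) (𝓝 (τ + 0 * δ - 1 / 2)) := by
    apply Tendsto.mono_left _ nhdsWithin_le_nhds
    exact Continuous.tendsto (by fun_prop) 0
  rw [zero_mul, add_zero] at hlim
  rcases lt_trichotomy τ (1 / 2) with h | h | h
  · have h1 : τ - 1 / 2 < 0 := by linarith
    filter_upwards [hlim.eventually (eventually_lt_nhds h1)] with t ht
    rw [abs_of_neg ht, abs_of_neg h1, hb_sl, if_neg (by linarith), if_pos h]
    ring
  · filter_upwards [self_mem_nhdsWithin] with t ht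
    have ht' : (0 : ℝ) < t := ht
    rw [hb_sl, if_neg (by linarith), if_neg (by linarith)]
    have e1 : τ + t * δ - 1 / 2 = t * δ := by rw [h]; ring
    have e2 : τ - 1 / 2 = 0 := by rw [h]; ring
    rw [e1, e2, abs_mul, abs_of_pos ht', abs_zero, zero_add]
  · have h1 : 0 < τ - 1 / 2 := by linarith
    filter_upwards [hlim.eventually (eventually_gt_nhds h1)] with t ht
    rw [abs_of_pos ht, abs_of_pos h1, hb_sl, if_pos h]
    ring

open Classical in
/-- The sum of the slopes at a vertex. -/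
private noncomputable def hb_S (τ δ : ℝ) (σ d : Fin 4 → ℝ) : ℝ :=
  (if |τ - 1 / 2| = 0 ∨ |τ - 1 / 2| = 1 then 4 * hb_sl τ δ else 0) +
  (if 1 / 2 - |τ - 1 / 2| = 0 ∨ 1 / 2 - |τ - 1 / 2| = 1 then 4 * (-hb_sl τ δ) else 0) +
  ∑ k, ((if σ k = 0 ∨ σ k = 1 then 2 * d k else 0) +
    (if cz 1 τ k - σ k = 0 ∨ cz 1 τ k - σ k = 1 then 2 * (cz 0 δ k - d k) else 0))

open Classical in
private theorem hb_pair0 {s e D : ℝ} (hs : s = 0) :
    (if s = 0 ∨ s = 1 then 2 * e else 0) + (if 0 - s = 0 ∨ 0 - s = 1 then 2 * (D - e) else 0) =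
      2 * D := by
  rw [if_pos (Or.inl hs), if_pos (Or.inl (by rw [hs]; ring))]
  ring

open Classical in
private theorem hb_pair1 {s e D : ℝ} (hD : D ≤ 0) :
    2 * D ≤ (if s = 0 ∨ s = 1 then 2 * e else 0) +
      (if 1 - s = 0 ∨ 1 - s = 1 then 2 * (D - e) else 0) := by
  by_cases h : s = 0 ∨ s = 1
  · rw [if_pos h, if_pos (by rcases h with h | h <;> rw [h] <;> norm_num)]
    linarith
  · have h' : ¬ (1 - s = 0 ∨ 1 - s = 1) := by
      rintro (h1 | h1)
      · exact h (Or.inr (by linarith))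
      · exact h (Or.inl (by linarith))
    rw [if_neg h, if_neg h']
    linarith

private theorem hb_S_spec {τ δ : ℝ} {σ d : Fin 4 → ℝ} (hσ : ∀ k, 0 ≤ σ k)
    (hle : ∀ k, σ k ≤ cz 1 τ k) (hz : ∀ k, 0 ≤ σ k + d k)
    (hzle : ∀ k, σ k + d k ≤ cz 1 (τ + δ) k) :
    0 ≤ hb_S τ δ σ d ∧ (hb_S τ δ σ d = 0 → (τ = 1 / 2 → δ = 0) ∧
      (0 < τ + δ → τ + δ < 1 → 0 < τ ∧ τ < 1) ∧
      (0 < τ → τ < 1 → ∀ k, (0 < σ k + d k → 0 < σ k) ∧
        (σ k + d k < cz 1 (τ + δ) k → σ k < cz 1 τ k))) := by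
  have c0 : ∀ n x : ℝ, cz n x 0 = n - x := fun _ _ => rfl
  have c1 : ∀ n x : ℝ, cz n x 1 = x := fun _ _ => rfl
  have c2 : ∀ n x : ℝ, cz n x 2 = n - x := fun _ _ => rfl
  have c3 : ∀ n x : ℝ, cz n x 3 = x := fun _ _ => rfl
  have l0 := hle 0
  have l1 := hle 1
  have l2 := hle 2
  have l3 := hle 3
  have z0 := hzle 0
  have z1 := hzle 1
  rw [c0] at l0 z0
  rw [c1] at l1 z1
  rw [c2] at l2
  rw [c3] at l3
  have hτ0 : 0 ≤ τ := by linarith [hσ 1]
  have hτ1 : τ ≤ 1 := by linarith [hσ 0]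
  have hδ0 : 0 ≤ τ + δ := by linarith [hz 1]
  have hδ1 : τ + δ ≤ 1 := by linarith [hz 0]
  rcases hτ0.lt_or_eq with ht0 | ht0
  · rcases hτ1.lt_or_eq with ht1 | ht1
    · -- `0 < τ < 1`
      have habs : |τ - 1 / 2| < 1 / 2 := abs_lt.mpr ⟨by linarith, by linarith⟩
      have habs0 := abs_nonneg (τ - 1 / 2)
      have cpos : ∀ k, cz 1 τ k < 1 := by
        intro k
        fin_cases k <;> simp [cz] <;> linarith
      have cdif : ∀ k, cz 1 (τ + δ) k = cz 1 τ k + cz 0 δ k := by
        intro k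
        fin_cases k <;> simp [cz] <;> ring
      classical
      have hA1 : 0 ≤ (if |τ - 1 / 2| = 0 ∨ |τ - 1 / 2| = 1 then 4 * hb_sl τ δ else 0) := by
        split_ifs with h
        · rcases h with h | h
          · have hτ : τ = 1 / 2 := by linarith [abs_eq_zero.mp h]
            rw [hb_sl, if_neg (by linarith), if_neg (by linarith)]
            positivity
          · linarith
        · exact le_rfl
      have hA2 : (if 1 / 2 - |τ - 1 / 2| = 0 ∨ 1 / 2 - |τ - 1 / 2| = 1 then
          4 * (-hb_sl τ δ) else 0) = 0 := by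
        rw [if_neg]
        rintro (h | h) <;> linarith
      have hC1 : ∀ k, 0 ≤ (if σ k = 0 ∨ σ k = 1 then 2 * d k else 0) := by
        intro k
        split_ifs with h
        · rcases h with h | h
          · have := hz k
            rw [h] at this
            linarith
          · linarith [hle k, cpos k]
        · exact le_rfl
      have hC2 : ∀ k, 0 ≤ (if cz 1 τ k - σ k = 0 ∨ cz 1 τ k - σ k = 1 then
          2 * (cz 0 δ k - d k) else 0) := by
        intro k
        split_ifs with h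
        · rcases h with h | h
          · have := hzle k
            rw [cdif] at this
            linarith
          · linarith [hσ k, cpos k]
        · exact le_rfl
      have hsumnn : 0 ≤ ∑ k, ((if σ k = 0 ∨ σ k = 1 then 2 * d k else 0) +
          (if cz 1 τ k - σ k = 0 ∨ cz 1 τ k - σ k = 1 then 2 * (cz 0 δ k - d k) else 0)) :=
        Finset.sum_nonneg fun k _ => add_nonneg (hC1 k) (hC2 k)
      have hdef : hb_S τ δ σ d = (if |τ - 1 / 2| = 0 ∨ |τ - 1 / 2| = 1 then 4 * hb_sl τ δ else 0) +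
          (if 1 / 2 - |τ - 1 / 2| = 0 ∨ 1 / 2 - |τ - 1 / 2| = 1 then 4 * (-hb_sl τ δ) else 0) +
          ∑ k, ((if σ k = 0 ∨ σ k = 1 then 2 * d k else 0) +
          (if cz 1 τ k - σ k = 0 ∨ cz 1 τ k - σ k = 1 then 2 * (cz 0 δ k - d k) else 0)) := by
        unfold hb_S
        rfl
      rw [hdef, hA2, add_zero]
      refine ⟨add_nonneg hA1 hsumnn, fun h0 => ⟨fun hτ => ?_, fun _ _ => ⟨ht0, ht1⟩,
        fun _ _ k => ?_⟩⟩
      · have h1 : (if |τ - 1 / 2| = 0 ∨ |τ - 1 / 2| = 1 then 4 * hb_sl τ δ else 0) = 0 := by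
          linarith
        rw [if_pos (Or.inl (by rw [hτ]; norm_num)), hb_sl, if_neg (by linarith),
          if_neg (by linarith)] at h1
        exact abs_eq_zero.mp (by linarith)
      · have h1 : ∑ k, ((if σ k = 0 ∨ σ k = 1 then 2 * d k else 0) +
          (if cz 1 τ k - σ k = 0 ∨ cz 1 τ k - σ k = 1 then 2 * (cz 0 δ k - d k) else 0)) = 0 := by
          linarith
        rw [Finset.sum_eq_zero_iff_of_nonneg fun k _ => add_nonneg (hC1 k) (hC2 k)] at h1
        have h2 := h1 k (Finset.mem_univ k)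
        have h3 := hC1 k
        have h4 := hC2 k
        constructor
        · intro hp
          rcases (hσ k).lt_or_eq with h | h
          · exact h
          · exfalso
            have h5 : (if σ k = 0 ∨ σ k = 1 then 2 * d k else 0) = 0 := by linarith
            rw [if_pos (Or.inl h.symm)] at h5
            linarith
        · intro hp
          rcases (hle k).lt_or_eq with h | h
          · exact h
          · exfalso
            have h5 : (if cz 1 τ k - σ k = 0 ∨ cz 1 τ k - σ k = 1 then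
              2 * (cz 0 δ k - d k) else 0) = 0 := by linarith
            rw [if_pos (Or.inl (by linarith))] at h5
            rw [cdif] at hp
            linarith
    · -- `τ = 1`
      have s0 : σ 0 = 0 := by linarith [hσ 0]
      have s2 : σ 2 = 0 := by linarith [hσ 2]
      have hsl : hb_sl τ δ = δ := by rw [hb_sl, if_pos (by linarith)]
      have habs : |τ - 1 / 2| = 1 / 2 := by rw [ht1]; norm_num
      have key : -4 * δ ≤ hb_S τ δ σ d := by
        unfold hb_S
        rw [Fin.sum_univ_four, habs, hsl, c0, c1, c2, c3, c0, c1, c2, c3, ht1]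
        rw [if_neg (by norm_num), if_pos (Or.inl (by norm_num))]
        have p0 := hb_pair0 (s := σ 0) (e := d 0) (D := 0 - δ) s0
        have p2 := hb_pair0 (s := σ 2) (e := d 2) (D := 0 - δ) s2
        have p1 := hb_pair1 (s := σ 1) (e := d 1) (D := δ) (by linarith)
        have p3 := hb_pair1 (s := σ 3) (e := d 3) (D := δ) (by linarith)
        rw [sub_self]
        linarith
      refine ⟨by linarith, fun h0 => ⟨fun h => by linarith, fun _ h => by linarith,
        fun _ h => by linarith⟩⟩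
  · -- `τ = 0`
    have s1 : σ 1 = 0 := by linarith [hσ 1]
    have s3 : σ 3 = 0 := by linarith [hσ 3]
    have hsl : hb_sl τ δ = -δ := by rw [hb_sl, if_neg (by linarith), if_pos (by linarith)]
    have habs : |τ - 1 / 2| = 1 / 2 := by rw [← ht0]; norm_num
    have key : 4 * δ ≤ hb_S τ δ σ d := by
      unfold hb_S
      rw [Fin.sum_univ_four, habs, hsl, c0, c1, c2, c3, c0, c1, c2, c3, ← ht0]
      rw [if_neg (by norm_num), if_pos (Or.inl (by norm_num))]
      have p0 := hb_pair1 (s := σ 0) (e := d 0) (D := 0 - δ) (by linarith)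
      have p2 := hb_pair1 (s := σ 2) (e := d 2) (D := 0 - δ) (by linarith)
      have p1 := hb_pair0 (s := σ 1) (e := d 1) (D := δ) s1
      have p3 := hb_pair0 (s := σ 3) (e := d 3) (D := δ) s3
      rw [sub_zero]
      linarith
    refine ⟨by linarith, fun h0 => ⟨fun h => by linarith, fun h _ => by linarith,
      fun h => by linarith⟩⟩

/-- The index set of the terms at a vertex. -/
private abbrev hb_J : Type := Bool ⊕ (Fin 4 × Bool)

private theorem hb_sum (f : Fin c × hb_J → ℝ) :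
    ∑ p, f p = ∑ v, (f (v, Sum.inl false) + f (v, Sum.inl true) +
      ∑ k, (f (v, Sum.inr (k, false)) + f (v, Sum.inr (k, true)))) := by
  rw [Fintype.sum_prod_type]
  refine Finset.sum_congr rfl fun v _ => ?_
  rw [Fintype.sum_sum_type, Fintype.sum_prod_type, Fintype.sum_bool]
  congr 1
  · ring
  · refine Finset.sum_congr rfl fun k _ => ?_
    rw [Fintype.sum_bool]
    ring

private def hb_w (c : ℕ) : Fin c × hb_J → ℝ := fun p => Sum.elim (fun _ => 4) (fun _ => 2) p.2

private noncomputable def hb_a (y : Vr c → ℝ) : Fin c × hb_J → ℝ := fun p =>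
  Sum.elim (fun b => if b then 1 / 2 - |y (Sum.inl p.1) - 1 / 2| else |y (Sum.inl p.1) - 1 / 2|)
    (fun q => if q.2 then cz 1 (y (Sum.inl p.1)) q.1 - y (Sum.inr (p.1, q.1))
      else y (Sum.inr (p.1, q.1))) p.2

private noncomputable def hb_b (y z : Vr c → ℝ) : Fin c × hb_J → ℝ := fun p =>
  Sum.elim (fun b => if b then -hb_sl (y (Sum.inl p.1)) (z (Sum.inl p.1) - y (Sum.inl p.1))
      else hb_sl (y (Sum.inl p.1)) (z (Sum.inl p.1) - y (Sum.inl p.1)))
    (fun q => if q.2 then cz 0 (z (Sum.inl p.1) - y (Sum.inl p.1)) q.1 -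
        (z (Sum.inr (p.1, q.1)) - y (Sum.inr (p.1, q.1)))
      else z (Sum.inr (p.1, q.1)) - y (Sum.inr (p.1, q.1))) p.2

private theorem hb_cz (τ δ t : ℝ) (k : Fin 4) : cz 1 (τ + t * δ) k = cz 1 τ k + t * cz 0 δ k := by
  fin_cases k <;> simp [cz] <;> ring

private theorem hb_volS (y z : Vr c → ℝ) (t : ℝ)
    (ht : ∀ v, |y (Sum.inl v) + t * (z (Sum.inl v) - y (Sum.inl v)) - 1 / 2| =
      |y (Sum.inl v) - 1 / 2| + t * hb_sl (y (Sum.inl v)) (z (Sum.inl v) - y (Sum.inl v))) :
    volSy (fun j => y j + t * (z j - y j)) =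
      ∑ i, hb_w c i * VC.lob (Real.pi * (hb_a y i + t * hb_b y z i)) := by
  rw [hb_sum, volSy]
  refine Finset.sum_congr rfl fun v _ => ?_
  simp only [hb_w, hb_a, hb_b, Sum.elim_inl, Sum.elim_inr, if_true, if_false, Bool.false_eq_true]
  rw [ht v]
  congr 1
  · rw [mul_add]
    congr 3
    ring_nf
  · refine Finset.sum_congr rfl fun k _ => ?_
    rw [hb_cz, mul_add]
    congr 3
    ring_nf

private theorem hb_volS0 (y z : Vr c → ℝ) :
    volSy y = ∑ i, hb_w c i * VC.lob (Real.pi * hb_a y i) := by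
  have h := hb_volS y z 0 (fun v => by simp)
  simp only [zero_mul, add_zero] at h
  exact h

private theorem hb_conv {y z : Vr c → ℝ} (hy : IsAng F cor y) (hz : IsAng F cor z) {t : ℝ}
    (h0 : 0 ≤ t) (h1 : t ≤ 1) : IsAng F cor (fun j => y j + t * (z j - y j)) := by
  constructor
  · intro v
    rw [Finset.sum_add_distrib, ← Finset.mul_sum, Finset.sum_sub_distrib, hy.vert, hz.vert]
    ring
  · intro f hf
    have e : ∀ v k, (if cor v k = f then y (Sum.inr (v, k)) +
        t * (z (Sum.inr (v, k)) - y (Sum.inr (v, k))) else 0) =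
        (if cor v k = f then y (Sum.inr (v, k)) else 0) +
        t * ((if cor v k = f then z (Sum.inr (v, k)) else 0) -
          (if cor v k = f then y (Sum.inr (v, k)) else 0)) := by
      intro v k
      split_ifs <;> ring
    simp only [e, Finset.sum_add_distrib, ← Finset.mul_sum, Finset.sum_sub_distrib]
    rw [hy.face f hf, hz.face f hf]
    ring
  · intro v k hk
    rw [hy.out v k hk, hz.out v k hk]
    ring
  · intro v k
    have h2 := hy.nn v k
    have h3 := hz.nn v k
    have e : y (Sum.inr (v, k)) + t * (z (Sum.inr (v, k)) - y (Sum.inr (v, k))) =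
      (1 - t) * y (Sum.inr (v, k)) + t * z (Sum.inr (v, k)) := by ring
    rw [e]
    have : 0 ≤ 1 - t := by linarith
    positivity
  · intro v k
    have h2 := hy.le v k
    have h3 := hz.le v k
    have e : cz 1 (y (Sum.inl v) + t * (z (Sum.inl v) - y (Sum.inl v))) k =
        (1 - t) * cz 1 (y (Sum.inl v)) k + t * cz 1 (z (Sum.inl v)) k := by
      fin_cases k <;> simp [cz] <;> ring
    rw [e]
    have h4 : 0 ≤ 1 - t := by linarith
    have h5 := mul_le_mul_of_nonneg_left h2 h4
    have h6 := mul_le_mul_of_nonneg_left h3 h0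
    linarith

/-- The sum of the slopes at the vertex `v`. -/
private noncomputable def hb_SV (y z : Vr c → ℝ) (v : Fin c) : ℝ :=
  hb_S (y (Sum.inl v)) (z (Sum.inl v) - y (Sum.inl v)) (fun k => y (Sum.inr (v, k)))
    (fun k => z (Sum.inr (v, k)) - y (Sum.inr (v, k)))

private theorem hb_SV_spec {y z : Vr c → ℝ} (hy : IsAng F cor y) (hz : IsAng F cor z) (v : Fin c) :
    0 ≤ hb_SV y z v ∧ (hb_SV y z v = 0 →
      (y (Sum.inl v) = 1 / 2 → z (Sum.inl v) - y (Sum.inl v) = 0) ∧
      (0 < z (Sum.inl v) → z (Sum.inl v) < 1 → 0 < y (Sum.inl v) ∧ y (Sum.inl v) < 1) ∧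
      (0 < y (Sum.inl v) → y (Sum.inl v) < 1 → ∀ k,
        (0 < z (Sum.inr (v, k)) → 0 < y (Sum.inr (v, k))) ∧
        (z (Sum.inr (v, k)) < cz 1 (z (Sum.inl v)) k →
          y (Sum.inr (v, k)) < cz 1 (y (Sum.inl v)) k))) := by
  have h := hb_S_spec (τ := y (Sum.inl v)) (δ := z (Sum.inl v) - y (Sum.inl v))
    (σ := fun k => y (Sum.inr (v, k))) (d := fun k => z (Sum.inr (v, k)) - y (Sum.inr (v, k)))
    (fun k => hy.nn v k) (fun k => hy.le v k)
    (fun k => by simpa using hz.nn v k) (fun k => by simpa using hz.le v k)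
  simpa only [add_sub_cancel, hb_SV] using h

open Classical in
private theorem hb_total (y z : Vr c → ℝ) :
    (∑ i, if hb_a y i = 0 ∨ hb_a y i = 1 then hb_w c i * hb_b y z i else 0) =
      ∑ v, hb_SV y z v := by
  rw [hb_sum]
  refine Finset.sum_congr rfl fun v _ => ?_
  simp only [hb_w, hb_a, hb_b, Sum.elim_inl, Sum.elim_inr, if_true, if_false, Bool.false_eq_true,
    hb_SV, hb_S]

private theorem hb_main {y z : Vr c → ℝ} (hy : IsAng F cor y) (hz : IsAng F cor z)
    (hmax : ∀ x, IsAng F cor x → volSy x ≤ volSy y) (v : Fin c) : hb_SV y z v = 0 := by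
  by_contra hne
  have hpos : 0 < hb_SV y z v := lt_of_le_of_ne (hb_SV_spec hy hz v).1 (Ne.symm hne)
  have htot : 0 < ∑ v, hb_SV y z v :=
    Finset.sum_pos' (fun v _ => (hb_SV_spec hy hz v).1) ⟨v, Finset.mem_univ v, hpos⟩
  rw [← hb_total] at htot
  have hev : ∀ᶠ t : ℝ in nhdsWithin 0 (Set.Ioi 0), ∀ v : Fin c,
      |y (Sum.inl v) + t * (z (Sum.inl v) - y (Sum.inl v)) - 1 / 2| =
      |y (Sum.inl v) - 1 / 2| + t * hb_sl (y (Sum.inl v)) (z (Sum.inl v) - y (Sum.inl v)) :=
    Filter.eventually_all.mpr fun v => hb_sl_spec _ _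
  obtain ⟨ε, hε, hsub⟩ := (mem_nhdsGT_iff_exists_Ioo_subset).mp hev
  have hε' : (0 : ℝ) < ε := hε
  have ha : ∀ i, 0 ≤ hb_a y i ∧ hb_a y i ≤ 1 := by
    rintro ⟨v, b | ⟨k, b⟩⟩
    · have ht := ang_tau hy v
      have h1 : |y (Sum.inl v) - 1 / 2| ≤ 1 / 2 := abs_le.mpr ⟨by linarith, by linarith⟩
      have h2 := abs_nonneg (y (Sum.inl v) - 1 / 2)
      cases b
      · change 0 ≤ |y (Sum.inl v) - 1 / 2| ∧ |y (Sum.inl v) - 1 / 2| ≤ 1
        exact ⟨h2, by linarith⟩
      · change 0 ≤ 1 / 2 - |y (Sum.inl v) - 1 / 2| ∧ 1 / 2 - |y (Sum.inl v) - 1 / 2| ≤ 1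
        exact ⟨by linarith, by linarith⟩
    · have ht := ang_tau hy v
      have h1 := hy.nn v k
      have h2 := hy.le v k
      have h3 : cz 1 (y (Sum.inl v)) k ≤ 1 := by
        fin_cases k <;> simp [cz] <;> linarith
      cases b <;> simp only [hb_a, Sum.elim_inr, if_true, if_false, Bool.false_eq_true] <;>
        constructor <;> linarith
  obtain ⟨t, ht0, ht1, hlt⟩ := seg_up (hb_w c) (hb_a y) (hb_b y z) ha htot (min ε 1)
    (lt_min hε' one_pos)
  have ht : ∀ v : Fin c, |y (Sum.inl v) + t * (z (Sum.inl v) - y (Sum.inl v)) - 1 / 2| =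
      |y (Sum.inl v) - 1 / 2| + t * hb_sl (y (Sum.inl v)) (z (Sum.inl v) - y (Sum.inl v)) :=
    hsub ⟨ht0, lt_of_lt_of_le ht1 (min_le_left _ _)⟩
  rw [← hb_volS0 y z, ← hb_volS y z t ht] at hlt
  have hle := hmax _ (hb_conv hy hz ht0.le (lt_of_lt_of_le ht1 (min_le_right _ _)).le)
  linarith

theorem intS_of_max (h : IsPrimeT F cor) {y : Vr c → ℝ} (hy : IsAng F cor y)
    (hmax : ∀ x, IsAng F cor x → volSy x ≤ volSy y) :
    IntS F cor y ∧ ∀ v, y (Sum.inl v) ≠ 1 / 2 := by
  obtain ⟨z, hz⟩ := exists_intS h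
  have h1 : ∀ v, 0 < y (Sum.inl v) ∧ y (Sum.inl v) < 1 := fun v =>
    ((hb_SV_spec hy hz.ang v).2 (hb_main hy hz.ang hmax v)).2.1 (hz.gt0 v) (hz.lt1 v)
  have hint : IntS F cor y := by
    refine ⟨hy, fun v => (h1 v).1, fun v => (h1 v).2, fun v k hk he => ?_, fun v k hk he => ?_⟩
    · exact (((hb_SV_spec hy hz.ang v).2 (hb_main hy hz.ang hmax v)).2.2 (h1 v).1 (h1 v).2 k).1
        (hz.pos v k hk he)
    · exact (((hb_SV_spec hy hz.ang v).2 (hb_main hy hz.ang hmax v)).2.2 (h1 v).1 (h1 v).2 k).2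
        (hz.lt v k hk he)
  refine ⟨hint, fun v hv => ?_⟩
  -- an angle vector with `τ v ≠ 1/2`
  obtain ⟨x, hx, hxv⟩ : ∃ x : Vr c → ℝ, IsAng F cor x ∧ x (Sum.inl v) ≠ 1 / 2 := by
    by_cases he : IsEnd F cor v
    · exact exists_end h he
    · have hlt : ∀ k, y (Sum.inr (v, k)) < 1 / 2 := by
        intro k
        by_cases hk : cor v k ∈ F
        · have := hint.lt v k hk he
          have hc : cz 1 (y (Sum.inl v)) k = 1 / 2 := by
            rw [hv]
            fin_cases k <;> simp [cz] <;> norm_num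
          rwa [hc] at this
        · rw [hy.out v k hk]
          norm_num
      set η := min (1 / 2 - y (Sum.inr (v, 0))) (1 / 2 - y (Sum.inr (v, 2))) with hη
      have hη0 : 0 < η := lt_min (by linarith [hlt 0]) (by linarith [hlt 2])
      have hηa : η ≤ 1 / 2 - y (Sum.inr (v, 0)) := min_le_left _ _
      have hηb : η ≤ 1 / 2 - y (Sum.inr (v, 2)) := min_le_right _ _
      refine ⟨Function.update y (Sum.inl v) (1 / 2 + η), ⟨?_, ?_, ?_, ?_, ?_⟩, ?_⟩
      · intro w
        simpa using hy.vert w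
      · intro f hf
        simpa using hy.face f hf
      · intro w k hk
        simpa using hy.out w k hk
      · intro w k
        simpa using hy.nn w k
      · intro w k
        by_cases hw : w = v
        · subst hw
          rw [Function.update_self, Function.update_of_ne (by simp)]
          fin_cases k
          · change y (Sum.inr (w, 0)) ≤ 1 - (1 / 2 + η)
            linarith
          · change y (Sum.inr (w, 1)) ≤ 1 / 2 + η
            linarith [hlt 1]
          · change y (Sum.inr (w, 2)) ≤ 1 - (1 / 2 + η)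
            linarith
          · change y (Sum.inr (w, 3)) ≤ 1 / 2 + η
            linarith [hlt 3]
        · have hw' : (Sum.inl w : Vr c) ≠ Sum.inl v := fun e => hw (Sum.inl.inj e)
          rw [Function.update_of_ne hw', Function.update_of_ne (by simp)]
          exact hy.le w k
      · rw [Function.update_self]
        linarith
  have h2 := ((hb_SV_spec hy hx v).2 (hb_main hy hx hmax v)).1 hv
  exact hxv (by linarith)

end Pool.Agent.H63.CLK
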