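import Pool.Agent.H63.CLK.H_Def

set_option autoImplicit false

/-!
# CLK part H, H_Flip: angles under rotation

All by unfolding. `cz 1 (1 - τ) k = cz 1 τ (k - 1)` for all `k : Fin 4` (`fin_cases k`), sums over `k`
are invariant under `k ↦ k - 1` (`Equiv.subRight 1`, `Fintype.sum_equiv`), `ρ a ∈ F.image ρ ↔ a ∈ F`
and `ρ a = ρ b ↔ a = b` by injectivity.
-/

namespace Pool.Agent.H63.CLK

variable {c : ℕ} {F : Finset ℕ} {cor : Fin c → Fin 4 → ℕ} {ρ : ℕ → ℕ}

/-- The index of the corner of a rotated twist region. -/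
def H_Flip_sh (b : Bool) (k : Fin 4) : Fin 4 := if b then k - 1 else k

theorem H_Flip_sh_surj (b : Bool) (k : Fin 4) : ∃ l, H_Flip_sh b l = k := by
  cases b
  · exact ⟨k, rfl⟩
  · exact ⟨k + 1, by simp [H_Flip_sh]⟩

theorem H_Flip_sh_succ (b : Bool) (k : Fin 4) : H_Flip_sh b (k + 1) = H_Flip_sh b k + 1 := by
  cases b
  · rfl
  · simp [H_Flip_sh]

theorem H_Flip_sh_sum {M : Type*} [AddCommMonoid M] (b : Bool) (f : Fin 4 → M) :
    ∑ k, f (H_Flip_sh b k) = ∑ k, f k := by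
  cases b
  · rfl
  · simp only [H_Flip_sh, if_true]
    exact Fintype.sum_equiv (Equiv.subRight 1) _ _ (fun k => rfl)

theorem H_Flip_fcor (B : Fin c → Bool) (v : Fin c) (k : Fin 4) :
    rotcor ρ B cor v k = ρ (cor v (H_Flip_sh (B v) k)) := rfl

theorem H_Flip_inr (B : Fin c → Bool) (x : Vr c → ℝ) (v : Fin c) (k : Fin 4) :
    rotx B x (Sum.inr (v, k)) = x (Sum.inr (v, H_Flip_sh (B v) k)) := by
  simp only [rotx, H_Flip_sh]
  split_ifs <;> rfl

theorem H_Flip_cz (B : Fin c → Bool) (x : Vr c → ℝ) (v : Fin c) (k : Fin 4) :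
    cz 1 (rotx B x (Sum.inl v)) k = cz 1 (x (Sum.inl v)) (H_Flip_sh (B v) k) := by
  simp only [rotx, H_Flip_sh]
  split_ifs
  · fin_cases k <;> simp [cz]
  · rfl

theorem H_Flip_mem (hρ : Function.Injective ρ) (B : Fin c → Bool) (v : Fin c) (k : Fin 4) :
    rotcor ρ B cor v k ∈ F.image ρ ↔ cor v (H_Flip_sh (B v) k) ∈ F := by
  rw [H_Flip_fcor]
  exact hρ.mem_finset_image

/-- A statement about all corners of the rotated twist region. -/
theorem H_Flip_all (b : Bool) (P : Fin 4 → Prop) : (∀ k, P (H_Flip_sh b k)) ↔ ∀ k, P k := by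
  constructor
  · intro h k
    obtain ⟨l, rfl⟩ := H_Flip_sh_surj b k
    exact h l
  · intro h k
    exact h _

theorem flp_isEnd (hρ : Function.Injective ρ) (B : Fin c → Bool) (v : Fin c) :
    IsEnd (F.image ρ) (rotcor ρ B cor) v ↔ IsEnd F cor v := by
  simp only [IsEnd, H_Flip_mem hρ, H_Flip_sh_succ]
  constructor
  · rintro ⟨k, hk⟩
    exact ⟨_, hk⟩
  · rintro ⟨k, hk⟩
    obtain ⟨l, rfl⟩ := H_Flip_sh_surj (B v) k
    exact ⟨l, hk⟩

theorem flp_isAng (hρ : Function.Injective ρ) (B : Fin c → Bool) (x : Vr c → ℝ) :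
    IsAng (F.image ρ) (rotcor ρ B cor) (rotx B x) ↔ IsAng F cor x := by
  have hvert : (∀ v, ∑ k, rotx B x (Sum.inr (v, k)) = 1) ↔ ∀ v, ∑ k, x (Sum.inr (v, k)) = 1 := by
    refine forall_congr' fun v => ?_
    simp only [H_Flip_inr]
    rw [H_Flip_sh_sum (B v) (fun k => x (Sum.inr (v, k)))]
  have hface : (∀ f ∈ F.image ρ, ∑ v, ∑ k, (if rotcor ρ B cor v k = f then rotx B x (Sum.inr (v, k))
      else 0) = 1) ↔ ∀ f ∈ F, ∑ v, ∑ k, (if cor v k = f then x (Sum.inr (v, k)) else 0) = 1 := by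
    rw [Finset.forall_mem_image]
    refine forall₂_congr fun f _ => ?_
    have : ∀ v, ∑ k, (if rotcor ρ B cor v k = ρ f then rotx B x (Sum.inr (v, k)) else 0) =
        ∑ k, (if cor v k = f then x (Sum.inr (v, k)) else 0) := by
      intro v
      rw [← H_Flip_sh_sum (B v) (fun k => if cor v k = f then x (Sum.inr (v, k)) else 0)]
      refine Finset.sum_congr rfl fun k _ => ?_
      rw [H_Flip_fcor, H_Flip_inr]
      simp only [hρ.eq_iff]
    simp only [this]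
  have hout : (∀ v k, rotcor ρ B cor v k ∉ F.image ρ → rotx B x (Sum.inr (v, k)) = 0) ↔
      ∀ v k, cor v k ∉ F → x (Sum.inr (v, k)) = 0 := by
    refine forall_congr' fun v => ?_
    simp only [H_Flip_mem hρ, H_Flip_inr]
    exact H_Flip_all (B v) (fun k => cor v k ∉ F → x (Sum.inr (v, k)) = 0)
  have hnn : (∀ v k, 0 ≤ rotx B x (Sum.inr (v, k))) ↔ ∀ v k, 0 ≤ x (Sum.inr (v, k)) := by
    refine forall_congr' fun v => ?_
    simp only [H_Flip_inr]
    exact H_Flip_all (B v) (fun k => 0 ≤ x (Sum.inr (v, k)))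
  have hle : (∀ v k, rotx B x (Sum.inr (v, k)) ≤ cz 1 (rotx B x (Sum.inl v)) k) ↔
      ∀ v k, x (Sum.inr (v, k)) ≤ cz 1 (x (Sum.inl v)) k := by
    refine forall_congr' fun v => ?_
    simp only [H_Flip_inr, H_Flip_cz]
    exact H_Flip_all (B v) (fun k => x (Sum.inr (v, k)) ≤ cz 1 (x (Sum.inl v)) k)
  constructor
  · intro h
    exact ⟨hvert.mp h.vert, hface.mp h.face, hout.mp h.out, hnn.mp h.nn, hle.mp h.le⟩
  · intro h
    exact ⟨hvert.mpr h.vert, hface.mpr h.face, hout.mpr h.out, hnn.mpr h.nn, hle.mpr h.le⟩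

/-- Every vector is rotated from another one (rotate back: three more rotations for `σ`). -/
theorem flp_surj (B : Fin c → Bool) (y : Vr c → ℝ) : ∃ x : Vr c → ℝ, rotx B x = y := by
  refine ⟨Sum.elim (fun v => if B v then 1 - y (Sum.inl v) else y (Sum.inl v))
    (fun p => if B p.1 then y (Sum.inr (p.1, p.2 + 1)) else y (Sum.inr p)), ?_⟩
  funext j
  rcases j with v | ⟨v, k⟩
  · by_cases hb : B v = true
    · simp [rotx, hb]
    · simp [rotx, hb]
  · by_cases hb : B v = true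
    · simp [rotx, hb]
    · simp [rotx, hb]

theorem flp_volS (B : Fin c → Bool) (x : Vr c → ℝ) : volSy (rotx B x) = volSy x := by
  unfold volSy
  refine Finset.sum_congr rfl fun v _ => ?_
  have habs : |rotx B x (Sum.inl v) - 1 / 2| = |x (Sum.inl v) - 1 / 2| := by
    simp only [rotx]
    split_ifs
    · rw [abs_sub_comm]
      congr 1
      ring
    · rfl
  rw [habs]
  congr 1
  simp only [H_Flip_inr, H_Flip_cz]
  exact H_Flip_sh_sum (B v) (fun k => 2 * (Pool.Agent.H63.VC.lob (Real.pi * x (Sum.inr (v, k))) +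
      Pool.Agent.H63.VC.lob (Real.pi * (cz 1 (x (Sum.inl v)) k - x (Sum.inr (v, k))))))

theorem H_Flip_pos (hρ : Function.Injective ρ) (B : Fin c → Bool) (x : Vr c → ℝ) :
    (∀ v k, rotcor ρ B cor v k ∈ F.image ρ → ¬ IsEnd (F.image ρ) (rotcor ρ B cor) v →
      0 < rotx B x (Sum.inr (v, k))) ↔
    ∀ v k, cor v k ∈ F → ¬ IsEnd F cor v → 0 < x (Sum.inr (v, k)) := by
  refine forall_congr' fun v => ?_
  simp only [H_Flip_mem hρ, H_Flip_inr, flp_isEnd hρ]
  exact H_Flip_all (B v) (fun k => cor v k ∈ F → ¬ IsEnd F cor v → 0 < x (Sum.inr (v, k)))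

theorem H_Flip_lt (hρ : Function.Injective ρ) (B : Fin c → Bool) (x : Vr c → ℝ) :
    (∀ v k, rotcor ρ B cor v k ∈ F.image ρ → ¬ IsEnd (F.image ρ) (rotcor ρ B cor) v →
      rotx B x (Sum.inr (v, k)) < cz 1 (rotx B x (Sum.inl v)) k) ↔
    ∀ v k, cor v k ∈ F → ¬ IsEnd F cor v → x (Sum.inr (v, k)) < cz 1 (x (Sum.inl v)) k := by
  refine forall_congr' fun v => ?_
  simp only [H_Flip_mem hρ, H_Flip_inr, H_Flip_cz, flp_isEnd hρ]
  exact H_Flip_all (B v)
    (fun k => cor v k ∈ F → ¬ IsEnd F cor v → x (Sum.inr (v, k)) < cz 1 (x (Sum.inl v)) k)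

theorem H_Flip_gl (B : Fin c → Bool) (x : Vr c → ℝ) (v : Fin c) :
    (0 < rotx B x (Sum.inl v) ∧ rotx B x (Sum.inl v) < 1) ↔
      (0 < x (Sum.inl v) ∧ x (Sum.inl v) < 1) := by
  simp only [rotx]
  split_ifs
  · constructor
    · rintro ⟨h1, h2⟩
      exact ⟨by linarith, by linarith⟩
    · rintro ⟨h1, h2⟩
      exact ⟨by linarith, by linarith⟩
  · exact Iff.rfl

theorem flp_isInt (hρ : Function.Injective ρ) {x : Vr c → ℝ} (h : IntS F cor x)
    (h2 : ∀ v, x (Sum.inl v) ≠ 1 / 2) :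
    IsInt (F.image ρ) (rotcor ρ (fun v => decide (x (Sum.inl v) < 1 / 2)) cor)
      (rotx (fun v => decide (x (Sum.inl v) < 1 / 2)) x) := by
  refine ⟨(flp_isAng hρ _ x).mpr h.ang, fun v => ?_, fun v => ?_, (H_Flip_pos hρ _ x).mpr h.pos,
    (H_Flip_lt hρ _ x).mpr h.lt⟩
  · simp only [rotx, decide_eq_true_eq]
    split_ifs with hv
    · linarith
    · exact lt_of_le_of_ne (not_lt.mp hv) (Ne.symm (h2 v))
  · exact ((H_Flip_gl _ x v).mpr ⟨h.gt0 v, h.lt1 v⟩).2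

/-- The converse: rotating back an interior point of the near region. -/
theorem intS_of_flp (hρ : Function.Injective ρ) (B : Fin c → Bool) {x : Vr c → ℝ}
    (h : IntS (F.image ρ) (rotcor ρ B cor) (rotx B x)) : IntS F cor x :=
  ⟨(flp_isAng hρ B x).mp h.ang, fun v => ((H_Flip_gl B x v).mp ⟨h.gt0 v, h.lt1 v⟩).1,
    fun v => ((H_Flip_gl B x v).mp ⟨h.gt0 v, h.lt1 v⟩).2, (H_Flip_pos hρ B x).mp h.pos,
    (H_Flip_lt hρ B x).mp h.lt⟩

theorem flp_intS (hρ : Function.Injective ρ) (B : Fin c → Bool) {x : Vr c → ℝ}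
    (h : IntS F cor x) : IntS (F.image ρ) (rotcor ρ B cor) (rotx B x) :=
  ⟨(flp_isAng hρ B x).mpr h.ang, fun v => ((H_Flip_gl B x v).mpr ⟨h.gt0 v, h.lt1 v⟩).1,
    fun v => ((H_Flip_gl B x v).mpr ⟨h.gt0 v, h.lt1 v⟩).2, (H_Flip_pos hρ B x).mpr h.pos,
    (H_Flip_lt hρ B x).mpr h.lt⟩

end Pool.Agent.H63.CLK
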