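import Pool.Agent.H63.CLK.G_Defs

/-!
# The volume of an ideal tetrahedron lies below its tangent planes

Proof: put `f t = vT (s0 + t (s - s0)) (r0 + t (r - r0))`. It is continuous on `[0, 1]`
(`volA_lob_continuous`), and for `0 ≤ t < 1` the angles `σ = s0 + t (s - s0)`, `ρ = r0 + t (r - r0)`,
`π - σ - ρ` are positive, so `volA_lob_hasDerivAt` gives
`f' t = (s - s0) (log sin (σ + ρ) - log sin σ) + (r - r0) (log sin (σ + ρ) - log sin ρ)`
(the logarithms of `2` cancel). Its derivative is `cot (σ + ρ) (x + y)^2 - cot σ x^2 - cot ρ y^2` with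
`x = s - s0`, `y = r - r0`; with `p = cot σ`, `q = cot ρ`, `p + q > 0` it is
`-((p x - q y)^2 + (x + y)^2) / (p + q)`, negative unless `x = y = 0`. So `f'` is strictly decreasing
on `[0, 1)` and `f 1 - f 0 = f' c < f' 0` for some `0 < c < 1` (mean value theorem).
-/

set_option autoImplicit false

namespace Pool.Agent.H63.CLK

open Pool.Agent.H63.VC hiding ext
open Pool.Agent.H63.VC7 Real
open scoped BigOperators

private theorem G_Tan_neg {x y s1 c1 s2 c2 : ℝ} (h1 : 0 < s1) (h2 : 0 < s2)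
    (h3 : 0 < s1 * c2 + c1 * s2) (hxy : x ≠ 0 ∨ y ≠ 0) :
    (x + y) * ((x + y) * (c1 * c2 - s1 * s2) / (s1 * c2 + c1 * s2)) - x * (x * c1 / s1) -
      y * (y * c2 / s2) < 0 := by
  have key : (x + y) * ((x + y) * (c1 * c2 - s1 * s2) / (s1 * c2 + c1 * s2)) - x * (x * c1 / s1) -
      y * (y * c2 / s2) = -((x * c1 * s2 - y * c2 * s1) ^ 2 + ((x + y) * (s1 * s2)) ^ 2) /
        ((s1 * c2 + c1 * s2) * s1 * s2) := by
    have e1 := h1.ne'
    have e2 := h2.ne'
    have e3 := h3.ne'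
    obtain ⟨S, hS⟩ : ∃ S, S = s1 * c2 + c1 * s2 := ⟨_, rfl⟩
    rw [← hS] at e3 ⊢
    field_simp
    rw [hS]
    ring
  rw [key, neg_div, neg_lt_zero]
  refine div_pos ?_ (by positivity)
  by_contra hcon
  have hq : (x * c1 * s2 - y * c2 * s1) ^ 2 + ((x + y) * (s1 * s2)) ^ 2 = 0 :=
    le_antisymm (not_lt.1 hcon) (by positivity)
  have ha : (x * c1 * s2 - y * c2 * s1) ^ 2 = 0 := by
    nlinarith [sq_nonneg (x * c1 * s2 - y * c2 * s1), sq_nonneg ((x + y) * (s1 * s2))]
  have hb : ((x + y) * (s1 * s2)) ^ 2 = 0 := by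
    nlinarith [sq_nonneg (x * c1 * s2 - y * c2 * s1), sq_nonneg ((x + y) * (s1 * s2))]
  have ha' : x * c1 * s2 - y * c2 * s1 = 0 := by simpa using ha
  have hb' : (x + y) * (s1 * s2) = 0 := by simpa using hb
  have hb2 : x + y = 0 := by
    rcases mul_eq_zero.1 hb' with h | h
    · exact h
    · exact absurd h (mul_pos h1 h2).ne'
  have hy : y = -x := by linarith
  have hx : x * (s1 * c2 + c1 * s2) = 0 := by rw [hy] at ha'; linarith
  have hx0 : x = 0 := by
    rcases mul_eq_zero.1 hx with h | h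
    · exact h
    · exact absurd h h3.ne'
  have hy0 : y = 0 := by rw [hy, hx0, neg_zero]
  rcases hxy with h | h
  · exact h hx0
  · exact h hy0

private theorem G_Tan_logsin {u u' : ℝ} {f : ℝ → ℝ} {t : ℝ} (hf : HasDerivAt f u' t)
    (hu : f t = u) (hs : 0 < sin u) :
    HasDerivAt (fun t => log (sin (f t))) (u' * cos u / sin u) t := by
  have h1 : HasDerivAt (fun t => sin (f t)) (cos (f t) * u') t := hf.sin
  have h2 := h1.log (by rw [hu]; exact hs.ne')
  rw [hu] at h2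
  convert h2 using 1
  rw [mul_comm]

private theorem G_Tan_lob {u u' : ℝ} {f : ℝ → ℝ} {t : ℝ} (hf : HasDerivAt f u' t)
    (hu : f t = u) (hs : 0 < sin u) :
    HasDerivAt (fun t => lob (f t)) (-(log 2 + log (sin u)) * u') t := by
  have h1 := volA_lob_hasDerivAt u hs.ne'
  have h2 : log |2 * sin u| = log 2 + log (sin u) := by
    rw [abs_of_pos (by positivity), log_mul (by norm_num) hs.ne']
  rw [h2] at h1
  subst hu
  exact h1.comp t hf

theorem vT_lt {s0 r0 s r : ℝ} (hs0 : 0 < s0) (hr0 : 0 < r0) (h0 : s0 + r0 < π) (hs : 0 ≤ s)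
    (hr : 0 ≤ r) (h : s + r ≤ π) (hne : s ≠ s0 ∨ r ≠ r0) :
    vT s r < vT s0 r0 + (s - s0) * (log (sin (s0 + r0)) - log (sin s0)) +
      (r - r0) * (log (sin (s0 + r0)) - log (sin r0)) := by
  set x : ℝ := s - s0 with hx
  set y : ℝ := r - r0 with hy
  have hxy : x ≠ 0 ∨ y ≠ 0 := by
    rcases hne with h1 | h1
    · exact Or.inl (sub_ne_zero.2 h1)
    · exact Or.inr (sub_ne_zero.2 h1)
  have hpos : ∀ t : ℝ, 0 ≤ t → t < 1 →
      0 < s0 + t * x ∧ 0 < r0 + t * y ∧ (s0 + t * x) + (r0 + t * y) < π := by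
    intro t ht0 ht1
    have e1 : s0 + t * x = (1 - t) * s0 + t * s := by rw [hx]; ring
    have e2 : r0 + t * y = (1 - t) * r0 + t * r := by rw [hy]; ring
    have q1 : 0 < (1 - t) * s0 := mul_pos (by linarith) hs0
    have q2 : 0 < (1 - t) * r0 := mul_pos (by linarith) hr0
    have q3 : 0 ≤ t * s := mul_nonneg ht0 hs
    have q4 : 0 ≤ t * r := mul_nonneg ht0 hr
    have q5 : (1 - t) * (s0 + r0) < (1 - t) * π := mul_lt_mul_of_pos_left h0 (by linarith)
    have q6 : t * (s + r) ≤ t * π := mul_le_mul_of_nonneg_left h ht0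
    refine ⟨by rw [e1]; linarith, by rw [e2]; linarith, ?_⟩
    rw [e1, e2]
    nlinarith
  have hsin : ∀ t : ℝ, 0 ≤ t → t < 1 →
      0 < sin (s0 + t * x) ∧ 0 < sin (r0 + t * y) ∧ 0 < sin ((s0 + t * x) + (r0 + t * y)) := by
    intro t ht0 ht1
    obtain ⟨p1, p2, p3⟩ := hpos t ht0 ht1
    exact ⟨sin_pos_of_pos_of_lt_pi p1 (by linarith), sin_pos_of_pos_of_lt_pi p2 (by linarith),
      sin_pos_of_pos_of_lt_pi (by linarith) p3⟩
  have d1 : ∀ t : ℝ, HasDerivAt (fun t : ℝ => s0 + t * x) x t := by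
    intro t
    simpa using ((hasDerivAt_id t).mul_const x).const_add s0
  have d2 : ∀ t : ℝ, HasDerivAt (fun t : ℝ => r0 + t * y) y t := by
    intro t
    simpa using ((hasDerivAt_id t).mul_const y).const_add r0
  have d3 : ∀ t : ℝ, HasDerivAt (fun t : ℝ => (s0 + t * x) + (r0 + t * y)) (x + y) t := by
    intro t
    exact (d1 t).add (d2 t)
  set g : ℝ → ℝ := fun t => x * (log (sin ((s0 + t * x) + (r0 + t * y))) - log (sin (s0 + t * x))) +
    y * (log (sin ((s0 + t * x) + (r0 + t * y))) - log (sin (r0 + t * y))) with hg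
  have hgd : ∀ t : ℝ, 0 ≤ t → t < 1 → HasDerivAt g
      ((x + y) * ((x + y) * (cos (s0 + t * x) * cos (r0 + t * y) -
        sin (s0 + t * x) * sin (r0 + t * y)) / (sin (s0 + t * x) * cos (r0 + t * y) +
        cos (s0 + t * x) * sin (r0 + t * y))) - x * (x * cos (s0 + t * x) / sin (s0 + t * x)) -
        y * (y * cos (r0 + t * y) / sin (r0 + t * y))) t := by
    intro t ht0 ht1
    obtain ⟨p1, p2, p3⟩ := hsin t ht0 ht1
    have a1 := G_Tan_logsin (d1 t) rfl p1
    have a2 := G_Tan_logsin (d2 t) rfl p2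
    have a3 := G_Tan_logsin (d3 t) rfl p3
    have a4 := ((a3.sub a1).const_mul x).add ((a3.sub a2).const_mul y)
    have a5 : HasDerivAt g (x * ((x + y) * cos ((s0 + t * x) + (r0 + t * y)) /
        sin ((s0 + t * x) + (r0 + t * y)) - x * cos (s0 + t * x) / sin (s0 + t * x)) +
        y * ((x + y) * cos ((s0 + t * x) + (r0 + t * y)) /
        sin ((s0 + t * x) + (r0 + t * y)) - y * cos (r0 + t * y) / sin (r0 + t * y))) t := a4
    convert a5 using 1
    rw [cos_add (s0 + t * x), sin_add (s0 + t * x)]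
    ring
  have hgneg : ∀ t : ℝ, 0 ≤ t → t < 1 →
      ((x + y) * ((x + y) * (cos (s0 + t * x) * cos (r0 + t * y) -
        sin (s0 + t * x) * sin (r0 + t * y)) / (sin (s0 + t * x) * cos (r0 + t * y) +
        cos (s0 + t * x) * sin (r0 + t * y))) - x * (x * cos (s0 + t * x) / sin (s0 + t * x)) -
        y * (y * cos (r0 + t * y) / sin (r0 + t * y))) < 0 := by
    intro t ht0 ht1
    obtain ⟨p1, p2, p3⟩ := hsin t ht0 ht1
    rw [sin_add] at p3
    exact G_Tan_neg p1 p2 p3 hxy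
  have hfc : Continuous (fun t : ℝ => vT (s0 + t * x) (r0 + t * y)) := by
    unfold vT
    have c1 : Continuous (fun t : ℝ => s0 + t * x) := by fun_prop
    have c2 : Continuous (fun t : ℝ => r0 + t * y) := by fun_prop
    exact ((volA_lob_continuous.comp c1).add (volA_lob_continuous.comp c2)).sub
      (volA_lob_continuous.comp (c1.add c2))
  have hfd : ∀ t : ℝ, 0 ≤ t → t < 1 →
      HasDerivAt (fun t : ℝ => vT (s0 + t * x) (r0 + t * y)) (g t) t := by
    intro t ht0 ht1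
    obtain ⟨p1, p2, p3⟩ := hsin t ht0 ht1
    have a1 := G_Tan_lob (d1 t) rfl p1
    have a2 := G_Tan_lob (d2 t) rfl p2
    have a3 := G_Tan_lob (d3 t) rfl p3
    have a4 : HasDerivAt (fun t : ℝ => vT (s0 + t * x) (r0 + t * y)) _ t := (a1.add a2).sub a3
    convert a4 using 1
    rw [hg]
    ring
  obtain ⟨c, ⟨hc0, hc1⟩, hc⟩ := exists_hasDerivAt_eq_slope
    (fun t : ℝ => vT (s0 + t * x) (r0 + t * y)) g (zero_lt_one) hfc.continuousOn
    (fun t ht => hfd t ht.1.le ht.2)
  have hgc : ContinuousOn g (Set.Icc 0 c) := fun t ht =>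
    (hgd t ht.1 (lt_of_le_of_lt ht.2 hc1)).continuousAt.continuousWithinAt
  obtain ⟨d, ⟨hd0, hd1⟩, hd⟩ := exists_hasDerivAt_eq_slope g _ hc0 hgc
    (fun t ht => hgd t ht.1.le (lt_trans ht.2 hc1))
  have hneg := hgneg d hd0.le (lt_trans hd1 hc1)
  rw [hd] at hneg
  have hgc2 : g c < g 0 := by
    have : (g c - g 0) / (c - 0) < 0 := hneg
    rw [div_neg_iff] at this
    rcases this with ⟨_, h2⟩ | ⟨h1, _⟩
    · linarith
    · linarith
  have e1 : vT (s0 + 1 * x) (r0 + 1 * y) = vT s r := by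
    congr 1
    · rw [hx]; ring
    · rw [hy]; ring
  have e0 : vT (s0 + 0 * x) (r0 + 0 * y) = vT s0 r0 := by
    congr 1
    · ring
    · ring
  have eg : g 0 = x * (log (sin (s0 + r0)) - log (sin s0)) +
      y * (log (sin (s0 + r0)) - log (sin r0)) := by
    rw [hg]
    simp
  have hc' : g c = vT s r - vT s0 r0 := by
    rw [hc, ← e1, ← e0]
    simp
  rw [eg, hc'] at hgc2
  linarith

theorem vT_le {s0 r0 s r : ℝ} (hs0 : 0 < s0) (hr0 : 0 < r0) (h0 : s0 + r0 < π) (hs : 0 ≤ s)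
    (hr : 0 ≤ r) (h : s + r ≤ π) :
    vT s r ≤ vT s0 r0 + (s - s0) * (log (sin (s0 + r0)) - log (sin s0)) +
      (r - r0) * (log (sin (s0 + r0)) - log (sin r0)) := by
  by_cases hne : s ≠ s0 ∨ r ≠ r0
  · exact (vT_lt hs0 hr0 h0 hs hr h hne).le
  · push Not at hne
    rw [hne.1, hne.2]
    simp

theorem lob_pi_sub (x : ℝ) : lob (π - x) = -lob x := by
  rw [show π - x = -x + π by ring, volA_lob_add_pi, volA_lob_neg]

theorem lob_pi_div_two : lob (π / 2) = 0 := by
  have h := lob_pi_sub (π / 2)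
  rw [show π - π / 2 = π / 2 by ring] at h
  linarith

theorem vT_zero_left (r : ℝ) : vT 0 r = 0 := by
  unfold vT
  rw [volA_lob_zero, zero_add, zero_add, sub_self]

theorem vT_zero_right (s : ℝ) : vT s 0 = 0 := by
  unfold vT
  rw [volA_lob_zero, add_zero, add_zero, sub_self]

theorem vE_eq (a : ℝ) : vE a = 4 * vT a (π / 2 - a) := by
  unfold vE vT
  rw [show a + (π / 2 - a) = π / 2 by ring, lob_pi_div_two, sub_zero]

theorem Bv_eq (a : ℝ) (s : Fin 4 → ℝ) : Bv a s = 2 * ∑ k, vT (s k) (ca a k - s k) := by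
  have hz : ∀ k, lob (ca a k) = ![lob a, -lob a, lob a, -lob a] k := by
    intro k
    fin_cases k
    · simp [ca]
    · simpa [ca] using lob_pi_sub a
    · simp [ca]
    · simpa [ca] using lob_pi_sub a
  have hsum : ∑ k, lob (ca a k) = 0 := by
    rw [Finset.sum_congr rfl (fun k _ => hz k)]
    simp [Fin.sum_univ_four]
  unfold Bv vT
  have h1 : ∀ k, lob (s k) + lob (ca a k - s k) - lob (s k + (ca a k - s k)) =
      lob (s k) + lob (ca a k - s k) - lob (ca a k) := by
    intro k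
    rw [show s k + (ca a k - s k) = ca a k by ring]
  rw [Finset.sum_congr rfl (fun k _ => h1 k), Finset.sum_sub_distrib, hsum, sub_zero,
    Finset.mul_sum]

end Pool.Agent.H63.CLK
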