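import Pool.Agent.H63.CLK.H_Def
import Pool.Agent.H63.CLK.G_Tan
import Pool.Agent.H63.CLK.C_Poly

set_option autoImplicit false

/-!
# CLK part H, H_Uni (helper93): strict concavity of the volume function

The volume of an ideal tetrahedron lies below its tangent planes (`vT_lt`), applied at the midpoint.
-/

namespace Pool.Agent.H63.CLK

open Pool.Agent.H63.VC hiding ext
open Pool.Agent.H63.VC7 Real
open scoped BigOperators

variable {c : ℕ} {F : Finset ℕ} {cor : Fin c → Fin 4 → ℕ}

private theorem H_Uni_vT_lt {s r s' r' : ℝ} (hs : 0 < s) (hr : 0 < r) (h : s + r < π)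
    (hs' : 0 < s') (hr' : 0 < r') (h' : s' + r' < π) (hne : s ≠ s' ∨ r ≠ r') :
    vT s r + vT s' r' < 2 * vT ((s + s') / 2) ((r + r') / 2) := by
  have h1 := vT_lt (s0 := (s + s') / 2) (r0 := (r + r') / 2) (s := s) (r := r) (by linarith)
    (by linarith) (by linarith) hs.le hr.le h.le (by
      rcases hne with h0 | h0
      · exact Or.inl fun he => h0 (by linarith)
      · exact Or.inr fun he => h0 (by linarith))
  have h2 := vT_le (s0 := (s + s') / 2) (r0 := (r + r') / 2) (s := s') (r := r') (by linarith)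
    (by linarith) (by linarith) hs'.le hr'.le h'.le
  nlinarith [h1, h2]

private theorem H_Uni_vT_le {s r s' r' : ℝ} (hs : 0 < s) (hr : 0 < r) (h : s + r < π)
    (hs' : 0 < s') (hr' : 0 < r') (h' : s' + r' < π) :
    vT s r + vT s' r' ≤ 2 * vT ((s + s') / 2) ((r + r') / 2) := by
  by_cases hne : s ≠ s' ∨ r ≠ r'
  · exact (H_Uni_vT_lt hs hr h hs' hr' h' hne).le
  · push Not at hne
    rw [← hne.1, ← hne.2]
    apply le_of_eq
    rw [show (s + s) / 2 = s by ring, show (r + r) / 2 = r by ring]
    ring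

/-- The terms of a vertex. -/
private noncomputable def H_Uni_T (x : Vr c → ℝ) (v : Fin c) : ℝ :=
  4 * vT (π * (1 - x (Sum.inl v))) (π / 2 - π * (1 - x (Sum.inl v))) +
    2 * ∑ k, vT (π * x (Sum.inr (v, k)))
      (ca (π * (1 - x (Sum.inl v))) k - π * x (Sum.inr (v, k)))

private theorem H_Uni_vol {x : Vr c → ℝ} (hx : ∀ v, 1 / 2 ≤ x (Sum.inl v)) :
    volF x = ∑ v, H_Uni_T x v := by
  rw [volF]
  refine Finset.sum_congr rfl fun v _ => ?_
  rw [if_pos (hx v), H_Uni_T, ← vE_eq]
  have hB := Bv_eq (π * (1 - x (Sum.inl v))) (fun k => π * x (Sum.inr (v, k)))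
  rw [← hB, vE, Bv]
  have e1 : lob (π * x (Sum.inl v)) = -lob (π * (1 - x (Sum.inl v))) := by
    rw [← lob_pi_sub]
    congr 1
    ring
  have e2 : π * x (Sum.inl v) - π / 2 = π / 2 - π * (1 - x (Sum.inl v)) := by ring
  rw [e1, e2]
  congr 1
  · ring
  · refine Finset.sum_congr rfl fun k _ => ?_
    have e3 : π * (cz 1 (x (Sum.inl v)) k - x (Sum.inr (v, k))) =
        ca (π * (1 - x (Sum.inl v))) k - π * x (Sum.inr (v, k)) := by
      fin_cases k <;> simp [cz, ca] <;> ring
    rw [e3]

private theorem H_Uni_ca_pos {t : ℝ} (h : 1 / 2 < t) (h1 : t < 1) (k : Fin 4) :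
    0 < ca (π * (1 - t)) k ∧ ca (π * (1 - t)) k < π := by
  have hp := pi_pos
  fin_cases k <;> simp [ca] <;> constructor <;> nlinarith

private theorem H_Uni_ca_mid (t t' : ℝ) (k : Fin 4) :
    ca (π * (1 - (t + t') / 2)) k = (ca (π * (1 - t)) k + ca (π * (1 - t')) k) / 2 := by
  fin_cases k <;> simp [ca] <;> ring

private theorem H_Uni_ca_cz (t : ℝ) (k : Fin 4) : ca (π * (1 - t)) k = π * cz 1 t k := by
  fin_cases k <;> simp [cz, ca] <;> ring

theorem volF_mid {x y : Vr c → ℝ} (hx : IsInt F cor x) (hy : IsInt F cor y) (hne : x ≠ y) :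
    volF x + volF y < 2 * volF (fun j => (x j + y j) / 2) := by
  classical
  have hp := pi_pos
  set m : Vr c → ℝ := fun j => (x j + y j) / 2 with hm
  rw [H_Uni_vol fun v => (hx.half v).le, H_Uni_vol fun v => (hy.half v).le,
    H_Uni_vol (x := m) fun v => by have := hx.half v; have := hy.half v; simp only [hm]; linarith]
  rw [← Finset.sum_add_distrib, Finset.mul_sum]
  -- the twist terms
  have hE : ∀ v, vT (π * (1 - x (Sum.inl v))) (π / 2 - π * (1 - x (Sum.inl v))) +
      vT (π * (1 - y (Sum.inl v))) (π / 2 - π * (1 - y (Sum.inl v))) ≤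
      2 * vT (π * (1 - m (Sum.inl v))) (π / 2 - π * (1 - m (Sum.inl v))) ∧
      (x (Sum.inl v) ≠ y (Sum.inl v) →
        vT (π * (1 - x (Sum.inl v))) (π / 2 - π * (1 - x (Sum.inl v))) +
      vT (π * (1 - y (Sum.inl v))) (π / 2 - π * (1 - y (Sum.inl v))) <
      2 * vT (π * (1 - m (Sum.inl v))) (π / 2 - π * (1 - m (Sum.inl v)))) := by
    intro v
    have a1 := hx.half v
    have a2 := hx.lt1 v
    have b1 := hy.half v
    have b2 := hy.lt1 v
    have e1 : π * (1 - m (Sum.inl v)) =
        (π * (1 - x (Sum.inl v)) + π * (1 - y (Sum.inl v))) / 2 := by simp only [hm]; ring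
    have e2 : π / 2 - π * (1 - m (Sum.inl v)) = ((π / 2 - π * (1 - x (Sum.inl v))) +
        (π / 2 - π * (1 - y (Sum.inl v)))) / 2 := by simp only [hm]; ring
    rw [e2, e1]
    constructor
    · apply H_Uni_vT_le <;> nlinarith
    · intro hxy
      apply H_Uni_vT_lt <;> first | nlinarith | skip
      left
      intro h
      apply hxy
      have := mul_left_cancel₀ hp.ne' h
      linarith
  -- the corners
  have hC : ∀ v k, vT (π * x (Sum.inr (v, k))) (ca (π * (1 - x (Sum.inl v))) k -
        π * x (Sum.inr (v, k))) +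
      vT (π * y (Sum.inr (v, k))) (ca (π * (1 - y (Sum.inl v))) k - π * y (Sum.inr (v, k))) ≤
      2 * vT (π * m (Sum.inr (v, k))) (ca (π * (1 - m (Sum.inl v))) k -
        π * m (Sum.inr (v, k))) ∧
      (x (Sum.inl v) = y (Sum.inl v) → x (Sum.inr (v, k)) ≠ y (Sum.inr (v, k)) →
        vT (π * x (Sum.inr (v, k))) (ca (π * (1 - x (Sum.inl v))) k -
        π * x (Sum.inr (v, k))) +
      vT (π * y (Sum.inr (v, k))) (ca (π * (1 - y (Sum.inl v))) k - π * y (Sum.inr (v, k))) <
      2 * vT (π * m (Sum.inr (v, k))) (ca (π * (1 - m (Sum.inl v))) k -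
        π * m (Sum.inr (v, k)))) := by
    intro v k
    by_cases hF : cor v k ∈ F
    · by_cases hEnd : IsEnd F cor v
      · have x1 := (ang_lin hx.ang).endv v k hEnd hF
        have y1 := (ang_lin hy.ang).endv v k hEnd hF
        have x2 : ca (π * (1 - x (Sum.inl v))) k - π * x (Sum.inr (v, k)) = 0 := by
          rw [H_Uni_ca_cz, x1]; ring
        have y2 : ca (π * (1 - y (Sum.inl v))) k - π * y (Sum.inr (v, k)) = 0 := by
          rw [H_Uni_ca_cz, y1]; ring
        have m2 : ca (π * (1 - m (Sum.inl v))) k - π * m (Sum.inr (v, k)) = 0 := by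
          simp only [hm]
          rw [H_Uni_ca_mid]
          linarith
        rw [x2, y2, m2, vT_zero_right, vT_zero_right, vT_zero_right]
        refine ⟨by norm_num, fun h1 h2 => ?_⟩
        exact absurd (by rw [x1, y1, h1]) h2
      · have x1 := hx.pos v k hF hEnd
        have x2 := hx.lt v k hF hEnd
        have y1 := hy.pos v k hF hEnd
        have y2 := hy.lt v k hF hEnd
        have cx := H_Uni_ca_pos (hx.half v) (hx.lt1 v) k
        have cy := H_Uni_ca_pos (hy.half v) (hy.lt1 v) k
        have x3 : π * x (Sum.inr (v, k)) < ca (π * (1 - x (Sum.inl v))) k := by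
          rw [H_Uni_ca_cz]; exact mul_lt_mul_of_pos_left x2 hp
        have y3 : π * y (Sum.inr (v, k)) < ca (π * (1 - y (Sum.inl v))) k := by
          rw [H_Uni_ca_cz]; exact mul_lt_mul_of_pos_left y2 hp
        have e1 : π * m (Sum.inr (v, k)) =
            (π * x (Sum.inr (v, k)) + π * y (Sum.inr (v, k))) / 2 := by simp only [hm]; ring
        have e2 : ca (π * (1 - m (Sum.inl v))) k - π * m (Sum.inr (v, k)) =
            ((ca (π * (1 - x (Sum.inl v))) k - π * x (Sum.inr (v, k))) +
            (ca (π * (1 - y (Sum.inl v))) k - π * y (Sum.inr (v, k)))) / 2 := by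
          simp only [hm]
          rw [H_Uni_ca_mid]
          ring
        rw [e2, e1]
        have x4 : 0 < π * x (Sum.inr (v, k)) := mul_pos hp x1
        have y4 : 0 < π * y (Sum.inr (v, k)) := mul_pos hp y1
        constructor
        · apply H_Uni_vT_le <;> linarith [cx.2, cy.2]
        · intro h1 h2
          apply H_Uni_vT_lt <;> first | linarith [cx.2, cy.2] | skip
          left
          intro h
          exact h2 (mul_left_cancel₀ hp.ne' h)
    · have x1 := hx.ang.out v k hF
      have y1 := hy.ang.out v k hF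
      have m1 : m (Sum.inr (v, k)) = 0 := by simp only [hm, x1, y1]; norm_num
      rw [x1, y1, m1, mul_zero, vT_zero_left, vT_zero_left, vT_zero_left]
      refine ⟨by norm_num, fun _ h2 => absurd rfl h2⟩
  have hle : ∀ v, H_Uni_T x v + H_Uni_T y v ≤ 2 * H_Uni_T m v := by
    intro v
    have h1 := (hE v).1
    have h2 := Finset.sum_le_sum fun k (_ : k ∈ Finset.univ) => (hC v k).1
    rw [Finset.sum_add_distrib, ← Finset.mul_sum] at h2
    simp only [H_Uni_T]
    linarith
  have hlt : ∃ v, H_Uni_T x v + H_Uni_T y v < 2 * H_Uni_T m v := by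
    by_contra hcon
    push Not at hcon
    apply hne
    have hinl : ∀ v, x (Sum.inl v) = y (Sum.inl v) := by
      intro v
      by_contra hxy
      have h1 := (hE v).2 hxy
      have h2 := Finset.sum_le_sum fun k (_ : k ∈ Finset.univ) => (hC v k).1
      rw [Finset.sum_add_distrib, ← Finset.mul_sum] at h2
      have h3 := hcon v
      simp only [H_Uni_T] at h3
      linarith
    funext j
    rcases j with v | ⟨v, k⟩
    · exact hinl v
    · by_contra hxy
      have h1 := (hE v).1
      have h2 := Finset.sum_lt_sum (fun k (_ : k ∈ Finset.univ) => (hC v k).1)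
        ⟨k, Finset.mem_univ k, (hC v k).2 (hinl v) hxy⟩
      rw [Finset.sum_add_distrib, ← Finset.mul_sum] at h2
      have h3 := hcon v
      simp only [H_Uni_T] at h3
      linarith
  obtain ⟨v, hv⟩ := hlt
  exact Finset.sum_lt_sum (fun v _ => hle v) ⟨v, Finset.mem_univ v, hv⟩

end Pool.Agent.H63.CLK
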