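import Pool.Agent.H63.CLK.H_Rot
import Pool.Agent.H63.CLK.H_Flip
import Pool.Agent.H63.CLK.H_Bdy
import Pool.Agent.H63.CLK.H_Uni

set_option autoImplicit false

/-!
# CLK part H, H_Main (helper63): every prime template has directions with a strict maximum
-/

namespace Pool.Agent.H63.CLK

open scoped BigOperators

variable {c : ℕ} {F : Finset ℕ} {cor : Fin c → Fin 4 → ℕ}

theorem isAng_mid {x y : Vr c → ℝ} (hx : IsAng F cor x) (hy : IsAng F cor y) :
    IsAng F cor (fun j => (x j + y j) / 2) := by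
  refine ⟨fun v => ?_, fun f hf => ?_, fun v k hk => ?_, fun v k => ?_, fun v k => ?_⟩
  · rw [← Finset.sum_div, Finset.sum_add_distrib, hx.vert v, hy.vert v]; norm_num
  · have h : ∑ v, ∑ k, (if cor v k = f then (x (Sum.inr (v, k)) + y (Sum.inr (v, k))) / 2 else 0) =
        ((∑ v, ∑ k, (if cor v k = f then x (Sum.inr (v, k)) else 0)) +
          ∑ v, ∑ k, (if cor v k = f then y (Sum.inr (v, k)) else 0)) / 2 := by
      rw [← Finset.sum_add_distrib, Finset.sum_div]
      refine Finset.sum_congr rfl fun v _ => ?_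
      rw [← Finset.sum_add_distrib, Finset.sum_div]
      refine Finset.sum_congr rfl fun k _ => ?_
      split_ifs <;> ring
    rw [h, hx.face f hf, hy.face f hf]; norm_num
  · simp only [hx.out v k hk, hy.out v k hk]; norm_num
  · have h1 := hx.nn v k
    have h2 := hy.nn v k
    show 0 ≤ (x (Sum.inr (v, k)) + y (Sum.inr (v, k))) / 2
    linarith
  · have h1 := hx.le v k
    have h2 := hy.le v k
    show (x (Sum.inr (v, k)) + y (Sum.inr (v, k))) / 2 ≤
      cz 1 ((x (Sum.inl v) + y (Sum.inl v)) / 2) k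
    have h3 : cz 1 ((x (Sum.inl v) + y (Sum.inl v)) / 2) k =
        (cz 1 (x (Sum.inl v)) k + cz 1 (y (Sum.inl v)) k) / 2 := by
      fin_cases k <;> simp [cz] <;> ring
    rw [h3]; linarith

theorem exists_rot_max {w : List TPiece} (hT : IsTemplate w c F cor) (hP : IsPrimeT F cor) :
    ∃ (B : ℕ → Bool) (F' : Finset ℕ) (cor' : Fin c → Fin 4 → ℕ) (x : Vr c → ℝ),
      IsTemplate (rot B 0 w) c F' cor' ∧
      (∃ v₁ v₂ : Fin c, ∀ v, IsEnd F' cor' v → v = v₁ ∨ v = v₂) ∧ IsMaxA F' cor' x := by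
  obtain ⟨z, hz⟩ := exists_intS hP
  obtain ⟨y, hy, hmax⟩ := exists_max_volS hz.ang
  obtain ⟨hI, hne⟩ := intS_of_max hP hy hmax
  set B0 : Fin c → Bool := fun v => decide (y (Sum.inl v) < 1 / 2) with hB0
  obtain ⟨ρ, hρ, -, -, hT'⟩ := rot_template hT (fun n => if h : n < c then B0 ⟨n, h⟩ else false)
  have hB : (fun v : Fin c => (if h : (v : ℕ) < c then B0 ⟨v, h⟩ else false)) = B0 := by
    funext v
    simp
  rw [hB] at hT'
  have hinj := hρ.injective
  have hyI : IsInt (F.image ρ) (rotcor ρ B0 cor) (rotx B0 y) := flp_isInt hinj hI hne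
  refine ⟨_, _, _, rotx B0 y, hT', ?_, ⟨hyI, ?_⟩⟩
  · obtain ⟨v₁, v₂, h⟩ := hP.ends
    exact ⟨v₁, v₂, fun v hv => h v ((flp_isEnd hinj B0 v).1 hv)⟩
  intro u hu hne'
  obtain ⟨x₀, rfl⟩ := flp_surj B0 u
  have hx₀ : IsAng F cor x₀ := (flp_isAng hinj B0 x₀).1 hu
  have hV : volF (rotx B0 y) = volSy y := by
    rw [volF_eq_volS hyI.ang fun v => (hyI.half v).le, flp_volS]
  rw [hV]
  by_cases hfar : ∃ v, rotx B0 x₀ (Sum.inl v) < 1 / 2
  · obtain ⟨v, hv⟩ := hfar
    by_cases h0 : 0 < rotx B0 x₀ (Sum.inl v)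
    · calc volF (rotx B0 x₀) < volSy (rotx B0 x₀) := volF_lt hu h0 hv
        _ = volSy x₀ := flp_volS B0 x₀
        _ ≤ volSy y := hmax x₀ hx₀
    · have h1 : volSy x₀ < volSy y := by
        by_contra hcon
        have h2 := (intS_of_max hP hx₀ fun x hx => (hmax x hx).trans (not_lt.1 hcon)).1
        exact h0 ((flp_intS hinj B0 h2).gt0 v)
      calc volF (rotx B0 x₀) ≤ volSy (rotx B0 x₀) := volF_le hu
        _ = volSy x₀ := flp_volS B0 x₀
        _ < volSy y := h1
  · push Not at hfar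
    by_contra hcon
    have h1 : volF (rotx B0 x₀) = volSy x₀ := by rw [volF_eq_volS hu hfar, flp_volS]
    have h2 : volSy y ≤ volSy x₀ := by rw [← h1]; exact not_lt.1 hcon
    obtain ⟨hI0, hne0⟩ := intS_of_max hP hx₀ fun x hx => (hmax x hx).trans h2
    have hB1 : (fun v : Fin c => decide (x₀ (Sum.inl v) < 1 / 2)) = B0 := by
      funext v
      have h3 := hfar v
      have h4 := hne0 v
      by_cases hb : B0 v = true
      · rw [hb]
        simp only [rotx, hb, if_true] at h3
        have : x₀ (Sum.inl v) < 1 / 2 := lt_of_le_of_ne (by linarith) h4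
        simpa using this
      · rw [Bool.not_eq_true] at hb
        rw [hb]
        simp only [rotx, hb] at h3
        have h5 : ¬ x₀ (Sum.inl v) < 1 / 2 := not_lt.2 (by simpa using h3)
        simpa using h5
    have hI1 : IsInt (F.image ρ) (rotcor ρ B0 cor) (rotx B0 x₀) := by
      have := flp_isInt hinj hI0 hne0
      rw [hB1] at this
      exact this
    have h5 := volF_mid hyI hI1 (Ne.symm hne')
    have h6 := isAng_mid hyI.ang hu
    obtain ⟨xm, hxm⟩ := flp_surj B0 (fun j => (rotx B0 y j + rotx B0 x₀ j) / 2)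
    rw [← hxm] at h5 h6
    have h7 := volF_le h6
    rw [flp_volS] at h7
    have h8 := hmax xm ((flp_isAng hinj B0 xm).1 h6)
    rw [hV, h1] at h5
    linarith

end Pool.Agent.H63.CLK
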