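import Pool.Agent.H63.CLK.N_Defs
import Pool.Agent.H63.CLK.C_Fr
import Pool.Agent.H63.VC7.RootLim
import Pool.Agent.H63.VC3.LogS

/-!
# All directions, analysis: the products of sines

`SN N n = S (N + 1) n` (definition in `VC/Base.lean`), and `log (SN N n)` is a Riemann sum of
`N ∫_0^{n/N} log (2 sin (π x)) dx = N Fr (n / N)` up to `O(log N)`; use the existing bounds for `S` (search for `Fr` and `S M`
in `VC3`, `VC7/DGb.lean`, `CLK/C_Naive.lean`, `CLK/C_Fr.lean`), which have `M = N + 1` instead of `N`, and the modulus of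
continuity of `Fr` (`C_Fr.lean`: `|Fr x - Fr y| ≤ …`), since `|n / N - n / (N + 1)| ≤ 1 / (N + 1)`.
-/

set_option autoImplicit false

namespace Pool.Agent.H63.CLK

open Pool.Agent.H63.VC hiding ext
open Pool.Agent.H63.VC3 Pool.Agent.H63.VC4 Pool.Agent.H63.VC7 Complex Filter Topology
open scoped BigOperators


private theorem N_SN_exp (M : ℕ) (hM : 1 ≤ M) (K : ℝ) :
    Real.exp (K * (1 + Real.log M)) ≤ Real.exp K * (M : ℝ) ^ ⌈K⌉₊ := by
  have h0 : (0 : ℝ) < M := by exact_mod_cast hM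
  have h1 : 0 ≤ Real.log M := Real.log_nonneg (by exact_mod_cast hM)
  rw [mul_add, mul_one, Real.exp_add]
  refine mul_le_mul_of_nonneg_left ?_ (Real.exp_pos _).le
  have h2 : (M : ℝ) ^ ⌈K⌉₊ = Real.exp ((⌈K⌉₊ : ℝ) * Real.log M) := by
    rw [Real.exp_nat_mul, Real.exp_log h0]
  rw [h2]
  exact Real.exp_le_exp.2 (mul_le_mul_of_nonneg_right (Nat.le_ceil K) h1)

theorem SN_eq (N n : ℕ) : SN N n = S (N + 1) n := by
  unfold SN S sg
  rw [Finset.prod_Ico_eq_prod_range]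
  refine Finset.prod_congr (by simp) fun j _ => ?_
  have e : ((1 + j : ℕ) : ℝ) = (j : ℝ) + 1 := by push_cast; ring
  rw [e]

theorem SN_pos (N n : ℕ) (h : n ≤ N) : 0 < SN N n := by
  rw [SN_eq]
  exact S_pos (by omega)

theorem SN_mul (N n : ℕ) (h : n ≤ N) : SN N n * SN N (N - n) = N + 1 := by
  rw [SN_eq, SN_eq]
  have h1 := S_mul (M := N + 1) (k := n) (by omega)
  have e : N + 1 - 1 - n = N - n := by omega
  rw [e] at h1
  rw [h1]
  push_cast
  ring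

private theorem N_SN_brf (N k : ℕ) :
    Pool.Agent.H63.VC10.brf (qz N) k = I ^ k * ((S (N + 1) k : ℝ) : ℂ) := by
  induction k with
  | zero => simp [Pool.Agent.H63.VC10.brf, S]
  | succ k ih =>
    have h1 : Pool.Agent.H63.VC10.brf (qz N) (k + 1) =
        Pool.Agent.H63.VC10.brf (qz N) k * br (qz N) ((k : ℤ) + 1) := by
      simp [Pool.Agent.H63.VC10.brf, Finset.prod_range_succ]
    have h2 : br (qz N) ((k : ℤ) + 1) = I * (sg (N + 1) (k + 1) : ℝ) := RootLim_br1 N k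
    rw [h1, ih, h2, S_succ, pow_succ]
    push_cast
    ring

theorem norm_brf (N n : ℕ) (h : n ≤ N) : ‖Pool.Agent.H63.VC10.brf (qz N) n‖ = SN N n := by
  rw [N_SN_brf, norm_mul, norm_pow, Complex.norm_I, one_pow, one_mul, Complex.norm_real, ← SN_eq]
  exact abs_of_pos (SN_pos N n h)

theorem SN_bound : ∃ C : ℝ, 0 < C ∧ ∃ D : ℕ, ∀ N n : ℕ, 1 ≤ N → n ≤ N →
    SN N n ≤ C * ((N + 1 : ℕ) : ℝ) ^ D * Real.exp (N * Fr ((n : ℝ) / N)) ∧
    Real.exp (N * Fr ((n : ℝ) / N)) ≤ C * ((N + 1 : ℕ) : ℝ) ^ D * SN N n := by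
  obtain ⟨C, hC, h1⟩ := log_S_bound
  obtain ⟨C1, hC1, h2⟩ := Fr_mod
  have h56 : 0 ≤ Fr (5 / 6) := by
    have h := Fr_le 0
    rwa [Fr_zero] at h
  refine ⟨Real.exp (C + C1 + Fr (5 / 6)), Real.exp_pos _, ⌈C + C1 + Fr (5 / 6)⌉₊,
    fun N n hN hn => ?_⟩
  have hN0 : (0 : ℝ) < N := by exact_mod_cast hN
  have hM0 : (0 : ℝ) < ((N + 1 : ℕ) : ℝ) := by positivity
  have hMN : ((N + 1 : ℕ) : ℝ) = (N : ℝ) + 1 := by push_cast; ring
  have hnN : (n : ℝ) ≤ N := by exact_mod_cast hn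
  have hn0 : (0 : ℝ) ≤ n := Nat.cast_nonneg n
  have hS : 0 < S (N + 1) n := S_pos (by omega)
  have hlogN : 0 ≤ Real.log N := Real.log_nonneg (by exact_mod_cast hN)
  have hlog : Real.log N ≤ Real.log ((N + 1 : ℕ) : ℝ) := by
    refine Real.log_le_log hN0 ?_
    rw [hMN]
    linarith
  have hk : |Real.log (S (N + 1) n) - N * Fr ((n : ℝ) / N)| ≤
      (C + C1 + Fr (5 / 6)) * (1 + Real.log ((N + 1 : ℕ) : ℝ)) := by
    have a1 := h1 (N + 1) n (by omega) (by omega)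
    have hd : |(n : ℝ) / N - (n : ℝ) / ((N + 1 : ℕ) : ℝ)| ≤ 2 / N := by
      have e : (n : ℝ) / N - (n : ℝ) / ((N + 1 : ℕ) : ℝ) = (n : ℝ) / (N * ((N + 1 : ℕ) : ℝ)) := by
        rw [hMN] at hM0 ⊢
        field_simp
        ring
      rw [e, abs_of_nonneg (by positivity), div_le_div_iff₀ (by positivity) hN0]
      rw [hMN]
      nlinarith
    have a2 := h2 N _ _ hN hd
    have a3 := Fr_le ((n : ℝ) / ((N + 1 : ℕ) : ℝ))
    have a4 := Fr_ge ((n : ℝ) / ((N + 1 : ℕ) : ℝ))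
    have a5 : |(N : ℝ) * Fr ((n : ℝ) / N) - N * Fr ((n : ℝ) / ((N + 1 : ℕ) : ℝ))| ≤
        C1 * (1 + Real.log N) := by
      rw [← mul_sub, abs_mul, abs_of_pos hN0]
      exact a2
    rw [abs_le] at a1 a5 ⊢
    have a6 : (((N + 1 : ℕ) : ℝ)) * Fr ((n : ℝ) / ((N + 1 : ℕ) : ℝ)) =
        N * Fr ((n : ℝ) / ((N + 1 : ℕ) : ℝ)) + Fr ((n : ℝ) / ((N + 1 : ℕ) : ℝ)) := by
      rw [hMN]; ring
    have a7 : C1 * (1 + Real.log N) ≤ C1 * (1 + Real.log ((N + 1 : ℕ) : ℝ)) := by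
      gcongr
    have hL : 0 ≤ Real.log ((N + 1 : ℕ) : ℝ) := hlogN.trans hlog
    have a8 : C * Real.log ((N + 1 : ℕ) : ℝ) ≤ C * (1 + Real.log ((N + 1 : ℕ) : ℝ)) := by
      gcongr
      linarith
    have a9 : Fr (5 / 6) ≤ Fr (5 / 6) * (1 + Real.log ((N + 1 : ℕ) : ℝ)) := by
      nlinarith
    constructor
    · linarith [a1.1, a5.1, a1.2, a5.2]
    · linarith [a1.1, a5.1, a1.2, a5.2]
  have hE := N_SN_exp (N + 1) (by omega) (C + C1 + Fr (5 / 6))
  rw [SN_eq]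
  rw [abs_le] at hk
  constructor
  · calc S (N + 1) n = Real.exp (Real.log (S (N + 1) n)) := (Real.exp_log hS).symm
      _ ≤ Real.exp ((C + C1 + Fr (5 / 6)) * (1 + Real.log ((N + 1 : ℕ) : ℝ)) +
            N * Fr ((n : ℝ) / N)) := Real.exp_le_exp.2 (by linarith [hk.2])
      _ = Real.exp ((C + C1 + Fr (5 / 6)) * (1 + Real.log ((N + 1 : ℕ) : ℝ))) *
            Real.exp (N * Fr ((n : ℝ) / N)) := Real.exp_add _ _
      _ ≤ _ := mul_le_mul_of_nonneg_right hE (Real.exp_pos _).le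
  · calc Real.exp (N * Fr ((n : ℝ) / N))
        ≤ Real.exp ((C + C1 + Fr (5 / 6)) * (1 + Real.log ((N + 1 : ℕ) : ℝ)) +
            Real.log (S (N + 1) n)) := Real.exp_le_exp.2 (by linarith [hk.1])
      _ = Real.exp ((C + C1 + Fr (5 / 6)) * (1 + Real.log ((N + 1 : ℕ) : ℝ))) *
            S (N + 1) n := by rw [Real.exp_add, Real.exp_log hS]
      _ ≤ _ := mul_le_mul_of_nonneg_right hE hS.le

/-- Shifts of the argument by `K / N` cost a power of `N`. -/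
theorem Fr_shift (K : ℝ) : ∃ C : ℝ, 0 < C ∧ ∃ D : ℕ, ∀ (N : ℕ) (x y : ℝ), 1 ≤ N →
    |x - y| ≤ K / N →
    Real.exp (N * |Fr x - Fr y|) ≤ C * ((N + 1 : ℕ) : ℝ) ^ D := by
  obtain ⟨C1, hC1, h2⟩ := Fr_mod
  obtain ⟨m, hm⟩ := exists_nat_gt (|K| + 1)
  refine ⟨Real.exp (m * C1), Real.exp_pos _, ⌈(m : ℝ) * C1⌉₊, fun N x y hN hxy => ?_⟩
  have hN0 : (0 : ℝ) < N := by exact_mod_cast hN
  have hm0 : (0 : ℝ) < m := by linarith [abs_nonneg K]
  have hMN : ((N + 1 : ℕ) : ℝ) = (N : ℝ) + 1 := by push_cast; ring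
  have hlog : Real.log N ≤ Real.log ((N + 1 : ℕ) : ℝ) := by
    refine Real.log_le_log hN0 ?_
    rw [hMN]
    linarith
  have hstep : |(y - x) / m| ≤ 2 / N := by
    rw [abs_div, abs_of_pos hm0, abs_sub_comm, div_le_iff₀ hm0]
    refine hxy.trans ?_
    rw [div_mul_eq_mul_div]
    refine div_le_div_of_nonneg_right ?_ hN0.le
    have := le_abs_self K
    linarith
  have hind : ∀ i : ℕ, (N : ℝ) * |Fr x - Fr (x + i * ((y - x) / m))| ≤
      i * (C1 * (1 + Real.log N)) := by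
    intro i
    induction i with
    | zero => simp
    | succ i ih =>
      have a1 := h2 N (x + i * ((y - x) / m)) (x + ((i + 1 : ℕ) : ℝ) * ((y - x) / m)) hN (by
        have e : x + (i : ℝ) * ((y - x) / m) - (x + ((i + 1 : ℕ) : ℝ) * ((y - x) / m)) =
            -((y - x) / m) := by
          push_cast
          ring
        rw [e, abs_neg]
        exact hstep)
      have a2 := abs_sub_le (Fr x) (Fr (x + i * ((y - x) / m)))
        (Fr (x + ((i + 1 : ℕ) : ℝ) * ((y - x) / m)))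
      have a3 := mul_le_mul_of_nonneg_left a2 hN0.le
      rw [mul_add] at a3
      have e2 : ((i + 1 : ℕ) : ℝ) * (C1 * (1 + Real.log N)) =
          i * (C1 * (1 + Real.log N)) + C1 * (1 + Real.log N) := by
        push_cast
        ring
      rw [e2]
      linarith
  have hfin := hind m
  have e3 : x + (m : ℝ) * ((y - x) / m) = y := by
    field_simp
    ring
  rw [e3] at hfin
  refine le_trans ?_ (N_SN_exp (N + 1) (by omega) (m * C1))
  refine Real.exp_le_exp.2 (hfin.trans ?_)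
  rw [mul_assoc]
  gcongr

end Pool.Agent.H63.CLK
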