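import Pool.Agent.H63.CLK.K_Q0
import Pool.Agent.H63.CLK.B_Bound
import Pool.Agent.H63.CLK.N_SN

/-!
# All directions, analysis: the factor of a twist region in terms of the channels

`eta a N t = (-1)^N cG S(M,t)² DG1 / (4 π M)`, `DG1 = ∑_X deriv NT (v_X)`, `v_X = vl 2 M X`,
`NT v = g v * (2 sin (2 π v)) * qc M t v`, `g v = exp (2 π i (a/2) M v²)`. One has, with `r = N - t`,
`4 cos (π (v + (i+1/2)/M)) cos (π (v - (i+1/2)/M)) = Xc N i + 2 cos (2 π v)` and `2 cos (2 π v_X) = -Xc N X`,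
`sin (2 π v_X) = - sin (π (2 X + 1) / M)`, `SN N n = S (N+1) n`, `SN N n * SN N (N - n) = M`, so
`S(M,t)² qc (v_X) = M * QN N X t`, `S(M,t)² qc' (v_X) = - M² * EN N X t`, and
`eta a N t = ∑_X (m X * QN N X t + l X * EN N X t)` with `m X = (-1)^N cG / (4 π) * (g * 2 sin (2 π ·))' (v_X)`,
`l X = - (-1)^N cG M / (4 π) * g (v_X) * 2 sin (2 π v_X)`. `‖cG‖ = 1`, `‖g‖ = 1` for real arguments, `|v_X| ≤ 1/2`
(`B_Bound_cG`; see also `B_Bound_deriv`, `DGb_deriv` for the derivative of the product).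
-/

set_option autoImplicit false

namespace Pool.Agent.H63.CLK

open Pool.Agent.H63.VC hiding ext
open Pool.Agent.H63.VC3 Pool.Agent.H63.VC4 Pool.Agent.H63.VC7 Complex Filter Topology
open scoped BigOperators

private theorem N_Eta_qc (N t : ℕ) (v : ℂ) : qc (N + 1) t v =
    1 / ((N + 1 : ℕ) : ℂ) * ∏ i ∈ Finset.range (N - t), ((Xc N i : ℂ) + 2 * cos (2 * Real.pi * v)) := by
  unfold qc
  congr 1
  rw [show N + 1 - 1 - t = N - t by omega]
  refine Finset.prod_congr rfl fun i _ => ?_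
  have h1 := Complex.cos_add (Real.pi * (v + (i + 1 / 2) / ((N + 1 : ℕ) : ℂ)))
    (Real.pi * (v - (i + 1 / 2) / ((N + 1 : ℕ) : ℂ)))
  have h2 := Complex.cos_sub (Real.pi * (v + (i + 1 / 2) / ((N + 1 : ℕ) : ℂ)))
    (Real.pi * (v - (i + 1 / 2) / ((N + 1 : ℕ) : ℂ)))
  have e1 : (Real.pi : ℂ) * (v + (i + 1 / 2) / ((N + 1 : ℕ) : ℂ)) +
    Real.pi * (v - (i + 1 / 2) / ((N + 1 : ℕ) : ℂ)) = 2 * Real.pi * v := by ring
  have e2 : (Real.pi : ℂ) * (v + (i + 1 / 2) / ((N + 1 : ℕ) : ℂ)) -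
    Real.pi * (v - (i + 1 / 2) / ((N + 1 : ℕ) : ℂ)) =
      Real.pi * (2 * i + 1) / ((N + 1 : ℕ) : ℂ) := by ring
  rw [e1] at h1
  rw [e2] at h2
  unfold Xc
  push_cast at h1 h2 ⊢
  rw [h1, h2]
  ring

private theorem N_Eta_deriv (N t : ℕ) (v : ℂ) : deriv (qc (N + 1) t) v =
    1 / ((N + 1 : ℕ) : ℂ) * ((∑ j ∈ Finset.range (N - t),
      ∏ i ∈ (Finset.range (N - t)).erase j, ((Xc N i : ℂ) + 2 * cos (2 * Real.pi * v))) *
        (-(4 * Real.pi * sin (2 * Real.pi * v)))) := by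
  have h0 : qc (N + 1) t = fun v => 1 / ((N + 1 : ℕ) : ℂ) *
      ∏ i ∈ Finset.range (N - t), ((Xc N i : ℂ) + 2 * cos (2 * Real.pi * v)) := by
    funext v
    exact N_Eta_qc N t v
  rw [h0]
  have h1 : HasDerivAt (fun v : ℂ => 2 * cos (2 * Real.pi * v))
      (-(4 * Real.pi * sin (2 * Real.pi * v))) v := by
    have h := ((hasDerivAt_id v).const_mul (2 * Real.pi : ℂ)).ccos.const_mul (2 : ℂ)
    have e : -(4 * Real.pi * sin (2 * Real.pi * v)) =
        (2 : ℂ) * (-sin (2 * Real.pi * id v) * (2 * Real.pi * 1)) := by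
      simp only [id]
      ring
    rw [e]
    exact h
  have h2 : ∀ i ∈ Finset.range (N - t), HasDerivAt
      (fun v : ℂ => (Xc N i : ℂ) + 2 * cos (2 * Real.pi * v))
      (-(4 * Real.pi * sin (2 * Real.pi * v))) v := fun i _ => h1.const_add _
  have h3 := (HasDerivAt.fun_finsetProd h2).const_mul (1 / ((N + 1 : ℕ) : ℂ))
  rw [h3.deriv]
  congr 1
  rw [Finset.sum_mul]
  refine Finset.sum_congr rfl fun j _ => ?_
  rw [smul_eq_mul]

private theorem N_Eta_arg (N X : ℕ) : 2 * Real.pi * vl 2 (N + 1) X =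
    Real.pi * (2 * X + 1) / ((N + 1 : ℕ) : ℝ) - Real.pi := by
  have hM : ((N + 1 : ℕ) : ℝ) ≠ 0 := by positivity
  unfold vl bt
  field_simp
  push_cast
  ring

private theorem N_Eta_cos (N X : ℕ) :
    2 * cos (2 * Real.pi * ((vl 2 (N + 1) X : ℝ) : ℂ)) = -(Xc N X : ℂ) := by
  have h : 2 * Real.cos (2 * Real.pi * vl 2 (N + 1) X) = -Xc N X := by
    rw [N_Eta_arg, Real.cos_sub_pi]
    unfold Xc
    ring
  have := congrArg (fun x : ℝ => (x : ℂ)) h
  push_cast at this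
  exact this

private theorem N_Eta_sin (N X : ℕ) :
    sin (2 * Real.pi * ((vl 2 (N + 1) X : ℝ) : ℂ)) =
      -((Real.sin (Real.pi * (2 * X + 1) / ((N + 1 : ℕ) : ℝ)) : ℝ) : ℂ) := by
  have h : Real.sin (2 * Real.pi * vl 2 (N + 1) X) =
      -Real.sin (Real.pi * (2 * X + 1) / ((N + 1 : ℕ) : ℝ)) := by
    rw [N_Eta_arg, Real.sin_sub_pi]
  have := congrArg (fun x : ℝ => (x : ℂ)) h
  push_cast at this ⊢
  exact this

/-- The square of the product of sines. -/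
private theorem N_Eta_S (N t : ℕ) (ht : t ≤ N) :
    ((S (N + 1) t : ℝ) : ℂ) ^ 2 * ((SN N (N - t) : ℝ) : ℂ) ^ 2 = ((N + 1 : ℕ) : ℂ) ^ 2 ∧
    ((SN N (N - t) : ℝ) : ℂ) ≠ 0 := by
  have h1 := SN_mul N t ht
  rw [SN_eq N t] at h1
  have h2 := SN_pos N (N - t) (by omega)
  constructor
  · rw [← mul_pow]
    congr 1
    have := congrArg (fun x : ℝ => (x : ℂ)) h1
    push_cast at this ⊢
    exact this
  · exact_mod_cast h2.ne'

private theorem N_Eta_Q (N t X : ℕ) (ht : t ≤ N) :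
    ((S (N + 1) t : ℝ) : ℂ) ^ 2 * qc (N + 1) t ((vl 2 (N + 1) X : ℝ) : ℂ) =
      ((N + 1 : ℕ) : ℂ) * (QN N X t : ℂ) := by
  obtain ⟨h1, h2⟩ := N_Eta_S N t ht
  have hM : ((N + 1 : ℕ) : ℂ) ≠ 0 := by exact_mod_cast Nat.succ_ne_zero N
  rw [N_Eta_qc, N_Eta_cos]
  unfold QN
  have e1 : (((∏ i ∈ Finset.range (N - t), (Xc N i - Xc N X)) / SN N (N - t) ^ 2 : ℝ) : ℂ) =
      (∏ i ∈ Finset.range (N - t), ((Xc N i : ℂ) + -(Xc N X : ℂ))) /
        ((SN N (N - t) : ℝ) : ℂ) ^ 2 := by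
    push_cast
    congr 1
  rw [e1]
  set P := ∏ i ∈ Finset.range (N - t), ((Xc N i : ℂ) + -(Xc N X : ℂ))
  set s := ((SN N (N - t) : ℝ) : ℂ)
  set σ := ((S (N + 1) t : ℝ) : ℂ)
  field_simp
  linear_combination P * h1

private theorem N_Eta_E (N t X : ℕ) (ht : t ≤ N) :
    ((S (N + 1) t : ℝ) : ℂ) ^ 2 * deriv (qc (N + 1) t) ((vl 2 (N + 1) X : ℝ) : ℂ) =
      -((N + 1 : ℕ) : ℂ) ^ 2 * (EN N X t : ℂ) := by
  obtain ⟨h1, h2⟩ := N_Eta_S N t ht
  have hM : ((N + 1 : ℕ) : ℂ) ≠ 0 := by exact_mod_cast Nat.succ_ne_zero N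
  rw [N_Eta_deriv, N_Eta_cos, N_Eta_sin]
  have e1 : (EN N X t : ℂ) =
      -(4 * Real.pi * ((Real.sin (Real.pi * (2 * X + 1) / ((N + 1 : ℕ) : ℝ)) : ℝ) : ℂ) /
        ((N + 1 : ℕ) : ℂ)) *
      ((∑ j ∈ Finset.range (N - t), ∏ i ∈ (Finset.range (N - t)).erase j,
        ((Xc N i : ℂ) + -(Xc N X : ℂ))) / ((SN N (N - t) : ℝ) : ℂ) ^ 2) := by
    unfold EN
    push_cast
    congr 1
  rw [e1]
  set P := ∑ j ∈ Finset.range (N - t), ∏ i ∈ (Finset.range (N - t)).erase j,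
        ((Xc N i : ℂ) + -(Xc N X : ℂ))
  set s := ((SN N (N - t) : ℝ) : ℂ)
  set σ := ((S (N + 1) t : ℝ) : ℂ)
  set u := ((Real.sin (Real.pi * (2 * X + 1) / ((N + 1 : ℕ) : ℝ)) : ℝ) : ℂ)
  field_simp
  linear_combination (P * u) * h1

theorem eta_QE (a : ℤ) : ∃ C : ℝ, 0 < C ∧ ∀ N : ℕ, ∃ m l : ℕ → ℂ,
    (∀ k ≤ N, ‖m k‖ ≤ C * ((N + 1 : ℕ) : ℝ) ∧ ‖l k‖ ≤ C * ((N + 1 : ℕ) : ℝ)) ∧
    ∀ t ≤ N, eta a N t =
      ∑ k ∈ Finset.range (N + 1), (m k * (QN N k t : ℂ) + l k * (EN N k t : ℂ)) := by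
  have hpi := Real.pi_pos
  refine ⟨|(a : ℝ) / 2| + 1, by positivity, fun N => ?_⟩
  set r : ℝ := (a : ℝ) / 2 with hr
  set M : ℕ := N + 1 with hMdef
  have hM0 : (0 : ℝ) < M := by rw [hMdef]; positivity
  have hM1 : (1 : ℝ) ≤ M := by rw [hMdef]; push_cast; linarith [Nat.cast_nonneg (α := ℝ) N]
  have hMc : (M : ℂ) ≠ 0 := by exact_mod_cast hM0.ne'
  have hpc : (Real.pi : ℂ) ≠ 0 := by exact_mod_cast hpi.ne'
  refine ⟨fun X => (-1) ^ N * cG a M / (4 * Real.pi) *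
      (exp (2 * Real.pi * I * r * M * ((vl 2 M X : ℝ) : ℂ) ^ 2) *
        (2 * Real.pi * I * r * M * (2 * ((vl 2 M X : ℝ) : ℂ))) *
        (2 * sin (2 * Real.pi * ((vl 2 M X : ℝ) : ℂ))) +
      exp (2 * Real.pi * I * r * M * ((vl 2 M X : ℝ) : ℂ) ^ 2) *
        (2 * (cos (2 * Real.pi * ((vl 2 M X : ℝ) : ℂ)) * (2 * Real.pi)))),
    fun X => -((-1) ^ N * cG a M * M / (4 * Real.pi)) *
      (exp (2 * Real.pi * I * r * M * ((vl 2 M X : ℝ) : ℂ) ^ 2) *
        (2 * sin (2 * Real.pi * ((vl 2 M X : ℝ) : ℂ)))), ?_, ?_⟩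
  · intro X hX
    set x : ℝ := vl 2 M X with hx
    have hx1 : |x| ≤ 1 / 2 := by
      rw [hx, vl, bt, abs_le]
      have h3 : (X : ℝ) + 1 ≤ M := by
        rw [hMdef]
        exact_mod_cast Nat.succ_le_succ hX
      have h4 : ((X : ℝ) + ((2 : ℕ) - 1) / 2) / M ≤ 1 := by
        rw [div_le_one hM0]
        push_cast
        linarith
      have h5 : 0 ≤ ((X : ℝ) + ((2 : ℕ) - 1) / 2) / M := by
        push_cast
        positivity
      constructor <;> linarith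
    have hE : ‖exp (2 * Real.pi * I * r * M * (x : ℂ) ^ 2)‖ = 1 := by
      have : 2 * (Real.pi : ℂ) * I * r * M * (x : ℂ) ^ 2 =
          ((2 * Real.pi * r * M * x ^ 2 : ℝ) : ℂ) * I := by
        push_cast; ring
      rw [this, norm_exp_ofReal_mul_I]
    have hs : ‖sin (2 * Real.pi * (x : ℂ))‖ ≤ 1 := by
      have : sin (2 * Real.pi * (x : ℂ)) = ((Real.sin (2 * Real.pi * x) : ℝ) : ℂ) := by
        push_cast; rfl
      rw [this, norm_real, Real.norm_eq_abs]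
      exact Real.abs_sin_le_one _
    have hc : ‖cos (2 * Real.pi * (x : ℂ))‖ ≤ 1 := by
      have : cos (2 * Real.pi * (x : ℂ)) = ((Real.cos (2 * Real.pi * x) : ℝ) : ℂ) := by
        push_cast; rfl
      rw [this, norm_real, Real.norm_eq_abs]
      exact Real.abs_cos_le_one _
    have e2 : ‖2 * sin (2 * Real.pi * (x : ℂ))‖ ≤ 2 := by
      rw [norm_mul, Complex.norm_ofNat]
      linarith
    have n1 : ‖exp (2 * Real.pi * I * r * M * (x : ℂ) ^ 2) *
          (2 * Real.pi * I * r * M * (2 * (x : ℂ))) * (2 * sin (2 * Real.pi * (x : ℂ))) +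
        exp (2 * Real.pi * I * r * M * (x : ℂ) ^ 2) *
          (2 * (cos (2 * Real.pi * (x : ℂ)) * (2 * Real.pi)))‖ ≤
        4 * Real.pi * |r| * M + 4 * Real.pi := by
      refine (norm_add_le _ _).trans ?_
      rw [norm_mul, norm_mul, norm_mul (exp _) (2 * (cos _ * _)), hE]
      have e1 : ‖(2 * Real.pi * I * r * M * (2 * (x : ℂ)))‖ = 4 * Real.pi * |r| * M * |x| := by
        simp only [norm_mul, norm_real, Real.norm_eq_abs, norm_I, Complex.norm_natCast, Complex.norm_ofNat]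
        rw [abs_of_pos hpi]
        ring
      have e3 : ‖(2 * (cos (2 * Real.pi * (x : ℂ)) * (2 * Real.pi)))‖ ≤ 4 * Real.pi := by
        simp only [norm_mul, norm_real, Real.norm_eq_abs, Complex.norm_ofNat]
        rw [abs_of_pos hpi]
        nlinarith
      rw [e1, one_mul, one_mul]
      have e4 : 4 * Real.pi * |r| * M * |x| * ‖2 * sin (2 * Real.pi * (x : ℂ))‖ ≤
          4 * Real.pi * |r| * M * (1 / 2) * 2 := by
        gcongr
      linarith
    have n2 : ‖exp (2 * Real.pi * I * r * M * (x : ℂ) ^ 2) *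
        (2 * sin (2 * Real.pi * (x : ℂ)))‖ ≤ 2 := by
      rw [norm_mul, hE, one_mul]
      exact e2
    have hsg : ‖((-1 : ℂ)) ^ N‖ = 1 := by rw [norm_pow, norm_neg, norm_one, one_pow]
    have h4p : ‖(4 * (Real.pi : ℂ))‖ = 4 * Real.pi := by
      rw [norm_mul, Complex.norm_ofNat, norm_real, Real.norm_eq_abs, abs_of_pos hpi]
    have hpi3 := Real.pi_gt_three
    constructor
    · beta_reduce
      rw [norm_mul, norm_div, norm_mul, hsg, B_Bound_cG, h4p, one_mul]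
      calc 1 / (4 * Real.pi) * _ ≤ 1 / (4 * Real.pi) * (4 * Real.pi * |r| * M + 4 * Real.pi) :=
            mul_le_mul_of_nonneg_left n1 (by positivity)
        _ = |r| * M + 1 := by field_simp
        _ ≤ (|r| + 1) * M := by nlinarith
    · beta_reduce
      rw [norm_mul, norm_neg, norm_div, norm_mul, norm_mul, hsg, B_Bound_cG, h4p, one_mul, one_mul,
        Complex.norm_natCast]
      calc (M : ℝ) / (4 * Real.pi) * _ ≤ (M : ℝ) / (4 * Real.pi) * 2 :=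
            mul_le_mul_of_nonneg_left n2 (by positivity)
        _ = M * (1 / (2 * Real.pi)) := by field_simp; ring
        _ ≤ M * 1 := by
            refine mul_le_mul_of_nonneg_left ?_ hM0.le
            rw [div_le_one (by positivity)]
            linarith
        _ ≤ (|r| + 1) * M := by nlinarith [abs_nonneg r]
  · intro t ht
    unfold eta DG1 DG
    rw [Finset.mul_sum, Finset.sum_div]
    refine Finset.sum_congr rfl fun X _ => ?_
    have hd := (DGb_NT_hasDeriv (m := 1) r M Finset.univ (fun _ => t) ((vl 2 M X : ℝ) : ℂ)).deriv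
    have hq := N_Eta_Q N t X ht
    have he := N_Eta_E N t X ht
    rw [← hMdef] at hq he ⊢
    rw [hd]
    simp only [Finset.univ_unique, Finset.prod_singleton, Finset.sum_singleton, smul_eq_mul,
      Finset.erase_singleton, Finset.prod_empty, one_mul]
    generalize exp (2 * Real.pi * I * r * M * ((vl 2 M X : ℝ) : ℂ) ^ 2) = g
    generalize 2 * Real.pi * I * r * M * (2 * ((vl 2 M X : ℝ) : ℂ)) = g1
    generalize 2 * sin (2 * Real.pi * ((vl 2 M X : ℝ) : ℂ)) = s1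
    generalize 2 * (cos (2 * Real.pi * ((vl 2 M X : ℝ) : ℂ)) * (2 * Real.pi)) = c1
    generalize qc M t ((vl 2 M X : ℝ) : ℂ) = q0 at hq ⊢
    generalize deriv (qc M t) ((vl 2 M X : ℝ) : ℂ) = q1 at he ⊢
    generalize ((S M t : ℝ) : ℂ) = σ at hq he ⊢
    generalize ((QN N X t : ℝ) : ℂ) = Q at hq ⊢
    generalize ((EN N X t : ℝ) : ℂ) = E at he ⊢
    generalize cG a M = c0
    field_simp
    linear_combination (c0 * (g * g1 * s1 + g * c1)) * hq + (c0 * g * s1) * he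

end Pool.Agent.H63.CLK
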