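import Pool.Agent.H63.CLK.K_ClkA

/-!
# All directions, algebra: the clock theorem for general weights

Copy of the global part of the clock theorem: `step_tw` (A_GTw), `glob`, `sumS_eq`, `clock` (A_Glob), `sumS` (A_GDef),
`sumS_congr` (A_GSum), `step_cup` (A_GCup), `step_cap` (A_GCap), with `evalX`, `Psi_verX`, `W` instead of `evalT`, `Psi_ver` and the
products of `qbin`. (The corner values range over `0, …, N`; for the corners of one vertex with the sum `N`:
`x 2 = B`, `x 3 = sL`, `x 1 = sR`, `x 0 = N - B - sL - sR`.) `step_cup`, `step_cap` may be copied, or `GV` generalised.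
-/

set_option autoImplicit false

namespace Pool.Agent.H63.CLK

open Pool.Agent.H63.VC7 Pool.Agent.H63.VC10


/-- the value of the rest of the word on the local vector -/
private noncomputable def K_ClkB_GV (N : ℕ) (X : ℕ → Matrix (I2 N) (I2 N) ℂ) (v : ℕ)
    (w : List TPiece) (T : List ℕ) : ℂ :=
  evalX N X v w (PsiA N T) [0]

open Classical in
/-- the left side of the global identity -/
private noncomputable def K_ClkB_GLs (N : ℕ) (X : ℕ → Matrix (I2 N) (I2 N) ℂ) (w : List TPiece)
    (S : Sweep) (s : List (Fin 4 → ℕ)) : ℂ :=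
  sumL N S.gaps.length (fun T => if AdmG N S s T then K_ClkB_GV N X S.cor.length w T else 0)

/-- weighted sum over the lists of `k` corner states -/
private noncomputable def K_ClkB_sumS (N : ℕ) (W : ℕ → ℕ → ℕ → ℕ → ℂ) :
    ℕ → ℕ → (List (Fin 4 → ℕ) → ℂ) → ℂ
  | _, 0, F => F []
  | v, k + 1, F => ∑ x ∈ Fintype.piFinset (fun _ : Fin 4 => Finset.range (N + 1)),
      if ∑ j, x j = N then W v (x 2) (x 3) (x 1) *
        K_ClkB_sumS N W (v + 1) k (fun l => F (x :: l)) else 0

private theorem K_ClkB_cup {α : Type*} (q : ℂ) (N i : ℕ) (A : Finset α) (ψ : α → List ℕ → ℂ) :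
    act q N (.cup i) (fun l => ∑ a ∈ A, ψ a l) = fun l => ∑ a ∈ A, act q N (.cup i) (ψ a) l := by
  funext l
  simp only [act]
  rcases l.drop i with _ | ⟨c, _ | ⟨d, r⟩⟩
  · simp
  · simp
  · by_cases h : c + d = N
    · simp only [if_pos h]
      rw [Finset.mul_sum]
    · simp only [if_neg h]
      simp

private theorem K_ClkB_cap {α : Type*} (q : ℂ) (N i : ℕ) (A : Finset α) (ψ : α → List ℕ → ℂ) :
    act q N (.cap i) (fun l => ∑ a ∈ A, ψ a l) = fun l => ∑ a ∈ A, act q N (.cap i) (ψ a) l := by
  funext l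
  simp only [act]
  rw [Finset.sum_comm]
  refine Finset.sum_congr rfl fun a _ => ?_
  rw [Finset.mul_sum]

private theorem K_ClkB_tw {α : Type*} (N i : ℕ) (X : Matrix (I2 N) (I2 N) ℂ) (A : Finset α)
    (ψ : α → List ℕ → ℂ) :
    actX N X i (fun l => ∑ a ∈ A, ψ a l) = fun l => ∑ a ∈ A, actX N X i (ψ a) l := by
  funext l
  simp only [actX]
  rcases l.drop i with _ | ⟨c, _ | ⟨d, r⟩⟩
  · simp
  · simp
  · simp only [Finset.mul_sum]
    symm
    rw [Finset.sum_comm]
    refine Finset.sum_congr rfl fun a _ => ?_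
    rw [Finset.sum_comm]

private theorem K_ClkB_cup' (q : ℂ) (N i : ℕ) (c : ℂ) (ψ : List ℕ → ℂ) :
    act q N (.cup i) (fun l => c * ψ l) = fun l => c * act q N (.cup i) ψ l := by
  funext l
  simp only [act]
  rcases l.drop i with _ | ⟨x, _ | ⟨d, r⟩⟩
  · simp
  · simp
  · by_cases h : x + d = N
    · simp only [if_pos h]
      ring
    · simp only [if_neg h]
      simp

private theorem K_ClkB_cap' (q : ℂ) (N i : ℕ) (c : ℂ) (ψ : List ℕ → ℂ) :
    act q N (.cap i) (fun l => c * ψ l) = fun l => c * act q N (.cap i) ψ l := by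
  funext l
  simp only [act]
  rw [Finset.mul_sum]
  refine Finset.sum_congr rfl fun a _ => ?_
  ring

private theorem K_ClkB_tw' (N i : ℕ) (X : Matrix (I2 N) (I2 N) ℂ) (c : ℂ) (ψ : List ℕ → ℂ) :
    actX N X i (fun l => c * ψ l) = fun l => c * actX N X i ψ l := by
  funext l
  simp only [actX]
  rcases l.drop i with _ | ⟨x, _ | ⟨d, r⟩⟩
  · simp
  · simp
  · simp only []
    rw [Finset.mul_sum]
    refine Finset.sum_congr rfl fun a _ => ?_
    rw [Finset.mul_sum]
    refine Finset.sum_congr rfl fun b _ => ?_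
    ring

private theorem K_ClkB_evalX_sum {α : Type*} (N : ℕ) (X : ℕ → Matrix (I2 N) (I2 N) ℂ) (v : ℕ) (w : List TPiece) (A : Finset α)
    (ψ : α → List ℕ → ℂ) (l : List ℕ) :
    evalX N X v w (fun l => ∑ a ∈ A, ψ a l) l = ∑ a ∈ A, evalX N X v w (ψ a) l := by
  induction w generalizing v ψ l with
  | nil => simp only [evalX]
  | cons x w ih =>
    cases x with
    | cup i =>
      simp only [evalX]
      rw [K_ClkB_cup]
      exact ih _ _ _
    | cap i =>
      simp only [evalX]
      rw [K_ClkB_cap]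
      exact ih _ _ _
    | tw i =>
      simp only [evalX]
      rw [K_ClkB_tw]
      exact ih _ _ _

private theorem K_ClkB_evalX_smul (N : ℕ) (X : ℕ → Matrix (I2 N) (I2 N) ℂ) (v : ℕ) (w : List TPiece) (c : ℂ)
    (ψ : List ℕ → ℂ) (l : List ℕ) :
    evalX N X v w (fun l => c * ψ l) l = c * evalX N X v w ψ l := by
  induction w generalizing v ψ l with
  | nil => simp only [evalX]
  | cons x w ih =>
    cases x with
    | cup i =>
      simp only [evalX]
      rw [K_ClkB_cup']
      exact ih _ _ _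
    | cap i =>
      simp only [evalX]
      rw [K_ClkB_cap']
      exact ih _ _ _
    | tw i =>
      simp only [evalX]
      rw [K_ClkB_tw']
      exact ih _ _ _


open Classical in
private theorem K_ClkB_cu_reindex (N : ℕ) (A : ℕ → Prop) (g : ℕ → ℕ → ℂ) :
    (∑ y ∈ Finset.range (N + 1), if A y then ∑ u ∈ Finset.range (y + 1), g u (y - u) else 0) =
      ∑ u ∈ Finset.range (N + 1), ∑ u' ∈ Finset.range (N + 1),
        if u + u' ≤ N ∧ A (u + u') then g u u' else 0 := by
  have h1 : (∑ y ∈ Finset.range (N + 1),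
      if A y then ∑ u ∈ Finset.range (y + 1), g u (y - u) else 0) =
      ∑ y ∈ Finset.range (N + 1), ∑ u ∈ Finset.range (N + 1),
        if A y ∧ u ≤ y then g u (y - u) else 0 := by
    refine Finset.sum_congr rfl fun y hy => ?_
    rw [Finset.mem_range] at hy
    by_cases hA : A y
    · rw [if_pos hA]
      have h2 : Finset.range (y + 1) = (Finset.range (N + 1)).filter (fun u => u ≤ y) := by
        ext u
        simp only [Finset.mem_range, Finset.mem_filter]
        omega
      rw [h2, Finset.sum_filter]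
      refine Finset.sum_congr rfl fun u _ => ?_
      by_cases hu : u ≤ y
      · rw [if_pos hu, if_pos ⟨hA, hu⟩]
      · rw [if_neg hu, if_neg (fun h => hu h.2)]
    · rw [if_neg hA]
      symm
      refine Finset.sum_eq_zero fun u _ => ?_
      rw [if_neg (fun h => hA h.1)]
  rw [h1, Finset.sum_comm]
  refine Finset.sum_congr rfl fun u _ => ?_
  rw [← Finset.sum_filter, ← Finset.sum_filter]
  refine Finset.sum_nbij' (fun y => y - u) (fun u' => u + u') ?_ ?_ ?_ ?_ ?_
  · intro y hy
    simp only [Finset.mem_filter, Finset.mem_range] at hy ⊢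
    have h3 : u + (y - u) = y := by omega
    rw [h3]
    exact ⟨by omega, by omega, hy.2.1⟩
  · intro u' hu'
    simp only [Finset.mem_filter, Finset.mem_range] at hu' ⊢
    exact ⟨by omega, hu'.2.2, by omega⟩
  · intro y hy
    simp only [Finset.mem_filter, Finset.mem_range] at hy ⊢
    omega
  · intro u' hu'
    simp only [Finset.mem_filter, Finset.mem_range] at hu' ⊢
    omega
  · intro y hy
    rfl

private theorem K_ClkB_cu_adm (N : ℕ) (S S' : Sweep) (s : List (Fin 4 → ℕ)) (p r : List ℕ) (a : ℕ)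
    (h : InvA S) (hg : S.gaps = p ++ a :: r)
    (hS' : S' = ⟨p ++ a :: S.nxt :: a :: r, S.nxt :: S.faces, S.nxt + 1, S.cor⟩)
    (P R : List ℕ) (hP : p.length = P.length) (hPN : ∀ x ∈ P, x ≤ N) (hRN : ∀ x ∈ R, x ≤ N)
    (u z u' : ℕ) (hu : u ≤ N) (hz : z ≤ N) (hu' : u' ≤ N) :
    AdmG N S' s (P ++ u :: z :: u' :: R) ↔
      z = N ∧ (u + u' ≤ N ∧ AdmG N S s (P ++ (u + u') :: R)) := by
  have hap : ∀ x ∈ p, x ∈ S.faces := fun x hx => h.gaps x (by rw [hg]; simp [hx])
  have har : ∀ x ∈ r, x ∈ S.faces := fun x hx => h.gaps x (by rw [hg]; simp [hx])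
  have haa : a ∈ S.faces := h.gaps a (by rw [hg]; simp)
  have hnf : S.nxt ∉ S.faces := fun hm => absurd (h.lt _ hm) (lt_irrefl _)
  have hnp : gsum p P S.nxt = 0 := gsum_not_mem _ _ _ (fun hm => hnf (hap _ hm))
  have hnr : gsum r R S.nxt = 0 := gsum_not_mem _ _ _ (fun hm => hnf (har _ hm))
  have hnc : csumF S.cor s S.nxt = 0 :=
    csumF_not_mem _ _ _ (fun x hx j he => hnf (he ▸ h.cor x hx j))
  have hna : a ≠ S.nxt := fun he => hnf (he ▸ haa)
  have e1 : ∀ f, gsum (p ++ a :: S.nxt :: a :: r) (P ++ u :: z :: u' :: R) f =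
      gsum p P f + ((if a = f then u else 0) + ((if S.nxt = f then z else 0) +
        ((if a = f then u' else 0) + gsum r R f))) := by
    intro f
    rw [gsum_append _ _ _ _ _ hP]
    rfl
  have e2 : ∀ f, gsum (p ++ a :: r) (P ++ (u + u') :: R) f =
      gsum p P f + ((if a = f then u + u' else 0) + gsum r R f) := by
    intro f
    rw [gsum_append _ _ _ _ _ hP]
    rfl
  have key : ∀ f ∈ S.faces, gsum (p ++ a :: S.nxt :: a :: r) (P ++ u :: z :: u' :: R) f =
      gsum (p ++ a :: r) (P ++ (u + u') :: R) f := by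
    intro f hf
    have hfn : S.nxt ≠ f := fun he => hnf (he ▸ hf)
    rw [e1, e2, if_neg hfn]
    by_cases haf : a = f
    · simp only [if_pos haf]
      omega
    · simp only [if_neg haf]
      omega
  have hnx : gsum (p ++ a :: S.nxt :: a :: r) (P ++ u :: z :: u' :: R) S.nxt = z := by
    rw [e1, hnp, hnr, if_neg hna, if_neg hna, if_pos rfl]
    omega
  rw [hS']
  unfold AdmG
  rw [hg]
  constructor
  · rintro ⟨_, h2, h3⟩
    have hz' : z = N := by
      have := h3 S.nxt (by simp)
      simp only [hnx, hnc] at this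
      omega
    have h3' : ∀ f ∈ S.faces, gsum (p ++ a :: r) (P ++ (u + u') :: R) f + csumF S.cor s f = N := by
      intro f hf
      rw [← key f hf]
      exact h3 f (List.mem_cons_of_mem _ hf)
    have hle : u + u' ≤ N := by
      have := h3' a haa
      rw [e2, if_pos rfl] at this
      omega
    refine ⟨hz', hle, ?_, h2, h3'⟩
    intro x hx
    rw [List.mem_append, List.mem_cons] at hx
    rcases hx with hx | rfl | hx
    · exact hPN x hx
    · exact hle
    · exact hRN x hx
  · rintro ⟨hz', hle, _, h2, h3⟩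
    refine ⟨?_, h2, ?_⟩
    · intro x hx
      rw [List.mem_append, List.mem_cons, List.mem_cons, List.mem_cons] at hx
      rcases hx with hx | rfl | rfl | rfl | hx
      · exact hPN x hx
      · exact hu
      · exact hz
      · exact hu'
      · exact hRN x hx
    · intro f hf
      simp only [List.mem_cons] at hf
      rcases hf with rfl | hf
      · simp only [hnx, hnc]
        omega
      · simp only [key f hf]
        exact h3 f hf

private theorem K_ClkB_step_cup (N : ℕ) (X : ℕ → Matrix (I2 N) (I2 N) ℂ) (w : List TPiece) (S S' : Sweep) (s : List (Fin 4 → ℕ)) (i : ℕ)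
    (h : InvA S) (hs : s.length = S.cor.length) (hx : S.step (.cup i) = some S') :
    K_ClkB_GLs N X (.cup i :: w) S s = K_ClkB_GLs N X w S' s := by
  classical
  obtain ⟨a, r, hd, hS'⟩ : ∃ a r, S.gaps.drop i = a :: r ∧
      S' = ⟨S.gaps.take i ++ a :: S.nxt :: a :: r, S.nxt :: S.faces, S.nxt + 1, S.cor⟩ := by
    rcases hd : S.gaps.drop i with _ | ⟨a, r⟩
    · simp only [Sweep.step, hd] at hx
      simp at hx
    · simp only [Sweep.step, hd, Option.some.injEq] at hx
      exact ⟨a, r, rfl, hx.symm⟩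
  have hg : S.gaps = S.gaps.take i ++ a :: r := by
    rw [← hd, List.take_append_drop]
  have hil : i < S.gaps.length := by
    by_contra hc
    push Not at hc
    rw [List.drop_eq_nil_of_le hc] at hd
    simp at hd
  have hpl : (S.gaps.take i).length = i := by
    rw [List.length_take]
    omega
  generalize hp : S.gaps.take i = p at *
  have hcor : S'.cor = S.cor := by rw [hS']
  have hgl : S.gaps.length = p.length + (r.length + 1) := by
    rw [hg]; simp
  have hgl' : S'.gaps.length = p.length + (r.length + 1 + 1 + 1) := by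
    rw [hS']; simp
  have h2 : 2 ≤ S.gaps.length := by
    have h0 := h.hd
    have h1 := h.lst
    rcases hG : S.gaps with _ | ⟨x, _ | ⟨y, l⟩⟩
    · rw [hG] at h0; simp at h0
    · rw [hG] at h0 h1
      simp at h0 h1
      omega
    · simp
  unfold K_ClkB_GLs
  rw [hgl, hgl', hcor, sumL_append, sumL_append]
  refine sumL_congr _ _ _ _ fun P hP hPN => ?_
  show (∑ y ∈ Finset.range (N + 1), sumL N r.length (fun R =>
      if AdmG N S s (P ++ y :: R) then K_ClkB_GV N X S.cor.length (.cup i :: w) (P ++ y :: R) else 0)) =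
    ∑ u ∈ Finset.range (N + 1), ∑ z ∈ Finset.range (N + 1), ∑ u' ∈ Finset.range (N + 1),
      sumL N r.length (fun R => if AdmG N S' s (P ++ u :: z :: u' :: R) then
        K_ClkB_GV N X S.cor.length w (P ++ u :: z :: u' :: R) else 0)
  rw [← sumL_sum]
  simp only [← sumL_sum]
  refine sumL_congr _ _ _ _ fun R hR hRN => ?_
  have hne : P ++ R ≠ [] := by
    intro he
    have := congrArg List.length he
    simp at this
    rw [this.1] at hP
    rw [this.2] at hR
    simp at hP hR
    omega
  have hGV : ∀ y ∈ Finset.range (N + 1), K_ClkB_GV N X S.cor.length (.cup i :: w) (P ++ y :: R) =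
      ∑ u ∈ Finset.range (y + 1), K_ClkB_GV N X S.cor.length w (P ++ u :: N :: (y - u) :: R) := by
    intro y hy
    rw [Finset.mem_range] at hy
    unfold K_ClkB_GV
    show evalX N X S.cor.length w (act (qz N) N (.cup i) (PsiA N (P ++ y :: R))) [0] = _
    have hi : i = P.length := by rw [hP, hpl]
    rw [hi, Psi_cup N P R y (by omega) hne, K_ClkB_evalX_sum]
  have hL : (∑ y ∈ Finset.range (N + 1), if AdmG N S s (P ++ y :: R) then
      K_ClkB_GV N X S.cor.length (.cup i :: w) (P ++ y :: R) else 0) =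
      ∑ y ∈ Finset.range (N + 1), if AdmG N S s (P ++ y :: R) then
        ∑ u ∈ Finset.range (y + 1), K_ClkB_GV N X S.cor.length w (P ++ u :: N :: (y - u) :: R) else 0 :=
    Finset.sum_congr rfl fun y hy => by rw [hGV y hy]
  rw [hL, K_ClkB_cu_reindex N (fun y => AdmG N S s (P ++ y :: R))
    (fun u u' => K_ClkB_GV N X S.cor.length w (P ++ u :: N :: u' :: R))]
  refine Finset.sum_congr rfl fun u hu => ?_
  rw [Finset.mem_range] at hu
  rw [Finset.sum_comm]
  refine Finset.sum_congr rfl fun u' hu' => ?_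
  rw [Finset.mem_range] at hu'
  have hadm : ∀ z ∈ Finset.range (N + 1), (AdmG N S' s (P ++ u :: z :: u' :: R) ↔
      z = N ∧ (u + u' ≤ N ∧ AdmG N S s (P ++ (u + u') :: R))) := by
    intro z hz
    rw [Finset.mem_range] at hz
    exact K_ClkB_cu_adm N S S' s p r a h hg hS' P R hP.symm hPN hRN u z u' (by omega) (by omega)
      (by omega)
  rw [Finset.sum_eq_single N]
  · have hN := hadm N (by simp)
    by_cases hc : u + u' ≤ N ∧ AdmG N S s (P ++ (u + u') :: R)
    · rw [if_pos hc, if_pos (hN.mpr ⟨rfl, hc⟩)]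
    · rw [if_neg hc, if_neg (fun h => hc (hN.mp h).2)]
  · intro z hz hzN
    rw [if_neg]
    intro hA
    exact hzN ((hadm z hz).mp hA).1
  · intro hN
    exact absurd (by simp) hN


private theorem K_ClkB_ca_sumL3 (N m n : ℕ) (F : List ℕ → ℂ) :
    sumL N (m + (n + 3)) F = sumL N m (fun P => sumL N n (fun R =>
      ∑ A ∈ Finset.range (N + 1), ∑ B ∈ Finset.range (N + 1), ∑ C ∈ Finset.range (N + 1),
        F (P ++ A :: B :: C :: R))) := by
  rw [sumL_append]
  refine sumL_congr N m _ _ fun P _ _ => ?_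
  rw [sumL_sum]
  change (∑ A ∈ Finset.range (N + 1), ∑ B ∈ Finset.range (N + 1), ∑ C ∈ Finset.range (N + 1),
    sumL N n (fun R => F (P ++ A :: B :: C :: R))) = _
  refine Finset.sum_congr rfl fun A _ => ?_
  rw [sumL_sum]
  refine Finset.sum_congr rfl fun B _ => ?_
  rw [sumL_sum]

private theorem K_ClkB_ca_sumL1 (N m n : ℕ) (F : List ℕ → ℂ) :
    sumL N (m + (n + 1)) F = sumL N m (fun P => sumL N n (fun R =>
      ∑ D ∈ Finset.range (N + 1), F (P ++ D :: R))) := by
  rw [sumL_append]
  refine sumL_congr N m _ _ fun P _ _ => ?_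
  rw [sumL_sum]
  rfl

private theorem K_ClkB_ca_step (S S' : Sweep) (i : ℕ) (hx : S.step (.cap i) = some S') :
    ∃ (p : List ℕ) (a m b : ℕ) (r : List ℕ), S.gaps = p ++ a :: m :: b :: r ∧ p.length = i ∧
      p = S.gaps.take i ∧ S.gaps.drop i = a :: m :: b :: r ∧ a ≠ b ∧
      S' = ⟨(p ++ a :: r).map (ident a b), S.faces.erase (max a b), S.nxt,
          S.cor.map (fun x k => ident a b (x k))⟩ := by
  simp only [Sweep.step] at hx
  split at hx
  · rename_i a m b r hd
    split at hx
    · cases hx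
    · rename_i hab
      refine ⟨S.gaps.take i, a, m, b, r, ?_, ?_, rfl, hd, fun e => hab (Or.inl e), ?_⟩
      · rw [← hd, List.take_append_drop]
      · have h1 := congrArg List.length hd
        rw [List.length_drop] at h1
        simp only [List.length_cons] at h1
        rw [List.length_take]
        omega
      · exact (Option.some.inj hx).symm
  · cases hx

private theorem K_ClkB_ca_evalT_zero (N : ℕ) (X : ℕ → Matrix (I2 N) (I2 N) ℂ) (v : ℕ)
    (w : List TPiece) (l : List ℕ) : evalX N X v w (fun _ => 0) l = 0 := by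
  have h := K_ClkB_evalX_sum N X v w (∅ : Finset ℕ) (fun _ _ => 0) l
  simpa using h

private theorem K_ClkB_ca_GV (N : ℕ) (X : ℕ → Matrix (I2 N) (I2 N) ℂ) (v : ℕ) (w : List TPiece)
    (P R : List ℕ) (A B C : ℕ) (hA : A ≤ N) (hB : B ≤ N) (hC : C ≤ N) (h : P ++ R ≠ []) :
    K_ClkB_GV N X v (.cap P.length :: w) (P ++ A :: B :: C :: R) =
      if B = 0 ∧ N ≤ A + C then K_ClkB_GV N X v w (P ++ (A + C - N) :: R) else 0 := by
  unfold K_ClkB_GV
  simp only [evalX]
  rw [Psi_cap N P R A B C hA hB hC h]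
  split_ifs with h
  · rfl
  · rw [K_ClkB_ca_evalT_zero]

private theorem K_ClkB_ca_comb (N α β : ℕ) (Q : Prop) (g : ℕ → ℂ) (L : ℕ → ℕ → ℕ → Prop)
    (M : ℕ → Prop) [∀ A B C, Decidable (L A B C)] [∀ D, Decidable (M D)]
    (hL : ∀ A C, A ≤ N → C ≤ N → (L A 0 C ↔ Q ∧ A + α = N ∧ C + β = N))
    (hM : ∀ D, D ≤ N → (M D ↔ Q ∧ D + α + β = N)) :
    (∑ A ∈ Finset.range (N + 1), ∑ B ∈ Finset.range (N + 1), ∑ C ∈ Finset.range (N + 1),
      if L A B C then (if B = 0 ∧ N ≤ A + C then g (A + C - N) else 0) else 0) =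
      ∑ D ∈ Finset.range (N + 1), if M D then g D else 0 := by
  have hm : ∀ x, x ∈ Finset.range (N + 1) ↔ x ≤ N := fun x => by
    rw [Finset.mem_range]
    omega
  by_cases h : Q ∧ α + β ≤ N
  · obtain ⟨hQ, hab⟩ := h
    rw [Finset.sum_eq_single (N - α), Finset.sum_eq_single 0, Finset.sum_eq_single (N - β),
      Finset.sum_eq_single (N - α - β)]
    · have h1 : L (N - α) 0 (N - β) :=
        (hL _ _ (by omega) (by omega)).2 ⟨hQ, by omega, by omega⟩
      have h2 : M (N - α - β) := (hM _ (by omega)).2 ⟨hQ, by omega⟩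
      rw [if_pos h1, if_pos h2, if_pos ⟨rfl, by omega⟩]
      congr 1
      omega
    · intro D hD hne
      rw [if_neg]
      intro h2
      have := ((hM D ((hm D).1 hD)).1 h2).2
      omega
    · intro hn
      exact absurd ((hm _).2 (by omega)) hn
    · intro C hC hne
      rw [if_neg]
      intro h2
      have := ((hL _ C (by omega) ((hm C).1 hC)).1 h2).2.2
      omega
    · intro hn
      exact absurd ((hm _).2 (by omega)) hn
    · intro B hB hne
      refine Finset.sum_eq_zero fun C hC => ?_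
      rw [if_neg (fun h2 : B = 0 ∧ _ => hne h2.1), ite_self]
    · intro hn
      exact absurd ((hm _).2 (by omega)) hn
    · intro A hA hne
      refine Finset.sum_eq_zero fun B hB => Finset.sum_eq_zero fun C hC => ?_
      by_cases hB0 : B = 0
      · subst hB0
        rw [if_neg]
        intro h2
        have := ((hL A C ((hm A).1 hA) ((hm C).1 hC)).1 h2).2.1
        omega
      · rw [if_neg (fun h2 : B = 0 ∧ _ => hB0 h2.1), ite_self]
    · intro hn
      exact absurd ((hm _).2 (by omega)) hn
  · rw [Finset.sum_eq_zero, Finset.sum_eq_zero]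
    · intro D hD
      rw [if_neg]
      intro h2
      have := (hM D ((hm D).1 hD)).1 h2
      exact h ⟨this.1, by omega⟩
    · intro A hA
      refine Finset.sum_eq_zero fun B hB => Finset.sum_eq_zero fun C hC => ?_
      by_cases hL' : L A B C
      · rw [if_pos hL', if_neg]
        rintro ⟨rfl, h3⟩
        have := (hL A C ((hm A).1 hA) ((hm C).1 hC)).1 hL'
        exact h ⟨this.1, by omega⟩
      · rw [if_neg hL']

private theorem K_ClkB_ca_gsum3 (p P : List ℕ) (hp : p.length = P.length) (a b c A B C : ℕ)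
    (r R : List ℕ) (f : ℕ) :
    gsum (p ++ a :: b :: c :: r) (P ++ A :: B :: C :: R) f =
      gsum p P f + ((if a = f then A else 0) + ((if b = f then B else 0) +
        ((if c = f then C else 0) + gsum r R f))) := by
  rw [gsum_append _ _ _ _ _ hp]
  rfl

private theorem K_ClkB_ca_gsum1 (p P : List ℕ) (hp : p.length = P.length) (a A : ℕ)
    (r R : List ℕ) (f : ℕ) :
    gsum (p ++ a :: r) (P ++ A :: R) f =
      gsum p P f + ((if a = f then A else 0) + gsum r R f) := by
  rw [gsum_append _ _ _ _ _ hp]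
  rfl

private theorem K_ClkB_step_cap (N : ℕ) (X : ℕ → Matrix (I2 N) (I2 N) ℂ) (w : List TPiece) (S S' : Sweep) (s : List (Fin 4 → ℕ)) (i : ℕ)
    (h : InvA S) (hs : s.length = S.cor.length) (hx : S.step (.cap i) = some S') :
    K_ClkB_GLs N X (.cap i :: w) S s = K_ClkB_GLs N X w S' s := by
  classical
  obtain ⟨p, a, m, b, r, hg, hpi, hp, hd, hab, hS'⟩ := K_ClkB_ca_step S S' i hx
  have hne := cap_ne S S' i h hx a m b r hd
  rw [← hp] at hne
  subst hS'
  have ha : a ∈ S.faces := h.gaps a (by rw [hg]; simp)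
  have hb : b ∈ S.faces := h.gaps b (by rw [hg]; simp)
  unfold K_ClkB_GLs
  simp only
  have hl1 : S.gaps.length = p.length + (r.length + 3) := by
    rw [hg]
    simp only [List.length_append, List.length_cons]
  have hl2 : ((p ++ a :: r).map (ident a b)).length = p.length + (r.length + 1) := by
    simp only [List.length_map, List.length_append, List.length_cons]
  have hl3 : (S.cor.map (fun x k => ident a b (x k))).length = S.cor.length := by
    simp
  rw [hl1, hl2, hl3, K_ClkB_ca_sumL3, K_ClkB_ca_sumL1]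
  refine sumL_congr N _ _ _ fun P hP hP' => ?_
  refine sumL_congr N _ _ _ fun R hR hR' => ?_
  have hPR : P ++ R ≠ [] := by
    intro he
    apply hne
    rw [← List.length_eq_zero_iff, List.length_append] at he ⊢
    omega
  have hpP : p.length = P.length := hP.symm
  have e1 : (∑ A ∈ Finset.range (N + 1), ∑ B ∈ Finset.range (N + 1), ∑ C ∈ Finset.range (N + 1),
      if AdmG N S s (P ++ A :: B :: C :: R) then
        K_ClkB_GV N X S.cor.length (.cap i :: w) (P ++ A :: B :: C :: R) else 0) =
      ∑ A ∈ Finset.range (N + 1), ∑ B ∈ Finset.range (N + 1), ∑ C ∈ Finset.range (N + 1),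
      if AdmG N S s (P ++ A :: B :: C :: R) then
        (if B = 0 ∧ N ≤ A + C then K_ClkB_GV N X S.cor.length w (P ++ (A + C - N) :: R) else 0)
        else 0 := by
    refine Finset.sum_congr rfl fun A hA => Finset.sum_congr rfl fun B hB =>
      Finset.sum_congr rfl fun C hC => ?_
    rw [Finset.mem_range] at hA hB hC
    rw [← hpi, hpP, K_ClkB_ca_GV N X _ w P R A B C (by omega) (by omega) (by omega) hPR]
  rw [e1]
  set α : ℕ := gsum p P a + gsum r R a + csumF S.cor s a with hα
  set β : ℕ := gsum p P b + gsum r R b + csumF S.cor s b with hβ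
  refine K_ClkB_ca_comb N α β
    ((∀ x ∈ s, ∑ j, x j = N) ∧ ∀ f ∈ S.faces, f ≠ a → f ≠ b →
      gsum p P f + gsum r R f + csumF S.cor s f = N)
    (fun D => K_ClkB_GV N X S.cor.length w (P ++ D :: R)) _ _ ?_ ?_
  · intro A C hA hC
    unfold AdmG
    simp only [hg, K_ClkB_ca_gsum3 p P hpP]
    constructor
    · rintro ⟨h1, h2, h3⟩
      refine ⟨⟨h2, fun f hf hfa hfb => ?_⟩, ?_, ?_⟩
      · have h4 := h3 f hf
        rw [if_neg (Ne.symm hfa), if_neg (Ne.symm hfb)] at h4
        split_ifs at h4 <;> omega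
      · have h4 := h3 a ha
        rw [if_pos rfl, if_neg (Ne.symm hab)] at h4
        split_ifs at h4 <;> omega
      · have h4 := h3 b hb
        rw [if_neg hab, if_pos (rfl : b = b)] at h4
        split_ifs at h4 <;> omega
    · rintro ⟨⟨h2, h3⟩, h4, h5⟩
      refine ⟨?_, h2, ?_⟩
      · intro y hy
        simp only [List.mem_append, List.mem_cons] at hy
        rcases hy with hy | hy | hy | hy | hy
        · exact hP' y hy
        · omega
        · omega
        · omega
        · exact hR' y hy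
      · intro f hf
        by_cases hfa : f = a
        · subst hfa
          rw [if_pos rfl, if_neg (Ne.symm hab)]
          split_ifs <;> omega
        · by_cases hfb : f = b
          · subst hfb
            rw [if_neg hab, if_pos (rfl : f = f)]
            split_ifs <;> omega
          · have h6 := h3 f hf hfa hfb
            rw [if_neg (Ne.symm hfa), if_neg (Ne.symm hfb)]
            split_ifs <;> omega
  · intro D hD
    have hmx : max a b ∈ S.faces := by
      rcases max_choice a b with e | e <;> rw [e] <;> assumption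
    have hmn : min a b ∈ S.faces := by
      rcases min_choice a b with e | e <;> rw [e] <;> assumption
    unfold AdmG
    simp only [h.nodup.mem_erase_iff]
    constructor
    · rintro ⟨h1, h2, h3⟩
      refine ⟨⟨h2, fun f hf hfa hfb => ?_⟩, ?_⟩
      · have hf1 : f ≠ max a b := by rcases max_choice a b with e | e <;> rw [e] <;> assumption
        have hf2 : f ≠ min a b := by rcases min_choice a b with e | e <;> rw [e] <;> assumption
        have h4 := h3 f ⟨hf1, hf⟩
        rw [gsum_ident _ _ _ _ _ hab hf1, csumF_ident _ _ _ _ _ hab hf1, if_neg hf2, if_neg hf2,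
          K_ClkB_ca_gsum1 p P hpP, if_neg (Ne.symm hfa)] at h4
        omega
      · have hf1 : min a b ≠ max a b := by omega
        have h4 := h3 (min a b) ⟨hf1, hmn⟩
        rw [gsum_ident _ _ _ _ _ hab hf1, csumF_ident _ _ _ _ _ hab hf1, if_pos rfl, if_pos rfl,
          K_ClkB_ca_gsum1 p P hpP, K_ClkB_ca_gsum1 p P hpP, if_pos rfl, if_neg hab] at h4
        omega
    · rintro ⟨⟨h2, h3⟩, h4⟩
      refine ⟨?_, h2, ?_⟩
      · intro y hy
        simp only [List.mem_append, List.mem_cons] at hy
        rcases hy with hy | hy | hy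
        · exact hP' y hy
        · omega
        · exact hR' y hy
      · rintro f ⟨hf1, hf⟩
        rw [gsum_ident _ _ _ _ _ hab hf1, csumF_ident _ _ _ _ _ hab hf1]
        by_cases hf2 : f = min a b
        · rw [if_pos hf2, if_pos hf2, K_ClkB_ca_gsum1 p P hpP, K_ClkB_ca_gsum1 p P hpP, if_pos rfl,
            if_neg hab]
          omega
        · have hfa : f ≠ a := by omega
          have hfb : f ≠ b := by omega
          have h6 := h3 f hf hfa hfb
          rw [if_neg hf2, if_neg hf2, K_ClkB_ca_gsum1 p P hpP, if_neg (Ne.symm hfa)]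
          omega


private theorem K_ClkB_t_sumL3 (N m n : ℕ) (F : List ℕ → ℂ) :
    sumL N (m + (n + 3)) F = sumL N m (fun P => sumL N n (fun R =>
      ∑ A ∈ Finset.range (N + 1), ∑ B ∈ Finset.range (N + 1), ∑ C ∈ Finset.range (N + 1),
        F (P ++ A :: B :: C :: R))) := by
  rw [sumL_append]
  refine sumL_congr N m _ _ fun P _ _ => ?_
  rw [sumL_sum]
  change (∑ A ∈ Finset.range (N + 1), ∑ B ∈ Finset.range (N + 1), ∑ C ∈ Finset.range (N + 1),
    sumL N n (fun R => F (P ++ A :: B :: C :: R))) = _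
  refine Finset.sum_congr rfl fun A _ => ?_
  rw [sumL_sum]
  refine Finset.sum_congr rfl fun B _ => ?_
  rw [sumL_sum]

private theorem K_ClkB_t_step (S S' : Sweep) (i : ℕ) (hx : S.step (.tw i) = some S') :
    ∃ (p : List ℕ) (a b c : ℕ) (r : List ℕ), S.gaps = p ++ a :: b :: c :: r ∧ p.length = i ∧
      S' = ⟨p ++ a :: S.nxt :: c :: r, S.nxt :: S.faces, S.nxt + 1,
        S.cor ++ [![S.nxt, c, b, a]]⟩ := by
  simp only [Sweep.step] at hx
  split at hx
  · rename_i a b c r hd
    refine ⟨S.gaps.take i, a, b, c, r, ?_, ?_, ?_⟩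
    · rw [← hd, List.take_append_drop]
    · have h1 := congrArg List.length hd
      rw [List.length_drop] at h1
      simp only [List.length_cons] at h1
      rw [List.length_take]
      omega
    · exact (Option.some.inj hx).symm
  · cases hx

private theorem K_ClkB_t_GV (N : ℕ) (X : ℕ → Matrix (I2 N) (I2 N) ℂ) (W : ℕ → ℕ → ℕ → ℕ → ℂ)
    (v : ℕ) (w : List TPiece) (hX : CRule N (X v) (W v))
    (P R : List ℕ) (A B C : ℕ) (hA : A ≤ N) (hB : B ≤ N) (hC : C ≤ N) :
    K_ClkB_GV N X v (.tw P.length :: w) (P ++ A :: B :: C :: R) =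
      ∑ sL ∈ Finset.range (N + 1), ∑ sR ∈ Finset.range (N + 1),
        if sL ≤ A ∧ sR ≤ C ∧ B + sL + sR ≤ N then
          W v B sL sR *
            K_ClkB_GV N X (v + 1) w (P ++ (A - sL) :: (B + sL + sR) :: (C - sR) :: R)
        else 0 := by
  unfold K_ClkB_GV
  simp only [evalX]
  rw [Psi_verX N (X v) (W v) hX P R A B C hA hB hC, K_ClkB_evalX_sum]
  refine Finset.sum_congr rfl fun sL _ => ?_
  rw [K_ClkB_evalX_sum]
  refine Finset.sum_congr rfl fun sR _ => ?_
  split_ifs with h
  · rw [K_ClkB_evalX_smul]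
  · rw [K_ClkB_ca_evalT_zero]

private theorem K_ClkB_t_gsum (p P : List ℕ) (hp : p.length = P.length) (a b c A B C : ℕ)
    (r R : List ℕ) (f : ℕ) :
    gsum (p ++ a :: b :: c :: r) (P ++ A :: B :: C :: R) f =
      gsum p P f + ((if a = f then A else 0) + ((if b = f then B else 0) +
        ((if c = f then C else 0) + gsum r R f))) := by
  rw [gsum_append _ _ _ _ _ hp]
  rfl

private theorem K_ClkB_t_csum (cor s : List (Fin 4 → ℕ)) (hs : cor.length = s.length)
    (n c b a : ℕ) (x : Fin 4 → ℕ) (f : ℕ) :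
    csumF (cor ++ [![n, c, b, a]]) (s ++ [x]) f = csumF cor s f +
      ((if n = f then x 0 else 0) + (if c = f then x 1 else 0) + (if b = f then x 2 else 0) +
        (if a = f then x 3 else 0)) := by
  rw [csumF_append _ _ _ _ _ hs]
  simp only [csumF, Fin.sum_univ_four, add_zero]
  rfl

private theorem K_ClkB_t_adm (N : ℕ) (S : Sweep) (s : List (Fin 4 → ℕ)) (h : InvA S)
    (hs : s.length = S.cor.length) (p P : List ℕ) (hp : p.length = P.length)
    (a b c : ℕ) (r R : List ℕ) (hg : S.gaps = p ++ a :: b :: c :: r)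
    (hP : ∀ y ∈ P, y ≤ N) (hR : ∀ y ∈ R, y ≤ N)
    (x : Fin 4 → ℕ) (A B C : ℕ) :
    (AdmG N ⟨p ++ a :: S.nxt :: c :: r, S.nxt :: S.faces, S.nxt + 1,
        S.cor ++ [![S.nxt, c, b, a]]⟩ (s ++ [x]) (P ++ A :: B :: C :: R)) ↔
      (∑ j, x j = N ∧ B + x 0 = N ∧ A + x 3 ≤ N ∧ C + x 1 ≤ N ∧
        AdmG N S s (P ++ (A + x 3) :: x 2 :: (C + x 1) :: R)) := by
  have ha : a ∈ S.faces := h.gaps a (by rw [hg]; simp)
  have hb : b ∈ S.faces := h.gaps b (by rw [hg]; simp)
  have hc : c ∈ S.faces := h.gaps c (by rw [hg]; simp)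
  have han : a ≠ S.nxt := (h.lt a ha).ne
  have hbn : b ≠ S.nxt := (h.lt b hb).ne
  have hcn : c ≠ S.nxt := (h.lt c hc).ne
  have hpn : S.nxt ∉ p := by
    intro hm
    have := h.lt S.nxt (h.gaps _ (by rw [hg]; simp [hm]))
    omega
  have hrn : S.nxt ∉ r := by
    intro hm
    have := h.lt S.nxt (h.gaps _ (by rw [hg]; simp [hm]))
    omega
  have hcorn : ∀ y ∈ S.cor, ∀ j, y j ≠ S.nxt := by
    intro y hy j hj
    have := h.lt _ (h.cor y hy j)
    omega
  unfold AdmG
  simp only [hg]
  simp only [K_ClkB_t_gsum p P hp, K_ClkB_t_csum S.cor s hs.symm, List.mem_append, List.mem_cons,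
    List.not_mem_nil, or_false, forall_eq_or_imp]
  constructor
  · rintro ⟨h1, h2, h3, h4⟩
    have hsum : ∑ j, x j = N := h2 x (Or.inr rfl)
    have hB0 : B + x 0 = N := by
      simp only [gsum_not_mem p P _ hpn, gsum_not_mem r R _ hrn, csumF_not_mem S.cor s _ hcorn,
        if_neg han, if_neg hcn, if_neg hbn, if_true] at h3
      omega
    have h5 : ∀ f ∈ S.faces, gsum p P f + ((if a = f then A + x 3 else 0) +
        ((if b = f then x 2 else 0) + ((if c = f then C + x 1 else 0) + gsum r R f))) +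
        csumF S.cor s f = N := by
      intro f hf
      have h6 := h4 f hf
      have h7 : S.nxt ≠ f := fun he => by have := h.lt f hf; omega
      rw [if_neg h7, if_neg h7] at h6
      split_ifs at h6 ⊢ <;> omega
    have hA' : A + x 3 ≤ N := by
      have h6 := h5 a ha
      rw [if_pos rfl] at h6
      omega
    have hC' : C + x 1 ≤ N := by
      have h6 := h5 c hc
      rw [if_pos (rfl : c = c)] at h6
      omega
    have hB' : x 2 ≤ N := by
      have h6 := h5 b hb
      rw [if_pos (rfl : b = b)] at h6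
      omega
    refine ⟨hsum, hB0, hA', hC', ?_, fun y hy => h2 y (Or.inl hy), h5⟩
    rintro y (hy | hy | hy | hy | hy)
    · exact hP y hy
    · rw [hy]; exact hA'
    · rw [hy]; exact hB'
    · rw [hy]; exact hC'
    · exact hR y hy
  · rintro ⟨hsum, hB0, hA', hC', h1, h2, h5⟩
    refine ⟨?_, ?_, ?_, ?_⟩
    · rintro y (hy | hy | hy | hy | hy)
      · exact hP y hy
      · rw [hy]; omega
      · rw [hy]; omega
      · rw [hy]; omega
      · exact hR y hy
    · rintro y (hy | hy)
      · exact h2 y hy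
      · rw [hy]; exact hsum
    · simp only [gsum_not_mem p P _ hpn, gsum_not_mem r R _ hrn, csumF_not_mem S.cor s _ hcorn,
        if_neg han, if_neg hcn, if_neg hbn, if_true]
      omega
    · intro f hf
      have h6 := h5 f hf
      have h7 : S.nxt ≠ f := fun he => by have := h.lt f hf; omega
      rw [if_neg h7, if_neg h7]
      split_ifs at h6 ⊢ <;> omega

private theorem K_ClkB_step_tw (N : ℕ) (X : ℕ → Matrix (I2 N) (I2 N) ℂ)
    (W : ℕ → ℕ → ℕ → ℕ → ℂ) (w : List TPiece) (S S' : Sweep) (s : List (Fin 4 → ℕ)) (i : ℕ)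
    (h : InvA S) (hs : s.length = S.cor.length)
    (hX : CRule N (X S.cor.length) (W S.cor.length))
    (hx : S.step (.tw i) = some S') :
    K_ClkB_GLs N X (.tw i :: w) S s =
      ∑ x ∈ Fintype.piFinset (fun _ : Fin 4 => Finset.range (N + 1)),
        if ∑ j, x j = N then W S.cor.length (x 2) (x 3) (x 1) *
          K_ClkB_GLs N X w S' (s ++ [x]) else 0 := by
  classical
  obtain ⟨p, a, b, c, r, hg, hpi, hS'⟩ := K_ClkB_t_step S S' i hx
  subst hS'
  set v := S.cor.length with hv
  unfold K_ClkB_GLs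
  simp only
  have hl1 : S.gaps.length = p.length + (r.length + 3) := by
    rw [hg]
    simp only [List.length_append, List.length_cons]
  have hl2 : (p ++ a :: S.nxt :: c :: r).length = p.length + (r.length + 3) := by
    simp only [List.length_append, List.length_cons]
  have hl3 : (S.cor ++ [![S.nxt, c, b, a]]).length = v + 1 := by
    simp [hv]
  rw [hl1, hl2, hl3]
  -- right side
  have hR : ∀ x : Fin 4 → ℕ,
      (if ∑ j, x j = N then W v (x 2) (x 3) (x 1) *
        sumL N (p.length + (r.length + 3)) (fun T => if AdmG N ⟨p ++ a :: S.nxt :: c :: r,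
          S.nxt :: S.faces, S.nxt + 1, S.cor ++ [![S.nxt, c, b, a]]⟩ (s ++ [x]) T then
            K_ClkB_GV N X (v + 1) w T else 0) else 0)
      = sumL N p.length (fun P => sumL N r.length (fun R =>
        ∑ A ∈ Finset.range (N + 1), ∑ B ∈ Finset.range (N + 1), ∑ C ∈ Finset.range (N + 1),
          if ∑ j, x j = N ∧ AdmG N ⟨p ++ a :: S.nxt :: c :: r,
          S.nxt :: S.faces, S.nxt + 1, S.cor ++ [![S.nxt, c, b, a]]⟩ (s ++ [x])
            (P ++ A :: B :: C :: R) then W v (x 2) (x 3) (x 1) *
            K_ClkB_GV N X (v + 1) w (P ++ A :: B :: C :: R) else 0)) := by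
    intro x
    by_cases hN : ∑ j, x j = N
    · rw [if_pos hN, ← sumL_mul, K_ClkB_t_sumL3]
      refine sumL_congr N _ _ _ fun P _ _ => sumL_congr N _ _ _ fun R _ _ => ?_
      refine Finset.sum_congr rfl fun A _ => Finset.sum_congr rfl fun B _ =>
        Finset.sum_congr rfl fun C _ => ?_
      rw [mul_ite, mul_zero]
      simp only [hN, true_and]
    · rw [if_neg hN]
      symm
      refine (sumL_congr N _ _ (fun _ => 0) fun P _ _ => ?_).trans (sumL_zero N _)
      refine (sumL_congr N _ _ (fun _ => 0) fun R _ _ => ?_).trans (sumL_zero N _)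
      simp only [hN, false_and, if_false, Finset.sum_const_zero]
  rw [Finset.sum_congr rfl fun x _ => hR x]
  rw [← sumL_sum, K_ClkB_t_sumL3]
  refine sumL_congr N _ _ _ fun P hPl hPb => ?_
  rw [← sumL_sum]
  refine sumL_congr N _ _ _ fun R hRl hRb => ?_
  have hpP : p.length = P.length := hPl.symm
  -- left side as a sum over a product
  have hL : ∀ A ∈ Finset.range (N + 1), ∀ B ∈ Finset.range (N + 1), ∀ C ∈ Finset.range (N + 1),
      (if AdmG N S s (P ++ A :: B :: C :: R) then K_ClkB_GV N X v (.tw i :: w) (P ++ A :: B :: C :: R)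
        else 0) = ∑ sL ∈ Finset.range (N + 1), ∑ sR ∈ Finset.range (N + 1),
          if AdmG N S s (P ++ A :: B :: C :: R) ∧ (sL ≤ A ∧ sR ≤ C ∧
            B + sL + sR ≤ N) then
          W v B sL sR *
            K_ClkB_GV N X (v + 1) w (P ++ (A - sL) :: (B + sL + sR) :: (C - sR) :: R)
        else 0 := by
    intro A hA B hB C hC
    rw [Finset.mem_range] at hA hB hC
    have hi : i = P.length := by rw [← hpi, hpP]
    rw [hi, K_ClkB_t_GV N X W v w hX P R A B C (by omega) (by omega) (by omega)]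
    by_cases hAd : AdmG N S s (P ++ A :: B :: C :: R)
    · rw [if_pos hAd]
      simp only [hAd, true_and]
    · rw [if_neg hAd]
      simp only [hAd, false_and, if_false, Finset.sum_const_zero]
  rw [Finset.sum_congr rfl fun A hA => Finset.sum_congr rfl fun B hB =>
    Finset.sum_congr rfl fun C hC => hL A hA B hB C hC]
  have hLL : (∑ A ∈ Finset.range (N + 1), ∑ B ∈ Finset.range (N + 1),
      ∑ C ∈ Finset.range (N + 1), ∑ sL ∈ Finset.range (N + 1), ∑ sR ∈ Finset.range (N + 1),
          if AdmG N S s (P ++ A :: B :: C :: R) ∧ (sL ≤ A ∧ sR ≤ C ∧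
            B + sL + sR ≤ N) then
          W v B sL sR *
            K_ClkB_GV N X (v + 1) w (P ++ (A - sL) :: (B + sL + sR) :: (C - sR) :: R)
        else 0) =
      ∑ z ∈ Finset.range (N + 1) ×ˢ (Finset.range (N + 1) ×ˢ (Finset.range (N + 1) ×ˢ
        (Finset.range (N + 1) ×ˢ Finset.range (N + 1)))),
        if AdmG N S s (P ++ z.1 :: z.2.1 :: z.2.2.1 :: R) ∧ (z.2.2.2.1 ≤ z.1 ∧
            z.2.2.2.2 ≤ z.2.2.1 ∧ z.2.1 + z.2.2.2.1 + z.2.2.2.2 ≤ N) then
          W v z.2.1 z.2.2.2.1 z.2.2.2.2 *
            K_ClkB_GV N X (v + 1) w (P ++ (z.1 - z.2.2.2.1) :: (z.2.1 + z.2.2.2.1 + z.2.2.2.2) ::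
              (z.2.2.1 - z.2.2.2.2) :: R)
        else 0 := by
    simp only [Finset.sum_product]
  have hRR : (∑ x ∈ Fintype.piFinset (fun _ : Fin 4 => Finset.range (N + 1)),
        ∑ A ∈ Finset.range (N + 1), ∑ B ∈ Finset.range (N + 1), ∑ C ∈ Finset.range (N + 1),
          if ∑ j, x j = N ∧ AdmG N ⟨p ++ a :: S.nxt :: c :: r,
          S.nxt :: S.faces, S.nxt + 1, S.cor ++ [![S.nxt, c, b, a]]⟩ (s ++ [x])
            (P ++ A :: B :: C :: R) then W v (x 2) (x 3) (x 1) *
            K_ClkB_GV N X (v + 1) w (P ++ A :: B :: C :: R) else 0) =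
      ∑ z ∈ (Fintype.piFinset (fun _ : Fin 4 => Finset.range (N + 1))) ×ˢ
        (Finset.range (N + 1) ×ˢ (Finset.range (N + 1) ×ˢ Finset.range (N + 1))),
          if ∑ j, z.1 j = N ∧ AdmG N ⟨p ++ a :: S.nxt :: c :: r,
          S.nxt :: S.faces, S.nxt + 1, S.cor ++ [![S.nxt, c, b, a]]⟩ (s ++ [z.1])
            (P ++ z.2.1 :: z.2.2.1 :: z.2.2.2 :: R) then
            W v (z.1 2) (z.1 3) (z.1 1) *
            K_ClkB_GV N X (v + 1) w (P ++ z.2.1 :: z.2.2.1 :: z.2.2.2 :: R) else 0 := by
    simp only [Finset.sum_product]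
  rw [hLL, hRR, ← Finset.sum_filter, ← Finset.sum_filter]
  refine Finset.sum_nbij'
    (fun z => (![N - z.2.1 - z.2.2.2.1 - z.2.2.2.2, z.2.2.2.2, z.2.1, z.2.2.2.1],
      (z.1 - z.2.2.2.1, (z.2.1 + z.2.2.2.1 + z.2.2.2.2, z.2.2.1 - z.2.2.2.2))))
    (fun z => (z.2.1 + z.1 3, (z.1 2, (z.2.2.2 + z.1 1, (z.1 3, z.1 1))))) ?_ ?_ ?_ ?_ ?_
  · rintro ⟨A, B, C, sL, sR⟩ hz
    rw [Finset.mem_filter] at hz
    obtain ⟨hz1, hz2, hz3, hz4, hz6⟩ := hz
    simp only [Finset.mem_product, Finset.mem_range] at hz1 hz3 hz4 hz6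
    obtain ⟨hA, hB, hC, hsL, hsR⟩ := hz1
    have hsum : ∑ j, (![N - B - sL - sR, sR, B, sL] : Fin 4 → ℕ) j = N := by
      rw [Fin.sum_univ_four]
      change N - B - sL - sR + sR + B + sL = N
      omega
    rw [Finset.mem_filter]
    refine ⟨?_, hsum, ?_⟩
    · rw [Finset.mem_product]
      refine ⟨?_, ?_⟩
      · rw [Fintype.mem_piFinset]
        intro j
        rw [Finset.mem_range]
        fin_cases j
        · change N - B - sL - sR < N + 1
          omega
        · change sR < N + 1
          omega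
        · change B < N + 1
          omega
        · change sL < N + 1
          omega
      · simp only [Finset.mem_product, Finset.mem_range]
        omega
    · refine (K_ClkB_t_adm N S s h hs p P hpP a b c r R hg hPb hRb _ _ _ _).2
        ⟨hsum, ?_, ?_, ?_, ?_⟩
      · change B + sL + sR + (N - B - sL - sR) = N
        omega
      · change A - sL + sL ≤ N
        omega
      · change C - sR + sR ≤ N
        omega
      · change AdmG N S s (P ++ (A - sL + sL) :: B :: (C - sR + sR) :: R)
        rw [Nat.sub_add_cancel hz3, Nat.sub_add_cancel hz4]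
        exact hz2
  · rintro ⟨x, A, B, C⟩ hz
    rw [Finset.mem_filter] at hz
    obtain ⟨hz1, hz2, hz3⟩ := hz
    simp only [Finset.mem_product, Finset.mem_range, Fintype.mem_piFinset] at hz1 hz2 hz3
    obtain ⟨hx1, hA, hB, hC⟩ := hz1
    obtain ⟨_, h2, h3, h4, h5⟩ :=
      (K_ClkB_t_adm N S s h hs p P hpP a b c r R hg hPb hRb _ _ _ _).1 hz3
    have hx0' := hx1 0
    have hx1' := hx1 1
    have hx2' := hx1 2
    have hx3' := hx1 3
    rw [Fin.sum_univ_four] at hz2
    rw [Finset.mem_filter]
    simp only [Finset.mem_product, Finset.mem_range]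
    refine ⟨by omega, h5, by omega, by omega, by omega⟩
  · rintro ⟨A, B, C, sL, sR⟩ hz
    rw [Finset.mem_filter] at hz
    obtain ⟨hz1, hz2, hz3, hz4, hz6⟩ := hz
    simp only at hz3 hz4
    change (A - sL + sL, B, C - sR + sR, sL, sR) = (A, B, C, sL, sR)
    rw [Nat.sub_add_cancel hz3, Nat.sub_add_cancel hz4]
  · rintro ⟨x, A, B, C⟩ hz
    rw [Finset.mem_filter] at hz
    obtain ⟨hz1, hz2, hz3⟩ := hz
    simp only [Finset.mem_product, Finset.mem_range, Fintype.mem_piFinset] at hz1 hz2 hz3
    obtain ⟨_, h2, h3, h4, h5⟩ :=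
      (K_ClkB_t_adm N S s h hs p P hpP a b c r R hg hPb hRb _ _ _ _).1 hz3
    rw [Fin.sum_univ_four] at hz2
    simp only [Prod.mk.injEq]
    refine ⟨?_, by omega, by omega, by omega⟩
    funext j
    fin_cases j
    · change N - x 2 - x 3 - x 1 = x 0
      omega
    · rfl
    · rfl
    · rfl
  · rintro ⟨A, B, C, sL, sR⟩ hz
    rfl


private theorem K_ClkB_g_base (N : ℕ) (X : ℕ → Matrix (I2 N) (I2 N) ℂ) (S : Sweep)
    (s : List (Fin 4 → ℕ)) (hg : S.gaps = [0, 1]) :
    K_ClkB_GLs N X [] S s = PsiA N [N, N] [0] * (open Classical in if AdmG N S s [N, N] then 1 else 0) := by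
  classical
  unfold K_ClkB_GLs
  rw [hg]
  simp only [List.length_cons, List.length_nil, zero_add, Nat.reduceAdd, sumL]
  rw [Finset.sum_eq_single N, Finset.sum_eq_single N]
  · by_cases h : AdmG N S s [N, N]
    · simp [h, K_ClkB_GV, evalX]
    · simp [h]
  · intro b _ hb
    have : PsiA N [N, b] [0] = 0 := Psi_end N N b (fun h => hb h.2)
    simp [K_ClkB_GV, evalX, this]
  · intro h
    exact absurd (Finset.mem_range.2 (Nat.lt_succ_self N)) h
  · intro a _ ha
    refine Finset.sum_eq_zero fun b _ => ?_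
    have : PsiA N [a, b] [0] = 0 := Psi_end N a b (fun h => ha h.1)
    simp [K_ClkB_GV, evalX, this]
  · intro h
    exact absurd (Finset.mem_range.2 (Nat.lt_succ_self N)) h

open Classical in
private theorem K_ClkB_glob (N : ℕ) (X : ℕ → Matrix (I2 N) (I2 N) ℂ) (W : ℕ → ℕ → ℕ → ℕ → ℂ)
    (w : List TPiece) (S S' : Sweep) (s : List (Fin 4 → ℕ))
    (h : InvA S) (hs : s.length = S.cor.length) (hsum : ∀ x ∈ s, ∑ j, x j = N)
    (hx : sweep w S = some S') (hg : S'.gaps = [0, 1])
    (hX : ∀ v < S'.cor.length, CRule N (X v) (W v)) :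
    K_ClkB_GLs N X w S s = K_ClkB_sumS N W S.cor.length (numTw w)
      (fun s' => if AdmG N S' (s ++ s') [N, N] then 1 else 0) := by
  induction w generalizing S s with
  | nil =>
    have hS : S = S' := by simpa [sweep] using hx
    subst hS
    rw [K_ClkB_g_base N X S s hg, Psi_init]
    simp [K_ClkB_sumS, numTw]
  | cons x w ih =>
    obtain ⟨S1, h1, h2⟩ : ∃ S1, S.step x = some S1 ∧ sweep w S1 = some S' := by
      simpa [sweep, Option.bind_eq_some_iff] using hx
    have hI := Inv_step S S1 x h h1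
    have hc := cor_length_step S S1 x h1
    cases x with
    | cup i =>
      have hc' : S1.cor.length = S.cor.length := by simpa [numTw] using hc
      rw [K_ClkB_step_cup N X w S S1 s i h hs h1, ih S1 s hI (by rw [hs, hc']) hsum h2, hc']
      rfl
    | cap i =>
      have hc' : S1.cor.length = S.cor.length := by simpa [numTw] using hc
      rw [K_ClkB_step_cap N X w S S1 s i h hs h1, ih S1 s hI (by rw [hs, hc']) hsum h2, hc']
      rfl
    | tw i =>
      have hc' : S1.cor.length = S.cor.length + 1 := by simpa [numTw] using hc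
      have hl := cor_length_sweep S1 S' w h2
      rw [K_ClkB_step_tw N X W w S S1 s i h hs (hX _ (by omega)) h1]
      simp only [numTw, K_ClkB_sumS]
      refine Finset.sum_congr rfl fun x _ => ?_
      split_ifs with hxs
      · congr 1
        rw [ih S1 (s ++ [x]) hI (by simp [hs, hc']) ?_ h2, hc']
        · simp only [List.append_assoc, List.singleton_append]
        · intro y hy
          rcases List.mem_append.1 hy with hy | hy
          · exact hsum y hy
          · rw [List.mem_singleton.1 hy]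
            exact hxs
      · rfl

private theorem K_ClkB_sumS_eq (N : ℕ) (W : ℕ → ℕ → ℕ → ℕ → ℂ) (v k : ℕ)
    (F : List (Fin 4 → ℕ) → ℂ) :
    K_ClkB_sumS N W v k F = ∑ x ∈ Fintype.piFinset (fun _ : Fin k => Fintype.piFinset
      (fun _ : Fin 4 => Finset.range (N + 1))),
      if ∀ u, ∑ j, x u j = N then (∏ u : Fin k, W (v + u) (x u 2) (x u 3) (x u 1)) *
        F (List.ofFn x) else 0 := by
  induction k generalizing v F with
  | zero =>
    simp [K_ClkB_sumS]
  | succ k ih =>
    simp only [K_ClkB_sumS]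
    have e1 : ∑ x ∈ Fintype.piFinset (fun _ : Fin (k + 1) => Fintype.piFinset
        (fun _ : Fin 4 => Finset.range (N + 1))),
        (if ∀ u, ∑ j, x u j = N then
          (∏ u : Fin (k + 1), W (v + u) (x u 2) (x u 3) (x u 1)) *
          F (List.ofFn x) else 0) =
        ∑ p ∈ (Fintype.piFinset (fun _ : Fin 4 => Finset.range (N + 1))) ×ˢ
          (Fintype.piFinset (fun _ : Fin k => Fintype.piFinset
            (fun _ : Fin 4 => Finset.range (N + 1)))),
          (if ∑ j, p.1 j = N then W v (p.1 2) (p.1 3) (p.1 1) *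
            (if ∀ u, ∑ j, p.2 u j = N then
              (∏ u : Fin k, W (v + 1 + u) (p.2 u 2) (p.2 u 3) (p.2 u 1)) *
                F (p.1 :: List.ofFn p.2) else 0) else 0) := by
      refine Finset.sum_nbij' (fun x => (x 0, Fin.tail x))
        (fun p => (Fin.cons p.1 p.2 : Fin (k + 1) → Fin 4 → ℕ)) ?_ ?_ ?_ ?_ ?_
      · intro x hx
        rw [Fintype.mem_piFinset] at hx
        refine Finset.mem_product.2 ⟨hx 0, ?_⟩
        rw [Fintype.mem_piFinset]
        intro u
        exact hx u.succ
      · intro p hp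
        obtain ⟨hp1, hp2⟩ := Finset.mem_product.1 hp
        rw [Fintype.mem_piFinset] at hp2
        rw [Fintype.mem_piFinset]
        intro u
        refine Fin.cases ?_ (fun u => ?_) u
        · simpa using hp1
        · simpa using hp2 u
      · intro x _
        exact Fin.cons_self_tail x
      · intro p _
        simp
      · intro x _
        have hall : (∀ u, ∑ j, x u j = N) ↔
            (∑ j, x 0 j = N ∧ ∀ u : Fin k, ∑ j, Fin.tail x u j = N) := by
          rw [Fin.forall_fin_succ]
          rfl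
        have hprod : (∏ u : Fin (k + 1), W (v + u) (x u 2) (x u 3) (x u 1)) =
            W v (x 0 2) (x 0 3) (x 0 1) *
            ∏ u : Fin k, W (v + 1 + u) (Fin.tail x u 2) (Fin.tail x u 3) (Fin.tail x u 1) := by
          rw [Fin.prod_univ_succ]
          congr 1
          refine Finset.prod_congr rfl fun u _ => ?_
          simp only [Fin.val_succ, Fin.tail]
          rw [show v + (↑u + 1) = v + 1 + ↑u by ring]
        have hlist : List.ofFn x = x 0 :: List.ofFn (Fin.tail x) := by
          rw [List.ofFn_succ]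
          rfl
        rw [hprod, hlist]
        by_cases h1 : ∑ j, x 0 j = N
        · by_cases h2 : ∀ u : Fin k, ∑ j, Fin.tail x u j = N
          · rw [if_pos (hall.2 ⟨h1, h2⟩), if_pos h1, if_pos h2]
            ring
          · rw [if_neg (fun h => h2 (hall.1 h).2), if_pos h1, if_neg h2, mul_zero]
        · rw [if_neg (fun h => h1 (hall.1 h).1), if_neg h1]
    rw [e1, Finset.sum_product]
    refine Finset.sum_congr rfl fun x _ => ?_
    split_ifs with hxs
    · rw [ih, Finset.mul_sum]
    · simp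

/-- the corner sum of lists given by functions -/
private theorem K_ClkB_g_csumF (c : ℕ) (cor x : Fin c → Fin 4 → ℕ) (f : ℕ) :
    csumF (List.ofFn cor) (List.ofFn x) f = ∑ v, ∑ j, if cor v j = f then x v j else 0 := by
  induction c with
  | zero => simp [csumF]
  | succ c ih =>
    rw [List.ofFn_succ, List.ofFn_succ, csumF, ih]
    exact (Fin.sum_univ_succ (fun v => ∑ j, if cor v j = f then x v j else 0)).symm

private theorem K_ClkB_g_state (N c : ℕ) (F : Finset ℕ) (cor : Fin c → Fin 4 → ℕ) (S : Sweep)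
    (hI : InvA S) (hg : S.gaps = [0, 1]) (hc : S.cor = List.ofFn cor)
    (hF : F = (S.faces.toFinset.erase 0).erase 1) (x : Fin c → Fin 4 → ℕ) :
    ((∀ u, ∑ j, x u j = N) ∧ AdmG N S (List.ofFn x) [N, N]) ↔ IsState F cor N x := by
  have hmem : ∀ f, f ∈ F ↔ f ≠ 1 ∧ f ≠ 0 ∧ f ∈ S.faces := by
    intro f
    rw [hF]
    simp
  have hcf : ∀ v j, cor v j ∈ S.faces := by
    intro v j
    refine hI.cor (cor v) ?_ j
    rw [hc, List.mem_ofFn']
    exact ⟨v, rfl⟩
  constructor
  · rintro ⟨h1, -, -, h3⟩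
    refine ⟨h1, ?_, ?_⟩
    · intro f hf
      obtain ⟨f1, f0, hf⟩ := (hmem f).1 hf
      have := h3 f hf
      rw [hg, hc, K_ClkB_g_csumF] at this
      simpa [gsum, f1.symm, f0.symm] using this
    · intro v k hvk
      have hz : ∑ v', ∑ j, (if cor v' j = cor v k then x v' j else 0) = 0 := by
        have h4 := h3 (cor v k) (hcf v k)
        rw [hg, hc, K_ClkB_g_csumF] at h4
        have h5 : cor v k = 1 ∨ cor v k = 0 := by
          by_contra hcon
          push Not at hcon
          exact hvk ((hmem _).2 ⟨hcon.1, hcon.2, hcf v k⟩)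
        rcases h5 with h5 | h5
        · rw [h5] at h4 ⊢
          simp only [gsum] at h4
          simpa using h4
        · rw [h5] at h4 ⊢
          simp only [gsum] at h4
          simpa using h4
      have h6 := (Finset.sum_eq_zero_iff.1 hz) v (Finset.mem_univ _)
      have h7 := (Finset.sum_eq_zero_iff.1 h6) k (Finset.mem_univ _)
      simpa using h7
  · rintro ⟨h1, h2, h3⟩
    refine ⟨h1, ?_, ?_, ?_⟩
    · intro y hy
      simp at hy
      omega
    · intro y hy
      rw [List.mem_ofFn'] at hy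
      obtain ⟨u, rfl⟩ := hy
      exact h1 u
    · intro f hf
      rw [hg, hc, K_ClkB_g_csumF]
      by_cases f1 : f = 1
      · subst f1
        have : ∑ v, ∑ j, (if cor v j = 1 then x v j else 0) = 0 := by
          refine Finset.sum_eq_zero fun v _ => Finset.sum_eq_zero fun j _ => ?_
          split_ifs with hvj
          · exact h3 v j (fun h => ((hmem _).1 h).1 hvj)
          · rfl
        rw [this]
        simp [gsum]
      · by_cases f0 : f = 0
        · subst f0
          have : ∑ v, ∑ j, (if cor v j = 0 then x v j else 0) = 0 := by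
            refine Finset.sum_eq_zero fun v _ => Finset.sum_eq_zero fun j _ => ?_
            split_ifs with hvj
            · exact h3 v j (fun h => ((hmem _).1 h).2.1 hvj)
            · rfl
          rw [this]
          simp [gsum]
        · rw [h2 f ((hmem f).2 ⟨f1, f0, hf⟩)]
          simp [gsum, Ne.symm f1, Ne.symm f0]

/-- the start of the sweep -/
private theorem K_ClkB_g_start (N : ℕ) (X : ℕ → Matrix (I2 N) (I2 N) ℂ) (w : List TPiece) :
    K_ClkB_GLs N X w Sweep.init [] = K_ClkB_GV N X 0 w [N, N] := by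
  classical
  unfold K_ClkB_GLs
  simp only [Sweep.init, List.length_cons, List.length_nil, zero_add, Nat.reduceAdd, sumL]
  have hA : ∀ a b : ℕ, AdmG N ⟨[0, 1], [0, 1], 2, []⟩ [] [a, b] ↔ a = N ∧ b = N := by
    intro a b
    constructor
    · rintro ⟨-, -, h⟩
      have h0 := h 0 (by simp)
      have h1 := h 1 (by simp)
      simp [gsum, csumF] at h0 h1
      exact ⟨h0, h1⟩
    · rintro ⟨rfl, rfl⟩
      refine ⟨by simp, by simp, ?_⟩
      intro f hf
      simp at hf
      rcases hf with rfl | rfl <;> simp [gsum, csumF]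
  rw [Finset.sum_eq_single N, Finset.sum_eq_single N]
  · rw [if_pos ((hA N N).2 ⟨rfl, rfl⟩)]
  · intro b _ hb
    rw [if_neg (fun h => hb ((hA N b).1 h).2)]
  · intro h
    exact absurd (Finset.mem_range.2 (Nat.lt_succ_self N)) h
  · intro a _ ha
    refine Finset.sum_eq_zero fun b _ => ?_
    rw [if_neg (fun h => ha ((hA a b).1 h).1)]
  · intro h
    exact absurd (Finset.mem_range.2 (Nat.lt_succ_self N)) h

/-- The clock theorem for general weights. -/
theorem clockX (N : ℕ) (w : List TPiece) (c : ℕ) (F : Finset ℕ) (cor : Fin c → Fin 4 → ℕ)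
    (h : IsTemplate w c F cor) (X : ℕ → Matrix (I2 N) (I2 N) ℂ) (W : ℕ → ℕ → ℕ → ℕ → ℂ)
    (hX : ∀ v < c, CRule N (X v) (W v)) :
    evalX N X 0 w (dl 0) [0] = stW F cor N (fun v => W v) := by
  classical
  obtain ⟨S, hx, hg, hc, hF⟩ := h
  have hI : InvA S := Inv_sweep _ _ w Inv_init hx
  have hlen : S.cor.length = c := by rw [hc, List.length_ofFn]
  have hn : numTw w = c := by
    have := cor_length_sweep _ _ w hx
    rw [hlen] at this
    simpa [Sweep.init] using this.symm
  have e0 : evalX N X 0 w (dl 0) [0] = K_ClkB_GV N X 0 w [N, N] := by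
    unfold K_ClkB_GV
    rw [Psi_init]
    rfl
  rw [e0, ← K_ClkB_g_start, K_ClkB_glob N X W w Sweep.init S [] Inv_init (by simp [Sweep.init])
    (by simp) hx hg (by rw [hlen]; exact hX), hn]
  have e1 : (Sweep.init).cor.length = 0 := by simp [Sweep.init]
  rw [e1, K_ClkB_sumS_eq]
  unfold stW
  simp only [zero_add]
  refine Finset.sum_congr rfl fun x _ => ?_
  have hst := K_ClkB_g_state N c F cor S hI hg hc hF x
  by_cases h1 : ∀ u, ∑ j, x u j = N
  · by_cases h2 : AdmG N S (List.ofFn x) [N, N]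
    · rw [if_pos h1, if_pos (hst.1 ⟨h1, h2⟩)]
      simp [h2]
    · rw [if_pos h1, if_neg (fun h => h2 (hst.2 h).2)]
      simp [h2]
  · rw [if_neg h1, if_neg (fun h => h1 (hst.2 h).1)]

end Pool.Agent.H63.CLK
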