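import Pool.Agent.H63.CLK.K_Flz

/-!
# All directions, algebra: an operator is determined by its value at `e_0 ⊗ e_N`

`crule_comE`: on the basis `flz a 0 b` (`flz_basis`) by `flz_E`, applied to both sides (the rule for `(α - 1, B, β)` and
`(α, B, β - 1)`; `q^(-2(α+B+β))` depends only on the total); the weight is preserved since all terms of `CRule` have the total
`α + B + β`.

`crule_unique`: (1) the columns `(0, N)` of `X`, `X'` agree: `CRule` with `(α, B, β) = (0, 0, N)` (only `sL = 0` contributes).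
(2) The columns `(0, b)` agree: downward induction with `E (e_0 ⊗ e_b) = {b} e_0 ⊗ e_{b-1}` and `ComE`. (3) All columns agree:
induction on `a`, `F (e_a ⊗ e_b) = {a+1} e_{a+1} ⊗ e_b + q^(2a-N) {b+1} e_a ⊗ e_{b+1}` (`fF_zero`), `{a + 1} ≠ 0` for `a < N`, and
`ComF`. So `X = X'`. (4) `W = W'`: strong induction on `sL + sR`; `CRule` with `(α, B, β) = (sL, B, sR)` at the row
`(0, B + sL + sR)`; the last term has the factor `flz 0 n 0 (0, n) ≠ 0`.
-/

set_option autoImplicit false

namespace Pool.Agent.H63.CLK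

open Pool.Agent.H63.VC7 Pool.Agent.H63.VC10

/-- The local vector as a vector. -/
private noncomputable def K_Det_V (N : ℕ) (α B β : ℤ) : I2 N → ℂ :=
  fun y => flz N α B β ((y.1 : ℕ) : ℤ) ((y.2 : ℕ) : ℤ)

private theorem K_Det_V_zero (N : ℕ) {α B β : ℤ} (h : α < 0 ∨ β < 0) : K_Det_V N α B β = 0 := by
  funext y
  unfold K_Det_V
  rw [flz_neg N (by tauto)]
  rfl

private theorem K_Det_mulVec (N : ℕ) (X : Matrix (I2 N) (I2 N) ℂ) (W : ℕ → ℕ → ℕ → ℂ)
    (hX : CRule N X W) (α B β : ℕ) (hα : α ≤ N) (hB : B ≤ N) (hβ : β ≤ N) :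
    X.mulVec (K_Det_V N α B β) =
      ∑ sL ∈ Finset.range (N + 1), ∑ sR ∈ Finset.range (N + 1),
        if B + sL + sR ≤ N then W B sL sR •
          K_Det_V N ((α : ℤ) - sL) ((B : ℤ) + sL + sR) ((β : ℤ) - sR) else 0 := by
  funext x
  have h := hX α B β hα hB hβ x
  have h2 : X.mulVec (K_Det_V N α B β) x = ∑ y : I2 N, X x y * flz N α B β (y.1 : ℕ) (y.2 : ℕ) := rfl
  rw [h2, h, Finset.sum_apply]
  refine Finset.sum_congr rfl fun sL _ => ?_
  rw [Finset.sum_apply]
  refine Finset.sum_congr rfl fun sR _ => ?_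
  split_ifs
  · rfl
  · rfl

private theorem K_Det_ib_ne (N n : ℕ) (h : n ≤ N) : ib N (n : ℤ) ≠ 0 := by
  rw [ib_nat]
  exact inv_ne_zero (A_Em_brf_ne N h)

private noncomputable def K_Det_c (N : ℕ) (y : I2 N) : ℂ :=
  qz N ^ (-((((y.1 : ℕ) : ℤ)) * ((y.1 : ℕ) : ℤ))) * (ib N ((y.1 : ℕ) : ℤ) * ib N ((y.2 : ℕ) : ℤ))

private theorem K_Det_c_ne (N : ℕ) (y : I2 N) : K_Det_c N y ≠ 0 := by
  unfold K_Det_c
  exact mul_ne_zero (zpow_ne_zero _ (A_Em_qz_ne N))
    (mul_ne_zero (K_Det_ib_ne N _ (by omega)) (K_Det_ib_ne N _ (by omega)))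

private theorem K_Det_basis (N : ℕ) (y : I2 N) :
    K_Det_V N (y.1 : ℕ) ((0 : ℕ) : ℤ) (y.2 : ℕ) = K_Det_c N y • (Pi.single y 1 : I2 N → ℂ) := by
  funext x
  unfold K_Det_V K_Det_c
  have h := flz_basis N y.1 y.2 x.1 x.2
  have h' : flz N ((y.1 : ℕ) : ℤ) ((0 : ℕ) : ℤ) ((y.2 : ℕ) : ℤ) ((x.1 : ℕ) : ℤ) ((x.2 : ℕ) : ℤ) =
      flz N ((y.1 : ℕ) : ℤ) 0 ((y.2 : ℕ) : ℤ) ((x.1 : ℕ) : ℤ) ((x.2 : ℕ) : ℤ) := by
    norm_num
  rw [h', h]
  by_cases hxy : x = y
  · subst hxy
    simp
  · rw [if_neg]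
    · simp [Pi.single_apply, hxy]
    · rintro ⟨h1, h2⟩
      apply hxy
      exact Prod.ext (Fin.ext h1) (Fin.ext h2)

private theorem K_Det_col (N : ℕ) (X : Matrix (I2 N) (I2 N) ℂ) (y : I2 N) :
    X.mulVec (Pi.single y 1) = fun x => X x y := by
  funext x
  simp [Matrix.mulVec, dotProduct, Pi.single_apply]

private theorem K_Det_EV (N : ℕ) (α B β : ℤ) (hα : α ≤ N) (hβ : β ≤ N) (hB : B ≤ N) :
    (EM N).mulVec (K_Det_V N α B β) =
      (-qz N ^ (-2 * (α + B + β))) • K_Det_V N (α - 1) B β + K_Det_V N α B (β - 1) := by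
  funext x
  have h1 : (x.1 : ℕ) ≤ N := by omega
  have h2 : (x.2 : ℕ) ≤ N := by omega
  have h := flz_E N α B β ((x.1 : ℕ) : ℤ) ((x.2 : ℕ) : ℤ) hα hβ hB (by omega) (by omega) (by omega)
    (by omega)
  have key : (EM N).mulVec (K_Det_V N α B β) x =
      br (qz N) (((x.1 : ℕ) : ℤ) + 1) * qz N ^ ((N : ℤ) - 2 * ((x.2 : ℕ) : ℤ)) *
        flz N α B β (((x.1 : ℕ) : ℤ) + 1) ((x.2 : ℕ) : ℤ) +
      br (qz N) (((x.2 : ℕ) : ℤ) + 1) * flz N α B β ((x.1 : ℕ) : ℤ) (((x.2 : ℕ) : ℤ) + 1) := by
    have e : (EM N).mulVec (K_Det_V N α B β) x = ∑ y : I2 N, EM N x y * K_Det_V N α B β y := rfl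
    rw [e]
    unfold EM
    simp only [add_mul, Finset.sum_add_distrib]
    congr 1
    · by_cases hc : (x.1 : ℕ) = N
      · rw [Finset.sum_eq_zero]
        · have : (((x.1 : ℕ) : ℤ) + 1) = (N : ℤ) + 1 := by omega
          rw [this, A_Em_br_M]
          ring
        · intro y _
          rw [if_neg]
          · ring
          · rintro ⟨h3, _⟩
            omega
      · rw [Finset.sum_eq_single ((⟨(x.1 : ℕ) + 1, by omega⟩ : Fin (N + 1)), x.2)]
        · rw [if_pos ⟨rfl, rfl⟩]
          unfold K_Det_V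
          push_cast
          ring
        · intro y _ hy
          rw [if_neg, zero_mul]
          rintro ⟨h3, h4⟩
          apply hy
          exact Prod.ext (Fin.ext h3) (Fin.ext h4)
        · intro h3
          exact absurd (Finset.mem_univ _) h3
    · by_cases hc : (x.2 : ℕ) = N
      · rw [Finset.sum_eq_zero]
        · have : (((x.2 : ℕ) : ℤ) + 1) = (N : ℤ) + 1 := by omega
          rw [this, A_Em_br_M]
          ring
        · intro y _
          rw [if_neg]
          · ring
          · rintro ⟨_, h3⟩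
            omega
      · rw [Finset.sum_eq_single (x.1, (⟨(x.2 : ℕ) + 1, by omega⟩ : Fin (N + 1)))]
        · rw [if_pos ⟨rfl, rfl⟩]
          unfold K_Det_V
          push_cast
          ring
        · intro y _ hy
          rw [if_neg, zero_mul]
          rintro ⟨h3, h4⟩
          apply hy
          exact Prod.ext (Fin.ext h3) (Fin.ext h4)
        · intro h3
          exact absurd (Finset.mem_univ _) h3
  rw [key, h]
  simp [K_Det_V]

/-- `X E v = E X v` on the local vectors. -/
private theorem K_Det_comm (N : ℕ) (X : Matrix (I2 N) (I2 N) ℂ) (W : ℕ → ℕ → ℕ → ℂ)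
    (hX : CRule N X W) (α B β : ℕ) (hα : α ≤ N) (hB : B ≤ N) (hβ : β ≤ N) :
    X.mulVec ((EM N).mulVec (K_Det_V N α B β)) = (EM N).mulVec (X.mulVec (K_Det_V N α B β)) := by
  rw [K_Det_mulVec N X W hX α B β hα hB hβ, K_Det_EV N α B β (by omega) (by omega) (by omega)]
  rw [Matrix.mulVec_add, Matrix.mulVec_smul]
  have e1 : X.mulVec (K_Det_V N ((α : ℤ) - 1) B β) =
      ∑ sL ∈ Finset.range (N + 1), ∑ sR ∈ Finset.range (N + 1),
        if B + sL + sR ≤ N then W B sL sR •
          K_Det_V N ((α : ℤ) - 1 - sL) ((B : ℤ) + sL + sR) ((β : ℤ) - sR) else 0 := by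
    rcases Nat.eq_zero_or_pos α with h0 | h0
    · subst h0
      rw [K_Det_V_zero N (by left; norm_num), Matrix.mulVec_zero]
      symm
      apply Finset.sum_eq_zero
      intro sL _
      apply Finset.sum_eq_zero
      intro sR _
      split_ifs
      · rw [K_Det_V_zero N (by left; push_cast; omega), smul_zero]
      · rfl
    · obtain ⟨a, rfl⟩ : ∃ a, α = a + 1 := ⟨α - 1, by omega⟩
      have := K_Det_mulVec N X W hX a B β (by omega) hB hβ
      rw [show (((a + 1 : ℕ) : ℤ) - 1) = (a : ℤ) by push_cast; ring]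
      exact this
  have e2 : X.mulVec (K_Det_V N (α : ℤ) B ((β : ℤ) - 1)) =
      ∑ sL ∈ Finset.range (N + 1), ∑ sR ∈ Finset.range (N + 1),
        if B + sL + sR ≤ N then W B sL sR •
          K_Det_V N ((α : ℤ) - sL) ((B : ℤ) + sL + sR) ((β : ℤ) - 1 - sR) else 0 := by
    rcases Nat.eq_zero_or_pos β with h0 | h0
    · subst h0
      rw [K_Det_V_zero N (by right; norm_num), Matrix.mulVec_zero]
      symm
      apply Finset.sum_eq_zero
      intro sL _
      apply Finset.sum_eq_zero
      intro sR _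
      split_ifs
      · rw [K_Det_V_zero N (by right; push_cast; omega), smul_zero]
      · rfl
    · obtain ⟨b, rfl⟩ : ∃ b, β = b + 1 := ⟨β - 1, by omega⟩
      have := K_Det_mulVec N X W hX α B b hα hB (by omega)
      rw [show (((b + 1 : ℕ) : ℤ) - 1) = (b : ℤ) by push_cast; ring]
      exact this
  rw [e1, e2, ← Matrix.mulVecLin_apply, map_sum, Finset.smul_sum, ← Finset.sum_add_distrib]
  refine Finset.sum_congr rfl fun sL _ => ?_
  rw [map_sum, Finset.smul_sum, ← Finset.sum_add_distrib]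
  refine Finset.sum_congr rfl fun sR _ => ?_
  split_ifs with hc
  · rw [map_smul, Matrix.mulVecLin_apply,
      K_Det_EV N _ _ _ (by omega) (by omega) (by omega), smul_add, smul_smul, smul_smul]
    have e3 : -2 * (((α : ℤ) - sL) + ((B : ℤ) + sL + sR) + ((β : ℤ) - sR)) =
        -2 * ((α : ℤ) + B + β) := by ring
    have e4 : (α : ℤ) - 1 - sL = (α : ℤ) - sL - 1 := by ring
    have e5 : (β : ℤ) - 1 - sR = (β : ℤ) - sR - 1 := by ring
    rw [e3, mul_comm (W B sL sR), e4, e5]
  · simp

theorem crule_comE (N : ℕ) (X : Matrix (I2 N) (I2 N) ℂ) (W : ℕ → ℕ → ℕ → ℂ) (hX : CRule N X W) :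
    ComE N X := by
  constructor
  · intro x y hxy
    by_contra hne
    apply hxy
    have h := K_Det_mulVec N X W hX y.1 0 y.2 (by omega) (by omega) (by omega)
    rw [K_Det_basis, Matrix.mulVec_smul, K_Det_col] at h
    have h2 := congrFun h x
    have h3 : (∑ sL ∈ Finset.range (N + 1), ∑ sR ∈ Finset.range (N + 1),
        if 0 + sL + sR ≤ N then W 0 sL sR •
          K_Det_V N (((y.1 : ℕ) : ℤ) - sL) (((0 : ℕ) : ℤ) + sL + sR) (((y.2 : ℕ) : ℤ) - sR) else 0) x
          = 0 := by
      rw [Finset.sum_apply]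
      apply Finset.sum_eq_zero
      intro sL _
      rw [Finset.sum_apply]
      apply Finset.sum_eq_zero
      intro sR _
      split_ifs
      · simp only [Pi.smul_apply, K_Det_V, smul_eq_mul]
        unfold flz
        rw [if_neg, mul_zero]
        intro h4
        apply hne
        push_cast at h4
        omega
      · rfl
    rw [h3] at h2
    simp only [Pi.smul_apply, smul_eq_mul] at h2
    exact (mul_eq_zero.mp h2).resolve_left (K_Det_c_ne N y)
  · have h : ∀ y : I2 N, (EM N * X).mulVec (Pi.single y 1) = (X * EM N).mulVec (Pi.single y 1) := by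
      intro y
      have h1 := K_Det_comm N X W hX y.1 0 y.2 (by omega) (by omega) (by omega)
      rw [K_Det_basis, Matrix.mulVec_smul, Matrix.mulVec_smul, Matrix.mulVec_smul,
        Matrix.mulVec_smul, Matrix.mulVec_mulVec, Matrix.mulVec_mulVec] at h1
      have h2 := smul_right_injective (I2 N → ℂ) (K_Det_c_ne N y) h1
      exact h2.symm
    ext x y
    have h3 := congrFun (h y) x
    rw [K_Det_col, K_Det_col] at h3
    exact h3

theorem crule_smul (N : ℕ) (X : Matrix (I2 N) (I2 N) ℂ) (W : ℕ → ℕ → ℕ → ℂ) (hX : CRule N X W)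
    (z : ℂ) : CRule N (z • X) (fun B sL sR => z * W B sL sR) := by
  intro α B β hα hB hβ x
  have h := hX α B β hα hB hβ x
  simp only [Matrix.smul_apply, smul_eq_mul, mul_assoc]
  rw [← Finset.mul_sum, h, Finset.mul_sum]
  refine Finset.sum_congr rfl fun sL _ => ?_
  rw [Finset.mul_sum]
  refine Finset.sum_congr rfl fun sR _ => ?_
  split_ifs
  · ring
  · ring

theorem crule_sum (N : ℕ) {ι : Type*} (s : Finset ι) (X : ι → Matrix (I2 N) (I2 N) ℂ)
    (W : ι → ℕ → ℕ → ℕ → ℂ) (hX : ∀ i ∈ s, CRule N (X i) (W i)) :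
    CRule N (∑ i ∈ s, X i) (fun B sL sR => ∑ i ∈ s, W i B sL sR) := by
  intro α B β hα hB hβ x
  have h1 : ∑ y : I2 N, (∑ i ∈ s, X i) x y * flz N α B β (y.1 : ℕ) (y.2 : ℕ) =
      ∑ i ∈ s, ∑ y : I2 N, X i x y * flz N α B β (y.1 : ℕ) (y.2 : ℕ) := by
    rw [Finset.sum_comm]
    refine Finset.sum_congr rfl fun y _ => ?_
    rw [Matrix.sum_apply, Finset.sum_mul]
  rw [h1, Finset.sum_congr rfl (fun i hi => hX i hi α B β hα hB hβ x), Finset.sum_comm]
  refine Finset.sum_congr rfl fun sL _ => ?_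
  rw [Finset.sum_comm]
  refine Finset.sum_congr rfl fun sR _ => ?_
  split_ifs
  · rw [Finset.sum_mul]
  · simp

theorem comF_smul (N : ℕ) (h : Fin 4 → ℂ) (X : Matrix (I2 N) (I2 N) ℂ) (hX : ComF N h X) (z : ℂ) :
    ComF N h (z • X) := by
  unfold ComF at *
  rw [Matrix.mul_smul, Matrix.smul_mul, hX]

theorem comF_sum (N : ℕ) (h : Fin 4 → ℂ) {ι : Type*} (s : Finset ι)
    (X : ι → Matrix (I2 N) (I2 N) ℂ) (hX : ∀ i ∈ s, ComF N h (X i)) : ComF N h (∑ i ∈ s, X i) := by
  unfold ComF at *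
  rw [Matrix.mul_sum, Matrix.sum_mul]
  exact Finset.sum_congr rfl hX

/-- The columns of `E`. -/
private theorem K_Det_E_col (N b : ℕ) (hb : b < N) :
    (EM N).mulVec (Pi.single ((0 : Fin (N + 1)), (⟨b + 1, by omega⟩ : Fin (N + 1))) 1) =
      br (qz N) ((b : ℤ) + 1) • (Pi.single ((0 : Fin (N + 1)), (⟨b, by omega⟩ : Fin (N + 1))) 1 :
        I2 N → ℂ) := by
  rw [K_Det_col]
  funext x
  unfold EM
  rw [if_neg (by rintro ⟨h1, _⟩; simp at h1), zero_add]
  by_cases hx : x = ((0 : Fin (N + 1)), (⟨b, by omega⟩ : Fin (N + 1)))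
  · subst hx
    simp
  · rw [if_neg]
    · simp [Pi.single_apply, hx]
    · rintro ⟨h1, h2⟩
      apply hx
      refine Prod.ext (Fin.ext ?_) (Fin.ext ?_)
      · simpa using h1.symm
      · simp only at h2
        simp only
        omega

private theorem K_Det_zero (N : ℕ) (X : Matrix (I2 N) (I2 N) ℂ) (W : ℕ → ℕ → ℕ → ℂ)
    (hX : CRule N X W) (hF : ComF N 0 X) (h0 : ∀ s ≤ N, W 0 0 s = 0) : X = 0 := by
  have hE := (crule_comE N X W hX).2
  -- the column (0, N)
  have c1 : X.mulVec (Pi.single ((0 : Fin (N + 1)), (Fin.last N)) 1) = 0 := by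
    have h := K_Det_mulVec N X W hX 0 0 N (by omega) (by omega) (by omega)
    have hb := K_Det_basis N ((0 : Fin (N + 1)), (Fin.last N))
    simp only [Fin.val_zero, Fin.val_last] at hb
    rw [hb, Matrix.mulVec_smul] at h
    have h3 : (∑ sL ∈ Finset.range (N + 1), ∑ sR ∈ Finset.range (N + 1),
        if 0 + sL + sR ≤ N then W 0 sL sR •
          K_Det_V N (((0 : ℕ) : ℤ) - sL) (((0 : ℕ) : ℤ) + sL + sR) ((N : ℤ) - sR) else 0)
          = 0 := by
      apply Finset.sum_eq_zero
      intro sL _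
      apply Finset.sum_eq_zero
      intro sR hR
      split_ifs
      · rcases Nat.eq_zero_or_pos sL with h4 | h4
        · subst h4
          rw [h0 sR (by simpa [Nat.lt_succ_iff] using hR), zero_smul]
        · rw [K_Det_V_zero N (by left; push_cast; omega), smul_zero]
      · rfl
    rw [h3] at h
    exact (smul_eq_zero.mp h).resolve_left (K_Det_c_ne N _)
  -- the columns (0, b)
  have c2 : ∀ k : ℕ, ∀ b : ℕ, ∀ hb : b < N + 1, b + k = N →
      X.mulVec (Pi.single ((0 : Fin (N + 1)), (⟨b, hb⟩ : Fin (N + 1))) 1) = 0 := by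
    intro k
    induction k with
    | zero =>
      intro b hb hbk
      have : (⟨b, hb⟩ : Fin (N + 1)) = Fin.last N := Fin.ext (by simpa using hbk)
      rw [this]
      exact c1
    | succ k ih =>
      intro b hb hbk
      have h1 := ih (b + 1) (by omega) (by omega)
      have h2 := K_Det_E_col N b (by omega)
      have h3 : X.mulVec ((EM N).mulVec
          (Pi.single ((0 : Fin (N + 1)), (⟨b + 1, by omega⟩ : Fin (N + 1))) 1)) = 0 := by
        rw [Matrix.mulVec_mulVec, ← hE, ← Matrix.mulVec_mulVec, h1, Matrix.mulVec_zero]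
      rw [h2, Matrix.mulVec_smul] at h3
      exact (smul_eq_zero.mp h3).resolve_left (A_Em_br_ne N (by omega) (by omega))
  -- all columns
  have c3 : ∀ a : ℕ, ∀ ha : a < N + 1, ∀ b : Fin (N + 1),
      X.mulVec (Pi.single ((⟨a, ha⟩ : Fin (N + 1)), b) 1) = 0 := by
    intro a
    induction a with
    | zero =>
      intro ha b
      exact c2 (N - b) b b.2 (by omega)
    | succ a ih =>
      intro ha b
      have h1 := ih (by omega) b
      have h2 : X.mulVec ((FM N 0 0 0).mulVec
          (Pi.single ((⟨a, by omega⟩ : Fin (N + 1)), b) 1)) = 0 := by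
        have hF' : FM N 0 0 0 * X = X * FM N 0 0 0 := by simpa [ComF] using hF
        rw [Matrix.mulVec_mulVec, ← hF', ← Matrix.mulVec_mulVec, h1, Matrix.mulVec_zero]
      have h3 : ∃ z : ℂ, ∃ w : I2 N → ℂ, X.mulVec w = 0 ∧ (FM N 0 0 0).mulVec
          (Pi.single ((⟨a, by omega⟩ : Fin (N + 1)), b) 1) =
          br (qz N) ((a : ℤ) + 1) • (Pi.single ((⟨a + 1, ha⟩ : Fin (N + 1)), b) 1 : I2 N → ℂ) +
            z • w := by
        rcases lt_or_ge (b : ℕ) N with hbN | hbN
        · refine ⟨qz N ^ (2 * (a : ℤ) - N) * br (qz N) (((b : ℕ) : ℤ) + 1),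
            Pi.single ((⟨a, by omega⟩ : Fin (N + 1)), (⟨(b : ℕ) + 1, by omega⟩ : Fin (N + 1))) 1,
            ih (by omega) _, ?_⟩
          rw [K_Det_col]
          funext x
          unfold FM
          simp only [fF_zero, Pi.add_apply, Pi.smul_apply, smul_eq_mul, Pi.single_apply]
          congr 1
          · by_cases hx : x = ((⟨a + 1, ha⟩ : Fin (N + 1)), b)
            · subst hx
              simp
            · rw [if_neg hx, if_neg, mul_zero]
              rintro ⟨h4, h5⟩
              exact hx (Prod.ext (Fin.ext h4) (Fin.ext h5))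
          · by_cases hx : x = ((⟨a, by omega⟩ : Fin (N + 1)), (⟨(b : ℕ) + 1, by omega⟩ : Fin (N + 1)))
            · subst hx
              simp
            · rw [if_neg hx, if_neg, mul_zero]
              rintro ⟨h4, h5⟩
              exact hx (Prod.ext (Fin.ext h4) (Fin.ext h5))
        · refine ⟨0, 0, Matrix.mulVec_zero _, ?_⟩
          rw [K_Det_col]
          funext x
          unfold FM
          simp only [fF_zero, Pi.add_apply, Pi.smul_apply, smul_eq_mul, Pi.single_apply]
          congr 1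
          · by_cases hx : x = ((⟨a + 1, ha⟩ : Fin (N + 1)), b)
            · subst hx
              simp
            · rw [if_neg hx, if_neg, mul_zero]
              rintro ⟨h4, h5⟩
              exact hx (Prod.ext (Fin.ext h4) (Fin.ext h5))
          · rw [if_neg]
            · simp
            · rintro ⟨_, h5⟩
              omega
      obtain ⟨z, w, hw, h4⟩ := h3
      rw [h4, Matrix.mulVec_add, Matrix.mulVec_smul, Matrix.mulVec_smul, hw, smul_zero, add_zero]
        at h2
      exact (smul_eq_zero.mp h2).resolve_left (A_Em_br_ne N (by omega) (by omega))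
  ext x y
  have h := congrFun (c3 y.1 y.1.2 y.2) x
  rw [K_Det_col] at h
  exact h

private theorem K_Det_W (N : ℕ) (W : ℕ → ℕ → ℕ → ℂ) (hX : CRule N 0 W) :
    ∀ n B sL sR : ℕ, sL + sR = n → B + sL + sR ≤ N → W B sL sR = 0 := by
  intro n
  induction n using Nat.strong_induction_on with
  | _ n ih =>
    intro B sL sR hn hs
    have h := hX sL B sR (by omega) (by omega) (by omega)
      ((0 : Fin (N + 1)), (⟨B + sL + sR, by omega⟩ : Fin (N + 1)))
    have h1 : ∑ y : I2 N, (0 : Matrix (I2 N) (I2 N) ℂ)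
        ((0 : Fin (N + 1)), (⟨B + sL + sR, by omega⟩ : Fin (N + 1))) y *
          flz N sL B sR (y.1 : ℕ) (y.2 : ℕ) = 0 := by simp
    rw [h1, Finset.sum_eq_single sL, Finset.sum_eq_single sR, if_pos hs] at h
    · rcases mul_eq_zero.mp h.symm with h2 | h2
      · exact h2
      · exfalso
        unfold flz at h2
        rw [if_pos (by push_cast; simp)] at h2
        have e1 : ((sL : ℤ) - sL) = ((0 : ℕ) : ℤ) := by simp
        have e2 : ((sR : ℤ) - sR) = ((0 : ℕ) : ℤ) := by simp
        have e3 : ((((0 : Fin (N + 1)) : ℕ) : ℤ) - ((0 : ℕ) : ℤ)) = ((0 : ℕ) : ℤ) := by simp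
        have e4 : ((((⟨B + sL + sR, by omega⟩ : Fin (N + 1)) : ℕ) : ℤ) - ((0 : ℕ) : ℤ)) =
            ((B + sL + sR : ℕ) : ℤ) := by simp
        rw [e1, e2] at h2
        simp only [e3, e4] at h2
        exact (mul_ne_zero (zpow_ne_zero _ (A_Em_qz_ne N)) (mul_ne_zero
          (mul_ne_zero (K_Det_ib_ne N 0 (by omega)) (K_Det_ib_ne N 0 (by omega)))
          (mul_ne_zero (K_Det_ib_ne N (B + sL + sR) hs) (K_Det_ib_ne N 0 (by omega))))) h2
    · intro sR' _ hne
      split_ifs with hc
      · rcases lt_or_ge sR sR' with h3 | h3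
        · rw [flz_neg N (by right; left; omega), mul_zero]
        · rw [ih (sL + sR') (by omega) B sL sR' rfl hc, zero_mul]
      · rfl
    · intro h3
      exact absurd (Finset.mem_range.mpr (by omega)) h3
    · intro sL' _ hne
      apply Finset.sum_eq_zero
      intro sR' _
      split_ifs with hc
      · rcases lt_or_ge sL sL' with h3 | h3
        · rw [flz_neg N (by left; omega), mul_zero]
        · rcases lt_or_ge sR sR' with h4 | h4
          · rw [flz_neg N (by right; left; omega), mul_zero]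
          · rw [ih (sL' + sR') (by omega) B sL' sR' rfl hc, zero_mul]
      · rfl
    · intro h3
      exact absurd (Finset.mem_range.mpr (by omega)) h3

theorem crule_unique (N : ℕ) (X X' : Matrix (I2 N) (I2 N) ℂ) (W W' : ℕ → ℕ → ℕ → ℂ)
    (hX : CRule N X W) (hX' : CRule N X' W') (hF : ComF N 0 X) (hF' : ComF N 0 X')
    (h0 : ∀ s ≤ N, W 0 0 s = W' 0 0 s) (B sL sR : ℕ) (hs : B + sL + sR ≤ N) :
    W B sL sR = W' B sL sR := by
  have hD : CRule N (X - X') (fun B sL sR => W B sL sR - W' B sL sR) := by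
    intro α B β hα hB hβ x
    have h := hX α B β hα hB hβ x
    have h' := hX' α B β hα hB hβ x
    simp only [Matrix.sub_apply, sub_mul, Finset.sum_sub_distrib]
    rw [h, h', ← Finset.sum_sub_distrib]
    refine Finset.sum_congr rfl fun sL _ => ?_
    rw [← Finset.sum_sub_distrib]
    refine Finset.sum_congr rfl fun sR _ => ?_
    split_ifs
    · rfl
    · ring
  have hDF : ComF N 0 (X - X') := by
    unfold ComF at *
    rw [Matrix.mul_sub, Matrix.sub_mul, hF, hF']
  have hz := K_Det_zero N (X - X') _ hD hDF (fun s hs => by simp [h0 s hs])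
  rw [hz] at hD
  have := K_Det_W N _ hD (sL + sR) B sL sR rfl hs
  exact sub_eq_zero.mp this

end Pool.Agent.H63.CLK
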