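import Pool.Agent.H63.CLK.K_Fl
import Pool.Agent.H63.CLK.A_Fill

/-!
# All directions, algebra: the flip of the operator of a template

Every gap of a level has a height: the height of the face to which it belongs at the end. For a sweep `S` and the remaining word
`w` let `fin w S : ℕ → ℕ` be the composition of the identifications (`ident a b`) still to be made; the heights of the gaps are
`hs = S.gaps.map (fun g => h (fin w S g))`; they are the same for the two gaps which are joined at a maximum. For a list `l` of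
strands let `G hs l = ∏_j gtf (hs j) (hs (j+1)) (l j)`. Claim (induction on `w`; `ψ` supported on lists of length
`S.gaps.length - 1` with entries `≤ N`, `A_Fill_Sup`): for `ψ' l' = conj (G hs l * ψ l)`, `l = l'.map (N - ·)`,
`evalX (flipped X) w ψ' l' = conj (G hs' l * evalX X w ψ l)`.
* twist region: definition of `flipX`.
* minimum between gaps of height `ha` with the new gap of height `hb`:
  `cupc N s * gtf ha hb s * gtf hb ha (N - s) = conj (cupc N (N - s))`: with `A_Base_cupc`, `A_Em_brf_mul`, `rrf_sq`,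
  `PPf_symm`, and `∏_{p ≤ s} (q^(2hb+p) - q^(2ha-p)) * ∏_{p ≤ N-s} (q^(2ha+p) - q^(2hb-p)) = PPf ha hb` (in the second product
  `p → N + 1 - p`, `q^(N+1) = -1`), and `q^(2N(N+1)) = 1`.
* maximum: the same with the inverses.
At the end `S'.gaps = [0, 1]`, and the two factors `gtf (h 0) (h 1) N` for the lists `[N]` at the beginning and at the end cancel.
-/

set_option autoImplicit false

namespace Pool.Agent.H63.CLK

open Pool.Agent.H63.VC7 Pool.Agent.H63.VC10

/-! ### Lists -/

/-- A list of `n` indices. -/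
private def K_Gau_Val (N n : ℕ) (l : List ℕ) : Prop := l.length = n ∧ ∀ x ∈ l, x ≤ N

/-- The flipped list. -/
private def K_Gau_rev (N : ℕ) (l : List ℕ) : List ℕ := l.map (fun x => N - x)

/-- The gauge factor. -/
private noncomputable def K_Gau_G (N : ℕ) : List ℂ → List ℕ → ℂ
  | a :: b :: hs, x :: l => gtf N a b x * K_Gau_G N (b :: hs) l
  | _, _ => 1

private theorem K_Gau_G_cons (N : ℕ) (a b : ℂ) (hs : List ℂ) (x : ℕ) (l : List ℕ) :
    K_Gau_G N (a :: b :: hs) (x :: l) = gtf N a b x * K_Gau_G N (b :: hs) l := by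
  rw [K_Gau_G]

private theorem K_Gau_G_nil (N : ℕ) (a : ℂ) (l : List ℕ) : K_Gau_G N [a] l = 1 := by
  cases l <;> rfl

private theorem K_Gau_G_append (N : ℕ) (A B : List ℂ) (a : ℂ) (l0 l1 : List ℕ)
    (h : A.length = l0.length) :
    K_Gau_G N (A ++ a :: B) (l0 ++ l1) = K_Gau_G N (A ++ [a]) l0 * K_Gau_G N (a :: B) l1 := by
  induction A generalizing l0 with
  | nil =>
    have h0 : l0 = [] := List.length_eq_zero_iff.1 h.symm
    subst h0
    rw [List.nil_append, List.nil_append, List.nil_append, K_Gau_G_nil, one_mul]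
  | cons x A ih =>
    cases l0 with
    | nil => simp at h
    | cons y l0 =>
      have h' : A.length = l0.length := by simpa using h
      have ih' := ih l0 h'
      cases A with
      | nil =>
        have h0 : l0 = [] := List.length_eq_zero_iff.1 h'.symm
        subst h0
        simp only [List.nil_append, List.cons_append, K_Gau_G_cons, K_Gau_G_nil, mul_one]
      | cons z A =>
        simp only [List.cons_append, K_Gau_G_cons] at ih' ⊢
        rw [ih', mul_assoc]

/-! ### The actions -/

private theorem K_Gau_cup (q : ℂ) (N i : ℕ) (ψ : List ℕ → ℂ) (l0 r : List ℕ) (s t : ℕ)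
    (h : l0.length = i) :
    act q N (.cup i) ψ (l0 ++ s :: t :: r) = if s + t = N then cupc q N s * ψ (l0 ++ r) else 0 := by
  subst h
  simp [act]

private theorem K_Gau_cap (q : ℂ) (N i : ℕ) (ψ : List ℕ → ℂ) (l0 r : List ℕ)
    (h : l0.length = i) :
    act q N (.cap i) ψ (l0 ++ r) = ∑ a ∈ Finset.range (N + 1),
      (cupc q N (N - a))⁻¹ * ψ (l0 ++ a :: (N - a) :: r) := by
  subst h
  simp [act]

private theorem K_Gau_actX (N i : ℕ) (X : Matrix (I2 N) (I2 N) ℂ) (ψ : List ℕ → ℂ)
    (l0 r : List ℕ) (c d : ℕ) (h : l0.length = i) (hc : c < N + 1) (hd : d < N + 1) :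
    actX N X i ψ (l0 ++ c :: d :: r) = ∑ a : Fin (N + 1), ∑ b : Fin (N + 1),
      X (⟨c, hc⟩, ⟨d, hd⟩) (a, b) * ψ (l0 ++ (a : ℕ) :: (b : ℕ) :: r) := by
  subst h
  simp [actX, hc, hd]

private theorem K_Gau_split {n i : ℕ} {l : List ℕ} (h : l.length = n) (hi : i + 2 ≤ n) :
    ∃ l0 s t r, l = l0 ++ s :: t :: r ∧ l0.length = i := by
  rcases hd : l.drop i with _ | ⟨c, _ | ⟨d, r⟩⟩
  · have h5 : (l.drop i).length = l.length - i := List.length_drop
    rw [hd] at h5
    simp only [List.length_nil] at h5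
    omega
  · have h5 : (l.drop i).length = l.length - i := List.length_drop
    rw [hd] at h5
    simp only [List.length_cons, List.length_nil] at h5
    omega
  · refine ⟨l.take i, c, d, r, ?_, ?_⟩
    · rw [← hd, List.take_append_drop]
    · rw [List.length_take]
      omega

/-! ### The local identity -/

private theorem K_Gau_qh_sub_M (N : ℕ) (x : ℂ) : qh N (x - ((N : ℂ) + 1)) = -qh N x := by
  rw [sub_eq_add_neg, qh_add, qh_neg, qh_M]
  norm_num

private theorem K_Gau_qh_add_M (N : ℕ) (x : ℂ) : qh N (x + ((N : ℂ) + 1)) = -qh N x := by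
  rw [qh_add, qh_M]
  ring

private theorem K_Gau_PP (N s : ℕ) (hs : s ≤ N) (ha hb : ℂ) :
    (∏ p ∈ Finset.range s, (qh N (2 * hb + p + 1) - qh N (2 * ha - p - 1))) *
      (∏ p ∈ Finset.range (N - s), (qh N (2 * ha + p + 1) - qh N (2 * hb - p - 1))) =
      PPf N ha hb := by
  unfold PPf
  have h1 : Finset.range N = Finset.range (s + (N - s)) := by rw [Nat.add_sub_cancel' hs]
  rw [h1, Finset.prod_range_add]
  congr 1
  rw [← Finset.prod_range_reflect]
  refine Finset.prod_congr rfl fun p hp => ?_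
  have hp' := Finset.mem_range.1 hp
  have h2 : ((N - s - 1 - p : ℕ) : ℂ) = (N : ℂ) - s - 1 - p := by
    have : N - s - 1 - p + (s + 1 + p) = N := by omega
    have h3 : ((N - s - 1 - p + (s + 1 + p) : ℕ) : ℂ) = (N : ℂ) := by rw [this]
    push_cast at h3 ⊢
    linear_combination h3
  rw [h2, Nat.cast_add]
  have e1 : 2 * ha + ((N : ℂ) - s - 1 - p) + 1 = (2 * ha - ((s : ℂ) + p) - 1) + ((N : ℂ) + 1) := by
    ring
  have e2 : 2 * hb - ((N : ℂ) - s - 1 - p) - 1 = (2 * hb + ((s : ℂ) + p) + 1) - ((N : ℂ) + 1) := by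
    ring
  rw [e1, e2, K_Gau_qh_add_M, K_Gau_qh_sub_M]
  ring

private theorem K_Gau_loc (N s : ℕ) (hs : s ≤ N) (ha hb : ℂ) (h1 : ‖ha‖ ≤ 1 / 8)
    (h2 : ‖hb‖ ≤ 1 / 8) :
    cupc (qz N) N s * (gtf N ha hb s * gtf N hb ha (N - s)) =
      starRingEnd ℂ (cupc (qz N) N (N - s)) := by
  have hq := A_Em_qz_ne N
  have hP := K_Gau_PP N s hs ha hb
  have hP0 := PPf_ne N ha hb h1 h2
  have hr : rrf N hb ha = rrf N ha hb := by
    unfold rrf
    rw [PPf_symm]
  have hr2 := rrf_sq N ha hb
  have hB := A_Em_brf_mul N s hs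
  have hB0 := A_Em_brf_ne N (le_refl N)
  rw [A_Base_cupc N s hs, A_Base_cupc N (N - s) (Nat.sub_le N s), qz_conj_zpow]
  unfold gtf
  rw [hr]
  set D1 := ∏ p ∈ Finset.range s, (qh N (2 * hb + p + 1) - qh N (2 * ha - p - 1)) with hD1
  set D2 := ∏ p ∈ Finset.range (N - s), (qh N (2 * ha + p + 1) - qh N (2 * hb - p - 1)) with hD2
  have hD : D1 * D2 ≠ 0 := by rw [hP]; exact hP0
  have hD1' : D1 ≠ 0 := left_ne_zero_of_mul hD
  have hD2' : D2 ≠ 0 := right_ne_zero_of_mul hD
  have e1 : qz N ^ ((s : ℤ) * (2 * N - s)) *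
      (qz N ^ ((s : ℤ) * s + 2 * s) * brf (qz N) s / D1 * rrf N ha hb *
        (qz N ^ (((N - s : ℕ) : ℤ) * ((N - s : ℕ) : ℤ) + 2 * ((N - s : ℕ) : ℤ)) *
          brf (qz N) (N - s) / D2 * rrf N ha hb)) =
      (qz N ^ ((s : ℤ) * (2 * N - s)) * qz N ^ ((s : ℤ) * s + 2 * s) *
        qz N ^ (((N - s : ℕ) : ℤ) * ((N - s : ℕ) : ℤ) + 2 * ((N - s : ℕ) : ℤ))) *
      ((brf (qz N) s * brf (qz N) (N - s)) / (D1 * D2) * rrf N ha hb ^ 2) := by
    field_simp
  rw [e1, hB, hP, hr2]
  have e2 : brf (qz N) N / PPf N ha hb * (PPf N ha hb / brf (qz N) N) = 1 := by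
    field_simp
  rw [e2, mul_one, ← zpow_add₀ hq, ← zpow_add₀ hq]
  have e3 : ((N - s : ℕ) : ℤ) = (N : ℤ) - s := by omega
  rw [e3]
  have e4 : (s : ℤ) * (2 * N - s) + ((s : ℤ) * s + 2 * s) +
      (((N : ℤ) - s) * ((N : ℤ) - s) + 2 * ((N : ℤ) - s)) =
      -(((N : ℤ) - s) * (2 * N - ((N : ℤ) - s))) + ((2 * N : ℕ) : ℤ) * ((N : ℤ) + 1) := by
    push_cast
    ring
  rw [e4, zpow_add₀ hq, A_Base_sign]
  have e5 : (-1 : ℂ) ^ (2 * N) = 1 := by
    rw [pow_mul]
    norm_num
  rw [e5, mul_one]

/-! ### The induction -/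

private theorem K_Gau_ident_left (a b : ℕ) : ident a b a = min a b := by
  unfold ident
  split_ifs with h
  · rfl
  · omega

private theorem K_Gau_ident_right (a b : ℕ) : ident a b b = min a b := by
  unfold ident
  split_ifs with h
  · rfl
  · omega

/-- The relation of two vectors. -/
private def K_Gau_Rel (N n : ℕ) (hs : List ℂ) (κ : ℂ) (ψ ψ' : List ℕ → ℂ) : Prop :=
  ∀ l, K_Gau_Val N n l → ψ' (K_Gau_rev N l) = starRingEnd ℂ (κ * (K_Gau_G N hs l * ψ l))

private theorem K_Gau_Rel_cup (N n i : ℕ) (A B : List ℂ) (ha hb : ℂ) (h1 : ‖ha‖ ≤ 1 / 8)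
    (h2 : ‖hb‖ ≤ 1 / 8) (hA : A.length = i) (hn : (A ++ ha :: B).length = n + 1) (κ : ℂ)
    (ψ ψ' : List ℕ → ℂ) (h : K_Gau_Rel N n (A ++ ha :: B) κ ψ ψ') :
    K_Gau_Rel N (n + 2) (A ++ ha :: hb :: ha :: B) κ (act (qz N) N (.cup i) ψ)
      (act (qz N) N (.cup i) ψ') := by
  intro l hl
  have hlen : A.length + (B.length + 1) = n + 1 := by
    simpa [List.length_append] using hn
  obtain ⟨l0, s, t, r, rfl, hl0⟩ := K_Gau_split (i := i) hl.1 (by omega)
  have hs : s ≤ N := hl.2 s (by simp)
  have ht : t ≤ N := hl.2 t (by simp)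
  have hrev : K_Gau_rev N (l0 ++ s :: t :: r) =
      K_Gau_rev N l0 ++ (N - s) :: (N - t) :: K_Gau_rev N r := by
    simp [K_Gau_rev]
  have hrl : (K_Gau_rev N l0).length = i := by simp [K_Gau_rev, hl0]
  rw [hrev, K_Gau_cup _ _ _ _ _ _ _ _ hrl, K_Gau_cup _ _ _ _ _ _ _ _ hl0]
  by_cases hst : s + t = N
  · rw [if_pos hst, if_pos (by omega)]
    have hv : K_Gau_Val N n (l0 ++ r) := by
      constructor
      · have := hl.1
        simp only [List.length_append, List.length_cons] at this ⊢
        omega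
      · intro x hx
        refine hl.2 x ?_
        simp only [List.mem_append, List.mem_cons] at hx ⊢
        tauto
    have h3 := h _ hv
    have hrev' : K_Gau_rev N (l0 ++ r) = K_Gau_rev N l0 ++ K_Gau_rev N r := by
      simp [K_Gau_rev]
    rw [hrev'] at h3
    rw [h3]
    have hG1 : K_Gau_G N (A ++ ha :: B) (l0 ++ r) =
        K_Gau_G N (A ++ [ha]) l0 * K_Gau_G N (ha :: B) r :=
      K_Gau_G_append N A B ha l0 r (by omega)
    have hG2 : K_Gau_G N (A ++ ha :: hb :: ha :: B) (l0 ++ s :: t :: r) =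
        K_Gau_G N (A ++ [ha]) l0 * (gtf N ha hb s * (gtf N hb ha t * K_Gau_G N (ha :: B) r)) := by
      rw [K_Gau_G_append N A (hb :: ha :: B) ha l0 (s :: t :: r) (by omega), K_Gau_G_cons,
        K_Gau_G_cons]
    have ht' : t = N - s := by omega
    subst ht'
    have hloc := K_Gau_loc N s hs ha hb h1 h2
    have hloc' : cupc (qz N) N (N - s) =
        starRingEnd ℂ (cupc (qz N) N s * (gtf N ha hb s * gtf N hb ha (N - s))) := by
      rw [hloc, Complex.conj_conj]
    rw [hG1, hG2, hloc', ← map_mul]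
    congr 1
    ring
  · rw [if_neg hst, if_neg (by omega)]
    simp

private theorem K_Gau_Rel_cap (N n i : ℕ) (A B : List ℂ) (ha hm : ℂ) (h1 : ‖ha‖ ≤ 1 / 8)
    (h2 : ‖hm‖ ≤ 1 / 8) (hA : A.length = i)
    (hn : (A ++ ha :: hm :: ha :: B).length = n + 1) (κ : ℂ)
    (ψ ψ' : List ℕ → ℂ) (h : K_Gau_Rel N n (A ++ ha :: hm :: ha :: B) κ ψ ψ') :
    K_Gau_Rel N (n - 2) (A ++ ha :: B) κ (act (qz N) N (.cap i) ψ)
      (act (qz N) N (.cap i) ψ') := by
  intro l hl
  have hlen : A.length + (B.length + 3) = n + 1 := by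
    simpa [List.length_append] using hn
  have hl1 := hl.1
  obtain ⟨l0, r, rfl, hl0⟩ : ∃ l0 r, l = l0 ++ r ∧ l0.length = i :=
    ⟨l.take i, l.drop i, (List.take_append_drop i l).symm, by
      rw [List.length_take]
      omega⟩
  have hrev : K_Gau_rev N (l0 ++ r) = K_Gau_rev N l0 ++ K_Gau_rev N r := by
    simp [K_Gau_rev]
  have hrl : (K_Gau_rev N l0).length = i := by simp [K_Gau_rev, hl0]
  rw [hrev, K_Gau_cap _ _ _ _ _ _ hrl, K_Gau_cap _ _ _ _ _ _ hl0,
    ← Finset.sum_range_reflect, Finset.mul_sum, Finset.mul_sum, map_sum]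
  refine Finset.sum_congr rfl fun a ha' => ?_
  have haN : a ≤ N := by
    have := Finset.mem_range.1 ha'
    omega
  have e0 : N + 1 - 1 - a = N - a := by omega
  have e1 : N - (N - a) = a := by omega
  rw [e0, e1]
  have hv : K_Gau_Val N n (l0 ++ a :: (N - a) :: r) := by
    constructor
    · simp only [List.length_append, List.length_cons] at hl1 ⊢
      omega
    · intro x hx
      simp only [List.mem_append, List.mem_cons] at hx
      rcases hx with hx | hx | hx | hx
      · exact hl.2 x (by simp [hx])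
      · omega
      · omega
      · exact hl.2 x (by simp [hx])
  have h3 := h _ hv
  have hrev' : K_Gau_rev N (l0 ++ a :: (N - a) :: r) =
      K_Gau_rev N l0 ++ (N - a) :: a :: K_Gau_rev N r := by
    simp [K_Gau_rev, e1]
  rw [hrev'] at h3
  rw [h3]
  have hG1 : K_Gau_G N (A ++ ha :: B) (l0 ++ r) =
      K_Gau_G N (A ++ [ha]) l0 * K_Gau_G N (ha :: B) r :=
    K_Gau_G_append N A B ha l0 r (by omega)
  have hG2 : K_Gau_G N (A ++ ha :: hm :: ha :: B) (l0 ++ a :: (N - a) :: r) =
      K_Gau_G N (A ++ [ha]) l0 *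
        (gtf N ha hm a * (gtf N hm ha (N - a) * K_Gau_G N (ha :: B) r)) := by
    rw [K_Gau_G_append N A (hm :: ha :: B) ha l0 (a :: (N - a) :: r) (by omega), K_Gau_G_cons,
      K_Gau_G_cons]
  rw [hG1, hG2]
  -- the local identity
  have hloc := K_Gau_loc N (N - a) (Nat.sub_le N a) hm ha h2 h1
  rw [e1] at hloc
  have hc0 : cupc (qz N) N a ≠ 0 := by
    rw [A_Base_cupc N a haN]
    exact zpow_ne_zero _ (A_Em_qz_ne N)
  have hc1 : cupc (qz N) N (N - a) ≠ 0 := by
    rw [A_Base_cupc N (N - a) (Nat.sub_le N a)]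
    exact zpow_ne_zero _ (A_Em_qz_ne N)
  have hloc' : cupc (qz N) N a =
      starRingEnd ℂ (cupc (qz N) N (N - a) * (gtf N hm ha (N - a) * gtf N ha hm a)) := by
    rw [hloc, Complex.conj_conj]
  have hg : gtf N hm ha (N - a) * gtf N ha hm a ≠ 0 := by
    intro h0
    rw [h0, mul_zero, map_zero] at hloc'
    exact hc0 hloc'
  have hg1 := left_ne_zero_of_mul hg
  have hg2 := right_ne_zero_of_mul hg
  rw [hloc', ← map_inv₀, ← map_mul]
  congr 1
  field_simp

private theorem K_Gau_Rel_tw (N n i : ℕ) (A B : List ℂ) (hh : Fin 4 → ℂ)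
    (hs : ∀ k, ‖hh k‖ ≤ 1 / 8) (hA : A.length = i)
    (hn : (A ++ hh 3 :: hh 2 :: hh 1 :: B).length = n + 1) (κ : ℂ)
    (X X' : Matrix (I2 N) (I2 N) ℂ) (hX : X' = flipX N hh X)
    (ψ ψ' : List ℕ → ℂ) (h : K_Gau_Rel N n (A ++ hh 3 :: hh 2 :: hh 1 :: B) κ ψ ψ') :
    K_Gau_Rel N n (A ++ hh 3 :: hh 0 :: hh 1 :: B) κ (actX N X i ψ) (actX N X' i ψ') := by
  intro l hl
  have hlen : A.length + (B.length + 3) = n + 1 := by
    simpa [List.length_append] using hn
  obtain ⟨l0, c, d, r, rfl, hl0⟩ := K_Gau_split (i := i) hl.1 (by omega)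
  have hc : c ≤ N := hl.2 c (by simp)
  have hd : d ≤ N := hl.2 d (by simp)
  have hrev : ∀ x y, K_Gau_rev N (l0 ++ x :: y :: r) =
      K_Gau_rev N l0 ++ (N - x) :: (N - y) :: K_Gau_rev N r := by
    intro x y
    simp [K_Gau_rev]
  have hrl : (K_Gau_rev N l0).length = i := by simp [K_Gau_rev, hl0]
  rw [hrev, K_Gau_actX N i X' ψ' _ _ (N - c) (N - d) hrl (by omega) (by omega),
    K_Gau_actX N i X ψ _ _ c d hl0 (by omega) (by omega)]
  rw [← Equiv.sum_comp Fin.revPerm, Finset.mul_sum, Finset.mul_sum, map_sum]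
  refine Finset.sum_congr rfl fun a _ => ?_
  rw [← Equiv.sum_comp Fin.revPerm, Finset.mul_sum, Finset.mul_sum, map_sum]
  refine Finset.sum_congr rfl fun b _ => ?_
  have haN : (a : ℕ) ≤ N := by omega
  have hbN : (b : ℕ) ≤ N := by omega
  have ea : ((Fin.revPerm a : Fin (N + 1)) : ℕ) = N - a := by
    rw [Fin.revPerm_apply, Fin.val_rev]
    omega
  have eb : ((Fin.revPerm b : Fin (N + 1)) : ℕ) = N - b := by
    rw [Fin.revPerm_apply, Fin.val_rev]
    omega
  have hv : K_Gau_Val N n (l0 ++ (a : ℕ) :: (b : ℕ) :: r) := by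
    constructor
    · have := hl.1
      simp only [List.length_append, List.length_cons] at this ⊢
      omega
    · intro x hx
      simp only [List.mem_append, List.mem_cons] at hx
      rcases hx with hx | hx | hx | hx
      · exact hl.2 x (by simp [hx])
      · omega
      · omega
      · exact hl.2 x (by simp [hx])
  have h3 := h _ hv
  rw [hrev] at h3
  rw [ea, eb, h3, hX]
  unfold flipX
  have e1 : (Fin.rev (⟨N - c, by omega⟩ : Fin (N + 1))) = ⟨c, by omega⟩ := by
    apply Fin.ext
    rw [Fin.val_rev]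
    change N + 1 - (N - c + 1) = c
    omega
  have e2 : (Fin.rev (⟨N - d, by omega⟩ : Fin (N + 1))) = ⟨d, by omega⟩ := by
    apply Fin.ext
    rw [Fin.val_rev]
    change N + 1 - (N - d + 1) = d
    omega
  have e3 : Fin.rev (Fin.revPerm a) = a := by
    rw [Fin.revPerm_apply, Fin.rev_rev]
  have e4 : Fin.rev (Fin.revPerm b) = b := by
    rw [Fin.revPerm_apply, Fin.rev_rev]
  simp only [e1, e2, e3, e4, ea, eb]
  have e5 : N - (N - c) = c := by omega
  have e6 : N - (N - d) = d := by omega
  have e7 : N - (N - (a : ℕ)) = a := by omega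
  have e8 : N - (N - (b : ℕ)) = b := by omega
  rw [e5, e6, e7, e8, ← map_mul]
  congr 1
  have hG1 : K_Gau_G N (A ++ hh 3 :: hh 2 :: hh 1 :: B) (l0 ++ (a : ℕ) :: (b : ℕ) :: r) =
      K_Gau_G N (A ++ [hh 3]) l0 * (gtf N (hh 3) (hh 2) a *
        (gtf N (hh 2) (hh 1) b * K_Gau_G N (hh 1 :: B) r)) := by
    rw [K_Gau_G_append N A (hh 2 :: hh 1 :: B) (hh 3) l0 _ (by omega), K_Gau_G_cons, K_Gau_G_cons]
  have hG2 : K_Gau_G N (A ++ hh 3 :: hh 0 :: hh 1 :: B) (l0 ++ c :: d :: r) =
      K_Gau_G N (A ++ [hh 3]) l0 * (gtf N (hh 3) (hh 0) c *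
        (gtf N (hh 0) (hh 1) d * K_Gau_G N (hh 1 :: B) r)) := by
    rw [K_Gau_G_append N A (hh 0 :: hh 1 :: B) (hh 3) l0 _ (by omega), K_Gau_G_cons, K_Gau_G_cons]
  rw [hG1, hG2]
  have g1 := gtf_ne N (hh 3) (hh 2) (hs 3) (hs 2) a haN
  have g2 := gtf_ne N (hh 2) (hh 1) (hs 2) (hs 1) b hbN
  field_simp

private theorem K_Gau_main (N : ℕ) (hh : ℕ → ℂ) (hs : ∀ f, ‖hh f‖ ≤ 1 / 8) (w : List TPiece) :
    ∀ S S' : Sweep, sweep w S = some S' → ∃ (φ : ℕ → ℕ) (L : List (Fin 4 → ℕ)),
      φ 0 = 0 ∧ φ 1 = 1 ∧ S'.cor = S.cor.map (fun x k => φ (x k)) ++ L ∧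
      ∀ X X' : ℕ → Matrix (I2 N) (I2 N) ℂ,
        (∀ (j : ℕ) (hj : j < L.length), X' (S.cor.length + j) =
          flipX N (fun k => hh (L[j] k)) (X (S.cor.length + j))) →
        ∀ (κ : ℂ) (ψ ψ' : List ℕ → ℂ),
          K_Gau_Rel N (S.gaps.length - 1) (S.gaps.map (fun g => hh (φ g))) κ ψ ψ' →
          K_Gau_Rel N (S'.gaps.length - 1) (S'.gaps.map hh) κ
            (evalX N X S.cor.length w ψ) (evalX N X' S.cor.length w ψ') := by
  induction w with
  | nil =>
    intro S S' h
    rw [sweep, Option.some.injEq] at h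
    subst h
    refine ⟨id, [], rfl, rfl, ?_, ?_⟩
    · simp
    · intro X X' _ κ ψ ψ' h
      exact h
  | cons x w ih =>
    intro S S' h
    rw [sweep] at h
    obtain ⟨S1, h1, h2⟩ := Option.bind_eq_some_iff.1 h
    obtain ⟨φ, L, hφ0, hφ1, hcor, hrel⟩ := ih S1 S' h2
    cases x with
    | cup i =>
      simp only [Sweep.step] at h1
      split at h1
      swap
      · exact absurd h1 (by simp)
      rename_i a r hd
      simp only [Option.some.injEq] at h1
      subst h1
      have hg : S.gaps = S.gaps.take i ++ a :: r := by rw [← hd, List.take_append_drop]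
      have hil : (S.gaps.take i).length = i := by
        have h5 : (S.gaps.drop i).length = S.gaps.length - i := List.length_drop
        rw [hd] at h5
        simp only [List.length_cons] at h5
        rw [List.length_take]
        omega
      refine ⟨φ, L, hφ0, hφ1, hcor, ?_⟩
      intro X X' hX κ ψ ψ' hψ
      refine hrel X X' hX κ _ _ ?_
      have hlen : S.gaps.length = i + (r.length + 1) := by
        rw [hg, List.length_append, hil, List.length_cons]
      rw [hg] at hψ
      simp only [List.map_append, List.map_cons] at hψ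
      have h3 := K_Gau_Rel_cup N (S.gaps.length - 1) i
        ((S.gaps.take i).map (fun g => hh (φ g))) (r.map (fun g => hh (φ g))) (hh (φ a))
        (hh (φ S.nxt)) (hs _) (hs _) (by rw [List.length_map, hil])
        (by rw [List.length_append, List.length_map, hil, List.length_cons, List.length_map]; omega)
        κ ψ ψ' (by rw [← hg] at hψ; exact hψ)
      simp only [List.map_append, List.map_cons, List.length_append, List.length_cons, hil]
      have e : i + (r.length + 1 + 1 + 1) - 1 = S.gaps.length - 1 + 2 := by omega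
      rw [e]
      exact h3
    | cap i =>
      simp only [Sweep.step] at h1
      split at h1
      swap
      · exact absurd h1 (by simp)
      rename_i a m b r hd
      split_ifs at h1 with hab
      simp only [Option.some.injEq] at h1
      subst h1
      have hg : S.gaps = S.gaps.take i ++ a :: m :: b :: r := by
        rw [← hd, List.take_append_drop]
      have hil : (S.gaps.take i).length = i := by
        have h5 : (S.gaps.drop i).length = S.gaps.length - i := List.length_drop
        rw [hd] at h5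
        simp only [List.length_cons] at h5
        rw [List.length_take]
        omega
      have hab1 : a ≠ b := fun h => hab (Or.inl h)
      have hab2 : 1 < max a b := by
        by_contra h
        exact hab (Or.inr (by omega))
      have hid0 : ident a b 0 = 0 := by
        unfold ident
        rw [if_neg (by omega)]
      have hid1 : ident a b 1 = 1 := by
        unfold ident
        rw [if_neg (by omega)]
      refine ⟨fun x => φ (ident a b x), L, ?_, ?_, ?_, ?_⟩
      · change φ (ident a b 0) = 0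
        rw [hid0, hφ0]
      · change φ (ident a b 1) = 1
        rw [hid1, hφ1]
      · rw [hcor]
        simp only [List.map_map]
        rfl
      · intro X X' hX κ ψ ψ' hψ
        simp only [List.length_map] at hrel
        refine hrel X X' hX κ _ _ ?_
        have hlen : S.gaps.length = i + (r.length + 3) := by
          rw [hg, List.length_append, hil]
          simp only [List.length_cons]
        have hba : hh (φ (ident a b b)) = hh (φ (ident a b a)) := by
          rw [K_Gau_ident_left, K_Gau_ident_right]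
        rw [hg] at hψ
        simp only [List.map_append, List.map_cons, hba] at hψ
        have h3 := K_Gau_Rel_cap N (S.gaps.length - 1) i
          ((S.gaps.take i).map (fun g => hh (φ (ident a b g))))
          (r.map (fun g => hh (φ (ident a b g)))) (hh (φ (ident a b a)))
          (hh (φ (ident a b m))) (hs _) (hs _) (by rw [List.length_map, hil])
          (by
            simp only [List.length_append, List.length_map, hil, List.length_cons]
            omega)
          κ ψ ψ' (by rw [← hg] at hψ; exact hψ)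
        simp only [List.map_append, List.map_cons, List.length_append, List.length_cons,
          List.map_map, hil]
        have e : i + (r.length + 1) - 1 = S.gaps.length - 1 - 2 := by omega
        rw [e]
        exact h3
    | tw i =>
      simp only [Sweep.step] at h1
      split at h1
      swap
      · exact absurd h1 (by simp)
      rename_i a b c r hd
      simp only [Option.some.injEq] at h1
      subst h1
      have hg : S.gaps = S.gaps.take i ++ a :: b :: c :: r := by
        rw [← hd, List.take_append_drop]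
      have hil : (S.gaps.take i).length = i := by
        have h5 : (S.gaps.drop i).length = S.gaps.length - i := List.length_drop
        rw [hd] at h5
        simp only [List.length_cons] at h5
        rw [List.length_take]
        omega
      refine ⟨φ, (fun k => φ ((![S.nxt, c, b, a] : Fin 4 → ℕ) k)) :: L, hφ0, hφ1, ?_, ?_⟩
      · rw [hcor]
        simp only [List.map_append, List.map_cons, List.map_nil, List.append_assoc,
          List.cons_append, List.nil_append]
      · intro X X' hX κ ψ ψ' hψ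
        simp only [List.length_append, List.length_cons, List.length_nil, Nat.zero_add] at hrel
        have hX1 := hX 0 (by simp)
        simp only [Nat.add_zero, List.getElem_cons_zero] at hX1
        refine hrel X X' ?_ κ _ _ ?_
        · intro j hj
          have hX2 := hX (j + 1) (by simp only [List.length_cons]; omega)
          simp only [List.getElem_cons_succ] at hX2
          have e : S.cor.length + 1 + j = S.cor.length + (j + 1) := by omega
          rw [e]
          exact hX2
        · have hlen : S.gaps.length = i + (r.length + 3) := by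
            rw [hg, List.length_append, hil]
            simp only [List.length_cons]
          rw [hg] at hψ
          simp only [List.map_append, List.map_cons] at hψ
          have h3 := K_Gau_Rel_tw N (S.gaps.length - 1) i
            ((S.gaps.take i).map (fun g => hh (φ g))) (r.map (fun g => hh (φ g)))
            (fun k => hh (φ ((![S.nxt, c, b, a] : Fin 4 → ℕ) k))) (fun k => hs _)
            (by rw [List.length_map, hil])
            (by
              simp only [List.length_append, List.length_map, hil, List.length_cons]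
              omega)
            κ (X S.cor.length) (X' S.cor.length) hX1 ψ ψ' (by rw [← hg] at hψ; exact hψ)
          simp only [List.map_append, List.map_cons, List.length_append, List.length_cons, hil]
          have e : i + (r.length + 1 + 1 + 1) - 1 = S.gaps.length - 1 := by omega
          rw [e]
          exact h3

theorem evalX_flip (N : ℕ) (w : List TPiece) (c : ℕ) (F : Finset ℕ) (cor : Fin c → Fin 4 → ℕ)
    (hT : IsTemplate w c F cor) (h : ℕ → ℂ) (hs : ∀ f, ‖h f‖ ≤ 1 / 8)
    (X X' : ℕ → Matrix (I2 N) (I2 N) ℂ)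
    (hX : ∀ v : Fin c, X' v = flipX N (fun k => h (cor v k)) (X v)) :
    evalX N X' 0 w (dl 0) [0] = starRingEnd ℂ (evalX N X 0 w (dl N) [N]) := by
  obtain ⟨S, hS, hg, hc, _⟩ := hT
  obtain ⟨φ, L, h0, h1, hcor, hrel⟩ := K_Gau_main N h hs w Sweep.init S hS
  have hL : L = List.ofFn cor := by
    rw [← hc, hcor]
    rfl
  subst hL
  have hgt : gtf N (h 0) (h 1) N ≠ 0 := gtf_ne N (h 0) (h 1) (hs 0) (hs 1) N le_rfl
  have hrel2 := hrel X X' ?_ (gtf N (h 0) (h 1) N)⁻¹ (dl N) (dl 0) ?_
  · rw [hg] at hrel2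
    have h3 := hrel2 [N] ⟨rfl, by simp⟩
    have e1 : K_Gau_rev N [N] = [0] := by simp [K_Gau_rev]
    have e2 : K_Gau_G N ([0, 1].map h) [N] = gtf N (h 0) (h 1) N := by
      rw [List.map_cons, List.map_cons, List.map_nil, K_Gau_G_cons, K_Gau_G_nil, mul_one]
    rw [e1, e2, inv_mul_cancel_left₀ hgt] at h3
    exact h3
  · intro j hj
    have hj' : j < c := by simpa using hj
    have h3 := hX ⟨j, hj'⟩
    have e0 : Sweep.init.cor.length + j = j := by
      change 0 + j = j
      omega
    rw [e0]
    simp only [List.getElem_ofFn]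
    exact h3
  · intro l hl
    have hl1 : l.length = 1 := hl.1
    obtain ⟨x, rfl⟩ := List.length_eq_one_iff.1 hl1
    have hx : x ≤ N := hl.2 x (by simp)
    have e1 : K_Gau_rev N [x] = [N - x] := by simp [K_Gau_rev]
    have e2 : K_Gau_G N (Sweep.init.gaps.map (fun g => h (φ g))) [x] = gtf N (h 0) (h 1) x := by
      change K_Gau_G N [h (φ 0), h (φ 1)] [x] = _
      rw [K_Gau_G_cons, K_Gau_G_nil, mul_one, h0, h1]
    rw [e1, e2]
    unfold dl
    by_cases hxN : x = N
    · subst hxN
      simp [hgt]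
    · have hne : N - x ≠ 0 := by omega
      simp [hxN, hne]

end Pool.Agent.H63.CLK
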