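import Pool.Agent.H63.CLK.K_Id
import Pool.Agent.H63.CLK.A_Fill

/-!
# All directions, algebra: the operator of a template is a scalar

The operator `E` on lists: `EL ψ (a :: l) = {a+1} ψ ((a+1) :: l) ∏_{x ∈ l} q^(N - 2x) + EL (fun l => ψ (a :: l)) l`, `EL ψ [] = 0`.
It commutes with `act (cup i)`, `act (cap i)`, `actX X i` (`ComE N X`) on all vectors of the tensor powers (`A_Fill_Sup`):
induction on `i` with `A_Psi_cup_cons` etc. (`∏ q^(N - 2x)` is multiplicative, and the pieces preserve the weight: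
`A_Base_cupc` gives `cupc N s = q^(s(2N-s))`; for a cup `{s+1} cupc (s+1) q^(N-2t) + {t+1} cupc s = 0` when `s + 1 + t = N`, by
`q^(N+1) = -1` and `{N - s} = {s + 1}`; the same for a cap). So the operator `L` of the template, from lists of length 1 to lists
of length 1, commutes with `E`. It preserves the weight, so `L e_j = λ_j e_j`, and `E e_j = {j} e_{j-1}`, `{j} ≠ 0` for
`1 ≤ j ≤ N`, give `λ_N = λ_0`.
-/

set_option autoImplicit false

namespace Pool.Agent.H63.CLK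

open Pool.Agent.H63.VC7 Pool.Agent.H63.VC10

/-- The product of the weights `q ^ (N - 2 x)`. -/
noncomputable def K_Sca_kk (N : ℕ) : List ℕ → ℂ
  | [] => 1
  | x :: l => qz N ^ ((N : ℤ) - 2 * (x : ℤ)) * K_Sca_kk N l

/-- The operator `E` on lists. -/
noncomputable def K_Sca_EL (N : ℕ) : (List ℕ → ℂ) → List ℕ → ℂ
  | _, [] => 0
  | ψ, a :: l => br (qz N) ((a : ℤ) + 1) * (ψ ((a + 1) :: l) * K_Sca_kk N l) +
      K_Sca_EL N (fun l => ψ (a :: l)) l

theorem K_Sca_kk_append (N : ℕ) (l m : List ℕ) :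
    K_Sca_kk N (l ++ m) = K_Sca_kk N l * K_Sca_kk N m := by
  induction l with
  | nil => simp [K_Sca_kk]
  | cons x l ih =>
    simp only [List.cons_append, K_Sca_kk, ih]
    ring

theorem K_Sca_kk_two (N : ℕ) (p r : List ℕ) (a b c d : ℕ) (h : a + b = c + d) :
    K_Sca_kk N (p ++ a :: b :: r) = K_Sca_kk N (p ++ c :: d :: r) := by
  have e : qz N ^ ((N : ℤ) - 2 * (a : ℤ)) * qz N ^ ((N : ℤ) - 2 * (b : ℤ)) =
      qz N ^ ((N : ℤ) - 2 * (c : ℤ)) * qz N ^ ((N : ℤ) - 2 * (d : ℤ)) := by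
    rw [← zpow_add₀ (A_Em_qz_ne N), ← zpow_add₀ (A_Em_qz_ne N)]
    congr 1
    omega
  rw [K_Sca_kk_append, K_Sca_kk_append]
  simp only [K_Sca_kk]
  rw [← mul_assoc (qz N ^ ((N : ℤ) - 2 * (a : ℤ))), e]
  ring

theorem K_Sca_kk_cancel (N : ℕ) (p r : List ℕ) (a b : ℕ) (h : a + b = N) :
    K_Sca_kk N (p ++ a :: b :: r) = K_Sca_kk N (p ++ r) := by
  have e : qz N ^ ((N : ℤ) - 2 * (a : ℤ)) * qz N ^ ((N : ℤ) - 2 * (b : ℤ)) = 1 := by
    rw [← zpow_add₀ (A_Em_qz_ne N), show (N : ℤ) - 2 * (a : ℤ) + ((N : ℤ) - 2 * (b : ℤ)) = 0 by omega,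
      zpow_zero]
  rw [K_Sca_kk_append, K_Sca_kk_append]
  simp only [K_Sca_kk]
  rw [← mul_assoc (qz N ^ ((N : ℤ) - 2 * (a : ℤ))), e, one_mul]

theorem K_Sca_EL_sum {ι : Type*} (N : ℕ) (s : Finset ι) (K : ι → ℂ) (ψ : ι → List ℕ → ℂ)
    (l : List ℕ) : K_Sca_EL N (fun l => ∑ t ∈ s, K t * ψ t l) l =
      ∑ t ∈ s, K t * K_Sca_EL N (ψ t) l := by
  induction l generalizing ψ with
  | nil => simp [K_Sca_EL]
  | cons a l ih =>
    simp only [K_Sca_EL]
    rw [ih, Finset.sum_mul, Finset.mul_sum, ← Finset.sum_add_distrib]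
    refine Finset.sum_congr rfl fun t _ => ?_
    ring

theorem K_Sca_EL_mul (N : ℕ) (K : ℂ) (ψ : List ℕ → ℂ) (l : List ℕ) :
    K_Sca_EL N (fun l => K * ψ l) l = K * K_Sca_EL N ψ l := by
  induction l generalizing ψ with
  | nil => simp [K_Sca_EL]
  | cons a l ih =>
    simp only [K_Sca_EL]
    rw [ih]
    ring

theorem K_Sca_EL_zero (N : ℕ) (ψ : List ℕ → ℂ) (h : ∀ a l, ψ (a :: l) = 0) (l : List ℕ) :
    K_Sca_EL N ψ l = 0 := by
  induction l generalizing ψ with
  | nil => rfl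
  | cons a l ih =>
    simp only [K_Sca_EL]
    rw [h, zero_mul, mul_zero, zero_add]
    exact ih _ fun b m => h a (b :: m)

/-- The commutation from the first place to all places. -/
theorem K_Sca_gen (N : ℕ) (T : ℕ → (List ℕ → ℂ) → List ℕ → ℂ)
    (hadd : ∀ i φ χ l, T i (fun l => φ l + χ l) l = T i φ l + T i χ l)
    (hK : ∀ i c φ l, T i (fun l => c * (φ l * K_Sca_kk N l)) l = c * (T i φ l * K_Sca_kk N l))
    (hcons : ∀ i a ψ l, T (i + 1) ψ (a :: l) = T i (fun l => ψ (a :: l)) l)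
    (hnil : ∀ i ψ, T i (K_Sca_EL N ψ) [] = 0)
    (h0 : ∀ ψ l, K_Sca_EL N (T 0 ψ) l = T 0 (K_Sca_EL N ψ) l) (i : ℕ) (ψ : List ℕ → ℂ)
    (l : List ℕ) : K_Sca_EL N (T i ψ) l = T i (K_Sca_EL N ψ) l := by
  induction i generalizing ψ l with
  | zero => exact h0 ψ l
  | succ i ih =>
    cases l with
    | nil =>
      rw [hnil]
      rfl
    | cons a l =>
      have e1 : (fun l => T (i + 1) ψ (a :: l)) = T i (fun l => ψ (a :: l)) :=
        funext fun l => hcons i a ψ l
      rw [hcons]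
      simp only [K_Sca_EL]
      rw [hadd, hK, hcons, e1, ih]

/-! ### The minima -/

theorem K_Sca_cupc (N s : ℕ) (h : s + 1 ≤ N) :
    cupc (qz N) N (s + 1) = qz N ^ (2 * (N : ℤ) - 2 * s - 1) * cupc (qz N) N s := by
  rw [A_Base_cupc N s (by omega), A_Base_cupc N (s + 1) h, ← zpow_add₀ (A_Em_qz_ne N)]
  congr 1
  push_cast
  ring

theorem K_Sca_cupc_ne (N s : ℕ) (h : s ≤ N) : cupc (qz N) N s ≠ 0 := by
  rw [A_Base_cupc N s h]
  exact zpow_ne_zero _ (A_Em_qz_ne N)

theorem K_Sca_cup_rel (N a b : ℕ) (h : a + 1 + b = N) :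
    br (qz N) ((a : ℤ) + 1) * (cupc (qz N) N (a + 1) * qz N ^ ((N : ℤ) - 2 * (b : ℤ))) +
      br (qz N) ((b : ℤ) + 1) * cupc (qz N) N a = 0 := by
  have e1 : br (qz N) ((b : ℤ) + 1) = br (qz N) ((a : ℤ) + 1) := by
    rw [← A_Em_refl N ((a : ℤ) + 1)]
    congr 1
    omega
  have e2 : qz N ^ (2 * (N : ℤ) - 2 * a - 1) * qz N ^ ((N : ℤ) - 2 * (b : ℤ)) = -1 := by
    rw [← zpow_add₀ (A_Em_qz_ne N), ← A_Em_qz_M N]
    congr 1
    omega
  rw [e1, K_Sca_cupc N a (by omega)]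
  linear_combination (br (qz N) ((a : ℤ) + 1) * cupc (qz N) N a) * e2

theorem K_Sca_cup (N i : ℕ) (ψ : List ℕ → ℂ) (l : List ℕ) :
    K_Sca_EL N (act (qz N) N (.cup i) ψ) l = act (qz N) N (.cup i) (K_Sca_EL N ψ) l := by
  refine K_Sca_gen N (fun i => act (qz N) N (.cup i)) ?_ ?_ ?_ ?_ ?_ i ψ l
  · intro i φ χ l
    simp only [act]
    split
    · split_ifs
      · ring
      · ring
    · ring
  · intro i c φ l
    simp only [act]
    split
    · rename_i a b r hd
      split_ifs with h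
      · have e : K_Sca_kk N l = K_Sca_kk N (l.take i ++ r) := by
          rw [← K_Sca_kk_cancel N (l.take i) r a b h, ← hd, List.take_append_drop]
        rw [e]
        ring
      · ring
    · ring
  · intro i a ψ l
    exact A_Psi_cup_cons N i a ψ l
  · intro i ψ
    exact A_Psi_cup_nil N i _
  · intro ψ l
    rcases l with _ | ⟨a, _ | ⟨b, r⟩⟩
    · simp [K_Sca_EL, act]
    · simp [K_Sca_EL, act]
    · simp only [K_Sca_EL, act, List.drop_zero, List.take_zero, List.nil_append, K_Sca_kk]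
      by_cases h1 : a + b = N
      · rw [if_neg (by omega), if_neg (by omega)]
        simp only [if_pos h1]
        rw [K_Sca_EL_mul]
        ring
      · simp only [if_neg h1]
        rw [K_Sca_EL_zero N (fun _ => (0 : ℂ)) (fun _ _ => rfl)]
        by_cases h2 : a + 1 + b = N
        · rw [if_pos h2, if_pos (by omega)]
          linear_combination (ψ r * K_Sca_kk N r) * K_Sca_cup_rel N a b h2
        · rw [if_neg h2, if_neg (by omega)]
          ring

/-! ### The maxima -/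

theorem K_Sca_cap_rel (N t : ℕ) (h : t + 1 ≤ N) :
    (cupc (qz N) N (N - t))⁻¹ * (br (qz N) ((t : ℤ) + 1) * qz N ^ ((N : ℤ) - 2 * ((N - t : ℕ) : ℤ))) +
      (cupc (qz N) N (N - (t + 1)))⁻¹ * br (qz N) (((N - (t + 1) : ℕ) : ℤ) + 1) = 0 := by
  have e1 : br (qz N) (((N - (t + 1) : ℕ) : ℤ) + 1) = br (qz N) ((t : ℤ) + 1) := by
    rw [← A_Em_refl N ((t : ℤ) + 1)]
    congr 1
    omega
  obtain ⟨s, hs⟩ : ∃ s, N - (t + 1) = s := ⟨_, rfl⟩
  have hs' : N - t = s + 1 := by omega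
  rw [e1, hs, hs', K_Sca_cupc N s (by omega), mul_inv]
  have h2 : (qz N ^ (2 * (N : ℤ) - 2 * s - 1))⁻¹ * qz N ^ ((N : ℤ) - 2 * ((s + 1 : ℕ) : ℤ)) = -1 := by
    rw [← zpow_neg, ← zpow_add₀ (A_Em_qz_ne N)]
    have e3 : -(2 * (N : ℤ) - 2 * s - 1) + ((N : ℤ) - 2 * ((s + 1 : ℕ) : ℤ)) = -((N : ℤ) + 1) := by
      push_cast
      ring
    rw [e3, zpow_neg, A_Em_qz_M]
    norm_num
  linear_combination ((cupc (qz N) N s)⁻¹ * br (qz N) ((t : ℤ) + 1)) * h2

theorem K_Sca_cap_sum (N : ℕ) (g : ℕ → ℕ → ℂ) :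
    ∑ a ∈ Finset.range (N + 1), (cupc (qz N) N (N - a))⁻¹ *
      (br (qz N) ((a : ℤ) + 1) * (g (a + 1) (N - a) * qz N ^ ((N : ℤ) - 2 * ((N - a : ℕ) : ℤ))) +
        br (qz N) (((N - a : ℕ) : ℤ) + 1) * g a (N - a + 1)) = 0 := by
  have e : ∑ a ∈ Finset.range (N + 1), (cupc (qz N) N (N - a))⁻¹ *
      (br (qz N) ((a : ℤ) + 1) * (g (a + 1) (N - a) * qz N ^ ((N : ℤ) - 2 * ((N - a : ℕ) : ℤ))) +
        br (qz N) (((N - a : ℕ) : ℤ) + 1) * g a (N - a + 1)) =
      ∑ a ∈ Finset.range (N + 1), (cupc (qz N) N (N - a))⁻¹ *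
        (br (qz N) ((a : ℤ) + 1) * (g (a + 1) (N - a) * qz N ^ ((N : ℤ) - 2 * ((N - a : ℕ) : ℤ)))) +
      ∑ a ∈ Finset.range (N + 1), (cupc (qz N) N (N - a))⁻¹ *
        (br (qz N) (((N - a : ℕ) : ℤ) + 1) * g a (N - a + 1)) := by
    rw [← Finset.sum_add_distrib]
    refine Finset.sum_congr rfl fun a _ => ?_
    ring
  rw [e, Finset.sum_range_succ, Finset.sum_range_succ' (fun a => (cupc (qz N) N (N - a))⁻¹ *
        (br (qz N) (((N - a : ℕ) : ℤ) + 1) * g a (N - a + 1)))]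
  rw [A_Em_br_M]
  have e2 : br (qz N) (((N - 0 : ℕ) : ℤ) + 1) = 0 := by
    rw [Nat.sub_zero]
    exact A_Em_br_M N
  rw [e2]
  simp only [zero_mul, mul_zero, add_zero]
  rw [← Finset.sum_add_distrib]
  refine Finset.sum_eq_zero fun t ht => ?_
  have ht' := Finset.mem_range.1 ht
  have h1 := K_Sca_cap_rel N t ht'
  have h2 : N - (t + 1) + 1 = N - t := by omega
  rw [h2]
  linear_combination (g (t + 1) (N - t)) * h1

theorem K_Sca_cap0 (N : ℕ) (ψ : List ℕ → ℂ) (l : List ℕ) :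
    K_Sca_EL N (act (qz N) N (.cap 0) ψ) l = act (qz N) N (.cap 0) (K_Sca_EL N ψ) l := by
  have e1 : K_Sca_EL N (act (qz N) N (.cap 0) ψ) l = ∑ a ∈ Finset.range (N + 1),
      (cupc (qz N) N (N - a))⁻¹ * K_Sca_EL N (fun l => ψ (a :: (N - a) :: l)) l := by
    rw [← K_Sca_EL_sum N (Finset.range (N + 1)) (fun a => (cupc (qz N) N (N - a))⁻¹)
      (fun a l => ψ (a :: (N - a) :: l)) l]
    rfl
  have e2 : act (qz N) N (.cap 0) (K_Sca_EL N ψ) l = ∑ a ∈ Finset.range (N + 1),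
      (cupc (qz N) N (N - a))⁻¹ * K_Sca_EL N ψ (a :: (N - a) :: l) := rfl
  rw [e1, e2]
  have e3 := K_Sca_cap_sum N (fun a b => ψ (a :: b :: l) * K_Sca_kk N l)
  rw [← sub_eq_zero, ← Finset.sum_sub_distrib, ← neg_eq_zero, ← e3, ← Finset.sum_neg_distrib]
  refine Finset.sum_congr rfl fun a _ => ?_
  simp only [K_Sca_EL, K_Sca_kk]
  ring

theorem K_Sca_cap (N i : ℕ) (ψ : List ℕ → ℂ) (l : List ℕ) :
    K_Sca_EL N (act (qz N) N (.cap i) ψ) l = act (qz N) N (.cap i) (K_Sca_EL N ψ) l := by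
  refine K_Sca_gen N (fun i => act (qz N) N (.cap i)) ?_ ?_ ?_ ?_ ?_ i ψ l
  · intro i φ χ l
    simp only [act]
    rw [← Finset.sum_add_distrib]
    refine Finset.sum_congr rfl fun a _ => ?_
    ring
  · intro i c φ l
    simp only [act]
    rw [Finset.sum_mul, Finset.mul_sum]
    refine Finset.sum_congr rfl fun a ha => ?_
    have ha' := Finset.mem_range.1 ha
    rw [K_Sca_kk_cancel N (l.take i) (l.drop i) a (N - a) (by omega), List.take_append_drop]
    ring
  · intro i a ψ l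
    exact A_Psi_cap_cons N i a ψ l
  · intro i ψ
    have e : act (qz N) N (.cap i) (K_Sca_EL N ψ) [] =
        act (qz N) N (.cap 0) (K_Sca_EL N ψ) [] := by
      simp [act]
    change act (qz N) N (.cap i) (K_Sca_EL N ψ) [] = 0
    rw [e, ← K_Sca_cap0]
    rfl
  · intro ψ l
    exact K_Sca_cap0 N ψ l

/-! ### The twist regions -/

theorem K_Sca_EM_row (N : ℕ) (y : I2 N) (g : ℕ → ℕ → ℂ) :
    ∑ z : I2 N, EM N y z * g z.1 z.2 =
      br (qz N) (((y.1 : ℕ) : ℤ) + 1) * qz N ^ ((N : ℤ) - 2 * ((y.2 : ℕ) : ℤ)) *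
        g ((y.1 : ℕ) + 1) y.2 +
        br (qz N) (((y.2 : ℕ) : ℤ) + 1) * g y.1 ((y.2 : ℕ) + 1) := by
  unfold EM
  simp only [add_mul, Finset.sum_add_distrib]
  congr 1
  · by_cases h : (y.1 : ℕ) + 1 < N + 1
    · rw [Finset.sum_eq_single (⟨(y.1 : ℕ) + 1, h⟩, y.2)]
      · rw [if_pos ⟨rfl, rfl⟩]
      · intro z _ hz
        rw [if_neg, zero_mul]
        rintro ⟨h1, h2⟩
        exact hz (Prod.ext (Fin.ext h1) (Fin.ext h2))
      · intro h2
        exact absurd (Finset.mem_univ _) h2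
    · have h1 : (y.1 : ℕ) = N := by
        have := y.1.2
        omega
      rw [h1, A_Em_br_M, zero_mul, zero_mul]
      refine Finset.sum_eq_zero fun z _ => ?_
      rw [if_neg, zero_mul]
      rintro ⟨h2, _⟩
      have := z.1.2
      omega
  · by_cases h : (y.2 : ℕ) + 1 < N + 1
    · rw [Finset.sum_eq_single (y.1, ⟨(y.2 : ℕ) + 1, h⟩)]
      · rw [if_pos ⟨rfl, rfl⟩]
      · intro z _ hz
        rw [if_neg, zero_mul]
        rintro ⟨h1, h2⟩
        exact hz (Prod.ext (Fin.ext h1) (Fin.ext h2))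
      · intro h2
        exact absurd (Finset.mem_univ _) h2
    · have h1 : (y.2 : ℕ) = N := by
        have := y.2.2
        omega
      rw [h1, A_Em_br_M, zero_mul]
      refine Finset.sum_eq_zero fun z _ => ?_
      rw [if_neg, zero_mul]
      rintro ⟨_, h2⟩
      have := z.2.2
      omega

/-- The coefficients of a matrix, for all natural numbers. -/
noncomputable def K_Sca_XX (N : ℕ) (X : Matrix (I2 N) (I2 N) ℂ) (c d : ℕ) (z : I2 N) : ℂ :=
  if h : c < N + 1 ∧ d < N + 1 then X (⟨c, h.1⟩, ⟨d, h.2⟩) z else 0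

theorem K_Sca_actX_eq (N : ℕ) (X : Matrix (I2 N) (I2 N) ℂ) (ψ : List ℕ → ℂ) (c d : ℕ)
    (r : List ℕ) : actX N X 0 ψ (c :: d :: r) =
      ∑ z : I2 N, K_Sca_XX N X c d z * ψ ((z.1 : ℕ) :: (z.2 : ℕ) :: r) := by
  rw [Fintype.sum_prod_type]
  rfl

theorem K_Sca_actX0 (N : ℕ) (X : Matrix (I2 N) (I2 N) ℂ) (hX : ComE N X) (ψ : List ℕ → ℂ)
    (l : List ℕ) : K_Sca_EL N (actX N X 0 ψ) l = actX N X 0 (K_Sca_EL N ψ) l := by
  rcases l with _ | ⟨c, _ | ⟨d, r⟩⟩
  · simp [K_Sca_EL, actX]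
  · simp [K_Sca_EL, actX]
  · have e1 : K_Sca_EL N (fun l => actX N X 0 ψ (c :: d :: l)) r =
        ∑ z : I2 N, K_Sca_XX N X c d z *
          K_Sca_EL N (fun l => ψ ((z.1 : ℕ) :: (z.2 : ℕ) :: l)) r := by
      rw [← K_Sca_EL_sum N Finset.univ (fun z => K_Sca_XX N X c d z)
        (fun z l => ψ ((z.1 : ℕ) :: (z.2 : ℕ) :: l)) r]
      congr 1
      funext l
      exact K_Sca_actX_eq N X ψ c d l
    have e2 : ∀ a b : ℕ, K_Sca_EL N ψ (a :: b :: r) =
        br (qz N) ((a : ℤ) + 1) * qz N ^ ((N : ℤ) - 2 * (b : ℤ)) * (ψ ((a + 1) :: b :: r) * K_Sca_kk N r) +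
          br (qz N) ((b : ℤ) + 1) * (ψ (a :: (b + 1) :: r) * K_Sca_kk N r) +
          K_Sca_EL N (fun l => ψ (a :: b :: l)) r := by
      intro a b
      simp only [K_Sca_EL, K_Sca_kk]
      ring
    have e3 : K_Sca_EL N (actX N X 0 ψ) (c :: d :: r) =
        br (qz N) ((c : ℤ) + 1) * qz N ^ ((N : ℤ) - 2 * (d : ℤ)) *
          (actX N X 0 ψ ((c + 1) :: d :: r) * K_Sca_kk N r) +
          br (qz N) ((d : ℤ) + 1) * (actX N X 0 ψ (c :: (d + 1) :: r) * K_Sca_kk N r) +
          K_Sca_EL N (fun l => actX N X 0 ψ (c :: d :: l)) r := by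
      simp only [K_Sca_EL, K_Sca_kk]
      ring
    rw [e3, e1, K_Sca_actX_eq, K_Sca_actX_eq, K_Sca_actX_eq]
    simp only [e2]
    by_cases hcd : c < N + 1 ∧ d < N + 1
    · have h1 : EM N * X = X * EM N := hX.2
      have h2 : ∀ z : I2 N, br (qz N) ((c : ℤ) + 1) * qz N ^ ((N : ℤ) - 2 * (d : ℤ)) *
            K_Sca_XX N X (c + 1) d z + br (qz N) ((d : ℤ) + 1) * K_Sca_XX N X c (d + 1) z =
          ∑ y : I2 N, K_Sca_XX N X c d y * EM N y z := by
        intro z
        have h3 := congrFun (congrFun h1 (⟨c, hcd.1⟩, ⟨d, hcd.2⟩)) z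
        rw [Matrix.mul_apply, Matrix.mul_apply] at h3
        have h4 := K_Sca_EM_row N (⟨c, hcd.1⟩, ⟨d, hcd.2⟩) (fun a b => K_Sca_XX N X a b z)
        have h5 : ∀ y : I2 N, K_Sca_XX N X (y.1 : ℕ) (y.2 : ℕ) z = X y z := by
          intro y
          unfold K_Sca_XX
          rw [dif_pos ⟨y.1.2, y.2.2⟩]
        simp only [h5] at h4
        rw [h3] at h4
        rw [← h4]
        refine Finset.sum_congr rfl fun y _ => ?_
        rw [K_Sca_XX, dif_pos hcd]
      have h6 : ∑ z : I2 N, (∑ y : I2 N, K_Sca_XX N X c d y * EM N y z) *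
            (ψ ((z.1 : ℕ) :: (z.2 : ℕ) :: r) * K_Sca_kk N r) =
          ∑ y : I2 N, K_Sca_XX N X c d y *
            (br (qz N) (((y.1 : ℕ) : ℤ) + 1) * qz N ^ ((N : ℤ) - 2 * ((y.2 : ℕ) : ℤ)) *
              (ψ (((y.1 : ℕ) + 1) :: (y.2 : ℕ) :: r) * K_Sca_kk N r) +
              br (qz N) (((y.2 : ℕ) : ℤ) + 1) *
              (ψ ((y.1 : ℕ) :: ((y.2 : ℕ) + 1) :: r) * K_Sca_kk N r)) := by
        simp only [Finset.sum_mul]
        rw [Finset.sum_comm]
        refine Finset.sum_congr rfl fun y _ => ?_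
        rw [← K_Sca_EM_row N y (fun a b => ψ (a :: b :: r) * K_Sca_kk N r), Finset.mul_sum]
        refine Finset.sum_congr rfl fun z _ => ?_
        ring
      simp only [mul_add (K_Sca_XX N X c d _) _ (K_Sca_EL N _ r), Finset.sum_add_distrib]
      rw [← h6]
      congr 1
      rw [Finset.sum_mul, Finset.sum_mul, Finset.mul_sum, Finset.mul_sum, ← Finset.sum_add_distrib]
      refine Finset.sum_congr rfl fun z _ => ?_
      rw [← h2 z]
      ring
    · have h1 : ∀ z : I2 N, K_Sca_XX N X c d z = 0 := fun z => dif_neg hcd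
      have h2 : ∀ z : I2 N, K_Sca_XX N X (c + 1) d z = 0 := fun z => dif_neg (by omega)
      have h3 : ∀ z : I2 N, K_Sca_XX N X c (d + 1) z = 0 := fun z => dif_neg (by omega)
      simp only [h1, h2, h3, zero_mul, Finset.sum_const_zero, mul_zero, add_zero]

theorem K_Sca_actX (N : ℕ) (X : Matrix (I2 N) (I2 N) ℂ) (hX : ComE N X) (i : ℕ)
    (ψ : List ℕ → ℂ) (l : List ℕ) :
    K_Sca_EL N (actX N X i ψ) l = actX N X i (K_Sca_EL N ψ) l := by
  refine K_Sca_gen N (fun i => actX N X i) ?_ ?_ ?_ ?_ ?_ i ψ l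
  · intro i φ χ l
    simp only [actX]
    split
    · rw [← Finset.sum_add_distrib]
      refine Finset.sum_congr rfl fun a _ => ?_
      rw [← Finset.sum_add_distrib]
      refine Finset.sum_congr rfl fun b _ => ?_
      ring
    · ring
  · intro i k φ l
    simp only [actX]
    split
    · rename_i c d r hd
      simp only [Finset.sum_mul, Finset.mul_sum]
      refine Finset.sum_congr rfl fun a _ => Finset.sum_congr rfl fun b _ => ?_
      by_cases hcd : c < N + 1 ∧ d < N + 1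
      · rw [dif_pos hcd]
        by_cases h0 : X (⟨c, hcd.1⟩, ⟨d, hcd.2⟩) (a, b) = 0
        · rw [h0]
          ring
        · have h1 : c + d = (a : ℕ) + b := hX.1 _ _ h0
          have e : K_Sca_kk N (l.take i ++ (a : ℕ) :: (b : ℕ) :: r) = K_Sca_kk N l := by
            rw [K_Sca_kk_two N (l.take i) r a b c d h1.symm, ← hd, List.take_append_drop]
          rw [e]
          ring
      · rw [dif_neg hcd]
        ring
    · ring
  · intro i a ψ l
    simp [actX]
  · intro i ψ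
    simp [actX]
  · intro ψ l
    exact K_Sca_actX0 N X hX ψ l

/-! ### Templates -/

theorem K_Sca_evalX (N : ℕ) (X : ℕ → Matrix (I2 N) (I2 N) ℂ) (w : List TPiece) (v : ℕ)
    (hX : ∀ u, v ≤ u → u < v + numTw w → ComE N (X u)) (ψ : List ℕ → ℂ) :
    K_Sca_EL N (evalX N X v w ψ) = evalX N X v w (K_Sca_EL N ψ) := by
  induction w generalizing v ψ with
  | nil => rfl
  | cons x w ih =>
    cases x with
    | cup i =>
      have e : K_Sca_EL N (act (qz N) N (.cup i) ψ) = act (qz N) N (.cup i) (K_Sca_EL N ψ) :=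
        funext fun l => K_Sca_cup N i ψ l
      change K_Sca_EL N (evalX N X v w (act (qz N) N (.cup i) ψ)) =
        evalX N X v w (act (qz N) N (.cup i) (K_Sca_EL N ψ))
      rw [ih v hX, e]
    | cap i =>
      have e : K_Sca_EL N (act (qz N) N (.cap i) ψ) = act (qz N) N (.cap i) (K_Sca_EL N ψ) :=
        funext fun l => K_Sca_cap N i ψ l
      change K_Sca_EL N (evalX N X v w (act (qz N) N (.cap i) ψ)) =
        evalX N X v w (act (qz N) N (.cap i) (K_Sca_EL N ψ))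
      rw [ih v hX, e]
    | tw i =>
      have h1 : numTw (.tw i :: w) = numTw w + 1 := rfl
      rw [h1] at hX
      have e : K_Sca_EL N (actX N (X v) i ψ) = actX N (X v) i (K_Sca_EL N ψ) :=
        funext fun l => K_Sca_actX N (X v) (hX v le_rfl (by omega)) i ψ l
      change K_Sca_EL N (evalX N X (v + 1) w (actX N (X v) i ψ)) =
        evalX N X (v + 1) w (actX N (X v) i (K_Sca_EL N ψ))
      rw [ih (v + 1) (fun u hu hu' => hX u (by omega) (by omega)), e]

theorem K_Sca_evalX_mul (N : ℕ) (X : ℕ → Matrix (I2 N) (I2 N) ℂ) (w : List TPiece) (v : ℕ) (K : ℂ)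
    (ψ : List ℕ → ℂ) : evalX N X v w (fun l => K * ψ l) = fun l => K * evalX N X v w ψ l := by
  induction w generalizing v ψ with
  | nil => rfl
  | cons x w ih =>
    cases x with
    | cup i =>
      have e : act (qz N) N (.cup i) (fun l => K * ψ l) = fun l => K * act (qz N) N (.cup i) ψ l :=
        funext fun l => A_Psi_cup_mul N i K ψ l
      change evalX N X v w (act (qz N) N (.cup i) (fun l => K * ψ l)) =
        fun l => K * evalX N X v w (act (qz N) N (.cup i) ψ) l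
      rw [e, ih]
    | cap i =>
      have e : act (qz N) N (.cap i) (fun l => K * ψ l) = fun l => K * act (qz N) N (.cap i) ψ l :=
        funext fun l => A_Psi_cap_mul N i K ψ l
      change evalX N X v w (act (qz N) N (.cap i) (fun l => K * ψ l)) =
        fun l => K * evalX N X v w (act (qz N) N (.cap i) ψ) l
      rw [e, ih]
    | tw i =>
      have e : actX N (X v) i (fun l => K * ψ l) = fun l => K * actX N (X v) i ψ l := by
        funext l
        unfold actX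
        split
        · simp only [Finset.mul_sum]
          refine Finset.sum_congr rfl fun a _ => Finset.sum_congr rfl fun b _ => ?_
          ring
        · ring
      change evalX N X (v + 1) w (actX N (X v) i (fun l => K * ψ l)) =
        fun l => K * evalX N X (v + 1) w (actX N (X v) i ψ) l
      rw [e, ih]

theorem K_Sca_dl (N j : ℕ) : K_Sca_EL N (dl (j + 1)) = fun l => br (qz N) ((j : ℤ) + 1) * dl j l := by
  funext l
  cases l with
  | nil =>
    have : dl j [] = 0 := if_neg (by simp)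
    rw [this, mul_zero]
    rfl
  | cons a l =>
    simp only [K_Sca_EL]
    rw [K_Sca_EL_zero N (fun l => dl (j + 1) (a :: l)) (fun b m => if_neg (by simp)), add_zero]
    by_cases h : a = j ∧ l = []
    · obtain ⟨rfl, rfl⟩ := h
      simp [dl, K_Sca_kk]
    · have h1 : dl (j + 1) ((a + 1) :: l) = 0 := by
        refine if_neg fun h2 => h ?_
        simp only [List.cons.injEq] at h2
        exact ⟨by omega, h2.2⟩
      have h3 : dl j (a :: l) = 0 := by
        refine if_neg fun h2 => h ?_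
        simp only [List.cons.injEq] at h2
        exact h2
      rw [h1, h3]
      ring

theorem evalX_scalar (N : ℕ) (w : List TPiece) (c : ℕ) (F : Finset ℕ) (cor : Fin c → Fin 4 → ℕ)
    (h : IsTemplate w c F cor) (X : ℕ → Matrix (I2 N) (I2 N) ℂ) (hX : ∀ v < c, ComE N (X v)) :
    evalX N X 0 w (dl N) [N] = evalX N X 0 w (dl 0) [0] := by
  obtain ⟨S, hx, hg, hc, hF⟩ := h
  have hlen : S.cor.length = c := by rw [hc, List.length_ofFn]
  have hn : numTw w = c := by
    have := cor_length_sweep _ _ w hx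
    rw [hlen] at this
    simpa [Sweep.init] using this.symm
  have step : ∀ j, j + 1 ≤ N → evalX N X 0 w (dl (j + 1)) [j + 1] = evalX N X 0 w (dl j) [j] := by
    intro j hj
    have h1 := congrFun (K_Sca_evalX N X w 0
      (fun u _ hu => hX u (by rw [hn] at hu; omega)) (dl (j + 1))) [j]
    rw [K_Sca_dl, K_Sca_evalX_mul] at h1
    simp only [K_Sca_EL, K_Sca_kk, mul_one, add_zero] at h1
    exact mul_left_cancel₀ (A_Em_br_ne N (by omega) (by omega)) h1
  have all : ∀ j, j ≤ N → evalX N X 0 w (dl j) [j] = evalX N X 0 w (dl 0) [0] := by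
    intro j
    induction j with
    | zero => intro _; rfl
    | succ j ih => intro hj; rw [step j hj, ih (by omega)]
  exact all N le_rfl

end Pool.Agent.H63.CLK
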