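import Pool.Agent.H63.CLK.K_Kap
import Pool.Agent.H63.CLK.K_ClkB
import Pool.Agent.H63.CLK.K_Sca
import Pool.Agent.H63.CLK.K_Gau
import Pool.Agent.H63.CLK.K_Det

/-!
# All directions, algebra: the duality

`clockX` for `XJ N (J v) h_v` (`XJ_rule`) gives the state sum on the left as `evalX … (dl 0) [0]`, which is `evalX … (dl N) [N]` by
`evalX_scalar` (`crule_comE`), and its conjugate is `evalX` of the flipped matrices at `(dl 0) [0]` (`evalX_flip`), which are
`kapJ • XJ N (N - J v) (hfl h_v)` (`flip_XJ`); `clockX` again (`crule_smul`).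
-/

set_option autoImplicit false

namespace Pool.Agent.H63.CLK

open Pool.Agent.H63.VC7 Pool.Agent.H63.VC10

private theorem K_Dual_smul {c : ℕ} (F : Finset ℕ) (cor : Fin c → Fin 4 → ℕ) (N : ℕ)
    (κ : Fin c → ℂ) (W : Fin c → ℕ → ℕ → ℕ → ℂ) :
    stW F cor N (fun v B sL sR => κ v * W v B sL sR) = (∏ v, κ v) * stW F cor N W := by
  unfold stW
  rw [Finset.mul_sum]
  apply Finset.sum_congr rfl
  intro s _
  rw [mul_ite, mul_zero, Finset.prod_mul_distrib]

theorem dual (N : ℕ) {w : List TPiece} {c : ℕ} {F : Finset ℕ} {cor : Fin c → Fin 4 → ℕ}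
    (hT : IsTemplate w c F cor) (h : ℕ → ℂ) (hs : ∀ f, ‖h f‖ ≤ 1 / 8)
    (hη : ∀ v, h (cor v 3) ≠ h (cor v 1)) (J : Fin c → ℕ) (hJ : ∀ v, J v ≤ N) :
    ‖stW F cor N (fun v => WJ N (J v) (fun k => h (cor v k)))‖ =
      (∏ v, ‖kapJ N (J v) (fun k => h (cor v k))‖) *
        ‖stW F cor N (fun v => WJ N (N - J v) (hfl (fun k => h (cor v k))))‖ := by
  -- the matrices and the weights, for all natural numbers
  set X : ℕ → Matrix (I2 N) (I2 N) ℂ := fun v =>
    if hv : v < c then XJ N (J ⟨v, hv⟩) (fun k => h (cor ⟨v, hv⟩ k)) else 0 with hXd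
  set W : ℕ → ℕ → ℕ → ℕ → ℂ := fun v =>
    if hv : v < c then WJ N (J ⟨v, hv⟩) (fun k => h (cor ⟨v, hv⟩ k)) else 0 with hWd
  set X' : ℕ → Matrix (I2 N) (I2 N) ℂ := fun v =>
    if hv : v < c then kapJ N (J ⟨v, hv⟩) (fun k => h (cor ⟨v, hv⟩ k)) •
      XJ N (N - J ⟨v, hv⟩) (hfl (fun k => h (cor ⟨v, hv⟩ k))) else 0 with hXd'
  set W' : ℕ → ℕ → ℕ → ℕ → ℂ := fun v =>
    if hv : v < c then fun B sL sR => kapJ N (J ⟨v, hv⟩) (fun k => h (cor ⟨v, hv⟩ k)) *
      WJ N (N - J ⟨v, hv⟩) (hfl (fun k => h (cor ⟨v, hv⟩ k))) B sL sR else 0 with hWd'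
  have hX : ∀ v < c, CRule N (X v) (W v) := by
    intro v hv
    rw [hXd, hWd]
    simp only [dif_pos hv]
    exact XJ_rule N _ _ (hJ _)
  have hX' : ∀ v < c, CRule N (X' v) (W' v) := by
    intro v hv
    rw [hXd', hWd']
    simp only [dif_pos hv]
    exact crule_smul N _ _ (XJ_rule N _ _ (Nat.sub_le _ _)) _
  have h1 : evalX N X 0 w (dl 0) [0] =
      stW F cor N (fun v => WJ N (J v) (fun k => h (cor v k))) := by
    rw [clockX N w c F cor hT X W hX]
    congr 1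
    ext v
    rw [hWd]
    simp only [dif_pos v.2]
  have h2 : evalX N X 0 w (dl N) [N] = evalX N X 0 w (dl 0) [0] :=
    evalX_scalar N w c F cor hT X (fun v hv => crule_comE N _ _ (hX v hv))
  have h3 : evalX N X' 0 w (dl 0) [0] = starRingEnd ℂ (evalX N X 0 w (dl N) [N]) := by
    apply evalX_flip N w c F cor hT h hs X X'
    intro v
    rw [hXd, hXd']
    simp only [dif_pos v.2]
    exact (flip_XJ N (J v) (hJ v) (fun k => h (cor v k)) (fun k => hs _) (hη v)).symm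
  have h4 : evalX N X' 0 w (dl 0) [0] =
      (∏ v, kapJ N (J v) (fun k => h (cor v k))) *
        stW F cor N (fun v => WJ N (N - J v) (hfl (fun k => h (cor v k)))) := by
    rw [clockX N w c F cor hT X' W' hX', ← K_Dual_smul]
    congr 1
    ext v
    rw [hWd']
    simp only [dif_pos v.2]
  rw [← h1, ← h2, ← norm_prod, ← norm_mul, ← h4, h3, RCLike.norm_conj]

end Pool.Agent.H63.CLK
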