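import Pool.Agent.H63.CLK.K_Flz

/-!
# All directions, algebra: the turn backs

`em_rule`: `A_Loc_em` and `A_Ver_cK`. `em_F`: `A_Em_rec_root` reduces to the commutation of `A_Em_Y (qz N) N` (tridiagonal,
`A_Em_Y_apply`) with `FM N 0 0 0` (`fF_zero`), a comparison of entries (for `N ≥ 1`; `N = 0` is trivial).
-/

set_option autoImplicit false

namespace Pool.Agent.H63.CLK

open Pool.Agent.H63.VC7 Pool.Agent.H63.VC10

theorem K_Em_one (N t : ℕ) (ht : t ≤ N) (α B β : ℕ) (hα : α ≤ N) (hB : B ≤ N) (hβ : β ≤ N)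
    (x : I2 N) :
    ∑ y : I2 N, VC10.em (qz N) N t x y * flz N α B β (y.1 : ℕ) (y.2 : ℕ) =
      ∑ sL ∈ Finset.range (t + 1), ∑ sR ∈ Finset.range (t + 1),
        if B + sL + sR ≤ N then emW N t B sL sR *
          flz N ((α : ℤ) - sL) (B + sL + sR) ((β : ℤ) - sR) (x.1 : ℕ) (x.2 : ℕ) else 0 := by
  have h := A_Loc_em N t ht α B β (by omega) (by omega) (by omega) (by omega) x
  have hne := A_Em_brf_ne N (le_refl N)
  rw [← inv_mul_cancel_left₀ hne (∑ y : I2 N, VC10.em (qz N) N t x y *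
    flz N α B β (y.1 : ℕ) (y.2 : ℕ)), h, Finset.mul_sum]
  refine Finset.sum_congr rfl fun sL hL => ?_
  rw [Finset.mul_sum]
  refine Finset.sum_congr rfl fun sR hR => ?_
  rw [Finset.mem_range] at hL hR
  rw [← mul_assoc, A_Ver_cK N t B sL sR ht (by omega) (by omega)]
  unfold emW
  by_cases h1 : B + sL + sR ≤ N
  · rw [if_pos h1]
    by_cases h2 : B ≤ N - t ∧ B + sL + sR ≤ N ∧ t ≤ B + sL + sR
    · rw [if_pos h2, if_pos ⟨h2.1, h2.2.1, h2.2.2, by omega, by omega⟩]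
    · rw [if_neg h2, if_neg (fun h3 => h2 ⟨h3.1, h3.2.1, h3.2.2.1⟩)]
  · rw [if_neg h1, if_neg (fun h3 => h1 h3.2.1), zero_mul]

theorem em_rule (N t : ℕ) (ht : t ≤ N) : CRule N (VC10.em (qz N) N t) (emW N t) := by
  intro α B β hα hB hβ x
  rw [K_Em_one N t ht α B β hα hB hβ x]
  have hsub : Finset.range (t + 1) ⊆ Finset.range (N + 1) := Finset.range_mono (by omega)
  have hz : ∀ sL sR : ℕ, t < sL ∨ t < sR → (if B + sL + sR ≤ N then emW N t B sL sR *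
      flz N ((α : ℤ) - sL) (B + sL + sR) ((β : ℤ) - sR) (x.1 : ℕ) (x.2 : ℕ) else 0) = 0 := by
    intro sL sR h
    have h0 : emW N t B sL sR = 0 := by
      unfold emW
      rw [if_neg (by omega)]
    rw [h0, zero_mul, ite_self]
  rw [← Finset.sum_subset hsub]
  · refine Finset.sum_congr rfl fun sL _ => ?_
    rw [← Finset.sum_subset hsub]
    intro sR _ hR
    rw [Finset.mem_range] at hR
    exact hz sL sR (Or.inr (by omega))
  · intro sL _ hL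
    rw [Finset.mem_range] at hL
    exact Finset.sum_eq_zero fun sR _ => hz sL sR (Or.inl (by omega))

/-- The entries of `A_Em_Y` for integers. -/
noncomputable def K_Em_Yz (q : ℂ) (a b c d : ℤ) : ℂ :=
  (if a = c ∧ b = d then q ^ (a - b) * (br q (a + 1) * br q b + br q a * br q (b + 1)) else 0) +
  (if a = c + 1 ∧ b + 1 = d then br q a * br q (b + 1) else 0) +
  (if a + 1 = c ∧ b = d + 1 then q ^ (2 * a - 2 * b + 2) * (br q (a + 1) * br q b) else 0)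

theorem K_Em_Yz0 (q : ℂ) (a b c d : ℤ) (h1 : a = c) (h2 : b = d) : K_Em_Yz q a b c d =
    q ^ (a - b) * (br q (a + 1) * br q b + br q a * br q (b + 1)) := by
  unfold K_Em_Yz
  rw [if_pos ⟨h1, h2⟩, if_neg (by omega), if_neg (by omega), add_zero, add_zero]

theorem K_Em_Yz1 (q : ℂ) (a b c d : ℤ) (h1 : a = c + 1) (h2 : b + 1 = d) : K_Em_Yz q a b c d =
    br q a * br q (b + 1) := by
  unfold K_Em_Yz
  rw [if_neg (by omega), if_pos ⟨h1, h2⟩, if_neg (by omega), add_zero, zero_add]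

theorem K_Em_Yz2 (q : ℂ) (a b c d : ℤ) (h1 : a + 1 = c) (h2 : b = d + 1) : K_Em_Yz q a b c d =
    q ^ (2 * a - 2 * b + 2) * (br q (a + 1) * br q b) := by
  unfold K_Em_Yz
  rw [if_neg (by omega), if_neg (by omega), if_pos ⟨h1, h2⟩, add_zero, zero_add]

theorem K_Em_Yzn (q : ℂ) (a b c d : ℤ)
    (h : a + b ≠ c + d ∨ a < c - 1 ∨ c + 1 < a) : K_Em_Yz q a b c d = 0 := by
  unfold K_Em_Yz
  rw [if_neg (by omega), if_neg (by omega), if_neg (by omega), add_zero, add_zero]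

theorem K_Em_p2 (q : ℂ) (hq : q ≠ 0) (c d : ℤ) :
    br q (c + 1) * (q ^ (c - d) * (br q (c + 1) * br q d + br q c * br q (d + 1))) +
      -q ^ (2 * c + 3) * br q d * (br q (c + 1) * br q d) =
    br q (c + 1) * (q ^ (c + 1 - d) * (br q (c + 2) * br q d + br q (c + 1) * br q (d + 1))) +
      -q ^ (2 * c + 1) * br q (d + 1) * (br q (c + 1) * br q (d + 1)) := by
  unfold br
  have hC : q ^ c ≠ 0 := zpow_ne_zero _ hq
  have hD : q ^ d ≠ 0 := zpow_ne_zero _ hq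
  simp only [neg_add_rev, sub_eq_add_neg, zpow_add₀ hq, _root_.zpow_neg, two_mul, zpow_ofNat]
  generalize q ^ c = C at *
  generalize q ^ d = D at *
  field_simp
  ring

theorem K_Em_p3 (q : ℂ) (hq : q ≠ 0) (c d : ℤ) :
    br q c * (q ^ (2 * c - 2 * d - 2) * (br q c * br q (d + 1))) +
      -q ^ (2 * c + 1) * br q (d + 1) * (q ^ (c - d) * (br q (c + 1) * br q d + br q c * br q (d + 1))) =
    br q (c + 1) * (q ^ (2 * c - 2 * d) * (br q (c + 1) * br q (d + 1))) +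
      -q ^ (2 * c + 1) * br q (d + 1) * (q ^ (c - d - 1) * (br q (c + 1) * br q (d + 1) +
        br q c * br q (d + 2))) := by
  unfold br
  have hC : q ^ c ≠ 0 := zpow_ne_zero _ hq
  have hD : q ^ d ≠ 0 := zpow_ne_zero _ hq
  simp only [neg_add_rev, sub_eq_add_neg, zpow_add₀ hq, _root_.zpow_neg, two_mul, zpow_ofNat]
  generalize q ^ c = C at *
  generalize q ^ d = D at *
  field_simp
  ring

theorem K_Em_Yz_comm (N : ℕ) (a b c d : ℤ) :
    br (qz N) a * K_Em_Yz (qz N) (a - 1) b c d +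
      qz N ^ (2 * a - N) * br (qz N) b * K_Em_Yz (qz N) a (b - 1) c d =
    br (qz N) (c + 1) * K_Em_Yz (qz N) a b (c + 1) d +
      qz N ^ (2 * c - N) * br (qz N) (d + 1) * K_Em_Yz (qz N) a b c (d + 1) := by
  have hq := A_Em_qz_ne N
  have z : ∀ k : ℤ, qz N ^ (k - N) = -qz N ^ (k + 1) := by
    intro k
    rw [show k + 1 = (k - N) + ((N : ℤ) + 1) by ring, zpow_add₀ hq, A_Em_qz_M]
    ring
  rw [z, z]
  by_cases hs : a + b = c + d + 1
  swap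
  · rw [K_Em_Yzn _ _ _ _ _ (Or.inl (by omega)), K_Em_Yzn _ _ _ _ _ (Or.inl (by omega)),
      K_Em_Yzn _ _ _ _ _ (Or.inl (by omega)), K_Em_Yzn _ _ _ _ _ (Or.inl (by omega))]
    ring
  rcases (show a = c + 2 ∨ a = c + 1 ∨ a = c ∨ a = c - 1 ∨ a < c - 1 ∨ c + 2 < a by omega) with
    rfl | rfl | rfl | rfl | h | h
  · obtain rfl : d = b + 1 := by omega
    rw [K_Em_Yz1 _ (c + 2 - 1) b c (b + 1) (by ring) rfl,
      K_Em_Yzn _ (c + 2) (b - 1) c (b + 1) (by omega),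
      K_Em_Yz1 _ (c + 2) b (c + 1) (b + 1) (by ring) rfl,
      K_Em_Yzn _ (c + 2) b c (b + 1 + 1) (by omega), show c + 2 - 1 = c + 1 by ring]
    ring
  · obtain rfl : d = b := by omega
    rw [K_Em_Yz0 _ (c + 1 - 1) d c d (by ring) rfl, K_Em_Yz1 _ (c + 1) (d - 1) c d rfl (by ring),
      K_Em_Yz0 _ (c + 1) d (c + 1) d rfl rfl, K_Em_Yz1 _ (c + 1) d c (d + 1) rfl rfl]
    have p := K_Em_p2 (qz N) hq c d
    rw [show c + 1 - 1 = c by ring, show d - 1 + 1 = d by ring,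
      show 2 * (c + 1) + 1 = 2 * c + 3 by ring, show c + 1 + 1 = c + 2 by ring]
    exact p
  · obtain rfl : b = d + 1 := by omega
    rw [K_Em_Yz2 _ (a - 1) (d + 1) a d (by ring) rfl, K_Em_Yz0 _ a (d + 1 - 1) a d rfl (by ring),
      K_Em_Yz2 _ a (d + 1) (a + 1) d rfl rfl, K_Em_Yz0 _ a (d + 1) a (d + 1) rfl rfl]
    have p := K_Em_p3 (qz N) hq a d
    rw [show a - 1 + 1 = a by ring, show 2 * (a - 1) - 2 * (d + 1) + 2 = 2 * a - 2 * d - 2 by ring,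
      show d + 1 - 1 = d by ring, show 2 * a - 2 * (d + 1) + 2 = 2 * a - 2 * d by ring,
      show a - (d + 1) = a - d - 1 by ring, show d + 1 + 1 = d + 2 by ring]
    exact p
  · obtain rfl : b = d + 2 := by omega
    rw [K_Em_Yzn _ (c - 1 - 1) (d + 2) c d (by omega),
      K_Em_Yz2 _ (c - 1) (d + 2 - 1) c d (by ring) (by ring),
      K_Em_Yzn _ (c - 1) (d + 2) (c + 1) d (by omega),
      K_Em_Yz2 _ (c - 1) (d + 2) c (d + 1) (by ring) (by ring)]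
    have e : qz N ^ (2 * (c - 1) + 1) * qz N ^ (2 * (c - 1) - 2 * (d + 2 - 1) + 2) =
        qz N ^ (2 * c + 1) * qz N ^ (2 * (c - 1) - 2 * (d + 2) + 2) := by
      rw [← zpow_add₀ hq, ← zpow_add₀ hq]
      congr 1
      ring
    rw [show d + 2 - 1 = d + 1 by ring] at e ⊢
    linear_combination (-(br (qz N) (d + 2) * (br (qz N) (c - 1 + 1) * br (qz N) (d + 1)))) * e
  · rw [K_Em_Yzn _ _ _ _ _ (by omega), K_Em_Yzn _ _ _ _ _ (by omega),
      K_Em_Yzn _ _ _ _ _ (by omega), K_Em_Yzn _ _ _ _ _ (by omega)]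
    ring
  · rw [K_Em_Yzn _ _ _ _ _ (by omega), K_Em_Yzn _ _ _ _ _ (by omega),
      K_Em_Yzn _ _ _ _ _ (by omega), K_Em_Yzn _ _ _ _ _ (by omega)]
    ring

theorem K_Em_Y (N : ℕ) (hN : 1 ≤ N) (x y : I2 N) : A_Em_Y (qz N) N x y =
    K_Em_Yz (qz N) ((x.1 : ℕ) : ℤ) ((x.2 : ℕ) : ℤ) ((y.1 : ℕ) : ℤ) ((y.2 : ℕ) : ℤ) := by
  obtain ⟨⟨a, ha⟩, ⟨b, hb⟩⟩ := x
  obtain ⟨⟨c, hc⟩, ⟨d, hd⟩⟩ := y
  rw [A_Em_Y_apply N a b c d hN ha hb hc hd]
  unfold K_Em_Yz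
  have e1 : (a = c ∧ b = d) ↔ ((a : ℤ) = c ∧ (b : ℤ) = d) := by omega
  have e2 : (a = c + 1 ∧ b + 1 = d) ↔ ((a : ℤ) = c + 1 ∧ (b : ℤ) + 1 = d) := by omega
  have e3 : (a + 1 = c ∧ b = d + 1) ↔ ((a : ℤ) + 1 = c ∧ (b : ℤ) = d + 1) := by omega
  simp only [e1, e2, e3]

/-- The product with the matrix of `F` on the left. -/
theorem K_Em_left (N : ℕ) (g : I2 N → ℂ) (G : ℤ → ℤ → ℂ) (hG : ∀ z : I2 N, g z = G (z.1 : ℕ) (z.2 : ℕ))
    (x : I2 N) :
    ∑ z : I2 N, FM N 0 0 0 x z * g z =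
      br (qz N) (x.1 : ℕ) * G (((x.1 : ℕ) : ℤ) - 1) (x.2 : ℕ) +
        qz N ^ (2 * ((x.1 : ℕ) : ℤ) - N) * br (qz N) (x.2 : ℕ) * G (x.1 : ℕ) (((x.2 : ℕ) : ℤ) - 1) := by
  obtain ⟨⟨a, ha⟩, ⟨b, hb⟩⟩ := x
  simp only
  have e : ∀ z : I2 N, FM N 0 0 0 (⟨a, ha⟩, ⟨b, hb⟩) z * g z =
      (if a = (z.1 : ℕ) + 1 ∧ b = (z.2 : ℕ) then
        br (qz N) (((z.1 : ℕ) : ℤ) + 1) * g z else 0) +
      (if a = (z.1 : ℕ) ∧ b = (z.2 : ℕ) + 1 then
        qz N ^ (2 * ((z.1 : ℕ) : ℤ) - N) * br (qz N) (((z.2 : ℕ) : ℤ) + 1) * g z else 0) := by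
    intro z
    unfold FM
    rw [fF_zero, fF_zero, add_mul, ite_mul, ite_mul, zero_mul]
  simp only [e, Finset.sum_add_distrib]
  congr 1
  · rcases a with _ | a
    · rw [Finset.sum_eq_zero fun y _ => if_neg (by omega)]
      simp [br_zero]
    · have e' : ∀ z : I2 N, (a + 1 = (z.1 : ℕ) + 1 ∧ b = (z.2 : ℕ)) ↔
          (a = (z.1 : ℕ) ∧ b = (z.2 : ℕ)) := fun z => by omega
      simp only [e']
      rw [CDrel_sum N a b, dif_pos ⟨by omega, hb⟩, hG]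
      push_cast
      rw [show (a : ℤ) + 1 - 1 = a by ring]
  · rcases b with _ | b
    · rw [Finset.sum_eq_zero fun y _ => if_neg (by omega)]
      simp [br_zero]
    · have e' : ∀ z : I2 N, (a = (z.1 : ℕ) ∧ b + 1 = (z.2 : ℕ) + 1) ↔
          (a = (z.1 : ℕ) ∧ b = (z.2 : ℕ)) := fun z => by omega
      simp only [e']
      rw [CDrel_sum N a b, dif_pos ⟨ha, by omega⟩, hG]
      push_cast
      rw [show (b : ℤ) + 1 - 1 = b by ring]

/-- The product with the matrix of `F` on the right. -/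
theorem K_Em_right (N : ℕ) (g : I2 N → ℂ) (G : ℤ → ℤ → ℂ) (hG : ∀ z : I2 N, g z = G (z.1 : ℕ) (z.2 : ℕ))
    (y : I2 N) :
    ∑ z : I2 N, g z * FM N 0 0 0 z y =
      br (qz N) (((y.1 : ℕ) : ℤ) + 1) * G (((y.1 : ℕ) : ℤ) + 1) (y.2 : ℕ) +
        qz N ^ (2 * ((y.1 : ℕ) : ℤ) - N) * br (qz N) (((y.2 : ℕ) : ℤ) + 1) *
          G (y.1 : ℕ) (((y.2 : ℕ) : ℤ) + 1) := by
  obtain ⟨⟨c, hc⟩, ⟨d, hd⟩⟩ := y
  simp only
  have e : ∀ z : I2 N, g z * FM N 0 0 0 z (⟨c, hc⟩, ⟨d, hd⟩) =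
      (if c + 1 = (z.1 : ℕ) ∧ d = (z.2 : ℕ) then br (qz N) ((c : ℤ) + 1) * g z else 0) +
      (if c = (z.1 : ℕ) ∧ d + 1 = (z.2 : ℕ) then
        qz N ^ (2 * (c : ℤ) - N) * br (qz N) ((d : ℤ) + 1) * g z else 0) := by
    intro z
    unfold FM
    rw [fF_zero, fF_zero, mul_add, mul_ite, mul_ite, mul_zero]
    have e1 : ((z.1 : ℕ) = c + 1 ∧ (z.2 : ℕ) = d) ↔ (c + 1 = (z.1 : ℕ) ∧ d = (z.2 : ℕ)) := by omega
    have e2 : ((z.1 : ℕ) = c ∧ (z.2 : ℕ) = d + 1) ↔ (c = (z.1 : ℕ) ∧ d + 1 = (z.2 : ℕ)) := by omega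
    simp only [e1, e2]
    congr 1
    · split_ifs
      · ring
      · rfl
    · split_ifs
      · ring
      · rfl
  simp only [e, Finset.sum_add_distrib]
  congr 1
  · rw [CDrel_sum N (c + 1) d]
    by_cases h1 : c + 1 < N + 1
    · rw [dif_pos ⟨h1, hd⟩, hG]
      push_cast
      rfl
    · rw [dif_neg (by omega)]
      obtain rfl : c = N := by omega
      rw [A_Em_br_M, zero_mul]
  · rw [CDrel_sum N c (d + 1)]
    by_cases h1 : d + 1 < N + 1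
    · rw [dif_pos ⟨hc, h1⟩, hG]
      push_cast
      rfl
    · rw [dif_neg (by omega)]
      obtain rfl : d = N := by omega
      rw [A_Em_br_M]
      ring

theorem K_Em_comm (N : ℕ) (hN : 1 ≤ N) :
    FM N 0 0 0 * A_Em_Y (qz N) N = A_Em_Y (qz N) N * FM N 0 0 0 := by
  ext x y
  rw [Matrix.mul_apply, Matrix.mul_apply,
    K_Em_left N (fun z => A_Em_Y (qz N) N z y) (fun a b => K_Em_Yz (qz N) a b
      ((y.1 : ℕ) : ℤ) ((y.2 : ℕ) : ℤ)) (fun z => K_Em_Y N hN z y) x,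
    K_Em_right N (fun z => A_Em_Y (qz N) N x z) (fun c d => K_Em_Yz (qz N)
      ((x.1 : ℕ) : ℤ) ((x.2 : ℕ) : ℤ) c d) (fun z => K_Em_Y N hN x z) y]
  exact K_Em_Yz_comm N _ _ _ _

theorem K_Em_F (N t : ℕ) (ht : t ≤ N) :
    FM N 0 0 0 * VC10.em (qz N) N t = VC10.em (qz N) N t * FM N 0 0 0 := by
  induction t with
  | zero => rw [A_Em_em_zero, Matrix.mul_one, Matrix.one_mul]
  | succ t ih =>
    have ih := ih (by omega)
    have hrec := A_Em_rec_root N t (by omega)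
    have hb : br (qz N) ((t : ℤ) + 1) ^ 2 ≠ 0 :=
      pow_ne_zero 2 (A_Em_br_ne N (by omega) (by omega))
    have hY := K_Em_comm N (by omega)
    apply smul_right_injective _ hb
    simp only
    rw [← Matrix.mul_smul, ← Matrix.smul_mul, hrec, Matrix.mul_sub, Matrix.sub_mul, Matrix.mul_smul,
      Matrix.smul_mul, ih, ← Matrix.mul_assoc, hY, Matrix.mul_assoc, ih, Matrix.mul_assoc]

theorem em_F (N t : ℕ) (ht : t ≤ N) : ComF N 0 (VC10.em (qz N) N t) := by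
  unfold ComF
  simp only [Pi.zero_apply]
  exact K_Em_F N t ht

theorem K_Em_qbin0 (N n : ℕ) (h : n ≤ N) : qbin (qz N) n 0 = 1 := by
  unfold qbin
  rw [brf_zero, one_mul, Nat.sub_zero, div_self (A_Em_brf_ne N h)]

theorem K_Em_qbinn (N n : ℕ) (h : n ≤ N) : qbin (qz N) n n = 1 := by
  unfold qbin
  rw [Nat.sub_self, brf_zero, mul_one, div_self (A_Em_brf_ne N h)]

/-- The weights at the column `(0, N)`. -/
theorem emW_right (N t s : ℕ) (ht : t ≤ N) (hs : s ≤ N) : emW N t 0 0 s = if t = s then 1 else 0 := by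
  unfold emW
  by_cases h : t = s
  · subst h
    rw [if_pos (by omega), if_pos rfl]
    unfold cK
    rw [Nat.sub_zero, Nat.sub_zero, K_Em_qbin0 N _ (by omega), K_Em_qbinn N _ (by omega),
      K_Em_qbin0 N _ ht, K_Em_qbinn N _ ht]
    ring
  · rw [if_neg (by omega), if_neg h]

/-- The weights are products of four `q`-binomial coefficients. -/
theorem emW_eq (N t : ℕ) (ht : t ≤ N) (x : Fin 4 → ℕ) (hx : ∑ k, x k = N) :
    emW N t (x 2) (x 3) (x 1) =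
      if ∀ k, x k ≤ csz N t k then ∏ k, qbin (qz N) (csz N t k) (x k) else 0 := by
  rw [Fin.sum_univ_four] at hx
  have e : (∀ k, x k ≤ csz N t k) ↔ (x 2 ≤ N - t ∧ x 2 + x 3 + x 1 ≤ N ∧ t ≤ x 2 + x 3 + x 1 ∧
      x 3 ≤ t ∧ x 1 ≤ t) := by
    rw [Fin.forall_fin_succ, Fin.forall_fin_succ, Fin.forall_fin_succ, Fin.forall_fin_one]
    change (x 0 ≤ N - t ∧ x 1 ≤ t ∧ x 2 ≤ N - t ∧ x 3 ≤ t) ↔ _
    omega
  unfold emW
  by_cases h : x 2 ≤ N - t ∧ x 2 + x 3 + x 1 ≤ N ∧ t ≤ x 2 + x 3 + x 1 ∧ x 3 ≤ t ∧ x 1 ≤ t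
  · rw [if_pos h, if_pos (e.2 h), Fin.prod_univ_four]
    unfold cK
    rw [show N - x 2 - x 3 - x 1 = x 0 by omega]
    change _ = qbin (qz N) (N - t) (x 0) * qbin (qz N) t (x 1) * qbin (qz N) (N - t) (x 2) *
      qbin (qz N) t (x 3)
    ring
  · rw [if_neg h, if_neg (fun h' => h (e.1 h'))]

end Pool.Agent.H63.CLK
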