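import Pool.Agent.H63.CLK.K_X
import Pool.Agent.H63.CLK.K_Det
import Pool.Agent.H63.CLK.K_Em

/-!
# All directions, algebra: the nilpotent operators

`crule_unique` for `XJ N k 0` (`XJ_rule`, `XJ_F`) and `∑ t, QN N k t • em t` (`em_rule`, `em_F`, `crule_sum`, `comF_sum`); the values at
`(0, 0, s)`: `WJ_right` with `h = 0` and `emW_right`, so one needs, for `k, s ≤ N`, `WJ N k 0 0 0 s = QN N k s`: both are `0` for
`s < k` (the factor `i = N - k` of `QN`: `Xc N (N - k) = Xc N k`), and for `s ≥ k`, with `{x} = 2 i sin (π x / M)`: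
`pch N (N - k) k = {k}!` (`bh_refl`), `Xc i - Xc k = 4 sin (π (i + k + 1) / M) sin (π (k - i) / M)`,
`{N - k + i} = {k + 1 - i}`, `{N-s}! {s}! = {N}!`. (For `s < N - k` both sides are `0` too.)
-/

set_option autoImplicit false

namespace Pool.Agent.H63.CLK

open Pool.Agent.H63.VC7 Pool.Agent.H63.VC10

theorem Xc_sub (N i k : ℕ) : Xc N i - Xc N k =
    4 * Real.sin (Real.pi * (i + k + 1) / ((N + 1 : ℕ) : ℝ)) *
      Real.sin (Real.pi * (k - i) / ((N + 1 : ℕ) : ℝ)) := by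
  unfold Xc
  rw [← mul_sub, Real.cos_sub_cos]
  have e1 : (Real.pi * (2 * i + 1) / ((N + 1 : ℕ) : ℝ) + Real.pi * (2 * k + 1) / ((N + 1 : ℕ) : ℝ)) / 2 =
      Real.pi * (i + k + 1) / ((N + 1 : ℕ) : ℝ) := by ring
  have e2 : (Real.pi * (2 * i + 1) / ((N + 1 : ℕ) : ℝ) - Real.pi * (2 * k + 1) / ((N + 1 : ℕ) : ℝ)) / 2 =
      -(Real.pi * (k - i) / ((N + 1 : ℕ) : ℝ)) := by ring
  rw [e1, e2, Real.sin_neg]
  ring

/-- `Xc i - Xc k = - {i + k + 1} {k - i}`. -/
private theorem K_Q0_Xc (N i k : ℕ) : ((Xc N i - Xc N k : ℝ) : ℂ) =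
    -(br (qz N) ((k : ℤ) + i + 1) * br (qz N) ((k : ℤ) - i)) := by
  rw [Xc_sub, A_Em_br_eq, A_Em_br_eq]
  have e1 : (((k : ℤ) + i + 1 : ℤ) : ℂ) * (Real.pi / ((N + 1 : ℕ) : ℂ)) =
      ((Real.pi * (i + k + 1) / ((N + 1 : ℕ) : ℝ) : ℝ) : ℂ) := by
    push_cast
    ring
  have e2 : (((k : ℤ) - i : ℤ) : ℂ) * (Real.pi / ((N + 1 : ℕ) : ℂ)) =
      ((Real.pi * (k - i) / ((N + 1 : ℕ) : ℝ) : ℝ) : ℂ) := by
    push_cast
    ring
  rw [e1, e2, ← Complex.ofReal_sin, ← Complex.ofReal_sin]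
  have hI : Complex.I * Complex.I = -1 := Complex.I_mul_I
  rw [Complex.ofReal_mul, Complex.ofReal_mul]
  generalize ((Real.sin (Real.pi * (i + k + 1) / ((N + 1 : ℕ) : ℝ)) : ℝ) : ℂ) = S
  generalize ((Real.sin (Real.pi * (k - i) / ((N + 1 : ℕ) : ℝ)) : ℝ) : ℂ) = T
  push_cast
  linear_combination (4 * S * T) * hI

private theorem K_Q0_SN (N n : ℕ) : (-1) ^ n * ((SN N n : ℝ) : ℂ) ^ 2 = brf (qz N) n ^ 2 := by
  unfold SN brf
  rw [Complex.ofReal_prod, ← Finset.prod_pow, ← Finset.prod_pow]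
  have h1 : ((-1 : ℂ)) ^ n = ∏ _i ∈ Finset.range n, (-1 : ℂ) := by
    rw [Finset.prod_const, Finset.card_range]
  rw [h1, ← Finset.prod_mul_distrib]
  apply Finset.prod_congr rfl
  intro i _
  rw [A_Em_br_eq]
  have e1 : (((i : ℤ) + 1 : ℤ) : ℂ) * (Real.pi / ((N + 1 : ℕ) : ℂ)) =
      ((Real.pi * (i + 1) / ((N + 1 : ℕ) : ℝ) : ℝ) : ℂ) := by
    push_cast
    ring
  rw [e1, ← Complex.ofReal_sin, Complex.ofReal_mul, mul_pow, mul_pow, mul_pow, Complex.I_sq]
  push_cast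
  ring

private theorem K_Q0_up (N k r : ℕ) :
    (∏ i ∈ Finset.range r, br (qz N) ((k : ℤ) + i + 1)) * brf (qz N) k = brf (qz N) (k + r) := by
  induction r with
  | zero => simp
  | succ r ih =>
    rw [Finset.prod_range_succ, ← Nat.add_assoc, brf_succ, ← ih]
    push_cast
    ring

private theorem K_Q0_down (N k j : ℕ) (hj : j ≤ k) :
    (∏ i ∈ Finset.range j, br (qz N) ((k : ℤ) - i)) * brf (qz N) (k - j) = brf (qz N) k := by
  induction j with
  | zero => simp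
  | succ j ih =>
    rw [← ih (by omega), Finset.prod_range_succ]
    obtain ⟨m, hm⟩ : ∃ m, k = j + 1 + m := ⟨k - (j + 1), by omega⟩
    have e1 : k - (j + 1) = m := by omega
    have e2 : k - j = m + 1 := by omega
    rw [e1, e2, brf_succ]
    have e3 : (k : ℤ) - j = (m : ℤ) + 1 := by omega
    rw [e3]
    ring

private theorem K_Q0_pch1 (N k x : ℕ) : pch N ((N : ℂ) - k) x =
    ∏ i ∈ Finset.range x, br (qz N) ((k : ℤ) - i) := by
  unfold pch
  apply Finset.prod_congr rfl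
  intro i _
  rw [← bh_int]
  have e : (N : ℂ) - k + i + 1 = (N : ℂ) + 1 - (((k : ℤ) - i : ℤ) : ℂ) := by
    push_cast
    ring
  rw [e, bh_refl]

private theorem K_Q0_pch2 (N k x : ℕ) : pch N (k : ℂ) x =
    ∏ i ∈ Finset.range x, br (qz N) ((k : ℤ) + i + 1) := by
  unfold pch
  apply Finset.prod_congr rfl
  intro i _
  rw [← bh_int]
  congr 1
  push_cast
  ring

theorem WJ_zero_right (N k s : ℕ) (hk : k ≤ N) (hs : s ≤ N) : WJ N k 0 0 0 s = QN N k s := by
  rw [WJ_right N k 0 hk s hs]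
  unfold QN
  by_cases hks : k ≤ s
  swap
  · rw [if_neg hks]
    have h0 : ∏ i ∈ Finset.range (N - s), (Xc N i - Xc N k) = 0 := by
      apply Finset.prod_eq_zero (i := N - k) (Finset.mem_range.mpr (by omega))
      rw [Xc_sub]
      have e : Real.pi * (((N - k : ℕ) : ℝ) + k + 1) / ((N + 1 : ℕ) : ℝ) = Real.pi := by
        rw [Nat.cast_sub hk]
        push_cast
        have : ((N : ℝ) + 1) ≠ 0 := by positivity
        field_simp
        ring
      rw [e, Real.sin_pi]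
      ring
    rw [h0, zero_div, Complex.ofReal_zero]
  rw [if_pos hks]
  obtain ⟨r, hr⟩ : ∃ r, N = s + r := ⟨N - s, by omega⟩
  obtain ⟨m, hm⟩ : ∃ m, s = k + m := ⟨s - k, by omega⟩
  have er : N - s = r := by omega
  have em : s - k = m := by omega
  have er' : (N : ℤ) - s = (r : ℤ) := by omega
  have em' : (s : ℤ) - k = (m : ℤ) := by omega
  rw [er, em, er', em']
  simp only [Pi.zero_apply, sub_zero, add_zero, sub_self, zero_mul, qh_zero, one_mul]
  rw [K_Q0_pch1, K_Q0_pch1, K_Q0_pch2, ib_nat, ib_nat, ib_nat]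
  have hbk : brf (qz N) k ≠ 0 := A_Em_brf_ne N hk
  have hbr : brf (qz N) r ≠ 0 := A_Em_brf_ne N (by omega)
  have hbm : brf (qz N) m ≠ 0 := A_Em_brf_ne N (by omega)
  have hbs : brf (qz N) s ≠ 0 := A_Em_brf_ne N (by omega)
  have hkr : brf (qz N) (k + r) ≠ 0 := A_Em_brf_ne N (by omega)
  have hQ : (((∏ i ∈ Finset.range r, (Xc N i - Xc N k)) / SN N r ^ 2 : ℝ) : ℂ) =
      (∏ i ∈ Finset.range r, br (qz N) ((k : ℤ) + i + 1)) *
        (∏ i ∈ Finset.range r, br (qz N) ((k : ℤ) - i)) / brf (qz N) r ^ 2 := by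
    rw [Complex.ofReal_div, Complex.ofReal_prod, Complex.ofReal_pow]
    have h1 : ∏ i ∈ Finset.range r, ((Xc N i - Xc N k : ℝ) : ℂ) =
        (-1) ^ r * ((∏ i ∈ Finset.range r, br (qz N) ((k : ℤ) + i + 1)) *
        (∏ i ∈ Finset.range r, br (qz N) ((k : ℤ) - i))) := by
      rw [← Finset.prod_mul_distrib]
      have h2 : ((-1 : ℂ)) ^ r = ∏ _i ∈ Finset.range r, (-1 : ℂ) := by
        rw [Finset.prod_const, Finset.card_range]
      rw [h2, ← Finset.prod_mul_distrib]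
      apply Finset.prod_congr rfl
      intro i _
      rw [K_Q0_Xc]
      ring
    have h3 := K_Q0_SN N r
    have hSN : ((SN N r : ℝ) : ℂ) ^ 2 ≠ 0 := by
      intro h0
      rw [h0, mul_zero] at h3
      exact (pow_ne_zero 2 hbr) h3.symm
    rw [h1, ← h3]
    have h4 : ((-1 : ℂ)) ^ r ≠ 0 := pow_ne_zero _ (by norm_num)
    have h5 : ((-1 : ℂ)) ^ r * (-1) ^ r = 1 := by
      rw [← mul_pow]
      norm_num
    rw [div_eq_div_iff hSN (mul_ne_zero h4 hSN)]
    linear_combination (((∏ i ∈ Finset.range r, br (qz N) ((k : ℤ) + i + 1)) *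
        (∏ i ∈ Finset.range r, br (qz N) ((k : ℤ) - i))) * ((SN N r : ℝ) : ℂ) ^ 2) * h5
  rw [hQ]
  have hA := K_Q0_down N k k le_rfl
  rw [Nat.sub_self, brf_zero, mul_one] at hA
  have hB := K_Q0_up N k m
  have hC := K_Q0_up N k r
  have hD := A_Em_brf_mul N r (by omega)
  have hE := A_Em_brf_mul N (k + r) (by omega)
  have eD : N - r = k + m := by omega
  have eE : N - (k + r) = m := by omega
  rw [eD] at hD
  rw [eE] at hE
  rw [hA]
  set P := ∏ i ∈ Finset.range r, br (qz N) ((k : ℤ) - i)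
  set U := ∏ i ∈ Finset.range m, br (qz N) ((k : ℤ) + i + 1)
  set V := ∏ i ∈ Finset.range r, br (qz N) ((k : ℤ) + i + 1)
  -- U = (k+m)! / k!, V = (k+r)! / k!
  have hF : U * brf (qz N) r = V * brf (qz N) m := by
    have h1 : (U * brf (qz N) r) * brf (qz N) k = (V * brf (qz N) m) * brf (qz N) k := by
      calc (U * brf (qz N) r) * brf (qz N) k = (U * brf (qz N) k) * brf (qz N) r := by ring
        _ = brf (qz N) N := by rw [hB, mul_comm, hD]
        _ = (V * brf (qz N) k) * brf (qz N) m := by rw [hC, hE]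
        _ = (V * brf (qz N) m) * brf (qz N) k := by ring
    exact mul_right_cancel₀ hbk h1
  rw [eq_div_iff (pow_ne_zero 2 hbr)]
  have e7 : brf (qz N) k * P * U * ((brf (qz N) k)⁻¹ * (brf (qz N) r)⁻¹ * (brf (qz N) m)⁻¹) *
      brf (qz N) r ^ 2 = P * (U * brf (qz N) r) * (brf (qz N) m)⁻¹ := by
    field_simp
  rw [e7, hF]
  field_simp

theorem WJ_zero (N k : ℕ) (hk : k ≤ N) (B sL sR : ℕ) (hs : B + sL + sR ≤ N) :
    WJ N k 0 B sL sR = ∑ t ∈ Finset.range (N + 1), (QN N k t : ℂ) * emW N t B sL sR := by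
  refine crule_unique N (XJ N k 0)
    (∑ t ∈ Finset.range (N + 1), (QN N k t : ℂ) • VC10.em (qz N) N t) (WJ N k 0)
    (fun B sL sR => ∑ t ∈ Finset.range (N + 1), (QN N k t : ℂ) * emW N t B sL sR)
    (XJ_rule N k 0 hk) ?_ (XJ_F N k 0 hk) ?_ ?_ B sL sR hs
  · refine crule_sum N (Finset.range (N + 1)) (fun t => (QN N k t : ℂ) • VC10.em (qz N) N t)
      (fun t B sL sR => (QN N k t : ℂ) * emW N t B sL sR) ?_
    intro t ht
    rw [Finset.mem_range] at ht
    exact crule_smul N _ _ (em_rule N t (by omega)) _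
  · refine comF_sum N 0 (Finset.range (N + 1)) (fun t => (QN N k t : ℂ) • VC10.em (qz N) N t) ?_
    intro t ht
    rw [Finset.mem_range] at ht
    exact comF_smul N 0 _ (em_F N t (by omega)) _
  · intro s hs
    rw [WJ_zero_right N k s hk hs]
    rw [Finset.sum_eq_single_of_mem s (Finset.mem_range.mpr (by omega))]
    · rw [emW_right N s s hs hs, if_pos rfl, mul_one]
    · intro t ht hts
      rw [Finset.mem_range] at ht
      rw [emW_right N t s (by omega) hs, if_neg hts, mul_zero]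

end Pool.Agent.H63.CLK
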