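import Pool.Agent.H63.CLK.K_E0
import Pool.Agent.H63.CLK.K_Q0

/-!
# All directions, algebra: the derivative of the weights

Let `Y z = XJ N k (z • h) - XJ N (N - k) (z • h)`, `Y' = Y'(0)` (entrywise, `qh_diff`, `pch_diff`). `Y 0 = 0` (`crule_unique` is for
weights; its first three steps give `X = X'`; or: state and prove the version for matrices, or use the uniqueness of the weights
and `CRule` on the basis `flz a 0 b`, which determines the matrix). `CRule N Y' D`, `D B sL sR` the derivative of the weights: the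
derivative of `CRule` for `Y z`. `ComF N 0 Y'`: the derivative at `0` of `FM (z • h top) * Y z = Y z * FM (z • h bottom)`, as `Y 0 = 0`.
Then `crule_unique` for `Y'`, `D` and `(h 3 - h 1) • ∑ t, EN N k t • em t`, with `WJ_deriv_right`, `emW_right`.
-/

set_option autoImplicit false

namespace Pool.Agent.H63.CLK

open Pool.Agent.H63.VC7 Pool.Agent.H63.VC10

private theorem K_E1_qh (N : ℕ) {f : ℂ → ℂ} (hf : Differentiable ℂ f) :
    Differentiable ℂ (fun z => qh N (f z)) := (qh_diff N).comp hf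

private theorem K_E1_bh (N : ℕ) {f : ℂ → ℂ} (hf : Differentiable ℂ f) :
    Differentiable ℂ (fun z => bh N (f z)) := (bh_diff N).comp hf

private theorem K_E1_pch (N x : ℕ) {f : ℂ → ℂ} (hf : Differentiable ℂ f) :
    Differentiable ℂ (fun z => pch N (f z) x) := (pch_diff N x).comp hf

private theorem K_E1_mu (N J : ℕ) (h : Fin 4 → ℂ) (B sL sR : ℕ) :
    Differentiable ℂ (fun z : ℂ => muJ N J (z • h) B sL sR) := by
  unfold muJ
  split_ifs
  · simp only [Pi.smul_apply, smul_eq_mul]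
    refine ((K_E1_qh N (by fun_prop)).mul (((K_E1_pch N _ (by fun_prop)).mul
      (K_E1_pch N _ (by fun_prop))).mul (K_E1_pch N _ (by fun_prop)))).mul ?_
    exact differentiable_const _
  · exact differentiable_const _

private theorem K_E1_nu (N J : ℕ) (h : Fin 4 → ℂ) (sL sR : ℕ) :
    Differentiable ℂ (fun z : ℂ => nuJ N J (z • h) sL sR) := by
  unfold nuJ
  split_ifs
  · simp only [Pi.smul_apply, smul_eq_mul]
    refine ((K_E1_qh N (by fun_prop)).mul (((K_E1_pch N _ (by fun_prop)).mul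
      (K_E1_pch N _ (by fun_prop))).mul (K_E1_pch N _ (by fun_prop)))).mul ?_
    exact differentiable_const _
  · exact differentiable_const _

theorem WJ_diff (N J : ℕ) (h : Fin 4 → ℂ) (B sL sR : ℕ) :
    Differentiable ℂ (fun z : ℂ => WJ N J (z • h) B sL sR) := by
  unfold WJ
  refine Differentiable.fun_sum fun a _ => Differentiable.fun_sum fun b _ => ?_
  exact (K_E1_mu N J h B a b).mul (K_E1_nu N J h (sL - a) (sR - b))

private theorem K_E1_Xc (N k : ℕ) (hk : k ≤ N) : Xc N (N - k) = Xc N k := by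
  unfold Xc
  have e : Real.pi * (2 * ((N - k : ℕ) : ℝ) + 1) / ((N + 1 : ℕ) : ℝ) =
      2 * Real.pi - Real.pi * (2 * k + 1) / ((N + 1 : ℕ) : ℝ) := by
    rw [Nat.cast_sub hk]
    push_cast
    have : ((N : ℝ) + 1) ≠ 0 := by positivity
    field_simp
    ring
  rw [e, Real.cos_two_pi_sub]

theorem WJ_symm_zero (N k : ℕ) (hk : k ≤ N) (B sL sR : ℕ) (hs : B + sL + sR ≤ N) :
    WJ N k 0 B sL sR = WJ N (N - k) 0 B sL sR := by
  rw [WJ_zero N k hk B sL sR hs, WJ_zero N (N - k) (Nat.sub_le _ _) B sL sR hs]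
  apply Finset.sum_congr rfl
  intro t _
  unfold QN
  rw [K_E1_Xc N k hk]

/-- The matrix of the weights. -/
private noncomputable def K_E1_rec (N : ℕ) (W : ℕ → ℕ → ℕ → ℂ) : Matrix (I2 N) (I2 N) ℂ :=
  fun x y => (qz N ^ (-(((y.1 : ℕ) : ℤ) * (y.1 : ℕ))) * (ib N (y.1 : ℕ) * ib N (y.2 : ℕ)))⁻¹ *
    ∑ sL ∈ Finset.range (N + 1), ∑ sR ∈ Finset.range (N + 1),
      if 0 + sL + sR ≤ N then W 0 sL sR *
        flz N (((y.1 : ℕ) : ℤ) - sL) (0 + sL + sR) (((y.2 : ℕ) : ℤ) - sR) (x.1 : ℕ) (x.2 : ℕ) else 0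

private theorem K_E1_coef_ne (N : ℕ) (y : I2 N) :
    qz N ^ (-(((y.1 : ℕ) : ℤ) * (y.1 : ℕ))) * (ib N (y.1 : ℕ) * ib N (y.2 : ℕ)) ≠ 0 := by
  have h1 : (y.1 : ℕ) ≤ N := Nat.lt_succ_iff.mp y.1.2
  have h2 : (y.2 : ℕ) ≤ N := Nat.lt_succ_iff.mp y.2.2
  rw [ib_nat, ib_nat]
  exact mul_ne_zero (zpow_ne_zero _ (A_Em_qz_ne N)) (mul_ne_zero
    (inv_ne_zero (A_Em_brf_ne N h1)) (inv_ne_zero (A_Em_brf_ne N h2)))

private theorem K_E1_rec_eq (N : ℕ) (X : Matrix (I2 N) (I2 N) ℂ) (W : ℕ → ℕ → ℕ → ℂ)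
    (hX : CRule N X W) : X = K_E1_rec N W := by
  ext x y
  have h1 : (y.1 : ℕ) ≤ N := Nat.lt_succ_iff.mp y.1.2
  have h2 : (y.2 : ℕ) ≤ N := Nat.lt_succ_iff.mp y.2.2
  have h := hX (y.1 : ℕ) 0 (y.2 : ℕ) h1 (Nat.zero_le _) h2 x
  have hl : ∑ w : I2 N, X x w * flz N ((y.1 : ℕ) : ℤ) ((0 : ℕ) : ℤ) ((y.2 : ℕ) : ℤ)
      ((w.1 : ℕ) : ℤ) ((w.2 : ℕ) : ℤ) = X x y *
        (qz N ^ (-(((y.1 : ℕ) : ℤ) * (y.1 : ℕ))) * (ib N (y.1 : ℕ) * ib N (y.2 : ℕ))) := by
    rw [Finset.sum_eq_single_of_mem y (Finset.mem_univ _)]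
    · rw [Nat.cast_zero, flz_basis, if_pos ⟨rfl, rfl⟩]
    · intro w _ hw
      rw [Nat.cast_zero, flz_basis, if_neg, mul_zero]
      rintro ⟨e1, e2⟩
      exact hw (Prod.ext (Fin.ext e1) (Fin.ext e2))
  rw [hl] at h
  unfold K_E1_rec
  rw [eq_inv_mul_iff_mul_eq₀ (K_E1_coef_ne N y), mul_comm, h]
  simp only [Nat.cast_zero]

private theorem K_E1_rec_deriv (N : ℕ) (W : ℂ → ℕ → ℕ → ℕ → ℂ) (D : ℕ → ℕ → ℕ → ℂ)
    (hD : ∀ B sL sR, HasDerivAt (fun z => W z B sL sR) (D B sL sR) 0) (x y : I2 N) :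
    HasDerivAt (fun z => K_E1_rec N (W z) x y) (K_E1_rec N D x y) 0 := by
  unfold K_E1_rec
  refine HasDerivAt.const_mul _ (HasDerivAt.fun_sum fun sL _ => HasDerivAt.fun_sum fun sR _ => ?_)
  split_ifs
  · exact (hD 0 sL sR).mul_const _
  · exact hasDerivAt_const _ _

private theorem K_E1_FM (N : ℕ) (a b c : ℂ) (x y : I2 N) :
    Differentiable ℂ (fun z : ℂ => FM N (z * a) (z * b) (z * c) x y) := by
  unfold FM fF
  refine Differentiable.fun_add ?_ ?_
  · split_ifs
    · exact (K_E1_qh N (by fun_prop)).mul (K_E1_bh N (by fun_prop))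
    · exact differentiable_const _
  · split_ifs
    · exact (differentiable_const _).mul ((K_E1_qh N (by fun_prop)).mul (K_E1_bh N (by fun_prop)))
    · exact differentiable_const _

theorem WJ_deriv (N k : ℕ) (h : Fin 4 → ℂ) (hk : k ≤ N) (B sL sR : ℕ) (hs : B + sL + sR ≤ N) :
    HasDerivAt (fun z : ℂ => WJ N k (z • h) B sL sR - WJ N (N - k) (z • h) B sL sR)
      ((h 3 - h 1) * ∑ t ∈ Finset.range (N + 1), (EN N k t : ℂ) * emW N t B sL sR) 0 := by
  have hNk : N - k ≤ N := Nat.sub_le _ _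
  set W : ℂ → ℕ → ℕ → ℕ → ℂ := fun z B sL sR =>
    WJ N k (z • h) B sL sR - WJ N (N - k) (z • h) B sL sR with hW
  set D : ℕ → ℕ → ℕ → ℂ := fun B sL sR => deriv (fun z => W z B sL sR) 0 with hDd
  have hD : ∀ B sL sR, HasDerivAt (fun z => W z B sL sR) (D B sL sR) 0 := by
    intro B sL sR
    have : Differentiable ℂ (fun z => W z B sL sR) :=
      (WJ_diff N k h B sL sR).sub (WJ_diff N (N - k) h B sL sR)
    exact (this 0).hasDerivAt
  set Y : ℂ → Matrix (I2 N) (I2 N) ℂ := fun z => XJ N k (z • h) - XJ N (N - k) (z • h) with hYd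
  -- the rule for Y
  have hY : ∀ z, CRule N (Y z) (W z) := by
    intro z α B β hα hB hβ x
    have h1 := XJ_rule N k (z • h) hk α B β hα hB hβ x
    have h2 := XJ_rule N (N - k) (z • h) hNk α B β hα hB hβ x
    rw [hYd, hW]
    simp only [Matrix.sub_apply, sub_mul, Finset.sum_sub_distrib]
    rw [h1, h2, ← Finset.sum_sub_distrib]
    apply Finset.sum_congr rfl
    intro sL _
    rw [← Finset.sum_sub_distrib]
    apply Finset.sum_congr rfl
    intro sR _
    split_ifs
    · rfl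
    · rw [sub_zero]
  have hYr : ∀ z, Y z = K_E1_rec N (W z) := fun z => K_E1_rec_eq N _ _ (hY z)
  -- the derivative of Y
  set Y' : Matrix (I2 N) (I2 N) ℂ := K_E1_rec N D with hYd'
  have hYD : ∀ x y, HasDerivAt (fun z => Y z x y) (Y' x y) 0 := by
    intro x y
    have h1 := K_E1_rec_deriv N W D hD x y
    have h2 : (fun z => Y z x y) = fun z => K_E1_rec N (W z) x y := by
      ext z
      rw [hYr z]
    rw [h2]
    exact h1
  -- the value at 0
  have hY0 : Y 0 = 0 := by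
    rw [hYr 0]
    ext x y
    unfold K_E1_rec
    rw [Matrix.zero_apply]
    have : ∑ sL ∈ Finset.range (N + 1), ∑ sR ∈ Finset.range (N + 1),
      (if 0 + sL + sR ≤ N then W 0 0 sL sR *
        flz N (((y.1 : ℕ) : ℤ) - sL) (0 + sL + sR) (((y.2 : ℕ) : ℤ) - sR) (x.1 : ℕ) (x.2 : ℕ)
        else 0) = 0 := by
      apply Finset.sum_eq_zero
      intro sL _
      apply Finset.sum_eq_zero
      intro sR _
      split_ifs with hc
      · rw [hW]
        simp only [zero_smul]
        rw [WJ_symm_zero N k hk 0 sL sR hc, sub_self, zero_mul]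
      · rfl
    rw [this, mul_zero]
  -- the rule for the derivative
  have hC' : CRule N Y' D := by
    intro α B β hα hB hβ x
    have h1 : HasDerivAt (fun z => ∑ y : I2 N, Y z x y * flz N α B β (y.1 : ℕ) (y.2 : ℕ))
        (∑ y : I2 N, Y' x y * flz N α B β (y.1 : ℕ) (y.2 : ℕ)) 0 :=
      HasDerivAt.fun_sum fun y _ => (hYD x y).mul_const _
    have h2 : HasDerivAt (fun z => ∑ sL ∈ Finset.range (N + 1), ∑ sR ∈ Finset.range (N + 1),
        if B + sL + sR ≤ N then W z B sL sR *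
          flz N ((α : ℤ) - sL) (B + sL + sR) ((β : ℤ) - sR) (x.1 : ℕ) (x.2 : ℕ) else 0)
        (∑ sL ∈ Finset.range (N + 1), ∑ sR ∈ Finset.range (N + 1),
        if B + sL + sR ≤ N then D B sL sR *
          flz N ((α : ℤ) - sL) (B + sL + sR) ((β : ℤ) - sR) (x.1 : ℕ) (x.2 : ℕ) else 0) 0 := by
      refine HasDerivAt.fun_sum fun sL _ => HasDerivAt.fun_sum fun sR _ => ?_
      split_ifs
      · exact (hD B sL sR).mul_const _
      · exact hasDerivAt_const _ _
    have h3 : (fun z => ∑ y : I2 N, Y z x y * flz N α B β (y.1 : ℕ) (y.2 : ℕ)) =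
        (fun z => ∑ sL ∈ Finset.range (N + 1), ∑ sR ∈ Finset.range (N + 1),
        if B + sL + sR ≤ N then W z B sL sR *
          flz N ((α : ℤ) - sL) (B + sL + sR) ((β : ℤ) - sR) (x.1 : ℕ) (x.2 : ℕ) else 0) := by
      ext z
      exact hY z α B β hα hB hβ x
    rw [h3] at h1
    exact h1.unique h2
  -- commutation with F
  have hF' : ComF N 0 Y' := by
    unfold ComF
    ext x y
    have hz : ∀ z : ℂ, FM N (z * h 3) (z * h 0) (z * h 1) * Y z =
        Y z * FM N (z * h 3) (z * h 2) (z * h 1) := by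
      intro z
      have h1 := XJ_F N k (z • h) hk
      have h2 := XJ_F N (N - k) (z • h) hNk
      unfold ComF at h1 h2
      simp only [Pi.smul_apply, smul_eq_mul] at h1 h2
      rw [hYd]
      simp only
      rw [mul_sub, sub_mul, h1, h2]
    have hl : HasDerivAt (fun z => (FM N (z * h 3) (z * h 0) (z * h 1) * Y z) x y)
        ((FM N 0 0 0 * Y') x y) 0 := by
      simp only [Matrix.mul_apply]
      refine HasDerivAt.fun_sum fun w _ => ?_
      have h1 := ((K_E1_FM N (h 3) (h 0) (h 1) x w) 0).hasDerivAt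
      refine HasDerivAt.congr_deriv (h1.mul (hYD w y)) ?_
      rw [hY0]
      simp
    have hr : HasDerivAt (fun z => (Y z * FM N (z * h 3) (z * h 2) (z * h 1)) x y)
        ((Y' * FM N 0 0 0) x y) 0 := by
      simp only [Matrix.mul_apply]
      refine HasDerivAt.fun_sum fun w _ => ?_
      have h1 := ((K_E1_FM N (h 3) (h 2) (h 1) w y) 0).hasDerivAt
      refine HasDerivAt.congr_deriv ((hYD x w).mul h1) ?_
      rw [hY0]
      simp
    have he : (fun z => (FM N (z * h 3) (z * h 0) (z * h 1) * Y z) x y) =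
        (fun z => (Y z * FM N (z * h 3) (z * h 2) (z * h 1)) x y) := by
      ext z
      rw [hz z]
    rw [he] at hl
    have := hl.unique hr
    simpa using this
  -- uniqueness
  have hmain : D B sL sR =
      (h 3 - h 1) * ∑ t ∈ Finset.range (N + 1), (EN N k t : ℂ) * emW N t B sL sR := by
    refine crule_unique N Y' ((h 3 - h 1) • ∑ t ∈ Finset.range (N + 1),
      (EN N k t : ℂ) • VC10.em (qz N) N t) D
      (fun B sL sR => (h 3 - h 1) * ∑ t ∈ Finset.range (N + 1), (EN N k t : ℂ) *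
        emW N t B sL sR) hC' ?_ hF' ?_ ?_ B sL sR hs
    · refine crule_smul N _ (fun B sL sR => ∑ t ∈ Finset.range (N + 1), (EN N k t : ℂ) *
        emW N t B sL sR) ?_ _
      refine crule_sum N (Finset.range (N + 1)) (fun t => (EN N k t : ℂ) • VC10.em (qz N) N t)
        (fun t B sL sR => (EN N k t : ℂ) * emW N t B sL sR) ?_
      intro t ht
      rw [Finset.mem_range] at ht
      exact crule_smul N _ _ (em_rule N t (by omega)) _
    · refine comF_smul N 0 _ ?_ _
      refine comF_sum N 0 (Finset.range (N + 1)) (fun t => (EN N k t : ℂ) • VC10.em (qz N) N t) ?_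
      intro t ht
      rw [Finset.mem_range] at ht
      exact comF_smul N 0 _ (em_F N t (by omega)) _
    · intro s hs
      have h1 : D 0 0 s = (h 3 - h 1) * (EN N k s : ℂ) :=
        (hD 0 0 s).unique (WJ_deriv_right N k s h hk hs)
      rw [h1]
      congr 1
      rw [Finset.sum_eq_single_of_mem s (Finset.mem_range.mpr (by omega))]
      · rw [emW_right N s s hs hs, if_pos rfl, mul_one]
      · intro t ht hts
        rw [Finset.mem_range] at ht
        rw [emW_right N t s (by omega) hs, if_neg hts, mul_zero]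
  rw [← hmain]
  exact hD B sL sR

end Pool.Agent.H63.CLK
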