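import Pool.Agent.H63.CLK.K_Id

/-!
# All directions, algebra: the flip of the intertwiners

The flip `e_i = gtf i e'_{N-i}`, `f_n = gJ n f'_{N-n}` turns `K F` into `E`, `E K⁻¹` into `F`, for the root of unity `q⁻¹` and
the level `N - J`; complex conjugation leads back to `q`, with the heights `hfl h`.

The recursions are `gtf (i+1) / gtf i = {i+1} q^(2i+3) / fF ha hb i` (`qh_sub`: the denominators of `gtf` are
`q^(2 hb + p) - q^(2 ha - p) = fF ha hb (p - 1)`), `gJ (n+1) / gJ n = -{n+1} q^(2n+4+2J) / fJ n`. The relation `E` of the flipped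
merging at `(a', b')` is the conjugate of the relation `F` of `M` at `(N - a', N - b')`, multiplied by the factors, and
conversely; the boundary cases `a' = 0` etc. are those where `supp` gives zeros. `qz_conj_zpow`, `br_conj`, `qh_conj`, `bh_conj`.
Checked numerically, with complex heights, for all `J ≤ N = 4`.
-/

set_option autoImplicit false

namespace Pool.Agent.H63.CLK

open Pool.Agent.H63.VC7 Pool.Agent.H63.VC10

/-- The factor of the flip on the strand of level `J`. -/
noncomputable def gJ (N J : ℕ) (hL hR : ℂ) (n : ℕ) : ℂ :=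
  ∏ i ∈ Finset.range n, (-(br (qz N) ((i : ℤ) + 1) * qz N ^ (2 * (i : ℤ) + 4 + 2 * J)) /
    fJ N J hL hR i)

theorem K_Fl_factor (N : ℕ) (ha hb : ℂ) (p : ℕ) :
    qh N (2 * hb + p + 1) - qh N (2 * ha - p - 1) = fF N ha hb p := by
  have h := qh_sub N ha hb ((p : ℂ) + 1)
  rw [fF, ← h]
  congr 2 <;> ring

theorem PPf_symm (N : ℕ) (ha hb : ℂ) : PPf N ha hb = PPf N hb ha := by
  unfold PPf
  simp only [K_Fl_factor]
  rw [← Finset.prod_range_reflect]
  refine Finset.prod_congr rfl fun p hp => ?_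
  have hp' := Finset.mem_range.1 hp
  unfold fF
  have e1 : (((N - 1 - p : ℕ) : ℂ)) = (N : ℂ) - 1 - p := by
    have : ((N - 1 - p : ℕ) : ℂ) + 1 + p = N := by
      have h0 : N - 1 - p + 1 + p = N := by omega
      exact_mod_cast h0
    linear_combination this
  rw [e1, add_comm hb ha]
  have e2 : (N : ℂ) - 1 - p + 1 + hb - ha = (N : ℂ) + 1 - (p + 1 + ha - hb) := by ring
  rw [e2, bh_refl]

theorem PPf_ne (N : ℕ) (ha hb : ℂ) (h1 : ‖ha‖ ≤ 1 / 8) (h2 : ‖hb‖ ≤ 1 / 8) : PPf N ha hb ≠ 0 := by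
  unfold PPf
  rw [Finset.prod_ne_zero_iff]
  intro p hp
  rw [K_Fl_factor]
  exact fF_ne N ha hb h1 h2 p (Finset.mem_range.1 hp)

theorem rrf_sq (N : ℕ) (ha hb : ℂ) : rrf N ha hb ^ 2 = PPf N ha hb / brf (qz N) N := by
  unfold rrf
  have h := Complex.cpow_nat_inv_pow (PPf N ha hb / brf (qz N) N) (n := 2) two_ne_zero
  rw [← h]
  congr 3
  norm_num

theorem gtf_ne (N : ℕ) (ha hb : ℂ) (h1 : ‖ha‖ ≤ 1 / 8) (h2 : ‖hb‖ ≤ 1 / 8) (i : ℕ) (hi : i ≤ N) :
    gtf N ha hb i ≠ 0 := by
  unfold gtf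
  refine mul_ne_zero (div_ne_zero (mul_ne_zero (zpow_ne_zero _ (A_Em_qz_ne N))
    (A_Em_brf_ne N hi)) ?_) ?_
  · rw [Finset.prod_ne_zero_iff]
    intro p hp
    rw [K_Fl_factor]
    exact fF_ne N ha hb h1 h2 p (lt_of_lt_of_le (Finset.mem_range.1 hp) hi)
  · intro h0
    have h := rrf_sq N ha hb
    rw [h0] at h
    have h3 : PPf N ha hb / brf (qz N) N ≠ 0 :=
      div_ne_zero (PPf_ne N ha hb h1 h2) (A_Em_brf_ne N le_rfl)
    exact h3 (by rw [← h]; ring)

theorem gtf_succ (N : ℕ) (ha hb : ℂ) (h1 : ‖ha‖ ≤ 1 / 8) (h2 : ‖hb‖ ≤ 1 / 8) (i : ℕ) (hi : i < N) :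
    gtf N ha hb (i + 1) * fF N ha hb i =
      gtf N ha hb i * (br (qz N) ((i : ℤ) + 1) * qz N ^ (2 * (i : ℤ) + 3)) := by
  unfold gtf
  rw [Finset.prod_range_succ, K_Fl_factor, brf_succ]
  have h3 := fF_ne N ha hb h1 h2 i hi
  have h4 : (∏ p ∈ Finset.range i, (qh N (2 * hb + p + 1) - qh N (2 * ha - p - 1))) ≠ 0 := by
    rw [Finset.prod_ne_zero_iff]
    intro p hp
    rw [K_Fl_factor]
    exact fF_ne N ha hb h1 h2 p ((Finset.mem_range.1 hp).trans hi)
  have h5 : qz N ^ (((i + 1 : ℕ) : ℤ) * ((i + 1 : ℕ) : ℤ) + 2 * ((i + 1 : ℕ) : ℤ)) =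
      qz N ^ ((i : ℤ) * i + 2 * i) * qz N ^ (2 * (i : ℤ) + 3) := by
    rw [← zpow_add₀ (A_Em_qz_ne N)]
    congr 1
    push_cast
    ring
  rw [h5]
  field_simp

theorem fJ_ne (N J : ℕ) (hL hR : ℂ) (h1 : ‖hL‖ ≤ 1 / 8) (h2 : ‖hR‖ ≤ 1 / 8) (hne : hL ≠ hR) (n : ℤ) :
    fJ N J hL hR n ≠ 0 := by
  unfold fJ
  refine neg_ne_zero.2 (mul_ne_zero (qh_ne N _) ?_)
  have h3 : ‖hR - hL‖ ≤ 1 / 4 := (norm_sub_le _ _).trans (by linarith)
  have h4 := bh_ne_small' N (2 * J + n + 2) (hR - hL) h3 (sub_ne_zero.2 hne.symm)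
  have e : 2 * (J : ℂ) + n + 2 + hR - hL = ((2 * (J : ℤ) + n + 2 : ℤ) : ℂ) + (hR - hL) := by
    push_cast
    ring
  rw [e]
  exact h4

/-! ### Auxiliary lemmas -/

private theorem K_Fl_zneg (N : ℕ) (e e' : ℤ) (h : e = e' + ((N : ℤ) + 1)) :
    qz N ^ e = -qz N ^ e' := by
  rw [h, zpow_add₀ (A_Em_qz_ne N), A_Em_qz_M]
  ring

private theorem K_Fl_gJ_succ (N J : ℕ) (hL hR : ℂ) (n : ℕ) (h : fJ N J hL hR n ≠ 0) :
    gJ N J hL hR (n + 1) * fJ N J hL hR n =
      gJ N J hL hR n * -(br (qz N) ((n : ℤ) + 1) * qz N ^ (2 * (n : ℤ) + 4 + 2 * J)) := by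
  unfold gJ
  rw [Finset.prod_range_succ]
  field_simp

private theorem K_Fl_gJ_ne (N J : ℕ) (hL hR : ℂ) (h1 : ‖hL‖ ≤ 1 / 8) (h2 : ‖hR‖ ≤ 1 / 8)
    (hne : hL ≠ hR) (n : ℕ) (hn : n ≤ N) : gJ N J hL hR n ≠ 0 := by
  unfold gJ
  rw [Finset.prod_ne_zero_iff]
  intro i hi
  have hi' := Finset.mem_range.1 hi
  refine div_ne_zero (neg_ne_zero.2 (mul_ne_zero (A_Em_br_ne N (by omega) (by omega))
    (zpow_ne_zero _ (A_Em_qz_ne N)))) (fJ_ne N J hL hR h1 h2 hne _)

private theorem K_Fl_fF_conj (N : ℕ) (ha hb : ℂ) (i j : ℕ) (hij : i + j + 1 = N) :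
    starRingEnd ℂ (fF N (-starRingEnd ℂ ha) (-starRingEnd ℂ hb) i) = -fF N ha hb j := by
  unfold fF
  rw [map_mul, qh_conj, bh_conj]
  have e1 : -starRingEnd ℂ (-starRingEnd ℂ ha + -starRingEnd ℂ hb) = ha + hb := by
    simp only [map_add, map_neg, Complex.conj_conj]
    ring
  have e2 : starRingEnd ℂ ((i : ℂ) + 1 + -starRingEnd ℂ hb - -starRingEnd ℂ ha) =
      (N : ℂ) + 1 - (j + 1 + hb - ha) := by
    have e3 : (N : ℂ) = i + j + 1 := by exact_mod_cast hij.symm
    simp only [map_add, map_sub, map_neg, map_one, Complex.conj_conj, Complex.conj_natCast]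
    rw [e3]
    ring
  rw [e1, e2, bh_refl]
  ring

private theorem K_Fl_fJ_conj (N J : ℕ) (hJ : J ≤ N) (hL hR : ℂ) (m m' : ℤ)
    (h : m + m' = (N : ℤ) - 1) :
    starRingEnd ℂ (fJ N (N - J) (-starRingEnd ℂ hL) (-starRingEnd ℂ hR) m') =
      -fJ N J hL hR m := by
  unfold fJ
  rw [map_neg, map_mul, qh_conj, bh_conj]
  have e1 : -starRingEnd ℂ (-starRingEnd ℂ hL + -starRingEnd ℂ hR) = hL + hR := by
    simp only [map_add, map_neg, Complex.conj_conj]
    ring
  have e2 : starRingEnd ℂ (2 * ((N - J : ℕ) : ℂ) + (m' : ℂ) + 2 + -starRingEnd ℂ hR -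
      -starRingEnd ℂ hL) =
      (((N : ℂ) + 1 - (2 * J + m + 2 + hR - hL)) + ((N : ℂ) + 1)) + ((N : ℂ) + 1) := by
    have e3 : (m' : ℂ) = N - 1 - m := by
      have : (m : ℂ) + m' = N - 1 := by exact_mod_cast h
      linear_combination this
    have e4 : ((N - J : ℕ) : ℂ) = N - J := by
      rw [Nat.cast_sub hJ]
    simp only [map_add, map_sub, map_neg, map_mul, Complex.conj_conj,
      Complex.conj_natCast, map_intCast, Complex.conj_ofNat]
    rw [e3, e4]
    ring
  rw [e1, e2, bh_add_M, bh_add_M, bh_refl]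
  ring

private theorem K_Fl_algE {y X0 X1 X2 m0 m1 m2 fj x1 x2 s t u1 u2 w K : ℂ}
    (hF : m1 + s * m2 = fj * m0) (h0 : y * X0 = -(fj * m0) * K / w)
    (h1 : x1 * X1 = m1 * K / u1) (h2 : x2 * X2 = m2 * K / u2)
    (hw : w ≠ 0) (hu1 : u1 ≠ 0) (hu2 : u2 ≠ 0)
    (ht : w * t = -u1) (hs : w = -(s * u2)) :
    y * X0 = t * (x1 * X1) + x2 * X2 := by
  rw [h0, h1, h2, ← hF]
  have ht' : t = -(u1 / w) := by
    field_simp
    linear_combination ht
  have hs' : s = -(w / u2) := by
    rw [hs]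
    field_simp
  rw [ht', hs']
  field_simp
  ring

private theorem K_Fl_algF {y m0 m1 m2 x1 x2 s t u1 u2 w K : ℂ}
    (hE : y * m0 = x1 * t * m1 + x2 * m2)
    (ht : w * t = -u1) (hs : w = -(s * u2)) :
    x1 * m1 * K * u1 + s * (x2 * m2 * K * u2) = -(y * m0) * K * w := by
  rw [hE]
  linear_combination (x1 * m1 * K) * ht + x2 * m2 * K * hs

/-- the exponents -/
private theorem K_Fl_exp (N J a b : ℕ) :
    qz N ^ (2 * ((a : ℤ) + b - J) + 4 + 2 * J) * qz N ^ ((N : ℤ) - 2 * b) =
      -qz N ^ (2 * (a : ℤ) + 3) ∧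
    qz N ^ (2 * ((a : ℤ) + b - J) + 4 + 2 * J) =
      -(qz N ^ (2 * (a : ℤ) - N) * qz N ^ (2 * (b : ℤ) + 3)) := by
  constructor
  · rw [← zpow_add₀ (A_Em_qz_ne N)]
    exact K_Fl_zneg N _ _ (by ring)
  · rw [← zpow_add₀ (A_Em_qz_ne N)]
    exact K_Fl_zneg N _ _ (by ring)

private theorem K_Fl_exp' (N J a b : ℕ) :
    qz N ^ (2 * ((a : ℤ) + b - J) + 2 + 2 * J) * qz N ^ ((N : ℤ) - 2 * b) =
      -qz N ^ (2 * (a : ℤ) + 1) ∧
    qz N ^ (2 * ((a : ℤ) + b - J) + 2 + 2 * J) =
      -(qz N ^ (2 * (a : ℤ) - N) * qz N ^ (2 * (b : ℤ) + 1)) := by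
  constructor
  · rw [← zpow_add₀ (A_Em_qz_ne N)]
    exact K_Fl_zneg N _ _ (by ring)
  · rw [← zpow_add₀ (A_Em_qz_ne N)]
    exact K_Fl_zneg N _ _ (by ring)

private theorem K_Fl_refl (N : ℕ) (x y : ℤ) (h : x + y = (N : ℤ) + 1) :
    br (qz N) x = br (qz N) y := by
  rw [show x = (N : ℤ) + 1 - y by linarith, A_Em_refl]

theorem mg_flip (N J : ℕ) (hJ : J ≤ N) (h : Fin 4 → ℂ) (hs : SmallH h) (hη : h 3 ≠ h 1)
    (M : ℕ → ℕ → ℂ) (hM : IsMg N J (h 3) (h 2) (h 1) M) :
    IsMg N (N - J) (hfl h 3) (hfl h 2) (hfl h 1) (fun a b => if a ≤ N ∧ b ≤ N then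
      starRingEnd ℂ (M (N - a) (N - b) * gJ N J (h 3) (h 1) (2 * N - a - b - J) /
        (gtf N (h 3) (h 2) (N - a) * gtf N (h 2) (h 1) (N - b))) else 0) := by
  have q0 := A_Em_qz_ne N
  have hs1 := hs 1
  have hs2 := hs 2
  have hs3 := hs 3
  have e3 : hfl h 3 = -starRingEnd ℂ (h 3) := rfl
  have e2 : hfl h 2 = -starRingEnd ℂ (h 2) := rfl
  have e1 : hfl h 1 = -starRingEnd ℂ (h 1) := rfl
  rw [e3, e2, e1]
  generalize h 3 = hL at *
  generalize h 2 = hb at *
  generalize h 1 = hR at *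
  clear e3 e2 e1 hs
  have hJ' : ((N - J : ℕ) : ℤ) = N - J := by omega
  refine ⟨?_, ?_, ?_⟩
  · intro a b hab
    split_ifs with hc
    · rw [hM.supp _ _ (by omega)]
      simp
    · rfl
  · intro i j hi hj
    obtain ⟨a, ha⟩ : ∃ a, a + i = N := ⟨N - i, by omega⟩
    obtain ⟨b, hb'⟩ : ∃ b, b + j = N := ⟨N - j, by omega⟩
    have ea : N - i = a := by omega
    have eb : N - j = b := by omega
    rw [if_pos ⟨hi, hj⟩, if_pos ⟨by omega, hj⟩, if_pos ⟨hi, by omega⟩, ea, eb]
    have hy : br (qz N) ((i : ℤ) + j - (N - J : ℕ)) = br (qz N) (((a : ℤ) + b - J) + 1) :=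
      K_Fl_refl N _ _ (by omega)
    have hx1 : br (qz N) (i : ℤ) = br (qz N) ((a : ℤ) + 1) := K_Fl_refl N _ _ (by omega)
    have hx2 : br (qz N) (j : ℤ) = br (qz N) ((b : ℤ) + 1) := K_Fl_refl N _ _ (by omega)
    have hg1 := gtf_ne N hL hb hs3 hs2 a (by omega)
    have hg2 := gtf_ne N hb hR hs2 hs1 b (by omega)
    have key : br (qz N) ((i : ℤ) + j - (N - J : ℕ)) *
        (M a b * gJ N J hL hR (2 * N - i - j - J) / (gtf N hL hb a * gtf N hb hR b)) =
        qz N ^ (-((N : ℤ) - 2 * j)) * (br (qz N) (i : ℤ) *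
          (M (N - (i - 1)) b * gJ N J hL hR (2 * N - (i - 1) - j - J) /
            (gtf N hL hb (N - (i - 1)) * gtf N hb hR b))) +
        br (qz N) (j : ℤ) * (M a (N - (j - 1)) * gJ N J hL hR (2 * N - i - (j - 1) - J) /
            (gtf N hL hb a * gtf N hb hR (N - (j - 1)))) := by
      rcases Nat.lt_or_ge (a + b) (J + N) with hlt | hge
      · have et : qz N ^ (-((N : ℤ) - 2 * j)) = qz N ^ ((N : ℤ) - 2 * b) := by
          congr 1
          omega
        rw [et]
        obtain ⟨ht, hs'⟩ := K_Fl_exp N J a b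
        refine K_Fl_algE (m0 := M a b) (m1 := fF N hL hb a * M (a + 1) b)
          (m2 := fF N hb hR b * M a (b + 1)) (fj := fJ N J hL hR ((a : ℤ) + b - J))
          (K := gJ N J hL hR (a + b + 1 - J) / (gtf N hL hb a * gtf N hb hR b))
          ?_ ?_ ?_ ?_ (zpow_ne_zero _ q0) (zpow_ne_zero _ q0) (zpow_ne_zero _ q0) ht hs'
        · have := hM.F a b (by omega) (by omega) hlt
          linear_combination this
        · rw [hy]
          by_cases hab : J ≤ a + b
          · obtain ⟨n, hn⟩ : ∃ n, a + b = J + n := ⟨a + b - J, by omega⟩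
            have en : ((a : ℤ) + b - J) = n := by omega
            have e1 : 2 * N - i - j - J = n := by omega
            have e2 : a + b + 1 - J = n + 1 := by omega
            rw [en, e1, e2]
            have hf := fJ_ne N J hL hR hs3 hs1 hη (n : ℤ)
            have hG := K_Fl_gJ_succ N J hL hR n hf
            have hw := zpow_ne_zero (2 * (n : ℤ) + 4 + 2 * J) q0
            generalize qz N ^ (2 * (n : ℤ) + 4 + 2 * J) = w at hG hw ⊢
            field_simp
            linear_combination (M a b) * hG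
          · rw [hM.supp a b (by omega)]
            simp
        · rw [hx1]
          rcases Nat.eq_zero_or_pos i with h0 | h0
          · have ea' : a = N := by omega
            rw [hM.supp (a + 1) b (by omega), ea', A_Em_br_M]
            simp
          · have e1 : N - (i - 1) = a + 1 := by omega
            have e2 : 2 * N - (i - 1) - j - J = a + b + 1 - J := by omega
            rw [e1, e2]
            have hg := gtf_succ N hL hb hs3 hs2 a (by omega)
            have hg' := gtf_ne N hL hb hs3 hs2 (a + 1) (by omega)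
            have hw := zpow_ne_zero (2 * (a : ℤ) + 3) q0
            generalize qz N ^ (2 * (a : ℤ) + 3) = w at hg hw ⊢
            field_simp
            linear_combination (-(M (a + 1) b * gJ N J hL hR (a + b + 1 - J))) * hg
        · rw [hx2]
          rcases Nat.eq_zero_or_pos j with h0 | h0
          · have eb' : b = N := by omega
            rw [hM.supp a (b + 1) (by omega), eb', A_Em_br_M]
            simp
          · have e1 : N - (j - 1) = b + 1 := by omega
            have e2 : 2 * N - i - (j - 1) - J = a + b + 1 - J := by omega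
            rw [e1, e2]
            have hg := gtf_succ N hb hR hs2 hs1 b (by omega)
            have hg' := gtf_ne N hb hR hs2 hs1 (b + 1) (by omega)
            have hw := zpow_ne_zero (2 * (b : ℤ) + 3) q0
            generalize qz N ^ (2 * (b : ℤ) + 3) = w at hg hw ⊢
            field_simp
            linear_combination (-(M a (b + 1) * gJ N J hL hR (a + b + 1 - J))) * hg
      · have z1 : br (qz N) (i : ℤ) * (M (N - (i - 1)) b * gJ N J hL hR (2 * N - (i - 1) - j - J) /
            (gtf N hL hb (N - (i - 1)) * gtf N hb hR b)) = 0 := by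
          rcases Nat.eq_zero_or_pos i with h0 | h0
          · rw [h0, Nat.cast_zero, br_zero, zero_mul]
          · rw [hM.supp (N - (i - 1)) b (by omega)]
            simp
        have z2 : br (qz N) (j : ℤ) * (M a (N - (j - 1)) * gJ N J hL hR (2 * N - i - (j - 1) - J) /
            (gtf N hL hb a * gtf N hb hR (N - (j - 1)))) = 0 := by
          rcases Nat.eq_zero_or_pos j with h0 | h0
          · rw [h0, Nat.cast_zero, br_zero, zero_mul]
          · rw [hM.supp a (N - (j - 1)) (by omega)]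
            simp
        rw [z1, z2, hy]
        rcases Nat.eq_or_lt_of_le hge with h0 | h0
        · rw [show ((a : ℤ) + b - J) + 1 = (N : ℤ) + 1 by omega, A_Em_br_M]
          simp
        · rw [hM.supp a b (by omega)]
          simp
    have hc := congrArg (starRingEnd ℂ) key
    simp only [map_add, map_mul, br_conj, qz_conj_zpow] at hc
    rw [neg_neg] at hc
    linear_combination (-1 : ℂ) * hc
  · intro i j hi hj hij
    obtain ⟨a, ha⟩ : ∃ a, a + i = N := ⟨N - i, by omega⟩
    obtain ⟨b, hb'⟩ : ∃ b, b + j = N := ⟨N - j, by omega⟩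
    obtain ⟨n, hn⟩ : ∃ n, a + b = J + (n + 1) := ⟨a + b - J - 1, by omega⟩
    have ea : N - i = a := by omega
    have eb : N - j = b := by omega
    have hg1 := gtf_ne N hL hb hs3 hs2 a (by omega)
    have hg2 := gtf_ne N hb hR hs2 hs1 b (by omega)
    have hE := hM.E a b (by omega) (by omega)
    obtain ⟨ht, hs'⟩ := K_Fl_exp' N J a b
    have hkey := K_Fl_algF (K := gJ N J hL hR n / (gtf N hL hb a * gtf N hb hR b)) hE ht hs'
    have t1 : fF N (-starRingEnd ℂ hL) (-starRingEnd ℂ hb) i *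
        (if i + 1 ≤ N ∧ j ≤ N then
          starRingEnd ℂ (M (N - (i + 1)) (N - j) * gJ N J hL hR (2 * N - (i + 1) - j - J) /
            (gtf N hL hb (N - (i + 1)) * gtf N hb hR (N - j))) else 0) =
        -starRingEnd ℂ (br (qz N) a * M (a - 1) b *
          (gJ N J hL hR n / (gtf N hL hb a * gtf N hb hR b)) * qz N ^ (2 * (a : ℤ) + 1)) := by
      rcases Nat.eq_zero_or_pos a with h0 | h0
      · rw [if_neg (by omega), h0, Nat.cast_zero, br_zero]
        simp
      · obtain ⟨a', rfl⟩ : ∃ a', a = a' + 1 := ⟨a - 1, by omega⟩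
        have e1 : N - (i + 1) = a' := by omega
        have e2 : 2 * N - (i + 1) - j - J = n := by omega
        rw [if_pos ⟨by omega, hj⟩, e1, e2, eb, Nat.add_sub_cancel]
        have hf : fF N (-starRingEnd ℂ hL) (-starRingEnd ℂ hb) i =
            -starRingEnd ℂ (fF N hL hb a') := by
          have := congrArg (starRingEnd ℂ) (K_Fl_fF_conj N hL hb i a' (by omega))
          rw [Complex.conj_conj, map_neg] at this
          exact this
        rw [hf, neg_mul, ← map_mul]
        congr 2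
        have hg := gtf_succ N hL hb hs3 hs2 a' (by omega)
        have hg' := gtf_ne N hL hb hs3 hs2 a' (by omega)
        have ew : 2 * (((a' + 1 : ℕ)) : ℤ) + 1 = 2 * (a' : ℤ) + 3 := by push_cast; ring
        have ec : (((a' + 1 : ℕ)) : ℤ) = (a' : ℤ) + 1 := by push_cast; ring
        rw [ew, ec]
        generalize qz N ^ (2 * (a' : ℤ) + 3) = w at hg ⊢
        field_simp
        linear_combination (M a' b * gJ N J hL hR n) * hg
    have t2 : fF N (-starRingEnd ℂ hb) (-starRingEnd ℂ hR) j *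
        (if i ≤ N ∧ j + 1 ≤ N then
          starRingEnd ℂ (M (N - i) (N - (j + 1)) * gJ N J hL hR (2 * N - i - (j + 1) - J) /
            (gtf N hL hb (N - i) * gtf N hb hR (N - (j + 1)))) else 0) =
        -starRingEnd ℂ (br (qz N) b * M a (b - 1) *
          (gJ N J hL hR n / (gtf N hL hb a * gtf N hb hR b)) * qz N ^ (2 * (b : ℤ) + 1)) := by
      rcases Nat.eq_zero_or_pos b with h0 | h0
      · rw [if_neg (by omega), h0, Nat.cast_zero, br_zero]
        simp
      · obtain ⟨b', rfl⟩ : ∃ b', b = b' + 1 := ⟨b - 1, by omega⟩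
        have e1 : N - (j + 1) = b' := by omega
        have e2 : 2 * N - i - (j + 1) - J = n := by omega
        rw [if_pos ⟨hi, by omega⟩, e1, e2, ea, Nat.add_sub_cancel]
        have hf : fF N (-starRingEnd ℂ hb) (-starRingEnd ℂ hR) j =
            -starRingEnd ℂ (fF N hb hR b') := by
          have := congrArg (starRingEnd ℂ) (K_Fl_fF_conj N hb hR j b' (by omega))
          rw [Complex.conj_conj, map_neg] at this
          exact this
        rw [hf, neg_mul, ← map_mul]
        congr 2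
        have hg := gtf_succ N hb hR hs2 hs1 b' (by omega)
        have hg' := gtf_ne N hb hR hs2 hs1 b' (by omega)
        have ew : 2 * (((b' + 1 : ℕ)) : ℤ) + 1 = 2 * (b' : ℤ) + 3 := by push_cast; ring
        have ec : (((b' + 1 : ℕ)) : ℤ) = (b' : ℤ) + 1 := by push_cast; ring
        rw [ew, ec]
        generalize qz N ^ (2 * (b' : ℤ) + 3) = w at hg ⊢
        field_simp
        linear_combination (M a b' * gJ N J hL hR n) * hg
    have t0 : fJ N (N - J) (-starRingEnd ℂ hL) (-starRingEnd ℂ hR) ((i : ℤ) + j - (N - J : ℕ)) *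
        (if i ≤ N ∧ j ≤ N then
          starRingEnd ℂ (M (N - i) (N - j) * gJ N J hL hR (2 * N - i - j - J) /
            (gtf N hL hb (N - i) * gtf N hb hR (N - j))) else 0) =
        -starRingEnd ℂ (-(br (qz N) ((a : ℤ) + b - J) * M a b) *
          (gJ N J hL hR n / (gtf N hL hb a * gtf N hb hR b)) *
            qz N ^ (2 * ((a : ℤ) + b - J) + 2 + 2 * J)) := by
      rw [if_pos ⟨hi, hj⟩, ea, eb]
      have e2 : 2 * N - i - j - J = n + 1 := by omega
      have en : ((a : ℤ) + b - J) = (n : ℤ) + 1 := by omega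
      have hf : fJ N (N - J) (-starRingEnd ℂ hL) (-starRingEnd ℂ hR) ((i : ℤ) + j - (N - J : ℕ)) =
          -starRingEnd ℂ (fJ N J hL hR n) := by
        have := congrArg (starRingEnd ℂ) (K_Fl_fJ_conj N J hJ hL hR n
          ((i : ℤ) + j - (N - J : ℕ)) (by omega))
        rw [Complex.conj_conj, map_neg] at this
        exact this
      rw [hf, neg_mul, ← map_mul, e2, en]
      congr 2
      have hfj := fJ_ne N J hL hR hs3 hs1 hη (n : ℤ)
      have hG := K_Fl_gJ_succ N J hL hR n hfj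
      have ew : 2 * ((n : ℤ) + 1) + 2 + 2 * J = 2 * (n : ℤ) + 4 + 2 * J := by ring
      rw [ew]
      generalize qz N ^ (2 * (n : ℤ) + 4 + 2 * J) = w at hG ⊢
      field_simp
      linear_combination (M a b) * hG
    have hc := congrArg (starRingEnd ℂ) hkey
    simp only [map_add, map_mul (starRingEnd ℂ) (qz N ^ (2 * (a : ℤ) - N)), qz_conj_zpow] at hc
    rw [mul_assoc (qz N ^ (2 * (i : ℤ) - N)), t1, t2, t0]
    have es : qz N ^ (-(2 * (a : ℤ) - N)) = qz N ^ (2 * (i : ℤ) - N) := by
      congr 1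
      omega
    rw [es] at hc
    linear_combination (-1 : ℂ) * hc

theorem sp_flip (N J : ℕ) (hJ : J ≤ N) (h : Fin 4 → ℂ) (hs : SmallH h) (hη : h 3 ≠ h 1)
    (S : ℕ → ℕ → ℂ) (hS : IsSp N J (h 3) (h 0) (h 1) S) :
    IsSp N (N - J) (hfl h 3) (hfl h 0) (hfl h 1) (fun c d => if c ≤ N ∧ d ≤ N then
      starRingEnd ℂ (S (N - c) (N - d) *
        (gtf N (h 3) (h 0) (N - c) * gtf N (h 0) (h 1) (N - d)) /
        gJ N J (h 3) (h 1) (2 * N - c - d - J)) else 0) := by
  have q0 := A_Em_qz_ne N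
  have hs1 := hs 1
  have hs0 := hs 0
  have hs3 := hs 3
  have e3 : hfl h 3 = -starRingEnd ℂ (h 3) := rfl
  have e0 : hfl h 0 = -starRingEnd ℂ (h 0) := rfl
  have e1 : hfl h 1 = -starRingEnd ℂ (h 1) := rfl
  rw [e3, e0, e1]
  generalize h 3 = hL at *
  generalize h 0 = ht at *
  generalize h 1 = hR at *
  clear e3 e0 e1 hs
  have hJ' : ((N - J : ℕ) : ℤ) = N - J := by omega
  refine ⟨?_, ?_, ?_⟩
  · intro a b hab
    split_ifs with hc
    · rw [hS.supp _ _ (by omega)]
      simp
    · rfl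
  · intro i j hi hj
    obtain ⟨c, hc⟩ : ∃ c, c + i = N := ⟨N - i, by omega⟩
    obtain ⟨d, hd⟩ : ∃ d, d + j = N := ⟨N - j, by omega⟩
    have ec : N - i = c := by omega
    have ed : N - j = d := by omega
    have hy : br (qz N) ((i : ℤ) + j + 1 - (N - J : ℕ)) = br (qz N) ((c : ℤ) + d - J) :=
      K_Fl_refl N _ _ (by omega)
    have hx1 : br (qz N) ((i : ℤ) + 1) = br (qz N) (c : ℤ) := K_Fl_refl N _ _ (by omega)
    have hx2 : br (qz N) ((j : ℤ) + 1) = br (qz N) (d : ℤ) := K_Fl_refl N _ _ (by omega)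
    have hg1 := gtf_ne N hL ht hs3 hs0 c (by omega)
    have hg2 := gtf_ne N ht hR hs0 hs1 d (by omega)
    rcases Nat.lt_or_ge J (c + d) with hlt | hge
    · obtain ⟨n, hn⟩ : ∃ n, c + d = J + (n + 1) := ⟨c + d - J - 1, by omega⟩
      have hF := hS.F c d (by omega) (by omega) (by omega)
      obtain ⟨k1, k2⟩ := K_Fl_exp' N J c d
      have t1 : br (qz N) ((i : ℤ) + 1) * (if i + 1 ≤ N ∧ j ≤ N then
            starRingEnd ℂ (S (N - (i + 1)) (N - j) *
              (gtf N hL ht (N - (i + 1)) * gtf N ht hR (N - j)) /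
              gJ N J hL hR (2 * N - (i + 1) - j - J)) else 0) =
          -starRingEnd ℂ ((if c = 0 then 0 else fF N hL ht (c - 1) * S (c - 1) d) *
            (gtf N hL ht c * gtf N ht hR d / gJ N J hL hR n) / qz N ^ (2 * (c : ℤ) + 1)) := by
        rcases Nat.eq_zero_or_pos c with h0 | h0
        · rw [if_neg (by omega), if_pos h0]
          simp
        · obtain ⟨c', rfl⟩ : ∃ c', c = c' + 1 := ⟨c - 1, by omega⟩
          have e1 : N - (i + 1) = c' := by omega
          have e2 : 2 * N - (i + 1) - j - J = n := by omega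
          rw [if_pos ⟨by omega, hj⟩, if_neg (by omega), e1, e2, ed, Nat.add_sub_cancel, hx1,
            eq_neg_iff_add_eq_zero]
          have hb := br_conj N ((c' + 1 : ℕ) : ℤ)
          have hb' : br (qz N) ((c' + 1 : ℕ) : ℤ) =
              -starRingEnd ℂ (br (qz N) ((c' + 1 : ℕ) : ℤ)) := by
            rw [hb, neg_neg]
          rw [hb', neg_mul, ← map_mul, neg_add_eq_zero]
          congr 1
          have hg := gtf_succ N hL ht hs3 hs0 c' (by omega)
          have hw := zpow_ne_zero (2 * (c' : ℤ) + 3) q0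
          have ew : 2 * (((c' + 1 : ℕ)) : ℤ) + 1 = 2 * (c' : ℤ) + 3 := by push_cast; ring
          have ecc : (((c' + 1 : ℕ)) : ℤ) = (c' : ℤ) + 1 := by push_cast; ring
          rw [ew, ecc]
          generalize qz N ^ (2 * (c' : ℤ) + 3) = w at hg hw ⊢
          field_simp
          linear_combination (-(S c' d * (gJ N J hL hR n)⁻¹)) * hg
      have t2 : br (qz N) ((j : ℤ) + 1) * (if i ≤ N ∧ j + 1 ≤ N then
            starRingEnd ℂ (S (N - i) (N - (j + 1)) *
              (gtf N hL ht (N - i) * gtf N ht hR (N - (j + 1))) /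
              gJ N J hL hR (2 * N - i - (j + 1) - J)) else 0) =
          -starRingEnd ℂ ((if d = 0 then 0 else fF N ht hR (d - 1) * S c (d - 1)) *
            (gtf N hL ht c * gtf N ht hR d / gJ N J hL hR n) / qz N ^ (2 * (d : ℤ) + 1)) := by
        rcases Nat.eq_zero_or_pos d with h0 | h0
        · rw [if_neg (by omega), if_pos h0]
          simp
        · obtain ⟨d', rfl⟩ : ∃ d', d = d' + 1 := ⟨d - 1, by omega⟩
          have e1 : N - (j + 1) = d' := by omega
          have e2 : 2 * N - i - (j + 1) - J = n := by omega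
          rw [if_pos ⟨hi, by omega⟩, if_neg (by omega), e1, e2, ec, Nat.add_sub_cancel, hx2,
            eq_neg_iff_add_eq_zero]
          have hb := br_conj N ((d' + 1 : ℕ) : ℤ)
          have hb' : br (qz N) ((d' + 1 : ℕ) : ℤ) =
              -starRingEnd ℂ (br (qz N) ((d' + 1 : ℕ) : ℤ)) := by
            rw [hb, neg_neg]
          rw [hb', neg_mul, ← map_mul, neg_add_eq_zero]
          congr 1
          have hg := gtf_succ N ht hR hs0 hs1 d' (by omega)
          have hw := zpow_ne_zero (2 * (d' : ℤ) + 3) q0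
          have ew : 2 * (((d' + 1 : ℕ)) : ℤ) + 1 = 2 * (d' : ℤ) + 3 := by push_cast; ring
          have ecc : (((d' + 1 : ℕ)) : ℤ) = (d' : ℤ) + 1 := by push_cast; ring
          rw [ew, ecc]
          generalize qz N ^ (2 * (d' : ℤ) + 3) = w at hg hw ⊢
          field_simp
          linear_combination (-(S c d' * (gJ N J hL hR n)⁻¹)) * hg
      have t0 : br (qz N) ((i : ℤ) + j + 1 - (N - J : ℕ)) * (if i ≤ N ∧ j ≤ N then
            starRingEnd ℂ (S (N - i) (N - j) *
              (gtf N hL ht (N - i) * gtf N ht hR (N - j)) /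
              gJ N J hL hR (2 * N - i - j - J)) else 0) =
          -starRingEnd ℂ (-(fJ N J hL hR ((c : ℤ) + d - 1 - J) * S c d) *
            (gtf N hL ht c * gtf N ht hR d / gJ N J hL hR n) /
              qz N ^ (2 * ((c : ℤ) + d - J) + 2 + 2 * J)) := by
        have e2 : 2 * N - i - j - J = n + 1 := by omega
        have en : ((c : ℤ) + d - J) = n + 1 := by omega
        have en' : ((c : ℤ) + d - 1 - J) = n := by omega
        rw [if_pos ⟨hi, hj⟩, ec, ed, e2, hy, en, en', eq_neg_iff_add_eq_zero]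
        have hb := br_conj N ((n : ℤ) + 1)
        have hb' : br (qz N) ((n : ℤ) + 1) = -starRingEnd ℂ (br (qz N) ((n : ℤ) + 1)) := by
          rw [hb, neg_neg]
        rw [hb', neg_mul, ← map_mul, neg_add_eq_zero]
        congr 1
        by_cases hnN : n + 1 ≤ N
        · have hf := fJ_ne N J hL hR hs3 hs1 hη (n : ℤ)
          have hG := K_Fl_gJ_succ N J hL hR n hf
          have g1 := K_Fl_gJ_ne N J hL hR hs3 hs1 hη n (by omega)
          have g2 := K_Fl_gJ_ne N J hL hR hs3 hs1 hη (n + 1) hnN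
          have hw := zpow_ne_zero (2 * (n : ℤ) + 4 + 2 * J) q0
          have ew : 2 * ((n : ℤ) + 1) + 2 + 2 * J = 2 * (n : ℤ) + 4 + 2 * J := by ring
          rw [ew]
          generalize qz N ^ (2 * (n : ℤ) + 4 + 2 * J) = w at hG hw ⊢
          field_simp
          linear_combination (S c d) * hG
        · rw [hS.supp c d (by omega)]
          simp
      have hkey := K_Fl_algE (x1 := 1) (x2 := 1) (y := 1)
        (K := gtf N hL ht c * gtf N ht hR d / gJ N J hL hR n)
        (m1 := if c = 0 then 0 else fF N hL ht (c - 1) * S (c - 1) d)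
        (m2 := if d = 0 then 0 else fF N ht hR (d - 1) * S c (d - 1))
        (m0 := S c d) (fj := fJ N J hL hR ((c : ℤ) + d - 1 - J))
        (by rw [← hF]; congr 1; split_ifs <;> ring) (one_mul _) (one_mul _) (one_mul _)
        (zpow_ne_zero _ q0) (zpow_ne_zero _ q0) (zpow_ne_zero _ q0) k1 k2
      rw [one_mul, one_mul, one_mul] at hkey
      have hcc := congrArg (starRingEnd ℂ) hkey
      rw [map_add, map_mul (starRingEnd ℂ) (qz N ^ ((N : ℤ) - 2 * d)), qz_conj_zpow] at hcc
      have es : qz N ^ (-((N : ℤ) - 2 * d)) = qz N ^ ((N : ℤ) - 2 * j) := by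
        congr 1
        omega
      rw [es] at hcc
      rw [t2, t0, mul_comm (br (qz N) ((i : ℤ) + 1)), mul_assoc, t1]
      linear_combination (1 : ℂ) * hcc
    · have z1 : (if i + 1 ≤ N ∧ j ≤ N then
            starRingEnd ℂ (S (N - (i + 1)) (N - j) *
              (gtf N hL ht (N - (i + 1)) * gtf N ht hR (N - j)) /
              gJ N J hL hR (2 * N - (i + 1) - j - J)) else 0) = 0 := by
        split_ifs with h0
        · rw [hS.supp _ _ (by omega)]
          simp
        · rfl
      have z2 : (if i ≤ N ∧ j + 1 ≤ N then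
            starRingEnd ℂ (S (N - i) (N - (j + 1)) *
              (gtf N hL ht (N - i) * gtf N ht hR (N - (j + 1))) /
              gJ N J hL hR (2 * N - i - (j + 1) - J)) else 0) = 0 := by
        split_ifs with h0
        · rw [hS.supp _ _ (by omega)]
          simp
        · rfl
      rw [z1, z2, if_pos ⟨hi, hj⟩, ec, ed, hy]
      rcases Nat.eq_or_lt_of_le hge with h0 | h0
      · rw [show (c : ℤ) + d - J = 0 by omega, br_zero]
        simp
      · rw [hS.supp c d (by omega)]
        simp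
  · intro i j hi hj hij
    obtain ⟨c, hc⟩ : ∃ c, c + i = N := ⟨N - i, by omega⟩
    obtain ⟨d, hd⟩ : ∃ d, d + j = N := ⟨N - j, by omega⟩
    have ec : N - i = c := by omega
    have ed : N - j = d := by omega
    have hg1 := gtf_ne N hL ht hs3 hs0 c (by omega)
    have hg2 := gtf_ne N ht hR hs0 hs1 d (by omega)
    have hE := hS.E c d (by omega) (by omega)
    obtain ⟨k1, k2⟩ := K_Fl_exp N J c d
    have hkey := K_Fl_algF (K := gtf N hL ht c * gtf N ht hR d / gJ N J hL hR (c + d + 1 - J))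
      hE.symm k1 k2
    have t1 : (if i = 0 then 0 else fF N (-starRingEnd ℂ hL) (-starRingEnd ℂ ht) (i - 1) *
        (if i - 1 ≤ N ∧ j ≤ N then
          starRingEnd ℂ (S (N - (i - 1)) (N - j) *
            (gtf N hL ht (N - (i - 1)) * gtf N ht hR (N - j)) /
            gJ N J hL hR (2 * N - (i - 1) - j - J)) else 0)) =
        -starRingEnd ℂ (br (qz N) ((c : ℤ) + 1) * S (c + 1) d *
          (gtf N hL ht c * gtf N ht hR d / gJ N J hL hR (c + d + 1 - J)) *
          qz N ^ (2 * (c : ℤ) + 3)) := by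
      rcases Nat.eq_zero_or_pos i with h0 | h0
      · rw [if_pos h0, hS.supp (c + 1) d (by omega)]
        simp
      · have e1 : N - (i - 1) = c + 1 := by omega
        have e2 : 2 * N - (i - 1) - j - J = c + d + 1 - J := by omega
        rw [if_neg (by omega), if_pos ⟨by omega, hj⟩, e1, e2, ed]
        have hf : fF N (-starRingEnd ℂ hL) (-starRingEnd ℂ ht) (i - 1) =
            -starRingEnd ℂ (fF N hL ht c) := by
          have := congrArg (starRingEnd ℂ) (K_Fl_fF_conj N hL ht (i - 1) c (by omega))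
          rw [Complex.conj_conj, map_neg] at this
          exact this
        rw [hf, neg_mul, ← map_mul]
        congr 2
        have hg := gtf_succ N hL ht hs3 hs0 c (by omega)
        generalize qz N ^ (2 * (c : ℤ) + 3) = w at hg ⊢
        field_simp
        linear_combination (S (c + 1) d * (gJ N J hL hR (c + d + 1 - J))⁻¹) * hg
    have t2 : (if j = 0 then 0 else qz N ^ (2 * (i : ℤ) - N) *
        fF N (-starRingEnd ℂ ht) (-starRingEnd ℂ hR) (j - 1) *
        (if i ≤ N ∧ j - 1 ≤ N then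
          starRingEnd ℂ (S (N - i) (N - (j - 1)) *
            (gtf N hL ht (N - i) * gtf N ht hR (N - (j - 1))) /
            gJ N J hL hR (2 * N - i - (j - 1) - J)) else 0)) =
        qz N ^ (2 * (i : ℤ) - N) * -starRingEnd ℂ (br (qz N) ((d : ℤ) + 1) * S c (d + 1) *
          (gtf N hL ht c * gtf N ht hR d / gJ N J hL hR (c + d + 1 - J)) *
          qz N ^ (2 * (d : ℤ) + 3)) := by
      rcases Nat.eq_zero_or_pos j with h0 | h0
      · rw [if_pos h0, hS.supp c (d + 1) (by omega)]
        simp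
      · have e1 : N - (j - 1) = d + 1 := by omega
        have e2 : 2 * N - i - (j - 1) - J = c + d + 1 - J := by omega
        rw [if_neg (by omega), if_pos ⟨hi, by omega⟩, e1, e2, ec]
        have hf : fF N (-starRingEnd ℂ ht) (-starRingEnd ℂ hR) (j - 1) =
            -starRingEnd ℂ (fF N ht hR d) := by
          have := congrArg (starRingEnd ℂ) (K_Fl_fF_conj N ht hR (j - 1) d (by omega))
          rw [Complex.conj_conj, map_neg] at this
          exact this
        rw [hf, mul_assoc, neg_mul, ← map_mul]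
        congr 3
        have hg := gtf_succ N ht hR hs0 hs1 d (by omega)
        generalize qz N ^ (2 * (d : ℤ) + 3) = w at hg ⊢
        field_simp
        linear_combination (S c (d + 1) * (gJ N J hL hR (c + d + 1 - J))⁻¹) * hg
    have t0 : fJ N (N - J) (-starRingEnd ℂ hL) (-starRingEnd ℂ hR)
          ((i : ℤ) + j - 1 - (N - J : ℕ)) *
        (if i ≤ N ∧ j ≤ N then
          starRingEnd ℂ (S (N - i) (N - j) *
            (gtf N hL ht (N - i) * gtf N ht hR (N - j)) /
            gJ N J hL hR (2 * N - i - j - J)) else 0) =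
        -starRingEnd ℂ (-(br (qz N) ((c : ℤ) + d + 1 - J) * S c d) *
          (gtf N hL ht c * gtf N ht hR d / gJ N J hL hR (c + d + 1 - J)) *
            qz N ^ (2 * ((c : ℤ) + d - J) + 4 + 2 * J)) := by
      rw [if_pos ⟨hi, hj⟩, ec, ed]
      by_cases hcd : J ≤ c + d
      · obtain ⟨n, hn⟩ : ∃ n, c + d = J + n := ⟨c + d - J, by omega⟩
        have e2 : 2 * N - i - j - J = n := by omega
        have e4 : c + d + 1 - J = n + 1 := by omega
        have en : ((c : ℤ) + d - J) = n := by omega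
        have en' : ((c : ℤ) + d + 1 - J) = n + 1 := by omega
        have hf : fJ N (N - J) (-starRingEnd ℂ hL) (-starRingEnd ℂ hR)
            ((i : ℤ) + j - 1 - (N - J : ℕ)) = -starRingEnd ℂ (fJ N J hL hR n) := by
          have := congrArg (starRingEnd ℂ) (K_Fl_fJ_conj N J hJ hL hR n
            ((i : ℤ) + j - 1 - (N - J : ℕ)) (by omega))
          rw [Complex.conj_conj, map_neg] at this
          exact this
        rw [hf, neg_mul, ← map_mul, e2, e4, en, en']
        congr 2
        have hfj := fJ_ne N J hL hR hs3 hs1 hη (n : ℤ)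
        have hG := K_Fl_gJ_succ N J hL hR n hfj
        have g1 := K_Fl_gJ_ne N J hL hR hs3 hs1 hη n (by omega)
        have g2 := K_Fl_gJ_ne N J hL hR hs3 hs1 hη (n + 1) (by omega)
        generalize qz N ^ (2 * (n : ℤ) + 4 + 2 * J) = w at hG ⊢
        field_simp
        linear_combination (S c d) * hG
      · rw [hS.supp c d (by omega)]
        simp
    have hcc := congrArg (starRingEnd ℂ) hkey
    rw [map_add, map_mul (starRingEnd ℂ) (qz N ^ (2 * (c : ℤ) - N)), qz_conj_zpow] at hcc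
    rw [t1, t2, t0]
    have es : qz N ^ (-(2 * (c : ℤ) - N)) = qz N ^ (2 * (i : ℤ) - N) := by
      congr 1
      omega
    rw [es] at hcc
    linear_combination (-1 : ℂ) * hcc

end Pool.Agent.H63.CLK
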