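import Pool.Agent.H63.CLK.K_Id

/-!
# All directions, algebra: uniqueness of the intertwiners

`mg_unique`: put `Z = M' 0 J • M - M 0 J • M'` (also `IsMg`, with `Z 0 J = 0`). `F` at `a + b = J - 1` gives
`fF hL hb a * Z (a+1) b = - q^… fF hb hR b * Z a (b+1)`, so `Z a (J - a) = 0` for all `a ≤ J` by induction; then `E` and
`{n} ≠ 0` for `1 ≤ n ≤ N`, `n = a + b - J`, give `Z = 0` by induction on `a + b`.

`sp_unique`: likewise with `Z J N = 0`: `F` at `c + d = J + N + 1` (`Z c d = 0` by `supp`) gives `Z c (J + N - c) = 0` for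
`J ≤ c ≤ N` by induction on `c` (`fF ht hR (d - 1) ≠ 0`), and `E` gives the levels below by downward induction.
-/

set_option autoImplicit false

namespace Pool.Agent.H63.CLK

open Pool.Agent.H63.VC7 Pool.Agent.H63.VC10

theorem K_Un_mg (N J : ℕ) (hJ : J ≤ N) (hL hb hR : ℂ) (Z : ℕ → ℕ → ℂ)
    (hg : ∀ i < N, fF N hL hb i ≠ 0) (h : IsMg N J hL hb hR Z) (h0 : Z 0 J = 0) :
    ∀ n a b : ℕ, a + b = J + n → Z a b = 0 := by
  have hlow : ∀ a, a ≤ J → Z a (J - a) = 0 := by
    intro a
    induction a with
    | zero => intro _; exact h0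
    | succ a ih =>
      intro ha
      have ih := ih (by omega)
      have hF := h.F a (J - (a + 1)) (by omega) (by omega) (by omega)
      rw [show J - (a + 1) + 1 = J - a by omega, ih, h.supp a (J - (a + 1)) (by omega), mul_zero,
        mul_zero, add_zero] at hF
      rcases mul_eq_zero.1 hF with h1 | h1
      · exact absurd h1 (hg a (by omega))
      · exact h1
  intro n
  induction n with
  | zero =>
    intro a b hs
    have := hlow a (by omega)
    rwa [show J - a = b by omega] at this
  | succ n ih =>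
    intro a b hs
    by_cases hsupp : J ≤ a + b ∧ a + b ≤ J + N ∧ a ≤ N ∧ b ≤ N
    swap
    · exact h.supp a b hsupp
    obtain ⟨-, h2, h3, h4⟩ := hsupp
    have hE := h.E a b h3 h4
    have hA : br (qz N) a * qz N ^ ((N : ℤ) - 2 * b) * Z (a - 1) b = 0 := by
      rcases Nat.eq_zero_or_pos a with ha | ha
      · subst ha
        rw [Nat.cast_zero, br_zero]
        ring
      · rw [ih (a - 1) b (by omega), mul_zero]
    have hB : br (qz N) b * Z a (b - 1) = 0 := by
      rcases Nat.eq_zero_or_pos b with hb | hb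
      · subst hb
        rw [Nat.cast_zero, br_zero]
        ring
      · rw [ih a (b - 1) (by omega), mul_zero]
    rw [hA, hB, add_zero] at hE
    rcases mul_eq_zero.1 hE with h5 | h5
    · exact absurd h5 (A_Em_br_ne N (by omega) (by omega))
    · exact h5

theorem mg_unique (N J : ℕ) (hJ : J ≤ N) (hL hb hR : ℂ) (M M' : ℕ → ℕ → ℂ)
    (hg : ∀ i < N, fF N hL hb i ≠ 0) (h1 : IsMg N J hL hb hR M) (h2 : IsMg N J hL hb hR M')
    (a b : ℕ) : M' 0 J * M a b = M 0 J * M' a b := by
  have hZ : IsMg N J hL hb hR (fun a b => M' 0 J * M a b - M 0 J * M' a b) := by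
    refine ⟨?_, ?_, ?_⟩
    · intro a b hn
      simp only [h1.supp a b hn, h2.supp a b hn]
      ring
    · intro a b ha hb'
      linear_combination (M' 0 J) * h1.E a b ha hb' - (M 0 J) * h2.E a b ha hb'
    · intro a b ha hb' hs
      linear_combination (M' 0 J) * h1.F a b ha hb' hs - (M 0 J) * h2.F a b ha hb' hs
  by_cases hs : J ≤ a + b
  · have := K_Un_mg N J hJ hL hb hR _ hg hZ (by ring) (a + b - J) a b (by omega)
    linear_combination this
  · rw [h1.supp a b (by omega), h2.supp a b (by omega)]
    ring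

theorem K_Un_sp (N J : ℕ) (hJ : J ≤ N) (hL ht hR : ℂ) (Z : ℕ → ℕ → ℂ)
    (hg : ∀ i < N, fF N ht hR i ≠ 0) (h : IsSp N J hL ht hR Z) (h0 : Z J N = 0) :
    ∀ m c d : ℕ, c + d + m = J + N → Z c d = 0 := by
  have hq := A_Em_qz_ne N
  have hlow : ∀ k, J + k ≤ N → Z (J + k) (N - k) = 0 := by
    intro k
    induction k with
    | zero => intro _; exact h0
    | succ k ih =>
      intro hk
      have ih := ih (by omega)
      have hF := h.F (J + k + 1) (N - k) (by omega) (by omega) (by omega)
      rw [if_neg (by omega), if_neg (by omega), show J + k + 1 - 1 = J + k by omega, ih,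
        h.supp (J + k + 1) (N - k) (by omega), mul_zero, mul_zero, zero_add] at hF
      rcases mul_eq_zero.1 hF with h1 | h1
      · rcases mul_eq_zero.1 h1 with h2 | h2
        · exact absurd h2 (zpow_ne_zero _ hq)
        · exact absurd h2 (hg _ (by omega))
      · rwa [show N - k - 1 = N - (k + 1) by omega] at h1
  intro m
  induction m with
  | zero =>
    intro c d hs
    by_cases hsupp : J ≤ c + d ∧ c + d ≤ J + N ∧ c ≤ N ∧ d ≤ N
    swap
    · exact h.supp c d hsupp
    have := hlow (c - J) (by omega)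
    rwa [show J + (c - J) = c by omega, show N - (c - J) = d by omega] at this
  | succ m ih =>
    intro c d hs
    by_cases hsupp : J ≤ c + d ∧ c + d ≤ J + N ∧ c ≤ N ∧ d ≤ N
    swap
    · exact h.supp c d hsupp
    obtain ⟨h1, -, h3, h4⟩ := hsupp
    have hE := h.E c d h3 h4
    rw [ih (c + 1) d (by omega), ih c (d + 1) (by omega), mul_zero, mul_zero, add_zero] at hE
    rcases mul_eq_zero.1 hE.symm with h5 | h5
    · exact absurd h5 (A_Em_br_ne N (by omega) (by omega))
    · exact h5

theorem sp_unique (N J : ℕ) (hJ : J ≤ N) (hL ht hR : ℂ) (S S' : ℕ → ℕ → ℂ)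
    (hg : ∀ i < N, fF N ht hR i ≠ 0) (h1 : IsSp N J hL ht hR S) (h2 : IsSp N J hL ht hR S')
    (c d : ℕ) : S' J N * S c d = S J N * S' c d := by
  have hZ : IsSp N J hL ht hR (fun c d => S' J N * S c d - S J N * S' c d) := by
    refine ⟨?_, ?_, ?_⟩
    · intro c d hn
      simp only [h1.supp c d hn, h2.supp c d hn]
      ring
    · intro c d hc hd
      linear_combination (S' J N) * h1.E c d hc hd - (S J N) * h2.E c d hc hd
    · intro c d hc hd hs
      have e1 := h1.F c d hc hd hs
      have e2 := h2.F c d hc hd hs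
      split_ifs at e1 e2 ⊢
      · linear_combination (S' J N) * e1 - (S J N) * e2
      · linear_combination (S' J N) * e1 - (S J N) * e2
      · linear_combination (S' J N) * e1 - (S J N) * e2
      · linear_combination (S' J N) * e1 - (S J N) * e2
  by_cases hs : c + d ≤ J + N
  · have := K_Un_sp N J hJ hL ht hR _ hg hZ (by ring) (J + N - (c + d)) c d (by omega)
    linear_combination this
  · rw [h1.supp c d (by omega), h2.supp c d (by omega)]
    ring

end Pool.Agent.H63.CLK
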