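import Pool.Agent.H63.CLK.K_X
import Pool.Agent.H63.CLK.K_Un
import Pool.Agent.H63.CLK.K_Fl

/-!
# All directions, algebra: the flip of the operator of level `J`

`flipX (XJ J h)` is the product of the flipped splitting and merging (`sp_flip`, `mg_flip`; the factors `gJ` cancel), so it is
a multiple of `XJ (N - J) (hfl h)` by `sp_unique`, `mg_unique` (`isSp`, `isMg`, `SJ_top`, `MJ_zero`, `fF_ne`). The factor is
obtained from the entry with the row `(N, 0)` and the column `(0, N)`: the entry of `XJ N J' h'` there is `WJ N J' h' 0 0 N`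
(`XJ_rule` for `(0, 0, N)`: `flz 0 0 N = ib N • e_0 ⊗ e_N`, and `flz 0 B β (N, 0) ≠ 0` only for `β = 0`), and the entry of
`XJ N J h` with the row `(0, N)` and the column `(N, 0)` is `WJ N J h 0 N 0`. Checked numerically.
-/

set_option autoImplicit false

namespace Pool.Agent.H63.CLK

open Pool.Agent.H63.VC7 Pool.Agent.H63.VC10

/-- The factor. -/
noncomputable def kapJ (N J : ℕ) (h : Fin 4 → ℂ) : ℂ :=
  starRingEnd ℂ (WJ N J h 0 N 0 * (gtf N (h 3) (h 0) 0 * gtf N (h 0) (h 1) N) /
    (gtf N (h 3) (h 2) N * gtf N (h 2) (h 1) 0)) / WJ N (N - J) (hfl h) 0 0 N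

theorem hfl_small (h : Fin 4 → ℂ) (hs : SmallH h) : SmallH (hfl h) := by
  intro k
  simpa [hfl] using hs k

private theorem K_Kap_diff (h : Fin 4 → ℂ) (hs : SmallH h) (i j : Fin 4) :
    ‖h i - h j‖ ≤ 1 / 4 := by
  have h1 := norm_sub_le (h i) (h j)
  have h2 := hs i
  have h3 := hs j
  linarith

private theorem K_Kap_ib (N n : ℕ) (hn : n ≤ N) : ib N (n : ℤ) ≠ 0 := by
  rw [ib_nat]
  exact inv_ne_zero (A_Em_brf_ne N hn)

theorem WJ_right_ne (N J : ℕ) (hJ : J ≤ N) (h : Fin 4 → ℂ) (hs : SmallH h) :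
    WJ N J h 0 0 N ≠ 0 := by
  rw [WJ_right N J h hJ N le_rfl, if_pos hJ]
  have e1 : pch N ((N : ℂ) - J + h 3 - h 2) J ≠ 0 := by
    unfold pch
    rw [Finset.prod_ne_zero_iff]
    intro i hi
    rw [Finset.mem_range] at hi
    have := bh_ne_small N (N - J + i + 1) (h 3 - h 2) (by omega) (by omega)
      (K_Kap_diff h hs 3 2)
    rw [show (N : ℂ) - J + h 3 - h 2 + i + 1 = ((N - J + i + 1 : ℕ) : ℂ) + (h 3 - h 2) by
      push_cast [Nat.cast_sub hJ]; ring]
    exact this
  have e2 : pch N ((J : ℂ) + h 0 - h 3) (N - J) ≠ 0 := by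
    unfold pch
    rw [Finset.prod_ne_zero_iff]
    intro i hi
    rw [Finset.mem_range] at hi
    have := bh_ne_small N (J + i + 1) (h 0 - h 3) (by omega) (by omega)
      (K_Kap_diff h hs 0 3)
    rw [show (J : ℂ) + h 0 - h 3 + i + 1 = ((J + i + 1 : ℕ) : ℂ) + (h 0 - h 3) by
      push_cast; ring]
    exact this
  have e3 : ib N ((N : ℤ) - N) ≠ 0 := by
    rw [sub_self, ib_zero]
    exact one_ne_zero
  have e4 : ib N ((N : ℤ) - J) ≠ 0 := by
    rw [show (N : ℤ) - J = ((N - J : ℕ) : ℤ) by omega]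
    exact K_Kap_ib N (N - J) (by omega)
  rw [Nat.sub_self, pch_zero]
  exact mul_ne_zero (mul_ne_zero (qh_ne _ _) (mul_ne_zero (mul_ne_zero e1 one_ne_zero) e2))
    (mul_ne_zero (mul_ne_zero (K_Kap_ib N J hJ) e3) e4)

/-- The entry of `XJ` with the row `(N, 0)` and the column `(0, N)`. -/
private theorem K_Kap_right (N J : ℕ) (h : Fin 4 → ℂ) (hJ : J ≤ N) :
    XJ N J h (Fin.last N, 0) (0, Fin.last N) = WJ N J h 0 0 N := by
  have hr := XJ_rule N J h hJ 0 0 N (Nat.zero_le N) (Nat.zero_le N) le_rfl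
    ((Fin.last N, 0) : I2 N)
  have hl : ∑ y : I2 N, XJ N J h (Fin.last N, 0) y *
      flz N (0 : ℕ) (0 : ℕ) N (y.1 : ℕ) (y.2 : ℕ) =
      XJ N J h (Fin.last N, 0) (0, Fin.last N) * ib N N := by
    rw [Finset.sum_eq_single ((0, Fin.last N) : I2 N)]
    · have := flz_basis N 0 N 0 N
      simp only [Nat.cast_zero, Fin.val_zero, Fin.val_last] at this ⊢
      rw [this]
      simp [ib_zero]
    · intro y _ hy
      have := flz_basis N 0 N (y.1 : ℕ) (y.2 : ℕ)
      simp only [Nat.cast_zero] at this ⊢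
      rw [this, if_neg, mul_zero]
      rintro ⟨h1, h2⟩
      exact hy (Prod.ext (Fin.ext (by simpa using h1)) (Fin.ext (by simpa using h2)))
    · intro hh
      exact absurd (Finset.mem_univ _) hh
  rw [hl] at hr
  rw [Finset.sum_eq_single 0] at hr
  · rw [Finset.sum_eq_single N] at hr
    · rw [if_pos (by omega)] at hr
      have hf : flz N ((0 : ℕ) - (0 : ℕ)) ((0 : ℕ) + (0 : ℕ) + N) ((N : ℤ) - N)
          ((Fin.last N : Fin (N + 1)) : ℕ) ((0 : Fin (N + 1)) : ℕ) = ib N N := by
        unfold flz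
        simp [ib_zero]
      have hr2 : XJ N J h (Fin.last N, 0) (0, Fin.last N) * ib N N = WJ N J h 0 0 N * ib N N := by
        rw [hr]
        congr 1
      exact mul_right_cancel₀ (K_Kap_ib N N le_rfl) hr2
    · intro b hb hbN
      rw [Finset.mem_range] at hb
      split_ifs with hc
      · rw [flz_neg, mul_zero]
        right; right; right
        simp only [Fin.val_zero]
        omega
      · rfl
    · intro hh
      exact absurd (Finset.mem_range.mpr (Nat.lt_succ_self N)) hh
  · intro a ha ha0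
    apply Finset.sum_eq_zero
    intro b hb
    split_ifs with hc
    · rw [flz_neg, mul_zero]
      left
      omega
    · rfl
  · intro hh
    exact absurd (Finset.mem_range.mpr (Nat.succ_pos N)) hh

/-- The entry of `XJ` with the row `(0, N)` and the column `(N, 0)`. -/
private theorem K_Kap_left (N J : ℕ) (h : Fin 4 → ℂ) (hJ : J ≤ N) :
    XJ N J h (0, Fin.last N) (Fin.last N, 0) = WJ N J h 0 N 0 := by
  have hr := XJ_rule N J h hJ N 0 0 le_rfl (Nat.zero_le N) (Nat.zero_le N)
    ((0, Fin.last N) : I2 N)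
  have hl : ∑ y : I2 N, XJ N J h (0, Fin.last N) y *
      flz N N (0 : ℕ) (0 : ℕ) (y.1 : ℕ) (y.2 : ℕ) =
      XJ N J h (0, Fin.last N) (Fin.last N, 0) * (qz N ^ (-((N : ℤ) * N)) * ib N N) := by
    rw [Finset.sum_eq_single ((Fin.last N, 0) : I2 N)]
    · have := flz_basis N N 0 N 0
      simp only [Nat.cast_zero, Fin.val_zero, Fin.val_last] at this ⊢
      rw [this]
      simp [ib_zero]
    · intro y _ hy
      have := flz_basis N N 0 (y.1 : ℕ) (y.2 : ℕ)
      simp only [Nat.cast_zero] at this ⊢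
      rw [this, if_neg, mul_zero]
      rintro ⟨h1, h2⟩
      exact hy (Prod.ext (Fin.ext (by simpa using h1)) (Fin.ext (by simpa using h2)))
    · intro hh
      exact absurd (Finset.mem_univ _) hh
  rw [hl] at hr
  have hq : qz N ^ (-((N : ℤ) * N)) * ib N N ≠ 0 :=
    mul_ne_zero (zpow_ne_zero _ (A_Em_qz_ne N)) (K_Kap_ib N N le_rfl)
  rw [Finset.sum_eq_single N] at hr
  · rw [Finset.sum_eq_single 0] at hr
    · rw [if_pos (by omega)] at hr
      have hf : flz N ((N : ℤ) - N) ((0 : ℕ) + N + (0 : ℕ)) ((0 : ℕ) - (0 : ℕ))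
          ((0 : Fin (N + 1)) : ℕ) ((Fin.last N : Fin (N + 1)) : ℕ) =
          qz N ^ (-((N : ℤ) * N)) * ib N N := by
        unfold flz
        simp [ib_zero]
      have hr2 : XJ N J h (0, Fin.last N) (Fin.last N, 0) *
          (qz N ^ (-((N : ℤ) * N)) * ib N N) =
          WJ N J h 0 N 0 * (qz N ^ (-((N : ℤ) * N)) * ib N N) := by
        rw [hr]
        congr 1
      exact mul_right_cancel₀ hq hr2
    · intro b hb hbN
      rw [Finset.mem_range] at hb
      split_ifs with hc
      · rw [flz_neg, mul_zero]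
        right; left
        omega
      · rfl
    · intro hh
      exact absurd (Finset.mem_range.mpr (Nat.succ_pos N)) hh
  · intro a ha ha0
    rw [Finset.mem_range] at ha
    apply Finset.sum_eq_zero
    intro b hb
    split_ifs with hc
    · rw [flz_neg, mul_zero]
      right; right; left
      simp only [Fin.val_zero]
      omega
    · rfl
  · intro hh
    exact absurd (Finset.mem_range.mpr (Nat.lt_succ_self N)) hh

private theorem K_Kap_gJ (N J : ℕ) (h : Fin 4 → ℂ) (hs : SmallH h) (hη : h 3 ≠ h 1) (n : ℕ)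
    (hn : n ≤ N) : gJ N J (h 3) (h 1) n ≠ 0 := by
  unfold gJ
  rw [Finset.prod_ne_zero_iff]
  intro i hi
  rw [Finset.mem_range] at hi
  exact div_ne_zero (neg_ne_zero.mpr (mul_ne_zero (A_Em_br_ne N (by omega) (by omega))
    (zpow_ne_zero _ (A_Em_qz_ne N)))) (fJ_ne N J (h 3) (h 1) (hs 3) (hs 1) hη i)

theorem flip_XJ (N J : ℕ) (hJ : J ≤ N) (h : Fin 4 → ℂ) (hs : SmallH h) (hη : h 3 ≠ h 1) :
    flipX N h (XJ N J h) = kapJ N J h • XJ N (N - J) (hfl h) := by
  have hs' := hfl_small h hs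
  have hJ' : N - J ≤ N := Nat.sub_le N J
  have hM := mg_flip N J hJ h hs hη (MJ N J h) (isMg N J h hJ)
  have hS := sp_flip N J hJ h hs hη (SJ N J h) (isSp N J h hJ)
  set Sf : ℕ → ℕ → ℂ := fun c d => if c ≤ N ∧ d ≤ N then
      starRingEnd ℂ (SJ N J h (N - c) (N - d) *
        (gtf N (h 3) (h 0) (N - c) * gtf N (h 0) (h 1) (N - d)) /
        gJ N J (h 3) (h 1) (2 * N - c - d - J)) else 0 with hSf
  set Mf : ℕ → ℕ → ℂ := fun a b => if a ≤ N ∧ b ≤ N then
      starRingEnd ℂ (MJ N J h (N - a) (N - b) * gJ N J (h 3) (h 1) (2 * N - a - b - J) /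
        (gtf N (h 3) (h 2) (N - a) * gtf N (h 2) (h 1) (N - b))) else 0 with hMf
  have uM := mg_unique N (N - J) hJ' (hfl h 3) (hfl h 2) (hfl h 1) Mf (MJ N (N - J) (hfl h))
    (fun i hi => fF_ne N _ _ (hs' 3) (hs' 2) i hi) hM (isMg N (N - J) (hfl h) hJ')
  have uS := sp_unique N (N - J) hJ' (hfl h 3) (hfl h 0) (hfl h 1) Sf (SJ N (N - J) (hfl h))
    (fun i hi => fF_ne N _ _ (hs' 0) (hs' 1) i hi) hS (isSp N (N - J) (hfl h) hJ')
  have m0 := MJ_zero N (N - J) (hfl h) hJ' hs'
  have s0 := SJ_top N (N - J) (hfl h) hJ' hs'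
  have hM' : ∀ a b, Mf a b = Mf 0 (N - J) / MJ N (N - J) (hfl h) 0 (N - J) *
      MJ N (N - J) (hfl h) a b := by
    intro a b
    rw [div_mul_eq_mul_div, eq_div_iff m0, mul_comm (Mf a b), uM a b]
  have hS' : ∀ c d, Sf c d = Sf (N - J) N / SJ N (N - J) (hfl h) (N - J) N *
      SJ N (N - J) (hfl h) c d := by
    intro c d
    rw [div_mul_eq_mul_div, eq_div_iff s0, mul_comm (Sf c d), uS c d]
  set κ : ℂ := Sf (N - J) N / SJ N (N - J) (hfl h) (N - J) N *
    (Mf 0 (N - J) / MJ N (N - J) (hfl h) 0 (N - J)) with hκ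
  have key : ∀ x y : I2 N, flipX N h (XJ N J h) x y = κ * XJ N (N - J) (hfl h) x y := by
    rintro ⟨c, d⟩ ⟨a, b⟩
    have hc := Nat.lt_succ_iff.mp c.isLt
    have hd := Nat.lt_succ_iff.mp d.isLt
    have ha := Nat.lt_succ_iff.mp a.isLt
    have hb := Nat.lt_succ_iff.mp b.isLt
    have rc : (c.rev : ℕ) = N - c := by rw [Fin.val_rev]; omega
    have rd : (d.rev : ℕ) = N - d := by rw [Fin.val_rev]; omega
    have ra : (a.rev : ℕ) = N - a := by rw [Fin.val_rev]; omega
    have rb : (b.rev : ℕ) = N - b := by rw [Fin.val_rev]; omega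
    by_cases hw : (c : ℕ) + d = a + b
    · have h1 : XJ N (N - J) (hfl h) (c, d) (a, b) =
          SJ N (N - J) (hfl h) c d * MJ N (N - J) (hfl h) a b := by
        unfold XJ
        rw [if_pos hw]
      have h2 : XJ N J h (c.rev, d.rev) (a.rev, b.rev) =
          SJ N J h (N - c) (N - d) * MJ N J h (N - a) (N - b) := by
        unfold XJ
        simp only [rc, rd, ra, rb]
        rw [if_pos (by omega)]
      have h3 : flipX N h (XJ N J h) (c, d) (a, b) = Sf c d * Mf a b := by
        unfold flipX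
        simp only
        rw [h2, hSf, hMf]
        simp only
        rw [if_pos ⟨hc, hd⟩, if_pos ⟨ha, hb⟩, ← map_mul]
        congr 1
        by_cases hlow : N - J ≤ (c : ℕ) + d
        · have hg := K_Kap_gJ N J h hs hη (2 * N - c - d - J) (by omega)
          have hg' : 2 * N - (a : ℕ) - b - J = 2 * N - c - d - J := by omega
          rw [hg']
          generalize gJ N J (h 3) (h 1) (2 * N - c - d - J) = g at hg
          generalize gtf N (h 3) (h 0) (N - c) * gtf N (h 0) (h 1) (N - d) = G1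
          generalize gtf N (h 3) (h 2) (N - a) * gtf N (h 2) (h 1) (N - b) = G2
          generalize SJ N J h (N - c) (N - d) = s
          generalize MJ N J h (N - a) (N - b) = m
          rw [div_mul_div_comm, mul_comm g G2, show s * G1 * (m * g) = (s * m * G1) * g by ring,
            mul_div_mul_right _ _ hg]
        · have hz : SJ N J h (N - c) (N - d) = 0 :=
            (isSp N J h hJ).supp _ _ (by omega)
          rw [hz]
          simp
      rw [h3, h1, hS' c d, hM' a b, hκ]
      ring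
    · have h1 : XJ N (N - J) (hfl h) (c, d) (a, b) = 0 := by
        unfold XJ
        rw [if_neg hw]
      have h2 : XJ N J h (c.rev, d.rev) (a.rev, b.rev) = 0 := by
        unfold XJ
        simp only [rc, rd, ra, rb]
        rw [if_neg (by omega)]
      unfold flipX
      simp only
      rw [h1, h2]
      simp
  have hκ2 : κ = kapJ N J h := by
    have hk := key (Fin.last N, 0) (0, Fin.last N)
    rw [K_Kap_right N (N - J) (hfl h) hJ'] at hk
    have hf : flipX N h (XJ N J h) (Fin.last N, 0) (0, Fin.last N) =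
        starRingEnd ℂ (WJ N J h 0 N 0 * (gtf N (h 3) (h 0) 0 * gtf N (h 0) (h 1) N) /
          (gtf N (h 3) (h 2) N * gtf N (h 2) (h 1) 0)) := by
      unfold flipX
      simp only [Fin.rev_last, Fin.val_last, Fin.val_zero, Nat.sub_self, Nat.sub_zero]
      rw [show (Fin.rev (0 : Fin (N + 1))) = Fin.last N from Fin.rev_zero N,
        K_Kap_left N J h hJ]
    rw [hf] at hk
    unfold kapJ
    rw [hk, mul_div_assoc, div_self (WJ_right_ne N (N - J) hJ' (hfl h) hs'), mul_one]
  ext x y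
  rw [Matrix.smul_apply, smul_eq_mul, key x y, hκ2]

end Pool.Agent.H63.CLK
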