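import Pool.Agent.H63.CLK.N_SN
import Pool.Agent.H63.CLK.K_Kap

/-!
# All directions, analysis: the bound for the factor of the duality

`WJ_left`, `WJ_right` (with `s = N`), `gtf 0 = rrf`, `gtf N = q^(N N + 2 N) {N}! / PPf * rrf`, `rrf_sq`, so that `‖kapJ‖` is a product
of quotients of the form `∏_{i=1}^{n} |sin (π (p + i + δ) / M)| / ∏_{i=1}^{n} |sin (π (p + i + δ') / M)|` with
`1 ≤ p + i ≤ N`, `‖δ‖, ‖δ'‖ ≤ 1/4`, of square roots of such quotients (`PPf = q^… ∏_{p=1}^{N} {p + hb - ha}`, `qh_sub`), and of bounded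
phases. Each factor: with `j = p + i`, `1 ≤ j ≤ N`, `d = min (j, M - j) ≥ 1`:
`|sin (π (j + δ) / M) / sin (π j / M)| = |cos (π δ / M) + cot (π j / M) sin (π δ / M)|` lies between `1 - C / d` and
`1 + C / d`; for a lower bound, which is needed for all `d ≥ 1`: `|sin (x + i y)|² = sin² x + sinh² y ≥ sin² x` and
`sin (π (j + Re δ) / M) ≥ (1 - |Re δ| / d) sin (π j / M)` for `d ≥ 1` (concavity of the sine on `[0, π]`), with `1 - 1 / (4 d) ≥
exp (- 1 / (3 d))` or so. `∏ (1 + C / d) ≤ C' M^(2 C)`, `∏ (1 - 1/(4d)) ≥ c M^(-1)`.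
-/

set_option autoImplicit false

namespace Pool.Agent.H63.CLK

open Pool.Agent.H63.VC hiding ext
open Pool.Agent.H63.VC3 Pool.Agent.H63.VC4 Pool.Agent.H63.VC7 Complex Filter Topology
open scoped BigOperators

private theorem N_Kap_norm_qh (N : ℕ) (x : ℂ) :
    ‖qh N x‖ = Real.exp (-(Real.pi * x.im / ((N + 1 : ℕ) : ℝ))) := by
  unfold qh
  rw [Complex.norm_exp]
  congr 1
  have h : (Real.pi : ℂ) * Complex.I * x / ((N + 1 : ℕ) : ℂ) =
      ((Real.pi / ((N + 1 : ℕ) : ℝ) : ℝ) : ℂ) * (Complex.I * x) := by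
    push_cast; ring
  rw [h, Complex.re_ofReal_mul, Complex.I_mul_re]
  ring

private theorem N_Kap_bh_sin (N : ℕ) (x : ℂ) :
    bh N x = 2 * Complex.I * Complex.sin (((Real.pi / ((N + 1 : ℕ) : ℝ) : ℝ) : ℂ) * x) := by
  unfold bh qh
  rw [Complex.sin]
  have h1 : (Real.pi : ℂ) * Complex.I * x / ((N + 1 : ℕ) : ℂ) =
      ((Real.pi / ((N + 1 : ℕ) : ℝ) : ℝ) : ℂ) * x * Complex.I := by
    push_cast; ring
  have h2 : (Real.pi : ℂ) * Complex.I * (-x) / ((N + 1 : ℕ) : ℂ) =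
      -(((Real.pi / ((N + 1 : ℕ) : ℝ) : ℝ) : ℂ) * x) * Complex.I := by
    push_cast; ring
  rw [h1, h2]
  have hI : Complex.I * Complex.I = -1 := Complex.I_mul_I
  linear_combination (-(Complex.exp (-(((Real.pi / ((N + 1 : ℕ) : ℝ) : ℝ) : ℂ) * x) * Complex.I) -
    Complex.exp (((Real.pi / ((N + 1 : ℕ) : ℝ) : ℝ) : ℂ) * x * Complex.I))) * hI

private theorem N_Kap_sin_norm (z : ℂ) : |Real.sin z.re| ≤ ‖Complex.sin z‖ := by
  refine le_trans ?_ (Complex.abs_re_le_norm _)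
  rw [Complex.sin_eq]
  have h : (Complex.sin z.re * Complex.cosh z.im + Complex.cos z.re * Complex.sinh z.im * Complex.I).re
      = Real.sin z.re * Real.cosh z.im := by
    rw [← Complex.ofReal_sin, ← Complex.ofReal_cos, ← Complex.ofReal_cosh, ← Complex.ofReal_sinh,
      ← Complex.ofReal_mul, ← Complex.ofReal_mul, Complex.add_re, Complex.ofReal_re,
      Complex.re_ofReal_mul, Complex.I_re, mul_zero, add_zero]
  rw [h, abs_mul]
  have := Real.one_le_cosh z.im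
  have h0 : |Real.cosh z.im| = Real.cosh z.im := abs_of_pos (Real.cosh_pos _)
  rw [h0]
  nlinarith [abs_nonneg (Real.sin z.re)]

/-- The lower bound of a bracket. -/
private theorem N_Kap_low (N j : ℕ) (δ : ℂ) (h1 : 1 ≤ j) (h2 : j ≤ N) (hδ : ‖δ‖ ≤ 1 / 4) (d : ℝ)
    (hd : d ≤ j) (hd' : d ≤ (N : ℝ) + 1 - j) (hd1 : 1 ≤ d) :
    3 * d / ((N : ℝ) + 1) ≤ ‖bh N (j + δ)‖ := by
  have hM : (0 : ℝ) < (N : ℝ) + 1 := by positivity
  have hre : |δ.re| ≤ 1 / 4 := (Complex.abs_re_le_norm δ).trans hδ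
  obtain ⟨ha, hb⟩ := abs_le.1 hre
  rw [N_Kap_bh_sin, norm_mul, norm_mul]
  have hn2 : ‖(2 : ℂ)‖ = 2 := by simp
  rw [hn2, Complex.norm_I]
  set z : ℂ := ((Real.pi / ((N + 1 : ℕ) : ℝ) : ℝ) : ℂ) * ((j : ℂ) + δ) with hz
  have hzre : z.re = Real.pi / ((N : ℝ) + 1) * (j + δ.re) := by
    rw [hz, Complex.re_ofReal_mul]
    push_cast
    simp
  have hs := N_Kap_sin_norm z
  rw [hzre] at hs
  have hpi := Real.pi_pos
  have key : 3 * d / ((N : ℝ) + 1) ≤ 2 * Real.sin (Real.pi / ((N : ℝ) + 1) * (j + δ.re)) := by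
    have hj1 : (1 : ℝ) ≤ j := by exact_mod_cast h1
    have hj2 : (j : ℝ) ≤ N := by exact_mod_cast h2
    by_cases hc : Real.pi / ((N : ℝ) + 1) * (j + δ.re) ≤ Real.pi / 2
    · have h0 : 0 ≤ Real.pi / ((N : ℝ) + 1) * (j + δ.re) := by
        apply mul_nonneg (by positivity); linarith
      have := Real.mul_le_sin h0 hc
      have h3 : 2 / Real.pi * (Real.pi / ((N : ℝ) + 1) * (j + δ.re)) = 2 * (j + δ.re) / ((N : ℝ) + 1) := by
        field_simp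
      rw [h3] at this
      refine le_trans ?_ (mul_le_mul_of_nonneg_left this (by norm_num))
      rw [div_le_iff₀ hM]
      have h4 : 2 * (2 * (↑j + δ.re) / (↑N + 1)) * ((N : ℝ) + 1) = 4 * (j + δ.re) := by
        field_simp; ring
      rw [h4]; linarith
    · push Not at hc
      have h0 : 0 ≤ Real.pi - Real.pi / ((N : ℝ) + 1) * (j + δ.re) := by
        have : Real.pi - Real.pi / ((N : ℝ) + 1) * (j + δ.re) =
            Real.pi / ((N : ℝ) + 1) * ((N : ℝ) + 1 - j - δ.re) := by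
          field_simp
          ring
        rw [this]
        apply mul_nonneg (by positivity); linarith
      have := Real.mul_le_sin h0 (by linarith)
      rw [Real.sin_pi_sub] at this
      have h3 : 2 / Real.pi * (Real.pi - Real.pi / ((N : ℝ) + 1) * (j + δ.re)) =
          2 * ((N : ℝ) + 1 - j - δ.re) / ((N : ℝ) + 1) := by
        field_simp
        ring
      rw [h3] at this
      refine le_trans ?_ (mul_le_mul_of_nonneg_left this (by norm_num))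
      rw [div_le_iff₀ hM]
      have h4 : 2 * (2 * ((N : ℝ) + 1 - j - δ.re) / (↑N + 1)) * ((N : ℝ) + 1) =
          4 * ((N : ℝ) + 1 - j - δ.re) := by
        field_simp; ring
      rw [h4]; linarith
  have h5 := le_abs_self (Real.sin (Real.pi / ((N : ℝ) + 1) * (j + δ.re)))
  linarith

private theorem N_Kap_qh_bd (N : ℕ) (x : ℂ) (hx : |x.im| ≤ 1 / 4) : ‖qh N x‖ ≤ 3 := by
  rw [N_Kap_norm_qh]
  have hM : (1 : ℝ) ≤ ((N + 1 : ℕ) : ℝ) := by push_cast; linarith [Nat.cast_nonneg (α := ℝ) N]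
  have hpi := Real.pi_pos
  have h4 := Real.pi_le_four
  have h1 : -(Real.pi * x.im / ((N + 1 : ℕ) : ℝ)) ≤ 1 := by
    rw [← neg_div, div_le_iff₀ (by linarith)]
    have := (abs_le.1 hx).1
    nlinarith
  calc Real.exp (-(Real.pi * x.im / ((N + 1 : ℕ) : ℝ))) ≤ Real.exp 1 := Real.exp_le_exp.2 h1
    _ ≤ 3 := by linarith [Real.exp_one_lt_d9]

private theorem N_Kap_add (N : ℕ) (x y : ℂ) : qh N (x + y) = qh N x * qh N y := by
  unfold qh
  rw [← Complex.exp_add]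
  congr 1; ring

private theorem N_Kap_qdiff (N : ℕ) (hN : 1 ≤ N) (x y : ℂ) (hy : |y.im| ≤ 1 / 4)
    (hxy : ‖x - y‖ ≤ 1 / 2) : ‖qh N x - qh N y‖ ≤ 12 / ((N : ℝ) + 1) := by
  have hM : (0 : ℝ) < (N : ℝ) + 1 := by positivity
  have h1 : qh N x - qh N y = qh N y * (qh N (x - y) - 1) := by
    have : qh N x = qh N y * qh N (x - y) := by rw [← N_Kap_add]; congr 1; ring
    rw [this]; ring
  rw [h1, norm_mul]
  have h2 := N_Kap_qh_bd N y hy
  have hN1 : (1 : ℝ) ≤ N := by exact_mod_cast hN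
  have hnz : ‖(Real.pi : ℂ) * Complex.I * (x - y) / ((N + 1 : ℕ) : ℂ)‖ ≤ 2 / ((N : ℝ) + 1) := by
    rw [norm_div, norm_mul, norm_mul, Complex.norm_I]
    have e1 : ‖(Real.pi : ℂ)‖ = Real.pi := by
      rw [Complex.norm_real]; exact abs_of_pos Real.pi_pos
    have e2 : ‖((N + 1 : ℕ) : ℂ)‖ = (N : ℝ) + 1 := by
      rw [Complex.norm_natCast]; push_cast; ring
    rw [e1, e2]
    apply div_le_div_of_nonneg_right _ hM.le
    nlinarith [Real.pi_le_four, Real.pi_pos, norm_nonneg (x - y)]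
  have h3 : ‖qh N (x - y) - 1‖ ≤ 4 / ((N : ℝ) + 1) := by
    unfold qh
    have hle : ‖(Real.pi : ℂ) * Complex.I * (x - y) / ((N + 1 : ℕ) : ℂ)‖ ≤ 1 := by
      refine hnz.trans ?_
      rw [div_le_one hM]; linarith
    have := Complex.norm_exp_sub_one_le hle
    refine this.trans ?_
    calc 2 * ‖(Real.pi : ℂ) * Complex.I * (x - y) / ((N + 1 : ℕ) : ℂ)‖
        ≤ 2 * (2 / ((N : ℝ) + 1)) := by linarith
      _ = 4 / ((N : ℝ) + 1) := by ring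
  calc ‖qh N y‖ * ‖qh N (x - y) - 1‖ ≤ 3 * (4 / ((N : ℝ) + 1)) :=
        mul_le_mul h2 h3 (norm_nonneg _) (by norm_num)
    _ = 12 / ((N : ℝ) + 1) := by ring

/-- The ratio of two brackets. -/
private theorem N_Kap_ratio (N j : ℕ) (δ δ' : ℂ) (h1 : 1 ≤ j) (h2 : j ≤ N) (hδ : ‖δ‖ ≤ 1 / 4)
    (hδ' : ‖δ'‖ ≤ 1 / 4) :
    ‖bh N (j + δ)‖ ≤ Real.exp (8 / j + 8 / ((N : ℝ) + 1 - j)) * ‖bh N (j + δ')‖ := by
  have hM : (0 : ℝ) < (N : ℝ) + 1 := by positivity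
  have hj1 : (1 : ℝ) ≤ j := by exact_mod_cast h1
  have hj2 : (j : ℝ) ≤ N := by exact_mod_cast h2
  have hN : 1 ≤ N := h1.trans h2
  have him : |δ.im| ≤ 1 / 4 := (Complex.abs_im_le_norm δ).trans hδ
  have him' : |δ'.im| ≤ 1 / 4 := (Complex.abs_im_le_norm δ').trans hδ'
  have hdd : ‖δ - δ'‖ ≤ 1 / 2 := (norm_sub_le _ _).trans (by linarith)
  set d : ℝ := min (j : ℝ) ((N : ℝ) + 1 - j) with hd
  have hd1 : 1 ≤ d := le_min hj1 (by linarith)
  have hlow := N_Kap_low N j δ' h1 h2 hδ' d (min_le_left _ _) (min_le_right _ _) hd1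
  have hdiff : ‖bh N (j + δ) - bh N (j + δ')‖ ≤ 24 / ((N : ℝ) + 1) := by
    have e : bh N (j + δ) - bh N (j + δ') = (qh N (j + δ) - qh N (j + δ')) -
        (qh N (-(j + δ)) - qh N (-(j + δ'))) := by
      unfold bh; ring
    rw [e]
    refine (norm_sub_le _ _).trans ?_
    have a1 := N_Kap_qdiff N hN (j + δ) (j + δ') (by simpa using him') (by
      have : ((j : ℂ) + δ) - (j + δ') = δ - δ' := by ring
      rw [this]; exact hdd)
    have a2 := N_Kap_qdiff N hN (-(j + δ)) (-(j + δ')) (by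
        simpa [abs_neg] using him') (by
      have : (-((j : ℂ) + δ)) - (-(j + δ')) = -(δ - δ') := by ring
      rw [this, norm_neg]; exact hdd)
    calc _ ≤ 12 / ((N : ℝ) + 1) + 12 / ((N : ℝ) + 1) := add_le_add a1 a2
      _ = 24 / ((N : ℝ) + 1) := by ring
  have hd0 : 0 < d := by linarith
  have hup : ‖bh N (j + δ)‖ ≤ (1 + 8 / d) * ‖bh N (j + δ')‖ := by
    have b1 : ‖bh N (j + δ)‖ ≤ ‖bh N (j + δ')‖ + 24 / ((N : ℝ) + 1) := by
      have := norm_add_le (bh N (j + δ) - bh N (j + δ')) (bh N (j + δ'))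
      rw [sub_add_cancel] at this
      linarith
    have b2 : 24 / ((N : ℝ) + 1) = 8 / d * (3 * d / ((N : ℝ) + 1)) := by
      field_simp
      norm_num
    have b3 : 8 / d * (3 * d / ((N : ℝ) + 1)) ≤ 8 / d * ‖bh N (j + δ')‖ :=
      mul_le_mul_of_nonneg_left hlow (by positivity)
    rw [b2] at b1
    linarith
  refine hup.trans (mul_le_mul_of_nonneg_right ?_ (norm_nonneg _))
  have hexp : 1 + 8 / d ≤ Real.exp (8 / d) := by
    have := Real.add_one_le_exp (8 / d); linarith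
  refine hexp.trans (Real.exp_le_exp.2 ?_)
  have hMj : 0 < (N : ℝ) + 1 - j := by linarith
  rcases min_choice (j : ℝ) ((N : ℝ) + 1 - j) with hm | hm
  · rw [hd, hm]
    have : 0 ≤ 8 / ((N : ℝ) + 1 - j) := by positivity
    linarith
  · rw [hd, hm]
    have : 0 ≤ 8 / (j : ℝ) := by positivity
    linarith

private theorem N_Kap_harm (N : ℕ) (hN : 1 ≤ N) :
    ∑ j ∈ Finset.Icc 1 N, (1 : ℝ) / j ≤ 1 + Real.log N := by
  have h := harmonic_le_one_add_log N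
  have e : ((harmonic N : ℚ) : ℝ) = ∑ j ∈ Finset.Icc 1 N, (1 : ℝ) / j := by
    rw [harmonic_eq_sum_Icc]
    push_cast
    apply Finset.sum_congr rfl
    intro j _
    rw [one_div]
  rw [← e]; exact h

private theorem N_Kap_sum (N p x : ℕ) (hN : 1 ≤ N) (hpx : p + x ≤ N) :
    ∑ i ∈ Finset.range x, (8 / ((p + i + 1 : ℕ) : ℝ) + 8 / ((N : ℝ) + 1 - ((p + i + 1 : ℕ) : ℝ))) ≤
      16 * (1 + Real.log N) := by
  have h1 : ∑ i ∈ Finset.range x, (8 / ((p + i + 1 : ℕ) : ℝ) +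
      8 / ((N : ℝ) + 1 - ((p + i + 1 : ℕ) : ℝ))) ≤
      ∑ j ∈ Finset.Icc 1 N, (8 / (j : ℝ) + 8 / ((N : ℝ) + 1 - (j : ℝ))) := by
    rw [← Finset.sum_image (f := fun j : ℕ => (8 / (j : ℝ) + 8 / ((N : ℝ) + 1 - (j : ℝ))))
      (g := fun i : ℕ => p + i + 1) (s := Finset.range x)]
    · apply Finset.sum_le_sum_of_subset_of_nonneg
      · intro j hj
        rw [Finset.mem_image] at hj
        obtain ⟨i, hi, rfl⟩ := hj
        rw [Finset.mem_range] at hi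
        rw [Finset.mem_Icc]; omega
      · intro j hj _
        rw [Finset.mem_Icc] at hj
        have hj2 : (j : ℝ) ≤ N := by exact_mod_cast hj.2
        have : 0 < (N : ℝ) + 1 - j := by linarith
        positivity
    · intro a _ b _ hab
      simp only at hab
      omega
  refine h1.trans ?_
  rw [Finset.sum_add_distrib]
  have h2 : ∑ j ∈ Finset.Icc 1 N, (8 / ((N : ℝ) + 1 - (j : ℝ))) = ∑ j ∈ Finset.Icc 1 N, 8 / (j : ℝ) := by
    apply Finset.sum_nbij' (fun j => N + 1 - j) (fun j => N + 1 - j)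
    · intro j hj; rw [Finset.mem_Icc] at hj ⊢; omega
    · intro j hj; rw [Finset.mem_Icc] at hj ⊢; omega
    · intro j hj; rw [Finset.mem_Icc] at hj; omega
    · intro j hj; rw [Finset.mem_Icc] at hj; omega
    · intro j hj
      rw [Finset.mem_Icc] at hj
      rw [Nat.cast_sub (by omega)]
      push_cast
      rfl
  rw [h2]
  have h3 : ∑ j ∈ Finset.Icc 1 N, 8 / (j : ℝ) = 8 * ∑ j ∈ Finset.Icc 1 N, (1 : ℝ) / j := by
    rw [Finset.mul_sum]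
    apply Finset.sum_congr rfl
    intro j _; ring
  rw [h3]
  have := N_Kap_harm N hN
  linarith

theorem pch_low : ∃ C : ℝ, 0 < C ∧ ∃ D : ℕ, ∀ (N p x : ℕ) (δ δ' : ℂ), 1 ≤ N → p + x ≤ N →
    ‖δ‖ ≤ 1 / 4 → ‖δ'‖ ≤ 1 / 4 → ‖pch N (p + δ) x‖ ≤ C * ((N + 1 : ℕ) : ℝ) ^ D * ‖pch N (p + δ') x‖ := by
  refine ⟨Real.exp 16, Real.exp_pos _, 16, ?_⟩
  intro N p x δ δ' hN hpx hδ hδ'
  have h1 : ‖pch N (p + δ) x‖ ≤ Real.exp (∑ i ∈ Finset.range x, (8 / ((p + i + 1 : ℕ) : ℝ) +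
      8 / ((N : ℝ) + 1 - ((p + i + 1 : ℕ) : ℝ)))) * ‖pch N (p + δ') x‖ := by
    unfold pch
    rw [_root_.norm_prod, _root_.norm_prod, Real.exp_sum, ← Finset.prod_mul_distrib]
    apply Finset.prod_le_prod
    · intro i _; exact norm_nonneg _
    · intro i hi
      rw [Finset.mem_range] at hi
      have := N_Kap_ratio N (p + i + 1) δ δ' (by omega) (by omega) hδ hδ'
      have e1 : (((p + i + 1 : ℕ) : ℂ) + δ) = (p : ℂ) + δ + i + 1 := by push_cast; ring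
      have e2 : (((p + i + 1 : ℕ) : ℂ) + δ') = (p : ℂ) + δ' + i + 1 := by push_cast; ring
      rw [e1, e2] at this
      exact this
  refine h1.trans (mul_le_mul_of_nonneg_right ?_ (norm_nonneg _))
  have h2 := N_Kap_sum N p x hN hpx
  refine (Real.exp_le_exp.2 h2).trans ?_
  have hN1 : (1 : ℝ) ≤ N := by exact_mod_cast hN
  have h3 : Real.exp (16 * (1 + Real.log N)) = Real.exp 16 * (N : ℝ) ^ 16 := by
    rw [mul_add, Real.exp_add, mul_one]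
    congr 1
    rw [mul_comm, Real.exp_mul, Real.exp_log (by linarith)]
    exact_mod_cast Real.rpow_natCast (N : ℝ) 16
  rw [h3]
  apply mul_le_mul_of_nonneg_left _ (Real.exp_pos _).le
  apply pow_le_pow_left₀ (by linarith)
  push_cast; linarith

private theorem N_Kap_PPf (N : ℕ) (ha hb : ℂ) :
    PPf N ha hb = qh N (ha + hb) ^ N * pch N (((0 : ℕ) : ℂ) + (hb - ha)) N := by
  unfold PPf pch
  rw [← Finset.card_range N, ← Finset.prod_const, Finset.card_range, ← Finset.prod_mul_distrib]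
  apply Finset.prod_congr rfl
  intro p _
  have h := qh_sub N ha hb ((p : ℂ) + 1)
  have e1 : 2 * hb + (p : ℂ) + 1 = 2 * hb + ((p : ℂ) + 1) := by ring
  have e2 : 2 * ha - (p : ℂ) - 1 = 2 * ha - ((p : ℂ) + 1) := by ring
  rw [e1, e2, h]
  congr 2
  push_cast; ring

private theorem N_Kap_phase (N : ℕ) (x : ℂ) (n : ℕ) (hn : n ≤ N) (hx : |x.im| ≤ 1 / 4) :
    ‖qh N (x * n)‖ ≤ 3 ∧ 1 / 3 ≤ ‖qh N (x * n)‖ := by
  rw [N_Kap_norm_qh]
  have hM : (0 : ℝ) < ((N + 1 : ℕ) : ℝ) := by positivity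
  have hnM : (n : ℝ) ≤ ((N + 1 : ℕ) : ℝ) := by
    have : n ≤ N + 1 := by omega
    exact_mod_cast this
  have hpi := Real.pi_pos
  have h4 := Real.pi_le_four
  have him : (x * (n : ℂ)).im = x.im * n := by simp
  rw [him]
  have habs : |Real.pi * (x.im * n) / ((N + 1 : ℕ) : ℝ)| ≤ 1 := by
    rw [abs_div, abs_mul, abs_mul, abs_of_pos hpi, abs_of_pos hM, div_le_one hM,
      abs_of_nonneg (Nat.cast_nonneg (α := ℝ) n)]
    have h1 : Real.pi * |x.im| ≤ 1 := by nlinarith [abs_nonneg x.im]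
    calc Real.pi * (|x.im| * n) = (Real.pi * |x.im|) * n := by ring
      _ ≤ 1 * n := mul_le_mul_of_nonneg_right h1 (Nat.cast_nonneg n)
      _ ≤ _ := by linarith
  obtain ⟨ha, hb⟩ := abs_le.1 habs
  constructor
  · calc Real.exp (-(Real.pi * (x.im * n) / ((N + 1 : ℕ) : ℝ))) ≤ Real.exp 1 :=
        Real.exp_le_exp.2 (by linarith)
      _ ≤ 3 := by linarith [Real.exp_one_lt_d9]
  · have h5 : Real.exp (-1) ≤ Real.exp (-(Real.pi * (x.im * n) / ((N + 1 : ℕ) : ℝ))) :=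
      Real.exp_le_exp.2 (by linarith)
    refine le_trans ?_ h5
    rw [Real.exp_neg, one_div]
    apply inv_anti₀ (Real.exp_pos _)
    linarith [Real.exp_one_lt_d9]

private theorem N_Kap_qpow (N n : ℕ) (x : ℂ) : qh N x ^ n = qh N (x * n) := by
  unfold qh
  rw [← Complex.exp_nat_mul]
  congr 1; ring

/-- Comparison of the products `PPf`. -/
private theorem N_Kap_PPf_le : ∃ C : ℝ, 0 < C ∧ ∃ D : ℕ, ∀ (N : ℕ) (a b c d : ℂ), 1 ≤ N →
    ‖a‖ ≤ 1 / 8 → ‖b‖ ≤ 1 / 8 → ‖c‖ ≤ 1 / 8 → ‖d‖ ≤ 1 / 8 →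
    ‖PPf N a b‖ ≤ C * ((N + 1 : ℕ) : ℝ) ^ D * ‖PPf N c d‖ := by
  obtain ⟨C, hC, D, h⟩ := pch_low
  refine ⟨9 * C, by positivity, D, ?_⟩
  intro N a b c d hN ha hb hc hd
  rw [N_Kap_PPf N a b, N_Kap_PPf N c d, norm_mul, norm_mul, N_Kap_qpow, N_Kap_qpow]
  have h1 := h N 0 N (b - a) (d - c) hN (by omega) ((norm_sub_le _ _).trans (by linarith))
    ((norm_sub_le _ _).trans (by linarith))
  have i1 : |(a + b).im| ≤ 1 / 4 :=
    (Complex.abs_im_le_norm _).trans ((norm_add_le _ _).trans (by linarith))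
  have i2 : |(c + d).im| ≤ 1 / 4 :=
    (Complex.abs_im_le_norm _).trans ((norm_add_le _ _).trans (by linarith))
  have p1 := (N_Kap_phase N (a + b) N le_rfl i1).1
  have p2 := (N_Kap_phase N (c + d) N le_rfl i2).2
  have hP : 0 ≤ C * ((N + 1 : ℕ) : ℝ) ^ D * ‖pch N (((0 : ℕ) : ℂ) + (d - c)) N‖ := by positivity
  calc ‖qh N ((a + b) * (N : ℂ))‖ * ‖pch N (((0 : ℕ) : ℂ) + (b - a)) N‖
      ≤ 3 * (C * ((N + 1 : ℕ) : ℝ) ^ D * ‖pch N (((0 : ℕ) : ℂ) + (d - c)) N‖) :=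
        mul_le_mul p1 h1 (norm_nonneg _) (by norm_num)
    _ ≤ (9 * ‖qh N ((c + d) * (N : ℂ))‖) *
        (C * ((N + 1 : ℕ) : ℝ) ^ D * ‖pch N (((0 : ℕ) : ℂ) + (d - c)) N‖) :=
        mul_le_mul_of_nonneg_right (by linarith) hP
    _ = _ := by ring

private theorem N_Kap_qz_norm (N : ℕ) (n : ℤ) : ‖qz N ^ n‖ = 1 := by
  have h : ‖qz N‖ = 1 := by
    unfold qz
    have : (Real.pi : ℂ) * Complex.I / ((N + 1 : ℕ) : ℂ) =
        ((Real.pi / ((N + 1 : ℕ) : ℝ) : ℝ) : ℂ) * Complex.I := by push_cast; ring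
    rw [this, Complex.norm_exp_ofReal_mul_I]
  rw [norm_zpow, h, one_zpow]

private theorem N_Kap_gtf_zero (N : ℕ) (a b : ℂ) : gtf N a b 0 = rrf N a b := by
  unfold gtf
  simp [Pool.Agent.H63.VC10.brf_zero]

private theorem N_Kap_rrf_norm (N : ℕ) (a b : ℂ) :
    ‖rrf N a b‖ ^ 2 = ‖PPf N a b‖ / ‖Pool.Agent.H63.VC10.brf (qz N) N‖ := by
  rw [← norm_pow, rrf_sq, norm_div]

private theorem N_Kap_brf_ne (N : ℕ) : ‖Pool.Agent.H63.VC10.brf (qz N) N‖ ≠ 0 := by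
  rw [norm_brf N N le_rfl]
  exact (SN_pos N N le_rfl).ne'

private theorem N_Kap_gtf_N (N : ℕ) (a b : ℂ) (ha : ‖a‖ ≤ 1 / 8) (hb : ‖b‖ ≤ 1 / 8) :
    ‖gtf N a b N‖ = ‖rrf N a b‖⁻¹ := by
  have hP : ‖PPf N a b‖ ≠ 0 := norm_ne_zero_iff.2 (PPf_ne N a b ha hb)
  have hB := N_Kap_brf_ne N
  have hsq := N_Kap_rrf_norm N a b
  have hr : ‖rrf N a b‖ ≠ 0 := by
    intro h0
    rw [h0] at hsq
    have : ‖PPf N a b‖ / ‖Pool.Agent.H63.VC10.brf (qz N) N‖ ≠ 0 := div_ne_zero hP hB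
    apply this; rw [← hsq]; norm_num
  unfold gtf
  have e : (∏ p ∈ Finset.range N, (qh N (2 * b + p + 1) - qh N (2 * a - p - 1))) = PPf N a b := rfl
  rw [e, norm_mul, norm_div, norm_mul, N_Kap_qz_norm, one_mul]
  refine eq_inv_of_mul_eq_one_left ?_
  rw [mul_assoc, ← sq, hsq]
  field_simp

theorem kap_bound : ∃ C : ℝ, 0 < C ∧ ∃ D : ℕ, ∀ (N J : ℕ) (h : Fin 4 → ℂ), 1 ≤ N → J ≤ N →
    SmallH h → ‖kapJ N J h‖ ≤ C * ((N + 1 : ℕ) : ℝ) ^ D := by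
  obtain ⟨C1, hC1, D1, hp⟩ := pch_low
  obtain ⟨C2, hC2, D2, hP⟩ := N_Kap_PPf_le
  refine ⟨9 * (C1 * C1) * C2, by positivity, D1 + D1 + D2, ?_⟩
  intro N J h hN hJ hs
  have hs' := hfl_small h hs
  set M : ℝ := ((N + 1 : ℕ) : ℝ) with hM
  have hM0 : 0 < M := by rw [hM]; positivity
  -- the factor of the weights
  have him : ∀ (g : Fin 4 → ℂ), SmallH g → ∀ i j, ‖g i - g j‖ ≤ 1 / 4 := fun g hg i j =>
    (norm_sub_le _ _).trans (by linarith [hg i, hg j])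
  have hW : ‖WJ N J h 0 N 0‖ ≤ 9 * (C1 * C1) * M ^ (D1 + D1) * ‖WJ N (N - J) (hfl h) 0 0 N‖ := by
    rw [WJ_left N J h hJ, WJ_right N (N - J) (hfl h) (by omega) N le_rfl, if_pos (by omega)]
    have c1 : ((N - J : ℕ) : ℂ) = (N : ℂ) - J := by
      rw [Nat.cast_sub hJ]
    have c2 : (N : ℂ) - ((N - J : ℕ) : ℂ) = (J : ℂ) := by rw [c1]; ring
    have c3 : N - (N - J) = J := by omega
    have c4 : ((N : ℤ) - (N : ℤ)) = 0 := by ring
    have c5 : ((N : ℤ) - ((N - J : ℕ) : ℤ)) = J := by omega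
    have c6 : ((N - J : ℕ) : ℤ) = (N : ℤ) - J := by omega
    rw [c2, c3, c4, c5, Nat.sub_self, c6, ib_zero, pch_zero, mul_one, mul_one]
    rw [norm_mul, norm_mul, norm_mul, norm_mul, norm_mul, norm_mul, norm_mul, norm_mul]
    have p1 := (N_Kap_phase N (h 0 - h 3) N le_rfl
      ((Complex.abs_im_le_norm _).trans (him h hs 0 3))).1
    have p2 := (N_Kap_phase N (hfl h 0 - hfl h 1) N le_rfl
      ((Complex.abs_im_le_norm _).trans (him _ hs' 0 1))).2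
    have q1 := hp N (N - J) J (h 2 - h 1) (hfl h 0 - hfl h 3) hN (by omega) (him h hs 2 1)
      (him _ hs' 0 3)
    have q2 := hp N J (N - J) (h 1 - h 0) (hfl h 3 - hfl h 2) hN (by omega) (him h hs 1 0)
      (him _ hs' 3 2)
    have e1 : (((N - J : ℕ) : ℂ) + (h 2 - h 1)) = (N : ℂ) - J + h 2 - h 1 := by rw [c1]; ring
    have e2 : (((N - J : ℕ) : ℂ) + (hfl h 0 - hfl h 3)) = ((N - J : ℕ) : ℂ) + hfl h 0 - hfl h 3 := by
      ring
    have e3 : ((J : ℂ) + (h 1 - h 0)) = (J : ℂ) + h 1 - h 0 := by ring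
    have e4 : ((J : ℂ) + (hfl h 3 - hfl h 2)) = (J : ℂ) + hfl h 3 - hfl h 2 := by ring
    rw [e1, e2] at q1
    rw [e3, e4] at q2
    rw [← hM] at q1 q2
    set a1 := ‖pch N ((N : ℂ) - J + h 2 - h 1) J‖
    set a2 := ‖pch N ((J : ℂ) + h 1 - h 0) (N - J)‖
    set b1 := ‖pch N (((N - J : ℕ) : ℂ) + hfl h 0 - hfl h 3) J‖
    set b2 := ‖pch N ((J : ℂ) + hfl h 3 - hfl h 2) (N - J)‖
    set r := ‖qh N ((h 0 - h 3) * (N : ℂ))‖
    set s := ‖qh N ((hfl h 0 - hfl h 1) * (N : ℂ))‖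
    set u := ‖ib N (J : ℤ)‖
    set v := ‖ib N ((N : ℤ) - J)‖
    have hu : 0 ≤ u := norm_nonneg _
    have hv : 0 ≤ v := norm_nonneg _
    have ha1 : 0 ≤ a1 := norm_nonneg _
    have ha2 : 0 ≤ a2 := norm_nonneg _
    have hb1 : 0 ≤ b1 := norm_nonneg _
    have hb2 : 0 ≤ b2 := norm_nonneg _
    have hr : 0 ≤ r := norm_nonneg _
    have k1 : a1 * a2 ≤ (C1 * M ^ D1 * b1) * (C1 * M ^ D1 * b2) :=
      mul_le_mul q1 q2 ha2 (by positivity)
    have k2 : r * (a1 * a2) ≤ (9 * s) * ((C1 * M ^ D1 * b1) * (C1 * M ^ D1 * b2)) :=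
      mul_le_mul (by linarith) k1 (by positivity) (by positivity)
    calc r * (a1 * a2) * (u * v) ≤ (9 * s) * ((C1 * M ^ D1 * b1) * (C1 * M ^ D1 * b2)) * (u * v) :=
          mul_le_mul_of_nonneg_right k2 (by positivity)
      _ = _ := by rw [pow_add]; ring
  -- the factor of the square roots
  have hR : ‖rrf N (h 3) (h 0)‖ * ‖rrf N (h 3) (h 2)‖ ≤
      C2 * M ^ D2 * (‖rrf N (h 0) (h 1)‖ * ‖rrf N (h 2) (h 1)‖) := by
    have hsq : (‖rrf N (h 3) (h 0)‖ * ‖rrf N (h 3) (h 2)‖) ^ 2 ≤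
        (C2 * M ^ D2 * (‖rrf N (h 0) (h 1)‖ * ‖rrf N (h 2) (h 1)‖)) ^ 2 := by
      have hB := N_Kap_brf_ne N
      have hBp : 0 < ‖Pool.Agent.H63.VC10.brf (qz N) N‖ := lt_of_le_of_ne (norm_nonneg _) hB.symm
      have x1 := hP N (h 3) (h 0) (h 0) (h 1) hN (hs 3) (hs 0) (hs 0) (hs 1)
      have x2 := hP N (h 3) (h 2) (h 2) (h 1) hN (hs 3) (hs 2) (hs 2) (hs 1)
      rw [← hM] at x1 x2
      have y1 : ‖rrf N (h 3) (h 0)‖ ^ 2 ≤ C2 * M ^ D2 * ‖rrf N (h 0) (h 1)‖ ^ 2 := by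
        rw [N_Kap_rrf_norm, N_Kap_rrf_norm, ← mul_div_assoc]
        exact div_le_div_of_nonneg_right x1 hBp.le
      have y2 : ‖rrf N (h 3) (h 2)‖ ^ 2 ≤ C2 * M ^ D2 * ‖rrf N (h 2) (h 1)‖ ^ 2 := by
        rw [N_Kap_rrf_norm, N_Kap_rrf_norm, ← mul_div_assoc]
        exact div_le_div_of_nonneg_right x2 hBp.le
      calc (‖rrf N (h 3) (h 0)‖ * ‖rrf N (h 3) (h 2)‖) ^ 2
          = ‖rrf N (h 3) (h 0)‖ ^ 2 * ‖rrf N (h 3) (h 2)‖ ^ 2 := by ring
        _ ≤ (C2 * M ^ D2 * ‖rrf N (h 0) (h 1)‖ ^ 2) * (C2 * M ^ D2 * ‖rrf N (h 2) (h 1)‖ ^ 2) :=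
            mul_le_mul y1 y2 (by positivity) (by positivity)
        _ = _ := by ring
    exact (pow_le_pow_iff_left₀ (by positivity) (by positivity) (by norm_num)).1 hsq
  have hrr : ∀ a b : ℂ, ‖a‖ ≤ 1 / 8 → ‖b‖ ≤ 1 / 8 → 0 < ‖rrf N a b‖ := by
    intro a b ha hb
    refine lt_of_le_of_ne (norm_nonneg _) ?_
    intro h0
    have hsq := N_Kap_rrf_norm N a b
    rw [← h0] at hsq
    have : ‖PPf N a b‖ / ‖Pool.Agent.H63.VC10.brf (qz N) N‖ ≠ 0 :=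
      div_ne_zero (norm_ne_zero_iff.2 (PPf_ne N a b ha hb)) (N_Kap_brf_ne N)
    apply this; rw [← hsq]; norm_num
  have r1 := hrr _ _ (hs 0) (hs 1)
  have r2 := hrr _ _ (hs 2) (hs 1)
  have r3 := hrr _ _ (hs 3) (hs 2)
  have hWne : 0 < ‖WJ N (N - J) (hfl h) 0 0 N‖ :=
    norm_pos_iff.2 (WJ_right_ne N (N - J) (by omega) (hfl h) hs')
  unfold kapJ
  rw [norm_div, RCLike.norm_conj, norm_div, norm_mul, norm_mul, norm_mul, N_Kap_gtf_zero,
    N_Kap_gtf_zero, N_Kap_gtf_N N _ _ (hs 0) (hs 1), N_Kap_gtf_N N _ _ (hs 3) (hs 2)]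
  rw [div_div, div_le_iff₀ (by positivity)]
  have e1 : ‖WJ N J h 0 N 0‖ * (‖rrf N (h 3) (h 0)‖ * ‖rrf N (h 0) (h 1)‖⁻¹) =
      ‖WJ N J h 0 N 0‖ * (‖rrf N (h 3) (h 0)‖ * ‖rrf N (h 3) (h 2)‖) *
        (‖rrf N (h 0) (h 1)‖⁻¹ * ‖rrf N (h 3) (h 2)‖⁻¹) := by
    field_simp
  rw [e1]
  calc ‖WJ N J h 0 N 0‖ * (‖rrf N (h 3) (h 0)‖ * ‖rrf N (h 3) (h 2)‖) *
        (‖rrf N (h 0) (h 1)‖⁻¹ * ‖rrf N (h 3) (h 2)‖⁻¹)
      ≤ (9 * (C1 * C1) * M ^ (D1 + D1) * ‖WJ N (N - J) (hfl h) 0 0 N‖) *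
        (C2 * M ^ D2 * (‖rrf N (h 0) (h 1)‖ * ‖rrf N (h 2) (h 1)‖)) *
        (‖rrf N (h 0) (h 1)‖⁻¹ * ‖rrf N (h 3) (h 2)‖⁻¹) := by
        apply mul_le_mul_of_nonneg_right _ (by positivity)
        exact mul_le_mul hW hR (by positivity) (by positivity)
    _ = 9 * (C1 * C1) * C2 * M ^ (D1 + D1 + D2) *
        (‖rrf N (h 3) (h 2)‖⁻¹ * ‖rrf N (h 2) (h 1)‖ * ‖WJ N (N - J) (hfl h) 0 0 N‖) := by
        rw [pow_add M (D1 + D1) D2]
        field_simp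

end Pool.Agent.H63.CLK
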