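import Pool.Agent.H63.CLK.N_Wb
import Pool.Agent.H63.CLK.N_Kap
import Pool.Agent.H63.CLK.K_E1
import Pool.Agent.H63.CLK.K_Dual

/-!
# All directions, analysis: the bound from the algebra

`stSum_eq`: exchange of the sums over `t` and `s` (`emW_eq`; `corP`).

`alg_bound`: choose the real heights `h f = 1 / (8 (f + 1))`, injective, so that `η v = h (cor v 3) - h (cor v 1) ≠ 0`. For complex
`z` let `g z = stW (v ∈ A: Dv z; v ∉ A: WJ N (k v) (z • h_v))`, where `Dv z B sL sR = dslope (fun z => WJ N (k v) (z • h_v) B sL sR -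
WJ N (N - k v) (z • h_v) B sL sR) 0 z`. `g` is entire (`WJ_diff`, `Differentiable` of `dslope`), `g 0 = ∏_{v ∈ A} η v *` the sum on
the left (`WJ_deriv`, `WJ_zero`, `dslope_same`, `stSum_eq`; for `B + sL + sR > N` nothing is needed, since a state has sum `N`), and
for `‖z‖ = 1`, `g z = z^(-|A|) ∑_{σ ⊆ A} ± stW (WJ N (J_σ v) (z • h_v))` (`WJ_symm_zero`, `dslope_of_ne`, `Finset.prod_sub` or
`Finset.prod_add`). By the maximum principle (`Complex.norm_le_of_forall_mem_frontier_norm_le` on the unit ball, or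
`Complex.exists_mem_frontier_isMaxOn_norm`) `‖g 0‖ ≤ max_{‖z‖=1} ‖g z‖`, and every `‖stW (WJ N (J v) (z • h_v))‖` is at most
`C (N+1)^D BN N J` (`stWJ_bound`) and, by `dual` (`hfl` of small heights is small: `hfl_small`; `z h (cor v 3) ≠ z h (cor v 1)`) and
`kap_bound`, at most `C (N+1)^D BN N (N - J)`.
-/

set_option autoImplicit false

namespace Pool.Agent.H63.CLK

open Pool.Agent.H63.VC hiding ext
open Pool.Agent.H63.VC3 Pool.Agent.H63.VC4 Pool.Agent.H63.VC7 Complex Filter Topology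
open scoped BigOperators

private theorem N_Alg_csz_le {N t : ℕ} (ht : t ≤ N) (k : Fin 4) : csz N t k ≤ N := by
  fin_cases k <;> simp [csz] <;> omega

/-- Two families of weights which agree on the states give the same state sum. -/
private theorem N_Alg_stW_congr {c : ℕ} (F : Finset ℕ) (cor : Fin c → Fin 4 → ℕ) (N : ℕ)
    (W W' : Fin c → ℕ → ℕ → ℕ → ℂ)
    (h : ∀ v (x : Fin 4 → ℕ), ∑ k, x k = N → W v (x 2) (x 3) (x 1) = W' v (x 2) (x 3) (x 1)) :
    stW F cor N W = stW F cor N W' := by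
  unfold stW
  refine Finset.sum_congr rfl fun s _ => ?_
  by_cases hs : IsState F cor N s
  · rw [if_pos hs, if_pos hs]
    exact Finset.prod_congr rfl fun v _ => h v (s v) (hs.1 v)
  · rw [if_neg hs, if_neg hs]

theorem stSum_eq {c : ℕ} (F : Finset ℕ) (cor : Fin c → Fin 4 → ℕ) (N : ℕ) (a : Fin c → ℕ → ℂ) :
    stSum F cor N (fun t s => (∏ v, a v (t v)) * corP N t s) =
      stW F cor N (fun v B sL sR => ∑ t ∈ Finset.range (N + 1), a v t * emW N t B sL sR) := by
  classical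
  unfold stSum stW
  have h1 : ∀ s : Fin c → Fin 4 → ℕ, (if IsState F cor N s then
      ∏ v, ∑ t ∈ Finset.range (N + 1), a v t * emW N t (s v 2) (s v 3) (s v 1) else 0) =
      ∑ t ∈ Fintype.piFinset (fun _ : Fin c => Finset.range (N + 1)),
        if IsState F cor N s then ∏ v, a v (t v) * emW N (t v) (s v 2) (s v 3) (s v 1) else 0 := by
    intro s
    by_cases hs : IsState F cor N s
    · simp only [if_pos hs]
      rw [Finset.prod_univ_sum]
    · simp only [if_neg hs, Finset.sum_const_zero]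
  simp only [h1]
  rw [Finset.sum_comm]
  refine Finset.sum_congr rfl fun t ht => ?_
  have ht' : ∀ v, t v ≤ N := fun v => by
    have := (Fintype.mem_piFinset.mp ht) v
    exact Nat.lt_succ_iff.mp (Finset.mem_range.mp this)
  have hsub : Fintype.piFinset (fun v : Fin c => Fintype.piFinset
      (fun k : Fin 4 => Finset.range (csz N (t v) k + 1))) ⊆
      Fintype.piFinset (fun _ : Fin c => Fintype.piFinset
      (fun _ : Fin 4 => Finset.range (N + 1))) := by
    intro s hs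
    rw [Fintype.mem_piFinset] at hs ⊢
    intro v
    have h2 := hs v
    rw [Fintype.mem_piFinset] at h2 ⊢
    intro k
    have h3 := h2 k
    rw [Finset.mem_range] at h3 ⊢
    have := N_Alg_csz_le (ht' v) k
    omega
  rw [← Finset.sum_subset hsub]
  · refine Finset.sum_congr rfl fun s hs => ?_
    by_cases hst : IsState F cor N s
    · rw [if_pos hst, if_pos hst, corP, ← Finset.prod_mul_distrib]
      refine Finset.prod_congr rfl fun v _ => ?_
      rw [emW_eq N (t v) (ht' v) (s v) (hst.1 v), if_pos]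
      intro k
      have h2 := (Fintype.mem_piFinset.mp ((Fintype.mem_piFinset.mp hs) v)) k
      exact Nat.lt_succ_iff.mp (Finset.mem_range.mp h2)
    · rw [if_neg hst, if_neg hst]
  · intro s _ hs
    by_cases hst : IsState F cor N s
    · rw [if_pos hst]
      have hne : ∃ v, ¬ ∀ k, s v k ≤ csz N (t v) k := by
        by_contra hcon
        push Not at hcon
        apply hs
        rw [Fintype.mem_piFinset]
        intro v
        rw [Fintype.mem_piFinset]
        intro k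
        rw [Finset.mem_range]
        exact Nat.lt_succ_of_le (hcon v k)
      obtain ⟨v, hv⟩ := hne
      refine Finset.prod_eq_zero (Finset.mem_univ v) ?_
      rw [emW_eq N (t v) (ht' v) (s v) (hst.1 v), if_neg hv, mul_zero]
    · rw [if_neg hst]

/-- The heights. -/
private noncomputable def N_Alg_h (f : ℕ) : ℂ := ((1 / (8 * ((f : ℝ) + 1)) : ℝ) : ℂ)

private theorem N_Alg_h_norm (f : ℕ) : ‖N_Alg_h f‖ ≤ 1 / 8 := by
  unfold N_Alg_h
  rw [Complex.norm_real, Real.norm_of_nonneg (by positivity)]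
  rw [div_le_div_iff₀ (by positivity) (by norm_num)]
  have : (0 : ℝ) ≤ f := Nat.cast_nonneg f
  linarith

private theorem N_Alg_h_inj {f g : ℕ} (h : f ≠ g) : N_Alg_h f ≠ N_Alg_h g := by
  unfold N_Alg_h
  intro h'
  have h1 : (1 / (8 * ((f : ℝ) + 1)) : ℝ) = 1 / (8 * ((g : ℝ) + 1)) := by exact_mod_cast h'
  have h2 : (8 * ((f : ℝ) + 1)) = 8 * ((g : ℝ) + 1) := by
    have := congrArg (fun x : ℝ => 1 / x) h1
    simpa using this
  apply h
  have : (f : ℝ) = g := by linarith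
  exact_mod_cast this

/-- The heights at the twist region `v`. -/
private noncomputable def N_Alg_hv {c : ℕ} (cor : Fin c → Fin 4 → ℕ) (v : Fin c) : Fin 4 → ℂ :=
  fun k => N_Alg_h (cor v k)

/-- The difference of the weights. -/
private noncomputable def N_Alg_d {c : ℕ} (cor : Fin c → Fin 4 → ℕ) (N : ℕ) (k : Fin c → ℕ)
    (v : Fin c) (B sL sR : ℕ) (z : ℂ) : ℂ :=
  WJ N (k v) (z • N_Alg_hv cor v) B sL sR - WJ N (N - k v) (z • N_Alg_hv cor v) B sL sR

/-- The deformed weights. -/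
private noncomputable def N_Alg_W {c : ℕ} (cor : Fin c → Fin 4 → ℕ) (N : ℕ) (A : Finset (Fin c))
    (k : Fin c → ℕ) (z : ℂ) (v : Fin c) (B sL sR : ℕ) : ℂ :=
  if v ∈ A then dslope (N_Alg_d cor N k v B sL sR) 0 z else WJ N (k v) (z • N_Alg_hv cor v) B sL sR

private theorem N_Alg_d_diff {c : ℕ} (cor : Fin c → Fin 4 → ℕ) (N : ℕ) (k : Fin c → ℕ)
    (v : Fin c) (B sL sR : ℕ) : Differentiable ℂ (N_Alg_d cor N k v B sL sR) :=
  (WJ_diff N (k v) _ B sL sR).sub (WJ_diff N (N - k v) _ B sL sR)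

private theorem N_Alg_W_diff {c : ℕ} (cor : Fin c → Fin 4 → ℕ) (N : ℕ) (A : Finset (Fin c))
    (k : Fin c → ℕ) (v : Fin c) (B sL sR : ℕ) :
    Differentiable ℂ (fun z => N_Alg_W cor N A k z v B sL sR) := by
  unfold N_Alg_W
  by_cases hv : v ∈ A
  · simp only [if_pos hv]
    have h1 := (Complex.differentiableOn_dslope (s := Set.univ) (c := (0 : ℂ))
      (f := N_Alg_d cor N k v B sL sR) Filter.univ_mem).mpr
      (N_Alg_d_diff cor N k v B sL sR).differentiableOn
    exact differentiableOn_univ.mp h1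
  · simp only [if_neg hv]
    exact WJ_diff N (k v) _ B sL sR

private theorem N_Alg_g_diff {c : ℕ} (F : Finset ℕ) (cor : Fin c → Fin 4 → ℕ) (N : ℕ)
    (A : Finset (Fin c)) (k : Fin c → ℕ) :
    Differentiable ℂ (fun z => stW F cor N (N_Alg_W cor N A k z)) := by
  classical
  unfold stW
  refine Differentiable.fun_sum fun s _ => ?_
  by_cases hs : IsState F cor N s
  · simp only [if_pos hs]
    refine Differentiable.fun_finsetProd fun v _ => ?_
    exact N_Alg_W_diff cor N A k v _ _ _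
  · simp only [if_neg hs]
    exact differentiable_const _

/-- The value at `0`. -/
private theorem N_Alg_g_zero {c : ℕ} (F : Finset ℕ) (cor : Fin c → Fin 4 → ℕ) (N : ℕ)
    (A : Finset (Fin c)) (k : Fin c → ℕ) (hk : ∀ v, k v ≤ N) :
    stW F cor N (N_Alg_W cor N A k 0) =
      (∏ v ∈ A, (N_Alg_h (cor v 3) - N_Alg_h (cor v 1))) *
        stSum F cor N (fun t s => PE N A k t * corP N t s) := by
  classical
  have h0 : stSum F cor N (fun t s => PE N A k t * corP N t s) =
      stW F cor N (fun v B sL sR => ∑ t ∈ Finset.range (N + 1),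
        (((if v ∈ A then EN N (k v) t else QN N (k v) t) : ℝ) : ℂ) * emW N t B sL sR) :=
    stSum_eq F cor N (fun v t => (((if v ∈ A then EN N (k v) t else QN N (k v) t) : ℝ) : ℂ))
  rw [h0]
  have h1 : stW F cor N (N_Alg_W cor N A k 0) =
      stW F cor N (fun v B sL sR => (if v ∈ A then N_Alg_h (cor v 3) - N_Alg_h (cor v 1) else 1) *
        ∑ t ∈ Finset.range (N + 1),
          (((if v ∈ A then EN N (k v) t else QN N (k v) t) : ℝ) : ℂ) * emW N t B sL sR) := by
    apply N_Alg_stW_congr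
    intro v x hx
    have hle : x 2 + x 3 + x 1 ≤ N := by
      rw [Fin.sum_univ_four] at hx
      omega
    unfold N_Alg_W
    by_cases hv : v ∈ A
    · simp only [if_pos hv]
      rw [dslope_same]
      exact (WJ_deriv N (k v) (N_Alg_hv cor v) (hk v) (x 2) (x 3) (x 1) hle).deriv
    · simp only [if_neg hv]
      rw [zero_smul, one_mul]
      exact WJ_zero N (k v) (hk v) (x 2) (x 3) (x 1) hle
  rw [h1]
  unfold stW
  rw [Finset.mul_sum]
  refine Finset.sum_congr rfl fun s _ => ?_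
  by_cases hs : IsState F cor N s
  · rw [if_pos hs, if_pos hs, Finset.prod_mul_distrib]
    congr 1
    rw [Finset.prod_ite_mem, Finset.univ_inter]
  · rw [if_neg hs, if_neg hs, mul_zero]

/-- The expansion of the product. -/
private theorem N_Alg_prod {c : ℕ} (A : Finset (Fin c)) (x y : Fin c → ℂ) (z : ℂ) :
    ∏ v, (if v ∈ A then z * (x v - y v) else x v) =
      z ^ A.card * ∑ σ ∈ A.powerset, (-1) ^ σ.card * ∏ v, (if v ∈ σ then y v else x v) := by
  classical
  have h1 : ∏ v, (if v ∈ A then z * (x v - y v) else x v) =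
      (∏ v ∈ A, z * (x v - y v)) * ∏ v ∈ Finset.univ \ A, x v := by
    rw [← Finset.prod_sdiff (Finset.subset_univ A), mul_comm]
    congr 1
    · exact Finset.prod_congr rfl fun v hv => by rw [if_pos hv]
    · exact Finset.prod_congr rfl fun v hv => by rw [if_neg (Finset.mem_sdiff.mp hv).2]
  rw [h1, Finset.prod_mul_distrib, Finset.prod_const]
  have h2 : ∏ v ∈ A, (x v - y v) = ∏ v ∈ A, ((-y v) + x v) :=
    Finset.prod_congr rfl fun v _ => by ring
  rw [h2, Finset.prod_add, mul_assoc, Finset.sum_mul]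
  congr 1
  refine Finset.sum_congr rfl fun σ hσ => ?_
  have hσ' := Finset.mem_powerset.mp hσ
  have h3 : ∏ v, (if v ∈ σ then y v else x v) =
      (∏ v ∈ σ, y v) * ((∏ v ∈ A \ σ, x v) * ∏ v ∈ Finset.univ \ A, x v) := by
    rw [← Finset.prod_sdiff (Finset.subset_univ A), ← Finset.prod_sdiff hσ']
    have e1 : ∏ v ∈ σ, (if v ∈ σ then y v else x v) = ∏ v ∈ σ, y v :=
      Finset.prod_congr rfl fun v hv => by rw [if_pos hv]
    have e2 : ∏ v ∈ A \ σ, (if v ∈ σ then y v else x v) = ∏ v ∈ A \ σ, x v :=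
      Finset.prod_congr rfl fun v hv => by rw [if_neg (Finset.mem_sdiff.mp hv).2]
    have e3 : ∏ v ∈ Finset.univ \ A, (if v ∈ σ then y v else x v) =
        ∏ v ∈ Finset.univ \ A, x v :=
      Finset.prod_congr rfl fun v hv => by
        rw [if_neg (fun h => (Finset.mem_sdiff.mp hv).2 (hσ' h))]
    rw [e1, e2, e3]
    ring
  rw [h3, Finset.prod_neg]
  ring

/-- The values on the unit circle. -/
private theorem N_Alg_g_circle {c : ℕ} (F : Finset ℕ) (cor : Fin c → Fin 4 → ℕ) (N : ℕ)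
    (A : Finset (Fin c)) (k : Fin c → ℕ) (hk : ∀ v, k v ≤ N) (z : ℂ) (hz : ‖z‖ = 1) :
    ‖stW F cor N (N_Alg_W cor N A k z)‖ ≤ ∑ σ ∈ A.powerset,
      ‖stW F cor N (fun v => WJ N (if v ∈ σ then N - k v else k v) (z • N_Alg_hv cor v))‖ := by
  classical
  have hz0 : z ≠ 0 := by
    intro h
    rw [h, norm_zero] at hz
    exact zero_ne_one hz
  have h1 : stW F cor N (N_Alg_W cor N A k z) =
      stW F cor N (fun v B sL sR => if v ∈ A then z⁻¹ * (WJ N (k v) (z • N_Alg_hv cor v) B sL sR -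
        WJ N (N - k v) (z • N_Alg_hv cor v) B sL sR) else
          WJ N (k v) (z • N_Alg_hv cor v) B sL sR) := by
    apply N_Alg_stW_congr
    intro v x hx
    have hle : x 2 + x 3 + x 1 ≤ N := by
      rw [Fin.sum_univ_four] at hx
      omega
    unfold N_Alg_W
    by_cases hv : v ∈ A
    · simp only [if_pos hv]
      rw [dslope_of_ne _ hz0, slope_def_field]
      have h0 : N_Alg_d cor N k v (x 2) (x 3) (x 1) 0 = 0 := by
        unfold N_Alg_d
        rw [zero_smul, WJ_symm_zero N (k v) (hk v) _ _ _ hle, sub_self]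
      rw [h0, sub_zero, sub_zero]
      unfold N_Alg_d
      rw [div_eq_inv_mul]
    · simp only [if_neg hv]
  have h2 : stW F cor N (N_Alg_W cor N A k z) = z⁻¹ ^ A.card * ∑ σ ∈ A.powerset,
      (-1) ^ σ.card *
        stW F cor N (fun v => WJ N (if v ∈ σ then N - k v else k v) (z • N_Alg_hv cor v)) := by
    rw [h1]
    unfold stW
    simp only [Finset.mul_sum]
    rw [Finset.sum_comm]
    refine Finset.sum_congr rfl fun s _ => ?_
    by_cases hs : IsState F cor N s
    · simp only [if_pos hs]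
      rw [N_Alg_prod, Finset.mul_sum]
      refine Finset.sum_congr rfl fun σ _ => ?_
      congr 2
      refine Finset.prod_congr rfl fun v _ => ?_
      by_cases hv : v ∈ σ
      · rw [if_pos hv, if_pos hv]
      · rw [if_neg hv, if_neg hv]
    · simp only [if_neg hs, mul_zero, Finset.sum_const_zero]
  rw [h2, norm_mul, norm_pow, norm_inv, hz, inv_one, one_pow, one_mul]
  refine (norm_sum_le _ _).trans (Finset.sum_le_sum fun σ _ => ?_)
  rw [norm_mul, norm_pow, norm_neg, norm_one, one_pow, one_mul]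

/-- Both bounds for one state sum. -/
private theorem N_Alg_one {w : List TPiece} {c : ℕ} {F : Finset ℕ} {cor : Fin c → Fin 4 → ℕ}
    (hT : IsTemplate w c F cor) (hlr : ∀ v, cor v 3 ≠ cor v 1) :
    ∃ C : ℝ, 0 < C ∧ ∃ D : ℕ, ∀ (N : ℕ) (J : Fin c → ℕ) (z : ℂ), 1 ≤ N → (∀ v, J v ≤ N) →
      ‖z‖ = 1 → ‖stW F cor N (fun v => WJ N (J v) (z • N_Alg_hv cor v))‖ ≤
        C * ((N + 1 : ℕ) : ℝ) ^ D * min (BN F cor N J) (BN F cor N (fun v => N - J v)) := by
  obtain ⟨C1, hC1, D1, h1⟩ := stWJ_bound c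
  obtain ⟨C2, hC2, D2, h2⟩ := kap_bound
  refine ⟨(C2 + 1) ^ c * C1, by positivity, D2 * c + D1, ?_⟩
  intro N J z hN hJ hz
  have hN1 : (1 : ℝ) ≤ ((N + 1 : ℕ) : ℝ) := by
    exact_mod_cast Nat.succ_le_succ (Nat.zero_le N)
  have hz0 : z ≠ 0 := by
    intro h
    rw [h, norm_zero] at hz
    exact zero_ne_one hz
  have hsm : ∀ f, ‖z * N_Alg_h f‖ ≤ 1 / 8 := fun f => by
    rw [norm_mul, hz, one_mul]
    exact N_Alg_h_norm f
  have hsmall : ∀ v, SmallH (z • N_Alg_hv cor v) := fun v k => hsm (cor v k)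
  have hb1 : ‖stW F cor N (fun v => WJ N (J v) (z • N_Alg_hv cor v))‖ ≤
      C1 * ((N + 1 : ℕ) : ℝ) ^ D1 * BN F cor N J := h1 F cor N J _ hN hJ hsmall
  have hb2 : ‖stW F cor N (fun v => WJ N (N - J v) (hfl (z • N_Alg_hv cor v)))‖ ≤
      C1 * ((N + 1 : ℕ) : ℝ) ^ D1 * BN F cor N (fun v => N - J v) :=
    h1 F cor N (fun v => N - J v) _ hN (fun v => Nat.sub_le _ _) (fun v => hfl_small _ (hsmall v))
  have hdual : ‖stW F cor N (fun v => WJ N (J v) (z • N_Alg_hv cor v))‖ =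
      (∏ v, ‖kapJ N (J v) (z • N_Alg_hv cor v)‖) *
        ‖stW F cor N (fun v => WJ N (N - J v) (hfl (z • N_Alg_hv cor v)))‖ :=
    dual N hT (fun f => z * N_Alg_h f) hsm
      (fun v h => N_Alg_h_inj (hlr v) (mul_left_cancel₀ hz0 h)) J hJ
  have hkap : ∏ v, ‖kapJ N (J v) (z • N_Alg_hv cor v)‖ ≤
      ((C2 + 1) * ((N + 1 : ℕ) : ℝ) ^ D2) ^ c := by
    calc ∏ v, ‖kapJ N (J v) (z • N_Alg_hv cor v)‖
        ≤ ∏ _v : Fin c, ((C2 + 1) * ((N + 1 : ℕ) : ℝ) ^ D2) := by
          refine Finset.prod_le_prod (fun _ _ => norm_nonneg _) fun v _ => ?_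
          refine (h2 N (J v) _ hN (hJ v) (hsmall v)).trans ?_
          gcongr
          linarith
      _ = ((C2 + 1) * ((N + 1 : ℕ) : ℝ) ^ D2) ^ c := by
          rw [Finset.prod_const, Finset.card_univ, Fintype.card_fin]
  have hK1 : (1 : ℝ) ≤ ((C2 + 1) * ((N + 1 : ℕ) : ℝ) ^ D2) ^ c := by
    apply one_le_pow₀
    have : (1 : ℝ) ≤ ((N + 1 : ℕ) : ℝ) ^ D2 := one_le_pow₀ hN1
    nlinarith
  have hBN : ∀ J' : Fin c → ℕ, 0 ≤ BN F cor N J' := by
    intro J'
    unfold BN
    refine Finset.sum_nonneg fun s _ => ?_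
    split_ifs
    · refine Finset.prod_nonneg fun v _ => ?_
      unfold wJB
      refine Finset.sum_nonneg fun a _ => Finset.sum_nonneg fun b _ => ?_
      split_ifs
      · unfold PB
        positivity
      · exact le_rfl
    · exact le_rfl
  have hK : (C2 + 1) ^ c * C1 * ((N + 1 : ℕ) : ℝ) ^ (D2 * c + D1) =
      ((C2 + 1) * ((N + 1 : ℕ) : ℝ) ^ D2) ^ c * (C1 * ((N + 1 : ℕ) : ℝ) ^ D1) := by
    rw [mul_pow, pow_add, pow_mul]
    ring
  rw [hK, mul_min_of_nonneg _ _ (by positivity)]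
  refine le_min ?_ ?_
  · calc ‖stW F cor N (fun v => WJ N (J v) (z • N_Alg_hv cor v))‖
        ≤ C1 * ((N + 1 : ℕ) : ℝ) ^ D1 * BN F cor N J := hb1
      _ = 1 * (C1 * ((N + 1 : ℕ) : ℝ) ^ D1) * BN F cor N J := by ring
      _ ≤ ((C2 + 1) * ((N + 1 : ℕ) : ℝ) ^ D2) ^ c * (C1 * ((N + 1 : ℕ) : ℝ) ^ D1) *
          BN F cor N J := by
          have := hBN J
          gcongr
  · rw [hdual, mul_assoc _ (C1 * _) _]
    exact mul_le_mul hkap hb2 (norm_nonneg _) (by positivity)

theorem alg_bound {w : List TPiece} {c : ℕ} {F : Finset ℕ} {cor : Fin c → Fin 4 → ℕ}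
    (hT : IsTemplate w c F cor) (hlr : ∀ v, cor v 3 ≠ cor v 1) :
    ∃ C : ℝ, 0 < C ∧ ∃ D : ℕ, ∀ (N : ℕ) (A : Finset (Fin c)) (k : Fin c → ℕ), 1 ≤ N →
      (∀ v, k v ≤ N) →
      ‖stSum F cor N (fun t s => PE N A k t * corP N t s)‖ ≤ C * ((N + 1 : ℕ) : ℝ) ^ D *
        ∑ σ ∈ A.powerset, min (BN F cor N (fun v => if v ∈ σ then N - k v else k v))
          (BN F cor N (fun v => N - (if v ∈ σ then N - k v else k v))) := by
  classical
  obtain ⟨C1, hC1, D1, h1⟩ := N_Alg_one hT hlr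
  set η : Fin c → ℂ := fun v => N_Alg_h (cor v 3) - N_Alg_h (cor v 1) with hη
  have hη0 : ∀ v, η v ≠ 0 := fun v => sub_ne_zero.mpr (N_Alg_h_inj (hlr v))
  refine ⟨(∏ v, (1 + ‖η v‖⁻¹)) * C1, by positivity, D1, ?_⟩
  intro N A k hN hk
  set S : ℝ := ∑ σ ∈ A.powerset, min (BN F cor N (fun v => if v ∈ σ then N - k v else k v))
          (BN F cor N (fun v => N - (if v ∈ σ then N - k v else k v))) with hS
  have hcirc : ∀ z ∈ frontier (Metric.ball (0 : ℂ) 1),
      ‖stW F cor N (N_Alg_W cor N A k z)‖ ≤ C1 * ((N + 1 : ℕ) : ℝ) ^ D1 * S := by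
    intro z hz
    rw [frontier_ball (0 : ℂ) one_ne_zero, mem_sphere_zero_iff_norm] at hz
    refine (N_Alg_g_circle F cor N A k hk z hz).trans ?_
    rw [hS, Finset.mul_sum]
    refine Finset.sum_le_sum fun σ _ => ?_
    refine h1 N (fun v => if v ∈ σ then N - k v else k v) z hN (fun v => ?_) hz
    show (if v ∈ σ then N - k v else k v) ≤ N
    split_ifs
    · exact Nat.sub_le _ _
    · exact hk v
  have h0 : ‖stW F cor N (N_Alg_W cor N A k 0)‖ ≤ C1 * ((N + 1 : ℕ) : ℝ) ^ D1 * S :=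
    Complex.norm_le_of_forall_mem_frontier_norm_le Metric.isBounded_ball
      (N_Alg_g_diff F cor N A k).diffContOnCl hcirc (subset_closure (Metric.mem_ball_self one_pos))
  rw [N_Alg_g_zero F cor N A k hk, norm_mul, _root_.norm_prod] at h0
  have hpos : 0 < ∏ v ∈ A, ‖η v‖ := Finset.prod_pos fun v _ => norm_pos_iff.mpr (hη0 v)
  have hinv : (∏ v ∈ A, ‖η v‖)⁻¹ ≤ ∏ v, (1 + ‖η v‖⁻¹) := by
    rw [← Finset.prod_inv_distrib]
    calc ∏ v ∈ A, ‖η v‖⁻¹ ≤ ∏ v ∈ A, (1 + ‖η v‖⁻¹) := by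
          refine Finset.prod_le_prod (fun _ _ => by positivity) fun v _ => ?_
          linarith
      _ ≤ ∏ v, (1 + ‖η v‖⁻¹) := by
          rw [← Finset.prod_sdiff (Finset.subset_univ A)]
          refine le_mul_of_one_le_left (Finset.prod_nonneg fun _ _ => by positivity) ?_
          refine Finset.one_le_prod fun v _ => ?_
          have : 0 ≤ ‖η v‖⁻¹ := by positivity
          linarith
  have hR : 0 ≤ C1 * ((N + 1 : ℕ) : ℝ) ^ D1 * S := (norm_nonneg _).trans
    (Complex.norm_le_of_forall_mem_frontier_norm_le Metric.isBounded_ball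
      (N_Alg_g_diff F cor N A k).diffContOnCl hcirc (subset_closure (Metric.mem_ball_self one_pos)))
  have h2 : ‖stSum F cor N (fun t s => PE N A k t * corP N t s)‖ ≤
      (∏ v ∈ A, ‖η v‖)⁻¹ * (C1 * ((N + 1 : ℕ) : ℝ) ^ D1 * S) := by
    rw [inv_mul_eq_div, le_div_iff₀ hpos, mul_comm]
    exact h0
  calc ‖stSum F cor N (fun t s => PE N A k t * corP N t s)‖
      ≤ (∏ v ∈ A, ‖η v‖)⁻¹ * (C1 * ((N + 1 : ℕ) : ℝ) ^ D1 * S) := h2
    _ ≤ (∏ v, (1 + ‖η v‖⁻¹)) * (C1 * ((N + 1 : ℕ) : ℝ) ^ D1 * S) := by gcongr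
    _ = (∏ v, (1 + ‖η v‖⁻¹)) * C1 * ((N + 1 : ℕ) : ℝ) ^ D1 * S := by ring

end Pool.Agent.H63.CLK
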