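import Pool.Agent.H63.CLK.N_GapP
import Pool.Agent.H63.CLK.N_Alg

/-!
# All directions, analysis: the product of the bounds of the levels `J` and `N - J`

`BN N J` is a sum over the states `s`, and after expanding the products (`Finset.prod_univ_sum`, or bound every factor by the
number of terms times the maximum) over `a v ≤ sL`, `b v ≤ sR`, of `exp (N * EVs (J / N) p)` with
`p v = (B, a, b, N - B - sL - sR, sL - a, sR - b) / N`, which is a split state (`IsSpl`) of the levels `J v / N` if `s` is a state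
(`∑ k, s v k = N`, so `N - B - sL - sR = s v 0`). There are at most `(N + 1) ^ (6 c)` terms. So `BN N J ≤ (N+1)^(6 c) exp (N * E)` with
`E = EVs (J / N) p` for the best `p` (or `BN N J = 0`), and likewise for `N - J` with `p'`; then `gap_real`.
-/

set_option autoImplicit false

namespace Pool.Agent.H63.CLK

open Pool.Agent.H63.VC hiding ext
open Pool.Agent.H63.VC3 Pool.Agent.H63.VC4 Pool.Agent.H63.VC7 Complex Filter Topology
open scoped BigOperators

variable {c : ℕ} {F : Finset ℕ} {cor : Fin c → Fin 4 → ℕ} {x : Vr c → ℝ}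

private theorem N_Gap_PB_pos (N p y : ℕ) : 0 < PB N p y := Real.exp_pos _

/-- a sum of nonnegative terms over a finite set of at most `K` elements -/
private theorem N_Gap_sum_max {α : Type*} (S : Finset α) (f : α → ℝ) (hf : ∀ a ∈ S, 0 ≤ f a)
    (K : ℕ) (hK : S.card ≤ K) :
    (∑ a ∈ S, f a = 0) ∨ ∃ a ∈ S, 0 < f a ∧ ∑ a ∈ S, f a ≤ (K : ℝ) * f a := by
  classical
  by_cases h0 : ∀ a ∈ S, f a = 0
  · exact Or.inl (Finset.sum_eq_zero h0)
  · right
    push Not at h0
    obtain ⟨a0, ha0, hne⟩ := h0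
    obtain ⟨a, ha, hmax⟩ := Finset.exists_max_image S f ⟨a0, ha0⟩
    have hpos : 0 < f a := lt_of_lt_of_le (lt_of_le_of_ne (hf a0 ha0) (Ne.symm hne)) (hmax a0 ha0)
    refine ⟨a, ha, hpos, ?_⟩
    calc ∑ b ∈ S, f b ≤ ∑ _b ∈ S, f a := Finset.sum_le_sum hmax
      _ = (S.card : ℝ) * f a := by rw [Finset.sum_const, nsmul_eq_mul]
      _ ≤ (K : ℝ) * f a := by
        apply mul_le_mul_of_nonneg_right _ hpos.le
        exact_mod_cast hK

/-- the summand of `wJB` -/
private noncomputable def N_Gap_T (N J B sL sR a b : ℕ) : ℝ :=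
  PB N J B * PB N (N - J) a * PB N (N - J) b *
    (PB N (N - J) (N - B - sL - sR) * PB N J (sL - a) * PB N J (sR - b))

private theorem N_Gap_T_pos (N J B sL sR a b : ℕ) : 0 < N_Gap_T N J B sL sR a b := by
  unfold N_Gap_T
  have h := N_Gap_PB_pos
  exact mul_pos (mul_pos (mul_pos (h _ _ _) (h _ _ _)) (h _ _ _))
    (mul_pos (mul_pos (h _ _ _) (h _ _ _)) (h _ _ _))

private theorem N_Gap_T_eq (N J B sL sR a b : ℕ) (hN : 1 ≤ N) (hJ : J ≤ N) :
    N_Gap_T N J B sL sR a b = Real.exp (N * (EV ((J : ℝ) / N) ((B : ℝ) / N) ((a : ℝ) / N)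
      ((b : ℝ) / N) + EV (1 - (J : ℝ) / N) (((N - B - sL - sR : ℕ) : ℝ) / N)
      (((sL - a : ℕ) : ℝ) / N) (((sR - b : ℕ) : ℝ) / N))) := by
  have hN0 : (N : ℝ) ≠ 0 := by
    have : 0 < N := hN
    positivity
  have e1 : ((N - J : ℕ) : ℝ) / N = 1 - (J : ℝ) / N := by
    rw [Nat.cast_sub hJ, sub_div, div_self hN0]
  unfold N_Gap_T PB EV
  rw [← Real.exp_add, ← Real.exp_add, ← Real.exp_add, ← Real.exp_add, ← Real.exp_add]
  congr 1
  simp only [add_div, e1, sub_sub_cancel]
  ring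

private theorem N_Gap_wJB_eq (N J B sL sR : ℕ) :
    wJB N J B sL sR = ∑ q ∈ Finset.range (sL + 1) ×ˢ Finset.range (sR + 1),
      if B + q.1 + q.2 = J ∧ B + sL + sR ≤ N then N_Gap_T N J B sL sR q.1 q.2 else 0 := by
  rw [Finset.sum_product]
  rfl

private theorem N_Gap_wJB_nonneg (N J B sL sR : ℕ) : 0 ≤ wJB N J B sL sR := by
  rw [N_Gap_wJB_eq]
  refine Finset.sum_nonneg fun q _ => ?_
  split_ifs
  · exact (N_Gap_T_pos _ _ _ _ _ _ _).le
  · exact le_rfl

private theorem N_Gap_wJB_le (N J B sL sR : ℕ) (hL : sL ≤ N) (hR : sR ≤ N)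
    (h0 : wJB N J B sL sR ≠ 0) : ∃ a b, a ≤ sL ∧ b ≤ sR ∧ B + a + b = J ∧ B + sL + sR ≤ N ∧
      wJB N J B sL sR ≤ ((N + 1 : ℕ) : ℝ) ^ 2 * N_Gap_T N J B sL sR a b := by
  rw [N_Gap_wJB_eq] at h0 ⊢
  have hcard : (Finset.range (sL + 1) ×ˢ Finset.range (sR + 1)).card ≤ (N + 1) ^ 2 := by
    rw [Finset.card_product, Finset.card_range, Finset.card_range, sq]
    exact Nat.mul_le_mul (by omega) (by omega)
  rcases N_Gap_sum_max (Finset.range (sL + 1) ×ˢ Finset.range (sR + 1))
    (fun q => if B + q.1 + q.2 = J ∧ B + sL + sR ≤ N then N_Gap_T N J B sL sR q.1 q.2 else 0)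
    (fun q _ => by
      split_ifs
      · exact (N_Gap_T_pos _ _ _ _ _ _ _).le
      · exact le_rfl) _ hcard with h | ⟨q, hq, hpos, hle⟩
  · exact absurd h h0
  · rw [Finset.mem_product, Finset.mem_range, Finset.mem_range] at hq
    by_cases hc : B + q.1 + q.2 = J ∧ B + sL + sR ≤ N
    · rw [if_pos hc] at hle
      refine ⟨q.1, q.2, by omega, by omega, hc.1, hc.2, ?_⟩
      refine hle.trans (le_of_eq ?_)
      push_cast
      ring
    · rw [if_neg hc] at hpos
      exact absurd hpos (lt_irrefl _)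

/-- The bound is at most the number of the split states times the largest term. -/
theorem BN_le (F : Finset ℕ) (cor : Fin c → Fin 4 → ℕ) (N : ℕ) (J : Fin c → ℕ) (hN : 1 ≤ N)
    (hJ : ∀ v, J v ≤ N) : BN F cor N J = 0 ∨ ∃ p : Fin c → Fin 6 → ℝ,
      IsSpl F cor (fun v => (J v : ℝ) / N) p ∧
      BN F cor N J ≤ ((N + 1 : ℕ) : ℝ) ^ (6 * c) *
        Real.exp (N * EVs (fun v => (J v : ℝ) / N) p) := by
  classical
  have hN0 : (0 : ℝ) < N := by exact_mod_cast hN
  have hcard : (Fintype.piFinset (fun _ : Fin c => Fintype.piFinset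
      (fun _ : Fin 4 => Finset.range (N + 1)))).card ≤ (N + 1) ^ (4 * c) := by
    rw [Fintype.card_piFinset]
    simp only [Fintype.card_piFinset, Finset.card_range, Finset.prod_const, Finset.card_univ,
      Fintype.card_fin]
    rw [← pow_mul]
  rcases N_Gap_sum_max (Fintype.piFinset (fun _ : Fin c => Fintype.piFinset
      (fun _ : Fin 4 => Finset.range (N + 1))))
    (fun s => if IsState F cor N s then ∏ v, wJB N (J v) (s v 2) (s v 3) (s v 1) else 0)
    (fun s _ => by
      split_ifs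
      · exact Finset.prod_nonneg fun v _ => N_Gap_wJB_nonneg _ _ _ _ _
      · exact le_rfl) _ hcard with h | ⟨s, hs, hpos, hle⟩
  · left
    exact h
  · right
    by_cases hst : IsState F cor N s
    · rw [if_pos hst] at hpos hle
      have hsN : ∀ v k, s v k ≤ N := by
        intro v k
        have h1 := Fintype.mem_piFinset.1 (Fintype.mem_piFinset.1 hs v) k
        rw [Finset.mem_range] at h1
        omega
      have hne : ∀ v, wJB N (J v) (s v 2) (s v 3) (s v 1) ≠ 0 := by
        intro v hv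
        have h1 : ∏ v, wJB N (J v) (s v 2) (s v 3) (s v 1) = 0 :=
          Finset.prod_eq_zero (Finset.mem_univ v) hv
        rw [h1] at hpos
        exact lt_irrefl _ hpos
      choose a b ha hb hab hsum hT using fun v =>
        N_Gap_wJB_le N (J v) (s v 2) (s v 3) (s v 1) (hsN v 3) (hsN v 1) (hne v)
      have hs0 : ∀ v, N - s v 2 - s v 3 - s v 1 = s v 0 := by
        intro v
        have h1 := hst.1 v
        rw [Fin.sum_univ_four] at h1
        omega
      let p : Fin c → Fin 6 → ℝ := fun v => ![(s v 2 : ℝ) / N, (a v : ℝ) / N, (b v : ℝ) / N,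
        ((N - s v 2 - s v 3 - s v 1 : ℕ) : ℝ) / N, ((s v 3 - a v : ℕ) : ℝ) / N,
        ((s v 1 - b v : ℕ) : ℝ) / N]
      have hspc : ∀ v k, spc p v k = (s v k : ℝ) / N := by
        intro v k
        fin_cases k
        · change ((N - s v 2 - s v 3 - s v 1 : ℕ) : ℝ) / N = (s v 0 : ℝ) / N
          rw [hs0]
        · change (b v : ℝ) / N + ((s v 1 - b v : ℕ) : ℝ) / N = (s v 1 : ℝ) / N
          rw [← add_div, Nat.cast_sub (hb v)]
          congr 1
          ring
        · rfl
        · change (a v : ℝ) / N + ((s v 3 - a v : ℕ) : ℝ) / N = (s v 3 : ℝ) / N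
          rw [← add_div, Nat.cast_sub (ha v)]
          congr 1
          ring
      refine ⟨p, ⟨?_, ?_, ?_, ?_, ?_⟩, ?_⟩
      · intro v k
        fin_cases k
        · change (0 : ℝ) ≤ (s v 2 : ℝ) / N
          positivity
        · change (0 : ℝ) ≤ (a v : ℝ) / N
          positivity
        · change (0 : ℝ) ≤ (b v : ℝ) / N
          positivity
        · change (0 : ℝ) ≤ ((N - s v 2 - s v 3 - s v 1 : ℕ) : ℝ) / N
          positivity
        · change (0 : ℝ) ≤ ((s v 3 - a v : ℕ) : ℝ) / N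
          positivity
        · change (0 : ℝ) ≤ ((s v 1 - b v : ℕ) : ℝ) / N
          positivity
      · intro v
        change (s v 2 : ℝ) / N + (a v : ℝ) / N + (b v : ℝ) / N = (J v : ℝ) / N
        rw [← add_div, ← add_div]
        congr 1
        have := hab v
        exact_mod_cast this
      · intro v
        change ((N - s v 2 - s v 3 - s v 1 : ℕ) : ℝ) / N + ((s v 3 - a v : ℕ) : ℝ) / N +
          ((s v 1 - b v : ℕ) : ℝ) / N = 1 - (J v : ℝ) / N
        rw [← add_div, ← add_div, eq_sub_iff_add_eq, ← add_div, div_eq_one_iff_eq hN0.ne']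
        have h1 := hab v
        have h2 := hsum v
        have h3 := ha v
        have h4 := hb v
        have : N - s v 2 - s v 3 - s v 1 + (s v 3 - a v) + (s v 1 - b v) + J v = N := by omega
        exact_mod_cast this
      · intro f hf
        have h1 := hst.2.1 f hf
        have h2 : ∑ v, ∑ k, (if cor v k = f then spc p v k else 0) =
            (∑ v, ∑ k, (if cor v k = f then (s v k : ℝ) else 0)) / N := by
          rw [Finset.sum_div]
          refine Finset.sum_congr rfl fun v _ => ?_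
          rw [Finset.sum_div]
          refine Finset.sum_congr rfl fun k _ => ?_
          rw [hspc]
          split_ifs
          · rfl
          · rw [zero_div]
        rw [h2, div_eq_one_iff_eq hN0.ne']
        have h3 : ((∑ v, ∑ k, (if cor v k = f then s v k else 0) : ℕ) : ℝ) = (N : ℝ) := by
          rw [h1]
        rw [← h3]
        push_cast
        rfl
      · intro v k hk
        rw [hspc, hst.2.2 v k hk, Nat.cast_zero, zero_div]
      · have h1 : ∏ v, wJB N (J v) (s v 2) (s v 3) (s v 1) ≤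
            ∏ v, (((N + 1 : ℕ) : ℝ) ^ 2 * N_Gap_T N (J v) (s v 2) (s v 3) (s v 1) (a v) (b v)) :=
          Finset.prod_le_prod (fun v _ => N_Gap_wJB_nonneg _ _ _ _ _) (fun v _ => hT v)
        have h2 : ∏ v, (((N + 1 : ℕ) : ℝ) ^ 2 *
            N_Gap_T N (J v) (s v 2) (s v 3) (s v 1) (a v) (b v)) =
            ((N + 1 : ℕ) : ℝ) ^ (2 * c) * Real.exp (N * EVs (fun v => (J v : ℝ) / N) p) := by
          rw [Finset.prod_mul_distrib, Finset.prod_const, Finset.card_univ, Fintype.card_fin,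
            ← pow_mul]
          congr 1
          unfold EVs
          rw [Finset.mul_sum, Real.exp_sum]
          refine Finset.prod_congr rfl fun v _ => ?_
          rw [N_Gap_T_eq N (J v) (s v 2) (s v 3) (s v 1) (a v) (b v) hN (hJ v)]
          rfl
        have h3 : BN F cor N J ≤ (((N + 1) ^ (4 * c) : ℕ) : ℝ) *
            ∏ v, wJB N (J v) (s v 2) (s v 3) (s v 1) := hle
        calc BN F cor N J ≤ (((N + 1) ^ (4 * c) : ℕ) : ℝ) *
            ∏ v, wJB N (J v) (s v 2) (s v 3) (s v 1) := h3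
          _ ≤ (((N + 1) ^ (4 * c) : ℕ) : ℝ) * (((N + 1 : ℕ) : ℝ) ^ (2 * c) *
              Real.exp (N * EVs (fun v => (J v : ℝ) / N) p)) := by
            rw [← h2]
            exact mul_le_mul_of_nonneg_left h1 (Nat.cast_nonneg _)
          _ = ((N + 1 : ℕ) : ℝ) ^ (6 * c) *
              Real.exp (N * EVs (fun v => (J v : ℝ) / N) p) := by
            rw [← mul_assoc, Nat.cast_pow, ← pow_add]
            congr 2
            ring
    · rw [if_neg hst] at hpos
      exact absurd hpos (lt_irrefl _)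

theorem BN_nonneg (F : Finset ℕ) (cor : Fin c → Fin 4 → ℕ) (N : ℕ) (J : Fin c → ℕ) :
    0 ≤ BN F cor N J := by
  unfold BN
  refine Finset.sum_nonneg fun s _ => ?_
  split_ifs
  · exact Finset.prod_nonneg fun v _ => N_Gap_wJB_nonneg _ _ _ _ _
  · exact le_rfl

theorem grow_far (hx : IsMaxN F cor x) (hopp : ∀ v, cor v 0 ∈ F ∨ cor v 2 ∈ F) (ε : ℝ)
    (hε : 0 < ε) : ∃ δ : ℝ, 0 < δ ∧ ∀ (N : ℕ) (J : Fin c → ℕ), 1 ≤ N → (∀ v, J v ≤ N) →
      (∃ v, ε ≤ |(J v : ℝ) / N - 1 / 2|) →
      BN F cor N J * BN F cor N (fun v => N - J v) ≤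
        (((N + 1 : ℕ) : ℝ) ^ (6 * c) * Real.exp (N * (Uf x - δ))) ^ 2 := by
  obtain ⟨δ, hδ, hgap⟩ := gap_real hx hopp ε hε
  refine ⟨δ, hδ, ?_⟩
  intro N J hN hJ hfar
  have hN0 : (0 : ℝ) < N := by exact_mod_cast hN
  have hsq : (0 : ℝ) ≤ (((N + 1 : ℕ) : ℝ) ^ (6 * c) * Real.exp (N * (Uf x - δ))) ^ 2 := sq_nonneg _
  rcases BN_le F cor N J hN hJ with h | ⟨p, hp, hle⟩
  · rw [h, zero_mul]
    exact hsq
  rcases BN_le F cor N (fun v => N - J v) hN (fun v => Nat.sub_le _ _) with h | ⟨p', hp', hle'⟩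
  · rw [h, mul_zero]
    exact hsq
  have he : (fun v => (((N - J v : ℕ) : ℝ)) / N) = fun v => 1 - (J v : ℝ) / N := by
    funext v
    rw [Nat.cast_sub (hJ v), sub_div, div_self hN0.ne']
  rw [he] at hp' hle'
  have h1 := hgap (fun v => (J v : ℝ) / N) p p' hp hp' hfar
  calc BN F cor N J * BN F cor N (fun v => N - J v)
      ≤ (((N + 1 : ℕ) : ℝ) ^ (6 * c) * Real.exp (N * EVs (fun v => (J v : ℝ) / N) p)) *
        (((N + 1 : ℕ) : ℝ) ^ (6 * c) * Real.exp (N * EVs (fun v => 1 - (J v : ℝ) / N) p')) :=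
        mul_le_mul hle hle' (BN_nonneg _ _ _ _) (by positivity)
    _ = (((N + 1 : ℕ) : ℝ) ^ (6 * c)) ^ 2 *
        Real.exp (N * (EVs (fun v => (J v : ℝ) / N) p + EVs (fun v => 1 - (J v : ℝ) / N) p')) := by
        rw [mul_add, Real.exp_add]
        ring
    _ ≤ (((N + 1 : ℕ) : ℝ) ^ (6 * c)) ^ 2 * Real.exp (N * (2 * (Uf x - δ))) := by
        apply mul_le_mul_of_nonneg_left _ (by positivity)
        exact Real.exp_le_exp.2 (mul_le_mul_of_nonneg_left h1 hN0.le)
    _ = (((N + 1 : ℕ) : ℝ) ^ (6 * c) * Real.exp (N * (Uf x - δ))) ^ 2 := by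
        rw [mul_pow, ← Real.exp_nat_mul]
        congr 2
        push_cast
        ring

/-- The bound of the whole sum for a channel which is not close to the middle. -/
theorem algFar {w : List TPiece} (hT : IsTemplate w c F cor) (hlr : ∀ v, cor v 3 ≠ cor v 1)
    (hx : IsMaxN F cor x) (hopp : ∀ v, cor v 0 ∈ F ∨ cor v 2 ∈ F) (ε : ℝ) (hε : 0 < ε) :
    ∃ δ : ℝ, 0 < δ ∧ ∃ C : ℝ, 0 < C ∧ ∃ D : ℕ, ∀ (N : ℕ) (A : Finset (Fin c)) (k : Fin c → ℕ),
      1 ≤ N → (∀ v, k v ≤ N) → (∃ v, ε ≤ |(k v : ℝ) / N - 1 / 2|) →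
      ‖stSum F cor N (fun t s => PE N A k t * corP N t s)‖ ≤
        C * ((N + 1 : ℕ) : ℝ) ^ D * Real.exp (N * (Uf x - δ)) := by
  obtain ⟨δ, hδ, hgrow⟩ := grow_far hx hopp ε hε
  obtain ⟨C, hC, D, halg⟩ := alg_bound hT hlr
  refine ⟨δ, hδ, C * 2 ^ c, by positivity, D + 6 * c, ?_⟩
  intro N A k hN hk hfar
  have hN0 : (0 : ℝ) < N := by exact_mod_cast hN
  obtain ⟨X, hX⟩ : ∃ X : ℝ, X = ((N + 1 : ℕ) : ℝ) ^ (6 * c) * Real.exp (N * (Uf x - δ)) := ⟨_, rfl⟩
  have hX0 : 0 ≤ X := by rw [hX]; positivity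
  have hterm : ∀ σ ∈ A.powerset, min (BN F cor N (fun v => if v ∈ σ then N - k v else k v))
      (BN F cor N (fun v => N - (if v ∈ σ then N - k v else k v))) ≤ X := by
    intro σ _
    have h1 := hgrow N (fun v => if v ∈ σ then N - k v else k v) hN (fun v => by
      split_ifs
      · exact Nat.sub_le _ _
      · exact hk v) (by
      obtain ⟨v, hv⟩ := hfar
      refine ⟨v, ?_⟩
      split_ifs
      · rw [Nat.cast_sub (hk v), sub_div, div_self hN0.ne']
        have e : (1 : ℝ) - (k v : ℝ) / N - 1 / 2 = -((k v : ℝ) / N - 1 / 2) := by ring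
        rw [e, abs_neg]
        exact hv
      · exact hv)
    rw [← hX] at h1
    by_contra hcon
    push Not at hcon
    have h2 := (lt_min_iff.1 hcon).1
    have h3 := (lt_min_iff.1 hcon).2
    have h4 : X ^ 2 < BN F cor N (fun v => if v ∈ σ then N - k v else k v) *
        BN F cor N (fun v => N - (if v ∈ σ then N - k v else k v)) := by
      rw [sq]
      exact mul_lt_mul'' h2 h3 hX0 hX0
    exact absurd h1 (not_le.2 h4)
  have hsum : ∑ σ ∈ A.powerset, min (BN F cor N (fun v => if v ∈ σ then N - k v else k v))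
      (BN F cor N (fun v => N - (if v ∈ σ then N - k v else k v))) ≤ 2 ^ c * X := by
    calc _ ≤ ∑ _σ ∈ A.powerset, X := Finset.sum_le_sum hterm
      _ = (2 : ℝ) ^ A.card * X := by
        rw [Finset.sum_const, Finset.card_powerset, nsmul_eq_mul]
        push_cast
        rfl
      _ ≤ 2 ^ c * X := by
        apply mul_le_mul_of_nonneg_right _ hX0
        apply pow_le_pow_right₀ (by norm_num)
        have := Finset.card_le_univ A
        rwa [Fintype.card_fin] at this
  calc ‖stSum F cor N (fun t s => PE N A k t * corP N t s)‖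
      ≤ C * ((N + 1 : ℕ) : ℝ) ^ D *
        ∑ σ ∈ A.powerset, min (BN F cor N (fun v => if v ∈ σ then N - k v else k v))
          (BN F cor N (fun v => N - (if v ∈ σ then N - k v else k v))) := halg N A k hN hk
    _ ≤ C * ((N + 1 : ℕ) : ℝ) ^ D * (2 ^ c * X) :=
        mul_le_mul_of_nonneg_left hsum (by positivity)
    _ = C * 2 ^ c * ((N + 1 : ℕ) : ℝ) ^ (D + 6 * c) * Real.exp (N * (Uf x - δ)) := by
        rw [hX, pow_add]
        ring

end Pool.Agent.H63.CLK
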