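import Pool.Agent.H63.CLK.N_Far
import Pool.Agent.H63.CLK.N_Gap
import Pool.Agent.H63.CLK.N_Eta

/-!
# All directions, analysis: the far part of the state sum

`chan_far`: `ε`, `δ₁` from `farP`; `δ₂` from `algFar`, `δ₃` from `nearP` for this `ε`; if some `|k v / N - 1/2| ≥ ε`, the far sum is the
whole sum minus the near sum.

`far_ok`: `eta_QE` for every `a v`; expand the product (`Finset.prod_univ_sum` over `(k v, v ∈ A or not)`): the far sum is
`∑_k ∑_A (∏ coefficients) * far sum (k, A)`, at most `(2 (N+1))^c` terms with coefficients at most `(C (N+1))^c`, and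
`exp (N (Uf x - δ)) ≤ exp ((N+1) (Uf x - δ)) * exp |Uf x - δ|`.
-/

set_option autoImplicit false

namespace Pool.Agent.H63.CLK

open Pool.Agent.H63.VC hiding ext
open Pool.Agent.H63.VC3 Pool.Agent.H63.VC4 Pool.Agent.H63.VC7 Complex Filter Topology
open scoped BigOperators

variable {c : ℕ} {F : Finset ℕ} {cor : Fin c → Fin 4 → ℕ} {x : Vr c → ℝ}

private theorem N_FAR_congr (N : ℕ) (f g : (Fin c → ℕ) → (Fin c → Fin 4 → ℕ) → ℂ)
    (h : ∀ t, (∀ v, t v ≤ N) → ∀ s, f t s = g t s) :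
    stSum F cor N f = stSum F cor N g := by
  unfold stSum
  refine Finset.sum_congr rfl (fun t ht => Finset.sum_congr rfl (fun s _ => ?_))
  rw [h t (fun v => ?_) s]
  have h1 := (Fintype.mem_piFinset.1 ht) v
  rw [Finset.mem_range] at h1
  omega

private theorem N_FAR_lin {ι : Type} (N : ℕ) (P : Finset ι) (cf : ι → ℂ)
    (g : ι → (Fin c → ℕ) → (Fin c → Fin 4 → ℕ) → ℂ) :
    stSum F cor N (fun t s => ∑ p ∈ P, cf p * g p t s) =
      ∑ p ∈ P, cf p * stSum F cor N (g p) := by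
  unfold stSum
  simp_rw [Finset.mul_sum]
  rw [Finset.sum_comm (s := P)]
  refine Finset.sum_congr rfl (fun t _ => ?_)
  rw [Finset.sum_comm (s := P)]
  refine Finset.sum_congr rfl (fun s _ => ?_)
  by_cases hS : IsState F cor N s
  · simp only [if_pos hS]
  · simp only [if_neg hS, mul_zero, Finset.sum_const_zero]

private theorem N_FAR_sub (N : ℕ) (f g : (Fin c → ℕ) → (Fin c → Fin 4 → ℕ) → ℂ) :
    stSum F cor N (fun t s => f t s - g t s) = stSum F cor N f - stSum F cor N g := by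
  unfold stSum
  rw [← Finset.sum_sub_distrib]
  refine Finset.sum_congr rfl (fun t _ => ?_)
  rw [← Finset.sum_sub_distrib]
  refine Finset.sum_congr rfl (fun s _ => ?_)
  by_cases hS : IsState F cor N s
  · simp only [if_pos hS]
  · simp only [if_neg hS, sub_zero]

private theorem N_FAR_mono {C C' : ℝ} {D D' N : ℕ} {U δ δ' : ℝ} (hC0 : 0 ≤ C) (hC : C ≤ C')
    (hD : D ≤ D') (hδ : δ' ≤ δ) :
    C * ((N + 1 : ℕ) : ℝ) ^ D * Real.exp (N * (U - δ)) ≤
      C' * ((N + 1 : ℕ) : ℝ) ^ D' * Real.exp (N * (U - δ')) := by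
  have h1 : (1 : ℝ) ≤ ((N + 1 : ℕ) : ℝ) := by exact_mod_cast Nat.succ_le_succ (Nat.zero_le N)
  have h2 : ((N + 1 : ℕ) : ℝ) ^ D ≤ ((N + 1 : ℕ) : ℝ) ^ D' := pow_le_pow_right₀ h1 hD
  have h3 : Real.exp (N * (U - δ)) ≤ Real.exp (N * (U - δ')) := by
    apply Real.exp_le_exp.2
    exact mul_le_mul_of_nonneg_left (by linarith) (Nat.cast_nonneg N)
  have h4 : C * ((N + 1 : ℕ) : ℝ) ^ D ≤ C' * ((N + 1 : ℕ) : ℝ) ^ D' :=
    mul_le_mul hC h2 (by positivity) (hC0.trans hC)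
  exact mul_le_mul h4 h3 (Real.exp_pos _).le
    (mul_nonneg (hC0.trans hC) (by positivity))

theorem chan_far {w : List TPiece} (hT : IsTemplate w c F cor) (hlr : ∀ v, cor v 3 ≠ cor v 1)
    (hx : IsMaxN F cor x) (hopp : ∀ v, cor v 0 ∈ F ∨ cor v 2 ∈ F) :
    ∃ δ : ℝ, 0 < δ ∧ ∃ C : ℝ, 0 < C ∧ ∃ D : ℕ, ∀ (N : ℕ) (A : Finset (Fin c)) (k : Fin c → ℕ),
      1 ≤ N → (∀ v, k v ≤ N) →
      ‖stSum F cor N (fun t s => if ∀ v, N ≤ 2 * t v then 0 else PE N A k t * corP N t s)‖ ≤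
        C * ((N + 1 : ℕ) : ℝ) ^ D * Real.exp (N * (Uf x - δ)) := by
  obtain ⟨ε, hε, δ₁, hδ₁, C₁, hC₁, D₁, h₁⟩ := farP hx
  obtain ⟨δ₂, hδ₂, C₂, hC₂, D₂, h₂⟩ := algFar hT hlr hx hopp ε hε
  obtain ⟨δ₃, hδ₃, C₃, hC₃, D₃, h₃⟩ := nearP hx ε hε
  refine ⟨min δ₁ (min δ₂ δ₃), lt_min hδ₁ (lt_min hδ₂ hδ₃), C₁ + C₂ + C₃, by positivity,
    D₁ + D₂ + D₃, ?_⟩
  intro N A k hN hk
  by_cases hex : ∃ v, ε ≤ |(k v : ℝ) / N - 1 / 2|
  · have e1 : stSum F cor N (fun t s => if ∀ v, N ≤ 2 * t v then 0 else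
        PE N A k t * corP N t s) =
        stSum F cor N (fun t s => PE N A k t * corP N t s) -
        stSum F cor N (fun t s => if ∀ v, N ≤ 2 * t v then PE N A k t * corP N t s else 0) := by
      rw [← N_FAR_sub]
      apply N_FAR_congr
      intro t _ s
      by_cases hp : ∀ v, N ≤ 2 * t v
      · rw [if_pos hp, if_pos hp, sub_self]
      · rw [if_neg hp, if_neg hp, sub_zero]
    rw [e1]
    refine (norm_sub_le _ _).trans ?_
    have a2 := h₂ N A k hN hk hex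
    have a3 := h₃ N A k hN hk hex
    have b2 : C₂ * ((N + 1 : ℕ) : ℝ) ^ D₂ * Real.exp (N * (Uf x - δ₂)) ≤
        C₂ * ((N + 1 : ℕ) : ℝ) ^ (D₁ + D₂ + D₃) *
          Real.exp (N * (Uf x - min δ₁ (min δ₂ δ₃))) :=
      N_FAR_mono hC₂.le le_rfl (by omega) ((min_le_right _ _).trans (min_le_left _ _))
    have b3 : C₃ * ((N + 1 : ℕ) : ℝ) ^ D₃ * Real.exp (N * (Uf x - δ₃)) ≤
        C₃ * ((N + 1 : ℕ) : ℝ) ^ (D₁ + D₂ + D₃) *
          Real.exp (N * (Uf x - min δ₁ (min δ₂ δ₃))) :=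
      N_FAR_mono hC₃.le le_rfl (by omega) ((min_le_right _ _).trans (min_le_right _ _))
    have b1 : 0 ≤ C₁ * ((N + 1 : ℕ) : ℝ) ^ (D₁ + D₂ + D₃) *
          Real.exp (N * (Uf x - min δ₁ (min δ₂ δ₃))) := by positivity
    calc _ ≤ C₂ * ((N + 1 : ℕ) : ℝ) ^ (D₁ + D₂ + D₃) *
          Real.exp (N * (Uf x - min δ₁ (min δ₂ δ₃))) +
          C₃ * ((N + 1 : ℕ) : ℝ) ^ (D₁ + D₂ + D₃) *
          Real.exp (N * (Uf x - min δ₁ (min δ₂ δ₃))) := add_le_add (a2.trans b2) (a3.trans b3)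
      _ ≤ C₁ * ((N + 1 : ℕ) : ℝ) ^ (D₁ + D₂ + D₃) *
          Real.exp (N * (Uf x - min δ₁ (min δ₂ δ₃))) +
          (C₂ * ((N + 1 : ℕ) : ℝ) ^ (D₁ + D₂ + D₃) *
          Real.exp (N * (Uf x - min δ₁ (min δ₂ δ₃))) +
          C₃ * ((N + 1 : ℕ) : ℝ) ^ (D₁ + D₂ + D₃) *
          Real.exp (N * (Uf x - min δ₁ (min δ₂ δ₃)))) := le_add_of_nonneg_left b1
      _ = _ := by ring
  · push Not at hex
    refine (h₁ N A k hN hk hex).trans ?_
    exact N_FAR_mono hC₁.le (by linarith) (by omega) (min_le_left _ _)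

private theorem N_FAR_exp (N : ℕ) (y : ℝ) :
    Real.exp (N * y) ≤ Real.exp (((N + 1 : ℕ) : ℝ) * y) * Real.exp |y| := by
  rw [← Real.exp_add]
  apply Real.exp_le_exp.2
  have := neg_abs_le y
  push_cast
  nlinarith

theorem far_ok {w : List TPiece} (hT : IsTemplate w c F cor) (hlr : ∀ v, cor v 3 ≠ cor v 1)
    (hx : IsMaxN F cor x) (hopp : ∀ v, cor v 0 ∈ F ∨ cor v 2 ∈ F) : FarOK F cor x := by
  classical
  obtain ⟨δ, hδ, C, hC, D, hfar⟩ := chan_far hT hlr hx hopp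
  refine ⟨δ, hδ, fun a => ?_⟩
  choose K hK hQE using fun v => eta_QE (a v)
  refine ⟨2 ^ c * (∏ v, K v) * C * Real.exp |Uf x - δ|, ?_, 2 * c + D, 1, ?_⟩
  · have h0 : 0 < ∏ v, K v := Finset.prod_pos (fun v _ => hK v)
    positivity
  intro N hN
  choose m l hml hsum using fun v => hQE v N
  -- the coefficients and the index set
  let cf : (Fin c → ℕ × Bool) → ℂ := fun p => ∏ v, (if (p v).2 then l v (p v).1 else m v (p v).1)
  let P : Finset (Fin c → ℕ × Bool) :=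
    Fintype.piFinset (fun _ : Fin c => Finset.range (N + 1) ×ˢ (Finset.univ : Finset Bool))
  let Ap : (Fin c → ℕ × Bool) → Finset (Fin c) := fun p => Finset.univ.filter (fun v => (p v).2 = true)
  let kp : (Fin c → ℕ × Bool) → Fin c → ℕ := fun p v => (p v).1
  have hprod : ∀ t : Fin c → ℕ, (∀ v, t v ≤ N) →
      (∏ v, eta (a v) N (t v)) = ∑ p ∈ P, cf p * PE N (Ap p) (kp p) t := by
    intro t ht
    have h1 : ∀ v, eta (a v) N (t v) = ∑ q ∈ Finset.range (N + 1) ×ˢ (Finset.univ : Finset Bool),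
        (if q.2 then l v q.1 else m v q.1) *
          (((if q.2 then EN N q.1 (t v) else QN N q.1 (t v)) : ℝ) : ℂ) := by
      intro v
      rw [hsum v (t v) (ht v), Finset.sum_product]
      refine Finset.sum_congr rfl (fun k _ => ?_)
      rw [Fintype.sum_bool]
      simp only [if_true, Bool.false_eq_true, if_false]
      ring
    rw [Finset.prod_congr rfl (fun v _ => h1 v), Finset.prod_univ_sum]
    refine Finset.sum_congr rfl (fun p _ => ?_)
    rw [Finset.prod_mul_distrib]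
    congr 1
    unfold PE
    refine Finset.prod_congr rfl (fun v _ => ?_)
    congr 1
    simp only [Ap, kp, Finset.mem_filter, Finset.mem_univ, true_and]
  have hexp : stSum F cor N (fun t s => if ∀ v, N ≤ 2 * t v then 0 else
      (∏ v, eta (a v) N (t v)) * corP N t s) =
      ∑ p ∈ P, cf p * stSum F cor N (fun t s => if ∀ v, N ≤ 2 * t v then 0 else
        PE N (Ap p) (kp p) t * corP N t s) := by
    rw [← N_FAR_lin]
    apply N_FAR_congr
    intro t ht s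
    by_cases hp : ∀ v, N ≤ 2 * t v
    · simp only [if_pos hp, mul_zero, Finset.sum_const_zero]
    · simp only [if_neg hp]
      rw [hprod t ht, Finset.sum_mul]
      refine Finset.sum_congr rfl (fun p _ => ?_)
      ring
  rw [hexp]
  have hN1 : (0 : ℝ) ≤ ((N + 1 : ℕ) : ℝ) := Nat.cast_nonneg _
  have hterm : ∀ p ∈ P, ‖cf p * stSum F cor N (fun t s => if ∀ v, N ≤ 2 * t v then 0 else
        PE N (Ap p) (kp p) t * corP N t s)‖ ≤
      ((∏ v, K v) * ((N + 1 : ℕ) : ℝ) ^ c) *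
        (C * ((N + 1 : ℕ) : ℝ) ^ D * Real.exp (N * (Uf x - δ))) := by
    intro p hp
    have hpk : ∀ v, (p v).1 ≤ N := by
      intro v
      have h2 := (Fintype.mem_piFinset.1 hp) v
      rw [Finset.mem_product, Finset.mem_range] at h2
      omega
    rw [norm_mul]
    apply mul_le_mul _ (hfar N (Ap p) (kp p) hN hpk) (norm_nonneg _) _
    · simp only [cf]
      rw [_root_.norm_prod]
      have h3 : (∏ v, K v) * ((N + 1 : ℕ) : ℝ) ^ c = ∏ v : Fin c, (K v * ((N + 1 : ℕ) : ℝ)) := by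
        rw [Finset.prod_mul_distrib, Finset.prod_const, Finset.card_univ, Fintype.card_fin]
      rw [h3]
      apply Finset.prod_le_prod (fun v _ => norm_nonneg _)
      intro v _
      by_cases hb : (p v).2 = true
      · rw [if_pos hb]
        exact (hml v (p v).1 (hpk v)).2
      · rw [if_neg hb]
        exact (hml v (p v).1 (hpk v)).1
    · exact mul_nonneg (Finset.prod_nonneg (fun v _ => (hK v).le)) (by positivity)
  have hcard : (P.card : ℝ) = 2 ^ c * ((N + 1 : ℕ) : ℝ) ^ c := by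
    have h4 : P.card = (2 * (N + 1)) ^ c := by
      simp only [P]
      rw [Fintype.card_piFinset]
      simp only [Finset.card_product, Finset.card_range, Finset.card_univ, Fintype.card_bool,
        Finset.prod_const, Fintype.card_fin]
      rw [mul_comm]
    rw [h4]
    push_cast
    rw [mul_pow]
  have hprod0 : 0 ≤ ∏ v, K v := Finset.prod_nonneg (fun v _ => (hK v).le)
  calc ‖∑ p ∈ P, cf p * stSum F cor N (fun t s => if ∀ v, N ≤ 2 * t v then 0 else
        PE N (Ap p) (kp p) t * corP N t s)‖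
      ≤ ∑ p ∈ P, ‖cf p * stSum F cor N (fun t s => if ∀ v, N ≤ 2 * t v then 0 else
        PE N (Ap p) (kp p) t * corP N t s)‖ := norm_sum_le _ _
    _ ≤ ∑ _p ∈ P, ((∏ v, K v) * ((N + 1 : ℕ) : ℝ) ^ c) *
        (C * ((N + 1 : ℕ) : ℝ) ^ D * Real.exp (N * (Uf x - δ))) := Finset.sum_le_sum hterm
    _ = (2 ^ c * ((N + 1 : ℕ) : ℝ) ^ c) * (((∏ v, K v) * ((N + 1 : ℕ) : ℝ) ^ c) *
        (C * ((N + 1 : ℕ) : ℝ) ^ D * Real.exp (N * (Uf x - δ)))) := by
        rw [Finset.sum_const, nsmul_eq_mul, hcard]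
    _ ≤ (2 ^ c * ((N + 1 : ℕ) : ℝ) ^ c) * (((∏ v, K v) * ((N + 1 : ℕ) : ℝ) ^ c) *
        (C * ((N + 1 : ℕ) : ℝ) ^ D *
          (Real.exp (((N + 1 : ℕ) : ℝ) * (Uf x - δ)) * Real.exp |Uf x - δ|))) := by
        apply mul_le_mul_of_nonneg_left _ (by positivity)
        apply mul_le_mul_of_nonneg_left _ (by positivity)
        exact mul_le_mul_of_nonneg_left (N_FAR_exp N _) (by positivity)
    _ = _ := by
        rw [show 2 * c + D = c + c + D by ring, pow_add, pow_add]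
        ring

end Pool.Agent.H63.CLK
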