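import Pool.Agent.H63.CLK.C_Defs

/-!
# The symmetric volume function

`volSy` is the volume function for the better one of the two directions of every twist region.
-/

set_option autoImplicit false

namespace Pool.Agent.H63.CLK

open Pool.Agent.H63.VC hiding ext
open Pool.Agent.H63.VC3 Pool.Agent.H63.VC4 Pool.Agent.H63.VC7
open scoped BigOperators

/-- The graph is prime: at most two twist regions (the ends of the edge where the graph is cut) have
two consecutive corners in the two outer faces, no twist region has two opposite corners in the outer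
faces, and every corner in a bounded face is marked in some Kauffman state. -/
structure IsPrimeT {c : ℕ} (F : Finset ℕ) (cor : Fin c → Fin 4 → ℕ) : Prop where
  ends : ∃ v₁ v₂ : Fin c, ∀ v, IsEnd F cor v → v = v₁ ∨ v = v₂
  opp : ∀ v k, cor v k ∈ F ∨ cor v (k + 2) ∈ F
  state : ∀ v k, cor v k ∈ F → ∃ s : Fin c → Fin 4 → ℕ, IsState F cor 1 s ∧ s v k ≠ 0

/-- The symmetric volume function. -/
noncomputable def volSy {c : ℕ} (x : Vr c → ℝ) : ℝ :=
  ∑ v, (4 * (lob (Real.pi * |x (Sum.inl v) - 1 / 2|) +
      lob (Real.pi * (1 / 2 - |x (Sum.inl v) - 1 / 2|))) +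
    ∑ k, 2 * (lob (Real.pi * x (Sum.inr (v, k))) +
      lob (Real.pi * (cz 1 (x (Sum.inl v)) k - x (Sum.inr (v, k))))))

/-- The interior of the polytope of all angles. -/
structure IntS {c : ℕ} (F : Finset ℕ) (cor : Fin c → Fin 4 → ℕ) (x : Vr c → ℝ) : Prop where
  ang : IsAng F cor x
  gt0 : ∀ v, 0 < x (Sum.inl v)
  lt1 : ∀ v, x (Sum.inl v) < 1
  pos : ∀ v k, cor v k ∈ F → ¬ IsEnd F cor v → 0 < x (Sum.inr (v, k))
  lt : ∀ v k, cor v k ∈ F → ¬ IsEnd F cor v → x (Sum.inr (v, k)) < cz 1 (x (Sum.inl v)) k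

/-- Rotation of the twist regions `v` with `B v`, for angles. -/
def rotx {c : ℕ} (B : Fin c → Bool) (x : Vr c → ℝ) : Vr c → ℝ
  | Sum.inl v => if B v then 1 - x (Sum.inl v) else x (Sum.inl v)
  | Sum.inr (v, k) => if B v then x (Sum.inr (v, k - 1)) else x (Sum.inr (v, k))

/-- Rotation of the twist regions `v` with `B v`, for the corners, and renaming of the faces. -/
def rotcor {c : ℕ} (ρ : ℕ → ℕ) (B : Fin c → Bool) (cor : Fin c → Fin 4 → ℕ) : Fin c → Fin 4 → ℕ :=
  fun v k => ρ (cor v (if B v then k - 1 else k))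

/-- The template obtained by rotating the twist regions `v` with `B v` by 90 degrees. -/
def rot (B : ℕ → Bool) : ℕ → List TPiece → List TPiece
  | _, [] => []
  | v, .cup i :: w => .cup i :: rot B v w
  | v, .cap i :: w => .cap i :: rot B v w
  | v, .tw i :: w => (if B v then [.cup (i + 2), .tw (i + 1), .cap i] else [.tw i]) ++
      rot B (v + 1) w

end Pool.Agent.H63.CLK
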