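import Pool.Agent.H63.CLK.A_Glob
import Pool.Agent.H63.CLK.A_Fill
import Pool.Agent.H63.CLK.H_Def

/-!
# All directions: no face is at both sides of a twist region

Let `N = 1`, `q = qz 1 = i`. The loop value is `0`. Let `TL k` be the set of the vectors `z • act (cup j_k) (… (act (cup j_1) e_0))`
with `‖z‖ ≤ 1` (on lists of length `2 k + 1`, all positions in the range), or `0`.

(1) `act (cap i)` maps `TL (k + 1)` to `TL k`: induction on `k`; `act (cap i) (act (cup i) φ) = 0`,
`act (cap (i+1)) (act (cup i) φ)` and `act (cap i) (act (cup (i+1)) φ)` are `φ` up to a factor of norm 1, and for `|i - j| ≥ 2` the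
maximum and the minimum commute (`act (cap i) (act (cup j) φ) = act (cup j) (act (cap (i-2)) φ)` for `j + 2 ≤ i`,
`= act (cup (j-2)) (act (cap i) φ)` for `i + 2 ≤ j`).
(2) `em (qz 1) 1 0 = 1`, and `em (qz 1) 1 1` is a maximum followed by a minimum, up to a factor of norm 1 (a `4 × 4` matrix of rank
one), so `actE (qz 1) 1 t i` maps `TL k` to `TL k` for `t = 0, 1`.
(3) So the value `evalT (qz 1) 1 t 0 w e_0 [0]` has norm at most `1` (`TL 0`), and by the clock theorem (`clock`, `A_Glob.lean`) it is the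
number of the states with `s v k ≤ csz 1 (t v) k`, since all the `qbin` are `1`. This is `uniq_state`.

`side_ne`: let `cor v 3 = cor v 1 = f`. By `IsPrimeT.opp` (for `k = 1`) `f ∈ F`, and by `IsPrimeT.state` there is a state `s` with
`s v 1 ≠ 0` (`s v 1 = 1`, the other `s v k` are `0`). Let `s'` be `s` except that the corner `3` of `v` is marked instead of the corner `1`;
it is a state since both corners are in the same face. With `t u = s u 1 + s u 3` both are compatible with `t`, in contradiction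
to `uniq_state`.
-/

set_option autoImplicit false

namespace Pool.Agent.H63.CLK

open Pool.Agent.H63.VC7 Pool.Agent.H63.VC10

private theorem N_Lr_q2 : qz 1 * qz 1 = -1 := by
  have h := A_Em_qz_M 1
  have e : ((1 : ℕ) : ℤ) + 1 = (2 : ℕ) := by norm_num
  rw [e, zpow_natCast, pow_two] at h
  exact h

private theorem N_Lr_brf1 : brf (qz 1) 1 ≠ 0 := A_Em_brf_ne 1 le_rfl

private theorem N_Lr_brf0 : brf (qz 1) 0 = 1 := by
  simp [brf]

private theorem N_Lr_c0 : cupc (qz 1) 1 0 = 1 := by
  have h := N_Lr_brf1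
  simp [cupc, N_Lr_brf0, h]

private theorem N_Lr_c1 : cupc (qz 1) 1 1 = -(qz 1)⁻¹ := by
  have h := N_Lr_brf1
  simp [cupc, N_Lr_brf0, h]

private theorem N_Lr_c1ne : cupc (qz 1) 1 1 ≠ 0 := by
  rw [N_Lr_c1]
  exact neg_ne_zero.2 (inv_ne_zero (A_Em_qz_ne 1))

private theorem N_Lr_cap0 (ψ : List ℕ → ℂ) (l : List ℕ) :
    act (qz 1) 1 (.cap 0) ψ l =
      (cupc (qz 1) 1 1)⁻¹ * ψ (0 :: 1 :: l) + (cupc (qz 1) 1 0)⁻¹ * ψ (1 :: 0 :: l) := by
  simp [act, Finset.sum_range_succ]

private theorem N_Lr_cup0 (ψ : List ℕ → ℂ) (a b : ℕ) (l : List ℕ) :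
    act (qz 1) 1 (.cup 0) ψ (a :: b :: l) =
      if a + b = 1 then cupc (qz 1) 1 a * ψ l else 0 := by
  simp [act]

/-- far apart -/
private theorem N_Lr_C1 (j d : ℕ) (φ : List ℕ → ℂ) (l : List ℕ) (h : j + 2 + d ≤ l.length) :
    act (qz 1) 1 (.cap (j + 2 + d)) (act (qz 1) 1 (.cup j) φ) l =
      act (qz 1) 1 (.cup j) (act (qz 1) 1 (.cap (j + d)) φ) l := by
  induction j generalizing φ l with
  | zero =>
    rcases l with _ | ⟨a, _ | ⟨b, r⟩⟩
    · simp at h
    · simp at h
      omega
    · rw [show 0 + 2 + d = d + 1 + 1 by ring, A_Psi_cap_cons, A_Psi_cap_cons, N_Lr_cup0]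
      have e : (fun l => act (qz 1) 1 (.cup 0) φ (a :: b :: l)) =
          fun l => (if a + b = 1 then cupc (qz 1) 1 a else 0) * φ l := by
        funext l
        rw [N_Lr_cup0]
        split_ifs
        · rfl
        · ring
      rw [e, A_Psi_cap_mul, zero_add]
      split_ifs
      · rfl
      · ring
  | succ j ih =>
    rcases l with _ | ⟨a, l⟩
    · simp at h
    · rw [show j + 1 + 2 + d = j + 2 + d + 1 by ring, show j + 1 + d = j + d + 1 by ring,
        A_Psi_cap_cons, A_Psi_cup_cons]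
      have e : (fun l => act (qz 1) 1 (.cup (j + 1)) φ (a :: l)) =
          act (qz 1) 1 (.cup j) (fun l => φ (a :: l)) := by
        funext l
        rw [A_Psi_cup_cons]
      have e' : (fun l => act (qz 1) 1 (.cap (j + d + 1)) φ (a :: l)) =
          act (qz 1) 1 (.cap (j + d)) (fun l => φ (a :: l)) := by
        funext l
        rw [A_Psi_cap_cons]
      rw [e, e']
      refine ih _ _ ?_
      simp only [List.length_cons] at h
      omega

private theorem N_Lr_C2 (i d : ℕ) (φ : List ℕ → ℂ) (l : List ℕ) (h : i ≤ l.length) :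
    act (qz 1) 1 (.cap i) (act (qz 1) 1 (.cup (i + 2 + d)) φ) l =
      act (qz 1) 1 (.cup (i + d)) (act (qz 1) 1 (.cap i) φ) l := by
  induction i generalizing φ l with
  | zero =>
    rw [N_Lr_cap0, show 0 + 2 + d = d + 1 + 1 by ring, A_Psi_cup_cons, A_Psi_cup_cons,
      A_Psi_cup_cons, A_Psi_cup_cons, zero_add, ← A_Psi_cup_mul, ← A_Psi_cup_mul]
    have e : act (qz 1) 1 (.cap 0) φ = fun l => (cupc (qz 1) 1 1)⁻¹ * φ (0 :: 1 :: l) +
        (cupc (qz 1) 1 0)⁻¹ * φ (1 :: 0 :: l) := by
      funext l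
      exact N_Lr_cap0 φ l
    rw [e]
    simp only [act]
    split
    · split_ifs
      · ring
      · ring
    · ring
  | succ i ih =>
    rcases l with _ | ⟨a, l⟩
    · simp at h
    · rw [show i + 1 + 2 + d = i + 2 + d + 1 by ring, show i + 1 + d = i + d + 1 by ring,
        A_Psi_cap_cons, A_Psi_cup_cons]
      have e : (fun l => act (qz 1) 1 (.cup (i + 2 + d + 1)) φ (a :: l)) =
          act (qz 1) 1 (.cup (i + 2 + d)) (fun l => φ (a :: l)) := by
        funext l
        rw [A_Psi_cup_cons]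
      have e' : (fun l => act (qz 1) 1 (.cap (i + 1)) φ (a :: l)) =
          act (qz 1) 1 (.cap i) (fun l => φ (a :: l)) := by
        funext l
        rw [A_Psi_cap_cons]
      rw [e, e']
      refine ih _ _ ?_
      simp only [List.length_cons] at h
      omega

private theorem N_Lr_C3 (i : ℕ) (φ : List ℕ → ℂ) (l : List ℕ) (h : i < l.length)
    (hl : ∀ x ∈ l, x ≤ 1) :
    act (qz 1) 1 (.cap (i + 1)) (act (qz 1) 1 (.cup i) φ) l = φ l := by
  induction i generalizing φ l with
  | zero =>
    rcases l with _ | ⟨x, r⟩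
    · simp at h
    · have hx : x ≤ 1 := hl x (by simp)
      have h0 := N_Lr_c0
      have h1 := N_Lr_c1ne
      rw [A_Psi_cap_cons, N_Lr_cap0]
      simp only [N_Lr_cup0]
      interval_cases x
      · simp [h0]
      · simp [h1]
  | succ i ih =>
    rcases l with _ | ⟨a, l⟩
    · simp at h
    · rw [A_Psi_cap_cons]
      have e : (fun l => act (qz 1) 1 (.cup (i + 1)) φ (a :: l)) =
          act (qz 1) 1 (.cup i) (fun l => φ (a :: l)) := by
        funext l
        rw [A_Psi_cup_cons]
      rw [e, ih (fun l => φ (a :: l)) l (by simpa using h) (fun x hx => hl x (by simp [hx]))]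

private theorem N_Lr_C4 (i : ℕ) (φ : List ℕ → ℂ) (l : List ℕ) (h : i < l.length)
    (hl : ∀ x ∈ l, x ≤ 1) :
    act (qz 1) 1 (.cap i) (act (qz 1) 1 (.cup (i + 1)) φ) l = φ l := by
  induction i generalizing φ l with
  | zero =>
    rcases l with _ | ⟨x, r⟩
    · simp at h
    · have hx : x ≤ 1 := hl x (by simp)
      have h0 := N_Lr_c0
      have h1 := N_Lr_c1ne
      rw [N_Lr_cap0, A_Psi_cup_cons, A_Psi_cup_cons]
      simp only [N_Lr_cup0]
      interval_cases x
      · simp [h1]
      · simp [h0]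
  | succ i ih =>
    rcases l with _ | ⟨a, l⟩
    · simp at h
    · rw [A_Psi_cap_cons]
      have e : (fun l => act (qz 1) 1 (.cup (i + 1 + 1)) φ (a :: l)) =
          act (qz 1) 1 (.cup (i + 1)) (fun l => φ (a :: l)) := by
        funext l
        rw [A_Psi_cup_cons]
      rw [e, ih (fun l => φ (a :: l)) l (by simpa using h) (fun x hx => hl x (by simp [hx]))]

private theorem N_Lr_C5 (i : ℕ) (φ : List ℕ → ℂ) (l : List ℕ) (h : i ≤ l.length) :
    act (qz 1) 1 (.cap i) (act (qz 1) 1 (.cup i) φ) l = 0 := by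
  induction i generalizing φ l with
  | zero =>
    have h2 := N_Lr_q2
    have hq := A_Em_qz_ne 1
    rw [N_Lr_cap0, N_Lr_cup0, N_Lr_cup0, N_Lr_c0, N_Lr_c1]
    simp only [zero_add, add_zero, if_true]
    have e : (-(qz 1)⁻¹)⁻¹ = -qz 1 := by
      rw [inv_neg, inv_inv]
    rw [e]
    field_simp
    linear_combination (-φ l) * h2
  | succ i ih =>
    rcases l with _ | ⟨a, l⟩
    · simp at h
    · rw [A_Psi_cap_cons]
      have e : (fun l => act (qz 1) 1 (.cup (i + 1)) φ (a :: l)) =
          act (qz 1) 1 (.cup i) (fun l => φ (a :: l)) := by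
        funext l
        rw [A_Psi_cup_cons]
      rw [e, ih (fun l => φ (a :: l)) l (by simpa using h)]


private theorem N_Lr_E0 (i : ℕ) (ψ : List ℕ → ℂ) (l : List ℕ) (h : i + 2 ≤ l.length)
    (hl : ∀ x ∈ l, x ≤ 1) : actE (qz 1) 1 0 i ψ l = ψ l := by
  induction i generalizing ψ l with
  | zero =>
    rcases l with _ | ⟨c, _ | ⟨d, r⟩⟩
    · simp at h
    · simp at h
    · have hc : c ≤ 1 := hl c (by simp)
      have hd : d ≤ 1 := hl d (by simp)
      have e : ∀ x y : I2 1, em (qz 1) 1 0 x y = if x = y then 1 else 0 := by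
        intro x y
        rw [A_Em_em_zero]
        exact Matrix.one_apply
      have e' : ∀ x : I2 1, em (qz 1) 1 0 x = fun y => if x = y then 1 else 0 := by
        intro x
        funext y
        exact e x y
      unfold actE
      simp only [List.drop_zero, List.take_zero, List.nil_append, e']
      interval_cases c <;> interval_cases d <;> simp [Fin.sum_univ_two]
  | succ i ih =>
    rcases l with _ | ⟨a, l⟩
    · simp at h
    · simp only [List.length_cons] at h
      rw [A_Psi_actE_cons, ih (fun l => ψ (a :: l)) l (by omega)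
        (fun x hx => hl x (by simp [hx]))]

private theorem N_Lr_E1 (i : ℕ) (ψ : List ℕ → ℂ) (l : List ℕ) (h : i + 2 ≤ l.length)
    (hl : ∀ x ∈ l, x ≤ 1) :
    actE (qz 1) 1 1 i ψ l = act (qz 1) 1 (.cup i) (act (qz 1) 1 (.cap i) ψ) l := by
  induction i generalizing ψ l with
  | zero =>
    rcases l with _ | ⟨c, _ | ⟨d, r⟩⟩
    · simp at h
    · simp at h
    · have hc : c ≤ 1 := hl c (by simp)
      have hd : d ≤ 1 := hl d (by simp)
      have hq := A_Em_qz_ne 1
      have hb : br (qz 1) 1 ≠ 0 := A_Em_br_ne 1 le_rfl (by norm_num)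
      have hbb : br (qz 1) 1 * br (qz 1) 1 / br (qz 1) 1 ^ 2 = 1 := by
        field_simp
      have e : ∀ x y : I2 1, em (qz 1) 1 1 x y =
          DD (qz 1) 0 x (0, 0) * CC (qz 1) 0 (0, 0) y := by
        intro x y
        rw [A_Em_em_one, Matrix.mul_apply, Fintype.sum_prod_type]
        simp
      have e' : ∀ x : I2 1, em (qz 1) 1 1 x =
          fun y => DD (qz 1) 0 x (0, 0) * CC (qz 1) 0 (0, 0) y := by
        intro x
        funext y
        exact e x y
      rw [N_Lr_cup0, N_Lr_cap0, N_Lr_c0, N_Lr_c1]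
      unfold actE
      simp only [List.drop_zero, List.take_zero, List.nil_append, e']
      interval_cases c <;> interval_cases d <;>
        (simp [Fin.sum_univ_two, DD, CC, hbb, N_Lr_c0, N_Lr_c1]; try ring)
  | succ i ih =>
    rcases l with _ | ⟨a, l⟩
    · simp at h
    · simp only [List.length_cons] at h
      rw [A_Psi_actE_cons, A_Psi_cup_cons, ih (fun l => ψ (a :: l)) l (by omega)
        (fun x hx => hl x (by simp [hx]))]
      have e' : (fun l => act (qz 1) 1 (.cap (i + 1)) ψ (a :: l)) =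
          act (qz 1) 1 (.cap i) (fun l => ψ (a :: l)) := by
        funext l
        rw [A_Psi_cap_cons]
      rw [e']

/-- vectors obtained from `e_0` by minima -/
inductive N_Lr_TL : ℕ → (List ℕ → ℂ) → Prop
  | base : N_Lr_TL 0 (fun l => if l = [0] then 1 else 0)
  | cup (k j : ℕ) (φ : List ℕ → ℂ) (hj : j ≤ 2 * k + 1) (h : N_Lr_TL k φ) :
      N_Lr_TL (k + 1) (act (qz 1) 1 (.cup j) φ)

theorem N_Lr_TL.sup {k : ℕ} {φ : List ℕ → ℂ} (h : N_Lr_TL k φ) : A_Fill_Sup 1 (2 * k + 1) φ := by
  induction h with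
  | base =>
    intro l hl
    have h1 : l = [0] := by
      by_contra hne
      exact hl (if_neg hne)
    subst h1
    simp
  | cup k j φ hj h ih =>
    exact A_Fill_cup ih

theorem N_Lr_TL.ex (k : ℕ) : ∃ φ, N_Lr_TL k φ := by
  induction k with
  | zero => exact ⟨_, N_Lr_TL.base⟩
  | succ k ih =>
    obtain ⟨φ, h⟩ := ih
    exact ⟨_, N_Lr_TL.cup k 0 φ (by omega) h⟩

private theorem N_Lr_ext {n : ℕ} {f g : List ℕ → ℂ} (hf : A_Fill_Sup 1 n f)
    (hg : A_Fill_Sup 1 n g) (h : ∀ l, l.length = n → (∀ x ∈ l, x ≤ 1) → f l = g l) : f = g := by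
  funext l
  by_cases hf0 : f l = 0
  · by_cases hg0 : g l = 0
    · rw [hf0, hg0]
    · exact h l (hg l hg0).1 (hg l hg0).2
  · exact h l (hf l hf0).1 (hf l hf0).2

private theorem N_Lr_supmul {n : ℕ} {f : List ℕ → ℂ} (z : ℂ) (hf : A_Fill_Sup 1 n f) :
    A_Fill_Sup 1 n (fun l => z * f l) := by
  intro l hl
  exact hf l (right_ne_zero_of_mul hl)

theorem N_Lr_TL.cap {k : ℕ} {φ : List ℕ → ℂ} (h : N_Lr_TL (k + 1) φ) {i : ℕ}
    (hi : i ≤ 2 * k + 1) :
    ∃ (z : ℂ) (φ' : List ℕ → ℂ), ‖z‖ ≤ 1 ∧ N_Lr_TL k φ' ∧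
      act (qz 1) 1 (.cap i) φ = fun l => z * φ' l := by
  induction k generalizing φ i with
  | zero =>
    cases h with
    | cup k j φ hj h =>
      have hs := h.sup
      have hs1 : A_Fill_Sup 1 (2 * 0 + 1) (act (qz 1) 1 (.cap i) (act (qz 1) 1 (.cup j) φ)) :=
        A_Fill_cap (A_Fill_cup hs)
      rcases Nat.lt_trichotomy i j with hij | hij | hij
      · refine ⟨1, φ, by simp, h, N_Lr_ext hs1 (N_Lr_supmul 1 hs) ?_⟩
        intro l hl hx
        obtain rfl : j = i + 1 := by omega
        rw [N_Lr_C4 i φ l (by omega) hx, one_mul]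
      · refine ⟨0, φ, by simp, h, N_Lr_ext hs1 (N_Lr_supmul 0 hs) ?_⟩
        intro l hl hx
        subst hij
        rw [N_Lr_C5 i φ l (by omega), zero_mul]
      · refine ⟨1, φ, by simp, h, N_Lr_ext hs1 (N_Lr_supmul 1 hs) ?_⟩
        intro l hl hx
        obtain rfl : i = j + 1 := by omega
        rw [N_Lr_C3 j φ l (by omega) hx, one_mul]
  | succ k ih =>
    cases h with
    | cup k' j φ hj h =>
      have hs := h.sup
      have hs1 : A_Fill_Sup 1 (2 * (k + 1) + 1)
          (act (qz 1) 1 (.cap i) (act (qz 1) 1 (.cup j) φ)) :=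
        A_Fill_cap (A_Fill_cup hs)
      rcases Nat.lt_trichotomy i j with hij | hij | hij
      · by_cases hij' : j = i + 1
        · refine ⟨1, φ, by simp, h, N_Lr_ext hs1 (N_Lr_supmul 1 hs) ?_⟩
          intro l hl hx
          subst hij'
          rw [N_Lr_C4 i φ l (by omega) hx, one_mul]
        · obtain ⟨d, rfl⟩ : ∃ d, j = i + 2 + d := ⟨j - (i + 2), by omega⟩
          obtain ⟨z, φ', hz, hφ', e⟩ := ih h (i := i) (by omega)
          have h2 := N_Lr_TL.cup k (i + d) φ' (by omega) hφ'
          refine ⟨z, _, hz, h2, N_Lr_ext hs1 (N_Lr_supmul z h2.sup) ?_⟩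
          intro l hl hx
          rw [N_Lr_C2 i d φ l (by omega), e, A_Psi_cup_mul]
      · refine ⟨0, φ, by simp, h, N_Lr_ext hs1 (N_Lr_supmul 0 hs) ?_⟩
        intro l hl hx
        subst hij
        rw [N_Lr_C5 i φ l (by omega), zero_mul]
      · by_cases hij' : i = j + 1
        · refine ⟨1, φ, by simp, h, N_Lr_ext hs1 (N_Lr_supmul 1 hs) ?_⟩
          intro l hl hx
          subst hij'
          rw [N_Lr_C3 j φ l (by omega) hx, one_mul]
        · obtain ⟨d, rfl⟩ : ∃ d, i = j + 2 + d := ⟨i - (j + 2), by omega⟩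
          obtain ⟨z, φ', hz, hφ', e⟩ := ih h (i := j + d) (by omega)
          have h2 := N_Lr_TL.cup k j φ' (by omega) hφ'
          refine ⟨z, _, hz, h2, N_Lr_ext hs1 (N_Lr_supmul z h2.sup) ?_⟩
          intro l hl hx
          rw [N_Lr_C1 j d φ l (by omega), e, A_Psi_cup_mul]

/-- multiples of these vectors by numbers of norm at most `1` -/
def N_Lr_TZ (k : ℕ) (ψ : List ℕ → ℂ) : Prop :=
  ∃ (z : ℂ) (φ : List ℕ → ℂ), ‖z‖ ≤ 1 ∧ N_Lr_TL k φ ∧ ψ = fun l => z * φ l

private theorem N_Lr_TZ_sup {k : ℕ} {ψ : List ℕ → ℂ} (h : N_Lr_TZ k ψ) :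
    A_Fill_Sup 1 (2 * k + 1) ψ := by
  obtain ⟨z, φ, -, h, rfl⟩ := h
  exact N_Lr_supmul z h.sup

private theorem N_Lr_TZ_cup {k j : ℕ} {ψ : List ℕ → ℂ} (h : N_Lr_TZ k ψ) (hj : j ≤ 2 * k + 1) :
    N_Lr_TZ (k + 1) (act (qz 1) 1 (.cup j) ψ) := by
  obtain ⟨z, φ, hz, h, rfl⟩ := h
  refine ⟨z, _, hz, N_Lr_TL.cup k j φ hj h, ?_⟩
  funext l
  rw [A_Psi_cup_mul]

private theorem N_Lr_TZ_cap {k i : ℕ} {ψ : List ℕ → ℂ} (h : N_Lr_TZ (k + 1) ψ)
    (hi : i ≤ 2 * k + 1) : N_Lr_TZ k (act (qz 1) 1 (.cap i) ψ) := by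
  obtain ⟨z, φ, hz, h, rfl⟩ := h
  obtain ⟨z', φ', hz', h', e⟩ := h.cap hi
  refine ⟨z * z', φ', ?_, h', ?_⟩
  · rw [norm_mul]
    exact mul_le_one₀ hz (norm_nonneg _) hz'
  · funext l
    rw [A_Psi_cap_mul, e, mul_assoc]

private theorem N_Lr_TZ_actE {k i t : ℕ} {ψ : List ℕ → ℂ} (h : N_Lr_TZ k ψ)
    (hi : i + 2 ≤ 2 * k + 1) (ht : t ≤ 1) : N_Lr_TZ k (actE (qz 1) 1 t i ψ) := by
  have hs := N_Lr_TZ_sup h
  obtain ht | ht : t = 0 ∨ t = 1 := by omega
  · subst ht
    have e : actE (qz 1) 1 0 i ψ = ψ :=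
      N_Lr_ext (A_Fill_actE hs) hs fun l hl hx => N_Lr_E0 i ψ l (by omega) hx
    rw [e]
    exact h
  · subst ht
    obtain ⟨k, rfl⟩ : ∃ m, k = m + 1 := ⟨k - 1, by omega⟩
    have h1 := N_Lr_TZ_cup (j := i) (N_Lr_TZ_cap (i := i) h (by omega)) (by omega)
    have e : actE (qz 1) 1 1 i ψ = act (qz 1) 1 (.cup i) (act (qz 1) 1 (.cap i) ψ) :=
      N_Lr_ext (A_Fill_actE hs) (N_Lr_TZ_sup h1) fun l hl hx => N_Lr_E1 i ψ l (by omega) hx
    rw [e]
    exact h1

private theorem N_Lr_evalT (t : ℕ → ℕ) (ht : ∀ v, t v ≤ 1) (w : List TPiece) (S S' : Sweep)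
    (v k : ℕ) (ψ : List ℕ → ℂ) (hx : sweep w S = some S') (hg : S.gaps.length = 2 * k + 2)
    (hg' : S'.gaps = [0, 1]) (hψ : N_Lr_TZ k ψ) : N_Lr_TZ 0 (evalT (qz 1) 1 t v w ψ) := by
  induction w generalizing S v k ψ with
  | nil =>
    have hS : S = S' := by simpa [sweep] using hx
    subst hS
    rw [hg'] at hg
    simp only [List.length_cons, List.length_nil] at hg
    obtain rfl : k = 0 := by omega
    exact hψ
  | cons x w ih =>
    rw [sweep] at hx
    obtain ⟨S1, h1, h2⟩ := Option.bind_eq_some_iff.1 hx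
    cases x with
    | cup i =>
      simp only [Sweep.step] at h1
      split at h1
      · rename_i a r hd
        have h3 : S.gaps.length = (S.gaps.take i).length + (S.gaps.drop i).length := by
          rw [← List.length_append, List.take_append_drop]
        have h4 : (S.gaps.drop i).length = S.gaps.length - i := List.length_drop
        rw [hd] at h3 h4
        simp only [Option.some.injEq] at h1
        simp only [List.length_cons] at h3 h4
        refine ih S1 v (k + 1) _ h2 ?_ (N_Lr_TZ_cup hψ (by omega))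
        rw [← h1]
        simp only [List.length_append, List.length_cons]
        omega
      · exact absurd h1 (by simp)
    | cap i =>
      simp only [Sweep.step] at h1
      split at h1
      · rename_i a m b r hd
        have h3 : S.gaps.length = (S.gaps.take i).length + (S.gaps.drop i).length := by
          rw [← List.length_append, List.take_append_drop]
        have h4 : (S.gaps.drop i).length = S.gaps.length - i := List.length_drop
        rw [hd] at h3 h4
        split_ifs at h1
        simp only [Option.some.injEq] at h1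
        simp only [List.length_cons] at h3 h4
        obtain ⟨k, rfl⟩ : ∃ m, k = m + 1 := ⟨k - 1, by omega⟩
        refine ih S1 v k _ h2 ?_ (N_Lr_TZ_cap hψ (by omega))
        rw [← h1]
        simp only [List.length_append, List.length_cons, List.length_map]
        omega
      · exact absurd h1 (by simp)
    | tw i =>
      simp only [Sweep.step] at h1
      split at h1
      · rename_i a b c r hd
        have h3 : S.gaps.length = (S.gaps.take i).length + (S.gaps.drop i).length := by
          rw [← List.length_append, List.take_append_drop]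
        have h4 : (S.gaps.drop i).length = S.gaps.length - i := List.length_drop
        rw [hd] at h3 h4
        simp only [Option.some.injEq] at h1
        simp only [List.length_cons] at h3 h4
        refine ih S1 (v + 1) k _ h2 ?_ (N_Lr_TZ_actE hψ (by omega) (ht v))
        rw [← h1]
        simp only [List.length_append, List.length_cons]
        omega
      · exact absurd h1 (by simp)

private theorem N_Lr_csz {t : ℕ} (ht : t ≤ 1) (k : Fin 4) : csz 1 t k ≤ 1 := by
  fin_cases k <;> simp [csz, ht]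

private theorem N_Lr_qbin {n m : ℕ} (hn : n ≤ 1) (hm : m ≤ n) : qbin (qz 1) n m = 1 := by
  have h := N_Lr_brf1
  interval_cases n
  · obtain rfl : m = 0 := by omega
    simp [qbin, N_Lr_brf0]
  · interval_cases m
    · simp [qbin, N_Lr_brf0, h]
    · simp [qbin, N_Lr_brf0, h]

variable {c : ℕ} {F : Finset ℕ} {cor : Fin c → Fin 4 → ℕ}

theorem uniq_state {w : List TPiece} (hT : IsTemplate w c F cor) (t : Fin c → ℕ)
    (ht : ∀ v, t v ≤ 1) (s s' : Fin c → Fin 4 → ℕ) (hs : IsState F cor 1 s)
    (hs' : IsState F cor 1 s') (hle : ∀ v k, s v k ≤ csz 1 (t v) k)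
    (hle' : ∀ v k, s' v k ≤ csz 1 (t v) k) : s = s' := by
  classical
  obtain ⟨S, hx, hg, -, -⟩ := id hT
  have ht' : ∀ v, (fun v : ℕ => if h : v < c then t ⟨v, h⟩ else 0) v ≤ 1 := by
    intro v
    simp only
    split_ifs
    · exact ht _
    · omega
  have h1 := clock 1 w c F cor hT (fun v : ℕ => if h : v < c then t ⟨v, h⟩ else 0)
    (fun v _ => ht' v)
  have e1 : (fun v : Fin c => (fun v : ℕ => if h : v < c then t ⟨v, h⟩ else 0) v) = t := by
    funext v
    simp
  rw [e1] at h1
  have h2 : N_Lr_TZ 0 (fun l => if l = [0] then 1 else 0) :=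
    ⟨1, _, by simp, N_Lr_TL.base, by funext l; rw [one_mul]⟩
  have h3 := N_Lr_evalT _ ht' w Sweep.init S 0 0 _ hx (by simp [Sweep.init]) hg h2
  have h4 : ‖clockSum (qz 1) F cor 1 t‖ ≤ 1 := by
    rw [← h1]
    obtain ⟨z, φ, hz, hφ, e⟩ := h3
    rw [e]
    cases hφ with
    | base => simpa using hz
  have h5 : clockSum (qz 1) F cor 1 t =
      ((((Fintype.piFinset (fun v : Fin c => Fintype.piFinset
      (fun k : Fin 4 => Finset.range (csz 1 (t v) k + 1)))).filter
        (fun s => IsState F cor 1 s)).card : ℕ) : ℂ) := by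
    unfold clockSum
    rw [Finset.card_filter]
    push_cast
    refine Finset.sum_congr rfl fun x hx => ?_
    split_ifs with hst
    · refine Finset.prod_eq_one fun v _ => Finset.prod_eq_one fun k _ => ?_
      have h6 := Fintype.mem_piFinset.1 (Fintype.mem_piFinset.1 hx v) k
      exact N_Lr_qbin (N_Lr_csz (ht v) k) (by
        have := Finset.mem_range.1 h6
        omega)
    · rfl
  rw [h5, Complex.norm_natCast] at h4
  have h6 := Finset.card_le_one.1 (by exact_mod_cast h4 : ((Fintype.piFinset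
    (fun v : Fin c => Fintype.piFinset (fun k : Fin 4 => Finset.range
    (csz 1 (t v) k + 1)))).filter (fun s => IsState F cor 1 s)).card ≤ 1)
  refine h6 s ?_ s' ?_
  · refine Finset.mem_filter.2 ⟨?_, hs⟩
    rw [Fintype.mem_piFinset]
    intro v
    rw [Fintype.mem_piFinset]
    intro k
    exact Finset.mem_range.2 (by have := hle v k; omega)
  · refine Finset.mem_filter.2 ⟨?_, hs'⟩
    rw [Fintype.mem_piFinset]
    intro v
    rw [Fintype.mem_piFinset]
    intro k
    exact Finset.mem_range.2 (by have := hle' v k; omega)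

theorem side_ne {w : List TPiece} (hT : IsTemplate w c F cor) (hP : IsPrimeT F cor) (v : Fin c) :
    cor v 3 ≠ cor v 1 := by
  intro hf
  have hF : cor v 1 ∈ F := by
    rcases hP.opp v 1 with h | h
    · exact h
    · have e : (1 : Fin 4) + 2 = 3 := rfl
      rw [e, hf] at h
      exact h
  obtain ⟨s, hs, hs1⟩ := hP.state v 1 hF
  obtain ⟨σ, hσ⟩ : ∃ σ : Fin c → Equiv.Perm (Fin 4), σ = fun u =>
    if u = v then Equiv.swap 1 3 else Equiv.refl _ := ⟨_, rfl⟩
  have hcor : ∀ u k, cor u (σ u k) = cor u k := by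
    intro u k
    rw [hσ]
    by_cases huv : u = v
    · subst huv
      simp only [if_true]
      by_cases h1 : k = 1
      · subst h1
        rw [Equiv.swap_apply_left, hf]
      · by_cases h3 : k = 3
        · subst h3
          rw [Equiv.swap_apply_right, hf]
        · rw [Equiv.swap_apply_of_ne_of_ne h1 h3]
    · simp only [if_neg huv, Equiv.refl_apply]
  have hs' : IsState F cor 1 (fun u k => s u (σ u k)) := by
    refine ⟨?_, ?_, ?_⟩
    · intro u
      rw [← hs.1 u]
      exact Equiv.sum_comp (σ u) (s u)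
    · intro f hfF
      rw [← hs.2.1 f hfF]
      refine Finset.sum_congr rfl fun u _ => ?_
      rw [← Equiv.sum_comp (σ u) (fun k => if cor u k = f then s u k else 0)]
      refine Finset.sum_congr rfl fun k _ => ?_
      rw [hcor]
    · intro u k huk
      exact hs.2.2 u (σ u k) (by rw [hcor]; exact huk)
  have hsum4 : ∀ u, s u 0 + s u 1 + s u 2 + s u 3 = 1 := by
    intro u
    have := hs.1 u
    rw [Fin.sum_univ_four] at this
    exact this
  have ht : ∀ u, (fun u => s u 1 + s u 3) u ≤ 1 := by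
    intro u
    have := hsum4 u
    simp only
    omega
  have hle : ∀ u k, s u k ≤ csz 1 ((fun u => s u 1 + s u 3) u) k := by
    intro u k
    have := hsum4 u
    fin_cases k <;> simp [csz] <;> omega
  have hle' : ∀ u k, (fun u k => s u (σ u k)) u k ≤ csz 1 ((fun u => s u 1 + s u 3) u) k := by
    intro u k
    have h1 := hle u (σ u k)
    refine h1.trans (le_of_eq ?_)
    rw [hσ]
    by_cases huv : u = v
    · subst huv
      simp only [if_true]
      fin_cases k <;> simp [csz, Equiv.swap_apply_def]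
    · simp only [if_neg huv, Equiv.refl_apply]
  have h := uniq_state hT (fun u => s u 1 + s u 3) ht s (fun u k => s u (σ u k)) hs hs' hle hle'
  have h1 := congrFun (congrFun h v) 1
  simp only [hσ, if_true] at h1
  rw [Equiv.swap_apply_left] at h1
  have h2 := hsum4 v
  omega

end Pool.Agent.H63.CLK
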