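import Pool.Agent.H63.CLK.A_Glob

/-!
# All directions, algebra: definitions

The heights `h k` of the four faces at a twist region are in the order top, right, bottom, left. The
strand between the faces `a` (left) and `b` (right) carries the operators `E e_i = {i} e_{i-1}`,
`K e_i = q ^ (N - 2 i) e_i` and `F e_i = q ^ (h_a + h_b) {i + 1 + h_b - h_a} e_{i+1}` (`e_{N+1} = 0`), with
`Δ E = E ⊗ K + 1 ⊗ E`, `Δ F = F ⊗ 1 + K⁻¹ ⊗ F`.
-/

set_option autoImplicit false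

namespace Pool.Agent.H63.CLK

open Pool.Agent.H63.VC7 Pool.Agent.H63.VC10

/-- `q ^ x` for a complex exponent. -/
noncomputable def qh (N : ℕ) (x : ℂ) : ℂ :=
  Complex.exp (Real.pi * Complex.I * x / ((N + 1 : ℕ) : ℂ))

/-- `{x} = q ^ x - q ^ (-x)`. -/
noncomputable def bh (N : ℕ) (x : ℂ) : ℂ := qh N x - qh N (-x)

/-- `{p + 1} {p + 2} ⋯ {p + x}`. -/
noncomputable def pch (N : ℕ) (p : ℂ) (x : ℕ) : ℂ := ∏ i ∈ Finset.range x, bh N (p + i + 1)

/-- The coefficient of `F e_i` on a strand with the faces `a`, `b`. -/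
noncomputable def fF (N : ℕ) (ha hb : ℂ) (i : ℕ) : ℂ := qh N (ha + hb) * bh N (i + 1 + hb - ha)

/-- The coefficient of `F f_n` on the strand of level `J`. -/
noncomputable def fJ (N J : ℕ) (hL hR : ℂ) (n : ℤ) : ℂ :=
  -(qh N (hL + hR) * bh N (2 * J + n + 2 + hR - hL))

/-! ### Matrices -/

/-- The operator `E` on two strands. -/
noncomputable def EM (N : ℕ) : Matrix (I2 N) (I2 N) ℂ := fun x y =>
  (if (y.1 : ℕ) = x.1 + 1 ∧ (y.2 : ℕ) = x.2 then
      br (qz N) ((x.1 : ℕ) + 1) * qz N ^ ((N : ℤ) - 2 * (x.2 : ℕ)) else 0) +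
    (if (y.1 : ℕ) = x.1 ∧ (y.2 : ℕ) = x.2 + 1 then br (qz N) ((x.2 : ℕ) + 1) else 0)

/-- The operator `F` on two strands between the faces with the heights `hL`, `hm`, `hR`. -/
noncomputable def FM (N : ℕ) (hL hm hR : ℂ) : Matrix (I2 N) (I2 N) ℂ := fun x y =>
  (if (x.1 : ℕ) = y.1 + 1 ∧ (x.2 : ℕ) = y.2 then fF N hL hm y.1 else 0) +
    (if (x.1 : ℕ) = y.1 ∧ (x.2 : ℕ) = y.2 + 1 then
      qz N ^ (2 * ((y.1 : ℕ) : ℤ) - N) * fF N hm hR y.2 else 0)

/-- The matrix preserves the weight. -/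
def WtP (N : ℕ) (X : Matrix (I2 N) (I2 N) ℂ) : Prop :=
  ∀ x y : I2 N, X x y ≠ 0 → (x.1 : ℕ) + x.2 = y.1 + y.2

/-- The matrix commutes with `E` and preserves the weight. -/
def ComE (N : ℕ) (X : Matrix (I2 N) (I2 N) ℂ) : Prop := WtP N X ∧ EM N * X = X * EM N

/-- The matrix commutes with `F`, for the heights `h` of the faces at the top, on the right, at the
bottom, on the left. -/
def ComF (N : ℕ) (h : Fin 4 → ℂ) (X : Matrix (I2 N) (I2 N) ℂ) : Prop :=
  FM N (h 3) (h 0) (h 1) * X = X * FM N (h 3) (h 2) (h 1)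

/-- The rule for the action on the local vectors: `W B sL sR` is the weight of the state `B` of the
bottom corner, `sL` of the left corner, `sR` of the right corner. -/
def CRule (N : ℕ) (X : Matrix (I2 N) (I2 N) ℂ) (W : ℕ → ℕ → ℕ → ℂ) : Prop :=
  ∀ α B β : ℕ, α ≤ N → B ≤ N → β ≤ N → ∀ x : I2 N,
    ∑ y : I2 N, X x y * flz N α B β (y.1 : ℕ) (y.2 : ℕ) =
      ∑ sL ∈ Finset.range (N + 1), ∑ sR ∈ Finset.range (N + 1),
        if B + sL + sR ≤ N then W B sL sR *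
          flz N ((α : ℤ) - sL) (B + sL + sR) ((β : ℤ) - sR) (x.1 : ℕ) (x.2 : ℕ) else 0

/-! ### Words -/

/-- The action of a matrix on the strands `i`, `i + 1`. -/
noncomputable def actX (N : ℕ) (X : Matrix (I2 N) (I2 N) ℂ) (i : ℕ) (ψ : List ℕ → ℂ)
    (l : List ℕ) : ℂ :=
  match l.drop i with
  | c :: d :: r => ∑ a : Fin (N + 1), ∑ b : Fin (N + 1),
      (if h : c < N + 1 ∧ d < N + 1 then X (⟨c, h.1⟩, ⟨d, h.2⟩) (a, b) else 0) *
        ψ (l.take i ++ (a : ℕ) :: (b : ℕ) :: r)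
  | _ => 0

/-- The operator of a template with the matrix `X v` at the twist region `v`. -/
noncomputable def evalX (N : ℕ) (X : ℕ → Matrix (I2 N) (I2 N) ℂ) :
    ℕ → List TPiece → (List ℕ → ℂ) → List ℕ → ℂ
  | _, [], ψ => ψ
  | v, .cup i :: w, ψ => evalX N X v w (act (qz N) N (.cup i) ψ)
  | v, .cap i :: w, ψ => evalX N X v w (act (qz N) N (.cap i) ψ)
  | v, .tw i :: w, ψ => evalX N X (v + 1) w (actX N (X v) i ψ)

/-- The vector `e_i` of one strand. -/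
noncomputable def dl (i : ℕ) : List ℕ → ℂ := fun l => if l = [i] then 1 else 0

open Classical in
/-- The state sum with the weights `W v (bottom) (left) (right)`. -/
noncomputable def stW {c : ℕ} (F : Finset ℕ) (cor : Fin c → Fin 4 → ℕ) (N : ℕ)
    (W : Fin c → ℕ → ℕ → ℕ → ℂ) : ℂ :=
  ∑ s ∈ Fintype.piFinset (fun _ : Fin c => Fintype.piFinset
      (fun _ : Fin 4 => Finset.range (N + 1))),
    if IsState F cor N s then ∏ v, W v (s v 2) (s v 3) (s v 1) else 0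

/-! ### The operators of level `J` -/

/-- The weights of the merging of two strands into a strand of level `J`; `B`, `sL`, `sR` are the
states of the corners at the bottom, on the left and on the right. -/
noncomputable def muJ (N J : ℕ) (h : Fin 4 → ℂ) (B sL sR : ℕ) : ℂ :=
  if B + sL + sR = J then
    qh N ((h 1 - h 2) * B + (h 1 - h 3) * sL) *
      (pch N (J + h 1 - h 3) B * pch N (N - J + h 2 - h 1) sL * pch N (N - J + h 3 - h 2) sR) *
      (ib N B * ib N sL * ib N sR)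
  else 0

/-- The weights of the splitting of a strand of level `J` into two strands. -/
noncomputable def nuJ (N J : ℕ) (h : Fin 4 → ℂ) (sL sR : ℕ) : ℂ :=
  if J + sL + sR ≤ N then
    qh N ((h 0 - h 1) * (J + sL + sR) + (h 1 - h 3) * sL) *
      (pch N (N - J + h 3 - h 1) (N - J - sL - sR) * pch N (J + h 1 - h 0) sL *
        pch N (J + h 0 - h 3) sR) *
      (ib N ((N : ℤ) - J - sL - sR) * ib N sL * ib N sR)
  else 0

/-- The weights of the operator of level `J`. -/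
noncomputable def WJ (N J : ℕ) (h : Fin 4 → ℂ) (B sL sR : ℕ) : ℂ :=
  ∑ a ∈ Finset.range (sL + 1), ∑ b ∈ Finset.range (sR + 1),
    muJ N J h B a b * nuJ N J h (sL - a) (sR - b)

/-- The coefficient of the local vector of one strand of level `J`: the vector with the gaps `α`, `β`
is `cJ N J α β` times `f_{α + β}`. -/
noncomputable def cJ (N J : ℕ) (α β : ℤ) : ℂ :=
  qz N ^ (((N : ℤ) - 2 * J) * α - α * α - α * β) * (ib N α * ib N β)

/-- The merging: `e_a ⊗ e_b ↦ MJ a b f_{a + b - J}`. -/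
noncomputable def MJ (N J : ℕ) (h : Fin 4 → ℂ) (a b : ℕ) : ℂ :=
  if J ≤ a + b ∧ a + b ≤ J + N ∧ a ≤ N ∧ b ≤ N then
    qz N ^ ((a : ℤ) * a) * (brf (qz N) a * brf (qz N) b) *
      ∑ s ∈ Finset.range (J + 1), muJ N J h 0 s (J - s) *
        cJ N J ((a : ℤ) - s) ((b : ℤ) - (J - s))
  else 0

/-- The splitting: `f_n ↦ ∑ SJ c d e_c ⊗ e_d`, `c + d = n + J`. -/
noncomputable def SJ (N J : ℕ) (h : Fin 4 → ℂ) (c d : ℕ) : ℂ :=
  if J ≤ c + d ∧ c + d ≤ J + N ∧ c ≤ N ∧ d ≤ N then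
    (∑ s ∈ Finset.range (N - J + 1), nuJ N J h s 0 *
      flz N ((c : ℤ) + d - J - s) (J + s) 0 c d) / cJ N J ((c : ℤ) + d - J) 0
  else 0

/-- The operator of level `J`. -/
noncomputable def XJ (N J : ℕ) (h : Fin 4 → ℂ) : Matrix (I2 N) (I2 N) ℂ := fun x y =>
  if (x.1 : ℕ) + x.2 = y.1 + y.2 then SJ N J h x.1 x.2 * MJ N J h y.1 y.2 else 0

/-- The intertwiners `V ⊗ V → V_J`. -/
structure IsMg (N J : ℕ) (hL hb hR : ℂ) (M : ℕ → ℕ → ℂ) : Prop where
  supp : ∀ a b, ¬ (J ≤ a + b ∧ a + b ≤ J + N ∧ a ≤ N ∧ b ≤ N) → M a b = 0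
  E : ∀ a b, a ≤ N → b ≤ N → br (qz N) ((a : ℤ) + b - J) * M a b =
    br (qz N) a * qz N ^ ((N : ℤ) - 2 * b) * M (a - 1) b + br (qz N) b * M a (b - 1)
  F : ∀ a b, a ≤ N → b ≤ N → a + b < J + N →
    fF N hL hb a * M (a + 1) b + qz N ^ (2 * (a : ℤ) - N) * fF N hb hR b * M a (b + 1) =
      fJ N J hL hR ((a : ℤ) + b - J) * M a b

/-- The intertwiners `V_J → V ⊗ V`. -/
structure IsSp (N J : ℕ) (hL ht hR : ℂ) (S : ℕ → ℕ → ℂ) : Prop where
  supp : ∀ c d, ¬ (J ≤ c + d ∧ c + d ≤ J + N ∧ c ≤ N ∧ d ≤ N) → S c d = 0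
  E : ∀ c d, c ≤ N → d ≤ N →
    br (qz N) ((c : ℤ) + 1) * qz N ^ ((N : ℤ) - 2 * d) * S (c + 1) d +
      br (qz N) ((d : ℤ) + 1) * S c (d + 1) = br (qz N) ((c : ℤ) + d + 1 - J) * S c d
  F : ∀ c d, c ≤ N → d ≤ N → J + 1 ≤ c + d →
    (if c = 0 then 0 else fF N hL ht (c - 1) * S (c - 1) d) +
      (if d = 0 then 0 else qz N ^ (2 * (c : ℤ) - N) * fF N ht hR (d - 1) * S c (d - 1)) =
      fJ N J hL hR ((c : ℤ) + d - 1 - J) * S c d

/-- The heights are small. -/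
def SmallH (h : Fin 4 → ℂ) : Prop := ∀ k, ‖h k‖ ≤ 1 / 8

/-! ### The flip `e_i ↦ e_{N - i}` -/

/-- The product of all coefficients of `F`. -/
noncomputable def PPf (N : ℕ) (ha hb : ℂ) : ℂ :=
  ∏ p ∈ Finset.range N, (qh N (2 * hb + p + 1) - qh N (2 * ha - p - 1))

/-- A square root. -/
noncomputable def rrf (N : ℕ) (ha hb : ℂ) : ℂ := (PPf N ha hb / brf (qz N) N) ^ (1 / 2 : ℂ)

/-- The factor of the flip on a strand between the faces `a` and `b`: `e_i = gt i e'_{N - i}`. -/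
noncomputable def gtf (N : ℕ) (ha hb : ℂ) (i : ℕ) : ℂ :=
  qz N ^ ((i : ℤ) * i + 2 * i) * brf (qz N) i /
    (∏ p ∈ Finset.range i, (qh N (2 * hb + p + 1) - qh N (2 * ha - p - 1))) * rrf N ha hb

/-- The complex conjugate of the matrix of the operator in the flipped basis. -/
noncomputable def flipX (N : ℕ) (h : Fin 4 → ℂ) (X : Matrix (I2 N) (I2 N) ℂ) :
    Matrix (I2 N) (I2 N) ℂ := fun x y =>
  starRingEnd ℂ (X (x.1.rev, x.2.rev) (y.1.rev, y.2.rev) *
    (gtf N (h 3) (h 0) (N - x.1) * gtf N (h 0) (h 1) (N - x.2)) /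
      (gtf N (h 3) (h 2) (N - y.1) * gtf N (h 2) (h 1) (N - y.2)))

/-- The heights after the flip. -/
noncomputable def hfl (h : Fin 4 → ℂ) : Fin 4 → ℂ := fun k => -starRingEnd ℂ (h k)

/-! ### The turn backs -/

/-- The weights of `t` turn backs. -/
noncomputable def emW (N t B sL sR : ℕ) : ℂ :=
  if B ≤ N - t ∧ B + sL + sR ≤ N ∧ t ≤ B + sL + sR ∧ sL ≤ t ∧ sR ≤ t then cK N t B sL sR else 0

/-- `X_i = 2 cos (π (2 i + 1) / M)`. -/
noncomputable def Xc (N i : ℕ) : ℝ := 2 * Real.cos (Real.pi * (2 * i + 1) / ((N + 1 : ℕ) : ℝ))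

/-- `2 sin (π j / M)` for `1 ≤ j ≤ n`, multiplied. -/
noncomputable def SN (N n : ℕ) : ℝ :=
  ∏ j ∈ Finset.range n, (2 * Real.sin (Real.pi * (j + 1) / ((N + 1 : ℕ) : ℝ)))

/-- The coefficients of the nilpotent operator of the channel `k`. -/
noncomputable def QN (N k t : ℕ) : ℝ :=
  (∏ i ∈ Finset.range (N - t), (Xc N i - Xc N k)) / SN N (N - t) ^ 2

/-- The coefficients of the other operator of the channel `k`. -/
noncomputable def EN (N k t : ℕ) : ℝ :=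
  -(4 * Real.pi * Real.sin (Real.pi * (2 * k + 1) / ((N + 1 : ℕ) : ℝ)) / ((N + 1 : ℕ) : ℝ)) *
    ((∑ j ∈ Finset.range (N - t), ∏ i ∈ (Finset.range (N - t)).erase j, (Xc N i - Xc N k)) /
      SN N (N - t) ^ 2)

end Pool.Agent.H63.CLK
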