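import Pool.Agent.H63.CLK.C_MaxN
import Pool.Agent.H63.CLK.K_Defs

/-!
# All directions, analysis: definitions
-/

set_option autoImplicit false

namespace Pool.Agent.H63.CLK

open Pool.Agent.H63.VC hiding ext
open Pool.Agent.H63.VC3 Pool.Agent.H63.VC4 Pool.Agent.H63.VC7 Complex Filter Topology
open scoped BigOperators

/-- The growth of `{p + 1} ⋯ {p + x} / {x}!`. -/
noncomputable def PB (N p x : ℕ) : ℝ :=
  Real.exp ((N : ℝ) * (Fr (((p : ℝ) + x) / N) - Fr ((p : ℝ) / N) - Fr ((x : ℝ) / N)))

/-- The bound for the weights `WJ`. -/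
noncomputable def wJB (N J B sL sR : ℕ) : ℝ :=
  ∑ a ∈ Finset.range (sL + 1), ∑ b ∈ Finset.range (sR + 1),
    if B + a + b = J ∧ B + sL + sR ≤ N then
      PB N J B * PB N (N - J) a * PB N (N - J) b *
        (PB N (N - J) (N - B - sL - sR) * PB N J (sL - a) * PB N J (sR - b))
    else 0

open Classical in
/-- The bound for the state sums of the weights `WJ`. -/
noncomputable def BN {c : ℕ} (F : Finset ℕ) (cor : Fin c → Fin 4 → ℕ) (N : ℕ) (J : Fin c → ℕ) : ℝ :=
  ∑ s ∈ Fintype.piFinset (fun _ : Fin c => Fintype.piFinset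
      (fun _ : Fin 4 => Finset.range (N + 1))),
    if IsState F cor N s then ∏ v, wJB N (J v) (s v 2) (s v 3) (s v 1) else 0

/-- The growth of the coefficients of the channel `κ = k / N` at `τ = t / N`. -/
noncomputable def gk (κ τ : ℝ) : ℝ := Fr (κ + (1 - τ)) - Fr (κ - (1 - τ)) - 2 * Fr (1 - τ)

/-- The summand of the volume of the middle level. -/
noncomputable def hf (s : ℝ) : ℝ := -Fr s - Fr (1 / 2 - s)

/-- The volume of an ideal tetrahedron with the angles `π α, π β, π γ`, divided by `π`. -/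
noncomputable def TF (α β γ : ℝ) : ℝ := -Fr α - Fr β - Fr γ

/-- The growth of a vertex of level `l` with the states `x` (end), `a`, `b` (sides), `x + a + b = l`. -/
noncomputable def EV (l x a b : ℝ) : ℝ :=
  (Fr (l + x) - Fr l - Fr x) + (Fr (1 - l + a) - Fr (1 - l) - Fr a) +
    (Fr (1 - l + b) - Fr (1 - l) - Fr b)

/-- The growth of a twist region for the channels `k v` (`A`: the set of the twist regions with
`EN`). -/
noncomputable def PE {c : ℕ} (N : ℕ) (A : Finset (Fin c)) (k : Fin c → ℕ) (t : Fin c → ℕ) : ℂ :=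
  ∏ v, (((if v ∈ A then EN N (k v) (t v) else QN N (k v) (t v)) : ℝ) : ℂ)

end Pool.Agent.H63.CLK
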