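import Pool.Agent.H63.CLK.H_Bdy
import Pool.Agent.H63.CLK.H_Uni
import Pool.Agent.H63.CLK.H_Le
import Pool.Agent.H63.CLK.N_Defs

/-!
# All directions: existence of the maximum

Let `z` be an interior point (`IsInt`), `K` the compact set of the `y` with `IsAng y` and `1/2 ≤ y (inl v)` (`ang_compact`; the volume
function is continuous: `volF_eq`, `Uf_continuous`). Let `y ∈ K` be a point where `volF` is maximal on `K`. On `K`, `volF = volSy`
(`volF_eq_volS`). The segment from `y` to `z` is in `K`, so the proof of `intS_of_max` (`H_Bdy.lean`, the private lemmas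
`hb_main`, `hb_SV_spec`, `hb_conv`; copy what is needed, or generalise `hb_main` in that file: only the points
`y + t (z - y)`, `0 < t ≤ 1`, are used in the hypothesis `hmax`) applies and gives `0 < y (inl v) < 1`, `y (inl v) ≠ 1/2`, the strict
inequalities for the corners (which hold for `z`), so `IsInt F cor y`. Uniqueness: if `y' ∈ K`, `y' ≠ y` and `volF y' ≥ volF y`, then `y'`
is maximal too, so `IsInt F cor y'`, and `volF_mid` contradicts the maximality (the midpoint is in `K`).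
-/

set_option autoImplicit false

namespace Pool.Agent.H63.CLK

open scoped BigOperators

variable {c : ℕ} {F : Finset ℕ} {cor : Fin c → Fin 4 → ℕ}

/-- The slope of `|τ + t δ - 1/2|` at `t = 0`, from the right. -/
private noncomputable def N_Max_sl (τ δ : ℝ) : ℝ :=
  if 1 / 2 < τ then δ else if τ < 1 / 2 then -δ else |δ|

open Filter Topology in
private theorem N_Max_sl_spec (τ δ : ℝ) :
    ∀ᶠ t : ℝ in 𝓝[>] 0, |τ + t * δ - 1 / 2| = |τ - 1 / 2| + t * N_Max_sl τ δ := by
  have hlim : Tendsto (fun t : ℝ => τ + t * δ - 1 / 2) (𝓝[>] 0) (𝓝 (τ + 0 * δ - 1 / 2)) := by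
    apply Tendsto.mono_left _ nhdsWithin_le_nhds
    exact Continuous.tendsto (by fun_prop) 0
  rw [zero_mul, add_zero] at hlim
  rcases lt_trichotomy τ (1 / 2) with h | h | h
  · have h1 : τ - 1 / 2 < 0 := by linarith
    filter_upwards [hlim.eventually (eventually_lt_nhds h1)] with t ht
    rw [abs_of_neg ht, abs_of_neg h1, N_Max_sl, if_neg (by linarith), if_pos h]
    ring
  · filter_upwards [self_mem_nhdsWithin] with t ht
    have ht' : (0 : ℝ) < t := ht
    rw [N_Max_sl, if_neg (by linarith), if_neg (by linarith)]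
    have e1 : τ + t * δ - 1 / 2 = t * δ := by rw [h]; ring
    have e2 : τ - 1 / 2 = 0 := by rw [h]; ring
    rw [e1, e2, abs_mul, abs_of_pos ht', abs_zero, zero_add]
  · have h1 : 0 < τ - 1 / 2 := by linarith
    filter_upwards [hlim.eventually (eventually_gt_nhds h1)] with t ht
    rw [abs_of_pos ht, abs_of_pos h1, N_Max_sl, if_pos h]
    ring

open Classical in
/-- The sum of the slopes at a vertex. -/
private noncomputable def N_Max_S (τ δ : ℝ) (σ d : Fin 4 → ℝ) : ℝ :=
  (if |τ - 1 / 2| = 0 ∨ |τ - 1 / 2| = 1 then 4 * N_Max_sl τ δ else 0) +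
  (if 1 / 2 - |τ - 1 / 2| = 0 ∨ 1 / 2 - |τ - 1 / 2| = 1 then 4 * (-N_Max_sl τ δ) else 0) +
  ∑ k, ((if σ k = 0 ∨ σ k = 1 then 2 * d k else 0) +
    (if cz 1 τ k - σ k = 0 ∨ cz 1 τ k - σ k = 1 then 2 * (cz 0 δ k - d k) else 0))

open Classical in
private theorem N_Max_pair0 {s e D : ℝ} (hs : s = 0) :
    (if s = 0 ∨ s = 1 then 2 * e else 0) + (if 0 - s = 0 ∨ 0 - s = 1 then 2 * (D - e) else 0) =
      2 * D := by
  rw [if_pos (Or.inl hs), if_pos (Or.inl (by rw [hs]; ring))]
  ring

open Classical in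
private theorem N_Max_pair1 {s e D : ℝ} (hD : D ≤ 0) :
    2 * D ≤ (if s = 0 ∨ s = 1 then 2 * e else 0) +
      (if 1 - s = 0 ∨ 1 - s = 1 then 2 * (D - e) else 0) := by
  by_cases h : s = 0 ∨ s = 1
  · rw [if_pos h, if_pos (by rcases h with h | h <;> rw [h] <;> norm_num)]
    linarith
  · have h' : ¬ (1 - s = 0 ∨ 1 - s = 1) := by
      rintro (h1 | h1)
      · exact h (Or.inr (by linarith))
      · exact h (Or.inl (by linarith))
    rw [if_neg h, if_neg h']
    linarith

private theorem N_Max_S_spec {τ δ : ℝ} {σ d : Fin 4 → ℝ} (hσ : ∀ k, 0 ≤ σ k)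
    (hle : ∀ k, σ k ≤ cz 1 τ k) (hz : ∀ k, 0 ≤ σ k + d k)
    (hzle : ∀ k, σ k + d k ≤ cz 1 (τ + δ) k) :
    0 ≤ N_Max_S τ δ σ d ∧ (N_Max_S τ δ σ d = 0 → (τ = 1 / 2 → δ = 0) ∧
      (0 < τ + δ → τ + δ < 1 → 0 < τ ∧ τ < 1) ∧
      (0 < τ → τ < 1 → ∀ k, (0 < σ k + d k → 0 < σ k) ∧
        (σ k + d k < cz 1 (τ + δ) k → σ k < cz 1 τ k))) := by
  have c0 : ∀ n x : ℝ, cz n x 0 = n - x := fun _ _ => rfl
  have c1 : ∀ n x : ℝ, cz n x 1 = x := fun _ _ => rfl
  have c2 : ∀ n x : ℝ, cz n x 2 = n - x := fun _ _ => rfl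
  have c3 : ∀ n x : ℝ, cz n x 3 = x := fun _ _ => rfl
  have l0 := hle 0
  have l1 := hle 1
  have l2 := hle 2
  have l3 := hle 3
  have z0 := hzle 0
  have z1 := hzle 1
  rw [c0] at l0 z0
  rw [c1] at l1 z1
  rw [c2] at l2
  rw [c3] at l3
  have hτ0 : 0 ≤ τ := by linarith [hσ 1]
  have hτ1 : τ ≤ 1 := by linarith [hσ 0]
  have hδ0 : 0 ≤ τ + δ := by linarith [hz 1]
  have hδ1 : τ + δ ≤ 1 := by linarith [hz 0]
  rcases hτ0.lt_or_eq with ht0 | ht0
  · rcases hτ1.lt_or_eq with ht1 | ht1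
    · -- `0 < τ < 1`
      have habs : |τ - 1 / 2| < 1 / 2 := abs_lt.mpr ⟨by linarith, by linarith⟩
      have habs0 := abs_nonneg (τ - 1 / 2)
      have cpos : ∀ k, cz 1 τ k < 1 := by
        intro k
        fin_cases k <;> simp [cz] <;> linarith
      have cdif : ∀ k, cz 1 (τ + δ) k = cz 1 τ k + cz 0 δ k := by
        intro k
        fin_cases k <;> simp [cz] <;> ring
      classical
      have hA1 : 0 ≤ (if |τ - 1 / 2| = 0 ∨ |τ - 1 / 2| = 1 then 4 * N_Max_sl τ δ else 0) := by
        split_ifs with h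
        · rcases h with h | h
          · have hτ : τ = 1 / 2 := by linarith [abs_eq_zero.mp h]
            rw [N_Max_sl, if_neg (by linarith), if_neg (by linarith)]
            positivity
          · linarith
        · exact le_rfl
      have hA2 : (if 1 / 2 - |τ - 1 / 2| = 0 ∨ 1 / 2 - |τ - 1 / 2| = 1 then
          4 * (-N_Max_sl τ δ) else 0) = 0 := by
        rw [if_neg]
        rintro (h | h) <;> linarith
      have hC1 : ∀ k, 0 ≤ (if σ k = 0 ∨ σ k = 1 then 2 * d k else 0) := by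
        intro k
        split_ifs with h
        · rcases h with h | h
          · have := hz k
            rw [h] at this
            linarith
          · linarith [hle k, cpos k]
        · exact le_rfl
      have hC2 : ∀ k, 0 ≤ (if cz 1 τ k - σ k = 0 ∨ cz 1 τ k - σ k = 1 then
          2 * (cz 0 δ k - d k) else 0) := by
        intro k
        split_ifs with h
        · rcases h with h | h
          · have := hzle k
            rw [cdif] at this
            linarith
          · linarith [hσ k, cpos k]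
        · exact le_rfl
      have hsumnn : 0 ≤ ∑ k, ((if σ k = 0 ∨ σ k = 1 then 2 * d k else 0) +
          (if cz 1 τ k - σ k = 0 ∨ cz 1 τ k - σ k = 1 then 2 * (cz 0 δ k - d k) else 0)) :=
        Finset.sum_nonneg fun k _ => add_nonneg (hC1 k) (hC2 k)
      have hdef : N_Max_S τ δ σ d = (if |τ - 1 / 2| = 0 ∨ |τ - 1 / 2| = 1 then 4 * N_Max_sl τ δ else 0) +
          (if 1 / 2 - |τ - 1 / 2| = 0 ∨ 1 / 2 - |τ - 1 / 2| = 1 then 4 * (-N_Max_sl τ δ) else 0) +
          ∑ k, ((if σ k = 0 ∨ σ k = 1 then 2 * d k else 0) +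
          (if cz 1 τ k - σ k = 0 ∨ cz 1 τ k - σ k = 1 then 2 * (cz 0 δ k - d k) else 0)) := by
        unfold N_Max_S
        rfl
      rw [hdef, hA2, add_zero]
      refine ⟨add_nonneg hA1 hsumnn, fun h0 => ⟨fun hτ => ?_, fun _ _ => ⟨ht0, ht1⟩,
        fun _ _ k => ?_⟩⟩
      · have h1 : (if |τ - 1 / 2| = 0 ∨ |τ - 1 / 2| = 1 then 4 * N_Max_sl τ δ else 0) = 0 := by
          linarith
        rw [if_pos (Or.inl (by rw [hτ]; norm_num)), N_Max_sl, if_neg (by linarith),
          if_neg (by linarith)] at h1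
        exact abs_eq_zero.mp (by linarith)
      · have h1 : ∑ k, ((if σ k = 0 ∨ σ k = 1 then 2 * d k else 0) +
          (if cz 1 τ k - σ k = 0 ∨ cz 1 τ k - σ k = 1 then 2 * (cz 0 δ k - d k) else 0)) = 0 := by
          linarith
        rw [Finset.sum_eq_zero_iff_of_nonneg fun k _ => add_nonneg (hC1 k) (hC2 k)] at h1
        have h2 := h1 k (Finset.mem_univ k)
        have h3 := hC1 k
        have h4 := hC2 k
        constructor
        · intro hp
          rcases (hσ k).lt_or_eq with h | h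
          · exact h
          · exfalso
            have h5 : (if σ k = 0 ∨ σ k = 1 then 2 * d k else 0) = 0 := by linarith
            rw [if_pos (Or.inl h.symm)] at h5
            linarith
        · intro hp
          rcases (hle k).lt_or_eq with h | h
          · exact h
          · exfalso
            have h5 : (if cz 1 τ k - σ k = 0 ∨ cz 1 τ k - σ k = 1 then
              2 * (cz 0 δ k - d k) else 0) = 0 := by linarith
            rw [if_pos (Or.inl (by linarith))] at h5
            rw [cdif] at hp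
            linarith
    · -- `τ = 1`
      have s0 : σ 0 = 0 := by linarith [hσ 0]
      have s2 : σ 2 = 0 := by linarith [hσ 2]
      have hsl : N_Max_sl τ δ = δ := by rw [N_Max_sl, if_pos (by linarith)]
      have habs : |τ - 1 / 2| = 1 / 2 := by rw [ht1]; norm_num
      have key : -4 * δ ≤ N_Max_S τ δ σ d := by
        unfold N_Max_S
        rw [Fin.sum_univ_four, habs, hsl, c0, c1, c2, c3, c0, c1, c2, c3, ht1]
        rw [if_neg (by norm_num), if_pos (Or.inl (by norm_num))]
        have p0 := N_Max_pair0 (s := σ 0) (e := d 0) (D := 0 - δ) s0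
        have p2 := N_Max_pair0 (s := σ 2) (e := d 2) (D := 0 - δ) s2
        have p1 := N_Max_pair1 (s := σ 1) (e := d 1) (D := δ) (by linarith)
        have p3 := N_Max_pair1 (s := σ 3) (e := d 3) (D := δ) (by linarith)
        rw [sub_self]
        linarith
      refine ⟨by linarith, fun h0 => ⟨fun h => by linarith, fun _ h => by linarith,
        fun _ h => by linarith⟩⟩
  · -- `τ = 0`
    have s1 : σ 1 = 0 := by linarith [hσ 1]
    have s3 : σ 3 = 0 := by linarith [hσ 3]
    have hsl : N_Max_sl τ δ = -δ := by rw [N_Max_sl, if_neg (by linarith), if_pos (by linarith)]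
    have habs : |τ - 1 / 2| = 1 / 2 := by rw [← ht0]; norm_num
    have key : 4 * δ ≤ N_Max_S τ δ σ d := by
      unfold N_Max_S
      rw [Fin.sum_univ_four, habs, hsl, c0, c1, c2, c3, c0, c1, c2, c3, ← ht0]
      rw [if_neg (by norm_num), if_pos (Or.inl (by norm_num))]
      have p0 := N_Max_pair1 (s := σ 0) (e := d 0) (D := 0 - δ) (by linarith)
      have p2 := N_Max_pair1 (s := σ 2) (e := d 2) (D := 0 - δ) (by linarith)
      have p1 := N_Max_pair0 (s := σ 1) (e := d 1) (D := δ) s1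
      have p3 := N_Max_pair0 (s := σ 3) (e := d 3) (D := δ) s3
      rw [sub_zero]
      linarith
    refine ⟨by linarith, fun h0 => ⟨fun h => by linarith, fun h _ => by linarith,
      fun h => by linarith⟩⟩

/-- The index set of the terms at a vertex. -/
private abbrev N_Max_J : Type := Bool ⊕ (Fin 4 × Bool)

private theorem N_Max_sum (f : Fin c × N_Max_J → ℝ) :
    ∑ p, f p = ∑ v, (f (v, Sum.inl false) + f (v, Sum.inl true) +
      ∑ k, (f (v, Sum.inr (k, false)) + f (v, Sum.inr (k, true)))) := by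
  rw [Fintype.sum_prod_type]
  refine Finset.sum_congr rfl fun v _ => ?_
  rw [Fintype.sum_sum_type, Fintype.sum_prod_type, Fintype.sum_bool]
  congr 1
  · ring
  · refine Finset.sum_congr rfl fun k _ => ?_
    rw [Fintype.sum_bool]
    ring

private def N_Max_w (c : ℕ) : Fin c × N_Max_J → ℝ := fun p => Sum.elim (fun _ => 4) (fun _ => 2) p.2

private noncomputable def N_Max_a (y : Vr c → ℝ) : Fin c × N_Max_J → ℝ := fun p =>
  Sum.elim (fun b => if b then 1 / 2 - |y (Sum.inl p.1) - 1 / 2| else |y (Sum.inl p.1) - 1 / 2|)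
    (fun q => if q.2 then cz 1 (y (Sum.inl p.1)) q.1 - y (Sum.inr (p.1, q.1))
      else y (Sum.inr (p.1, q.1))) p.2

private noncomputable def N_Max_b (y z : Vr c → ℝ) : Fin c × N_Max_J → ℝ := fun p =>
  Sum.elim (fun b => if b then -N_Max_sl (y (Sum.inl p.1)) (z (Sum.inl p.1) - y (Sum.inl p.1))
      else N_Max_sl (y (Sum.inl p.1)) (z (Sum.inl p.1) - y (Sum.inl p.1)))
    (fun q => if q.2 then cz 0 (z (Sum.inl p.1) - y (Sum.inl p.1)) q.1 -
        (z (Sum.inr (p.1, q.1)) - y (Sum.inr (p.1, q.1)))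
      else z (Sum.inr (p.1, q.1)) - y (Sum.inr (p.1, q.1))) p.2

private theorem N_Max_cz (τ δ t : ℝ) (k : Fin 4) : cz 1 (τ + t * δ) k = cz 1 τ k + t * cz 0 δ k := by
  fin_cases k <;> simp [cz] <;> ring

private theorem N_Max_volS (y z : Vr c → ℝ) (t : ℝ)
    (ht : ∀ v, |y (Sum.inl v) + t * (z (Sum.inl v) - y (Sum.inl v)) - 1 / 2| =
      |y (Sum.inl v) - 1 / 2| + t * N_Max_sl (y (Sum.inl v)) (z (Sum.inl v) - y (Sum.inl v))) :
    volSy (fun j => y j + t * (z j - y j)) =
      ∑ i, N_Max_w c i * VC.lob (Real.pi * (N_Max_a y i + t * N_Max_b y z i)) := by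
  rw [N_Max_sum, volSy]
  refine Finset.sum_congr rfl fun v _ => ?_
  simp only [N_Max_w, N_Max_a, N_Max_b, Sum.elim_inl, Sum.elim_inr, if_true, if_false, Bool.false_eq_true]
  rw [ht v]
  congr 1
  · rw [mul_add]
    congr 3
    ring_nf
  · refine Finset.sum_congr rfl fun k _ => ?_
    rw [N_Max_cz, mul_add]
    congr 3
    ring_nf

private theorem N_Max_volS0 (y z : Vr c → ℝ) :
    volSy y = ∑ i, N_Max_w c i * VC.lob (Real.pi * N_Max_a y i) := by
  have h := N_Max_volS y z 0 (fun v => by simp)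
  simp only [zero_mul, add_zero] at h
  exact h

private theorem N_Max_conv {y z : Vr c → ℝ} (hy : IsAng F cor y) (hz : IsAng F cor z) {t : ℝ}
    (h0 : 0 ≤ t) (h1 : t ≤ 1) : IsAng F cor (fun j => y j + t * (z j - y j)) := by
  constructor
  · intro v
    rw [Finset.sum_add_distrib, ← Finset.mul_sum, Finset.sum_sub_distrib, hy.vert, hz.vert]
    ring
  · intro f hf
    have e : ∀ v k, (if cor v k = f then y (Sum.inr (v, k)) +
        t * (z (Sum.inr (v, k)) - y (Sum.inr (v, k))) else 0) =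
        (if cor v k = f then y (Sum.inr (v, k)) else 0) +
        t * ((if cor v k = f then z (Sum.inr (v, k)) else 0) -
          (if cor v k = f then y (Sum.inr (v, k)) else 0)) := by
      intro v k
      split_ifs <;> ring
    simp only [e, Finset.sum_add_distrib, ← Finset.mul_sum, Finset.sum_sub_distrib]
    rw [hy.face f hf, hz.face f hf]
    ring
  · intro v k hk
    rw [hy.out v k hk, hz.out v k hk]
    ring
  · intro v k
    have h2 := hy.nn v k
    have h3 := hz.nn v k
    have e : y (Sum.inr (v, k)) + t * (z (Sum.inr (v, k)) - y (Sum.inr (v, k))) =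
      (1 - t) * y (Sum.inr (v, k)) + t * z (Sum.inr (v, k)) := by ring
    rw [e]
    have : 0 ≤ 1 - t := by linarith
    positivity
  · intro v k
    have h2 := hy.le v k
    have h3 := hz.le v k
    have e : cz 1 (y (Sum.inl v) + t * (z (Sum.inl v) - y (Sum.inl v))) k =
        (1 - t) * cz 1 (y (Sum.inl v)) k + t * cz 1 (z (Sum.inl v)) k := by
      fin_cases k <;> simp [cz] <;> ring
    rw [e]
    have h4 : 0 ≤ 1 - t := by linarith
    have h5 := mul_le_mul_of_nonneg_left h2 h4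
    have h6 := mul_le_mul_of_nonneg_left h3 h0
    linarith

/-- The sum of the slopes at the vertex `v`. -/
private noncomputable def N_Max_SV (y z : Vr c → ℝ) (v : Fin c) : ℝ :=
  N_Max_S (y (Sum.inl v)) (z (Sum.inl v) - y (Sum.inl v)) (fun k => y (Sum.inr (v, k)))
    (fun k => z (Sum.inr (v, k)) - y (Sum.inr (v, k)))

private theorem N_Max_SV_spec {y z : Vr c → ℝ} (hy : IsAng F cor y) (hz : IsAng F cor z) (v : Fin c) :
    0 ≤ N_Max_SV y z v ∧ (N_Max_SV y z v = 0 →
      (y (Sum.inl v) = 1 / 2 → z (Sum.inl v) - y (Sum.inl v) = 0) ∧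
      (0 < z (Sum.inl v) → z (Sum.inl v) < 1 → 0 < y (Sum.inl v) ∧ y (Sum.inl v) < 1) ∧
      (0 < y (Sum.inl v) → y (Sum.inl v) < 1 → ∀ k,
        (0 < z (Sum.inr (v, k)) → 0 < y (Sum.inr (v, k))) ∧
        (z (Sum.inr (v, k)) < cz 1 (z (Sum.inl v)) k →
          y (Sum.inr (v, k)) < cz 1 (y (Sum.inl v)) k))) := by
  have h := N_Max_S_spec (τ := y (Sum.inl v)) (δ := z (Sum.inl v) - y (Sum.inl v))
    (σ := fun k => y (Sum.inr (v, k))) (d := fun k => z (Sum.inr (v, k)) - y (Sum.inr (v, k)))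
    (fun k => hy.nn v k) (fun k => hy.le v k)
    (fun k => by simpa using hz.nn v k) (fun k => by simpa using hz.le v k)
  simpa only [add_sub_cancel, N_Max_SV] using h

open Classical in
private theorem N_Max_total (y z : Vr c → ℝ) :
    (∑ i, if N_Max_a y i = 0 ∨ N_Max_a y i = 1 then N_Max_w c i * N_Max_b y z i else 0) =
      ∑ v, N_Max_SV y z v := by
  rw [N_Max_sum]
  refine Finset.sum_congr rfl fun v _ => ?_
  simp only [N_Max_w, N_Max_a, N_Max_b, Sum.elim_inl, Sum.elim_inr, if_true, if_false, Bool.false_eq_true,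
    N_Max_SV, N_Max_S]

private theorem N_Max_main {y z : Vr c → ℝ} (hy : IsAng F cor y) (hz : IsAng F cor z)
    (hmax : ∀ t : ℝ, 0 < t → t ≤ 1 → volSy (fun j => y j + t * (z j - y j)) ≤ volSy y)
    (v : Fin c) : N_Max_SV y z v = 0 := by
  by_contra hne
  have hpos : 0 < N_Max_SV y z v := lt_of_le_of_ne (N_Max_SV_spec hy hz v).1 (Ne.symm hne)
  have htot : 0 < ∑ v, N_Max_SV y z v :=
    Finset.sum_pos' (fun v _ => (N_Max_SV_spec hy hz v).1) ⟨v, Finset.mem_univ v, hpos⟩
  rw [← N_Max_total] at htot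
  have hev : ∀ᶠ t : ℝ in nhdsWithin 0 (Set.Ioi 0), ∀ v : Fin c,
      |y (Sum.inl v) + t * (z (Sum.inl v) - y (Sum.inl v)) - 1 / 2| =
      |y (Sum.inl v) - 1 / 2| + t * N_Max_sl (y (Sum.inl v)) (z (Sum.inl v) - y (Sum.inl v)) :=
    Filter.eventually_all.mpr fun v => N_Max_sl_spec _ _
  obtain ⟨ε, hε, hsub⟩ := (mem_nhdsGT_iff_exists_Ioo_subset).mp hev
  have hε' : (0 : ℝ) < ε := hε
  have ha : ∀ i, 0 ≤ N_Max_a y i ∧ N_Max_a y i ≤ 1 := by
    rintro ⟨v, b | ⟨k, b⟩⟩
    · have ht := ang_tau hy v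
      have h1 : |y (Sum.inl v) - 1 / 2| ≤ 1 / 2 := abs_le.mpr ⟨by linarith, by linarith⟩
      have h2 := abs_nonneg (y (Sum.inl v) - 1 / 2)
      cases b
      · change 0 ≤ |y (Sum.inl v) - 1 / 2| ∧ |y (Sum.inl v) - 1 / 2| ≤ 1
        exact ⟨h2, by linarith⟩
      · change 0 ≤ 1 / 2 - |y (Sum.inl v) - 1 / 2| ∧ 1 / 2 - |y (Sum.inl v) - 1 / 2| ≤ 1
        exact ⟨by linarith, by linarith⟩
    · have ht := ang_tau hy v
      have h1 := hy.nn v k
      have h2 := hy.le v k
      have h3 : cz 1 (y (Sum.inl v)) k ≤ 1 := by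
        fin_cases k <;> simp [cz] <;> linarith
      cases b <;> simp only [N_Max_a, Sum.elim_inr, if_true, if_false, Bool.false_eq_true] <;>
        constructor <;> linarith
  obtain ⟨t, ht0, ht1, hlt⟩ := seg_up (N_Max_w c) (N_Max_a y) (N_Max_b y z) ha htot (min ε 1)
    (lt_min hε' one_pos)
  have ht : ∀ v : Fin c, |y (Sum.inl v) + t * (z (Sum.inl v) - y (Sum.inl v)) - 1 / 2| =
      |y (Sum.inl v) - 1 / 2| + t * N_Max_sl (y (Sum.inl v)) (z (Sum.inl v) - y (Sum.inl v)) :=
    hsub ⟨ht0, lt_of_lt_of_le ht1 (min_le_left _ _)⟩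
  rw [← N_Max_volS0 y z, ← N_Max_volS y z t ht] at hlt
  have hle := hmax t ht0 (lt_of_lt_of_le ht1 (min_le_right _ _)).le
  linarith


/-- A maximum on the part `τ ≥ 1/2` is an interior point. -/
private theorem N_Max_int {y z : Vr c → ℝ} (hy : IsAng F cor y)
    (hy2 : ∀ v, 1 / 2 ≤ y (Sum.inl v)) (hz : IsInt F cor z)
    (hmax : ∀ x : Vr c → ℝ, IsAng F cor x → (∀ v, 1 / 2 ≤ x (Sum.inl v)) → volF x ≤ volF y) :
    IsInt F cor y := by
  have hseg : ∀ t : ℝ, 0 < t → t ≤ 1 →
      volSy (fun j => y j + t * (z j - y j)) ≤ volSy y := by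
    intro t ht0 ht1
    have h1 := N_Max_conv hy hz.ang ht0.le ht1
    have h2 : ∀ v, 1 / 2 ≤ y (Sum.inl v) + t * (z (Sum.inl v) - y (Sum.inl v)) := by
      intro v
      have e : y (Sum.inl v) + t * (z (Sum.inl v) - y (Sum.inl v)) =
        (1 - t) * y (Sum.inl v) + t * z (Sum.inl v) := by ring
      rw [e]
      have h3 : 0 ≤ 1 - t := by linarith
      have h4 := mul_le_mul_of_nonneg_left (hy2 v) h3
      have h5 := mul_le_mul_of_nonneg_left (hz.half v).le ht0.le
      linarith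
    have h3 := hmax _ h1 h2
    rwa [volF_eq_volS h1 h2, volF_eq_volS hy hy2] at h3
  have hmain := fun v => (N_Max_SV_spec hy hz.ang v).2 (N_Max_main hy hz.ang hseg v)
  have h1 : ∀ v, 0 < y (Sum.inl v) ∧ y (Sum.inl v) < 1 := fun v =>
    (hmain v).2.1 (by linarith [hz.half v]) (hz.lt1 v)
  refine ⟨hy, fun v => ?_, fun v => (h1 v).2, fun v k hk he => ?_, fun v k hk he => ?_⟩
  · refine lt_of_le_of_ne (hy2 v) fun h => ?_
    have := (hmain v).1 h.symm
    have := hz.half v
    linarith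
  · exact ((hmain v).2.2 (h1 v).1 (h1 v).2 k).1 (hz.pos v k hk he)
  · exact ((hmain v).2.2 (h1 v).1 (h1 v).2 k).2 (hz.lt v k hk he)

theorem exists_maxN {z : Vr c → ℝ} (hz : IsInt F cor z) : ∃ x : Vr c → ℝ, IsMaxN F cor x := by
  have hcl : IsClosed {x : Vr c → ℝ | ∀ v, 1 / 2 ≤ x (Sum.inl v)} := by
    have e : {x : Vr c → ℝ | ∀ v, 1 / 2 ≤ x (Sum.inl v)} =
        ⋂ v : Fin c, {x : Vr c → ℝ | 1 / 2 ≤ x (Sum.inl v)} := by
      ext x
      simp only [Set.mem_ofPred_eq, Set.mem_iInter]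
    rw [e]
    exact isClosed_iInter fun v => isClosed_le continuous_const (continuous_apply _)
  have hcomp : IsCompact ({x : Vr c → ℝ | IsAng F cor x} ∩
      {x : Vr c → ℝ | ∀ v, 1 / 2 ≤ x (Sum.inl v)}) := (ang_compact (F := F) (cor := cor)).inter_right hcl
  have hcont : Continuous (volF : (Vr c → ℝ) → ℝ) := by
    have e : (volF : (Vr c → ℝ) → ℝ) = fun x => 2 * Real.pi * Uf x := funext volF_eq
    rw [e]
    exact continuous_const.mul Uf_continuous
  obtain ⟨y, hy, hmax⟩ := hcomp.exists_isMaxOn ⟨z, hz.ang, fun v => (hz.half v).le⟩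
    hcont.continuousOn
  have hmax' : ∀ x : Vr c → ℝ, IsAng F cor x → (∀ v, 1 / 2 ≤ x (Sum.inl v)) → volF x ≤ volF y :=
    fun x h1 h2 => hmax ⟨h1, h2⟩
  have hint : IsInt F cor y := N_Max_int hy.1 hy.2 hz hmax'
  refine ⟨y, hint, fun x hx hx2 hne => ?_⟩
  by_contra hcon
  push Not at hcon
  have hmaxx : ∀ x' : Vr c → ℝ, IsAng F cor x' → (∀ v, 1 / 2 ≤ x' (Sum.inl v)) →
      volF x' ≤ volF x := fun x' h1 h2 => (hmax' x' h1 h2).trans hcon
  have hintx : IsInt F cor x := N_Max_int hx hx2 hz hmaxx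
  have hmid := volF_mid hint hintx (Ne.symm hne)
  have hang : IsAng F cor (fun j => (y j + x j) / 2) := by
    have h1 := N_Max_conv hy.1 hx (t := 1 / 2) (by norm_num) (by norm_num)
    have e : (fun j => y j + 1 / 2 * (x j - y j)) = fun j => (y j + x j) / 2 := by
      funext j
      ring
    rwa [e] at h1
  have h3 := hmax' _ hang (fun v => by
    have h1 := hy.2 v
    have h2 := hx2 v
    linarith)
  linarith

end Pool.Agent.H63.CLK
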