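import Pool.Agent.H63.CLK.F_FinalC
import Pool.Agent.H63.CLK.F_FarA
import Pool.Agent.H63.CLK.N_FAR
import Pool.Agent.H63.CLK.N_Max
import Pool.Agent.H63.CLK.N_Lr
import Pool.Agent.H63.CLK.H_Main

/-!
# Highly twisted links: all directions
-/

set_option autoImplicit false

namespace Pool.Agent.H63.CLK

open Complex Filter Topology
open scoped BigOperators

theorem clk_allD (w : List TPiece) (c : ℕ) (F : Finset ℕ) (cor : Fin c → Fin 4 → ℕ)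
    (hT : IsTemplate w c F cor) (hP : IsPrimeT F cor) (z : Vr c → ℝ) (hz : IsInt F cor z) :
    ∃ R : ℝ, ∀ a : ℕ → ℤ, (∀ v < c, R ≤ |(a v : ℝ)|) → ∀ e : ℤ, ∃ V C : ℝ, IsVolume w a V ∧
      (∃ Z : ℂ, IsComplexVolume w a Z ∧
        ∃ k : ℤ, Z = I * (V + C * I) + k * (Real.pi : ℂ) ^ 2) ∧
      (∃ L : ℕ → ℂ, (∀ᶠ N : ℕ in atTop, exp (L N) = longJones (fill a 0 w) e N (qz N)) ∧
        Tendsto (fun N : ℕ => 2 * (Real.pi : ℂ) * L N / (N + 1)) atTop (𝓝 (V + C * I))) ∧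
      Tendsto (fun N : ℕ => 2 * (Real.pi : ℂ) *
        log (longJones (fill a 0 w) e N (qz N)) / (N + 1)) atTop (𝓝 (V : ℂ)) ∧
      ∃ κ : ℂ, κ ≠ 0 ∧ Tendsto (fun N : ℕ => longJones (fill a 0 w) e N (qz N) /
        ((((N : ℝ) + 1) ^ (3 / 2 : ℝ) : ℝ) *
          exp ((N + 1) * (V + C * I) / (2 * Real.pi)))) atTop (𝓝 κ) := by
  obtain ⟨x, hx⟩ := exists_maxN hz
  exact clk_finalC w c F cor hT hP.ends x hx
    (far_ok hT (side_ne hT hP) hx (fun v => hP.opp v 0))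

end Pool.Agent.H63.CLK
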