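import Pool.Agent.H63.CLK.F_Main
import Pool.Agent.H63.VC6.LogL
import Pool.Agent.H63.VC3.Final

/-!
# Highly twisted links: the final form
-/

set_option autoImplicit false

namespace Pool.Agent.H63.CLK

open Complex Filter Topology
open scoped BigOperators

/-- From the asymptotics to the limits of the logarithms. -/
theorem F_Final_log (J : ℕ → ℂ) (z : ℂ) (κ : ℂ) (hκ : κ ≠ 0)
    (h : Tendsto (fun N : ℕ => J N / ((((N + 1 : ℕ) : ℝ) ^ (3 / 2 : ℝ) : ℝ) *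
      exp (((N + 1 : ℕ) : ℂ) * z))) atTop (𝓝 κ)) :
    (∃ L : ℕ → ℂ, (∀ᶠ N : ℕ in atTop, exp (L N) = J N) ∧
      Tendsto (fun N : ℕ => 2 * (Real.pi : ℂ) * L N / (N + 1)) atTop
        (𝓝 (((2 * Real.pi * z.re : ℝ) : ℂ) + ((2 * Real.pi * z.im : ℝ) : ℂ) * I))) ∧
    Tendsto (fun N : ℕ => 2 * (Real.pi : ℂ) * log (J N) / (N + 1)) atTop
      (𝓝 ((2 * Real.pi * z.re : ℝ) : ℂ)) ∧
    Tendsto (fun N : ℕ => J N / ((((N : ℝ) + 1) ^ (3 / 2 : ℝ) : ℝ) *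
      exp ((N + 1) * (((2 * Real.pi * z.re : ℝ) : ℂ) + ((2 * Real.pi * z.im : ℝ) : ℂ) * I) /
        (2 * Real.pi)))) atTop (𝓝 κ) := by
  have hpi : (Real.pi : ℂ) ≠ 0 := by exact_mod_cast Real.pi_ne_zero
  have hz : (((2 * Real.pi * z.re : ℝ) : ℂ) + ((2 * Real.pi * z.im : ℝ) : ℂ) * I) =
      2 * Real.pi * z := by
    apply Complex.ext
    · simp
    · simp
  have h1 : Tendsto (fun N : ℕ => J N / ((((N : ℝ) + 1) ^ (3 / 2 : ℝ) : ℝ) *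
      exp ((N + 1) * (((2 * Real.pi * z.re : ℝ) : ℂ) + ((2 * Real.pi * z.im : ℝ) : ℂ) * I) /
        (2 * Real.pi)))) atTop (𝓝 κ) := by
    refine h.congr fun N => ?_
    rw [hz]
    congr 3
    · push_cast; rfl
    · push_cast
      field_simp
  refine ⟨?_, ?_, h1⟩
  · exact Pool.Agent.H63.VC6.log_lift J 1 le_rfl (3 / 2) _ _ hκ (by simpa using h1)
  · have hn := h.norm
    have hnorm : Tendsto (fun N : ℕ => ‖J N‖ / (((N + 1 : ℕ) : ℝ) ^ (3 / 2 : ℝ) *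
        Real.exp ((N + 1 : ℕ) * z.re))) atTop (𝓝 ‖κ‖) := by
      refine hn.congr fun N => ?_
      rw [norm_div, norm_mul, Complex.norm_exp, Complex.norm_real, Real.norm_eq_abs,
        abs_of_nonneg (by positivity)]
      congr 3
      simp
    exact Pool.Agent.H63.VC3.final_log J 1 le_rfl (3 / 2) z.re ‖κ‖ (norm_pos_iff.2 hκ) hnorm

theorem clk_final (w : List TPiece) (c : ℕ) (F : Finset ℕ) (cor : Fin c → Fin 4 → ℕ)
    (hT : IsTemplate w c F cor) (hpr : ∃ v₁ v₂ : Fin c, ∀ v, IsEnd F cor v → v = v₁ ∨ v = v₂)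
    (x : Vr c → ℝ) (hx : IsMaxN F cor x) (hfar : FarOK F cor x) :
    ∃ R : ℝ, ∀ a : ℕ → ℤ, (∀ v < c, R ≤ |(a v : ℝ)|) → ∃ V : ℝ, IsVolume w a V ∧
      ∀ e : ℤ, ∃ C : ℝ,
        (∃ L : ℕ → ℂ, (∀ᶠ N : ℕ in atTop, exp (L N) = longJones (fill a 0 w) e N (qz N)) ∧
          Tendsto (fun N : ℕ => 2 * (Real.pi : ℂ) * L N / (N + 1)) atTop (𝓝 (V + C * I))) ∧
        Tendsto (fun N : ℕ => 2 * (Real.pi : ℂ) *
          log (longJones (fill a 0 w) e N (qz N)) / (N + 1)) atTop (𝓝 (V : ℂ)) ∧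
        ∃ κ : ℂ, κ ≠ 0 ∧ Tendsto (fun N : ℕ => longJones (fill a 0 w) e N (qz N) /
          ((((N : ℝ) + 1) ^ (3 / 2 : ℝ) : ℝ) *
            exp ((N + 1) * (V + C * I) / (2 * Real.pi)))) atTop (𝓝 κ) := by
  obtain ⟨R, hR⟩ := clk_main hT hpr hx hfar
  refine ⟨R, fun a ha => ?_⟩
  obtain ⟨z, hz, hlim⟩ := hR a ha
  refine ⟨_, hz, fun e => ?_⟩
  obtain ⟨κ, hκ, hl⟩ := hlim e
  set z' : ℂ := z - ∑ v : Fin c, Real.pi * I * a v / 4 + Real.pi * I * e with hz'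
  have hre : z'.re = z.re := by
    rw [hz']
    have h1 : ∀ r : ℝ, ((r : ℂ) * I).re = 0 := fun r => by simp
    have h2 : (∑ v : Fin c, (Real.pi : ℂ) * I * a v / 4) =
        ((∑ v : Fin c, Real.pi * (a v : ℝ) / 4 : ℝ) : ℂ) * I := by
      push_cast
      rw [Finset.sum_mul]
      refine Finset.sum_congr rfl fun v _ => ?_
      ring
    have h3 : (Real.pi : ℂ) * I * e = ((Real.pi * (e : ℝ) : ℝ) : ℂ) * I := by
      push_cast; ring
    rw [h2, h3, Complex.add_re, Complex.sub_re, h1, h1]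
    ring
  obtain ⟨h1, h2, h3⟩ := F_Final_log _ z' κ hκ hl
  rw [hre] at h1 h2 h3
  exact ⟨2 * Real.pi * z'.im, h1, h2, κ, hκ, h3⟩

end Pool.Agent.H63.CLK
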