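import Pool.Agent.H63.CLK.F_Main
import Pool.Agent.H63.CLK.D_MainC

/-!
# The asymptotics of Kashaev's invariant of highly twisted links, with the complex volume
-/

set_option autoImplicit false

namespace Pool.Agent.H63.CLK

open Pool.Agent.H63.VC hiding ext
open Pool.Agent.H63.VC3 Pool.Agent.H63.VC4 Pool.Agent.H63.VC7 Complex Filter Topology
open scoped BigOperators

variable {c d : ℕ} {F : Finset ℕ} {cor : Fin c → Fin 4 → ℕ} {x : Vr c → ℝ}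

theorem clk_mainC {w : List TPiece} (hT : IsTemplate w c F cor)
    (hpr : ∃ v₁ v₂ : Fin c, ∀ v, IsEnd F cor v → v = v₁ ∨ v = v₂) (h : IsMaxN F cor x)
    (hfar : FarOK F cor x) :
    ∃ R : ℝ, ∀ a : ℕ → ℤ, (∀ v < c, R ≤ |(a v : ℝ)|) → ∃ z : ℂ,
      IsVolume w a (2 * Real.pi * z.re) ∧
      (∃ (Z : ℂ) (k : ℤ), IsComplexVolume w a Z ∧
        Z = 2 * Real.pi * I * z + (Real.pi : ℂ) ^ 2 / 2 * ∑ v : Fin c, ((a v : ℤ) : ℂ) +
          k * (Real.pi : ℂ) ^ 2) ∧ ∀ e : ℤ, ∃ κ : ℂ, κ ≠ 0 ∧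
      Tendsto (fun N : ℕ => longJones (fill a 0 w) e N (qz N) /
        ((((N + 1 : ℕ) : ℝ) ^ (3 / 2 : ℝ) : ℝ) *
          exp (((N + 1 : ℕ) : ℂ) * (z - ∑ v : Fin c,
            Real.pi * I * a v / 4 + Real.pi * I * e)))) atTop (𝓝 κ) := by
  obtain ⟨T, hTF, hTc, hTw, hTG, hTe, hTA⟩ := exists_tdata hT h.int hpr
  obtain ⟨d, b, x0, hb, K, hK, hR⟩ := jones_asym hT h hfar
  have hcard : F.card = c := template_card hT
  have hpow : ((c : ℝ) + d - (Nd F cor).card) / 2 = 3 / 2 := by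
    have hpr' : ∃ v₁ v₂ : Fin c, ∀ v, IsEnd T.F T.cor v → v = v₁ ∨ v = v₂ := by
      rw [hTF, hTc]; exact hpr
    have h' : IsInt T.F T.cor x := by rw [hTF, hTc]; exact h.int
    have hb' : IsBas T.F T.cor b x0 := by rw [hTF, hTc]; exact hb
    have := power_eq hTw hTG (by rw [hTF]; exact hcard) hpr' h' hb'
    rw [hTF, hTc] at this
    exact this
  obtain ⟨ε1, hε1, h1⟩ := critT_of h.int hb
  obtain ⟨ε2, hε2, h2⟩ := psi_eq (d := d) (b := b) h.int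
  obtain ⟨ε3, hε3, h3⟩ := isVolume_of_crit hTw hTG hTA
  obtain ⟨ε5, hε5, h5⟩ := isComplexVolume_of_crit hTw hTG hTA
  obtain ⟨ε4, hε4, h4⟩ := F_Main_par b x (min ε3 ε5) (lt_min hε3 hε5)
  have h35 : 0 < min ε3 ε5 := lt_min hε3 hε5
  obtain ⟨R, hR0, hRa⟩ := hR (min (min ε1 ε2) (min (min ε3 ε5 / 2) ε4)) (by positivity)
  refine ⟨R, fun a ha => ?_⟩
  obtain ⟨p, hp, hlim⟩ := hRa a ha
  have hs1 : min (min ε1 ε2) (min (min ε3 ε5 / 2) ε4) ≤ ε1 := (min_le_left _ _).trans (min_le_left _ _)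
  have hs2 : min (min ε1 ε2) (min (min ε3 ε5 / 2) ε4) ≤ ε2 := (min_le_left _ _).trans (min_le_right _ _)
  have hs3 : min (min ε1 ε2) (min (min ε3 ε5 / 2) ε4) ≤ min ε3 ε5 / 2 :=
    (min_le_right _ _).trans (min_le_left _ _)
  have hs4 : min (min ε1 ε2) (min (min ε3 ε5 / 2) ε4) ≤ ε4 := (min_le_right _ _).trans (min_le_right _ _)
  obtain ⟨A, B, hc⟩ := h1 T hTF hTc hTe (fun v => a v) K _ p hs1 hp
  have hψ := h2 T hTF hTc hTe (fun v => a v) p (fun i => (hp.small i).trans hs2)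
  have hpar := h4 p (fun i => (hp.small i).trans hs4)
  have hz : ∀ v, ‖p (Sum.inr v)‖ < min ε3 ε5 := by
    intro v
    have := (hp.small (Sum.inr v)).trans hs3
    linarith
  refine ⟨cval F cor b x (fun v : Fin c => a v) p, ?_, ?_, fun e => ?_⟩
  · rw [← hψ]
    exact h3 a _ _ _ A B hc (fun v => ⟨(hpar _).trans_le (min_le_left _ _),
      (hz v).trans_le (min_le_left _ _)⟩) (fun v k => (hpar _).trans_le (min_le_left _ _))
  · obtain ⟨Z, hZ, k, hk⟩ := h5 a _ _ _ A B hc (fun v => ⟨(hpar _).trans_le (min_le_right _ _),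
      (hz v).trans_le (min_le_right _ _)⟩) (fun v k => (hpar _).trans_le (min_le_right _ _))
    rw [hψ] at hk
    exact ⟨Z, k, hZ, hk⟩
  · obtain ⟨κ, hκ, hl⟩ := hlim e
    refine ⟨κ, hκ, ?_⟩
    rw [hpow] at hl
    exact hl

end Pool.Agent.H63.CLK
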