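import Pool.Agent.H63.CLK.F_Final
import Pool.Agent.H63.CLK.F_MainC

/-!
# Highly twisted links: the final form with the complex volume
-/

set_option autoImplicit false

namespace Pool.Agent.H63.CLK

open Complex Filter Topology
open scoped BigOperators

theorem clk_finalC (w : List TPiece) (c : ℕ) (F : Finset ℕ) (cor : Fin c → Fin 4 → ℕ)
    (hT : IsTemplate w c F cor) (hpr : ∃ v₁ v₂ : Fin c, ∀ v, IsEnd F cor v → v = v₁ ∨ v = v₂)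
    (x : Vr c → ℝ) (hx : IsMaxN F cor x) (hfar : FarOK F cor x) :
    ∃ R : ℝ, ∀ a : ℕ → ℤ, (∀ v < c, R ≤ |(a v : ℝ)|) → ∀ e : ℤ, ∃ V C : ℝ, IsVolume w a V ∧
      (∃ Z : ℂ, IsComplexVolume w a Z ∧
        ∃ k : ℤ, Z = I * (V + C * I) + k * (Real.pi : ℂ) ^ 2) ∧
      (∃ L : ℕ → ℂ, (∀ᶠ N : ℕ in atTop, exp (L N) = longJones (fill a 0 w) e N (qz N)) ∧
        Tendsto (fun N : ℕ => 2 * (Real.pi : ℂ) * L N / (N + 1)) atTop (𝓝 (V + C * I))) ∧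
      Tendsto (fun N : ℕ => 2 * (Real.pi : ℂ) *
        log (longJones (fill a 0 w) e N (qz N)) / (N + 1)) atTop (𝓝 (V : ℂ)) ∧
      ∃ κ : ℂ, κ ≠ 0 ∧ Tendsto (fun N : ℕ => longJones (fill a 0 w) e N (qz N) /
        ((((N : ℝ) + 1) ^ (3 / 2 : ℝ) : ℝ) *
          exp ((N + 1) * (V + C * I) / (2 * Real.pi)))) atTop (𝓝 κ) := by
  obtain ⟨R, hR⟩ := clk_mainC hT hpr hx hfar
  refine ⟨R, fun a ha e => ?_⟩
  obtain ⟨z, hz, ⟨Z, k, hZ, hk⟩, hlim⟩ := hR a ha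
  obtain ⟨κ, hκ, hl⟩ := hlim e
  set z' : ℂ := z - ∑ v : Fin c, Real.pi * I * a v / 4 + Real.pi * I * e with hz'
  have hsum : ∑ v : Fin c, (Real.pi : ℂ) * I * a v / 4 =
      ((∑ v : Fin c, Real.pi * (a v : ℝ) / 4 : ℝ) : ℂ) * I := by
    push_cast
    rw [Finset.sum_mul]
    refine Finset.sum_congr rfl fun v _ => ?_
    ring
  have hre : z'.re = z.re := by
    rw [hz']
    have h1 : ∀ r : ℝ, ((r : ℂ) * I).re = 0 := fun r => by simp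
    have h3 : (Real.pi : ℂ) * I * e = ((Real.pi * (e : ℝ) : ℝ) : ℂ) * I := by
      push_cast; ring
    rw [hsum, h3, Complex.add_re, Complex.sub_re, h1, h1]
    ring
  obtain ⟨h1, h2, h3⟩ := F_Final_log _ z' κ hκ hl
  rw [hre] at h1 h2 h3
  refine ⟨2 * Real.pi * z.re, 2 * Real.pi * z'.im, hz, ⟨Z, hZ, k + 2 * e, ?_⟩, h1, h2, κ, hκ, h3⟩
  have h4 : ((2 * Real.pi * z.re : ℝ) : ℂ) + ((2 * Real.pi * z'.im : ℝ) : ℂ) * I =
      2 * Real.pi * z' := by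
    rw [← hre]
    apply Complex.ext
    · simp
    · simp
  have h5 : ∑ v : Fin c, (Real.pi : ℂ) * I * a v / 4 =
      Real.pi * I / 4 * ∑ v : Fin c, ((a v : ℤ) : ℂ) := by
    rw [Finset.mul_sum]
    refine Finset.sum_congr rfl fun v _ => ?_
    ring
  rw [h4, hk, hz', h5]
  push_cast
  linear_combination ((Real.pi : ℂ) ^ 2 / 2 * ∑ v : Fin c, ((a v : ℤ) : ℂ) -
    2 * (Real.pi : ℂ) ^ 2 * e) * I_sq

end Pool.Agent.H63.CLK
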