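import Pool.Agent.H63.CLK.C_Jones
import Pool.Agent.H63.CLK.C_Crit
import Pool.Agent.H63.CLK.C_Rank
import Pool.Agent.H63.CLK.D_BdFin
import Pool.Agent.H63.CLK.D_Main

/-!
# The asymptotics of Kashaev's invariant of highly twisted links
-/

set_option autoImplicit false

namespace Pool.Agent.H63.CLK

open Pool.Agent.H63.VC hiding ext
open Pool.Agent.H63.VC3 Pool.Agent.H63.VC4 Pool.Agent.H63.VC7 Complex Filter Topology
open scoped BigOperators

variable {c d : ℕ} {F : Finset ℕ} {cor : Fin c → Fin 4 → ℕ} {x : Vr c → ℝ}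

/-- The coordinates of a small point are close to `x`. -/
theorem F_Main_par (b : Fin d → Vr c → ℤ) (x : Vr c → ℝ) (ε : ℝ) (hε : 0 < ε) :
    ∃ δ : ℝ, 0 < δ ∧ ∀ p : Ix d c → ℂ, (∀ i, ‖p i‖ ≤ δ) → ∀ j,
      ‖par b x (fun i => p (Sum.inl i)) j - x j‖ < ε := by
  set B : ℝ := ∑ j, ∑ i, |(b i j : ℝ)| with hB
  have hB0 : 0 ≤ B := Finset.sum_nonneg fun j _ => Finset.sum_nonneg fun i _ => abs_nonneg _
  refine ⟨ε / (2 * (B + 1)), by positivity, fun p hp j => ?_⟩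
  have h1 : par b x (fun i => p (Sum.inl i)) j - x j = ∑ i, (b i j : ℂ) * p (Sum.inl i) := by
    rw [par]; ring
  rw [h1]
  calc ‖∑ i, (b i j : ℂ) * p (Sum.inl i)‖ ≤ ∑ i, ‖(b i j : ℂ) * p (Sum.inl i)‖ := norm_sum_le _ _
    _ ≤ ∑ i, |(b i j : ℝ)| * (ε / (2 * (B + 1))) := by
        refine Finset.sum_le_sum fun i _ => ?_
        rw [norm_mul]
        have h2 : ‖((b i j : ℤ) : ℂ)‖ = |(b i j : ℝ)| := by
          rw [← Complex.ofReal_intCast, Complex.norm_real, Real.norm_eq_abs]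
        rw [h2]
        exact mul_le_mul_of_nonneg_left (hp _) (abs_nonneg _)
    _ = (∑ i, |(b i j : ℝ)|) * (ε / (2 * (B + 1))) := by rw [Finset.sum_mul]
    _ ≤ B * (ε / (2 * (B + 1))) := by
        apply mul_le_mul_of_nonneg_right _ (by positivity)
        rw [hB]
        exact Finset.single_le_sum (f := fun j => ∑ i, |(b i j : ℝ)|)
          (fun j _ => Finset.sum_nonneg fun i _ => abs_nonneg _) (Finset.mem_univ j)
    _ < ε := by
        rw [mul_div_assoc', div_lt_iff₀ (by positivity)]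
        nlinarith

theorem clk_main {w : List TPiece} (hT : IsTemplate w c F cor)
    (hpr : ∃ v₁ v₂ : Fin c, ∀ v, IsEnd F cor v → v = v₁ ∨ v = v₂) (h : IsMaxN F cor x)
    (hfar : FarOK F cor x) :
    ∃ R : ℝ, ∀ a : ℕ → ℤ, (∀ v < c, R ≤ |(a v : ℝ)|) → ∃ z : ℂ,
      IsVolume w a (2 * Real.pi * z.re) ∧ ∀ e : ℤ, ∃ κ : ℂ, κ ≠ 0 ∧
      Tendsto (fun N : ℕ => longJones (fill a 0 w) e N (qz N) /
        ((((N + 1 : ℕ) : ℝ) ^ (3 / 2 : ℝ) : ℝ) *
          exp (((N + 1 : ℕ) : ℂ) * (z - ∑ v : Fin c,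
            Real.pi * I * a v / 4 + Real.pi * I * e)))) atTop (𝓝 κ) := by
  obtain ⟨T, hTF, hTc, hTw, hTG, hTe, hTA⟩ := exists_tdata hT h.int hpr
  obtain ⟨d, b, x0, hb, K, hK, hR⟩ := jones_asym hT h hfar
  have hcard : F.card = c := template_card hT
  have hpow : ((c : ℝ) + d - (Nd F cor).card) / 2 = 3 / 2 := by
    have hpr' : ∃ v₁ v₂ : Fin c, ∀ v, IsEnd T.F T.cor v → v = v₁ ∨ v = v₂ := by
      rw [hTF, hTc]; exact hpr
    have h' : IsInt T.F T.cor x := by rw [hTF, hTc]; exact h.int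
    have hb' : IsBas T.F T.cor b x0 := by rw [hTF, hTc]; exact hb
    have := power_eq hTw hTG (by rw [hTF]; exact hcard) hpr' h' hb'
    rw [hTF, hTc] at this
    exact this
  obtain ⟨ε1, hε1, h1⟩ := critT_of h.int hb
  obtain ⟨ε2, hε2, h2⟩ := psi_eq (d := d) (b := b) h.int
  obtain ⟨ε3, hε3, h3⟩ := isVolume_of_crit hTw hTG hTA
  obtain ⟨ε4, hε4, h4⟩ := F_Main_par b x ε3 hε3
  obtain ⟨R, hR0, hRa⟩ := hR (min (min ε1 ε2) (min (ε3 / 2) ε4)) (by positivity)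
  refine ⟨R, fun a ha => ?_⟩
  obtain ⟨p, hp, hlim⟩ := hRa a ha
  have hs1 : min (min ε1 ε2) (min (ε3 / 2) ε4) ≤ ε1 := (min_le_left _ _).trans (min_le_left _ _)
  have hs2 : min (min ε1 ε2) (min (ε3 / 2) ε4) ≤ ε2 := (min_le_left _ _).trans (min_le_right _ _)
  have hs3 : min (min ε1 ε2) (min (ε3 / 2) ε4) ≤ ε3 / 2 :=
    (min_le_right _ _).trans (min_le_left _ _)
  have hs4 : min (min ε1 ε2) (min (ε3 / 2) ε4) ≤ ε4 := (min_le_right _ _).trans (min_le_right _ _)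
  obtain ⟨A, B, hc⟩ := h1 T hTF hTc hTe (fun v => a v) K _ p hs1 hp
  have hψ := h2 T hTF hTc hTe (fun v => a v) p (fun i => (hp.small i).trans hs2)
  have hpar := h4 p (fun i => (hp.small i).trans hs4)
  refine ⟨cval F cor b x (fun v : Fin c => a v) p, ?_, fun e => ?_⟩
  · rw [← hψ]
    refine h3 a _ _ _ A B hc (fun v => ⟨hpar _, ?_⟩) (fun v k => hpar _)
    have := (hp.small (Sum.inr v)).trans hs3
    linarith
  · obtain ⟨κ, hκ, hl⟩ := hlim e
    refine ⟨κ, hκ, ?_⟩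
    rw [hpow] at hl
    exact hl

end Pool.Agent.H63.CLK
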