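import Pool.Agent.H63.CLK.G_Crit

/-!
# The curvatures of the bipyramid

`a_j = sin (π j / N) / sin (π / N)`, `c = cos (π / N)`, `z = c^2`. Everything follows from the addition
theorems; `aj_ge`: `sin` is concave on `[0, π]` (`strictConcaveOn_sin_Icc`), and `aj_symm`.
`e1_kv` etc.: with `a = a_j`, `b = a_{j+1}`: `a^2 + b^2 = 2 c a b + 1`, so
`a^2 b^2 + (a^2 + b^2) / c^2 = (a b + 1/c)^2`.
-/

set_option autoImplicit false

namespace Pool.Agent.H63.CLK

open Pool.Agent.H63.VC hiding ext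
open Pool.Agent.H63.VC7 Real
open scoped BigOperators

variable {N j : ℕ}

private theorem x_pos (hN : 6 ≤ N) : 0 < π / N := by
  have : (0 : ℝ) < N := by exact_mod_cast (by omega : 0 < N)
  positivity

private theorem x_le (hN : 6 ≤ N) : π / N ≤ π / 6 := by
  have h6 : (6 : ℝ) ≤ N := by exact_mod_cast hN
  exact div_le_div_of_nonneg_left pi_pos.le (by norm_num) h6

private theorem sx_pos (hN : 6 ≤ N) : 0 < sin (π / N) := by
  apply sin_pos_of_pos_of_lt_pi (x_pos hN)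
  have := x_le hN
  linarith [pi_pos]

private theorem arg_eq (N j : ℕ) : π * (j : ℝ) / N = j * (π / N) := by ring

private theorem arg_le_pi (hN : 6 ≤ N) (hj : j ≤ N) : (j : ℝ) * (π / N) ≤ π := by
  have hN0 : (0 : ℝ) < N := by exact_mod_cast (by omega : 0 < N)
  have hj' : (j : ℝ) ≤ N := by exact_mod_cast hj
  rw [mul_div_assoc', div_le_iff₀ hN0]
  nlinarith [pi_pos]

theorem aj_zero : aj N 0 = 0 := by
  simp [aj]

theorem aj_one (hN : 6 ≤ N) : aj N 1 = 1 := by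
  have h := sx_pos hN
  simp only [aj, Nat.cast_one, mul_one]
  exact div_self h.ne'

theorem aj_N (hN : 6 ≤ N) : aj N N = 0 := by
  have hN0 : (N : ℝ) ≠ 0 := by exact_mod_cast (by omega : N ≠ 0)
  simp only [aj]
  rw [mul_div_assoc, div_self hN0, mul_one, sin_pi, zero_div]

theorem aj_symm (hN : 6 ≤ N) (hj : j ≤ N) : aj N (N - j) = aj N j := by
  have hN0 : (N : ℝ) ≠ 0 := by exact_mod_cast (by omega : N ≠ 0)
  simp only [aj]
  rw [Nat.cast_sub hj]
  have : π * ((N : ℝ) - j) / N = π - π * j / N := by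
    field_simp
  rw [this, sin_pi_sub]

theorem aj_pos (hN : 6 ≤ N) (hj : 0 < j) (hj' : j < N) : 0 < aj N j := by
  apply div_pos _ (sx_pos hN)
  rw [arg_eq]
  have hx := x_pos hN
  have hj0 : (0 : ℝ) < j := by exact_mod_cast hj
  apply sin_pos_of_pos_of_lt_pi (mul_pos hj0 hx)
  have hN0 : (0 : ℝ) < N := by exact_mod_cast (by omega : 0 < N)
  have hjN : (j : ℝ) < N := by exact_mod_cast hj'
  rw [mul_div_assoc', div_lt_iff₀ hN0]
  nlinarith [pi_pos]

private theorem aj_nonneg (hN : 6 ≤ N) (hj' : j ≤ N) : 0 ≤ aj N j := by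
  rcases Nat.eq_zero_or_pos j with h | h
  · rw [h, aj_zero]
  · rcases Nat.lt_or_ge j N with h2 | h2
    · exact (aj_pos hN h h2).le
    · rw [le_antisymm hj' h2, aj_N hN]

theorem aj_add (j : ℕ) : aj N j + aj N (j + 2) = 2 * cN N * aj N (j + 1) := by
  simp only [aj, cN]
  have h1 : π * ((j + 2 : ℕ) : ℝ) / N = π * ((j + 1 : ℕ) : ℝ) / N + π / N := by
    push_cast; ring
  have h2 : π * (j : ℝ) / N = π * ((j + 1 : ℕ) : ℝ) / N - π / N := by
    push_cast; ring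
  rw [h1, h2, sin_add, sin_sub]
  ring

theorem aj_mul (hN : 6 ≤ N) (j : ℕ) : aj N j * aj N (j + 2) = aj N (j + 1) ^ 2 - 1 := by
  have hs := (sx_pos hN).ne'
  simp only [aj]
  have h1 : π * ((j + 2 : ℕ) : ℝ) / N = π * ((j + 1 : ℕ) : ℝ) / N + π / N := by
    push_cast; ring
  have h2 : π * (j : ℝ) / N = π * ((j + 1 : ℕ) : ℝ) / N - π / N := by
    push_cast; ring
  rw [h1, h2, sin_add, sin_sub]
  set A := π * ((j + 1 : ℕ) : ℝ) / N
  have hA := sin_sq_add_cos_sq A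
  have hx := sin_sq_add_cos_sq (π / N)
  field_simp
  have h3 : cos A ^ 2 = 1 - sin A ^ 2 := by linarith
  have h4 : cos (π / N) ^ 2 = 1 - sin (π / N) ^ 2 := by linarith
  linear_combination (sin A ^ 2) * h4 - (sin (π / N) ^ 2) * h3

theorem aj_sq (hN : 6 ≤ N) (j : ℕ) :
    aj N j ^ 2 + aj N (j + 1) ^ 2 = 2 * cN N * (aj N j * aj N (j + 1)) + 1 := by
  have h1 := aj_add (N := N) j
  have h2 := aj_mul hN j
  linear_combination (-(aj N j)) * h1 * (-1) - h2

theorem aj_two (hN : 6 ≤ N) : aj N 2 = 2 * cN N := by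
  have h := aj_add (N := N) 0
  rw [aj_zero] at h
  simp only [zero_add] at h
  rw [aj_one hN] at h
  linarith

theorem aj_three (hN : 6 ≤ N) : aj N 3 = 4 * cN N ^ 2 - 1 := by
  have h := aj_add (N := N) 1
  have h2 := aj_two hN
  have h3 := aj_one hN
  norm_num at h
  rw [h2, h3] at h
  linarith

theorem cN_pos (hN : 6 ≤ N) : 0 < cN N := by
  apply cos_pos_of_mem_Ioo
  have h1 := x_pos hN
  have h2 := x_le hN
  constructor <;> linarith [pi_pos]

theorem cN_sq (hN : 6 ≤ N) : 3 / 4 ≤ cN N ^ 2 ∧ cN N ^ 2 < 1 := by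
  have h1 := x_pos hN
  have h2 := x_le hN
  have h3 : cos (π / 6) ≤ cN N :=
    cos_le_cos_of_nonneg_of_le_pi h1.le (by linarith [pi_pos]) h2
  rw [cos_pi_div_six] at h3
  have h4 : (0 : ℝ) ≤ √3 / 2 := by positivity
  have h5 : (√3 / 2) ^ 2 = 3 / 4 := by
    rw [div_pow, sq_sqrt (by norm_num)]; norm_num
  constructor
  · rw [← h5]
    exact pow_le_pow_left₀ h4 h3 2
  · have hs := sx_pos hN
    have := sin_sq_add_cos_sq (π / N)
    simp only [cN]
    nlinarith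

private theorem cN_le_one : cN N ≤ 1 := cos_le_one _

/-- `sin` is concave. -/
private theorem sin_conc {x : ℝ} {j : ℕ} (hx : 0 ≤ x) (h : ((j : ℝ) + 1) * x ≤ π) :
    (j : ℝ) * sin (((j : ℝ) + 1) * x) ≤ ((j : ℝ) + 1) * sin ((j : ℝ) * x) := by
  have hc := strictConcaveOn_sin_Icc.concaveOn
  have hj : (0 : ℝ) ≤ j := Nat.cast_nonneg j
  have m0 : (0 : ℝ) ∈ Set.Icc 0 π := ⟨le_refl 0, pi_pos.le⟩
  have m1 : ((j : ℝ) + 1) * x ∈ Set.Icc 0 π := ⟨by positivity, h⟩
  have ha : (0 : ℝ) ≤ 1 / ((j : ℝ) + 1) := by positivity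
  have hb : (0 : ℝ) ≤ (j : ℝ) / ((j : ℝ) + 1) := by positivity
  have hab : 1 / ((j : ℝ) + 1) + (j : ℝ) / ((j : ℝ) + 1) = 1 := by field_simp; ring
  have h1 := hc.2 m0 m1 ha hb hab
  simp only [smul_eq_mul, sin_zero, mul_zero, zero_add] at h1
  have h2 : (j : ℝ) / ((j : ℝ) + 1) * (((j : ℝ) + 1) * x) = j * x := by
    field_simp
  rw [h2, div_mul_eq_mul_div, div_le_iff₀ (by positivity)] at h1
  linarith

/-- The bound for the generic vertices. -/
theorem aj_ge (hN : 6 ≤ N) {m : ℕ} (hm : 1 ≤ m) (hj : m ≤ j) (hj' : j + 1 ≤ N) :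
    (m : ℝ) / (m + 1) * aj N (j + 1) ≤ aj N j := by
  have hs := sx_pos hN
  have hx := x_pos hN
  have h0 : 0 ≤ aj N (j + 1) := aj_nonneg hN hj'
  have hle : ((j : ℝ) + 1) * (π / N) ≤ π := by
    have := arg_le_pi hN hj'
    push_cast at this
    exact this
  have h1 := sin_conc hx.le hle
  have h2 : (j : ℝ) * aj N (j + 1) ≤ ((j : ℝ) + 1) * aj N j := by
    simp only [aj]
    rw [arg_eq, arg_eq, Nat.cast_add, Nat.cast_one]
    have e1 : (j : ℝ) * (sin (((j : ℝ) + 1) * (π / N)) / sin (π / N)) =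
        ((j : ℝ) * sin (((j : ℝ) + 1) * (π / N))) / sin (π / N) := by ring
    have e2 : ((j : ℝ) + 1) * (sin ((j : ℝ) * (π / N)) / sin (π / N)) =
        (((j : ℝ) + 1) * sin ((j : ℝ) * (π / N))) / sin (π / N) := by ring
    rw [e1, e2]
    exact div_le_div_of_nonneg_right h1 hs.le
  have hm0 : (1 : ℝ) ≤ m := by exact_mod_cast hm
  have hmj : (m : ℝ) ≤ j := by exact_mod_cast hj
  rw [div_mul_eq_mul_div, div_le_iff₀ (by positivity)]
  have h3 : (m : ℝ) * ((j : ℝ) + 1) ≤ (m + 1) * j := by nlinarith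
  have hj1 : (0 : ℝ) < (j : ℝ) + 1 := by positivity
  have h4 : ((m : ℝ) * aj N (j + 1)) * ((j : ℝ) + 1) ≤ (aj N j * (m + 1)) * ((j : ℝ) + 1) := by
    calc ((m : ℝ) * aj N (j + 1)) * ((j : ℝ) + 1)
        = (m * ((j : ℝ) + 1)) * aj N (j + 1) := by ring
      _ ≤ ((m + 1) * j) * aj N (j + 1) := mul_le_mul_of_nonneg_right h3 h0
      _ = (m + 1) * (j * aj N (j + 1)) := by ring
      _ ≤ (m + 1) * (((j : ℝ) + 1) * aj N j) := mul_le_mul_of_nonneg_left h2 (by positivity)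
      _ = (aj N j * (m + 1)) * ((j : ℝ) + 1) := by ring
  exact le_of_mul_le_mul_right h4 hj1

theorem aj_ge' (hN : 6 ≤ N) {m : ℕ} (hm : 1 ≤ m) (hj : j + 1 + m ≤ N) :
    (m : ℝ) / (m + 1) * aj N j ≤ aj N (j + 1) := by
  have h := aj_ge hN (j := N - (j + 1)) hm (by omega) (by omega)
  have h1 : N - (j + 1) + 1 = N - j := by omega
  rw [h1, aj_symm hN (by omega : j ≤ N), aj_symm hN (by omega : j + 1 ≤ N)] at h
  exact h

/-- One of the neighbours is smaller. -/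
theorem aj_or (hN : 6 ≤ N) (hj : j + 1 ≤ N) : aj N j ≤ aj N (j + 1) ∨ aj N (j + 2) ≤ aj N (j + 1) := by
  by_contra hcon
  push Not at hcon
  have h1 := aj_add (N := N) j
  have h2 := aj_nonneg hN hj
  have h3 : cN N ≤ 1 := cN_le_one
  nlinarith [hcon.1, hcon.2]

/-- The bound for the generic odd vertices: `1 / (c^2 a_j^2) ≤ 0.172`. -/
theorem aj_big (hN : 8 ≤ N) (hj : 4 ≤ j) (hj' : j + 4 ≤ N) :
    1 ≤ 0.172 * (cN N ^ 2 * aj N j ^ 2) := by
  have hN6 : 6 ≤ N := by omega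
  have hs := sx_pos hN6
  have hx := x_pos hN6
  have hN0 : (0 : ℝ) < N := by exact_mod_cast (by omega : 0 < N)
  -- the comparison with `a_4`
  have h4 : aj N 4 ≤ aj N j := by
    simp only [aj]
    apply div_le_div_of_nonneg_right _ hs.le
    rw [arg_eq, arg_eq]
    have h1 : sin ((j : ℝ) * (π / N)) - sin (((4 : ℕ) : ℝ) * (π / N)) =
        2 * sin (((j : ℝ) * (π / N) - ((4 : ℕ) : ℝ) * (π / N)) / 2) *
          cos (((j : ℝ) * (π / N) + ((4 : ℕ) : ℝ) * (π / N)) / 2) := sin_sub_sin _ _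
    have hj4 : (4 : ℝ) ≤ j := by exact_mod_cast hj
    have hjN : (j : ℝ) + 4 ≤ N := by exact_mod_cast hj'
    have hsum : ((j : ℝ) + 4) * (π / N) ≤ π := by
      rw [mul_div_assoc', div_le_iff₀ hN0]
      nlinarith [pi_pos]
    have h2 : 0 ≤ sin (((j : ℝ) * (π / N) - ((4 : ℕ) : ℝ) * (π / N)) / 2) := by
      apply sin_nonneg_of_nonneg_of_le_pi
      · push_cast; nlinarith
      · push_cast; nlinarith [pi_pos]
    have h3 : 0 ≤ cos (((j : ℝ) * (π / N) + ((4 : ℕ) : ℝ) * (π / N)) / 2) := by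
      apply cos_nonneg_of_mem_Icc
      constructor
      · push_cast; nlinarith [pi_pos]
      · push_cast; nlinarith
    nlinarith [mul_nonneg h2 h3]
  have ha4 : aj N 4 = 4 * cN N * (2 * cN N ^ 2 - 1) := by
    have h := aj_add (N := N) 2
    have h2 := aj_two hN6
    have h3 := aj_three hN6
    norm_num at h
    rw [h2, h3] at h
    linarith
  -- `c^2 ≥ (2 + √2) / 4`
  have hc : (2 + √2) / 4 ≤ cN N ^ 2 := by
    have h8 : (8 : ℝ) ≤ N := by exact_mod_cast hN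
    have hx8 : π / N ≤ π / 8 := div_le_div_of_nonneg_left pi_pos.le (by norm_num) h8
    have h1 : cos (2 * (π / 8)) ≤ cos (2 * (π / N)) :=
      cos_le_cos_of_nonneg_of_le_pi (by linarith) (by linarith [pi_pos]) (by linarith)
    have h2 : 2 * (π / 8) = π / 4 := by ring
    rw [h2, cos_pi_div_four, cos_two_mul] at h1
    simp only [cN]
    linarith
  have h2 : (1.4142 : ℝ) ≤ √2 := by
    apply le_sqrt_of_sq_le; norm_num
  have hz : (0.85355 : ℝ) ≤ cN N ^ 2 := by linarith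
  have hcp := cN_pos hN6
  have h4p : 0 < aj N 4 := aj_pos hN6 (by norm_num) (by omega)
  have h5 : aj N 4 ^ 2 ≤ aj N j ^ 2 := pow_le_pow_left₀ h4p.le h4 2
  have h6 : cN N ^ 2 * aj N 4 ^ 2 ≤ cN N ^ 2 * aj N j ^ 2 :=
    mul_le_mul_of_nonneg_left h5 (by positivity)
  have h7 : cN N ^ 2 * aj N 4 ^ 2 = 16 * (cN N ^ 2) ^ 2 * (2 * cN N ^ 2 - 1) ^ 2 := by
    rw [ha4]; ring
  have h8 : (5.82 : ℝ) ≤ 16 * (cN N ^ 2) ^ 2 * (2 * cN N ^ 2 - 1) ^ 2 := by
    have h9 : (0.85355 : ℝ) ^ 2 ≤ (cN N ^ 2) ^ 2 := pow_le_pow_left₀ (by norm_num) hz 2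
    have h10 : (0.7071 : ℝ) ^ 2 ≤ (2 * cN N ^ 2 - 1) ^ 2 :=
      pow_le_pow_left₀ (by norm_num) (by linarith) 2
    have h11 : (0.85355 : ℝ) ^ 2 * (0.7071 : ℝ) ^ 2 ≤ (cN N ^ 2) ^ 2 * (2 * cN N ^ 2 - 1) ^ 2 :=
      mul_le_mul h9 h10 (by norm_num) (by positivity)
    have h12 : (5.82 : ℝ) ≤ 16 * ((0.85355 : ℝ) ^ 2 * (0.7071 : ℝ) ^ 2) := by norm_num
    nlinarith
  nlinarith

/-! ## The curvatures at the vertices -/

private theorem kap_gf (hN : 6 ≤ N) {i : ℕ} (hi : i ≤ N + 1) : kapG N (gf N i) = aj N i ^ 2 := by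
  unfold gf
  by_cases h0 : i = 0
  · subst h0
    simp [kapG, aj_zero]
  rw [if_neg h0]
  by_cases h1 : i = 1
  · subst h1
    simp [kapG, aj_one hN]
  rw [if_neg h1]
  by_cases h2 : i < N
  · rw [if_pos h2]
    unfold kapG
    rw [if_neg (by omega), if_neg (by omega), if_neg (by omega)]
    rfl
  rw [if_neg h2]
  by_cases h3 : i = N
  · subst h3
    simp [kapG, aj_N hN]
  · rw [if_neg h3]
    have hi' : i = N + 1 := by omega
    subst hi'
    have hN0 : (N : ℝ) ≠ 0 := by exact_mod_cast (by omega : N ≠ 0)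
    have hs := (sx_pos hN).ne'
    have h4 : aj N (N + 1) = -1 := by
      simp only [aj]
      have : π * ((N + 1 : ℕ) : ℝ) / N = π / N + π := by
        push_cast; field_simp; ring
      rw [this, sin_add_pi]
      field_simp
    rw [h4]
    simp [kapG]

theorem kv_even (hN : 6 ≤ N) (he : Even N) (hj : j % 2 = 0) (hj' : j < N) :
    kv N j = ![aj N (j + 2) ^ 2, aj N (j + 1) ^ 2, aj N j ^ 2, 0] := by
  funext k
  unfold kv corN
  rw [if_pos hj]
  fin_cases k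
  · exact kap_gf hN (i := j + 2) (by omega)
  · exact kap_gf hN (i := j + 1) (by omega)
  · exact kap_gf hN (i := j) (by omega)
  · simp [kapG]

theorem kv_odd (hN : 6 ≤ N) (he : Even N) (hj : j % 2 = 1) (hj' : j + 1 < N) :
    kv N j = ![aj N (j + 2) ^ 2, 1 / cN N ^ 2, aj N j ^ 2, aj N (j + 1) ^ 2] := by
  funext k
  unfold kv corN
  rw [if_neg (by omega)]
  fin_cases k
  · exact kap_gf hN (i := j + 2) (by omega)
  · simp [kapG]
  · exact kap_gf hN (i := j) (by omega)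
  · exact kap_gf hN (i := j + 1) (by omega)

theorem kv_last (hN : 6 ≤ N) (he : Even N) :
    kv N (N - 1) = ![1, 1 / cN N ^ 2, 1, 0] := by
  have hpar : (N - 1) % 2 = 1 := by
    obtain ⟨r, hr⟩ := he
    omega
  funext k
  unfold kv corN
  rw [if_neg (by omega)]
  have e1 : N - 1 + 2 = N + 1 := by omega
  have e2 : N - 1 + 1 = N := by omega
  fin_cases k
  · have : gf N (N - 1 + 2) = 2 := by
      rw [e1]; unfold gf
      rw [if_neg (by omega), if_neg (by omega), if_neg (by omega), if_neg (by omega)]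
    simp [this, kapG]
  · simp [kapG]
  · have h1 := kap_gf hN (i := N - 1) (by omega)
    have h2 : aj N (N - 1) = 1 := by rw [aj_symm hN (by omega), aj_one hN]
    rw [h2] at h1
    simpa using h1
  · have h1 := kap_gf hN (i := N - 1 + 1) (by omega)
    rw [e2, aj_N hN] at h1
    simpa [e2] using h1

theorem e1_even (hN : 6 ≤ N) (he : Even N) (hj : j % 2 = 0) (h0 : 0 < j) (hj' : j + 2 < N) :
    e1 (kv N j) = aj N (j + 2) * aj N (j + 1) ∧ e2 (kv N j) = aj N j * aj N (j + 1) := by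
  rw [kv_even hN he hj (by omega)]
  have ha := aj_nonneg hN (by omega : j ≤ N)
  have hb := aj_nonneg hN (by omega : j + 1 ≤ N)
  have hc := aj_nonneg hN (by omega : j + 2 ≤ N)
  constructor
  · have h1 : (aj N (j + 2) ^ 2) * (aj N (j + 1) ^ 2) + (aj N (j + 1) ^ 2) * 0 +
        0 * (aj N (j + 2) ^ 2) = (aj N (j + 2) * aj N (j + 1)) ^ 2 := by ring
    show √((aj N (j + 2) ^ 2) * (aj N (j + 1) ^ 2) + (aj N (j + 1) ^ 2) * 0 +
        0 * (aj N (j + 2) ^ 2)) = _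
    rw [h1, sqrt_sq (mul_nonneg hc hb)]
  · have h1 : (aj N j ^ 2) * (aj N (j + 1) ^ 2) + (aj N (j + 1) ^ 2) * 0 +
        0 * (aj N j ^ 2) = (aj N j * aj N (j + 1)) ^ 2 := by ring
    show √((aj N j ^ 2) * (aj N (j + 1) ^ 2) + (aj N (j + 1) ^ 2) * 0 +
        0 * (aj N j ^ 2)) = _
    rw [h1, sqrt_sq (mul_nonneg ha hb)]

theorem e1_odd (hN : 6 ≤ N) (he : Even N) (hj : j % 2 = 1) (hj' : j + 1 < N) :
    e1 (kv N j) = aj N (j + 2) * aj N (j + 1) + 1 / cN N ∧
      e2 (kv N j) = aj N j * aj N (j + 1) + 1 / cN N := by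
  rw [kv_odd hN he hj hj']
  have ha := aj_nonneg hN (by omega : j ≤ N)
  have hb := aj_nonneg hN (by omega : j + 1 ≤ N)
  have hc := aj_nonneg hN (by omega : j + 2 ≤ N)
  have hcp := cN_pos hN
  have s1 := aj_sq hN j
  have s2 := aj_sq hN (j + 1)
  constructor
  · have h1 : (aj N (j + 2) ^ 2) * (1 / cN N ^ 2) + (1 / cN N ^ 2) * (aj N (j + 1) ^ 2) +
        (aj N (j + 1) ^ 2) * (aj N (j + 2) ^ 2) =
        (aj N (j + 2) * aj N (j + 1) + 1 / cN N) ^ 2 := by
      have s3 : aj N (j + 1) ^ 2 + aj N (j + 2) ^ 2 =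
          2 * cN N * (aj N (j + 1) * aj N (j + 2)) + 1 := s2
      have hcz := hcp.ne'
      field_simp
      linear_combination s3
    show √((aj N (j + 2) ^ 2) * (1 / cN N ^ 2) + (1 / cN N ^ 2) * (aj N (j + 1) ^ 2) +
        (aj N (j + 1) ^ 2) * (aj N (j + 2) ^ 2)) = _
    rw [h1, sqrt_sq (by positivity)]
  · have h1 : (aj N j ^ 2) * (1 / cN N ^ 2) + (1 / cN N ^ 2) * (aj N (j + 1) ^ 2) +
        (aj N (j + 1) ^ 2) * (aj N j ^ 2) =
        (aj N j * aj N (j + 1) + 1 / cN N) ^ 2 := by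
      have hcz := hcp.ne'
      field_simp
      linear_combination s1
    show √((aj N j ^ 2) * (1 / cN N ^ 2) + (1 / cN N ^ 2) * (aj N (j + 1) ^ 2) +
        (aj N (j + 1) ^ 2) * (aj N j ^ 2)) = _
    rw [h1, sqrt_sq (by positivity)]

theorem e1_last (hN : 6 ≤ N) (he : Even N) :
    e1 (kv N (N - 1)) = 1 / cN N ∧ e2 (kv N (N - 1)) = 1 / cN N := by
  rw [kv_last hN he]
  have hcp := cN_pos hN
  have h1 : (1 : ℝ) * (1 / cN N ^ 2) + (1 / cN N ^ 2) * 0 + 0 * 1 = (1 / cN N) ^ 2 := by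
    rw [one_div_pow]; ring
  constructor
  · show √((1 : ℝ) * (1 / cN N ^ 2) + (1 / cN N ^ 2) * 0 + 0 * 1) = _
    rw [h1, sqrt_sq (by positivity)]
  · show √((1 : ℝ) * (1 / cN N ^ 2) + (1 / cN N ^ 2) * 0 + 0 * 1) = _
    rw [h1, sqrt_sq (by positivity)]

/-- The angle `a` is the same at all vertices. -/
theorem ast_kv (hN : 6 ≤ N) (he : Even N) (h0 : 0 < j) (hj : j < N) (hj' : j + 2 ≠ N) :
    ast (kv N j) = arctan (2 * cN N) := by
  have hcp := cN_pos hN
  have hcz := hcp.ne'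
  obtain ⟨r, hr⟩ := he
  have he : Even N := ⟨r, hr⟩
  unfold ast
  congr 1
  rcases Nat.mod_two_eq_zero_or_one j with hp | hp
  · have h2 : j + 2 < N := by omega
    obtain ⟨ea, eb⟩ := e1_even hN he hp h0 h2
    rw [ea, eb, kv_even hN he hp hj]
    have hb := (aj_pos hN (by omega : 0 < j + 1) (by omega : j + 1 < N)).ne'
    have hadd := aj_add (N := N) j
    show (aj N (j + 2) * aj N (j + 1) + aj N j * aj N (j + 1)) / (aj N (j + 1) ^ 2 + 0) = _
    rw [add_zero, div_eq_iff (pow_ne_zero 2 hb)]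
    linear_combination (aj N (j + 1)) * hadd
  · by_cases hl : j + 1 = N
    · have hjl : j = N - 1 := by omega
      obtain ⟨ea, eb⟩ := e1_last hN he
      rw [hjl, ea, eb, kv_last hN he]
      show (1 / cN N + 1 / cN N) / (1 / cN N ^ 2 + 0) = _
      rw [add_zero]
      field_simp
      ring
    · have h1 : j + 1 < N := by omega
      obtain ⟨ea, eb⟩ := e1_odd hN he hp h1
      rw [ea, eb, kv_odd hN he hp h1]
      have hadd := aj_add (N := N) j
      show (aj N (j + 2) * aj N (j + 1) + 1 / cN N + (aj N j * aj N (j + 1) + 1 / cN N)) /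
        (1 / cN N ^ 2 + aj N (j + 1) ^ 2) = _
      have hpos : 0 < 1 / cN N ^ 2 + aj N (j + 1) ^ 2 := by positivity
      rw [div_eq_iff hpos.ne']
      have h3 : (2 * cN N) * (1 / cN N ^ 2 + aj N (j + 1) ^ 2) =
          2 * cN N * aj N (j + 1) ^ 2 + 2 * (1 / cN N) := by
        field_simp
        ring
      rw [h3]
      linear_combination (aj N (j + 1)) * hadd

end Pool.Agent.H63.CLK
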