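import Pool.Agent.H63.CLK.G_Vert

/-!
# The strict maximum for the closed 3-braids
-/

set_option autoImplicit false

namespace Pool.Agent.H63.CLK

open Pool.Agent.H63.VC hiding ext
open Pool.Agent.H63.VC7 Real
open scoped BigOperators

variable {n : ℕ}

private theorem G_Asm_one {N m : ℕ} (hm : m < N) (X : ℝ) (p : ℕ → Prop) [DecidablePred p]
    (hp : ∀ v, v < N → (p v ↔ v = m)) : ∑ v : Fin N, (if p v then X else 0) = X := by
  rw [Finset.sum_eq_single (⟨m, hm⟩ : Fin N)]
  · rw [if_pos ((hp m hm).2 rfl)]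
  · intro b _ hb
    rw [if_neg]
    intro h
    exact hb (Fin.ext ((hp b b.2).1 h))
  · simp

open Classical in
/-- The sum of the losses. -/
theorem G_Asm_dlt (hn : 3 ≤ n) (L R : Prop) :
    ∑ v : Fin (2 * n), dlt (2 * n) L R v =
      ((if L then 1 else 0) + (if R then 1 else 0)) *
        (2 * π * log 2 - PhE (4 * cN (2 * n) ^ 2) 1 - π / 2 * log (cN (2 * n) ^ 2) +
          2 * π / 3 * log 2) := by
  have e0 := G_Asm_one (N := 2 * n) (m := 0) (by omega)
    (2 * π * log 2 - PhE (4 * cN (2 * n) ^ 2) 1) (fun v => v = 0) (fun v hv => by omega)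
  have e1 := G_Asm_one (N := 2 * n) (m := 1) (by omega)
    (-(π / 2 * log (cN (2 * n) ^ 2))) (fun v => v = 1) (fun v hv => by omega)
  have e2 := G_Asm_one (N := 2 * n) (m := 2 * n - 1) (by omega)
    (2 * π / 3 * log 2) (fun v => v + 1 = 2 * n) (fun v hv => by omega)
  have e3 := G_Asm_one (N := 2 * n) (m := 2 * n - 2) (by omega)
    (2 * π * log 2 - PhE (4 * cN (2 * n) ^ 2) 1) (fun v => v + 2 = 2 * n) (fun v hv => by omega)
  have e4 := G_Asm_one (N := 2 * n) (m := 2 * n - 3) (by omega)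
    (-(π / 2 * log (cN (2 * n) ^ 2))) (fun v => v + 3 = 2 * n) (fun v hv => by omega)
  have e5 : ∑ v : Fin (2 * n), dlt (2 * n) L R v =
      (if L then (∑ v : Fin (2 * n), (if (v : ℕ) = 0 then
          2 * π * log 2 - PhE (4 * cN (2 * n) ^ 2) 1 else 0)) +
        (∑ v : Fin (2 * n), (if (v : ℕ) = 1 then -(π / 2 * log (cN (2 * n) ^ 2)) else 0)) +
        (∑ v : Fin (2 * n), (if (v : ℕ) + 1 = 2 * n then 2 * π / 3 * log 2 else 0)) else 0) +
      (if R then (∑ v : Fin (2 * n), (if (v : ℕ) + 2 = 2 * n then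
          2 * π * log 2 - PhE (4 * cN (2 * n) ^ 2) 1 else 0)) +
        (∑ v : Fin (2 * n), (if (v : ℕ) + 3 = 2 * n then -(π / 2 * log (cN (2 * n) ^ 2)) else 0)) +
        (∑ v : Fin (2 * n), (if (v : ℕ) + 1 = 2 * n then 2 * π / 3 * log 2 else 0)) else 0) := by
    by_cases hL : L <;> by_cases hR : R <;>
      simp only [dlt, hL, hR, if_true, if_false, Finset.sum_add_distrib, Finset.sum_const_zero,
        add_zero, zero_add]
  rw [e5, e0, e1, e2, e3, e4]
  by_cases hL : L <;> by_cases hR : R <;> simp only [hL, hR, if_true, if_false] <;> ring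

open Classical in
/-- The sum of the logarithms of the modified curvatures. -/
theorem G_Asm_kap (hn : 3 ≤ n) (L R : Prop) :
    ∑ f ∈ FB n, log (kapM (2 * n) L R f) = ∑ f ∈ FB n, log (kapG (2 * n) f) -
      ((if L then 1 else 0) + (if R then 1 else 0)) * log (cN (2 * n) ^ 2) := by
  have hN : 6 ≤ 2 * n := by omega
  have hc := cN_pos hN
  have k2 : kapG (2 * n) 2 = 1 := by simp [kapG]
  have k4 : kapG (2 * n) 4 = 4 * cN (2 * n) ^ 2 := by
    simp only [kapG, show ¬ (4 : ℕ) ≤ 1 by norm_num, show ¬ (4 : ℕ) = 2 by norm_num,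
      show ¬ (4 : ℕ) = 3 by norm_num, if_false, show 4 - 2 = 2 by norm_num, aj_two hN]
    ring
  have kN : kapG (2 * n) (2 * n) = 4 * cN (2 * n) ^ 2 := by
    have h1 : ¬ (2 * n ≤ 1) := by omega
    have h2 : ¬ (2 * n = 2) := by omega
    have h3 : ¬ (2 * n = 3) := by omega
    simp only [kapG, h1, h2, h3, if_false]
    rw [aj_symm hN (by omega), aj_two hN]
    ring
  have kN1 : kapG (2 * n) (2 * n + 1) = 1 := by
    have h1 : ¬ (2 * n + 1 ≤ 1) := by omega
    have h2 : ¬ (2 * n + 1 = 2) := by omega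
    have h3 : ¬ (2 * n + 1 = 3) := by omega
    simp only [kapG, h1, h2, h3, if_false]
    rw [show 2 * n + 1 - 2 = 2 * n - 1 by omega, aj_symm hN (by omega), aj_one hN]
    ring
  have hlog : log (4 * cN (2 * n) ^ 2) = 2 * log 2 + log (cN (2 * n) ^ 2) := by
    rw [log_mul (by norm_num) (by positivity), show (4 : ℝ) = 2 ^ 2 by norm_num, log_pow]
    push_cast
    ring
  have hdiff : ∑ f ∈ FB n, (log (kapM (2 * n) L R f) - log (kapG (2 * n) f)) =
      ∑ f ∈ ({2, 4, 2 * n, 2 * n + 1} : Finset ℕ),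
        (log (kapM (2 * n) L R f) - log (kapG (2 * n) f)) := by
    symm
    apply Finset.sum_subset
    · intro f hf
      simp only [Finset.mem_insert, Finset.mem_singleton] at hf
      rw [FB, Finset.mem_Icc]
      omega
    · intro f _ hf
      simp only [Finset.mem_insert, Finset.mem_singleton, not_or] at hf
      have : kapM (2 * n) L R f = kapG (2 * n) f := by
        rw [kapM, if_neg (by tauto), if_neg (by tauto)]
      rw [this, sub_self]
  have hval : ∑ f ∈ ({2, 4, 2 * n, 2 * n + 1} : Finset ℕ),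
      (log (kapM (2 * n) L R f) - log (kapG (2 * n) f)) =
      -(((if L then 1 else 0) + (if R then 1 else 0)) * log (cN (2 * n) ^ 2)) := by
    rw [Finset.sum_insert (by simp; omega), Finset.sum_insert (by simp; omega),
      Finset.sum_insert (by simp), Finset.sum_singleton, k2, k4, kN, kN1, hlog]
    have m1 : (2 : ℕ) ≠ 2 * n := by omega
    have m2 : (2 : ℕ) ≠ 2 * n + 1 := by omega
    have m3 : (4 : ℕ) ≠ 2 * n := by omega
    have m4 : (4 : ℕ) ≠ 2 * n + 1 := by omega
    have m5 : 2 * n ≠ 2 := by omega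
    have m6 : 2 * n ≠ 4 := by omega
    have m7 : 2 * n + 1 ≠ 2 := by omega
    have m8 : 2 * n + 1 ≠ 4 := by omega
    by_cases hL : L <;> by_cases hR : R <;>
      simp [kapM, hL, hR, m1, m2, m3, m4, m5, m6, m7, m8, k2, k4, kN, kN1, hlog] <;> ring
  rw [Finset.sum_sub_distrib, hval] at hdiff
  linarith

/-- The loss is negative. -/
theorem G_Asm_neg (hn : 3 ≤ n) :
    2 * π * log 2 - PhE (4 * cN (2 * n) ^ 2) 1 - π / 2 * log (cN (2 * n) ^ 2) +
      2 * π / 3 * log 2 + 2 * π * log (cN (2 * n) ^ 2) < 0 := by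
  have hN : 6 ≤ 2 * n := by omega
  have hc := cN_pos hN
  have hz := cN_sq hN
  have h1 := PhE_ge (κt := 4 * cN (2 * n) ^ 2) (κs := 1) (by positivity) one_pos
  have hlog : log (4 * cN (2 * n) ^ 2) = 2 * log 2 + log (cN (2 * n) ^ 2) := by
    rw [log_mul (by norm_num) (by positivity), show (4 : ℝ) = 2 ^ 2 by norm_num, log_pow]
    push_cast
    ring
  rw [hlog, log_one, mul_zero, add_zero] at h1
  have h2 : log (cN (2 * n) ^ 2) ≤ 0 := log_nonpos (by positivity) hz.2.le
  have h3 := lob30.1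
  have h4 := lob60.1
  have h5 := log_two_lt_d9
  have h6 := log_two_gt_d9
  have h7 := pi_lt_d4
  have h8 := pi_gt_d4
  have h9 : π * log 2 ≤ 3.1416 * 0.6931471808 := by
    apply mul_le_mul h7.le h5.le (by positivity) (by norm_num)
  have h10 : π * log (cN (2 * n) ^ 2) ≤ 0 := by nlinarith
  nlinarith

theorem G_Asm_kapM_false (N f : ℕ) {L R : Prop} [Decidable L] [Decidable R] (hL : ¬ L)
    (hR : ¬ R) : kapM N L R f = kapG N f := by
  simp [kapM, hL, hR]

theorem G_Asm_dlt_false (N v : ℕ) {L R : Prop} [Decidable L] [Decidable R] (hL : ¬ L)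
    (hR : ¬ R) : dlt N L R v = 0 := by
  simp [dlt, hL, hR]

open Classical in
/-- **The strict maximum of the volume function for the closed 3-braids.** -/
theorem isMaxA_B (hn : 3 ≤ n) : IsMaxA (FB n) (corB n) (xB n) := by
  have hI := isInt_xB hn
  refine ⟨hI, fun y hy hne => ?_⟩
  have hx : volF (xB n) + 2 * π * ∑ f ∈ FB n, log (kapG (2 * n) f) =
      ∑ v : Fin (2 * n), PhB (2 * n) v := by
    rw [volF_Wv, ← lin_sum hI.ang (kapG (2 * n)), ← Finset.sum_add_distrib]
    exact Finset.sum_congr rfl fun v _ => vert_xB hn v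
  set L : Prop := π / 2 < ya y ⟨0, by omega⟩ with hL
  set R : Prop := π / 2 < ya y ⟨2 * n - 2, by omega⟩ with hR
  have hy1 : volF y + 2 * π * ∑ f ∈ FB n, log (kapM (2 * n) L R f) =
      ∑ v : Fin (2 * n), (Wv (ya y v) (ys y v) +
        linG (fun k => kapM (2 * n) L R (corB n v k)) (ys y v)) := by
    rw [volF_Wv, ← lin_sum hy (kapM (2 * n) L R), ← Finset.sum_add_distrib]
  have hv : ∀ v : Fin (2 * n), Wv (ya y v) (ys y v) +
      linG (fun k => kapM (2 * n) L R (corB n v k)) (ys y v) ≤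
      PhB (2 * n) v + dlt (2 * n) L R v := fun v => vert_le hn hy v
  have hs := Finset.sum_le_sum fun v (_ : v ∈ Finset.univ) => hv v
  rw [← hy1, Finset.sum_add_distrib, G_Asm_dlt hn, G_Asm_kap hn, ← hx] at hs
  have hneg := G_Asm_neg hn
  by_cases hLR : L ∨ R
  · have h1 : (0 : ℝ) < (if L then (1 : ℝ) else 0) + (if R then (1 : ℝ) else 0) := by
      rcases hLR with h | h
      · rw [if_pos h]
        split_ifs <;> norm_num
      · rw [if_pos h]
        split_ifs <;> norm_num
    nlinarith [mul_neg_of_pos_of_neg h1 hneg]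
  · push Not at hLR
    have hL' : ¬ L := hLR.1
    have hR' : ¬ R := hLR.2
    rw [if_neg hL', if_neg hR'] at hs
    have hle : volF y ≤ volF (xB n) := by linarith
    refine lt_of_le_of_ne hle fun he => hne ?_
    -- equality at every vertex
    have hk : ∀ v : Fin (2 * n), (fun k => kapM (2 * n) L R (corB n v k)) = kv (2 * n) v := by
      intro v
      funext k
      rw [G_Asm_kapM_false _ _ hL' hR']
      rfl
    have hv' : ∀ v : Fin (2 * n), Wv (ya y v) (ys y v) + linG (kv (2 * n) v) (ys y v) ≤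
        PhB (2 * n) v := by
      intro v
      have := hv v
      rwa [hk, G_Asm_dlt_false _ _ hL' hR', add_zero] at this
    have hsum : ∑ v : Fin (2 * n), (Wv (ya y v) (ys y v) + linG (kv (2 * n) v) (ys y v)) =
        ∑ v : Fin (2 * n), PhB (2 * n) v := by
      rw [← hx, ← he]
      have h2 : ∑ f ∈ FB n, log (kapM (2 * n) L R f) = ∑ f ∈ FB n, log (kapG (2 * n) f) :=
        Finset.sum_congr rfl fun f _ => by rw [G_Asm_kapM_false _ _ hL' hR']
      rw [← h2, hy1]
      exact Finset.sum_congr rfl fun v _ => by rw [hk]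
    have heq := (Finset.sum_eq_sum_iff_of_le fun v _ => hv' v).1 hsum
    have hpt : ∀ v : Fin (2 * n), ya y v = arctan (2 * cN (2 * n)) ∧ ys y v = sB (2 * n) v := by
      intro v
      have hev := (heq v (Finset.mem_univ v)).ge
      by_cases h0 : (v : ℕ) = 0 ∨ (v : ℕ) + 2 = 2 * n
      · refine end_eq hn hy h0 ?_ hev
        rcases h0 with h0 | h0
        · have : v = ⟨0, by omega⟩ := Fin.ext h0
          rw [this]
          exact not_lt.1 hL'
        · have : v = ⟨2 * n - 2, by omega⟩ := Fin.ext (by simp; omega)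
          rw [this]
          exact not_lt.1 hR'
      · push Not at h0
        exact base_eq hn v.2 h0.1 h0.2 (LP_of hy v) (fun k hk => ys_out hy hk) hev
    funext j
    rcases j with v | ⟨v, k⟩
    · have h1 := (hpt v).1
      rw [ya] at h1
      simp only [xB]
      rw [← h1]
      field_simp
      ring
    · have h1 := congrFun (hpt v).2 k
      rw [ys] at h1
      simp only [xB]
      rw [← h1]
      field_simp

end Pool.Agent.H63.CLK
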