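import Pool.Agent.H63.CLK.G_Defs

/-!
# The critical point at a vertex

Write `κ0, κ1, κ2, κ3` for the curvatures, `E1 = e1 κ`, `E2 = e2 κ` (positive, as `κ0 κ1 > 0` and
`κ2 κ1 > 0`), `T = (E1 + E2) / (κ1 + κ3)`, `q = (E1 E2 + κ1 κ3) / (κ1 + κ3)`, `h = √(1 + T^2)`.

* `sst_sum`: in each triangle `arctan (κ0/E1) + arctan (κ1/E1) + arctan (κ3/E1) = π / 2`, because
  `E1^2 = κ0 κ1 + κ1 κ3 + κ3 κ0`; the same for `κ2, κ1, κ3, E2`.
* Put `a = ast κ`, so `tan a = T`, `sin a = T / h`, `cos a = 1 / h`. With `cot`: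
  `cot s0 = E1/κ0`, `cot s2 = E2/κ2`, `cot s1 = (E1 E2 - κ1^2) / (κ1 (E1 + E2))`, and the same for
  `s3` with `κ3`. From `E1^2 - E2^2 = (κ0 - κ2) (κ1 + κ3)` one gets `T E1 - κ0 = q = T E2 - κ2`, and
  `sin (a - s0) / sin s0 = (T cot s0 - 1) / h = q / (h κ0)`,
  `sin (π - a - s1) / sin s1 = (T cot s1 + 1) / h = q / (h κ1)`, and the same for `2`, `3`.
  So `ρ = h / q` in `crit_rho`.
* `crit_a`: `sin s0 = κ0 / √((κ0+κ1)(κ0+κ3))`, `sin s2 = κ2 / √((κ2+κ1)(κ2+κ3))`,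
  `sin s1 = κ1 (E1+E2) / ((κ1+κ3) √((κ0+κ1)(κ2+κ1)))`,
  `sin s3 = κ3 (E1+E2) / ((κ1+κ3) √((κ0+κ3)(κ2+κ3)))`
  (`E1^2 + κ0^2 = (κ0+κ1)(κ0+κ3)` etc.), so for positive `κ3` the four sines `sin (c_k - s_k)` are
  `1/ρ` times these without the factor `κ_k`; for `κ3 = 0` the sine is `sin (π - a) = T / h`.
-/

set_option autoImplicit false

namespace Pool.Agent.H63.CLK

open Pool.Agent.H63.VC hiding ext
open Pool.Agent.H63.VC7 Real
open scoped BigOperators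

variable {κ : Fin 4 → ℝ}

private theorem G_Crit_sc (x E : ℝ) (hE : 0 < E) :
    sin (arctan (x / E)) = x / √(E ^ 2 + x ^ 2) ∧ cos (arctan (x / E)) = E / √(E ^ 2 + x ^ 2) := by
  have h : √(1 + (x / E) ^ 2) = √(E ^ 2 + x ^ 2) / E := by
    rw [show 1 + (x / E) ^ 2 = (E ^ 2 + x ^ 2) / E ^ 2 by field_simp, Real.sqrt_div' _ (sq_nonneg E),
      Real.sqrt_sq hE.le]
  have hp : 0 < √(E ^ 2 + x ^ 2) := Real.sqrt_pos.mpr (by positivity)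
  rw [Real.sin_arctan, Real.cos_arctan, h]
  constructor
  · field_simp
  · field_simp

private theorem G_Crit_tri {x y z E : ℝ} (hx : 0 < x) (hy : 0 < y) (hz : 0 ≤ z) (hE : 0 < E)
    (h : E ^ 2 = x * y + y * z + z * x) :
    arctan (x / E) + arctan (y / E) + arctan (z / E) = π / 2 := by
  rcases hz.eq_or_lt with hz | hz
  · subst hz
    have h1 : y / E = (x / E)⁻¹ := by
      rw [inv_div, div_eq_div_iff hE.ne' hx.ne']
      linarith [h]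
    rw [h1, Real.arctan_inv_of_pos (by positivity), zero_div, Real.arctan_zero]
    ring
  · have h1 : x / E * (y / E) < 1 := by
      rw [div_mul_div_comm, div_lt_one (by positivity)]
      nlinarith [mul_pos hy hz, mul_pos hz hx]
    have h2 : (x / E + y / E) / (1 - x / E * (y / E)) = (z / E)⁻¹ := by
      have h3 : 1 - x / E * (y / E) = z * (x + y) / E ^ 2 := by
        rw [div_mul_div_comm, ← sq, eq_div_iff (by positivity), sub_mul, div_mul_cancel₀ _ (by positivity)]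
        linarith [h]
      rw [h3, inv_div]
      field_simp
    rw [Real.arctan_add h1, h2, Real.arctan_inv_of_pos (by positivity)]
    ring

private theorem G_Crit_e1 (h0 : 0 < κ 0) (h1 : 0 < κ 1) (h3 : 0 ≤ κ 3) :
    e1 κ ^ 2 = κ 0 * κ 1 + κ 1 * κ 3 + κ 3 * κ 0 := Real.sq_sqrt (by positivity)

private theorem G_Crit_e2 (h1 : 0 < κ 1) (h2 : 0 < κ 2) (h3 : 0 ≤ κ 3) :
    e2 κ ^ 2 = κ 2 * κ 1 + κ 1 * κ 3 + κ 3 * κ 2 := Real.sq_sqrt (by positivity)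

private theorem G_Crit_pos (h0 : 0 < κ 0) (h1 : 0 < κ 1) (h3 : 0 ≤ κ 3) : 0 < e1 κ :=
  Real.sqrt_pos.mpr (by positivity)

private theorem G_Crit_pos' (h1 : 0 < κ 1) (h2 : 0 < κ 2) (h3 : 0 ≤ κ 3) : 0 < e2 κ :=
  Real.sqrt_pos.mpr (by positivity)

private theorem G_Crit_bridge {u v w : ℝ} (_ : 0 < u) (hv : 0 < v) (hw : 0 ≤ w) {E : ℝ}
    (hE : E ^ 2 = u * v + v * w + w * u) :
    √(E ^ 2 + v ^ 2) * √(E ^ 2 + w ^ 2) = (v + w) * √(E ^ 2 + u ^ 2) := by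
  have h1 : (E ^ 2 + v ^ 2) * (E ^ 2 + w ^ 2) = (v + w) ^ 2 * (E ^ 2 + u ^ 2) := by
    rw [hE]; ring
  rw [← Real.sqrt_mul (by positivity), h1, Real.sqrt_mul (by positivity),
    Real.sqrt_sq (by positivity)]

/-- all the sines -/
private theorem G_Crit_main (h0 : 0 < κ 0) (h1 : 0 < κ 1) (h2 : 0 < κ 2) (h3 : 0 ≤ κ 3) :
    ∃ q h R0 R1 R2 R3 : ℝ, 0 < q ∧ 0 < h ∧ 0 < R0 ∧ 0 < R1 ∧ 0 < R2 ∧ 0 < R3 ∧
      R1 * R3 = (κ 1 + κ 3) ^ 2 * (R0 * R2) ∧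
      sin (ast κ) = (e1 κ + e2 κ) / (κ 1 + κ 3) / h ∧ cos (ast κ) = 1 / h ∧
      sin (sst κ 0) = κ 0 / R0 ∧ sin (sst κ 2) = κ 2 / R2 ∧
      sin (sst κ 1) = κ 1 * (e1 κ + e2 κ) / R1 ∧ sin (sst κ 3) = κ 3 * (e1 κ + e2 κ) / R3 ∧
      sin (ast κ - sst κ 0) = q / (h * R0) ∧ sin (ast κ - sst κ 2) = q / (h * R2) ∧
      sin (π - ast κ - sst κ 1) = (e1 κ + e2 κ) * q / (h * R1) ∧
      sin (π - ast κ - sst κ 3) = (e1 κ + e2 κ) * q / (h * R3) := by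
  have hE1 := G_Crit_e1 h0 h1 h3
  have hE2 := G_Crit_e2 h1 h2 h3
  have p1 := G_Crit_pos h0 h1 h3
  have p2 := G_Crit_pos' h1 h2 h3
  have a0 : sst κ 0 = arctan (κ 0 / e1 κ) := rfl
  have a1 : sst κ 1 = arctan (κ 1 / e1 κ) + arctan (κ 1 / e2 κ) := rfl
  have a2 : sst κ 2 = arctan (κ 2 / e2 κ) := rfl
  have a3 : sst κ 3 = arctan (κ 3 / e1 κ) + arctan (κ 3 / e2 κ) := rfl
  have aa : ast κ = arctan ((e1 κ + e2 κ) / (κ 1 + κ 3)) := rfl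
  have b1 := G_Crit_bridge h0 h1 h3 hE1
  have b2 := G_Crit_bridge h2 h1 h3 hE2
  obtain ⟨s01, c01⟩ := G_Crit_sc (κ 0) (e1 κ) p1
  obtain ⟨s11, c11⟩ := G_Crit_sc (κ 1) (e1 κ) p1
  obtain ⟨s31, c31⟩ := G_Crit_sc (κ 3) (e1 κ) p1
  obtain ⟨s22, c22⟩ := G_Crit_sc (κ 2) (e2 κ) p2
  obtain ⟨s12, c12⟩ := G_Crit_sc (κ 1) (e2 κ) p2
  obtain ⟨s32, c32⟩ := G_Crit_sc (κ 3) (e2 κ) p2
  rw [← a0] at s01 c01
  rw [← a2] at s22 c22
  have q01 : 0 < √(e1 κ ^ 2 + κ 0 ^ 2) := Real.sqrt_pos.mpr (by positivity)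
  have q11 : 0 < √(e1 κ ^ 2 + κ 1 ^ 2) := Real.sqrt_pos.mpr (by positivity)
  have q31 : 0 < √(e1 κ ^ 2 + κ 3 ^ 2) := Real.sqrt_pos.mpr (by positivity)
  have q22 : 0 < √(e2 κ ^ 2 + κ 2 ^ 2) := Real.sqrt_pos.mpr (by positivity)
  have q12 : 0 < √(e2 κ ^ 2 + κ 1 ^ 2) := Real.sqrt_pos.mpr (by positivity)
  have q32 : 0 < √(e2 κ ^ 2 + κ 3 ^ 2) := Real.sqrt_pos.mpr (by positivity)
  generalize √(e1 κ ^ 2 + κ 0 ^ 2) = R01 at *
  generalize √(e1 κ ^ 2 + κ 1 ^ 2) = R11 at *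
  generalize √(e1 κ ^ 2 + κ 3 ^ 2) = R31 at *
  generalize √(e2 κ ^ 2 + κ 2 ^ 2) = R22 at *
  generalize √(e2 κ ^ 2 + κ 1 ^ 2) = R12 at *
  generalize √(e2 κ ^ 2 + κ 3 ^ 2) = R32 at *
  have hd : 0 < κ 1 + κ 3 := by linarith
  have hh : 0 < √(1 + ((e1 κ + e2 κ) / (κ 1 + κ 3)) ^ 2) := Real.sqrt_pos.mpr (by positivity)
  have sa : sin (ast κ) = (e1 κ + e2 κ) / (κ 1 + κ 3) /
      √(1 + ((e1 κ + e2 κ) / (κ 1 + κ 3)) ^ 2) := by rw [aa, Real.sin_arctan]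
  have ca' : cos (ast κ) = 1 / √(1 + ((e1 κ + e2 κ) / (κ 1 + κ 3)) ^ 2) := by
    rw [aa, Real.cos_arctan]
  generalize √(1 + ((e1 κ + e2 κ) / (κ 1 + κ 3)) ^ 2) = h at *
  generalize e1 κ = E1 at *
  generalize e2 κ = E2 at *
  have s1 : sin (sst κ 1) = κ 1 * (E1 + E2) / (R11 * R12) := by
    rw [a1, Real.sin_add, s11, c11, s12, c12]; field_simp; ring
  have c1 : cos (sst κ 1) = (E1 * E2 - κ 1 ^ 2) / (R11 * R12) := by
    rw [a1, Real.cos_add, s11, c11, s12, c12]; field_simp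
  have s3 : sin (sst κ 3) = κ 3 * (E1 + E2) / (R31 * R32) := by
    rw [a3, Real.sin_add, s31, c31, s32, c32]; field_simp; ring
  have c3 : cos (sst κ 3) = (E1 * E2 - κ 3 ^ 2) / (R31 * R32) := by
    rw [a3, Real.cos_add, s31, c31, s32, c32]; field_simp
  refine ⟨(E1 * E2 + κ 1 * κ 3) / (κ 1 + κ 3), h, R01, R11 * R12, R22, R31 * R32, by positivity, hh,
    q01, by positivity, q22, by positivity, ?_, sa, ca', s01, s22, s1, s3, ?_, ?_, ?_, ?_⟩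
  · calc R11 * R12 * (R31 * R32) = (R11 * R31) * (R12 * R32) := by ring
      _ = (κ 1 + κ 3) ^ 2 * (R01 * R22) := by rw [b1, b2]; ring
  · rw [Real.sin_sub, sa, ca', s01, c01]
    have : (E1 + E2) * E1 - κ 0 * (κ 1 + κ 3) = E1 * E2 + κ 1 * κ 3 := by
      linear_combination hE1
    field_simp
    linear_combination this
  · rw [Real.sin_sub, sa, ca', s22, c22]
    have : (E1 + E2) * E2 - κ 2 * (κ 1 + κ 3) = E1 * E2 + κ 1 * κ 3 := by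
      linear_combination hE2
    field_simp
    linear_combination this
  · rw [show π - ast κ - sst κ 1 = π - (ast κ + sst κ 1) by ring, Real.sin_pi_sub, Real.sin_add, sa,
      ca', s1, c1]
    field_simp
    ring
  · rw [show π - ast κ - sst κ 3 = π - (ast κ + sst κ 3) by ring, Real.sin_pi_sub, Real.sin_add, sa,
      ca', s3, c3]
    field_simp
    ring

theorem e1_pos (h0 : 0 < κ 0) (h1 : 0 < κ 1) (h3 : 0 ≤ κ 3) : 0 < e1 κ := by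
  exact G_Crit_pos h0 h1 h3

theorem e2_pos (h1 : 0 < κ 1) (h2 : 0 < κ 2) (h3 : 0 ≤ κ 3) : 0 < e2 κ := by
  exact G_Crit_pos' h1 h2 h3

theorem sst_sum (h0 : 0 < κ 0) (h1 : 0 < κ 1) (h2 : 0 < κ 2) (h3 : 0 ≤ κ 3) :
    ∑ k, sst κ k = π := by
  have t1 := G_Crit_tri h0 h1 h3 (G_Crit_pos h0 h1 h3) (G_Crit_e1 h0 h1 h3)
  have t2 := G_Crit_tri h2 h1 h3 (G_Crit_pos' h1 h2 h3) (G_Crit_e2 h1 h2 h3)
  rw [Fin.sum_univ_four]
  change arctan (κ 0 / e1 κ) + (arctan (κ 1 / e1 κ) + arctan (κ 1 / e2 κ)) + arctan (κ 2 / e2 κ) +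
    (arctan (κ 3 / e1 κ) + arctan (κ 3 / e2 κ)) = π
  linarith

theorem sst_pos (h0 : 0 < κ 0) (h1 : 0 < κ 1) (h2 : 0 < κ 2) (h3 : 0 ≤ κ 3) {k : Fin 4}
    (hk : 0 < κ k) : 0 < sst κ k := by
  have p1 := G_Crit_pos h0 h1 h3
  have p2 := G_Crit_pos' h1 h2 h3
  have key : ∀ {x E : ℝ}, 0 < x → 0 < E → 0 < arctan (x / E) := fun hx hE =>
    Real.arctan_pos.mpr (div_pos hx hE)
  match k, hk with
  | 0, _ => exact key h0 p1
  | 1, _ => exact add_pos (key h1 p1) (key h1 p2)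
  | 2, _ => exact key h2 p2
  | 3, hk => exact add_pos (key hk p1) (key hk p2)

theorem sst_three (h3 : κ 3 = 0) : sst κ 3 = 0 := by
  change arctan (κ 3 / e1 κ) + arctan (κ 3 / e2 κ) = 0
  rw [h3]
  simp

theorem ast_pos (h0 : 0 < κ 0) (h1 : 0 < κ 1) (h2 : 0 < κ 2) (h3 : 0 ≤ κ 3) : 0 < ast κ := by
  have p1 := G_Crit_pos h0 h1 h3
  have p2 := G_Crit_pos' h1 h2 h3
  exact Real.arctan_pos.mpr (by positivity)

theorem ast_lt : ast κ < π / 2 := by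
  exact Real.arctan_lt_pi_div_two _

theorem sst_lt (h0 : 0 < κ 0) (h1 : 0 < κ 1) (h2 : 0 < κ 2) (h3 : 0 ≤ κ 3) (k : Fin 4) :
    sst κ k < ca (ast κ) k := by
  obtain ⟨q, h, R0, R1, R2, R3, hq, hh, r0, r1, r2, r3, -, -, -, -, -, -, -, t0, t2, t1, t3⟩ :=
    G_Crit_main h0 h1 h2 h3
  have p1 := G_Crit_pos h0 h1 h3
  have p2 := G_Crit_pos' h1 h2 h3
  have hπ := Real.pi_pos
  have alt : ast κ < π / 2 := Real.arctan_lt_pi_div_two _
  have apos : 0 < ast κ := Real.arctan_pos.mpr (by positivity)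
  have key : ∀ x E : ℝ, arctan (x / E) < π / 2 := fun x E => Real.arctan_lt_pi_div_two _
  have key2 : ∀ x E : ℝ, 0 ≤ x → 0 < E → 0 ≤ arctan (x / E) := fun x E hx hE =>
    Real.arctan_nonneg.mpr (div_nonneg hx hE.le)
  have hs : ∀ y : ℝ, -π < y → y < π → 0 < sin y → 0 < y := by
    intro y h1 h2 h3
    by_contra hy
    exact absurd (Real.sin_nonpos_of_nonpos_of_neg_pi_le (not_lt.mp hy) h1.le) (not_le.mpr h3)
  match k with
  | 0 =>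
    change sst κ 0 < ast κ
    have b1 : 0 ≤ sst κ 0 := key2 (κ 0) (e1 κ) h0.le p1
    have b2 : sst κ 0 < π / 2 := key (κ 0) (e1 κ)
    have := hs (ast κ - sst κ 0) (by linarith) (by linarith) (by rw [t0]; positivity)
    linarith
  | 1 =>
    change sst κ 1 < π - ast κ
    have c1 : sst κ 1 = arctan (κ 1 / e1 κ) + arctan (κ 1 / e2 κ) := rfl
    have d1 := key (κ 1) (e1 κ)
    have d2 := key (κ 1) (e2 κ)
    have d3 := key2 (κ 1) (e1 κ) h1.le p1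
    have d4 := key2 (κ 1) (e2 κ) h1.le p2
    have := hs (π - ast κ - sst κ 1) (by linarith) (by linarith) (by rw [t1]; positivity)
    linarith
  | 2 =>
    change sst κ 2 < ast κ
    have b1 : 0 ≤ sst κ 2 := key2 (κ 2) (e2 κ) h2.le p2
    have b2 : sst κ 2 < π / 2 := key (κ 2) (e2 κ)
    have := hs (ast κ - sst κ 2) (by linarith) (by linarith) (by rw [t2]; positivity)
    linarith
  | 3 =>
    change sst κ 3 < π - ast κ
    have c1 : sst κ 3 = arctan (κ 3 / e1 κ) + arctan (κ 3 / e2 κ) := rfl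
    have d1 := key (κ 3) (e1 κ)
    have d2 := key (κ 3) (e2 κ)
    have d3 := key2 (κ 3) (e1 κ) h3 p1
    have d4 := key2 (κ 3) (e2 κ) h3 p2
    have := hs (π - ast κ - sst κ 3) (by linarith) (by linarith) (by rw [t3]; positivity)
    linarith

theorem crit_rho (h0 : 0 < κ 0) (h1 : 0 < κ 1) (h2 : 0 < κ 2) (h3 : 0 ≤ κ 3) :
    ∃ ρ : ℝ, 0 < ρ ∧ ∀ k, 0 < κ k →
      ρ * κ k * sin (ca (ast κ) k - sst κ k) = sin (sst κ k) := by
  obtain ⟨q, h, R0, R1, R2, R3, hq, hh, r0, r1, r2, r3, -, -, -, s0, s2, s1, s3, t0, t2, t1, t3⟩ :=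
    G_Crit_main h0 h1 h2 h3
  refine ⟨h / q, by positivity, fun k _ => ?_⟩
  match k with
  | 0 =>
    change h / q * κ 0 * sin (ast κ - sst κ 0) = sin (sst κ 0)
    rw [t0, s0]; field_simp
  | 1 =>
    change h / q * κ 1 * sin (π - ast κ - sst κ 1) = sin (sst κ 1)
    rw [t1, s1]; field_simp
  | 2 =>
    change h / q * κ 2 * sin (ast κ - sst κ 2) = sin (sst κ 2)
    rw [t2, s2]; field_simp
  | 3 =>
    change h / q * κ 3 * sin (π - ast κ - sst κ 3) = sin (sst κ 3)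
    rw [t3, s3]; field_simp

theorem crit_a (h0 : 0 < κ 0) (h1 : 0 < κ 1) (h2 : 0 < κ 2) (h3 : 0 ≤ κ 3) :
    sin (ca (ast κ) 1 - sst κ 1) * sin (ca (ast κ) 3 - sst κ 3) * cos (ast κ) ^ 2 =
      sin (ca (ast κ) 0 - sst κ 0) * sin (ca (ast κ) 2 - sst κ 2) * sin (ast κ) ^ 2 := by
  obtain ⟨q, h, R0, R1, R2, R3, hq, hh, r0, r1, r2, r3, hR, sa, ca', -, -, -, -, t0, t2, t1, t3⟩ :=
    G_Crit_main h0 h1 h2 h3
  change sin (π - ast κ - sst κ 1) * sin (π - ast κ - sst κ 3) * cos (ast κ) ^ 2 =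
    sin (ast κ - sst κ 0) * sin (ast κ - sst κ 2) * sin (ast κ) ^ 2
  have hd : 0 < κ 1 + κ 3 := by linarith
  rw [t0, t1, t2, t3, sa, ca']
  have e : (e1 κ + e2 κ) * q / (h * R1) * ((e1 κ + e2 κ) * q / (h * R3)) * (1 / h) ^ 2 =
      (e1 κ + e2 κ) ^ 2 * q ^ 2 / (h ^ 4 * (R1 * R3)) := by
    field_simp
  rw [e, hR]
  field_simp

end Pool.Agent.H63.CLK
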