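import Pool.Agent.H63.CLK.C_Defs
import Pool.Agent.H63.VC.VolA

/-!
# Closed 3-braids: definitions

The angle variables at a twist region are `a = π (1 - τ)` and `s k = π σ k`; the sizes of the corners
are `ca a = (a, π - a, a, π - a)`, in the order top, right, bottom, left. The curvatures `κ k` of the
circles of the four faces are the exponentials of the Lagrange multipliers.
-/

set_option autoImplicit false

namespace Pool.Agent.H63.CLK

open Pool.Agent.H63.VC hiding ext
open Pool.Agent.H63.VC7 Real
open scoped BigOperators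

/-- The volume of the ideal tetrahedron with the angles `s`, `r`, `π - s - r`. -/
noncomputable def vT (s r : ℝ) : ℝ := lob s + lob r - lob (s + r)

/-- The contribution of the twists, in terms of `a = π - A`. -/
noncomputable def vE (a : ℝ) : ℝ := 4 * (lob a + lob (π / 2 - a))

/-- The sizes of the corners. -/
noncomputable def ca (a : ℝ) : Fin 4 → ℝ := ![a, π - a, a, π - a]

/-- The corner terms at a vertex. -/
noncomputable def Bv (a : ℝ) (s : Fin 4 → ℝ) : ℝ := ∑ k, 2 * (lob (s k) + lob (ca a k - s k))

/-- The terms of the volume function at a vertex. -/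
noncomputable def Wv (a : ℝ) (s : Fin 4 → ℝ) : ℝ := (if a ≤ π / 2 then vE a else 0) + Bv a s

/-- The local polytope at a vertex. -/
structure LP (a : ℝ) (s : Fin 4 → ℝ) : Prop where
  sum : ∑ k, s k = π
  nn : ∀ k, 0 ≤ s k
  le : ∀ k, s k ≤ ca a k

/-- The linear function given by the curvatures. -/
noncomputable def linG (κ s : Fin 4 → ℝ) : ℝ := ∑ k, 2 * s k * log (κ k)

/-- The two radicals: `e1` belongs to the triangle top-right-left, `e2` to bottom-right-left. -/
noncomputable def e1 (κ : Fin 4 → ℝ) : ℝ := √(κ 0 * κ 1 + κ 1 * κ 3 + κ 3 * κ 0)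

/-- See `e1`. -/
noncomputable def e2 (κ : Fin 4 → ℝ) : ℝ := √(κ 2 * κ 1 + κ 1 * κ 3 + κ 3 * κ 2)

/-- The critical point: the angles of the corners. -/
noncomputable def sst (κ : Fin 4 → ℝ) : Fin 4 → ℝ :=
  ![arctan (κ 0 / e1 κ), arctan (κ 1 / e1 κ) + arctan (κ 1 / e2 κ), arctan (κ 2 / e2 κ),
    arctan (κ 3 / e1 κ) + arctan (κ 3 / e2 κ)]

/-- The critical point: the angle `a`. -/
noncomputable def ast (κ : Fin 4 → ℝ) : ℝ := arctan ((e1 κ + e2 κ) / (κ 1 + κ 3))

/-- The value at the critical point. -/
noncomputable def Ph (κ : Fin 4 → ℝ) : ℝ := Wv (ast κ) (sst κ) + linG κ (sst κ)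

/-- The value at the critical point at an end vertex; `κt` is the curvature at the top or bottom,
`κs` at the right or left. -/
noncomputable def PhE (κt κs : ℝ) : ℝ :=
  vE (arctan √(κt / κs)) + 2 * arctan √(κt / κs) * log κt + 2 * (π - arctan √(κt / κs)) * log κs

/-- `C` bounds the volume of an ideal tetrahedron with the angle `s`, plus `s log w`. -/
def SB (w C : ℝ) : Prop :=
  ∀ s r : ℝ, 0 ≤ s → 0 ≤ r → s + r ≤ π → vT s r + s * log w ≤ C

/-! ## The template of the closed 3-braids -/

/-- `a_j = sin (π j / N) / sin (π / N)`. -/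
noncomputable def aj (N j : ℕ) : ℝ := sin (π * j / N) / sin (π / N)

/-- `cos (π / N)`. -/
noncomputable def cN (N : ℕ) : ℝ := cos (π / N)

/-- The face `G_j`. -/
def gf (N j : ℕ) : ℕ :=
  if j = 0 then 1 else if j = 1 then 2 else if j < N then j + 2 else if j = N then 1 else 2

/-- The faces at the corners of the vertex `v`. -/
def corN (N v : ℕ) : Fin 4 → ℕ :=
  if v % 2 = 0 then ![gf N (v + 2), gf N (v + 1), gf N v, 0]
  else ![gf N (v + 2), 3, gf N v, gf N (v + 1)]

/-- The corners of the template of the closed 3-braids with `2 n` twist regions. -/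
def corB (n : ℕ) (v : Fin (2 * n)) : Fin 4 → ℕ := corN (2 * n) v

/-- The bounded faces. -/
def FB (n : ℕ) : Finset ℕ := Finset.Icc 2 (2 * n + 1)

/-- The template: the first strand of the closed 3-braid is cut open. -/
def wB (n : ℕ) : List TPiece :=
  [.cup 1, .cup 2] ++ (List.replicate n [.tw 0, .tw 1]).flatten ++ [.cap 2, .cap 1]

/-- The curvatures of the faces; `0` for the two outer faces. -/
noncomputable def kapG (N f : ℕ) : ℝ :=
  if f ≤ 1 then 0 else if f = 2 then 1 else if f = 3 then 1 / cN N ^ 2 else aj N (f - 2) ^ 2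

/-- The modified curvatures: at the left end (if `L`) the curvatures of `G_1`, `G_2` are `2`, at the
right end (if `R`) those of `G_{N-2}`, `G_{N-1}`. -/
noncomputable def kapM (N : ℕ) (L R : Prop) [Decidable L] [Decidable R] (f : ℕ) : ℝ :=
  if L ∧ (f = 2 ∨ f = 4) then 2 else if R ∧ (f = N ∨ f = N + 1) then 2 else kapG N f

/-- The curvatures at the corners of a vertex. -/
noncomputable def kv (N v : ℕ) (k : Fin 4) : ℝ := kapG N (corN N v k)

/-- The angles of the corners at the maximum. -/
noncomputable def sB (N v : ℕ) : Fin 4 → ℝ :=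
  if v = 0 then ![arctan (2 * cN N), π - arctan (2 * cN N), 0, 0]
  else if v + 2 = N then ![0, π - arctan (2 * cN N), arctan (2 * cN N), 0]
  else sst (kv N v)

/-- The maximum of the volume function. -/
noncomputable def xB (n : ℕ) : Vr (2 * n) → ℝ
  | Sum.inl _ => 1 - arctan (2 * cN (2 * n)) / π
  | Sum.inr (v, k) => sB (2 * n) v k / π

/-- The value at the critical point, for a vertex of the template. -/
noncomputable def PhB (N v : ℕ) : ℝ :=
  if v = 0 ∨ v + 2 = N then PhE (4 * cN N ^ 2) 1 else Ph (kv N v)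

end Pool.Agent.H63.CLK
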