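import Pool.Agent.H63.CLK.G_Defs

/-!
# The template of the closed 3-braids

The sweep: after the two minima the gaps are `[0, 1, 2, 3, 2, 1]`, the faces `[3, 2, 0, 1]`, the next
number `4`. After `2 m` twist regions (`m ≥ 1`) the gaps are `[0, 2m+2, 2m+3, 3, 2, 1]`, the new faces
are `4, …, 2m+3`, and the corners of the vertex `v` are `![v+4, b+?, ...]`, i.e. `corN` without the
last identifications (`gf` with a large `N`). The maxima identify `2n+3` with `2` and `2n+2` with `1`.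
-/

set_option autoImplicit false

namespace Pool.Agent.H63.CLK

open Pool.Agent.H63.VC hiding ext
open Pool.Agent.H63.VC7 Real
open scoped BigOperators

/-- The face `G_j`, before the last identifications. -/
private def G_Tmpl_g (j : ℕ) : ℕ := if j = 0 then 1 else if j = 1 then 2 else j + 2

/-- The corners before the last identifications. -/
private def G_Tmpl_cor (v : ℕ) : Fin 4 → ℕ :=
  if v % 2 = 0 then ![G_Tmpl_g (v + 2), G_Tmpl_g (v + 1), G_Tmpl_g v, 0]
  else ![G_Tmpl_g (v + 2), 3, G_Tmpl_g v, G_Tmpl_g (v + 1)]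

/-- The faces after `m` rounds. -/
private def G_Tmpl_fl : ℕ → List ℕ
  | 0 => [3, 2, 0, 1]
  | m + 1 => (2 * m + 5) :: (2 * m + 4) :: G_Tmpl_fl m

/-- The state after `m` rounds. -/
private def G_Tmpl_St (m : ℕ) : Sweep :=
  ⟨[0, G_Tmpl_g (2 * m), G_Tmpl_g (2 * m + 1), 3, 2, 1], G_Tmpl_fl m, 2 * m + 4,
    (List.range (2 * m)).map G_Tmpl_cor⟩

private theorem G_Tmpl_append (w1 w2 : List TPiece) (S : Sweep) :
    sweep (w1 ++ w2) S = (sweep w1 S).bind (sweep w2) := by
  induction w1 generalizing S with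
  | nil => rfl
  | cons x w ih =>
    simp only [List.cons_append, sweep]
    cases h : S.step x with
    | none => rfl
    | some T => simpa using ih T

private theorem G_Tmpl_round (m : ℕ) :
    sweep [.tw 0, .tw 1] (G_Tmpl_St m) = some (G_Tmpl_St (m + 1)) := by
  have h1 : G_Tmpl_g (2 * m + 2) = 2 * m + 4 := by
    simp [G_Tmpl_g]
  have h2 : G_Tmpl_g (2 * m + 3) = 2 * m + 5 := by
    simp [G_Tmpl_g]
  have h3 : (List.range (2 * (m + 1))).map G_Tmpl_cor =
      (List.range (2 * m)).map G_Tmpl_cor ++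
        [![2 * m + 4, G_Tmpl_g (2 * m + 1), G_Tmpl_g (2 * m), 0]] ++
        [![2 * m + 5, 3, G_Tmpl_g (2 * m + 1), 2 * m + 4]] := by
    rw [show 2 * (m + 1) = 2 * m + 1 + 1 by ring, List.range_succ, List.range_succ]
    have e1 : G_Tmpl_cor (2 * m) = ![2 * m + 4, G_Tmpl_g (2 * m + 1), G_Tmpl_g (2 * m), 0] := by
      simp [G_Tmpl_cor, h1]
    have e2 : G_Tmpl_cor (2 * m + 1) = ![2 * m + 5, 3, G_Tmpl_g (2 * m + 1), 2 * m + 4] := by
      have : (2 * m + 1) % 2 = 1 := by omega
      simp [G_Tmpl_cor, this, h1, h2]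
    simp [e1, e2]
  have h4 : G_Tmpl_St (m + 1) = ⟨[0, 2 * m + 4, 2 * m + 5, 3, 2, 1],
      (2 * m + 5) :: (2 * m + 4) :: G_Tmpl_fl m, 2 * m + 6,
      (List.range (2 * m)).map G_Tmpl_cor ++
        [![2 * m + 4, G_Tmpl_g (2 * m + 1), G_Tmpl_g (2 * m), 0]] ++
        [![2 * m + 5, 3, G_Tmpl_g (2 * m + 1), 2 * m + 4]]⟩ := by
    rw [G_Tmpl_St, h3, show 2 * (m + 1) = 2 * m + 2 by ring, h1, show 2 * m + 2 + 1 = 2 * m + 3 by ring,
      h2]
    rfl
  rw [h4]
  rfl

private theorem G_Tmpl_rounds (n m : ℕ) :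
    sweep (List.replicate n [TPiece.tw 0, .tw 1]).flatten (G_Tmpl_St m) =
      some (G_Tmpl_St (m + n)) := by
  induction n generalizing m with
  | zero => rfl
  | succ n ih =>
    rw [List.replicate_succ, List.flatten_cons, G_Tmpl_append, G_Tmpl_round, Option.bind_some, ih,
      show m + 1 + n = m + (n + 1) by ring]

private theorem G_Tmpl_mem (m x : ℕ) : x ∈ G_Tmpl_fl m ↔ x < 2 * m + 4 := by
  induction m with
  | zero =>
    simp only [G_Tmpl_fl, List.mem_cons, List.not_mem_nil, or_false]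
    omega
  | succ m ih =>
    simp only [G_Tmpl_fl, List.mem_cons, ih]
    omega

private theorem G_Tmpl_start :
    sweep [.cup 1, .cup 2] Sweep.init = some (G_Tmpl_St 0) := rfl

private theorem G_Tmpl_end (n : ℕ) :
    sweep [.cap 2, .cap 1] (G_Tmpl_St (n + 1)) = some ⟨[0, 1], G_Tmpl_fl n, 2 * n + 6,
      ((List.range (2 * (n + 1))).map G_Tmpl_cor).map
        (fun x k => ident (2 * n + 4) 1 (ident (2 * n + 5) 2 (x k)))⟩ := by
  have h1 : G_Tmpl_g (2 * (n + 1)) = 2 * n + 4 := by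
    simp [G_Tmpl_g]; omega
  have h2 : G_Tmpl_g (2 * (n + 1) + 1) = 2 * n + 5 := by
    simp [G_Tmpl_g]; omega
  have e1 : (G_Tmpl_St (n + 1)).step (.cap 2) = some ⟨[0, 2 * n + 4, 2, 1],
      (2 * n + 4) :: G_Tmpl_fl n, 2 * n + 6,
      ((List.range (2 * (n + 1))).map G_Tmpl_cor).map (fun x k => ident (2 * n + 5) 2 (x k))⟩ := by
    have c1 : ¬ (2 * n + 5 = 2 ∨ max (2 * n + 5) 2 ≤ 1) := by omega
    simp only [Sweep.step, G_Tmpl_St, h1, h2, List.drop_succ_cons, List.drop_zero, List.take_succ_cons,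
      List.take_zero, if_neg c1]
    simp [ident, G_Tmpl_fl]
    omega
  have e2 : (⟨[0, 2 * n + 4, 2, 1], (2 * n + 4) :: G_Tmpl_fl n, 2 * n + 6,
      ((List.range (2 * (n + 1))).map G_Tmpl_cor).map
        (fun x k => ident (2 * n + 5) 2 (x k))⟩ : Sweep).step (.cap 1) =
      some ⟨[0, 1], G_Tmpl_fl n, 2 * n + 6,
      ((List.range (2 * (n + 1))).map G_Tmpl_cor).map
        (fun x k => ident (2 * n + 4) 1 (ident (2 * n + 5) 2 (x k)))⟩ := by
    have c1 : ¬ (2 * n + 4 = 1 ∨ max (2 * n + 4) 1 ≤ 1) := by omega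
    simp only [Sweep.step, List.drop_succ_cons, List.drop_zero, List.take_succ_cons,
      List.take_zero, if_neg c1]
    simp [ident]
  simp only [sweep, e1, Option.bind_some, e2]

private theorem G_Tmpl_ident (m v : ℕ) (hv : v < 2 * (m + 1)) (k : Fin 4) :
    ident (2 * m + 4) 1 (ident (2 * m + 5) 2 (G_Tmpl_cor v k)) = corN (2 * (m + 1)) v k := by
  have hg : ∀ j, j ≤ 2 * m + 3 →
      ident (2 * m + 4) 1 (ident (2 * m + 5) 2 (G_Tmpl_g j)) = gf (2 * (m + 1)) j := by
    intro j hj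
    have hm1 : max (2 * m + 5) 2 = 2 * m + 5 := by omega
    have hm2 : min (2 * m + 5) 2 = 2 := by omega
    have hm3 : max (2 * m + 4) 1 = 2 * m + 4 := by omega
    have hm4 : min (2 * m + 4) 1 = 1 := by omega
    simp only [ident, hm1, hm2, hm3, hm4, G_Tmpl_g, gf]
    split_ifs <;> omega
  have h0 : ident (2 * m + 4) 1 (ident (2 * m + 5) 2 0) = 0 := by
    simp [ident]
  have h3 : ident (2 * m + 4) 1 (ident (2 * m + 5) 2 3) = 3 := by
    simp only [ident]
    split_ifs <;> omega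
  unfold G_Tmpl_cor corN
  split_ifs with h
  · fin_cases k
    · exact hg (v + 2) (by omega)
    · exact hg (v + 1) (by omega)
    · exact hg v (by omega)
    · exact h0
  · fin_cases k
    · exact hg (v + 2) (by omega)
    · exact h3
    · exact hg v (by omega)
    · exact hg (v + 1) (by omega)

theorem isTemplate_B {n : ℕ} (hn : 3 ≤ n) : IsTemplate (wB n) (2 * n) (FB n) (corB n) := by
  obtain ⟨m, rfl⟩ : ∃ m, n = m + 1 := ⟨n - 1, by omega⟩
  refine ⟨⟨[0, 1], G_Tmpl_fl m, 2 * m + 6, ((List.range (2 * (m + 1))).map G_Tmpl_cor).map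
        (fun x k => ident (2 * m + 4) 1 (ident (2 * m + 5) 2 (x k)))⟩, ?_, rfl, ?_, ?_⟩
  · rw [wB, G_Tmpl_append, G_Tmpl_append, G_Tmpl_start, Option.bind_some, G_Tmpl_rounds,
      Option.bind_some, Nat.zero_add, G_Tmpl_end]
  · apply List.ext_getElem
    · rw [List.length_map, List.length_map, List.length_range, List.length_ofFn]
    · intro i h1 h2
      simp only [List.length_map, List.length_range] at h1
      simp only [List.getElem_map, List.getElem_range, List.getElem_ofFn]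
      funext k
      exact G_Tmpl_ident m i h1 k
  · ext x
    simp only [FB, Finset.mem_Icc, Finset.mem_erase, List.mem_toFinset, G_Tmpl_mem]
    omega

end Pool.Agent.H63.CLK
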