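import Pool.Agent.H63.CLK.F_Main
import Pool.Agent.H63.CLK.G_Asm
import Pool.Agent.H63.CLK.G_Tmpl
import Pool.Agent.H63.CLK.F_FarA

/-!
# The closed 3-braids
-/

set_option autoImplicit false

namespace Pool.Agent.H63.CLK

open Pool.Agent.H63.VC hiding ext
open Pool.Agent.H63.VC3 Pool.Agent.H63.VC4 Pool.Agent.H63.VC7 Complex Filter Topology
open Pool.Agent.H63.VC10 (Piece twist)
open scoped BigOperators

/-- The diagram of the closed 3-braid `σ₁^(a 0) σ₂^(a 1) σ₁^(a 2) ⋯ σ₂^(a (2n-1))`, cut open at the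
first strand. -/
def braid3 (n : ℕ) (a : ℕ → ℤ) : List Piece :=
  [.cup 1, .cup 2] ++ (List.range (2 * n)).flatMap (fun v => twist (a v) (v % 2)) ++
    [.cap 2, .cap 1]

private theorem G_Fin_fill (a : ℕ → ℤ) (w : List TPiece) (m : ℕ) (v : ℕ) (hv : v % 2 = 0) :
    fill a v ((List.replicate m [TPiece.tw 0, TPiece.tw 1]).flatten ++ w) =
      ((List.range (2 * m)).flatMap (fun j => twist (a (v + j)) (j % 2))) ++
        fill a (v + 2 * m) w := by
  induction m generalizing v with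
  | zero => simp
  | succ m ih =>
    rw [List.replicate_succ, List.flatten_cons, List.append_assoc]
    show twist (a v) 0 ++ (twist (a (v + 1)) 1 ++ fill a (v + 1 + 1)
      ((List.replicate m [TPiece.tw 0, TPiece.tw 1]).flatten ++ w)) = _
    rw [ih (v + 1 + 1) (by omega)]
    have h1 : List.range (2 * (m + 1)) = 0 :: 1 :: (List.range (2 * m)).map (· + 2) := by
      rw [show 2 * (m + 1) = 2 * m + 1 + 1 by ring, List.range_succ_eq_map,
        List.range_succ_eq_map]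
      simp [Function.comp_def]
    rw [h1, List.flatMap_cons, List.flatMap_cons, List.flatMap_map]
    have h2 : (fun j => twist (a (v + (j + 2))) ((j + 2) % 2)) =
        fun j => twist (a (v + 1 + 1 + j)) (j % 2) := by
      funext j
      rw [show v + (j + 2) = v + 1 + 1 + j by ring, Nat.add_mod_right]
    rw [h2, show v + 1 + 1 + 2 * m = v + 2 * (m + 1) by ring]
    simp [List.append_assoc]

theorem fill_wB (n : ℕ) (a : ℕ → ℤ) : fill a 0 (wB n) = braid3 n a := by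
  have h := G_Fin_fill a [.cap 2, .cap 1] n 0 rfl
  simp only [Nat.zero_add] at h
  show Piece.cup 1 :: Piece.cup 2 :: fill a 0
    ((List.replicate n [TPiece.tw 0, TPiece.tw 1]).flatten ++ [.cap 2, .cap 1]) = _
  rw [h]
  simp [braid3, fill]

/-- **The asymptotics of Kashaev's invariant of the closed 3-braids with long syllables.** -/
theorem braid_main {n : ℕ} (hn : 3 ≤ n) :
    ∃ R : ℝ, ∀ a : ℕ → ℤ, (∀ v < 2 * n, R ≤ |(a v : ℝ)|) → ∃ z : ℂ,
      IsVolume (wB n) a (2 * Real.pi * z.re) ∧ ∀ e : ℤ, ∃ κ : ℂ, κ ≠ 0 ∧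
      Tendsto (fun N : ℕ => longJones (braid3 n a) e N (qz N) /
        ((((N + 1 : ℕ) : ℝ) ^ (3 / 2 : ℝ) : ℝ) *
          exp (((N + 1 : ℕ) : ℂ) * (z - ∑ v : Fin (2 * n),
            Real.pi * I * a v / 4 + Real.pi * I * e)))) atTop (𝓝 κ) := by
  have hpr : ∃ v₁ v₂ : Fin (2 * n), ∀ v, IsEnd (FB n) (corB n) v → v = v₁ ∨ v = v₂ := by
    refine ⟨⟨0, by omega⟩, ⟨2 * n - 2, by omega⟩, fun v hv => ?_⟩
    rcases (isEnd_iff hn v).1 hv with h | h
    · exact Or.inl (Fin.ext h)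
    · exact Or.inr (Fin.ext (by simp; omega))
  obtain ⟨R, hR⟩ := clk_main (isTemplate_B hn) hpr (isMaxA_B hn).toN
    (farOK_of_maxA (isMaxA_B hn))
  refine ⟨R, fun a ha => ?_⟩
  obtain ⟨z, h1, h2⟩ := hR a ha
  refine ⟨z, h1, fun e => ?_⟩
  obtain ⟨κ, hκ, h3⟩ := h2 e
  refine ⟨κ, hκ, ?_⟩
  rw [← fill_wB]
  exact h3

end Pool.Agent.H63.CLK
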