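import Pool.Agent.H63.CLK.F_FinalC
import Pool.Agent.H63.CLK.G_Fin

/-!
# The closed 3-braids, with the complex volume
-/

set_option autoImplicit false

namespace Pool.Agent.H63.CLK

open Complex Filter Topology
open scoped BigOperators

/-- The end vertices of the template of the closed 3-braids. -/
theorem isEnd_two {n : ℕ} (hn : 3 ≤ n) :
    ∃ v₁ v₂ : Fin (2 * n), ∀ v, IsEnd (FB n) (corB n) v → v = v₁ ∨ v = v₂ := by
  refine ⟨⟨0, by omega⟩, ⟨2 * n - 2, by omega⟩, fun v hv => ?_⟩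
  rcases (isEnd_iff hn v).1 hv with h | h
  · exact Or.inl (Fin.ext h)
  · exact Or.inr (Fin.ext (by simp; omega))

/-- **The complexified volume conjecture for the closed 3-braids with long syllables.** -/
theorem braid_finalC {n : ℕ} (hn : 3 ≤ n) :
    ∃ R : ℝ, ∀ a : ℕ → ℤ, (∀ v < 2 * n, R ≤ |(a v : ℝ)|) → ∀ e : ℤ, ∃ V C : ℝ,
      IsVolume (wB n) a V ∧
      (∃ Z : ℂ, IsComplexVolume (wB n) a Z ∧
        ∃ k : ℤ, Z = I * (V + C * I) + k * (Real.pi : ℂ) ^ 2) ∧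
      (∃ L : ℕ → ℂ, (∀ᶠ N : ℕ in atTop, exp (L N) = longJones (braid3 n a) e N (qz N)) ∧
        Tendsto (fun N : ℕ => 2 * (Real.pi : ℂ) * L N / (N + 1)) atTop (𝓝 (V + C * I))) ∧
      Tendsto (fun N : ℕ => 2 * (Real.pi : ℂ) *
        log (longJones (braid3 n a) e N (qz N)) / (N + 1)) atTop (𝓝 (V : ℂ)) ∧
      ∃ κ : ℂ, κ ≠ 0 ∧ Tendsto (fun N : ℕ => longJones (braid3 n a) e N (qz N) /
        ((((N : ℝ) + 1) ^ (3 / 2 : ℝ) : ℝ) *
          exp ((N + 1) * (V + C * I) / (2 * Real.pi)))) atTop (𝓝 κ) := by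
  obtain ⟨R, hR⟩ := clk_finalC (wB n) (2 * n) (FB n) (corB n) (isTemplate_B hn) (isEnd_two hn)
    (xB n) (isMaxA_B hn).toN (farOK_of_maxA (isMaxA_B hn))
  refine ⟨R, fun a ha e => ?_⟩
  have h := hR a ha e
  rw [fill_wB] at h
  exact h

end Pool.Agent.H63.CLK
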