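import Pool.Agent.H63.CLK.G_Tan

/-!
# Bounds for `vT s r + s log w`

`SB_iff`: for fixed `s` the volume `vT s r` is largest for `r = (π - s)/2` (`vT_le` at
`(s, (π - s)/2)` if `0 < s < π`: the slope in `r` is `log sin ((π+s)/2) - log sin ((π-s)/2) = 0`), and
`vT s ((π - s)/2) = 2 lob (s/2)` (duplication: `g s = lob s + 2 lob ((π - s)/2) - 2 lob (s/2)` has
derivative `-log (2 sin s) + log (2 cos (s/2)) + log (2 sin (s/2)) = 0` and `g 0 = 0`).
`SB_one`: the derivative of `2 lob (s/2)` is `-log (2 sin (s/2))`, zero at `s = π/3`; concave.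
`SB_sqrt3`: `-log (2 sin (s/2)) + log √3` is zero at `s = 2π/3`.
`SB_lin`: the maximum of `2 lob (s/2) + s log w` over `s` is at `2 sin (s/2) = w`, so it suffices that
`h α = 2 lob (α/2) + α log (2 sin (α/2)) - 2π/3 sin (α/2) ≤ 0` for `0 < α ≤ π/2`;
`h' α = cos (α/2) ((α/2) / sin (α/2) - π/3)` is `≤ 0` for `α ≤ π/3` and `≥ 0` for `α ≥ π/3`
(`x / sin x` increases), `h 0 = 0`, and `h (π/2) = 2 lob (π/4) + π/4 log 2 - π √2/3 ≤ 0` by the
hypothesis on `lob (π/4)`.
`SB_chord`, `SB_shift` are immediate from the definition (`0 ≤ s ≤ π`).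
-/

set_option autoImplicit false

namespace Pool.Agent.H63.CLK

open Pool.Agent.H63.VC hiding ext
open Pool.Agent.H63.VC7 Real
open scoped BigOperators

private theorem G_SB_lobD {x : ℝ} (h0 : 0 < x) (h1 : x < π) :
    HasDerivAt lob (-log (2 * sin x)) x := by
  have hs : 0 < sin x := sin_pos_of_pos_of_lt_pi h0 h1
  have h := volA_lob_hasDerivAt x hs.ne'
  rwa [abs_of_pos (by positivity)] at h

private theorem G_SB_dup {s : ℝ} (hs0 : 0 ≤ s) (hs1 : s ≤ π) :
    lob s + 2 * lob ((π - s) / 2) - 2 * lob (s / 2) = 0 := by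
  rcases hs0.eq_or_lt with rfl | hs
  · have h1 : (π - 0) / 2 = π / 2 := by ring
    rw [h1, lob_pi_div_two]
    simp [volA_lob_zero]
  set g : ℝ → ℝ := fun s => lob s + 2 * lob ((π - s) / 2) - 2 * lob (s / 2) with hg
  have hc : Continuous g := by
    have := volA_lob_continuous
    fun_prop
  have hd : ∀ x ∈ Set.Ioo (0 : ℝ) s, HasDerivAt g 0 x := by
    intro x hx
    have hx0 : 0 < x := hx.1
    have hx1 : x < π := lt_of_lt_of_le hx.2 hs1
    have d1 := G_SB_lobD hx0 hx1
    have d2 : HasDerivAt (fun y : ℝ => lob ((π - y) / 2))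
        (-log (2 * sin ((π - x) / 2)) * (-1 / 2)) x := by
      have ha : HasDerivAt lob (-log (2 * sin ((π - x) / 2))) ((π - x) / 2) :=
        G_SB_lobD (by linarith) (by linarith)
      have hb : HasDerivAt (fun y : ℝ => (π - y) / 2) (-1 / 2) x :=
        ((hasDerivAt_id x).const_sub π).div_const 2
      exact HasDerivAt.comp (h₂ := lob) x ha hb
    have d3 : HasDerivAt (fun y : ℝ => lob (y / 2)) (-log (2 * sin (x / 2)) * (1 / 2)) x := by
      have ha : HasDerivAt lob (-log (2 * sin (x / 2))) (x / 2) :=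
        G_SB_lobD (by linarith) (by linarith)
      have hb : HasDerivAt (fun y : ℝ => y / 2) (1 / 2) x := (hasDerivAt_id x).div_const 2
      exact HasDerivAt.comp (h₂ := lob) x ha hb
    have d := (d1.add (d2.const_mul 2)).sub (d3.const_mul 2)
    have hsin : 0 < sin (x / 2) := sin_pos_of_pos_of_lt_pi (by linarith) (by linarith)
    have hcos : 0 < cos (x / 2) := cos_pos_of_mem_Ioo ⟨by linarith, by linarith⟩
    have e1 : sin ((π - x) / 2) = cos (x / 2) := by
      rw [show (π - x) / 2 = π / 2 - x / 2 by ring, sin_pi_div_two_sub]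
    have e2 : sin x = 2 * sin (x / 2) * cos (x / 2) := by
      rw [← sin_two_mul]
      congr 1
      ring
    have e3 : log (2 * sin x) = log (2 * cos (x / 2)) + log (2 * sin (x / 2)) := by
      rw [← log_mul (by positivity) (by positivity), e2]
      congr 1
      ring
    refine d.congr_deriv ?_
    rw [e1, e3]
    ring
  obtain ⟨c, hc1, hc2⟩ := exists_hasDerivAt_eq_slope g (fun _ => 0) hs hc.continuousOn hd
  have h3 : g s - g 0 = 0 := by
    have h4 : (0 : ℝ) < s - 0 := by linarith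
    have h5 := hc2
    rw [eq_comm, div_eq_zero_iff] at h5
    rcases h5 with h5 | h5
    · exact h5
    · exact absurd h5 h4.ne'
  have h0 : g 0 = 0 := by
    simp only [hg]
    have h1 : (π - 0) / 2 = π / 2 := by ring
    rw [h1, lob_pi_div_two]
    simp [volA_lob_zero]
  have : g s = 0 := by linarith
  exact this

private theorem G_SB_vT {s : ℝ} (hs0 : 0 ≤ s) (hs1 : s ≤ π) :
    vT s ((π - s) / 2) = 2 * lob (s / 2) := by
  have h := G_SB_dup hs0 hs1
  have h2 : lob (s + (π - s) / 2) = -lob ((π - s) / 2) := by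
    rw [← lob_pi_sub]
    congr 1
    ring
  unfold vT
  rw [h2]
  linarith

theorem SB_iff {w C : ℝ} :
    SB w C ↔ ∀ s : ℝ, 0 ≤ s → s ≤ π → 2 * lob (s / 2) + s * log w ≤ C := by
  constructor
  · intro h s hs0 hs1
    have := h s ((π - s) / 2) hs0 (by linarith) (by linarith)
    rwa [G_SB_vT hs0 hs1] at this
  · intro h s r hs0 hr0 hsr
    have hs1 : s ≤ π := by linarith
    refine le_trans ?_ (h s hs0 hs1)
    have key : vT s r ≤ 2 * lob (s / 2) := by
      rcases hs0.eq_or_lt with rfl | hs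
      · rw [vT_zero_left]
        simp [volA_lob_zero]
      rcases hs1.eq_or_lt with rfl | hs'
      · have hr : r = 0 := by linarith
        rw [hr, vT_zero_right, lob_pi_div_two]
        simp
      have hv := vT_le (s0 := s) (r0 := (π - s) / 2) (s := s) (r := r) hs (by linarith)
        (by linarith) hs0 hr0 hsr
      have e1 : sin (s + (π - s) / 2) = sin ((π - s) / 2) := by
        rw [← sin_pi_sub]
        congr 1
        ring
      rw [e1, G_SB_vT hs0 hs1] at hv
      simpa using hv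
    linarith

/-- The graph of `lob` on `[0, π/2]` lies below its tangents. -/
private theorem G_SB_tan {α x : ℝ} (ha0 : 0 < α) (ha1 : α ≤ π / 2) (hx0 : 0 ≤ x)
    (hx1 : x ≤ π / 2) : lob x ≤ lob α - (x - α) * log (2 * sin α) := by
  have hpi := pi_pos
  rcases lt_trichotomy x α with h | h | h
  · obtain ⟨c, hc1, hc2⟩ := exists_hasDerivAt_eq_slope lob (fun y => -log (2 * sin y)) h
      volA_lob_continuous.continuousOn
      (fun y hy => G_SB_lobD (lt_of_le_of_lt hx0 hy.1) (by linarith [hy.2]))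
    have hlt : 0 < α - x := by linarith
    rw [eq_div_iff hlt.ne'] at hc2
    have hc0 : 0 < c := lt_of_le_of_lt hx0 hc1.1
    have hsc : 0 < sin c := sin_pos_of_pos_of_lt_pi hc0 (by linarith [hc1.2])
    have hle : sin c ≤ sin α :=
      sin_le_sin_of_le_of_le_pi_div_two (by linarith) ha1 hc1.2.le
    have hlog : log (2 * sin c) ≤ log (2 * sin α) :=
      log_le_log (by positivity) (by linarith)
    nlinarith
  · rw [h]
    simp
  · obtain ⟨c, hc1, hc2⟩ := exists_hasDerivAt_eq_slope lob (fun y => -log (2 * sin y)) h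
      volA_lob_continuous.continuousOn
      (fun y hy => G_SB_lobD (lt_trans ha0 hy.1) (by linarith [hy.2]))
    have hlt : 0 < x - α := by linarith
    rw [eq_div_iff hlt.ne'] at hc2
    have hsa : 0 < sin α := sin_pos_of_pos_of_lt_pi ha0 (by linarith)
    have hle : sin α ≤ sin c :=
      sin_le_sin_of_le_of_le_pi_div_two (by linarith) (by linarith [hc1.2]) hc1.1.le
    have hlog : log (2 * sin α) ≤ log (2 * sin c) :=
      log_le_log (by positivity) (by linarith)
    nlinarith

/-- The bound for `w = 2 sin α`. -/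
private theorem G_SB_max {α : ℝ} (ha0 : 0 < α) (ha1 : α ≤ π / 2) :
    SB (2 * sin α) (2 * lob α + 2 * α * log (2 * sin α)) := by
  rw [SB_iff]
  intro s hs0 hs1
  have := G_SB_tan ha0 ha1 (x := s / 2) (by linarith) (by linarith)
  nlinarith

theorem SB_one : SB 1 (2 * lob (π / 6)) := by
  have h := G_SB_max (α := π / 6) (by positivity) (by linarith [pi_pos])
  rw [sin_pi_div_six] at h
  norm_num at h
  exact h

theorem SB_sqrt3 : SB √3 (2 * lob (π / 3) + 2 * π / 3 * log √3) := by
  have h := G_SB_max (α := π / 3) (by positivity) (by linarith [pi_pos])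
  rw [sin_pi_div_three, show (2 : ℝ) * (√3 / 2) = √3 by ring,
    show (2 : ℝ) * (π / 3) = 2 * π / 3 by ring] at h
  exact h

/-- The function `h`. -/
private noncomputable def G_SB_h (α : ℝ) : ℝ :=
  2 * lob α + 2 * α * log (2 * sin α) - 2 * π / 3 * sin α

private theorem G_SB_hD {α : ℝ} (h0 : 0 < α) (h1 : α < π) :
    HasDerivAt G_SB_h (2 * cos α * (α / sin α - π / 3)) α := by
  have hs : 0 < sin α := sin_pos_of_pos_of_lt_pi h0 h1
  have d1 := (G_SB_lobD h0 h1).const_mul 2
  have d2 : HasDerivAt (fun y : ℝ => log (2 * sin y)) ((2 * cos α) / (2 * sin α)) α :=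
    ((hasDerivAt_sin α).const_mul 2).log (by positivity)
  have d3 : HasDerivAt (fun y : ℝ => 2 * y) (2 * 1) α := (hasDerivAt_id α).const_mul 2
  have d4 := d3.mul d2
  have d5 := (hasDerivAt_sin α).const_mul (2 * π / 3)
  have d := (d1.add d4).sub d5
  unfold G_SB_h
  refine d.congr_deriv ?_
  field_simp
  ring

private theorem G_SB_ratio {x y : ℝ} (h0 : 0 < x) (hxy : x ≤ y) (hy : y ≤ π / 2) :
    x * sin y ≤ y * sin x := by
  rcases hxy.eq_or_lt with rfl | h
  · exact le_refl _
  have hc := strictConcaveOn_sin_Icc.concaveOn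
  have hx : x ∈ Set.Icc (0 : ℝ) π := ⟨h0.le, by linarith [pi_pos]⟩
  have hy' : y ∈ Set.Icc (0 : ℝ) π := ⟨by linarith, by linarith [pi_pos]⟩
  have h00 : (0 : ℝ) ∈ Set.Icc (0 : ℝ) π := ⟨le_refl _, pi_pos.le⟩
  have hypos : 0 < y := by linarith
  have ha' : 0 ≤ (y - x) / y := div_nonneg (by linarith) hypos.le
  have hb' : 0 ≤ x / y := by positivity
  have hab' : (y - x) / y + x / y = 1 := by
    field_simp
    ring
  have h3 := hc.2 h00 hy' ha' hb' hab'
  simp only [smul_eq_mul, mul_zero, sin_zero, zero_add] at h3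
  rw [div_mul_cancel₀ _ hypos.ne'] at h3
  have h4 : x / y * sin y = x * sin y / y := by ring
  rw [h4, div_le_iff₀ hypos] at h3
  linarith

private theorem G_SB_h1 {α : ℝ} (h0 : 0 < α) (h1 : α ≤ π / 6) : G_SB_h α ≤ 0 := by
  have hpi := pi_pos
  have hstep : ∀ ε : ℝ, 0 < ε → ε ≤ α → G_SB_h α ≤ G_SB_h ε := by
    intro ε he hea
    rcases hea.eq_or_lt with rfl | hlt
    · exact le_refl _
    have hcont : ContinuousOn G_SB_h (Set.Icc ε α) := by
      intro y hy
      exact (G_SB_hD (lt_of_lt_of_le he hy.1) (by linarith [hy.2])).continuousAt.continuousWithinAt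
    obtain ⟨c, hc1, hc2⟩ := exists_hasDerivAt_eq_slope G_SB_h
      (fun y => 2 * cos y * (y / sin y - π / 3)) hlt hcont
      (fun y hy => G_SB_hD (lt_trans he hy.1) (by linarith [hy.2]))
    have hc0 : 0 < c := lt_trans he hc1.1
    have hsc : 0 < sin c := sin_pos_of_pos_of_lt_pi hc0 (by linarith [hc1.2])
    have hcc : 0 ≤ cos c := cos_nonneg_of_mem_Icc ⟨by linarith, by linarith [hc1.2]⟩
    have hr := G_SB_ratio hc0 (y := π / 6) (by linarith [hc1.2]) (by linarith)
    rw [sin_pi_div_six] at hr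
    have hr2 : c / sin c ≤ π / 3 := by
      rw [div_le_iff₀ hsc]
      linarith
    have hneg : 2 * cos c * (c / sin c - π / 3) ≤ 0 :=
      mul_nonpos_of_nonneg_of_nonpos (by positivity) (by linarith)
    have hlt' : 0 < α - ε := by linarith
    rw [hc2, div_le_iff₀ hlt'] at hneg
    linarith
  have hb : ∀ ε : ℝ, 0 < ε → ε ≤ α → G_SB_h ε ≤ 2 * lob ε - 2 * π / 3 * sin ε := by
    intro ε he hea
    have hs1 : sin ε ≤ sin (π / 6) :=
      sin_le_sin_of_le_of_le_pi_div_two (by linarith) (by linarith) (by linarith)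
    rw [sin_pi_div_six] at hs1
    have hs0 : 0 < sin ε := sin_pos_of_pos_of_lt_pi he (by linarith)
    have hl : log (2 * sin ε) ≤ 0 := log_nonpos (by positivity) (by linarith)
    unfold G_SB_h
    nlinarith
  have hlim : Filter.Tendsto (fun ε : ℝ => 2 * lob ε - 2 * π / 3 * sin ε)
      (nhdsWithin 0 (Set.Ioi 0)) (nhds 0) := by
    have hc : Continuous (fun ε : ℝ => 2 * lob ε - 2 * π / 3 * sin ε) := by
      have := volA_lob_continuous
      fun_prop
    have h2 := hc.tendsto 0
    simp only [volA_lob_zero, sin_zero, mul_zero, sub_zero] at h2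
    exact h2.mono_left nhdsWithin_le_nhds
  refine ge_of_tendsto hlim ?_
  have hmem : Set.Ioo (0 : ℝ) α ∈ nhdsWithin (0 : ℝ) (Set.Ioi 0) :=
    Ioo_mem_nhdsGT h0
  filter_upwards [hmem] with ε he
  exact (hstep ε he.1 he.2.le).trans (hb ε he.1 he.2.le)

private theorem G_SB_h2 (hn : lob (π / 4) ≤ 0.459) : G_SB_h (π / 4) ≤ 0 := by
  unfold G_SB_h
  rw [sin_pi_div_four, show (2 : ℝ) * (√2 / 2) = √2 by ring, log_sqrt (by norm_num)]
  have h1 := log_two_lt_d9
  have h2 := pi_lt_d4
  have h3 := pi_gt_d4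
  have h4 : (1.4142 : ℝ) < √2 := by
    rw [show (1.4142 : ℝ) = √(1.4142 ^ 2) by rw [sqrt_sq (by norm_num)]]
    exact sqrt_lt_sqrt (by norm_num) (by norm_num)
  have h5 := log_two_gt_d9
  have h6 : π / 4 * log 2 ≤ 0.7854 * 0.6931471808 := by
    apply mul_le_mul _ h1.le (by linarith) (by norm_num)
    linarith
  have h7 : 3.1415 * 1.4142 ≤ π * √2 := by
    apply mul_le_mul h3.le h4.le (by norm_num) (by linarith)
  nlinarith

private theorem G_SB_h3 {α : ℝ} (h0 : π / 6 ≤ α) (h1 : α ≤ π / 4) (hn : lob (π / 4) ≤ 0.459) :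
    G_SB_h α ≤ 0 := by
  have hpi := pi_pos
  rcases h1.eq_or_lt with rfl | hlt
  · exact G_SB_h2 hn
  have hcont : ContinuousOn G_SB_h (Set.Icc α (π / 4)) := by
    intro y hy
    exact (G_SB_hD (by linarith [hy.1]) (by linarith [hy.2])).continuousAt.continuousWithinAt
  obtain ⟨c, hc1, hc2⟩ := exists_hasDerivAt_eq_slope G_SB_h
    (fun y => 2 * cos y * (y / sin y - π / 3)) hlt hcont
    (fun y hy => G_SB_hD (by linarith [hy.1]) (by linarith [hy.2]))
  have hc0 : 0 < c := by linarith [hc1.1]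
  have hsc : 0 < sin c := sin_pos_of_pos_of_lt_pi hc0 (by linarith [hc1.2])
  have hcc : 0 ≤ cos c := cos_nonneg_of_mem_Icc ⟨by linarith, by linarith [hc1.2]⟩
  have hr := G_SB_ratio (x := π / 6) (by positivity) (y := c) (by linarith [hc1.1])
    (by linarith [hc1.2])
  rw [sin_pi_div_six] at hr
  have hr2 : π / 3 ≤ c / sin c := by
    rw [le_div_iff₀ hsc]
    linarith
  have hpos : 0 ≤ 2 * cos c * (c / sin c - π / 3) :=
    mul_nonneg (by positivity) (by linarith)
  have hlt' : 0 < π / 4 - α := by linarith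
  rw [hc2, le_div_iff₀ hlt'] at hpos
  have := G_SB_h2 hn
  linarith

theorem SB_lin {w : ℝ} (hw : 0 < w) (hw2 : w ≤ √2) (hn : lob (π / 4) ≤ 0.459) :
    SB w (π / 3 * w) := by
  have hpi := pi_pos
  set α : ℝ := arcsin (w / 2) with hα
  have hs2 : √2 / 2 ≤ 1 := by
    have : √2 ≤ 2 := by
      rw [sqrt_le_left (by norm_num)]
      norm_num
    linarith
  have hsin : sin α = w / 2 := sin_arcsin (by linarith) (by linarith)
  have ha0 : 0 < α := arcsin_pos.2 (by linarith)
  have ha1 : α ≤ π / 4 := by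
    have h1 : arcsin (w / 2) ≤ arcsin (√2 / 2) := arcsin_le_arcsin (by linarith)
    have h2 : arcsin (√2 / 2) = π / 4 := by
      rw [← sin_pi_div_four, arcsin_sin (by linarith) (by linarith)]
    linarith
  have hw3 : 2 * sin α = w := by rw [hsin]; ring
  have h := G_SB_max ha0 (by linarith : α ≤ π / 2)
  rw [hw3] at h
  have hh : G_SB_h α ≤ 0 := by
    rcases le_total α (π / 6) with h1 | h1
    · exact G_SB_h1 ha0 h1
    · exact G_SB_h3 h1 ha1 hn
  unfold G_SB_h at hh
  rw [hw3, hsin] at hh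
  intro s r hs hr hsr
  have := h s r hs hr hsr
  linarith

theorem SB_mono {w C C' : ℝ} (h : SB w C) (hC : C ≤ C') : SB w C' :=
  fun s r h1 h2 h3 => (h s r h1 h2 h3).trans hC

theorem SB_chord {w w1 w2 C1 C2 θ : ℝ} (h1 : SB w1 C1) (h2 : SB w2 C2) (hθ0 : 0 ≤ θ) (hθ1 : θ ≤ 1)
    (hw : log w = (1 - θ) * log w1 + θ * log w2) : SB w ((1 - θ) * C1 + θ * C2) := by
  intro s r hs hr hsr
  have e1 := mul_le_mul_of_nonneg_left (h1 s r hs hr hsr) (by linarith : (0 : ℝ) ≤ 1 - θ)
  have e2 := mul_le_mul_of_nonneg_left (h2 s r hs hr hsr) hθ0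
  rw [hw]
  have e3 : vT s r + s * ((1 - θ) * log w1 + θ * log w2) =
      (1 - θ) * (vT s r + s * log w1) + θ * (vT s r + s * log w2) := by ring
  rw [e3]
  linarith

theorem SB_shift {w w' C : ℝ} (h : SB w C) (hw : log w ≤ log w') :
    SB w' (C + π * (log w' - log w)) := by
  intro s r hs hr hsr
  have e1 := h s r hs hr hsr
  have e2 : s * (log w' - log w) ≤ π * (log w' - log w) :=
    mul_le_mul_of_nonneg_right (by linarith) (by linarith)
  linarith

end Pool.Agent.H63.CLK
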