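import Pool.Agent.H63.CLK.G_Low
import Pool.Agent.H63.CLK.G_SB

/-!
# The generic vertices

By `T_le` with `μ = 1 / κ 1` and `Ph_ge_gen`, with `P = κ 0 / κ 1`, `Q = κ 2 / κ 1`, `ξ = κ 3 / κ 1`:
it suffices that
`4 lob (π/4) + 4 lob (π/12) + 6 lob (π/6) + 2 lob (π/3) + π/2 (log P + log Q) >
2 (C P + 2 lob (π/6) + C Q + C ξ)` for bounds `SB w (C w)`. Bounds:
* `C ξ = π/3 ξ` (`SB_lin`; `C 0 = 0`);
* for `4/9 ≤ w ≤ 1`: `C w = π/3 w`, and then `π/2 log w - 2π/3 w ≥ -2.2047` (concave in `w`; smallest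
  at `w = 4/9`, for `w ≥ 9/16` it is `≥ -2.095`, smallest at `w = 1`);
* for `1 ≤ w ≤ √3` (`25/16 < √3 < 16/9`): `SB_chord` between `1` and `√3`, so
  `C w = 2 lob (π/6) + θ (2 lob (π/3) + 2π/3 log √3 - 2 lob (π/6))`, `θ = log w / log √3`;
* for `√3 ≤ w ≤ 16/9`: `SB_shift`: `C w = 2 lob (π/3) + 2π/3 log √3 + π (log w - log √3)`.
One of `P`, `Q` is `≤ 1`. Numerically (with the constants of `G_Num`) the worst case is
`P = 16/9`, `Q = 4/9`, `ξ = 0`, margin `0.12`; in the second case (`ξ ≤ 0.172`) the margin is `> 0.1`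
(`π/2 log w - 2 C w ≥ -2.66` for `1 ≤ w ≤ 25/16`).
-/

set_option autoImplicit false

namespace Pool.Agent.H63.CLK

open Pool.Agent.H63.VC hiding ext
open Pool.Agent.H63.VC7 Real
open scoped BigOperators

private lemma l32 : 0.4054 ≤ log (3 / 2 : ℝ) ∧ log (3 / 2 : ℝ) ≤ 0.4055 := by
  have h1 := Real.sum_range_le_log_div (x := 1 / 5) (by norm_num) (by norm_num) 3
  have h2 := Real.log_div_le_sum_range_add (x := 1 / 5) (by norm_num) (by norm_num) 3
  rw [show ((1 : ℝ) + 1 / 5) / (1 - 1 / 5) = 3 / 2 by norm_num] at h1 h2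
  simp only [Finset.sum_range_succ, Finset.sum_range_zero] at h1 h2
  norm_num at h1 h2 ⊢
  constructor <;> linarith

private lemma l43 : log (4 / 3 : ℝ) ≤ 0.28769 := by
  have h2 := Real.log_div_le_sum_range_add (x := 1 / 7) (by norm_num) (by norm_num) 3
  rw [show ((1 : ℝ) + 1 / 7) / (1 - 1 / 7) = 4 / 3 by norm_num] at h2
  simp only [Finset.sum_range_succ, Finset.sum_range_zero] at h2
  norm_num at h2 ⊢
  linarith

private lemma l54 : log (5 / 4 : ℝ) ≤ 0.22315 := by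
  have h2 := Real.log_div_le_sum_range_add (x := 1 / 9) (by norm_num) (by norm_num) 3
  rw [show ((1 : ℝ) + 1 / 9) / (1 - 1 / 9) = 5 / 4 by norm_num] at h2
  simp only [Finset.sum_range_succ, Finset.sum_range_zero] at h2
  norm_num at h2 ⊢
  linarith

private lemma ls3 : 0.5492 ≤ log √3 ∧ log √3 ≤ 0.5494 := by
  have h : log √3 = (log (3 / 2) + log 2) / 2 := by
    rw [← log_mul (by norm_num) (by norm_num), show (3 / 2 * 2 : ℝ) = 3 by norm_num,
      Real.log_sqrt (by norm_num)]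
  have h1 := l32
  have h2 := Real.log_two_gt_d9
  have h3 := Real.log_two_lt_d9
  rw [h]
  constructor <;> linarith [h1.1, h1.2]

/-- The chord of the logarithm. -/
private lemma chord {u w : ℝ} (hu : 0 < u) (hu1 : u < 1) (h1 : u ≤ w) (h2 : w ≤ 1) :
    log u * (1 - w) / (1 - u) ≤ log w := by
  have hcc : ConcaveOn ℝ (Set.Ioi 0) log := strictConcaveOn_log_Ioi.concaveOn
  have ha : 0 ≤ (1 - w) / (1 - u) := div_nonneg (by linarith) (by linarith)
  have hb : 0 ≤ (w - u) / (1 - u) := div_nonneg (by linarith) (by linarith)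
  have hab : (1 - w) / (1 - u) + (w - u) / (1 - u) = 1 := by
    rw [← add_div, div_eq_one_iff_eq (by linarith)]; ring
  have hc := hcc.2 (Set.mem_Ioi.2 hu) (Set.mem_Ioi.2 one_pos) ha hb hab
  have e : (1 - w) / (1 - u) * u + (w - u) / (1 - u) * 1 = w := by
    have : (1 - u) ≠ 0 := by linarith
    field_simp
    ring
  simp only [smul_eq_mul, log_one, mul_zero, add_zero] at hc
  rw [e] at hc
  calc log u * (1 - w) / (1 - u) = (1 - w) / (1 - u) * log u := by ring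
    _ ≤ log w := hc

private lemma two_le_sqrt2 : (1 : ℝ) ≤ √2 := by
  rw [Real.one_le_sqrt]; norm_num

private lemma caseA1 {w : ℝ} (h1 : 4 / 9 ≤ w) (h2 : w ≤ 1) :
    ∃ C, SB w C ∧ -2.21 ≤ π / 2 * log w - 2 * C := by
  refine ⟨π / 3 * w, SB_lin (by linarith) (h2.trans two_le_sqrt2) lob45.2, ?_⟩
  have hc := chord (u := 4 / 9) (by norm_num) (by norm_num) h1 h2
  have hl : -0.811 ≤ log (4 / 9 : ℝ) := by
    have : log (4 / 9 : ℝ) = -2 * log (3 / 2) := by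
      rw [show (4 / 9 : ℝ) = ((3 / 2) ^ 2)⁻¹ by norm_num, log_inv, log_pow]; push_cast; ring
    rw [this]; linarith [l32.2]
  have h3 : -1.4598 * (1 - w) ≤ log w := by
    refine le_trans ?_ hc
    rw [le_div_iff₀ (by norm_num)]
    nlinarith
  have hp := pi_gt_d4
  have hp2 := pi_lt_d4
  have h4 : π / 2 * (-1.4598 * (1 - w)) ≤ π / 2 * log w :=
    mul_le_mul_of_nonneg_left h3 (by positivity)
  nlinarith

private lemma caseA2 {w : ℝ} (h1 : 9 / 16 ≤ w) (h2 : w ≤ 1) :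
    ∃ C, SB w C ∧ -2.095 ≤ π / 2 * log w - 2 * C := by
  refine ⟨π / 3 * w, SB_lin (by linarith) (h2.trans two_le_sqrt2) lob45.2, ?_⟩
  have hc := chord (u := 9 / 16) (by norm_num) (by norm_num) h1 h2
  have hl : -0.57538 ≤ log (9 / 16 : ℝ) := by
    have : log (9 / 16 : ℝ) = -2 * log (4 / 3) := by
      rw [show (9 / 16 : ℝ) = ((4 / 3) ^ 2)⁻¹ by norm_num, log_inv, log_pow]; push_cast; ring
    rw [this]; linarith [l43]
  have h3 : -1.3152 * (1 - w) ≤ log w := by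
    refine le_trans ?_ hc
    rw [le_div_iff₀ (by norm_num)]
    nlinarith
  have hp := pi_gt_d4
  have hp2 := pi_lt_d4
  have h4 : π / 2 * (-1.3152 * (1 - w)) ≤ π / 2 * log w :=
    mul_le_mul_of_nonneg_left h3 (by positivity)
  nlinarith

/-- The bound between `1` and `√3`. -/
private lemma caseB {w : ℝ} (h1 : 1 ≤ w) (h2 : log w ≤ log √3) :
    ∃ C, SB w C ∧ -2.032 - 1.395 * log w ≤ π / 2 * log w - 2 * C := by
  obtain ⟨hs1, hs2⟩ := ls3
  have hs : 0 < log √3 := by linarith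
  have hx : 0 ≤ log w := log_nonneg h1
  set θ := log w / log √3 with hθ
  have hθ0 : 0 ≤ θ := div_nonneg hx hs.le
  have hθ1 : θ ≤ 1 := (div_le_one hs).2 h2
  have hθx : θ * log √3 = log w := div_mul_cancel₀ _ hs.ne'
  refine ⟨_, SB_chord SB_one SB_sqrt3 hθ0 hθ1 (by rw [log_one, hθx]; ring), ?_⟩
  have e : (1 - θ) * (2 * lob (π / 6)) + θ * (2 * lob (π / 3) + 2 * π / 3 * log √3) =
      2 * lob (π / 6) - θ * (2 * (lob (π / 6) - lob (π / 3))) + 2 * π / 3 * log w := by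
    rw [← hθx]; ring
  rw [e]
  have a1 := lob30
  have a2 := lob60
  have hp := pi_gt_d4
  have hp2 := pi_lt_d4
  have h3 : θ * 0.336 ≤ θ * (2 * (lob (π / 6) - lob (π / 3))) :=
    mul_le_mul_of_nonneg_left (by linarith [a1.1, a2.2]) hθ0
  have h4 : 1.82 * log w ≤ θ := by
    rw [hθ, le_div_iff₀ hs]; nlinarith
  have h5 : π * log w ≤ 3.1416 * log w := mul_le_mul_of_nonneg_right hp2.le hx
  nlinarith [a1.2]

private lemma caseB1 {w : ℝ} (h1 : 1 ≤ w) (h2 : w ≤ 25 / 16) :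
    ∃ C, SB w C ∧ -2.66 ≤ π / 2 * log w - 2 * C := by
  have hl : log w ≤ 0.4463 := by
    have : log (25 / 16 : ℝ) = 2 * log (5 / 4) := by
      rw [show (25 / 16 : ℝ) = (5 / 4) ^ 2 by norm_num, log_pow]; push_cast; ring
    have h := log_le_log (by linarith) h2
    rw [this] at h; linarith [l54]
  obtain ⟨C, hC, h⟩ := caseB h1 (by linarith [ls3.1])
  exact ⟨C, hC, by linarith⟩

private lemma caseB2 {w : ℝ} (h1 : 1 ≤ w) (h2 : w ≤ 16 / 9) :
    ∃ C, SB w C ∧ -2.93 ≤ π / 2 * log w - 2 * C := by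
  have hl : log w ≤ 0.57538 := by
    have : log (16 / 9 : ℝ) = 2 * log (4 / 3) := by
      rw [show (16 / 9 : ℝ) = (4 / 3) ^ 2 by norm_num, log_pow]; push_cast; ring
    have h := log_le_log (by linarith) h2
    rw [this] at h; linarith [l43]
  by_cases hw : log w ≤ log √3
  · obtain ⟨C, hC, h⟩ := caseB h1 hw
    exact ⟨C, hC, by linarith [ls3.2]⟩
  · push Not at hw
    refine ⟨_, SB_shift SB_sqrt3 hw.le, ?_⟩
    obtain ⟨hs1, hs2⟩ := ls3
    have a2 := lob60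
    have hp := pi_gt_d4
    have hp2 := pi_lt_d4
    have e : π / 2 * log w - 2 * (2 * lob (π / 3) + 2 * π / 3 * log √3 + π * (log w - log √3)) =
      -(4 * lob (π / 3)) + π * (2 / 3 * log √3 - 3 / 2 * log w) := by ring
    rw [e]
    have h3 : π * (2 / 3 * 0.5492 - 3 / 2 * 0.57538) ≤ π * (2 / 3 * log √3 - 3 / 2 * log w) :=
      mul_le_mul_of_nonneg_left (by linarith) pi_pos.le
    nlinarith [a2.2]

theorem gen_lt {κ : Fin 4 → ℝ} {a : ℝ} {s : Fin 4 → ℝ} (h1 : 0 < κ 1) (h3 : 0 ≤ κ 3)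
    (hc : (κ 3 = 0 ∧ 4 / 9 * κ 1 ≤ κ 0 ∧ κ 0 ≤ 16 / 9 * κ 1 ∧ 4 / 9 * κ 1 ≤ κ 2 ∧
        κ 2 ≤ 16 / 9 * κ 1) ∨
      (κ 3 ≤ 0.172 * κ 1 ∧ 9 / 16 * κ 1 ≤ κ 0 ∧ κ 0 ≤ 25 / 16 * κ 1 ∧ 9 / 16 * κ 1 ≤ κ 2 ∧
        κ 2 ≤ 25 / 16 * κ 1))
    (hm : κ 0 ≤ κ 1 ∨ κ 2 ≤ κ 1) (h : LP a s) (hs : κ 3 = 0 → s 3 = 0) :
    Bv a s + linG κ s < Ph κ := by
  have h0 : 0 < κ 0 := by rcases hc with hc | hc <;> nlinarith [hc.2.1]
  have h2 : 0 < κ 2 := by rcases hc with hc | hc <;> nlinarith [hc.2.2.2.1]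
  have hμ : 0 < (κ 1)⁻¹ := inv_pos.2 h1
  -- the two ratios
  have key : ∃ CP CQ, SB (κ 0 * (κ 1)⁻¹) CP ∧ SB (κ 2 * (κ 1)⁻¹) CQ ∧
      2 * (π / 3 * (κ 3 * (κ 1)⁻¹)) - 5.242 <
        π / 2 * log (κ 0 * (κ 1)⁻¹) - 2 * CP + (π / 2 * log (κ 2 * (κ 1)⁻¹) - 2 * CQ) := by
    have q : ∀ x c : ℝ, c * κ 1 ≤ x → c ≤ x * (κ 1)⁻¹ := fun x c hx => by
      rw [← div_eq_mul_inv, le_div_iff₀ h1]; exact hx
    have q' : ∀ x c : ℝ, x ≤ c * κ 1 → x * (κ 1)⁻¹ ≤ c := fun x c hx => by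
      rw [← div_eq_mul_inv, div_le_iff₀ h1]; exact hx
    have hp := pi_gt_d4
    have hp2 := pi_lt_d4
    rcases hc with ⟨e3, c1, c2, c3, c4⟩ | ⟨e3, c1, c2, c3, c4⟩
    · rw [e3, zero_mul, mul_zero, mul_zero]
      have g : ∀ x, 4 / 9 * κ 1 ≤ x → x ≤ 16 / 9 * κ 1 →
          ∃ C, SB (x * (κ 1)⁻¹) C ∧ -2.93 ≤ π / 2 * log (x * (κ 1)⁻¹) - 2 * C := by
        intro x hx1 hx2
        rcases le_total (x * (κ 1)⁻¹) 1 with hx | hx
        · obtain ⟨C, hC, h⟩ := caseA1 (q x _ hx1) hx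
          exact ⟨C, hC, by linarith⟩
        · exact caseB2 hx (q' x _ hx2)
      rcases hm with hm | hm
      · obtain ⟨C, hC, h⟩ := caseA1 (q _ _ c1) (q' _ 1 (by linarith))
        obtain ⟨C', hC', h'⟩ := g _ c3 c4
        exact ⟨C, C', hC, hC', by linarith⟩
      · obtain ⟨C, hC, h⟩ := caseA1 (q _ _ c3) (q' _ 1 (by linarith))
        obtain ⟨C', hC', h'⟩ := g _ c1 c2
        exact ⟨C', C, hC', hC, by linarith⟩
    · have hξ : π / 3 * (κ 3 * (κ 1)⁻¹) ≤ 1.0472 * 0.172 := by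
        have := q' _ _ e3
        have hn : 0 ≤ κ 3 * (κ 1)⁻¹ := mul_nonneg h3 hμ.le
        exact mul_le_mul (by linarith) this hn (by norm_num)
      have g : ∀ x, 9 / 16 * κ 1 ≤ x → x ≤ 25 / 16 * κ 1 →
          ∃ C, SB (x * (κ 1)⁻¹) C ∧ -2.66 ≤ π / 2 * log (x * (κ 1)⁻¹) - 2 * C := by
        intro x hx1 hx2
        rcases le_total (x * (κ 1)⁻¹) 1 with hx | hx
        · obtain ⟨C, hC, h⟩ := caseA2 (q x _ hx1) hx
          exact ⟨C, hC, by linarith⟩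
        · exact caseB1 hx (q' x _ hx2)
      rcases hm with hm | hm
      · obtain ⟨C, hC, h⟩ := caseA2 (q _ _ c1) (q' _ 1 (by linarith))
        obtain ⟨C', hC', h'⟩ := g _ c3 c4
        exact ⟨C, C', hC, hC', by linarith⟩
      · obtain ⟨C, hC, h⟩ := caseA2 (q _ _ c3) (q' _ 1 (by linarith))
        obtain ⟨C', hC', h'⟩ := g _ c1 c2
        exact ⟨C', C, hC', hC, by linarith⟩
  obtain ⟨CP, CQ, hP, hQ, hlt⟩ := key
  have hξ2 : κ 3 * (κ 1)⁻¹ ≤ 0.172 := by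
    rcases hc with hc | hc
    · rw [hc.1, zero_mul]; norm_num
    · rw [← div_eq_mul_inv, div_le_iff₀ h1]; exact hc.1
  have hT := T_le (κ := κ) (s := s) (a := a) hμ
    (C := ![CP, 2 * lob (π / 6), CQ, π / 3 * (κ 3 * (κ 1)⁻¹)]) (by
      intro k; fin_cases k
      · exact h0.le
      · exact h1.le
      · exact h2.le
      · exact h3) (by
      intro k hk; fin_cases k
      · exact hP
      · show SB (κ 1 * (κ 1)⁻¹) (2 * lob (π / 6))
        rw [mul_inv_cancel₀ h1.ne']; exact SB_one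
      · exact hQ
      · have hk' : 0 < κ 3 := hk
        have hr : κ 3 * (κ 1)⁻¹ ≤ √2 := by linarith [two_le_sqrt2]
        exact SB_lin (mul_pos hk' hμ) hr lob45.2) (by
      intro k hk; fin_cases k
      · exact absurd hk h0.ne'
      · exact absurd hk h1.ne'
      · exact absurd hk h2.ne'
      · show π / 3 * (κ 3 * (κ 1)⁻¹) = 0
        have : κ 3 = 0 := hk
        rw [this]; ring) h (by
      intro k hk; fin_cases k
      · exact absurd hk h0.ne'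
      · exact absurd hk h1.ne'
      · exact absurd hk h2.ne'
      · exact hs hk)
  have hL := Ph_ge_gen h0 h1 h2 h3
  rw [Fin.sum_univ_four] at hT
  simp only [Matrix.cons_val_zero, Matrix.cons_val_one, Matrix.cons_val, log_inv] at hT
  rw [log_mul h0.ne' hμ.ne', log_mul h2.ne' hμ.ne', log_inv] at hlt
  have a0 := lob15
  have a1 := lob30
  have a2 := lob60
  have a3 := lob45
  nlinarith [a1.1, a1.2, a2.1, a3.1]

end Pool.Agent.H63.CLK
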