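import Pool.Agent.H63.CLK.G_Aj

/-!
# The maximum lies in the interior of the polytope

`N = 2 n`, `α = arctan (2c)`. The vertex sums are `sst_sum` (or trivial at the two ends). The face
`G_j` (`1 ≤ j ≤ N - 1`) is at the top of the vertex `j - 2` (of `N - 1` for `j = 1`), at a side of the
vertex `j - 1`, and at the bottom of the vertex `j`. In terms of the triangles of the circle packing,
its angles are `arctan (a_j/a_{j+1}) + arctan (a_j/a_{j-1})` from the triangles
`(G_j, G_{j±1}, line)`, and `arctan (a_j^2/(a_j a_{j+1} + 1/c)) + arctan (a_j^2/(a_j a_{j-1} + 1/c))`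
from the triangles `(G_j, G_{j±1}, X')`; the tangents of the two sums are `-2 c a_j^2` and `2 c a_j^2`
(`aj_add`, `aj_mul`), so the total is `π`. At the ends (`j ≤ 2` or `j ≥ N - 2`) some of the angles
come from the vertices `0`, `N - 2` (where `sB` is given by `α`) and `N - 1` (curvatures
`(1, 1/c^2, 1, 0)`, `e1 = e2 = 1/c`, so the angles `arctan c`, `2 arctan (1/c)`, `arctan c`, `0`).
The face `3` is on the right of the odd vertices: `arctan (1/c^2/(a_j a_{j+1} + 1/c)) = φ_j - φ_{j+1}`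
with `φ_j = arctan (sin (π/N) cot (π j/N))`, so the sum over the odd vertices `j ≤ N - 3` is
`φ_1 - φ_{N-1} = 2 arctan c`, and the vertex `N - 1` gives `2 arctan (1/c) = π - 2 arctan c`.
-/

set_option autoImplicit false

namespace Pool.Agent.H63.CLK

open Pool.Agent.H63.VC hiding ext
open Pool.Agent.H63.VC7 Real
open scoped BigOperators

variable {n : ℕ}


private theorem G_Int_ev (n : ℕ) : Even (2 * n) := ⟨n, by ring⟩

theorem gf_mem (hn : 3 ≤ n) {j : ℕ} (hj : j ≤ 2 * n + 1) :
    gf (2 * n) j ∈ FB n ↔ j ≠ 0 ∧ j ≠ 2 * n := by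
  unfold gf FB
  rw [Finset.mem_Icc]
  split_ifs <;> omega

private theorem G_Int_zero_mem (n : ℕ) : (0 : ℕ) ∉ FB n := by
  unfold FB
  rw [Finset.mem_Icc]
  omega

private theorem G_Int_three_mem (hn : 3 ≤ n) : (3 : ℕ) ∈ FB n := by
  unfold FB
  rw [Finset.mem_Icc]
  omega

private theorem G_Int_cE {N v : ℕ} (h : v % 2 = 0) :
    corN N v = ![gf N (v + 2), gf N (v + 1), gf N v, 0] := if_pos h

private theorem G_Int_cO {N v : ℕ} (h : v % 2 = 1) :
    corN N v = ![gf N (v + 2), 3, gf N v, gf N (v + 1)] := if_neg (by omega)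

/-- The corners which belong to the outer faces. -/
private theorem G_Int_out (hn : 3 ≤ n) {v : ℕ} (hv : v < 2 * n) (k : Fin 4) :
    corN (2 * n) v k ∉ FB n ↔ (k = 0 ∧ v + 2 = 2 * n) ∨ (k = 2 ∧ v = 0) ∨
      (k = 3 ∧ (v % 2 = 0 ∨ v + 1 = 2 * n)) := by
  rcases Nat.mod_two_eq_zero_or_one v with h | h
  · rw [G_Int_cE h]
    fin_cases k
    · change gf (2 * n) (v + 2) ∉ FB n ↔ _
      rw [gf_mem hn (by omega)]
      simp
    · change gf (2 * n) (v + 1) ∉ FB n ↔ _
      rw [gf_mem hn (by omega)]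
      simp
      omega
    · change gf (2 * n) v ∉ FB n ↔ _
      rw [gf_mem hn (by omega)]
      simp
      omega
    · change (0 : ℕ) ∉ FB n ↔ _
      simp [G_Int_zero_mem, h]
  · rw [G_Int_cO h]
    fin_cases k
    · change gf (2 * n) (v + 2) ∉ FB n ↔ _
      rw [gf_mem hn (by omega)]
      simp
    · change (3 : ℕ) ∉ FB n ↔ _
      simp [G_Int_three_mem hn]
    · change gf (2 * n) v ∉ FB n ↔ _
      rw [gf_mem hn (by omega)]
      simp
      omega
    · change gf (2 * n) (v + 1) ∉ FB n ↔ _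
      rw [gf_mem hn (by omega)]
      simp
      omega

/-- The end vertices. -/
theorem isEnd_iff (hn : 3 ≤ n) (v : Fin (2 * n)) :
    IsEnd (FB n) (corB n) v ↔ (v : ℕ) = 0 ∨ (v : ℕ) + 2 = 2 * n := by
  have hv := v.2
  unfold IsEnd corB
  constructor
  · rintro ⟨k, h1, h2⟩
    rw [G_Int_out hn hv] at h1 h2
    fin_cases k
    · simp at h1 h2
    · simp at h1
    · simp at h1 h2
      omega
    · simp at h1 h2
      omega
  · rintro (h | h)
    · refine ⟨2, ?_, ?_⟩
      · rw [G_Int_out hn hv]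
        simp [h]
      · rw [G_Int_out hn hv]
        simp [h]
    · refine ⟨3, ?_, ?_⟩
      · rw [G_Int_out hn hv]
        right
        right
        exact ⟨rfl, Or.inl (by omega)⟩
      · rw [G_Int_out hn hv]
        left
        exact ⟨rfl, h⟩


/-! ### The values of `sB` -/

private theorem G_Int_sB0 (N : ℕ) :
    sB N 0 = ![arctan (2 * cN N), π - arctan (2 * cN N), 0, 0] := if_pos rfl

private theorem G_Int_sBL {N v : ℕ} (h0 : v ≠ 0) (h : v + 2 = N) :
    sB N v = ![0, π - arctan (2 * cN N), arctan (2 * cN N), 0] := by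
  unfold sB
  rw [if_neg h0, if_pos h]

private theorem G_Int_sBG {N v : ℕ} (h0 : v ≠ 0) (h : v + 2 ≠ N) :
    sB N v = sst (kv N v) := by
  unfold sB
  rw [if_neg h0, if_neg h]

section
variable {N : ℕ} (hN : 6 ≤ N) (he : Even N)

include hN he

/-- even vertices, top -/
private theorem G_Int_eT {v : ℕ} (hv : v % 2 = 0) (h : v + 2 < N) :
    sB N v 0 = arctan (aj N (v + 2) / aj N (v + 1)) := by
  by_cases h0 : v = 0
  · subst h0
    rw [G_Int_sB0]
    change arctan (2 * cN N) = arctan (aj N 2 / aj N 1)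
    rw [aj_two hN, aj_one hN, div_one]
  · rw [G_Int_sBG h0 (by omega)]
    have h1 := e1_even hN he hv (by omega) h
    change arctan (kv N v 0 / e1 (kv N v)) = _
    rw [h1.1, kv_even hN he hv (by omega)]
    change arctan (aj N (v + 2) ^ 2 / (aj N (v + 2) * aj N (v + 1))) = _
    have p1 := aj_pos hN (j := v + 2) (by omega) h
    have p2 := aj_pos hN (j := v + 1) (by omega) (by omega)
    congr 1
    field_simp

/-- even vertices, bottom -/
private theorem G_Int_eB {v : ℕ} (hv : v % 2 = 0) (h0 : 0 < v) (h : v < N) :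
    sB N v 2 = arctan (aj N v / aj N (v + 1)) := by
  by_cases hL : v + 2 = N
  · rw [G_Int_sBL (by omega) hL]
    change arctan (2 * cN N) = _
    have e1 : aj N v = 2 * cN N := by
      rw [← aj_symm hN (by omega), show N - v = 2 by omega, aj_two hN]
    have e2 : aj N (v + 1) = 1 := by
      rw [← aj_symm hN (by omega), show N - (v + 1) = 1 by omega, aj_one hN]
    rw [e1, e2, div_one]
  · have hodd : v + 1 ≠ N := by
      intro h1
      rw [Nat.even_iff] at he
      omega
    rw [G_Int_sBG (by omega) hL]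
    have h1 := e1_even hN he hv h0 (by omega)
    change arctan (kv N v 2 / e2 (kv N v)) = _
    rw [h1.2, kv_even hN he hv (by omega)]
    change arctan (aj N v ^ 2 / (aj N v * aj N (v + 1))) = _
    have p1 := aj_pos hN (j := v) (by omega) h
    have p2 := aj_pos hN (j := v + 1) (by omega) (by omega)
    congr 1
    field_simp

/-- even vertices, side -/
private theorem G_Int_eS {v : ℕ} (hv : v % 2 = 0) (h0 : 0 < v) (h : v + 2 < N) :
    sB N v 1 = arctan (aj N (v + 1) / aj N (v + 2)) + arctan (aj N (v + 1) / aj N v) := by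
  rw [G_Int_sBG (by omega) (by omega)]
  have h1 := e1_even hN he hv h0 h
  change arctan (kv N v 1 / e1 (kv N v)) + arctan (kv N v 1 / e2 (kv N v)) = _
  rw [h1.1, h1.2, kv_even hN he hv (by omega)]
  change arctan (aj N (v + 1) ^ 2 / (aj N (v + 2) * aj N (v + 1))) +
    arctan (aj N (v + 1) ^ 2 / (aj N v * aj N (v + 1))) = _
  have p1 := aj_pos hN (j := v) (by omega) (by omega)
  have p2 := aj_pos hN (j := v + 1) (by omega) (by omega)
  have p3 := aj_pos hN (j := v + 2) (by omega) h
  congr 2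
  · field_simp
  · field_simp

/-- odd vertices -/
private theorem G_Int_o {v : ℕ} (hv : v % 2 = 1) (h : v + 1 < N) :
    sB N v 0 = arctan (aj N (v + 2) ^ 2 / (aj N (v + 2) * aj N (v + 1) + 1 / cN N)) ∧
    sB N v 1 = arctan (1 / cN N ^ 2 / (aj N (v + 2) * aj N (v + 1) + 1 / cN N)) +
      arctan (1 / cN N ^ 2 / (aj N v * aj N (v + 1) + 1 / cN N)) ∧
    sB N v 2 = arctan (aj N v ^ 2 / (aj N v * aj N (v + 1) + 1 / cN N)) ∧
    sB N v 3 = arctan (aj N (v + 1) ^ 2 / (aj N (v + 2) * aj N (v + 1) + 1 / cN N)) +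
      arctan (aj N (v + 1) ^ 2 / (aj N v * aj N (v + 1) + 1 / cN N)) := by
  have hpar : v + 2 ≠ N := by
    intro h1
    rw [Nat.even_iff] at he
    omega
  rw [G_Int_sBG (by omega) hpar]
  have h1 := e1_odd hN he hv h
  have h2 := kv_odd hN he hv h
  refine ⟨?_, ?_, ?_, ?_⟩
  · change arctan (kv N v 0 / e1 (kv N v)) = _
    rw [h1.1, h2]
    rfl
  · change arctan (kv N v 1 / e1 (kv N v)) + arctan (kv N v 1 / e2 (kv N v)) = _
    rw [h1.1, h1.2, h2]
    rfl
  · change arctan (kv N v 2 / e2 (kv N v)) = _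
    rw [h1.2, h2]
    rfl
  · change arctan (kv N v 3 / e1 (kv N v)) + arctan (kv N v 3 / e2 (kv N v)) = _
    rw [h1.1, h1.2, h2]
    rfl

/-- the last vertex -/
private theorem G_Int_l :
    sB N (N - 1) 0 = arctan (cN N) ∧ sB N (N - 1) 1 = π - 2 * arctan (cN N) ∧
    sB N (N - 1) 2 = arctan (cN N) ∧ sB N (N - 1) 3 = 0 := by
  have hc := cN_pos hN
  rw [G_Int_sBG (by omega) (by omega)]
  have h1 := e1_last hN he
  have h2 := kv_last hN he
  have h3 : arctan (1 / cN N) = π / 2 - arctan (cN N) := by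
    rw [one_div, arctan_inv_of_pos hc]
  refine ⟨?_, ?_, ?_, ?_⟩
  · change arctan (kv N (N - 1) 0 / e1 (kv N (N - 1))) = _
    rw [h1.1, h2]
    change arctan (1 / (1 / cN N)) = _
    rw [one_div_one_div]
  · change arctan (kv N (N - 1) 1 / e1 (kv N (N - 1))) +
      arctan (kv N (N - 1) 1 / e2 (kv N (N - 1))) = _
    rw [h1.1, h1.2, h2]
    change arctan (1 / cN N ^ 2 / (1 / cN N)) + arctan (1 / cN N ^ 2 / (1 / cN N)) = _
    have h4 : 1 / cN N ^ 2 / (1 / cN N) = 1 / cN N := by
      field_simp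
    rw [h4, h3]
    ring
  · change arctan (kv N (N - 1) 2 / e2 (kv N (N - 1))) = _
    rw [h1.2, h2]
    change arctan (1 / (1 / cN N)) = _
    rw [one_div_one_div]
  · rw [sst_three]
    rw [h2]
    rfl

omit he in
/-- the angles of the face `G_j` at the left and right neighbours -/
private theorem G_Int_M {j : ℕ} (h1 : 1 ≤ j) (h2 : j + 2 < N) :
    arctan (aj N (j + 1) / aj N j) + arctan (aj N (j + 1) / aj N (j + 2)) +
      (arctan (aj N (j + 1) ^ 2 / (aj N (j + 2) * aj N (j + 1) + 1 / cN N)) +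
        arctan (aj N (j + 1) ^ 2 / (aj N j * aj N (j + 1) + 1 / cN N))) = π := by
  have pd := aj_pos hN (j := j) (by omega) (by omega)
  have pa := aj_pos hN (j := j + 1) (by omega) (by omega)
  have pb := aj_pos hN (j := j + 2) (by omega) (by omega)
  have hc := cN_pos hN
  have hadd := aj_add (N := N) j
  have hmul := aj_mul hN j
  set d := aj N j
  set a := aj N (j + 1)
  set b := aj N (j + 2)
  set c := cN N
  have e1 : arctan (a / d) = π / 2 - arctan (d / a) := by
    rw [← arctan_inv_of_pos (div_pos pd pa), inv_div]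
  have e2 : arctan (a / b) = π / 2 - arctan (b / a) := by
    rw [← arctan_inv_of_pos (div_pos pb pa), inv_div]
  have e3 : arctan (d / a) + arctan (b / a) = arctan (2 * c * a ^ 2) := by
    have h3 : d / a * (b / a) = 1 - 1 / a ^ 2 := by
      rw [div_mul_div_comm, hmul]
      field_simp
    rw [arctan_add (by rw [h3]; have : 0 < 1 / a ^ 2 := by positivity
                       linarith), h3]
    congr 1
    rw [← add_div, hadd]
    field_simp
    ring
  have q1 : 0 < b * a + 1 / c := by positivity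
  have q2 : 0 < d * a + 1 / c := by positivity
  have h4 : (b * a + 1 / c) * (d * a + 1 / c) = a ^ 4 + a ^ 2 + 1 / c ^ 2 := by
    have : (b * a + 1 / c) * (d * a + 1 / c) = a ^ 2 * (d * b) + a / c * (d + b) + 1 / c ^ 2 := by
      field_simp
      ring
    rw [this, hadd, hmul]
    field_simp
    ring
  have q3 : 0 < a ^ 4 + a ^ 2 + 1 / c ^ 2 := by positivity
  have h5 : a ^ 2 / (b * a + 1 / c) * (a ^ 2 / (d * a + 1 / c)) =
      a ^ 4 / (a ^ 4 + a ^ 2 + 1 / c ^ 2) := by
    rw [div_mul_div_comm, h4]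
    congr 1
    ring
  have h6 : a ^ 2 / (b * a + 1 / c) + a ^ 2 / (d * a + 1 / c) =
      2 * c * a ^ 2 * (a ^ 2 + 1 / c ^ 2) / (a ^ 4 + a ^ 2 + 1 / c ^ 2) := by
    rw [div_add_div _ _ q1.ne' q2.ne', h4]
    congr 1
    have : a ^ 2 * (d * a + 1 / c) + (b * a + 1 / c) * a ^ 2 =
        a ^ 2 * (a * (d + b) + 2 / c) := by ring
    rw [this, hadd]
    field_simp
  have h7 : 1 - a ^ 4 / (a ^ 4 + a ^ 2 + 1 / c ^ 2) =
      (a ^ 2 + 1 / c ^ 2) / (a ^ 4 + a ^ 2 + 1 / c ^ 2) := by
    rw [eq_div_iff q3.ne', sub_mul, div_mul_cancel₀ _ q3.ne']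
    ring
  have q4 : 0 < a ^ 2 + 1 / c ^ 2 := by positivity
  have e4 : arctan (a ^ 2 / (b * a + 1 / c)) + arctan (a ^ 2 / (d * a + 1 / c)) =
      arctan (2 * c * a ^ 2) := by
    rw [arctan_add, h5, h6, h7]
    · congr 1
      rw [div_div_div_cancel_right₀ q3.ne', mul_div_assoc, div_self q4.ne', mul_one]
    · rw [h5, div_lt_one q3]
      linarith
  rw [e1, e2, e4, ← e3]
  ring

omit he in
/-- the two ends -/
private theorem G_Int_E :
    arctan (cN N) + (π - arctan (2 * cN N)) + arctan (1 / (2 * cN N + 1 / cN N)) = π := by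
  have hc := cN_pos hN
  have h1 : arctan (cN N) + arctan (1 / (2 * cN N + 1 / cN N)) = arctan (2 * cN N) := by
    have h2 : 1 / (2 * cN N + 1 / cN N) = cN N / (2 * cN N ^ 2 + 1) := by
      field_simp
    rw [h2]
    have h3 : cN N * (cN N / (2 * cN N ^ 2 + 1)) = cN N ^ 2 / (2 * cN N ^ 2 + 1) := by ring
    have h4 : 0 < 2 * cN N ^ 2 + 1 := by positivity
    rw [arctan_add, h3]
    · congr 1
      have h5 : cN N + cN N / (2 * cN N ^ 2 + 1) =
          2 * cN N * (cN N ^ 2 + 1) / (2 * cN N ^ 2 + 1) := by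
        field_simp
        ring
      have h6 : 1 - cN N ^ 2 / (2 * cN N ^ 2 + 1) = (cN N ^ 2 + 1) / (2 * cN N ^ 2 + 1) := by
        field_simp
        ring
      rw [h5, h6, div_div_div_cancel_right₀ h4.ne', mul_div_assoc, div_self (by positivity),
        mul_one]
    · rw [h3, div_lt_one h4]
      nlinarith [sq_nonneg (cN N)]
  rw [← h1]
  ring

omit he in
/-- the angles of the face `3` telescope -/
private theorem G_Int_P {j : ℕ} (h1 : 1 ≤ j) (h2 : j + 1 < N) :
    arctan (1 / cN N ^ 2 / (aj N (j + 1) * aj N j + 1 / cN N)) =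
      arctan (aj N (j + 1) / aj N j - cN N) - arctan (aj N (j + 2) / aj N (j + 1) - cN N) := by
  have pa := aj_pos hN (j := j) (by omega) (by omega)
  have pb := aj_pos hN (j := j + 1) (by omega) (by omega)
  have hc := cN_pos hN
  have hadd := aj_add (N := N) j
  have hsq := aj_sq hN j
  set a := aj N j
  set b := aj N (j + 1)
  set c := cN N
  have hb : aj N (j + 2) / b - c = c - a / b := by
    have : aj N (j + 2) = 2 * c * b - a := by linarith
    rw [this]
    field_simp
    ring
  rw [hb]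
  have e1 : (b / a - c) * -(c - a / b) = 1 - (c ^ 2 + c / (a * b)) := by
    have h3 : (b / a - c) * -(c - a / b) = 1 + c ^ 2 - c * ((a ^ 2 + b ^ 2) / (a * b)) := by
      field_simp
      ring
    rw [h3, hsq]
    field_simp
    ring
  have e2 : b / a - c + -(c - a / b) = 1 / (a * b) := by
    have h3 : b / a - c + -(c - a / b) = (a ^ 2 + b ^ 2) / (a * b) - 2 * c := by
      field_simp
      ring
    rw [h3, hsq]
    field_simp
    ring
  have q1 : 0 < c ^ 2 + c / (a * b) := by positivity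
  rw [sub_eq_add_neg (arctan _), ← arctan_neg, arctan_add (by rw [e1]; linarith), e1, e2]
  congr 1
  have q2 : 0 < a * b := by positivity
  have h4 : 1 - (1 - (c ^ 2 + c / (a * b))) = c ^ 2 + c / (a * b) := by ring
  rw [h4]
  field_simp

/-- the angle of the face `3` at an odd vertex -/
private theorem G_Int_T {v : ℕ} (hv : v % 2 = 1) (h : v + 1 < N) :
    sB N v 1 = arctan (aj N (v + 1) / aj N v - cN N) -
      arctan (aj N (v + 3) / aj N (v + 2) - cN N) := by
  have hpar : v + 2 < N := by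
    rcases Nat.lt_or_ge (v + 2) N with h1 | h1
    · exact h1
    · exfalso
      rw [Nat.even_iff] at he
      omega
  rw [(G_Int_o hN he hv h).2.1, G_Int_P hN (j := v + 1) (by omega) hpar,
    mul_comm (aj N v) (aj N (v + 1)), G_Int_P hN (j := v) (by omega) (by omega)]
  ring

omit he in
private theorem G_Int_gf3 (x : ℕ) : gf N x ≠ 3 := by
  unfold gf
  split_ifs <;> omega

omit he in
private theorem G_Int_gf_iff {i j : ℕ} (hj : 1 ≤ j) (hj' : j < N) (hi : i ≤ N + 1) :
    gf N i = gf N j ↔ i = j ∨ (j = 1 ∧ i = N + 1) := by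
  unfold gf
  split_ifs <;> omega

omit he in
private theorem G_Int_gf_ne {j : ℕ} (hj : 1 ≤ j) (hj' : j < N) :
    (0 : ℕ) ≠ gf N j ∧ 3 ≠ gf N j := by
  unfold gf
  split_ifs <;> omega

omit hN he in
private theorem G_Int_pair (g : ℕ → ℝ) (n : ℕ) : ∑ v ∈ Finset.range (2 * n), g v =
    ∑ i ∈ Finset.range n, (g (2 * i) + g (2 * i + 1)) := by
  induction n with
  | zero => simp
  | succ n ih =>
    rw [show 2 * (n + 1) = 2 * n + 1 + 1 by ring, Finset.sum_range_succ, Finset.sum_range_succ, ih,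
      Finset.sum_range_succ]
    ring

/-- the corners of the face `G_j` at the vertex `v` -/
private theorem G_Int_C {j : ℕ} (hj : 1 ≤ j) (hj' : j < N) {v : ℕ} (hv : v < N) :
    ∑ k, (if corN N v k = gf N j then sB N v k else 0) =
      (if v = (if j = 1 then N - 1 else j - 2) ∧ (j = 1 ∨ 2 ≤ j) then sB N v 0 else 0) +
      (if v = j - 1 then (if v % 2 = 0 then sB N v 1 else sB N v 3) else 0) +
      (if v = j then sB N v 2 else 0) := by
  rw [Fin.sum_univ_four]
  have n0 := (G_Int_gf_ne hN hj hj').1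
  have n3 := (G_Int_gf_ne hN hj hj').2
  have c0 : gf N (v + 2) = gf N j ↔ v = (if j = 1 then N - 1 else j - 2) ∧ (j = 1 ∨ 2 ≤ j) := by
    rw [G_Int_gf_iff hN hj hj' (by omega)]
    split_ifs <;> omega
  have c1 : gf N (v + 1) = gf N j ↔ v = j - 1 := by
    rw [G_Int_gf_iff hN hj hj' (by omega)]
    omega
  have c2 : gf N v = gf N j ↔ v = j := by
    rw [G_Int_gf_iff hN hj hj' (by omega)]
    omega
  rcases Nat.mod_two_eq_zero_or_one v with h | h
  · rw [G_Int_cE h]
    change (if gf N (v + 2) = gf N j then sB N v 0 else 0) +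
      (if gf N (v + 1) = gf N j then sB N v 1 else 0) +
      (if gf N v = gf N j then sB N v 2 else 0) +
      (if (0 : ℕ) = gf N j then sB N v 3 else 0) = _
    rw [if_neg n0, add_zero]
    simp only [c0, c1, c2, h, if_true]
  · rw [G_Int_cO h]
    change (if gf N (v + 2) = gf N j then sB N v 0 else 0) +
      (if (3 : ℕ) = gf N j then sB N v 1 else 0) +
      (if gf N v = gf N j then sB N v 2 else 0) +
      (if gf N (v + 1) = gf N j then sB N v 3 else 0) = _
    rw [if_neg n3, add_zero]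
    have h' : ¬ v % 2 = 0 := by omega
    simp only [c0, c1, c2, if_neg h']
    ring

/-- the three vertices of the face `G_j` -/
private theorem G_Int_S {j : ℕ} (hj : 1 ≤ j) (hj' : j < N) :
    ∑ v ∈ Finset.range N, ∑ k, (if corN N v k = gf N j then sB N v k else 0) =
      sB N (if j = 1 then N - 1 else j - 2) 0 +
      (if (j - 1) % 2 = 0 then sB N (j - 1) 1 else sB N (j - 1) 3) + sB N j 2 := by
  have h1 : ∀ v ∈ Finset.range N, ∑ k, (if corN N v k = gf N j then sB N v k else 0) =
      (if v = (if j = 1 then N - 1 else j - 2) then sB N v 0 else 0) +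
      (if v = j - 1 then (if v % 2 = 0 then sB N v 1 else sB N v 3) else 0) +
      (if v = j then sB N v 2 else 0) := by
    intro v hv
    rw [G_Int_C hN he hj hj' (Finset.mem_range.mp hv)]
    have h2 : (v = (if j = 1 then N - 1 else j - 2) ∧ (j = 1 ∨ 2 ≤ j)) ↔
        v = (if j = 1 then N - 1 else j - 2) := ⟨fun h => h.1, fun h => ⟨h, by omega⟩⟩
    simp only [h2]
  rw [Finset.sum_congr rfl h1, Finset.sum_add_distrib, Finset.sum_add_distrib,
    Finset.sum_ite_eq', Finset.sum_ite_eq', Finset.sum_ite_eq']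
  have m1 : (if j = 1 then N - 1 else j - 2) ∈ Finset.range N := by
    rw [Finset.mem_range]
    split_ifs <;> omega
  have m2 : j - 1 ∈ Finset.range N := Finset.mem_range.mpr (by omega)
  have m3 : j ∈ Finset.range N := Finset.mem_range.mpr hj'
  rw [if_pos m1, if_pos m2, if_pos m3]

private theorem G_Int_F {j : ℕ} (hj : 1 ≤ j) (hj' : j < N) :
    ∑ v ∈ Finset.range N, ∑ k, (if corN N v k = gf N j then sB N v k else 0) = π := by
  rw [G_Int_S hN he hj hj']
  have hpar := Nat.even_iff.mp he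
  by_cases h1 : j = 1
  · subst h1
    rw [if_pos rfl, if_pos rfl, (G_Int_l hN he).1, (G_Int_o hN he (v := 1) rfl (by omega)).2.2.1]
    change arctan (cN N) + sB N 0 1 + arctan (aj N 1 ^ 2 / (aj N 1 * aj N 2 + 1 / cN N)) = π
    rw [G_Int_sB0, aj_one hN, aj_two hN, one_mul, one_pow]
    exact G_Int_E hN
  by_cases h2 : j + 1 = N
  · have hjo : (j - 1) % 2 = 0 := by omega
    rw [if_neg h1, if_pos hjo]
    obtain ⟨i, rfl⟩ : ∃ i, j = i + 3 := ⟨j - 3, by omega⟩
    have e1 : aj N (i + 3) = 1 := by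
      rw [← aj_symm hN (by omega), show N - (i + 3) = 1 by omega, aj_one hN]
    have e2 : aj N (i + 2) = 2 * cN N := by
      rw [← aj_symm hN (by omega), show N - (i + 2) = 2 by omega, aj_two hN]
    have e3 : sB N (i + 3) 2 = arctan (cN N) := by
      rw [show i + 3 = N - 1 by omega]
      exact (G_Int_l hN he).2.2.1
    have e4 : sB N (i + 3 - 1) 1 = π - arctan (2 * cN N) := by
      rw [G_Int_sBL (by omega) (by omega)]
      rfl
    have e5 := (G_Int_o hN he (v := i + 1) (by omega) (by omega)).1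
    rw [show i + 1 + 2 = i + 3 by ring, show i + 1 + 1 = i + 2 by ring, e1, e2, one_mul,
      one_pow] at e5
    rw [show i + 3 - 2 = i + 1 by omega, e3, e4, e5]
    have := G_Int_E hN
    linarith
  · obtain ⟨i, rfl⟩ : ∃ i, j = i + 1 := ⟨j - 1, by omega⟩
    have hM := G_Int_M hN (j := i) (by omega) (by omega)
    rw [if_neg h1]
    rcases Nat.mod_two_eq_zero_or_one i with hi | hi
    · -- `j` odd
      rw [show i + 1 - 1 = i by omega, if_pos hi]
      obtain ⟨l, rfl⟩ : ∃ l, i = l + 1 := ⟨i - 1, by omega⟩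
      have e1 := (G_Int_o hN he (v := l) (by omega) (by omega)).1
      have e2 := G_Int_eS hN he (v := l + 1) hi (by omega) (by omega)
      have e3 := (G_Int_o hN he (v := l + 1 + 1) (by omega) (by omega)).2.2.1
      rw [show l + 1 + 1 - 2 = l by omega, e1, e2, e3]
      rw [mul_comm (aj N (l + 1 + 2))] at hM
      rw [mul_comm (aj N (l + 1))] at hM
      have c1 : l + 2 = l + 1 + 1 := rfl
      have c2 : l + 1 + 1 + 1 = l + 1 + 2 := rfl
      rw [c1, c2]
      linarith
    · -- `j` even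
      rw [show i + 1 - 1 = i by omega, if_neg (by omega)]
      obtain ⟨l, rfl⟩ : ∃ l, i = l + 1 := ⟨i - 1, by omega⟩
      have e1 := G_Int_eT hN he (v := l) (by omega) (by omega)
      have e2 := (G_Int_o hN he (v := l + 1) hi (by omega)).2.2.2
      have e3 := G_Int_eB hN he (v := l + 1 + 1) (by omega) (by omega) hj'
      rw [show l + 1 + 1 - 2 = l by omega, e1, e2, e3]
      have c1 : l + 2 = l + 1 + 1 := rfl
      have c2 : l + 1 + 1 + 1 = l + 1 + 2 := rfl
      rw [c1, c2]
      linarith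

end

theorem face_three (hn : 3 ≤ n) :
    ∑ v : Fin (2 * n), ∑ k, (if corB n v k = 3 then sB (2 * n) v k else 0) = π := by
  have hN : 6 ≤ 2 * n := by omega
  have he := G_Int_ev n
  have h0 : ∑ v : Fin (2 * n), ∑ k, (if corB n v k = 3 then sB (2 * n) v k else 0) =
      ∑ v ∈ Finset.range (2 * n),
        ∑ k, (if corN (2 * n) v k = 3 then sB (2 * n) v k else 0) :=
    Fin.sum_univ_eq_sum_range
      (fun v => ∑ k, (if corN (2 * n) v k = 3 then sB (2 * n) v k else 0)) (2 * n)
  rw [h0, G_Int_pair]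
  have h1 : ∀ i ∈ Finset.range n,
      (∑ k, (if corN (2 * n) (2 * i) k = 3 then sB (2 * n) (2 * i) k else 0)) +
      (∑ k, (if corN (2 * n) (2 * i + 1) k = 3 then sB (2 * n) (2 * i + 1) k else 0)) =
      sB (2 * n) (2 * i + 1) 1 := by
    intro i _
    rw [Fin.sum_univ_four, Fin.sum_univ_four, G_Int_cE (by omega), G_Int_cO (by omega)]
    change (if gf (2 * n) (2 * i + 2) = 3 then sB (2 * n) (2 * i) 0 else 0) +
      (if gf (2 * n) (2 * i + 1) = 3 then sB (2 * n) (2 * i) 1 else 0) +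
      (if gf (2 * n) (2 * i) = 3 then sB (2 * n) (2 * i) 2 else 0) +
      (if (0 : ℕ) = 3 then sB (2 * n) (2 * i) 3 else 0) +
      ((if gf (2 * n) (2 * i + 1 + 2) = 3 then sB (2 * n) (2 * i + 1) 0 else 0) +
      (if (3 : ℕ) = 3 then sB (2 * n) (2 * i + 1) 1 else 0) +
      (if gf (2 * n) (2 * i + 1) = 3 then sB (2 * n) (2 * i + 1) 2 else 0) +
      (if gf (2 * n) (2 * i + 1 + 1) = 3 then sB (2 * n) (2 * i + 1) 3 else 0)) = _
    rw [if_neg (G_Int_gf3 hN _), if_neg (G_Int_gf3 hN _), if_neg (G_Int_gf3 hN _),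
      if_neg (by norm_num), if_neg (G_Int_gf3 hN _), if_pos rfl, if_neg (G_Int_gf3 hN _),
      if_neg (G_Int_gf3 hN _)]
    ring
  rw [Finset.sum_congr rfl h1]
  obtain ⟨m, rfl⟩ : ∃ m, n = m + 1 := ⟨n - 1, by omega⟩
  rw [Finset.sum_range_succ]
  have h2 : ∀ i ∈ Finset.range m, sB (2 * (m + 1)) (2 * i + 1) 1 =
      (fun l : ℕ => arctan (aj (2 * (m + 1)) (2 * l + 2) / aj (2 * (m + 1)) (2 * l + 1) -
        cN (2 * (m + 1)))) i -
      (fun l : ℕ => arctan (aj (2 * (m + 1)) (2 * l + 2) / aj (2 * (m + 1)) (2 * l + 1) -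
        cN (2 * (m + 1)))) (i + 1) := by
    intro i hi
    rw [Finset.mem_range] at hi
    exact G_Int_T hN he (v := 2 * i + 1) (by omega) (by omega)
  rw [Finset.sum_congr rfl h2, Finset.sum_range_sub']
  have h3 := (G_Int_l hN he).2.1
  rw [show 2 * (m + 1) - 1 = 2 * m + 1 by omega] at h3
  rw [h3]
  have h4 : aj (2 * (m + 1)) (2 * 0 + 2) / aj (2 * (m + 1)) (2 * 0 + 1) - cN (2 * (m + 1)) =
      cN (2 * (m + 1)) := by
    change aj (2 * (m + 1)) 2 / aj (2 * (m + 1)) 1 - cN (2 * (m + 1)) = _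
    rw [aj_two hN, aj_one hN, div_one]
    ring
  have h5 : aj (2 * (m + 1)) (2 * m + 2) / aj (2 * (m + 1)) (2 * m + 1) - cN (2 * (m + 1)) =
      -cN (2 * (m + 1)) := by
    rw [show 2 * m + 2 = 2 * (m + 1) by ring, aj_N hN, zero_div, zero_sub]
  simp only [h4, h5]
  rw [arctan_neg]
  ring

theorem face_G (hn : 3 ≤ n) {j : ℕ} (hj : 1 ≤ j) (hj' : j < 2 * n) :
    ∑ v : Fin (2 * n), ∑ k, (if corB n v k = gf (2 * n) j then sB (2 * n) v k else 0) = π := by
  have hN : 6 ≤ 2 * n := by omega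
  have he := G_Int_ev n
  have h0 : ∑ v : Fin (2 * n), ∑ k, (if corB n v k = gf (2 * n) j then sB (2 * n) v k else 0) =
      ∑ v ∈ Finset.range (2 * n),
        ∑ k, (if corN (2 * n) v k = gf (2 * n) j then sB (2 * n) v k else 0) :=
    Fin.sum_univ_eq_sum_range
      (fun v => ∑ k, (if corN (2 * n) v k = gf (2 * n) j then sB (2 * n) v k else 0)) (2 * n)
  rw [h0]
  exact G_Int_F hN he hj hj'



/-! ### The polytope -/

private theorem G_Int_kap_pos {N : ℕ} (hN : 6 ≤ N) {f : ℕ} (h1 : 2 ≤ f) (h2 : f ≤ N + 1) :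
    0 < kapG N f := by
  have hc := cN_pos hN
  unfold kapG
  rw [if_neg (by omega)]
  split_ifs with h3 h4
  · norm_num
  · positivity
  · exact pow_pos (aj_pos hN (by omega) (by omega)) 2

/-- the curvatures at a vertex which is not an end -/
private theorem G_Int_kv {N v : ℕ} (hN : 6 ≤ N) (he : Even N) (h0 : v ≠ 0) (hL : v + 2 ≠ N)
    (hv : v < N) : 0 < kv N v 0 ∧ 0 < kv N v 1 ∧ 0 < kv N v 2 ∧ 0 ≤ kv N v 3 := by
  have hc := cN_pos hN
  have hpar := Nat.even_iff.mp he
  rcases Nat.mod_two_eq_zero_or_one v with h | h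
  · rw [kv_even hN he h hv]
    exact ⟨pow_pos (aj_pos hN (by omega) (by omega)) 2,
      pow_pos (aj_pos hN (by omega) (by omega)) 2,
      pow_pos (aj_pos hN (by omega) (by omega)) 2, le_refl _⟩
  · by_cases h1 : v + 1 = N
    · have h2 : v = N - 1 := by omega
      rw [h2, kv_last hN he]
      refine ⟨one_pos, ?_, one_pos, le_refl _⟩
      change 0 < 1 / cN N ^ 2
      positivity
    · rw [kv_odd hN he h (by omega)]
      refine ⟨pow_pos (aj_pos hN (by omega) (by omega)) 2, ?_,
        pow_pos (aj_pos hN (by omega) (by omega)) 2, sq_nonneg _⟩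
      change 0 < 1 / cN N ^ 2
      positivity

private theorem G_Int_ca (N : ℕ) (v : ℕ) (hN : 6 ≤ N) (he : Even N) (hv : v < N) (k : Fin 4) :
    0 ≤ sB N v k ∧ sB N v k ≤ ca (arctan (2 * cN N)) k ∧
      (v ≠ 0 → v + 2 ≠ N → sB N v k < ca (arctan (2 * cN N)) k) := by
  have hc := cN_pos hN
  have ha : 0 < arctan (2 * cN N) := arctan_pos.mpr (by positivity)
  have hb := arctan_lt_pi_div_two (2 * cN N)
  have hp := pi_pos
  by_cases h0 : v = 0
  · subst h0
    rw [G_Int_sB0]
    refine ⟨?_, ?_, fun h => absurd rfl h⟩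
    · fin_cases k
      · exact ha.le
      · change 0 ≤ π - arctan (2 * cN N)
        linarith
      · exact le_refl (0 : ℝ)
      · exact le_refl (0 : ℝ)
    · fin_cases k
      · exact le_refl _
      · exact le_refl _
      · exact ha.le
      · change 0 ≤ π - arctan (2 * cN N)
        linarith
  by_cases hL : v + 2 = N
  · rw [G_Int_sBL h0 hL]
    refine ⟨?_, ?_, fun _ h => absurd hL h⟩
    · fin_cases k
      · exact le_refl (0 : ℝ)
      · change 0 ≤ π - arctan (2 * cN N)
        linarith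
      · exact ha.le
      · exact le_refl (0 : ℝ)
    · fin_cases k
      · exact ha.le
      · exact le_refl _
      · exact le_refl _
      · change 0 ≤ π - arctan (2 * cN N)
        linarith
  · obtain ⟨p0, p1, p2, p3⟩ := G_Int_kv hN he h0 hL hv
    rw [G_Int_sBG h0 hL]
    have h1 := sst_lt p0 p1 p2 p3 k
    rw [ast_kv hN he (Nat.pos_of_ne_zero h0) hv hL] at h1
    refine ⟨?_, h1.le, fun _ _ => h1⟩
    have hk : 0 ≤ kv N v k := by
      fin_cases k
      · exact p0.le
      · exact p1.le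
      · exact p2.le
      · exact p3
    rcases hk.lt_or_eq with h2 | h2
    · exact (sst_pos p0 p1 p2 p3 h2).le
    · have hk3 : k = 3 := by
        fin_cases k
        · exact absurd h2.symm p0.ne'
        · exact absurd h2.symm p1.ne'
        · exact absurd h2.symm p2.ne'
        · rfl
      subst hk3
      rw [sst_three h2.symm]

private theorem G_Int_cz (a : ℝ) (k : Fin 4) : cz 1 (1 - a / π) k = ca a k / π := by
  have hp := pi_pos
  fin_cases k
  · change 1 - (1 - a / π) = a / π
    ring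
  · change 1 - a / π = (π - a) / π
    field_simp
  · change 1 - (1 - a / π) = a / π
    ring
  · change 1 - a / π = (π - a) / π
    field_simp

private theorem G_Int_sum {N v : ℕ} (hN : 6 ≤ N) (he : Even N) (hv : v < N) :
    ∑ k, sB N v k = π := by
  by_cases h0 : v = 0
  · subst h0
    rw [G_Int_sB0, Fin.sum_univ_four]
    change arctan (2 * cN N) + (π - arctan (2 * cN N)) + 0 + 0 = π
    ring
  by_cases hL : v + 2 = N
  · rw [G_Int_sBL h0 hL, Fin.sum_univ_four]
    change 0 + (π - arctan (2 * cN N)) + arctan (2 * cN N) + 0 = π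
    ring
  · obtain ⟨p0, p1, p2, p3⟩ := G_Int_kv hN he h0 hL hv
    rw [G_Int_sBG h0 hL]
    exact sst_sum p0 p1 p2 p3

private theorem G_Int_face (hn : 3 ≤ n) {f : ℕ} (hf : f ∈ FB n) :
    ∑ v : Fin (2 * n), ∑ k, (if corB n v k = f then sB (2 * n) v k else 0) = π := by
  unfold FB at hf
  rw [Finset.mem_Icc] at hf
  by_cases h3 : f = 3
  · subst h3
    exact face_three hn
  by_cases h2 : f = 2
  · have h4 : gf (2 * n) 1 = f := by
      unfold gf
      rw [if_neg (by omega), if_pos rfl, h2]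
    have h5 := face_G hn (j := 1) le_rfl (by omega)
    rw [h4] at h5
    exact h5
  · have h4 : gf (2 * n) (f - 2) = f := by
      unfold gf
      rw [if_neg (by omega), if_neg (by omega), if_pos (by omega)]
      omega
    have h5 := face_G hn (j := f - 2) (by omega) (by omega)
    rw [h4] at h5
    exact h5

private theorem G_Int_zero (hn : 3 ≤ n) {v : ℕ} (hv : v < 2 * n) {k : Fin 4}
    (h : corN (2 * n) v k ∉ FB n) : sB (2 * n) v k = 0 := by
  have hN : 6 ≤ 2 * n := by omega
  have he := G_Int_ev n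
  rw [G_Int_out hn hv] at h
  rcases h with ⟨rfl, h⟩ | ⟨rfl, h⟩ | ⟨rfl, h⟩
  · rw [G_Int_sBL (by omega) h]
    rfl
  · subst h
    rw [G_Int_sB0]
    rfl
  · by_cases h0 : v = 0
    · subst h0
      rw [G_Int_sB0]
      rfl
    by_cases hL : v + 2 = 2 * n
    · rw [G_Int_sBL h0 hL]
      rfl
    · rw [G_Int_sBG h0 hL, sst_three]
      rcases h with h | h
      · rw [kv_even hN he h hv]
        rfl
      · have h2 : v = 2 * n - 1 := by omega
        rw [h2, kv_last hN he]
        rfl

theorem isInt_xB (hn : 3 ≤ n) : IsInt (FB n) (corB n) (xB n) := by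
  have hN : 6 ≤ 2 * n := by omega
  have he := G_Int_ev n
  have hp := pi_pos
  have hc := cN_pos hN
  have ha : 0 < arctan (2 * cN (2 * n)) := arctan_pos.mpr (by positivity)
  have hb := arctan_lt_pi_div_two (2 * cN (2 * n))
  have hcz : ∀ (v : Fin (2 * n)) (k : Fin 4), cz 1 (xB n (Sum.inl v)) k =
      ca (arctan (2 * cN (2 * n))) k / π := fun v k => G_Int_cz _ k
  refine ⟨⟨?_, ?_, ?_, ?_, ?_⟩, ?_, ?_, ?_, ?_⟩
  · intro v
    change ∑ k, sB (2 * n) v k / π = 1
    rw [← Finset.sum_div, G_Int_sum hN he v.2, div_self hp.ne']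
  · intro f hf
    have h1 : ∀ (v : Fin (2 * n)) (k : Fin 4),
        (if corB n v k = f then xB n (Sum.inr (v, k)) else 0) =
        (if corB n v k = f then sB (2 * n) v k else 0) / π := by
      intro v k
      split_ifs
      · rfl
      · rw [zero_div]
    simp only [h1]
    simp only [← Finset.sum_div]
    rw [G_Int_face hn hf, div_self hp.ne']
  · intro v k h
    change sB (2 * n) v k / π = 0
    rw [G_Int_zero hn v.2 h, zero_div]
  · intro v k
    exact div_nonneg (G_Int_ca (2 * n) v hN he v.2 k).1 hp.le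
  · intro v k
    rw [hcz]
    exact div_le_div_of_nonneg_right (G_Int_ca (2 * n) v hN he v.2 k).2.1 hp.le
  · intro v
    change 1 / 2 < 1 - arctan (2 * cN (2 * n)) / π
    have h1 : arctan (2 * cN (2 * n)) / π < 1 / 2 := by
      rw [div_lt_iff₀ hp]
      linarith
    linarith
  · intro v
    change 1 - arctan (2 * cN (2 * n)) / π < 1
    have h1 : 0 < arctan (2 * cN (2 * n)) / π := div_pos ha hp
    linarith
  · intro v k hF hE
    rw [isEnd_iff hn, not_or] at hE
    obtain ⟨p0, p1, p2, p3⟩ := G_Int_kv hN he hE.1 hE.2 v.2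
    change 0 < sB (2 * n) v k / π
    refine div_pos ?_ hp
    rw [G_Int_sBG hE.1 hE.2]
    refine sst_pos p0 p1 p2 p3 ?_
    unfold FB corB at hF
    rw [Finset.mem_Icc] at hF
    exact G_Int_kap_pos hN hF.1 hF.2
  · intro v k hF hE
    rw [isEnd_iff hn, not_or] at hE
    rw [hcz]
    exact div_lt_div_of_pos_right ((G_Int_ca (2 * n) v hN he v.2 k).2.2 hE.1 hE.2) hp

end Pool.Agent.H63.CLK
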