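import Pool.Agent.H63.CLK.G_Low
import Pool.Agent.H63.CLK.G_SB

/-!
# The vertex `N - 1`

`κ = (1, 1/z, 1, 0)`, modified `(2, 1/z, 1, 0)`, `(1, 1/z, 2, 0)`, `(2, 1/z, 2, 0)`; `3/4 ≤ z < 1`,
`s 3 = 0`. By `Ph_ge_gen`, `Ph κ ≥ C0 - π log z`,
`C0 = 4 lob (π/4) + 4 lob (π/12) + 6 lob (π/6) + 2 lob (π/3) ≥ 7.27`.

Case `a > π/2` (`T_le` with `μ = 7/10`, `SB_lin`; `2μ ≤ √2`): for `(2, 1/z, 1, 0)` the bound is
`2 π/3 (14/10 + 7/10 (1/z) + 7/10) - 2π log (7/10)`, for `(2, 1/z, 2, 0)` it is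
`2 π/3 (28/10 + 7/10 (1/z)) - 2π log (7/10)`; margins `0.6` (`-π log z ≥ π (1-z)`,
`1/z - 1 ≤ 4/3 (1-z)`, so `z = 1` is the worst case).
Case `a ≤ π/2`: `R_le` for the modified `κ'` gives `≤ Ph κ'`, and `R_le` for `κ` at the critical
point `s = sst κ'` gives `Ph κ ≥ Ph κ' - 2 log 2 (s0 + s2)` (only the modified corners),
`s0 = arctan (κ'0 / √(κ'0 κ'1)) = arctan √(2z) ≤ π/3`.
-/

set_option autoImplicit false

namespace Pool.Agent.H63.CLK

open Pool.Agent.H63.VC hiding ext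
open Pool.Agent.H63.VC7 Real
open scoped BigOperators

variable {z a : ℝ} {s : Fin 4 → ℝ}

private theorem G_Last_C0 : 7.2748 ≤
    4 * lob (π / 4) + 4 * lob (π / 12) + 6 * lob (π / 6) + 2 * lob (π / 3) := by
  have h1 := lob15
  have h2 := lob30.1
  have h3 := lob45.1
  have h4 := lob60.1
  norm_num at h1 h2 h3 h4 ⊢
  linarith

private theorem G_Last_low (hz : 3 / 4 ≤ z) : 7.2748 - π * log z ≤ Ph ![1, 1 / z, 1, 0] := by
  have hz0 : 0 < z := by linarith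
  have h := Ph_ge_gen (κ := ![1, 1 / z, 1, 0]) (one_pos : (0 : ℝ) < 1)
    (one_div_pos.mpr hz0 : (0 : ℝ) < 1 / z) (one_pos : (0 : ℝ) < 1) (le_rfl : (0 : ℝ) ≤ 0)
  have e0 : (![1, 1 / z, 1, 0] : Fin 4 → ℝ) 0 = 1 := rfl
  have e1 : (![1, 1 / z, 1, 0] : Fin 4 → ℝ) 1 = 1 / z := rfl
  have e2 : (![1, 1 / z, 1, 0] : Fin 4 → ℝ) 2 = 1 := rfl
  rw [e0, e1, e2, log_one, one_div, log_inv] at h
  have hC := G_Last_C0
  rw [one_div]
  linarith

/-- the case `a > π/2` -/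
private theorem G_Last_T (hz : 3 / 4 ≤ z) (hz1 : z < 1) (h : LP a s) (hs : s 3 = 0) {p q : ℝ}
    (hp : 0 < p) (hp2 : p ≤ 2) (hq : 0 < q) (hq2 : q ≤ 2) (hpq : p + q = 3 ∨ p + q = 4) :
    Bv a s + linG ![p, 1 / z, q, 0] s ≤
      Ph ![1, 1 / z, 1, 0] + (p + q - 2) * (2 * π / 3 * log 2) := by
  have hz0 : 0 < z := by linarith
  have hsq : (1.4 : ℝ) ≤ √2 := by
    apply Real.le_sqrt_of_sq_le
    norm_num
  have hz' : 1 / z ≤ 4 / 3 := by
    rw [div_le_iff₀ hz0]; linarith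
  have hn := lob45.2
  have hT := T_le (κ := ![p, 1 / z, q, 0]) (μ := 7 / 10) (a := a) (s := s) (by norm_num)
    (C := fun k => π / 3 * ((![p, 1 / z, q, 0] : Fin 4 → ℝ) k * (7 / 10)))
    (by
      intro k
      fin_cases k
      · exact hp.le
      · exact (one_div_pos.mpr hz0).le
      · exact hq.le
      · exact le_rfl)
    (by
      intro k hk
      refine SB_lin (mul_pos hk (by norm_num)) ?_ hn
      fin_cases k
      · change p * (7 / 10) ≤ √2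
        norm_num at hsq; linarith
      · change 1 / z * (7 / 10) ≤ √2
        norm_num at hsq hz' ⊢; linarith
      · change q * (7 / 10) ≤ √2
        norm_num at hsq; linarith
      · exact absurd hk (lt_irrefl _))
    (by
      intro k hk
      simp only [hk]
      ring)
    h
    (by
      intro k hk
      fin_cases k
      · exact absurd hk hp.ne'
      · exact absurd hk (one_div_pos.mpr hz0).ne'
      · exact absurd hk hq.ne'
      · exact hs)
  rw [Fin.sum_univ_four] at hT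
  have hlow := G_Last_low hz
  have e0 : (![p, 1 / z, q, 0] : Fin 4 → ℝ) 0 = p := rfl
  have e1 : (![p, 1 / z, q, 0] : Fin 4 → ℝ) 1 = 1 / z := rfl
  have e2 : (![p, 1 / z, q, 0] : Fin 4 → ℝ) 2 = q := rfl
  have e3 : (![p, 1 / z, q, 0] : Fin 4 → ℝ) 3 = 0 := rfl
  simp only [e0, e1, e2, e3] at hT
  have hlog : -log (7 / 10 : ℝ) ≤ 3 / 7 := by
    rw [← log_inv]
    have := Real.log_le_sub_one_of_pos (x := (7 / 10 : ℝ)⁻¹) (by norm_num)
    norm_num at this ⊢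
    linarith
  have hlz : 1 - z ≤ -log z := by
    have := Real.log_le_sub_one_of_pos hz0
    linarith
  have hinv : 1 / z ≤ 1 + 4 / 3 * (1 - z) := by
    rw [div_le_iff₀ hz0]
    nlinarith
  have hl2 := Real.log_two_gt_d9
  have hpi := Real.pi_lt_d6
  have hpi0 := Real.pi_pos
  -- everything is `π` times a rational expression
  have k1 : π * (1 / z) ≤ π * (1 + 4 / 3 * (1 - z)) := mul_le_mul_of_nonneg_left hinv hpi0.le
  have k2 : π * (1 - z) ≤ π * (-log z) := mul_le_mul_of_nonneg_left hlz hpi0.le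
  have k3 : π * (-log (7 / 10 : ℝ)) ≤ π * (3 / 7) := mul_le_mul_of_nonneg_left hlog hpi0.le
  have k4 : π * 0.6931471803 ≤ π * log 2 := mul_le_mul_of_nonneg_left hl2.le hpi0.le
  have k5 : 0 ≤ π * (1 - z) := mul_nonneg hpi0.le (by linarith)
  norm_num at k4 hpi hlow
  rcases hpq with hpq | hpq
  · obtain rfl : q = 3 - p := by linarith
    have e : (p + (3 - p) - 2) * (2 * π / 3 * log 2) = 2 / 3 * (π * log 2) := by ring
    rw [e]
    have e5 : 2 * (π / 3 * (p * (7 / 10)) + π / 3 * (1 / z * (7 / 10)) +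
        π / 3 * ((3 - p) * (7 / 10)) + π / 3 * (0 * (7 / 10))) - 2 * π * log (7 / 10) =
        14 / 10 * π + 14 / 30 * (π * (1 / z)) + 2 * (π * (-log (7 / 10))) := by ring
    rw [e5] at hT
    have e6 : (1 : ℝ) / z = z⁻¹ := one_div z
    rw [e6] at hT k1 ⊢
    linarith
  · obtain rfl : q = 4 - p := by linarith
    have e : (p + (4 - p) - 2) * (2 * π / 3 * log 2) = 4 / 3 * (π * log 2) := by ring
    rw [e]
    have e5 : 2 * (π / 3 * (p * (7 / 10)) + π / 3 * (1 / z * (7 / 10)) +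
        π / 3 * ((4 - p) * (7 / 10)) + π / 3 * (0 * (7 / 10))) - 2 * π * log (7 / 10) =
        56 / 30 * π + 14 / 30 * (π * (1 / z)) + 2 * (π * (-log (7 / 10))) := by ring
    rw [e5] at hT
    have e6 : (1 : ℝ) / z = z⁻¹ := one_div z
    rw [e6] at hT k1 ⊢
    linarith

private theorem G_Last_arc (hz : 3 / 4 ≤ z) (hz1 : z < 1) :
    arctan (2 / √(2 * (1 / z))) ≤ π / 3 := by
  have hz0 : 0 < z := by linarith
  rw [← arctan_sqrt_three]
  apply arctan_mono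
  have h2 : 0 < 2 * (1 / z) := by positivity
  rw [div_le_iff₀ (Real.sqrt_pos.mpr h2), ← Real.sqrt_mul (by norm_num)]
  apply Real.le_sqrt_of_sq_le
  have h3 : 1 ≤ 1 / z := by
    rw [le_div_iff₀ hz0]; linarith
  nlinarith

/-- the case `a ≤ π/2` -/
private theorem G_Last_R (hz : 3 / 4 ≤ z) (h : LP a s) (hs : s 3 = 0)
    (ha : a ≤ π / 2) {p q : ℝ} (hp : 0 < p) (hq : 0 < q) :
    Wv a s + linG ![p, 1 / z, q, 0] s ≤ Ph ![1, 1 / z, 1, 0] +
      2 * sst ![p, 1 / z, q, 0] 0 * log p + 2 * sst ![p, 1 / z, q, 0] 2 * log q := by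
  have hz0 : 0 < z := by linarith
  have h0 : 0 < (![p, 1 / z, q, 0] : Fin 4 → ℝ) 0 := hp
  have h1 : 0 < (![p, 1 / z, q, 0] : Fin 4 → ℝ) 1 := one_div_pos.mpr hz0
  have h2 : 0 < (![p, 1 / z, q, 0] : Fin 4 → ℝ) 2 := hq
  have h3 : 0 ≤ (![p, 1 / z, q, 0] : Fin 4 → ℝ) 3 := le_rfl
  have r1 := R_le h0 h1 h2 h3 h ha (fun _ => hs)
  have hL := LP_sst h0 h1 h2 h3
  have g1 : 0 < (![1, 1 / z, 1, 0] : Fin 4 → ℝ) 1 := one_div_pos.mpr hz0
  have r2 := R_le (κ := ![1, 1 / z, 1, 0]) (one_pos : (0 : ℝ) < 1) g1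
    (one_pos : (0 : ℝ) < 1) (le_rfl : (0 : ℝ) ≤ 0) hL ast_lt.le (fun _ => sst_three rfl)
  have e : linG ![p, 1 / z, q, 0] (sst ![p, 1 / z, q, 0]) =
      linG ![1, 1 / z, 1, 0] (sst ![p, 1 / z, q, 0]) +
      2 * sst ![p, 1 / z, q, 0] 0 * log p + 2 * sst ![p, 1 / z, q, 0] 2 * log q := by
    unfold linG
    rw [Fin.sum_univ_four, Fin.sum_univ_four]
    have e0 : (![p, 1 / z, q, 0] : Fin 4 → ℝ) 0 = p := rfl
    have e1 : (![p, 1 / z, q, 0] : Fin 4 → ℝ) 1 = 1 / z := rfl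
    have e2 : (![p, 1 / z, q, 0] : Fin 4 → ℝ) 2 = q := rfl
    have e3 : (![p, 1 / z, q, 0] : Fin 4 → ℝ) 3 = 0 := rfl
    have f0 : (![1, 1 / z, 1, 0] : Fin 4 → ℝ) 0 = 1 := rfl
    have f1 : (![1, 1 / z, 1, 0] : Fin 4 → ℝ) 1 = 1 / z := rfl
    have f2 : (![1, 1 / z, 1, 0] : Fin 4 → ℝ) 2 = 1 := rfl
    have f3 : (![1, 1 / z, 1, 0] : Fin 4 → ℝ) 3 = 0 := rfl
    rw [e0, e1, e2, e3, f0, f1, f2, f3, log_one]
    ring
  have r3 : Ph ![p, 1 / z, q, 0] = Wv (ast ![p, 1 / z, q, 0]) (sst ![p, 1 / z, q, 0]) +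
      linG ![p, 1 / z, q, 0] (sst ![p, 1 / z, q, 0]) := rfl
  rw [r3, e] at r1
  linarith

theorem last_mod (hz : 3 / 4 ≤ z) (hz1 : z < 1) (h : LP a s) (hs : s 3 = 0) :
    Wv a s + linG ![2, 1 / z, 1, 0] s ≤ Ph ![1, 1 / z, 1, 0] + 2 * π / 3 * log 2 := by
  by_cases ha : a ≤ π / 2
  · have r := G_Last_R hz h hs ha (p := 2) (q := 1) (by norm_num) (by norm_num)
    have e0 : sst ![2, 1 / z, 1, 0] 0 = arctan (2 / √(2 * (1 / z))) := by
      have : e1 ![2, 1 / z, 1, 0] = √(2 * (1 / z)) := by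
        unfold e1
        congr 1
        change 2 * (1 / z) + 1 / z * 0 + 0 * 2 = _
        ring
      change arctan (2 / e1 ![2, 1 / z, 1, 0]) = _
      rw [this]
    rw [e0, log_one, mul_zero, add_zero] at r
    have h1 := G_Last_arc hz hz1
    have h2 := Real.log_two_gt_d9
    have h3 : 0 < log 2 := lt_trans (by norm_num) h2
    have h4 : arctan (2 / √(2 * (1 / z))) * log 2 ≤ π / 3 * log 2 :=
      mul_le_mul_of_nonneg_right h1 h3.le
    linarith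
  · have r := G_Last_T hz hz1 h hs (p := 2) (q := 1) (by norm_num) (by norm_num) (by norm_num)
      (by norm_num) (Or.inl (by norm_num))
    rw [Wv, if_neg ha]
    norm_num at r ⊢
    linarith

theorem last_mod' (hz : 3 / 4 ≤ z) (hz1 : z < 1) (h : LP a s) (hs : s 3 = 0) :
    Wv a s + linG ![1, 1 / z, 2, 0] s ≤ Ph ![1, 1 / z, 1, 0] + 2 * π / 3 * log 2 := by
  have r := last_mod hz hz1 (LP_Sw02 h) (a := a) (s := Sw02 s) hs
  have e1 : (![2, 1 / z, 1, 0] : Fin 4 → ℝ) = Sw02 ![1, 1 / z, 2, 0] := rfl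
  rw [e1, lin_Sw02, Wv, Bv_Sw02] at r
  exact r

theorem last_mod2 (hz : 3 / 4 ≤ z) (hz1 : z < 1) (h : LP a s) (hs : s 3 = 0) :
    Wv a s + linG ![2, 1 / z, 2, 0] s ≤ Ph ![1, 1 / z, 1, 0] + 4 * π / 3 * log 2 := by
  by_cases ha : a ≤ π / 2
  · have r := G_Last_R hz h hs ha (p := 2) (q := 2) (by norm_num) (by norm_num)
    have e0 : sst ![2, 1 / z, 2, 0] 0 = arctan (2 / √(2 * (1 / z))) := by
      have : e1 ![2, 1 / z, 2, 0] = √(2 * (1 / z)) := by
        unfold e1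
        congr 1
        change 2 * (1 / z) + 1 / z * 0 + 0 * 2 = _
        ring
      change arctan (2 / e1 ![2, 1 / z, 2, 0]) = _
      rw [this]
    have e0' : sst ![2, 1 / z, 2, 0] 2 = arctan (2 / √(2 * (1 / z))) := by
      have : e2 ![2, 1 / z, 2, 0] = √(2 * (1 / z)) := by
        unfold e2
        congr 1
        change 2 * (1 / z) + 1 / z * 0 + 0 * 2 = _
        ring
      change arctan (2 / e2 ![2, 1 / z, 2, 0]) = _
      rw [this]
    rw [e0, e0'] at r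
    have h1 := G_Last_arc hz hz1
    have h2 := Real.log_two_gt_d9
    have h3 : 0 < log 2 := lt_trans (by norm_num) h2
    have h4 : arctan (2 / √(2 * (1 / z))) * log 2 ≤ π / 3 * log 2 :=
      mul_le_mul_of_nonneg_right h1 h3.le
    linarith
  · have r := G_Last_T hz hz1 h hs (p := 2) (q := 2) (by norm_num) (by norm_num) (by norm_num)
      (by norm_num) (Or.inr (by norm_num))
    rw [Wv, if_neg ha]
    norm_num at r ⊢
    linarith

end Pool.Agent.H63.CLK
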