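import Pool.Agent.H63.CLK.G_Tan

/-!
# Numerical values of the Lobachevsky function

`lob (π/12) = 0.43219...`, `lob (π/6) = 0.50747...`, `lob (π/4) = 0.45798...`,
`lob (π/3) = 0.33831...`.

One way: for `0 < θ ≤ π/3` (even `≤ π/2`)
`θ (1 - log (2θ)) + θ^3/18 + θ^5/900 ≤ lob θ ≤ θ (1 - log (2θ)) + θ^3/18 + θ^5/900 + θ^7/15000`;
the derivative of `lob θ - θ (1 - log (2θ))` is `log (θ / sin θ)`, and
`θ^2/6 + θ^4/180 ≤ log (θ / sin θ) ≤ θ^2/6 + θ^4/180 + 7 θ^6/15000` again by derivatives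
(`1/θ - cot θ ≥ θ/3 + θ^3/45`, ...) or from Taylor bounds of `sin`. Exact relations which may help:
`lob (π/6) = 3/2 lob (π/3)` (duplication), `lob (π/12) = 2/3 lob (π/4) + 1/4 lob (π/6)`
(duplication and triplication). Any other rigorous method is fine.
-/

set_option autoImplicit false

namespace Pool.Agent.H63.CLK

open Pool.Agent.H63.VC hiding ext
open Pool.Agent.H63.VC7 Real
open scoped BigOperators

/-- a function with nonnegative derivative and nonnegative initial value -/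
private theorem G_Num_nn (f f' : ℝ → ℝ) (b : ℝ) (hc : ContinuousOn f (Set.Icc 0 b)) (h0 : 0 ≤ f 0)
    (hd : ∀ t ∈ Set.Ioo 0 b, HasDerivAt f (f' t) t) (hf : ∀ t ∈ Set.Ioo 0 b, 0 ≤ f' t) :
    ∀ t ∈ Set.Icc 0 b, 0 ≤ f t := by
  intro t ht
  have hm : MonotoneOn f (Set.Icc 0 b) := by
    apply monotoneOn_of_deriv_nonneg (convex_Icc 0 b) hc
    · rw [interior_Icc]
      exact fun t ht => (hd t ht).differentiableAt.differentiableWithinAt
    · rw [interior_Icc]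
      intro t ht
      rw [(hd t ht).deriv]
      exact hf t ht
  exact h0.trans (hm ⟨le_rfl, ht.1.trans ht.2⟩ ht ht.1)

private theorem G_Num_sc {t : ℝ} (ht : t ∈ Set.Ioo (0 : ℝ) 1.1) :
    0 < sin t ∧ 0 < cos t ∧ t * cos t ≤ sin t := by
  have hpi := Real.pi_gt_d6
  have h1 : t < π / 2 := by have := ht.2; norm_num at this; linarith
  have hs : 0 < sin t := sin_pos_of_pos_of_lt_pi ht.1 (by linarith [Real.pi_pos])
  have hcos : 0 < cos t := cos_pos_of_mem_Ioo ⟨by linarith [ht.1, Real.pi_pos], h1⟩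
  refine ⟨hs, hcos, ?_⟩
  have h2 := Real.lt_tan ht.1 h1
  rw [tan_eq_sin_div_cos, lt_div_iff₀ hcos] at h2
  exact h2.le

/-- `E_K` -/
private noncomputable def G_Num_E (K t : ℝ) : ℝ :=
  (t ^ 2 / 3 + t ^ 4 / 45 + K * t ^ 6 - 1) * sin t + t * cos t

private noncomputable def G_Num_G (K t : ℝ) : ℝ :=
  (-1 / 3 + 4 * t ^ 2 / 45 + 6 * K * t ^ 4) * sin t + (t / 3 + t ^ 3 / 45 + K * t ^ 5) * cos t

private noncomputable def G_Num_H (K t : ℝ) : ℝ :=
  (-7 / 45 + (24 * K - 1 / 45) * t ^ 2 - K * t ^ 4) * sin t + (7 * t / 45 + 11 * K * t ^ 3) * cos t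

private theorem G_Num_dE (K t : ℝ) : HasDerivAt (G_Num_E K) (t * G_Num_G K t) t := by
  have h1 : HasDerivAt (fun t : ℝ => t ^ 2 / 3 + t ^ 4 / 45 + K * t ^ 6 - 1)
      (2 * t / 3 + 4 * t ^ 3 / 45 + K * (6 * t ^ 5)) t := by
    have h2 := ((hasDerivAt_pow 2 t).div_const 3)
    have h4 := ((hasDerivAt_pow 4 t).div_const 45)
    have h6 := ((hasDerivAt_pow 6 t).const_mul K)
    exact (((h2.add h4).add h6).sub_const 1).congr_deriv (by norm_num)
  exact ((h1.mul (hasDerivAt_sin t)).add ((hasDerivAt_id t).mul (hasDerivAt_cos t))).congr_deriv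
    (by simp only [G_Num_G, id]; ring)

private theorem G_Num_dG (K t : ℝ) : HasDerivAt (G_Num_G K) (t * G_Num_H K t) t := by
  have h1 : HasDerivAt (fun t : ℝ => -1 / 3 + 4 * t ^ 2 / 45 + 6 * K * t ^ 4)
      (8 * t / 45 + 24 * K * t ^ 3) t := by
    have h2 := (((hasDerivAt_pow 2 t).const_mul 4).div_const 45).const_add (-1 / 3)
    have h4 := ((hasDerivAt_pow 4 t).const_mul (6 * K))
    exact (h2.add h4).congr_deriv (by norm_num; ring)
  have h1' : HasDerivAt (fun t : ℝ => t / 3 + t ^ 3 / 45 + K * t ^ 5)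
      (1 / 3 + t ^ 2 / 15 + 5 * K * t ^ 4) t := by
    have h2 := ((hasDerivAt_id t).div_const 3)
    have h3 := ((hasDerivAt_pow 3 t).div_const 45)
    have h5 := ((hasDerivAt_pow 5 t).const_mul K)
    exact ((h2.add h3).add h5).congr_deriv (by norm_num; ring)
  exact ((h1.mul (hasDerivAt_sin t)).add (h1'.mul (hasDerivAt_cos t))).congr_deriv
    (by simp only [G_Num_H]; ring)

private theorem G_Num_dH (K t : ℝ) : HasDerivAt (G_Num_H K)
    (((57 * K - 1 / 45) * t ^ 2 - K * t ^ 4) * cos t +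
      ((48 * K - 1 / 5) * t - 15 * K * t ^ 3) * sin t) t := by
  have h1 : HasDerivAt (fun t : ℝ => -7 / 45 + (24 * K - 1 / 45) * t ^ 2 - K * t ^ 4)
      ((24 * K - 1 / 45) * (2 * t) - K * (4 * t ^ 3)) t := by
    have h2 := ((hasDerivAt_pow 2 t).const_mul (24 * K - 1 / 45))
    have h4 := ((hasDerivAt_pow 4 t).const_mul K)
    exact ((h2.const_add (-7 / 45)).sub h4).congr_deriv (by norm_num)
  have h1' : HasDerivAt (fun t : ℝ => 7 * t / 45 + 11 * K * t ^ 3)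
      (7 / 45 + 33 * K * t ^ 2) t := by
    have h2 := ((hasDerivAt_id t).const_mul 7).div_const 45
    have h3 := ((hasDerivAt_pow 3 t).const_mul (11 * K))
    exact (h2.add h3).congr_deriv (by norm_num; ring)
  exact ((h1.mul (hasDerivAt_sin t)).add (h1'.mul (hasDerivAt_cos t))).congr_deriv (by ring)

private theorem G_Num_cont (f f' : ℝ → ℝ) (h : ∀ t, HasDerivAt f (f' t) t) : Continuous f :=
  continuous_iff_continuousAt.mpr fun t => (h t).continuousAt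

/-- lower bound: `E_0 ≤ 0` -/
private theorem G_Num_E0 : ∀ t ∈ Set.Icc (0 : ℝ) 1.1, 0 ≤ -G_Num_E 0 t := by
  refine G_Num_nn (fun t => -G_Num_E 0 t) (fun t => -(t * G_Num_G 0 t)) 1.1
    (G_Num_cont _ _ (G_Num_dE 0)).neg.continuousOn (by simp [G_Num_E])
    (fun t _ => (G_Num_dE 0 t).neg) ?_
  have hG : ∀ t ∈ Set.Icc (0 : ℝ) 1.1, 0 ≤ -G_Num_G 0 t := by
    refine G_Num_nn (fun t => -G_Num_G 0 t) (fun t => -(t * G_Num_H 0 t)) 1.1
      (G_Num_cont _ _ (G_Num_dG 0)).neg.continuousOn (by simp [G_Num_G])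
      (fun t _ => (G_Num_dG 0 t).neg) ?_
    intro t ht
    obtain ⟨hs, hcos, htc⟩ := G_Num_sc ht
    have : G_Num_H 0 t ≤ 0 := by
      have e : G_Num_H 0 t = -(7 / 45) * (sin t - t * cos t) - t ^ 2 / 45 * sin t := by
        simp only [G_Num_H]; ring
      rw [e]
      have h1 : 0 ≤ t ^ 2 / 45 * sin t := by positivity
      nlinarith
    have h0 := ht.1
    nlinarith [mul_nonneg h0.le (neg_nonneg.mpr this)]
  intro t ht
  have h1 := hG t ⟨ht.1.le, ht.2.le⟩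
  have h0 := ht.1
  nlinarith [mul_nonneg h0.le h1]

/-- upper bound: `E_K ≥ 0` for `K = 1 / 100` -/
private theorem G_Num_EK : ∀ t ∈ Set.Icc (0 : ℝ) 1.1, 0 ≤ G_Num_E (1 / 100) t := by
  refine G_Num_nn (G_Num_E (1 / 100)) (fun t => t * G_Num_G (1 / 100) t) 1.1
    (G_Num_cont _ _ (G_Num_dE _)).continuousOn (by simp [G_Num_E])
    (fun t _ => G_Num_dE _ t) ?_
  have hG : ∀ t ∈ Set.Icc (0 : ℝ) 1.1, 0 ≤ G_Num_G (1 / 100) t := by
    refine G_Num_nn (G_Num_G (1 / 100)) (fun t => t * G_Num_H (1 / 100) t) 1.1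
      (G_Num_cont _ _ (G_Num_dG _)).continuousOn (by simp [G_Num_G])
      (fun t _ => G_Num_dG _ t) ?_
    have hH : ∀ t ∈ Set.Icc (0 : ℝ) 1.1, 0 ≤ G_Num_H (1 / 100) t := by
      refine G_Num_nn (G_Num_H (1 / 100)) _ 1.1
        (G_Num_cont _ _ (G_Num_dH _)).continuousOn (by simp [G_Num_H])
        (fun t _ => G_Num_dH _ t) ?_
      intro t ht
      obtain ⟨hs, hcos, htc⟩ := G_Num_sc ht
      have h0 := ht.1
      have h1 := ht.2
      have h2 : t ^ 2 ≤ 1.21 := by nlinarith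
      have e1 : 0 ≤ (57 * (1 / 100 : ℝ) - 1 / 45) * t ^ 2 - 1 / 100 * t ^ 4 := by
        have : (57 * (1 / 100 : ℝ) - 1 / 45) * t ^ 2 - 1 / 100 * t ^ 4 =
          t ^ 2 * (57 / 100 - 1 / 45 - t ^ 2 / 100) := by ring
        rw [this]
        refine mul_nonneg (sq_nonneg t) ?_
        norm_num at h2 ⊢
        linarith
      have e2 : 0 ≤ (48 * (1 / 100 : ℝ) - 1 / 5) * t - 15 * (1 / 100) * t ^ 3 := by
        have : (48 * (1 / 100 : ℝ) - 1 / 5) * t - 15 * (1 / 100) * t ^ 3 =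
          t * (28 / 100 - 15 / 100 * t ^ 2) := by ring
        rw [this]
        refine mul_nonneg h0.le ?_
        norm_num at h2 ⊢
        linarith
      exact add_nonneg (mul_nonneg e1 hcos.le) (mul_nonneg e2 hs.le)
    intro t ht
    exact mul_nonneg ht.1.le (hH t ⟨ht.1.le, ht.2.le⟩)
  intro t ht
  exact mul_nonneg ht.1.le (hG t ⟨ht.1.le, ht.2.le⟩)

/-- the logarithmic derivative -/
private noncomputable def G_Num_D (K t : ℝ) : ℝ :=
  log t - log (sin t) - (t ^ 2 / 6 + t ^ 4 / 180 + K / 6 * t ^ 6)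

private theorem G_Num_dD (K : ℝ) {t : ℝ} (ht : t ∈ Set.Ioo (0 : ℝ) 1.1) :
    HasDerivAt (G_Num_D K) (-(G_Num_E K t) / (t * sin t)) t := by
  obtain ⟨hs, hcos, htc⟩ := G_Num_sc ht
  have h0 := ht.1
  have h1 : HasDerivAt (fun t : ℝ => t ^ 2 / 6 + t ^ 4 / 180 + K / 6 * t ^ 6)
      (t / 3 + t ^ 3 / 45 + K * t ^ 5) t := by
    have h2 := ((hasDerivAt_pow 2 t).div_const 6)
    have h4 := ((hasDerivAt_pow 4 t).div_const 180)
    have h6 := ((hasDerivAt_pow 6 t).const_mul (K / 6))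
    exact ((h2.add h4).add h6).congr_deriv (by norm_num; ring)
  refine (((hasDerivAt_log h0.ne').sub ((hasDerivAt_sin t).log hs.ne')).sub h1).congr_deriv ?_
  simp only [G_Num_E]
  field_simp
  ring

private theorem G_Num_limD (K : ℝ) : Filter.Tendsto (G_Num_D K) (nhdsWithin 0 (Set.Ioi 0))
    (nhds 0) := by
  have hsin : Filter.Tendsto (fun t : ℝ => sin t / t) (nhdsWithin 0 (Set.Ioi 0)) (nhds 1) := by
    have h2 := (hasDerivAt_sin 0).tendsto_slope_zero_right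
    simp only [zero_add, Real.sin_zero, sub_zero, Real.cos_zero, smul_eq_mul] at h2
    refine h2.congr fun t => ?_
    rw [div_eq_inv_mul]
  have h1 := hsin.log one_ne_zero
  rw [log_one] at h1
  have h3 : Filter.Tendsto (fun t : ℝ => t ^ 2 / 6 + t ^ 4 / 180 + K / 6 * t ^ 6)
      (nhdsWithin 0 (Set.Ioi 0)) (nhds 0) := by
    have : Continuous fun t : ℝ => t ^ 2 / 6 + t ^ 4 / 180 + K / 6 * t ^ 6 := by fun_prop
    have h4 := this.tendsto 0
    simp only [ne_eq, OfNat.ofNat_ne_zero, not_false_eq_true, zero_pow, zero_div, add_zero,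
      mul_zero] at h4
    exact h4.mono_left nhdsWithin_le_nhds
  have h5 := h1.neg.sub h3
  rw [neg_zero, sub_zero] at h5
  refine h5.congr' ?_
  have hpos : ∀ᶠ t in nhdsWithin (0 : ℝ) (Set.Ioi 0), t ∈ Set.Ioo (0 : ℝ) 1.1 :=
    Ioo_mem_nhdsGT (by norm_num)
  filter_upwards [hpos] with t ht
  obtain ⟨hs, -, -⟩ := G_Num_sc ht
  rw [log_div hs.ne' ht.1.ne']
  simp only [G_Num_D]
  ring

private theorem G_Num_D0 {t : ℝ} (ht : t ∈ Set.Ioo (0 : ℝ) 1.1) : 0 ≤ G_Num_D 0 t := by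
  have hm : MonotoneOn (G_Num_D 0) (Set.Ioo 0 1.1) := by
    apply monotoneOn_of_deriv_nonneg (convex_Ioo 0 1.1)
    · exact fun s hs => (G_Num_dD 0 hs).continuousAt.continuousWithinAt
    · rw [interior_Ioo]
      exact fun s hs => (G_Num_dD 0 hs).differentiableAt.differentiableWithinAt
    · rw [interior_Ioo]
      intro s hs
      rw [(G_Num_dD 0 hs).deriv]
      obtain ⟨hs', -, -⟩ := G_Num_sc hs
      exact div_nonneg (G_Num_E0 s ⟨hs.1.le, hs.2.le⟩) (mul_nonneg hs.1.le hs'.le)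
  refine le_of_tendsto (G_Num_limD 0) ?_
  filter_upwards [Ioo_mem_nhdsGT ht.1] with s hs
  exact hm ⟨hs.1, hs.2.trans ht.2⟩ ht hs.2.le

private theorem G_Num_DK {t : ℝ} (ht : t ∈ Set.Ioo (0 : ℝ) 1.1) : G_Num_D (1 / 100) t ≤ 0 := by
  have hm : AntitoneOn (G_Num_D (1 / 100)) (Set.Ioo 0 1.1) := by
    apply antitoneOn_of_deriv_nonpos (convex_Ioo 0 1.1)
    · exact fun s hs => (G_Num_dD _ hs).continuousAt.continuousWithinAt
    · rw [interior_Ioo]
      exact fun s hs => (G_Num_dD _ hs).differentiableAt.differentiableWithinAt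
    · rw [interior_Ioo]
      intro s hs
      rw [(G_Num_dD _ hs).deriv, neg_div]
      obtain ⟨hs', -, -⟩ := G_Num_sc hs
      exact neg_nonpos.mpr
        (div_nonneg (G_Num_EK s ⟨hs.1.le, hs.2.le⟩) (mul_nonneg hs.1.le hs'.le))
  refine ge_of_tendsto (G_Num_limD (1 / 100)) ?_
  filter_upwards [Ioo_mem_nhdsGT ht.1] with s hs
  exact hm ⟨hs.1, hs.2.trans ht.2⟩ ht hs.2.le

/-- the main function -/
private noncomputable def G_Num_F (K t : ℝ) : ℝ :=
  lob t - (t * (1 - log 2) - t * log t + t ^ 3 / 18 + t ^ 5 / 900 + K / 42 * t ^ 7)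

private theorem G_Num_dF (K : ℝ) {t : ℝ} (ht : t ∈ Set.Ioo (0 : ℝ) 1.1) :
    HasDerivAt (G_Num_F K) (G_Num_D K t) t := by
  obtain ⟨hs, hcos, htc⟩ := G_Num_sc ht
  have h0 := ht.1
  have h1 : HasDerivAt (fun t : ℝ => t * (1 - log 2) - t * log t + t ^ 3 / 18 + t ^ 5 / 900 +
      K / 42 * t ^ 7) (1 * (1 - log 2) - (1 * log t + t * t⁻¹) + 3 * t ^ 2 / 18 + 5 * t ^ 4 / 900 +
        K / 42 * (7 * t ^ 6)) t := by
    have h2 := (hasDerivAt_id t).mul_const (1 - log 2)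
    have h3 := (hasDerivAt_id t).mul (hasDerivAt_log h0.ne')
    have h4 := ((hasDerivAt_pow 3 t).div_const 18)
    have h5 := ((hasDerivAt_pow 5 t).div_const 900)
    have h6 := ((hasDerivAt_pow 7 t).const_mul (K / 42))
    exact ((((h2.sub h3).add h4).add h5).add h6).congr_deriv (by norm_num)
  refine ((volA_lob_hasDerivAt t hs.ne').sub h1).congr_deriv ?_
  have e : log |2 * sin t| = log 2 + log (sin t) := by
    rw [abs_of_pos (by positivity), log_mul (by norm_num) hs.ne']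
  rw [e, mul_inv_cancel₀ h0.ne']
  simp only [G_Num_D]
  ring

private theorem G_Num_contF (K : ℝ) : Continuous (G_Num_F K) := by
  unfold G_Num_F
  refine volA_lob_continuous.sub ?_
  have := Real.continuous_mul_log
  fun_prop

private theorem G_Num_lo {t : ℝ} (ht : t ∈ Set.Ioo (0 : ℝ) 1.1) :
    t * (1 - log 2) - t * log t + t ^ 3 / 18 + t ^ 5 / 900 ≤ lob t := by
  have := G_Num_nn (G_Num_F 0) (G_Num_D 0) 1.1 (G_Num_contF 0).continuousOn
    (by simp [G_Num_F, volA_lob_zero]) (fun t ht => G_Num_dF 0 ht) (fun t ht => G_Num_D0 ht) t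
    ⟨ht.1.le, ht.2.le⟩
  simp only [G_Num_F, zero_div, zero_mul, add_zero] at this
  linarith

private theorem G_Num_up {t : ℝ} (ht : t ∈ Set.Ioo (0 : ℝ) 1.1) :
    lob t ≤ t * (1 - log 2) - t * log t + t ^ 3 / 18 + t ^ 5 / 900 + t ^ 7 / 4200 := by
  have := G_Num_nn (fun t => -G_Num_F (1 / 100) t) (fun t => -G_Num_D (1 / 100) t) 1.1
    (G_Num_contF _).neg.continuousOn
    (by simp [G_Num_F, volA_lob_zero]) (fun t ht => (G_Num_dF _ ht).neg)
    (fun t ht => neg_nonneg.mpr (G_Num_DK ht)) t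
    ⟨ht.1.le, ht.2.le⟩
  simp only [G_Num_F] at this
  linarith

private theorem G_Num_log3 : 0.0461 ≤ log (π / 3) ∧ log (π / 3) ≤ 0.04614 := by
  have p1 := Real.pi_gt_d6
  have p2 := Real.pi_lt_d6
  obtain ⟨u, hu⟩ : ∃ u : ℝ, u = π / 3 - 1 := ⟨_, rfl⟩
  have u1 : 0.04719 ≤ u := by norm_num at p1 ⊢; linarith
  have u2 : u ≤ 0.0472 := by norm_num at p2 ⊢; linarith
  have hu0 : 0 ≤ u := le_trans (by norm_num) u1
  have hab : |(-u)| = u := by rw [abs_neg, abs_of_nonneg hu0]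
  have h := Real.abs_log_sub_add_sum_range_le (x := -u) (by rw [hab]; norm_num at u2 ⊢; linarith) 3
  rw [hab, show 1 - -u = π / 3 by rw [hu]; ring, abs_le] at h
  simp only [Finset.sum_range_succ, Finset.sum_range_zero, Nat.cast_zero, Nat.cast_one,
    Nat.cast_ofNat] at h
  have h1 : u ^ (3 + 1) / (1 - u) ≤ 0.00001 := by
    rw [div_le_iff₀ (by norm_num at u2 ⊢; linarith)]
    have : u ^ (3 + 1) ≤ 0.0472 ^ (3 + 1) := by gcongr
    norm_num at this u2 ⊢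
    linarith
  have a2 : 0.04719 ^ 2 ≤ u ^ 2 := by gcongr
  have a3 : 0.04719 ^ 3 ≤ u ^ 3 := by gcongr
  have b2 : u ^ 2 ≤ 0.0472 ^ 2 := by gcongr
  have b3 : u ^ 3 ≤ 0.0472 ^ 3 := by gcongr
  have e2 : (-u) ^ (1 + 1) = u ^ 2 := by ring
  have e3 : (-u) ^ (2 + 1) = -u ^ 3 := by ring
  rw [e2, e3] at h
  norm_num at a2 a3 b2 b3 h h1 u1 u2 ⊢
  constructor
  · linarith [h.1, h.2]
  · linarith [h.1, h.2]

private theorem G_Num_log4 : -0.2418 ≤ log (π / 4) ∧ log (π / 4) ≤ -0.2413 := by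
  have p1 := Real.pi_gt_d6
  have p2 := Real.pi_lt_d6
  obtain ⟨u, hu⟩ : ∃ u : ℝ, u = 1 - π / 4 := ⟨_, rfl⟩
  have u1 : 0.2146 ≤ u := by norm_num at p2 ⊢; linarith
  have u2 : u ≤ 0.21461 := by norm_num at p1 ⊢; linarith
  have hu0 : 0 ≤ u := le_trans (by norm_num) u1
  have hab : |u| = u := abs_of_nonneg hu0
  have h := Real.abs_log_sub_add_sum_range_le (x := u) (by rw [hab]; norm_num at u2 ⊢; linarith) 5
  rw [hab, show 1 - u = π / 4 by rw [hu]; ring, abs_le] at h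
  simp only [Finset.sum_range_succ, Finset.sum_range_zero, Nat.cast_zero, Nat.cast_one,
    Nat.cast_ofNat] at h
  have h1 : u ^ (5 + 1) / (π / 4) ≤ 0.000125 := by
    rw [div_le_iff₀ (by positivity)]
    have : u ^ (5 + 1) ≤ 0.21461 ^ (5 + 1) := by gcongr
    norm_num at this u2 p1 ⊢
    linarith
  have a2 : 0.2146 ^ 2 ≤ u ^ (1 + 1) := by gcongr
  have a3 : 0.2146 ^ 3 ≤ u ^ (2 + 1) := by gcongr
  have a4 : 0.2146 ^ 4 ≤ u ^ (3 + 1) := by gcongr
  have a5 : 0.2146 ^ 5 ≤ u ^ (4 + 1) := by gcongr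
  have b2 : u ^ (1 + 1) ≤ 0.21461 ^ 2 := by gcongr
  have b3 : u ^ (2 + 1) ≤ 0.21461 ^ 3 := by gcongr
  have b4 : u ^ (3 + 1) ≤ 0.21461 ^ 4 := by gcongr
  have b5 : u ^ (4 + 1) ≤ 0.21461 ^ 5 := by gcongr
  norm_num at a2 a3 a4 a5 b2 b3 b4 b5 h h1 u1 u2 ⊢
  constructor
  · linarith [h.1, h.2]
  · linarith [h.1, h.2]

private theorem G_Num_lov {t v a b c : ℝ} (ht : t ∈ Set.Ioo (0 : ℝ) 1.1)
    (hv : v = 1 - log 2 - log t) (ha : 0 ≤ a) (hat : a ≤ t) (hb : 0 ≤ b) (hbv : b ≤ v)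
    (h : c ≤ a * b + a ^ 3 / 18 + a ^ 5 / 900) : c ≤ lob t := by
  have h1 : a * b ≤ t * v := mul_le_mul hat hbv hb (ha.trans hat)
  have h3 : a ^ 3 ≤ t ^ 3 := by gcongr
  have h5 : a ^ 5 ≤ t ^ 5 := by gcongr
  have h2 := G_Num_lo ht
  have e : t * (1 - log 2) - t * log t = t * v := by rw [hv]; ring
  linarith

private theorem G_Num_upv {t v a b c : ℝ} (ht : t ∈ Set.Ioo (0 : ℝ) 1.1)
    (hv : v = 1 - log 2 - log t) (hat : t ≤ a) (hv0 : 0 ≤ v) (hbv : v ≤ b)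
    (h : a * b + a ^ 3 / 18 + a ^ 5 / 900 + a ^ 7 / 4200 ≤ c) : lob t ≤ c := by
  have h0 := ht.1
  have h1 : t * v ≤ a * b := mul_le_mul hat hbv hv0 (h0.le.trans hat)
  have h3 : t ^ 3 ≤ a ^ 3 := by gcongr
  have h5 : t ^ 5 ≤ a ^ 5 := by gcongr
  have h7 : t ^ 7 ≤ a ^ 7 := by gcongr
  have h2 := G_Num_up ht
  have e : t * (1 - log 2) - t * log t = t * v := by rw [hv]; ring
  linarith

theorem lob15 : 0.4317 ≤ lob (π / 12) := by
  have p1 := Real.pi_gt_d6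
  have p2 := Real.pi_lt_d6
  have l1 := Real.log_two_gt_d9
  have l2 := Real.log_two_lt_d9
  obtain ⟨k1, k2⟩ := G_Num_log3
  have e : log (π / 12) = log (π / 3) - 2 * log 2 := by
    rw [show π / 12 = π / 3 / 2 / 2 by ring, log_div (by positivity) (by norm_num),
      log_div (by positivity) (by norm_num)]
    ring
  refine G_Num_lov (v := 1 - log 2 - log (π / 12)) (a := 0.2617) (b := 1.6469) ⟨by positivity, ?_⟩
    rfl (by norm_num) ?_ (by norm_num) ?_ (by norm_num)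
  · norm_num at p2 ⊢; linarith
  · norm_num at p1 ⊢; linarith
  · rw [e]; norm_num at l1 l2 k1 k2 ⊢; linarith

theorem lob30 : 0.507 ≤ lob (π / 6) ∧ lob (π / 6) ≤ 0.508 := by
  have p1 := Real.pi_gt_d6
  have p2 := Real.pi_lt_d6
  have l1 := Real.log_two_gt_d9
  have l2 := Real.log_two_lt_d9
  obtain ⟨k1, k2⟩ := G_Num_log3
  have e : log (π / 6) = log (π / 3) - log 2 := by
    rw [show π / 6 = π / 3 / 2 by ring, log_div (by positivity) (by norm_num)]
  have ht : π / 6 ∈ Set.Ioo (0 : ℝ) 1.1 := ⟨by positivity, by norm_num at p2 ⊢; linarith⟩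
  constructor
  · refine G_Num_lov (v := 1 - log 2 - log (π / 6)) (a := 0.52359) (b := 0.9538) ht
      rfl (by norm_num) ?_ (by norm_num) ?_ (by norm_num)
    · norm_num at p1 ⊢; linarith
    · rw [e]; norm_num at l1 l2 k1 k2 ⊢; linarith
  · refine G_Num_upv (v := 1 - log 2 - log (π / 6)) (a := 0.5236) (b := 0.954) ht
      rfl ?_ ?_ ?_ (by norm_num)
    · norm_num at p2 ⊢; linarith
    · rw [e]; norm_num at l1 l2 k1 k2 ⊢; linarith
    · rw [e]; norm_num at l1 l2 k1 k2 ⊢; linarith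

theorem lob45 : 0.4575 ≤ lob (π / 4) ∧ lob (π / 4) ≤ 0.459 := by
  have p1 := Real.pi_gt_d6
  have p2 := Real.pi_lt_d6
  have l1 := Real.log_two_gt_d9
  have l2 := Real.log_two_lt_d9
  obtain ⟨k1, k2⟩ := G_Num_log4
  have ht : π / 4 ∈ Set.Ioo (0 : ℝ) 1.1 := ⟨by positivity, by norm_num at p2 ⊢; linarith⟩
  constructor
  · refine G_Num_lov (v := 1 - log 2 - log (π / 4)) (a := 0.78539) (b := 0.548) ht
      rfl (by norm_num) ?_ (by norm_num) ?_ (by norm_num)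
    · norm_num at p1 ⊢; linarith
    · norm_num at l1 l2 k1 k2 ⊢; linarith
  · refine G_Num_upv (v := 1 - log 2 - log (π / 4)) (a := 0.7854) (b := 0.5487) ht
      rfl ?_ ?_ ?_ (by norm_num)
    · norm_num at p2 ⊢; linarith
    · norm_num at l1 l2 k1 k2 ⊢; linarith
    · norm_num at l1 l2 k1 k2 ⊢; linarith

theorem lob60 : 0.338 ≤ lob (π / 3) ∧ lob (π / 3) ≤ 0.339 := by
  have p1 := Real.pi_gt_d6
  have p2 := Real.pi_lt_d6
  have l1 := Real.log_two_gt_d9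
  have l2 := Real.log_two_lt_d9
  obtain ⟨k1, k2⟩ := G_Num_log3
  have ht : π / 3 ∈ Set.Ioo (0 : ℝ) 1.1 := ⟨by positivity, by norm_num at p2 ⊢; linarith⟩
  constructor
  · refine G_Num_lov (v := 1 - log 2 - log (π / 3)) (a := 1.04719) (b := 0.2607) ht
      rfl (by norm_num) ?_ (by norm_num) ?_ (by norm_num)
    · norm_num at p1 ⊢; linarith
    · norm_num at l1 l2 k1 k2 ⊢; linarith
  · refine G_Num_upv (v := 1 - log 2 - log (π / 3)) (a := 1.0472) (b := 0.2608) ht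
      rfl ?_ ?_ ?_ (by norm_num)
    · norm_num at p2 ⊢; linarith
    · norm_num at l1 l2 k1 k2 ⊢; linarith
    · norm_num at l1 l2 k1 k2 ⊢; linarith

end Pool.Agent.H63.CLK
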