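import Pool.Agent.H63.CLK.G_R
import Pool.Agent.H63.CLK.G_Num

/-!
# Symmetries, and lower bounds for the critical values

`Ph_ge_gen`: `R_le` at `a = π/3`, `s = (π/4, π/2, π/4, 0)`; the corner terms are
`lob (π/4) + lob (π/12)` (twice), `lob (π/2) + lob (π/6)`, `lob 0 + lob (2π/3)`, and
`vE (π/3) = 4 (lob (π/3) + lob (π/6))`. Here `κ 3` is arbitrary (`s 3 = 0`).
`Ph_ge_one`: `R_le` at `a = π/3`, `s = (π/4, π/6, π/12, π/2)`.
`PhE_ge`: `R_end_le` at `a = π/3`.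
The symmetries are immediate from the definitions (reflections of the vertex; `e1` and `e2` are
exchanged by `Sw02` and fixed by `Sw13`).
-/

set_option autoImplicit false

namespace Pool.Agent.H63.CLK

open Pool.Agent.H63.VC hiding ext
open Pool.Agent.H63.VC7 Real
open scoped BigOperators

/-- The reflection exchanging right and left. -/
def Sw13 (s : Fin 4 → ℝ) : Fin 4 → ℝ := ![s 0, s 3, s 2, s 1]

/-- The reflection exchanging top and bottom. -/
def Sw02 (s : Fin 4 → ℝ) : Fin 4 → ℝ := ![s 2, s 1, s 0, s 3]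

variable {κ : Fin 4 → ℝ} {a : ℝ} {s : Fin 4 → ℝ}

theorem LP_Sw13 (h : LP a s) : LP a (Sw13 s) := by
  refine ⟨?_, ?_, ?_⟩
  · have hs := h.sum
    rw [Fin.sum_univ_four] at hs ⊢
    show s 0 + s 3 + s 2 + s 1 = π
    linarith
  · intro k
    fin_cases k
    · exact h.nn 0
    · exact h.nn 3
    · exact h.nn 2
    · exact h.nn 1
  · intro k
    fin_cases k
    · exact h.le 0
    · exact h.le 3
    · exact h.le 2
    · exact h.le 1

theorem LP_Sw02 (h : LP a s) : LP a (Sw02 s) := by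
  refine ⟨?_, ?_, ?_⟩
  · have hs := h.sum
    rw [Fin.sum_univ_four] at hs ⊢
    show s 2 + s 1 + s 0 + s 3 = π
    linarith
  · intro k
    fin_cases k
    · exact h.nn 2
    · exact h.nn 1
    · exact h.nn 0
    · exact h.nn 3
  · intro k
    fin_cases k
    · exact h.le 2
    · exact h.le 1
    · exact h.le 0
    · exact h.le 3

theorem Bv_Sw13 : Bv a (Sw13 s) = Bv a s := by
  unfold Bv
  rw [Fin.sum_univ_four, Fin.sum_univ_four]
  show 2 * (lob (s 0) + lob (a - s 0)) + 2 * (lob (s 3) + lob (π - a - s 3)) +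
      2 * (lob (s 2) + lob (a - s 2)) + 2 * (lob (s 1) + lob (π - a - s 1)) =
    2 * (lob (s 0) + lob (a - s 0)) + 2 * (lob (s 1) + lob (π - a - s 1)) +
      2 * (lob (s 2) + lob (a - s 2)) + 2 * (lob (s 3) + lob (π - a - s 3))
  ring

theorem Bv_Sw02 : Bv a (Sw02 s) = Bv a s := by
  unfold Bv
  rw [Fin.sum_univ_four, Fin.sum_univ_four]
  show 2 * (lob (s 2) + lob (a - s 2)) + 2 * (lob (s 1) + lob (π - a - s 1)) +
      2 * (lob (s 0) + lob (a - s 0)) + 2 * (lob (s 3) + lob (π - a - s 3)) =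
    2 * (lob (s 0) + lob (a - s 0)) + 2 * (lob (s 1) + lob (π - a - s 1)) +
      2 * (lob (s 2) + lob (a - s 2)) + 2 * (lob (s 3) + lob (π - a - s 3))
  ring

theorem lin_Sw13 : linG (Sw13 κ) (Sw13 s) = linG κ s := by
  unfold linG
  rw [Fin.sum_univ_four, Fin.sum_univ_four]
  show 2 * s 0 * log (κ 0) + 2 * s 3 * log (κ 3) + 2 * s 2 * log (κ 2) + 2 * s 1 * log (κ 1) =
    2 * s 0 * log (κ 0) + 2 * s 1 * log (κ 1) + 2 * s 2 * log (κ 2) + 2 * s 3 * log (κ 3)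
  ring

theorem lin_Sw02 : linG (Sw02 κ) (Sw02 s) = linG κ s := by
  unfold linG
  rw [Fin.sum_univ_four, Fin.sum_univ_four]
  show 2 * s 2 * log (κ 2) + 2 * s 1 * log (κ 1) + 2 * s 0 * log (κ 0) + 2 * s 3 * log (κ 3) =
    2 * s 0 * log (κ 0) + 2 * s 1 * log (κ 1) + 2 * s 2 * log (κ 2) + 2 * s 3 * log (κ 3)
  ring

theorem Ph_Sw13 : Ph (Sw13 κ) = Ph κ := by
  have h1 : e1 (Sw13 κ) = e1 κ := by
    show √(κ 0 * κ 3 + κ 3 * κ 1 + κ 1 * κ 0) = √(κ 0 * κ 1 + κ 1 * κ 3 + κ 3 * κ 0)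
    congr 1; ring
  have h2 : e2 (Sw13 κ) = e2 κ := by
    show √(κ 2 * κ 3 + κ 3 * κ 1 + κ 1 * κ 2) = √(κ 2 * κ 1 + κ 1 * κ 3 + κ 3 * κ 2)
    congr 1; ring
  have h3 : ast (Sw13 κ) = ast κ := by
    unfold ast
    rw [h1, h2]
    show arctan ((e1 κ + e2 κ) / (κ 3 + κ 1)) = _
    rw [add_comm (κ 3)]
  have h4 : sst (Sw13 κ) = Sw13 (sst κ) := by
    unfold sst
    rw [h1, h2]
    rfl
  unfold Ph Wv
  rw [h3, h4, Bv_Sw13, lin_Sw13]

theorem Ph_Sw02 : Ph (Sw02 κ) = Ph κ := by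
  have h1 : e1 (Sw02 κ) = e2 κ := rfl
  have h2 : e2 (Sw02 κ) = e1 κ := rfl
  have h3 : ast (Sw02 κ) = ast κ := by
    unfold ast
    rw [h1, h2, add_comm (e2 κ)]
    rfl
  have h4 : sst (Sw02 κ) = Sw02 (sst κ) := by
    unfold sst
    rw [h1, h2]
    funext k
    fin_cases k
    · rfl
    · show arctan (κ 1 / e2 κ) + arctan (κ 1 / e1 κ) = arctan (κ 1 / e1 κ) + arctan (κ 1 / e2 κ)
      ring
    · rfl
    · show arctan (κ 3 / e2 κ) + arctan (κ 3 / e1 κ) = arctan (κ 3 / e1 κ) + arctan (κ 3 / e2 κ)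
      ring
  unfold Ph Wv
  rw [h3, h4, Bv_Sw02, lin_Sw02]

private theorem G_Low_lob_zero : lob 0 = 0 := by
  have h := lob_pi_sub (0 : ℝ)
  simp [lob]

theorem Ph_ge_gen (h0 : 0 < κ 0) (h1 : 0 < κ 1) (h2 : 0 < κ 2) (h3 : 0 ≤ κ 3) :
    4 * lob (π / 4) + 4 * lob (π / 12) + 6 * lob (π / 6) + 2 * lob (π / 3) +
      π / 2 * (log (κ 0) + log (κ 2)) + π * log (κ 1) ≤ Ph κ := by
  have hLP : LP (π / 3) ![π / 4, π / 2, π / 4, 0] := by
    refine ⟨?_, ?_, ?_⟩
    · rw [Fin.sum_univ_four]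
      show π / 4 + π / 2 + π / 4 + 0 = π
      ring
    · intro k
      fin_cases k
      · show 0 ≤ π / 4; positivity
      · show 0 ≤ π / 2; positivity
      · show 0 ≤ π / 4; positivity
      · exact le_refl _
    · intro k
      fin_cases k
      · show π / 4 ≤ π / 3; linarith [pi_pos]
      · show π / 2 ≤ π - π / 3; linarith [pi_pos]
      · show π / 4 ≤ π / 3; linarith [pi_pos]
      · show 0 ≤ π - π / 3; linarith [pi_pos]
  have hR := R_le h0 h1 h2 h3 hLP (by linarith [pi_pos]) (fun _ => rfl)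
  refine le_trans (le_of_eq ?_) hR
  unfold Wv Bv linG vE
  rw [if_pos (by linarith [pi_pos]), Fin.sum_univ_four, Fin.sum_univ_four]
  have e1 : π / 2 - π / 3 = π / 6 := by ring
  have e2 : π / 3 - π / 4 = π / 12 := by ring
  have e3 : π - π / 3 - π / 2 = π / 6 := by ring
  show _ = 4 * (lob (π / 3) + lob (π / 2 - π / 3)) +
    (2 * (lob (π / 4) + lob (π / 3 - π / 4)) + 2 * (lob (π / 2) + lob (π - π / 3 - π / 2)) +
      2 * (lob (π / 4) + lob (π / 3 - π / 4)) + 2 * (lob 0 + lob (π - π / 3 - 0))) +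
    (2 * (π / 4) * log (κ 0) + 2 * (π / 2) * log (κ 1) + 2 * (π / 4) * log (κ 2) +
      2 * 0 * log (κ 3))
  rw [e1, e2, e3, sub_zero, lob_pi_sub, lob_pi_div_two, G_Low_lob_zero]
  ring

theorem Ph_ge_one (h0 : 0 < κ 0) (h1 : 0 < κ 1) (h2 : 0 < κ 2) (h3 : 0 < κ 3) :
    4 * lob (π / 4) + 4 * lob (π / 12) + 8 * lob (π / 6) + 4 * lob (π / 3) +
      π / 2 * log (κ 0) + π / 3 * log (κ 1) + π / 6 * log (κ 2) + π * log (κ 3) ≤ Ph κ := by
  have hLP : LP (π / 3) ![π / 4, π / 6, π / 12, π / 2] := by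
    refine ⟨?_, ?_, ?_⟩
    · rw [Fin.sum_univ_four]
      show π / 4 + π / 6 + π / 12 + π / 2 = π
      ring
    · intro k
      fin_cases k
      · show 0 ≤ π / 4; positivity
      · show 0 ≤ π / 6; positivity
      · show 0 ≤ π / 12; positivity
      · show 0 ≤ π / 2; positivity
    · intro k
      fin_cases k
      · show π / 4 ≤ π / 3; linarith [pi_pos]
      · show π / 6 ≤ π - π / 3; linarith [pi_pos]
      · show π / 12 ≤ π / 3; linarith [pi_pos]
      · show π / 2 ≤ π - π / 3; linarith [pi_pos]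
  have hR := R_le h0 h1 h2 h3.le hLP (by linarith [pi_pos]) (fun h => absurd h h3.ne')
  refine le_trans (le_of_eq ?_) hR
  unfold Wv Bv linG vE
  rw [if_pos (by linarith [pi_pos]), Fin.sum_univ_four, Fin.sum_univ_four]
  have e1 : π / 2 - π / 3 = π / 6 := by ring
  have e2 : π / 3 - π / 4 = π / 12 := by ring
  have e3 : π - π / 3 - π / 6 = π / 2 := by ring
  have e4 : π / 3 - π / 12 = π / 4 := by ring
  have e5 : π - π / 3 - π / 2 = π / 6 := by ring
  show _ = 4 * (lob (π / 3) + lob (π / 2 - π / 3)) +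
    (2 * (lob (π / 4) + lob (π / 3 - π / 4)) + 2 * (lob (π / 6) + lob (π - π / 3 - π / 6)) +
      2 * (lob (π / 12) + lob (π / 3 - π / 12)) + 2 * (lob (π / 2) + lob (π - π / 3 - π / 2))) +
    (2 * (π / 4) * log (κ 0) + 2 * (π / 6) * log (κ 1) + 2 * (π / 12) * log (κ 2) +
      2 * (π / 2) * log (κ 3))
  rw [e1, e2, e3, e4, e5, lob_pi_div_two]
  ring

theorem PhE_ge {κt κs : ℝ} (ht : 0 < κt) (hs : 0 < κs) :
    4 * (lob (π / 6) + lob (π / 3)) + 2 * π / 3 * log κt + 4 * π / 3 * log κs ≤ PhE κt κs := by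
  have hR := R_end_le (a := π / 3) ht hs (by positivity) (by linarith [pi_pos])
  refine le_trans (le_of_eq ?_) hR
  unfold vE
  have e1 : π / 2 - π / 3 = π / 6 := by ring
  rw [e1]
  ring

end Pool.Agent.H63.CLK
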