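import Pool.Agent.H63.CLK.G_Low
import Pool.Agent.H63.CLK.G_SB

/-!
# The vertices next to the ends

`z = cos² (π/N)`, `K3 = (4z-1)^2`, `κ = (K3, 1/z, 1, 4z)`, `κ' = (K3, 1/z, 2, 2)`; `3/4 ≤ z < 1`.
By `Ph_ge_one`, `Ph κ ≥ C1 + π log (4z-1) - π/3 log z + π log (4z)`, with
`C1 = 4 lob (π/4) + 4 lob (π/12) + 8 lob (π/6) + 4 lob (π/3)`.

`one_lt`: `T_le` with `μ = √3 / K3`, `C = (S3, π/3 μ/z, π/3 μ, π/3 4zμ)`, where
`S3 = 2 lob (π/3) + 2π/3 log √3` (`SB_sqrt3`, `SB_lin`; note `4zμ ≤ √2` for `3/4 ≤ z ≤ 1`). So it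
suffices that
`F z = C1 - 2 S3 + 2π log √3 - 3π log (4z-1) + π log (4z) - π/3 log z
- 2π√3/3 (1/z + 1 + 4z)/(4z-1)^2 > 0`. At `z = 1` it is `0.34` (with the constants of `G_Num`;
`C1 - 2 S3 + 2π log √3 = C1 - 4 lob (π/3) + π/3 log 3`), and `F z ≥ F 1`:
`-3π log ((4z-1)/3) ≥ 4π (1-z)`, `2π/3 log z ≥ -2π/3 (1-z)/z ≥ -2.8 (1-z)`, and
`q z = (1/z + 1 + 4z)/(4z-1)^2` satisfies `q z - 2/3 ≤ 8/3 (1-z)` (rational inequality).

`one_mod_T`: the same with `C = (S3, π/3 μ/z, π/3 2μ, π/3 2μ)`; as `1/z + 4 ≤ 1/z + 1 + 4z` the bound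
is at most the one of `one_lt`.

`one_mod_R`: by `R_le` for `κ'` it is `≤ Ph κ'`; and by `R_le` for `κ` at the critical point of `κ'`
(`LP_sst`), `Ph κ ≥ Ph κ' + 2 s2 (log 1 - log 2) + 2 s3 (log (4z) - log 2)` with `s = sst κ'`,
`s2 = arctan (2 / e2 κ')`, `s3 = arctan (2 / e1 κ') + arctan (2 / e2 κ') ≥ s2`, `log (4z) ≥ log 2`,
so `Ph κ ≥ Ph κ' + 2 s2 log z`, and `s2 ≤ π/4` because `e2 κ' = √(4/z + 4) ≥ 2`; `log z < 0`.
-/

set_option autoImplicit false

namespace Pool.Agent.H63.CLK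

open Pool.Agent.H63.VC hiding ext
open Pool.Agent.H63.VC7 Real
open scoped BigOperators

variable {z a : ℝ} {s : Fin 4 → ℝ}

private theorem G_One_log3 : log 3 ≤ 1.1 := by
  have h1 : (12 : ℝ) * log 3 = 19 * log 2 + log (531441 / 524288) := by
    have e1 : (12 : ℝ) * log 3 = log (3 ^ 12) := by
      rw [Real.log_pow]
      norm_num
    have e2 : (19 : ℝ) * log 2 = log (2 ^ 19) := by
      rw [Real.log_pow]
      norm_num
    rw [e1, e2, ← Real.log_mul (by norm_num) (by norm_num)]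
    congr 1
    norm_num
  have h2 := Real.log_le_sub_one_of_pos (show (0 : ℝ) < 531441 / 524288 by norm_num)
  have h3 := Real.log_two_lt_d9
  norm_num at h2 h3 ⊢
  linarith

private theorem G_One_q (hz : 3 / 4 ≤ z) (hz1 : z < 1) :
    (1 / z + 1 + 4 * z) / (4 * z - 1) ^ 2 ≤ 2 / 3 + 8 / 3 * (1 - z) := by
  have hz0 : 0 < z := by linarith
  have hK : 0 < (4 * z - 1) ^ 2 := by
    have : 0 < 4 * z - 1 := by linarith
    positivity
  rw [div_le_iff₀ hK]
  have h1 : 1 / z + 1 + 4 * z = (1 + z + 4 * z ^ 2) / z := by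
    field_simp
  rw [h1, div_le_iff₀ hz0]
  have h2 : 0 ≤ (1 - z) * (4 * z - 3) * (32 * z ^ 2 + 1) :=
    mul_nonneg (mul_nonneg (by linarith) (by linarith)) (by positivity)
  nlinarith [h2]

private theorem G_One_num (hz : 3 / 4 ≤ z) (hz1 : z < 1) :
    2 * (2 * lob (π / 3) + 2 * π / 3 * log √3 +
      π / 3 * (√3 / (4 * z - 1) ^ 2) * (1 / z + 1 + 4 * z)) -
      2 * π * log (√3 / (4 * z - 1) ^ 2) <
    4 * lob (π / 4) + 4 * lob (π / 12) + 8 * lob (π / 6) + 4 * lob (π / 3) +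
      π / 2 * log ((4 * z - 1) ^ 2) + π / 3 * log (1 / z) + π / 6 * log 1 +
      π * log (4 * z) := by
  have hz0 : 0 < z := by linarith
  have hK0 : 0 < 4 * z - 1 := by linarith
  have hK : 0 < (4 * z - 1) ^ 2 := by positivity
  have h3 : (0 : ℝ) < √3 := by positivity
  have e1 : log (√3 / (4 * z - 1) ^ 2) = log 3 / 2 - 2 * log (4 * z - 1) := by
    rw [Real.log_div h3.ne' hK.ne', Real.log_sqrt (by norm_num), Real.log_pow]
    norm_num
  have e2 : log √3 = log 3 / 2 := Real.log_sqrt (by norm_num)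
  have e3 : log ((4 * z - 1) ^ 2) = 2 * log (4 * z - 1) := by
    rw [Real.log_pow]
    norm_num
  have e4 : log (1 / z) = -log z := by
    rw [one_div, Real.log_inv]
  have e5 : log (4 * z) = 2 * log 2 + log z := by
    rw [Real.log_mul (by norm_num) hz0.ne']
    have : log 4 = 2 * log 2 := by
      rw [show (4 : ℝ) = 2 ^ 2 by norm_num, Real.log_pow]
      norm_num
    rw [this]
  rw [e1, e2, e3, e4, e5, Real.log_one]
  have hq := G_One_q hz hz1
  have e6 : π / 3 * (√3 / (4 * z - 1) ^ 2) * (1 / z + 1 + 4 * z) =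
      π / 3 * (√3 * ((1 / z + 1 + 4 * z) / (4 * z - 1) ^ 2)) := by
    rw [div_eq_mul_inv √3, div_eq_mul_inv (1 / z + 1 + 4 * z)]
    ring
  rw [e6]
  -- the logarithm of `4 z - 1`
  have l1 : log (4 * z - 1) ≤ log 3 - 4 / 3 * (1 - z) := by
    have h1 := Real.log_le_sub_one_of_pos (show (0 : ℝ) < (4 * z - 1) / 3 by positivity)
    rw [Real.log_div hK0.ne' (by norm_num)] at h1
    linarith
  have l2 : -(4 / 3 * (1 - z)) ≤ log z := by
    have h1 := Real.one_sub_inv_le_log_of_pos hz0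
    have h2 : z⁻¹ ≤ 1 + 4 / 3 * (1 - z) := by
      rw [inv_eq_one_div, div_le_iff₀ hz0]
      nlinarith
    linarith
  have hs3 : √3 ≤ 1.7321 := by
    rw [show (1.7321 : ℝ) = √(1.7321 ^ 2) by rw [Real.sqrt_sq (by norm_num)]]
    exact Real.sqrt_le_sqrt (by norm_num)
  have l3 : √3 * ((1 / z + 1 + 4 * z) / (4 * z - 1) ^ 2) ≤
      1.7321 * (2 / 3 + 8 / 3 * (1 - z)) := by
    have h1 : 0 ≤ (1 / z + 1 + 4 * z) / (4 * z - 1) ^ 2 := by positivity
    calc √3 * ((1 / z + 1 + 4 * z) / (4 * z - 1) ^ 2)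
        ≤ 1.7321 * ((1 / z + 1 + 4 * z) / (4 * z - 1) ^ 2) :=
          mul_le_mul_of_nonneg_right hs3 h1
      _ ≤ _ := mul_le_mul_of_nonneg_left hq (by norm_num)
  have l4 := G_One_log3
  have l5 := Real.log_two_gt_d9
  have b1 := lob15
  have b2 := lob30.1
  have b3 := lob45.1
  -- everything which is multiplied by `π`
  have key : log 3 / 3 + 2 / 3 * log z + 2 * log 2 - 3 * log (4 * z - 1) -
      2 / 3 * (√3 * ((1 / z + 1 + 4 * z) / (4 * z - 1) ^ 2)) ≥ -2.32 := by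
    norm_num at l3 l4 l5 ⊢
    linarith
  have key2 : π * (log 3 / 3 + 2 / 3 * log z + 2 * log 2 - 3 * log (4 * z - 1) -
      2 / 3 * (√3 * ((1 / z + 1 + 4 * z) / (4 * z - 1) ^ 2))) ≥ π * (-2.32) :=
    mul_le_mul_of_nonneg_left key pi_pos.le
  have hpi := Real.pi_lt_d2
  norm_num at b1 b2 b3 hpi key2 ⊢
  nlinarith [key2, b1, b2, b3, hpi]

private theorem G_One_sb {w κ μ : ℝ} (hκ : 0 < κ) (hμ : 0 < μ) (h : κ * μ ≤ √2)
    (hw : w = π / 3 * (κ * μ)) : SB (κ * μ) w := by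
  rw [hw]
  exact SB_lin (mul_pos hκ hμ) h lob45.2

private theorem G_One_mu (hz : 3 / 4 ≤ z) :
    √3 / (4 * z - 1) ^ 2 ≤ √3 / 4 ∧ 4 * z * (√3 / (4 * z - 1) ^ 2) ≤ √2 ∧ √3 / 2 ≤ √2 := by
  have h3 : (0 : ℝ) < √3 := by positivity
  have hK0 : 0 < 4 * z - 1 := by linarith
  have hK : 0 < (4 * z - 1) ^ 2 := by positivity
  have h32 : √3 * 3 / 4 ≤ √2 := by
    rw [show √3 * 3 / 4 = √(3 * (3 / 4) ^ 2) by
      rw [Real.sqrt_mul (by norm_num), Real.sqrt_sq (by norm_num)]; ring]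
    exact Real.sqrt_le_sqrt (by norm_num)
  refine ⟨?_, ?_, by linarith⟩
  · apply div_le_div_of_nonneg_left h3.le (by norm_num)
    nlinarith
  · have h1 : 4 * z / (4 * z - 1) ^ 2 ≤ 3 / 4 := by
      rw [div_le_iff₀ hK]
      nlinarith
    calc 4 * z * (√3 / (4 * z - 1) ^ 2) = √3 * (4 * z / (4 * z - 1) ^ 2) := by ring
      _ ≤ √3 * (3 / 4) := mul_le_mul_of_nonneg_left h1 h3.le
      _ ≤ √2 := by linarith

theorem one_lt (hz : 3 / 4 ≤ z) (hz1 : z < 1) (h : LP a s) :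
    Bv a s + linG ![(4 * z - 1) ^ 2, 1 / z, 1, 4 * z] s <
      Ph ![(4 * z - 1) ^ 2, 1 / z, 1, 4 * z] := by
  have hz0 : 0 < z := by linarith
  have hK0 : 0 < 4 * z - 1 := by linarith
  have hK : 0 < (4 * z - 1) ^ 2 := by positivity
  have h3 : (0 : ℝ) < √3 := by positivity
  obtain ⟨m1, m2, m3⟩ := G_One_mu hz
  have hμ : 0 < √3 / (4 * z - 1) ^ 2 := by positivity
  set μ := √3 / (4 * z - 1) ^ 2 with hμd
  have hKμ : (4 * z - 1) ^ 2 * μ = √3 := by
    rw [hμd]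
    field_simp
  have hz' : 1 / z ≤ 4 / 3 := by
    rw [div_le_iff₀ hz0]
    linarith
  have hlow := Ph_ge_one (κ := ![(4 * z - 1) ^ 2, 1 / z, 1, 4 * z]) (by simpa using hK)
    (by simpa using hz0) (by simp) (by simpa using hz0)
  have hup := T_le (κ := ![(4 * z - 1) ^ 2, 1 / z, 1, 4 * z]) (a := a) (s := s) hμ
    (by
      intro k
      fin_cases k
      · exact hK.le
      · exact (by positivity : (0 : ℝ) ≤ 1 / z)
      · exact (by norm_num : (0 : ℝ) ≤ 1)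
      · exact (by positivity : (0 : ℝ) ≤ 4 * z))
    (C := ![2 * lob (π / 3) + 2 * π / 3 * log √3, π / 3 * (1 / z * μ), π / 3 * (1 * μ),
      π / 3 * (4 * z * μ)])
    (by
      intro k hk
      fin_cases k
      · change SB ((4 * z - 1) ^ 2 * μ) (2 * lob (π / 3) + 2 * π / 3 * log √3)
        rw [hKμ]
        exact SB_sqrt3
      · change SB (1 / z * μ) (π / 3 * (1 / z * μ))
        refine G_One_sb (by positivity) hμ ?_ rfl
        nlinarith [mul_le_mul hz' m1 hμ.le (by norm_num)]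
      · change SB (1 * μ) (π / 3 * (1 * μ))
        refine G_One_sb one_pos hμ ?_ rfl
        linarith
      · change SB (4 * z * μ) (π / 3 * (4 * z * μ))
        exact G_One_sb (by positivity) hμ m2 rfl)
    (by
      intro k hk
      exfalso
      fin_cases k
      · exact hK.ne' hk
      · exact (by positivity : (0 : ℝ) < 1 / z).ne' hk
      · exact one_ne_zero hk
      · exact (by positivity : (0 : ℝ) < 4 * z).ne' hk) h
    (by
      intro k hk
      exfalso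
      fin_cases k
      · exact hK.ne' hk
      · exact (by positivity : (0 : ℝ) < 1 / z).ne' hk
      · exact one_ne_zero hk
      · exact (by positivity : (0 : ℝ) < 4 * z).ne' hk)
  have hnum := G_One_num hz hz1
  rw [← hμd] at hnum
  rw [Fin.sum_univ_four] at hup
  change _ ≤ 2 * (2 * lob (π / 3) + 2 * π / 3 * log √3 + π / 3 * (1 / z * μ) +
    π / 3 * (1 * μ) + π / 3 * (4 * z * μ)) - 2 * π * log μ at hup
  change 4 * lob (π / 4) + 4 * lob (π / 12) + 8 * lob (π / 6) + 4 * lob (π / 3) +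
      π / 2 * log ((4 * z - 1) ^ 2) + π / 3 * log (1 / z) + π / 6 * log 1 +
      π * log (4 * z) ≤ _ at hlow
  have he : 2 * lob (π / 3) + 2 * π / 3 * log √3 + π / 3 * (1 / z * μ) +
    π / 3 * (1 * μ) + π / 3 * (4 * z * μ) = 2 * lob (π / 3) + 2 * π / 3 * log √3 +
      π / 3 * μ * (1 / z + 1 + 4 * z) := by ring
  rw [he] at hup
  linarith

theorem one_mod_T (hz : 3 / 4 ≤ z) (hz1 : z < 1) (h : LP a s) :
    Bv a s + linG ![(4 * z - 1) ^ 2, 1 / z, 2, 2] s ≤
      Ph ![(4 * z - 1) ^ 2, 1 / z, 1, 4 * z] := by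
  have hz0 : 0 < z := by linarith
  have hK0 : 0 < 4 * z - 1 := by linarith
  have hK : 0 < (4 * z - 1) ^ 2 := by positivity
  have h3 : (0 : ℝ) < √3 := by positivity
  obtain ⟨m1, m2, m3⟩ := G_One_mu hz
  have hμ : 0 < √3 / (4 * z - 1) ^ 2 := by positivity
  set μ := √3 / (4 * z - 1) ^ 2 with hμd
  have hKμ : (4 * z - 1) ^ 2 * μ = √3 := by
    rw [hμd]
    field_simp
  have hz' : 1 / z ≤ 4 / 3 := by
    rw [div_le_iff₀ hz0]
    linarith
  have hlow := Ph_ge_one (κ := ![(4 * z - 1) ^ 2, 1 / z, 1, 4 * z]) (by simpa using hK)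
    (by simpa using hz0) (by simp) (by simpa using hz0)
  have hup := T_le (κ := ![(4 * z - 1) ^ 2, 1 / z, 2, 2]) (a := a) (s := s) hμ
    (by
      intro k
      fin_cases k
      · exact hK.le
      · exact (by positivity : (0 : ℝ) ≤ 1 / z)
      · exact (by norm_num : (0 : ℝ) ≤ 2)
      · exact (by norm_num : (0 : ℝ) ≤ 2))
    (C := ![2 * lob (π / 3) + 2 * π / 3 * log √3, π / 3 * (1 / z * μ), π / 3 * (2 * μ),
      π / 3 * (2 * μ)])
    (by
      intro k hk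
      fin_cases k
      · change SB ((4 * z - 1) ^ 2 * μ) (2 * lob (π / 3) + 2 * π / 3 * log √3)
        rw [hKμ]
        exact SB_sqrt3
      · change SB (1 / z * μ) (π / 3 * (1 / z * μ))
        refine G_One_sb (by positivity) hμ ?_ rfl
        nlinarith [mul_le_mul hz' m1 hμ.le (by norm_num)]
      · change SB (2 * μ) (π / 3 * (2 * μ))
        refine G_One_sb two_pos hμ ?_ rfl
        linarith
      · change SB (2 * μ) (π / 3 * (2 * μ))
        refine G_One_sb two_pos hμ ?_ rfl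
        linarith)
    (by
      intro k hk
      exfalso
      fin_cases k
      · exact hK.ne' hk
      · exact (by positivity : (0 : ℝ) < 1 / z).ne' hk
      · exact two_ne_zero hk
      · exact two_ne_zero hk) h
    (by
      intro k hk
      exfalso
      fin_cases k
      · exact hK.ne' hk
      · exact (by positivity : (0 : ℝ) < 1 / z).ne' hk
      · exact two_ne_zero hk
      · exact two_ne_zero hk)
  have hnum := G_One_num hz hz1
  rw [← hμd] at hnum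
  rw [Fin.sum_univ_four] at hup
  change _ ≤ 2 * (2 * lob (π / 3) + 2 * π / 3 * log √3 + π / 3 * (1 / z * μ) +
    π / 3 * (2 * μ) + π / 3 * (2 * μ)) - 2 * π * log μ at hup
  change 4 * lob (π / 4) + 4 * lob (π / 12) + 8 * lob (π / 6) + 4 * lob (π / 3) +
      π / 2 * log ((4 * z - 1) ^ 2) + π / 3 * log (1 / z) + π / 6 * log 1 +
      π * log (4 * z) ≤ _ at hlow
  have he : 2 * lob (π / 3) + 2 * π / 3 * log √3 + π / 3 * (1 / z * μ) +
    π / 3 * (2 * μ) + π / 3 * (2 * μ) = 2 * lob (π / 3) + 2 * π / 3 * log √3 +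
      π / 3 * μ * (1 / z + 1 + 4 * z) - π / 3 * μ * (4 * z - 3) := by ring
  rw [he] at hup
  have h5 : 0 ≤ π / 3 * μ * (4 * z - 3) := by
    have := pi_pos
    have h6 : 0 ≤ 4 * z - 3 := by linarith
    positivity
  linarith

theorem one_mod_R (hz : 3 / 4 ≤ z) (hz1 : z < 1) (h : LP a s) (ha : a ≤ π / 2) :
    Wv a s + linG ![(4 * z - 1) ^ 2, 1 / z, 2, 2] s ≤
      Ph ![(4 * z - 1) ^ 2, 1 / z, 1, 4 * z] - π / 2 * log z := by
  have hz0 : 0 < z := by linarith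
  have hK0 : 0 < 4 * z - 1 := by linarith
  have hK : 0 < (4 * z - 1) ^ 2 := by positivity
  have hz' : (0 : ℝ) < 1 / z := by positivity
  set κ' : Fin 4 → ℝ := ![(4 * z - 1) ^ 2, 1 / z, 2, 2] with hκ'
  set κ : Fin 4 → ℝ := ![(4 * z - 1) ^ 2, 1 / z, 1, 4 * z] with hκ
  have k0 : 0 < κ' 0 := hK
  have k1 : 0 < κ' 1 := hz'
  have k2 : 0 < κ' 2 := two_pos
  have k3 : 0 ≤ κ' 3 := zero_le_two
  have h1 : Wv a s + linG κ' s ≤ Ph κ' := R_le k0 k1 k2 k3 h ha
    (fun hk => absurd hk (two_ne_zero : (2 : ℝ) ≠ 0))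
  have hL := LP_sst k0 k1 k2 k3
  have h2 : Wv (ast κ') (sst κ') + linG κ (sst κ') ≤ Ph κ :=
    R_le (κ := κ) hK hz' one_pos (by positivity : (0 : ℝ) ≤ 4 * z) hL
      (Real.arctan_lt_pi_div_two _).le
      (fun hk => absurd hk (by positivity : (0 : ℝ) < 4 * z).ne')
  have h3 : Ph κ' = Wv (ast κ') (sst κ') + linG κ' (sst κ') := rfl
  have hl1 : linG κ (sst κ') = 2 * sst κ' 0 * log ((4 * z - 1) ^ 2) +
      2 * sst κ' 1 * log (1 / z) + 2 * sst κ' 2 * log 1 + 2 * sst κ' 3 * log (4 * z) := by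
    rw [linG, Fin.sum_univ_four]
    rfl
  have hl2 : linG κ' (sst κ') = 2 * sst κ' 0 * log ((4 * z - 1) ^ 2) +
      2 * sst κ' 1 * log (1 / z) + 2 * sst κ' 2 * log 2 + 2 * sst κ' 3 * log 2 := by
    rw [linG, Fin.sum_univ_four]
    rfl
  have s2 : sst κ' 2 = arctan (2 / e2 κ') := rfl
  have s3 : sst κ' 3 = arctan (2 / e1 κ') + arctan (2 / e2 κ') := rfl
  have he1 : 0 ≤ e1 κ' := Real.sqrt_nonneg _
  have he2 : 2 ≤ e2 κ' := by
    have h4 : e2 κ' = √(2 * (1 / z) + 1 / z * 2 + 2 * 2) := rfl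
    rw [h4]
    apply Real.le_sqrt_of_sq_le
    linarith
  have a1 : 0 ≤ arctan (2 / e1 κ') := Real.arctan_nonneg.mpr (by positivity)
  have a3 : arctan (2 / e2 κ') ≤ π / 4 := by
    rw [← Real.arctan_one]
    refine Real.arctan_mono ?_
    rw [div_le_one (by linarith)]
    exact he2
  have lz : log z ≤ 0 := log_nonpos hz0.le hz1.le
  have l4 : log (4 * z) = log 2 + log (2 * z) := by
    rw [← Real.log_mul (by norm_num) (by positivity)]
    congr 1
    ring
  have l5 : log (2 * z) = log 2 + log z := Real.log_mul (by norm_num) hz0.ne'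
  have l6 : 0 ≤ log (2 * z) := Real.log_nonneg (by linarith)
  have m1 : 0 ≤ arctan (2 / e1 κ') * log (2 * z) := mul_nonneg a1 l6
  have m2 : π / 4 * log z ≤ arctan (2 / e2 κ') * log z :=
    mul_le_mul_of_nonpos_right a3 lz
  have hd : linG κ (sst κ') = linG κ' (sst κ') + 2 * (arctan (2 / e1 κ') * log (2 * z)) +
      2 * (arctan (2 / e2 κ') * log z) := by
    rw [hl1, hl2, s2, s3, l4, l5, Real.log_one]
    ring
  linarith

/-- All cases together. -/
theorem one_mod (hz : 3 / 4 ≤ z) (hz1 : z < 1) (h : LP a s) :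
    Wv a s + linG ![(4 * z - 1) ^ 2, 1 / z, 2, 2] s ≤
      Ph ![(4 * z - 1) ^ 2, 1 / z, 1, 4 * z] - π / 2 * log z := by
  by_cases ha : a ≤ π / 2
  · exact one_mod_R hz hz1 h ha
  · have h1 := one_mod_T hz hz1 h
    have h2 : log z ≤ 0 := log_nonpos (by linarith) hz1.le
    have h3 : 0 ≤ -(π / 2 * log z) := by nlinarith [pi_pos]
    rw [Wv, if_neg ha]
    linarith

end Pool.Agent.H63.CLK
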