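import Pool.Agent.H63.CLK.G_Tan
import Pool.Agent.H63.CLK.G_Crit

/-!
# The inequalities at a vertex

`R_le`, `R_eq`: with `s' = sst κ`, `a' = ast κ`, `c = ca a`, `c' = ca a'`. By `Bv_eq` and `vE_eq`
the function is `4 vT a (π/2 - a) + 2 ∑ k, vT (s k) (c k - s k) + linG κ s`. Use `vT_le` for the
tetrahedron `(a, π/2 - a)` at `(a', π/2 - a')` and for `(s k, c k - s k)` at `(s' k, c' k - s' k)`
for the `k` with `κ k > 0` (if `κ 3 = 0` then `s 3 = s' 3 = 0` and both sides are `0`). The sum of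
the linear terms is `∑ k, 2 (s k - s' k) (log sin (c' k - s' k) - log sin (s' k) + log κ k) +
(a - a') * (...)`; by `crit_rho` the first bracket is `-log ρ` for all `k`, and `∑ (s k - s' k) = 0`;
the coefficient of `a - a'` is
`-2 log sin (c'0 - s'0) - 2 log sin (c'2 - s'2) + 2 log sin (c'1 - s'1) + 2 log sin (c'3 - s'3)
- 4 log tan a' = 0` by `crit_a` (the terms `log sin (c' k) = log sin a'` cancel in pairs; for
`κ 3 = 0` the term with `k = 3` is `log sin (c'3) - log sin (c'3 - 0) = 0`).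
For the equality: if `a ≠ a'` or `s ≠ s'`, one of the inequalities is strict (`vT_lt`; if `a = a'`
and `s k ≠ s' k` then `κ k > 0`).

`R_end_le`: `vT_le` for `(a, π/2 - a)` only; the slope at `a' = arctan √(κt/κs)` is
`-4 log tan a' + 2 log κt - 2 log κs = 0`.

`T_le`: by `Bv_eq`, `2 vT (s k) (c k - s k) + 2 s k log κ k = 2 (vT (s k) (c k - s k) + s k log
(κ k μ)) - 2 s k log μ ≤ 2 C k - 2 s k log μ` if `κ k > 0`; if `κ k = 0` then `s k = 0` and
`vT 0 _ = 0`. Sum over `k`, `∑ s k = π`.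
-/

set_option autoImplicit false

namespace Pool.Agent.H63.CLK

open Pool.Agent.H63.VC hiding ext
open Pool.Agent.H63.VC7 Real
open scoped BigOperators

variable {κ : Fin 4 → ℝ} {a : ℝ} {s : Fin 4 → ℝ}

private theorem G_R_ca_sin (a : ℝ) (k : Fin 4) : sin (ca a k) = sin a := by
  fin_cases k <;> simp [ca, Real.sin_pi_sub]

private theorem G_R_pos_or (h0 : 0 < κ 0) (h1 : 0 < κ 1) (h2 : 0 < κ 2) (h3 : 0 ≤ κ 3)
    (k : Fin 4) : 0 < κ k ∨ (k = 3 ∧ κ 3 = 0) := by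
  rcases h3.lt_or_eq with h | h
  · left
    fin_cases k
    · exact h0
    · exact h1
    · exact h2
    · exact h
  · fin_cases k
    · exact Or.inl h0
    · exact Or.inl h1
    · exact Or.inl h2
    · exact Or.inr ⟨rfl, h.symm⟩

theorem LP_sst (h0 : 0 < κ 0) (h1 : 0 < κ 1) (h2 : 0 < κ 2) (h3 : 0 ≤ κ 3) :
    LP (ast κ) (sst κ) := by
  refine ⟨sst_sum h0 h1 h2 h3, fun k => ?_, fun k => (sst_lt h0 h1 h2 h3 k).le⟩
  rcases G_R_pos_or h0 h1 h2 h3 k with h | ⟨rfl, h⟩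
  · exact (sst_pos h0 h1 h2 h3 h).le
  · exact (sst_three h).ge

private theorem G_R_a_nn (h : LP a s) : 0 ≤ a := by
  have h1 := h.nn 0
  have h2 : s 0 ≤ a := h.le 0
  linarith

private theorem G_R_a_le (h : LP a s) : a ≤ π := by
  have h1 := h.nn 1
  have h2 : s 1 ≤ π - a := h.le 1
  linarith

private theorem G_R_ca_le (h0 : 0 ≤ a) (h1 : a ≤ π) (k : Fin 4) : ca a k ≤ π := by
  have hp := Real.pi_pos
  fin_cases k <;> simp [ca] <;> linarith

private theorem G_R_ca_lt (h0 : 0 < a) (h1 : a < π) (k : Fin 4) : ca a k < π := by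
  have hp := Real.pi_pos
  fin_cases k <;> simp [ca] <;> linarith

/-- The value of the tangent plane at the first tetrahedron. -/
private noncomputable def G_R_T0 (κ : Fin 4 → ℝ) (a : ℝ) : ℝ :=
  vT (ast κ) (π / 2 - ast κ) + (a - ast κ) *
    (log (sin (ast κ + (π / 2 - ast κ))) - log (sin (ast κ))) +
    ((π / 2 - a) - (π / 2 - ast κ)) *
      (log (sin (ast κ + (π / 2 - ast κ))) - log (sin (π / 2 - ast κ)))

/-- The value of the tangent plane at a corner. -/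
private noncomputable def G_R_Tk (κ : Fin 4 → ℝ) (a : ℝ) (s : Fin 4 → ℝ) (k : Fin 4) : ℝ :=
  vT (sst κ k) (ca (ast κ) k - sst κ k) + (s k - sst κ k) *
    (log (sin (sst κ k + (ca (ast κ) k - sst κ k))) - log (sin (sst κ k))) +
    ((ca a k - s k) - (ca (ast κ) k - sst κ k)) *
      (log (sin (sst κ k + (ca (ast κ) k - sst κ k))) - log (sin (ca (ast κ) k - sst κ k)))

private theorem G_R_Tk_le (h0 : 0 < κ 0) (h1 : 0 < κ 1) (h2 : 0 < κ 2) (h3 : 0 ≤ κ 3)
    (h : LP a s) (hs : κ 3 = 0 → s 3 = 0) (k : Fin 4) :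
    vT (s k) (ca a k - s k) ≤ G_R_Tk κ a s k := by
  rcases G_R_pos_or h0 h1 h2 h3 k with hk | ⟨rfl, hk⟩
  · refine vT_le (sst_pos h0 h1 h2 h3 hk) ?_ ?_ (h.nn k) ?_ ?_
    · linarith [sst_lt h0 h1 h2 h3 k]
    · have := G_R_ca_lt (ast_pos h0 h1 h2 h3)
        (by linarith [ast_lt (κ := κ), Real.pi_pos] : ast κ < π) k
      linarith
    · linarith [h.le k]
    · have := G_R_ca_le (G_R_a_nn h) (G_R_a_le h) k
      linarith
  · rw [G_R_Tk, hs hk, sst_three hk, vT_zero_left, vT_zero_left]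
    simp

private theorem G_R_Tk_lt (h0 : 0 < κ 0) (h1 : 0 < κ 1) (h2 : 0 < κ 2) (h3 : 0 ≤ κ 3)
    (h : LP a s) (hs : κ 3 = 0 → s 3 = 0) (k : Fin 4) (hk' : s k ≠ sst κ k) :
    vT (s k) (ca a k - s k) < G_R_Tk κ a s k := by
  rcases G_R_pos_or h0 h1 h2 h3 k with hk | ⟨rfl, hk⟩
  · refine vT_lt (sst_pos h0 h1 h2 h3 hk) ?_ ?_ (h.nn k) ?_ ?_ (Or.inl hk')
    · linarith [sst_lt h0 h1 h2 h3 k]
    · have := G_R_ca_lt (ast_pos h0 h1 h2 h3)
        (by linarith [ast_lt (κ := κ), Real.pi_pos] : ast κ < π) k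
      linarith
    · linarith [h.le k]
    · have := G_R_ca_le (G_R_a_nn h) (G_R_a_le h) k
      linarith
  · exact absurd ((hs hk).trans (sst_three hk).symm) hk'

private theorem G_R_T0_le (h0 : 0 < κ 0) (h1 : 0 < κ 1) (h2 : 0 < κ 2) (h3 : 0 ≤ κ 3)
    (ha0 : 0 ≤ a) (ha : a ≤ π / 2) : vT a (π / 2 - a) ≤ G_R_T0 κ a := by
  have hp := Real.pi_pos
  have hl := ast_lt (κ := κ)
  refine vT_le (ast_pos h0 h1 h2 h3) ?_ ?_ ha0 ?_ ?_ <;> linarith

private theorem G_R_T0_lt (h0 : 0 < κ 0) (h1 : 0 < κ 1) (h2 : 0 < κ 2) (h3 : 0 ≤ κ 3)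
    (ha0 : 0 ≤ a) (ha : a ≤ π / 2) (hne : a ≠ ast κ) : vT a (π / 2 - a) < G_R_T0 κ a := by
  have hp := Real.pi_pos
  have hl := ast_lt (κ := κ)
  refine vT_lt (ast_pos h0 h1 h2 h3) ?_ ?_ ha0 ?_ ?_ (Or.inl hne) <;> linarith

private theorem G_R_sum (h0 : 0 < κ 0) (h1 : 0 < κ 1) (h2 : 0 < κ 2) (h3 : 0 ≤ κ 3)
    (hsum : ∑ k, s k = π) (hs : κ 3 = 0 → s 3 = 0) :
    4 * G_R_T0 κ a + 2 * ∑ k, G_R_Tk κ a s k + linG κ s = Ph κ := by
  have hp := Real.pi_pos
  have hap := ast_pos h0 h1 h2 h3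
  have hal := ast_lt (κ := κ)
  have hsum' := sst_sum h0 h1 h2 h3
  obtain ⟨ρ, hρ, hcr⟩ := crit_rho h0 h1 h2 h3
  have hca := crit_a h0 h1 h2 h3
  -- positivity of the sines
  have hsin : 0 < sin (ast κ) := Real.sin_pos_of_pos_of_lt_pi hap (by linarith)
  have hcos : 0 < cos (ast κ) := Real.cos_pos_of_mem_Ioo ⟨by linarith, by linarith⟩
  have hnn : ∀ k, 0 ≤ sst κ k := (LP_sst h0 h1 h2 h3).nn
  have hdp : ∀ k, 0 < sin (ca (ast κ) k - sst κ k) := by
    intro k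
    refine Real.sin_pos_of_pos_of_lt_pi (by linarith [sst_lt h0 h1 h2 h3 k]) ?_
    have := G_R_ca_lt hap (by linarith : ast κ < π) k
    linarith [hnn k]
  -- the logarithmic form of the critical equation at a corner
  have key : ∀ k, (s k - sst κ k) * (log (sin (ca (ast κ) k - sst κ k)) - log (sin (sst κ k))) =
      -(s k - sst κ k) * (log ρ + log (κ k)) := by
    intro k
    rcases G_R_pos_or h0 h1 h2 h3 k with hk | ⟨rfl, hk⟩
    · have h := hcr k hk
      rw [← h, Real.log_mul (by positivity) (hdp k).ne', Real.log_mul hρ.ne' hk.ne']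
      ring
    · rw [hs hk, sst_three hk]
      simp
  have hTk : ∀ k, G_R_Tk κ a s k = vT (sst κ k) (ca (ast κ) k - sst κ k)
      - (s k - sst κ k) * (log ρ + log (κ k)) +
      (ca a k - ca (ast κ) k) * (log (sin (ast κ)) - log (sin (ca (ast κ) k - sst κ k))) := by
    intro k
    have h1 : sst κ k + (ca (ast κ) k - sst κ k) = ca (ast κ) k := by ring
    rw [G_R_Tk, h1, G_R_ca_sin]
    linear_combination key k
  have hT0 : G_R_T0 κ a = vT (ast κ) (π / 2 - ast κ) +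
      (a - ast κ) * (log (cos (ast κ)) - log (sin (ast κ))) := by
    have h1 : ast κ + (π / 2 - ast κ) = π / 2 := by ring
    rw [G_R_T0, h1, Real.sin_pi_div_two, Real.log_one, Real.sin_pi_div_two_sub]
    ring
  -- the logarithmic form of the critical equation for `a`
  have hlog : log (sin (ca (ast κ) 1 - sst κ 1)) + log (sin (ca (ast κ) 3 - sst κ 3)) +
      2 * log (cos (ast κ)) = log (sin (ca (ast κ) 0 - sst κ 0)) +
      log (sin (ca (ast κ) 2 - sst κ 2)) + 2 * log (sin (ast κ)) := by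
    have h := congrArg Real.log hca
    rw [Real.log_mul (mul_pos (hdp 1) (hdp 3)).ne' (by positivity),
      Real.log_mul (hdp 1).ne' (hdp 3).ne', Real.log_pow,
      Real.log_mul (mul_pos (hdp 0) (hdp 2)).ne' (by positivity),
      Real.log_mul (hdp 0).ne' (hdp 2).ne', Real.log_pow] at h
    push_cast at h
    exact h
  have hPh : Ph κ = 4 * vT (ast κ) (π / 2 - ast κ) +
      2 * ∑ k, vT (sst κ k) (ca (ast κ) k - sst κ k) + linG κ (sst κ) := by
    rw [Ph, Wv, if_pos hal.le, vE_eq, Bv_eq]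
  have hc0 : ∀ b : ℝ, ca b 0 = b := fun b => rfl
  have hc1 : ∀ b : ℝ, ca b 1 = π - b := fun b => rfl
  have hc2 : ∀ b : ℝ, ca b 2 = b := fun b => rfl
  have hc3 : ∀ b : ℝ, ca b 3 = π - b := fun b => rfl
  rw [hPh, hT0]
  simp only [linG, Fin.sum_univ_four] at hsum hsum' ⊢
  rw [hTk 0, hTk 1, hTk 2, hTk 3]
  rw [hc0, hc1, hc2, hc3, hc0, hc1, hc2, hc3] at *
  linear_combination (-2 * log ρ) * hsum + (2 * log ρ) * hsum' + 2 * (a - ast κ) * hlog

theorem R_le (h0 : 0 < κ 0) (h1 : 0 < κ 1) (h2 : 0 < κ 2) (h3 : 0 ≤ κ 3) (h : LP a s)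
    (ha : a ≤ π / 2) (hs : κ 3 = 0 → s 3 = 0) : Wv a s + linG κ s ≤ Ph κ := by
  have hS := G_R_sum (a := a) h0 h1 h2 h3 h.sum hs
  have hT := G_R_T0_le h0 h1 h2 h3 (G_R_a_nn h) ha
  have hk : ∑ k, vT (s k) (ca a k - s k) ≤ ∑ k, G_R_Tk κ a s k :=
    Finset.sum_le_sum fun k _ => G_R_Tk_le h0 h1 h2 h3 h hs k
  rw [Wv, if_pos ha, vE_eq, Bv_eq]
  linarith

theorem R_eq (h0 : 0 < κ 0) (h1 : 0 < κ 1) (h2 : 0 < κ 2) (h3 : 0 ≤ κ 3) (h : LP a s)
    (ha : a ≤ π / 2) (hs : κ 3 = 0 → s 3 = 0) (he : Ph κ ≤ Wv a s + linG κ s) :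
    a = ast κ ∧ s = sst κ := by
  have hS := G_R_sum (a := a) h0 h1 h2 h3 h.sum hs
  have hT := G_R_T0_le h0 h1 h2 h3 (G_R_a_nn h) ha
  have hk : ∑ k, vT (s k) (ca a k - s k) ≤ ∑ k, G_R_Tk κ a s k :=
    Finset.sum_le_sum fun k _ => G_R_Tk_le h0 h1 h2 h3 h hs k
  rw [Wv, if_pos ha, vE_eq, Bv_eq] at he
  constructor
  · by_contra hne
    have hT' := G_R_T0_lt h0 h1 h2 h3 (G_R_a_nn h) ha hne
    linarith
  · funext k
    by_contra hne
    have hk' : ∑ k, vT (s k) (ca a k - s k) < ∑ k, G_R_Tk κ a s k :=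
      Finset.sum_lt_sum (fun k _ => G_R_Tk_le h0 h1 h2 h3 h hs k)
        ⟨k, Finset.mem_univ k, G_R_Tk_lt h0 h1 h2 h3 h hs k hne⟩
    linarith

private theorem G_R_end {κt κs : ℝ} (ht : 0 < κt) (hs : 0 < κs) (a : ℝ) :
    4 * (vT (arctan √(κt / κs)) (π / 2 - arctan √(κt / κs)) +
      (a - arctan √(κt / κs)) * (log (sin (arctan √(κt / κs) + (π / 2 - arctan √(κt / κs)))) -
        log (sin (arctan √(κt / κs)))) +
      ((π / 2 - a) - (π / 2 - arctan √(κt / κs))) *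
        (log (sin (arctan √(κt / κs) + (π / 2 - arctan √(κt / κs)))) -
          log (sin (π / 2 - arctan √(κt / κs))))) + 2 * a * log κt + 2 * (π - a) * log κs =
      PhE κt κs := by
  have hp := Real.pi_pos
  set b := arctan √(κt / κs) with hb
  have hq : 0 < √(κt / κs) := Real.sqrt_pos.mpr (div_pos ht hs)
  have hb0 : 0 < b := Real.arctan_pos.mpr hq
  have hb1 : b < π / 2 := Real.arctan_lt_pi_div_two _
  have hsin : 0 < sin b := Real.sin_pos_of_pos_of_lt_pi hb0 (by linarith)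
  have hcos : 0 < cos b := Real.cos_pos_of_mem_Ioo ⟨by linarith, by linarith⟩
  have htan : log (sin b) - log (cos b) = (log κt - log κs) / 2 := by
    rw [← Real.log_div hsin.ne' hcos.ne', ← Real.tan_eq_sin_div_cos, hb, Real.tan_arctan,
      Real.log_sqrt (div_pos ht hs).le, Real.log_div ht.ne' hs.ne']
  have h1 : b + (π / 2 - b) = π / 2 := by ring
  rw [PhE, ← hb, h1, Real.sin_pi_div_two, Real.log_one, Real.sin_pi_div_two_sub, vE_eq]
  linear_combination (-4 * (a - b)) * htan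

theorem R_end_le {κt κs : ℝ} (ht : 0 < κt) (hs : 0 < κs) (h0 : 0 ≤ a) (ha : a ≤ π / 2) :
    vE a + 2 * a * log κt + 2 * (π - a) * log κs ≤ PhE κt κs := by
  have hp := Real.pi_pos
  have hq : 0 < √(κt / κs) := Real.sqrt_pos.mpr (div_pos ht hs)
  have hb0 : 0 < arctan √(κt / κs) := Real.arctan_pos.mpr hq
  have hb1 : arctan √(κt / κs) < π / 2 := Real.arctan_lt_pi_div_two _
  have h1 := vT_le (s0 := arctan √(κt / κs)) (r0 := π / 2 - arctan √(κt / κs)) (s := a)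
    (r := π / 2 - a) hb0 (by linarith) (by linarith) h0 (by linarith) (by linarith)
  rw [← G_R_end ht hs a, vE_eq]
  linarith

theorem R_end_eq {κt κs : ℝ} (ht : 0 < κt) (hs : 0 < κs) (h0 : 0 ≤ a) (ha : a ≤ π / 2)
    (he : PhE κt κs ≤ vE a + 2 * a * log κt + 2 * (π - a) * log κs) :
    a = arctan √(κt / κs) := by
  by_contra hne
  have hp := Real.pi_pos
  have hq : 0 < √(κt / κs) := Real.sqrt_pos.mpr (div_pos ht hs)
  have hb0 : 0 < arctan √(κt / κs) := Real.arctan_pos.mpr hq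
  have hb1 : arctan √(κt / κs) < π / 2 := Real.arctan_lt_pi_div_two _
  have h1 := vT_lt (s0 := arctan √(κt / κs)) (r0 := π / 2 - arctan √(κt / κs)) (s := a)
    (r := π / 2 - a) hb0 (by linarith) (by linarith) h0 (by linarith) (by linarith) (Or.inl hne)
  rw [← G_R_end ht hs a, vE_eq] at he
  linarith

theorem T_le {μ : ℝ} (hμ : 0 < μ) (hκ : ∀ k, 0 ≤ κ k) {C : Fin 4 → ℝ}
    (hC : ∀ k, 0 < κ k → SB (κ k * μ) (C k)) (hC0 : ∀ k, κ k = 0 → C k = 0) (h : LP a s)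
    (hs : ∀ k, κ k = 0 → s k = 0) :
    Bv a s + linG κ s ≤ 2 * ∑ k, C k - 2 * π * log μ := by
  have key : ∀ k, vT (s k) (ca a k - s k) + s k * log (κ k) ≤ C k - s k * log μ := by
    intro k
    rcases (hκ k).lt_or_eq with hk | hk
    · have h1 := hC k hk (s k) (ca a k - s k) (h.nn k) (by linarith [h.le k])
        (by linarith [G_R_ca_le (G_R_a_nn h) (G_R_a_le h) k])
      rw [Real.log_mul hk.ne' hμ.ne'] at h1
      linarith
    · rw [hs k hk.symm, hC0 k hk.symm, vT_zero_left]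
      simp
  have hsum : ∑ k, (vT (s k) (ca a k - s k) + s k * log (κ k)) ≤
      ∑ k, (C k - s k * log μ) := Finset.sum_le_sum fun k _ => key k
  rw [Finset.sum_add_distrib, Finset.sum_sub_distrib, ← Finset.sum_mul, h.sum] at hsum
  have hlin : linG κ s = 2 * ∑ k, s k * log (κ k) := by
    rw [linG, Finset.mul_sum]
    exact Finset.sum_congr rfl fun k _ => by ring
  rw [Bv_eq, hlin]
  linarith

end Pool.Agent.H63.CLK
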