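import Pool.Agent.H63.CLK.G_Tan

/-!
# The volume function as a sum over the vertices
-/

set_option autoImplicit false

namespace Pool.Agent.H63.CLK

open Pool.Agent.H63.VC hiding ext
open Pool.Agent.H63.VC7 Real
open scoped BigOperators

variable {c : ℕ} {F : Finset ℕ} {cor : Fin c → Fin 4 → ℕ} {y : Vr c → ℝ}

/-- The angle `a` of a vertex. -/
noncomputable def ya (y : Vr c → ℝ) (v : Fin c) : ℝ := π * (1 - y (Sum.inl v))

/-- The angles of the corners of a vertex. -/
noncomputable def ys (y : Vr c → ℝ) (v : Fin c) (k : Fin 4) : ℝ := π * y (Sum.inr (v, k))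

private theorem G_Vol_ca (t : ℝ) (k : Fin 4) : π * cz 1 t k = ca (π * (1 - t)) k := by
  fin_cases k <;> simp [cz, ca] <;> ring

theorem volF_Wv (y : Vr c → ℝ) : volF y = ∑ v, Wv (ya y v) (ys y v) := by
  unfold volF Wv Bv
  refine Finset.sum_congr rfl fun v _ => ?_
  have h1 : (ya y v ≤ π / 2) ↔ (1 / 2 ≤ y (Sum.inl v)) := by
    unfold ya
    have hp := Real.pi_pos
    constructor
    · intro h
      by_contra h'
      push Not at h'
      nlinarith [mul_pos hp (sub_pos.2 h')]
    · intro h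
      nlinarith [mul_nonneg hp.le (sub_nonneg.2 h)]
  have h2 : ∀ k, ca (ya y v) k - ys y v k =
      π * (cz 1 (y (Sum.inl v)) k - y (Sum.inr (v, k))) := by
    intro k
    rw [mul_sub, G_Vol_ca]
    rfl
  have h3 : vE (ya y v) = 4 * (lob (π * y (Sum.inl v) - π / 2) - lob (π * y (Sum.inl v))) := by
    unfold vE
    have e1 : ya y v = π - π * y (Sum.inl v) := by unfold ya; ring
    have e2 : π / 2 - ya y v = π * y (Sum.inl v) - π / 2 := by unfold ya; ring
    rw [e2, e1, lob_pi_sub]
    ring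
  congr 1
  · by_cases h : 1 / 2 ≤ y (Sum.inl v)
    · rw [if_pos h, if_pos (h1.2 h), h3]
    · rw [if_neg h, if_neg (fun h' => h (h1.1 h'))]
  · refine Finset.sum_congr rfl fun k _ => ?_
    rw [h2 k]
    rfl

theorem LP_of (h : IsAng F cor y) (v : Fin c) : LP (ya y v) (ys y v) := by
  refine ⟨?_, ?_, ?_⟩
  · unfold ys
    rw [← Finset.mul_sum, h.vert v, mul_one]
  · intro k
    exact mul_nonneg Real.pi_pos.le (h.nn v k)
  · intro k
    have := mul_le_mul_of_nonneg_left (h.le v k) Real.pi_pos.le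
    rw [G_Vol_ca] at this
    exact this

theorem ys_out (h : IsAng F cor y) {v : Fin c} {k : Fin 4} (hk : cor v k ∉ F) : ys y v k = 0 := by
  unfold ys
  rw [h.out v k hk, mul_zero]

/-- The sum of the linear functions is constant on the polytope. -/
theorem lin_sum (h : IsAng F cor y) (κ : ℕ → ℝ) :
    ∑ v, linG (fun k => κ (cor v k)) (ys y v) = 2 * π * ∑ f ∈ F, log (κ f) := by
  have h1 : ∀ v k, y (Sum.inr (v, k)) * log (κ (cor v k)) =
      ∑ f ∈ F, (if cor v k = f then y (Sum.inr (v, k)) else 0) * log (κ f) := by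
    intro v k
    by_cases hk : cor v k ∈ F
    · rw [Finset.sum_eq_single (cor v k)]
      · rw [if_pos rfl]
      · intro f _ hf
        rw [if_neg (fun e => hf e.symm), zero_mul]
      · intro hn
        exact absurd hk hn
    · rw [h.out v k hk, zero_mul]
      symm
      apply Finset.sum_eq_zero
      intro f _
      simp
  have h2 : ∀ v, linG (fun k => κ (cor v k)) (ys y v) =
      2 * π * ∑ k, ∑ f ∈ F, (if cor v k = f then y (Sum.inr (v, k)) else 0) * log (κ f) := by
    intro v
    unfold linG ys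
    rw [Finset.mul_sum]
    refine Finset.sum_congr rfl fun k _ => ?_
    rw [← h1 v k]
    ring
  simp_rw [h2]
  rw [← Finset.mul_sum]
  congr 1
  have h3 : ∀ v, ∑ k, ∑ f ∈ F, (if cor v k = f then y (Sum.inr (v, k)) else 0) * log (κ f) =
      ∑ f ∈ F, (∑ k, (if cor v k = f then y (Sum.inr (v, k)) else 0)) * log (κ f) := by
    intro v
    rw [Finset.sum_comm]
    refine Finset.sum_congr rfl fun f _ => ?_
    rw [Finset.sum_mul]
  simp_rw [h3]
  rw [Finset.sum_comm]
  refine Finset.sum_congr rfl fun f hf => ?_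
  rw [← Finset.sum_mul, h.face f hf, one_mul]

private theorem G_Vol_ca_sum (a : ℝ) (k : Fin 4) : ca a (k + 2) + ca a (k + 3) = π := by
  fin_cases k <;> simp [ca]

private theorem G_Vol_sum4 (f : Fin 4 → ℝ) (k : Fin 4) :
    ∑ j, f j = f k + f (k + 1) + f (k + 2) + f (k + 3) := by
  rw [Fin.sum_univ_four]
  fin_cases k
  · rfl
  · show f 0 + f 1 + f 2 + f 3 = f 1 + f 2 + f 3 + f 0
    ring
  · show f 0 + f 1 + f 2 + f 3 = f 2 + f 3 + f 0 + f 1
    ring
  · show f 0 + f 1 + f 2 + f 3 = f 3 + f 0 + f 1 + f 2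
    ring

/-- At an end vertex (two consecutive outer corners): the corner terms vanish, and the other corners
have their maximal size. -/
theorem end_of {a : ℝ} {s : Fin 4 → ℝ} (h : LP a s) {k : Fin 4} (h1 : s k = 0)
    (h2 : s (k + 1) = 0) : s (k + 2) = ca a (k + 2) ∧ s (k + 3) = ca a (k + 3) ∧ Bv a s = 0 := by
  have hs := h.sum
  rw [G_Vol_sum4 s k, h1, h2] at hs
  have hc := G_Vol_ca_sum a k
  have hl2 := h.le (k + 2)
  have hl3 := h.le (k + 3)
  have e2 : s (k + 2) = ca a (k + 2) := by linarith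
  have e3 : s (k + 3) = ca a (k + 3) := by linarith
  refine ⟨e2, e3, ?_⟩
  unfold Bv
  rw [G_Vol_sum4 _ k, h1, h2, e2, e3]
  simp only [sub_zero, sub_self, volA_lob_zero, zero_add, add_zero]
  have h4 := G_Vol_sum4 (fun j => 2 * lob (ca a j)) k
  rw [← h4, Fin.sum_univ_four]
  simp only [ca, Matrix.cons_val_zero, Matrix.cons_val_one, Matrix.cons_val]
  rw [lob_pi_sub]
  ring

end Pool.Agent.H63.CLK
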