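import Pool.Agent.H63.CLK.G_Int
import Pool.Agent.H63.CLK.G_Gen
import Pool.Agent.H63.CLK.G_One
import Pool.Agent.H63.CLK.G_Last
import Pool.Agent.H63.CLK.G_Vol

/-!
# The inequalities at all vertices of the template

`base_le`, `base_eq` (`v ≠ 0`, `v ≠ N - 2`): if `a ≤ π/2` these are `R_le`, `R_eq` for `kv N v`
(`PhB N v = Ph (kv N v)`). If `a > π/2` the left side is `Bv a s + linG (kv N v) s < Ph (kv N v)`:
`v` even: `gen_lt` (first alternative, `aj_ge`, `aj_ge'` with `m = 2`, `aj_add`, `aj_or`);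
`v = 1`: `one_lt` with `z = c^2` (`aj_two`, `aj_three`); `v = N - 3`: the same after `Sw02`;
`v` odd, `3 ≤ v ≤ N - 5`: `gen_lt` (second alternative, `m = 3`, `aj_big`) after `Sw13`;
`v = N - 1`: `gen_lt` (first alternative, `κ = (1, 1/z, 1, 0)`).

`vert_le`: `L` means `π/2 < ya y 0`, `R` means `π/2 < ya y (N-2)`.
* `v ∉ {0, 1, N-3, N-2, N-1}`: `kapM ≤ kapG` at the four corners (only the curvatures `4 c^2` of
  `G_2`, `G_{N-2}` change, to `2`), so the linear function decreases (`s ≥ 0`), `base_le`.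
* `v = 0`: if `L`, then by `end_of` the corner terms vanish and the value is
  `2 a log 2 + 2 (π - a) log 2 = 2 π log 2`. If not `L`: `R_end_le` with `κt = 4 c^2`, `κs = 1`.
  The same for `v = N - 2`.
* `v = 1`: if `L`: `one_mod`, the curvatures are `((4z-1)^2, 1/z, 2, 2)`; else `base_le`
  (`R` does not change the faces at `v = 1`, as `N ≥ 6`). `v = N - 3`: the same after `Sw02`.
* `v = N - 1`: `last_mod`, `last_mod'`, `last_mod2` or `base_le`.
-/

set_option autoImplicit false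

namespace Pool.Agent.H63.CLK

open Pool.Agent.H63.VC hiding ext
open Pool.Agent.H63.VC7 Real
open scoped BigOperators

/-- The loss at the vertex `v` for the modified curvatures. -/
noncomputable def dlt (N : ℕ) (L R : Prop) [Decidable L] [Decidable R] (v : ℕ) : ℝ :=
  (if L then (if v = 0 then 2 * π * log 2 - PhE (4 * cN N ^ 2) 1 else 0) +
      (if v = 1 then -(π / 2 * log (cN N ^ 2)) else 0) +
      (if v + 1 = N then 2 * π / 3 * log 2 else 0) else 0) +
    (if R then (if v + 2 = N then 2 * π * log 2 - PhE (4 * cN N ^ 2) 1 else 0) +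
      (if v + 3 = N then -(π / 2 * log (cN N ^ 2)) else 0) +
      (if v + 1 = N then 2 * π / 3 * log 2 else 0) else 0)

variable {n : ℕ}

private theorem G_Vert_kap_pos (hn : 3 ≤ n) {f : ℕ} (hf : f ∈ FB n) : 0 < kapG (2 * n) f := by
  have hN : 6 ≤ 2 * n := by omega
  have hc := cN_pos hN
  rw [FB, Finset.mem_Icc] at hf
  rw [kapG, if_neg (by omega)]
  split_ifs with h1 h2
  · exact one_pos
  · positivity
  · have := aj_pos hN (j := f - 2) (by omega) (by omega)
    positivity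

private theorem G_Vert_kap_nn (N f : ℕ) : 0 ≤ kapG N f := by
  rw [kapG]
  split_ifs <;> positivity

private theorem G_Vert_pos (hn : 3 ≤ n) {v : ℕ} (hv : v < 2 * n) (h0 : v ≠ 0)
    (h2 : v + 2 ≠ 2 * n) :
    0 < kv (2 * n) v 0 ∧ 0 < kv (2 * n) v 1 ∧ 0 < kv (2 * n) v 2 := by
  refine ⟨G_Vert_kap_pos hn ?_, G_Vert_kap_pos hn ?_, G_Vert_kap_pos hn ?_⟩
  · rw [FB, Finset.mem_Icc, corN]
    split_ifs <;> simp [gf] <;> split_ifs <;> omega
  · rw [FB, Finset.mem_Icc, corN]
    split_ifs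
    · simp [gf]
      split_ifs <;> omega
    · simp
      omega
  · rw [FB, Finset.mem_Icc, corN]
    split_ifs <;> simp [gf] <;> split_ifs <;> omega

private theorem G_Vert_Sw13 (a b c d : ℝ) : Sw13 ![a, b, c, d] = ![a, d, c, b] := rfl

private theorem G_Vert_Sw02 (a b c d : ℝ) : Sw02 ![a, b, c, d] = ![c, b, a, d] := rfl

private theorem G_Vert_lin13 (κ s : Fin 4 → ℝ) : linG (Sw13 κ) s = linG κ (Sw13 s) := by
  have ss : Sw13 (Sw13 s) = s := by
    funext k
    fin_cases k <;> rfl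
  rw [← lin_Sw13 (s := Sw13 s), ss]

private theorem G_Vert_lin02 (κ s : Fin 4 → ℝ) : linG (Sw02 κ) s = linG κ (Sw02 s) := by
  have ss : Sw02 (Sw02 s) = s := by
    funext k
    fin_cases k <;> rfl
  rw [← lin_Sw02 (s := Sw02 s), ss]

private theorem G_Vert_three (hn : 3 ≤ n) {v : ℕ} {s : Fin 4 → ℝ}
    (hs : ∀ k, corN (2 * n) v k ∉ FB n → s k = 0) (h : kv (2 * n) v 3 = 0) : s 3 = 0 := by
  apply hs
  intro hf
  have := G_Vert_kap_pos hn hf
  rw [kv] at h
  linarith

private theorem G_Vert_sq {x y : ℝ} {p : ℝ} (hp : 0 ≤ p) (hy : 0 ≤ y) (h : p * y ≤ x) :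
    p ^ 2 * y ^ 2 ≤ x ^ 2 := by
  have h1 : 0 ≤ p * y := mul_nonneg hp hy
  nlinarith

private theorem G_Vert_sq' {x y : ℝ} {p : ℝ} (hx : 0 ≤ x) (h : x ≤ p * y) :
    x ^ 2 ≤ p ^ 2 * y ^ 2 := by
  nlinarith

/-- The strict inequality for `π / 2 < a` (no condition on `a` is used). -/
private theorem G_Vert_lt (hn : 3 ≤ n) {v : ℕ} (hv : v < 2 * n) (h0 : v ≠ 0)
    (h2 : v + 2 ≠ 2 * n) {a : ℝ} {s : Fin 4 → ℝ} (h : LP a s)
    (h3 : kv (2 * n) v 3 = 0 → s 3 = 0) :
    Bv a s + linG (kv (2 * n) v) s < Ph (kv (2 * n) v) := by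
  have hN : 6 ≤ 2 * n := by omega
  have hE : Even (2 * n) := ⟨n, by ring⟩
  have hc := cN_pos hN
  have hz := cN_sq hN
  have hc1 : cN (2 * n) < 1 := by nlinarith
  rcases Nat.mod_two_eq_zero_or_one v with hp | hp
  · -- `v` even
    have hvN : v + 4 ≤ 2 * n := by omega
    have e := kv_even hN hE hp hv
    have p0 := aj_pos hN (j := v) (by omega) (by omega)
    have p1 := aj_pos hN (j := v + 1) (by omega) (by omega)
    have p2 := aj_pos hN (j := v + 2) (by omega) (by omega)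
    have g0 := aj_ge hN (j := v) (m := 2) (by norm_num) (by omega) (by omega)
    have g2 := aj_ge' hN (j := v + 1) (m := 2) (by norm_num) (by omega)
    have ga := aj_add (N := 2 * n) v
    have go := aj_or hN (j := v) (by omega)
    rw [show v + 1 + 1 = v + 2 by ring] at g2
    norm_num at g0 g2
    have u0 : aj (2 * n) v ≤ 4 / 3 * aj (2 * n) (v + 1) := by nlinarith
    have u2 : aj (2 * n) (v + 2) ≤ 4 / 3 * aj (2 * n) (v + 1) := by nlinarith
    rw [e] at h3 ⊢
    apply gen_lt (by simp; positivity) (by simp) _ _ h h3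
    · left
      have q0 := G_Vert_sq (by norm_num) p1.le g0
      have q2 := G_Vert_sq (by norm_num) p1.le g2
      have r0 := G_Vert_sq' p0.le u0
      have r2 := G_Vert_sq' p2.le u2
      norm_num at q0 q2 r0 r2
      refine ⟨by simp, ?_, ?_, ?_, ?_⟩ <;> simp <;> assumption
    · rcases go with g | g
      · right
        simp
        nlinarith
      · left
        simp
        nlinarith
  · -- `v` odd
    by_cases hl : v + 1 = 2 * n
    · have hv' : v = 2 * n - 1 := by omega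
      have e := kv_last hN hE
      rw [← hv'] at e
      rw [e] at h3 ⊢
      have hz1 : 1 / cN (2 * n) ^ 2 ≤ 4 / 3 := by
        rw [div_le_iff₀ (by positivity)]
        nlinarith
      have hz2 : 1 ≤ 1 / cN (2 * n) ^ 2 := by
        rw [le_div_iff₀ (by positivity)]
        nlinarith
      apply gen_lt (by simp; positivity) (by simp) _ _ h h3
      · left
        refine ⟨by simp, ?_, ?_, ?_, ?_⟩ <;>
        · simp only [Matrix.cons_val_zero, Matrix.cons_val_one, Matrix.cons_val]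
          linarith
      · left
        simp only [Matrix.cons_val_zero, Matrix.cons_val_one]
        exact hz2
    · have hv1 : v + 1 < 2 * n := by omega
      have e := kv_odd hN hE hp hv1
      by_cases h1 : v = 1
      · subst h1
        have e' : kv (2 * n) 1 = ![(4 * cN (2 * n) ^ 2 - 1) ^ 2, 1 / cN (2 * n) ^ 2, 1,
            4 * cN (2 * n) ^ 2] := by
          rw [e, show 1 + 2 = 3 by norm_num, aj_three hN, aj_one hN, show 1 + 1 = 2 by norm_num,
            aj_two hN]
          norm_num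
          ring
        rw [e']
        exact one_lt hz.1 hz.2 h
      · by_cases hm : v + 3 = 2 * n
        · have e' : kv (2 * n) v = Sw02 ![(4 * cN (2 * n) ^ 2 - 1) ^ 2, 1 / cN (2 * n) ^ 2, 1,
              4 * cN (2 * n) ^ 2] := by
            rw [e, show v + 2 = 2 * n - 1 by omega, aj_symm hN (by omega), aj_one hN,
              show v + 1 = 2 * n - 2 by omega, aj_symm hN (by omega), aj_two hN,
              show v = 2 * n - 3 by omega, aj_symm hN (by omega), aj_three hN, G_Vert_Sw02]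
            congr! 2
            · norm_num
            · congr! 1
              congr! 1
              ring
          rw [e', Ph_Sw02]
          have hh := one_lt hz.1 hz.2 (LP_Sw02 h)
          rw [G_Vert_lin02, ← Bv_Sw02]
          exact hh
        · -- generic
          have hv5 : v + 5 ≤ 2 * n := by omega
          have hv3 : 3 ≤ v := by omega
          have p0 := aj_pos hN (j := v) (by omega) (by omega)
          have p1 := aj_pos hN (j := v + 1) (by omega) (by omega)
          have p2 := aj_pos hN (j := v + 2) (by omega) (by omega)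
          have g0 := aj_ge hN (j := v) (m := 3) (by norm_num) (by omega) (by omega)
          have g2 := aj_ge' hN (j := v + 1) (m := 3) (by norm_num) (by omega)
          have ga := aj_add (N := 2 * n) v
          have go := aj_or hN (j := v) (by omega)
          have gb := aj_big (N := 2 * n) (j := v + 1) (by omega) (by omega) (by omega)
          rw [show v + 1 + 1 = v + 2 by ring] at g2
          norm_num at g0 g2
          have u0 : aj (2 * n) v ≤ 5 / 4 * aj (2 * n) (v + 1) := by nlinarith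
          have u2 : aj (2 * n) (v + 2) ≤ 5 / 4 * aj (2 * n) (v + 1) := by nlinarith
          have e' : kv (2 * n) v = Sw13 ![aj (2 * n) (v + 2) ^ 2, aj (2 * n) (v + 1) ^ 2,
              aj (2 * n) v ^ 2, 1 / cN (2 * n) ^ 2] := by
            rw [e, G_Vert_Sw13]
          rw [e', Ph_Sw13, G_Vert_lin13, ← Bv_Sw13]
          have q0 := G_Vert_sq (by norm_num) p1.le g0
          have q2 := G_Vert_sq (by norm_num) p1.le g2
          have r0 := G_Vert_sq' p0.le u0
          have r2 := G_Vert_sq' p2.le u2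
          norm_num at q0 q2 r0 r2
          have t3 : 1 / cN (2 * n) ^ 2 ≤ 0.172 * aj (2 * n) (v + 1) ^ 2 := by
            rw [div_le_iff₀ (by positivity)]
            linarith
          apply gen_lt _ _ _ _ (LP_Sw13 h)
          · intro hh
            exfalso
            have : (0 : ℝ) < 1 / cN (2 * n) ^ 2 := by positivity
            simp only [Matrix.cons_val] at hh
            linarith
          · show (0 : ℝ) < aj (2 * n) (v + 1) ^ 2
            positivity
          · show (0 : ℝ) ≤ 1 / cN (2 * n) ^ 2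
            positivity
          · right
            refine ⟨?_, ?_, ?_, ?_, ?_⟩ <;> simp only [Matrix.cons_val, Matrix.cons_val_zero,
              Matrix.cons_val_one] <;> linarith
          · rcases go with g | g
            · right
              simp
              nlinarith
            · left
              simp
              nlinarith

theorem base_le (hn : 3 ≤ n) {v : ℕ} (hv : v < 2 * n) (h0 : v ≠ 0) (h2 : v + 2 ≠ 2 * n) {a : ℝ}
    {s : Fin 4 → ℝ} (h : LP a s) (hs : ∀ k, corN (2 * n) v k ∉ FB n → s k = 0) :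
    Wv a s + linG (kv (2 * n) v) s ≤ PhB (2 * n) v := by
  have hp := G_Vert_pos hn hv h0 h2
  have h3 := G_Vert_kap_nn (2 * n) (corN (2 * n) v 3)
  have hs3 := G_Vert_three hn hs
  rw [PhB, if_neg (by tauto)]
  by_cases ha : a ≤ π / 2
  · exact R_le hp.1 hp.2.1 hp.2.2 h3 h ha hs3
  · rw [Wv, if_neg ha, zero_add]
    exact (G_Vert_lt hn hv h0 h2 h hs3).le

theorem base_eq (hn : 3 ≤ n) {v : ℕ} (hv : v < 2 * n) (h0 : v ≠ 0) (h2 : v + 2 ≠ 2 * n) {a : ℝ}
    {s : Fin 4 → ℝ} (h : LP a s) (hs : ∀ k, corN (2 * n) v k ∉ FB n → s k = 0)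
    (he : PhB (2 * n) v ≤ Wv a s + linG (kv (2 * n) v) s) :
    a = arctan (2 * cN (2 * n)) ∧ s = sB (2 * n) v := by
  have hN : 6 ≤ 2 * n := by omega
  have hE : Even (2 * n) := ⟨n, by ring⟩
  have hp := G_Vert_pos hn hv h0 h2
  have h3 := G_Vert_kap_nn (2 * n) (corN (2 * n) v 3)
  have hs3 := G_Vert_three hn hs
  rw [PhB, if_neg (by tauto)] at he
  by_cases ha : a ≤ π / 2
  · have h1 := R_eq hp.1 hp.2.1 hp.2.2 h3 h ha hs3 he
    rw [ast_kv hN hE (Nat.pos_of_ne_zero h0) hv h2] at h1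
    refine ⟨h1.1, ?_⟩
    rw [sB, if_neg h0, if_neg h2]
    exact h1.2
  · rw [Wv, if_neg ha, zero_add] at he
    exact absurd he (not_le.2 (G_Vert_lt hn hv h0 h2 h hs3))

private theorem G_Vert_lin_mono {κ κ' s : Fin 4 → ℝ} (hs : ∀ k, 0 ≤ s k)
    (h : ∀ k, κ k = κ' k ∨ (0 < κ k ∧ κ k ≤ κ' k)) : linG κ s ≤ linG κ' s := by
  unfold linG
  apply Finset.sum_le_sum
  intro k _
  rcases h k with h | ⟨h1, h2⟩
  · rw [h]
  · have h3 := log_le_log h1 h2
    have h4 := hs k
    nlinarith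

/-! ## Values of the curvatures -/

private theorem G_Vert_k2 : kapG (2 * n) 2 = 1 := by simp [kapG]

private theorem G_Vert_k3 : kapG (2 * n) 3 = 1 / cN (2 * n) ^ 2 := by simp [kapG]

private theorem G_Vert_k4 (hn : 3 ≤ n) : kapG (2 * n) 4 = 4 * cN (2 * n) ^ 2 := by
  have hN : 6 ≤ 2 * n := by omega
  rw [kapG, if_neg (by norm_num), if_neg (by norm_num), if_neg (by norm_num),
    show 4 - 2 = 2 by norm_num, aj_two hN]
  ring

private theorem G_Vert_k5 (hn : 3 ≤ n) : kapG (2 * n) 5 = (4 * cN (2 * n) ^ 2 - 1) ^ 2 := by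
  have hN : 6 ≤ 2 * n := by omega
  rw [kapG, if_neg (by norm_num), if_neg (by norm_num), if_neg (by norm_num),
    show 5 - 2 = 3 by norm_num, aj_three hN]

private theorem G_Vert_kN1 (hn : 3 ≤ n) : kapG (2 * n) (2 * n + 1) = 1 := by
  have hN : 6 ≤ 2 * n := by omega
  rw [kapG, if_neg (by omega), if_neg (by omega), if_neg (by omega),
    show 2 * n + 1 - 2 = 2 * n - 1 by omega, aj_symm hN (by omega), aj_one hN, one_pow]

private theorem G_Vert_kN (hn : 3 ≤ n) : kapG (2 * n) (2 * n) = 4 * cN (2 * n) ^ 2 := by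
  have hN : 6 ≤ 2 * n := by omega
  rw [kapG, if_neg (by omega), if_neg (by omega), if_neg (by omega), aj_symm hN (by omega),
    aj_two hN]
  ring

private theorem G_Vert_km (hn : 3 ≤ n) :
    kapG (2 * n) (2 * n - 1) = (4 * cN (2 * n) ^ 2 - 1) ^ 2 := by
  have hN : 6 ≤ 2 * n := by omega
  rw [kapG, if_neg (by omega), if_neg (by omega), if_neg (by omega),
    show 2 * n - 1 - 2 = 2 * n - 3 by omega, aj_symm hN (by omega), aj_three hN]

private theorem G_Vert_kapM_le (hn : 3 ≤ n) (L R : Prop) [Decidable L] [Decidable R] {f : ℕ}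
    (h1 : f ≠ 2) (h2 : f ≠ 2 * n + 1) :
    kapM (2 * n) L R f = kapG (2 * n) f ∨
      (0 < kapM (2 * n) L R f ∧ kapM (2 * n) L R f ≤ kapG (2 * n) f) := by
  have hN : 6 ≤ 2 * n := by omega
  have hz := cN_sq hN
  rw [kapM]
  split_ifs with h3 h4
  · have h5 : f = 4 := by tauto
    right
    rw [h5, G_Vert_k4 hn]
    constructor <;> linarith
  · have h5 : f = 2 * n := by tauto
    right
    rw [h5, G_Vert_kN hn]
    constructor <;> linarith
  · left
    rfl

private theorem G_Vert_kapM_eq (L R : Prop) [Decidable L] [Decidable R] {N f : ℕ}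
    (h1 : ¬ (L ∧ (f = 2 ∨ f = 4))) (h2 : ¬ (R ∧ (f = N ∨ f = N + 1))) :
    kapM N L R f = kapG N f := by
  rw [kapM, if_neg h1, if_neg h2]

private theorem G_Vert_kapM_L (L R : Prop) [Decidable L] [Decidable R] {N f : ℕ}
    (hL : L) (h1 : f = 2 ∨ f = 4) : kapM N L R f = 2 := by
  rw [kapM, if_pos ⟨hL, h1⟩]

private theorem G_Vert_kapM_R (L R : Prop) [Decidable L] [Decidable R] {N f : ℕ} (hR : R)
    (h1 : f = N ∨ f = N + 1) : kapM N L R f = 2 := by
  by_cases hh : L ∧ (f = 2 ∨ f = 4)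
  · rw [kapM, if_pos hh]
  · rw [kapM, if_neg hh, if_pos ⟨hR, h1⟩]

/-! ## The corners -/

private theorem G_Vert_c0 (hn : 3 ≤ n) : corN (2 * n) 0 = ![4, 2, 1, 0] := by
  have h1 : 2 < 2 * n := by omega
  simp [corN, gf, h1]

private theorem G_Vert_c1 (hn : 3 ≤ n) : corN (2 * n) 1 = ![5, 3, 2, 4] := by
  have h1 : 2 < 2 * n := by omega
  have h2 : 3 < 2 * n := by omega
  simp [corN, gf, h1, h2]

private theorem G_Vert_cm2 (hn : 3 ≤ n) :
    corN (2 * n) (2 * n - 2) = ![1, 2 * n + 1, 2 * n, 0] := by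
  rw [corN, if_pos (by omega)]
  have e1 : gf (2 * n) (2 * n - 2 + 2) = 1 := by
    rw [gf, if_neg (by omega), if_neg (by omega), if_neg (by omega), if_pos (by omega)]
  have e2 : gf (2 * n) (2 * n - 2 + 1) = 2 * n + 1 := by
    rw [gf, if_neg (by omega), if_neg (by omega), if_pos (by omega)]
    omega
  have e3 : gf (2 * n) (2 * n - 2) = 2 * n := by
    rw [gf, if_neg (by omega), if_neg (by omega), if_pos (by omega)]
    omega
  rw [e1, e2, e3]

private theorem G_Vert_cm3 (hn : 3 ≤ n) :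
    corN (2 * n) (2 * n - 3) = ![2 * n + 1, 3, 2 * n - 1, 2 * n] := by
  rw [corN, if_neg (by omega)]
  have e1 : gf (2 * n) (2 * n - 3 + 2) = 2 * n + 1 := by
    rw [gf, if_neg (by omega), if_neg (by omega), if_pos (by omega)]
    omega
  have e2 : gf (2 * n) (2 * n - 3 + 1) = 2 * n := by
    rw [gf, if_neg (by omega), if_neg (by omega), if_pos (by omega)]
    omega
  have e3 : gf (2 * n) (2 * n - 3) = 2 * n - 1 := by
    rw [gf, if_neg (by omega), if_neg (by omega), if_pos (by omega)]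
    omega
  rw [e1, e2, e3]

private theorem G_Vert_cm1 (hn : 3 ≤ n) :
    corN (2 * n) (2 * n - 1) = ![2, 3, 2 * n + 1, 1] := by
  rw [corN, if_neg (by omega)]
  have e1 : gf (2 * n) (2 * n - 1 + 2) = 2 := by
    rw [gf, if_neg (by omega), if_neg (by omega), if_neg (by omega), if_neg (by omega)]
  have e2 : gf (2 * n) (2 * n - 1 + 1) = 1 := by
    rw [gf, if_neg (by omega), if_neg (by omega), if_neg (by omega), if_pos (by omega)]
  have e3 : gf (2 * n) (2 * n - 1) = 2 * n + 1 := by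
    rw [gf, if_neg (by omega), if_neg (by omega), if_pos (by omega)]
    omega
  rw [e1, e2, e3]

private theorem G_Vert_nF0 : (0 : ℕ) ∉ FB n := by simp [FB]

private theorem G_Vert_nF1 : (1 : ℕ) ∉ FB n := by simp [FB]

/-! ## The end vertices -/

private theorem G_Vert_end0 {a : ℝ} {s κ : Fin 4 → ℝ} (h : LP a s) (h2 : s 2 = 0)
    (h3 : s 3 = 0) : s 0 = a ∧ s 1 = π - a ∧ 0 ≤ a ∧
      Wv a s + linG κ s = (if a ≤ π / 2 then vE a else 0) + 2 * a * log (κ 0) +
        2 * (π - a) * log (κ 1) := by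
  obtain ⟨e0, e1, eB⟩ := end_of h (k := 2) h2 h3
  have e0' : s 0 = a := e0
  have e1' : s 1 = π - a := e1
  refine ⟨e0', e1', e0' ▸ h.nn 0, ?_⟩
  rw [Wv, eB, linG, Fin.sum_univ_four, e0', e1', h2, h3]
  ring

private theorem G_Vert_end2 {a : ℝ} {s κ : Fin 4 → ℝ} (h : LP a s) (h0 : s 0 = 0)
    (h3 : s 3 = 0) : s 2 = a ∧ s 1 = π - a ∧ 0 ≤ a ∧
      Wv a s + linG κ s = (if a ≤ π / 2 then vE a else 0) + 2 * a * log (κ 2) +
        2 * (π - a) * log (κ 1) := by
  obtain ⟨e1, e2, eB⟩ := end_of h (k := 3) h3 h0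
  have e2' : s 2 = a := e2
  have e1' : s 1 = π - a := e1
  refine ⟨e2', e1', e2' ▸ h.nn 2, ?_⟩
  rw [Wv, eB, linG, Fin.sum_univ_four, e2', e1', h0, h3]
  ring

private theorem G_Vert_PhE0 : PhB (2 * n) 0 = PhE (4 * cN (2 * n) ^ 2) 1 := by
  rw [PhB, if_pos (Or.inl rfl)]

private theorem G_Vert_PhE2 (hn : 3 ≤ n) :
    PhB (2 * n) (2 * n - 2) = PhE (4 * cN (2 * n) ^ 2) 1 := by
  rw [PhB, if_pos (Or.inr (by omega))]

/-- The value at an end vertex. -/
private theorem G_Vert_endle (hn : 3 ≤ n) (P : Prop) [Decidable P] {a : ℝ} (h0 : 0 ≤ a)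
    (hP : P ↔ π / 2 < a) :
    (if a ≤ π / 2 then vE a else 0) + 2 * a * log (if P then 2 else 4 * cN (2 * n) ^ 2) +
        2 * (π - a) * log (if P then 2 else 1) ≤ PhE (4 * cN (2 * n) ^ 2) 1 +
      (if P then 2 * π * log 2 - PhE (4 * cN (2 * n) ^ 2) 1 else 0) := by
  have hN : 6 ≤ 2 * n := by omega
  have hc := cN_pos hN
  by_cases h : P
  · have ha := hP.1 h
    rw [if_pos h, if_pos h, if_pos h, if_neg (not_le.2 ha)]
    apply le_of_eq
    ring
  · have ha : a ≤ π / 2 := by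
      by_contra hh
      exact h (hP.2 (not_le.1 hh))
    rw [if_neg h, if_neg h, if_neg h, if_pos ha, add_zero]
    exact R_end_le (by positivity) one_pos h0 ha

private theorem G_Vert_arctan (hn : 3 ≤ n) :
    arctan √(4 * cN (2 * n) ^ 2 / 1) = arctan (2 * cN (2 * n)) := by
  have hN : 6 ≤ 2 * n := by omega
  have hc := cN_pos hN
  rw [div_one, show 4 * cN (2 * n) ^ 2 = (2 * cN (2 * n)) ^ 2 by ring, sqrt_sq (by positivity)]

/-! ## The vertices one by one -/

private theorem G_Vert_v0 (hn : 3 ≤ n) (L R : Prop) [Decidable L] [Decidable R] {a : ℝ}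
    {s : Fin 4 → ℝ} (h : LP a s) (hs : ∀ k, corN (2 * n) 0 k ∉ FB n → s k = 0)
    (hL : L ↔ π / 2 < a) :
    Wv a s + linG (fun k => kapM (2 * n) L R (corN (2 * n) 0 k)) s ≤
      PhB (2 * n) 0 + dlt (2 * n) L R 0 := by
  have hN : 6 ≤ 2 * n := by omega
  rw [G_Vert_c0 hn] at hs ⊢
  have s2 : s 2 = 0 := hs 2 G_Vert_nF1
  have s3 : s 3 = 0 := hs 3 G_Vert_nF0
  obtain ⟨-, -, h0, e⟩ := G_Vert_end0 (κ := fun k => kapM (2 * n) L R (![4, 2, 1, 0] k)) h s2 s3
  have k0 : kapM (2 * n) L R 4 = if L then 2 else 4 * cN (2 * n) ^ 2 := by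
    split_ifs with hl
    · exact G_Vert_kapM_L L R hl (Or.inr rfl)
    · rw [G_Vert_kapM_eq L R (by tauto) (by omega), G_Vert_k4 hn]
  have k1 : kapM (2 * n) L R 2 = if L then 2 else 1 := by
    split_ifs with hl
    · exact G_Vert_kapM_L L R hl (Or.inl rfl)
    · rw [G_Vert_kapM_eq L R (by tauto) (by omega), G_Vert_k2]
  have hd : dlt (2 * n) L R 0 = if L then 2 * π * log 2 - PhE (4 * cN (2 * n) ^ 2) 1 else 0 := by
    have a1 : ¬ (0 = 1) := by norm_num
    have a2 : ¬ (0 + 1 = 2 * n) := by omega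
    have a3 : ¬ (0 + 2 = 2 * n) := by omega
    have a4 : ¬ (0 + 3 = 2 * n) := by omega
    simp only [dlt, a1, a2, a3, a4, ↓reduceIte, add_zero, ite_self]
  rw [e, hd, G_Vert_PhE0]
  show (if a ≤ π / 2 then vE a else 0) + 2 * a * log (kapM (2 * n) L R 4) +
        2 * (π - a) * log (kapM (2 * n) L R 2) ≤ _
  rw [k0, k1]
  exact G_Vert_endle hn L h0 hL

private theorem G_Vert_v2 (hn : 3 ≤ n) (L R : Prop) [Decidable L] [Decidable R] {a : ℝ}
    {s : Fin 4 → ℝ} (h : LP a s) (hs : ∀ k, corN (2 * n) (2 * n - 2) k ∉ FB n → s k = 0)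
    (hR : R ↔ π / 2 < a) :
    Wv a s + linG (fun k => kapM (2 * n) L R (corN (2 * n) (2 * n - 2) k)) s ≤
      PhB (2 * n) (2 * n - 2) + dlt (2 * n) L R (2 * n - 2) := by
  have hN : 6 ≤ 2 * n := by omega
  rw [G_Vert_cm2 hn] at hs ⊢
  have s0 : s 0 = 0 := hs 0 G_Vert_nF1
  have s3 : s 3 = 0 := hs 3 G_Vert_nF0
  obtain ⟨-, -, h0, e⟩ := G_Vert_end2
    (κ := fun k => kapM (2 * n) L R (![1, 2 * n + 1, 2 * n, 0] k)) h s0 s3
  have k2 : kapM (2 * n) L R (2 * n) = if R then 2 else 4 * cN (2 * n) ^ 2 := by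
    split_ifs with hl
    · exact G_Vert_kapM_R L R hl (Or.inl rfl)
    · rw [G_Vert_kapM_eq L R (by omega) (by tauto), G_Vert_kN hn]
  have k1 : kapM (2 * n) L R (2 * n + 1) = if R then 2 else 1 := by
    split_ifs with hl
    · exact G_Vert_kapM_R L R hl (Or.inr rfl)
    · rw [G_Vert_kapM_eq L R (by omega) (by tauto), G_Vert_kN1 hn]
  have hd : dlt (2 * n) L R (2 * n - 2) =
      if R then 2 * π * log 2 - PhE (4 * cN (2 * n) ^ 2) 1 else 0 := by
    have a0 : ¬ (2 * n - 2 = 0) := by omega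
    have a1 : ¬ (2 * n - 2 = 1) := by omega
    have a2 : ¬ (2 * n - 2 + 1 = 2 * n) := by omega
    have a3 : (2 * n - 2 + 2 = 2 * n) := by omega
    have a4 : ¬ (2 * n - 2 + 3 = 2 * n) := by omega
    simp only [dlt, a0, a1, a2, a3, a4, ↓reduceIte, add_zero, zero_add, ite_self]
  rw [e, hd, G_Vert_PhE2 hn]
  show (if a ≤ π / 2 then vE a else 0) + 2 * a * log (kapM (2 * n) L R (2 * n)) +
        2 * (π - a) * log (kapM (2 * n) L R (2 * n + 1)) ≤ _
  rw [k2, k1]
  exact G_Vert_endle hn R h0 hR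

private theorem G_Vert_v1 (hn : 3 ≤ n) (L R : Prop) [Decidable L] [Decidable R] {a : ℝ}
    {s : Fin 4 → ℝ} (h : LP a s) (hs : ∀ k, corN (2 * n) 1 k ∉ FB n → s k = 0) :
    Wv a s + linG (fun k => kapM (2 * n) L R (corN (2 * n) 1 k)) s ≤
      PhB (2 * n) 1 + dlt (2 * n) L R 1 := by
  have hN : 6 ≤ 2 * n := by omega
  have hE : Even (2 * n) := ⟨n, by ring⟩
  have hz := cN_sq hN
  have hd : dlt (2 * n) L R 1 = if L then -(π / 2 * log (cN (2 * n) ^ 2)) else 0 := by
    have a0 : ¬ (1 = 0) := by omega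
    have a2 : ¬ (1 + 1 = 2 * n) := by omega
    have a3 : ¬ (1 + 2 = 2 * n) := by omega
    have a4 : ¬ (1 + 3 = 2 * n) := by omega
    simp only [dlt, a0, a2, a3, a4, ↓reduceIte, add_zero, zero_add, ite_self]
  by_cases hL : L
  · have hk : (fun k => kapM (2 * n) L R (corN (2 * n) 1 k)) =
        ![(4 * cN (2 * n) ^ 2 - 1) ^ 2, 1 / cN (2 * n) ^ 2, 2, 2] := by
      rw [G_Vert_c1 hn]
      funext k
      fin_cases k
      · show kapM (2 * n) L R 5 = _
        rw [G_Vert_kapM_eq L R (by omega) (by omega), G_Vert_k5 hn]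
        rfl
      · show kapM (2 * n) L R 3 = _
        rw [G_Vert_kapM_eq L R (by omega) (by omega), G_Vert_k3]
        rfl
      · exact G_Vert_kapM_L L R hL (Or.inl rfl)
      · exact G_Vert_kapM_L L R hL (Or.inr rfl)
    have hP : PhB (2 * n) 1 =
        Ph ![(4 * cN (2 * n) ^ 2 - 1) ^ 2, 1 / cN (2 * n) ^ 2, 1, 4 * cN (2 * n) ^ 2] := by
      rw [PhB, if_neg (by omega), kv_odd hN hE (by norm_num) (by omega),
        show 1 + 2 = 3 by norm_num, aj_three hN, aj_one hN, show 1 + 1 = 2 by norm_num,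
        aj_two hN, one_pow, mul_pow]
      norm_num
    rw [hk, hP, hd, if_pos hL, ← sub_eq_add_neg]
    exact one_mod hz.1 hz.2 h
  · have hk : (fun k => kapM (2 * n) L R (corN (2 * n) 1 k)) = kv (2 * n) 1 := by
      funext k
      rw [kv, G_Vert_kapM_eq L R (by tauto)]
      rw [G_Vert_c1 hn]
      rintro ⟨-, hh⟩
      fin_cases k <;> simp at hh <;> omega
    rw [hk, hd, if_neg hL, add_zero]
    exact base_le hn (by omega) (by omega) (by omega) h hs

private theorem G_Vert_v3 (hn : 3 ≤ n) (L R : Prop) [Decidable L] [Decidable R] {a : ℝ}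
    {s : Fin 4 → ℝ} (h : LP a s) (hs : ∀ k, corN (2 * n) (2 * n - 3) k ∉ FB n → s k = 0) :
    Wv a s + linG (fun k => kapM (2 * n) L R (corN (2 * n) (2 * n - 3) k)) s ≤
      PhB (2 * n) (2 * n - 3) + dlt (2 * n) L R (2 * n - 3) := by
  have hN : 6 ≤ 2 * n := by omega
  have hE : Even (2 * n) := ⟨n, by ring⟩
  have hz := cN_sq hN
  have hd : dlt (2 * n) L R (2 * n - 3) = if R then -(π / 2 * log (cN (2 * n) ^ 2)) else 0 := by
    have a0 : ¬ (2 * n - 3 = 0) := by omega
    have a1 : ¬ (2 * n - 3 = 1) := by omega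
    have a2 : ¬ (2 * n - 3 + 1 = 2 * n) := by omega
    have a3 : ¬ (2 * n - 3 + 2 = 2 * n) := by omega
    have a4 : (2 * n - 3 + 3 = 2 * n) := by omega
    simp only [dlt, a0, a1, a2, a3, a4, ↓reduceIte, add_zero, zero_add, ite_self]
  by_cases hR : R
  · have hk : (fun k => kapM (2 * n) L R (corN (2 * n) (2 * n - 3) k)) =
        Sw02 ![(4 * cN (2 * n) ^ 2 - 1) ^ 2, 1 / cN (2 * n) ^ 2, 2, 2] := by
      rw [G_Vert_cm3 hn, G_Vert_Sw02]
      funext k
      fin_cases k
      · exact G_Vert_kapM_R L R hR (Or.inr rfl)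
      · show kapM (2 * n) L R 3 = _
        rw [G_Vert_kapM_eq L R (by omega) (by omega), G_Vert_k3]
        rfl
      · show kapM (2 * n) L R (2 * n - 1) = _
        rw [G_Vert_kapM_eq L R (by omega) (by omega), G_Vert_km hn]
        rfl
      · exact G_Vert_kapM_R L R hR (Or.inl rfl)
    have hP : PhB (2 * n) (2 * n - 3) =
        Ph ![(4 * cN (2 * n) ^ 2 - 1) ^ 2, 1 / cN (2 * n) ^ 2, 1, 4 * cN (2 * n) ^ 2] := by
      rw [PhB, if_neg (by omega), kv_odd hN hE (by omega) (by omega),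
        show 2 * n - 3 + 2 = 2 * n - 1 by omega, show 2 * n - 3 + 1 = 2 * n - 2 by omega,
        aj_symm hN (by omega), aj_symm hN (by omega), aj_symm hN (by omega), aj_three hN,
        aj_one hN, aj_two hN, one_pow, mul_pow, ← Ph_Sw02, G_Vert_Sw02]
      norm_num
    have hW : Wv a s = Wv a (Sw02 s) := by rw [Wv, Wv, Bv_Sw02]
    rw [hk, hP, hd, if_pos hR, ← sub_eq_add_neg, G_Vert_lin02, hW]
    exact one_mod hz.1 hz.2 (LP_Sw02 h)
  · have hk : (fun k => kapM (2 * n) L R (corN (2 * n) (2 * n - 3) k)) = kv (2 * n) (2 * n - 3) := by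
      funext k
      rw [kv, G_Vert_kapM_eq L R _ (by tauto)]
      rw [G_Vert_cm3 hn]
      rintro ⟨-, hh⟩
      fin_cases k <;> simp at hh <;> omega
    rw [hk, hd, if_neg hR, add_zero]
    exact base_le hn (by omega) (by omega) (by omega) h hs

private theorem G_Vert_vl (hn : 3 ≤ n) (L R : Prop) [Decidable L] [Decidable R] {a : ℝ}
    {s : Fin 4 → ℝ} (h : LP a s) (hs : ∀ k, corN (2 * n) (2 * n - 1) k ∉ FB n → s k = 0) :
    Wv a s + linG (fun k => kapM (2 * n) L R (corN (2 * n) (2 * n - 1) k)) s ≤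
      PhB (2 * n) (2 * n - 1) + dlt (2 * n) L R (2 * n - 1) := by
  have hN : 6 ≤ 2 * n := by omega
  have hE : Even (2 * n) := ⟨n, by ring⟩
  have hz := cN_sq hN
  have hd : dlt (2 * n) L R (2 * n - 1) = (if L then 2 * π / 3 * log 2 else 0) +
      (if R then 2 * π / 3 * log 2 else 0) := by
    have a0 : ¬ (2 * n - 1 = 0) := by omega
    have a1 : ¬ (2 * n - 1 = 1) := by omega
    have a2 : (2 * n - 1 + 1 = 2 * n) := by omega
    have a3 : ¬ (2 * n - 1 + 2 = 2 * n) := by omega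
    have a4 : ¬ (2 * n - 1 + 3 = 2 * n) := by omega
    simp only [dlt, a0, a1, a2, a3, a4, ↓reduceIte, zero_add]
  have hk : (fun k => kapM (2 * n) L R (corN (2 * n) (2 * n - 1) k)) =
      ![if L then 2 else 1, 1 / cN (2 * n) ^ 2, if R then 2 else 1, 0] := by
    rw [G_Vert_cm1 hn]
    funext k
    fin_cases k
    · show kapM (2 * n) L R 2 = if L then 2 else 1
      split_ifs with hl
      · exact G_Vert_kapM_L L R hl (Or.inl rfl)
      · rw [G_Vert_kapM_eq L R (by tauto) (by omega), G_Vert_k2]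
    · show kapM (2 * n) L R 3 = _
      rw [G_Vert_kapM_eq L R (by omega) (by omega), G_Vert_k3]
      rfl
    · show kapM (2 * n) L R (2 * n + 1) = if R then 2 else 1
      split_ifs with hl
      · exact G_Vert_kapM_R L R hl (Or.inr rfl)
      · rw [G_Vert_kapM_eq L R (by omega) (by tauto), G_Vert_kN1 hn]
    · show kapM (2 * n) L R 1 = 0
      rw [G_Vert_kapM_eq L R (by omega) (by omega), kapG, if_pos le_rfl]
  have hP : PhB (2 * n) (2 * n - 1) = Ph ![1, 1 / cN (2 * n) ^ 2, 1, 0] := by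
    rw [PhB, if_neg (by omega), kv_last hN hE]
  have s3 : s 3 = 0 := by
    rw [G_Vert_cm1 hn] at hs
    exact hs 3 G_Vert_nF1
  have hb := base_le hn (by omega) (by omega) (by omega) h hs
  rw [hP, kv_last hN hE] at hb
  rw [hk, hd, hP]
  by_cases hL : L <;> by_cases hR : R
  · rw [if_pos hL, if_pos hR, if_pos hL, if_pos hR]
    have := last_mod2 hz.1 hz.2 h s3
    linarith
  · rw [if_pos hL, if_neg hR, if_pos hL, if_neg hR]
    have := last_mod hz.1 hz.2 h s3
    linarith
  · rw [if_neg hL, if_pos hR, if_neg hL, if_pos hR]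
    have := last_mod' hz.1 hz.2 h s3
    linarith
  · rw [if_neg hL, if_neg hR, if_neg hL, if_neg hR]
    linarith

private theorem G_Vert_vg (hn : 3 ≤ n) (L R : Prop) [Decidable L] [Decidable R] {v : ℕ}
    (hv : 2 ≤ v) (hv' : v + 4 ≤ 2 * n) {a : ℝ} {s : Fin 4 → ℝ} (h : LP a s)
    (hs : ∀ k, corN (2 * n) v k ∉ FB n → s k = 0) :
    Wv a s + linG (fun k => kapM (2 * n) L R (corN (2 * n) v k)) s ≤
      PhB (2 * n) v + dlt (2 * n) L R v := by
  have hN : 6 ≤ 2 * n := by omega
  have hd : dlt (2 * n) L R v = 0 := by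
    have a0 : ¬ (v = 0) := by omega
    have a1 : ¬ (v = 1) := by omega
    have a2 : ¬ (v + 1 = 2 * n) := by omega
    have a3 : ¬ (v + 2 = 2 * n) := by omega
    have a4 : ¬ (v + 3 = 2 * n) := by omega
    simp only [dlt, a0, a1, a2, a3, a4, ↓reduceIte, add_zero, ite_self]
  have hb := base_le hn (by omega) (by omega) (by omega) h hs
  have hm : linG (fun k => kapM (2 * n) L R (corN (2 * n) v k)) s ≤ linG (kv (2 * n) v) s := by
    apply G_Vert_lin_mono h.nn
    intro k
    apply G_Vert_kapM_le hn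
    · rw [corN]
      split_ifs <;> fin_cases k <;> simp [gf] <;> split_ifs <;> omega
    · rw [corN]
      split_ifs <;> fin_cases k <;> simp [gf] <;> first | omega | (split_ifs <;> omega)
  rw [hd]
  linarith

open Classical in
theorem vert_le (hn : 3 ≤ n) {y : Vr (2 * n) → ℝ} (h : IsAng (FB n) (corB n) y)
    (v : Fin (2 * n)) :
    Wv (ya y v) (ys y v) + linG (fun k => kapM (2 * n) (π / 2 < ya y ⟨0, by omega⟩)
      (π / 2 < ya y ⟨2 * n - 2, by omega⟩) (corB n v k)) (ys y v) ≤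
      PhB (2 * n) v + dlt (2 * n) (π / 2 < ya y ⟨0, by omega⟩)
        (π / 2 < ya y ⟨2 * n - 2, by omega⟩) v := by
  rcases v with ⟨v, hv⟩
  have hL := LP_of h ⟨v, hv⟩
  have hs : ∀ k, corN (2 * n) v k ∉ FB n → ys y ⟨v, hv⟩ k = 0 := fun k hk => ys_out h hk
  by_cases h0 : v = 0
  · subst h0
    exact G_Vert_v0 hn _ _ hL hs Iff.rfl
  by_cases h2 : v = 2 * n - 2
  · subst h2
    exact G_Vert_v2 hn _ _ hL hs Iff.rfl
  by_cases h1 : v = 1
  · subst h1
    exact G_Vert_v1 hn _ _ hL hs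
  by_cases h3 : v = 2 * n - 3
  · subst h3
    exact G_Vert_v3 hn _ _ hL hs
  by_cases h4 : v = 2 * n - 1
  · subst h4
    exact G_Vert_vl hn _ _ hL hs
  have hv2 : 2 ≤ v := by omega
  have hv4 : v + 4 ≤ 2 * n := by omega
  exact G_Vert_vg hn _ _ hv2 hv4 hL hs

/-- The end vertices, in the case of equality. -/
theorem end_eq (hn : 3 ≤ n) {y : Vr (2 * n) → ℝ} (h : IsAng (FB n) (corB n) y)
    {v : Fin (2 * n)} (hv : (v : ℕ) = 0 ∨ (v : ℕ) + 2 = 2 * n) (ha : ya y v ≤ π / 2)
    (he : PhB (2 * n) v ≤ Wv (ya y v) (ys y v) + linG (kv (2 * n) v) (ys y v)) :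
    ya y v = arctan (2 * cN (2 * n)) ∧ ys y v = sB (2 * n) v := by
  have hN : 6 ≤ 2 * n := by omega
  have hE : Even (2 * n) := ⟨n, by ring⟩
  have hc := cN_pos hN
  have hL := LP_of h v
  have hs : ∀ k, corN (2 * n) v k ∉ FB n → ys y v k = 0 := fun k hk => ys_out h hk
  by_cases h0 : (v : ℕ) = 0
  · rw [h0, G_Vert_c0 hn] at hs
    have s2 : ys y v 2 = 0 := hs 2 G_Vert_nF1
    have s3 : ys y v 3 = 0 := hs 3 G_Vert_nF0
    obtain ⟨e0, e1, ha0, e⟩ := G_Vert_end0 (κ := kv (2 * n) v) hL s2 s3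
    rw [e, h0, if_pos ha, G_Vert_PhE0] at he
    have k0 : kv (2 * n) 0 0 = 4 * cN (2 * n) ^ 2 := by
      rw [kv, G_Vert_c0 hn]
      exact G_Vert_k4 hn
    have k1 : kv (2 * n) 0 1 = 1 := by
      rw [kv, G_Vert_c0 hn]
      exact G_Vert_k2
    rw [k0, k1] at he
    have hh := R_end_eq (by positivity) one_pos ha0 ha he
    rw [G_Vert_arctan hn] at hh
    refine ⟨hh, ?_⟩
    rw [sB, if_pos h0]
    funext k
    fin_cases k
    · exact e0.trans hh
    · show ys y v 1 = π - arctan (2 * cN (2 * n))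
      rw [e1, hh]
    · exact s2
    · exact s3
  · have h2 : (v : ℕ) + 2 = 2 * n := by tauto
    have h2' : (v : ℕ) = 2 * n - 2 := by omega
    rw [h2', G_Vert_cm2 hn] at hs
    have s0 : ys y v 0 = 0 := hs 0 G_Vert_nF1
    have s3 : ys y v 3 = 0 := hs 3 G_Vert_nF0
    obtain ⟨e2, e1, ha0, e⟩ := G_Vert_end2 (κ := kv (2 * n) v) hL s0 s3
    rw [e, h2', if_pos ha, G_Vert_PhE2 hn] at he
    have k2 : kv (2 * n) (2 * n - 2) 2 = 4 * cN (2 * n) ^ 2 := by
      rw [kv, G_Vert_cm2 hn]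
      exact G_Vert_kN hn
    have k1 : kv (2 * n) (2 * n - 2) 1 = 1 := by
      rw [kv, G_Vert_cm2 hn]
      exact G_Vert_kN1 hn
    rw [k2, k1] at he
    have hh := R_end_eq (by positivity) one_pos ha0 ha he
    rw [G_Vert_arctan hn] at hh
    refine ⟨hh, ?_⟩
    rw [sB, if_neg h0, if_pos h2]
    funext k
    fin_cases k
    · exact s0
    · show ys y v 1 = π - arctan (2 * cN (2 * n))
      rw [e1, hh]
    · exact e2.trans hh
    · exact s3

/-- The values at the maximum. -/
theorem vert_xB (hn : 3 ≤ n) (v : Fin (2 * n)) :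
    Wv (ya (xB n) v) (ys (xB n) v) + linG (kv (2 * n) v) (ys (xB n) v) = PhB (2 * n) v := by
  have hN : 6 ≤ 2 * n := by omega
  have hE : Even (2 * n) := ⟨n, by ring⟩
  have hc := cN_pos hN
  have ea : ya (xB n) v = arctan (2 * cN (2 * n)) := by
    rw [ya]
    show π * (1 - (1 - arctan (2 * cN (2 * n)) / π)) = _
    field_simp
    ring
  have es : ys (xB n) v = sB (2 * n) v := by
    funext k
    rw [ys]
    show π * (sB (2 * n) v k / π) = _
    field_simp
  rw [ea, es]
  have hle : arctan (2 * cN (2 * n)) ≤ π / 2 := (arctan_lt_pi_div_two _).le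
  have hpos : 0 < arctan (2 * cN (2 * n)) := by
    rw [← arctan_zero]
    exact arctan_strictMono (by positivity)
  set α := arctan (2 * cN (2 * n)) with hα
  have hPE : PhE (4 * cN (2 * n) ^ 2) 1 = vE α + 2 * α * log (4 * cN (2 * n) ^ 2) +
      2 * (π - α) * log 1 := by
    rw [PhE, G_Vert_arctan hn]
  by_cases h0 : (v : ℕ) = 0
  · have hs : sB (2 * n) v = ![α, π - α, 0, 0] := by rw [sB, if_pos h0]
    have hLP : LP α ![α, π - α, 0, 0] := by
      refine ⟨?_, ?_, ?_⟩
      · rw [Fin.sum_univ_four]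
        simp
      · intro k
        fin_cases k
        · exact hpos.le
        · show 0 ≤ π - α
          linarith [pi_pos]
        · exact le_rfl
        · exact le_rfl
      · intro k
        fin_cases k
        · exact le_rfl
        · exact le_rfl
        · exact hpos.le
        · show 0 ≤ π - α
          linarith [pi_pos]
    obtain ⟨-, -, -, e⟩ := G_Vert_end0 (κ := kv (2 * n) v) hLP rfl rfl
    have k0 : kv (2 * n) 0 0 = 4 * cN (2 * n) ^ 2 := by
      rw [kv, G_Vert_c0 hn]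
      exact G_Vert_k4 hn
    have k1 : kv (2 * n) 0 1 = 1 := by
      rw [kv, G_Vert_c0 hn]
      exact G_Vert_k2
    rw [hs, e, h0, if_pos hle, G_Vert_PhE0, k0, k1, hPE]
  · by_cases h2 : (v : ℕ) + 2 = 2 * n
    · have hs : sB (2 * n) v = ![0, π - α, α, 0] := by rw [sB, if_neg h0, if_pos h2]
      have h2' : (v : ℕ) = 2 * n - 2 := by omega
      have hLP : LP α ![0, π - α, α, 0] := by
        refine ⟨?_, ?_, ?_⟩
        · rw [Fin.sum_univ_four]
          simp
        · intro k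
          fin_cases k
          · exact le_rfl
          · show 0 ≤ π - α
            linarith [pi_pos]
          · exact hpos.le
          · exact le_rfl
        · intro k
          fin_cases k
          · exact hpos.le
          · exact le_rfl
          · exact le_rfl
          · show 0 ≤ π - α
            linarith [pi_pos]
      obtain ⟨-, -, -, e⟩ := G_Vert_end2 (κ := kv (2 * n) v) hLP rfl rfl
      have k2 : kv (2 * n) (2 * n - 2) 2 = 4 * cN (2 * n) ^ 2 := by
        rw [kv, G_Vert_cm2 hn]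
        exact G_Vert_kN hn
      have k1 : kv (2 * n) (2 * n - 2) 1 = 1 := by
        rw [kv, G_Vert_cm2 hn]
        exact G_Vert_kN1 hn
      rw [hs, e, h2', if_pos hle, G_Vert_PhE2 hn, k2, k1, hPE]
    · rw [PhB, if_neg (by tauto), sB, if_neg h0, if_neg h2, Ph,
        ast_kv hN hE (Nat.pos_of_ne_zero h0) v.2 h2]

end Pool.Agent.H63.CLK
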