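import Pool.Agent.H63.CLK.H_Def

set_option autoImplicit false

namespace Pool.Agent.H63.CLK

variable {c : ℕ} {F : Finset ℕ} {cor : Fin c → Fin 4 → ℕ}

private def rcor (ρ : ℕ → ℕ) (b : Bool) (x : Fin 4 → ℕ) : Fin 4 → ℕ :=
  fun k => ρ (x (if b then k - 1 else k))

private def rlist (B : ℕ → Bool) (ρ : ℕ → ℕ) : ℕ → List (Fin 4 → ℕ) → List (Fin 4 → ℕ)
  | _, [] => []
  | v, x :: l => rcor ρ (B v) x :: rlist B ρ (v + 1) l

private theorem rlist_append (B : ℕ → Bool) (ρ : ℕ → ℕ) (x : Fin 4 → ℕ) :
    ∀ (l : List (Fin 4 → ℕ)) (v : ℕ), rlist B ρ v (l ++ [x]) =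
      rlist B ρ v l ++ [rcor ρ (B (v + l.length)) x] := by
  intro l
  induction l with
  | nil => intro v; simp [rlist]
  | cons y l ih =>
    intro v
    simp only [List.cons_append, rlist, ih (v + 1), List.length_cons]
    rw [show v + 1 + l.length = v + (l.length + 1) by omega]

private theorem rlist_map (B : ℕ → Bool) (ρ ρ' : ℕ → ℕ) (g h : ℕ → ℕ) :
    ∀ (l : List (Fin 4 → ℕ)) (v : ℕ), (∀ y ∈ l, ∀ k, g (ρ (y k)) = ρ' (h (y k))) →
      (rlist B ρ v l).map (fun y k => g (y k)) = rlist B ρ' v (l.map (fun y k => h (y k))) := by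
  intro l
  induction l with
  | nil => intro v _; simp [rlist]
  | cons y l ih =>
    intro v hy
    simp only [List.map_cons, rlist]
    rw [ih (v + 1) fun z hz => hy z (List.mem_cons_of_mem _ hz)]
    congr 1
    funext k
    exact hy y List.mem_cons_self _

private theorem rlist_congr (B : ℕ → Bool) (ρ ρ' : ℕ → ℕ) :
    ∀ (l : List (Fin 4 → ℕ)) (v : ℕ), (∀ y ∈ l, ∀ k, ρ (y k) = ρ' (y k)) →
      rlist B ρ v l = rlist B ρ' v l := by
  intro l
  induction l with
  | nil => intro v _; rfl
  | cons y l ih =>
    intro v hy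
    simp only [rlist]
    rw [ih (v + 1) fun z hz => hy z (List.mem_cons_of_mem _ hz)]
    congr 1
    funext k
    exact hy y List.mem_cons_self _

private theorem rlist_ofFn (B : ℕ → Bool) (ρ : ℕ → ℕ) : ∀ (c : ℕ) (cor : Fin c → Fin 4 → ℕ) (v : ℕ),
    rlist B ρ v (List.ofFn cor) = List.ofFn (fun i : Fin c => rcor ρ (B (v + i)) (cor i)) := by
  intro c
  induction c with
  | zero => intro cor v; simp [rlist]
  | succ c ih =>
    intro cor v
    rw [List.ofFn_succ, List.ofFn_succ]
    simp only [rlist, Fin.val_zero, add_zero]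
    rw [ih (fun i => cor i.succ) (v + 1)]
    congr 2
    funext i
    rw [Fin.val_succ, show v + 1 + (i : ℕ) = v + ((i : ℕ) + 1) by omega]

private structure RRel (B : ℕ → Bool) (ρ : ℕ → ℕ) (S S' : Sweep) : Prop where
  gaps : S'.gaps = S.gaps.map ρ
  faces : S'.faces = S.faces.map ρ
  cor : S'.cor = rlist B ρ 0 S.cor
  nxt : ∀ x, S.nxt ≤ x → ρ x = S'.nxt + (x - S.nxt)
  bg : ∀ x ∈ S.gaps, x < S.nxt
  bf : ∀ x ∈ S.faces, x < S.nxt
  bc : ∀ y ∈ S.cor, ∀ k, y k < S.nxt
  mono : StrictMono ρ
  z : ρ 0 = 0
  o : ρ 1 = 1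
  two : 2 ≤ S.nxt

private theorem drop_map_cons {ρ : ℕ → ℕ} {l r : List ℕ} {i a : ℕ} (h : l.drop i = a :: r) :
    (l.map ρ).drop i = ρ a :: r.map ρ := by
  rw [← List.map_drop, h]; rfl

private theorem mem_of_drop {l r : List ℕ} {i : ℕ} (h : l.drop i = r) {x : ℕ} (hx : x ∈ r) : x ∈ l :=
  List.mem_of_mem_drop (h ▸ hx)

private theorem RRel.cup {B : ℕ → Bool} {ρ : ℕ → ℕ} {S S' T : Sweep} (h : RRel B ρ S S') {i : ℕ}
    (hT : S.step (.cup i) = some T) : ∃ T', S'.step (.cup i) = some T' ∧ RRel B ρ T T' ∧
      T.cor.length = S.cor.length := by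
  unfold Sweep.step at hT
  simp only at hT
  split at hT
  case h_2 => simp at hT
  case h_1 a r hd =>
    simp only [Option.some.injEq] at hT
    subst hT
    have hn : ρ S.nxt = S'.nxt := by rw [h.nxt _ le_rfl]; simp
    have hd' : S'.gaps.drop i = ρ a :: r.map ρ := by rw [h.gaps]; exact drop_map_cons hd
    refine ⟨⟨S'.gaps.take i ++ ρ a :: S'.nxt :: ρ a :: r.map ρ, S'.nxt :: S'.faces, S'.nxt + 1,
      S'.cor⟩, by simp only [Sweep.step, hd'], ⟨?_, ?_, h.cor, ?_, ?_, ?_, ?_, h.mono, h.z, h.o, ?_⟩,
      rfl⟩
    · simp [h.gaps, List.map_take, hn]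
    · simp [h.faces, hn]
    · intro x hx
      have hx' : S.nxt + 1 ≤ x := hx
      have := h.nxt x (by omega)
      show ρ x = S'.nxt + 1 + (x - (S.nxt + 1))
      omega
    · intro x hx
      simp only [List.mem_append, List.mem_cons] at hx ⊢
      have ha := h.bg a (mem_of_drop hd (by simp))
      rcases hx with hx | rfl | rfl | rfl | hx
      · have := h.bg x (List.mem_of_mem_take hx); show x < S.nxt + 1; omega
      · show _ < S.nxt + 1; omega
      · show _ < S.nxt + 1; omega
      · show _ < S.nxt + 1; omega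
      · have := h.bg x (mem_of_drop hd (by simp [hx])); show x < S.nxt + 1; omega
    · intro x hx
      simp only [List.mem_cons] at hx
      rcases hx with rfl | hx
      · show _ < S.nxt + 1; omega
      · have := h.bf x hx; show x < S.nxt + 1; omega
    · intro y hy k
      have := h.bc y hy k; show _ < S.nxt + 1; omega
    · have := h.two; show 2 ≤ S.nxt + 1; omega

private theorem ident_map {ρ : ℕ → ℕ} (hρ : StrictMono ρ) (a b x : ℕ) :
    ident (ρ a) (ρ b) (ρ x) = ρ (ident a b x) := by
  unfold ident
  rw [← hρ.monotone.map_max, ← hρ.monotone.map_min]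
  by_cases h : x = max a b
  · rw [if_pos h, if_pos (by rw [h])]
  · rw [if_neg h, if_neg (fun h' => h (hρ.injective h'))]

private theorem ident_lt {a b x n : ℕ} (ha : a < n) (hx : x < n) : ident a b x < n := by
  unfold ident
  split_ifs
  · exact (min_le_left _ _).trans_lt ha
  · exact hx

private theorem RRel.cap {B : ℕ → Bool} {ρ : ℕ → ℕ} {S S' T : Sweep} (h : RRel B ρ S S') {i : ℕ}
    (hT : S.step (.cap i) = some T) : ∃ T', S'.step (.cap i) = some T' ∧ RRel B ρ T T' ∧
      T.cor.length = S.cor.length := by
  unfold Sweep.step at hT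
  simp only at hT
  split at hT
  case h_2 => simp at hT
  case h_1 a m b r hd =>
    split at hT
    · simp at hT
    · rename_i hc
      simp only [Option.some.injEq] at hT
      subst hT
      have hd' : S'.gaps.drop i = ρ a :: ρ m :: ρ b :: r.map ρ := by
        rw [h.gaps]; have := drop_map_cons (ρ := ρ) hd; simpa using this
      have ha := h.bg a (mem_of_drop hd (by simp))
      have hc' : ¬ (ρ a = ρ b ∨ max (ρ a) (ρ b) ≤ 1) := by
        rintro (h1 | h1)
        · exact hc (Or.inl (h.mono.injective h1))
        · refine hc (Or.inr ?_)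
          rw [← h.mono.monotone.map_max, ← h.o] at h1
          exact h.mono.le_iff_le.1 h1
      refine ⟨⟨(S'.gaps.take i ++ ρ a :: r.map ρ).map (ident (ρ a) (ρ b)),
        S'.faces.erase (max (ρ a) (ρ b)), S'.nxt,
        S'.cor.map (fun x k => ident (ρ a) (ρ b) (x k))⟩,
        by simp only [Sweep.step, hd', if_neg hc'],
        ⟨?_, ?_, ?_, h.nxt, ?_, ?_, ?_, h.mono, h.z, h.o, h.two⟩, by simp⟩
      · simp only [h.gaps, ← List.map_take, List.map_append, List.map_cons, List.map_map]
        congr 1
        · refine List.map_congr_left fun x _ => ?_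
          exact ident_map h.mono a b x
        · rw [ident_map h.mono a b a]
          congr 1
          refine List.map_congr_left fun x _ => ?_
          exact ident_map h.mono a b x
      · simp only [h.faces]
        rw [← h.mono.monotone.map_max]
        exact (List.map_erase h.mono.injective _).symm
      · simp only [h.cor]
        exact rlist_map B ρ ρ (ident (ρ a) (ρ b)) (ident a b) S.cor 0
          fun y _ k => ident_map h.mono a b (y k)
      · intro x hx
        simp only [List.mem_map] at hx
        obtain ⟨y, hy, rfl⟩ := hx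
        refine ident_lt ha ?_
        simp only [List.mem_append, List.mem_cons] at hy
        rcases hy with hy | rfl | hy
        · exact h.bg y (List.mem_of_mem_take hy)
        · exact ha
        · exact h.bg y (mem_of_drop hd (by simp [hy]))
      · intro x hx
        exact h.bf x (List.mem_of_mem_erase hx)
      · intro y hy k
        simp only [List.mem_map] at hy
        obtain ⟨z, hz, rfl⟩ := hy
        exact ident_lt ha (h.bc z hz k)

private theorem RRel.tw {B : ℕ → Bool} {ρ : ℕ → ℕ} {S S' T : Sweep} (h : RRel B ρ S S') {i : ℕ}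
    (hB : B S.cor.length = false) (hT : S.step (.tw i) = some T) :
    ∃ T', S'.step (.tw i) = some T' ∧ RRel B ρ T T' ∧ T.cor.length = S.cor.length + 1 := by
  unfold Sweep.step at hT
  simp only at hT
  split at hT
  case h_2 => simp at hT
  case h_1 a b d r hd =>
    simp only [Option.some.injEq] at hT
    subst hT
    have hn : ρ S.nxt = S'.nxt := by rw [h.nxt _ le_rfl]; simp
    have hd' : S'.gaps.drop i = ρ a :: ρ b :: ρ d :: r.map ρ := by
      rw [h.gaps]; have := drop_map_cons (ρ := ρ) hd; simpa using this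
    have ha := h.bg a (mem_of_drop hd (by simp))
    have hb := h.bg b (mem_of_drop hd (by simp))
    have hdd := h.bg d (mem_of_drop hd (by simp))
    refine ⟨⟨S'.gaps.take i ++ ρ a :: S'.nxt :: ρ d :: r.map ρ, S'.nxt :: S'.faces, S'.nxt + 1,
      S'.cor ++ [![S'.nxt, ρ d, ρ b, ρ a]]⟩, by simp only [Sweep.step, hd'],
      ⟨?_, ?_, ?_, ?_, ?_, ?_, ?_, h.mono, h.z, h.o, ?_⟩, by simp⟩
    · simp [h.gaps, List.map_take, hn]
    · simp [h.faces, hn]
    · show S'.cor ++ [![S'.nxt, ρ d, ρ b, ρ a]] = _
      rw [rlist_append, ← h.cor, zero_add, hB]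
      congr 2
      funext k
      fin_cases k <;> simp [rcor, hn]
    · intro x hx
      have hx' : S.nxt + 1 ≤ x := hx
      have := h.nxt x (by omega)
      show ρ x = S'.nxt + 1 + (x - (S.nxt + 1))
      omega
    · intro x hx
      simp only [List.mem_append, List.mem_cons] at hx ⊢
      rcases hx with hx | rfl | rfl | rfl | hx
      · have := h.bg x (List.mem_of_mem_take hx); show x < S.nxt + 1; omega
      · show _ < S.nxt + 1; omega
      · show _ < S.nxt + 1; omega
      · show _ < S.nxt + 1; omega
      · have := h.bg x (mem_of_drop hd (by simp [hx])); show x < S.nxt + 1; omega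
    · intro x hx
      simp only [List.mem_cons] at hx
      rcases hx with rfl | hx
      · show _ < S.nxt + 1; omega
      · have := h.bf x hx; show x < S.nxt + 1; omega
    · intro y hy k
      simp only [List.mem_append, List.mem_singleton] at hy
      rcases hy with hy | rfl
      · have := h.bc y hy k; show _ < S.nxt + 1; omega
      · show _ < S.nxt + 1
        fin_cases k <;> simp <;> omega
    · have := h.two; show 2 ≤ S.nxt + 1; omega

/-- The new renaming after a rotated twist region. -/
private def bump (n : ℕ) (ρ : ℕ → ℕ) (x : ℕ) : ℕ := if x ≤ n then ρ x else ρ x + 1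

private theorem RRel.twr {B : ℕ → Bool} {ρ : ℕ → ℕ} {S S' T : Sweep} (h : RRel B ρ S S') {i : ℕ}
    (hB : B S.cor.length = true) (hT : S.step (.tw i) = some T) :
    ∃ T', ((S'.step (.cup (i + 2))).bind (fun U => (U.step (.tw (i + 1))).bind
      (fun U => U.step (.cap i)))) = some T' ∧ RRel B (bump S.nxt ρ) T T' ∧
      T.cor.length = S.cor.length + 1 := by
  unfold Sweep.step at hT
  simp only at hT
  split at hT
  case h_2 => simp at hT
  case h_1 a b d r hd =>
    simp only [Option.some.injEq] at hT
    subst hT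
    have hn : ρ S.nxt = S'.nxt := by rw [h.nxt _ le_rfl]; simp
    have hd' : S'.gaps.drop i = ρ a :: ρ b :: ρ d :: r.map ρ := by
      rw [h.gaps]; have := drop_map_cons (ρ := ρ) hd; simpa using this
    have ha := h.bg a (mem_of_drop hd (by simp))
    have hb := h.bg b (mem_of_drop hd (by simp))
    have hdd := h.bg d (mem_of_drop hd (by simp))
    have hlt : ∀ x, x < S.nxt → ρ x < S'.nxt := fun x hx => by rw [← hn]; exact h.mono hx
    have hlen : i ≤ S'.gaps.length := by
      by_contra hc
      rw [List.drop_eq_nil_of_le (by omega)] at hd'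
      simp at hd'
    have hg : S'.gaps = S'.gaps.take i ++ ρ a :: ρ b :: ρ d :: r.map ρ := by
      rw [← hd', List.take_append_drop]
    have htl : (S'.gaps.take i).length = i := by rw [List.length_take]; omega
    generalize hP : S'.gaps.take i = P at hg htl
    have s1 : S'.step (.cup (i + 2)) = some ⟨P ++ ρ a :: ρ b :: ρ d :: S'.nxt :: ρ d :: r.map ρ,
        S'.nxt :: S'.faces, S'.nxt + 1, S'.cor⟩ := by
      have h1 : S'.gaps.drop (i + 2) = ρ d :: r.map ρ := by
        rw [hg, ← htl, List.drop_append]; simp
      have h2 : S'.gaps.take (i + 2) = P ++ [ρ a, ρ b] := by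
        rw [hg, ← htl, List.take_append]; simp
      simp only [Sweep.step, h1, h2]
      simp
    have s2 : Sweep.step ⟨P ++ ρ a :: ρ b :: ρ d :: S'.nxt :: ρ d :: r.map ρ,
        S'.nxt :: S'.faces, S'.nxt + 1, S'.cor⟩ (.tw (i + 1)) =
        some ⟨P ++ ρ a :: ρ b :: (S'.nxt + 1) :: S'.nxt :: ρ d :: r.map ρ,
          (S'.nxt + 1) :: S'.nxt :: S'.faces, S'.nxt + 1 + 1,
          S'.cor ++ [![S'.nxt + 1, S'.nxt, ρ d, ρ b]]⟩ := by
      have h1 : (P ++ ρ a :: ρ b :: ρ d :: S'.nxt :: ρ d :: r.map ρ).drop (i + 1) =
          ρ b :: ρ d :: S'.nxt :: ρ d :: r.map ρ := by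
        rw [← htl, List.drop_append]; simp
      have h2 : (P ++ ρ a :: ρ b :: ρ d :: S'.nxt :: ρ d :: r.map ρ).take (i + 1) = P ++ [ρ a] := by
        rw [← htl, List.take_append]; simp
      simp only [Sweep.step, h1, h2]
      simp
    have hPm : ∀ x ∈ P, x < S'.nxt := by
      intro x hx
      rw [← hP, h.gaps, ← List.map_take, List.mem_map] at hx
      obtain ⟨y, hy, rfl⟩ := hx
      exact hlt y (h.bg y (List.mem_of_mem_take hy))
    have hid : ∀ x, x < S'.nxt + 1 → ident (ρ a) (S'.nxt + 1) x = x := by
      intro x hx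
      have := hlt a ha
      unfold ident
      rw [if_neg]
      rw [max_eq_right (by omega)]
      omega
    have hidn : ident (ρ a) (S'.nxt + 1) (S'.nxt + 1) = ρ a := by
      have := hlt a ha
      unfold ident
      rw [if_pos (by rw [max_eq_right (by omega)]), min_eq_left (by omega)]
    have s3 : Sweep.step ⟨P ++ ρ a :: ρ b :: (S'.nxt + 1) :: S'.nxt :: ρ d :: r.map ρ,
          (S'.nxt + 1) :: S'.nxt :: S'.faces, S'.nxt + 1 + 1,
          S'.cor ++ [![S'.nxt + 1, S'.nxt, ρ d, ρ b]]⟩ (.cap i) =
        some ⟨P ++ ρ a :: S'.nxt :: ρ d :: r.map ρ, S'.nxt :: S'.faces, S'.nxt + 1 + 1,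
          S'.cor ++ [![ρ a, S'.nxt, ρ d, ρ b]]⟩ := by
      have h1 : (P ++ ρ a :: ρ b :: (S'.nxt + 1) :: S'.nxt :: ρ d :: r.map ρ).drop i =
          ρ a :: ρ b :: (S'.nxt + 1) :: S'.nxt :: ρ d :: r.map ρ := by
        rw [← htl, List.drop_append]; simp
      have h2 : (P ++ ρ a :: ρ b :: (S'.nxt + 1) :: S'.nxt :: ρ d :: r.map ρ).take i = P := by
        rw [← htl, List.take_append]; simp
      have hc : ¬ (ρ a = S'.nxt + 1 ∨ max (ρ a) (S'.nxt + 1) ≤ 1) := by
        have := hlt a ha
        have h3 := h.mono (show 1 < S.nxt by have := h.two; omega)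
        rw [hn, h.o] at h3
        rw [max_eq_right (by omega)]
        omega
      have hm : max (ρ a) (S'.nxt + 1) = S'.nxt + 1 := by
        have := hlt a ha
        exact max_eq_right (by omega)
      simp only [Sweep.step, h1, h2, if_neg hc]
      congr 1
      refine Sweep.mk.injEq .. |>.mpr ⟨?_, ?_, rfl, ?_⟩
      · rw [List.map_append, List.map_cons, List.map_cons, List.map_cons]
        congr 1
        · conv_rhs => rw [← List.map_id P]
          refine List.map_congr_left fun x hx => ?_
          have := hPm x hx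
          exact hid x (by omega)
        · rw [hid (ρ a) (by have := hlt a ha; omega), hid S'.nxt (by omega),
            hid (ρ d) (by have := hlt d hdd; omega)]
          congr 3
          conv_rhs => rw [← List.map_id (r.map ρ)]
          refine List.map_congr_left fun x hx => ?_
          rw [List.mem_map] at hx
          obtain ⟨y, hy, rfl⟩ := hx
          exact hid _ (by have := hlt y (h.bg y (mem_of_drop hd (by simp [hy]))); omega)
      · rw [hm, List.erase_cons_head]
      · rw [List.map_append]
        congr 1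
        · conv_rhs => rw [← List.map_id S'.cor]
          rw [h.cor]
          have : ∀ (l : List (Fin 4 → ℕ)) (v : ℕ), (∀ y ∈ l, ∀ k, y k < S.nxt) →
              (rlist B ρ v l).map (fun x k => ident (ρ a) (S'.nxt + 1) (x k)) =
                (rlist B ρ v l).map id := by
            intro l
            induction l with
            | nil => intro v _; rfl
            | cons y l ih =>
              intro v hy
              simp only [rlist, List.map_cons]
              rw [ih (v + 1) fun z hz => hy z (List.mem_cons_of_mem _ hz)]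
              congr 1
              funext k
              exact hid _ (by have := hlt _ (hy y List.mem_cons_self (if B v then k - 1 else k)); show ρ _ < _; omega)
          exact this S.cor 0 h.bc
        · simp only [List.map_cons, List.map_nil]
          congr 1
          funext k
          fin_cases k
          · simpa using hidn
          · simpa using hid S'.nxt (by omega)
          · simpa using hid (ρ d) (by have := hlt d hdd; omega)
          · simpa using hid (ρ b) (by have := hlt b hb; omega)
    refine ⟨_, by rw [s1, Option.bind_some, s2, Option.bind_some]; exact s3, ?_, by simp⟩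
    have hbu : ∀ x, x < S.nxt + 1 → bump S.nxt ρ x = ρ x := fun x hx => if_pos (by omega)
    refine ⟨?_, ?_, ?_, ?_, ?_, ?_, ?_, ?_, ?_, ?_, ?_⟩
    · show P ++ ρ a :: S'.nxt :: ρ d :: r.map ρ =
        (S.gaps.take i ++ a :: S.nxt :: d :: r).map (bump S.nxt ρ)
      rw [List.map_append, List.map_cons, List.map_cons, List.map_cons, hbu a (by omega),
        hbu S.nxt (by omega), hbu d (by omega), hn]
      congr 1
      · rw [← hP, h.gaps, ← List.map_take]
        refine List.map_congr_left fun x hx => ?_
        exact (hbu x (by have := h.bg x (List.mem_of_mem_take hx); omega)).symm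
      · congr 3
        refine List.map_congr_left fun x hx => ?_
        exact (hbu x (by have := h.bg x (mem_of_drop hd (by simp [hx])); omega)).symm
    · show S'.nxt :: S'.faces = (S.nxt :: S.faces).map (bump S.nxt ρ)
      rw [List.map_cons, hbu S.nxt (by omega), hn, h.faces]
      congr 1
      refine List.map_congr_left fun x hx => ?_
      exact (hbu x (by have := h.bf x hx; omega)).symm
    · show S'.cor ++ [![ρ a, S'.nxt, ρ d, ρ b]] =
        rlist B (bump S.nxt ρ) 0 (S.cor ++ [![S.nxt, d, b, a]])
      rw [rlist_append, zero_add, hB, h.cor]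
      congr 1
      · exact rlist_congr B _ _ S.cor 0 fun y hy k => (hbu _ (by have := h.bc y hy k; omega)).symm
      · congr 1
        funext k
        fin_cases k
        · simp [rcor, hbu a (by omega)]
        · simp [rcor, hbu S.nxt (by omega), hn]
        · simp [rcor, hbu d (by omega)]
        · simp [rcor, hbu b (by omega)]
    · intro x hx
      have hx' : S.nxt + 1 ≤ x := hx
      have := h.nxt x (by omega)
      show bump S.nxt ρ x = S'.nxt + 1 + 1 + (x - (S.nxt + 1))
      unfold bump
      rw [if_neg (by omega)]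
      omega
    · intro x hx
      simp only [List.mem_append, List.mem_cons] at hx ⊢
      rcases hx with hx | rfl | rfl | rfl | hx
      · have := h.bg x (List.mem_of_mem_take hx); show x < S.nxt + 1; omega
      · show _ < S.nxt + 1; omega
      · show _ < S.nxt + 1; omega
      · show _ < S.nxt + 1; omega
      · have := h.bg x (mem_of_drop hd (by simp [hx])); show x < S.nxt + 1; omega
    · intro x hx
      simp only [List.mem_cons] at hx
      rcases hx with rfl | hx
      · show _ < S.nxt + 1; omega
      · have := h.bf x hx; show x < S.nxt + 1; omega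
    · intro y hy k
      simp only [List.mem_append, List.mem_singleton] at hy
      rcases hy with hy | rfl
      · have := h.bc y hy k; show _ < S.nxt + 1; omega
      · show _ < S.nxt + 1
        fin_cases k <;> simp <;> omega
    · intro x y hxy
      have := h.mono hxy
      unfold bump
      split_ifs <;> omega
    · have := h.two
      rw [hbu 0 (by omega)]; exact h.z
    · have := h.two
      rw [hbu 1 (by omega)]; exact h.o
    · have := h.two; show 2 ≤ S.nxt + 1; omega

private theorem sweep_rot (B : ℕ → Bool) : ∀ (w : List TPiece) (S S' T : Sweep) (ρ : ℕ → ℕ),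
    RRel B ρ S S' → sweep w S = some T →
      ∃ (ρ' : ℕ → ℕ) (T' : Sweep), RRel B ρ' T T' ∧ sweep (rot B S.cor.length w) S' = some T' := by
  intro w
  induction w with
  | nil =>
    intro S S' T ρ h hT
    simp only [sweep, Option.some.injEq] at hT
    subst hT
    exact ⟨ρ, S', h, rfl⟩
  | cons x w ih =>
    intro S S' T ρ h hT
    simp only [sweep, Option.bind_eq_some_iff] at hT
    obtain ⟨S1, hS1, hT⟩ := hT
    cases x with
    | cup i =>
      obtain ⟨S1', h1, h2, h3⟩ := h.cup hS1
      obtain ⟨ρ', T', h4, h5⟩ := ih S1 S1' T ρ h2 hT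
      refine ⟨ρ', T', h4, ?_⟩
      simp only [rot, sweep, h1, Option.bind_some]
      rw [← h3]; exact h5
    | cap i =>
      obtain ⟨S1', h1, h2, h3⟩ := h.cap hS1
      obtain ⟨ρ', T', h4, h5⟩ := ih S1 S1' T ρ h2 hT
      refine ⟨ρ', T', h4, ?_⟩
      simp only [rot, sweep, h1, Option.bind_some]
      rw [← h3]; exact h5
    | tw i =>
      cases hB : B S.cor.length with
      | false =>
        obtain ⟨S1', h1, h2, h3⟩ := h.tw hB hS1
        obtain ⟨ρ', T', h4, h5⟩ := ih S1 S1' T ρ h2 hT
        refine ⟨ρ', T', h4, ?_⟩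
        simp only [rot, hB, Bool.false_eq_true, if_false, List.cons_append, List.nil_append, sweep,
          h1, Option.bind_some]
        rw [← h3]; exact h5
      | true =>
        obtain ⟨S1', h1, h2, h3⟩ := h.twr hB hS1
        obtain ⟨ρ', T', h4, h5⟩ := ih S1 S1' T _ h2 hT
        refine ⟨ρ', T', h4, ?_⟩
        simp only [rot, hB, if_true, List.cons_append, List.nil_append, sweep]
        rw [← h3, ← h5]
        simp only [Option.bind_eq_some_iff] at h1
        obtain ⟨U1, hU1, U2, hU2, hU3⟩ := h1
        rw [hU1, Option.bind_some, hU2, Option.bind_some, hU3, Option.bind_some]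

theorem rot_template {w : List TPiece} (hT : IsTemplate w c F cor) (B : ℕ → Bool) :
    ∃ ρ : ℕ → ℕ, StrictMono ρ ∧ ρ 0 = 0 ∧ ρ 1 = 1 ∧
      IsTemplate (rot B 0 w) c (F.image ρ) (rotcor ρ (fun v => B v) cor) := by
  obtain ⟨S, hS, hg, hc, hF⟩ := hT
  have h0 : RRel B id Sweep.init Sweep.init := by
    refine ⟨by simp, by simp, rfl, ?_, ?_, ?_, ?_, strictMono_id, rfl, rfl, le_rfl⟩
    · intro x hx
      have hx' : 2 ≤ x := hx
      show x = 2 + (x - 2)
      omega
    · intro x hx
      simp only [Sweep.init, List.mem_cons, List.not_mem_nil, or_false] at hx ⊢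
      omega
    · intro x hx
      simp only [Sweep.init, List.mem_cons, List.not_mem_nil, or_false] at hx ⊢
      omega
    · intro y hy
      simp [Sweep.init] at hy
  obtain ⟨ρ, T', h, hT'⟩ := sweep_rot B w Sweep.init Sweep.init S id h0 hS
  refine ⟨ρ, h.mono, h.z, h.o, T', hT', ?_, ?_, ?_⟩
  · rw [h.gaps, hg]; simp [h.z, h.o]
  · rw [h.cor, hc, rlist_ofFn]
    congr 1
    funext v
    rw [zero_add]
    rfl
  · rw [h.faces, hF]
    ext x
    simp only [Finset.mem_image, Finset.mem_erase, List.mem_toFinset, List.mem_map, ne_eq]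
    constructor
    · rintro ⟨y, ⟨hy1, hy0, hy⟩, rfl⟩
      refine ⟨fun hh => hy1 (h.mono.injective (hh.trans h.o.symm)),
        fun hh => hy0 (h.mono.injective (hh.trans h.z.symm)), y, hy, rfl⟩
    · rintro ⟨hx1, hx0, y, hy, rfl⟩
      refine ⟨y, ⟨?_, ?_, hy⟩, rfl⟩
      · rintro rfl; exact hx1 h.o
      · rintro rfl; exact hx0 h.z

end Pool.Agent.H63.CLK
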