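import Pool.Agent.H63.CLK.H_Def

set_option autoImplicit false

/-!
# CLK part H, H_Seg: the slope of a sum of Lobachevsky functions at the boundary

Let `g t = ∑ i, w i * lob (π (a i + t b i))` with `a i ∈ [0, 1]`. If `0 < a i < 1` then the term is
differentiable at `t = 0`, so it differs from its value at `0` by at most `C t`. If `a i = 0` or
`a i = 1`, it is `w i * lob (π b i t)` (periodicity, `lob 0 = lob π = 0`), and for small `t > 0`
`|lob (π b t) + π b t log t| ≤ C t` (`lob` is odd; `lob u = u (1 - log (2 u)) + O(u ^ 3)` for small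
`u > 0`, or: `lob u = -∫ log (2 sin)` and `sin s / s` is between `1/2` and `1`). So
`g t - g 0 ≥ π S t (- log t) - C t` with `S = ∑ w i b i` over the `i` with `a i ∈ {0, 1}`, which is
positive for small `t > 0` if `S > 0`.
-/

namespace Pool.Agent.H63.CLK

open Pool.Agent.H63.VC hiding ext
open scoped BigOperators

open Filter Topology in
private theorem H_Seg_log : Tendsto (fun t : ℝ => Real.log t) (𝓝[>] 0) atBot :=
  Real.tendsto_log_nhdsGT_zero

open Filter Topology in
/-- the ratio of logarithms -/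
private theorem H_Seg_ratio (L : ℝ → ℝ) (l : ℝ) (hL : Tendsto L (𝓝[>] 0) (𝓝 l)) :
    Tendsto (fun t : ℝ => (Real.log t + L t) / (Real.log t + 1)) (𝓝[>] 0) (𝓝 1) := by
  have h1 : Tendsto (fun t : ℝ => Real.log t + 1) (𝓝[>] 0) atBot :=
    H_Seg_log.atBot_add tendsto_const_nhds
  have h2 : Tendsto (fun t : ℝ => (L t - 1) / (Real.log t + 1)) (𝓝[>] 0) (𝓝 0) :=
    (hL.sub_const 1).div_atBot h1
  have h3 : Tendsto (fun t : ℝ => 1 + (L t - 1) / (Real.log t + 1)) (𝓝[>] 0) (𝓝 (1 + 0)) :=
    h2.const_add 1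
  rw [add_zero] at h3
  refine h3.congr' ?_
  filter_upwards [h1.eventually_lt_atBot 0] with t ht
  have ht' : Real.log t + 1 ≠ 0 := ht.ne
  rw [eq_div_iff ht', add_mul, div_mul_cancel₀ _ ht']
  ring

open Filter Topology in
/-- the slope of the logarithm part -/
private theorem H_Seg_lob (b : ℝ) :
    Tendsto (fun t : ℝ => lob (Real.pi * (t * b)) / (-(t * Real.log t))) (𝓝[>] 0)
      (𝓝 (Real.pi * b)) := by
  rcases eq_or_ne b 0 with rfl | hb
  · have : (fun t : ℝ => lob (Real.pi * (t * 0)) / (-(t * Real.log t))) = fun _ => (0 : ℝ) := by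
      funext t
      rw [mul_zero, mul_zero, volA_lob_zero, zero_div]
    rw [this, mul_zero]
    exact tendsto_const_nhds
  · have hpb : Real.pi * b ≠ 0 := mul_ne_zero Real.pi_ne_zero hb
    -- `sin (π b t) / t → π b`
    have hsin : Tendsto (fun t : ℝ => Real.sin (Real.pi * (t * b)) / t) (𝓝[>] 0)
        (𝓝 (Real.pi * b)) := by
      have h1 : HasDerivAt (fun t : ℝ => Real.sin (Real.pi * (t * b)))
          (Real.cos (Real.pi * (0 * b)) * (Real.pi * (1 * b))) 0 :=
        (((hasDerivAt_id (0 : ℝ)).mul_const b).const_mul Real.pi).sin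
      have h2 := h1.tendsto_slope_zero_right
      simp only [zero_add, zero_mul, mul_zero, Real.sin_zero, sub_zero, Real.cos_zero, one_mul,
        smul_eq_mul] at h2
      refine h2.congr fun t => ?_
      rw [div_eq_inv_mul]
    have hsin0 : ∀ᶠ t in 𝓝[>] (0 : ℝ), Real.sin (Real.pi * (t * b)) ≠ 0 := by
      have h1 : ∀ᶠ t in 𝓝[>] (0 : ℝ), Real.sin (Real.pi * (t * b)) / t ≠ 0 :=
        hsin.eventually_ne hpb
      filter_upwards [h1] with t ht h0
      rw [h0, zero_div] at ht
      exact ht rfl
    have hpos : ∀ᶠ t in 𝓝[>] (0 : ℝ), 0 < t := eventually_mem_nhdsWithin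
    have hL : Tendsto (fun t : ℝ => Real.log |2 * (Real.sin (Real.pi * (t * b)) / t)|) (𝓝[>] 0)
        (𝓝 (Real.log |2 * (Real.pi * b)|)) := by
      have h1 : Tendsto (fun t : ℝ => |2 * (Real.sin (Real.pi * (t * b)) / t)|) (𝓝[>] 0)
          (𝓝 |2 * (Real.pi * b)|) := (hsin.const_mul 2).abs
      exact h1.log (by simpa using hpb)
    have hr := (H_Seg_ratio _ _ hL).const_mul (Real.pi * b)
    rw [mul_one] at hr
    refine HasDerivAt.lhopital_zero_nhdsGT
      (f' := fun t => -Real.log |2 * Real.sin (Real.pi * (t * b))| * (Real.pi * (1 * b)))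
      (g' := fun t => -(1 * Real.log t + t * t⁻¹)) ?_ ?_ ?_ ?_ ?_ ?_
    · filter_upwards [hsin0] with t ht
      exact HasDerivAt.comp (h₂ := lob) (h := fun t : ℝ => Real.pi * (t * b)) t
        (volA_lob_hasDerivAt _ ht) (((hasDerivAt_id t).mul_const b).const_mul Real.pi)
    · filter_upwards [hpos] with t ht
      exact ((hasDerivAt_id t).mul (Real.hasDerivAt_log ht.ne')).neg
    · have h1 : Tendsto (fun t : ℝ => Real.log t + 1) (𝓝[>] 0) atBot :=
        H_Seg_log.atBot_add tendsto_const_nhds
      filter_upwards [hpos, h1.eventually_lt_atBot 0] with t ht h0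
      rw [mul_inv_cancel₀ ht.ne', one_mul]
      linarith
    · have h1 : Tendsto (fun t : ℝ => lob (Real.pi * (t * b))) (𝓝 0)
          (𝓝 (lob (Real.pi * (0 * b)))) :=
        (volA_lob_continuous.comp (by fun_prop : Continuous fun t : ℝ => Real.pi * (t * b))).tendsto 0
      rw [zero_mul, mul_zero, volA_lob_zero] at h1
      exact h1.mono_left nhdsWithin_le_nhds
    · have h1 : Tendsto (fun t : ℝ => t * Real.log t) (𝓝 0) (𝓝 (0 * Real.log 0)) :=
        Real.continuous_mul_log.tendsto 0
      rw [zero_mul] at h1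
      have h2 := h1.neg
      rw [neg_zero] at h2
      exact h2.mono_left nhdsWithin_le_nhds
    · refine hr.congr' ?_
      filter_upwards [hpos, hsin0] with t ht h0
      have e1 : Real.log |2 * Real.sin (Real.pi * (t * b))| =
          Real.log t + Real.log |2 * (Real.sin (Real.pi * (t * b)) / t)| := by
        rw [← Real.log_mul ht.ne' (by
          rw [abs_ne_zero]
          exact mul_ne_zero two_ne_zero (div_ne_zero h0 ht.ne'))]
        congr 1
        rw [← abs_of_pos ht, ← abs_mul, abs_of_pos ht]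
        congr 1
        field_simp
      rw [e1, mul_inv_cancel₀ ht.ne', one_mul, one_mul]
      rw [neg_mul, neg_div_neg_eq, mul_comm (Real.pi * b), div_mul_eq_mul_div]

open Classical in
theorem seg_up {ι : Type*} [Fintype ι] (w a b : ι → ℝ) (ha : ∀ i, 0 ≤ a i ∧ a i ≤ 1)
    (hS : 0 < ∑ i, if a i = 0 ∨ a i = 1 then w i * b i else 0) (ε : ℝ) (hε : 0 < ε) :
    ∃ t : ℝ, 0 < t ∧ t < ε ∧
      ∑ i, w i * lob (Real.pi * a i) < ∑ i, w i * lob (Real.pi * (a i + t * b i)) := by
  have key : ∀ i, Filter.Tendsto (fun t : ℝ => (w i * lob (Real.pi * (a i + t * b i)) -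
      w i * lob (Real.pi * a i)) / (-(t * Real.log t))) (nhdsWithin 0 (Set.Ioi 0))
      (nhds (Real.pi * (if a i = 0 ∨ a i = 1 then w i * b i else 0))) := by
    intro i
    by_cases h : a i = 0 ∨ a i = 1
    · rw [if_pos h]
      have h1 : lob (Real.pi * a i) = 0 := by
        rcases h with h | h
        · rw [h, mul_zero, volA_lob_zero]
        · rw [h, mul_one, volA_lob_pi]
      have h2 : ∀ t : ℝ, lob (Real.pi * (a i + t * b i)) = lob (Real.pi * (t * b i)) := by
        intro t
        rcases h with h | h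
        · rw [h, zero_add]
        · rw [h, mul_add, mul_one, add_comm, volA_lob_add_pi]
      have h3 := (H_Seg_lob (b i)).const_mul (w i)
      have e1 : w i * (Real.pi * b i) = Real.pi * (w i * b i) := by ring
      rw [e1] at h3
      refine h3.congr fun t => ?_
      rw [h1, h2, mul_zero, sub_zero, mul_div_assoc]
    · rw [if_neg h, mul_zero]
      push Not at h
      have hs : Real.sin (Real.pi * a i) ≠ 0 := by
        have h0 : 0 < a i := lt_of_le_of_ne (ha i).1 (Ne.symm h.1)
        have h1 : a i < 1 := lt_of_le_of_ne (ha i).2 h.2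
        refine (Real.sin_pos_of_pos_of_lt_pi (mul_pos Real.pi_pos h0) ?_).ne'
        calc Real.pi * a i < Real.pi * 1 := mul_lt_mul_of_pos_left h1 Real.pi_pos
          _ = Real.pi := mul_one _
      have hd : HasDerivAt (fun t : ℝ => w i * lob (Real.pi * (a i + t * b i)))
          (w i * (-Real.log |2 * Real.sin (Real.pi * (a i + 0 * b i))| *
            (Real.pi * (1 * b i)))) 0 := by
        have hs' : Real.sin (Real.pi * (a i + 0 * b i)) ≠ 0 := by
          rw [zero_mul, add_zero]; exact hs
        exact (HasDerivAt.comp (h₂ := lob) (h := fun t : ℝ => Real.pi * (a i + t * b i)) (0 : ℝ)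
          (volA_lob_hasDerivAt _ hs')
          ((((hasDerivAt_id (0 : ℝ)).mul_const (b i)).const_add (a i)).const_mul
            Real.pi)).const_mul (w i)
      have h2 := hd.tendsto_slope_zero_right
      simp only [zero_add, zero_mul, add_zero, smul_eq_mul] at h2
      have h3 : Filter.Tendsto (fun t : ℝ => -Real.log t) (nhdsWithin 0 (Set.Ioi 0))
          Filter.atTop := Filter.tendsto_neg_atBot_atTop.comp H_Seg_log
      have h4 := h2.div_atTop h3
      refine h4.congr fun t => ?_
      rw [← mul_neg, ← div_div, inv_mul_eq_div]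
  have hsum := tendsto_finsetSum Finset.univ fun i _ => key i
  rw [← Finset.mul_sum] at hsum
  have hpi : 0 < Real.pi * ∑ i, (if a i = 0 ∨ a i = 1 then w i * b i else 0) :=
    mul_pos Real.pi_pos hS
  have hev := hsum.eventually_const_lt hpi
  have hpos : ∀ᶠ t in nhdsWithin (0 : ℝ) (Set.Ioi 0), 0 < t := eventually_mem_nhdsWithin
  have hlt : ∀ᶠ t in nhdsWithin (0 : ℝ) (Set.Ioi 0), t < min ε 1 :=
    (eventually_lt_nhds (lt_min hε one_pos)).filter_mono nhdsWithin_le_nhds
  obtain ⟨t, ht0, ht1, ht2⟩ := (hpos.and (hlt.and hev)).exists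
  refine ⟨t, ht0, lt_of_lt_of_le ht1 (min_le_left _ _), ?_⟩
  have hlog : 0 < -(t * Real.log t) := by
    have := Real.log_neg ht0 (lt_of_lt_of_le ht1 (min_le_right _ _))
    have := mul_neg_of_pos_of_neg ht0 this
    linarith
  rw [← Finset.sum_div, Finset.sum_sub_distrib] at ht2
  have h5 := (div_pos_iff_of_pos_right hlog).mp ht2
  linarith

end Pool.Agent.H63.CLK
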