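import Pool.Agent.H63.CLK.K_Id

/-!
# All directions, algebra: the local relation for a matrix with a corner rule

The analogue of `A_Base_ver` (A_Ver.lean), `A_Psi_PWver`, `Psi_ver` (A_Psi.lean) for `actX N X` instead of `actE`, with `CRule`
instead of `A_Loc_em`. The proofs are the same (copy them), with `W B sL sR` instead of `cK`.
-/

set_option autoImplicit false

namespace Pool.Agent.H63.CLK

open Pool.Agent.H63.VC7 Pool.Agent.H63.VC10

private theorem K_ClkA_mul (N : ℕ) (X : Matrix (I2 N) (I2 N) ℂ) (i : ℕ) (K : ℂ) (ψ : List ℕ → ℂ)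
    (l : List ℕ) : actX N X i (fun l => K * ψ l) l = K * actX N X i ψ l := by
  unfold actX
  split
  · simp only [Finset.mul_sum]
    refine Finset.sum_congr rfl fun a _ => Finset.sum_congr rfl fun b _ => ?_
    ring
  · ring

private theorem K_ClkA_cons (N : ℕ) (X : Matrix (I2 N) (I2 N) ℂ) (i a : ℕ) (ψ : List ℕ → ℂ)
    (l : List ℕ) : actX N X (i + 1) ψ (a :: l) = actX N X i (fun l => ψ (a :: l)) l := by
  simp [actX]

private theorem K_ClkA_nil (N : ℕ) (X : Matrix (I2 N) (I2 N) ℂ) (i : ℕ) (ψ : List ℕ → ℂ) :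
    actX N X i ψ [] = 0 := by
  simp [actX]

private theorem K_ClkA_base (N : ℕ) (X : Matrix (I2 N) (I2 N) ℂ) (W : ℕ → ℕ → ℕ → ℂ)
    (hX : CRule N X W) (y b c : ℕ) (hy : y ≤ N) (hb : b ≤ N) (hc : c ≤ N) (Ts l : List ℕ) :
    actX N X 0 (Tht N y (b :: c :: Ts)) l =
      ∑ sL ∈ Finset.range (N + 1), ∑ sR ∈ Finset.range (N + 1),
        if sL ≤ y ∧ sR ≤ c ∧ b + sL + sR ≤ N then
          W b sL sR * Tht N (y - sL) ((b + sL + sR) :: (c - sR) :: Ts) l else 0 := by
  rcases l with _ | ⟨s, _ | ⟨u, as⟩⟩
  · rw [Finset.sum_eq_zero fun sL _ => Finset.sum_eq_zero fun sR _ => by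
      rw [Tht_len N _ _ _ (by simp), mul_zero, ite_self]]
    simp [actX]
  · rw [Finset.sum_eq_zero fun sL _ => Finset.sum_eq_zero fun sR _ => by
      rw [Tht_len N _ _ _ (by simp), mul_zero, ite_self]]
    simp [actX]
  · have hact : actX N X 0 (Tht N y (b :: c :: Ts)) (s :: u :: as) =
        ∑ a : Fin (N + 1), ∑ b' : Fin (N + 1),
          (if h : s < N + 1 ∧ u < N + 1 then
            X (⟨s, h.1⟩, ⟨u, h.2⟩) (a, b') else 0) *
          Tht N y (b :: c :: Ts) ((a : ℕ) :: (b' : ℕ) :: as) := by
      simp [actX]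
    rw [hact]
    by_cases hsu : s ≤ N ∧ u ≤ N
    swap
    · have h1 : ¬ (s < N + 1 ∧ u < N + 1) := by omega
      simp only [dif_neg h1, zero_mul, Finset.sum_const_zero]
      symm
      refine Finset.sum_eq_zero fun sL _ => Finset.sum_eq_zero fun sR _ => ?_
      rw [Tht_big N _ _ _ _ _ _ _ hsu, mul_zero, ite_self]
    obtain ⟨hs, hu⟩ := hsu
    have h1 : s < N + 1 ∧ u < N + 1 := by omega
    simp only [dif_pos h1]
    -- left side
    have e1 : ∑ a : Fin (N + 1), ∑ b' : Fin (N + 1),
        X (⟨s, h1.1⟩, ⟨u, h1.2⟩) (a, b') *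
          Tht N y (b :: c :: Ts) ((a : ℕ) :: (b' : ℕ) :: as) =
        ∑ β ∈ Finset.range (N + 1), (brf (qz N) β * Rt N c Ts β as) *
          (∑ sL ∈ Finset.range (N + 1), ∑ sR ∈ Finset.range (N + 1),
            if b + sL + sR ≤ N then W b sL sR *
              flz N ((y : ℤ) - sL) (b + sL + sR) ((β : ℤ) - sR) s u else 0) := by
      have e2 : ∀ β ∈ Finset.range (N + 1), (brf (qz N) β * Rt N c Ts β as) *
          (∑ sL ∈ Finset.range (N + 1), ∑ sR ∈ Finset.range (N + 1),
            if b + sL + sR ≤ N then W b sL sR *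
              flz N ((y : ℤ) - sL) (b + sL + sR) ((β : ℤ) - sR) s u else 0) =
          ∑ x : I2 N, (brf (qz N) β * Rt N c Ts β as) *
            (X (⟨s, h1.1⟩, ⟨u, h1.2⟩) x * flz N y b β (x.1 : ℕ) (x.2 : ℕ)) := by
        intro β hβ
        have hβ' := Finset.mem_range.1 hβ
        have h2 := hX y b β hy hb (by omega) (⟨s, h1.1⟩, ⟨u, h1.2⟩)
        simp only at h2
        rw [← h2, Finset.mul_sum]
      rw [Finset.sum_congr rfl e2,
        Finset.sum_comm (s := Finset.range (N + 1)) (t := (Finset.univ : Finset (I2 N))),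
        Fintype.sum_prod_type]
      refine Finset.sum_congr rfl fun a _ => Finset.sum_congr rfl fun b' _ => ?_
      rw [Tht_expand N y b c hb Ts a b' as (by omega) (by omega), Finset.mul_sum]
      refine Finset.sum_congr rfl fun β _ => ?_
      simp only
      ring
    rw [e1]
    simp only [Finset.mul_sum]
    rw [Finset.sum_comm]
    refine Finset.sum_congr rfl fun sL hL => ?_
    rw [Finset.sum_comm]
    refine Finset.sum_congr rfl fun sR hR => ?_
    have hL' := Finset.mem_range.1 hL
    have hR' := Finset.mem_range.1 hR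
    by_cases h2 : b + sL + sR ≤ N
    swap
    · rw [if_neg (fun h3 => h2 h3.2.2), Finset.sum_eq_zero]
      intro β _
      rw [if_neg h2, mul_zero]
    have e3 : ∀ β ∈ Finset.range (N + 1), brf (qz N) β * Rt N c Ts β as *
        (if b + sL + sR ≤ N then W b sL sR *
          flz N ((y : ℤ) - sL) (b + sL + sR) ((β : ℤ) - sR) s u else 0) =
        W b sL sR * (flz N ((y : ℤ) - sL) (b + sL + sR) ((β : ℤ) - sR) s u *
          (brf (qz N) β * Rt N c Ts β as)) := fun β _ => by rw [if_pos h2]; ring
    rw [Finset.sum_congr rfl e3, ← Finset.mul_sum]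
    by_cases h3 : sL ≤ y
    swap
    · rw [if_neg (fun h4 => h3 h4.1), Finset.sum_eq_zero, mul_zero]
      intro β _
      rw [flz_neg N (Or.inl (by omega)), zero_mul]
    by_cases h4 : sR ≤ c
    swap
    · rw [if_neg (fun h5 => h4 h5.2.1), Finset.sum_eq_zero, mul_zero]
      intro β _
      by_cases h5 : β < sR
      · rw [flz_neg N (Or.inr (Or.inl (by omega))), zero_mul]
      · rw [Rt]
        by_cases hTs : Ts = []
        · rw [if_pos hTs, if_neg (by omega)]; ring
        · rw [if_neg hTs, if_neg (by omega)]; ring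
    rw [if_pos ⟨h3, h4, h2⟩]
    congr 1
    rw [Tht_expand N (y - sL) (b + sL + sR) (c - sR) h2 Ts s u as hs hu]
    -- shift of the summation
    have e4 : ∑ β ∈ Finset.range (N + 1), flz N ((y : ℤ) - sL) (b + sL + sR) ((β : ℤ) - sR) s u *
        (brf (qz N) β * Rt N c Ts β as) =
        ∑ β ∈ Finset.range (N + 1 - sR), flz N ((y : ℤ) - sL) (b + sL + sR) (β : ℤ) s u *
          (brf (qz N) (β + sR) * Rt N c Ts (β + sR) as) := by
      have e5 : Finset.range (N + 1) = Finset.range (sR + (N + 1 - sR)) := by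
        congr 1; omega
      rw [e5, Finset.sum_range_add, Finset.sum_eq_zero, zero_add]
      · refine Finset.sum_congr rfl fun β _ => ?_
        rw [show ((sR + β : ℕ) : ℤ) - sR = β by push_cast; ring, add_comm sR β]
      · intro β hβ
        have hβ' := Finset.mem_range.1 hβ
        rw [flz_neg N (Or.inr (Or.inl (by omega))), zero_mul]
    rw [e4]
    have e6 : ∀ β : ℕ, flz N ((y - sL : ℕ) : ℤ) ((b + sL + sR : ℕ) : ℤ) (β : ℤ) s u *
        (brf (qz N) β * Rt N (c - sR) Ts β as) =
        flz N ((y : ℤ) - sL) (b + sL + sR) (β : ℤ) s u *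
          (brf (qz N) (β + sR) * Rt N c Ts (β + sR) as) := by
      intro β
      rw [Rt_shift N c sR h4 hc Ts β as, show ((y - sL : ℕ) : ℤ) = (y : ℤ) - sL by omega]
      push_cast
      rfl
    rw [Finset.sum_congr rfl fun β _ => e6 β]
    apply Finset.sum_subset (Finset.range_mono (by omega))
    intro β hβ hβ'
    rw [Finset.mem_range] at hβ hβ'
    have : Rt N c Ts (β + sR) as = 0 := by
      rw [Rt]
      by_cases hTs : Ts = []
      · rw [if_pos hTs, if_neg (by omega)]
      · rw [if_neg hTs, if_neg (by omega)]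
    rw [this]
    ring

private theorem K_ClkA_PW (N : ℕ) (X : Matrix (I2 N) (I2 N) ℂ) (W : ℕ → ℕ → ℕ → ℂ)
    (hX : CRule N X W) (p r : List ℕ) (a b c : ℕ) (ha : a ≤ N) (hb : b ≤ N)
    (hc : c ≤ N) (y : ℕ) (l : List ℕ) :
    actX N X (p.length + 1) (PW N (p ++ a :: b :: c :: r) y) l =
      ∑ sL ∈ Finset.range (N + 1), ∑ sR ∈ Finset.range (N + 1),
        if sL ≤ a ∧ sR ≤ c ∧ b + sL + sR ≤ N then
          W b sL sR * PW N (p ++ (a - sL) :: (b + sL + sR) :: (c - sR) :: r) y l
        else 0 := by
  induction p generalizing y l with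
  | nil =>
    cases l with
    | nil =>
      rw [K_ClkA_nil]
      symm
      refine Finset.sum_eq_zero fun sL _ => Finset.sum_eq_zero fun sR _ => ?_
      rw [PW_len N _ _ _ (by simp), mul_zero, ite_self]
    | cons a1 as =>
      rw [List.length_nil, K_ClkA_cons]
      simp only [List.nil_append]
      have e1 : (fun l => PW N (a :: b :: c :: r) y (a1 :: l)) =
          fun l => (if y ≤ a1 ∧ a1 ≤ N ∧ a1 ≤ y + a ∧ a ≤ N then
            qz N ^ (-(((a1 : ℤ) - y) * y)) * ib N ((a1 : ℤ) - y) else 0) *
              Tht N (y + a - a1) (b :: c :: r) l := by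
        funext l
        rw [PW_cons N a _ (by simp)]
        split_ifs
        · rfl
        · ring
      rw [e1, K_ClkA_mul]
      by_cases h1 : y ≤ a1 ∧ a1 ≤ N ∧ a1 ≤ y + a ∧ a ≤ N
      swap
      · rw [if_neg h1, zero_mul]
        symm
        refine Finset.sum_eq_zero fun sL _ => Finset.sum_eq_zero fun sR _ => ?_
        rw [PW_cons N _ _ (by simp)]
        split_ifs
        · omega
        · ring
        · rfl
      rw [if_pos h1, K_ClkA_base N X W hX (y + a - a1) b c (by omega) hb hc r as, Finset.mul_sum]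
      refine Finset.sum_congr rfl fun sL _ => ?_
      rw [Finset.mul_sum]
      refine Finset.sum_congr rfl fun sR _ => ?_
      rw [PW_cons N _ _ (by simp)]
      by_cases h2 : sL ≤ y + a - a1 ∧ sR ≤ c ∧ b + sL + sR ≤ N
      · rw [if_pos h2, if_pos (by omega), if_pos (by omega),
          show y + a - a1 - sL = y + (a - sL) - a1 by omega]
        ring
      · rw [if_neg h2, mul_zero]
        split_ifs
        · omega
        · ring
        · rfl
  | cons T p ih =>
    cases l with
    | nil =>
      rw [K_ClkA_nil]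
      symm
      refine Finset.sum_eq_zero fun sL _ => Finset.sum_eq_zero fun sR _ => ?_
      rw [PW_len N _ _ _ (by simp), mul_zero, ite_self]
    | cons a1 as =>
      rw [List.length_cons, K_ClkA_cons]
      simp only [List.cons_append]
      have e1 : (fun l => PW N (T :: (p ++ a :: b :: c :: r)) y (a1 :: l)) =
          fun l => A_Psi_K N T y a1 * PW N (p ++ a :: b :: c :: r) (y + T - a1) l := by
        funext l
        rw [A_Psi_PW_cons N T _ (by simp)]
      rw [e1, K_ClkA_mul, ih, Finset.mul_sum]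
      refine Finset.sum_congr rfl fun sL _ => ?_
      rw [Finset.mul_sum]
      refine Finset.sum_congr rfl fun sR _ => ?_
      rw [A_Psi_PW_cons N T _ (by simp)]
      split_ifs
      · ring
      · ring

theorem Psi_verX (N : ℕ) (X : Matrix (I2 N) (I2 N) ℂ) (W : ℕ → ℕ → ℕ → ℂ) (hX : CRule N X W)
    (p r : List ℕ) (a b c : ℕ) (ha : a ≤ N) (hb : b ≤ N) (hc : c ≤ N) :
    actX N X p.length (PsiA N (p ++ a :: b :: c :: r)) =
      fun l => ∑ sL ∈ Finset.range (N + 1), ∑ sR ∈ Finset.range (N + 1),
        if sL ≤ a ∧ sR ≤ c ∧ b + sL + sR ≤ N then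
          W b sL sR * PsiA N (p ++ (a - sL) :: (b + sL + sR) :: (c - sR) :: r) l else 0 := by
  funext l
  cases p with
  | nil =>
    simp only [List.nil_append, List.length_nil]
    by_cases ha' : a = N
    swap
    · have e1 : PsiA N (a :: b :: c :: r) = fun l => 0 * (1 : ℂ) := by
        funext l
        rw [PsiA, if_neg ha']
        ring
      rw [e1, K_ClkA_mul N _ 0 0 (fun _ => 1), zero_mul]
      symm
      refine Finset.sum_eq_zero fun sL _ => Finset.sum_eq_zero fun sR _ => ?_
      rw [show PsiA N ((a - sL) :: (b + sL + sR) :: (c - sR) :: r) l = 0 by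
        rw [PsiA, if_neg (by omega)], mul_zero, ite_self]
    · subst ha'
      have e1 : PsiA a (a :: b :: c :: r) =
          fun l => kap a ^ ((r.length + 1) / 2) * Tht a 0 (b :: c :: r) l := by
        funext l
        rw [PsiA, if_pos rfl, Tht_zero]
        simp only [List.length_cons]
        rfl
      rw [e1, K_ClkA_mul, K_ClkA_base a X W hX 0 b c (by omega) hb hc, Finset.mul_sum]
      refine Finset.sum_congr rfl fun sL _ => ?_
      rw [Finset.mul_sum]
      refine Finset.sum_congr rfl fun sR _ => ?_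
      rw [PsiA]
      by_cases h0 : sL = 0
      · subst h0
        rw [if_pos (Nat.sub_zero a)]
        by_cases h2 : 0 ≤ 0 ∧ sR ≤ c ∧ b + 0 + sR ≤ a
        · rw [if_pos h2, if_pos (by omega), Nat.sub_zero, Tht_zero]
          simp only [List.length_cons]
          rw [show (r.length + 1 + 1 - 1) / 2 = (r.length + 1) / 2 by omega]
          ring
        · rw [if_neg h2, if_neg (by omega), mul_zero]
      · rw [if_neg (fun h4 => h0 (by omega)), mul_zero]
        split_ifs
        · omega
        · ring
        · rfl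
  | cons T0 p =>
    simp only [List.cons_append, List.length_cons]
    by_cases hT : T0 = N
    swap
    · have e1 : PsiA N (T0 :: (p ++ a :: b :: c :: r)) = fun l => 0 * (1 : ℂ) := by
        funext l
        rw [PsiA, if_neg hT]
        ring
      rw [e1, K_ClkA_mul N _ _ 0 (fun _ => 1), zero_mul]
      symm
      refine Finset.sum_eq_zero fun sL _ => Finset.sum_eq_zero fun sR _ => ?_
      rw [PsiA, if_neg hT, mul_zero, ite_self]
    · have e1 : PsiA N (T0 :: (p ++ a :: b :: c :: r)) =
          fun l => kap N ^ ((p.length + r.length + 2) / 2) * PW N (p ++ a :: b :: c :: r) 0 l := by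
        funext l
        rw [PsiA, if_pos hT]
        simp only [List.length_append, List.length_cons]
        rw [show p.length + (r.length + 1 + 1 + 1) - 1 = p.length + r.length + 2 by omega]
      rw [e1, K_ClkA_mul, K_ClkA_PW N X W hX p r a b c ha hb hc, Finset.mul_sum]
      refine Finset.sum_congr rfl fun sL _ => ?_
      rw [Finset.mul_sum]
      refine Finset.sum_congr rfl fun sR _ => ?_
      rw [PsiA, if_pos hT]
      simp only [List.length_append, List.length_cons]
      rw [show p.length + (r.length + 1 + 1 + 1) - 1 = p.length + r.length + 2 by omega]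
      split_ifs
      · ring
      · ring

end Pool.Agent.H63.CLK
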