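import Pool.Agent.H63.CLK.K_X

/-!
# All directions, algebra: the derivative of the weights at the column `(0, N)`

Let `D s` be the derivative at `z = 0` of `WJ N k (z • h) 0 0 s - WJ N (N - k) (z • h) 0 0 s` (`WJ_right`: explicit products).
Claim: `D s = (h 3 - h 1) * EN N k s`. Both sides change the sign if `k` is replaced by `N - k` (`Xc N (N - k) = Xc N k`,
`sin (π (2 (N - k) + 1) / M) = - sin (π (2 k + 1) / M)`), so let `2 k ≤ N` (`2 k = N`: both are `0`).
* `s < k`: both terms vanish identically, and so does `EN` (two factors of the product vanish, one of them is left).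
* `k ≤ s < N - k`: the second term is `0`; in the first the factor `i = k + 1` of
  `pch N (N - k + z η) (N - s) = ∏_{i=1}^{N-s} {N - k + i + z η}` vanishes at `z = 0`, its derivative there is
  `-(2 π i / M) η`, and the derivative of the product is this times the other factors at `z = 0`.
* `s ≥ N - k`: both terms have the same value at `z = 0` (`= QN N k s`, by `WJ_zero_right`), and the difference of the
  logarithmic derivatives is, in terms of `cot i := (π / M) cot (π i / M)`: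
  the phase `q^(z (h 0 - h 1) s)` and the factors with `h 3 - h 2` (`∑_{i=1}^{k} cot (N-k+i) = ∑_{i=1}^{N-k} cot (k+i)`) and
  with `h 0 - h 3` cancel, and `η = h 3 - h 1` has the coefficient
  `∑_{i=1}^{r} (cot (N-k+i) - cot (k+i))`, `r = N - s ≤ k`, equal to `- ∑_{i=k-r+1}^{k+r} cot i`; on the other side
  `∑_{j<r} 1 / (Xc j - Xc k) = (1 / (4 sin (π (2k+1) / M))) ∑_{j<r} (cotg (k+j+1) + cotg (k-j))`, `cotg i = cot (π i / M)`
  (`1 / (sin a sin b) = (cotg a + cotg b) / sin (a + b)`).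
Checked numerically.
-/

set_option autoImplicit false

namespace Pool.Agent.H63.CLK

open Pool.Agent.H63.VC7 Pool.Agent.H63.VC10

/-! ### Logarithmic derivatives -/

private noncomputable def K_E0_c (N : ℕ) : ℂ := Real.pi * Complex.I / ((N + 1 : ℕ) : ℂ)

private noncomputable def K_E0_ct (N : ℕ) (n : ℤ) : ℂ :=
  K_E0_c N * (qz N ^ n + qz N ^ (-n)) / br (qz N) n

private def K_E0_LD (f : ℂ → ℂ) (F L : ℂ) : Prop := f 0 = F ∧ HasDerivAt f (F * L) 0

private theorem K_E0_mul {f g : ℂ → ℂ} {F G L K : ℂ} (hf : K_E0_LD f F L) (hg : K_E0_LD g G K) :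
    K_E0_LD (fun z => f z * g z) (F * G) (L + K) := by
  refine ⟨by simp only [hf.1, hg.1], ?_⟩
  have h := hf.2.mul hg.2
  rw [hf.1, hg.1] at h
  exact h.congr_deriv (by ring)

private theorem K_E0_const (c : ℂ) : K_E0_LD (fun _ => c) c 0 := by
  refine ⟨rfl, ?_⟩
  rw [mul_zero]
  exact hasDerivAt_const _ _

private theorem K_E0_prod {ι : Type*} (s : Finset ι) (f : ι → ℂ → ℂ) (F L : ι → ℂ)
    (h : ∀ i ∈ s, K_E0_LD (f i) (F i) (L i)) :
    K_E0_LD (fun z => ∏ i ∈ s, f i z) (∏ i ∈ s, F i) (∑ i ∈ s, L i) := by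
  classical
  induction s using Finset.induction_on with
  | empty => simpa using K_E0_const 1
  | insert a s ha ih =>
    have h1 := K_E0_mul (h a (Finset.mem_insert_self a s))
      (ih fun i hi => h i (Finset.mem_insert_of_mem hi))
    simp only [Finset.prod_insert ha, Finset.sum_insert ha]
    exact h1

private theorem K_E0_qh_deriv (N : ℕ) (x : ℂ) : HasDerivAt (qh N) (qh N x * K_E0_c N) x := by
  have h : HasDerivAt (fun x : ℂ => (Real.pi * Complex.I * x / ((N + 1 : ℕ) : ℂ)))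
      (K_E0_c N) x := by
    have := ((hasDerivAt_id x).const_mul (Real.pi * Complex.I : ℂ)).div_const ((N + 1 : ℕ) : ℂ)
    simpa [K_E0_c] using this
  exact h.cexp

private theorem K_E0_bh_deriv (N : ℕ) (x : ℂ) :
    HasDerivAt (bh N) (K_E0_c N * (qh N x + qh N (-x))) x := by
  have h1 := K_E0_qh_deriv N x
  have h2 : HasDerivAt (fun x => qh N (-x)) (qh N (-x) * K_E0_c N * (-1)) x :=
    HasDerivAt.comp (h₂ := qh N) x (K_E0_qh_deriv N (-x)) (hasDerivAt_neg x)
  have h3 := h1.sub h2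
  have h4 : (qh N - fun x => qh N (-x)) = bh N := by
    funext y
    simp [bh]
  rw [h4] at h3
  exact h3.congr_deriv (by ring)

private theorem K_E0_lin (x c : ℂ) : HasDerivAt (fun z : ℂ => x + z * c) c 0 := by
  have := ((hasDerivAt_id (0 : ℂ)).mul_const c).const_add x
  simpa using this

private theorem K_E0_qhL (N : ℕ) (c : ℂ) :
    K_E0_LD (fun z => qh N (z * c)) 1 (c * K_E0_c N) := by
  refine ⟨by simp [qh_zero], ?_⟩
  have h2 : HasDerivAt (fun z : ℂ => z * c) c 0 := by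
    have := K_E0_lin 0 c
    simpa using this
  have h3 : HasDerivAt (qh N) (qh N (0 * c) * K_E0_c N) (0 * c) := K_E0_qh_deriv N _
  have h := HasDerivAt.comp (h₂ := qh N) (0 : ℂ) h3 h2
  rw [zero_mul, qh_zero] at h
  exact h.congr_deriv (by ring)

private theorem K_E0_bhL (N : ℕ) (n : ℤ) (c : ℂ) (hn : br (qz N) n ≠ 0) :
    K_E0_LD (fun z => bh N (n + z * c)) (br (qz N) n) (c * K_E0_ct N n) := by
  refine ⟨by simp [bh_int], ?_⟩
  have h3 : HasDerivAt (bh N) (K_E0_c N * (qh N (n + 0 * c) + qh N (-(n + 0 * c)))) (n + 0 * c) :=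
    K_E0_bh_deriv N _
  have h := HasDerivAt.comp (h₂ := bh N) (0 : ℂ) h3 (K_E0_lin n c)
  have e1 : qh N (n + 0 * c) = qz N ^ n := by rw [zero_mul, add_zero, qh_int]
  have e2 : qh N (-(n + 0 * c)) = qz N ^ (-n) := by
    rw [zero_mul, add_zero, show -(n : ℂ) = ((-n : ℤ) : ℂ) by push_cast; rfl, qh_int]
  rw [e1, e2] at h
  refine h.congr_deriv ?_
  unfold K_E0_ct
  field_simp

private theorem K_E0_pch (N : ℕ) (p : ℤ) (c : ℂ) (x : ℕ)
    (hp : ∀ i < x, br (qz N) (p + i + 1) ≠ 0) :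
    K_E0_LD (fun z => pch N (p + z * c) x) (∏ i ∈ Finset.range x, br (qz N) (p + i + 1))
      (c * ∑ i ∈ Finset.range x, K_E0_ct N (p + i + 1)) := by
  rw [Finset.mul_sum]
  have h := K_E0_prod (Finset.range x) (fun i z => bh N (((p + i + 1 : ℤ) : ℂ) + z * c))
    (fun i => br (qz N) (p + i + 1)) (fun i => c * K_E0_ct N (p + i + 1))
    (fun i hi => K_E0_bhL N _ c (hp i (Finset.mem_range.1 hi)))
  have e : (fun z => pch N (p + z * c) x) =
      fun z => ∏ i ∈ Finset.range x, bh N (((p + i + 1 : ℤ) : ℂ) + z * c) := by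
    funext z
    unfold pch
    refine Finset.prod_congr rfl fun i _ => ?_
    congr 1
    push_cast
    ring
  rw [e]
  exact h

/-! ### Factorials and sums of cotangents -/

private theorem K_E0_fac (N p x : ℕ) (h : p + x ≤ N) :
    ∏ i ∈ Finset.range x, br (qz N) ((p : ℤ) + i + 1) = brf (qz N) (p + x) / brf (qz N) p := by
  have hp : brf (qz N) p ≠ 0 := A_Em_brf_ne N (by omega)
  rw [eq_div_iff hp]
  clear hp
  induction x with
  | zero => simp
  | succ x ih =>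
    rw [Finset.prod_range_succ, ← add_assoc, brf_succ, ← ih (by omega)]
    push_cast
    ring

private noncomputable def K_E0_C (N n : ℕ) : ℂ := ∑ i ∈ Finset.range n, K_E0_ct N ((i : ℤ) + 1)

private theorem K_E0_Csum (N p x : ℕ) :
    ∑ i ∈ Finset.range x, K_E0_ct N ((p : ℤ) + i + 1) = K_E0_C N (p + x) - K_E0_C N p := by
  unfold K_E0_C
  rw [Finset.sum_range_add, add_sub_cancel_left]
  refine Finset.sum_congr rfl fun i _ => ?_
  push_cast
  rfl

private theorem K_E0_ct_refl (N : ℕ) (n : ℤ) : K_E0_ct N ((N : ℤ) + 1 - n) = -K_E0_ct N n := by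
  unfold K_E0_ct
  have hq := A_Em_qz_ne N
  have h1 : qz N ^ ((N : ℤ) + 1 - n) = -qz N ^ (-n) := by
    rw [sub_eq_add_neg, zpow_add₀ hq, A_Em_qz_M]; ring
  have h2 : qz N ^ (-((N : ℤ) + 1 - n)) = -qz N ^ n := by
    rw [show -((N : ℤ) + 1 - n) = n + -((N : ℤ) + 1) by ring, zpow_add₀ hq, _root_.zpow_neg,
      A_Em_qz_M]
    norm_num
  rw [h1, h2, A_Em_refl]
  ring

private theorem K_E0_C_refl (N k : ℕ) (hk : k ≤ N) : K_E0_C N (N - k) = K_E0_C N k := by
  have h1 : ∀ k ≤ N, K_E0_C N N = K_E0_C N (N - k) - K_E0_C N k := by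
    intro k hk
    have h2 := K_E0_Csum N (N - k) k
    rw [Nat.sub_add_cancel hk] at h2
    have h3 : ∑ i ∈ Finset.range k, K_E0_ct N (((N - k : ℕ) : ℤ) + i + 1) = -K_E0_C N k := by
      unfold K_E0_C
      rw [← Finset.sum_range_reflect, ← Finset.sum_neg_distrib]
      refine Finset.sum_congr rfl fun i hi => ?_
      have := Finset.mem_range.1 hi
      rw [← K_E0_ct_refl]
      congr 1
      omega
    rw [h3] at h2
    linear_combination -h2
  have h0 := h1 N le_rfl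
  have h2 := h1 k hk
  rw [Nat.sub_self] at h0
  have h3 : K_E0_C N 0 = 0 := by simp [K_E0_C]
  have h4 : K_E0_C N N = 0 := by
    rw [h3] at h0
    have : (2 : ℂ) * K_E0_C N N = 0 := by linear_combination h0
    simpa using this
  rw [h4] at h2
  linear_combination -h2

/-- `2 cot (a + b) ...`: the addition theorem. -/
private theorem K_E0_ct_add (N : ℕ) (a b : ℤ) (ha : br (qz N) a ≠ 0) (hb : br (qz N) b ≠ 0) :
    K_E0_ct N a + K_E0_ct N b =
      2 * K_E0_c N * br (qz N) (a + b) / (br (qz N) a * br (qz N) b) := by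
  have hq := A_Em_qz_ne N
  unfold K_E0_ct
  rw [div_add_div _ _ ha hb]
  congr 1
  unfold br
  rw [zpow_add₀ hq, neg_add, zpow_add₀ hq]
  ring

/-! ### The other side -/

private theorem K_E0_Xc (N i k : ℕ) :
    ((Xc N i - Xc N k : ℝ) : ℂ) = br (qz N) ((k : ℤ) + i + 1) * br (qz N) ((i : ℤ) - k) := by
  rw [A_Em_br_eq, A_Em_br_eq]
  unfold Xc
  push_cast
  rw [← mul_sub, Complex.cos_sub_cos]
  have e1 : ((Real.pi : ℂ) * (2 * (i : ℂ) + 1) / ((N : ℂ) + 1) +
      (Real.pi : ℂ) * (2 * (k : ℂ) + 1) / ((N : ℂ) + 1)) / 2 =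
      ((k : ℂ) + i + 1) * ((Real.pi : ℂ) / ((N : ℂ) + 1)) := by ring
  have e2 : ((Real.pi : ℂ) * (2 * (i : ℂ) + 1) / ((N : ℂ) + 1) -
      (Real.pi : ℂ) * (2 * (k : ℂ) + 1) / ((N : ℂ) + 1)) / 2 =
      ((i : ℂ) - k) * ((Real.pi : ℂ) / ((N : ℂ) + 1)) := by ring
  rw [e1, e2]
  linear_combination (-4 * (Complex.sin (((k : ℂ) + i + 1) * ((Real.pi : ℂ) / ((N : ℂ) + 1))) *
    Complex.sin (((i : ℂ) - k) * ((Real.pi : ℂ) / ((N : ℂ) + 1))))) * Complex.I_mul_I

private theorem K_E0_SN (N n : ℕ) : ((SN N n : ℝ) : ℂ) ^ 2 * (-1) ^ n = brf (qz N) n ^ 2 := by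
  induction n with
  | zero => simp [SN, brf_zero]
  | succ n ih =>
    have h1 : SN N (n + 1) = SN N n *
        (2 * Real.sin (Real.pi * (n + 1) / ((N + 1 : ℕ) : ℝ))) := by
      unfold SN
      rw [Finset.prod_range_succ]
    rw [h1, brf_succ, A_Em_br_eq]
    push_cast
    rw [show (Real.pi : ℂ) * ((n : ℂ) + 1) / ((N : ℂ) + 1) =
      ((n : ℂ) + 1) * ((Real.pi : ℂ) / ((N : ℂ) + 1)) by ring]
    have h2 := Complex.I_mul_I
    linear_combination (-4 * Complex.sin (((n : ℂ) + 1) * ((Real.pi : ℂ) / ((N : ℂ) + 1))) ^ 2) * ih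
      - (4 * brf (qz N) n ^ 2 *
        Complex.sin (((n : ℂ) + 1) * ((Real.pi : ℂ) / ((N : ℂ) + 1))) ^ 2) * h2

private theorem K_E0_sin (N k : ℕ) :
    ((-(4 * Real.pi * Real.sin (Real.pi * (2 * k + 1) / ((N + 1 : ℕ) : ℝ)) /
      ((N + 1 : ℕ) : ℝ)) : ℝ) : ℂ) = 2 * K_E0_c N * br (qz N) (2 * (k : ℤ) + 1) := by
  rw [A_Em_br_eq]
  unfold K_E0_c
  push_cast
  rw [show (Real.pi : ℂ) * (2 * (k : ℂ) + 1) / ((N : ℂ) + 1) =
      (2 * (k : ℂ) + 1) * ((Real.pi : ℂ) / ((N : ℂ) + 1)) by ring]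
  have h2 := Complex.I_mul_I
  linear_combination (-4 * (Real.pi : ℂ) *
    Complex.sin ((2 * (k : ℂ) + 1) * ((Real.pi : ℂ) / ((N : ℂ) + 1))) / ((N : ℂ) + 1)) * h2

private theorem K_E0_EN (N k s : ℕ) :
    ((EN N k s : ℝ) : ℂ) = 2 * K_E0_c N * br (qz N) (2 * (k : ℤ) + 1) *
      ((∑ j ∈ Finset.range (N - s), ∏ i ∈ (Finset.range (N - s)).erase j,
        (br (qz N) ((k : ℤ) + i + 1) * br (qz N) ((i : ℤ) - k))) / ((SN N (N - s) : ℝ) : ℂ) ^ 2) := by
  unfold EN
  rw [Complex.ofReal_mul, K_E0_sin]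
  congr 1
  rw [Complex.ofReal_div, Complex.ofReal_pow]
  congr 1
  rw [Complex.ofReal_sum]
  refine Finset.sum_congr rfl fun j _ => ?_
  rw [Complex.ofReal_prod]
  refine Finset.prod_congr rfl fun i _ => ?_
  exact K_E0_Xc N i k

private theorem K_E0_Xc_symm (N k : ℕ) (hk : k ≤ N) : Xc N (N - k) = Xc N k := by
  unfold Xc
  congr 1
  have h : Real.pi * (2 * ((N - k : ℕ) : ℝ) + 1) / ((N + 1 : ℕ) : ℝ) =
      2 * Real.pi - Real.pi * (2 * (k : ℝ) + 1) / ((N + 1 : ℕ) : ℝ) := by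
    rw [Nat.cast_sub hk]
    have : ((N : ℝ) + 1) ≠ 0 := by positivity
    push_cast
    field_simp
    ring
  rw [h, Real.cos_two_pi_sub]

private theorem K_E0_EN_symm (N k s : ℕ) (hk : k ≤ N) : EN N (N - k) s = -EN N k s := by
  unfold EN
  rw [K_E0_Xc_symm N k hk]
  have h : Real.pi * (2 * ((N - k : ℕ) : ℝ) + 1) / ((N + 1 : ℕ) : ℝ) =
      2 * Real.pi - Real.pi * (2 * (k : ℝ) + 1) / ((N + 1 : ℕ) : ℝ) := by
    rw [Nat.cast_sub hk]
    have : ((N : ℝ) + 1) ≠ 0 := by positivity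
    push_cast
    field_simp
    ring
  rw [h, Real.sin_two_pi_sub]
  ring

/-! ### The three cases -/

private theorem K_E0_fun (N J s : ℕ) (h : Fin 4 → ℂ) (hJ : J ≤ N) (hs : s ≤ N) (hJs : J ≤ s) :
    (fun z : ℂ => WJ N J (z • h) 0 0 s) = fun z =>
      qh N (z * ((h 0 - h 1) * s)) *
        (pch N (((((N - J : ℕ) : ℕ) : ℤ) : ℂ) + z * (h 3 - h 2)) J *
          pch N (((((N - J : ℕ) : ℕ) : ℤ) : ℂ) + z * (h 3 - h 1)) (N - s) *
          pch N ((((J : ℕ) : ℤ) : ℂ) + z * (h 0 - h 3)) (s - J)) *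
        (ib N J * ib N ((N : ℤ) - s) * ib N ((s : ℤ) - J)) := by
  funext z
  rw [WJ_right N J _ hJ s hs, if_pos hJs]
  simp only [Pi.smul_apply, smul_eq_mul]
  rw [show (z * h 0 - z * h 1) * (s : ℂ) = z * ((h 0 - h 1) * s) by ring,
    show (N : ℂ) - J + z * h 3 - z * h 2 = ((((N - J : ℕ) : ℕ) : ℤ) : ℂ) + z * (h 3 - h 2) by
      push_cast [Nat.cast_sub hJ]; ring,
    show (N : ℂ) - J + z * h 3 - z * h 1 = ((((N - J : ℕ) : ℕ) : ℤ) : ℂ) + z * (h 3 - h 1) by
      push_cast [Nat.cast_sub hJ]; ring,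
    show (J : ℂ) + z * h 0 - z * h 3 = (((J : ℕ) : ℤ) : ℂ) + z * (h 0 - h 3) by
      push_cast; ring]

/-- The value and the logarithmic derivative in the last case. -/
private theorem K_E0_caseC (N J s : ℕ) (h : Fin 4 → ℂ) (hJ : J ≤ N) (hs : s ≤ N) (hJs : J ≤ s)
    (hs2 : N - J ≤ s) :
    K_E0_LD (fun z : ℂ => WJ N J (z • h) 0 0 s)
      (brf (qz N) s / (brf (qz N) (J + s - N) * brf (qz N) (s - J) * brf (qz N) (N - s)))
      ((h 0 - h 1) * s * K_E0_c N + (h 3 - h 2) * (K_E0_C N N - K_E0_C N J) +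
        (h 3 - h 1) * (K_E0_C N (J + s - N) - K_E0_C N J) +
        (h 0 - h 3) * (K_E0_C N s - K_E0_C N J)) := by
  rw [K_E0_fun N J s h hJ hs hJs]
  have h1 := K_E0_qhL N ((h 0 - h 1) * s)
  have h2 := K_E0_pch N ((N - J : ℕ) : ℤ) (h 3 - h 2) J
    (fun i hi => A_Em_br_ne N (by omega) (by omega))
  have h3 := K_E0_pch N ((N - J : ℕ) : ℤ) (h 3 - h 1) (N - s)
    (fun i hi => A_Em_br_ne N (by omega) (by omega))
  have h4 := K_E0_pch N (J : ℤ) (h 0 - h 3) (s - J)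
    (fun i hi => A_Em_br_ne N (by omega) (by omega))
  have h5 := K_E0_mul (K_E0_mul h1 (K_E0_mul (K_E0_mul h2 h3) h4))
    (K_E0_const (ib N J * ib N ((N : ℤ) - s) * ib N ((s : ℤ) - J)))
  rw [K_E0_Csum, K_E0_Csum, K_E0_Csum, K_E0_fac N (N - J) J (by omega),
    K_E0_fac N (N - J) (N - s) (by omega), K_E0_fac N J (s - J) (by omega),
    show N - J + J = N by omega, show J + (s - J) = s by omega,
    show (N : ℤ) - s = ((N - s : ℕ) : ℤ) by omega, show (s : ℤ) - J = ((s - J : ℕ) : ℤ) by omega,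
    ib_nat, ib_nat, ib_nat, K_E0_C_refl N J hJ,
    show N - J + (N - s) = N - (J + s - N) by omega,
    K_E0_C_refl N (J + s - N) (by omega)] at h5
  rw [show (N : ℤ) - s = ((N - s : ℕ) : ℤ) by omega, show (s : ℤ) - J = ((s - J : ℕ) : ℤ) by omega,
    ib_nat, ib_nat, ib_nat]
  convert h5 using 1
  · have e1 := A_Em_brf_mul N J hJ
    have e2 := A_Em_brf_mul N (J + s - N) (by omega)
    have n1 : brf (qz N) J ≠ 0 := A_Em_brf_ne N hJ
    have n2 : brf (qz N) (N - J) ≠ 0 := A_Em_brf_ne N (by omega)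
    have n3 : brf (qz N) (J + s - N) ≠ 0 := A_Em_brf_ne N (by omega)
    have n4 : brf (qz N) (N - (J + s - N)) ≠ 0 := A_Em_brf_ne N (by omega)
    have n5 : brf (qz N) (N - s) ≠ 0 := A_Em_brf_ne N (by omega)
    have n6 : brf (qz N) (s - J) ≠ 0 := A_Em_brf_ne N (by omega)
    have e3 : brf (qz N) (N - (J + s - N)) = brf (qz N) J * brf (qz N) (N - J) /
        brf (qz N) (J + s - N) := by
      rw [eq_div_iff n3, e1, ← e2]; ring
    rw [e3, ← e1]
    field_simp
  · ring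

/-- The sum over the inverse factors. -/
private theorem K_E0_ENC (N k s : ℕ) (hk : k ≤ N) (hs : s ≤ N) (hs1 : k ≤ s) (hs2 : N - k ≤ s) :
    ((EN N k s : ℝ) : ℂ) =
      (brf (qz N) s / (brf (qz N) (k + s - N) * brf (qz N) (s - k) * brf (qz N) (N - s))) *
        (K_E0_C N (k + s - N) - K_E0_C N (k + (N - s))) := by
  rw [K_E0_EN]
  obtain ⟨r, hr⟩ : ∃ r, r = N - s := ⟨_, rfl⟩
  rw [← hr]
  have hrk : r ≤ k := by omega
  -- the factors are nonzero
  have hn1 : ∀ i ∈ Finset.range r, br (qz N) ((k : ℤ) + i + 1) ≠ 0 := by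
    intro i hi
    have := Finset.mem_range.1 hi
    exact A_Em_br_ne N (by omega) (by omega)
  have hn2 : ∀ i ∈ Finset.range r, br (qz N) ((k : ℤ) - i) ≠ 0 := by
    intro i hi
    have := Finset.mem_range.1 hi
    exact A_Em_br_ne N (by omega) (by omega)
  have hn3 : ∀ i ∈ Finset.range r, br (qz N) ((i : ℤ) - k) = -br (qz N) ((k : ℤ) - i) := by
    intro i _
    rw [← br_neg]
    congr 1
    ring
  have hP : ∏ i ∈ Finset.range r, (br (qz N) ((k : ℤ) + i + 1) * br (qz N) ((i : ℤ) - k)) =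
      (-1) ^ r * (brf (qz N) (k + r) / brf (qz N) (k - r)) := by
    rw [Finset.prod_mul_distrib, K_E0_fac N k r (by omega), Finset.prod_congr rfl hn3,
      Finset.prod_neg, Finset.card_range]
    have e1 : ∏ i ∈ Finset.range r, br (qz N) ((k : ℤ) - i) = brf (qz N) k / brf (qz N) (k - r) := by
      have e2 := K_E0_fac N (k - r) r (by omega)
      rw [Nat.sub_add_cancel hrk] at e2
      rw [← e2, ← Finset.prod_range_reflect]
      refine Finset.prod_congr rfl fun i hi => ?_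
      have := Finset.mem_range.1 hi
      congr 1
      omega
    rw [e1]
    have n1 : brf (qz N) k ≠ 0 := A_Em_brf_ne N hk
    have n2 : brf (qz N) (k - r) ≠ 0 := A_Em_brf_ne N (by omega)
    field_simp
  have hS : ∑ j ∈ Finset.range r, ∏ i ∈ (Finset.range r).erase j,
      (br (qz N) ((k : ℤ) + i + 1) * br (qz N) ((i : ℤ) - k)) =
      (∏ i ∈ Finset.range r, (br (qz N) ((k : ℤ) + i + 1) * br (qz N) ((i : ℤ) - k))) *
        ∑ j ∈ Finset.range r, (br (qz N) ((k : ℤ) + j + 1) * br (qz N) ((j : ℤ) - k))⁻¹ := by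
    rw [Finset.mul_sum]
    refine Finset.sum_congr rfl fun j hj => ?_
    rw [← Finset.mul_prod_erase _ _ hj]
    have := hn1 j hj
    have h2 := hn2 j hj
    rw [hn3 j hj]
    field_simp
  have hT : 2 * K_E0_c N * br (qz N) (2 * (k : ℤ) + 1) *
      ∑ j ∈ Finset.range r, (br (qz N) ((k : ℤ) + j + 1) * br (qz N) ((j : ℤ) - k))⁻¹ =
      K_E0_C N (k - r) - K_E0_C N (k + r) := by
    have e1 : ∀ j ∈ Finset.range r, 2 * K_E0_c N * br (qz N) (2 * (k : ℤ) + 1) *
        (br (qz N) ((k : ℤ) + j + 1) * br (qz N) ((j : ℤ) - k))⁻¹ =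
        -(K_E0_ct N ((k : ℤ) + j + 1) + K_E0_ct N ((k : ℤ) - j)) := by
      intro j hj
      rw [K_E0_ct_add N _ _ (hn1 j hj) (hn2 j hj), hn3 j hj,
        show (k : ℤ) + j + 1 + (k - j) = 2 * k + 1 by ring]
      have := hn1 j hj
      have h2 := hn2 j hj
      field_simp
    rw [Finset.mul_sum, Finset.sum_congr rfl e1, Finset.sum_neg_distrib, Finset.sum_add_distrib,
      K_E0_Csum]
    have e2 : ∑ j ∈ Finset.range r, K_E0_ct N ((k : ℤ) - j) = K_E0_C N k - K_E0_C N (k - r) := by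
      have e3 := K_E0_Csum N (k - r) r
      rw [Nat.sub_add_cancel hrk] at e3
      rw [← e3, ← Finset.sum_range_reflect]
      refine Finset.sum_congr rfl fun i hi => ?_
      have := Finset.mem_range.1 hi
      congr 1
      omega
    rw [e2]
    ring
  have hSN := K_E0_SN N r
  have n3 : brf (qz N) r ≠ 0 := A_Em_brf_ne N (by omega)
  have hSN0 : ((SN N r : ℝ) : ℂ) ^ 2 ≠ 0 := by
    intro h0
    rw [h0, zero_mul] at hSN
    exact pow_ne_zero 2 n3 hSN.symm
  have hm : ((-1 : ℂ) ^ r) * (-1) ^ r = 1 := by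
    rw [← mul_pow]; simp
  have hSN' : ((SN N r : ℝ) : ℂ) ^ 2 = brf (qz N) r ^ 2 * (-1) ^ r := by
    rw [← hSN, mul_assoc, hm, mul_one]
  have hm0 : ((-1 : ℂ) ^ r) ≠ 0 := pow_ne_zero _ (by norm_num)
  have hU : ∀ A B S D : ℂ, 2 * K_E0_c N * br (qz N) (2 * (k : ℤ) + 1) * B = D →
      2 * K_E0_c N * br (qz N) (2 * (k : ℤ) + 1) * (A * B / S) = A * D / S := by
    intro A B S D hD
    rw [← hD]
    ring
  rw [hS, hU _ _ _ _ hT, hP, hSN', show k + s - N = k - r by omega]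
  have f1 := A_Em_brf_mul N r (by omega)
  have f2 := A_Em_brf_mul N (s - k) (by omega)
  rw [show N - r = s by omega] at f1
  rw [show N - (s - k) = k + r by omega] at f2
  have n1 : brf (qz N) (s - k) ≠ 0 := A_Em_brf_ne N (by omega)
  have n2 : brf (qz N) (k - r) ≠ 0 := A_Em_brf_ne N (by omega)
  have f3 : brf (qz N) (k + r) = brf (qz N) r * brf (qz N) s / brf (qz N) (s - k) := by
    rw [eq_div_iff n1, f1, ← f2]; ring
  rw [f3]
  field_simp

/-- The middle case. -/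
private theorem K_E0_caseB (N k s : ℕ) (h : Fin 4 → ℂ) (hk : k ≤ N) (hs : s ≤ N) (h1 : k ≤ s)
    (h2 : s < N - k) :
    HasDerivAt (fun z : ℂ => WJ N k (z • h) 0 0 s) ((h 3 - h 1) * (EN N k s : ℂ)) 0 := by
  rw [K_E0_fun N k s h hk hs h1, K_E0_EN]
  obtain ⟨r, hr⟩ : ∃ r, r = N - s := ⟨_, rfl⟩
  rw [← hr]
  have hkr : k ∈ Finset.range r := Finset.mem_range.2 (by omega)
  -- the other side
  have hS : ∑ j ∈ Finset.range r, ∏ i ∈ (Finset.range r).erase j,
      (br (qz N) ((k : ℤ) + i + 1) * br (qz N) ((i : ℤ) - k)) =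
      ∏ i ∈ (Finset.range r).erase k,
        (br (qz N) ((k : ℤ) + i + 1) * br (qz N) ((i : ℤ) - k)) := by
    refine Finset.sum_eq_single_of_mem k hkr fun j _ hj => ?_
    refine Finset.prod_eq_zero (Finset.mem_erase.2 ⟨hj.symm, hkr⟩) ?_
    rw [sub_self, br_zero, mul_zero]
  have hE1 : br (qz N) (2 * (k : ℤ) + 1) * ∏ i ∈ (Finset.range r).erase k,
      br (qz N) ((k : ℤ) + i + 1) = brf (qz N) (k + r) / brf (qz N) k := by
    rw [← K_E0_fac N k r (by omega), ← Finset.mul_prod_erase _ _ hkr]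
    congr 2
    ring
  -- the function
  have g1 := K_E0_qhL N ((h 0 - h 1) * s)
  have g2 := K_E0_pch N ((N - k : ℕ) : ℤ) (h 3 - h 2) k
    (fun i hi => A_Em_br_ne N (by omega) (by omega))
  have g4 := K_E0_pch N (k : ℤ) (h 0 - h 3) (s - k)
    (fun i hi => A_Em_br_ne N (by omega) (by omega))
  have hn : ∀ i ∈ (Finset.range r).erase k, br (qz N) (((N - k : ℕ) : ℤ) + i + 1) =
      -br (qz N) ((i : ℤ) - k) := by
    intro i _
    rw [← br_neg, ← A_Em_refl]
    congr 1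
    omega
  have hn2 : ∀ i ∈ (Finset.range r).erase k, br (qz N) (((N - k : ℕ) : ℤ) + i + 1) ≠ 0 := by
    intro i hi
    have hi' := Finset.mem_erase.1 hi
    have hi2 := Finset.mem_range.1 hi'.2
    rw [hn i hi]
    refine neg_ne_zero.2 ?_
    rcases lt_or_gt_of_ne hi'.1 with h3 | h3
    · rw [show (i : ℤ) - k = -((k : ℤ) - i) by ring, br_neg]
      exact neg_ne_zero.2 (A_Em_br_ne N (by omega) (by omega))
    · exact A_Em_br_ne N (by omega) (by omega)
  have g3 := K_E0_prod ((Finset.range r).erase k)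
    (fun i z => bh N (((((N - k : ℕ) : ℤ) + i + 1 : ℤ) : ℂ) + z * (h 3 - h 1)))
    (fun i => br (qz N) (((N - k : ℕ) : ℤ) + i + 1))
    (fun i => (h 3 - h 1) * K_E0_ct N (((N - k : ℕ) : ℤ) + i + 1))
    (fun i hi => K_E0_bhL N _ (h 3 - h 1) (hn2 i hi))
  have g5 := K_E0_mul (K_E0_mul g1 (K_E0_mul (K_E0_mul g2 g3) g4))
    (K_E0_const (ib N k * ib N ((N : ℤ) - s) * ib N ((s : ℤ) - k)))
  have g6 : HasDerivAt (fun z => bh N ((((N : ℤ) + 1 : ℤ) : ℂ) + z * (h 3 - h 1)))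
      (-2 * K_E0_c N * (h 3 - h 1)) 0 := by
    have h3 : HasDerivAt (bh N) (K_E0_c N * (qh N ((((N : ℤ) + 1 : ℤ) : ℂ) + 0 * (h 3 - h 1)) +
        qh N (-((((N : ℤ) + 1 : ℤ) : ℂ) + 0 * (h 3 - h 1)))))
        ((((N : ℤ) + 1 : ℤ) : ℂ) + 0 * (h 3 - h 1)) := K_E0_bh_deriv N _
    have h4 := HasDerivAt.comp (h₂ := bh N) (0 : ℂ) h3 (K_E0_lin _ (h 3 - h 1))
    have e1 : qh N ((((N : ℤ) + 1 : ℤ) : ℂ) + 0 * (h 3 - h 1)) = -1 := by
      rw [zero_mul, add_zero, qh_int, A_Em_qz_M]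
    have e2 : qh N (-((((N : ℤ) + 1 : ℤ) : ℂ) + 0 * (h 3 - h 1))) = -1 := by
      rw [qh_neg, e1]
      norm_num
    rw [e1, e2] at h4
    exact h4.congr_deriv (by ring)
  have g7 := g6.mul g5.2
  have e0 : bh N ((((N : ℤ) + 1 : ℤ) : ℂ) + 0 * (h 3 - h 1)) = 0 := by
    rw [zero_mul, add_zero, bh_int, A_Em_br_M]
  have g5v := g5.1
  beta_reduce at g5v
  rw [g5v, e0, zero_mul, add_zero] at g7
  have hf : (fun z : ℂ => qh N (z * ((h 0 - h 1) * s)) *
        (pch N (((((N - k : ℕ) : ℕ) : ℤ) : ℂ) + z * (h 3 - h 2)) k *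
          pch N (((((N - k : ℕ) : ℕ) : ℤ) : ℂ) + z * (h 3 - h 1)) r *
          pch N ((((k : ℕ) : ℤ) : ℂ) + z * (h 0 - h 3)) (s - k)) *
        (ib N k * ib N ((N : ℤ) - s) * ib N ((s : ℤ) - k))) =
      (fun z => bh N ((((N : ℤ) + 1 : ℤ) : ℂ) + z * (h 3 - h 1))) * (fun z =>
        qh N (z * ((h 0 - h 1) * s)) *
        (pch N (((((N - k : ℕ) : ℕ) : ℤ) : ℂ) + z * (h 3 - h 2)) k *
          (∏ i ∈ (Finset.range r).erase k,
            bh N (((((N - k : ℕ) : ℤ) + i + 1 : ℤ) : ℂ) + z * (h 3 - h 1))) *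
          pch N ((((k : ℕ) : ℤ) : ℂ) + z * (h 0 - h 3)) (s - k)) *
        (ib N k * ib N ((N : ℤ) - s) * ib N ((s : ℤ) - k))) := by
    funext z
    rw [Pi.mul_apply]
    have e1 : pch N (((((N - k : ℕ) : ℕ) : ℤ) : ℂ) + z * (h 3 - h 1)) r =
        bh N ((((N : ℤ) + 1 : ℤ) : ℂ) + z * (h 3 - h 1)) * ∏ i ∈ (Finset.range r).erase k,
            bh N (((((N - k : ℕ) : ℤ) + i + 1 : ℤ) : ℂ) + z * (h 3 - h 1)) := by
      have e2 : pch N (((((N - k : ℕ) : ℕ) : ℤ) : ℂ) + z * (h 3 - h 1)) r =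
          ∏ i ∈ Finset.range r,
            bh N (((((N - k : ℕ) : ℤ) + i + 1 : ℤ) : ℂ) + z * (h 3 - h 1)) := by
        unfold pch
        refine Finset.prod_congr rfl fun i _ => ?_
        congr 1
        push_cast
        ring
      rw [e2, ← Finset.mul_prod_erase _ _ hkr]
      congr 4
      omega
    rw [e1]
    ring
  rw [hf]
  refine g7.congr_deriv ?_
  rw [hS, Finset.prod_mul_distrib, Finset.prod_congr rfl hn, Finset.prod_neg,
    Finset.card_erase_of_mem hkr, Finset.card_range,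
    K_E0_fac N (N - k) k (by omega), K_E0_fac N k (s - k) (by omega),
    show N - k + k = N by omega, show k + (s - k) = s by omega,
    show (N : ℤ) - s = ((r : ℕ) : ℤ) by omega, show (s : ℤ) - k = ((s - k : ℕ) : ℤ) by omega,
    ib_nat, ib_nat, ib_nat]
  generalize hE : ∏ i ∈ (Finset.range r).erase k, br (qz N) ((i : ℤ) - k) = E
  generalize hE' : ∏ i ∈ (Finset.range r).erase k, br (qz N) ((k : ℤ) + i + 1) = E'
  rw [hE'] at hE1
  have hSN := K_E0_SN N r
  have n3 : brf (qz N) r ≠ 0 := A_Em_brf_ne N (by omega)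
  have hm : ((-1 : ℂ) ^ r) * (-1) ^ r = 1 := by
    rw [← mul_pow]; simp
  have hSN' : ((SN N r : ℝ) : ℂ) ^ 2 = brf (qz N) r ^ 2 * (-1) ^ r := by
    rw [← hSN, mul_assoc, hm, mul_one]
  have hm0 : ((-1 : ℂ) ^ r) ≠ 0 := pow_ne_zero _ (by norm_num)
  have hm1 : ((-1 : ℂ) ^ (r - 1)) = -(-1) ^ r := by
    obtain ⟨r', rfl⟩ : ∃ r', r = r' + 1 := ⟨r - 1, by omega⟩
    rw [Nat.add_sub_cancel, pow_succ]
    ring
  have f0 := A_Em_brf_mul N k hk
  have f1 := A_Em_brf_mul N r (by omega)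
  have f2 := A_Em_brf_mul N (s - k) (by omega)
  rw [show N - r = s by omega] at f1
  rw [show N - (s - k) = k + r by omega] at f2
  have n1 : brf (qz N) (s - k) ≠ 0 := A_Em_brf_ne N (by omega)
  have n2 : brf (qz N) k ≠ 0 := A_Em_brf_ne N (by omega)
  have n4 : brf (qz N) (N - k) ≠ 0 := A_Em_brf_ne N (by omega)
  have f3 : brf (qz N) (k + r) = brf (qz N) r * brf (qz N) s / brf (qz N) (s - k) := by
    rw [eq_div_iff n1, f1, ← f2]; ring
  have f4 : brf (qz N) N / brf (qz N) (N - k) = brf (qz N) k := by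
    rw [div_eq_iff n4, f0]
  have hU : 2 * K_E0_c N * br (qz N) (2 * (k : ℤ) + 1) * (E' * E / ((SN N r : ℝ) : ℂ) ^ 2) =
      2 * K_E0_c N * (br (qz N) (2 * (k : ℤ) + 1) * E') * (E / ((SN N r : ℝ) : ℂ) ^ 2) := by ring
  rw [hU, hE1, hSN', hm1, f4, f3]
  have hm2 : ((-1 : ℂ) ^ r)⁻¹ = (-1) ^ r := by
    rw [inv_eq_iff_eq_inv, eq_comm, inv_eq_iff_eq_inv]
    exact eq_inv_of_mul_eq_one_left hm
  have hdiv : E / (brf (qz N) r ^ 2 * (-1) ^ r) = E * (-1) ^ r / brf (qz N) r ^ 2 := by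
    rw [div_mul_eq_div_div_swap, div_eq_mul_inv E, hm2]
  rw [hdiv]
  field_simp

private theorem K_E0_zero (N J s : ℕ) (hJ : J ≤ N) (hs : s ≤ N) (h : s < J ∨ s < N - J) :
    WJ N J 0 0 0 s = 0 := by
  rw [WJ_right N J 0 hJ s hs]
  split_ifs with h1
  · have h2 : s < N - J := by omega
    have h3 : pch N (N - J + (0 : Fin 4 → ℂ) 3 - (0 : Fin 4 → ℂ) 1) (N - s) = 0 := by
      unfold pch
      refine Finset.prod_eq_zero (Finset.mem_range.2 (show J < N - s by omega)) ?_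
      have : (N : ℂ) - J + (0 : Fin 4 → ℂ) 3 - (0 : Fin 4 → ℂ) 1 + J + 1 =
          (((N : ℤ) + 1 : ℤ) : ℂ) := by
        simp
      rw [this, bh_int, A_Em_br_M]
    rw [h3]
    ring
  · rfl

theorem WJ_symm_right (N k s : ℕ) (hk : k ≤ N) (hs : s ≤ N) :
    WJ N k 0 0 0 s = WJ N (N - k) 0 0 0 s := by
  by_cases h : s < k ∨ s < N - k
  · rw [K_E0_zero N k s hk hs h, K_E0_zero N (N - k) s (by omega) hs (by omega)]
  · have h1 := (K_E0_caseC N k s 0 hk hs (by omega) (by omega)).1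
    have h2 := (K_E0_caseC N (N - k) s 0 (by omega) hs (by omega) (by omega)).1
    simp only [smul_zero] at h1 h2
    rw [h1, h2, show N - k + s - N = s - k by omega, show s - (N - k) = k + s - N by omega]
    ring

private theorem K_E0_main (N k s : ℕ) (h : Fin 4 → ℂ) (hk : 2 * k < N) (hs : s ≤ N) :
    HasDerivAt (fun z : ℂ => WJ N k (z • h) 0 0 s - WJ N (N - k) (z • h) 0 0 s)
      ((h 3 - h 1) * (EN N k s : ℂ)) 0 := by
  by_cases h1 : s < k
  · have e1 : (fun z : ℂ => WJ N k (z • h) 0 0 s - WJ N (N - k) (z • h) 0 0 s) = fun _ => 0 := by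
      funext z
      rw [WJ_right N k _ (by omega) s hs, WJ_right N (N - k) _ (by omega) s hs,
        if_neg (by omega), if_neg (by omega), sub_zero]
    have e2 : ((EN N k s : ℝ) : ℂ) = 0 := by
      rw [K_E0_EN, Finset.sum_eq_zero, zero_div, mul_zero]
      intro j _
      by_cases hj : j = k
      · refine Finset.prod_eq_zero (i := N - k) (Finset.mem_erase.2
          ⟨by omega, Finset.mem_range.2 (by omega)⟩) ?_
        rw [show (k : ℤ) + ((N - k : ℕ) : ℤ) + 1 = (N : ℤ) + 1 by omega, A_Em_br_M, zero_mul]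
      · refine Finset.prod_eq_zero (i := k) (Finset.mem_erase.2
          ⟨fun h => hj h.symm, Finset.mem_range.2 (by omega)⟩) ?_
        rw [sub_self, br_zero, mul_zero]
    rw [e1, e2, mul_zero]
    exact hasDerivAt_const _ _
  by_cases h2 : s < N - k
  · have e1 : (fun z : ℂ => WJ N k (z • h) 0 0 s - WJ N (N - k) (z • h) 0 0 s) =
        fun z => WJ N k (z • h) 0 0 s := by
      funext z
      rw [WJ_right N (N - k) _ (by omega) s hs, if_neg (by omega), sub_zero]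
    rw [e1]
    exact K_E0_caseB N k s h (by omega) hs (by omega) h2
  · have g1 := (K_E0_caseC N k s h (by omega) hs (by omega) (by omega)).2
    have g2 := (K_E0_caseC N (N - k) s h (by omega) hs (by omega) (by omega)).2
    refine (g1.sub g2).congr_deriv ?_
    rw [K_E0_ENC N k s (by omega) hs (by omega) (by omega), K_E0_C_refl N k (by omega),
      show N - k + s - N = s - k by omega, show s - (N - k) = k + s - N by omega,
      ← K_E0_C_refl N (s - k) (by omega), show N - (s - k) = k + (N - s) by omega]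
    ring

theorem WJ_deriv_right (N k s : ℕ) (h : Fin 4 → ℂ) (hk : k ≤ N) (hs : s ≤ N) :
    HasDerivAt (fun z : ℂ => WJ N k (z • h) 0 0 s - WJ N (N - k) (z • h) 0 0 s)
      ((h 3 - h 1) * (EN N k s : ℂ)) 0 := by
  rcases lt_trichotomy (2 * k) N with h1 | h1 | h1
  · exact K_E0_main N k s h h1 hs
  · have e0 : N - k = k := by omega
    have e1 := K_E0_EN_symm N k s hk
    rw [e0] at e1 ⊢
    have e2 : EN N k s = 0 := by linarith
    simp only [sub_self, e2, Complex.ofReal_zero, mul_zero]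
    exact hasDerivAt_const _ _
  · have g := (K_E0_main N (N - k) s h (by omega) hs).neg
    rw [K_E0_EN_symm N k s hk, show N - (N - k) = k by omega] at g
    have e1 : (-fun z : ℂ => WJ N (N - k) (z • h) 0 0 s - WJ N k (z • h) 0 0 s) =
        fun z : ℂ => WJ N k (z • h) 0 0 s - WJ N (N - k) (z • h) 0 0 s := by
      funext z
      simp
    rw [e1] at g
    refine g.congr_deriv ?_
    push_cast
    ring

end Pool.Agent.H63.CLK
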