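import Pool.Agent.H63.CLK.K_Id

/-!
# All directions, algebra: the local vectors

With `x = a - α`, `y = b - β`, `x + y = B` (as in `A_Loc`) every identity is a polynomial identity in
`q ^ α`, `q ^ β`, `q ^ x`, `q ^ y` after division by the common factors, using `q ^ (N + 1) = -1`
(`A_Em_qz_M`), `ib_pred` and `A_Em_br_M`. See `A_Loc_E1` for the method, including the boundary cases.

* (P) `{B + 1} flz α (B + 1) β = q^(α+B+1) {α + 1} flz (α+1) B β + q^(-β-B-1) {β + 1} flz α B (β+1)`.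
* (E) the coefficient of `e_a ⊗ e_b` of `E flz α B β` is that of
  `- q^(-2(α+B+β)) flz (α-1) B β + flz α B (β-1)`.
* (F) the coefficient of `e_a ⊗ e_b` of `F flz α B β` (faces `hL`, `hm`, `hR`) is that of
  `- q^(2 hL + α) {α+1} flz (α+1) B β + q^(2 hm + 2α+B+1) {B+1} flz α (B+1) β
   - q^(2 hR + 2α+2B+β+2) {β+1} flz α B (β+1)`.
-/

set_option autoImplicit false

namespace Pool.Agent.H63.CLK

open Pool.Agent.H63.VC7 Pool.Agent.H63.VC10

/-- `{n + 1} / (n + 1)! = 1 / n!`. -/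
private theorem K_Flz_succ (N : ℕ) {n : ℤ} (h : n + 1 ≤ N) :
    br (qz N) (n + 1) * ib N (n + 1) = ib N n := (ib_pred' N h).symm

private theorem K_Flz_M (N : ℕ) (n : ℤ) : qz N ^ (n + ((N : ℤ) + 1)) = -qz N ^ n := by
  rw [zpow_add₀ (A_Em_qz_ne N), A_Em_qz_M]
  ring

private theorem K_Flz_M' (N : ℕ) (n : ℤ) : qz N ^ (n - ((N : ℤ) + 1)) = -qz N ^ n := by
  have h := K_Flz_M N (n - ((N : ℤ) + 1))
  rw [sub_add_cancel] at h
  rw [h, neg_neg]

theorem flz_P (N : ℕ) (α B β a b : ℤ) (hα : α ≤ N) (hβ : β ≤ N) (hB : B ≤ N) (hα0 : 0 ≤ α)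
    (hβ0 : 0 ≤ β) (hB0 : 0 ≤ B) (ha : 0 ≤ a) (ha' : a ≤ N) (hb : 0 ≤ b) (hb' : b ≤ N) :
    br (qz N) (B + 1) * flz N α (B + 1) β a b =
      qz N ^ (α + B + 1) * br (qz N) (α + 1) * flz N (α + 1) B β a b +
        qz N ^ (-β - B - 1) * br (qz N) (β + 1) * flz N α B (β + 1) a b := by
  by_cases hs : a + b = α + (B + 1) + β
  swap
  · unfold flz
    rw [if_neg hs, if_neg (by omega), if_neg (by omega)]
    ring
  have hq := A_Em_qz_ne N
  obtain ⟨x, rfl⟩ : ∃ x, a = α + x := ⟨a - α, by ring⟩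
  obtain ⟨y, rfl⟩ : ∃ y, b = β + y := ⟨b - β, by ring⟩
  obtain rfl : B = x + y - 1 := by omega
  unfold flz
  rw [if_pos (by ring), if_pos (by ring), if_pos (by ring)]
  rw [show α + x - α = x by ring, show β + y - β = y by ring, show α + x - (α + 1) = x - 1 by ring,
    show β + y - (β + 1) = y - 1 by ring, show x + y - 1 + 1 = x + y by ring,
    show α + (x + y - 1) + 1 = α + x + y by ring, show -β - (x + y - 1) - 1 = -β - x - y by ring]
  set F := qz N ^ (-(α * α) - x * α - y * y - β * y) with hF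
  have z1 : qz N ^ (-((α + 1) * (α + 1)) - (x - 1) * (α + 1) - y * y - β * y) =
      F * qz N ^ (-α - x) := by
    rw [hF, ← zpow_add₀ hq]; congr 1; ring
  have z2 : qz N ^ (-(α * α) - x * α - (y - 1) * (y - 1) - (β + 1) * (y - 1)) =
      F * qz N ^ (y + β) := by
    rw [hF, ← zpow_add₀ hq]; congr 1; ring
  have z3 : qz N ^ (α + x + y) * qz N ^ (-α - x) = qz N ^ y := by
    rw [← zpow_add₀ hq]; congr 1; ring
  have z4 : qz N ^ (-β - x - y) * qz N ^ (y + β) = qz N ^ (-x) := by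
    rw [← zpow_add₀ hq]; congr 1; ring
  have z5 : br (qz N) (x + y) = qz N ^ y * br (qz N) x + qz N ^ (-x) * br (qz N) y := by
    unfold br
    have hX : qz N ^ x ≠ 0 := zpow_ne_zero _ hq
    have hY : qz N ^ y ≠ 0 := zpow_ne_zero _ hq
    simp only [neg_add_rev, zpow_add₀ hq, _root_.zpow_neg]
    field_simp
    ring
  rw [z1, z2]
  have hxN : x ≤ N := by omega
  have hyN : y ≤ N := by omega
  have px := ib_pred N hxN
  have py := ib_pred N hyN
  rcases hα.lt_or_eq with h1 | h1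
  · rcases hβ.lt_or_eq with h2 | h2
    · have s1 := K_Flz_succ N (show α + 1 ≤ N by omega)
      have s2 := K_Flz_succ N (show β + 1 ≤ N by omega)
      rw [z5, px, py]
      linear_combination (-(F * br (qz N) x * ib N x * ib N y * ib N β * br (qz N) (α + 1) *
        ib N (α + 1))) * z3 - (F * br (qz N) y * ib N x * ib N y * ib N α * br (qz N) (β + 1) *
        ib N (β + 1)) * z4 - (F * br (qz N) x * ib N x * ib N y * ib N β * qz N ^ y) * s1 -
        (F * br (qz N) y * ib N x * ib N y * ib N α * qz N ^ (-x)) * s2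
    · -- `β = N`, `y ≤ 0`
      subst h2
      have s1 := K_Flz_succ N (show α + 1 ≤ N by omega)
      rw [A_Em_br_M]
      rcases (show y < 0 ∨ y = 0 by omega) with h3 | rfl
      · rw [ib_neg N h3]
        ring
      · rw [px]
        simp only [add_zero, zpow_zero, ib_zero] at z3 ⊢
        linear_combination (-(F * br (qz N) x * ib N x * ib N (N : ℤ) * br (qz N) (α + 1) *
          ib N (α + 1))) * z3 - (F * br (qz N) x * ib N x * ib N (N : ℤ)) * s1
  · subst h1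
    rw [A_Em_br_M]
    have s2 := K_Flz_succ N (show β + 1 ≤ N by omega)
    rcases (show x < 0 ∨ x = 0 by omega) with h3 | rfl
    · rw [ib_neg N h3]
      ring
    · rw [py]
      simp only [zero_add, sub_zero, neg_zero, zpow_zero, ib_zero] at z4 ⊢
      linear_combination (-(F * br (qz N) y * ib N y * ib N (N : ℤ) * br (qz N) (β + 1) *
          ib N (β + 1))) * z4 - (F * br (qz N) y * ib N y * ib N (N : ℤ)) * s2

private theorem K_Flz_Epoly (N : ℕ) (α β x y : ℤ) :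
    br (qz N) (α + x + 1) * qz N ^ ((N : ℤ) - 2 * (β + y)) * (qz N ^ (-α) * br (qz N) (y + 1)) +
      br (qz N) (β + y + 1) * (qz N ^ (-2 * y - 1 - β) * br (qz N) (x + 1)) =
    -qz N ^ (-2 * (α + (x + y + 1) + β)) * (qz N ^ (α + x) * (br (qz N) α * br (qz N) (y + 1))) +
      qz N ^ (-y - β) * (br (qz N) (x + 1) * br (qz N) β) := by
  have hq := A_Em_qz_ne N
  have hM : qz N ^ ((N : ℤ) - 2 * (β + y)) = -qz N ^ (-1 - 2 * (β + y)) := by
    rw [← K_Flz_M N (-1 - 2 * (β + y))]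
    congr 1
    ring
  rw [hM]
  unfold br
  have hA : qz N ^ α ≠ 0 := zpow_ne_zero _ hq
  have hC : qz N ^ β ≠ 0 := zpow_ne_zero _ hq
  have hX : qz N ^ x ≠ 0 := zpow_ne_zero _ hq
  have hY : qz N ^ y ≠ 0 := zpow_ne_zero _ hq
  have e1 : (-1 - 2 * (β + y) : ℤ) = -1 + (-β + -β + (-y + -y)) := by ring
  have e2 : (-2 * y - 1 - β : ℤ) = -y + -y + -1 + -β := by ring
  have e3 : (-2 * (α + (x + y + 1) + β) : ℤ) = -α + -α + (-x + -x) + (-y + -y) + (-1 + -1) + (-β + -β) := by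
    ring
  rw [e1, e2, e3]
  simp only [neg_add_rev, sub_eq_add_neg, zpow_add₀ hq, _root_.zpow_neg, zpow_one]
  generalize qz N ^ α = A at *
  generalize qz N ^ β = C at *
  generalize qz N ^ x = X at *
  generalize qz N ^ y = Y at *
  generalize qz N = q at *
  field_simp
  ring

/-- The rule for `E`. -/
theorem flz_E (N : ℕ) (α B β a b : ℤ) (hα : α ≤ N) (hβ : β ≤ N) (hB : B ≤ N) (ha : 0 ≤ a)
    (ha' : a ≤ N) (hb : 0 ≤ b) (hb' : b ≤ N) :
    br (qz N) (a + 1) * qz N ^ ((N : ℤ) - 2 * b) * flz N α B β (a + 1) b +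
      br (qz N) (b + 1) * flz N α B β a (b + 1) =
      -qz N ^ (-2 * (α + B + β)) * flz N (α - 1) B β a b + flz N α B (β - 1) a b := by
  by_cases hs : a + 1 + b = α + B + β
  swap
  · unfold flz
    rw [if_neg hs, if_neg (by omega), if_neg (by omega), if_neg (by omega)]
    ring
  have hq := A_Em_qz_ne N
  obtain ⟨x, rfl⟩ : ∃ x, a = α + x := ⟨a - α, by ring⟩
  obtain ⟨y, rfl⟩ : ∃ y, b = β + y := ⟨b - β, by ring⟩
  obtain rfl : B = x + y + 1 := by omega
  unfold flz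
  rw [if_pos (by ring), if_pos (by ring), if_pos (by ring), if_pos (by ring)]
  rw [show α + x + 1 - α = x + 1 by ring, show β + y - β = y by ring,
    show α + x - α = x by ring, show β + y + 1 - β = y + 1 by ring,
    show α + x - (α - 1) = x + 1 by ring, show β + y - (β - 1) = y + 1 by ring]
  set F := qz N ^ (-(α * α) - x * α - y * y - β * y) with hF
  have z1 : qz N ^ (-(α * α) - (x + 1) * α - y * y - β * y) = F * qz N ^ (-α) := by
    rw [hF, ← zpow_add₀ hq]; congr 1; ring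
  have z2 : qz N ^ (-(α * α) - x * α - (y + 1) * (y + 1) - β * (y + 1)) =
      F * qz N ^ (-2 * y - 1 - β) := by
    rw [hF, ← zpow_add₀ hq]; congr 1; ring
  have z3 : qz N ^ (-((α - 1) * (α - 1)) - (x + 1) * (α - 1) - y * y - β * y) =
      F * qz N ^ (α + x) := by
    rw [hF, ← zpow_add₀ hq]; congr 1; ring
  have z4 : qz N ^ (-(α * α) - x * α - (y + 1) * (y + 1) - (β - 1) * (y + 1)) =
      F * qz N ^ (-y - β) := by
    rw [hF, ← zpow_add₀ hq]; congr 1; ring
  rw [z1, z2, z3, z4, ib_pred N hα, ib_pred N hβ]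
  by_cases hα0 : α < 0
  · rw [ib_neg N hα0]; ring
  by_cases hβ0 : β < 0
  · rw [ib_neg N hβ0]; ring
  have hxN : x ≤ N := by omega
  have hyN : y ≤ N := by omega
  rcases hxN.lt_or_eq with hx | hx
  · rcases hyN.lt_or_eq with hy | hy
    · rw [ib_pred' N (show x + 1 ≤ N by omega), ib_pred' N (show y + 1 ≤ N by omega)]
      have P := K_Flz_Epoly N α β x y
      linear_combination (F * (ib N α * ib N (x + 1) * (ib N (y + 1) * ib N β))) * P
    · obtain rfl : β = 0 := by omega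
      subst hy
      rw [show (0 : ℤ) + N + 1 = N + 1 by ring, A_Em_br_M, br_zero]
      rcases (show x < -1 ∨ x = -1 by omega) with h | rfl
      · rw [ib_neg N (show x < 0 by omega), ib_neg N (show x + 1 < 0 by omega)]; ring
      · rw [ib_neg N (show (-1 : ℤ) < 0 by omega), show (-1 : ℤ) + 1 = 0 by ring, ib_zero,
          show α + -1 + 1 = α by ring]
        have z : qz N ^ (-2 * (α + (-1 + (N : ℤ) + 1) + 0)) * qz N ^ (α + -1) =
            -(qz N ^ ((N : ℤ) - 2 * (0 + N)) * qz N ^ (-α)) := by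
          rw [← zpow_add₀ hq, ← zpow_add₀ hq, ← K_Flz_M' N ((N : ℤ) - 2 * (0 + N) + -α)]
          congr 1
          ring
        linear_combination (br (qz N) α * F * ib N α * ib N (N : ℤ)) * z
  · obtain rfl : α = 0 := by omega
    subst hx
    rw [show (0 : ℤ) + N + 1 = N + 1 by ring, A_Em_br_M, br_zero]
    rcases (show y < -1 ∨ y = -1 by omega) with h | rfl
    · rw [ib_neg N (show y < 0 by omega), ib_neg N (show y + 1 < 0 by omega)]; ring
    · rw [ib_neg N (show (-1 : ℤ) < 0 by omega), show (-1 : ℤ) + 1 = 0 by ring, ib_zero,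
        show β + -1 + 1 = β by ring]
      have z : qz N ^ (-2 * (-1 : ℤ) - 1 - β) = qz N ^ (-(-1 : ℤ) - β) := by
        congr 1
      rw [z]
      ring

private theorem K_Flz_fF (N : ℕ) (ha hb : ℂ) (a : ℕ) (h : a ≠ 0) :
    fF N ha hb (a - 1) = qh N (2 * hb) * qz N ^ (a : ℤ) - qh N (2 * ha) * qz N ^ (-(a : ℤ)) := by
  unfold fF bh
  rw [mul_sub, ← qh_add, ← qh_add]
  have h1 : (((a - 1 : ℕ) : ℂ)) + 1 = (a : ℂ) := by
    have : (a - 1) + 1 = a := by omega
    exact_mod_cast this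
  have e1 : ha + hb + ((((a - 1 : ℕ) : ℂ)) + 1 + hb - ha) = 2 * hb + (((a : ℤ)) : ℂ) := by
    rw [h1]
    push_cast
    ring
  have e2 : ha + hb + -((((a - 1 : ℕ) : ℂ)) + 1 + hb - ha) = 2 * ha + (((-(a : ℤ)) : ℤ) : ℂ) := by
    rw [h1]
    push_cast
    ring
  rw [e1, e2, qh_add, qh_add, qh_int, qh_int]

/-- The three relations in the rule for `F`. -/
private theorem K_Flz_F3 (N : ℕ) (α B β a b : ℤ) (hα : α ≤ N) (hβ : β ≤ N)
    (hα0 : 0 ≤ α) (hβ0 : 0 ≤ β) (ha' : a ≤ N) (hb' : b ≤ N) :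
    qz N ^ (-a) * flz N α B β (a - 1) b =
      qz N ^ α * br (qz N) (α + 1) * flz N (α + 1) B β a b ∧
    qz N ^ a * flz N α B β (a - 1) b - qz N ^ (2 * a - N) * qz N ^ (-b) * flz N α B β a (b - 1) =
      qz N ^ (2 * α + B + 1) * br (qz N) (B + 1) * flz N α (B + 1) β a b ∧
    qz N ^ (2 * a - N) * qz N ^ b * flz N α B β a (b - 1) =
      -(qz N ^ (2 * α + 2 * B + β + 2) * br (qz N) (β + 1) * flz N α B (β + 1) a b) := by
  by_cases hs : a + b = α + (B + 1) + β
  swap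
  · unfold flz
    rw [if_neg hs, if_neg (by omega), if_neg (by omega), if_neg (by omega), if_neg (by omega)]
    simp
  have hq := A_Em_qz_ne N
  obtain ⟨x, rfl⟩ : ∃ x, a = α + x := ⟨a - α, by ring⟩
  obtain ⟨y, rfl⟩ : ∃ y, b = β + y := ⟨b - β, by ring⟩
  obtain rfl : B = x + y - 1 := by omega
  unfold flz
  rw [if_pos (by ring), if_pos (by ring), if_pos (by ring), if_pos (by ring), if_pos (by ring)]
  rw [show α + x - 1 - α = x - 1 by ring, show β + y - β = y by ring,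
    show α + x - (α + 1) = x - 1 by ring, show α + x - α = x by ring,
    show β + y - 1 - β = y - 1 by ring, show β + y - (β + 1) = y - 1 by ring,
    show x + y - 1 + 1 = x + y by ring]
  set F := qz N ^ (-(α * α) - x * α - y * y - β * y) with hF
  have z1 : qz N ^ (-(α * α) - (x - 1) * α - y * y - β * y) = F * qz N ^ α := by
    rw [hF, ← zpow_add₀ hq]; congr 1; ring
  have z2 : qz N ^ (-((α + 1) * (α + 1)) - (x - 1) * (α + 1) - y * y - β * y) =
      F * qz N ^ (-α - x) := by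
    rw [hF, ← zpow_add₀ hq]; congr 1; ring
  have z3 : qz N ^ (-(α * α) - x * α - (y - 1) * (y - 1) - β * (y - 1)) =
      F * qz N ^ (2 * y - 1 + β) := by
    rw [hF, ← zpow_add₀ hq]; congr 1; ring
  have z4 : qz N ^ (-(α * α) - x * α - (y - 1) * (y - 1) - (β + 1) * (y - 1)) =
      F * qz N ^ (y + β) := by
    rw [hF, ← zpow_add₀ hq]; congr 1; ring
  rw [z1, z2, z3, z4]
  have hxN : x ≤ N := by omega
  have hyN : y ≤ N := by omega
  have px := ib_pred N hxN
  have py := ib_pred N hyN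
  refine ⟨?_, ?_, ?_⟩
  · have w1 : qz N ^ (-(α + x)) * qz N ^ α = qz N ^ (-x) := by
      rw [← zpow_add₀ hq]; congr 1; ring
    have w2 : qz N ^ α * qz N ^ (-α - x) = qz N ^ (-x) := by
      rw [← zpow_add₀ hq]; congr 1; ring
    rcases hα.lt_or_eq with h1 | h1
    · have s1 := K_Flz_succ N (show α + 1 ≤ N by omega)
      linear_combination (F * ib N α * ib N (x - 1) * ib N y * ib N β) * w1 -
        (F * br (qz N) (α + 1) * ib N (α + 1) * ib N (x - 1) * ib N y * ib N β) * w2 -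
        (F * qz N ^ (-x) * ib N (x - 1) * ib N y * ib N β) * s1
    · rw [ib_neg N (show x - 1 < 0 by omega)]
      ring
  · have w1 : qz N ^ (α + x) * qz N ^ α = qz N ^ (2 * α + x) := by
      rw [← zpow_add₀ hq]; congr 1; ring
    have w2 : qz N ^ (2 * (α + x) - N) * qz N ^ (-(β + y)) * qz N ^ (2 * y - 1 + β) =
        -qz N ^ (2 * α + x + (x + y)) := by
      rw [← zpow_add₀ hq, ← zpow_add₀ hq, ← K_Flz_M' N (2 * α + x + (x + y))]
      congr 1
      ring
    have w3 : qz N ^ (2 * α + (x + y - 1) + 1) * br (qz N) (x + y) =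
        qz N ^ (2 * α + x) * br (qz N) x + qz N ^ (2 * α + x + (x + y)) * br (qz N) y := by
      unfold br
      rw [show 2 * α + (x + y - 1) + 1 = 2 * α + x + y by ring]
      generalize 2 * α + x = c
      have hC : qz N ^ c ≠ 0 := zpow_ne_zero _ hq
      have hX : qz N ^ x ≠ 0 := zpow_ne_zero _ hq
      have hY : qz N ^ y ≠ 0 := zpow_ne_zero _ hq
      simp only [neg_add_rev, zpow_add₀ hq, _root_.zpow_neg]
      field_simp
      ring
    rw [px, py]
    linear_combination (F * ib N α * (br (qz N) x * ib N x) * ib N y * ib N β) * w1 -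
      (F * ib N α * ib N x * (br (qz N) y * ib N y) * ib N β) * w2 -
      (F * ib N α * ib N x * ib N y * ib N β) * w3
  · have w1 : qz N ^ (2 * (α + x) - N) * qz N ^ (β + y) * qz N ^ (2 * y - 1 + β) =
        -qz N ^ (2 * α + 2 * x + 3 * y + 2 * β) := by
      rw [← zpow_add₀ hq, ← zpow_add₀ hq, ← K_Flz_M' N (2 * α + 2 * x + 3 * y + 2 * β)]
      congr 1
      ring
    have w2 : qz N ^ (2 * α + 2 * (x + y - 1) + β + 2) * qz N ^ (y + β) =
        qz N ^ (2 * α + 2 * x + 3 * y + 2 * β) := by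
      rw [← zpow_add₀ hq]; congr 1; ring
    rcases hβ.lt_or_eq with h1 | h1
    · have s1 := K_Flz_succ N (show β + 1 ≤ N by omega)
      linear_combination (F * ib N α * ib N x * ib N (y - 1) * ib N β) * w1 +
        (F * br (qz N) (β + 1) * ib N (β + 1) * ib N x * ib N (y - 1) * ib N α) * w2 +
        (F * qz N ^ (2 * α + 2 * x + 3 * y + 2 * β) * ib N x * ib N (y - 1) * ib N α) * s1
    · rw [ib_neg N (show y - 1 < 0 by omega)]
      ring

/-- The rule for `F`. -/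
theorem flz_F (N : ℕ) (hL hm hR : ℂ) (α B β : ℤ) (a b : ℕ) (hα : α ≤ N) (hβ : β ≤ N) (hB : B ≤ N)
    (hα0 : 0 ≤ α) (hβ0 : 0 ≤ β) (hB0 : 0 ≤ B) (ha' : a ≤ N) (hb' : b ≤ N) :
    (if a = 0 then 0 else fF N hL hm (a - 1) * flz N α B β ((a : ℤ) - 1) b) +
      (if b = 0 then 0 else
        qz N ^ (2 * (a : ℤ) - N) * fF N hm hR (b - 1) * flz N α B β a ((b : ℤ) - 1)) =
      -(qh N (2 * hL) * qz N ^ α * br (qz N) (α + 1) * flz N (α + 1) B β a b) +
        qh N (2 * hm) * qz N ^ (2 * α + B + 1) * br (qz N) (B + 1) * flz N α (B + 1) β a b -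
        qh N (2 * hR) * qz N ^ (2 * α + 2 * B + β + 2) * br (qz N) (β + 1) *
          flz N α B (β + 1) a b := by
  obtain ⟨e1, e2, e3⟩ := K_Flz_F3 N α B β a b hα hβ hα0 hβ0 (by omega) (by omega)
  have h1 : (if a = 0 then 0 else fF N hL hm (a - 1) * flz N α B β ((a : ℤ) - 1) b) =
      (qh N (2 * hm) * qz N ^ (a : ℤ) - qh N (2 * hL) * qz N ^ (-(a : ℤ))) *
        flz N α B β ((a : ℤ) - 1) b := by
    by_cases h0 : a = 0
    · rw [if_pos h0, flz_neg N (Or.inr (Or.inr (Or.inl (by omega))))]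
      ring
    · rw [if_neg h0, K_Flz_fF N hL hm a h0]
  have h2 : (if b = 0 then 0 else
        qz N ^ (2 * (a : ℤ) - N) * fF N hm hR (b - 1) * flz N α B β a ((b : ℤ) - 1)) =
      qz N ^ (2 * (a : ℤ) - N) * (qh N (2 * hR) * qz N ^ (b : ℤ) -
        qh N (2 * hm) * qz N ^ (-(b : ℤ))) * flz N α B β a ((b : ℤ) - 1) := by
    by_cases h0 : b = 0
    · rw [if_pos h0, flz_neg N (Or.inr (Or.inr (Or.inr (by omega))))]
      ring
    · rw [if_neg h0, K_Flz_fF N hm hR b h0]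
  rw [h1, h2]
  linear_combination (-qh N (2 * hL)) * e1 + qh N (2 * hm) * e2 + qh N (2 * hR) * e3

/-- `e_a ⊗ e_b` as a local vector. -/
theorem flz_basis (N : ℕ) (a b c d : ℕ) : flz N a 0 b c d =
    if c = a ∧ d = b then qz N ^ (-((a : ℤ) * a)) * (ib N a * ib N b) else 0 := by
  unfold flz
  by_cases h : c = a ∧ d = b
  · obtain ⟨rfl, rfl⟩ := h
    rw [if_pos (by ring), if_pos ⟨rfl, rfl⟩, sub_self, sub_self, ib_zero]
    have : (-((c : ℤ) * c) - 0 * (c : ℤ) - 0 * 0 - (d : ℤ) * 0) = -((c : ℤ) * c) := by ring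
    rw [this]
    ring
  · rw [if_neg h]
    by_cases hs : (c : ℤ) + d = (a : ℤ) + 0 + b
    · rw [if_pos hs]
      rcases (show (c : ℤ) - a < 0 ∨ (d : ℤ) - b < 0 by omega) with h1 | h1
      · rw [ib_neg N h1]; ring
      · rw [ib_neg N h1]; ring
    · rw [if_neg hs]

/-! ### One strand of level `J` -/

/-- The rule for `E`. -/
theorem cJ_E (N J : ℕ) (hJ : J ≤ N) (α β : ℤ) (hα : α ≤ N) (hβ : β ≤ N) :
    cJ N J α β * br (qz N) (α + β) =
      -qz N ^ (-2 * (α + β + J)) * cJ N J (α - 1) β + cJ N J α (β - 1) := by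
  have hq := A_Em_qz_ne N
  unfold cJ
  rw [ib_pred N hα, ib_pred N hβ]
  set F := qz N ^ (((N : ℤ) - 2 * J) * α - α * α - α * β) with hF
  have z1 : qz N ^ (-2 * (α + β + J)) *
      qz N ^ (((N : ℤ) - 2 * J) * (α - 1) - (α - 1) * (α - 1) - (α - 1) * β) =
      -(F * qz N ^ (-β)) := by
    rw [hF, ← zpow_add₀ hq, ← zpow_add₀ hq, ← K_Flz_M' N]
    congr 1
    ring
  have z2 : qz N ^ (((N : ℤ) - 2 * J) * α - α * α - α * (β - 1)) = F * qz N ^ α := by
    rw [hF, ← zpow_add₀ hq]; congr 1; ring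
  have z3 : br (qz N) (α + β) = qz N ^ (-β) * br (qz N) α + qz N ^ α * br (qz N) β := by
    unfold br
    have hX : qz N ^ α ≠ 0 := zpow_ne_zero _ hq
    have hY : qz N ^ β ≠ 0 := zpow_ne_zero _ hq
    simp only [neg_add_rev, zpow_add₀ hq, _root_.zpow_neg]
    field_simp
    ring
  rw [z2, z3]
  linear_combination (br (qz N) α * ib N α * ib N β) * z1

/-- The linear relation. -/
theorem cJ_P (N J : ℕ) (hJ : J ≤ N) (α β : ℤ) (hα : α < N) (hβ : β < N) (hα0 : 0 ≤ α) (hβ0 : 0 ≤ β) :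
    br (qz N) (β + 1) * cJ N J α (β + 1) =
      -(qz N ^ (α + β + 2 * J + 2) * br (qz N) (α + 1) * cJ N J (α + 1) β) := by
  have hq := A_Em_qz_ne N
  have s1 := K_Flz_succ N (show α + 1 ≤ N by omega)
  have s2 := K_Flz_succ N (show β + 1 ≤ N by omega)
  unfold cJ
  have z1 : qz N ^ (α + β + 2 * J + 2) *
      qz N ^ (((N : ℤ) - 2 * J) * (α + 1) - (α + 1) * (α + 1) - (α + 1) * β) =
      -qz N ^ (((N : ℤ) - 2 * J) * α - α * α - α * (β + 1)) := by
    rw [← zpow_add₀ hq, ← K_Flz_M N]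
    congr 1
    ring
  linear_combination (br (qz N) (α + 1) * ib N (α + 1) * ib N β) * z1 -
    (qz N ^ (((N : ℤ) - 2 * J) * α - α * α - α * (β + 1)) * ib N β) * s1 +
    (qz N ^ (((N : ℤ) - 2 * J) * α - α * α - α * (β + 1)) * ib N α) * s2

/-- The rule for `F`, on the left. -/
theorem cJ_FL (N J : ℕ) (hJ : J ≤ N) (α β : ℤ) (hα : α < N) (hα0 : 0 ≤ α) :
    qz N ^ α * br (qz N) (α + 1) * cJ N J (α + 1) β =
      -(qz N ^ (2 * (N : ℤ) - 2 * J - α - β) * cJ N J α β) := by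
  have hq := A_Em_qz_ne N
  have s1 := K_Flz_succ N (show α + 1 ≤ N by omega)
  unfold cJ
  have z1 : qz N ^ (2 * (N : ℤ) - 2 * J - α - β) *
      qz N ^ (((N : ℤ) - 2 * J) * α - α * α - α * β) =
      -(qz N ^ α * qz N ^ (((N : ℤ) - 2 * J) * (α + 1) - (α + 1) * (α + 1) - (α + 1) * β)) := by
    rw [← zpow_add₀ hq, ← zpow_add₀ hq, ← K_Flz_M N]
    congr 1
    ring
  linear_combination (ib N α * ib N β) * z1 +
    (qz N ^ α * qz N ^ (((N : ℤ) - 2 * J) * (α + 1) - (α + 1) * (α + 1) - (α + 1) * β) *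
      ib N β) * s1

/-- The rule for `F`, on the right. -/
theorem cJ_FR (N J : ℕ) (hJ : J ≤ N) (α β : ℤ) (hβ : β < N) (hβ0 : 0 ≤ β) :
    qz N ^ (2 * α + β + 2 * J + 2) * br (qz N) (β + 1) * cJ N J α (β + 1) =
      qz N ^ (α + β + 2 * J - 2 * (N : ℤ)) * cJ N J α β := by
  have hq := A_Em_qz_ne N
  have s2 := K_Flz_succ N (show β + 1 ≤ N by omega)
  unfold cJ
  have z1 : qz N ^ (α + β + 2 * J - 2 * (N : ℤ)) *
      qz N ^ (((N : ℤ) - 2 * J) * α - α * α - α * β) =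
      qz N ^ (2 * α + β + 2 * J + 2) *
        qz N ^ (((N : ℤ) - 2 * J) * α - α * α - α * (β + 1)) := by
    rw [← zpow_add₀ hq, ← zpow_add₀ hq, ← neg_neg (qz N ^ (2 * α + β + 2 * (J : ℤ) + 2 +
      (((N : ℤ) - 2 * J) * α - α * α - α * (β + 1)))), ← K_Flz_M' N, ← K_Flz_M' N]
    congr 1
    ring
  linear_combination (-(ib N α * ib N β)) * z1 + (qz N ^ (2 * α + β + 2 * J + 2) *
        qz N ^ (((N : ℤ) - 2 * J) * α - α * α - α * (β + 1)) * ib N α) * s2

theorem cJ_ne (N J : ℕ) (α β : ℕ) (hα : α ≤ N) (hβ : β ≤ N) : cJ N J α β ≠ 0 := by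
  unfold cJ
  rw [ib_nat, ib_nat]
  refine mul_ne_zero (zpow_ne_zero _ (A_Em_qz_ne N)) (mul_ne_zero ?_ ?_)
  · exact inv_ne_zero (A_Em_brf_ne N hα)
  · exact inv_ne_zero (A_Em_brf_ne N hβ)

end Pool.Agent.H63.CLK
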