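import Pool.Agent.H63.CLK.K_Defs

/-!
# All directions, algebra: elementary identities

All are immediate from the definitions (`Complex.exp_add`, ...). `bh_ne_small`: `bh N x = 0` iff
`2 π i x / (N + 1) ∈ 2 π i ℤ`, i.e. `x` is an integer multiple of `N + 1` (`Complex.exp_eq_exp_iff_exists_int`).
-/

set_option autoImplicit false

namespace Pool.Agent.H63.CLK

open Pool.Agent.H63.VC7 Pool.Agent.H63.VC10

theorem qh_add (N : ℕ) (x y : ℂ) : qh N (x + y) = qh N x * qh N y := by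
  unfold qh
  rw [← Complex.exp_add]
  congr 1
  ring

theorem qh_zero (N : ℕ) : qh N 0 = 1 := by
  unfold qh
  rw [mul_zero, zero_div, Complex.exp_zero]

theorem qh_ne (N : ℕ) (x : ℂ) : qh N x ≠ 0 := by
  unfold qh
  exact Complex.exp_ne_zero _

theorem qh_neg (N : ℕ) (x : ℂ) : qh N (-x) = (qh N x)⁻¹ := by
  unfold qh
  rw [← Complex.exp_neg]
  congr 1
  ring

theorem qh_int (N : ℕ) (n : ℤ) : qh N (n : ℂ) = qz N ^ n := by
  unfold qh qz
  rw [← Complex.exp_int_mul]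
  congr 1
  ring

theorem qh_nat (N n : ℕ) : qh N (n : ℂ) = qz N ^ (n : ℤ) := by
  have := qh_int N (n : ℤ)
  rwa [Int.cast_natCast] at this

private theorem K_Id_M (N : ℕ) : ((N + 1 : ℕ) : ℂ) ≠ 0 := by
  exact_mod_cast Nat.succ_ne_zero N

/-- `q ^ M = -1`. -/
theorem qh_M (N : ℕ) : qh N ((N : ℂ) + 1) = -1 := by
  unfold qh
  have h : Real.pi * Complex.I * ((N : ℂ) + 1) / ((N + 1 : ℕ) : ℂ) = Real.pi * Complex.I := by
    have := K_Id_M N
    push_cast at this ⊢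
    field_simp
  rw [h, Complex.exp_pi_mul_I]

theorem bh_int (N : ℕ) (n : ℤ) : bh N (n : ℂ) = br (qz N) n := by
  unfold bh br
  rw [qh_int, ← Int.cast_neg, qh_int]

theorem bh_zero (N : ℕ) : bh N 0 = 0 := by
  unfold bh
  rw [neg_zero, sub_self]

theorem bh_neg (N : ℕ) (x : ℂ) : bh N (-x) = -bh N x := by
  unfold bh
  rw [neg_neg]
  ring

private theorem K_Id_add_M (N : ℕ) (x : ℂ) : bh N (x + ((N : ℂ) + 1)) = -bh N x := by
  unfold bh
  have h1 : qh N (-((N : ℂ) + 1)) = -1 := by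
    rw [qh_neg, qh_M]
    norm_num
  rw [neg_add, qh_add N x ((N : ℂ) + 1), qh_add N (-x) (-((N : ℂ) + 1)), h1, qh_M]
  ring

theorem bh_refl (N : ℕ) (x : ℂ) : bh N ((N : ℂ) + 1 - x) = bh N x := by
  have h := K_Id_add_M N (-x)
  rw [bh_neg, neg_neg] at h
  rw [← h]
  congr 1
  ring

theorem bh_add_M (N : ℕ) (x : ℂ) : bh N (x + ((N : ℂ) + 1)) = -bh N x :=
  K_Id_add_M N x

/-- The addition theorem. -/
theorem bh_add (N : ℕ) (x y : ℂ) : bh N (x + y) = qh N y * bh N x + qh N (-x) * bh N y := by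
  unfold bh
  rw [neg_add, qh_add, qh_add]
  ring

theorem qh_conj (N : ℕ) (x : ℂ) :
    starRingEnd ℂ (qh N x) = qh N (-starRingEnd ℂ x) := by
  unfold qh
  rw [← Complex.exp_conj]
  congr 1
  simp only [map_div₀, map_mul, Complex.conj_ofReal, Complex.conj_I, map_natCast]
  ring

theorem bh_conj (N : ℕ) (x : ℂ) :
    starRingEnd ℂ (bh N x) = -bh N (starRingEnd ℂ x) := by
  unfold bh
  rw [map_sub, qh_conj, qh_conj, map_neg, neg_neg]
  ring

theorem qz_conj_zpow (N : ℕ) (n : ℤ) : starRingEnd ℂ (qz N ^ n) = qz N ^ (-n) := by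
  rw [← qh_int, qh_conj, ← qh_int, Int.cast_neg, map_intCast]

theorem br_conj (N : ℕ) (n : ℤ) : starRingEnd ℂ (br (qz N) n) = -br (qz N) n := by
  rw [← bh_int, bh_conj, map_intCast]

theorem brf_conj (N n : ℕ) : starRingEnd ℂ (brf (qz N) n) = (-1) ^ n * brf (qz N) n := by
  unfold brf
  rw [map_prod]
  have h : ∀ i ∈ Finset.range n, starRingEnd ℂ (br (qz N) ((i : ℤ) + 1)) =
      (-1) * br (qz N) ((i : ℤ) + 1) := by
    intro i _
    rw [br_conj]
    ring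
  rw [Finset.prod_congr rfl h, Finset.prod_mul_distrib, Finset.prod_const, Finset.card_range]

/-- The zeros of `bh`. -/
private theorem K_Id_bh_zero (N : ℕ) (x : ℂ) (h : bh N x = 0) :
    ∃ m : ℤ, x = m * ((N + 1 : ℕ) : ℂ) := by
  unfold bh at h
  rw [sub_eq_zero] at h
  unfold qh at h
  rw [Complex.exp_eq_exp_iff_exists_int] at h
  obtain ⟨m, hm⟩ := h
  refine ⟨m, ?_⟩
  have hM := K_Id_M N
  have hpi : (Real.pi : ℂ) ≠ 0 := by exact_mod_cast Real.pi_ne_zero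
  have hI := Complex.I_ne_zero
  have h2 : (2 * Real.pi * Complex.I) * x = (2 * Real.pi * Complex.I) *
      (m * ((N + 1 : ℕ) : ℂ)) := by
    have h3 : Real.pi * Complex.I * x / ((N + 1 : ℕ) : ℂ) -
        Real.pi * Complex.I * (-x) / ((N + 1 : ℕ) : ℂ) = m * (2 * Real.pi * Complex.I) := by
      rw [hm]
      ring
    have h4 : Real.pi * Complex.I * x / ((N + 1 : ℕ) : ℂ) -
        Real.pi * Complex.I * (-x) / ((N + 1 : ℕ) : ℂ) =
        (2 * Real.pi * Complex.I) * x / ((N + 1 : ℕ) : ℂ) := by ring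
    rw [h4, div_eq_iff hM] at h3
    rw [h3]
    ring
  exact mul_left_cancel₀ (by simp [hpi, hI]) h2

/-- `{n + δ} ≠ 0` for `1 ≤ n ≤ N` and small `δ`. -/
theorem bh_ne_small (N n : ℕ) (δ : ℂ) (h1 : 1 ≤ n) (h2 : n ≤ N) (hδ : ‖δ‖ ≤ 1 / 4) :
    bh N (n + δ) ≠ 0 := by
  intro h
  obtain ⟨m, hm⟩ := K_Id_bh_zero N _ h
  have hd : δ = (((m * ((N + 1 : ℕ) : ℤ) - n : ℤ)) : ℂ) := by
    push_cast
    push_cast at hm
    linear_combination hm
  rw [hd, Complex.norm_intCast] at hδ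
  have h0 : m * ((N + 1 : ℕ) : ℤ) - n ≠ 0 := by
    intro h0
    have h3 : m * ((N + 1 : ℕ) : ℤ) = n := by omega
    rcases lt_or_ge m 1 with hm1 | hm1
    · have : m * ((N + 1 : ℕ) : ℤ) ≤ 0 := mul_nonpos_of_nonpos_of_nonneg (by omega) (by omega)
      omega
    · have : 1 * ((N + 1 : ℕ) : ℤ) ≤ m * ((N + 1 : ℕ) : ℤ) :=
        mul_le_mul_of_nonneg_right hm1 (by omega)
      omega
  have h3 : (1 : ℝ) ≤ |((m * ((N + 1 : ℕ) : ℤ) - n : ℤ) : ℝ)| := by
    rw [← Int.cast_abs]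
    exact_mod_cast Int.one_le_abs h0
  linarith

/-- `{n + δ} ≠ 0` for every integer `n` and small `δ ≠ 0`. -/
theorem bh_ne_small' (N : ℕ) (n : ℤ) (δ : ℂ) (hδ : ‖δ‖ ≤ 1 / 4) (h0 : δ ≠ 0) :
    bh N (n + δ) ≠ 0 := by
  intro h
  obtain ⟨m, hm⟩ := K_Id_bh_zero N _ h
  have hd : δ = (((m * ((N + 1 : ℕ) : ℤ) - n : ℤ)) : ℂ) := by
    push_cast
    push_cast at hm
    linear_combination hm
  have h1 : m * ((N + 1 : ℕ) : ℤ) - n ≠ 0 := by
    intro h1
    rw [h1, Int.cast_zero] at hd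
    exact h0 hd
  rw [hd, Complex.norm_intCast] at hδ
  have h3 : (1 : ℝ) ≤ |((m * ((N + 1 : ℕ) : ℤ) - n : ℤ) : ℝ)| := by
    rw [← Int.cast_abs]
    exact_mod_cast Int.one_le_abs h1
  linarith

theorem qh_diff (N : ℕ) : Differentiable ℂ (qh N) := by
  unfold qh
  fun_prop

theorem bh_diff (N : ℕ) : Differentiable ℂ (bh N) := by
  have h := qh_diff N
  unfold bh
  exact h.sub (h.comp differentiable_neg)

theorem pch_zero (N : ℕ) (p : ℂ) : pch N p 0 = 1 := by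
  rw [pch, Finset.prod_range_zero]

theorem pch_succ (N : ℕ) (p : ℂ) (x : ℕ) : pch N p (x + 1) = pch N p x * bh N (p + x + 1) := by
  unfold pch
  rw [Finset.prod_range_succ]

theorem pch_diff (N x : ℕ) : Differentiable ℂ (fun p => pch N p x) := by
  induction x with
  | zero =>
    have : (fun p => pch N p 0) = fun _ => (1 : ℂ) := by
      ext p
      exact pch_zero N p
    rw [this]
    exact differentiable_const _
  | succ x ih =>
    have : (fun p => pch N p (x + 1)) = fun p => pch N p x * bh N (p + x + 1) := by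
      ext p
      exact pch_succ N p x
    rw [this]
    exact ih.mul ((bh_diff N).comp ((differentiable_id.add_const _).add_const _))

/-- The coefficient of `F` on an undeformed strand. -/
theorem fF_zero (N i : ℕ) : fF N 0 0 i = br (qz N) ((i : ℤ) + 1) := by
  unfold fF
  rw [add_zero, qh_zero, one_mul, ← bh_int]
  congr 1
  push_cast
  ring

theorem fF_ne (N : ℕ) (ha hb : ℂ) (ha' : ‖ha‖ ≤ 1 / 8) (hb' : ‖hb‖ ≤ 1 / 8) (i : ℕ) (hi : i < N) :
    fF N ha hb i ≠ 0 := by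
  unfold fF
  refine mul_ne_zero (qh_ne N _) ?_
  have h := bh_ne_small N (i + 1) (hb - ha) (by omega) (by omega) (by
    calc ‖hb - ha‖ ≤ ‖hb‖ + ‖ha‖ := norm_sub_le _ _
      _ ≤ 1 / 4 := by linarith)
  have e : ((i + 1 : ℕ) : ℂ) + (hb - ha) = i + 1 + hb - ha := by push_cast; ring
  rwa [e] at h

/-- `q ^ (2 h_b + p) - q ^ (2 h_a - p) = q ^ (h_a + h_b) {p + h_b - h_a}`. -/
theorem qh_sub (N : ℕ) (ha hb p : ℂ) :
    qh N (2 * hb + p) - qh N (2 * ha - p) = qh N (ha + hb) * bh N (p + hb - ha) := by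
  unfold bh
  rw [mul_sub, ← qh_add, ← qh_add]
  congr 2 <;> ring

end Pool.Agent.H63.CLK
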