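import Pool.Agent.H63.CLK.K_Mu

/-!
# All directions, algebra: the merging

`MJ_rule`: induction on `B`. `B = 0`: definition of `MJ` and `flz_basis` (`{a}! ib a = 1` for `a ≤ N`; for
`α + β < J` both sides are `0` since one argument of `cJ` is negative). Step: multiply by `{B + 1} ≠ 0`, use `flz_P`
(for `B + 1 ≤ N`; the terms with `α + 1 = N + 1` have the factor `{N + 1} = 0`), the induction hypothesis for
`(α + 1, B, β)` and `(α, B, β + 1)`, and
`q^(α+B+1) {α+1} = q^(B+2 sL) q^(α+1-sL) {α+1-sL} + q^(B+sL) {sL}`,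
`q^(-β-B-1) {β+1} = q^(-B-2 sR) q^(-(β+1-sR)) {β+1-sR} + q^(-B-sR) {sR}`: by `cJ_P` at `(α - sL, β - sR)` the two first
parts cancel for every `(sL, sR)`, `B + sL + sR = J`, and the second parts give the claim by `muP` after a shift of `sL`,
respectively `sR`.

`isMg.E`: on `e_a ⊗ e_b`, termwise by `cJ_E`. `isMg.F`: `e_a ⊗ e_b` is a multiple of `flz a 0 b`; use `flz_F`, `MJ_rule` for
`(a+1, 0, b)`, `(a, 1, b)`, `(a, 0, b+1)`, `cJ_FL`, `cJ_FR` for `F` of `f_n`, the identities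
`q^α {α+1} - q^(α-sL) {α-sL+1} = q^(2α+1-sL) {sL}` and
`q^(2α+2B+β+2) {β+1} - q^(2(α-sL)+(β-sR)+2J+2) {β-sR+1} = q^(2α+1+2B+sR) {sR}` (`B + sL + sR = J`), and `muF` after the
shifts of `sL`, `sR`. Checked numerically for all `N ≤ 4`.
-/

set_option autoImplicit false

namespace Pool.Agent.H63.CLK

open Pool.Agent.H63.VC7 Pool.Agent.H63.VC10

/-! ### Auxiliary lemmas -/

theorem K_Mg_qb (N : ℕ) (a b : ℤ) :
    qz N ^ a * br (qz N) b = qz N ^ (a + b) - qz N ^ (a - b) := by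
  unfold br
  rw [mul_sub, ← zpow_add₀ (A_Em_qz_ne N), ← zpow_add₀ (A_Em_qz_ne N), ← sub_eq_add_neg]

theorem K_Mg_shift (N : ℕ) (f : ℕ → ℂ) (h0 : f 0 = 0) (h1 : f (N + 1) = 0) :
    ∑ s ∈ Finset.range (N + 1), f (s + 1) = ∑ s ∈ Finset.range (N + 1), f s := by
  have a := Finset.sum_range_succ f (N + 1)
  have b := Finset.sum_range_succ' f (N + 1)
  rw [h1, add_zero] at a
  rw [h0, add_zero] at b
  rw [← a, ← b]

theorem K_Mg_cneg (N J : ℕ) {α β : ℤ} (h : α < 0 ∨ β < 0) : cJ N J α β = 0 := by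
  unfold cJ
  rcases h with h | h
  · rw [ib_neg N h]; ring
  · rw [ib_neg N h]; ring

/-- `{α + 1} c (α + 1)` vanishes for negative `α`. -/
theorem K_Mg_cL (N J : ℕ) {α : ℤ} (β : ℤ) (h : α < 0) :
    br (qz N) (α + 1) * cJ N J (α + 1) β = 0 := by
  rcases (show α + 1 < 0 ∨ α + 1 = 0 by omega) with h | h
  · rw [K_Mg_cneg N J (Or.inl h), mul_zero]
  · rw [h, br_zero, zero_mul]

theorem K_Mg_cR (N J : ℕ) (α : ℤ) {β : ℤ} (h : β < 0) :
    br (qz N) (β + 1) * cJ N J α (β + 1) = 0 := by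
  rcases (show β + 1 < 0 ∨ β + 1 = 0 by omega) with h | h
  · rw [K_Mg_cneg N J (Or.inr h), mul_zero]
  · rw [h, br_zero, zero_mul]

theorem K_Mg_cP (N J : ℕ) (hJ : J ≤ N) (α β : ℤ) (hs : α + β < N) :
    br (qz N) (β + 1) * cJ N J α (β + 1) =
      -(qz N ^ (α + β + 2 * J + 2) * br (qz N) (α + 1) * cJ N J (α + 1) β) := by
  rcases lt_or_ge α 0 with hα | hα
  · rw [K_Mg_cneg N J (Or.inl hα), mul_assoc, K_Mg_cL N J β hα]
    ring
  rcases lt_or_ge β 0 with hβ | hβ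
  · rw [K_Mg_cR N J α hβ, K_Mg_cneg N J (Or.inr hβ)]
    ring
  · exact cJ_P N J hJ α β (by omega) (by omega) hα hβ

theorem K_Mg_cFL (N J : ℕ) (hJ : J ≤ N) (α β : ℤ) (hs : α + β < N) :
    qz N ^ α * br (qz N) (α + 1) * cJ N J (α + 1) β =
      -(qz N ^ (2 * (N : ℤ) - 2 * J - α - β) * cJ N J α β) := by
  rcases lt_or_ge α 0 with hα | hα
  · rw [K_Mg_cneg N J (Or.inl hα), mul_assoc, K_Mg_cL N J β hα]
    ring
  rcases lt_or_ge β 0 with hβ | hβ
  · rw [K_Mg_cneg N J (Or.inr hβ), K_Mg_cneg N J (Or.inr hβ)]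
    ring
  · exact cJ_FL N J hJ α β (by omega) hα

theorem K_Mg_cFR (N J : ℕ) (hJ : J ≤ N) (α β : ℤ) (hs : α + β < N) :
    qz N ^ (2 * α + β + 2 * J + 2) * br (qz N) (β + 1) * cJ N J α (β + 1) =
      qz N ^ (α + β + 2 * J - 2 * (N : ℤ)) * cJ N J α β := by
  rcases lt_or_ge β 0 with hβ | hβ
  · rw [K_Mg_cneg N J (Or.inr hβ) (α := α) (β := β), mul_assoc, K_Mg_cR N J α hβ]
    ring
  rcases lt_or_ge α 0 with hα | hα
  · rw [K_Mg_cneg N J (Or.inl hα), K_Mg_cneg N J (Or.inl hα)]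
    ring
  · exact cJ_FR N J hJ α β (by omega) hβ

theorem K_Mg_mu0 (N J : ℕ) (h : Fin 4 → ℂ) {B sL sR : ℕ} (hs : B + sL + sR ≠ J) :
    muJ N J h B sL sR = 0 := by
  unfold muJ
  rw [if_neg hs]

theorem K_Mg_muP (N J : ℕ) (h : Fin 4 → ℂ) (hJ : J ≤ N) (B sL sR : ℕ) :
    br (qz N) ((B : ℤ) + 1) * muJ N J h (B + 1) sL sR =
      qz N ^ ((B : ℤ) + sL + 1) * br (qz N) ((sL : ℤ) + 1) * muJ N J h B (sL + 1) sR +
        qz N ^ (-(B : ℤ) - sR - 1) * br (qz N) ((sR : ℤ) + 1) * muJ N J h B sL (sR + 1) := by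
  by_cases hs : B + sL + sR + 1 = J
  · exact muP N J h hJ B sL sR hs
  · rw [K_Mg_mu0 N J h (B := B + 1) (by omega), K_Mg_mu0 N J h (sL := sL + 1) (by omega),
      K_Mg_mu0 N J h (sR := sR + 1) (by omega)]
    ring

theorem K_Mg_muF (N J : ℕ) (h : Fin 4 → ℂ) (hJ : J ≤ N) (B sL sR : ℕ) :
    -(qh N (2 * h 3) * qz N ^ (-(sL : ℤ) - 1) * br (qz N) ((sL : ℤ) + 1) * muJ N J h B (sL + 1) sR) +
      qh N (2 * h 2) * qz N ^ (B : ℤ) * br (qz N) ((B : ℤ) + 1) * muJ N J h (B + 1) sL sR -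
      qh N (2 * h 1) * qz N ^ (2 * (B : ℤ) + sR + 1) * br (qz N) ((sR : ℤ) + 1) *
        muJ N J h B sL (sR + 1) = 0 := by
  by_cases hs : B + sL + sR + 1 = J
  · exact muF N J h hJ B sL sR hs
  · rw [K_Mg_mu0 N J h (B := B + 1) (by omega), K_Mg_mu0 N J h (sL := sL + 1) (by omega),
      K_Mg_mu0 N J h (sR := sR + 1) (by omega)]
    ring

/-- The right side of the rule. -/
noncomputable def K_Mg_R (N J : ℕ) (h : Fin 4 → ℂ) (α : ℤ) (B : ℕ) (β : ℤ) : ℂ :=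
  ∑ sL ∈ Finset.range (N + 1), ∑ sR ∈ Finset.range (N + 1),
    muJ N J h B sL sR * cJ N J (α - sL) (β - sR)

/-- The two shifts. -/
theorem K_Mg_shL (N J : ℕ) (h : Fin 4 → ℂ) (hJ : J ≤ N) (α β : ℤ) (B : ℕ) (w : ℤ → ℂ) :
    ∑ sL ∈ Finset.range (N + 1), ∑ sR ∈ Finset.range (N + 1),
      w ((sL : ℤ) + 1) * br (qz N) ((sL : ℤ) + 1) * muJ N J h B (sL + 1) sR *
        cJ N J (α - sL) (β - sR) =
    ∑ sL ∈ Finset.range (N + 1), ∑ sR ∈ Finset.range (N + 1),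
      w sL * br (qz N) (sL : ℤ) * muJ N J h B sL sR * cJ N J (α + 1 - sL) (β - sR) := by
  rw [← K_Mg_shift N (fun sL => ∑ sR ∈ Finset.range (N + 1),
      w sL * br (qz N) (sL : ℤ) * muJ N J h B sL sR * cJ N J (α + 1 - sL) (β - sR))]
  · refine Finset.sum_congr rfl fun sL _ => Finset.sum_congr rfl fun sR _ => ?_
    push_cast
    rw [show α + 1 - ((sL : ℤ) + 1) = α - sL by ring]
  · refine Finset.sum_eq_zero fun sR _ => ?_
    rw [Nat.cast_zero, br_zero]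
    ring
  · refine Finset.sum_eq_zero fun sR _ => ?_
    rw [K_Mg_mu0 N J h (sL := N + 1) (by omega)]
    ring

theorem K_Mg_shR (N J : ℕ) (h : Fin 4 → ℂ) (hJ : J ≤ N) (α β : ℤ) (B : ℕ) (w : ℤ → ℂ) :
    ∑ sL ∈ Finset.range (N + 1), ∑ sR ∈ Finset.range (N + 1),
      w ((sR : ℤ) + 1) * br (qz N) ((sR : ℤ) + 1) * muJ N J h B sL (sR + 1) *
        cJ N J (α - sL) (β - sR) =
    ∑ sL ∈ Finset.range (N + 1), ∑ sR ∈ Finset.range (N + 1),
      w sR * br (qz N) (sR : ℤ) * muJ N J h B sL sR * cJ N J (α - sL) (β + 1 - sR) := by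
  refine Finset.sum_congr rfl fun sL _ => ?_
  rw [← K_Mg_shift N (fun sR => w sR * br (qz N) (sR : ℤ) * muJ N J h B sL sR *
    cJ N J (α - sL) (β + 1 - sR))]
  · refine Finset.sum_congr rfl fun sR _ => ?_
    push_cast
    rw [show β + 1 - ((sR : ℤ) + 1) = β - sR by ring]
  · rw [Nat.cast_zero, br_zero]
    ring
  · rw [K_Mg_mu0 N J h (sR := N + 1) (by omega)]
    ring

/-- The linear relation. -/
theorem K_Mg_RP (N J : ℕ) (h : Fin 4 → ℂ) (hJ : J ≤ N) (α β : ℤ) (B : ℕ)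
    (hs : α + B + β < (J : ℤ) + N) :
    br (qz N) ((B : ℤ) + 1) * K_Mg_R N J h α (B + 1) β =
      qz N ^ (α + B + 1) * br (qz N) (α + 1) * K_Mg_R N J h (α + 1) B β +
        qz N ^ (-β - B - 1) * br (qz N) (β + 1) * K_Mg_R N J h α B (β + 1) := by
  have hL : br (qz N) ((B : ℤ) + 1) * K_Mg_R N J h α (B + 1) β =
      (∑ sL ∈ Finset.range (N + 1), ∑ sR ∈ Finset.range (N + 1),
        qz N ^ ((B : ℤ) + ((sL : ℤ) + 1)) * br (qz N) ((sL : ℤ) + 1) * muJ N J h B (sL + 1) sR *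
          cJ N J (α - sL) (β - sR)) +
      ∑ sL ∈ Finset.range (N + 1), ∑ sR ∈ Finset.range (N + 1),
        qz N ^ (-(B : ℤ) - ((sR : ℤ) + 1)) * br (qz N) ((sR : ℤ) + 1) * muJ N J h B sL (sR + 1) *
          cJ N J (α - sL) (β - sR) := by
    unfold K_Mg_R
    rw [Finset.mul_sum, ← Finset.sum_add_distrib]
    refine Finset.sum_congr rfl fun sL _ => ?_
    rw [Finset.mul_sum, ← Finset.sum_add_distrib]
    refine Finset.sum_congr rfl fun sR _ => ?_
    have := K_Mg_muP N J h hJ B sL sR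
    rw [← mul_assoc, this, add_mul, show (B : ℤ) + ((sL : ℤ) + 1) = (B : ℤ) + sL + 1 by ring,
      show -(B : ℤ) - ((sR : ℤ) + 1) = -(B : ℤ) - sR - 1 by ring]
  rw [hL, K_Mg_shL N J h hJ α β B (fun x => qz N ^ ((B : ℤ) + x)),
    K_Mg_shR N J h hJ α β B (fun x => qz N ^ (-(B : ℤ) - x))]
  unfold K_Mg_R
  rw [Finset.mul_sum, Finset.mul_sum, ← Finset.sum_add_distrib, ← Finset.sum_add_distrib]
  refine Finset.sum_congr rfl fun sL _ => ?_
  rw [Finset.mul_sum, Finset.mul_sum, ← Finset.sum_add_distrib, ← Finset.sum_add_distrib]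
  refine Finset.sum_congr rfl fun sR _ => ?_
  by_cases hJs : B + sL + sR = J
  swap
  · rw [K_Mg_mu0 N J h hJs]
    ring
  have hc := K_Mg_cP N J hJ (α - sL) (β - sR) (by omega)
  rw [show α - (sL : ℤ) + 1 = α + 1 - sL by ring, show β - (sR : ℤ) + 1 = β + 1 - sR by ring] at hc
  generalize muJ N J h B sL sR = m
  generalize cJ N J (α + 1 - sL) (β - sR) = c1 at *
  generalize cJ N J (α - sL) (β + 1 - sR) = c2 at *
  have e1 : qz N ^ (α + B + 1) * br (qz N) (α + 1) =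
      qz N ^ ((B : ℤ) + sL + α + 1) * br (qz N) (α + 1 - sL) + qz N ^ ((B : ℤ) + sL) * br (qz N) sL := by
    rw [K_Mg_qb, K_Mg_qb, K_Mg_qb, show α + B + 1 + (α + 1) = (B : ℤ) + sL + α + 1 + (α + 1 - sL) by ring,
      show α + B + 1 - (α + 1) = (B : ℤ) + sL - sL by ring,
      show (B : ℤ) + sL + α + 1 - (α + 1 - sL) = (B : ℤ) + sL + sL by ring]
    ring
  have e2 : qz N ^ (-β - B - 1) * br (qz N) (β + 1) =
      qz N ^ (-(B : ℤ) - sR - β - 1) * br (qz N) (β + 1 - sR) +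
        qz N ^ (-(B : ℤ) - sR) * br (qz N) sR := by
    rw [K_Mg_qb, K_Mg_qb, K_Mg_qb, show -β - B - 1 + (β + 1) = -(B : ℤ) - sR + sR by ring,
      show -β - B - 1 - (β + 1) = -(B : ℤ) - sR - β - 1 - (β + 1 - sR) by ring,
      show -(B : ℤ) - sR - β - 1 + (β + 1 - sR) = -(B : ℤ) - sR - sR by ring]
    ring
  have e3 : qz N ^ (-(B : ℤ) - sR - β - 1) * qz N ^ (α - sL + (β - sR) + 2 * (J : ℤ) + 2) =
      qz N ^ ((B : ℤ) + sL + α + 1) := by
    rw [← zpow_add₀ (A_Em_qz_ne N)]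
    congr 1
    subst hJs
    push_cast
    ring
  rw [e1, e2]
  linear_combination (-(qz N ^ (-(B : ℤ) - sR - β - 1)) * m) * hc +
    (br (qz N) (α + 1 - sL) * c1 * m) * e3

/-- The rule for `F`. -/
theorem K_Mg_RF (N J : ℕ) (h : Fin 4 → ℂ) (hJ : J ≤ N) (a b : ℤ)
    (hs : a + b < (J : ℤ) + N) :
    -(qh N (2 * h 3) * (qz N ^ a * br (qz N) (a + 1)) * K_Mg_R N J h (a + 1) 0 b) +
      qh N (2 * h 2) * (qz N ^ (2 * a + 1) * br (qz N) 1) * K_Mg_R N J h a 1 b -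
      qh N (2 * h 1) * (qz N ^ (2 * a + b + 2) * br (qz N) (b + 1)) * K_Mg_R N J h a 0 (b + 1) =
    (qh N (2 * h 3) * qz N ^ (2 * (N : ℤ) - J - a - b) -
      qh N (2 * h 1) * qz N ^ (a + b + J - 2 * (N : ℤ))) * K_Mg_R N J h a 0 b := by
  have hz : -(qh N (2 * h 3) * qz N ^ (2 * a + 1) *
        ∑ sL ∈ Finset.range (N + 1), ∑ sR ∈ Finset.range (N + 1),
          qz N ^ (-(sL : ℤ)) * br (qz N) (sL : ℤ) * muJ N J h 0 sL sR *
            cJ N J (a + 1 - sL) (b - sR)) +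
      qh N (2 * h 2) * (qz N ^ (2 * a + 1) * br (qz N) 1) * K_Mg_R N J h a 1 b -
      qh N (2 * h 1) * qz N ^ (2 * a + 1) *
        ∑ sL ∈ Finset.range (N + 1), ∑ sR ∈ Finset.range (N + 1),
          qz N ^ (sR : ℤ) * br (qz N) (sR : ℤ) * muJ N J h 0 sL sR *
            cJ N J (a - sL) (b + 1 - sR) = 0 := by
    rw [← K_Mg_shL N J h hJ a b 0 (fun x => qz N ^ (-x)), ← K_Mg_shR N J h hJ a b 0 (fun x => qz N ^ x)]
    unfold K_Mg_R
    rw [Finset.mul_sum, Finset.mul_sum, Finset.mul_sum, ← Finset.sum_neg_distrib,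
      ← Finset.sum_add_distrib, ← Finset.sum_sub_distrib]
    refine Finset.sum_eq_zero fun sL _ => ?_
    rw [Finset.mul_sum, Finset.mul_sum, Finset.mul_sum, ← Finset.sum_neg_distrib,
      ← Finset.sum_add_distrib, ← Finset.sum_sub_distrib]
    refine Finset.sum_eq_zero fun sR _ => ?_
    have hm := K_Mg_muF N J h hJ 0 sL sR
    rw [Nat.cast_zero, zpow_zero, zero_add, mul_one, mul_zero, zero_add, zero_add,
      show -(sL : ℤ) - 1 = -((sL : ℤ) + 1) by ring] at hm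
    linear_combination (qz N ^ (2 * a + 1) * cJ N J (a - sL) (b - sR)) * hm
  have hL : (qz N ^ a * br (qz N) (a + 1)) * K_Mg_R N J h (a + 1) 0 b =
      -(qz N ^ (2 * (N : ℤ) - J - a - b) * K_Mg_R N J h a 0 b) +
        qz N ^ (2 * a + 1) * ∑ sL ∈ Finset.range (N + 1), ∑ sR ∈ Finset.range (N + 1),
          qz N ^ (-(sL : ℤ)) * br (qz N) (sL : ℤ) * muJ N J h 0 sL sR *
            cJ N J (a + 1 - sL) (b - sR) := by
    unfold K_Mg_R
    rw [Finset.mul_sum, Finset.mul_sum, Finset.mul_sum, ← Finset.sum_neg_distrib,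
      ← Finset.sum_add_distrib]
    refine Finset.sum_congr rfl fun sL _ => ?_
    rw [Finset.mul_sum, Finset.mul_sum, Finset.mul_sum, ← Finset.sum_neg_distrib,
      ← Finset.sum_add_distrib]
    refine Finset.sum_congr rfl fun sR _ => ?_
    by_cases hJs : 0 + sL + sR = J
    swap
    · rw [K_Mg_mu0 N J h hJs]
      ring
    have hc := K_Mg_cFL N J hJ (a - sL) (b - sR) (by omega)
    rw [show 2 * (N : ℤ) - 2 * J - (a - sL) - (b - sR) = 2 * (N : ℤ) - J - a - b by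
      subst hJs; push_cast; ring, show a - (sL : ℤ) + 1 = a + 1 - sL by ring] at hc
    have e1 : qz N ^ a * br (qz N) (a + 1) =
        qz N ^ (a - sL) * br (qz N) (a + 1 - sL) +
          qz N ^ (2 * a + 1) * (qz N ^ (-(sL : ℤ)) * br (qz N) (sL : ℤ)) := by
      rw [K_Mg_qb, K_Mg_qb, K_Mg_qb, mul_sub (qz N ^ (2 * a + 1)), ← zpow_add₀ (A_Em_qz_ne N),
        ← zpow_add₀ (A_Em_qz_ne N),
        show a + (a + 1) = 2 * a + 1 + (-(sL : ℤ) + sL) by ring,
        show a - (a + 1) = a - sL - (a + 1 - sL) by ring,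
        show a - sL + (a + 1 - sL) = 2 * a + 1 + (-(sL : ℤ) - sL) by ring]
      ring
    rw [e1]
    linear_combination (muJ N J h 0 sL sR) * hc
  have hR : (qz N ^ (2 * a + b + 2) * br (qz N) (b + 1)) * K_Mg_R N J h a 0 (b + 1) =
      qz N ^ (a + b + J - 2 * (N : ℤ)) * K_Mg_R N J h a 0 b +
        qz N ^ (2 * a + 1) * ∑ sL ∈ Finset.range (N + 1), ∑ sR ∈ Finset.range (N + 1),
          qz N ^ (sR : ℤ) * br (qz N) (sR : ℤ) * muJ N J h 0 sL sR *
            cJ N J (a - sL) (b + 1 - sR) := by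
    unfold K_Mg_R
    rw [Finset.mul_sum, Finset.mul_sum, Finset.mul_sum, ← Finset.sum_add_distrib]
    refine Finset.sum_congr rfl fun sL _ => ?_
    rw [Finset.mul_sum, Finset.mul_sum, Finset.mul_sum, ← Finset.sum_add_distrib]
    refine Finset.sum_congr rfl fun sR _ => ?_
    by_cases hJs : 0 + sL + sR = J
    swap
    · rw [K_Mg_mu0 N J h hJs]
      ring
    have hc := K_Mg_cFR N J hJ (a - sL) (b - sR) (by omega)
    rw [show a - (sL : ℤ) + (b - sR) + 2 * J - 2 * (N : ℤ) = a + b + J - 2 * (N : ℤ) by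
      subst hJs; push_cast; ring, show b - (sR : ℤ) + 1 = b + 1 - sR by ring] at hc
    have e1 : qz N ^ (2 * a + b + 2) * br (qz N) (b + 1) =
        qz N ^ (2 * (a - sL) + (b - sR) + 2 * (J : ℤ) + 2) * br (qz N) (b + 1 - sR) +
          qz N ^ (2 * a + 1) * (qz N ^ (sR : ℤ) * br (qz N) (sR : ℤ)) := by
      rw [K_Mg_qb, K_Mg_qb, K_Mg_qb, mul_sub (qz N ^ (2 * a + 1)), ← zpow_add₀ (A_Em_qz_ne N),
        ← zpow_add₀ (A_Em_qz_ne N),
        show 2 * (a - sL) + (b - sR) + 2 * (J : ℤ) + 2 + (b + 1 - sR) = 2 * a + b + 2 + (b + 1) by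
          subst hJs; push_cast; ring,
        show 2 * (a - sL) + (b - sR) + 2 * (J : ℤ) + 2 - (b + 1 - sR) = 2 * a + 1 + (sR + sR) by
          subst hJs; push_cast; ring,
        show 2 * a + b + 2 - (b + 1) = 2 * a + 1 + ((sR : ℤ) - sR) by ring]
      ring
    rw [e1]
    linear_combination (muJ N J h 0 sL sR) * hc
  linear_combination hz - (qh N (2 * h 3)) * hL - (qh N (2 * h 1)) * hR

theorem K_Mg_R0 (N J : ℕ) (h : Fin 4 → ℂ) (hJ : J ≤ N) (a b : ℤ) :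
    K_Mg_R N J h a 0 b = ∑ s ∈ Finset.range (J + 1), muJ N J h 0 s (J - s) *
      cJ N J (a - s) (b - (J - s)) := by
  unfold K_Mg_R
  symm
  have hsub : Finset.range (J + 1) ⊆ Finset.range (N + 1) := by
    intro x hx
    rw [Finset.mem_range] at *
    omega
  rw [← Finset.sum_subset hsub (f := fun sL => ∑ sR ∈ Finset.range (N + 1),
    muJ N J h 0 sL sR * cJ N J (a - sL) (b - sR))]
  · refine Finset.sum_congr rfl fun s hs => ?_
    rw [Finset.mem_range] at hs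
    rw [Finset.sum_eq_single (J - s)]
    · rw [Nat.cast_sub (by omega)]
    · intro x _ hx
      rw [K_Mg_mu0 N J h (by omega), zero_mul]
    · intro hx
      exact absurd (Finset.mem_range.2 (by omega)) hx
  · intro x _ hx
    rw [Finset.mem_range] at hx
    refine Finset.sum_eq_zero fun y _ => ?_
    rw [K_Mg_mu0 N J h (by omega), zero_mul]

theorem K_Mg_R0_low (N J : ℕ) (h : Fin 4 → ℂ) (a b : ℤ) (hs : a + b < J) :
    K_Mg_R N J h a 0 b = 0 := by
  unfold K_Mg_R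
  refine Finset.sum_eq_zero fun sL _ => Finset.sum_eq_zero fun sR _ => ?_
  by_cases hJs : 0 + sL + sR = J
  · rw [K_Mg_cneg N J (by omega), mul_zero]
  · rw [K_Mg_mu0 N J h hJs, zero_mul]

theorem K_Mg_brf_M (N : ℕ) : brf (qz N) (N + 1) = 0 := by
  rw [brf_succ, A_Em_br_M, mul_zero]

theorem K_Mg_MJ (N J : ℕ) (h : Fin 4 → ℂ) (hJ : J ≤ N) (a b : ℕ) (ha : a ≤ N + 1) (hb : b ≤ N + 1)
    (hs : a + b ≤ J + N) :
    MJ N J h a b = qz N ^ ((a : ℤ) * a) * (brf (qz N) a * brf (qz N) b) * K_Mg_R N J h a 0 b := by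
  unfold MJ
  by_cases h1 : J ≤ a + b
  · by_cases h2 : a ≤ N
    · by_cases h3 : b ≤ N
      · rw [if_pos ⟨h1, hs, h2, h3⟩, K_Mg_R0 N J h hJ]
      · rw [if_neg (by omega)]
        obtain rfl : b = N + 1 := by omega
        rw [K_Mg_brf_M]
        ring
    · rw [if_neg (by omega)]
      obtain rfl : a = N + 1 := by omega
      rw [K_Mg_brf_M]
      ring
  · rw [if_neg (by omega), K_Mg_R0_low N J h a b (by omega), mul_zero]

theorem K_Mg_R_neg (N J : ℕ) (h : Fin 4 → ℂ) (α β : ℤ) (B : ℕ) (hn : α < 0 ∨ β < 0) :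
    K_Mg_R N J h α B β = 0 := by
  unfold K_Mg_R
  refine Finset.sum_eq_zero fun sL _ => Finset.sum_eq_zero fun sR _ => ?_
  rw [K_Mg_cneg N J (by omega), mul_zero]

theorem K_Mg_MJ_out (N J : ℕ) (h : Fin 4 → ℂ) {a b : ℕ} (hs : J + N < a + b) :
    MJ N J h a b = 0 := by
  unfold MJ
  rw [if_neg (by omega)]

theorem K_Mg_sum_basis (N J : ℕ) (h : Fin 4 → ℂ) (α β : ℕ) (hα : α ≤ N) (hβ : β ≤ N) :
    ∑ y : I2 N, MJ N J h y.1 y.2 * flz N α 0 β (y.1 : ℕ) (y.2 : ℕ) =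
      MJ N J h α β * (qz N ^ (-((α : ℤ) * α)) * (ib N α * ib N β)) := by
  rw [Finset.sum_eq_single ((⟨α, by omega⟩, ⟨β, by omega⟩) : I2 N)]
  · rw [flz_basis, if_pos ⟨rfl, rfl⟩]
  · rintro ⟨c, d⟩ _ hne
    rw [flz_basis, if_neg, mul_zero]
    rintro ⟨h1, h2⟩
    exact hne (Prod.ext (Fin.ext h1) (Fin.ext h2))
  · intro hx
    exact absurd (Finset.mem_univ _) hx

theorem K_Mg_rule (N J : ℕ) (h : Fin 4 → ℂ) (hJ : J ≤ N) (B : ℕ) (hB : B ≤ N) :
    ∀ α β : ℕ, α ≤ N → β ≤ N →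
    ∑ y : I2 N, MJ N J h y.1 y.2 * flz N α B β (y.1 : ℕ) (y.2 : ℕ) =
      if α + B + β ≤ J + N then K_Mg_R N J h α B β else 0 := by
  induction B with
  | zero =>
    intro α β hα hβ
    rw [Nat.cast_zero, K_Mg_sum_basis N J h α β hα hβ, add_zero]
    split_ifs with hs
    · rw [K_Mg_MJ N J h hJ α β (by omega) (by omega) hs, ib_nat, ib_nat]
      have h1 := A_Em_brf_ne N hα
      have h2 := A_Em_brf_ne N hβ
      have h3 : qz N ^ ((α : ℤ) * α) * qz N ^ (-((α : ℤ) * α)) = 1 := by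
        rw [← zpow_add₀ (A_Em_qz_ne N), add_neg_cancel, zpow_zero]
      have h4 : brf (qz N) α * (brf (qz N) α)⁻¹ = 1 := mul_inv_cancel₀ h1
      have h5 : brf (qz N) β * (brf (qz N) β)⁻¹ = 1 := mul_inv_cancel₀ h2
      calc qz N ^ ((α : ℤ) * α) * (brf (qz N) α * brf (qz N) β) * K_Mg_R N J h α 0 β *
            (qz N ^ (-((α : ℤ) * α)) * ((brf (qz N) α)⁻¹ * (brf (qz N) β)⁻¹)) =
          (qz N ^ ((α : ℤ) * α) * qz N ^ (-((α : ℤ) * α))) *
            (brf (qz N) α * (brf (qz N) α)⁻¹) * (brf (qz N) β * (brf (qz N) β)⁻¹) *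
            K_Mg_R N J h α 0 β := by ring
        _ = K_Mg_R N J h α 0 β := by rw [h3, h4, h5]; ring
    · rw [K_Mg_MJ_out N J h (by omega), zero_mul]
  | succ B ih =>
    intro α β hα hβ
    have ih := ih (by omega)
    have hne : br (qz N) ((B : ℤ) + 1) ≠ 0 := A_Em_br_ne N (by omega) (by omega)
    apply mul_left_cancel₀ hne
    have hstep : br (qz N) ((B : ℤ) + 1) *
        ∑ y : I2 N, MJ N J h y.1 y.2 * flz N α ((B + 1 : ℕ) : ℤ) β (y.1 : ℕ) (y.2 : ℕ) =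
        qz N ^ ((α : ℤ) + B + 1) * (br (qz N) ((α : ℤ) + 1) *
          ∑ y : I2 N, MJ N J h y.1 y.2 * flz N ((α : ℤ) + 1) B β (y.1 : ℕ) (y.2 : ℕ)) +
        qz N ^ (-(β : ℤ) - B - 1) * (br (qz N) ((β : ℤ) + 1) *
          ∑ y : I2 N, MJ N J h y.1 y.2 * flz N α B ((β : ℤ) + 1) (y.1 : ℕ) (y.2 : ℕ)) := by
      rw [Finset.mul_sum, Finset.mul_sum, Finset.mul_sum, Finset.mul_sum, Finset.mul_sum,
        ← Finset.sum_add_distrib]
      refine Finset.sum_congr rfl fun y _ => ?_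
      have hP := flz_P N α B β (y.1 : ℕ) (y.2 : ℕ) (by omega) (by omega) (by omega) (by omega)
        (by omega) (by omega) (by omega) (by have := y.1.2; omega) (by omega)
        (by have := y.2.2; omega)
      rw [Nat.cast_succ]
      linear_combination (MJ N J h y.1 y.2) * hP
    have hA : br (qz N) ((α : ℤ) + 1) *
        ∑ y : I2 N, MJ N J h y.1 y.2 * flz N ((α : ℤ) + 1) B β (y.1 : ℕ) (y.2 : ℕ) =
        br (qz N) ((α : ℤ) + 1) *
          if α + 1 + B + β ≤ J + N then K_Mg_R N J h ((α : ℤ) + 1) B β else 0 := by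
      rcases Nat.lt_or_ge α N with h1 | h1
      · have := ih (α + 1) β (by omega) hβ
        rw [Nat.cast_succ] at this
        rw [this]
      · obtain rfl : α = N := by omega
        rw [A_Em_br_M, zero_mul, zero_mul]
    have hC : br (qz N) ((β : ℤ) + 1) *
        ∑ y : I2 N, MJ N J h y.1 y.2 * flz N α B ((β : ℤ) + 1) (y.1 : ℕ) (y.2 : ℕ) =
        br (qz N) ((β : ℤ) + 1) *
          if α + B + (β + 1) ≤ J + N then K_Mg_R N J h α B ((β : ℤ) + 1) else 0 := by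
      rcases Nat.lt_or_ge β N with h1 | h1
      · have := ih α (β + 1) hα (by omega)
        rw [Nat.cast_succ] at this
        rw [this]
      · obtain rfl : β = N := by omega
        rw [A_Em_br_M, zero_mul, zero_mul]
    rw [hstep, hA, hC]
    by_cases hs : α + (B + 1) + β ≤ J + N
    · rw [if_pos hs, if_pos (by omega), if_pos (by omega)]
      have hR := K_Mg_RP N J h hJ α β B (by omega)
      rw [hR]
      ring
    · rw [if_neg hs, if_neg (by omega), if_neg (by omega)]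
      ring

theorem MJ_rule (N J : ℕ) (h : Fin 4 → ℂ) (hJ : J ≤ N) (α B β : ℕ) (hα : α ≤ N) (hB : B ≤ N)
    (hβ : β ≤ N) :
    ∑ y : I2 N, MJ N J h y.1 y.2 * flz N α B β (y.1 : ℕ) (y.2 : ℕ) =
      if α + B + β ≤ J + N then ∑ sL ∈ Finset.range (N + 1), ∑ sR ∈ Finset.range (N + 1),
        muJ N J h B sL sR * cJ N J ((α : ℤ) - sL) ((β : ℤ) - sR) else 0 :=
  K_Mg_rule N J h hJ B hB α β hα hβ

theorem K_Mg_RE (N J : ℕ) (h : Fin 4 → ℂ) (hJ : J ≤ N) (a b : ℤ) (ha : a ≤ N) (hb : b ≤ N) :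
    br (qz N) (a + b - J) * K_Mg_R N J h a 0 b =
      -(qz N ^ (-2 * (a + b)) * K_Mg_R N J h (a - 1) 0 b) + K_Mg_R N J h a 0 (b - 1) := by
  unfold K_Mg_R
  rw [Finset.mul_sum, Finset.mul_sum, ← Finset.sum_neg_distrib, ← Finset.sum_add_distrib]
  refine Finset.sum_congr rfl fun sL _ => ?_
  rw [Finset.mul_sum, Finset.mul_sum, ← Finset.sum_neg_distrib, ← Finset.sum_add_distrib]
  refine Finset.sum_congr rfl fun sR _ => ?_
  by_cases hJs : 0 + sL + sR = J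
  swap
  · rw [K_Mg_mu0 N J h hJs]
    ring
  have hc := cJ_E N J hJ (a - sL) (b - sR) (by omega) (by omega)
  rw [show a - (sL : ℤ) + (b - sR) + J = a + b by subst hJs; push_cast; ring,
    show a - (sL : ℤ) + (b - sR) = a + b - J by subst hJs; push_cast; ring,
    show a - (sL : ℤ) - 1 = a - 1 - sL by ring, show b - (sR : ℤ) - 1 = b - 1 - sR by ring] at hc
  linear_combination (muJ N J h 0 sL sR) * hc

theorem K_Mg_fF (N : ℕ) (ha hb : ℂ) (i : ℕ) : fF N ha hb i =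
    qh N (2 * hb) * qz N ^ ((i : ℤ) + 1) - qh N (2 * ha) * qz N ^ (-((i : ℤ) + 1)) := by
  unfold fF
  rw [← qh_sub N ha hb ((i : ℂ) + 1), ← qh_int, ← qh_int, ← qh_add, ← qh_add]
  push_cast
  rw [sub_eq_add_neg (2 * ha) ((i : ℂ) + 1)]

theorem K_Mg_fJ (N J : ℕ) (hL hR : ℂ) (n : ℤ) : fJ N J hL hR n =
    qh N (2 * hL) * qz N ^ (-(2 * (J : ℤ) + n + 2)) - qh N (2 * hR) * qz N ^ (2 * (J : ℤ) + n + 2) := by
  unfold fJ
  rw [← qh_sub N hL hR (2 * (J : ℂ) + n + 2), ← qh_int, ← qh_int, ← qh_add, ← qh_add]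
  push_cast
  rw [sub_eq_add_neg (2 * hL) (2 * (J : ℂ) + n + 2)]
  ring

theorem isMg (N J : ℕ) (h : Fin 4 → ℂ) (hJ : J ≤ N) :
    IsMg N J (h 3) (h 2) (h 1) (MJ N J h) := by
  have hq := A_Em_qz_ne N
  have hM := A_Em_qz_M N
  refine ⟨?_, ?_, ?_⟩
  · intro a b hn
    unfold MJ
    rw [if_neg hn]
  · intro a b ha hb
    rcases Nat.lt_or_ge (J + N + 1) (a + b) with hlt | hge
    · rw [K_Mg_MJ_out N J h (show J + N < a + b by omega),
        K_Mg_MJ_out N J h (show J + N < a - 1 + b by omega),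
        K_Mg_MJ_out N J h (show J + N < a + (b - 1) by omega)]
      ring
    · have hA : br (qz N) a * qz N ^ ((N : ℤ) - 2 * b) * MJ N J h (a - 1) b =
          -(qz N ^ ((a : ℤ) * a) * (brf (qz N) a * brf (qz N) b) * qz N ^ (-2 * ((a : ℤ) + b)) *
            K_Mg_R N J h ((a : ℤ) - 1) 0 b) := by
        rcases Nat.eq_zero_or_pos a with h0 | h0
        · subst h0
          rw [Nat.cast_zero, br_zero, K_Mg_R_neg N J h _ _ _ (Or.inl (by omega))]
          ring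
        · obtain ⟨a, rfl⟩ : ∃ m, a = m + 1 := ⟨a - 1, by omega⟩
          rw [Nat.add_sub_cancel, K_Mg_MJ N J h hJ a b (by omega) (by omega) (by omega), brf_succ,
            Nat.cast_succ, show (a : ℤ) + 1 - 1 = a by ring]
          have z : qz N ^ ((N : ℤ) - 2 * b) * qz N ^ ((a : ℤ) * a) =
              -(qz N ^ (((a : ℤ) + 1) * ((a : ℤ) + 1)) * qz N ^ (-2 * ((a : ℤ) + 1 + b))) := by
            rw [← zpow_add₀ hq, ← zpow_add₀ hq,
              show (N : ℤ) - 2 * b + (a : ℤ) * a = (((a : ℤ) + 1) * ((a : ℤ) + 1) +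
                -2 * ((a : ℤ) + 1 + b)) + ((N : ℤ) + 1) by ring, zpow_add₀ hq, hM]
            ring
          linear_combination (br (qz N) ((a : ℤ) + 1) * (brf (qz N) a * brf (qz N) b) *
            K_Mg_R N J h a 0 b) * z
      have hB : br (qz N) b * MJ N J h a (b - 1) =
          qz N ^ ((a : ℤ) * a) * (brf (qz N) a * brf (qz N) b) *
            K_Mg_R N J h a 0 ((b : ℤ) - 1) := by
        rcases Nat.eq_zero_or_pos b with h0 | h0
        · subst h0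
          rw [Nat.cast_zero, br_zero, K_Mg_R_neg N J h _ _ _ (Or.inr (by omega))]
          ring
        · obtain ⟨b, rfl⟩ : ∃ m, b = m + 1 := ⟨b - 1, by omega⟩
          rw [Nat.add_sub_cancel, K_Mg_MJ N J h hJ a b (by omega) (by omega) (by omega), brf_succ,
            Nat.cast_succ, show (b : ℤ) + 1 - 1 = b by ring]
          ring
      have hC : br (qz N) ((a : ℤ) + b - J) * MJ N J h a b =
          qz N ^ ((a : ℤ) * a) * (brf (qz N) a * brf (qz N) b) *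
            (br (qz N) ((a : ℤ) + b - J) * K_Mg_R N J h a 0 b) := by
        rcases Nat.lt_or_ge (J + N) (a + b) with h1 | h1
        · rw [show (a : ℤ) + b - J = (N : ℤ) + 1 by omega, A_Em_br_M]
          ring
        · rw [K_Mg_MJ N J h hJ a b (by omega) (by omega) h1]
          ring
      rw [hA, hB, hC, K_Mg_RE N J h hJ a b (by omega) (by omega)]
      ring
  · intro a b ha hb hs
    rw [K_Mg_MJ N J h hJ (a + 1) b (by omega) (by omega) (by omega),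
      K_Mg_MJ N J h hJ a (b + 1) (by omega) (by omega) (by omega),
      K_Mg_MJ N J h hJ a b (by omega) (by omega) (by omega), brf_succ, brf_succ, K_Mg_fF, K_Mg_fF,
      K_Mg_fJ, Nat.cast_succ, Nat.cast_succ]
    have hF := K_Mg_RF N J h hJ a b (by omega)
    have hP := K_Mg_RP N J h hJ a b 0 (by push_cast; omega)
    rw [Nat.cast_zero, zero_add, add_zero, sub_zero] at hP
    have z0 : qz N ^ (((a : ℤ) + 1) * ((a : ℤ) + 1)) = qz N ^ ((a : ℤ) * a) * qz N ^ (2 * (a : ℤ) + 1) := by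
      rw [← zpow_add₀ hq]
      congr 1
      ring
    have z1 : qz N ^ (-((a : ℤ) + 1)) * qz N ^ (2 * (a : ℤ) + 1) = qz N ^ (a : ℤ) := by
      rw [← zpow_add₀ hq]
      congr 1
      ring
    have z2 : qz N ^ ((b : ℤ) + 1) * qz N ^ (2 * (a : ℤ) + 1) = qz N ^ (2 * (a : ℤ) + b + 2) := by
      rw [← zpow_add₀ hq]
      congr 1
      ring
    have z3 : qz N ^ (2 * (a : ℤ) - N) = -qz N ^ (2 * (a : ℤ) + 1) := by
      rw [show 2 * (a : ℤ) + 1 = (2 * (a : ℤ) - N) + ((N : ℤ) + 1) by ring, zpow_add₀ hq, hM]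
      ring
    have hM2 : qz N ^ ((N : ℤ) + 1) * qz N ^ ((N : ℤ) + 1) = 1 := by
      rw [hM]
      ring
    have z4 : qz N ^ (2 * (N : ℤ) - J - a - b) = qz N ^ (-(2 * (J : ℤ) + ((a : ℤ) + b - J) + 2)) := by
      rw [show 2 * (N : ℤ) - J - a - b = -(2 * (J : ℤ) + ((a : ℤ) + b - J) + 2) +
        (((N : ℤ) + 1) + ((N : ℤ) + 1)) by ring, zpow_add₀ hq, zpow_add₀ hq ((N : ℤ) + 1), hM2]
      ring
    have z5 : qz N ^ ((a : ℤ) + b + J - 2 * (N : ℤ)) = qz N ^ (2 * (J : ℤ) + ((a : ℤ) + b - J) + 2) := by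
      rw [show 2 * (J : ℤ) + ((a : ℤ) + b - J) + 2 = ((a : ℤ) + b + J - 2 * (N : ℤ)) +
        (((N : ℤ) + 1) + ((N : ℤ) + 1)) by ring, zpow_add₀ hq, zpow_add₀ hq ((N : ℤ) + 1), hM2]
      ring
    have z6 : qz N ^ (-(b : ℤ) - 1) = qz N ^ (-((b : ℤ) + 1)) := by
      congr 1
      ring
    rw [z4, z5, ← z1, ← z2] at hF
    rw [z6] at hP
    rw [z0, z3]
    linear_combination (qz N ^ ((a : ℤ) * a) * (brf (qz N) a * brf (qz N) b)) * hF -
      (qz N ^ ((a : ℤ) * a) * (brf (qz N) a * brf (qz N) b) * (qh N (2 * h 2) *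
        qz N ^ (2 * (a : ℤ) + 1))) * hP

/-- The value at the vector of lowest level. -/
theorem MJ_zero (N J : ℕ) (h : Fin 4 → ℂ) (hJ : J ≤ N) (hs : SmallH h) : MJ N J h 0 J ≠ 0 := by
  have h0 : MJ N J h 0 J = brf (qz N) J * (muJ N J h 0 0 J * cJ N J 0 0) := by
    unfold MJ
    rw [if_pos (by omega), Finset.sum_eq_single 0]
    · simp [brf_zero]
    · intro s _ hs0
      rw [K_Mg_cneg N J (Or.inl (by push_cast; omega)), mul_zero]
    · intro hx
      exact absurd (Finset.mem_range.2 (by omega)) hx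
  rw [h0]
  have h1 : muJ N J h 0 0 J ≠ 0 := by
    unfold muJ
    rw [if_pos (by omega)]
    refine mul_ne_zero (mul_ne_zero (qh_ne N _) (mul_ne_zero (mul_ne_zero ?_ ?_) ?_))
      (mul_ne_zero (mul_ne_zero ?_ ?_) ?_)
    · rw [pch_zero]; exact one_ne_zero
    · rw [pch_zero]; exact one_ne_zero
    · unfold pch
      rw [Finset.prod_ne_zero_iff]
      intro i hi
      rw [Finset.mem_range] at hi
      have hδ : ‖h 3 - h 2‖ ≤ 1 / 4 := by
        calc ‖h 3 - h 2‖ ≤ ‖h 3‖ + ‖h 2‖ := norm_sub_le _ _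
          _ ≤ 1 / 8 + 1 / 8 := add_le_add (hs 3) (hs 2)
          _ = 1 / 4 := by norm_num
      have := bh_ne_small N (N - J + i + 1) (h 3 - h 2) (by omega) (by omega) hδ
      rw [show (((N - J + i + 1 : ℕ) : ℂ) + (h 3 - h 2)) = (N : ℂ) - J + h 3 - h 2 + i + 1 by
        push_cast [Nat.cast_sub hJ]; ring] at this
      exact this
    · rw [Nat.cast_zero, ib_zero]; exact one_ne_zero
    · rw [Nat.cast_zero, ib_zero]; exact one_ne_zero
    · rw [ib_nat]; exact inv_ne_zero (A_Em_brf_ne N hJ)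
  have h2 : cJ N J 0 0 ≠ 0 := by
    unfold cJ
    rw [ib_zero]
    exact mul_ne_zero (zpow_ne_zero _ (A_Em_qz_ne N)) (mul_ne_zero one_ne_zero one_ne_zero)
  exact mul_ne_zero (A_Em_brf_ne N hJ) (mul_ne_zero h1 h2)

end Pool.Agent.H63.CLK
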