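import Pool.Agent.H63.CLK.K_Flz

/-!
# All directions, algebra: the relations of the weights `muJ`, `nuJ`

With `x = J - sL + h_R - h_b`, `y = J - sR + h_b - h_L` (at `B + sL + sR + 1 = J`) one has
`muJ B (sL+1) sR = μ q^(h_R - h_L) {x} / {sL + 1}`, `muJ B sL (sR+1) = μ {y} / {sR + 1}`,
`muJ (B+1) sL sR = μ q^(h_R - h_b) {x + y} / {B + 1}` for a common `μ` (`bh_refl`: `{N - J + (i + 1) + δ} =
{J - i - δ}`, `ib_pred`), and everything follows from `bh_add`: `{x + y} = q^y {x} + q^(-x) {y}`.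

Likewise with `x = J + 1 + sL + h_R - h_t`, `y = J + 1 + sR + h_t - h_L` (at `J + sL + sR < N`) one has
`nuJ (sL+1) sR = -ν q^(h_t - h_R + h_R - h_L) {J + sL + sR + 1} {x} / ({x + y} {sL + 1})`; to avoid the division by
`{x + y}` (which can vanish) write both sides with the factor `pch N (N - J + h_L - h_R) (N - J - sL - sR - 1)`:
`nuJ (sL+1) sR = ν' q^(h_R - h_L) {x} / {sL + 1}`, `nuJ sL (sR+1) = ν' {y} / {sR + 1}` and
`{J + sL + sR + 1} nuJ sL sR = -ν' q^(h_R - h_t) {x + y}` for a common `ν'` (`{N - J - s} = {J + s + 1}`,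
`{2 N - 2 J - s + η} = -{2 J + 2 + s - η}` by `bh_refl`, `bh_add_M`, `bh_neg`). In (νF) the identity needed is, with
`u = q^(2 h)`, `u_L q^(-sL) · q^(h_R - h_L) {x} - ... `, again from `bh_add` and `qh_add`.
Checked numerically.
-/

set_option autoImplicit false

namespace Pool.Agent.H63.CLK

open Pool.Agent.H63.VC7 Pool.Agent.H63.VC10

variable (N J : ℕ) (h : Fin 4 → ℂ)

/-- The addition theorem, the other form. -/
private theorem K_Mu_add' (x y : ℂ) : bh N (x + y) = qh N (-y) * bh N x + qh N x * bh N y := by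
  rw [add_comm x y, bh_add]
  ring

/-- `{s + 1} / (s + 1)! = 1 / s!`. -/
private theorem K_Mu_ib (s : ℕ) (hs : s + 1 ≤ N) :
    br (qz N) ((s : ℤ) + 1) * ib N ((s + 1 : ℕ) : ℤ) = ib N s := by
  have := ib_pred N (show ((s : ℤ) + 1) ≤ N by omega)
  rw [show (s : ℤ) + 1 - 1 = s by ring] at this
  rw [this]
  push_cast
  rfl

/-- the common factor of the weights of the merging -/
private noncomputable def K_Mu_m (B sL sR : ℕ) : ℂ :=
  qh N ((h 1 - h 2) * B + (h 1 - h 3) * sL) *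
    (pch N (J + h 1 - h 3) B * pch N (N - J + h 2 - h 1) sL * pch N (N - J + h 3 - h 2) sR) *
    (ib N B * ib N sL * ib N sR)

private theorem K_Mu_L (hJ : J ≤ N) (B sL sR : ℕ) (hs : B + sL + sR + 1 = J) :
    br (qz N) ((sL : ℤ) + 1) * muJ N J h B (sL + 1) sR =
      K_Mu_m N J h B sL sR * (qh N (h 1 - h 3) * bh N (J - sL + h 1 - h 2)) := by
  have e1 := K_Mu_ib N sL (by omega)
  rw [muJ, if_pos (by omega), K_Mu_m, pch_succ, ← e1,
    show (N : ℂ) - J + h 2 - h 1 + sL + 1 = (N : ℂ) + 1 - (J - sL + h 1 - h 2) by ring, bh_refl,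
    show (h 1 - h 2) * (B : ℂ) + (h 1 - h 3) * ((sL + 1 : ℕ) : ℂ) =
      ((h 1 - h 2) * B + (h 1 - h 3) * sL) + (h 1 - h 3) by push_cast; ring, qh_add]
  ring

private theorem K_Mu_R (hJ : J ≤ N) (B sL sR : ℕ) (hs : B + sL + sR + 1 = J) :
    br (qz N) ((sR : ℤ) + 1) * muJ N J h B sL (sR + 1) =
      K_Mu_m N J h B sL sR * bh N (J - sR + h 2 - h 3) := by
  have e1 := K_Mu_ib N sR (by omega)
  rw [muJ, if_pos (by omega), K_Mu_m, pch_succ, ← e1,
    show (N : ℂ) - J + h 3 - h 2 + sR + 1 = (N : ℂ) + 1 - (J - sR + h 2 - h 3) by ring, bh_refl]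
  ring

private theorem K_Mu_B (hJ : J ≤ N) (B sL sR : ℕ) (hs : B + sL + sR + 1 = J) :
    br (qz N) ((B : ℤ) + 1) * muJ N J h (B + 1) sL sR =
      K_Mu_m N J h B sL sR * (qh N (h 1 - h 2) *
        bh N ((J - sL + h 1 - h 2) + (J - sR + h 2 - h 3))) := by
  have e1 := K_Mu_ib N B (by omega)
  have e2 : (J : ℂ) = B + sL + sR + 1 := by rw [← hs]; push_cast; ring
  rw [muJ, if_pos (by omega), K_Mu_m, pch_succ, ← e1,
    show (J : ℂ) + h 1 - h 3 + B + 1 = (J - sL + h 1 - h 2) + (J - sR + h 2 - h 3) by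
      rw [e2]; ring,
    show (h 1 - h 2) * ((B + 1 : ℕ) : ℂ) + (h 1 - h 3) * (sL : ℂ) =
      ((h 1 - h 2) * B + (h 1 - h 3) * sL) + (h 1 - h 2) by push_cast; ring, qh_add]
  ring

theorem muP (hJ : J ≤ N) (B sL sR : ℕ) (hs : B + sL + sR + 1 = J) :
    br (qz N) ((B : ℤ) + 1) * muJ N J h (B + 1) sL sR =
      qz N ^ ((B : ℤ) + sL + 1) * br (qz N) ((sL : ℤ) + 1) * muJ N J h B (sL + 1) sR +
        qz N ^ (-(B : ℤ) - sR - 1) * br (qz N) ((sR : ℤ) + 1) * muJ N J h B sL (sR + 1) := by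
  have e2 : (J : ℂ) = B + sL + sR + 1 := by rw [← hs]; push_cast; ring
  rw [mul_assoc, mul_assoc, K_Mu_L N J h hJ B sL sR hs, K_Mu_R N J h hJ B sL sR hs,
    K_Mu_B N J h hJ B sL sR hs, bh_add, ← qh_int, ← qh_int]
  have a1 : qh N (h 1 - h 2) * qh N (J - sR + h 2 - h 3) =
      qh N (((B : ℤ) + sL + 1 : ℤ) : ℂ) * qh N (h 1 - h 3) := by
    rw [← qh_add, ← qh_add, e2]
    congr 1
    push_cast
    ring
  have a2 : qh N (h 1 - h 2) * qh N (-(J - sL + h 1 - h 2)) =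
      qh N ((-(B : ℤ) - sR - 1 : ℤ) : ℂ) := by
    rw [← qh_add, e2]
    congr 1
    push_cast
    ring
  linear_combination (K_Mu_m N J h B sL sR * bh N (J - sL + h 1 - h 2)) * a1 +
    (K_Mu_m N J h B sL sR * bh N (J - sR + h 2 - h 3)) * a2

theorem muF (hJ : J ≤ N) (B sL sR : ℕ) (hs : B + sL + sR + 1 = J) :
    -(qh N (2 * h 3) * qz N ^ (-(sL : ℤ) - 1) * br (qz N) ((sL : ℤ) + 1) * muJ N J h B (sL + 1) sR) +
      qh N (2 * h 2) * qz N ^ (B : ℤ) * br (qz N) ((B : ℤ) + 1) * muJ N J h (B + 1) sL sR -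
      qh N (2 * h 1) * qz N ^ (2 * (B : ℤ) + sR + 1) * br (qz N) ((sR : ℤ) + 1) *
        muJ N J h B sL (sR + 1) = 0 := by
  have e2 : (J : ℂ) = B + sL + sR + 1 := by rw [← hs]; push_cast; ring
  rw [mul_assoc, mul_assoc _ _ (muJ N J h (B + 1) sL sR), mul_assoc _ _ (muJ N J h B sL (sR + 1)),
    K_Mu_L N J h hJ B sL sR hs, K_Mu_R N J h hJ B sL sR hs,
    K_Mu_B N J h hJ B sL sR hs, K_Mu_add', ← qh_int, ← qh_int, ← qh_int]
  have a1 : qh N (2 * h 2) * qh N (((B : ℤ) : ℤ) : ℂ) * (qh N (h 1 - h 2) *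
      qh N (-(J - sR + h 2 - h 3))) =
      qh N (2 * h 3) * qh N ((-(sL : ℤ) - 1 : ℤ) : ℂ) * qh N (h 1 - h 3) := by
    simp only [← qh_add]
    rw [e2]
    congr 1
    push_cast
    ring
  have a2 : qh N (2 * h 2) * qh N (((B : ℤ) : ℤ) : ℂ) * (qh N (h 1 - h 2) *
      qh N (J - sL + h 1 - h 2)) =
      qh N (2 * h 1) * qh N ((2 * (B : ℤ) + sR + 1 : ℤ) : ℂ) := by
    simp only [← qh_add]
    rw [e2]
    congr 1
    push_cast
    ring
  linear_combination (K_Mu_m N J h B sL sR * bh N (J - sL + h 1 - h 2)) * a1 +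
    (K_Mu_m N J h B sL sR * bh N (J - sR + h 2 - h 3)) * a2

/-- the common factor of the weights of the splitting -/
private noncomputable def K_Mu_n (sL sR : ℕ) : ℂ :=
  qh N ((h 0 - h 1) * (J + sL + sR + 1) + (h 1 - h 3) * sL) *
    (pch N (N - J + h 3 - h 1) (N - J - sL - sR - 1) * pch N (J + h 1 - h 0) sL *
      pch N (J + h 0 - h 3) sR) *
    (ib N ((N : ℤ) - J - sL - sR - 1) * ib N sL * ib N sR)

private theorem K_Mu_nL (sL sR : ℕ) (hs : J + sL + sR < N) :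
    br (qz N) ((sL : ℤ) + 1) * nuJ N J h (sL + 1) sR =
      K_Mu_n N J h sL sR * (qh N (h 1 - h 3) * bh N (J + 1 + sL + h 1 - h 0)) := by
  have e1 := K_Mu_ib N sL (by omega)
  rw [nuJ, if_pos (by omega), K_Mu_n, pch_succ, ← e1,
    show (J : ℂ) + h 1 - h 0 + sL + 1 = J + 1 + sL + h 1 - h 0 by ring,
    show N - J - (sL + 1) - sR = N - J - sL - sR - 1 by omega,
    show (N : ℤ) - J - ((sL + 1 : ℕ) : ℤ) - sR = (N : ℤ) - J - sL - sR - 1 by push_cast; ring,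
    show (h 0 - h 1) * ((J : ℂ) + ((sL + 1 : ℕ) : ℂ) + sR) + (h 1 - h 3) * ((sL + 1 : ℕ) : ℂ) =
      ((h 0 - h 1) * (J + sL + sR + 1) + (h 1 - h 3) * sL) + (h 1 - h 3) by push_cast; ring,
    qh_add]
  ring

private theorem K_Mu_nR (sL sR : ℕ) (hs : J + sL + sR < N) :
    br (qz N) ((sR : ℤ) + 1) * nuJ N J h sL (sR + 1) =
      K_Mu_n N J h sL sR * bh N (J + 1 + sR + h 0 - h 3) := by
  have e1 := K_Mu_ib N sR (by omega)
  rw [nuJ, if_pos (by omega), K_Mu_n, pch_succ, ← e1,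
    show (J : ℂ) + h 0 - h 3 + sR + 1 = J + 1 + sR + h 0 - h 3 by ring,
    show N - J - sL - (sR + 1) = N - J - sL - sR - 1 by omega,
    show (N : ℤ) - J - sL - ((sR + 1 : ℕ) : ℤ) = (N : ℤ) - J - sL - sR - 1 by push_cast; ring,
    show (h 0 - h 1) * ((J : ℂ) + sL + ((sR + 1 : ℕ) : ℂ)) + (h 1 - h 3) * (sL : ℂ) =
      (h 0 - h 1) * (J + sL + sR + 1) + (h 1 - h 3) * sL by push_cast; ring]
  ring

private theorem K_Mu_nB (sL sR : ℕ) (hs : J + sL + sR < N) :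
    br (qz N) ((J : ℤ) + sL + sR + 1) * nuJ N J h sL sR =
      -(K_Mu_n N J h sL sR * (qh N (h 1 - h 0) *
        bh N ((J + 1 + sL + h 1 - h 0) + (J + 1 + sR + h 0 - h 3)))) := by
  have e1 := ib_pred N (show ((N : ℤ) - J - sL - sR) ≤ N by omega)
  have e2 := A_Em_refl N ((J : ℤ) + sL + sR + 1)
  rw [show (N : ℤ) + 1 - (J + sL + sR + 1) = (N : ℤ) - J - sL - sR by ring] at e2
  rw [e2] at e1
  obtain ⟨m, hm⟩ : ∃ m, N - J - sL - sR = m + 1 := ⟨N - J - sL - sR - 1, by omega⟩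
  have hm' : N - J - sL - sR - 1 = m := by omega
  have e3 : (N : ℂ) = J + sL + sR + m + 1 := by
    have : N = J + sL + sR + m + 1 := by omega
    rw [this]; push_cast; ring
  have e4 : bh N ((N : ℂ) - J + h 3 - h 1 + m + 1) =
      -bh N ((J + 1 + sL + h 1 - h 0) + (J + 1 + sR + h 0 - h 3)) := by
    have e6 := bh_add_M N ((J + 1 + sL + h 1 - h 0) + (J + 1 + sR + h 0 - h 3) - ((N : ℂ) + 1))
    rw [sub_add_cancel] at e6
    rw [e6, neg_neg, ← bh_refl]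
    congr 1
    linear_combination e3
  have e5 : qh N ((h 0 - h 1) * ((J : ℂ) + sL + sR) + (h 1 - h 3) * sL) =
      qh N ((h 0 - h 1) * (J + sL + sR + 1) + (h 1 - h 3) * sL) * qh N (h 1 - h 0) := by
    rw [← qh_add]
    congr 1
    ring
  rw [nuJ, if_pos (by omega), K_Mu_n, hm', hm, pch_succ, e1, e4, e5]
  ring

theorem nuP (hJ : J ≤ N) (sL sR : ℕ) (hs : J + sL + sR ≤ N) :
    qz N ^ ((sL : ℤ) - sR) * br (qz N) ((J : ℤ) + sL + sR + 1) * nuJ N J h sL sR +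
      qz N ^ ((J : ℤ) + sL + 1) * br (qz N) ((sL : ℤ) + 1) * nuJ N J h (sL + 1) sR +
      qz N ^ (-(J : ℤ) - sR - 1) * br (qz N) ((sR : ℤ) + 1) * nuJ N J h sL (sR + 1) = 0 := by
  rcases hs.lt_or_eq with hs | hs
  swap
  · rw [show (J : ℤ) + sL + sR + 1 = (N : ℤ) + 1 by omega, A_Em_br_M,
      show nuJ N J h (sL + 1) sR = 0 by rw [nuJ, if_neg (by omega)],
      show nuJ N J h sL (sR + 1) = 0 by rw [nuJ, if_neg (by omega)]]
    ring
  rw [mul_assoc, mul_assoc _ _ (nuJ N J h (sL + 1) sR), mul_assoc _ _ (nuJ N J h sL (sR + 1)),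
    K_Mu_nL N J h sL sR hs, K_Mu_nR N J h sL sR hs, K_Mu_nB N J h sL sR hs, bh_add,
    ← qh_int, ← qh_int, ← qh_int]
  have a1 : qh N (((sL : ℤ) - sR : ℤ) : ℂ) * (qh N (h 1 - h 0) *
      qh N (J + 1 + sR + h 0 - h 3)) =
      qh N (((J : ℤ) + sL + 1 : ℤ) : ℂ) * qh N (h 1 - h 3) := by
    simp only [← qh_add]
    congr 1
    push_cast
    ring
  have a2 : qh N (((sL : ℤ) - sR : ℤ) : ℂ) * (qh N (h 1 - h 0) *
      qh N (-(J + 1 + sL + h 1 - h 0))) =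
      qh N ((-(J : ℤ) - sR - 1 : ℤ) : ℂ) := by
    simp only [← qh_add]
    congr 1
    push_cast
    ring
  linear_combination (-(K_Mu_n N J h sL sR * bh N (J + 1 + sL + h 1 - h 0))) * a1 -
    (K_Mu_n N J h sL sR * bh N (J + 1 + sR + h 0 - h 3)) * a2

theorem nuF (hJ : J ≤ N) (sL sR : ℕ) (hs : J + sL + sR ≤ N) :
    qh N (2 * h 3) * qz N ^ (-(sL : ℤ)) * br (qz N) ((sL : ℤ) + 1) * nuJ N J h (sL + 1) sR +
      qh N (2 * h 0) * qz N ^ (-2 * (sL : ℤ) + J + (sL + sR) + 1) *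
        br (qz N) ((J : ℤ) + sL + sR + 1) * nuJ N J h sL sR +
      qh N (2 * h 1) * qz N ^ (2 * (J : ℤ) + sR + 2) * br (qz N) ((sR : ℤ) + 1) *
        nuJ N J h sL (sR + 1) = 0 := by
  rcases hs.lt_or_eq with hs | hs
  swap
  · rw [show (J : ℤ) + sL + sR + 1 = (N : ℤ) + 1 by omega, A_Em_br_M,
      show nuJ N J h (sL + 1) sR = 0 by rw [nuJ, if_neg (by omega)],
      show nuJ N J h sL (sR + 1) = 0 by rw [nuJ, if_neg (by omega)]]
    ring
  rw [mul_assoc, mul_assoc _ _ (nuJ N J h sL sR), mul_assoc _ _ (nuJ N J h sL (sR + 1)),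
    K_Mu_nL N J h sL sR hs, K_Mu_nR N J h sL sR hs, K_Mu_nB N J h sL sR hs, K_Mu_add',
    ← qh_int, ← qh_int, ← qh_int]
  have a1 : qh N (2 * h 0) * qh N ((-2 * (sL : ℤ) + J + (sL + sR) + 1 : ℤ) : ℂ) *
      (qh N (h 1 - h 0) * qh N (-(J + 1 + sR + h 0 - h 3))) =
      qh N (2 * h 3) * qh N ((-(sL : ℤ) : ℤ) : ℂ) * qh N (h 1 - h 3) := by
    simp only [← qh_add]
    congr 1
    push_cast
    ring
  have a2 : qh N (2 * h 0) * qh N ((-2 * (sL : ℤ) + J + (sL + sR) + 1 : ℤ) : ℂ) *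
      (qh N (h 1 - h 0) * qh N (J + 1 + sL + h 1 - h 0)) =
      qh N (2 * h 1) * qh N ((2 * (J : ℤ) + sR + 2 : ℤ) : ℂ) := by
    simp only [← qh_add]
    congr 1
    push_cast
    ring
  linear_combination (-(K_Mu_n N J h sL sR * bh N (J + 1 + sL + h 1 - h 0))) * a1 -
    (K_Mu_n N J h sL sR * bh N (J + 1 + sR + h 0 - h 3)) * a2

end Pool.Agent.H63.CLK
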