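import Pool.Agent.H63.CLK.K_Mu

/-!
# All directions, algebra: the splitting

Let `R α β = ∑ nuJ sL sR flz (α - sL) (J + sL + sR) (β - sR)`.

(1) `{β+1} R α (β+1) = - q^(α+β+2J+2) {α+1} R (α+1) β` for `α, β < N` (same for `cJ`, `cJ_P`): multiply by
`q^(-β-J-1)`, use `q^(α+J+1) {α+1} = q^(J+2 sL) q^(α+1-sL) {α+1-sL} + q^(J+sL) {sL}` and
`q^(-β-J-1) {β+1} = q^(-J-2 sR) q^(-(β+1-sR)) {β+1-sR} + q^(-J-sR) {sR}`, then `flz_P` at `(α - sL, J + sL + sR, β - sR)`, which
turns the sum of the two first parts into `q^(sL-sR) {J+sL+sR+1} flz (α-sL) (J+sL+sR+1) (β-sR)`, and `nuP` after shifts.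

(2) `R α β = cJ α β • SJ` for `α + β ≤ N`: induction on `β`, from (1); `β = 0` is the definition of `SJ` (`cJ α 0 ≠ 0`).

(3) `R α β = 0` for `α + β > N`, `α, β ≤ N`: induction on `α + β`. By `flz_E`, `E (R α β) = - q^(-2(α+β+J)) R (α-1) β +
R α (β-1)`, which is `0` by induction, respectively by (2) and `cJ_E` (`{N + 1} = 0`). A vector `v` of level `T > N`
(`v c d ≠ 0` only for `c + d = T`) with `E v = 0` vanishes: `E v (N, T-1-N) = 0` gives `v (N, T-N) = 0` (as `{N+1} = 0`), then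
`v (c, T - c) = 0` for `c = N - 1, N - 2, …`.

`isSp.E`: `f_n = R n 0 / cJ n 0`; `flz_E` and `cJ_E` (`R (n-1) 0`), for `n = N + 1` by (3) or by `{N + 1} = 0`. `isSp.F`:
`F (R α β) = - q^(2 hL) q^α {α+1} R (α+1) β - q^(2 hR) q^(2α+2J+β+2) {β+1} R α (β+1)`: by `flz_F`, termwise, with
`q^α {α+1} - q^(α-sL-1) {α-sL} = q^(2α-sL) {sL+1}`,
`q^(2α+2J+β+2) {β+1} - q^(2α+2J+sR+β+3) {β-sR} = q^(2α+2J+sR+2) {sR+1}` and `nuF`; then `cJ_FL`, `cJ_FR` (for `n < N`), and for
`n = N` both terms on the right vanish by (3). Checked numerically for all `N ≤ 4`.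
-/

set_option autoImplicit false

namespace Pool.Agent.H63.CLK

open Pool.Agent.H63.VC7 Pool.Agent.H63.VC10

/-! ### Auxiliary facts -/

theorem K_Sp_nu0 (N J : ℕ) (h : Fin 4 → ℂ) {s t : ℕ} (hs : N < J + s + t) :
    nuJ N J h s t = 0 := by
  rw [nuJ, if_neg (by omega)]

theorem K_Sp_zb (N : ℕ) (x y : ℤ) :
    qz N ^ x * br (qz N) y = qz N ^ (x + y) - qz N ^ (x - y) := by
  have hq := A_Em_qz_ne N
  rw [br, mul_sub, ← zpow_add₀ hq, ← zpow_add₀ hq, ← sub_eq_add_neg]

theorem K_Sp_flzP (N : ℕ) (α B β a b : ℤ) (hα : α ≤ N) (hβ : β ≤ N) (hB : B ≤ N)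
    (hB0 : 0 ≤ B) (ha : 0 ≤ a) (ha' : a ≤ N) (hb : 0 ≤ b) (hb' : b ≤ N) :
    br (qz N) (B + 1) * flz N α (B + 1) β a b =
      qz N ^ (α + B + 1) * br (qz N) (α + 1) * flz N (α + 1) B β a b +
        qz N ^ (-β - B - 1) * br (qz N) (β + 1) * flz N α B (β + 1) a b := by
  by_cases hα0 : α < 0
  · rw [flz_neg N (Or.inl hα0), flz_neg N (Or.inl hα0)]
    rcases (show α = -1 ∨ α + 1 < 0 by omega) with h1 | h1
    · rw [h1, show (-1 : ℤ) + 1 = 0 by norm_num, br_zero]; ring
    · rw [flz_neg N (Or.inl h1)]; ring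
  by_cases hβ0 : β < 0
  · rw [flz_neg N (Or.inr (Or.inl hβ0)), flz_neg N (Or.inr (Or.inl hβ0))]
    rcases (show β = -1 ∨ β + 1 < 0 by omega) with h1 | h1
    · rw [h1, show (-1 : ℤ) + 1 = 0 by norm_num, br_zero]; ring
    · rw [flz_neg N (Or.inr (Or.inl h1))]; ring
  exact flz_P N α B β a b hα hβ hB (by omega) (by omega) hB0 ha ha' hb hb'

theorem K_Sp_flzF (N : ℕ) (hL hm hR : ℂ) (α B β : ℤ) (a b : ℕ) (hα : α ≤ N) (hβ : β ≤ N)
    (hB : B ≤ N) (hB0 : 0 ≤ B) (ha' : a ≤ N) (hb' : b ≤ N) :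
    (if a = 0 then 0 else fF N hL hm (a - 1) * flz N α B β ((a : ℤ) - 1) b) +
      (if b = 0 then 0 else
        qz N ^ (2 * (a : ℤ) - N) * fF N hm hR (b - 1) * flz N α B β a ((b : ℤ) - 1)) =
      -(qh N (2 * hL) * qz N ^ α * br (qz N) (α + 1) * flz N (α + 1) B β a b) +
        qh N (2 * hm) * qz N ^ (2 * α + B + 1) * br (qz N) (B + 1) * flz N α (B + 1) β a b -
        qh N (2 * hR) * qz N ^ (2 * α + 2 * B + β + 2) * br (qz N) (β + 1) *
          flz N α B (β + 1) a b := by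
  by_cases hα0 : α < 0
  · rw [flz_neg N (Or.inl hα0), flz_neg N (Or.inl hα0), flz_neg N (Or.inl hα0),
      flz_neg N (Or.inl hα0)]
    rcases (show α = -1 ∨ α + 1 < 0 by omega) with h1 | h1
    · rw [h1, show (-1 : ℤ) + 1 = 0 by norm_num, br_zero]; simp
    · rw [flz_neg N (Or.inl h1)]; simp
  by_cases hβ0 : β < 0
  · rw [flz_neg N (Or.inr (Or.inl hβ0)), flz_neg N (Or.inr (Or.inl hβ0)),
      flz_neg N (Or.inr (Or.inl hβ0)), flz_neg N (Or.inr (Or.inl hβ0))]
    rcases (show β = -1 ∨ β + 1 < 0 by omega) with h1 | h1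
    · rw [h1, show (-1 : ℤ) + 1 = 0 by norm_num, br_zero]; simp
    · rw [flz_neg N (Or.inr (Or.inl h1))]; simp
  exact flz_F N hL hm hR α B β a b hα hβ hB (by omega) (by omega) hB0 ha' hb'

theorem K_Sp_shift (N : ℕ) (f : ℕ → ℂ) (h0 : f 0 = 0) (hN : f (N + 1) = 0) :
    ∑ s ∈ Finset.range (N + 1), f s = ∑ s ∈ Finset.range (N + 1), f (s + 1) := by
  rw [Finset.sum_range_succ', h0, add_zero, Finset.sum_range_succ (fun s => f (s + 1)), hN,
    add_zero]

theorem K_Sp_dshift (N : ℕ) (A B C : ℕ → ℕ → ℂ) (hA0 : ∀ t, A 0 t = 0)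
    (hAN : ∀ t, A (N + 1) t = 0) (hC0 : ∀ s, C s 0 = 0) (hCN : ∀ s, C s (N + 1) = 0) :
    ∑ s ∈ Finset.range (N + 1), ∑ t ∈ Finset.range (N + 1), (A s t + B s t + C s t) =
      ∑ s ∈ Finset.range (N + 1), ∑ t ∈ Finset.range (N + 1),
        (A (s + 1) t + B s t + C s (t + 1)) := by
  simp only [Finset.sum_add_distrib]
  congr 1
  · congr 1
    rw [Finset.sum_comm, Finset.sum_comm (f := fun s t => A (s + 1) t)]
    exact Finset.sum_congr rfl fun t _ => K_Sp_shift N (fun s => A s t) (hA0 t) (hAN t)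
  · exact Finset.sum_congr rfl fun s _ => K_Sp_shift N (fun t => C s t) (hC0 s) (hCN s)

/-! ### The vector `R α β` -/

/-- The coefficient of `e_a ⊗ e_b` in `R α β`. -/
noncomputable def K_Sp_R (N J : ℕ) (h : Fin 4 → ℂ) (α β a b : ℤ) : ℂ :=
  ∑ sL ∈ Finset.range (N + 1), ∑ sR ∈ Finset.range (N + 1), nuJ N J h sL sR *
    flz N (α - sL) (J + sL + sR) (β - sR) a b

theorem K_Sp_tot (N J : ℕ) (h : Fin 4 → ℂ) {α β a b : ℤ} (hs : a + b ≠ α + β + J) :
    K_Sp_R N J h α β a b = 0 := by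
  unfold K_Sp_R
  refine Finset.sum_eq_zero fun s _ => Finset.sum_eq_zero fun t _ => ?_
  rw [flz, if_neg (by omega), mul_zero]

theorem K_Sp_negL (N J : ℕ) (h : Fin 4 → ℂ) {α β a b : ℤ} (hs : α < 0) :
    K_Sp_R N J h α β a b = 0 := by
  unfold K_Sp_R
  refine Finset.sum_eq_zero fun s _ => Finset.sum_eq_zero fun t _ => ?_
  rw [flz_neg N (Or.inl (by omega)), mul_zero]

theorem K_Sp_negR (N J : ℕ) (h : Fin 4 → ℂ) {α β a b : ℤ} (hs : β < 0) :
    K_Sp_R N J h α β a b = 0 := by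
  unfold K_Sp_R
  refine Finset.sum_eq_zero fun s _ => Finset.sum_eq_zero fun t _ => ?_
  rw [flz_neg N (Or.inr (Or.inl (by omega))), mul_zero]

/-- The first relation. -/
theorem K_Sp_rec (N J : ℕ) (h : Fin 4 → ℂ) (hJ : J ≤ N) {α β a b : ℤ} (hα : α ≤ N) (hβ : β ≤ N)
    (ha : 0 ≤ a) (ha' : a ≤ N) (hb : 0 ≤ b) (hb' : b ≤ N) :
    qz N ^ (-β - J - 1) * br (qz N) (β + 1) * K_Sp_R N J h α (β + 1) a b +
      qz N ^ (α + J + 1) * br (qz N) (α + 1) * K_Sp_R N J h (α + 1) β a b = 0 := by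
  have hq := A_Em_qz_ne N
  unfold K_Sp_R
  rw [Finset.mul_sum, Finset.mul_sum, ← Finset.sum_add_distrib]
  have e : ∀ s ∈ Finset.range (N + 1),
      (qz N ^ (-β - J - 1) * br (qz N) (β + 1) * ∑ t ∈ Finset.range (N + 1), nuJ N J h s t *
          flz N (α - s) (J + s + t) (β + 1 - t) a b +
        qz N ^ (α + J + 1) * br (qz N) (α + 1) * ∑ t ∈ Finset.range (N + 1), nuJ N J h s t *
          flz N (α + 1 - s) (J + s + t) (β - t) a b) =
      ∑ t ∈ Finset.range (N + 1),
        (nuJ N J h s t * (qz N ^ ((J : ℤ) + s) * br (qz N) (s : ℤ) *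
            flz N (α + 1 - s) (J + s + t) (β - t) a b) +
          nuJ N J h s t * (qz N ^ ((s : ℤ) - t) * br (qz N) ((J : ℤ) + s + t + 1) *
            flz N (α - s) (J + s + t + 1) (β - t) a b) +
          nuJ N J h s t * (qz N ^ (-(J : ℤ) - t) * br (qz N) (t : ℤ) *
            flz N (α - s) (J + s + t) (β + 1 - t) a b)) := by
    intro s _
    rw [Finset.mul_sum, Finset.mul_sum, ← Finset.sum_add_distrib]
    refine Finset.sum_congr rfl fun t _ => ?_
    by_cases hst : N < J + s + t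
    · rw [K_Sp_nu0 N J h hst]; ring
    have P := K_Sp_flzP N (α - s) (J + s + t) (β - t) a b (by omega) (by omega) (by omega)
      (by omega) ha ha' hb hb'
    rw [show α - (s : ℤ) + 1 = α + 1 - s by ring, show β - (t : ℤ) + 1 = β + 1 - t by ring] at P
    have c1 : qz N ^ (α + J + 1) * br (qz N) (α + 1) =
        qz N ^ ((s : ℤ) - t) * (qz N ^ (α - s + ((J : ℤ) + s + t) + 1) * br (qz N) (α + 1 - s)) +
          qz N ^ ((J : ℤ) + s) * br (qz N) (s : ℤ) := by
      simp only [br, mul_sub, ← zpow_add₀ hq]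
      rw [show α + J + 1 + -(α + 1) = (J : ℤ) by ring,
        show ((s : ℤ) - t + (α - s + ((J : ℤ) + s + t) + 1 + (α + 1 - s))) = α + J + 1 + (α + 1)
          by ring,
        show ((s : ℤ) - t + (α - s + ((J : ℤ) + s + t) + 1 + -(α + 1 - s))) = J + s + s by ring,
        show (J : ℤ) + s + -s = J by ring]
      ring
    have c2 : qz N ^ (-β - J - 1) * br (qz N) (β + 1) =
        qz N ^ ((s : ℤ) - t) * (qz N ^ (-(β - t) - ((J : ℤ) + s + t) - 1) *
          br (qz N) (β + 1 - t)) + qz N ^ (-(J : ℤ) - t) * br (qz N) (t : ℤ) := by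
      simp only [br, mul_sub, ← zpow_add₀ hq]
      rw [show -β - J - 1 + (β + 1) = -(J : ℤ) by ring,
        show ((s : ℤ) - t + (-(β - t) - ((J : ℤ) + s + t) - 1 + (β + 1 - t))) = -(J : ℤ) - t - t
          by ring,
        show ((s : ℤ) - t + (-(β - t) - ((J : ℤ) + s + t) - 1 + -(β + 1 - t))) =
          -β - J - 1 + -(β + 1) by ring,
        show -(J : ℤ) - t + t = -J by ring, show -(J : ℤ) - t + -t = -(J : ℤ) - t - t by ring]
      ring
    linear_combination (nuJ N J h s t * flz N (α - s) (J + s + t) (β + 1 - t) a b) * c2 +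
      (nuJ N J h s t * flz N (α + 1 - s) (J + s + t) (β - t) a b) * c1 -
      (nuJ N J h s t * qz N ^ ((s : ℤ) - t)) * P
  rw [Finset.sum_congr rfl e, K_Sp_dshift N
    (fun s t => nuJ N J h s t * (qz N ^ ((J : ℤ) + s) * br (qz N) (s : ℤ) *
      flz N (α + 1 - s) (J + s + t) (β - t) a b))
    (fun s t => nuJ N J h s t * (qz N ^ ((s : ℤ) - t) * br (qz N) ((J : ℤ) + s + t + 1) *
      flz N (α - s) (J + s + t + 1) (β - t) a b))
    (fun s t => nuJ N J h s t * (qz N ^ (-(J : ℤ) - t) * br (qz N) (t : ℤ) *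
      flz N (α - s) (J + s + t) (β + 1 - t) a b))
    (fun t => by rw [Nat.cast_zero, br_zero]; ring)
    (fun t => by rw [K_Sp_nu0 N J h (by omega)]; ring)
    (fun s => by rw [Nat.cast_zero, br_zero]; ring)
    (fun s => by rw [K_Sp_nu0 N J h (by omega)]; ring)]
  refine Finset.sum_eq_zero fun s _ => Finset.sum_eq_zero fun t _ => ?_
  by_cases hst : N < J + s + t
  · rw [K_Sp_nu0 N J h hst, K_Sp_nu0 N J h (show N < J + (s + 1) + t by omega),
      K_Sp_nu0 N J h (show N < J + s + (t + 1) by omega)]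
    ring
  have P := nuP N J h hJ s t (by omega)
  have f1 : flz N (α + 1 - ((s + 1 : ℕ) : ℤ)) (J + ((s + 1 : ℕ) : ℤ) + t) (β - t) a b =
      flz N (α - s) (J + s + t + 1) (β - t) a b := by
    congr 1 <;> push_cast <;> ring
  have f2 : flz N (α - s) (J + s + ((t + 1 : ℕ) : ℤ)) (β + 1 - ((t + 1 : ℕ) : ℤ)) a b =
      flz N (α - s) (J + s + t + 1) (β - t) a b := by
    congr 1 <;> push_cast <;> ring
  rw [f1, f2, show (J : ℤ) + ((s + 1 : ℕ) : ℤ) = (J : ℤ) + s + 1 by push_cast; ring,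
    show -(J : ℤ) - ((t + 1 : ℕ) : ℤ) = -(J : ℤ) - t - 1 by push_cast; ring,
    show ((s + 1 : ℕ) : ℤ) = (s : ℤ) + 1 by push_cast; ring,
    show ((t + 1 : ℕ) : ℤ) = (t : ℤ) + 1 by push_cast; ring]
  linear_combination (flz N (α - s) (J + s + t + 1) (β - t) a b) * P

/-- The operator `E`. -/
theorem K_Sp_E (N J : ℕ) (h : Fin 4 → ℂ) {α β a b : ℤ} (hα : α ≤ N) (hβ : β ≤ N)
    (ha : 0 ≤ a) (ha' : a ≤ N) (hb : 0 ≤ b) (hb' : b ≤ N) :
    br (qz N) (a + 1) * qz N ^ ((N : ℤ) - 2 * b) * K_Sp_R N J h α β (a + 1) b +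
      br (qz N) (b + 1) * K_Sp_R N J h α β a (b + 1) =
      -qz N ^ (-2 * (α + β + J)) * K_Sp_R N J h (α - 1) β a b + K_Sp_R N J h α (β - 1) a b := by
  unfold K_Sp_R
  rw [Finset.mul_sum, Finset.mul_sum, Finset.mul_sum, ← Finset.sum_add_distrib,
    ← Finset.sum_add_distrib]
  refine Finset.sum_congr rfl fun s _ => ?_
  rw [Finset.mul_sum, Finset.mul_sum, Finset.mul_sum, ← Finset.sum_add_distrib,
    ← Finset.sum_add_distrib]
  refine Finset.sum_congr rfl fun t _ => ?_
  by_cases hst : N < J + s + t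
  · rw [K_Sp_nu0 N J h hst]; ring
  have P := flz_E N (α - s) (J + s + t) (β - t) a b (by omega) (by omega) (by omega)
    ha ha' hb hb'
  rw [show -2 * (α - (s : ℤ) + ((J : ℤ) + s + t) + (β - t)) = -2 * (α + β + J) by ring,
    show α - (s : ℤ) - 1 = α - 1 - s by ring, show β - (t : ℤ) - 1 = β - 1 - t by ring] at P
  linear_combination (nuJ N J h s t) * P

/-- The operator `F`. -/
theorem K_Sp_F (N J : ℕ) (h : Fin 4 → ℂ) (hJ : J ≤ N) {α β : ℤ} {a b : ℕ} (hα : α ≤ N)
    (hβ : β ≤ N) (ha' : a ≤ N) (hb' : b ≤ N) :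
    (if a = 0 then 0 else fF N (h 3) (h 0) (a - 1) * K_Sp_R N J h α β ((a : ℤ) - 1) b) +
      (if b = 0 then 0 else
        qz N ^ (2 * (a : ℤ) - N) * fF N (h 0) (h 1) (b - 1) *
          K_Sp_R N J h α β a ((b : ℤ) - 1)) =
      -(qh N (2 * h 3) * qz N ^ α * br (qz N) (α + 1) * K_Sp_R N J h (α + 1) β a b) -
        qh N (2 * h 1) * qz N ^ (2 * α + 2 * J + β + 2) * br (qz N) (β + 1) *
          K_Sp_R N J h α (β + 1) a b := by
  have hq := A_Em_qz_ne N
  -- the left side as a sum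
  have L : (if a = 0 then 0 else fF N (h 3) (h 0) (a - 1) * K_Sp_R N J h α β ((a : ℤ) - 1) b) +
      (if b = 0 then 0 else
        qz N ^ (2 * (a : ℤ) - N) * fF N (h 0) (h 1) (b - 1) *
          K_Sp_R N J h α β a ((b : ℤ) - 1)) =
      ∑ s ∈ Finset.range (N + 1), ∑ t ∈ Finset.range (N + 1), nuJ N J h s t *
        (-(qh N (2 * h 3) * qz N ^ (α - s) * br (qz N) (α - s + 1) *
            flz N (α - s + 1) (J + s + t) (β - t) a b) +
          qh N (2 * h 0) * qz N ^ (2 * (α - s) + (J + s + t) + 1) *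
            br (qz N) ((J : ℤ) + s + t + 1) * flz N (α - s) (J + s + t + 1) (β - t) a b -
          qh N (2 * h 1) * qz N ^ (2 * (α - s) + 2 * (J + s + t) + (β - t) + 2) *
            br (qz N) (β - t + 1) * flz N (α - s) (J + s + t) (β - t + 1) a b) := by
    have e1 : (if a = 0 then 0 else
        fF N (h 3) (h 0) (a - 1) * K_Sp_R N J h α β ((a : ℤ) - 1) b) =
        ∑ s ∈ Finset.range (N + 1), ∑ t ∈ Finset.range (N + 1), nuJ N J h s t *
          (if a = 0 then 0 else fF N (h 3) (h 0) (a - 1) *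
            flz N (α - s) (J + s + t) (β - t) ((a : ℤ) - 1) b) := by
      split_ifs with h0
      · simp
      · unfold K_Sp_R
        rw [Finset.mul_sum]
        refine Finset.sum_congr rfl fun s _ => ?_
        rw [Finset.mul_sum]
        refine Finset.sum_congr rfl fun t _ => ?_
        ring
    have e2 : (if b = 0 then 0 else
        qz N ^ (2 * (a : ℤ) - N) * fF N (h 0) (h 1) (b - 1) *
          K_Sp_R N J h α β a ((b : ℤ) - 1)) =
        ∑ s ∈ Finset.range (N + 1), ∑ t ∈ Finset.range (N + 1), nuJ N J h s t *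
          (if b = 0 then 0 else qz N ^ (2 * (a : ℤ) - N) * fF N (h 0) (h 1) (b - 1) *
            flz N (α - s) (J + s + t) (β - t) a ((b : ℤ) - 1)) := by
      split_ifs with h0
      · simp
      · unfold K_Sp_R
        rw [Finset.mul_sum]
        refine Finset.sum_congr rfl fun s _ => ?_
        rw [Finset.mul_sum]
        refine Finset.sum_congr rfl fun t _ => ?_
        ring
    rw [e1, e2, ← Finset.sum_add_distrib]
    refine Finset.sum_congr rfl fun s _ => ?_
    rw [← Finset.sum_add_distrib]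
    refine Finset.sum_congr rfl fun t _ => ?_
    rw [← mul_add]
    by_cases hst : N < J + s + t
    · rw [K_Sp_nu0 N J h hst]; ring
    congr 1
    exact K_Sp_flzF N (h 3) (h 0) (h 1) (α - s) (J + s + t) (β - t) a b (by omega) (by omega)
      (by omega) (by omega) ha' hb'
  have Rr : -(qh N (2 * h 3) * qz N ^ α * br (qz N) (α + 1) * K_Sp_R N J h (α + 1) β a b) -
        qh N (2 * h 1) * qz N ^ (2 * α + 2 * J + β + 2) * br (qz N) (β + 1) *
          K_Sp_R N J h α (β + 1) a b =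
      ∑ s ∈ Finset.range (N + 1), ∑ t ∈ Finset.range (N + 1), nuJ N J h s t *
        (-(qh N (2 * h 3) * qz N ^ α * br (qz N) (α + 1) *
            flz N (α + 1 - s) (J + s + t) (β - t) a b) -
          qh N (2 * h 1) * qz N ^ (2 * α + 2 * J + β + 2) * br (qz N) (β + 1) *
            flz N (α - s) (J + s + t) (β + 1 - t) a b) := by
    unfold K_Sp_R
    rw [Finset.mul_sum, Finset.mul_sum, ← Finset.sum_neg_distrib, ← Finset.sum_sub_distrib]
    refine Finset.sum_congr rfl fun s _ => ?_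
    rw [Finset.mul_sum, Finset.mul_sum, ← Finset.sum_neg_distrib, ← Finset.sum_sub_distrib]
    refine Finset.sum_congr rfl fun t _ => ?_
    ring
  rw [L, Rr, ← sub_eq_zero, ← Finset.sum_sub_distrib]
  have e : ∀ s ∈ Finset.range (N + 1),
      (∑ t ∈ Finset.range (N + 1), nuJ N J h s t *
        (-(qh N (2 * h 3) * qz N ^ (α - s) * br (qz N) (α - s + 1) *
            flz N (α - s + 1) (J + s + t) (β - t) a b) +
          qh N (2 * h 0) * qz N ^ (2 * (α - s) + (J + s + t) + 1) *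
            br (qz N) ((J : ℤ) + s + t + 1) * flz N (α - s) (J + s + t + 1) (β - t) a b -
          qh N (2 * h 1) * qz N ^ (2 * (α - s) + 2 * (J + s + t) + (β - t) + 2) *
            br (qz N) (β - t + 1) * flz N (α - s) (J + s + t) (β - t + 1) a b) -
      ∑ t ∈ Finset.range (N + 1), nuJ N J h s t *
        (-(qh N (2 * h 3) * qz N ^ α * br (qz N) (α + 1) *
            flz N (α + 1 - s) (J + s + t) (β - t) a b) -
          qh N (2 * h 1) * qz N ^ (2 * α + 2 * J + β + 2) * br (qz N) (β + 1) *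
            flz N (α - s) (J + s + t) (β + 1 - t) a b)) =
      ∑ t ∈ Finset.range (N + 1),
        (nuJ N J h s t * (qh N (2 * h 3) * qz N ^ (2 * α - s + 1) * br (qz N) (s : ℤ) *
            flz N (α + 1 - s) (J + s + t) (β - t) a b) +
          nuJ N J h s t * (qh N (2 * h 0) * qz N ^ (2 * (α - s) + (J + s + t) + 1) *
            br (qz N) ((J : ℤ) + s + t + 1) * flz N (α - s) (J + s + t + 1) (β - t) a b) +
          nuJ N J h s t * (qh N (2 * h 1) * qz N ^ (2 * α + 2 * J + 1 + t) * br (qz N) (t : ℤ) *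
            flz N (α - s) (J + s + t) (β + 1 - t) a b)) := by
    intro s _
    rw [← Finset.sum_sub_distrib]
    refine Finset.sum_congr rfl fun t _ => ?_
    rw [show α - (s : ℤ) + 1 = α + 1 - s by ring, show β - (t : ℤ) + 1 = β + 1 - t by ring]
    have c1 : qz N ^ α * br (qz N) (α + 1) - qz N ^ (α - s) * br (qz N) (α + 1 - s) =
        qz N ^ (2 * α - s + 1) * br (qz N) (s : ℤ) := by
      simp only [br, mul_sub, ← zpow_add₀ hq]
      rw [show α + -(α + 1) = -1 by ring, show α - (s : ℤ) + -(α + 1 - s) = -1 by ring,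
        show α - (s : ℤ) + (α + 1 - s) = 2 * α - s + 1 + -s by ring,
        show 2 * α - (s : ℤ) + 1 + s = α + (α + 1) by ring]
      ring
    have c2 : qz N ^ (2 * α + 2 * J + β + 2) * br (qz N) (β + 1) -
        qz N ^ (2 * (α - s) + 2 * ((J : ℤ) + s + t) + (β - t) + 2) * br (qz N) (β + 1 - t) =
        qz N ^ (2 * α + 2 * J + 1 + t) * br (qz N) (t : ℤ) := by
      rw [K_Sp_zb N, K_Sp_zb N, K_Sp_zb N,
        show 2 * (α - (s : ℤ)) + 2 * ((J : ℤ) + s + t) + (β - t) + 2 + (β + 1 - t) =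
          2 * α + 2 * J + β + 2 + (β + 1) by ring,
        show 2 * (α - (s : ℤ)) + 2 * ((J : ℤ) + s + t) + (β - t) + 2 - (β + 1 - t) =
          2 * α + 2 * J + 1 + t + t by ring,
        show 2 * α + 2 * J + β + 2 - (β + 1) = 2 * α + 2 * (J : ℤ) + 1 + t - t by ring]
      ring
    linear_combination (nuJ N J h s t * qh N (2 * h 3) *
        flz N (α + 1 - s) (J + s + t) (β - t) a b) * c1 +
      (nuJ N J h s t * qh N (2 * h 1) * flz N (α - s) (J + s + t) (β + 1 - t) a b) * c2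
  rw [Finset.sum_congr rfl e, K_Sp_dshift N
    (fun s t => nuJ N J h s t * (qh N (2 * h 3) * qz N ^ (2 * α - s + 1) * br (qz N) (s : ℤ) *
      flz N (α + 1 - s) (J + s + t) (β - t) a b))
    (fun s t => nuJ N J h s t * (qh N (2 * h 0) * qz N ^ (2 * (α - s) + (J + s + t) + 1) *
      br (qz N) ((J : ℤ) + s + t + 1) * flz N (α - s) (J + s + t + 1) (β - t) a b))
    (fun s t => nuJ N J h s t * (qh N (2 * h 1) * qz N ^ (2 * α + 2 * J + 1 + t) *
      br (qz N) (t : ℤ) * flz N (α - s) (J + s + t) (β + 1 - t) a b))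
    (fun t => by rw [Nat.cast_zero, br_zero]; ring)
    (fun t => by rw [K_Sp_nu0 N J h (by omega)]; ring)
    (fun s => by rw [Nat.cast_zero, br_zero]; ring)
    (fun s => by rw [K_Sp_nu0 N J h (by omega)]; ring)]
  refine Finset.sum_eq_zero fun s _ => Finset.sum_eq_zero fun t _ => ?_
  by_cases hst : N < J + s + t
  · rw [K_Sp_nu0 N J h hst, K_Sp_nu0 N J h (show N < J + (s + 1) + t by omega),
      K_Sp_nu0 N J h (show N < J + s + (t + 1) by omega)]
    ring
  have P := nuF N J h hJ s t (by omega)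
  have f1 : flz N (α + 1 - ((s + 1 : ℕ) : ℤ)) (J + ((s + 1 : ℕ) : ℤ) + t) (β - t) a b =
      flz N (α - s) (J + s + t + 1) (β - t) a b := by
    congr 1 <;> push_cast <;> ring
  have f2 : flz N (α - s) (J + s + ((t + 1 : ℕ) : ℤ)) (β + 1 - ((t + 1 : ℕ) : ℤ)) a b =
      flz N (α - s) (J + s + t + 1) (β - t) a b := by
    congr 1 <;> push_cast <;> ring
  have z1 : qz N ^ (2 * α - ((s + 1 : ℕ) : ℤ) + 1) = qz N ^ (2 * α) * qz N ^ (-(s : ℤ)) := by
    rw [← zpow_add₀ hq]; congr 1; push_cast; ring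
  have z2 : qz N ^ (2 * (α - s) + ((J : ℤ) + s + t) + 1) =
      qz N ^ (2 * α) * qz N ^ (-2 * (s : ℤ) + J + (s + t) + 1) := by
    rw [← zpow_add₀ hq]; congr 1; ring
  have z3 : qz N ^ (2 * α + 2 * J + 1 + ((t + 1 : ℕ) : ℤ)) =
      qz N ^ (2 * α) * qz N ^ (2 * (J : ℤ) + t + 2) := by
    rw [← zpow_add₀ hq]; congr 1; push_cast; ring
  rw [f1, f2, z1, z2, z3, show ((s + 1 : ℕ) : ℤ) = (s : ℤ) + 1 by push_cast; ring,
    show ((t + 1 : ℕ) : ℤ) = (t : ℤ) + 1 by push_cast; ring]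
  linear_combination (qz N ^ (2 * α) * flz N (α - s) (J + s + t + 1) (β - t) a b) * P

/-- The vectors with a small total. -/
theorem K_Sp_low (N J : ℕ) (h : Fin 4 → ℂ) (hJ : J ≤ N) (β : ℕ) : ∀ α c d : ℕ, α + β ≤ N →
    c ≤ N → d ≤ N → c + d = α + β + J →
    K_Sp_R N J h α β c d = cJ N J α β * SJ N J h c d := by
  have hq := A_Em_qz_ne N
  induction β with
  | zero =>
    intro α c d hα hc hd hs
    rw [SJ, if_pos ⟨by omega, by omega, hc, hd⟩]
    have e0 : (c : ℤ) + d - J = α := by omega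
    rw [e0, Nat.cast_zero]
    have hne := cJ_ne N J α 0 (by omega) (by omega)
    rw [Nat.cast_zero] at hne
    rw [mul_div_cancel₀ _ hne]
    unfold K_Sp_R
    have e1 : ∀ s ∈ Finset.range (N + 1),
        ∑ t ∈ Finset.range (N + 1), nuJ N J h s t *
          flz N ((α : ℤ) - s) (J + s + t) (0 - t) c d =
        nuJ N J h s 0 * flz N ((α : ℤ) - s) (J + s) 0 c d := by
      intro s _
      rw [Finset.sum_eq_single 0]
      · rw [Nat.cast_zero, sub_zero, add_zero]
      · intro t _ ht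
        rw [flz_neg N (Or.inr (Or.inl (by omega))), mul_zero]
      · intro ht
        exact absurd (Finset.mem_range.2 (by omega)) ht
    rw [Finset.sum_congr rfl e1]
    symm
    refine Finset.sum_subset ?_ ?_
    · intro x hx
      rw [Finset.mem_range] at hx ⊢
      omega
    · intro x _ hx
      rw [Finset.mem_range] at hx
      rw [K_Sp_nu0 N J h (by omega), zero_mul]
  | succ β ih =>
    intro α c d hα hc hd hs
    have h1 := ih (α + 1) c d (by omega) hc hd (by omega)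
    have h2 := K_Sp_rec N J h hJ (α := α) (β := β) (a := c) (b := d) (by omega) (by omega)
      (by omega) (by omega) (by omega) (by omega)
    have h3 := cJ_P N J hJ α β (by omega) (by omega) (by omega) (by omega)
    have hb : br (qz N) ((β : ℤ) + 1) ≠ 0 := A_Em_br_ne N (by omega) (by omega)
    have hz : qz N ^ (-(β : ℤ) - J - 1) ≠ 0 := zpow_ne_zero _ hq
    push_cast at h1 h2 h3 ⊢
    rw [h1] at h2
    have z : qz N ^ ((α : ℤ) + J + 1) =
        qz N ^ (-(β : ℤ) - J - 1) * qz N ^ ((α : ℤ) + β + 2 * J + 2) := by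
      rw [← zpow_add₀ hq]; congr 1; ring
    rw [z] at h2
    refine mul_left_cancel₀ (mul_ne_zero hz hb) ?_
    linear_combination h2 - (qz N ^ (-(β : ℤ) - J - 1) * SJ N J h c d) * h3

/-- A vector of a large level which is killed by `E` vanishes. -/
theorem K_Sp_van (N : ℕ) (v : ℤ → ℤ → ℂ) (T : ℤ) (hT : (N : ℤ) < T)
    (hv : ∀ a b, a + b ≠ T → v a b = 0)
    (hE : ∀ a b : ℤ, 0 ≤ a → a ≤ N → 0 ≤ b → b ≤ N →
      br (qz N) (a + 1) * qz N ^ ((N : ℤ) - 2 * b) * v (a + 1) b +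
        br (qz N) (b + 1) * v a (b + 1) = 0) (k : ℕ) :
    ∀ c d : ℤ, c + k = N → 0 ≤ c → d ≤ N → v c d = 0 := by
  induction k with
  | zero =>
    intro c d hc hc0 hd
    by_cases hs : c + d = T
    swap
    · exact hv c d hs
    have hcN : c = N := by omega
    subst hcN
    have h1 := hE N (d - 1) (by omega) le_rfl (by omega) (by omega)
    rw [A_Em_br_M, show d - 1 + 1 = d by ring] at h1
    have h2 : br (qz N) d ≠ 0 := A_Em_br_ne N (by omega) (by omega)
    have h3 : br (qz N) d * v N d = 0 := by linear_combination h1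
    exact (mul_eq_zero.1 h3).resolve_left h2
  | succ k ih =>
    intro c d hc hc0 hd
    by_cases hs : c + d = T
    swap
    · exact hv c d hs
    have h1 := hE c (d - 1) (by omega) (by omega) (by omega) (by omega)
    rw [ih (c + 1) (d - 1) (by push_cast at hc; omega) (by omega) (by omega),
      show d - 1 + 1 = d by ring] at h1
    have h2 : br (qz N) d ≠ 0 := A_Em_br_ne N (by omega) (by omega)
    have h3 : br (qz N) d * v c d = 0 := by linear_combination h1
    exact (mul_eq_zero.1 h3).resolve_left h2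

/-- The vectors with a large total vanish. -/
theorem K_Sp_high (N J : ℕ) (h : Fin 4 → ℂ) (hJ : J ≤ N) (n : ℕ) : ∀ α β : ℕ,
    α + β = N + 1 + n → α ≤ N → β ≤ N → ∀ c d : ℕ, c ≤ N → d ≤ N →
      K_Sp_R N J h α β c d = 0 := by
  induction n with
  | zero =>
    intro α β hαβ hα hβ c d hc hd
    refine K_Sp_van N (fun a b => K_Sp_R N J h α β a b) (α + β + J) (by omega)
      (fun a b hs => K_Sp_tot N J h hs) ?_ (N - c) c d (by omega) (by omega) (by omega)
    intro a b ha ha' hb hb'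
    rw [K_Sp_E N J h (by omega) (by omega) ha ha' hb hb']
    obtain ⟨α, rfl⟩ : ∃ m, α = m + 1 := ⟨α - 1, by omega⟩
    obtain ⟨β, rfl⟩ : ∃ m, β = m + 1 := ⟨β - 1, by omega⟩
    obtain ⟨a, rfl⟩ := Int.eq_ofNat_of_zero_le ha
    obtain ⟨b, rfl⟩ := Int.eq_ofNat_of_zero_le hb
    have e1 : (((α + 1 : ℕ) : ℤ) - 1) = (α : ℤ) := by push_cast; ring
    have e2 : (((β + 1 : ℕ) : ℤ) - 1) = (β : ℤ) := by push_cast; ring
    rw [e1, e2]
    by_cases hs : a + b = α + β + 1 + J
    · rw [K_Sp_low N J h hJ (β + 1) α a b (by omega) (by omega) (by omega) (by omega),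
        K_Sp_low N J h hJ β (α + 1) a b (by omega) (by omega) (by omega) (by omega)]
      have h1 := cJ_E N J hJ ((α + 1 : ℕ) : ℤ) ((β + 1 : ℕ) : ℤ) (by omega) (by omega)
      rw [e1, e2, show (((α + 1 : ℕ) : ℤ) + ((β + 1 : ℕ) : ℤ)) = (N : ℤ) + 1 by omega,
        A_Em_br_M] at h1
      rw [show (((α + 1 : ℕ) : ℤ) + ((β + 1 : ℕ) : ℤ)) = (N : ℤ) + 1 by omega]
      linear_combination (-SJ N J h a b) * h1
    · rw [K_Sp_tot N J h (by push_cast; omega), K_Sp_tot N J h (by push_cast; omega)]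
      ring
  | succ n ih =>
    intro α β hαβ hα hβ c d hc hd
    refine K_Sp_van N (fun a b => K_Sp_R N J h α β a b) (α + β + J) (by omega)
      (fun a b hs => K_Sp_tot N J h hs) ?_ (N - c) c d (by omega) (by omega) (by omega)
    intro a b ha ha' hb hb'
    rw [K_Sp_E N J h (by omega) (by omega) ha ha' hb hb']
    obtain ⟨α, rfl⟩ : ∃ m, α = m + 1 := ⟨α - 1, by omega⟩
    obtain ⟨β, rfl⟩ : ∃ m, β = m + 1 := ⟨β - 1, by omega⟩
    obtain ⟨a, rfl⟩ := Int.eq_ofNat_of_zero_le ha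
    obtain ⟨b, rfl⟩ := Int.eq_ofNat_of_zero_le hb
    have e1 : (((α + 1 : ℕ) : ℤ) - 1) = (α : ℤ) := by push_cast; ring
    have e2 : (((β + 1 : ℕ) : ℤ) - 1) = (β : ℤ) := by push_cast; ring
    rw [e1, e2, ih α (β + 1) (by omega) (by omega) (by omega) a b (by omega) (by omega),
      ih (α + 1) β (by omega) (by omega) (by omega) a b (by omega) (by omega)]
    ring

/-! ### The theorems -/

theorem SJ_rule (N J : ℕ) (h : Fin 4 → ℂ) (hJ : J ≤ N) (α β c d : ℕ) (hα : α ≤ N) (hβ : β ≤ N)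
    (hc : c ≤ N) (hd : d ≤ N) :
    ∑ sL ∈ Finset.range (N + 1), ∑ sR ∈ Finset.range (N + 1), nuJ N J h sL sR *
        flz N ((α : ℤ) - sL) (J + sL + sR) ((β : ℤ) - sR) c d =
      if c + d = α + β + J ∧ α + β ≤ N then cJ N J α β * SJ N J h c d else 0 := by
  change K_Sp_R N J h α β c d = _
  split_ifs with hs
  · exact K_Sp_low N J h hJ β α c d hs.2 hc hd hs.1
  · by_cases h1 : c + d = α + β + J
    · have h2 : N < α + β := by
        by_contra h3
        exact hs ⟨h1, by omega⟩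
      exact K_Sp_high N J h hJ (α + β - (N + 1)) α β (by omega) hα hβ c d hc hd
    · exact K_Sp_tot N J h (by omega)

/-- The splitting in terms of the vectors. -/
theorem K_Sp_S (N J : ℕ) (h : Fin 4 → ℂ) (hJ : J ≤ N) (n c d : ℕ) (hn : n ≤ N) (hc : c ≤ N)
    (hd : d ≤ N) (hs : c + d = n + J) : K_Sp_R N J h n 0 c d = cJ N J n 0 * SJ N J h c d := by
  have := K_Sp_low N J h hJ 0 n c d (by omega) hc hd (by omega)
  simpa using this

theorem K_Sp_supp (N J : ℕ) (h : Fin 4 → ℂ) {c d : ℕ}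
    (hs : ¬ (J ≤ c + d ∧ c + d ≤ J + N ∧ c ≤ N ∧ d ≤ N)) : SJ N J h c d = 0 := by
  rw [SJ, if_neg hs]

theorem isSp (N J : ℕ) (h : Fin 4 → ℂ) (hJ : J ≤ N) :
    IsSp N J (h 3) (h 0) (h 1) (SJ N J h) := by
  have hq := A_Em_qz_ne N
  have hM := A_Em_br_M N
  refine ⟨fun c d hs => K_Sp_supp N J h hs, ?_, ?_⟩
  · intro c d hc hd
    by_cases h1 : c + d + 1 < J
    · rw [K_Sp_supp N J h (by omega), K_Sp_supp N J h (by omega), K_Sp_supp N J h (by omega)]
      ring
    by_cases h2 : N + J < c + d + 1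
    · rw [K_Sp_supp N J h (c := c + 1) (by omega), K_Sp_supp N J h (d := d + 1) (by omega)]
      by_cases h3 : c + d + 1 = N + J + 1
      · rw [show (c : ℤ) + d + 1 - J = N + 1 by omega, hM]; ring
      · rw [K_Sp_supp N J h (by omega)]; ring
    obtain ⟨n, hn⟩ : ∃ n, c + d + 1 = n + J := ⟨c + d + 1 - J, by omega⟩
    have hne := cJ_ne N J n 0 (by omega) (by omega)
    rw [Nat.cast_zero] at hne
    refine mul_left_cancel₀ hne ?_
    have hE := K_Sp_E N J h (α := n) (β := 0) (a := c) (b := d) (by omega) (by omega) (by omega)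
      (by omega) (by omega) (by omega)
    have e1 : br (qz N) ((c : ℤ) + 1) * K_Sp_R N J h n 0 ((c : ℤ) + 1) d =
        br (qz N) ((c : ℤ) + 1) * (cJ N J n 0 * SJ N J h (c + 1) d) := by
      rcases hc.lt_or_eq with h3 | h3
      · rw [← K_Sp_S N J h hJ n (c + 1) d (by omega) (by omega) hd (by omega)]
        push_cast
        rfl
      · rw [h3, hM]; ring
    have e2 : br (qz N) ((d : ℤ) + 1) * K_Sp_R N J h n 0 c ((d : ℤ) + 1) =
        br (qz N) ((d : ℤ) + 1) * (cJ N J n 0 * SJ N J h c (d + 1)) := by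
      rcases hd.lt_or_eq with h3 | h3
      · rw [← K_Sp_S N J h hJ n c (d + 1) (by omega) hc (by omega) (by omega)]
        push_cast
        rfl
      · rw [h3, hM]; ring
    rw [K_Sp_negR N J h (show (0 : ℤ) - 1 < 0 by omega)] at hE
    have hcE := cJ_E N J hJ n 0 (by omega) (by omega)
    have hc0 : cJ N J n (0 - 1) = 0 := by
      rw [cJ, ib_neg N (show (0 : ℤ) - 1 < 0 by omega)]; ring
    rw [hc0] at hcE
    have e3 : cJ N J ((n : ℤ) - 1) 0 * SJ N J h c d = K_Sp_R N J h ((n : ℤ) - 1) 0 c d := by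
      rcases Nat.eq_zero_or_pos n with h3 | h3
      · subst h3
        rw [K_Sp_negL N J h (show ((0 : ℕ) : ℤ) - 1 < 0 by omega), cJ,
          ib_neg N (show ((0 : ℕ) : ℤ) - 1 < 0 by omega)]
        ring
      · have h4 := K_Sp_S N J h hJ (n - 1) c d (by omega) hc hd (by omega)
        rw [show ((n - 1 : ℕ) : ℤ) = (n : ℤ) - 1 by omega] at h4
        exact h4.symm
    rw [show (c : ℤ) + d + 1 - J = n + 0 by omega]
    linear_combination (-(qz N ^ ((N : ℤ) - 2 * d))) * e1 - e2 + hE - (SJ N J h c d) * hcE -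
      (-qz N ^ (-2 * ((n : ℤ) + 0 + J))) * e3
  · intro c d hc hd hcd
    by_cases h2 : N + J < c + d - 1
    · rw [K_Sp_supp N J h (c := c) (d := d) (by omega)]
      have e1 : (if c = 0 then 0 else fF N (h 3) (h 0) (c - 1) * SJ N J h (c - 1) d) = 0 := by
        split_ifs with h0
        · rfl
        · rw [K_Sp_supp N J h (by omega), mul_zero]
      have e2 : (if d = 0 then 0 else qz N ^ (2 * (c : ℤ) - N) * fF N (h 0) (h 1) (d - 1) *
          SJ N J h c (d - 1)) = 0 := by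
        split_ifs with h0
        · rfl
        · rw [K_Sp_supp N J h (by omega), mul_zero]
      rw [e1, e2]
      ring
    obtain ⟨n, hn⟩ : ∃ n, c + d = n + J + 1 := ⟨c + d - 1 - J, by omega⟩
    have hne := cJ_ne N J n 0 (by omega) (by omega)
    rw [Nat.cast_zero] at hne
    refine mul_left_cancel₀ hne ?_
    have hF := K_Sp_F N J h hJ (α := n) (β := 0) (a := c) (b := d) (by omega) (by omega) hc hd
    have e1 : cJ N J n 0 * (if c = 0 then 0 else fF N (h 3) (h 0) (c - 1) *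
        SJ N J h (c - 1) d) = (if c = 0 then 0 else fF N (h 3) (h 0) (c - 1) *
        K_Sp_R N J h n 0 ((c : ℤ) - 1) d) := by
      split_ifs with h0
      · ring
      · have h4 := K_Sp_S N J h hJ n (c - 1) d (by omega) (by omega) hd (by omega)
        rw [show ((c - 1 : ℕ) : ℤ) = (c : ℤ) - 1 by omega] at h4
        rw [h4]
        ring
    have e2 : cJ N J n 0 * (if d = 0 then 0 else qz N ^ (2 * (c : ℤ) - N) *
        fF N (h 0) (h 1) (d - 1) * SJ N J h c (d - 1)) =
        (if d = 0 then 0 else qz N ^ (2 * (c : ℤ) - N) * fF N (h 0) (h 1) (d - 1) *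
          K_Sp_R N J h n 0 c ((d : ℤ) - 1)) := by
      split_ifs with h0
      · ring
      · have h4 := K_Sp_S N J h hJ n c (d - 1) (by omega) hc (by omega) (by omega)
        rw [show ((d - 1 : ℕ) : ℤ) = (d : ℤ) - 1 by omega] at h4
        rw [h4]
        ring
    rw [mul_add, e1, e2, hF, show (c : ℤ) + d - 1 - J = n by omega]
    rcases (show n ≤ N by omega).lt_or_eq with h3 | h3
    · have g1 := K_Sp_S N J h hJ (n + 1) c d (by omega) hc hd (by omega)
      have g2 : K_Sp_R N J h n 1 c d = cJ N J n 1 * SJ N J h c d := by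
        have g5 := K_Sp_low N J h hJ 1 n c d (by omega) hc hd (by omega)
        exact_mod_cast g5
      have g3 := cJ_FL N J hJ n 0 (by omega) (by omega)
      have g4 := cJ_FR N J hJ n 0 (by omega) (by omega)
      have z1 : qz N ^ (2 * (N : ℤ) - 2 * J - n - 0) = qz N ^ (-(2 * (J : ℤ) + n + 2)) := by
        rw [show 2 * (N : ℤ) - 2 * J - n - 0 = ((N : ℤ) + 1) + ((N : ℤ) + 1) +
          -(2 * (J : ℤ) + n + 2) by ring, zpow_add₀ hq, zpow_add₀ hq, A_Em_qz_M]
        ring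
      have z2 : qz N ^ ((n : ℤ) + 0 + 2 * J - 2 * N) = qz N ^ (2 * (J : ℤ) + n + 2) := by
        have z3 : qz N ^ ((N : ℤ) + 1) * qz N ^ ((N : ℤ) + 1) * qz N ^ ((n : ℤ) + 0 + 2 * J - 2 * N) =
            qz N ^ (2 * (J : ℤ) + n + 2) := by
          rw [← zpow_add₀ hq, ← zpow_add₀ hq]; congr 1; ring
        rw [A_Em_qz_M] at z3
        linear_combination z3
      have z4 : fJ N J (h 3) (h 1) n = qh N (2 * h 3) * qz N ^ (-(2 * (J : ℤ) + n + 2)) -
          qh N (2 * h 1) * qz N ^ (2 * (J : ℤ) + n + 2) := by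
        rw [fJ, bh, ← qh_int, ← qh_int]
        rw [mul_sub, ← qh_add, ← qh_add, ← qh_add, ← qh_add]
        rw [show h 3 + h 1 + (2 * (J : ℂ) + ((n : ℤ) : ℂ) + 2 + h 1 - h 3) =
            2 * h 1 + ((2 * (J : ℤ) + n + 2 : ℤ) : ℂ) by push_cast; ring,
          show h 3 + h 1 + -(2 * (J : ℂ) + ((n : ℤ) : ℂ) + 2 + h 1 - h 3) =
            2 * h 3 + ((-(2 * (J : ℤ) + n + 2) : ℤ) : ℂ) by push_cast; ring]
        ring
      push_cast at g1
      rw [z1] at g3
      rw [z2, show 2 * (n : ℤ) + 0 + 2 * J + 2 = 2 * n + 2 * J + 0 + 2 by ring] at g4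
      rw [z4, g1]
      rw [show (0 : ℤ) + 1 = 1 by ring] at *
      rw [g2]
      linear_combination (-(qh N (2 * h 3) * SJ N J h c d)) * g3 -
        (qh N (2 * h 1) * SJ N J h c d) * g4
    · rw [K_Sp_supp N J h (c := c) (d := d) (by omega), h3, hM]
      have h4 : 1 ≤ N := by omega
      have g2 := K_Sp_high N J h hJ 0 N 1 (by omega) le_rfl h4 c d hc hd
      rw [show (0 : ℤ) + 1 = ((1 : ℕ) : ℤ) by norm_num, g2]
      ring

/-- A value at the vector of highest level. -/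
theorem SJ_top (N J : ℕ) (h : Fin 4 → ℂ) (hJ : J ≤ N) (hs : SmallH h) : SJ N J h J N ≠ 0 := by
  have hq := A_Em_qz_ne N
  intro h0
  have h1 := K_Sp_S N J h hJ N J N le_rfl hJ le_rfl (by omega)
  rw [h0, mul_zero] at h1
  unfold K_Sp_R at h1
  rw [Finset.sum_eq_single (N - J)] at h1
  · rw [Finset.sum_eq_single 0] at h1
    · have e1 : (N : ℤ) - ((N - J : ℕ) : ℤ) = J := by omega
      have e2 : (J : ℤ) + ((N - J : ℕ) : ℤ) + ((0 : ℕ) : ℤ) = N := by omega
      have e3 : (0 : ℤ) - ((0 : ℕ) : ℤ) = 0 := by omega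
      rw [e1, e2, e3, flz, if_pos (by ring), sub_self, sub_zero, ib_zero, ib_nat, ib_nat] at h1
      have hb1 := A_Em_brf_ne N hJ
      have hb2 := A_Em_brf_ne N (le_refl N)
      have hb3 := A_Em_brf_ne N (show N - J ≤ N by omega)
      have h2 : nuJ N J h (N - J) 0 = 0 := by
        rcases mul_eq_zero.1 h1 with h2 | h2
        · exact h2
        · exfalso
          rcases mul_eq_zero.1 h2 with h3 | h3
          · exact zpow_ne_zero _ hq h3
          · simp only [mul_eq_zero, inv_eq_zero, one_ne_zero, or_false] at h3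
            rcases h3 with h3 | h3
            · exact hb1 h3
            · exact hb2 h3
      rw [nuJ, if_pos (by omega), show N - J - (N - J) - 0 = 0 by omega, pch_zero, pch_zero,
        show (N : ℤ) - J - ((N - J : ℕ) : ℤ) - ((0 : ℕ) : ℤ) = 0 by omega] at h2
      simp only [Nat.cast_zero, ib_zero, ib_nat] at h2
      have h3 : pch N (J + h 1 - h 0) (N - J) ≠ 0 := by
        unfold pch
        refine Finset.prod_ne_zero_iff.2 fun i hi => ?_
        rw [Finset.mem_range] at hi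
        have h4 := bh_ne_small N (J + i + 1) (h 1 - h 0) (by omega) (by omega) (by
          refine (norm_sub_le _ _).trans ?_
          have := hs 1
          have := hs 0
          linarith)
        rw [show (J : ℂ) + h 1 - h 0 + (i : ℂ) + 1 = ((J + i + 1 : ℕ) : ℂ) + (h 1 - h 0) by
          push_cast; ring]
        exact h4
      rcases mul_eq_zero.1 h2 with h4 | h4
      · rcases mul_eq_zero.1 h4 with h5 | h5
        · exact qh_ne N _ h5
        · simp only [one_mul, mul_one] at h5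
          exact h3 h5
      · simp only [one_mul, mul_one, inv_eq_zero] at h4
        exact hb3 h4
    · intro t _ ht
      rw [flz_neg N (Or.inr (Or.inl (by omega))), mul_zero]
    · intro ht
      exact absurd (Finset.mem_range.2 (by omega)) ht
  · intro s _ hs'
    refine Finset.sum_eq_zero fun t _ => ?_
    rcases lt_or_gt_of_ne hs' with h2 | h2
    · rw [flz_neg N (Or.inr (Or.inr (Or.inl (by omega)))), mul_zero]
    · rw [K_Sp_nu0 N J h (by omega), zero_mul]
  · intro ht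
    exact absurd (Finset.mem_range.2 (by omega)) ht

end Pool.Agent.H63.CLK
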