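import Pool.Agent.H63.CLK.K_Mg
import Pool.Agent.H63.CLK.K_Sp

/-!
# All directions, algebra: the operator of level `J`

`XJ_rule`: `XJ x y = SJ x MJ y` on equal weights; `MJ_rule`, then `SJ_rule` for `(α - sL, β - sR)` (a term with a negative
argument is `0` on both sides), and the sum over the pairs of pairs is regrouped into `WJ` (the conditions `B + a + b = J`,
`J + (sL - a) + (sR - b) ≤ N` give `B + sL + sR ≤ N`). If `α + B + β > J + N` the left side is `0` by `MJ_rule` and the right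
side by `SJ_rule`.

`XJ_F`: `FM top * XJ = XJ * FM bottom` from `isSp.F`, `isMg.F`: for `c + d = a + b + 1` both sides are
`fJ (a + b - J) * SJ c d * MJ a b` (for `a + b < J` or `a + b ≥ J + N` both sides vanish).

`WJ_B0`: values. `WJ N J h 0 0 s` is nonzero only for `J ≤ s` (only `b = J` contributes), `WJ N J h 0 N 0` has only the term
`a = J`.
-/

set_option autoImplicit false

namespace Pool.Agent.H63.CLK

open Pool.Agent.H63.VC7 Pool.Agent.H63.VC10

private theorem K_X_mu0 (N J : ℕ) (h : Fin 4 → ℂ) {B a b : ℕ} (hh : B + a + b ≠ J) :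
    muJ N J h B a b = 0 := by
  rw [muJ, if_neg hh]

private theorem K_X_nu0 (N J : ℕ) (h : Fin 4 → ℂ) {a b : ℕ} (hh : N < J + a + b) :
    nuJ N J h a b = 0 := by
  rw [nuJ, if_neg (by omega)]

/-- Regrouping of a sum over pairs with the sum at most `N`. -/
private theorem K_X_reg (N : ℕ) (f : ℕ → ℕ → ℂ) (hf : ∀ a b, N < a + b → f a b = 0) :
    ∑ s ∈ Finset.range (N + 1), ∑ a ∈ Finset.range (s + 1), f a (s - a) =
      ∑ a ∈ Finset.range (N + 1), ∑ b ∈ Finset.range (N + 1), f a b := by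
  have h1 : ∀ s ∈ Finset.range (N + 1), ∑ a ∈ Finset.range (s + 1), f a (s - a) =
      ∑ a ∈ Finset.range (N + 1), if a ≤ s then f a (s - a) else 0 := by
    intro s hs
    rw [Finset.mem_range] at hs
    rw [← Finset.sum_filter]
    apply Finset.sum_congr
    · ext a
      simp only [Finset.mem_range, Finset.mem_filter]
      omega
    · intros; rfl
  rw [Finset.sum_congr rfl h1, Finset.sum_comm]
  apply Finset.sum_congr rfl
  intro a ha
  rw [Finset.mem_range] at ha
  have h2 : ∑ b ∈ Finset.range (N + 1), f a b = ∑ b ∈ Finset.range (N + 1 - a), f a b := by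
    symm
    apply Finset.sum_subset
    · intro b hb
      rw [Finset.mem_range] at hb ⊢
      omega
    · intro b hb hb'
      rw [Finset.mem_range] at hb hb'
      exact hf a b (by omega)
  rw [h2, ← Finset.sum_filter]
  refine Finset.sum_bij' (fun s _ => s - a) (fun b _ => b + a) ?_ ?_ ?_ ?_ ?_
  · intro s hs
    simp only [Finset.mem_filter, Finset.mem_range] at hs ⊢
    omega
  · intro b hb
    simp only [Finset.mem_filter, Finset.mem_range] at hb ⊢
    omega
  · intro s hs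
    simp only [Finset.mem_filter, Finset.mem_range] at hs
    omega
  · intro b hb
    omega
  · intro s hs
    rfl

private theorem K_X_reg2 (N : ℕ) (g : ℕ → ℕ → ℕ → ℕ → ℂ)
    (hg : ∀ a a' b b', N < a + a' ∨ N < b + b' → g a a' b b' = 0) :
    ∑ s ∈ Finset.range (N + 1), ∑ t ∈ Finset.range (N + 1),
        ∑ a ∈ Finset.range (s + 1), ∑ b ∈ Finset.range (t + 1), g a (s - a) b (t - b) =
      ∑ a ∈ Finset.range (N + 1), ∑ b ∈ Finset.range (N + 1),
        ∑ a' ∈ Finset.range (N + 1), ∑ b' ∈ Finset.range (N + 1), g a a' b b' := by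
  have h1 : ∀ s ∈ Finset.range (N + 1), ∑ t ∈ Finset.range (N + 1),
        ∑ a ∈ Finset.range (s + 1), ∑ b ∈ Finset.range (t + 1), g a (s - a) b (t - b) =
      ∑ a ∈ Finset.range (s + 1), ∑ b ∈ Finset.range (N + 1), ∑ b' ∈ Finset.range (N + 1),
        g a (s - a) b b' := by
    intro s hs
    rw [Finset.sum_comm]
    apply Finset.sum_congr rfl
    intro a ha
    exact K_X_reg N (fun b b' => g a (s - a) b b') (fun b b' hb => hg _ _ _ _ (Or.inr hb))
  rw [Finset.sum_congr rfl h1,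
    K_X_reg N (fun a a' => ∑ b ∈ Finset.range (N + 1), ∑ b' ∈ Finset.range (N + 1), g a a' b b')]
  · apply Finset.sum_congr rfl
    intro a ha
    rw [Finset.sum_comm]
  · intro a a' ha
    apply Finset.sum_eq_zero
    intro b hb
    apply Finset.sum_eq_zero
    intro b' hb'
    exact hg _ _ _ _ (Or.inl ha)

/-- `SJ_rule` for integral arguments. -/
private theorem K_X_S (N J : ℕ) (h : Fin 4 → ℂ) (hJ : J ≤ N) (α β : ℤ) (c d : ℕ) (hα : α ≤ N)
    (hβ : β ≤ N) (hc : c ≤ N) (hd : d ≤ N) :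
    ∑ sL ∈ Finset.range (N + 1), ∑ sR ∈ Finset.range (N + 1), nuJ N J h sL sR *
        flz N (α - sL) (J + sL + sR) (β - sR) c d =
      if (c : ℤ) + d = α + β + J ∧ α + β ≤ N then cJ N J α β * SJ N J h c d else 0 := by
  by_cases h0 : 0 ≤ α ∧ 0 ≤ β
  · obtain ⟨a, rfl⟩ := Int.eq_ofNat_of_zero_le h0.1
    obtain ⟨b, rfl⟩ := Int.eq_ofNat_of_zero_le h0.2
    rw [SJ_rule N J h hJ a b c d (by omega) (by omega) hc hd]
    by_cases hc2 : c + d = a + b + J ∧ a + b ≤ N
    · rw [if_pos hc2, if_pos (by omega)]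
    · rw [if_neg hc2, if_neg (by omega)]
  · have h1 : cJ N J α β = 0 := by
      rw [cJ]
      rw [not_and_or, not_le, not_le] at h0
      rcases h0 with h0 | h0
      · rw [ib_neg N h0]; ring
      · rw [ib_neg N h0]; ring
    rw [h1, zero_mul, ite_self]
    apply Finset.sum_eq_zero
    intro sL _
    apply Finset.sum_eq_zero
    intro sR _
    rw [flz_neg N (by omega), mul_zero]

theorem XJ_rule (N J : ℕ) (h : Fin 4 → ℂ) (hJ : J ≤ N) : CRule N (XJ N J h) (WJ N J h) := by
  intro α B β hα hB hβ x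
  have hx1 : (x.1 : ℕ) ≤ N := Nat.lt_succ_iff.mp x.1.2
  have hx2 : (x.2 : ℕ) ≤ N := Nat.lt_succ_iff.mp x.2.2
  -- the left side
  have hL : ∑ y : I2 N, XJ N J h x y * flz N α B β (y.1 : ℕ) (y.2 : ℕ) =
      if (x.1 : ℕ) + (x.2 : ℕ) = α + B + β then SJ N J h x.1 x.2 *
        ∑ y : I2 N, MJ N J h y.1 y.2 * flz N α B β (y.1 : ℕ) (y.2 : ℕ) else 0 := by
    by_cases hw : (x.1 : ℕ) + (x.2 : ℕ) = α + B + β
    · rw [if_pos hw, Finset.mul_sum]
      apply Finset.sum_congr rfl
      intro y _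
      unfold XJ
      by_cases hy : (x.1 : ℕ) + x.2 = y.1 + y.2
      · rw [if_pos hy, mul_assoc]
      · rw [if_neg hy]
        unfold flz
        rw [if_neg (by omega)]
        ring
    · rw [if_neg hw]
      apply Finset.sum_eq_zero
      intro y _
      unfold XJ
      by_cases hy : (x.1 : ℕ) + x.2 = y.1 + y.2
      · unfold flz
        rw [if_neg (c := ((y.1 : ℕ) : ℤ) + ((y.2 : ℕ) : ℤ) = _) (by omega), mul_zero]
      · rw [if_neg hy, zero_mul]
  rw [hL, MJ_rule N J h hJ α B β hα hB hβ]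
  -- the right side
  have hR : ∑ sL ∈ Finset.range (N + 1), ∑ sR ∈ Finset.range (N + 1),
        (if B + sL + sR ≤ N then WJ N J h B sL sR *
          flz N ((α : ℤ) - sL) (B + sL + sR) ((β : ℤ) - sR) (x.1 : ℕ) (x.2 : ℕ) else 0) =
      ∑ sL ∈ Finset.range (N + 1), ∑ sR ∈ Finset.range (N + 1),
        ∑ a ∈ Finset.range (sL + 1), ∑ b ∈ Finset.range (sR + 1),
          (fun a a' b b' : ℕ => muJ N J h B a b * (nuJ N J h a' b' *
            flz N ((α : ℤ) - a - a') (J + a' + b') ((β : ℤ) - b - b') (x.1 : ℕ) (x.2 : ℕ)))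
            a (sL - a) b (sR - b) := by
    apply Finset.sum_congr rfl
    intro sL _
    apply Finset.sum_congr rfl
    intro sR _
    have h1 : (if B + sL + sR ≤ N then WJ N J h B sL sR *
          flz N ((α : ℤ) - sL) (B + sL + sR) ((β : ℤ) - sR) (x.1 : ℕ) (x.2 : ℕ) else 0) =
        WJ N J h B sL sR *
          flz N ((α : ℤ) - sL) (B + sL + sR) ((β : ℤ) - sR) (x.1 : ℕ) (x.2 : ℕ) := by
      by_cases hw : B + sL + sR ≤ N
      · rw [if_pos hw]
      · rw [if_neg hw]
        have : WJ N J h B sL sR = 0 := by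
          unfold WJ
          apply Finset.sum_eq_zero
          intro a ha
          apply Finset.sum_eq_zero
          intro b hb
          rw [Finset.mem_range] at ha hb
          by_cases hm : B + a + b = J
          · rw [K_X_nu0 N J h (by omega), mul_zero]
          · rw [K_X_mu0 N J h hm, zero_mul]
        rw [this, zero_mul]
    rw [h1]
    unfold WJ
    rw [Finset.sum_mul]
    apply Finset.sum_congr rfl
    intro a ha
    rw [Finset.sum_mul]
    apply Finset.sum_congr rfl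
    intro b hb
    rw [Finset.mem_range] at ha hb
    simp only
    by_cases hm : B + a + b = J
    · rw [mul_assoc]
      congr 2
      have e1 : (α : ℤ) - a - ((sL - a : ℕ) : ℤ) = (α : ℤ) - sL := by omega
      have e2 : (J : ℤ) + ((sL - a : ℕ) : ℤ) + ((sR - b : ℕ) : ℤ) = (B : ℤ) + sL + sR := by omega
      have e3 : (β : ℤ) - b - ((sR - b : ℕ) : ℤ) = (β : ℤ) - sR := by omega
      rw [e1, e2, e3]
    · rw [K_X_mu0 N J h hm, zero_mul, zero_mul, zero_mul]
  have hG := K_X_reg2 N (fun a a' b b' : ℕ => muJ N J h B a b * (nuJ N J h a' b' *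
      flz N ((α : ℤ) - a - a') (J + a' + b') ((β : ℤ) - b - b') (x.1 : ℕ) (x.2 : ℕ))) (by
    intro a a' b b' hab
    by_cases hm : B + a + b = J
    · rw [K_X_nu0 N J h (by omega), zero_mul, mul_zero]
    · rw [K_X_mu0 N J h hm, zero_mul])
  rw [hR, hG]
  have hI : ∀ a ∈ Finset.range (N + 1), ∀ b ∈ Finset.range (N + 1),
      ∑ a' ∈ Finset.range (N + 1), ∑ b' ∈ Finset.range (N + 1),
        muJ N J h B a b * (nuJ N J h a' b' *
          flz N ((α : ℤ) - a - a') (J + a' + b') ((β : ℤ) - b - b') (x.1 : ℕ) (x.2 : ℕ)) =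
      if (x.1 : ℕ) + (x.2 : ℕ) = α + B + β then (if α + B + β ≤ J + N then
        SJ N J h x.1 x.2 * (muJ N J h B a b * cJ N J ((α : ℤ) - a) ((β : ℤ) - b)) else 0)
      else 0 := by
    intro a ha b hb
    by_cases hm : B + a + b = J
    · simp only [← Finset.mul_sum]
      rw [K_X_S N J h hJ ((α : ℤ) - a) ((β : ℤ) - b) x.1 x.2 (by omega) (by omega) hx1 hx2]
      by_cases hw : (x.1 : ℕ) + (x.2 : ℕ) = α + B + β
      · by_cases hw2 : α + B + β ≤ J + N
        · rw [if_pos hw, if_pos hw2, if_pos (by omega)]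
          ring
        · rw [if_pos hw, if_neg hw2, if_neg (by omega), mul_zero]
      · rw [if_neg hw, if_neg (by omega), mul_zero]
    · simp only [K_X_mu0 N J h hm, zero_mul, mul_zero, Finset.sum_const_zero, ite_self]
  rw [Finset.sum_congr rfl (fun a ha => Finset.sum_congr rfl (fun b hb => hI a ha b hb))]
  by_cases hw : (x.1 : ℕ) + (x.2 : ℕ) = α + B + β
  · by_cases hw2 : α + B + β ≤ J + N
    · simp only [if_pos hw, if_pos hw2, ← Finset.mul_sum]
    · simp only [if_pos hw, if_neg hw2, mul_zero, Finset.sum_const_zero]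
  · simp only [if_neg hw, Finset.sum_const_zero]

theorem XJ_F (N J : ℕ) (h : Fin 4 → ℂ) (hJ : J ≤ N) : ComF N h (XJ N J h) := by
  have hS := isSp N J h hJ
  have hM := isMg N J h hJ
  unfold ComF
  ext x y
  obtain ⟨⟨c, hc⟩, ⟨d, hd⟩⟩ := x
  obtain ⟨⟨a, ha⟩, ⟨b, hb⟩⟩ := y
  rw [Matrix.mul_apply, Matrix.mul_apply]
  -- the left side
  have hL : ∑ z : I2 N, FM N (h 3) (h 0) (h 1) (⟨c, hc⟩, ⟨d, hd⟩) z *
        XJ N J h z (⟨a, ha⟩, ⟨b, hb⟩) =
      if c + d = a + b + 1 then
        ((if c = 0 then 0 else fF N (h 3) (h 0) (c - 1) * SJ N J h (c - 1) d) +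
        (if d = 0 then 0 else qz N ^ (2 * (c : ℤ) - N) * fF N (h 0) (h 1) (d - 1) *
          SJ N J h c (d - 1))) * MJ N J h a b else 0 := by
    have e : ∀ z : I2 N, FM N (h 3) (h 0) (h 1) (⟨c, hc⟩, ⟨d, hd⟩) z *
        XJ N J h z (⟨a, ha⟩, ⟨b, hb⟩) =
        (if c = z.1 + 1 ∧ d = z.2 then fF N (h 3) (h 0) z.1 *
          XJ N J h z (⟨a, ha⟩, ⟨b, hb⟩) else 0) +
        (if c = z.1 ∧ d = z.2 + 1 then qz N ^ (2 * ((z.1 : ℕ) : ℤ) - N) *
          fF N (h 0) (h 1) z.2 * XJ N J h z (⟨a, ha⟩, ⟨b, hb⟩) else 0) := by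
      intro z
      unfold FM
      simp only
      rw [add_mul, ite_mul, ite_mul, zero_mul]
    rw [Finset.sum_congr rfl (fun z _ => e z), Finset.sum_add_distrib]
    have s1 : ∑ z : I2 N, (if c = z.1 + 1 ∧ d = z.2 then fF N (h 3) (h 0) z.1 *
          XJ N J h z (⟨a, ha⟩, ⟨b, hb⟩) else 0) =
        if c + d = a + b + 1 then (if c = 0 then 0 else fF N (h 3) (h 0) (c - 1) *
          SJ N J h (c - 1) d) * MJ N J h a b else 0 := by
      by_cases hc0 : c = 0
      · rw [if_pos hc0, zero_mul, ite_self]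
        apply Finset.sum_eq_zero
        intro z _
        rw [if_neg (by omega)]
      · rw [Finset.sum_eq_single_of_mem (⟨⟨c - 1, by omega⟩, ⟨d, hd⟩⟩ : I2 N)
          (Finset.mem_univ _)]
        · rw [if_pos ⟨by simp only; omega, rfl⟩, if_neg hc0]
          unfold XJ
          simp only
          by_cases hw : c + d = a + b + 1
          · rw [if_pos hw, if_pos (by omega)]
            ring
          · rw [if_neg hw, if_neg (by omega), mul_zero]
        · intro z _ hz
          rw [if_neg]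
          rintro ⟨h1, h2⟩
          apply hz
          obtain ⟨⟨z1, hz1⟩, ⟨z2, hz2⟩⟩ := z
          simp only at h1 h2
          simp only [Prod.mk.injEq, Fin.mk.injEq]
          omega
    have s2 : ∑ z : I2 N, (if c = z.1 ∧ d = z.2 + 1 then qz N ^ (2 * ((z.1 : ℕ) : ℤ) - N) *
          fF N (h 0) (h 1) z.2 * XJ N J h z (⟨a, ha⟩, ⟨b, hb⟩) else 0) =
        if c + d = a + b + 1 then (if d = 0 then 0 else qz N ^ (2 * (c : ℤ) - N) *
          fF N (h 0) (h 1) (d - 1) * SJ N J h c (d - 1)) * MJ N J h a b else 0 := by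
      by_cases hd0 : d = 0
      · rw [if_pos hd0, zero_mul, ite_self]
        apply Finset.sum_eq_zero
        intro z _
        rw [if_neg (by omega)]
      · rw [Finset.sum_eq_single_of_mem (⟨⟨c, hc⟩, ⟨d - 1, by omega⟩⟩ : I2 N)
          (Finset.mem_univ _)]
        · rw [if_pos ⟨rfl, by simp only; omega⟩, if_neg hd0]
          unfold XJ
          simp only
          by_cases hw : c + d = a + b + 1
          · rw [if_pos hw, if_pos (by omega)]
            ring
          · rw [if_neg hw, if_neg (by omega), mul_zero]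
        · intro z _ hz
          rw [if_neg]
          rintro ⟨h1, h2⟩
          apply hz
          obtain ⟨⟨z1, hz1⟩, ⟨z2, hz2⟩⟩ := z
          simp only at h1 h2
          simp only [Prod.mk.injEq, Fin.mk.injEq]
          omega
    rw [s1, s2]
    by_cases hw : c + d = a + b + 1
    · rw [if_pos hw, if_pos hw, if_pos hw, add_mul]
    · rw [if_neg hw, if_neg hw, if_neg hw, add_zero]
  -- the right side
  have hR : ∑ z : I2 N, XJ N J h (⟨c, hc⟩, ⟨d, hd⟩) z *
        FM N (h 3) (h 2) (h 1) z (⟨a, ha⟩, ⟨b, hb⟩) =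
      if c + d = a + b + 1 then SJ N J h c d *
        (fF N (h 3) (h 2) a * MJ N J h (a + 1) b + qz N ^ (2 * (a : ℤ) - N) *
          fF N (h 2) (h 1) b * MJ N J h a (b + 1)) else 0 := by
    have e : ∀ z : I2 N, XJ N J h (⟨c, hc⟩, ⟨d, hd⟩) z *
        FM N (h 3) (h 2) (h 1) z (⟨a, ha⟩, ⟨b, hb⟩) =
        (if (z.1 : ℕ) = a + 1 ∧ (z.2 : ℕ) = b then XJ N J h (⟨c, hc⟩, ⟨d, hd⟩) z *
          fF N (h 3) (h 2) a else 0) +
        (if (z.1 : ℕ) = a ∧ (z.2 : ℕ) = b + 1 then XJ N J h (⟨c, hc⟩, ⟨d, hd⟩) z *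
          (qz N ^ (2 * (a : ℤ) - N) * fF N (h 2) (h 1) b) else 0) := by
      intro z
      unfold FM
      simp only
      rw [mul_add, mul_ite, mul_ite, mul_zero]
    rw [Finset.sum_congr rfl (fun z _ => e z), Finset.sum_add_distrib]
    have s1 : ∑ z : I2 N, (if (z.1 : ℕ) = a + 1 ∧ (z.2 : ℕ) = b then
          XJ N J h (⟨c, hc⟩, ⟨d, hd⟩) z * fF N (h 3) (h 2) a else 0) =
        if c + d = a + b + 1 then SJ N J h c d * (fF N (h 3) (h 2) a * MJ N J h (a + 1) b)
          else 0 := by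
      by_cases ha0 : a = N
      · rw [hM.supp (a + 1) b (by omega), mul_zero, mul_zero, ite_self]
        apply Finset.sum_eq_zero
        intro z _
        rw [if_neg (by omega)]
      · rw [Finset.sum_eq_single_of_mem (⟨⟨a + 1, by omega⟩, ⟨b, hb⟩⟩ : I2 N)
          (Finset.mem_univ _)]
        · rw [if_pos ⟨rfl, rfl⟩]
          unfold XJ
          simp only
          by_cases hw : c + d = a + b + 1
          · rw [if_pos hw, if_pos (by omega)]
            ring
          · rw [if_neg hw, if_neg (by omega), zero_mul]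
        · intro z _ hz
          rw [if_neg]
          rintro ⟨h1, h2⟩
          apply hz
          obtain ⟨⟨z1, hz1⟩, ⟨z2, hz2⟩⟩ := z
          simp only at h1 h2
          simp only [Prod.mk.injEq, Fin.mk.injEq]
          omega
    have s2 : ∑ z : I2 N, (if (z.1 : ℕ) = a ∧ (z.2 : ℕ) = b + 1 then
          XJ N J h (⟨c, hc⟩, ⟨d, hd⟩) z *
          (qz N ^ (2 * (a : ℤ) - N) * fF N (h 2) (h 1) b) else 0) =
        if c + d = a + b + 1 then SJ N J h c d * (qz N ^ (2 * (a : ℤ) - N) *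
          fF N (h 2) (h 1) b * MJ N J h a (b + 1)) else 0 := by
      by_cases hb0 : b = N
      · rw [hM.supp a (b + 1) (by omega), mul_zero, mul_zero, ite_self]
        apply Finset.sum_eq_zero
        intro z _
        rw [if_neg (by omega)]
      · rw [Finset.sum_eq_single_of_mem (⟨⟨a, ha⟩, ⟨b + 1, by omega⟩⟩ : I2 N)
          (Finset.mem_univ _)]
        · rw [if_pos ⟨rfl, rfl⟩]
          unfold XJ
          simp only
          by_cases hw : c + d = a + b + 1
          · rw [if_pos hw, if_pos (by omega)]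
            ring
          · rw [if_neg hw, if_neg (by omega), zero_mul]
        · intro z _ hz
          rw [if_neg]
          rintro ⟨h1, h2⟩
          apply hz
          obtain ⟨⟨z1, hz1⟩, ⟨z2, hz2⟩⟩ := z
          simp only at h1 h2
          simp only [Prod.mk.injEq, Fin.mk.injEq]
          omega
    rw [s1, s2]
    by_cases hw : c + d = a + b + 1
    · rw [if_pos hw, if_pos hw, if_pos hw, mul_add]
    · rw [if_neg hw, if_neg hw, if_neg hw, add_zero]
  rw [hL, hR]
  by_cases hw : c + d = a + b + 1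
  swap
  · rw [if_neg hw, if_neg hw]
  rw [if_pos hw, if_pos hw]
  have e1 : ((if c = 0 then 0 else fF N (h 3) (h 0) (c - 1) * SJ N J h (c - 1) d) +
        (if d = 0 then 0 else qz N ^ (2 * (c : ℤ) - N) * fF N (h 0) (h 1) (d - 1) *
          SJ N J h c (d - 1))) * MJ N J h a b =
      fJ N J (h 3) (h 1) ((a : ℤ) + b - J) * (SJ N J h c d * MJ N J h a b) := by
    by_cases hab : J ≤ a + b
    · rw [hS.F c d (by omega) (by omega) (by omega),
        show (c : ℤ) + d - 1 - J = (a : ℤ) + b - J by omega, mul_assoc]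
    · rw [hM.supp a b (by omega)]
      ring
  have e2 : SJ N J h c d *
        (fF N (h 3) (h 2) a * MJ N J h (a + 1) b + qz N ^ (2 * (a : ℤ) - N) *
          fF N (h 2) (h 1) b * MJ N J h a (b + 1)) =
      fJ N J (h 3) (h 1) ((a : ℤ) + b - J) * (SJ N J h c d * MJ N J h a b) := by
    by_cases hab : a + b < J + N
    · rw [hM.F a b (by omega) (by omega) hab]
      ring
    · rw [hS.supp c d (by omega)]
      ring
  rw [e1, e2]

private theorem K_X_pch0 (N : ℕ) (p : ℂ) : pch N p 0 = 1 := by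
  rw [pch, Finset.prod_range_zero]

private theorem K_X_ib0 (N : ℕ) : ib N ((0 : ℕ) : ℤ) = 1 := by
  rw [Nat.cast_zero, ib_zero]

private theorem K_X_qh_add (N : ℕ) (x y : ℂ) : qh N x * qh N y = qh N (x + y) := by
  unfold qh
  rw [← Complex.exp_add]
  congr 1
  ring

private theorem K_X_qh0 (N : ℕ) : qh N 0 = 1 := by
  unfold qh
  rw [mul_zero, zero_div, Complex.exp_zero]

theorem WJ_right (N J : ℕ) (h : Fin 4 → ℂ) (hJ : J ≤ N) (s : ℕ) (hs : s ≤ N) :
    WJ N J h 0 0 s = if J ≤ s then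
      qh N ((h 0 - h 1) * s) * (pch N (N - J + h 3 - h 2) J * pch N (N - J + h 3 - h 1) (N - s) *
        pch N (J + h 0 - h 3) (s - J)) * (ib N J * ib N ((N : ℤ) - s) * ib N ((s : ℤ) - J))
      else 0 := by
  unfold WJ
  rw [Nat.zero_add, Finset.sum_range_one]
  by_cases hs2 : J ≤ s
  · rw [if_pos hs2, Finset.sum_eq_single_of_mem J (Finset.mem_range.mpr (by omega))]
    · obtain ⟨t, rfl⟩ : ∃ t, s = J + t := ⟨s - J, by omega⟩
      have ht : J + t - J = t := by omega
      rw [ht, muJ, if_pos (by omega), nuJ, if_pos (by omega), Nat.sub_zero]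
      have e1 : N - J - 0 - t = N - (J + t) := by omega
      have e2 : (N : ℤ) - J - ((0 : ℕ) : ℤ) - (t : ℤ) = (N : ℤ) - ((J + t : ℕ) : ℤ) := by omega
      have e3 : ((J + t : ℕ) : ℤ) - J = (t : ℤ) := by omega
      have e4 : (h 0 - h 1) * ((J : ℂ) + ((0 : ℕ) : ℂ) + (t : ℂ)) + (h 1 - h 3) * ((0 : ℕ) : ℂ) =
          (h 0 - h 1) * ((J + t : ℕ) : ℂ) := by push_cast; ring
      have e5 : (h 1 - h 2) * ((0 : ℕ) : ℂ) + (h 1 - h 3) * ((0 : ℕ) : ℂ) = 0 := by
        push_cast; ring
      rw [e1, e2, e3, e4, e5, K_X_qh0, K_X_pch0, K_X_pch0, K_X_pch0, K_X_ib0]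
      ring
    · intro b _ hb
      rw [K_X_mu0 N J h (by omega), zero_mul]
  · rw [if_neg hs2]
    apply Finset.sum_eq_zero
    intro b hb
    rw [Finset.mem_range] at hb
    rw [K_X_mu0 N J h (by omega), zero_mul]

theorem WJ_left (N J : ℕ) (h : Fin 4 → ℂ) (hJ : J ≤ N) :
    WJ N J h 0 N 0 = qh N ((h 0 - h 3) * N) * (pch N (N - J + h 2 - h 1) J *
      pch N (J + h 1 - h 0) (N - J)) * (ib N J * ib N ((N : ℤ) - J)) := by
  unfold WJ
  rw [Finset.sum_eq_single_of_mem J (Finset.mem_range.mpr (by omega))]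
  · rw [Nat.zero_add, Finset.sum_range_one]
    obtain ⟨t, rfl⟩ : ∃ t, N = J + t := ⟨N - J, by omega⟩
    have ht : J + t - J = t := by omega
    rw [ht, muJ, if_pos (by omega), nuJ, if_pos (by omega), Nat.sub_zero]
    have e1 : J + t - J - t - 0 = 0 := by omega
    have e2 : ((J + t : ℕ) : ℤ) - J - (t : ℤ) - ((0 : ℕ) : ℤ) = 0 := by omega
    have e3 : ((J + t : ℕ) : ℤ) - J = (t : ℤ) := by omega
    rw [e1, e2, e3, K_X_pch0, K_X_pch0, K_X_pch0, K_X_pch0, K_X_ib0, ib_zero]
    have e4 : qh (J + t) ((h 0 - h 3) * ((J + t : ℕ) : ℂ)) =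
        qh (J + t) ((h 1 - h 2) * ((0 : ℕ) : ℂ) + (h 1 - h 3) * (J : ℂ)) *
        qh (J + t) ((h 0 - h 1) * ((J : ℂ) + (t : ℂ) + ((0 : ℕ) : ℂ)) + (h 1 - h 3) * (t : ℂ)) := by
      rw [K_X_qh_add]
      congr 1
      push_cast
      ring
    rw [e4]
    ring
  · intro a _ ha
    apply Finset.sum_eq_zero
    intro b hb
    rw [Finset.mem_range] at hb
    rw [K_X_mu0 N J h (by omega), zero_mul]

/-- The weights of `XJ` are supported on `B + sL + sR ≤ N`. -/
theorem WJ_supp (N J : ℕ) (h : Fin 4 → ℂ) (hJ : J ≤ N) (B sL sR : ℕ) (hs : N < B + sL + sR) :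
    WJ N J h B sL sR = 0 := by
  unfold WJ
  apply Finset.sum_eq_zero
  intro a ha
  apply Finset.sum_eq_zero
  intro b hb
  rw [Finset.mem_range] at ha hb
  by_cases hm : B + a + b = J
  · rw [K_X_nu0 N J h (by omega), mul_zero]
  · rw [K_X_mu0 N J h hm, zero_mul]

end Pool.Agent.H63.CLK
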