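import Pool.Agent.H63.CLK.N_SN
import Pool.Agent.H63.CLK.K_Q0

/-!
# All directions, analysis: the coefficients of the channels

Let `r = N - t`, `M = N + 1`, `s_j = sin (π j / M)`; `Xc N i - Xc N k = 4 s_(i+k+1) s_(k-i)` (`Xc_sub`).
By `Xc N (N - k) = Xc N k`, `sin (π (2 (N - k) + 1) / M) = - sin (π (2 k + 1) / M)` one has
`QN N (N - k) t = QN N k t`, `EN N (N - k) t = - EN N k t`, `gk (1 - κ) τ = gk κ τ` (`Fr_add_one`, `Fr_neg`), so let `2 k ≤ N`.

* `r ≤ k`: `QN N k t = SN (k + r) / (SN r ^ 2 * SN (k - r))`, and `EN = - QN * (π / M) ∑_{j<r} (cot (π (k+j+1) / M) +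
  cot (π (k-j) / M))` (for `2 k < N`: `4 sin (π (2k+1)/M) / (4 s_(j+k+1) s_(k-j)) = cot + cot` up to the factor; for `2 k = N` both
  sides vanish since `sin π = 0`); `|cot (π j / M)| ≤ M` for `1 ≤ j ≤ N`, so `|EN| ≤ 2 π N QN`.
* `k < r`: `QN = 0` (the factor `i = k`). `k < r ≤ N - k` (so `2 k < N`): only `j = k` contributes to `EN`, and
  `|EN| = (4 π s_(2k+1) / M) ∏_{i<r, i≠k} 4 |s_(i+k+1) s_(k-i)| / SN r ^ 2 = (2 π / M) SN (k+r) SN (r-k-1) / SN r ^ 2`
  (all the numbers `i + k + 1` are between `k + 1` and `k + r ≤ N`; the factor `2 s_(2k+1)` is the missing one).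
* `r > N - k`: the factor `i = N - k` vanishes too; `EN = 0` (for `2 k = N` because of `sin π = 0`).

Bounds: `SN_bound`, `Fr_shift` (for `r - k - 1` instead of `r - k`), `Fr_neg`:
`Fr (κ + ρ) - Fr (κ - ρ) - 2 Fr ρ`, `ρ = r / N = 1 - t / N`.
-/

set_option autoImplicit false

namespace Pool.Agent.H63.CLK

open Pool.Agent.H63.VC hiding ext
open Pool.Agent.H63.VC3 Pool.Agent.H63.VC4 Pool.Agent.H63.VC7 Complex Filter Topology
open scoped BigOperators

private theorem N_QE_angle (N k : ℕ) (hk : k ≤ N) :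
    Real.pi * (2 * ((N - k : ℕ) : ℝ) + 1) / ((N + 1 : ℕ) : ℝ) =
      2 * Real.pi - Real.pi * (2 * k + 1) / ((N + 1 : ℕ) : ℝ) := by
  have hM : ((N + 1 : ℕ) : ℝ) ≠ 0 := by positivity
  rw [Nat.cast_sub hk, eq_sub_iff_add_eq, ← add_div, div_eq_iff hM]
  push_cast
  ring

theorem Xc_flip (N k : ℕ) (hk : k ≤ N) : Xc N (N - k) = Xc N k := by
  unfold Xc
  rw [N_QE_angle N k hk, Real.cos_two_pi_sub]

theorem QN_flip (N k t : ℕ) (hk : k ≤ N) : QN N (N - k) t = QN N k t := by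
  unfold QN
  rw [Xc_flip N k hk]

theorem EN_flip (N k t : ℕ) (hk : k ≤ N) : EN N (N - k) t = -EN N k t := by
  unfold EN
  rw [Xc_flip N k hk, N_QE_angle N k hk, Real.sin_two_pi_sub]
  ring

theorem QN_zero (N k t : ℕ) (hk : k ≤ N) (ht : t ≤ N) (h : t < k ∨ t < N - k) : QN N k t = 0 := by
  unfold QN
  rcases h with h | h
  · rw [Finset.prod_eq_zero (Finset.mem_range.mpr (show N - k < N - t by omega)), zero_div]
    rw [Xc_flip N k hk, sub_self]
  · rw [Finset.prod_eq_zero (Finset.mem_range.mpr (show k < N - t by omega)), zero_div]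
    rw [sub_self]

theorem EN_zero (N k t : ℕ) (hk : k ≤ N) (ht : t ≤ N) (h1 : t < k) (h2 : t < N - k) :
    EN N k t = 0 := by
  unfold EN
  by_cases he : N - k = k
  · have h3 : Real.pi * (2 * k + 1) / ((N + 1 : ℕ) : ℝ) = Real.pi := by
      have hM : ((N + 1 : ℕ) : ℝ) ≠ 0 := by positivity
      rw [div_eq_iff hM]
      have : N = 2 * k := by omega
      rw [this]
      push_cast
      ring
    rw [h3, Real.sin_pi]
    simp
  · rw [Finset.sum_eq_zero, zero_div, mul_zero]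
    intro j hj
    by_cases hjk : j = k
    · refine Finset.prod_eq_zero (Finset.mem_erase.mpr ⟨?_, Finset.mem_range.mpr
        (show N - k < N - t by omega)⟩) ?_
      · rw [hjk]; exact he
      · rw [Xc_flip N k hk, sub_self]
    · refine Finset.prod_eq_zero (Finset.mem_erase.mpr ⟨fun h => hjk h.symm, Finset.mem_range.mpr
        (show k < N - t by omega)⟩) ?_
      rw [sub_self]

/-- The coefficients of the middle channel are nonnegative. -/
theorem QN_mid_nonneg (n t : ℕ) (ht : t ≤ 2 * n) : 0 ≤ QN (2 * n) n t := by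
  unfold QN
  refine div_nonneg (Finset.prod_nonneg fun i _ => ?_) (sq_nonneg _)
  unfold Xc
  have h3 : Real.pi * (2 * n + 1) / ((2 * n + 1 : ℕ) : ℝ) = Real.pi := by
    have hM : ((2 * n + 1 : ℕ) : ℝ) ≠ 0 := by positivity
    rw [div_eq_iff hM]
    push_cast
    ring
  rw [h3, Real.cos_pi]
  have := Real.neg_one_le_cos (Real.pi * (2 * i + 1) / ((2 * n + 1 : ℕ) : ℝ))
  linarith

/-- `2 sin (π x / M)`. -/
private noncomputable def N_QE_u (N : ℕ) (x : ℝ) : ℝ :=
  2 * Real.sin (Real.pi * x / ((N + 1 : ℕ) : ℝ))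

private theorem N_QE_u_neg (N : ℕ) (x : ℝ) : N_QE_u N (-x) = -N_QE_u N x := by
  unfold N_QE_u
  rw [show Real.pi * -x / ((N + 1 : ℕ) : ℝ) = -(Real.pi * x / ((N + 1 : ℕ) : ℝ)) by ring,
    Real.sin_neg]
  ring

private theorem N_QE_sub (N i k : ℕ) :
    Xc N i - Xc N k = N_QE_u N (k + i + 1) * N_QE_u N (k - i) := by
  rw [Xc_sub]
  unfold N_QE_u
  rw [show (k : ℝ) + i + 1 = i + k + 1 by ring]
  ring

private theorem N_QE_low (N m : ℕ) (h1 : 1 ≤ m) (h2 : m ≤ N) :
    1 / ((N + 1 : ℕ) : ℝ) ≤ N_QE_u N m := by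
  have hM : (0 : ℝ) < ((N + 1 : ℕ) : ℝ) := by positivity
  have hm : (1 : ℝ) ≤ m := by exact_mod_cast h1
  have hm2 : (m : ℝ) + 1 ≤ ((N + 1 : ℕ) : ℝ) := by exact_mod_cast (by omega : m + 1 ≤ N + 1)
  have hp := Real.pi_pos
  unfold N_QE_u
  rcases le_total (2 * (m : ℝ)) ((N + 1 : ℕ) : ℝ) with h | h
  · have h3 : Real.pi * m / ((N + 1 : ℕ) : ℝ) ≤ Real.pi / 2 := by
      rw [div_le_div_iff₀ hM two_pos]
      nlinarith
    have h4 := Real.mul_le_sin (x := Real.pi * m / ((N + 1 : ℕ) : ℝ)) (by positivity) h3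
    have h5 : 2 / Real.pi * (Real.pi * m / ((N + 1 : ℕ) : ℝ)) = 2 * m / ((N + 1 : ℕ) : ℝ) := by
      field_simp
    rw [h5] at h4
    have h6 : 1 / ((N + 1 : ℕ) : ℝ) ≤ 2 * m / ((N + 1 : ℕ) : ℝ) :=
      div_le_div_of_nonneg_right (by linarith) hM.le
    have h7 : (0 : ℝ) ≤ 1 / ((N + 1 : ℕ) : ℝ) := by positivity
    linarith
  · have h0 : Real.sin (Real.pi * m / ((N + 1 : ℕ) : ℝ)) =
        Real.sin (Real.pi * (((N + 1 : ℕ) : ℝ) - m) / ((N + 1 : ℕ) : ℝ)) := by
      rw [← Real.sin_pi_sub]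
      congr 1
      field_simp
    rw [h0]
    have h3 : Real.pi * (((N + 1 : ℕ) : ℝ) - m) / ((N + 1 : ℕ) : ℝ) ≤ Real.pi / 2 := by
      rw [div_le_div_iff₀ hM two_pos]
      nlinarith
    have h4 := Real.mul_le_sin (x := Real.pi * (((N + 1 : ℕ) : ℝ) - m) / ((N + 1 : ℕ) : ℝ))
      (div_nonneg (mul_nonneg hp.le (by linarith)) hM.le) h3
    have h5 : 2 / Real.pi * (Real.pi * (((N + 1 : ℕ) : ℝ) - m) / ((N + 1 : ℕ) : ℝ)) =
        2 * (((N + 1 : ℕ) : ℝ) - m) / ((N + 1 : ℕ) : ℝ) := by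
      field_simp
    rw [h5] at h4
    have h6 : 1 / ((N + 1 : ℕ) : ℝ) ≤ 2 * (((N + 1 : ℕ) : ℝ) - m) / ((N + 1 : ℕ) : ℝ) :=
      div_le_div_of_nonneg_right (by linarith) hM.le
    have h7 : (0 : ℝ) ≤ 1 / ((N + 1 : ℕ) : ℝ) := by positivity
    linarith

private theorem N_QE_pos (N m : ℕ) (h1 : 1 ≤ m) (h2 : m ≤ N) : 0 < N_QE_u N m :=
  lt_of_lt_of_le (by positivity) (N_QE_low N m h1 h2)

private theorem N_QE_SN (N n : ℕ) : SN N n = ∏ j ∈ Finset.range n, N_QE_u N (j + 1) := rfl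

private theorem N_QE_SN_succ (N n : ℕ) : SN N (n + 1) = SN N n * N_QE_u N (n + 1) := by
  rw [N_QE_SN, Finset.prod_range_succ]
  rfl

private theorem N_QE_p1 (N k r : ℕ) :
    SN N k * ∏ i ∈ Finset.range r, N_QE_u N (k + i + 1) = SN N (k + r) := by
  rw [N_QE_SN, N_QE_SN, Finset.prod_range_add]
  congr 1
  refine Finset.prod_congr rfl fun i _ => ?_
  push_cast
  rfl

private theorem N_QE_p2 (N k : ℕ) (r : ℕ) (h : r ≤ k) :
    (∏ i ∈ Finset.range r, N_QE_u N (k - i)) * SN N (k - r) = SN N k := by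
  induction r with
  | zero => simp
  | succ r ih =>
    rw [Finset.prod_range_succ, ← ih (by omega)]
    obtain ⟨m, hm⟩ : ∃ m, k = m + r + 1 := ⟨k - r - 1, by omega⟩
    have e1 : k - (r + 1) = m := by omega
    have e2 : k - r = m + 1 := by omega
    rw [e1, e2, N_QE_SN_succ]
    have e3 : (k : ℝ) - r = m + 1 := by rw [hm]; push_cast; ring
    rw [e3]
    ring

private theorem N_QE_QN (N k t : ℕ) (ht : t ≤ N) (h1 : N - t ≤ k) (h2 : k + (N - t) ≤ N) :
    QN N k t = SN N (k + (N - t)) / (SN N (N - t) ^ 2 * SN N (k - (N - t))) := by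
  unfold QN
  generalize N - t = r at *
  have hk0 := SN_pos N k (by omega)
  have hk1 := SN_pos N (k - r) (by omega)
  have hr0 := SN_pos N r (by omega)
  have h3 : ∏ i ∈ Finset.range r, (Xc N i - Xc N k) =
      (∏ i ∈ Finset.range r, N_QE_u N (k + i + 1)) * ∏ i ∈ Finset.range r, N_QE_u N (k - i) := by
    rw [← Finset.prod_mul_distrib]
    exact Finset.prod_congr rfl fun i _ => N_QE_sub N i k
  rw [h3, ← N_QE_p1 N k r]
  have h4 := N_QE_p2 N k r h1
  generalize ∏ i ∈ Finset.range r, N_QE_u N (k + i + 1) = a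
  generalize ∏ i ∈ Finset.range r, N_QE_u N (k - i) = b at h4 ⊢
  rw [div_eq_div_iff (by positivity) (by positivity), ← h4]
  ring

private theorem N_QE_gk (N k t : ℕ) (hN : 1 ≤ N) (ht : t ≤ N) :
    gk ((k : ℝ) / N) ((t : ℝ) / N) = Fr (((k + (N - t) : ℕ) : ℝ) / N) -
      Fr (((k : ℝ) - ((N - t : ℕ) : ℝ)) / N) - 2 * Fr (((N - t : ℕ) : ℝ) / N) := by
  have hN0 : (N : ℝ) ≠ 0 := by
    have : (1 : ℝ) ≤ N := by exact_mod_cast hN
    positivity
  have e : 1 - (t : ℝ) / N = ((N - t : ℕ) : ℝ) / N := by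
    rw [Nat.cast_sub ht, sub_div, div_self hN0]
  unfold gk
  rw [e, ← add_div, ← sub_div, Nat.cast_add]

private theorem N_QE_gk_flip (N k t : ℕ) (hN : 1 ≤ N) (hk : k ≤ N) :
    gk (((N - k : ℕ) : ℝ) / N) ((t : ℝ) / N) = gk ((k : ℝ) / N) ((t : ℝ) / N) := by
  have hN0 : (N : ℝ) ≠ 0 := by
    have : (1 : ℝ) ≤ N := by exact_mod_cast hN
    positivity
  have e : ((N - k : ℕ) : ℝ) / N = -((k : ℝ) / N) + 1 := by
    rw [Nat.cast_sub hk, sub_div, div_self hN0]
    ring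
  rw [e]
  unfold gk
  generalize (k : ℝ) / N = x
  generalize 1 - (t : ℝ) / N = y
  rw [show -x + 1 + y = -(x - y) + 1 by ring, show -x + 1 - y = -(x + y) + 1 by ring, Fr_add_one,
    Fr_add_one, Fr_neg, Fr_neg]
  ring

private theorem N_QE_ratio (A a b c e1 e2 e3 : ℝ) (hA : 0 < A) (hb : 0 < b) (hc : 0 < c)
    (h2 : 0 < e2) (h3 : 0 < e3) (ha0 : 0 ≤ a) (h1' : a ≤ A * e1)
    (h2' : e2 ≤ A * b) (h3' : e3 ≤ A * c) : a / (b ^ 2 * c) ≤ A ^ 4 * (e1 / (e2 ^ 2 * e3)) := by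
  have hb1 : 1 / b ≤ A / e2 := by
    rw [div_le_div_iff₀ hb h2]
    linarith
  have hc1 : 1 / c ≤ A / e3 := by
    rw [div_le_div_iff₀ hc h3]
    linarith
  calc a / (b ^ 2 * c) = a * ((1 / b) ^ 2 * (1 / c)) := by
        field_simp
    _ ≤ (A * e1) * ((A / e2) ^ 2 * (A / e3)) := by
        apply mul_le_mul h1' _ (by positivity) (ha0.trans h1')
        exact mul_le_mul (pow_le_pow_left₀ (by positivity) hb1 2) hc1 (by positivity)
          (by positivity)
    _ = A ^ 4 * (e1 / (e2 ^ 2 * e3)) := by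
        field_simp

private theorem N_QE_exp (x a b c : ℝ) :
    Real.exp (x * a) / (Real.exp (x * b) ^ 2 * Real.exp (x * c)) =
      Real.exp (x * (a - c - 2 * b)) := by
  rw [← Real.exp_nat_mul, ← Real.exp_add, ← Real.exp_sub]
  congr 1
  push_cast
  ring

theorem QN_bound : ∃ C : ℝ, 0 < C ∧ ∃ D : ℕ, ∀ N k t : ℕ, 1 ≤ N → k ≤ N → t ≤ N →
    |QN N k t| ≤ C * ((N + 1 : ℕ) : ℝ) ^ D * Real.exp (N * gk ((k : ℝ) / N) ((t : ℝ) / N)) := by
  obtain ⟨C, hC, D, hb⟩ := SN_bound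
  refine ⟨C ^ 4, by positivity, D * 4, fun N k t hN hk ht => ?_⟩
  by_cases hz : t < k ∨ t < N - k
  swap
  · have h1 : N - t ≤ k := by omega
    have h2 : k + (N - t) ≤ N := by omega
    rw [N_QE_QN N k t ht h1 h2, N_QE_gk N k t hN ht]
    have b1 := (hb N (k + (N - t)) hN h2).1
    have b2 := (hb N (N - t) hN (by omega)).2
    have b3 := (hb N (k - (N - t)) hN (by omega)).2
    have p1 := SN_pos N (k + (N - t)) h2
    have p2 := SN_pos N (N - t) (by omega)
    have p3 := SN_pos N (k - (N - t)) (by omega)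
    rw [abs_of_nonneg (by positivity)]
    have h := N_QE_ratio (C * ((N + 1 : ℕ) : ℝ) ^ D) _ _ _ _ _ _ (by positivity) p2 p3
      (Real.exp_pos _) (Real.exp_pos _) p1.le b1 b2 b3
    rw [N_QE_exp, mul_pow, ← pow_mul, Nat.cast_sub h1] at h
    exact h
  · rw [QN_zero N k t hk ht hz, abs_zero]
    positivity

private theorem N_QE_caseA (N k t : ℕ) (ht : t ≤ N) (h1 : N - t ≤ k)
    (h2 : k + (N - t) ≤ N) : |EN N k t| ≤ 16 * ((N + 1 : ℕ) : ℝ) ^ 2 * |QN N k t| := by
  have hr : N - t ≤ N := by omega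
  unfold EN QN
  generalize N - t = r at *
  have hM : (0 : ℝ) < ((N + 1 : ℕ) : ℝ) := by positivity
  have hS := SN_pos N r hr
  set P : ℝ := ∏ i ∈ Finset.range r, (Xc N i - Xc N k) with hP
  have hj : ∀ j ∈ Finset.range r, |∏ i ∈ (Finset.range r).erase j, (Xc N i - Xc N k)| ≤
      ((N + 1 : ℕ) : ℝ) ^ 2 * |P| := by
    intro j hj
    have hj' := Finset.mem_range.mp hj
    have h3 := Finset.mul_prod_erase (Finset.range r) (fun i => Xc N i - Xc N k) hj
    rw [← hP] at h3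
    have h4 : 1 / ((N + 1 : ℕ) : ℝ) ^ 2 ≤ |Xc N j - Xc N k| := by
      rw [N_QE_sub, abs_mul]
      have e1 := N_QE_low N (k + j + 1) (by omega) (by omega)
      have e2 := N_QE_low N (k - j) (by omega) (by omega)
      rw [Nat.cast_sub (by omega)] at e2
      push_cast at e1
      have e1' : 1 / ((N + 1 : ℕ) : ℝ) ≤ |N_QE_u N ((k : ℝ) + j + 1)| := by
        push_cast
        exact e1.trans (le_abs_self _)
      have e2' := e2.trans (le_abs_self _)
      calc 1 / ((N + 1 : ℕ) : ℝ) ^ 2 = 1 / ((N + 1 : ℕ) : ℝ) * (1 / ((N + 1 : ℕ) : ℝ)) := by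
            field_simp
        _ ≤ _ := mul_le_mul e1' e2' (by positivity) (abs_nonneg _)
    rw [← h3, abs_mul]
    have h5 : 1 ≤ ((N + 1 : ℕ) : ℝ) ^ 2 * |Xc N j - Xc N k| := by
      rw [div_le_iff₀ (by positivity)] at h4
      linarith
    calc |∏ i ∈ (Finset.range r).erase j, (Xc N i - Xc N k)|
        = 1 * |∏ i ∈ (Finset.range r).erase j, (Xc N i - Xc N k)| := (one_mul _).symm
      _ ≤ (((N + 1 : ℕ) : ℝ) ^ 2 * |Xc N j - Xc N k|) *
          |∏ i ∈ (Finset.range r).erase j, (Xc N i - Xc N k)| :=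
          mul_le_mul_of_nonneg_right h5 (abs_nonneg _)
      _ = _ := by ring
  have hsum : |∑ j ∈ Finset.range r, ∏ i ∈ (Finset.range r).erase j, (Xc N i - Xc N k)| ≤
      r * (((N + 1 : ℕ) : ℝ) ^ 2 * |P|) := by
    refine (Finset.abs_sum_le_sum_abs _ _).trans ?_
    refine (Finset.sum_le_sum hj).trans ?_
    rw [Finset.sum_const, Finset.card_range, nsmul_eq_mul]
  rw [abs_mul, abs_neg, abs_div, abs_div, abs_div, abs_mul, abs_of_pos hM,
    abs_of_pos (by positivity : 0 < SN N r ^ 2),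
    abs_of_pos (by positivity : (0 : ℝ) < 4 * Real.pi)]
  have hs : |Real.sin (Real.pi * (2 * k + 1) / ((N + 1 : ℕ) : ℝ))| ≤ 1 := Real.abs_sin_le_one _
  have hpi : Real.pi ≤ 4 := Real.pi_le_four
  have hpi0 := Real.pi_pos
  have hrM : (r : ℝ) ≤ ((N + 1 : ℕ) : ℝ) := by exact_mod_cast (by omega : r ≤ N + 1)
  calc 4 * Real.pi * |Real.sin (Real.pi * (2 * k + 1) / ((N + 1 : ℕ) : ℝ))| /
        ((N + 1 : ℕ) : ℝ) *
        (|∑ j ∈ Finset.range r, ∏ i ∈ (Finset.range r).erase j, (Xc N i - Xc N k)| /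
          SN N r ^ 2)
      ≤ 4 * 4 * 1 / ((N + 1 : ℕ) : ℝ) *
        ((((N + 1 : ℕ) : ℝ) * (((N + 1 : ℕ) : ℝ) ^ 2 * |P|)) / SN N r ^ 2) := by
        apply mul_le_mul
        · apply div_le_div_of_nonneg_right _ hM.le
          apply mul_le_mul (by linarith) hs (abs_nonneg _) (by norm_num)
        · apply div_le_div_of_nonneg_right _ (by positivity)
          refine hsum.trans ?_
          exact mul_le_mul_of_nonneg_right hrM (by positivity)
        · positivity
        · positivity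
    _ = 16 * ((N + 1 : ℕ) : ℝ) ^ 2 * (|P| / SN N r ^ 2) := by
        field_simp
        ring

private theorem N_QE_caseB (N k t m : ℕ) (h1 : N - t = k + 1 + m)
    (h2 : k + (N - t) ≤ N) :
    |EN N k t| ≤ 8 * (SN N (k + (N - t)) * SN N m / SN N (N - t) ^ 2) := by
  unfold EN
  generalize N - t = r at *
  subst h1
  have hM : (0 : ℝ) < ((N + 1 : ℕ) : ℝ) := by positivity
  have hM1 : (1 : ℝ) ≤ ((N + 1 : ℕ) : ℝ) := by exact_mod_cast (by omega : 1 ≤ N + 1)
  have hS := SN_pos N (k + 1 + m) (by omega)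
  have hk : k ∈ Finset.range (k + 1 + m) := Finset.mem_range.mpr (by omega)
  have hsum : ∑ j ∈ Finset.range (k + 1 + m), ∏ i ∈ (Finset.range (k + 1 + m)).erase j,
      (Xc N i - Xc N k) = ∏ i ∈ (Finset.range (k + 1 + m)).erase k, (Xc N i - Xc N k) := by
    refine Finset.sum_eq_single_of_mem k hk fun j hj hjk => ?_
    refine Finset.prod_eq_zero (Finset.mem_erase.mpr ⟨fun h => hjk h.symm, hk⟩) ?_
    rw [sub_self]
  rw [hsum]
  have hprod : ∏ i ∈ (Finset.range (k + 1 + m)).erase k, (Xc N i - Xc N k) =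
      (∏ i ∈ (Finset.range (k + 1 + m)).erase k, N_QE_u N (k + i + 1)) *
        ∏ i ∈ (Finset.range (k + 1 + m)).erase k, N_QE_u N (k - i) := by
    rw [← Finset.prod_mul_distrib]
    exact Finset.prod_congr rfl fun i _ => N_QE_sub N i k
  have hA := Finset.mul_prod_erase (Finset.range (k + 1 + m))
    (fun i : ℕ => N_QE_u N ((k : ℝ) + i + 1)) hk
  have hA2 := N_QE_p1 N k (k + 1 + m)
  have hB : |∏ i ∈ (Finset.range (k + 1 + m)).erase k, N_QE_u N ((k : ℝ) - i)| =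
      SN N k * SN N m := by
    have e1 : ∏ i ∈ (Finset.range (k + 1 + m)).erase k, N_QE_u N ((k : ℝ) - i) =
        ∏ i ∈ Finset.range (k + 1 + m), (if i = k then (1 : ℝ) else N_QE_u N ((k : ℝ) - i)) := by
      rw [← Finset.prod_erase (Finset.range (k + 1 + m)) (a := k)
        (f := fun i => if i = k then (1 : ℝ) else N_QE_u N ((k : ℝ) - i)) (by simp)]
      refine Finset.prod_congr rfl fun i hi => ?_
      rw [if_neg (Finset.ne_of_mem_erase hi)]
    rw [e1, Finset.prod_range_add, Finset.prod_range_succ, if_pos rfl, mul_one, abs_mul]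
    congr 1
    · have e2 : ∏ i ∈ Finset.range k, (if i = k then (1 : ℝ) else N_QE_u N ((k : ℝ) - i)) =
          ∏ i ∈ Finset.range k, N_QE_u N ((k : ℝ) - i) := by
        refine Finset.prod_congr rfl fun i hi => ?_
        rw [if_neg (by have := Finset.mem_range.mp hi; omega)]
      have e3 := N_QE_p2 N k k le_rfl
      rw [Nat.sub_self, N_QE_SN N 0, Finset.prod_range_zero, mul_one] at e3
      rw [e2, e3, abs_of_pos (SN_pos N k (by omega))]
    · rw [Finset.abs_prod, N_QE_SN]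
      refine Finset.prod_congr rfl fun i hi => ?_
      have hi' := Finset.mem_range.mp hi
      rw [if_neg (by omega), show (k : ℝ) - ((k + 1 + i : ℕ) : ℝ) = -((i : ℝ) + 1) by
        push_cast; ring, N_QE_u_neg, abs_neg]
      apply abs_of_pos
      have := N_QE_pos N (i + 1) (by omega) (by omega)
      rw [Nat.cast_succ] at this
      exact this
  have hs : Real.sin (Real.pi * (2 * k + 1) / ((N + 1 : ℕ) : ℝ)) =
      N_QE_u N ((k : ℝ) + k + 1) / 2 := by
    unfold N_QE_u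
    rw [show (k : ℝ) + k + 1 = 2 * k + 1 by ring]
    ring
  rw [hprod, hs]
  have hpi : Real.pi ≤ 4 := Real.pi_le_four
  have hpi0 := Real.pi_pos
  have hmain : |N_QE_u N ((k : ℝ) + k + 1) *
      ((∏ i ∈ (Finset.range (k + 1 + m)).erase k, N_QE_u N (k + i + 1)) *
        ∏ i ∈ (Finset.range (k + 1 + m)).erase k, N_QE_u N (k - i))| =
      SN N (k + (k + 1 + m)) * SN N m := by
    rw [← mul_assoc, hA, abs_mul, hB, ← hA2, ← mul_assoc]
    congr 1
    have hk0 := SN_pos N k (by omega)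
    have hpos : 0 < ∏ i ∈ Finset.range (k + 1 + m), N_QE_u N ((k : ℝ) + i + 1) := by
      refine Finset.prod_pos fun i hi => ?_
      have hi' := Finset.mem_range.mp hi
      have := N_QE_pos N (k + i + 1) (by omega) (by omega)
      push_cast at this
      exact this
    rw [abs_of_pos hpos, mul_comm]
  have hS2 : (0 : ℝ) < SN N (k + 1 + m) ^ 2 := by positivity
  have e5 : -(4 * Real.pi * (N_QE_u N ((k : ℝ) + k + 1) / 2) / ((N + 1 : ℕ) : ℝ)) *
      ((∏ i ∈ (Finset.range (k + 1 + m)).erase k, N_QE_u N (k + i + 1)) *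
        (∏ i ∈ (Finset.range (k + 1 + m)).erase k, N_QE_u N (k - i)) / SN N (k + 1 + m) ^ 2) =
      -(2 * Real.pi / ((N + 1 : ℕ) : ℝ)) * ((N_QE_u N ((k : ℝ) + k + 1) *
      ((∏ i ∈ (Finset.range (k + 1 + m)).erase k, N_QE_u N (k + i + 1)) *
        ∏ i ∈ (Finset.range (k + 1 + m)).erase k, N_QE_u N (k - i))) /
          SN N (k + 1 + m) ^ 2) := by
    ring
  rw [e5, abs_mul, abs_neg, abs_div _ (SN N (k + 1 + m) ^ 2), hmain, abs_of_pos hS2,
    abs_of_pos (by positivity : 0 < 2 * Real.pi / ((N + 1 : ℕ) : ℝ))]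
  have hp1 := SN_pos N (k + (k + 1 + m)) h2
  have hp2 := SN_pos N m (by omega)
  refine mul_le_mul_of_nonneg_right ?_ (by positivity)
  rw [div_le_iff₀ hM]
  nlinarith

theorem EN_bound : ∃ C : ℝ, 0 < C ∧ ∃ D : ℕ, ∀ N k t : ℕ, 1 ≤ N → k ≤ N → t ≤ N →
    |EN N k t| ≤ C * ((N + 1 : ℕ) : ℝ) ^ D * Real.exp (N * gk ((k : ℝ) / N) ((t : ℝ) / N)) := by
  obtain ⟨C, hC, D, hb⟩ := SN_bound
  obtain ⟨C1, hC1, D1, hq⟩ := QN_bound
  obtain ⟨C2, hC2, D2, hs⟩ := Fr_shift 1
  have key : ∀ N k t : ℕ, 1 ≤ N → k ≤ N → t ≤ N → k + (N - t) ≤ N →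
      |EN N k t| ≤ (16 * C1 + 8 * C ^ 4 * C2) * ((N + 1 : ℕ) : ℝ) ^ (D1 + 2 + D * 4 + D2) *
        Real.exp (N * gk ((k : ℝ) / N) ((t : ℝ) / N)) := by
    intro N k t hN hk ht h2
    have hM1 : (1 : ℝ) ≤ ((N + 1 : ℕ) : ℝ) := by exact_mod_cast (by omega : 1 ≤ N + 1)
    have hN0 : (0 : ℝ) < N := by exact_mod_cast hN
    rcases le_or_gt (N - t) k with h1 | h1
    · refine (N_QE_caseA N k t ht h1 h2).trans ?_
      have e1 := hq N k t hN hk ht
      have e2 : ((N + 1 : ℕ) : ℝ) ^ (2 + D1) ≤ ((N + 1 : ℕ) : ℝ) ^ (D1 + 2 + D * 4 + D2) :=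
        pow_le_pow_right₀ hM1 (by omega)
      calc 16 * ((N + 1 : ℕ) : ℝ) ^ 2 * |QN N k t|
          ≤ 16 * ((N + 1 : ℕ) : ℝ) ^ 2 * (C1 * ((N + 1 : ℕ) : ℝ) ^ D1 *
            Real.exp (N * gk ((k : ℝ) / N) ((t : ℝ) / N))) :=
            mul_le_mul_of_nonneg_left e1 (by positivity)
        _ = (16 * C1) * ((N + 1 : ℕ) : ℝ) ^ (2 + D1) *
            Real.exp (N * gk ((k : ℝ) / N) ((t : ℝ) / N)) := by
            rw [pow_add]; ring
        _ ≤ _ := by
            refine mul_le_mul_of_nonneg_right ?_ (Real.exp_pos _).le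
            refine mul_le_mul ?_ e2 (by positivity) (by positivity)
            have : 0 ≤ 8 * C ^ 4 * C2 := by positivity
            linarith
    · obtain ⟨m, hm⟩ : ∃ m, N - t = k + 1 + m := ⟨N - t - k - 1, by omega⟩
      refine (N_QE_caseB N k t m hm h2).trans ?_
      rw [N_QE_gk N k t hN ht]
      have b1 := (hb N (k + (N - t)) hN h2).1
      have b2 := (hb N (N - t) hN (by omega)).2
      have b3 := (hb N m hN (by omega)).1
      have p1 := SN_pos N (k + (N - t)) h2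
      have p2 := SN_pos N (N - t) (by omega)
      have p3 := SN_pos N m (by omega)
      have h4 : -((k : ℝ) - ((N - t : ℕ) : ℝ)) / N = ((m : ℝ) + 1) / N := by
        rw [hm]; push_cast; ring
      have h5 : Fr (((k : ℝ) - ((N - t : ℕ) : ℝ)) / N) = -Fr (((m : ℝ) + 1) / N) := by
        rw [← h4, ← Fr_neg]
        congr 1
        ring
      rw [h5]
      have h6 := hs N ((m : ℝ) / N) (((m : ℝ) + 1) / N) hN (by
        rw [← sub_div, show (m : ℝ) - (m + 1) = -1 by ring, neg_div, abs_neg, abs_of_pos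
          (by positivity)])
      have h7 : Real.exp (N * Fr ((m : ℝ) / N)) ≤ Real.exp (N * Fr (((m : ℝ) + 1) / N)) *
          (C2 * ((N + 1 : ℕ) : ℝ) ^ D2) := by
        refine le_trans ?_ (mul_le_mul_of_nonneg_left h6 (Real.exp_pos _).le)
        rw [← Real.exp_add]
        apply Real.exp_le_exp.mpr
        have := le_abs_self (Fr ((m : ℝ) / N) - Fr (((m : ℝ) + 1) / N))
        nlinarith
      generalize N - t = r at *
      set A : ℝ := C * ((N + 1 : ℕ) : ℝ) ^ D with hA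
      have hA0 : 0 < A := by positivity
      set e1 := Real.exp (N * Fr (((k + r : ℕ) : ℝ) / N)) with he1
      set e2 := Real.exp (N * Fr ((r : ℝ) / N)) with he2
      set e3 := Real.exp (N * Fr (((m : ℝ) + 1) / N)) with he3
      have he1' : 0 < e1 := Real.exp_pos _
      have he2' : 0 < e2 := Real.exp_pos _
      have he3' : 0 < e3 := Real.exp_pos _
      have hb1 : 1 / SN N r ≤ A / e2 := by
        rw [div_le_div_iff₀ p2 he2']
        linarith
      have hfin : Real.exp (N * (Fr (((k + r : ℕ) : ℝ) / N) - -Fr (((m : ℝ) + 1) / N) -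
          2 * Fr ((r : ℝ) / N))) = e1 * e3 / e2 ^ 2 := by
        rw [he1, he2, he3, ← Real.exp_nat_mul, ← Real.exp_add, ← Real.exp_sub]
        congr 1
        push_cast
        ring
      rw [hfin]
      have hmp : SN N m ≤ A * (e3 * (C2 * ((N + 1 : ℕ) : ℝ) ^ D2)) :=
        b3.trans (mul_le_mul_of_nonneg_left h7 hA0.le)
      calc 8 * (SN N (k + r) * SN N m / SN N r ^ 2)
          = 8 * (SN N (k + r) * SN N m * (1 / SN N r) ^ 2) := by
            field_simp
        _ ≤ 8 * ((A * e1) * (A * (e3 * (C2 * ((N + 1 : ℕ) : ℝ) ^ D2))) * (A / e2) ^ 2) := by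
            refine mul_le_mul_of_nonneg_left ?_ (by norm_num)
            refine mul_le_mul (mul_le_mul b1 hmp p3.le (by positivity))
              (pow_le_pow_left₀ (by positivity) hb1 2) (by positivity) (by positivity)
        _ = (8 * C ^ 4 * C2) * ((N + 1 : ℕ) : ℝ) ^ (D * 4 + D2) * (e1 * e3 / e2 ^ 2) := by
            rw [hA, pow_add, pow_mul]
            field_simp
        _ ≤ _ := by
            have e4 : ((N + 1 : ℕ) : ℝ) ^ (D * 4 + D2) ≤
                ((N + 1 : ℕ) : ℝ) ^ (D1 + 2 + D * 4 + D2) :=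
              pow_le_pow_right₀ hM1 (by omega)
            refine mul_le_mul_of_nonneg_right ?_ (by positivity)
            refine mul_le_mul ?_ e4 (by positivity) (by positivity)
            linarith
  refine ⟨16 * C1 + 8 * C ^ 4 * C2, by positivity, D1 + 2 + D * 4 + D2,
    fun N k t hN hk ht => ?_⟩
  by_cases h1 : k + (N - t) ≤ N
  · exact key N k t hN hk ht h1
  · by_cases h2 : N - t ≤ k
    · have h3 := key N (N - k) t hN (by omega) ht (by omega)
      rw [EN_flip N k t hk, abs_neg, N_QE_gk_flip N k t hN hk] at h3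
      exact h3
    · rw [EN_zero N k t hk ht (by omega) (by omega), abs_zero]
      positivity

end Pool.Agent.H63.CLK
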