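import Pool.Agent.H63.CLK.N_Ug
import Pool.Agent.H63.CLK.N_QE
import Pool.Agent.H63.CLK.C_Naive

/-!
# All directions, analysis: the sums over the near and over the far numbers of turn backs

* `PE_bound`: `QN_bound`, `EN_bound` at every `v`; `corP`: `‖qbin (qz N) n s‖ = SN n / (SN s SN (n - s))` (`qbin_qz`, `SN_eq`) and
  `SN_bound`; the point `y (inl v) = t v / N`, `y (inr (v, k)) = s v k / N`. (`csz N t k / N = cz 1 (t / N) k`.)
* `ang_div`: for a state with `s v k ≤ csz N (t v) k` this point satisfies `IsAng`.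
* `nearP`: every term of the sum is at most `C (N+1)^D exp (N Ug (k/N) y)`, `y` as above with `1/2 ≤ y (inl v)`, by `ug_near`; at most
  `(N+1)^(5 c)` terms (compare `C_Split_card`).
* `farP`: choose `ε'`, `δ` from `ug_far`, `ε = ε'`. If `|k v / N - 1/2| < ε` for all `v`, then a term with `PE ≠ 0` has
  `min (k v) (N - k v) ≤ t v` for all `v` (`QN_zero`, `EN_zero`), so `1/2 - ε ≤ t v / N`, and `t v / N ≤ 1/2` for some `v`.
-/

set_option autoImplicit false

namespace Pool.Agent.H63.CLK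

open Pool.Agent.H63.VC hiding ext
open Pool.Agent.H63.VC3 Pool.Agent.H63.VC4 Pool.Agent.H63.VC7 Complex Filter Topology
open scoped BigOperators

variable {c : ℕ} {F : Finset ℕ} {cor : Fin c → Fin 4 → ℕ} {x : Vr c → ℝ}

/-- The point of the polytope given by a state, with the scale `N`. -/
noncomputable def Xn {c : ℕ} (N : ℕ) (t : Fin c → ℕ) (s : Fin c → Fin 4 → ℕ) : Vr c → ℝ :=
  Sum.elim (fun v => (t v : ℝ) / N) (fun p => (s p.1 p.2 : ℝ) / N)

private theorem N_Far_fin4 (P : Fin 4 → Prop) (h0 : P 0) (h1 : P 1) (h2 : P 2) (h3 : P 3) :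
    ∀ k, P k := by
  intro k
  fin_cases k
  · exact h0
  · exact h1
  · exact h2
  · exact h3

private theorem N_Far_cz (N : ℕ) (hN : 1 ≤ N) (t : ℕ) (ht : t ≤ N) (k : Fin 4) :
    cz 1 ((t : ℝ) / N) k = (csz N t k : ℝ) / N := by
  have hN0 : (N : ℝ) ≠ 0 := by
    have : (0 : ℝ) < N := by exact_mod_cast hN
    exact this.ne'
  have h0 : (1 : ℝ) - (t : ℝ) / N = ((N - t : ℕ) : ℝ) / N := by
    rw [Nat.cast_sub ht, sub_div, div_self hN0]
  exact N_Far_fin4 (fun k => cz 1 ((t : ℝ) / N) k = (csz N t k : ℝ) / N) h0 rfl h0 rfl k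

private theorem N_Far_csz_le (N t : ℕ) (k : Fin 4) (ht : t ≤ N) : csz N t k ≤ N := by
  fin_cases k <;> simp [csz, ht]

theorem ang_div (N : ℕ) (hN : 1 ≤ N) (t : Fin c → ℕ) (s : Fin c → Fin 4 → ℕ)
    (ht : ∀ v, t v ≤ N) (hs : IsState F cor N s) (hle : ∀ v k, s v k ≤ csz N (t v) k) :
    IsAng F cor (Xn N t s) := by
  have hN0 : (0 : ℝ) < N := by exact_mod_cast hN
  refine ⟨fun v => ?_, fun f hf => ?_, fun v k hk => ?_, fun v k => ?_, fun v k => ?_⟩
  · simp only [Xn, Sum.elim_inr]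
    rw [← Finset.sum_div, ← Nat.cast_sum, hs.1 v, div_self hN0.ne']
  · simp only [Xn, Sum.elim_inr]
    have h1 : ∀ v k, (if cor v k = f then (s v k : ℝ) / N else 0) =
        ((if cor v k = f then s v k else 0 : ℕ) : ℝ) / N := by
      intro v k
      split_ifs <;> simp
    simp only [h1]
    simp only [← Finset.sum_div]
    have h2 := hs.2.1 f hf
    have h3 : (∑ v, ∑ k, ((if cor v k = f then s v k else 0 : ℕ) : ℝ)) = N := by
      rw [← h2]; push_cast; rfl
    rw [h3, div_self hN0.ne']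
  · simp only [Xn, Sum.elim_inr]
    rw [hs.2.2 v k hk]
    simp
  · simp only [Xn, Sum.elim_inr]
    positivity
  · simp only [Xn, Sum.elim_inr, Sum.elim_inl]
    rw [N_Far_cz N hN (t v) (ht v) k]
    exact div_le_div_of_nonneg_right (by exact_mod_cast hle v k) hN0.le

/-- The coefficients of one twist region. -/
private theorem N_Far_one : ∃ C : ℝ, 0 < C ∧ ∃ D : ℕ, ∀ (N k t : ℕ) (b : Prop) [Decidable b],
    1 ≤ N → k ≤ N → t ≤ N → |if b then EN N k t else QN N k t| ≤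
      C * ((N + 1 : ℕ) : ℝ) ^ D * Real.exp (N * gk ((k : ℝ) / N) ((t : ℝ) / N)) := by
  obtain ⟨C1, hC1, D1, h1⟩ := QN_bound
  obtain ⟨C2, hC2, D2, h2⟩ := EN_bound
  refine ⟨C1 + C2, by positivity, D1 + D2, fun N k t b _ hN hk ht => ?_⟩
  have hM : (1 : ℝ) ≤ ((N + 1 : ℕ) : ℝ) := by push_cast; linarith [Nat.cast_nonneg (α := ℝ) N]
  have e1 : C1 * ((N + 1 : ℕ) : ℝ) ^ D1 ≤ (C1 + C2) * ((N + 1 : ℕ) : ℝ) ^ (D1 + D2) :=
    mul_le_mul (by linarith) (pow_le_pow_right₀ hM (by omega)) (by positivity) (by positivity)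
  have e2 : C2 * ((N + 1 : ℕ) : ℝ) ^ D2 ≤ (C1 + C2) * ((N + 1 : ℕ) : ℝ) ^ (D1 + D2) :=
    mul_le_mul (by linarith) (pow_le_pow_right₀ hM (by omega)) (by positivity) (by positivity)
  split_ifs
  · exact (h2 N k t hN hk ht).trans (mul_le_mul_of_nonneg_right e2 (Real.exp_pos _).le)
  · exact (h1 N k t hN hk ht).trans (mul_le_mul_of_nonneg_right e1 (Real.exp_pos _).le)

/-- The corner factor. -/
private theorem N_Far_corner : ∃ C : ℝ, 0 < C ∧ ∃ D : ℕ, ∀ N n s : ℕ, 1 ≤ N → n ≤ N → s ≤ n →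
    ‖qbin (qz N) n s‖ ≤ C * ((N + 1 : ℕ) : ℝ) ^ D *
      Real.exp (N * (Fr ((n : ℝ) / N) - Fr ((s : ℝ) / N) - Fr (((n - s : ℕ) : ℝ) / N))) := by
  obtain ⟨C, hC, D, h⟩ := SN_bound
  refine ⟨C * C * C, by positivity, D + D + D, fun N n s hN hn hs => ?_⟩
  have p1 : 0 < SN N n := SN_pos N n hn
  have p2 : 0 < SN N s := SN_pos N s (by omega)
  have p3 : 0 < SN N (n - s) := SN_pos N (n - s) (by omega)
  rw [qbin_qz N n s hn hs, ← SN_eq, ← SN_eq, ← SN_eq, Complex.norm_real, Real.norm_of_nonneg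
    (by positivity)]
  have a1 := (h N n hN hn).1
  have a2 := (h N s hN (by omega)).2
  have a3 := (h N (n - s) hN (by omega)).2
  have inv : ∀ a x B : ℝ, 0 < a → Real.exp x ≤ B * a → a⁻¹ ≤ B * Real.exp (-x) := by
    intro a x B ha hx
    rw [Real.exp_neg, ← div_eq_mul_inv, inv_eq_one_div, div_le_div_iff₀ ha (Real.exp_pos x)]
    linarith
  have b2 := inv _ _ _ p2 a2
  have b3 := inv _ _ _ p3 a3
  have hL : C * C * C * ((N + 1 : ℕ) : ℝ) ^ (D + D + D) *
      Real.exp (N * (Fr ((n : ℝ) / N) - Fr ((s : ℝ) / N) - Fr (((n - s : ℕ) : ℝ) / N))) =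
      (C * ((N + 1 : ℕ) : ℝ) ^ D * Real.exp (N * Fr ((n : ℝ) / N))) *
        (C * ((N + 1 : ℕ) : ℝ) ^ D * Real.exp (-(N * Fr ((s : ℝ) / N)))) *
        (C * ((N + 1 : ℕ) : ℝ) ^ D * Real.exp (-(N * Fr (((n - s : ℕ) : ℝ) / N)))) := by
    have hcp : (N : ℝ) * (Fr ((n : ℝ) / N) - Fr ((s : ℝ) / N) - Fr (((n - s : ℕ) : ℝ) / N)) =
        N * Fr ((n : ℝ) / N) + -(N * Fr ((s : ℝ) / N)) + -(N * Fr (((n - s : ℕ) : ℝ) / N)) := by
      ring
    rw [hcp, Real.exp_add, Real.exp_add, pow_add, pow_add]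
    ring
  have hq : SN N n / (SN N s * SN N (n - s)) = SN N n * (SN N s)⁻¹ * (SN N (n - s))⁻¹ := by
    rw [div_eq_mul_inv, mul_inv, mul_assoc]
  rw [hL, hq]
  exact mul_le_mul (mul_le_mul a1 b2 (by positivity) (by positivity)) b3 (by positivity)
    (by positivity)

theorem PE_bound (c : ℕ) : ∃ C : ℝ, 0 < C ∧ ∃ D : ℕ, ∀ (N : ℕ) (A : Finset (Fin c))
    (k t : Fin c → ℕ) (s : Fin c → Fin 4 → ℕ), 1 ≤ N → (∀ v, k v ≤ N) → (∀ v, t v ≤ N) →
    (∀ v j, s v j ≤ csz N (t v) j) →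
    ‖PE N A k t * corP N t s‖ ≤ C * ((N + 1 : ℕ) : ℝ) ^ D *
      Real.exp (N * Ug (fun v => (k v : ℝ) / N) (Xn N t s)) := by
  obtain ⟨C1, hC1, D1, h1⟩ := N_Far_one
  obtain ⟨C2, hC2, D2, h2⟩ := N_Far_corner
  refine ⟨C1 ^ c * C2 ^ (c * 4), by positivity, D1 * c + D2 * (c * 4),
    fun N A k t s hN hk ht hs => ?_⟩
  have hM0 : (0 : ℝ) < ((N + 1 : ℕ) : ℝ) := by positivity
  rw [norm_mul]
  have e1 : ‖PE N A k t‖ ≤ C1 ^ c * ((N + 1 : ℕ) : ℝ) ^ (D1 * c) *
      Real.exp (N * ∑ v, gk ((k v : ℝ) / N) ((t v : ℝ) / N)) := by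
    unfold PE
    rw [_root_.norm_prod]
    refine (Finset.prod_le_prod (fun v _ => norm_nonneg _) fun v _ => ?_).trans_eq
      (b := ∏ v : Fin c, (C1 * ((N + 1 : ℕ) : ℝ) ^ D1 *
        Real.exp (N * gk ((k v : ℝ) / N) ((t v : ℝ) / N)))) ?_
    · rw [Complex.norm_real, Real.norm_eq_abs]
      exact h1 N (k v) (t v) (v ∈ A) hN (hk v) (ht v)
    · simp only [Finset.prod_mul_distrib, Finset.prod_const, Finset.card_univ, Fintype.card_fin,
        ← Real.exp_sum, ← Finset.mul_sum]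
      rw [← pow_mul]
  have e2 : ‖corP N t s‖ ≤ C2 ^ (c * 4) * ((N + 1 : ℕ) : ℝ) ^ (D2 * (c * 4)) *
      Real.exp (N * ∑ v, ∑ j, (Fr ((csz N (t v) j : ℝ) / N) - Fr ((s v j : ℝ) / N) -
        Fr (((csz N (t v) j - s v j : ℕ) : ℝ) / N))) := by
    unfold corP
    rw [_root_.norm_prod]
    have h3 : ∀ v ∈ (Finset.univ : Finset (Fin c)),
        ‖∏ j, qbin (qz N) (csz N (t v) j) (s v j)‖ ≤
          ∏ j : Fin 4, (C2 * ((N + 1 : ℕ) : ℝ) ^ D2 * Real.exp (N *
            (Fr ((csz N (t v) j : ℝ) / N) - Fr ((s v j : ℝ) / N) -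
              Fr (((csz N (t v) j - s v j : ℕ) : ℝ) / N)))) := by
      intro v _
      rw [_root_.norm_prod]
      exact Finset.prod_le_prod (fun j _ => norm_nonneg _) fun j _ =>
        h2 N _ _ hN (N_Far_csz_le N (t v) j (ht v)) (hs v j)
    refine (Finset.prod_le_prod (fun v _ => norm_nonneg _) h3).trans (le_of_eq ?_)
    simp only [Finset.prod_mul_distrib, Finset.prod_const, Finset.card_univ, Fintype.card_fin,
      ← Real.exp_sum, ← Finset.mul_sum]
    rw [← pow_mul, ← pow_mul, ← pow_mul]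
    congr 2
    · ring
    · ring
  have hU : Ug (fun v => (k v : ℝ) / N) (Xn N t s) =
      (∑ v, gk ((k v : ℝ) / N) ((t v : ℝ) / N)) +
      ∑ v, ∑ j, (Fr ((csz N (t v) j : ℝ) / N) - Fr ((s v j : ℝ) / N) -
        Fr (((csz N (t v) j - s v j : ℕ) : ℝ) / N)) := by
    unfold Ug
    rw [← Finset.sum_add_distrib]
    refine Finset.sum_congr rfl fun v _ => ?_
    simp only [Xn, Sum.elim_inl, Sum.elim_inr]
    congr 1
    refine Finset.sum_congr rfl fun j _ => ?_
    rw [N_Far_cz N hN (t v) (ht v) j, Nat.cast_sub (hs v j), sub_div]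
  refine (mul_le_mul e1 e2 (norm_nonneg _) (by positivity)).trans (le_of_eq ?_)
  rw [hU, mul_add, Real.exp_add, pow_add]
  ring

private theorem N_Far_stSum (N : ℕ) (f : (Fin c → ℕ) → (Fin c → Fin 4 → ℕ) → ℂ) (B : ℝ)
    (hB : 0 ≤ B) (h : ∀ t s, (∀ v, t v ≤ N) → (∀ v k, s v k ≤ csz N (t v) k) →
      IsState F cor N s → ‖f t s‖ ≤ B) :
    ‖stSum F cor N f‖ ≤ ((N + 1 : ℕ) : ℝ) ^ (5 * c) * B := by
  classical
  have hM0 : (0 : ℝ) < ((N + 1 : ℕ) : ℝ) := by positivity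
  unfold stSum
  have h1 : ∀ t ∈ Fintype.piFinset (fun _ : Fin c => Finset.range (N + 1)),
      ‖∑ s ∈ Fintype.piFinset (fun v : Fin c => Fintype.piFinset
        (fun k : Fin 4 => Finset.range (csz N (t v) k + 1))),
          if IsState F cor N s then f t s else 0‖ ≤ ((N + 1 : ℕ) : ℝ) ^ (4 * c) * B := by
    intro t ht
    rw [Fintype.mem_piFinset] at ht
    have ht' : ∀ v, t v ≤ N := fun v => by have := Finset.mem_range.1 (ht v); omega
    have h2 : ∀ s ∈ Fintype.piFinset (fun v : Fin c => Fintype.piFinset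
        (fun k : Fin 4 => Finset.range (csz N (t v) k + 1))),
        ‖(if IsState F cor N s then f t s else 0)‖ ≤ B := by
      intro s hs
      split_ifs with hst
      · refine h t s ht' (fun v k => ?_) hst
        have := Finset.mem_range.1 (Fintype.mem_piFinset.1 (Fintype.mem_piFinset.1 hs v) k)
        omega
      · rw [norm_zero]
        exact hB
    refine (norm_sum_le _ _).trans ((Finset.sum_le_sum h2).trans ?_)
    rw [Finset.sum_const, nsmul_eq_mul]
    refine mul_le_mul_of_nonneg_right ?_ hB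
    have h3 : (Fintype.piFinset (fun v : Fin c => Fintype.piFinset
        (fun k : Fin 4 => Finset.range (csz N (t v) k + 1)))).card ≤ (N + 1) ^ (4 * c) := by
      rw [Fintype.card_piFinset, mul_comm 4 c]
      have h4 : ∀ v ∈ (Finset.univ : Finset (Fin c)), (Fintype.piFinset
          (fun k : Fin 4 => Finset.range (csz N (t v) k + 1))).card ≤ (N + 1) ^ 4 := by
        intro v _
        rw [Fintype.card_piFinset]
        have h5 : ∀ k ∈ (Finset.univ : Finset (Fin 4)),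
            (Finset.range (csz N (t v) k + 1)).card ≤ N + 1 := by
          intro k _
          rw [Finset.card_range]
          have := N_Far_csz_le N (t v) k (ht' v)
          omega
        refine (Finset.prod_le_prod' h5).trans (le_of_eq ?_)
        rw [Finset.prod_const, Finset.card_univ, Fintype.card_fin]
      refine (Finset.prod_le_prod' h4).trans (le_of_eq ?_)
      rw [Finset.prod_const, Finset.card_univ, Fintype.card_fin, ← pow_mul, mul_comm 4 c]
    exact_mod_cast h3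
  refine (norm_sum_le _ _).trans ((Finset.sum_le_sum h1).trans (le_of_eq ?_))
  rw [Finset.sum_const, Fintype.card_piFinset, Finset.prod_const, Finset.card_range,
    Finset.card_univ, Fintype.card_fin, nsmul_eq_mul]
  rw [show 5 * c = c + 4 * c by ring, pow_add]
  push_cast
  ring

theorem nearP (hx : IsMaxN F cor x) (ε : ℝ) (hε : 0 < ε) : ∃ δ : ℝ, 0 < δ ∧ ∃ C : ℝ, 0 < C ∧
    ∃ D : ℕ, ∀ (N : ℕ) (A : Finset (Fin c)) (k : Fin c → ℕ), 1 ≤ N → (∀ v, k v ≤ N) →
      (∃ v, ε ≤ |(k v : ℝ) / N - 1 / 2|) →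
      ‖stSum F cor N (fun t s => if ∀ v, N ≤ 2 * t v then PE N A k t * corP N t s else 0)‖ ≤
        C * ((N + 1 : ℕ) : ℝ) ^ D * Real.exp (N * (Uf x - δ)) := by
  obtain ⟨δ, hδ, h⟩ := ug_near hx ε hε
  obtain ⟨C, hC, D, hD⟩ := PE_bound c
  refine ⟨δ, hδ, C, hC, 5 * c + D, fun N A k hN hk hkε => ?_⟩
  have hN0 : (0 : ℝ) < N := by exact_mod_cast hN
  refine (N_Far_stSum N _ (C * ((N + 1 : ℕ) : ℝ) ^ D * Real.exp (N * (Uf x - δ)))
    (by positivity) fun t s ht hs hst => ?_).trans (le_of_eq (by rw [pow_add]; ring))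
  split_ifs with hif
  · refine (hD N A k t s hN hk ht hs).trans ?_
    refine mul_le_mul_of_nonneg_left (Real.exp_le_exp.2 ?_) (by positivity)
    refine mul_le_mul_of_nonneg_left ?_ hN0.le
    refine h _ _ (fun v => ⟨by positivity, ?_⟩) (ang_div N hN t s ht hst hs) (fun v => ?_) hkε
    · rw [div_le_one hN0]
      exact_mod_cast hk v
    · simp only [Xn, Sum.elim_inl]
      rw [div_le_div_iff₀ (by norm_num) hN0]
      have h1 := hif v
      have h2 : (N : ℝ) ≤ 2 * t v := by exact_mod_cast h1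
      linarith
  · rw [norm_zero]
    positivity

theorem farP (hx : IsMaxN F cor x) : ∃ ε : ℝ, 0 < ε ∧ ∃ δ : ℝ, 0 < δ ∧ ∃ C : ℝ, 0 < C ∧
    ∃ D : ℕ, ∀ (N : ℕ) (A : Finset (Fin c)) (k : Fin c → ℕ), 1 ≤ N → (∀ v, k v ≤ N) →
      (∀ v, |(k v : ℝ) / N - 1 / 2| < ε) →
      ‖stSum F cor N (fun t s => if ∀ v, N ≤ 2 * t v then 0 else PE N A k t * corP N t s)‖ ≤
        C * ((N + 1 : ℕ) : ℝ) ^ D * Real.exp (N * (Uf x - δ)) := by
  obtain ⟨ε, hε, δ, hδ, h⟩ := ug_far hx
  obtain ⟨C, hC, D, hD⟩ := PE_bound c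
  refine ⟨ε, hε, δ, hδ, C, hC, 5 * c + D, fun N A k hN hk hkε => ?_⟩
  have hN0 : (0 : ℝ) < N := by exact_mod_cast hN
  refine (N_Far_stSum N _ (C * ((N + 1 : ℕ) : ℝ) ^ D * Real.exp (N * (Uf x - δ)))
    (by positivity) fun t s ht hs hst => ?_).trans (le_of_eq (by rw [pow_add]; ring))
  split_ifs with hif
  · rw [norm_zero]
    positivity
  · by_cases hPE : PE N A k t = 0
    · rw [hPE, zero_mul, norm_zero]
      positivity
    refine (hD N A k t s hN hk ht hs).trans ?_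
    refine mul_le_mul_of_nonneg_left (Real.exp_le_exp.2 ?_) (by positivity)
    refine mul_le_mul_of_nonneg_left ?_ hN0.le
    push Not at hif
    obtain ⟨v0, hv0⟩ := hif
    refine h _ _ (fun v => (hkε v).le) (ang_div N hN t s ht hst hs) (fun v => ?_) ⟨v0, ?_⟩
    · simp only [Xn, Sum.elim_inl]
      have hne : ((((if v ∈ A then EN N (k v) (t v) else QN N (k v) (t v)) : ℝ) : ℂ)) ≠ 0 := by
        intro h0
        exact hPE (Finset.prod_eq_zero (Finset.mem_univ v) h0)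
      have hkt : k v ≤ t v ∨ N - k v ≤ t v := by
        by_contra hcon
        push Not at hcon
        apply hne
        split_ifs
        · rw [EN_zero N (k v) (t v) (hk v) (ht v) hcon.1 hcon.2]
          simp
        · rw [QN_zero N (k v) (t v) (hk v) (ht v) (Or.inl hcon.1)]
          simp
      have hk2 := abs_lt.1 (hkε v)
      rcases hkt with h1 | h1
      · have h2 : (k v : ℝ) / N ≤ (t v : ℝ) / N :=
          div_le_div_of_nonneg_right (by exact_mod_cast h1) hN0.le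
        linarith [hk2.1]
      · have h2 : ((N - k v : ℕ) : ℝ) / N ≤ (t v : ℝ) / N :=
          div_le_div_of_nonneg_right (by exact_mod_cast h1) hN0.le
        rw [Nat.cast_sub (hk v), sub_div, div_self hN0.ne'] at h2
        linarith [hk2.2]
    · simp only [Xn, Sum.elim_inl]
      rw [div_le_div_iff₀ hN0 (by norm_num)]
      have h2 : (2 : ℝ) * t v0 < N := by exact_mod_cast hv0
      linarith

end Pool.Agent.H63.CLK
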