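import Pool.Agent.H63.CLK.N_Defs
import Pool.Agent.H63.CLK.G_Tan
import Pool.Agent.H63.CLK.C_Fr

/-!
# All directions, analysis: midpoints of the levels `l` and `1 - l`

`TF α β γ` for `α + β + γ = 1` is the volume of an ideal tetrahedron divided by `π`: with `Fr x = - lob (π x) / π` one has
`π * TF α β γ = vT (π α) (π β)` (`Fr γ = -Fr (α + β)` by `Fr_add_one`, `Fr_neg`). `TF_nonneg`: for instance the minimum of a concave
function on the triangle is at a vertex, or: `lob (x) + lob (y) - lob (x + y) ≥ 0` since the derivative in `y` is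
`log (sin (x+y) / sin y)`, and monotone pieces; or use `vT_le` for the concavity along the segments.
`TF_mid`: if the midpoint is in the open triangle: `vT_le`/`vT_lt` at the midpoint for both points, and add. If the midpoint is on
the boundary, one of the coordinates is `0` at both points, and (e.g. `α = α' = 0`) `TF 0 β γ = 0` for all `β + γ = 1`.

`EV_eq`: `Fr (l + x) = -Fr (1 - l - x)`, `Fr (1 - l + a) = -Fr (l - a) = -Fr (x + b)`, `Fr l = -Fr (1 - l)`.

`EV_mid`: by symmetry (exchange `l` and `1 - l`, and the two triples) let `l ≤ 1/2`. The terms of the side corners: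
`TF a (x+b) (1-l) + TF a' (x'+b') l ≤ 2 * TF m (1/2 - m) (1/2) = 2 * hf m`, `m = (a + a') / 2` (`TF_mid`; `Fr (1/2) = 0`). The term of the
end corner: `TF x (1-l-x) l + TF x' (l-x') (1-l)`. If `x' ≤ l`, the same, and it is strict for `l < 1/2` and `0 < m < 1/2`
(`m = (x + x') / 2`), since the third angles `l`, `1 - l` differ. If `x' > l` (`x ≤ l < x' ≤ 1 - l`), with `u = x'`, `y = x`:
`TF y (1-l-y) l + TF u (l-u) (1-l) = TF u y (1-u-y) - TF (u-l) (l+y) (1-u-y) ≤ TF u y (1-u-y) ≤ TF m m (1-2m) = 2 hf m + 2 Fr m`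
(`TF_nonneg`; `TF_mid` for `(u, y)`, `(y, u)`; duplication `Fr (2 x) = 2 Fr x + 2 Fr (x + 1/2)`), and `Fr m ≤ 0`, `Fr m < 0` for
`0 < m < 1/2` (`Fr_nonpos`; `Fr_hasDerivAt`: `Fr` is decreasing on `[0, 1/6]` and increasing on `[1/6, 5/6]`).
(`u - l ≥ 0`, `1 - u - y ≥ 0` as `u ≤ 1 - l`, `y ≤ l`.)
-/

set_option autoImplicit false

namespace Pool.Agent.H63.CLK

open Pool.Agent.H63.VC hiding ext
open Pool.Agent.H63.VC3 Pool.Agent.H63.VC4 Pool.Agent.H63.VC7 Complex Filter Topology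
open scoped BigOperators

private theorem N_Mid_refl (x : ℝ) : Fr (1 - x) = -Fr x := by
  rw [← Fr_neg, ← Fr_add_one (-x)]
  congr 1
  ring

private theorem N_Mid_one : Fr 1 = 0 := by
  have := N_Mid_refl 0
  rw [Fr_zero, sub_zero, neg_zero] at this
  exact this

private theorem N_Mid_sin {x : ℝ} (h0 : 0 < x) (h1 : x < 1) : 0 < Real.sin (Real.pi * x) :=
  Real.sin_pos_of_pos_of_lt_pi (mul_pos Real.pi_pos h0) (by
    calc Real.pi * x < Real.pi * 1 := mul_lt_mul_of_pos_left h1 Real.pi_pos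
      _ = Real.pi := mul_one _)

theorem Fr_two (x : ℝ) : Fr (2 * x) = 2 * Fr x + 2 * Fr (x + 1 / 2) := by
  obtain ⟨D, hD⟩ : ∃ D : ℝ → ℝ, D = fun x => Fr (2 * x) - 2 * Fr x - 2 * Fr (x + 1 / 2) := ⟨_, rfl⟩
  have hper : Function.Periodic D (1 / 2) := by
    intro y
    rw [hD]
    simp only
    rw [show 2 * (y + 1 / 2) = 2 * y + 1 by ring, Fr_add_one,
      show y + 1 / 2 + 1 / 2 = y + 1 by ring, Fr_add_one]
    ring
  have hcont : Continuous D := by
    rw [hD]
    have c1 : Continuous fun x : ℝ => Fr (2 * x) := Fr_continuous.comp (by fun_prop)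
    have c2 : Continuous fun x : ℝ => Fr (x + 1 / 2) := Fr_continuous.comp (by fun_prop)
    exact (c1.sub (continuous_const.mul Fr_continuous)).sub (continuous_const.mul c2)
  have hd : ∀ y ∈ Set.Ioo (0 : ℝ) (1 / 2), HasDerivAt D 0 y := by
    intro y hy
    have h := hy.1
    have hy2 := hy.2
    have d1 : HasDerivAt (fun x : ℝ => Fr (2 * x)) (Real.log (2 * Real.sin (Real.pi * (2 * y))) * 2)
        y := by
      have h1 := Fr_hasDerivAt (2 * y) (by linarith) (by linarith)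
      have h2 : HasDerivAt (fun x : ℝ => 2 * x) 2 y := by
        simpa using (hasDerivAt_id y).const_mul (2 : ℝ)
      exact h1.comp y h2
    have d2 := Fr_hasDerivAt y h (by linarith)
    have d3 : HasDerivAt (fun x : ℝ => Fr (x + 1 / 2))
        (Real.log (2 * Real.sin (Real.pi * (y + 1 / 2))) * 1) y := by
      have h1 := Fr_hasDerivAt (y + 1 / 2) (by linarith) (by linarith)
      have h2 : HasDerivAt (fun x : ℝ => x + 1 / 2) 1 y := (hasDerivAt_id y).add_const _
      exact h1.comp y h2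
    have d4 := (d1.sub (d2.const_mul 2)).sub (d3.const_mul 2)
    have e : Real.log (2 * Real.sin (Real.pi * (2 * y))) * 2 -
        2 * Real.log (2 * Real.sin (Real.pi * y)) -
        2 * (Real.log (2 * Real.sin (Real.pi * (y + 1 / 2))) * 1) = 0 := by
      have s1 : 0 < Real.sin (Real.pi * y) := N_Mid_sin h (by linarith)
      have s2 : 0 < Real.sin (Real.pi * (y + 1 / 2)) := N_Mid_sin (by linarith) (by linarith)
      have s3 : Real.sin (Real.pi * (y + 1 / 2)) = Real.cos (Real.pi * y) := by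
        rw [show Real.pi * (y + 1 / 2) = Real.pi * y + Real.pi / 2 by ring, Real.sin_add_pi_div_two]
      have s4 : 2 * Real.sin (Real.pi * (2 * y)) =
          (2 * Real.sin (Real.pi * y)) * (2 * Real.sin (Real.pi * (y + 1 / 2))) := by
        rw [show Real.pi * (2 * y) = 2 * (Real.pi * y) by ring, Real.sin_two_mul, s3]
        ring
      rw [s4, Real.log_mul (by positivity) (by positivity)]
      ring
    rw [e] at d4
    rw [hD]
    exact d4
  have hmono : ∀ g : ℝ → ℝ, Continuous g → (∀ z ∈ Set.Ioo (0 : ℝ) (1 / 2), HasDerivAt g 0 z) →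
      MonotoneOn g (Set.Icc 0 (1 / 2)) := by
    intro g hg1 hg2
    apply monotoneOn_of_deriv_nonneg (convex_Icc _ _) hg1.continuousOn
    · intro z hz
      rw [interior_Icc] at hz
      exact (hg2 z hz).differentiableAt.differentiableWithinAt
    · intro z hz
      rw [interior_Icc] at hz
      rw [(hg2 z hz).deriv]
  have hD0 : D 0 = 0 := by
    rw [hD]
    simp only [mul_zero, zero_add]
    rw [Fr_zero, Fr_half]
    ring
  have hzero : ∀ y ∈ Set.Icc (0 : ℝ) (1 / 2), D y = 0 := by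
    intro y hy
    have k1 := hmono D hcont hd ⟨le_rfl, by norm_num⟩ hy hy.1
    have k2 := hmono (fun z => -D z) hcont.neg (fun z hz => by
      have := (hd z hz).neg
      rw [neg_zero] at this
      exact this) ⟨le_rfl, by norm_num⟩ hy hy.1
    simp only at k2
    rw [hD0] at k1 k2
    linarith
  have hx : D x = 0 := by
    obtain ⟨y, hy, hxy⟩ := hper.exists_mem_Ico₀ (by norm_num : (0 : ℝ) < 1 / 2) x
    rw [hxy]
    exact hzero y ⟨hy.1, hy.2.le⟩
  rw [hD] at hx
  simp only at hx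
  linarith

theorem Fr_neg_lt (x : ℝ) (h0 : 0 < x) (h1 : x < 1 / 2) : Fr x < 0 := by
  have hconv : StrictConvexOn ℝ (Set.Icc (0 : ℝ) (1 / 2)) Fr := by
    apply StrictMonoOn.strictConvexOn_of_deriv (convex_Icc _ _) Fr_continuous.continuousOn
    rw [interior_Icc]
    intro y hy z hz hyz
    have hy1 := hy.1
    have hy2 := hy.2
    have hz1 := hz.1
    have hz2 := hz.2
    rw [(Fr_hasDerivAt y hy1 (by linarith)).deriv, (Fr_hasDerivAt z hz1 (by linarith)).deriv]
    have s1 : 0 < Real.sin (Real.pi * y) := N_Mid_sin hy1 (by linarith)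
    apply Real.log_lt_log (by positivity)
    have hp := Real.pi_pos
    have : Real.sin (Real.pi * y) < Real.sin (Real.pi * z) := by
      apply Real.sin_lt_sin_of_lt_of_le_pi_div_two
      · nlinarith
      · nlinarith
      · nlinarith
    linarith
  have h2 := hconv.2 (show (0 : ℝ) ∈ Set.Icc (0 : ℝ) (1 / 2) from ⟨le_rfl, by norm_num⟩)
    (show (1 / 2 : ℝ) ∈ Set.Icc (0 : ℝ) (1 / 2) from ⟨by norm_num, le_rfl⟩) (by norm_num)
    (show 0 < 1 - 2 * x by linarith) (show 0 < 2 * x by linarith) (by ring)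
  simp only [smul_eq_mul, mul_zero, zero_add] at h2
  rw [Fr_zero, Fr_half, show 2 * x * (1 / 2) = x by ring] at h2
  linarith

/-- The relation with `vT`. -/
private theorem N_Mid_vT (α β γ : ℝ) (h : α + β + γ = 1) :
    vT (Real.pi * α) (Real.pi * β) = Real.pi * TF α β γ := by
  have hp := Real.pi_ne_zero
  have e1 : ∀ x : ℝ, lob (Real.pi * x) = -(Real.pi * Fr x) := by
    intro x
    unfold Fr
    field_simp
  unfold vT TF
  rw [← mul_add, e1, e1, e1, show γ = 1 - (α + β) by linarith, N_Mid_refl]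
  ring

private theorem N_Mid_zero (β γ : ℝ) (h : β + γ = 1) : TF 0 β γ = 0 := by
  unfold TF
  rw [Fr_zero, show γ = 1 - β by linarith, N_Mid_refl]
  ring

private theorem N_Mid_swap (α β γ : ℝ) : TF α β γ = TF β α γ := by
  unfold TF
  ring

private theorem N_Mid_swap' (α β γ : ℝ) : TF α β γ = TF γ β α := by
  unfold TF
  ring

theorem TF_nonneg (α β γ : ℝ) (h : α + β + γ = 1) (hα : 0 ≤ α) (hβ : 0 ≤ β) (hγ : 0 ≤ γ) :
    0 ≤ TF α β γ := by
  rcases hα.eq_or_lt with h1 | h1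
  · subst h1
    exact (N_Mid_zero β γ (by linarith)).ge
  rcases hβ.eq_or_lt with h2 | h2
  · subst h2
    rw [N_Mid_swap]
    exact (N_Mid_zero α γ (by linarith)).ge
  rcases hγ.eq_or_lt with h3 | h3
  · subst h3
    rw [N_Mid_swap']
    exact (N_Mid_zero β α (by linarith)).ge
  have hp := Real.pi_pos
  have p1 : 0 < Real.pi * α := mul_pos hp h1
  have p2 : 0 < Real.pi * β := mul_pos hp h2
  have p3 : Real.pi * α + Real.pi * β < Real.pi := by nlinarith
  have q0 := vT_le p1 p2 p3 (s := 0) (r := 0) le_rfl le_rfl (by linarith)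
  have q1 := vT_le p1 p2 p3 (s := Real.pi) (r := 0) hp.le le_rfl (by linarith)
  have q2 := vT_le p1 p2 p3 (s := 0) (r := Real.pi) le_rfl hp.le (by linarith)
  rw [vT_zero_left] at q0 q2
  rw [vT_zero_right] at q1
  have e : 0 ≤ vT (Real.pi * α) (Real.pi * β) := by
    obtain ⟨X, hX⟩ : ∃ X, X = Real.log (Real.sin (Real.pi * α + Real.pi * β)) -
      Real.log (Real.sin (Real.pi * α)) := ⟨_, rfl⟩
    obtain ⟨Y, hY⟩ : ∃ Y, Y = Real.log (Real.sin (Real.pi * α + Real.pi * β)) -
      Real.log (Real.sin (Real.pi * β)) := ⟨_, rfl⟩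
    rw [← hX, ← hY] at q0 q1 q2
    have w0 := mul_le_mul_of_nonneg_left q0 hγ
    have w1 := mul_le_mul_of_nonneg_left q1 hα
    have w2 := mul_le_mul_of_nonneg_left q2 hβ
    have hγ' : γ = 1 - α - β := by linarith
    rw [hγ'] at w0
    nlinarith
  rw [N_Mid_vT α β γ h] at e
  exact nonneg_of_mul_nonneg_right e hp

theorem TF_mid_lt (α β γ α' β' γ' : ℝ) (h : α + β + γ = 1) (h' : α' + β' + γ' = 1) (hα : 0 ≤ α)
    (hβ : 0 ≤ β) (hγ : 0 ≤ γ) (hα' : 0 ≤ α') (hβ' : 0 ≤ β') (hγ' : 0 ≤ γ')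
    (h1 : 0 < α + α') (h2 : 0 < β + β') (h3 : 0 < γ + γ') (hne : γ ≠ γ') :
    TF α β γ + TF α' β' γ' < 2 * TF ((α + α') / 2) ((β + β') / 2) ((γ + γ') / 2) := by
  have hp := Real.pi_pos
  have p1 : 0 < Real.pi * ((α + α') / 2) := mul_pos hp (by linarith)
  have p2 : 0 < Real.pi * ((β + β') / 2) := mul_pos hp (by linarith)
  have p3 : Real.pi * ((α + α') / 2) + Real.pi * ((β + β') / 2) < Real.pi := by nlinarith
  have n1 : Real.pi * α ≠ Real.pi * ((α + α') / 2) ∨ Real.pi * β ≠ Real.pi * ((β + β') / 2) := by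
    by_contra hcon
    push Not at hcon
    have e1 := mul_left_cancel₀ hp.ne' hcon.1
    have e2 := mul_left_cancel₀ hp.ne' hcon.2
    apply hne
    linarith
  have q1 := vT_lt p1 p2 p3 (s := Real.pi * α) (r := Real.pi * β) (mul_nonneg hp.le hα)
    (mul_nonneg hp.le hβ) (by nlinarith) n1
  have q2 := vT_le p1 p2 p3 (s := Real.pi * α') (r := Real.pi * β') (mul_nonneg hp.le hα')
    (mul_nonneg hp.le hβ') (by nlinarith)
  rw [N_Mid_vT α β γ h, N_Mid_vT _ _ ((γ + γ') / 2) (by linarith)] at q1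
  rw [N_Mid_vT α' β' γ' h', N_Mid_vT _ _ ((γ + γ') / 2) (by linarith)] at q2
  obtain ⟨X, hX⟩ : ∃ X, X = Real.log (Real.sin (Real.pi * ((α + α') / 2) +
    Real.pi * ((β + β') / 2))) - Real.log (Real.sin (Real.pi * ((α + α') / 2))) := ⟨_, rfl⟩
  obtain ⟨Y, hY⟩ : ∃ Y, Y = Real.log (Real.sin (Real.pi * ((α + α') / 2) +
    Real.pi * ((β + β') / 2))) - Real.log (Real.sin (Real.pi * ((β + β') / 2))) := ⟨_, rfl⟩
  rw [← hX, ← hY] at q1 q2
  have q3 : Real.pi * (TF α β γ + TF α' β' γ') <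
      Real.pi * (2 * TF ((α + α') / 2) ((β + β') / 2) ((γ + γ') / 2)) := by
    linarith
  exact lt_of_mul_lt_mul_left q3 hp.le

theorem TF_mid (α β γ α' β' γ' : ℝ) (h : α + β + γ = 1) (h' : α' + β' + γ' = 1) (hα : 0 ≤ α)
    (hβ : 0 ≤ β) (hγ : 0 ≤ γ) (hα' : 0 ≤ α') (hβ' : 0 ≤ β') (hγ' : 0 ≤ γ') :
    TF α β γ + TF α' β' γ' ≤ 2 * TF ((α + α') / 2) ((β + β') / 2) ((γ + γ') / 2) := by
  rcases (add_nonneg hα hα').eq_or_lt with h1 | h1
  · have e1 : α = 0 := by linarith
    have e2 : α' = 0 := by linarith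
    subst e1 e2
    rw [N_Mid_zero β γ (by linarith), N_Mid_zero β' γ' (by linarith), add_zero, zero_div,
      N_Mid_zero _ _ (by linarith)]
    norm_num
  rcases (add_nonneg hβ hβ').eq_or_lt with h2 | h2
  · have e1 : β = 0 := by linarith
    have e2 : β' = 0 := by linarith
    subst e1 e2
    rw [N_Mid_swap α, N_Mid_swap α', N_Mid_zero α γ (by linarith), N_Mid_zero α' γ' (by linarith),
      add_zero, zero_div, N_Mid_swap _ 0, N_Mid_zero _ _ (by linarith)]
    norm_num
  rcases (add_nonneg hγ hγ').eq_or_lt with h3 | h3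
  · have e1 : γ = 0 := by linarith
    have e2 : γ' = 0 := by linarith
    subst e1 e2
    rw [N_Mid_swap' α, N_Mid_swap' α', N_Mid_zero β α (by linarith), N_Mid_zero β' α' (by linarith),
      add_zero, zero_div, N_Mid_swap' _ _ 0, N_Mid_zero _ _ (by linarith)]
    norm_num
  have hp := Real.pi_pos
  have p1 : 0 < Real.pi * ((α + α') / 2) := mul_pos hp (by linarith)
  have p2 : 0 < Real.pi * ((β + β') / 2) := mul_pos hp (by linarith)
  have p3 : Real.pi * ((α + α') / 2) + Real.pi * ((β + β') / 2) < Real.pi := by nlinarith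
  have q1 := vT_le p1 p2 p3 (s := Real.pi * α) (r := Real.pi * β) (mul_nonneg hp.le hα)
    (mul_nonneg hp.le hβ) (by nlinarith)
  have q2 := vT_le p1 p2 p3 (s := Real.pi * α') (r := Real.pi * β') (mul_nonneg hp.le hα')
    (mul_nonneg hp.le hβ') (by nlinarith)
  rw [N_Mid_vT α β γ h, N_Mid_vT _ _ ((γ + γ') / 2) (by linarith)] at q1
  rw [N_Mid_vT α' β' γ' h', N_Mid_vT _ _ ((γ + γ') / 2) (by linarith)] at q2
  obtain ⟨X, hX⟩ : ∃ X, X = Real.log (Real.sin (Real.pi * ((α + α') / 2) +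
    Real.pi * ((β + β') / 2))) - Real.log (Real.sin (Real.pi * ((α + α') / 2))) := ⟨_, rfl⟩
  obtain ⟨Y, hY⟩ : ∃ Y, Y = Real.log (Real.sin (Real.pi * ((α + α') / 2) +
    Real.pi * ((β + β') / 2))) - Real.log (Real.sin (Real.pi * ((β + β') / 2))) := ⟨_, rfl⟩
  rw [← hX, ← hY] at q1 q2
  have q3 : Real.pi * (TF α β γ + TF α' β' γ') ≤
      Real.pi * (2 * TF ((α + α') / 2) ((β + β') / 2) ((γ + γ') / 2)) := by
    linarith
  exact le_of_mul_le_mul_left q3 hp

theorem EV_eq (l x a b : ℝ) (h : x + a + b = l) :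
    EV l x a b = TF x (1 - l - x) l + TF a (x + b) (1 - l) + TF b (x + a) (1 - l) := by
  unfold EV TF
  have e1 : Fr (1 - l - x) = -Fr (l + x) := by
    rw [show 1 - l - x = 1 - (l + x) by ring, N_Mid_refl]
  have e2 : Fr (1 - l + a) = -Fr (x + b) := by
    rw [show 1 - l + a = 1 - (x + b) by linarith, N_Mid_refl]
  have e3 : Fr (1 - l + b) = -Fr (x + a) := by
    rw [show 1 - l + b = 1 - (x + a) by linarith, N_Mid_refl]
  rw [e1, e2, e3]
  ring

private theorem N_Mid_hf (x y : ℝ) (h : y = 1 / 2 - x) : TF x y (1 / 2) = hf x := by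
  unfold TF hf
  rw [Fr_half, h]
  ring

theorem EV_half (x a b : ℝ) (h : x + a + b = 1 / 2) : EV (1 / 2) x a b = hf x + hf a + hf b := by
  rw [EV_eq _ _ _ _ h, show (1 : ℝ) - 1 / 2 = 1 / 2 by norm_num, N_Mid_hf x _ rfl,
    N_Mid_hf a _ (by linarith), N_Mid_hf b _ (by linarith)]

/-- The sides. -/
private theorem N_Mid_side (l a u a' u' : ℝ) (h : a + u = l) (h' : a' + u' = 1 - l)
    (ha : 0 ≤ a) (hu : 0 ≤ u) (ha' : 0 ≤ a') (hu' : 0 ≤ u') :
    TF a u (1 - l) + TF a' u' l ≤ 2 * hf ((a + a') / 2) := by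
  have h1 := TF_mid a u (1 - l) a' u' l (by linarith) (by linarith) ha hu (by linarith) ha' hu'
    (by linarith)
  rw [show (1 - l + l) / 2 = 1 / 2 by ring, N_Mid_hf _ _ (by linarith)] at h1
  exact h1

/-- The end. -/
private theorem N_Mid_end (l x x' : ℝ) (hl : l ≤ 1 / 2) (h : x ≤ l) (h' : x' ≤ 1 - l)
    (hx : 0 ≤ x) (hx' : 0 ≤ x') :
    TF x (1 - l - x) l + TF x' (l - x') (1 - l) ≤ 2 * hf ((x + x') / 2) ∧
    (l < 1 / 2 → 0 < x + x' → x + x' < 1 →
      TF x (1 - l - x) l + TF x' (l - x') (1 - l) < 2 * hf ((x + x') / 2)) := by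
  rcases le_or_gt x' l with h1 | h1
  · constructor
    · have h2 := TF_mid x (1 - l - x) l x' (l - x') (1 - l) (by ring) (by ring) hx (by linarith)
        (by linarith) hx' (by linarith) (by linarith)
      rw [show (l + (1 - l)) / 2 = 1 / 2 by ring, N_Mid_hf _ _ (by ring)] at h2
      exact h2
    · intro hl2 h3 h4
      have h2 := TF_mid_lt x (1 - l - x) l x' (l - x') (1 - l) (by ring) (by ring) hx (by linarith)
        (by linarith) hx' (by linarith) (by linarith) h3 (by linarith) (by linarith)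
        (by intro h5; linarith)
      rw [show (l + (1 - l)) / 2 = 1 / 2 by ring, N_Mid_hf _ _ (by ring)] at h2
      exact h2
  · have e1 : TF x (1 - l - x) l + TF x' (l - x') (1 - l) =
        TF x' x (1 - x' - x) - TF (x' - l) (l + x) (1 - x' - x) := by
      unfold TF
      rw [show 1 - l - x = 1 - (l + x) by ring, N_Mid_refl, N_Mid_refl l,
        show l - x' = -(x' - l) by ring, Fr_neg]
      ring
    have h2 := TF_nonneg (x' - l) (l + x) (1 - x' - x) (by ring) (by linarith) (by linarith)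
      (by linarith)
    have h3 := TF_mid x' x (1 - x' - x) x x' (1 - x' - x) (by ring) (by ring) hx' hx (by linarith)
      hx hx' (by linarith)
    rw [N_Mid_swap x x'] at h3
    obtain ⟨m, hm⟩ : ∃ m, m = (x + x') / 2 := ⟨_, rfl⟩
    rw [show (x' + x) / 2 = m by rw [hm]; ring, ← hm,
      show (1 - x' - x + (1 - x' - x)) / 2 = 1 - 2 * m by rw [hm]; ring] at h3
    have e2 : TF m m (1 - 2 * m) = 2 * hf m + 2 * Fr m := by
      unfold TF hf
      rw [N_Mid_refl, Fr_two, show 1 / 2 - m = 1 - (m + 1 / 2) by ring, N_Mid_refl]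
      ring
    rw [e2] at h3
    rw [e1, ← hm]
    constructor
    · have h4 := Fr_nonpos m (by rw [hm]; linarith) (by rw [hm]; linarith)
      linarith
    · intro _ h5 h6
      have h4 := Fr_neg_lt m (by rw [hm]; linarith) (by rw [hm]; linarith)
      linarith

private theorem N_Mid_core (l x a b x' a' b' : ℝ) (h : x + a + b = l) (h' : x' + a' + b' = 1 - l)
    (hx : 0 ≤ x) (ha : 0 ≤ a) (hb : 0 ≤ b) (hx' : 0 ≤ x') (ha' : 0 ≤ a') (hb' : 0 ≤ b')
    (hl : l ≤ 1 / 2) :
    EV l x a b + EV (1 - l) x' a' b' ≤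
      2 * EV (1 / 2) ((x + x') / 2) ((a + a') / 2) ((b + b') / 2) ∧
    (l < 1 / 2 → 0 < x + x' → x + x' < 1 → EV l x a b + EV (1 - l) x' a' b' <
      2 * EV (1 / 2) ((x + x') / 2) ((a + a') / 2) ((b + b') / 2)) := by
  rw [EV_eq l x a b h, EV_eq (1 - l) x' a' b' h', EV_half _ _ _ (by linarith),
    show 1 - (1 - l) = l by ring]
  have s1 := N_Mid_side l a (x + b) a' (x' + b') (by linarith) (by linarith) ha (by linarith) ha'
    (by linarith)
  have s2 := N_Mid_side l b (x + a) b' (x' + a') (by linarith) (by linarith) hb (by linarith) hb'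
    (by linarith)
  have s3 := N_Mid_end l x x' hl (by linarith) (by linarith) hx hx'
  refine ⟨?_, fun h1 h2 h3 => ?_⟩
  · linarith [s3.1]
  · linarith [s3.2 h1 h2 h3]

theorem EV_mid (l x a b x' a' b' : ℝ) (h : x + a + b = l) (h' : x' + a' + b' = 1 - l)
    (hx : 0 ≤ x) (ha : 0 ≤ a) (hb : 0 ≤ b) (hx' : 0 ≤ x') (ha' : 0 ≤ a') (hb' : 0 ≤ b') :
    EV l x a b + EV (1 - l) x' a' b' ≤
      2 * EV (1 / 2) ((x + x') / 2) ((a + a') / 2) ((b + b') / 2) := by
  rcases le_total l (1 / 2) with hl | hl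
  · exact (N_Mid_core l x a b x' a' b' h h' hx ha hb hx' ha' hb' hl).1
  · have h1 := (N_Mid_core (1 - l) x' a' b' x a b h' (by linarith) hx' ha' hb' hx ha hb
      (by linarith)).1
    rw [show 1 - (1 - l) = l by ring, add_comm x', add_comm a', add_comm b'] at h1
    linarith

theorem EV_mid_lt (l x a b x' a' b' : ℝ) (h : x + a + b = l) (h' : x' + a' + b' = 1 - l)
    (hx : 0 ≤ x) (ha : 0 ≤ a) (hb : 0 ≤ b) (hx' : 0 ≤ x') (ha' : 0 ≤ a') (hb' : 0 ≤ b')
    (hl : l ≠ 1 / 2) (h0 : 0 < x + x') (h1 : x + x' < 1) :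
    EV l x a b + EV (1 - l) x' a' b' <
      2 * EV (1 / 2) ((x + x') / 2) ((a + a') / 2) ((b + b') / 2) := by
  rcases lt_or_gt_of_ne hl with hl | hl
  · exact (N_Mid_core l x a b x' a' b' h h' hx ha hb hx' ha' hb' hl.le).2 hl h0 h1
  · have h2 := (N_Mid_core (1 - l) x' a' b' x a b h' (by linarith) hx' ha' hb' hx ha hb
      (by linarith)).2 (by linarith) (by linarith) (by linarith)
    rw [show 1 - (1 - l) = l by ring, add_comm x', add_comm a', add_comm b'] at h2
    linarith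

end Pool.Agent.H63.CLK
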