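import Pool.Agent.H63.CLK.N_NodeA
import Pool.Agent.H63.CLK.C_Fr

/-!
# All directions, analysis: the inequality at a node of the middle level

`node_fin` with `n → ∞`. Choose natural numbers `B_n + a_n + b_n = n`, `T_n + a'_n + b'_n = n` with `B_n / (2 n) → q`, … (e.g.
`a_n = ⌊2 n qL⌋`, `b_n = ⌊2 n qR⌋`, `B_n = n - a_n - b_n`). By `SN_bound` (both directions, `N = 2 n`) the left side of `node_fin` is at
least `exp (N * ∑ hf) / (C (N+1)^D)`, `hf` at `B_n / N`, …: `Fr (1/2 + x) - Fr (1/2) - Fr x = hf x` (`Fr_add_one`, `Fr_neg`, `Fr_half`).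
On the right side (`N + 1` terms) some `t_n` has a term `≥` the average, so it is not `0`: `n ≤ t_n` (`QN_zero`), and by
`emW` and its definition `B_n ≤ N - t_n`, `T_n ≤ N - t_n`, `a_n + a'_n ≤ t_n`, `b_n + b'_n ≤ t_n`; the norm of `emW` is
`∏_k SN (csz k) / (SN x_k SN (csz k - x_k))` (`emW_eq`, `qbin_qz` in `C_Naive.lean`, or `norm_brf`), and `QN_bound`, `SN_bound` give the
upper bound `C (N+1)^D exp (N * (gk (1/2) (t_n/N) + ∑_k (Fr (cz 1 (t_n/N) k) - Fr (x_k/N) - Fr (cz 1 (t_n/N) k - x_k/N))))`.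
Divide the logarithm by `N`, choose a subsequence with `t_n / N → t` (compactness of `[0, 1]`), and use the continuity of
`Fr` (and `gk_half`). All inequalities are closed.
-/

set_option autoImplicit false

namespace Pool.Agent.H63.CLK

open Pool.Agent.H63.VC hiding ext
open Pool.Agent.H63.VC3 Pool.Agent.H63.VC4 Pool.Agent.H63.VC7 Complex Filter Topology
open scoped BigOperators

theorem gk_half (τ : ℝ) (h : 1 / 2 ≤ τ) : gk (1 / 2) τ = sl τ := by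
  have e1 : Fr (1 / 2 + (1 - τ)) = -Fr (τ - 1 / 2) := by
    have : (1 : ℝ) / 2 + (1 - τ) = -(τ - 1 / 2) + 1 := by ring
    rw [this, Fr_add_one, Fr_neg]
  have e2 : Fr (1 / 2 - (1 - τ)) = Fr (τ - 1 / 2) := by
    congr 1
    ring
  have e3 : Fr (1 - τ) = -Fr τ := by
    have : (1 : ℝ) - τ = -τ + 1 := by ring
    rw [this, Fr_add_one, Fr_neg]
  rw [gk, e1, e2, e3, sl]
  split_ifs with h1
  · have h2 : τ = 1 / 2 := le_antisymm h1 h
    rw [h2, sub_self, Fr_zero, Fr_half]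
    ring
  · ring

private theorem N_Node_hf (x : ℝ) : Fr (1 / 2 + x) - Fr x = hf x := by
  have e1 : Fr (1 / 2 + x) = -Fr (1 / 2 - x) := by
    have : (1 : ℝ) / 2 + x = -(1 / 2 - x) + 1 := by ring
    rw [this, Fr_add_one, Fr_neg]
  rw [e1, hf]
  ring

/-- the two bounds for one factor -/
private theorem N_Node_low {C : ℝ} (hC : 0 < C) {D : ℕ}
    (hS : ∀ N n : ℕ, 1 ≤ N → n ≤ N →
      SN N n ≤ C * ((N + 1 : ℕ) : ℝ) ^ D * Real.exp (N * Fr ((n : ℝ) / N)) ∧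
      Real.exp (N * Fr ((n : ℝ) / N)) ≤ C * ((N + 1 : ℕ) : ℝ) ^ D * SN N n)
    (n x : ℕ) (hn : 1 ≤ n) (hx : x ≤ n) :
    Real.exp (((2 * n : ℕ) : ℝ) * hf ((x : ℝ) / ((2 * n : ℕ) : ℝ))) ≤
      (C * ((2 * n + 1 : ℕ) : ℝ) ^ D) ^ 3 *
        (SN (2 * n) (n + x) / (SN (2 * n) n * SN (2 * n) x)) := by
  obtain ⟨K, hK⟩ : ∃ K : ℝ, K = C * ((2 * n + 1 : ℕ) : ℝ) ^ D := ⟨_, rfl⟩
  have hKpos : 0 < K := by
    rw [hK]
    positivity
  have h1 := (hS (2 * n) (n + x) (by omega) (by omega)).2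
  have h2 := (hS (2 * n) n (by omega) (by omega)).1
  have h3 := (hS (2 * n) x (by omega) (by omega)).1
  have p1 := SN_pos (2 * n) n (by omega)
  have p2 := SN_pos (2 * n) x (by omega)
  have p3 := SN_pos (2 * n) (n + x) (by omega)
  rw [← hK] at h1 h2 h3 ⊢
  have hn0 : (0 : ℝ) < (n : ℝ) := by exact_mod_cast hn
  obtain ⟨N, hN⟩ : ∃ N : ℝ, N = ((2 * n : ℕ) : ℝ) := ⟨_, rfl⟩
  have hN2 : N = 2 * n := by rw [hN]; push_cast; ring
  have hN0 : 0 < N := by rw [hN2]; positivity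
  rw [← hN] at h1 h2 h3 ⊢
  have e1 : (n : ℝ) / N = 1 / 2 := by
    rw [hN2]
    field_simp
  have e2 : ((n + x : ℕ) : ℝ) / N = 1 / 2 + (x : ℝ) / N := by
    rw [← e1]
    push_cast
    ring
  rw [e2] at h1
  rw [e1, Fr_half, mul_zero, Real.exp_zero, mul_one] at h2
  have hE : Real.exp (N * Fr (1 / 2 + (x : ℝ) / N)) =
      Real.exp (N * hf ((x : ℝ) / N)) * Real.exp (N * Fr ((x : ℝ) / N)) := by
    rw [← Real.exp_add, ← N_Node_hf]
    congr 1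
    ring
  rw [hE] at h1
  obtain ⟨X, hX⟩ : ∃ X : ℝ, X = Real.exp (N * hf ((x : ℝ) / N)) := ⟨_, rfl⟩
  obtain ⟨Y, hY⟩ : ∃ Y : ℝ, Y = Real.exp (N * Fr ((x : ℝ) / N)) := ⟨_, rfl⟩
  have hX0 : 0 < X := by rw [hX]; exact Real.exp_pos _
  have hY0 : 0 < Y := by rw [hY]; exact Real.exp_pos _
  rw [← hX, ← hY] at h1
  rw [← hY] at h3
  rw [← hX, mul_div_assoc', le_div_iff₀ (mul_pos p1 p2)]
  calc X * (SN (2 * n) n * SN (2 * n) x) ≤ X * (K * (K * Y)) := by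
        apply mul_le_mul_of_nonneg_left _ hX0.le
        exact mul_le_mul h2 h3 p2.le hKpos.le
    _ = K ^ 2 * (X * Y) := by ring
    _ ≤ K ^ 2 * (K * SN (2 * n) (n + x)) := mul_le_mul_of_nonneg_left h1 (by positivity)
    _ = K ^ 3 * SN (2 * n) (n + x) := by ring

private theorem N_Node_qbin {C : ℝ} (hC : 0 < C) {D : ℕ}
    (hS : ∀ N n : ℕ, 1 ≤ N → n ≤ N →
      SN N n ≤ C * ((N + 1 : ℕ) : ℝ) ^ D * Real.exp (N * Fr ((n : ℝ) / N)) ∧
      Real.exp (N * Fr ((n : ℝ) / N)) ≤ C * ((N + 1 : ℕ) : ℝ) ^ D * SN N n)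
    (N m s : ℕ) (hN : 1 ≤ N) (hm : m ≤ N) (hs : s ≤ m) :
    ‖qbin (qz N) m s‖ ≤ (C * ((N + 1 : ℕ) : ℝ) ^ D) ^ 3 *
      Real.exp ((N : ℝ) * (Fr ((m : ℝ) / N) - Fr ((s : ℝ) / N) -
        Fr ((m : ℝ) / N - (s : ℝ) / N))) := by
  obtain ⟨K, hK⟩ : ∃ K : ℝ, K = C * ((N + 1 : ℕ) : ℝ) ^ D := ⟨_, rfl⟩
  have hKpos : 0 < K := by
    rw [hK]
    positivity
  have h1 := (hS N m hN hm).1
  have h2 := (hS N s hN (by omega)).2
  have h3 := (hS N (m - s) hN (by omega)).2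
  have p1 := SN_pos N m hm
  have p2 := SN_pos N s (by omega)
  have p3 := SN_pos N (m - s) (by omega)
  rw [← hK] at h1 h2 h3 ⊢
  have hN0 : (0 : ℝ) < (N : ℝ) := by exact_mod_cast hN
  have e3 : ((m - s : ℕ) : ℝ) / N = (m : ℝ) / N - (s : ℝ) / N := by
    rw [Nat.cast_sub hs]
    ring
  rw [e3] at h3
  rw [qbin, norm_div, norm_mul, norm_brf N m hm, norm_brf N s (by omega),
    norm_brf N (m - s) (by omega)]
  have e4 : Real.exp ((N : ℝ) * (Fr ((m : ℝ) / N) - Fr ((s : ℝ) / N) -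
      Fr ((m : ℝ) / N - (s : ℝ) / N))) = Real.exp (N * Fr ((m : ℝ) / N)) /
      (Real.exp (N * Fr ((s : ℝ) / N)) * Real.exp (N * Fr ((m : ℝ) / N - (s : ℝ) / N))) := by
    rw [← Real.exp_add, ← Real.exp_sub]
    congr 1
    ring
  rw [e4]
  have q1 : 0 < Real.exp (N * Fr ((m : ℝ) / N)) := Real.exp_pos _
  have q2 : 0 < Real.exp (N * Fr ((s : ℝ) / N)) := Real.exp_pos _
  have q3 : 0 < Real.exp (N * Fr ((m : ℝ) / N - (s : ℝ) / N)) := Real.exp_pos _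
  generalize Real.exp (N * Fr ((m : ℝ) / N)) = E1 at *
  generalize Real.exp (N * Fr ((s : ℝ) / N)) = E2 at *
  generalize Real.exp (N * Fr ((m : ℝ) / N - (s : ℝ) / N)) = E3 at *
  rw [mul_div_assoc', div_le_div_iff₀ (mul_pos p2 p3) (mul_pos q2 q3)]
  calc SN N m * (E2 * E3) ≤ (K * E1) * ((K * SN N s) * (K * SN N (m - s))) := by
        apply mul_le_mul h1 _ (by positivity) (by positivity)
        exact mul_le_mul h2 h3 q3.le (by positivity)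
    _ = K ^ 3 * E1 * (SN N s * SN N (m - s)) := by ring

/-- the growth at a node -/
private noncomputable def N_Node_G (t : ℝ) (x : Fin 4 → ℝ) : ℝ :=
  gk (1 / 2) t + ∑ k, (Fr (cz 1 t k) - Fr (x k) - Fr (cz 1 t k - x k))

private theorem N_Node_fin : ∃ C : ℝ, 0 < C ∧ ∃ D : ℕ, ∀ n B a b T a' b' : ℕ, 1 ≤ n →
    B + a + b = n → T + a' + b' = n → ∃ t : ℕ, n ≤ t ∧ t ≤ 2 * n ∧ T ≤ 2 * n - t ∧
    b + b' ≤ t ∧ B ≤ 2 * n - t ∧ a + a' ≤ t ∧
    Real.exp (((2 * n : ℕ) : ℝ) * ((hf ((B : ℝ) / ((2 * n : ℕ) : ℝ)) +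
      hf ((a : ℝ) / ((2 * n : ℕ) : ℝ)) + hf ((b : ℝ) / ((2 * n : ℕ) : ℝ))) +
      (hf ((T : ℝ) / ((2 * n : ℕ) : ℝ)) + hf ((a' : ℝ) / ((2 * n : ℕ) : ℝ)) +
      hf ((b' : ℝ) / ((2 * n : ℕ) : ℝ))))) ≤
      C * ((2 * n + 1 : ℕ) : ℝ) ^ D * Real.exp (((2 * n : ℕ) : ℝ) *
        N_Node_G ((t : ℝ) / ((2 * n : ℕ) : ℝ)) (![(T : ℝ) / ((2 * n : ℕ) : ℝ),
          ((b + b' : ℕ) : ℝ) / ((2 * n : ℕ) : ℝ), (B : ℝ) / ((2 * n : ℕ) : ℝ),
          ((a + a' : ℕ) : ℝ) / ((2 * n : ℕ) : ℝ)])) := by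
  obtain ⟨C1, hC1, D1, hS⟩ := SN_bound
  obtain ⟨C2, hC2, D2, hQ⟩ := QN_bound
  refine ⟨C1 ^ 30 * C2, by positivity, 30 * D1 + D2 + 1, ?_⟩
  intro n B a b T a' b' hn h h'
  have hn0 : (0 : ℝ) < (n : ℝ) := by exact_mod_cast hn
  obtain ⟨M, hM⟩ : ∃ M : ℝ, M = ((2 * n + 1 : ℕ) : ℝ) := ⟨_, rfl⟩
  have hM1 : 1 ≤ M := by
    rw [hM]
    exact_mod_cast (by omega : 1 ≤ 2 * n + 1)
  have hM0 : 0 < M := by linarith
  obtain ⟨K, hK⟩ : ∃ K : ℝ, K = C1 * M ^ D1 := ⟨_, rfl⟩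
  have hKpos : 0 < K := by
    rw [hK]
    positivity
  have l1 := N_Node_low hC1 hS n B hn (by omega)
  have l2 := N_Node_low hC1 hS n a hn (by omega)
  have l3 := N_Node_low hC1 hS n b hn (by omega)
  have l4 := N_Node_low hC1 hS n T hn (by omega)
  have l5 := N_Node_low hC1 hS n a' hn (by omega)
  have l6 := N_Node_low hC1 hS n b' hn (by omega)
  have hfin := node_fin n B a b T a' b' hn h h'
  have pos : ∀ x, x ≤ n → 0 < SN (2 * n) (n + x) / (SN (2 * n) n * SN (2 * n) x) := by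
    intro x hx
    have p1 := SN_pos (2 * n) n (by omega)
    have p2 := SN_pos (2 * n) x (by omega)
    have p3 := SN_pos (2 * n) (n + x) (by omega)
    positivity
  have r1 := pos B (by omega)
  have r2 := pos a (by omega)
  have r3 := pos b (by omega)
  have r4 := pos T (by omega)
  have r5 := pos a' (by omega)
  have r6 := pos b' (by omega)
  rw [← hM, ← hK] at l1 l2 l3 l4 l5 l6
  generalize SN (2 * n) (n + B) / (SN (2 * n) n * SN (2 * n) B) = R1 at *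
  generalize SN (2 * n) (n + a) / (SN (2 * n) n * SN (2 * n) a) = R2 at *
  generalize SN (2 * n) (n + b) / (SN (2 * n) n * SN (2 * n) b) = R3 at *
  generalize SN (2 * n) (n + T) / (SN (2 * n) n * SN (2 * n) T) = R4 at *
  generalize SN (2 * n) (n + a') / (SN (2 * n) n * SN (2 * n) a') = R5 at *
  generalize SN (2 * n) (n + b') / (SN (2 * n) n * SN (2 * n) b') = R6 at *
  have hLpos : 0 < R1 * R2 * R3 * R4 * R5 * R6 := by positivity
  obtain ⟨t, ht, hterm⟩ : ∃ t ∈ Finset.range (2 * n + 1), R1 * R2 * R3 * R4 * R5 * R6 / M ≤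
      QN (2 * n) n t * ‖emW (2 * n) t B (a + a') (b + b')‖ := by
    apply Finset.exists_le_of_sum_le ⟨0, Finset.mem_range.2 (by omega)⟩
    rw [Finset.sum_const, Finset.card_range, nsmul_eq_mul, ← hM, mul_div_cancel₀ _ hM0.ne']
    exact hfin
  rw [Finset.mem_range] at ht
  have hterm0 : 0 < QN (2 * n) n t * ‖emW (2 * n) t B (a + a') (b + b')‖ :=
    lt_of_lt_of_le (div_pos hLpos hM0) hterm
  have hQN : QN (2 * n) n t ≠ 0 := fun e => by
    rw [e, zero_mul] at hterm0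
    exact lt_irrefl _ hterm0
  have hem : emW (2 * n) t B (a + a') (b + b') ≠ 0 := fun e => by
    rw [e, norm_zero, mul_zero] at hterm0
    exact lt_irrefl _ hterm0
  have hnt : n ≤ t := by
    by_contra hlt
    exact hQN (QN_zero (2 * n) n t (by omega) (by omega) (Or.inl (by omega)))
  have hcond : B ≤ 2 * n - t ∧ B + (a + a') + (b + b') ≤ 2 * n ∧ t ≤ B + (a + a') + (b + b') ∧
      a + a' ≤ t ∧ b + b' ≤ t := by
    by_contra hc
    exact hem (by rw [emW, if_neg hc])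
  have hT : T ≤ 2 * n - t := by omega
  refine ⟨t, hnt, by omega, hT, hcond.2.2.2.2, hcond.1, hcond.2.2.2.1, ?_⟩
  have hN1 : 1 ≤ 2 * n := by omega
  have b1 := N_Node_qbin hC1 hS (2 * n) (2 * n - t) B hN1 (by omega) hcond.1
  have b2 := N_Node_qbin hC1 hS (2 * n) (2 * n - t) T hN1 (by omega) hT
  have b3 := N_Node_qbin hC1 hS (2 * n) t (a + a') hN1 (by omega) hcond.2.2.2.1
  have b4 := N_Node_qbin hC1 hS (2 * n) t (b + b') hN1 (by omega) hcond.2.2.2.2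
  have bq := hQ (2 * n) n t hN1 (by omega) (by omega)
  obtain ⟨N, hN⟩ : ∃ N : ℝ, N = ((2 * n : ℕ) : ℝ) := ⟨_, rfl⟩
  have hN2 : N = 2 * n := by rw [hN]; push_cast; ring
  have hN0 : 0 < N := by rw [hN2]; positivity
  have e1 : (n : ℝ) / N = 1 / 2 := by
    rw [hN2]
    field_simp
  have e2 : ((2 * n - t : ℕ) : ℝ) / N = 1 - (t : ℝ) / N := by
    rw [Nat.cast_sub (by omega), ← hN, sub_div, div_self hN0.ne']
  rw [← hN] at b1 b2 b3 b4 bq l1 l2 l3 l4 l5 l6 ⊢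
  rw [e2] at b1 b2
  rw [e1] at bq
  rw [← hM] at b1 b2 b3 b4 bq ⊢
  rw [← hK] at b1 b2 b3 b4
  have hemn : ‖emW (2 * n) t B (a + a') (b + b')‖ =
      ‖qbin (qz (2 * n)) (2 * n - t) B‖ * ‖qbin (qz (2 * n)) (2 * n - t) T‖ *
        ‖qbin (qz (2 * n)) t (a + a')‖ * ‖qbin (qz (2 * n)) t (b + b')‖ := by
    rw [emW, if_pos hcond, cK, show 2 * n - B - (a + a') - (b + b') = T by omega, norm_mul,
      norm_mul, norm_mul]
  have hQle : QN (2 * n) n t ≤ C2 * M ^ D2 * Real.exp (N * gk (1 / 2) ((t : ℝ) / N)) :=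
    (le_abs_self _).trans bq
  have hup : QN (2 * n) n t * ‖emW (2 * n) t B (a + a') (b + b')‖ ≤
      C2 * M ^ D2 * K ^ 12 * Real.exp (N * N_Node_G ((t : ℝ) / N) (![(T : ℝ) / N,
          ((b + b' : ℕ) : ℝ) / N, (B : ℝ) / N, ((a + a' : ℕ) : ℝ) / N])) := by
    rw [hemn]
    have hG : Real.exp (N * N_Node_G ((t : ℝ) / N) (![(T : ℝ) / N,
          ((b + b' : ℕ) : ℝ) / N, (B : ℝ) / N, ((a + a' : ℕ) : ℝ) / N])) =
        Real.exp (N * gk (1 / 2) ((t : ℝ) / N)) *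
        (Real.exp (N * (Fr (1 - (t : ℝ) / N) - Fr ((B : ℝ) / N) -
            Fr (1 - (t : ℝ) / N - (B : ℝ) / N))) *
          Real.exp (N * (Fr (1 - (t : ℝ) / N) - Fr ((T : ℝ) / N) -
            Fr (1 - (t : ℝ) / N - (T : ℝ) / N))) *
          Real.exp (N * (Fr ((t : ℝ) / N) - Fr (((a + a' : ℕ) : ℝ) / N) -
            Fr ((t : ℝ) / N - ((a + a' : ℕ) : ℝ) / N))) *
          Real.exp (N * (Fr ((t : ℝ) / N) - Fr (((b + b' : ℕ) : ℝ) / N) -
            Fr ((t : ℝ) / N - ((b + b' : ℕ) : ℝ) / N)))) := by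
      rw [← Real.exp_add, ← Real.exp_add, ← Real.exp_add, ← Real.exp_add]
      congr 1
      rw [N_Node_G, Fin.sum_univ_four]
      simp only [cz, Matrix.cons_val_zero, Matrix.cons_val_one, Matrix.cons_val]
      ring
    rw [hG]
    generalize Real.exp (N * gk (1 / 2) ((t : ℝ) / N)) = X0 at *
    generalize Real.exp (N * (Fr (1 - (t : ℝ) / N) - Fr ((B : ℝ) / N) -
            Fr (1 - (t : ℝ) / N - (B : ℝ) / N))) = X1 at *
    generalize Real.exp (N * (Fr (1 - (t : ℝ) / N) - Fr ((T : ℝ) / N) -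
            Fr (1 - (t : ℝ) / N - (T : ℝ) / N))) = X2 at *
    generalize Real.exp (N * (Fr ((t : ℝ) / N) - Fr (((a + a' : ℕ) : ℝ) / N) -
            Fr ((t : ℝ) / N - ((a + a' : ℕ) : ℝ) / N))) = X3 at *
    generalize Real.exp (N * (Fr ((t : ℝ) / N) - Fr (((b + b' : ℕ) : ℝ) / N) -
            Fr ((t : ℝ) / N - ((b + b' : ℕ) : ℝ) / N))) = X4 at *
    have n1 := norm_nonneg (qbin (qz (2 * n)) (2 * n - t) B)
    have n2 := norm_nonneg (qbin (qz (2 * n)) (2 * n - t) T)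
    have n3 := norm_nonneg (qbin (qz (2 * n)) t (a + a'))
    have n4 := norm_nonneg (qbin (qz (2 * n)) t (b + b'))
    have m1 := mul_le_mul b1 b2 n2 (n1.trans b1)
    have m2 := mul_le_mul m1 b3 n3 ((mul_nonneg n1 n2).trans m1)
    have m3 := mul_le_mul m2 b4 n4 ((mul_nonneg (mul_nonneg n1 n2) n3).trans m2)
    have hq0 : 0 ≤ C2 * M ^ D2 * X0 := (abs_nonneg _).trans bq
    have m4 := mul_le_mul hQle m3 (mul_nonneg (mul_nonneg (mul_nonneg n1 n2) n3) n4) hq0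
    refine m4.trans (le_of_eq ?_)
    ring
  have hsum : Real.exp (N * ((hf ((B : ℝ) / N) + hf ((a : ℝ) / N) + hf ((b : ℝ) / N)) +
      (hf ((T : ℝ) / N) + hf ((a' : ℝ) / N) + hf ((b' : ℝ) / N)))) =
      Real.exp (N * hf ((B : ℝ) / N)) * Real.exp (N * hf ((a : ℝ) / N)) *
        Real.exp (N * hf ((b : ℝ) / N)) * Real.exp (N * hf ((T : ℝ) / N)) *
        Real.exp (N * hf ((a' : ℝ) / N)) * Real.exp (N * hf ((b' : ℝ) / N)) := by
    rw [← Real.exp_add, ← Real.exp_add, ← Real.exp_add, ← Real.exp_add, ← Real.exp_add]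
    congr 1
    ring
  rw [hsum]
  have x1 : 0 < Real.exp (N * hf ((B : ℝ) / N)) := Real.exp_pos _
  have x2 : 0 < Real.exp (N * hf ((a : ℝ) / N)) := Real.exp_pos _
  have x3 : 0 < Real.exp (N * hf ((b : ℝ) / N)) := Real.exp_pos _
  have x4 : 0 < Real.exp (N * hf ((T : ℝ) / N)) := Real.exp_pos _
  have x5 : 0 < Real.exp (N * hf ((a' : ℝ) / N)) := Real.exp_pos _
  have x6 : 0 < Real.exp (N * hf ((b' : ℝ) / N)) := Real.exp_pos _
  have s1 := mul_le_mul l1 l2 x2.le (by positivity)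
  have s2 := mul_le_mul s1 l3 x3.le (by positivity)
  have s3 := mul_le_mul s2 l4 x4.le (by positivity)
  have s4 := mul_le_mul s3 l5 x5.le (by positivity)
  have s5 := mul_le_mul s4 l6 x6.le (by positivity)
  refine s5.trans ?_
  have hL : R1 * R2 * R3 * R4 * R5 * R6 ≤ M * (C2 * M ^ D2 * K ^ 12 *
      Real.exp (N * N_Node_G ((t : ℝ) / N) (![(T : ℝ) / N,
          ((b + b' : ℕ) : ℝ) / N, (B : ℝ) / N, ((a + a' : ℕ) : ℝ) / N]))) := by
    have := hterm.trans hup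
    rw [div_le_iff₀ hM0] at this
    exact this.trans (le_of_eq (mul_comm _ _))
  generalize Real.exp (N * N_Node_G ((t : ℝ) / N) (![(T : ℝ) / N,
          ((b + b' : ℕ) : ℝ) / N, (B : ℝ) / N, ((a + a' : ℕ) : ℝ) / N])) = Y at *
  calc K ^ 3 * R1 * (K ^ 3 * R2) * (K ^ 3 * R3) * (K ^ 3 * R4) * (K ^ 3 * R5) * (K ^ 3 * R6)
      = K ^ 18 * (R1 * R2 * R3 * R4 * R5 * R6) := by ring
    _ ≤ K ^ 18 * (M * (C2 * M ^ D2 * K ^ 12 * Y)) :=
        mul_le_mul_of_nonneg_left hL (by positivity)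
    _ = C1 ^ 30 * C2 * M ^ (30 * D1 + D2 + 1) * Y := by
        have e3 : K ^ 18 * K ^ 12 = C1 ^ 30 * M ^ (30 * D1) := by
          rw [← pow_add, hK, mul_pow, ← pow_mul, mul_comm D1]
        have e4 : M ^ (30 * D1 + D2 + 1) = M ^ (30 * D1) * M ^ D2 * M := by
          rw [pow_succ, pow_add]
        rw [e4]
        linear_combination (M * C2 * M ^ D2 * Y) * e3

private theorem N_Node_seq (u : Fin 3 → ℝ) (hu : ∀ i, 0 ≤ u i) (h : ∑ i, u i = 1 / 2) :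
    ∃ s : ℕ → Fin 3 → ℕ, (∀ m, s m 0 + s m 1 + s m 2 = m + 1) ∧
      ∀ i, Tendsto (fun m : ℕ => (s m i : ℝ) / ((2 * (m + 1) : ℕ) : ℝ)) atTop (𝓝 (u i)) := by
  rw [Fin.sum_univ_three] at h
  have hfl : ∀ i, Tendsto (fun m : ℕ => ((⌊u i * (2 * ((m : ℝ) + 1))⌋₊ : ℕ) : ℝ) /
      ((2 * (m + 1) : ℕ) : ℝ)) atTop (𝓝 (u i)) := by
    intro i
    have h1 : Tendsto (fun m : ℕ => 2 * ((m : ℝ) + 1)) atTop atTop :=
      (tendsto_natCast_atTop_atTop.atTop_add tendsto_const_nhds).const_mul_atTop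
        (by norm_num : (0 : ℝ) < 2)
    have h2 := (tendsto_nat_floor_mul_div_atTop (hu i)).comp h1
    refine h2.congr fun m => ?_
    rw [Function.comp_apply]
    congr 1
    push_cast
    ring
  have hle : ∀ m : ℕ, ⌊u 1 * (2 * ((m : ℝ) + 1))⌋₊ + ⌊u 2 * (2 * ((m : ℝ) + 1))⌋₊ ≤ m + 1 := by
    intro m
    have hm : (0 : ℝ) ≤ 2 * ((m : ℝ) + 1) := by positivity
    have h1 := Nat.floor_le (mul_nonneg (hu 1) hm)
    have h2 := Nat.floor_le (mul_nonneg (hu 2) hm)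
    have h0 := hu 0
    have h3 : ((⌊u 1 * (2 * ((m : ℝ) + 1))⌋₊ + ⌊u 2 * (2 * ((m : ℝ) + 1))⌋₊ : ℕ) : ℝ) ≤
        ((m + 1 : ℕ) : ℝ) := by
      push_cast
      nlinarith
    exact_mod_cast h3
  refine ⟨fun m => ![m + 1 - ⌊u 1 * (2 * ((m : ℝ) + 1))⌋₊ - ⌊u 2 * (2 * ((m : ℝ) + 1))⌋₊,
    ⌊u 1 * (2 * ((m : ℝ) + 1))⌋₊, ⌊u 2 * (2 * ((m : ℝ) + 1))⌋₊], ?_, ?_⟩
  · intro m
    have := hle m
    simp only [Matrix.cons_val_zero, Matrix.cons_val_one, Matrix.cons_val]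
    omega
  · intro i
    fin_cases i
    · simp only [Fin.zero_eta, Matrix.cons_val_zero]
      have h1 := (tendsto_const_nhds (x := (1 / 2 : ℝ))).sub (hfl 1) |>.sub (hfl 2)
      have e : (1 : ℝ) / 2 - u 1 - u 2 = u 0 := by linarith
      rw [e] at h1
      refine h1.congr fun m => ?_
      have hm := hle m
      have hN : (((2 * (m + 1) : ℕ) : ℝ)) = 2 * ((m : ℝ) + 1) := by push_cast; ring
      have hm0 : (0 : ℝ) < (m : ℝ) + 1 := by positivity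
      rw [Nat.sub_sub, Nat.cast_sub hm, hN]
      push_cast
      field_simp
      ring
    · simp only [Fin.mk_one, Matrix.cons_val_one]
      exact hfl 1
    · simp only [Fin.reduceFinMk, Matrix.cons_val]
      exact hfl 2

private theorem N_Node_cz_cont (k : Fin 4) : Continuous fun t : ℝ => cz 1 t k := by
  fin_cases k
  · exact continuous_const.sub continuous_id
  · exact continuous_id
  · exact continuous_const.sub continuous_id
  · exact continuous_id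

private theorem N_Node_G_cont : Continuous fun z : ℝ × (Fin 4 → ℝ) => N_Node_G z.1 z.2 := by
  unfold N_Node_G gk
  have hc : ∀ k : Fin 4, Continuous fun z : ℝ × (Fin 4 → ℝ) => cz 1 z.1 k := fun k =>
    (N_Node_cz_cont k).comp continuous_fst
  have hx : ∀ k : Fin 4, Continuous fun z : ℝ × (Fin 4 → ℝ) => z.2 k := fun k =>
    (continuous_apply k).comp continuous_snd
  refine Continuous.add (((Fr_continuous.comp ?_).sub (Fr_continuous.comp ?_)).sub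
    (continuous_const.mul (Fr_continuous.comp ?_))) (continuous_finsetSum _ fun k _ =>
      ((Fr_continuous.comp (hc k)).sub (Fr_continuous.comp (hx k))).sub
        (Fr_continuous.comp ((hc k).sub (hx k))))
  · exact continuous_const.add (continuous_const.sub continuous_fst)
  · exact continuous_const.sub (continuous_const.sub continuous_fst)
  · exact continuous_const.sub continuous_fst

private theorem N_Node_comp {F : ℝ → (Fin 4 → ℝ) → ℝ} {T : ℕ → ℝ} {V : ℕ → Fin 4 → ℝ}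
    {τ : ℝ} {v : Fin 4 → ℝ} (hF : Continuous fun z : ℝ × (Fin 4 → ℝ) => F z.1 z.2)
    (hT : Tendsto T atTop (𝓝 τ)) (hV : Tendsto V atTop (𝓝 v)) :
    Tendsto (fun m : ℕ => F (T m) (V m)) atTop (𝓝 (F τ v)) := by
  have h2 : Tendsto (fun m => (T m, V m)) atTop (𝓝 (τ, v)) := hT.prodMk_nhds hV
  exact (hF.tendsto (τ, v)).comp h2

private theorem N_Node_G_tendsto {T : ℕ → ℝ} {V : ℕ → Fin 4 → ℝ} {τ : ℝ} {v : Fin 4 → ℝ}
    (hT : Tendsto T atTop (𝓝 τ)) (hV : Tendsto V atTop (𝓝 v)) :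
    Tendsto (fun m : ℕ => N_Node_G (T m) (V m)) atTop (𝓝 (N_Node_G τ v)) :=
  N_Node_comp (F := N_Node_G) N_Node_G_cont hT hV

private theorem N_Node_hf_cont : Continuous hf := by
  unfold hf
  exact Fr_continuous.neg.sub (Fr_continuous.comp (continuous_const.sub continuous_id))

private theorem N_Node_err (A : ℝ) (D : ℕ) :
    Tendsto (fun m : ℕ => (A + D * Real.log ((2 * (m + 1) + 1 : ℕ) : ℝ)) /
      ((2 * (m + 1) : ℕ) : ℝ)) atTop (𝓝 0) := by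
  have h1 : Tendsto (fun m : ℕ => ((2 * (m + 1) + 1 : ℕ) : ℝ)) atTop atTop := by
    apply tendsto_natCast_atTop_atTop.comp
    apply tendsto_atTop_mono (fun m => ?_) tendsto_id
    simp only [id_eq]
    omega
  have h2 := (Real.tendsto_pow_log_div_mul_add_atTop 1 (-1) 1 one_ne_zero).comp h1
  have h3 := (Real.tendsto_pow_log_div_mul_add_atTop 1 (-1) 0 one_ne_zero).comp h1
  have h4 := (h3.const_mul A).add (h2.const_mul (D : ℝ))
  rw [mul_zero, mul_zero, add_zero] at h4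
  refine h4.congr fun m => ?_
  simp only [Function.comp_apply, pow_one, pow_zero, one_mul]
  have e : ((2 * (m + 1) + 1 : ℕ) : ℝ) + -1 = ((2 * (m + 1) : ℕ) : ℝ) := by
    push_cast
    ring
  rw [e]
  ring

/-- `q 0, q 1, q 2`: the end, the left side, the right side of the triangle at the bottom, `p` at the
top. -/
theorem node (q p : Fin 3 → ℝ) (hq : ∀ i, 0 ≤ q i) (hp : ∀ i, 0 ≤ p i) (h : ∑ i, q i = 1 / 2)
    (h' : ∑ i, p i = 1 / 2) : ∃ t : ℝ, 1 / 2 ≤ t ∧ t ≤ 1 ∧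
    (∀ k, (![p 0, q 2 + p 2, q 0, q 1 + p 1] : Fin 4 → ℝ) k ≤ cz 1 t k) ∧
    ∑ i, hf (q i) + ∑ i, hf (p i) ≤ sl t + ∑ k, (Fr (cz 1 t k) -
      Fr ((![p 0, q 2 + p 2, q 0, q 1 + p 1] : Fin 4 → ℝ) k) -
      Fr (cz 1 t k - (![p 0, q 2 + p 2, q 0, q 1 + p 1] : Fin 4 → ℝ) k)) := by
  obtain ⟨C, hC, D, hfin⟩ := N_Node_fin
  obtain ⟨s, hs, hsl⟩ := N_Node_seq q hq h
  obtain ⟨r, hr, hrl⟩ := N_Node_seq p hp h'
  have hall := fun m : ℕ => hfin (m + 1) (s m 0) (s m 1) (s m 2) (r m 0) (r m 1) (r m 2)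
    (by omega) (hs m) (hr m)
  choose t ht1 ht2 ht3 ht4 ht5 ht6 ht7 using hall
  have hNpos : ∀ m : ℕ, (0 : ℝ) < ((2 * (m + 1) : ℕ) : ℝ) := fun m => by positivity
  have hmem : ∀ m : ℕ, (t m : ℝ) / ((2 * (m + 1) : ℕ) : ℝ) ∈ Set.Icc (1 / 2 : ℝ) 1 := by
    intro m
    constructor
    · rw [div_le_div_iff₀ (by norm_num) (hNpos m)]
      have : (2 * (m + 1) : ℕ) ≤ t m * 2 := by
        have := ht1 m
        omega
      rw [one_mul]
      exact_mod_cast this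
    · rw [div_le_one (hNpos m)]
      exact_mod_cast ht2 m
  obtain ⟨τ, hτ, φ, hφ, hlim⟩ := isCompact_Icc.tendsto_subseq hmem
  have hφt : Tendsto φ atTop atTop := hφ.tendsto_atTop
  have hlim' : Tendsto (fun m => (t (φ m) : ℝ) / ((2 * (φ m + 1) : ℕ) : ℝ)) atTop (𝓝 τ) := hlim
  have hX : Tendsto (fun m : ℕ => (![(r m 0 : ℝ) / ((2 * (m + 1) : ℕ) : ℝ),
      ((s m 2 + r m 2 : ℕ) : ℝ) / ((2 * (m + 1) : ℕ) : ℝ),
      (s m 0 : ℝ) / ((2 * (m + 1) : ℕ) : ℝ),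
      ((s m 1 + r m 1 : ℕ) : ℝ) / ((2 * (m + 1) : ℕ) : ℝ)] : Fin 4 → ℝ)) atTop
      (𝓝 (![p 0, q 2 + p 2, q 0, q 1 + p 1] : Fin 4 → ℝ)) := by
    rw [tendsto_pi_nhds]
    intro k
    fin_cases k
    · exact hrl 0
    · refine ((hsl 2).add (hrl 2)).congr fun m => ?_
      simp only [Matrix.cons_val_one, Matrix.cons_val_zero, Fin.mk_one]
      push_cast
      ring
    · exact hsl 0
    · refine ((hsl 1).add (hrl 1)).congr fun m => ?_
      simp only [Fin.reduceFinMk, Matrix.cons_val]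
      push_cast
      ring
  refine ⟨τ, hτ.1, hτ.2, ?_, ?_⟩
  · intro k
    have h1 : Tendsto (fun m => (![(r (φ m) 0 : ℝ) / ((2 * (φ m + 1) : ℕ) : ℝ),
        ((s (φ m) 2 + r (φ m) 2 : ℕ) : ℝ) / ((2 * (φ m + 1) : ℕ) : ℝ),
        (s (φ m) 0 : ℝ) / ((2 * (φ m + 1) : ℕ) : ℝ),
        ((s (φ m) 1 + r (φ m) 1 : ℕ) : ℝ) / ((2 * (φ m + 1) : ℕ) : ℝ)] : Fin 4 → ℝ) k) atTop
        (𝓝 ((![p 0, q 2 + p 2, q 0, q 1 + p 1] : Fin 4 → ℝ) k)) :=
      (tendsto_pi_nhds.1 hX k).comp hφt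
    have h2 := ((N_Node_cz_cont k).tendsto τ).comp hlim'
    refine le_of_tendsto_of_tendsto' h1 h2 fun m => ?_
    have hN := hNpos (φ m)
    have hcast : ((2 * (φ m + 1) - t (φ m) : ℕ) : ℝ) =
        ((2 * (φ m + 1) : ℕ) : ℝ) - t (φ m) := by
      rw [Nat.cast_sub (ht2 (φ m))]
    have hone : (1 : ℝ) - (t (φ m) : ℝ) / ((2 * (φ m + 1) : ℕ) : ℝ) =
        ((2 * (φ m + 1) - t (φ m) : ℕ) : ℝ) / ((2 * (φ m + 1) : ℕ) : ℝ) := by
      rw [hcast, sub_div, div_self hN.ne']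
    rw [Function.comp_apply]
    fin_cases k
    · show (r (φ m) 0 : ℝ) / ((2 * (φ m + 1) : ℕ) : ℝ) ≤
        (1 : ℝ) - (t (φ m) : ℝ) / ((2 * (φ m + 1) : ℕ) : ℝ)
      rw [hone]
      apply div_le_div_of_nonneg_right _ hN.le
      exact_mod_cast ht3 (φ m)
    · show ((s (φ m) 2 + r (φ m) 2 : ℕ) : ℝ) / ((2 * (φ m + 1) : ℕ) : ℝ) ≤
        (t (φ m) : ℝ) / ((2 * (φ m + 1) : ℕ) : ℝ)
      apply div_le_div_of_nonneg_right _ hN.le
      exact_mod_cast ht4 (φ m)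
    · show (s (φ m) 0 : ℝ) / ((2 * (φ m + 1) : ℕ) : ℝ) ≤
        (1 : ℝ) - (t (φ m) : ℝ) / ((2 * (φ m + 1) : ℕ) : ℝ)
      rw [hone]
      apply div_le_div_of_nonneg_right _ hN.le
      exact_mod_cast ht5 (φ m)
    · show ((s (φ m) 1 + r (φ m) 1 : ℕ) : ℝ) / ((2 * (φ m + 1) : ℕ) : ℝ) ≤
        (t (φ m) : ℝ) / ((2 * (φ m + 1) : ℕ) : ℝ)
      apply div_le_div_of_nonneg_right _ hN.le
      exact_mod_cast ht6 (φ m)
  · have hL : Tendsto (fun m : ℕ => (hf ((s m 0 : ℝ) / ((2 * (m + 1) : ℕ) : ℝ)) +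
        hf ((s m 1 : ℝ) / ((2 * (m + 1) : ℕ) : ℝ)) +
        hf ((s m 2 : ℝ) / ((2 * (m + 1) : ℕ) : ℝ))) +
        (hf ((r m 0 : ℝ) / ((2 * (m + 1) : ℕ) : ℝ)) +
        hf ((r m 1 : ℝ) / ((2 * (m + 1) : ℕ) : ℝ)) +
        hf ((r m 2 : ℝ) / ((2 * (m + 1) : ℕ) : ℝ)))) atTop
        (𝓝 (∑ i, hf (q i) + ∑ i, hf (p i))) := by
      rw [Fin.sum_univ_three, Fin.sum_univ_three]
      have hc : ∀ {f : ℕ → ℝ} {x : ℝ}, Tendsto f atTop (𝓝 x) →
          Tendsto (fun m => hf (f m)) atTop (𝓝 (hf x)) := fun hh =>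
        (N_Node_hf_cont.tendsto _).comp hh
      exact (((hc (hsl 0)).add (hc (hsl 1))).add (hc (hsl 2))).add
        (((hc (hrl 0)).add (hc (hrl 1))).add (hc (hrl 2)))
    have hL' := hL.comp hφt
    have hG : Tendsto (fun m : ℕ => N_Node_G ((t (φ m) : ℝ) / ((2 * (φ m + 1) : ℕ) : ℝ))
        (![(r (φ m) 0 : ℝ) / ((2 * (φ m + 1) : ℕ) : ℝ),
        ((s (φ m) 2 + r (φ m) 2 : ℕ) : ℝ) / ((2 * (φ m + 1) : ℕ) : ℝ),
        (s (φ m) 0 : ℝ) / ((2 * (φ m + 1) : ℕ) : ℝ),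
        ((s (φ m) 1 + r (φ m) 1 : ℕ) : ℝ) / ((2 * (φ m + 1) : ℕ) : ℝ)] : Fin 4 → ℝ)) atTop
        (𝓝 (N_Node_G τ (![p 0, q 2 + p 2, q 0, q 1 + p 1] : Fin 4 → ℝ))) :=
      N_Node_G_tendsto hlim' (hX.comp hφt)
    have hE := (N_Node_err (Real.log C) D).comp hφt
    have hR := hE.add hG
    rw [zero_add] at hR
    have hgoal : N_Node_G τ (![p 0, q 2 + p 2, q 0, q 1 + p 1] : Fin 4 → ℝ) =
        sl τ + ∑ k, (Fr (cz 1 τ k) -
        Fr ((![p 0, q 2 + p 2, q 0, q 1 + p 1] : Fin 4 → ℝ) k) -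
        Fr (cz 1 τ k - (![p 0, q 2 + p 2, q 0, q 1 + p 1] : Fin 4 → ℝ) k)) := by
      rw [N_Node_G, gk_half τ hτ.1]
    rw [← hgoal]
    refine le_of_tendsto_of_tendsto' hL' hR fun m => ?_
    simp only [Function.comp_apply]
    have h7 := ht7 (φ m)
    have hN := hNpos (φ m)
    have hM : (0 : ℝ) < ((2 * (φ m + 1) + 1 : ℕ) : ℝ) := by positivity
    obtain ⟨N, hNe⟩ : ∃ N : ℝ, N = ((2 * (φ m + 1) : ℕ) : ℝ) := ⟨_, rfl⟩
    obtain ⟨M, hMe⟩ : ∃ M : ℝ, M = ((2 * (φ m + 1) + 1 : ℕ) : ℝ) := ⟨_, rfl⟩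
    rw [← hNe, ← hMe] at h7 ⊢
    rw [← hNe] at hN
    rw [← hMe] at hM
    have hlog := Real.log_le_log (Real.exp_pos _) h7
    rw [Real.log_exp, Real.log_mul (by positivity) (Real.exp_pos _).ne', Real.log_exp,
      Real.log_mul hC.ne' (by positivity), Real.log_pow] at hlog
    rw [← sub_le_iff_le_add, le_div_iff₀ hN]
    nlinarith

end Pool.Agent.H63.CLK
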