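import Pool.Agent.H63.CLK.N_SplD
import Pool.Agent.H63.CLK.N_Mid
import Pool.Agent.H63.CLK.N_Node
import Pool.Agent.H63.CLK.C_Poly

/-!
# All directions, analysis: the gap for split states

* `spl_half`: `node` at every `v` (`q i = p v 0, p v 1, p v 2`, `p i = p v 3, p v 4, p v 5`; `EV_half`); `y (inl v) = t v`,
  `y (inr (v, k)) = spc p v k`. `IsAng`: the sum at a vertex is `l + (1 - l) = 1`.
* `Uf_lt_of`: `volF_eq` (as in the proofs of `gap`, `Uf_le` in `C_Poly.lean`).
* `gap_pt`: let `m = (p + p') / 2`, a split state of the level `1/2`; `EV_mid` for all `v`, bottom and top, gives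
  `EVs l p + EVs (1 - l) p' ≤ 2 * EVs (1/2) m ≤ 2 * Uf y` (`spl_half`). If `y ≠ x`, the claim follows from `IsMaxN`. If `y = x`, let
  `l v ≠ 1/2`. If `cor v 2 ∈ F`, then `m v 0 = x (inr (v, 2))` is in the open interval `(0, 1/2)`: for `¬ IsEnd` by `IsInt.pos`, `IsInt.lt`
  (`cz 1 τ 2 = 1 - τ < 1/2`), for `IsEnd` by `(ang_lin hx.int.ang).endv` it is `1 - τ`. So `EV_mid_lt` at the bottom of `v`. Likewise with
  `cor v 0 ∈ F` at the top. (`1 - (1 - l) = l`.)
* `gap_real`: compactness of the set of all `(l, p, p')` (closed, bounded in a finite dimensional space; all functions are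
  continuous), `IsCompact.exists_isMaxOn`; if the set is empty take `δ = 1`.
-/

set_option autoImplicit false

namespace Pool.Agent.H63.CLK

open Pool.Agent.H63.VC hiding ext
open Pool.Agent.H63.VC3 Pool.Agent.H63.VC4 Pool.Agent.H63.VC7 Complex Filter Topology
open scoped BigOperators

variable {c : ℕ} {F : Finset ℕ} {cor : Fin c → Fin 4 → ℕ} {x : Vr c → ℝ}

theorem Uf_lt_of (hx : IsMaxN F cor x) (y : Vr c → ℝ) (hy : IsAng F cor y)
    (hh : ∀ v, 1 / 2 ≤ y (Sum.inl v)) (hne : y ≠ x) : Uf y < Uf x := by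
  have h1 := hx.max y hy hh hne
  rw [volF_eq, volF_eq] at h1
  exact lt_of_mul_lt_mul_left h1 (by positivity)

theorem Uf_le_of (hx : IsMaxN F cor x) (y : Vr c → ℝ) (hy : IsAng F cor y)
    (hh : ∀ v, 1 / 2 ≤ y (Sum.inl v)) : Uf y ≤ Uf x := by
  by_cases hne : y = x
  · rw [hne]
  · exact (Uf_lt_of hx y hy hh hne).le

private theorem N_GapP_fin4 (P : Fin 4 → Prop) (h0 : P 0) (h1 : P 1) (h2 : P 2) (h3 : P 3) :
    ∀ k, P k := by
  intro k
  fin_cases k
  · exact h0
  · exact h1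
  · exact h2
  · exact h3

private theorem N_GapP_nn (p : Fin c → Fin 6 → ℝ) (h : ∀ v k, 0 ≤ p v k) (v : Fin c) :
    ∀ k, 0 ≤ spc p v k :=
  N_GapP_fin4 _ (h v 3) (add_nonneg (h v 2) (h v 5)) (h v 0) (add_nonneg (h v 1) (h v 4))

theorem spl_half (p : Fin c → Fin 6 → ℝ) (h : IsSpl F cor (fun _ => 1 / 2) p) :
    ∃ y : Vr c → ℝ, IsAng F cor y ∧ (∀ v, 1 / 2 ≤ y (Sum.inl v)) ∧
      (∀ v k, y (Sum.inr (v, k)) = spc p v k) ∧ EVs (fun _ => 1 / 2) p ≤ Uf y := by
  have hb : ∀ v, p v 0 + p v 1 + p v 2 = 1 / 2 := fun v => h.bot v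
  have ht : ∀ v, p v 3 + p v 4 + p v 5 = 1 / 2 := fun v => by
    have := h.top v
    norm_num at this ⊢
    exact this
  have key : ∀ v, ∃ t : ℝ, 1 / 2 ≤ t ∧ t ≤ 1 ∧ (∀ k, spc p v k ≤ cz 1 t k) ∧
      (hf (p v 0) + hf (p v 1) + hf (p v 2)) + (hf (p v 3) + hf (p v 4) + hf (p v 5)) ≤
        sl t + ∑ k, (Fr (cz 1 t k) - Fr (spc p v k) - Fr (cz 1 t k - spc p v k)) := by
    intro v
    obtain ⟨t, h1, h2, h3, h4⟩ := node ![p v 0, p v 1, p v 2] ![p v 3, p v 4, p v 5]
      (by intro i; fin_cases i <;> exact h.nn v _) (by intro i; fin_cases i <;> exact h.nn v _)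
      (by rw [Fin.sum_univ_three]; exact hb v) (by rw [Fin.sum_univ_three]; exact ht v)
    refine ⟨t, h1, h2, h3, ?_⟩
    rw [Fin.sum_univ_three, Fin.sum_univ_three] at h4
    exact h4
  choose t h1 h2 h3 h4 using key
  refine ⟨Sum.elim t (fun q => spc p q.1 q.2), ⟨fun v => ?_, h.face, fun v k hk => h.out v k hk,
    fun v k => N_GapP_nn p h.nn v k, fun v k => h3 v k⟩, fun v => h1 v, fun v k => rfl, ?_⟩
  · rw [Fin.sum_univ_four]
    have e0 : (Sum.elim t (fun q : Fin c × Fin 4 => spc p q.1 q.2) (Sum.inr (v, 0)) : ℝ) = p v 3 :=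
      rfl
    have e1 : (Sum.elim t (fun q : Fin c × Fin 4 => spc p q.1 q.2) (Sum.inr (v, 1)) : ℝ) =
      p v 2 + p v 5 := rfl
    have e2 : (Sum.elim t (fun q : Fin c × Fin 4 => spc p q.1 q.2) (Sum.inr (v, 2)) : ℝ) = p v 0 :=
      rfl
    have e3 : (Sum.elim t (fun q : Fin c × Fin 4 => spc p q.1 q.2) (Sum.inr (v, 3)) : ℝ) =
      p v 1 + p v 4 := rfl
    rw [e0, e1, e2, e3]
    have := hb v
    have := ht v
    linarith
  · unfold EVs Uf
    refine Finset.sum_le_sum fun v _ => ?_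
    have e : (1 : ℝ) - 1 / 2 = 1 / 2 := by norm_num
    rw [e, EV_half _ _ _ (hb v), EV_half _ _ _ (ht v)]
    exact h4 v

private theorem N_GapP_mid (l : Fin c → ℝ) (p p' : Fin c → Fin 6 → ℝ) (hp : IsSpl F cor l p)
    (hp' : IsSpl F cor (fun v => 1 - l v) p') :
    IsSpl F cor (fun _ => 1 / 2) (fun v k => (p v k + p' v k) / 2) := by
  have hs : ∀ v k, spc (fun v k => (p v k + p' v k) / 2) v k = (spc p v k + spc p' v k) / 2 := by
    intro v
    refine N_GapP_fin4 _ rfl ?_ rfl ?_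
    · change (p v 2 + p' v 2) / 2 + (p v 5 + p' v 5) / 2 = ((p v 2 + p v 5) + (p' v 2 + p' v 5)) / 2
      ring
    · change (p v 1 + p' v 1) / 2 + (p v 4 + p' v 4) / 2 = ((p v 1 + p v 4) + (p' v 1 + p' v 4)) / 2
      ring
  refine ⟨fun v k => ?_, fun v => ?_, fun v => ?_, fun f hf => ?_, fun v k hk => ?_⟩
  · have := hp.nn v k
    have := hp'.nn v k
    change 0 ≤ (p v k + p' v k) / 2
    linarith
  · have a1 := hp.bot v
    have a2 : p' v 0 + p' v 1 + p' v 2 = 1 - l v := hp'.bot v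
    change (p v 0 + p' v 0) / 2 + (p v 1 + p' v 1) / 2 + (p v 2 + p' v 2) / 2 = 1 / 2
    linarith
  · have a1 := hp.top v
    have a2 : p' v 3 + p' v 4 + p' v 5 = 1 - (1 - l v) := hp'.top v
    change (p v 3 + p' v 3) / 2 + (p v 4 + p' v 4) / 2 + (p v 5 + p' v 5) / 2 = 1 - 1 / 2
    linarith
  · have a1 := hp.face f hf
    have a2 := hp'.face f hf
    have a3 : ∀ v k, (if cor v k = f then spc (fun v k => (p v k + p' v k) / 2) v k else 0) =
        ((if cor v k = f then spc p v k else 0) + (if cor v k = f then spc p' v k else 0)) / 2 := by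
      intro v k
      split_ifs
      · exact hs v k
      · norm_num
    simp only [a3, ← Finset.sum_div, Finset.sum_add_distrib]
    rw [a1, a2]
    norm_num
  · rw [hs, hp.out v k hk, hp'.out v k hk]
    norm_num

private theorem N_GapP_int (hx : IsMaxN F cor x) (v : Fin c) (k : Fin 4)
    (hk : cor v k ∈ F) (hk2 : ∀ y : ℝ, cz 1 y k = 1 - y) :
    0 < x (Sum.inr (v, k)) ∧ x (Sum.inr (v, k)) < 1 / 2 := by
  have h1 := hx.int.half v
  have h2 := hx.int.lt1 v
  by_cases hE : IsEnd F cor v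
  · have h3 := (ang_lin hx.int.ang).endv v k hE hk
    rw [hk2] at h3
    rw [h3]
    constructor <;> linarith
  · have h3 := hx.int.pos v k hk hE
    have h4 := hx.int.lt v k hk hE
    rw [hk2] at h4
    exact ⟨h3, by linarith⟩

theorem gap_pt (hx : IsMaxN F cor x) (hopp : ∀ v, cor v 0 ∈ F ∨ cor v 2 ∈ F) (l : Fin c → ℝ)
    (p p' : Fin c → Fin 6 → ℝ) (hp : IsSpl F cor l p) (hp' : IsSpl F cor (fun v => 1 - l v) p')
    (hl : ∃ v, l v ≠ 1 / 2) : EVs l p + EVs (fun v => 1 - l v) p' < 2 * Uf x := by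
  have hm := N_GapP_mid l p p' hp hp'
  obtain ⟨y, hy, hyh, hys, hyU⟩ := spl_half _ hm
  have hb' : ∀ v, p' v 0 + p' v 1 + p' v 2 = 1 - l v := fun v => hp'.bot v
  have ht' : ∀ v, p' v 3 + p' v 4 + p' v 5 = 1 - (1 - l v) := fun v => hp'.top v
  have e : (1 : ℝ) - 1 / 2 = 1 / 2 := by norm_num
  have hbot : ∀ v, EV (l v) (p v 0) (p v 1) (p v 2) + EV (1 - l v) (p' v 0) (p' v 1) (p' v 2) ≤
      2 * EV (1 / 2) ((p v 0 + p' v 0) / 2) ((p v 1 + p' v 1) / 2) ((p v 2 + p' v 2) / 2) :=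
    fun v => EV_mid _ _ _ _ _ _ _ (hp.bot v) (hb' v) (hp.nn v 0) (hp.nn v 1) (hp.nn v 2)
      (hp'.nn v 0) (hp'.nn v 1) (hp'.nn v 2)
  have htop : ∀ v, EV (1 - l v) (p v 3) (p v 4) (p v 5) +
      EV (1 - (1 - l v)) (p' v 3) (p' v 4) (p' v 5) ≤
      2 * EV (1 / 2) ((p v 3 + p' v 3) / 2) ((p v 4 + p' v 4) / 2) ((p v 5 + p' v 5) / 2) :=
    fun v => EV_mid _ _ _ _ _ _ _ (hp.top v) (ht' v) (hp.nn v 3) (hp.nn v 4) (hp.nn v 5)
      (hp'.nn v 3) (hp'.nn v 4) (hp'.nn v 5)
  have hEs : EVs l p + EVs (fun v => 1 - l v) p' =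
      ∑ v, ((EV (l v) (p v 0) (p v 1) (p v 2) + EV (1 - l v) (p' v 0) (p' v 1) (p' v 2)) +
        (EV (1 - l v) (p v 3) (p v 4) (p v 5) +
          EV (1 - (1 - l v)) (p' v 3) (p' v 4) (p' v 5))) := by
    unfold EVs
    rw [← Finset.sum_add_distrib]
    exact Finset.sum_congr rfl fun v _ => by ring
  have hEm : 2 * EVs (fun _ => 1 / 2) (fun v k => (p v k + p' v k) / 2) =
      ∑ v, (2 * EV (1 / 2) ((p v 0 + p' v 0) / 2) ((p v 1 + p' v 1) / 2) ((p v 2 + p' v 2) / 2) +
        2 * EV (1 / 2) ((p v 3 + p' v 3) / 2) ((p v 4 + p' v 4) / 2)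
          ((p v 5 + p' v 5) / 2)) := by
    unfold EVs
    rw [Finset.mul_sum]
    refine Finset.sum_congr rfl fun v _ => ?_
    rw [e]
    ring
  have hle : EVs l p + EVs (fun v => 1 - l v) p' ≤
      2 * EVs (fun _ => 1 / 2) (fun v k => (p v k + p' v k) / 2) := by
    rw [hEs, hEm]
    exact Finset.sum_le_sum fun v _ => add_le_add (hbot v) (htop v)
  by_cases hne : y = x
  · have hlt : EVs l p + EVs (fun v => 1 - l v) p' <
        2 * EVs (fun _ => 1 / 2) (fun v k => (p v k + p' v k) / 2) := by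
      rw [hEs, hEm]
      obtain ⟨v, hv⟩ := hl
      refine Finset.sum_lt_sum (fun v _ => add_le_add (hbot v) (htop v))
        ⟨v, Finset.mem_univ v, ?_⟩
      rcases hopp v with h0 | h2
      · obtain ⟨a1, a2⟩ := N_GapP_int hx v 0 h0 (fun _ => rfl)
        have a3 := hys v 0
        rw [hne] at a3
        have a4 : x (Sum.inr (v, 0)) = (p v 3 + p' v 3) / 2 := a3
        rw [a4] at a1 a2
        refine add_lt_add_of_le_of_lt (hbot v) (EV_mid_lt _ _ _ _ _ _ _ (hp.top v) (ht' v)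
          (hp.nn v 3) (hp.nn v 4) (hp.nn v 5) (hp'.nn v 3) (hp'.nn v 4) (hp'.nn v 5) ?_ ?_ ?_)
        · intro h
          exact hv (by linarith)
        · linarith
        · linarith
      · obtain ⟨a1, a2⟩ := N_GapP_int hx v 2 h2 (fun _ => rfl)
        have a3 := hys v 2
        rw [hne] at a3
        have a4 : x (Sum.inr (v, 2)) = (p v 0 + p' v 0) / 2 := a3
        rw [a4] at a1 a2
        refine add_lt_add_of_lt_of_le (EV_mid_lt _ _ _ _ _ _ _ (hp.bot v) (hb' v)
          (hp.nn v 0) (hp.nn v 1) (hp.nn v 2) (hp'.nn v 0) (hp'.nn v 1) (hp'.nn v 2) hv ?_ ?_)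
          (htop v)
        · linarith
        · linarith
    have := Uf_le_of hx y hy hyh
    linarith
  · have := Uf_lt_of hx y hy hyh hne
    linarith

private theorem N_GapP_spc_cont {X : Type*} [TopologicalSpace X] (g : X → Fin c → Fin 6 → ℝ)
    (hg : Continuous g) (v : Fin c) : ∀ k, Continuous fun z => spc (g z) v k := by
  have h : ∀ j, Continuous fun z => g z v j := fun j =>
    (continuous_apply j).comp ((continuous_apply v).comp hg)
  exact N_GapP_fin4 _ (h 3) ((h 2).add (h 5)) (h 0) ((h 1).add (h 4))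

private theorem N_GapP_closed {X : Type*} [TopologicalSpace X] (l : X → Fin c → ℝ)
    (hl : Continuous l) (g : X → Fin c → Fin 6 → ℝ) (hg : Continuous g) :
    IsClosed {z : X | IsSpl F cor (l z) (g z)} := by
  have h : ∀ v j, Continuous fun z => g z v j := fun v j =>
    (continuous_apply j).comp ((continuous_apply v).comp hg)
  have hl' : ∀ v, Continuous fun z => l z v := fun v => (continuous_apply v).comp hl
  have hset : {z : X | IsSpl F cor (l z) (g z)} =
      {z | ∀ v k, 0 ≤ g z v k} ∩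
      ({z | ∀ v, g z v 0 + g z v 1 + g z v 2 = l z v} ∩
      ({z | ∀ v, g z v 3 + g z v 4 + g z v 5 = 1 - l z v} ∩
      ({z | ∀ f ∈ F, ∑ v, ∑ k, (if cor v k = f then spc (g z) v k else 0) = 1} ∩
      {z | ∀ v k, cor v k ∉ F → spc (g z) v k = 0}))) := by
    ext z
    refine ⟨fun (h : IsSpl F cor (l z) (g z)) => ⟨h.nn, h.bot, h.top, h.face, h.out⟩,
      fun h => (⟨h.1, h.2.1, h.2.2.1, h.2.2.2.1, h.2.2.2.2⟩ : IsSpl F cor (l z) (g z))⟩
  rw [hset]
  refine IsClosed.inter ?_ (IsClosed.inter ?_ (IsClosed.inter ?_ (IsClosed.inter ?_ ?_)))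
  · simp only [Set.ofPred_forall]
    exact isClosed_iInter fun v => isClosed_iInter fun k =>
      isClosed_le continuous_const (h v k)
  · simp only [Set.ofPred_forall]
    exact isClosed_iInter fun v => isClosed_eq (((h v 0).add (h v 1)).add (h v 2)) (hl' v)
  · simp only [Set.ofPred_forall]
    exact isClosed_iInter fun v => isClosed_eq (((h v 3).add (h v 4)).add (h v 5))
      (continuous_const.sub (hl' v))
  · simp only [Set.ofPred_forall]
    refine isClosed_iInter fun f => isClosed_iInter fun _ => isClosed_eq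
      (continuous_finsetSum _ fun v _ => continuous_finsetSum _ fun k _ => ?_) continuous_const
    split_ifs
    · exact N_GapP_spc_cont g hg v k
    · exact continuous_const
  · simp only [Set.ofPred_forall]
    exact isClosed_iInter fun v => isClosed_iInter fun k => isClosed_iInter fun _ =>
      isClosed_eq (N_GapP_spc_cont g hg v k) continuous_const

private theorem N_GapP_EV_cont {X : Type*} [TopologicalSpace X] (l x a b : X → ℝ)
    (hl : Continuous l) (hx : Continuous x) (ha : Continuous a) (hb : Continuous b) :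
    Continuous fun z => EV (l z) (x z) (a z) (b z) := by
  unfold EV
  have h1 : Continuous fun z => 1 - l z := continuous_const.sub hl
  exact (((((Fr_continuous.comp (hl.add hx)).sub (Fr_continuous.comp hl)).sub
    (Fr_continuous.comp hx)).add
    (((Fr_continuous.comp (h1.add ha)).sub (Fr_continuous.comp h1)).sub
    (Fr_continuous.comp ha))).add
    (((Fr_continuous.comp (h1.add hb)).sub (Fr_continuous.comp h1)).sub
    (Fr_continuous.comp hb)))

private theorem N_GapP_EVs_cont {X : Type*} [TopologicalSpace X] (l : X → Fin c → ℝ)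
    (hl : Continuous l) (g : X → Fin c → Fin 6 → ℝ) (hg : Continuous g) :
    Continuous fun z => EVs (l z) (g z) := by
  have h : ∀ v j, Continuous fun z => g z v j := fun v j =>
    (continuous_apply j).comp ((continuous_apply v).comp hg)
  have hl' : ∀ v, Continuous fun z => l z v := fun v => (continuous_apply v).comp hl
  unfold EVs
  exact continuous_finsetSum _ fun v _ =>
    (N_GapP_EV_cont _ _ _ _ (hl' v) (h v 0) (h v 1) (h v 2)).add
    (N_GapP_EV_cont _ _ _ _ (continuous_const.sub (hl' v)) (h v 3) (h v 4) (h v 5))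

private theorem N_GapP_bd (l : Fin c → ℝ) (p : Fin c → Fin 6 → ℝ) (hp : IsSpl F cor l p) :
    (∀ v, 0 ≤ l v ∧ l v ≤ 1) ∧ ∀ v k, 0 ≤ p v k ∧ p v k ≤ 1 := by
  have h : ∀ v, (0 ≤ l v ∧ l v ≤ 1) ∧ ∀ k, p v k ≤ 1 := by
    intro v
    have n0 := hp.nn v 0
    have n1 := hp.nn v 1
    have n2 := hp.nn v 2
    have n3 := hp.nn v 3
    have n4 := hp.nn v 4
    have n5 := hp.nn v 5
    have b := hp.bot v
    have t := hp.top v
    refine ⟨⟨by linarith, by linarith⟩, fun k => ?_⟩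
    fin_cases k
    · change p v 0 ≤ 1
      linarith
    · change p v 1 ≤ 1
      linarith
    · change p v 2 ≤ 1
      linarith
    · change p v 3 ≤ 1
      linarith
    · change p v 4 ≤ 1
      linarith
    · change p v 5 ≤ 1
      linarith
  exact ⟨fun v => (h v).1, fun v k => ⟨hp.nn v k, (h v).2 k⟩⟩

theorem gap_real (hx : IsMaxN F cor x) (hopp : ∀ v, cor v 0 ∈ F ∨ cor v 2 ∈ F) (ε : ℝ)
    (hε : 0 < ε) : ∃ δ : ℝ, 0 < δ ∧ ∀ (l : Fin c → ℝ) (p p' : Fin c → Fin 6 → ℝ), IsSpl F cor l p →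
      IsSpl F cor (fun v => 1 - l v) p' → (∃ v, ε ≤ |l v - 1 / 2|) →
      EVs l p + EVs (fun v => 1 - l v) p' ≤ 2 * (Uf x - δ) := by
  let T := (Fin c → ℝ) × (Fin c → Fin 6 → ℝ) × (Fin c → Fin 6 → ℝ)
  let K : Set T := {z | IsSpl F cor z.1 z.2.1} ∩ ({z | IsSpl F cor (fun v => 1 - z.1 v) z.2.2} ∩
    {z | ∃ v, ε ≤ |z.1 v - 1 / 2|})
  have c1 : Continuous fun z : T => z.1 := continuous_fst
  have c2 : Continuous fun z : T => z.2.1 := continuous_fst.comp continuous_snd
  have c3 : Continuous fun z : T => z.2.2 := continuous_snd.comp continuous_snd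
  have c1v : ∀ v, Continuous fun z : T => z.1 v := fun v => (continuous_apply v).comp c1
  have c4 : Continuous fun z : T => (fun v => 1 - z.1 v : Fin c → ℝ) :=
    continuous_pi fun v => continuous_const.sub (c1v v)
  have hcl : IsClosed K := by
    refine (N_GapP_closed _ c1 _ c2).inter ((N_GapP_closed _ c4 _ c3).inter ?_)
    simp only [Set.ofPred_exists]
    exact isClosed_iUnion_of_finite fun v => isClosed_le continuous_const
      ((c1v v).sub continuous_const).abs
  have hK : IsCompact K := by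
    refine IsCompact.of_isClosed_subset
      ((isCompact_univ_pi (fun _ : Fin c => isCompact_Icc (a := (0 : ℝ)) (b := 1))).prod
        ((isCompact_univ_pi (fun _ : Fin c => isCompact_univ_pi
          (fun _ : Fin 6 => isCompact_Icc (a := (0 : ℝ)) (b := 1)))).prod
        (isCompact_univ_pi (fun _ : Fin c => isCompact_univ_pi
          (fun _ : Fin 6 => isCompact_Icc (a := (0 : ℝ)) (b := 1)))))) hcl ?_
    rintro ⟨l, p, p'⟩ ⟨h1, h2, -⟩
    have h1' : IsSpl F cor l p := h1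
    have h2' : IsSpl F cor (fun v => 1 - l v) p' := h2
    obtain ⟨a1, a2⟩ := N_GapP_bd _ _ h1'
    obtain ⟨-, b2⟩ := N_GapP_bd _ _ h2'
    refine ⟨fun v _ => a1 v, fun v _ k _ => a2 v k, fun v _ k _ => b2 v k⟩
  have hcont : Continuous fun z : T => EVs z.1 z.2.1 + EVs (fun v => 1 - z.1 v) z.2.2 :=
    (N_GapP_EVs_cont _ c1 _ c2).add (N_GapP_EVs_cont _ c4 _ c3)
  rcases Set.eq_empty_or_nonempty K with hemp | hne
  · refine ⟨1, one_pos, fun l p p' hp hp' hv => ?_⟩
    have h : ((l, p, p') : T) ∈ K := ⟨hp, hp', hv⟩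
    rw [hemp] at h
    exact absurd h (Set.notMem_empty _)
  · obtain ⟨z, hz, hmax⟩ := hK.exists_isMaxOn hne hcont.continuousOn
    have hlt : EVs z.1 z.2.1 + EVs (fun v => 1 - z.1 v) z.2.2 < 2 * Uf x := by
      obtain ⟨h1, h2, v, hv⟩ := hz
      refine gap_pt hx hopp _ _ _ h1 h2 ⟨v, fun h => ?_⟩
      rw [h, sub_self, abs_zero] at hv
      linarith
    refine ⟨(2 * Uf x - (EVs z.1 z.2.1 + EVs (fun v => 1 - z.1 v) z.2.2)) / 2, by linarith,
      fun l p p' hp hp' hv => ?_⟩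
    have h : ((l, p, p') : T) ∈ K := ⟨hp, hp', hv⟩
    have h3 := isMaxOn_iff.1 hmax _ h
    simp only at h3
    linarith

end Pool.Agent.H63.CLK
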