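import Pool.Agent.H63.CLK.N_QE

/-!
# All directions, analysis: the weights at the middle level

`WJ_zero` for `N = 2 n`, `k = n`, `B`, `sL = a + a'`, `sR = b + b'` (`B + sL + sR = 2 n - T ≤ N`). In the sum `WJ` at `h = 0`
every term is a nonnegative real number: `pch N n x * ib N x = {n+1} ⋯ {n+x} / {x}! = SN (n + x) / (SN n * SN x)` for `x ≤ n`
(`bh_int`, `brf`: `{j} = 2 i sin (π j / M)`), `qh N 0 = 1`; the term with the given `a`, `b` is the left side (with `SN` for `B`, `a`,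
`b` from `muJ`, for `T = N - n - a' - b'`, `a'`, `b'` from `nuJ`). On the right side the triangle inequality
(`QN_mid_nonneg`, `Complex.norm_real`). Compare real parts: `re (WJ) = ∑ terms ≥ the term`, and `re ≤ ‖·‖`.
-/

set_option autoImplicit false

namespace Pool.Agent.H63.CLK

open Pool.Agent.H63.VC hiding ext
open Pool.Agent.H63.VC3 Pool.Agent.H63.VC4 Pool.Agent.H63.VC7 Complex Filter Topology
open scoped BigOperators

theorem N_NodeA_brf (N m : ℕ) : VC10.brf (qz N) m = Complex.I ^ m * ((SN N m : ℝ) : ℂ) := by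
  induction m with
  | zero =>
    rw [VC10.brf_zero, pow_zero, one_mul]
    unfold SN
    simp
  | succ m ih =>
    rw [VC10.brf_succ, ih, A_Em_br_eq]
    have e : SN N (m + 1) = SN N m * (2 * Real.sin (Real.pi * (m + 1) / ((N + 1 : ℕ) : ℝ))) := by
      unfold SN
      rw [Finset.prod_range_succ]
    rw [e]
    push_cast
    rw [show ((m : ℂ) + 1) * (Real.pi / ((N : ℂ) + 1)) = Real.pi * ((m : ℂ) + 1) / ((N : ℂ) + 1) by
      ring]
    ring

theorem N_NodeA_SN_pos (N m : ℕ) (h : m ≤ N) : 0 < SN N m := by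
  unfold SN
  refine Finset.prod_pos fun j hj => ?_
  rw [Finset.mem_range] at hj
  have hN : (0 : ℝ) < ((N + 1 : ℕ) : ℝ) := by positivity
  have hj2 : ((j : ℝ) + 1) < ((N + 1 : ℕ) : ℝ) := by
    have : j + 1 < N + 1 := by omega
    exact_mod_cast this
  refine mul_pos two_pos (Real.sin_pos_of_pos_of_lt_pi (by positivity) ?_)
  rw [div_lt_iff₀ hN]
  exact mul_lt_mul_of_pos_left hj2 Real.pi_pos

theorem N_NodeA_pch (N n x : ℕ) : pch N (n : ℂ) x * VC10.brf (qz N) n = VC10.brf (qz N) (n + x) := by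
  induction x with
  | zero => rw [pch_zero, one_mul, add_zero]
  | succ x ih =>
    rw [pch_succ, mul_right_comm, ih, ← add_assoc, VC10.brf_succ]
    congr 1
    rw [← bh_int]
    congr 1
    push_cast
    ring

/-- The quotients of products of sines. -/
noncomputable def N_NodeA_r (n x : ℕ) : ℝ :=
  SN (2 * n) (n + x) / (SN (2 * n) n * SN (2 * n) x)

theorem N_NodeA_r_nonneg (n x : ℕ) (h : x ≤ n) : 0 ≤ N_NodeA_r n x := by
  unfold N_NodeA_r
  have h1 := N_NodeA_SN_pos (2 * n) (n + x) (by omega)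
  have h2 := N_NodeA_SN_pos (2 * n) n (by omega)
  have h3 := N_NodeA_SN_pos (2 * n) x (by omega)
  positivity

theorem N_NodeA_one (n x : ℕ) (h : x ≤ n) :
    pch (2 * n) (n : ℂ) x * ib (2 * n) x = ((N_NodeA_r n x : ℝ) : ℂ) := by
  have h2 := N_NodeA_SN_pos (2 * n) n (by omega)
  have h3 := N_NodeA_SN_pos (2 * n) x (by omega)
  have h2' : ((SN (2 * n) n : ℝ) : ℂ) ≠ 0 := by exact_mod_cast h2.ne'
  have h3' : ((SN (2 * n) x : ℝ) : ℂ) ≠ 0 := by exact_mod_cast h3.ne'
  have hp := N_NodeA_pch (2 * n) n x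
  rw [N_NodeA_brf, N_NodeA_brf, pow_add] at hp
  have hI : ∀ m : ℕ, (Complex.I : ℂ) ^ m ≠ 0 := fun m => pow_ne_zero m Complex.I_ne_zero
  have hI1 := hI n
  have hI2 := hI x
  have hp2 : pch (2 * n) (n : ℂ) x * ((SN (2 * n) n : ℝ) : ℂ) =
      Complex.I ^ x * ((SN (2 * n) (n + x) : ℝ) : ℂ) := by
    apply mul_left_cancel₀ hI1
    linear_combination hp
  rw [ib_nat, N_NodeA_brf]
  unfold N_NodeA_r
  rw [Complex.ofReal_div, Complex.ofReal_mul]
  field_simp
  linear_combination hp2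

theorem N_NodeA_mu (n B a b : ℕ) (h : B + a + b = n) :
    muJ (2 * n) n 0 B a b =
      ((N_NodeA_r n B * N_NodeA_r n a * N_NodeA_r n b : ℝ) : ℂ) := by
  unfold muJ
  rw [if_pos h]
  simp only [Pi.zero_apply]
  rw [show (((2 * n : ℕ) : ℂ)) - n + 0 - 0 = n by push_cast; ring,
    show (n : ℂ) + 0 - 0 = n by ring, show ((0 : ℂ) - 0) * B + (0 - 0) * a = 0 by ring, qh_zero]
  have h1 := N_NodeA_one n B (by omega)
  have h2 := N_NodeA_one n a (by omega)
  have h3 := N_NodeA_one n b (by omega)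
  rw [Complex.ofReal_mul, Complex.ofReal_mul, ← h1, ← h2, ← h3]
  ring

theorem N_NodeA_nu (n a b : ℕ) (h : a + b ≤ n) :
    nuJ (2 * n) n 0 a b =
      ((N_NodeA_r n (n - a - b) * N_NodeA_r n a * N_NodeA_r n b : ℝ) : ℂ) := by
  unfold nuJ
  rw [if_pos (by omega)]
  simp only [Pi.zero_apply]
  rw [show (((2 * n : ℕ) : ℂ)) - n + 0 - 0 = n by push_cast; ring,
    show (n : ℂ) + 0 - 0 = n by ring,
    show ((0 : ℂ) - 0) * (n + a + b) + (0 - 0) * a = 0 by ring, qh_zero,
    show 2 * n - n - a - b = n - a - b by omega,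
    show ((2 * n : ℕ) : ℤ) - n - a - b = ((n - a - b : ℕ) : ℤ) by omega]
  have h1 := N_NodeA_one n (n - a - b) (by omega)
  have h2 := N_NodeA_one n a (by omega)
  have h3 := N_NodeA_one n b (by omega)
  rw [Complex.ofReal_mul, Complex.ofReal_mul, ← h1, ← h2, ← h3]
  ring

open Classical in
/-- The summand. -/
noncomputable def N_NodeA_term (n B sL sR a b : ℕ) : ℝ :=
  if B + a + b = n ∧ (sL - a) + (sR - b) ≤ n then
    (N_NodeA_r n B * N_NodeA_r n a * N_NodeA_r n b) *
      (N_NodeA_r n (n - (sL - a) - (sR - b)) * N_NodeA_r n (sL - a) * N_NodeA_r n (sR - b))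
  else 0

theorem N_NodeA_term_nonneg (n B sL sR a b : ℕ) : 0 ≤ N_NodeA_term n B sL sR a b := by
  unfold N_NodeA_term
  split_ifs with h
  · have h1 := N_NodeA_r_nonneg n B (by omega)
    have h2 := N_NodeA_r_nonneg n a (by omega)
    have h3 := N_NodeA_r_nonneg n b (by omega)
    have h4 := N_NodeA_r_nonneg n (n - (sL - a) - (sR - b)) (by omega)
    have h5 := N_NodeA_r_nonneg n (sL - a) (by omega)
    have h6 := N_NodeA_r_nonneg n (sR - b) (by omega)
    positivity
  · exact le_rfl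

theorem N_NodeA_WJ (n B sL sR : ℕ) : WJ (2 * n) n 0 B sL sR =
    ((∑ a ∈ Finset.range (sL + 1), ∑ b ∈ Finset.range (sR + 1),
      N_NodeA_term n B sL sR a b : ℝ) : ℂ) := by
  unfold WJ
  rw [Complex.ofReal_sum]
  refine Finset.sum_congr rfl fun a _ => ?_
  rw [Complex.ofReal_sum]
  refine Finset.sum_congr rfl fun b _ => ?_
  unfold N_NodeA_term
  by_cases h1 : B + a + b = n
  · by_cases h2 : (sL - a) + (sR - b) ≤ n
    · rw [if_pos ⟨h1, h2⟩, N_NodeA_mu n B a b h1, N_NodeA_nu n _ _ h2, ← Complex.ofReal_mul]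
    · rw [if_neg (fun h => h2 h.2)]
      have : nuJ (2 * n) n 0 (sL - a) (sR - b) = 0 := by
        unfold nuJ
        rw [if_neg (by omega)]
      rw [this, mul_zero, Complex.ofReal_zero]
  · rw [if_neg (fun h => h1 h.1)]
    have : muJ (2 * n) n 0 B a b = 0 := by
      unfold muJ
      rw [if_neg h1]
    rw [this, zero_mul, Complex.ofReal_zero]

theorem node_fin (n B a b T a' b' : ℕ) (hn : 1 ≤ n) (h : B + a + b = n) (h' : T + a' + b' = n) :
    SN (2 * n) (n + B) / (SN (2 * n) n * SN (2 * n) B) *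
      (SN (2 * n) (n + a) / (SN (2 * n) n * SN (2 * n) a)) *
      (SN (2 * n) (n + b) / (SN (2 * n) n * SN (2 * n) b)) *
      (SN (2 * n) (n + T) / (SN (2 * n) n * SN (2 * n) T)) *
      (SN (2 * n) (n + a') / (SN (2 * n) n * SN (2 * n) a')) *
      (SN (2 * n) (n + b') / (SN (2 * n) n * SN (2 * n) b')) ≤
      ∑ t ∈ Finset.range (2 * n + 1), QN (2 * n) n t * ‖emW (2 * n) t B (a + a') (b + b')‖ := by
  have hterm : SN (2 * n) (n + B) / (SN (2 * n) n * SN (2 * n) B) *
      (SN (2 * n) (n + a) / (SN (2 * n) n * SN (2 * n) a)) *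
      (SN (2 * n) (n + b) / (SN (2 * n) n * SN (2 * n) b)) *
      (SN (2 * n) (n + T) / (SN (2 * n) n * SN (2 * n) T)) *
      (SN (2 * n) (n + a') / (SN (2 * n) n * SN (2 * n) a')) *
      (SN (2 * n) (n + b') / (SN (2 * n) n * SN (2 * n) b')) =
      N_NodeA_term n B (a + a') (b + b') a b := by
    unfold N_NodeA_term
    rw [Nat.add_sub_cancel_left, Nat.add_sub_cancel_left, if_pos (by omega),
      show n - a' - b' = T by omega]
    unfold N_NodeA_r
    ring
  rw [hterm]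
  have hle : N_NodeA_term n B (a + a') (b + b') a b ≤
      ∑ a1 ∈ Finset.range (a + a' + 1), ∑ b1 ∈ Finset.range (b + b' + 1),
        N_NodeA_term n B (a + a') (b + b') a1 b1 := by
    refine le_trans ?_ (Finset.single_le_sum (f := fun a1 => ∑ b1 ∈ Finset.range (b + b' + 1),
      N_NodeA_term n B (a + a') (b + b') a1 b1)
      (fun a1 _ => Finset.sum_nonneg fun b1 _ => N_NodeA_term_nonneg n B _ _ a1 b1)
      (Finset.mem_range.2 (show a < a + a' + 1 by omega)))
    exact Finset.single_le_sum (f := fun b1 => N_NodeA_term n B (a + a') (b + b') a b1)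
      (fun b1 _ => N_NodeA_term_nonneg n B _ _ a b1)
      (Finset.mem_range.2 (show b < b + b' + 1 by omega))
  refine hle.trans ?_
  have hw := WJ_zero (2 * n) n (by omega) B (a + a') (b + b') (by omega)
  rw [N_NodeA_WJ] at hw
  have hn1 : ‖((∑ a1 ∈ Finset.range (a + a' + 1), ∑ b1 ∈ Finset.range (b + b' + 1),
      N_NodeA_term n B (a + a') (b + b') a1 b1 : ℝ) : ℂ)‖ =
      ∑ a1 ∈ Finset.range (a + a' + 1), ∑ b1 ∈ Finset.range (b + b' + 1),
        N_NodeA_term n B (a + a') (b + b') a1 b1 := by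
    rw [Complex.norm_real, Real.norm_eq_abs, abs_of_nonneg]
    exact Finset.sum_nonneg fun a1 _ => Finset.sum_nonneg fun b1 _ =>
      N_NodeA_term_nonneg n B _ _ a1 b1
  rw [← hn1, hw]
  refine (norm_sum_le _ _).trans (Finset.sum_le_sum fun t ht => ?_)
  rw [Finset.mem_range] at ht
  rw [norm_mul, Complex.norm_real, Real.norm_eq_abs, abs_of_nonneg (QN_mid_nonneg n t (by omega))]

end Pool.Agent.H63.CLK
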