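import Pool.Agent.H63.CLK.N_Defs

/-!
# All directions, analysis: definitions for the split states
-/

set_option autoImplicit false

namespace Pool.Agent.H63.CLK

open Pool.Agent.H63.VC hiding ext
open Pool.Agent.H63.VC3 Pool.Agent.H63.VC4 Pool.Agent.H63.VC7 Complex Filter Topology
open scoped BigOperators

/-- The states of the corners: top, right, bottom, left. `p v 0, p v 1, p v 2` are the states at the
end, on the left and on the right of the triangle at the bottom, `p v 3, p v 4, p v 5` at the top. -/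
def spc {c : ℕ} (p : Fin c → Fin 6 → ℝ) (v : Fin c) : Fin 4 → ℝ :=
  ![p v 3, p v 2 + p v 5, p v 0, p v 1 + p v 4]

/-- The split states of the levels `l v`. -/
structure IsSpl {c : ℕ} (F : Finset ℕ) (cor : Fin c → Fin 4 → ℕ) (l : Fin c → ℝ)
    (p : Fin c → Fin 6 → ℝ) : Prop where
  nn : ∀ v k, 0 ≤ p v k
  bot : ∀ v, p v 0 + p v 1 + p v 2 = l v
  top : ∀ v, p v 3 + p v 4 + p v 5 = 1 - l v
  face : ∀ f ∈ F, ∑ v, ∑ k, (if cor v k = f then spc p v k else 0) = 1
  out : ∀ v k, cor v k ∉ F → spc p v k = 0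

/-- The growth of a split state. -/
noncomputable def EVs {c : ℕ} (l : Fin c → ℝ) (p : Fin c → Fin 6 → ℝ) : ℝ :=
  ∑ v, (EV (l v) (p v 0) (p v 1) (p v 2) + EV (1 - l v) (p v 3) (p v 4) (p v 5))

/-- The growth of a term for the channels `κ v`. -/
noncomputable def Ug {c : ℕ} (κ : Fin c → ℝ) (y : Vr c → ℝ) : ℝ :=
  ∑ v, (gk (κ v) (y (Sum.inl v)) + ∑ k, (Fr (cz 1 (y (Sum.inl v)) k) - Fr (y (Sum.inr (v, k))) -
    Fr (cz 1 (y (Sum.inl v)) k - y (Sum.inr (v, k)))))

end Pool.Agent.H63.CLK
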