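import Pool.Agent.H63.CLK.N_GapP
import Pool.Agent.H63.CLK.B_Sl

/-!
# All directions, analysis: the channels close to the middle and far from the middle, real version

* `gk_le`: with `ρ = 1 - τ ∈ [0, 1/2]` and, by `gk (1 - κ) τ = gk κ τ` (`Fr_add_one`, `Fr_neg`), `κ ∈ [0, 1/2]`: the derivative of
  `gk κ τ = Fr (κ + ρ) - Fr (κ - ρ) - 2 Fr ρ` in `κ` is `log |sin (π (κ + ρ)) / sin (π (κ - ρ))|` for `κ ≠ ρ`, and
  `sin² (a + b) - sin² (a - b) = sin (2 a) sin (2 b) ≥ 0`, `> 0` for `0 < κ, ρ < 1/2`. So `gk` is monotone in `κ` on `[0, ρ]` and on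
  `[ρ, 1/2]` (there `κ - ρ ≥ 0`; on `[0, ρ]` use `- Fr (κ - ρ) = Fr (ρ - κ)`), strictly for `0 < ρ < 1/2`
  (`Fr_hasDerivAt`, `Fr_continuous`, `strictMonoOn_of_deriv_pos`; see also `gg_le_sl`, `gg_le_sl_gap` in `B_Sl.lean`, which may
  contain this), and `gk (1/2) τ = sl τ` (`gk_half`).
* `ug_near`: `Ug κ y ≤ Uf y ≤ Uf x`, and if `y ≠ x` the second inequality is strict; if `y = x` then `0 < 1 - τ < 1/2`, and the first is
  strict. Compactness of the set of the `(κ, y)` (`ang_compact`), continuity of `Ug`.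
* `ug_far`: Let `K ε` be the compact set of the `(κ, y)`, `|κ v - 1/2| ≤ ε`, `IsAng y`, `1/2 - ε ≤ y (inl v)` for all `v` and
  `y (inl v) ≤ 1/2` for some `v`. On `K 0`: `κ = 1/2`, `Ug κ y = Uf y` (`gk_half`) `< Uf x` (`Uf_lt_of`, `y ≠ x` since
  `1/2 < x (inl v)`). By compactness the maximum on `K 0` is `< Uf x - 2 δ` for some `δ > 0`; if `Ug > Uf x - δ` somewhere
  on every `K (1 / (n + 1))`, a limit point is in `K 0` with `Ug ≥ Uf x - δ`, a contradiction (the `K ε` are decreasing and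
  closed; `IsCompact.nonempty_iInter_of_directed_nonempty_isCompact_isClosed` or a convergent subsequence).
-/

set_option autoImplicit false

namespace Pool.Agent.H63.CLK

open Pool.Agent.H63.VC hiding ext
open Pool.Agent.H63.VC3 Pool.Agent.H63.VC4 Pool.Agent.H63.VC7 Complex Filter Topology
open scoped BigOperators

variable {c : ℕ} {F : Finset ℕ} {cor : Fin c → Fin 4 → ℕ} {x : Vr c → ℝ}

private theorem N_Ug_symm (κ τ : ℝ) : gk (1 - κ) τ = gk κ τ := by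
  unfold gk
  have e1 : Fr (1 - κ + (1 - τ)) = -Fr (κ - (1 - τ)) := by
    rw [← Fr_neg, ← Fr_add_one (-(κ - (1 - τ)))]
    congr 1
    ring
  have e2 : Fr (1 - κ - (1 - τ)) = -Fr (κ + (1 - τ)) := by
    rw [← Fr_neg, ← Fr_add_one (-(κ + (1 - τ)))]
    congr 1
    ring
  rw [e1, e2]
  ring

private theorem N_Ug_eq (κ τ : ℝ) :
    gk κ τ = Fr ((1 - τ) - κ) + Fr ((1 - τ) + κ) - 2 * Fr (1 - τ) := by
  unfold gk
  have e1 : Fr (κ - (1 - τ)) = -Fr ((1 - τ) - κ) := by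
    rw [← Fr_neg]
    congr 1
    ring
  rw [e1, add_comm κ]
  ring

private theorem N_Ug_le (κ τ : ℝ) (h0 : 0 ≤ κ) (h1 : κ ≤ 1 / 2) (h2 : 1 / 2 ≤ τ) (h3 : τ ≤ 1) :
    gk κ τ ≤ gk (1 / 2) τ := by
  rw [N_Ug_eq, N_Ug_eq]
  have := B_Sl_mono (1 - τ) κ (1 / 2) (by linarith) (by linarith) h0 h1 le_rfl
  linarith

/-- Strict monotonicity on the second piece. -/
private theorem N_Ug_strict (y a : ℝ) (h0 : 0 < y) (ha : y ≤ a) (hb : a < 1 / 2) :
    Fr (y - a) + Fr (y + a) < Fr (y - 1 / 2) + Fr (y + 1 / 2) := by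
  have hπ := Real.pi_pos
  have e : ∀ w, Fr (y - w) = -Fr (w - y) := fun w => by rw [← Fr_neg, neg_sub]
  rw [e a, e (1 / 2), add_comm y a, add_comm y (1 / 2)]
  have hd : ∀ w ∈ Set.Ioo a (1 / 2), HasDerivAt (fun w => -Fr (w - y) + Fr (w + y))
      (-Real.log (2 * Real.sin (Real.pi * (w - y))) +
        Real.log (2 * Real.sin (Real.pi * (w + y)))) w := by
    intro w hw
    have d1 : HasDerivAt (fun w => Fr (w - y)) (Real.log (2 * Real.sin (Real.pi * (w - y)))) w :=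
      HasDerivAt.comp_sub_const w y
        (Fr_hasDerivAt (w - y) (by linarith [hw.1]) (by linarith [hw.2]))
    have d2 : HasDerivAt (fun w => Fr (w + y)) (Real.log (2 * Real.sin (Real.pi * (w + y)))) w :=
      HasDerivAt.comp_add_const w y
        (Fr_hasDerivAt (w + y) (by linarith [hw.1]) (by linarith [hw.2, hw.1]))
    exact d1.neg.add d2
  have hm : StrictMonoOn (fun w => -Fr (w - y) + Fr (w + y)) (Set.Icc a (1 / 2)) := by
    apply strictMonoOn_of_deriv_pos (convex_Icc _ _)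
    · apply Continuous.continuousOn
      have := Fr_continuous
      fun_prop
    · intro w hw
      rw [interior_Icc] at hw
      rw [(hd w hw).deriv]
      have hs : 0 < Real.sin (Real.pi * (w - y)) := by
        apply Real.sin_pos_of_pos_of_lt_pi
        · exact mul_pos hπ (by linarith [hw.1])
        · nlinarith [hw.2]
      have hlt : Real.sin (Real.pi * (w - y)) < Real.sin (Real.pi * (w + y)) := by
        have e1 : Real.pi * (w - y) = Real.pi * w - Real.pi * y := by ring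
        have e2 : Real.pi * (w + y) = Real.pi * w + Real.pi * y := by ring
        rw [e1, e2, Real.sin_sub, Real.sin_add]
        have c1 : 0 < Real.cos (Real.pi * w) := Real.cos_pos_of_mem_Ioo
          ⟨by nlinarith [hw.1, hw.2], by nlinarith [hw.2]⟩
        have c2 : 0 < Real.sin (Real.pi * y) := Real.sin_pos_of_pos_of_lt_pi
          (mul_pos hπ h0) (by nlinarith [hw.1, hw.2])
        nlinarith [mul_pos c1 c2]
      have := Real.log_lt_log (by linarith : 0 < 2 * Real.sin (Real.pi * (w - y)))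
        (by linarith : 2 * Real.sin (Real.pi * (w - y)) < 2 * Real.sin (Real.pi * (w + y)))
      linarith
  exact hm ⟨le_rfl, hb.le⟩ ⟨hb.le, le_rfl⟩ hb

private theorem N_Ug_lt (κ τ : ℝ) (h0 : 0 ≤ κ) (h1 : κ < 1 / 2) (h2 : 1 / 2 < τ) (h3 : τ < 1) :
    gk κ τ < gk (1 / 2) τ := by
  rw [N_Ug_eq, N_Ug_eq]
  have hm : max κ (1 - τ) < 1 / 2 := max_lt h1 (by linarith)
  have k1 := B_Sl_mono (1 - τ) κ (max κ (1 - τ)) (by linarith) (by linarith) h0
    (le_max_left _ _) hm.le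
  have k2 := N_Ug_strict (1 - τ) (max κ (1 - τ)) (by linarith) (le_max_right _ _) hm
  linarith

theorem gk_le (κ τ : ℝ) (h0 : 0 ≤ κ) (h1 : κ ≤ 1) (h2 : 1 / 2 ≤ τ) (h3 : τ ≤ 1) :
    gk κ τ ≤ sl τ := by
  rw [← gk_half τ h2]
  rcases le_total κ (1 / 2) with h | h
  · exact N_Ug_le κ τ h0 h h2 h3
  · rw [← N_Ug_symm κ τ]
    exact N_Ug_le (1 - κ) τ (by linarith) (by linarith) h2 h3

theorem gk_lt (κ τ : ℝ) (h0 : 0 ≤ κ) (h1 : κ ≤ 1) (h2 : 1 / 2 < τ) (h3 : τ < 1) (h : κ ≠ 1 / 2) :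
    gk κ τ < sl τ := by
  rw [← gk_half τ h2.le]
  rcases lt_or_gt_of_ne h with h | h
  · exact N_Ug_lt κ τ h0 h h2 h3
  · rw [← N_Ug_symm κ τ]
    exact N_Ug_lt (1 - κ) τ (by linarith) (by linarith) h2 h3

private theorem N_Ug_czcont (k : Fin 4) : Continuous (fun y : ℝ => cz 1 y k) := by
  have h1 : Continuous fun y : ℝ => 1 - y := by fun_prop
  have h2 : Continuous fun y : ℝ => y := by fun_prop
  fin_cases k
  · exact h1
  · exact h2
  · exact h1
  · exact h2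

theorem Ug_continuous : Continuous (fun z : (Fin c → ℝ) × (Vr c → ℝ) => Ug z.1 z.2) := by
  unfold Ug gk
  refine continuous_finsetSum _ fun v _ => ?_
  have hκ : Continuous fun z : (Fin c → ℝ) × (Vr c → ℝ) => z.1 v :=
    (continuous_apply v).comp continuous_fst
  have hy : ∀ j, Continuous fun z : (Fin c → ℝ) × (Vr c → ℝ) => z.2 j := fun j =>
    (continuous_apply j).comp continuous_snd
  have ht : Continuous fun z : (Fin c → ℝ) × (Vr c → ℝ) => 1 - z.2 (Sum.inl v) :=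
    continuous_const.sub (hy _)
  refine Continuous.add ?_ ?_
  · exact ((Fr_continuous.comp (hκ.add ht)).sub (Fr_continuous.comp (hκ.sub ht))).sub
      (continuous_const.mul (Fr_continuous.comp ht))
  · refine continuous_finsetSum _ fun k _ => ?_
    have h1 : Continuous fun z : (Fin c → ℝ) × (Vr c → ℝ) => cz 1 (z.2 (Sum.inl v)) k :=
      (N_Ug_czcont k).comp (hy _)
    exact ((Fr_continuous.comp h1).sub (Fr_continuous.comp (hy _))).sub
      (Fr_continuous.comp (h1.sub (hy _)))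

private theorem N_Ug_le1 {y : Vr c → ℝ} (hy : IsAng F cor y) (v : Fin c) :
    y (Sum.inl v) ≤ 1 := by
  have a0 := hy.nn v 0
  have b0 : y (Sum.inr (v, 0)) ≤ 1 - y (Sum.inl v) := hy.le v 0
  linarith

private theorem N_Ug_UgUf {κ : Fin c → ℝ} {y : Vr c → ℝ} (hκ : ∀ v, 0 ≤ κ v ∧ κ v ≤ 1)
    (hy : IsAng F cor y) (hh : ∀ v, 1 / 2 ≤ y (Sum.inl v)) : Ug κ y ≤ Uf y := by
  unfold Ug Uf
  refine Finset.sum_le_sum fun v _ => ?_
  have := gk_le (κ v) (y (Sum.inl v)) (hκ v).1 (hκ v).2 (hh v) (N_Ug_le1 hy v)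
  linarith

/-- The compact set of all pairs. -/
private theorem N_Ug_cpt : IsCompact {z : (Fin c → ℝ) × (Vr c → ℝ) |
    (∀ v, 0 ≤ z.1 v ∧ z.1 v ≤ 1) ∧ IsAng F cor z.2} := by
  have h1 : IsCompact {κ : Fin c → ℝ | ∀ v, 0 ≤ κ v ∧ κ v ≤ 1} := by
    have h := isCompact_univ_pi (fun _ : Fin c => isCompact_Icc (a := (0 : ℝ)) (b := 1))
    convert h using 1
    ext κ
    exact ⟨fun h v _ => h v, fun h v => h v (Set.mem_univ v)⟩
  exact h1.prod ang_compact

private theorem N_Ug_closed_ex {X : Type*} [TopologicalSpace X] (f g : Fin c → X → ℝ)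
    (hf : ∀ v, Continuous (f v)) (hg : ∀ v, Continuous (g v)) :
    IsClosed {z : X | ∃ v, f v z ≤ g v z} := by
  have e : {z : X | ∃ v, f v z ≤ g v z} = ⋃ v, {z | f v z ≤ g v z} := by
    ext z
    simp
  rw [e]
  exact isClosed_iUnion_of_finite fun v => isClosed_le (hf v) (hg v)

private theorem N_Ug_closed_all {X : Type*} [TopologicalSpace X] (f g : Fin c → X → ℝ)
    (hf : ∀ v, Continuous (f v)) (hg : ∀ v, Continuous (g v)) :
    IsClosed {z : X | ∀ v, f v z ≤ g v z} := by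
  have e : {z : X | ∀ v, f v z ≤ g v z} = ⋂ v, {z | f v z ≤ g v z} := by
    ext z
    simp
  rw [e]
  exact isClosed_iInter fun v => isClosed_le (hf v) (hg v)

/-- A continuous function which is smaller than a constant on a compact set. -/
private theorem N_Ug_gap {X : Type*} [TopologicalSpace X] {S : Set X} (hS : IsCompact S)
    {f : X → ℝ} (hf : Continuous f) (C : ℝ) (h : ∀ z ∈ S, f z < C) :
    ∃ δ : ℝ, 0 < δ ∧ ∀ z ∈ S, f z ≤ C - δ := by
  rcases S.eq_empty_or_nonempty with rfl | hne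
  · exact ⟨1, one_pos, fun z hz => absurd hz (Set.notMem_empty z)⟩
  · obtain ⟨z0, hz0, hm⟩ := hS.exists_isMaxOn hne hf.continuousOn
    refine ⟨C - f z0, by linarith [h z0 hz0], fun z hz => ?_⟩
    have := hm hz
    simp only [Set.mem_ofPred_eq] at this
    linarith

private theorem N_Ug_cκ (v : Fin c) : Continuous fun z : (Fin c → ℝ) × (Vr c → ℝ) => z.1 v :=
  (continuous_apply v).comp continuous_fst

private theorem N_Ug_cy (j : Vr c) : Continuous fun z : (Fin c → ℝ) × (Vr c → ℝ) => z.2 j :=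
  (continuous_apply j).comp continuous_snd

private theorem N_Ug_cabs (v : Fin c) :
    Continuous fun z : (Fin c → ℝ) × (Vr c → ℝ) => |z.1 v - 1 / 2| :=
  ((N_Ug_cκ v).sub continuous_const).abs

theorem ug_near (hx : IsMaxN F cor x) (ε : ℝ) (hε : 0 < ε) : ∃ δ : ℝ, 0 < δ ∧
    ∀ (κ : Fin c → ℝ) (y : Vr c → ℝ), (∀ v, 0 ≤ κ v ∧ κ v ≤ 1) → IsAng F cor y →
      (∀ v, 1 / 2 ≤ y (Sum.inl v)) → (∃ v, ε ≤ |κ v - 1 / 2|) → Ug κ y ≤ Uf x - δ := by
  have hc : IsCompact ({z : (Fin c → ℝ) × (Vr c → ℝ) |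
      (∀ v, 0 ≤ z.1 v ∧ z.1 v ≤ 1) ∧ IsAng F cor z.2} ∩
      ({z | ∀ v, 1 / 2 ≤ z.2 (Sum.inl v)} ∩ {z | ∃ v, ε ≤ |z.1 v - 1 / 2|})) := by
    refine N_Ug_cpt.inter_right (IsClosed.inter ?_ ?_)
    · exact N_Ug_closed_all (X := (Fin c → ℝ) × (Vr c → ℝ)) (fun _ _ => 1 / 2)
        (fun v z => z.2 (Sum.inl v)) (fun _ => continuous_const) (fun v => N_Ug_cy _)
    · exact N_Ug_closed_ex (X := (Fin c → ℝ) × (Vr c → ℝ)) (fun _ _ => ε)
        (fun v z => |z.1 v - 1 / 2|) (fun _ => continuous_const) (fun v => N_Ug_cabs v)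
  obtain ⟨δ, hδ, h⟩ := N_Ug_gap hc Ug_continuous (Uf x) (by
    rintro ⟨κ, y⟩ ⟨⟨hκ, hy⟩, hh, v, hv⟩
    simp only at hκ hy
    replace hh : ∀ v, 1 / 2 ≤ y (Sum.inl v) := hh
    replace hv : ε ≤ |κ v - 1 / 2| := hv
    show Ug κ y < Uf x
    by_cases hyx : y = x
    · subst hyx
      unfold Ug Uf
      refine Finset.sum_lt_sum (fun w _ => ?_) ⟨v, Finset.mem_univ v, ?_⟩
      · have := gk_le (κ w) (y (Sum.inl w)) (hκ w).1 (hκ w).2 (hh w) (N_Ug_le1 hy w)
        linarith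
      · have hne : κ v ≠ 1 / 2 := by
          intro h
          rw [h, sub_self, abs_zero] at hv
          linarith
        have := gk_lt (κ v) (y (Sum.inl v)) (hκ v).1 (hκ v).2 (hx.int.half v) (hx.int.lt1 v) hne
        linarith
    · exact (N_Ug_UgUf hκ hy hh).trans_lt (Uf_lt_of hx y hy hh hyx))
  exact ⟨δ, hδ, fun κ y hκ hy hh hv => h (κ, y) ⟨⟨hκ, hy⟩, hh, hv⟩⟩

theorem ug_far (hx : IsMaxN F cor x) : ∃ ε : ℝ, 0 < ε ∧ ∃ δ : ℝ, 0 < δ ∧
    ∀ (κ : Fin c → ℝ) (y : Vr c → ℝ), (∀ v, |κ v - 1 / 2| ≤ ε) → IsAng F cor y →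
      (∀ v, 1 / 2 - ε ≤ y (Sum.inl v)) → (∃ v, y (Sum.inl v) ≤ 1 / 2) → Ug κ y ≤ Uf x - δ := by
  -- the distance to `K 0`
  set m : (Fin c → ℝ) × (Vr c → ℝ) → ℝ := fun z =>
    ∑ v, (|z.1 v - 1 / 2| + max 0 (1 / 2 - z.2 (Sum.inl v))) with hm
  have hmc : Continuous m := by
    refine continuous_finsetSum _ fun v _ => ?_
    exact (N_Ug_cabs v).add (continuous_const.max (continuous_const.sub (N_Ug_cy _)))
  have hm0 : ∀ z v, |z.1 v - 1 / 2| + max 0 (1 / 2 - z.2 (Sum.inl v)) ≤ m z := fun z v =>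
    Finset.single_le_sum (f := fun v => |z.1 v - 1 / 2| + max 0 (1 / 2 - z.2 (Sum.inl v)))
      (fun w _ => add_nonneg (abs_nonneg _) (le_max_left _ _)) (Finset.mem_univ v)
  have hmn : ∀ z, 0 ≤ m z := fun z =>
    Finset.sum_nonneg (fun w _ => add_nonneg (abs_nonneg _) (le_max_left _ _))
  have hex : IsClosed {z : (Fin c → ℝ) × (Vr c → ℝ) | ∃ v, z.2 (Sum.inl v) ≤ 1 / 2} :=
    N_Ug_closed_ex (X := (Fin c → ℝ) × (Vr c → ℝ)) (fun v z => z.2 (Sum.inl v))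
      (fun _ _ => 1 / 2) (fun v => N_Ug_cy _) (fun _ => continuous_const)
  -- the points with `m = 0`
  have hlt : ∀ z ∈ {z : (Fin c → ℝ) × (Vr c → ℝ) |
      (∀ v, 0 ≤ z.1 v ∧ z.1 v ≤ 1) ∧ IsAng F cor z.2} ∩
      ({z | ∃ v, z.2 (Sum.inl v) ≤ 1 / 2} ∩ {z | m z ≤ 0}), Ug z.1 z.2 < Uf x := by
    rintro ⟨κ, y⟩ ⟨⟨hκ, hy⟩, ⟨v, hv⟩, h0⟩
    simp only at hκ hy hv
    replace h0 : m (κ, y) ≤ 0 := h0
    show Ug κ y < Uf x
    have hh : ∀ v, 1 / 2 ≤ y (Sum.inl v) := by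
      intro v
      have h1 := (hm0 (κ, y) v).trans h0
      simp only at h1
      have h2 := abs_nonneg (κ v - 1 / 2)
      have h3 := le_max_right 0 (1 / 2 - y (Sum.inl v))
      linarith
    have hyx : y ≠ x := by
      rintro rfl
      have := hx.int.half v
      linarith
    exact (N_Ug_UgUf hκ hy hh).trans_lt (Uf_lt_of hx y hy hh hyx)
  have hc0 : IsCompact ({z : (Fin c → ℝ) × (Vr c → ℝ) |
      (∀ v, 0 ≤ z.1 v ∧ z.1 v ≤ 1) ∧ IsAng F cor z.2} ∩
      ({z | ∃ v, z.2 (Sum.inl v) ≤ 1 / 2} ∩ {z | m z ≤ 0})) :=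
    N_Ug_cpt.inter_right (hex.inter (isClosed_le hmc continuous_const))
  obtain ⟨δ, hδ, h1⟩ := N_Ug_gap hc0 Ug_continuous (Uf x) hlt
  -- the points with a large value
  have hcW : IsCompact ({z : (Fin c → ℝ) × (Vr c → ℝ) |
      (∀ v, 0 ≤ z.1 v ∧ z.1 v ≤ 1) ∧ IsAng F cor z.2} ∩
      ({z | ∃ v, z.2 (Sum.inl v) ≤ 1 / 2} ∩ {z | Uf x - δ / 2 ≤ Ug z.1 z.2})) :=
    N_Ug_cpt.inter_right (hex.inter (isClosed_le continuous_const Ug_continuous))
  obtain ⟨r, hr, h2⟩ := N_Ug_gap hcW (f := fun z => -m z) hmc.neg 0 (by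
    rintro z ⟨hz1, hz2, hz3⟩
    have hz3' : Uf x - δ / 2 ≤ Ug z.1 z.2 := hz3
    by_contra hcon
    have hmz : m z ≤ 0 := by
      have : ¬(-m z < 0) := hcon
      linarith
    have := h1 z ⟨hz1, hz2, hmz⟩
    linarith)
  refine ⟨min (1 / 2) (r / (2 * (c + 1) : ℝ)), ?_, δ / 2, by linarith, ?_⟩
  · apply lt_min (by norm_num)
    positivity
  · intro κ y hκ hy hh hv
    by_contra hcon
    have hcon' : Uf x - δ / 2 < Ug κ y := not_le.1 hcon
    have hε1 : min (1 / 2) (r / (2 * (c + 1) : ℝ)) ≤ 1 / 2 := min_le_left _ _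
    have hε2 : min (1 / 2) (r / (2 * (c + 1) : ℝ)) ≤ r / (2 * (c + 1) : ℝ) := min_le_right _ _
    have hκ' : ∀ v, 0 ≤ κ v ∧ κ v ≤ 1 := by
      intro v
      have h3 := abs_le.1 ((hκ v).trans hε1)
      constructor <;> linarith [h3.1, h3.2]
    have h4 := h2 (κ, y) ⟨⟨hκ', hy⟩, hv, hcon'.le⟩
    have h5 : m (κ, y) ≤ ∑ v : Fin c, (r / (2 * (c + 1) : ℝ) + r / (2 * (c + 1) : ℝ)) := by
      refine Finset.sum_le_sum fun v _ => add_le_add ((hκ v).trans hε2) ?_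
      refine max_le ?_ ?_
      · positivity
      · have := hh v
        show 1 / 2 - y (Sum.inl v) ≤ _
        linarith
    rw [Finset.sum_const, Finset.card_univ, Fintype.card_fin, nsmul_eq_mul] at h5
    have h6 : (c : ℝ) * (r / (2 * (c + 1) : ℝ) + r / (2 * (c + 1) : ℝ)) < r := by
      have hc1 : (0 : ℝ) < (c : ℝ) + 1 := by positivity
      have e : (c : ℝ) * (r / (2 * (c + 1) : ℝ) + r / (2 * (c + 1) : ℝ)) =
          r * ((c : ℝ) / (c + 1)) := by
        field_simp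
        ring
      rw [e]
      have h7 : (c : ℝ) / (c + 1) < 1 := by
        rw [div_lt_one hc1]
        linarith
      nlinarith
    linarith

end Pool.Agent.H63.CLK
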