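import Pool.Agent.H63.CLK.N_SN
import Pool.Agent.H63.CLK.K_X

/-!
# All directions, analysis: bounds for the weights

`pch_bound`: `‖bh N (p + i + δ)‖ = 2 |sin (π (p + i + δ) / M)| ≤ 2 |sin (π (p + i) / M)| cosh (π / (4 M)) + 2 sinh (π / (4 M))`, and
`|sin (π j / M)| ≥ 2 d / M`, `d` the distance of `j` to `M ℤ`; so each factor with `p + i ≠ M` is at most
`2 |sin (π (p + i) / M)| (1 + C / d) (1 + C / M)`, and the factor with `p + i = M` is at most `1` (for `M` large; at most 2 always);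
`∏ (1 + C / d) ≤ C' M^(2 C)`. Then `∏_{i ≤ x, p + i ≠ M} 2 |sin (π (p + i) / M)| = SN (p + x) / SN p` for `p + x ≤ N`, and
`= (SN N / SN p) * SN (p + x - M)` for `p + x ≥ M` (`2 |sin|` has the period `M`), and `SN_bound`, `Fr_shift`
(`Fr` has the period 1: `VC3/RealF.lean`).

`WJ_bound`: `WJ` is a sum over the splittings; the phases `qh N (x * n)` with `‖x‖ ≤ 1/4`, `n ≤ N` are bounded by `exp π`.
-/

set_option autoImplicit false

namespace Pool.Agent.H63.CLK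

open Pool.Agent.H63.VC hiding ext
open Pool.Agent.H63.VC3 Pool.Agent.H63.VC4 Pool.Agent.H63.VC7 Complex Filter Topology
open scoped BigOperators

private theorem N_Wb_qh_add (N : ℕ) (x y : ℂ) : qh N (x + y) = qh N x * qh N y := by
  rw [qh, qh, qh, ← Complex.exp_add]
  congr 1
  ring

private theorem N_Wb_M_pos (N : ℕ) : (0 : ℝ) < ((N + 1 : ℕ) : ℝ) := by positivity

private theorem N_Wb_qh_norm (N : ℕ) (y : ℂ) :
    ‖qh N y‖ ≤ Real.exp (Real.pi * ‖y‖ / ((N + 1 : ℕ) : ℝ)) := by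
  rw [qh, Complex.norm_exp]
  apply Real.exp_le_exp.2
  refine (Complex.re_le_norm _).trans (le_of_eq ?_)
  rw [norm_div, norm_mul, norm_mul, Complex.norm_I, Complex.norm_real, Complex.norm_natCast,
    Real.norm_of_nonneg Real.pi_pos.le, mul_one]

private theorem N_Wb_qh_real (N : ℕ) (y : ℝ) : ‖qh N (y : ℂ)‖ = 1 := by
  rw [qh, Complex.norm_exp]
  have e : ((Real.pi : ℂ) * Complex.I * (y : ℂ) / ((N + 1 : ℕ) : ℂ)) =
      ((Real.pi * y / ((N + 1 : ℕ) : ℝ) : ℝ) : ℂ) * Complex.I := by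
    push_cast
    ring
  rw [e, Complex.re_ofReal_mul, Complex.I_re, mul_zero, Real.exp_zero]

private theorem N_Wb_qh_M (N : ℕ) : qh N ((N + 1 : ℕ) : ℂ) = -1 := by
  have hM : ((N + 1 : ℕ) : ℂ) ≠ 0 := by exact_mod_cast Nat.succ_ne_zero N
  rw [qh, mul_div_assoc, div_self hM, mul_one, Complex.exp_pi_mul_I]

private theorem N_Wb_qh_negM (N : ℕ) : qh N (-((N + 1 : ℕ) : ℂ)) = -1 := by
  have h := N_Wb_qh_add N ((N + 1 : ℕ) : ℂ) (-((N + 1 : ℕ) : ℂ))
  rw [add_neg_cancel, N_Wb_qh_M] at h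
  have h0 : qh N 0 = 1 := by rw [qh]; simp
  rw [h0] at h
  linear_combination h

private theorem N_Wb_bh_M (N : ℕ) (y : ℂ) : bh N (((N + 1 : ℕ) : ℂ) + y) = -bh N y := by
  rw [bh, bh, neg_add, N_Wb_qh_add, N_Wb_qh_add, N_Wb_qh_M, N_Wb_qh_negM]
  ring

private theorem N_Wb_bh_real (N : ℕ) (j : ℕ) :
    ‖bh N (j : ℂ)‖ = 2 * |Real.sin (Real.pi * j / ((N + 1 : ℕ) : ℝ))| := by
  have e : bh N (j : ℂ) =
      ((2 * Real.sin (Real.pi * j / ((N + 1 : ℕ) : ℝ)) : ℝ) : ℂ) * Complex.I := by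
    rw [bh, qh, qh]
    push_cast
    rw [Complex.sin]
    have e1 : (Real.pi : ℂ) * Complex.I * (j : ℂ) / ((N : ℂ) + 1) =
        (Real.pi : ℂ) * j / ((N : ℂ) + 1) * Complex.I := by ring
    have e2 : (Real.pi : ℂ) * Complex.I * (-(j : ℂ)) / ((N : ℂ) + 1) =
        -((Real.pi : ℂ) * j / ((N : ℂ) + 1)) * Complex.I := by ring
    rw [e1, e2]
    have hI : Complex.I * Complex.I = -1 := Complex.I_mul_I
    linear_combination (-(Complex.exp (-((Real.pi : ℂ) * j / ((N : ℂ) + 1)) * Complex.I) -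
      Complex.exp ((Real.pi : ℂ) * j / ((N : ℂ) + 1) * Complex.I))) * hI
  rw [e, norm_mul, Complex.norm_I, mul_one, Complex.norm_real, Real.norm_eq_abs, abs_mul,
    abs_of_pos (by norm_num : (0 : ℝ) < 2)]

/-- a small argument -/
private theorem N_Wb_bh_small (N : ℕ) (hN : 1 ≤ N) (δ : ℂ) (hδ : ‖δ‖ ≤ 1 / 4) :
    ‖bh N δ‖ ≤ Real.exp (Real.pi / 4 / ((N + 1 : ℕ) : ℝ)) * (Real.pi / ((N + 1 : ℕ) : ℝ)) := by
  have hM := N_Wb_M_pos N
  have hM2 : (2 : ℝ) ≤ ((N + 1 : ℕ) : ℝ) := by exact_mod_cast (by omega : 2 ≤ N + 1)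
  have hpi := Real.pi_pos
  have hpi4 := Real.pi_le_four
  have e : bh N δ = qh N (-δ) * (Complex.exp (2 * (Real.pi * Complex.I * δ /
      ((N + 1 : ℕ) : ℂ))) - 1) := by
    have e1 : Complex.exp (2 * (Real.pi * Complex.I * δ / ((N + 1 : ℕ) : ℂ))) =
        qh N δ * qh N δ := by
      rw [qh, ← Complex.exp_add]
      congr 1
      ring
    have e2 : qh N (-δ) * qh N δ = 1 := by
      rw [← N_Wb_qh_add, neg_add_cancel, qh]
      simp
    rw [e1, bh]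
    linear_combination (-qh N δ) * e2
  have hn : ‖2 * (Real.pi * Complex.I * δ / ((N + 1 : ℕ) : ℂ))‖ =
      2 * Real.pi * ‖δ‖ / ((N + 1 : ℕ) : ℝ) := by
    rw [norm_mul, norm_div, norm_mul, norm_mul, Complex.norm_I, Complex.norm_real,
      Complex.norm_natCast, Real.norm_of_nonneg hpi.le]
    norm_num
    ring
  have hn1 : ‖2 * (Real.pi * Complex.I * δ / ((N + 1 : ℕ) : ℂ))‖ ≤
      Real.pi / 2 / ((N + 1 : ℕ) : ℝ) := by
    rw [hn]
    apply div_le_div_of_nonneg_right _ hM.le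
    nlinarith
  have hn2 : Real.pi / 2 / ((N + 1 : ℕ) : ℝ) ≤ 1 := by
    rw [div_le_one hM]
    linarith
  have h1 := Complex.norm_exp_sub_one_le (hn1.trans hn2)
  rw [e, norm_mul]
  refine mul_le_mul ((N_Wb_qh_norm N (-δ)).trans (Real.exp_le_exp.2 ?_)) ?_ (norm_nonneg _)
    (Real.exp_pos _).le
  · rw [norm_neg]
    apply div_le_div_of_nonneg_right _ hM.le
    nlinarith
  · refine h1.trans ?_
    calc 2 * ‖2 * (Real.pi * Complex.I * δ / ((N + 1 : ℕ) : ℂ))‖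
        ≤ 2 * (Real.pi / 2 / ((N + 1 : ℕ) : ℝ)) := by linarith
      _ = Real.pi / ((N + 1 : ℕ) : ℝ) := by ring

private theorem N_Wb_sin_low (N j : ℕ) (h1 : 1 ≤ j) (h2 : j ≤ N) :
    Real.pi / ((N + 1 : ℕ) : ℝ) ≤ (1 / (j : ℝ) + 1 / (((N + 1 : ℕ) : ℝ) - j)) *
      (2 * Real.sin (Real.pi * j / ((N + 1 : ℕ) : ℝ))) := by
  have hM := N_Wb_M_pos N
  have hj : (0 : ℝ) < j := by exact_mod_cast h1
  have hjM : (j : ℝ) < ((N + 1 : ℕ) : ℝ) := by exact_mod_cast (by omega : j < N + 1)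
  have hjM' : (0 : ℝ) < ((N + 1 : ℕ) : ℝ) - j := by linarith
  have hpi := Real.pi_pos
  have hpi4 := Real.pi_le_four
  have key : ∀ x : ℝ, 0 < x → x ≤ ((N + 1 : ℕ) : ℝ) / 2 →
      4 / ((N + 1 : ℕ) : ℝ) ≤ 1 / x * (2 * Real.sin (Real.pi * x / ((N + 1 : ℕ) : ℝ))) := by
    intro x hx hx2
    have h3 := Real.mul_le_sin (x := Real.pi * x / ((N + 1 : ℕ) : ℝ)) (by positivity) (by
      rw [div_le_div_iff₀ hM (by norm_num)]
      nlinarith)
    have h4 : 2 / Real.pi * (Real.pi * x / ((N + 1 : ℕ) : ℝ)) = 2 * x / ((N + 1 : ℕ) : ℝ) := by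
      field_simp
    rw [h4] at h3
    calc 4 / ((N + 1 : ℕ) : ℝ) = 1 / x * (2 * (2 * x / ((N + 1 : ℕ) : ℝ))) := by
          field_simp
          ring
      _ ≤ _ := by
          apply mul_le_mul_of_nonneg_left _ (by positivity)
          linarith
  have hs : 0 ≤ Real.sin (Real.pi * j / ((N + 1 : ℕ) : ℝ)) := by
    apply Real.sin_nonneg_of_nonneg_of_le_pi (by positivity)
    rw [div_le_iff₀ hM]
    nlinarith
  have h4 : Real.pi / ((N + 1 : ℕ) : ℝ) ≤ 4 / ((N + 1 : ℕ) : ℝ) :=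
    div_le_div_of_nonneg_right hpi4 hM.le
  refine h4.trans ?_
  rw [add_mul]
  have hA : 0 ≤ 1 / (j : ℝ) * (2 * Real.sin (Real.pi * j / ((N + 1 : ℕ) : ℝ))) := by positivity
  have hB : 0 ≤ 1 / (((N + 1 : ℕ) : ℝ) - j) *
      (2 * Real.sin (Real.pi * j / ((N + 1 : ℕ) : ℝ))) := by
    apply mul_nonneg (by positivity) (by positivity)
  rcases le_total (j : ℝ) (((N + 1 : ℕ) : ℝ) / 2) with h | h
  · have := key j hj h
    linarith
  · have h5 := key (((N + 1 : ℕ) : ℝ) - j) hjM' (by linarith)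
    have h6 : Real.sin (Real.pi * (((N + 1 : ℕ) : ℝ) - j) / ((N + 1 : ℕ) : ℝ)) =
        Real.sin (Real.pi * j / ((N + 1 : ℕ) : ℝ)) := by
      rw [← Real.sin_pi_sub]
      congr 1
      field_simp
      ring
    rw [h6] at h5
    linarith

private theorem N_Wb_factor (N j : ℕ) (h1 : 1 ≤ j) (h2 : j ≤ N) (δ : ℂ) (hδ : ‖δ‖ ≤ 1 / 4) :
    ‖bh N ((j : ℂ) + δ)‖ ≤ Real.exp (Real.pi / 4 / ((N + 1 : ℕ) : ℝ)) *
      ((1 + 1 / (j : ℝ)) * (1 + 1 / (((N + 1 : ℕ) : ℝ) - j))) *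
      (2 * Real.sin (Real.pi * j / ((N + 1 : ℕ) : ℝ))) := by
  have hM := N_Wb_M_pos N
  have hj : (0 : ℝ) < j := by exact_mod_cast h1
  have hjM : (j : ℝ) < ((N + 1 : ℕ) : ℝ) := by exact_mod_cast (by omega : j < N + 1)
  have hjM' : (0 : ℝ) < ((N + 1 : ℕ) : ℝ) - j := by linarith
  have hpi := Real.pi_pos
  have hs : 0 ≤ Real.sin (Real.pi * j / ((N + 1 : ℕ) : ℝ)) := by
    apply Real.sin_nonneg_of_nonneg_of_le_pi (by positivity)
    rw [div_le_iff₀ hM]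
    nlinarith
  have e : bh N ((j : ℂ) + δ) = bh N j * qh N δ + qh N (-(j : ℂ)) * bh N δ := by
    rw [bh, bh, bh, neg_add, N_Wb_qh_add, N_Wb_qh_add]
    ring
  have hq : ‖qh N δ‖ ≤ Real.exp (Real.pi / 4 / ((N + 1 : ℕ) : ℝ)) := by
    refine (N_Wb_qh_norm N δ).trans (Real.exp_le_exp.2 ?_)
    apply div_le_div_of_nonneg_right _ hM.le
    nlinarith
  have hq1 : ‖qh N (-(j : ℂ))‖ = 1 := by
    have := N_Wb_qh_real N (-(j : ℝ))
    push_cast at this
    exact this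
  have hb := N_Wb_bh_small N (h1.trans h2) δ hδ
  have hlow := N_Wb_sin_low N j h1 h2
  set E := Real.exp (Real.pi / 4 / ((N + 1 : ℕ) : ℝ)) with hE
  have hEpos : 0 < E := Real.exp_pos _
  set s := 2 * Real.sin (Real.pi * j / ((N + 1 : ℕ) : ℝ)) with hsdef
  have hs' : 0 ≤ s := by positivity
  have hbj : ‖bh N (j : ℂ)‖ = s := by
    rw [N_Wb_bh_real, abs_of_nonneg hs]
  rw [e]
  calc ‖bh N j * qh N δ + qh N (-(j : ℂ)) * bh N δ‖
      ≤ ‖bh N j * qh N δ‖ + ‖qh N (-(j : ℂ)) * bh N δ‖ := norm_add_le _ _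
    _ = s * ‖qh N δ‖ + ‖bh N δ‖ := by rw [norm_mul, norm_mul, hq1, one_mul, hbj]
    _ ≤ s * E + E * ((1 / (j : ℝ) + 1 / (((N + 1 : ℕ) : ℝ) - j)) * s) := by
        apply add_le_add (mul_le_mul_of_nonneg_left hq hs')
        exact hb.trans (mul_le_mul_of_nonneg_left hlow hEpos.le)
    _ ≤ E * ((1 + 1 / (j : ℝ)) * (1 + 1 / (((N + 1 : ℕ) : ℝ) - j))) * s := by
        have h3 : 0 ≤ 1 / (j : ℝ) * (1 / (((N + 1 : ℕ) : ℝ) - j)) := by positivity
        have h4 : 0 ≤ E * s * (1 / (j : ℝ) * (1 / (((N + 1 : ℕ) : ℝ) - j))) := by positivity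
        nlinarith

private theorem N_Wb_pch_A (N p : ℕ) (δ : ℂ) (hδ : ‖δ‖ ≤ 1 / 4) :
    ∀ x : ℕ, p + x ≤ N →
    ‖pch N ((p : ℂ) + δ) x‖ ≤ Real.exp (Real.pi / 4 / ((N + 1 : ℕ) : ℝ)) ^ x *
      (((p : ℝ) + x + 1) / ((p : ℝ) + 1) *
        ((((N + 1 : ℕ) : ℝ) - p) / (((N + 1 : ℕ) : ℝ) - p - x))) *
      (SN N (p + x) / SN N p) := by
  intro x
  induction x with
  | zero =>
    intro hx
    have hSN := SN_pos N p (by omega)
    have hp : (p : ℝ) < ((N + 1 : ℕ) : ℝ) := by exact_mod_cast (by omega : p < N + 1)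
    have hp' : (((N + 1 : ℕ) : ℝ) - p) ≠ 0 := by linarith
    have hp1 : (p : ℝ) + 1 ≠ 0 := by positivity
    rw [pch, Finset.prod_range_zero, norm_one, pow_zero, Nat.cast_zero, add_zero, add_zero,
      sub_zero, div_self hp', div_self hp1, div_self hSN.ne']
    norm_num
  | succ x ih =>
    intro hx
    have hih := ih (by omega)
    have hfac := N_Wb_factor N (p + x + 1) (by omega) (by omega) δ hδ
    have hSN := SN_pos N p (by omega)
    have hSN2 := SN_pos N (p + x) (by omega)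
    have hM := N_Wb_M_pos N
    have hj : ((p : ℝ) + x + 1) < ((N + 1 : ℕ) : ℝ) := by
      exact_mod_cast (by omega : p + x + 1 < N + 1)
    have hb0 : (0 : ℝ) < ((N + 1 : ℕ) : ℝ) - p - x - 1 := by linarith
    have hb1 : (0 : ℝ) < ((N + 1 : ℕ) : ℝ) - p - x := by linarith
    have hp0 : (0 : ℝ) ≤ (p : ℝ) := by positivity
    have hx0 : (0 : ℝ) ≤ (x : ℝ) := by positivity
    have hb2 : (0 : ℝ) < ((N + 1 : ℕ) : ℝ) - p := by linarith
    have e1 : pch N ((p : ℂ) + δ) (x + 1) =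
        pch N ((p : ℂ) + δ) x * bh N (((p + x + 1 : ℕ) : ℂ) + δ) := by
      rw [pch, pch, Finset.prod_range_succ]
      congr 2
      push_cast
      ring
    have e2 : SN N (p + (x + 1)) = SN N (p + x) *
        (2 * Real.sin (Real.pi * ((p + x + 1 : ℕ) : ℝ) / ((N + 1 : ℕ) : ℝ))) := by
      rw [← add_assoc, SN, SN, Finset.prod_range_succ]
      congr 4
      push_cast
      ring
    rw [e1, norm_mul, e2]
    have hEpos : 0 < Real.exp (Real.pi / 4 / ((N + 1 : ℕ) : ℝ)) := Real.exp_pos _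
    set E := Real.exp (Real.pi / 4 / ((N + 1 : ℕ) : ℝ)) with hE
    set s := 2 * Real.sin (Real.pi * ((p + x + 1 : ℕ) : ℝ) / ((N + 1 : ℕ) : ℝ)) with hs
    have hU : 0 ≤ E ^ x * (((p : ℝ) + x + 1) / ((p : ℝ) + 1) *
        ((((N + 1 : ℕ) : ℝ) - p) / (((N + 1 : ℕ) : ℝ) - p - x))) *
        (SN N (p + x) / SN N p) := by positivity
    refine (mul_le_mul hih hfac (norm_nonneg _) hU).trans (le_of_eq ?_)
    have e3 : (((p + x + 1 : ℕ) : ℝ)) = (p : ℝ) + x + 1 := by push_cast; ring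
    have e4 : (((x + 1 : ℕ) : ℝ)) = (x : ℝ) + 1 := by push_cast; ring
    rw [e3, e4]
    have hb3 : ((N + 1 : ℕ) : ℝ) - (p + x + 1) ≠ 0 := by
      intro h
      linarith
    have hb4 : ((N + 1 : ℕ) : ℝ) - p - (x + 1) ≠ 0 := by
      intro h
      linarith
    have hb5 : ((N + 1 : ℕ) : ℝ) - p - (x + 1) = ((N + 1 : ℕ) : ℝ) - (p + x + 1) := by ring
    rw [hb5]
    have hp1 : (p : ℝ) + x + 1 ≠ 0 := by positivity
    have hp2 : (p : ℝ) + 1 ≠ 0 := by positivity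
    generalize ((N + 1 : ℕ) : ℝ) = M at *
    field_simp
    ring

private theorem N_Wb_pch_A' (N p : ℕ) (δ : ℂ) (hδ : ‖δ‖ ≤ 1 / 4) (x : ℕ) (hx : p + x ≤ N) :
    ‖pch N ((p : ℂ) + δ) x‖ ≤ Real.exp (Real.pi / 4) * ((N + 1 : ℕ) : ℝ) ^ 2 *
      (SN N (p + x) / SN N p) := by
  have hM := N_Wb_M_pos N
  have hpi := Real.pi_pos
  have hSN := SN_pos N p (by omega)
  have hSN2 := SN_pos N (p + x) (by omega)
  have hx' : (x : ℝ) ≤ ((N + 1 : ℕ) : ℝ) := by exact_mod_cast (by omega : x ≤ N + 1)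
  have hpx : (p : ℝ) + x + 1 ≤ ((N + 1 : ℕ) : ℝ) := by exact_mod_cast (by omega : p + x + 1 ≤ N + 1)
  have hp0 : (0 : ℝ) ≤ (p : ℝ) := by positivity
  have hx0 : (0 : ℝ) ≤ (x : ℝ) := by positivity
  refine (N_Wb_pch_A N p δ hδ x hx).trans ?_
  apply mul_le_mul_of_nonneg_right _ (by positivity)
  apply mul_le_mul
  · rw [← Real.exp_nat_mul]
    apply Real.exp_le_exp.2
    rw [mul_div_assoc', div_le_iff₀ hM]
    nlinarith
  · rw [sq]
    apply mul_le_mul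
    · rw [div_le_iff₀ (by positivity)]
      nlinarith
    · rw [div_le_iff₀ (by linarith)]
      nlinarith
    · apply div_nonneg
      · linarith
      · linarith
    · exact hM.le
  · apply mul_nonneg
    · positivity
    · apply div_nonneg
      · linarith
      · linarith
  · exact (Real.exp_pos _).le

private theorem N_Wb_pch_add (N : ℕ) (q : ℂ) (a b : ℕ) :
    pch N q (a + b) = pch N q a * pch N (q + a) b := by
  rw [pch, pch, pch, Finset.prod_range_add]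
  congr 1
  refine Finset.prod_congr rfl fun i _ => ?_
  congr 1
  push_cast
  ring

private theorem N_Wb_pch_shift (N : ℕ) (δ : ℂ) (z : ℕ) :
    ‖pch N (((N + 1 : ℕ) : ℂ) + δ) z‖ = ‖pch N δ z‖ := by
  rw [pch, pch, _root_.norm_prod, _root_.norm_prod]
  refine Finset.prod_congr rfl fun i _ => ?_
  have e : ((N + 1 : ℕ) : ℂ) + δ + i + 1 = ((N + 1 : ℕ) : ℂ) + (δ + i + 1) := by ring
  rw [e, N_Wb_bh_M, norm_neg]

private theorem N_Wb_SN_zero (N : ℕ) : SN N 0 = 1 := by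
  rw [SN, Finset.prod_range_zero]

private theorem N_Wb_pch_B (N p : ℕ) (hN : 1 ≤ N) (δ : ℂ) (hδ : ‖δ‖ ≤ 1 / 4) (x : ℕ)
    (hp : p ≤ N) (hx : x ≤ N) (hpx : N + 1 ≤ p + x) :
    ‖pch N ((p : ℂ) + δ) x‖ ≤ 4 * Real.exp (Real.pi / 4) ^ 3 * ((N + 1 : ℕ) : ℝ) ^ 5 *
      (SN N (p + x - (N + 1)) / SN N p) := by
  have hM := N_Wb_M_pos N
  have hM1 : (1 : ℝ) ≤ ((N + 1 : ℕ) : ℝ) := by exact_mod_cast (by omega : 1 ≤ N + 1)
  have hpi := Real.pi_pos
  have hpi4 := Real.pi_le_four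
  have hSN := SN_pos N p hp
  obtain ⟨z, hz⟩ : ∃ z, z = p + x - (N + 1) := ⟨_, rfl⟩
  have hSNz := SN_pos N z (by omega)
  have hxz : x = (N - p) + (1 + z) := by omega
  have h1 := N_Wb_pch_A' N p δ hδ (N - p) (by omega)
  have h2 := N_Wb_pch_A' N 0 δ hδ z (by omega)
  have h3 := N_Wb_bh_small N hN δ hδ
  have hNN : SN N N = ((N + 1 : ℕ) : ℝ) := by
    have := SN_mul N N le_rfl
    rw [Nat.sub_self, N_Wb_SN_zero, mul_one] at this
    rw [this]
    push_cast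
    ring
  rw [show p + (N - p) = N by omega, hNN] at h1
  rw [N_Wb_SN_zero, zero_add, div_one, Nat.cast_zero, zero_add] at h2
  have e1 : pch N ((p : ℂ) + δ) x = pch N ((p : ℂ) + δ) (N - p) *
      (bh N (((N + 1 : ℕ) : ℂ) + δ) * pch N (((N + 1 : ℕ) : ℂ) + δ) z) := by
    conv_lhs => rw [hxz]
    rw [N_Wb_pch_add, N_Wb_pch_add]
    have e2 : ((p : ℂ) + δ) + ((N - p : ℕ) : ℂ) + ((1 : ℕ) : ℂ) = ((N + 1 : ℕ) : ℂ) + δ := by
      have : ((N - p : ℕ) : ℂ) = (N : ℂ) - p := by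
        rw [Nat.cast_sub hp]
      rw [this]
      push_cast
      ring
    have e3 : pch N ((p : ℂ) + δ + ((N - p : ℕ) : ℂ)) 1 = bh N (((N + 1 : ℕ) : ℂ) + δ) := by
      rw [pch, Finset.prod_range_one]
      congr 1
      have : ((N - p : ℕ) : ℂ) = (N : ℂ) - p := by
        rw [Nat.cast_sub hp]
      rw [this]
      push_cast
      ring
    rw [e2, e3]
  rw [e1, norm_mul, norm_mul, N_Wb_bh_M, norm_neg, N_Wb_pch_shift, ← hz]
  have hE : Real.exp (Real.pi / 4 / ((N + 1 : ℕ) : ℝ)) ≤ Real.exp (Real.pi / 4) := by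
    apply Real.exp_le_exp.2
    rw [div_le_iff₀ hM]
    nlinarith
  have h3' : ‖bh N δ‖ ≤ 4 * Real.exp (Real.pi / 4) := by
    refine h3.trans ?_
    rw [mul_comm 4]
    apply mul_le_mul hE _ (by positivity) (Real.exp_pos _).le
    rw [div_le_iff₀ hM]
    nlinarith
  have hx1 : (0 : ℝ) < Real.exp (Real.pi / 4) := Real.exp_pos _
  calc ‖pch N ((p : ℂ) + δ) (N - p)‖ * (‖bh N δ‖ * ‖pch N δ z‖)
      ≤ (Real.exp (Real.pi / 4) * ((N + 1 : ℕ) : ℝ) ^ 2 * (((N + 1 : ℕ) : ℝ) / SN N p)) *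
        ((4 * Real.exp (Real.pi / 4)) *
          (Real.exp (Real.pi / 4) * ((N + 1 : ℕ) : ℝ) ^ 2 * SN N z)) := by
        apply mul_le_mul h1 _ (by positivity) (by positivity)
        exact mul_le_mul h3' h2 (norm_nonneg _) (by positivity)
    _ = 4 * Real.exp (Real.pi / 4) ^ 3 * ((N + 1 : ℕ) : ℝ) ^ 5 * (SN N z / SN N p) := by
        ring

private theorem N_Wb_ib_norm (N x : ℕ) (hx : x ≤ N) : ‖ib N x‖ = (SN N x)⁻¹ := by
  rw [ib_nat, norm_inv, norm_brf N x hx]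

theorem pch_bound : ∃ C : ℝ, 0 < C ∧ ∃ D : ℕ, ∀ (N p x : ℕ) (δ : ℂ), 1 ≤ N → p ≤ N → x ≤ N →
    ‖δ‖ ≤ 1 / 4 → ‖pch N (p + δ) x * ib N x‖ ≤ C * ((N + 1 : ℕ) : ℝ) ^ D * PB N p x := by
  obtain ⟨C1, hC1, D1, hS⟩ := SN_bound
  obtain ⟨C2, hC2, D2, hF⟩ := Fr_shift 1
  refine ⟨4 * Real.exp (Real.pi / 4) ^ 3 * (1 + C2) * C1 ^ 3, by positivity, 5 + D2 + 3 * D1, ?_⟩
  intro N p x δ hN hp hx hδ
  have hM := N_Wb_M_pos N
  have hM1 : (1 : ℝ) ≤ ((N + 1 : ℕ) : ℝ) := by exact_mod_cast (by omega : 1 ≤ N + 1)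
  have hN0 : (0 : ℝ) < (N : ℝ) := by exact_mod_cast hN
  have hSN := SN_pos N p hp
  have hSNx := SN_pos N x hx
  set M := ((N + 1 : ℕ) : ℝ) with hMdef
  set F := Real.exp ((N : ℝ) * Fr (((p : ℝ) + x) / N)) with hFdef
  have hF0 : 0 < F := Real.exp_pos _
  have hx1 : (1 : ℝ) ≤ Real.exp (Real.pi / 4) := Real.one_le_exp (by positivity)
  have key : ‖pch N ((p : ℂ) + δ) x‖ ≤ (4 * Real.exp (Real.pi / 4) ^ 3 * (1 + C2)) *
      M ^ (5 + D2) * (C1 * M ^ D1 * F) / SN N p := by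
    rcases Nat.lt_or_ge N (p + x) with h | h
    · have h1 := N_Wb_pch_B N p hN δ hδ x hp hx (by omega)
      obtain ⟨z, hz⟩ : ∃ z, z = p + x - (N + 1) := ⟨_, rfl⟩
      have h2 := (hS N z hN (by omega)).1
      rw [← hz] at h1
      have hzc : (z : ℝ) = (p : ℝ) + x - (N + 1) := by
        have : z + (N + 1) = p + x := by omega
        have h' : (z : ℝ) + (N + 1) = (p : ℝ) + x := by exact_mod_cast this
        linarith
      have h3 := hF N ((z : ℝ) / N) (((p : ℝ) + x) / N - 1) hN (by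
        rw [hzc]
        have : ((p : ℝ) + x - (N + 1)) / N - (((p : ℝ) + x) / N - 1) = -(1 / N) := by
          field_simp
          ring
        rw [this, abs_neg, abs_of_pos (by positivity)])
      have h4 : Fr (((p : ℝ) + x) / N - 1) = Fr (((p : ℝ) + x) / N) := by
        rw [← Fr_add_one]
        congr 1
        ring
      rw [h4] at h3
      have h5 : Real.exp ((N : ℝ) * Fr ((z : ℝ) / N)) ≤ C2 * M ^ D2 * F := by
        calc Real.exp ((N : ℝ) * Fr ((z : ℝ) / N))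
            ≤ Real.exp ((N : ℝ) * |Fr ((z : ℝ) / N) - Fr (((p : ℝ) + x) / N)| +
                (N : ℝ) * Fr (((p : ℝ) + x) / N)) := by
              apply Real.exp_le_exp.2
              have := le_abs_self (Fr ((z : ℝ) / N) - Fr (((p : ℝ) + x) / N))
              nlinarith
          _ = Real.exp ((N : ℝ) * |Fr ((z : ℝ) / N) - Fr (((p : ℝ) + x) / N)|) * F := by
              rw [Real.exp_add]
          _ ≤ C2 * M ^ D2 * F := mul_le_mul_of_nonneg_right h3 hF0.le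
      refine h1.trans ?_
      rw [mul_div_assoc']
      apply div_le_div_of_nonneg_right _ hSN.le
      calc 4 * Real.exp (Real.pi / 4) ^ 3 * M ^ 5 * SN N z
          ≤ 4 * Real.exp (Real.pi / 4) ^ 3 * M ^ 5 * (C1 * M ^ D1 * (C2 * M ^ D2 * F)) := by
            apply mul_le_mul_of_nonneg_left _ (by positivity)
            exact h2.trans (mul_le_mul_of_nonneg_left h5 (by positivity))
        _ = (4 * Real.exp (Real.pi / 4) ^ 3 * C2) * M ^ (5 + D2) * (C1 * M ^ D1 * F) := by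
            ring
        _ ≤ (4 * Real.exp (Real.pi / 4) ^ 3 * (1 + C2)) * M ^ (5 + D2) * (C1 * M ^ D1 * F) := by
            apply mul_le_mul_of_nonneg_right _ (by positivity)
            apply mul_le_mul_of_nonneg_right _ (by positivity)
            apply mul_le_mul_of_nonneg_left _ (by positivity)
            linarith
    · have h1 := N_Wb_pch_A' N p δ hδ x h
      have h2 := (hS N (p + x) hN h).1
      have h3 : (((p + x : ℕ) : ℝ)) = (p : ℝ) + x := by push_cast; ring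
      rw [h3] at h2
      refine h1.trans ?_
      rw [mul_div_assoc']
      apply div_le_div_of_nonneg_right _ hSN.le
      calc Real.exp (Real.pi / 4) * M ^ 2 * SN N (p + x)
          ≤ Real.exp (Real.pi / 4) * M ^ 2 * (C1 * M ^ D1 * F) := by
            apply mul_le_mul_of_nonneg_left _ (by positivity)
            exact h2
        _ ≤ (4 * Real.exp (Real.pi / 4) ^ 3 * (1 + C2)) * M ^ (5 + D2) * (C1 * M ^ D1 * F) := by
            apply mul_le_mul_of_nonneg_right _ (by positivity)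
            apply mul_le_mul _ _ (by positivity) (by positivity)
            · have h4 : Real.exp (Real.pi / 4) ≤ Real.exp (Real.pi / 4) ^ 3 :=
                le_self_pow₀ hx1 (by norm_num)
              have h5 : (0 : ℝ) < Real.exp (Real.pi / 4) ^ 3 := by positivity
              nlinarith
            · exact pow_le_pow_right₀ hM1 (by omega)
  have hP : C1 * M ^ D1 * SN N p ≥ Real.exp ((N : ℝ) * Fr ((p : ℝ) / N)) := (hS N p hN hp).2
  have hX : C1 * M ^ D1 * SN N x ≥ Real.exp ((N : ℝ) * Fr ((x : ℝ) / N)) := (hS N x hN hx).2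
  have hPB : PB N p x = F / (Real.exp ((N : ℝ) * Fr ((p : ℝ) / N)) *
      Real.exp ((N : ℝ) * Fr ((x : ℝ) / N))) := by
    rw [PB, hFdef, ← Real.exp_add, ← Real.exp_sub]
    congr 1
    ring
  rw [norm_mul, N_Wb_ib_norm N x hx]
  have hp1 : (0 : ℝ) < Real.exp ((N : ℝ) * Fr ((p : ℝ) / N)) := Real.exp_pos _
  have hp2 : (0 : ℝ) < Real.exp ((N : ℝ) * Fr ((x : ℝ) / N)) := Real.exp_pos _
  set A := Real.exp ((N : ℝ) * Fr ((p : ℝ) / N)) with hA
  set B := Real.exp ((N : ℝ) * Fr ((x : ℝ) / N)) with hB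
  have hi1 : (SN N p)⁻¹ ≤ C1 * M ^ D1 / A := by
    rw [inv_eq_one_div, div_le_div_iff₀ hSN hp1]
    linarith
  have hi2 : (SN N x)⁻¹ ≤ C1 * M ^ D1 / B := by
    rw [inv_eq_one_div, div_le_div_iff₀ hSNx hp2]
    linarith
  calc ‖pch N ((p : ℂ) + δ) x‖ * (SN N x)⁻¹
      ≤ ((4 * Real.exp (Real.pi / 4) ^ 3 * (1 + C2)) * M ^ (5 + D2) * (C1 * M ^ D1 * F) /
          SN N p) * (SN N x)⁻¹ := mul_le_mul_of_nonneg_right key (by positivity)
    _ = ((4 * Real.exp (Real.pi / 4) ^ 3 * (1 + C2)) * M ^ (5 + D2) * (C1 * M ^ D1 * F)) *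
          ((SN N p)⁻¹ * (SN N x)⁻¹) := by
        rw [div_eq_mul_inv]
        ring
    _ ≤ ((4 * Real.exp (Real.pi / 4) ^ 3 * (1 + C2)) * M ^ (5 + D2) * (C1 * M ^ D1 * F)) *
          ((C1 * M ^ D1 / A) * (C1 * M ^ D1 / B)) := by
        apply mul_le_mul_of_nonneg_left _ (by positivity)
        exact mul_le_mul hi1 hi2 (by positivity) (by positivity)
    _ = 4 * Real.exp (Real.pi / 4) ^ 3 * (1 + C2) * C1 ^ 3 * M ^ (5 + D2 + 3 * D1) *
          PB N p x := by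
        rw [hPB, pow_add M (5 + D2) (3 * D1), pow_mul' M 3 D1]
        field_simp

private theorem N_Wb_PB_pos (N p x : ℕ) : 0 < PB N p x := Real.exp_pos _

private theorem N_Wb_wJB_nonneg (N J B sL sR : ℕ) : 0 ≤ wJB N J B sL sR := by
  unfold wJB
  refine Finset.sum_nonneg fun a _ => Finset.sum_nonneg fun b _ => ?_
  split_ifs
  · have h1 := N_Wb_PB_pos N J B
    have h2 := N_Wb_PB_pos N (N - J) a
    have h3 := N_Wb_PB_pos N (N - J) b
    have h4 := N_Wb_PB_pos N (N - J) (N - B - sL - sR)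
    have h5 := N_Wb_PB_pos N J (sL - a)
    have h6 := N_Wb_PB_pos N J (sR - b)
    positivity
  · exact le_rfl

private theorem N_Wb_sub_small {h : Fin 4 → ℂ} (hh : SmallH h) (i j : Fin 4) :
    ‖h i - h j‖ ≤ 1 / 4 := by
  have h1 := hh i
  have h2 := hh j
  have := norm_sub_le (h i) (h j)
  linarith

private theorem N_Wb_phase (N : ℕ) (u v : ℂ) (a b : ℕ) (hu : ‖u‖ ≤ 1 / 4) (hv : ‖v‖ ≤ 1 / 4)
    (ha : a ≤ N) (hb : b ≤ N) : ‖qh N (u * a + v * b)‖ ≤ Real.exp Real.pi := by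
  refine (N_Wb_qh_norm N _).trans (Real.exp_le_exp.2 ?_)
  have hM := N_Wb_M_pos N
  have hpi := Real.pi_pos
  have ha' : (a : ℝ) ≤ ((N + 1 : ℕ) : ℝ) := by exact_mod_cast (by omega : a ≤ N + 1)
  have hb' : (b : ℝ) ≤ ((N + 1 : ℕ) : ℝ) := by exact_mod_cast (by omega : b ≤ N + 1)
  have ha0 : (0 : ℝ) ≤ (a : ℝ) := by positivity
  have hb0 : (0 : ℝ) ≤ (b : ℝ) := by positivity
  have h1 : ‖u * a + v * b‖ ≤ ((N + 1 : ℕ) : ℝ) := by
    refine (norm_add_le _ _).trans ?_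
    rw [norm_mul, norm_mul, Complex.norm_natCast, Complex.norm_natCast]
    have h2 : ‖u‖ * a ≤ 1 / 4 * ((N + 1 : ℕ) : ℝ) :=
      mul_le_mul hu ha' ha0 (by norm_num)
    have h3 : ‖v‖ * b ≤ 1 / 4 * ((N + 1 : ℕ) : ℝ) :=
      mul_le_mul hv hb' hb0 (by norm_num)
    linarith
  rw [div_le_iff₀ hM]
  exact mul_le_mul_of_nonneg_left h1 hpi.le

private theorem N_Wb_six {a1 a2 a3 b1 b2 b3 : ℂ} {A1 A2 A3 q : ℝ} {r : ℂ} (h0 : ‖r‖ ≤ q)
    (h1 : ‖a1 * b1‖ ≤ A1) (h2 : ‖a2 * b2‖ ≤ A2) (h3 : ‖a3 * b3‖ ≤ A3) :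
    ‖r * (a1 * a2 * a3) * (b1 * b2 * b3)‖ ≤ q * (A1 * A2 * A3) := by
  have e : r * (a1 * a2 * a3) * (b1 * b2 * b3) = r * ((a1 * b1) * (a2 * b2) * (a3 * b3)) := by
    ring
  have hA1 : 0 ≤ A1 := (norm_nonneg _).trans h1
  have hA2 : 0 ≤ A2 := (norm_nonneg _).trans h2
  have hq : 0 ≤ q := (norm_nonneg _).trans h0
  rw [e, norm_mul, norm_mul, norm_mul]
  apply mul_le_mul h0 _ (by positivity) hq
  apply mul_le_mul _ h3 (norm_nonneg _) (by positivity)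
  exact mul_le_mul h1 h2 (norm_nonneg _) hA1

theorem WJ_bound : ∃ C : ℝ, 0 < C ∧ ∃ D : ℕ, ∀ (N J : ℕ) (h : Fin 4 → ℂ) (B sL sR : ℕ), 1 ≤ N →
    J ≤ N → SmallH h → B + sL + sR ≤ N →
    ‖WJ N J h B sL sR‖ ≤ C * ((N + 1 : ℕ) : ℝ) ^ D * wJB N J B sL sR := by
  obtain ⟨C, hC, D, hb⟩ := pch_bound
  refine ⟨Real.exp Real.pi ^ 2 * C ^ 6, by positivity, 6 * D, ?_⟩
  intro N J h B sL sR hN hJ hh hs
  have hM := N_Wb_M_pos N
  unfold WJ wJB
  rw [Finset.mul_sum]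
  refine (norm_sum_le _ _).trans (Finset.sum_le_sum fun a ha => ?_)
  rw [Finset.mul_sum]
  refine (norm_sum_le _ _).trans (Finset.sum_le_sum fun b hbb => ?_)
  rw [Finset.mem_range] at ha hbb
  by_cases hcond : B + a + b = J
  · have hsplit : J + (sL - a) + (sR - b) ≤ N := by omega
    rw [if_pos ⟨hcond, hs⟩, muJ, if_pos hcond, nuJ, if_pos hsplit]
    set M := ((N + 1 : ℕ) : ℝ) with hMdef
    have hNJ : ((N - J : ℕ) : ℂ) = (N : ℂ) - J := by rw [Nat.cast_sub hJ]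
    have p1 : ‖pch N ((J : ℂ) + h 1 - h 3) B * ib N B‖ ≤ C * M ^ D * PB N J B := by
      have := hb N J B (h 1 - h 3) hN hJ (by omega) (N_Wb_sub_small hh 1 3)
      rwa [← add_sub_assoc] at this
    have p2 : ‖pch N ((N : ℂ) - J + h 2 - h 1) a * ib N a‖ ≤ C * M ^ D * PB N (N - J) a := by
      have := hb N (N - J) a (h 2 - h 1) hN (by omega) (by omega) (N_Wb_sub_small hh 2 1)
      rwa [hNJ, ← add_sub_assoc] at this
    have p3 : ‖pch N ((N : ℂ) - J + h 3 - h 2) b * ib N b‖ ≤ C * M ^ D * PB N (N - J) b := by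
      have := hb N (N - J) b (h 3 - h 2) hN (by omega) (by omega) (N_Wb_sub_small hh 3 2)
      rwa [hNJ, ← add_sub_assoc] at this
    have p4 : ‖pch N ((N : ℂ) - J + h 3 - h 1) (N - J - (sL - a) - (sR - b)) *
        ib N ((N : ℤ) - J - ((sL - a : ℕ) : ℤ) - ((sR - b : ℕ) : ℤ))‖ ≤
        C * M ^ D * PB N (N - J) (N - B - sL - sR) := by
      have := hb N (N - J) (N - B - sL - sR) (h 3 - h 1) hN (by omega) (by omega)
        (N_Wb_sub_small hh 3 1)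
      rw [hNJ, ← add_sub_assoc] at this
      have e1 : N - J - (sL - a) - (sR - b) = N - B - sL - sR := by omega
      have e2 : (N : ℤ) - J - ((sL - a : ℕ) : ℤ) - ((sR - b : ℕ) : ℤ) =
          ((N - B - sL - sR : ℕ) : ℤ) := by omega
      rw [e1, e2]
      exact this
    have p5 : ‖pch N ((J : ℂ) + h 1 - h 0) (sL - a) * ib N ((sL - a : ℕ) : ℤ)‖ ≤
        C * M ^ D * PB N J (sL - a) := by
      have := hb N J (sL - a) (h 1 - h 0) hN hJ (by omega) (N_Wb_sub_small hh 1 0)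
      rwa [← add_sub_assoc] at this
    have p6 : ‖pch N ((J : ℂ) + h 0 - h 3) (sR - b) * ib N ((sR - b : ℕ) : ℤ)‖ ≤
        C * M ^ D * PB N J (sR - b) := by
      have := hb N J (sR - b) (h 0 - h 3) hN hJ (by omega) (N_Wb_sub_small hh 0 3)
      rwa [← add_sub_assoc] at this
    have q1 : ‖qh N ((h 1 - h 2) * B + (h 1 - h 3) * a)‖ ≤ Real.exp Real.pi :=
      N_Wb_phase N _ _ B a (N_Wb_sub_small hh 1 2) (N_Wb_sub_small hh 1 3) (by omega) (by omega)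
    have q2 : ‖qh N ((h 0 - h 1) * ((J : ℂ) + ((sL - a : ℕ) : ℂ) + ((sR - b : ℕ) : ℂ)) +
        (h 1 - h 3) * ((sL - a : ℕ) : ℂ))‖ ≤ Real.exp Real.pi := by
      have := N_Wb_phase N (h 0 - h 1) (h 1 - h 3) (J + (sL - a) + (sR - b)) (sL - a)
        (N_Wb_sub_small hh 0 1) (N_Wb_sub_small hh 1 3) hsplit (by omega)
      push_cast at this
      exact this
    have r1 := N_Wb_six q1 p1 p2 p3
    have r2 := N_Wb_six q2 p4 p5 p6
    rw [norm_mul]
    refine (mul_le_mul r1 r2 (norm_nonneg _) ((norm_nonneg _).trans r1)).trans (le_of_eq ?_)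
    rw [pow_mul' M 6 D]
    ring
  · rw [muJ, if_neg hcond, zero_mul, norm_zero, if_neg (fun hc => hcond hc.1), mul_zero]

theorem stWJ_bound (c : ℕ) : ∃ C : ℝ, 0 < C ∧ ∃ D : ℕ, ∀ (F : Finset ℕ) (cor : Fin c → Fin 4 → ℕ)
    (N : ℕ) (J : Fin c → ℕ) (h : Fin c → Fin 4 → ℂ), 1 ≤ N → (∀ v, J v ≤ N) → (∀ v, SmallH (h v)) →
    ‖stW F cor N (fun v => WJ N (J v) (h v))‖ ≤ C * ((N + 1 : ℕ) : ℝ) ^ D * BN F cor N J := by
  classical
  obtain ⟨C, hC, D, hb⟩ := WJ_bound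
  refine ⟨C ^ c, by positivity, D * c, ?_⟩
  intro F cor N J h hN hJ hh
  have hM := N_Wb_M_pos N
  have hall : ∀ (v : Fin c) (B sL sR : ℕ), ‖WJ N (J v) (h v) B sL sR‖ ≤
      C * ((N + 1 : ℕ) : ℝ) ^ D * wJB N (J v) B sL sR := by
    intro v B sL sR
    rcases Nat.lt_or_ge N (B + sL + sR) with hlt | hge
    · rw [WJ_supp N (J v) (h v) (hJ v) B sL sR hlt, norm_zero]
      have := N_Wb_wJB_nonneg N (J v) B sL sR
      positivity
    · exact hb N (J v) (h v) B sL sR hN (hJ v) (hh v) hge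
  unfold stW BN
  rw [Finset.mul_sum]
  refine (norm_sum_le _ _).trans (Finset.sum_le_sum fun s _ => ?_)
  by_cases hst : IsState F cor N s
  · rw [if_pos hst, if_pos hst, _root_.norm_prod]
    calc ∏ v, ‖WJ N (J v) (h v) (s v 2) (s v 3) (s v 1)‖
        ≤ ∏ v, (C * ((N + 1 : ℕ) : ℝ) ^ D * wJB N (J v) (s v 2) (s v 3) (s v 1)) :=
          Finset.prod_le_prod (fun v _ => norm_nonneg _) (fun v _ => hall v _ _ _)
      _ = C ^ c * ((N + 1 : ℕ) : ℝ) ^ (D * c) *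
          ∏ v, wJB N (J v) (s v 2) (s v 3) (s v 1) := by
          rw [Finset.prod_mul_distrib, Finset.prod_const, Finset.card_univ, Fintype.card_fin,
            mul_pow, ← pow_mul]
  · rw [if_neg hst, if_neg hst, norm_zero, mul_zero]

end Pool.Agent.H63.CLK
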