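import Pool.Agent.H63.CLK.U_Rel
import Pool.Agent.H63.CLK.D_BdFin

/-!
# Finitely many combinatorial types

For a given number `c` of twist regions there are only finitely many templates up to a renumbering of
the faces and strands, so the bounds for the numbers of half twists can be chosen uniformly.
-/

set_option autoImplicit false

namespace Pool.Agent.H63.CLK

open scoped BigOperators

variable {c : ℕ}

/-- The combinatorial types. -/
def UType (c : ℕ) : Type :=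
  (Fin c × Fin 4 → Fin c × Fin 4 → Prop) × (Fin c × Fin 4 → Prop) ×
    (Fin c × Fin 4 → Fin c × Fin 4 → Prop) × (Fin c × Fin 4 → Prop)

instance : Finite (UType c) := by
  unfold UType
  infer_instance

/-- The combinatorial type of a template. -/
def utype (F : Finset ℕ) (cor leg : Fin c → Fin 4 → ℕ) : UType c :=
  (fun p q => cor p.1 p.2 = cor q.1 q.2, fun p => cor p.1 p.2 ∈ F,
    fun p q => leg p.1 p.2 = leg q.1 q.2, fun p => leg p.1 p.2 = 0)

theorem urel_of_eq {F F' : Finset ℕ} {cor leg cor' leg' : Fin c → Fin 4 → ℕ}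
    (h : utype F cor leg = utype F' cor' leg')
    (hs : ∀ f ∈ F, ∃ p : Fin c × Fin 4, cor p.1 p.2 = f)
    (hs' : ∀ f ∈ F', ∃ p : Fin c × Fin 4, cor' p.1 p.2 = f) : URel F cor leg F' cor' leg' := by
  have h1 := congrArg (fun τ : UType c => τ.1) h
  have h2 := congrArg (fun τ : UType c => τ.2.1) h
  have h3 := congrArg (fun τ : UType c => τ.2.2.1) h
  have h4 := congrArg (fun τ : UType c => τ.2.2.2) h
  exact ⟨fun p q => iff_of_eq (congrFun (congrFun h1 p) q), fun p => iff_of_eq (congrFun h2 p),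
    fun p q => iff_of_eq (congrFun (congrFun h3 p) q), fun p => iff_of_eq (congrFun h4 p), hs, hs'⟩

theorem uniform (c : ℕ) (H : List TPiece → Finset ℕ → (Fin c → Fin 4 → ℕ) → Prop)
    (hT : ∀ w F cor, H w F cor → IsTemplate w c F cor)
    (hL : ∀ w F cor, H w F cor → ∃ leg, IsLegs w c leg)
    (hS : ∀ w F cor, H w F cor → ∀ f ∈ F, ∃ p : Fin c × Fin 4, cor p.1 p.2 = f)
    (Q : List TPiece → (ℕ → ℤ) → Prop)
    (hQ : ∀ w w' F F' cor cor' leg leg', IsTemplate w c F cor → IsTemplate w' c F' cor' →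
      IsLegs w c leg → IsLegs w' c leg' → URel F cor leg F' cor' leg' → ∀ a, Q w a → Q w' a)
    (hR : ∀ w F cor, H w F cor → ∃ R : ℝ, ∀ a : ℕ → ℤ, (∀ v < c, R ≤ |(a v : ℝ)|) → Q w a) :
    ∃ R : ℝ, ∀ w F cor, H w F cor → ∀ a : ℕ → ℤ, (∀ v < c, R ≤ |(a v : ℝ)|) → Q w a := by
  classical
  have key : ∀ τ : UType c, ∃ R : ℝ, ∀ w F cor leg, H w F cor → IsLegs w c leg →
      utype F cor leg = τ → ∀ a : ℕ → ℤ, (∀ v < c, R ≤ |(a v : ℝ)|) → Q w a := by
    intro τ
    by_cases ex : ∃ w F cor leg, H w F cor ∧ IsLegs w c leg ∧ utype F cor leg = τ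
    · obtain ⟨w₀, F₀, cor₀, leg₀, h₀, l₀, e₀⟩ := ex
      obtain ⟨R, hR'⟩ := hR w₀ F₀ cor₀ h₀
      exact ⟨R, fun w F cor leg hw hl e a ha => hQ w₀ w F₀ F cor₀ cor leg₀ leg (hT _ _ _ h₀)
        (hT _ _ _ hw) l₀ hl (urel_of_eq (e₀.trans e.symm) (hS _ _ _ h₀) (hS _ _ _ hw)) a (hR' a ha)⟩
    · exact ⟨0, fun w F cor leg hw hl e => absurd ⟨w, F, cor, leg, hw, hl, e⟩ ex⟩
  choose R hRτ using key
  have := Fintype.ofFinite (UType c)
  refine ⟨∑ τ, |R τ|, fun w F cor hw a ha => ?_⟩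
  obtain ⟨leg, hl⟩ := hL w F cor hw
  exact hRτ _ w F cor leg hw hl rfl a fun v hv => (le_abs_self _).trans
    ((Finset.single_le_sum (f := fun τ => |R τ|) (fun _ _ => abs_nonneg _)
      (Finset.mem_univ _)).trans (ha v hv))

/-- Every bounded face has a corner. -/
theorem uface_corner {F : Finset ℕ} {cor : Fin c → Fin 4 → ℕ} {x : Vr c → ℝ} (h : IsInt F cor x) :
    ∀ f ∈ F, ∃ p : Fin c × Fin 4, cor p.1 p.2 = f := by
  intro f hf
  by_contra hcon
  push Not at hcon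
  have h1 := h.ang.face f hf
  rw [Finset.sum_eq_zero fun v _ => Finset.sum_eq_zero fun k _ => if_neg (hcon (v, k))] at h1
  exact zero_ne_one h1

/-- The strands of a template. -/
theorem legs_exist {w : List TPiece} {F : Finset ℕ} {cor : Fin c → Fin 4 → ℕ}
    (hT : IsTemplate w c F cor) {x : Vr c → ℝ} (hx : IsInt F cor x)
    (hpr : ∃ v₁ v₂ : Fin c, ∀ v, IsEnd F cor v → v = v₁ ∨ v = v₂) : ∃ leg, IsLegs w c leg := by
  obtain ⟨T, -, -, hw, -⟩ := exists_tdata hT hx hpr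
  exact ⟨T.leg, hw.legs⟩

end Pool.Agent.H63.CLK
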