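import Pool.Agent.H63.CLK.D_HypC
import Pool.Agent.H63.CLK.C_Jones

/-!
# Templates with the same combinatorics

If the faces and strands of two templates are related by a renumbering, then the state sums and the
solutions of the gluing equations are the same.
-/

set_option autoImplicit false

namespace Pool.Agent.H63.CLK

open Pool.Agent.H63.VC hiding ext
open Pool.Agent.H63.VC7.Hyp Complex
open scoped BigOperators

variable {c : ℕ}

/-- Two templates have the same combinatorics. -/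
structure URel (F : Finset ℕ) (cor leg : Fin c → Fin 4 → ℕ) (F' : Finset ℕ)
    (cor' leg' : Fin c → Fin 4 → ℕ) : Prop where
  fc : ∀ p q : Fin c × Fin 4, cor p.1 p.2 = cor q.1 q.2 ↔ cor' p.1 p.2 = cor' q.1 q.2
  fb : ∀ p : Fin c × Fin 4, cor p.1 p.2 ∈ F ↔ cor' p.1 p.2 ∈ F'
  fl : ∀ p q : Fin c × Fin 4, leg p.1 p.2 = leg q.1 q.2 ↔ leg' p.1 p.2 = leg' q.1 q.2
  fz : ∀ p : Fin c × Fin 4, leg p.1 p.2 = 0 ↔ leg' p.1 p.2 = 0
  srj : ∀ f ∈ F, ∃ p : Fin c × Fin 4, cor p.1 p.2 = f
  srj' : ∀ f ∈ F', ∃ p : Fin c × Fin 4, cor' p.1 p.2 = f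

theorem URel.symm {F F' : Finset ℕ} {cor leg cor' leg' : Fin c → Fin 4 → ℕ}
    (h : URel F cor leg F' cor' leg') : URel F' cor' leg' F cor leg :=
  ⟨fun p q => (h.fc p q).symm, fun p => (h.fb p).symm, fun p q => (h.fl p q).symm,
    fun p => (h.fz p).symm, h.srj', h.srj⟩

open Classical in
/-- The renumbering of the faces. -/
noncomputable def upsi (cor cor' : Fin c → Fin 4 → ℕ) (f : ℕ) : ℕ :=
  if h : ∃ p : Fin c × Fin 4, cor' p.1 p.2 = f then cor h.choose.1 h.choose.2 else f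

section

variable {F F' : Finset ℕ} {cor leg cor' leg' : Fin c → Fin 4 → ℕ}

theorem upsi_cor (h : URel F cor leg F' cor' leg') (p : Fin c × Fin 4) :
    upsi cor cor' (cor' p.1 p.2) = cor p.1 p.2 := by
  have hp : ∃ q : Fin c × Fin 4, cor' q.1 q.2 = cor' p.1 p.2 := ⟨p, rfl⟩
  rw [upsi, dif_pos hp]
  exact (h.fc _ _).2 hp.choose_spec

theorem upsi_mem (h : URel F cor leg F' cor' leg') {f : ℕ} (hf : f ∈ F') : upsi cor cor' f ∈ F := by
  obtain ⟨p, rfl⟩ := h.srj' f hf
  rw [upsi_cor h]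
  exact (h.fb p).2 hf

theorem upsi_iff (h : URel F cor leg F' cor' leg') {f : ℕ} (hf : f ∈ F') (p : Fin c × Fin 4) :
    cor' p.1 p.2 = f ↔ cor p.1 p.2 = upsi cor cor' f := by
  obtain ⟨q, rfl⟩ := h.srj' f hf
  rw [upsi_cor h, h.fc]

theorem usum {M : Type*} [AddCommMonoid M] (h : URel F cor leg F' cor' leg') (g : ℕ → M) :
    ∑ f ∈ F', g (upsi cor cor' f) = ∑ f ∈ F, g f := by
  refine Finset.sum_nbij (upsi cor cor') (fun f hf => upsi_mem h hf) ?_ ?_ (fun _ _ => rfl)
  · intro f hf g hg e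
    obtain ⟨p, rfl⟩ := h.srj' f hf
    obtain ⟨q, rfl⟩ := h.srj' g hg
    rw [upsi_cor h, upsi_cor h] at e
    exact (h.fc p q).1 e
  · intro f hf
    obtain ⟨p, rfl⟩ := h.srj f hf
    exact ⟨cor' p.1 p.2, (h.fb p).1 hf, upsi_cor h p⟩

theorem isState_rel (h : URel F cor leg F' cor' leg') {N : ℕ} {s : Fin c → Fin 4 → ℕ}
    (hs : IsState F cor N s) : IsState F' cor' N s := by
  refine ⟨hs.1, fun f hf => ?_, fun v k hk => hs.2.2 v k fun hk' => hk ((h.fb (v, k)).1 hk')⟩
  rw [← hs.2.1 _ (upsi_mem h hf)]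
  refine Finset.sum_congr rfl fun v _ => Finset.sum_congr rfl fun k _ => ?_
  have := upsi_iff h hf (v, k)
  simp only at this
  simp only [this]

theorem stSum_rel (h : URel F cor leg F' cor' leg') (N : ℕ)
    (f : (Fin c → ℕ) → (Fin c → Fin 4 → ℕ) → ℂ) : stSum F cor N f = stSum F' cor' N f := by
  unfold stSum
  refine Finset.sum_congr rfl fun t _ => Finset.sum_congr rfl fun s _ => ?_
  by_cases hs : IsState F cor N s
  · rw [if_pos hs, if_pos (isState_rel h hs)]
  · rw [if_neg hs, if_neg fun h' => hs (isState_rel h.symm h')]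

/-- The colored Jones polynomials are equal. -/
theorem longJones_rel {w w' : List TPiece} (hT : IsTemplate w c F cor) (hT' : IsTemplate w' c F' cor')
    (h : URel F cor leg F' cor' leg') (a : ℕ → ℤ) (e : ℤ) (N : ℕ) :
    longJones (fill a 0 w) e N (qz N) = longJones (fill a 0 w') e N (qz N) := by
  rw [jones_stSum hT, jones_stSum hT', stSum_rel h]

end

/-! ### Uniqueness of the data of a template -/

theorem template_unique {w : List TPiece} {c c' : ℕ} {F F' : Finset ℕ} {cor : Fin c → Fin 4 → ℕ}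
    {cor' : Fin c' → Fin 4 → ℕ} (h : IsTemplate w c F cor) (h' : IsTemplate w c' F' cor') :
    c = c' := by
  obtain ⟨S, hs, -, hc, -⟩ := h
  obtain ⟨S', hs', -, hc', -⟩ := h'
  have e : S = S' := Option.some.inj (hs.symm.trans hs')
  subst e
  have := congrArg List.length (hc.symm.trans hc')
  simpa using this

theorem template_unique' {w : List TPiece} {c : ℕ} {F F' : Finset ℕ} {cor cor' : Fin c → Fin 4 → ℕ}
    (h : IsTemplate w c F cor) (h' : IsTemplate w c F' cor') : F = F' ∧ cor = cor' := by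
  obtain ⟨S, hs, -, hc, hF⟩ := h
  obtain ⟨S', hs', -, hc', hF'⟩ := h'
  have e : S = S' := Option.some.inj (hs.symm.trans hs')
  subst e
  exact ⟨hF.trans hF'.symm, List.ofFn_injective (hc.symm.trans hc')⟩

theorem legs_unique {w : List TPiece} {c : ℕ} {leg leg' : Fin c → Fin 4 → ℕ}
    (h : IsLegs w c leg) (h' : IsLegs w c leg') : leg = leg' := by
  obtain ⟨S, z, hs, hz, hl⟩ := h
  obtain ⟨S', z', hs', hz', hl'⟩ := h'
  have e : S = S' := Option.some.inj (hs.symm.trans hs')
  subst e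
  have : z = z' := by
    rw [hz] at hz'
    simpa using hz'
  subst this
  exact List.ofFn_injective (hl.trans hl'.symm)

/-! ### Renumbering of the data -/

/-- The renumbered data. -/
noncomputable def TData.relab (T : TData c) (F' : Finset ℕ) (cor' leg' : Fin c → Fin 4 → ℕ) :
    TData c where
  F := F'
  cor := cor'
  leg := leg'
  deg f := T.deg (upsi T.cor cor' f)
  bd f := T.bd (upsi T.cor cor' f)
  one := T.one

variable {T : TData c} {F' : Finset ℕ} {cor' leg' : Fin c → Fin 4 → ℕ}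

theorem relab_mate (h : URel T.F T.cor T.leg F' cor' leg') (p q : Fin c × Fin 4) :
    Mate leg' p q ↔ Mate T.leg p q := by
  unfold Mate
  rw [h.fl]

theorem relab_isEnd (h : URel T.F T.cor T.leg F' cor' leg') (v : Fin c) :
    (T.relab F' cor' leg').isEnd v = T.isEnd v := by
  unfold TData.isEnd
  exact decide_eq_decide.2 (h.fz (v, T.one v)).symm

theorem relab_of {w' : List TPiece} (hT' : IsTemplate w' c F' cor') (hL' : IsLegs w' c leg')
    {w : List TPiece} (hT : T.Of w) (h : URel T.F T.cor T.leg F' cor' leg') :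
    (T.relab F' cor' leg').Of w' where
  tmpl := hT'
  legs := hL'
  bdy := by
    intro f hf
    have hb := hT.bdy _ (upsi_mem h hf)
    refine ⟨hb.per, hb.inj, fun p => ?_, fun j => ?_⟩
    · change cor' p.1 p.2 = f ↔ _
      rw [upsi_iff h hf p]
      exact hb.mem p
    · exact (relab_mate h _ _).2 (hb.mate j)
  one v k hk := hT.one v k ((h.fz (v, k)).2 hk)

/-- The renumbered parameters. -/
noncomputable def Par.relab (Q : Par c) (T : TData c) (cor' : Fin c → Fin 4 → ℕ) : Par c :=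
  ⟨Q.x, Q.x', fun f => Q.z (upsi T.cor cor' f), fun f => Q.z' (upsi T.cor cor' f), Q.s, Q.U⟩

theorem relab_up (h : URel T.F T.cor T.leg F' cor' leg') (x : Fin c → Fin 4 → Fin 3 → ℂ)
    (z : ℕ → ℕ → Fin 3 → ℂ) (p : Fin c × Fin 4) :
    (T.relab F' cor' leg').up x (fun f => z (upsi T.cor cor' f)) p = T.up x z p := by
  unfold TData.up
  rw [relab_isEnd h]
  refine congrArg₂ (· + ·) rfl ?_
  have e1 : (T.relab F' cor' leg').cor p.1 p.2 = cor' p.1 p.2 := rfl
  have e2 : (T.relab F' cor' leg').F = F' := rfl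
  rw [e1, e2]
  by_cases hp : T.cor p.1 p.2 ∈ T.F
  · rw [if_pos hp, if_pos ((h.fb p).1 hp)]
    have e3 : (T.relab F' cor' leg').deg (cor' p.1 p.2) = T.deg (T.cor p.1 p.2) := by
      change T.deg (upsi T.cor cor' _) = _
      rw [upsi_cor h]
    have e4 : (T.relab F' cor' leg').bd (cor' p.1 p.2) = T.bd (T.cor p.1 p.2) := by
      change T.bd (upsi T.cor cor' _) = _
      rw [upsi_cor h]
    have e5 : (fun f => z (upsi T.cor cor' f)) (cor' p.1 p.2) = z (T.cor p.1 p.2) := by
      change z (upsi T.cor cor' _) = _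
      rw [upsi_cor h]
    rw [e3, e4, e5]
  · rw [if_neg hp, if_neg (fun h' => hp ((h.fb p).2 h'))]

theorem relab_glue {κ : ℂ} {a : Fin c → ℤ} {Q : Par c} (h : URel T.F T.cor T.leg F' cor' leg')
    (hQ : Glue κ T a Q) : Glue κ (T.relab F' cor' leg') a (Q.relab T cor') where
  spk := hQ.spk
  chd := hQ.chd
  chd0 v hv := hQ.chd0 v (by rwa [relab_isEnd h] at hv)
  dia v hv := hQ.dia v (by rwa [relab_isEnd h] at hv)
  lon := hQ.lon
  lon' := hQ.lon'
  fill := hQ.fill
  out v k hk := hQ.out v k fun hk' => hk ((h.fb (v, k)).1 hk')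
  bas f hf hd j hj := hQ.bas _ (upsi_mem h hf) hd j hj
  sum f hf := hQ.sum _ (upsi_mem h hf)
  diag f hf j h2 hj := hQ.diag _ (upsi_mem h hf) j h2 hj
  up p q hm h0 hp hq := by
    have hm' := (relab_mate h p q).1 hm
    have h0' : T.leg p.1 p.2 ≠ 0 := fun e => h0 ((h.fz p).1 e)
    have := hQ.up p q hm' h0' ((h.fb p).2 hp) ((h.fb q).2 hq)
    change (T.relab F' cor' leg').up Q.x (fun f => Q.z (upsi T.cor cor' f)) p +
      (T.relab F' cor' leg').up Q.x (fun f => Q.z (upsi T.cor cor' f)) q = 2 * κ ∧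
      (T.relab F' cor' leg').up Q.x' (fun f => Q.z' (upsi T.cor cor' f)) p +
      (T.relab F' cor' leg').up Q.x' (fun f => Q.z' (upsi T.cor cor' f)) q = 2 * κ
    rw [relab_up h, relab_up h, relab_up h, relab_up h]
    exact this
  up0 p q hm h0 hpq := by
    have hm' := (relab_mate h p q).1 hm
    have h0' : T.leg p.1 p.2 ≠ 0 := fun e => h0 ((h.fz p).1 e)
    have := hQ.up0 p q hm' h0' fun hc => hpq ⟨(h.fb p).1 hc.1, (h.fb q).1 hc.2⟩
    change (T.relab F' cor' leg').up Q.x (fun f => Q.z (upsi T.cor cor' f)) p +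
      (T.relab F' cor' leg').up Q.x (fun f => Q.z (upsi T.cor cor' f)) q +
      (T.relab F' cor' leg').up Q.x' (fun f => Q.z' (upsi T.cor cor' f)) p +
      (T.relab F' cor' leg').up Q.x' (fun f => Q.z' (upsi T.cor cor' f)) q +
      (if (T.relab F' cor' leg').isEnd p.1 ∧ lga (T.one p.1) 3 = p.2 then κ + Q.U p.1 else 0) +
      (if (T.relab F' cor' leg').isEnd q.1 ∧ lga (T.one q.1) 3 = q.2 then κ + Q.U q.1 else 0) =
      2 * κ
    rw [relab_up h, relab_up h, relab_up h, relab_up h, relab_isEnd h, relab_isEnd h]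
    exact this

theorem relab_has (h : URel T.F T.cor T.leg F' cor' leg') (v : Fin c) (k : Fin 4) :
    (T.relab F' cor' leg').has v k ↔ T.has v k := by
  unfold TData.has
  rw [relab_isEnd h]

theorem relab_lg (h : URel T.F T.cor T.leg F' cor' leg') (o : Bool) (X : Fin c → Fin 4 → ℂ) :
    (T.relab F' cor' leg').lg o X = T.lg o X := by
  funext v k
  unfold TData.lg
  by_cases hk : T.has v k
  · rw [if_pos hk, if_pos ((relab_has h v k).2 hk)]
    rfl
  · rw [if_neg hk, if_neg fun h' => hk ((relab_has h v k).1 h')]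

theorem relab_geom (h : URel T.F T.cor T.leg F' cor' leg') {a : Fin c → ℤ}
    {X X' : Fin c → Fin 4 → ℂ} {Z Z' : ℕ → ℕ → ℂ} (hG : T.IsGeom a X X' Z Z') :
    (T.relab F' cor' leg').IsGeom a X X' (fun f => Z (upsi T.cor cor' f))
      (fun f => Z' (upsi T.cor cor' f)) := by
  obtain ⟨g1, g2, s, U, g3⟩ := hG
  refine ⟨fun v k hk => g1 v k ((relab_has h v k).1 hk),
    fun f hf j h0 h1 => g2 _ (upsi_mem h hf) j h0 h1, s, U, ?_⟩
  rw [relab_lg h, relab_lg h]
  exact relab_glue h g3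

theorem relab_vol (h : URel T.F T.cor T.leg F' cor' leg') (X X' : Fin c → Fin 4 → ℂ)
    (Z Z' : ℕ → ℕ → ℂ) : (T.relab F' cor' leg').vol X X' (fun f => Z (upsi T.cor cor' f))
      (fun f => Z' (upsi T.cor cor' f)) = T.vol X X' Z Z' := by
  unfold TData.vol
  refine congrArg₂ (· + ·) ?_ ?_
  · refine Finset.sum_congr rfl fun v _ => Finset.sum_congr rfl fun k _ => ?_
    by_cases hk : T.has v k
    · rw [if_pos hk, if_pos ((relab_has h v k).2 hk)]
    · rw [if_neg hk, if_neg fun h' => hk ((relab_has h v k).1 h')]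
  · exact usum h fun f => ∑ j ∈ Finset.Ico 1 (T.deg f - 1), (blochWigner (Z f j) + blochWigner (Z' f j))

/-! ### The complex volume -/

theorem relab_pls (h : URel T.F T.cor T.leg F' cor' leg') (z : ℕ → ℕ → Fin 3 → ℂ)
    (p : Fin c × Fin 4) :
    (T.relab F' cor' leg').pls (fun f => z (upsi T.cor cor' f)) p = T.pls z p := by
  unfold TData.pls
  have e1 : (T.relab F' cor' leg').cor p.1 p.2 = cor' p.1 p.2 := rfl
  have e2 : (T.relab F' cor' leg').F = F' := rfl
  rw [e1, e2]
  by_cases hp : T.cor p.1 p.2 ∈ T.F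
  · rw [if_pos hp, if_pos ((h.fb p).1 hp)]
    have e3 : (T.relab F' cor' leg').deg (cor' p.1 p.2) = T.deg (T.cor p.1 p.2) := by
      change T.deg (upsi T.cor cor' _) = _
      rw [upsi_cor h]
    have e4 : (T.relab F' cor' leg').bd (cor' p.1 p.2) = T.bd (T.cor p.1 p.2) := by
      change T.bd (upsi T.cor cor' _) = _
      rw [upsi_cor h]
    have e5 : (fun f => z (upsi T.cor cor' f)) (cor' p.1 p.2) = z (T.cor p.1 p.2) := by
      change z (upsi T.cor cor' _) = _
      rw [upsi_cor h]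
    rw [e3, e4, e5]
  · rw [if_neg hp, if_neg (fun h' => hp ((h.fb p).2 h'))]

theorem relab_hol (h : URel T.F T.cor T.leg F' cor' leg') (x : Fin c → Fin 4 → Fin 3 → ℂ)
    (z : ℕ → ℕ → Fin 3 → ℂ) (p q : Fin c × Fin 4) :
    (T.relab F' cor' leg').hol x (fun f => z (upsi T.cor cor' f)) p q = T.hol x z p q := by
  unfold TData.hol
  rw [relab_pls h]
  rfl

theorem relab_hol0 (h : URel T.F T.cor T.leg F' cor' leg') (x : Fin c → Fin 4 → Fin 3 → ℂ)
    (z : ℕ → ℕ → Fin 3 → ℂ) (p q : Fin c × Fin 4) :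
    (T.relab F' cor' leg').hol0 x (fun f => z (upsi T.cor cor' f)) p q = T.hol0 x z p q := by
  unfold TData.hol0
  refine congrArg₂ (· + ·) rfl ?_
  refine Finset.sum_congr rfl fun v _ => Finset.sum_congr rfl fun k _ => ?_
  have e1 : (T.relab F' cor' leg').leg v k = leg' v k := rfl
  have e2 : ∀ v k, (T.relab F' cor' leg').cor v k = cor' v k := fun _ _ => rfl
  have z1 := h.fz (v, k)
  have c1 := h.fc (v, k) q
  have c2 := h.fc (v, k - 1) q
  simp only at z1 c1 c2
  simp only [e1, e2, relab_up h, ← z1, ← c1, ← c2]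

theorem relab_lon {a : Fin c → ℤ} {Q : Par c} {g : Bool → Fin c → Fin 4 → ℂ}
    (h : URel T.F T.cor T.leg F' cor' leg') (hL : Lon T a Q g) :
    Lon (T.relab F' cor' leg') a (Q.relab T cor') g where
  pass := hL.pass
  lon p q hm hq := by
    have := hL.lon p q ((relab_mate h p q).1 hm) ((h.fb q).2 hq)
    change (T.relab F' cor' leg').hol Q.x (fun f => Q.z (upsi T.cor cor' f)) p q = _ ∧
      -(T.relab F' cor' leg').hol Q.x' (fun f => Q.z' (upsi T.cor cor' f)) p q = _
    rw [relab_hol h, relab_hol h]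
    exact this
  lon0 p q hm hq := by
    have := hL.lon0 p q ((relab_mate h p q).1 hm) ((h.fz p).2 hq)
    change (T.relab F' cor' leg').hol0 Q.x (fun f => Q.z (upsi T.cor cor' f)) p q = _ ∧
      -(T.relab F' cor' leg').hol0 Q.x' (fun f => Q.z' (upsi T.cor cor' f)) p q = _
    rw [relab_hol0 h, relab_hol0 h]
    exact this

/-- The renumbered directions. -/
noncomputable def Dir.relab (D : Dir c) (T : TData c) (cor' : Fin c → Fin 4 → ℕ) : Dir c :=
  ⟨D.x, D.y, fun f => D.w (upsi T.cor cor' f)⟩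

theorem relab_dir {a : Fin c → ℤ} {D : Dir c} (h : URel T.F T.cor T.leg F' cor' leg')
    (hD : T.IsDir a D) : (T.relab F' cor' leg').IsDir a (D.relab T cor') where
  par := hD.par
  fst v hv := hD.fst v (by rwa [relab_isEnd h] at hv)
  acv := hD.acv
  two f hf hd := hD.two _ (upsi_mem h hf) hd
  w0 f hf := hD.w0 _ (upsi_mem h hf)
  w1 f hf := hD.w1 _ (upsi_mem h hf)
  acf f hf := hD.acf _ (upsi_mem h hf)

theorem relab_flats {X X' : Fin c → Fin 4 → ℂ} {Y Y' : ℕ → ℕ → ℂ} {Q : Par c}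
    (h : URel T.F T.cor T.leg F' cor' leg') (hF : T.IsFlats X X' Y Y' Q) :
    (T.relab F' cor' leg').IsFlats X X' (fun f => Y (upsi T.cor cor' f))
      (fun f => Y' (upsi T.cor cor' f)) (Q.relab T cor') where
  x v k hk := hF.x v k ((relab_has h v k).1 hk)
  x' v k hk := hF.x' v k ((relab_has h v k).1 hk)
  no v k hk := hF.no v k fun h' => hk ((relab_has h v k).2 h')
  z f hf j h0 h1 := hF.z _ (upsi_mem h hf) j h0 h1

theorem relab_cvol {X X' : Fin c → Fin 4 → ℂ} {Y Y' : ℕ → ℕ → ℂ} {Q : Par c} {D : Dir c}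
    (h : URel T.F T.cor T.leg F' cor' leg') :
    (T.relab F' cor' leg').cvol X X' (fun f => Y (upsi T.cor cor' f))
      (fun f => Y' (upsi T.cor cor' f)) (Q.relab T cor') (D.relab T cor') =
      T.cvol X X' Y Y' Q D := by
  unfold TData.cvol
  refine congrArg₂ (· + ·) ?_ ?_
  · refine Finset.sum_congr rfl fun v _ => Finset.sum_congr rfl fun k _ => ?_
    by_cases hk : T.has v k
    · rw [if_pos hk, if_pos ((relab_has h v k).2 hk)]
      rfl
    · rw [if_neg hk, if_neg fun h' => hk ((relab_has h v k).1 h')]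
  · exact usum h fun f => ∑ j ∈ Finset.Ico 1 (T.deg f - 1),
      (ordR true (Y f j) (Q.z f j) (T.dirf D f j) + ordR false (Y' f j) (Q.z' f j) (T.dirf D f j))

/-! ### The volumes -/

section

variable {F F' : Finset ℕ} {cor leg cor' leg' : Fin c → Fin 4 → ℕ} {w w' : List TPiece}

theorem isVolume_rel (hT : IsTemplate w c F cor) (hL : IsLegs w c leg)
    (hT' : IsTemplate w' c F' cor') (hL' : IsLegs w' c leg') (h : URel F cor leg F' cor' leg')
    {a : ℕ → ℤ} {V : ℝ} (hV : IsVolume w a V) : IsVolume w' a V := by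
  obtain ⟨c₁, T, X, X', Z, Z', hO, hG, rfl⟩ := hV
  have e := template_unique hT hO.tmpl
  subst e
  obtain ⟨rfl, rfl⟩ := template_unique' hT hO.tmpl
  obtain rfl := legs_unique hL hO.legs
  exact ⟨_, T.relab F' cor' leg', X, X', _, _, relab_of hT' hL' hO h, relab_geom h hG,
    (relab_vol h X X' Z Z').symm⟩

theorem isComplexVolume_rel (hT : IsTemplate w c F cor) (hL : IsLegs w c leg)
    (hT' : IsTemplate w' c F' cor') (hL' : IsLegs w' c leg') (h : URel F cor leg F' cor' leg')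
    {a : ℕ → ℤ} {Z : ℂ} (hV : IsComplexVolume w a Z) : IsComplexVolume w' a Z := by
  obtain ⟨c₁, T, X, X', Y, Y', Q, g, D, hO, hG, hF, hQ, hLn, hD, rfl⟩ := hV
  have e := template_unique hT hO.tmpl
  subst e
  obtain ⟨rfl, rfl⟩ := template_unique' hT hO.tmpl
  obtain rfl := legs_unique hL hO.legs
  exact ⟨_, T.relab F' cor' leg', X, X', _, _, Q.relab T cor', g, D.relab T cor',
    relab_of hT' hL' hO h, relab_geom h hG, relab_flats h hF, relab_glue h hQ, relab_lon h hLn,
    relab_dir h hD, (relab_cvol h).symm⟩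

end

end Pool.Agent.H63.CLK
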